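import Mathlib

/-!
Planar lattices with a rotation (module B6a of the infinite fully transitive polyhedra).
-/

namespace Pool.Agent.H21.FT

/-- the primitive third root of unity `(-1 + √3 i) / 2` -/
noncomputable def om : ℂ := ⟨-1 / 2, √3 / 2⟩

theorem om_re : om.re = -1 / 2 := rfl

theorem om_im : om.im = √3 / 2 := rfl

private theorem sq3 : (√3 : ℝ) * √3 = 3 := Real.mul_self_sqrt (by norm_num)

/-- norm of `a + b i` -/
private theorem normSq_I (a b : ℝ) : Complex.normSq ((a : ℂ) + b * Complex.I) = a ^ 2 + b ^ 2 := by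
  simp [Complex.normSq_apply]
  ring

/-- norm of `a + b ω` -/
private theorem normSq_om (a b : ℝ) :
    Complex.normSq ((a : ℂ) + b * om) = a ^ 2 - a * b + b ^ 2 := by
  have h := sq3
  simp only [Complex.normSq_apply, Complex.add_re, Complex.ofReal_re, Complex.mul_re,
    Complex.ofReal_im, om_re, om_im, Complex.add_im, Complex.mul_im]
  nlinarith [h]

private theorem exists_coord_I (z : ℂ) : ∃ a b : ℝ, z = (a : ℂ) + b * Complex.I :=
  ⟨z.re, z.im, (Complex.re_add_im z).symm⟩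

private theorem exists_coord_om (z : ℂ) : ∃ a b : ℝ, z = (a : ℂ) + b * om := by
  have h := sq3
  have h3 : (√3 : ℝ) ≠ 0 := by positivity
  refine ⟨z.re + z.im / √3, 2 * z.im / √3, ?_⟩
  apply Complex.ext
  · simp only [Complex.add_re, Complex.ofReal_re, Complex.mul_re, Complex.ofReal_im, om_re,
      om_im]
    field_simp
    ring
  · simp only [Complex.add_im, Complex.ofReal_re, Complex.mul_im, Complex.ofReal_im, om_re,
      om_im]
    field_simp
    ring

/-- general statement: if `v` is of minimal length in `Λ`, `v, e v ∈ Λ`, and every complex number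
is within distance `< 1` of `ℤ + ℤ e`, then `Λ = (ℤ + ℤ e) v` -/
private theorem mem_iff (Λ : AddSubgroup ℂ) {v e : ℂ} (hv : v ∈ Λ) (hv0 : v ≠ 0)
    (hmin : ∀ z ∈ Λ, ‖z‖ < ‖v‖ → z = 0) (hev : e * v ∈ Λ)
    (he : ∀ z : ℂ, ∃ m n : ℤ, ‖z - (m + n * e)‖ < 1) (z : ℂ) :
    z ∈ Λ ↔ ∃ m n : ℤ, z = (m + n * e) * v := by
  have hmn : ∀ m n : ℤ, ((m : ℂ) + n * e) * v ∈ Λ := by
    intro m n
    have h1 : ((m : ℂ) + n * e) * v = m • v + n • (e * v) := by
      simp only [zsmul_eq_mul]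
      ring
    rw [h1]
    exact Λ.add_mem (Λ.zsmul_mem hv m) (Λ.zsmul_mem hev n)
  constructor
  · intro hz
    obtain ⟨m, n, h⟩ := he (z / v)
    refine ⟨m, n, ?_⟩
    have h2 : z - (m + n * e) * v = (z / v - (m + n * e)) * v := by
      field_simp
    have h3 : ‖z - (m + n * e) * v‖ < ‖v‖ := by
      rw [h2, norm_mul]
      have hvpos : 0 < ‖v‖ := norm_pos_iff.mpr hv0
      nlinarith
    have h4 := hmin _ (Λ.sub_mem hz (hmn m n)) h3
    exact sub_eq_zero.mp h4
  · rintro ⟨m, n, rfl⟩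
    exact hmn m n

private theorem close_I (z : ℂ) : ∃ m n : ℤ, ‖z - (m + n * Complex.I)‖ < 1 := by
  obtain ⟨a, b, rfl⟩ := exists_coord_I z
  refine ⟨round a, round b, ?_⟩
  have h1 : ((a : ℂ) + b * Complex.I) - (((round a : ℤ) : ℂ) + ((round b : ℤ) : ℂ) * Complex.I)
      = ((a - round a : ℝ) : ℂ) + ((b - round b : ℝ) : ℂ) * Complex.I := by
    push_cast
    ring
  rw [h1]
  have h2 : ‖((a - round a : ℝ) : ℂ) + ((b - round b : ℝ) : ℂ) * Complex.I‖ ^ 2 < 1 := by
    rw [← Complex.normSq_eq_norm_sq, normSq_I]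
    have ha := abs_sub_round a
    have hb := abs_sub_round b
    rw [abs_le] at ha hb
    nlinarith
  have h3 := norm_nonneg (((a - round a : ℝ) : ℂ) + ((b - round b : ℝ) : ℂ) * Complex.I)
  nlinarith

private theorem close_om (z : ℂ) : ∃ m n : ℤ, ‖z - (m + n * om)‖ < 1 := by
  obtain ⟨a, b, rfl⟩ := exists_coord_om z
  refine ⟨round a, round b, ?_⟩
  have h1 : ((a : ℂ) + b * om) - (((round a : ℤ) : ℂ) + ((round b : ℤ) : ℂ) * om)
      = ((a - round a : ℝ) : ℂ) + ((b - round b : ℝ) : ℂ) * om := by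
    push_cast
    ring
  rw [h1]
  have h2 : ‖((a - round a : ℝ) : ℂ) + ((b - round b : ℝ) : ℂ) * om‖ ^ 2 < 1 := by
    rw [← Complex.normSq_eq_norm_sq, normSq_om]
    have ha := abs_sub_round a
    have hb := abs_sub_round b
    rw [abs_le] at ha hb
    nlinarith [mul_nonneg (sub_nonneg.mpr ha.2) (sub_nonneg.mpr hb.2),
      mul_nonneg (by linarith [ha.1] : (0 : ℝ) ≤ (a - round a) + 1 / 2) (sub_nonneg.mpr hb.2),
      mul_nonneg (sub_nonneg.mpr ha.2) (by linarith [hb.1] : (0 : ℝ) ≤ (b - round b) + 1 / 2),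
      mul_nonneg (by linarith [ha.1] : (0 : ℝ) ≤ (a - round a) + 1 / 2)
        (by linarith [hb.1] : (0 : ℝ) ≤ (b - round b) + 1 / 2)]
  have h3 := norm_nonneg (((a - round a : ℝ) : ℂ) + ((b - round b : ℝ) : ℂ) * om)
  nlinarith

private theorem norm_eq_one_of {v c : ℂ} (hv0 : v ≠ 0) (h : ‖c * v‖ = ‖v‖) :
    Complex.normSq c = 1 := by
  rw [norm_mul] at h
  have hvpos : 0 < ‖v‖ := norm_pos_iff.mpr hv0
  have h1 : ‖c‖ = 1 := by
    have : (‖c‖ - 1) * ‖v‖ = 0 := by linarith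
    rcases mul_eq_zero.mp this with h' | h'
    · linarith
    · exact absurd h' hvpos.ne'
  rw [Complex.normSq_eq_norm_sq, h1]
  norm_num

private theorem units_I {v : ℂ} (hv0 : v ≠ 0) (m n : ℤ)
    (h : ‖((m : ℂ) + n * Complex.I) * v‖ = ‖v‖) :
    ((m : ℂ) + n * Complex.I) * v = v ∨ ((m : ℂ) + n * Complex.I) * v = -v ∨
      ((m : ℂ) + n * Complex.I) * v = Complex.I * v ∨
      ((m : ℂ) + n * Complex.I) * v = -Complex.I * v := by
  have h1 := norm_eq_one_of hv0 h
  have h2 : ((m : ℂ) + n * Complex.I) = (((m : ℝ) : ℂ) + ((n : ℝ) : ℂ) * Complex.I) := by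
    push_cast
    ring
  rw [h2, normSq_I] at h1
  have h3 : m ^ 2 + n ^ 2 = 1 := by exact_mod_cast h1
  have hm1 : m ≤ 1 := by nlinarith
  have hm2 : -1 ≤ m := by nlinarith
  have hn1 : n ≤ 1 := by nlinarith
  have hn2 : -1 ≤ n := by nlinarith
  interval_cases m <;> interval_cases n <;> simp_all

private theorem units_om {v : ℂ} (hv0 : v ≠ 0) (m n : ℤ)
    (h : ‖((m : ℂ) + n * om) * v‖ = ‖v‖) :
    ((m : ℂ) + n * om) * v = v ∨ ((m : ℂ) + n * om) * v = -v ∨
      ((m : ℂ) + n * om) * v = om * v ∨ ((m : ℂ) + n * om) * v = -om * v ∨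
      ((m : ℂ) + n * om) * v = (1 + om) * v ∨ ((m : ℂ) + n * om) * v = -(1 + om) * v := by
  have h1 := norm_eq_one_of hv0 h
  have h2 : ((m : ℂ) + n * om) = (((m : ℝ) : ℂ) + ((n : ℝ) : ℂ) * om) := by
    push_cast
    ring
  rw [h2, normSq_om] at h1
  have h3 : m ^ 2 - m * n + n ^ 2 = 1 := by exact_mod_cast h1
  have hm1 : m ≤ 1 := by nlinarith [sq_nonneg (m - 2 * n)]
  have hm2 : -1 ≤ m := by nlinarith [sq_nonneg (m - 2 * n)]
  have hn1 : n ≤ 1 := by nlinarith [sq_nonneg (n - 2 * m)]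
  have hn2 : -1 ≤ n := by nlinarith [sq_nonneg (n - 2 * m)]
  have key : (m = 1 ∧ n = 0) ∨ (m = -1 ∧ n = 0) ∨ (m = 0 ∧ n = 1) ∨ (m = 0 ∧ n = -1) ∨
      (m = 1 ∧ n = 1) ∨ (m = -1 ∧ n = -1) := by
    interval_cases m <;> interval_cases n <;> simp_all
  rcases key with ⟨rfl, rfl⟩ | ⟨rfl, rfl⟩ | ⟨rfl, rfl⟩ | ⟨rfl, rfl⟩ | ⟨rfl, rfl⟩ | ⟨rfl, rfl⟩
  · left; push_cast; ring
  · right; left; push_cast; ring
  · right; right; left; push_cast; ring
  · right; right; right; left; push_cast; ring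
  · right; right; right; right; left; push_cast; ring
  · right; right; right; right; right; push_cast; ring

/-- B6a (file PlanarLat.lean, with the definition of `om`) -/
theorem planar_lat (Λ : AddSubgroup ℂ) (hd : ∀ R : ℝ, {z : ℂ | z ∈ Λ ∧ ‖z‖ ≤ R}.Finite)
    (hne : ∃ z ∈ Λ, z ≠ 0) {u : ℂ} (hu : ‖u‖ = 1) (h1 : u ≠ 1) (h2 : u ≠ -1)
    (hinv : ∀ z ∈ Λ, u * z ∈ Λ) :
    ∃ v ∈ Λ, v ≠ 0 ∧
      ((u * u = -1 ∧ (∀ z, z ∈ Λ ↔ ∃ m n : ℤ, z = (m + n * Complex.I) * v) ∧
        ∀ z ∈ Λ, ‖z‖ = ‖v‖ → z = v ∨ z = -v ∨ z = Complex.I * v ∨ z = -Complex.I * v) ∨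
      ((u * u + u + 1 = 0 ∨ u * u - u + 1 = 0) ∧
        (∀ z, z ∈ Λ ↔ ∃ m n : ℤ, z = (m + n * om) * v) ∧
        ∀ z ∈ Λ, ‖z‖ = ‖v‖ → z = v ∨ z = -v ∨ z = om * v ∨ z = -om * v ∨
          z = (1 + om) * v ∨ z = -(1 + om) * v)) := by
  obtain ⟨z0, hz0, hz0'⟩ := hne
  -- a shortest vector
  obtain ⟨v, ⟨⟨hv, -⟩, hv0⟩, hvmin⟩ : ∃ v ∈ {z : ℂ | (z ∈ Λ ∧ ‖z‖ ≤ ‖z0‖) ∧ z ≠ 0},
      ∀ z ∈ {z : ℂ | (z ∈ Λ ∧ ‖z‖ ≤ ‖z0‖) ∧ z ≠ 0}, ‖v‖ ≤ ‖z‖ := by
    apply Set.exists_min_image
    · exact (hd ‖z0‖).subset (fun z hz => hz.1)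
    · exact ⟨z0, ⟨hz0, le_rfl⟩, hz0'⟩
  have hmin : ∀ z ∈ Λ, ‖z‖ < ‖v‖ → z = 0 := by
    intro z hz hlt
    by_contra hne0
    have hvz0 : ‖v‖ ≤ ‖z0‖ := hvmin z0 ⟨⟨hz0, le_rfl⟩, hz0'⟩
    have := hvmin z ⟨⟨hz, by linarith⟩, hne0⟩
    linarith
  have hvpos : 0 < ‖v‖ := norm_pos_iff.mpr hv0
  have huv : u * v ∈ Λ := hinv v hv
  have huuv : u * (u * v) ∈ Λ := hinv _ huv
  -- `u` satisfies `u² - 2 re u · u + 1 = 0`
  have hn : u.re ^ 2 + u.im ^ 2 = 1 := by
    have := Complex.normSq_eq_norm_sq u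
    rw [hu, Complex.normSq_apply] at this
    nlinarith
  have hquad : u * u - ((2 * u.re : ℝ) : ℂ) * u + 1 = 0 := by
    apply Complex.ext
    · simp
      nlinarith
    · simp
      ring
  -- the trace is an integer
  obtain ⟨c, hc⟩ : ∃ c : ℤ, (2 * u.re : ℝ) = c := by
    refine ⟨⌊(2 * u.re : ℝ)⌋, ?_⟩
    have hmem : ((Int.fract (2 * u.re : ℝ) : ℝ) : ℂ) * (u * v) ∈ Λ := by
      have h3 : ((Int.fract (2 * u.re : ℝ) : ℝ) : ℂ) * (u * v)
          = u * (u * v) + v - ⌊(2 * u.re : ℝ)⌋ • (u * v) := by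
        have h4 : ((Int.fract (2 * u.re : ℝ) : ℝ) : ℂ)
            = ((2 * u.re : ℝ) : ℂ) - ((⌊(2 * u.re : ℝ)⌋ : ℤ) : ℂ) := by
          rw [← Int.self_sub_floor]
          push_cast
          ring
        rw [h4, zsmul_eq_mul]
        linear_combination (-v) * hquad
      rw [h3]
      exact Λ.sub_mem (Λ.add_mem huuv hv) (Λ.zsmul_mem huv _)
    have hlt : ‖((Int.fract (2 * u.re : ℝ) : ℝ) : ℂ) * (u * v)‖ < ‖v‖ := by
      rw [norm_mul, norm_mul, hu, one_mul, Complex.norm_real, Real.norm_eq_abs,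
        abs_of_nonneg (Int.fract_nonneg _)]
      nlinarith [Int.fract_lt_one (2 * u.re : ℝ)]
    have h0 := hmin _ hmem hlt
    have hu0 : u ≠ 0 := by
      intro h
      rw [h] at hu
      simp at hu
    have h5 : ((Int.fract (2 * u.re : ℝ) : ℝ) : ℂ) = 0 := by
      rcases mul_eq_zero.mp h0 with h | h
      · exact h
      · exact absurd h (mul_ne_zero hu0 hv0)
    have h6 : Int.fract (2 * u.re : ℝ) = 0 := by exact_mod_cast h5
    have h7 := Int.self_sub_floor (2 * u.re : ℝ)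
    rw [h6] at h7
    linarith
  have hlt1 : u.re < 1 := by
    by_contra hge
    push Not at hge
    apply h1
    have him : u.im = 0 := by nlinarith
    have hre : u.re = 1 := by nlinarith
    apply Complex.ext <;> simp [him, hre]
  have hgt1 : -1 < u.re := by
    by_contra hge
    push Not at hge
    apply h2
    have him : u.im = 0 := by nlinarith
    have hre : u.re = -1 := by nlinarith
    apply Complex.ext <;> simp [him, hre]
  have hc1 : c < 2 := by
    have : (c : ℝ) < 2 := by linarith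
    exact_mod_cast this
  have hc2 : -2 < c := by
    have : (-2 : ℝ) < c := by linarith
    exact_mod_cast this
  refine ⟨v, hv, hv0, ?_⟩
  have hom : om * om + om + 1 = 0 := by
    have h := sq3
    apply Complex.ext
    · simp [om_re, om_im]
      nlinarith
    · simp [om_re, om_im]
      ring
  interval_cases c
  · -- trace `-1`
    right
    have hq : u * u + u + 1 = 0 := by
      rw [hc] at hquad
      push_cast at hquad
      linear_combination hquad
    have hev : om * v ∈ Λ := by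
      have h3 : (u - om) * (u - (-1 - om)) = 0 := by linear_combination hq - hom
      rcases mul_eq_zero.mp h3 with h | h
      · rw [← sub_eq_zero.mp h]
        exact huv
      · have h4 : om * v = -v - u * v := by
          rw [sub_eq_zero.mp h]
          ring
        rw [h4]
        exact Λ.sub_mem (Λ.neg_mem hv) huv
    have hiff := mem_iff Λ hv hv0 hmin hev close_om
    refine ⟨Or.inl hq, hiff, ?_⟩
    intro z hz hzn
    obtain ⟨m, n, rfl⟩ := (hiff z).mp hz
    exact units_om hv0 m n hzn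
  · -- trace `0`
    left
    have hq : u * u = -1 := by
      rw [hc] at hquad
      push_cast at hquad
      linear_combination hquad
    have hev : Complex.I * v ∈ Λ := by
      have h3 : (u - Complex.I) * (u + Complex.I) = 0 := by
        linear_combination hq - Complex.I_mul_I
      rcases mul_eq_zero.mp h3 with h | h
      · rw [← sub_eq_zero.mp h]
        exact huv
      · have h4 : Complex.I * v = -(u * v) := by
          rw [eq_neg_of_add_eq_zero_left h]
          ring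
        rw [h4]
        exact Λ.neg_mem huv
    have hiff := mem_iff Λ hv hv0 hmin hev close_I
    refine ⟨hq, hiff, ?_⟩
    intro z hz hzn
    obtain ⟨m, n, rfl⟩ := (hiff z).mp hz
    exact units_I hv0 m n hzn
  · -- trace `1`
    right
    have hq : u * u - u + 1 = 0 := by
      rw [hc] at hquad
      push_cast at hquad
      linear_combination hquad
    have hev : om * v ∈ Λ := by
      have h3 : (u + om) * (u - (1 + om)) = 0 := by linear_combination hq - hom
      rcases mul_eq_zero.mp h3 with h | h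
      · have h4 : om * v = -(u * v) := by
          rw [eq_neg_of_add_eq_zero_left h]
          ring
        rw [h4]
        exact Λ.neg_mem huv
      · have h4 : om * v = u * v - v := by
          rw [sub_eq_zero.mp h]
          ring
        rw [h4]
        exact Λ.sub_mem huv hv
    have hiff := mem_iff Λ hv hv0 hmin hev close_om
    refine ⟨Or.inr hq, hiff, ?_⟩
    intro z hz hzn
    obtain ⟨m, n, rfl⟩ := (hiff z).mp hz
    exact units_om hv0 m n hzn

end Pool.Agent.H21.FT
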