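import Pool.Agent.H21.FT.AxialAux
import Pool.Agent.H21.FT.PlanarLat

/-!
# Discrete groups of isometries that preserve an axis
-/

namespace Pool.Agent.H21.FT

open Matrix

/-! ### The matrices with respect to the frames -/

/-- The matrix of `z ↦ (p + q i) z` or `z ↦ (p + q i) z̄` with respect to `1`, `i`. -/
def nTet (p q e : ℤ) : Bool → IM
  | false => ⟨⟨p, -q, 0⟩, ⟨q, p, 0⟩, ⟨0, 0, e⟩⟩
  | true => ⟨⟨p, q, 0⟩, ⟨q, -p, 0⟩, ⟨0, 0, e⟩⟩

/-- The matrix of `z ↦ (p + q ω) z` or `z ↦ (p + q ω) z̄` with respect to `1`, `ω`. -/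
def nHex (p q e : ℤ) : Bool → IM
  | false => ⟨⟨p, -q, 0⟩, ⟨q, p - q, 0⟩, ⟨0, 0, e⟩⟩
  | true => ⟨⟨p, q - p, 0⟩, ⟨q, -p, 0⟩, ⟨0, 0, e⟩⟩

theorem nTet_spec (p q e : ℤ) (σ : Bool) :
    rt ((p : ℂ) + q * Complex.I) σ (e : ℝ) * Kind.tet.frame 1 1 =
      Kind.tet.frame 1 1 * (nTet p q e σ).mat := by
  cases σ <;> ext i j <;> fin_cases i <;> fin_cases j <;>
    simp [rt, nTet, IM.mat, Kind.frame, mul_apply, Fin.sum_univ_three]

theorem nHex_spec (p q e : ℤ) (σ : Bool) :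
    rt ((p : ℂ) + q * om) σ (e : ℝ) * Kind.hex.frame 1 1 =
      Kind.hex.frame 1 1 * (nHex p q e σ).mat := by
  have h3 : √3 * √3 = 3 := Real.mul_self_sqrt (by norm_num)
  cases σ <;> ext i j <;> fin_cases i <;> fin_cases j <;>
    simp [rt, nHex, IM.mat, Kind.frame, mul_apply, Fin.sum_univ_three, om] <;>
    first | ring1 | (ring_nf; rw [Real.sq_sqrt (by norm_num)]; ring1)

/-- The element of the list of automorphisms for a unit of the planar lattice. -/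
theorem exists_tet {η : ℂ} (hη : η = 1 ∨ η = -1 ∨ η = Complex.I ∨ η = -Complex.I) (σ : Bool)
    {ε : ℝ} (hε : ε = 1 ∨ ε = -1) :
    ∃ N ∈ Kind.tet.auts, rt η σ ε * Kind.tet.frame 1 1 = Kind.tet.frame 1 1 * N.mat ∧
      (σ = false → η ≠ 1 → η ≠ -1 → Turns N) := by
  obtain ⟨e, he, he'⟩ : ∃ e : ℤ, ε = e ∧ (e = 1 ∨ e = -1) := by
    rcases hε with rfl | rfl
    · exact ⟨1, by norm_num, Or.inl rfl⟩
    · exact ⟨-1, by norm_num, Or.inr rfl⟩
  subst he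
  have key : ∀ p q : ℤ, η = (p : ℂ) + q * Complex.I → nTet p q e σ ∈ Kind.tet.auts →
      (σ = false → η ≠ 1 → η ≠ -1 → Turns (nTet p q e σ)) →
      ∃ N ∈ Kind.tet.auts, rt η σ e * Kind.tet.frame 1 1 = Kind.tet.frame 1 1 * N.mat ∧
      (σ = false → η ≠ 1 → η ≠ -1 → Turns N) := by
    intro p q h1 h2 h3
    refine ⟨nTet p q e σ, h2, ?_, h3⟩
    rw [h1]
    exact nTet_spec p q e σ
  rcases hη with h | h | h | h
  · refine key 1 0 (by rw [h]; simp) ?_ (fun _ h1 _ => absurd h h1)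
    rcases he' with rfl | rfl <;> cases σ <;> decide
  · refine key (-1) 0 (by rw [h]; simp) ?_ (fun _ _ h1 => absurd h h1)
    rcases he' with rfl | rfl <;> cases σ <;> decide
  · refine key 0 1 (by rw [h]; simp) ?_ ?_
    · rcases he' with rfl | rfl <;> cases σ <;> decide
    · rintro rfl _ _
      simp [Turns, nTet]
  · refine key 0 (-1) (by rw [h]; simp) ?_ ?_
    · rcases he' with rfl | rfl <;> cases σ <;> decide
    · rintro rfl _ _
      simp [Turns, nTet]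

theorem exists_hex {η : ℂ} (hη : η = 1 ∨ η = -1 ∨ η = om ∨ η = -om ∨ η = 1 + om ∨ η = -(1 + om))
    (σ : Bool) {ε : ℝ} (hε : ε = 1 ∨ ε = -1) :
    ∃ N ∈ Kind.hex.auts, rt η σ ε * Kind.hex.frame 1 1 = Kind.hex.frame 1 1 * N.mat ∧
      (σ = false → η ≠ 1 → η ≠ -1 → Turns N) := by
  obtain ⟨e, he, he'⟩ : ∃ e : ℤ, ε = e ∧ (e = 1 ∨ e = -1) := by
    rcases hε with rfl | rfl
    · exact ⟨1, by norm_num, Or.inl rfl⟩
    · exact ⟨-1, by norm_num, Or.inr rfl⟩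
  subst he
  have key : ∀ p q : ℤ, η = (p : ℂ) + q * om → nHex p q e σ ∈ Kind.hex.auts →
      (σ = false → η ≠ 1 → η ≠ -1 → Turns (nHex p q e σ)) →
      ∃ N ∈ Kind.hex.auts, rt η σ e * Kind.hex.frame 1 1 = Kind.hex.frame 1 1 * N.mat ∧
      (σ = false → η ≠ 1 → η ≠ -1 → Turns N) := by
    intro p q h1 h2 h3
    refine ⟨nHex p q e σ, h2, ?_, h3⟩
    rw [h1]
    exact nHex_spec p q e σ
  rcases hη with h | h | h | h | h | h
  · refine key 1 0 (by rw [h]; simp) ?_ (fun _ h1 _ => absurd h h1)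
    rcases he' with rfl | rfl <;> cases σ <;> decide
  · refine key (-1) 0 (by rw [h]; simp) ?_ (fun _ _ h1 => absurd h h1)
    rcases he' with rfl | rfl <;> cases σ <;> decide
  · refine key 0 1 (by rw [h]; simp) ?_ ?_
    · rcases he' with rfl | rfl <;> cases σ <;> decide
    · rintro rfl _ _
      simp [Turns, nHex]
  · refine key 0 (-1) (by rw [h]; simp) ?_ ?_
    · rcases he' with rfl | rfl <;> cases σ <;> decide
    · rintro rfl _ _
      simp [Turns, nHex]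
  · refine key 1 1 (by rw [h]; simp) ?_ ?_
    · rcases he' with rfl | rfl <;> cases σ <;> decide
    · rintro rfl _ _
      simp [Turns, nHex]
  · refine key (-1) (-1) (by rw [h]; simp; ring) ?_ ?_
    · rcases he' with rfl | rfl <;> cases σ <;> decide
    · rintro rfl _ _
      simp [Turns, nHex]

variable {Γ : Subgroup (Equiv.Perm V3)}

theorem rt_conj_false (w u : ℂ) (σ : Bool) (ε : ℝ) :
    (rt w false 1)ᵀ * rt u σ ε * rt w false 1 =
      rt ((starRingEnd ℂ) w * u * cj σ w) σ ε := by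
  rw [rt_transpose_false, rt_mul, rt_mul]
  cases σ <;> simp [cj]

theorem rt_orth {w : ℂ} (hw : (starRingEnd ℂ) w * w = 1) :
    (rt w false 1)ᵀ * rt w false 1 = 1 := by
  rw [rt_transpose_false, rt_mul]
  simp only [cj, hw, Bool.xor_false, mul_one]
  exact rt_one

theorem conj_mul_self {w : ℂ} (hw : ‖w‖ = 1) : (starRingEnd ℂ) w * w = 1 := by
  rw [← Complex.normSq_eq_conj_mul_self, Complex.normSq_eq_norm_sq, hw]
  norm_num

/-- All matrices `± 1`, `± conj` are in the orthorhombic list. -/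
theorem exists_ort {η : ℂ} (hη : η = 1 ∨ η = -1) (σ : Bool) {ε : ℝ} (hε : ε = 1 ∨ ε = -1) :
    ∃ N ∈ ortAuts, rt η σ ε = N.mat := by
  rcases hη with rfl | rfl <;> rcases hε with rfl | rfl <;> cases σ
  · exact ⟨⟨⟨1, 0, 0⟩, ⟨0, 1, 0⟩, ⟨0, 0, 1⟩⟩, by decide, by
      ext i j; fin_cases i <;> fin_cases j <;> simp [rt, IM.mat]⟩
  · exact ⟨⟨⟨1, 0, 0⟩, ⟨0, -1, 0⟩, ⟨0, 0, 1⟩⟩, by decide, by
      ext i j; fin_cases i <;> fin_cases j <;> simp [rt, IM.mat]⟩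
  · exact ⟨⟨⟨1, 0, 0⟩, ⟨0, 1, 0⟩, ⟨0, 0, -1⟩⟩, by decide, by
      ext i j; fin_cases i <;> fin_cases j <;> simp [rt, IM.mat]⟩
  · exact ⟨⟨⟨1, 0, 0⟩, ⟨0, -1, 0⟩, ⟨0, 0, -1⟩⟩, by decide, by
      ext i j; fin_cases i <;> fin_cases j <;> simp [rt, IM.mat]⟩
  · exact ⟨⟨⟨-1, 0, 0⟩, ⟨0, -1, 0⟩, ⟨0, 0, 1⟩⟩, by decide, by
      ext i j; fin_cases i <;> fin_cases j <;> simp [rt, IM.mat]⟩
  · exact ⟨⟨⟨-1, 0, 0⟩, ⟨0, 1, 0⟩, ⟨0, 0, 1⟩⟩, by decide, by
      ext i j; fin_cases i <;> fin_cases j <;> simp [rt, IM.mat]⟩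
  · exact ⟨⟨⟨-1, 0, 0⟩, ⟨0, -1, 0⟩, ⟨0, 0, -1⟩⟩, by decide, by
      ext i j; fin_cases i <;> fin_cases j <;> simp [rt, IM.mat]⟩
  · exact ⟨⟨⟨-1, 0, 0⟩, ⟨0, 1, 0⟩, ⟨0, 0, -1⟩⟩, by decide, by
      ext i j; fin_cases i <;> fin_cases j <;> simp [rt, IM.mat]⟩

/-- The case in which all rotations of the plane are `± 1`. -/
theorem axial_ort (hi : Iso Γ) (hax : ∀ M ∈ lin Γ, M *ᵥ e3 = e3 ∨ M *ᵥ e3 = -e3)
    (hrot : ∀ u ε, rt u false ε ∈ lin Γ → u = 1 ∨ u = -1) :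
    ∃ U : M3, Uᵀ * U = 1 ∧ U *ᵥ e3 = e3 ∧ ∀ M ∈ lin Γ, ∃ N ∈ ortAuts, Uᵀ * M * U = N.mat := by
  by_cases hex : ∃ u ε, ‖u‖ = 1 ∧ rt u true ε ∈ lin Γ
  · obtain ⟨u₁, ε₁, hu₁, h₁⟩ := hex
    obtain ⟨w, hw⟩ := IsAlgClosed.exists_eq_mul_self u₁
    have hwn : ‖w‖ = 1 := by
      have : ‖w‖ * ‖w‖ = 1 := by rw [← norm_mul, ← hw, hu₁]
      nlinarith [norm_nonneg w]
    have hcw := conj_mul_self hwn
    refine ⟨rt w false 1, rt_orth hcw, rt_e3 _ _, fun M hM => ?_⟩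
    obtain ⟨u, hu, σ, ε, hε, rfl⟩ := exists_rt (hi.orth hM) (hax M hM)
    rw [rt_conj_false]
    refine exists_ort ?_ σ hε
    cases σ
    · have : (starRingEnd ℂ) w * u * cj false w = u := by
        simp only [cj]
        linear_combination u * hcw
      rw [this]
      exact hrot u ε hM
    · have h2 := lin_mul hM h₁
      rw [rt_mul] at h2
      have h3 := hrot _ _ h2
      have : (starRingEnd ℂ) w * u * cj true w = u * cj true u₁ := by
        simp only [cj]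
        rw [hw, map_mul]
        ring
      rw [this]
      exact h3
  · refine ⟨1, by simp, by simp, fun M hM => ?_⟩
    obtain ⟨u, hu, σ, ε, hε, rfl⟩ := exists_rt (hi.orth hM) (hax M hM)
    rw [transpose_one, one_mul, mul_one]
    cases σ
    · exact exists_ort (hrot u ε hM) false hε
    · exact absurd ⟨u, ε, hu, hM⟩ hex

/-- The case of a translation that is not vertical. -/
theorem axial_lat (hi : Iso Γ) (hd : Disc Γ)
    (hax : ∀ M ∈ lin Γ, M *ᵥ e3 = e3 ∨ M *ᵥ e3 = -e3) {u₀ : ℂ} {ε₀ : ℝ}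
    (h₀ : rt u₀ false ε₀ ∈ lin Γ) (hu₀ : ‖u₀‖ = 1) (hε₀ : ε₀ = 1 ∨ ε₀ = -1) (h1 : u₀ ≠ 1)
    (h2 : u₀ ≠ -1) {t : V3} (ht : IsTrans Γ t) (htp : pl t ≠ 0) :
    ∃ U : M3, Uᵀ * U = 1 ∧ U *ᵥ e3 = e3 ∧ ∃ k : Kind, (k = .tet ∨ k = .hex) ∧
      (∀ M ∈ lin Γ, ∃ N ∈ k.auts, Uᵀ * M * U * k.frame 1 1 = k.frame 1 1 * N.mat) ∧
      (∃ M ∈ lin Γ, ∃ N ∈ k.auts, Uᵀ * M * U * k.frame 1 1 = k.frame 1 1 * N.mat ∧ Turns N) ∧
      ∃ δ : ℝ, 0 < δ ∧ ∀ a b : ℝ, IsTrans Γ (δ • (U *ᵥ (k.frame 1 1 *ᵥ ![a, b, 0]))) ↔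
        ∃ m n : ℤ, a = m ∧ b = n := by
  -- the planar lattice
  let Λ : AddSubgroup ℂ :=
    { carrier := {z | IsTrans Γ (up z)}
      add_mem' := fun {a b} ha hb => by
        change IsTrans Γ (up (a + b))
        rw [up_add]; exact ha.add hb
      zero_mem' := by
        change IsTrans Γ (up 0)
        rw [up_zero]; exact isTrans_zero Γ
      neg_mem' := fun {a} ha => by
        change IsTrans Γ (up (-a))
        rw [up_neg]; exact ha.neg }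
  have hmem : ∀ z, z ∈ Λ ↔ IsTrans Γ (up z) := fun z => Iff.rfl
  have hΛd : ∀ R : ℝ, {z : ℂ | z ∈ Λ ∧ ‖z‖ ≤ R}.Finite := by
    intro R
    refine ((hd R).image (fun g => pl (g 0))).subset ?_
    rintro z ⟨hz, hzR⟩
    obtain ⟨g, hg, h⟩ := (hmem z).1 hz
    have hg0 : g 0 = up z := by rw [h 0, mulVec_zero, zero_add]
    refine ⟨g, ⟨hg, fun i => ?_⟩, ?_⟩
    · rw [hg0]
      fin_cases i
      · exact (Complex.abs_re_le_norm z).trans hzR
      · exact (Complex.abs_im_le_norm z).trans hzR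
      · simpa [up] using (norm_nonneg z).trans hzR
    · change pl (g 0) = z
      rw [hg0, pl_up]
  have hinvM : ∀ u σ ε, rt u σ ε ∈ lin Γ → ∀ z ∈ Λ, u * cj σ z ∈ Λ := by
    intro u σ ε hM z hz
    rw [hmem] at hz ⊢
    have h3 := hz.lin hi hM
    rwa [eq_up (x := rt u σ ε *ᵥ up z) (by rw [rt_two]; simp [up]), pl_rt, pl_up] at h3
  have hne : ∃ z ∈ Λ, z ≠ 0 := by
    have h3 := ht.lin hi h₀
    have h4 : IsTrans Γ (ε₀ • t) := by
      rcases hε₀ with rfl | rfl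
      · rwa [one_smul]
      · rw [neg_one_smul]; exact ht.neg
    have h5 := h3.add h4.neg
    refine ⟨pl (rt u₀ false ε₀ *ᵥ t + -(ε₀ • t)), ?_, ?_⟩
    · rw [hmem, ← eq_up]
      · exact h5
      · simp [rt_two]
    · rw [pl_add, pl_rt, pl_neg, pl_smul]
      simp only [cj]
      have : u₀ * pl t + -((ε₀ : ℂ) * pl t) = (u₀ - ε₀) * pl t := by ring
      rw [this]
      refine mul_ne_zero ?_ htp
      rw [sub_ne_zero]
      rcases hε₀ with rfl | rfl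
      · simpa using h1
      · simpa using h2
  obtain ⟨v, hv, hv0, hcases⟩ := planar_lat Λ hΛd hne hu₀ h1 h2 (hinvM u₀ false ε₀ h₀)
  -- the rotation
  have hδ : 0 < ‖v‖ := norm_pos_iff.2 hv0
  obtain ⟨w, hw⟩ : ∃ w : ℂ, (‖v‖ : ℂ) * w = v :=
    ⟨v / ‖v‖, by rw [mul_div_cancel₀]; exact_mod_cast hδ.ne'⟩
  have hδ' : (‖v‖ : ℂ) ≠ 0 := by exact_mod_cast hδ.ne'
  have hwn : ‖w‖ = 1 := by
    have := congrArg norm hw
    rw [norm_mul, Complex.norm_real, norm_norm] at this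
    exact (mul_eq_left₀ hδ.ne').1 this
  have hcw := conj_mul_self hwn
  -- the units
  have hunit : ∀ u σ ε, ‖u‖ = 1 → rt u σ ε ∈ lin Γ → ∀ η : ℂ, u * cj σ v = η * v →
      (starRingEnd ℂ) w * u * cj σ w = η := by
    intro u σ ε hu hM η hη
    have h3 : u * cj σ w = η * w := by
      apply mul_left_cancel₀ hδ'
      have : cj σ v = (‖v‖ : ℂ) * cj σ w := by
        rw [← hw]
        cases σ
        · simp [cj, hw]
        · simp only [cj, map_mul, Complex.conj_ofReal, norm_mul, Complex.norm_real, norm_norm]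
          rw [hwn, mul_one]
      rw [this] at hη
      linear_combination hη - η * hw
    linear_combination (starRingEnd ℂ) w * h3 + η * hcw
  have hnorm : ∀ u σ ε, ‖u‖ = 1 → rt u σ ε ∈ lin Γ → ‖u * cj σ v‖ = ‖v‖ := by
    intro u σ ε hu _
    rw [norm_mul, hu, cj_norm, one_mul]
  refine ⟨rt w false 1, rt_orth hcw, rt_e3 _ _, ?_⟩
  have hfin : ∀ (F : M3) (κ : ℂ) (a b : ℝ), (F *ᵥ ![a, b, 0]) 2 = 0 →
      pl (F *ᵥ ![a, b, 0]) = a + b * κ →
      (IsTrans Γ (‖v‖ • (rt w false 1 *ᵥ (F *ᵥ ![a, b, 0]))) ↔ (a + b * κ) * v ∈ Λ) := by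
    intro F κ a b hF2 hFp
    have h3 : ‖v‖ • (rt w false 1 *ᵥ (F *ᵥ ![a, b, 0])) = up ((a + b * κ) * v) := by
      rw [eq_up (x := ‖v‖ • (rt w false 1 *ᵥ (F *ᵥ ![a, b, 0])))
        (by rw [Pi.smul_apply, rt_two, hF2]; simp), pl_smul, pl_rt, hFp]
      congr 1
      simp only [cj]
      linear_combination (a + b * κ) * hw
    rw [h3, hmem]
  have hcoord : ∀ (κ : ℂ), κ.im ≠ 0 → (∀ z, z ∈ Λ ↔ ∃ m n : ℤ, z = (m + n * κ) * v) →
      ∀ a b : ℝ, (a + b * κ) * v ∈ Λ ↔ ∃ m n : ℤ, a = m ∧ b = n := by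
    intro κ hκ hΛ a b
    rw [hΛ]
    constructor
    · rintro ⟨m, n, h⟩
      refine ⟨m, n, ?_⟩
      have h3 := mul_right_cancel₀ hv0 h
      have him := congrArg Complex.im h3
      have hre := congrArg Complex.re h3
      simp at him hre
      have hb : b = n := him.resolve_right hκ
      refine ⟨?_, hb⟩
      rw [hb] at hre
      linarith
    · rintro ⟨m, n, rfl, rfl⟩
      exact ⟨m, n, by push_cast; ring⟩
  rcases hcases with ⟨-, hΛ, hU⟩ | ⟨-, hΛ, hU⟩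
  · -- the square lattice
    have hU' : ∀ u σ ε, ‖u‖ = 1 → rt u σ ε ∈ lin Γ → ∃ η : ℂ, u * cj σ v = η * v ∧
        (η = 1 ∨ η = -1 ∨ η = Complex.I ∨ η = -Complex.I) := by
      intro u σ ε hu hM
      rcases hU _ (hinvM u σ ε hM v hv) (hnorm u σ ε hu hM) with h | h | h | h
      · exact ⟨1, by rw [h, one_mul], Or.inl rfl⟩
      · exact ⟨-1, by rw [h]; ring, Or.inr (Or.inl rfl)⟩
      · exact ⟨Complex.I, h, Or.inr (Or.inr (Or.inl rfl))⟩
      · exact ⟨-Complex.I, h, Or.inr (Or.inr (Or.inr rfl))⟩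
    refine ⟨.tet, Or.inl rfl, ?_, ?_, ‖v‖, hδ, ?_⟩
    · intro M hM
      obtain ⟨u, hu, σ, ε, hε, rfl⟩ := exists_rt (hi.orth hM) (hax M hM)
      obtain ⟨η, hη, hη'⟩ := hU' u σ ε hu hM
      obtain ⟨N, hN, hNe, -⟩ := exists_tet hη' σ hε
      exact ⟨N, hN, by rw [rt_conj_false, hunit u σ ε hu hM η hη, hNe]⟩
    · obtain ⟨η, hη, hη'⟩ := hU' u₀ false ε₀ hu₀ h₀
      have hη0 : u₀ = η := mul_right_cancel₀ hv0 hη
      obtain ⟨N, hN, hNe, hNt⟩ := exists_tet hη' false hε₀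
      refine ⟨_, h₀, N, hN, ?_, hNt rfl (by rw [← hη0]; exact h1) (by rw [← hη0]; exact h2)⟩
      rw [rt_conj_false, hunit u₀ false ε₀ hu₀ h₀ η hη, hNe]
    · intro a b
      rw [hfin _ Complex.I a b, hcoord Complex.I (by simp) hΛ a b]
      · simp [Kind.frame, mulVec, dotProduct, Fin.sum_univ_three]
      · apply Complex.ext <;>
          simp [pl, Kind.frame, mulVec, dotProduct, Fin.sum_univ_three]
  · -- the hexagonal lattice
    have hU' : ∀ u σ ε, ‖u‖ = 1 → rt u σ ε ∈ lin Γ → ∃ η : ℂ, u * cj σ v = η * v ∧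
        (η = 1 ∨ η = -1 ∨ η = om ∨ η = -om ∨ η = 1 + om ∨ η = -(1 + om)) := by
      intro u σ ε hu hM
      rcases hU _ (hinvM u σ ε hM v hv) (hnorm u σ ε hu hM) with h | h | h | h | h | h
      · exact ⟨1, by rw [h, one_mul], Or.inl rfl⟩
      · exact ⟨-1, by rw [h]; ring, Or.inr (Or.inl rfl)⟩
      · exact ⟨om, h, Or.inr (Or.inr (Or.inl rfl))⟩
      · exact ⟨-om, h, Or.inr (Or.inr (Or.inr (Or.inl rfl)))⟩
      · exact ⟨1 + om, h, Or.inr (Or.inr (Or.inr (Or.inr (Or.inl rfl))))⟩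
      · exact ⟨-(1 + om), h, Or.inr (Or.inr (Or.inr (Or.inr (Or.inr rfl))))⟩
    refine ⟨.hex, Or.inr rfl, ?_, ?_, ‖v‖, hδ, ?_⟩
    · intro M hM
      obtain ⟨u, hu, σ, ε, hε, rfl⟩ := exists_rt (hi.orth hM) (hax M hM)
      obtain ⟨η, hη, hη'⟩ := hU' u σ ε hu hM
      obtain ⟨N, hN, hNe, -⟩ := exists_hex hη' σ hε
      exact ⟨N, hN, by rw [rt_conj_false, hunit u σ ε hu hM η hη, hNe]⟩
    · obtain ⟨η, hη, hη'⟩ := hU' u₀ false ε₀ hu₀ h₀
      have hη0 : u₀ = η := mul_right_cancel₀ hv0 hη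
      obtain ⟨N, hN, hNe, hNt⟩ := exists_hex hη' false hε₀
      refine ⟨_, h₀, N, hN, ?_, hNt rfl (by rw [← hη0]; exact h1) (by rw [← hη0]; exact h2)⟩
      rw [rt_conj_false, hunit u₀ false ε₀ hu₀ h₀ η hη, hNe]
    · intro a b
      rw [hfin _ om a b, hcoord om (by simp [om]) hΛ a b]
      · simp [Kind.frame, mulVec, dotProduct, Fin.sum_univ_three]
      · apply Complex.ext <;>
          simp [pl, Kind.frame, mulVec, dotProduct, Fin.sum_univ_three, om] <;> ring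

/-- The case of vertical translations. -/
theorem axial_rod (hi : Iso Γ) (hax : ∀ M ∈ lin Γ, M *ᵥ e3 = e3 ∨ M *ᵥ e3 = -e3)
    {u₀ : ℂ} {ε₀ : ℝ} (h₀ : rt u₀ false ε₀ ∈ lin Γ) (h1 : u₀ ≠ 1)
    (htr : ∀ t, IsTrans Γ t → pl t = 0) :
    ∃ o : V3, ∀ g ∈ Γ, (g o) 0 = o 0 ∧ (g o) 1 = o 1 := by
  obtain ⟨α, hα, a₀, hαa⟩ := h₀
  have h1' : (1 : ℂ) - u₀ ≠ 0 := sub_ne_zero.2 (Ne.symm h1)
  obtain ⟨z₀, hz₀⟩ : ∃ z₀ : ℂ, u₀ * z₀ + pl a₀ = z₀ :=
    ⟨pl a₀ / (1 - u₀), by field_simp; ring⟩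
  have hαp : ∀ x, pl (α x) = u₀ * pl x + pl a₀ := fun x => by
    rw [hαa x, pl_add, pl_rt]; rfl
  have hfix : ∀ x, pl (α x) = pl x → pl x = z₀ := by
    intro x hx
    rw [hαp] at hx
    apply mul_left_cancel₀ h1'
    linear_combination -hx + hz₀
  have hα0 : pl (α (up z₀)) = z₀ := by rw [hαp, pl_up, hz₀]
  -- the elements of `Γ` act on the plane
  have hrep : ∀ g ∈ Γ, ∃ (u : ℂ) (σ : Bool) (ε : ℝ) (a : V3), ‖u‖ = 1 ∧ (ε = 1 ∨ ε = -1) ∧
      IsAff g (rt u σ ε) a := by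
    intro g hg
    obtain ⟨M, a, hM, h⟩ := hi g hg
    have hMl : M ∈ lin Γ := ⟨g, hg, a, h⟩
    obtain ⟨u, hu, σ, ε, hε, rfl⟩ := exists_rt hM (hax M hMl)
    exact ⟨u, σ, ε, a, hu, hε, h⟩
  have hdep : ∀ g ∈ Γ, ∀ x y, pl x = pl y → pl (g x) = pl (g y) := by
    intro g hg x y hxy
    obtain ⟨u, σ, ε, a, -, -, h⟩ := hrep g hg
    rw [h x, h y, pl_add, pl_add, pl_rt, pl_rt, hxy]
  -- rotations
  have hrotf : ∀ g ∈ Γ, ∀ u ε a, IsAff g (rt u false ε) a → pl (g (up z₀)) = z₀ := by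
    intro g hg u ε a h
    apply hfix
    -- the commutator is a translation
    have hag := hαa.mul h
    have hga := h.mul hαa
    rw [rt_mul] at hag hga
    have hcomm : rt (u * cj false u₀) (xor false false) (ε * ε₀) =
        rt (u₀ * cj false u) (xor false false) (ε₀ * ε) := by
      simp only [cj]
      rw [mul_comm u, mul_comm ε]
    rw [hcomm] at hga
    set N := rt (u₀ * cj false u) (xor false false) (ε₀ * ε) with hN
    have hNl : N ∈ lin Γ := ⟨α * g, Γ.mul_mem hα hg, _, hag⟩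
    have hNo := hi.orth hNl
    have hNo' : N * Nᵀ = 1 := mul_eq_one_comm.1 hNo
    have hc := hag.mul (hga.inv hNo)
    rw [hNo'] at hc
    have ht := htr _ ⟨_, Γ.mul_mem (Γ.mul_mem hα hg) (Γ.inv_mem (Γ.mul_mem hg hα)), hc⟩
    have h4 : ∀ x, pl (α (g x)) = pl (g (α x)) := by
      intro x
      have h5 := hc ((g * α) x)
      rw [one_mulVec] at h5
      have h6 : (α * g * (g * α)⁻¹) ((g * α) x) = α (g x) := by simp
      rw [h6] at h5
      rw [h5, pl_add, ht, add_zero]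
      rfl
    rw [h4]
    exact hdep g hg _ _ (by rw [hα0, pl_up])
  refine ⟨up z₀, fun g hg => ?_⟩
  have hmain : pl (g (up z₀)) = z₀ := by
    obtain ⟨u, σ, ε, a, hu, hε, h⟩ := hrep g hg
    cases σ
    · exact hrotf g hg u ε a h
    · -- `g⁻¹ α g` is a rotation of the plane
      have hNl : rt u true ε ∈ lin Γ := ⟨g, hg, a, h⟩
      have hNo := hi.orth hNl
      have hsym : (rt u true ε)ᵀ = rt u true ε := by
        ext i j; fin_cases i <;> fin_cases j <;> simp [rt]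
      rw [hsym] at hNo
      have h3 := ((h.inv hNo).mul hαa).mul h
      rw [rt_mul, rt_mul] at h3
      have h4 := hrotf _ (Γ.mul_mem (Γ.mul_mem (Γ.inv_mem hg) hα) hg) _ _ _ h3
      have h5 : pl (g ((g⁻¹ * α * g) (up z₀))) = pl (g (up z₀)) :=
        hdep g hg _ _ (by rw [h4, pl_up])
      have h6 : g ((g⁻¹ * α * g) (up z₀)) = α (g (up z₀)) := by simp
      rw [h6] at h5
      exact hfix _ h5
  have hup : pl (up z₀) = z₀ := pl_up z₀
  constructor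
  · exact (congrArg Complex.re hmain).trans (congrArg Complex.re hup).symm
  · exact (congrArg Complex.im hmain).trans (congrArg Complex.im hup).symm

/-- B6 (file Axial.lean) -/
theorem axial_cases {Γ : Subgroup (Equiv.Perm V3)} (hi : Iso Γ) (hd : Disc Γ)
    (hax : ∀ M ∈ lin Γ, M *ᵥ e3 = e3 ∨ M *ᵥ e3 = -e3) :
    (∃ U : M3, Uᵀ * U = 1 ∧ U *ᵥ e3 = e3 ∧ ∀ M ∈ lin Γ, ∃ N ∈ ortAuts, Uᵀ * M * U = N.mat) ∨
    (∃ U : M3, Uᵀ * U = 1 ∧ U *ᵥ e3 = e3 ∧ ∃ k : Kind, (k = .tet ∨ k = .hex) ∧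
      (∀ M ∈ lin Γ, ∃ N ∈ k.auts, Uᵀ * M * U * k.frame 1 1 = k.frame 1 1 * N.mat) ∧
      (∃ M ∈ lin Γ, ∃ N ∈ k.auts, Uᵀ * M * U * k.frame 1 1 = k.frame 1 1 * N.mat ∧ Turns N) ∧
      ∃ δ : ℝ, 0 < δ ∧ ∀ a b : ℝ, IsTrans Γ (δ • (U *ᵥ (k.frame 1 1 *ᵥ ![a, b, 0]))) ↔
        ∃ m n : ℤ, a = m ∧ b = n) ∨
    (∃ o : V3, ∀ g ∈ Γ, (g o) 0 = o 0 ∧ (g o) 1 = o 1) := by
  by_cases hrot : ∀ u ε, rt u false ε ∈ lin Γ → u = 1 ∨ u = -1
  · exact Or.inl (axial_ort hi hax hrot)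
  · right
    push Not at hrot
    obtain ⟨u₀, ε₀, h₀, h1, h2⟩ := hrot
    obtain ⟨u', hu', σ', ε', hε', he'⟩ := exists_rt (hi.orth h₀) (hax _ h₀)
    have hσ : σ' = false := by
      cases σ'
      · rfl
      · exfalso
        have h00 := congrArg (fun M : M3 => M 0 0) he'
        have h01 := congrArg (fun M : M3 => M 0 1) he'
        have h10 := congrArg (fun M : M3 => M 1 0) he'
        have h11 := congrArg (fun M : M3 => M 1 1) he'
        simp [rt] at h00 h01 h10 h11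
        have hr : u'.re = 0 := by linarith
        have hi' : u'.im = 0 := by linarith
        have : u' = 0 := Complex.ext hr hi'
        rw [this] at hu'
        simp at hu'
    subst hσ
    have hu₀ : ‖u₀‖ = 1 := by rw [rt_inj he']; exact hu'
    have hε₀ : ε₀ = 1 ∨ ε₀ = -1 := by
      have h22 := congrArg (fun M : M3 => M 2 2) he'
      simp [rt] at h22
      rw [h22]; exact hε'
    by_cases htr : ∀ t, IsTrans Γ t → pl t = 0
    · exact Or.inr (axial_rod hi hax h₀ h1 htr)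
    · left
      push Not at htr
      obtain ⟨t, ht, htp⟩ := htr
      exact axial_lat hi hd hax h₀ hu₀ hε₀ h1 h2 ht htp

end Pool.Agent.H21.FT
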