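import Pool.Agent.H21.FT.Lats

/-!
# Matrices that preserve the third axis, in complex notation
-/

namespace Pool.Agent.H21.FT

open Matrix

/-! ### Affine maps -/

theorem IsAff.unique {g : Equiv.Perm V3} {M M' : M3} {a a' : V3} (h : IsAff g M a)
    (h' : IsAff g M' a') : M = M' ∧ a = a' := by
  have h0 : a = a' := by
    have h1 := h 0
    have h2 := h' 0
    rw [mulVec_zero, zero_add] at h1 h2
    exact h1.symm.trans h2
  refine ⟨?_, h0⟩
  apply Matrix.mulVec_injective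
  funext x
  have h1 := h x
  rw [h' x, h0] at h1
  exact (add_right_cancel h1).symm

theorem IsAff.mul {g h : Equiv.Perm V3} {M N : M3} {a b : V3} (hg : IsAff g M a)
    (hh : IsAff h N b) : IsAff (g * h) (M * N) (M *ᵥ b + a) := fun x => by
  rw [Equiv.Perm.mul_apply, hh x, hg, mulVec_add, mulVec_mulVec, add_assoc]

theorem IsAff.inv {g : Equiv.Perm V3} {M N : M3} {a : V3} (hg : IsAff g M a) (hN : N * M = 1) :
    IsAff g⁻¹ N (-(N *ᵥ a)) := fun x => by
  have h1 : g (g⁻¹ x) = x := Equiv.apply_symm_apply g x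
  rw [hg] at h1
  have h2 : N *ᵥ (M *ᵥ (g⁻¹ x) + a) = N *ᵥ x := by rw [h1]
  rw [mulVec_add, mulVec_mulVec, hN, one_mulVec] at h2
  rw [← h2]
  abel

theorem isAff_one : IsAff 1 1 0 := fun x => by
  rw [one_mulVec, add_zero]; rfl

theorem Iso.orth {Γ : Subgroup (Equiv.Perm V3)} (hi : Iso Γ) {M : M3} (hM : M ∈ lin Γ) :
    Mᵀ * M = 1 := by
  obtain ⟨g, hg, a, h⟩ := hM
  obtain ⟨N, b, hN, h'⟩ := hi g hg
  rw [(h.unique h').1, hN]

theorem lin_mul {Γ : Subgroup (Equiv.Perm V3)} {M N : M3} (hM : M ∈ lin Γ) (hN : N ∈ lin Γ) :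
    M * N ∈ lin Γ := by
  obtain ⟨g, hg, a, h⟩ := hM
  obtain ⟨g', hg', a', h'⟩ := hN
  exact ⟨g * g', Γ.mul_mem hg hg', _, h.mul h'⟩

theorem IsTrans.add {Γ : Subgroup (Equiv.Perm V3)} {s t : V3} (hs : IsTrans Γ s)
    (ht : IsTrans Γ t) : IsTrans Γ (s + t) := by
  obtain ⟨g, hg, h⟩ := hs
  obtain ⟨g', hg', h'⟩ := ht
  refine ⟨g * g', Γ.mul_mem hg hg', ?_⟩
  have := h.mul h'
  rwa [one_mul, one_mulVec, add_comm] at this

theorem IsTrans.neg {Γ : Subgroup (Equiv.Perm V3)} {t : V3} (ht : IsTrans Γ t) :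
    IsTrans Γ (-t) := by
  obtain ⟨g, hg, h⟩ := ht
  refine ⟨g⁻¹, Γ.inv_mem hg, ?_⟩
  have := h.inv (one_mul 1)
  rwa [one_mulVec] at this

theorem isTrans_zero (Γ : Subgroup (Equiv.Perm V3)) : IsTrans Γ 0 :=
  ⟨1, Γ.one_mem, isAff_one⟩

theorem IsTrans.lin {Γ : Subgroup (Equiv.Perm V3)} (hi : Iso Γ) {t : V3} (ht : IsTrans Γ t)
    {M : M3} (hM : M ∈ lin Γ) : IsTrans Γ (M *ᵥ t) := by
  have hO := hi.orth hM
  obtain ⟨g, hg, h⟩ := ht
  obtain ⟨f, hf, a, h'⟩ := hM
  refine ⟨f * g * f⁻¹, Γ.mul_mem (Γ.mul_mem hf hg) (Γ.inv_mem hf), ?_⟩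
  have hO' : M * Mᵀ = 1 := mul_eq_one_comm.1 hO
  intro x
  have h1 := ((h'.mul h).mul (h'.inv hO)) x
  rw [h1, mul_one, hO', mulVec_neg, mulVec_mulVec, hO', one_mulVec, one_mulVec]
  abel

/-! ### The planar part -/

/-- The planar part of a vector, as a complex number. -/
def pl (x : V3) : ℂ := ⟨x 0, x 1⟩

/-- The vector of the plane. -/
def up (z : ℂ) : V3 := ![z.re, z.im, 0]

/-- The identity or the complex conjugation. -/
noncomputable def cj : Bool → ℂ → ℂ
  | false, z => z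
  | true, z => (starRingEnd ℂ) z

/-- The matrix with planar part `z ↦ u z` or `z ↦ u z̄` and vertical part `ε`. -/
noncomputable def rt (u : ℂ) : Bool → ℝ → M3
  | false, ε => !![u.re, -u.im, 0; u.im, u.re, 0; 0, 0, ε]
  | true, ε => !![u.re, u.im, 0; u.im, -u.re, 0; 0, 0, ε]

@[simp] theorem pl_add (x y : V3) : pl (x + y) = pl x + pl y := by
  apply Complex.ext <;> simp [pl]

@[simp] theorem pl_neg (x : V3) : pl (-x) = -pl x := by
  apply Complex.ext <;> simp [pl]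

@[simp] theorem pl_zero : pl 0 = 0 := by
  apply Complex.ext <;> simp [pl]

@[simp] theorem pl_smul (r : ℝ) (x : V3) : pl (r • x) = r * pl x := by
  apply Complex.ext <;> simp [pl]

@[simp] theorem pl_up (z : ℂ) : pl (up z) = z := by
  apply Complex.ext <;> simp [pl, up]

theorem up_add (z w : ℂ) : up (z + w) = up z + up w := by
  ext i; fin_cases i <;> simp [up]

theorem up_neg (z : ℂ) : up (-z) = -up z := by
  ext i; fin_cases i <;> simp [up]

theorem up_zero : up 0 = 0 := by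
  ext i; fin_cases i <;> simp [up]

theorem eq_up {x : V3} (h : x 2 = 0) : x = up (pl x) := by
  ext i; fin_cases i <;> simp [up, pl, h]

theorem pl_rt (u : ℂ) (σ : Bool) (ε : ℝ) (x : V3) : pl (rt u σ ε *ᵥ x) = u * cj σ (pl x) := by
  cases σ <;> apply Complex.ext <;>
    simp [pl, rt, cj, mulVec, dotProduct, Fin.sum_univ_three] <;> ring

theorem rt_two (u : ℂ) (σ : Bool) (ε : ℝ) (x : V3) : (rt u σ ε *ᵥ x) 2 = ε * x 2 := by
  cases σ <;> simp [rt, mulVec, dotProduct, Fin.sum_univ_three]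

theorem rt_mul (u u' : ℂ) (σ σ' : Bool) (ε ε' : ℝ) :
    rt u σ ε * rt u' σ' ε' = rt (u * cj σ u') (xor σ σ') (ε * ε') := by
  cases σ <;> cases σ' <;> ext i j <;> fin_cases i <;> fin_cases j <;>
    simp [rt, cj, mul_apply, Fin.sum_univ_three] <;> ring

theorem rt_transpose_false (u : ℂ) (ε : ℝ) :
    (rt u false ε)ᵀ = rt ((starRingEnd ℂ) u) false ε := by
  ext i j; fin_cases i <;> fin_cases j <;> simp [rt]

theorem rt_one : rt 1 false 1 = 1 := by
  ext i j; fin_cases i <;> fin_cases j <;> simp [rt]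

theorem rt_inj {u u' : ℂ} {σ : Bool} {ε ε' : ℝ} (h : rt u σ ε = rt u' σ ε') : u = u' := by
  have h1 := congrArg (fun M : M3 => M 0 0) h
  have h2 := congrArg (fun M : M3 => M 1 0) h
  cases σ <;> exact Complex.ext (by simpa [rt] using h1) (by simpa [rt] using h2)

theorem rt_e3 (u : ℂ) (σ : Bool) : rt u σ 1 *ᵥ e3 = e3 := by
  cases σ <;> ext i <;> fin_cases i <;> simp [rt, e3, mulVec, dotProduct, Fin.sum_univ_three]

theorem cj_norm (σ : Bool) (z : ℂ) : ‖cj σ z‖ = ‖z‖ := by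
  cases σ <;> simp [cj]

/-- An orthogonal matrix that preserves the third axis. -/
theorem exists_rt {M : M3} (hM : Mᵀ * M = 1) (he : M *ᵥ e3 = e3 ∨ M *ᵥ e3 = -e3) :
    ∃ u : ℂ, ‖u‖ = 1 ∧ ∃ (σ : Bool) (ε : ℝ), (ε = 1 ∨ ε = -1) ∧ M = rt u σ ε := by
  have hM' : M * Mᵀ = 1 := mul_eq_one_comm.1 hM
  have e := fun i j => congrFun (congrFun hM i) j
  have e' := fun i j => congrFun (congrFun hM' i) j
  simp only [mul_apply, transpose_apply, Fin.sum_univ_three, one_apply] at e e'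
  obtain ⟨ε, hε, h02, h12, h22⟩ : ∃ ε : ℝ, (ε = 1 ∨ ε = -1) ∧ M 0 2 = 0 ∧ M 1 2 = 0 ∧
      M 2 2 = ε := by
    rcases he with he | he
    · refine ⟨1, Or.inl rfl, ?_, ?_, ?_⟩
      · simpa [e3, mulVec, dotProduct, Fin.sum_univ_three] using congrFun he 0
      · simpa [e3, mulVec, dotProduct, Fin.sum_univ_three] using congrFun he 1
      · simpa [e3, mulVec, dotProduct, Fin.sum_univ_three] using congrFun he 2
    · refine ⟨-1, Or.inr rfl, ?_, ?_, ?_⟩
      · simpa [e3, mulVec, dotProduct, Fin.sum_univ_three] using congrFun he 0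
      · simpa [e3, mulVec, dotProduct, Fin.sum_univ_three] using congrFun he 1
      · simpa [e3, mulVec, dotProduct, Fin.sum_univ_three] using congrFun he 2
  have hεε : ε * ε = 1 := by rcases hε with rfl | rfl <;> norm_num
  have h20 : M 2 0 = 0 := by
    have := e 0 2
    simp [h02, h12, h22] at this
    rcases this with h | h
    · exact h
    · rw [h] at hεε; norm_num at hεε
  have h21 : M 2 1 = 0 := by
    have := e 1 2
    simp [h02, h12, h22] at this
    rcases this with h | h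
    · exact h
    · rw [h] at hεε; norm_num at hεε
  have ha : M 0 0 * M 0 0 + M 1 0 * M 1 0 = 1 := by
    have := e 0 0
    simpa [h20] using this
  have hb : M 0 1 * M 0 1 + M 1 1 * M 1 1 = 1 := by
    have := e 1 1
    simpa [h21] using this
  have hc : M 0 0 * M 0 1 + M 1 0 * M 1 1 = 0 := by
    have := e 0 1
    simpa [h20] using this
  have hd : (M 0 0 * M 1 1 - M 0 1 * M 1 0 - 1) * (M 0 0 * M 1 1 - M 0 1 * M 1 0 + 1) = 0 := by
    linear_combination (M 0 1 * M 0 1 + M 1 1 * M 1 1) * ha + hb -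
      (M 0 0 * M 0 1 + M 1 0 * M 1 1) * hc
  refine ⟨⟨M 0 0, M 1 0⟩, ?_, ?_⟩
  · rw [Complex.norm_def, Complex.normSq_mk, ha, Real.sqrt_one]
  rcases mul_eq_zero.1 hd with h | h
  · have h11 : M 1 1 = M 0 0 := by
      linear_combination -M 1 1 * ha + M 0 0 * h + M 1 0 * hc
    have h01 : M 0 1 = -M 1 0 := by
      linear_combination -M 0 1 * ha - M 1 0 * h + M 0 0 * hc
    refine ⟨false, ε, hε, ?_⟩
    ext i j
    fin_cases i <;> fin_cases j <;> simp [rt, h02, h12, h22, h20, h21, h11, h01]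
  · have h11 : M 1 1 = -M 0 0 := by
      linear_combination -M 1 1 * ha + M 0 0 * h + M 1 0 * hc
    have h01 : M 0 1 = M 1 0 := by
      linear_combination -M 0 1 * ha - M 1 0 * h + M 0 0 * hc
    refine ⟨true, ε, hε, ?_⟩
    ext i j
    fin_cases i <;> fin_cases j <;> simp [rt, h02, h12, h22, h20, h21, h11, h01]

end Pool.Agent.H21.FT
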