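import Pool.Agent.H21.FT.C1Defs

/-!
# Certificates for the rigid rows (cub)
-/

namespace Pool.Agent.H21.FT

def cubC1_0 : C1Cert :=
  ⟨⟨⟨1, 1, 1⟩, ⟨0, 2, 2⟩, ⟨0, 0, 0⟩⟩,
   [(⟨⟨1, 0, 0⟩, ⟨1, 0, 0⟩, ⟨0, 0, 0⟩⟩, ⟨⟨1, 1, 1⟩, ⟨1, 1, 1⟩, ⟨1, 1, 1⟩⟩), (⟨⟨0, 0, 0⟩, ⟨-1, 0, 0⟩, ⟨0, 0, 0⟩⟩, ⟨⟨1, -1, -1⟩, ⟨-1, 1, 1⟩, ⟨-1, 1, 1⟩⟩)],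
   ⟨⟨2, -1, 0⟩, ⟨0, 1, 0⟩, ⟨0, 0, 0⟩⟩, 2, ⟨0, -1, 1⟩, ⟨0, 0, 2⟩, 0, 1,
   [(⟨⟨0, 1, 1⟩, ⟨2, -1, -1⟩, ⟨0, 0, 0⟩⟩, 4, ⟨4, -4, 0⟩), (⟨⟨0, 1, 1⟩, ⟨2, -1, -1⟩, ⟨0, 0, 0⟩⟩, 4, ⟨4, -4, 0⟩), (⟨⟨0, 1, 1⟩, ⟨2, -1, -1⟩, ⟨0, 0, 0⟩⟩, 2, ⟨2, -2, 0⟩), (⟨⟨0, 1, 1⟩, ⟨2, -1, -1⟩, ⟨0, 0, 0⟩⟩, 2, ⟨2, -2, 0⟩)],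
   [.cert ⟨1, 2, 2, 1,
      [],
      [],
      [(⟨⟨⟨1, 1, 1⟩, ⟨0, 2, 0⟩, ⟨0, 0, 2⟩⟩, 2, ⟨⟨0, 0, 0⟩, ⟨0, 0, 0⟩, ⟨0, 0, 0⟩⟩⟩, ⟨1, 0, 0⟩, 1), (⟨⟨⟨1, 1, 0⟩, ⟨0, 1, 1⟩, ⟨0, 0, 2⟩⟩, 2, ⟨⟨0, 0, 0⟩, ⟨0, 0, 0⟩, ⟨0, 0, 0⟩⟩⟩, ⟨1, 0, 0⟩, 1)],
      []⟩,
    .cert ⟨1, 2, 2, 1,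
      [⟨⟨1, 1, 1⟩, ⟨1, 1, 1⟩, ⟨1, 1, 1⟩⟩, ⟨⟨1, -1, -1⟩, ⟨-1, 1, 1⟩, ⟨-1, 1, 1⟩⟩],
      [],
      [(⟨⟨⟨1, 0, 0⟩, ⟨0, 1, 0⟩, ⟨0, 0, 1⟩⟩, 2, ⟨⟨0, 0, 0⟩, ⟨0, 0, 0⟩, ⟨0, 0, 0⟩⟩⟩, ⟨-1, 1, 0⟩, 1)],
      []⟩,
    .cert ⟨1, 4, 4, 1,
      [],
      [],
      [(⟨⟨⟨1, 0, 0⟩, ⟨0, 1, 0⟩, ⟨0, 0, 1⟩⟩, 2, ⟨⟨0, 0, 0⟩, ⟨0, 0, 0⟩, ⟨0, 0, 0⟩⟩⟩, ⟨1, -1, 1⟩, 1)],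
      [(0, 1), (0, 3), (2, 1), (3, 1)]⟩]⟩

def cubC1_1 : C1Cert :=
  ⟨⟨⟨2, 0, 0⟩, ⟨0, 2, 2⟩, ⟨0, 0, 0⟩⟩,
   [(⟨⟨-1, 0, 0⟩, ⟨0, -1, 0⟩, ⟨0, 0, 0⟩⟩, ⟨⟨-2, 0, 0⟩, ⟨0, -2, -2⟩, ⟨2, 0, 0⟩⟩)],
   ⟨⟨1, 0, 0⟩, ⟨0, 1, 0⟩, ⟨0, 0, 0⟩⟩, 2, ⟨0, -1, 1⟩, ⟨0, 0, 2⟩, 0, 1,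
   [(⟨⟨1, 0, 0⟩, ⟨0, 1, 1⟩, ⟨0, 0, 0⟩⟩, 2, ⟨0, 0, 2⟩), (⟨⟨1, 1, 1⟩, ⟨1, -1, -1⟩, ⟨0, 0, 0⟩⟩, 4, ⟨2, -2, 2⟩), (⟨⟨1, 1, 1⟩, ⟨1, -1, -1⟩, ⟨0, 0, 0⟩⟩, 4, ⟨2, -2, 2⟩), (⟨⟨0, 1, 1⟩, ⟨2, -1, -1⟩, ⟨0, 0, 0⟩⟩, 4, ⟨4, -4, 0⟩), (⟨⟨0, 1, 1⟩, ⟨2, -1, -1⟩, ⟨0, 0, 0⟩⟩, 4, ⟨4, -4, 0⟩)],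
   [.cert ⟨1, 2, 2, 1,
      [],
      [⟨⟨⟨1, 0, 0⟩, ⟨0, -1, 0⟩, ⟨0, 0, 1⟩⟩, ⟨⟨1, -1, -1⟩, ⟨-1, 1, 1⟩, ⟨1, 1, 1⟩⟩⟩],
      [(⟨⟨⟨1, 1, 1⟩, ⟨0, 2, 0⟩, ⟨0, 0, 2⟩⟩, 2, ⟨⟨0, 0, 0⟩, ⟨0, 0, 0⟩, ⟨0, 0, 0⟩⟩⟩, ⟨1, 0, 0⟩, 1)],
      [(0, 1)]⟩,
    .cert ⟨1, 4, 4, 1,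
      [⟨⟨-2, 0, 0⟩, ⟨0, -2, -2⟩, ⟨2, 0, 0⟩⟩],
      [⟨⟨⟨1, 0, 0⟩, ⟨0, -1, 0⟩, ⟨0, 0, 1⟩⟩, ⟨⟨1, -1, -1⟩, ⟨-1, 1, 1⟩, ⟨1, 1, 1⟩⟩⟩],
      [(⟨⟨⟨1, 0, 0⟩, ⟨0, 1, 0⟩, ⟨0, 0, 1⟩⟩, 2, ⟨⟨0, 0, 0⟩, ⟨0, 0, 0⟩, ⟨0, 0, 0⟩⟩⟩, ⟨-1, 1, 0⟩, 1)],
      [(1, 1), (2, 1)]⟩,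
    .cert ⟨1, 4, 4, 1,
      [⟨⟨-2, 0, 0⟩, ⟨0, -2, -2⟩, ⟨2, 0, 0⟩⟩],
      [⟨⟨⟨1, 0, 0⟩, ⟨0, -1, 0⟩, ⟨0, 0, 1⟩⟩, ⟨⟨1, -1, -1⟩, ⟨-1, 1, 1⟩, ⟨1, 1, 1⟩⟩⟩],
      [],
      [(3, 1), (3, 3)]⟩]⟩

def cubC1_2 : C1Cert :=
  ⟨⟨⟨2, 0, -2⟩, ⟨0, 2, 4⟩, ⟨0, 0, 0⟩⟩,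
   [(⟨⟨0, -1, 0⟩, ⟨1, 1, 0⟩, ⟨0, 0, 0⟩⟩, ⟨⟨2, 2, 2⟩, ⟨-2, 0, 2⟩, ⟨-2, 0, 2⟩⟩)],
   ⟨⟨1, 0, 0⟩, ⟨0, 1, 0⟩, ⟨0, 0, 0⟩⟩, 2, ⟨1, -2, 1⟩, ⟨0, 0, 2⟩, 0, 1,
   [(⟨⟨1, 0, -1⟩, ⟨0, 1, 2⟩, ⟨0, 0, 0⟩⟩, 2, ⟨0, 0, 2⟩), (⟨⟨2, 0, -2⟩, ⟨-1, 1, 3⟩, ⟨0, 0, 0⟩⟩, 4, ⟨2, -2, -2⟩), (⟨⟨2, 0, -2⟩, ⟨-1, 1, 3⟩, ⟨0, 0, 0⟩⟩, 4, ⟨2, -2, -2⟩), (⟨⟨1, 0, -1⟩, ⟨1, 2, 3⟩, ⟨0, 0, 0⟩⟩, 4, ⟨0, -4, -4⟩), (⟨⟨1, 0, -1⟩, ⟨1, 2, 3⟩, ⟨0, 0, 0⟩⟩, 4, ⟨0, -4, -4⟩)],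
   [.cert ⟨1, 2, 2, 1,
      [],
      [⟨⟨⟨-1, 0, 0⟩, ⟨0, 1, 0⟩, ⟨0, 0, 1⟩⟩, ⟨⟨1, 1, 1⟩, ⟨2, 1, 0⟩, ⟨0, 1, 2⟩⟩⟩],
      [(⟨⟨⟨1, 1, 1⟩, ⟨0, 2, 0⟩, ⟨0, 0, 2⟩⟩, 2, ⟨⟨0, 0, 0⟩, ⟨0, 0, 0⟩, ⟨0, 0, 0⟩⟩⟩, ⟨1, 0, 0⟩, 1), (⟨⟨⟨1, 1, 0⟩, ⟨0, 1, 1⟩, ⟨0, 0, 2⟩⟩, 2, ⟨⟨0, 0, 0⟩, ⟨0, 0, 0⟩, ⟨0, 0, 0⟩⟩⟩, ⟨1, 0, 0⟩, 1)],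
      [(0, 1)]⟩,
    .cert ⟨1, 4, 4, 1,
      [⟨⟨2, 2, 2⟩, ⟨-2, 0, 2⟩, ⟨-2, 0, 2⟩⟩],
      [⟨⟨⟨-1, 0, 0⟩, ⟨0, 1, 0⟩, ⟨0, 0, 1⟩⟩, ⟨⟨1, 1, 1⟩, ⟨2, 1, 0⟩, ⟨0, 1, 2⟩⟩⟩],
      [(⟨⟨⟨1, 0, 0⟩, ⟨0, 1, 0⟩, ⟨0, 0, 1⟩⟩, 2, ⟨⟨0, 0, 0⟩, ⟨0, 0, 0⟩, ⟨0, 0, 0⟩⟩⟩, ⟨-1, 1, 0⟩, 1)],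
      [(1, 1), (2, 1)]⟩,
    .cert ⟨1, 4, 4, 1,
      [⟨⟨2, 2, 2⟩, ⟨-2, 0, 2⟩, ⟨-2, 0, 2⟩⟩],
      [⟨⟨⟨-1, 0, 0⟩, ⟨0, 1, 0⟩, ⟨0, 0, 1⟩⟩, ⟨⟨1, 1, 1⟩, ⟨2, 1, 0⟩, ⟨0, 1, 2⟩⟩⟩],
      [(⟨⟨⟨1, 0, 0⟩, ⟨0, 1, 0⟩, ⟨0, 0, 1⟩⟩, 2, ⟨⟨0, 0, 0⟩, ⟨0, 0, 0⟩, ⟨0, 0, 0⟩⟩⟩, ⟨1, -1, 1⟩, 1)],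
      [(3, 1), (4, 1)]⟩]⟩

def cubC1_3 : C1Cert :=
  ⟨⟨⟨1, 1, -1⟩, ⟨0, 4, 0⟩, ⟨0, 0, 0⟩⟩,
   [(⟨⟨0, 1, 0⟩, ⟨-1, 1, 0⟩, ⟨0, 0, 0⟩⟩, ⟨⟨1, -3, -1⟩, ⟨1, 1, -1⟩, ⟨-1, -1, 1⟩⟩)],
   ⟨⟨4, -1, 0⟩, ⟨0, 1, 0⟩, ⟨0, 0, 0⟩⟩, 4, ⟨1, 0, 1⟩, ⟨0, 0, 4⟩, 0, 1,
   [(⟨⟨1, 0, -1⟩, ⟨0, 1, 0⟩, ⟨0, 0, 0⟩⟩, 4, ⟨0, 0, 4⟩), (⟨⟨1, 0, -1⟩, ⟨0, 1, 0⟩, ⟨0, 0, 0⟩⟩, 4, ⟨0, 0, 4⟩), (⟨⟨-1, 2, 1⟩, ⟨1, 0, -1⟩, ⟨0, 0, 0⟩⟩, 2, ⟨2, -2, 0⟩), (⟨⟨-1, 2, 1⟩, ⟨1, 0, -1⟩, ⟨0, 0, 0⟩⟩, 4, ⟨4, -4, 0⟩), (⟨⟨-1, 2, 1⟩, ⟨1, 0, -1⟩, ⟨0, 0, 0⟩⟩, 2,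 ⟨2, -2, 0⟩), (⟨⟨-1, 2, 1⟩, ⟨1, 0, -1⟩, ⟨0, 0, 0⟩⟩, 4, ⟨4, -4, 0⟩)],
   [.cert ⟨1, 4, 4, 1,
      [],
      [],
      [(⟨⟨⟨1, 1, 1⟩, ⟨0, 2, 0⟩, ⟨0, 0, 2⟩⟩, 2, ⟨⟨0, 0, 0⟩, ⟨0, 0, 0⟩, ⟨0, 0, 0⟩⟩⟩, ⟨1, 0, 0⟩, 1), (⟨⟨⟨1, 1, 0⟩, ⟨0, 1, 1⟩, ⟨0, 0, 2⟩⟩, 2, ⟨⟨0, 0, 0⟩, ⟨0, 0, 0⟩, ⟨0, 0, 0⟩⟩⟩, ⟨1, 0, 0⟩, 1)],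
      [(0, 1), (1, 1)]⟩,
    .cert ⟨1, 4, 4, 1,
      [⟨⟨1, 1, -1⟩, ⟨1, 1, -1⟩, ⟨-1, -1, 1⟩⟩, ⟨⟨0, 0, 0⟩, ⟨0, 4, 0⟩, ⟨0, 0, 0⟩⟩],
      [],
      [(⟨⟨⟨1, 0, 0⟩, ⟨0, 1, 0⟩, ⟨0, 0, 1⟩⟩, 2, ⟨⟨0, 0, 0⟩, ⟨0, 0, 0⟩, ⟨0, 0, 0⟩⟩⟩, ⟨-1, 1, 0⟩, 1)],
      []⟩,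
    .cert ⟨1, 8, 8, 1,
      [⟨⟨0, 0, 0⟩, ⟨0, 4, 0⟩, ⟨0, 0, 0⟩⟩],
      [],
      [(⟨⟨⟨1, 0, 0⟩, ⟨0, 1, 0⟩, ⟨0, 0, 1⟩⟩, 2, ⟨⟨0, 0, 0⟩, ⟨0, 0, 0⟩, ⟨0, 0, 0⟩⟩⟩, ⟨1, -1, 1⟩, 1)],
      [(2, 1), (3, 1), (4, 1), (5, 1)]⟩]⟩

def cubC1_7 : C1Cert :=
  ⟨⟨⟨2, 0, 0⟩, ⟨0, 2, 0⟩, ⟨0, 0, 0⟩⟩,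
   [(⟨⟨-1, 0, 0⟩, ⟨0, -1, 0⟩, ⟨0, 0, 0⟩⟩, ⟨⟨-2, 0, 0⟩, ⟨0, -2, 0⟩, ⟨0, 0, 0⟩⟩)],
   ⟨⟨1, 0, 0⟩, ⟨0, 1, 0⟩, ⟨0, 0, 0⟩⟩, 2, ⟨0, 0, 1⟩, ⟨0, 0, 2⟩, 0, 1,
   [(⟨⟨1, 0, 0⟩, ⟨0, 1, 0⟩, ⟨0, 0, 0⟩⟩, 2, ⟨0, 0, 2⟩), (⟨⟨1, 0, 0⟩, ⟨0, 1, 0⟩, ⟨0, 0, 0⟩⟩, 2, ⟨0, 0, 2⟩), (⟨⟨0, 1, 0⟩, ⟨1, -1, 0⟩, ⟨0, 0, 0⟩⟩, 2, ⟨-2, 2, 2⟩)],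
   [.cert ⟨1, 2, 2, 1,
      [],
      [],
      [(⟨⟨⟨1, 1, 1⟩, ⟨0, 2, 0⟩, ⟨0, 0, 2⟩⟩, 2, ⟨⟨0, 0, 0⟩, ⟨0, 0, 0⟩, ⟨0, 0, 0⟩⟩⟩, ⟨1, 0, 0⟩, 1)],
      [(0, 1), (1, 1)]⟩,
    .cert ⟨1, 4, 4, 1,
      [⟨⟨-2, 0, 0⟩, ⟨0, -2, 0⟩, ⟨0, 0, 0⟩⟩],
      [],
      [(⟨⟨⟨1, 0, 0⟩, ⟨0, 1, 0⟩, ⟨0, 0, 1⟩⟩, 2, ⟨⟨0, 0, 0⟩, ⟨0, 0, 0⟩, ⟨0, 0, 0⟩⟩⟩, ⟨-1, 1, 0⟩, 1)],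
      [(2, 1)]⟩,
    .cert ⟨1, 4, 4, 1,
      [⟨⟨-2, 0, 0⟩, ⟨0, -2, 0⟩, ⟨0, 0, 0⟩⟩],
      [],
      [(⟨⟨⟨1, 0, 0⟩, ⟨0, 1, 0⟩, ⟨0, 0, 1⟩⟩, 2, ⟨⟨0, 0, 0⟩, ⟨0, 0, 0⟩, ⟨0, 0, 0⟩⟩⟩, ⟨1, -1, 1⟩, 1)],
      []⟩]⟩

def cubC1_8 : C1Cert :=
  ⟨⟨⟨1, 3, 0⟩, ⟨0, 4, 0⟩, ⟨0, 0, 0⟩⟩,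
   [(⟨⟨1, -1, 0⟩, ⟨2, -1, 0⟩, ⟨0, 0, 0⟩⟩, ⟨⟨-1, 1, 0⟩, ⟨-2, -2, 0⟩, ⟨-1, 1, 0⟩⟩)],
   ⟨⟨4, -3, 0⟩, ⟨0, 1, 0⟩, ⟨0, 0, 0⟩⟩, 4, ⟨0, 0, 1⟩, ⟨0, 0, 4⟩, 0, 1,
   [(⟨⟨1, 0, 0⟩, ⟨0, 1, 0⟩, ⟨0, 0, 0⟩⟩, 4, ⟨0, 0, 4⟩), (⟨⟨1, 0, 0⟩, ⟨0, 1, 0⟩, ⟨0, 0, 0⟩⟩, 4, ⟨0, 0, 4⟩), (⟨⟨0, 1, 0⟩, ⟨1, -1, 0⟩, ⟨0, 0, 0⟩⟩, 1, ⟨-1, 1, 1⟩), (⟨⟨0, 1, 0⟩, ⟨1, -1, 0⟩, ⟨0, 0, 0⟩⟩, 2, ⟨-2, 2, 2⟩)],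
   [.cert ⟨1, 4, 4, 1,
      [],
      [],
      [(⟨⟨⟨1, 1, 1⟩, ⟨0, 2, 0⟩, ⟨0, 0, 2⟩⟩, 2, ⟨⟨0, 0, 0⟩, ⟨0, 0, 0⟩, ⟨0, 0, 0⟩⟩⟩, ⟨1, 0, 0⟩, 1)],
      [(0, 1), (1, 1)]⟩,
    .cert ⟨1, 4, 4, 1,
      [⟨⟨-4, 0, 0⟩, ⟨0, 0, 0⟩, ⟨0, 0, 0⟩⟩],
      [],
      [(⟨⟨⟨1, 0, 0⟩, ⟨0, 1, 0⟩, ⟨0, 0, 1⟩⟩, 2, ⟨⟨0, 0, 0⟩, ⟨0, 0, 0⟩, ⟨0, 0, 0⟩⟩⟩, ⟨-1, 1, 0⟩, 1)],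
      [(2, 1), (3, 1)]⟩,
    .cert ⟨1, 8, 8, 1,
      [⟨⟨0, 0, 0⟩, ⟨1, 3, 0⟩, ⟨1, -1, 0⟩⟩],
      [],
      [(⟨⟨⟨1, 0, 0⟩, ⟨0, 1, 0⟩, ⟨0, 0, 1⟩⟩, 2, ⟨⟨0, 0, 0⟩, ⟨0, 0, 0⟩, ⟨0, 0, 0⟩⟩⟩, ⟨1, -1, 1⟩, 1)],
      []⟩]⟩

def cubC1_9 : C1Cert :=
  ⟨⟨⟨2, 0, 0⟩, ⟨0, 1, -1⟩, ⟨0, 0, 0⟩⟩,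
   [(⟨⟨-1, 0, 0⟩, ⟨0, -1, 0⟩, ⟨0, 0, 0⟩⟩, ⟨⟨-2, 0, 0⟩, ⟨0, -1, 1⟩, ⟨0, 1, -1⟩⟩)],
   ⟨⟨1, 0, 0⟩, ⟨0, 2, 0⟩, ⟨0, 0, 0⟩⟩, 2, ⟨0, 1, 1⟩, ⟨0, 0, 2⟩, 0, 1,
   [(⟨⟨1, 0, 0⟩, ⟨0, 1, -1⟩, ⟨0, 0, 0⟩⟩, 2, ⟨0, 0, 2⟩), (⟨⟨1, 1, -1⟩, ⟨1, -1, 1⟩, ⟨0, 0, 0⟩⟩, 2, ⟨-1, 1, 1⟩), (⟨⟨2, -1, 1⟩, ⟨0, 1, -1⟩, ⟨0, 0, 0⟩⟩, 4, ⟨-4, 4, 0⟩)],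
   [.cert ⟨1, 2, 2, 1,
      [],
      [⟨⟨⟨0, 0, -1⟩, ⟨0, 1, 0⟩, ⟨-1, 0, 0⟩⟩, ⟨⟨1, 0, 0⟩, ⟨1, 1, -1⟩, ⟨-1, 0, 0⟩⟩⟩],
      [(⟨⟨⟨1, 1, 0⟩, ⟨0, 1, 1⟩, ⟨0, 0, 2⟩⟩, 2, ⟨⟨0, 0, 0⟩, ⟨0, 0, 0⟩, ⟨0, 0, 0⟩⟩⟩, ⟨1, 0, 0⟩, 1)],
      [(0, 1)]⟩,
    .cert ⟨1, 4, 4, 1,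
      [⟨⟨-2, 0, 0⟩, ⟨0, -1, 1⟩, ⟨0, 1, -1⟩⟩],
      [⟨⟨⟨0, 0, -1⟩, ⟨0, 1, 0⟩, ⟨-1, 0, 0⟩⟩, ⟨⟨1, 0, 0⟩, ⟨1, 1, -1⟩, ⟨-1, 0, 0⟩⟩⟩],
      [(⟨⟨⟨1, 0, 0⟩, ⟨0, 1, 0⟩, ⟨0, 0, 1⟩⟩, 2, ⟨⟨0, 0, 0⟩, ⟨0, 0, 0⟩, ⟨0, 0, 0⟩⟩⟩, ⟨-1, 1, 0⟩, 1)],
      [(1, 1)]⟩,
    .cert ⟨1, 4, 4, 1,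
      [⟨⟨-2, 0, 0⟩, ⟨0, -1, 1⟩, ⟨0, 1, -1⟩⟩],
      [⟨⟨⟨0, 0, -1⟩, ⟨0, 1, 0⟩, ⟨-1, 0, 0⟩⟩, ⟨⟨1, 0, 0⟩, ⟨1, 1, -1⟩, ⟨-1, 0, 0⟩⟩⟩],
      [],
      [(2, 1)]⟩]⟩

def cubC1_10 : C1Cert :=
  ⟨⟨⟨1, 1, -1⟩, ⟨0, 2, -2⟩, ⟨0, 0, 0⟩⟩,
   [(⟨⟨0, -1, 0⟩, ⟨1, -1, 0⟩, ⟨0, 0, 0⟩⟩, ⟨⟨-1, 1, -1⟩, ⟨-1, -1, 1⟩, ⟨1, 1, -1⟩⟩)],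
   ⟨⟨2, -1, 0⟩, ⟨0, 1, 0⟩, ⟨0, 0, 0⟩⟩, 2, ⟨0, 1, 1⟩, ⟨0, 0, 2⟩, 0, 1,
   [(⟨⟨1, 0, 0⟩, ⟨0, 1, -1⟩, ⟨0, 0, 0⟩⟩, 2, ⟨0, 0, 2⟩), (⟨⟨2, -1, 1⟩, ⟨0, 1, -1⟩, ⟨0, 0, 0⟩⟩, 2, ⟨-2, 2, 0⟩), (⟨⟨2, -1, 1⟩, ⟨0, 1, -1⟩, ⟨0, 0, 0⟩⟩, 2, ⟨-2, 2, 0⟩)],
   [.cert ⟨1, 2, 2, 1,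
      [],
      [],
      [(⟨⟨⟨1, 1, 1⟩, ⟨0, 2, 0⟩, ⟨0, 0, 2⟩⟩, 2, ⟨⟨0, 0, 0⟩, ⟨0, 0, 0⟩, ⟨0, 0, 0⟩⟩⟩, ⟨1, 0, 0⟩, 1), (⟨⟨⟨1, 1, 0⟩, ⟨0, 1, 1⟩, ⟨0, 0, 2⟩⟩, 2, ⟨⟨0, 0, 0⟩, ⟨0, 0, 0⟩, ⟨0, 0, 0⟩⟩⟩, ⟨1, 0, 0⟩, 1)],
      [(0, 1)]⟩,
    .cert ⟨1, 2, 2, 1,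
      [⟨⟨-2, 0, 0⟩, ⟨0, 0, 0⟩, ⟨0, 0, 0⟩⟩, ⟨⟨-1, 1, -1⟩, ⟨-1, -1, 1⟩, ⟨1, 1, -1⟩⟩],
      [],
      [(⟨⟨⟨1, 0, 0⟩, ⟨0, 1, 0⟩, ⟨0, 0, 1⟩⟩, 2, ⟨⟨0, 0, 0⟩, ⟨0, 0, 0⟩, ⟨0, 0, 0⟩⟩⟩, ⟨-1, 1, 0⟩, 1)],
      []⟩,
    .cert ⟨1, 4, 4, 1,
      [⟨⟨-2, 0, 0⟩, ⟨0, 0, 0⟩, ⟨0, 0, 0⟩⟩],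
      [],
      [(⟨⟨⟨1, 0, 0⟩, ⟨0, 1, 0⟩, ⟨0, 0, 1⟩⟩, 2, ⟨⟨0, 0, 0⟩, ⟨0, 0, 0⟩, ⟨0, 0, 0⟩⟩⟩, ⟨1, -1, 1⟩, 1)],
      [(1, 1), (2, 1)]⟩]⟩

def cubC1_11 : C1Cert :=
  ⟨⟨⟨1, 0, 2⟩, ⟨0, 1, 1⟩, ⟨0, 0, 4⟩⟩,
   [(⟨⟨0, 0, 0⟩, ⟨0, -1, 0⟩, ⟨0, -1, 0⟩⟩, ⟨⟨-2, 0, 0⟩, ⟨0, -1, -1⟩, ⟨0, -1, -1⟩⟩), (⟨⟨0, 0, 1⟩, ⟨0, 0, 0⟩, ⟨-1, 0, 1⟩⟩, ⟨⟨1, 1, -1⟩, ⟨-1, 2, 0⟩, ⟨1, 0, 2⟩⟩)],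
   ⟨⟨4, 0, -2⟩, ⟨0, 4, -1⟩, ⟨0, 0, 1⟩⟩, 4, ⟨0, 0, 0⟩, ⟨0, 0, 0⟩, 0, 1,
   [(⟨⟨0, 1, 1⟩, ⟨1, 0, 1⟩, ⟨1, 1, 0⟩⟩, 4, ⟨0, 0, 0⟩), (⟨⟨-1, 1, 1⟩, ⟨1, -1, 1⟩, ⟨1, 1, -1⟩⟩, 4, ⟨0, 0, 0⟩)],
   [.cert ⟨1, 4, 4, 4,
      [],
      [⟨⟨⟨-1, 0, 0⟩, ⟨0, -1, 0⟩, ⟨0, 0, 1⟩⟩, ⟨⟨0, 0, 0⟩, ⟨0, 1, -1⟩, ⟨0, 1, 1⟩⟩⟩],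
      [],
      [(1, 2)]⟩,
    .cert ⟨1, 4, 4, 4,
      [⟨⟨-2, 0, 0⟩, ⟨0, -1, -1⟩, ⟨0, -1, -1⟩⟩, ⟨⟨1, 1, -1⟩, ⟨-1, 2, 0⟩, ⟨1, 0, 2⟩⟩],
      [⟨⟨⟨1, 0, 0⟩, ⟨0, 0, 1⟩, ⟨0, 1, 0⟩⟩, ⟨⟨1, 0, 0⟩, ⟨0, 1, 0⟩, ⟨0, 0, 1⟩⟩⟩],
      [],
      [(1, 1)]⟩,
    .cert ⟨1, 8, 8, 8,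
      [⟨⟨-2, 0, 0⟩, ⟨0, -1, -1⟩, ⟨0, -1, -1⟩⟩],
      [⟨⟨⟨-1, 0, 0⟩, ⟨0, -1, 0⟩, ⟨0, 0, 1⟩⟩, ⟨⟨0, 0, 0⟩, ⟨0, 1, -1⟩, ⟨0, 1, 1⟩⟩⟩],
      [],
      [(1, 2), (0, 1), (0, 3)]⟩]⟩

def cubC1_12 : C1Cert :=
  ⟨⟨⟨2, 0, 0⟩, ⟨0, 1, 3⟩, ⟨0, 0, 4⟩⟩,
   [(⟨⟨0, -1, 0⟩, ⟨0, 0, -1⟩, ⟨-1, 1, -1⟩⟩, ⟨⟨-2, 1, -1⟩, ⟨-2, 0, 0⟩, ⟨0, -1, -3⟩⟩)],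
   ⟨⟨2, 0, 0⟩, ⟨0, 4, -3⟩, ⟨0, 0, 1⟩⟩, 4, ⟨0, 0, 0⟩, ⟨0, 0, 0⟩, 0, 1,
   [(⟨⟨0, 1, 1⟩, ⟨1, 0, 1⟩, ⟨1, 1, 0⟩⟩, 8, ⟨0, 0, 0⟩), (⟨⟨0, 1, 1⟩, ⟨1, 0, 1⟩, ⟨1, 1, 0⟩⟩, 8, ⟨0, 0, 0⟩), (⟨⟨1, 0, 0⟩, ⟨0, 1, 0⟩, ⟨0, 0, 1⟩⟩, 4, ⟨0, 0, 0⟩), (⟨⟨-1, 1, 1⟩, ⟨1, -1, 1⟩, ⟨1, 1, -1⟩⟩, 4, ⟨0, 0, 0⟩)],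
   [.cert ⟨1, 4, 4, 4,
      [],
      [⟨⟨⟨1, 0, 0⟩, ⟨0, -1, 0⟩, ⟨0, 0, -1⟩⟩, ⟨⟨2, 0, 0⟩, ⟨0, 1, 1⟩, ⟨0, -1, 1⟩⟩⟩, ⟨⟨⟨0, 0, -1⟩, ⟨0, -1, 0⟩, ⟨-1, 0, 0⟩⟩, ⟨⟨1, 0, 2⟩, ⟨-1, 2, 0⟩, ⟨1, 1, 1⟩⟩⟩],
      [],
      [(2, 1), (2, 3)]⟩,
    .cert ⟨1, 4, 4, 4,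
      [⟨⟨2, -1, 1⟩, ⟨0, 2, 2⟩, ⟨-2, -1, 1⟩⟩],
      [⟨⟨⟨1, 0, 0⟩, ⟨0, -1, 0⟩, ⟨0, 0, -1⟩⟩, ⟨⟨2, 0, 0⟩, ⟨0, 1, 1⟩, ⟨0, -1, 1⟩⟩⟩, ⟨⟨⟨0, 0, 1⟩, ⟨0, 1, 0⟩, ⟨-1, 0, 0⟩⟩, ⟨⟨1, 1, 1⟩, ⟨-1, 1, -1⟩, ⟨-1, 1, 1⟩⟩⟩, ⟨⟨⟨0, 0, -1⟩, ⟨0, -1, 0⟩, ⟨-1, 0, 0⟩⟩, ⟨⟨1, 0, 2⟩, ⟨-1, 2, 0⟩, ⟨1, 1, 1⟩⟩⟩],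
      [],
      [(3, 1), (3, 3)]⟩,
    .cert ⟨1, 8, 8, 8,
      [⟨⟨-2, 1, -1⟩, ⟨-2, 0, 0⟩, ⟨0, -1, -3⟩⟩],
      [⟨⟨⟨0, 0, -1⟩, ⟨0, -1, 0⟩, ⟨-1, 0, 0⟩⟩, ⟨⟨1, 0, 2⟩, ⟨-1, 2, 0⟩, ⟨1, 1, 1⟩⟩⟩],
      [],
      [(0, 1), (0, 3), (1, 1), (1, 3)]⟩]⟩

def cubC1_13 : C1Cert :=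
  ⟨⟨⟨2, 0, 0⟩, ⟨0, 1, 1⟩, ⟨0, 0, 4⟩⟩,
   [(⟨⟨-1, 0, 0⟩, ⟨0, -1, 0⟩, ⟨0, -2, 0⟩⟩, ⟨⟨-2, 0, 0⟩, ⟨0, -1, -1⟩, ⟨0, -1, -1⟩⟩), (⟨⟨0, 0, 0⟩, ⟨0, 0, 0⟩, ⟨-1, 0, 0⟩⟩, ⟨⟨0, 2, -2⟩, ⟨-2, 0, 0⟩, ⟨-2, 0, 0⟩⟩)],
   ⟨⟨2, 0, 0⟩, ⟨0, 4, -1⟩, ⟨0, 0, 1⟩⟩, 4, ⟨0, 0, 0⟩, ⟨0, 0, 0⟩, 0, 1,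
   [(⟨⟨0, 1, 1⟩, ⟨1, 0, 1⟩, ⟨1, 1, 0⟩⟩, 8, ⟨0, 0, 0⟩), (⟨⟨0, 1, 1⟩, ⟨1, 0, 1⟩, ⟨1, 1, 0⟩⟩, 8, ⟨0, 0, 0⟩), (⟨⟨1, 0, 0⟩, ⟨0, 1, 0⟩, ⟨0, 0, 1⟩⟩, 4, ⟨0, 0, 0⟩)],
   [.cert ⟨1, 4, 4, 4,
      [],
      [⟨⟨⟨-1, 0, 0⟩, ⟨0, -1, 0⟩, ⟨0, 0, 1⟩⟩, ⟨⟨0, 0, 0⟩, ⟨0, 1, -1⟩, ⟨0, 1, 1⟩⟩⟩, ⟨⟨⟨0, 0, -1⟩, ⟨0, -1, 0⟩, ⟨1, 0, 0⟩⟩, ⟨⟨1, -1, 1⟩, ⟨1, 1, -1⟩, ⟨1, -1, 1⟩⟩⟩],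
      [],
      [(2, 1), (2, 3)]⟩,
    .cert ⟨1, 4, 4, 4,
      [⟨⟨-2, 0, 0⟩, ⟨0, -1, -1⟩, ⟨0, -1, -1⟩⟩, ⟨⟨0, 2, -2⟩, ⟨-2, 0, 0⟩, ⟨-2, 0, 0⟩⟩],
      [⟨⟨⟨0, 1, 0⟩, ⟨1, 0, 0⟩, ⟨0, 0, -1⟩⟩, ⟨⟨1, 0, 1⟩, ⟨1, 1, 0⟩, ⟨0, -1, 1⟩⟩⟩, ⟨⟨⟨0, 0, -1⟩, ⟨0, 1, 0⟩, ⟨-1, 0, 0⟩⟩, ⟨⟨1, -1, 1⟩, ⟨1, 1, 1⟩, ⟨-1, -1, 1⟩⟩⟩, ⟨⟨⟨0, 0, -1⟩, ⟨0, -1, 0⟩, ⟨1, 0, 0⟩⟩, ⟨⟨1, -1, 1⟩, ⟨1, 1, -1⟩, ⟨1, -1, 1⟩⟩⟩],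
      [],
      []⟩,
    .cert ⟨1, 8, 8, 8,
      [⟨⟨-2, 0, 0⟩, ⟨0, -1, -1⟩, ⟨0, -1, -1⟩⟩, ⟨⟨0, 2, -2⟩, ⟨-2, 0, 0⟩, ⟨-2, 0, 0⟩⟩],
      [⟨⟨⟨0, 0, -1⟩, ⟨0, -1, 0⟩, ⟨1, 0, 0⟩⟩, ⟨⟨1, -1, 1⟩, ⟨1, 1, -1⟩, ⟨1, -1, 1⟩⟩⟩],
      [],
      [(0, 1), (0, 3), (1, 1), (1, 3)]⟩]⟩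

def cubC1_14 : C1Cert :=
  ⟨⟨⟨1, 0, 2⟩, ⟨0, 1, 3⟩, ⟨0, 0, 4⟩⟩,
   [(⟨⟨1, 0, 0⟩, ⟨1, 0, 0⟩, ⟨1, 0, 0⟩⟩, ⟨⟨1, 1, 1⟩, ⟨1, 1, 1⟩, ⟨1, 1, 1⟩⟩), (⟨⟨1, 0, 1⟩, ⟨0, 0, 1⟩, ⟨1, 0, 2⟩⟩, ⟨⟨1, -1, -1⟩, ⟨-1, 2, 0⟩, ⟨-1, 0, 2⟩⟩)],
   ⟨⟨4, 0, -2⟩, ⟨0, 4, -3⟩, ⟨0, 0, 1⟩⟩, 4, ⟨0, 0, 0⟩, ⟨0, 0, 0⟩, 0, 1,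
   [(⟨⟨0, 1, 1⟩, ⟨1, 0, 1⟩, ⟨1, 1, 0⟩⟩, 4, ⟨0, 0, 0⟩), (⟨⟨-1, 1, 1⟩, ⟨1, -1, 1⟩, ⟨1, 1, -1⟩⟩, 4, ⟨0, 0, 0⟩)],
   [.cert ⟨1, 4, 4, 4,
      [],
      [⟨⟨⟨1, 0, 0⟩, ⟨0, -1, 0⟩, ⟨0, 0, -1⟩⟩, ⟨⟨2, 0, 0⟩, ⟨0, 1, 1⟩, ⟨0, -1, 1⟩⟩⟩],
      [],
      [(1, 2)]⟩,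
    .cert ⟨1, 4, 4, 4,
      [⟨⟨1, 1, 1⟩, ⟨1, 1, 1⟩, ⟨1, 1, 1⟩⟩, ⟨⟨1, -1, -1⟩, ⟨-1, 2, 0⟩, ⟨-1, 0, 2⟩⟩],
      [⟨⟨⟨1, 0, 0⟩, ⟨0, 0, 1⟩, ⟨0, -1, 0⟩⟩, ⟨⟨1, 0, 0⟩, ⟨0, 1, 0⟩, ⟨0, 0, 1⟩⟩⟩],
      [],
      [(1, 1)]⟩,
    .cert ⟨1, 8, 8, 8,
      [⟨⟨0, 1, -1⟩, ⟨0, -1, 1⟩, ⟨0, 0, 0⟩⟩],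
      [⟨⟨⟨1, 0, 0⟩, ⟨0, -1, 0⟩, ⟨0, 0, -1⟩⟩, ⟨⟨2, 0, 0⟩, ⟨0, 1, 1⟩, ⟨0, -1, 1⟩⟩⟩],
      [],
      [(1, 2), (0, 1), (0, 3)]⟩]⟩

def cubC1_15 : C1Cert :=
  ⟨⟨⟨1, 1, 1⟩, ⟨0, 2, 0⟩, ⟨0, 0, 2⟩⟩,
   [(⟨⟨1, 1, 1⟩, ⟨1, 1, 0⟩, ⟨0, 1, 1⟩⟩, ⟨⟨1, 1, -1⟩, ⟨-1, 1, 1⟩, ⟨1, -1, 1⟩⟩)],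
   ⟨⟨2, -1, -1⟩, ⟨0, 1, 0⟩, ⟨0, 0, 1⟩⟩, 2, ⟨0, 0, 0⟩, ⟨0, 0, 0⟩, 0, 1,
   [],
   [.cert ⟨1, 2, 2, 2,
      [],
      [⟨⟨⟨1, 0, 0⟩, ⟨0, -1, 0⟩, ⟨0, 0, -1⟩⟩, ⟨⟨2, 0, 0⟩, ⟨0, 1, 1⟩, ⟨0, -1, 1⟩⟩⟩, ⟨⟨⟨0, 1, 0⟩, ⟨1, 0, 0⟩, ⟨0, 0, -1⟩⟩, ⟨⟨1, -1, 0⟩, ⟨-1, 1, 0⟩, ⟨0, 0, 2⟩⟩⟩, ⟨⟨⟨0, -1, 0⟩, ⟨-1, 0, 0⟩, ⟨0, 0, -1⟩⟩, ⟨⟨-1, 0, 1⟩, ⟨-1, 0, 1⟩, ⟨0, -2, 0⟩⟩⟩],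
      [],
      []⟩,
    .cert ⟨1, 2, 2, 2,
      [⟨⟨1, 1, 1⟩, ⟨1, 1, 1⟩, ⟨1, 1, 1⟩⟩],
      [⟨⟨⟨0, 1, 0⟩, ⟨1, 0, 0⟩, ⟨0, 0, -1⟩⟩, ⟨⟨1, -1, 0⟩, ⟨-1, 1, 0⟩, ⟨0, 0, 2⟩⟩⟩, ⟨⟨⟨0, -1, 0⟩, ⟨-1, 0, 0⟩, ⟨0, 0, -1⟩⟩, ⟨⟨-1, 0, 1⟩, ⟨-1, 0, 1⟩, ⟨0, -2, 0⟩⟩⟩, ⟨⟨⟨0, 0, -1⟩, ⟨0, -1, 0⟩, ⟨-1, 0, 0⟩⟩, ⟨⟨1, -2, 0⟩, ⟨-1, 1, 1⟩, ⟨-1, 0, 2⟩⟩⟩],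
      [],
      []⟩,
    .cert ⟨1, 4, 4, 4,
      [⟨⟨0, 0, -2⟩, ⟨0, 2, 0⟩, ⟨-2, 0, 0⟩⟩],
      [⟨⟨⟨1, 0, 0⟩, ⟨0, -1, 0⟩, ⟨0, 0, -1⟩⟩, ⟨⟨2, 0, 0⟩, ⟨0, 1, 1⟩, ⟨0, -1, 1⟩⟩⟩, ⟨⟨⟨0, 1, 0⟩, ⟨1, 0, 0⟩, ⟨0, 0, -1⟩⟩, ⟨⟨1, -1, 0⟩, ⟨-1, 1, 0⟩, ⟨0, 0, 2⟩⟩⟩, ⟨⟨⟨0, -1, 0⟩, ⟨-1, 0, 0⟩, ⟨0, 0, -1⟩⟩, ⟨⟨-1, 0, 1⟩, ⟨-1, 0, 1⟩, ⟨0, -2, 0⟩⟩⟩],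
      [],
      []⟩]⟩

def cubC1_16 : C1Cert :=
  ⟨⟨⟨2, 0, 0⟩, ⟨0, 1, 1⟩, ⟨0, 0, 0⟩⟩,
   [(⟨⟨-1, 0, 0⟩, ⟨0, -1, 0⟩, ⟨0, 0, 0⟩⟩, ⟨⟨-2, 0, 0⟩, ⟨0, -1, -1⟩, ⟨0, -1, -1⟩⟩)],
   ⟨⟨1, 0, 0⟩, ⟨0, 2, 0⟩, ⟨0, 0, 0⟩⟩, 2, ⟨0, -1, 1⟩, ⟨0, 0, 2⟩, 0, 1,
   [(⟨⟨1, 0, 0⟩, ⟨0, 1, 1⟩, ⟨0, 0, 0⟩⟩, 2, ⟨0, 0, 2⟩), (⟨⟨1, 1, 1⟩, ⟨1, -1, -1⟩, ⟨0, 0, 0⟩⟩, 2, ⟨1, -1, 1⟩)],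
   [.cert ⟨1, 2, 2, 1,
      [],
      [⟨⟨⟨0, 0, -1⟩, ⟨0, 1, 0⟩, ⟨-1, 0, 0⟩⟩, ⟨⟨1, -1, -1⟩, ⟨1, 1, 1⟩, ⟨-1, 1, 1⟩⟩⟩],
      [],
      [(0, 1)]⟩,
    .cert ⟨1, 4, 4, 1,
      [⟨⟨-2, 0, 0⟩, ⟨0, -1, -1⟩, ⟨0, -1, -1⟩⟩],
      [⟨⟨⟨0, 0, -1⟩, ⟨0, 1, 0⟩, ⟨-1, 0, 0⟩⟩, ⟨⟨1, -1, -1⟩, ⟨1, 1, 1⟩, ⟨-1, 1, 1⟩⟩⟩],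
      [(⟨⟨⟨1, 0, 0⟩, ⟨0, 1, 0⟩, ⟨0, 0, 1⟩⟩, 2, ⟨⟨0, 0, 0⟩, ⟨0, 0, 0⟩, ⟨0, 0, 0⟩⟩⟩, ⟨-1, 1, 0⟩, 1)],
      [(1, 1)]⟩,
    .cert ⟨1, 4, 4, 1,
      [⟨⟨-2, -1, -1⟩, ⟨0, 0, 0⟩, ⟨0, -1, -1⟩⟩],
      [⟨⟨⟨0, 0, -1⟩, ⟨0, 1, 0⟩, ⟨-1, 0, 0⟩⟩, ⟨⟨1, -1, -1⟩, ⟨1, 1, 1⟩, ⟨-1, 1, 1⟩⟩⟩],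
      [],
      []⟩]⟩

def cubC1_17 : C1Cert :=
  ⟨⟨⟨1, 0, 0⟩, ⟨0, 1, -1⟩, ⟨0, 0, 0⟩⟩,
   [(⟨⟨1, 0, 0⟩, ⟨1, 0, -1⟩, ⟨0, 0, 0⟩⟩, ⟨⟨1, 0, 0⟩, ⟨-1, 0, 0⟩, ⟨1, -1, 1⟩⟩)],
   ⟨⟨1, 0, 0⟩, ⟨0, 1, 0⟩, ⟨0, 0, 0⟩⟩, 1, ⟨0, 1, 1⟩, ⟨0, 0, 1⟩, 0, 1,
   [(⟨⟨1, 0, 0⟩, ⟨0, 1, -1⟩, ⟨0, 0, 0⟩⟩, 1, ⟨0, 0, 1⟩), (⟨⟨1, 1, -1⟩, ⟨1, -1, 1⟩, ⟨0, 0, 0⟩⟩, 2, ⟨-1, 1, 1⟩), (⟨⟨2, -1, 1⟩, ⟨0, 1, -1⟩, ⟨0, 0, 0⟩⟩, 2, ⟨-2, 2, 0⟩)],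
   [.cert ⟨1, 1, 1, 1,
      [],
      [],
      [],
      [(0, 1)]⟩,
    .cert ⟨1, 2, 2, 1,
      [⟨⟨1, 0, 0⟩, ⟨-1, 0, 0⟩, ⟨1, -1, 1⟩⟩],
      [],
      [(⟨⟨⟨1, 0, 0⟩, ⟨0, 1, 0⟩, ⟨0, 0, 1⟩⟩, 2, ⟨⟨0, 0, 0⟩, ⟨0, 0, 0⟩, ⟨0, 0, 0⟩⟩⟩, ⟨-1, 1, 0⟩, 1)],
      [(1, 1)]⟩,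
    .cert ⟨1, 2, 2, 1,
      [⟨⟨0, 0, 0⟩, ⟨0, 1, -1⟩, ⟨0, -1, 1⟩⟩],
      [],
      [(⟨⟨⟨1, 0, 0⟩, ⟨0, 1, 0⟩, ⟨0, 0, 1⟩⟩, 2, ⟨⟨0, 0, 0⟩, ⟨0, 0, 0⟩, ⟨0, 0, 0⟩⟩⟩, ⟨1, -1, 1⟩, 1)],
      [(2, 1)]⟩]⟩

def cubC1_18 : C1Cert :=
  ⟨⟨⟨1, 0, 0⟩, ⟨0, 1, 1⟩, ⟨0, 0, 0⟩⟩,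
   [(⟨⟨1, 0, 0⟩, ⟨1, 0, 1⟩, ⟨0, 0, 0⟩⟩, ⟨⟨1, 0, 0⟩, ⟨1, 0, 0⟩, ⟨-1, 1, 1⟩⟩)],
   ⟨⟨1, 0, 0⟩, ⟨0, 1, 0⟩, ⟨0, 0, 0⟩⟩, 1, ⟨0, -1, 1⟩, ⟨0, 0, 1⟩, 0, 1,
   [(⟨⟨1, 0, 0⟩, ⟨0, 1, 1⟩, ⟨0, 0, 0⟩⟩, 1, ⟨0, 0, 1⟩), (⟨⟨1, 1, 1⟩, ⟨1, -1, -1⟩, ⟨0, 0, 0⟩⟩, 2, ⟨1, -1, 1⟩), (⟨⟨0, 1, 1⟩, ⟨2, -1, -1⟩, ⟨0, 0, 0⟩⟩, 2, ⟨2, -2, 0⟩)],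
   [.cert ⟨1, 1, 1, 1,
      [],
      [],
      [],
      [(0, 1)]⟩,
    .cert ⟨1, 2, 2, 1,
      [⟨⟨1, 0, 0⟩, ⟨1, 0, 0⟩, ⟨-1, 1, 1⟩⟩],
      [],
      [(⟨⟨⟨1, 0, 0⟩, ⟨0, 1, 0⟩, ⟨0, 0, 1⟩⟩, 2, ⟨⟨0, 0, 0⟩, ⟨0, 0, 0⟩, ⟨0, 0, 0⟩⟩⟩, ⟨-1, 1, 0⟩, 1)],
      [(1, 1)]⟩,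
    .cert ⟨1, 2, 2, 1,
      [⟨⟨-2, 0, 0⟩, ⟨0, -1, -1⟩, ⟨0, -1, -1⟩⟩],
      [],
      [(⟨⟨⟨1, 0, 0⟩, ⟨0, 1, 0⟩, ⟨0, 0, 1⟩⟩, 2, ⟨⟨0, 0, 0⟩, ⟨0, 0, 0⟩, ⟨0, 0, 0⟩⟩⟩, ⟨1, -1, 1⟩, 1)],
      [(2, 1)]⟩]⟩

def cubC1_19 : C1Cert :=
  ⟨⟨⟨2, 0, 0⟩, ⟨0, 1, -1⟩, ⟨0, 0, 0⟩⟩,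
   [(⟨⟨1, 0, 0⟩, ⟨0, -1, 0⟩, ⟨0, 0, 0⟩⟩, ⟨⟨2, 0, 0⟩, ⟨0, -1, 1⟩, ⟨-2, -1, 1⟩⟩)],
   ⟨⟨1, 0, 0⟩, ⟨0, 2, 0⟩, ⟨0, 0, 0⟩⟩, 2, ⟨0, 1, 1⟩, ⟨0, 0, 2⟩, 0, 1,
   [(⟨⟨1, 1, -1⟩, ⟨1, -1, 1⟩, ⟨0, 0, 0⟩⟩, 2, ⟨-1, 1, 1⟩), (⟨⟨1, 1, -1⟩, ⟨1, -1, 1⟩, ⟨0, 0, 0⟩⟩, 4, ⟨-2, 2, 2⟩), (⟨⟨1, 1, -1⟩, ⟨1, -1, 1⟩, ⟨0, 0, 0⟩⟩, 4, ⟨-2, 2, 2⟩)],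
   [.cert ⟨1, 2, 2, 1,
      [],
      [⟨⟨⟨0, 0, 1⟩, ⟨0, 1, 0⟩, ⟨-1, 0, 0⟩⟩, ⟨⟨1, 0, 0⟩, ⟨1, 0, 0⟩, ⟨1, -1, 1⟩⟩⟩],
      [(⟨⟨⟨1, 1, 1⟩, ⟨0, 2, 0⟩, ⟨0, 0, 2⟩⟩, 2, ⟨⟨0, 0, 0⟩, ⟨0, 0, 0⟩, ⟨0, 0, 0⟩⟩⟩, ⟨1, 0, 0⟩, 1)],
      []⟩,
    .cert ⟨1, 4, 4, 1,
      [],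
      [⟨⟨⟨0, 0, 1⟩, ⟨0, 1, 0⟩, ⟨-1, 0, 0⟩⟩, ⟨⟨1, 0, 0⟩, ⟨1, 0, 0⟩, ⟨1, -1, 1⟩⟩⟩],
      [(⟨⟨⟨1, 0, 0⟩, ⟨0, 1, 0⟩, ⟨0, 0, 1⟩⟩, 2, ⟨⟨0, 0, 0⟩, ⟨0, 0, 0⟩, ⟨0, 0, 0⟩⟩⟩, ⟨-1, 1, 0⟩, 1)],
      [(1, 1), (2, 1), (0, 1)]⟩,
    .cert ⟨1, 4, 4, 1,
      [⟨⟨2, 0, 0⟩, ⟨0, -1, 1⟩, ⟨-2, -1, 1⟩⟩],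
      [⟨⟨⟨0, 0, 1⟩, ⟨0, 1, 0⟩, ⟨-1, 0, 0⟩⟩, ⟨⟨1, 0, 0⟩, ⟨1, 0, 0⟩, ⟨1, -1, 1⟩⟩⟩],
      [],
      []⟩]⟩

def cubC1_20 : C1Cert :=
  ⟨⟨⟨1, 1, 1⟩, ⟨0, 2, 0⟩, ⟨0, 0, 2⟩⟩,
   [(⟨⟨0, 0, 0⟩, ⟨0, 1, 0⟩, ⟨-1, -1, 0⟩⟩, ⟨⟨2, 0, 0⟩, ⟨0, 2, 0⟩, ⟨0, 0, 0⟩⟩), (⟨⟨1, 0, 0⟩, ⟨0, 0, 0⟩, ⟨2, 0, 0⟩⟩, ⟨⟨1, 1, 1⟩, ⟨1, 1, 1⟩, ⟨1, 1, 1⟩⟩)],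
   ⟨⟨2, -1, -1⟩, ⟨0, 1, 0⟩, ⟨0, 0, 1⟩⟩, 2, ⟨0, 0, 0⟩, ⟨0, 0, 0⟩, 0, 1,
   [(⟨⟨0, 1, 1⟩, ⟨1, 0, 1⟩, ⟨1, 1, 0⟩⟩, 2, ⟨0, 0, 0⟩), (⟨⟨0, 1, 1⟩, ⟨1, 0, 1⟩, ⟨1, 1, 0⟩⟩, 2, ⟨0, 0, 0⟩), (⟨⟨0, 1, 1⟩, ⟨1, 0, 1⟩, ⟨1, 1, 0⟩⟩, 2, ⟨0, 0, 0⟩)],
   [.cert ⟨1, 2, 2, 2,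
      [],
      [⟨⟨⟨0, 1, 0⟩, ⟨0, 0, 1⟩, ⟨1, 0, 0⟩⟩, ⟨⟨1, 0, 0⟩, ⟨0, 1, 0⟩, ⟨0, 0, 1⟩⟩⟩],
      [],
      [(0, 2), (1, 2), (2, 2)]⟩,
    .cert ⟨1, 2, 2, 2,
      [⟨⟨2, 0, 0⟩, ⟨0, 2, 0⟩, ⟨0, 0, 0⟩⟩, ⟨⟨0, 0, 0⟩, ⟨0, 2, 0⟩, ⟨0, 0, 2⟩⟩, ⟨⟨1, 1, 1⟩, ⟨1, 1, 1⟩, ⟨1, 1, 1⟩⟩],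
      [⟨⟨⟨0, 1, 0⟩, ⟨0, 0, 1⟩, ⟨1, 0, 0⟩⟩, ⟨⟨1, 0, 0⟩, ⟨0, 1, 0⟩, ⟨0, 0, 1⟩⟩⟩],
      [],
      []⟩,
    .cert ⟨1, 4, 4, 4,
      [⟨⟨2, 0, 0⟩, ⟨0, 2, 0⟩, ⟨0, 0, 0⟩⟩],
      [⟨⟨⟨0, 1, 0⟩, ⟨0, 0, 1⟩, ⟨1, 0, 0⟩⟩, ⟨⟨1, 0, 0⟩, ⟨0, 1, 0⟩, ⟨0, 0, 1⟩⟩⟩],
      [],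
      [(0, 1), (1, 1), (2, 1)]⟩]⟩

def cubC1_21 : C1Cert :=
  ⟨⟨⟨2, 0, 0⟩, ⟨0, 2, 0⟩, ⟨0, 0, 2⟩⟩,
   [(⟨⟨1, 0, 0⟩, ⟨0, 1, 0⟩, ⟨0, 0, 0⟩⟩, ⟨⟨2, 0, 0⟩, ⟨0, 2, 0⟩, ⟨0, 0, 0⟩⟩), (⟨⟨0, 0, 0⟩, ⟨0, 0, 0⟩, ⟨0, 0, 1⟩⟩, ⟨⟨0, 0, 0⟩, ⟨0, 2, 0⟩, ⟨0, 0, 2⟩⟩)],
   ⟨⟨1, 0, 0⟩, ⟨0, 1, 0⟩, ⟨0, 0, 1⟩⟩, 2, ⟨0, 0, 0⟩, ⟨0, 0, 0⟩, 0, 1,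
   [(⟨⟨1, 0, 0⟩, ⟨0, 1, 0⟩, ⟨0, 0, 1⟩⟩, 2, ⟨0, 0, 0⟩), (⟨⟨1, 0, 0⟩, ⟨0, 1, 0⟩, ⟨0, 0, 1⟩⟩, 2, ⟨0, 0, 0⟩), (⟨⟨1, 0, 0⟩, ⟨0, 1, 0⟩, ⟨0, 0, 1⟩⟩, 2, ⟨0, 0, 0⟩)],
   [.cert ⟨1, 2, 2, 2,
      [],
      [⟨⟨⟨-1, 0, 0⟩, ⟨0, -1, 0⟩, ⟨0, 0, -1⟩⟩, ⟨⟨1, 1, 1⟩, ⟨-1, 1, 1⟩, ⟨-1, -1, 1⟩⟩⟩, ⟨⟨⟨0, 0, 1⟩, ⟨-1, 0, 0⟩, ⟨0, -1, 0⟩⟩, ⟨⟨1, 1, 0⟩, ⟨0, 1, 1⟩, ⟨-1, 0, 1⟩⟩⟩],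
      [],
      [(0, 1), (1, 1), (2, 1)]⟩,
    .cert ⟨1, 4, 4, 4,
      [⟨⟨2, 0, 0⟩, ⟨0, 2, 0⟩, ⟨0, 0, 0⟩⟩, ⟨⟨0, 0, 0⟩, ⟨0, 2, 0⟩, ⟨0, 0, 2⟩⟩],
      [⟨⟨⟨0, 0, 1⟩, ⟨-1, 0, 0⟩, ⟨0, -1, 0⟩⟩, ⟨⟨1, 1, 0⟩, ⟨0, 1, 1⟩, ⟨-1, 0, 1⟩⟩⟩],
      [],
      []⟩,
    .cert ⟨1, 4, 4, 4,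
      [⟨⟨2, 0, 0⟩, ⟨0, 2, 0⟩, ⟨0, 0, 0⟩⟩, ⟨⟨0, 0, 0⟩, ⟨0, 2, 0⟩, ⟨0, 0, 2⟩⟩],
      [⟨⟨⟨-1, 0, 0⟩, ⟨0, -1, 0⟩, ⟨0, 0, -1⟩⟩, ⟨⟨1, 1, 1⟩, ⟨-1, 1, 1⟩, ⟨-1, -1, 1⟩⟩⟩],
      [],
      []⟩]⟩

def cubC1_22 : C1Cert :=
  ⟨⟨⟨1, 1, 1⟩, ⟨0, 2, 0⟩, ⟨0, 0, 2⟩⟩,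
   [(⟨⟨1, 0, 0⟩, ⟨0, 1, -1⟩, ⟨1, 0, 1⟩⟩, ⟨⟨1, 1, 1⟩, ⟨-1, 1, 1⟩, ⟨-1, -1, 1⟩⟩)],
   ⟨⟨2, -1, -1⟩, ⟨0, 1, 0⟩, ⟨0, 0, 1⟩⟩, 2, ⟨0, 0, 0⟩, ⟨0, 0, 0⟩, 0, 1,
   [(⟨⟨-1, 1, 1⟩, ⟨1, -1, 1⟩, ⟨1, 1, -1⟩⟩, 4, ⟨0, 0, 0⟩)],
   [.cert ⟨1, 2, 2, 2,
      [],
      [⟨⟨⟨-1, 0, 0⟩, ⟨0, -1, 0⟩, ⟨0, 0, 1⟩⟩, ⟨⟨2, 0, 0⟩, ⟨0, 2, 0⟩, ⟨0, 0, 0⟩⟩⟩],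
      [],
      []⟩,
    .cert ⟨1, 2, 2, 2,
      [⟨⟨1, 1, 1⟩, ⟨1, 1, 1⟩, ⟨1, 1, 1⟩⟩, ⟨⟨1, -1, 1⟩, ⟨-1, 1, -1⟩, ⟨1, -1, 1⟩⟩],
      [⟨⟨⟨0, 1, 0⟩, ⟨0, 0, 1⟩, ⟨1, 0, 0⟩⟩, ⟨⟨1, 0, 0⟩, ⟨0, 1, 0⟩, ⟨0, 0, 1⟩⟩⟩],
      [],
      [(0, 1)]⟩,
    .cert ⟨1, 4, 4, 4,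
      [⟨⟨-2, 0, 0⟩, ⟨0, 2, 0⟩, ⟨0, 0, 2⟩⟩],
      [⟨⟨⟨-1, 0, 0⟩, ⟨0, -1, 0⟩, ⟨0, 0, 1⟩⟩, ⟨⟨2, 0, 0⟩, ⟨0, 2, 0⟩, ⟨0, 0, 0⟩⟩⟩],
      [],
      []⟩]⟩

def cubC1_23 : C1Cert :=
  ⟨⟨⟨1, 1, 1⟩, ⟨0, 2, 2⟩, ⟨0, 0, 0⟩⟩,
   [(⟨⟨1, 0, 0⟩, ⟨1, 0, 1⟩, ⟨0, 0, 0⟩⟩, ⟨⟨1, 1, 1⟩, ⟨1, 1, 1⟩, ⟨-1, 1, 1⟩⟩)],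
   ⟨⟨2, -1, 0⟩, ⟨0, 1, 0⟩, ⟨0, 0, 0⟩⟩, 2, ⟨0, -1, 1⟩, ⟨0, 0, 2⟩, 0, 1,
   [(⟨⟨1, 0, 0⟩, ⟨0, 1, 1⟩, ⟨0, 0, 0⟩⟩, 2, ⟨0, 0, 2⟩), (⟨⟨0, 1, 1⟩, ⟨2, -1, -1⟩, ⟨0, 0, 0⟩⟩, 2, ⟨2, -2, 0⟩), (⟨⟨0, 1, 1⟩, ⟨2, -1, -1⟩, ⟨0, 0, 0⟩⟩, 2, ⟨2, -2, 0⟩)],
   [.cert ⟨1, 2, 2, 1,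
      [],
      [],
      [(⟨⟨⟨1, 1, 1⟩, ⟨0, 2, 0⟩, ⟨0, 0, 2⟩⟩, 2, ⟨⟨0, 0, 0⟩, ⟨0, 0, 0⟩, ⟨0, 0, 0⟩⟩⟩, ⟨1, 0, 0⟩, 1), (⟨⟨⟨1, 1, 0⟩, ⟨0, 1, 1⟩, ⟨0, 0, 2⟩⟩, 2, ⟨⟨0, 0, 0⟩, ⟨0, 0, 0⟩, ⟨0, 0, 0⟩⟩⟩, ⟨1, 0, 0⟩, 1)],
      [(0, 1)]⟩,
    .cert ⟨1, 2, 2, 1,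
      [⟨⟨2, 0, 0⟩, ⟨0, 0, 0⟩, ⟨0, 0, 0⟩⟩, ⟨⟨1, 1, 1⟩, ⟨1, 1, 1⟩, ⟨1, 1, 1⟩⟩],
      [],
      [(⟨⟨⟨1, 0, 0⟩, ⟨0, 1, 0⟩, ⟨0, 0, 1⟩⟩, 2, ⟨⟨0, 0, 0⟩, ⟨0, 0, 0⟩, ⟨0, 0, 0⟩⟩⟩, ⟨-1, 1, 0⟩, 1)],
      []⟩,
    .cert ⟨1, 4, 4, 1,
      [⟨⟨2, 0, 0⟩, ⟨0, 0, 0⟩, ⟨0, 0, 0⟩⟩],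
      [],
      [(⟨⟨⟨1, 0, 0⟩, ⟨0, 1, 0⟩, ⟨0, 0, 1⟩⟩, 2, ⟨⟨0, 0, 0⟩, ⟨0, 0, 0⟩, ⟨0, 0, 0⟩⟩⟩, ⟨1, -1, 1⟩, 1)],
      [(1, 1), (2, 1)]⟩]⟩

def cubC1_24 : C1Cert :=
  ⟨⟨⟨1, 0, 0⟩, ⟨0, 1, 1⟩, ⟨0, 0, 0⟩⟩,
   [(⟨⟨1, 0, 0⟩, ⟨-1, 0, 1⟩, ⟨0, 0, 0⟩⟩, ⟨⟨1, 0, 0⟩, ⟨-1, 0, 0⟩, ⟨1, 1, 1⟩⟩)],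
   ⟨⟨1, 0, 0⟩, ⟨0, 1, 0⟩, ⟨0, 0, 0⟩⟩, 1, ⟨0, -1, 1⟩, ⟨0, 0, 1⟩, 0, 1,
   [(⟨⟨1, 0, 0⟩, ⟨0, 1, 1⟩, ⟨0, 0, 0⟩⟩, 1, ⟨0, 0, 1⟩), (⟨⟨1, 1, 1⟩, ⟨1, -1, -1⟩, ⟨0, 0, 0⟩⟩, 2, ⟨1, -1, 1⟩), (⟨⟨0, 1, 1⟩, ⟨2, -1, -1⟩, ⟨0, 0, 0⟩⟩, 2, ⟨2, -2, 0⟩)],
   [.cert ⟨1, 1, 1, 1,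
      [],
      [],
      [],
      [(0, 1)]⟩,
    .cert ⟨1, 2, 2, 1,
      [⟨⟨1, 0, 0⟩, ⟨-1, 0, 0⟩, ⟨1, 1, 1⟩⟩],
      [],
      [(⟨⟨⟨1, 0, 0⟩, ⟨0, 1, 0⟩, ⟨0, 0, 1⟩⟩, 2, ⟨⟨0, 0, 0⟩, ⟨0, 0, 0⟩, ⟨0, 0, 0⟩⟩⟩, ⟨-1, 1, 0⟩, 1)],
      [(1, 1)]⟩,
    .cert ⟨1, 2, 2, 1,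
      [⟨⟨-2, 0, 0⟩, ⟨0, -1, -1⟩, ⟨0, -1, -1⟩⟩],
      [],
      [(⟨⟨⟨1, 0, 0⟩, ⟨0, 1, 0⟩, ⟨0, 0, 1⟩⟩, 2, ⟨⟨0, 0, 0⟩, ⟨0, 0, 0⟩, ⟨0, 0, 0⟩⟩⟩, ⟨1, -1, 1⟩, 1)],
      [(2, 1)]⟩]⟩

def cubC1_25 : C1Cert :=
  ⟨⟨⟨1, 1, 0⟩, ⟨0, 2, -1⟩, ⟨0, 0, 0⟩⟩,
   [(⟨⟨1, 1, 0⟩, ⟨0, 1, 0⟩, ⟨0, 0, 0⟩⟩, ⟨⟨1, -1, 1⟩, ⟨0, 2, -1⟩, ⟨2, 0, 1⟩⟩)],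
   ⟨⟨2, -1, 0⟩, ⟨0, 1, 0⟩, ⟨0, 0, 0⟩⟩, 2, ⟨-1, 1, 2⟩, ⟨0, 0, 1⟩, 0, 1,
   [(⟨⟨1, 1, 0⟩, ⟨0, -2, 1⟩, ⟨0, 0, 0⟩⟩, 1, ⟨0, 1, 0⟩), (⟨⟨1, -1, 1⟩, ⟨1, 3, -1⟩, ⟨0, 0, 0⟩⟩, 2, ⟨0, 2, 0⟩), (⟨⟨1, 1, 0⟩, ⟨1, -3, 2⟩, ⟨0, 0, 0⟩⟩, 2, ⟨0, -2, 2⟩)],
   [.cert ⟨1, 2, 2, 1,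
      [],
      [],
      [(⟨⟨⟨1, 1, 1⟩, ⟨0, 2, 0⟩, ⟨0, 0, 2⟩⟩, 2, ⟨⟨0, 0, 0⟩, ⟨0, 0, 0⟩, ⟨0, 0, 0⟩⟩⟩, ⟨1, 0, 0⟩, 1), (⟨⟨⟨1, 1, 0⟩, ⟨0, 1, 1⟩, ⟨0, 0, 2⟩⟩, 2, ⟨⟨0, 0, 0⟩, ⟨0, 0, 0⟩, ⟨0, 0, 0⟩⟩⟩, ⟨1, 0, 0⟩, 1)],
      [(0, 1)]⟩,
    .cert ⟨1, 2, 2, 1,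
      [⟨⟨1, -1, 1⟩, ⟨0, 2, -1⟩, ⟨2, 0, 1⟩⟩],
      [],
      [(⟨⟨⟨1, 0, 0⟩, ⟨0, 1, 0⟩, ⟨0, 0, 1⟩⟩, 2, ⟨⟨0, 0, 0⟩, ⟨0, 0, 0⟩, ⟨0, 0, 0⟩⟩⟩, ⟨-1, 1, 0⟩, 1)],
      [(1, 1)]⟩,
    .cert ⟨1, 4, 4, 1,
      [⟨⟨-1, -1, 0⟩, ⟨-1, -1, 0⟩, ⟨0, 0, 0⟩⟩],
      [],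
      [(⟨⟨⟨1, 0, 0⟩, ⟨0, 1, 0⟩, ⟨0, 0, 1⟩⟩, 2, ⟨⟨0, 0, 0⟩, ⟨0, 0, 0⟩, ⟨0, 0, 0⟩⟩⟩, ⟨1, -1, 1⟩, 1)],
      [(2, 1)]⟩]⟩

def cubC1_26 : C1Cert :=
  ⟨⟨⟨1, 1, 1⟩, ⟨0, 2, 0⟩, ⟨0, 0, 2⟩⟩,
   [(⟨⟨1, 0, 0⟩, ⟨1, 1, 0⟩, ⟨1, 0, 1⟩⟩, ⟨⟨1, 1, 1⟩, ⟨-1, 1, -1⟩, ⟨-1, -1, 1⟩⟩)],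
   ⟨⟨2, -1, -1⟩, ⟨0, 1, 0⟩, ⟨0, 0, 1⟩⟩, 2, ⟨0, 0, 0⟩, ⟨0, 0, 0⟩, 0, 1,
   [(⟨⟨0, 1, 1⟩, ⟨1, 0, 1⟩, ⟨1, 1, 0⟩⟩, 2, ⟨0, 0, 0⟩), (⟨⟨0, 1, 1⟩, ⟨1, 0, 1⟩, ⟨1, 1, 0⟩⟩, 2, ⟨0, 0, 0⟩), (⟨⟨0, 1, 1⟩, ⟨1, 0, 1⟩, ⟨1, 1, 0⟩⟩, 2, ⟨0, 0, 0⟩)],
   [.cert ⟨1, 2, 2, 2,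
      [],
      [⟨⟨⟨1, 0, 0⟩, ⟨0, 1, 0⟩, ⟨0, 0, -1⟩⟩, ⟨⟨1, 0, 0⟩, ⟨0, 1, 0⟩, ⟨0, 0, 1⟩⟩⟩],
      [],
      [(0, 2), (1, 2), (2, 2)]⟩,
    .cert ⟨1, 2, 2, 2,
      [⟨⟨-2, 0, 0⟩, ⟨0, -2, 0⟩, ⟨0, 0, 0⟩⟩, ⟨⟨-1, 1, -1⟩, ⟨1, -1, -1⟩, ⟨-1, 1, -1⟩⟩],
      [⟨⟨⟨1, 0, 0⟩, ⟨0, 1, 0⟩, ⟨0, 0, -1⟩⟩, ⟨⟨1, 0, 0⟩, ⟨0, 1, 0⟩, ⟨0, 0, 1⟩⟩⟩],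
      [],
      [(1, 2)]⟩,
    .cert ⟨1, 4, 4, 4,
      [⟨⟨-2, 0, 0⟩, ⟨0, -2, 0⟩, ⟨0, 0, 0⟩⟩],
      [⟨⟨⟨1, 0, 0⟩, ⟨0, 1, 0⟩, ⟨0, 0, -1⟩⟩, ⟨⟨1, 0, 0⟩, ⟨0, 1, 0⟩, ⟨0, 0, 1⟩⟩⟩],
      [],
      [(0, 1), (1, 1), (2, 1)]⟩]⟩

def cubC1_27 : C1Cert :=
  ⟨⟨⟨2, 0, 0⟩, ⟨0, 1, 1⟩, ⟨0, 0, 2⟩⟩,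
   [(⟨⟨-1, -1, 1⟩, ⟨0, 0, -1⟩, ⟨0, 1, -2⟩⟩, ⟨⟨-2, 1, -1⟩, ⟨0, -2, 0⟩, ⟨0, -1, -1⟩⟩)],
   ⟨⟨1, 0, 0⟩, ⟨0, 2, -1⟩, ⟨0, 0, 1⟩⟩, 2, ⟨0, 0, 0⟩, ⟨0, 0, 0⟩, 0, 1,
   [(⟨⟨-1, 1, 1⟩, ⟨1, -1, 1⟩, ⟨1, 1, -1⟩⟩, 4, ⟨0, 0, 0⟩), (⟨⟨0, 1, 1⟩, ⟨1, 0, 1⟩, ⟨1, 1, 0⟩⟩, 4, ⟨0, 0, 0⟩), (⟨⟨0, 1, 1⟩, ⟨1, 0, 1⟩, ⟨1, 1, 0⟩⟩, 4, ⟨0, 0, 0⟩), (⟨⟨1, 0, 0⟩, ⟨0, 1, 0⟩, ⟨0, 0, 1⟩⟩, 2, ⟨0, 0, 0⟩)],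
   [.cert ⟨1, 2, 2, 2,
      [],
      [⟨⟨⟨0, 1, 0⟩, ⟨0, 0, 1⟩, ⟨-1, 0, 0⟩⟩, ⟨⟨1, 0, 1⟩, ⟨0, 2, 0⟩, ⟨-1, 0, 1⟩⟩⟩, ⟨⟨⟨0, 0, 1⟩, ⟨0, -1, 0⟩, ⟨1, 0, 0⟩⟩, ⟨⟨1, 2, 0⟩, ⟨-1, 1, -1⟩, ⟨1, 0, 0⟩⟩⟩],
      [],
      [(3, 1)]⟩,
    .cert ⟨1, 4, 4, 4,
      [⟨⟨-2, 0, 0⟩, ⟨0, -1, -1⟩, ⟨0, -1, -1⟩⟩],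
      [⟨⟨⟨0, 1, 0⟩, ⟨0, 0, 1⟩, ⟨-1, 0, 0⟩⟩, ⟨⟨1, 0, 1⟩, ⟨0, 2, 0⟩, ⟨-1, 0, 1⟩⟩⟩, ⟨⟨⟨0, 0, 1⟩, ⟨0, -1, 0⟩, ⟨1, 0, 0⟩⟩, ⟨⟨1, 2, 0⟩, ⟨-1, 1, -1⟩, ⟨1, 0, 0⟩⟩⟩],
      [],
      [(0, 1)]⟩,
    .cert ⟨1, 4, 4, 4,
      [⟨⟨-2, 1, -1⟩, ⟨0, -2, 0⟩, ⟨0, -1, -1⟩⟩],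
      [⟨⟨⟨0, 0, 1⟩, ⟨0, -1, 0⟩, ⟨1, 0, 0⟩⟩, ⟨⟨1, 2, 0⟩, ⟨-1, 1, -1⟩, ⟨1, 0, 0⟩⟩⟩],
      [],
      [(1, 1), (2, 1)]⟩]⟩

def cubC1_28 : C1Cert :=
  ⟨⟨⟨1, 1, 0⟩, ⟨0, 2, 0⟩, ⟨0, 0, 2⟩⟩,
   [(⟨⟨0, 0, 0⟩, ⟨0, -1, 0⟩, ⟨0, 0, 0⟩⟩, ⟨⟨-2, 0, 0⟩, ⟨0, -2, 0⟩, ⟨0, 0, 0⟩⟩), (⟨⟨1, 0, 0⟩, ⟨0, 0, 0⟩, ⟨0, 0, 1⟩⟩, ⟨⟨1, 1, 0⟩, ⟨1, 1, 0⟩, ⟨0, 0, 2⟩⟩)],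
   ⟨⟨2, -1, 0⟩, ⟨0, 1, 0⟩, ⟨0, 0, 1⟩⟩, 2, ⟨0, 0, 0⟩, ⟨0, 0, 0⟩, 0, 1,
   [(⟨⟨1, 0, 0⟩, ⟨0, 1, 0⟩, ⟨0, 0, 1⟩⟩, 2, ⟨0, 0, 0⟩), (⟨⟨-1, 1, 1⟩, ⟨1, -1, 1⟩, ⟨1, 1, -1⟩⟩, 4, ⟨0, 0, 0⟩)],
   [.cert ⟨1, 2, 2, 2,
      [],
      [⟨⟨⟨0, 0, -1⟩, ⟨0, -1, 0⟩, ⟨-1, 0, 0⟩⟩, ⟨⟨1, 0, 1⟩, ⟨0, 0, 0⟩, ⟨-1, 0, 1⟩⟩⟩, ⟨⟨⟨1, 0, 0⟩, ⟨0, 0, -1⟩, ⟨0, -1, 0⟩⟩, ⟨⟨2, 0, -1⟩, ⟨1, 1, 1⟩, ⟨0, 0, 1⟩⟩⟩],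
      [],
      [(0, 1)]⟩,
    .cert ⟨1, 4, 4, 4,
      [⟨⟨1, 1, 0⟩, ⟨1, 1, 0⟩, ⟨0, 0, 2⟩⟩],
      [⟨⟨⟨0, 0, -1⟩, ⟨0, -1, 0⟩, ⟨-1, 0, 0⟩⟩, ⟨⟨1, 0, 1⟩, ⟨0, 0, 0⟩, ⟨-1, 0, 1⟩⟩⟩, ⟨⟨⟨1, 0, 0⟩, ⟨0, 0, -1⟩, ⟨0, -1, 0⟩⟩, ⟨⟨2, 0, -1⟩, ⟨1, 1, 1⟩, ⟨0, 0, 1⟩⟩⟩],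
      [],
      [(1, 1)]⟩,
    .cert ⟨1, 4, 4, 4,
      [⟨⟨-2, 0, 0⟩, ⟨0, -2, 0⟩, ⟨0, 0, 0⟩⟩, ⟨⟨1, 1, 0⟩, ⟨1, 1, 0⟩, ⟨0, 0, 2⟩⟩],
      [⟨⟨⟨1, 0, 0⟩, ⟨0, 0, -1⟩, ⟨0, -1, 0⟩⟩, ⟨⟨2, 0, -1⟩, ⟨1, 1, 1⟩, ⟨0, 0, 1⟩⟩⟩],
      [],
      [(0, 1)]⟩]⟩

def cubC1_29 : C1Cert :=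
  ⟨⟨⟨1, 0, 3⟩, ⟨0, 1, 2⟩, ⟨0, 0, 4⟩⟩,
   [(⟨⟨-1, 0, -1⟩, ⟨-1, 0, 0⟩, ⟨-1, 1, -2⟩⟩, ⟨⟨0, -1, -2⟩, ⟨-2, 1, 0⟩, ⟨-1, 1, -1⟩⟩)],
   ⟨⟨4, 0, -3⟩, ⟨0, 4, -2⟩, ⟨0, 0, 1⟩⟩, 4, ⟨0, 0, 0⟩, ⟨0, 0, 0⟩, 0, 1,
   [(⟨⟨0, 1, 1⟩, ⟨1, 0, 1⟩, ⟨1, 1, 0⟩⟩, 2, ⟨0, 0, 0⟩)],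
   [.cert ⟨1, 4, 4, 4,
      [],
      [⟨⟨⟨1, 0, 0⟩, ⟨0, 0, 1⟩, ⟨0, -1, 0⟩⟩, ⟨⟨1, 0, 0⟩, ⟨0, 1, 0⟩, ⟨0, 0, 1⟩⟩⟩],
      [],
      [(0, 4), (0, 2)]⟩,
    .cert ⟨1, 4, 4, 4,
      [⟨⟨1, 0, -1⟩, ⟨0, 2, 0⟩, ⟨-1, 0, 1⟩⟩, ⟨⟨0, -1, -2⟩, ⟨-2, 1, 0⟩, ⟨-1, 1, -1⟩⟩],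
      [⟨⟨⟨1, 0, 0⟩, ⟨0, 0, 1⟩, ⟨0, -1, 0⟩⟩, ⟨⟨1, 0, 0⟩, ⟨0, 1, 0⟩, ⟨0, 0, 1⟩⟩⟩],
      [],
      [(0, 2)]⟩,
    .cert ⟨1, 8, 8, 8,
      [⟨⟨0, -1, -2⟩, ⟨-2, 1, 0⟩, ⟨-1, 1, -1⟩⟩],
      [⟨⟨⟨1, 0, 0⟩, ⟨0, 0, 1⟩, ⟨0, -1, 0⟩⟩, ⟨⟨1, 0, 0⟩, ⟨0, 1, 0⟩, ⟨0, 0, 1⟩⟩⟩],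
      [],
      [(0, 2), (0, 1)]⟩]⟩

def cubC1_30 : C1Cert :=
  ⟨⟨⟨1, 1, 0⟩, ⟨0, 2, 0⟩, ⟨0, 0, 0⟩⟩,
   [(⟨⟨0, 0, 0⟩, ⟨0, -1, 0⟩, ⟨0, 0, 0⟩⟩, ⟨⟨-2, 0, 0⟩, ⟨0, -2, 0⟩, ⟨0, 0, 0⟩⟩), (⟨⟨1, 0, 0⟩, ⟨0, 0, 0⟩, ⟨0, 0, 0⟩⟩, ⟨⟨1, 1, 0⟩, ⟨1, 1, 0⟩, ⟨0, 0, 0⟩⟩)],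
   ⟨⟨2, -1, 0⟩, ⟨0, 1, 0⟩, ⟨0, 0, 0⟩⟩, 2, ⟨0, 0, 1⟩, ⟨0, 0, 2⟩, 0, 1,
   [(⟨⟨0, 1, 0⟩, ⟨1, -1, 0⟩, ⟨0, 0, 0⟩⟩, 2, ⟨-2, 2, 2⟩), (⟨⟨0, 1, 0⟩, ⟨1, -1, 0⟩, ⟨0, 0, 0⟩⟩, 1, ⟨-1, 1, 1⟩)],
   [.cert ⟨1, 2, 2, 1,
      [],
      [],
      [(⟨⟨⟨1, 1, 1⟩, ⟨0, 2, 0⟩, ⟨0, 0, 2⟩⟩, 2, ⟨⟨0, 0, 0⟩, ⟨0, 0, 0⟩, ⟨0, 0, 0⟩⟩⟩, ⟨1, 0, 0⟩, 1)],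
      []⟩,
    .cert ⟨1, 2, 2, 1,
      [],
      [],
      [(⟨⟨⟨1, 0, 0⟩, ⟨0, 1, 0⟩, ⟨0, 0, 1⟩⟩, 2, ⟨⟨0, 0, 0⟩, ⟨0, 0, 0⟩, ⟨0, 0, 0⟩⟩⟩, ⟨-1, 1, 0⟩, 1)],
      [(0, 1), (1, 1)]⟩,
    .cert ⟨1, 4, 4, 1,
      [⟨⟨-2, 0, 0⟩, ⟨0, -2, 0⟩, ⟨0, 0, 0⟩⟩, ⟨⟨1, 1, 0⟩, ⟨1, 1, 0⟩, ⟨0, 0, 0⟩⟩],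
      [],
      [(⟨⟨⟨1, 0, 0⟩, ⟨0, 1, 0⟩, ⟨0, 0, 1⟩⟩, 2, ⟨⟨0, 0, 0⟩, ⟨0, 0, 0⟩, ⟨0, 0, 0⟩⟩⟩, ⟨1, -1, 1⟩, 1)],
      []⟩]⟩

def cubC1_31 : C1Cert :=
  ⟨⟨⟨1, 0, 0⟩, ⟨0, 1, 1⟩, ⟨0, 0, 0⟩⟩,
   [(⟨⟨1, 0, 0⟩, ⟨1, 0, 1⟩, ⟨0, 0, 0⟩⟩, ⟨⟨1, 0, 0⟩, ⟨1, 0, 0⟩, ⟨-1, 1, 1⟩⟩)],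
   ⟨⟨1, 0, 0⟩, ⟨0, 1, 0⟩, ⟨0, 0, 0⟩⟩, 1, ⟨0, -1, 1⟩, ⟨0, 0, 1⟩, 0, 1,
   [(⟨⟨1, 0, 0⟩, ⟨0, 1, 1⟩, ⟨0, 0, 0⟩⟩, 1, ⟨0, 0, 1⟩), (⟨⟨1, 1, 1⟩, ⟨1, -1, -1⟩, ⟨0, 0, 0⟩⟩, 2, ⟨1, -1, 1⟩), (⟨⟨0, 1, 1⟩, ⟨2, -1, -1⟩, ⟨0, 0, 0⟩⟩, 2, ⟨2, -2, 0⟩)],
   [.cert ⟨1, 1, 1, 1,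
      [],
      [],
      [],
      [(0, 1)]⟩,
    .cert ⟨1, 2, 2, 1,
      [⟨⟨1, 0, 0⟩, ⟨1, 0, 0⟩, ⟨-1, 1, 1⟩⟩],
      [],
      [(⟨⟨⟨1, 0, 0⟩, ⟨0, 1, 0⟩, ⟨0, 0, 1⟩⟩, 2, ⟨⟨0, 0, 0⟩, ⟨0, 0, 0⟩, ⟨0, 0, 0⟩⟩⟩, ⟨-1, 1, 0⟩, 1)],
      [(1, 1)]⟩,
    .cert ⟨1, 2, 2, 1,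
      [⟨⟨-2, 0, 0⟩, ⟨0, -1, -1⟩, ⟨0, -1, -1⟩⟩],
      [],
      [(⟨⟨⟨1, 0, 0⟩, ⟨0, 1, 0⟩, ⟨0, 0, 1⟩⟩, 2, ⟨⟨0, 0, 0⟩, ⟨0, 0, 0⟩, ⟨0, 0, 0⟩⟩⟩, ⟨1, -1, 1⟩, 1)],
      [(2, 1)]⟩]⟩

def cubC1_32 : C1Cert :=
  ⟨⟨⟨2, 0, 0⟩, ⟨0, 1, 1⟩, ⟨0, 0, 2⟩⟩,
   [(⟨⟨-1, 0, 0⟩, ⟨0, -1, 0⟩, ⟨0, 0, 0⟩⟩, ⟨⟨-2, 0, 0⟩, ⟨0, -1, -1⟩, ⟨0, -1, -1⟩⟩), (⟨⟨0, 0, 0⟩, ⟨0, 0, 0⟩, ⟨0, 0, 1⟩⟩, ⟨⟨0, 0, 0⟩, ⟨0, 2, 0⟩, ⟨0, 0, 2⟩⟩)],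
   ⟨⟨1, 0, 0⟩, ⟨0, 2, -1⟩, ⟨0, 0, 1⟩⟩, 2, ⟨0, 0, 0⟩, ⟨0, 0, 0⟩, 0, 1,
   [(⟨⟨1, 0, 0⟩, ⟨0, 1, 0⟩, ⟨0, 0, 1⟩⟩, 2, ⟨0, 0, 0⟩)],
   [.cert ⟨1, 2, 2, 2,
      [],
      [⟨⟨⟨0, 1, 0⟩, ⟨1, 0, 0⟩, ⟨0, 0, -1⟩⟩, ⟨⟨1, 0, 1⟩, ⟨1, 1, 0⟩, ⟨0, -1, 1⟩⟩⟩, ⟨⟨⟨0, 0, -1⟩, ⟨0, 1, 0⟩, ⟨-1, 0, 0⟩⟩, ⟨⟨1, -1, 1⟩, ⟨1, 1, 1⟩, ⟨-1, -1, 1⟩⟩⟩],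
      [],
      [(0, 1)]⟩,
    .cert ⟨1, 4, 4, 4,
      [⟨⟨-2, 0, 0⟩, ⟨0, -1, -1⟩, ⟨0, -1, -1⟩⟩, ⟨⟨2, 0, 0⟩, ⟨0, 0, 0⟩, ⟨0, 0, 2⟩⟩],
      [⟨⟨⟨0, 1, 0⟩, ⟨1, 0, 0⟩, ⟨0, 0, -1⟩⟩, ⟨⟨1, 0, 1⟩, ⟨1, 1, 0⟩, ⟨0, -1, 1⟩⟩⟩],
      [],
      []⟩,
    .cert ⟨1, 4, 4, 4,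
      [⟨⟨2, 0, 0⟩, ⟨0, 0, 0⟩, ⟨0, 0, 2⟩⟩, ⟨⟨-2, 0, 0⟩, ⟨0, -1, -1⟩, ⟨0, -1, -1⟩⟩],
      [⟨⟨⟨0, 0, -1⟩, ⟨0, 1, 0⟩, ⟨-1, 0, 0⟩⟩, ⟨⟨1, -1, 1⟩, ⟨1, 1, 1⟩, ⟨-1, -1, 1⟩⟩⟩],
      [],
      []⟩]⟩

def cubC1_33 : C1Cert :=
  ⟨⟨⟨1, 0, 0⟩, ⟨0, 1, 1⟩, ⟨0, 0, 2⟩⟩,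
   [(⟨⟨0, -1, 0⟩, ⟨-1, -1, 0⟩, ⟨0, 1, 1⟩⟩, ⟨⟨1, -1, -1⟩, ⟨-1, 0, 0⟩, ⟨1, 0, 2⟩⟩)],
   ⟨⟨2, 0, 0⟩, ⟨0, 2, -1⟩, ⟨0, 0, 1⟩⟩, 2, ⟨0, 0, 0⟩, ⟨0, 0, 0⟩, 0, 1,
   [(⟨⟨0, 1, 1⟩, ⟨1, 0, 1⟩, ⟨1, 1, 0⟩⟩, 2, ⟨0, 0, 0⟩)],
   [.cert ⟨1, 2, 2, 2,
      [],
      [⟨⟨⟨1, 0, 0⟩, ⟨0, 0, 1⟩, ⟨0, -1, 0⟩⟩, ⟨⟨1, 0, 0⟩, ⟨0, 1, 0⟩, ⟨0, 0, 1⟩⟩⟩],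
      [],
      [(0, 2)]⟩,
    .cert ⟨1, 2, 2, 2,
      [⟨⟨2, 0, 0⟩, ⟨0, -1, -1⟩, ⟨0, 1, -1⟩⟩, ⟨⟨1, 1, 1⟩, ⟨1, 1, 1⟩, ⟨1, 1, 1⟩⟩],
      [⟨⟨⟨1, 0, 0⟩, ⟨0, 0, 1⟩, ⟨0, -1, 0⟩⟩, ⟨⟨1, 0, 0⟩, ⟨0, 1, 0⟩, ⟨0, 0, 1⟩⟩⟩],
      [],
      []⟩,
    .cert ⟨1, 4, 4, 4,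
      [⟨⟨2, 0, 0⟩, ⟨0, -1, -1⟩, ⟨0, 1, -1⟩⟩],
      [⟨⟨⟨1, 0, 0⟩, ⟨0, 0, 1⟩, ⟨0, -1, 0⟩⟩, ⟨⟨1, 0, 0⟩, ⟨0, 1, 0⟩, ⟨0, 0, 1⟩⟩⟩],
      [],
      [(0, 1)]⟩]⟩

def cubC1_34 : C1Cert :=
  ⟨⟨⟨1, 0, 0⟩, ⟨0, 1, 1⟩, ⟨0, 0, 2⟩⟩,
   [(⟨⟨0, 0, 0⟩, ⟨0, 0, 0⟩, ⟨0, 0, 1⟩⟩, ⟨⟨0, 0, 0⟩, ⟨0, 2, 0⟩, ⟨0, 0, 2⟩⟩), (⟨⟨1, 0, 0⟩, ⟨1, 0, 1⟩, ⟨0, 0, 0⟩⟩, ⟨⟨1, 0, 0⟩, ⟨1, 0, 0⟩, ⟨-1, 1, 1⟩⟩)],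
   ⟨⟨2, 0, 0⟩, ⟨0, 2, -1⟩, ⟨0, 0, 1⟩⟩, 2, ⟨0, 0, 0⟩, ⟨0, 0, 0⟩, 0, 1,
   [(⟨⟨0, 1, 1⟩, ⟨1, 0, 1⟩, ⟨1, 1, 0⟩⟩, 2, ⟨0, 0, 0⟩)],
   [.cert ⟨1, 2, 2, 2,
      [],
      [⟨⟨⟨1, 0, 0⟩, ⟨0, 0, 1⟩, ⟨0, 1, 0⟩⟩, ⟨⟨1, 0, 0⟩, ⟨0, 1, 0⟩, ⟨0, 0, 1⟩⟩⟩],
      [],
      [(0, 2)]⟩,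
    .cert ⟨1, 2, 2, 2,
      [⟨⟨2, 0, 0⟩, ⟨0, 0, 0⟩, ⟨0, 0, 2⟩⟩, ⟨⟨1, 0, 0⟩, ⟨1, 0, 0⟩, ⟨-1, 1, 1⟩⟩],
      [⟨⟨⟨1, 0, 0⟩, ⟨0, 0, 1⟩, ⟨0, 1, 0⟩⟩, ⟨⟨1, 0, 0⟩, ⟨0, 1, 0⟩, ⟨0, 0, 1⟩⟩⟩],
      [],
      []⟩,
    .cert ⟨1, 4, 4, 4,
      [⟨⟨-2, 0, 0⟩, ⟨0, -1, -1⟩, ⟨0, -1, -1⟩⟩, ⟨⟨0, 0, 0⟩, ⟨0, 2, 0⟩, ⟨0, 0, 2⟩⟩],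
      [⟨⟨⟨1, 0, 0⟩, ⟨0, 0, 1⟩, ⟨0, 1, 0⟩⟩, ⟨⟨1, 0, 0⟩, ⟨0, 1, 0⟩, ⟨0, 0, 1⟩⟩⟩],
      [],
      [(0, 1)]⟩]⟩

def cubC1_35 : C1Cert :=
  ⟨⟨⟨2, 0, 0⟩, ⟨0, 1, 1⟩, ⟨0, 0, 2⟩⟩,
   [(⟨⟨1, 0, 0⟩, ⟨0, -1, 0⟩, ⟨0, -1, -1⟩⟩, ⟨⟨2, 0, 0⟩, ⟨0, -1, -1⟩, ⟨0, 1, -1⟩⟩)],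
   ⟨⟨1, 0, 0⟩, ⟨0, 2, -1⟩, ⟨0, 0, 1⟩⟩, 2, ⟨0, 0, 0⟩, ⟨0, 0, 0⟩, 0, 1,
   [(⟨⟨1, 0, 0⟩, ⟨0, 1, 0⟩, ⟨0, 0, 1⟩⟩, 2, ⟨0, 0, 0⟩)],
   [.cert ⟨1, 2, 2, 2,
      [],
      [⟨⟨⟨0, -1, 0⟩, ⟨1, 0, 0⟩, ⟨0, 0, -1⟩⟩, ⟨⟨1, 0, 1⟩, ⟨1, 1, 0⟩, ⟨0, -1, 1⟩⟩⟩, ⟨⟨⟨0, 0, -1⟩, ⟨0, -1, 0⟩, ⟨-1, 0, 0⟩⟩, ⟨⟨1, -1, 1⟩, ⟨1, 1, 1⟩, ⟨-1, -1, 1⟩⟩⟩],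
      [],
      [(0, 1)]⟩,
    .cert ⟨1, 4, 4, 4,
      [⟨⟨2, 0, 0⟩, ⟨0, -1, -1⟩, ⟨0, 1, -1⟩⟩],
      [⟨⟨⟨0, -1, 0⟩, ⟨1, 0, 0⟩, ⟨0, 0, -1⟩⟩, ⟨⟨1, 0, 1⟩, ⟨1, 1, 0⟩, ⟨0, -1, 1⟩⟩⟩],
      [],
      []⟩,
    .cert ⟨1, 4, 4, 4,
      [⟨⟨2, 0, 0⟩, ⟨0, -1, -1⟩, ⟨0, 1, -1⟩⟩, ⟨⟨0, 0, 0⟩, ⟨0, 1, 1⟩, ⟨0, 1, 1⟩⟩],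
      [⟨⟨⟨0, 0, -1⟩, ⟨0, -1, 0⟩, ⟨-1, 0, 0⟩⟩, ⟨⟨1, -1, 1⟩, ⟨1, 1, 1⟩, ⟨-1, -1, 1⟩⟩⟩],
      [],
      []⟩]⟩

def cubC1_36 : C1Cert :=
  ⟨⟨⟨1, 0, 2⟩, ⟨0, 1, 1⟩, ⟨0, 0, 4⟩⟩,
   [(⟨⟨0, 0, -1⟩, ⟨-1, -1, 0⟩, ⟨-1, -2, -1⟩⟩, ⟨⟨-1, -2, 0⟩, ⟨1, 1, -1⟩, ⟨-1, 0, -2⟩⟩)],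
   ⟨⟨4, 0, -2⟩, ⟨0, 4, -1⟩, ⟨0, 0, 1⟩⟩, 4, ⟨0, 0, 0⟩, ⟨0, 0, 0⟩, 0, 1,
   [(⟨⟨0, 1, 1⟩, ⟨1, 0, 1⟩, ⟨1, 1, 0⟩⟩, 4, ⟨0, 0, 0⟩), (⟨⟨-1, 1, 1⟩, ⟨1, -1, 1⟩, ⟨1, 1, -1⟩⟩, 4, ⟨0, 0, 0⟩)],
   [.cert ⟨1, 4, 4, 4,
      [],
      [⟨⟨⟨1, 0, 0⟩, ⟨0, 1, 0⟩, ⟨0, 0, -1⟩⟩, ⟨⟨2, 0, 0⟩, ⟨0, 1, 1⟩, ⟨0, -1, 1⟩⟩⟩],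
      [],
      [(1, 2)]⟩,
    .cert ⟨1, 4, 4, 4,
      [⟨⟨-2, 0, 0⟩, ⟨0, -1, -1⟩, ⟨0, -1, -1⟩⟩, ⟨⟨-1, -2, 0⟩, ⟨1, 1, -1⟩, ⟨-1, 0, -2⟩⟩],
      [⟨⟨⟨1, 0, 0⟩, ⟨0, 0, 1⟩, ⟨0, 1, 0⟩⟩, ⟨⟨1, 0, 0⟩, ⟨0, 1, 0⟩, ⟨0, 0, 1⟩⟩⟩],
      [],
      [(1, 1)]⟩,
    .cert ⟨1, 8, 8, 8,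
      [⟨⟨-1, -2, 0⟩, ⟨1, 1, -1⟩, ⟨-1, 0, -2⟩⟩],
      [⟨⟨⟨1, 0, 0⟩, ⟨0, 1, 0⟩, ⟨0, 0, -1⟩⟩, ⟨⟨2, 0, 0⟩, ⟨0, 1, 1⟩, ⟨0, -1, 1⟩⟩⟩],
      [],
      [(0, 1), (0, 3)]⟩]⟩

def cubC1_37 : C1Cert :=
  ⟨⟨⟨1, 0, 0⟩, ⟨0, 1, 1⟩, ⟨0, 0, 0⟩⟩,
   [(⟨⟨1, 0, 0⟩, ⟨1, 1, 0⟩, ⟨0, 0, 0⟩⟩, ⟨⟨1, 0, 0⟩, ⟨-1, 1, 1⟩, ⟨1, 0, 0⟩⟩)],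
   ⟨⟨1, 0, 0⟩, ⟨0, 1, 0⟩, ⟨0, 0, 0⟩⟩, 1, ⟨0, -1, 1⟩, ⟨0, 0, 1⟩, 0, 1,
   [(⟨⟨1, 0, 0⟩, ⟨0, 1, 1⟩, ⟨0, 0, 0⟩⟩, 1, ⟨0, 0, 1⟩), (⟨⟨1, 1, 1⟩, ⟨1, -1, -1⟩, ⟨0, 0, 0⟩⟩, 2, ⟨1, -1, 1⟩), (⟨⟨0, 1, 1⟩, ⟨2, -1, -1⟩, ⟨0, 0, 0⟩⟩, 2, ⟨2, -2, 0⟩)],
   [.cert ⟨1, 1, 1, 1,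
      [],
      [],
      [],
      [(0, 1)]⟩,
    .cert ⟨1, 2, 2, 1,
      [⟨⟨1, 0, 0⟩, ⟨-1, 1, 1⟩, ⟨1, 0, 0⟩⟩],
      [],
      [(⟨⟨⟨1, 0, 0⟩, ⟨0, 1, 0⟩, ⟨0, 0, 1⟩⟩, 2, ⟨⟨0, 0, 0⟩, ⟨0, 0, 0⟩, ⟨0, 0, 0⟩⟩⟩, ⟨-1, 1, 0⟩, 1)],
      [(1, 1)]⟩,
    .cert ⟨1, 2, 2, 1,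
      [⟨⟨-2, 0, 0⟩, ⟨0, -1, -1⟩, ⟨0, -1, -1⟩⟩],
      [],
      [(⟨⟨⟨1, 0, 0⟩, ⟨0, 1, 0⟩, ⟨0, 0, 1⟩⟩, 2, ⟨⟨0, 0, 0⟩, ⟨0, 0, 0⟩, ⟨0, 0, 0⟩⟩⟩, ⟨1, -1, 1⟩, 1)],
      [(2, 1)]⟩]⟩

def cubC1_38 : C1Cert :=
  ⟨⟨⟨1, 1, 0⟩, ⟨0, 2, 0⟩, ⟨0, 0, 1⟩⟩,
   [(⟨⟨0, -1, 1⟩, ⟨-1, -1, 2⟩, ⟨1, 0, 0⟩⟩, ⟨⟨0, 0, 1⟩, ⟨-2, 0, 1⟩, ⟨-1, 1, 1⟩⟩)],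
   ⟨⟨2, -1, 0⟩, ⟨0, 1, 0⟩, ⟨0, 0, 2⟩⟩, 2, ⟨0, 0, 0⟩, ⟨0, 0, 0⟩, 0, 1,
   [(⟨⟨0, 1, 1⟩, ⟨1, 0, 1⟩, ⟨1, 1, 0⟩⟩, 2, ⟨0, 0, 0⟩)],
   [.cert ⟨1, 2, 2, 2,
      [],
      [⟨⟨⟨1, 0, 0⟩, ⟨0, 1, 0⟩, ⟨0, 0, -1⟩⟩, ⟨⟨1, 0, 0⟩, ⟨0, 1, 0⟩, ⟨0, 0, 1⟩⟩⟩],
      [],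
      [(0, 2)]⟩,
    .cert ⟨1, 2, 2, 2,
      [⟨⟨0, 0, 1⟩, ⟨-2, 0, 1⟩, ⟨-1, 1, 1⟩⟩],
      [⟨⟨⟨1, 0, 0⟩, ⟨0, 1, 0⟩, ⟨0, 0, -1⟩⟩, ⟨⟨1, 0, 0⟩, ⟨0, 1, 0⟩, ⟨0, 0, 1⟩⟩⟩],
      [],
      [(0, 2)]⟩,
    .cert ⟨1, 4, 4, 4,
      [⟨⟨0, 0, 1⟩, ⟨-2, 0, 1⟩, ⟨-1, 1, 1⟩⟩],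
      [⟨⟨⟨1, 0, 0⟩, ⟨0, 1, 0⟩, ⟨0, 0, -1⟩⟩, ⟨⟨1, 0, 0⟩, ⟨0, 1, 0⟩, ⟨0, 0, 1⟩⟩⟩],
      [],
      [(0, 1)]⟩]⟩

/-- The rigid rows with their certificates. -/
def cubC1 : List (ℕ × C1Cert) :=
  [(0, cubC1_0), (1, cubC1_1), (2, cubC1_2), (3, cubC1_3), (7, cubC1_7), (8, cubC1_8), (9, cubC1_9), (10, cubC1_10), (11, cubC1_11), (12, cubC1_12), (13, cubC1_13), (14, cubC1_14), (15, cubC1_15), (16, cubC1_16), (17, cubC1_17), (18, cubC1_18), (19, cubC1_19), (20, cubC1_20), (21, cubC1_21), (22, cubC1_22), (23,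 cubC1_23), (24, cubC1_24), (25, cubC1_25), (26, cubC1_26), (27, cubC1_27), (28, cubC1_28), (29, cubC1_29), (30, cubC1_30), (31, cubC1_31), (32, cubC1_32), (33, cubC1_33), (34, cubC1_34), (35, cubC1_35), (36, cubC1_36), (37, cubC1_37), (38, cubC1_38)]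

end Pool.Agent.H21.FT
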