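import Pool.Agent.H21.FT.C1Defs

/-!
# Certificates for the rigid rows (hex)
-/

namespace Pool.Agent.H21.FT

def hexC1_14 : C1Cert :=
  ⟨⟨⟨1, 0, 0⟩, ⟨0, 1, 0⟩, ⟨0, 0, 0⟩⟩,
   [(⟨⟨0, -1, 0⟩, ⟨0, 1, 0⟩, ⟨0, 0, 0⟩⟩, ⟨⟨-2, 0, 0⟩, ⟨-1, 0, 0⟩, ⟨0, 0, -2⟩⟩), (⟨⟨0, 0, 0⟩, ⟨0, 1, 0⟩, ⟨0, 0, 0⟩⟩, ⟨⟨2, -1, 0⟩, ⟨1, 1, 0⟩, ⟨0, 0, 0⟩⟩)],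
   ⟨⟨1, 0, 0⟩, ⟨0, 1, 0⟩, ⟨0, 0, 0⟩⟩, 1, ⟨0, 0, 0⟩, ⟨0, 0, 0⟩, 1, 2,
   [(⟨⟨1, 0, 0⟩, ⟨0, 1, 0⟩, ⟨0, 0, 0⟩⟩, 2, ⟨0, 0, 0⟩)],
   [.cert ⟨1, 1, 1, 1,
      [],
      [],
      [],
      [(0, 1)]⟩,
    .cert ⟨3, 3, 3, 1,
      [⟨⟨-2, 0, 0⟩, ⟨-1, 0, 0⟩, ⟨0, 0, -2⟩⟩, ⟨⟨2, -1, 0⟩, ⟨1, 1, 0⟩, ⟨0, 0, 0⟩⟩],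
      [],
      [],
      [(0, 3)]⟩,
    .cert ⟨3, 3, 3, 1,
      [⟨⟨-2, 0, 0⟩, ⟨-1, 0, 0⟩, ⟨0, 0, -2⟩⟩, ⟨⟨2, -1, 0⟩, ⟨1, 1, 0⟩, ⟨0, 0, 0⟩⟩],
      [],
      [],
      [(0, 3)]⟩,
    .cert ⟨1, 3, 3, 1,
      [],
      [],
      [],
      [(0, 1)]⟩,
    .absInv ⟨⟨1, 0, 0⟩, ⟨1, -1, 0⟩, ⟨0, 0, 1⟩⟩ ⟨-1, 0, 1⟩ 1,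
    .absInv ⟨⟨1, 0, 0⟩, ⟨1, -1, 0⟩, ⟨0, 0, 1⟩⟩ ⟨1, 0, 1⟩ 1,
    .absZ ⟨⟨-2, 0, 0⟩, ⟨-1, 0, 0⟩, ⟨0, 0, -2⟩⟩,
    .absZ ⟨⟨-2, 0, 0⟩, ⟨-1, 0, 0⟩, ⟨0, 0, -2⟩⟩]⟩

def hexC1_15 : C1Cert :=
  ⟨⟨⟨1, 0, 0⟩, ⟨0, 1, 0⟩, ⟨0, 0, 0⟩⟩,
   [(⟨⟨0, -1, 0⟩, ⟨0, 1, 0⟩, ⟨0, 0, 0⟩⟩, ⟨⟨-2, 0, 0⟩, ⟨-1, 0, 0⟩, ⟨0, 0, 0⟩⟩), (⟨⟨0, 0, 0⟩, ⟨0, 1, 0⟩, ⟨0, 0, 0⟩⟩, ⟨⟨2, -1, 0⟩, ⟨1, 1, 0⟩, ⟨0, 0, 0⟩⟩)],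
   ⟨⟨1, 0, 0⟩, ⟨0, 1, 0⟩, ⟨0, 0, 0⟩⟩, 1, ⟨0, 0, 0⟩, ⟨0, 0, 0⟩, 1, 1,
   [(⟨⟨1, 0, 0⟩, ⟨0, 1, 0⟩, ⟨0, 0, 0⟩⟩, 1, ⟨0, 0, 0⟩)],
   [.absFlat ⟨0, 0, 1⟩ 1,
    .absFlat ⟨1, 2, 3⟩ 3,
    .absFlat ⟨2, 1, 3⟩ 3,
    .absFlat ⟨0, 0, 1⟩ 1,
    .absFlat ⟨-1, 0, 1⟩ 1,
    .absFlat ⟨1, 0, 1⟩ 1,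
    .cert ⟨1, 1, 1, 1,
      [],
      [],
      [],
      [(0, 1)]⟩,
    .cert ⟨1, 3, 3, 1,
      [],
      [],
      [],
      [(0, 1)]⟩]⟩

def hexC1_20 : C1Cert :=
  ⟨⟨⟨1, 0, 0⟩, ⟨0, 2, 0⟩, ⟨0, 0, 0⟩⟩,
   [(⟨⟨0, -1, 0⟩, ⟨0, 0, 0⟩, ⟨0, 0, 0⟩⟩, ⟨⟨-2, 0, 0⟩, ⟨-1, 0, 0⟩, ⟨0, 0, -2⟩⟩), (⟨⟨0, 0, 0⟩, ⟨-1, 0, 0⟩, ⟨0, 0, 0⟩⟩, ⟨⟨0, -2, 0⟩, ⟨-2, 0, 0⟩, ⟨0, 0, 0⟩⟩)],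
   ⟨⟨2, 0, 0⟩, ⟨0, 1, 0⟩, ⟨0, 0, 0⟩⟩, 2, ⟨0, 0, 0⟩, ⟨0, 0, 0⟩, 1, 2,
   [(⟨⟨1, 0, 0⟩, ⟨0, 1, 0⟩, ⟨0, 0, 0⟩⟩, 2, ⟨0, 0, 0⟩)],
   [.cert ⟨1, 2, 2, 1,
      [],
      [⟨⟨⟨1, -1, 0⟩, ⟨0, -1, 0⟩, ⟨0, 0, -1⟩⟩, ⟨⟨1, 1, 0⟩, ⟨-1, 2, 0⟩, ⟨0, 0, 0⟩⟩⟩],
      [],
      [(0, 1)]⟩,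
    .absInv ⟨⟨0, -1, 0⟩, ⟨-1, 0, 0⟩, ⟨0, 0, -1⟩⟩ ⟨1, 2, 3⟩ 3,
    .absInv ⟨⟨0, -1, 0⟩, ⟨-1, 0, 0⟩, ⟨0, 0, -1⟩⟩ ⟨2, 1, 3⟩ 3,
    .cert ⟨1, 6, 6, 1,
      [⟨⟨0, -2, 0⟩, ⟨-2, 0, 0⟩, ⟨0, 0, 0⟩⟩],
      [⟨⟨⟨1, -1, 0⟩, ⟨0, -1, 0⟩, ⟨0, 0, -1⟩⟩, ⟨⟨1, 1, 0⟩, ⟨-1, 2, 0⟩, ⟨0, 0, 0⟩⟩⟩],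
      [],
      [(0, 1)]⟩,
    .absInv ⟨⟨0, 1, 0⟩, ⟨1, 0, 0⟩, ⟨0, 0, -1⟩⟩ ⟨-1, 0, 1⟩ 1,
    .absInv ⟨⟨0, 1, 0⟩, ⟨1, 0, 0⟩, ⟨0, 0, -1⟩⟩ ⟨1, 0, 1⟩ 1,
    .absZ ⟨⟨-2, 0, 0⟩, ⟨-1, 0, 0⟩, ⟨0, 0, -2⟩⟩,
    .absZ ⟨⟨-2, 0, 0⟩, ⟨-1, 0, 0⟩, ⟨0, 0, -2⟩⟩]⟩

def hexC1_21 : C1Cert :=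
  ⟨⟨⟨1, 0, 0⟩, ⟨0, 2, 0⟩, ⟨0, 0, 0⟩⟩,
   [(⟨⟨1, 0, 0⟩, ⟨2, 1, 0⟩, ⟨0, 0, 0⟩⟩, ⟨⟨1, 0, 0⟩, ⟨-2, 2, 0⟩, ⟨0, 0, 3⟩⟩)],
   ⟨⟨2, 0, 0⟩, ⟨0, 1, 0⟩, ⟨0, 0, 0⟩⟩, 2, ⟨0, 0, 0⟩, ⟨0, 0, 0⟩, 1, 3,
   [(⟨⟨1, 0, 0⟩, ⟨0, 1, 0⟩, ⟨0, 0, 0⟩⟩, 3, ⟨0, 0, 0⟩)],
   [.cert ⟨1, 2, 2, 1,
      [],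
      [],
      [],
      [(0, 2)]⟩,
    .absInv ⟨⟨0, -1, 0⟩, ⟨-1, 0, 0⟩, ⟨0, 0, -1⟩⟩ ⟨1, 2, 3⟩ 3,
    .absInv ⟨⟨0, -1, 0⟩, ⟨-1, 0, 0⟩, ⟨0, 0, -1⟩⟩ ⟨2, 1, 3⟩ 3,
    .cert ⟨1, 6, 6, 1,
      [⟨⟨0, -2, 0⟩, ⟨-2, 0, 0⟩, ⟨0, 0, 0⟩⟩],
      [],
      [],
      [(0, 2)]⟩,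
    .absInv ⟨⟨0, 1, 0⟩, ⟨1, 0, 0⟩, ⟨0, 0, -1⟩⟩ ⟨-1, 0, 1⟩ 1,
    .absInv ⟨⟨0, 1, 0⟩, ⟨1, 0, 0⟩, ⟨0, 0, -1⟩⟩ ⟨1, 0, 1⟩ 1,
    .absZ ⟨⟨1, 0, 0⟩, ⟨-2, 2, 0⟩, ⟨0, 0, 3⟩⟩,
    .absZ ⟨⟨1, 0, 0⟩, ⟨-2, 2, 0⟩, ⟨0, 0, 3⟩⟩]⟩

def hexC1_22 : C1Cert :=
  ⟨⟨⟨1, 0, 0⟩, ⟨0, 2, 0⟩, ⟨0, 0, 0⟩⟩,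
   [(⟨⟨1, 0, 0⟩, ⟨2, 1, 0⟩, ⟨0, 0, 0⟩⟩, ⟨⟨1, 0, 0⟩, ⟨-2, 2, 0⟩, ⟨0, 0, 1⟩⟩)],
   ⟨⟨2, 0, 0⟩, ⟨0, 1, 0⟩, ⟨0, 0, 0⟩⟩, 2, ⟨0, 0, 0⟩, ⟨0, 0, 0⟩, 1, 1,
   [(⟨⟨1, 0, 0⟩, ⟨0, 1, 0⟩, ⟨0, 0, 0⟩⟩, 2, ⟨0, 0, 0⟩)],
   [.cert ⟨1, 2, 2, 1,
      [],
      [⟨⟨⟨1, 0, 0⟩, ⟨1, -1, 0⟩, ⟨0, 0, 1⟩⟩, ⟨⟨1, 0, 0⟩, ⟨0, 1, 0⟩, ⟨0, 0, 1⟩⟩⟩],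
      [],
      [(0, 1)]⟩,
    .cert ⟨3, 6, 6, 1,
      [⟨⟨0, -2, 0⟩, ⟨-2, 0, 0⟩, ⟨0, 0, 2⟩⟩],
      [⟨⟨⟨1, 0, 0⟩, ⟨1, -1, 0⟩, ⟨0, 0, 1⟩⟩, ⟨⟨1, 0, 0⟩, ⟨0, 1, 0⟩, ⟨0, 0, 1⟩⟩⟩],
      [],
      [(0, 3)]⟩,
    .cert ⟨3, 6, 6, 1,
      [⟨⟨0, -2, 0⟩, ⟨-2, 0, 0⟩, ⟨0, 0, 2⟩⟩],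
      [⟨⟨⟨1, 0, 0⟩, ⟨1, -1, 0⟩, ⟨0, 0, 1⟩⟩, ⟨⟨1, 0, 0⟩, ⟨0, 1, 0⟩, ⟨0, 0, 1⟩⟩⟩],
      [],
      [(0, 3)]⟩,
    .cert ⟨1, 6, 6, 1,
      [⟨⟨0, -2, 0⟩, ⟨-2, 0, 0⟩, ⟨0, 0, 2⟩⟩],
      [⟨⟨⟨1, 0, 0⟩, ⟨1, -1, 0⟩, ⟨0, 0, 1⟩⟩, ⟨⟨1, 0, 0⟩, ⟨0, 1, 0⟩, ⟨0, 0, 1⟩⟩⟩],
      [],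
      [(0, 1)]⟩,
    .absInv ⟨⟨0, 1, 0⟩, ⟨1, 0, 0⟩, ⟨0, 0, -1⟩⟩ ⟨-1, 0, 1⟩ 1,
    .absInv ⟨⟨0, 1, 0⟩, ⟨1, 0, 0⟩, ⟨0, 0, -1⟩⟩ ⟨1, 0, 1⟩ 1,
    .absZ ⟨⟨-2, 0, 0⟩, ⟨-1, 0, 0⟩, ⟨0, 0, -2⟩⟩,
    .absZ ⟨⟨-2, 0, 0⟩, ⟨-1, 0, 0⟩, ⟨0, 0, -2⟩⟩]⟩

def hexC1_23 : C1Cert :=
  ⟨⟨⟨1, 0, 0⟩, ⟨0, 2, 0⟩, ⟨0, 0, 0⟩⟩,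
   [(⟨⟨0, -1, 0⟩, ⟨0, 0, 0⟩, ⟨0, 0, 0⟩⟩, ⟨⟨-2, 0, 0⟩, ⟨-1, 0, 0⟩, ⟨0, 0, 0⟩⟩), (⟨⟨0, 0, 0⟩, ⟨-1, 0, 0⟩, ⟨0, 0, 0⟩⟩, ⟨⟨0, -2, 0⟩, ⟨-2, 0, 0⟩, ⟨0, 0, 2⟩⟩)],
   ⟨⟨2, 0, 0⟩, ⟨0, 1, 0⟩, ⟨0, 0, 0⟩⟩, 2, ⟨0, 0, 0⟩, ⟨0, 0, 0⟩, 1, 2,
   [(⟨⟨1, 0, 0⟩, ⟨0, 1, 0⟩, ⟨0, 0, 0⟩⟩, 2, ⟨0, 0, 0⟩)],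
   [.cert ⟨1, 2, 2, 1,
      [],
      [⟨⟨⟨1, -1, 0⟩, ⟨0, -1, 0⟩, ⟨0, 0, -1⟩⟩, ⟨⟨1, 1, 0⟩, ⟨-1, 2, 0⟩, ⟨0, 0, 2⟩⟩⟩],
      [],
      [(0, 1)]⟩,
    .absInv ⟨⟨1, 0, 0⟩, ⟨1, -1, 0⟩, ⟨0, 0, -1⟩⟩ ⟨1, 2, 3⟩ 3,
    .absInv ⟨⟨1, 0, 0⟩, ⟨1, -1, 0⟩, ⟨0, 0, -1⟩⟩ ⟨2, 1, 3⟩ 3,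
    .cert ⟨1, 6, 6, 1,
      [⟨⟨0, -2, 0⟩, ⟨-2, 0, 0⟩, ⟨0, 0, 2⟩⟩],
      [⟨⟨⟨1, -1, 0⟩, ⟨0, -1, 0⟩, ⟨0, 0, -1⟩⟩, ⟨⟨1, 1, 0⟩, ⟨-1, 2, 0⟩, ⟨0, 0, 2⟩⟩⟩],
      [],
      [(0, 1)]⟩,
    .absInv ⟨⟨0, 1, 0⟩, ⟨1, 0, 0⟩, ⟨0, 0, -1⟩⟩ ⟨-1, 0, 1⟩ 1,
    .absInv ⟨⟨0, 1, 0⟩, ⟨1, 0, 0⟩, ⟨0, 0, -1⟩⟩ ⟨1, 0, 1⟩ 1,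
    .absZ ⟨⟨0, -2, 0⟩, ⟨-2, 0, 0⟩, ⟨0, 0, 2⟩⟩,
    .absZ ⟨⟨0, -2, 0⟩, ⟨-2, 0, 0⟩, ⟨0, 0, 2⟩⟩]⟩

def hexC1_24 : C1Cert :=
  ⟨⟨⟨1, 0, 0⟩, ⟨0, 2, 0⟩, ⟨0, 0, 0⟩⟩,
   [(⟨⟨1, 0, 0⟩, ⟨2, 1, 0⟩, ⟨0, 0, 0⟩⟩, ⟨⟨1, 0, 0⟩, ⟨-2, 2, 0⟩, ⟨0, 0, 1⟩⟩)],
   ⟨⟨2, 0, 0⟩, ⟨0, 1, 0⟩, ⟨0, 0, 0⟩⟩, 2, ⟨0, 0, 0⟩, ⟨0, 0, 0⟩, 1, 1,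
   [(⟨⟨1, 0, 0⟩, ⟨0, 1, 0⟩, ⟨0, 0, 0⟩⟩, 2, ⟨0, 0, 0⟩)],
   [.cert ⟨1, 2, 2, 1,
      [],
      [⟨⟨⟨1, 0, 0⟩, ⟨1, -1, 0⟩, ⟨0, 0, 1⟩⟩, ⟨⟨1, 0, 0⟩, ⟨0, 1, 0⟩, ⟨0, 0, 1⟩⟩⟩],
      [],
      [(0, 1)]⟩,
    .absInv ⟨⟨0, 1, 0⟩, ⟨1, 0, 0⟩, ⟨0, 0, 1⟩⟩ ⟨1, 2, 3⟩ 3,
    .absInv ⟨⟨0, 1, 0⟩, ⟨1, 0, 0⟩, ⟨0, 0, 1⟩⟩ ⟨2, 1, 3⟩ 3,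
    .cert ⟨1, 6, 6, 1,
      [⟨⟨0, -2, 0⟩, ⟨-2, 0, 0⟩, ⟨0, 0, 0⟩⟩],
      [⟨⟨⟨1, 0, 0⟩, ⟨1, -1, 0⟩, ⟨0, 0, 1⟩⟩, ⟨⟨1, 0, 0⟩, ⟨0, 1, 0⟩, ⟨0, 0, 1⟩⟩⟩],
      [],
      [(0, 1)]⟩,
    .absInv ⟨⟨0, -1, 0⟩, ⟨-1, 0, 0⟩, ⟨0, 0, 1⟩⟩ ⟨-1, 0, 1⟩ 1,
    .absInv ⟨⟨0, -1, 0⟩, ⟨-1, 0, 0⟩, ⟨0, 0, 1⟩⟩ ⟨1, 0, 1⟩ 1,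
    .absZ ⟨⟨-2, 0, 0⟩, ⟨-1, 0, 0⟩, ⟨0, 0, -2⟩⟩,
    .absZ ⟨⟨-2, 0, 0⟩, ⟨-1, 0, 0⟩, ⟨0, 0, -2⟩⟩]⟩

def hexC1_25 : C1Cert :=
  ⟨⟨⟨1, 0, 0⟩, ⟨0, 2, 0⟩, ⟨0, 0, 0⟩⟩,
   [(⟨⟨0, -1, 0⟩, ⟨0, 0, 0⟩, ⟨0, 0, 0⟩⟩, ⟨⟨-2, 0, 0⟩, ⟨-1, 0, 0⟩, ⟨0, 0, 0⟩⟩), (⟨⟨0, 0, 0⟩, ⟨-1, 0, 0⟩, ⟨0, 0, 0⟩⟩, ⟨⟨0, -2, 0⟩, ⟨-2, 0, 0⟩, ⟨0, 0, 0⟩⟩)],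
   ⟨⟨2, 0, 0⟩, ⟨0, 1, 0⟩, ⟨0, 0, 0⟩⟩, 2, ⟨0, 0, 0⟩, ⟨0, 0, 0⟩, 1, 1,
   [(⟨⟨1, 0, 0⟩, ⟨0, 1, 0⟩, ⟨0, 0, 0⟩⟩, 2, ⟨0, 0, 0⟩)],
   [.absFlat ⟨0, 0, 1⟩ 1,
    .absFlat ⟨1, 2, 3⟩ 3,
    .absFlat ⟨2, 1, 3⟩ 3,
    .absFlat ⟨0, 0, 1⟩ 1,
    .absFlat ⟨-1, 0, 1⟩ 1,
    .absFlat ⟨1, 0, 1⟩ 1,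
    .cert ⟨1, 2, 2, 1,
      [],
      [⟨⟨⟨1, -1, 0⟩, ⟨0, -1, 0⟩, ⟨0, 0, 1⟩⟩, ⟨⟨1, 1, 0⟩, ⟨-1, 2, 0⟩, ⟨0, 0, 0⟩⟩⟩],
      [],
      [(0, 1)]⟩,
    .cert ⟨1, 6, 6, 1,
      [⟨⟨0, -2, 0⟩, ⟨-2, 0, 0⟩, ⟨0, 0, 0⟩⟩],
      [⟨⟨⟨1, -1, 0⟩, ⟨0, -1, 0⟩, ⟨0, 0, 1⟩⟩, ⟨⟨1, 1, 0⟩, ⟨-1, 2, 0⟩, ⟨0, 0, 0⟩⟩⟩],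
      [],
      [(0, 1)]⟩]⟩

def hexC1_29 : C1Cert :=
  ⟨⟨⟨1, 0, 0⟩, ⟨0, 1, 0⟩, ⟨0, 0, 0⟩⟩,
   [(⟨⟨0, -1, 0⟩, ⟨0, -1, 0⟩, ⟨0, 0, 0⟩⟩, ⟨⟨-2, 0, 0⟩, ⟨-1, 0, 0⟩, ⟨0, 0, -2⟩⟩), (⟨⟨0, 0, 0⟩, ⟨-1, 0, 0⟩, ⟨0, 0, 0⟩⟩, ⟨⟨1, -1, 0⟩, ⟨-1, 1, 0⟩, ⟨0, 0, 2⟩⟩)],
   ⟨⟨1, 0, 0⟩, ⟨0, 1, 0⟩, ⟨0, 0, 0⟩⟩, 1, ⟨0, 0, 0⟩, ⟨0, 0, 0⟩, 1, 2,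
   [(⟨⟨1, 0, 0⟩, ⟨0, 1, 0⟩, ⟨0, 0, 0⟩⟩, 2, ⟨0, 0, 0⟩)],
   [.cert ⟨1, 1, 1, 1,
      [],
      [],
      [],
      [(0, 1)]⟩,
    .cert ⟨3, 3, 3, 1,
      [⟨⟨-2, 0, 0⟩, ⟨-1, 0, 0⟩, ⟨0, 0, -2⟩⟩, ⟨⟨1, -1, 0⟩, ⟨-1, 1, 0⟩, ⟨0, 0, 2⟩⟩],
      [],
      [],
      [(0, 3)]⟩,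
    .cert ⟨3, 3, 3, 1,
      [⟨⟨-2, 0, 0⟩, ⟨-1, 0, 0⟩, ⟨0, 0, -2⟩⟩, ⟨⟨1, -1, 0⟩, ⟨-1, 1, 0⟩, ⟨0, 0, 2⟩⟩],
      [],
      [],
      [(0, 3)]⟩,
    .cert ⟨1, 3, 3, 1,
      [],
      [],
      [],
      [(0, 1)]⟩,
    .absInv ⟨⟨1, -1, 0⟩, ⟨0, -1, 0⟩, ⟨0, 0, -1⟩⟩ ⟨-1, 0, 1⟩ 1,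
    .absInv ⟨⟨1, -1, 0⟩, ⟨0, -1, 0⟩, ⟨0, 0, -1⟩⟩ ⟨1, 0, 1⟩ 1,
    .absZ ⟨⟨-2, 0, 0⟩, ⟨-1, 0, 0⟩, ⟨0, 0, -2⟩⟩,
    .absZ ⟨⟨-2, 0, 0⟩, ⟨-1, 0, 0⟩, ⟨0, 0, -2⟩⟩]⟩

def hexC1_30 : C1Cert :=
  ⟨⟨⟨1, 0, 0⟩, ⟨0, 1, 0⟩, ⟨0, 0, 0⟩⟩,
   [(⟨⟨0, -1, 0⟩, ⟨0, -1, 0⟩, ⟨0, 0, 0⟩⟩, ⟨⟨-2, 0, 0⟩, ⟨-1, 0, 0⟩, ⟨0, 0, 0⟩⟩), (⟨⟨0, 0, 0⟩, ⟨-1, 0, 0⟩, ⟨0, 0, 0⟩⟩, ⟨⟨1, -1, 0⟩, ⟨-1, 1, 0⟩, ⟨0, 0, 2⟩⟩)],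
   ⟨⟨1, 0, 0⟩, ⟨0, 1, 0⟩, ⟨0, 0, 0⟩⟩, 1, ⟨0, 0, 0⟩, ⟨0, 0, 0⟩, 1, 2,
   [(⟨⟨1, 0, 0⟩, ⟨0, 1, 0⟩, ⟨0, 0, 0⟩⟩, 2, ⟨0, 0, 0⟩)],
   [.cert ⟨1, 1, 1, 1,
      [],
      [],
      [],
      [(0, 1)]⟩,
    .absInv ⟨⟨1, 0, 0⟩, ⟨1, -1, 0⟩, ⟨0, 0, -1⟩⟩ ⟨1, 2, 3⟩ 3,
    .absInv ⟨⟨1, 0, 0⟩, ⟨1, -1, 0⟩, ⟨0, 0, -1⟩⟩ ⟨2, 1, 3⟩ 3,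
    .cert ⟨1, 3, 3, 1,
      [],
      [],
      [],
      [(0, 1)]⟩,
    .absInv ⟨⟨1, -1, 0⟩, ⟨0, -1, 0⟩, ⟨0, 0, -1⟩⟩ ⟨-1, 0, 1⟩ 1,
    .absInv ⟨⟨1, -1, 0⟩, ⟨0, -1, 0⟩, ⟨0, 0, -1⟩⟩ ⟨1, 0, 1⟩ 1,
    .absZ ⟨⟨1, -1, 0⟩, ⟨-1, 1, 0⟩, ⟨0, 0, 2⟩⟩,
    .absZ ⟨⟨1, -1, 0⟩, ⟨-1, 1, 0⟩, ⟨0, 0, 2⟩⟩]⟩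

def hexC1_31 : C1Cert :=
  ⟨⟨⟨1, 0, 0⟩, ⟨0, 1, 0⟩, ⟨0, 0, 0⟩⟩,
   [(⟨⟨1, 0, 0⟩, ⟨0, 1, 0⟩, ⟨0, 0, 0⟩⟩, ⟨⟨1, 0, 0⟩, ⟨0, 1, 0⟩, ⟨0, 0, 1⟩⟩)],
   ⟨⟨1, 0, 0⟩, ⟨0, 1, 0⟩, ⟨0, 0, 0⟩⟩, 1, ⟨0, 0, 0⟩, ⟨0, 0, 0⟩, 1, 1,
   [(⟨⟨1, 0, 0⟩, ⟨0, 1, 0⟩, ⟨0, 0, 0⟩⟩, 1, ⟨0, 0, 0⟩)],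
   [.cert ⟨1, 1, 1, 1,
      [],
      [],
      [],
      [(0, 1)]⟩,
    .cert ⟨3, 3, 3, 1,
      [⟨⟨1, 0, 0⟩, ⟨0, 1, 0⟩, ⟨0, 0, 1⟩⟩],
      [],
      [],
      [(0, 3)]⟩,
    .cert ⟨3, 3, 3, 1,
      [⟨⟨1, 0, 0⟩, ⟨0, 1, 0⟩, ⟨0, 0, 1⟩⟩],
      [],
      [],
      [(0, 3)]⟩,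
    .cert ⟨1, 3, 3, 1,
      [⟨⟨1, 0, 0⟩, ⟨0, 1, 0⟩, ⟨0, 0, 1⟩⟩],
      [],
      [],
      [(0, 1)]⟩,
    .absInv ⟨⟨1, -1, 0⟩, ⟨0, -1, 0⟩, ⟨0, 0, -1⟩⟩ ⟨-1, 0, 1⟩ 1,
    .absInv ⟨⟨1, -1, 0⟩, ⟨0, -1, 0⟩, ⟨0, 0, -1⟩⟩ ⟨1, 0, 1⟩ 1,
    .absZ ⟨⟨1, 0, 0⟩, ⟨0, 1, 0⟩, ⟨0, 0, 1⟩⟩,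
    .absZ ⟨⟨1, 0, 0⟩, ⟨0, 1, 0⟩, ⟨0, 0, 1⟩⟩]⟩

def hexC1_32 : C1Cert :=
  ⟨⟨⟨1, 0, 0⟩, ⟨0, 1, 0⟩, ⟨0, 0, 0⟩⟩,
   [(⟨⟨1, 0, 0⟩, ⟨1, 0, 0⟩, ⟨0, 0, 0⟩⟩, ⟨⟨0, 1, 0⟩, ⟨0, 2, 0⟩, ⟨0, 0, 2⟩⟩), (⟨⟨1, 0, 0⟩, ⟨0, 0, 0⟩, ⟨0, 0, 0⟩⟩, ⟨⟨1, -1, 0⟩, ⟨-1, 1, 0⟩, ⟨0, 0, 2⟩⟩)],
   ⟨⟨1, 0, 0⟩, ⟨0, 1, 0⟩, ⟨0, 0, 0⟩⟩, 1, ⟨0, 0, 0⟩, ⟨0, 0, 0⟩, 1, 2,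
   [(⟨⟨1, 0, 0⟩, ⟨0, 1, 0⟩, ⟨0, 0, 0⟩⟩, 2, ⟨0, 0, 0⟩)],
   [.cert ⟨1, 1, 1, 1,
      [],
      [],
      [],
      [(0, 1)]⟩,
    .absInv ⟨⟨1, 0, 0⟩, ⟨0, 1, 0⟩, ⟨0, 0, -1⟩⟩ ⟨1, 2, 3⟩ 3,
    .absInv ⟨⟨1, 0, 0⟩, ⟨0, 1, 0⟩, ⟨0, 0, -1⟩⟩ ⟨2, 1, 3⟩ 3,
    .cert ⟨1, 3, 3, 1,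
      [⟨⟨-2, 0, 0⟩, ⟨0, -2, 0⟩, ⟨0, 0, 0⟩⟩],
      [],
      [],
      [(0, 1)]⟩,
    .absInv ⟨⟨1, -1, 0⟩, ⟨0, -1, 0⟩, ⟨0, 0, -1⟩⟩ ⟨-1, 0, 1⟩ 1,
    .absInv ⟨⟨1, -1, 0⟩, ⟨0, -1, 0⟩, ⟨0, 0, -1⟩⟩ ⟨1, 0, 1⟩ 1,
    .absZ ⟨⟨0, 1, 0⟩, ⟨0, 2, 0⟩, ⟨0, 0, 2⟩⟩,
    .absZ ⟨⟨0, 1, 0⟩, ⟨0, 2, 0⟩, ⟨0, 0, 2⟩⟩]⟩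

def hexC1_33 : C1Cert :=
  ⟨⟨⟨1, 0, 0⟩, ⟨0, 1, 0⟩, ⟨0, 0, 0⟩⟩,
   [(⟨⟨0, -1, 0⟩, ⟨0, -1, 0⟩, ⟨0, 0, 0⟩⟩, ⟨⟨-2, 0, 0⟩, ⟨-1, 0, 0⟩, ⟨0, 0, -2⟩⟩), (⟨⟨0, 0, 0⟩, ⟨-1, 0, 0⟩, ⟨0, 0, 0⟩⟩, ⟨⟨1, -1, 0⟩, ⟨-1, 1, 0⟩, ⟨0, 0, 0⟩⟩)],
   ⟨⟨1, 0, 0⟩, ⟨0, 1, 0⟩, ⟨0, 0, 0⟩⟩, 1, ⟨0, 0, 0⟩, ⟨0, 0, 0⟩, 1, 2,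
   [(⟨⟨1, 0, 0⟩, ⟨0, 1, 0⟩, ⟨0, 0, 0⟩⟩, 2, ⟨0, 0, 0⟩)],
   [.cert ⟨1, 1, 1, 1,
      [],
      [],
      [],
      [(0, 1)]⟩,
    .absInv ⟨⟨1, -1, 0⟩, ⟨0, -1, 0⟩, ⟨0, 0, 1⟩⟩ ⟨1, 2, 3⟩ 3,
    .absInv ⟨⟨1, -1, 0⟩, ⟨0, -1, 0⟩, ⟨0, 0, 1⟩⟩ ⟨2, 1, 3⟩ 3,
    .cert ⟨1, 3, 3, 1,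
      [],
      [],
      [],
      [(0, 1)]⟩,
    .absInv ⟨⟨1, 0, 0⟩, ⟨1, -1, 0⟩, ⟨0, 0, 1⟩⟩ ⟨-1, 0, 1⟩ 1,
    .absInv ⟨⟨1, 0, 0⟩, ⟨1, -1, 0⟩, ⟨0, 0, 1⟩⟩ ⟨1, 0, 1⟩ 1,
    .absZ ⟨⟨-2, 0, 0⟩, ⟨-1, 0, 0⟩, ⟨0, 0, -2⟩⟩,
    .absZ ⟨⟨-2, 0, 0⟩, ⟨-1, 0, 0⟩, ⟨0, 0, -2⟩⟩]⟩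

def hexC1_34 : C1Cert :=
  ⟨⟨⟨1, 0, 0⟩, ⟨0, 1, 0⟩, ⟨0, 0, 0⟩⟩,
   [(⟨⟨0, -1, 0⟩, ⟨0, -1, 0⟩, ⟨0, 0, 0⟩⟩, ⟨⟨-2, 0, 0⟩, ⟨-1, 0, 0⟩, ⟨0, 0, 0⟩⟩), (⟨⟨0, 0, 0⟩, ⟨-1, 0, 0⟩, ⟨0, 0, 0⟩⟩, ⟨⟨1, -1, 0⟩, ⟨-1, 1, 0⟩, ⟨0, 0, 0⟩⟩)],
   ⟨⟨1, 0, 0⟩, ⟨0, 1, 0⟩, ⟨0, 0, 0⟩⟩, 1, ⟨0, 0, 0⟩, ⟨0, 0, 0⟩, 1, 1,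
   [(⟨⟨1, 0, 0⟩, ⟨0, 1, 0⟩, ⟨0, 0, 0⟩⟩, 1, ⟨0, 0, 0⟩)],
   [.absFlat ⟨0, 0, 1⟩ 1,
    .absFlat ⟨1, 2, 3⟩ 3,
    .absFlat ⟨2, 1, 3⟩ 3,
    .absFlat ⟨0, 0, 1⟩ 1,
    .absFlat ⟨-1, 0, 1⟩ 1,
    .absFlat ⟨1, 0, 1⟩ 1,
    .cert ⟨1, 1, 1, 1,
      [],
      [],
      [],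
      [(0, 1)]⟩,
    .cert ⟨1, 3, 3, 1,
      [],
      [],
      [],
      [(0, 1)]⟩]⟩

def hexC1_35 : C1Cert :=
  ⟨⟨⟨1, 0, 0⟩, ⟨0, 1, 0⟩, ⟨0, 0, 0⟩⟩,
   [(⟨⟨1, 0, 0⟩, ⟨0, 1, 0⟩, ⟨0, 0, 0⟩⟩, ⟨⟨1, 0, 0⟩, ⟨0, 1, 0⟩, ⟨0, 0, 1⟩⟩)],
   ⟨⟨1, 0, 0⟩, ⟨0, 1, 0⟩, ⟨0, 0, 0⟩⟩, 1, ⟨0, 0, 0⟩, ⟨0, 0, 0⟩, 1, 1,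
   [(⟨⟨1, 0, 0⟩, ⟨0, 1, 0⟩, ⟨0, 0, 0⟩⟩, 1, ⟨0, 0, 0⟩)],
   [.cert ⟨1, 1, 1, 1,
      [],
      [],
      [],
      [(0, 1)]⟩,
    .absInv ⟨⟨1, -1, 0⟩, ⟨0, -1, 0⟩, ⟨0, 0, 1⟩⟩ ⟨1, 2, 3⟩ 3,
    .absInv ⟨⟨1, -1, 0⟩, ⟨0, -1, 0⟩, ⟨0, 0, 1⟩⟩ ⟨2, 1, 3⟩ 3,
    .cert ⟨1, 3, 3, 1,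
      [⟨⟨1, 0, 0⟩, ⟨0, 1, 0⟩, ⟨0, 0, 1⟩⟩],
      [],
      [],
      [(0, 1)]⟩,
    .cert ⟨1, 3, 3, 1,
      [⟨⟨1, 0, 0⟩, ⟨0, 1, 0⟩, ⟨0, 0, 1⟩⟩],
      [],
      [],
      [(0, 1)]⟩,
    .cert ⟨1, 3, 3, 1,
      [⟨⟨1, 0, 0⟩, ⟨0, 1, 0⟩, ⟨0, 0, 1⟩⟩],
      [],
      [],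
      [(0, 1)]⟩,
    .absZ ⟨⟨1, 0, 0⟩, ⟨0, 1, 0⟩, ⟨0, 0, 1⟩⟩,
    .absZ ⟨⟨1, 0, 0⟩, ⟨0, 1, 0⟩, ⟨0, 0, 1⟩⟩]⟩

def hexC1_36 : C1Cert :=
  ⟨⟨⟨1, 0, 0⟩, ⟨0, 1, 0⟩, ⟨0, 0, 0⟩⟩,
   [(⟨⟨1, 0, 0⟩, ⟨1, 0, 0⟩, ⟨0, 0, 0⟩⟩, ⟨⟨0, 1, 0⟩, ⟨0, 2, 0⟩, ⟨0, 0, 0⟩⟩), (⟨⟨1, 0, 0⟩, ⟨0, 0, 0⟩, ⟨0, 0, 0⟩⟩, ⟨⟨1, -1, 0⟩, ⟨-1, 1, 0⟩, ⟨0, 0, 0⟩⟩)],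
   ⟨⟨1, 0, 0⟩, ⟨0, 1, 0⟩, ⟨0, 0, 0⟩⟩, 1, ⟨0, 0, 0⟩, ⟨0, 0, 0⟩, 1, 1,
   [(⟨⟨1, 0, 0⟩, ⟨0, 1, 0⟩, ⟨0, 0, 0⟩⟩, 1, ⟨0, 0, 0⟩)],
   [.absFlat ⟨0, 0, 1⟩ 1,
    .absFlat ⟨1, 2, 3⟩ 3,
    .absFlat ⟨2, 1, 3⟩ 3,
    .absFlat ⟨0, 0, 1⟩ 1,
    .absFlat ⟨-1, 0, 1⟩ 1,
    .absFlat ⟨1, 0, 1⟩ 1,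
    .cert ⟨1, 1, 1, 1,
      [],
      [],
      [],
      [(0, 1)]⟩,
    .cert ⟨1, 3, 3, 1,
      [⟨⟨-2, 0, 0⟩, ⟨0, -2, 0⟩, ⟨0, 0, 0⟩⟩],
      [],
      [],
      [(0, 1)]⟩]⟩

def hexC1_37 : C1Cert :=
  ⟨⟨⟨1, 0, 0⟩, ⟨0, 1, 0⟩, ⟨0, 0, 0⟩⟩,
   [(⟨⟨0, 1, 0⟩, ⟨-1, 1, 0⟩, ⟨0, 0, 0⟩⟩, ⟨⟨1, -1, 0⟩, ⟨1, 0, 0⟩, ⟨0, 0, 2⟩⟩)],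
   ⟨⟨1, 0, 0⟩, ⟨0, 1, 0⟩, ⟨0, 0, 0⟩⟩, 1, ⟨0, 0, 0⟩, ⟨0, 0, 0⟩, 1, 2,
   [(⟨⟨1, 0, 0⟩, ⟨0, 1, 0⟩, ⟨0, 0, 0⟩⟩, 2, ⟨0, 0, 0⟩)],
   [.cert ⟨1, 1, 1, 1,
      [],
      [],
      [],
      [(0, 1)]⟩,
    .cert ⟨3, 3, 3, 1,
      [⟨⟨1, -1, 0⟩, ⟨1, 0, 0⟩, ⟨0, 0, 2⟩⟩],
      [],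
      [],
      [(0, 3)]⟩,
    .cert ⟨3, 3, 3, 1,
      [⟨⟨1, -1, 0⟩, ⟨1, 0, 0⟩, ⟨0, 0, 2⟩⟩],
      [],
      [],
      [(0, 3)]⟩,
    .cert ⟨1, 3, 3, 1,
      [⟨⟨1, -1, 0⟩, ⟨1, 0, 0⟩, ⟨0, 0, 2⟩⟩],
      [],
      [],
      [(0, 1)]⟩,
    .absInv ⟨⟨1, 0, 0⟩, ⟨1, -1, 0⟩, ⟨0, 0, 1⟩⟩ ⟨-1, 0, 1⟩ 1,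
    .absInv ⟨⟨1, 0, 0⟩, ⟨1, -1, 0⟩, ⟨0, 0, 1⟩⟩ ⟨1, 0, 1⟩ 1,
    .absZ ⟨⟨-2, 0, 0⟩, ⟨-1, 0, 0⟩, ⟨0, 0, -2⟩⟩,
    .absZ ⟨⟨-2, 0, 0⟩, ⟨-1, 0, 0⟩, ⟨0, 0, -2⟩⟩]⟩

def hexC1_40 : C1Cert :=
  ⟨⟨⟨1, 0, 0⟩, ⟨0, 1, 0⟩, ⟨0, 0, 0⟩⟩,
   [(⟨⟨0, 1, 0⟩, ⟨-1, 1, 0⟩, ⟨0, 0, 0⟩⟩, ⟨⟨1, -1, 0⟩, ⟨1, 0, 0⟩, ⟨0, 0, 0⟩⟩)],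
   ⟨⟨1, 0, 0⟩, ⟨0, 1, 0⟩, ⟨0, 0, 0⟩⟩, 1, ⟨0, 0, 0⟩, ⟨0, 0, 0⟩, 1, 2,
   [(⟨⟨1, 0, 0⟩, ⟨0, 1, 0⟩, ⟨0, 0, 0⟩⟩, 2, ⟨0, 0, 0⟩)],
   [.cert ⟨1, 1, 1, 1,
      [],
      [],
      [],
      [(0, 1)]⟩,
    .absInv ⟨⟨1, -1, 0⟩, ⟨1, 0, 0⟩, ⟨0, 0, 1⟩⟩ ⟨1, 2, 3⟩ 3,
    .absInv ⟨⟨1, -1, 0⟩, ⟨1, 0, 0⟩, ⟨0, 0, 1⟩⟩ ⟨2, 1, 3⟩ 3,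
    .cert ⟨1, 3, 3, 1,
      [⟨⟨1, -1, 0⟩, ⟨1, 0, 0⟩, ⟨0, 0, 0⟩⟩],
      [],
      [],
      [(0, 1)]⟩,
    .absInv ⟨⟨1, -1, 0⟩, ⟨1, 0, 0⟩, ⟨0, 0, 1⟩⟩ ⟨-1, 0, 1⟩ 1,
    .absInv ⟨⟨1, -1, 0⟩, ⟨1, 0, 0⟩, ⟨0, 0, 1⟩⟩ ⟨1, 0, 1⟩ 1,
    .absZ ⟨⟨-2, 0, 0⟩, ⟨-1, 0, 0⟩, ⟨0, 0, -2⟩⟩,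
    .absZ ⟨⟨-2, 0, 0⟩, ⟨-1, 0, 0⟩, ⟨0, 0, -2⟩⟩]⟩

def hexC1_41 : C1Cert :=
  ⟨⟨⟨1, 0, 0⟩, ⟨0, 1, 0⟩, ⟨0, 0, 0⟩⟩,
   [(⟨⟨0, 1, 0⟩, ⟨-1, 1, 0⟩, ⟨0, 0, 0⟩⟩, ⟨⟨1, -1, 0⟩, ⟨1, 0, 0⟩, ⟨0, 0, 0⟩⟩)],
   ⟨⟨1, 0, 0⟩, ⟨0, 1, 0⟩, ⟨0, 0, 0⟩⟩, 1, ⟨0, 0, 0⟩, ⟨0, 0, 0⟩, 1, 1,
   [(⟨⟨1, 0, 0⟩, ⟨0, 1, 0⟩, ⟨0, 0, 0⟩⟩, 1, ⟨0, 0, 0⟩)],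
   [.absFlat ⟨0, 0, 1⟩ 1,
    .absFlat ⟨1, 2, 3⟩ 3,
    .absFlat ⟨2, 1, 3⟩ 3,
    .absFlat ⟨0, 0, 1⟩ 1,
    .absFlat ⟨-1, 0, 1⟩ 1,
    .absFlat ⟨1, 0, 1⟩ 1,
    .cert ⟨1, 1, 1, 1,
      [],
      [],
      [],
      [(0, 1)]⟩,
    .cert ⟨1, 3, 3, 1,
      [⟨⟨1, -1, 0⟩, ⟨1, 0, 0⟩, ⟨0, 0, 0⟩⟩],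
      [],
      [],
      [(0, 1)]⟩]⟩

def hexC1_44 : C1Cert :=
  ⟨⟨⟨1, 0, 0⟩, ⟨0, 1, 0⟩, ⟨0, 0, 0⟩⟩,
   [(⟨⟨0, -1, 0⟩, ⟨0, 1, 0⟩, ⟨0, 0, 0⟩⟩, ⟨⟨-2, 0, 0⟩, ⟨-1, 0, 0⟩, ⟨0, 0, -2⟩⟩), (⟨⟨0, 0, 0⟩, ⟨0, 1, 0⟩, ⟨0, 0, 0⟩⟩, ⟨⟨2, -1, 0⟩, ⟨1, 1, 0⟩, ⟨0, 0, 2⟩⟩)],
   ⟨⟨1, 0, 0⟩, ⟨0, 1, 0⟩, ⟨0, 0, 0⟩⟩, 1, ⟨0, 0, 0⟩, ⟨0, 0, 0⟩, 1, 2,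
   [(⟨⟨1, 0, 0⟩, ⟨0, 1, 0⟩, ⟨0, 0, 0⟩⟩, 2, ⟨0, 0, 0⟩)],
   [.cert ⟨1, 1, 1, 1,
      [],
      [],
      [],
      [(0, 1)]⟩,
    .absInv ⟨⟨0, -1, 0⟩, ⟨1, -1, 0⟩, ⟨0, 0, -1⟩⟩ ⟨1, 2, 3⟩ 3,
    .absInv ⟨⟨0, -1, 0⟩, ⟨1, -1, 0⟩, ⟨0, 0, -1⟩⟩ ⟨2, 1, 3⟩ 3,
    .cert ⟨1, 3, 3, 1,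
      [],
      [],
      [],
      [(0, 1)]⟩,
    .absInv ⟨⟨0, -1, 0⟩, ⟨1, -1, 0⟩, ⟨0, 0, -1⟩⟩ ⟨-1, 0, 1⟩ 1,
    .absInv ⟨⟨0, -1, 0⟩, ⟨1, -1, 0⟩, ⟨0, 0, -1⟩⟩ ⟨1, 0, 1⟩ 1,
    .absZ ⟨⟨-2, 0, 0⟩, ⟨-1, 0, 0⟩, ⟨0, 0, -2⟩⟩,
    .absZ ⟨⟨-2, 0, 0⟩, ⟨-1, 0, 0⟩, ⟨0, 0, -2⟩⟩]⟩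

def hexC1_47 : C1Cert :=
  ⟨⟨⟨1, 0, 0⟩, ⟨0, 1, 0⟩, ⟨0, 0, 0⟩⟩,
   [(⟨⟨0, -1, 0⟩, ⟨0, -1, 0⟩, ⟨0, 0, 0⟩⟩, ⟨⟨-2, 0, 0⟩, ⟨-1, 0, 0⟩, ⟨0, 0, -2⟩⟩), (⟨⟨0, 0, 0⟩, ⟨-1, 0, 0⟩, ⟨0, 0, 0⟩⟩, ⟨⟨1, -1, 0⟩, ⟨-1, 1, 0⟩, ⟨0, 0, 0⟩⟩)],
   ⟨⟨1, 0, 0⟩, ⟨0, 1, 0⟩, ⟨0, 0, 0⟩⟩, 1, ⟨0, 0, 0⟩, ⟨0, 0, 0⟩, 1, 2,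
   [(⟨⟨1, 0, 0⟩, ⟨0, 1, 0⟩, ⟨0, 0, 0⟩⟩, 2, ⟨0, 0, 0⟩)],
   [.cert ⟨1, 1, 1, 1,
      [],
      [],
      [],
      [(0, 1)]⟩,
    .absInv ⟨⟨1, -1, 0⟩, ⟨0, -1, 0⟩, ⟨0, 0, 1⟩⟩ ⟨1, 2, 3⟩ 3,
    .absInv ⟨⟨1, -1, 0⟩, ⟨0, -1, 0⟩, ⟨0, 0, 1⟩⟩ ⟨2, 1, 3⟩ 3,
    .cert ⟨1, 3, 3, 1,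
      [],
      [],
      [],
      [(0, 1)]⟩,
    .absInv ⟨⟨0, 1, 0⟩, ⟨1, 0, 0⟩, ⟨0, 0, -1⟩⟩ ⟨-1, 0, 1⟩ 1,
    .absInv ⟨⟨0, 1, 0⟩, ⟨1, 0, 0⟩, ⟨0, 0, -1⟩⟩ ⟨1, 0, 1⟩ 1,
    .absZ ⟨⟨-2, 0, 0⟩, ⟨-1, 0, 0⟩, ⟨0, 0, -2⟩⟩,
    .absZ ⟨⟨-2, 0, 0⟩, ⟨-1, 0, 0⟩, ⟨0, 0, -2⟩⟩]⟩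

def hexC1_48 : C1Cert :=
  ⟨⟨⟨1, 0, 0⟩, ⟨0, 1, 0⟩, ⟨0, 0, 0⟩⟩,
   [(⟨⟨1, 0, 0⟩, ⟨0, 1, 0⟩, ⟨0, 0, 0⟩⟩, ⟨⟨1, 0, 0⟩, ⟨0, 1, 0⟩, ⟨0, 0, 1⟩⟩)],
   ⟨⟨1, 0, 0⟩, ⟨0, 1, 0⟩, ⟨0, 0, 0⟩⟩, 1, ⟨0, 0, 0⟩, ⟨0, 0, 0⟩, 1, 1,
   [(⟨⟨1, 0, 0⟩, ⟨0, 1, 0⟩, ⟨0, 0, 0⟩⟩, 1, ⟨0, 0, 0⟩)],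
   [.cert ⟨1, 1, 1, 1,
      [],
      [],
      [],
      [(0, 1)]⟩,
    .absInv ⟨⟨1, -1, 0⟩, ⟨0, -1, 0⟩, ⟨0, 0, 1⟩⟩ ⟨1, 2, 3⟩ 3,
    .absInv ⟨⟨1, -1, 0⟩, ⟨0, -1, 0⟩, ⟨0, 0, 1⟩⟩ ⟨2, 1, 3⟩ 3,
    .cert ⟨1, 3, 3, 1,
      [⟨⟨1, 0, 0⟩, ⟨0, 1, 0⟩, ⟨0, 0, 1⟩⟩],
      [],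
      [],
      [(0, 1)]⟩,
    .absInv ⟨⟨0, 1, 0⟩, ⟨1, 0, 0⟩, ⟨0, 0, -1⟩⟩ ⟨-1, 0, 1⟩ 1,
    .absInv ⟨⟨0, 1, 0⟩, ⟨1, 0, 0⟩, ⟨0, 0, -1⟩⟩ ⟨1, 0, 1⟩ 1,
    .absZ ⟨⟨1, 0, 0⟩, ⟨0, 1, 0⟩, ⟨0, 0, 1⟩⟩,
    .absZ ⟨⟨1, 0, 0⟩, ⟨0, 1, 0⟩, ⟨0, 0, 1⟩⟩]⟩

def hexC1_49 : C1Cert :=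
  ⟨⟨⟨1, 0, 0⟩, ⟨0, 1, 0⟩, ⟨0, 0, 0⟩⟩,
   [(⟨⟨0, -1, 0⟩, ⟨0, -1, 0⟩, ⟨0, 0, 0⟩⟩, ⟨⟨-2, 0, 0⟩, ⟨-1, 0, 0⟩, ⟨0, 0, -2⟩⟩), (⟨⟨0, 0, 0⟩, ⟨-1, 0, 0⟩, ⟨0, 0, 0⟩⟩, ⟨⟨1, -1, 0⟩, ⟨-1, 1, 0⟩, ⟨0, 0, 0⟩⟩)],
   ⟨⟨1, 0, 0⟩, ⟨0, 1, 0⟩, ⟨0, 0, 0⟩⟩, 1, ⟨0, 0, 0⟩, ⟨0, 0, 0⟩, 1, 2,
   [(⟨⟨1, 0, 0⟩, ⟨0, 1, 0⟩, ⟨0, 0, 0⟩⟩, 2, ⟨0, 0, 0⟩)],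
   [.cert ⟨1, 1, 1, 1,
      [],
      [],
      [],
      [(0, 1)]⟩,
    .absInv ⟨⟨1, 0, 0⟩, ⟨1, -1, 0⟩, ⟨0, 0, -1⟩⟩ ⟨1, 2, 3⟩ 3,
    .absInv ⟨⟨1, 0, 0⟩, ⟨1, -1, 0⟩, ⟨0, 0, -1⟩⟩ ⟨2, 1, 3⟩ 3,
    .cert ⟨1, 3, 3, 1,
      [⟨⟨0, 0, 0⟩, ⟨-1, 2, 0⟩, ⟨0, 0, 2⟩⟩],
      [],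
      [],
      [(0, 1)]⟩,
    .absInv ⟨⟨1, 0, 0⟩, ⟨1, -1, 0⟩, ⟨0, 0, 1⟩⟩ ⟨-1, 0, 1⟩ 1,
    .absInv ⟨⟨1, 0, 0⟩, ⟨1, -1, 0⟩, ⟨0, 0, 1⟩⟩ ⟨1, 0, 1⟩ 1,
    .absZ ⟨⟨-2, 0, 0⟩, ⟨-1, 0, 0⟩, ⟨0, 0, -2⟩⟩,
    .absZ ⟨⟨-2, 0, 0⟩, ⟨-1, 0, 0⟩, ⟨0, 0, -2⟩⟩]⟩

def hexC1_50 : C1Cert :=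
  ⟨⟨⟨1, 0, 0⟩, ⟨0, 1, 0⟩, ⟨0, 0, 0⟩⟩,
   [(⟨⟨1, 0, 0⟩, ⟨0, 1, 0⟩, ⟨0, 0, 0⟩⟩, ⟨⟨1, 0, 0⟩, ⟨0, 1, 0⟩, ⟨0, 0, 1⟩⟩)],
   ⟨⟨1, 0, 0⟩, ⟨0, 1, 0⟩, ⟨0, 0, 0⟩⟩, 1, ⟨0, 0, 0⟩, ⟨0, 0, 0⟩, 1, 1,
   [(⟨⟨1, 0, 0⟩, ⟨0, 1, 0⟩, ⟨0, 0, 0⟩⟩, 1, ⟨0, 0, 0⟩)],
   [.cert ⟨1, 1, 1, 1,
      [],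
      [],
      [],
      [(0, 1)]⟩,
    .absInv ⟨⟨1, 0, 0⟩, ⟨1, -1, 0⟩, ⟨0, 0, -1⟩⟩ ⟨1, 2, 3⟩ 3,
    .absInv ⟨⟨1, 0, 0⟩, ⟨1, -1, 0⟩, ⟨0, 0, -1⟩⟩ ⟨2, 1, 3⟩ 3,
    .cert ⟨1, 3, 3, 1,
      [⟨⟨1, 0, 0⟩, ⟨0, 1, 0⟩, ⟨0, 0, 1⟩⟩],
      [],
      [],
      [(0, 1)]⟩,
    .cert ⟨1, 3, 3, 1,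
      [⟨⟨1, 0, 0⟩, ⟨0, 1, 0⟩, ⟨0, 0, 1⟩⟩],
      [],
      [],
      [(0, 1)]⟩,
    .cert ⟨1, 3, 3, 1,
      [⟨⟨1, 0, 0⟩, ⟨0, 1, 0⟩, ⟨0, 0, 1⟩⟩],
      [],
      [],
      [(0, 1)]⟩,
    .absZ ⟨⟨1, 0, 0⟩, ⟨0, 1, 0⟩, ⟨0, 0, 1⟩⟩,
    .absZ ⟨⟨1, 0, 0⟩, ⟨0, 1, 0⟩, ⟨0, 0, 1⟩⟩]⟩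

def hexC1_51 : C1Cert :=
  ⟨⟨⟨1, 0, 0⟩, ⟨0, 1, 0⟩, ⟨0, 0, 0⟩⟩,
   [(⟨⟨0, -1, 0⟩, ⟨0, -1, 0⟩, ⟨0, 0, 0⟩⟩, ⟨⟨-2, 0, 0⟩, ⟨-1, 0, 0⟩, ⟨0, 0, -2⟩⟩), (⟨⟨0, 0, 0⟩, ⟨-1, 0, 0⟩, ⟨0, 0, 0⟩⟩, ⟨⟨1, -1, 0⟩, ⟨-1, 1, 0⟩, ⟨0, 0, 2⟩⟩)],
   ⟨⟨1, 0, 0⟩, ⟨0, 1, 0⟩, ⟨0, 0, 0⟩⟩, 1, ⟨0, 0, 0⟩, ⟨0, 0, 0⟩, 1, 2,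
   [(⟨⟨1, 0, 0⟩, ⟨0, 1, 0⟩, ⟨0, 0, 0⟩⟩, 2, ⟨0, 0, 0⟩)],
   [.cert ⟨1, 1, 1, 1,
      [],
      [],
      [],
      [(0, 1)]⟩,
    .absInv ⟨⟨1, 0, 0⟩, ⟨1, -1, 0⟩, ⟨0, 0, -1⟩⟩ ⟨1, 2, 3⟩ 3,
    .absInv ⟨⟨1, 0, 0⟩, ⟨1, -1, 0⟩, ⟨0, 0, -1⟩⟩ ⟨2, 1, 3⟩ 3,
    .cert ⟨1, 3, 3, 1,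
      [⟨⟨0, 0, 0⟩, ⟨-1, 2, 0⟩, ⟨0, 0, 2⟩⟩],
      [],
      [],
      [(0, 1)]⟩,
    .absInv ⟨⟨1, -1, 0⟩, ⟨0, -1, 0⟩, ⟨0, 0, -1⟩⟩ ⟨-1, 0, 1⟩ 1,
    .absInv ⟨⟨1, -1, 0⟩, ⟨0, -1, 0⟩, ⟨0, 0, -1⟩⟩ ⟨1, 0, 1⟩ 1,
    .absZ ⟨⟨-2, 0, 0⟩, ⟨-1, 0, 0⟩, ⟨0, 0, -2⟩⟩,
    .absZ ⟨⟨-2, 0, 0⟩, ⟨-1, 0, 0⟩, ⟨0, 0, -2⟩⟩]⟩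

def hexC1_52 : C1Cert :=
  ⟨⟨⟨1, 0, 0⟩, ⟨0, 1, 0⟩, ⟨0, 0, 0⟩⟩,
   [(⟨⟨1, 0, 0⟩, ⟨0, 1, 0⟩, ⟨0, 0, 0⟩⟩, ⟨⟨1, 0, 0⟩, ⟨0, 1, 0⟩, ⟨0, 0, 1⟩⟩)],
   ⟨⟨1, 0, 0⟩, ⟨0, 1, 0⟩, ⟨0, 0, 0⟩⟩, 1, ⟨0, 0, 0⟩, ⟨0, 0, 0⟩, 1, 1,
   [(⟨⟨1, 0, 0⟩, ⟨0, 1, 0⟩, ⟨0, 0, 0⟩⟩, 1, ⟨0, 0, 0⟩)],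
   [.cert ⟨1, 1, 1, 1,
      [],
      [],
      [],
      [(0, 1)]⟩,
    .absInv ⟨⟨1, 0, 0⟩, ⟨1, -1, 0⟩, ⟨0, 0, -1⟩⟩ ⟨1, 2, 3⟩ 3,
    .absInv ⟨⟨1, 0, 0⟩, ⟨1, -1, 0⟩, ⟨0, 0, -1⟩⟩ ⟨2, 1, 3⟩ 3,
    .cert ⟨1, 3, 3, 1,
      [⟨⟨1, 0, 0⟩, ⟨0, 1, 0⟩, ⟨0, 0, 1⟩⟩],
      [],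
      [],
      [(0, 1)]⟩,
    .absInv ⟨⟨1, -1, 0⟩, ⟨0, -1, 0⟩, ⟨0, 0, -1⟩⟩ ⟨-1, 0, 1⟩ 1,
    .absInv ⟨⟨1, -1, 0⟩, ⟨0, -1, 0⟩, ⟨0, 0, -1⟩⟩ ⟨1, 0, 1⟩ 1,
    .absZ ⟨⟨1, 0, 0⟩, ⟨0, 1, 0⟩, ⟨0, 0, 1⟩⟩,
    .absZ ⟨⟨1, 0, 0⟩, ⟨0, 1, 0⟩, ⟨0, 0, 1⟩⟩]⟩

def hexC1_53 : C1Cert :=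
  ⟨⟨⟨1, 0, 0⟩, ⟨0, 1, 0⟩, ⟨0, 0, 0⟩⟩,
   [(⟨⟨1, 0, 0⟩, ⟨0, 1, 0⟩, ⟨0, 0, 0⟩⟩, ⟨⟨1, 0, 0⟩, ⟨0, 1, 0⟩, ⟨0, 0, 1⟩⟩)],
   ⟨⟨1, 0, 0⟩, ⟨0, 1, 0⟩, ⟨0, 0, 0⟩⟩, 1, ⟨0, 0, 0⟩, ⟨0, 0, 0⟩, 1, 1,
   [(⟨⟨1, 0, 0⟩, ⟨0, 1, 0⟩, ⟨0, 0, 0⟩⟩, 1, ⟨0, 0, 0⟩)],
   [.cert ⟨1, 1, 1, 1,
      [],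
      [],
      [],
      [(0, 1)]⟩,
    .absInv ⟨⟨1, -1, 0⟩, ⟨0, -1, 0⟩, ⟨0, 0, 1⟩⟩ ⟨1, 2, 3⟩ 3,
    .absInv ⟨⟨1, -1, 0⟩, ⟨0, -1, 0⟩, ⟨0, 0, 1⟩⟩ ⟨2, 1, 3⟩ 3,
    .cert ⟨1, 3, 3, 1,
      [⟨⟨1, 0, 0⟩, ⟨0, 1, 0⟩, ⟨0, 0, 1⟩⟩],
      [],
      [],
      [(0, 1)]⟩,
    .absInv ⟨⟨1, 0, 0⟩, ⟨1, -1, 0⟩, ⟨0, 0, 1⟩⟩ ⟨-1, 0, 1⟩ 1,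
    .absInv ⟨⟨1, 0, 0⟩, ⟨1, -1, 0⟩, ⟨0, 0, 1⟩⟩ ⟨1, 0, 1⟩ 1,
    .absZ ⟨⟨1, 0, 0⟩, ⟨0, 1, 0⟩, ⟨0, 0, 1⟩⟩,
    .absZ ⟨⟨1, 0, 0⟩, ⟨0, 1, 0⟩, ⟨0, 0, 1⟩⟩]⟩

def hexC1_54 : C1Cert :=
  ⟨⟨⟨1, 0, 0⟩, ⟨0, 1, 0⟩, ⟨0, 0, 0⟩⟩,
   [(⟨⟨0, -1, 0⟩, ⟨0, -1, 0⟩, ⟨0, 0, 0⟩⟩, ⟨⟨-2, 0, 0⟩, ⟨-1, 0, 0⟩, ⟨0, 0, 0⟩⟩), (⟨⟨0, 0, 0⟩, ⟨-1, 0, 0⟩, ⟨0, 0, 0⟩⟩, ⟨⟨1, -1, 0⟩, ⟨-1, 1, 0⟩, ⟨0, 0, 0⟩⟩)],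
   ⟨⟨1, 0, 0⟩, ⟨0, 1, 0⟩, ⟨0, 0, 0⟩⟩, 1, ⟨0, 0, 0⟩, ⟨0, 0, 0⟩, 1, 1,
   [(⟨⟨1, 0, 0⟩, ⟨0, 1, 0⟩, ⟨0, 0, 0⟩⟩, 1, ⟨0, 0, 0⟩)],
   [.absFlat ⟨0, 0, 1⟩ 1,
    .absFlat ⟨1, 2, 3⟩ 3,
    .absFlat ⟨2, 1, 3⟩ 3,
    .absFlat ⟨0, 0, 1⟩ 1,
    .absFlat ⟨-1, 0, 1⟩ 1,
    .absFlat ⟨1, 0, 1⟩ 1,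
    .cert ⟨1, 1, 1, 1,
      [],
      [],
      [],
      [(0, 1)]⟩,
    .cert ⟨1, 3, 3, 1,
      [⟨⟨0, 0, 0⟩, ⟨-1, 2, 0⟩, ⟨0, 0, 0⟩⟩],
      [],
      [],
      [(0, 1)]⟩]⟩

/-- The rigid rows with their certificates. -/
def hexC1 : List (ℕ × C1Cert) :=
  [(14, hexC1_14), (15, hexC1_15), (20, hexC1_20), (21, hexC1_21), (22, hexC1_22), (23, hexC1_23), (24, hexC1_24), (25, hexC1_25), (29, hexC1_29), (30, hexC1_30), (31, hexC1_31), (32, hexC1_32), (33, hexC1_33), (34, hexC1_34), (35, hexC1_35), (36, hexC1_36), (37, hexC1_37),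 (40, hexC1_40), (41, hexC1_41), (44, hexC1_44), (47, hexC1_47), (48, hexC1_48), (49, hexC1_49), (50, hexC1_50), (51, hexC1_51), (52, hexC1_52), (53, hexC1_53), (54, hexC1_54)]

end Pool.Agent.H21.FT
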