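import Pool.Agent.H21.FT.C1Defs

/-!
# Certificates for the rigid rows (tet)
-/

namespace Pool.Agent.H21.FT

def tetC1_10 : C1Cert :=
  ⟨⟨⟨1, 1, 0⟩, ⟨0, 2, 0⟩, ⟨0, 0, 0⟩⟩,
   [(⟨⟨1, 0, 0⟩, ⟨1, 1, 0⟩, ⟨0, 0, 0⟩⟩, ⟨⟨1, 1, 0⟩, ⟨-1, 1, 0⟩, ⟨0, 0, 2⟩⟩)],
   ⟨⟨2, -1, 0⟩, ⟨0, 1, 0⟩, ⟨0, 0, 0⟩⟩, 2, ⟨0, 0, 0⟩, ⟨0, 0, 0⟩, 1, 2,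
   [(⟨⟨1, 0, 0⟩, ⟨0, 1, 0⟩, ⟨0, 0, 0⟩⟩, 2, ⟨0, 0, 0⟩)],
   [.cert ⟨1, 2, 2, 1,
      [],
      [],
      [],
      [(0, 2)]⟩,
    .cert ⟨2, 4, 4, 1,
      [⟨⟨-2, 0, 0⟩, ⟨0, 0, 0⟩, ⟨0, 0, -2⟩⟩],
      [],
      [],
      []⟩,
    .cert ⟨1, 2, 2, 1,
      [⟨⟨-2, 0, 0⟩, ⟨0, 0, 0⟩, ⟨0, 0, -2⟩⟩],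
      [],
      [],
      [(0, 1)]⟩,
    .cert ⟨1, 2, 2, 1,
      [⟨⟨-2, 0, 0⟩, ⟨0, 0, 0⟩, ⟨0, 0, -2⟩⟩],
      [],
      [],
      [(0, 2)]⟩,
    .absZ ⟨⟨-2, 0, 0⟩, ⟨0, 0, 0⟩, ⟨0, 0, -2⟩⟩,
    .absZ ⟨⟨-2, 0, 0⟩, ⟨0, 0, 0⟩, ⟨0, 0, -2⟩⟩]⟩

def tetC1_13 : C1Cert :=
  ⟨⟨⟨1, 1, 0⟩, ⟨0, 2, 0⟩, ⟨0, 0, 0⟩⟩,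
   [(⟨⟨1, 0, 0⟩, ⟨1, 1, 0⟩, ⟨0, 0, 0⟩⟩, ⟨⟨1, 1, 0⟩, ⟨-1, 1, 0⟩, ⟨0, 0, 0⟩⟩)],
   ⟨⟨2, -1, 0⟩, ⟨0, 1, 0⟩, ⟨0, 0, 0⟩⟩, 2, ⟨0, 0, 0⟩, ⟨0, 0, 0⟩, 1, 2,
   [(⟨⟨1, 0, 0⟩, ⟨0, 1, 0⟩, ⟨0, 0, 0⟩⟩, 2, ⟨0, 0, 0⟩)],
   [.cert ⟨1, 2, 2, 1,
      [],
      [],
      [],
      [(0, 2)]⟩,
    .cert ⟨2, 4, 4, 1,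
      [⟨⟨-2, 0, 0⟩, ⟨0, 0, 0⟩, ⟨0, 0, -2⟩⟩],
      [],
      [],
      []⟩,
    .cert ⟨1, 2, 2, 1,
      [⟨⟨-2, 0, 0⟩, ⟨0, 0, 0⟩, ⟨0, 0, -2⟩⟩],
      [],
      [],
      [(0, 1)]⟩,
    .cert ⟨1, 2, 2, 1,
      [⟨⟨-2, 0, 0⟩, ⟨0, 0, 0⟩, ⟨0, 0, -2⟩⟩, ⟨⟨1, 1, 0⟩, ⟨-1, 1, 0⟩, ⟨0, 0, 0⟩⟩],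
      [],
      [],
      []⟩,
    .absZ ⟨⟨-2, 0, 0⟩, ⟨0, 0, 0⟩, ⟨0, 0, -2⟩⟩,
    .absZ ⟨⟨-2, 0, 0⟩, ⟨0, 0, 0⟩, ⟨0, 0, -2⟩⟩]⟩

def tetC1_14 : C1Cert :=
  ⟨⟨⟨1, 1, 0⟩, ⟨0, 2, 0⟩, ⟨0, 0, 0⟩⟩,
   [(⟨⟨1, 0, 0⟩, ⟨1, 1, 0⟩, ⟨0, 0, 0⟩⟩, ⟨⟨1, 1, 0⟩, ⟨-1, 1, 0⟩, ⟨0, 0, 0⟩⟩)],
   ⟨⟨2, -1, 0⟩, ⟨0, 1, 0⟩, ⟨0, 0, 0⟩⟩, 2, ⟨0, 0, 0⟩, ⟨0, 0, 0⟩, 1, 1,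
   [(⟨⟨1, 0, 0⟩, ⟨0, 1, 0⟩, ⟨0, 0, 0⟩⟩, 1, ⟨0, 0, 0⟩)],
   [.absFlat ⟨0, 0, 1⟩ 1,
    .absFlat ⟨1, 1, 2⟩ 2,
    .absFlat ⟨0, 0, 1⟩ 1,
    .absFlat ⟨-1, 0, 1⟩ 1,
    .cert ⟨1, 2, 2, 1,
      [],
      [],
      [],
      [(0, 2)]⟩,
    .cert ⟨1, 2, 2, 1,
      [⟨⟨-2, 0, 0⟩, ⟨0, 0, 0⟩, ⟨0, 0, 0⟩⟩],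
      [],
      [],
      [(0, 1)]⟩]⟩

def tetC1_15 : C1Cert :=
  ⟨⟨⟨1, 1, 0⟩, ⟨0, 2, 0⟩, ⟨0, 0, 0⟩⟩,
   [(⟨⟨0, 0, 0⟩, ⟨1, 0, 0⟩, ⟨0, 0, 0⟩⟩, ⟨⟨-2, 0, 0⟩, ⟨0, 0, 0⟩, ⟨0, 0, -2⟩⟩), (⟨⟨1, 0, 0⟩, ⟨2, 0, 0⟩, ⟨0, 0, 0⟩⟩, ⟨⟨1, 1, 0⟩, ⟨1, 1, 0⟩, ⟨0, 0, 2⟩⟩)],
   ⟨⟨2, -1, 0⟩, ⟨0, 1, 0⟩, ⟨0, 0, 0⟩⟩, 2, ⟨0, 0, 0⟩, ⟨0, 0, 0⟩, 1, 2,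
   [(⟨⟨1, 0, 0⟩, ⟨0, 1, 0⟩, ⟨0, 0, 0⟩⟩, 2, ⟨0, 0, 0⟩)],
   [.cert ⟨1, 2, 2, 1,
      [],
      [],
      [],
      [(0, 2)]⟩,
    .cert ⟨2, 4, 4, 1,
      [⟨⟨-2, 0, 0⟩, ⟨0, 0, 0⟩, ⟨0, 0, -2⟩⟩],
      [],
      [],
      []⟩,
    .cert ⟨1, 2, 2, 1,
      [⟨⟨-2, 0, 0⟩, ⟨0, 0, 0⟩, ⟨0, 0, -2⟩⟩],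
      [],
      [],
      [(0, 1)]⟩,
    .cert ⟨1, 2, 2, 1,
      [⟨⟨1, 1, 0⟩, ⟨1, 1, 0⟩, ⟨0, 0, 2⟩⟩],
      [],
      [],
      []⟩,
    .absZ ⟨⟨-2, 0, 0⟩, ⟨0, 0, 0⟩, ⟨0, 0, -2⟩⟩,
    .absZ ⟨⟨-2, 0, 0⟩, ⟨0, 0, 0⟩, ⟨0, 0, -2⟩⟩]⟩

def tetC1_16 : C1Cert :=
  ⟨⟨⟨1, 1, 0⟩, ⟨0, 2, 0⟩, ⟨0, 0, 0⟩⟩,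
   [(⟨⟨0, 0, 0⟩, ⟨1, 0, 0⟩, ⟨0, 0, 0⟩⟩, ⟨⟨-2, 0, 0⟩, ⟨0, 0, 0⟩, ⟨0, 0, 0⟩⟩), (⟨⟨1, 0, 0⟩, ⟨2, 0, 0⟩, ⟨0, 0, 0⟩⟩, ⟨⟨1, 1, 0⟩, ⟨1, 1, 0⟩, ⟨0, 0, 2⟩⟩)],
   ⟨⟨2, -1, 0⟩, ⟨0, 1, 0⟩, ⟨0, 0, 0⟩⟩, 2, ⟨0, 0, 0⟩, ⟨0, 0, 0⟩, 1, 2,
   [(⟨⟨1, 0, 0⟩, ⟨0, 1, 0⟩, ⟨0, 0, 0⟩⟩, 2, ⟨0, 0, 0⟩)],
   [.cert ⟨1, 2, 2, 1,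
      [],
      [],
      [],
      [(0, 2)]⟩,
    .cert ⟨2, 4, 4, 1,
      [⟨⟨-2, 0, 0⟩, ⟨0, 0, 0⟩, ⟨0, 0, 0⟩⟩, ⟨⟨1, 1, 0⟩, ⟨1, 1, 0⟩, ⟨0, 0, 2⟩⟩],
      [],
      [],
      [(0, 2)]⟩,
    .cert ⟨1, 2, 2, 1,
      [⟨⟨-2, 0, 0⟩, ⟨0, 0, 0⟩, ⟨0, 0, 0⟩⟩],
      [],
      [],
      [(0, 1)]⟩,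
    .cert ⟨1, 2, 2, 1,
      [⟨⟨1, 1, 0⟩, ⟨1, 1, 0⟩, ⟨0, 0, 2⟩⟩],
      [],
      [],
      []⟩,
    .absZ ⟨⟨1, 1, 0⟩, ⟨1, 1, 0⟩, ⟨0, 0, 2⟩⟩,
    .absZ ⟨⟨1, 1, 0⟩, ⟨1, 1, 0⟩, ⟨0, 0, 2⟩⟩]⟩

def tetC1_17 : C1Cert :=
  ⟨⟨⟨2, 0, 0⟩, ⟨0, 2, 0⟩, ⟨0, 0, 0⟩⟩,
   [(⟨⟨0, -1, 0⟩, ⟨-1, 0, 0⟩, ⟨0, 0, 0⟩⟩, ⟨⟨0, -2, 0⟩, ⟨-2, 0, 0⟩, ⟨0, 0, 2⟩⟩)],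
   ⟨⟨1, 0, 0⟩, ⟨0, 1, 0⟩, ⟨0, 0, 0⟩⟩, 2, ⟨0, 0, 0⟩, ⟨0, 0, 0⟩, 1, 2,
   [(⟨⟨1, 0, 0⟩, ⟨0, 1, 0⟩, ⟨0, 0, 0⟩⟩, 2, ⟨0, 0, 0⟩), (⟨⟨1, 0, 0⟩, ⟨0, 1, 0⟩, ⟨0, 0, 0⟩⟩, 2, ⟨0, 0, 0⟩)],
   [.cert ⟨1, 2, 2, 1,
      [],
      [⟨⟨⟨0, -1, 0⟩, ⟨-1, 0, 0⟩, ⟨0, 0, -1⟩⟩, ⟨⟨1, 1, 0⟩, ⟨-1, 1, 0⟩, ⟨0, 0, 0⟩⟩⟩],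
      [],
      [(0, 1), (1, 1)]⟩,
    .cert ⟨2, 4, 4, 1,
      [⟨⟨-2, 0, 0⟩, ⟨0, 0, 0⟩, ⟨0, 0, -2⟩⟩],
      [],
      [],
      []⟩,
    .cert ⟨1, 4, 4, 1,
      [⟨⟨-2, 0, 0⟩, ⟨0, 0, 0⟩, ⟨0, 0, -2⟩⟩, ⟨⟨0, -2, 0⟩, ⟨-2, 0, 0⟩, ⟨0, 0, 2⟩⟩],
      [⟨⟨⟨0, -1, 0⟩, ⟨-1, 0, 0⟩, ⟨0, 0, -1⟩⟩, ⟨⟨1, 1, 0⟩, ⟨-1, 1, 0⟩, ⟨0, 0, 0⟩⟩⟩],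
      [],
      []⟩,
    .cert ⟨1, 4, 4, 1,
      [⟨⟨-2, 0, 0⟩, ⟨0, 0, 0⟩, ⟨0, 0, -2⟩⟩, ⟨⟨0, -2, 0⟩, ⟨-2, 0, 0⟩, ⟨0, 0, 2⟩⟩],
      [],
      [],
      [(0, 1)]⟩,
    .absZ ⟨⟨-2, 0, 0⟩, ⟨0, 0, 0⟩, ⟨0, 0, -2⟩⟩,
    .absZ ⟨⟨-2, 0, 0⟩, ⟨0, 0, 0⟩, ⟨0, 0, -2⟩⟩]⟩

def tetC1_18 : C1Cert :=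
  ⟨⟨⟨1, 1, 0⟩, ⟨0, 2, 0⟩, ⟨0, 0, 0⟩⟩,
   [(⟨⟨0, 0, 0⟩, ⟨1, 0, 0⟩, ⟨0, 0, 0⟩⟩, ⟨⟨-2, 0, 0⟩, ⟨0, 0, 0⟩, ⟨0, 0, -2⟩⟩), (⟨⟨1, 0, 0⟩, ⟨2, 0, 0⟩, ⟨0, 0, 0⟩⟩, ⟨⟨1, 1, 0⟩, ⟨1, 1, 0⟩, ⟨0, 0, 0⟩⟩)],
   ⟨⟨2, -1, 0⟩, ⟨0, 1, 0⟩, ⟨0, 0, 0⟩⟩, 2, ⟨0, 0, 0⟩, ⟨0, 0, 0⟩, 1, 2,
   [(⟨⟨1, 0, 0⟩, ⟨0, 1, 0⟩, ⟨0, 0, 0⟩⟩, 2, ⟨0, 0, 0⟩)],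
   [.cert ⟨1, 2, 2, 1,
      [],
      [],
      [],
      [(0, 2)]⟩,
    .cert ⟨2, 4, 4, 1,
      [⟨⟨-2, 0, 0⟩, ⟨0, 0, 0⟩, ⟨0, 0, -2⟩⟩],
      [],
      [],
      []⟩,
    .cert ⟨1, 2, 2, 1,
      [⟨⟨-2, 0, 0⟩, ⟨0, 0, 0⟩, ⟨0, 0, -2⟩⟩],
      [],
      [],
      [(0, 1)]⟩,
    .cert ⟨1, 2, 2, 1,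
      [⟨⟨-2, 0, 0⟩, ⟨0, 0, 0⟩, ⟨0, 0, -2⟩⟩],
      [],
      [],
      [(0, 2)]⟩,
    .absZ ⟨⟨-2, 0, 0⟩, ⟨0, 0, 0⟩, ⟨0, 0, -2⟩⟩,
    .absZ ⟨⟨-2, 0, 0⟩, ⟨0, 0, 0⟩, ⟨0, 0, -2⟩⟩]⟩

def tetC1_19 : C1Cert :=
  ⟨⟨⟨1, 1, 0⟩, ⟨0, 2, 0⟩, ⟨0, 0, 0⟩⟩,
   [(⟨⟨0, 0, 0⟩, ⟨1, 0, 0⟩, ⟨0, 0, 0⟩⟩, ⟨⟨-2, 0, 0⟩, ⟨0, 0, 0⟩, ⟨0, 0, 0⟩⟩), (⟨⟨1, 0, 0⟩, ⟨2, 0, 0⟩, ⟨0, 0, 0⟩⟩, ⟨⟨1, 1, 0⟩, ⟨1, 1, 0⟩, ⟨0, 0, 0⟩⟩)],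
   ⟨⟨2, -1, 0⟩, ⟨0, 1, 0⟩, ⟨0, 0, 0⟩⟩, 2, ⟨0, 0, 0⟩, ⟨0, 0, 0⟩, 1, 1,
   [(⟨⟨1, 0, 0⟩, ⟨0, 1, 0⟩, ⟨0, 0, 0⟩⟩, 1, ⟨0, 0, 0⟩)],
   [.absFlat ⟨0, 0, 1⟩ 1,
    .absFlat ⟨1, 1, 2⟩ 2,
    .absFlat ⟨0, 0, 1⟩ 1,
    .absFlat ⟨-1, 0, 1⟩ 1,
    .cert ⟨1, 2, 2, 1,
      [],
      [],
      [],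
      [(0, 2)]⟩,
    .cert ⟨1, 2, 2, 1,
      [⟨⟨-2, 0, 0⟩, ⟨0, 0, 0⟩, ⟨0, 0, 0⟩⟩],
      [],
      [],
      [(0, 1)]⟩]⟩

def tetC1_22 : C1Cert :=
  ⟨⟨⟨1, 0, 0⟩, ⟨0, 1, 0⟩, ⟨0, 0, 0⟩⟩,
   [(⟨⟨1, 0, 0⟩, ⟨0, 1, 0⟩, ⟨0, 0, 0⟩⟩, ⟨⟨1, 0, 0⟩, ⟨0, 1, 0⟩, ⟨0, 0, 1⟩⟩)],
   ⟨⟨1, 0, 0⟩, ⟨0, 1, 0⟩, ⟨0, 0, 0⟩⟩, 1, ⟨0, 0, 0⟩, ⟨0, 0, 0⟩, 1, 1,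
   [(⟨⟨1, 0, 0⟩, ⟨0, 1, 0⟩, ⟨0, 0, 0⟩⟩, 1, ⟨0, 0, 0⟩)],
   [.cert ⟨1, 1, 1, 1,
      [],
      [],
      [],
      [(0, 1)]⟩,
    .cert ⟨2, 2, 2, 1,
      [⟨⟨1, 0, 0⟩, ⟨0, 1, 0⟩, ⟨0, 0, 1⟩⟩],
      [],
      [],
      [(0, 2)]⟩,
    .cert ⟨1, 2, 2, 1,
      [⟨⟨1, 0, 0⟩, ⟨0, 1, 0⟩, ⟨0, 0, 1⟩⟩],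
      [],
      [],
      [(0, 1)]⟩,
    .cert ⟨1, 2, 2, 1,
      [⟨⟨1, 0, 0⟩, ⟨0, 1, 0⟩, ⟨0, 0, 1⟩⟩],
      [],
      [],
      [(0, 1)]⟩,
    .absZ ⟨⟨1, 0, 0⟩, ⟨0, 1, 0⟩, ⟨0, 0, 1⟩⟩,
    .absZ ⟨⟨1, 0, 0⟩, ⟨0, 1, 0⟩, ⟨0, 0, 1⟩⟩]⟩

def tetC1_23 : C1Cert :=
  ⟨⟨⟨1, 1, 0⟩, ⟨0, 2, 0⟩, ⟨0, 0, 0⟩⟩,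
   [(⟨⟨0, -1, 0⟩, ⟨0, -1, 0⟩, ⟨0, 0, 0⟩⟩, ⟨⟨-2, 0, 0⟩, ⟨0, -2, 0⟩, ⟨0, 0, 0⟩⟩), (⟨⟨1, 0, 0⟩, ⟨0, 0, 0⟩, ⟨0, 0, 0⟩⟩, ⟨⟨1, -1, 0⟩, ⟨-1, 1, 0⟩, ⟨0, 0, 2⟩⟩)],
   ⟨⟨2, -1, 0⟩, ⟨0, 1, 0⟩, ⟨0, 0, 0⟩⟩, 2, ⟨0, 0, 0⟩, ⟨0, 0, 0⟩, 1, 2,
   [(⟨⟨1, 0, 0⟩, ⟨0, 1, 0⟩, ⟨0, 0, 0⟩⟩, 2, ⟨0, 0, 0⟩)],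
   [.cert ⟨1, 2, 2, 1,
      [],
      [],
      [],
      [(0, 2)]⟩,
    .cert ⟨2, 4, 4, 1,
      [⟨⟨0, 0, 0⟩, ⟨0, 2, 0⟩, ⟨0, 0, 2⟩⟩],
      [],
      [],
      []⟩,
    .cert ⟨1, 2, 2, 1,
      [⟨⟨0, 0, 0⟩, ⟨0, 2, 0⟩, ⟨0, 0, 2⟩⟩],
      [],
      [],
      [(0, 1)]⟩,
    .cert ⟨1, 2, 2, 1,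
      [⟨⟨1, -1, 0⟩, ⟨-1, 1, 0⟩, ⟨0, 0, 2⟩⟩],
      [],
      [],
      []⟩,
    .absZ ⟨⟨0, 0, 0⟩, ⟨0, 2, 0⟩, ⟨0, 0, 2⟩⟩,
    .absZ ⟨⟨0, 0, 0⟩, ⟨0, 2, 0⟩, ⟨0, 0, 2⟩⟩]⟩

def tetC1_24 : C1Cert :=
  ⟨⟨⟨1, 0, 0⟩, ⟨0, 1, 0⟩, ⟨0, 0, 0⟩⟩,
   [(⟨⟨1, 0, 0⟩, ⟨0, 1, 0⟩, ⟨0, 0, 0⟩⟩, ⟨⟨1, 0, 0⟩, ⟨0, 1, 0⟩, ⟨0, 0, 1⟩⟩)],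
   ⟨⟨1, 0, 0⟩, ⟨0, 1, 0⟩, ⟨0, 0, 0⟩⟩, 1, ⟨0, 0, 0⟩, ⟨0, 0, 0⟩, 1, 1,
   [(⟨⟨1, 0, 0⟩, ⟨0, 1, 0⟩, ⟨0, 0, 0⟩⟩, 1, ⟨0, 0, 0⟩)],
   [.cert ⟨1, 1, 1, 1,
      [],
      [],
      [],
      [(0, 1)]⟩,
    .cert ⟨2, 2, 2, 1,
      [⟨⟨1, 0, 0⟩, ⟨0, 1, 0⟩, ⟨0, 0, 1⟩⟩],
      [],
      [],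
      [(0, 2)]⟩,
    .cert ⟨1, 2, 2, 1,
      [⟨⟨1, 0, 0⟩, ⟨0, 1, 0⟩, ⟨0, 0, 1⟩⟩],
      [],
      [],
      [(0, 1)]⟩,
    .cert ⟨1, 2, 2, 1,
      [⟨⟨1, 0, 0⟩, ⟨0, 1, 0⟩, ⟨0, 0, 1⟩⟩],
      [],
      [],
      [(0, 1)]⟩,
    .absZ ⟨⟨1, 0, 0⟩, ⟨0, 1, 0⟩, ⟨0, 0, 1⟩⟩,
    .absZ ⟨⟨1, 0, 0⟩, ⟨0, 1, 0⟩, ⟨0, 0, 1⟩⟩]⟩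

def tetC1_25 : C1Cert :=
  ⟨⟨⟨1, 1, 0⟩, ⟨0, 2, 0⟩, ⟨0, 0, 0⟩⟩,
   [(⟨⟨0, -1, 0⟩, ⟨0, -1, 0⟩, ⟨0, 0, 0⟩⟩, ⟨⟨-2, 0, 0⟩, ⟨0, -2, 0⟩, ⟨0, 0, 0⟩⟩), (⟨⟨1, 0, 0⟩, ⟨0, 0, 0⟩, ⟨0, 0, 0⟩⟩, ⟨⟨1, -1, 0⟩, ⟨-1, 1, 0⟩, ⟨0, 0, 0⟩⟩)],
   ⟨⟨2, -1, 0⟩, ⟨0, 1, 0⟩, ⟨0, 0, 0⟩⟩, 2, ⟨0, 0, 0⟩, ⟨0, 0, 0⟩, 1, 2,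
   [(⟨⟨1, 0, 0⟩, ⟨0, 1, 0⟩, ⟨0, 0, 0⟩⟩, 2, ⟨0, 0, 0⟩)],
   [.cert ⟨1, 2, 2, 1,
      [],
      [],
      [],
      [(0, 2)]⟩,
    .cert ⟨2, 4, 4, 1,
      [⟨⟨0, 0, 0⟩, ⟨0, 2, 0⟩, ⟨0, 0, 2⟩⟩],
      [],
      [],
      []⟩,
    .cert ⟨1, 2, 2, 1,
      [⟨⟨0, 0, 0⟩, ⟨0, 2, 0⟩, ⟨0, 0, 2⟩⟩],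
      [],
      [],
      [(0, 1)]⟩,
    .cert ⟨1, 2, 2, 1,
      [⟨⟨0, 0, 0⟩, ⟨0, 2, 0⟩, ⟨0, 0, 2⟩⟩],
      [],
      [],
      [(0, 2)]⟩,
    .absZ ⟨⟨0, 0, 0⟩, ⟨0, 2, 0⟩, ⟨0, 0, 2⟩⟩,
    .absZ ⟨⟨0, 0, 0⟩, ⟨0, 2, 0⟩, ⟨0, 0, 2⟩⟩]⟩

def tetC1_26 : C1Cert :=
  ⟨⟨⟨1, 0, 0⟩, ⟨0, 1, 0⟩, ⟨0, 0, 0⟩⟩,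
   [(⟨⟨1, 0, 0⟩, ⟨0, 1, 0⟩, ⟨0, 0, 0⟩⟩, ⟨⟨1, 0, 0⟩, ⟨0, 1, 0⟩, ⟨0, 0, 1⟩⟩)],
   ⟨⟨1, 0, 0⟩, ⟨0, 1, 0⟩, ⟨0, 0, 0⟩⟩, 1, ⟨0, 0, 0⟩, ⟨0, 0, 0⟩, 1, 1,
   [(⟨⟨1, 0, 0⟩, ⟨0, 1, 0⟩, ⟨0, 0, 0⟩⟩, 1, ⟨0, 0, 0⟩)],
   [.cert ⟨1, 1, 1, 1,
      [],
      [],
      [],
      [(0, 1)]⟩,
    .cert ⟨2, 2, 2, 1,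
      [⟨⟨1, 0, 0⟩, ⟨0, 1, 0⟩, ⟨0, 0, 1⟩⟩],
      [],
      [],
      [(0, 2)]⟩,
    .cert ⟨1, 2, 2, 1,
      [⟨⟨1, 0, 0⟩, ⟨0, 1, 0⟩, ⟨0, 0, 1⟩⟩],
      [],
      [],
      [(0, 1)]⟩,
    .cert ⟨1, 2, 2, 1,
      [⟨⟨1, 0, 0⟩, ⟨0, 1, 0⟩, ⟨0, 0, 1⟩⟩],
      [],
      [],
      [(0, 1)]⟩,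
    .absZ ⟨⟨1, 0, 0⟩, ⟨0, 1, 0⟩, ⟨0, 0, 1⟩⟩,
    .absZ ⟨⟨1, 0, 0⟩, ⟨0, 1, 0⟩, ⟨0, 0, 1⟩⟩]⟩

def tetC1_27 : C1Cert :=
  ⟨⟨⟨1, 1, 0⟩, ⟨0, 2, 0⟩, ⟨0, 0, 0⟩⟩,
   [(⟨⟨0, -1, 0⟩, ⟨0, -1, 0⟩, ⟨0, 0, 0⟩⟩, ⟨⟨-2, 0, 0⟩, ⟨0, -2, 0⟩, ⟨0, 0, 0⟩⟩), (⟨⟨1, 0, 0⟩, ⟨0, 0, 0⟩, ⟨0, 0, 0⟩⟩, ⟨⟨1, -1, 0⟩, ⟨-1, 1, 0⟩, ⟨0, 0, 0⟩⟩)],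
   ⟨⟨2, -1, 0⟩, ⟨0, 1, 0⟩, ⟨0, 0, 0⟩⟩, 2, ⟨0, 0, 0⟩, ⟨0, 0, 0⟩, 1, 1,
   [(⟨⟨1, 0, 0⟩, ⟨0, 1, 0⟩, ⟨0, 0, 0⟩⟩, 1, ⟨0, 0, 0⟩)],
   [.absFlat ⟨0, 0, 1⟩ 1,
    .absFlat ⟨1, 1, 2⟩ 2,
    .absFlat ⟨0, 0, 1⟩ 1,
    .absFlat ⟨-1, 0, 1⟩ 1,
    .cert ⟨1, 2, 2, 1,
      [],
      [],
      [],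
      [(0, 2)]⟩,
    .cert ⟨1, 2, 2, 1,
      [⟨⟨0, 0, 0⟩, ⟨0, 2, 0⟩, ⟨0, 0, 0⟩⟩],
      [],
      [],
      [(0, 1)]⟩]⟩

/-- The rigid rows with their certificates. -/
def tetC1 : List (ℕ × C1Cert) :=
  [(10, tetC1_10), (13, tetC1_13), (14, tetC1_14), (15, tetC1_15), (16, tetC1_16), (17, tetC1_17), (18, tetC1_18), (19, tetC1_19), (22, tetC1_22), (23, tetC1_23), (24, tetC1_24), (25, tetC1_25), (26, tetC1_26), (27, tetC1_27)]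

end Pool.Agent.H21.FT
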