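import Pool.Agent.H21.FT.DefsC

/-!
# Completeness of the families of a row: certificates

For a row with a rigid family of lattices the translation part `p` of the generator satisfies
`X p ∈ L` for all `X ∈ sch`, where `L` is one of the standard lattices. Hence
`p = P / N + x K` with an integer vector `P` that runs through finitely many classes.
-/

namespace Pool.Agent.H21.FT

open Matrix

/-- The standard lattices of the frame. -/
def Kind.lats : Kind → List LatD
  | .cub => cubLats
  | .tet => tetLats
  | .hex => hexLats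
  | .ort => []

/-- Certificate for one lattice: `L ⊆ (1/q) ℤ³`; `m1`, `m2`, `m3` are the moduli; `xs` are elements
of `sch` used to exclude classes, `bad` representatives outside the stabiliser used to exclude
classes, `subs` sublattices (with a vector `y / e` in `L` but not in the sublattice) used to exclude
classes, `cov` the families (with scale `s`) that cover the other classes. -/
structure C1L where
  q : ℤ
  m1 : ℕ
  m2 : ℕ
  m3 : ℕ
  xs : List IM
  bad : List FA
  subs : List (LatE × IV × ℤ)
  cov : List (ℕ × ℤ)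

/-- Certificate for one lattice: it is not invariant; it is not flat but all translations are; it is
flat but some translation is not; or the classes are checked. -/
inductive C1V
  | absInv (M : IM) (y : IV) (e : ℤ)
  | absFlat (y : IV) (e : ℤ)
  | absZ (X : IM)
  | cert (c : C1L)

/-- Certificate for a row: `F = ∑ C X` over the pairs `(C, X)` of `Fc`, `Eh F + K ⊗ G = d J` with `J`
the identity for the cubic kind and the projection to the plane otherwise; the third coordinate of
`p` is `wn / wd` if the kind is not cubic; `ws` gives for each family `(W, c, G')` with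
`T1 ⊗ W1 + T2 ⊗ W2 + T3 ⊗ W3 + K ⊗ G' = c J`. -/
structure C1Cert where
  F : IM
  Fc : List (IM × IM)
  Eh : IM
  d : ℤ
  K : IV
  G : IV
  wn : ℤ
  wd : ℤ
  ws : List (IM × ℤ × IV)
  vs : List C1V

/-- The matrix `v ⊗ w`. -/
def outer (v w : IV) : IM := ⟨w.smul v.x, w.smul v.y, w.smul v.z⟩

/-- The matrix `c J`. -/
def jmat (k : Kind) (c : ℤ) : IM :=
  ⟨⟨c, 0, 0⟩, ⟨0, c, 0⟩, ⟨0, 0, if k = .cub then c else 0⟩⟩

/-- Scaling of the coordinates by `s` (of the first two only, if the kind is not cubic). -/
def scl (k : Kind) (s : ℤ) (v : IV) : IV := ⟨s * v.x, s * v.y, (if k = .cub then s else 1) * v.z⟩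

/-- The integer vector `P` for the class `n`. -/
def C1Cert.P (C : C1Cert) (c : C1L) (n : IV) : IV :=
  ((C.Eh.mv n).smul C.wd).add ⟨0, 0, C.d * c.q * C.wn⟩

/-- The common denominator. -/
def C1Cert.N (C : C1Cert) (c : C1L) : ℤ := C.d * c.q * C.wd

/-- `P` is covered by the family `f` with scale `s`. -/
def covers (k : Kind) (N : ℤ) (f : Fam) (W : IM) (cw s : ℤ) (P : IV) : Bool :=
  let Y := ((scl k s P).smul f.den).sub (f.v.smul N)
  (decide (k = .cub) || decide (Y.z = 0)) &&
  decide (cw * N ∣ W.a.dot Y) && decide (cw * N ∣ W.b.dot Y) && decide (cw * N ∣ W.c.dot Y)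

/-- the shift `P` preserves the property to be covered -/
def coversShift (k : Kind) (N : ℤ) (f : Fam) (W : IM) (cw s : ℤ) (P : IV) : Bool :=
  let Y := (scl k s P).smul f.den
  (decide (k = .cub) || decide (Y.z = 0)) &&
  decide (cw * N ∣ W.a.dot Y) && decide (cw * N ∣ W.b.dot Y) && decide (cw * N ∣ W.c.dot Y)

/-- The check of one class. -/
def C1L.class (k : Kind) (r : Row) (fams : List Fam) (C : C1Cert) (L : LatE) (c : C1L) (n : IV) :
    Bool :=
  let P := C.P c n
  let N := C.N c
  c.xs.any (fun X => !L.div (L.m * N) (X.mv P)) ||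
  c.bad.any (fun p => L.div (L.m * N) (p.X.mv P)) ||
  c.subs.any (fun l => r.sch.all (fun X => l.1.div (l.1.m * N) (X.mv P))) ||
  c.cov.any (fun js => match fams[js.1]?, C.ws[js.1]? with
    | some f, some w => covers k N f w.1 w.2.1 js.2 P
    | _, _ => false)

/-- The check of one shift. -/
def C1L.shift (k : Kind) (r : Row) (fams : List Fam) (C : C1Cert) (L : LatE) (c : C1L) (n : IV) :
    Bool :=
  let P := (C.Eh.mv n).smul C.wd
  let N := C.N c
  c.xs.all (fun X => L.div (L.m * N) (X.mv P)) &&
  c.bad.all (fun p => L.div (L.m * N) (p.X.mv P)) &&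
  c.subs.all (fun l => r.sch.all (fun X => l.1.div (l.1.m * N) (X.mv P))) &&
  c.cov.all (fun js => match fams[js.1]?, C.ws[js.1]? with
    | some f, some w => coversShift k N f w.1 w.2.1 js.2 P
    | _, _ => false)

/-- The check of one lattice. -/
def C1V.ok (k : Kind) (r : Row) (fams : List Fam) (lats : List LatE) (C : C1Cert) (L : LatE) :
    C1V → Bool
  | .absInv M y e => r.reps.any (fun p => decide (p.M = M)) && decide (0 < e) &&
      L.div (L.m * e) y && !L.div (L.m * e) (M.mv y)
  | .absFlat y e => decide (k ≠ .cub) && decide (0 < e) && L.div (L.m * e) y && decide (y.z ≠ 0) &&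
      r.sch.all (fun X => decide (X.c = ⟨0, 0, 0⟩))
  | .absZ X => decide (k ≠ .cub) && decide (X ∈ r.sch) && decide (L.E.a = ⟨0, 0, 1⟩) &&
      decide (X.c.x = 0) && decide (X.c.y = 0) && decide (X.c.z ≠ 0) && decide (C.wn ≠ 0)
  | .cert c =>
      decide (0 < c.q) && decide (0 < c.m1) && decide (0 < c.m2) && decide (0 < c.m3) &&
      -- all vectors of `L` have denominator dividing `q`: `q` is a multiple combination of `D`
      -- (checked with the adjugate: `adj(D) m q` is divisible by `det D`)
      (let a := L.D.a; let b := L.D.b; let e := L.D.c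
       let dt := a.dot ⟨b.y * e.z - b.z * e.y, b.z * e.x - b.x * e.z, b.x * e.y - b.y * e.x⟩
       let t := L.m * c.q
       decide (dt ≠ 0) &&
       decide (dt ∣ t * (b.y * e.z - b.z * e.y)) && decide (dt ∣ t * (b.z * e.x - b.x * e.z)) &&
       decide (dt ∣ t * (b.x * e.y - b.y * e.x)) &&
       decide (dt ∣ t * (e.y * a.z - e.z * a.y)) && decide (dt ∣ t * (e.z * a.x - e.x * a.z)) &&
       decide (dt ∣ t * (e.x * a.y - e.y * a.x)) &&
       decide (dt ∣ t * (a.y * b.z - a.z * b.y)) && decide (dt ∣ t * (a.z * b.x - a.x * b.z)) &&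
       decide (dt ∣ t * (a.x * b.y - a.y * b.x))) &&
      c.xs.all (fun X => decide (X ∈ r.sch)) &&
      c.bad.all (fun p => decide (p ∈ r.nl) && decide (p.X.mv C.K = ⟨0, 0, 0⟩)) &&
      c.subs.all (fun l => decide (0 < l.2.2) && decide (0 < l.1.m) &&
        L.div (L.m * l.2.2) l.2.1 && !l.1.div (l.1.m * l.2.2) l.2.1) &&
      c.cov.all (fun js => decide (0 < js.2) && match fams[js.1]?, lats[js.1]? with
        | some f, some l => decide (f.exc = []) || (decide (js.2 = 1) && decide (l = L))
        | _, _ => false) &&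
      (if C.F.a = ⟨0, 0, 0⟩ then decide (c.m1 = 1) else true) &&
      (if C.F.b = ⟨0, 0, 0⟩ then decide (c.m2 = 1) else true) &&
      (if C.F.c = ⟨0, 0, 0⟩ then decide (c.m3 = 1) else true) &&
      c.shift k r fams C L ⟨c.m1, 0, 0⟩ && c.shift k r fams C L ⟨0, c.m2, 0⟩ &&
      c.shift k r fams C L ⟨0, 0, c.m3⟩ &&
      (List.range c.m1).all (fun i => (List.range c.m2).all (fun j => (List.range c.m3).all
        (fun l => c.class k r fams C L ⟨i, j, l⟩)))

/-- The check of a row. -/
def C1Cert.ok (k : Kind) (r : Row) (fams : List Fam) (lats : List LatE) (C : C1Cert) : Bool :=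
  decide (0 < C.d) && decide (0 < C.wd) &&
  (decide (k = .cub) && decide (C.wn = 0) || (decide (k = .tet) || decide (k = .hex)) &&
    decide (C.K = ⟨0, 0, 0⟩)) &&
  C.Fc.all (fun x => decide (x.2 ∈ r.sch)) &&
  decide (C.Fc.foldl (fun acc x => acc.add (x.1.mul x.2)) IM.zero = C.F) &&
  decide ((C.Eh.mul C.F).add (outer C.K C.G) = jmat k C.d) &&
  r.sch.all (fun X => decide (X.mv C.K = ⟨0, 0, 0⟩)) &&
  decide (C.ws.length = fams.length) && decide (lats.length = fams.length) &&
  (fams.zip C.ws).all (fun fw => decide (0 < fw.2.2.1) && decide (fw.1.K1 = C.K) &&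
    decide (fw.1.K2 = ⟨0, 0, 0⟩) &&
    decide ((((outer fw.1.T1 fw.2.1.a).add (outer fw.1.T2 fw.2.1.b)).add
      (outer fw.1.T3 fw.2.1.c)).add (outer C.K fw.2.2.2) = jmat k fw.2.2.1)) &&
  decide (C.vs.length = k.lats.length) &&
  (k.lats.zip C.vs).all (fun Lv => Lv.2.ok k r fams lats C Lv.1.toE)

end Pool.Agent.H21.FT
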