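import Pool.Agent.H21.FT.Row

/-!
# Certificates for the hexagonal blocks of the table
-/

namespace Pool.Agent.H21.FT

def hexRow0 : Row :=
  ⟨[⟨⟨-1, 0, 0⟩, ⟨-1, 1, 0⟩, ⟨0, 0, -1⟩⟩], ⟨⟨1, -1, 0⟩, ⟨1, 0, 0⟩, ⟨0, 0, 1⟩⟩, ⟨⟨0, 1, 0⟩, ⟨-1, 1, 0⟩, ⟨0, 0, 1⟩⟩, 2,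
   [⟨⟨⟨1, 0, 0⟩, ⟨0, 1, 0⟩, ⟨0, 0, 1⟩⟩, ⟨⟨0, 0, 0⟩, ⟨0, 0, 0⟩, ⟨0, 0, 0⟩⟩⟩,
    ⟨⟨⟨-1, 0, 0⟩, ⟨-1, 1, 0⟩, ⟨0, 0, -1⟩⟩, ⟨⟨0, 0, 0⟩, ⟨0, 0, 0⟩, ⟨0, 0, 0⟩⟩⟩,
    ⟨⟨⟨1, -1, 0⟩, ⟨1, 0, 0⟩, ⟨0, 0, 1⟩⟩, ⟨⟨1, 0, 0⟩, ⟨0, 1, 0⟩, ⟨0, 0, 1⟩⟩⟩,
    ⟨⟨⟨0, 1, 0⟩, ⟨-1, 1, 0⟩, ⟨0, 0, 1⟩⟩, ⟨⟨0, -1, 0⟩, ⟨1, -1, 0⟩, ⟨0, 0, -1⟩⟩⟩,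
    ⟨⟨⟨-1, 1, 0⟩, ⟨0, 1, 0⟩, ⟨0, 0, -1⟩⟩, ⟨⟨-1, 0, 0⟩, ⟨-1, 1, 0⟩, ⟨0, 0, -1⟩⟩⟩,
    ⟨⟨⟨0, -1, 0⟩, ⟨-1, 0, 0⟩, ⟨0, 0, -1⟩⟩, ⟨⟨0, 1, 0⟩, ⟨1, 0, 0⟩, ⟨0, 0, 1⟩⟩⟩,
    ⟨⟨⟨0, -1, 0⟩, ⟨1, -1, 0⟩, ⟨0, 0, 1⟩⟩, ⟨⟨2, -1, 0⟩, ⟨1, 1, 0⟩, ⟨0, 0, 2⟩⟩⟩,
    ⟨⟨⟨-1, 1, 0⟩, ⟨-1, 0, 0⟩, ⟨0, 0, 1⟩⟩, ⟨⟨1, -2, 0⟩, ⟨2, -1, 0⟩, ⟨0, 0, -2⟩⟩⟩,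
    ⟨⟨⟨0, 1, 0⟩, ⟨1, 0, 0⟩, ⟨0, 0, -1⟩⟩, ⟨⟨-2, 1, 0⟩, ⟨-1, 2, 0⟩, ⟨0, 0, -2⟩⟩⟩,
    ⟨⟨⟨1, -1, 0⟩, ⟨0, -1, 0⟩, ⟨0, 0, -1⟩⟩, ⟨⟨-1, 2, 0⟩, ⟨1, 1, 0⟩, ⟨0, 0, 2⟩⟩⟩,
    ⟨⟨⟨-1, 0, 0⟩, ⟨0, -1, 0⟩, ⟨0, 0, 1⟩⟩, ⟨⟨2, -2, 0⟩, ⟨2, 0, 0⟩, ⟨0, 0, 3⟩⟩⟩,
    ⟨⟨⟨1, 0, 0⟩, ⟨1, -1, 0⟩, ⟨0, 0, -1⟩⟩, ⟨⟨-2, 2, 0⟩, ⟨0, 2, 0⟩, ⟨0, 0, -3⟩⟩⟩],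
   [(0, 0), (0, 1), (0, 2), (1, 1), (1, 2), (2, 1), (3, 2), (4, 1), (5, 2), (6, 1), (8, 1)],
   [⟨⟨0, 0, 0⟩, ⟨0, 0, 0⟩, ⟨0, 0, 0⟩⟩,
    ⟨⟨1, -1, 0⟩, ⟨-1, 1, 0⟩, ⟨0, 0, 0⟩⟩,
    ⟨⟨1, -1, 0⟩, ⟨2, -2, 0⟩, ⟨0, 0, 0⟩⟩,
    ⟨⟨-1, 1, 0⟩, ⟨-2, 2, 0⟩, ⟨0, 0, 0⟩⟩,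
    ⟨⟨-1, 1, 0⟩, ⟨1, -1, 0⟩, ⟨0, 0, 0⟩⟩,
    ⟨⟨3, -3, 0⟩, ⟨0, 0, 0⟩, ⟨0, 0, 0⟩⟩,
    ⟨⟨3, -3, 0⟩, ⟨3, -3, 0⟩, ⟨0, 0, 0⟩⟩,
    ⟨⟨0, 0, 0⟩, ⟨0, 0, 0⟩, ⟨0, 0, -6⟩⟩,
    ⟨⟨-3, 3, 0⟩, ⟨-3, 3, 0⟩, ⟨0, 0, 0⟩⟩,
    ⟨⟨-3, 3, 0⟩, ⟨0, 0, 0⟩, ⟨0, 0, 0⟩⟩,
    ⟨⟨0, 0, 0⟩, ⟨0, 0, 0⟩, ⟨0, 0, 6⟩⟩,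
    ⟨⟨4, -4, 0⟩, ⟨2, -2, 0⟩, ⟨0, 0, 6⟩⟩,
    ⟨⟨-4, 4, 0⟩, ⟨-2, 2, 0⟩, ⟨0, 0, -6⟩⟩],
   [[(1, 0), (2, 0), (3, 0)],
    [(0, 0), (4, 0), (5, 0)],
    [(5, 1), (6, 0), (0, 0)],
    [(4, 2), (0, 0), (7, 0)],
    [(3, 3), (8, 0), (1, 0)],
    [(2, 4), (1, 0), (9, 0)],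
    [(9, 5), (10, 0), (2, 0)],
    [(8, 6), (3, 0), (10, 7)],
    [(7, 8), (11, 0), (4, 0)],
    [(6, 9), (5, 0), (11, 10)],
    [(11, 11), (7, 10), (6, 0)],
    [(10, 12), (9, 7), (8, 0)]]⟩

def hexLat0 : List LatE :=
  [⟨⟨⟨3, 0, 0⟩, ⟨-2, 1, 0⟩, ⟨0, 0, 3⟩⟩, 3, ⟨⟨0, 0, 0⟩, ⟨0, 0, 0⟩, ⟨0, 0, 0⟩⟩⟩]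

def hexRow1 : Row :=
  ⟨[⟨⟨-1, 0, 0⟩, ⟨-1, 1, 0⟩, ⟨0, 0, -1⟩⟩], ⟨⟨1, -1, 0⟩, ⟨1, 0, 0⟩, ⟨0, 0, -1⟩⟩, ⟨⟨0, 1, 0⟩, ⟨-1, 1, 0⟩, ⟨0, 0, -1⟩⟩, 2,
   [⟨⟨⟨1, 0, 0⟩, ⟨0, 1, 0⟩, ⟨0, 0, 1⟩⟩, ⟨⟨0, 0, 0⟩, ⟨0, 0, 0⟩, ⟨0, 0, 0⟩⟩⟩,
    ⟨⟨⟨-1, 0, 0⟩, ⟨-1, 1, 0⟩, ⟨0, 0, -1⟩⟩, ⟨⟨0, 0, 0⟩, ⟨0, 0, 0⟩, ⟨0, 0, 0⟩⟩⟩,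
    ⟨⟨⟨1, -1, 0⟩, ⟨1, 0, 0⟩, ⟨0, 0, -1⟩⟩, ⟨⟨1, 0, 0⟩, ⟨0, 1, 0⟩, ⟨0, 0, 1⟩⟩⟩,
    ⟨⟨⟨0, 1, 0⟩, ⟨-1, 1, 0⟩, ⟨0, 0, -1⟩⟩, ⟨⟨0, -1, 0⟩, ⟨1, -1, 0⟩, ⟨0, 0, 1⟩⟩⟩,
    ⟨⟨⟨-1, 1, 0⟩, ⟨0, 1, 0⟩, ⟨0, 0, 1⟩⟩, ⟨⟨-1, 0, 0⟩, ⟨-1, 1, 0⟩, ⟨0, 0, -1⟩⟩⟩,
    ⟨⟨⟨0, -1, 0⟩, ⟨-1, 0, 0⟩, ⟨0, 0, 1⟩⟩, ⟨⟨0, 1, 0⟩, ⟨1, 0, 0⟩, ⟨0, 0, -1⟩⟩⟩,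
    ⟨⟨⟨0, -1, 0⟩, ⟨1, -1, 0⟩, ⟨0, 0, 1⟩⟩, ⟨⟨2, -1, 0⟩, ⟨1, 1, 0⟩, ⟨0, 0, 0⟩⟩⟩,
    ⟨⟨⟨-1, 1, 0⟩, ⟨-1, 0, 0⟩, ⟨0, 0, 1⟩⟩, ⟨⟨1, -2, 0⟩, ⟨2, -1, 0⟩, ⟨0, 0, 0⟩⟩⟩,
    ⟨⟨⟨0, 1, 0⟩, ⟨1, 0, 0⟩, ⟨0, 0, -1⟩⟩, ⟨⟨-2, 1, 0⟩, ⟨-1, 2, 0⟩, ⟨0, 0, 0⟩⟩⟩,
    ⟨⟨⟨1, -1, 0⟩, ⟨0, -1, 0⟩, ⟨0, 0, -1⟩⟩, ⟨⟨-1, 2, 0⟩, ⟨1, 1, 0⟩, ⟨0, 0, 0⟩⟩⟩,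
    ⟨⟨⟨-1, 0, 0⟩, ⟨0, -1, 0⟩, ⟨0, 0, -1⟩⟩, ⟨⟨2, -2, 0⟩, ⟨2, 0, 0⟩, ⟨0, 0, 1⟩⟩⟩,
    ⟨⟨⟨1, 0, 0⟩, ⟨1, -1, 0⟩, ⟨0, 0, 1⟩⟩, ⟨⟨-2, 2, 0⟩, ⟨0, 2, 0⟩, ⟨0, 0, -1⟩⟩⟩],
   [(0, 0), (0, 1), (0, 2), (1, 1), (1, 2), (2, 1), (3, 2), (4, 1), (5, 2), (6, 1), (8, 1)],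
   [⟨⟨0, 0, 0⟩, ⟨0, 0, 0⟩, ⟨0, 0, 0⟩⟩,
    ⟨⟨1, -1, 0⟩, ⟨-1, 1, 0⟩, ⟨0, 0, 2⟩⟩,
    ⟨⟨1, -1, 0⟩, ⟨2, -2, 0⟩, ⟨0, 0, 2⟩⟩,
    ⟨⟨-1, 1, 0⟩, ⟨-2, 2, 0⟩, ⟨0, 0, -2⟩⟩,
    ⟨⟨-1, 1, 0⟩, ⟨1, -1, 0⟩, ⟨0, 0, -2⟩⟩,
    ⟨⟨3, -3, 0⟩, ⟨0, 0, 0⟩, ⟨0, 0, 0⟩⟩,
    ⟨⟨3, -3, 0⟩, ⟨3, -3, 0⟩, ⟨0, 0, 0⟩⟩,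
    ⟨⟨-3, 3, 0⟩, ⟨-3, 3, 0⟩, ⟨0, 0, 0⟩⟩,
    ⟨⟨-3, 3, 0⟩, ⟨0, 0, 0⟩, ⟨0, 0, 0⟩⟩,
    ⟨⟨4, -4, 0⟩, ⟨2, -2, 0⟩, ⟨0, 0, 2⟩⟩,
    ⟨⟨-4, 4, 0⟩, ⟨-2, 2, 0⟩, ⟨0, 0, -2⟩⟩],
   [[(1, 0), (2, 0), (3, 0)],
    [(0, 0), (4, 0), (5, 0)],
    [(5, 1), (6, 0), (0, 0)],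
    [(4, 2), (0, 0), (7, 0)],
    [(3, 3), (8, 0), (1, 0)],
    [(2, 4), (1, 0), (9, 0)],
    [(9, 5), (10, 0), (2, 0)],
    [(8, 6), (3, 0), (10, 0)],
    [(7, 7), (11, 0), (4, 0)],
    [(6, 8), (5, 0), (11, 0)],
    [(11, 9), (7, 0), (6, 0)],
    [(10, 10), (9, 0), (8, 0)]]⟩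

def hexLat1 : List LatE :=
  [⟨⟨⟨3, 0, 0⟩, ⟨-2, 1, 0⟩, ⟨-1, 0, 1⟩⟩, 3, ⟨⟨0, 0, 0⟩, ⟨0, 0, 0⟩, ⟨0, 0, 0⟩⟩⟩]

def hexRow2 : Row :=
  ⟨[⟨⟨-1, 0, 0⟩, ⟨-1, 1, 0⟩, ⟨0, 0, -1⟩⟩], ⟨⟨1, -1, 0⟩, ⟨0, -1, 0⟩, ⟨0, 0, 1⟩⟩, ⟨⟨1, -1, 0⟩, ⟨0, -1, 0⟩, ⟨0, 0, 1⟩⟩, 2,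
   [⟨⟨⟨1, 0, 0⟩, ⟨0, 1, 0⟩, ⟨0, 0, 1⟩⟩, ⟨⟨0, 0, 0⟩, ⟨0, 0, 0⟩, ⟨0, 0, 0⟩⟩⟩,
    ⟨⟨⟨-1, 0, 0⟩, ⟨-1, 1, 0⟩, ⟨0, 0, -1⟩⟩, ⟨⟨0, 0, 0⟩, ⟨0, 0, 0⟩, ⟨0, 0, 0⟩⟩⟩,
    ⟨⟨⟨1, -1, 0⟩, ⟨0, -1, 0⟩, ⟨0, 0, 1⟩⟩, ⟨⟨1, 0, 0⟩, ⟨0, 1, 0⟩, ⟨0, 0, 1⟩⟩⟩,
    ⟨⟨⟨-1, 1, 0⟩, ⟨-1, 0, 0⟩, ⟨0, 0, -1⟩⟩, ⟨⟨-1, 0, 0⟩, ⟨-1, 1, 0⟩, ⟨0, 0, -1⟩⟩⟩,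
    ⟨⟨⟨0, -1, 0⟩, ⟨1, -1, 0⟩, ⟨0, 0, -1⟩⟩, ⟨⟨1, 0, 0⟩, ⟨0, 1, 0⟩, ⟨0, 0, 1⟩⟩⟩,
    ⟨⟨⟨0, 1, 0⟩, ⟨1, 0, 0⟩, ⟨0, 0, 1⟩⟩, ⟨⟨-1, 0, 0⟩, ⟨-1, 1, 0⟩, ⟨0, 0, -1⟩⟩⟩,
    ⟨⟨⟨0, 1, 0⟩, ⟨1, 0, 0⟩, ⟨0, 0, -1⟩⟩, ⟨⟨1, -1, 0⟩, ⟨1, 0, 0⟩, ⟨0, 0, 0⟩⟩⟩,
    ⟨⟨⟨0, -1, 0⟩, ⟨1, -1, 0⟩, ⟨0, 0, 1⟩⟩, ⟨⟨-1, 1, 0⟩, ⟨0, 1, 0⟩, ⟨0, 0, 0⟩⟩⟩,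
    ⟨⟨⟨-1, 1, 0⟩, ⟨-1, 0, 0⟩, ⟨0, 0, 1⟩⟩, ⟨⟨1, -1, 0⟩, ⟨1, 0, 0⟩, ⟨0, 0, 0⟩⟩⟩,
    ⟨⟨⟨1, -1, 0⟩, ⟨0, -1, 0⟩, ⟨0, 0, -1⟩⟩, ⟨⟨-1, 1, 0⟩, ⟨0, 1, 0⟩, ⟨0, 0, 0⟩⟩⟩,
    ⟨⟨⟨-1, 0, 0⟩, ⟨-1, 1, 0⟩, ⟨0, 0, 1⟩⟩, ⟨⟨0, 0, 0⟩, ⟨0, 0, 0⟩, ⟨0, 0, 1⟩⟩⟩,
    ⟨⟨⟨1, 0, 0⟩, ⟨0, 1, 0⟩, ⟨0, 0, -1⟩⟩, ⟨⟨0, 0, 0⟩, ⟨0, 0, 0⟩, ⟨0, 0, -1⟩⟩⟩],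
   [(0, 0), (0, 1), (1, 1), (2, 0), (3, 0), (4, 1), (5, 1), (6, 0), (7, 0), (8, 1), (9, 1)],
   [⟨⟨0, 0, 0⟩, ⟨0, 0, 0⟩, ⟨0, 0, 0⟩⟩,
    ⟨⟨-2, 1, 0⟩, ⟨0, 0, 0⟩, ⟨0, 0, -2⟩⟩,
    ⟨⟨2, -1, 0⟩, ⟨2, -1, 0⟩, ⟨0, 0, 2⟩⟩,
    ⟨⟨2, -1, 0⟩, ⟨0, 0, 0⟩, ⟨0, 0, 2⟩⟩,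
    ⟨⟨-2, 1, 0⟩, ⟨-2, 1, 0⟩, ⟨0, 0, -2⟩⟩,
    ⟨⟨0, 0, 0⟩, ⟨-2, 1, 0⟩, ⟨0, 0, 2⟩⟩,
    ⟨⟨0, 0, 0⟩, ⟨-2, 1, 0⟩, ⟨0, 0, -2⟩⟩,
    ⟨⟨0, 0, 0⟩, ⟨2, -1, 0⟩, ⟨0, 0, -2⟩⟩,
    ⟨⟨0, 0, 0⟩, ⟨2, -1, 0⟩, ⟨0, 0, 2⟩⟩,
    ⟨⟨2, -1, 0⟩, ⟨2, -1, 0⟩, ⟨0, 0, -2⟩⟩,
    ⟨⟨-2, 1, 0⟩, ⟨0, 0, 0⟩, ⟨0, 0, 2⟩⟩,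
    ⟨⟨0, 0, 0⟩, ⟨0, 0, 0⟩, ⟨0, 0, 2⟩⟩,
    ⟨⟨-2, 1, 0⟩, ⟨-2, 1, 0⟩, ⟨0, 0, 2⟩⟩,
    ⟨⟨0, 0, 0⟩, ⟨0, 0, 0⟩, ⟨0, 0, -2⟩⟩,
    ⟨⟨2, -1, 0⟩, ⟨0, 0, 0⟩, ⟨0, 0, -2⟩⟩],
   [[(1, 0), (2, 0), (2, 1)],
    [(0, 0), (3, 0), (3, 2)],
    [(4, 0), (0, 3), (0, 0)],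
    [(5, 0), (1, 4), (1, 0)],
    [(2, 0), (6, 0), (6, 5)],
    [(3, 0), (7, 0), (7, 6)],
    [(8, 0), (4, 7), (4, 0)],
    [(9, 0), (5, 8), (5, 0)],
    [(6, 0), (10, 0), (10, 9)],
    [(7, 0), (11, 0), (11, 10)],
    [(11, 11), (8, 12), (8, 0)],
    [(10, 13), (9, 14), (9, 0)]]⟩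

def hexLat2 : List LatE :=
  [⟨⟨⟨1, 0, 0⟩, ⟨0, 1, 0⟩, ⟨0, 0, 1⟩⟩, 1, ⟨⟨0, 0, 0⟩, ⟨0, 0, 0⟩, ⟨0, 0, 0⟩⟩⟩]

def hexRow3 : Row :=
  ⟨[⟨⟨-1, 0, 0⟩, ⟨-1, 1, 0⟩, ⟨0, 0, -1⟩⟩], ⟨⟨1, -1, 0⟩, ⟨0, -1, 0⟩, ⟨0, 0, -1⟩⟩, ⟨⟨1, -1, 0⟩, ⟨0, -1, 0⟩, ⟨0, 0, -1⟩⟩, 2,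
   [⟨⟨⟨1, 0, 0⟩, ⟨0, 1, 0⟩, ⟨0, 0, 1⟩⟩, ⟨⟨0, 0, 0⟩, ⟨0, 0, 0⟩, ⟨0, 0, 0⟩⟩⟩,
    ⟨⟨⟨-1, 0, 0⟩, ⟨-1, 1, 0⟩, ⟨0, 0, -1⟩⟩, ⟨⟨0, 0, 0⟩, ⟨0, 0, 0⟩, ⟨0, 0, 0⟩⟩⟩,
    ⟨⟨⟨1, -1, 0⟩, ⟨0, -1, 0⟩, ⟨0, 0, -1⟩⟩, ⟨⟨1, 0, 0⟩, ⟨0, 1, 0⟩, ⟨0, 0, 1⟩⟩⟩,
    ⟨⟨⟨-1, 1, 0⟩, ⟨-1, 0, 0⟩, ⟨0, 0, 1⟩⟩, ⟨⟨-1, 0, 0⟩, ⟨-1, 1, 0⟩, ⟨0, 0, -1⟩⟩⟩,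
    ⟨⟨⟨0, -1, 0⟩, ⟨1, -1, 0⟩, ⟨0, 0, 1⟩⟩, ⟨⟨1, 0, 0⟩, ⟨0, 1, 0⟩, ⟨0, 0, 1⟩⟩⟩,
    ⟨⟨⟨0, 1, 0⟩, ⟨1, 0, 0⟩, ⟨0, 0, -1⟩⟩, ⟨⟨-1, 0, 0⟩, ⟨-1, 1, 0⟩, ⟨0, 0, -1⟩⟩⟩],
   [(0, 0), (0, 1), (1, 1), (2, 0), (3, 0)],
   [⟨⟨0, 0, 0⟩, ⟨0, 0, 0⟩, ⟨0, 0, 0⟩⟩,
    ⟨⟨-2, 1, 0⟩, ⟨0, 0, 0⟩, ⟨0, 0, 0⟩⟩,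
    ⟨⟨2, -1, 0⟩, ⟨2, -1, 0⟩, ⟨0, 0, 0⟩⟩,
    ⟨⟨2, -1, 0⟩, ⟨0, 0, 0⟩, ⟨0, 0, 0⟩⟩,
    ⟨⟨-2, 1, 0⟩, ⟨-2, 1, 0⟩, ⟨0, 0, 0⟩⟩,
    ⟨⟨2, -1, 0⟩, ⟨2, -1, 0⟩, ⟨0, 0, 3⟩⟩,
    ⟨⟨2, -1, 0⟩, ⟨0, 0, 0⟩, ⟨0, 0, 3⟩⟩,
    ⟨⟨-2, 1, 0⟩, ⟨0, 0, 0⟩, ⟨0, 0, -3⟩⟩,
    ⟨⟨-2, 1, 0⟩, ⟨-2, 1, 0⟩, ⟨0, 0, -3⟩⟩],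
   [[(1, 0), (2, 0), (2, 1)],
    [(0, 0), (3, 0), (3, 2)],
    [(4, 0), (0, 3), (0, 0)],
    [(5, 0), (1, 4), (1, 0)],
    [(2, 0), (5, 5), (5, 6)],
    [(3, 0), (4, 7), (4, 8)]]⟩

def hexLat3 : List LatE :=
  [⟨⟨⟨1, 0, 0⟩, ⟨0, 1, 0⟩, ⟨0, 0, 1⟩⟩, 1, ⟨⟨0, 0, 0⟩, ⟨0, 0, 0⟩, ⟨0, 0, 0⟩⟩⟩]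

def hexRow4 : Row :=
  ⟨[⟨⟨-1, 0, 0⟩, ⟨-1, 1, 0⟩, ⟨0, 0, 1⟩⟩], ⟨⟨1, -1, 0⟩, ⟨1, 0, 0⟩, ⟨0, 0, 1⟩⟩, ⟨⟨0, 1, 0⟩, ⟨-1, 1, 0⟩, ⟨0, 0, 1⟩⟩, 2,
   [⟨⟨⟨1, 0, 0⟩, ⟨0, 1, 0⟩, ⟨0, 0, 1⟩⟩, ⟨⟨0, 0, 0⟩, ⟨0, 0, 0⟩, ⟨0, 0, 0⟩⟩⟩,
    ⟨⟨⟨-1, 0, 0⟩, ⟨-1, 1, 0⟩, ⟨0, 0, 1⟩⟩, ⟨⟨0, 0, 0⟩, ⟨0, 0, 0⟩, ⟨0, 0, 0⟩⟩⟩,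
    ⟨⟨⟨1, -1, 0⟩, ⟨1, 0, 0⟩, ⟨0, 0, 1⟩⟩, ⟨⟨1, 0, 0⟩, ⟨0, 1, 0⟩, ⟨0, 0, 1⟩⟩⟩,
    ⟨⟨⟨0, 1, 0⟩, ⟨-1, 1, 0⟩, ⟨0, 0, 1⟩⟩, ⟨⟨0, -1, 0⟩, ⟨1, -1, 0⟩, ⟨0, 0, -1⟩⟩⟩,
    ⟨⟨⟨-1, 1, 0⟩, ⟨0, 1, 0⟩, ⟨0, 0, 1⟩⟩, ⟨⟨-1, 0, 0⟩, ⟨-1, 1, 0⟩, ⟨0, 0, 1⟩⟩⟩,
    ⟨⟨⟨0, -1, 0⟩, ⟨-1, 0, 0⟩, ⟨0, 0, 1⟩⟩, ⟨⟨0, 1, 0⟩, ⟨1, 0, 0⟩, ⟨0, 0, -1⟩⟩⟩,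
    ⟨⟨⟨0, -1, 0⟩, ⟨1, -1, 0⟩, ⟨0, 0, 1⟩⟩, ⟨⟨2, -1, 0⟩, ⟨1, 1, 0⟩, ⟨0, 0, 2⟩⟩⟩,
    ⟨⟨⟨-1, 1, 0⟩, ⟨-1, 0, 0⟩, ⟨0, 0, 1⟩⟩, ⟨⟨1, -2, 0⟩, ⟨2, -1, 0⟩, ⟨0, 0, -2⟩⟩⟩,
    ⟨⟨⟨0, 1, 0⟩, ⟨1, 0, 0⟩, ⟨0, 0, 1⟩⟩, ⟨⟨-2, 1, 0⟩, ⟨-1, 2, 0⟩, ⟨0, 0, 2⟩⟩⟩,
    ⟨⟨⟨1, -1, 0⟩, ⟨0, -1, 0⟩, ⟨0, 0, 1⟩⟩, ⟨⟨-1, 2, 0⟩, ⟨1, 1, 0⟩, ⟨0, 0, -2⟩⟩⟩,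
    ⟨⟨⟨-1, 0, 0⟩, ⟨0, -1, 0⟩, ⟨0, 0, 1⟩⟩, ⟨⟨2, -2, 0⟩, ⟨2, 0, 0⟩, ⟨0, 0, 3⟩⟩⟩,
    ⟨⟨⟨1, 0, 0⟩, ⟨1, -1, 0⟩, ⟨0, 0, 1⟩⟩, ⟨⟨-2, 2, 0⟩, ⟨0, 2, 0⟩, ⟨0, 0, 3⟩⟩⟩],
   [(0, 0), (0, 1), (0, 2), (1, 1), (1, 2), (2, 1), (3, 2), (4, 1), (5, 2), (6, 1), (8, 1)],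
   [⟨⟨0, 0, 0⟩, ⟨0, 0, 0⟩, ⟨0, 0, 0⟩⟩,
    ⟨⟨1, -1, 0⟩, ⟨-1, 1, 0⟩, ⟨0, 0, 2⟩⟩,
    ⟨⟨1, -1, 0⟩, ⟨2, -2, 0⟩, ⟨0, 0, -2⟩⟩,
    ⟨⟨-1, 1, 0⟩, ⟨-2, 2, 0⟩, ⟨0, 0, 2⟩⟩,
    ⟨⟨-1, 1, 0⟩, ⟨1, -1, 0⟩, ⟨0, 0, -2⟩⟩,
    ⟨⟨3, -3, 0⟩, ⟨0, 0, 0⟩, ⟨0, 0, 4⟩⟩,
    ⟨⟨3, -3, 0⟩, ⟨3, -3, 0⟩, ⟨0, 0, -4⟩⟩,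
    ⟨⟨0, 0, 0⟩, ⟨0, 0, 0⟩, ⟨0, 0, -6⟩⟩,
    ⟨⟨-3, 3, 0⟩, ⟨-3, 3, 0⟩, ⟨0, 0, 4⟩⟩,
    ⟨⟨-3, 3, 0⟩, ⟨0, 0, 0⟩, ⟨0, 0, -4⟩⟩,
    ⟨⟨4, -4, 0⟩, ⟨2, -2, 0⟩, ⟨0, 0, 0⟩⟩,
    ⟨⟨0, 0, 0⟩, ⟨0, 0, 0⟩, ⟨0, 0, 6⟩⟩,
    ⟨⟨-4, 4, 0⟩, ⟨-2, 2, 0⟩, ⟨0, 0, 0⟩⟩],
   [[(1, 0), (2, 0), (3, 0)],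
    [(0, 0), (4, 0), (5, 0)],
    [(5, 1), (6, 0), (0, 0)],
    [(4, 2), (0, 0), (7, 0)],
    [(3, 3), (8, 0), (1, 0)],
    [(2, 4), (1, 0), (9, 0)],
    [(9, 5), (10, 0), (2, 0)],
    [(8, 6), (3, 0), (10, 7)],
    [(7, 8), (11, 0), (4, 0)],
    [(6, 9), (5, 0), (11, 7)],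
    [(11, 10), (7, 11), (6, 0)],
    [(10, 12), (9, 11), (8, 0)]]⟩

def hexLat4 : List LatE :=
  [⟨⟨⟨3, 0, 0⟩, ⟨-2, 1, 0⟩, ⟨0, 0, 3⟩⟩, 3, ⟨⟨0, 0, 0⟩, ⟨0, 0, 0⟩, ⟨0, 0, 0⟩⟩⟩]

def hexRow5 : Row :=
  ⟨[⟨⟨-1, 0, 0⟩, ⟨-1, 1, 0⟩, ⟨0, 0, 1⟩⟩], ⟨⟨1, -1, 0⟩, ⟨1, 0, 0⟩, ⟨0, 0, -1⟩⟩, ⟨⟨0, 1, 0⟩, ⟨-1, 1, 0⟩, ⟨0, 0, -1⟩⟩, 2,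
   [⟨⟨⟨1, 0, 0⟩, ⟨0, 1, 0⟩, ⟨0, 0, 1⟩⟩, ⟨⟨0, 0, 0⟩, ⟨0, 0, 0⟩, ⟨0, 0, 0⟩⟩⟩,
    ⟨⟨⟨-1, 0, 0⟩, ⟨-1, 1, 0⟩, ⟨0, 0, 1⟩⟩, ⟨⟨0, 0, 0⟩, ⟨0, 0, 0⟩, ⟨0, 0, 0⟩⟩⟩,
    ⟨⟨⟨1, -1, 0⟩, ⟨1, 0, 0⟩, ⟨0, 0, -1⟩⟩, ⟨⟨1, 0, 0⟩, ⟨0, 1, 0⟩, ⟨0, 0, 1⟩⟩⟩,
    ⟨⟨⟨0, 1, 0⟩, ⟨-1, 1, 0⟩, ⟨0, 0, -1⟩⟩, ⟨⟨0, -1, 0⟩, ⟨1, -1, 0⟩, ⟨0, 0, 1⟩⟩⟩,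
    ⟨⟨⟨-1, 1, 0⟩, ⟨0, 1, 0⟩, ⟨0, 0, -1⟩⟩, ⟨⟨-1, 0, 0⟩, ⟨-1, 1, 0⟩, ⟨0, 0, 1⟩⟩⟩,
    ⟨⟨⟨0, -1, 0⟩, ⟨-1, 0, 0⟩, ⟨0, 0, -1⟩⟩, ⟨⟨0, 1, 0⟩, ⟨1, 0, 0⟩, ⟨0, 0, 1⟩⟩⟩,
    ⟨⟨⟨0, -1, 0⟩, ⟨1, -1, 0⟩, ⟨0, 0, 1⟩⟩, ⟨⟨2, -1, 0⟩, ⟨1, 1, 0⟩, ⟨0, 0, 0⟩⟩⟩,
    ⟨⟨⟨-1, 1, 0⟩, ⟨-1, 0, 0⟩, ⟨0, 0, 1⟩⟩, ⟨⟨1, -2, 0⟩, ⟨2, -1, 0⟩, ⟨0, 0, 0⟩⟩⟩,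
    ⟨⟨⟨0, 1, 0⟩, ⟨1, 0, 0⟩, ⟨0, 0, 1⟩⟩, ⟨⟨-2, 1, 0⟩, ⟨-1, 2, 0⟩, ⟨0, 0, 0⟩⟩⟩,
    ⟨⟨⟨1, -1, 0⟩, ⟨0, -1, 0⟩, ⟨0, 0, 1⟩⟩, ⟨⟨-1, 2, 0⟩, ⟨1, 1, 0⟩, ⟨0, 0, 0⟩⟩⟩,
    ⟨⟨⟨-1, 0, 0⟩, ⟨0, -1, 0⟩, ⟨0, 0, -1⟩⟩, ⟨⟨2, -2, 0⟩, ⟨2, 0, 0⟩, ⟨0, 0, 1⟩⟩⟩,
    ⟨⟨⟨1, 0, 0⟩, ⟨1, -1, 0⟩, ⟨0, 0, -1⟩⟩, ⟨⟨-2, 2, 0⟩, ⟨0, 2, 0⟩, ⟨0, 0, 1⟩⟩⟩],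
   [(0, 0), (0, 1), (0, 2), (1, 1), (1, 2), (2, 1), (3, 2), (4, 1), (5, 2), (6, 1), (8, 1)],
   [⟨⟨0, 0, 0⟩, ⟨0, 0, 0⟩, ⟨0, 0, 0⟩⟩,
    ⟨⟨1, -1, 0⟩, ⟨-1, 1, 0⟩, ⟨0, 0, 0⟩⟩,
    ⟨⟨1, -1, 0⟩, ⟨2, -2, 0⟩, ⟨0, 0, 0⟩⟩,
    ⟨⟨-1, 1, 0⟩, ⟨-2, 2, 0⟩, ⟨0, 0, 0⟩⟩,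
    ⟨⟨-1, 1, 0⟩, ⟨1, -1, 0⟩, ⟨0, 0, 0⟩⟩,
    ⟨⟨3, -3, 0⟩, ⟨0, 0, 0⟩, ⟨0, 0, 0⟩⟩,
    ⟨⟨3, -3, 0⟩, ⟨3, -3, 0⟩, ⟨0, 0, 0⟩⟩,
    ⟨⟨-3, 3, 0⟩, ⟨-3, 3, 0⟩, ⟨0, 0, 0⟩⟩,
    ⟨⟨-3, 3, 0⟩, ⟨0, 0, 0⟩, ⟨0, 0, 0⟩⟩,
    ⟨⟨4, -4, 0⟩, ⟨2, -2, 0⟩, ⟨0, 0, 0⟩⟩,
    ⟨⟨-4, 4, 0⟩, ⟨-2, 2, 0⟩, ⟨0, 0, 0⟩⟩],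
   [[(1, 0), (2, 0), (3, 0)],
    [(0, 0), (4, 0), (5, 0)],
    [(5, 1), (6, 0), (0, 0)],
    [(4, 2), (0, 0), (7, 0)],
    [(3, 3), (8, 0), (1, 0)],
    [(2, 4), (1, 0), (9, 0)],
    [(9, 5), (10, 0), (2, 0)],
    [(8, 6), (3, 0), (10, 0)],
    [(7, 7), (11, 0), (4, 0)],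
    [(6, 8), (5, 0), (11, 0)],
    [(11, 9), (7, 0), (6, 0)],
    [(10, 10), (9, 0), (8, 0)]]⟩

def hexLat5 : List LatE :=
  [⟨⟨⟨3, 0, 0⟩, ⟨-2, 1, 0⟩, ⟨0, 0, 3⟩⟩, 3, ⟨⟨0, 0, 1⟩, ⟨0, 0, 0⟩, ⟨0, 0, 0⟩⟩⟩]

def hexRow6 : Row :=
  ⟨[⟨⟨-1, 0, 0⟩, ⟨-1, 1, 0⟩, ⟨0, 0, 1⟩⟩], ⟨⟨1, -1, 0⟩, ⟨0, -1, 0⟩, ⟨0, 0, 1⟩⟩, ⟨⟨1, -1, 0⟩, ⟨0, -1, 0⟩, ⟨0, 0, 1⟩⟩, 2,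
   [⟨⟨⟨1, 0, 0⟩, ⟨0, 1, 0⟩, ⟨0, 0, 1⟩⟩, ⟨⟨0, 0, 0⟩, ⟨0, 0, 0⟩, ⟨0, 0, 0⟩⟩⟩,
    ⟨⟨⟨-1, 0, 0⟩, ⟨-1, 1, 0⟩, ⟨0, 0, 1⟩⟩, ⟨⟨0, 0, 0⟩, ⟨0, 0, 0⟩, ⟨0, 0, 0⟩⟩⟩,
    ⟨⟨⟨1, -1, 0⟩, ⟨0, -1, 0⟩, ⟨0, 0, 1⟩⟩, ⟨⟨1, 0, 0⟩, ⟨0, 1, 0⟩, ⟨0, 0, 1⟩⟩⟩,
    ⟨⟨⟨-1, 1, 0⟩, ⟨-1, 0, 0⟩, ⟨0, 0, 1⟩⟩, ⟨⟨-1, 0, 0⟩, ⟨-1, 1, 0⟩, ⟨0, 0, 1⟩⟩⟩,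
    ⟨⟨⟨0, -1, 0⟩, ⟨1, -1, 0⟩, ⟨0, 0, 1⟩⟩, ⟨⟨1, 0, 0⟩, ⟨0, 1, 0⟩, ⟨0, 0, 1⟩⟩⟩,
    ⟨⟨⟨0, 1, 0⟩, ⟨1, 0, 0⟩, ⟨0, 0, 1⟩⟩, ⟨⟨-1, 0, 0⟩, ⟨-1, 1, 0⟩, ⟨0, 0, 1⟩⟩⟩],
   [(0, 0), (0, 1), (1, 1), (2, 0), (3, 0)],
   [⟨⟨0, 0, 0⟩, ⟨0, 0, 0⟩, ⟨0, 0, 0⟩⟩,
    ⟨⟨-2, 1, 0⟩, ⟨0, 0, 0⟩, ⟨0, 0, -2⟩⟩,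
    ⟨⟨2, -1, 0⟩, ⟨2, -1, 0⟩, ⟨0, 0, -2⟩⟩,
    ⟨⟨2, -1, 0⟩, ⟨0, 0, 0⟩, ⟨0, 0, 2⟩⟩,
    ⟨⟨-2, 1, 0⟩, ⟨-2, 1, 0⟩, ⟨0, 0, 2⟩⟩,
    ⟨⟨2, -1, 0⟩, ⟨2, -1, 0⟩, ⟨0, 0, 1⟩⟩,
    ⟨⟨2, -1, 0⟩, ⟨0, 0, 0⟩, ⟨0, 0, -1⟩⟩,
    ⟨⟨-2, 1, 0⟩, ⟨0, 0, 0⟩, ⟨0, 0, 1⟩⟩,
    ⟨⟨-2, 1, 0⟩, ⟨-2, 1, 0⟩, ⟨0, 0, -1⟩⟩],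
   [[(1, 0), (2, 0), (2, 1)],
    [(0, 0), (3, 0), (3, 2)],
    [(4, 0), (0, 3), (0, 0)],
    [(5, 0), (1, 4), (1, 0)],
    [(2, 0), (5, 5), (5, 6)],
    [(3, 0), (4, 7), (4, 8)]]⟩

def hexLat6 : List LatE :=
  [⟨⟨⟨3, 0, 0⟩, ⟨0, 3, 0⟩, ⟨-2, -2, 1⟩⟩, 3, ⟨⟨0, 0, 0⟩, ⟨0, 0, 0⟩, ⟨0, 0, 0⟩⟩⟩]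

def hexRow7 : Row :=
  ⟨[⟨⟨-1, 0, 0⟩, ⟨-1, 1, 0⟩, ⟨0, 0, 1⟩⟩], ⟨⟨1, -1, 0⟩, ⟨0, -1, 0⟩, ⟨0, 0, -1⟩⟩, ⟨⟨1, -1, 0⟩, ⟨0, -1, 0⟩, ⟨0, 0, -1⟩⟩, 2,
   [⟨⟨⟨1, 0, 0⟩, ⟨0, 1, 0⟩, ⟨0, 0, 1⟩⟩, ⟨⟨0, 0, 0⟩, ⟨0, 0, 0⟩, ⟨0, 0, 0⟩⟩⟩,
    ⟨⟨⟨-1, 0, 0⟩, ⟨-1, 1, 0⟩, ⟨0, 0, 1⟩⟩, ⟨⟨0, 0, 0⟩, ⟨0, 0, 0⟩, ⟨0, 0, 0⟩⟩⟩,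
    ⟨⟨⟨1, -1, 0⟩, ⟨0, -1, 0⟩, ⟨0, 0, -1⟩⟩, ⟨⟨1, 0, 0⟩, ⟨0, 1, 0⟩, ⟨0, 0, 1⟩⟩⟩,
    ⟨⟨⟨-1, 1, 0⟩, ⟨-1, 0, 0⟩, ⟨0, 0, -1⟩⟩, ⟨⟨-1, 0, 0⟩, ⟨-1, 1, 0⟩, ⟨0, 0, 1⟩⟩⟩,
    ⟨⟨⟨0, -1, 0⟩, ⟨1, -1, 0⟩, ⟨0, 0, -1⟩⟩, ⟨⟨1, 0, 0⟩, ⟨0, 1, 0⟩, ⟨0, 0, 1⟩⟩⟩,
    ⟨⟨⟨0, 1, 0⟩, ⟨1, 0, 0⟩, ⟨0, 0, -1⟩⟩, ⟨⟨-1, 0, 0⟩, ⟨-1, 1, 0⟩, ⟨0, 0, 1⟩⟩⟩,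
    ⟨⟨⟨0, 1, 0⟩, ⟨1, 0, 0⟩, ⟨0, 0, 1⟩⟩, ⟨⟨1, -1, 0⟩, ⟨1, 0, 0⟩, ⟨0, 0, 0⟩⟩⟩,
    ⟨⟨⟨0, -1, 0⟩, ⟨1, -1, 0⟩, ⟨0, 0, 1⟩⟩, ⟨⟨-1, 1, 0⟩, ⟨0, 1, 0⟩, ⟨0, 0, 0⟩⟩⟩,
    ⟨⟨⟨-1, 1, 0⟩, ⟨-1, 0, 0⟩, ⟨0, 0, 1⟩⟩, ⟨⟨1, -1, 0⟩, ⟨1, 0, 0⟩, ⟨0, 0, 0⟩⟩⟩,
    ⟨⟨⟨1, -1, 0⟩, ⟨0, -1, 0⟩, ⟨0, 0, 1⟩⟩, ⟨⟨-1, 1, 0⟩, ⟨0, 1, 0⟩, ⟨0, 0, 0⟩⟩⟩,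
    ⟨⟨⟨-1, 0, 0⟩, ⟨-1, 1, 0⟩, ⟨0, 0, -1⟩⟩, ⟨⟨0, 0, 0⟩, ⟨0, 0, 0⟩, ⟨0, 0, 1⟩⟩⟩,
    ⟨⟨⟨1, 0, 0⟩, ⟨0, 1, 0⟩, ⟨0, 0, -1⟩⟩, ⟨⟨0, 0, 0⟩, ⟨0, 0, 0⟩, ⟨0, 0, 1⟩⟩⟩],
   [(0, 0), (0, 1), (1, 1), (2, 0), (3, 0), (4, 1), (5, 1), (6, 0), (7, 0), (8, 1), (9, 1)],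
   [⟨⟨0, 0, 0⟩, ⟨0, 0, 0⟩, ⟨0, 0, 0⟩⟩,
    ⟨⟨-2, 1, 0⟩, ⟨0, 0, 0⟩, ⟨0, 0, 0⟩⟩,
    ⟨⟨2, -1, 0⟩, ⟨2, -1, 0⟩, ⟨0, 0, 0⟩⟩,
    ⟨⟨2, -1, 0⟩, ⟨0, 0, 0⟩, ⟨0, 0, 0⟩⟩,
    ⟨⟨-2, 1, 0⟩, ⟨-2, 1, 0⟩, ⟨0, 0, 0⟩⟩,
    ⟨⟨0, 0, 0⟩, ⟨-2, 1, 0⟩, ⟨0, 0, 0⟩⟩,
    ⟨⟨0, 0, 0⟩, ⟨2, -1, 0⟩, ⟨0, 0, 0⟩⟩],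
   [[(1, 0), (2, 0), (2, 1)],
    [(0, 0), (3, 0), (3, 2)],
    [(4, 0), (0, 3), (0, 0)],
    [(5, 0), (1, 4), (1, 0)],
    [(2, 0), (6, 0), (6, 5)],
    [(3, 0), (7, 0), (7, 5)],
    [(8, 0), (4, 6), (4, 0)],
    [(9, 0), (5, 6), (5, 0)],
    [(6, 0), (10, 0), (10, 2)],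
    [(7, 0), (11, 0), (11, 1)],
    [(11, 0), (8, 4), (8, 0)],
    [(10, 0), (9, 3), (9, 0)]]⟩

def hexLat7 : List LatE :=
  [⟨⟨⟨1, 0, 0⟩, ⟨0, 1, 0⟩, ⟨0, 0, 1⟩⟩, 1, ⟨⟨0, 0, 1⟩, ⟨0, 0, 0⟩, ⟨0, 0, 0⟩⟩⟩]

def hexRow8 : Row :=
  ⟨[⟨⟨-1, 0, 0⟩, ⟨0, -1, 0⟩, ⟨0, 0, -1⟩⟩], ⟨⟨1, -1, 0⟩, ⟨1, 0, 0⟩, ⟨0, 0, 1⟩⟩, ⟨⟨0, 1, 0⟩, ⟨-1, 1, 0⟩, ⟨0, 0, 1⟩⟩, 2,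
   [⟨⟨⟨1, 0, 0⟩, ⟨0, 1, 0⟩, ⟨0, 0, 1⟩⟩, ⟨⟨0, 0, 0⟩, ⟨0, 0, 0⟩, ⟨0, 0, 0⟩⟩⟩,
    ⟨⟨⟨-1, 0, 0⟩, ⟨0, -1, 0⟩, ⟨0, 0, -1⟩⟩, ⟨⟨0, 0, 0⟩, ⟨0, 0, 0⟩, ⟨0, 0, 0⟩⟩⟩,
    ⟨⟨⟨1, -1, 0⟩, ⟨1, 0, 0⟩, ⟨0, 0, 1⟩⟩, ⟨⟨1, 0, 0⟩, ⟨0, 1, 0⟩, ⟨0, 0, 1⟩⟩⟩,
    ⟨⟨⟨0, 1, 0⟩, ⟨-1, 1, 0⟩, ⟨0, 0, 1⟩⟩, ⟨⟨0, -1, 0⟩, ⟨1, -1, 0⟩, ⟨0, 0, -1⟩⟩⟩,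
    ⟨⟨⟨-1, 1, 0⟩, ⟨-1, 0, 0⟩, ⟨0, 0, -1⟩⟩, ⟨⟨-1, 0, 0⟩, ⟨0, -1, 0⟩, ⟨0, 0, -1⟩⟩⟩,
    ⟨⟨⟨0, -1, 0⟩, ⟨1, -1, 0⟩, ⟨0, 0, -1⟩⟩, ⟨⟨0, 1, 0⟩, ⟨-1, 1, 0⟩, ⟨0, 0, 1⟩⟩⟩,
    ⟨⟨⟨0, -1, 0⟩, ⟨1, -1, 0⟩, ⟨0, 0, 1⟩⟩, ⟨⟨2, -1, 0⟩, ⟨1, 1, 0⟩, ⟨0, 0, 2⟩⟩⟩,
    ⟨⟨⟨-1, 1, 0⟩, ⟨-1, 0, 0⟩, ⟨0, 0, 1⟩⟩, ⟨⟨1, -2, 0⟩, ⟨2, -1, 0⟩, ⟨0, 0, -2⟩⟩⟩,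
    ⟨⟨⟨0, 1, 0⟩, ⟨-1, 1, 0⟩, ⟨0, 0, -1⟩⟩, ⟨⟨-2, 1, 0⟩, ⟨-1, -1, 0⟩, ⟨0, 0, -2⟩⟩⟩,
    ⟨⟨⟨1, -1, 0⟩, ⟨1, 0, 0⟩, ⟨0, 0, -1⟩⟩, ⟨⟨-1, 2, 0⟩, ⟨-2, 1, 0⟩, ⟨0, 0, 2⟩⟩⟩,
    ⟨⟨⟨-1, 0, 0⟩, ⟨0, -1, 0⟩, ⟨0, 0, 1⟩⟩, ⟨⟨2, -2, 0⟩, ⟨2, 0, 0⟩, ⟨0, 0, 3⟩⟩⟩,
    ⟨⟨⟨1, 0, 0⟩, ⟨0, 1, 0⟩, ⟨0, 0, -1⟩⟩, ⟨⟨-2, 2, 0⟩, ⟨-2, 0, 0⟩, ⟨0, 0, -3⟩⟩⟩],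
   [(0, 0), (0, 1), (0, 2), (1, 1), (1, 2), (2, 1), (3, 2), (4, 1), (5, 2), (6, 1), (8, 1)],
   [⟨⟨0, 0, 0⟩, ⟨0, 0, 0⟩, ⟨0, 0, 0⟩⟩,
    ⟨⟨2, 0, 0⟩, ⟨0, 2, 0⟩, ⟨0, 0, 2⟩⟩,
    ⟨⟨0, -2, 0⟩, ⟨2, -2, 0⟩, ⟨0, 0, -2⟩⟩,
    ⟨⟨-2, 0, 0⟩, ⟨0, -2, 0⟩, ⟨0, 0, -2⟩⟩,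
    ⟨⟨0, 2, 0⟩, ⟨-2, 2, 0⟩, ⟨0, 0, 2⟩⟩,
    ⟨⟨4, -2, 0⟩, ⟨2, 2, 0⟩, ⟨0, 0, 4⟩⟩,
    ⟨⟨2, -4, 0⟩, ⟨4, -2, 0⟩, ⟨0, 0, -4⟩⟩,
    ⟨⟨0, 0, 0⟩, ⟨0, 0, 0⟩, ⟨0, 0, -6⟩⟩,
    ⟨⟨-4, 2, 0⟩, ⟨-2, -2, 0⟩, ⟨0, 0, -4⟩⟩,
    ⟨⟨-2, 4, 0⟩, ⟨-4, 2, 0⟩, ⟨0, 0, 4⟩⟩,
    ⟨⟨0, 0, 0⟩, ⟨0, 0, 0⟩, ⟨0, 0, 6⟩⟩,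
    ⟨⟨4, -4, 0⟩, ⟨4, 0, 0⟩, ⟨0, 0, 6⟩⟩,
    ⟨⟨-4, 4, 0⟩, ⟨-4, 0, 0⟩, ⟨0, 0, -6⟩⟩],
   [[(1, 0), (2, 0), (3, 0)],
    [(0, 0), (4, 0), (5, 0)],
    [(4, 1), (6, 0), (0, 0)],
    [(5, 2), (0, 0), (7, 0)],
    [(2, 3), (8, 0), (1, 0)],
    [(3, 4), (1, 0), (9, 0)],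
    [(8, 5), (10, 0), (2, 0)],
    [(9, 6), (3, 0), (10, 7)],
    [(6, 8), (11, 0), (4, 0)],
    [(7, 9), (5, 0), (11, 10)],
    [(11, 11), (7, 10), (6, 0)],
    [(10, 12), (9, 7), (8, 0)]]⟩

def hexLat8 : List LatE :=
  [⟨⟨⟨1, 0, 0⟩, ⟨0, 1, 0⟩, ⟨0, 0, 2⟩⟩, 2, ⟨⟨0, 0, 0⟩, ⟨0, 0, 0⟩, ⟨0, 0, 0⟩⟩⟩]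

def hexRow9 : Row :=
  ⟨[⟨⟨-1, 0, 0⟩, ⟨0, -1, 0⟩, ⟨0, 0, -1⟩⟩], ⟨⟨1, -1, 0⟩, ⟨1, 0, 0⟩, ⟨0, 0, -1⟩⟩, ⟨⟨0, 1, 0⟩, ⟨-1, 1, 0⟩, ⟨0, 0, -1⟩⟩, 2,
   [⟨⟨⟨1, 0, 0⟩, ⟨0, 1, 0⟩, ⟨0, 0, 1⟩⟩, ⟨⟨0, 0, 0⟩, ⟨0, 0, 0⟩, ⟨0, 0, 0⟩⟩⟩,
    ⟨⟨⟨-1, 0, 0⟩, ⟨0, -1, 0⟩, ⟨0, 0, -1⟩⟩, ⟨⟨0, 0, 0⟩, ⟨0, 0, 0⟩, ⟨0, 0, 0⟩⟩⟩,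
    ⟨⟨⟨1, -1, 0⟩, ⟨1, 0, 0⟩, ⟨0, 0, -1⟩⟩, ⟨⟨1, 0, 0⟩, ⟨0, 1, 0⟩, ⟨0, 0, 1⟩⟩⟩,
    ⟨⟨⟨0, 1, 0⟩, ⟨-1, 1, 0⟩, ⟨0, 0, -1⟩⟩, ⟨⟨0, -1, 0⟩, ⟨1, -1, 0⟩, ⟨0, 0, 1⟩⟩⟩,
    ⟨⟨⟨-1, 1, 0⟩, ⟨-1, 0, 0⟩, ⟨0, 0, 1⟩⟩, ⟨⟨-1, 0, 0⟩, ⟨0, -1, 0⟩, ⟨0, 0, -1⟩⟩⟩,
    ⟨⟨⟨0, -1, 0⟩, ⟨1, -1, 0⟩, ⟨0, 0, 1⟩⟩, ⟨⟨0, 1, 0⟩, ⟨-1, 1, 0⟩, ⟨0, 0, -1⟩⟩⟩],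
   [(0, 0), (0, 1), (0, 2), (1, 1), (1, 2)],
   [⟨⟨0, 0, 0⟩, ⟨0, 0, 0⟩, ⟨0, 0, 0⟩⟩,
    ⟨⟨2, 0, 0⟩, ⟨0, 2, 0⟩, ⟨0, 0, 2⟩⟩,
    ⟨⟨2, -2, 0⟩, ⟨2, 0, 0⟩, ⟨0, 0, 1⟩⟩,
    ⟨⟨0, -2, 0⟩, ⟨2, -2, 0⟩, ⟨0, 0, 2⟩⟩,
    ⟨⟨-2, 0, 0⟩, ⟨0, -2, 0⟩, ⟨0, 0, -2⟩⟩,
    ⟨⟨-2, 2, 0⟩, ⟨-2, 0, 0⟩, ⟨0, 0, -1⟩⟩,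
    ⟨⟨0, 2, 0⟩, ⟨-2, 2, 0⟩, ⟨0, 0, -2⟩⟩],
   [[(1, 0), (2, 0), (3, 0)],
    [(0, 0), (4, 0), (5, 0)],
    [(4, 1), (5, 2), (0, 0)],
    [(5, 3), (0, 0), (4, 2)],
    [(2, 4), (3, 5), (1, 0)],
    [(3, 6), (1, 0), (2, 5)]]⟩

def hexLat9 : List LatE :=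
  [⟨⟨⟨3, 0, 0⟩, ⟨0, 3, 0⟩, ⟨-2, -2, 2⟩⟩, 6, ⟨⟨0, 0, 0⟩, ⟨0, 0, 0⟩, ⟨0, 0, 0⟩⟩⟩]

def hexRow10 : Row :=
  ⟨[⟨⟨-1, 0, 0⟩, ⟨0, -1, 0⟩, ⟨0, 0, 1⟩⟩], ⟨⟨1, -1, 0⟩, ⟨1, 0, 0⟩, ⟨0, 0, 1⟩⟩, ⟨⟨0, 1, 0⟩, ⟨-1, 1, 0⟩, ⟨0, 0, 1⟩⟩, 2,
   [⟨⟨⟨1, 0, 0⟩, ⟨0, 1, 0⟩, ⟨0, 0, 1⟩⟩, ⟨⟨0, 0, 0⟩, ⟨0, 0, 0⟩, ⟨0, 0, 0⟩⟩⟩,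
    ⟨⟨⟨-1, 0, 0⟩, ⟨0, -1, 0⟩, ⟨0, 0, 1⟩⟩, ⟨⟨0, 0, 0⟩, ⟨0, 0, 0⟩, ⟨0, 0, 0⟩⟩⟩,
    ⟨⟨⟨1, -1, 0⟩, ⟨1, 0, 0⟩, ⟨0, 0, 1⟩⟩, ⟨⟨1, 0, 0⟩, ⟨0, 1, 0⟩, ⟨0, 0, 1⟩⟩⟩,
    ⟨⟨⟨0, 1, 0⟩, ⟨-1, 1, 0⟩, ⟨0, 0, 1⟩⟩, ⟨⟨0, -1, 0⟩, ⟨1, -1, 0⟩, ⟨0, 0, -1⟩⟩⟩,
    ⟨⟨⟨-1, 1, 0⟩, ⟨-1, 0, 0⟩, ⟨0, 0, 1⟩⟩, ⟨⟨-1, 0, 0⟩, ⟨0, -1, 0⟩, ⟨0, 0, 1⟩⟩⟩,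
    ⟨⟨⟨0, -1, 0⟩, ⟨1, -1, 0⟩, ⟨0, 0, 1⟩⟩, ⟨⟨0, 1, 0⟩, ⟨-1, 1, 0⟩, ⟨0, 0, -1⟩⟩⟩],
   [(0, 0), (0, 1), (0, 2), (1, 1), (1, 2)],
   [⟨⟨0, 0, 0⟩, ⟨0, 0, 0⟩, ⟨0, 0, 0⟩⟩,
    ⟨⟨2, 0, 0⟩, ⟨0, 2, 0⟩, ⟨0, 0, 0⟩⟩,
    ⟨⟨2, -2, 0⟩, ⟨2, 0, 0⟩, ⟨0, 0, 3⟩⟩,
    ⟨⟨0, -2, 0⟩, ⟨2, -2, 0⟩, ⟨0, 0, 0⟩⟩,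
    ⟨⟨2, -2, 0⟩, ⟨2, 0, 0⟩, ⟨0, 0, -3⟩⟩,
    ⟨⟨-2, 0, 0⟩, ⟨0, -2, 0⟩, ⟨0, 0, 0⟩⟩,
    ⟨⟨-2, 2, 0⟩, ⟨-2, 0, 0⟩, ⟨0, 0, 3⟩⟩,
    ⟨⟨0, 2, 0⟩, ⟨-2, 2, 0⟩, ⟨0, 0, 0⟩⟩,
    ⟨⟨-2, 2, 0⟩, ⟨-2, 0, 0⟩, ⟨0, 0, -3⟩⟩],
   [[(1, 0), (2, 0), (3, 0)],
    [(0, 0), (4, 0), (5, 0)],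
    [(4, 1), (5, 2), (0, 0)],
    [(5, 3), (0, 0), (4, 4)],
    [(2, 5), (3, 6), (1, 0)],
    [(3, 7), (1, 0), (2, 8)]]⟩

def hexLat10 : List LatE :=
  [⟨⟨⟨1, 0, 0⟩, ⟨0, 1, 0⟩, ⟨0, 0, 2⟩⟩, 2, ⟨⟨0, 0, 0⟩, ⟨0, 0, 0⟩, ⟨0, 0, 0⟩⟩⟩]

def hexRow11 : Row :=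
  ⟨[⟨⟨-1, 0, 0⟩, ⟨0, -1, 0⟩, ⟨0, 0, 1⟩⟩], ⟨⟨1, -1, 0⟩, ⟨1, 0, 0⟩, ⟨0, 0, -1⟩⟩, ⟨⟨0, 1, 0⟩, ⟨-1, 1, 0⟩, ⟨0, 0, -1⟩⟩, 2,
   [⟨⟨⟨1, 0, 0⟩, ⟨0, 1, 0⟩, ⟨0, 0, 1⟩⟩, ⟨⟨0, 0, 0⟩, ⟨0, 0, 0⟩, ⟨0, 0, 0⟩⟩⟩,
    ⟨⟨⟨-1, 0, 0⟩, ⟨0, -1, 0⟩, ⟨0, 0, 1⟩⟩, ⟨⟨0, 0, 0⟩, ⟨0, 0, 0⟩, ⟨0, 0, 0⟩⟩⟩,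
    ⟨⟨⟨1, -1, 0⟩, ⟨1, 0, 0⟩, ⟨0, 0, -1⟩⟩, ⟨⟨1, 0, 0⟩, ⟨0, 1, 0⟩, ⟨0, 0, 1⟩⟩⟩,
    ⟨⟨⟨0, 1, 0⟩, ⟨-1, 1, 0⟩, ⟨0, 0, -1⟩⟩, ⟨⟨0, -1, 0⟩, ⟨1, -1, 0⟩, ⟨0, 0, 1⟩⟩⟩,
    ⟨⟨⟨-1, 1, 0⟩, ⟨-1, 0, 0⟩, ⟨0, 0, -1⟩⟩, ⟨⟨-1, 0, 0⟩, ⟨0, -1, 0⟩, ⟨0, 0, 1⟩⟩⟩,
    ⟨⟨⟨0, -1, 0⟩, ⟨1, -1, 0⟩, ⟨0, 0, -1⟩⟩, ⟨⟨0, 1, 0⟩, ⟨-1, 1, 0⟩, ⟨0, 0, 1⟩⟩⟩,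
    ⟨⟨⟨0, -1, 0⟩, ⟨1, -1, 0⟩, ⟨0, 0, 1⟩⟩, ⟨⟨2, -1, 0⟩, ⟨1, 1, 0⟩, ⟨0, 0, 0⟩⟩⟩,
    ⟨⟨⟨-1, 1, 0⟩, ⟨-1, 0, 0⟩, ⟨0, 0, 1⟩⟩, ⟨⟨1, -2, 0⟩, ⟨2, -1, 0⟩, ⟨0, 0, 0⟩⟩⟩,
    ⟨⟨⟨0, 1, 0⟩, ⟨-1, 1, 0⟩, ⟨0, 0, 1⟩⟩, ⟨⟨-2, 1, 0⟩, ⟨-1, -1, 0⟩, ⟨0, 0, 0⟩⟩⟩,
    ⟨⟨⟨1, -1, 0⟩, ⟨1, 0, 0⟩, ⟨0, 0, 1⟩⟩, ⟨⟨-1, 2, 0⟩, ⟨-2, 1, 0⟩, ⟨0, 0, 0⟩⟩⟩,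
    ⟨⟨⟨-1, 0, 0⟩, ⟨0, -1, 0⟩, ⟨0, 0, -1⟩⟩, ⟨⟨2, -2, 0⟩, ⟨2, 0, 0⟩, ⟨0, 0, 1⟩⟩⟩,
    ⟨⟨⟨1, 0, 0⟩, ⟨0, 1, 0⟩, ⟨0, 0, -1⟩⟩, ⟨⟨-2, 2, 0⟩, ⟨-2, 0, 0⟩, ⟨0, 0, 1⟩⟩⟩],
   [(0, 0), (0, 1), (0, 2), (1, 1), (1, 2), (2, 1), (3, 2), (4, 1), (5, 2), (6, 1), (8, 1)],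
   [⟨⟨0, 0, 0⟩, ⟨0, 0, 0⟩, ⟨0, 0, 0⟩⟩,
    ⟨⟨2, 0, 0⟩, ⟨0, 2, 0⟩, ⟨0, 0, 0⟩⟩,
    ⟨⟨0, -2, 0⟩, ⟨2, -2, 0⟩, ⟨0, 0, 0⟩⟩,
    ⟨⟨-2, 0, 0⟩, ⟨0, -2, 0⟩, ⟨0, 0, 0⟩⟩,
    ⟨⟨0, 2, 0⟩, ⟨-2, 2, 0⟩, ⟨0, 0, 0⟩⟩,
    ⟨⟨4, -2, 0⟩, ⟨2, 2, 0⟩, ⟨0, 0, 0⟩⟩,
    ⟨⟨2, -4, 0⟩, ⟨4, -2, 0⟩, ⟨0, 0, 0⟩⟩,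
    ⟨⟨-4, 2, 0⟩, ⟨-2, -2, 0⟩, ⟨0, 0, 0⟩⟩,
    ⟨⟨-2, 4, 0⟩, ⟨-4, 2, 0⟩, ⟨0, 0, 0⟩⟩,
    ⟨⟨4, -4, 0⟩, ⟨4, 0, 0⟩, ⟨0, 0, 0⟩⟩,
    ⟨⟨-4, 4, 0⟩, ⟨-4, 0, 0⟩, ⟨0, 0, 0⟩⟩],
   [[(1, 0), (2, 0), (3, 0)],
    [(0, 0), (4, 0), (5, 0)],
    [(4, 1), (6, 0), (0, 0)],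
    [(5, 2), (0, 0), (7, 0)],
    [(2, 3), (8, 0), (1, 0)],
    [(3, 4), (1, 0), (9, 0)],
    [(8, 5), (10, 0), (2, 0)],
    [(9, 6), (3, 0), (10, 0)],
    [(6, 7), (11, 0), (4, 0)],
    [(7, 8), (5, 0), (11, 0)],
    [(11, 9), (7, 0), (6, 0)],
    [(10, 10), (9, 0), (8, 0)]]⟩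

def hexLat11 : List LatE :=
  [⟨⟨⟨1, 0, 0⟩, ⟨0, 1, 0⟩, ⟨0, 0, 2⟩⟩, 2, ⟨⟨0, 0, 1⟩, ⟨0, 0, 0⟩, ⟨0, 0, 0⟩⟩⟩]

def hexRow12 : Row :=
  ⟨[⟨⟨1, 0, 0⟩, ⟨0, 1, 0⟩, ⟨0, 0, -1⟩⟩], ⟨⟨1, -1, 0⟩, ⟨1, 0, 0⟩, ⟨0, 0, 1⟩⟩, ⟨⟨0, 1, 0⟩, ⟨-1, 1, 0⟩, ⟨0, 0, 1⟩⟩, 2,
   [⟨⟨⟨1, 0, 0⟩, ⟨0, 1, 0⟩, ⟨0, 0, 1⟩⟩, ⟨⟨0, 0, 0⟩, ⟨0, 0, 0⟩, ⟨0, 0, 0⟩⟩⟩,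
    ⟨⟨⟨1, 0, 0⟩, ⟨0, 1, 0⟩, ⟨0, 0, -1⟩⟩, ⟨⟨0, 0, 0⟩, ⟨0, 0, 0⟩, ⟨0, 0, 0⟩⟩⟩,
    ⟨⟨⟨1, -1, 0⟩, ⟨1, 0, 0⟩, ⟨0, 0, 1⟩⟩, ⟨⟨1, 0, 0⟩, ⟨0, 1, 0⟩, ⟨0, 0, 1⟩⟩⟩,
    ⟨⟨⟨0, 1, 0⟩, ⟨-1, 1, 0⟩, ⟨0, 0, 1⟩⟩, ⟨⟨0, -1, 0⟩, ⟨1, -1, 0⟩, ⟨0, 0, -1⟩⟩⟩,
    ⟨⟨⟨1, -1, 0⟩, ⟨1, 0, 0⟩, ⟨0, 0, -1⟩⟩, ⟨⟨1, 0, 0⟩, ⟨0, 1, 0⟩, ⟨0, 0, -1⟩⟩⟩,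
    ⟨⟨⟨0, 1, 0⟩, ⟨-1, 1, 0⟩, ⟨0, 0, -1⟩⟩, ⟨⟨0, -1, 0⟩, ⟨1, -1, 0⟩, ⟨0, 0, 1⟩⟩⟩,
    ⟨⟨⟨0, -1, 0⟩, ⟨1, -1, 0⟩, ⟨0, 0, 1⟩⟩, ⟨⟨2, -1, 0⟩, ⟨1, 1, 0⟩, ⟨0, 0, 2⟩⟩⟩,
    ⟨⟨⟨-1, 1, 0⟩, ⟨-1, 0, 0⟩, ⟨0, 0, 1⟩⟩, ⟨⟨1, -2, 0⟩, ⟨2, -1, 0⟩, ⟨0, 0, -2⟩⟩⟩,
    ⟨⟨⟨0, -1, 0⟩, ⟨1, -1, 0⟩, ⟨0, 0, -1⟩⟩, ⟨⟨2, -1, 0⟩, ⟨1, 1, 0⟩, ⟨0, 0, -2⟩⟩⟩,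
    ⟨⟨⟨-1, 1, 0⟩, ⟨-1, 0, 0⟩, ⟨0, 0, -1⟩⟩, ⟨⟨1, -2, 0⟩, ⟨2, -1, 0⟩, ⟨0, 0, 2⟩⟩⟩,
    ⟨⟨⟨-1, 0, 0⟩, ⟨0, -1, 0⟩, ⟨0, 0, 1⟩⟩, ⟨⟨2, -2, 0⟩, ⟨2, 0, 0⟩, ⟨0, 0, 3⟩⟩⟩,
    ⟨⟨⟨-1, 0, 0⟩, ⟨0, -1, 0⟩, ⟨0, 0, -1⟩⟩, ⟨⟨2, -2, 0⟩, ⟨2, 0, 0⟩, ⟨0, 0, -3⟩⟩⟩],
   [(0, 0), (0, 1), (0, 2), (1, 1), (1, 2), (2, 1), (3, 2), (4, 1), (5, 2), (6, 1), (8, 1)],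
   [⟨⟨0, 0, 0⟩, ⟨0, 0, 0⟩, ⟨0, 0, 0⟩⟩,
    ⟨⟨0, 0, 0⟩, ⟨0, 0, 0⟩, ⟨0, 0, 2⟩⟩,
    ⟨⟨0, 0, 0⟩, ⟨0, 0, 0⟩, ⟨0, 0, -2⟩⟩,
    ⟨⟨0, 0, 0⟩, ⟨0, 0, 0⟩, ⟨0, 0, 4⟩⟩,
    ⟨⟨0, 0, 0⟩, ⟨0, 0, 0⟩, ⟨0, 0, -4⟩⟩,
    ⟨⟨0, 0, 0⟩, ⟨0, 0, 0⟩, ⟨0, 0, -6⟩⟩,
    ⟨⟨0, 0, 0⟩, ⟨0, 0, 0⟩, ⟨0, 0, 6⟩⟩],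
   [[(1, 0), (2, 0), (3, 0)],
    [(0, 0), (4, 0), (5, 0)],
    [(4, 1), (6, 0), (0, 0)],
    [(5, 2), (0, 0), (7, 0)],
    [(2, 2), (8, 0), (1, 0)],
    [(3, 1), (1, 0), (9, 0)],
    [(8, 3), (10, 0), (2, 0)],
    [(9, 4), (3, 0), (10, 5)],
    [(6, 4), (11, 0), (4, 0)],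
    [(7, 3), (5, 0), (11, 6)],
    [(11, 6), (7, 6), (6, 0)],
    [(10, 5), (9, 5), (8, 0)]]⟩

def hexLat12 : List LatE :=
  []

def hexRow13 : Row :=
  ⟨[⟨⟨1, 0, 0⟩, ⟨0, 1, 0⟩, ⟨0, 0, -1⟩⟩], ⟨⟨0, -1, 0⟩, ⟨1, -1, 0⟩, ⟨0, 0, 1⟩⟩, ⟨⟨-1, 1, 0⟩, ⟨-1, 0, 0⟩, ⟨0, 0, 1⟩⟩, 2,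
   [⟨⟨⟨1, 0, 0⟩, ⟨0, 1, 0⟩, ⟨0, 0, 1⟩⟩, ⟨⟨0, 0, 0⟩, ⟨0, 0, 0⟩, ⟨0, 0, 0⟩⟩⟩,
    ⟨⟨⟨1, 0, 0⟩, ⟨0, 1, 0⟩, ⟨0, 0, -1⟩⟩, ⟨⟨0, 0, 0⟩, ⟨0, 0, 0⟩, ⟨0, 0, 0⟩⟩⟩,
    ⟨⟨⟨0, -1, 0⟩, ⟨1, -1, 0⟩, ⟨0, 0, 1⟩⟩, ⟨⟨1, 0, 0⟩, ⟨0, 1, 0⟩, ⟨0, 0, 1⟩⟩⟩,
    ⟨⟨⟨-1, 1, 0⟩, ⟨-1, 0, 0⟩, ⟨0, 0, 1⟩⟩, ⟨⟨1, -1, 0⟩, ⟨1, 0, 0⟩, ⟨0, 0, -1⟩⟩⟩,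
    ⟨⟨⟨0, -1, 0⟩, ⟨1, -1, 0⟩, ⟨0, 0, -1⟩⟩, ⟨⟨1, 0, 0⟩, ⟨0, 1, 0⟩, ⟨0, 0, -1⟩⟩⟩,
    ⟨⟨⟨-1, 1, 0⟩, ⟨-1, 0, 0⟩, ⟨0, 0, -1⟩⟩, ⟨⟨1, -1, 0⟩, ⟨1, 0, 0⟩, ⟨0, 0, 1⟩⟩⟩],
   [(0, 0), (0, 1), (0, 2), (1, 1), (1, 2)],
   [⟨⟨0, 0, 0⟩, ⟨0, 0, 0⟩, ⟨0, 0, 0⟩⟩,
    ⟨⟨0, 0, 0⟩, ⟨0, 0, 0⟩, ⟨0, 0, 2⟩⟩,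
    ⟨⟨0, 0, 0⟩, ⟨0, 0, 0⟩, ⟨0, 0, 3⟩⟩,
    ⟨⟨0, 0, 0⟩, ⟨0, 0, 0⟩, ⟨0, 0, -2⟩⟩,
    ⟨⟨0, 0, 0⟩, ⟨0, 0, 0⟩, ⟨0, 0, -3⟩⟩],
   [[(1, 0), (2, 0), (3, 0)],
    [(0, 0), (4, 0), (5, 0)],
    [(4, 1), (3, 2), (0, 0)],
    [(5, 3), (0, 0), (2, 4)],
    [(2, 3), (5, 4), (1, 0)],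
    [(3, 1), (1, 0), (4, 2)]]⟩

def hexLat13 : List LatE :=
  []

def hexRow14 : Row :=
  ⟨[⟨⟨0, -1, 0⟩, ⟨1, -1, 0⟩, ⟨0, 0, 1⟩⟩], ⟨⟨1, 0, 0⟩, ⟨1, -1, 0⟩, ⟨0, 0, 1⟩⟩, ⟨⟨1, 0, 0⟩, ⟨1, -1, 0⟩, ⟨0, 0, 1⟩⟩, 3,
   [⟨⟨⟨1, 0, 0⟩, ⟨0, 1, 0⟩, ⟨0, 0, 1⟩⟩, ⟨⟨0, 0, 0⟩, ⟨0, 0, 0⟩, ⟨0, 0, 0⟩⟩⟩,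
    ⟨⟨⟨0, -1, 0⟩, ⟨1, -1, 0⟩, ⟨0, 0, 1⟩⟩, ⟨⟨0, 0, 0⟩, ⟨0, 0, 0⟩, ⟨0, 0, 0⟩⟩⟩,
    ⟨⟨⟨-1, 1, 0⟩, ⟨-1, 0, 0⟩, ⟨0, 0, 1⟩⟩, ⟨⟨0, 0, 0⟩, ⟨0, 0, 0⟩, ⟨0, 0, 0⟩⟩⟩,
    ⟨⟨⟨1, 0, 0⟩, ⟨1, -1, 0⟩, ⟨0, 0, 1⟩⟩, ⟨⟨1, 0, 0⟩, ⟨0, 1, 0⟩, ⟨0, 0, 1⟩⟩⟩,
    ⟨⟨⟨-1, 1, 0⟩, ⟨0, 1, 0⟩, ⟨0, 0, 1⟩⟩, ⟨⟨0, -1, 0⟩, ⟨1, -1, 0⟩, ⟨0, 0, 1⟩⟩⟩,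
    ⟨⟨⟨0, -1, 0⟩, ⟨-1, 0, 0⟩, ⟨0, 0, 1⟩⟩, ⟨⟨-1, 1, 0⟩, ⟨-1, 0, 0⟩, ⟨0, 0, 1⟩⟩⟩],
   [(0, 0), (1, 0), (0, 1), (1, 1), (2, 1)],
   [⟨⟨0, 0, 0⟩, ⟨0, 0, 0⟩, ⟨0, 0, 0⟩⟩,
    ⟨⟨-2, 0, 0⟩, ⟨-1, 0, 0⟩, ⟨0, 0, -2⟩⟩,
    ⟨⟨1, 0, 0⟩, ⟨-1, 0, 0⟩, ⟨0, 0, -2⟩⟩,
    ⟨⟨1, 0, 0⟩, ⟨2, 0, 0⟩, ⟨0, 0, -2⟩⟩,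
    ⟨⟨2, -1, 0⟩, ⟨1, 1, 0⟩, ⟨0, 0, 0⟩⟩,
    ⟨⟨2, 0, 0⟩, ⟨1, 0, 0⟩, ⟨0, 0, 2⟩⟩,
    ⟨⟨-1, -1, 0⟩, ⟨1, -2, 0⟩, ⟨0, 0, 0⟩⟩,
    ⟨⟨-1, 0, 0⟩, ⟨1, 0, 0⟩, ⟨0, 0, 2⟩⟩,
    ⟨⟨-1, 2, 0⟩, ⟨-2, 1, 0⟩, ⟨0, 0, 0⟩⟩,
    ⟨⟨-1, 0, 0⟩, ⟨-2, 0, 0⟩, ⟨0, 0, 2⟩⟩],
   [[(1, 0), (3, 0), (3, 1)],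
    [(2, 0), (4, 0), (4, 2)],
    [(0, 0), (5, 0), (5, 3)],
    [(5, 4), (0, 5), (0, 0)],
    [(3, 6), (1, 7), (1, 0)],
    [(4, 8), (2, 9), (2, 0)]]⟩

def hexLat14 : List LatE :=
  [⟨⟨⟨1, 0, 0⟩, ⟨0, 1, 0⟩, ⟨0, 0, 1⟩⟩, 1, ⟨⟨0, 0, 0⟩, ⟨0, 0, 0⟩, ⟨0, 0, 0⟩⟩⟩]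

def hexRow15 : Row :=
  ⟨[⟨⟨0, -1, 0⟩, ⟨1, -1, 0⟩, ⟨0, 0, 1⟩⟩], ⟨⟨1, 0, 0⟩, ⟨1, -1, 0⟩, ⟨0, 0, -1⟩⟩, ⟨⟨1, 0, 0⟩, ⟨1, -1, 0⟩, ⟨0, 0, -1⟩⟩, 3,
   [⟨⟨⟨1, 0, 0⟩, ⟨0, 1, 0⟩, ⟨0, 0, 1⟩⟩, ⟨⟨0, 0, 0⟩, ⟨0, 0, 0⟩, ⟨0, 0, 0⟩⟩⟩,
    ⟨⟨⟨0, -1, 0⟩, ⟨1, -1, 0⟩, ⟨0, 0, 1⟩⟩, ⟨⟨0, 0, 0⟩, ⟨0, 0, 0⟩, ⟨0, 0, 0⟩⟩⟩,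
    ⟨⟨⟨-1, 1, 0⟩, ⟨-1, 0, 0⟩, ⟨0, 0, 1⟩⟩, ⟨⟨0, 0, 0⟩, ⟨0, 0, 0⟩, ⟨0, 0, 0⟩⟩⟩,
    ⟨⟨⟨1, 0, 0⟩, ⟨1, -1, 0⟩, ⟨0, 0, -1⟩⟩, ⟨⟨1, 0, 0⟩, ⟨0, 1, 0⟩, ⟨0, 0, 1⟩⟩⟩,
    ⟨⟨⟨-1, 1, 0⟩, ⟨0, 1, 0⟩, ⟨0, 0, -1⟩⟩, ⟨⟨0, -1, 0⟩, ⟨1, -1, 0⟩, ⟨0, 0, 1⟩⟩⟩,
    ⟨⟨⟨0, -1, 0⟩, ⟨-1, 0, 0⟩, ⟨0, 0, -1⟩⟩, ⟨⟨-1, 1, 0⟩, ⟨-1, 0, 0⟩, ⟨0, 0, 1⟩⟩⟩],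
   [(0, 0), (1, 0), (0, 1), (1, 1), (2, 1)],
   [⟨⟨0, 0, 0⟩, ⟨0, 0, 0⟩, ⟨0, 0, 0⟩⟩,
    ⟨⟨-2, 0, 0⟩, ⟨-1, 0, 0⟩, ⟨0, 0, 0⟩⟩,
    ⟨⟨1, 0, 0⟩, ⟨-1, 0, 0⟩, ⟨0, 0, 0⟩⟩,
    ⟨⟨1, 0, 0⟩, ⟨2, 0, 0⟩, ⟨0, 0, 0⟩⟩,
    ⟨⟨2, -1, 0⟩, ⟨1, 1, 0⟩, ⟨0, 0, 0⟩⟩,
    ⟨⟨2, 0, 0⟩, ⟨1, 0, 0⟩, ⟨0, 0, 0⟩⟩,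
    ⟨⟨-1, -1, 0⟩, ⟨1, -2, 0⟩, ⟨0, 0, 0⟩⟩,
    ⟨⟨-1, 0, 0⟩, ⟨1, 0, 0⟩, ⟨0, 0, 0⟩⟩,
    ⟨⟨-1, 2, 0⟩, ⟨-2, 1, 0⟩, ⟨0, 0, 0⟩⟩,
    ⟨⟨-1, 0, 0⟩, ⟨-2, 0, 0⟩, ⟨0, 0, 0⟩⟩],
   [[(1, 0), (3, 0), (3, 1)],
    [(2, 0), (4, 0), (4, 2)],
    [(0, 0), (5, 0), (5, 3)],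
    [(5, 4), (0, 5), (0, 0)],
    [(3, 6), (1, 7), (1, 0)],
    [(4, 8), (2, 9), (2, 0)]]⟩

def hexLat15 : List LatE :=
  [⟨⟨⟨1, 0, 0⟩, ⟨0, 1, 0⟩, ⟨0, 0, 1⟩⟩, 1, ⟨⟨0, 0, 1⟩, ⟨0, 0, 0⟩, ⟨0, 0, 0⟩⟩⟩]

def hexRow16 : Row :=
  ⟨[⟨⟨0, -1, 0⟩, ⟨1, -1, 0⟩, ⟨0, 0, 1⟩⟩], ⟨⟨1, 0, 0⟩, ⟨0, 1, 0⟩, ⟨0, 0, 1⟩⟩, ⟨⟨1, 0, 0⟩, ⟨0, 1, 0⟩, ⟨0, 0, 1⟩⟩, 3,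
   [⟨⟨⟨1, 0, 0⟩, ⟨0, 1, 0⟩, ⟨0, 0, 1⟩⟩, ⟨⟨0, 0, 0⟩, ⟨0, 0, 0⟩, ⟨0, 0, 0⟩⟩⟩,
    ⟨⟨⟨0, -1, 0⟩, ⟨1, -1, 0⟩, ⟨0, 0, 1⟩⟩, ⟨⟨0, 0, 0⟩, ⟨0, 0, 0⟩, ⟨0, 0, 0⟩⟩⟩,
    ⟨⟨⟨-1, 1, 0⟩, ⟨-1, 0, 0⟩, ⟨0, 0, 1⟩⟩, ⟨⟨0, 0, 0⟩, ⟨0, 0, 0⟩, ⟨0, 0, 0⟩⟩⟩],
   [(0, 0), (1, 0)],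
   [⟨⟨0, 0, 0⟩, ⟨0, 0, 0⟩, ⟨0, 0, 0⟩⟩,
    ⟨⟨1, 0, 0⟩, ⟨0, 1, 0⟩, ⟨0, 0, 1⟩⟩,
    ⟨⟨-1, 0, 0⟩, ⟨0, -1, 0⟩, ⟨0, 0, -1⟩⟩,
    ⟨⟨0, -1, 0⟩, ⟨1, -1, 0⟩, ⟨0, 0, 1⟩⟩,
    ⟨⟨0, 1, 0⟩, ⟨-1, 1, 0⟩, ⟨0, 0, -1⟩⟩,
    ⟨⟨-1, 1, 0⟩, ⟨-1, 0, 0⟩, ⟨0, 0, 1⟩⟩,
    ⟨⟨1, -1, 0⟩, ⟨1, 0, 0⟩, ⟨0, 0, -1⟩⟩],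
   [[(1, 0), (0, 1), (0, 2)],
    [(2, 0), (1, 3), (1, 4)],
    [(0, 0), (2, 5), (2, 6)]]⟩

def hexLat16 : List LatE :=
  [⟨⟨⟨3, 0, 0⟩, ⟨0, 3, 0⟩, ⟨-1, -1, 1⟩⟩, 3, ⟨⟨0, 0, 0⟩, ⟨0, 0, 0⟩, ⟨0, 0, 0⟩⟩⟩]

def hexRow17 : Row :=
  ⟨[⟨⟨0, -1, 0⟩, ⟨1, -1, 0⟩, ⟨0, 0, 1⟩⟩], ⟨⟨1, 0, 0⟩, ⟨0, 1, 0⟩, ⟨0, 0, -1⟩⟩, ⟨⟨1, 0, 0⟩, ⟨0, 1, 0⟩, ⟨0, 0, -1⟩⟩, 3,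
   [⟨⟨⟨1, 0, 0⟩, ⟨0, 1, 0⟩, ⟨0, 0, 1⟩⟩, ⟨⟨0, 0, 0⟩, ⟨0, 0, 0⟩, ⟨0, 0, 0⟩⟩⟩,
    ⟨⟨⟨0, -1, 0⟩, ⟨1, -1, 0⟩, ⟨0, 0, 1⟩⟩, ⟨⟨0, 0, 0⟩, ⟨0, 0, 0⟩, ⟨0, 0, 0⟩⟩⟩,
    ⟨⟨⟨-1, 1, 0⟩, ⟨-1, 0, 0⟩, ⟨0, 0, 1⟩⟩, ⟨⟨0, 0, 0⟩, ⟨0, 0, 0⟩, ⟨0, 0, 0⟩⟩⟩,
    ⟨⟨⟨1, 0, 0⟩, ⟨0, 1, 0⟩, ⟨0, 0, -1⟩⟩, ⟨⟨1, 0, 0⟩, ⟨0, 1, 0⟩, ⟨0, 0, 1⟩⟩⟩,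
    ⟨⟨⟨0, -1, 0⟩, ⟨1, -1, 0⟩, ⟨0, 0, -1⟩⟩, ⟨⟨0, -1, 0⟩, ⟨1, -1, 0⟩, ⟨0, 0, 1⟩⟩⟩,
    ⟨⟨⟨-1, 1, 0⟩, ⟨-1, 0, 0⟩, ⟨0, 0, -1⟩⟩, ⟨⟨-1, 1, 0⟩, ⟨-1, 0, 0⟩, ⟨0, 0, 1⟩⟩⟩],
   [(0, 0), (1, 0), (0, 1), (1, 1), (2, 1)],
   [⟨⟨0, 0, 0⟩, ⟨0, 0, 0⟩, ⟨0, 0, 0⟩⟩,
    ⟨⟨-2, 0, 0⟩, ⟨0, -2, 0⟩, ⟨0, 0, 0⟩⟩,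
    ⟨⟨0, 2, 0⟩, ⟨-2, 2, 0⟩, ⟨0, 0, 0⟩⟩,
    ⟨⟨2, -2, 0⟩, ⟨2, 0, 0⟩, ⟨0, 0, 0⟩⟩,
    ⟨⟨1, 1, 0⟩, ⟨-1, 2, 0⟩, ⟨0, 0, 0⟩⟩,
    ⟨⟨2, 0, 0⟩, ⟨0, 2, 0⟩, ⟨0, 0, 0⟩⟩,
    ⟨⟨1, -2, 0⟩, ⟨2, -1, 0⟩, ⟨0, 0, 0⟩⟩,
    ⟨⟨0, -2, 0⟩, ⟨2, -2, 0⟩, ⟨0, 0, 0⟩⟩,
    ⟨⟨-2, 1, 0⟩, ⟨-1, -1, 0⟩, ⟨0, 0, 0⟩⟩,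
    ⟨⟨-2, 2, 0⟩, ⟨-2, 0, 0⟩, ⟨0, 0, 0⟩⟩],
   [[(1, 0), (3, 0), (3, 1)],
    [(2, 0), (4, 0), (4, 2)],
    [(0, 0), (5, 0), (5, 3)],
    [(4, 4), (0, 5), (0, 0)],
    [(5, 6), (1, 7), (1, 0)],
    [(3, 8), (2, 9), (2, 0)]]⟩

def hexLat17 : List LatE :=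
  [⟨⟨⟨1, 0, 0⟩, ⟨0, 1, 0⟩, ⟨0, 0, 1⟩⟩, 1, ⟨⟨0, 0, 1⟩, ⟨0, 0, 0⟩, ⟨0, 0, 0⟩⟩⟩]

def hexRow18 : Row :=
  ⟨[⟨⟨0, -1, 0⟩, ⟨1, -1, 0⟩, ⟨0, 0, 1⟩⟩], ⟨⟨1, -1, 0⟩, ⟨1, 0, 0⟩, ⟨0, 0, 1⟩⟩, ⟨⟨0, 1, 0⟩, ⟨-1, 1, 0⟩, ⟨0, 0, 1⟩⟩, 3,
   [⟨⟨⟨1, 0, 0⟩, ⟨0, 1, 0⟩, ⟨0, 0, 1⟩⟩, ⟨⟨0, 0, 0⟩, ⟨0, 0, 0⟩, ⟨0, 0, 0⟩⟩⟩,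
    ⟨⟨⟨0, -1, 0⟩, ⟨1, -1, 0⟩, ⟨0, 0, 1⟩⟩, ⟨⟨0, 0, 0⟩, ⟨0, 0, 0⟩, ⟨0, 0, 0⟩⟩⟩,
    ⟨⟨⟨-1, 1, 0⟩, ⟨-1, 0, 0⟩, ⟨0, 0, 1⟩⟩, ⟨⟨0, 0, 0⟩, ⟨0, 0, 0⟩, ⟨0, 0, 0⟩⟩⟩,
    ⟨⟨⟨1, -1, 0⟩, ⟨1, 0, 0⟩, ⟨0, 0, 1⟩⟩, ⟨⟨1, 0, 0⟩, ⟨0, 1, 0⟩, ⟨0, 0, 1⟩⟩⟩,
    ⟨⟨⟨0, 1, 0⟩, ⟨-1, 1, 0⟩, ⟨0, 0, 1⟩⟩, ⟨⟨0, -1, 0⟩, ⟨1, -1, 0⟩, ⟨0, 0, -1⟩⟩⟩,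
    ⟨⟨⟨-1, 0, 0⟩, ⟨0, -1, 0⟩, ⟨0, 0, 1⟩⟩, ⟨⟨0, -1, 0⟩, ⟨1, -1, 0⟩, ⟨0, 0, 1⟩⟩⟩],
   [(0, 0), (1, 0), (0, 1), (0, 2), (1, 1)],
   [⟨⟨0, 0, 0⟩, ⟨0, 0, 0⟩, ⟨0, 0, 0⟩⟩,
    ⟨⟨-2, 1, 0⟩, ⟨-1, -1, 0⟩, ⟨0, 0, -2⟩⟩,
    ⟨⟨-1, 2, 0⟩, ⟨-2, 1, 0⟩, ⟨0, 0, 2⟩⟩,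
    ⟨⟨1, 1, 0⟩, ⟨-1, 2, 0⟩, ⟨0, 0, -2⟩⟩,
    ⟨⟨1, 1, 0⟩, ⟨-1, 2, 0⟩, ⟨0, 0, 0⟩⟩,
    ⟨⟨2, -1, 0⟩, ⟨1, 1, 0⟩, ⟨0, 0, 2⟩⟩,
    ⟨⟨-1, -1, 0⟩, ⟨1, -2, 0⟩, ⟨0, 0, -2⟩⟩,
    ⟨⟨1, -2, 0⟩, ⟨2, -1, 0⟩, ⟨0, 0, -2⟩⟩,
    ⟨⟨0, 0, 0⟩, ⟨0, 0, 0⟩, ⟨0, 0, 2⟩⟩,
    ⟨⟨-1, -1, 0⟩, ⟨1, -2, 0⟩, ⟨0, 0, 2⟩⟩],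
   [[(1, 0), (3, 0), (4, 0)],
    [(2, 0), (5, 0), (3, 1)],
    [(0, 0), (4, 2), (5, 3)],
    [(5, 4), (1, 5), (0, 0)],
    [(3, 6), (0, 0), (2, 7)],
    [(4, 8), (2, 9), (1, 0)]]⟩

def hexLat18 : List LatE :=
  [⟨⟨⟨3, 0, 0⟩, ⟨-2, 1, 0⟩, ⟨0, 0, 3⟩⟩, 3, ⟨⟨0, 0, 0⟩, ⟨0, 0, 0⟩, ⟨0, 0, 0⟩⟩⟩]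

def hexRow19 : Row :=
  ⟨[⟨⟨0, -1, 0⟩, ⟨1, -1, 0⟩, ⟨0, 0, 1⟩⟩], ⟨⟨1, -1, 0⟩, ⟨1, 0, 0⟩, ⟨0, 0, -1⟩⟩, ⟨⟨0, 1, 0⟩, ⟨-1, 1, 0⟩, ⟨0, 0, -1⟩⟩, 3,
   [⟨⟨⟨1, 0, 0⟩, ⟨0, 1, 0⟩, ⟨0, 0, 1⟩⟩, ⟨⟨0, 0, 0⟩, ⟨0, 0, 0⟩, ⟨0, 0, 0⟩⟩⟩,
    ⟨⟨⟨0, -1, 0⟩, ⟨1, -1, 0⟩, ⟨0, 0, 1⟩⟩, ⟨⟨0, 0, 0⟩, ⟨0, 0, 0⟩, ⟨0, 0, 0⟩⟩⟩,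
    ⟨⟨⟨-1, 1, 0⟩, ⟨-1, 0, 0⟩, ⟨0, 0, 1⟩⟩, ⟨⟨0, 0, 0⟩, ⟨0, 0, 0⟩, ⟨0, 0, 0⟩⟩⟩,
    ⟨⟨⟨1, -1, 0⟩, ⟨1, 0, 0⟩, ⟨0, 0, -1⟩⟩, ⟨⟨1, 0, 0⟩, ⟨0, 1, 0⟩, ⟨0, 0, 1⟩⟩⟩,
    ⟨⟨⟨0, 1, 0⟩, ⟨-1, 1, 0⟩, ⟨0, 0, -1⟩⟩, ⟨⟨0, -1, 0⟩, ⟨1, -1, 0⟩, ⟨0, 0, 1⟩⟩⟩,
    ⟨⟨⟨-1, 0, 0⟩, ⟨0, -1, 0⟩, ⟨0, 0, -1⟩⟩, ⟨⟨0, -1, 0⟩, ⟨1, -1, 0⟩, ⟨0, 0, 1⟩⟩⟩],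
   [(0, 0), (1, 0), (0, 1), (0, 2), (1, 1)],
   [⟨⟨0, 0, 0⟩, ⟨0, 0, 0⟩, ⟨0, 0, 0⟩⟩,
    ⟨⟨-2, 1, 0⟩, ⟨-1, -1, 0⟩, ⟨0, 0, 0⟩⟩,
    ⟨⟨-1, 2, 0⟩, ⟨-2, 1, 0⟩, ⟨0, 0, 0⟩⟩,
    ⟨⟨1, 1, 0⟩, ⟨-1, 2, 0⟩, ⟨0, 0, 0⟩⟩,
    ⟨⟨2, -1, 0⟩, ⟨1, 1, 0⟩, ⟨0, 0, 0⟩⟩,
    ⟨⟨-1, -1, 0⟩, ⟨1, -2, 0⟩, ⟨0, 0, 0⟩⟩,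
    ⟨⟨1, -2, 0⟩, ⟨2, -1, 0⟩, ⟨0, 0, 0⟩⟩],
   [[(1, 0), (3, 0), (4, 0)],
    [(2, 0), (5, 0), (3, 1)],
    [(0, 0), (4, 2), (5, 3)],
    [(5, 3), (1, 4), (0, 0)],
    [(3, 5), (0, 0), (2, 6)],
    [(4, 0), (2, 5), (1, 0)]]⟩

def hexLat19 : List LatE :=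
  [⟨⟨⟨3, 0, 0⟩, ⟨-2, 1, 0⟩, ⟨0, 0, 3⟩⟩, 3, ⟨⟨0, 0, 1⟩, ⟨0, 0, 0⟩, ⟨0, 0, 0⟩⟩⟩]

def hexRow20 : Row :=
  ⟨[⟨⟨0, 1, 0⟩, ⟨1, 0, 0⟩, ⟨0, 0, -1⟩⟩, ⟨⟨0, -1, 0⟩, ⟨-1, 0, 0⟩, ⟨0, 0, -1⟩⟩], ⟨⟨1, 0, 0⟩, ⟨1, -1, 0⟩, ⟨0, 0, 1⟩⟩, ⟨⟨1, 0, 0⟩, ⟨1, -1, 0⟩, ⟨0, 0, 1⟩⟩, 4,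
   [⟨⟨⟨1, 0, 0⟩, ⟨0, 1, 0⟩, ⟨0, 0, 1⟩⟩, ⟨⟨0, 0, 0⟩, ⟨0, 0, 0⟩, ⟨0, 0, 0⟩⟩⟩,
    ⟨⟨⟨0, 1, 0⟩, ⟨1, 0, 0⟩, ⟨0, 0, -1⟩⟩, ⟨⟨0, 0, 0⟩, ⟨0, 0, 0⟩, ⟨0, 0, 0⟩⟩⟩,
    ⟨⟨⟨0, -1, 0⟩, ⟨-1, 0, 0⟩, ⟨0, 0, -1⟩⟩, ⟨⟨0, 0, 0⟩, ⟨0, 0, 0⟩, ⟨0, 0, 0⟩⟩⟩,
    ⟨⟨⟨-1, 0, 0⟩, ⟨0, -1, 0⟩, ⟨0, 0, 1⟩⟩, ⟨⟨0, 0, 0⟩, ⟨0, 0, 0⟩, ⟨0, 0, 0⟩⟩⟩,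
    ⟨⟨⟨1, 0, 0⟩, ⟨1, -1, 0⟩, ⟨0, 0, 1⟩⟩, ⟨⟨1, 0, 0⟩, ⟨0, 1, 0⟩, ⟨0, 0, 1⟩⟩⟩,
    ⟨⟨⟨1, -1, 0⟩, ⟨1, 0, 0⟩, ⟨0, 0, -1⟩⟩, ⟨⟨0, 1, 0⟩, ⟨1, 0, 0⟩, ⟨0, 0, -1⟩⟩⟩,
    ⟨⟨⟨-1, 1, 0⟩, ⟨-1, 0, 0⟩, ⟨0, 0, -1⟩⟩, ⟨⟨0, -1, 0⟩, ⟨-1, 0, 0⟩, ⟨0, 0, -1⟩⟩⟩,
    ⟨⟨⟨-1, 0, 0⟩, ⟨-1, 1, 0⟩, ⟨0, 0, 1⟩⟩, ⟨⟨-1, 0, 0⟩, ⟨0, -1, 0⟩, ⟨0, 0, 1⟩⟩⟩,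
    ⟨⟨⟨0, 1, 0⟩, ⟨-1, 1, 0⟩, ⟨0, 0, -1⟩⟩, ⟨⟨1, 0, 0⟩, ⟨0, 1, 0⟩, ⟨0, 0, 1⟩⟩⟩,
    ⟨⟨⟨0, -1, 0⟩, ⟨1, -1, 0⟩, ⟨0, 0, -1⟩⟩, ⟨⟨1, 0, 0⟩, ⟨0, 1, 0⟩, ⟨0, 0, 1⟩⟩⟩,
    ⟨⟨⟨-1, 1, 0⟩, ⟨0, 1, 0⟩, ⟨0, 0, 1⟩⟩, ⟨⟨0, 1, 0⟩, ⟨1, 0, 0⟩, ⟨0, 0, -1⟩⟩⟩,
    ⟨⟨⟨1, -1, 0⟩, ⟨0, -1, 0⟩, ⟨0, 0, 1⟩⟩, ⟨⟨0, 1, 0⟩, ⟨1, 0, 0⟩, ⟨0, 0, -1⟩⟩⟩,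
    ⟨⟨⟨1, -1, 0⟩, ⟨0, -1, 0⟩, ⟨0, 0, -1⟩⟩, ⟨⟨1, 1, 0⟩, ⟨-1, 2, 0⟩, ⟨0, 0, 0⟩⟩⟩,
    ⟨⟨⟨-1, 1, 0⟩, ⟨0, 1, 0⟩, ⟨0, 0, -1⟩⟩, ⟨⟨1, -1, 0⟩, ⟨1, 0, 0⟩, ⟨0, 0, 0⟩⟩⟩,
    ⟨⟨⟨0, -1, 0⟩, ⟨1, -1, 0⟩, ⟨0, 0, 1⟩⟩, ⟨⟨-1, 2, 0⟩, ⟨1, 1, 0⟩, ⟨0, 0, 0⟩⟩⟩,
    ⟨⟨⟨0, 1, 0⟩, ⟨-1, 1, 0⟩, ⟨0, 0, 1⟩⟩, ⟨⟨1, 0, 0⟩, ⟨1, -1, 0⟩, ⟨0, 0, 0⟩⟩⟩,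
    ⟨⟨⟨-1, 1, 0⟩, ⟨-1, 0, 0⟩, ⟨0, 0, 1⟩⟩, ⟨⟨1, 1, 0⟩, ⟨-1, 2, 0⟩, ⟨0, 0, 0⟩⟩⟩,
    ⟨⟨⟨1, -1, 0⟩, ⟨1, 0, 0⟩, ⟨0, 0, 1⟩⟩, ⟨⟨1, 1, 0⟩, ⟨-1, 2, 0⟩, ⟨0, 0, 0⟩⟩⟩,
    ⟨⟨⟨-1, 0, 0⟩, ⟨-1, 1, 0⟩, ⟨0, 0, -1⟩⟩, ⟨⟨-1, 2, 0⟩, ⟨1, 1, 0⟩, ⟨0, 0, 0⟩⟩⟩,
    ⟨⟨⟨1, 0, 0⟩, ⟨1, -1, 0⟩, ⟨0, 0, -1⟩⟩, ⟨⟨-1, 2, 0⟩, ⟨1, 1, 0⟩, ⟨0, 0, 0⟩⟩⟩,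
    ⟨⟨⟨0, -1, 0⟩, ⟨-1, 0, 0⟩, ⟨0, 0, 1⟩⟩, ⟨⟨0, 2, 0⟩, ⟨-2, 2, 0⟩, ⟨0, 0, 1⟩⟩⟩,
    ⟨⟨⟨0, 1, 0⟩, ⟨1, 0, 0⟩, ⟨0, 0, 1⟩⟩, ⟨⟨2, 0, 0⟩, ⟨0, 2, 0⟩, ⟨0, 0, 1⟩⟩⟩,
    ⟨⟨⟨-1, 0, 0⟩, ⟨0, -1, 0⟩, ⟨0, 0, -1⟩⟩, ⟨⟨-2, 2, 0⟩, ⟨0, 2, 0⟩, ⟨0, 0, -1⟩⟩⟩,
    ⟨⟨⟨1, 0, 0⟩, ⟨0, 1, 0⟩, ⟨0, 0, -1⟩⟩, ⟨⟨0, 2, 0⟩, ⟨2, 0, 0⟩, ⟨0, 0, -1⟩⟩⟩],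
   [(0, 0), (0, 1), (1, 1), (0, 2), (1, 2), (2, 2), (3, 2), (4, 0), (4, 1), (5, 0), (5, 1), (8, 2), (9, 2), (10, 2), (11, 2), (12, 0), (12, 1), (14, 0), (14, 1), (16, 2), (17, 2), (18, 2), (19, 2)],
   [⟨⟨0, 0, 0⟩, ⟨0, 0, 0⟩, ⟨0, 0, 0⟩⟩,
    ⟨⟨-2, 0, 0⟩, ⟨-1, 0, 0⟩, ⟨0, 0, -2⟩⟩,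
    ⟨⟨-1, 0, 0⟩, ⟨-2, 0, 0⟩, ⟨0, 0, 2⟩⟩,
    ⟨⟨1, 0, 0⟩, ⟨2, 0, 0⟩, ⟨0, 0, 2⟩⟩,
    ⟨⟨2, 0, 0⟩, ⟨1, 0, 0⟩, ⟨0, 0, -2⟩⟩,
    ⟨⟨2, 0, 0⟩, ⟨1, 0, 0⟩, ⟨0, 0, 2⟩⟩,
    ⟨⟨1, 0, 0⟩, ⟨2, 0, 0⟩, ⟨0, 0, -2⟩⟩,
    ⟨⟨0, -2, 0⟩, ⟨-2, 0, 0⟩, ⟨0, 0, 0⟩⟩,
    ⟨⟨-1, 0, 0⟩, ⟨-2, 0, 0⟩, ⟨0, 0, -2⟩⟩,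
    ⟨⟨-2, 0, 0⟩, ⟨0, -2, 0⟩, ⟨0, 0, 0⟩⟩,
    ⟨⟨-2, 0, 0⟩, ⟨-1, 0, 0⟩, ⟨0, 0, 2⟩⟩,
    ⟨⟨2, 0, 0⟩, ⟨0, 2, 0⟩, ⟨0, 0, 0⟩⟩,
    ⟨⟨-1, 0, 0⟩, ⟨1, 0, 0⟩, ⟨0, 0, 2⟩⟩,
    ⟨⟨1, 0, 0⟩, ⟨-1, 0, 0⟩, ⟨0, 0, 2⟩⟩,
    ⟨⟨0, 2, 0⟩, ⟨2, 0, 0⟩, ⟨0, 0, 0⟩⟩,
    ⟨⟨1, 0, 0⟩, ⟨-1, 0, 0⟩, ⟨0, 0, -2⟩⟩,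
    ⟨⟨-1, 0, 0⟩, ⟨1, 0, 0⟩, ⟨0, 0, -2⟩⟩,
    ⟨⟨0, -2, 0⟩, ⟨2, -2, 0⟩, ⟨0, 0, 0⟩⟩,
    ⟨⟨2, -2, 0⟩, ⟨0, -2, 0⟩, ⟨0, 0, 0⟩⟩,
    ⟨⟨0, 2, 0⟩, ⟨-2, 2, 0⟩, ⟨0, 0, 0⟩⟩,
    ⟨⟨-2, 2, 0⟩, ⟨0, 2, 0⟩, ⟨0, 0, 0⟩⟩,
    ⟨⟨2, 0, 0⟩, ⟨-2, 0, 0⟩, ⟨0, 0, 2⟩⟩,
    ⟨⟨0, 0, 0⟩, ⟨-4, 2, 0⟩, ⟨0, 0, 2⟩⟩,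
    ⟨⟨2, -2, 0⟩, ⟨-2, 2, 0⟩, ⟨0, 0, 2⟩⟩,
    ⟨⟨4, -2, 0⟩, ⟨0, 0, 0⟩, ⟨0, 0, 2⟩⟩,
    ⟨⟨-2, 0, 0⟩, ⟨2, 0, 0⟩, ⟨0, 0, -2⟩⟩,
    ⟨⟨-4, 2, 0⟩, ⟨0, 0, 0⟩, ⟨0, 0, -2⟩⟩,
    ⟨⟨-2, 2, 0⟩, ⟨2, -2, 0⟩, ⟨0, 0, -2⟩⟩,
    ⟨⟨0, 0, 0⟩, ⟨4, -2, 0⟩, ⟨0, 0, -2⟩⟩],
   [[(1, 0), (2, 0), (4, 0), (4, 1)],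
    [(0, 0), (3, 0), (5, 0), (5, 2)],
    [(3, 0), (0, 0), (6, 0), (6, 3)],
    [(2, 0), (1, 0), (7, 0), (7, 4)],
    [(8, 0), (9, 0), (0, 5), (0, 0)],
    [(10, 0), (11, 0), (1, 6), (1, 0)],
    [(11, 7), (10, 7), (2, 8), (2, 0)],
    [(9, 9), (8, 9), (3, 10), (3, 0)],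
    [(4, 0), (7, 11), (12, 0), (12, 12)],
    [(7, 11), (4, 0), (13, 0), (13, 13)],
    [(5, 0), (6, 14), (14, 0), (14, 15)],
    [(6, 14), (5, 0), (15, 0), (15, 16)],
    [(16, 0), (17, 0), (8, 15), (8, 0)],
    [(17, 17), (16, 17), (9, 16), (9, 0)],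
    [(18, 0), (19, 0), (10, 12), (10, 0)],
    [(19, 18), (18, 18), (11, 13), (11, 0)],
    [(12, 0), (13, 19), (20, 0), (20, 6)],
    [(13, 19), (12, 0), (21, 0), (21, 8)],
    [(14, 0), (15, 20), (22, 0), (22, 5)],
    [(15, 20), (14, 0), (23, 0), (23, 10)],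
    [(22, 21), (23, 22), (16, 2), (16, 0)],
    [(23, 23), (22, 24), (17, 3), (17, 0)],
    [(20, 25), (21, 26), (18, 1), (18, 0)],
    [(21, 27), (20, 28), (19, 4), (19, 0)]]⟩

def hexLat20 : List LatE :=
  [⟨⟨⟨1, 0, 0⟩, ⟨0, 1, 0⟩, ⟨0, 0, 1⟩⟩, 1, ⟨⟨0, 0, 0⟩, ⟨0, 0, 0⟩, ⟨0, 0, 0⟩⟩⟩]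

def hexRow21 : Row :=
  ⟨[⟨⟨0, 1, 0⟩, ⟨1, 0, 0⟩, ⟨0, 0, -1⟩⟩, ⟨⟨0, -1, 0⟩, ⟨-1, 0, 0⟩, ⟨0, 0, -1⟩⟩], ⟨⟨1, 0, 0⟩, ⟨1, -1, 0⟩, ⟨0, 0, -1⟩⟩, ⟨⟨1, 0, 0⟩, ⟨1, -1, 0⟩, ⟨0, 0, -1⟩⟩, 4,
   [⟨⟨⟨1, 0, 0⟩, ⟨0, 1, 0⟩, ⟨0, 0, 1⟩⟩, ⟨⟨0, 0, 0⟩, ⟨0, 0, 0⟩, ⟨0, 0, 0⟩⟩⟩,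
    ⟨⟨⟨0, 1, 0⟩, ⟨1, 0, 0⟩, ⟨0, 0, -1⟩⟩, ⟨⟨0, 0, 0⟩, ⟨0, 0, 0⟩, ⟨0, 0, 0⟩⟩⟩,
    ⟨⟨⟨0, -1, 0⟩, ⟨-1, 0, 0⟩, ⟨0, 0, -1⟩⟩, ⟨⟨0, 0, 0⟩, ⟨0, 0, 0⟩, ⟨0, 0, 0⟩⟩⟩,
    ⟨⟨⟨-1, 0, 0⟩, ⟨0, -1, 0⟩, ⟨0, 0, 1⟩⟩, ⟨⟨0, 0, 0⟩, ⟨0, 0, 0⟩, ⟨0, 0, 0⟩⟩⟩,
    ⟨⟨⟨1, 0, 0⟩, ⟨1, -1, 0⟩, ⟨0, 0, -1⟩⟩, ⟨⟨1, 0, 0⟩, ⟨0, 1, 0⟩, ⟨0, 0, 1⟩⟩⟩,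
    ⟨⟨⟨1, -1, 0⟩, ⟨1, 0, 0⟩, ⟨0, 0, 1⟩⟩, ⟨⟨0, 1, 0⟩, ⟨1, 0, 0⟩, ⟨0, 0, -1⟩⟩⟩,
    ⟨⟨⟨-1, 1, 0⟩, ⟨-1, 0, 0⟩, ⟨0, 0, 1⟩⟩, ⟨⟨0, -1, 0⟩, ⟨-1, 0, 0⟩, ⟨0, 0, -1⟩⟩⟩,
    ⟨⟨⟨-1, 0, 0⟩, ⟨-1, 1, 0⟩, ⟨0, 0, -1⟩⟩, ⟨⟨-1, 0, 0⟩, ⟨0, -1, 0⟩, ⟨0, 0, 1⟩⟩⟩,
    ⟨⟨⟨0, 1, 0⟩, ⟨-1, 1, 0⟩, ⟨0, 0, 1⟩⟩, ⟨⟨1, 0, 0⟩, ⟨0, 1, 0⟩, ⟨0, 0, 1⟩⟩⟩,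
    ⟨⟨⟨0, -1, 0⟩, ⟨1, -1, 0⟩, ⟨0, 0, 1⟩⟩, ⟨⟨1, 0, 0⟩, ⟨0, 1, 0⟩, ⟨0, 0, 1⟩⟩⟩,
    ⟨⟨⟨-1, 1, 0⟩, ⟨0, 1, 0⟩, ⟨0, 0, -1⟩⟩, ⟨⟨0, 1, 0⟩, ⟨1, 0, 0⟩, ⟨0, 0, -1⟩⟩⟩,
    ⟨⟨⟨1, -1, 0⟩, ⟨0, -1, 0⟩, ⟨0, 0, -1⟩⟩, ⟨⟨0, 1, 0⟩, ⟨1, 0, 0⟩, ⟨0, 0, -1⟩⟩⟩],
   [(0, 0), (0, 1), (1, 1), (0, 2), (1, 2), (2, 2), (3, 2), (4, 0), (4, 1), (5, 0), (5, 1)],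
   [⟨⟨0, 0, 0⟩, ⟨0, 0, 0⟩, ⟨0, 0, 0⟩⟩,
    ⟨⟨-2, 0, 0⟩, ⟨-1, 0, 0⟩, ⟨0, 0, 0⟩⟩,
    ⟨⟨-1, 0, 0⟩, ⟨-2, 0, 0⟩, ⟨0, 0, 0⟩⟩,
    ⟨⟨1, 0, 0⟩, ⟨2, 0, 0⟩, ⟨0, 0, 0⟩⟩,
    ⟨⟨2, 0, 0⟩, ⟨1, 0, 0⟩, ⟨0, 0, 0⟩⟩,
    ⟨⟨0, -2, 0⟩, ⟨-2, 0, 0⟩, ⟨0, 0, 0⟩⟩,
    ⟨⟨-2, 0, 0⟩, ⟨0, -2, 0⟩, ⟨0, 0, 0⟩⟩,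
    ⟨⟨2, 0, 0⟩, ⟨0, 2, 0⟩, ⟨0, 0, 0⟩⟩,
    ⟨⟨1, 0, 0⟩, ⟨-2, 2, 0⟩, ⟨0, 0, 3⟩⟩,
    ⟨⟨0, 0, 0⟩, ⟨-1, 2, 0⟩, ⟨0, 0, 3⟩⟩,
    ⟨⟨1, -2, 0⟩, ⟨0, 0, 0⟩, ⟨0, 0, 3⟩⟩,
    ⟨⟨2, -2, 0⟩, ⟨-1, 0, 0⟩, ⟨0, 0, 3⟩⟩,
    ⟨⟨0, 2, 0⟩, ⟨2, 0, 0⟩, ⟨0, 0, 0⟩⟩,
    ⟨⟨-2, 2, 0⟩, ⟨1, 0, 0⟩, ⟨0, 0, -3⟩⟩,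
    ⟨⟨-1, 2, 0⟩, ⟨0, 0, 0⟩, ⟨0, 0, -3⟩⟩,
    ⟨⟨0, 0, 0⟩, ⟨1, -2, 0⟩, ⟨0, 0, -3⟩⟩,
    ⟨⟨-1, 0, 0⟩, ⟨2, -2, 0⟩, ⟨0, 0, -3⟩⟩],
   [[(1, 0), (2, 0), (4, 0), (4, 1)],
    [(0, 0), (3, 0), (5, 0), (5, 2)],
    [(3, 0), (0, 0), (6, 0), (6, 3)],
    [(2, 0), (1, 0), (7, 0), (7, 4)],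
    [(8, 0), (9, 0), (0, 4), (0, 0)],
    [(10, 0), (11, 0), (1, 3), (1, 0)],
    [(11, 5), (10, 5), (2, 2), (2, 0)],
    [(9, 6), (8, 6), (3, 1), (3, 0)],
    [(4, 0), (7, 7), (11, 8), (11, 9)],
    [(7, 7), (4, 0), (10, 10), (10, 11)],
    [(5, 0), (6, 12), (9, 13), (9, 14)],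
    [(6, 12), (5, 0), (8, 15), (8, 16)]]⟩

def hexLat21 : List LatE :=
  [⟨⟨⟨1, 0, 0⟩, ⟨0, 1, 0⟩, ⟨0, 0, 1⟩⟩, 1, ⟨⟨0, 0, 0⟩, ⟨0, 0, 0⟩, ⟨0, 0, 0⟩⟩⟩]

def hexRow22 : Row :=
  ⟨[⟨⟨0, 1, 0⟩, ⟨1, 0, 0⟩, ⟨0, 0, -1⟩⟩, ⟨⟨0, -1, 0⟩, ⟨-1, 0, 0⟩, ⟨0, 0, 1⟩⟩], ⟨⟨1, 0, 0⟩, ⟨1, -1, 0⟩, ⟨0, 0, 1⟩⟩, ⟨⟨1, 0, 0⟩, ⟨1, -1, 0⟩, ⟨0, 0, 1⟩⟩, 4,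
   [⟨⟨⟨1, 0, 0⟩, ⟨0, 1, 0⟩, ⟨0, 0, 1⟩⟩, ⟨⟨0, 0, 0⟩, ⟨0, 0, 0⟩, ⟨0, 0, 0⟩⟩⟩,
    ⟨⟨⟨0, 1, 0⟩, ⟨1, 0, 0⟩, ⟨0, 0, -1⟩⟩, ⟨⟨0, 0, 0⟩, ⟨0, 0, 0⟩, ⟨0, 0, 0⟩⟩⟩,
    ⟨⟨⟨0, -1, 0⟩, ⟨-1, 0, 0⟩, ⟨0, 0, 1⟩⟩, ⟨⟨0, 0, 0⟩, ⟨0, 0, 0⟩, ⟨0, 0, 0⟩⟩⟩,
    ⟨⟨⟨-1, 0, 0⟩, ⟨0, -1, 0⟩, ⟨0, 0, -1⟩⟩, ⟨⟨0, 0, 0⟩, ⟨0, 0, 0⟩, ⟨0, 0, 0⟩⟩⟩,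
    ⟨⟨⟨1, 0, 0⟩, ⟨1, -1, 0⟩, ⟨0, 0, 1⟩⟩, ⟨⟨1, 0, 0⟩, ⟨0, 1, 0⟩, ⟨0, 0, 1⟩⟩⟩,
    ⟨⟨⟨1, -1, 0⟩, ⟨1, 0, 0⟩, ⟨0, 0, -1⟩⟩, ⟨⟨0, 1, 0⟩, ⟨1, 0, 0⟩, ⟨0, 0, -1⟩⟩⟩,
    ⟨⟨⟨-1, 1, 0⟩, ⟨-1, 0, 0⟩, ⟨0, 0, 1⟩⟩, ⟨⟨0, -1, 0⟩, ⟨-1, 0, 0⟩, ⟨0, 0, 1⟩⟩⟩,
    ⟨⟨⟨-1, 0, 0⟩, ⟨-1, 1, 0⟩, ⟨0, 0, -1⟩⟩, ⟨⟨-1, 0, 0⟩, ⟨0, -1, 0⟩, ⟨0, 0, -1⟩⟩⟩,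
    ⟨⟨⟨0, 1, 0⟩, ⟨-1, 1, 0⟩, ⟨0, 0, -1⟩⟩, ⟨⟨1, 0, 0⟩, ⟨0, 1, 0⟩, ⟨0, 0, 1⟩⟩⟩,
    ⟨⟨⟨0, -1, 0⟩, ⟨1, -1, 0⟩, ⟨0, 0, 1⟩⟩, ⟨⟨1, 0, 0⟩, ⟨0, 1, 0⟩, ⟨0, 0, 1⟩⟩⟩,
    ⟨⟨⟨-1, 1, 0⟩, ⟨0, 1, 0⟩, ⟨0, 0, 1⟩⟩, ⟨⟨0, 1, 0⟩, ⟨1, 0, 0⟩, ⟨0, 0, -1⟩⟩⟩,
    ⟨⟨⟨1, -1, 0⟩, ⟨0, -1, 0⟩, ⟨0, 0, -1⟩⟩, ⟨⟨0, 1, 0⟩, ⟨1, 0, 0⟩, ⟨0, 0, -1⟩⟩⟩],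
   [(0, 0), (0, 1), (1, 1), (0, 2), (1, 2), (2, 2), (3, 2), (4, 0), (4, 1), (5, 0), (5, 1)],
   [⟨⟨0, 0, 0⟩, ⟨0, 0, 0⟩, ⟨0, 0, 0⟩⟩,
    ⟨⟨-2, 0, 0⟩, ⟨-1, 0, 0⟩, ⟨0, 0, -2⟩⟩,
    ⟨⟨-1, 0, 0⟩, ⟨-2, 0, 0⟩, ⟨0, 0, 2⟩⟩,
    ⟨⟨1, 0, 0⟩, ⟨2, 0, 0⟩, ⟨0, 0, -2⟩⟩,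
    ⟨⟨2, 0, 0⟩, ⟨1, 0, 0⟩, ⟨0, 0, 2⟩⟩,
    ⟨⟨0, -2, 0⟩, ⟨-2, 0, 0⟩, ⟨0, 0, 2⟩⟩,
    ⟨⟨-2, 0, 0⟩, ⟨0, -2, 0⟩, ⟨0, 0, -2⟩⟩,
    ⟨⟨2, 0, 0⟩, ⟨0, 2, 0⟩, ⟨0, 0, 2⟩⟩,
    ⟨⟨1, 0, 0⟩, ⟨-2, 2, 0⟩, ⟨0, 0, 1⟩⟩,
    ⟨⟨0, 0, 0⟩, ⟨-1, 2, 0⟩, ⟨0, 0, 3⟩⟩,
    ⟨⟨1, -2, 0⟩, ⟨0, 0, 0⟩, ⟨0, 0, 3⟩⟩,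
    ⟨⟨2, -2, 0⟩, ⟨-1, 0, 0⟩, ⟨0, 0, 1⟩⟩,
    ⟨⟨0, 2, 0⟩, ⟨2, 0, 0⟩, ⟨0, 0, -2⟩⟩,
    ⟨⟨-2, 2, 0⟩, ⟨1, 0, 0⟩, ⟨0, 0, -1⟩⟩,
    ⟨⟨-1, 2, 0⟩, ⟨0, 0, 0⟩, ⟨0, 0, -3⟩⟩,
    ⟨⟨0, 0, 0⟩, ⟨1, -2, 0⟩, ⟨0, 0, -3⟩⟩,
    ⟨⟨-1, 0, 0⟩, ⟨2, -2, 0⟩, ⟨0, 0, -1⟩⟩],
   [[(1, 0), (2, 0), (4, 0), (4, 1)],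
    [(0, 0), (3, 0), (5, 0), (5, 2)],
    [(3, 0), (0, 0), (6, 0), (6, 3)],
    [(2, 0), (1, 0), (7, 0), (7, 4)],
    [(8, 0), (9, 0), (0, 4), (0, 0)],
    [(10, 0), (11, 0), (1, 3), (1, 0)],
    [(11, 5), (10, 5), (2, 2), (2, 0)],
    [(9, 6), (8, 6), (3, 1), (3, 0)],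
    [(4, 0), (7, 7), (11, 8), (11, 9)],
    [(7, 7), (4, 0), (10, 10), (10, 11)],
    [(5, 0), (6, 12), (9, 13), (9, 14)],
    [(6, 12), (5, 0), (8, 15), (8, 16)]]⟩

def hexLat22 : List LatE :=
  [⟨⟨⟨1, 0, 0⟩, ⟨0, 1, 0⟩, ⟨0, 0, 1⟩⟩, 1, ⟨⟨0, 0, 0⟩, ⟨0, 0, 0⟩, ⟨0, 0, 0⟩⟩⟩]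

def hexRow23 : Row :=
  ⟨[⟨⟨0, 1, 0⟩, ⟨1, 0, 0⟩, ⟨0, 0, -1⟩⟩, ⟨⟨0, -1, 0⟩, ⟨-1, 0, 0⟩, ⟨0, 0, 1⟩⟩], ⟨⟨1, 0, 0⟩, ⟨1, -1, 0⟩, ⟨0, 0, -1⟩⟩, ⟨⟨1, 0, 0⟩, ⟨1, -1, 0⟩, ⟨0, 0, -1⟩⟩, 4,
   [⟨⟨⟨1, 0, 0⟩, ⟨0, 1, 0⟩, ⟨0, 0, 1⟩⟩, ⟨⟨0, 0, 0⟩, ⟨0, 0, 0⟩, ⟨0, 0, 0⟩⟩⟩,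
    ⟨⟨⟨0, 1, 0⟩, ⟨1, 0, 0⟩, ⟨0, 0, -1⟩⟩, ⟨⟨0, 0, 0⟩, ⟨0, 0, 0⟩, ⟨0, 0, 0⟩⟩⟩,
    ⟨⟨⟨0, -1, 0⟩, ⟨-1, 0, 0⟩, ⟨0, 0, 1⟩⟩, ⟨⟨0, 0, 0⟩, ⟨0, 0, 0⟩, ⟨0, 0, 0⟩⟩⟩,
    ⟨⟨⟨-1, 0, 0⟩, ⟨0, -1, 0⟩, ⟨0, 0, -1⟩⟩, ⟨⟨0, 0, 0⟩, ⟨0, 0, 0⟩, ⟨0, 0, 0⟩⟩⟩,
    ⟨⟨⟨1, 0, 0⟩, ⟨1, -1, 0⟩, ⟨0, 0, -1⟩⟩, ⟨⟨1, 0, 0⟩, ⟨0, 1, 0⟩, ⟨0, 0, 1⟩⟩⟩,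
    ⟨⟨⟨1, -1, 0⟩, ⟨1, 0, 0⟩, ⟨0, 0, 1⟩⟩, ⟨⟨0, 1, 0⟩, ⟨1, 0, 0⟩, ⟨0, 0, -1⟩⟩⟩,
    ⟨⟨⟨-1, 1, 0⟩, ⟨-1, 0, 0⟩, ⟨0, 0, -1⟩⟩, ⟨⟨0, -1, 0⟩, ⟨-1, 0, 0⟩, ⟨0, 0, 1⟩⟩⟩,
    ⟨⟨⟨-1, 0, 0⟩, ⟨-1, 1, 0⟩, ⟨0, 0, 1⟩⟩, ⟨⟨-1, 0, 0⟩, ⟨0, -1, 0⟩, ⟨0, 0, -1⟩⟩⟩,
    ⟨⟨⟨0, 1, 0⟩, ⟨-1, 1, 0⟩, ⟨0, 0, 1⟩⟩, ⟨⟨1, 0, 0⟩, ⟨0, 1, 0⟩, ⟨0, 0, 1⟩⟩⟩,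
    ⟨⟨⟨0, -1, 0⟩, ⟨1, -1, 0⟩, ⟨0, 0, -1⟩⟩, ⟨⟨1, 0, 0⟩, ⟨0, 1, 0⟩, ⟨0, 0, 1⟩⟩⟩,
    ⟨⟨⟨-1, 1, 0⟩, ⟨0, 1, 0⟩, ⟨0, 0, -1⟩⟩, ⟨⟨0, 1, 0⟩, ⟨1, 0, 0⟩, ⟨0, 0, -1⟩⟩⟩,
    ⟨⟨⟨1, -1, 0⟩, ⟨0, -1, 0⟩, ⟨0, 0, 1⟩⟩, ⟨⟨0, 1, 0⟩, ⟨1, 0, 0⟩, ⟨0, 0, -1⟩⟩⟩,
    ⟨⟨⟨1, -1, 0⟩, ⟨0, -1, 0⟩, ⟨0, 0, -1⟩⟩, ⟨⟨1, 1, 0⟩, ⟨-1, 2, 0⟩, ⟨0, 0, 2⟩⟩⟩,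
    ⟨⟨⟨-1, 1, 0⟩, ⟨0, 1, 0⟩, ⟨0, 0, 1⟩⟩, ⟨⟨1, -1, 0⟩, ⟨1, 0, 0⟩, ⟨0, 0, 0⟩⟩⟩,
    ⟨⟨⟨0, -1, 0⟩, ⟨1, -1, 0⟩, ⟨0, 0, 1⟩⟩, ⟨⟨-1, 2, 0⟩, ⟨1, 1, 0⟩, ⟨0, 0, -2⟩⟩⟩,
    ⟨⟨⟨0, 1, 0⟩, ⟨-1, 1, 0⟩, ⟨0, 0, -1⟩⟩, ⟨⟨1, 0, 0⟩, ⟨1, -1, 0⟩, ⟨0, 0, 0⟩⟩⟩,
    ⟨⟨⟨-1, 1, 0⟩, ⟨-1, 0, 0⟩, ⟨0, 0, 1⟩⟩, ⟨⟨1, 1, 0⟩, ⟨-1, 2, 0⟩, ⟨0, 0, 2⟩⟩⟩,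
    ⟨⟨⟨1, -1, 0⟩, ⟨1, 0, 0⟩, ⟨0, 0, -1⟩⟩, ⟨⟨1, 1, 0⟩, ⟨-1, 2, 0⟩, ⟨0, 0, 2⟩⟩⟩,
    ⟨⟨⟨-1, 0, 0⟩, ⟨-1, 1, 0⟩, ⟨0, 0, -1⟩⟩, ⟨⟨-1, 2, 0⟩, ⟨1, 1, 0⟩, ⟨0, 0, -2⟩⟩⟩,
    ⟨⟨⟨1, 0, 0⟩, ⟨1, -1, 0⟩, ⟨0, 0, 1⟩⟩, ⟨⟨-1, 2, 0⟩, ⟨1, 1, 0⟩, ⟨0, 0, -2⟩⟩⟩,
    ⟨⟨⟨0, -1, 0⟩, ⟨-1, 0, 0⟩, ⟨0, 0, -1⟩⟩, ⟨⟨0, 2, 0⟩, ⟨-2, 2, 0⟩, ⟨0, 0, 3⟩⟩⟩,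
    ⟨⟨⟨0, 1, 0⟩, ⟨1, 0, 0⟩, ⟨0, 0, 1⟩⟩, ⟨⟨2, 0, 0⟩, ⟨0, 2, 0⟩, ⟨0, 0, 1⟩⟩⟩,
    ⟨⟨⟨-1, 0, 0⟩, ⟨0, -1, 0⟩, ⟨0, 0, 1⟩⟩, ⟨⟨-2, 2, 0⟩, ⟨0, 2, 0⟩, ⟨0, 0, -3⟩⟩⟩,
    ⟨⟨⟨1, 0, 0⟩, ⟨0, 1, 0⟩, ⟨0, 0, -1⟩⟩, ⟨⟨0, 2, 0⟩, ⟨2, 0, 0⟩, ⟨0, 0, -1⟩⟩⟩],
   [(0, 0), (0, 1), (1, 1), (0, 2), (1, 2), (2, 2), (3, 2), (4, 0), (4, 1), (5, 0), (5, 1), (8, 2), (9, 2), (10, 2), (11, 2), (12, 0), (12, 1), (14, 0), (14, 1), (16, 2), (17, 2), (18, 2), (19, 2)],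
   [⟨⟨0, 0, 0⟩, ⟨0, 0, 0⟩, ⟨0, 0, 0⟩⟩,
    ⟨⟨-2, 0, 0⟩, ⟨-1, 0, 0⟩, ⟨0, 0, 0⟩⟩,
    ⟨⟨-1, 0, 0⟩, ⟨-2, 0, 0⟩, ⟨0, 0, 0⟩⟩,
    ⟨⟨1, 0, 0⟩, ⟨2, 0, 0⟩, ⟨0, 0, 0⟩⟩,
    ⟨⟨2, 0, 0⟩, ⟨1, 0, 0⟩, ⟨0, 0, 0⟩⟩,
    ⟨⟨0, -2, 0⟩, ⟨-2, 0, 0⟩, ⟨0, 0, 2⟩⟩,
    ⟨⟨-2, 0, 0⟩, ⟨0, -2, 0⟩, ⟨0, 0, -2⟩⟩,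
    ⟨⟨2, 0, 0⟩, ⟨0, 2, 0⟩, ⟨0, 0, 2⟩⟩,
    ⟨⟨-1, 0, 0⟩, ⟨1, 0, 0⟩, ⟨0, 0, 0⟩⟩,
    ⟨⟨1, 0, 0⟩, ⟨-1, 0, 0⟩, ⟨0, 0, 0⟩⟩,
    ⟨⟨0, 2, 0⟩, ⟨2, 0, 0⟩, ⟨0, 0, -2⟩⟩,
    ⟨⟨0, -2, 0⟩, ⟨2, -2, 0⟩, ⟨0, 0, -2⟩⟩,
    ⟨⟨2, -2, 0⟩, ⟨0, -2, 0⟩, ⟨0, 0, 2⟩⟩,
    ⟨⟨0, 2, 0⟩, ⟨-2, 2, 0⟩, ⟨0, 0, 2⟩⟩,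
    ⟨⟨-2, 2, 0⟩, ⟨0, 2, 0⟩, ⟨0, 0, -2⟩⟩,
    ⟨⟨2, 0, 0⟩, ⟨-2, 0, 0⟩, ⟨0, 0, 6⟩⟩,
    ⟨⟨0, 0, 0⟩, ⟨-4, 2, 0⟩, ⟨0, 0, 4⟩⟩,
    ⟨⟨2, -2, 0⟩, ⟨-2, 2, 0⟩, ⟨0, 0, 2⟩⟩,
    ⟨⟨4, -2, 0⟩, ⟨0, 0, 0⟩, ⟨0, 0, 4⟩⟩,
    ⟨⟨-2, 0, 0⟩, ⟨2, 0, 0⟩, ⟨0, 0, -6⟩⟩,
    ⟨⟨-4, 2, 0⟩, ⟨0, 0, 0⟩, ⟨0, 0, -4⟩⟩,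
    ⟨⟨-2, 2, 0⟩, ⟨2, -2, 0⟩, ⟨0, 0, -2⟩⟩,
    ⟨⟨0, 0, 0⟩, ⟨4, -2, 0⟩, ⟨0, 0, -4⟩⟩],
   [[(1, 0), (2, 0), (4, 0), (4, 1)],
    [(0, 0), (3, 0), (5, 0), (5, 2)],
    [(3, 0), (0, 0), (6, 0), (6, 3)],
    [(2, 0), (1, 0), (7, 0), (7, 4)],
    [(8, 0), (9, 0), (0, 4), (0, 0)],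
    [(10, 0), (11, 0), (1, 3), (1, 0)],
    [(11, 5), (10, 5), (2, 2), (2, 0)],
    [(9, 6), (8, 6), (3, 1), (3, 0)],
    [(4, 0), (7, 7), (12, 0), (12, 8)],
    [(7, 7), (4, 0), (13, 0), (13, 9)],
    [(5, 0), (6, 10), (14, 0), (14, 9)],
    [(6, 10), (5, 0), (15, 0), (15, 8)],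
    [(16, 0), (17, 0), (8, 9), (8, 0)],
    [(17, 11), (16, 11), (9, 8), (9, 0)],
    [(18, 0), (19, 0), (10, 8), (10, 0)],
    [(19, 12), (18, 12), (11, 9), (11, 0)],
    [(12, 0), (13, 13), (20, 0), (20, 3)],
    [(13, 13), (12, 0), (21, 0), (21, 2)],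
    [(14, 0), (15, 14), (22, 0), (22, 4)],
    [(15, 14), (14, 0), (23, 0), (23, 1)],
    [(22, 15), (23, 16), (16, 2), (16, 0)],
    [(23, 17), (22, 18), (17, 3), (17, 0)],
    [(20, 19), (21, 20), (18, 1), (18, 0)],
    [(21, 21), (20, 22), (19, 4), (19, 0)]]⟩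

def hexLat23 : List LatE :=
  [⟨⟨⟨1, 0, 0⟩, ⟨0, 1, 0⟩, ⟨0, 0, 1⟩⟩, 1, ⟨⟨0, 0, 0⟩, ⟨0, 0, 0⟩, ⟨0, 0, 0⟩⟩⟩]

def hexRow24 : Row :=
  ⟨[⟨⟨0, 1, 0⟩, ⟨1, 0, 0⟩, ⟨0, 0, 1⟩⟩, ⟨⟨0, -1, 0⟩, ⟨-1, 0, 0⟩, ⟨0, 0, 1⟩⟩], ⟨⟨1, 0, 0⟩, ⟨1, -1, 0⟩, ⟨0, 0, 1⟩⟩, ⟨⟨1, 0, 0⟩, ⟨1, -1, 0⟩, ⟨0, 0, 1⟩⟩, 4,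
   [⟨⟨⟨1, 0, 0⟩, ⟨0, 1, 0⟩, ⟨0, 0, 1⟩⟩, ⟨⟨0, 0, 0⟩, ⟨0, 0, 0⟩, ⟨0, 0, 0⟩⟩⟩,
    ⟨⟨⟨0, 1, 0⟩, ⟨1, 0, 0⟩, ⟨0, 0, 1⟩⟩, ⟨⟨0, 0, 0⟩, ⟨0, 0, 0⟩, ⟨0, 0, 0⟩⟩⟩,
    ⟨⟨⟨0, -1, 0⟩, ⟨-1, 0, 0⟩, ⟨0, 0, 1⟩⟩, ⟨⟨0, 0, 0⟩, ⟨0, 0, 0⟩, ⟨0, 0, 0⟩⟩⟩,
    ⟨⟨⟨-1, 0, 0⟩, ⟨0, -1, 0⟩, ⟨0, 0, 1⟩⟩, ⟨⟨0, 0, 0⟩, ⟨0, 0, 0⟩, ⟨0, 0, 0⟩⟩⟩,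
    ⟨⟨⟨1, 0, 0⟩, ⟨1, -1, 0⟩, ⟨0, 0, 1⟩⟩, ⟨⟨1, 0, 0⟩, ⟨0, 1, 0⟩, ⟨0, 0, 1⟩⟩⟩,
    ⟨⟨⟨1, -1, 0⟩, ⟨1, 0, 0⟩, ⟨0, 0, 1⟩⟩, ⟨⟨0, 1, 0⟩, ⟨1, 0, 0⟩, ⟨0, 0, 1⟩⟩⟩,
    ⟨⟨⟨-1, 1, 0⟩, ⟨-1, 0, 0⟩, ⟨0, 0, 1⟩⟩, ⟨⟨0, -1, 0⟩, ⟨-1, 0, 0⟩, ⟨0, 0, 1⟩⟩⟩,
    ⟨⟨⟨-1, 0, 0⟩, ⟨-1, 1, 0⟩, ⟨0, 0, 1⟩⟩, ⟨⟨-1, 0, 0⟩, ⟨0, -1, 0⟩, ⟨0, 0, 1⟩⟩⟩,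
    ⟨⟨⟨0, 1, 0⟩, ⟨-1, 1, 0⟩, ⟨0, 0, 1⟩⟩, ⟨⟨1, 0, 0⟩, ⟨0, 1, 0⟩, ⟨0, 0, 1⟩⟩⟩,
    ⟨⟨⟨0, -1, 0⟩, ⟨1, -1, 0⟩, ⟨0, 0, 1⟩⟩, ⟨⟨1, 0, 0⟩, ⟨0, 1, 0⟩, ⟨0, 0, 1⟩⟩⟩,
    ⟨⟨⟨-1, 1, 0⟩, ⟨0, 1, 0⟩, ⟨0, 0, 1⟩⟩, ⟨⟨0, 1, 0⟩, ⟨1, 0, 0⟩, ⟨0, 0, 1⟩⟩⟩,
    ⟨⟨⟨1, -1, 0⟩, ⟨0, -1, 0⟩, ⟨0, 0, 1⟩⟩, ⟨⟨0, 1, 0⟩, ⟨1, 0, 0⟩, ⟨0, 0, 1⟩⟩⟩],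
   [(0, 0), (0, 1), (1, 1), (0, 2), (1, 2), (2, 2), (3, 2), (4, 0), (4, 1), (5, 0), (5, 1)],
   [⟨⟨0, 0, 0⟩, ⟨0, 0, 0⟩, ⟨0, 0, 0⟩⟩,
    ⟨⟨-2, 0, 0⟩, ⟨-1, 0, 0⟩, ⟨0, 0, -2⟩⟩,
    ⟨⟨-1, 0, 0⟩, ⟨-2, 0, 0⟩, ⟨0, 0, -2⟩⟩,
    ⟨⟨1, 0, 0⟩, ⟨2, 0, 0⟩, ⟨0, 0, -2⟩⟩,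
    ⟨⟨2, 0, 0⟩, ⟨1, 0, 0⟩, ⟨0, 0, -2⟩⟩,
    ⟨⟨2, 0, 0⟩, ⟨1, 0, 0⟩, ⟨0, 0, 2⟩⟩,
    ⟨⟨1, 0, 0⟩, ⟨2, 0, 0⟩, ⟨0, 0, 2⟩⟩,
    ⟨⟨0, -2, 0⟩, ⟨-2, 0, 0⟩, ⟨0, 0, 0⟩⟩,
    ⟨⟨-1, 0, 0⟩, ⟨-2, 0, 0⟩, ⟨0, 0, 2⟩⟩,
    ⟨⟨-2, 0, 0⟩, ⟨0, -2, 0⟩, ⟨0, 0, 0⟩⟩,
    ⟨⟨-2, 0, 0⟩, ⟨-1, 0, 0⟩, ⟨0, 0, 2⟩⟩,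
    ⟨⟨2, 0, 0⟩, ⟨0, 2, 0⟩, ⟨0, 0, 0⟩⟩,
    ⟨⟨1, 0, 0⟩, ⟨-2, 2, 0⟩, ⟨0, 0, 1⟩⟩,
    ⟨⟨0, 0, 0⟩, ⟨-1, 2, 0⟩, ⟨0, 0, -1⟩⟩,
    ⟨⟨1, -2, 0⟩, ⟨0, 0, 0⟩, ⟨0, 0, 1⟩⟩,
    ⟨⟨2, -2, 0⟩, ⟨-1, 0, 0⟩, ⟨0, 0, -1⟩⟩,
    ⟨⟨0, 2, 0⟩, ⟨2, 0, 0⟩, ⟨0, 0, 0⟩⟩,
    ⟨⟨-2, 2, 0⟩, ⟨1, 0, 0⟩, ⟨0, 0, 1⟩⟩,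
    ⟨⟨-1, 2, 0⟩, ⟨0, 0, 0⟩, ⟨0, 0, -1⟩⟩,
    ⟨⟨0, 0, 0⟩, ⟨1, -2, 0⟩, ⟨0, 0, 1⟩⟩,
    ⟨⟨-1, 0, 0⟩, ⟨2, -2, 0⟩, ⟨0, 0, -1⟩⟩],
   [[(1, 0), (2, 0), (4, 0), (4, 1)],
    [(0, 0), (3, 0), (5, 0), (5, 2)],
    [(3, 0), (0, 0), (6, 0), (6, 3)],
    [(2, 0), (1, 0), (7, 0), (7, 4)],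
    [(8, 0), (9, 0), (0, 5), (0, 0)],
    [(10, 0), (11, 0), (1, 6), (1, 0)],
    [(11, 7), (10, 7), (2, 8), (2, 0)],
    [(9, 9), (8, 9), (3, 10), (3, 0)],
    [(4, 0), (7, 11), (11, 12), (11, 13)],
    [(7, 11), (4, 0), (10, 14), (10, 15)],
    [(5, 0), (6, 16), (9, 17), (9, 18)],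
    [(6, 16), (5, 0), (8, 19), (8, 20)]]⟩

def hexLat24 : List LatE :=
  [⟨⟨⟨1, 0, 0⟩, ⟨0, 1, 0⟩, ⟨0, 0, 1⟩⟩, 1, ⟨⟨0, 0, 0⟩, ⟨0, 0, 0⟩, ⟨0, 0, 0⟩⟩⟩]

def hexRow25 : Row :=
  ⟨[⟨⟨0, 1, 0⟩, ⟨1, 0, 0⟩, ⟨0, 0, 1⟩⟩, ⟨⟨0, -1, 0⟩, ⟨-1, 0, 0⟩, ⟨0, 0, 1⟩⟩], ⟨⟨1, 0, 0⟩, ⟨1, -1, 0⟩, ⟨0, 0, -1⟩⟩, ⟨⟨1, 0, 0⟩, ⟨1, -1, 0⟩, ⟨0, 0, -1⟩⟩, 4,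
   [⟨⟨⟨1, 0, 0⟩, ⟨0, 1, 0⟩, ⟨0, 0, 1⟩⟩, ⟨⟨0, 0, 0⟩, ⟨0, 0, 0⟩, ⟨0, 0, 0⟩⟩⟩,
    ⟨⟨⟨0, 1, 0⟩, ⟨1, 0, 0⟩, ⟨0, 0, 1⟩⟩, ⟨⟨0, 0, 0⟩, ⟨0, 0, 0⟩, ⟨0, 0, 0⟩⟩⟩,
    ⟨⟨⟨0, -1, 0⟩, ⟨-1, 0, 0⟩, ⟨0, 0, 1⟩⟩, ⟨⟨0, 0, 0⟩, ⟨0, 0, 0⟩, ⟨0, 0, 0⟩⟩⟩,
    ⟨⟨⟨-1, 0, 0⟩, ⟨0, -1, 0⟩, ⟨0, 0, 1⟩⟩, ⟨⟨0, 0, 0⟩, ⟨0, 0, 0⟩, ⟨0, 0, 0⟩⟩⟩,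
    ⟨⟨⟨1, 0, 0⟩, ⟨1, -1, 0⟩, ⟨0, 0, -1⟩⟩, ⟨⟨1, 0, 0⟩, ⟨0, 1, 0⟩, ⟨0, 0, 1⟩⟩⟩,
    ⟨⟨⟨1, -1, 0⟩, ⟨1, 0, 0⟩, ⟨0, 0, -1⟩⟩, ⟨⟨0, 1, 0⟩, ⟨1, 0, 0⟩, ⟨0, 0, 1⟩⟩⟩,
    ⟨⟨⟨-1, 1, 0⟩, ⟨-1, 0, 0⟩, ⟨0, 0, -1⟩⟩, ⟨⟨0, -1, 0⟩, ⟨-1, 0, 0⟩, ⟨0, 0, 1⟩⟩⟩,
    ⟨⟨⟨-1, 0, 0⟩, ⟨-1, 1, 0⟩, ⟨0, 0, -1⟩⟩, ⟨⟨-1, 0, 0⟩, ⟨0, -1, 0⟩, ⟨0, 0, 1⟩⟩⟩,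
    ⟨⟨⟨0, 1, 0⟩, ⟨-1, 1, 0⟩, ⟨0, 0, -1⟩⟩, ⟨⟨1, 0, 0⟩, ⟨0, 1, 0⟩, ⟨0, 0, 1⟩⟩⟩,
    ⟨⟨⟨0, -1, 0⟩, ⟨1, -1, 0⟩, ⟨0, 0, -1⟩⟩, ⟨⟨1, 0, 0⟩, ⟨0, 1, 0⟩, ⟨0, 0, 1⟩⟩⟩,
    ⟨⟨⟨-1, 1, 0⟩, ⟨0, 1, 0⟩, ⟨0, 0, -1⟩⟩, ⟨⟨0, 1, 0⟩, ⟨1, 0, 0⟩, ⟨0, 0, 1⟩⟩⟩,
    ⟨⟨⟨1, -1, 0⟩, ⟨0, -1, 0⟩, ⟨0, 0, -1⟩⟩, ⟨⟨0, 1, 0⟩, ⟨1, 0, 0⟩, ⟨0, 0, 1⟩⟩⟩,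
    ⟨⟨⟨1, -1, 0⟩, ⟨0, -1, 0⟩, ⟨0, 0, 1⟩⟩, ⟨⟨1, 1, 0⟩, ⟨-1, 2, 0⟩, ⟨0, 0, 0⟩⟩⟩,
    ⟨⟨⟨-1, 1, 0⟩, ⟨0, 1, 0⟩, ⟨0, 0, 1⟩⟩, ⟨⟨1, -1, 0⟩, ⟨1, 0, 0⟩, ⟨0, 0, 0⟩⟩⟩,
    ⟨⟨⟨0, -1, 0⟩, ⟨1, -1, 0⟩, ⟨0, 0, 1⟩⟩, ⟨⟨-1, 2, 0⟩, ⟨1, 1, 0⟩, ⟨0, 0, 0⟩⟩⟩,
    ⟨⟨⟨0, 1, 0⟩, ⟨-1, 1, 0⟩, ⟨0, 0, 1⟩⟩, ⟨⟨1, 0, 0⟩, ⟨1, -1, 0⟩, ⟨0, 0, 0⟩⟩⟩,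
    ⟨⟨⟨-1, 1, 0⟩, ⟨-1, 0, 0⟩, ⟨0, 0, 1⟩⟩, ⟨⟨1, 1, 0⟩, ⟨-1, 2, 0⟩, ⟨0, 0, 0⟩⟩⟩,
    ⟨⟨⟨1, -1, 0⟩, ⟨1, 0, 0⟩, ⟨0, 0, 1⟩⟩, ⟨⟨1, 1, 0⟩, ⟨-1, 2, 0⟩, ⟨0, 0, 0⟩⟩⟩,
    ⟨⟨⟨-1, 0, 0⟩, ⟨-1, 1, 0⟩, ⟨0, 0, 1⟩⟩, ⟨⟨-1, 2, 0⟩, ⟨1, 1, 0⟩, ⟨0, 0, 0⟩⟩⟩,
    ⟨⟨⟨1, 0, 0⟩, ⟨1, -1, 0⟩, ⟨0, 0, 1⟩⟩, ⟨⟨-1, 2, 0⟩, ⟨1, 1, 0⟩, ⟨0, 0, 0⟩⟩⟩,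
    ⟨⟨⟨0, -1, 0⟩, ⟨-1, 0, 0⟩, ⟨0, 0, -1⟩⟩, ⟨⟨0, 2, 0⟩, ⟨-2, 2, 0⟩, ⟨0, 0, 1⟩⟩⟩,
    ⟨⟨⟨0, 1, 0⟩, ⟨1, 0, 0⟩, ⟨0, 0, -1⟩⟩, ⟨⟨2, 0, 0⟩, ⟨0, 2, 0⟩, ⟨0, 0, 1⟩⟩⟩,
    ⟨⟨⟨-1, 0, 0⟩, ⟨0, -1, 0⟩, ⟨0, 0, -1⟩⟩, ⟨⟨-2, 2, 0⟩, ⟨0, 2, 0⟩, ⟨0, 0, 1⟩⟩⟩,
    ⟨⟨⟨1, 0, 0⟩, ⟨0, 1, 0⟩, ⟨0, 0, -1⟩⟩, ⟨⟨0, 2, 0⟩, ⟨2, 0, 0⟩, ⟨0, 0, 1⟩⟩⟩],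
   [(0, 0), (0, 1), (1, 1), (0, 2), (1, 2), (2, 2), (3, 2), (4, 0), (4, 1), (5, 0), (5, 1), (8, 2), (9, 2), (10, 2), (11, 2), (12, 0), (12, 1), (14, 0), (14, 1), (16, 2), (17, 2), (18, 2), (19, 2)],
   [⟨⟨0, 0, 0⟩, ⟨0, 0, 0⟩, ⟨0, 0, 0⟩⟩,
    ⟨⟨-2, 0, 0⟩, ⟨-1, 0, 0⟩, ⟨0, 0, 0⟩⟩,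
    ⟨⟨-1, 0, 0⟩, ⟨-2, 0, 0⟩, ⟨0, 0, 0⟩⟩,
    ⟨⟨1, 0, 0⟩, ⟨2, 0, 0⟩, ⟨0, 0, 0⟩⟩,
    ⟨⟨2, 0, 0⟩, ⟨1, 0, 0⟩, ⟨0, 0, 0⟩⟩,
    ⟨⟨0, -2, 0⟩, ⟨-2, 0, 0⟩, ⟨0, 0, 0⟩⟩,
    ⟨⟨-2, 0, 0⟩, ⟨0, -2, 0⟩, ⟨0, 0, 0⟩⟩,
    ⟨⟨2, 0, 0⟩, ⟨0, 2, 0⟩, ⟨0, 0, 0⟩⟩,
    ⟨⟨-1, 0, 0⟩, ⟨1, 0, 0⟩, ⟨0, 0, 0⟩⟩,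
    ⟨⟨1, 0, 0⟩, ⟨-1, 0, 0⟩, ⟨0, 0, 0⟩⟩,
    ⟨⟨0, 2, 0⟩, ⟨2, 0, 0⟩, ⟨0, 0, 0⟩⟩,
    ⟨⟨0, -2, 0⟩, ⟨2, -2, 0⟩, ⟨0, 0, 0⟩⟩,
    ⟨⟨2, -2, 0⟩, ⟨0, -2, 0⟩, ⟨0, 0, 0⟩⟩,
    ⟨⟨0, 2, 0⟩, ⟨-2, 2, 0⟩, ⟨0, 0, 0⟩⟩,
    ⟨⟨-2, 2, 0⟩, ⟨0, 2, 0⟩, ⟨0, 0, 0⟩⟩,
    ⟨⟨2, 0, 0⟩, ⟨-2, 0, 0⟩, ⟨0, 0, 0⟩⟩,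
    ⟨⟨0, 0, 0⟩, ⟨-4, 2, 0⟩, ⟨0, 0, 0⟩⟩,
    ⟨⟨2, -2, 0⟩, ⟨-2, 2, 0⟩, ⟨0, 0, 0⟩⟩,
    ⟨⟨4, -2, 0⟩, ⟨0, 0, 0⟩, ⟨0, 0, 0⟩⟩,
    ⟨⟨-2, 0, 0⟩, ⟨2, 0, 0⟩, ⟨0, 0, 0⟩⟩,
    ⟨⟨-4, 2, 0⟩, ⟨0, 0, 0⟩, ⟨0, 0, 0⟩⟩,
    ⟨⟨-2, 2, 0⟩, ⟨2, -2, 0⟩, ⟨0, 0, 0⟩⟩,
    ⟨⟨0, 0, 0⟩, ⟨4, -2, 0⟩, ⟨0, 0, 0⟩⟩],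
   [[(1, 0), (2, 0), (4, 0), (4, 1)],
    [(0, 0), (3, 0), (5, 0), (5, 2)],
    [(3, 0), (0, 0), (6, 0), (6, 3)],
    [(2, 0), (1, 0), (7, 0), (7, 4)],
    [(8, 0), (9, 0), (0, 4), (0, 0)],
    [(10, 0), (11, 0), (1, 3), (1, 0)],
    [(11, 5), (10, 5), (2, 2), (2, 0)],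
    [(9, 6), (8, 6), (3, 1), (3, 0)],
    [(4, 0), (7, 7), (12, 0), (12, 8)],
    [(7, 7), (4, 0), (13, 0), (13, 9)],
    [(5, 0), (6, 10), (14, 0), (14, 9)],
    [(6, 10), (5, 0), (15, 0), (15, 8)],
    [(16, 0), (17, 0), (8, 9), (8, 0)],
    [(17, 11), (16, 11), (9, 8), (9, 0)],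
    [(18, 0), (19, 0), (10, 8), (10, 0)],
    [(19, 12), (18, 12), (11, 9), (11, 0)],
    [(12, 0), (13, 13), (20, 0), (20, 3)],
    [(13, 13), (12, 0), (21, 0), (21, 2)],
    [(14, 0), (15, 14), (22, 0), (22, 4)],
    [(15, 14), (14, 0), (23, 0), (23, 1)],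
    [(22, 15), (23, 16), (16, 2), (16, 0)],
    [(23, 17), (22, 18), (17, 3), (17, 0)],
    [(20, 19), (21, 20), (18, 1), (18, 0)],
    [(21, 21), (20, 22), (19, 4), (19, 0)]]⟩

def hexLat25 : List LatE :=
  [⟨⟨⟨1, 0, 0⟩, ⟨0, 1, 0⟩, ⟨0, 0, 1⟩⟩, 1, ⟨⟨0, 0, 1⟩, ⟨0, 0, 0⟩, ⟨0, 0, 0⟩⟩⟩]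

def hexRow26 : Row :=
  ⟨[⟨⟨1, 0, 0⟩, ⟨0, 1, 0⟩, ⟨0, 0, -1⟩⟩, ⟨⟨-1, 0, 0⟩, ⟨-1, 1, 0⟩, ⟨0, 0, 1⟩⟩], ⟨⟨1, -1, 0⟩, ⟨1, 0, 0⟩, ⟨0, 0, 1⟩⟩, ⟨⟨0, 1, 0⟩, ⟨-1, 1, 0⟩, ⟨0, 0, 1⟩⟩, 4,
   [⟨⟨⟨1, 0, 0⟩, ⟨0, 1, 0⟩, ⟨0, 0, 1⟩⟩, ⟨⟨0, 0, 0⟩, ⟨0, 0, 0⟩, ⟨0, 0, 0⟩⟩⟩,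
    ⟨⟨⟨1, 0, 0⟩, ⟨0, 1, 0⟩, ⟨0, 0, -1⟩⟩, ⟨⟨0, 0, 0⟩, ⟨0, 0, 0⟩, ⟨0, 0, 0⟩⟩⟩,
    ⟨⟨⟨-1, 0, 0⟩, ⟨-1, 1, 0⟩, ⟨0, 0, 1⟩⟩, ⟨⟨0, 0, 0⟩, ⟨0, 0, 0⟩, ⟨0, 0, 0⟩⟩⟩,
    ⟨⟨⟨-1, 0, 0⟩, ⟨-1, 1, 0⟩, ⟨0, 0, -1⟩⟩, ⟨⟨0, 0, 0⟩, ⟨0, 0, 0⟩, ⟨0, 0, 0⟩⟩⟩,
    ⟨⟨⟨1, -1, 0⟩, ⟨1, 0, 0⟩, ⟨0, 0, 1⟩⟩, ⟨⟨1, 0, 0⟩, ⟨0, 1, 0⟩, ⟨0, 0, 1⟩⟩⟩,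
    ⟨⟨⟨0, 1, 0⟩, ⟨-1, 1, 0⟩, ⟨0, 0, 1⟩⟩, ⟨⟨0, -1, 0⟩, ⟨1, -1, 0⟩, ⟨0, 0, -1⟩⟩⟩,
    ⟨⟨⟨1, -1, 0⟩, ⟨1, 0, 0⟩, ⟨0, 0, -1⟩⟩, ⟨⟨1, 0, 0⟩, ⟨0, 1, 0⟩, ⟨0, 0, -1⟩⟩⟩,
    ⟨⟨⟨0, 1, 0⟩, ⟨-1, 1, 0⟩, ⟨0, 0, -1⟩⟩, ⟨⟨0, -1, 0⟩, ⟨1, -1, 0⟩, ⟨0, 0, 1⟩⟩⟩,
    ⟨⟨⟨-1, 1, 0⟩, ⟨0, 1, 0⟩, ⟨0, 0, 1⟩⟩, ⟨⟨-1, 0, 0⟩, ⟨-1, 1, 0⟩, ⟨0, 0, 1⟩⟩⟩,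
    ⟨⟨⟨0, -1, 0⟩, ⟨-1, 0, 0⟩, ⟨0, 0, 1⟩⟩, ⟨⟨0, 1, 0⟩, ⟨1, 0, 0⟩, ⟨0, 0, -1⟩⟩⟩,
    ⟨⟨⟨-1, 1, 0⟩, ⟨0, 1, 0⟩, ⟨0, 0, -1⟩⟩, ⟨⟨-1, 0, 0⟩, ⟨-1, 1, 0⟩, ⟨0, 0, -1⟩⟩⟩,
    ⟨⟨⟨0, -1, 0⟩, ⟨-1, 0, 0⟩, ⟨0, 0, -1⟩⟩, ⟨⟨0, 1, 0⟩, ⟨1, 0, 0⟩, ⟨0, 0, 1⟩⟩⟩,
    ⟨⟨⟨0, -1, 0⟩, ⟨1, -1, 0⟩, ⟨0, 0, 1⟩⟩, ⟨⟨2, -1, 0⟩, ⟨1, 1, 0⟩, ⟨0, 0, 2⟩⟩⟩,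
    ⟨⟨⟨-1, 1, 0⟩, ⟨-1, 0, 0⟩, ⟨0, 0, 1⟩⟩, ⟨⟨1, -2, 0⟩, ⟨2, -1, 0⟩, ⟨0, 0, -2⟩⟩⟩,
    ⟨⟨⟨0, -1, 0⟩, ⟨1, -1, 0⟩, ⟨0, 0, -1⟩⟩, ⟨⟨2, -1, 0⟩, ⟨1, 1, 0⟩, ⟨0, 0, -2⟩⟩⟩,
    ⟨⟨⟨-1, 1, 0⟩, ⟨-1, 0, 0⟩, ⟨0, 0, -1⟩⟩, ⟨⟨1, -2, 0⟩, ⟨2, -1, 0⟩, ⟨0, 0, 2⟩⟩⟩,
    ⟨⟨⟨0, 1, 0⟩, ⟨1, 0, 0⟩, ⟨0, 0, 1⟩⟩, ⟨⟨-2, 1, 0⟩, ⟨-1, 2, 0⟩, ⟨0, 0, 2⟩⟩⟩,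
    ⟨⟨⟨1, -1, 0⟩, ⟨0, -1, 0⟩, ⟨0, 0, 1⟩⟩, ⟨⟨-1, 2, 0⟩, ⟨1, 1, 0⟩, ⟨0, 0, -2⟩⟩⟩,
    ⟨⟨⟨0, 1, 0⟩, ⟨1, 0, 0⟩, ⟨0, 0, -1⟩⟩, ⟨⟨-2, 1, 0⟩, ⟨-1, 2, 0⟩, ⟨0, 0, -2⟩⟩⟩,
    ⟨⟨⟨1, -1, 0⟩, ⟨0, -1, 0⟩, ⟨0, 0, -1⟩⟩, ⟨⟨-1, 2, 0⟩, ⟨1, 1, 0⟩, ⟨0, 0, 2⟩⟩⟩,
    ⟨⟨⟨-1, 0, 0⟩, ⟨0, -1, 0⟩, ⟨0, 0, 1⟩⟩, ⟨⟨2, -2, 0⟩, ⟨2, 0, 0⟩, ⟨0, 0, 3⟩⟩⟩,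
    ⟨⟨⟨-1, 0, 0⟩, ⟨0, -1, 0⟩, ⟨0, 0, -1⟩⟩, ⟨⟨2, -2, 0⟩, ⟨2, 0, 0⟩, ⟨0, 0, -3⟩⟩⟩,
    ⟨⟨⟨1, 0, 0⟩, ⟨1, -1, 0⟩, ⟨0, 0, 1⟩⟩, ⟨⟨-2, 2, 0⟩, ⟨0, 2, 0⟩, ⟨0, 0, 3⟩⟩⟩,
    ⟨⟨⟨1, 0, 0⟩, ⟨1, -1, 0⟩, ⟨0, 0, -1⟩⟩, ⟨⟨-2, 2, 0⟩, ⟨0, 2, 0⟩, ⟨0, 0, -3⟩⟩⟩],
   [(0, 0), (0, 1), (1, 1), (0, 2), (0, 3), (1, 2), (1, 3), (2, 2), (2, 3), (3, 2), (3, 3), (4, 2), (5, 3), (6, 2), (7, 3), (8, 2), (9, 3), (10, 2), (11, 3), (12, 2), (14, 2), (16, 2), (18, 2)],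
   [⟨⟨0, 0, 0⟩, ⟨0, 0, 0⟩, ⟨0, 0, 0⟩⟩,
    ⟨⟨0, 0, 0⟩, ⟨0, 0, 0⟩, ⟨0, 0, 2⟩⟩,
    ⟨⟨1, -1, 0⟩, ⟨-1, 1, 0⟩, ⟨0, 0, 2⟩⟩,
    ⟨⟨0, 0, 0⟩, ⟨0, 0, 0⟩, ⟨0, 0, -2⟩⟩,
    ⟨⟨1, -1, 0⟩, ⟨2, -2, 0⟩, ⟨0, 0, -2⟩⟩,
    ⟨⟨1, -1, 0⟩, ⟨-1, 1, 0⟩, ⟨0, 0, -2⟩⟩,
    ⟨⟨1, -1, 0⟩, ⟨2, -2, 0⟩, ⟨0, 0, 2⟩⟩,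
    ⟨⟨-1, 1, 0⟩, ⟨-2, 2, 0⟩, ⟨0, 0, 2⟩⟩,
    ⟨⟨-1, 1, 0⟩, ⟨1, -1, 0⟩, ⟨0, 0, -2⟩⟩,
    ⟨⟨-1, 1, 0⟩, ⟨-2, 2, 0⟩, ⟨0, 0, -2⟩⟩,
    ⟨⟨-1, 1, 0⟩, ⟨1, -1, 0⟩, ⟨0, 0, 2⟩⟩,
    ⟨⟨0, 0, 0⟩, ⟨0, 0, 0⟩, ⟨0, 0, 4⟩⟩,
    ⟨⟨3, -3, 0⟩, ⟨0, 0, 0⟩, ⟨0, 0, 4⟩⟩,
    ⟨⟨0, 0, 0⟩, ⟨0, 0, 0⟩, ⟨0, 0, -4⟩⟩,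
    ⟨⟨3, -3, 0⟩, ⟨3, -3, 0⟩, ⟨0, 0, -4⟩⟩,
    ⟨⟨0, 0, 0⟩, ⟨0, 0, 0⟩, ⟨0, 0, -6⟩⟩,
    ⟨⟨3, -3, 0⟩, ⟨0, 0, 0⟩, ⟨0, 0, -4⟩⟩,
    ⟨⟨3, -3, 0⟩, ⟨3, -3, 0⟩, ⟨0, 0, 4⟩⟩,
    ⟨⟨0, 0, 0⟩, ⟨0, 0, 0⟩, ⟨0, 0, 6⟩⟩,
    ⟨⟨-3, 3, 0⟩, ⟨-3, 3, 0⟩, ⟨0, 0, 4⟩⟩,
    ⟨⟨-3, 3, 0⟩, ⟨0, 0, 0⟩, ⟨0, 0, -4⟩⟩,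
    ⟨⟨-3, 3, 0⟩, ⟨-3, 3, 0⟩, ⟨0, 0, -4⟩⟩,
    ⟨⟨-3, 3, 0⟩, ⟨0, 0, 0⟩, ⟨0, 0, 4⟩⟩,
    ⟨⟨4, -4, 0⟩, ⟨2, -2, 0⟩, ⟨0, 0, 0⟩⟩,
    ⟨⟨-4, 4, 0⟩, ⟨-2, 2, 0⟩, ⟨0, 0, 0⟩⟩],
   [[(1, 0), (2, 0), (4, 0), (5, 0)],
    [(0, 0), (3, 0), (6, 0), (7, 0)],
    [(3, 0), (0, 0), (8, 0), (9, 0)],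
    [(2, 0), (1, 0), (10, 0), (11, 0)],
    [(6, 1), (9, 2), (12, 0), (0, 0)],
    [(7, 3), (8, 4), (0, 0), (13, 0)],
    [(4, 3), (11, 5), (14, 0), (1, 0)],
    [(5, 1), (10, 6), (1, 0), (15, 0)],
    [(10, 1), (5, 7), (16, 0), (2, 0)],
    [(11, 3), (4, 8), (2, 0), (17, 0)],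
    [(8, 3), (7, 9), (18, 0), (3, 0)],
    [(9, 1), (6, 10), (3, 0), (19, 0)],
    [(14, 11), (17, 12), (20, 0), (4, 0)],
    [(15, 13), (16, 14), (5, 0), (20, 15)],
    [(12, 13), (19, 16), (21, 0), (6, 0)],
    [(13, 11), (18, 17), (7, 0), (21, 18)],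
    [(18, 11), (13, 19), (22, 0), (8, 0)],
    [(19, 13), (12, 20), (9, 0), (22, 15)],
    [(16, 13), (15, 21), (23, 0), (10, 0)],
    [(17, 11), (14, 22), (11, 0), (23, 18)],
    [(21, 18), (22, 23), (13, 18), (12, 0)],
    [(20, 15), (23, 23), (15, 15), (14, 0)],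
    [(23, 18), (20, 24), (17, 18), (16, 0)],
    [(22, 15), (21, 24), (19, 15), (18, 0)]]⟩

def hexLat26 : List LatE :=
  [⟨⟨⟨3, 0, 0⟩, ⟨-2, 1, 0⟩, ⟨0, 0, 3⟩⟩, 3, ⟨⟨0, 0, 0⟩, ⟨0, 0, 0⟩, ⟨0, 0, 0⟩⟩⟩]

def hexRow27 : Row :=
  ⟨[⟨⟨1, 0, 0⟩, ⟨0, 1, 0⟩, ⟨0, 0, -1⟩⟩, ⟨⟨-1, 0, 0⟩, ⟨-1, 1, 0⟩, ⟨0, 0, 1⟩⟩], ⟨⟨1, -1, 0⟩, ⟨0, -1, 0⟩, ⟨0, 0, 1⟩⟩, ⟨⟨1, -1, 0⟩, ⟨0, -1, 0⟩, ⟨0, 0, 1⟩⟩, 4,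
   [⟨⟨⟨1, 0, 0⟩, ⟨0, 1, 0⟩, ⟨0, 0, 1⟩⟩, ⟨⟨0, 0, 0⟩, ⟨0, 0, 0⟩, ⟨0, 0, 0⟩⟩⟩,
    ⟨⟨⟨1, 0, 0⟩, ⟨0, 1, 0⟩, ⟨0, 0, -1⟩⟩, ⟨⟨0, 0, 0⟩, ⟨0, 0, 0⟩, ⟨0, 0, 0⟩⟩⟩,
    ⟨⟨⟨-1, 0, 0⟩, ⟨-1, 1, 0⟩, ⟨0, 0, 1⟩⟩, ⟨⟨0, 0, 0⟩, ⟨0, 0, 0⟩, ⟨0, 0, 0⟩⟩⟩,
    ⟨⟨⟨-1, 0, 0⟩, ⟨-1, 1, 0⟩, ⟨0, 0, -1⟩⟩, ⟨⟨0, 0, 0⟩, ⟨0, 0, 0⟩, ⟨0, 0, 0⟩⟩⟩,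
    ⟨⟨⟨1, -1, 0⟩, ⟨0, -1, 0⟩, ⟨0, 0, 1⟩⟩, ⟨⟨1, 0, 0⟩, ⟨0, 1, 0⟩, ⟨0, 0, 1⟩⟩⟩,
    ⟨⟨⟨1, -1, 0⟩, ⟨0, -1, 0⟩, ⟨0, 0, -1⟩⟩, ⟨⟨1, 0, 0⟩, ⟨0, 1, 0⟩, ⟨0, 0, -1⟩⟩⟩,
    ⟨⟨⟨-1, 1, 0⟩, ⟨-1, 0, 0⟩, ⟨0, 0, 1⟩⟩, ⟨⟨-1, 0, 0⟩, ⟨-1, 1, 0⟩, ⟨0, 0, 1⟩⟩⟩,
    ⟨⟨⟨-1, 1, 0⟩, ⟨-1, 0, 0⟩, ⟨0, 0, -1⟩⟩, ⟨⟨-1, 0, 0⟩, ⟨-1, 1, 0⟩, ⟨0, 0, -1⟩⟩⟩,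
    ⟨⟨⟨0, -1, 0⟩, ⟨1, -1, 0⟩, ⟨0, 0, 1⟩⟩, ⟨⟨1, 0, 0⟩, ⟨0, 1, 0⟩, ⟨0, 0, 1⟩⟩⟩,
    ⟨⟨⟨0, -1, 0⟩, ⟨1, -1, 0⟩, ⟨0, 0, -1⟩⟩, ⟨⟨1, 0, 0⟩, ⟨0, 1, 0⟩, ⟨0, 0, -1⟩⟩⟩,
    ⟨⟨⟨0, 1, 0⟩, ⟨1, 0, 0⟩, ⟨0, 0, 1⟩⟩, ⟨⟨-1, 0, 0⟩, ⟨-1, 1, 0⟩, ⟨0, 0, 1⟩⟩⟩,
    ⟨⟨⟨0, 1, 0⟩, ⟨1, 0, 0⟩, ⟨0, 0, -1⟩⟩, ⟨⟨-1, 0, 0⟩, ⟨-1, 1, 0⟩, ⟨0, 0, -1⟩⟩⟩],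
   [(0, 0), (0, 1), (1, 1), (0, 2), (1, 2), (2, 2), (3, 2), (4, 1), (5, 1), (6, 1), (7, 1)],
   [⟨⟨0, 0, 0⟩, ⟨0, 0, 0⟩, ⟨0, 0, 0⟩⟩,
    ⟨⟨-2, 1, 0⟩, ⟨0, 0, 0⟩, ⟨0, 0, -2⟩⟩,
    ⟨⟨-2, 1, 0⟩, ⟨0, 0, 0⟩, ⟨0, 0, 2⟩⟩,
    ⟨⟨2, -1, 0⟩, ⟨2, -1, 0⟩, ⟨0, 0, -2⟩⟩,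
    ⟨⟨2, -1, 0⟩, ⟨2, -1, 0⟩, ⟨0, 0, 2⟩⟩,
    ⟨⟨0, 0, 0⟩, ⟨0, 0, 0⟩, ⟨0, 0, 2⟩⟩,
    ⟨⟨2, -1, 0⟩, ⟨0, 0, 0⟩, ⟨0, 0, 2⟩⟩,
    ⟨⟨0, 0, 0⟩, ⟨0, 0, 0⟩, ⟨0, 0, -2⟩⟩,
    ⟨⟨2, -1, 0⟩, ⟨0, 0, 0⟩, ⟨0, 0, -2⟩⟩,
    ⟨⟨-2, 1, 0⟩, ⟨-2, 1, 0⟩, ⟨0, 0, 2⟩⟩,
    ⟨⟨-2, 1, 0⟩, ⟨-2, 1, 0⟩, ⟨0, 0, -2⟩⟩,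
    ⟨⟨2, -1, 0⟩, ⟨2, -1, 0⟩, ⟨0, 0, 1⟩⟩,
    ⟨⟨2, -1, 0⟩, ⟨0, 0, 0⟩, ⟨0, 0, -1⟩⟩,
    ⟨⟨2, -1, 0⟩, ⟨2, -1, 0⟩, ⟨0, 0, -1⟩⟩,
    ⟨⟨2, -1, 0⟩, ⟨0, 0, 0⟩, ⟨0, 0, 1⟩⟩,
    ⟨⟨-2, 1, 0⟩, ⟨0, 0, 0⟩, ⟨0, 0, 1⟩⟩,
    ⟨⟨-2, 1, 0⟩, ⟨-2, 1, 0⟩, ⟨0, 0, -1⟩⟩,
    ⟨⟨-2, 1, 0⟩, ⟨0, 0, 0⟩, ⟨0, 0, -1⟩⟩,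
    ⟨⟨-2, 1, 0⟩, ⟨-2, 1, 0⟩, ⟨0, 0, 1⟩⟩],
   [[(1, 0), (2, 0), (4, 0), (4, 1)],
    [(0, 0), (3, 0), (5, 0), (5, 2)],
    [(3, 0), (0, 0), (6, 0), (6, 3)],
    [(2, 0), (1, 0), (7, 0), (7, 4)],
    [(5, 5), (8, 0), (0, 6), (0, 0)],
    [(4, 7), (9, 0), (1, 8), (1, 0)],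
    [(7, 5), (10, 0), (2, 9), (2, 0)],
    [(6, 7), (11, 0), (3, 10), (3, 0)],
    [(9, 5), (4, 0), (10, 11), (10, 12)],
    [(8, 7), (5, 0), (11, 13), (11, 14)],
    [(11, 5), (6, 0), (8, 15), (8, 16)],
    [(10, 7), (7, 0), (9, 17), (9, 18)]]⟩

def hexLat27 : List LatE :=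
  [⟨⟨⟨1, 0, 0⟩, ⟨0, 1, 0⟩, ⟨0, 0, 1⟩⟩, 1, ⟨⟨0, 0, 0⟩, ⟨0, 0, 0⟩, ⟨0, 0, 0⟩⟩⟩]

def hexRow28 : Row :=
  ⟨[⟨⟨1, 0, 0⟩, ⟨0, 1, 0⟩, ⟨0, 0, -1⟩⟩, ⟨⟨-1, 0, 0⟩, ⟨0, -1, 0⟩, ⟨0, 0, 1⟩⟩], ⟨⟨1, -1, 0⟩, ⟨1, 0, 0⟩, ⟨0, 0, 1⟩⟩, ⟨⟨0, 1, 0⟩, ⟨-1, 1, 0⟩, ⟨0, 0, 1⟩⟩, 4,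
   [⟨⟨⟨1, 0, 0⟩, ⟨0, 1, 0⟩, ⟨0, 0, 1⟩⟩, ⟨⟨0, 0, 0⟩, ⟨0, 0, 0⟩, ⟨0, 0, 0⟩⟩⟩,
    ⟨⟨⟨1, 0, 0⟩, ⟨0, 1, 0⟩, ⟨0, 0, -1⟩⟩, ⟨⟨0, 0, 0⟩, ⟨0, 0, 0⟩, ⟨0, 0, 0⟩⟩⟩,
    ⟨⟨⟨-1, 0, 0⟩, ⟨0, -1, 0⟩, ⟨0, 0, 1⟩⟩, ⟨⟨0, 0, 0⟩, ⟨0, 0, 0⟩, ⟨0, 0, 0⟩⟩⟩,
    ⟨⟨⟨-1, 0, 0⟩, ⟨0, -1, 0⟩, ⟨0, 0, -1⟩⟩, ⟨⟨0, 0, 0⟩, ⟨0, 0, 0⟩, ⟨0, 0, 0⟩⟩⟩,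
    ⟨⟨⟨1, -1, 0⟩, ⟨1, 0, 0⟩, ⟨0, 0, 1⟩⟩, ⟨⟨1, 0, 0⟩, ⟨0, 1, 0⟩, ⟨0, 0, 1⟩⟩⟩,
    ⟨⟨⟨0, 1, 0⟩, ⟨-1, 1, 0⟩, ⟨0, 0, 1⟩⟩, ⟨⟨0, -1, 0⟩, ⟨1, -1, 0⟩, ⟨0, 0, -1⟩⟩⟩,
    ⟨⟨⟨1, -1, 0⟩, ⟨1, 0, 0⟩, ⟨0, 0, -1⟩⟩, ⟨⟨1, 0, 0⟩, ⟨0, 1, 0⟩, ⟨0, 0, -1⟩⟩⟩,
    ⟨⟨⟨0, 1, 0⟩, ⟨-1, 1, 0⟩, ⟨0, 0, -1⟩⟩, ⟨⟨0, -1, 0⟩, ⟨1, -1, 0⟩, ⟨0, 0, 1⟩⟩⟩,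
    ⟨⟨⟨-1, 1, 0⟩, ⟨-1, 0, 0⟩, ⟨0, 0, 1⟩⟩, ⟨⟨-1, 0, 0⟩, ⟨0, -1, 0⟩, ⟨0, 0, 1⟩⟩⟩,
    ⟨⟨⟨0, -1, 0⟩, ⟨1, -1, 0⟩, ⟨0, 0, 1⟩⟩, ⟨⟨0, 1, 0⟩, ⟨-1, 1, 0⟩, ⟨0, 0, -1⟩⟩⟩,
    ⟨⟨⟨-1, 1, 0⟩, ⟨-1, 0, 0⟩, ⟨0, 0, -1⟩⟩, ⟨⟨-1, 0, 0⟩, ⟨0, -1, 0⟩, ⟨0, 0, -1⟩⟩⟩,
    ⟨⟨⟨0, -1, 0⟩, ⟨1, -1, 0⟩, ⟨0, 0, -1⟩⟩, ⟨⟨0, 1, 0⟩, ⟨-1, 1, 0⟩, ⟨0, 0, 1⟩⟩⟩],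
   [(0, 0), (0, 1), (1, 1), (0, 2), (0, 3), (1, 2), (1, 3), (2, 2), (2, 3), (3, 2), (3, 3)],
   [⟨⟨0, 0, 0⟩, ⟨0, 0, 0⟩, ⟨0, 0, 0⟩⟩,
    ⟨⟨0, 0, 0⟩, ⟨0, 0, 0⟩, ⟨0, 0, 2⟩⟩,
    ⟨⟨2, 0, 0⟩, ⟨0, 2, 0⟩, ⟨0, 0, 0⟩⟩,
    ⟨⟨2, -2, 0⟩, ⟨2, 0, 0⟩, ⟨0, 0, 3⟩⟩,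
    ⟨⟨0, 0, 0⟩, ⟨0, 0, 0⟩, ⟨0, 0, -2⟩⟩,
    ⟨⟨0, -2, 0⟩, ⟨2, -2, 0⟩, ⟨0, 0, 0⟩⟩,
    ⟨⟨2, -2, 0⟩, ⟨2, 0, 0⟩, ⟨0, 0, -3⟩⟩,
    ⟨⟨-2, 0, 0⟩, ⟨0, -2, 0⟩, ⟨0, 0, 0⟩⟩,
    ⟨⟨-2, 2, 0⟩, ⟨-2, 0, 0⟩, ⟨0, 0, 3⟩⟩,
    ⟨⟨0, 2, 0⟩, ⟨-2, 2, 0⟩, ⟨0, 0, 0⟩⟩,
    ⟨⟨-2, 2, 0⟩, ⟨-2, 0, 0⟩, ⟨0, 0, -3⟩⟩],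
   [[(1, 0), (2, 0), (4, 0), (5, 0)],
    [(0, 0), (3, 0), (6, 0), (7, 0)],
    [(3, 0), (0, 0), (8, 0), (9, 0)],
    [(2, 0), (1, 0), (10, 0), (11, 0)],
    [(6, 1), (8, 2), (9, 3), (0, 0)],
    [(7, 4), (9, 5), (0, 0), (8, 6)],
    [(4, 4), (10, 2), (11, 6), (1, 0)],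
    [(5, 1), (11, 5), (1, 0), (10, 3)],
    [(10, 1), (4, 7), (5, 8), (2, 0)],
    [(11, 4), (5, 9), (2, 0), (4, 10)],
    [(8, 4), (6, 7), (7, 10), (3, 0)],
    [(9, 1), (7, 9), (3, 0), (6, 8)]]⟩

def hexLat28 : List LatE :=
  [⟨⟨⟨1, 0, 0⟩, ⟨0, 1, 0⟩, ⟨0, 0, 2⟩⟩, 2, ⟨⟨0, 0, 0⟩, ⟨0, 0, 0⟩, ⟨0, 0, 0⟩⟩⟩]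

def hexRow29 : Row :=
  ⟨[⟨⟨1, -1, 0⟩, ⟨0, -1, 0⟩, ⟨0, 0, -1⟩⟩, ⟨⟨0, 1, 0⟩, ⟨1, 0, 0⟩, ⟨0, 0, -1⟩⟩], ⟨⟨1, 0, 0⟩, ⟨1, -1, 0⟩, ⟨0, 0, 1⟩⟩, ⟨⟨1, 0, 0⟩, ⟨1, -1, 0⟩, ⟨0, 0, 1⟩⟩, 6,
   [⟨⟨⟨1, 0, 0⟩, ⟨0, 1, 0⟩, ⟨0, 0, 1⟩⟩, ⟨⟨0, 0, 0⟩, ⟨0, 0, 0⟩, ⟨0, 0, 0⟩⟩⟩,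
    ⟨⟨⟨1, -1, 0⟩, ⟨0, -1, 0⟩, ⟨0, 0, -1⟩⟩, ⟨⟨0, 0, 0⟩, ⟨0, 0, 0⟩, ⟨0, 0, 0⟩⟩⟩,
    ⟨⟨⟨0, 1, 0⟩, ⟨1, 0, 0⟩, ⟨0, 0, -1⟩⟩, ⟨⟨0, 0, 0⟩, ⟨0, 0, 0⟩, ⟨0, 0, 0⟩⟩⟩,
    ⟨⟨⟨-1, 1, 0⟩, ⟨-1, 0, 0⟩, ⟨0, 0, 1⟩⟩, ⟨⟨0, 0, 0⟩, ⟨0, 0, 0⟩, ⟨0, 0, 0⟩⟩⟩,
    ⟨⟨⟨0, -1, 0⟩, ⟨1, -1, 0⟩, ⟨0, 0, 1⟩⟩, ⟨⟨0, 0, 0⟩, ⟨0, 0, 0⟩, ⟨0, 0, 0⟩⟩⟩,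
    ⟨⟨⟨-1, 0, 0⟩, ⟨-1, 1, 0⟩, ⟨0, 0, -1⟩⟩, ⟨⟨0, 0, 0⟩, ⟨0, 0, 0⟩, ⟨0, 0, 0⟩⟩⟩,
    ⟨⟨⟨1, 0, 0⟩, ⟨1, -1, 0⟩, ⟨0, 0, 1⟩⟩, ⟨⟨1, 0, 0⟩, ⟨0, 1, 0⟩, ⟨0, 0, 1⟩⟩⟩,
    ⟨⟨⟨0, 1, 0⟩, ⟨-1, 1, 0⟩, ⟨0, 0, -1⟩⟩, ⟨⟨1, -1, 0⟩, ⟨0, -1, 0⟩, ⟨0, 0, -1⟩⟩⟩,
    ⟨⟨⟨1, -1, 0⟩, ⟨1, 0, 0⟩, ⟨0, 0, -1⟩⟩, ⟨⟨0, 1, 0⟩, ⟨1, 0, 0⟩, ⟨0, 0, -1⟩⟩⟩,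
    ⟨⟨⟨0, -1, 0⟩, ⟨-1, 0, 0⟩, ⟨0, 0, 1⟩⟩, ⟨⟨-1, 1, 0⟩, ⟨-1, 0, 0⟩, ⟨0, 0, 1⟩⟩⟩,
    ⟨⟨⟨-1, 1, 0⟩, ⟨0, 1, 0⟩, ⟨0, 0, 1⟩⟩, ⟨⟨0, -1, 0⟩, ⟨1, -1, 0⟩, ⟨0, 0, 1⟩⟩⟩,
    ⟨⟨⟨-1, 0, 0⟩, ⟨0, -1, 0⟩, ⟨0, 0, -1⟩⟩, ⟨⟨-1, 0, 0⟩, ⟨-1, 1, 0⟩, ⟨0, 0, -1⟩⟩⟩],
   [(0, 0), (0, 1), (1, 1), (2, 0), (3, 0), (0, 2), (1, 2), (2, 2), (3, 2), (4, 2), (5, 2)],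
   [⟨⟨0, 0, 0⟩, ⟨0, 0, 0⟩, ⟨0, 0, 0⟩⟩,
    ⟨⟨-2, 0, 0⟩, ⟨-1, 0, 0⟩, ⟨0, 0, -2⟩⟩,
    ⟨⟨-1, 0, 0⟩, ⟨1, 0, 0⟩, ⟨0, 0, 2⟩⟩,
    ⟨⟨-1, 0, 0⟩, ⟨-2, 0, 0⟩, ⟨0, 0, 2⟩⟩,
    ⟨⟨1, 0, 0⟩, ⟨2, 0, 0⟩, ⟨0, 0, -2⟩⟩,
    ⟨⟨1, 0, 0⟩, ⟨-1, 0, 0⟩, ⟨0, 0, -2⟩⟩,
    ⟨⟨2, 0, 0⟩, ⟨1, 0, 0⟩, ⟨0, 0, 2⟩⟩,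
    ⟨⟨1, -1, 0⟩, ⟨-1, 1, 0⟩, ⟨0, 0, 2⟩⟩,
    ⟨⟨0, 1, 0⟩, ⟨0, 2, 0⟩, ⟨0, 0, 2⟩⟩,
    ⟨⟨2, -2, 0⟩, ⟨1, -1, 0⟩, ⟨0, 0, -2⟩⟩,
    ⟨⟨0, -1, 0⟩, ⟨0, -2, 0⟩, ⟨0, 0, -2⟩⟩,
    ⟨⟨-1, 1, 0⟩, ⟨1, -1, 0⟩, ⟨0, 0, -2⟩⟩,
    ⟨⟨0, 2, 0⟩, ⟨0, 1, 0⟩, ⟨0, 0, -2⟩⟩,
    ⟨⟨-2, 2, 0⟩, ⟨-1, 1, 0⟩, ⟨0, 0, 2⟩⟩,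
    ⟨⟨0, 1, 0⟩, ⟨0, -1, 0⟩, ⟨0, 0, 2⟩⟩,
    ⟨⟨1, -1, 0⟩, ⟨2, -2, 0⟩, ⟨0, 0, 2⟩⟩,
    ⟨⟨0, -2, 0⟩, ⟨0, -1, 0⟩, ⟨0, 0, 2⟩⟩,
    ⟨⟨-1, 1, 0⟩, ⟨-2, 2, 0⟩, ⟨0, 0, -2⟩⟩,
    ⟨⟨0, -1, 0⟩, ⟨0, 1, 0⟩, ⟨0, 0, -2⟩⟩],
   [[(1, 0), (2, 0), (6, 0), (6, 1)],
    [(0, 0), (3, 0), (7, 0), (7, 2)],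
    [(4, 0), (0, 0), (8, 0), (8, 3)],
    [(5, 0), (1, 0), (9, 0), (9, 4)],
    [(2, 0), (5, 0), (10, 0), (10, 5)],
    [(3, 0), (4, 0), (11, 0), (11, 6)],
    [(8, 7), (7, 8), (0, 6), (0, 0)],
    [(9, 9), (6, 10), (1, 5), (1, 0)],
    [(6, 11), (10, 12), (2, 4), (2, 0)],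
    [(7, 13), (11, 14), (3, 3), (3, 0)],
    [(11, 15), (8, 16), (4, 2), (4, 0)],
    [(10, 17), (9, 18), (5, 1), (5, 0)]]⟩

def hexLat29 : List LatE :=
  [⟨⟨⟨1, 0, 0⟩, ⟨0, 1, 0⟩, ⟨0, 0, 1⟩⟩, 1, ⟨⟨0, 0, 0⟩, ⟨0, 0, 0⟩, ⟨0, 0, 0⟩⟩⟩]

def hexRow30 : Row :=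
  ⟨[⟨⟨1, -1, 0⟩, ⟨0, -1, 0⟩, ⟨0, 0, -1⟩⟩, ⟨⟨0, 1, 0⟩, ⟨1, 0, 0⟩, ⟨0, 0, -1⟩⟩], ⟨⟨1, 0, 0⟩, ⟨1, -1, 0⟩, ⟨0, 0, -1⟩⟩, ⟨⟨1, 0, 0⟩, ⟨1, -1, 0⟩, ⟨0, 0, -1⟩⟩, 6,
   [⟨⟨⟨1, 0, 0⟩, ⟨0, 1, 0⟩, ⟨0, 0, 1⟩⟩, ⟨⟨0, 0, 0⟩, ⟨0, 0, 0⟩, ⟨0, 0, 0⟩⟩⟩,
    ⟨⟨⟨1, -1, 0⟩, ⟨0, -1, 0⟩, ⟨0, 0, -1⟩⟩, ⟨⟨0, 0, 0⟩, ⟨0, 0, 0⟩, ⟨0, 0, 0⟩⟩⟩,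
    ⟨⟨⟨0, 1, 0⟩, ⟨1, 0, 0⟩, ⟨0, 0, -1⟩⟩, ⟨⟨0, 0, 0⟩, ⟨0, 0, 0⟩, ⟨0, 0, 0⟩⟩⟩,
    ⟨⟨⟨-1, 1, 0⟩, ⟨-1, 0, 0⟩, ⟨0, 0, 1⟩⟩, ⟨⟨0, 0, 0⟩, ⟨0, 0, 0⟩, ⟨0, 0, 0⟩⟩⟩,
    ⟨⟨⟨0, -1, 0⟩, ⟨1, -1, 0⟩, ⟨0, 0, 1⟩⟩, ⟨⟨0, 0, 0⟩, ⟨0, 0, 0⟩, ⟨0, 0, 0⟩⟩⟩,
    ⟨⟨⟨-1, 0, 0⟩, ⟨-1, 1, 0⟩, ⟨0, 0, -1⟩⟩, ⟨⟨0, 0, 0⟩, ⟨0, 0, 0⟩, ⟨0, 0, 0⟩⟩⟩,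
    ⟨⟨⟨1, 0, 0⟩, ⟨1, -1, 0⟩, ⟨0, 0, -1⟩⟩, ⟨⟨1, 0, 0⟩, ⟨0, 1, 0⟩, ⟨0, 0, 1⟩⟩⟩,
    ⟨⟨⟨0, 1, 0⟩, ⟨-1, 1, 0⟩, ⟨0, 0, 1⟩⟩, ⟨⟨1, -1, 0⟩, ⟨0, -1, 0⟩, ⟨0, 0, -1⟩⟩⟩,
    ⟨⟨⟨1, -1, 0⟩, ⟨1, 0, 0⟩, ⟨0, 0, 1⟩⟩, ⟨⟨0, 1, 0⟩, ⟨1, 0, 0⟩, ⟨0, 0, -1⟩⟩⟩,
    ⟨⟨⟨0, -1, 0⟩, ⟨-1, 0, 0⟩, ⟨0, 0, -1⟩⟩, ⟨⟨-1, 1, 0⟩, ⟨-1, 0, 0⟩, ⟨0, 0, 1⟩⟩⟩,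
    ⟨⟨⟨-1, 1, 0⟩, ⟨0, 1, 0⟩, ⟨0, 0, -1⟩⟩, ⟨⟨0, -1, 0⟩, ⟨1, -1, 0⟩, ⟨0, 0, 1⟩⟩⟩,
    ⟨⟨⟨-1, 0, 0⟩, ⟨0, -1, 0⟩, ⟨0, 0, 1⟩⟩, ⟨⟨-1, 0, 0⟩, ⟨-1, 1, 0⟩, ⟨0, 0, -1⟩⟩⟩],
   [(0, 0), (0, 1), (1, 1), (2, 0), (3, 0), (0, 2), (1, 2), (2, 2), (3, 2), (4, 2), (5, 2)],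
   [⟨⟨0, 0, 0⟩, ⟨0, 0, 0⟩, ⟨0, 0, 0⟩⟩,
    ⟨⟨-2, 0, 0⟩, ⟨-1, 0, 0⟩, ⟨0, 0, 0⟩⟩,
    ⟨⟨-1, 0, 0⟩, ⟨1, 0, 0⟩, ⟨0, 0, 0⟩⟩,
    ⟨⟨-1, 0, 0⟩, ⟨-2, 0, 0⟩, ⟨0, 0, 0⟩⟩,
    ⟨⟨1, 0, 0⟩, ⟨2, 0, 0⟩, ⟨0, 0, 0⟩⟩,
    ⟨⟨1, 0, 0⟩, ⟨-1, 0, 0⟩, ⟨0, 0, 0⟩⟩,
    ⟨⟨2, 0, 0⟩, ⟨1, 0, 0⟩, ⟨0, 0, 0⟩⟩,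
    ⟨⟨1, -1, 0⟩, ⟨-1, 1, 0⟩, ⟨0, 0, 2⟩⟩,
    ⟨⟨0, 1, 0⟩, ⟨0, 2, 0⟩, ⟨0, 0, 2⟩⟩,
    ⟨⟨2, -2, 0⟩, ⟨1, -1, 0⟩, ⟨0, 0, -2⟩⟩,
    ⟨⟨0, -1, 0⟩, ⟨0, -2, 0⟩, ⟨0, 0, -2⟩⟩,
    ⟨⟨-1, 1, 0⟩, ⟨1, -1, 0⟩, ⟨0, 0, -2⟩⟩,
    ⟨⟨0, 2, 0⟩, ⟨0, 1, 0⟩, ⟨0, 0, -2⟩⟩,
    ⟨⟨-2, 2, 0⟩, ⟨-1, 1, 0⟩, ⟨0, 0, 2⟩⟩,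
    ⟨⟨0, 1, 0⟩, ⟨0, -1, 0⟩, ⟨0, 0, 2⟩⟩,
    ⟨⟨1, -1, 0⟩, ⟨2, -2, 0⟩, ⟨0, 0, 2⟩⟩,
    ⟨⟨0, -2, 0⟩, ⟨0, -1, 0⟩, ⟨0, 0, 2⟩⟩,
    ⟨⟨-1, 1, 0⟩, ⟨-2, 2, 0⟩, ⟨0, 0, -2⟩⟩,
    ⟨⟨0, -1, 0⟩, ⟨0, 1, 0⟩, ⟨0, 0, -2⟩⟩],
   [[(1, 0), (2, 0), (6, 0), (6, 1)],
    [(0, 0), (3, 0), (7, 0), (7, 2)],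
    [(4, 0), (0, 0), (8, 0), (8, 3)],
    [(5, 0), (1, 0), (9, 0), (9, 4)],
    [(2, 0), (5, 0), (10, 0), (10, 5)],
    [(3, 0), (4, 0), (11, 0), (11, 6)],
    [(8, 7), (7, 8), (0, 6), (0, 0)],
    [(9, 9), (6, 10), (1, 5), (1, 0)],
    [(6, 11), (10, 12), (2, 4), (2, 0)],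
    [(7, 13), (11, 14), (3, 3), (3, 0)],
    [(11, 15), (8, 16), (4, 2), (4, 0)],
    [(10, 17), (9, 18), (5, 1), (5, 0)]]⟩

def hexLat30 : List LatE :=
  [⟨⟨⟨1, 0, 0⟩, ⟨0, 1, 0⟩, ⟨0, 0, 1⟩⟩, 1, ⟨⟨0, 0, 0⟩, ⟨0, 0, 0⟩, ⟨0, 0, 0⟩⟩⟩]

def hexRow31 : Row :=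
  ⟨[⟨⟨1, -1, 0⟩, ⟨0, -1, 0⟩, ⟨0, 0, -1⟩⟩, ⟨⟨0, 1, 0⟩, ⟨1, 0, 0⟩, ⟨0, 0, -1⟩⟩], ⟨⟨1, 0, 0⟩, ⟨0, 1, 0⟩, ⟨0, 0, 1⟩⟩, ⟨⟨1, 0, 0⟩, ⟨0, 1, 0⟩, ⟨0, 0, 1⟩⟩, 6,
   [⟨⟨⟨1, 0, 0⟩, ⟨0, 1, 0⟩, ⟨0, 0, 1⟩⟩, ⟨⟨0, 0, 0⟩, ⟨0, 0, 0⟩, ⟨0, 0, 0⟩⟩⟩,
    ⟨⟨⟨1, -1, 0⟩, ⟨0, -1, 0⟩, ⟨0, 0, -1⟩⟩, ⟨⟨0, 0, 0⟩, ⟨0, 0, 0⟩, ⟨0, 0, 0⟩⟩⟩,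
    ⟨⟨⟨0, 1, 0⟩, ⟨1, 0, 0⟩, ⟨0, 0, -1⟩⟩, ⟨⟨0, 0, 0⟩, ⟨0, 0, 0⟩, ⟨0, 0, 0⟩⟩⟩,
    ⟨⟨⟨-1, 1, 0⟩, ⟨-1, 0, 0⟩, ⟨0, 0, 1⟩⟩, ⟨⟨0, 0, 0⟩, ⟨0, 0, 0⟩, ⟨0, 0, 0⟩⟩⟩,
    ⟨⟨⟨0, -1, 0⟩, ⟨1, -1, 0⟩, ⟨0, 0, 1⟩⟩, ⟨⟨0, 0, 0⟩, ⟨0, 0, 0⟩, ⟨0, 0, 0⟩⟩⟩,
    ⟨⟨⟨-1, 0, 0⟩, ⟨-1, 1, 0⟩, ⟨0, 0, -1⟩⟩, ⟨⟨0, 0, 0⟩, ⟨0, 0, 0⟩, ⟨0, 0, 0⟩⟩⟩],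
   [(0, 0), (0, 1), (1, 1), (2, 0), (3, 0)],
   [⟨⟨0, 0, 0⟩, ⟨0, 0, 0⟩, ⟨0, 0, 0⟩⟩,
    ⟨⟨1, 0, 0⟩, ⟨0, 1, 0⟩, ⟨0, 0, 1⟩⟩,
    ⟨⟨-1, 0, 0⟩, ⟨0, -1, 0⟩, ⟨0, 0, -1⟩⟩,
    ⟨⟨1, -1, 0⟩, ⟨0, -1, 0⟩, ⟨0, 0, -1⟩⟩,
    ⟨⟨-1, 1, 0⟩, ⟨0, 1, 0⟩, ⟨0, 0, 1⟩⟩,
    ⟨⟨0, 1, 0⟩, ⟨1, 0, 0⟩, ⟨0, 0, -1⟩⟩,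
    ⟨⟨0, -1, 0⟩, ⟨-1, 0, 0⟩, ⟨0, 0, 1⟩⟩,
    ⟨⟨-1, 1, 0⟩, ⟨-1, 0, 0⟩, ⟨0, 0, 1⟩⟩,
    ⟨⟨1, -1, 0⟩, ⟨1, 0, 0⟩, ⟨0, 0, -1⟩⟩,
    ⟨⟨0, -1, 0⟩, ⟨1, -1, 0⟩, ⟨0, 0, 1⟩⟩,
    ⟨⟨0, 1, 0⟩, ⟨-1, 1, 0⟩, ⟨0, 0, -1⟩⟩,
    ⟨⟨-1, 0, 0⟩, ⟨-1, 1, 0⟩, ⟨0, 0, -1⟩⟩,
    ⟨⟨1, 0, 0⟩, ⟨1, -1, 0⟩, ⟨0, 0, 1⟩⟩],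
   [[(1, 0), (2, 0), (0, 1), (0, 2)],
    [(0, 0), (3, 0), (1, 3), (1, 4)],
    [(4, 0), (0, 0), (2, 5), (2, 6)],
    [(5, 0), (1, 0), (3, 7), (3, 8)],
    [(2, 0), (5, 0), (4, 9), (4, 10)],
    [(3, 0), (4, 0), (5, 11), (5, 12)]]⟩

def hexLat31 : List LatE :=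
  [⟨⟨⟨1, 0, 0⟩, ⟨0, 1, 0⟩, ⟨0, 0, 1⟩⟩, 1, ⟨⟨0, 0, 0⟩, ⟨0, 0, 0⟩, ⟨0, 0, 0⟩⟩⟩]

def hexRow32 : Row :=
  ⟨[⟨⟨1, -1, 0⟩, ⟨0, -1, 0⟩, ⟨0, 0, -1⟩⟩, ⟨⟨0, 1, 0⟩, ⟨1, 0, 0⟩, ⟨0, 0, -1⟩⟩], ⟨⟨1, 0, 0⟩, ⟨0, 1, 0⟩, ⟨0, 0, -1⟩⟩, ⟨⟨1, 0, 0⟩, ⟨0, 1, 0⟩, ⟨0, 0, -1⟩⟩, 6,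
   [⟨⟨⟨1, 0, 0⟩, ⟨0, 1, 0⟩, ⟨0, 0, 1⟩⟩, ⟨⟨0, 0, 0⟩, ⟨0, 0, 0⟩, ⟨0, 0, 0⟩⟩⟩,
    ⟨⟨⟨1, -1, 0⟩, ⟨0, -1, 0⟩, ⟨0, 0, -1⟩⟩, ⟨⟨0, 0, 0⟩, ⟨0, 0, 0⟩, ⟨0, 0, 0⟩⟩⟩,
    ⟨⟨⟨0, 1, 0⟩, ⟨1, 0, 0⟩, ⟨0, 0, -1⟩⟩, ⟨⟨0, 0, 0⟩, ⟨0, 0, 0⟩, ⟨0, 0, 0⟩⟩⟩,
    ⟨⟨⟨-1, 1, 0⟩, ⟨-1, 0, 0⟩, ⟨0, 0, 1⟩⟩, ⟨⟨0, 0, 0⟩, ⟨0, 0, 0⟩, ⟨0, 0, 0⟩⟩⟩,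
    ⟨⟨⟨0, -1, 0⟩, ⟨1, -1, 0⟩, ⟨0, 0, 1⟩⟩, ⟨⟨0, 0, 0⟩, ⟨0, 0, 0⟩, ⟨0, 0, 0⟩⟩⟩,
    ⟨⟨⟨-1, 0, 0⟩, ⟨-1, 1, 0⟩, ⟨0, 0, -1⟩⟩, ⟨⟨0, 0, 0⟩, ⟨0, 0, 0⟩, ⟨0, 0, 0⟩⟩⟩,
    ⟨⟨⟨1, 0, 0⟩, ⟨0, 1, 0⟩, ⟨0, 0, -1⟩⟩, ⟨⟨1, 0, 0⟩, ⟨0, 1, 0⟩, ⟨0, 0, 1⟩⟩⟩,
    ⟨⟨⟨1, -1, 0⟩, ⟨0, -1, 0⟩, ⟨0, 0, 1⟩⟩, ⟨⟨1, -1, 0⟩, ⟨0, -1, 0⟩, ⟨0, 0, -1⟩⟩⟩,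
    ⟨⟨⟨0, 1, 0⟩, ⟨1, 0, 0⟩, ⟨0, 0, 1⟩⟩, ⟨⟨0, 1, 0⟩, ⟨1, 0, 0⟩, ⟨0, 0, -1⟩⟩⟩,
    ⟨⟨⟨-1, 1, 0⟩, ⟨-1, 0, 0⟩, ⟨0, 0, -1⟩⟩, ⟨⟨-1, 1, 0⟩, ⟨-1, 0, 0⟩, ⟨0, 0, 1⟩⟩⟩,
    ⟨⟨⟨0, -1, 0⟩, ⟨1, -1, 0⟩, ⟨0, 0, -1⟩⟩, ⟨⟨0, -1, 0⟩, ⟨1, -1, 0⟩, ⟨0, 0, 1⟩⟩⟩,
    ⟨⟨⟨-1, 0, 0⟩, ⟨-1, 1, 0⟩, ⟨0, 0, 1⟩⟩, ⟨⟨-1, 0, 0⟩, ⟨-1, 1, 0⟩, ⟨0, 0, -1⟩⟩⟩],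
   [(0, 0), (0, 1), (1, 1), (2, 0), (3, 0), (0, 2), (1, 2), (2, 2), (3, 2), (4, 2), (5, 2)],
   [⟨⟨0, 0, 0⟩, ⟨0, 0, 0⟩, ⟨0, 0, 0⟩⟩,
    ⟨⟨-2, 0, 0⟩, ⟨0, -2, 0⟩, ⟨0, 0, 0⟩⟩,
    ⟨⟨-2, 2, 0⟩, ⟨0, 2, 0⟩, ⟨0, 0, 0⟩⟩,
    ⟨⟨0, -2, 0⟩, ⟨-2, 0, 0⟩, ⟨0, 0, 0⟩⟩,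
    ⟨⟨2, -2, 0⟩, ⟨2, 0, 0⟩, ⟨0, 0, 0⟩⟩,
    ⟨⟨0, 2, 0⟩, ⟨-2, 2, 0⟩, ⟨0, 0, 0⟩⟩,
    ⟨⟨2, 0, 0⟩, ⟨2, -2, 0⟩, ⟨0, 0, 0⟩⟩,
    ⟨⟨0, 1, 0⟩, ⟨0, 2, 0⟩, ⟨0, 0, 2⟩⟩,
    ⟨⟨1, -1, 0⟩, ⟨-1, 1, 0⟩, ⟨0, 0, 2⟩⟩,
    ⟨⟨2, 0, 0⟩, ⟨0, 2, 0⟩, ⟨0, 0, 0⟩⟩,
    ⟨⟨0, -1, 0⟩, ⟨0, -2, 0⟩, ⟨0, 0, -2⟩⟩,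
    ⟨⟨2, -2, 0⟩, ⟨1, -1, 0⟩, ⟨0, 0, -2⟩⟩,
    ⟨⟨2, -2, 0⟩, ⟨0, -2, 0⟩, ⟨0, 0, 0⟩⟩,
    ⟨⟨0, 2, 0⟩, ⟨0, 1, 0⟩, ⟨0, 0, -2⟩⟩,
    ⟨⟨-1, 1, 0⟩, ⟨1, -1, 0⟩, ⟨0, 0, -2⟩⟩,
    ⟨⟨0, 2, 0⟩, ⟨2, 0, 0⟩, ⟨0, 0, 0⟩⟩,
    ⟨⟨0, 1, 0⟩, ⟨0, -1, 0⟩, ⟨0, 0, 2⟩⟩,
    ⟨⟨-2, 2, 0⟩, ⟨-1, 1, 0⟩, ⟨0, 0, 2⟩⟩,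
    ⟨⟨-2, 2, 0⟩, ⟨-2, 0, 0⟩, ⟨0, 0, 0⟩⟩,
    ⟨⟨0, -2, 0⟩, ⟨0, -1, 0⟩, ⟨0, 0, 2⟩⟩,
    ⟨⟨1, -1, 0⟩, ⟨2, -2, 0⟩, ⟨0, 0, 2⟩⟩,
    ⟨⟨0, -2, 0⟩, ⟨2, -2, 0⟩, ⟨0, 0, 0⟩⟩,
    ⟨⟨0, -1, 0⟩, ⟨0, 1, 0⟩, ⟨0, 0, -2⟩⟩,
    ⟨⟨-1, 1, 0⟩, ⟨-2, 2, 0⟩, ⟨0, 0, -2⟩⟩,
    ⟨⟨-2, 0, 0⟩, ⟨-2, 2, 0⟩, ⟨0, 0, 0⟩⟩],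
   [[(1, 0), (2, 0), (6, 0), (6, 1)],
    [(0, 0), (3, 0), (7, 0), (7, 2)],
    [(4, 0), (0, 0), (8, 0), (8, 3)],
    [(5, 0), (1, 0), (9, 0), (9, 4)],
    [(2, 0), (5, 0), (10, 0), (10, 5)],
    [(3, 0), (4, 0), (11, 0), (11, 6)],
    [(7, 7), (8, 8), (0, 9), (0, 0)],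
    [(6, 10), (9, 11), (1, 12), (1, 0)],
    [(10, 13), (6, 14), (2, 15), (2, 0)],
    [(11, 16), (7, 17), (3, 18), (3, 0)],
    [(8, 19), (11, 20), (4, 21), (4, 0)],
    [(9, 22), (10, 23), (5, 24), (5, 0)]]⟩

def hexLat32 : List LatE :=
  [⟨⟨⟨1, 0, 0⟩, ⟨0, 1, 0⟩, ⟨0, 0, 1⟩⟩, 1, ⟨⟨0, 0, 0⟩, ⟨0, 0, 0⟩, ⟨0, 0, 0⟩⟩⟩]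

def hexRow33 : Row :=
  ⟨[⟨⟨1, -1, 0⟩, ⟨0, -1, 0⟩, ⟨0, 0, 1⟩⟩, ⟨⟨0, 1, 0⟩, ⟨1, 0, 0⟩, ⟨0, 0, 1⟩⟩], ⟨⟨1, 0, 0⟩, ⟨1, -1, 0⟩, ⟨0, 0, 1⟩⟩, ⟨⟨1, 0, 0⟩, ⟨1, -1, 0⟩, ⟨0, 0, 1⟩⟩, 6,
   [⟨⟨⟨1, 0, 0⟩, ⟨0, 1, 0⟩, ⟨0, 0, 1⟩⟩, ⟨⟨0, 0, 0⟩, ⟨0, 0, 0⟩, ⟨0, 0, 0⟩⟩⟩,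
    ⟨⟨⟨1, -1, 0⟩, ⟨0, -1, 0⟩, ⟨0, 0, 1⟩⟩, ⟨⟨0, 0, 0⟩, ⟨0, 0, 0⟩, ⟨0, 0, 0⟩⟩⟩,
    ⟨⟨⟨0, 1, 0⟩, ⟨1, 0, 0⟩, ⟨0, 0, 1⟩⟩, ⟨⟨0, 0, 0⟩, ⟨0, 0, 0⟩, ⟨0, 0, 0⟩⟩⟩,
    ⟨⟨⟨-1, 1, 0⟩, ⟨-1, 0, 0⟩, ⟨0, 0, 1⟩⟩, ⟨⟨0, 0, 0⟩, ⟨0, 0, 0⟩, ⟨0, 0, 0⟩⟩⟩,
    ⟨⟨⟨0, -1, 0⟩, ⟨1, -1, 0⟩, ⟨0, 0, 1⟩⟩, ⟨⟨0, 0, 0⟩, ⟨0, 0, 0⟩, ⟨0, 0, 0⟩⟩⟩,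
    ⟨⟨⟨-1, 0, 0⟩, ⟨-1, 1, 0⟩, ⟨0, 0, 1⟩⟩, ⟨⟨0, 0, 0⟩, ⟨0, 0, 0⟩, ⟨0, 0, 0⟩⟩⟩,
    ⟨⟨⟨1, 0, 0⟩, ⟨1, -1, 0⟩, ⟨0, 0, 1⟩⟩, ⟨⟨1, 0, 0⟩, ⟨0, 1, 0⟩, ⟨0, 0, 1⟩⟩⟩,
    ⟨⟨⟨0, 1, 0⟩, ⟨-1, 1, 0⟩, ⟨0, 0, 1⟩⟩, ⟨⟨1, -1, 0⟩, ⟨0, -1, 0⟩, ⟨0, 0, 1⟩⟩⟩,
    ⟨⟨⟨1, -1, 0⟩, ⟨1, 0, 0⟩, ⟨0, 0, 1⟩⟩, ⟨⟨0, 1, 0⟩, ⟨1, 0, 0⟩, ⟨0, 0, 1⟩⟩⟩,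
    ⟨⟨⟨0, -1, 0⟩, ⟨-1, 0, 0⟩, ⟨0, 0, 1⟩⟩, ⟨⟨-1, 1, 0⟩, ⟨-1, 0, 0⟩, ⟨0, 0, 1⟩⟩⟩,
    ⟨⟨⟨-1, 1, 0⟩, ⟨0, 1, 0⟩, ⟨0, 0, 1⟩⟩, ⟨⟨0, -1, 0⟩, ⟨1, -1, 0⟩, ⟨0, 0, 1⟩⟩⟩,
    ⟨⟨⟨-1, 0, 0⟩, ⟨0, -1, 0⟩, ⟨0, 0, 1⟩⟩, ⟨⟨-1, 0, 0⟩, ⟨-1, 1, 0⟩, ⟨0, 0, 1⟩⟩⟩],
   [(0, 0), (0, 1), (1, 1), (2, 0), (3, 0), (0, 2), (1, 2), (2, 2), (3, 2), (4, 2), (5, 2)],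
   [⟨⟨0, 0, 0⟩, ⟨0, 0, 0⟩, ⟨0, 0, 0⟩⟩,
    ⟨⟨-2, 0, 0⟩, ⟨-1, 0, 0⟩, ⟨0, 0, -2⟩⟩,
    ⟨⟨-1, 0, 0⟩, ⟨1, 0, 0⟩, ⟨0, 0, -2⟩⟩,
    ⟨⟨-1, 0, 0⟩, ⟨-2, 0, 0⟩, ⟨0, 0, -2⟩⟩,
    ⟨⟨1, 0, 0⟩, ⟨2, 0, 0⟩, ⟨0, 0, -2⟩⟩,
    ⟨⟨1, 0, 0⟩, ⟨-1, 0, 0⟩, ⟨0, 0, -2⟩⟩,
    ⟨⟨2, 0, 0⟩, ⟨1, 0, 0⟩, ⟨0, 0, -2⟩⟩,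
    ⟨⟨1, -1, 0⟩, ⟨-1, 1, 0⟩, ⟨0, 0, 0⟩⟩,
    ⟨⟨0, 1, 0⟩, ⟨0, 2, 0⟩, ⟨0, 0, 0⟩⟩,
    ⟨⟨2, 0, 0⟩, ⟨1, 0, 0⟩, ⟨0, 0, 2⟩⟩,
    ⟨⟨2, -2, 0⟩, ⟨1, -1, 0⟩, ⟨0, 0, 0⟩⟩,
    ⟨⟨0, -1, 0⟩, ⟨0, -2, 0⟩, ⟨0, 0, 0⟩⟩,
    ⟨⟨1, 0, 0⟩, ⟨-1, 0, 0⟩, ⟨0, 0, 2⟩⟩,
    ⟨⟨-1, 1, 0⟩, ⟨1, -1, 0⟩, ⟨0, 0, 0⟩⟩,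
    ⟨⟨0, 2, 0⟩, ⟨0, 1, 0⟩, ⟨0, 0, 0⟩⟩,
    ⟨⟨1, 0, 0⟩, ⟨2, 0, 0⟩, ⟨0, 0, 2⟩⟩,
    ⟨⟨-2, 2, 0⟩, ⟨-1, 1, 0⟩, ⟨0, 0, 0⟩⟩,
    ⟨⟨0, 1, 0⟩, ⟨0, -1, 0⟩, ⟨0, 0, 0⟩⟩,
    ⟨⟨-1, 0, 0⟩, ⟨-2, 0, 0⟩, ⟨0, 0, 2⟩⟩,
    ⟨⟨1, -1, 0⟩, ⟨2, -2, 0⟩, ⟨0, 0, 0⟩⟩,
    ⟨⟨0, -2, 0⟩, ⟨0, -1, 0⟩, ⟨0, 0, 0⟩⟩,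
    ⟨⟨-1, 0, 0⟩, ⟨1, 0, 0⟩, ⟨0, 0, 2⟩⟩,
    ⟨⟨-1, 1, 0⟩, ⟨-2, 2, 0⟩, ⟨0, 0, 0⟩⟩,
    ⟨⟨0, -1, 0⟩, ⟨0, 1, 0⟩, ⟨0, 0, 0⟩⟩,
    ⟨⟨-2, 0, 0⟩, ⟨-1, 0, 0⟩, ⟨0, 0, 2⟩⟩],
   [[(1, 0), (2, 0), (6, 0), (6, 1)],
    [(0, 0), (3, 0), (7, 0), (7, 2)],
    [(4, 0), (0, 0), (8, 0), (8, 3)],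
    [(5, 0), (1, 0), (9, 0), (9, 4)],
    [(2, 0), (5, 0), (10, 0), (10, 5)],
    [(3, 0), (4, 0), (11, 0), (11, 6)],
    [(8, 7), (7, 8), (0, 9), (0, 0)],
    [(9, 10), (6, 11), (1, 12), (1, 0)],
    [(6, 13), (10, 14), (2, 15), (2, 0)],
    [(7, 16), (11, 17), (3, 18), (3, 0)],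
    [(11, 19), (8, 20), (4, 21), (4, 0)],
    [(10, 22), (9, 23), (5, 24), (5, 0)]]⟩

def hexLat33 : List LatE :=
  [⟨⟨⟨1, 0, 0⟩, ⟨0, 1, 0⟩, ⟨0, 0, 1⟩⟩, 1, ⟨⟨0, 0, 0⟩, ⟨0, 0, 0⟩, ⟨0, 0, 0⟩⟩⟩]

def hexRow34 : Row :=
  ⟨[⟨⟨1, -1, 0⟩, ⟨0, -1, 0⟩, ⟨0, 0, 1⟩⟩, ⟨⟨0, 1, 0⟩, ⟨1, 0, 0⟩, ⟨0, 0, 1⟩⟩], ⟨⟨1, 0, 0⟩, ⟨1, -1, 0⟩, ⟨0, 0, -1⟩⟩, ⟨⟨1, 0, 0⟩, ⟨1, -1, 0⟩, ⟨0, 0, -1⟩⟩, 6,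
   [⟨⟨⟨1, 0, 0⟩, ⟨0, 1, 0⟩, ⟨0, 0, 1⟩⟩, ⟨⟨0, 0, 0⟩, ⟨0, 0, 0⟩, ⟨0, 0, 0⟩⟩⟩,
    ⟨⟨⟨1, -1, 0⟩, ⟨0, -1, 0⟩, ⟨0, 0, 1⟩⟩, ⟨⟨0, 0, 0⟩, ⟨0, 0, 0⟩, ⟨0, 0, 0⟩⟩⟩,
    ⟨⟨⟨0, 1, 0⟩, ⟨1, 0, 0⟩, ⟨0, 0, 1⟩⟩, ⟨⟨0, 0, 0⟩, ⟨0, 0, 0⟩, ⟨0, 0, 0⟩⟩⟩,
    ⟨⟨⟨-1, 1, 0⟩, ⟨-1, 0, 0⟩, ⟨0, 0, 1⟩⟩, ⟨⟨0, 0, 0⟩, ⟨0, 0, 0⟩, ⟨0, 0, 0⟩⟩⟩,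
    ⟨⟨⟨0, -1, 0⟩, ⟨1, -1, 0⟩, ⟨0, 0, 1⟩⟩, ⟨⟨0, 0, 0⟩, ⟨0, 0, 0⟩, ⟨0, 0, 0⟩⟩⟩,
    ⟨⟨⟨-1, 0, 0⟩, ⟨-1, 1, 0⟩, ⟨0, 0, 1⟩⟩, ⟨⟨0, 0, 0⟩, ⟨0, 0, 0⟩, ⟨0, 0, 0⟩⟩⟩,
    ⟨⟨⟨1, 0, 0⟩, ⟨1, -1, 0⟩, ⟨0, 0, -1⟩⟩, ⟨⟨1, 0, 0⟩, ⟨0, 1, 0⟩, ⟨0, 0, 1⟩⟩⟩,
    ⟨⟨⟨0, 1, 0⟩, ⟨-1, 1, 0⟩, ⟨0, 0, -1⟩⟩, ⟨⟨1, -1, 0⟩, ⟨0, -1, 0⟩, ⟨0, 0, 1⟩⟩⟩,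
    ⟨⟨⟨1, -1, 0⟩, ⟨1, 0, 0⟩, ⟨0, 0, -1⟩⟩, ⟨⟨0, 1, 0⟩, ⟨1, 0, 0⟩, ⟨0, 0, 1⟩⟩⟩,
    ⟨⟨⟨0, -1, 0⟩, ⟨-1, 0, 0⟩, ⟨0, 0, -1⟩⟩, ⟨⟨-1, 1, 0⟩, ⟨-1, 0, 0⟩, ⟨0, 0, 1⟩⟩⟩,
    ⟨⟨⟨-1, 1, 0⟩, ⟨0, 1, 0⟩, ⟨0, 0, -1⟩⟩, ⟨⟨0, -1, 0⟩, ⟨1, -1, 0⟩, ⟨0, 0, 1⟩⟩⟩,
    ⟨⟨⟨-1, 0, 0⟩, ⟨0, -1, 0⟩, ⟨0, 0, -1⟩⟩, ⟨⟨-1, 0, 0⟩, ⟨-1, 1, 0⟩, ⟨0, 0, 1⟩⟩⟩],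
   [(0, 0), (0, 1), (1, 1), (2, 0), (3, 0), (0, 2), (1, 2), (2, 2), (3, 2), (4, 2), (5, 2)],
   [⟨⟨0, 0, 0⟩, ⟨0, 0, 0⟩, ⟨0, 0, 0⟩⟩,
    ⟨⟨-2, 0, 0⟩, ⟨-1, 0, 0⟩, ⟨0, 0, 0⟩⟩,
    ⟨⟨-1, 0, 0⟩, ⟨1, 0, 0⟩, ⟨0, 0, 0⟩⟩,
    ⟨⟨-1, 0, 0⟩, ⟨-2, 0, 0⟩, ⟨0, 0, 0⟩⟩,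
    ⟨⟨1, 0, 0⟩, ⟨2, 0, 0⟩, ⟨0, 0, 0⟩⟩,
    ⟨⟨1, 0, 0⟩, ⟨-1, 0, 0⟩, ⟨0, 0, 0⟩⟩,
    ⟨⟨2, 0, 0⟩, ⟨1, 0, 0⟩, ⟨0, 0, 0⟩⟩,
    ⟨⟨1, -1, 0⟩, ⟨-1, 1, 0⟩, ⟨0, 0, 0⟩⟩,
    ⟨⟨0, 1, 0⟩, ⟨0, 2, 0⟩, ⟨0, 0, 0⟩⟩,
    ⟨⟨2, -2, 0⟩, ⟨1, -1, 0⟩, ⟨0, 0, 0⟩⟩,
    ⟨⟨0, -1, 0⟩, ⟨0, -2, 0⟩, ⟨0, 0, 0⟩⟩,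
    ⟨⟨-1, 1, 0⟩, ⟨1, -1, 0⟩, ⟨0, 0, 0⟩⟩,
    ⟨⟨0, 2, 0⟩, ⟨0, 1, 0⟩, ⟨0, 0, 0⟩⟩,
    ⟨⟨-2, 2, 0⟩, ⟨-1, 1, 0⟩, ⟨0, 0, 0⟩⟩,
    ⟨⟨0, 1, 0⟩, ⟨0, -1, 0⟩, ⟨0, 0, 0⟩⟩,
    ⟨⟨1, -1, 0⟩, ⟨2, -2, 0⟩, ⟨0, 0, 0⟩⟩,
    ⟨⟨0, -2, 0⟩, ⟨0, -1, 0⟩, ⟨0, 0, 0⟩⟩,
    ⟨⟨-1, 1, 0⟩, ⟨-2, 2, 0⟩, ⟨0, 0, 0⟩⟩,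
    ⟨⟨0, -1, 0⟩, ⟨0, 1, 0⟩, ⟨0, 0, 0⟩⟩],
   [[(1, 0), (2, 0), (6, 0), (6, 1)],
    [(0, 0), (3, 0), (7, 0), (7, 2)],
    [(4, 0), (0, 0), (8, 0), (8, 3)],
    [(5, 0), (1, 0), (9, 0), (9, 4)],
    [(2, 0), (5, 0), (10, 0), (10, 5)],
    [(3, 0), (4, 0), (11, 0), (11, 6)],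
    [(8, 7), (7, 8), (0, 6), (0, 0)],
    [(9, 9), (6, 10), (1, 5), (1, 0)],
    [(6, 11), (10, 12), (2, 4), (2, 0)],
    [(7, 13), (11, 14), (3, 3), (3, 0)],
    [(11, 15), (8, 16), (4, 2), (4, 0)],
    [(10, 17), (9, 18), (5, 1), (5, 0)]]⟩

def hexLat34 : List LatE :=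
  [⟨⟨⟨1, 0, 0⟩, ⟨0, 1, 0⟩, ⟨0, 0, 1⟩⟩, 1, ⟨⟨0, 0, 1⟩, ⟨0, 0, 0⟩, ⟨0, 0, 0⟩⟩⟩]

def hexRow35 : Row :=
  ⟨[⟨⟨1, -1, 0⟩, ⟨0, -1, 0⟩, ⟨0, 0, 1⟩⟩, ⟨⟨0, 1, 0⟩, ⟨1, 0, 0⟩, ⟨0, 0, 1⟩⟩], ⟨⟨1, 0, 0⟩, ⟨0, 1, 0⟩, ⟨0, 0, 1⟩⟩, ⟨⟨1, 0, 0⟩, ⟨0, 1, 0⟩, ⟨0, 0, 1⟩⟩, 6,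
   [⟨⟨⟨1, 0, 0⟩, ⟨0, 1, 0⟩, ⟨0, 0, 1⟩⟩, ⟨⟨0, 0, 0⟩, ⟨0, 0, 0⟩, ⟨0, 0, 0⟩⟩⟩,
    ⟨⟨⟨1, -1, 0⟩, ⟨0, -1, 0⟩, ⟨0, 0, 1⟩⟩, ⟨⟨0, 0, 0⟩, ⟨0, 0, 0⟩, ⟨0, 0, 0⟩⟩⟩,
    ⟨⟨⟨0, 1, 0⟩, ⟨1, 0, 0⟩, ⟨0, 0, 1⟩⟩, ⟨⟨0, 0, 0⟩, ⟨0, 0, 0⟩, ⟨0, 0, 0⟩⟩⟩,
    ⟨⟨⟨-1, 1, 0⟩, ⟨-1, 0, 0⟩, ⟨0, 0, 1⟩⟩, ⟨⟨0, 0, 0⟩, ⟨0, 0, 0⟩, ⟨0, 0, 0⟩⟩⟩,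
    ⟨⟨⟨0, -1, 0⟩, ⟨1, -1, 0⟩, ⟨0, 0, 1⟩⟩, ⟨⟨0, 0, 0⟩, ⟨0, 0, 0⟩, ⟨0, 0, 0⟩⟩⟩,
    ⟨⟨⟨-1, 0, 0⟩, ⟨-1, 1, 0⟩, ⟨0, 0, 1⟩⟩, ⟨⟨0, 0, 0⟩, ⟨0, 0, 0⟩, ⟨0, 0, 0⟩⟩⟩],
   [(0, 0), (0, 1), (1, 1), (2, 0), (3, 0)],
   [⟨⟨0, 0, 0⟩, ⟨0, 0, 0⟩, ⟨0, 0, 0⟩⟩,
    ⟨⟨1, 0, 0⟩, ⟨0, 1, 0⟩, ⟨0, 0, 1⟩⟩,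
    ⟨⟨-1, 0, 0⟩, ⟨0, -1, 0⟩, ⟨0, 0, -1⟩⟩,
    ⟨⟨1, -1, 0⟩, ⟨0, -1, 0⟩, ⟨0, 0, 1⟩⟩,
    ⟨⟨-1, 1, 0⟩, ⟨0, 1, 0⟩, ⟨0, 0, -1⟩⟩,
    ⟨⟨0, 1, 0⟩, ⟨1, 0, 0⟩, ⟨0, 0, 1⟩⟩,
    ⟨⟨0, -1, 0⟩, ⟨-1, 0, 0⟩, ⟨0, 0, -1⟩⟩,
    ⟨⟨-1, 1, 0⟩, ⟨-1, 0, 0⟩, ⟨0, 0, 1⟩⟩,
    ⟨⟨1, -1, 0⟩, ⟨1, 0, 0⟩, ⟨0, 0, -1⟩⟩,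
    ⟨⟨0, -1, 0⟩, ⟨1, -1, 0⟩, ⟨0, 0, 1⟩⟩,
    ⟨⟨0, 1, 0⟩, ⟨-1, 1, 0⟩, ⟨0, 0, -1⟩⟩,
    ⟨⟨-1, 0, 0⟩, ⟨-1, 1, 0⟩, ⟨0, 0, 1⟩⟩,
    ⟨⟨1, 0, 0⟩, ⟨1, -1, 0⟩, ⟨0, 0, -1⟩⟩],
   [[(1, 0), (2, 0), (0, 1), (0, 2)],
    [(0, 0), (3, 0), (1, 3), (1, 4)],
    [(4, 0), (0, 0), (2, 5), (2, 6)],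
    [(5, 0), (1, 0), (3, 7), (3, 8)],
    [(2, 0), (5, 0), (4, 9), (4, 10)],
    [(3, 0), (4, 0), (5, 11), (5, 12)]]⟩

def hexLat35 : List LatE :=
  [⟨⟨⟨1, 0, 0⟩, ⟨0, 1, 0⟩, ⟨0, 0, 1⟩⟩, 1, ⟨⟨0, 0, 0⟩, ⟨0, 0, 0⟩, ⟨0, 0, 0⟩⟩⟩]

def hexRow36 : Row :=
  ⟨[⟨⟨1, -1, 0⟩, ⟨0, -1, 0⟩, ⟨0, 0, 1⟩⟩, ⟨⟨0, 1, 0⟩, ⟨1, 0, 0⟩, ⟨0, 0, 1⟩⟩], ⟨⟨1, 0, 0⟩, ⟨0, 1, 0⟩, ⟨0, 0, -1⟩⟩, ⟨⟨1, 0, 0⟩, ⟨0, 1, 0⟩, ⟨0, 0, -1⟩⟩, 6,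
   [⟨⟨⟨1, 0, 0⟩, ⟨0, 1, 0⟩, ⟨0, 0, 1⟩⟩, ⟨⟨0, 0, 0⟩, ⟨0, 0, 0⟩, ⟨0, 0, 0⟩⟩⟩,
    ⟨⟨⟨1, -1, 0⟩, ⟨0, -1, 0⟩, ⟨0, 0, 1⟩⟩, ⟨⟨0, 0, 0⟩, ⟨0, 0, 0⟩, ⟨0, 0, 0⟩⟩⟩,
    ⟨⟨⟨0, 1, 0⟩, ⟨1, 0, 0⟩, ⟨0, 0, 1⟩⟩, ⟨⟨0, 0, 0⟩, ⟨0, 0, 0⟩, ⟨0, 0, 0⟩⟩⟩,
    ⟨⟨⟨-1, 1, 0⟩, ⟨-1, 0, 0⟩, ⟨0, 0, 1⟩⟩, ⟨⟨0, 0, 0⟩, ⟨0, 0, 0⟩, ⟨0, 0, 0⟩⟩⟩,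
    ⟨⟨⟨0, -1, 0⟩, ⟨1, -1, 0⟩, ⟨0, 0, 1⟩⟩, ⟨⟨0, 0, 0⟩, ⟨0, 0, 0⟩, ⟨0, 0, 0⟩⟩⟩,
    ⟨⟨⟨-1, 0, 0⟩, ⟨-1, 1, 0⟩, ⟨0, 0, 1⟩⟩, ⟨⟨0, 0, 0⟩, ⟨0, 0, 0⟩, ⟨0, 0, 0⟩⟩⟩,
    ⟨⟨⟨1, 0, 0⟩, ⟨0, 1, 0⟩, ⟨0, 0, -1⟩⟩, ⟨⟨1, 0, 0⟩, ⟨0, 1, 0⟩, ⟨0, 0, 1⟩⟩⟩,
    ⟨⟨⟨1, -1, 0⟩, ⟨0, -1, 0⟩, ⟨0, 0, -1⟩⟩, ⟨⟨1, -1, 0⟩, ⟨0, -1, 0⟩, ⟨0, 0, 1⟩⟩⟩,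
    ⟨⟨⟨0, 1, 0⟩, ⟨1, 0, 0⟩, ⟨0, 0, -1⟩⟩, ⟨⟨0, 1, 0⟩, ⟨1, 0, 0⟩, ⟨0, 0, 1⟩⟩⟩,
    ⟨⟨⟨-1, 1, 0⟩, ⟨-1, 0, 0⟩, ⟨0, 0, -1⟩⟩, ⟨⟨-1, 1, 0⟩, ⟨-1, 0, 0⟩, ⟨0, 0, 1⟩⟩⟩,
    ⟨⟨⟨0, -1, 0⟩, ⟨1, -1, 0⟩, ⟨0, 0, -1⟩⟩, ⟨⟨0, -1, 0⟩, ⟨1, -1, 0⟩, ⟨0, 0, 1⟩⟩⟩,
    ⟨⟨⟨-1, 0, 0⟩, ⟨-1, 1, 0⟩, ⟨0, 0, -1⟩⟩, ⟨⟨-1, 0, 0⟩, ⟨-1, 1, 0⟩, ⟨0, 0, 1⟩⟩⟩],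
   [(0, 0), (0, 1), (1, 1), (2, 0), (3, 0), (0, 2), (1, 2), (2, 2), (3, 2), (4, 2), (5, 2)],
   [⟨⟨0, 0, 0⟩, ⟨0, 0, 0⟩, ⟨0, 0, 0⟩⟩,
    ⟨⟨-2, 0, 0⟩, ⟨0, -2, 0⟩, ⟨0, 0, 0⟩⟩,
    ⟨⟨-2, 2, 0⟩, ⟨0, 2, 0⟩, ⟨0, 0, 0⟩⟩,
    ⟨⟨0, -2, 0⟩, ⟨-2, 0, 0⟩, ⟨0, 0, 0⟩⟩,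
    ⟨⟨2, -2, 0⟩, ⟨2, 0, 0⟩, ⟨0, 0, 0⟩⟩,
    ⟨⟨0, 2, 0⟩, ⟨-2, 2, 0⟩, ⟨0, 0, 0⟩⟩,
    ⟨⟨2, 0, 0⟩, ⟨2, -2, 0⟩, ⟨0, 0, 0⟩⟩,
    ⟨⟨0, 1, 0⟩, ⟨0, 2, 0⟩, ⟨0, 0, 0⟩⟩,
    ⟨⟨1, -1, 0⟩, ⟨-1, 1, 0⟩, ⟨0, 0, 0⟩⟩,
    ⟨⟨2, 0, 0⟩, ⟨0, 2, 0⟩, ⟨0, 0, 0⟩⟩,
    ⟨⟨0, -1, 0⟩, ⟨0, -2, 0⟩, ⟨0, 0, 0⟩⟩,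
    ⟨⟨2, -2, 0⟩, ⟨1, -1, 0⟩, ⟨0, 0, 0⟩⟩,
    ⟨⟨2, -2, 0⟩, ⟨0, -2, 0⟩, ⟨0, 0, 0⟩⟩,
    ⟨⟨0, 2, 0⟩, ⟨0, 1, 0⟩, ⟨0, 0, 0⟩⟩,
    ⟨⟨-1, 1, 0⟩, ⟨1, -1, 0⟩, ⟨0, 0, 0⟩⟩,
    ⟨⟨0, 2, 0⟩, ⟨2, 0, 0⟩, ⟨0, 0, 0⟩⟩,
    ⟨⟨0, 1, 0⟩, ⟨0, -1, 0⟩, ⟨0, 0, 0⟩⟩,
    ⟨⟨-2, 2, 0⟩, ⟨-1, 1, 0⟩, ⟨0, 0, 0⟩⟩,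
    ⟨⟨-2, 2, 0⟩, ⟨-2, 0, 0⟩, ⟨0, 0, 0⟩⟩,
    ⟨⟨0, -2, 0⟩, ⟨0, -1, 0⟩, ⟨0, 0, 0⟩⟩,
    ⟨⟨1, -1, 0⟩, ⟨2, -2, 0⟩, ⟨0, 0, 0⟩⟩,
    ⟨⟨0, -2, 0⟩, ⟨2, -2, 0⟩, ⟨0, 0, 0⟩⟩,
    ⟨⟨0, -1, 0⟩, ⟨0, 1, 0⟩, ⟨0, 0, 0⟩⟩,
    ⟨⟨-1, 1, 0⟩, ⟨-2, 2, 0⟩, ⟨0, 0, 0⟩⟩,
    ⟨⟨-2, 0, 0⟩, ⟨-2, 2, 0⟩, ⟨0, 0, 0⟩⟩],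
   [[(1, 0), (2, 0), (6, 0), (6, 1)],
    [(0, 0), (3, 0), (7, 0), (7, 2)],
    [(4, 0), (0, 0), (8, 0), (8, 3)],
    [(5, 0), (1, 0), (9, 0), (9, 4)],
    [(2, 0), (5, 0), (10, 0), (10, 5)],
    [(3, 0), (4, 0), (11, 0), (11, 6)],
    [(7, 7), (8, 8), (0, 9), (0, 0)],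
    [(6, 10), (9, 11), (1, 12), (1, 0)],
    [(10, 13), (6, 14), (2, 15), (2, 0)],
    [(11, 16), (7, 17), (3, 18), (3, 0)],
    [(8, 19), (11, 20), (4, 21), (4, 0)],
    [(9, 22), (10, 23), (5, 24), (5, 0)]]⟩

def hexLat36 : List LatE :=
  [⟨⟨⟨1, 0, 0⟩, ⟨0, 1, 0⟩, ⟨0, 0, 1⟩⟩, 1, ⟨⟨0, 0, 1⟩, ⟨0, 0, 0⟩, ⟨0, 0, 0⟩⟩⟩]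

def hexRow37 : Row :=
  ⟨[⟨⟨1, -1, 0⟩, ⟨1, 0, 0⟩, ⟨0, 0, -1⟩⟩], ⟨⟨1, 0, 0⟩, ⟨1, -1, 0⟩, ⟨0, 0, 1⟩⟩, ⟨⟨1, 0, 0⟩, ⟨1, -1, 0⟩, ⟨0, 0, 1⟩⟩, 6,
   [⟨⟨⟨1, 0, 0⟩, ⟨0, 1, 0⟩, ⟨0, 0, 1⟩⟩, ⟨⟨0, 0, 0⟩, ⟨0, 0, 0⟩, ⟨0, 0, 0⟩⟩⟩,
    ⟨⟨⟨1, -1, 0⟩, ⟨1, 0, 0⟩, ⟨0, 0, -1⟩⟩, ⟨⟨0, 0, 0⟩, ⟨0, 0, 0⟩, ⟨0, 0, 0⟩⟩⟩,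
    ⟨⟨⟨0, -1, 0⟩, ⟨1, -1, 0⟩, ⟨0, 0, 1⟩⟩, ⟨⟨0, 0, 0⟩, ⟨0, 0, 0⟩, ⟨0, 0, 0⟩⟩⟩,
    ⟨⟨⟨-1, 0, 0⟩, ⟨0, -1, 0⟩, ⟨0, 0, -1⟩⟩, ⟨⟨0, 0, 0⟩, ⟨0, 0, 0⟩, ⟨0, 0, 0⟩⟩⟩,
    ⟨⟨⟨-1, 1, 0⟩, ⟨-1, 0, 0⟩, ⟨0, 0, 1⟩⟩, ⟨⟨0, 0, 0⟩, ⟨0, 0, 0⟩, ⟨0, 0, 0⟩⟩⟩,
    ⟨⟨⟨0, 1, 0⟩, ⟨-1, 1, 0⟩, ⟨0, 0, -1⟩⟩, ⟨⟨0, 0, 0⟩, ⟨0, 0, 0⟩, ⟨0, 0, 0⟩⟩⟩,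
    ⟨⟨⟨1, 0, 0⟩, ⟨1, -1, 0⟩, ⟨0, 0, 1⟩⟩, ⟨⟨1, 0, 0⟩, ⟨0, 1, 0⟩, ⟨0, 0, 1⟩⟩⟩,
    ⟨⟨⟨0, 1, 0⟩, ⟨1, 0, 0⟩, ⟨0, 0, -1⟩⟩, ⟨⟨1, -1, 0⟩, ⟨1, 0, 0⟩, ⟨0, 0, -1⟩⟩⟩,
    ⟨⟨⟨-1, 1, 0⟩, ⟨0, 1, 0⟩, ⟨0, 0, 1⟩⟩, ⟨⟨0, -1, 0⟩, ⟨1, -1, 0⟩, ⟨0, 0, 1⟩⟩⟩,
    ⟨⟨⟨-1, 0, 0⟩, ⟨-1, 1, 0⟩, ⟨0, 0, -1⟩⟩, ⟨⟨-1, 0, 0⟩, ⟨0, -1, 0⟩, ⟨0, 0, -1⟩⟩⟩,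
    ⟨⟨⟨0, -1, 0⟩, ⟨-1, 0, 0⟩, ⟨0, 0, 1⟩⟩, ⟨⟨-1, 1, 0⟩, ⟨-1, 0, 0⟩, ⟨0, 0, 1⟩⟩⟩,
    ⟨⟨⟨1, -1, 0⟩, ⟨0, -1, 0⟩, ⟨0, 0, -1⟩⟩, ⟨⟨0, 1, 0⟩, ⟨-1, 1, 0⟩, ⟨0, 0, -1⟩⟩⟩],
   [(0, 0), (1, 0), (2, 0), (3, 0), (4, 0), (0, 1), (1, 1), (2, 1), (3, 1), (4, 1), (5, 1)],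
   [⟨⟨0, 0, 0⟩, ⟨0, 0, 0⟩, ⟨0, 0, 0⟩⟩,
    ⟨⟨-2, 0, 0⟩, ⟨-1, 0, 0⟩, ⟨0, 0, -2⟩⟩,
    ⟨⟨-1, 0, 0⟩, ⟨-2, 0, 0⟩, ⟨0, 0, 2⟩⟩,
    ⟨⟨1, 0, 0⟩, ⟨-1, 0, 0⟩, ⟨0, 0, -2⟩⟩,
    ⟨⟨2, 0, 0⟩, ⟨1, 0, 0⟩, ⟨0, 0, 2⟩⟩,
    ⟨⟨1, 0, 0⟩, ⟨2, 0, 0⟩, ⟨0, 0, -2⟩⟩,
    ⟨⟨-1, 0, 0⟩, ⟨1, 0, 0⟩, ⟨0, 0, 2⟩⟩,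
    ⟨⟨1, -1, 0⟩, ⟨1, 0, 0⟩, ⟨0, 0, 2⟩⟩,
    ⟨⟨0, -1, 0⟩, ⟨1, -1, 0⟩, ⟨0, 0, -2⟩⟩,
    ⟨⟨-1, 0, 0⟩, ⟨0, -1, 0⟩, ⟨0, 0, 2⟩⟩,
    ⟨⟨-1, 1, 0⟩, ⟨-1, 0, 0⟩, ⟨0, 0, -2⟩⟩,
    ⟨⟨0, 1, 0⟩, ⟨-1, 1, 0⟩, ⟨0, 0, 2⟩⟩,
    ⟨⟨1, 0, 0⟩, ⟨0, 1, 0⟩, ⟨0, 0, -2⟩⟩],
   [[(1, 0), (6, 0), (6, 1)],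
    [(2, 0), (7, 0), (7, 2)],
    [(3, 0), (8, 0), (8, 3)],
    [(4, 0), (9, 0), (9, 4)],
    [(5, 0), (10, 0), (10, 5)],
    [(0, 0), (11, 0), (11, 6)],
    [(11, 7), (0, 4), (0, 0)],
    [(6, 8), (1, 5), (1, 0)],
    [(7, 9), (2, 6), (2, 0)],
    [(8, 10), (3, 1), (3, 0)],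
    [(9, 11), (4, 2), (4, 0)],
    [(10, 12), (5, 3), (5, 0)]]⟩

def hexLat37 : List LatE :=
  [⟨⟨⟨1, 0, 0⟩, ⟨0, 1, 0⟩, ⟨0, 0, 1⟩⟩, 1, ⟨⟨0, 0, 0⟩, ⟨0, 0, 0⟩, ⟨0, 0, 0⟩⟩⟩]

def hexRow38 : Row :=
  ⟨[⟨⟨1, -1, 0⟩, ⟨1, 0, 0⟩, ⟨0, 0, -1⟩⟩], ⟨⟨1, 0, 0⟩, ⟨0, 1, 0⟩, ⟨0, 0, 1⟩⟩, ⟨⟨1, 0, 0⟩, ⟨0, 1, 0⟩, ⟨0, 0, 1⟩⟩, 6,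
   [⟨⟨⟨1, 0, 0⟩, ⟨0, 1, 0⟩, ⟨0, 0, 1⟩⟩, ⟨⟨0, 0, 0⟩, ⟨0, 0, 0⟩, ⟨0, 0, 0⟩⟩⟩,
    ⟨⟨⟨1, -1, 0⟩, ⟨1, 0, 0⟩, ⟨0, 0, -1⟩⟩, ⟨⟨0, 0, 0⟩, ⟨0, 0, 0⟩, ⟨0, 0, 0⟩⟩⟩,
    ⟨⟨⟨0, -1, 0⟩, ⟨1, -1, 0⟩, ⟨0, 0, 1⟩⟩, ⟨⟨0, 0, 0⟩, ⟨0, 0, 0⟩, ⟨0, 0, 0⟩⟩⟩,
    ⟨⟨⟨-1, 0, 0⟩, ⟨0, -1, 0⟩, ⟨0, 0, -1⟩⟩, ⟨⟨0, 0, 0⟩, ⟨0, 0, 0⟩, ⟨0, 0, 0⟩⟩⟩,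
    ⟨⟨⟨-1, 1, 0⟩, ⟨-1, 0, 0⟩, ⟨0, 0, 1⟩⟩, ⟨⟨0, 0, 0⟩, ⟨0, 0, 0⟩, ⟨0, 0, 0⟩⟩⟩,
    ⟨⟨⟨0, 1, 0⟩, ⟨-1, 1, 0⟩, ⟨0, 0, -1⟩⟩, ⟨⟨0, 0, 0⟩, ⟨0, 0, 0⟩, ⟨0, 0, 0⟩⟩⟩],
   [(0, 0), (1, 0), (2, 0), (3, 0), (4, 0)],
   [⟨⟨0, 0, 0⟩, ⟨0, 0, 0⟩, ⟨0, 0, 0⟩⟩,
    ⟨⟨1, 0, 0⟩, ⟨0, 1, 0⟩, ⟨0, 0, 1⟩⟩,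
    ⟨⟨-1, 0, 0⟩, ⟨0, -1, 0⟩, ⟨0, 0, -1⟩⟩,
    ⟨⟨1, -1, 0⟩, ⟨1, 0, 0⟩, ⟨0, 0, -1⟩⟩,
    ⟨⟨-1, 1, 0⟩, ⟨-1, 0, 0⟩, ⟨0, 0, 1⟩⟩,
    ⟨⟨0, -1, 0⟩, ⟨1, -1, 0⟩, ⟨0, 0, 1⟩⟩,
    ⟨⟨0, 1, 0⟩, ⟨-1, 1, 0⟩, ⟨0, 0, -1⟩⟩],
   [[(1, 0), (0, 1), (0, 2)],
    [(2, 0), (1, 3), (1, 4)],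
    [(3, 0), (2, 5), (2, 6)],
    [(4, 0), (3, 2), (3, 1)],
    [(5, 0), (4, 4), (4, 3)],
    [(0, 0), (5, 6), (5, 5)]]⟩

def hexLat38 : List LatE :=
  [⟨⟨⟨3, 0, 0⟩, ⟨0, 3, 0⟩, ⟨-1, -1, 1⟩⟩, 3, ⟨⟨0, 0, 0⟩, ⟨0, 0, 0⟩, ⟨0, 0, 0⟩⟩⟩]

def hexRow39 : Row :=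
  ⟨[⟨⟨1, -1, 0⟩, ⟨1, 0, 0⟩, ⟨0, 0, -1⟩⟩], ⟨⟨1, 0, 0⟩, ⟨0, 1, 0⟩, ⟨0, 0, -1⟩⟩, ⟨⟨1, 0, 0⟩, ⟨0, 1, 0⟩, ⟨0, 0, -1⟩⟩, 6,
   [⟨⟨⟨1, 0, 0⟩, ⟨0, 1, 0⟩, ⟨0, 0, 1⟩⟩, ⟨⟨0, 0, 0⟩, ⟨0, 0, 0⟩, ⟨0, 0, 0⟩⟩⟩,
    ⟨⟨⟨1, -1, 0⟩, ⟨1, 0, 0⟩, ⟨0, 0, -1⟩⟩, ⟨⟨0, 0, 0⟩, ⟨0, 0, 0⟩, ⟨0, 0, 0⟩⟩⟩,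
    ⟨⟨⟨0, -1, 0⟩, ⟨1, -1, 0⟩, ⟨0, 0, 1⟩⟩, ⟨⟨0, 0, 0⟩, ⟨0, 0, 0⟩, ⟨0, 0, 0⟩⟩⟩,
    ⟨⟨⟨-1, 0, 0⟩, ⟨0, -1, 0⟩, ⟨0, 0, -1⟩⟩, ⟨⟨0, 0, 0⟩, ⟨0, 0, 0⟩, ⟨0, 0, 0⟩⟩⟩,
    ⟨⟨⟨-1, 1, 0⟩, ⟨-1, 0, 0⟩, ⟨0, 0, 1⟩⟩, ⟨⟨0, 0, 0⟩, ⟨0, 0, 0⟩, ⟨0, 0, 0⟩⟩⟩,
    ⟨⟨⟨0, 1, 0⟩, ⟨-1, 1, 0⟩, ⟨0, 0, -1⟩⟩, ⟨⟨0, 0, 0⟩, ⟨0, 0, 0⟩, ⟨0, 0, 0⟩⟩⟩,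
    ⟨⟨⟨1, 0, 0⟩, ⟨0, 1, 0⟩, ⟨0, 0, -1⟩⟩, ⟨⟨1, 0, 0⟩, ⟨0, 1, 0⟩, ⟨0, 0, 1⟩⟩⟩,
    ⟨⟨⟨1, -1, 0⟩, ⟨1, 0, 0⟩, ⟨0, 0, 1⟩⟩, ⟨⟨1, -1, 0⟩, ⟨1, 0, 0⟩, ⟨0, 0, -1⟩⟩⟩,
    ⟨⟨⟨0, -1, 0⟩, ⟨1, -1, 0⟩, ⟨0, 0, -1⟩⟩, ⟨⟨0, -1, 0⟩, ⟨1, -1, 0⟩, ⟨0, 0, 1⟩⟩⟩,
    ⟨⟨⟨-1, 0, 0⟩, ⟨0, -1, 0⟩, ⟨0, 0, 1⟩⟩, ⟨⟨-1, 0, 0⟩, ⟨0, -1, 0⟩, ⟨0, 0, -1⟩⟩⟩,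
    ⟨⟨⟨-1, 1, 0⟩, ⟨-1, 0, 0⟩, ⟨0, 0, -1⟩⟩, ⟨⟨-1, 1, 0⟩, ⟨-1, 0, 0⟩, ⟨0, 0, 1⟩⟩⟩,
    ⟨⟨⟨0, 1, 0⟩, ⟨-1, 1, 0⟩, ⟨0, 0, 1⟩⟩, ⟨⟨0, 1, 0⟩, ⟨-1, 1, 0⟩, ⟨0, 0, -1⟩⟩⟩],
   [(0, 0), (1, 0), (2, 0), (3, 0), (4, 0), (0, 1), (1, 1), (2, 1), (3, 1), (4, 1), (5, 1)],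
   [⟨⟨0, 0, 0⟩, ⟨0, 0, 0⟩, ⟨0, 0, 0⟩⟩,
    ⟨⟨-2, 0, 0⟩, ⟨0, -2, 0⟩, ⟨0, 0, 0⟩⟩,
    ⟨⟨-2, 2, 0⟩, ⟨-2, 0, 0⟩, ⟨0, 0, 0⟩⟩,
    ⟨⟨0, 2, 0⟩, ⟨-2, 2, 0⟩, ⟨0, 0, 0⟩⟩,
    ⟨⟨2, 0, 0⟩, ⟨0, 2, 0⟩, ⟨0, 0, 0⟩⟩,
    ⟨⟨2, -2, 0⟩, ⟨2, 0, 0⟩, ⟨0, 0, 0⟩⟩,
    ⟨⟨0, -2, 0⟩, ⟨2, -2, 0⟩, ⟨0, 0, 0⟩⟩,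
    ⟨⟨0, 1, 0⟩, ⟨-1, 1, 0⟩, ⟨0, 0, 2⟩⟩,
    ⟨⟨1, 0, 0⟩, ⟨0, 1, 0⟩, ⟨0, 0, -2⟩⟩,
    ⟨⟨1, -1, 0⟩, ⟨1, 0, 0⟩, ⟨0, 0, 2⟩⟩,
    ⟨⟨0, -1, 0⟩, ⟨1, -1, 0⟩, ⟨0, 0, -2⟩⟩,
    ⟨⟨-1, 0, 0⟩, ⟨0, -1, 0⟩, ⟨0, 0, 2⟩⟩,
    ⟨⟨-1, 1, 0⟩, ⟨-1, 0, 0⟩, ⟨0, 0, -2⟩⟩],
   [[(1, 0), (6, 0), (6, 1)],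
    [(2, 0), (7, 0), (7, 2)],
    [(3, 0), (8, 0), (8, 3)],
    [(4, 0), (9, 0), (9, 4)],
    [(5, 0), (10, 0), (10, 5)],
    [(0, 0), (11, 0), (11, 6)],
    [(7, 7), (0, 4), (0, 0)],
    [(8, 8), (1, 5), (1, 0)],
    [(9, 9), (2, 6), (2, 0)],
    [(10, 10), (3, 1), (3, 0)],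
    [(11, 11), (4, 2), (4, 0)],
    [(6, 12), (5, 3), (5, 0)]]⟩

def hexLat39 : List LatE :=
  [⟨⟨⟨1, 0, 0⟩, ⟨0, 1, 0⟩, ⟨0, 0, 1⟩⟩, 1, ⟨⟨0, 0, 0⟩, ⟨0, 0, 0⟩, ⟨0, 0, 0⟩⟩⟩]

def hexRow40 : Row :=
  ⟨[⟨⟨1, -1, 0⟩, ⟨1, 0, 0⟩, ⟨0, 0, 1⟩⟩], ⟨⟨1, 0, 0⟩, ⟨1, -1, 0⟩, ⟨0, 0, 1⟩⟩, ⟨⟨1, 0, 0⟩, ⟨1, -1, 0⟩, ⟨0, 0, 1⟩⟩, 6,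
   [⟨⟨⟨1, 0, 0⟩, ⟨0, 1, 0⟩, ⟨0, 0, 1⟩⟩, ⟨⟨0, 0, 0⟩, ⟨0, 0, 0⟩, ⟨0, 0, 0⟩⟩⟩,
    ⟨⟨⟨1, -1, 0⟩, ⟨1, 0, 0⟩, ⟨0, 0, 1⟩⟩, ⟨⟨0, 0, 0⟩, ⟨0, 0, 0⟩, ⟨0, 0, 0⟩⟩⟩,
    ⟨⟨⟨0, -1, 0⟩, ⟨1, -1, 0⟩, ⟨0, 0, 1⟩⟩, ⟨⟨0, 0, 0⟩, ⟨0, 0, 0⟩, ⟨0, 0, 0⟩⟩⟩,
    ⟨⟨⟨-1, 0, 0⟩, ⟨0, -1, 0⟩, ⟨0, 0, 1⟩⟩, ⟨⟨0, 0, 0⟩, ⟨0, 0, 0⟩, ⟨0, 0, 0⟩⟩⟩,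
    ⟨⟨⟨-1, 1, 0⟩, ⟨-1, 0, 0⟩, ⟨0, 0, 1⟩⟩, ⟨⟨0, 0, 0⟩, ⟨0, 0, 0⟩, ⟨0, 0, 0⟩⟩⟩,
    ⟨⟨⟨0, 1, 0⟩, ⟨-1, 1, 0⟩, ⟨0, 0, 1⟩⟩, ⟨⟨0, 0, 0⟩, ⟨0, 0, 0⟩, ⟨0, 0, 0⟩⟩⟩,
    ⟨⟨⟨1, 0, 0⟩, ⟨1, -1, 0⟩, ⟨0, 0, 1⟩⟩, ⟨⟨1, 0, 0⟩, ⟨0, 1, 0⟩, ⟨0, 0, 1⟩⟩⟩,
    ⟨⟨⟨0, 1, 0⟩, ⟨1, 0, 0⟩, ⟨0, 0, 1⟩⟩, ⟨⟨1, -1, 0⟩, ⟨1, 0, 0⟩, ⟨0, 0, 1⟩⟩⟩,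
    ⟨⟨⟨-1, 1, 0⟩, ⟨0, 1, 0⟩, ⟨0, 0, 1⟩⟩, ⟨⟨0, -1, 0⟩, ⟨1, -1, 0⟩, ⟨0, 0, 1⟩⟩⟩,
    ⟨⟨⟨-1, 0, 0⟩, ⟨-1, 1, 0⟩, ⟨0, 0, 1⟩⟩, ⟨⟨-1, 0, 0⟩, ⟨0, -1, 0⟩, ⟨0, 0, 1⟩⟩⟩,
    ⟨⟨⟨0, -1, 0⟩, ⟨-1, 0, 0⟩, ⟨0, 0, 1⟩⟩, ⟨⟨-1, 1, 0⟩, ⟨-1, 0, 0⟩, ⟨0, 0, 1⟩⟩⟩,
    ⟨⟨⟨1, -1, 0⟩, ⟨0, -1, 0⟩, ⟨0, 0, 1⟩⟩, ⟨⟨0, 1, 0⟩, ⟨-1, 1, 0⟩, ⟨0, 0, 1⟩⟩⟩],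
   [(0, 0), (1, 0), (2, 0), (3, 0), (4, 0), (0, 1), (1, 1), (2, 1), (3, 1), (4, 1), (5, 1)],
   [⟨⟨0, 0, 0⟩, ⟨0, 0, 0⟩, ⟨0, 0, 0⟩⟩,
    ⟨⟨-2, 0, 0⟩, ⟨-1, 0, 0⟩, ⟨0, 0, -2⟩⟩,
    ⟨⟨-1, 0, 0⟩, ⟨-2, 0, 0⟩, ⟨0, 0, -2⟩⟩,
    ⟨⟨1, 0, 0⟩, ⟨-1, 0, 0⟩, ⟨0, 0, -2⟩⟩,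
    ⟨⟨2, 0, 0⟩, ⟨1, 0, 0⟩, ⟨0, 0, -2⟩⟩,
    ⟨⟨1, 0, 0⟩, ⟨2, 0, 0⟩, ⟨0, 0, -2⟩⟩,
    ⟨⟨-1, 0, 0⟩, ⟨1, 0, 0⟩, ⟨0, 0, -2⟩⟩,
    ⟨⟨1, -1, 0⟩, ⟨1, 0, 0⟩, ⟨0, 0, 0⟩⟩,
    ⟨⟨2, 0, 0⟩, ⟨1, 0, 0⟩, ⟨0, 0, 2⟩⟩,
    ⟨⟨0, -1, 0⟩, ⟨1, -1, 0⟩, ⟨0, 0, 0⟩⟩,
    ⟨⟨1, 0, 0⟩, ⟨2, 0, 0⟩, ⟨0, 0, 2⟩⟩,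
    ⟨⟨-1, 0, 0⟩, ⟨0, -1, 0⟩, ⟨0, 0, 0⟩⟩,
    ⟨⟨-1, 0, 0⟩, ⟨1, 0, 0⟩, ⟨0, 0, 2⟩⟩,
    ⟨⟨-1, 1, 0⟩, ⟨-1, 0, 0⟩, ⟨0, 0, 0⟩⟩,
    ⟨⟨-2, 0, 0⟩, ⟨-1, 0, 0⟩, ⟨0, 0, 2⟩⟩,
    ⟨⟨0, 1, 0⟩, ⟨-1, 1, 0⟩, ⟨0, 0, 0⟩⟩,
    ⟨⟨-1, 0, 0⟩, ⟨-2, 0, 0⟩, ⟨0, 0, 2⟩⟩,
    ⟨⟨1, 0, 0⟩, ⟨0, 1, 0⟩, ⟨0, 0, 0⟩⟩,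
    ⟨⟨1, 0, 0⟩, ⟨-1, 0, 0⟩, ⟨0, 0, 2⟩⟩],
   [[(1, 0), (6, 0), (6, 1)],
    [(2, 0), (7, 0), (7, 2)],
    [(3, 0), (8, 0), (8, 3)],
    [(4, 0), (9, 0), (9, 4)],
    [(5, 0), (10, 0), (10, 5)],
    [(0, 0), (11, 0), (11, 6)],
    [(11, 7), (0, 8), (0, 0)],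
    [(6, 9), (1, 10), (1, 0)],
    [(7, 11), (2, 12), (2, 0)],
    [(8, 13), (3, 14), (3, 0)],
    [(9, 15), (4, 16), (4, 0)],
    [(10, 17), (5, 18), (5, 0)]]⟩

def hexLat40 : List LatE :=
  [⟨⟨⟨1, 0, 0⟩, ⟨0, 1, 0⟩, ⟨0, 0, 1⟩⟩, 1, ⟨⟨0, 0, 0⟩, ⟨0, 0, 0⟩, ⟨0, 0, 0⟩⟩⟩]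

def hexRow41 : Row :=
  ⟨[⟨⟨1, -1, 0⟩, ⟨1, 0, 0⟩, ⟨0, 0, 1⟩⟩], ⟨⟨1, 0, 0⟩, ⟨1, -1, 0⟩, ⟨0, 0, -1⟩⟩, ⟨⟨1, 0, 0⟩, ⟨1, -1, 0⟩, ⟨0, 0, -1⟩⟩, 6,
   [⟨⟨⟨1, 0, 0⟩, ⟨0, 1, 0⟩, ⟨0, 0, 1⟩⟩, ⟨⟨0, 0, 0⟩, ⟨0, 0, 0⟩, ⟨0, 0, 0⟩⟩⟩,
    ⟨⟨⟨1, -1, 0⟩, ⟨1, 0, 0⟩, ⟨0, 0, 1⟩⟩, ⟨⟨0, 0, 0⟩, ⟨0, 0, 0⟩, ⟨0, 0, 0⟩⟩⟩,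
    ⟨⟨⟨0, -1, 0⟩, ⟨1, -1, 0⟩, ⟨0, 0, 1⟩⟩, ⟨⟨0, 0, 0⟩, ⟨0, 0, 0⟩, ⟨0, 0, 0⟩⟩⟩,
    ⟨⟨⟨-1, 0, 0⟩, ⟨0, -1, 0⟩, ⟨0, 0, 1⟩⟩, ⟨⟨0, 0, 0⟩, ⟨0, 0, 0⟩, ⟨0, 0, 0⟩⟩⟩,
    ⟨⟨⟨-1, 1, 0⟩, ⟨-1, 0, 0⟩, ⟨0, 0, 1⟩⟩, ⟨⟨0, 0, 0⟩, ⟨0, 0, 0⟩, ⟨0, 0, 0⟩⟩⟩,
    ⟨⟨⟨0, 1, 0⟩, ⟨-1, 1, 0⟩, ⟨0, 0, 1⟩⟩, ⟨⟨0, 0, 0⟩, ⟨0, 0, 0⟩, ⟨0, 0, 0⟩⟩⟩,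
    ⟨⟨⟨1, 0, 0⟩, ⟨1, -1, 0⟩, ⟨0, 0, -1⟩⟩, ⟨⟨1, 0, 0⟩, ⟨0, 1, 0⟩, ⟨0, 0, 1⟩⟩⟩,
    ⟨⟨⟨0, 1, 0⟩, ⟨1, 0, 0⟩, ⟨0, 0, -1⟩⟩, ⟨⟨1, -1, 0⟩, ⟨1, 0, 0⟩, ⟨0, 0, 1⟩⟩⟩,
    ⟨⟨⟨-1, 1, 0⟩, ⟨0, 1, 0⟩, ⟨0, 0, -1⟩⟩, ⟨⟨0, -1, 0⟩, ⟨1, -1, 0⟩, ⟨0, 0, 1⟩⟩⟩,
    ⟨⟨⟨-1, 0, 0⟩, ⟨-1, 1, 0⟩, ⟨0, 0, -1⟩⟩, ⟨⟨-1, 0, 0⟩, ⟨0, -1, 0⟩, ⟨0, 0, 1⟩⟩⟩,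
    ⟨⟨⟨0, -1, 0⟩, ⟨-1, 0, 0⟩, ⟨0, 0, -1⟩⟩, ⟨⟨-1, 1, 0⟩, ⟨-1, 0, 0⟩, ⟨0, 0, 1⟩⟩⟩,
    ⟨⟨⟨1, -1, 0⟩, ⟨0, -1, 0⟩, ⟨0, 0, -1⟩⟩, ⟨⟨0, 1, 0⟩, ⟨-1, 1, 0⟩, ⟨0, 0, 1⟩⟩⟩],
   [(0, 0), (1, 0), (2, 0), (3, 0), (4, 0), (0, 1), (1, 1), (2, 1), (3, 1), (4, 1), (5, 1)],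
   [⟨⟨0, 0, 0⟩, ⟨0, 0, 0⟩, ⟨0, 0, 0⟩⟩,
    ⟨⟨-2, 0, 0⟩, ⟨-1, 0, 0⟩, ⟨0, 0, 0⟩⟩,
    ⟨⟨-1, 0, 0⟩, ⟨-2, 0, 0⟩, ⟨0, 0, 0⟩⟩,
    ⟨⟨1, 0, 0⟩, ⟨-1, 0, 0⟩, ⟨0, 0, 0⟩⟩,
    ⟨⟨2, 0, 0⟩, ⟨1, 0, 0⟩, ⟨0, 0, 0⟩⟩,
    ⟨⟨1, 0, 0⟩, ⟨2, 0, 0⟩, ⟨0, 0, 0⟩⟩,
    ⟨⟨-1, 0, 0⟩, ⟨1, 0, 0⟩, ⟨0, 0, 0⟩⟩,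
    ⟨⟨1, -1, 0⟩, ⟨1, 0, 0⟩, ⟨0, 0, 0⟩⟩,
    ⟨⟨0, -1, 0⟩, ⟨1, -1, 0⟩, ⟨0, 0, 0⟩⟩,
    ⟨⟨-1, 0, 0⟩, ⟨0, -1, 0⟩, ⟨0, 0, 0⟩⟩,
    ⟨⟨-1, 1, 0⟩, ⟨-1, 0, 0⟩, ⟨0, 0, 0⟩⟩,
    ⟨⟨0, 1, 0⟩, ⟨-1, 1, 0⟩, ⟨0, 0, 0⟩⟩,
    ⟨⟨1, 0, 0⟩, ⟨0, 1, 0⟩, ⟨0, 0, 0⟩⟩],
   [[(1, 0), (6, 0), (6, 1)],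
    [(2, 0), (7, 0), (7, 2)],
    [(3, 0), (8, 0), (8, 3)],
    [(4, 0), (9, 0), (9, 4)],
    [(5, 0), (10, 0), (10, 5)],
    [(0, 0), (11, 0), (11, 6)],
    [(11, 7), (0, 4), (0, 0)],
    [(6, 8), (1, 5), (1, 0)],
    [(7, 9), (2, 6), (2, 0)],
    [(8, 10), (3, 1), (3, 0)],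
    [(9, 11), (4, 2), (4, 0)],
    [(10, 12), (5, 3), (5, 0)]]⟩

def hexLat41 : List LatE :=
  [⟨⟨⟨1, 0, 0⟩, ⟨0, 1, 0⟩, ⟨0, 0, 1⟩⟩, 1, ⟨⟨0, 0, 1⟩, ⟨0, 0, 0⟩, ⟨0, 0, 0⟩⟩⟩]

def hexRow42 : Row :=
  ⟨[⟨⟨1, -1, 0⟩, ⟨1, 0, 0⟩, ⟨0, 0, 1⟩⟩], ⟨⟨1, 0, 0⟩, ⟨0, 1, 0⟩, ⟨0, 0, 1⟩⟩, ⟨⟨1, 0, 0⟩, ⟨0, 1, 0⟩, ⟨0, 0, 1⟩⟩, 6,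
   [⟨⟨⟨1, 0, 0⟩, ⟨0, 1, 0⟩, ⟨0, 0, 1⟩⟩, ⟨⟨0, 0, 0⟩, ⟨0, 0, 0⟩, ⟨0, 0, 0⟩⟩⟩,
    ⟨⟨⟨1, -1, 0⟩, ⟨1, 0, 0⟩, ⟨0, 0, 1⟩⟩, ⟨⟨0, 0, 0⟩, ⟨0, 0, 0⟩, ⟨0, 0, 0⟩⟩⟩,
    ⟨⟨⟨0, -1, 0⟩, ⟨1, -1, 0⟩, ⟨0, 0, 1⟩⟩, ⟨⟨0, 0, 0⟩, ⟨0, 0, 0⟩, ⟨0, 0, 0⟩⟩⟩,
    ⟨⟨⟨-1, 0, 0⟩, ⟨0, -1, 0⟩, ⟨0, 0, 1⟩⟩, ⟨⟨0, 0, 0⟩, ⟨0, 0, 0⟩, ⟨0, 0, 0⟩⟩⟩,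
    ⟨⟨⟨-1, 1, 0⟩, ⟨-1, 0, 0⟩, ⟨0, 0, 1⟩⟩, ⟨⟨0, 0, 0⟩, ⟨0, 0, 0⟩, ⟨0, 0, 0⟩⟩⟩,
    ⟨⟨⟨0, 1, 0⟩, ⟨-1, 1, 0⟩, ⟨0, 0, 1⟩⟩, ⟨⟨0, 0, 0⟩, ⟨0, 0, 0⟩, ⟨0, 0, 0⟩⟩⟩],
   [(0, 0), (1, 0), (2, 0), (3, 0), (4, 0)],
   [⟨⟨0, 0, 0⟩, ⟨0, 0, 0⟩, ⟨0, 0, 0⟩⟩,
    ⟨⟨1, 0, 0⟩, ⟨0, 1, 0⟩, ⟨0, 0, 1⟩⟩,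
    ⟨⟨-1, 0, 0⟩, ⟨0, -1, 0⟩, ⟨0, 0, -1⟩⟩,
    ⟨⟨1, -1, 0⟩, ⟨1, 0, 0⟩, ⟨0, 0, 1⟩⟩,
    ⟨⟨-1, 1, 0⟩, ⟨-1, 0, 0⟩, ⟨0, 0, -1⟩⟩,
    ⟨⟨0, -1, 0⟩, ⟨1, -1, 0⟩, ⟨0, 0, 1⟩⟩,
    ⟨⟨0, 1, 0⟩, ⟨-1, 1, 0⟩, ⟨0, 0, -1⟩⟩,
    ⟨⟨-1, 0, 0⟩, ⟨0, -1, 0⟩, ⟨0, 0, 1⟩⟩,
    ⟨⟨1, 0, 0⟩, ⟨0, 1, 0⟩, ⟨0, 0, -1⟩⟩,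
    ⟨⟨-1, 1, 0⟩, ⟨-1, 0, 0⟩, ⟨0, 0, 1⟩⟩,
    ⟨⟨1, -1, 0⟩, ⟨1, 0, 0⟩, ⟨0, 0, -1⟩⟩,
    ⟨⟨0, 1, 0⟩, ⟨-1, 1, 0⟩, ⟨0, 0, 1⟩⟩,
    ⟨⟨0, -1, 0⟩, ⟨1, -1, 0⟩, ⟨0, 0, -1⟩⟩],
   [[(1, 0), (0, 1), (0, 2)],
    [(2, 0), (1, 3), (1, 4)],
    [(3, 0), (2, 5), (2, 6)],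
    [(4, 0), (3, 7), (3, 8)],
    [(5, 0), (4, 9), (4, 10)],
    [(0, 0), (5, 11), (5, 12)]]⟩

def hexLat42 : List LatE :=
  [⟨⟨⟨1, 0, 0⟩, ⟨0, 1, 0⟩, ⟨0, 0, 1⟩⟩, 1, ⟨⟨0, 0, 0⟩, ⟨0, 0, 0⟩, ⟨0, 0, 0⟩⟩⟩]

def hexRow43 : Row :=
  ⟨[⟨⟨1, -1, 0⟩, ⟨1, 0, 0⟩, ⟨0, 0, 1⟩⟩], ⟨⟨1, 0, 0⟩, ⟨0, 1, 0⟩, ⟨0, 0, -1⟩⟩, ⟨⟨1, 0, 0⟩, ⟨0, 1, 0⟩, ⟨0, 0, -1⟩⟩, 6,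
   [⟨⟨⟨1, 0, 0⟩, ⟨0, 1, 0⟩, ⟨0, 0, 1⟩⟩, ⟨⟨0, 0, 0⟩, ⟨0, 0, 0⟩, ⟨0, 0, 0⟩⟩⟩,
    ⟨⟨⟨1, -1, 0⟩, ⟨1, 0, 0⟩, ⟨0, 0, 1⟩⟩, ⟨⟨0, 0, 0⟩, ⟨0, 0, 0⟩, ⟨0, 0, 0⟩⟩⟩,
    ⟨⟨⟨0, -1, 0⟩, ⟨1, -1, 0⟩, ⟨0, 0, 1⟩⟩, ⟨⟨0, 0, 0⟩, ⟨0, 0, 0⟩, ⟨0, 0, 0⟩⟩⟩,
    ⟨⟨⟨-1, 0, 0⟩, ⟨0, -1, 0⟩, ⟨0, 0, 1⟩⟩, ⟨⟨0, 0, 0⟩, ⟨0, 0, 0⟩, ⟨0, 0, 0⟩⟩⟩,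
    ⟨⟨⟨-1, 1, 0⟩, ⟨-1, 0, 0⟩, ⟨0, 0, 1⟩⟩, ⟨⟨0, 0, 0⟩, ⟨0, 0, 0⟩, ⟨0, 0, 0⟩⟩⟩,
    ⟨⟨⟨0, 1, 0⟩, ⟨-1, 1, 0⟩, ⟨0, 0, 1⟩⟩, ⟨⟨0, 0, 0⟩, ⟨0, 0, 0⟩, ⟨0, 0, 0⟩⟩⟩,
    ⟨⟨⟨1, 0, 0⟩, ⟨0, 1, 0⟩, ⟨0, 0, -1⟩⟩, ⟨⟨1, 0, 0⟩, ⟨0, 1, 0⟩, ⟨0, 0, 1⟩⟩⟩,
    ⟨⟨⟨1, -1, 0⟩, ⟨1, 0, 0⟩, ⟨0, 0, -1⟩⟩, ⟨⟨1, -1, 0⟩, ⟨1, 0, 0⟩, ⟨0, 0, 1⟩⟩⟩,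
    ⟨⟨⟨0, -1, 0⟩, ⟨1, -1, 0⟩, ⟨0, 0, -1⟩⟩, ⟨⟨0, -1, 0⟩, ⟨1, -1, 0⟩, ⟨0, 0, 1⟩⟩⟩,
    ⟨⟨⟨-1, 0, 0⟩, ⟨0, -1, 0⟩, ⟨0, 0, -1⟩⟩, ⟨⟨-1, 0, 0⟩, ⟨0, -1, 0⟩, ⟨0, 0, 1⟩⟩⟩,
    ⟨⟨⟨-1, 1, 0⟩, ⟨-1, 0, 0⟩, ⟨0, 0, -1⟩⟩, ⟨⟨-1, 1, 0⟩, ⟨-1, 0, 0⟩, ⟨0, 0, 1⟩⟩⟩,
    ⟨⟨⟨0, 1, 0⟩, ⟨-1, 1, 0⟩, ⟨0, 0, -1⟩⟩, ⟨⟨0, 1, 0⟩, ⟨-1, 1, 0⟩, ⟨0, 0, 1⟩⟩⟩],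
   [(0, 0), (1, 0), (2, 0), (3, 0), (4, 0), (0, 1), (1, 1), (2, 1), (3, 1), (4, 1), (5, 1)],
   [⟨⟨0, 0, 0⟩, ⟨0, 0, 0⟩, ⟨0, 0, 0⟩⟩,
    ⟨⟨-2, 0, 0⟩, ⟨0, -2, 0⟩, ⟨0, 0, 0⟩⟩,
    ⟨⟨-2, 2, 0⟩, ⟨-2, 0, 0⟩, ⟨0, 0, 0⟩⟩,
    ⟨⟨0, 2, 0⟩, ⟨-2, 2, 0⟩, ⟨0, 0, 0⟩⟩,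
    ⟨⟨2, 0, 0⟩, ⟨0, 2, 0⟩, ⟨0, 0, 0⟩⟩,
    ⟨⟨2, -2, 0⟩, ⟨2, 0, 0⟩, ⟨0, 0, 0⟩⟩,
    ⟨⟨0, -2, 0⟩, ⟨2, -2, 0⟩, ⟨0, 0, 0⟩⟩,
    ⟨⟨0, 1, 0⟩, ⟨-1, 1, 0⟩, ⟨0, 0, 0⟩⟩,
    ⟨⟨1, 0, 0⟩, ⟨0, 1, 0⟩, ⟨0, 0, 0⟩⟩,
    ⟨⟨1, -1, 0⟩, ⟨1, 0, 0⟩, ⟨0, 0, 0⟩⟩,
    ⟨⟨0, -1, 0⟩, ⟨1, -1, 0⟩, ⟨0, 0, 0⟩⟩,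
    ⟨⟨-1, 0, 0⟩, ⟨0, -1, 0⟩, ⟨0, 0, 0⟩⟩,
    ⟨⟨-1, 1, 0⟩, ⟨-1, 0, 0⟩, ⟨0, 0, 0⟩⟩],
   [[(1, 0), (6, 0), (6, 1)],
    [(2, 0), (7, 0), (7, 2)],
    [(3, 0), (8, 0), (8, 3)],
    [(4, 0), (9, 0), (9, 4)],
    [(5, 0), (10, 0), (10, 5)],
    [(0, 0), (11, 0), (11, 6)],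
    [(7, 7), (0, 4), (0, 0)],
    [(8, 8), (1, 5), (1, 0)],
    [(9, 9), (2, 6), (2, 0)],
    [(10, 10), (3, 1), (3, 0)],
    [(11, 11), (4, 2), (4, 0)],
    [(6, 12), (5, 3), (5, 0)]]⟩

def hexLat43 : List LatE :=
  [⟨⟨⟨1, 0, 0⟩, ⟨0, 1, 0⟩, ⟨0, 0, 1⟩⟩, 1, ⟨⟨0, 0, 1⟩, ⟨0, 0, 0⟩, ⟨0, 0, 0⟩⟩⟩]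

def hexRow44 : Row :=
  ⟨[⟨⟨0, -1, 0⟩, ⟨1, -1, 0⟩, ⟨0, 0, -1⟩⟩], ⟨⟨1, 0, 0⟩, ⟨1, -1, 0⟩, ⟨0, 0, 1⟩⟩, ⟨⟨1, 0, 0⟩, ⟨1, -1, 0⟩, ⟨0, 0, 1⟩⟩, 6,
   [⟨⟨⟨1, 0, 0⟩, ⟨0, 1, 0⟩, ⟨0, 0, 1⟩⟩, ⟨⟨0, 0, 0⟩, ⟨0, 0, 0⟩, ⟨0, 0, 0⟩⟩⟩,
    ⟨⟨⟨0, -1, 0⟩, ⟨1, -1, 0⟩, ⟨0, 0, -1⟩⟩, ⟨⟨0, 0, 0⟩, ⟨0, 0, 0⟩, ⟨0, 0, 0⟩⟩⟩,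
    ⟨⟨⟨-1, 1, 0⟩, ⟨-1, 0, 0⟩, ⟨0, 0, 1⟩⟩, ⟨⟨0, 0, 0⟩, ⟨0, 0, 0⟩, ⟨0, 0, 0⟩⟩⟩,
    ⟨⟨⟨1, 0, 0⟩, ⟨0, 1, 0⟩, ⟨0, 0, -1⟩⟩, ⟨⟨0, 0, 0⟩, ⟨0, 0, 0⟩, ⟨0, 0, 0⟩⟩⟩,
    ⟨⟨⟨0, -1, 0⟩, ⟨1, -1, 0⟩, ⟨0, 0, 1⟩⟩, ⟨⟨0, 0, 0⟩, ⟨0, 0, 0⟩, ⟨0, 0, 0⟩⟩⟩,
    ⟨⟨⟨-1, 1, 0⟩, ⟨-1, 0, 0⟩, ⟨0, 0, -1⟩⟩, ⟨⟨0, 0, 0⟩, ⟨0, 0, 0⟩, ⟨0, 0, 0⟩⟩⟩,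
    ⟨⟨⟨1, 0, 0⟩, ⟨1, -1, 0⟩, ⟨0, 0, 1⟩⟩, ⟨⟨1, 0, 0⟩, ⟨0, 1, 0⟩, ⟨0, 0, 1⟩⟩⟩,
    ⟨⟨⟨-1, 1, 0⟩, ⟨0, 1, 0⟩, ⟨0, 0, -1⟩⟩, ⟨⟨0, -1, 0⟩, ⟨1, -1, 0⟩, ⟨0, 0, -1⟩⟩⟩,
    ⟨⟨⟨0, -1, 0⟩, ⟨-1, 0, 0⟩, ⟨0, 0, 1⟩⟩, ⟨⟨-1, 1, 0⟩, ⟨-1, 0, 0⟩, ⟨0, 0, 1⟩⟩⟩,
    ⟨⟨⟨1, 0, 0⟩, ⟨1, -1, 0⟩, ⟨0, 0, -1⟩⟩, ⟨⟨1, 0, 0⟩, ⟨0, 1, 0⟩, ⟨0, 0, -1⟩⟩⟩,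
    ⟨⟨⟨-1, 1, 0⟩, ⟨0, 1, 0⟩, ⟨0, 0, 1⟩⟩, ⟨⟨0, -1, 0⟩, ⟨1, -1, 0⟩, ⟨0, 0, 1⟩⟩⟩,
    ⟨⟨⟨0, -1, 0⟩, ⟨-1, 0, 0⟩, ⟨0, 0, -1⟩⟩, ⟨⟨-1, 1, 0⟩, ⟨-1, 0, 0⟩, ⟨0, 0, -1⟩⟩⟩],
   [(0, 0), (1, 0), (2, 0), (3, 0), (4, 0), (0, 1), (1, 1), (2, 1), (3, 1), (4, 1), (5, 1)],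
   [⟨⟨0, 0, 0⟩, ⟨0, 0, 0⟩, ⟨0, 0, 0⟩⟩,
    ⟨⟨-2, 0, 0⟩, ⟨-1, 0, 0⟩, ⟨0, 0, -2⟩⟩,
    ⟨⟨1, 0, 0⟩, ⟨-1, 0, 0⟩, ⟨0, 0, 2⟩⟩,
    ⟨⟨1, 0, 0⟩, ⟨2, 0, 0⟩, ⟨0, 0, -2⟩⟩,
    ⟨⟨-2, 0, 0⟩, ⟨-1, 0, 0⟩, ⟨0, 0, 2⟩⟩,
    ⟨⟨1, 0, 0⟩, ⟨-1, 0, 0⟩, ⟨0, 0, -2⟩⟩,
    ⟨⟨1, 0, 0⟩, ⟨2, 0, 0⟩, ⟨0, 0, 2⟩⟩,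
    ⟨⟨2, -1, 0⟩, ⟨1, 1, 0⟩, ⟨0, 0, 2⟩⟩,
    ⟨⟨2, 0, 0⟩, ⟨1, 0, 0⟩, ⟨0, 0, 2⟩⟩,
    ⟨⟨-1, -1, 0⟩, ⟨1, -2, 0⟩, ⟨0, 0, -2⟩⟩,
    ⟨⟨-1, 0, 0⟩, ⟨1, 0, 0⟩, ⟨0, 0, -2⟩⟩,
    ⟨⟨-1, 2, 0⟩, ⟨-2, 1, 0⟩, ⟨0, 0, 2⟩⟩,
    ⟨⟨-1, 0, 0⟩, ⟨-2, 0, 0⟩, ⟨0, 0, 2⟩⟩,
    ⟨⟨2, -1, 0⟩, ⟨1, 1, 0⟩, ⟨0, 0, -2⟩⟩,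
    ⟨⟨2, 0, 0⟩, ⟨1, 0, 0⟩, ⟨0, 0, -2⟩⟩,
    ⟨⟨-1, -1, 0⟩, ⟨1, -2, 0⟩, ⟨0, 0, 2⟩⟩,
    ⟨⟨-1, 0, 0⟩, ⟨1, 0, 0⟩, ⟨0, 0, 2⟩⟩,
    ⟨⟨-1, 2, 0⟩, ⟨-2, 1, 0⟩, ⟨0, 0, -2⟩⟩,
    ⟨⟨-1, 0, 0⟩, ⟨-2, 0, 0⟩, ⟨0, 0, -2⟩⟩],
   [[(1, 0), (6, 0), (6, 1)],
    [(2, 0), (7, 0), (7, 2)],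
    [(3, 0), (8, 0), (8, 3)],
    [(4, 0), (9, 0), (9, 4)],
    [(5, 0), (10, 0), (10, 5)],
    [(0, 0), (11, 0), (11, 6)],
    [(11, 7), (0, 8), (0, 0)],
    [(6, 9), (1, 10), (1, 0)],
    [(7, 11), (2, 12), (2, 0)],
    [(8, 13), (3, 14), (3, 0)],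
    [(9, 15), (4, 16), (4, 0)],
    [(10, 17), (5, 18), (5, 0)]]⟩

def hexLat44 : List LatE :=
  [⟨⟨⟨1, 0, 0⟩, ⟨0, 1, 0⟩, ⟨0, 0, 1⟩⟩, 1, ⟨⟨0, 0, 0⟩, ⟨0, 0, 0⟩, ⟨0, 0, 0⟩⟩⟩]

def hexRow45 : Row :=
  ⟨[⟨⟨0, -1, 0⟩, ⟨1, -1, 0⟩, ⟨0, 0, -1⟩⟩], ⟨⟨1, 0, 0⟩, ⟨0, 1, 0⟩, ⟨0, 0, 1⟩⟩, ⟨⟨1, 0, 0⟩, ⟨0, 1, 0⟩, ⟨0, 0, 1⟩⟩, 6,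
   [⟨⟨⟨1, 0, 0⟩, ⟨0, 1, 0⟩, ⟨0, 0, 1⟩⟩, ⟨⟨0, 0, 0⟩, ⟨0, 0, 0⟩, ⟨0, 0, 0⟩⟩⟩,
    ⟨⟨⟨0, -1, 0⟩, ⟨1, -1, 0⟩, ⟨0, 0, -1⟩⟩, ⟨⟨0, 0, 0⟩, ⟨0, 0, 0⟩, ⟨0, 0, 0⟩⟩⟩,
    ⟨⟨⟨-1, 1, 0⟩, ⟨-1, 0, 0⟩, ⟨0, 0, 1⟩⟩, ⟨⟨0, 0, 0⟩, ⟨0, 0, 0⟩, ⟨0, 0, 0⟩⟩⟩,
    ⟨⟨⟨1, 0, 0⟩, ⟨0, 1, 0⟩, ⟨0, 0, -1⟩⟩, ⟨⟨0, 0, 0⟩, ⟨0, 0, 0⟩, ⟨0, 0, 0⟩⟩⟩,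
    ⟨⟨⟨0, -1, 0⟩, ⟨1, -1, 0⟩, ⟨0, 0, 1⟩⟩, ⟨⟨0, 0, 0⟩, ⟨0, 0, 0⟩, ⟨0, 0, 0⟩⟩⟩,
    ⟨⟨⟨-1, 1, 0⟩, ⟨-1, 0, 0⟩, ⟨0, 0, -1⟩⟩, ⟨⟨0, 0, 0⟩, ⟨0, 0, 0⟩, ⟨0, 0, 0⟩⟩⟩],
   [(0, 0), (1, 0), (2, 0), (3, 0), (4, 0)],
   [⟨⟨0, 0, 0⟩, ⟨0, 0, 0⟩, ⟨0, 0, 0⟩⟩,
    ⟨⟨1, 0, 0⟩, ⟨0, 1, 0⟩, ⟨0, 0, 1⟩⟩,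
    ⟨⟨-1, 0, 0⟩, ⟨0, -1, 0⟩, ⟨0, 0, -1⟩⟩,
    ⟨⟨0, -1, 0⟩, ⟨1, -1, 0⟩, ⟨0, 0, -1⟩⟩,
    ⟨⟨0, 1, 0⟩, ⟨-1, 1, 0⟩, ⟨0, 0, 1⟩⟩,
    ⟨⟨-1, 1, 0⟩, ⟨-1, 0, 0⟩, ⟨0, 0, 1⟩⟩,
    ⟨⟨1, -1, 0⟩, ⟨1, 0, 0⟩, ⟨0, 0, -1⟩⟩,
    ⟨⟨1, 0, 0⟩, ⟨0, 1, 0⟩, ⟨0, 0, -1⟩⟩,
    ⟨⟨-1, 0, 0⟩, ⟨0, -1, 0⟩, ⟨0, 0, 1⟩⟩,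
    ⟨⟨0, -1, 0⟩, ⟨1, -1, 0⟩, ⟨0, 0, 1⟩⟩,
    ⟨⟨0, 1, 0⟩, ⟨-1, 1, 0⟩, ⟨0, 0, -1⟩⟩,
    ⟨⟨-1, 1, 0⟩, ⟨-1, 0, 0⟩, ⟨0, 0, -1⟩⟩,
    ⟨⟨1, -1, 0⟩, ⟨1, 0, 0⟩, ⟨0, 0, 1⟩⟩],
   [[(1, 0), (0, 1), (0, 2)],
    [(2, 0), (1, 3), (1, 4)],
    [(3, 0), (2, 5), (2, 6)],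
    [(4, 0), (3, 7), (3, 8)],
    [(5, 0), (4, 9), (4, 10)],
    [(0, 0), (5, 11), (5, 12)]]⟩

def hexLat45 : List LatE :=
  [⟨⟨⟨1, 0, 0⟩, ⟨0, 1, 0⟩, ⟨0, 0, 1⟩⟩, 1, ⟨⟨0, 0, 0⟩, ⟨0, 0, 0⟩, ⟨0, 0, 0⟩⟩⟩]

def hexRow46 : Row :=
  ⟨[⟨⟨0, -1, 0⟩, ⟨1, -1, 0⟩, ⟨0, 0, -1⟩⟩], ⟨⟨1, -1, 0⟩, ⟨1, 0, 0⟩, ⟨0, 0, 1⟩⟩, ⟨⟨0, 1, 0⟩, ⟨-1, 1, 0⟩, ⟨0, 0, 1⟩⟩, 6,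
   [⟨⟨⟨1, 0, 0⟩, ⟨0, 1, 0⟩, ⟨0, 0, 1⟩⟩, ⟨⟨0, 0, 0⟩, ⟨0, 0, 0⟩, ⟨0, 0, 0⟩⟩⟩,
    ⟨⟨⟨0, -1, 0⟩, ⟨1, -1, 0⟩, ⟨0, 0, -1⟩⟩, ⟨⟨0, 0, 0⟩, ⟨0, 0, 0⟩, ⟨0, 0, 0⟩⟩⟩,
    ⟨⟨⟨-1, 1, 0⟩, ⟨-1, 0, 0⟩, ⟨0, 0, 1⟩⟩, ⟨⟨0, 0, 0⟩, ⟨0, 0, 0⟩, ⟨0, 0, 0⟩⟩⟩,
    ⟨⟨⟨1, 0, 0⟩, ⟨0, 1, 0⟩, ⟨0, 0, -1⟩⟩, ⟨⟨0, 0, 0⟩, ⟨0, 0, 0⟩, ⟨0, 0, 0⟩⟩⟩,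
    ⟨⟨⟨0, -1, 0⟩, ⟨1, -1, 0⟩, ⟨0, 0, 1⟩⟩, ⟨⟨0, 0, 0⟩, ⟨0, 0, 0⟩, ⟨0, 0, 0⟩⟩⟩,
    ⟨⟨⟨-1, 1, 0⟩, ⟨-1, 0, 0⟩, ⟨0, 0, -1⟩⟩, ⟨⟨0, 0, 0⟩, ⟨0, 0, 0⟩, ⟨0, 0, 0⟩⟩⟩,
    ⟨⟨⟨1, -1, 0⟩, ⟨1, 0, 0⟩, ⟨0, 0, 1⟩⟩, ⟨⟨1, 0, 0⟩, ⟨0, 1, 0⟩, ⟨0, 0, 1⟩⟩⟩,
    ⟨⟨⟨0, 1, 0⟩, ⟨-1, 1, 0⟩, ⟨0, 0, 1⟩⟩, ⟨⟨0, -1, 0⟩, ⟨1, -1, 0⟩, ⟨0, 0, -1⟩⟩⟩,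
    ⟨⟨⟨-1, 0, 0⟩, ⟨0, -1, 0⟩, ⟨0, 0, -1⟩⟩, ⟨⟨0, -1, 0⟩, ⟨1, -1, 0⟩, ⟨0, 0, -1⟩⟩⟩,
    ⟨⟨⟨1, -1, 0⟩, ⟨1, 0, 0⟩, ⟨0, 0, -1⟩⟩, ⟨⟨-1, 1, 0⟩, ⟨-1, 0, 0⟩, ⟨0, 0, 1⟩⟩⟩,
    ⟨⟨⟨-1, 0, 0⟩, ⟨0, -1, 0⟩, ⟨0, 0, 1⟩⟩, ⟨⟨1, 0, 0⟩, ⟨0, 1, 0⟩, ⟨0, 0, -1⟩⟩⟩,
    ⟨⟨⟨0, 1, 0⟩, ⟨-1, 1, 0⟩, ⟨0, 0, -1⟩⟩, ⟨⟨0, -1, 0⟩, ⟨1, -1, 0⟩, ⟨0, 0, 1⟩⟩⟩],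
   [(0, 0), (1, 0), (2, 0), (3, 0), (4, 0), (0, 1), (0, 2), (1, 1), (1, 2), (2, 2), (3, 2)],
   [⟨⟨0, 0, 0⟩, ⟨0, 0, 0⟩, ⟨0, 0, 0⟩⟩,
    ⟨⟨-1, 2, 0⟩, ⟨-2, 1, 0⟩, ⟨0, 0, 2⟩⟩,
    ⟨⟨2, -1, 0⟩, ⟨1, 1, 0⟩, ⟨0, 0, -2⟩⟩,
    ⟨⟨-1, -1, 0⟩, ⟨1, -2, 0⟩, ⟨0, 0, 2⟩⟩,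
    ⟨⟨-2, 1, 0⟩, ⟨-1, -1, 0⟩, ⟨0, 0, -2⟩⟩,
    ⟨⟨-1, 2, 0⟩, ⟨-2, 1, 0⟩, ⟨0, 0, -2⟩⟩,
    ⟨⟨1, 1, 0⟩, ⟨-1, 2, 0⟩, ⟨0, 0, 2⟩⟩,
    ⟨⟨2, -1, 0⟩, ⟨1, 1, 0⟩, ⟨0, 0, 2⟩⟩,
    ⟨⟨1, -2, 0⟩, ⟨2, -1, 0⟩, ⟨0, 0, -2⟩⟩,
    ⟨⟨-1, -1, 0⟩, ⟨1, -2, 0⟩, ⟨0, 0, -2⟩⟩,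
    ⟨⟨-2, 1, 0⟩, ⟨-1, -1, 0⟩, ⟨0, 0, 2⟩⟩,
    ⟨⟨1, 1, 0⟩, ⟨-1, 2, 0⟩, ⟨0, 0, -2⟩⟩,
    ⟨⟨-1, -1, 0⟩, ⟨1, -2, 0⟩, ⟨0, 0, 0⟩⟩,
    ⟨⟨1, -2, 0⟩, ⟨2, -1, 0⟩, ⟨0, 0, 2⟩⟩],
   [[(1, 0), (6, 0), (7, 0)],
    [(2, 0), (8, 0), (9, 0)],
    [(3, 0), (7, 1), (10, 0)],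
    [(4, 0), (9, 2), (11, 0)],
    [(5, 0), (10, 3), (6, 4)],
    [(0, 0), (11, 5), (8, 6)],
    [(8, 6), (4, 7), (0, 0)],
    [(9, 8), (0, 0), (2, 8)],
    [(7, 0), (5, 9), (1, 0)],
    [(10, 10), (1, 0), (3, 10)],
    [(11, 11), (2, 0), (4, 11)],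
    [(6, 12), (3, 0), (5, 13)]]⟩

def hexLat46 : List LatE :=
  [⟨⟨⟨3, 0, 0⟩, ⟨-2, 1, 0⟩, ⟨0, 0, 3⟩⟩, 3, ⟨⟨0, 0, 0⟩, ⟨0, 0, 0⟩, ⟨0, 0, 0⟩⟩⟩]

def hexRow47 : Row :=
  ⟨[⟨⟨1, -1, 0⟩, ⟨0, -1, 0⟩, ⟨0, 0, 1⟩⟩, ⟨⟨0, 1, 0⟩, ⟨1, 0, 0⟩, ⟨0, 0, -1⟩⟩], ⟨⟨1, 0, 0⟩, ⟨1, -1, 0⟩, ⟨0, 0, 1⟩⟩, ⟨⟨1, 0, 0⟩, ⟨1, -1, 0⟩, ⟨0, 0, 1⟩⟩, 12,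
   [⟨⟨⟨1, 0, 0⟩, ⟨0, 1, 0⟩, ⟨0, 0, 1⟩⟩, ⟨⟨0, 0, 0⟩, ⟨0, 0, 0⟩, ⟨0, 0, 0⟩⟩⟩,
    ⟨⟨⟨1, -1, 0⟩, ⟨0, -1, 0⟩, ⟨0, 0, 1⟩⟩, ⟨⟨0, 0, 0⟩, ⟨0, 0, 0⟩, ⟨0, 0, 0⟩⟩⟩,
    ⟨⟨⟨0, 1, 0⟩, ⟨1, 0, 0⟩, ⟨0, 0, -1⟩⟩, ⟨⟨0, 0, 0⟩, ⟨0, 0, 0⟩, ⟨0, 0, 0⟩⟩⟩,
    ⟨⟨⟨-1, 1, 0⟩, ⟨-1, 0, 0⟩, ⟨0, 0, -1⟩⟩, ⟨⟨0, 0, 0⟩, ⟨0, 0, 0⟩, ⟨0, 0, 0⟩⟩⟩,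
    ⟨⟨⟨0, -1, 0⟩, ⟨1, -1, 0⟩, ⟨0, 0, -1⟩⟩, ⟨⟨0, 0, 0⟩, ⟨0, 0, 0⟩, ⟨0, 0, 0⟩⟩⟩,
    ⟨⟨⟨-1, 0, 0⟩, ⟨-1, 1, 0⟩, ⟨0, 0, -1⟩⟩, ⟨⟨0, 0, 0⟩, ⟨0, 0, 0⟩, ⟨0, 0, 0⟩⟩⟩,
    ⟨⟨⟨-1, 0, 0⟩, ⟨-1, 1, 0⟩, ⟨0, 0, 1⟩⟩, ⟨⟨0, 0, 0⟩, ⟨0, 0, 0⟩, ⟨0, 0, 0⟩⟩⟩,
    ⟨⟨⟨0, -1, 0⟩, ⟨1, -1, 0⟩, ⟨0, 0, 1⟩⟩, ⟨⟨0, 0, 0⟩, ⟨0, 0, 0⟩, ⟨0, 0, 0⟩⟩⟩,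
    ⟨⟨⟨-1, 1, 0⟩, ⟨-1, 0, 0⟩, ⟨0, 0, 1⟩⟩, ⟨⟨0, 0, 0⟩, ⟨0, 0, 0⟩, ⟨0, 0, 0⟩⟩⟩,
    ⟨⟨⟨0, 1, 0⟩, ⟨1, 0, 0⟩, ⟨0, 0, 1⟩⟩, ⟨⟨0, 0, 0⟩, ⟨0, 0, 0⟩, ⟨0, 0, 0⟩⟩⟩,
    ⟨⟨⟨1, -1, 0⟩, ⟨0, -1, 0⟩, ⟨0, 0, -1⟩⟩, ⟨⟨0, 0, 0⟩, ⟨0, 0, 0⟩, ⟨0, 0, 0⟩⟩⟩,
    ⟨⟨⟨1, 0, 0⟩, ⟨0, 1, 0⟩, ⟨0, 0, -1⟩⟩, ⟨⟨0, 0, 0⟩, ⟨0, 0, 0⟩, ⟨0, 0, 0⟩⟩⟩,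
    ⟨⟨⟨1, 0, 0⟩, ⟨1, -1, 0⟩, ⟨0, 0, 1⟩⟩, ⟨⟨1, 0, 0⟩, ⟨0, 1, 0⟩, ⟨0, 0, 1⟩⟩⟩,
    ⟨⟨⟨0, 1, 0⟩, ⟨-1, 1, 0⟩, ⟨0, 0, 1⟩⟩, ⟨⟨1, -1, 0⟩, ⟨0, -1, 0⟩, ⟨0, 0, 1⟩⟩⟩,
    ⟨⟨⟨1, -1, 0⟩, ⟨1, 0, 0⟩, ⟨0, 0, -1⟩⟩, ⟨⟨0, 1, 0⟩, ⟨1, 0, 0⟩, ⟨0, 0, -1⟩⟩⟩,
    ⟨⟨⟨0, -1, 0⟩, ⟨-1, 0, 0⟩, ⟨0, 0, -1⟩⟩, ⟨⟨-1, 1, 0⟩, ⟨-1, 0, 0⟩, ⟨0, 0, -1⟩⟩⟩,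
    ⟨⟨⟨-1, 1, 0⟩, ⟨0, 1, 0⟩, ⟨0, 0, -1⟩⟩, ⟨⟨0, -1, 0⟩, ⟨1, -1, 0⟩, ⟨0, 0, -1⟩⟩⟩,
    ⟨⟨⟨-1, 0, 0⟩, ⟨0, -1, 0⟩, ⟨0, 0, -1⟩⟩, ⟨⟨-1, 0, 0⟩, ⟨-1, 1, 0⟩, ⟨0, 0, -1⟩⟩⟩,
    ⟨⟨⟨-1, 0, 0⟩, ⟨0, -1, 0⟩, ⟨0, 0, 1⟩⟩, ⟨⟨-1, 0, 0⟩, ⟨-1, 1, 0⟩, ⟨0, 0, 1⟩⟩⟩,
    ⟨⟨⟨-1, 1, 0⟩, ⟨0, 1, 0⟩, ⟨0, 0, 1⟩⟩, ⟨⟨0, -1, 0⟩, ⟨1, -1, 0⟩, ⟨0, 0, 1⟩⟩⟩,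
    ⟨⟨⟨0, -1, 0⟩, ⟨-1, 0, 0⟩, ⟨0, 0, 1⟩⟩, ⟨⟨-1, 1, 0⟩, ⟨-1, 0, 0⟩, ⟨0, 0, 1⟩⟩⟩,
    ⟨⟨⟨1, -1, 0⟩, ⟨1, 0, 0⟩, ⟨0, 0, 1⟩⟩, ⟨⟨0, 1, 0⟩, ⟨1, 0, 0⟩, ⟨0, 0, 1⟩⟩⟩,
    ⟨⟨⟨0, 1, 0⟩, ⟨-1, 1, 0⟩, ⟨0, 0, -1⟩⟩, ⟨⟨1, -1, 0⟩, ⟨0, -1, 0⟩, ⟨0, 0, -1⟩⟩⟩,
    ⟨⟨⟨1, 0, 0⟩, ⟨1, -1, 0⟩, ⟨0, 0, -1⟩⟩, ⟨⟨1, 0, 0⟩, ⟨0, 1, 0⟩, ⟨0, 0, -1⟩⟩⟩],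
   [(0, 0), (0, 1), (1, 1), (2, 0), (3, 0), (4, 1), (5, 1), (6, 0), (7, 0), (8, 1), (9, 1), (0, 2), (1, 2), (2, 2), (3, 2), (4, 2), (5, 2), (6, 2), (7, 2), (8, 2), (9, 2), (10, 2), (11, 2)],
   [⟨⟨0, 0, 0⟩, ⟨0, 0, 0⟩, ⟨0, 0, 0⟩⟩,
    ⟨⟨-2, 0, 0⟩, ⟨-1, 0, 0⟩, ⟨0, 0, -2⟩⟩,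
    ⟨⟨-1, 0, 0⟩, ⟨1, 0, 0⟩, ⟨0, 0, -2⟩⟩,
    ⟨⟨-1, 0, 0⟩, ⟨-2, 0, 0⟩, ⟨0, 0, 2⟩⟩,
    ⟨⟨1, 0, 0⟩, ⟨2, 0, 0⟩, ⟨0, 0, 2⟩⟩,
    ⟨⟨1, 0, 0⟩, ⟨-1, 0, 0⟩, ⟨0, 0, 2⟩⟩,
    ⟨⟨2, 0, 0⟩, ⟨1, 0, 0⟩, ⟨0, 0, 2⟩⟩,
    ⟨⟨2, 0, 0⟩, ⟨1, 0, 0⟩, ⟨0, 0, -2⟩⟩,
    ⟨⟨1, 0, 0⟩, ⟨-1, 0, 0⟩, ⟨0, 0, -2⟩⟩,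
    ⟨⟨1, 0, 0⟩, ⟨2, 0, 0⟩, ⟨0, 0, -2⟩⟩,
    ⟨⟨-1, 0, 0⟩, ⟨-2, 0, 0⟩, ⟨0, 0, -2⟩⟩,
    ⟨⟨-1, 0, 0⟩, ⟨1, 0, 0⟩, ⟨0, 0, 2⟩⟩,
    ⟨⟨-2, 0, 0⟩, ⟨-1, 0, 0⟩, ⟨0, 0, 2⟩⟩,
    ⟨⟨1, -1, 0⟩, ⟨-1, 1, 0⟩, ⟨0, 0, 0⟩⟩,
    ⟨⟨0, 1, 0⟩, ⟨0, 2, 0⟩, ⟨0, 0, 2⟩⟩,
    ⟨⟨2, -2, 0⟩, ⟨1, -1, 0⟩, ⟨0, 0, 0⟩⟩,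
    ⟨⟨0, -1, 0⟩, ⟨0, -2, 0⟩, ⟨0, 0, 2⟩⟩,
    ⟨⟨-1, 1, 0⟩, ⟨1, -1, 0⟩, ⟨0, 0, 0⟩⟩,
    ⟨⟨0, 2, 0⟩, ⟨0, 1, 0⟩, ⟨0, 0, -2⟩⟩,
    ⟨⟨-2, 2, 0⟩, ⟨-1, 1, 0⟩, ⟨0, 0, 0⟩⟩,
    ⟨⟨0, 1, 0⟩, ⟨0, -1, 0⟩, ⟨0, 0, -2⟩⟩,
    ⟨⟨1, -1, 0⟩, ⟨2, -2, 0⟩, ⟨0, 0, 0⟩⟩,
    ⟨⟨0, -2, 0⟩, ⟨0, -1, 0⟩, ⟨0, 0, -2⟩⟩,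
    ⟨⟨-1, 1, 0⟩, ⟨-2, 2, 0⟩, ⟨0, 0, 0⟩⟩,
    ⟨⟨0, -1, 0⟩, ⟨0, 1, 0⟩, ⟨0, 0, -2⟩⟩,
    ⟨⟨0, -1, 0⟩, ⟨0, 1, 0⟩, ⟨0, 0, 2⟩⟩,
    ⟨⟨0, -2, 0⟩, ⟨0, -1, 0⟩, ⟨0, 0, 2⟩⟩,
    ⟨⟨0, 1, 0⟩, ⟨0, -1, 0⟩, ⟨0, 0, 2⟩⟩,
    ⟨⟨0, 2, 0⟩, ⟨0, 1, 0⟩, ⟨0, 0, 2⟩⟩,
    ⟨⟨0, -1, 0⟩, ⟨0, -2, 0⟩, ⟨0, 0, -2⟩⟩,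
    ⟨⟨0, 1, 0⟩, ⟨0, 2, 0⟩, ⟨0, 0, -2⟩⟩],
   [[(1, 0), (2, 0), (12, 0), (12, 1)],
    [(0, 0), (3, 0), (13, 0), (13, 2)],
    [(4, 0), (0, 0), (14, 0), (14, 3)],
    [(5, 0), (1, 0), (15, 0), (15, 4)],
    [(2, 0), (6, 0), (16, 0), (16, 5)],
    [(3, 0), (7, 0), (17, 0), (17, 6)],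
    [(8, 0), (4, 0), (18, 0), (18, 7)],
    [(9, 0), (5, 0), (19, 0), (19, 8)],
    [(6, 0), (10, 0), (20, 0), (20, 9)],
    [(7, 0), (11, 0), (21, 0), (21, 10)],
    [(11, 0), (8, 0), (22, 0), (22, 11)],
    [(10, 0), (9, 0), (23, 0), (23, 12)],
    [(21, 13), (22, 14), (0, 6), (0, 0)],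
    [(20, 15), (23, 16), (1, 5), (1, 0)],
    [(23, 17), (19, 18), (2, 9), (2, 0)],
    [(22, 19), (18, 20), (3, 10), (3, 0)],
    [(17, 21), (21, 22), (4, 2), (4, 0)],
    [(16, 23), (20, 24), (5, 1), (5, 0)],
    [(19, 23), (15, 25), (6, 12), (6, 0)],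
    [(18, 21), (14, 26), (7, 11), (7, 0)],
    [(13, 19), (17, 27), (8, 3), (8, 0)],
    [(12, 17), (16, 28), (9, 4), (9, 0)],
    [(15, 15), (12, 29), (10, 8), (10, 0)],
    [(14, 13), (13, 30), (11, 7), (11, 0)]]⟩

def hexLat47 : List LatE :=
  [⟨⟨⟨1, 0, 0⟩, ⟨0, 1, 0⟩, ⟨0, 0, 1⟩⟩, 1, ⟨⟨0, 0, 0⟩, ⟨0, 0, 0⟩, ⟨0, 0, 0⟩⟩⟩]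

def hexRow48 : Row :=
  ⟨[⟨⟨1, -1, 0⟩, ⟨0, -1, 0⟩, ⟨0, 0, 1⟩⟩, ⟨⟨0, 1, 0⟩, ⟨1, 0, 0⟩, ⟨0, 0, -1⟩⟩], ⟨⟨1, 0, 0⟩, ⟨0, 1, 0⟩, ⟨0, 0, 1⟩⟩, ⟨⟨1, 0, 0⟩, ⟨0, 1, 0⟩, ⟨0, 0, 1⟩⟩, 12,
   [⟨⟨⟨1, 0, 0⟩, ⟨0, 1, 0⟩, ⟨0, 0, 1⟩⟩, ⟨⟨0, 0, 0⟩, ⟨0, 0, 0⟩, ⟨0, 0, 0⟩⟩⟩,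
    ⟨⟨⟨1, -1, 0⟩, ⟨0, -1, 0⟩, ⟨0, 0, 1⟩⟩, ⟨⟨0, 0, 0⟩, ⟨0, 0, 0⟩, ⟨0, 0, 0⟩⟩⟩,
    ⟨⟨⟨0, 1, 0⟩, ⟨1, 0, 0⟩, ⟨0, 0, -1⟩⟩, ⟨⟨0, 0, 0⟩, ⟨0, 0, 0⟩, ⟨0, 0, 0⟩⟩⟩,
    ⟨⟨⟨-1, 1, 0⟩, ⟨-1, 0, 0⟩, ⟨0, 0, -1⟩⟩, ⟨⟨0, 0, 0⟩, ⟨0, 0, 0⟩, ⟨0, 0, 0⟩⟩⟩,
    ⟨⟨⟨0, -1, 0⟩, ⟨1, -1, 0⟩, ⟨0, 0, -1⟩⟩, ⟨⟨0, 0, 0⟩, ⟨0, 0, 0⟩, ⟨0, 0, 0⟩⟩⟩,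
    ⟨⟨⟨-1, 0, 0⟩, ⟨-1, 1, 0⟩, ⟨0, 0, -1⟩⟩, ⟨⟨0, 0, 0⟩, ⟨0, 0, 0⟩, ⟨0, 0, 0⟩⟩⟩,
    ⟨⟨⟨-1, 0, 0⟩, ⟨-1, 1, 0⟩, ⟨0, 0, 1⟩⟩, ⟨⟨0, 0, 0⟩, ⟨0, 0, 0⟩, ⟨0, 0, 0⟩⟩⟩,
    ⟨⟨⟨0, -1, 0⟩, ⟨1, -1, 0⟩, ⟨0, 0, 1⟩⟩, ⟨⟨0, 0, 0⟩, ⟨0, 0, 0⟩, ⟨0, 0, 0⟩⟩⟩,
    ⟨⟨⟨-1, 1, 0⟩, ⟨-1, 0, 0⟩, ⟨0, 0, 1⟩⟩, ⟨⟨0, 0, 0⟩, ⟨0, 0, 0⟩, ⟨0, 0, 0⟩⟩⟩,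
    ⟨⟨⟨0, 1, 0⟩, ⟨1, 0, 0⟩, ⟨0, 0, 1⟩⟩, ⟨⟨0, 0, 0⟩, ⟨0, 0, 0⟩, ⟨0, 0, 0⟩⟩⟩,
    ⟨⟨⟨1, -1, 0⟩, ⟨0, -1, 0⟩, ⟨0, 0, -1⟩⟩, ⟨⟨0, 0, 0⟩, ⟨0, 0, 0⟩, ⟨0, 0, 0⟩⟩⟩,
    ⟨⟨⟨1, 0, 0⟩, ⟨0, 1, 0⟩, ⟨0, 0, -1⟩⟩, ⟨⟨0, 0, 0⟩, ⟨0, 0, 0⟩, ⟨0, 0, 0⟩⟩⟩],
   [(0, 0), (0, 1), (1, 1), (2, 0), (3, 0), (4, 1), (5, 1), (6, 0), (7, 0), (8, 1), (9, 1)],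
   [⟨⟨0, 0, 0⟩, ⟨0, 0, 0⟩, ⟨0, 0, 0⟩⟩,
    ⟨⟨1, 0, 0⟩, ⟨0, 1, 0⟩, ⟨0, 0, 1⟩⟩,
    ⟨⟨-1, 0, 0⟩, ⟨0, -1, 0⟩, ⟨0, 0, -1⟩⟩,
    ⟨⟨1, -1, 0⟩, ⟨0, -1, 0⟩, ⟨0, 0, 1⟩⟩,
    ⟨⟨-1, 1, 0⟩, ⟨0, 1, 0⟩, ⟨0, 0, -1⟩⟩,
    ⟨⟨0, 1, 0⟩, ⟨1, 0, 0⟩, ⟨0, 0, -1⟩⟩,
    ⟨⟨0, -1, 0⟩, ⟨-1, 0, 0⟩, ⟨0, 0, 1⟩⟩,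
    ⟨⟨-1, 1, 0⟩, ⟨-1, 0, 0⟩, ⟨0, 0, -1⟩⟩,
    ⟨⟨1, -1, 0⟩, ⟨1, 0, 0⟩, ⟨0, 0, 1⟩⟩,
    ⟨⟨0, -1, 0⟩, ⟨1, -1, 0⟩, ⟨0, 0, -1⟩⟩,
    ⟨⟨0, 1, 0⟩, ⟨-1, 1, 0⟩, ⟨0, 0, 1⟩⟩,
    ⟨⟨-1, 0, 0⟩, ⟨-1, 1, 0⟩, ⟨0, 0, -1⟩⟩,
    ⟨⟨1, 0, 0⟩, ⟨1, -1, 0⟩, ⟨0, 0, 1⟩⟩,
    ⟨⟨-1, 0, 0⟩, ⟨-1, 1, 0⟩, ⟨0, 0, 1⟩⟩,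
    ⟨⟨1, 0, 0⟩, ⟨1, -1, 0⟩, ⟨0, 0, -1⟩⟩,
    ⟨⟨0, -1, 0⟩, ⟨1, -1, 0⟩, ⟨0, 0, 1⟩⟩,
    ⟨⟨0, 1, 0⟩, ⟨-1, 1, 0⟩, ⟨0, 0, -1⟩⟩,
    ⟨⟨-1, 1, 0⟩, ⟨-1, 0, 0⟩, ⟨0, 0, 1⟩⟩,
    ⟨⟨1, -1, 0⟩, ⟨1, 0, 0⟩, ⟨0, 0, -1⟩⟩,
    ⟨⟨0, 1, 0⟩, ⟨1, 0, 0⟩, ⟨0, 0, 1⟩⟩,
    ⟨⟨0, -1, 0⟩, ⟨-1, 0, 0⟩, ⟨0, 0, -1⟩⟩,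
    ⟨⟨1, -1, 0⟩, ⟨0, -1, 0⟩, ⟨0, 0, -1⟩⟩,
    ⟨⟨-1, 1, 0⟩, ⟨0, 1, 0⟩, ⟨0, 0, 1⟩⟩,
    ⟨⟨1, 0, 0⟩, ⟨0, 1, 0⟩, ⟨0, 0, -1⟩⟩,
    ⟨⟨-1, 0, 0⟩, ⟨0, -1, 0⟩, ⟨0, 0, 1⟩⟩],
   [[(1, 0), (2, 0), (0, 1), (0, 2)],
    [(0, 0), (3, 0), (1, 3), (1, 4)],
    [(4, 0), (0, 0), (2, 5), (2, 6)],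
    [(5, 0), (1, 0), (3, 7), (3, 8)],
    [(2, 0), (6, 0), (4, 9), (4, 10)],
    [(3, 0), (7, 0), (5, 11), (5, 12)],
    [(8, 0), (4, 0), (6, 13), (6, 14)],
    [(9, 0), (5, 0), (7, 15), (7, 16)],
    [(6, 0), (10, 0), (8, 17), (8, 18)],
    [(7, 0), (11, 0), (9, 19), (9, 20)],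
    [(11, 0), (8, 0), (10, 21), (10, 22)],
    [(10, 0), (9, 0), (11, 23), (11, 24)]]⟩

def hexLat48 : List LatE :=
  [⟨⟨⟨1, 0, 0⟩, ⟨0, 1, 0⟩, ⟨0, 0, 1⟩⟩, 1, ⟨⟨0, 0, 0⟩, ⟨0, 0, 0⟩, ⟨0, 0, 0⟩⟩⟩]

def hexRow49 : Row :=
  ⟨[⟨⟨1, 0, 0⟩, ⟨1, -1, 0⟩, ⟨0, 0, -1⟩⟩, ⟨⟨1, -1, 0⟩, ⟨0, -1, 0⟩, ⟨0, 0, 1⟩⟩], ⟨⟨1, 0, 0⟩, ⟨1, -1, 0⟩, ⟨0, 0, 1⟩⟩, ⟨⟨1, 0, 0⟩, ⟨1, -1, 0⟩, ⟨0, 0, 1⟩⟩, 12,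
   [⟨⟨⟨1, 0, 0⟩, ⟨0, 1, 0⟩, ⟨0, 0, 1⟩⟩, ⟨⟨0, 0, 0⟩, ⟨0, 0, 0⟩, ⟨0, 0, 0⟩⟩⟩,
    ⟨⟨⟨1, 0, 0⟩, ⟨1, -1, 0⟩, ⟨0, 0, -1⟩⟩, ⟨⟨0, 0, 0⟩, ⟨0, 0, 0⟩, ⟨0, 0, 0⟩⟩⟩,
    ⟨⟨⟨1, -1, 0⟩, ⟨0, -1, 0⟩, ⟨0, 0, 1⟩⟩, ⟨⟨0, 0, 0⟩, ⟨0, 0, 0⟩, ⟨0, 0, 0⟩⟩⟩,
    ⟨⟨⟨1, -1, 0⟩, ⟨1, 0, 0⟩, ⟨0, 0, -1⟩⟩, ⟨⟨0, 0, 0⟩, ⟨0, 0, 0⟩, ⟨0, 0, 0⟩⟩⟩,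
    ⟨⟨⟨0, 1, 0⟩, ⟨-1, 1, 0⟩, ⟨0, 0, -1⟩⟩, ⟨⟨0, 0, 0⟩, ⟨0, 0, 0⟩, ⟨0, 0, 0⟩⟩⟩,
    ⟨⟨⟨0, 1, 0⟩, ⟨1, 0, 0⟩, ⟨0, 0, 1⟩⟩, ⟨⟨0, 0, 0⟩, ⟨0, 0, 0⟩, ⟨0, 0, 0⟩⟩⟩,
    ⟨⟨⟨0, -1, 0⟩, ⟨-1, 0, 0⟩, ⟨0, 0, -1⟩⟩, ⟨⟨0, 0, 0⟩, ⟨0, 0, 0⟩, ⟨0, 0, 0⟩⟩⟩,
    ⟨⟨⟨0, -1, 0⟩, ⟨1, -1, 0⟩, ⟨0, 0, 1⟩⟩, ⟨⟨0, 0, 0⟩, ⟨0, 0, 0⟩, ⟨0, 0, 0⟩⟩⟩,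
    ⟨⟨⟨-1, 1, 0⟩, ⟨-1, 0, 0⟩, ⟨0, 0, 1⟩⟩, ⟨⟨0, 0, 0⟩, ⟨0, 0, 0⟩, ⟨0, 0, 0⟩⟩⟩,
    ⟨⟨⟨-1, 1, 0⟩, ⟨0, 1, 0⟩, ⟨0, 0, -1⟩⟩, ⟨⟨0, 0, 0⟩, ⟨0, 0, 0⟩, ⟨0, 0, 0⟩⟩⟩,
    ⟨⟨⟨-1, 0, 0⟩, ⟨-1, 1, 0⟩, ⟨0, 0, 1⟩⟩, ⟨⟨0, 0, 0⟩, ⟨0, 0, 0⟩, ⟨0, 0, 0⟩⟩⟩,
    ⟨⟨⟨-1, 0, 0⟩, ⟨0, -1, 0⟩, ⟨0, 0, -1⟩⟩, ⟨⟨0, 0, 0⟩, ⟨0, 0, 0⟩, ⟨0, 0, 0⟩⟩⟩,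
    ⟨⟨⟨1, 0, 0⟩, ⟨1, -1, 0⟩, ⟨0, 0, 1⟩⟩, ⟨⟨1, 0, 0⟩, ⟨0, 1, 0⟩, ⟨0, 0, 1⟩⟩⟩,
    ⟨⟨⟨1, 0, 0⟩, ⟨0, 1, 0⟩, ⟨0, 0, -1⟩⟩, ⟨⟨1, 0, 0⟩, ⟨1, -1, 0⟩, ⟨0, 0, -1⟩⟩⟩,
    ⟨⟨⟨0, 1, 0⟩, ⟨-1, 1, 0⟩, ⟨0, 0, 1⟩⟩, ⟨⟨1, -1, 0⟩, ⟨0, -1, 0⟩, ⟨0, 0, 1⟩⟩⟩,
    ⟨⟨⟨0, 1, 0⟩, ⟨1, 0, 0⟩, ⟨0, 0, -1⟩⟩, ⟨⟨1, -1, 0⟩, ⟨1, 0, 0⟩, ⟨0, 0, -1⟩⟩⟩,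
    ⟨⟨⟨1, -1, 0⟩, ⟨0, -1, 0⟩, ⟨0, 0, -1⟩⟩, ⟨⟨0, 1, 0⟩, ⟨-1, 1, 0⟩, ⟨0, 0, -1⟩⟩⟩,
    ⟨⟨⟨1, -1, 0⟩, ⟨1, 0, 0⟩, ⟨0, 0, 1⟩⟩, ⟨⟨0, 1, 0⟩, ⟨1, 0, 0⟩, ⟨0, 0, 1⟩⟩⟩,
    ⟨⟨⟨-1, 1, 0⟩, ⟨-1, 0, 0⟩, ⟨0, 0, -1⟩⟩, ⟨⟨0, -1, 0⟩, ⟨-1, 0, 0⟩, ⟨0, 0, -1⟩⟩⟩,
    ⟨⟨⟨-1, 1, 0⟩, ⟨0, 1, 0⟩, ⟨0, 0, 1⟩⟩, ⟨⟨0, -1, 0⟩, ⟨1, -1, 0⟩, ⟨0, 0, 1⟩⟩⟩,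
    ⟨⟨⟨0, -1, 0⟩, ⟨-1, 0, 0⟩, ⟨0, 0, 1⟩⟩, ⟨⟨-1, 1, 0⟩, ⟨-1, 0, 0⟩, ⟨0, 0, 1⟩⟩⟩,
    ⟨⟨⟨0, -1, 0⟩, ⟨1, -1, 0⟩, ⟨0, 0, -1⟩⟩, ⟨⟨-1, 1, 0⟩, ⟨0, 1, 0⟩, ⟨0, 0, -1⟩⟩⟩,
    ⟨⟨⟨-1, 0, 0⟩, ⟨0, -1, 0⟩, ⟨0, 0, 1⟩⟩, ⟨⟨-1, 0, 0⟩, ⟨-1, 1, 0⟩, ⟨0, 0, 1⟩⟩⟩,
    ⟨⟨⟨-1, 0, 0⟩, ⟨-1, 1, 0⟩, ⟨0, 0, -1⟩⟩, ⟨⟨-1, 0, 0⟩, ⟨0, -1, 0⟩, ⟨0, 0, -1⟩⟩⟩],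
   [(0, 0), (0, 1), (1, 1), (2, 0), (3, 0), (4, 1), (5, 1), (6, 0), (7, 0), (8, 1), (9, 1), (0, 2), (1, 2), (2, 2), (3, 2), (4, 2), (5, 2), (6, 2), (7, 2), (8, 2), (9, 2), (10, 2), (11, 2)],
   [⟨⟨0, 0, 0⟩, ⟨0, 0, 0⟩, ⟨0, 0, 0⟩⟩,
    ⟨⟨-2, 0, 0⟩, ⟨-1, 0, 0⟩, ⟨0, 0, -2⟩⟩,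
    ⟨⟨-2, 0, 0⟩, ⟨-1, 0, 0⟩, ⟨0, 0, 2⟩⟩,
    ⟨⟨-1, 0, 0⟩, ⟨1, 0, 0⟩, ⟨0, 0, -2⟩⟩,
    ⟨⟨-1, 0, 0⟩, ⟨-2, 0, 0⟩, ⟨0, 0, 2⟩⟩,
    ⟨⟨-1, 0, 0⟩, ⟨1, 0, 0⟩, ⟨0, 0, 2⟩⟩,
    ⟨⟨-1, 0, 0⟩, ⟨-2, 0, 0⟩, ⟨0, 0, -2⟩⟩,
    ⟨⟨1, 0, 0⟩, ⟨2, 0, 0⟩, ⟨0, 0, 2⟩⟩,
    ⟨⟨1, 0, 0⟩, ⟨-1, 0, 0⟩, ⟨0, 0, -2⟩⟩,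
    ⟨⟨1, 0, 0⟩, ⟨2, 0, 0⟩, ⟨0, 0, -2⟩⟩,
    ⟨⟨1, 0, 0⟩, ⟨-1, 0, 0⟩, ⟨0, 0, 2⟩⟩,
    ⟨⟨2, 0, 0⟩, ⟨1, 0, 0⟩, ⟨0, 0, -2⟩⟩,
    ⟨⟨2, 0, 0⟩, ⟨1, 0, 0⟩, ⟨0, 0, 2⟩⟩,
    ⟨⟨0, 0, 0⟩, ⟨-1, 2, 0⟩, ⟨0, 0, 2⟩⟩,
    ⟨⟨1, -1, 0⟩, ⟨-1, 1, 0⟩, ⟨0, 0, 0⟩⟩,
    ⟨⟨0, 0, 0⟩, ⟨1, -2, 0⟩, ⟨0, 0, -2⟩⟩,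
    ⟨⟨1, -1, 0⟩, ⟨2, -2, 0⟩, ⟨0, 0, 0⟩⟩,
    ⟨⟨1, -2, 0⟩, ⟨1, -2, 0⟩, ⟨0, 0, 2⟩⟩,
    ⟨⟨2, -2, 0⟩, ⟨1, -1, 0⟩, ⟨0, 0, 0⟩⟩,
    ⟨⟨1, -2, 0⟩, ⟨0, 0, 0⟩, ⟨0, 0, -2⟩⟩,
    ⟨⟨-1, 2, 0⟩, ⟨-1, 2, 0⟩, ⟨0, 0, -2⟩⟩,
    ⟨⟨-1, 1, 0⟩, ⟨-2, 2, 0⟩, ⟨0, 0, 0⟩⟩,
    ⟨⟨-1, 2, 0⟩, ⟨0, 0, 0⟩, ⟨0, 0, 2⟩⟩,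
    ⟨⟨-1, 1, 0⟩, ⟨1, -1, 0⟩, ⟨0, 0, 0⟩⟩,
    ⟨⟨-2, 2, 0⟩, ⟨-1, 1, 0⟩, ⟨0, 0, 0⟩⟩],
   [[(1, 0), (2, 0), (12, 0), (12, 1)],
    [(0, 0), (3, 0), (13, 0), (13, 2)],
    [(4, 0), (0, 0), (14, 0), (14, 3)],
    [(5, 0), (1, 0), (15, 0), (15, 4)],
    [(2, 0), (6, 0), (16, 0), (16, 5)],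
    [(3, 0), (7, 0), (17, 0), (17, 6)],
    [(8, 0), (4, 0), (18, 0), (18, 7)],
    [(9, 0), (5, 0), (19, 0), (19, 8)],
    [(6, 0), (10, 0), (20, 0), (20, 9)],
    [(7, 0), (11, 0), (21, 0), (21, 10)],
    [(11, 0), (8, 0), (22, 0), (22, 11)],
    [(10, 0), (9, 0), (23, 0), (23, 12)],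
    [(13, 13), (17, 14), (0, 12), (0, 0)],
    [(12, 15), (16, 16), (1, 11), (1, 0)],
    [(16, 17), (20, 18), (2, 10), (2, 0)],
    [(17, 19), (21, 18), (3, 9), (3, 0)],
    [(14, 20), (13, 21), (4, 8), (4, 0)],
    [(15, 22), (12, 23), (5, 7), (5, 0)],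
    [(20, 19), (23, 14), (6, 6), (6, 0)],
    [(21, 17), (22, 16), (7, 5), (7, 0)],
    [(18, 22), (14, 24), (8, 4), (8, 0)],
    [(19, 20), (15, 24), (9, 3), (9, 0)],
    [(23, 13), (19, 21), (10, 2), (10, 0)],
    [(22, 15), (18, 23), (11, 1), (11, 0)]]⟩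

def hexLat49 : List LatE :=
  [⟨⟨⟨1, 0, 0⟩, ⟨0, 1, 0⟩, ⟨0, 0, 1⟩⟩, 1, ⟨⟨0, 0, 0⟩, ⟨0, 0, 0⟩, ⟨0, 0, 0⟩⟩⟩]

def hexRow50 : Row :=
  ⟨[⟨⟨1, 0, 0⟩, ⟨1, -1, 0⟩, ⟨0, 0, -1⟩⟩, ⟨⟨1, -1, 0⟩, ⟨0, -1, 0⟩, ⟨0, 0, 1⟩⟩], ⟨⟨1, 0, 0⟩, ⟨1, -1, 0⟩, ⟨0, 0, -1⟩⟩, ⟨⟨1, 0, 0⟩, ⟨1, -1, 0⟩, ⟨0, 0, -1⟩⟩, 12,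
   [⟨⟨⟨1, 0, 0⟩, ⟨0, 1, 0⟩, ⟨0, 0, 1⟩⟩, ⟨⟨0, 0, 0⟩, ⟨0, 0, 0⟩, ⟨0, 0, 0⟩⟩⟩,
    ⟨⟨⟨1, 0, 0⟩, ⟨1, -1, 0⟩, ⟨0, 0, -1⟩⟩, ⟨⟨0, 0, 0⟩, ⟨0, 0, 0⟩, ⟨0, 0, 0⟩⟩⟩,
    ⟨⟨⟨1, -1, 0⟩, ⟨0, -1, 0⟩, ⟨0, 0, 1⟩⟩, ⟨⟨0, 0, 0⟩, ⟨0, 0, 0⟩, ⟨0, 0, 0⟩⟩⟩,
    ⟨⟨⟨1, -1, 0⟩, ⟨1, 0, 0⟩, ⟨0, 0, -1⟩⟩, ⟨⟨0, 0, 0⟩, ⟨0, 0, 0⟩, ⟨0, 0, 0⟩⟩⟩,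
    ⟨⟨⟨0, 1, 0⟩, ⟨-1, 1, 0⟩, ⟨0, 0, -1⟩⟩, ⟨⟨0, 0, 0⟩, ⟨0, 0, 0⟩, ⟨0, 0, 0⟩⟩⟩,
    ⟨⟨⟨0, 1, 0⟩, ⟨1, 0, 0⟩, ⟨0, 0, 1⟩⟩, ⟨⟨0, 0, 0⟩, ⟨0, 0, 0⟩, ⟨0, 0, 0⟩⟩⟩,
    ⟨⟨⟨0, -1, 0⟩, ⟨-1, 0, 0⟩, ⟨0, 0, -1⟩⟩, ⟨⟨0, 0, 0⟩, ⟨0, 0, 0⟩, ⟨0, 0, 0⟩⟩⟩,
    ⟨⟨⟨0, -1, 0⟩, ⟨1, -1, 0⟩, ⟨0, 0, 1⟩⟩, ⟨⟨0, 0, 0⟩, ⟨0, 0, 0⟩, ⟨0, 0, 0⟩⟩⟩,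
    ⟨⟨⟨-1, 1, 0⟩, ⟨-1, 0, 0⟩, ⟨0, 0, 1⟩⟩, ⟨⟨0, 0, 0⟩, ⟨0, 0, 0⟩, ⟨0, 0, 0⟩⟩⟩,
    ⟨⟨⟨-1, 1, 0⟩, ⟨0, 1, 0⟩, ⟨0, 0, -1⟩⟩, ⟨⟨0, 0, 0⟩, ⟨0, 0, 0⟩, ⟨0, 0, 0⟩⟩⟩,
    ⟨⟨⟨-1, 0, 0⟩, ⟨-1, 1, 0⟩, ⟨0, 0, 1⟩⟩, ⟨⟨0, 0, 0⟩, ⟨0, 0, 0⟩, ⟨0, 0, 0⟩⟩⟩,
    ⟨⟨⟨-1, 0, 0⟩, ⟨0, -1, 0⟩, ⟨0, 0, -1⟩⟩, ⟨⟨0, 0, 0⟩, ⟨0, 0, 0⟩, ⟨0, 0, 0⟩⟩⟩],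
   [(0, 0), (0, 1), (1, 1), (2, 0), (3, 0), (4, 1), (5, 1), (6, 0), (7, 0), (8, 1), (9, 1)],
   [⟨⟨0, 0, 0⟩, ⟨0, 0, 0⟩, ⟨0, 0, 0⟩⟩,
    ⟨⟨1, 0, 0⟩, ⟨0, 1, 0⟩, ⟨0, 0, 1⟩⟩,
    ⟨⟨-1, 0, 0⟩, ⟨-1, 1, 0⟩, ⟨0, 0, 1⟩⟩,
    ⟨⟨1, 0, 0⟩, ⟨1, -1, 0⟩, ⟨0, 0, -1⟩⟩,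
    ⟨⟨-1, 0, 0⟩, ⟨0, -1, 0⟩, ⟨0, 0, -1⟩⟩,
    ⟨⟨1, -1, 0⟩, ⟨0, -1, 0⟩, ⟨0, 0, 1⟩⟩,
    ⟨⟨0, -1, 0⟩, ⟨1, -1, 0⟩, ⟨0, 0, 1⟩⟩,
    ⟨⟨1, -1, 0⟩, ⟨1, 0, 0⟩, ⟨0, 0, -1⟩⟩,
    ⟨⟨0, -1, 0⟩, ⟨-1, 0, 0⟩, ⟨0, 0, -1⟩⟩,
    ⟨⟨0, 1, 0⟩, ⟨-1, 1, 0⟩, ⟨0, 0, -1⟩⟩,
    ⟨⟨-1, 1, 0⟩, ⟨0, 1, 0⟩, ⟨0, 0, -1⟩⟩,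
    ⟨⟨0, 1, 0⟩, ⟨1, 0, 0⟩, ⟨0, 0, 1⟩⟩,
    ⟨⟨-1, 1, 0⟩, ⟨-1, 0, 0⟩, ⟨0, 0, 1⟩⟩],
   [[(1, 0), (2, 0), (1, 1), (1, 2)],
    [(0, 0), (3, 0), (0, 3), (0, 4)],
    [(4, 0), (0, 0), (4, 5), (4, 6)],
    [(5, 0), (1, 0), (5, 7), (5, 8)],
    [(2, 0), (6, 0), (2, 9), (2, 10)],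
    [(3, 0), (7, 0), (3, 11), (3, 12)],
    [(8, 0), (4, 0), (8, 8), (8, 7)],
    [(9, 0), (5, 0), (9, 6), (9, 5)],
    [(6, 0), (10, 0), (6, 12), (6, 11)],
    [(7, 0), (11, 0), (7, 10), (7, 9)],
    [(11, 0), (8, 0), (11, 2), (11, 1)],
    [(10, 0), (9, 0), (10, 4), (10, 3)]]⟩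

def hexLat50 : List LatE :=
  [⟨⟨⟨1, 0, 0⟩, ⟨0, 1, 0⟩, ⟨0, 0, 1⟩⟩, 1, ⟨⟨0, 0, 0⟩, ⟨0, 0, 0⟩, ⟨0, 0, 0⟩⟩⟩]

def hexRow51 : Row :=
  ⟨[⟨⟨1, 0, 0⟩, ⟨1, -1, 0⟩, ⟨0, 0, -1⟩⟩, ⟨⟨1, -1, 0⟩, ⟨0, -1, 0⟩, ⟨0, 0, -1⟩⟩], ⟨⟨1, 0, 0⟩, ⟨1, -1, 0⟩, ⟨0, 0, 1⟩⟩, ⟨⟨1, 0, 0⟩, ⟨1, -1, 0⟩, ⟨0, 0, 1⟩⟩, 12,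
   [⟨⟨⟨1, 0, 0⟩, ⟨0, 1, 0⟩, ⟨0, 0, 1⟩⟩, ⟨⟨0, 0, 0⟩, ⟨0, 0, 0⟩, ⟨0, 0, 0⟩⟩⟩,
    ⟨⟨⟨1, 0, 0⟩, ⟨1, -1, 0⟩, ⟨0, 0, -1⟩⟩, ⟨⟨0, 0, 0⟩, ⟨0, 0, 0⟩, ⟨0, 0, 0⟩⟩⟩,
    ⟨⟨⟨1, -1, 0⟩, ⟨0, -1, 0⟩, ⟨0, 0, -1⟩⟩, ⟨⟨0, 0, 0⟩, ⟨0, 0, 0⟩, ⟨0, 0, 0⟩⟩⟩,
    ⟨⟨⟨1, -1, 0⟩, ⟨1, 0, 0⟩, ⟨0, 0, 1⟩⟩, ⟨⟨0, 0, 0⟩, ⟨0, 0, 0⟩, ⟨0, 0, 0⟩⟩⟩,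
    ⟨⟨⟨0, 1, 0⟩, ⟨-1, 1, 0⟩, ⟨0, 0, 1⟩⟩, ⟨⟨0, 0, 0⟩, ⟨0, 0, 0⟩, ⟨0, 0, 0⟩⟩⟩,
    ⟨⟨⟨0, 1, 0⟩, ⟨1, 0, 0⟩, ⟨0, 0, -1⟩⟩, ⟨⟨0, 0, 0⟩, ⟨0, 0, 0⟩, ⟨0, 0, 0⟩⟩⟩,
    ⟨⟨⟨0, -1, 0⟩, ⟨-1, 0, 0⟩, ⟨0, 0, -1⟩⟩, ⟨⟨0, 0, 0⟩, ⟨0, 0, 0⟩, ⟨0, 0, 0⟩⟩⟩,
    ⟨⟨⟨0, -1, 0⟩, ⟨1, -1, 0⟩, ⟨0, 0, 1⟩⟩, ⟨⟨0, 0, 0⟩, ⟨0, 0, 0⟩, ⟨0, 0, 0⟩⟩⟩,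
    ⟨⟨⟨-1, 1, 0⟩, ⟨-1, 0, 0⟩, ⟨0, 0, 1⟩⟩, ⟨⟨0, 0, 0⟩, ⟨0, 0, 0⟩, ⟨0, 0, 0⟩⟩⟩,
    ⟨⟨⟨-1, 1, 0⟩, ⟨0, 1, 0⟩, ⟨0, 0, -1⟩⟩, ⟨⟨0, 0, 0⟩, ⟨0, 0, 0⟩, ⟨0, 0, 0⟩⟩⟩,
    ⟨⟨⟨-1, 0, 0⟩, ⟨-1, 1, 0⟩, ⟨0, 0, -1⟩⟩, ⟨⟨0, 0, 0⟩, ⟨0, 0, 0⟩, ⟨0, 0, 0⟩⟩⟩,
    ⟨⟨⟨-1, 0, 0⟩, ⟨0, -1, 0⟩, ⟨0, 0, 1⟩⟩, ⟨⟨0, 0, 0⟩, ⟨0, 0, 0⟩, ⟨0, 0, 0⟩⟩⟩,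
    ⟨⟨⟨1, 0, 0⟩, ⟨1, -1, 0⟩, ⟨0, 0, 1⟩⟩, ⟨⟨1, 0, 0⟩, ⟨0, 1, 0⟩, ⟨0, 0, 1⟩⟩⟩,
    ⟨⟨⟨1, 0, 0⟩, ⟨0, 1, 0⟩, ⟨0, 0, -1⟩⟩, ⟨⟨1, 0, 0⟩, ⟨1, -1, 0⟩, ⟨0, 0, -1⟩⟩⟩,
    ⟨⟨⟨0, 1, 0⟩, ⟨-1, 1, 0⟩, ⟨0, 0, -1⟩⟩, ⟨⟨1, -1, 0⟩, ⟨0, -1, 0⟩, ⟨0, 0, -1⟩⟩⟩,
    ⟨⟨⟨0, 1, 0⟩, ⟨1, 0, 0⟩, ⟨0, 0, 1⟩⟩, ⟨⟨1, -1, 0⟩, ⟨1, 0, 0⟩, ⟨0, 0, 1⟩⟩⟩,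
    ⟨⟨⟨1, -1, 0⟩, ⟨0, -1, 0⟩, ⟨0, 0, 1⟩⟩, ⟨⟨0, 1, 0⟩, ⟨-1, 1, 0⟩, ⟨0, 0, 1⟩⟩⟩,
    ⟨⟨⟨1, -1, 0⟩, ⟨1, 0, 0⟩, ⟨0, 0, -1⟩⟩, ⟨⟨0, 1, 0⟩, ⟨1, 0, 0⟩, ⟨0, 0, -1⟩⟩⟩,
    ⟨⟨⟨-1, 1, 0⟩, ⟨-1, 0, 0⟩, ⟨0, 0, -1⟩⟩, ⟨⟨0, -1, 0⟩, ⟨-1, 0, 0⟩, ⟨0, 0, -1⟩⟩⟩,
    ⟨⟨⟨-1, 1, 0⟩, ⟨0, 1, 0⟩, ⟨0, 0, 1⟩⟩, ⟨⟨0, -1, 0⟩, ⟨1, -1, 0⟩, ⟨0, 0, 1⟩⟩⟩,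
    ⟨⟨⟨0, -1, 0⟩, ⟨-1, 0, 0⟩, ⟨0, 0, 1⟩⟩, ⟨⟨-1, 1, 0⟩, ⟨-1, 0, 0⟩, ⟨0, 0, 1⟩⟩⟩,
    ⟨⟨⟨0, -1, 0⟩, ⟨1, -1, 0⟩, ⟨0, 0, -1⟩⟩, ⟨⟨-1, 1, 0⟩, ⟨0, 1, 0⟩, ⟨0, 0, -1⟩⟩⟩,
    ⟨⟨⟨-1, 0, 0⟩, ⟨0, -1, 0⟩, ⟨0, 0, -1⟩⟩, ⟨⟨-1, 0, 0⟩, ⟨-1, 1, 0⟩, ⟨0, 0, -1⟩⟩⟩,
    ⟨⟨⟨-1, 0, 0⟩, ⟨-1, 1, 0⟩, ⟨0, 0, 1⟩⟩, ⟨⟨-1, 0, 0⟩, ⟨0, -1, 0⟩, ⟨0, 0, 1⟩⟩⟩],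
   [(0, 0), (0, 1), (1, 1), (2, 0), (3, 0), (4, 1), (5, 1), (6, 0), (7, 0), (8, 1), (9, 1), (0, 2), (1, 2), (2, 2), (3, 2), (4, 2), (5, 2), (6, 2), (7, 2), (8, 2), (9, 2), (10, 2), (11, 2)],
   [⟨⟨0, 0, 0⟩, ⟨0, 0, 0⟩, ⟨0, 0, 0⟩⟩,
    ⟨⟨-2, 0, 0⟩, ⟨-1, 0, 0⟩, ⟨0, 0, -2⟩⟩,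
    ⟨⟨-2, 0, 0⟩, ⟨-1, 0, 0⟩, ⟨0, 0, 2⟩⟩,
    ⟨⟨-1, 0, 0⟩, ⟨1, 0, 0⟩, ⟨0, 0, 2⟩⟩,
    ⟨⟨-1, 0, 0⟩, ⟨-2, 0, 0⟩, ⟨0, 0, -2⟩⟩,
    ⟨⟨-1, 0, 0⟩, ⟨1, 0, 0⟩, ⟨0, 0, -2⟩⟩,
    ⟨⟨-1, 0, 0⟩, ⟨-2, 0, 0⟩, ⟨0, 0, 2⟩⟩,
    ⟨⟨1, 0, 0⟩, ⟨2, 0, 0⟩, ⟨0, 0, 2⟩⟩,
    ⟨⟨1, 0, 0⟩, ⟨-1, 0, 0⟩, ⟨0, 0, -2⟩⟩,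
    ⟨⟨1, 0, 0⟩, ⟨2, 0, 0⟩, ⟨0, 0, -2⟩⟩,
    ⟨⟨1, 0, 0⟩, ⟨-1, 0, 0⟩, ⟨0, 0, 2⟩⟩,
    ⟨⟨2, 0, 0⟩, ⟨1, 0, 0⟩, ⟨0, 0, 2⟩⟩,
    ⟨⟨2, 0, 0⟩, ⟨1, 0, 0⟩, ⟨0, 0, -2⟩⟩,
    ⟨⟨0, 0, 0⟩, ⟨-1, 2, 0⟩, ⟨0, 0, 2⟩⟩,
    ⟨⟨1, -1, 0⟩, ⟨-1, 1, 0⟩, ⟨0, 0, 2⟩⟩,
    ⟨⟨0, 0, 0⟩, ⟨1, -2, 0⟩, ⟨0, 0, -2⟩⟩,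
    ⟨⟨1, -1, 0⟩, ⟨2, -2, 0⟩, ⟨0, 0, -2⟩⟩,
    ⟨⟨1, -2, 0⟩, ⟨1, -2, 0⟩, ⟨0, 0, -2⟩⟩,
    ⟨⟨2, -2, 0⟩, ⟨1, -1, 0⟩, ⟨0, 0, -2⟩⟩,
    ⟨⟨1, -2, 0⟩, ⟨0, 0, 0⟩, ⟨0, 0, 2⟩⟩,
    ⟨⟨2, -2, 0⟩, ⟨1, -1, 0⟩, ⟨0, 0, 2⟩⟩,
    ⟨⟨-1, 2, 0⟩, ⟨-1, 2, 0⟩, ⟨0, 0, 2⟩⟩,
    ⟨⟨-1, 1, 0⟩, ⟨-2, 2, 0⟩, ⟨0, 0, 2⟩⟩,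
    ⟨⟨-1, 2, 0⟩, ⟨0, 0, 0⟩, ⟨0, 0, -2⟩⟩,
    ⟨⟨-1, 1, 0⟩, ⟨1, -1, 0⟩, ⟨0, 0, -2⟩⟩,
    ⟨⟨1, -2, 0⟩, ⟨0, 0, 0⟩, ⟨0, 0, -2⟩⟩,
    ⟨⟨1, -1, 0⟩, ⟨-1, 1, 0⟩, ⟨0, 0, -2⟩⟩,
    ⟨⟨1, -2, 0⟩, ⟨1, -2, 0⟩, ⟨0, 0, 2⟩⟩,
    ⟨⟨1, -1, 0⟩, ⟨2, -2, 0⟩, ⟨0, 0, 2⟩⟩,
    ⟨⟨-1, 2, 0⟩, ⟨0, 0, 0⟩, ⟨0, 0, 2⟩⟩,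
    ⟨⟨-2, 2, 0⟩, ⟨-1, 1, 0⟩, ⟨0, 0, 2⟩⟩,
    ⟨⟨-1, 2, 0⟩, ⟨-1, 2, 0⟩, ⟨0, 0, -2⟩⟩,
    ⟨⟨-2, 2, 0⟩, ⟨-1, 1, 0⟩, ⟨0, 0, -2⟩⟩,
    ⟨⟨0, 0, 0⟩, ⟨-1, 2, 0⟩, ⟨0, 0, -2⟩⟩,
    ⟨⟨-1, 1, 0⟩, ⟨-2, 2, 0⟩, ⟨0, 0, -2⟩⟩,
    ⟨⟨0, 0, 0⟩, ⟨1, -2, 0⟩, ⟨0, 0, 2⟩⟩,
    ⟨⟨-1, 1, 0⟩, ⟨1, -1, 0⟩, ⟨0, 0, 2⟩⟩],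
   [[(1, 0), (2, 0), (12, 0), (12, 1)],
    [(0, 0), (3, 0), (13, 0), (13, 2)],
    [(4, 0), (0, 0), (14, 0), (14, 3)],
    [(5, 0), (1, 0), (15, 0), (15, 4)],
    [(2, 0), (6, 0), (16, 0), (16, 5)],
    [(3, 0), (7, 0), (17, 0), (17, 6)],
    [(8, 0), (4, 0), (18, 0), (18, 7)],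
    [(9, 0), (5, 0), (19, 0), (19, 8)],
    [(6, 0), (10, 0), (20, 0), (20, 9)],
    [(7, 0), (11, 0), (21, 0), (21, 10)],
    [(11, 0), (8, 0), (22, 0), (22, 11)],
    [(10, 0), (9, 0), (23, 0), (23, 12)],
    [(13, 13), (17, 14), (0, 11), (0, 0)],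
    [(12, 15), (16, 16), (1, 12), (1, 0)],
    [(16, 17), (20, 18), (2, 8), (2, 0)],
    [(17, 19), (21, 20), (3, 7), (3, 0)],
    [(14, 21), (13, 22), (4, 10), (4, 0)],
    [(15, 23), (12, 24), (5, 9), (5, 0)],
    [(20, 25), (23, 26), (6, 4), (6, 0)],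
    [(21, 27), (22, 28), (7, 3), (7, 0)],
    [(18, 29), (14, 30), (8, 6), (8, 0)],
    [(19, 31), (15, 32), (9, 5), (9, 0)],
    [(23, 33), (19, 34), (10, 1), (10, 0)],
    [(22, 35), (18, 36), (11, 2), (11, 0)]]⟩

def hexLat51 : List LatE :=
  [⟨⟨⟨1, 0, 0⟩, ⟨0, 1, 0⟩, ⟨0, 0, 1⟩⟩, 1, ⟨⟨0, 0, 0⟩, ⟨0, 0, 0⟩, ⟨0, 0, 0⟩⟩⟩]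

def hexRow52 : Row :=
  ⟨[⟨⟨1, 0, 0⟩, ⟨1, -1, 0⟩, ⟨0, 0, -1⟩⟩, ⟨⟨1, -1, 0⟩, ⟨0, -1, 0⟩, ⟨0, 0, -1⟩⟩], ⟨⟨1, 0, 0⟩, ⟨1, -1, 0⟩, ⟨0, 0, -1⟩⟩, ⟨⟨1, 0, 0⟩, ⟨1, -1, 0⟩, ⟨0, 0, -1⟩⟩, 12,
   [⟨⟨⟨1, 0, 0⟩, ⟨0, 1, 0⟩, ⟨0, 0, 1⟩⟩, ⟨⟨0, 0, 0⟩, ⟨0, 0, 0⟩, ⟨0, 0, 0⟩⟩⟩,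
    ⟨⟨⟨1, 0, 0⟩, ⟨1, -1, 0⟩, ⟨0, 0, -1⟩⟩, ⟨⟨0, 0, 0⟩, ⟨0, 0, 0⟩, ⟨0, 0, 0⟩⟩⟩,
    ⟨⟨⟨1, -1, 0⟩, ⟨0, -1, 0⟩, ⟨0, 0, -1⟩⟩, ⟨⟨0, 0, 0⟩, ⟨0, 0, 0⟩, ⟨0, 0, 0⟩⟩⟩,
    ⟨⟨⟨1, -1, 0⟩, ⟨1, 0, 0⟩, ⟨0, 0, 1⟩⟩, ⟨⟨0, 0, 0⟩, ⟨0, 0, 0⟩, ⟨0, 0, 0⟩⟩⟩,
    ⟨⟨⟨0, 1, 0⟩, ⟨-1, 1, 0⟩, ⟨0, 0, 1⟩⟩, ⟨⟨0, 0, 0⟩, ⟨0, 0, 0⟩, ⟨0, 0, 0⟩⟩⟩,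
    ⟨⟨⟨0, 1, 0⟩, ⟨1, 0, 0⟩, ⟨0, 0, -1⟩⟩, ⟨⟨0, 0, 0⟩, ⟨0, 0, 0⟩, ⟨0, 0, 0⟩⟩⟩,
    ⟨⟨⟨0, -1, 0⟩, ⟨-1, 0, 0⟩, ⟨0, 0, -1⟩⟩, ⟨⟨0, 0, 0⟩, ⟨0, 0, 0⟩, ⟨0, 0, 0⟩⟩⟩,
    ⟨⟨⟨0, -1, 0⟩, ⟨1, -1, 0⟩, ⟨0, 0, 1⟩⟩, ⟨⟨0, 0, 0⟩, ⟨0, 0, 0⟩, ⟨0, 0, 0⟩⟩⟩,
    ⟨⟨⟨-1, 1, 0⟩, ⟨-1, 0, 0⟩, ⟨0, 0, 1⟩⟩, ⟨⟨0, 0, 0⟩, ⟨0, 0, 0⟩, ⟨0, 0, 0⟩⟩⟩,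
    ⟨⟨⟨-1, 1, 0⟩, ⟨0, 1, 0⟩, ⟨0, 0, -1⟩⟩, ⟨⟨0, 0, 0⟩, ⟨0, 0, 0⟩, ⟨0, 0, 0⟩⟩⟩,
    ⟨⟨⟨-1, 0, 0⟩, ⟨-1, 1, 0⟩, ⟨0, 0, -1⟩⟩, ⟨⟨0, 0, 0⟩, ⟨0, 0, 0⟩, ⟨0, 0, 0⟩⟩⟩,
    ⟨⟨⟨-1, 0, 0⟩, ⟨0, -1, 0⟩, ⟨0, 0, 1⟩⟩, ⟨⟨0, 0, 0⟩, ⟨0, 0, 0⟩, ⟨0, 0, 0⟩⟩⟩],
   [(0, 0), (0, 1), (1, 1), (2, 0), (3, 0), (4, 1), (5, 1), (6, 0), (7, 0), (8, 1), (9, 1)],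
   [⟨⟨0, 0, 0⟩, ⟨0, 0, 0⟩, ⟨0, 0, 0⟩⟩,
    ⟨⟨1, 0, 0⟩, ⟨0, 1, 0⟩, ⟨0, 0, 1⟩⟩,
    ⟨⟨-1, 0, 0⟩, ⟨-1, 1, 0⟩, ⟨0, 0, 1⟩⟩,
    ⟨⟨1, 0, 0⟩, ⟨1, -1, 0⟩, ⟨0, 0, -1⟩⟩,
    ⟨⟨-1, 0, 0⟩, ⟨0, -1, 0⟩, ⟨0, 0, -1⟩⟩,
    ⟨⟨1, -1, 0⟩, ⟨0, -1, 0⟩, ⟨0, 0, -1⟩⟩,
    ⟨⟨0, -1, 0⟩, ⟨1, -1, 0⟩, ⟨0, 0, -1⟩⟩,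
    ⟨⟨1, -1, 0⟩, ⟨1, 0, 0⟩, ⟨0, 0, 1⟩⟩,
    ⟨⟨0, -1, 0⟩, ⟨-1, 0, 0⟩, ⟨0, 0, 1⟩⟩,
    ⟨⟨0, 1, 0⟩, ⟨-1, 1, 0⟩, ⟨0, 0, 1⟩⟩,
    ⟨⟨-1, 1, 0⟩, ⟨0, 1, 0⟩, ⟨0, 0, 1⟩⟩,
    ⟨⟨0, 1, 0⟩, ⟨1, 0, 0⟩, ⟨0, 0, -1⟩⟩,
    ⟨⟨-1, 1, 0⟩, ⟨-1, 0, 0⟩, ⟨0, 0, -1⟩⟩,
    ⟨⟨0, -1, 0⟩, ⟨-1, 0, 0⟩, ⟨0, 0, -1⟩⟩,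
    ⟨⟨1, -1, 0⟩, ⟨1, 0, 0⟩, ⟨0, 0, -1⟩⟩,
    ⟨⟨0, -1, 0⟩, ⟨1, -1, 0⟩, ⟨0, 0, 1⟩⟩,
    ⟨⟨1, -1, 0⟩, ⟨0, -1, 0⟩, ⟨0, 0, 1⟩⟩,
    ⟨⟨-1, 1, 0⟩, ⟨-1, 0, 0⟩, ⟨0, 0, 1⟩⟩,
    ⟨⟨0, 1, 0⟩, ⟨1, 0, 0⟩, ⟨0, 0, 1⟩⟩,
    ⟨⟨-1, 1, 0⟩, ⟨0, 1, 0⟩, ⟨0, 0, -1⟩⟩,
    ⟨⟨0, 1, 0⟩, ⟨-1, 1, 0⟩, ⟨0, 0, -1⟩⟩,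
    ⟨⟨-1, 0, 0⟩, ⟨-1, 1, 0⟩, ⟨0, 0, -1⟩⟩,
    ⟨⟨1, 0, 0⟩, ⟨0, 1, 0⟩, ⟨0, 0, -1⟩⟩,
    ⟨⟨-1, 0, 0⟩, ⟨0, -1, 0⟩, ⟨0, 0, 1⟩⟩,
    ⟨⟨1, 0, 0⟩, ⟨1, -1, 0⟩, ⟨0, 0, 1⟩⟩],
   [[(1, 0), (2, 0), (1, 1), (1, 2)],
    [(0, 0), (3, 0), (0, 3), (0, 4)],
    [(4, 0), (0, 0), (4, 5), (4, 6)],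
    [(5, 0), (1, 0), (5, 7), (5, 8)],
    [(2, 0), (6, 0), (2, 9), (2, 10)],
    [(3, 0), (7, 0), (3, 11), (3, 12)],
    [(8, 0), (4, 0), (8, 13), (8, 14)],
    [(9, 0), (5, 0), (9, 15), (9, 16)],
    [(6, 0), (10, 0), (6, 17), (6, 18)],
    [(7, 0), (11, 0), (7, 19), (7, 20)],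
    [(11, 0), (8, 0), (11, 21), (11, 22)],
    [(10, 0), (9, 0), (10, 23), (10, 24)]]⟩

def hexLat52 : List LatE :=
  [⟨⟨⟨1, 0, 0⟩, ⟨0, 1, 0⟩, ⟨0, 0, 1⟩⟩, 1, ⟨⟨0, 0, 0⟩, ⟨0, 0, 0⟩, ⟨0, 0, 0⟩⟩⟩]

def hexRow53 : Row :=
  ⟨[⟨⟨1, 0, 0⟩, ⟨1, -1, 0⟩, ⟨0, 0, 1⟩⟩, ⟨⟨1, -1, 0⟩, ⟨0, -1, 0⟩, ⟨0, 0, 1⟩⟩], ⟨⟨1, 0, 0⟩, ⟨1, -1, 0⟩, ⟨0, 0, 1⟩⟩, ⟨⟨1, 0, 0⟩, ⟨1, -1, 0⟩, ⟨0, 0, 1⟩⟩, 12,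
   [⟨⟨⟨1, 0, 0⟩, ⟨0, 1, 0⟩, ⟨0, 0, 1⟩⟩, ⟨⟨0, 0, 0⟩, ⟨0, 0, 0⟩, ⟨0, 0, 0⟩⟩⟩,
    ⟨⟨⟨1, 0, 0⟩, ⟨1, -1, 0⟩, ⟨0, 0, 1⟩⟩, ⟨⟨0, 0, 0⟩, ⟨0, 0, 0⟩, ⟨0, 0, 0⟩⟩⟩,
    ⟨⟨⟨1, -1, 0⟩, ⟨0, -1, 0⟩, ⟨0, 0, 1⟩⟩, ⟨⟨0, 0, 0⟩, ⟨0, 0, 0⟩, ⟨0, 0, 0⟩⟩⟩,
    ⟨⟨⟨1, -1, 0⟩, ⟨1, 0, 0⟩, ⟨0, 0, 1⟩⟩, ⟨⟨0, 0, 0⟩, ⟨0, 0, 0⟩, ⟨0, 0, 0⟩⟩⟩,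
    ⟨⟨⟨0, 1, 0⟩, ⟨-1, 1, 0⟩, ⟨0, 0, 1⟩⟩, ⟨⟨0, 0, 0⟩, ⟨0, 0, 0⟩, ⟨0, 0, 0⟩⟩⟩,
    ⟨⟨⟨0, 1, 0⟩, ⟨1, 0, 0⟩, ⟨0, 0, 1⟩⟩, ⟨⟨0, 0, 0⟩, ⟨0, 0, 0⟩, ⟨0, 0, 0⟩⟩⟩,
    ⟨⟨⟨0, -1, 0⟩, ⟨-1, 0, 0⟩, ⟨0, 0, 1⟩⟩, ⟨⟨0, 0, 0⟩, ⟨0, 0, 0⟩, ⟨0, 0, 0⟩⟩⟩,
    ⟨⟨⟨0, -1, 0⟩, ⟨1, -1, 0⟩, ⟨0, 0, 1⟩⟩, ⟨⟨0, 0, 0⟩, ⟨0, 0, 0⟩, ⟨0, 0, 0⟩⟩⟩,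
    ⟨⟨⟨-1, 1, 0⟩, ⟨-1, 0, 0⟩, ⟨0, 0, 1⟩⟩, ⟨⟨0, 0, 0⟩, ⟨0, 0, 0⟩, ⟨0, 0, 0⟩⟩⟩,
    ⟨⟨⟨-1, 1, 0⟩, ⟨0, 1, 0⟩, ⟨0, 0, 1⟩⟩, ⟨⟨0, 0, 0⟩, ⟨0, 0, 0⟩, ⟨0, 0, 0⟩⟩⟩,
    ⟨⟨⟨-1, 0, 0⟩, ⟨-1, 1, 0⟩, ⟨0, 0, 1⟩⟩, ⟨⟨0, 0, 0⟩, ⟨0, 0, 0⟩, ⟨0, 0, 0⟩⟩⟩,
    ⟨⟨⟨-1, 0, 0⟩, ⟨0, -1, 0⟩, ⟨0, 0, 1⟩⟩, ⟨⟨0, 0, 0⟩, ⟨0, 0, 0⟩, ⟨0, 0, 0⟩⟩⟩],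
   [(0, 0), (0, 1), (1, 1), (2, 0), (3, 0), (4, 1), (5, 1), (6, 0), (7, 0), (8, 1), (9, 1)],
   [⟨⟨0, 0, 0⟩, ⟨0, 0, 0⟩, ⟨0, 0, 0⟩⟩,
    ⟨⟨1, 0, 0⟩, ⟨0, 1, 0⟩, ⟨0, 0, 1⟩⟩,
    ⟨⟨-1, 0, 0⟩, ⟨-1, 1, 0⟩, ⟨0, 0, -1⟩⟩,
    ⟨⟨1, 0, 0⟩, ⟨1, -1, 0⟩, ⟨0, 0, 1⟩⟩,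
    ⟨⟨-1, 0, 0⟩, ⟨0, -1, 0⟩, ⟨0, 0, -1⟩⟩,
    ⟨⟨1, -1, 0⟩, ⟨0, -1, 0⟩, ⟨0, 0, 1⟩⟩,
    ⟨⟨0, -1, 0⟩, ⟨1, -1, 0⟩, ⟨0, 0, -1⟩⟩,
    ⟨⟨1, -1, 0⟩, ⟨1, 0, 0⟩, ⟨0, 0, 1⟩⟩,
    ⟨⟨0, -1, 0⟩, ⟨-1, 0, 0⟩, ⟨0, 0, -1⟩⟩,
    ⟨⟨0, 1, 0⟩, ⟨-1, 1, 0⟩, ⟨0, 0, 1⟩⟩,
    ⟨⟨-1, 1, 0⟩, ⟨0, 1, 0⟩, ⟨0, 0, -1⟩⟩,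
    ⟨⟨0, 1, 0⟩, ⟨1, 0, 0⟩, ⟨0, 0, 1⟩⟩,
    ⟨⟨-1, 1, 0⟩, ⟨-1, 0, 0⟩, ⟨0, 0, -1⟩⟩,
    ⟨⟨0, -1, 0⟩, ⟨-1, 0, 0⟩, ⟨0, 0, 1⟩⟩,
    ⟨⟨1, -1, 0⟩, ⟨1, 0, 0⟩, ⟨0, 0, -1⟩⟩,
    ⟨⟨0, -1, 0⟩, ⟨1, -1, 0⟩, ⟨0, 0, 1⟩⟩,
    ⟨⟨1, -1, 0⟩, ⟨0, -1, 0⟩, ⟨0, 0, -1⟩⟩,
    ⟨⟨-1, 1, 0⟩, ⟨-1, 0, 0⟩, ⟨0, 0, 1⟩⟩,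
    ⟨⟨0, 1, 0⟩, ⟨1, 0, 0⟩, ⟨0, 0, -1⟩⟩,
    ⟨⟨-1, 1, 0⟩, ⟨0, 1, 0⟩, ⟨0, 0, 1⟩⟩,
    ⟨⟨0, 1, 0⟩, ⟨-1, 1, 0⟩, ⟨0, 0, -1⟩⟩,
    ⟨⟨-1, 0, 0⟩, ⟨-1, 1, 0⟩, ⟨0, 0, 1⟩⟩,
    ⟨⟨1, 0, 0⟩, ⟨0, 1, 0⟩, ⟨0, 0, -1⟩⟩,
    ⟨⟨-1, 0, 0⟩, ⟨0, -1, 0⟩, ⟨0, 0, 1⟩⟩,
    ⟨⟨1, 0, 0⟩, ⟨1, -1, 0⟩, ⟨0, 0, -1⟩⟩],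
   [[(1, 0), (2, 0), (1, 1), (1, 2)],
    [(0, 0), (3, 0), (0, 3), (0, 4)],
    [(4, 0), (0, 0), (4, 5), (4, 6)],
    [(5, 0), (1, 0), (5, 7), (5, 8)],
    [(2, 0), (6, 0), (2, 9), (2, 10)],
    [(3, 0), (7, 0), (3, 11), (3, 12)],
    [(8, 0), (4, 0), (8, 13), (8, 14)],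
    [(9, 0), (5, 0), (9, 15), (9, 16)],
    [(6, 0), (10, 0), (6, 17), (6, 18)],
    [(7, 0), (11, 0), (7, 19), (7, 20)],
    [(11, 0), (8, 0), (11, 21), (11, 22)],
    [(10, 0), (9, 0), (10, 23), (10, 24)]]⟩

def hexLat53 : List LatE :=
  [⟨⟨⟨1, 0, 0⟩, ⟨0, 1, 0⟩, ⟨0, 0, 1⟩⟩, 1, ⟨⟨0, 0, 0⟩, ⟨0, 0, 0⟩, ⟨0, 0, 0⟩⟩⟩]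

def hexRow54 : Row :=
  ⟨[⟨⟨1, 0, 0⟩, ⟨1, -1, 0⟩, ⟨0, 0, 1⟩⟩, ⟨⟨1, -1, 0⟩, ⟨0, -1, 0⟩, ⟨0, 0, 1⟩⟩], ⟨⟨1, 0, 0⟩, ⟨1, -1, 0⟩, ⟨0, 0, -1⟩⟩, ⟨⟨1, 0, 0⟩, ⟨1, -1, 0⟩, ⟨0, 0, -1⟩⟩, 12,
   [⟨⟨⟨1, 0, 0⟩, ⟨0, 1, 0⟩, ⟨0, 0, 1⟩⟩, ⟨⟨0, 0, 0⟩, ⟨0, 0, 0⟩, ⟨0, 0, 0⟩⟩⟩,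
    ⟨⟨⟨1, 0, 0⟩, ⟨1, -1, 0⟩, ⟨0, 0, 1⟩⟩, ⟨⟨0, 0, 0⟩, ⟨0, 0, 0⟩, ⟨0, 0, 0⟩⟩⟩,
    ⟨⟨⟨1, -1, 0⟩, ⟨0, -1, 0⟩, ⟨0, 0, 1⟩⟩, ⟨⟨0, 0, 0⟩, ⟨0, 0, 0⟩, ⟨0, 0, 0⟩⟩⟩,
    ⟨⟨⟨1, -1, 0⟩, ⟨1, 0, 0⟩, ⟨0, 0, 1⟩⟩, ⟨⟨0, 0, 0⟩, ⟨0, 0, 0⟩, ⟨0, 0, 0⟩⟩⟩,
    ⟨⟨⟨0, 1, 0⟩, ⟨-1, 1, 0⟩, ⟨0, 0, 1⟩⟩, ⟨⟨0, 0, 0⟩, ⟨0, 0, 0⟩, ⟨0, 0, 0⟩⟩⟩,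
    ⟨⟨⟨0, 1, 0⟩, ⟨1, 0, 0⟩, ⟨0, 0, 1⟩⟩, ⟨⟨0, 0, 0⟩, ⟨0, 0, 0⟩, ⟨0, 0, 0⟩⟩⟩,
    ⟨⟨⟨0, -1, 0⟩, ⟨-1, 0, 0⟩, ⟨0, 0, 1⟩⟩, ⟨⟨0, 0, 0⟩, ⟨0, 0, 0⟩, ⟨0, 0, 0⟩⟩⟩,
    ⟨⟨⟨0, -1, 0⟩, ⟨1, -1, 0⟩, ⟨0, 0, 1⟩⟩, ⟨⟨0, 0, 0⟩, ⟨0, 0, 0⟩, ⟨0, 0, 0⟩⟩⟩,
    ⟨⟨⟨-1, 1, 0⟩, ⟨-1, 0, 0⟩, ⟨0, 0, 1⟩⟩, ⟨⟨0, 0, 0⟩, ⟨0, 0, 0⟩, ⟨0, 0, 0⟩⟩⟩,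
    ⟨⟨⟨-1, 1, 0⟩, ⟨0, 1, 0⟩, ⟨0, 0, 1⟩⟩, ⟨⟨0, 0, 0⟩, ⟨0, 0, 0⟩, ⟨0, 0, 0⟩⟩⟩,
    ⟨⟨⟨-1, 0, 0⟩, ⟨-1, 1, 0⟩, ⟨0, 0, 1⟩⟩, ⟨⟨0, 0, 0⟩, ⟨0, 0, 0⟩, ⟨0, 0, 0⟩⟩⟩,
    ⟨⟨⟨-1, 0, 0⟩, ⟨0, -1, 0⟩, ⟨0, 0, 1⟩⟩, ⟨⟨0, 0, 0⟩, ⟨0, 0, 0⟩, ⟨0, 0, 0⟩⟩⟩,
    ⟨⟨⟨1, 0, 0⟩, ⟨1, -1, 0⟩, ⟨0, 0, -1⟩⟩, ⟨⟨1, 0, 0⟩, ⟨0, 1, 0⟩, ⟨0, 0, 1⟩⟩⟩,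
    ⟨⟨⟨1, 0, 0⟩, ⟨0, 1, 0⟩, ⟨0, 0, -1⟩⟩, ⟨⟨1, 0, 0⟩, ⟨1, -1, 0⟩, ⟨0, 0, 1⟩⟩⟩,
    ⟨⟨⟨0, 1, 0⟩, ⟨-1, 1, 0⟩, ⟨0, 0, -1⟩⟩, ⟨⟨1, -1, 0⟩, ⟨0, -1, 0⟩, ⟨0, 0, 1⟩⟩⟩,
    ⟨⟨⟨0, 1, 0⟩, ⟨1, 0, 0⟩, ⟨0, 0, -1⟩⟩, ⟨⟨1, -1, 0⟩, ⟨1, 0, 0⟩, ⟨0, 0, 1⟩⟩⟩,
    ⟨⟨⟨1, -1, 0⟩, ⟨0, -1, 0⟩, ⟨0, 0, -1⟩⟩, ⟨⟨0, 1, 0⟩, ⟨-1, 1, 0⟩, ⟨0, 0, 1⟩⟩⟩,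
    ⟨⟨⟨1, -1, 0⟩, ⟨1, 0, 0⟩, ⟨0, 0, -1⟩⟩, ⟨⟨0, 1, 0⟩, ⟨1, 0, 0⟩, ⟨0, 0, 1⟩⟩⟩,
    ⟨⟨⟨-1, 1, 0⟩, ⟨-1, 0, 0⟩, ⟨0, 0, -1⟩⟩, ⟨⟨0, -1, 0⟩, ⟨-1, 0, 0⟩, ⟨0, 0, 1⟩⟩⟩,
    ⟨⟨⟨-1, 1, 0⟩, ⟨0, 1, 0⟩, ⟨0, 0, -1⟩⟩, ⟨⟨0, -1, 0⟩, ⟨1, -1, 0⟩, ⟨0, 0, 1⟩⟩⟩,
    ⟨⟨⟨0, -1, 0⟩, ⟨-1, 0, 0⟩, ⟨0, 0, -1⟩⟩, ⟨⟨-1, 1, 0⟩, ⟨-1, 0, 0⟩, ⟨0, 0, 1⟩⟩⟩,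
    ⟨⟨⟨0, -1, 0⟩, ⟨1, -1, 0⟩, ⟨0, 0, -1⟩⟩, ⟨⟨-1, 1, 0⟩, ⟨0, 1, 0⟩, ⟨0, 0, 1⟩⟩⟩,
    ⟨⟨⟨-1, 0, 0⟩, ⟨0, -1, 0⟩, ⟨0, 0, -1⟩⟩, ⟨⟨-1, 0, 0⟩, ⟨-1, 1, 0⟩, ⟨0, 0, 1⟩⟩⟩,
    ⟨⟨⟨-1, 0, 0⟩, ⟨-1, 1, 0⟩, ⟨0, 0, -1⟩⟩, ⟨⟨-1, 0, 0⟩, ⟨0, -1, 0⟩, ⟨0, 0, 1⟩⟩⟩],
   [(0, 0), (0, 1), (1, 1), (2, 0), (3, 0), (4, 1), (5, 1), (6, 0), (7, 0), (8, 1), (9, 1), (0, 2), (1, 2), (2, 2), (3, 2), (4, 2), (5, 2), (6, 2), (7, 2), (8, 2), (9, 2), (10, 2), (11, 2)],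
   [⟨⟨0, 0, 0⟩, ⟨0, 0, 0⟩, ⟨0, 0, 0⟩⟩,
    ⟨⟨-2, 0, 0⟩, ⟨-1, 0, 0⟩, ⟨0, 0, 0⟩⟩,
    ⟨⟨-1, 0, 0⟩, ⟨1, 0, 0⟩, ⟨0, 0, 0⟩⟩,
    ⟨⟨-1, 0, 0⟩, ⟨-2, 0, 0⟩, ⟨0, 0, 0⟩⟩,
    ⟨⟨1, 0, 0⟩, ⟨2, 0, 0⟩, ⟨0, 0, 0⟩⟩,
    ⟨⟨1, 0, 0⟩, ⟨-1, 0, 0⟩, ⟨0, 0, 0⟩⟩,
    ⟨⟨2, 0, 0⟩, ⟨1, 0, 0⟩, ⟨0, 0, 0⟩⟩,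
    ⟨⟨0, 0, 0⟩, ⟨-1, 2, 0⟩, ⟨0, 0, 0⟩⟩,
    ⟨⟨1, -1, 0⟩, ⟨-1, 1, 0⟩, ⟨0, 0, 0⟩⟩,
    ⟨⟨0, 0, 0⟩, ⟨1, -2, 0⟩, ⟨0, 0, 0⟩⟩,
    ⟨⟨1, -1, 0⟩, ⟨2, -2, 0⟩, ⟨0, 0, 0⟩⟩,
    ⟨⟨1, -2, 0⟩, ⟨1, -2, 0⟩, ⟨0, 0, 0⟩⟩,
    ⟨⟨2, -2, 0⟩, ⟨1, -1, 0⟩, ⟨0, 0, 0⟩⟩,
    ⟨⟨1, -2, 0⟩, ⟨0, 0, 0⟩, ⟨0, 0, 0⟩⟩,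
    ⟨⟨-1, 2, 0⟩, ⟨-1, 2, 0⟩, ⟨0, 0, 0⟩⟩,
    ⟨⟨-1, 1, 0⟩, ⟨-2, 2, 0⟩, ⟨0, 0, 0⟩⟩,
    ⟨⟨-1, 2, 0⟩, ⟨0, 0, 0⟩, ⟨0, 0, 0⟩⟩,
    ⟨⟨-1, 1, 0⟩, ⟨1, -1, 0⟩, ⟨0, 0, 0⟩⟩,
    ⟨⟨-2, 2, 0⟩, ⟨-1, 1, 0⟩, ⟨0, 0, 0⟩⟩],
   [[(1, 0), (2, 0), (12, 0), (12, 1)],
    [(0, 0), (3, 0), (13, 0), (13, 1)],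
    [(4, 0), (0, 0), (14, 0), (14, 2)],
    [(5, 0), (1, 0), (15, 0), (15, 3)],
    [(2, 0), (6, 0), (16, 0), (16, 2)],
    [(3, 0), (7, 0), (17, 0), (17, 3)],
    [(8, 0), (4, 0), (18, 0), (18, 4)],
    [(9, 0), (5, 0), (19, 0), (19, 5)],
    [(6, 0), (10, 0), (20, 0), (20, 4)],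
    [(7, 0), (11, 0), (21, 0), (21, 5)],
    [(11, 0), (8, 0), (22, 0), (22, 6)],
    [(10, 0), (9, 0), (23, 0), (23, 6)],
    [(13, 7), (17, 8), (0, 6), (0, 0)],
    [(12, 9), (16, 10), (1, 6), (1, 0)],
    [(16, 11), (20, 12), (2, 5), (2, 0)],
    [(17, 13), (21, 12), (3, 4), (3, 0)],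
    [(14, 14), (13, 15), (4, 5), (4, 0)],
    [(15, 16), (12, 17), (5, 4), (5, 0)],
    [(20, 13), (23, 8), (6, 3), (6, 0)],
    [(21, 11), (22, 10), (7, 2), (7, 0)],
    [(18, 16), (14, 18), (8, 3), (8, 0)],
    [(19, 14), (15, 18), (9, 2), (9, 0)],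
    [(23, 7), (19, 15), (10, 1), (10, 0)],
    [(22, 9), (18, 17), (11, 1), (11, 0)]]⟩

def hexLat54 : List LatE :=
  [⟨⟨⟨1, 0, 0⟩, ⟨0, 1, 0⟩, ⟨0, 0, 1⟩⟩, 1, ⟨⟨0, 0, 1⟩, ⟨0, 0, 0⟩, ⟨0, 0, 0⟩⟩⟩]

/-- The rows of the hexagonal blocks, with a lattice for each family. -/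
def hexRows : List (Row × List LatE) :=
  [(hexRow0, hexLat0),
   (hexRow1, hexLat1),
   (hexRow2, hexLat2),
   (hexRow3, hexLat3),
   (hexRow4, hexLat4),
   (hexRow5, hexLat5),
   (hexRow6, hexLat6),
   (hexRow7, hexLat7),
   (hexRow8, hexLat8),
   (hexRow9, hexLat9),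
   (hexRow10, hexLat10),
   (hexRow11, hexLat11),
   (hexRow12, hexLat12),
   (hexRow13, hexLat13),
   (hexRow14, hexLat14),
   (hexRow15, hexLat15),
   (hexRow16, hexLat16),
   (hexRow17, hexLat17),
   (hexRow18, hexLat18),
   (hexRow19, hexLat19),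
   (hexRow20, hexLat20),
   (hexRow21, hexLat21),
   (hexRow22, hexLat22),
   (hexRow23, hexLat23),
   (hexRow24, hexLat24),
   (hexRow25, hexLat25),
   (hexRow26, hexLat26),
   (hexRow27, hexLat27),
   (hexRow28, hexLat28),
   (hexRow29, hexLat29),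
   (hexRow30, hexLat30),
   (hexRow31, hexLat31),
   (hexRow32, hexLat32),
   (hexRow33, hexLat33),
   (hexRow34, hexLat34),
   (hexRow35, hexLat35),
   (hexRow36, hexLat36),
   (hexRow37, hexLat37),
   (hexRow38, hexLat38),
   (hexRow39, hexLat39),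
   (hexRow40, hexLat40),
   (hexRow41, hexLat41),
   (hexRow42, hexLat42),
   (hexRow43, hexLat43),
   (hexRow44, hexLat44),
   (hexRow45, hexLat45),
   (hexRow46, hexLat46),
   (hexRow47, hexLat47),
   (hexRow48, hexLat48),
   (hexRow49, hexLat49),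
   (hexRow50, hexLat50),
   (hexRow51, hexLat51),
   (hexRow52, hexLat52),
   (hexRow53, hexLat53),
   (hexRow54, hexLat54)]

end Pool.Agent.H21.FT
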