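import Pool.Agent.H21.FT.Row

/-!
# Certificates for the tetragonal blocks of the table
-/

namespace Pool.Agent.H21.FT

def tetRow0 : Row :=
  ⟨[⟨⟨-1, 0, 0⟩, ⟨0, -1, 0⟩, ⟨0, 0, -1⟩⟩], ⟨⟨0, 1, 0⟩, ⟨-1, 0, 0⟩, ⟨0, 0, 1⟩⟩, ⟨⟨0, -1, 0⟩, ⟨1, 0, 0⟩, ⟨0, 0, 1⟩⟩, 2,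
   [⟨⟨⟨1, 0, 0⟩, ⟨0, 1, 0⟩, ⟨0, 0, 1⟩⟩, ⟨⟨0, 0, 0⟩, ⟨0, 0, 0⟩, ⟨0, 0, 0⟩⟩⟩,
    ⟨⟨⟨-1, 0, 0⟩, ⟨0, -1, 0⟩, ⟨0, 0, -1⟩⟩, ⟨⟨0, 0, 0⟩, ⟨0, 0, 0⟩, ⟨0, 0, 0⟩⟩⟩,
    ⟨⟨⟨0, 1, 0⟩, ⟨-1, 0, 0⟩, ⟨0, 0, 1⟩⟩, ⟨⟨1, 0, 0⟩, ⟨0, 1, 0⟩, ⟨0, 0, 1⟩⟩⟩,
    ⟨⟨⟨0, -1, 0⟩, ⟨1, 0, 0⟩, ⟨0, 0, 1⟩⟩, ⟨⟨0, 1, 0⟩, ⟨-1, 0, 0⟩, ⟨0, 0, -1⟩⟩⟩,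
    ⟨⟨⟨0, -1, 0⟩, ⟨1, 0, 0⟩, ⟨0, 0, -1⟩⟩, ⟨⟨-1, 0, 0⟩, ⟨0, -1, 0⟩, ⟨0, 0, -1⟩⟩⟩,
    ⟨⟨⟨0, 1, 0⟩, ⟨-1, 0, 0⟩, ⟨0, 0, -1⟩⟩, ⟨⟨0, -1, 0⟩, ⟨1, 0, 0⟩, ⟨0, 0, 1⟩⟩⟩,
    ⟨⟨⟨-1, 0, 0⟩, ⟨0, -1, 0⟩, ⟨0, 0, 1⟩⟩, ⟨⟨1, 1, 0⟩, ⟨-1, 1, 0⟩, ⟨0, 0, 2⟩⟩⟩,
    ⟨⟨⟨1, 0, 0⟩, ⟨0, 1, 0⟩, ⟨0, 0, -1⟩⟩, ⟨⟨-1, -1, 0⟩, ⟨1, -1, 0⟩, ⟨0, 0, -2⟩⟩⟩],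
   [(0, 0), (0, 1), (0, 2), (1, 1), (1, 2), (2, 1), (4, 1)],
   [⟨⟨0, 0, 0⟩, ⟨0, 0, 0⟩, ⟨0, 0, 0⟩⟩,
    ⟨⟨2, 0, 0⟩, ⟨0, 2, 0⟩, ⟨0, 0, 2⟩⟩,
    ⟨⟨0, 2, 0⟩, ⟨-2, 0, 0⟩, ⟨0, 0, -2⟩⟩,
    ⟨⟨0, 0, 0⟩, ⟨0, 0, 0⟩, ⟨0, 0, -4⟩⟩,
    ⟨⟨-2, 0, 0⟩, ⟨0, -2, 0⟩, ⟨0, 0, -2⟩⟩,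
    ⟨⟨0, -2, 0⟩, ⟨2, 0, 0⟩, ⟨0, 0, 2⟩⟩,
    ⟨⟨0, 0, 0⟩, ⟨0, 0, 0⟩, ⟨0, 0, 4⟩⟩,
    ⟨⟨2, 2, 0⟩, ⟨-2, 2, 0⟩, ⟨0, 0, 4⟩⟩,
    ⟨⟨-2, -2, 0⟩, ⟨2, -2, 0⟩, ⟨0, 0, -4⟩⟩],
   [[(1, 0), (2, 0), (3, 0)],
    [(0, 0), (4, 0), (5, 0)],
    [(4, 1), (6, 0), (0, 0)],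
    [(5, 2), (0, 0), (6, 3)],
    [(2, 4), (7, 0), (1, 0)],
    [(3, 5), (1, 0), (7, 6)],
    [(7, 7), (3, 6), (2, 0)],
    [(6, 8), (5, 3), (4, 0)]]⟩

def tetLat0 : List LatE :=
  [⟨⟨⟨2, 0, 0⟩, ⟨0, 2, 0⟩, ⟨-1, -1, 2⟩⟩, 4, ⟨⟨0, 0, 0⟩, ⟨0, 0, 0⟩, ⟨0, 0, 0⟩⟩⟩]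

def tetRow1 : Row :=
  ⟨[⟨⟨-1, 0, 0⟩, ⟨0, -1, 0⟩, ⟨0, 0, 1⟩⟩], ⟨⟨0, 1, 0⟩, ⟨-1, 0, 0⟩, ⟨0, 0, 1⟩⟩, ⟨⟨0, -1, 0⟩, ⟨1, 0, 0⟩, ⟨0, 0, 1⟩⟩, 2,
   [⟨⟨⟨1, 0, 0⟩, ⟨0, 1, 0⟩, ⟨0, 0, 1⟩⟩, ⟨⟨0, 0, 0⟩, ⟨0, 0, 0⟩, ⟨0, 0, 0⟩⟩⟩,
    ⟨⟨⟨-1, 0, 0⟩, ⟨0, -1, 0⟩, ⟨0, 0, 1⟩⟩, ⟨⟨0, 0, 0⟩, ⟨0, 0, 0⟩, ⟨0, 0, 0⟩⟩⟩,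
    ⟨⟨⟨0, 1, 0⟩, ⟨-1, 0, 0⟩, ⟨0, 0, 1⟩⟩, ⟨⟨1, 0, 0⟩, ⟨0, 1, 0⟩, ⟨0, 0, 1⟩⟩⟩,
    ⟨⟨⟨0, -1, 0⟩, ⟨1, 0, 0⟩, ⟨0, 0, 1⟩⟩, ⟨⟨0, 1, 0⟩, ⟨-1, 0, 0⟩, ⟨0, 0, -1⟩⟩⟩],
   [(0, 0), (0, 1), (0, 2)],
   [⟨⟨0, 0, 0⟩, ⟨0, 0, 0⟩, ⟨0, 0, 0⟩⟩,
    ⟨⟨-1, -1, 0⟩, ⟨1, -1, 0⟩, ⟨0, 0, 2⟩⟩,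
    ⟨⟨-1, -1, 0⟩, ⟨1, -1, 0⟩, ⟨0, 0, -2⟩⟩,
    ⟨⟨1, -1, 0⟩, ⟨1, 1, 0⟩, ⟨0, 0, 2⟩⟩,
    ⟨⟨1, 1, 0⟩, ⟨-1, 1, 0⟩, ⟨0, 0, 2⟩⟩,
    ⟨⟨-1, 1, 0⟩, ⟨-1, -1, 0⟩, ⟨0, 0, -2⟩⟩,
    ⟨⟨1, 1, 0⟩, ⟨-1, 1, 0⟩, ⟨0, 0, -2⟩⟩],
   [[(1, 0), (2, 0), (3, 0)],
    [(0, 0), (3, 1), (2, 2)],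
    [(3, 3), (1, 4), (0, 0)],
    [(2, 5), (0, 0), (1, 6)]]⟩

def tetLat1 : List LatE :=
  [⟨⟨⟨2, 0, 0⟩, ⟨-1, 1, 0⟩, ⟨-1, 0, 1⟩⟩, 2, ⟨⟨0, 0, 0⟩, ⟨0, 0, 0⟩, ⟨0, 0, 0⟩⟩⟩]

def tetRow2 : Row :=
  ⟨[⟨⟨-1, 0, 0⟩, ⟨0, -1, 0⟩, ⟨0, 0, 1⟩⟩], ⟨⟨0, 1, 0⟩, ⟨-1, 0, 0⟩, ⟨0, 0, -1⟩⟩, ⟨⟨0, -1, 0⟩, ⟨1, 0, 0⟩, ⟨0, 0, -1⟩⟩, 2,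
   [⟨⟨⟨1, 0, 0⟩, ⟨0, 1, 0⟩, ⟨0, 0, 1⟩⟩, ⟨⟨0, 0, 0⟩, ⟨0, 0, 0⟩, ⟨0, 0, 0⟩⟩⟩,
    ⟨⟨⟨-1, 0, 0⟩, ⟨0, -1, 0⟩, ⟨0, 0, 1⟩⟩, ⟨⟨0, 0, 0⟩, ⟨0, 0, 0⟩, ⟨0, 0, 0⟩⟩⟩,
    ⟨⟨⟨0, 1, 0⟩, ⟨-1, 0, 0⟩, ⟨0, 0, -1⟩⟩, ⟨⟨1, 0, 0⟩, ⟨0, 1, 0⟩, ⟨0, 0, 1⟩⟩⟩,
    ⟨⟨⟨0, -1, 0⟩, ⟨1, 0, 0⟩, ⟨0, 0, -1⟩⟩, ⟨⟨0, 1, 0⟩, ⟨-1, 0, 0⟩, ⟨0, 0, 1⟩⟩⟩],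
   [(0, 0), (0, 1), (0, 2)],
   [⟨⟨0, 0, 0⟩, ⟨0, 0, 0⟩, ⟨0, 0, 0⟩⟩,
    ⟨⟨-1, -1, 0⟩, ⟨1, -1, 0⟩, ⟨0, 0, 0⟩⟩,
    ⟨⟨1, -1, 0⟩, ⟨1, 1, 0⟩, ⟨0, 0, 0⟩⟩,
    ⟨⟨1, 1, 0⟩, ⟨-1, 1, 0⟩, ⟨0, 0, 0⟩⟩,
    ⟨⟨-1, 1, 0⟩, ⟨-1, -1, 0⟩, ⟨0, 0, 0⟩⟩],
   [[(1, 0), (2, 0), (3, 0)],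
    [(0, 0), (3, 1), (2, 1)],
    [(3, 2), (1, 3), (0, 0)],
    [(2, 4), (0, 0), (1, 3)]]⟩

def tetLat2 : List LatE :=
  [⟨⟨⟨2, 0, 0⟩, ⟨-1, 1, 0⟩, ⟨0, 0, 2⟩⟩, 2, ⟨⟨0, 0, 1⟩, ⟨0, 0, 0⟩, ⟨0, 0, 0⟩⟩⟩]

def tetRow3 : Row :=
  ⟨[⟨⟨-1, 0, 0⟩, ⟨0, 1, 0⟩, ⟨0, 0, -1⟩⟩], ⟨⟨0, 1, 0⟩, ⟨1, 0, 0⟩, ⟨0, 0, 1⟩⟩, ⟨⟨0, 1, 0⟩, ⟨1, 0, 0⟩, ⟨0, 0, 1⟩⟩, 2,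
   [⟨⟨⟨1, 0, 0⟩, ⟨0, 1, 0⟩, ⟨0, 0, 1⟩⟩, ⟨⟨0, 0, 0⟩, ⟨0, 0, 0⟩, ⟨0, 0, 0⟩⟩⟩,
    ⟨⟨⟨-1, 0, 0⟩, ⟨0, 1, 0⟩, ⟨0, 0, -1⟩⟩, ⟨⟨0, 0, 0⟩, ⟨0, 0, 0⟩, ⟨0, 0, 0⟩⟩⟩,
    ⟨⟨⟨0, 1, 0⟩, ⟨1, 0, 0⟩, ⟨0, 0, 1⟩⟩, ⟨⟨1, 0, 0⟩, ⟨0, 1, 0⟩, ⟨0, 0, 1⟩⟩⟩,
    ⟨⟨⟨0, -1, 0⟩, ⟨1, 0, 0⟩, ⟨0, 0, -1⟩⟩, ⟨⟨-1, 0, 0⟩, ⟨0, 1, 0⟩, ⟨0, 0, -1⟩⟩⟩,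
    ⟨⟨⟨0, 1, 0⟩, ⟨-1, 0, 0⟩, ⟨0, 0, -1⟩⟩, ⟨⟨1, 0, 0⟩, ⟨0, 1, 0⟩, ⟨0, 0, 1⟩⟩⟩,
    ⟨⟨⟨0, -1, 0⟩, ⟨-1, 0, 0⟩, ⟨0, 0, 1⟩⟩, ⟨⟨-1, 0, 0⟩, ⟨0, 1, 0⟩, ⟨0, 0, -1⟩⟩⟩,
    ⟨⟨⟨1, 0, 0⟩, ⟨0, -1, 0⟩, ⟨0, 0, -1⟩⟩, ⟨⟨1, 1, 0⟩, ⟨-1, 1, 0⟩, ⟨0, 0, 0⟩⟩⟩,
    ⟨⟨⟨-1, 0, 0⟩, ⟨0, -1, 0⟩, ⟨0, 0, 1⟩⟩, ⟨⟨-1, -1, 0⟩, ⟨-1, 1, 0⟩, ⟨0, 0, 0⟩⟩⟩],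
   [(0, 0), (0, 1), (1, 1), (2, 0), (3, 0), (4, 1), (5, 1)],
   [⟨⟨0, 0, 0⟩, ⟨0, 0, 0⟩, ⟨0, 0, 0⟩⟩,
    ⟨⟨-1, -1, 0⟩, ⟨-1, -1, 0⟩, ⟨0, 0, -2⟩⟩,
    ⟨⟨1, 1, 0⟩, ⟨-1, -1, 0⟩, ⟨0, 0, 2⟩⟩,
    ⟨⟨1, 1, 0⟩, ⟨1, 1, 0⟩, ⟨0, 0, 2⟩⟩,
    ⟨⟨-1, -1, 0⟩, ⟨1, 1, 0⟩, ⟨0, 0, -2⟩⟩,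
    ⟨⟨-1, -1, 0⟩, ⟨1, 1, 0⟩, ⟨0, 0, 2⟩⟩,
    ⟨⟨1, 1, 0⟩, ⟨1, 1, 0⟩, ⟨0, 0, -2⟩⟩,
    ⟨⟨2, 2, 0⟩, ⟨0, 0, 0⟩, ⟨0, 0, 0⟩⟩,
    ⟨⟨1, 1, 0⟩, ⟨-1, -1, 0⟩, ⟨0, 0, -2⟩⟩,
    ⟨⟨-2, -2, 0⟩, ⟨0, 0, 0⟩, ⟨0, 0, 0⟩⟩,
    ⟨⟨-1, -1, 0⟩, ⟨-1, -1, 0⟩, ⟨0, 0, 2⟩⟩],
   [[(1, 0), (2, 0), (2, 1)],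
    [(0, 0), (3, 0), (3, 2)],
    [(4, 0), (0, 3), (0, 0)],
    [(5, 0), (1, 4), (1, 0)],
    [(2, 0), (6, 0), (6, 5)],
    [(3, 0), (7, 0), (7, 6)],
    [(7, 7), (4, 8), (4, 0)],
    [(6, 9), (5, 10), (5, 0)]]⟩

def tetLat3 : List LatE :=
  [⟨⟨⟨2, 0, 0⟩, ⟨-1, 1, 0⟩, ⟨-1, 0, 1⟩⟩, 2, ⟨⟨0, 0, 0⟩, ⟨0, 0, 0⟩, ⟨0, 0, 0⟩⟩⟩]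

def tetRow4 : Row :=
  ⟨[⟨⟨-1, 0, 0⟩, ⟨0, 1, 0⟩, ⟨0, 0, -1⟩⟩], ⟨⟨0, 1, 0⟩, ⟨1, 0, 0⟩, ⟨0, 0, -1⟩⟩, ⟨⟨0, 1, 0⟩, ⟨1, 0, 0⟩, ⟨0, 0, -1⟩⟩, 2,
   [⟨⟨⟨1, 0, 0⟩, ⟨0, 1, 0⟩, ⟨0, 0, 1⟩⟩, ⟨⟨0, 0, 0⟩, ⟨0, 0, 0⟩, ⟨0, 0, 0⟩⟩⟩,
    ⟨⟨⟨-1, 0, 0⟩, ⟨0, 1, 0⟩, ⟨0, 0, -1⟩⟩, ⟨⟨0, 0, 0⟩, ⟨0, 0, 0⟩, ⟨0, 0, 0⟩⟩⟩,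
    ⟨⟨⟨0, 1, 0⟩, ⟨1, 0, 0⟩, ⟨0, 0, -1⟩⟩, ⟨⟨1, 0, 0⟩, ⟨0, 1, 0⟩, ⟨0, 0, 1⟩⟩⟩,
    ⟨⟨⟨0, -1, 0⟩, ⟨1, 0, 0⟩, ⟨0, 0, 1⟩⟩, ⟨⟨-1, 0, 0⟩, ⟨0, 1, 0⟩, ⟨0, 0, -1⟩⟩⟩,
    ⟨⟨⟨0, 1, 0⟩, ⟨-1, 0, 0⟩, ⟨0, 0, 1⟩⟩, ⟨⟨1, 0, 0⟩, ⟨0, 1, 0⟩, ⟨0, 0, 1⟩⟩⟩,
    ⟨⟨⟨0, -1, 0⟩, ⟨-1, 0, 0⟩, ⟨0, 0, -1⟩⟩, ⟨⟨-1, 0, 0⟩, ⟨0, 1, 0⟩, ⟨0, 0, -1⟩⟩⟩,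
    ⟨⟨⟨1, 0, 0⟩, ⟨0, -1, 0⟩, ⟨0, 0, -1⟩⟩, ⟨⟨1, 1, 0⟩, ⟨-1, 1, 0⟩, ⟨0, 0, 2⟩⟩⟩,
    ⟨⟨⟨-1, 0, 0⟩, ⟨0, -1, 0⟩, ⟨0, 0, 1⟩⟩, ⟨⟨-1, -1, 0⟩, ⟨-1, 1, 0⟩, ⟨0, 0, -2⟩⟩⟩],
   [(0, 0), (0, 1), (1, 1), (2, 0), (3, 0), (4, 1), (5, 1)],
   [⟨⟨0, 0, 0⟩, ⟨0, 0, 0⟩, ⟨0, 0, 0⟩⟩,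
    ⟨⟨-1, -1, 0⟩, ⟨-1, -1, 0⟩, ⟨0, 0, 0⟩⟩,
    ⟨⟨1, 1, 0⟩, ⟨-1, -1, 0⟩, ⟨0, 0, 0⟩⟩,
    ⟨⟨1, 1, 0⟩, ⟨1, 1, 0⟩, ⟨0, 0, 0⟩⟩,
    ⟨⟨-1, -1, 0⟩, ⟨1, 1, 0⟩, ⟨0, 0, 0⟩⟩,
    ⟨⟨2, 2, 0⟩, ⟨0, 0, 0⟩, ⟨0, 0, 4⟩⟩,
    ⟨⟨-2, -2, 0⟩, ⟨0, 0, 0⟩, ⟨0, 0, -4⟩⟩],
   [[(1, 0), (2, 0), (2, 1)],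
    [(0, 0), (3, 0), (3, 2)],
    [(4, 0), (0, 3), (0, 0)],
    [(5, 0), (1, 4), (1, 0)],
    [(2, 0), (6, 0), (6, 4)],
    [(3, 0), (7, 0), (7, 3)],
    [(7, 5), (4, 2), (4, 0)],
    [(6, 6), (5, 1), (5, 0)]]⟩

def tetLat4 : List LatE :=
  [⟨⟨⟨2, 0, 0⟩, ⟨-1, 1, 0⟩, ⟨0, 0, 2⟩⟩, 2, ⟨⟨0, 0, 0⟩, ⟨0, 0, 0⟩, ⟨0, 0, 0⟩⟩⟩]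

def tetRow5 : Row :=
  ⟨[⟨⟨-1, 0, 0⟩, ⟨0, 1, 0⟩, ⟨0, 0, 1⟩⟩], ⟨⟨0, 1, 0⟩, ⟨1, 0, 0⟩, ⟨0, 0, 1⟩⟩, ⟨⟨0, 1, 0⟩, ⟨1, 0, 0⟩, ⟨0, 0, 1⟩⟩, 2,
   [⟨⟨⟨1, 0, 0⟩, ⟨0, 1, 0⟩, ⟨0, 0, 1⟩⟩, ⟨⟨0, 0, 0⟩, ⟨0, 0, 0⟩, ⟨0, 0, 0⟩⟩⟩,
    ⟨⟨⟨-1, 0, 0⟩, ⟨0, 1, 0⟩, ⟨0, 0, 1⟩⟩, ⟨⟨0, 0, 0⟩, ⟨0, 0, 0⟩, ⟨0, 0, 0⟩⟩⟩,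
    ⟨⟨⟨0, 1, 0⟩, ⟨1, 0, 0⟩, ⟨0, 0, 1⟩⟩, ⟨⟨1, 0, 0⟩, ⟨0, 1, 0⟩, ⟨0, 0, 1⟩⟩⟩,
    ⟨⟨⟨0, -1, 0⟩, ⟨1, 0, 0⟩, ⟨0, 0, 1⟩⟩, ⟨⟨-1, 0, 0⟩, ⟨0, 1, 0⟩, ⟨0, 0, 1⟩⟩⟩,
    ⟨⟨⟨0, 1, 0⟩, ⟨-1, 0, 0⟩, ⟨0, 0, 1⟩⟩, ⟨⟨1, 0, 0⟩, ⟨0, 1, 0⟩, ⟨0, 0, 1⟩⟩⟩,
    ⟨⟨⟨0, -1, 0⟩, ⟨-1, 0, 0⟩, ⟨0, 0, 1⟩⟩, ⟨⟨-1, 0, 0⟩, ⟨0, 1, 0⟩, ⟨0, 0, 1⟩⟩⟩,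
    ⟨⟨⟨1, 0, 0⟩, ⟨0, -1, 0⟩, ⟨0, 0, 1⟩⟩, ⟨⟨1, 1, 0⟩, ⟨-1, 1, 0⟩, ⟨0, 0, 2⟩⟩⟩,
    ⟨⟨⟨-1, 0, 0⟩, ⟨0, -1, 0⟩, ⟨0, 0, 1⟩⟩, ⟨⟨-1, -1, 0⟩, ⟨-1, 1, 0⟩, ⟨0, 0, 2⟩⟩⟩],
   [(0, 0), (0, 1), (1, 1), (2, 0), (3, 0), (4, 1), (5, 1)],
   [⟨⟨0, 0, 0⟩, ⟨0, 0, 0⟩, ⟨0, 0, 0⟩⟩,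
    ⟨⟨-1, -1, 0⟩, ⟨-1, -1, 0⟩, ⟨0, 0, -2⟩⟩,
    ⟨⟨1, 1, 0⟩, ⟨-1, -1, 0⟩, ⟨0, 0, -2⟩⟩,
    ⟨⟨1, 1, 0⟩, ⟨1, 1, 0⟩, ⟨0, 0, 2⟩⟩,
    ⟨⟨-1, -1, 0⟩, ⟨1, 1, 0⟩, ⟨0, 0, 2⟩⟩,
    ⟨⟨-1, -1, 0⟩, ⟨1, 1, 0⟩, ⟨0, 0, -2⟩⟩,
    ⟨⟨1, 1, 0⟩, ⟨1, 1, 0⟩, ⟨0, 0, -2⟩⟩,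
    ⟨⟨2, 2, 0⟩, ⟨0, 0, 0⟩, ⟨0, 0, 0⟩⟩,
    ⟨⟨1, 1, 0⟩, ⟨-1, -1, 0⟩, ⟨0, 0, 2⟩⟩,
    ⟨⟨-2, -2, 0⟩, ⟨0, 0, 0⟩, ⟨0, 0, 0⟩⟩,
    ⟨⟨-1, -1, 0⟩, ⟨-1, -1, 0⟩, ⟨0, 0, 2⟩⟩],
   [[(1, 0), (2, 0), (2, 1)],
    [(0, 0), (3, 0), (3, 2)],
    [(4, 0), (0, 3), (0, 0)],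
    [(5, 0), (1, 4), (1, 0)],
    [(2, 0), (6, 0), (6, 5)],
    [(3, 0), (7, 0), (7, 6)],
    [(7, 7), (4, 8), (4, 0)],
    [(6, 9), (5, 10), (5, 0)]]⟩

def tetLat5 : List LatE :=
  [⟨⟨⟨2, 0, 0⟩, ⟨-1, 1, 0⟩, ⟨-1, 0, 1⟩⟩, 2, ⟨⟨0, 0, 0⟩, ⟨0, 0, 0⟩, ⟨0, 0, 0⟩⟩⟩]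

def tetRow6 : Row :=
  ⟨[⟨⟨-1, 0, 0⟩, ⟨0, 1, 0⟩, ⟨0, 0, 1⟩⟩], ⟨⟨0, 1, 0⟩, ⟨1, 0, 0⟩, ⟨0, 0, -1⟩⟩, ⟨⟨0, 1, 0⟩, ⟨1, 0, 0⟩, ⟨0, 0, -1⟩⟩, 2,
   [⟨⟨⟨1, 0, 0⟩, ⟨0, 1, 0⟩, ⟨0, 0, 1⟩⟩, ⟨⟨0, 0, 0⟩, ⟨0, 0, 0⟩, ⟨0, 0, 0⟩⟩⟩,
    ⟨⟨⟨-1, 0, 0⟩, ⟨0, 1, 0⟩, ⟨0, 0, 1⟩⟩, ⟨⟨0, 0, 0⟩, ⟨0, 0, 0⟩, ⟨0, 0, 0⟩⟩⟩,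
    ⟨⟨⟨0, 1, 0⟩, ⟨1, 0, 0⟩, ⟨0, 0, -1⟩⟩, ⟨⟨1, 0, 0⟩, ⟨0, 1, 0⟩, ⟨0, 0, 1⟩⟩⟩,
    ⟨⟨⟨0, -1, 0⟩, ⟨1, 0, 0⟩, ⟨0, 0, -1⟩⟩, ⟨⟨-1, 0, 0⟩, ⟨0, 1, 0⟩, ⟨0, 0, 1⟩⟩⟩,
    ⟨⟨⟨0, 1, 0⟩, ⟨-1, 0, 0⟩, ⟨0, 0, -1⟩⟩, ⟨⟨1, 0, 0⟩, ⟨0, 1, 0⟩, ⟨0, 0, 1⟩⟩⟩,
    ⟨⟨⟨0, -1, 0⟩, ⟨-1, 0, 0⟩, ⟨0, 0, -1⟩⟩, ⟨⟨-1, 0, 0⟩, ⟨0, 1, 0⟩, ⟨0, 0, 1⟩⟩⟩,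
    ⟨⟨⟨1, 0, 0⟩, ⟨0, -1, 0⟩, ⟨0, 0, 1⟩⟩, ⟨⟨1, 1, 0⟩, ⟨-1, 1, 0⟩, ⟨0, 0, 0⟩⟩⟩,
    ⟨⟨⟨-1, 0, 0⟩, ⟨0, -1, 0⟩, ⟨0, 0, 1⟩⟩, ⟨⟨-1, -1, 0⟩, ⟨-1, 1, 0⟩, ⟨0, 0, 0⟩⟩⟩],
   [(0, 0), (0, 1), (1, 1), (2, 0), (3, 0), (4, 1), (5, 1)],
   [⟨⟨0, 0, 0⟩, ⟨0, 0, 0⟩, ⟨0, 0, 0⟩⟩,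
    ⟨⟨-1, -1, 0⟩, ⟨-1, -1, 0⟩, ⟨0, 0, 0⟩⟩,
    ⟨⟨1, 1, 0⟩, ⟨-1, -1, 0⟩, ⟨0, 0, 0⟩⟩,
    ⟨⟨1, 1, 0⟩, ⟨1, 1, 0⟩, ⟨0, 0, 0⟩⟩,
    ⟨⟨-1, -1, 0⟩, ⟨1, 1, 0⟩, ⟨0, 0, 0⟩⟩,
    ⟨⟨2, 2, 0⟩, ⟨0, 0, 0⟩, ⟨0, 0, 0⟩⟩,
    ⟨⟨-2, -2, 0⟩, ⟨0, 0, 0⟩, ⟨0, 0, 0⟩⟩],
   [[(1, 0), (2, 0), (2, 1)],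
    [(0, 0), (3, 0), (3, 2)],
    [(4, 0), (0, 3), (0, 0)],
    [(5, 0), (1, 4), (1, 0)],
    [(2, 0), (6, 0), (6, 4)],
    [(3, 0), (7, 0), (7, 3)],
    [(7, 5), (4, 2), (4, 0)],
    [(6, 6), (5, 1), (5, 0)]]⟩

def tetLat6 : List LatE :=
  [⟨⟨⟨2, 0, 0⟩, ⟨-1, 1, 0⟩, ⟨0, 0, 2⟩⟩, 2, ⟨⟨0, 0, 1⟩, ⟨0, 0, 0⟩, ⟨0, 0, 0⟩⟩⟩]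

def tetRow7 : Row :=
  ⟨[⟨⟨1, 0, 0⟩, ⟨0, 1, 0⟩, ⟨0, 0, -1⟩⟩], ⟨⟨0, 1, 0⟩, ⟨-1, 0, 0⟩, ⟨0, 0, 1⟩⟩, ⟨⟨0, -1, 0⟩, ⟨1, 0, 0⟩, ⟨0, 0, 1⟩⟩, 2,
   [⟨⟨⟨1, 0, 0⟩, ⟨0, 1, 0⟩, ⟨0, 0, 1⟩⟩, ⟨⟨0, 0, 0⟩, ⟨0, 0, 0⟩, ⟨0, 0, 0⟩⟩⟩,
    ⟨⟨⟨1, 0, 0⟩, ⟨0, 1, 0⟩, ⟨0, 0, -1⟩⟩, ⟨⟨0, 0, 0⟩, ⟨0, 0, 0⟩, ⟨0, 0, 0⟩⟩⟩,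
    ⟨⟨⟨0, 1, 0⟩, ⟨-1, 0, 0⟩, ⟨0, 0, 1⟩⟩, ⟨⟨1, 0, 0⟩, ⟨0, 1, 0⟩, ⟨0, 0, 1⟩⟩⟩,
    ⟨⟨⟨0, -1, 0⟩, ⟨1, 0, 0⟩, ⟨0, 0, 1⟩⟩, ⟨⟨0, 1, 0⟩, ⟨-1, 0, 0⟩, ⟨0, 0, -1⟩⟩⟩,
    ⟨⟨⟨0, 1, 0⟩, ⟨-1, 0, 0⟩, ⟨0, 0, -1⟩⟩, ⟨⟨1, 0, 0⟩, ⟨0, 1, 0⟩, ⟨0, 0, -1⟩⟩⟩,
    ⟨⟨⟨0, -1, 0⟩, ⟨1, 0, 0⟩, ⟨0, 0, -1⟩⟩, ⟨⟨0, 1, 0⟩, ⟨-1, 0, 0⟩, ⟨0, 0, 1⟩⟩⟩,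
    ⟨⟨⟨-1, 0, 0⟩, ⟨0, -1, 0⟩, ⟨0, 0, 1⟩⟩, ⟨⟨1, 1, 0⟩, ⟨-1, 1, 0⟩, ⟨0, 0, 2⟩⟩⟩,
    ⟨⟨⟨-1, 0, 0⟩, ⟨0, -1, 0⟩, ⟨0, 0, -1⟩⟩, ⟨⟨1, 1, 0⟩, ⟨-1, 1, 0⟩, ⟨0, 0, -2⟩⟩⟩],
   [(0, 0), (0, 1), (0, 2), (1, 1), (1, 2), (2, 1), (4, 1)],
   [⟨⟨0, 0, 0⟩, ⟨0, 0, 0⟩, ⟨0, 0, 0⟩⟩,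
    ⟨⟨0, 0, 0⟩, ⟨0, 0, 0⟩, ⟨0, 0, 2⟩⟩,
    ⟨⟨0, 0, 0⟩, ⟨0, 0, 0⟩, ⟨0, 0, -2⟩⟩,
    ⟨⟨0, 0, 0⟩, ⟨0, 0, 0⟩, ⟨0, 0, -4⟩⟩,
    ⟨⟨0, 0, 0⟩, ⟨0, 0, 0⟩, ⟨0, 0, 4⟩⟩],
   [[(1, 0), (2, 0), (3, 0)],
    [(0, 0), (4, 0), (5, 0)],
    [(4, 1), (6, 0), (0, 0)],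
    [(5, 2), (0, 0), (6, 3)],
    [(2, 2), (7, 0), (1, 0)],
    [(3, 1), (1, 0), (7, 4)],
    [(7, 4), (3, 4), (2, 0)],
    [(6, 3), (5, 3), (4, 0)]]⟩

def tetLat7 : List LatE :=
  []

def tetRow8 : Row :=
  ⟨[⟨⟨0, 1, 0⟩, ⟨-1, 0, 0⟩, ⟨0, 0, -1⟩⟩], ⟨⟨1, 0, 0⟩, ⟨0, 1, 0⟩, ⟨0, 0, 1⟩⟩, ⟨⟨1, 0, 0⟩, ⟨0, 1, 0⟩, ⟨0, 0, 1⟩⟩, 4,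
   [⟨⟨⟨1, 0, 0⟩, ⟨0, 1, 0⟩, ⟨0, 0, 1⟩⟩, ⟨⟨0, 0, 0⟩, ⟨0, 0, 0⟩, ⟨0, 0, 0⟩⟩⟩,
    ⟨⟨⟨0, 1, 0⟩, ⟨-1, 0, 0⟩, ⟨0, 0, -1⟩⟩, ⟨⟨0, 0, 0⟩, ⟨0, 0, 0⟩, ⟨0, 0, 0⟩⟩⟩,
    ⟨⟨⟨-1, 0, 0⟩, ⟨0, -1, 0⟩, ⟨0, 0, 1⟩⟩, ⟨⟨0, 0, 0⟩, ⟨0, 0, 0⟩, ⟨0, 0, 0⟩⟩⟩,
    ⟨⟨⟨0, -1, 0⟩, ⟨1, 0, 0⟩, ⟨0, 0, -1⟩⟩, ⟨⟨0, 0, 0⟩, ⟨0, 0, 0⟩, ⟨0, 0, 0⟩⟩⟩],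
   [(0, 0), (1, 0), (2, 0)],
   [⟨⟨0, 0, 0⟩, ⟨0, 0, 0⟩, ⟨0, 0, 0⟩⟩,
    ⟨⟨1, 0, 0⟩, ⟨0, 1, 0⟩, ⟨0, 0, 1⟩⟩,
    ⟨⟨-1, 0, 0⟩, ⟨0, -1, 0⟩, ⟨0, 0, -1⟩⟩,
    ⟨⟨0, 1, 0⟩, ⟨-1, 0, 0⟩, ⟨0, 0, -1⟩⟩,
    ⟨⟨0, -1, 0⟩, ⟨1, 0, 0⟩, ⟨0, 0, 1⟩⟩,
    ⟨⟨-1, 0, 0⟩, ⟨0, -1, 0⟩, ⟨0, 0, 1⟩⟩,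
    ⟨⟨1, 0, 0⟩, ⟨0, 1, 0⟩, ⟨0, 0, -1⟩⟩,
    ⟨⟨0, -1, 0⟩, ⟨1, 0, 0⟩, ⟨0, 0, -1⟩⟩,
    ⟨⟨0, 1, 0⟩, ⟨-1, 0, 0⟩, ⟨0, 0, 1⟩⟩],
   [[(1, 0), (0, 1), (0, 2)],
    [(2, 0), (1, 3), (1, 4)],
    [(3, 0), (2, 5), (2, 6)],
    [(0, 0), (3, 7), (3, 8)]]⟩

def tetLat8 : List LatE :=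
  [⟨⟨⟨2, 0, 0⟩, ⟨0, 2, 0⟩, ⟨-1, -1, 1⟩⟩, 2, ⟨⟨0, 0, 0⟩, ⟨0, 0, 0⟩, ⟨0, 0, 0⟩⟩⟩]

def tetRow9 : Row :=
  ⟨[⟨⟨0, 1, 0⟩, ⟨-1, 0, 0⟩, ⟨0, 0, -1⟩⟩], ⟨⟨1, 0, 0⟩, ⟨0, 1, 0⟩, ⟨0, 0, -1⟩⟩, ⟨⟨1, 0, 0⟩, ⟨0, 1, 0⟩, ⟨0, 0, -1⟩⟩, 4,
   [⟨⟨⟨1, 0, 0⟩, ⟨0, 1, 0⟩, ⟨0, 0, 1⟩⟩, ⟨⟨0, 0, 0⟩, ⟨0, 0, 0⟩, ⟨0, 0, 0⟩⟩⟩,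
    ⟨⟨⟨0, 1, 0⟩, ⟨-1, 0, 0⟩, ⟨0, 0, -1⟩⟩, ⟨⟨0, 0, 0⟩, ⟨0, 0, 0⟩, ⟨0, 0, 0⟩⟩⟩,
    ⟨⟨⟨-1, 0, 0⟩, ⟨0, -1, 0⟩, ⟨0, 0, 1⟩⟩, ⟨⟨0, 0, 0⟩, ⟨0, 0, 0⟩, ⟨0, 0, 0⟩⟩⟩,
    ⟨⟨⟨0, -1, 0⟩, ⟨1, 0, 0⟩, ⟨0, 0, -1⟩⟩, ⟨⟨0, 0, 0⟩, ⟨0, 0, 0⟩, ⟨0, 0, 0⟩⟩⟩,
    ⟨⟨⟨1, 0, 0⟩, ⟨0, 1, 0⟩, ⟨0, 0, -1⟩⟩, ⟨⟨1, 0, 0⟩, ⟨0, 1, 0⟩, ⟨0, 0, 1⟩⟩⟩,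
    ⟨⟨⟨0, 1, 0⟩, ⟨-1, 0, 0⟩, ⟨0, 0, 1⟩⟩, ⟨⟨0, 1, 0⟩, ⟨-1, 0, 0⟩, ⟨0, 0, -1⟩⟩⟩,
    ⟨⟨⟨-1, 0, 0⟩, ⟨0, -1, 0⟩, ⟨0, 0, -1⟩⟩, ⟨⟨-1, 0, 0⟩, ⟨0, -1, 0⟩, ⟨0, 0, 1⟩⟩⟩,
    ⟨⟨⟨0, -1, 0⟩, ⟨1, 0, 0⟩, ⟨0, 0, 1⟩⟩, ⟨⟨0, -1, 0⟩, ⟨1, 0, 0⟩, ⟨0, 0, -1⟩⟩⟩],
   [(0, 0), (1, 0), (2, 0), (0, 1), (1, 1), (2, 1), (3, 1)],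
   [⟨⟨0, 0, 0⟩, ⟨0, 0, 0⟩, ⟨0, 0, 0⟩⟩,
    ⟨⟨-2, 0, 0⟩, ⟨0, -2, 0⟩, ⟨0, 0, 0⟩⟩,
    ⟨⟨0, -2, 0⟩, ⟨2, 0, 0⟩, ⟨0, 0, 0⟩⟩,
    ⟨⟨2, 0, 0⟩, ⟨0, 2, 0⟩, ⟨0, 0, 0⟩⟩,
    ⟨⟨0, 2, 0⟩, ⟨-2, 0, 0⟩, ⟨0, 0, 0⟩⟩,
    ⟨⟨1, -1, 0⟩, ⟨1, 1, 0⟩, ⟨0, 0, 2⟩⟩,
    ⟨⟨1, 1, 0⟩, ⟨-1, 1, 0⟩, ⟨0, 0, -2⟩⟩,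
    ⟨⟨-1, 1, 0⟩, ⟨-1, -1, 0⟩, ⟨0, 0, 2⟩⟩,
    ⟨⟨-1, -1, 0⟩, ⟨1, -1, 0⟩, ⟨0, 0, -2⟩⟩],
   [[(1, 0), (4, 0), (4, 1)],
    [(2, 0), (5, 0), (5, 2)],
    [(3, 0), (6, 0), (6, 3)],
    [(0, 0), (7, 0), (7, 4)],
    [(5, 5), (0, 3), (0, 0)],
    [(6, 6), (1, 4), (1, 0)],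
    [(7, 7), (2, 1), (2, 0)],
    [(4, 8), (3, 2), (3, 0)]]⟩

def tetLat9 : List LatE :=
  [⟨⟨⟨2, 0, 0⟩, ⟨-1, 1, 0⟩, ⟨-1, 0, 1⟩⟩, 2, ⟨⟨0, 0, 0⟩, ⟨0, 0, 0⟩, ⟨0, 0, 0⟩⟩⟩]

def tetRow10 : Row :=
  ⟨[⟨⟨0, 1, 0⟩, ⟨-1, 0, 0⟩, ⟨0, 0, -1⟩⟩], ⟨⟨1, 0, 0⟩, ⟨0, -1, 0⟩, ⟨0, 0, 1⟩⟩, ⟨⟨1, 0, 0⟩, ⟨0, -1, 0⟩, ⟨0, 0, 1⟩⟩, 4,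
   [⟨⟨⟨1, 0, 0⟩, ⟨0, 1, 0⟩, ⟨0, 0, 1⟩⟩, ⟨⟨0, 0, 0⟩, ⟨0, 0, 0⟩, ⟨0, 0, 0⟩⟩⟩,
    ⟨⟨⟨0, 1, 0⟩, ⟨-1, 0, 0⟩, ⟨0, 0, -1⟩⟩, ⟨⟨0, 0, 0⟩, ⟨0, 0, 0⟩, ⟨0, 0, 0⟩⟩⟩,
    ⟨⟨⟨-1, 0, 0⟩, ⟨0, -1, 0⟩, ⟨0, 0, 1⟩⟩, ⟨⟨0, 0, 0⟩, ⟨0, 0, 0⟩, ⟨0, 0, 0⟩⟩⟩,
    ⟨⟨⟨0, -1, 0⟩, ⟨1, 0, 0⟩, ⟨0, 0, -1⟩⟩, ⟨⟨0, 0, 0⟩, ⟨0, 0, 0⟩, ⟨0, 0, 0⟩⟩⟩,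
    ⟨⟨⟨1, 0, 0⟩, ⟨0, -1, 0⟩, ⟨0, 0, 1⟩⟩, ⟨⟨1, 0, 0⟩, ⟨0, 1, 0⟩, ⟨0, 0, 1⟩⟩⟩,
    ⟨⟨⟨0, -1, 0⟩, ⟨-1, 0, 0⟩, ⟨0, 0, -1⟩⟩, ⟨⟨0, 1, 0⟩, ⟨-1, 0, 0⟩, ⟨0, 0, -1⟩⟩⟩,
    ⟨⟨⟨-1, 0, 0⟩, ⟨0, 1, 0⟩, ⟨0, 0, 1⟩⟩, ⟨⟨-1, 0, 0⟩, ⟨0, -1, 0⟩, ⟨0, 0, 1⟩⟩⟩,
    ⟨⟨⟨0, 1, 0⟩, ⟨1, 0, 0⟩, ⟨0, 0, -1⟩⟩, ⟨⟨0, -1, 0⟩, ⟨1, 0, 0⟩, ⟨0, 0, -1⟩⟩⟩],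
   [(0, 0), (1, 0), (2, 0), (0, 1), (1, 1), (2, 1), (3, 1)],
   [⟨⟨0, 0, 0⟩, ⟨0, 0, 0⟩, ⟨0, 0, 0⟩⟩,
    ⟨⟨-2, 0, 0⟩, ⟨0, 0, 0⟩, ⟨0, 0, -2⟩⟩,
    ⟨⟨0, 0, 0⟩, ⟨2, 0, 0⟩, ⟨0, 0, 2⟩⟩,
    ⟨⟨2, 0, 0⟩, ⟨0, 0, 0⟩, ⟨0, 0, -2⟩⟩,
    ⟨⟨0, 0, 0⟩, ⟨-2, 0, 0⟩, ⟨0, 0, 2⟩⟩,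
    ⟨⟨1, 1, 0⟩, ⟨-1, 1, 0⟩, ⟨0, 0, 2⟩⟩,
    ⟨⟨2, 0, 0⟩, ⟨0, 0, 0⟩, ⟨0, 0, 2⟩⟩,
    ⟨⟨-1, 1, 0⟩, ⟨-1, -1, 0⟩, ⟨0, 0, -2⟩⟩,
    ⟨⟨0, 0, 0⟩, ⟨-2, 0, 0⟩, ⟨0, 0, -2⟩⟩,
    ⟨⟨-1, -1, 0⟩, ⟨1, -1, 0⟩, ⟨0, 0, 2⟩⟩,
    ⟨⟨-2, 0, 0⟩, ⟨0, 0, 0⟩, ⟨0, 0, 2⟩⟩,
    ⟨⟨1, -1, 0⟩, ⟨1, 1, 0⟩, ⟨0, 0, -2⟩⟩,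
    ⟨⟨0, 0, 0⟩, ⟨2, 0, 0⟩, ⟨0, 0, -2⟩⟩],
   [[(1, 0), (4, 0), (4, 1)],
    [(2, 0), (5, 0), (5, 2)],
    [(3, 0), (6, 0), (6, 3)],
    [(0, 0), (7, 0), (7, 4)],
    [(7, 5), (0, 6), (0, 0)],
    [(4, 7), (1, 8), (1, 0)],
    [(5, 9), (2, 10), (2, 0)],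
    [(6, 11), (3, 12), (3, 0)]]⟩

def tetLat10 : List LatE :=
  [⟨⟨⟨1, 0, 0⟩, ⟨0, 1, 0⟩, ⟨0, 0, 1⟩⟩, 1, ⟨⟨0, 0, 0⟩, ⟨0, 0, 0⟩, ⟨0, 0, 0⟩⟩⟩]

def tetRow11 : Row :=
  ⟨[⟨⟨0, 1, 0⟩, ⟨-1, 0, 0⟩, ⟨0, 0, 1⟩⟩], ⟨⟨1, 0, 0⟩, ⟨0, 1, 0⟩, ⟨0, 0, 1⟩⟩, ⟨⟨1, 0, 0⟩, ⟨0, 1, 0⟩, ⟨0, 0, 1⟩⟩, 4,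
   [⟨⟨⟨1, 0, 0⟩, ⟨0, 1, 0⟩, ⟨0, 0, 1⟩⟩, ⟨⟨0, 0, 0⟩, ⟨0, 0, 0⟩, ⟨0, 0, 0⟩⟩⟩,
    ⟨⟨⟨0, 1, 0⟩, ⟨-1, 0, 0⟩, ⟨0, 0, 1⟩⟩, ⟨⟨0, 0, 0⟩, ⟨0, 0, 0⟩, ⟨0, 0, 0⟩⟩⟩,
    ⟨⟨⟨-1, 0, 0⟩, ⟨0, -1, 0⟩, ⟨0, 0, 1⟩⟩, ⟨⟨0, 0, 0⟩, ⟨0, 0, 0⟩, ⟨0, 0, 0⟩⟩⟩,
    ⟨⟨⟨0, -1, 0⟩, ⟨1, 0, 0⟩, ⟨0, 0, 1⟩⟩, ⟨⟨0, 0, 0⟩, ⟨0, 0, 0⟩, ⟨0, 0, 0⟩⟩⟩],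
   [(0, 0), (1, 0), (2, 0)],
   [⟨⟨0, 0, 0⟩, ⟨0, 0, 0⟩, ⟨0, 0, 0⟩⟩,
    ⟨⟨1, 0, 0⟩, ⟨0, 1, 0⟩, ⟨0, 0, 1⟩⟩,
    ⟨⟨-1, 0, 0⟩, ⟨0, -1, 0⟩, ⟨0, 0, -1⟩⟩,
    ⟨⟨0, 1, 0⟩, ⟨-1, 0, 0⟩, ⟨0, 0, 1⟩⟩,
    ⟨⟨0, -1, 0⟩, ⟨1, 0, 0⟩, ⟨0, 0, -1⟩⟩,
    ⟨⟨-1, 0, 0⟩, ⟨0, -1, 0⟩, ⟨0, 0, 1⟩⟩,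
    ⟨⟨1, 0, 0⟩, ⟨0, 1, 0⟩, ⟨0, 0, -1⟩⟩,
    ⟨⟨0, -1, 0⟩, ⟨1, 0, 0⟩, ⟨0, 0, 1⟩⟩,
    ⟨⟨0, 1, 0⟩, ⟨-1, 0, 0⟩, ⟨0, 0, -1⟩⟩],
   [[(1, 0), (0, 1), (0, 2)],
    [(2, 0), (1, 3), (1, 4)],
    [(3, 0), (2, 5), (2, 6)],
    [(0, 0), (3, 7), (3, 8)]]⟩

def tetLat11 : List LatE :=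
  [⟨⟨⟨2, 0, 0⟩, ⟨0, 2, 0⟩, ⟨-1, -1, 1⟩⟩, 2, ⟨⟨0, 0, 0⟩, ⟨0, 0, 0⟩, ⟨0, 0, 0⟩⟩⟩]

def tetRow12 : Row :=
  ⟨[⟨⟨0, 1, 0⟩, ⟨-1, 0, 0⟩, ⟨0, 0, 1⟩⟩], ⟨⟨1, 0, 0⟩, ⟨0, 1, 0⟩, ⟨0, 0, -1⟩⟩, ⟨⟨1, 0, 0⟩, ⟨0, 1, 0⟩, ⟨0, 0, -1⟩⟩, 4,
   [⟨⟨⟨1, 0, 0⟩, ⟨0, 1, 0⟩, ⟨0, 0, 1⟩⟩, ⟨⟨0, 0, 0⟩, ⟨0, 0, 0⟩, ⟨0, 0, 0⟩⟩⟩,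
    ⟨⟨⟨0, 1, 0⟩, ⟨-1, 0, 0⟩, ⟨0, 0, 1⟩⟩, ⟨⟨0, 0, 0⟩, ⟨0, 0, 0⟩, ⟨0, 0, 0⟩⟩⟩,
    ⟨⟨⟨-1, 0, 0⟩, ⟨0, -1, 0⟩, ⟨0, 0, 1⟩⟩, ⟨⟨0, 0, 0⟩, ⟨0, 0, 0⟩, ⟨0, 0, 0⟩⟩⟩,
    ⟨⟨⟨0, -1, 0⟩, ⟨1, 0, 0⟩, ⟨0, 0, 1⟩⟩, ⟨⟨0, 0, 0⟩, ⟨0, 0, 0⟩, ⟨0, 0, 0⟩⟩⟩,
    ⟨⟨⟨1, 0, 0⟩, ⟨0, 1, 0⟩, ⟨0, 0, -1⟩⟩, ⟨⟨1, 0, 0⟩, ⟨0, 1, 0⟩, ⟨0, 0, 1⟩⟩⟩,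
    ⟨⟨⟨0, 1, 0⟩, ⟨-1, 0, 0⟩, ⟨0, 0, -1⟩⟩, ⟨⟨0, 1, 0⟩, ⟨-1, 0, 0⟩, ⟨0, 0, 1⟩⟩⟩,
    ⟨⟨⟨-1, 0, 0⟩, ⟨0, -1, 0⟩, ⟨0, 0, -1⟩⟩, ⟨⟨-1, 0, 0⟩, ⟨0, -1, 0⟩, ⟨0, 0, 1⟩⟩⟩,
    ⟨⟨⟨0, -1, 0⟩, ⟨1, 0, 0⟩, ⟨0, 0, -1⟩⟩, ⟨⟨0, -1, 0⟩, ⟨1, 0, 0⟩, ⟨0, 0, 1⟩⟩⟩],
   [(0, 0), (1, 0), (2, 0), (0, 1), (1, 1), (2, 1), (3, 1)],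
   [⟨⟨0, 0, 0⟩, ⟨0, 0, 0⟩, ⟨0, 0, 0⟩⟩,
    ⟨⟨-2, 0, 0⟩, ⟨0, -2, 0⟩, ⟨0, 0, 0⟩⟩,
    ⟨⟨0, -2, 0⟩, ⟨2, 0, 0⟩, ⟨0, 0, 0⟩⟩,
    ⟨⟨2, 0, 0⟩, ⟨0, 2, 0⟩, ⟨0, 0, 0⟩⟩,
    ⟨⟨0, 2, 0⟩, ⟨-2, 0, 0⟩, ⟨0, 0, 0⟩⟩,
    ⟨⟨1, -1, 0⟩, ⟨1, 1, 0⟩, ⟨0, 0, 0⟩⟩,
    ⟨⟨1, 1, 0⟩, ⟨-1, 1, 0⟩, ⟨0, 0, 0⟩⟩,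
    ⟨⟨-1, 1, 0⟩, ⟨-1, -1, 0⟩, ⟨0, 0, 0⟩⟩,
    ⟨⟨-1, -1, 0⟩, ⟨1, -1, 0⟩, ⟨0, 0, 0⟩⟩],
   [[(1, 0), (4, 0), (4, 1)],
    [(2, 0), (5, 0), (5, 2)],
    [(3, 0), (6, 0), (6, 3)],
    [(0, 0), (7, 0), (7, 4)],
    [(5, 5), (0, 3), (0, 0)],
    [(6, 6), (1, 4), (1, 0)],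
    [(7, 7), (2, 1), (2, 0)],
    [(4, 8), (3, 2), (3, 0)]]⟩

def tetLat12 : List LatE :=
  [⟨⟨⟨2, 0, 0⟩, ⟨-1, 1, 0⟩, ⟨0, 0, 2⟩⟩, 2, ⟨⟨0, 0, 1⟩, ⟨0, 0, 0⟩, ⟨0, 0, 0⟩⟩⟩]

def tetRow13 : Row :=
  ⟨[⟨⟨0, 1, 0⟩, ⟨-1, 0, 0⟩, ⟨0, 0, 1⟩⟩], ⟨⟨1, 0, 0⟩, ⟨0, -1, 0⟩, ⟨0, 0, 1⟩⟩, ⟨⟨1, 0, 0⟩, ⟨0, -1, 0⟩, ⟨0, 0, 1⟩⟩, 4,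
   [⟨⟨⟨1, 0, 0⟩, ⟨0, 1, 0⟩, ⟨0, 0, 1⟩⟩, ⟨⟨0, 0, 0⟩, ⟨0, 0, 0⟩, ⟨0, 0, 0⟩⟩⟩,
    ⟨⟨⟨0, 1, 0⟩, ⟨-1, 0, 0⟩, ⟨0, 0, 1⟩⟩, ⟨⟨0, 0, 0⟩, ⟨0, 0, 0⟩, ⟨0, 0, 0⟩⟩⟩,
    ⟨⟨⟨-1, 0, 0⟩, ⟨0, -1, 0⟩, ⟨0, 0, 1⟩⟩, ⟨⟨0, 0, 0⟩, ⟨0, 0, 0⟩, ⟨0, 0, 0⟩⟩⟩,
    ⟨⟨⟨0, -1, 0⟩, ⟨1, 0, 0⟩, ⟨0, 0, 1⟩⟩, ⟨⟨0, 0, 0⟩, ⟨0, 0, 0⟩, ⟨0, 0, 0⟩⟩⟩,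
    ⟨⟨⟨1, 0, 0⟩, ⟨0, -1, 0⟩, ⟨0, 0, 1⟩⟩, ⟨⟨1, 0, 0⟩, ⟨0, 1, 0⟩, ⟨0, 0, 1⟩⟩⟩,
    ⟨⟨⟨0, -1, 0⟩, ⟨-1, 0, 0⟩, ⟨0, 0, 1⟩⟩, ⟨⟨0, 1, 0⟩, ⟨-1, 0, 0⟩, ⟨0, 0, 1⟩⟩⟩,
    ⟨⟨⟨-1, 0, 0⟩, ⟨0, 1, 0⟩, ⟨0, 0, 1⟩⟩, ⟨⟨-1, 0, 0⟩, ⟨0, -1, 0⟩, ⟨0, 0, 1⟩⟩⟩,
    ⟨⟨⟨0, 1, 0⟩, ⟨1, 0, 0⟩, ⟨0, 0, 1⟩⟩, ⟨⟨0, -1, 0⟩, ⟨1, 0, 0⟩, ⟨0, 0, 1⟩⟩⟩],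
   [(0, 0), (1, 0), (2, 0), (0, 1), (1, 1), (2, 1), (3, 1)],
   [⟨⟨0, 0, 0⟩, ⟨0, 0, 0⟩, ⟨0, 0, 0⟩⟩,
    ⟨⟨-2, 0, 0⟩, ⟨0, 0, 0⟩, ⟨0, 0, -2⟩⟩,
    ⟨⟨0, 0, 0⟩, ⟨2, 0, 0⟩, ⟨0, 0, -2⟩⟩,
    ⟨⟨2, 0, 0⟩, ⟨0, 0, 0⟩, ⟨0, 0, -2⟩⟩,
    ⟨⟨0, 0, 0⟩, ⟨-2, 0, 0⟩, ⟨0, 0, -2⟩⟩,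
    ⟨⟨1, 1, 0⟩, ⟨-1, 1, 0⟩, ⟨0, 0, 0⟩⟩,
    ⟨⟨2, 0, 0⟩, ⟨0, 0, 0⟩, ⟨0, 0, 2⟩⟩,
    ⟨⟨-1, 1, 0⟩, ⟨-1, -1, 0⟩, ⟨0, 0, 0⟩⟩,
    ⟨⟨0, 0, 0⟩, ⟨-2, 0, 0⟩, ⟨0, 0, 2⟩⟩,
    ⟨⟨-1, -1, 0⟩, ⟨1, -1, 0⟩, ⟨0, 0, 0⟩⟩,
    ⟨⟨-2, 0, 0⟩, ⟨0, 0, 0⟩, ⟨0, 0, 2⟩⟩,
    ⟨⟨1, -1, 0⟩, ⟨1, 1, 0⟩, ⟨0, 0, 0⟩⟩,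
    ⟨⟨0, 0, 0⟩, ⟨2, 0, 0⟩, ⟨0, 0, 2⟩⟩],
   [[(1, 0), (4, 0), (4, 1)],
    [(2, 0), (5, 0), (5, 2)],
    [(3, 0), (6, 0), (6, 3)],
    [(0, 0), (7, 0), (7, 4)],
    [(7, 5), (0, 6), (0, 0)],
    [(4, 7), (1, 8), (1, 0)],
    [(5, 9), (2, 10), (2, 0)],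
    [(6, 11), (3, 12), (3, 0)]]⟩

def tetLat13 : List LatE :=
  [⟨⟨⟨1, 0, 0⟩, ⟨0, 1, 0⟩, ⟨0, 0, 1⟩⟩, 1, ⟨⟨0, 0, 0⟩, ⟨0, 0, 0⟩, ⟨0, 0, 0⟩⟩⟩]

def tetRow14 : Row :=
  ⟨[⟨⟨0, 1, 0⟩, ⟨-1, 0, 0⟩, ⟨0, 0, 1⟩⟩], ⟨⟨1, 0, 0⟩, ⟨0, -1, 0⟩, ⟨0, 0, -1⟩⟩, ⟨⟨1, 0, 0⟩, ⟨0, -1, 0⟩, ⟨0, 0, -1⟩⟩, 4,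
   [⟨⟨⟨1, 0, 0⟩, ⟨0, 1, 0⟩, ⟨0, 0, 1⟩⟩, ⟨⟨0, 0, 0⟩, ⟨0, 0, 0⟩, ⟨0, 0, 0⟩⟩⟩,
    ⟨⟨⟨0, 1, 0⟩, ⟨-1, 0, 0⟩, ⟨0, 0, 1⟩⟩, ⟨⟨0, 0, 0⟩, ⟨0, 0, 0⟩, ⟨0, 0, 0⟩⟩⟩,
    ⟨⟨⟨-1, 0, 0⟩, ⟨0, -1, 0⟩, ⟨0, 0, 1⟩⟩, ⟨⟨0, 0, 0⟩, ⟨0, 0, 0⟩, ⟨0, 0, 0⟩⟩⟩,
    ⟨⟨⟨0, -1, 0⟩, ⟨1, 0, 0⟩, ⟨0, 0, 1⟩⟩, ⟨⟨0, 0, 0⟩, ⟨0, 0, 0⟩, ⟨0, 0, 0⟩⟩⟩,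
    ⟨⟨⟨1, 0, 0⟩, ⟨0, -1, 0⟩, ⟨0, 0, -1⟩⟩, ⟨⟨1, 0, 0⟩, ⟨0, 1, 0⟩, ⟨0, 0, 1⟩⟩⟩,
    ⟨⟨⟨0, -1, 0⟩, ⟨-1, 0, 0⟩, ⟨0, 0, -1⟩⟩, ⟨⟨0, 1, 0⟩, ⟨-1, 0, 0⟩, ⟨0, 0, 1⟩⟩⟩,
    ⟨⟨⟨-1, 0, 0⟩, ⟨0, 1, 0⟩, ⟨0, 0, -1⟩⟩, ⟨⟨-1, 0, 0⟩, ⟨0, -1, 0⟩, ⟨0, 0, 1⟩⟩⟩,
    ⟨⟨⟨0, 1, 0⟩, ⟨1, 0, 0⟩, ⟨0, 0, -1⟩⟩, ⟨⟨0, -1, 0⟩, ⟨1, 0, 0⟩, ⟨0, 0, 1⟩⟩⟩],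
   [(0, 0), (1, 0), (2, 0), (0, 1), (1, 1), (2, 1), (3, 1)],
   [⟨⟨0, 0, 0⟩, ⟨0, 0, 0⟩, ⟨0, 0, 0⟩⟩,
    ⟨⟨-2, 0, 0⟩, ⟨0, 0, 0⟩, ⟨0, 0, 0⟩⟩,
    ⟨⟨0, 0, 0⟩, ⟨2, 0, 0⟩, ⟨0, 0, 0⟩⟩,
    ⟨⟨2, 0, 0⟩, ⟨0, 0, 0⟩, ⟨0, 0, 0⟩⟩,
    ⟨⟨0, 0, 0⟩, ⟨-2, 0, 0⟩, ⟨0, 0, 0⟩⟩,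
    ⟨⟨1, 1, 0⟩, ⟨-1, 1, 0⟩, ⟨0, 0, 0⟩⟩,
    ⟨⟨-1, 1, 0⟩, ⟨-1, -1, 0⟩, ⟨0, 0, 0⟩⟩,
    ⟨⟨-1, -1, 0⟩, ⟨1, -1, 0⟩, ⟨0, 0, 0⟩⟩,
    ⟨⟨1, -1, 0⟩, ⟨1, 1, 0⟩, ⟨0, 0, 0⟩⟩],
   [[(1, 0), (4, 0), (4, 1)],
    [(2, 0), (5, 0), (5, 2)],
    [(3, 0), (6, 0), (6, 3)],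
    [(0, 0), (7, 0), (7, 4)],
    [(7, 5), (0, 3), (0, 0)],
    [(4, 6), (1, 4), (1, 0)],
    [(5, 7), (2, 1), (2, 0)],
    [(6, 8), (3, 2), (3, 0)]]⟩

def tetLat14 : List LatE :=
  [⟨⟨⟨1, 0, 0⟩, ⟨0, 1, 0⟩, ⟨0, 0, 1⟩⟩, 1, ⟨⟨0, 0, 1⟩, ⟨0, 0, 0⟩, ⟨0, 0, 0⟩⟩⟩]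

def tetRow15 : Row :=
  ⟨[⟨⟨0, 1, 0⟩, ⟨1, 0, 0⟩, ⟨0, 0, -1⟩⟩, ⟨⟨0, -1, 0⟩, ⟨-1, 0, 0⟩, ⟨0, 0, -1⟩⟩], ⟨⟨1, 0, 0⟩, ⟨0, -1, 0⟩, ⟨0, 0, 1⟩⟩, ⟨⟨1, 0, 0⟩, ⟨0, -1, 0⟩, ⟨0, 0, 1⟩⟩, 4,
   [⟨⟨⟨1, 0, 0⟩, ⟨0, 1, 0⟩, ⟨0, 0, 1⟩⟩, ⟨⟨0, 0, 0⟩, ⟨0, 0, 0⟩, ⟨0, 0, 0⟩⟩⟩,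
    ⟨⟨⟨0, 1, 0⟩, ⟨1, 0, 0⟩, ⟨0, 0, -1⟩⟩, ⟨⟨0, 0, 0⟩, ⟨0, 0, 0⟩, ⟨0, 0, 0⟩⟩⟩,
    ⟨⟨⟨0, -1, 0⟩, ⟨-1, 0, 0⟩, ⟨0, 0, -1⟩⟩, ⟨⟨0, 0, 0⟩, ⟨0, 0, 0⟩, ⟨0, 0, 0⟩⟩⟩,
    ⟨⟨⟨-1, 0, 0⟩, ⟨0, -1, 0⟩, ⟨0, 0, 1⟩⟩, ⟨⟨0, 0, 0⟩, ⟨0, 0, 0⟩, ⟨0, 0, 0⟩⟩⟩,
    ⟨⟨⟨1, 0, 0⟩, ⟨0, -1, 0⟩, ⟨0, 0, 1⟩⟩, ⟨⟨1, 0, 0⟩, ⟨0, 1, 0⟩, ⟨0, 0, 1⟩⟩⟩,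
    ⟨⟨⟨0, -1, 0⟩, ⟨1, 0, 0⟩, ⟨0, 0, -1⟩⟩, ⟨⟨0, 1, 0⟩, ⟨1, 0, 0⟩, ⟨0, 0, -1⟩⟩⟩,
    ⟨⟨⟨0, 1, 0⟩, ⟨-1, 0, 0⟩, ⟨0, 0, -1⟩⟩, ⟨⟨0, -1, 0⟩, ⟨-1, 0, 0⟩, ⟨0, 0, -1⟩⟩⟩,
    ⟨⟨⟨-1, 0, 0⟩, ⟨0, 1, 0⟩, ⟨0, 0, 1⟩⟩, ⟨⟨-1, 0, 0⟩, ⟨0, -1, 0⟩, ⟨0, 0, 1⟩⟩⟩],
   [(0, 0), (0, 1), (1, 1), (0, 2), (1, 2), (2, 2), (3, 2)],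
   [⟨⟨0, 0, 0⟩, ⟨0, 0, 0⟩, ⟨0, 0, 0⟩⟩,
    ⟨⟨-2, 0, 0⟩, ⟨0, 0, 0⟩, ⟨0, 0, -2⟩⟩,
    ⟨⟨0, 0, 0⟩, ⟨-2, 0, 0⟩, ⟨0, 0, 2⟩⟩,
    ⟨⟨0, 0, 0⟩, ⟨2, 0, 0⟩, ⟨0, 0, 2⟩⟩,
    ⟨⟨2, 0, 0⟩, ⟨0, 0, 0⟩, ⟨0, 0, -2⟩⟩,
    ⟨⟨1, 1, 0⟩, ⟨1, 1, 0⟩, ⟨0, 0, 2⟩⟩,
    ⟨⟨1, -1, 0⟩, ⟨-1, 1, 0⟩, ⟨0, 0, 2⟩⟩,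
    ⟨⟨2, 0, 0⟩, ⟨0, 0, 0⟩, ⟨0, 0, 2⟩⟩,
    ⟨⟨1, 1, 0⟩, ⟨1, 1, 0⟩, ⟨0, 0, -2⟩⟩,
    ⟨⟨-1, 1, 0⟩, ⟨1, -1, 0⟩, ⟨0, 0, -2⟩⟩,
    ⟨⟨0, 0, 0⟩, ⟨2, 0, 0⟩, ⟨0, 0, -2⟩⟩,
    ⟨⟨-1, -1, 0⟩, ⟨-1, -1, 0⟩, ⟨0, 0, -2⟩⟩,
    ⟨⟨1, -1, 0⟩, ⟨-1, 1, 0⟩, ⟨0, 0, -2⟩⟩,
    ⟨⟨0, 0, 0⟩, ⟨-2, 0, 0⟩, ⟨0, 0, -2⟩⟩,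
    ⟨⟨-1, -1, 0⟩, ⟨-1, -1, 0⟩, ⟨0, 0, 2⟩⟩,
    ⟨⟨-1, 1, 0⟩, ⟨1, -1, 0⟩, ⟨0, 0, 2⟩⟩,
    ⟨⟨-2, 0, 0⟩, ⟨0, 0, 0⟩, ⟨0, 0, 2⟩⟩],
   [[(1, 0), (2, 0), (4, 0), (4, 1)],
    [(0, 0), (3, 0), (5, 0), (5, 2)],
    [(3, 0), (0, 0), (6, 0), (6, 3)],
    [(2, 0), (1, 0), (7, 0), (7, 4)],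
    [(6, 5), (5, 6), (0, 7), (0, 0)],
    [(7, 8), (4, 9), (1, 10), (1, 0)],
    [(4, 11), (7, 12), (2, 13), (2, 0)],
    [(5, 14), (6, 15), (3, 16), (3, 0)]]⟩

def tetLat15 : List LatE :=
  [⟨⟨⟨1, 0, 0⟩, ⟨0, 1, 0⟩, ⟨0, 0, 1⟩⟩, 1, ⟨⟨0, 0, 0⟩, ⟨0, 0, 0⟩, ⟨0, 0, 0⟩⟩⟩]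

def tetRow16 : Row :=
  ⟨[⟨⟨0, 1, 0⟩, ⟨1, 0, 0⟩, ⟨0, 0, -1⟩⟩, ⟨⟨0, -1, 0⟩, ⟨-1, 0, 0⟩, ⟨0, 0, -1⟩⟩], ⟨⟨1, 0, 0⟩, ⟨0, -1, 0⟩, ⟨0, 0, -1⟩⟩, ⟨⟨1, 0, 0⟩, ⟨0, -1, 0⟩, ⟨0, 0, -1⟩⟩, 4,
   [⟨⟨⟨1, 0, 0⟩, ⟨0, 1, 0⟩, ⟨0, 0, 1⟩⟩, ⟨⟨0, 0, 0⟩, ⟨0, 0, 0⟩, ⟨0, 0, 0⟩⟩⟩,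
    ⟨⟨⟨0, 1, 0⟩, ⟨1, 0, 0⟩, ⟨0, 0, -1⟩⟩, ⟨⟨0, 0, 0⟩, ⟨0, 0, 0⟩, ⟨0, 0, 0⟩⟩⟩,
    ⟨⟨⟨0, -1, 0⟩, ⟨-1, 0, 0⟩, ⟨0, 0, -1⟩⟩, ⟨⟨0, 0, 0⟩, ⟨0, 0, 0⟩, ⟨0, 0, 0⟩⟩⟩,
    ⟨⟨⟨-1, 0, 0⟩, ⟨0, -1, 0⟩, ⟨0, 0, 1⟩⟩, ⟨⟨0, 0, 0⟩, ⟨0, 0, 0⟩, ⟨0, 0, 0⟩⟩⟩,
    ⟨⟨⟨1, 0, 0⟩, ⟨0, -1, 0⟩, ⟨0, 0, -1⟩⟩, ⟨⟨1, 0, 0⟩, ⟨0, 1, 0⟩, ⟨0, 0, 1⟩⟩⟩,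
    ⟨⟨⟨0, -1, 0⟩, ⟨1, 0, 0⟩, ⟨0, 0, 1⟩⟩, ⟨⟨0, 1, 0⟩, ⟨1, 0, 0⟩, ⟨0, 0, -1⟩⟩⟩,
    ⟨⟨⟨0, 1, 0⟩, ⟨-1, 0, 0⟩, ⟨0, 0, 1⟩⟩, ⟨⟨0, -1, 0⟩, ⟨-1, 0, 0⟩, ⟨0, 0, -1⟩⟩⟩,
    ⟨⟨⟨-1, 0, 0⟩, ⟨0, 1, 0⟩, ⟨0, 0, -1⟩⟩, ⟨⟨-1, 0, 0⟩, ⟨0, -1, 0⟩, ⟨0, 0, 1⟩⟩⟩],
   [(0, 0), (0, 1), (1, 1), (0, 2), (1, 2), (2, 2), (3, 2)],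
   [⟨⟨0, 0, 0⟩, ⟨0, 0, 0⟩, ⟨0, 0, 0⟩⟩,
    ⟨⟨-2, 0, 0⟩, ⟨0, 0, 0⟩, ⟨0, 0, 0⟩⟩,
    ⟨⟨0, 0, 0⟩, ⟨-2, 0, 0⟩, ⟨0, 0, 0⟩⟩,
    ⟨⟨0, 0, 0⟩, ⟨2, 0, 0⟩, ⟨0, 0, 0⟩⟩,
    ⟨⟨2, 0, 0⟩, ⟨0, 0, 0⟩, ⟨0, 0, 0⟩⟩,
    ⟨⟨1, 1, 0⟩, ⟨1, 1, 0⟩, ⟨0, 0, 2⟩⟩,
    ⟨⟨1, -1, 0⟩, ⟨-1, 1, 0⟩, ⟨0, 0, 2⟩⟩,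
    ⟨⟨1, 1, 0⟩, ⟨1, 1, 0⟩, ⟨0, 0, -2⟩⟩,
    ⟨⟨-1, 1, 0⟩, ⟨1, -1, 0⟩, ⟨0, 0, -2⟩⟩,
    ⟨⟨-1, -1, 0⟩, ⟨-1, -1, 0⟩, ⟨0, 0, -2⟩⟩,
    ⟨⟨1, -1, 0⟩, ⟨-1, 1, 0⟩, ⟨0, 0, -2⟩⟩,
    ⟨⟨-1, -1, 0⟩, ⟨-1, -1, 0⟩, ⟨0, 0, 2⟩⟩,
    ⟨⟨-1, 1, 0⟩, ⟨1, -1, 0⟩, ⟨0, 0, 2⟩⟩],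
   [[(1, 0), (2, 0), (4, 0), (4, 1)],
    [(0, 0), (3, 0), (5, 0), (5, 2)],
    [(3, 0), (0, 0), (6, 0), (6, 3)],
    [(2, 0), (1, 0), (7, 0), (7, 4)],
    [(6, 5), (5, 6), (0, 4), (0, 0)],
    [(7, 7), (4, 8), (1, 3), (1, 0)],
    [(4, 9), (7, 10), (2, 2), (2, 0)],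
    [(5, 11), (6, 12), (3, 1), (3, 0)]]⟩

def tetLat16 : List LatE :=
  [⟨⟨⟨1, 0, 0⟩, ⟨0, 1, 0⟩, ⟨0, 0, 1⟩⟩, 1, ⟨⟨0, 0, 0⟩, ⟨0, 0, 0⟩, ⟨0, 0, 0⟩⟩⟩]

def tetRow17 : Row :=
  ⟨[⟨⟨0, 1, 0⟩, ⟨1, 0, 0⟩, ⟨0, 0, -1⟩⟩, ⟨⟨0, -1, 0⟩, ⟨-1, 0, 0⟩, ⟨0, 0, 1⟩⟩], ⟨⟨1, 0, 0⟩, ⟨0, -1, 0⟩, ⟨0, 0, 1⟩⟩, ⟨⟨1, 0, 0⟩, ⟨0, -1, 0⟩, ⟨0, 0, 1⟩⟩, 4,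
   [⟨⟨⟨1, 0, 0⟩, ⟨0, 1, 0⟩, ⟨0, 0, 1⟩⟩, ⟨⟨0, 0, 0⟩, ⟨0, 0, 0⟩, ⟨0, 0, 0⟩⟩⟩,
    ⟨⟨⟨0, 1, 0⟩, ⟨1, 0, 0⟩, ⟨0, 0, -1⟩⟩, ⟨⟨0, 0, 0⟩, ⟨0, 0, 0⟩, ⟨0, 0, 0⟩⟩⟩,
    ⟨⟨⟨0, -1, 0⟩, ⟨-1, 0, 0⟩, ⟨0, 0, 1⟩⟩, ⟨⟨0, 0, 0⟩, ⟨0, 0, 0⟩, ⟨0, 0, 0⟩⟩⟩,
    ⟨⟨⟨-1, 0, 0⟩, ⟨0, -1, 0⟩, ⟨0, 0, -1⟩⟩, ⟨⟨0, 0, 0⟩, ⟨0, 0, 0⟩, ⟨0, 0, 0⟩⟩⟩,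
    ⟨⟨⟨1, 0, 0⟩, ⟨0, -1, 0⟩, ⟨0, 0, 1⟩⟩, ⟨⟨1, 0, 0⟩, ⟨0, 1, 0⟩, ⟨0, 0, 1⟩⟩⟩,
    ⟨⟨⟨0, -1, 0⟩, ⟨1, 0, 0⟩, ⟨0, 0, -1⟩⟩, ⟨⟨0, 1, 0⟩, ⟨1, 0, 0⟩, ⟨0, 0, -1⟩⟩⟩,
    ⟨⟨⟨0, 1, 0⟩, ⟨-1, 0, 0⟩, ⟨0, 0, 1⟩⟩, ⟨⟨0, -1, 0⟩, ⟨-1, 0, 0⟩, ⟨0, 0, 1⟩⟩⟩,
    ⟨⟨⟨-1, 0, 0⟩, ⟨0, 1, 0⟩, ⟨0, 0, -1⟩⟩, ⟨⟨-1, 0, 0⟩, ⟨0, -1, 0⟩, ⟨0, 0, -1⟩⟩⟩,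
    ⟨⟨⟨0, 1, 0⟩, ⟨-1, 0, 0⟩, ⟨0, 0, -1⟩⟩, ⟨⟨1, 0, 0⟩, ⟨0, 1, 0⟩, ⟨0, 0, 1⟩⟩⟩,
    ⟨⟨⟨0, -1, 0⟩, ⟨1, 0, 0⟩, ⟨0, 0, 1⟩⟩, ⟨⟨1, 0, 0⟩, ⟨0, 1, 0⟩, ⟨0, 0, 1⟩⟩⟩,
    ⟨⟨⟨-1, 0, 0⟩, ⟨0, 1, 0⟩, ⟨0, 0, 1⟩⟩, ⟨⟨0, 1, 0⟩, ⟨1, 0, 0⟩, ⟨0, 0, -1⟩⟩⟩,
    ⟨⟨⟨1, 0, 0⟩, ⟨0, -1, 0⟩, ⟨0, 0, -1⟩⟩, ⟨⟨0, 1, 0⟩, ⟨1, 0, 0⟩, ⟨0, 0, -1⟩⟩⟩,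
    ⟨⟨⟨0, -1, 0⟩, ⟨-1, 0, 0⟩, ⟨0, 0, -1⟩⟩, ⟨⟨1, 1, 0⟩, ⟨-1, 1, 0⟩, ⟨0, 0, 0⟩⟩⟩,
    ⟨⟨⟨0, 1, 0⟩, ⟨1, 0, 0⟩, ⟨0, 0, 1⟩⟩, ⟨⟨1, -1, 0⟩, ⟨1, 1, 0⟩, ⟨0, 0, 2⟩⟩⟩,
    ⟨⟨⟨-1, 0, 0⟩, ⟨0, -1, 0⟩, ⟨0, 0, 1⟩⟩, ⟨⟨-1, 1, 0⟩, ⟨1, 1, 0⟩, ⟨0, 0, 0⟩⟩⟩,
    ⟨⟨⟨1, 0, 0⟩, ⟨0, 1, 0⟩, ⟨0, 0, -1⟩⟩, ⟨⟨1, 1, 0⟩, ⟨1, -1, 0⟩, ⟨0, 0, -2⟩⟩⟩],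
   [(0, 0), (0, 1), (1, 1), (0, 2), (1, 2), (2, 2), (3, 2), (4, 0), (4, 1), (5, 0), (5, 1), (8, 2), (9, 2), (10, 2), (11, 2)],
   [⟨⟨0, 0, 0⟩, ⟨0, 0, 0⟩, ⟨0, 0, 0⟩⟩,
    ⟨⟨-2, 0, 0⟩, ⟨0, 0, 0⟩, ⟨0, 0, -2⟩⟩,
    ⟨⟨0, 0, 0⟩, ⟨-2, 0, 0⟩, ⟨0, 0, 2⟩⟩,
    ⟨⟨0, 0, 0⟩, ⟨2, 0, 0⟩, ⟨0, 0, -2⟩⟩,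
    ⟨⟨2, 0, 0⟩, ⟨0, 0, 0⟩, ⟨0, 0, 2⟩⟩,
    ⟨⟨0, -2, 0⟩, ⟨-2, 0, 0⟩, ⟨0, 0, 2⟩⟩,
    ⟨⟨-2, 0, 0⟩, ⟨0, -2, 0⟩, ⟨0, 0, -2⟩⟩,
    ⟨⟨2, 0, 0⟩, ⟨0, 2, 0⟩, ⟨0, 0, 2⟩⟩,
    ⟨⟨0, 0, 0⟩, ⟨2, 0, 0⟩, ⟨0, 0, 2⟩⟩,
    ⟨⟨0, 0, 0⟩, ⟨-2, 0, 0⟩, ⟨0, 0, -2⟩⟩,
    ⟨⟨0, 2, 0⟩, ⟨2, 0, 0⟩, ⟨0, 0, -2⟩⟩,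
    ⟨⟨2, 0, 0⟩, ⟨0, 0, 0⟩, ⟨0, 0, -2⟩⟩,
    ⟨⟨-2, 0, 0⟩, ⟨0, 0, 0⟩, ⟨0, 0, 2⟩⟩,
    ⟨⟨2, 0, 0⟩, ⟨-2, 0, 0⟩, ⟨0, 0, 0⟩⟩,
    ⟨⟨0, 0, 0⟩, ⟨-2, 2, 0⟩, ⟨0, 0, 2⟩⟩,
    ⟨⟨0, -2, 0⟩, ⟨0, 2, 0⟩, ⟨0, 0, 4⟩⟩,
    ⟨⟨2, -2, 0⟩, ⟨0, 0, 0⟩, ⟨0, 0, 2⟩⟩,
    ⟨⟨-2, 0, 0⟩, ⟨2, 0, 0⟩, ⟨0, 0, 0⟩⟩,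
    ⟨⟨-2, 2, 0⟩, ⟨0, 0, 0⟩, ⟨0, 0, -2⟩⟩,
    ⟨⟨0, 2, 0⟩, ⟨0, -2, 0⟩, ⟨0, 0, -4⟩⟩,
    ⟨⟨0, 0, 0⟩, ⟨2, -2, 0⟩, ⟨0, 0, -2⟩⟩],
   [[(1, 0), (2, 0), (4, 0), (4, 1)],
    [(0, 0), (3, 0), (5, 0), (5, 2)],
    [(3, 0), (0, 0), (6, 0), (6, 3)],
    [(2, 0), (1, 0), (7, 0), (7, 4)],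
    [(8, 0), (9, 0), (0, 4), (0, 0)],
    [(10, 0), (11, 0), (1, 3), (1, 0)],
    [(11, 5), (10, 5), (2, 2), (2, 0)],
    [(9, 6), (8, 6), (3, 1), (3, 0)],
    [(4, 0), (7, 7), (12, 0), (12, 8)],
    [(7, 7), (4, 0), (13, 0), (13, 9)],
    [(5, 0), (6, 10), (14, 0), (14, 11)],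
    [(6, 10), (5, 0), (15, 0), (15, 12)],
    [(14, 13), (15, 14), (8, 9), (8, 0)],
    [(15, 15), (14, 16), (9, 8), (9, 0)],
    [(12, 17), (13, 18), (10, 12), (10, 0)],
    [(13, 19), (12, 20), (11, 11), (11, 0)]]⟩

def tetLat17 : List LatE :=
  [⟨⟨⟨1, 0, 0⟩, ⟨0, 1, 0⟩, ⟨0, 0, 1⟩⟩, 1, ⟨⟨0, 0, 0⟩, ⟨0, 0, 0⟩, ⟨0, 0, 0⟩⟩⟩,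
   ⟨⟨⟨1, 0, 0⟩, ⟨0, 1, 0⟩, ⟨0, 0, 1⟩⟩, 1, ⟨⟨0, 0, 0⟩, ⟨0, 0, 0⟩, ⟨0, 0, 0⟩⟩⟩]

def tetRow18 : Row :=
  ⟨[⟨⟨0, 1, 0⟩, ⟨1, 0, 0⟩, ⟨0, 0, 1⟩⟩, ⟨⟨0, -1, 0⟩, ⟨-1, 0, 0⟩, ⟨0, 0, 1⟩⟩], ⟨⟨1, 0, 0⟩, ⟨0, -1, 0⟩, ⟨0, 0, 1⟩⟩, ⟨⟨1, 0, 0⟩, ⟨0, -1, 0⟩, ⟨0, 0, 1⟩⟩, 4,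
   [⟨⟨⟨1, 0, 0⟩, ⟨0, 1, 0⟩, ⟨0, 0, 1⟩⟩, ⟨⟨0, 0, 0⟩, ⟨0, 0, 0⟩, ⟨0, 0, 0⟩⟩⟩,
    ⟨⟨⟨0, 1, 0⟩, ⟨1, 0, 0⟩, ⟨0, 0, 1⟩⟩, ⟨⟨0, 0, 0⟩, ⟨0, 0, 0⟩, ⟨0, 0, 0⟩⟩⟩,
    ⟨⟨⟨0, -1, 0⟩, ⟨-1, 0, 0⟩, ⟨0, 0, 1⟩⟩, ⟨⟨0, 0, 0⟩, ⟨0, 0, 0⟩, ⟨0, 0, 0⟩⟩⟩,
    ⟨⟨⟨-1, 0, 0⟩, ⟨0, -1, 0⟩, ⟨0, 0, 1⟩⟩, ⟨⟨0, 0, 0⟩, ⟨0, 0, 0⟩, ⟨0, 0, 0⟩⟩⟩,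
    ⟨⟨⟨1, 0, 0⟩, ⟨0, -1, 0⟩, ⟨0, 0, 1⟩⟩, ⟨⟨1, 0, 0⟩, ⟨0, 1, 0⟩, ⟨0, 0, 1⟩⟩⟩,
    ⟨⟨⟨0, -1, 0⟩, ⟨1, 0, 0⟩, ⟨0, 0, 1⟩⟩, ⟨⟨0, 1, 0⟩, ⟨1, 0, 0⟩, ⟨0, 0, 1⟩⟩⟩,
    ⟨⟨⟨0, 1, 0⟩, ⟨-1, 0, 0⟩, ⟨0, 0, 1⟩⟩, ⟨⟨0, -1, 0⟩, ⟨-1, 0, 0⟩, ⟨0, 0, 1⟩⟩⟩,
    ⟨⟨⟨-1, 0, 0⟩, ⟨0, 1, 0⟩, ⟨0, 0, 1⟩⟩, ⟨⟨-1, 0, 0⟩, ⟨0, -1, 0⟩, ⟨0, 0, 1⟩⟩⟩],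
   [(0, 0), (0, 1), (1, 1), (0, 2), (1, 2), (2, 2), (3, 2)],
   [⟨⟨0, 0, 0⟩, ⟨0, 0, 0⟩, ⟨0, 0, 0⟩⟩,
    ⟨⟨-2, 0, 0⟩, ⟨0, 0, 0⟩, ⟨0, 0, -2⟩⟩,
    ⟨⟨0, 0, 0⟩, ⟨-2, 0, 0⟩, ⟨0, 0, -2⟩⟩,
    ⟨⟨0, 0, 0⟩, ⟨2, 0, 0⟩, ⟨0, 0, -2⟩⟩,
    ⟨⟨2, 0, 0⟩, ⟨0, 0, 0⟩, ⟨0, 0, -2⟩⟩,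
    ⟨⟨1, 1, 0⟩, ⟨1, 1, 0⟩, ⟨0, 0, 0⟩⟩,
    ⟨⟨1, -1, 0⟩, ⟨-1, 1, 0⟩, ⟨0, 0, 0⟩⟩,
    ⟨⟨2, 0, 0⟩, ⟨0, 0, 0⟩, ⟨0, 0, 2⟩⟩,
    ⟨⟨-1, 1, 0⟩, ⟨1, -1, 0⟩, ⟨0, 0, 0⟩⟩,
    ⟨⟨0, 0, 0⟩, ⟨2, 0, 0⟩, ⟨0, 0, 2⟩⟩,
    ⟨⟨-1, -1, 0⟩, ⟨-1, -1, 0⟩, ⟨0, 0, 0⟩⟩,
    ⟨⟨0, 0, 0⟩, ⟨-2, 0, 0⟩, ⟨0, 0, 2⟩⟩,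
    ⟨⟨-2, 0, 0⟩, ⟨0, 0, 0⟩, ⟨0, 0, 2⟩⟩],
   [[(1, 0), (2, 0), (4, 0), (4, 1)],
    [(0, 0), (3, 0), (5, 0), (5, 2)],
    [(3, 0), (0, 0), (6, 0), (6, 3)],
    [(2, 0), (1, 0), (7, 0), (7, 4)],
    [(6, 5), (5, 6), (0, 7), (0, 0)],
    [(7, 5), (4, 8), (1, 9), (1, 0)],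
    [(4, 10), (7, 6), (2, 11), (2, 0)],
    [(5, 10), (6, 8), (3, 12), (3, 0)]]⟩

def tetLat18 : List LatE :=
  [⟨⟨⟨1, 0, 0⟩, ⟨0, 1, 0⟩, ⟨0, 0, 1⟩⟩, 1, ⟨⟨0, 0, 0⟩, ⟨0, 0, 0⟩, ⟨0, 0, 0⟩⟩⟩]

def tetRow19 : Row :=
  ⟨[⟨⟨0, 1, 0⟩, ⟨1, 0, 0⟩, ⟨0, 0, 1⟩⟩, ⟨⟨0, -1, 0⟩, ⟨-1, 0, 0⟩, ⟨0, 0, 1⟩⟩], ⟨⟨1, 0, 0⟩, ⟨0, -1, 0⟩, ⟨0, 0, -1⟩⟩, ⟨⟨1, 0, 0⟩, ⟨0, -1, 0⟩, ⟨0, 0, -1⟩⟩, 4,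
   [⟨⟨⟨1, 0, 0⟩, ⟨0, 1, 0⟩, ⟨0, 0, 1⟩⟩, ⟨⟨0, 0, 0⟩, ⟨0, 0, 0⟩, ⟨0, 0, 0⟩⟩⟩,
    ⟨⟨⟨0, 1, 0⟩, ⟨1, 0, 0⟩, ⟨0, 0, 1⟩⟩, ⟨⟨0, 0, 0⟩, ⟨0, 0, 0⟩, ⟨0, 0, 0⟩⟩⟩,
    ⟨⟨⟨0, -1, 0⟩, ⟨-1, 0, 0⟩, ⟨0, 0, 1⟩⟩, ⟨⟨0, 0, 0⟩, ⟨0, 0, 0⟩, ⟨0, 0, 0⟩⟩⟩,
    ⟨⟨⟨-1, 0, 0⟩, ⟨0, -1, 0⟩, ⟨0, 0, 1⟩⟩, ⟨⟨0, 0, 0⟩, ⟨0, 0, 0⟩, ⟨0, 0, 0⟩⟩⟩,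
    ⟨⟨⟨1, 0, 0⟩, ⟨0, -1, 0⟩, ⟨0, 0, -1⟩⟩, ⟨⟨1, 0, 0⟩, ⟨0, 1, 0⟩, ⟨0, 0, 1⟩⟩⟩,
    ⟨⟨⟨0, -1, 0⟩, ⟨1, 0, 0⟩, ⟨0, 0, -1⟩⟩, ⟨⟨0, 1, 0⟩, ⟨1, 0, 0⟩, ⟨0, 0, 1⟩⟩⟩,
    ⟨⟨⟨0, 1, 0⟩, ⟨-1, 0, 0⟩, ⟨0, 0, -1⟩⟩, ⟨⟨0, -1, 0⟩, ⟨-1, 0, 0⟩, ⟨0, 0, 1⟩⟩⟩,
    ⟨⟨⟨-1, 0, 0⟩, ⟨0, 1, 0⟩, ⟨0, 0, -1⟩⟩, ⟨⟨-1, 0, 0⟩, ⟨0, -1, 0⟩, ⟨0, 0, 1⟩⟩⟩],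
   [(0, 0), (0, 1), (1, 1), (0, 2), (1, 2), (2, 2), (3, 2)],
   [⟨⟨0, 0, 0⟩, ⟨0, 0, 0⟩, ⟨0, 0, 0⟩⟩,
    ⟨⟨-2, 0, 0⟩, ⟨0, 0, 0⟩, ⟨0, 0, 0⟩⟩,
    ⟨⟨0, 0, 0⟩, ⟨-2, 0, 0⟩, ⟨0, 0, 0⟩⟩,
    ⟨⟨0, 0, 0⟩, ⟨2, 0, 0⟩, ⟨0, 0, 0⟩⟩,
    ⟨⟨2, 0, 0⟩, ⟨0, 0, 0⟩, ⟨0, 0, 0⟩⟩,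
    ⟨⟨1, 1, 0⟩, ⟨1, 1, 0⟩, ⟨0, 0, 0⟩⟩,
    ⟨⟨1, -1, 0⟩, ⟨-1, 1, 0⟩, ⟨0, 0, 0⟩⟩,
    ⟨⟨-1, 1, 0⟩, ⟨1, -1, 0⟩, ⟨0, 0, 0⟩⟩,
    ⟨⟨-1, -1, 0⟩, ⟨-1, -1, 0⟩, ⟨0, 0, 0⟩⟩],
   [[(1, 0), (2, 0), (4, 0), (4, 1)],
    [(0, 0), (3, 0), (5, 0), (5, 2)],
    [(3, 0), (0, 0), (6, 0), (6, 3)],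
    [(2, 0), (1, 0), (7, 0), (7, 4)],
    [(6, 5), (5, 6), (0, 4), (0, 0)],
    [(7, 5), (4, 7), (1, 3), (1, 0)],
    [(4, 8), (7, 6), (2, 2), (2, 0)],
    [(5, 8), (6, 7), (3, 1), (3, 0)]]⟩

def tetLat19 : List LatE :=
  [⟨⟨⟨1, 0, 0⟩, ⟨0, 1, 0⟩, ⟨0, 0, 1⟩⟩, 1, ⟨⟨0, 0, 1⟩, ⟨0, 0, 0⟩, ⟨0, 0, 0⟩⟩⟩]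

def tetRow20 : Row :=
  ⟨[⟨⟨1, 0, 0⟩, ⟨0, 1, 0⟩, ⟨0, 0, -1⟩⟩, ⟨⟨-1, 0, 0⟩, ⟨0, -1, 0⟩, ⟨0, 0, 1⟩⟩], ⟨⟨0, 1, 0⟩, ⟨-1, 0, 0⟩, ⟨0, 0, 1⟩⟩, ⟨⟨0, -1, 0⟩, ⟨1, 0, 0⟩, ⟨0, 0, 1⟩⟩, 4,
   [⟨⟨⟨1, 0, 0⟩, ⟨0, 1, 0⟩, ⟨0, 0, 1⟩⟩, ⟨⟨0, 0, 0⟩, ⟨0, 0, 0⟩, ⟨0, 0, 0⟩⟩⟩,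
    ⟨⟨⟨1, 0, 0⟩, ⟨0, 1, 0⟩, ⟨0, 0, -1⟩⟩, ⟨⟨0, 0, 0⟩, ⟨0, 0, 0⟩, ⟨0, 0, 0⟩⟩⟩,
    ⟨⟨⟨-1, 0, 0⟩, ⟨0, -1, 0⟩, ⟨0, 0, 1⟩⟩, ⟨⟨0, 0, 0⟩, ⟨0, 0, 0⟩, ⟨0, 0, 0⟩⟩⟩,
    ⟨⟨⟨-1, 0, 0⟩, ⟨0, -1, 0⟩, ⟨0, 0, -1⟩⟩, ⟨⟨0, 0, 0⟩, ⟨0, 0, 0⟩, ⟨0, 0, 0⟩⟩⟩,
    ⟨⟨⟨0, 1, 0⟩, ⟨-1, 0, 0⟩, ⟨0, 0, 1⟩⟩, ⟨⟨1, 0, 0⟩, ⟨0, 1, 0⟩, ⟨0, 0, 1⟩⟩⟩,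
    ⟨⟨⟨0, -1, 0⟩, ⟨1, 0, 0⟩, ⟨0, 0, 1⟩⟩, ⟨⟨0, 1, 0⟩, ⟨-1, 0, 0⟩, ⟨0, 0, -1⟩⟩⟩,
    ⟨⟨⟨0, 1, 0⟩, ⟨-1, 0, 0⟩, ⟨0, 0, -1⟩⟩, ⟨⟨1, 0, 0⟩, ⟨0, 1, 0⟩, ⟨0, 0, -1⟩⟩⟩,
    ⟨⟨⟨0, -1, 0⟩, ⟨1, 0, 0⟩, ⟨0, 0, -1⟩⟩, ⟨⟨0, 1, 0⟩, ⟨-1, 0, 0⟩, ⟨0, 0, 1⟩⟩⟩],
   [(0, 0), (0, 1), (1, 1), (0, 2), (0, 3), (1, 2), (1, 3)],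
   [⟨⟨0, 0, 0⟩, ⟨0, 0, 0⟩, ⟨0, 0, 0⟩⟩,
    ⟨⟨-1, -1, 0⟩, ⟨1, -1, 0⟩, ⟨0, 0, 2⟩⟩,
    ⟨⟨-1, -1, 0⟩, ⟨1, -1, 0⟩, ⟨0, 0, -2⟩⟩,
    ⟨⟨0, 0, 0⟩, ⟨0, 0, 0⟩, ⟨0, 0, 2⟩⟩,
    ⟨⟨1, -1, 0⟩, ⟨1, 1, 0⟩, ⟨0, 0, 2⟩⟩,
    ⟨⟨1, 1, 0⟩, ⟨-1, 1, 0⟩, ⟨0, 0, 2⟩⟩,
    ⟨⟨0, 0, 0⟩, ⟨0, 0, 0⟩, ⟨0, 0, -2⟩⟩,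
    ⟨⟨-1, 1, 0⟩, ⟨-1, -1, 0⟩, ⟨0, 0, -2⟩⟩,
    ⟨⟨1, 1, 0⟩, ⟨-1, 1, 0⟩, ⟨0, 0, -2⟩⟩,
    ⟨⟨1, -1, 0⟩, ⟨1, 1, 0⟩, ⟨0, 0, -2⟩⟩,
    ⟨⟨-1, 1, 0⟩, ⟨-1, -1, 0⟩, ⟨0, 0, 2⟩⟩],
   [[(1, 0), (2, 0), (4, 0), (5, 0)],
    [(0, 0), (3, 0), (6, 0), (7, 0)],
    [(3, 0), (0, 0), (5, 1), (4, 2)],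
    [(2, 0), (1, 0), (7, 2), (6, 1)],
    [(6, 3), (5, 4), (2, 5), (0, 0)],
    [(7, 6), (4, 7), (0, 0), (2, 8)],
    [(4, 6), (7, 9), (3, 8), (1, 0)],
    [(5, 3), (6, 10), (1, 0), (3, 5)]]⟩

def tetLat20 : List LatE :=
  [⟨⟨⟨2, 0, 0⟩, ⟨-1, 1, 0⟩, ⟨0, 0, 2⟩⟩, 2, ⟨⟨0, 0, 0⟩, ⟨0, 0, 0⟩, ⟨0, 0, 0⟩⟩⟩]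

def tetRow21 : Row :=
  ⟨[⟨⟨1, 0, 0⟩, ⟨0, 1, 0⟩, ⟨0, 0, -1⟩⟩, ⟨⟨-1, 0, 0⟩, ⟨0, 1, 0⟩, ⟨0, 0, 1⟩⟩], ⟨⟨0, 1, 0⟩, ⟨1, 0, 0⟩, ⟨0, 0, 1⟩⟩, ⟨⟨0, 1, 0⟩, ⟨1, 0, 0⟩, ⟨0, 0, 1⟩⟩, 4,
   [⟨⟨⟨1, 0, 0⟩, ⟨0, 1, 0⟩, ⟨0, 0, 1⟩⟩, ⟨⟨0, 0, 0⟩, ⟨0, 0, 0⟩, ⟨0, 0, 0⟩⟩⟩,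
    ⟨⟨⟨1, 0, 0⟩, ⟨0, 1, 0⟩, ⟨0, 0, -1⟩⟩, ⟨⟨0, 0, 0⟩, ⟨0, 0, 0⟩, ⟨0, 0, 0⟩⟩⟩,
    ⟨⟨⟨-1, 0, 0⟩, ⟨0, 1, 0⟩, ⟨0, 0, 1⟩⟩, ⟨⟨0, 0, 0⟩, ⟨0, 0, 0⟩, ⟨0, 0, 0⟩⟩⟩,
    ⟨⟨⟨-1, 0, 0⟩, ⟨0, 1, 0⟩, ⟨0, 0, -1⟩⟩, ⟨⟨0, 0, 0⟩, ⟨0, 0, 0⟩, ⟨0, 0, 0⟩⟩⟩,
    ⟨⟨⟨0, 1, 0⟩, ⟨1, 0, 0⟩, ⟨0, 0, 1⟩⟩, ⟨⟨1, 0, 0⟩, ⟨0, 1, 0⟩, ⟨0, 0, 1⟩⟩⟩,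
    ⟨⟨⟨0, 1, 0⟩, ⟨1, 0, 0⟩, ⟨0, 0, -1⟩⟩, ⟨⟨1, 0, 0⟩, ⟨0, 1, 0⟩, ⟨0, 0, -1⟩⟩⟩,
    ⟨⟨⟨0, -1, 0⟩, ⟨1, 0, 0⟩, ⟨0, 0, 1⟩⟩, ⟨⟨-1, 0, 0⟩, ⟨0, 1, 0⟩, ⟨0, 0, 1⟩⟩⟩,
    ⟨⟨⟨0, -1, 0⟩, ⟨1, 0, 0⟩, ⟨0, 0, -1⟩⟩, ⟨⟨-1, 0, 0⟩, ⟨0, 1, 0⟩, ⟨0, 0, -1⟩⟩⟩,
    ⟨⟨⟨0, 1, 0⟩, ⟨-1, 0, 0⟩, ⟨0, 0, 1⟩⟩, ⟨⟨1, 0, 0⟩, ⟨0, 1, 0⟩, ⟨0, 0, 1⟩⟩⟩,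
    ⟨⟨⟨0, 1, 0⟩, ⟨-1, 0, 0⟩, ⟨0, 0, -1⟩⟩, ⟨⟨1, 0, 0⟩, ⟨0, 1, 0⟩, ⟨0, 0, -1⟩⟩⟩,
    ⟨⟨⟨0, -1, 0⟩, ⟨-1, 0, 0⟩, ⟨0, 0, 1⟩⟩, ⟨⟨-1, 0, 0⟩, ⟨0, 1, 0⟩, ⟨0, 0, 1⟩⟩⟩,
    ⟨⟨⟨0, -1, 0⟩, ⟨-1, 0, 0⟩, ⟨0, 0, -1⟩⟩, ⟨⟨-1, 0, 0⟩, ⟨0, 1, 0⟩, ⟨0, 0, -1⟩⟩⟩,
    ⟨⟨⟨1, 0, 0⟩, ⟨0, -1, 0⟩, ⟨0, 0, 1⟩⟩, ⟨⟨1, 1, 0⟩, ⟨-1, 1, 0⟩, ⟨0, 0, 2⟩⟩⟩,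
    ⟨⟨⟨1, 0, 0⟩, ⟨0, -1, 0⟩, ⟨0, 0, -1⟩⟩, ⟨⟨1, 1, 0⟩, ⟨-1, 1, 0⟩, ⟨0, 0, -2⟩⟩⟩,
    ⟨⟨⟨-1, 0, 0⟩, ⟨0, -1, 0⟩, ⟨0, 0, 1⟩⟩, ⟨⟨-1, -1, 0⟩, ⟨-1, 1, 0⟩, ⟨0, 0, 2⟩⟩⟩,
    ⟨⟨⟨-1, 0, 0⟩, ⟨0, -1, 0⟩, ⟨0, 0, -1⟩⟩, ⟨⟨-1, -1, 0⟩, ⟨-1, 1, 0⟩, ⟨0, 0, -2⟩⟩⟩],
   [(0, 0), (0, 1), (1, 1), (0, 2), (1, 2), (2, 2), (3, 2), (4, 1), (5, 1), (6, 1), (7, 1), (8, 2), (9, 2), (10, 2), (11, 2)],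
   [⟨⟨0, 0, 0⟩, ⟨0, 0, 0⟩, ⟨0, 0, 0⟩⟩,
    ⟨⟨-1, -1, 0⟩, ⟨-1, -1, 0⟩, ⟨0, 0, -2⟩⟩,
    ⟨⟨-1, -1, 0⟩, ⟨-1, -1, 0⟩, ⟨0, 0, 2⟩⟩,
    ⟨⟨1, 1, 0⟩, ⟨-1, -1, 0⟩, ⟨0, 0, -2⟩⟩,
    ⟨⟨1, 1, 0⟩, ⟨-1, -1, 0⟩, ⟨0, 0, 2⟩⟩,
    ⟨⟨0, 0, 0⟩, ⟨0, 0, 0⟩, ⟨0, 0, 2⟩⟩,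
    ⟨⟨1, 1, 0⟩, ⟨1, 1, 0⟩, ⟨0, 0, 2⟩⟩,
    ⟨⟨0, 0, 0⟩, ⟨0, 0, 0⟩, ⟨0, 0, -2⟩⟩,
    ⟨⟨1, 1, 0⟩, ⟨1, 1, 0⟩, ⟨0, 0, -2⟩⟩,
    ⟨⟨-1, -1, 0⟩, ⟨1, 1, 0⟩, ⟨0, 0, 2⟩⟩,
    ⟨⟨-1, -1, 0⟩, ⟨1, 1, 0⟩, ⟨0, 0, -2⟩⟩,
    ⟨⟨0, 0, 0⟩, ⟨0, 0, 0⟩, ⟨0, 0, 4⟩⟩,
    ⟨⟨2, 2, 0⟩, ⟨0, 0, 0⟩, ⟨0, 0, 0⟩⟩,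
    ⟨⟨0, 0, 0⟩, ⟨0, 0, 0⟩, ⟨0, 0, -4⟩⟩,
    ⟨⟨-2, -2, 0⟩, ⟨0, 0, 0⟩, ⟨0, 0, 0⟩⟩],
   [[(1, 0), (2, 0), (4, 0), (4, 1)],
    [(0, 0), (3, 0), (5, 0), (5, 2)],
    [(3, 0), (0, 0), (6, 0), (6, 3)],
    [(2, 0), (1, 0), (7, 0), (7, 4)],
    [(5, 5), (8, 0), (0, 6), (0, 0)],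
    [(4, 7), (9, 0), (1, 8), (1, 0)],
    [(7, 5), (10, 0), (2, 9), (2, 0)],
    [(6, 7), (11, 0), (3, 10), (3, 0)],
    [(9, 5), (4, 0), (12, 0), (12, 10)],
    [(8, 7), (5, 0), (13, 0), (13, 9)],
    [(11, 5), (6, 0), (14, 0), (14, 8)],
    [(10, 7), (7, 0), (15, 0), (15, 6)],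
    [(13, 11), (14, 12), (8, 4), (8, 0)],
    [(12, 13), (15, 12), (9, 3), (9, 0)],
    [(15, 11), (12, 14), (10, 2), (10, 0)],
    [(14, 13), (13, 14), (11, 1), (11, 0)]]⟩

def tetLat21 : List LatE :=
  [⟨⟨⟨2, 0, 0⟩, ⟨-1, 1, 0⟩, ⟨0, 0, 2⟩⟩, 2, ⟨⟨0, 0, 0⟩, ⟨0, 0, 0⟩, ⟨0, 0, 0⟩⟩⟩]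

def tetRow22 : Row :=
  ⟨[⟨⟨1, 0, 0⟩, ⟨0, -1, 0⟩, ⟨0, 0, -1⟩⟩, ⟨⟨0, 1, 0⟩, ⟨1, 0, 0⟩, ⟨0, 0, -1⟩⟩], ⟨⟨1, 0, 0⟩, ⟨0, 1, 0⟩, ⟨0, 0, 1⟩⟩, ⟨⟨1, 0, 0⟩, ⟨0, 1, 0⟩, ⟨0, 0, 1⟩⟩, 8,
   [⟨⟨⟨1, 0, 0⟩, ⟨0, 1, 0⟩, ⟨0, 0, 1⟩⟩, ⟨⟨0, 0, 0⟩, ⟨0, 0, 0⟩, ⟨0, 0, 0⟩⟩⟩,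
    ⟨⟨⟨1, 0, 0⟩, ⟨0, -1, 0⟩, ⟨0, 0, -1⟩⟩, ⟨⟨0, 0, 0⟩, ⟨0, 0, 0⟩, ⟨0, 0, 0⟩⟩⟩,
    ⟨⟨⟨0, 1, 0⟩, ⟨1, 0, 0⟩, ⟨0, 0, -1⟩⟩, ⟨⟨0, 0, 0⟩, ⟨0, 0, 0⟩, ⟨0, 0, 0⟩⟩⟩,
    ⟨⟨⟨0, 1, 0⟩, ⟨-1, 0, 0⟩, ⟨0, 0, 1⟩⟩, ⟨⟨0, 0, 0⟩, ⟨0, 0, 0⟩, ⟨0, 0, 0⟩⟩⟩,
    ⟨⟨⟨0, -1, 0⟩, ⟨1, 0, 0⟩, ⟨0, 0, 1⟩⟩, ⟨⟨0, 0, 0⟩, ⟨0, 0, 0⟩, ⟨0, 0, 0⟩⟩⟩,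
    ⟨⟨⟨0, -1, 0⟩, ⟨-1, 0, 0⟩, ⟨0, 0, -1⟩⟩, ⟨⟨0, 0, 0⟩, ⟨0, 0, 0⟩, ⟨0, 0, 0⟩⟩⟩,
    ⟨⟨⟨-1, 0, 0⟩, ⟨0, 1, 0⟩, ⟨0, 0, -1⟩⟩, ⟨⟨0, 0, 0⟩, ⟨0, 0, 0⟩, ⟨0, 0, 0⟩⟩⟩,
    ⟨⟨⟨-1, 0, 0⟩, ⟨0, -1, 0⟩, ⟨0, 0, 1⟩⟩, ⟨⟨0, 0, 0⟩, ⟨0, 0, 0⟩, ⟨0, 0, 0⟩⟩⟩],
   [(0, 0), (0, 1), (1, 1), (2, 0), (3, 0), (4, 1), (5, 1)],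
   [⟨⟨0, 0, 0⟩, ⟨0, 0, 0⟩, ⟨0, 0, 0⟩⟩,
    ⟨⟨1, 0, 0⟩, ⟨0, 1, 0⟩, ⟨0, 0, 1⟩⟩,
    ⟨⟨-1, 0, 0⟩, ⟨0, -1, 0⟩, ⟨0, 0, -1⟩⟩,
    ⟨⟨1, 0, 0⟩, ⟨0, -1, 0⟩, ⟨0, 0, -1⟩⟩,
    ⟨⟨-1, 0, 0⟩, ⟨0, 1, 0⟩, ⟨0, 0, 1⟩⟩,
    ⟨⟨0, 1, 0⟩, ⟨1, 0, 0⟩, ⟨0, 0, -1⟩⟩,
    ⟨⟨0, -1, 0⟩, ⟨-1, 0, 0⟩, ⟨0, 0, 1⟩⟩,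
    ⟨⟨0, 1, 0⟩, ⟨-1, 0, 0⟩, ⟨0, 0, 1⟩⟩,
    ⟨⟨0, -1, 0⟩, ⟨1, 0, 0⟩, ⟨0, 0, -1⟩⟩,
    ⟨⟨0, -1, 0⟩, ⟨1, 0, 0⟩, ⟨0, 0, 1⟩⟩,
    ⟨⟨0, 1, 0⟩, ⟨-1, 0, 0⟩, ⟨0, 0, -1⟩⟩,
    ⟨⟨0, -1, 0⟩, ⟨-1, 0, 0⟩, ⟨0, 0, -1⟩⟩,
    ⟨⟨0, 1, 0⟩, ⟨1, 0, 0⟩, ⟨0, 0, 1⟩⟩,
    ⟨⟨-1, 0, 0⟩, ⟨0, 1, 0⟩, ⟨0, 0, -1⟩⟩,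
    ⟨⟨1, 0, 0⟩, ⟨0, -1, 0⟩, ⟨0, 0, 1⟩⟩,
    ⟨⟨-1, 0, 0⟩, ⟨0, -1, 0⟩, ⟨0, 0, 1⟩⟩,
    ⟨⟨1, 0, 0⟩, ⟨0, 1, 0⟩, ⟨0, 0, -1⟩⟩],
   [[(1, 0), (2, 0), (0, 1), (0, 2)],
    [(0, 0), (3, 0), (1, 3), (1, 4)],
    [(4, 0), (0, 0), (2, 5), (2, 6)],
    [(5, 0), (1, 0), (3, 7), (3, 8)],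
    [(2, 0), (6, 0), (4, 9), (4, 10)],
    [(3, 0), (7, 0), (5, 11), (5, 12)],
    [(7, 0), (4, 0), (6, 13), (6, 14)],
    [(6, 0), (5, 0), (7, 15), (7, 16)]]⟩

def tetLat22 : List LatE :=
  [⟨⟨⟨1, 0, 0⟩, ⟨0, 1, 0⟩, ⟨0, 0, 1⟩⟩, 1, ⟨⟨0, 0, 0⟩, ⟨0, 0, 0⟩, ⟨0, 0, 0⟩⟩⟩]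

def tetRow23 : Row :=
  ⟨[⟨⟨1, 0, 0⟩, ⟨0, -1, 0⟩, ⟨0, 0, -1⟩⟩, ⟨⟨0, 1, 0⟩, ⟨1, 0, 0⟩, ⟨0, 0, -1⟩⟩], ⟨⟨1, 0, 0⟩, ⟨0, 1, 0⟩, ⟨0, 0, -1⟩⟩, ⟨⟨1, 0, 0⟩, ⟨0, 1, 0⟩, ⟨0, 0, -1⟩⟩, 8,
   [⟨⟨⟨1, 0, 0⟩, ⟨0, 1, 0⟩, ⟨0, 0, 1⟩⟩, ⟨⟨0, 0, 0⟩, ⟨0, 0, 0⟩, ⟨0, 0, 0⟩⟩⟩,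
    ⟨⟨⟨1, 0, 0⟩, ⟨0, -1, 0⟩, ⟨0, 0, -1⟩⟩, ⟨⟨0, 0, 0⟩, ⟨0, 0, 0⟩, ⟨0, 0, 0⟩⟩⟩,
    ⟨⟨⟨0, 1, 0⟩, ⟨1, 0, 0⟩, ⟨0, 0, -1⟩⟩, ⟨⟨0, 0, 0⟩, ⟨0, 0, 0⟩, ⟨0, 0, 0⟩⟩⟩,
    ⟨⟨⟨0, 1, 0⟩, ⟨-1, 0, 0⟩, ⟨0, 0, 1⟩⟩, ⟨⟨0, 0, 0⟩, ⟨0, 0, 0⟩, ⟨0, 0, 0⟩⟩⟩,
    ⟨⟨⟨0, -1, 0⟩, ⟨1, 0, 0⟩, ⟨0, 0, 1⟩⟩, ⟨⟨0, 0, 0⟩, ⟨0, 0, 0⟩, ⟨0, 0, 0⟩⟩⟩,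
    ⟨⟨⟨0, -1, 0⟩, ⟨-1, 0, 0⟩, ⟨0, 0, -1⟩⟩, ⟨⟨0, 0, 0⟩, ⟨0, 0, 0⟩, ⟨0, 0, 0⟩⟩⟩,
    ⟨⟨⟨-1, 0, 0⟩, ⟨0, 1, 0⟩, ⟨0, 0, -1⟩⟩, ⟨⟨0, 0, 0⟩, ⟨0, 0, 0⟩, ⟨0, 0, 0⟩⟩⟩,
    ⟨⟨⟨-1, 0, 0⟩, ⟨0, -1, 0⟩, ⟨0, 0, 1⟩⟩, ⟨⟨0, 0, 0⟩, ⟨0, 0, 0⟩, ⟨0, 0, 0⟩⟩⟩,
    ⟨⟨⟨1, 0, 0⟩, ⟨0, 1, 0⟩, ⟨0, 0, -1⟩⟩, ⟨⟨1, 0, 0⟩, ⟨0, 1, 0⟩, ⟨0, 0, 1⟩⟩⟩,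
    ⟨⟨⟨1, 0, 0⟩, ⟨0, -1, 0⟩, ⟨0, 0, 1⟩⟩, ⟨⟨1, 0, 0⟩, ⟨0, -1, 0⟩, ⟨0, 0, -1⟩⟩⟩,
    ⟨⟨⟨0, 1, 0⟩, ⟨1, 0, 0⟩, ⟨0, 0, 1⟩⟩, ⟨⟨0, 1, 0⟩, ⟨1, 0, 0⟩, ⟨0, 0, -1⟩⟩⟩,
    ⟨⟨⟨0, 1, 0⟩, ⟨-1, 0, 0⟩, ⟨0, 0, -1⟩⟩, ⟨⟨0, 1, 0⟩, ⟨-1, 0, 0⟩, ⟨0, 0, 1⟩⟩⟩,
    ⟨⟨⟨0, -1, 0⟩, ⟨1, 0, 0⟩, ⟨0, 0, -1⟩⟩, ⟨⟨0, -1, 0⟩, ⟨1, 0, 0⟩, ⟨0, 0, 1⟩⟩⟩,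
    ⟨⟨⟨0, -1, 0⟩, ⟨-1, 0, 0⟩, ⟨0, 0, 1⟩⟩, ⟨⟨0, -1, 0⟩, ⟨-1, 0, 0⟩, ⟨0, 0, -1⟩⟩⟩,
    ⟨⟨⟨-1, 0, 0⟩, ⟨0, 1, 0⟩, ⟨0, 0, 1⟩⟩, ⟨⟨-1, 0, 0⟩, ⟨0, 1, 0⟩, ⟨0, 0, -1⟩⟩⟩,
    ⟨⟨⟨-1, 0, 0⟩, ⟨0, -1, 0⟩, ⟨0, 0, -1⟩⟩, ⟨⟨-1, 0, 0⟩, ⟨0, -1, 0⟩, ⟨0, 0, 1⟩⟩⟩],
   [(0, 0), (0, 1), (1, 1), (2, 0), (3, 0), (4, 1), (5, 1), (0, 2), (1, 2), (2, 2), (3, 2), (4, 2), (5, 2), (6, 2), (7, 2)],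
   [⟨⟨0, 0, 0⟩, ⟨0, 0, 0⟩, ⟨0, 0, 0⟩⟩,
    ⟨⟨-2, 0, 0⟩, ⟨0, -2, 0⟩, ⟨0, 0, 0⟩⟩,
    ⟨⟨-2, 0, 0⟩, ⟨0, 2, 0⟩, ⟨0, 0, 0⟩⟩,
    ⟨⟨0, -2, 0⟩, ⟨-2, 0, 0⟩, ⟨0, 0, 0⟩⟩,
    ⟨⟨0, -2, 0⟩, ⟨2, 0, 0⟩, ⟨0, 0, 0⟩⟩,
    ⟨⟨0, 2, 0⟩, ⟨-2, 0, 0⟩, ⟨0, 0, 0⟩⟩,
    ⟨⟨0, 2, 0⟩, ⟨2, 0, 0⟩, ⟨0, 0, 0⟩⟩,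
    ⟨⟨2, 0, 0⟩, ⟨0, -2, 0⟩, ⟨0, 0, 0⟩⟩,
    ⟨⟨2, 0, 0⟩, ⟨0, 2, 0⟩, ⟨0, 0, 0⟩⟩,
    ⟨⟨0, 0, 0⟩, ⟨0, 2, 0⟩, ⟨0, 0, 2⟩⟩,
    ⟨⟨1, -1, 0⟩, ⟨-1, 1, 0⟩, ⟨0, 0, 2⟩⟩,
    ⟨⟨0, 0, 0⟩, ⟨0, -2, 0⟩, ⟨0, 0, -2⟩⟩,
    ⟨⟨1, -1, 0⟩, ⟨1, -1, 0⟩, ⟨0, 0, -2⟩⟩,
    ⟨⟨0, 2, 0⟩, ⟨0, 0, 0⟩, ⟨0, 0, -2⟩⟩,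
    ⟨⟨-1, 1, 0⟩, ⟨1, -1, 0⟩, ⟨0, 0, -2⟩⟩,
    ⟨⟨0, 2, 0⟩, ⟨0, 0, 0⟩, ⟨0, 0, 2⟩⟩,
    ⟨⟨-1, 1, 0⟩, ⟨-1, 1, 0⟩, ⟨0, 0, 2⟩⟩,
    ⟨⟨0, -2, 0⟩, ⟨0, 0, 0⟩, ⟨0, 0, 2⟩⟩,
    ⟨⟨1, -1, 0⟩, ⟨1, -1, 0⟩, ⟨0, 0, 2⟩⟩,
    ⟨⟨0, -2, 0⟩, ⟨0, 0, 0⟩, ⟨0, 0, -2⟩⟩,
    ⟨⟨1, -1, 0⟩, ⟨-1, 1, 0⟩, ⟨0, 0, -2⟩⟩,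
    ⟨⟨0, 0, 0⟩, ⟨0, 2, 0⟩, ⟨0, 0, -2⟩⟩,
    ⟨⟨-1, 1, 0⟩, ⟨-1, 1, 0⟩, ⟨0, 0, -2⟩⟩,
    ⟨⟨0, 0, 0⟩, ⟨0, -2, 0⟩, ⟨0, 0, 2⟩⟩,
    ⟨⟨-1, 1, 0⟩, ⟨1, -1, 0⟩, ⟨0, 0, 2⟩⟩],
   [[(1, 0), (2, 0), (8, 0), (8, 1)],
    [(0, 0), (3, 0), (9, 0), (9, 2)],
    [(4, 0), (0, 0), (10, 0), (10, 3)],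
    [(5, 0), (1, 0), (11, 0), (11, 4)],
    [(2, 0), (6, 0), (12, 0), (12, 5)],
    [(3, 0), (7, 0), (13, 0), (13, 6)],
    [(7, 0), (4, 0), (14, 0), (14, 7)],
    [(6, 0), (5, 0), (15, 0), (15, 8)],
    [(9, 9), (10, 10), (0, 8), (0, 0)],
    [(8, 11), (11, 12), (1, 7), (1, 0)],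
    [(12, 13), (8, 14), (2, 6), (2, 0)],
    [(13, 15), (9, 16), (3, 5), (3, 0)],
    [(10, 17), (14, 18), (4, 4), (4, 0)],
    [(11, 19), (15, 20), (5, 3), (5, 0)],
    [(15, 21), (12, 22), (6, 2), (6, 0)],
    [(14, 23), (13, 24), (7, 1), (7, 0)]]⟩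

def tetLat23 : List LatE :=
  [⟨⟨⟨1, 0, 0⟩, ⟨0, 1, 0⟩, ⟨0, 0, 1⟩⟩, 1, ⟨⟨0, 0, 0⟩, ⟨0, 0, 0⟩, ⟨0, 0, 0⟩⟩⟩]

def tetRow24 : Row :=
  ⟨[⟨⟨1, 0, 0⟩, ⟨0, -1, 0⟩, ⟨0, 0, -1⟩⟩, ⟨⟨0, 1, 0⟩, ⟨1, 0, 0⟩, ⟨0, 0, 1⟩⟩], ⟨⟨1, 0, 0⟩, ⟨0, 1, 0⟩, ⟨0, 0, 1⟩⟩, ⟨⟨1, 0, 0⟩, ⟨0, 1, 0⟩, ⟨0, 0, 1⟩⟩, 8,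
   [⟨⟨⟨1, 0, 0⟩, ⟨0, 1, 0⟩, ⟨0, 0, 1⟩⟩, ⟨⟨0, 0, 0⟩, ⟨0, 0, 0⟩, ⟨0, 0, 0⟩⟩⟩,
    ⟨⟨⟨1, 0, 0⟩, ⟨0, -1, 0⟩, ⟨0, 0, -1⟩⟩, ⟨⟨0, 0, 0⟩, ⟨0, 0, 0⟩, ⟨0, 0, 0⟩⟩⟩,
    ⟨⟨⟨0, 1, 0⟩, ⟨1, 0, 0⟩, ⟨0, 0, 1⟩⟩, ⟨⟨0, 0, 0⟩, ⟨0, 0, 0⟩, ⟨0, 0, 0⟩⟩⟩,
    ⟨⟨⟨0, 1, 0⟩, ⟨-1, 0, 0⟩, ⟨0, 0, -1⟩⟩, ⟨⟨0, 0, 0⟩, ⟨0, 0, 0⟩, ⟨0, 0, 0⟩⟩⟩,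
    ⟨⟨⟨0, -1, 0⟩, ⟨1, 0, 0⟩, ⟨0, 0, -1⟩⟩, ⟨⟨0, 0, 0⟩, ⟨0, 0, 0⟩, ⟨0, 0, 0⟩⟩⟩,
    ⟨⟨⟨0, -1, 0⟩, ⟨-1, 0, 0⟩, ⟨0, 0, 1⟩⟩, ⟨⟨0, 0, 0⟩, ⟨0, 0, 0⟩, ⟨0, 0, 0⟩⟩⟩,
    ⟨⟨⟨-1, 0, 0⟩, ⟨0, 1, 0⟩, ⟨0, 0, -1⟩⟩, ⟨⟨0, 0, 0⟩, ⟨0, 0, 0⟩, ⟨0, 0, 0⟩⟩⟩,
    ⟨⟨⟨-1, 0, 0⟩, ⟨0, -1, 0⟩, ⟨0, 0, 1⟩⟩, ⟨⟨0, 0, 0⟩, ⟨0, 0, 0⟩, ⟨0, 0, 0⟩⟩⟩],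
   [(0, 0), (0, 1), (1, 1), (2, 0), (3, 0), (4, 1), (5, 1)],
   [⟨⟨0, 0, 0⟩, ⟨0, 0, 0⟩, ⟨0, 0, 0⟩⟩,
    ⟨⟨1, 0, 0⟩, ⟨0, 1, 0⟩, ⟨0, 0, 1⟩⟩,
    ⟨⟨-1, 0, 0⟩, ⟨0, -1, 0⟩, ⟨0, 0, -1⟩⟩,
    ⟨⟨1, 0, 0⟩, ⟨0, -1, 0⟩, ⟨0, 0, -1⟩⟩,
    ⟨⟨-1, 0, 0⟩, ⟨0, 1, 0⟩, ⟨0, 0, 1⟩⟩,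
    ⟨⟨0, 1, 0⟩, ⟨1, 0, 0⟩, ⟨0, 0, 1⟩⟩,
    ⟨⟨0, -1, 0⟩, ⟨-1, 0, 0⟩, ⟨0, 0, -1⟩⟩,
    ⟨⟨0, 1, 0⟩, ⟨-1, 0, 0⟩, ⟨0, 0, -1⟩⟩,
    ⟨⟨0, -1, 0⟩, ⟨1, 0, 0⟩, ⟨0, 0, 1⟩⟩,
    ⟨⟨0, -1, 0⟩, ⟨1, 0, 0⟩, ⟨0, 0, -1⟩⟩,
    ⟨⟨0, 1, 0⟩, ⟨-1, 0, 0⟩, ⟨0, 0, 1⟩⟩,
    ⟨⟨0, -1, 0⟩, ⟨-1, 0, 0⟩, ⟨0, 0, 1⟩⟩,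
    ⟨⟨0, 1, 0⟩, ⟨1, 0, 0⟩, ⟨0, 0, -1⟩⟩,
    ⟨⟨-1, 0, 0⟩, ⟨0, 1, 0⟩, ⟨0, 0, -1⟩⟩,
    ⟨⟨1, 0, 0⟩, ⟨0, -1, 0⟩, ⟨0, 0, 1⟩⟩,
    ⟨⟨-1, 0, 0⟩, ⟨0, -1, 0⟩, ⟨0, 0, 1⟩⟩,
    ⟨⟨1, 0, 0⟩, ⟨0, 1, 0⟩, ⟨0, 0, -1⟩⟩],
   [[(1, 0), (2, 0), (0, 1), (0, 2)],
    [(0, 0), (3, 0), (1, 3), (1, 4)],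
    [(4, 0), (0, 0), (2, 5), (2, 6)],
    [(5, 0), (1, 0), (3, 7), (3, 8)],
    [(2, 0), (6, 0), (4, 9), (4, 10)],
    [(3, 0), (7, 0), (5, 11), (5, 12)],
    [(7, 0), (4, 0), (6, 13), (6, 14)],
    [(6, 0), (5, 0), (7, 15), (7, 16)]]⟩

def tetLat24 : List LatE :=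
  [⟨⟨⟨1, 0, 0⟩, ⟨0, 1, 0⟩, ⟨0, 0, 1⟩⟩, 1, ⟨⟨0, 0, 0⟩, ⟨0, 0, 0⟩, ⟨0, 0, 0⟩⟩⟩]

def tetRow25 : Row :=
  ⟨[⟨⟨1, 0, 0⟩, ⟨0, -1, 0⟩, ⟨0, 0, -1⟩⟩, ⟨⟨0, 1, 0⟩, ⟨1, 0, 0⟩, ⟨0, 0, 1⟩⟩], ⟨⟨1, 0, 0⟩, ⟨0, 1, 0⟩, ⟨0, 0, -1⟩⟩, ⟨⟨1, 0, 0⟩, ⟨0, 1, 0⟩, ⟨0, 0, -1⟩⟩, 8,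
   [⟨⟨⟨1, 0, 0⟩, ⟨0, 1, 0⟩, ⟨0, 0, 1⟩⟩, ⟨⟨0, 0, 0⟩, ⟨0, 0, 0⟩, ⟨0, 0, 0⟩⟩⟩,
    ⟨⟨⟨1, 0, 0⟩, ⟨0, -1, 0⟩, ⟨0, 0, -1⟩⟩, ⟨⟨0, 0, 0⟩, ⟨0, 0, 0⟩, ⟨0, 0, 0⟩⟩⟩,
    ⟨⟨⟨0, 1, 0⟩, ⟨1, 0, 0⟩, ⟨0, 0, 1⟩⟩, ⟨⟨0, 0, 0⟩, ⟨0, 0, 0⟩, ⟨0, 0, 0⟩⟩⟩,
    ⟨⟨⟨0, 1, 0⟩, ⟨-1, 0, 0⟩, ⟨0, 0, -1⟩⟩, ⟨⟨0, 0, 0⟩, ⟨0, 0, 0⟩, ⟨0, 0, 0⟩⟩⟩,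
    ⟨⟨⟨0, -1, 0⟩, ⟨1, 0, 0⟩, ⟨0, 0, -1⟩⟩, ⟨⟨0, 0, 0⟩, ⟨0, 0, 0⟩, ⟨0, 0, 0⟩⟩⟩,
    ⟨⟨⟨0, -1, 0⟩, ⟨-1, 0, 0⟩, ⟨0, 0, 1⟩⟩, ⟨⟨0, 0, 0⟩, ⟨0, 0, 0⟩, ⟨0, 0, 0⟩⟩⟩,
    ⟨⟨⟨-1, 0, 0⟩, ⟨0, 1, 0⟩, ⟨0, 0, -1⟩⟩, ⟨⟨0, 0, 0⟩, ⟨0, 0, 0⟩, ⟨0, 0, 0⟩⟩⟩,
    ⟨⟨⟨-1, 0, 0⟩, ⟨0, -1, 0⟩, ⟨0, 0, 1⟩⟩, ⟨⟨0, 0, 0⟩, ⟨0, 0, 0⟩, ⟨0, 0, 0⟩⟩⟩,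
    ⟨⟨⟨1, 0, 0⟩, ⟨0, 1, 0⟩, ⟨0, 0, -1⟩⟩, ⟨⟨1, 0, 0⟩, ⟨0, 1, 0⟩, ⟨0, 0, 1⟩⟩⟩,
    ⟨⟨⟨1, 0, 0⟩, ⟨0, -1, 0⟩, ⟨0, 0, 1⟩⟩, ⟨⟨1, 0, 0⟩, ⟨0, -1, 0⟩, ⟨0, 0, -1⟩⟩⟩,
    ⟨⟨⟨0, 1, 0⟩, ⟨1, 0, 0⟩, ⟨0, 0, -1⟩⟩, ⟨⟨0, 1, 0⟩, ⟨1, 0, 0⟩, ⟨0, 0, 1⟩⟩⟩,
    ⟨⟨⟨0, 1, 0⟩, ⟨-1, 0, 0⟩, ⟨0, 0, 1⟩⟩, ⟨⟨0, 1, 0⟩, ⟨-1, 0, 0⟩, ⟨0, 0, -1⟩⟩⟩,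
    ⟨⟨⟨0, -1, 0⟩, ⟨1, 0, 0⟩, ⟨0, 0, 1⟩⟩, ⟨⟨0, -1, 0⟩, ⟨1, 0, 0⟩, ⟨0, 0, -1⟩⟩⟩,
    ⟨⟨⟨0, -1, 0⟩, ⟨-1, 0, 0⟩, ⟨0, 0, -1⟩⟩, ⟨⟨0, -1, 0⟩, ⟨-1, 0, 0⟩, ⟨0, 0, 1⟩⟩⟩,
    ⟨⟨⟨-1, 0, 0⟩, ⟨0, 1, 0⟩, ⟨0, 0, 1⟩⟩, ⟨⟨-1, 0, 0⟩, ⟨0, 1, 0⟩, ⟨0, 0, -1⟩⟩⟩,
    ⟨⟨⟨-1, 0, 0⟩, ⟨0, -1, 0⟩, ⟨0, 0, -1⟩⟩, ⟨⟨-1, 0, 0⟩, ⟨0, -1, 0⟩, ⟨0, 0, 1⟩⟩⟩],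
   [(0, 0), (0, 1), (1, 1), (2, 0), (3, 0), (4, 1), (5, 1), (0, 2), (1, 2), (2, 2), (3, 2), (4, 2), (5, 2), (6, 2), (7, 2)],
   [⟨⟨0, 0, 0⟩, ⟨0, 0, 0⟩, ⟨0, 0, 0⟩⟩,
    ⟨⟨-2, 0, 0⟩, ⟨0, -2, 0⟩, ⟨0, 0, 0⟩⟩,
    ⟨⟨-2, 0, 0⟩, ⟨0, 2, 0⟩, ⟨0, 0, 0⟩⟩,
    ⟨⟨0, -2, 0⟩, ⟨-2, 0, 0⟩, ⟨0, 0, 0⟩⟩,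
    ⟨⟨0, -2, 0⟩, ⟨2, 0, 0⟩, ⟨0, 0, 0⟩⟩,
    ⟨⟨0, 2, 0⟩, ⟨-2, 0, 0⟩, ⟨0, 0, 0⟩⟩,
    ⟨⟨0, 2, 0⟩, ⟨2, 0, 0⟩, ⟨0, 0, 0⟩⟩,
    ⟨⟨2, 0, 0⟩, ⟨0, -2, 0⟩, ⟨0, 0, 0⟩⟩,
    ⟨⟨2, 0, 0⟩, ⟨0, 2, 0⟩, ⟨0, 0, 0⟩⟩,
    ⟨⟨0, 0, 0⟩, ⟨0, 2, 0⟩, ⟨0, 0, 2⟩⟩,
    ⟨⟨1, -1, 0⟩, ⟨-1, 1, 0⟩, ⟨0, 0, 0⟩⟩,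
    ⟨⟨0, 0, 0⟩, ⟨0, -2, 0⟩, ⟨0, 0, -2⟩⟩,
    ⟨⟨1, -1, 0⟩, ⟨1, -1, 0⟩, ⟨0, 0, 0⟩⟩,
    ⟨⟨0, 2, 0⟩, ⟨0, 0, 0⟩, ⟨0, 0, 2⟩⟩,
    ⟨⟨-1, 1, 0⟩, ⟨1, -1, 0⟩, ⟨0, 0, 0⟩⟩,
    ⟨⟨0, 2, 0⟩, ⟨0, 0, 0⟩, ⟨0, 0, -2⟩⟩,
    ⟨⟨-1, 1, 0⟩, ⟨-1, 1, 0⟩, ⟨0, 0, 0⟩⟩,
    ⟨⟨0, -2, 0⟩, ⟨0, 0, 0⟩, ⟨0, 0, -2⟩⟩,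
    ⟨⟨0, -2, 0⟩, ⟨0, 0, 0⟩, ⟨0, 0, 2⟩⟩,
    ⟨⟨0, 0, 0⟩, ⟨0, 2, 0⟩, ⟨0, 0, -2⟩⟩,
    ⟨⟨0, 0, 0⟩, ⟨0, -2, 0⟩, ⟨0, 0, 2⟩⟩],
   [[(1, 0), (2, 0), (8, 0), (8, 1)],
    [(0, 0), (3, 0), (9, 0), (9, 2)],
    [(4, 0), (0, 0), (10, 0), (10, 3)],
    [(5, 0), (1, 0), (11, 0), (11, 4)],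
    [(2, 0), (6, 0), (12, 0), (12, 5)],
    [(3, 0), (7, 0), (13, 0), (13, 6)],
    [(7, 0), (4, 0), (14, 0), (14, 7)],
    [(6, 0), (5, 0), (15, 0), (15, 8)],
    [(9, 9), (10, 10), (0, 8), (0, 0)],
    [(8, 11), (11, 12), (1, 7), (1, 0)],
    [(12, 13), (8, 14), (2, 6), (2, 0)],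
    [(13, 15), (9, 16), (3, 5), (3, 0)],
    [(10, 17), (14, 12), (4, 4), (4, 0)],
    [(11, 18), (15, 10), (5, 3), (5, 0)],
    [(15, 19), (12, 16), (6, 2), (6, 0)],
    [(14, 20), (13, 14), (7, 1), (7, 0)]]⟩

def tetLat25 : List LatE :=
  [⟨⟨⟨1, 0, 0⟩, ⟨0, 1, 0⟩, ⟨0, 0, 1⟩⟩, 1, ⟨⟨0, 0, 0⟩, ⟨0, 0, 0⟩, ⟨0, 0, 0⟩⟩⟩]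

def tetRow26 : Row :=
  ⟨[⟨⟨1, 0, 0⟩, ⟨0, -1, 0⟩, ⟨0, 0, 1⟩⟩, ⟨⟨0, 1, 0⟩, ⟨1, 0, 0⟩, ⟨0, 0, 1⟩⟩], ⟨⟨1, 0, 0⟩, ⟨0, 1, 0⟩, ⟨0, 0, 1⟩⟩, ⟨⟨1, 0, 0⟩, ⟨0, 1, 0⟩, ⟨0, 0, 1⟩⟩, 8,
   [⟨⟨⟨1, 0, 0⟩, ⟨0, 1, 0⟩, ⟨0, 0, 1⟩⟩, ⟨⟨0, 0, 0⟩, ⟨0, 0, 0⟩, ⟨0, 0, 0⟩⟩⟩,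
    ⟨⟨⟨1, 0, 0⟩, ⟨0, -1, 0⟩, ⟨0, 0, 1⟩⟩, ⟨⟨0, 0, 0⟩, ⟨0, 0, 0⟩, ⟨0, 0, 0⟩⟩⟩,
    ⟨⟨⟨0, 1, 0⟩, ⟨1, 0, 0⟩, ⟨0, 0, 1⟩⟩, ⟨⟨0, 0, 0⟩, ⟨0, 0, 0⟩, ⟨0, 0, 0⟩⟩⟩,
    ⟨⟨⟨0, 1, 0⟩, ⟨-1, 0, 0⟩, ⟨0, 0, 1⟩⟩, ⟨⟨0, 0, 0⟩, ⟨0, 0, 0⟩, ⟨0, 0, 0⟩⟩⟩,
    ⟨⟨⟨0, -1, 0⟩, ⟨1, 0, 0⟩, ⟨0, 0, 1⟩⟩, ⟨⟨0, 0, 0⟩, ⟨0, 0, 0⟩, ⟨0, 0, 0⟩⟩⟩,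
    ⟨⟨⟨0, -1, 0⟩, ⟨-1, 0, 0⟩, ⟨0, 0, 1⟩⟩, ⟨⟨0, 0, 0⟩, ⟨0, 0, 0⟩, ⟨0, 0, 0⟩⟩⟩,
    ⟨⟨⟨-1, 0, 0⟩, ⟨0, 1, 0⟩, ⟨0, 0, 1⟩⟩, ⟨⟨0, 0, 0⟩, ⟨0, 0, 0⟩, ⟨0, 0, 0⟩⟩⟩,
    ⟨⟨⟨-1, 0, 0⟩, ⟨0, -1, 0⟩, ⟨0, 0, 1⟩⟩, ⟨⟨0, 0, 0⟩, ⟨0, 0, 0⟩, ⟨0, 0, 0⟩⟩⟩],
   [(0, 0), (0, 1), (1, 1), (2, 0), (3, 0), (4, 1), (5, 1)],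
   [⟨⟨0, 0, 0⟩, ⟨0, 0, 0⟩, ⟨0, 0, 0⟩⟩,
    ⟨⟨1, 0, 0⟩, ⟨0, 1, 0⟩, ⟨0, 0, 1⟩⟩,
    ⟨⟨-1, 0, 0⟩, ⟨0, -1, 0⟩, ⟨0, 0, -1⟩⟩,
    ⟨⟨1, 0, 0⟩, ⟨0, -1, 0⟩, ⟨0, 0, 1⟩⟩,
    ⟨⟨-1, 0, 0⟩, ⟨0, 1, 0⟩, ⟨0, 0, -1⟩⟩,
    ⟨⟨0, 1, 0⟩, ⟨1, 0, 0⟩, ⟨0, 0, 1⟩⟩,
    ⟨⟨0, -1, 0⟩, ⟨-1, 0, 0⟩, ⟨0, 0, -1⟩⟩,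
    ⟨⟨0, 1, 0⟩, ⟨-1, 0, 0⟩, ⟨0, 0, 1⟩⟩,
    ⟨⟨0, -1, 0⟩, ⟨1, 0, 0⟩, ⟨0, 0, -1⟩⟩,
    ⟨⟨0, -1, 0⟩, ⟨1, 0, 0⟩, ⟨0, 0, 1⟩⟩,
    ⟨⟨0, 1, 0⟩, ⟨-1, 0, 0⟩, ⟨0, 0, -1⟩⟩,
    ⟨⟨0, -1, 0⟩, ⟨-1, 0, 0⟩, ⟨0, 0, 1⟩⟩,
    ⟨⟨0, 1, 0⟩, ⟨1, 0, 0⟩, ⟨0, 0, -1⟩⟩,
    ⟨⟨-1, 0, 0⟩, ⟨0, 1, 0⟩, ⟨0, 0, 1⟩⟩,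
    ⟨⟨1, 0, 0⟩, ⟨0, -1, 0⟩, ⟨0, 0, -1⟩⟩,
    ⟨⟨-1, 0, 0⟩, ⟨0, -1, 0⟩, ⟨0, 0, 1⟩⟩,
    ⟨⟨1, 0, 0⟩, ⟨0, 1, 0⟩, ⟨0, 0, -1⟩⟩],
   [[(1, 0), (2, 0), (0, 1), (0, 2)],
    [(0, 0), (3, 0), (1, 3), (1, 4)],
    [(4, 0), (0, 0), (2, 5), (2, 6)],
    [(5, 0), (1, 0), (3, 7), (3, 8)],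
    [(2, 0), (6, 0), (4, 9), (4, 10)],
    [(3, 0), (7, 0), (5, 11), (5, 12)],
    [(7, 0), (4, 0), (6, 13), (6, 14)],
    [(6, 0), (5, 0), (7, 15), (7, 16)]]⟩

def tetLat26 : List LatE :=
  [⟨⟨⟨1, 0, 0⟩, ⟨0, 1, 0⟩, ⟨0, 0, 1⟩⟩, 1, ⟨⟨0, 0, 0⟩, ⟨0, 0, 0⟩, ⟨0, 0, 0⟩⟩⟩]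

def tetRow27 : Row :=
  ⟨[⟨⟨1, 0, 0⟩, ⟨0, -1, 0⟩, ⟨0, 0, 1⟩⟩, ⟨⟨0, 1, 0⟩, ⟨1, 0, 0⟩, ⟨0, 0, 1⟩⟩], ⟨⟨1, 0, 0⟩, ⟨0, 1, 0⟩, ⟨0, 0, -1⟩⟩, ⟨⟨1, 0, 0⟩, ⟨0, 1, 0⟩, ⟨0, 0, -1⟩⟩, 8,
   [⟨⟨⟨1, 0, 0⟩, ⟨0, 1, 0⟩, ⟨0, 0, 1⟩⟩, ⟨⟨0, 0, 0⟩, ⟨0, 0, 0⟩, ⟨0, 0, 0⟩⟩⟩,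
    ⟨⟨⟨1, 0, 0⟩, ⟨0, -1, 0⟩, ⟨0, 0, 1⟩⟩, ⟨⟨0, 0, 0⟩, ⟨0, 0, 0⟩, ⟨0, 0, 0⟩⟩⟩,
    ⟨⟨⟨0, 1, 0⟩, ⟨1, 0, 0⟩, ⟨0, 0, 1⟩⟩, ⟨⟨0, 0, 0⟩, ⟨0, 0, 0⟩, ⟨0, 0, 0⟩⟩⟩,
    ⟨⟨⟨0, 1, 0⟩, ⟨-1, 0, 0⟩, ⟨0, 0, 1⟩⟩, ⟨⟨0, 0, 0⟩, ⟨0, 0, 0⟩, ⟨0, 0, 0⟩⟩⟩,
    ⟨⟨⟨0, -1, 0⟩, ⟨1, 0, 0⟩, ⟨0, 0, 1⟩⟩, ⟨⟨0, 0, 0⟩, ⟨0, 0, 0⟩, ⟨0, 0, 0⟩⟩⟩,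
    ⟨⟨⟨0, -1, 0⟩, ⟨-1, 0, 0⟩, ⟨0, 0, 1⟩⟩, ⟨⟨0, 0, 0⟩, ⟨0, 0, 0⟩, ⟨0, 0, 0⟩⟩⟩,
    ⟨⟨⟨-1, 0, 0⟩, ⟨0, 1, 0⟩, ⟨0, 0, 1⟩⟩, ⟨⟨0, 0, 0⟩, ⟨0, 0, 0⟩, ⟨0, 0, 0⟩⟩⟩,
    ⟨⟨⟨-1, 0, 0⟩, ⟨0, -1, 0⟩, ⟨0, 0, 1⟩⟩, ⟨⟨0, 0, 0⟩, ⟨0, 0, 0⟩, ⟨0, 0, 0⟩⟩⟩,
    ⟨⟨⟨1, 0, 0⟩, ⟨0, 1, 0⟩, ⟨0, 0, -1⟩⟩, ⟨⟨1, 0, 0⟩, ⟨0, 1, 0⟩, ⟨0, 0, 1⟩⟩⟩,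
    ⟨⟨⟨1, 0, 0⟩, ⟨0, -1, 0⟩, ⟨0, 0, -1⟩⟩, ⟨⟨1, 0, 0⟩, ⟨0, -1, 0⟩, ⟨0, 0, 1⟩⟩⟩,
    ⟨⟨⟨0, 1, 0⟩, ⟨1, 0, 0⟩, ⟨0, 0, -1⟩⟩, ⟨⟨0, 1, 0⟩, ⟨1, 0, 0⟩, ⟨0, 0, 1⟩⟩⟩,
    ⟨⟨⟨0, 1, 0⟩, ⟨-1, 0, 0⟩, ⟨0, 0, -1⟩⟩, ⟨⟨0, 1, 0⟩, ⟨-1, 0, 0⟩, ⟨0, 0, 1⟩⟩⟩,
    ⟨⟨⟨0, -1, 0⟩, ⟨1, 0, 0⟩, ⟨0, 0, -1⟩⟩, ⟨⟨0, -1, 0⟩, ⟨1, 0, 0⟩, ⟨0, 0, 1⟩⟩⟩,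
    ⟨⟨⟨0, -1, 0⟩, ⟨-1, 0, 0⟩, ⟨0, 0, -1⟩⟩, ⟨⟨0, -1, 0⟩, ⟨-1, 0, 0⟩, ⟨0, 0, 1⟩⟩⟩,
    ⟨⟨⟨-1, 0, 0⟩, ⟨0, 1, 0⟩, ⟨0, 0, -1⟩⟩, ⟨⟨-1, 0, 0⟩, ⟨0, 1, 0⟩, ⟨0, 0, 1⟩⟩⟩,
    ⟨⟨⟨-1, 0, 0⟩, ⟨0, -1, 0⟩, ⟨0, 0, -1⟩⟩, ⟨⟨-1, 0, 0⟩, ⟨0, -1, 0⟩, ⟨0, 0, 1⟩⟩⟩],
   [(0, 0), (0, 1), (1, 1), (2, 0), (3, 0), (4, 1), (5, 1), (0, 2), (1, 2), (2, 2), (3, 2), (4, 2), (5, 2), (6, 2), (7, 2)],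
   [⟨⟨0, 0, 0⟩, ⟨0, 0, 0⟩, ⟨0, 0, 0⟩⟩,
    ⟨⟨-2, 0, 0⟩, ⟨0, -2, 0⟩, ⟨0, 0, 0⟩⟩,
    ⟨⟨-2, 0, 0⟩, ⟨0, 2, 0⟩, ⟨0, 0, 0⟩⟩,
    ⟨⟨0, -2, 0⟩, ⟨-2, 0, 0⟩, ⟨0, 0, 0⟩⟩,
    ⟨⟨0, -2, 0⟩, ⟨2, 0, 0⟩, ⟨0, 0, 0⟩⟩,
    ⟨⟨0, 2, 0⟩, ⟨-2, 0, 0⟩, ⟨0, 0, 0⟩⟩,
    ⟨⟨0, 2, 0⟩, ⟨2, 0, 0⟩, ⟨0, 0, 0⟩⟩,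
    ⟨⟨2, 0, 0⟩, ⟨0, -2, 0⟩, ⟨0, 0, 0⟩⟩,
    ⟨⟨2, 0, 0⟩, ⟨0, 2, 0⟩, ⟨0, 0, 0⟩⟩,
    ⟨⟨0, 0, 0⟩, ⟨0, 2, 0⟩, ⟨0, 0, 0⟩⟩,
    ⟨⟨1, -1, 0⟩, ⟨-1, 1, 0⟩, ⟨0, 0, 0⟩⟩,
    ⟨⟨0, 0, 0⟩, ⟨0, -2, 0⟩, ⟨0, 0, 0⟩⟩,
    ⟨⟨1, -1, 0⟩, ⟨1, -1, 0⟩, ⟨0, 0, 0⟩⟩,
    ⟨⟨0, 2, 0⟩, ⟨0, 0, 0⟩, ⟨0, 0, 0⟩⟩,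
    ⟨⟨-1, 1, 0⟩, ⟨1, -1, 0⟩, ⟨0, 0, 0⟩⟩,
    ⟨⟨-1, 1, 0⟩, ⟨-1, 1, 0⟩, ⟨0, 0, 0⟩⟩,
    ⟨⟨0, -2, 0⟩, ⟨0, 0, 0⟩, ⟨0, 0, 0⟩⟩],
   [[(1, 0), (2, 0), (8, 0), (8, 1)],
    [(0, 0), (3, 0), (9, 0), (9, 2)],
    [(4, 0), (0, 0), (10, 0), (10, 3)],
    [(5, 0), (1, 0), (11, 0), (11, 4)],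
    [(2, 0), (6, 0), (12, 0), (12, 5)],
    [(3, 0), (7, 0), (13, 0), (13, 6)],
    [(7, 0), (4, 0), (14, 0), (14, 7)],
    [(6, 0), (5, 0), (15, 0), (15, 8)],
    [(9, 9), (10, 10), (0, 8), (0, 0)],
    [(8, 11), (11, 12), (1, 7), (1, 0)],
    [(12, 13), (8, 14), (2, 6), (2, 0)],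
    [(13, 13), (9, 15), (3, 5), (3, 0)],
    [(10, 16), (14, 12), (4, 4), (4, 0)],
    [(11, 16), (15, 10), (5, 3), (5, 0)],
    [(15, 9), (12, 15), (6, 2), (6, 0)],
    [(14, 11), (13, 14), (7, 1), (7, 0)]]⟩

def tetLat27 : List LatE :=
  [⟨⟨⟨1, 0, 0⟩, ⟨0, 1, 0⟩, ⟨0, 0, 1⟩⟩, 1, ⟨⟨0, 0, 1⟩, ⟨0, 0, 0⟩, ⟨0, 0, 0⟩⟩⟩]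

/-- The rows of the tetragonal blocks, with a lattice for each family. -/
def tetRows : List (Row × List LatE) :=
  [(tetRow0, tetLat0),
   (tetRow1, tetLat1),
   (tetRow2, tetLat2),
   (tetRow3, tetLat3),
   (tetRow4, tetLat4),
   (tetRow5, tetLat5),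
   (tetRow6, tetLat6),
   (tetRow7, tetLat7),
   (tetRow8, tetLat8),
   (tetRow9, tetLat9),
   (tetRow10, tetLat10),
   (tetRow11, tetLat11),
   (tetRow12, tetLat12),
   (tetRow13, tetLat13),
   (tetRow14, tetLat14),
   (tetRow15, tetLat15),
   (tetRow16, tetLat16),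
   (tetRow17, tetLat17),
   (tetRow18, tetLat18),
   (tetRow19, tetLat19),
   (tetRow20, tetLat20),
   (tetRow21, tetLat21),
   (tetRow22, tetLat22),
   (tetRow23, tetLat23),
   (tetRow24, tetLat24),
   (tetRow25, tetLat25),
   (tetRow26, tetLat26),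
   (tetRow27, tetLat27)]

end Pool.Agent.H21.FT
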