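import Pool.Agent.H21.FT.C1KerCub
import Pool.Agent.H21.FT.C1DataTet
import Pool.Agent.H21.FT.C1DataHex
import Pool.Agent.H21.FT.RowsTet
import Pool.Agent.H21.FT.RowsHex

/-!
# Kernel checks of the certificates for the rigid tetragonal and hexagonal rows

The cubic rows are in `C1KerCub.lean` (`c1_cub_ok`).
-/

namespace Pool.Agent.H21.FT

set_option maxRecDepth 100000 in
theorem c1_tet_chk :
    tetC1.all (c1Chk .tet (tetBlocks.zip tetRows)) = true := by decide +kernel

theorem c1_tet_ok : ∀ c ∈ tetC1, ∃ x, (tetBlocks.zip tetRows)[c.1]? = some x ∧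
    c.2.ok .tet x.2.1 x.1.fams x.2.2 = true :=
  fun c hc => exists_of_c1Chk (List.all_eq_true.1 c1_tet_chk c hc)

set_option maxRecDepth 100000 in
theorem c1_hex_chk :
    hexC1.all (c1Chk .hex (hexBlocks.zip hexRows)) = true := by decide +kernel

theorem c1_hex_ok : ∀ c ∈ hexC1, ∃ x, (hexBlocks.zip hexRows)[c.1]? = some x ∧
    c.2.ok .hex x.2.1 x.1.fams x.2.2 = true :=
  fun c hc => exists_of_c1Chk (List.all_eq_true.1 c1_hex_chk c hc)

end Pool.Agent.H21.FT
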