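import Pool.Agent.H21.FT.C1Defs

/-!
# Kernel checks of the certificates for the rigid rows: the Boolean check
-/

namespace Pool.Agent.H21.FT

/-- The certificate `c.2` is correct for the row with number `c.1` of the list. -/
def c1Chk (k : Kind) (l : List (Block × (Row × List LatE))) (c : ℕ × C1Cert) : Bool :=
  match l[c.1]? with
  | some x => c.2.ok k x.2.1 x.1.fams x.2.2
  | none => false

theorem exists_of_c1Chk {k : Kind} {l : List (Block × (Row × List LatE))} {c : ℕ × C1Cert}
    (h : c1Chk k l c = true) : ∃ x, l[c.1]? = some x ∧ c.2.ok k x.2.1 x.1.fams x.2.2 = true := by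
  unfold c1Chk at h
  cases hx : l[c.1]? with
  | none => rw [hx] at h; exact absurd h (by simp)
  | some x => rw [hx] at h; exact ⟨x, rfl, h⟩

end Pool.Agent.H21.FT
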