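import Pool.Agent.H21.FT.Row

/-!
# Certificates for the cubic blocks of the table
-/

namespace Pool.Agent.H21.FT

def cubRow0 : Row :=
  ⟨[⟨⟨-1, 0, 0⟩, ⟨0, -1, 0⟩, ⟨0, 0, 1⟩⟩], ⟨⟨0, 1, 0⟩, ⟨0, 0, 1⟩, ⟨1, 0, 0⟩⟩, ⟨⟨0, 0, 1⟩, ⟨1, 0, 0⟩, ⟨0, 1, 0⟩⟩, 2,
   [⟨⟨⟨1, 0, 0⟩, ⟨0, 1, 0⟩, ⟨0, 0, 1⟩⟩, ⟨⟨0, 0, 0⟩, ⟨0, 0, 0⟩, ⟨0, 0, 0⟩⟩⟩,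
    ⟨⟨⟨-1, 0, 0⟩, ⟨0, -1, 0⟩, ⟨0, 0, 1⟩⟩, ⟨⟨0, 0, 0⟩, ⟨0, 0, 0⟩, ⟨0, 0, 0⟩⟩⟩,
    ⟨⟨⟨0, 1, 0⟩, ⟨0, 0, 1⟩, ⟨1, 0, 0⟩⟩, ⟨⟨1, 0, 0⟩, ⟨0, 1, 0⟩, ⟨0, 0, 1⟩⟩⟩,
    ⟨⟨⟨0, 0, 1⟩, ⟨1, 0, 0⟩, ⟨0, 1, 0⟩⟩, ⟨⟨0, 0, -1⟩, ⟨-1, 0, 0⟩, ⟨0, -1, 0⟩⟩⟩,
    ⟨⟨⟨0, -1, 0⟩, ⟨0, 0, -1⟩, ⟨1, 0, 0⟩⟩, ⟨⟨-1, 0, 0⟩, ⟨0, -1, 0⟩, ⟨0, 0, 1⟩⟩⟩,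
    ⟨⟨⟨0, 0, -1⟩, ⟨-1, 0, 0⟩, ⟨0, 1, 0⟩⟩, ⟨⟨0, 0, 1⟩, ⟨1, 0, 0⟩, ⟨0, -1, 0⟩⟩⟩,
    ⟨⟨⟨0, -1, 0⟩, ⟨0, 0, 1⟩, ⟨-1, 0, 0⟩⟩, ⟨⟨1, 0, 0⟩, ⟨0, 1, 0⟩, ⟨0, 0, 1⟩⟩⟩,
    ⟨⟨⟨0, 0, 1⟩, ⟨-1, 0, 0⟩, ⟨0, -1, 0⟩⟩, ⟨⟨0, 0, -1⟩, ⟨-1, 0, 0⟩, ⟨0, -1, 0⟩⟩⟩,
    ⟨⟨⟨0, 1, 0⟩, ⟨0, 0, -1⟩, ⟨-1, 0, 0⟩⟩, ⟨⟨-1, 0, 0⟩, ⟨0, -1, 0⟩, ⟨0, 0, 1⟩⟩⟩,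
    ⟨⟨⟨0, 0, -1⟩, ⟨1, 0, 0⟩, ⟨0, -1, 0⟩⟩, ⟨⟨0, 0, 1⟩, ⟨1, 0, 0⟩, ⟨0, -1, 0⟩⟩⟩,
    ⟨⟨⟨-1, 0, 0⟩, ⟨0, 1, 0⟩, ⟨0, 0, -1⟩⟩, ⟨⟨2, 0, 0⟩, ⟨0, 0, 0⟩, ⟨0, 0, 2⟩⟩⟩,
    ⟨⟨⟨1, 0, 0⟩, ⟨0, -1, 0⟩, ⟨0, 0, -1⟩⟩, ⟨⟨0, 0, 0⟩, ⟨-2, 0, 0⟩, ⟨0, -2, 0⟩⟩⟩],
   [(0, 0), (0, 1), (0, 2), (1, 1), (1, 2), (2, 0), (3, 0), (4, 0), (5, 0), (6, 2), (7, 1)],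
   [⟨⟨0, 0, 0⟩, ⟨0, 0, 0⟩, ⟨0, 0, 0⟩⟩,
    ⟨⟨1, 1, 1⟩, ⟨1, 1, 1⟩, ⟨1, 1, 1⟩⟩,
    ⟨⟨-1, -1, -1⟩, ⟨-1, -1, -1⟩, ⟨-1, -1, -1⟩⟩,
    ⟨⟨-1, -1, -1⟩, ⟨-1, -1, -1⟩, ⟨1, 1, 1⟩⟩,
    ⟨⟨1, 1, 1⟩, ⟨1, 1, 1⟩, ⟨-1, -1, -1⟩⟩,
    ⟨⟨1, -1, -1⟩, ⟨-1, 1, 1⟩, ⟨-1, 1, 1⟩⟩,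
    ⟨⟨1, -1, -1⟩, ⟨-1, 1, 1⟩, ⟨1, -1, -1⟩⟩,
    ⟨⟨-1, 1, 1⟩, ⟨1, -1, -1⟩, ⟨-1, 1, 1⟩⟩,
    ⟨⟨-2, 0, 0⟩, ⟨2, 0, 0⟩, ⟨0, 2, 2⟩⟩,
    ⟨⟨-2, 0, 0⟩, ⟨2, 0, 0⟩, ⟨0, -2, -2⟩⟩,
    ⟨⟨-1, 1, 1⟩, ⟨1, -1, -1⟩, ⟨1, -1, -1⟩⟩,
    ⟨⟨2, 0, 0⟩, ⟨2, 0, 0⟩, ⟨0, 2, 2⟩⟩,
    ⟨⟨2, 0, 0⟩, ⟨-2, 0, 0⟩, ⟨0, 2, 2⟩⟩,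
    ⟨⟨-2, 0, 0⟩, ⟨-2, 0, 0⟩, ⟨0, -2, -2⟩⟩,
    ⟨⟨2, 0, 0⟩, ⟨-2, 0, 0⟩, ⟨0, -2, -2⟩⟩],
   [[(1, 0), (2, 0), (3, 0)],
    [(0, 0), (4, 0), (5, 0)],
    [(6, 0), (3, 1), (0, 0)],
    [(7, 0), (0, 0), (2, 2)],
    [(8, 0), (5, 3), (1, 0)],
    [(9, 0), (1, 0), (4, 4)],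
    [(2, 0), (9, 5), (10, 0)],
    [(3, 0), (11, 0), (8, 6)],
    [(4, 0), (7, 7), (11, 8)],
    [(5, 0), (10, 9), (6, 10)],
    [(11, 11), (6, 0), (9, 12)],
    [(10, 13), (8, 14), (7, 0)]]⟩

def cubLat0 : List LatE :=
  [⟨⟨⟨1, 1, 0⟩, ⟨0, 1, 1⟩, ⟨0, 0, 2⟩⟩, 2, ⟨⟨0, 0, 0⟩, ⟨0, 0, 0⟩, ⟨0, 0, 0⟩⟩⟩,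
   ⟨⟨⟨1, 1, 0⟩, ⟨0, 1, 1⟩, ⟨0, 0, 2⟩⟩, 2, ⟨⟨0, 0, 0⟩, ⟨0, 0, 0⟩, ⟨0, 0, 0⟩⟩⟩,
   ⟨⟨⟨1, 1, 0⟩, ⟨0, 1, 1⟩, ⟨0, 0, 2⟩⟩, 2, ⟨⟨0, 0, 0⟩, ⟨0, 0, 0⟩, ⟨0, 0, 0⟩⟩⟩,
   ⟨⟨⟨1, 1, 0⟩, ⟨0, 1, 1⟩, ⟨0, 0, 2⟩⟩, 2, ⟨⟨0, 0, 0⟩, ⟨0, 0, 0⟩, ⟨0, 0, 0⟩⟩⟩]

def cubRow1 : Row :=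
  ⟨[⟨⟨-1, 0, 0⟩, ⟨0, -1, 0⟩, ⟨0, 0, 1⟩⟩], ⟨⟨0, 1, 0⟩, ⟨0, 0, 1⟩, ⟨-1, 0, 0⟩⟩, ⟨⟨0, 0, -1⟩, ⟨1, 0, 0⟩, ⟨0, 1, 0⟩⟩, 2,
   [⟨⟨⟨1, 0, 0⟩, ⟨0, 1, 0⟩, ⟨0, 0, 1⟩⟩, ⟨⟨0, 0, 0⟩, ⟨0, 0, 0⟩, ⟨0, 0, 0⟩⟩⟩,
    ⟨⟨⟨-1, 0, 0⟩, ⟨0, -1, 0⟩, ⟨0, 0, 1⟩⟩, ⟨⟨0, 0, 0⟩, ⟨0, 0, 0⟩, ⟨0, 0, 0⟩⟩⟩,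
    ⟨⟨⟨0, 1, 0⟩, ⟨0, 0, 1⟩, ⟨-1, 0, 0⟩⟩, ⟨⟨1, 0, 0⟩, ⟨0, 1, 0⟩, ⟨0, 0, 1⟩⟩⟩,
    ⟨⟨⟨0, 0, -1⟩, ⟨1, 0, 0⟩, ⟨0, 1, 0⟩⟩, ⟨⟨0, 0, 1⟩, ⟨-1, 0, 0⟩, ⟨0, -1, 0⟩⟩⟩,
    ⟨⟨⟨0, -1, 0⟩, ⟨0, 0, -1⟩, ⟨-1, 0, 0⟩⟩, ⟨⟨-1, 0, 0⟩, ⟨0, -1, 0⟩, ⟨0, 0, 1⟩⟩⟩,
    ⟨⟨⟨0, 0, 1⟩, ⟨-1, 0, 0⟩, ⟨0, 1, 0⟩⟩, ⟨⟨0, 0, -1⟩, ⟨1, 0, 0⟩, ⟨0, -1, 0⟩⟩⟩,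
    ⟨⟨⟨0, -1, 0⟩, ⟨0, 0, 1⟩, ⟨1, 0, 0⟩⟩, ⟨⟨1, 0, 0⟩, ⟨0, 1, 0⟩, ⟨0, 0, 1⟩⟩⟩,
    ⟨⟨⟨0, 0, 1⟩, ⟨-1, 0, 0⟩, ⟨0, -1, 0⟩⟩, ⟨⟨1, 1, 0⟩, ⟨0, 1, 1⟩, ⟨-1, 0, 1⟩⟩⟩,
    ⟨⟨⟨0, 0, -1⟩, ⟨-1, 0, 0⟩, ⟨0, -1, 0⟩⟩, ⟨⟨0, 0, 1⟩, ⟨-1, 0, 0⟩, ⟨0, -1, 0⟩⟩⟩,
    ⟨⟨⟨0, -1, 0⟩, ⟨0, 0, -1⟩, ⟨1, 0, 0⟩⟩, ⟨⟨0, 1, 1⟩, ⟨-1, 0, 1⟩, ⟨-1, -1, 0⟩⟩⟩,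
    ⟨⟨⟨0, 1, 0⟩, ⟨0, 0, -1⟩, ⟨1, 0, 0⟩⟩, ⟨⟨-1, 0, 0⟩, ⟨0, -1, 0⟩, ⟨0, 0, 1⟩⟩⟩,
    ⟨⟨⟨0, 0, -1⟩, ⟨1, 0, 0⟩, ⟨0, -1, 0⟩⟩, ⟨⟨-1, -1, 0⟩, ⟨0, -1, -1⟩, ⟨-1, 0, 1⟩⟩⟩,
    ⟨⟨⟨0, 0, 1⟩, ⟨1, 0, 0⟩, ⟨0, -1, 0⟩⟩, ⟨⟨0, 0, -1⟩, ⟨1, 0, 0⟩, ⟨0, -1, 0⟩⟩⟩,
    ⟨⟨⟨0, 1, 0⟩, ⟨0, 0, 1⟩, ⟨1, 0, 0⟩⟩, ⟨⟨0, -1, -1⟩, ⟨1, 0, -1⟩, ⟨-1, -1, 0⟩⟩⟩,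
    ⟨⟨⟨0, 0, -1⟩, ⟨-1, 0, 0⟩, ⟨0, 1, 0⟩⟩, ⟨⟨1, -1, 0⟩, ⟨0, 1, 1⟩, ⟨1, 0, 1⟩⟩⟩,
    ⟨⟨⟨-1, 0, 0⟩, ⟨0, 1, 0⟩, ⟨0, 0, -1⟩⟩, ⟨⟨2, 0, 0⟩, ⟨0, 0, 0⟩, ⟨0, 0, 2⟩⟩⟩,
    ⟨⟨⟨0, 0, 1⟩, ⟨1, 0, 0⟩, ⟨0, 1, 0⟩⟩, ⟨⟨1, 1, 0⟩, ⟨0, 1, 1⟩, ⟨-1, 0, 1⟩⟩⟩,
    ⟨⟨⟨-1, 0, 0⟩, ⟨0, -1, 0⟩, ⟨0, 0, -1⟩⟩, ⟨⟨1, 1, 1⟩, ⟨-1, 1, 1⟩, ⟨-1, -1, 1⟩⟩⟩,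
    ⟨⟨⟨1, 0, 0⟩, ⟨0, -1, 0⟩, ⟨0, 0, -1⟩⟩, ⟨⟨0, 0, 0⟩, ⟨-2, 0, 0⟩, ⟨0, -2, 0⟩⟩⟩,
    ⟨⟨⟨0, -1, 0⟩, ⟨0, 0, 1⟩, ⟨-1, 0, 0⟩⟩, ⟨⟨0, 1, 1⟩, ⟨-1, 0, -1⟩, ⟨1, -1, 0⟩⟩⟩,
    ⟨⟨⟨0, 1, 0⟩, ⟨0, 0, -1⟩, ⟨-1, 0, 0⟩⟩, ⟨⟨0, 1, 1⟩, ⟨-1, 0, 1⟩, ⟨-1, -1, 0⟩⟩⟩,
    ⟨⟨⟨1, 0, 0⟩, ⟨0, 1, 0⟩, ⟨0, 0, -1⟩⟩, ⟨⟨-1, -1, -1⟩, ⟨1, -1, -1⟩, ⟨-1, -1, 1⟩⟩⟩,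
    ⟨⟨⟨1, 0, 0⟩, ⟨0, -1, 0⟩, ⟨0, 0, 1⟩⟩, ⟨⟨1, -1, -1⟩, ⟨-1, 1, 1⟩, ⟨1, 1, 1⟩⟩⟩,
    ⟨⟨⟨-1, 0, 0⟩, ⟨0, 1, 0⟩, ⟨0, 0, 1⟩⟩, ⟨⟨1, 1, 1⟩, ⟨1, 1, 1⟩, ⟨-1, 1, 1⟩⟩⟩],
   [(0, 0), (0, 1), (0, 2), (1, 1), (1, 2), (2, 0), (2, 1), (3, 0), (3, 2), (4, 0), (4, 1), (5, 0), (5, 2), (6, 1), (6, 2), (7, 0), (7, 1), (8, 1), (8, 2), (9, 0), (11, 1), (14, 1), (16, 1)],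
   [⟨⟨0, 0, 0⟩, ⟨0, 0, 0⟩, ⟨0, 0, 0⟩⟩,
    ⟨⟨-2, 0, 0⟩, ⟨0, -2, -2⟩, ⟨2, 0, 0⟩⟩,
    ⟨⟨-2, 0, 0⟩, ⟨2, 0, 0⟩, ⟨0, 2, 2⟩⟩,
    ⟨⟨-2, 0, 0⟩, ⟨0, -2, -2⟩, ⟨-2, 0, 0⟩⟩,
    ⟨⟨-2, 0, 0⟩, ⟨2, 0, 0⟩, ⟨0, -2, -2⟩⟩,
    ⟨⟨0, -2, -2⟩, ⟨2, 0, 0⟩, ⟨2, 0, 0⟩⟩,
    ⟨⟨0, -2, -2⟩, ⟨2, 0, 0⟩, ⟨-2, 0, 0⟩⟩,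
    ⟨⟨2, 0, 0⟩, ⟨0, 2, 2⟩, ⟨2, 0, 0⟩⟩,
    ⟨⟨2, 0, 0⟩, ⟨2, 0, 0⟩, ⟨0, 2, 2⟩⟩,
    ⟨⟨2, 0, 0⟩, ⟨-2, 0, 0⟩, ⟨0, 2, 2⟩⟩,
    ⟨⟨2, 0, 0⟩, ⟨0, 2, 2⟩, ⟨-2, 0, 0⟩⟩,
    ⟨⟨2, 2, 2⟩, ⟨-2, 2, 2⟩, ⟨0, 0, 0⟩⟩,
    ⟨⟨-2, 0, 0⟩, ⟨-2, 0, 0⟩, ⟨0, -2, -2⟩⟩,
    ⟨⟨2, 0, 0⟩, ⟨-2, 0, 0⟩, ⟨0, -2, -2⟩⟩,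
    ⟨⟨0, 2, 2⟩, ⟨-2, 0, 0⟩, ⟨2, 0, 0⟩⟩,
    ⟨⟨0, 0, 0⟩, ⟨-2, -2, -2⟩, ⟨2, -2, -2⟩⟩,
    ⟨⟨0, 2, 2⟩, ⟨-2, 0, 0⟩, ⟨-2, 0, 0⟩⟩,
    ⟨⟨-2, 2, 2⟩, ⟨0, 0, 0⟩, ⟨-2, -2, -2⟩⟩,
    ⟨⟨-2, -2, -2⟩, ⟨2, -2, -2⟩, ⟨0, 0, 0⟩⟩,
    ⟨⟨0, -2, -2⟩, ⟨-2, 0, 0⟩, ⟨2, 0, 0⟩⟩,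
    ⟨⟨2, -2, -2⟩, ⟨0, 0, 0⟩, ⟨2, 2, 2⟩⟩,
    ⟨⟨0, 2, 2⟩, ⟨2, 0, 0⟩, ⟨-2, 0, 0⟩⟩,
    ⟨⟨0, 0, 0⟩, ⟨2, 2, 2⟩, ⟨-2, 2, 2⟩⟩],
   [[(1, 0), (2, 0), (3, 0)],
    [(0, 0), (4, 0), (5, 0)],
    [(6, 0), (7, 0), (0, 0)],
    [(8, 0), (0, 0), (9, 0)],
    [(10, 0), (11, 0), (1, 0)],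
    [(12, 0), (1, 0), (13, 0)],
    [(2, 0), (14, 0), (15, 0)],
    [(16, 0), (17, 0), (2, 0)],
    [(3, 0), (18, 0), (19, 0)],
    [(20, 0), (3, 0), (17, 0)],
    [(4, 0), (16, 1), (18, 2)],
    [(14, 3), (21, 0), (4, 0)],
    [(5, 0), (15, 4), (20, 5)],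
    [(19, 6), (5, 0), (21, 0)],
    [(11, 7), (22, 0), (6, 0)],
    [(18, 8), (6, 0), (12, 9)],
    [(7, 0), (23, 0), (10, 10)],
    [(21, 11), (9, 0), (7, 0)],
    [(15, 12), (10, 13), (8, 0)],
    [(13, 14), (8, 0), (23, 15)],
    [(9, 0), (12, 16), (22, 17)],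
    [(17, 18), (13, 0), (11, 0)],
    [(23, 19), (20, 20), (14, 0)],
    [(22, 21), (19, 22), (16, 0)]]⟩

def cubLat1 : List LatE :=
  [⟨⟨⟨1, 0, 0⟩, ⟨0, 1, 0⟩, ⟨0, 0, 1⟩⟩, 1, ⟨⟨0, 0, 0⟩, ⟨0, 0, 0⟩, ⟨0, 0, 0⟩⟩⟩,
   ⟨⟨⟨1, 1, 1⟩, ⟨0, 2, 0⟩, ⟨0, 0, 2⟩⟩, 2, ⟨⟨0, 0, 0⟩, ⟨0, 0, 0⟩, ⟨0, 0, 0⟩⟩⟩,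
   ⟨⟨⟨1, 1, 1⟩, ⟨0, 2, 0⟩, ⟨0, 0, 2⟩⟩, 2, ⟨⟨0, 0, 0⟩, ⟨0, 0, 0⟩, ⟨0, 0, 0⟩⟩⟩,
   ⟨⟨⟨1, 1, 0⟩, ⟨0, 1, 1⟩, ⟨0, 0, 2⟩⟩, 2, ⟨⟨0, 0, 0⟩, ⟨0, 0, 0⟩, ⟨0, 0, 0⟩⟩⟩,
   ⟨⟨⟨1, 1, 0⟩, ⟨0, 1, 1⟩, ⟨0, 0, 2⟩⟩, 2, ⟨⟨0, 0, 0⟩, ⟨0, 0, 0⟩, ⟨0, 0, 0⟩⟩⟩]

def cubRow2 : Row :=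
  ⟨[⟨⟨-1, 0, 0⟩, ⟨0, 0, -1⟩, ⟨0, -1, 0⟩⟩], ⟨⟨0, 1, 0⟩, ⟨0, 0, 1⟩, ⟨-1, 0, 0⟩⟩, ⟨⟨0, 0, -1⟩, ⟨1, 0, 0⟩, ⟨0, 1, 0⟩⟩, 2,
   [⟨⟨⟨1, 0, 0⟩, ⟨0, 1, 0⟩, ⟨0, 0, 1⟩⟩, ⟨⟨0, 0, 0⟩, ⟨0, 0, 0⟩, ⟨0, 0, 0⟩⟩⟩,
    ⟨⟨⟨-1, 0, 0⟩, ⟨0, 0, -1⟩, ⟨0, -1, 0⟩⟩, ⟨⟨0, 0, 0⟩, ⟨0, 0, 0⟩, ⟨0, 0, 0⟩⟩⟩,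
    ⟨⟨⟨0, 1, 0⟩, ⟨0, 0, 1⟩, ⟨-1, 0, 0⟩⟩, ⟨⟨1, 0, 0⟩, ⟨0, 1, 0⟩, ⟨0, 0, 1⟩⟩⟩,
    ⟨⟨⟨0, 0, -1⟩, ⟨1, 0, 0⟩, ⟨0, 1, 0⟩⟩, ⟨⟨0, 0, 1⟩, ⟨-1, 0, 0⟩, ⟨0, -1, 0⟩⟩⟩,
    ⟨⟨⟨0, -1, 0⟩, ⟨1, 0, 0⟩, ⟨0, 0, -1⟩⟩, ⟨⟨-1, 0, 0⟩, ⟨0, 0, -1⟩, ⟨0, -1, 0⟩⟩⟩,
    ⟨⟨⟨0, 0, 1⟩, ⟨0, -1, 0⟩, ⟨-1, 0, 0⟩⟩, ⟨⟨0, 0, -1⟩, ⟨0, 1, 0⟩, ⟨1, 0, 0⟩⟩⟩,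
    ⟨⟨⟨0, 0, -1⟩, ⟨0, -1, 0⟩, ⟨1, 0, 0⟩⟩, ⟨⟨1, 0, 0⟩, ⟨0, 1, 0⟩, ⟨0, 0, 1⟩⟩⟩,
    ⟨⟨⟨0, 0, 1⟩, ⟨-1, 0, 0⟩, ⟨0, -1, 0⟩⟩, ⟨⟨1, 1, 0⟩, ⟨0, 1, 1⟩, ⟨-1, 0, 1⟩⟩⟩,
    ⟨⟨⟨0, 1, 0⟩, ⟨-1, 0, 0⟩, ⟨0, 0, -1⟩⟩, ⟨⟨0, 0, 1⟩, ⟨-1, 0, 0⟩, ⟨0, -1, 0⟩⟩⟩,
    ⟨⟨⟨0, -1, 0⟩, ⟨0, 0, -1⟩, ⟨1, 0, 0⟩⟩, ⟨⟨0, 1, 1⟩, ⟨-1, 0, 1⟩, ⟨-1, -1, 0⟩⟩⟩,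
    ⟨⟨⟨0, 0, 1⟩, ⟨-1, 0, 0⟩, ⟨0, 1, 0⟩⟩, ⟨⟨-1, 0, 0⟩, ⟨0, 0, -1⟩, ⟨0, -1, 0⟩⟩⟩,
    ⟨⟨⟨0, 0, -1⟩, ⟨0, 1, 0⟩, ⟨1, 0, 0⟩⟩, ⟨⟨-1, -1, 0⟩, ⟨1, 0, -1⟩, ⟨0, -1, -1⟩⟩⟩,
    ⟨⟨⟨0, -1, 0⟩, ⟨0, 0, 1⟩, ⟨1, 0, 0⟩⟩, ⟨⟨0, 0, -1⟩, ⟨0, 1, 0⟩, ⟨1, 0, 0⟩⟩⟩,
    ⟨⟨⟨0, 1, 0⟩, ⟨-1, 0, 0⟩, ⟨0, 0, 1⟩⟩, ⟨⟨0, -1, -1⟩, ⟨1, 1, 0⟩, ⟨1, 0, -1⟩⟩⟩,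
    ⟨⟨⟨1, 0, 0⟩, ⟨0, 0, -1⟩, ⟨0, 1, 0⟩⟩, ⟨⟨1, 0, -1⟩, ⟨0, 0, 0⟩, ⟨1, 0, 1⟩⟩⟩,
    ⟨⟨⟨0, -1, 0⟩, ⟨-1, 0, 0⟩, ⟨0, 0, -1⟩⟩, ⟨⟨1, 1, 0⟩, ⟨1, 1, 0⟩, ⟨0, 0, 2⟩⟩⟩,
    ⟨⟨⟨0, -1, 0⟩, ⟨1, 0, 0⟩, ⟨0, 0, 1⟩⟩, ⟨⟨1, 1, 0⟩, ⟨0, 1, 1⟩, ⟨-1, 0, 1⟩⟩⟩,
    ⟨⟨⟨-1, 0, 0⟩, ⟨0, -1, 0⟩, ⟨0, 0, -1⟩⟩, ⟨⟨1, 1, 1⟩, ⟨-1, 1, 1⟩, ⟨-1, -1, 1⟩⟩⟩,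
    ⟨⟨⟨0, 0, 1⟩, ⟨0, -1, 0⟩, ⟨1, 0, 0⟩⟩, ⟨⟨0, 1, 1⟩, ⟨-2, 0, 0⟩, ⟨0, -1, -1⟩⟩⟩,
    ⟨⟨⟨1, 0, 0⟩, ⟨0, 0, 1⟩, ⟨0, -1, 0⟩⟩, ⟨⟨-1, 0, 1⟩, ⟨-1, 0, -1⟩, ⟨0, 0, 0⟩⟩⟩,
    ⟨⟨⟨0, 0, 1⟩, ⟨0, 1, 0⟩, ⟨-1, 0, 0⟩⟩, ⟨⟨0, 1, 1⟩, ⟨-1, 0, 1⟩, ⟨-1, -1, 0⟩⟩⟩,
    ⟨⟨⟨-1, 0, 0⟩, ⟨0, -1, 0⟩, ⟨0, 0, 1⟩⟩, ⟨⟨-1, 0, 1⟩, ⟨-1, 0, -1⟩, ⟨0, 0, 0⟩⟩⟩,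
    ⟨⟨⟨0, 1, 0⟩, ⟨0, 0, 1⟩, ⟨1, 0, 0⟩⟩, ⟨⟨-1, -1, 0⟩, ⟨0, 0, -2⟩, ⟨-1, -1, 0⟩⟩⟩,
    ⟨⟨⟨0, 1, 0⟩, ⟨0, 0, -1⟩, ⟨-1, 0, 0⟩⟩, ⟨⟨-1, -1, 0⟩, ⟨1, 0, -1⟩, ⟨0, -1, -1⟩⟩⟩,
    ⟨⟨⟨1, 0, 0⟩, ⟨0, 0, 1⟩, ⟨0, 1, 0⟩⟩, ⟨⟨-1, -1, -1⟩, ⟨1, 1, -1⟩, ⟨1, -1, -1⟩⟩⟩,
    ⟨⟨⟨0, 0, -1⟩, ⟨-1, 0, 0⟩, ⟨0, 1, 0⟩⟩, ⟨⟨0, -1, -1⟩, ⟨0, 1, 1⟩, ⟨2, 0, 0⟩⟩⟩,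
    ⟨⟨⟨-1, 0, 0⟩, ⟨0, 1, 0⟩, ⟨0, 0, -1⟩⟩, ⟨⟨1, 0, -1⟩, ⟨0, 0, 0⟩, ⟨1, 0, 1⟩⟩⟩,
    ⟨⟨⟨0, 0, -1⟩, ⟨1, 0, 0⟩, ⟨0, -1, 0⟩⟩, ⟨⟨0, -1, -1⟩, ⟨1, 1, 0⟩, ⟨1, 0, -1⟩⟩⟩,
    ⟨⟨⟨0, 1, 0⟩, ⟨1, 0, 0⟩, ⟨0, 0, 1⟩⟩, ⟨⟨2, 0, -1⟩, ⟨0, 0, -1⟩, ⟨1, 1, 1⟩⟩⟩,
    ⟨⟨⟨0, 0, 1⟩, ⟨1, 0, 0⟩, ⟨0, 1, 0⟩⟩, ⟨⟨1, 1, 0⟩, ⟨1, 1, 0⟩, ⟨0, 0, 2⟩⟩⟩,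
    ⟨⟨⟨-1, 0, 0⟩, ⟨0, 0, 1⟩, ⟨0, -1, 0⟩⟩, ⟨⟨2, 1, 0⟩, ⟨1, 1, -1⟩, ⟨0, 1, 2⟩⟩⟩,
    ⟨⟨⟨0, 0, -1⟩, ⟨0, 1, 0⟩, ⟨-1, 0, 0⟩⟩, ⟨⟨1, 0, 0⟩, ⟨1, 1, 1⟩, ⟨-1, 0, 2⟩⟩⟩,
    ⟨⟨⟨-1, 0, 0⟩, ⟨0, 0, -1⟩, ⟨0, 1, 0⟩⟩, ⟨⟨2, 1, 0⟩, ⟨0, 1, 2⟩, ⟨-1, -1, 1⟩⟩⟩,
    ⟨⟨⟨0, -1, 0⟩, ⟨0, 0, 1⟩, ⟨-1, 0, 0⟩⟩, ⟨⟨0, 1, 1⟩, ⟨-2, 0, 0⟩, ⟨0, -1, -1⟩⟩⟩,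
    ⟨⟨⟨0, -1, 0⟩, ⟨0, 0, -1⟩, ⟨-1, 0, 0⟩⟩, ⟨⟨-2, 0, 1⟩, ⟨-1, -1, -1⟩, ⟨0, 0, 1⟩⟩⟩,
    ⟨⟨⟨0, 0, -1⟩, ⟨0, -1, 0⟩, ⟨-1, 0, 0⟩⟩, ⟨⟨-1, -1, 0⟩, ⟨0, 0, -2⟩, ⟨-1, -1, 0⟩⟩⟩,
    ⟨⟨⟨1, 0, 0⟩, ⟨0, 1, 0⟩, ⟨0, 0, -1⟩⟩, ⟨⟨-2, -1, 0⟩, ⟨0, -1, -2⟩, ⟨-1, -1, 1⟩⟩⟩,
    ⟨⟨⟨0, 0, 1⟩, ⟨1, 0, 0⟩, ⟨0, -1, 0⟩⟩, ⟨⟨-1, 0, 0⟩, ⟨1, 0, -2⟩, ⟨-1, -1, -1⟩⟩⟩,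
    ⟨⟨⟨1, 0, 0⟩, ⟨0, -1, 0⟩, ⟨0, 0, 1⟩⟩, ⟨⟨-2, -1, 0⟩, ⟨1, 1, -1⟩, ⟨0, -1, -2⟩⟩⟩,
    ⟨⟨⟨0, 1, 0⟩, ⟨1, 0, 0⟩, ⟨0, 0, -1⟩⟩, ⟨⟨0, -1, -1⟩, ⟨0, 1, 1⟩, ⟨2, 0, 0⟩⟩⟩,
    ⟨⟨⟨0, 0, -1⟩, ⟨-1, 0, 0⟩, ⟨0, -1, 0⟩⟩, ⟨⟨2, 0, -1⟩, ⟨0, 0, -1⟩, ⟨1, 1, 1⟩⟩⟩,
    ⟨⟨⟨-1, 0, 0⟩, ⟨0, 1, 0⟩, ⟨0, 0, 1⟩⟩, ⟨⟨1, 1, 1⟩, ⟨2, 1, 0⟩, ⟨0, 1, 2⟩⟩⟩,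
    ⟨⟨⟨0, 1, 0⟩, ⟨0, 0, -1⟩, ⟨1, 0, 0⟩⟩, ⟨⟨1, 0, 0⟩, ⟨1, 1, 1⟩, ⟨-1, 0, 2⟩⟩⟩,
    ⟨⟨⟨0, 0, 1⟩, ⟨0, 1, 0⟩, ⟨1, 0, 0⟩⟩, ⟨⟨-2, 0, 1⟩, ⟨-1, -1, -1⟩, ⟨0, 0, 1⟩⟩⟩,
    ⟨⟨⟨1, 0, 0⟩, ⟨0, 0, -1⟩, ⟨0, -1, 0⟩⟩, ⟨⟨-1, -1, -1⟩, ⟨0, -1, -2⟩, ⟨-2, -1, 0⟩⟩⟩,
    ⟨⟨⟨0, -1, 0⟩, ⟨-1, 0, 0⟩, ⟨0, 0, 1⟩⟩, ⟨⟨-1, 0, 0⟩, ⟨1, 0, -2⟩, ⟨-1, -1, -1⟩⟩⟩,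
    ⟨⟨⟨1, 0, 0⟩, ⟨0, -1, 0⟩, ⟨0, 0, -1⟩⟩, ⟨⟨2, 0, -2⟩, ⟨-1, 0, -1⟩, ⟨1, 0, 1⟩⟩⟩,
    ⟨⟨⟨-1, 0, 0⟩, ⟨0, 0, 1⟩, ⟨0, 1, 0⟩⟩, ⟨⟨-2, 0, 2⟩, ⟨-1, 0, -1⟩, ⟨1, 0, 1⟩⟩⟩],
   [(0, 0), (0, 1), (0, 2), (1, 1), (1, 2), (2, 0), (2, 1), (3, 0), (3, 2), (4, 0), (4, 1), (5, 0), (5, 2), (6, 1), (6, 2), (7, 0), (7, 1), (8, 1), (8, 2), (9, 0), (10, 1), (10, 2), (11, 0), (11, 1), (12, 1), (12, 2), (13, 0), (14, 1), (15, 0), (15, 2), (16, 1), (16, 2), (18, 0), (21, 1), (22, 0), (22, 2), (23, 1), (23, 2), (25, 0), (28, 0), (29,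 1), (29, 2), (34, 0), (35, 1), (35, 2), (40, 1), (43, 1)],
   [⟨⟨0, 0, 0⟩, ⟨0, 0, 0⟩, ⟨0, 0, 0⟩⟩,
    ⟨⟨2, 2, 2⟩, ⟨-2, 0, 2⟩, ⟨-2, 0, 2⟩⟩,
    ⟨⟨-2, 0, 2⟩, ⟨-2, -2, -2⟩, ⟨2, 0, -2⟩⟩,
    ⟨⟨-2, 0, 2⟩, ⟨-2, 0, 2⟩, ⟨-2, -2, -2⟩⟩,
    ⟨⟨-2, -2, -2⟩, ⟨2, 0, -2⟩, ⟨2, 0, -2⟩⟩,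
    ⟨⟨2, 0, -2⟩, ⟨-2, 0, 2⟩, ⟨2, 2, 2⟩⟩,
    ⟨⟨2, 0, -2⟩, ⟨2, 2, 2⟩, ⟨2, 0, -2⟩⟩,
    ⟨⟨2, 0, -2⟩, ⟨2, 0, -2⟩, ⟨2, 2, 2⟩⟩,
    ⟨⟨4, 2, 0⟩, ⟨0, 0, 0⟩, ⟨0, 2, 4⟩⟩,
    ⟨⟨2, 0, -2⟩, ⟨2, 2, 2⟩, ⟨-2, 0, 2⟩⟩,
    ⟨⟨4, 2, 0⟩, ⟨0, 2, 4⟩, ⟨0, 0, 0⟩⟩,
    ⟨⟨0, 0, 0⟩, ⟨-4, -2, 0⟩, ⟨0, -2, -4⟩⟩,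
    ⟨⟨-2, 0, 2⟩, ⟨-2, -2, -2⟩, ⟨-2, 0, 2⟩⟩,
    ⟨⟨-4, -2, 0⟩, ⟨0, -2, -4⟩, ⟨0, 0, 0⟩⟩,
    ⟨⟨-2, 0, 2⟩, ⟨2, 0, -2⟩, ⟨-2, -2, -2⟩⟩,
    ⟨⟨-4, -2, 0⟩, ⟨0, 0, 0⟩, ⟨0, -2, -4⟩⟩,
    ⟨⟨0, 0, 0⟩, ⟨0, 2, 4⟩, ⟨4, 2, 0⟩⟩,
    ⟨⟨2, 2, 2⟩, ⟨2, 2, 2⟩, ⟨2, 2, 2⟩⟩,
    ⟨⟨0, 0, 0⟩, ⟨4, 2, 0⟩, ⟨0, 2, 4⟩⟩,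
    ⟨⟨-2, 0, 2⟩, ⟨2, 2, 2⟩, ⟨-2, 0, 2⟩⟩,
    ⟨⟨-2, -2, -2⟩, ⟨-2, -2, -2⟩, ⟨-2, -2, -2⟩⟩,
    ⟨⟨0, 0, 0⟩, ⟨0, -2, -4⟩, ⟨-4, -2, 0⟩⟩,
    ⟨⟨2, 0, -2⟩, ⟨2, 0, -2⟩, ⟨-2, -2, -2⟩⟩,
    ⟨⟨4, 0, -4⟩, ⟨0, 0, 0⟩, ⟨0, 0, 0⟩⟩,
    ⟨⟨2, 0, -2⟩, ⟨-2, -2, -2⟩, ⟨2, 0, -2⟩⟩,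
    ⟨⟨-4, 0, 4⟩, ⟨0, 0, 0⟩, ⟨0, 0, 0⟩⟩,
    ⟨⟨-2, 0, 2⟩, ⟨-2, 0, 2⟩, ⟨2, 2, 2⟩⟩],
   [[(1, 0), (2, 0), (3, 0)],
    [(0, 0), (4, 0), (5, 0)],
    [(6, 0), (7, 0), (0, 0)],
    [(8, 0), (0, 0), (9, 0)],
    [(10, 0), (11, 0), (1, 0)],
    [(12, 0), (1, 0), (13, 0)],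
    [(2, 0), (14, 0), (15, 0)],
    [(16, 0), (17, 0), (2, 0)],
    [(3, 0), (18, 0), (19, 0)],
    [(20, 0), (3, 0), (17, 0)],
    [(4, 0), (21, 0), (22, 0)],
    [(23, 0), (24, 0), (4, 0)],
    [(5, 0), (25, 0), (26, 0)],
    [(27, 0), (5, 0), (24, 0)],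
    [(26, 0), (28, 0), (6, 0)],
    [(29, 0), (6, 0), (30, 0)],
    [(7, 0), (31, 0), (32, 0)],
    [(24, 1), (9, 0), (7, 0)],
    [(33, 0), (32, 2), (8, 0)],
    [(21, 0), (8, 0), (31, 2)],
    [(9, 0), (30, 3), (28, 3)],
    [(19, 0), (34, 0), (10, 0)],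
    [(35, 0), (10, 0), (36, 0)],
    [(11, 0), (37, 0), (38, 0)],
    [(17, 4), (13, 0), (11, 0)],
    [(39, 0), (38, 5), (12, 0)],
    [(14, 0), (12, 0), (37, 5)],
    [(13, 0), (36, 6), (34, 6)],
    [(40, 0), (20, 7), (14, 0)],
    [(15, 0), (41, 0), (42, 0)],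
    [(38, 8), (15, 0), (20, 7)],
    [(42, 0), (19, 9), (16, 0)],
    [(36, 10), (16, 0), (18, 9)],
    [(18, 0), (40, 3), (41, 11)],
    [(43, 0), (27, 12), (21, 0)],
    [(22, 0), (44, 0), (45, 0)],
    [(32, 13), (22, 0), (27, 12)],
    [(45, 0), (26, 14), (23, 0)],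
    [(30, 15), (23, 0), (25, 14)],
    [(25, 0), (43, 6), (44, 16)],
    [(28, 0), (46, 0), (33, 7)],
    [(44, 17), (33, 18), (29, 0)],
    [(31, 0), (29, 0), (46, 19)],
    [(34, 0), (47, 0), (39, 12)],
    [(41, 20), (39, 21), (35, 0)],
    [(37, 0), (35, 0), (47, 22)],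
    [(47, 23), (42, 24), (40, 0)],
    [(46, 25), (45, 26), (43, 0)]]⟩

def cubLat2 : List LatE :=
  [⟨⟨⟨1, 0, 0⟩, ⟨0, 1, 0⟩, ⟨0, 0, 1⟩⟩, 1, ⟨⟨0, 0, 0⟩, ⟨0, 0, 0⟩, ⟨0, 0, 0⟩⟩⟩,
   ⟨⟨⟨1, 1, 1⟩, ⟨0, 2, 0⟩, ⟨0, 0, 2⟩⟩, 2, ⟨⟨0, 0, 0⟩, ⟨0, 0, 0⟩, ⟨0, 0, 0⟩⟩⟩,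
   ⟨⟨⟨1, 1, 1⟩, ⟨0, 2, 0⟩, ⟨0, 0, 2⟩⟩, 2, ⟨⟨0, 0, 0⟩, ⟨0, 0, 0⟩, ⟨0, 0, 0⟩⟩⟩,
   ⟨⟨⟨1, 1, 0⟩, ⟨0, 1, 1⟩, ⟨0, 0, 2⟩⟩, 2, ⟨⟨0, 0, 0⟩, ⟨0, 0, 0⟩, ⟨0, 0, 0⟩⟩⟩,
   ⟨⟨⟨1, 1, 0⟩, ⟨0, 1, 1⟩, ⟨0, 0, 2⟩⟩, 2, ⟨⟨0, 0, 0⟩, ⟨0, 0, 0⟩, ⟨0, 0, 0⟩⟩⟩]

def cubRow3 : Row :=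
  ⟨[⟨⟨-1, 0, 0⟩, ⟨0, 0, -1⟩, ⟨0, -1, 0⟩⟩], ⟨⟨0, 1, 0⟩, ⟨0, 0, -1⟩, ⟨-1, 0, 0⟩⟩, ⟨⟨0, 0, -1⟩, ⟨1, 0, 0⟩, ⟨0, -1, 0⟩⟩, 2,
   [⟨⟨⟨1, 0, 0⟩, ⟨0, 1, 0⟩, ⟨0, 0, 1⟩⟩, ⟨⟨0, 0, 0⟩, ⟨0, 0, 0⟩, ⟨0, 0, 0⟩⟩⟩,
    ⟨⟨⟨-1, 0, 0⟩, ⟨0, 0, -1⟩, ⟨0, -1, 0⟩⟩, ⟨⟨0, 0, 0⟩, ⟨0, 0, 0⟩, ⟨0, 0, 0⟩⟩⟩,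
    ⟨⟨⟨0, 1, 0⟩, ⟨0, 0, -1⟩, ⟨-1, 0, 0⟩⟩, ⟨⟨1, 0, 0⟩, ⟨0, 1, 0⟩, ⟨0, 0, 1⟩⟩⟩,
    ⟨⟨⟨0, 0, -1⟩, ⟨1, 0, 0⟩, ⟨0, -1, 0⟩⟩, ⟨⟨0, 0, 1⟩, ⟨-1, 0, 0⟩, ⟨0, 1, 0⟩⟩⟩,
    ⟨⟨⟨0, -1, 0⟩, ⟨1, 0, 0⟩, ⟨0, 0, 1⟩⟩, ⟨⟨-1, 0, 0⟩, ⟨0, 0, -1⟩, ⟨0, -1, 0⟩⟩⟩,
    ⟨⟨⟨0, 0, 1⟩, ⟨0, 1, 0⟩, ⟨-1, 0, 0⟩⟩, ⟨⟨0, 0, -1⟩, ⟨0, -1, 0⟩, ⟨1, 0, 0⟩⟩⟩,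
    ⟨⟨⟨0, 0, -1⟩, ⟨0, 1, 0⟩, ⟨1, 0, 0⟩⟩, ⟨⟨1, 0, 0⟩, ⟨0, 1, 0⟩, ⟨0, 0, 1⟩⟩⟩,
    ⟨⟨⟨0, 1, 0⟩, ⟨-1, 0, 0⟩, ⟨0, 0, 1⟩⟩, ⟨⟨0, 0, 1⟩, ⟨-1, 0, 0⟩, ⟨0, 1, 0⟩⟩⟩,
    ⟨⟨⟨0, 0, 1⟩, ⟨-1, 0, 0⟩, ⟨0, -1, 0⟩⟩, ⟨⟨-1, 0, 0⟩, ⟨0, 0, -1⟩, ⟨0, -1, 0⟩⟩⟩,
    ⟨⟨⟨0, -1, 0⟩, ⟨0, 0, -1⟩, ⟨1, 0, 0⟩⟩, ⟨⟨0, 0, -1⟩, ⟨0, -1, 0⟩, ⟨1, 0, 0⟩⟩⟩,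
    ⟨⟨⟨1, 0, 0⟩, ⟨0, 0, -1⟩, ⟨0, 1, 0⟩⟩, ⟨⟨1, 0, -1⟩, ⟨0, 2, 0⟩, ⟨1, 0, 1⟩⟩⟩,
    ⟨⟨⟨0, 1, 0⟩, ⟨1, 0, 0⟩, ⟨0, 0, -1⟩⟩, ⟨⟨1, -1, 0⟩, ⟨-1, 1, 0⟩, ⟨0, 0, 2⟩⟩⟩,
    ⟨⟨⟨0, 0, -1⟩, ⟨0, -1, 0⟩, ⟨-1, 0, 0⟩⟩, ⟨⟨0, 1, 1⟩, ⟨-2, 0, 0⟩, ⟨0, 1, 1⟩⟩⟩,
    ⟨⟨⟨1, 0, 0⟩, ⟨0, 0, 1⟩, ⟨0, -1, 0⟩⟩, ⟨⟨-1, 0, 1⟩, ⟨-1, 0, -1⟩, ⟨0, 2, 0⟩⟩⟩,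
    ⟨⟨⟨-1, 0, 0⟩, ⟨0, -1, 0⟩, ⟨0, 0, 1⟩⟩, ⟨⟨-1, 0, 1⟩, ⟨-1, 0, -1⟩, ⟨0, -2, 0⟩⟩⟩,
    ⟨⟨⟨0, -1, 0⟩, ⟨0, 0, 1⟩, ⟨-1, 0, 0⟩⟩, ⟨⟨-1, 1, 0⟩, ⟨0, 0, -2⟩, ⟨1, -1, 0⟩⟩⟩,
    ⟨⟨⟨0, 0, 1⟩, ⟨1, 0, 0⟩, ⟨0, 1, 0⟩⟩, ⟨⟨0, -1, -1⟩, ⟨0, -1, -1⟩, ⟨2, 0, 0⟩⟩⟩,
    ⟨⟨⟨-1, 0, 0⟩, ⟨0, 1, 0⟩, ⟨0, 0, -1⟩⟩, ⟨⟨1, 0, -1⟩, ⟨0, -2, 0⟩, ⟨1, 0, 1⟩⟩⟩,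
    ⟨⟨⟨0, 0, -1⟩, ⟨-1, 0, 0⟩, ⟨0, 1, 0⟩⟩, ⟨⟨1, -1, 0⟩, ⟨-1, 1, 0⟩, ⟨0, 0, 2⟩⟩⟩,
    ⟨⟨⟨0, 1, 0⟩, ⟨0, 0, 1⟩, ⟨1, 0, 0⟩⟩, ⟨⟨0, 1, 1⟩, ⟨-2, 0, 0⟩, ⟨0, 1, 1⟩⟩⟩,
    ⟨⟨⟨0, 0, 1⟩, ⟨0, -1, 0⟩, ⟨1, 0, 0⟩⟩, ⟨⟨-1, 1, 0⟩, ⟨0, 0, -2⟩, ⟨1, -1, 0⟩⟩⟩,
    ⟨⟨⟨0, -1, 0⟩, ⟨-1, 0, 0⟩, ⟨0, 0, -1⟩⟩, ⟨⟨0, -1, -1⟩, ⟨0, -1, -1⟩, ⟨2, 0, 0⟩⟩⟩,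
    ⟨⟨⟨1, 0, 0⟩, ⟨0, -1, 0⟩, ⟨0, 0, -1⟩⟩, ⟨⟨1, -1, -1⟩, ⟨-2, 1, 0⟩, ⟨0, 1, 2⟩⟩⟩,
    ⟨⟨⟨-1, 0, 0⟩, ⟨0, 0, 1⟩, ⟨0, 1, 0⟩⟩, ⟨⟨-1, 1, 1⟩, ⟨0, -1, -2⟩, ⟨2, -1, 0⟩⟩⟩],
   [(0, 0), (0, 1), (0, 2), (1, 1), (1, 2), (2, 0), (3, 0), (4, 0), (5, 0), (6, 1), (6, 2), (7, 1), (7, 2), (8, 1), (8, 2), (9, 1), (9, 2), (11, 0), (12, 0), (15, 0), (16, 0), (18, 1), (20, 1)],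
   [⟨⟨0, 0, 0⟩, ⟨0, 0, 0⟩, ⟨0, 0, 0⟩⟩,
    ⟨⟨1, 1, -1⟩, ⟨1, 1, -1⟩, ⟨-1, -1, 1⟩⟩,
    ⟨⟨-1, -1, 1⟩, ⟨-1, -1, 1⟩, ⟨1, 1, -1⟩⟩,
    ⟨⟨-1, -1, 1⟩, ⟨1, 1, -1⟩, ⟨-1, -1, 1⟩⟩,
    ⟨⟨1, 1, -1⟩, ⟨-1, -1, 1⟩, ⟨1, 1, -1⟩⟩,
    ⟨⟨0, 0, 0⟩, ⟨0, 4, 0⟩, ⟨0, 0, 0⟩⟩,
    ⟨⟨1, 1, -1⟩, ⟨1, 1, -1⟩, ⟨1, 1, -1⟩⟩,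
    ⟨⟨-1, -1, 1⟩, ⟨-1, -1, 1⟩, ⟨-1, -1, 1⟩⟩,
    ⟨⟨1, 1, -1⟩, ⟨-1, -1, 1⟩, ⟨-1, -1, 1⟩⟩,
    ⟨⟨0, 0, 0⟩, ⟨0, 0, 0⟩, ⟨0, 4, 0⟩⟩,
    ⟨⟨-1, -1, 1⟩, ⟨1, 1, -1⟩, ⟨1, 1, -1⟩⟩,
    ⟨⟨0, 0, 0⟩, ⟨0, 0, 0⟩, ⟨0, -4, 0⟩⟩,
    ⟨⟨0, 0, 0⟩, ⟨0, -4, 0⟩, ⟨0, 0, 0⟩⟩,
    ⟨⟨1, -3, -1⟩, ⟨1, 1, -1⟩, ⟨-1, -1, 1⟩⟩,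
    ⟨⟨-1, 3, 1⟩, ⟨-1, -1, 1⟩, ⟨1, 1, -1⟩⟩,
    ⟨⟨-2, 2, 2⟩, ⟨0, 0, 0⟩, ⟨0, 0, 0⟩⟩,
    ⟨⟨-1, 3, 1⟩, ⟨1, 1, -1⟩, ⟨-1, -1, 1⟩⟩,
    ⟨⟨1, -3, -1⟩, ⟨-1, -1, 1⟩, ⟨1, 1, -1⟩⟩,
    ⟨⟨2, -2, -2⟩, ⟨0, 0, 0⟩, ⟨0, 0, 0⟩⟩,
    ⟨⟨2, -2, -2⟩, ⟨-2, 2, 2⟩, ⟨-2, 2, 2⟩⟩,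
    ⟨⟨-2, 2, 2⟩, ⟨2, -2, -2⟩, ⟨2, -2, -2⟩⟩],
   [[(1, 0), (2, 0), (3, 0)],
    [(0, 0), (4, 0), (5, 0)],
    [(6, 0), (3, 1), (0, 0)],
    [(7, 0), (0, 0), (2, 2)],
    [(8, 0), (5, 3), (1, 0)],
    [(9, 0), (1, 0), (4, 4)],
    [(2, 0), (10, 0), (11, 0)],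
    [(3, 0), (12, 0), (13, 0)],
    [(4, 0), (14, 0), (15, 0)],
    [(5, 0), (16, 0), (17, 0)],
    [(17, 5), (11, 6), (6, 0)],
    [(18, 0), (6, 0), (10, 7)],
    [(19, 0), (13, 8), (7, 0)],
    [(14, 9), (7, 0), (12, 10)],
    [(13, 11), (15, 7), (8, 0)],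
    [(20, 0), (8, 0), (14, 6)],
    [(21, 0), (17, 10), (9, 0)],
    [(10, 12), (9, 0), (16, 8)],
    [(11, 0), (22, 0), (19, 13)],
    [(12, 0), (18, 14), (22, 15)],
    [(15, 0), (23, 0), (21, 16)],
    [(16, 0), (20, 17), (23, 18)],
    [(23, 19), (19, 18), (18, 0)],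
    [(22, 20), (21, 15), (20, 0)]]⟩

def cubLat3 : List LatE :=
  [⟨⟨⟨1, 0, 0⟩, ⟨0, 1, 0⟩, ⟨0, 0, 1⟩⟩, 1, ⟨⟨0, 0, 0⟩, ⟨0, 0, 0⟩, ⟨0, 0, 0⟩⟩⟩,
   ⟨⟨⟨1, 0, 0⟩, ⟨0, 1, 0⟩, ⟨0, 0, 1⟩⟩, 1, ⟨⟨0, 0, 0⟩, ⟨0, 0, 0⟩, ⟨0, 0, 0⟩⟩⟩,
   ⟨⟨⟨1, 1, 0⟩, ⟨0, 1, 1⟩, ⟨0, 0, 2⟩⟩, 2, ⟨⟨0, 0, 0⟩, ⟨0, 0, 0⟩, ⟨0, 0, 0⟩⟩⟩,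
   ⟨⟨⟨1, 1, 0⟩, ⟨0, 1, 1⟩, ⟨0, 0, 2⟩⟩, 2, ⟨⟨0, 0, 0⟩, ⟨0, 0, 0⟩, ⟨0, 0, 0⟩⟩⟩,
   ⟨⟨⟨1, 1, 0⟩, ⟨0, 1, 1⟩, ⟨0, 0, 2⟩⟩, 2, ⟨⟨0, 0, 0⟩, ⟨0, 0, 0⟩, ⟨0, 0, 0⟩⟩⟩,
   ⟨⟨⟨1, 1, 0⟩, ⟨0, 1, 1⟩, ⟨0, 0, 2⟩⟩, 2, ⟨⟨0, 0, 0⟩, ⟨0, 0, 0⟩, ⟨0, 0, 0⟩⟩⟩]

def cubRow4 : Row :=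
  ⟨[⟨⟨-1, 0, 0⟩, ⟨0, 1, 0⟩, ⟨0, 0, 1⟩⟩], ⟨⟨0, 1, 0⟩, ⟨0, 0, 1⟩, ⟨1, 0, 0⟩⟩, ⟨⟨0, 0, 1⟩, ⟨1, 0, 0⟩, ⟨0, 1, 0⟩⟩, 2,
   [⟨⟨⟨1, 0, 0⟩, ⟨0, 1, 0⟩, ⟨0, 0, 1⟩⟩, ⟨⟨0, 0, 0⟩, ⟨0, 0, 0⟩, ⟨0, 0, 0⟩⟩⟩,
    ⟨⟨⟨-1, 0, 0⟩, ⟨0, 1, 0⟩, ⟨0, 0, 1⟩⟩, ⟨⟨0, 0, 0⟩, ⟨0, 0, 0⟩, ⟨0, 0, 0⟩⟩⟩,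
    ⟨⟨⟨0, 1, 0⟩, ⟨0, 0, 1⟩, ⟨1, 0, 0⟩⟩, ⟨⟨1, 0, 0⟩, ⟨0, 1, 0⟩, ⟨0, 0, 1⟩⟩⟩,
    ⟨⟨⟨0, 0, 1⟩, ⟨1, 0, 0⟩, ⟨0, 1, 0⟩⟩, ⟨⟨0, 0, -1⟩, ⟨-1, 0, 0⟩, ⟨0, -1, 0⟩⟩⟩,
    ⟨⟨⟨0, -1, 0⟩, ⟨0, 0, 1⟩, ⟨1, 0, 0⟩⟩, ⟨⟨-1, 0, 0⟩, ⟨0, 1, 0⟩, ⟨0, 0, 1⟩⟩⟩,
    ⟨⟨⟨0, 0, -1⟩, ⟨1, 0, 0⟩, ⟨0, 1, 0⟩⟩, ⟨⟨0, 0, 1⟩, ⟨-1, 0, 0⟩, ⟨0, -1, 0⟩⟩⟩,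
    ⟨⟨⟨0, 1, 0⟩, ⟨0, 0, 1⟩, ⟨-1, 0, 0⟩⟩, ⟨⟨1, 0, 0⟩, ⟨0, 1, 0⟩, ⟨0, 0, 1⟩⟩⟩,
    ⟨⟨⟨0, 0, 1⟩, ⟨-1, 0, 0⟩, ⟨0, 1, 0⟩⟩, ⟨⟨0, 0, -1⟩, ⟨-1, 0, 0⟩, ⟨0, -1, 0⟩⟩⟩,
    ⟨⟨⟨0, -1, 0⟩, ⟨0, 0, 1⟩, ⟨-1, 0, 0⟩⟩, ⟨⟨-1, 0, 0⟩, ⟨0, 1, 0⟩, ⟨0, 0, 1⟩⟩⟩,
    ⟨⟨⟨0, 0, -1⟩, ⟨-1, 0, 0⟩, ⟨0, 1, 0⟩⟩, ⟨⟨0, 0, 1⟩, ⟨-1, 0, 0⟩, ⟨0, -1, 0⟩⟩⟩,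
    ⟨⟨⟨0, 0, 1⟩, ⟨1, 0, 0⟩, ⟨0, -1, 0⟩⟩, ⟨⟨1, 1, 0⟩, ⟨0, 1, 1⟩, ⟨-1, 0, 1⟩⟩⟩,
    ⟨⟨⟨1, 0, 0⟩, ⟨0, 1, 0⟩, ⟨0, 0, -1⟩⟩, ⟨⟨0, 0, 0⟩, ⟨0, 0, 0⟩, ⟨0, 0, 2⟩⟩⟩,
    ⟨⟨⟨1, 0, 0⟩, ⟨0, -1, 0⟩, ⟨0, 0, 1⟩⟩, ⟨⟨0, 0, 0⟩, ⟨-2, 0, 0⟩, ⟨0, 0, 0⟩⟩⟩,
    ⟨⟨⟨0, 1, 0⟩, ⟨0, 0, -1⟩, ⟨1, 0, 0⟩⟩, ⟨⟨0, -1, -1⟩, ⟨-1, 0, 1⟩, ⟨-1, -1, 0⟩⟩⟩,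
    ⟨⟨⟨0, 0, -1⟩, ⟨1, 0, 0⟩, ⟨0, -1, 0⟩⟩, ⟨⟨-1, -1, 0⟩, ⟨0, 1, 1⟩, ⟨-1, 0, 1⟩⟩⟩,
    ⟨⟨⟨-1, 0, 0⟩, ⟨0, 1, 0⟩, ⟨0, 0, -1⟩⟩, ⟨⟨0, 0, 0⟩, ⟨0, 0, 0⟩, ⟨0, 0, 2⟩⟩⟩,
    ⟨⟨⟨-1, 0, 0⟩, ⟨0, -1, 0⟩, ⟨0, 0, 1⟩⟩, ⟨⟨0, 0, 0⟩, ⟨-2, 0, 0⟩, ⟨0, 0, 0⟩⟩⟩,
    ⟨⟨⟨0, -1, 0⟩, ⟨0, 0, -1⟩, ⟨1, 0, 0⟩⟩, ⟨⟨0, 1, 1⟩, ⟨-1, 0, 1⟩, ⟨-1, -1, 0⟩⟩⟩,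
    ⟨⟨⟨0, 0, 1⟩, ⟨-1, 0, 0⟩, ⟨0, -1, 0⟩⟩, ⟨⟨1, 1, 0⟩, ⟨0, 1, 1⟩, ⟨-1, 0, 1⟩⟩⟩,
    ⟨⟨⟨0, 1, 0⟩, ⟨0, 0, -1⟩, ⟨-1, 0, 0⟩⟩, ⟨⟨0, -1, -1⟩, ⟨-1, 0, 1⟩, ⟨-1, -1, 0⟩⟩⟩,
    ⟨⟨⟨0, 0, -1⟩, ⟨-1, 0, 0⟩, ⟨0, -1, 0⟩⟩, ⟨⟨-1, -1, 0⟩, ⟨0, 1, 1⟩, ⟨-1, 0, 1⟩⟩⟩,
    ⟨⟨⟨0, -1, 0⟩, ⟨0, 0, -1⟩, ⟨-1, 0, 0⟩⟩, ⟨⟨0, 1, 1⟩, ⟨-1, 0, 1⟩, ⟨-1, -1, 0⟩⟩⟩,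
    ⟨⟨⟨1, 0, 0⟩, ⟨0, -1, 0⟩, ⟨0, 0, -1⟩⟩, ⟨⟨1, 1, 1⟩, ⟨-1, 1, 1⟩, ⟨-1, -1, 1⟩⟩⟩,
    ⟨⟨⟨-1, 0, 0⟩, ⟨0, -1, 0⟩, ⟨0, 0, -1⟩⟩, ⟨⟨-1, -1, -1⟩, ⟨-1, 1, 1⟩, ⟨-1, -1, 1⟩⟩⟩],
   [(0, 0), (0, 1), (0, 2), (1, 1), (1, 2), (2, 0), (3, 0), (4, 0), (5, 0), (6, 1), (6, 2), (7, 1), (7, 2), (8, 1), (8, 2), (9, 1), (9, 2), (10, 0), (13, 0), (14, 0), (17, 0), (18, 1), (20, 1)],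
   [⟨⟨0, 0, 0⟩, ⟨0, 0, 0⟩, ⟨0, 0, 0⟩⟩,
    ⟨⟨1, 1, 1⟩, ⟨1, 1, 1⟩, ⟨1, 1, 1⟩⟩,
    ⟨⟨-1, -1, -1⟩, ⟨-1, -1, -1⟩, ⟨-1, -1, -1⟩⟩,
    ⟨⟨-1, -1, -1⟩, ⟨1, 1, 1⟩, ⟨1, 1, 1⟩⟩,
    ⟨⟨1, 1, 1⟩, ⟨-1, -1, -1⟩, ⟨-1, -1, -1⟩⟩,
    ⟨⟨1, 1, 1⟩, ⟨1, 1, 1⟩, ⟨-1, -1, -1⟩⟩,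
    ⟨⟨-1, -1, -1⟩, ⟨-1, -1, -1⟩, ⟨1, 1, 1⟩⟩,
    ⟨⟨1, 1, 1⟩, ⟨-1, -1, -1⟩, ⟨1, 1, 1⟩⟩,
    ⟨⟨-1, -1, -1⟩, ⟨1, 1, 1⟩, ⟨-1, -1, -1⟩⟩,
    ⟨⟨-2, -2, -2⟩, ⟨0, 0, 0⟩, ⟨0, 0, 0⟩⟩,
    ⟨⟨2, 2, 2⟩, ⟨0, 0, 0⟩, ⟨0, 0, 0⟩⟩],
   [[(1, 0), (2, 0), (3, 0)],
    [(0, 0), (4, 0), (5, 0)],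
    [(6, 0), (3, 1), (0, 0)],
    [(7, 0), (0, 0), (2, 2)],
    [(8, 0), (5, 3), (1, 0)],
    [(9, 0), (1, 0), (4, 4)],
    [(2, 0), (10, 0), (11, 0)],
    [(3, 0), (12, 0), (13, 0)],
    [(4, 0), (14, 0), (15, 0)],
    [(5, 0), (16, 0), (17, 0)],
    [(18, 0), (11, 5), (6, 0)],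
    [(15, 0), (6, 0), (10, 6)],
    [(16, 0), (13, 7), (7, 0)],
    [(19, 0), (7, 0), (12, 8)],
    [(20, 0), (15, 8), (8, 0)],
    [(11, 0), (8, 0), (14, 7)],
    [(12, 0), (17, 6), (9, 0)],
    [(21, 0), (9, 0), (16, 5)],
    [(10, 0), (22, 0), (19, 1)],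
    [(13, 0), (18, 2), (22, 9)],
    [(14, 0), (23, 0), (21, 3)],
    [(17, 0), (20, 4), (23, 10)],
    [(23, 10), (19, 10), (18, 0)],
    [(22, 9), (21, 9), (20, 0)]]⟩

def cubLat4 : List LatE :=
  [⟨⟨⟨2, 0, 0⟩, ⟨-1, 1, 0⟩, ⟨-1, 0, 1⟩⟩, 2, ⟨⟨0, 0, 0⟩, ⟨0, 0, 0⟩, ⟨0, 0, 0⟩⟩⟩]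

def cubRow5 : Row :=
  ⟨[⟨⟨0, -1, 0⟩, ⟨-1, 0, 0⟩, ⟨0, 0, 1⟩⟩], ⟨⟨1, 0, 0⟩, ⟨0, 0, 1⟩, ⟨0, -1, 0⟩⟩, ⟨⟨1, 0, 0⟩, ⟨0, 0, -1⟩, ⟨0, 1, 0⟩⟩, 2,
   [⟨⟨⟨1, 0, 0⟩, ⟨0, 1, 0⟩, ⟨0, 0, 1⟩⟩, ⟨⟨0, 0, 0⟩, ⟨0, 0, 0⟩, ⟨0, 0, 0⟩⟩⟩,
    ⟨⟨⟨0, -1, 0⟩, ⟨-1, 0, 0⟩, ⟨0, 0, 1⟩⟩, ⟨⟨0, 0, 0⟩, ⟨0, 0, 0⟩, ⟨0, 0, 0⟩⟩⟩,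
    ⟨⟨⟨1, 0, 0⟩, ⟨0, 0, 1⟩, ⟨0, -1, 0⟩⟩, ⟨⟨1, 0, 0⟩, ⟨0, 1, 0⟩, ⟨0, 0, 1⟩⟩⟩,
    ⟨⟨⟨1, 0, 0⟩, ⟨0, 0, -1⟩, ⟨0, 1, 0⟩⟩, ⟨⟨-1, 0, 0⟩, ⟨0, 0, 1⟩, ⟨0, -1, 0⟩⟩⟩,
    ⟨⟨⟨0, 0, -1⟩, ⟨-1, 0, 0⟩, ⟨0, -1, 0⟩⟩, ⟨⟨0, -1, 0⟩, ⟨-1, 0, 0⟩, ⟨0, 0, 1⟩⟩⟩,
    ⟨⟨⟨0, 0, 1⟩, ⟨-1, 0, 0⟩, ⟨0, 1, 0⟩⟩, ⟨⟨0, 0, -1⟩, ⟨1, 0, 0⟩, ⟨0, -1, 0⟩⟩⟩,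
    ⟨⟨⟨0, -1, 0⟩, ⟨0, 0, 1⟩, ⟨1, 0, 0⟩⟩, ⟨⟨1, 0, 0⟩, ⟨0, 1, 0⟩, ⟨0, 0, 1⟩⟩⟩,
    ⟨⟨⟨1, 0, 0⟩, ⟨0, -1, 0⟩, ⟨0, 0, -1⟩⟩, ⟨⟨2, 0, 0⟩, ⟨0, 1, 1⟩, ⟨0, -1, 1⟩⟩⟩,
    ⟨⟨⟨0, -1, 0⟩, ⟨0, 0, -1⟩, ⟨-1, 0, 0⟩⟩, ⟨⟨-1, 0, 0⟩, ⟨0, 0, 1⟩, ⟨0, -1, 0⟩⟩⟩,
    ⟨⟨⟨0, 0, -1⟩, ⟨0, 1, 0⟩, ⟨1, 0, 0⟩⟩, ⟨⟨0, -1, 0⟩, ⟨-1, 0, 0⟩, ⟨0, 0, 1⟩⟩⟩,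
    ⟨⟨⟨0, 1, 0⟩, ⟨-1, 0, 0⟩, ⟨0, 0, -1⟩⟩, ⟨⟨0, -1, -1⟩, ⟨-2, 0, 0⟩, ⟨0, -1, 1⟩⟩⟩,
    ⟨⟨⟨0, 0, 1⟩, ⟨0, 1, 0⟩, ⟨-1, 0, 0⟩⟩, ⟨⟨0, 0, -1⟩, ⟨1, 0, 0⟩, ⟨0, -1, 0⟩⟩⟩,
    ⟨⟨⟨0, 0, -1⟩, ⟨0, -1, 0⟩, ⟨1, 0, 0⟩⟩, ⟨⟨1, -1, 0⟩, ⟨0, 1, 1⟩, ⟨1, 0, 1⟩⟩⟩,
    ⟨⟨⟨0, 0, 1⟩, ⟨0, 1, 0⟩, ⟨1, 0, 0⟩⟩, ⟨⟨1, 0, -1⟩, ⟨0, 0, 0⟩, ⟨-1, 0, 1⟩⟩⟩,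
    ⟨⟨⟨0, -1, 0⟩, ⟨1, 0, 0⟩, ⟨0, 0, -1⟩⟩, ⟨⟨2, 0, 0⟩, ⟨0, 1, 1⟩, ⟨0, -1, 1⟩⟩⟩,
    ⟨⟨⟨0, 0, -1⟩, ⟨0, 1, 0⟩, ⟨-1, 0, 0⟩⟩, ⟨⟨-1, -1, 0⟩, ⟨0, 0, 0⟩, ⟨-1, -1, 0⟩⟩⟩,
    ⟨⟨⟨0, 0, 1⟩, ⟨0, -1, 0⟩, ⟨-1, 0, 0⟩⟩, ⟨⟨-1, 0, -1⟩, ⟨0, 1, 1⟩, ⟨1, -1, 0⟩⟩⟩,
    ⟨⟨⟨0, 1, 0⟩, ⟨0, 0, 1⟩, ⟨1, 0, 0⟩⟩, ⟨⟨0, -1, -1⟩, ⟨-1, 1, 0⟩, ⟨1, 0, 1⟩⟩⟩,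
    ⟨⟨⟨0, -1, 0⟩, ⟨0, 0, -1⟩, ⟨1, 0, 0⟩⟩, ⟨⟨0, 0, 0⟩, ⟨-1, 0, 1⟩, ⟨-1, 0, 1⟩⟩⟩,
    ⟨⟨⟨-1, 0, 0⟩, ⟨0, 1, 0⟩, ⟨0, 0, -1⟩⟩, ⟨⟨0, -1, -1⟩, ⟨-2, 0, 0⟩, ⟨0, -1, 1⟩⟩⟩,
    ⟨⟨⟨0, -1, 0⟩, ⟨0, 0, 1⟩, ⟨-1, 0, 0⟩⟩, ⟨⟨0, 0, 0⟩, ⟨1, 1, 0⟩, ⟨-1, -1, 0⟩⟩⟩,
    ⟨⟨⟨0, 1, 0⟩, ⟨0, 0, -1⟩, ⟨-1, 0, 0⟩⟩, ⟨⟨0, -1, -1⟩, ⟨1, 0, 1⟩, ⟨1, -1, 0⟩⟩⟩,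
    ⟨⟨⟨0, 0, -1⟩, ⟨1, 0, 0⟩, ⟨0, -1, 0⟩⟩, ⟨⟨1, -1, 0⟩, ⟨0, 1, 1⟩, ⟨1, 0, 1⟩⟩⟩,
    ⟨⟨⟨0, 1, 0⟩, ⟨0, 0, -1⟩, ⟨1, 0, 0⟩⟩, ⟨⟨1, -1, -1⟩, ⟨0, 0, 1⟩, ⟨2, 0, 1⟩⟩⟩,
    ⟨⟨⟨0, 0, 1⟩, ⟨-1, 0, 0⟩, ⟨0, -1, 0⟩⟩, ⟨⟨1, 0, -1⟩, ⟨0, 0, 0⟩, ⟨-1, 0, 1⟩⟩⟩,
    ⟨⟨⟨0, 0, -1⟩, ⟨1, 0, 0⟩, ⟨0, 1, 0⟩⟩, ⟨⟨2, -1, 0⟩, ⟨1, 1, 1⟩, ⟨0, -1, 0⟩⟩⟩,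
    ⟨⟨⟨0, 0, 1⟩, ⟨1, 0, 0⟩, ⟨0, -1, 0⟩⟩, ⟨⟨2, 0, -1⟩, ⟨-1, 1, 1⟩, ⟨0, 0, 1⟩⟩⟩,
    ⟨⟨⟨0, 0, -1⟩, ⟨-1, 0, 0⟩, ⟨0, 1, 0⟩⟩, ⟨⟨-1, -1, 0⟩, ⟨0, 0, 0⟩, ⟨-1, -1, 0⟩⟩⟩,
    ⟨⟨⟨0, 1, 0⟩, ⟨0, 0, 1⟩, ⟨-1, 0, 0⟩⟩, ⟨⟨-1, -1, -1⟩, ⟨0, 1, 0⟩, ⟨-2, -1, 0⟩⟩⟩,
    ⟨⟨⟨0, 0, 1⟩, ⟨1, 0, 0⟩, ⟨0, 1, 0⟩⟩, ⟨⟨-1, 0, -1⟩, ⟨0, 1, 1⟩, ⟨1, -1, 0⟩⟩⟩,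
    ⟨⟨⟨-1, 0, 0⟩, ⟨0, 0, 1⟩, ⟨0, -1, 0⟩⟩, ⟨⟨0, -1, -1⟩, ⟨-1, 1, 0⟩, ⟨1, 0, 1⟩⟩⟩,
    ⟨⟨⟨0, 0, 1⟩, ⟨0, -1, 0⟩, ⟨1, 0, 0⟩⟩, ⟨⟨0, 0, -1⟩, ⟨-1, 1, 1⟩, ⟨2, 0, 1⟩⟩⟩,
    ⟨⟨⟨1, 0, 0⟩, ⟨0, 0, -1⟩, ⟨0, -1, 0⟩⟩, ⟨⟨0, 0, 0⟩, ⟨-1, 0, 1⟩, ⟨-1, 0, 1⟩⟩⟩,
    ⟨⟨⟨-1, 0, 0⟩, ⟨0, 0, 1⟩, ⟨0, 1, 0⟩⟩, ⟨⟨-1, -1, -1⟩, ⟨-2, 1, 0⟩, ⟨0, -1, 0⟩⟩⟩,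
    ⟨⟨⟨-1, 0, 0⟩, ⟨0, 0, -1⟩, ⟨0, -1, 0⟩⟩, ⟨⟨1, -1, -1⟩, ⟨-2, 0, 1⟩, ⟨0, 0, 1⟩⟩⟩,
    ⟨⟨⟨1, 0, 0⟩, ⟨0, 0, 1⟩, ⟨0, 1, 0⟩⟩, ⟨⟨0, 0, 0⟩, ⟨1, 1, 0⟩, ⟨-1, -1, 0⟩⟩⟩,
    ⟨⟨⟨0, 0, -1⟩, ⟨0, -1, 0⟩, ⟨-1, 0, 0⟩⟩, ⟨⟨0, -1, 0⟩, ⟨1, 1, 1⟩, ⟨-2, -1, 0⟩⟩⟩,
    ⟨⟨⟨-1, 0, 0⟩, ⟨0, 0, -1⟩, ⟨0, 1, 0⟩⟩, ⟨⟨0, -1, -1⟩, ⟨1, 0, 1⟩, ⟨1, -1, 0⟩⟩⟩,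
    ⟨⟨⟨0, 1, 0⟩, ⟨1, 0, 0⟩, ⟨0, 0, -1⟩⟩, ⟨⟨1, -1, -1⟩, ⟨1, 1, 1⟩, ⟨1, -1, 1⟩⟩⟩,
    ⟨⟨⟨0, -1, 0⟩, ⟨1, 0, 0⟩, ⟨0, 0, 1⟩⟩, ⟨⟨1, 0, 0⟩, ⟨-1, 1, 1⟩, ⟨1, 0, 0⟩⟩⟩,
    ⟨⟨⟨0, -1, 0⟩, ⟨-1, 0, 0⟩, ⟨0, 0, -1⟩⟩, ⟨⟨1, 0, 0⟩, ⟨-1, 0, 0⟩, ⟨-1, -1, 1⟩⟩⟩,
    ⟨⟨⟨0, 1, 0⟩, ⟨-1, 0, 0⟩, ⟨0, 0, 1⟩⟩, ⟨⟨1, -1, -1⟩, ⟨1, 0, 0⟩, ⟨-1, 0, 0⟩⟩⟩,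
    ⟨⟨⟨0, 1, 0⟩, ⟨1, 0, 0⟩, ⟨0, 0, 1⟩⟩, ⟨⟨2, -1, -1⟩, ⟨2, 1, 1⟩, ⟨0, 0, 0⟩⟩⟩,
    ⟨⟨⟨-1, 0, 0⟩, ⟨0, -1, 0⟩, ⟨0, 0, -1⟩⟩, ⟨⟨-1, -1, -1⟩, ⟨-1, 1, 1⟩, ⟨1, -1, 1⟩⟩⟩,
    ⟨⟨⟨-1, 0, 0⟩, ⟨0, 1, 0⟩, ⟨0, 0, 1⟩⟩, ⟨⟨1, -1, -1⟩, ⟨-1, 0, 0⟩, ⟨1, 0, 0⟩⟩⟩,
    ⟨⟨⟨1, 0, 0⟩, ⟨0, 1, 0⟩, ⟨0, 0, -1⟩⟩, ⟨⟨1, 0, 0⟩, ⟨-1, 0, 0⟩, ⟨-1, -1, 1⟩⟩⟩,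
    ⟨⟨⟨1, 0, 0⟩, ⟨0, -1, 0⟩, ⟨0, 0, 1⟩⟩, ⟨⟨-1, 0, 0⟩, ⟨-1, 1, 1⟩, ⟨-1, 0, 0⟩⟩⟩,
    ⟨⟨⟨-1, 0, 0⟩, ⟨0, -1, 0⟩, ⟨0, 0, 1⟩⟩, ⟨⟨-2, -1, -1⟩, ⟨-2, 1, 1⟩, ⟨0, 0, 0⟩⟩⟩],
   [(0, 0), (0, 1), (0, 2), (1, 1), (1, 2), (2, 0), (2, 1), (3, 0), (4, 0), (4, 1), (5, 0), (6, 1), (6, 2), (7, 0), (8, 1), (8, 2), (9, 1), (9, 2), (10, 0), (11, 1), (11, 2), (12, 0), (12, 1), (13, 0), (14, 1), (14, 2), (15, 0), (15, 1), (16, 0), (17, 0), (17, 1), (18, 0), (19, 1), (19, 2), (20, 0), (20, 1), (21, 0), (22, 1), (22, 2), (24, 1),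 (24, 2), (25, 1), (30, 1), (30, 2), (32, 1), (32, 2), (33, 1)],
   [⟨⟨0, 0, 0⟩, ⟨0, 0, 0⟩, ⟨0, 0, 0⟩⟩,
    ⟨⟨-4, 0, 0⟩, ⟨0, 0, 0⟩, ⟨0, 0, 0⟩⟩,
    ⟨⟨0, 0, 0⟩, ⟨4, 0, 0⟩, ⟨0, 0, 0⟩⟩,
    ⟨⟨4, 0, 0⟩, ⟨0, 0, 0⟩, ⟨0, 0, 0⟩⟩,
    ⟨⟨0, 0, 0⟩, ⟨-4, 0, 0⟩, ⟨0, 0, 0⟩⟩,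
    ⟨⟨0, 0, 0⟩, ⟨0, 0, 0⟩, ⟨-4, 0, 0⟩⟩,
    ⟨⟨0, 0, 0⟩, ⟨0, 0, 0⟩, ⟨4, 0, 0⟩⟩,
    ⟨⟨0, 0, 0⟩, ⟨2, 0, 0⟩, ⟨2, 0, 0⟩⟩,
    ⟨⟨2, 0, 0⟩, ⟨0, 0, 0⟩, ⟨2, 0, 0⟩⟩,
    ⟨⟨2, 0, 0⟩, ⟨0, 0, 0⟩, ⟨-2, 0, 0⟩⟩,
    ⟨⟨-2, 0, 0⟩, ⟨-2, 0, 0⟩, ⟨0, 0, 0⟩⟩,
    ⟨⟨-2, 0, 0⟩, ⟨2, 0, 0⟩, ⟨0, 0, 0⟩⟩,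
    ⟨⟨0, 0, 0⟩, ⟨2, 0, 0⟩, ⟨-2, 0, 0⟩⟩,
    ⟨⟨-2, 0, 0⟩, ⟨0, 0, 0⟩, ⟨2, 0, 0⟩⟩,
    ⟨⟨0, 0, 0⟩, ⟨-2, 0, 0⟩, ⟨2, 0, 0⟩⟩,
    ⟨⟨0, 0, 0⟩, ⟨-2, 0, 0⟩, ⟨-2, 0, 0⟩⟩,
    ⟨⟨2, 0, 0⟩, ⟨2, 0, 0⟩, ⟨0, 0, 0⟩⟩,
    ⟨⟨-2, 0, 0⟩, ⟨0, 0, 0⟩, ⟨-2, 0, 0⟩⟩,
    ⟨⟨2, 0, 0⟩, ⟨-2, 0, 0⟩, ⟨0, 0, 0⟩⟩,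
    ⟨⟨4, 0, 0⟩, ⟨4, 0, 0⟩, ⟨0, 0, 0⟩⟩,
    ⟨⟨-4, 0, 0⟩, ⟨-4, 0, 0⟩, ⟨0, 0, 0⟩⟩],
   [[(1, 0), (2, 0), (3, 0)],
    [(0, 0), (4, 0), (5, 0)],
    [(6, 0), (7, 0), (0, 0)],
    [(8, 0), (0, 0), (7, 1)],
    [(9, 0), (10, 0), (1, 0)],
    [(11, 0), (1, 0), (10, 2)],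
    [(2, 0), (12, 0), (13, 0)],
    [(14, 0), (3, 3), (2, 0)],
    [(3, 0), (15, 0), (16, 0)],
    [(4, 0), (17, 0), (18, 0)],
    [(19, 0), (5, 4), (4, 0)],
    [(5, 0), (20, 0), (21, 0)],
    [(22, 0), (23, 0), (6, 0)],
    [(24, 0), (6, 0), (23, 5)],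
    [(7, 0), (25, 0), (26, 0)],
    [(27, 0), (28, 0), (8, 0)],
    [(29, 0), (8, 0), (28, 6)],
    [(30, 0), (31, 0), (9, 0)],
    [(32, 0), (9, 0), (31, 5)],
    [(10, 0), (33, 0), (34, 0)],
    [(35, 0), (36, 0), (11, 0)],
    [(37, 0), (11, 0), (36, 6)],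
    [(12, 0), (38, 0), (39, 0)],
    [(34, 7), (13, 6), (12, 0)],
    [(13, 0), (40, 0), (41, 0)],
    [(36, 8), (42, 0), (14, 0)],
    [(31, 9), (14, 0), (42, 4)],
    [(15, 0), (41, 10), (40, 11)],
    [(33, 12), (16, 5), (15, 0)],
    [(16, 0), (39, 11), (38, 10)],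
    [(17, 0), (43, 0), (44, 0)],
    [(26, 13), (18, 6), (17, 0)],
    [(18, 0), (45, 0), (46, 0)],
    [(28, 14), (47, 0), (19, 0)],
    [(23, 15), (19, 0), (47, 3)],
    [(20, 0), (46, 16), (45, 11)],
    [(25, 17), (21, 5), (20, 0)],
    [(21, 0), (44, 11), (43, 16)],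
    [(43, 16), (29, 16), (22, 0)],
    [(46, 8), (22, 0), (29, 18)],
    [(45, 0), (27, 18), (24, 0)],
    [(44, 12), (24, 0), (27, 16)],
    [(47, 19), (26, 2), (25, 0)],
    [(38, 10), (37, 10), (30, 0)],
    [(41, 14), (30, 0), (37, 18)],
    [(40, 0), (35, 18), (32, 0)],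
    [(39, 17), (32, 0), (35, 10)],
    [(42, 20), (34, 1), (33, 0)]]⟩

def cubLat5 : List LatE :=
  [⟨⟨⟨2, 0, 0⟩, ⟨0, 2, 0⟩, ⟨-1, -1, 1⟩⟩, 2, ⟨⟨0, 0, 0⟩, ⟨0, 0, 0⟩, ⟨0, 0, 0⟩⟩⟩]

def cubRow6 : Row :=
  ⟨[⟨⟨0, -1, 0⟩, ⟨-1, 0, 0⟩, ⟨0, 0, 1⟩⟩], ⟨⟨0, 1, 0⟩, ⟨0, 0, 1⟩, ⟨1, 0, 0⟩⟩, ⟨⟨0, 0, 1⟩, ⟨1, 0, 0⟩, ⟨0, 1, 0⟩⟩, 2,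
   [⟨⟨⟨1, 0, 0⟩, ⟨0, 1, 0⟩, ⟨0, 0, 1⟩⟩, ⟨⟨0, 0, 0⟩, ⟨0, 0, 0⟩, ⟨0, 0, 0⟩⟩⟩,
    ⟨⟨⟨0, -1, 0⟩, ⟨-1, 0, 0⟩, ⟨0, 0, 1⟩⟩, ⟨⟨0, 0, 0⟩, ⟨0, 0, 0⟩, ⟨0, 0, 0⟩⟩⟩,
    ⟨⟨⟨0, 1, 0⟩, ⟨0, 0, 1⟩, ⟨1, 0, 0⟩⟩, ⟨⟨1, 0, 0⟩, ⟨0, 1, 0⟩, ⟨0, 0, 1⟩⟩⟩,
    ⟨⟨⟨0, 0, 1⟩, ⟨1, 0, 0⟩, ⟨0, 1, 0⟩⟩, ⟨⟨0, 0, -1⟩, ⟨-1, 0, 0⟩, ⟨0, -1, 0⟩⟩⟩,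
    ⟨⟨⟨0, 0, -1⟩, ⟨0, -1, 0⟩, ⟨1, 0, 0⟩⟩, ⟨⟨0, -1, 0⟩, ⟨-1, 0, 0⟩, ⟨0, 0, 1⟩⟩⟩,
    ⟨⟨⟨-1, 0, 0⟩, ⟨0, 0, -1⟩, ⟨0, 1, 0⟩⟩, ⟨⟨1, 0, 0⟩, ⟨0, 0, 1⟩, ⟨0, -1, 0⟩⟩⟩,
    ⟨⟨⟨-1, 0, 0⟩, ⟨0, 0, 1⟩, ⟨0, -1, 0⟩⟩, ⟨⟨1, 0, 0⟩, ⟨0, 1, 0⟩, ⟨0, 0, 1⟩⟩⟩,
    ⟨⟨⟨0, 0, 1⟩, ⟨0, -1, 0⟩, ⟨-1, 0, 0⟩⟩, ⟨⟨0, 0, -1⟩, ⟨-1, 0, 0⟩, ⟨0, -1, 0⟩⟩⟩,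
    ⟨⟨⟨0, 0, -1⟩, ⟨1, 0, 0⟩, ⟨0, -1, 0⟩⟩, ⟨⟨0, -1, 0⟩, ⟨-1, 0, 0⟩, ⟨0, 0, 1⟩⟩⟩,
    ⟨⟨⟨0, 1, 0⟩, ⟨0, 0, -1⟩, ⟨-1, 0, 0⟩⟩, ⟨⟨1, 0, 0⟩, ⟨0, 0, 1⟩, ⟨0, -1, 0⟩⟩⟩,
    ⟨⟨⟨0, -1, 0⟩, ⟨1, 0, 0⟩, ⟨0, 0, -1⟩⟩, ⟨⟨0, 0, 0⟩, ⟨0, 1, 1⟩, ⟨0, -1, 1⟩⟩⟩,
    ⟨⟨⟨0, 0, -1⟩, ⟨0, 1, 0⟩, ⟨-1, 0, 0⟩⟩, ⟨⟨1, 0, 1⟩, ⟨0, 0, 0⟩, ⟨1, 0, 1⟩⟩⟩,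
    ⟨⟨⟨1, 0, 0⟩, ⟨0, 0, -1⟩, ⟨0, -1, 0⟩⟩, ⟨⟨0, 0, 0⟩, ⟨-1, -1, 0⟩, ⟨-1, -1, 0⟩⟩⟩,
    ⟨⟨⟨0, 1, 0⟩, ⟨-1, 0, 0⟩, ⟨0, 0, -1⟩⟩, ⟨⟨0, -1, -1⟩, ⟨0, 0, 0⟩, ⟨0, -1, 1⟩⟩⟩,
    ⟨⟨⟨-1, 0, 0⟩, ⟨0, 1, 0⟩, ⟨0, 0, -1⟩⟩, ⟨⟨0, -1, -1⟩, ⟨0, 0, 0⟩, ⟨0, -1, 1⟩⟩⟩,
    ⟨⟨⟨0, -1, 0⟩, ⟨0, 0, 1⟩, ⟨-1, 0, 0⟩⟩, ⟨⟨0, 0, 0⟩, ⟨-1, 0, -1⟩, ⟨1, 0, 1⟩⟩⟩,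
    ⟨⟨⟨0, 0, 1⟩, ⟨-1, 0, 0⟩, ⟨0, -1, 0⟩⟩, ⟨⟨1, 1, 0⟩, ⟨0, 0, 0⟩, ⟨-1, -1, 0⟩⟩⟩,
    ⟨⟨⟨1, 0, 0⟩, ⟨0, -1, 0⟩, ⟨0, 0, -1⟩⟩, ⟨⟨0, 0, 0⟩, ⟨0, 1, 1⟩, ⟨0, -1, 1⟩⟩⟩,
    ⟨⟨⟨0, 0, -1⟩, ⟨-1, 0, 0⟩, ⟨0, 1, 0⟩⟩, ⟨⟨1, 0, 1⟩, ⟨0, 0, 0⟩, ⟨1, 0, 1⟩⟩⟩,
    ⟨⟨⟨0, -1, 0⟩, ⟨0, 0, -1⟩, ⟨1, 0, 0⟩⟩, ⟨⟨0, 0, 0⟩, ⟨-1, -1, 0⟩, ⟨-1, -1, 0⟩⟩⟩,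
    ⟨⟨⟨1, 0, 0⟩, ⟨0, 0, 1⟩, ⟨0, 1, 0⟩⟩, ⟨⟨0, 0, 0⟩, ⟨-1, 0, -1⟩, ⟨1, 0, 1⟩⟩⟩,
    ⟨⟨⟨0, 0, 1⟩, ⟨0, 1, 0⟩, ⟨1, 0, 0⟩⟩, ⟨⟨1, 1, 0⟩, ⟨0, 0, 0⟩, ⟨-1, -1, 0⟩⟩⟩,
    ⟨⟨⟨-1, 0, 0⟩, ⟨0, -1, 0⟩, ⟨0, 0, 1⟩⟩, ⟨⟨1, 0, 0⟩, ⟨-1, 0, 0⟩, ⟨1, 1, 1⟩⟩⟩,
    ⟨⟨⟨0, 1, 0⟩, ⟨1, 0, 0⟩, ⟨0, 0, 1⟩⟩, ⟨⟨1, 0, 0⟩, ⟨-1, 0, 0⟩, ⟨1, 1, 1⟩⟩⟩],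
   [(0, 0), (0, 1), (0, 2), (1, 1), (1, 2), (2, 0), (3, 0), (4, 0), (5, 0), (6, 1), (6, 2), (7, 1), (7, 2), (8, 1), (8, 2), (9, 1), (9, 2), (11, 0), (12, 0), (15, 0), (16, 0), (18, 1), (20, 1)],
   [⟨⟨0, 0, 0⟩, ⟨0, 0, 0⟩, ⟨0, 0, 0⟩⟩,
    ⟨⟨1, 1, 1⟩, ⟨1, 1, 1⟩, ⟨1, 1, 1⟩⟩,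
    ⟨⟨-1, -1, -1⟩, ⟨-1, -1, -1⟩, ⟨-1, -1, -1⟩⟩,
    ⟨⟨-1, -1, -1⟩, ⟨-1, -1, -1⟩, ⟨1, 1, 1⟩⟩,
    ⟨⟨1, 1, 1⟩, ⟨1, 1, 1⟩, ⟨-1, -1, -1⟩⟩,
    ⟨⟨-1, -1, -1⟩, ⟨1, 1, 1⟩, ⟨-1, -1, -1⟩⟩,
    ⟨⟨1, 1, 1⟩, ⟨-1, -1, -1⟩, ⟨1, 1, 1⟩⟩,
    ⟨⟨1, 1, 1⟩, ⟨-1, -1, -1⟩, ⟨-1, -1, -1⟩⟩,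
    ⟨⟨-1, -1, -1⟩, ⟨1, 1, 1⟩, ⟨1, 1, 1⟩⟩,
    ⟨⟨0, 0, 0⟩, ⟨0, 0, 0⟩, ⟨-2, -2, -2⟩⟩,
    ⟨⟨0, 0, 0⟩, ⟨0, 0, 0⟩, ⟨2, 2, 2⟩⟩],
   [[(1, 0), (2, 0), (3, 0)],
    [(0, 0), (4, 0), (5, 0)],
    [(6, 0), (3, 1), (0, 0)],
    [(7, 0), (0, 0), (2, 2)],
    [(8, 0), (5, 3), (1, 0)],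
    [(9, 0), (1, 0), (4, 4)],
    [(2, 0), (10, 0), (11, 0)],
    [(3, 0), (12, 0), (13, 0)],
    [(4, 0), (14, 0), (15, 0)],
    [(5, 0), (16, 0), (17, 0)],
    [(17, 0), (11, 5), (6, 0)],
    [(18, 0), (6, 0), (10, 6)],
    [(19, 0), (13, 7), (7, 0)],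
    [(14, 0), (7, 0), (12, 8)],
    [(13, 0), (15, 5), (8, 0)],
    [(20, 0), (8, 0), (14, 6)],
    [(21, 0), (17, 7), (9, 0)],
    [(10, 0), (9, 0), (16, 8)],
    [(11, 0), (22, 0), (19, 1)],
    [(12, 0), (18, 2), (22, 9)],
    [(15, 0), (23, 0), (21, 3)],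
    [(16, 0), (20, 4), (23, 9)],
    [(23, 0), (19, 10), (18, 0)],
    [(22, 0), (21, 10), (20, 0)]]⟩

def cubLat6 : List LatE :=
  [⟨⟨⟨2, 0, 0⟩, ⟨-1, 1, 0⟩, ⟨-1, 0, 1⟩⟩, 2, ⟨⟨0, 0, 0⟩, ⟨0, 0, 0⟩, ⟨0, 0, 0⟩⟩⟩]

def cubRow7 : Row :=
  ⟨[⟨⟨0, 0, -1⟩, ⟨-1, 0, 0⟩, ⟨0, 1, 0⟩⟩], ⟨⟨1, 0, 0⟩, ⟨0, 1, 0⟩, ⟨0, 0, -1⟩⟩, ⟨⟨1, 0, 0⟩, ⟨0, 1, 0⟩, ⟨0, 0, -1⟩⟩, 3,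
   [⟨⟨⟨1, 0, 0⟩, ⟨0, 1, 0⟩, ⟨0, 0, 1⟩⟩, ⟨⟨0, 0, 0⟩, ⟨0, 0, 0⟩, ⟨0, 0, 0⟩⟩⟩,
    ⟨⟨⟨0, 0, -1⟩, ⟨-1, 0, 0⟩, ⟨0, 1, 0⟩⟩, ⟨⟨0, 0, 0⟩, ⟨0, 0, 0⟩, ⟨0, 0, 0⟩⟩⟩,
    ⟨⟨⟨0, -1, 0⟩, ⟨0, 0, 1⟩, ⟨-1, 0, 0⟩⟩, ⟨⟨0, 0, 0⟩, ⟨0, 0, 0⟩, ⟨0, 0, 0⟩⟩⟩,
    ⟨⟨⟨1, 0, 0⟩, ⟨0, 1, 0⟩, ⟨0, 0, -1⟩⟩, ⟨⟨1, 0, 0⟩, ⟨0, 1, 0⟩, ⟨0, 0, 1⟩⟩⟩,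
    ⟨⟨⟨0, 0, 1⟩, ⟨-1, 0, 0⟩, ⟨0, 1, 0⟩⟩, ⟨⟨0, 0, -1⟩, ⟨-1, 0, 0⟩, ⟨0, 1, 0⟩⟩⟩,
    ⟨⟨⟨0, -1, 0⟩, ⟨0, 0, -1⟩, ⟨-1, 0, 0⟩⟩, ⟨⟨0, -1, 0⟩, ⟨0, 0, 1⟩, ⟨-1, 0, 0⟩⟩⟩,
    ⟨⟨⟨0, 0, -1⟩, ⟨-1, 0, 0⟩, ⟨0, -1, 0⟩⟩, ⟨⟨1, 0, 0⟩, ⟨0, 1, 0⟩, ⟨0, 0, 1⟩⟩⟩,
    ⟨⟨⟨0, 1, 0⟩, ⟨0, 0, 1⟩, ⟨-1, 0, 0⟩⟩, ⟨⟨0, 0, -1⟩, ⟨-1, 0, 0⟩, ⟨0, 1, 0⟩⟩⟩,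
    ⟨⟨⟨1, 0, 0⟩, ⟨0, -1, 0⟩, ⟨0, 0, 1⟩⟩, ⟨⟨0, -1, 0⟩, ⟨0, 0, 1⟩, ⟨-1, 0, 0⟩⟩⟩,
    ⟨⟨⟨0, -1, 0⟩, ⟨0, 0, 1⟩, ⟨1, 0, 0⟩⟩, ⟨⟨1, 0, 0⟩, ⟨0, 1, 0⟩, ⟨0, 0, 1⟩⟩⟩,
    ⟨⟨⟨0, 0, 1⟩, ⟨-1, 0, 0⟩, ⟨0, -1, 0⟩⟩, ⟨⟨1, 0, -1⟩, ⟨-1, 1, 0⟩, ⟨0, -1, 1⟩⟩⟩,
    ⟨⟨⟨-1, 0, 0⟩, ⟨0, 1, 0⟩, ⟨0, 0, 1⟩⟩, ⟨⟨0, 0, -1⟩, ⟨-1, 0, 0⟩, ⟨0, 1, 0⟩⟩⟩,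
    ⟨⟨⟨0, 1, 0⟩, ⟨0, 0, -1⟩, ⟨-1, 0, 0⟩⟩, ⟨⟨0, 1, -1⟩, ⟨-1, 0, 1⟩, ⟨-1, 1, 0⟩⟩⟩,
    ⟨⟨⟨0, 0, -1⟩, ⟨1, 0, 0⟩, ⟨0, 1, 0⟩⟩, ⟨⟨0, -1, 0⟩, ⟨0, 0, 1⟩, ⟨-1, 0, 0⟩⟩⟩,
    ⟨⟨⟨1, 0, 0⟩, ⟨0, -1, 0⟩, ⟨0, 0, -1⟩⟩, ⟨⟨1, -1, 0⟩, ⟨0, -1, 1⟩, ⟨-1, 0, 1⟩⟩⟩,
    ⟨⟨⟨0, -1, 0⟩, ⟨0, 0, -1⟩, ⟨1, 0, 0⟩⟩, ⟨⟨1, -1, 0⟩, ⟨0, 1, 1⟩, ⟨1, 0, 1⟩⟩⟩,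
    ⟨⟨⟨0, 1, 0⟩, ⟨0, 0, 1⟩, ⟨1, 0, 0⟩⟩, ⟨⟨1, 0, -1⟩, ⟨-1, 1, 0⟩, ⟨0, -1, 1⟩⟩⟩,
    ⟨⟨⟨-1, 0, 0⟩, ⟨0, 1, 0⟩, ⟨0, 0, -1⟩⟩, ⟨⟨-1, 0, -1⟩, ⟨-1, 1, 0⟩, ⟨0, 1, 1⟩⟩⟩,
    ⟨⟨⟨-1, 0, 0⟩, ⟨0, -1, 0⟩, ⟨0, 0, 1⟩⟩, ⟨⟨0, 1, -1⟩, ⟨-1, 0, 1⟩, ⟨-1, 1, 0⟩⟩⟩,
    ⟨⟨⟨0, 0, 1⟩, ⟨1, 0, 0⟩, ⟨0, 1, 0⟩⟩, ⟨⟨0, -1, -1⟩, ⟨1, 0, 1⟩, ⟨-1, 1, 0⟩⟩⟩,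
    ⟨⟨⟨0, 0, -1⟩, ⟨1, 0, 0⟩, ⟨0, -1, 0⟩⟩, ⟨⟨1, -1, 0⟩, ⟨0, -1, 1⟩, ⟨-1, 0, 1⟩⟩⟩,
    ⟨⟨⟨0, 1, 0⟩, ⟨0, 0, -1⟩, ⟨1, 0, 0⟩⟩, ⟨⟨1, 1, -1⟩, ⟨-1, 1, 1⟩, ⟨1, -1, 1⟩⟩⟩,
    ⟨⟨⟨-1, 0, 0⟩, ⟨0, -1, 0⟩, ⟨0, 0, -1⟩⟩, ⟨⟨-1, 1, -1⟩, ⟨-1, -1, 1⟩, ⟨-1, 1, 1⟩⟩⟩,
    ⟨⟨⟨0, 0, 1⟩, ⟨1, 0, 0⟩, ⟨0, -1, 0⟩⟩, ⟨⟨1, -1, -1⟩, ⟨1, -1, 1⟩, ⟨-1, -1, 1⟩⟩⟩],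
   [(0, 0), (1, 0), (0, 1), (1, 1), (2, 1), (3, 0), (4, 0), (5, 0), (6, 0), (6, 1), (7, 0), (7, 1), (8, 0), (8, 1), (9, 1), (10, 0), (11, 1), (12, 0), (13, 1), (14, 0), (16, 1), (18, 1), (20, 1)],
   [⟨⟨0, 0, 0⟩, ⟨0, 0, 0⟩, ⟨0, 0, 0⟩⟩,
    ⟨⟨-2, 0, 0⟩, ⟨0, -2, 0⟩, ⟨0, 0, 0⟩⟩,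
    ⟨⟨0, 0, 0⟩, ⟨2, 0, 0⟩, ⟨0, -2, 0⟩⟩,
    ⟨⟨0, 2, 0⟩, ⟨0, 0, 0⟩, ⟨2, 0, 0⟩⟩,
    ⟨⟨2, 0, 0⟩, ⟨0, 2, 0⟩, ⟨0, 0, 0⟩⟩,
    ⟨⟨0, 0, 0⟩, ⟨-2, 0, 0⟩, ⟨0, 2, 0⟩⟩,
    ⟨⟨0, -2, 0⟩, ⟨0, 0, 0⟩, ⟨-2, 0, 0⟩⟩,
    ⟨⟨0, 0, 0⟩, ⟨2, 0, 0⟩, ⟨0, 2, 0⟩⟩,
    ⟨⟨0, -2, 0⟩, ⟨0, 0, 0⟩, ⟨2, 0, 0⟩⟩,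
    ⟨⟨-2, 0, 0⟩, ⟨0, 2, 0⟩, ⟨0, 0, 0⟩⟩,
    ⟨⟨0, 2, 0⟩, ⟨0, 0, 0⟩, ⟨-2, 0, 0⟩⟩,
    ⟨⟨0, 0, 0⟩, ⟨-2, 0, 0⟩, ⟨0, -2, 0⟩⟩,
    ⟨⟨2, 0, 0⟩, ⟨0, -2, 0⟩, ⟨0, 0, 0⟩⟩,
    ⟨⟨0, 0, 0⟩, ⟨0, 2, 0⟩, ⟨2, 0, 0⟩⟩,
    ⟨⟨2, 0, 0⟩, ⟨0, 0, 0⟩, ⟨0, -2, 0⟩⟩,
    ⟨⟨-2, 0, 0⟩, ⟨0, 0, 0⟩, ⟨0, 2, 0⟩⟩,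
    ⟨⟨0, 2, 0⟩, ⟨-2, 0, 0⟩, ⟨0, 0, 0⟩⟩,
    ⟨⟨0, -2, 0⟩, ⟨2, 0, 0⟩, ⟨0, 0, 0⟩⟩,
    ⟨⟨0, 0, 0⟩, ⟨0, -2, 0⟩, ⟨-2, 0, 0⟩⟩,
    ⟨⟨2, 0, 0⟩, ⟨0, 2, 0⟩, ⟨2, -2, 0⟩⟩,
    ⟨⟨-2, 2, 0⟩, ⟨-2, 0, 0⟩, ⟨0, 2, 0⟩⟩,
    ⟨⟨0, -2, 0⟩, ⟨2, -2, 0⟩, ⟨-2, 0, 0⟩⟩],
   [[(1, 0), (3, 0), (3, 1)],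
    [(2, 0), (4, 0), (4, 2)],
    [(0, 0), (5, 0), (5, 3)],
    [(6, 0), (0, 4), (0, 0)],
    [(7, 0), (1, 5), (1, 0)],
    [(8, 0), (2, 6), (2, 0)],
    [(9, 0), (10, 0), (10, 7)],
    [(11, 0), (12, 0), (12, 8)],
    [(13, 0), (14, 0), (14, 9)],
    [(3, 0), (15, 0), (15, 10)],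
    [(16, 0), (6, 11), (6, 0)],
    [(4, 0), (17, 0), (17, 12)],
    [(18, 0), (7, 10), (7, 0)],
    [(5, 0), (19, 0), (19, 11)],
    [(20, 0), (8, 12), (8, 0)],
    [(14, 13), (9, 8), (9, 0)],
    [(17, 14), (21, 0), (21, 6)],
    [(10, 15), (11, 9), (11, 0)],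
    [(19, 16), (22, 0), (22, 4)],
    [(12, 17), (13, 7), (13, 0)],
    [(15, 18), (23, 0), (23, 5)],
    [(22, 19), (16, 3), (16, 0)],
    [(23, 20), (18, 1), (18, 0)],
    [(21, 21), (20, 2), (20, 0)]]⟩

def cubLat7 : List LatE :=
  [⟨⟨⟨1, 0, 0⟩, ⟨0, 1, 0⟩, ⟨0, 0, 1⟩⟩, 1, ⟨⟨0, 0, 0⟩, ⟨0, 0, 0⟩, ⟨0, 0, 0⟩⟩⟩,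
   ⟨⟨⟨1, 0, 0⟩, ⟨0, 1, 0⟩, ⟨0, 0, 1⟩⟩, 1, ⟨⟨0, 0, 0⟩, ⟨0, 0, 0⟩, ⟨0, 0, 0⟩⟩⟩,
   ⟨⟨⟨1, 1, 1⟩, ⟨0, 2, 0⟩, ⟨0, 0, 2⟩⟩, 2, ⟨⟨0, 0, 0⟩, ⟨0, 0, 0⟩, ⟨0, 0, 0⟩⟩⟩]

def cubRow8 : Row :=
  ⟨[⟨⟨0, 0, -1⟩, ⟨-1, 0, 0⟩, ⟨0, 1, 0⟩⟩], ⟨⟨1, 0, 0⟩, ⟨0, 0, 1⟩, ⟨0, -1, 0⟩⟩, ⟨⟨1, 0, 0⟩, ⟨0, 0, -1⟩, ⟨0, 1, 0⟩⟩, 3,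
   [⟨⟨⟨1, 0, 0⟩, ⟨0, 1, 0⟩, ⟨0, 0, 1⟩⟩, ⟨⟨0, 0, 0⟩, ⟨0, 0, 0⟩, ⟨0, 0, 0⟩⟩⟩,
    ⟨⟨⟨0, 0, -1⟩, ⟨-1, 0, 0⟩, ⟨0, 1, 0⟩⟩, ⟨⟨0, 0, 0⟩, ⟨0, 0, 0⟩, ⟨0, 0, 0⟩⟩⟩,
    ⟨⟨⟨0, -1, 0⟩, ⟨0, 0, 1⟩, ⟨-1, 0, 0⟩⟩, ⟨⟨0, 0, 0⟩, ⟨0, 0, 0⟩, ⟨0, 0, 0⟩⟩⟩,
    ⟨⟨⟨1, 0, 0⟩, ⟨0, 0, 1⟩, ⟨0, -1, 0⟩⟩, ⟨⟨1, 0, 0⟩, ⟨0, 1, 0⟩, ⟨0, 0, 1⟩⟩⟩,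
    ⟨⟨⟨1, 0, 0⟩, ⟨0, 0, -1⟩, ⟨0, 1, 0⟩⟩, ⟨⟨-1, 0, 0⟩, ⟨0, 0, 1⟩, ⟨0, -1, 0⟩⟩⟩,
    ⟨⟨⟨0, 1, 0⟩, ⟨-1, 0, 0⟩, ⟨0, 0, 1⟩⟩, ⟨⟨0, 0, -1⟩, ⟨-1, 0, 0⟩, ⟨0, 1, 0⟩⟩⟩,
    ⟨⟨⟨0, -1, 0⟩, ⟨-1, 0, 0⟩, ⟨0, 0, -1⟩⟩, ⟨⟨0, 1, 0⟩, ⟨1, 0, 0⟩, ⟨0, 0, 1⟩⟩⟩,
    ⟨⟨⟨0, 0, -1⟩, ⟨0, -1, 0⟩, ⟨-1, 0, 0⟩⟩, ⟨⟨0, -1, 0⟩, ⟨0, 0, 1⟩, ⟨-1, 0, 0⟩⟩⟩,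
    ⟨⟨⟨0, 0, 1⟩, ⟨0, 1, 0⟩, ⟨-1, 0, 0⟩⟩, ⟨⟨0, 0, -1⟩, ⟨0, -1, 0⟩, ⟨1, 0, 0⟩⟩⟩,
    ⟨⟨⟨0, 0, -1⟩, ⟨0, 1, 0⟩, ⟨1, 0, 0⟩⟩, ⟨⟨1, 0, 0⟩, ⟨0, 1, 0⟩, ⟨0, 0, 1⟩⟩⟩,
    ⟨⟨⟨1, 0, 0⟩, ⟨0, -1, 0⟩, ⟨0, 0, -1⟩⟩, ⟨⟨2, 0, 0⟩, ⟨0, 1, 1⟩, ⟨0, -1, 1⟩⟩⟩,
    ⟨⟨⟨-1, 0, 0⟩, ⟨0, 0, 1⟩, ⟨0, 1, 0⟩⟩, ⟨⟨0, 0, -1⟩, ⟨-1, 0, 0⟩, ⟨0, 1, 0⟩⟩⟩,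
    ⟨⟨⟨0, 0, 1⟩, ⟨-1, 0, 0⟩, ⟨0, -1, 0⟩⟩, ⟨⟨0, 1, -1⟩, ⟨-2, 0, 0⟩, ⟨0, 1, 1⟩⟩⟩,
    ⟨⟨⟨0, -1, 0⟩, ⟨1, 0, 0⟩, ⟨0, 0, 1⟩⟩, ⟨⟨0, -1, 0⟩, ⟨0, 0, 1⟩, ⟨-1, 0, 0⟩⟩⟩,
    ⟨⟨⟨0, 1, 0⟩, ⟨0, 0, -1⟩, ⟨-1, 0, 0⟩⟩, ⟨⟨0, -1, -1⟩, ⟨0, -1, 1⟩, ⟨-2, 0, 0⟩⟩⟩,
    ⟨⟨⟨0, 1, 0⟩, ⟨0, 0, 1⟩, ⟨1, 0, 0⟩⟩, ⟨⟨1, 0, -1⟩, ⟨0, 2, 0⟩, ⟨1, 0, 1⟩⟩⟩,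
    ⟨⟨⟨0, -1, 0⟩, ⟨0, 0, -1⟩, ⟨1, 0, 0⟩⟩, ⟨⟨1, 1, 0⟩, ⟨0, 1, 1⟩, ⟨-1, 0, 1⟩⟩⟩,
    ⟨⟨⟨0, 0, -1⟩, ⟨1, 0, 0⟩, ⟨0, -1, 0⟩⟩, ⟨⟨2, 0, 0⟩, ⟨0, 1, 1⟩, ⟨0, -1, 1⟩⟩⟩,
    ⟨⟨⟨-1, 0, 0⟩, ⟨0, -1, 0⟩, ⟨0, 0, 1⟩⟩, ⟨⟨-1, 0, -1⟩, ⟨-1, 0, 1⟩, ⟨0, 2, 0⟩⟩⟩,
    ⟨⟨⟨-1, 0, 0⟩, ⟨0, 1, 0⟩, ⟨0, 0, -1⟩⟩, ⟨⟨1, 0, -1⟩, ⟨-1, -1, 0⟩, ⟨0, 1, 1⟩⟩⟩,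
    ⟨⟨⟨0, 0, 1⟩, ⟨1, 0, 0⟩, ⟨0, 1, 0⟩⟩, ⟨⟨0, -1, -1⟩, ⟨-1, 0, 1⟩, ⟨-1, -1, 0⟩⟩⟩,
    ⟨⟨⟨0, 0, 1⟩, ⟨0, -1, 0⟩, ⟨1, 0, 0⟩⟩, ⟨⟨1, 1, -1⟩, ⟨0, 2, 1⟩, ⟨2, 0, 1⟩⟩⟩,
    ⟨⟨⟨0, 1, 0⟩, ⟨1, 0, 0⟩, ⟨0, 0, -1⟩⟩, ⟨⟨2, 0, -1⟩, ⟨1, 1, 1⟩, ⟨0, -2, 1⟩⟩⟩,
    ⟨⟨⟨-1, 0, 0⟩, ⟨0, 0, -1⟩, ⟨0, -1, 0⟩⟩, ⟨⟨-2, 0, -1⟩, ⟨-1, -1, 1⟩, ⟨0, 2, 1⟩⟩⟩],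
   [(0, 0), (1, 0), (0, 1), (0, 2), (1, 1), (1, 2), (2, 1), (2, 2), (3, 0), (3, 1), (5, 0), (5, 1), (7, 0), (7, 1), (9, 1), (9, 2), (10, 0), (11, 1), (11, 2), (13, 2), (15, 1), (17, 1), (18, 1)],
   [⟨⟨0, 0, 0⟩, ⟨0, 0, 0⟩, ⟨0, 0, 0⟩⟩,
    ⟨⟨-1, 1, 0⟩, ⟨0, 0, 0⟩, ⟨1, -1, 0⟩⟩,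
    ⟨⟨-4, 0, 0⟩, ⟨0, 0, 0⟩, ⟨0, 0, 0⟩⟩,
    ⟨⟨-1, 1, 0⟩, ⟨1, -1, 0⟩, ⟨0, 0, 0⟩⟩,
    ⟨⟨0, 0, 0⟩, ⟨4, 0, 0⟩, ⟨0, 0, 0⟩⟩,
    ⟨⟨0, 0, 0⟩, ⟨1, -1, 0⟩, ⟨1, -1, 0⟩⟩,
    ⟨⟨0, 0, 0⟩, ⟨0, 0, 0⟩, ⟨4, 0, 0⟩⟩,
    ⟨⟨1, -1, 0⟩, ⟨-1, 1, 0⟩, ⟨0, 0, 0⟩⟩,
    ⟨⟨4, 0, 0⟩, ⟨0, 0, 0⟩, ⟨0, 0, 0⟩⟩,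
    ⟨⟨0, 0, 0⟩, ⟨-1, 1, 0⟩, ⟨-1, 1, 0⟩⟩,
    ⟨⟨-1, 1, 0⟩, ⟨-2, -2, 0⟩, ⟨-1, 1, 0⟩⟩,
    ⟨⟨0, 0, 0⟩, ⟨-4, 0, 0⟩, ⟨0, 0, 0⟩⟩,
    ⟨⟨1, -1, 0⟩, ⟨0, 0, 0⟩, ⟨-1, 1, 0⟩⟩,
    ⟨⟨-2, -2, 0⟩, ⟨1, -1, 0⟩, ⟨-1, 1, 0⟩⟩,
    ⟨⟨1, -1, 0⟩, ⟨1, -1, 0⟩, ⟨-2, -2, 0⟩⟩,
    ⟨⟨0, 0, 0⟩, ⟨0, 0, 0⟩, ⟨-4, 0, 0⟩⟩,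
    ⟨⟨0, 0, 0⟩, ⟨1, 3, 0⟩, ⟨1, -1, 0⟩⟩,
    ⟨⟨-1, 1, 0⟩, ⟨0, 0, 0⟩, ⟨-1, 1, 0⟩⟩,
    ⟨⟨1, -1, 0⟩, ⟨0, 0, 0⟩, ⟨1, -1, 0⟩⟩,
    ⟨⟨2, 2, 0⟩, ⟨-1, 1, 0⟩, ⟨1, -1, 0⟩⟩,
    ⟨⟨-1, 1, 0⟩, ⟨0, 0, 0⟩, ⟨1, 3, 0⟩⟩,
    ⟨⟨1, -1, 0⟩, ⟨1, -1, 0⟩, ⟨0, 0, 0⟩⟩,
    ⟨⟨0, 0, 0⟩, ⟨-1, 1, 0⟩, ⟨1, -1, 0⟩⟩,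
    ⟨⟨-2, -2, 0⟩, ⟨-3, -1, 0⟩, ⟨-1, 1, 0⟩⟩,
    ⟨⟨-1, 1, 0⟩, ⟨-1, 1, 0⟩, ⟨2, 2, 0⟩⟩,
    ⟨⟨4, 0, 0⟩, ⟨2, 2, 0⟩, ⟨0, -4, 0⟩⟩,
    ⟨⟨2, 2, 0⟩, ⟨3, 1, 0⟩, ⟨1, -1, 0⟩⟩,
    ⟨⟨-3, -1, 0⟩, ⟨-1, -3, 0⟩, ⟨-2, 2, 0⟩⟩],
   [[(1, 0), (3, 0), (4, 0)],
    [(2, 0), (5, 0), (6, 0)],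
    [(0, 0), (7, 0), (8, 0)],
    [(9, 0), (10, 0), (0, 0)],
    [(7, 1), (0, 0), (10, 2)],
    [(11, 0), (12, 0), (1, 0)],
    [(3, 3), (1, 0), (12, 4)],
    [(13, 0), (14, 0), (2, 0)],
    [(5, 5), (2, 0), (14, 6)],
    [(6, 7), (15, 0), (16, 0)],
    [(17, 0), (4, 8), (3, 0)],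
    [(8, 9), (18, 0), (19, 0)],
    [(15, 10), (6, 11), (5, 0)],
    [(4, 12), (17, 13), (20, 0)],
    [(18, 14), (8, 15), (7, 0)],
    [(19, 16), (21, 0), (9, 0)],
    [(10, 17), (9, 0), (21, 15)],
    [(16, 18), (22, 0), (13, 19)],
    [(20, 20), (23, 0), (11, 0)],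
    [(12, 21), (11, 0), (23, 8)],
    [(14, 22), (13, 0), (22, 23)],
    [(22, 24), (16, 6), (15, 0)],
    [(23, 25), (20, 26), (17, 0)],
    [(21, 27), (19, 2), (18, 0)]]⟩

def cubLat8 : List LatE :=
  [⟨⟨⟨1, 0, 0⟩, ⟨0, 1, 0⟩, ⟨0, 0, 1⟩⟩, 1, ⟨⟨0, 0, 0⟩, ⟨0, 0, 0⟩, ⟨0, 0, 0⟩⟩⟩,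
   ⟨⟨⟨1, 0, 0⟩, ⟨0, 1, 0⟩, ⟨0, 0, 1⟩⟩, 1, ⟨⟨0, 0, 0⟩, ⟨0, 0, 0⟩, ⟨0, 0, 0⟩⟩⟩,
   ⟨⟨⟨1, 1, 1⟩, ⟨0, 2, 0⟩, ⟨0, 0, 2⟩⟩, 2, ⟨⟨0, 0, 0⟩, ⟨0, 0, 0⟩, ⟨0, 0, 0⟩⟩⟩,
   ⟨⟨⟨1, 1, 1⟩, ⟨0, 2, 0⟩, ⟨0, 0, 2⟩⟩, 2, ⟨⟨0, 0, 0⟩, ⟨0, 0, 0⟩, ⟨0, 0, 0⟩⟩⟩]

def cubRow9 : Row :=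
  ⟨[⟨⟨0, 0, -1⟩, ⟨-1, 0, 0⟩, ⟨0, 1, 0⟩⟩], ⟨⟨1, 0, 0⟩, ⟨0, 0, -1⟩, ⟨0, -1, 0⟩⟩, ⟨⟨1, 0, 0⟩, ⟨0, 0, -1⟩, ⟨0, -1, 0⟩⟩, 3,
   [⟨⟨⟨1, 0, 0⟩, ⟨0, 1, 0⟩, ⟨0, 0, 1⟩⟩, ⟨⟨0, 0, 0⟩, ⟨0, 0, 0⟩, ⟨0, 0, 0⟩⟩⟩,
    ⟨⟨⟨0, 0, -1⟩, ⟨-1, 0, 0⟩, ⟨0, 1, 0⟩⟩, ⟨⟨0, 0, 0⟩, ⟨0, 0, 0⟩, ⟨0, 0, 0⟩⟩⟩,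
    ⟨⟨⟨0, -1, 0⟩, ⟨0, 0, 1⟩, ⟨-1, 0, 0⟩⟩, ⟨⟨0, 0, 0⟩, ⟨0, 0, 0⟩, ⟨0, 0, 0⟩⟩⟩,
    ⟨⟨⟨1, 0, 0⟩, ⟨0, 0, -1⟩, ⟨0, -1, 0⟩⟩, ⟨⟨1, 0, 0⟩, ⟨0, 1, 0⟩, ⟨0, 0, 1⟩⟩⟩,
    ⟨⟨⟨0, 1, 0⟩, ⟨-1, 0, 0⟩, ⟨0, 0, -1⟩⟩, ⟨⟨0, 0, -1⟩, ⟨-1, 0, 0⟩, ⟨0, 1, 0⟩⟩⟩,
    ⟨⟨⟨0, 0, 1⟩, ⟨0, -1, 0⟩, ⟨-1, 0, 0⟩⟩, ⟨⟨0, -1, 0⟩, ⟨0, 0, 1⟩, ⟨-1, 0, 0⟩⟩⟩,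
    ⟨⟨⟨0, 0, -1⟩, ⟨0, -1, 0⟩, ⟨1, 0, 0⟩⟩, ⟨⟨1, 0, 0⟩, ⟨0, 1, 0⟩, ⟨0, 0, 1⟩⟩⟩,
    ⟨⟨⟨-1, 0, 0⟩, ⟨0, 0, 1⟩, ⟨0, -1, 0⟩⟩, ⟨⟨0, 0, -1⟩, ⟨-1, 0, 0⟩, ⟨0, 1, 0⟩⟩⟩,
    ⟨⟨⟨0, 1, 0⟩, ⟨1, 0, 0⟩, ⟨0, 0, 1⟩⟩, ⟨⟨0, -1, 0⟩, ⟨0, 0, 1⟩, ⟨-1, 0, 0⟩⟩⟩,
    ⟨⟨⟨0, -1, 0⟩, ⟨1, 0, 0⟩, ⟨0, 0, -1⟩⟩, ⟨⟨1, 0, 0⟩, ⟨0, 1, 0⟩, ⟨0, 0, 1⟩⟩⟩,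
    ⟨⟨⟨0, 1, 0⟩, ⟨0, 0, 1⟩, ⟨1, 0, 0⟩⟩, ⟨⟨1, 0, -1⟩, ⟨0, 0, 0⟩, ⟨1, 0, 1⟩⟩⟩,
    ⟨⟨⟨0, 0, 1⟩, ⟨0, 1, 0⟩, ⟨1, 0, 0⟩⟩, ⟨⟨0, 0, -1⟩, ⟨-1, 0, 0⟩, ⟨0, 1, 0⟩⟩⟩,
    ⟨⟨⟨-1, 0, 0⟩, ⟨0, -1, 0⟩, ⟨0, 0, 1⟩⟩, ⟨⟨-1, 0, -1⟩, ⟨-1, 0, 1⟩, ⟨0, 0, 0⟩⟩⟩,
    ⟨⟨⟨-1, 0, 0⟩, ⟨0, 0, -1⟩, ⟨0, 1, 0⟩⟩, ⟨⟨0, -1, 0⟩, ⟨0, 0, 1⟩, ⟨-1, 0, 0⟩⟩⟩,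
    ⟨⟨⟨0, 0, -1⟩, ⟨1, 0, 0⟩, ⟨0, -1, 0⟩⟩, ⟨⟨0, 0, 0⟩, ⟨1, 0, 1⟩, ⟨-1, 0, 1⟩⟩⟩,
    ⟨⟨⟨0, 0, 1⟩, ⟨1, 0, 0⟩, ⟨0, 1, 0⟩⟩, ⟨⟨1, -1, 0⟩, ⟨1, 1, 0⟩, ⟨0, 0, 0⟩⟩⟩,
    ⟨⟨⟨-1, 0, 0⟩, ⟨0, 1, 0⟩, ⟨0, 0, -1⟩⟩, ⟨⟨1, 0, -1⟩, ⟨0, 0, 0⟩, ⟨1, 0, 1⟩⟩⟩,
    ⟨⟨⟨0, -1, 0⟩, ⟨0, 0, -1⟩, ⟨1, 0, 0⟩⟩, ⟨⟨0, 0, 0⟩, ⟨-1, 1, 0⟩, ⟨1, 1, 0⟩⟩⟩,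
    ⟨⟨⟨0, 1, 0⟩, ⟨0, 0, -1⟩, ⟨-1, 0, 0⟩⟩, ⟨⟨1, -1, 0⟩, ⟨1, 1, 0⟩, ⟨0, 0, 0⟩⟩⟩,
    ⟨⟨⟨0, 0, 1⟩, ⟨-1, 0, 0⟩, ⟨0, -1, 0⟩⟩, ⟨⟨1, 0, -1⟩, ⟨0, 0, 0⟩, ⟨1, 0, 1⟩⟩⟩,
    ⟨⟨⟨1, 0, 0⟩, ⟨0, -1, 0⟩, ⟨0, 0, -1⟩⟩, ⟨⟨0, 0, 0⟩, ⟨-1, 1, 0⟩, ⟨1, 1, 0⟩⟩⟩,
    ⟨⟨⟨0, 0, -1⟩, ⟨0, 1, 0⟩, ⟨-1, 0, 0⟩⟩, ⟨⟨1, 0, 0⟩, ⟨1, 1, -1⟩, ⟨-1, 0, 0⟩⟩⟩,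
    ⟨⟨⟨0, -1, 0⟩, ⟨-1, 0, 0⟩, ⟨0, 0, 1⟩⟩, ⟨⟨1, 0, 0⟩, ⟨-1, 0, 0⟩, ⟨1, -1, 1⟩⟩⟩,
    ⟨⟨⟨1, 0, 0⟩, ⟨0, 0, 1⟩, ⟨0, 1, 0⟩⟩, ⟨⟨1, 0, 0⟩, ⟨-1, 0, 0⟩, ⟨1, 1, -1⟩⟩⟩],
   [(0, 0), (1, 0), (0, 1), (1, 1), (2, 1), (3, 0), (4, 0), (5, 0), (6, 0), (6, 1), (7, 0), (7, 1), (8, 0), (8, 1), (9, 1), (10, 0), (11, 1), (15, 0), (16, 0), (17, 0), (18, 1), (19, 1), (20, 1)],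
   [⟨⟨0, 0, 0⟩, ⟨0, 0, 0⟩, ⟨0, 0, 0⟩⟩,
    ⟨⟨-2, 0, 0⟩, ⟨0, -1, 1⟩, ⟨0, 1, -1⟩⟩,
    ⟨⟨0, -1, 1⟩, ⟨2, 0, 0⟩, ⟨0, -1, 1⟩⟩,
    ⟨⟨0, 1, -1⟩, ⟨0, 1, -1⟩, ⟨2, 0, 0⟩⟩,
    ⟨⟨2, 0, 0⟩, ⟨0, 1, -1⟩, ⟨0, -1, 1⟩⟩,
    ⟨⟨0, 1, -1⟩, ⟨-2, 0, 0⟩, ⟨0, 1, -1⟩⟩,
    ⟨⟨0, -1, 1⟩, ⟨0, -1, 1⟩, ⟨-2, 0, 0⟩⟩,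
    ⟨⟨0, -1, 1⟩, ⟨0, 1, -1⟩, ⟨-2, 0, 0⟩⟩,
    ⟨⟨2, 0, 0⟩, ⟨0, 1, -1⟩, ⟨0, 1, -1⟩⟩,
    ⟨⟨0, -1, 1⟩, ⟨-2, 0, 0⟩, ⟨0, 1, -1⟩⟩,
    ⟨⟨0, 1, -1⟩, ⟨-2, 0, 0⟩, ⟨0, -1, 1⟩⟩,
    ⟨⟨0, 1, -1⟩, ⟨0, -1, 1⟩, ⟨2, 0, 0⟩⟩,
    ⟨⟨0, 1, -1⟩, ⟨0, -1, 1⟩, ⟨-2, 0, 0⟩⟩,
    ⟨⟨-2, 1, -1⟩, ⟨-2, -1, 1⟩, ⟨0, 0, 0⟩⟩,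
    ⟨⟨-2, 0, 0⟩, ⟨0, -1, 1⟩, ⟨0, -1, 1⟩⟩,
    ⟨⟨-2, -1, 1⟩, ⟨0, 0, 0⟩, ⟨-2, 1, -1⟩⟩,
    ⟨⟨0, 0, 0⟩, ⟨2, -1, 1⟩, ⟨-2, -1, 1⟩⟩,
    ⟨⟨0, 1, -1⟩, ⟨2, 0, 0⟩, ⟨0, -1, 1⟩⟩,
    ⟨⟨0, -1, 1⟩, ⟨2, 0, 0⟩, ⟨0, 1, -1⟩⟩,
    ⟨⟨2, 1, -1⟩, ⟨0, 0, 0⟩, ⟨2, -1, 1⟩⟩,
    ⟨⟨0, -1, 1⟩, ⟨0, 1, -1⟩, ⟨2, 0, 0⟩⟩,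
    ⟨⟨2, -1, 1⟩, ⟨2, 1, -1⟩, ⟨0, 0, 0⟩⟩,
    ⟨⟨0, -1, 1⟩, ⟨0, -1, 1⟩, ⟨2, 0, 0⟩⟩,
    ⟨⟨0, 1, -1⟩, ⟨2, 0, 0⟩, ⟨0, 1, -1⟩⟩,
    ⟨⟨0, 0, 0⟩, ⟨-2, 1, -1⟩, ⟨2, 1, -1⟩⟩,
    ⟨⟨-2, 0, 0⟩, ⟨0, 1, -1⟩, ⟨0, -1, 1⟩⟩,
    ⟨⟨0, 0, 0⟩, ⟨2, 1, -1⟩, ⟨-2, 1, -1⟩⟩,
    ⟨⟨0, 1, -1⟩, ⟨0, 1, -1⟩, ⟨-2, 0, 0⟩⟩,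
    ⟨⟨0, 0, 0⟩, ⟨0, 0, 0⟩, ⟨0, -2, 2⟩⟩,
    ⟨⟨0, -1, 1⟩, ⟨-2, 0, 0⟩, ⟨0, -1, 1⟩⟩,
    ⟨⟨0, 0, 0⟩, ⟨-2, -1, 1⟩, ⟨2, 1, -1⟩⟩,
    ⟨⟨2, 0, 0⟩, ⟨0, -1, 1⟩, ⟨0, 1, -1⟩⟩],
   [[(1, 0), (3, 0), (3, 1)],
    [(2, 0), (4, 0), (4, 2)],
    [(0, 0), (5, 0), (5, 3)],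
    [(6, 0), (0, 4), (0, 0)],
    [(7, 0), (1, 5), (1, 0)],
    [(8, 0), (2, 6), (2, 0)],
    [(9, 0), (10, 0), (10, 7)],
    [(11, 0), (12, 0), (12, 8)],
    [(13, 0), (14, 0), (14, 9)],
    [(3, 0), (15, 0), (15, 10)],
    [(16, 0), (6, 11), (6, 0)],
    [(4, 0), (17, 0), (17, 12)],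
    [(15, 13), (7, 14), (7, 0)],
    [(5, 0), (16, 15), (16, 6)],
    [(17, 16), (8, 17), (8, 0)],
    [(18, 0), (9, 18), (9, 0)],
    [(19, 0), (13, 3), (13, 19)],
    [(20, 0), (11, 20), (11, 0)],
    [(12, 21), (21, 0), (21, 22)],
    [(10, 0), (22, 0), (22, 23)],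
    [(14, 24), (23, 0), (23, 25)],
    [(22, 26), (18, 27), (18, 0)],
    [(23, 28), (19, 29), (19, 0)],
    [(21, 30), (20, 31), (20, 0)]]⟩

def cubLat9 : List LatE :=
  [⟨⟨⟨1, 0, 0⟩, ⟨0, 1, 0⟩, ⟨0, 0, 1⟩⟩, 1, ⟨⟨0, 0, 0⟩, ⟨0, 0, 0⟩, ⟨0, 0, 0⟩⟩⟩,
   ⟨⟨⟨1, 1, 1⟩, ⟨0, 2, 0⟩, ⟨0, 0, 2⟩⟩, 2, ⟨⟨0, 0, 0⟩, ⟨0, 0, 0⟩, ⟨0, 0, 0⟩⟩⟩,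
   ⟨⟨⟨1, 1, 0⟩, ⟨0, 1, 1⟩, ⟨0, 0, 2⟩⟩, 2, ⟨⟨0, 0, 0⟩, ⟨0, 0, 0⟩, ⟨0, 0, 0⟩⟩⟩]

def cubRow10 : Row :=
  ⟨[⟨⟨0, 0, -1⟩, ⟨-1, 0, 0⟩, ⟨0, 1, 0⟩⟩], ⟨⟨1, 0, 0⟩, ⟨0, -1, 0⟩, ⟨0, 0, -1⟩⟩, ⟨⟨1, 0, 0⟩, ⟨0, -1, 0⟩, ⟨0, 0, -1⟩⟩, 3,
   [⟨⟨⟨1, 0, 0⟩, ⟨0, 1, 0⟩, ⟨0, 0, 1⟩⟩, ⟨⟨0, 0, 0⟩, ⟨0, 0, 0⟩, ⟨0, 0, 0⟩⟩⟩,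
    ⟨⟨⟨0, 0, -1⟩, ⟨-1, 0, 0⟩, ⟨0, 1, 0⟩⟩, ⟨⟨0, 0, 0⟩, ⟨0, 0, 0⟩, ⟨0, 0, 0⟩⟩⟩,
    ⟨⟨⟨0, -1, 0⟩, ⟨0, 0, 1⟩, ⟨-1, 0, 0⟩⟩, ⟨⟨0, 0, 0⟩, ⟨0, 0, 0⟩, ⟨0, 0, 0⟩⟩⟩,
    ⟨⟨⟨1, 0, 0⟩, ⟨0, -1, 0⟩, ⟨0, 0, -1⟩⟩, ⟨⟨1, 0, 0⟩, ⟨0, 1, 0⟩, ⟨0, 0, 1⟩⟩⟩,
    ⟨⟨⟨0, 0, 1⟩, ⟨-1, 0, 0⟩, ⟨0, -1, 0⟩⟩, ⟨⟨0, 0, -1⟩, ⟨-1, 0, 0⟩, ⟨0, 1, 0⟩⟩⟩,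
    ⟨⟨⟨0, 1, 0⟩, ⟨0, 0, -1⟩, ⟨-1, 0, 0⟩⟩, ⟨⟨0, -1, 0⟩, ⟨0, 0, 1⟩, ⟨-1, 0, 0⟩⟩⟩,
    ⟨⟨⟨0, 0, -1⟩, ⟨1, 0, 0⟩, ⟨0, -1, 0⟩⟩, ⟨⟨1, 0, 0⟩, ⟨0, 1, 0⟩, ⟨0, 0, 1⟩⟩⟩,
    ⟨⟨⟨0, 1, 0⟩, ⟨0, 0, 1⟩, ⟨1, 0, 0⟩⟩, ⟨⟨0, 0, -1⟩, ⟨-1, 0, 0⟩, ⟨0, 1, 0⟩⟩⟩,
    ⟨⟨⟨-1, 0, 0⟩, ⟨0, -1, 0⟩, ⟨0, 0, 1⟩⟩, ⟨⟨0, -1, 0⟩, ⟨0, 0, 1⟩, ⟨-1, 0, 0⟩⟩⟩,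
    ⟨⟨⟨0, -1, 0⟩, ⟨0, 0, -1⟩, ⟨1, 0, 0⟩⟩, ⟨⟨1, 0, 0⟩, ⟨0, 1, 0⟩, ⟨0, 0, 1⟩⟩⟩,
    ⟨⟨⟨0, 0, 1⟩, ⟨1, 0, 0⟩, ⟨0, 1, 0⟩⟩, ⟨⟨1, 0, -1⟩, ⟨1, 1, 0⟩, ⟨0, -1, 1⟩⟩⟩,
    ⟨⟨⟨-1, 0, 0⟩, ⟨0, 1, 0⟩, ⟨0, 0, -1⟩⟩, ⟨⟨0, 0, -1⟩, ⟨-1, 0, 0⟩, ⟨0, 1, 0⟩⟩⟩],
   [(0, 0), (1, 0), (0, 1), (1, 1), (2, 1), (3, 0), (4, 0), (5, 0), (6, 0), (6, 1), (7, 0)],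
   [⟨⟨0, 0, 0⟩, ⟨0, 0, 0⟩, ⟨0, 0, 0⟩⟩,
    ⟨⟨-2, 0, 0⟩, ⟨0, 0, 0⟩, ⟨0, 0, 0⟩⟩,
    ⟨⟨0, 0, 0⟩, ⟨2, 0, 0⟩, ⟨0, 0, 0⟩⟩,
    ⟨⟨0, 0, 0⟩, ⟨0, 0, 0⟩, ⟨2, 0, 0⟩⟩,
    ⟨⟨2, 0, 0⟩, ⟨0, 0, 0⟩, ⟨0, 0, 0⟩⟩,
    ⟨⟨0, 0, 0⟩, ⟨-2, 0, 0⟩, ⟨0, 0, 0⟩⟩,
    ⟨⟨0, 0, 0⟩, ⟨0, 0, 0⟩, ⟨-2, 0, 0⟩⟩,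
    ⟨⟨-1, 1, -1⟩, ⟨-1, -1, 1⟩, ⟨1, 1, -1⟩⟩,
    ⟨⟨-1, 1, -1⟩, ⟨-1, -1, 1⟩, ⟨-1, 1, -1⟩⟩,
    ⟨⟨-1, -1, 1⟩, ⟨-1, -1, 1⟩, ⟨-1, 1, -1⟩⟩,
    ⟨⟨-1, -1, 1⟩, ⟨1, -1, 1⟩, ⟨-1, -1, 1⟩⟩,
    ⟨⟨1, -1, 1⟩, ⟨1, -1, 1⟩, ⟨-1, -1, 1⟩⟩,
    ⟨⟨1, -1, 1⟩, ⟨1, 1, -1⟩, ⟨1, -1, 1⟩⟩,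
    ⟨⟨1, -1, 1⟩, ⟨1, 1, -1⟩, ⟨-1, -1, 1⟩⟩,
    ⟨⟨1, 1, -1⟩, ⟨1, 1, -1⟩, ⟨1, -1, 1⟩⟩,
    ⟨⟨-1, 1, -1⟩, ⟨-1, 1, -1⟩, ⟨1, 1, -1⟩⟩,
    ⟨⟨1, 1, -1⟩, ⟨-1, 1, -1⟩, ⟨1, 1, -1⟩⟩],
   [[(1, 0), (3, 0), (3, 1)],
    [(2, 0), (4, 0), (4, 2)],
    [(0, 0), (5, 0), (5, 3)],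
    [(6, 0), (0, 4), (0, 0)],
    [(7, 0), (1, 5), (1, 0)],
    [(8, 0), (2, 6), (2, 0)],
    [(9, 0), (10, 0), (10, 5)],
    [(11, 0), (9, 7), (9, 8)],
    [(10, 9), (11, 10), (11, 11)],
    [(3, 0), (7, 12), (7, 13)],
    [(5, 14), (6, 2), (6, 0)],
    [(4, 0), (8, 15), (8, 16)]]⟩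

def cubLat10 : List LatE :=
  [⟨⟨⟨1, 0, 0⟩, ⟨0, 1, 0⟩, ⟨0, 0, 1⟩⟩, 1, ⟨⟨0, 0, 0⟩, ⟨0, 0, 0⟩, ⟨0, 0, 0⟩⟩⟩,
   ⟨⟨⟨1, 1, 0⟩, ⟨0, 1, 1⟩, ⟨0, 0, 2⟩⟩, 2, ⟨⟨0, 0, 0⟩, ⟨0, 0, 0⟩, ⟨0, 0, 0⟩⟩⟩,
   ⟨⟨⟨1, 1, 0⟩, ⟨0, 1, 1⟩, ⟨0, 0, 2⟩⟩, 2, ⟨⟨0, 0, 0⟩, ⟨0, 0, 0⟩, ⟨0, 0, 0⟩⟩⟩]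

def cubRow11 : Row :=
  ⟨[⟨⟨0, 0, 1⟩, ⟨0, -1, 0⟩, ⟨-1, 0, 0⟩⟩], ⟨⟨1, 0, 0⟩, ⟨0, 0, 1⟩, ⟨0, 1, 0⟩⟩, ⟨⟨1, 0, 0⟩, ⟨0, 0, 1⟩, ⟨0, 1, 0⟩⟩, 4,
   [⟨⟨⟨1, 0, 0⟩, ⟨0, 1, 0⟩, ⟨0, 0, 1⟩⟩, ⟨⟨0, 0, 0⟩, ⟨0, 0, 0⟩, ⟨0, 0, 0⟩⟩⟩,
    ⟨⟨⟨0, 0, 1⟩, ⟨0, -1, 0⟩, ⟨-1, 0, 0⟩⟩, ⟨⟨0, 0, 0⟩, ⟨0, 0, 0⟩, ⟨0, 0, 0⟩⟩⟩,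
    ⟨⟨⟨-1, 0, 0⟩, ⟨0, 1, 0⟩, ⟨0, 0, -1⟩⟩, ⟨⟨0, 0, 0⟩, ⟨0, 0, 0⟩, ⟨0, 0, 0⟩⟩⟩,
    ⟨⟨⟨0, 0, -1⟩, ⟨0, -1, 0⟩, ⟨1, 0, 0⟩⟩, ⟨⟨0, 0, 0⟩, ⟨0, 0, 0⟩, ⟨0, 0, 0⟩⟩⟩,
    ⟨⟨⟨1, 0, 0⟩, ⟨0, 0, 1⟩, ⟨0, 1, 0⟩⟩, ⟨⟨1, 0, 0⟩, ⟨0, 1, 0⟩, ⟨0, 0, 1⟩⟩⟩,
    ⟨⟨⟨0, 1, 0⟩, ⟨0, 0, -1⟩, ⟨-1, 0, 0⟩⟩, ⟨⟨0, 0, 1⟩, ⟨0, -1, 0⟩, ⟨-1, 0, 0⟩⟩⟩,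
    ⟨⟨⟨-1, 0, 0⟩, ⟨0, 0, 1⟩, ⟨0, -1, 0⟩⟩, ⟨⟨-1, 0, 0⟩, ⟨0, 1, 0⟩, ⟨0, 0, -1⟩⟩⟩,
    ⟨⟨⟨0, -1, 0⟩, ⟨0, 0, -1⟩, ⟨1, 0, 0⟩⟩, ⟨⟨0, 0, -1⟩, ⟨0, -1, 0⟩, ⟨1, 0, 0⟩⟩⟩,
    ⟨⟨⟨0, 0, 1⟩, ⟨-1, 0, 0⟩, ⟨0, -1, 0⟩⟩, ⟨⟨1, 0, 0⟩, ⟨0, 1, 0⟩, ⟨0, 0, 1⟩⟩⟩,
    ⟨⟨⟨0, -1, 0⟩, ⟨1, 0, 0⟩, ⟨0, 0, -1⟩⟩, ⟨⟨0, 0, 1⟩, ⟨0, -1, 0⟩, ⟨-1, 0, 0⟩⟩⟩,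
    ⟨⟨⟨0, 0, -1⟩, ⟨-1, 0, 0⟩, ⟨0, 1, 0⟩⟩, ⟨⟨-1, 0, 0⟩, ⟨0, 1, 0⟩, ⟨0, 0, -1⟩⟩⟩,
    ⟨⟨⟨0, 1, 0⟩, ⟨1, 0, 0⟩, ⟨0, 0, 1⟩⟩, ⟨⟨0, 0, -1⟩, ⟨0, -1, 0⟩, ⟨1, 0, 0⟩⟩⟩,
    ⟨⟨⟨-1, 0, 0⟩, ⟨0, 0, -1⟩, ⟨0, 1, 0⟩⟩, ⟨⟨1, 0, 0⟩, ⟨0, 1, 0⟩, ⟨0, 0, 1⟩⟩⟩,
    ⟨⟨⟨0, 1, 0⟩, ⟨-1, 0, 0⟩, ⟨0, 0, -1⟩⟩, ⟨⟨1, 0, 1⟩, ⟨-1, 1, 0⟩, ⟨0, -1, 1⟩⟩⟩,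
    ⟨⟨⟨0, 1, 0⟩, ⟨0, 0, 1⟩, ⟨1, 0, 0⟩⟩, ⟨⟨0, 0, 1⟩, ⟨0, -1, 0⟩, ⟨-1, 0, 0⟩⟩⟩,
    ⟨⟨⟨0, 0, -1⟩, ⟨1, 0, 0⟩, ⟨0, -1, 0⟩⟩, ⟨⟨0, -1, 1⟩, ⟨1, -1, 0⟩, ⟨-1, 0, -1⟩⟩⟩,
    ⟨⟨⟨1, 0, 0⟩, ⟨0, 0, -1⟩, ⟨0, -1, 0⟩⟩, ⟨⟨-1, 0, 0⟩, ⟨0, 1, 0⟩, ⟨0, 0, -1⟩⟩⟩,
    ⟨⟨⟨0, -1, 0⟩, ⟨-1, 0, 0⟩, ⟨0, 0, 1⟩⟩, ⟨⟨-1, 0, -1⟩, ⟨-1, 1, 0⟩, ⟨0, 1, -1⟩⟩⟩,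
    ⟨⟨⟨0, -1, 0⟩, ⟨0, 0, 1⟩, ⟨-1, 0, 0⟩⟩, ⟨⟨0, 0, -1⟩, ⟨0, -1, 0⟩, ⟨1, 0, 0⟩⟩⟩,
    ⟨⟨⟨0, 0, 1⟩, ⟨1, 0, 0⟩, ⟨0, 1, 0⟩⟩, ⟨⟨0, 1, -1⟩, ⟨1, -1, 0⟩, ⟨1, 0, 1⟩⟩⟩,
    ⟨⟨⟨-1, 0, 0⟩, ⟨0, -1, 0⟩, ⟨0, 0, 1⟩⟩, ⟨⟨0, 0, 0⟩, ⟨0, 1, -1⟩, ⟨0, 1, 1⟩⟩⟩,
    ⟨⟨⟨0, 0, 1⟩, ⟨0, 1, 0⟩, ⟨1, 0, 0⟩⟩, ⟨⟨0, 1, 1⟩, ⟨0, -1, 1⟩, ⟨0, 0, 0⟩⟩⟩,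
    ⟨⟨⟨1, 0, 0⟩, ⟨0, -1, 0⟩, ⟨0, 0, -1⟩⟩, ⟨⟨0, 0, 0⟩, ⟨0, 1, -1⟩, ⟨0, -1, -1⟩⟩⟩,
    ⟨⟨⟨0, 0, -1⟩, ⟨0, 1, 0⟩, ⟨-1, 0, 0⟩⟩, ⟨⟨0, -1, -1⟩, ⟨0, -1, 1⟩, ⟨0, 0, 0⟩⟩⟩],
   [(0, 0), (1, 0), (2, 0), (0, 1), (1, 1), (2, 1), (3, 1), (4, 0), (5, 0), (6, 0), (7, 0), (8, 0), (8, 1), (9, 0), (9, 1), (10, 0), (10, 1), (11, 0), (11, 1), (12, 1), (14, 1), (16, 1), (18, 1)],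
   [⟨⟨0, 0, 0⟩, ⟨0, 0, 0⟩, ⟨0, 0, 0⟩⟩,
    ⟨⟨-2, 0, 0⟩, ⟨0, -1, -1⟩, ⟨0, -1, -1⟩⟩,
    ⟨⟨0, -1, -1⟩, ⟨0, 1, 1⟩, ⟨2, 0, 0⟩⟩,
    ⟨⟨2, 0, 0⟩, ⟨0, -1, -1⟩, ⟨0, 1, 1⟩⟩,
    ⟨⟨0, 1, 1⟩, ⟨0, 1, 1⟩, ⟨-2, 0, 0⟩⟩,
    ⟨⟨2, 0, 0⟩, ⟨0, 1, 1⟩, ⟨0, 1, 1⟩⟩,
    ⟨⟨0, 1, 1⟩, ⟨0, -1, -1⟩, ⟨-2, 0, 0⟩⟩,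
    ⟨⟨-2, 0, 0⟩, ⟨0, 1, 1⟩, ⟨0, -1, -1⟩⟩,
    ⟨⟨0, -1, -1⟩, ⟨0, -1, -1⟩, ⟨2, 0, 0⟩⟩,
    ⟨⟨0, -1, -1⟩, ⟨2, 0, 0⟩, ⟨0, 1, 1⟩⟩,
    ⟨⟨0, 1, 1⟩, ⟨-2, 0, 0⟩, ⟨0, 1, 1⟩⟩,
    ⟨⟨0, 1, 1⟩, ⟨2, 0, 0⟩, ⟨0, -1, -1⟩⟩,
    ⟨⟨0, -1, -1⟩, ⟨-2, 0, 0⟩, ⟨0, -1, -1⟩⟩,
    ⟨⟨1, 1, -1⟩, ⟨-1, 2, 0⟩, ⟨1, 0, 2⟩⟩,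
    ⟨⟨2, 0, 0⟩, ⟨0, 1, 1⟩, ⟨0, -1, -1⟩⟩,
    ⟨⟨1, 0, 2⟩, ⟨-1, 2, 0⟩, ⟨-1, -1, 1⟩⟩,
    ⟨⟨0, 1, 1⟩, ⟨-2, 0, 0⟩, ⟨0, -1, -1⟩⟩,
    ⟨⟨1, 0, 2⟩, ⟨1, -2, 0⟩, ⟨-1, -1, 1⟩⟩,
    ⟨⟨0, -1, -1⟩, ⟨0, -1, -1⟩, ⟨-2, 0, 0⟩⟩,
    ⟨⟨-1, -1, 1⟩, ⟨1, -2, 0⟩, ⟨-1, 0, -2⟩⟩,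
    ⟨⟨0, -1, -1⟩, ⟨2, 0, 0⟩, ⟨0, -1, -1⟩⟩,
    ⟨⟨-1, -1, 1⟩, ⟨-1, 2, 0⟩, ⟨-1, 0, -2⟩⟩,
    ⟨⟨-2, 0, 0⟩, ⟨0, 1, 1⟩, ⟨0, 1, 1⟩⟩,
    ⟨⟨-1, 0, -2⟩, ⟨-1, 2, 0⟩, ⟨1, 1, -1⟩⟩,
    ⟨⟨0, -1, -1⟩, ⟨-2, 0, 0⟩, ⟨0, 1, 1⟩⟩,
    ⟨⟨-1, 0, -2⟩, ⟨1, -2, 0⟩, ⟨1, 1, -1⟩⟩,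
    ⟨⟨0, 1, 1⟩, ⟨0, -1, -1⟩, ⟨2, 0, 0⟩⟩,
    ⟨⟨1, 1, -1⟩, ⟨1, -2, 0⟩, ⟨1, 0, 2⟩⟩,
    ⟨⟨0, 1, 1⟩, ⟨2, 0, 0⟩, ⟨0, 1, 1⟩⟩,
    ⟨⟨0, 1, 1⟩, ⟨0, 2, -2⟩, ⟨0, 1, 1⟩⟩,
    ⟨⟨-2, 0, 0⟩, ⟨0, -1, -1⟩, ⟨0, 1, 1⟩⟩,
    ⟨⟨0, 1, 1⟩, ⟨0, -2, 2⟩, ⟨0, -1, -1⟩⟩,
    ⟨⟨0, 1, 1⟩, ⟨0, 1, 1⟩, ⟨2, 0, 0⟩⟩,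
    ⟨⟨0, -1, -1⟩, ⟨0, 2, -2⟩, ⟨0, -1, -1⟩⟩,
    ⟨⟨2, 0, 0⟩, ⟨0, -1, -1⟩, ⟨0, -1, -1⟩⟩,
    ⟨⟨0, -1, -1⟩, ⟨0, -2, 2⟩, ⟨0, 1, 1⟩⟩,
    ⟨⟨0, -1, -1⟩, ⟨0, 1, 1⟩, ⟨-2, 0, 0⟩⟩],
   [[(1, 0), (4, 0), (4, 1)],
    [(2, 0), (5, 0), (5, 2)],
    [(3, 0), (6, 0), (6, 3)],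
    [(0, 0), (7, 0), (7, 4)],
    [(8, 0), (0, 5), (0, 0)],
    [(9, 0), (1, 6), (1, 0)],
    [(10, 0), (2, 7), (2, 0)],
    [(11, 0), (3, 8), (3, 0)],
    [(12, 0), (13, 0), (13, 9)],
    [(14, 0), (15, 0), (15, 10)],
    [(16, 0), (17, 0), (17, 11)],
    [(18, 0), (19, 0), (19, 12)],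
    [(15, 13), (20, 0), (20, 14)],
    [(7, 15), (8, 16), (8, 0)],
    [(17, 17), (21, 0), (21, 18)],
    [(4, 19), (9, 20), (9, 0)],
    [(19, 21), (22, 0), (22, 22)],
    [(5, 23), (10, 24), (10, 0)],
    [(13, 25), (23, 0), (23, 26)],
    [(6, 27), (11, 28), (11, 0)],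
    [(23, 29), (12, 30), (12, 0)],
    [(20, 31), (14, 32), (14, 0)],
    [(21, 33), (16, 34), (16, 0)],
    [(22, 35), (18, 36), (18, 0)]]⟩

def cubLat11 : List LatE :=
  [⟨⟨⟨1, 1, 0⟩, ⟨0, 1, 1⟩, ⟨0, 0, 2⟩⟩, 2, ⟨⟨0, 0, 0⟩, ⟨0, 0, 0⟩, ⟨0, 0, 0⟩⟩⟩,
   ⟨⟨⟨1, 1, 1⟩, ⟨0, 2, 0⟩, ⟨0, 0, 2⟩⟩, 2, ⟨⟨0, 0, 0⟩, ⟨0, 0, 0⟩, ⟨0, 0, 0⟩⟩⟩]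

def cubRow12 : Row :=
  ⟨[⟨⟨0, 0, 1⟩, ⟨0, -1, 0⟩, ⟨-1, 0, 0⟩⟩], ⟨⟨1, 0, 0⟩, ⟨0, 0, 1⟩, ⟨0, -1, 0⟩⟩, ⟨⟨1, 0, 0⟩, ⟨0, 0, -1⟩, ⟨0, 1, 0⟩⟩, 4,
   [⟨⟨⟨1, 0, 0⟩, ⟨0, 1, 0⟩, ⟨0, 0, 1⟩⟩, ⟨⟨0, 0, 0⟩, ⟨0, 0, 0⟩, ⟨0, 0, 0⟩⟩⟩,
    ⟨⟨⟨0, 0, 1⟩, ⟨0, -1, 0⟩, ⟨-1, 0, 0⟩⟩, ⟨⟨0, 0, 0⟩, ⟨0, 0, 0⟩, ⟨0, 0, 0⟩⟩⟩,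
    ⟨⟨⟨-1, 0, 0⟩, ⟨0, 1, 0⟩, ⟨0, 0, -1⟩⟩, ⟨⟨0, 0, 0⟩, ⟨0, 0, 0⟩, ⟨0, 0, 0⟩⟩⟩,
    ⟨⟨⟨0, 0, -1⟩, ⟨0, -1, 0⟩, ⟨1, 0, 0⟩⟩, ⟨⟨0, 0, 0⟩, ⟨0, 0, 0⟩, ⟨0, 0, 0⟩⟩⟩,
    ⟨⟨⟨1, 0, 0⟩, ⟨0, 0, 1⟩, ⟨0, -1, 0⟩⟩, ⟨⟨1, 0, 0⟩, ⟨0, 1, 0⟩, ⟨0, 0, 1⟩⟩⟩,
    ⟨⟨⟨1, 0, 0⟩, ⟨0, 0, -1⟩, ⟨0, 1, 0⟩⟩, ⟨⟨-1, 0, 0⟩, ⟨0, 0, 1⟩, ⟨0, -1, 0⟩⟩⟩,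
    ⟨⟨⟨0, -1, 0⟩, ⟨0, 0, -1⟩, ⟨-1, 0, 0⟩⟩, ⟨⟨0, 0, 1⟩, ⟨0, -1, 0⟩, ⟨-1, 0, 0⟩⟩⟩,
    ⟨⟨⟨0, 1, 0⟩, ⟨0, 0, 1⟩, ⟨-1, 0, 0⟩⟩, ⟨⟨0, -1, 0⟩, ⟨0, 0, -1⟩, ⟨1, 0, 0⟩⟩⟩,
    ⟨⟨⟨-1, 0, 0⟩, ⟨0, 0, 1⟩, ⟨0, 1, 0⟩⟩, ⟨⟨-1, 0, 0⟩, ⟨0, 1, 0⟩, ⟨0, 0, -1⟩⟩⟩,
    ⟨⟨⟨-1, 0, 0⟩, ⟨0, 0, -1⟩, ⟨0, -1, 0⟩⟩, ⟨⟨1, 0, 0⟩, ⟨0, 0, 1⟩, ⟨0, 1, 0⟩⟩⟩,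
    ⟨⟨⟨0, 1, 0⟩, ⟨0, 0, -1⟩, ⟨1, 0, 0⟩⟩, ⟨⟨0, 0, -1⟩, ⟨0, -1, 0⟩, ⟨1, 0, 0⟩⟩⟩,
    ⟨⟨⟨0, -1, 0⟩, ⟨0, 0, 1⟩, ⟨1, 0, 0⟩⟩, ⟨⟨0, 1, 0⟩, ⟨0, 0, -1⟩, ⟨-1, 0, 0⟩⟩⟩,
    ⟨⟨⟨0, 0, 1⟩, ⟨-1, 0, 0⟩, ⟨0, 1, 0⟩⟩, ⟨⟨1, 0, 0⟩, ⟨0, 1, 0⟩, ⟨0, 0, 1⟩⟩⟩,
    ⟨⟨⟨1, 0, 0⟩, ⟨0, -1, 0⟩, ⟨0, 0, -1⟩⟩, ⟨⟨2, 0, 0⟩, ⟨0, 1, 1⟩, ⟨0, -1, 1⟩⟩⟩,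
    ⟨⟨⟨0, 0, 1⟩, ⟨1, 0, 0⟩, ⟨0, -1, 0⟩⟩, ⟨⟨-1, 0, 0⟩, ⟨0, 0, 1⟩, ⟨0, -1, 0⟩⟩⟩,
    ⟨⟨⟨0, 1, 0⟩, ⟨1, 0, 0⟩, ⟨0, 0, -1⟩⟩, ⟨⟨0, 0, 1⟩, ⟨0, -1, 0⟩, ⟨-1, 0, 0⟩⟩⟩,
    ⟨⟨⟨0, 0, -1⟩, ⟨0, 1, 0⟩, ⟨-1, 0, 0⟩⟩, ⟨⟨0, -1, 1⟩, ⟨0, -1, -1⟩, ⟨-2, 0, 0⟩⟩⟩,
    ⟨⟨⟨0, -1, 0⟩, ⟨-1, 0, 0⟩, ⟨0, 0, -1⟩⟩, ⟨⟨0, -1, 0⟩, ⟨0, 0, -1⟩, ⟨1, 0, 0⟩⟩⟩,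
    ⟨⟨⟨0, 0, -1⟩, ⟨-1, 0, 0⟩, ⟨0, -1, 0⟩⟩, ⟨⟨-1, 0, 0⟩, ⟨0, 1, 0⟩, ⟨0, 0, -1⟩⟩⟩,
    ⟨⟨⟨-1, 0, 0⟩, ⟨0, -1, 0⟩, ⟨0, 0, 1⟩⟩, ⟨⟨-2, 0, 0⟩, ⟨0, 1, 1⟩, ⟨0, 1, -1⟩⟩⟩,
    ⟨⟨⟨0, 0, -1⟩, ⟨1, 0, 0⟩, ⟨0, 1, 0⟩⟩, ⟨⟨1, 0, 0⟩, ⟨0, 0, 1⟩, ⟨0, 1, 0⟩⟩⟩,
    ⟨⟨⟨0, -1, 0⟩, ⟨1, 0, 0⟩, ⟨0, 0, 1⟩⟩, ⟨⟨0, 0, -1⟩, ⟨0, -1, 0⟩, ⟨1, 0, 0⟩⟩⟩,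
    ⟨⟨⟨0, 0, 1⟩, ⟨0, 1, 0⟩, ⟨1, 0, 0⟩⟩, ⟨⟨0, 1, -1⟩, ⟨0, -1, -1⟩, ⟨2, 0, 0⟩⟩⟩,
    ⟨⟨⟨0, 1, 0⟩, ⟨-1, 0, 0⟩, ⟨0, 0, 1⟩⟩, ⟨⟨0, 1, 0⟩, ⟨0, 0, -1⟩, ⟨-1, 0, 0⟩⟩⟩,
    ⟨⟨⟨0, -1, 0⟩, ⟨-1, 0, 0⟩, ⟨0, 0, 1⟩⟩, ⟨⟨1, 0, 1⟩, ⟨-1, 1, 0⟩, ⟨0, 1, 1⟩⟩⟩,
    ⟨⟨⟨0, 1, 0⟩, ⟨-1, 0, 0⟩, ⟨0, 0, -1⟩⟩, ⟨⟨1, -1, 0⟩, ⟨1, 1, 0⟩, ⟨0, 0, 2⟩⟩⟩,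
    ⟨⟨⟨0, -1, 0⟩, ⟨1, 0, 0⟩, ⟨0, 0, -1⟩⟩, ⟨⟨-1, 0, 1⟩, ⟨1, 0, 1⟩, ⟨0, -2, 0⟩⟩⟩,
    ⟨⟨⟨0, 1, 0⟩, ⟨1, 0, 0⟩, ⟨0, 0, 1⟩⟩, ⟨⟨-1, -1, 0⟩, ⟨-1, 0, 1⟩, ⟨0, -1, -1⟩⟩⟩,
    ⟨⟨⟨0, 0, 1⟩, ⟨1, 0, 0⟩, ⟨0, 1, 0⟩⟩, ⟨⟨0, 1, 1⟩, ⟨1, -1, 0⟩, ⟨-1, 0, -1⟩⟩⟩,
    ⟨⟨⟨0, 0, -1⟩, ⟨1, 0, 0⟩, ⟨0, -1, 0⟩⟩, ⟨⟨0, 0, 2⟩, ⟨-1, -1, 0⟩, ⟨-1, 1, 0⟩⟩⟩,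
    ⟨⟨⟨0, 0, -1⟩, ⟨-1, 0, 0⟩, ⟨0, 1, 0⟩⟩, ⟨⟨0, -2, 0⟩, ⟨-1, 0, -1⟩, ⟨1, 0, -1⟩⟩⟩,
    ⟨⟨⟨0, 0, 1⟩, ⟨-1, 0, 0⟩, ⟨0, -1, 0⟩⟩, ⟨⟨0, -1, -1⟩, ⟨1, 0, -1⟩, ⟨1, 1, 0⟩⟩⟩,
    ⟨⟨⟨0, 1, 0⟩, ⟨0, 0, -1⟩, ⟨-1, 0, 0⟩⟩, ⟨⟨1, 0, 1⟩, ⟨-1, 1, 0⟩, ⟨0, 1, 1⟩⟩⟩,
    ⟨⟨⟨0, -1, 0⟩, ⟨0, 0, -1⟩, ⟨1, 0, 0⟩⟩, ⟨⟨1, -1, 0⟩, ⟨1, 1, 0⟩, ⟨0, 0, 2⟩⟩⟩,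
    ⟨⟨⟨0, 1, 0⟩, ⟨0, 0, 1⟩, ⟨1, 0, 0⟩⟩, ⟨⟨-1, 0, 1⟩, ⟨1, 0, 1⟩, ⟨0, -2, 0⟩⟩⟩,
    ⟨⟨⟨0, -1, 0⟩, ⟨0, 0, 1⟩, ⟨-1, 0, 0⟩⟩, ⟨⟨-1, -1, 0⟩, ⟨-1, 0, 1⟩, ⟨0, -1, -1⟩⟩⟩,
    ⟨⟨⟨-1, 0, 0⟩, ⟨0, 0, 1⟩, ⟨0, -1, 0⟩⟩, ⟨⟨0, 1, 1⟩, ⟨1, -1, 0⟩, ⟨-1, 0, -1⟩⟩⟩,
    ⟨⟨⟨1, 0, 0⟩, ⟨0, 0, 1⟩, ⟨0, 1, 0⟩⟩, ⟨⟨0, 0, 2⟩, ⟨-1, -1, 0⟩, ⟨-1, 1, 0⟩⟩⟩,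
    ⟨⟨⟨1, 0, 0⟩, ⟨0, 0, -1⟩, ⟨0, -1, 0⟩⟩, ⟨⟨0, -2, 0⟩, ⟨-1, 0, -1⟩, ⟨1, 0, -1⟩⟩⟩,
    ⟨⟨⟨-1, 0, 0⟩, ⟨0, 0, -1⟩, ⟨0, 1, 0⟩⟩, ⟨⟨0, -1, -1⟩, ⟨1, 0, -1⟩, ⟨1, 1, 0⟩⟩⟩,
    ⟨⟨⟨0, 0, 1⟩, ⟨0, 1, 0⟩, ⟨-1, 0, 0⟩⟩, ⟨⟨1, 1, 1⟩, ⟨-1, 1, -1⟩, ⟨-1, 1, 1⟩⟩⟩,
    ⟨⟨⟨0, 0, -1⟩, ⟨0, -1, 0⟩, ⟨-1, 0, 0⟩⟩, ⟨⟨1, 0, 2⟩, ⟨-1, 2, 0⟩, ⟨1, 1, 1⟩⟩⟩,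
    ⟨⟨⟨0, 0, -1⟩, ⟨0, 1, 0⟩, ⟨1, 0, 0⟩⟩, ⟨⟨1, -2, 0⟩, ⟨1, 1, -1⟩, ⟨1, 0, 2⟩⟩⟩,
    ⟨⟨⟨0, 0, 1⟩, ⟨0, -1, 0⟩, ⟨1, 0, 0⟩⟩, ⟨⟨1, -1, -1⟩, ⟨1, 2, 0⟩, ⟨-1, 0, 2⟩⟩⟩,
    ⟨⟨⟨-1, 0, 0⟩, ⟨0, -1, 0⟩, ⟨0, 0, -1⟩⟩, ⟨⟨-1, 1, 1⟩, ⟨1, -1, 1⟩, ⟨-1, -1, -1⟩⟩⟩,
    ⟨⟨⟨-1, 0, 0⟩, ⟨0, 1, 0⟩, ⟨0, 0, 1⟩⟩, ⟨⟨1, 1, 1⟩, ⟨1, -2, 0⟩, ⟨-1, 0, -2⟩⟩⟩,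
    ⟨⟨⟨1, 0, 0⟩, ⟨0, -1, 0⟩, ⟨0, 0, 1⟩⟩, ⟨⟨1, 0, 2⟩, ⟨-1, -1, 1⟩, ⟨-1, 2, 0⟩⟩⟩,
    ⟨⟨⟨1, 0, 0⟩, ⟨0, 1, 0⟩, ⟨0, 0, -1⟩⟩, ⟨⟨-1, 0, 2⟩, ⟨-1, -2, 0⟩, ⟨-1, 1, 1⟩⟩⟩],
   [(0, 0), (1, 0), (2, 0), (0, 1), (0, 2), (1, 1), (1, 2), (2, 1), (2, 2), (3, 1), (3, 2), (4, 0), (4, 1), (5, 0), (6, 0), (6, 1), (7, 0), (8, 0), (8, 1), (9, 0), (10, 0), (10, 1), (11, 0), (12, 1), (12, 2), (14, 1), (14, 2), (15, 1), (15, 2), (17, 1), (17, 2), (24, 0), (25, 0), (26, 0), (27, 0), (28, 0), (29, 0), (30, 0), (31, 0), (32, 1), (32,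 2), (33, 1), (33, 2), (36, 1), (36, 2), (37, 1), (37, 2)],
   [⟨⟨0, 0, 0⟩, ⟨0, 0, 0⟩, ⟨0, 0, 0⟩⟩,
    ⟨⟨-4, 0, 0⟩, ⟨0, 0, 0⟩, ⟨0, 0, 0⟩⟩,
    ⟨⟨0, 0, 0⟩, ⟨0, 0, 0⟩, ⟨4, 0, 0⟩⟩,
    ⟨⟨4, 0, 0⟩, ⟨0, 0, 0⟩, ⟨0, 0, 0⟩⟩,
    ⟨⟨0, 0, 0⟩, ⟨0, 0, 0⟩, ⟨-4, 0, 0⟩⟩,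
    ⟨⟨0, 0, 0⟩, ⟨0, 1, -1⟩, ⟨0, -1, 1⟩⟩,
    ⟨⟨2, -1, 1⟩, ⟨0, 2, 2⟩, ⟨-2, -1, 1⟩⟩,
    ⟨⟨0, 0, 0⟩, ⟨0, -1, 1⟩, ⟨0, -1, 1⟩⟩,
    ⟨⟨0, -1, 1⟩, ⟨0, -1, 1⟩, ⟨0, 0, 0⟩⟩,
    ⟨⟨-2, -1, 1⟩, ⟨0, -2, -2⟩, ⟨-2, 1, -1⟩⟩,
    ⟨⟨0, -1, 1⟩, ⟨0, 1, -1⟩, ⟨0, 0, 0⟩⟩,
    ⟨⟨0, 0, 0⟩, ⟨0, 1, -1⟩, ⟨0, 1, -1⟩⟩,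
    ⟨⟨-2, 1, -1⟩, ⟨-2, 0, 0⟩, ⟨0, -1, -3⟩⟩,
    ⟨⟨-2, 1, -1⟩, ⟨2, 0, 0⟩, ⟨0, -1, -3⟩⟩,
    ⟨⟨-2, 1, -1⟩, ⟨0, 2, 2⟩, ⟨2, 1, -1⟩⟩,
    ⟨⟨0, 0, 0⟩, ⟨0, -1, 1⟩, ⟨0, 1, -1⟩⟩,
    ⟨⟨2, 1, -1⟩, ⟨2, 0, 0⟩, ⟨0, 3, 1⟩⟩,
    ⟨⟨2, 1, -1⟩, ⟨-2, 0, 0⟩, ⟨0, 3, 1⟩⟩,
    ⟨⟨0, 1, -1⟩, ⟨0, -1, 1⟩, ⟨0, 0, 0⟩⟩,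
    ⟨⟨0, -1, -3⟩, ⟨2, 0, 0⟩, ⟨2, -1, 1⟩⟩,
    ⟨⟨0, -1, -3⟩, ⟨-2, 0, 0⟩, ⟨2, -1, 1⟩⟩,
    ⟨⟨2, 1, -1⟩, ⟨0, -2, -2⟩, ⟨2, -1, 1⟩⟩,
    ⟨⟨0, 1, -1⟩, ⟨0, 1, -1⟩, ⟨0, 0, 0⟩⟩,
    ⟨⟨0, 3, 1⟩, ⟨-2, 0, 0⟩, ⟨-2, -1, 1⟩⟩,
    ⟨⟨0, 3, 1⟩, ⟨2, 0, 0⟩, ⟨-2, -1, 1⟩⟩,
    ⟨⟨2, -1, 1⟩, ⟨-2, 0, 0⟩, ⟨0, 1, 3⟩⟩,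
    ⟨⟨2, -1, 1⟩, ⟨2, 0, 0⟩, ⟨0, 1, 3⟩⟩,
    ⟨⟨-2, -1, 1⟩, ⟨2, 0, 0⟩, ⟨0, -3, -1⟩⟩,
    ⟨⟨-2, -1, 1⟩, ⟨-2, 0, 0⟩, ⟨0, -3, -1⟩⟩,
    ⟨⟨0, 1, 3⟩, ⟨2, 0, 0⟩, ⟨-2, 1, -1⟩⟩,
    ⟨⟨0, 1, 3⟩, ⟨-2, 0, 0⟩, ⟨-2, 1, -1⟩⟩,
    ⟨⟨0, -3, -1⟩, ⟨-2, 0, 0⟩, ⟨2, 1, -1⟩⟩,
    ⟨⟨0, -3, -1⟩, ⟨2, 0, 0⟩, ⟨2, 1, -1⟩⟩,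
    ⟨⟨2, 0, 0⟩, ⟨-2, 1, -1⟩, ⟨0, 3, 1⟩⟩,
    ⟨⟨2, 0, 0⟩, ⟨2, 1, -1⟩, ⟨0, 1, 3⟩⟩,
    ⟨⟨-2, 0, 0⟩, ⟨2, -1, 1⟩, ⟨0, -3, -1⟩⟩,
    ⟨⟨-2, 2, 2⟩, ⟨0, -2, 2⟩, ⟨2, -2, -2⟩⟩,
    ⟨⟨-2, 2, 2⟩, ⟨0, -2, 2⟩, ⟨-2, -2, -2⟩⟩,
    ⟨⟨-2, 0, 0⟩, ⟨-2, -1, 1⟩, ⟨0, -1, -3⟩⟩,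
    ⟨⟨-2, -2, -2⟩, ⟨0, -2, 2⟩, ⟨-2, -2, -2⟩⟩,
    ⟨⟨-2, -2, -2⟩, ⟨0, -2, 2⟩, ⟨2, -2, -2⟩⟩,
    ⟨⟨0, 3, 1⟩, ⟨2, -1, 1⟩, ⟨-2, 0, 0⟩⟩,
    ⟨⟨0, 1, 3⟩, ⟨-2, -1, 1⟩, ⟨-2, 0, 0⟩⟩,
    ⟨⟨0, -3, -1⟩, ⟨-2, 1, -1⟩, ⟨2, 0, 0⟩⟩,
    ⟨⟨2, -2, -2⟩, ⟨0, 2, -2⟩, ⟨2, -2, -2⟩⟩,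
    ⟨⟨-2, -2, -2⟩, ⟨0, 2, -2⟩, ⟨2, -2, -2⟩⟩,
    ⟨⟨0, -1, -3⟩, ⟨2, 1, -1⟩, ⟨2, 0, 0⟩⟩,
    ⟨⟨-2, -2, -2⟩, ⟨0, 2, -2⟩, ⟨2, 2, 2⟩⟩,
    ⟨⟨2, -2, -2⟩, ⟨0, 2, -2⟩, ⟨2, 2, 2⟩⟩,
    ⟨⟨2, 0, 0⟩, ⟨-2, 2, -2⟩, ⟨0, 2, 2⟩⟩,
    ⟨⟨2, 2, 2⟩, ⟨0, 2, -2⟩, ⟨-2, 2, 2⟩⟩,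
    ⟨⟨2, 0, 0⟩, ⟨0, 4, 0⟩, ⟨2, 0, 0⟩⟩,
    ⟨⟨2, 2, 2⟩, ⟨0, 2, -2⟩, ⟨2, 2, 2⟩⟩,
    ⟨⟨0, -2, -2⟩, ⟨2, 2, -2⟩, ⟨2, -2, 2⟩⟩,
    ⟨⟨0, -2, -2⟩, ⟨0, 4, 0⟩, ⟨0, 0, 4⟩⟩,
    ⟨⟨2, -2, -2⟩, ⟨0, 2, -2⟩, ⟨-2, 2, 2⟩⟩,
    ⟨⟨-2, 3, 1⟩, ⟨0, -2, 2⟩, ⟨-2, -1, -3⟩⟩,
    ⟨⟨0, 1, -1⟩, ⟨2, -4, 0⟩, ⟨-2, -1, -3⟩⟩,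
    ⟨⟨2, 2, 2⟩, ⟨0, -2, 2⟩, ⟨-2, -2, -2⟩⟩,
    ⟨⟨0, -1, 1⟩, ⟨0, -2, 2⟩, ⟨0, 1, -1⟩⟩,
    ⟨⟨2, 2, 2⟩, ⟨0, -2, 2⟩, ⟨-2, 2, 2⟩⟩,
    ⟨⟨-2, 1, 3⟩, ⟨-2, -4, 0⟩, ⟨0, 1, -1⟩⟩,
    ⟨⟨-2, 2, 2⟩, ⟨0, -2, 2⟩, ⟨-2, 2, 2⟩⟩],
   [[(1, 0), (4, 0), (5, 0)],
    [(2, 0), (6, 0), (7, 0)],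
    [(3, 0), (8, 0), (9, 0)],
    [(0, 0), (10, 0), (11, 0)],
    [(12, 0), (13, 0), (0, 0)],
    [(14, 0), (0, 0), (13, 1)],
    [(15, 0), (16, 0), (1, 0)],
    [(17, 0), (1, 0), (16, 2)],
    [(18, 0), (19, 0), (2, 0)],
    [(20, 0), (2, 0), (19, 3)],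
    [(21, 0), (22, 0), (3, 0)],
    [(23, 0), (3, 0), (22, 4)],
    [(9, 5), (24, 0), (25, 0)],
    [(22, 6), (5, 3), (4, 0)],
    [(8, 7), (26, 0), (27, 0)],
    [(11, 8), (28, 0), (29, 0)],
    [(13, 9), (7, 4), (6, 0)],
    [(10, 10), (30, 0), (31, 0)],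
    [(5, 11), (25, 12), (24, 13)],
    [(16, 14), (9, 1), (8, 0)],
    [(4, 15), (27, 16), (26, 17)],
    [(7, 18), (29, 19), (28, 20)],
    [(19, 21), (11, 2), (10, 0)],
    [(6, 22), (31, 23), (30, 24)],
    [(32, 0), (18, 25), (12, 0)],
    [(33, 0), (12, 0), (18, 26)],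
    [(34, 0), (20, 27), (14, 0)],
    [(35, 0), (14, 0), (20, 28)],
    [(36, 0), (21, 29), (15, 0)],
    [(37, 0), (15, 0), (21, 30)],
    [(38, 0), (23, 31), (17, 0)],
    [(39, 0), (17, 0), (23, 32)],
    [(26, 33), (40, 0), (41, 0)],
    [(27, 34), (42, 0), (43, 0)],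
    [(24, 35), (43, 36), (42, 37)],
    [(25, 38), (41, 39), (40, 40)],
    [(30, 41), (44, 0), (45, 0)],
    [(31, 42), (46, 0), (47, 0)],
    [(28, 43), (47, 44), (46, 45)],
    [(29, 46), (45, 47), (44, 48)],
    [(44, 49), (35, 50), (32, 0)],
    [(47, 51), (32, 0), (35, 52)],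
    [(46, 53), (34, 48), (33, 0)],
    [(45, 54), (33, 0), (34, 55)],
    [(42, 56), (39, 37), (36, 0)],
    [(41, 57), (36, 0), (39, 58)],
    [(40, 59), (38, 60), (37, 0)],
    [(43, 61), (37, 0), (38, 62)]]⟩

def cubLat12 : List LatE :=
  [⟨⟨⟨1, 1, 0⟩, ⟨0, 1, 1⟩, ⟨0, 0, 2⟩⟩, 2, ⟨⟨0, 0, 0⟩, ⟨0, 0, 0⟩, ⟨0, 0, 0⟩⟩⟩,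
   ⟨⟨⟨1, 1, 0⟩, ⟨0, 1, 1⟩, ⟨0, 0, 2⟩⟩, 2, ⟨⟨0, 0, 0⟩, ⟨0, 0, 0⟩, ⟨0, 0, 0⟩⟩⟩,
   ⟨⟨⟨1, 0, 0⟩, ⟨0, 1, 0⟩, ⟨0, 0, 1⟩⟩, 1, ⟨⟨0, 0, 0⟩, ⟨0, 0, 0⟩, ⟨0, 0, 0⟩⟩⟩,
   ⟨⟨⟨1, 1, 1⟩, ⟨0, 2, 0⟩, ⟨0, 0, 2⟩⟩, 2, ⟨⟨0, 0, 0⟩, ⟨0, 0, 0⟩, ⟨0, 0, 0⟩⟩⟩]

def cubRow13 : Row :=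
  ⟨[⟨⟨0, 0, 1⟩, ⟨0, -1, 0⟩, ⟨1, 0, 0⟩⟩, ⟨⟨0, 0, -1⟩, ⟨0, -1, 0⟩, ⟨-1, 0, 0⟩⟩], ⟨⟨1, 0, 0⟩, ⟨0, 0, 1⟩, ⟨0, 1, 0⟩⟩, ⟨⟨1, 0, 0⟩, ⟨0, 0, 1⟩, ⟨0, 1, 0⟩⟩, 4,
   [⟨⟨⟨1, 0, 0⟩, ⟨0, 1, 0⟩, ⟨0, 0, 1⟩⟩, ⟨⟨0, 0, 0⟩, ⟨0, 0, 0⟩, ⟨0, 0, 0⟩⟩⟩,
    ⟨⟨⟨0, 0, 1⟩, ⟨0, -1, 0⟩, ⟨1, 0, 0⟩⟩, ⟨⟨0, 0, 0⟩, ⟨0, 0, 0⟩, ⟨0, 0, 0⟩⟩⟩,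
    ⟨⟨⟨0, 0, -1⟩, ⟨0, -1, 0⟩, ⟨-1, 0, 0⟩⟩, ⟨⟨0, 0, 0⟩, ⟨0, 0, 0⟩, ⟨0, 0, 0⟩⟩⟩,
    ⟨⟨⟨-1, 0, 0⟩, ⟨0, 1, 0⟩, ⟨0, 0, -1⟩⟩, ⟨⟨0, 0, 0⟩, ⟨0, 0, 0⟩, ⟨0, 0, 0⟩⟩⟩,
    ⟨⟨⟨1, 0, 0⟩, ⟨0, 0, 1⟩, ⟨0, 1, 0⟩⟩, ⟨⟨1, 0, 0⟩, ⟨0, 1, 0⟩, ⟨0, 0, 1⟩⟩⟩,
    ⟨⟨⟨0, 1, 0⟩, ⟨0, 0, -1⟩, ⟨1, 0, 0⟩⟩, ⟨⟨0, 0, 1⟩, ⟨0, -1, 0⟩, ⟨1, 0, 0⟩⟩⟩,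
    ⟨⟨⟨0, -1, 0⟩, ⟨0, 0, -1⟩, ⟨-1, 0, 0⟩⟩, ⟨⟨0, 0, -1⟩, ⟨0, -1, 0⟩, ⟨-1, 0, 0⟩⟩⟩,
    ⟨⟨⟨-1, 0, 0⟩, ⟨0, 0, 1⟩, ⟨0, -1, 0⟩⟩, ⟨⟨-1, 0, 0⟩, ⟨0, 1, 0⟩, ⟨0, 0, -1⟩⟩⟩,
    ⟨⟨⟨0, 0, 1⟩, ⟨1, 0, 0⟩, ⟨0, -1, 0⟩⟩, ⟨⟨1, 0, 0⟩, ⟨0, 1, 0⟩, ⟨0, 0, 1⟩⟩⟩,
    ⟨⟨⟨0, 0, -1⟩, ⟨-1, 0, 0⟩, ⟨0, -1, 0⟩⟩, ⟨⟨1, 0, 0⟩, ⟨0, 1, 0⟩, ⟨0, 0, 1⟩⟩⟩,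
    ⟨⟨⟨0, -1, 0⟩, ⟨-1, 0, 0⟩, ⟨0, 0, 1⟩⟩, ⟨⟨0, 0, 1⟩, ⟨0, -1, 0⟩, ⟨1, 0, 0⟩⟩⟩,
    ⟨⟨⟨0, -1, 0⟩, ⟨1, 0, 0⟩, ⟨0, 0, -1⟩⟩, ⟨⟨0, 0, 1⟩, ⟨0, -1, 0⟩, ⟨1, 0, 0⟩⟩⟩,
    ⟨⟨⟨0, 1, 0⟩, ⟨-1, 0, 0⟩, ⟨0, 0, -1⟩⟩, ⟨⟨0, 0, -1⟩, ⟨0, -1, 0⟩, ⟨-1, 0, 0⟩⟩⟩,
    ⟨⟨⟨0, 1, 0⟩, ⟨1, 0, 0⟩, ⟨0, 0, 1⟩⟩, ⟨⟨0, 0, -1⟩, ⟨0, -1, 0⟩, ⟨-1, 0, 0⟩⟩⟩,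
    ⟨⟨⟨0, 0, -1⟩, ⟨1, 0, 0⟩, ⟨0, 1, 0⟩⟩, ⟨⟨-1, 0, 0⟩, ⟨0, 1, 0⟩, ⟨0, 0, -1⟩⟩⟩,
    ⟨⟨⟨0, 0, 1⟩, ⟨-1, 0, 0⟩, ⟨0, 1, 0⟩⟩, ⟨⟨-1, 0, 0⟩, ⟨0, 1, 0⟩, ⟨0, 0, -1⟩⟩⟩,
    ⟨⟨⟨-1, 0, 0⟩, ⟨0, 0, -1⟩, ⟨0, 1, 0⟩⟩, ⟨⟨1, 0, 0⟩, ⟨0, 1, 0⟩, ⟨0, 0, 1⟩⟩⟩,
    ⟨⟨⟨0, 1, 0⟩, ⟨1, 0, 0⟩, ⟨0, 0, -1⟩⟩, ⟨⟨1, 0, 1⟩, ⟨1, 1, 0⟩, ⟨0, -1, 1⟩⟩⟩,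
    ⟨⟨⟨0, -1, 0⟩, ⟨-1, 0, 0⟩, ⟨0, 0, -1⟩⟩, ⟨⟨1, 0, -1⟩, ⟨-1, 1, 0⟩, ⟨0, -1, 1⟩⟩⟩,
    ⟨⟨⟨0, 1, 0⟩, ⟨0, 0, 1⟩, ⟨-1, 0, 0⟩⟩, ⟨⟨0, 0, 1⟩, ⟨0, -1, 0⟩, ⟨1, 0, 0⟩⟩⟩,
    ⟨⟨⟨0, 0, -1⟩, ⟨-1, 0, 0⟩, ⟨0, 1, 0⟩⟩, ⟨⟨0, -1, 1⟩, ⟨-1, -1, 0⟩, ⟨1, 0, 1⟩⟩⟩,
    ⟨⟨⟨0, 0, -1⟩, ⟨1, 0, 0⟩, ⟨0, -1, 0⟩⟩, ⟨⟨0, -1, 1⟩, ⟨1, -1, 0⟩, ⟨1, 0, -1⟩⟩⟩,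
    ⟨⟨⟨0, -1, 0⟩, ⟨0, 0, 1⟩, ⟨1, 0, 0⟩⟩, ⟨⟨0, 0, -1⟩, ⟨0, -1, 0⟩, ⟨-1, 0, 0⟩⟩⟩,
    ⟨⟨⟨0, 0, 1⟩, ⟨-1, 0, 0⟩, ⟨0, -1, 0⟩⟩, ⟨⟨0, 1, -1⟩, ⟨-1, -1, 0⟩, ⟨-1, 0, -1⟩⟩⟩,
    ⟨⟨⟨0, 0, 1⟩, ⟨1, 0, 0⟩, ⟨0, 1, 0⟩⟩, ⟨⟨0, 1, -1⟩, ⟨1, -1, 0⟩, ⟨-1, 0, 1⟩⟩⟩,
    ⟨⟨⟨1, 0, 0⟩, ⟨0, 0, -1⟩, ⟨0, -1, 0⟩⟩, ⟨⟨-1, 0, 0⟩, ⟨0, 1, 0⟩, ⟨0, 0, -1⟩⟩⟩,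
    ⟨⟨⟨0, -1, 0⟩, ⟨1, 0, 0⟩, ⟨0, 0, 1⟩⟩, ⟨⟨-1, 0, -1⟩, ⟨1, 1, 0⟩, ⟨0, 1, -1⟩⟩⟩,
    ⟨⟨⟨0, 1, 0⟩, ⟨-1, 0, 0⟩, ⟨0, 0, 1⟩⟩, ⟨⟨-1, 0, 1⟩, ⟨-1, 1, 0⟩, ⟨0, 1, -1⟩⟩⟩,
    ⟨⟨⟨-1, 0, 0⟩, ⟨0, -1, 0⟩, ⟨0, 0, 1⟩⟩, ⟨⟨0, 0, 0⟩, ⟨0, 1, -1⟩, ⟨0, 1, 1⟩⟩⟩,
    ⟨⟨⟨0, -1, 0⟩, ⟨0, 0, 1⟩, ⟨-1, 0, 0⟩⟩, ⟨⟨1, 0, 1⟩, ⟨1, 1, 0⟩, ⟨0, -1, 1⟩⟩⟩,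
    ⟨⟨⟨0, -1, 0⟩, ⟨0, 0, -1⟩, ⟨1, 0, 0⟩⟩, ⟨⟨1, 0, 1⟩, ⟨1, 1, 0⟩, ⟨0, -1, 1⟩⟩⟩,
    ⟨⟨⟨0, 1, 0⟩, ⟨0, 0, -1⟩, ⟨-1, 0, 0⟩⟩, ⟨⟨1, 0, -1⟩, ⟨-1, 1, 0⟩, ⟨0, -1, 1⟩⟩⟩,
    ⟨⟨⟨0, 1, 0⟩, ⟨0, 0, 1⟩, ⟨1, 0, 0⟩⟩, ⟨⟨1, 0, -1⟩, ⟨-1, 1, 0⟩, ⟨0, -1, 1⟩⟩⟩,
    ⟨⟨⟨0, 0, 1⟩, ⟨0, 1, 0⟩, ⟨-1, 0, 0⟩⟩, ⟨⟨0, 1, 1⟩, ⟨0, -1, 1⟩, ⟨0, 0, 0⟩⟩⟩,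
    ⟨⟨⟨-1, 0, 0⟩, ⟨0, 0, -1⟩, ⟨0, -1, 0⟩⟩, ⟨⟨0, -1, 1⟩, ⟨-1, -1, 0⟩, ⟨1, 0, 1⟩⟩⟩,
    ⟨⟨⟨1, 0, 0⟩, ⟨0, 0, 1⟩, ⟨0, -1, 0⟩⟩, ⟨⟨0, -1, 1⟩, ⟨-1, -1, 0⟩, ⟨1, 0, 1⟩⟩⟩,
    ⟨⟨⟨-1, 0, 0⟩, ⟨0, 0, 1⟩, ⟨0, 1, 0⟩⟩, ⟨⟨0, -1, 1⟩, ⟨1, -1, 0⟩, ⟨1, 0, -1⟩⟩⟩,
    ⟨⟨⟨1, 0, 0⟩, ⟨0, 0, -1⟩, ⟨0, 1, 0⟩⟩, ⟨⟨0, -1, 1⟩, ⟨1, -1, 0⟩, ⟨1, 0, -1⟩⟩⟩,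
    ⟨⟨⟨0, 0, -1⟩, ⟨0, 1, 0⟩, ⟨1, 0, 0⟩⟩, ⟨⟨0, -1, -1⟩, ⟨0, -1, 1⟩, ⟨0, 0, 0⟩⟩⟩,
    ⟨⟨⟨1, 0, 0⟩, ⟨0, -1, 0⟩, ⟨0, 0, -1⟩⟩, ⟨⟨0, 0, 0⟩, ⟨0, 1, -1⟩, ⟨0, -1, -1⟩⟩⟩,
    ⟨⟨⟨0, 0, -1⟩, ⟨0, 1, 0⟩, ⟨-1, 0, 0⟩⟩, ⟨⟨1, -1, 1⟩, ⟨1, 1, 1⟩, ⟨-1, -1, 1⟩⟩⟩,
    ⟨⟨⟨0, 0, -1⟩, ⟨0, -1, 0⟩, ⟨1, 0, 0⟩⟩, ⟨⟨1, -1, 1⟩, ⟨1, 1, -1⟩, ⟨1, -1, 1⟩⟩⟩,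
    ⟨⟨⟨0, 0, 1⟩, ⟨0, -1, 0⟩, ⟨-1, 0, 0⟩⟩, ⟨⟨1, 1, -1⟩, ⟨-1, 1, -1⟩, ⟨-1, -1, 1⟩⟩⟩,
    ⟨⟨⟨0, 0, 1⟩, ⟨0, 1, 0⟩, ⟨1, 0, 0⟩⟩, ⟨⟨1, 1, -1⟩, ⟨-1, 1, 1⟩, ⟨1, -1, 1⟩⟩⟩,
    ⟨⟨⟨-1, 0, 0⟩, ⟨0, -1, 0⟩, ⟨0, 0, -1⟩⟩, ⟨⟨-1, -1, 1⟩, ⟨-1, -1, -1⟩, ⟨1, -1, 1⟩⟩⟩,
    ⟨⟨⟨1, 0, 0⟩, ⟨0, 1, 0⟩, ⟨0, 0, -1⟩⟩, ⟨⟨1, -1, 1⟩, ⟨-1, -1, 1⟩, ⟨1, -1, 1⟩⟩⟩,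
    ⟨⟨⟨-1, 0, 0⟩, ⟨0, 1, 0⟩, ⟨0, 0, 1⟩⟩, ⟨⟨-1, -1, 1⟩, ⟨1, -1, 1⟩, ⟨1, 1, -1⟩⟩⟩,
    ⟨⟨⟨1, 0, 0⟩, ⟨0, -1, 0⟩, ⟨0, 0, 1⟩⟩, ⟨⟨1, -1, 1⟩, ⟨1, -1, -1⟩, ⟨1, 1, -1⟩⟩⟩],
   [(0, 0), (0, 1), (1, 1), (0, 2), (1, 2), (2, 2), (3, 2), (4, 0), (4, 1), (5, 0), (5, 1), (6, 0), (6, 1), (7, 0), (7, 1), (8, 1), (8, 2), (9, 2), (10, 1), (10, 2), (11, 2), (12, 1), (12, 2), (13, 2), (14, 1), (14, 2), (15, 2), (16, 2), (17, 0), (17, 1), (18, 0), (18, 1), (19, 2), (20, 0), (20, 1), (21, 0), (21, 1), (22, 2), (25, 2), (29, 2),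 (30, 2), (31, 2), (32, 2), (34, 2), (35, 2), (36, 2), (37, 2)],
   [⟨⟨0, 0, 0⟩, ⟨0, 0, 0⟩, ⟨0, 0, 0⟩⟩,
    ⟨⟨-2, 0, 0⟩, ⟨0, -1, -1⟩, ⟨0, -1, -1⟩⟩,
    ⟨⟨0, -1, -1⟩, ⟨0, 1, 1⟩, ⟨-2, 0, 0⟩⟩,
    ⟨⟨0, 1, 1⟩, ⟨0, 1, 1⟩, ⟨2, 0, 0⟩⟩,
    ⟨⟨2, 0, 0⟩, ⟨0, -1, -1⟩, ⟨0, 1, 1⟩⟩,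
    ⟨⟨2, 0, 0⟩, ⟨0, 1, 1⟩, ⟨0, 1, 1⟩⟩,
    ⟨⟨0, 1, 1⟩, ⟨0, -1, -1⟩, ⟨2, 0, 0⟩⟩,
    ⟨⟨0, -1, -1⟩, ⟨0, -1, -1⟩, ⟨-2, 0, 0⟩⟩,
    ⟨⟨-2, 0, 0⟩, ⟨0, 1, 1⟩, ⟨0, -1, -1⟩⟩,
    ⟨⟨0, -1, -1⟩, ⟨-2, 0, 0⟩, ⟨0, 1, 1⟩⟩,
    ⟨⟨0, 1, 1⟩, ⟨2, 0, 0⟩, ⟨0, 1, 1⟩⟩,
    ⟨⟨0, 1, 1⟩, ⟨2, 0, 0⟩, ⟨0, -1, -1⟩⟩,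
    ⟨⟨0, 1, 1⟩, ⟨-2, 0, 0⟩, ⟨0, 1, 1⟩⟩,
    ⟨⟨0, -1, -1⟩, ⟨2, 0, 0⟩, ⟨0, 1, 1⟩⟩,
    ⟨⟨0, -1, -1⟩, ⟨-2, 0, 0⟩, ⟨0, -1, -1⟩⟩,
    ⟨⟨0, 1, 1⟩, ⟨-2, 0, 0⟩, ⟨0, -1, -1⟩⟩,
    ⟨⟨0, -1, -1⟩, ⟨2, 0, 0⟩, ⟨0, -1, -1⟩⟩,
    ⟨⟨2, 0, 0⟩, ⟨0, 1, 1⟩, ⟨0, -1, -1⟩⟩,
    ⟨⟨0, -1, -1⟩, ⟨0, -1, -1⟩, ⟨2, 0, 0⟩⟩,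
    ⟨⟨0, 1, 1⟩, ⟨0, -1, -1⟩, ⟨-2, 0, 0⟩⟩,
    ⟨⟨0, 2, -2⟩, ⟨-2, 0, 0⟩, ⟨-2, 0, 0⟩⟩,
    ⟨⟨0, 2, -2⟩, ⟨2, 0, 0⟩, ⟨-2, 0, 0⟩⟩,
    ⟨⟨-2, 0, 0⟩, ⟨0, 1, 1⟩, ⟨0, 1, 1⟩⟩,
    ⟨⟨-2, 0, 0⟩, ⟨2, 0, 0⟩, ⟨0, 2, -2⟩⟩,
    ⟨⟨-2, 0, 0⟩, ⟨-2, 0, 0⟩, ⟨0, 2, -2⟩⟩,
    ⟨⟨0, 1, 1⟩, ⟨0, 2, -2⟩, ⟨0, 1, 1⟩⟩,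
    ⟨⟨0, -1, -1⟩, ⟨0, 2, -2⟩, ⟨0, 1, 1⟩⟩,
    ⟨⟨-2, 0, 0⟩, ⟨0, -1, -1⟩, ⟨0, 1, 1⟩⟩,
    ⟨⟨2, 0, 0⟩, ⟨2, 0, 0⟩, ⟨0, -2, 2⟩⟩,
    ⟨⟨0, 1, 1⟩, ⟨0, 1, 1⟩, ⟨-2, 0, 0⟩⟩,
    ⟨⟨2, 0, 0⟩, ⟨-2, 0, 0⟩, ⟨0, -2, 2⟩⟩,
    ⟨⟨0, -1, -1⟩, ⟨0, 1, 1⟩, ⟨2, 0, 0⟩⟩,
    ⟨⟨0, 1, 1⟩, ⟨0, -2, 2⟩, ⟨0, 1, 1⟩⟩,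
    ⟨⟨0, 1, 1⟩, ⟨0, -2, 2⟩, ⟨0, -1, -1⟩⟩,
    ⟨⟨0, -2, 2⟩, ⟨-2, 0, 0⟩, ⟨2, 0, 0⟩⟩,
    ⟨⟨0, -2, 2⟩, ⟨2, 0, 0⟩, ⟨2, 0, 0⟩⟩,
    ⟨⟨2, 0, 0⟩, ⟨0, -1, -1⟩, ⟨0, -1, -1⟩⟩,
    ⟨⟨0, -1, -1⟩, ⟨0, -2, 2⟩, ⟨0, -1, -1⟩⟩,
    ⟨⟨0, -1, -1⟩, ⟨0, -2, 2⟩, ⟨0, 1, 1⟩⟩,
    ⟨⟨0, -1, -1⟩, ⟨0, 2, -2⟩, ⟨0, -1, -1⟩⟩,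
    ⟨⟨0, 1, 1⟩, ⟨0, 2, -2⟩, ⟨0, -1, -1⟩⟩,
    ⟨⟨2, 0, 0⟩, ⟨2, 2, 2⟩, ⟨-2, 0, 0⟩⟩,
    ⟨⟨0, 0, 0⟩, ⟨0, 2, 2⟩, ⟨-2, -2, 2⟩⟩,
    ⟨⟨2, 0, 0⟩, ⟨0, 2, -2⟩, ⟨0, -2, 2⟩⟩,
    ⟨⟨0, 0, 0⟩, ⟨2, 2, -2⟩, ⟨0, 0, 0⟩⟩,
    ⟨⟨0, 2, -2⟩, ⟨0, 2, -2⟩, ⟨-2, 0, 0⟩⟩,
    ⟨⟨2, 2, -2⟩, ⟨-2, 2, -2⟩, ⟨-2, -2, 2⟩⟩,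
    ⟨⟨0, 2, -2⟩, ⟨-2, 2, 2⟩, ⟨0, -2, 2⟩⟩,
    ⟨⟨2, 2, -2⟩, ⟨0, 2, 2⟩, ⟨0, 0, 0⟩⟩,
    ⟨⟨-2, 0, 0⟩, ⟨-2, -2, -2⟩, ⟨2, 0, 0⟩⟩,
    ⟨⟨-2, -2, 2⟩, ⟨0, -2, -2⟩, ⟨0, 0, 0⟩⟩,
    ⟨⟨0, -2, 2⟩, ⟨0, -2, 2⟩, ⟨2, 0, 0⟩⟩,
    ⟨⟨0, 0, 0⟩, ⟨-2, -2, 2⟩, ⟨0, 0, 0⟩⟩,
    ⟨⟨-2, 0, 0⟩, ⟨0, -2, 2⟩, ⟨0, 2, -2⟩⟩,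
    ⟨⟨-2, -2, 2⟩, ⟨2, -2, 2⟩, ⟨2, 2, -2⟩⟩,
    ⟨⟨0, -2, 2⟩, ⟨2, -2, -2⟩, ⟨0, 2, -2⟩⟩,
    ⟨⟨0, 0, 0⟩, ⟨0, -2, -2⟩, ⟨2, 2, -2⟩⟩],
   [[(1, 0), (2, 0), (4, 0), (4, 1)],
    [(0, 0), (3, 0), (5, 0), (5, 2)],
    [(3, 0), (0, 0), (6, 0), (6, 3)],
    [(2, 0), (1, 0), (7, 0), (7, 4)],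
    [(8, 0), (9, 0), (0, 5), (0, 0)],
    [(10, 0), (11, 0), (1, 6), (1, 0)],
    [(12, 0), (13, 0), (2, 7), (2, 0)],
    [(14, 0), (15, 0), (3, 8), (3, 0)],
    [(4, 0), (16, 0), (17, 0), (17, 9)],
    [(16, 0), (4, 0), (18, 0), (18, 10)],
    [(5, 0), (19, 0), (20, 0), (20, 11)],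
    [(19, 0), (5, 0), (21, 0), (21, 12)],
    [(6, 0), (22, 0), (23, 0), (23, 13)],
    [(22, 0), (6, 0), (24, 0), (24, 14)],
    [(7, 0), (25, 0), (26, 0), (26, 15)],
    [(25, 0), (7, 0), (27, 0), (27, 16)],
    [(9, 0), (8, 0), (28, 0), (28, 17)],
    [(29, 0), (30, 0), (8, 11), (8, 0)],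
    [(31, 0), (32, 0), (9, 14), (9, 0)],
    [(11, 0), (10, 0), (33, 0), (33, 18)],
    [(34, 0), (35, 0), (10, 9), (10, 0)],
    [(36, 0), (37, 0), (11, 16), (11, 0)],
    [(13, 0), (12, 0), (38, 0), (38, 19)],
    [(37, 20), (36, 20), (12, 15), (12, 0)],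
    [(35, 21), (34, 21), (13, 10), (13, 0)],
    [(15, 0), (14, 0), (39, 0), (39, 22)],
    [(32, 23), (31, 23), (14, 13), (14, 0)],
    [(30, 24), (29, 24), (15, 12), (15, 0)],
    [(38, 25), (33, 26), (16, 27), (16, 0)],
    [(17, 0), (27, 28), (40, 0), (40, 6)],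
    [(27, 28), (17, 0), (41, 0), (41, 29)],
    [(18, 0), (26, 30), (42, 0), (42, 31)],
    [(26, 30), (18, 0), (43, 0), (43, 7)],
    [(39, 32), (28, 33), (19, 29), (19, 0)],
    [(20, 0), (24, 34), (44, 0), (44, 5)],
    [(24, 34), (20, 0), (45, 0), (45, 27)],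
    [(21, 0), (23, 35), (46, 0), (46, 36)],
    [(23, 35), (21, 0), (47, 0), (47, 8)],
    [(28, 37), (39, 38), (22, 31), (22, 0)],
    [(33, 39), (38, 40), (25, 36), (25, 0)],
    [(44, 41), (47, 42), (29, 2), (29, 0)],
    [(46, 43), (45, 44), (30, 18), (30, 0)],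
    [(45, 45), (46, 46), (31, 19), (31, 0)],
    [(47, 47), (44, 48), (32, 3), (32, 0)],
    [(40, 49), (43, 50), (34, 1), (34, 0)],
    [(42, 51), (41, 52), (35, 17), (35, 0)],
    [(41, 53), (42, 54), (36, 22), (36, 0)],
    [(43, 55), (40, 56), (37, 4), (37, 0)]]⟩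

def cubLat13 : List LatE :=
  [⟨⟨⟨1, 1, 0⟩, ⟨0, 1, 1⟩, ⟨0, 0, 2⟩⟩, 2, ⟨⟨0, 0, 0⟩, ⟨0, 0, 0⟩, ⟨0, 0, 0⟩⟩⟩,
   ⟨⟨⟨1, 1, 0⟩, ⟨0, 1, 1⟩, ⟨0, 0, 2⟩⟩, 2, ⟨⟨0, 0, 0⟩, ⟨0, 0, 0⟩, ⟨0, 0, 0⟩⟩⟩,
   ⟨⟨⟨1, 0, 0⟩, ⟨0, 1, 0⟩, ⟨0, 0, 1⟩⟩, 1, ⟨⟨0, 0, 0⟩, ⟨0, 0, 0⟩, ⟨0, 0, 0⟩⟩⟩]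

def cubRow14 : Row :=
  ⟨[⟨⟨0, 0, 1⟩, ⟨0, -1, 0⟩, ⟨1, 0, 0⟩⟩, ⟨⟨0, 0, -1⟩, ⟨0, -1, 0⟩, ⟨-1, 0, 0⟩⟩], ⟨⟨1, 0, 0⟩, ⟨0, 0, 1⟩, ⟨0, -1, 0⟩⟩, ⟨⟨1, 0, 0⟩, ⟨0, 0, -1⟩, ⟨0, 1, 0⟩⟩, 4,
   [⟨⟨⟨1, 0, 0⟩, ⟨0, 1, 0⟩, ⟨0, 0, 1⟩⟩, ⟨⟨0, 0, 0⟩, ⟨0, 0, 0⟩, ⟨0, 0, 0⟩⟩⟩,
    ⟨⟨⟨0, 0, 1⟩, ⟨0, -1, 0⟩, ⟨1, 0, 0⟩⟩, ⟨⟨0, 0, 0⟩, ⟨0, 0, 0⟩, ⟨0, 0, 0⟩⟩⟩,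
    ⟨⟨⟨0, 0, -1⟩, ⟨0, -1, 0⟩, ⟨-1, 0, 0⟩⟩, ⟨⟨0, 0, 0⟩, ⟨0, 0, 0⟩, ⟨0, 0, 0⟩⟩⟩,
    ⟨⟨⟨-1, 0, 0⟩, ⟨0, 1, 0⟩, ⟨0, 0, -1⟩⟩, ⟨⟨0, 0, 0⟩, ⟨0, 0, 0⟩, ⟨0, 0, 0⟩⟩⟩,
    ⟨⟨⟨1, 0, 0⟩, ⟨0, 0, 1⟩, ⟨0, -1, 0⟩⟩, ⟨⟨1, 0, 0⟩, ⟨0, 1, 0⟩, ⟨0, 0, 1⟩⟩⟩,
    ⟨⟨⟨1, 0, 0⟩, ⟨0, 0, -1⟩, ⟨0, 1, 0⟩⟩, ⟨⟨-1, 0, 0⟩, ⟨0, 0, 1⟩, ⟨0, -1, 0⟩⟩⟩,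
    ⟨⟨⟨0, -1, 0⟩, ⟨0, 0, -1⟩, ⟨1, 0, 0⟩⟩, ⟨⟨0, 0, 1⟩, ⟨0, -1, 0⟩, ⟨1, 0, 0⟩⟩⟩,
    ⟨⟨⟨0, 1, 0⟩, ⟨0, 0, 1⟩, ⟨1, 0, 0⟩⟩, ⟨⟨0, -1, 0⟩, ⟨0, 0, -1⟩, ⟨-1, 0, 0⟩⟩⟩,
    ⟨⟨⟨0, 1, 0⟩, ⟨0, 0, -1⟩, ⟨-1, 0, 0⟩⟩, ⟨⟨0, 0, -1⟩, ⟨0, -1, 0⟩, ⟨-1, 0, 0⟩⟩⟩,
    ⟨⟨⟨0, -1, 0⟩, ⟨0, 0, 1⟩, ⟨-1, 0, 0⟩⟩, ⟨⟨0, 1, 0⟩, ⟨0, 0, -1⟩, ⟨1, 0, 0⟩⟩⟩,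
    ⟨⟨⟨-1, 0, 0⟩, ⟨0, 0, 1⟩, ⟨0, 1, 0⟩⟩, ⟨⟨-1, 0, 0⟩, ⟨0, 1, 0⟩, ⟨0, 0, -1⟩⟩⟩,
    ⟨⟨⟨-1, 0, 0⟩, ⟨0, 0, -1⟩, ⟨0, -1, 0⟩⟩, ⟨⟨1, 0, 0⟩, ⟨0, 0, 1⟩, ⟨0, 1, 0⟩⟩⟩,
    ⟨⟨⟨0, 0, 1⟩, ⟨1, 0, 0⟩, ⟨0, 1, 0⟩⟩, ⟨⟨1, 0, 0⟩, ⟨0, 1, 0⟩, ⟨0, 0, 1⟩⟩⟩,
    ⟨⟨⟨0, 0, -1⟩, ⟨-1, 0, 0⟩, ⟨0, 1, 0⟩⟩, ⟨⟨1, 0, 0⟩, ⟨0, 1, 0⟩, ⟨0, 0, 1⟩⟩⟩,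
    ⟨⟨⟨1, 0, 0⟩, ⟨0, -1, 0⟩, ⟨0, 0, -1⟩⟩, ⟨⟨2, 0, 0⟩, ⟨0, 1, 1⟩, ⟨0, -1, 1⟩⟩⟩,
    ⟨⟨⟨0, 0, 1⟩, ⟨-1, 0, 0⟩, ⟨0, -1, 0⟩⟩, ⟨⟨-1, 0, 0⟩, ⟨0, 0, 1⟩, ⟨0, -1, 0⟩⟩⟩,
    ⟨⟨⟨0, 0, -1⟩, ⟨1, 0, 0⟩, ⟨0, -1, 0⟩⟩, ⟨⟨-1, 0, 0⟩, ⟨0, 0, 1⟩, ⟨0, -1, 0⟩⟩⟩,
    ⟨⟨⟨0, 1, 0⟩, ⟨-1, 0, 0⟩, ⟨0, 0, 1⟩⟩, ⟨⟨0, 0, 1⟩, ⟨0, -1, 0⟩, ⟨1, 0, 0⟩⟩⟩,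
    ⟨⟨⟨0, 1, 0⟩, ⟨1, 0, 0⟩, ⟨0, 0, -1⟩⟩, ⟨⟨0, 0, 1⟩, ⟨0, -1, 0⟩, ⟨1, 0, 0⟩⟩⟩,
    ⟨⟨⟨0, 0, -1⟩, ⟨0, 1, 0⟩, ⟨1, 0, 0⟩⟩, ⟨⟨0, -1, 1⟩, ⟨0, -1, -1⟩, ⟨2, 0, 0⟩⟩⟩,
    ⟨⟨⟨0, -1, 0⟩, ⟨1, 0, 0⟩, ⟨0, 0, 1⟩⟩, ⟨⟨0, -1, 0⟩, ⟨0, 0, -1⟩, ⟨-1, 0, 0⟩⟩⟩,
    ⟨⟨⟨0, -1, 0⟩, ⟨-1, 0, 0⟩, ⟨0, 0, -1⟩⟩, ⟨⟨0, -1, 0⟩, ⟨0, 0, -1⟩, ⟨-1, 0, 0⟩⟩⟩,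
    ⟨⟨⟨0, 0, 1⟩, ⟨0, 1, 0⟩, ⟨-1, 0, 0⟩⟩, ⟨⟨0, 1, -1⟩, ⟨0, -1, -1⟩, ⟨-2, 0, 0⟩⟩⟩,
    ⟨⟨⟨-1, 0, 0⟩, ⟨0, -1, 0⟩, ⟨0, 0, 1⟩⟩, ⟨⟨-2, 0, 0⟩, ⟨0, 1, 1⟩, ⟨0, 1, -1⟩⟩⟩],
   [(0, 0), (0, 1), (1, 1), (0, 2), (0, 3), (1, 2), (1, 3), (2, 2), (2, 3), (3, 2), (3, 3), (4, 0), (4, 1), (4, 2), (5, 0), (5, 1), (6, 0), (6, 1), (6, 2), (7, 0), (7, 1), (8, 2), (10, 2)],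
   [⟨⟨0, 0, 0⟩, ⟨0, 0, 0⟩, ⟨0, 0, 0⟩⟩,
    ⟨⟨-4, 0, 0⟩, ⟨0, 0, 0⟩, ⟨0, 0, 0⟩⟩,
    ⟨⟨0, 0, 0⟩, ⟨0, 0, 0⟩, ⟨-4, 0, 0⟩⟩,
    ⟨⟨0, 1, -1⟩, ⟨0, -1, 1⟩, ⟨0, 0, 0⟩⟩,
    ⟨⟨0, 1, -1⟩, ⟨0, 1, -1⟩, ⟨0, 0, 0⟩⟩,
    ⟨⟨0, 0, 0⟩, ⟨0, 0, 0⟩, ⟨4, 0, 0⟩⟩,
    ⟨⟨0, 0, 0⟩, ⟨0, 1, -1⟩, ⟨0, 1, -1⟩⟩,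
    ⟨⟨0, 0, 0⟩, ⟨0, -1, 1⟩, ⟨0, 1, -1⟩⟩,
    ⟨⟨4, 0, 0⟩, ⟨0, 0, 0⟩, ⟨0, 0, 0⟩⟩,
    ⟨⟨0, 0, 0⟩, ⟨0, 1, -1⟩, ⟨0, -1, 1⟩⟩,
    ⟨⟨1, 1, 1⟩, ⟨1, 1, 1⟩, ⟨1, 1, 1⟩⟩,
    ⟨⟨1, -1, -1⟩, ⟨-1, 2, 0⟩, ⟨-1, 0, 2⟩⟩,
    ⟨⟨1, 0, -2⟩, ⟨-1, 2, 0⟩, ⟨-1, 1, 1⟩⟩,
    ⟨⟨1, 2, 0⟩, ⟨1, 1, 1⟩, ⟨1, 0, 2⟩⟩,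
    ⟨⟨2, -1, 1⟩, ⟨0, 2, 2⟩, ⟨2, -1, 1⟩⟩,
    ⟨⟨2, 1, -1⟩, ⟨0, 2, 2⟩, ⟨-2, -1, 1⟩⟩,
    ⟨⟨0, 0, 0⟩, ⟨0, -1, 1⟩, ⟨0, -1, 1⟩⟩,
    ⟨⟨-1, 1, 1⟩, ⟨-1, 0, 2⟩, ⟨1, -2, 0⟩⟩,
    ⟨⟨-1, -1, -1⟩, ⟨1, 1, 1⟩, ⟨-1, -1, -1⟩⟩,
    ⟨⟨-1, 0, -2⟩, ⟨1, 1, 1⟩, ⟨-1, -2, 0⟩⟩,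
    ⟨⟨-1, 2, 0⟩, ⟨-1, 0, 2⟩, ⟨1, -1, -1⟩⟩,
    ⟨⟨0, -1, 1⟩, ⟨0, -1, 1⟩, ⟨0, 0, 0⟩⟩,
    ⟨⟨1, 1, 1⟩, ⟨-1, -1, -1⟩, ⟨1, 1, 1⟩⟩,
    ⟨⟨-1, 0, 2⟩, ⟨1, -2, 0⟩, ⟨1, -1, -1⟩⟩,
    ⟨⟨-1, 1, 1⟩, ⟨1, -2, 0⟩, ⟨1, 0, -2⟩⟩,
    ⟨⟨1, 0, 2⟩, ⟨-1, -1, -1⟩, ⟨1, 2, 0⟩⟩,
    ⟨⟨2, -1, 1⟩, ⟨0, -2, -2⟩, ⟨2, -1, 1⟩⟩,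
    ⟨⟨-2, -1, 1⟩, ⟨0, -2, -2⟩, ⟨2, 1, -1⟩⟩,
    ⟨⟨0, -1, 1⟩, ⟨0, 1, -1⟩, ⟨0, 0, 0⟩⟩,
    ⟨⟨1, -2, 0⟩, ⟨1, 0, -2⟩, ⟨-1, 1, 1⟩⟩,
    ⟨⟨-1, -1, -1⟩, ⟨-1, -1, -1⟩, ⟨-1, -1, -1⟩⟩,
    ⟨⟨-1, -2, 0⟩, ⟨-1, -1, -1⟩, ⟨-1, 0, -2⟩⟩,
    ⟨⟨1, -1, -1⟩, ⟨1, 0, -2⟩, ⟨-1, 2, 0⟩⟩,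
    ⟨⟨-2, 1, -1⟩, ⟨0, -2, -2⟩, ⟨-2, 1, -1⟩⟩,
    ⟨⟨2, 1, -1⟩, ⟨0, -2, -2⟩, ⟨-2, -1, 1⟩⟩,
    ⟨⟨-2, 1, -1⟩, ⟨0, 2, 2⟩, ⟨-2, 1, -1⟩⟩,
    ⟨⟨-2, -1, 1⟩, ⟨0, 2, 2⟩, ⟨2, 1, -1⟩⟩],
   [[(1, 0), (2, 0), (4, 0), (5, 0)],
    [(0, 0), (3, 0), (6, 0), (7, 0)],
    [(3, 0), (0, 0), (8, 0), (9, 0)],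
    [(2, 0), (1, 0), (10, 0), (11, 0)],
    [(12, 0), (13, 0), (14, 0), (0, 0)],
    [(15, 0), (16, 0), (0, 0), (14, 1)],
    [(17, 0), (18, 0), (19, 0), (1, 0)],
    [(20, 0), (21, 0), (1, 0), (19, 2)],
    [(21, 3), (20, 3), (22, 0), (2, 0)],
    [(18, 4), (17, 4), (2, 0), (22, 5)],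
    [(16, 6), (15, 6), (23, 0), (3, 0)],
    [(13, 7), (12, 7), (3, 0), (23, 8)],
    [(4, 0), (11, 9), (20, 10), (18, 11)],
    [(11, 9), (4, 0), (17, 12), (21, 13)],
    [(22, 14), (19, 15), (5, 8), (4, 0)],
    [(5, 0), (10, 16), (21, 17), (17, 18)],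
    [(10, 16), (5, 0), (18, 19), (20, 20)],
    [(6, 0), (9, 21), (15, 22), (13, 23)],
    [(9, 21), (6, 0), (12, 24), (16, 25)],
    [(23, 26), (14, 27), (7, 5), (6, 0)],
    [(7, 0), (8, 28), (16, 29), (12, 30)],
    [(8, 28), (7, 0), (13, 31), (15, 32)],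
    [(14, 33), (23, 34), (9, 2), (8, 0)],
    [(19, 35), (22, 36), (11, 1), (10, 0)]]⟩

def cubLat14 : List LatE :=
  [⟨⟨⟨1, 1, 0⟩, ⟨0, 1, 1⟩, ⟨0, 0, 2⟩⟩, 2, ⟨⟨0, 0, 0⟩, ⟨0, 0, 0⟩, ⟨0, 0, 0⟩⟩⟩,
   ⟨⟨⟨1, 1, 1⟩, ⟨0, 2, 0⟩, ⟨0, 0, 2⟩⟩, 2, ⟨⟨0, 0, 0⟩, ⟨0, 0, 0⟩, ⟨0, 0, 0⟩⟩⟩]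

def cubRow15 : Row :=
  ⟨[⟨⟨0, 0, 1⟩, ⟨0, -1, 0⟩, ⟨1, 0, 0⟩⟩, ⟨⟨0, 0, -1⟩, ⟨0, 1, 0⟩, ⟨-1, 0, 0⟩⟩], ⟨⟨1, 0, 0⟩, ⟨0, 0, 1⟩, ⟨0, -1, 0⟩⟩, ⟨⟨1, 0, 0⟩, ⟨0, 0, -1⟩, ⟨0, 1, 0⟩⟩, 4,
   [⟨⟨⟨1, 0, 0⟩, ⟨0, 1, 0⟩, ⟨0, 0, 1⟩⟩, ⟨⟨0, 0, 0⟩, ⟨0, 0, 0⟩, ⟨0, 0, 0⟩⟩⟩,
    ⟨⟨⟨0, 0, 1⟩, ⟨0, -1, 0⟩, ⟨1, 0, 0⟩⟩, ⟨⟨0, 0, 0⟩, ⟨0, 0, 0⟩, ⟨0, 0, 0⟩⟩⟩,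
    ⟨⟨⟨0, 0, -1⟩, ⟨0, 1, 0⟩, ⟨-1, 0, 0⟩⟩, ⟨⟨0, 0, 0⟩, ⟨0, 0, 0⟩, ⟨0, 0, 0⟩⟩⟩,
    ⟨⟨⟨-1, 0, 0⟩, ⟨0, -1, 0⟩, ⟨0, 0, -1⟩⟩, ⟨⟨0, 0, 0⟩, ⟨0, 0, 0⟩, ⟨0, 0, 0⟩⟩⟩,
    ⟨⟨⟨1, 0, 0⟩, ⟨0, 0, 1⟩, ⟨0, -1, 0⟩⟩, ⟨⟨1, 0, 0⟩, ⟨0, 1, 0⟩, ⟨0, 0, 1⟩⟩⟩,
    ⟨⟨⟨1, 0, 0⟩, ⟨0, 0, -1⟩, ⟨0, 1, 0⟩⟩, ⟨⟨-1, 0, 0⟩, ⟨0, 0, 1⟩, ⟨0, -1, 0⟩⟩⟩,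
    ⟨⟨⟨0, -1, 0⟩, ⟨0, 0, -1⟩, ⟨1, 0, 0⟩⟩, ⟨⟨0, 0, 1⟩, ⟨0, -1, 0⟩, ⟨1, 0, 0⟩⟩⟩,
    ⟨⟨⟨0, 1, 0⟩, ⟨0, 0, 1⟩, ⟨1, 0, 0⟩⟩, ⟨⟨0, -1, 0⟩, ⟨0, 0, -1⟩, ⟨-1, 0, 0⟩⟩⟩,
    ⟨⟨⟨0, 1, 0⟩, ⟨0, 0, 1⟩, ⟨-1, 0, 0⟩⟩, ⟨⟨0, 0, -1⟩, ⟨0, 1, 0⟩, ⟨-1, 0, 0⟩⟩⟩,
    ⟨⟨⟨0, -1, 0⟩, ⟨0, 0, -1⟩, ⟨-1, 0, 0⟩⟩, ⟨⟨0, 1, 0⟩, ⟨0, 0, 1⟩, ⟨1, 0, 0⟩⟩⟩,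
    ⟨⟨⟨-1, 0, 0⟩, ⟨0, 0, -1⟩, ⟨0, 1, 0⟩⟩, ⟨⟨-1, 0, 0⟩, ⟨0, -1, 0⟩, ⟨0, 0, -1⟩⟩⟩,
    ⟨⟨⟨-1, 0, 0⟩, ⟨0, 0, 1⟩, ⟨0, -1, 0⟩⟩, ⟨⟨1, 0, 0⟩, ⟨0, 0, -1⟩, ⟨0, 1, 0⟩⟩⟩,
    ⟨⟨⟨0, 0, 1⟩, ⟨1, 0, 0⟩, ⟨0, 1, 0⟩⟩, ⟨⟨1, 0, 0⟩, ⟨0, 1, 0⟩, ⟨0, 0, 1⟩⟩⟩,
    ⟨⟨⟨0, 0, -1⟩, ⟨-1, 0, 0⟩, ⟨0, -1, 0⟩⟩, ⟨⟨1, 0, 0⟩, ⟨0, 1, 0⟩, ⟨0, 0, 1⟩⟩⟩,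
    ⟨⟨⟨1, 0, 0⟩, ⟨0, -1, 0⟩, ⟨0, 0, -1⟩⟩, ⟨⟨2, 0, 0⟩, ⟨0, 1, 1⟩, ⟨0, -1, 1⟩⟩⟩,
    ⟨⟨⟨0, 0, 1⟩, ⟨-1, 0, 0⟩, ⟨0, -1, 0⟩⟩, ⟨⟨-1, 0, 0⟩, ⟨0, 0, 1⟩, ⟨0, -1, 0⟩⟩⟩,
    ⟨⟨⟨0, 0, -1⟩, ⟨1, 0, 0⟩, ⟨0, 1, 0⟩⟩, ⟨⟨-1, 0, 0⟩, ⟨0, 0, 1⟩, ⟨0, -1, 0⟩⟩⟩,
    ⟨⟨⟨0, 1, 0⟩, ⟨-1, 0, 0⟩, ⟨0, 0, 1⟩⟩, ⟨⟨0, 0, 1⟩, ⟨0, -1, 0⟩, ⟨1, 0, 0⟩⟩⟩,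
    ⟨⟨⟨0, -1, 0⟩, ⟨1, 0, 0⟩, ⟨0, 0, -1⟩⟩, ⟨⟨0, 0, 1⟩, ⟨0, -1, 0⟩, ⟨1, 0, 0⟩⟩⟩,
    ⟨⟨⟨0, 0, -1⟩, ⟨0, 1, 0⟩, ⟨1, 0, 0⟩⟩, ⟨⟨0, -1, 1⟩, ⟨0, -1, -1⟩, ⟨2, 0, 0⟩⟩⟩,
    ⟨⟨⟨0, -1, 0⟩, ⟨1, 0, 0⟩, ⟨0, 0, 1⟩⟩, ⟨⟨0, -1, 0⟩, ⟨0, 0, -1⟩, ⟨-1, 0, 0⟩⟩⟩,
    ⟨⟨⟨0, 1, 0⟩, ⟨-1, 0, 0⟩, ⟨0, 0, -1⟩⟩, ⟨⟨0, -1, 0⟩, ⟨0, 0, -1⟩, ⟨-1, 0, 0⟩⟩⟩,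
    ⟨⟨⟨0, 0, 1⟩, ⟨0, -1, 0⟩, ⟨-1, 0, 0⟩⟩, ⟨⟨0, 1, -1⟩, ⟨0, 1, 1⟩, ⟨-2, 0, 0⟩⟩⟩,
    ⟨⟨⟨-1, 0, 0⟩, ⟨0, 1, 0⟩, ⟨0, 0, 1⟩⟩, ⟨⟨-2, 0, 0⟩, ⟨0, -1, -1⟩, ⟨0, 1, -1⟩⟩⟩,
    ⟨⟨⟨0, 1, 0⟩, ⟨1, 0, 0⟩, ⟨0, 0, -1⟩⟩, ⟨⟨1, -1, 0⟩, ⟨-1, 1, 0⟩, ⟨0, 0, 2⟩⟩⟩,
    ⟨⟨⟨0, -1, 0⟩, ⟨-1, 0, 0⟩, ⟨0, 0, 1⟩⟩, ⟨⟨1, 1, 0⟩, ⟨1, 1, 0⟩, ⟨0, 0, 0⟩⟩⟩,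
    ⟨⟨⟨0, 0, 1⟩, ⟨0, 1, 0⟩, ⟨-1, 0, 0⟩⟩, ⟨⟨2, 0, 0⟩, ⟨0, 1, 1⟩, ⟨0, -1, 1⟩⟩⟩,
    ⟨⟨⟨0, 0, -1⟩, ⟨0, -1, 0⟩, ⟨1, 0, 0⟩⟩, ⟨⟨2, 0, 0⟩, ⟨0, 1, 1⟩, ⟨0, -1, 1⟩⟩⟩,
    ⟨⟨⟨0, -1, 0⟩, ⟨-1, 0, 0⟩, ⟨0, 0, -1⟩⟩, ⟨⟨-1, 0, 1⟩, ⟨-1, 0, 1⟩, ⟨0, -2, 0⟩⟩⟩,
    ⟨⟨⟨0, 1, 0⟩, ⟨1, 0, 0⟩, ⟨0, 0, 1⟩⟩, ⟨⟨-1, 0, -1⟩, ⟨1, 0, 1⟩, ⟨0, 0, 0⟩⟩⟩,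
    ⟨⟨⟨0, 0, -1⟩, ⟨-1, 0, 0⟩, ⟨0, 1, 0⟩⟩, ⟨⟨0, 0, 2⟩, ⟨1, -1, 0⟩, ⟨1, -1, 0⟩⟩⟩,
    ⟨⟨⟨0, 0, 1⟩, ⟨1, 0, 0⟩, ⟨0, -1, 0⟩⟩, ⟨⟨0, 0, 0⟩, ⟨-1, -1, 0⟩, ⟨1, 1, 0⟩⟩⟩,
    ⟨⟨⟨-1, 0, 0⟩, ⟨0, -1, 0⟩, ⟨0, 0, 1⟩⟩, ⟨⟨0, -1, 1⟩, ⟨0, -1, -1⟩, ⟨2, 0, 0⟩⟩⟩,
    ⟨⟨⟨1, 0, 0⟩, ⟨0, 1, 0⟩, ⟨0, 0, -1⟩⟩, ⟨⟨0, -1, 1⟩, ⟨0, -1, -1⟩, ⟨2, 0, 0⟩⟩⟩,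
    ⟨⟨⟨0, 0, -1⟩, ⟨1, 0, 0⟩, ⟨0, -1, 0⟩⟩, ⟨⟨0, -2, 0⟩, ⟨1, 0, -1⟩, ⟨-1, 0, 1⟩⟩⟩,
    ⟨⟨⟨0, 0, 1⟩, ⟨-1, 0, 0⟩, ⟨0, 1, 0⟩⟩, ⟨⟨0, 0, 0⟩, ⟨-1, 0, -1⟩, ⟨-1, 0, -1⟩⟩⟩,
    ⟨⟨⟨0, -1, 0⟩, ⟨0, 0, 1⟩, ⟨-1, 0, 0⟩⟩, ⟨⟨1, -1, 0⟩, ⟨-1, 1, 0⟩, ⟨0, 0, 2⟩⟩⟩,
    ⟨⟨⟨0, 1, 0⟩, ⟨0, 0, -1⟩, ⟨1, 0, 0⟩⟩, ⟨⟨1, -1, 0⟩, ⟨-1, 1, 0⟩, ⟨0, 0, 2⟩⟩⟩,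
    ⟨⟨⟨0, 1, 0⟩, ⟨0, 0, -1⟩, ⟨-1, 0, 0⟩⟩, ⟨⟨2, -1, 0⟩, ⟨0, 1, 2⟩, ⟨1, -1, 1⟩⟩⟩,
    ⟨⟨⟨0, -1, 0⟩, ⟨0, 0, 1⟩, ⟨1, 0, 0⟩⟩, ⟨⟨2, 1, 0⟩, ⟨0, 1, 0⟩, ⟨-1, -1, 1⟩⟩⟩,
    ⟨⟨⟨-1, 0, 0⟩, ⟨0, 0, -1⟩, ⟨0, -1, 0⟩⟩, ⟨⟨0, 0, 2⟩, ⟨1, -1, 0⟩, ⟨1, -1, 0⟩⟩⟩,
    ⟨⟨⟨1, 0, 0⟩, ⟨0, 0, 1⟩, ⟨0, 1, 0⟩⟩, ⟨⟨0, 0, 2⟩, ⟨1, -1, 0⟩, ⟨1, -1, 0⟩⟩⟩,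
    ⟨⟨⟨-1, 0, 0⟩, ⟨0, 0, 1⟩, ⟨0, 1, 0⟩⟩, ⟨⟨1, -1, 1⟩, ⟨0, -1, -2⟩, ⟨2, -1, 0⟩⟩⟩,
    ⟨⟨⟨1, 0, 0⟩, ⟨0, 0, -1⟩, ⟨0, -1, 0⟩⟩, ⟨⟨-1, -1, 1⟩, ⟨0, -1, 0⟩, ⟨2, 1, 0⟩⟩⟩,
    ⟨⟨⟨0, 0, -1⟩, ⟨0, -1, 0⟩, ⟨-1, 0, 0⟩⟩, ⟨⟨1, -2, 0⟩, ⟨-1, 1, 1⟩, ⟨-1, 0, 2⟩⟩⟩,
    ⟨⟨⟨0, 0, 1⟩, ⟨0, 1, 0⟩, ⟨1, 0, 0⟩⟩, ⟨⟨1, 0, 0⟩, ⟨-1, 1, -1⟩, ⟨1, 0, 2⟩⟩⟩,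
    ⟨⟨⟨-1, 0, 0⟩, ⟨0, 1, 0⟩, ⟨0, 0, -1⟩⟩, ⟨⟨-1, 0, 2⟩, ⟨1, -1, -1⟩, ⟨1, -2, 0⟩⟩⟩,
    ⟨⟨⟨1, 0, 0⟩, ⟨0, -1, 0⟩, ⟨0, 0, 1⟩⟩, ⟨⟨1, 0, 2⟩, ⟨1, -1, 1⟩, ⟨1, 0, 0⟩⟩⟩],
   [(0, 0), (0, 1), (1, 1), (0, 2), (0, 3), (1, 2), (1, 3), (2, 2), (2, 3), (3, 2), (3, 3), (4, 0), (4, 1), (4, 2), (5, 0), (5, 1), (6, 0), (6, 1), (6, 2), (7, 0), (7, 1), (8, 2), (10, 2), (12, 3), (13, 3), (14, 0), (14, 1), (15, 2), (16, 2), (17, 3), (18, 3), (19, 0), (19, 1), (20, 2), (21, 2), (24, 0), (24, 1), (26, 3), (27, 3), (30, 0), (30,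 1), (32, 3), (33, 3), (36, 2), (37, 2), (40, 2), (41, 2)],
   [⟨⟨0, 0, 0⟩, ⟨0, 0, 0⟩, ⟨0, 0, 0⟩⟩,
    ⟨⟨-4, 0, 0⟩, ⟨0, 0, 0⟩, ⟨0, 0, 0⟩⟩,
    ⟨⟨0, 0, 0⟩, ⟨0, 0, 0⟩, ⟨-4, 0, 0⟩⟩,
    ⟨⟨0, 0, -2⟩, ⟨0, 2, 0⟩, ⟨-2, 0, 0⟩⟩,
    ⟨⟨0, 2, 0⟩, ⟨0, 0, 2⟩, ⟨2, 0, 0⟩⟩,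
    ⟨⟨0, 0, 0⟩, ⟨0, 0, 0⟩, ⟨4, 0, 0⟩⟩,
    ⟨⟨-2, 0, 0⟩, ⟨0, -2, 0⟩, ⟨0, 0, -2⟩⟩,
    ⟨⟨2, 0, 0⟩, ⟨0, 0, -2⟩, ⟨0, 2, 0⟩⟩,
    ⟨⟨4, 0, 0⟩, ⟨0, 0, 0⟩, ⟨0, 0, 0⟩⟩,
    ⟨⟨2, 0, 0⟩, ⟨0, 2, 0⟩, ⟨0, 0, 2⟩⟩,
    ⟨⟨1, 1, 1⟩, ⟨1, 1, 1⟩, ⟨1, 1, 1⟩⟩,
    ⟨⟨1, 1, -1⟩, ⟨-1, 1, 1⟩, ⟨1, -1, 1⟩⟩,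
    ⟨⟨-2, 0, 0⟩, ⟨0, 0, 2⟩, ⟨0, -2, 0⟩⟩,
    ⟨⟨-1, -1, -1⟩, ⟨1, 1, 1⟩, ⟨-1, -1, -1⟩⟩,
    ⟨⟨-1, 1, -1⟩, ⟨-1, 1, 1⟩, ⟨-1, -1, 1⟩⟩,
    ⟨⟨0, 0, 2⟩, ⟨0, -2, 0⟩, ⟨2, 0, 0⟩⟩,
    ⟨⟨1, 1, 1⟩, ⟨-1, -1, -1⟩, ⟨1, 1, 1⟩⟩,
    ⟨⟨1, -1, 1⟩, ⟨1, -1, -1⟩, ⟨1, 1, -1⟩⟩,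
    ⟨⟨0, -2, 0⟩, ⟨0, 0, -2⟩, ⟨-2, 0, 0⟩⟩,
    ⟨⟨-1, -1, -1⟩, ⟨-1, -1, -1⟩, ⟨-1, -1, -1⟩⟩,
    ⟨⟨-1, -1, 1⟩, ⟨1, -1, -1⟩, ⟨-1, 1, -1⟩⟩,
    ⟨⟨0, 2, -2⟩, ⟨0, 2, 2⟩, ⟨-4, 0, 0⟩⟩,
    ⟨⟨-4, 0, 0⟩, ⟨0, -2, -2⟩, ⟨0, 2, -2⟩⟩,
    ⟨⟨1, 1, 1⟩, ⟨-3, 1, 1⟩, ⟨1, 1, 1⟩⟩,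
    ⟨⟨0, 2, 0⟩, ⟨2, 0, 0⟩, ⟨0, 0, -2⟩⟩,
    ⟨⟨1, 1, -1⟩, ⟨3, 1, 1⟩, ⟨1, -1, 1⟩⟩,
    ⟨⟨4, 0, 0⟩, ⟨0, 2, 2⟩, ⟨0, -2, 2⟩⟩,
    ⟨⟨1, 1, 1⟩, ⟨1, 1, 1⟩, ⟨-1, -1, -1⟩⟩,
    ⟨⟨1, 1, -1⟩, ⟨1, -1, 1⟩, ⟨1, -1, -1⟩⟩,
    ⟨⟨-3, 1, 1⟩, ⟨-1, -1, -1⟩, ⟨-1, -1, -1⟩⟩,
    ⟨⟨-3, -1, 1⟩, ⟨-1, -1, 1⟩, ⟨1, -1, -1⟩⟩,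
    ⟨⟨-1, -1, -1⟩, ⟨-3, 1, 1⟩, ⟨-1, -1, -1⟩⟩,
    ⟨⟨-3, -1, -1⟩, ⟨1, -1, 1⟩, ⟨1, 1, -1⟩⟩,
    ⟨⟨-3, 1, -1⟩, ⟨1, -1, -1⟩, ⟨-1, 1, -1⟩⟩,
    ⟨⟨-1, 1, -1⟩, ⟨3, 1, 1⟩, ⟨-1, -1, 1⟩⟩,
    ⟨⟨1, 1, 1⟩, ⟨3, -1, -1⟩, ⟨1, 1, 1⟩⟩,
    ⟨⟨0, 0, -2⟩, ⟨-2, 0, 0⟩, ⟨0, 2, 0⟩⟩,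
    ⟨⟨1, -1, 1⟩, ⟨-3, -1, -1⟩, ⟨1, 1, -1⟩⟩,
    ⟨⟨0, -2, 2⟩, ⟨0, -2, -2⟩, ⟨4, 0, 0⟩⟩,
    ⟨⟨-1, -1, -1⟩, ⟨-1, -1, -1⟩, ⟨1, 1, 1⟩⟩,
    ⟨⟨1, -1, -1⟩, ⟨-1, 1, -1⟩, ⟨1, 1, -1⟩⟩,
    ⟨⟨-1, -1, -1⟩, ⟨1, 1, 1⟩, ⟨-3, 1, 1⟩⟩,
    ⟨⟨1, -1, -1⟩, ⟨1, 1, -1⟩, ⟨-3, -1, 1⟩⟩,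
    ⟨⟨-1, -1, -1⟩, ⟨3, -1, -1⟩, ⟨-1, -1, -1⟩⟩,
    ⟨⟨1, 1, -1⟩, ⟨-1, 1, -1⟩, ⟨-3, -1, -1⟩⟩,
    ⟨⟨-1, 1, -1⟩, ⟨-1, 1, 1⟩, ⟨-3, 1, -1⟩⟩,
    ⟨⟨-1, -1, 1⟩, ⟨-3, -1, -1⟩, ⟨-1, 1, -1⟩⟩,
    ⟨⟨0, -2, 0⟩, ⟨-2, 0, 0⟩, ⟨0, 0, 2⟩⟩,
    ⟨⟨-1, -1, 1⟩, ⟨-1, 1, -1⟩, ⟨-1, 1, 1⟩⟩,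
    ⟨⟨3, -1, -1⟩, ⟨1, 1, 1⟩, ⟨1, 1, 1⟩⟩,
    ⟨⟨3, -1, 1⟩, ⟨-1, 1, 1⟩, ⟨1, -1, 1⟩⟩,
    ⟨⟨1, 1, 1⟩, ⟨1, 1, 1⟩, ⟨3, -1, -1⟩⟩,
    ⟨⟨3, 1, 1⟩, ⟨-1, 1, -1⟩, ⟨-1, -1, 1⟩⟩,
    ⟨⟨3, 1, -1⟩, ⟨1, 1, -1⟩, ⟨-1, 1, 1⟩⟩,
    ⟨⟨1, 1, -1⟩, ⟨1, -1, 1⟩, ⟨-3, -1, -1⟩⟩,
    ⟨⟨0, 0, 2⟩, ⟨2, 0, 0⟩, ⟨0, -2, 0⟩⟩,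
    ⟨⟨-1, 1, 1⟩, ⟨1, -1, 1⟩, ⟨-1, -1, 1⟩⟩,
    ⟨⟨1, 1, 1⟩, ⟨-1, -1, -1⟩, ⟨3, -1, -1⟩⟩,
    ⟨⟨1, -1, 1⟩, ⟨1, -1, -1⟩, ⟨3, -1, 1⟩⟩,
    ⟨⟨3, -1, -1⟩, ⟨-1, -1, -1⟩, ⟨1, 1, 1⟩⟩,
    ⟨⟨-1, -1, 1⟩, ⟨1, -1, 1⟩, ⟨3, 1, 1⟩⟩,
    ⟨⟨-1, 1, 1⟩, ⟨-1, -1, 1⟩, ⟨3, 1, -1⟩⟩,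
    ⟨⟨-3, -1, -1⟩, ⟨-1, 1, -1⟩, ⟨1, 1, -1⟩⟩,
    ⟨⟨2, -2, -2⟩, ⟨-2, 2, 2⟩, ⟨-2, 2, 2⟩⟩,
    ⟨⟨0, -2, -2⟩, ⟨-2, 2, 0⟩, ⟨-2, 0, 2⟩⟩,
    ⟨⟨-1, -1, -1⟩, ⟨-1, -1, -1⟩, ⟨-3, 1, 1⟩⟩,
    ⟨⟨0, 0, -2⟩, ⟨-2, 2, -2⟩, ⟨0, 0, 2⟩⟩,
    ⟨⟨2, 0, -2⟩, ⟨-2, 2, 0⟩, ⟨0, 2, 2⟩⟩,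
    ⟨⟨-1, -1, 1⟩, ⟨-1, 1, -1⟩, ⟨3, 1, 1⟩⟩,
    ⟨⟨-2, 2, 2⟩, ⟨2, -2, -2⟩, ⟨2, -2, -2⟩⟩,
    ⟨⟨-2, 0, 2⟩, ⟨2, -2, 0⟩, ⟨0, -2, -2⟩⟩,
    ⟨⟨-3, 1, 1⟩, ⟨1, 1, 1⟩, ⟨-1, -1, -1⟩⟩,
    ⟨⟨0, 0, 2⟩, ⟨2, -2, 2⟩, ⟨0, 0, -2⟩⟩,
    ⟨⟨0, 2, 2⟩, ⟨2, -2, 0⟩, ⟨2, 0, -2⟩⟩,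
    ⟨⟨3, 1, 1⟩, ⟨1, -1, 1⟩, ⟨-1, -1, 1⟩⟩],
   [[(1, 0), (2, 0), (4, 0), (5, 0)],
    [(0, 0), (3, 0), (6, 0), (7, 0)],
    [(3, 0), (0, 0), (8, 0), (9, 0)],
    [(2, 0), (1, 0), (10, 0), (11, 0)],
    [(12, 0), (13, 0), (14, 0), (0, 0)],
    [(15, 0), (16, 0), (0, 0), (14, 1)],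
    [(17, 0), (18, 0), (19, 0), (1, 0)],
    [(20, 0), (21, 0), (1, 0), (19, 2)],
    [(18, 3), (17, 3), (22, 0), (2, 0)],
    [(21, 4), (20, 4), (2, 0), (22, 5)],
    [(13, 6), (12, 6), (23, 0), (3, 0)],
    [(16, 7), (15, 7), (3, 0), (23, 8)],
    [(4, 0), (10, 9), (20, 10), (24, 0)],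
    [(10, 9), (4, 0), (21, 11), (25, 0)],
    [(26, 0), (27, 0), (5, 8), (4, 0)],
    [(5, 0), (11, 12), (28, 0), (17, 13)],
    [(11, 12), (5, 0), (29, 0), (18, 14)],
    [(6, 0), (8, 15), (15, 16), (30, 0)],
    [(8, 15), (6, 0), (16, 17), (31, 0)],
    [(32, 0), (33, 0), (7, 5), (6, 0)],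
    [(7, 0), (9, 18), (34, 0), (12, 19)],
    [(9, 18), (7, 0), (35, 0), (13, 20)],
    [(33, 21), (32, 21), (9, 2), (8, 0)],
    [(27, 22), (26, 22), (11, 1), (10, 0)],
    [(36, 0), (37, 0), (12, 0), (34, 23)],
    [(37, 24), (36, 24), (13, 0), (35, 25)],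
    [(14, 0), (23, 26), (36, 27), (38, 0)],
    [(23, 26), (14, 0), (37, 28), (39, 0)],
    [(38, 29), (39, 30), (30, 31), (15, 0)],
    [(39, 32), (38, 33), (31, 34), (16, 0)],
    [(40, 0), (41, 0), (17, 0), (28, 35)],
    [(41, 36), (40, 36), (18, 0), (29, 37)],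
    [(19, 0), (22, 38), (40, 39), (42, 0)],
    [(22, 38), (19, 0), (41, 40), (43, 0)],
    [(42, 41), (43, 42), (24, 43), (20, 0)],
    [(43, 44), (42, 45), (25, 46), (21, 0)],
    [(24, 0), (25, 47), (44, 0), (26, 39)],
    [(25, 47), (24, 0), (45, 0), (27, 48)],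
    [(28, 49), (29, 50), (26, 0), (44, 51)],
    [(29, 52), (28, 53), (27, 0), (45, 54)],
    [(30, 0), (31, 55), (46, 0), (32, 27)],
    [(31, 55), (30, 0), (47, 0), (33, 56)],
    [(34, 57), (35, 58), (32, 0), (46, 59)],
    [(35, 60), (34, 61), (33, 0), (47, 62)],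
    [(46, 63), (47, 64), (38, 65), (36, 0)],
    [(47, 66), (46, 67), (39, 68), (37, 0)],
    [(44, 69), (45, 70), (42, 71), (40, 0)],
    [(45, 72), (44, 73), (43, 74), (41, 0)]]⟩

def cubLat15 : List LatE :=
  []

def cubRow16 : Row :=
  ⟨[⟨⟨0, 0, 1⟩, ⟨0, 1, 0⟩, ⟨-1, 0, 0⟩⟩], ⟨⟨1, 0, 0⟩, ⟨0, 0, 1⟩, ⟨0, 1, 0⟩⟩, ⟨⟨1, 0, 0⟩, ⟨0, 0, 1⟩, ⟨0, 1, 0⟩⟩, 4,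
   [⟨⟨⟨1, 0, 0⟩, ⟨0, 1, 0⟩, ⟨0, 0, 1⟩⟩, ⟨⟨0, 0, 0⟩, ⟨0, 0, 0⟩, ⟨0, 0, 0⟩⟩⟩,
    ⟨⟨⟨0, 0, 1⟩, ⟨0, 1, 0⟩, ⟨-1, 0, 0⟩⟩, ⟨⟨0, 0, 0⟩, ⟨0, 0, 0⟩, ⟨0, 0, 0⟩⟩⟩,
    ⟨⟨⟨-1, 0, 0⟩, ⟨0, 1, 0⟩, ⟨0, 0, -1⟩⟩, ⟨⟨0, 0, 0⟩, ⟨0, 0, 0⟩, ⟨0, 0, 0⟩⟩⟩,
    ⟨⟨⟨0, 0, -1⟩, ⟨0, 1, 0⟩, ⟨1, 0, 0⟩⟩, ⟨⟨0, 0, 0⟩, ⟨0, 0, 0⟩, ⟨0, 0, 0⟩⟩⟩,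
    ⟨⟨⟨1, 0, 0⟩, ⟨0, 0, 1⟩, ⟨0, 1, 0⟩⟩, ⟨⟨1, 0, 0⟩, ⟨0, 1, 0⟩, ⟨0, 0, 1⟩⟩⟩,
    ⟨⟨⟨0, 1, 0⟩, ⟨0, 0, 1⟩, ⟨-1, 0, 0⟩⟩, ⟨⟨0, 0, 1⟩, ⟨0, 1, 0⟩, ⟨-1, 0, 0⟩⟩⟩,
    ⟨⟨⟨-1, 0, 0⟩, ⟨0, 0, 1⟩, ⟨0, -1, 0⟩⟩, ⟨⟨-1, 0, 0⟩, ⟨0, 1, 0⟩, ⟨0, 0, -1⟩⟩⟩,
    ⟨⟨⟨0, -1, 0⟩, ⟨0, 0, 1⟩, ⟨1, 0, 0⟩⟩, ⟨⟨0, 0, -1⟩, ⟨0, 1, 0⟩, ⟨1, 0, 0⟩⟩⟩,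
    ⟨⟨⟨0, 0, 1⟩, ⟨-1, 0, 0⟩, ⟨0, 1, 0⟩⟩, ⟨⟨1, 0, 0⟩, ⟨0, 1, 0⟩, ⟨0, 0, 1⟩⟩⟩,
    ⟨⟨⟨0, 1, 0⟩, ⟨-1, 0, 0⟩, ⟨0, 0, -1⟩⟩, ⟨⟨0, 0, 1⟩, ⟨0, 1, 0⟩, ⟨-1, 0, 0⟩⟩⟩,
    ⟨⟨⟨0, 0, -1⟩, ⟨-1, 0, 0⟩, ⟨0, -1, 0⟩⟩, ⟨⟨-1, 0, 0⟩, ⟨0, 1, 0⟩, ⟨0, 0, -1⟩⟩⟩,
    ⟨⟨⟨0, -1, 0⟩, ⟨-1, 0, 0⟩, ⟨0, 0, 1⟩⟩, ⟨⟨0, 0, -1⟩, ⟨0, 1, 0⟩, ⟨1, 0, 0⟩⟩⟩,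
    ⟨⟨⟨-1, 0, 0⟩, ⟨0, 0, -1⟩, ⟨0, 1, 0⟩⟩, ⟨⟨1, 0, 0⟩, ⟨0, 1, 0⟩, ⟨0, 0, 1⟩⟩⟩,
    ⟨⟨⟨0, 1, 0⟩, ⟨-1, 0, 0⟩, ⟨0, 0, 1⟩⟩, ⟨⟨1, 0, 1⟩, ⟨-1, 1, 0⟩, ⟨0, 1, 1⟩⟩⟩,
    ⟨⟨⟨0, 1, 0⟩, ⟨0, 0, -1⟩, ⟨1, 0, 0⟩⟩, ⟨⟨0, 0, 1⟩, ⟨0, 1, 0⟩, ⟨-1, 0, 0⟩⟩⟩,
    ⟨⟨⟨0, 0, 1⟩, ⟨-1, 0, 0⟩, ⟨0, -1, 0⟩⟩, ⟨⟨0, 1, 1⟩, ⟨-1, 1, 0⟩, ⟨-1, 0, -1⟩⟩⟩,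
    ⟨⟨⟨1, 0, 0⟩, ⟨0, 0, -1⟩, ⟨0, -1, 0⟩⟩, ⟨⟨-1, 0, 0⟩, ⟨0, 1, 0⟩, ⟨0, 0, -1⟩⟩⟩,
    ⟨⟨⟨0, -1, 0⟩, ⟨-1, 0, 0⟩, ⟨0, 0, -1⟩⟩, ⟨⟨-1, 0, -1⟩, ⟨-1, 1, 0⟩, ⟨0, -1, -1⟩⟩⟩,
    ⟨⟨⟨0, -1, 0⟩, ⟨0, 0, -1⟩, ⟨-1, 0, 0⟩⟩, ⟨⟨0, 0, -1⟩, ⟨0, 1, 0⟩, ⟨1, 0, 0⟩⟩⟩,
    ⟨⟨⟨0, 0, -1⟩, ⟨-1, 0, 0⟩, ⟨0, 1, 0⟩⟩, ⟨⟨0, -1, -1⟩, ⟨-1, 1, 0⟩, ⟨1, 0, 1⟩⟩⟩,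
    ⟨⟨⟨0, 0, -1⟩, ⟨1, 0, 0⟩, ⟨0, 1, 0⟩⟩, ⟨⟨1, 0, 0⟩, ⟨0, 1, 0⟩, ⟨0, 0, 1⟩⟩⟩,
    ⟨⟨⟨-1, 0, 0⟩, ⟨0, -1, 0⟩, ⟨0, 0, 1⟩⟩, ⟨⟨0, 0, 0⟩, ⟨0, 1, -1⟩, ⟨0, 1, 1⟩⟩⟩,
    ⟨⟨⟨0, 1, 0⟩, ⟨0, 0, -1⟩, ⟨-1, 0, 0⟩⟩, ⟨⟨1, 0, 1⟩, ⟨-1, 1, 0⟩, ⟨0, 1, 1⟩⟩⟩,
    ⟨⟨⟨0, 1, 0⟩, ⟨1, 0, 0⟩, ⟨0, 0, 1⟩⟩, ⟨⟨0, 0, 1⟩, ⟨0, 1, 0⟩, ⟨-1, 0, 0⟩⟩⟩,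
    ⟨⟨⟨0, 0, 1⟩, ⟨0, -1, 0⟩, ⟨1, 0, 0⟩⟩, ⟨⟨0, 1, 1⟩, ⟨0, 1, -1⟩, ⟨0, 0, 0⟩⟩⟩,
    ⟨⟨⟨-1, 0, 0⟩, ⟨0, 0, -1⟩, ⟨0, -1, 0⟩⟩, ⟨⟨0, 1, 1⟩, ⟨-1, 1, 0⟩, ⟨-1, 0, -1⟩⟩⟩,
    ⟨⟨⟨0, 0, 1⟩, ⟨1, 0, 0⟩, ⟨0, -1, 0⟩⟩, ⟨⟨-1, 0, 0⟩, ⟨0, 1, 0⟩, ⟨0, 0, -1⟩⟩⟩,
    ⟨⟨⟨1, 0, 0⟩, ⟨0, -1, 0⟩, ⟨0, 0, -1⟩⟩, ⟨⟨0, 0, 0⟩, ⟨0, 1, -1⟩, ⟨0, -1, -1⟩⟩⟩,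
    ⟨⟨⟨0, -1, 0⟩, ⟨0, 0, -1⟩, ⟨1, 0, 0⟩⟩, ⟨⟨-1, 0, -1⟩, ⟨-1, 1, 0⟩, ⟨0, -1, -1⟩⟩⟩,
    ⟨⟨⟨0, -1, 0⟩, ⟨1, 0, 0⟩, ⟨0, 0, -1⟩⟩, ⟨⟨0, 0, -1⟩, ⟨0, 1, 0⟩, ⟨1, 0, 0⟩⟩⟩,
    ⟨⟨⟨0, 0, -1⟩, ⟨0, -1, 0⟩, ⟨-1, 0, 0⟩⟩, ⟨⟨0, -1, -1⟩, ⟨0, 1, -1⟩, ⟨0, 0, 0⟩⟩⟩,
    ⟨⟨⟨1, 0, 0⟩, ⟨0, 0, -1⟩, ⟨0, 1, 0⟩⟩, ⟨⟨0, -1, -1⟩, ⟨-1, 1, 0⟩, ⟨1, 0, 1⟩⟩⟩,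
    ⟨⟨⟨0, -1, 0⟩, ⟨1, 0, 0⟩, ⟨0, 0, 1⟩⟩, ⟨⟨1, 0, -1⟩, ⟨1, 1, 0⟩, ⟨0, 1, 1⟩⟩⟩,
    ⟨⟨⟨0, 1, 0⟩, ⟨1, 0, 0⟩, ⟨0, 0, -1⟩⟩, ⟨⟨1, 0, 1⟩, ⟨-1, 1, 0⟩, ⟨0, 1, 1⟩⟩⟩,
    ⟨⟨⟨0, 0, 1⟩, ⟨0, -1, 0⟩, ⟨-1, 0, 0⟩⟩, ⟨⟨1, 1, 1⟩, ⟨-1, 1, -1⟩, ⟨-1, 1, 1⟩⟩⟩,
    ⟨⟨⟨0, 0, 1⟩, ⟨1, 0, 0⟩, ⟨0, 1, 0⟩⟩, ⟨⟨0, 1, 1⟩, ⟨1, 1, 0⟩, ⟨-1, 0, 1⟩⟩⟩,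
    ⟨⟨⟨0, 0, -1⟩, ⟨1, 0, 0⟩, ⟨0, -1, 0⟩⟩, ⟨⟨0, 1, 1⟩, ⟨-1, 1, 0⟩, ⟨-1, 0, -1⟩⟩⟩,
    ⟨⟨⟨-1, 0, 0⟩, ⟨0, -1, 0⟩, ⟨0, 0, -1⟩⟩, ⟨⟨-1, 1, 1⟩, ⟨-1, 1, -1⟩, ⟨-1, -1, -1⟩⟩⟩,
    ⟨⟨⟨0, 0, -1⟩, ⟨0, -1, 0⟩, ⟨1, 0, 0⟩⟩, ⟨⟨-1, -1, -1⟩, ⟨-1, 1, -1⟩, ⟨1, -1, -1⟩⟩⟩,
    ⟨⟨⟨1, 0, 0⟩, ⟨0, -1, 0⟩, ⟨0, 0, 1⟩⟩, ⟨⟨1, -1, -1⟩, ⟨-1, 1, -1⟩, ⟨1, 1, 1⟩⟩⟩,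
    ⟨⟨⟨0, -1, 0⟩, ⟨0, 0, 1⟩, ⟨-1, 0, 0⟩⟩, ⟨⟨1, 0, -1⟩, ⟨1, 1, 0⟩, ⟨0, 1, 1⟩⟩⟩,
    ⟨⟨⟨0, 1, 0⟩, ⟨0, 0, 1⟩, ⟨1, 0, 0⟩⟩, ⟨⟨1, 0, 1⟩, ⟨-1, 1, 0⟩, ⟨0, 1, 1⟩⟩⟩,
    ⟨⟨⟨-1, 0, 0⟩, ⟨0, 0, 1⟩, ⟨0, 1, 0⟩⟩, ⟨⟨0, 1, 1⟩, ⟨1, 1, 0⟩, ⟨-1, 0, 1⟩⟩⟩,
    ⟨⟨⟨1, 0, 0⟩, ⟨0, 0, 1⟩, ⟨0, -1, 0⟩⟩, ⟨⟨0, 1, 1⟩, ⟨-1, 1, 0⟩, ⟨-1, 0, -1⟩⟩⟩,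
    ⟨⟨⟨0, 0, -1⟩, ⟨0, 1, 0⟩, ⟨-1, 0, 0⟩⟩, ⟨⟨1, -1, -1⟩, ⟨1, 1, 1⟩, ⟨-1, 1, 1⟩⟩⟩,
    ⟨⟨⟨0, 0, 1⟩, ⟨0, 1, 0⟩, ⟨1, 0, 0⟩⟩, ⟨⟨1, 1, 1⟩, ⟨-1, 1, 1⟩, ⟨1, 1, 1⟩⟩⟩,
    ⟨⟨⟨-1, 0, 0⟩, ⟨0, 1, 0⟩, ⟨0, 0, 1⟩⟩, ⟨⟨-1, 1, 1⟩, ⟨1, 1, 1⟩, ⟨-1, 1, 1⟩⟩⟩,
    ⟨⟨⟨1, 0, 0⟩, ⟨0, 1, 0⟩, ⟨0, 0, -1⟩⟩, ⟨⟨1, 1, 1⟩, ⟨-1, 1, 1⟩, ⟨-1, -1, -1⟩⟩⟩],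
   [(0, 0), (1, 0), (2, 0), (0, 1), (1, 1), (2, 1), (3, 1), (4, 0), (5, 0), (6, 0), (7, 0), (8, 0), (8, 1), (9, 0), (9, 1), (10, 0), (10, 1), (11, 0), (11, 1), (12, 0), (12, 1), (13, 0), (14, 0), (14, 1), (15, 0), (16, 0), (16, 1), (17, 0), (18, 0), (18, 1), (19, 0), (20, 1), (22, 0), (22, 1), (23, 1), (25, 0), (25, 1), (28, 1), (31, 1), (32, 0), (33, 0), (35, 0), (36, 0), (40, 1), (41, 1), (42, 1), (43, 1)],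
   [⟨⟨0, 0, 0⟩, ⟨0, 0, 0⟩, ⟨0, 0, 0⟩⟩,
    ⟨⟨-2, 0, 0⟩, ⟨0, -1, -1⟩, ⟨0, -1, -1⟩⟩,
    ⟨⟨0, -1, -1⟩, ⟨0, -1, -1⟩, ⟨2, 0, 0⟩⟩,
    ⟨⟨2, 0, 0⟩, ⟨0, -1, -1⟩, ⟨0, 1, 1⟩⟩,
    ⟨⟨0, 1, 1⟩, ⟨0, -1, -1⟩, ⟨-2, 0, 0⟩⟩,
    ⟨⟨2, 0, 0⟩, ⟨0, 1, 1⟩, ⟨0, 1, 1⟩⟩,
    ⟨⟨0, 1, 1⟩, ⟨0, 1, 1⟩, ⟨-2, 0, 0⟩⟩,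
    ⟨⟨-2, 0, 0⟩, ⟨0, 1, 1⟩, ⟨0, -1, -1⟩⟩,
    ⟨⟨0, -1, -1⟩, ⟨0, 1, 1⟩, ⟨2, 0, 0⟩⟩,
    ⟨⟨0, -1, -1⟩, ⟨2, 0, 0⟩, ⟨0, -1, -1⟩⟩,
    ⟨⟨0, -1, -1⟩, ⟨2, 0, 0⟩, ⟨0, 1, 1⟩⟩,
    ⟨⟨0, 1, 1⟩, ⟨2, 0, 0⟩, ⟨0, 1, 1⟩⟩,
    ⟨⟨0, 1, 1⟩, ⟨2, 0, 0⟩, ⟨0, -1, -1⟩⟩,
    ⟨⟨2, 0, 0⟩, ⟨0, 1, 1⟩, ⟨0, -1, -1⟩⟩,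
    ⟨⟨0, 1, 1⟩, ⟨-2, 0, 0⟩, ⟨0, 1, 1⟩⟩,
    ⟨⟨0, -1, -1⟩, ⟨0, 1, 1⟩, ⟨-2, 0, 0⟩⟩,
    ⟨⟨0, 1, 1⟩, ⟨-2, 0, 0⟩, ⟨0, -1, -1⟩⟩,
    ⟨⟨-2, 0, 0⟩, ⟨0, 1, 1⟩, ⟨0, 1, 1⟩⟩,
    ⟨⟨0, -1, -1⟩, ⟨-2, 0, 0⟩, ⟨0, -1, -1⟩⟩,
    ⟨⟨0, 1, 1⟩, ⟨0, 1, 1⟩, ⟨2, 0, 0⟩⟩,
    ⟨⟨0, -1, -1⟩, ⟨-2, 0, 0⟩, ⟨0, 1, 1⟩⟩,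
    ⟨⟨0, 1, 1⟩, ⟨0, 0, 0⟩, ⟨0, 1, 1⟩⟩,
    ⟨⟨-2, 0, 0⟩, ⟨0, -1, -1⟩, ⟨0, 1, 1⟩⟩,
    ⟨⟨0, 1, 1⟩, ⟨0, 0, 0⟩, ⟨0, -1, -1⟩⟩,
    ⟨⟨0, 1, 1⟩, ⟨0, -1, -1⟩, ⟨2, 0, 0⟩⟩,
    ⟨⟨-2, 0, 0⟩, ⟨2, 0, 0⟩, ⟨0, -2, -2⟩⟩,
    ⟨⟨-2, -1, -1⟩, ⟨0, 0, 0⟩, ⟨0, -1, -1⟩⟩,
    ⟨⟨0, -1, -1⟩, ⟨0, 0, 0⟩, ⟨0, -1, -1⟩⟩,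
    ⟨⟨2, 0, 0⟩, ⟨0, -1, -1⟩, ⟨0, -1, -1⟩⟩,
    ⟨⟨-2, 0, 0⟩, ⟨-2, 0, 0⟩, ⟨0, -2, -2⟩⟩,
    ⟨⟨0, -2, -2⟩, ⟨2, 0, 0⟩, ⟨2, 0, 0⟩⟩,
    ⟨⟨0, -1, -1⟩, ⟨0, 0, 0⟩, ⟨2, 1, 1⟩⟩,
    ⟨⟨0, -1, -1⟩, ⟨0, 0, 0⟩, ⟨0, 1, 1⟩⟩,
    ⟨⟨0, -1, -1⟩, ⟨0, -1, -1⟩, ⟨-2, 0, 0⟩⟩,
    ⟨⟨0, -2, -2⟩, ⟨-2, 0, 0⟩, ⟨2, 0, 0⟩⟩,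
    ⟨⟨2, 1, 1⟩, ⟨0, 0, 0⟩, ⟨0, 1, 1⟩⟩,
    ⟨⟨2, 0, 0⟩, ⟨-2, 0, 0⟩, ⟨0, 2, 2⟩⟩,
    ⟨⟨2, 0, 0⟩, ⟨0, 0, 0⟩, ⟨0, 2, 2⟩⟩,
    ⟨⟨0, 1, 1⟩, ⟨0, 0, 0⟩, ⟨-2, -1, -1⟩⟩,
    ⟨⟨0, 2, 2⟩, ⟨-2, 0, 0⟩, ⟨-2, 0, 0⟩⟩,
    ⟨⟨0, 2, 2⟩, ⟨0, 0, 0⟩, ⟨-2, 0, 0⟩⟩,
    ⟨⟨-2, 0, 0⟩, ⟨0, 0, 0⟩, ⟨0, -2, -2⟩⟩,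
    ⟨⟨0, -2, -2⟩, ⟨0, 0, 0⟩, ⟨2, 0, 0⟩⟩,
    ⟨⟨2, 0, 0⟩, ⟨2, 0, 0⟩, ⟨0, 2, 2⟩⟩,
    ⟨⟨0, 2, 2⟩, ⟨2, 0, 0⟩, ⟨-2, 0, 0⟩⟩,
    ⟨⟨0, -2, -2⟩, ⟨2, 0, 0⟩, ⟨0, 2, 2⟩⟩,
    ⟨⟨2, 0, 0⟩, ⟨-2, 0, 0⟩, ⟨2, 0, 0⟩⟩,
    ⟨⟨-2, 2, 2⟩, ⟨0, 0, 0⟩, ⟨0, 0, 0⟩⟩,
    ⟨⟨0, 0, 0⟩, ⟨0, 0, 0⟩, ⟨-2, -2, -2⟩⟩],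
   [[(1, 0), (4, 0), (4, 1)],
    [(2, 0), (5, 0), (5, 2)],
    [(3, 0), (6, 0), (6, 3)],
    [(0, 0), (7, 0), (7, 4)],
    [(8, 0), (0, 5), (0, 0)],
    [(9, 0), (1, 6), (1, 0)],
    [(10, 0), (2, 7), (2, 0)],
    [(11, 0), (3, 8), (3, 0)],
    [(12, 0), (13, 0), (13, 9)],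
    [(14, 0), (15, 0), (15, 10)],
    [(16, 0), (17, 0), (17, 11)],
    [(18, 0), (19, 0), (19, 12)],
    [(20, 0), (21, 0), (21, 13)],
    [(22, 0), (8, 14), (8, 0)],
    [(23, 0), (24, 0), (24, 15)],
    [(25, 0), (9, 16), (9, 0)],
    [(26, 0), (27, 0), (27, 17)],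
    [(28, 0), (10, 18), (10, 0)],
    [(29, 0), (30, 0), (30, 19)],
    [(31, 0), (11, 20), (11, 0)],
    [(4, 0), (32, 0), (32, 16)],
    [(30, 21), (12, 22), (12, 0)],
    [(33, 0), (34, 0), (34, 8)],
    [(5, 0), (35, 0), (35, 18)],
    [(21, 23), (14, 24), (14, 0)],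
    [(36, 0), (37, 0), (37, 5)],
    [(6, 0), (33, 25), (33, 26)],
    [(24, 27), (16, 28), (16, 0)],
    [(32, 29), (38, 0), (38, 6)],
    [(7, 0), (36, 30), (36, 31)],
    [(27, 32), (18, 33), (18, 0)],
    [(35, 34), (39, 0), (39, 7)],
    [(40, 0), (20, 10), (20, 0)],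
    [(41, 0), (26, 35), (26, 36)],
    [(37, 37), (22, 4), (22, 0)],
    [(42, 0), (23, 11), (23, 0)],
    [(43, 0), (29, 38), (29, 39)],
    [(38, 40), (25, 1), (25, 0)],
    [(39, 41), (28, 2), (28, 0)],
    [(34, 42), (31, 3), (31, 0)],
    [(17, 43), (44, 0), (44, 24)],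
    [(13, 0), (45, 0), (45, 33)],
    [(19, 44), (46, 0), (46, 28)],
    [(15, 0), (47, 0), (47, 22)],
    [(47, 45), (40, 15), (40, 0)],
    [(46, 46), (41, 19), (41, 0)],
    [(44, 47), (42, 17), (42, 0)],
    [(45, 48), (43, 13), (43, 0)]]⟩

def cubLat16 : List LatE :=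
  [⟨⟨⟨1, 0, 0⟩, ⟨0, 1, 0⟩, ⟨0, 0, 1⟩⟩, 1, ⟨⟨0, 0, 0⟩, ⟨0, 0, 0⟩, ⟨0, 0, 0⟩⟩⟩,
   ⟨⟨⟨1, 1, 1⟩, ⟨0, 2, 0⟩, ⟨0, 0, 2⟩⟩, 2, ⟨⟨0, 0, 0⟩, ⟨0, 0, 0⟩, ⟨0, 0, 0⟩⟩⟩]

def cubRow17 : Row :=
  ⟨[⟨⟨0, 0, 1⟩, ⟨0, 1, 0⟩, ⟨-1, 0, 0⟩⟩], ⟨⟨1, 0, 0⟩, ⟨0, 0, 1⟩, ⟨0, -1, 0⟩⟩, ⟨⟨1, 0, 0⟩, ⟨0, 0, -1⟩, ⟨0, 1, 0⟩⟩, 4,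
   [⟨⟨⟨1, 0, 0⟩, ⟨0, 1, 0⟩, ⟨0, 0, 1⟩⟩, ⟨⟨0, 0, 0⟩, ⟨0, 0, 0⟩, ⟨0, 0, 0⟩⟩⟩,
    ⟨⟨⟨0, 0, 1⟩, ⟨0, 1, 0⟩, ⟨-1, 0, 0⟩⟩, ⟨⟨0, 0, 0⟩, ⟨0, 0, 0⟩, ⟨0, 0, 0⟩⟩⟩,
    ⟨⟨⟨-1, 0, 0⟩, ⟨0, 1, 0⟩, ⟨0, 0, -1⟩⟩, ⟨⟨0, 0, 0⟩, ⟨0, 0, 0⟩, ⟨0, 0, 0⟩⟩⟩,
    ⟨⟨⟨0, 0, -1⟩, ⟨0, 1, 0⟩, ⟨1, 0, 0⟩⟩, ⟨⟨0, 0, 0⟩, ⟨0, 0, 0⟩, ⟨0, 0, 0⟩⟩⟩,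
    ⟨⟨⟨1, 0, 0⟩, ⟨0, 0, 1⟩, ⟨0, -1, 0⟩⟩, ⟨⟨1, 0, 0⟩, ⟨0, 1, 0⟩, ⟨0, 0, 1⟩⟩⟩,
    ⟨⟨⟨1, 0, 0⟩, ⟨0, 0, -1⟩, ⟨0, 1, 0⟩⟩, ⟨⟨-1, 0, 0⟩, ⟨0, 0, 1⟩, ⟨0, -1, 0⟩⟩⟩,
    ⟨⟨⟨0, -1, 0⟩, ⟨0, 0, 1⟩, ⟨-1, 0, 0⟩⟩, ⟨⟨0, 0, 1⟩, ⟨0, 1, 0⟩, ⟨-1, 0, 0⟩⟩⟩,
    ⟨⟨⟨0, 1, 0⟩, ⟨0, 0, -1⟩, ⟨-1, 0, 0⟩⟩, ⟨⟨0, -1, 0⟩, ⟨0, 0, 1⟩, ⟨1, 0, 0⟩⟩⟩,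
    ⟨⟨⟨-1, 0, 0⟩, ⟨0, 0, 1⟩, ⟨0, 1, 0⟩⟩, ⟨⟨-1, 0, 0⟩, ⟨0, 1, 0⟩, ⟨0, 0, -1⟩⟩⟩,
    ⟨⟨⟨-1, 0, 0⟩, ⟨0, 0, -1⟩, ⟨0, -1, 0⟩⟩, ⟨⟨1, 0, 0⟩, ⟨0, 0, 1⟩, ⟨0, 1, 0⟩⟩⟩,
    ⟨⟨⟨0, 1, 0⟩, ⟨0, 0, 1⟩, ⟨1, 0, 0⟩⟩, ⟨⟨0, 0, -1⟩, ⟨0, 1, 0⟩, ⟨1, 0, 0⟩⟩⟩,
    ⟨⟨⟨0, -1, 0⟩, ⟨0, 0, -1⟩, ⟨1, 0, 0⟩⟩, ⟨⟨0, 1, 0⟩, ⟨0, 0, 1⟩, ⟨-1, 0, 0⟩⟩⟩,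
    ⟨⟨⟨0, 0, 1⟩, ⟨-1, 0, 0⟩, ⟨0, -1, 0⟩⟩, ⟨⟨1, 0, 0⟩, ⟨0, 1, 0⟩, ⟨0, 0, 1⟩⟩⟩,
    ⟨⟨⟨1, 0, 0⟩, ⟨0, -1, 0⟩, ⟨0, 0, -1⟩⟩, ⟨⟨2, 0, 0⟩, ⟨0, 1, 1⟩, ⟨0, -1, 1⟩⟩⟩,
    ⟨⟨⟨0, 0, 1⟩, ⟨1, 0, 0⟩, ⟨0, 1, 0⟩⟩, ⟨⟨-1, 0, 0⟩, ⟨0, 0, 1⟩, ⟨0, -1, 0⟩⟩⟩,
    ⟨⟨⟨0, -1, 0⟩, ⟨-1, 0, 0⟩, ⟨0, 0, -1⟩⟩, ⟨⟨0, 0, 1⟩, ⟨0, 1, 0⟩, ⟨-1, 0, 0⟩⟩⟩,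
    ⟨⟨⟨0, 0, -1⟩, ⟨0, -1, 0⟩, ⟨-1, 0, 0⟩⟩, ⟨⟨0, -1, 1⟩, ⟨0, 1, 1⟩, ⟨-2, 0, 0⟩⟩⟩,
    ⟨⟨⟨0, 1, 0⟩, ⟨1, 0, 0⟩, ⟨0, 0, -1⟩⟩, ⟨⟨0, -1, 0⟩, ⟨0, 0, 1⟩, ⟨1, 0, 0⟩⟩⟩,
    ⟨⟨⟨0, 0, -1⟩, ⟨-1, 0, 0⟩, ⟨0, 1, 0⟩⟩, ⟨⟨-1, 0, 0⟩, ⟨0, 1, 0⟩, ⟨0, 0, -1⟩⟩⟩,
    ⟨⟨⟨-1, 0, 0⟩, ⟨0, -1, 0⟩, ⟨0, 0, 1⟩⟩, ⟨⟨-2, 0, 0⟩, ⟨0, 1, 1⟩, ⟨0, 1, -1⟩⟩⟩,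
    ⟨⟨⟨0, 0, -1⟩, ⟨1, 0, 0⟩, ⟨0, -1, 0⟩⟩, ⟨⟨1, 0, 0⟩, ⟨0, 0, 1⟩, ⟨0, 1, 0⟩⟩⟩,
    ⟨⟨⟨0, 1, 0⟩, ⟨-1, 0, 0⟩, ⟨0, 0, 1⟩⟩, ⟨⟨0, 0, -1⟩, ⟨0, 1, 0⟩, ⟨1, 0, 0⟩⟩⟩,
    ⟨⟨⟨0, 0, 1⟩, ⟨0, -1, 0⟩, ⟨1, 0, 0⟩⟩, ⟨⟨0, 1, -1⟩, ⟨0, 1, 1⟩, ⟨2, 0, 0⟩⟩⟩,
    ⟨⟨⟨0, -1, 0⟩, ⟨1, 0, 0⟩, ⟨0, 0, 1⟩⟩, ⟨⟨0, 1, 0⟩, ⟨0, 0, 1⟩, ⟨-1, 0, 0⟩⟩⟩],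
   [(0, 0), (1, 0), (2, 0), (0, 1), (0, 2), (1, 1), (1, 2), (2, 1), (2, 2), (3, 1), (3, 2), (4, 0), (4, 1), (5, 0), (6, 0), (6, 1), (7, 0), (8, 0), (8, 1), (9, 0), (10, 0), (10, 1), (11, 0)],
   [⟨⟨0, 0, 0⟩, ⟨0, 0, 0⟩, ⟨0, 0, 0⟩⟩,
    ⟨⟨-4, 0, 0⟩, ⟨0, 0, 0⟩, ⟨0, 0, 0⟩⟩,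
    ⟨⟨0, 0, 0⟩, ⟨0, 0, 0⟩, ⟨4, 0, 0⟩⟩,
    ⟨⟨4, 0, 0⟩, ⟨0, 0, 0⟩, ⟨0, 0, 0⟩⟩,
    ⟨⟨0, 0, 0⟩, ⟨0, 0, 0⟩, ⟨-4, 0, 0⟩⟩,
    ⟨⟨0, 0, 0⟩, ⟨0, 1, -1⟩, ⟨0, -1, 1⟩⟩,
    ⟨⟨1, 0, 0⟩, ⟨-1, 0, 0⟩, ⟨1, -1, 1⟩⟩,
    ⟨⟨1, -1, 1⟩, ⟨1, 0, 0⟩, ⟨-1, 0, 0⟩⟩,
    ⟨⟨2, -1, 1⟩, ⟨0, 0, 0⟩, ⟨-2, -1, 1⟩⟩,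
    ⟨⟨0, 0, 0⟩, ⟨0, -1, 1⟩, ⟨0, -1, 1⟩⟩,
    ⟨⟨-1, -1, 1⟩, ⟨1, 0, 0⟩, ⟨1, 0, 0⟩⟩,
    ⟨⟨-1, 0, 0⟩, ⟨-1, 0, 0⟩, ⟨-1, -1, 1⟩⟩,
    ⟨⟨0, -1, 1⟩, ⟨0, 1, -1⟩, ⟨0, 0, 0⟩⟩,
    ⟨⟨1, -1, 1⟩, ⟨-1, 0, 0⟩, ⟨-1, 0, 0⟩⟩,
    ⟨⟨-1, 0, 0⟩, ⟨1, 0, 0⟩, ⟨-1, 1, -1⟩⟩,
    ⟨⟨-2, -1, 1⟩, ⟨0, 0, 0⟩, ⟨-2, 1, -1⟩⟩,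
    ⟨⟨0, -1, 1⟩, ⟨0, -1, 1⟩, ⟨0, 0, 0⟩⟩,
    ⟨⟨1, 0, 0⟩, ⟨1, 0, 0⟩, ⟨1, 1, -1⟩⟩,
    ⟨⟨-1, -1, 1⟩, ⟨-1, 0, 0⟩, ⟨1, 0, 0⟩⟩,
    ⟨⟨0, 0, 0⟩, ⟨0, 1, -1⟩, ⟨0, 1, -1⟩⟩,
    ⟨⟨-1, 0, 0⟩, ⟨-1, 0, 0⟩, ⟨-1, 1, -1⟩⟩,
    ⟨⟨-1, 1, -1⟩, ⟨1, 0, 0⟩, ⟨1, 0, 0⟩⟩,
    ⟨⟨-2, 1, -1⟩, ⟨0, 0, 0⟩, ⟨2, 1, -1⟩⟩,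
    ⟨⟨0, 0, 0⟩, ⟨0, -1, 1⟩, ⟨0, 1, -1⟩⟩,
    ⟨⟨1, 1, -1⟩, ⟨1, 0, 0⟩, ⟨-1, 0, 0⟩⟩,
    ⟨⟨1, 0, 0⟩, ⟨-1, 0, 0⟩, ⟨1, 1, -1⟩⟩,
    ⟨⟨0, 1, -1⟩, ⟨0, 1, -1⟩, ⟨0, 0, 0⟩⟩,
    ⟨⟨-1, 1, -1⟩, ⟨-1, 0, 0⟩, ⟨1, 0, 0⟩⟩,
    ⟨⟨1, 0, 0⟩, ⟨1, 0, 0⟩, ⟨1, -1, 1⟩⟩,
    ⟨⟨2, 1, -1⟩, ⟨0, 0, 0⟩, ⟨2, -1, 1⟩⟩,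
    ⟨⟨0, 1, -1⟩, ⟨0, -1, 1⟩, ⟨0, 0, 0⟩⟩,
    ⟨⟨-1, 0, 0⟩, ⟨1, 0, 0⟩, ⟨-1, -1, 1⟩⟩,
    ⟨⟨1, 1, -1⟩, ⟨-1, 0, 0⟩, ⟨-1, 0, 0⟩⟩],
   [[(1, 0), (4, 0), (5, 0)],
    [(2, 0), (6, 0), (7, 0)],
    [(3, 0), (8, 0), (9, 0)],
    [(0, 0), (10, 0), (11, 0)],
    [(12, 0), (13, 0), (0, 0)],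
    [(14, 0), (0, 0), (13, 1)],
    [(15, 0), (16, 0), (1, 0)],
    [(17, 0), (1, 0), (16, 2)],
    [(18, 0), (19, 0), (2, 0)],
    [(20, 0), (2, 0), (19, 3)],
    [(21, 0), (22, 0), (3, 0)],
    [(23, 0), (3, 0), (22, 4)],
    [(9, 5), (15, 6), (21, 7)],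
    [(22, 8), (5, 3), (4, 0)],
    [(8, 9), (23, 10), (17, 11)],
    [(11, 12), (18, 13), (12, 14)],
    [(13, 15), (7, 4), (6, 0)],
    [(10, 16), (14, 17), (20, 18)],
    [(5, 19), (21, 20), (15, 21)],
    [(16, 22), (9, 1), (8, 0)],
    [(4, 23), (17, 24), (23, 25)],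
    [(7, 26), (12, 27), (18, 28)],
    [(19, 29), (11, 2), (10, 0)],
    [(6, 30), (20, 31), (14, 32)]]⟩

def cubLat17 : List LatE :=
  [⟨⟨⟨1, 0, 0⟩, ⟨0, 1, 0⟩, ⟨0, 0, 1⟩⟩, 1, ⟨⟨0, 0, 0⟩, ⟨0, 0, 0⟩, ⟨0, 0, 0⟩⟩⟩,
   ⟨⟨⟨1, 1, 1⟩, ⟨0, 2, 0⟩, ⟨0, 0, 2⟩⟩, 2, ⟨⟨0, 0, 0⟩, ⟨0, 0, 0⟩, ⟨0, 0, 0⟩⟩⟩,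
   ⟨⟨⟨1, 1, 0⟩, ⟨0, 1, 1⟩, ⟨0, 0, 2⟩⟩, 2, ⟨⟨0, 0, 0⟩, ⟨0, 0, 0⟩, ⟨0, 0, 0⟩⟩⟩]

def cubRow18 : Row :=
  ⟨[⟨⟨0, 0, 1⟩, ⟨0, 1, 0⟩, ⟨1, 0, 0⟩⟩, ⟨⟨0, 0, -1⟩, ⟨0, 1, 0⟩, ⟨-1, 0, 0⟩⟩], ⟨⟨1, 0, 0⟩, ⟨0, 0, 1⟩, ⟨0, 1, 0⟩⟩, ⟨⟨1, 0, 0⟩, ⟨0, 0, 1⟩, ⟨0, 1, 0⟩⟩, 4,
   [⟨⟨⟨1, 0, 0⟩, ⟨0, 1, 0⟩, ⟨0, 0, 1⟩⟩, ⟨⟨0, 0, 0⟩, ⟨0, 0, 0⟩, ⟨0, 0, 0⟩⟩⟩,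
    ⟨⟨⟨0, 0, 1⟩, ⟨0, 1, 0⟩, ⟨1, 0, 0⟩⟩, ⟨⟨0, 0, 0⟩, ⟨0, 0, 0⟩, ⟨0, 0, 0⟩⟩⟩,
    ⟨⟨⟨0, 0, -1⟩, ⟨0, 1, 0⟩, ⟨-1, 0, 0⟩⟩, ⟨⟨0, 0, 0⟩, ⟨0, 0, 0⟩, ⟨0, 0, 0⟩⟩⟩,
    ⟨⟨⟨-1, 0, 0⟩, ⟨0, 1, 0⟩, ⟨0, 0, -1⟩⟩, ⟨⟨0, 0, 0⟩, ⟨0, 0, 0⟩, ⟨0, 0, 0⟩⟩⟩,
    ⟨⟨⟨1, 0, 0⟩, ⟨0, 0, 1⟩, ⟨0, 1, 0⟩⟩, ⟨⟨1, 0, 0⟩, ⟨0, 1, 0⟩, ⟨0, 0, 1⟩⟩⟩,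
    ⟨⟨⟨0, 1, 0⟩, ⟨0, 0, 1⟩, ⟨1, 0, 0⟩⟩, ⟨⟨0, 0, 1⟩, ⟨0, 1, 0⟩, ⟨1, 0, 0⟩⟩⟩,
    ⟨⟨⟨0, -1, 0⟩, ⟨0, 0, 1⟩, ⟨-1, 0, 0⟩⟩, ⟨⟨0, 0, -1⟩, ⟨0, 1, 0⟩, ⟨-1, 0, 0⟩⟩⟩,
    ⟨⟨⟨-1, 0, 0⟩, ⟨0, 0, 1⟩, ⟨0, -1, 0⟩⟩, ⟨⟨-1, 0, 0⟩, ⟨0, 1, 0⟩, ⟨0, 0, -1⟩⟩⟩,
    ⟨⟨⟨0, 0, 1⟩, ⟨1, 0, 0⟩, ⟨0, 1, 0⟩⟩, ⟨⟨1, 0, 0⟩, ⟨0, 1, 0⟩, ⟨0, 0, 1⟩⟩⟩,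
    ⟨⟨⟨0, 0, -1⟩, ⟨-1, 0, 0⟩, ⟨0, 1, 0⟩⟩, ⟨⟨1, 0, 0⟩, ⟨0, 1, 0⟩, ⟨0, 0, 1⟩⟩⟩,
    ⟨⟨⟨0, 1, 0⟩, ⟨1, 0, 0⟩, ⟨0, 0, 1⟩⟩, ⟨⟨0, 0, 1⟩, ⟨0, 1, 0⟩, ⟨1, 0, 0⟩⟩⟩,
    ⟨⟨⟨0, 1, 0⟩, ⟨-1, 0, 0⟩, ⟨0, 0, -1⟩⟩, ⟨⟨0, 0, 1⟩, ⟨0, 1, 0⟩, ⟨1, 0, 0⟩⟩⟩,
    ⟨⟨⟨0, -1, 0⟩, ⟨1, 0, 0⟩, ⟨0, 0, -1⟩⟩, ⟨⟨0, 0, -1⟩, ⟨0, 1, 0⟩, ⟨-1, 0, 0⟩⟩⟩,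
    ⟨⟨⟨0, -1, 0⟩, ⟨-1, 0, 0⟩, ⟨0, 0, 1⟩⟩, ⟨⟨0, 0, -1⟩, ⟨0, 1, 0⟩, ⟨-1, 0, 0⟩⟩⟩,
    ⟨⟨⟨0, 0, -1⟩, ⟨1, 0, 0⟩, ⟨0, -1, 0⟩⟩, ⟨⟨-1, 0, 0⟩, ⟨0, 1, 0⟩, ⟨0, 0, -1⟩⟩⟩,
    ⟨⟨⟨0, 0, 1⟩, ⟨-1, 0, 0⟩, ⟨0, -1, 0⟩⟩, ⟨⟨-1, 0, 0⟩, ⟨0, 1, 0⟩, ⟨0, 0, -1⟩⟩⟩,
    ⟨⟨⟨-1, 0, 0⟩, ⟨0, 0, -1⟩, ⟨0, 1, 0⟩⟩, ⟨⟨1, 0, 0⟩, ⟨0, 1, 0⟩, ⟨0, 0, 1⟩⟩⟩,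
    ⟨⟨⟨0, 1, 0⟩, ⟨0, 0, -1⟩, ⟨-1, 0, 0⟩⟩, ⟨⟨0, 0, 1⟩, ⟨0, 1, 0⟩, ⟨1, 0, 0⟩⟩⟩,
    ⟨⟨⟨0, -1, 0⟩, ⟨0, 0, -1⟩, ⟨1, 0, 0⟩⟩, ⟨⟨0, 0, -1⟩, ⟨0, 1, 0⟩, ⟨-1, 0, 0⟩⟩⟩,
    ⟨⟨⟨1, 0, 0⟩, ⟨0, 0, -1⟩, ⟨0, -1, 0⟩⟩, ⟨⟨-1, 0, 0⟩, ⟨0, 1, 0⟩, ⟨0, 0, -1⟩⟩⟩,
    ⟨⟨⟨-1, 0, 0⟩, ⟨0, -1, 0⟩, ⟨0, 0, 1⟩⟩, ⟨⟨0, 0, 0⟩, ⟨0, 1, -1⟩, ⟨0, 1, 1⟩⟩⟩,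
    ⟨⟨⟨0, 0, 1⟩, ⟨0, -1, 0⟩, ⟨-1, 0, 0⟩⟩, ⟨⟨0, 1, 1⟩, ⟨0, 1, -1⟩, ⟨0, 0, 0⟩⟩⟩,
    ⟨⟨⟨0, 0, -1⟩, ⟨0, -1, 0⟩, ⟨1, 0, 0⟩⟩, ⟨⟨0, -1, -1⟩, ⟨0, 1, -1⟩, ⟨0, 0, 0⟩⟩⟩,
    ⟨⟨⟨1, 0, 0⟩, ⟨0, -1, 0⟩, ⟨0, 0, -1⟩⟩, ⟨⟨0, 0, 0⟩, ⟨0, 1, -1⟩, ⟨0, -1, -1⟩⟩⟩],
   [(0, 0), (0, 1), (1, 1), (0, 2), (1, 2), (2, 2), (3, 2), (4, 0), (4, 1), (5, 0), (5, 1), (6, 0), (6, 1), (7, 0), (7, 1), (8, 1), (10, 1), (12, 1), (14, 1), (16, 2), (17, 2), (18, 2), (19, 2)],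
   [⟨⟨0, 0, 0⟩, ⟨0, 0, 0⟩, ⟨0, 0, 0⟩⟩,
    ⟨⟨-2, 0, 0⟩, ⟨0, -1, -1⟩, ⟨0, -1, -1⟩⟩,
    ⟨⟨0, -1, -1⟩, ⟨0, -1, -1⟩, ⟨-2, 0, 0⟩⟩,
    ⟨⟨0, 1, 1⟩, ⟨0, -1, -1⟩, ⟨2, 0, 0⟩⟩,
    ⟨⟨2, 0, 0⟩, ⟨0, -1, -1⟩, ⟨0, 1, 1⟩⟩,
    ⟨⟨2, 0, 0⟩, ⟨0, 1, 1⟩, ⟨0, 1, 1⟩⟩,
    ⟨⟨0, 1, 1⟩, ⟨0, 1, 1⟩, ⟨2, 0, 0⟩⟩,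
    ⟨⟨0, -1, -1⟩, ⟨0, 1, 1⟩, ⟨-2, 0, 0⟩⟩,
    ⟨⟨-2, 0, 0⟩, ⟨0, 1, 1⟩, ⟨0, -1, -1⟩⟩,
    ⟨⟨1, 0, 0⟩, ⟨1, 0, 0⟩, ⟨-1, 1, 1⟩⟩,
    ⟨⟨1, -1, -1⟩, ⟨-1, 0, 0⟩, ⟨-1, 0, 0⟩⟩,
    ⟨⟨1, 0, 0⟩, ⟨-1, 0, 0⟩, ⟨1, 1, 1⟩⟩,
    ⟨⟨1, 1, 1⟩, ⟨1, 0, 0⟩, ⟨1, 0, 0⟩⟩,
    ⟨⟨-1, 1, 1⟩, ⟨1, 0, 0⟩, ⟨1, 0, 0⟩⟩,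
    ⟨⟨-1, 0, 0⟩, ⟨-1, 0, 0⟩, ⟨1, -1, -1⟩⟩,
    ⟨⟨1, 1, 1⟩, ⟨-1, 0, 0⟩, ⟨1, 0, 0⟩⟩,
    ⟨⟨1, 0, 0⟩, ⟨1, 0, 0⟩, ⟨1, 1, 1⟩⟩,
    ⟨⟨1, -1, -1⟩, ⟨1, 0, 0⟩, ⟨-1, 0, 0⟩⟩,
    ⟨⟨1, 0, 0⟩, ⟨-1, 0, 0⟩, ⟨-1, 1, 1⟩⟩,
    ⟨⟨-1, -1, -1⟩, ⟨-1, 0, 0⟩, ⟨-1, 0, 0⟩⟩,
    ⟨⟨-1, 0, 0⟩, ⟨1, 0, 0⟩, ⟨-1, -1, -1⟩⟩,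
    ⟨⟨-1, 0, 0⟩, ⟨1, 0, 0⟩, ⟨1, -1, -1⟩⟩,
    ⟨⟨-1, 1, 1⟩, ⟨-1, 0, 0⟩, ⟨1, 0, 0⟩⟩,
    ⟨⟨-1, 0, 0⟩, ⟨-1, 0, 0⟩, ⟨-1, -1, -1⟩⟩,
    ⟨⟨-1, -1, -1⟩, ⟨1, 0, 0⟩, ⟨-1, 0, 0⟩⟩,
    ⟨⟨2, 0, 0⟩, ⟨0, 1, 1⟩, ⟨0, -1, -1⟩⟩,
    ⟨⟨0, -1, -1⟩, ⟨0, 1, 1⟩, ⟨2, 0, 0⟩⟩,
    ⟨⟨0, 1, 1⟩, ⟨0, 1, 1⟩, ⟨-2, 0, 0⟩⟩,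
    ⟨⟨-2, 0, 0⟩, ⟨0, 1, 1⟩, ⟨0, 1, 1⟩⟩,
    ⟨⟨0, 1, 1⟩, ⟨0, 0, 0⟩, ⟨0, 1, 1⟩⟩,
    ⟨⟨0, -1, -1⟩, ⟨0, 0, 0⟩, ⟨0, 1, 1⟩⟩,
    ⟨⟨-2, 0, 0⟩, ⟨0, -1, -1⟩, ⟨0, 1, 1⟩⟩,
    ⟨⟨0, 1, 1⟩, ⟨0, 0, 0⟩, ⟨0, -1, -1⟩⟩,
    ⟨⟨0, 1, 1⟩, ⟨0, -1, -1⟩, ⟨-2, 0, 0⟩⟩,
    ⟨⟨0, -1, -1⟩, ⟨0, 0, 0⟩, ⟨0, -1, -1⟩⟩,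
    ⟨⟨0, -1, -1⟩, ⟨0, -1, -1⟩, ⟨2, 0, 0⟩⟩,
    ⟨⟨2, 0, 0⟩, ⟨0, -1, -1⟩, ⟨0, -1, -1⟩⟩],
   [[(1, 0), (2, 0), (4, 0), (4, 1)],
    [(0, 0), (3, 0), (5, 0), (5, 2)],
    [(3, 0), (0, 0), (6, 0), (6, 3)],
    [(2, 0), (1, 0), (7, 0), (7, 4)],
    [(8, 0), (9, 0), (0, 5), (0, 0)],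
    [(10, 0), (11, 0), (1, 6), (1, 0)],
    [(12, 0), (13, 0), (2, 7), (2, 0)],
    [(14, 0), (15, 0), (3, 8), (3, 0)],
    [(4, 0), (16, 0), (10, 9), (10, 10)],
    [(16, 0), (4, 0), (13, 11), (13, 12)],
    [(5, 0), (17, 0), (8, 13), (8, 14)],
    [(17, 0), (5, 0), (15, 15), (15, 16)],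
    [(6, 0), (18, 0), (14, 17), (14, 18)],
    [(18, 0), (6, 0), (9, 19), (9, 20)],
    [(7, 0), (19, 0), (12, 21), (12, 22)],
    [(19, 0), (7, 0), (11, 23), (11, 24)],
    [(9, 0), (8, 0), (20, 0), (20, 25)],
    [(11, 0), (10, 0), (21, 0), (21, 26)],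
    [(13, 0), (12, 0), (22, 0), (22, 27)],
    [(15, 0), (14, 0), (23, 0), (23, 28)],
    [(22, 29), (21, 30), (16, 31), (16, 0)],
    [(23, 29), (20, 32), (17, 33), (17, 0)],
    [(20, 34), (23, 30), (18, 35), (18, 0)],
    [(21, 34), (22, 32), (19, 36), (19, 0)]]⟩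

def cubLat18 : List LatE :=
  [⟨⟨⟨1, 0, 0⟩, ⟨0, 1, 0⟩, ⟨0, 0, 1⟩⟩, 1, ⟨⟨0, 0, 0⟩, ⟨0, 0, 0⟩, ⟨0, 0, 0⟩⟩⟩,
   ⟨⟨⟨1, 1, 1⟩, ⟨0, 2, 0⟩, ⟨0, 0, 2⟩⟩, 2, ⟨⟨0, 0, 0⟩, ⟨0, 0, 0⟩, ⟨0, 0, 0⟩⟩⟩,
   ⟨⟨⟨1, 1, 0⟩, ⟨0, 1, 1⟩, ⟨0, 0, 2⟩⟩, 2, ⟨⟨0, 0, 0⟩, ⟨0, 0, 0⟩, ⟨0, 0, 0⟩⟩⟩]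

def cubRow19 : Row :=
  ⟨[⟨⟨0, 0, 1⟩, ⟨0, 1, 0⟩, ⟨1, 0, 0⟩⟩, ⟨⟨0, 0, -1⟩, ⟨0, 1, 0⟩, ⟨-1, 0, 0⟩⟩], ⟨⟨1, 0, 0⟩, ⟨0, 0, 1⟩, ⟨0, -1, 0⟩⟩, ⟨⟨1, 0, 0⟩, ⟨0, 0, -1⟩, ⟨0, 1, 0⟩⟩, 4,
   [⟨⟨⟨1, 0, 0⟩, ⟨0, 1, 0⟩, ⟨0, 0, 1⟩⟩, ⟨⟨0, 0, 0⟩, ⟨0, 0, 0⟩, ⟨0, 0, 0⟩⟩⟩,
    ⟨⟨⟨0, 0, 1⟩, ⟨0, 1, 0⟩, ⟨1, 0, 0⟩⟩, ⟨⟨0, 0, 0⟩, ⟨0, 0, 0⟩, ⟨0, 0, 0⟩⟩⟩,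
    ⟨⟨⟨0, 0, -1⟩, ⟨0, 1, 0⟩, ⟨-1, 0, 0⟩⟩, ⟨⟨0, 0, 0⟩, ⟨0, 0, 0⟩, ⟨0, 0, 0⟩⟩⟩,
    ⟨⟨⟨-1, 0, 0⟩, ⟨0, 1, 0⟩, ⟨0, 0, -1⟩⟩, ⟨⟨0, 0, 0⟩, ⟨0, 0, 0⟩, ⟨0, 0, 0⟩⟩⟩,
    ⟨⟨⟨1, 0, 0⟩, ⟨0, 0, 1⟩, ⟨0, -1, 0⟩⟩, ⟨⟨1, 0, 0⟩, ⟨0, 1, 0⟩, ⟨0, 0, 1⟩⟩⟩,
    ⟨⟨⟨1, 0, 0⟩, ⟨0, 0, -1⟩, ⟨0, 1, 0⟩⟩, ⟨⟨-1, 0, 0⟩, ⟨0, 0, 1⟩, ⟨0, -1, 0⟩⟩⟩,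
    ⟨⟨⟨0, -1, 0⟩, ⟨0, 0, 1⟩, ⟨1, 0, 0⟩⟩, ⟨⟨0, 0, 1⟩, ⟨0, 1, 0⟩, ⟨1, 0, 0⟩⟩⟩,
    ⟨⟨⟨0, 1, 0⟩, ⟨0, 0, -1⟩, ⟨1, 0, 0⟩⟩, ⟨⟨0, -1, 0⟩, ⟨0, 0, 1⟩, ⟨-1, 0, 0⟩⟩⟩,
    ⟨⟨⟨0, 1, 0⟩, ⟨0, 0, 1⟩, ⟨-1, 0, 0⟩⟩, ⟨⟨0, 0, -1⟩, ⟨0, 1, 0⟩, ⟨-1, 0, 0⟩⟩⟩,
    ⟨⟨⟨0, -1, 0⟩, ⟨0, 0, -1⟩, ⟨-1, 0, 0⟩⟩, ⟨⟨0, 1, 0⟩, ⟨0, 0, 1⟩, ⟨1, 0, 0⟩⟩⟩,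
    ⟨⟨⟨-1, 0, 0⟩, ⟨0, 0, 1⟩, ⟨0, 1, 0⟩⟩, ⟨⟨-1, 0, 0⟩, ⟨0, 1, 0⟩, ⟨0, 0, -1⟩⟩⟩,
    ⟨⟨⟨-1, 0, 0⟩, ⟨0, 0, -1⟩, ⟨0, -1, 0⟩⟩, ⟨⟨1, 0, 0⟩, ⟨0, 0, 1⟩, ⟨0, 1, 0⟩⟩⟩,
    ⟨⟨⟨0, 0, 1⟩, ⟨1, 0, 0⟩, ⟨0, -1, 0⟩⟩, ⟨⟨1, 0, 0⟩, ⟨0, 1, 0⟩, ⟨0, 0, 1⟩⟩⟩,
    ⟨⟨⟨0, 0, -1⟩, ⟨-1, 0, 0⟩, ⟨0, -1, 0⟩⟩, ⟨⟨1, 0, 0⟩, ⟨0, 1, 0⟩, ⟨0, 0, 1⟩⟩⟩,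
    ⟨⟨⟨1, 0, 0⟩, ⟨0, -1, 0⟩, ⟨0, 0, -1⟩⟩, ⟨⟨2, 0, 0⟩, ⟨0, 1, 1⟩, ⟨0, -1, 1⟩⟩⟩,
    ⟨⟨⟨0, 0, 1⟩, ⟨-1, 0, 0⟩, ⟨0, 1, 0⟩⟩, ⟨⟨-1, 0, 0⟩, ⟨0, 0, 1⟩, ⟨0, -1, 0⟩⟩⟩,
    ⟨⟨⟨0, 0, -1⟩, ⟨1, 0, 0⟩, ⟨0, 1, 0⟩⟩, ⟨⟨-1, 0, 0⟩, ⟨0, 0, 1⟩, ⟨0, -1, 0⟩⟩⟩,
    ⟨⟨⟨0, -1, 0⟩, ⟨1, 0, 0⟩, ⟨0, 0, 1⟩⟩, ⟨⟨0, 0, 1⟩, ⟨0, 1, 0⟩, ⟨1, 0, 0⟩⟩⟩,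
    ⟨⟨⟨0, -1, 0⟩, ⟨-1, 0, 0⟩, ⟨0, 0, -1⟩⟩, ⟨⟨0, 0, 1⟩, ⟨0, 1, 0⟩, ⟨1, 0, 0⟩⟩⟩,
    ⟨⟨⟨0, 0, -1⟩, ⟨0, -1, 0⟩, ⟨1, 0, 0⟩⟩, ⟨⟨0, -1, 1⟩, ⟨0, 1, 1⟩, ⟨2, 0, 0⟩⟩⟩,
    ⟨⟨⟨0, 1, 0⟩, ⟨-1, 0, 0⟩, ⟨0, 0, 1⟩⟩, ⟨⟨0, -1, 0⟩, ⟨0, 0, 1⟩, ⟨-1, 0, 0⟩⟩⟩,
    ⟨⟨⟨0, 1, 0⟩, ⟨1, 0, 0⟩, ⟨0, 0, -1⟩⟩, ⟨⟨0, -1, 0⟩, ⟨0, 0, 1⟩, ⟨-1, 0, 0⟩⟩⟩,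
    ⟨⟨⟨0, 0, 1⟩, ⟨0, -1, 0⟩, ⟨-1, 0, 0⟩⟩, ⟨⟨0, 1, -1⟩, ⟨0, 1, 1⟩, ⟨-2, 0, 0⟩⟩⟩,
    ⟨⟨⟨-1, 0, 0⟩, ⟨0, -1, 0⟩, ⟨0, 0, 1⟩⟩, ⟨⟨-2, 0, 0⟩, ⟨0, 1, 1⟩, ⟨0, 1, -1⟩⟩⟩,
    ⟨⟨⟨0, -1, 0⟩, ⟨1, 0, 0⟩, ⟨0, 0, -1⟩⟩, ⟨⟨1, 0, 1⟩, ⟨1, 1, 0⟩, ⟨0, -1, 1⟩⟩⟩,
    ⟨⟨⟨0, 1, 0⟩, ⟨1, 0, 0⟩, ⟨0, 0, 1⟩⟩, ⟨⟨1, -1, 0⟩, ⟨-1, 1, 0⟩, ⟨0, 0, 0⟩⟩⟩,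
    ⟨⟨⟨0, 1, 0⟩, ⟨-1, 0, 0⟩, ⟨0, 0, -1⟩⟩, ⟨⟨1, 0, -1⟩, ⟨-1, 1, 0⟩, ⟨0, -1, 1⟩⟩⟩,
    ⟨⟨⟨0, -1, 0⟩, ⟨-1, 0, 0⟩, ⟨0, 0, 1⟩⟩, ⟨⟨1, 1, 0⟩, ⟨1, 1, 0⟩, ⟨0, 0, 0⟩⟩⟩,
    ⟨⟨⟨0, 0, -1⟩, ⟨1, 0, 0⟩, ⟨0, -1, 0⟩⟩, ⟨⟨0, -1, 1⟩, ⟨1, 1, 0⟩, ⟨1, 0, 1⟩⟩⟩,
    ⟨⟨⟨0, 0, 1⟩, ⟨1, 0, 0⟩, ⟨0, 1, 0⟩⟩, ⟨⟨0, 0, 0⟩, ⟨-1, 1, 0⟩, ⟨1, -1, 0⟩⟩⟩,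
    ⟨⟨⟨0, 0, -1⟩, ⟨-1, 0, 0⟩, ⟨0, 1, 0⟩⟩, ⟨⟨0, -1, 1⟩, ⟨-1, 1, 0⟩, ⟨1, 0, -1⟩⟩⟩,
    ⟨⟨⟨0, 0, 1⟩, ⟨-1, 0, 0⟩, ⟨0, -1, 0⟩⟩, ⟨⟨0, 0, 0⟩, ⟨1, 1, 0⟩, ⟨1, 1, 0⟩⟩⟩,
    ⟨⟨⟨0, -1, 0⟩, ⟨0, 0, 1⟩, ⟨-1, 0, 0⟩⟩, ⟨⟨1, 0, 1⟩, ⟨1, 1, 0⟩, ⟨0, -1, 1⟩⟩⟩,
    ⟨⟨⟨0, -1, 0⟩, ⟨0, 0, -1⟩, ⟨1, 0, 0⟩⟩, ⟨⟨1, 0, 1⟩, ⟨1, 1, 0⟩, ⟨0, -1, 1⟩⟩⟩,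
    ⟨⟨⟨0, 1, 0⟩, ⟨0, 0, 1⟩, ⟨1, 0, 0⟩⟩, ⟨⟨1, -1, 0⟩, ⟨-1, 1, 0⟩, ⟨0, 0, 0⟩⟩⟩,
    ⟨⟨⟨0, 1, 0⟩, ⟨0, 0, -1⟩, ⟨-1, 0, 0⟩⟩, ⟨⟨1, -1, 0⟩, ⟨-1, 1, 0⟩, ⟨0, 0, 0⟩⟩⟩,
    ⟨⟨⟨-1, 0, 0⟩, ⟨0, 0, 1⟩, ⟨0, -1, 0⟩⟩, ⟨⟨0, -1, 1⟩, ⟨1, 1, 0⟩, ⟨1, 0, 1⟩⟩⟩,
    ⟨⟨⟨1, 0, 0⟩, ⟨0, 0, -1⟩, ⟨0, -1, 0⟩⟩, ⟨⟨0, -1, 1⟩, ⟨1, 1, 0⟩, ⟨1, 0, 1⟩⟩⟩,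
    ⟨⟨⟨1, 0, 0⟩, ⟨0, 0, 1⟩, ⟨0, 1, 0⟩⟩, ⟨⟨0, 0, 0⟩, ⟨-1, 1, 0⟩, ⟨1, -1, 0⟩⟩⟩,
    ⟨⟨⟨-1, 0, 0⟩, ⟨0, 0, -1⟩, ⟨0, 1, 0⟩⟩, ⟨⟨0, 0, 0⟩, ⟨-1, 1, 0⟩, ⟨1, -1, 0⟩⟩⟩,
    ⟨⟨⟨0, 0, -1⟩, ⟨0, -1, 0⟩, ⟨-1, 0, 0⟩⟩, ⟨⟨1, -1, 1⟩, ⟨1, 1, 1⟩, ⟨-1, -1, 1⟩⟩⟩,
    ⟨⟨⟨0, 0, 1⟩, ⟨0, 1, 0⟩, ⟨-1, 0, 0⟩⟩, ⟨⟨1, 0, 0⟩, ⟨1, 0, 0⟩, ⟨1, -1, 1⟩⟩⟩,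
    ⟨⟨⟨0, 0, -1⟩, ⟨0, 1, 0⟩, ⟨1, 0, 0⟩⟩, ⟨⟨1, -1, 1⟩, ⟨1, 1, -1⟩, ⟨1, -1, 1⟩⟩⟩,
    ⟨⟨⟨0, 0, 1⟩, ⟨0, -1, 0⟩, ⟨1, 0, 0⟩⟩, ⟨⟨1, 0, 0⟩, ⟨1, 2, 0⟩, ⟨-1, -1, 1⟩⟩⟩,
    ⟨⟨⟨-1, 0, 0⟩, ⟨0, -1, 0⟩, ⟨0, 0, -1⟩⟩, ⟨⟨-1, -1, 1⟩, ⟨1, 1, 1⟩, ⟨1, -1, 1⟩⟩⟩,
    ⟨⟨⟨-1, 0, 0⟩, ⟨0, 1, 0⟩, ⟨0, 0, 1⟩⟩, ⟨⟨1, -1, 1⟩, ⟨1, 0, 0⟩, ⟨1, 0, 0⟩⟩⟩,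
    ⟨⟨⟨1, 0, 0⟩, ⟨0, 1, 0⟩, ⟨0, 0, -1⟩⟩, ⟨⟨1, -1, 1⟩, ⟨1, 1, -1⟩, ⟨1, -1, 1⟩⟩⟩,
    ⟨⟨⟨1, 0, 0⟩, ⟨0, -1, 0⟩, ⟨0, 0, 1⟩⟩, ⟨⟨-1, -1, 1⟩, ⟨1, 2, 0⟩, ⟨1, 0, 0⟩⟩⟩],
   [(0, 0), (0, 1), (1, 1), (0, 2), (0, 3), (1, 2), (1, 3), (2, 2), (2, 3), (3, 2), (3, 3), (4, 0), (4, 1), (4, 2), (5, 0), (5, 1), (6, 0), (6, 1), (6, 2), (7, 0), (7, 1), (8, 2), (10, 2), (12, 2), (12, 3), (13, 2), (13, 3), (17, 2), (17, 3), (18, 2), (18, 3), (24, 0), (24, 1), (25, 0), (25, 1), (28, 0), (28, 1), (29, 0), (29, 1), (32, 2), (32,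 3), (33, 2), (33, 3), (36, 2), (36, 3), (37, 2), (37, 3)],
   [⟨⟨0, 0, 0⟩, ⟨0, 0, 0⟩, ⟨0, 0, 0⟩⟩,
    ⟨⟨-4, 0, 0⟩, ⟨0, 0, 0⟩, ⟨0, 0, 0⟩⟩,
    ⟨⟨0, 0, 0⟩, ⟨0, 0, 0⟩, ⟨-4, 0, 0⟩⟩,
    ⟨⟨0, 1, -1⟩, ⟨0, 1, -1⟩, ⟨0, 0, 0⟩⟩,
    ⟨⟨0, 1, -1⟩, ⟨0, -1, 1⟩, ⟨0, 0, 0⟩⟩,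
    ⟨⟨0, 0, 0⟩, ⟨0, 0, 0⟩, ⟨4, 0, 0⟩⟩,
    ⟨⟨0, 0, 0⟩, ⟨0, 1, -1⟩, ⟨0, 1, -1⟩⟩,
    ⟨⟨0, 0, 0⟩, ⟨0, -1, 1⟩, ⟨0, 1, -1⟩⟩,
    ⟨⟨4, 0, 0⟩, ⟨0, 0, 0⟩, ⟨0, 0, 0⟩⟩,
    ⟨⟨0, 0, 0⟩, ⟨0, 1, -1⟩, ⟨0, -1, 1⟩⟩,
    ⟨⟨2, -1, 1⟩, ⟨0, 0, 0⟩, ⟨2, -1, 1⟩⟩,
    ⟨⟨2, 1, -1⟩, ⟨0, 0, 0⟩, ⟨-2, -1, 1⟩⟩,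
    ⟨⟨0, 0, 0⟩, ⟨0, -1, 1⟩, ⟨0, -1, 1⟩⟩,
    ⟨⟨-2, -1, 1⟩, ⟨-2, -1, 1⟩, ⟨0, 0, 0⟩⟩,
    ⟨⟨-2, -1, 1⟩, ⟨2, -1, 1⟩, ⟨0, 0, 0⟩⟩,
    ⟨⟨-2, 1, -1⟩, ⟨2, -1, 1⟩, ⟨0, 0, 0⟩⟩,
    ⟨⟨-2, 1, -1⟩, ⟨-2, -1, 1⟩, ⟨0, 0, 0⟩⟩,
    ⟨⟨0, -1, 1⟩, ⟨0, 1, -1⟩, ⟨0, 0, 0⟩⟩,
    ⟨⟨-2, -1, 1⟩, ⟨0, 0, 0⟩, ⟨2, 1, -1⟩⟩,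
    ⟨⟨0, -1, 1⟩, ⟨0, -1, 1⟩, ⟨0, 0, 0⟩⟩,
    ⟨⟨0, 0, 0⟩, ⟨-2, -1, 1⟩, ⟨-2, -1, 1⟩⟩,
    ⟨⟨0, 0, 0⟩, ⟨2, -1, 1⟩, ⟨-2, -1, 1⟩⟩,
    ⟨⟨0, 0, 0⟩, ⟨2, -1, 1⟩, ⟨-2, 1, -1⟩⟩,
    ⟨⟨0, 0, 0⟩, ⟨-2, -1, 1⟩, ⟨-2, 1, -1⟩⟩,
    ⟨⟨-2, 1, -1⟩, ⟨0, 0, 0⟩, ⟨-2, 1, -1⟩⟩,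
    ⟨⟨2, -1, 1⟩, ⟨2, 1, -1⟩, ⟨0, 0, 0⟩⟩,
    ⟨⟨2, -1, 1⟩, ⟨-2, 1, -1⟩, ⟨0, 0, 0⟩⟩,
    ⟨⟨0, 1, -1⟩, ⟨0, 0, 0⟩, ⟨0, -1, 1⟩⟩,
    ⟨⟨2, 1, -1⟩, ⟨-2, 1, -1⟩, ⟨0, 0, 0⟩⟩,
    ⟨⟨0, 1, -1⟩, ⟨0, 0, 0⟩, ⟨0, 1, -1⟩⟩,
    ⟨⟨2, 1, -1⟩, ⟨2, 1, -1⟩, ⟨0, 0, 0⟩⟩,
    ⟨⟨0, 0, 0⟩, ⟨2, 1, -1⟩, ⟨2, -1, 1⟩⟩,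
    ⟨⟨0, 0, 0⟩, ⟨-2, 1, -1⟩, ⟨2, -1, 1⟩⟩,
    ⟨⟨0, -1, 1⟩, ⟨0, 0, 0⟩, ⟨0, 1, -1⟩⟩,
    ⟨⟨0, 0, 0⟩, ⟨-2, 1, -1⟩, ⟨2, 1, -1⟩⟩,
    ⟨⟨0, 0, 0⟩, ⟨2, 1, -1⟩, ⟨2, 1, -1⟩⟩,
    ⟨⟨0, -1, 1⟩, ⟨0, 0, 0⟩, ⟨0, -1, 1⟩⟩,
    ⟨⟨0, 0, 0⟩, ⟨-2, -1, 1⟩, ⟨2, 1, -1⟩⟩,
    ⟨⟨0, 0, 0⟩, ⟨-2, 1, -1⟩, ⟨-2, 1, -1⟩⟩,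
    ⟨⟨2, 1, -1⟩, ⟨-2, -1, 1⟩, ⟨0, 0, 0⟩⟩,
    ⟨⟨-2, 1, -1⟩, ⟨-2, 1, -1⟩, ⟨0, 0, 0⟩⟩,
    ⟨⟨2, 0, 0⟩, ⟨0, 0, 0⟩, ⟨-2, 0, 0⟩⟩,
    ⟨⟨2, 0, 0⟩, ⟨0, -1, 1⟩, ⟨-2, -1, 1⟩⟩,
    ⟨⟨0, 0, 0⟩, ⟨2, -1, 1⟩, ⟨2, -1, 1⟩⟩,
    ⟨⟨2, 1, -1⟩, ⟨0, 1, -1⟩, ⟨-2, 0, 0⟩⟩,
    ⟨⟨0, 0, 0⟩, ⟨2, 1, -1⟩, ⟨-2, -1, 1⟩⟩,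
    ⟨⟨-2, 0, 0⟩, ⟨0, 0, 0⟩, ⟨2, 0, 0⟩⟩,
    ⟨⟨-2, -1, 1⟩, ⟨0, -1, 1⟩, ⟨2, 0, 0⟩⟩,
    ⟨⟨2, -1, 1⟩, ⟨2, -1, 1⟩, ⟨0, 0, 0⟩⟩,
    ⟨⟨-2, 0, 0⟩, ⟨0, 1, -1⟩, ⟨2, 1, -1⟩⟩,
    ⟨⟨-2, -1, 1⟩, ⟨2, 1, -1⟩, ⟨0, 0, 0⟩⟩],
   [[(1, 0), (2, 0), (4, 0), (5, 0)],
    [(0, 0), (3, 0), (6, 0), (7, 0)],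
    [(3, 0), (0, 0), (8, 0), (9, 0)],
    [(2, 0), (1, 0), (10, 0), (11, 0)],
    [(12, 0), (13, 0), (14, 0), (0, 0)],
    [(15, 0), (16, 0), (0, 0), (14, 1)],
    [(17, 0), (18, 0), (19, 0), (1, 0)],
    [(20, 0), (21, 0), (1, 0), (19, 2)],
    [(21, 3), (20, 3), (22, 0), (2, 0)],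
    [(18, 4), (17, 4), (2, 0), (22, 5)],
    [(16, 6), (15, 6), (23, 0), (3, 0)],
    [(13, 7), (12, 7), (3, 0), (23, 8)],
    [(4, 0), (11, 9), (24, 0), (25, 0)],
    [(11, 9), (4, 0), (26, 0), (27, 0)],
    [(22, 10), (19, 11), (5, 8), (4, 0)],
    [(5, 0), (10, 12), (27, 13), (26, 14)],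
    [(10, 12), (5, 0), (25, 15), (24, 16)],
    [(6, 0), (9, 17), (28, 0), (29, 0)],
    [(9, 17), (6, 0), (30, 0), (31, 0)],
    [(23, 10), (14, 18), (7, 5), (6, 0)],
    [(7, 0), (8, 19), (31, 20), (30, 21)],
    [(8, 19), (7, 0), (29, 22), (28, 23)],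
    [(14, 24), (23, 11), (9, 2), (8, 0)],
    [(19, 24), (22, 18), (11, 1), (10, 0)],
    [(32, 0), (33, 0), (16, 25), (12, 0)],
    [(34, 0), (35, 0), (12, 0), (16, 26)],
    [(35, 27), (34, 27), (15, 28), (13, 0)],
    [(33, 29), (32, 29), (13, 0), (15, 30)],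
    [(36, 0), (37, 0), (21, 31), (17, 0)],
    [(38, 0), (39, 0), (17, 0), (21, 32)],
    [(39, 33), (38, 33), (20, 34), (18, 0)],
    [(37, 29), (36, 29), (18, 0), (20, 35)],
    [(24, 0), (27, 36), (40, 0), (41, 0)],
    [(27, 36), (24, 0), (42, 0), (43, 0)],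
    [(25, 0), (26, 33), (43, 37), (42, 23)],
    [(26, 33), (25, 0), (41, 38), (40, 34)],
    [(28, 0), (31, 36), (44, 0), (45, 0)],
    [(31, 36), (28, 0), (46, 0), (47, 0)],
    [(29, 0), (30, 27), (47, 39), (46, 16)],
    [(30, 27), (29, 0), (45, 40), (44, 28)],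
    [(44, 41), (47, 42), (35, 21), (32, 0)],
    [(46, 4), (45, 27), (32, 0), (35, 43)],
    [(45, 9), (46, 0), (34, 31), (33, 0)],
    [(47, 11), (44, 44), (33, 0), (34, 45)],
    [(40, 46), (43, 47), (39, 14), (36, 0)],
    [(42, 7), (41, 33), (36, 0), (39, 48)],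
    [(41, 17), (42, 0), (38, 25), (37, 0)],
    [(43, 18), (40, 49), (37, 0), (38, 50)]]⟩

def cubLat19 : List LatE :=
  [⟨⟨⟨1, 1, 1⟩, ⟨0, 2, 0⟩, ⟨0, 0, 2⟩⟩, 2, ⟨⟨0, 0, 0⟩, ⟨0, 0, 0⟩, ⟨0, 0, 0⟩⟩⟩,
   ⟨⟨⟨1, 1, 1⟩, ⟨0, 2, 0⟩, ⟨0, 0, 2⟩⟩, 2, ⟨⟨0, 0, 0⟩, ⟨0, 0, 0⟩, ⟨0, 0, 0⟩⟩⟩,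
   ⟨⟨⟨1, 1, 1⟩, ⟨0, 2, 0⟩, ⟨0, 0, 2⟩⟩, 2, ⟨⟨0, 0, 0⟩, ⟨0, 0, 0⟩, ⟨0, 0, 0⟩⟩⟩]

def cubRow20 : Row :=
  ⟨[⟨⟨1, 0, 0⟩, ⟨0, -1, 0⟩, ⟨0, 0, -1⟩⟩, ⟨⟨-1, 0, 0⟩, ⟨0, 1, 0⟩, ⟨0, 0, -1⟩⟩], ⟨⟨0, 1, 0⟩, ⟨0, 0, 1⟩, ⟨1, 0, 0⟩⟩, ⟨⟨0, 0, 1⟩, ⟨1, 0, 0⟩, ⟨0, 1, 0⟩⟩, 4,
   [⟨⟨⟨1, 0, 0⟩, ⟨0, 1, 0⟩, ⟨0, 0, 1⟩⟩, ⟨⟨0, 0, 0⟩, ⟨0, 0, 0⟩, ⟨0, 0, 0⟩⟩⟩,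
    ⟨⟨⟨1, 0, 0⟩, ⟨0, -1, 0⟩, ⟨0, 0, -1⟩⟩, ⟨⟨0, 0, 0⟩, ⟨0, 0, 0⟩, ⟨0, 0, 0⟩⟩⟩,
    ⟨⟨⟨-1, 0, 0⟩, ⟨0, 1, 0⟩, ⟨0, 0, -1⟩⟩, ⟨⟨0, 0, 0⟩, ⟨0, 0, 0⟩, ⟨0, 0, 0⟩⟩⟩,
    ⟨⟨⟨-1, 0, 0⟩, ⟨0, -1, 0⟩, ⟨0, 0, 1⟩⟩, ⟨⟨0, 0, 0⟩, ⟨0, 0, 0⟩, ⟨0, 0, 0⟩⟩⟩,
    ⟨⟨⟨0, 1, 0⟩, ⟨0, 0, 1⟩, ⟨1, 0, 0⟩⟩, ⟨⟨1, 0, 0⟩, ⟨0, 1, 0⟩, ⟨0, 0, 1⟩⟩⟩,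
    ⟨⟨⟨0, 0, 1⟩, ⟨1, 0, 0⟩, ⟨0, 1, 0⟩⟩, ⟨⟨0, 0, -1⟩, ⟨-1, 0, 0⟩, ⟨0, -1, 0⟩⟩⟩,
    ⟨⟨⟨0, 1, 0⟩, ⟨0, 0, -1⟩, ⟨-1, 0, 0⟩⟩, ⟨⟨1, 0, 0⟩, ⟨0, -1, 0⟩, ⟨0, 0, -1⟩⟩⟩,
    ⟨⟨⟨0, 0, 1⟩, ⟨-1, 0, 0⟩, ⟨0, -1, 0⟩⟩, ⟨⟨0, 0, -1⟩, ⟨1, 0, 0⟩, ⟨0, 1, 0⟩⟩⟩,
    ⟨⟨⟨0, -1, 0⟩, ⟨0, 0, 1⟩, ⟨-1, 0, 0⟩⟩, ⟨⟨-1, 0, 0⟩, ⟨0, 1, 0⟩, ⟨0, 0, -1⟩⟩⟩,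
    ⟨⟨⟨0, 0, -1⟩, ⟨1, 0, 0⟩, ⟨0, -1, 0⟩⟩, ⟨⟨0, 0, 1⟩, ⟨-1, 0, 0⟩, ⟨0, 1, 0⟩⟩⟩,
    ⟨⟨⟨0, -1, 0⟩, ⟨0, 0, -1⟩, ⟨1, 0, 0⟩⟩, ⟨⟨-1, 0, 0⟩, ⟨0, -1, 0⟩, ⟨0, 0, 1⟩⟩⟩,
    ⟨⟨⟨0, 0, -1⟩, ⟨-1, 0, 0⟩, ⟨0, 1, 0⟩⟩, ⟨⟨0, 0, 1⟩, ⟨1, 0, 0⟩, ⟨0, -1, 0⟩⟩⟩],
   [(0, 0), (0, 1), (1, 1), (0, 2), (0, 3), (1, 2), (1, 3), (2, 2), (2, 3), (3, 2), (3, 3)],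
   [⟨⟨0, 0, 0⟩, ⟨0, 0, 0⟩, ⟨0, 0, 0⟩⟩,
    ⟨⟨2, 0, 0⟩, ⟨0, 2, 0⟩, ⟨0, 0, 0⟩⟩,
    ⟨⟨0, 0, 0⟩, ⟨0, 2, 0⟩, ⟨0, 0, 2⟩⟩,
    ⟨⟨1, 1, 1⟩, ⟨1, 1, 1⟩, ⟨1, 1, 1⟩⟩,
    ⟨⟨0, 0, -2⟩, ⟨0, 0, 0⟩, ⟨0, -2, 0⟩⟩,
    ⟨⟨0, 0, -2⟩, ⟨-2, 0, 0⟩, ⟨0, 0, 0⟩⟩,
    ⟨⟨-1, -1, -1⟩, ⟨-1, -1, -1⟩, ⟨-1, -1, -1⟩⟩,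
    ⟨⟨2, 0, 0⟩, ⟨0, -2, 0⟩, ⟨0, 0, 0⟩⟩,
    ⟨⟨0, 0, 0⟩, ⟨0, -2, 0⟩, ⟨0, 0, -2⟩⟩,
    ⟨⟨1, 1, 1⟩, ⟨-1, -1, -1⟩, ⟨-1, -1, -1⟩⟩,
    ⟨⟨0, 0, -2⟩, ⟨0, 0, 0⟩, ⟨0, 2, 0⟩⟩,
    ⟨⟨0, 0, -2⟩, ⟨2, 0, 0⟩, ⟨0, 0, 0⟩⟩,
    ⟨⟨-1, -1, -1⟩, ⟨1, 1, 1⟩, ⟨1, 1, 1⟩⟩,
    ⟨⟨-2, 0, 0⟩, ⟨0, 2, 0⟩, ⟨0, 0, 0⟩⟩,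
    ⟨⟨0, 0, 0⟩, ⟨0, 2, 0⟩, ⟨0, 0, -2⟩⟩,
    ⟨⟨-1, -1, -1⟩, ⟨1, 1, 1⟩, ⟨-1, -1, -1⟩⟩,
    ⟨⟨0, 0, 2⟩, ⟨0, 0, 0⟩, ⟨0, 2, 0⟩⟩,
    ⟨⟨0, 0, 2⟩, ⟨-2, 0, 0⟩, ⟨0, 0, 0⟩⟩,
    ⟨⟨1, 1, 1⟩, ⟨-1, -1, -1⟩, ⟨1, 1, 1⟩⟩,
    ⟨⟨-2, 0, 0⟩, ⟨0, -2, 0⟩, ⟨0, 0, 0⟩⟩,
    ⟨⟨0, 0, 0⟩, ⟨0, -2, 0⟩, ⟨0, 0, 2⟩⟩,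
    ⟨⟨-1, -1, -1⟩, ⟨-1, -1, -1⟩, ⟨1, 1, 1⟩⟩,
    ⟨⟨0, 0, 2⟩, ⟨0, 0, 0⟩, ⟨0, -2, 0⟩⟩,
    ⟨⟨0, 0, 2⟩, ⟨2, 0, 0⟩, ⟨0, 0, 0⟩⟩,
    ⟨⟨1, 1, 1⟩, ⟨1, 1, 1⟩, ⟨-1, -1, -1⟩⟩],
   [[(1, 0), (2, 0), (4, 0), (5, 0)],
    [(0, 0), (3, 0), (6, 0), (7, 0)],
    [(3, 0), (0, 0), (8, 0), (9, 0)],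
    [(2, 0), (1, 0), (10, 0), (11, 0)],
    [(10, 1), (6, 2), (5, 3), (0, 0)],
    [(9, 4), (11, 5), (0, 0), (4, 6)],
    [(8, 7), (4, 8), (7, 9), (1, 0)],
    [(11, 10), (9, 11), (1, 0), (6, 12)],
    [(6, 13), (10, 14), (9, 15), (2, 0)],
    [(5, 16), (7, 17), (2, 0), (8, 18)],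
    [(4, 19), (8, 20), (11, 21), (3, 0)],
    [(7, 22), (5, 23), (3, 0), (10, 24)]]⟩

def cubLat20 : List LatE :=
  [⟨⟨⟨1, 1, 0⟩, ⟨0, 1, 1⟩, ⟨0, 0, 2⟩⟩, 2, ⟨⟨0, 0, 0⟩, ⟨0, 0, 0⟩, ⟨0, 0, 0⟩⟩⟩,
   ⟨⟨⟨1, 1, 0⟩, ⟨0, 1, 1⟩, ⟨0, 0, 2⟩⟩, 2, ⟨⟨0, 0, 0⟩, ⟨0, 0, 0⟩, ⟨0, 0, 0⟩⟩⟩,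
   ⟨⟨⟨1, 1, 0⟩, ⟨0, 1, 1⟩, ⟨0, 0, 2⟩⟩, 2, ⟨⟨0, 0, 0⟩, ⟨0, 0, 0⟩, ⟨0, 0, 0⟩⟩⟩]

def cubRow21 : Row :=
  ⟨[⟨⟨1, 0, 0⟩, ⟨0, -1, 0⟩, ⟨0, 0, -1⟩⟩, ⟨⟨-1, 0, 0⟩, ⟨0, 1, 0⟩, ⟨0, 0, -1⟩⟩], ⟨⟨0, 1, 0⟩, ⟨0, 0, 1⟩, ⟨-1, 0, 0⟩⟩, ⟨⟨0, 0, -1⟩, ⟨1, 0, 0⟩, ⟨0, 1, 0⟩⟩, 4,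
   [⟨⟨⟨1, 0, 0⟩, ⟨0, 1, 0⟩, ⟨0, 0, 1⟩⟩, ⟨⟨0, 0, 0⟩, ⟨0, 0, 0⟩, ⟨0, 0, 0⟩⟩⟩,
    ⟨⟨⟨1, 0, 0⟩, ⟨0, -1, 0⟩, ⟨0, 0, -1⟩⟩, ⟨⟨0, 0, 0⟩, ⟨0, 0, 0⟩, ⟨0, 0, 0⟩⟩⟩,
    ⟨⟨⟨-1, 0, 0⟩, ⟨0, 1, 0⟩, ⟨0, 0, -1⟩⟩, ⟨⟨0, 0, 0⟩, ⟨0, 0, 0⟩, ⟨0, 0, 0⟩⟩⟩,
    ⟨⟨⟨-1, 0, 0⟩, ⟨0, -1, 0⟩, ⟨0, 0, 1⟩⟩, ⟨⟨0, 0, 0⟩, ⟨0, 0, 0⟩, ⟨0, 0, 0⟩⟩⟩,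
    ⟨⟨⟨0, 1, 0⟩, ⟨0, 0, 1⟩, ⟨-1, 0, 0⟩⟩, ⟨⟨1, 0, 0⟩, ⟨0, 1, 0⟩, ⟨0, 0, 1⟩⟩⟩,
    ⟨⟨⟨0, 0, -1⟩, ⟨1, 0, 0⟩, ⟨0, 1, 0⟩⟩, ⟨⟨0, 0, 1⟩, ⟨-1, 0, 0⟩, ⟨0, -1, 0⟩⟩⟩,
    ⟨⟨⟨0, 1, 0⟩, ⟨0, 0, -1⟩, ⟨1, 0, 0⟩⟩, ⟨⟨1, 0, 0⟩, ⟨0, -1, 0⟩, ⟨0, 0, -1⟩⟩⟩,
    ⟨⟨⟨0, 0, -1⟩, ⟨-1, 0, 0⟩, ⟨0, -1, 0⟩⟩, ⟨⟨0, 0, 1⟩, ⟨1, 0, 0⟩, ⟨0, 1, 0⟩⟩⟩,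
    ⟨⟨⟨0, -1, 0⟩, ⟨0, 0, 1⟩, ⟨1, 0, 0⟩⟩, ⟨⟨-1, 0, 0⟩, ⟨0, 1, 0⟩, ⟨0, 0, -1⟩⟩⟩,
    ⟨⟨⟨0, 0, 1⟩, ⟨1, 0, 0⟩, ⟨0, -1, 0⟩⟩, ⟨⟨0, 0, -1⟩, ⟨-1, 0, 0⟩, ⟨0, 1, 0⟩⟩⟩,
    ⟨⟨⟨0, -1, 0⟩, ⟨0, 0, -1⟩, ⟨-1, 0, 0⟩⟩, ⟨⟨-1, 0, 0⟩, ⟨0, -1, 0⟩, ⟨0, 0, 1⟩⟩⟩,
    ⟨⟨⟨0, 0, 1⟩, ⟨-1, 0, 0⟩, ⟨0, 1, 0⟩⟩, ⟨⟨0, 0, -1⟩, ⟨1, 0, 0⟩, ⟨0, -1, 0⟩⟩⟩,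
    ⟨⟨⟨0, 0, 1⟩, ⟨-1, 0, 0⟩, ⟨0, -1, 0⟩⟩, ⟨⟨1, 1, 0⟩, ⟨0, 1, 1⟩, ⟨-1, 0, 1⟩⟩⟩,
    ⟨⟨⟨0, -1, 0⟩, ⟨0, 0, -1⟩, ⟨1, 0, 0⟩⟩, ⟨⟨0, 1, 1⟩, ⟨-1, 0, 1⟩, ⟨-1, -1, 0⟩⟩⟩,
    ⟨⟨⟨0, 0, 1⟩, ⟨1, 0, 0⟩, ⟨0, 1, 0⟩⟩, ⟨⟨1, 1, 0⟩, ⟨0, -1, -1⟩, ⟨1, 0, -1⟩⟩⟩,
    ⟨⟨⟨0, -1, 0⟩, ⟨0, 0, 1⟩, ⟨-1, 0, 0⟩⟩, ⟨⟨0, 1, 1⟩, ⟨1, 0, -1⟩, ⟨1, 1, 0⟩⟩⟩,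
    ⟨⟨⟨0, 0, -1⟩, ⟨-1, 0, 0⟩, ⟨0, 1, 0⟩⟩, ⟨⟨-1, -1, 0⟩, ⟨0, 1, 1⟩, ⟨1, 0, -1⟩⟩⟩,
    ⟨⟨⟨0, 1, 0⟩, ⟨0, 0, -1⟩, ⟨-1, 0, 0⟩⟩, ⟨⟨0, -1, -1⟩, ⟨-1, 0, 1⟩, ⟨1, 1, 0⟩⟩⟩,
    ⟨⟨⟨0, 0, -1⟩, ⟨1, 0, 0⟩, ⟨0, -1, 0⟩⟩, ⟨⟨-1, -1, 0⟩, ⟨0, -1, -1⟩, ⟨-1, 0, 1⟩⟩⟩,
    ⟨⟨⟨0, 1, 0⟩, ⟨0, 0, 1⟩, ⟨1, 0, 0⟩⟩, ⟨⟨0, -1, -1⟩, ⟨1, 0, -1⟩, ⟨-1, -1, 0⟩⟩⟩,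
    ⟨⟨⟨-1, 0, 0⟩, ⟨0, -1, 0⟩, ⟨0, 0, -1⟩⟩, ⟨⟨1, 1, 1⟩, ⟨-1, 1, 1⟩, ⟨-1, -1, 1⟩⟩⟩,
    ⟨⟨⟨-1, 0, 0⟩, ⟨0, 1, 0⟩, ⟨0, 0, 1⟩⟩, ⟨⟨1, 1, 1⟩, ⟨1, -1, -1⟩, ⟨1, 1, -1⟩⟩⟩,
    ⟨⟨⟨1, 0, 0⟩, ⟨0, -1, 0⟩, ⟨0, 0, 1⟩⟩, ⟨⟨-1, -1, -1⟩, ⟨-1, 1, 1⟩, ⟨1, 1, -1⟩⟩⟩,
    ⟨⟨⟨1, 0, 0⟩, ⟨0, 1, 0⟩, ⟨0, 0, -1⟩⟩, ⟨⟨-1, -1, -1⟩, ⟨1, -1, -1⟩, ⟨-1, -1, 1⟩⟩⟩],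
   [(0, 0), (0, 1), (1, 1), (0, 2), (0, 3), (1, 2), (1, 3), (2, 2), (2, 3), (3, 2), (3, 3), (4, 2), (5, 3), (6, 2), (7, 3), (8, 2), (9, 3), (10, 2), (11, 3), (12, 2), (14, 2), (16, 2), (18, 2)],
   [⟨⟨0, 0, 0⟩, ⟨0, 0, 0⟩, ⟨0, 0, 0⟩⟩,
    ⟨⟨2, 0, 0⟩, ⟨0, 2, 0⟩, ⟨0, 0, 0⟩⟩,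
    ⟨⟨0, 0, 0⟩, ⟨0, 2, 0⟩, ⟨0, 0, 2⟩⟩,
    ⟨⟨0, 0, 2⟩, ⟨0, 0, 0⟩, ⟨0, -2, 0⟩⟩,
    ⟨⟨0, 0, 2⟩, ⟨-2, 0, 0⟩, ⟨0, 0, 0⟩⟩,
    ⟨⟨2, 0, 0⟩, ⟨0, -2, 0⟩, ⟨0, 0, 0⟩⟩,
    ⟨⟨0, 0, 0⟩, ⟨0, -2, 0⟩, ⟨0, 0, -2⟩⟩,
    ⟨⟨0, 0, 2⟩, ⟨0, 0, 0⟩, ⟨0, 2, 0⟩⟩,
    ⟨⟨0, 0, 2⟩, ⟨2, 0, 0⟩, ⟨0, 0, 0⟩⟩,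
    ⟨⟨-2, 0, 0⟩, ⟨0, 2, 0⟩, ⟨0, 0, 0⟩⟩,
    ⟨⟨0, 0, 0⟩, ⟨0, 2, 0⟩, ⟨0, 0, -2⟩⟩,
    ⟨⟨0, 0, -2⟩, ⟨0, 0, 0⟩, ⟨0, 2, 0⟩⟩,
    ⟨⟨0, 0, -2⟩, ⟨-2, 0, 0⟩, ⟨0, 0, 0⟩⟩,
    ⟨⟨-2, 0, 0⟩, ⟨0, -2, 0⟩, ⟨0, 0, 0⟩⟩,
    ⟨⟨0, 0, 0⟩, ⟨0, -2, 0⟩, ⟨0, 0, 2⟩⟩,
    ⟨⟨0, 0, -2⟩, ⟨0, 0, 0⟩, ⟨0, -2, 0⟩⟩,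
    ⟨⟨0, 0, -2⟩, ⟨2, 0, 0⟩, ⟨0, 0, 0⟩⟩,
    ⟨⟨2, 2, 0⟩, ⟨0, 0, 0⟩, ⟨-2, 0, 2⟩⟩,
    ⟨⟨2, 2, 0⟩, ⟨0, 2, 2⟩, ⟨0, 0, 0⟩⟩,
    ⟨⟨0, 2, 2⟩, ⟨-2, 0, 2⟩, ⟨0, 0, 0⟩⟩,
    ⟨⟨0, 0, 0⟩, ⟨-2, 0, 2⟩, ⟨-2, -2, 0⟩⟩,
    ⟨⟨2, 2, 0⟩, ⟨0, 0, 0⟩, ⟨2, 0, -2⟩⟩,
    ⟨⟨2, 2, 0⟩, ⟨0, -2, -2⟩, ⟨0, 0, 0⟩⟩,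
    ⟨⟨0, 2, 2⟩, ⟨2, 0, -2⟩, ⟨0, 0, 0⟩⟩,
    ⟨⟨0, 0, 0⟩, ⟨2, 0, -2⟩, ⟨2, 2, 0⟩⟩,
    ⟨⟨-2, -2, 0⟩, ⟨0, 0, 0⟩, ⟨2, 0, -2⟩⟩,
    ⟨⟨-2, -2, 0⟩, ⟨0, 2, 2⟩, ⟨0, 0, 0⟩⟩,
    ⟨⟨0, -2, -2⟩, ⟨-2, 0, 2⟩, ⟨0, 0, 0⟩⟩,
    ⟨⟨0, 0, 0⟩, ⟨-2, 0, 2⟩, ⟨2, 2, 0⟩⟩,
    ⟨⟨-2, -2, 0⟩, ⟨0, 0, 0⟩, ⟨-2, 0, 2⟩⟩,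
    ⟨⟨-2, -2, 0⟩, ⟨0, -2, -2⟩, ⟨0, 0, 0⟩⟩,
    ⟨⟨0, -2, -2⟩, ⟨2, 0, -2⟩, ⟨0, 0, 0⟩⟩,
    ⟨⟨0, 0, 0⟩, ⟨2, 0, -2⟩, ⟨-2, -2, 0⟩⟩,
    ⟨⟨0, 0, 0⟩, ⟨-2, 2, 2⟩, ⟨-2, -2, 2⟩⟩,
    ⟨⟨2, 2, 2⟩, ⟨0, 0, 0⟩, ⟨-2, -2, 2⟩⟩,
    ⟨⟨0, 0, 0⟩, ⟨2, -2, -2⟩, ⟨2, 2, -2⟩⟩,
    ⟨⟨2, 2, 2⟩, ⟨0, 0, 0⟩, ⟨2, 2, -2⟩⟩,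
    ⟨⟨0, 0, 0⟩, ⟨-2, 2, 2⟩, ⟨2, 2, -2⟩⟩,
    ⟨⟨-2, -2, -2⟩, ⟨0, 0, 0⟩, ⟨2, 2, -2⟩⟩,
    ⟨⟨0, 0, 0⟩, ⟨2, -2, -2⟩, ⟨-2, -2, 2⟩⟩,
    ⟨⟨-2, -2, -2⟩, ⟨0, 0, 0⟩, ⟨-2, -2, 2⟩⟩],
   [[(1, 0), (2, 0), (4, 0), (5, 0)],
    [(0, 0), (3, 0), (6, 0), (7, 0)],
    [(3, 0), (0, 0), (8, 0), (9, 0)],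
    [(2, 0), (1, 0), (10, 0), (11, 0)],
    [(10, 1), (6, 2), (12, 0), (0, 0)],
    [(9, 3), (11, 4), (0, 0), (13, 0)],
    [(8, 5), (4, 6), (14, 0), (1, 0)],
    [(11, 7), (9, 8), (1, 0), (15, 0)],
    [(6, 9), (10, 10), (16, 0), (2, 0)],
    [(5, 11), (7, 12), (2, 0), (17, 0)],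
    [(4, 13), (8, 14), (18, 0), (3, 0)],
    [(7, 15), (5, 16), (3, 0), (19, 0)],
    [(16, 17), (18, 18), (20, 0), (4, 0)],
    [(19, 19), (15, 20), (5, 0), (20, 0)],
    [(18, 21), (16, 22), (21, 0), (6, 0)],
    [(17, 23), (13, 24), (7, 0), (21, 0)],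
    [(12, 25), (14, 26), (22, 0), (8, 0)],
    [(15, 27), (19, 28), (9, 0), (22, 0)],
    [(14, 29), (12, 30), (23, 0), (10, 0)],
    [(13, 31), (17, 32), (11, 0), (23, 0)],
    [(21, 33), (22, 34), (13, 0), (12, 0)],
    [(20, 35), (23, 36), (15, 0), (14, 0)],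
    [(23, 37), (20, 38), (17, 0), (16, 0)],
    [(22, 39), (21, 40), (19, 0), (18, 0)]]⟩

def cubLat21 : List LatE :=
  [⟨⟨⟨1, 0, 0⟩, ⟨0, 1, 0⟩, ⟨0, 0, 1⟩⟩, 1, ⟨⟨0, 0, 0⟩, ⟨0, 0, 0⟩, ⟨0, 0, 0⟩⟩⟩,
   ⟨⟨⟨1, 0, 0⟩, ⟨0, 1, 0⟩, ⟨0, 0, 1⟩⟩, 1, ⟨⟨0, 0, 0⟩, ⟨0, 0, 0⟩, ⟨0, 0, 0⟩⟩⟩,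
   ⟨⟨⟨1, 0, 0⟩, ⟨0, 1, 0⟩, ⟨0, 0, 1⟩⟩, 1, ⟨⟨0, 0, 0⟩, ⟨0, 0, 0⟩, ⟨0, 0, 0⟩⟩⟩]

def cubRow22 : Row :=
  ⟨[⟨⟨1, 0, 0⟩, ⟨0, -1, 0⟩, ⟨0, 0, -1⟩⟩, ⟨⟨-1, 0, 0⟩, ⟨0, 1, 0⟩, ⟨0, 0, 1⟩⟩], ⟨⟨0, 1, 0⟩, ⟨0, 0, 1⟩, ⟨1, 0, 0⟩⟩, ⟨⟨0, 0, 1⟩, ⟨1, 0, 0⟩, ⟨0, 1, 0⟩⟩, 4,
   [⟨⟨⟨1, 0, 0⟩, ⟨0, 1, 0⟩, ⟨0, 0, 1⟩⟩, ⟨⟨0, 0, 0⟩, ⟨0, 0, 0⟩, ⟨0, 0, 0⟩⟩⟩,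
    ⟨⟨⟨1, 0, 0⟩, ⟨0, -1, 0⟩, ⟨0, 0, -1⟩⟩, ⟨⟨0, 0, 0⟩, ⟨0, 0, 0⟩, ⟨0, 0, 0⟩⟩⟩,
    ⟨⟨⟨-1, 0, 0⟩, ⟨0, 1, 0⟩, ⟨0, 0, 1⟩⟩, ⟨⟨0, 0, 0⟩, ⟨0, 0, 0⟩, ⟨0, 0, 0⟩⟩⟩,
    ⟨⟨⟨-1, 0, 0⟩, ⟨0, -1, 0⟩, ⟨0, 0, -1⟩⟩, ⟨⟨0, 0, 0⟩, ⟨0, 0, 0⟩, ⟨0, 0, 0⟩⟩⟩,
    ⟨⟨⟨0, 1, 0⟩, ⟨0, 0, 1⟩, ⟨1, 0, 0⟩⟩, ⟨⟨1, 0, 0⟩, ⟨0, 1, 0⟩, ⟨0, 0, 1⟩⟩⟩,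
    ⟨⟨⟨0, 0, 1⟩, ⟨1, 0, 0⟩, ⟨0, 1, 0⟩⟩, ⟨⟨0, 0, -1⟩, ⟨-1, 0, 0⟩, ⟨0, -1, 0⟩⟩⟩,
    ⟨⟨⟨0, 1, 0⟩, ⟨0, 0, -1⟩, ⟨-1, 0, 0⟩⟩, ⟨⟨1, 0, 0⟩, ⟨0, -1, 0⟩, ⟨0, 0, -1⟩⟩⟩,
    ⟨⟨⟨0, 0, 1⟩, ⟨-1, 0, 0⟩, ⟨0, -1, 0⟩⟩, ⟨⟨0, 0, -1⟩, ⟨1, 0, 0⟩, ⟨0, 1, 0⟩⟩⟩,
    ⟨⟨⟨0, -1, 0⟩, ⟨0, 0, 1⟩, ⟨1, 0, 0⟩⟩, ⟨⟨-1, 0, 0⟩, ⟨0, 1, 0⟩, ⟨0, 0, 1⟩⟩⟩,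
    ⟨⟨⟨0, 0, -1⟩, ⟨1, 0, 0⟩, ⟨0, 1, 0⟩⟩, ⟨⟨0, 0, 1⟩, ⟨-1, 0, 0⟩, ⟨0, -1, 0⟩⟩⟩,
    ⟨⟨⟨0, -1, 0⟩, ⟨0, 0, -1⟩, ⟨-1, 0, 0⟩⟩, ⟨⟨-1, 0, 0⟩, ⟨0, -1, 0⟩, ⟨0, 0, -1⟩⟩⟩,
    ⟨⟨⟨0, 0, -1⟩, ⟨-1, 0, 0⟩, ⟨0, -1, 0⟩⟩, ⟨⟨0, 0, 1⟩, ⟨1, 0, 0⟩, ⟨0, 1, 0⟩⟩⟩,
    ⟨⟨⟨0, -1, 0⟩, ⟨0, 0, -1⟩, ⟨1, 0, 0⟩⟩, ⟨⟨1, 0, 0⟩, ⟨0, 1, 0⟩, ⟨0, 0, 1⟩⟩⟩,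
    ⟨⟨⟨0, 1, 0⟩, ⟨0, 0, 1⟩, ⟨-1, 0, 0⟩⟩, ⟨⟨1, 0, 0⟩, ⟨0, 1, 0⟩, ⟨0, 0, 1⟩⟩⟩,
    ⟨⟨⟨0, 0, -1⟩, ⟨1, 0, 0⟩, ⟨0, -1, 0⟩⟩, ⟨⟨0, 0, -1⟩, ⟨-1, 0, 0⟩, ⟨0, -1, 0⟩⟩⟩,
    ⟨⟨⟨0, 0, 1⟩, ⟨-1, 0, 0⟩, ⟨0, 1, 0⟩⟩, ⟨⟨0, 0, -1⟩, ⟨-1, 0, 0⟩, ⟨0, -1, 0⟩⟩⟩,
    ⟨⟨⟨0, -1, 0⟩, ⟨0, 0, 1⟩, ⟨-1, 0, 0⟩⟩, ⟨⟨1, 0, 0⟩, ⟨0, -1, 0⟩, ⟨0, 0, -1⟩⟩⟩,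
    ⟨⟨⟨0, 1, 0⟩, ⟨0, 0, -1⟩, ⟨1, 0, 0⟩⟩, ⟨⟨1, 0, 0⟩, ⟨0, -1, 0⟩, ⟨0, 0, -1⟩⟩⟩,
    ⟨⟨⟨0, 0, -1⟩, ⟨-1, 0, 0⟩, ⟨0, 1, 0⟩⟩, ⟨⟨0, 0, -1⟩, ⟨1, 0, 0⟩, ⟨0, 1, 0⟩⟩⟩,
    ⟨⟨⟨0, 0, 1⟩, ⟨1, 0, 0⟩, ⟨0, -1, 0⟩⟩, ⟨⟨0, 0, -1⟩, ⟨1, 0, 0⟩, ⟨0, 1, 0⟩⟩⟩,
    ⟨⟨⟨-1, 0, 0⟩, ⟨0, -1, 0⟩, ⟨0, 0, 1⟩⟩, ⟨⟨2, 0, 0⟩, ⟨0, 2, 0⟩, ⟨0, 0, 0⟩⟩⟩,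
    ⟨⟨⟨1, 0, 0⟩, ⟨0, 1, 0⟩, ⟨0, 0, -1⟩⟩, ⟨⟨0, 0, 0⟩, ⟨0, 0, 0⟩, ⟨0, 0, 2⟩⟩⟩,
    ⟨⟨⟨-1, 0, 0⟩, ⟨0, 1, 0⟩, ⟨0, 0, -1⟩⟩, ⟨⟨0, 0, -2⟩, ⟨0, 0, 0⟩, ⟨0, -2, 0⟩⟩⟩,
    ⟨⟨⟨1, 0, 0⟩, ⟨0, -1, 0⟩, ⟨0, 0, 1⟩⟩, ⟨⟨0, 0, 0⟩, ⟨-2, 0, 0⟩, ⟨0, 0, 0⟩⟩⟩],
   [(0, 0), (0, 1), (1, 1), (0, 2), (0, 3), (1, 2), (1, 3), (2, 2), (2, 3), (3, 2), (3, 3), (4, 0), (4, 1), (5, 0), (5, 1), (6, 0), (6, 1), (7, 0), (7, 1), (12, 3), (13, 3), (14, 2), (15, 2)],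
   [⟨⟨0, 0, 0⟩, ⟨0, 0, 0⟩, ⟨0, 0, 0⟩⟩,
    ⟨⟨1, 1, 1⟩, ⟨1, 1, 1⟩, ⟨1, 1, 1⟩⟩,
    ⟨⟨-1, -1, -1⟩, ⟨-1, -1, -1⟩, ⟨-1, -1, -1⟩⟩,
    ⟨⟨1, 1, 1⟩, ⟨-1, -1, -1⟩, ⟨-1, -1, -1⟩⟩,
    ⟨⟨-1, -1, -1⟩, ⟨1, 1, 1⟩, ⟨1, 1, 1⟩⟩,
    ⟨⟨-2, 0, 0⟩, ⟨0, 2, 0⟩, ⟨0, 0, 2⟩⟩,
    ⟨⟨0, 0, 2⟩, ⟨-2, 0, 0⟩, ⟨0, -2, 0⟩⟩,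
    ⟨⟨-2, 0, 0⟩, ⟨0, -2, 0⟩, ⟨0, 0, -2⟩⟩,
    ⟨⟨0, 0, 2⟩, ⟨2, 0, 0⟩, ⟨0, 2, 0⟩⟩,
    ⟨⟨2, 0, 0⟩, ⟨0, 2, 0⟩, ⟨0, 0, 2⟩⟩,
    ⟨⟨1, -1, 1⟩, ⟨-1, 1, -1⟩, ⟨1, -1, 1⟩⟩,
    ⟨⟨1, 1, 1⟩, ⟨-1, 1, 1⟩, ⟨-1, -1, 1⟩⟩,
    ⟨⟨0, 0, -2⟩, ⟨-2, 0, 0⟩, ⟨0, -2, 0⟩⟩,
    ⟨⟨-1, 1, -1⟩, ⟨-1, 1, -1⟩, ⟨1, -1, 1⟩⟩,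
    ⟨⟨-1, -1, -1⟩, ⟨-1, 1, 1⟩, ⟨-1, -1, 1⟩⟩,
    ⟨⟨2, 0, 0⟩, ⟨0, -2, 0⟩, ⟨0, 0, -2⟩⟩,
    ⟨⟨1, -1, 1⟩, ⟨1, -1, 1⟩, ⟨-1, 1, -1⟩⟩,
    ⟨⟨2, 0, 2⟩, ⟨0, -2, 0⟩, ⟨0, 2, 0⟩⟩,
    ⟨⟨1, 1, 1⟩, ⟨1, -1, -1⟩, ⟨1, 1, -1⟩⟩,
    ⟨⟨0, 0, 0⟩, ⟨2, 0, 0⟩, ⟨0, 0, -2⟩⟩,
    ⟨⟨0, 0, -2⟩, ⟨2, 0, 0⟩, ⟨0, 2, 0⟩⟩,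
    ⟨⟨-2, 0, -2⟩, ⟨0, -2, 0⟩, ⟨0, 2, 0⟩⟩,
    ⟨⟨-1, 1, -1⟩, ⟨1, -1, 1⟩, ⟨-1, 1, -1⟩⟩,
    ⟨⟨-1, -1, -1⟩, ⟨1, -1, -1⟩, ⟨1, 1, -1⟩⟩,
    ⟨⟨2, 0, 2⟩, ⟨0, 2, 0⟩, ⟨0, 2, 0⟩⟩,
    ⟨⟨2, 0, 0⟩, ⟨2, 2, 0⟩, ⟨0, 0, 0⟩⟩,
    ⟨⟨2, 0, 2⟩, ⟨0, 2, 0⟩, ⟨0, -2, 0⟩⟩,
    ⟨⟨0, 0, 0⟩, ⟨2, 0, 0⟩, ⟨0, 0, 2⟩⟩,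
    ⟨⟨0, 0, 2⟩, ⟨0, 0, 0⟩, ⟨0, 2, 2⟩⟩,
    ⟨⟨0, 0, 0⟩, ⟨-2, 0, 0⟩, ⟨0, 0, 2⟩⟩,
    ⟨⟨-2, 0, -2⟩, ⟨0, -2, 0⟩, ⟨0, -2, 0⟩⟩,
    ⟨⟨0, 0, -2⟩, ⟨0, 0, 0⟩, ⟨0, -2, -2⟩⟩,
    ⟨⟨-2, 0, -2⟩, ⟨0, 2, 0⟩, ⟨0, -2, 0⟩⟩,
    ⟨⟨0, 0, 0⟩, ⟨-2, 0, 0⟩, ⟨0, 0, -2⟩⟩,
    ⟨⟨-2, 0, 0⟩, ⟨-2, -2, 0⟩, ⟨0, 0, 0⟩⟩],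
   [[(1, 0), (2, 0), (4, 0), (5, 0)],
    [(0, 0), (3, 0), (6, 0), (7, 0)],
    [(3, 0), (0, 0), (8, 0), (9, 0)],
    [(2, 0), (1, 0), (10, 0), (11, 0)],
    [(12, 0), (13, 0), (5, 1), (0, 0)],
    [(14, 0), (15, 0), (0, 0), (4, 2)],
    [(16, 0), (17, 0), (7, 3), (1, 0)],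
    [(18, 0), (19, 0), (1, 0), (6, 4)],
    [(17, 5), (16, 5), (9, 4), (2, 0)],
    [(19, 6), (18, 6), (2, 0), (8, 3)],
    [(13, 7), (12, 7), (11, 2), (3, 0)],
    [(15, 8), (14, 8), (3, 0), (10, 1)],
    [(4, 0), (10, 9), (18, 10), (20, 0)],
    [(10, 9), (4, 0), (19, 11), (21, 0)],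
    [(5, 0), (11, 12), (22, 0), (16, 13)],
    [(11, 12), (5, 0), (23, 0), (17, 14)],
    [(6, 0), (8, 15), (14, 16), (22, 17)],
    [(8, 15), (6, 0), (15, 18), (23, 19)],
    [(7, 0), (9, 20), (20, 21), (12, 22)],
    [(9, 20), (7, 0), (21, 19), (13, 23)],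
    [(22, 24), (23, 25), (12, 0), (18, 26)],
    [(23, 27), (22, 28), (13, 0), (19, 29)],
    [(20, 30), (21, 31), (16, 32), (14, 0)],
    [(21, 33), (20, 34), (17, 29), (15, 0)]]⟩

def cubLat22 : List LatE :=
  [⟨⟨⟨1, 1, 1⟩, ⟨0, 2, 0⟩, ⟨0, 0, 2⟩⟩, 2, ⟨⟨0, 0, 0⟩, ⟨0, 0, 0⟩, ⟨0, 0, 0⟩⟩⟩]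

def cubRow23 : Row :=
  ⟨[⟨⟨1, 0, 0⟩, ⟨0, -1, 0⟩, ⟨0, 0, 1⟩⟩, ⟨⟨-1, 0, 0⟩, ⟨0, 1, 0⟩, ⟨0, 0, 1⟩⟩], ⟨⟨0, 1, 0⟩, ⟨0, 0, 1⟩, ⟨1, 0, 0⟩⟩, ⟨⟨0, 0, 1⟩, ⟨1, 0, 0⟩, ⟨0, 1, 0⟩⟩, 4,
   [⟨⟨⟨1, 0, 0⟩, ⟨0, 1, 0⟩, ⟨0, 0, 1⟩⟩, ⟨⟨0, 0, 0⟩, ⟨0, 0, 0⟩, ⟨0, 0, 0⟩⟩⟩,
    ⟨⟨⟨1, 0, 0⟩, ⟨0, -1, 0⟩, ⟨0, 0, 1⟩⟩, ⟨⟨0, 0, 0⟩, ⟨0, 0, 0⟩, ⟨0, 0, 0⟩⟩⟩,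
    ⟨⟨⟨-1, 0, 0⟩, ⟨0, 1, 0⟩, ⟨0, 0, 1⟩⟩, ⟨⟨0, 0, 0⟩, ⟨0, 0, 0⟩, ⟨0, 0, 0⟩⟩⟩,
    ⟨⟨⟨-1, 0, 0⟩, ⟨0, -1, 0⟩, ⟨0, 0, 1⟩⟩, ⟨⟨0, 0, 0⟩, ⟨0, 0, 0⟩, ⟨0, 0, 0⟩⟩⟩,
    ⟨⟨⟨0, 1, 0⟩, ⟨0, 0, 1⟩, ⟨1, 0, 0⟩⟩, ⟨⟨1, 0, 0⟩, ⟨0, 1, 0⟩, ⟨0, 0, 1⟩⟩⟩,
    ⟨⟨⟨0, 0, 1⟩, ⟨1, 0, 0⟩, ⟨0, 1, 0⟩⟩, ⟨⟨0, 0, -1⟩, ⟨-1, 0, 0⟩, ⟨0, -1, 0⟩⟩⟩,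
    ⟨⟨⟨0, 1, 0⟩, ⟨0, 0, -1⟩, ⟨1, 0, 0⟩⟩, ⟨⟨1, 0, 0⟩, ⟨0, -1, 0⟩, ⟨0, 0, 1⟩⟩⟩,
    ⟨⟨⟨0, 0, 1⟩, ⟨-1, 0, 0⟩, ⟨0, 1, 0⟩⟩, ⟨⟨0, 0, -1⟩, ⟨1, 0, 0⟩, ⟨0, -1, 0⟩⟩⟩,
    ⟨⟨⟨0, -1, 0⟩, ⟨0, 0, 1⟩, ⟨1, 0, 0⟩⟩, ⟨⟨-1, 0, 0⟩, ⟨0, 1, 0⟩, ⟨0, 0, 1⟩⟩⟩,
    ⟨⟨⟨0, 0, -1⟩, ⟨1, 0, 0⟩, ⟨0, 1, 0⟩⟩, ⟨⟨0, 0, 1⟩, ⟨-1, 0, 0⟩, ⟨0, -1, 0⟩⟩⟩,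
    ⟨⟨⟨0, -1, 0⟩, ⟨0, 0, -1⟩, ⟨1, 0, 0⟩⟩, ⟨⟨-1, 0, 0⟩, ⟨0, -1, 0⟩, ⟨0, 0, 1⟩⟩⟩,
    ⟨⟨⟨0, 0, -1⟩, ⟨-1, 0, 0⟩, ⟨0, 1, 0⟩⟩, ⟨⟨0, 0, 1⟩, ⟨1, 0, 0⟩, ⟨0, -1, 0⟩⟩⟩,
    ⟨⟨⟨0, 1, 0⟩, ⟨0, 0, 1⟩, ⟨-1, 0, 0⟩⟩, ⟨⟨1, 0, 0⟩, ⟨0, 1, 0⟩, ⟨0, 0, 1⟩⟩⟩,
    ⟨⟨⟨0, 0, 1⟩, ⟨1, 0, 0⟩, ⟨0, -1, 0⟩⟩, ⟨⟨0, 0, -1⟩, ⟨-1, 0, 0⟩, ⟨0, -1, 0⟩⟩⟩,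
    ⟨⟨⟨0, 1, 0⟩, ⟨0, 0, -1⟩, ⟨-1, 0, 0⟩⟩, ⟨⟨1, 0, 0⟩, ⟨0, -1, 0⟩, ⟨0, 0, 1⟩⟩⟩,
    ⟨⟨⟨0, 0, 1⟩, ⟨-1, 0, 0⟩, ⟨0, -1, 0⟩⟩, ⟨⟨0, 0, -1⟩, ⟨1, 0, 0⟩, ⟨0, -1, 0⟩⟩⟩,
    ⟨⟨⟨0, -1, 0⟩, ⟨0, 0, 1⟩, ⟨-1, 0, 0⟩⟩, ⟨⟨-1, 0, 0⟩, ⟨0, 1, 0⟩, ⟨0, 0, 1⟩⟩⟩,
    ⟨⟨⟨0, 0, -1⟩, ⟨1, 0, 0⟩, ⟨0, -1, 0⟩⟩, ⟨⟨0, 0, 1⟩, ⟨-1, 0, 0⟩, ⟨0, -1, 0⟩⟩⟩,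
    ⟨⟨⟨0, -1, 0⟩, ⟨0, 0, -1⟩, ⟨-1, 0, 0⟩⟩, ⟨⟨-1, 0, 0⟩, ⟨0, -1, 0⟩, ⟨0, 0, 1⟩⟩⟩,
    ⟨⟨⟨0, 0, -1⟩, ⟨-1, 0, 0⟩, ⟨0, -1, 0⟩⟩, ⟨⟨0, 0, 1⟩, ⟨1, 0, 0⟩, ⟨0, -1, 0⟩⟩⟩,
    ⟨⟨⟨1, 0, 0⟩, ⟨0, 1, 0⟩, ⟨0, 0, -1⟩⟩, ⟨⟨0, 0, 0⟩, ⟨0, 0, 0⟩, ⟨0, 0, 2⟩⟩⟩,
    ⟨⟨⟨1, 0, 0⟩, ⟨0, -1, 0⟩, ⟨0, 0, -1⟩⟩, ⟨⟨0, 0, 0⟩, ⟨0, 0, 0⟩, ⟨0, 0, 2⟩⟩⟩,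
    ⟨⟨⟨-1, 0, 0⟩, ⟨0, 1, 0⟩, ⟨0, 0, -1⟩⟩, ⟨⟨0, 0, 0⟩, ⟨0, 0, 0⟩, ⟨0, 0, 2⟩⟩⟩,
    ⟨⟨⟨-1, 0, 0⟩, ⟨0, -1, 0⟩, ⟨0, 0, -1⟩⟩, ⟨⟨0, 0, 0⟩, ⟨0, 0, 0⟩, ⟨0, 0, 2⟩⟩⟩],
   [(0, 0), (0, 1), (1, 1), (0, 2), (0, 3), (1, 2), (1, 3), (2, 2), (2, 3), (3, 2), (3, 3), (4, 1), (5, 0), (6, 1), (7, 0), (8, 1), (9, 0), (10, 1), (11, 0), (12, 3), (14, 3), (16, 3), (18, 3)],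
   [⟨⟨0, 0, 0⟩, ⟨0, 0, 0⟩, ⟨0, 0, 0⟩⟩,
    ⟨⟨2, 0, 0⟩, ⟨0, 0, 0⟩, ⟨0, 0, 0⟩⟩,
    ⟨⟨1, 1, 1⟩, ⟨1, 1, 1⟩, ⟨1, 1, 1⟩⟩,
    ⟨⟨0, 0, 0⟩, ⟨-2, 0, 0⟩, ⟨0, 0, 0⟩⟩,
    ⟨⟨-1, -1, -1⟩, ⟨-1, -1, -1⟩, ⟨-1, -1, -1⟩⟩,
    ⟨⟨1, 1, 1⟩, ⟨-1, -1, -1⟩, ⟨1, 1, 1⟩⟩,
    ⟨⟨0, 0, 0⟩, ⟨2, 0, 0⟩, ⟨0, 0, 0⟩⟩,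
    ⟨⟨-1, -1, -1⟩, ⟨1, 1, 1⟩, ⟨-1, -1, -1⟩⟩,
    ⟨⟨-2, 0, 0⟩, ⟨0, 0, 0⟩, ⟨0, 0, 0⟩⟩,
    ⟨⟨-1, -1, -1⟩, ⟨1, 1, 1⟩, ⟨1, 1, 1⟩⟩,
    ⟨⟨1, 1, 1⟩, ⟨-1, -1, -1⟩, ⟨-1, -1, -1⟩⟩,
    ⟨⟨-1, -1, -1⟩, ⟨-1, -1, -1⟩, ⟨1, 1, 1⟩⟩,
    ⟨⟨1, 1, 1⟩, ⟨1, 1, 1⟩, ⟨-1, -1, -1⟩⟩,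
    ⟨⟨1, 1, 1⟩, ⟨1, 1, 1⟩, ⟨-1, 1, 1⟩⟩,
    ⟨⟨0, 0, 0⟩, ⟨0, 0, 0⟩, ⟨0, -2, -2⟩⟩,
    ⟨⟨-1, -1, -1⟩, ⟨-1, -1, -1⟩, ⟨1, -1, -1⟩⟩,
    ⟨⟨1, 1, 1⟩, ⟨-1, -1, -1⟩, ⟨-1, 1, 1⟩⟩,
    ⟨⟨-1, -1, -1⟩, ⟨1, 1, 1⟩, ⟨1, -1, -1⟩⟩,
    ⟨⟨-1, -1, -1⟩, ⟨1, 1, 1⟩, ⟨-1, 1, 1⟩⟩,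
    ⟨⟨1, 1, 1⟩, ⟨-1, -1, -1⟩, ⟨1, -1, -1⟩⟩,
    ⟨⟨-1, -1, -1⟩, ⟨-1, -1, -1⟩, ⟨-1, 1, 1⟩⟩,
    ⟨⟨1, 1, 1⟩, ⟨1, 1, 1⟩, ⟨1, -1, -1⟩⟩,
    ⟨⟨0, 0, 0⟩, ⟨0, 0, 0⟩, ⟨0, 2, 2⟩⟩],
   [[(1, 0), (2, 0), (4, 0), (5, 0)],
    [(0, 0), (3, 0), (6, 0), (7, 0)],
    [(3, 0), (0, 0), (8, 0), (9, 0)],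
    [(2, 0), (1, 0), (10, 0), (11, 0)],
    [(8, 1), (12, 0), (5, 2), (0, 0)],
    [(13, 0), (7, 3), (0, 0), (4, 4)],
    [(10, 1), (14, 0), (7, 5), (1, 0)],
    [(15, 0), (5, 6), (1, 0), (6, 7)],
    [(4, 8), (16, 0), (9, 9), (2, 0)],
    [(17, 0), (11, 3), (2, 0), (8, 10)],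
    [(6, 8), (18, 0), (11, 11), (3, 0)],
    [(19, 0), (9, 6), (3, 0), (10, 12)],
    [(16, 1), (4, 0), (13, 13), (20, 0)],
    [(5, 0), (15, 3), (20, 14), (12, 15)],
    [(18, 1), (6, 0), (15, 16), (21, 0)],
    [(7, 0), (13, 6), (21, 14), (14, 17)],
    [(12, 8), (8, 0), (17, 18), (22, 0)],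
    [(9, 0), (19, 3), (22, 14), (16, 19)],
    [(14, 8), (10, 0), (19, 20), (23, 0)],
    [(11, 0), (17, 6), (23, 14), (18, 21)],
    [(21, 0), (22, 0), (12, 0), (13, 22)],
    [(20, 0), (23, 0), (14, 0), (15, 22)],
    [(23, 0), (20, 0), (16, 0), (17, 22)],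
    [(22, 0), (21, 0), (18, 0), (19, 22)]]⟩

def cubLat23 : List LatE :=
  [⟨⟨⟨1, 0, 0⟩, ⟨0, 1, 0⟩, ⟨0, 0, 1⟩⟩, 1, ⟨⟨0, 0, 0⟩, ⟨0, 0, 0⟩, ⟨0, 0, 0⟩⟩⟩,
   ⟨⟨⟨1, 1, 0⟩, ⟨0, 1, 1⟩, ⟨0, 0, 2⟩⟩, 2, ⟨⟨0, 0, 0⟩, ⟨0, 0, 0⟩, ⟨0, 0, 0⟩⟩⟩,
   ⟨⟨⟨1, 1, 0⟩, ⟨0, 1, 1⟩, ⟨0, 0, 2⟩⟩, 2, ⟨⟨0, 0, 0⟩, ⟨0, 0, 0⟩, ⟨0, 0, 0⟩⟩⟩]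

def cubRow24 : Row :=
  ⟨[⟨⟨1, 0, 0⟩, ⟨0, -1, 0⟩, ⟨0, 0, 1⟩⟩, ⟨⟨0, 0, -1⟩, ⟨0, 1, 0⟩, ⟨-1, 0, 0⟩⟩], ⟨⟨1, 0, 0⟩, ⟨0, 0, 1⟩, ⟨0, 1, 0⟩⟩, ⟨⟨1, 0, 0⟩, ⟨0, 0, 1⟩, ⟨0, 1, 0⟩⟩, 4,
   [⟨⟨⟨1, 0, 0⟩, ⟨0, 1, 0⟩, ⟨0, 0, 1⟩⟩, ⟨⟨0, 0, 0⟩, ⟨0, 0, 0⟩, ⟨0, 0, 0⟩⟩⟩,
    ⟨⟨⟨1, 0, 0⟩, ⟨0, -1, 0⟩, ⟨0, 0, 1⟩⟩, ⟨⟨0, 0, 0⟩, ⟨0, 0, 0⟩, ⟨0, 0, 0⟩⟩⟩,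
    ⟨⟨⟨0, 0, -1⟩, ⟨0, 1, 0⟩, ⟨-1, 0, 0⟩⟩, ⟨⟨0, 0, 0⟩, ⟨0, 0, 0⟩, ⟨0, 0, 0⟩⟩⟩,
    ⟨⟨⟨0, 0, -1⟩, ⟨0, -1, 0⟩, ⟨-1, 0, 0⟩⟩, ⟨⟨0, 0, 0⟩, ⟨0, 0, 0⟩, ⟨0, 0, 0⟩⟩⟩,
    ⟨⟨⟨1, 0, 0⟩, ⟨0, 0, 1⟩, ⟨0, 1, 0⟩⟩, ⟨⟨1, 0, 0⟩, ⟨0, 1, 0⟩, ⟨0, 0, 1⟩⟩⟩,
    ⟨⟨⟨1, 0, 0⟩, ⟨0, 0, -1⟩, ⟨0, 1, 0⟩⟩, ⟨⟨1, 0, 0⟩, ⟨0, -1, 0⟩, ⟨0, 0, 1⟩⟩⟩,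
    ⟨⟨⟨0, -1, 0⟩, ⟨0, 0, 1⟩, ⟨-1, 0, 0⟩⟩, ⟨⟨0, 0, -1⟩, ⟨0, 1, 0⟩, ⟨-1, 0, 0⟩⟩⟩,
    ⟨⟨⟨0, -1, 0⟩, ⟨0, 0, -1⟩, ⟨-1, 0, 0⟩⟩, ⟨⟨0, 0, -1⟩, ⟨0, -1, 0⟩, ⟨-1, 0, 0⟩⟩⟩,
    ⟨⟨⟨1, 0, 0⟩, ⟨0, 0, 1⟩, ⟨0, -1, 0⟩⟩, ⟨⟨1, 0, 0⟩, ⟨0, 1, 0⟩, ⟨0, 0, 1⟩⟩⟩,
    ⟨⟨⟨0, 0, -1⟩, ⟨-1, 0, 0⟩, ⟨0, 1, 0⟩⟩, ⟨⟨1, 0, 0⟩, ⟨0, 1, 0⟩, ⟨0, 0, 1⟩⟩⟩,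
    ⟨⟨⟨1, 0, 0⟩, ⟨0, 0, -1⟩, ⟨0, -1, 0⟩⟩, ⟨⟨1, 0, 0⟩, ⟨0, -1, 0⟩, ⟨0, 0, 1⟩⟩⟩,
    ⟨⟨⟨0, 0, -1⟩, ⟨1, 0, 0⟩, ⟨0, 1, 0⟩⟩, ⟨⟨1, 0, 0⟩, ⟨0, -1, 0⟩, ⟨0, 0, 1⟩⟩⟩,
    ⟨⟨⟨0, 1, 0⟩, ⟨0, 0, 1⟩, ⟨-1, 0, 0⟩⟩, ⟨⟨0, 0, -1⟩, ⟨0, 1, 0⟩, ⟨-1, 0, 0⟩⟩⟩,
    ⟨⟨⟨0, -1, 0⟩, ⟨-1, 0, 0⟩, ⟨0, 0, 1⟩⟩, ⟨⟨0, 0, -1⟩, ⟨0, 1, 0⟩, ⟨-1, 0, 0⟩⟩⟩,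
    ⟨⟨⟨0, 1, 0⟩, ⟨0, 0, -1⟩, ⟨-1, 0, 0⟩⟩, ⟨⟨0, 0, -1⟩, ⟨0, -1, 0⟩, ⟨-1, 0, 0⟩⟩⟩,
    ⟨⟨⟨0, -1, 0⟩, ⟨1, 0, 0⟩, ⟨0, 0, 1⟩⟩, ⟨⟨0, 0, -1⟩, ⟨0, -1, 0⟩, ⟨-1, 0, 0⟩⟩⟩,
    ⟨⟨⟨0, 0, -1⟩, ⟨-1, 0, 0⟩, ⟨0, -1, 0⟩⟩, ⟨⟨1, 0, 0⟩, ⟨0, 1, 0⟩, ⟨0, 0, 1⟩⟩⟩,
    ⟨⟨⟨1, 0, 0⟩, ⟨0, 1, 0⟩, ⟨0, 0, -1⟩⟩, ⟨⟨2, 0, 0⟩, ⟨0, 1, 1⟩, ⟨0, -1, 1⟩⟩⟩,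
    ⟨⟨⟨0, 0, -1⟩, ⟨1, 0, 0⟩, ⟨0, -1, 0⟩⟩, ⟨⟨1, 0, 0⟩, ⟨0, -1, 0⟩, ⟨0, 0, 1⟩⟩⟩,
    ⟨⟨⟨1, 0, 0⟩, ⟨0, -1, 0⟩, ⟨0, 0, -1⟩⟩, ⟨⟨2, 0, 0⟩, ⟨0, -1, -1⟩, ⟨0, -1, 1⟩⟩⟩,
    ⟨⟨⟨0, 1, 0⟩, ⟨-1, 0, 0⟩, ⟨0, 0, 1⟩⟩, ⟨⟨0, 0, -1⟩, ⟨0, 1, 0⟩, ⟨-1, 0, 0⟩⟩⟩,
    ⟨⟨⟨0, 0, 1⟩, ⟨0, 1, 0⟩, ⟨-1, 0, 0⟩⟩, ⟨⟨0, 1, -1⟩, ⟨0, 1, 1⟩, ⟨-2, 0, 0⟩⟩⟩,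
    ⟨⟨⟨0, 1, 0⟩, ⟨1, 0, 0⟩, ⟨0, 0, 1⟩⟩, ⟨⟨0, 0, -1⟩, ⟨0, -1, 0⟩, ⟨-1, 0, 0⟩⟩⟩,
    ⟨⟨⟨0, 0, 1⟩, ⟨0, -1, 0⟩, ⟨-1, 0, 0⟩⟩, ⟨⟨0, 1, -1⟩, ⟨0, -1, -1⟩, ⟨-2, 0, 0⟩⟩⟩,
    ⟨⟨⟨0, -1, 0⟩, ⟨-1, 0, 0⟩, ⟨0, 0, -1⟩⟩, ⟨⟨1, 0, -1⟩, ⟨-1, 1, 0⟩, ⟨0, -1, 1⟩⟩⟩,
    ⟨⟨⟨0, 0, -1⟩, ⟨0, 1, 0⟩, ⟨1, 0, 0⟩⟩, ⟨⟨2, 0, 0⟩, ⟨0, 1, 1⟩, ⟨0, -1, 1⟩⟩⟩,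
    ⟨⟨⟨0, -1, 0⟩, ⟨1, 0, 0⟩, ⟨0, 0, -1⟩⟩, ⟨⟨1, 0, -1⟩, ⟨1, -1, 0⟩, ⟨0, -1, 1⟩⟩⟩,
    ⟨⟨⟨0, 0, -1⟩, ⟨0, -1, 0⟩, ⟨1, 0, 0⟩⟩, ⟨⟨2, 0, 0⟩, ⟨0, -1, -1⟩, ⟨0, -1, 1⟩⟩⟩,
    ⟨⟨⟨0, 0, 1⟩, ⟨-1, 0, 0⟩, ⟨0, 1, 0⟩⟩, ⟨⟨0, 1, -1⟩, ⟨-1, 1, 0⟩, ⟨-1, 0, 1⟩⟩⟩,
    ⟨⟨⟨-1, 0, 0⟩, ⟨0, 1, 0⟩, ⟨0, 0, 1⟩⟩, ⟨⟨0, 1, -1⟩, ⟨0, 1, 1⟩, ⟨-2, 0, 0⟩⟩⟩,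
    ⟨⟨⟨0, 0, 1⟩, ⟨1, 0, 0⟩, ⟨0, 1, 0⟩⟩, ⟨⟨0, 1, -1⟩, ⟨1, -1, 0⟩, ⟨-1, 0, 1⟩⟩⟩,
    ⟨⟨⟨-1, 0, 0⟩, ⟨0, -1, 0⟩, ⟨0, 0, 1⟩⟩, ⟨⟨0, 1, -1⟩, ⟨0, -1, -1⟩, ⟨-2, 0, 0⟩⟩⟩,
    ⟨⟨⟨0, 1, 0⟩, ⟨-1, 0, 0⟩, ⟨0, 0, -1⟩⟩, ⟨⟨1, 0, -1⟩, ⟨-1, 1, 0⟩, ⟨0, -1, 1⟩⟩⟩,
    ⟨⟨⟨0, -1, 0⟩, ⟨0, 0, 1⟩, ⟨1, 0, 0⟩⟩, ⟨⟨1, 0, -1⟩, ⟨-1, 1, 0⟩, ⟨0, -1, 1⟩⟩⟩,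
    ⟨⟨⟨0, 1, 0⟩, ⟨1, 0, 0⟩, ⟨0, 0, -1⟩⟩, ⟨⟨1, 0, -1⟩, ⟨1, -1, 0⟩, ⟨0, -1, 1⟩⟩⟩,
    ⟨⟨⟨0, -1, 0⟩, ⟨0, 0, -1⟩, ⟨1, 0, 0⟩⟩, ⟨⟨1, 0, -1⟩, ⟨1, -1, 0⟩, ⟨0, -1, 1⟩⟩⟩,
    ⟨⟨⟨0, 0, 1⟩, ⟨-1, 0, 0⟩, ⟨0, -1, 0⟩⟩, ⟨⟨0, 1, -1⟩, ⟨-1, 1, 0⟩, ⟨-1, 0, 1⟩⟩⟩,
    ⟨⟨⟨-1, 0, 0⟩, ⟨0, 0, 1⟩, ⟨0, 1, 0⟩⟩, ⟨⟨0, 1, -1⟩, ⟨-1, 1, 0⟩, ⟨-1, 0, 1⟩⟩⟩,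
    ⟨⟨⟨0, 0, 1⟩, ⟨1, 0, 0⟩, ⟨0, -1, 0⟩⟩, ⟨⟨0, 1, -1⟩, ⟨1, -1, 0⟩, ⟨-1, 0, 1⟩⟩⟩,
    ⟨⟨⟨-1, 0, 0⟩, ⟨0, 0, -1⟩, ⟨0, 1, 0⟩⟩, ⟨⟨0, 1, -1⟩, ⟨1, -1, 0⟩, ⟨-1, 0, 1⟩⟩⟩,
    ⟨⟨⟨0, 1, 0⟩, ⟨0, 0, 1⟩, ⟨1, 0, 0⟩⟩, ⟨⟨1, 0, -1⟩, ⟨-1, 1, 0⟩, ⟨0, -1, 1⟩⟩⟩,
    ⟨⟨⟨0, 1, 0⟩, ⟨0, 0, -1⟩, ⟨1, 0, 0⟩⟩, ⟨⟨1, 0, -1⟩, ⟨1, -1, 0⟩, ⟨0, -1, 1⟩⟩⟩,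
    ⟨⟨⟨-1, 0, 0⟩, ⟨0, 0, 1⟩, ⟨0, -1, 0⟩⟩, ⟨⟨0, 1, -1⟩, ⟨-1, 1, 0⟩, ⟨-1, 0, 1⟩⟩⟩,
    ⟨⟨⟨-1, 0, 0⟩, ⟨0, 0, -1⟩, ⟨0, -1, 0⟩⟩, ⟨⟨0, 1, -1⟩, ⟨1, -1, 0⟩, ⟨-1, 0, 1⟩⟩⟩,
    ⟨⟨⟨0, 0, 1⟩, ⟨0, 1, 0⟩, ⟨1, 0, 0⟩⟩, ⟨⟨1, 1, -1⟩, ⟨-1, 1, 1⟩, ⟨1, -1, 1⟩⟩⟩,
    ⟨⟨⟨0, 0, 1⟩, ⟨0, -1, 0⟩, ⟨1, 0, 0⟩⟩, ⟨⟨1, 1, -1⟩, ⟨1, -1, -1⟩, ⟨1, -1, 1⟩⟩⟩,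
    ⟨⟨⟨-1, 0, 0⟩, ⟨0, 1, 0⟩, ⟨0, 0, -1⟩⟩, ⟨⟨-1, 1, -1⟩, ⟨-1, 1, 1⟩, ⟨-1, -1, 1⟩⟩⟩,
    ⟨⟨⟨-1, 0, 0⟩, ⟨0, -1, 0⟩, ⟨0, 0, -1⟩⟩, ⟨⟨-1, 1, -1⟩, ⟨1, -1, -1⟩, ⟨-1, -1, 1⟩⟩⟩],
   [(0, 0), (0, 1), (1, 1), (0, 2), (1, 2), (2, 2), (3, 2), (4, 0), (4, 1), (5, 0), (5, 1), (6, 0), (6, 1), (7, 0), (7, 1), (8, 1), (8, 2), (10, 1), (10, 2), (12, 1), (12, 2), (14, 1), (14, 2), (16, 2), (17, 1), (18, 2), (19, 1), (20, 2), (21, 1), (22, 2), (23, 1), (24, 0), (24, 1), (26, 0), (26, 1), (28, 0), (28, 1), (30, 0), (30, 1),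 (32, 1), (34, 1), (36, 1), (38, 1), (40, 2), (41, 2), (42, 2), (43, 2)],
   [⟨⟨0, 0, 0⟩, ⟨0, 0, 0⟩, ⟨0, 0, 0⟩⟩,
    ⟨⟨-2, 0, 0⟩, ⟨0, -1, -1⟩, ⟨0, -1, -1⟩⟩,
    ⟨⟨-2, 0, 0⟩, ⟨0, 1, 1⟩, ⟨0, -1, -1⟩⟩,
    ⟨⟨0, 1, 1⟩, ⟨0, -1, -1⟩, ⟨2, 0, 0⟩⟩,
    ⟨⟨0, 1, 1⟩, ⟨0, 1, 1⟩, ⟨2, 0, 0⟩⟩,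
    ⟨⟨2, 0, 0⟩, ⟨0, 1, 1⟩, ⟨0, 1, 1⟩⟩,
    ⟨⟨2, 0, 0⟩, ⟨0, -1, -1⟩, ⟨0, 1, 1⟩⟩,
    ⟨⟨0, -1, -1⟩, ⟨0, 1, 1⟩, ⟨-2, 0, 0⟩⟩,
    ⟨⟨0, -1, -1⟩, ⟨0, -1, -1⟩, ⟨-2, 0, 0⟩⟩,
    ⟨⟨-2, 0, 0⟩, ⟨0, -1, -1⟩, ⟨0, 1, 1⟩⟩,
    ⟨⟨1, 0, 0⟩, ⟨-1, 0, 0⟩, ⟨1, 1, 1⟩⟩,
    ⟨⟨1, 1, 1⟩, ⟨1, 0, 0⟩, ⟨1, 0, 0⟩⟩,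
    ⟨⟨-2, 0, 0⟩, ⟨0, 1, 1⟩, ⟨0, 1, 1⟩⟩,
    ⟨⟨1, 0, 0⟩, ⟨1, 0, 0⟩, ⟨1, 1, 1⟩⟩,
    ⟨⟨1, 1, 1⟩, ⟨-1, 0, 0⟩, ⟨1, 0, 0⟩⟩,
    ⟨⟨0, -1, -1⟩, ⟨0, -1, -1⟩, ⟨2, 0, 0⟩⟩,
    ⟨⟨-1, -1, -1⟩, ⟨-1, 0, 0⟩, ⟨-1, 0, 0⟩⟩,
    ⟨⟨-1, 0, 0⟩, ⟨1, 0, 0⟩, ⟨-1, -1, -1⟩⟩,
    ⟨⟨0, -1, -1⟩, ⟨0, 1, 1⟩, ⟨2, 0, 0⟩⟩,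
    ⟨⟨-1, -1, -1⟩, ⟨1, 0, 0⟩, ⟨-1, 0, 0⟩⟩,
    ⟨⟨-1, 0, 0⟩, ⟨-1, 0, 0⟩, ⟨-1, -1, -1⟩⟩,
    ⟨⟨0, 1, 1⟩, ⟨2, 0, 0⟩, ⟨0, 1, 1⟩⟩,
    ⟨⟨0, 0, 0⟩, ⟨0, 2, 2⟩, ⟨0, 0, 0⟩⟩,
    ⟨⟨2, 0, 0⟩, ⟨0, 1, 1⟩, ⟨0, -1, -1⟩⟩,
    ⟨⟨0, 1, 1⟩, ⟨-2, 0, 0⟩, ⟨0, 1, 1⟩⟩,
    ⟨⟨0, 0, 0⟩, ⟨0, -2, -2⟩, ⟨0, 0, 0⟩⟩,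
    ⟨⟨2, 0, 0⟩, ⟨0, -1, -1⟩, ⟨0, -1, -1⟩⟩,
    ⟨⟨0, -1, -1⟩, ⟨2, 0, 0⟩, ⟨0, -1, -1⟩⟩,
    ⟨⟨0, 1, 1⟩, ⟨0, 1, 1⟩, ⟨-2, 0, 0⟩⟩,
    ⟨⟨0, -1, -1⟩, ⟨-2, 0, 0⟩, ⟨0, -1, -1⟩⟩,
    ⟨⟨0, 1, 1⟩, ⟨0, -1, -1⟩, ⟨-2, 0, 0⟩⟩,
    ⟨⟨1, 0, 0⟩, ⟨1, 1, 1⟩, ⟨1, 0, 0⟩⟩,
    ⟨⟨1, 1, 1⟩, ⟨1, 0, 0⟩, ⟨-1, 0, 0⟩⟩,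
    ⟨⟨1, 0, 0⟩, ⟨-1, -1, -1⟩, ⟨1, 0, 0⟩⟩,
    ⟨⟨1, 1, 1⟩, ⟨-1, 0, 0⟩, ⟨-1, 0, 0⟩⟩,
    ⟨⟨-1, 0, 0⟩, ⟨1, 1, 1⟩, ⟨-1, 0, 0⟩⟩,
    ⟨⟨1, 0, 0⟩, ⟨1, 0, 0⟩, ⟨-1, -1, -1⟩⟩,
    ⟨⟨-1, 0, 0⟩, ⟨-1, -1, -1⟩, ⟨-1, 0, 0⟩⟩,
    ⟨⟨1, 0, 0⟩, ⟨-1, 0, 0⟩, ⟨-1, -1, -1⟩⟩,
    ⟨⟨1, 0, 0⟩, ⟨-1, 0, 0⟩, ⟨1, -1, -1⟩⟩,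
    ⟨⟨1, -1, -1⟩, ⟨1, 0, 0⟩, ⟨1, 0, 0⟩⟩,
    ⟨⟨-1, -1, -1⟩, ⟨-1, 0, 0⟩, ⟨1, 0, 0⟩⟩,
    ⟨⟨1, 0, 0⟩, ⟨1, 0, 0⟩, ⟨1, -1, -1⟩⟩,
    ⟨⟨1, -1, -1⟩, ⟨-1, 0, 0⟩, ⟨1, 0, 0⟩⟩,
    ⟨⟨-1, -1, -1⟩, ⟨1, 0, 0⟩, ⟨1, 0, 0⟩⟩,
    ⟨⟨-1, 1, 1⟩, ⟨-1, 0, 0⟩, ⟨-1, 0, 0⟩⟩,
    ⟨⟨-1, 0, 0⟩, ⟨1, 0, 0⟩, ⟨-1, 1, 1⟩⟩,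
    ⟨⟨-1, 0, 0⟩, ⟨-1, 0, 0⟩, ⟨1, 1, 1⟩⟩,
    ⟨⟨-1, 1, 1⟩, ⟨1, 0, 0⟩, ⟨-1, 0, 0⟩⟩,
    ⟨⟨-1, 0, 0⟩, ⟨-1, 0, 0⟩, ⟨-1, 1, 1⟩⟩,
    ⟨⟨-1, 0, 0⟩, ⟨1, 0, 0⟩, ⟨1, 1, 1⟩⟩,
    ⟨⟨0, 0, 0⟩, ⟨-2, 2, 2⟩, ⟨0, 0, 0⟩⟩,
    ⟨⟨2, 0, 0⟩, ⟨0, 0, 0⟩, ⟨2, 0, 0⟩⟩,
    ⟨⟨0, 0, 0⟩, ⟨2, -2, -2⟩, ⟨0, 0, 0⟩⟩,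
    ⟨⟨-2, 0, 0⟩, ⟨0, 0, 0⟩, ⟨-2, 0, 0⟩⟩],
   [[(1, 0), (2, 0), (4, 0), (4, 1)],
    [(0, 0), (3, 0), (5, 0), (5, 2)],
    [(3, 0), (0, 0), (6, 0), (6, 3)],
    [(2, 0), (1, 0), (7, 0), (7, 4)],
    [(8, 0), (9, 0), (0, 5), (0, 0)],
    [(10, 0), (11, 0), (1, 6), (1, 0)],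
    [(12, 0), (13, 0), (2, 7), (2, 0)],
    [(14, 0), (15, 0), (3, 8), (3, 0)],
    [(4, 0), (16, 0), (17, 0), (17, 9)],
    [(16, 0), (4, 0), (13, 10), (13, 11)],
    [(5, 0), (18, 0), (19, 0), (19, 12)],
    [(18, 0), (5, 0), (15, 13), (15, 14)],
    [(6, 0), (20, 0), (21, 0), (21, 15)],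
    [(20, 0), (6, 0), (9, 16), (9, 17)],
    [(7, 0), (22, 0), (23, 0), (23, 18)],
    [(22, 0), (7, 0), (11, 19), (11, 20)],
    [(9, 0), (8, 0), (24, 0), (24, 21)],
    [(19, 22), (25, 0), (8, 23), (8, 0)],
    [(11, 0), (10, 0), (26, 0), (26, 24)],
    [(17, 25), (27, 0), (10, 26), (10, 0)],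
    [(13, 0), (12, 0), (28, 0), (28, 27)],
    [(23, 22), (29, 0), (12, 28), (12, 0)],
    [(15, 0), (14, 0), (30, 0), (30, 29)],
    [(21, 25), (31, 0), (14, 30), (14, 0)],
    [(32, 0), (33, 0), (16, 29), (16, 0)],
    [(27, 22), (17, 0), (33, 31), (33, 32)],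
    [(34, 0), (35, 0), (18, 27), (18, 0)],
    [(25, 25), (19, 0), (35, 33), (35, 34)],
    [(36, 0), (37, 0), (20, 24), (20, 0)],
    [(31, 22), (21, 0), (37, 35), (37, 36)],
    [(38, 0), (39, 0), (22, 21), (22, 0)],
    [(29, 25), (23, 0), (39, 37), (39, 38)],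
    [(24, 0), (40, 0), (36, 39), (36, 40)],
    [(40, 0), (24, 0), (25, 41), (25, 37)],
    [(26, 0), (41, 0), (38, 42), (38, 43)],
    [(41, 0), (26, 0), (27, 44), (27, 35)],
    [(28, 0), (42, 0), (32, 45), (32, 46)],
    [(42, 0), (28, 0), (29, 47), (29, 33)],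
    [(30, 0), (43, 0), (34, 48), (34, 49)],
    [(43, 0), (30, 0), (31, 50), (31, 31)],
    [(33, 0), (32, 0), (44, 0), (44, 8)],
    [(35, 0), (34, 0), (45, 0), (45, 7)],
    [(37, 0), (36, 0), (46, 0), (46, 6)],
    [(39, 0), (38, 0), (47, 0), (47, 5)],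
    [(45, 51), (46, 52), (40, 4), (40, 0)],
    [(44, 53), (47, 52), (41, 3), (41, 0)],
    [(47, 51), (44, 54), (42, 2), (42, 0)],
    [(46, 53), (45, 54), (43, 1), (43, 0)]]⟩

def cubLat24 : List LatE :=
  [⟨⟨⟨1, 0, 0⟩, ⟨0, 1, 0⟩, ⟨0, 0, 1⟩⟩, 1, ⟨⟨0, 0, 0⟩, ⟨0, 0, 0⟩, ⟨0, 0, 0⟩⟩⟩,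
   ⟨⟨⟨1, 1, 1⟩, ⟨0, 2, 0⟩, ⟨0, 0, 2⟩⟩, 2, ⟨⟨0, 0, 0⟩, ⟨0, 0, 0⟩, ⟨0, 0, 0⟩⟩⟩,
   ⟨⟨⟨1, 1, 0⟩, ⟨0, 1, 1⟩, ⟨0, 0, 2⟩⟩, 2, ⟨⟨0, 0, 0⟩, ⟨0, 0, 0⟩, ⟨0, 0, 0⟩⟩⟩]

def cubRow25 : Row :=
  ⟨[⟨⟨1, 0, 0⟩, ⟨0, -1, 0⟩, ⟨0, 0, 1⟩⟩, ⟨⟨0, 0, -1⟩, ⟨0, 1, 0⟩, ⟨-1, 0, 0⟩⟩], ⟨⟨0, 1, 0⟩, ⟨1, 0, 0⟩, ⟨0, 0, -1⟩⟩, ⟨⟨0, 1, 0⟩, ⟨1, 0, 0⟩, ⟨0, 0, -1⟩⟩, 4,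
   [⟨⟨⟨1, 0, 0⟩, ⟨0, 1, 0⟩, ⟨0, 0, 1⟩⟩, ⟨⟨0, 0, 0⟩, ⟨0, 0, 0⟩, ⟨0, 0, 0⟩⟩⟩,
    ⟨⟨⟨1, 0, 0⟩, ⟨0, -1, 0⟩, ⟨0, 0, 1⟩⟩, ⟨⟨0, 0, 0⟩, ⟨0, 0, 0⟩, ⟨0, 0, 0⟩⟩⟩,
    ⟨⟨⟨0, 0, -1⟩, ⟨0, 1, 0⟩, ⟨-1, 0, 0⟩⟩, ⟨⟨0, 0, 0⟩, ⟨0, 0, 0⟩, ⟨0, 0, 0⟩⟩⟩,
    ⟨⟨⟨0, 0, -1⟩, ⟨0, -1, 0⟩, ⟨-1, 0, 0⟩⟩, ⟨⟨0, 0, 0⟩, ⟨0, 0, 0⟩, ⟨0, 0, 0⟩⟩⟩,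
    ⟨⟨⟨0, 1, 0⟩, ⟨1, 0, 0⟩, ⟨0, 0, -1⟩⟩, ⟨⟨1, 0, 0⟩, ⟨0, 1, 0⟩, ⟨0, 0, 1⟩⟩⟩,
    ⟨⟨⟨0, 1, 0⟩, ⟨-1, 0, 0⟩, ⟨0, 0, -1⟩⟩, ⟨⟨1, 0, 0⟩, ⟨0, -1, 0⟩, ⟨0, 0, 1⟩⟩⟩,
    ⟨⟨⟨0, 0, 1⟩, ⟨1, 0, 0⟩, ⟨0, -1, 0⟩⟩, ⟨⟨0, 0, -1⟩, ⟨0, 1, 0⟩, ⟨-1, 0, 0⟩⟩⟩,
    ⟨⟨⟨0, 0, 1⟩, ⟨-1, 0, 0⟩, ⟨0, -1, 0⟩⟩, ⟨⟨0, 0, -1⟩, ⟨0, -1, 0⟩, ⟨-1, 0, 0⟩⟩⟩,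
    ⟨⟨⟨0, -1, 0⟩, ⟨1, 0, 0⟩, ⟨0, 0, -1⟩⟩, ⟨⟨1, 0, 0⟩, ⟨0, 1, 0⟩, ⟨0, 0, 1⟩⟩⟩,
    ⟨⟨⟨0, 1, 0⟩, ⟨0, 0, -1⟩, ⟨1, 0, 0⟩⟩, ⟨⟨1, 0, 0⟩, ⟨0, 1, 0⟩, ⟨0, 0, 1⟩⟩⟩,
    ⟨⟨⟨0, -1, 0⟩, ⟨-1, 0, 0⟩, ⟨0, 0, -1⟩⟩, ⟨⟨1, 0, 0⟩, ⟨0, -1, 0⟩, ⟨0, 0, 1⟩⟩⟩,
    ⟨⟨⟨0, 1, 0⟩, ⟨0, 0, 1⟩, ⟨1, 0, 0⟩⟩, ⟨⟨1, 0, 0⟩, ⟨0, -1, 0⟩, ⟨0, 0, 1⟩⟩⟩,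
    ⟨⟨⟨0, 0, 1⟩, ⟨1, 0, 0⟩, ⟨0, 1, 0⟩⟩, ⟨⟨0, 0, -1⟩, ⟨0, 1, 0⟩, ⟨-1, 0, 0⟩⟩⟩,
    ⟨⟨⟨-1, 0, 0⟩, ⟨0, 0, -1⟩, ⟨0, -1, 0⟩⟩, ⟨⟨0, 0, -1⟩, ⟨0, 1, 0⟩, ⟨-1, 0, 0⟩⟩⟩,
    ⟨⟨⟨0, 0, 1⟩, ⟨-1, 0, 0⟩, ⟨0, 1, 0⟩⟩, ⟨⟨0, 0, -1⟩, ⟨0, -1, 0⟩, ⟨-1, 0, 0⟩⟩⟩,
    ⟨⟨⟨-1, 0, 0⟩, ⟨0, 0, 1⟩, ⟨0, -1, 0⟩⟩, ⟨⟨0, 0, -1⟩, ⟨0, -1, 0⟩, ⟨-1, 0, 0⟩⟩⟩,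
    ⟨⟨⟨0, -1, 0⟩, ⟨0, 0, -1⟩, ⟨1, 0, 0⟩⟩, ⟨⟨1, 0, 0⟩, ⟨0, 1, 0⟩, ⟨0, 0, 1⟩⟩⟩,
    ⟨⟨⟨-1, 0, 0⟩, ⟨0, 1, 0⟩, ⟨0, 0, 1⟩⟩, ⟨⟨1, -1, 0⟩, ⟨1, 1, 0⟩, ⟨0, 0, 0⟩⟩⟩,
    ⟨⟨⟨1, 0, 0⟩, ⟨0, 0, 1⟩, ⟨0, 1, 0⟩⟩, ⟨⟨1, 1, 0⟩, ⟨0, 1, -1⟩, ⟨1, 0, 1⟩⟩⟩,
    ⟨⟨⟨0, -1, 0⟩, ⟨0, 0, 1⟩, ⟨1, 0, 0⟩⟩, ⟨⟨1, 0, 0⟩, ⟨0, -1, 0⟩, ⟨0, 0, 1⟩⟩⟩,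
    ⟨⟨⟨-1, 0, 0⟩, ⟨0, -1, 0⟩, ⟨0, 0, 1⟩⟩, ⟨⟨1, -1, 0⟩, ⟨-1, -1, 0⟩, ⟨0, 0, 0⟩⟩⟩,
    ⟨⟨⟨1, 0, 0⟩, ⟨0, 0, -1⟩, ⟨0, 1, 0⟩⟩, ⟨⟨1, 1, 0⟩, ⟨0, -1, 1⟩, ⟨1, 0, 1⟩⟩⟩,
    ⟨⟨⟨-1, 0, 0⟩, ⟨0, 0, -1⟩, ⟨0, 1, 0⟩⟩, ⟨⟨0, 0, -1⟩, ⟨0, 1, 0⟩, ⟨-1, 0, 0⟩⟩⟩,
    ⟨⟨⟨0, 0, -1⟩, ⟨0, 1, 0⟩, ⟨1, 0, 0⟩⟩, ⟨⟨0, 0, 0⟩, ⟨1, 1, 0⟩, ⟨-1, 1, 0⟩⟩⟩,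
    ⟨⟨⟨0, -1, 0⟩, ⟨0, 0, 1⟩, ⟨-1, 0, 0⟩⟩, ⟨⟨-1, 0, -1⟩, ⟨0, 1, -1⟩, ⟨-1, -1, 0⟩⟩⟩,
    ⟨⟨⟨-1, 0, 0⟩, ⟨0, 0, 1⟩, ⟨0, 1, 0⟩⟩, ⟨⟨0, 0, -1⟩, ⟨0, -1, 0⟩, ⟨-1, 0, 0⟩⟩⟩,
    ⟨⟨⟨0, 0, -1⟩, ⟨0, -1, 0⟩, ⟨1, 0, 0⟩⟩, ⟨⟨0, 0, 0⟩, ⟨-1, -1, 0⟩, ⟨-1, 1, 0⟩⟩⟩,
    ⟨⟨⟨0, -1, 0⟩, ⟨0, 0, -1⟩, ⟨-1, 0, 0⟩⟩, ⟨⟨-1, 0, -1⟩, ⟨0, -1, 1⟩, ⟨-1, -1, 0⟩⟩⟩,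
    ⟨⟨⟨0, 0, 1⟩, ⟨0, 1, 0⟩, ⟨-1, 0, 0⟩⟩, ⟨⟨1, -1, 0⟩, ⟨1, 1, 0⟩, ⟨0, 0, 0⟩⟩⟩,
    ⟨⟨⟨1, 0, 0⟩, ⟨0, 0, 1⟩, ⟨0, -1, 0⟩⟩, ⟨⟨1, 1, 0⟩, ⟨0, 1, -1⟩, ⟨1, 0, 1⟩⟩⟩,
    ⟨⟨⟨0, 0, -1⟩, ⟨-1, 0, 0⟩, ⟨0, 1, 0⟩⟩, ⟨⟨1, 1, 0⟩, ⟨0, 1, -1⟩, ⟨1, 0, 1⟩⟩⟩,
    ⟨⟨⟨0, 0, 1⟩, ⟨0, -1, 0⟩, ⟨-1, 0, 0⟩⟩, ⟨⟨1, -1, 0⟩, ⟨-1, -1, 0⟩, ⟨0, 0, 0⟩⟩⟩,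
    ⟨⟨⟨1, 0, 0⟩, ⟨0, 0, -1⟩, ⟨0, -1, 0⟩⟩, ⟨⟨1, 1, 0⟩, ⟨0, -1, 1⟩, ⟨1, 0, 1⟩⟩⟩,
    ⟨⟨⟨0, 0, -1⟩, ⟨1, 0, 0⟩, ⟨0, 1, 0⟩⟩, ⟨⟨1, 1, 0⟩, ⟨0, -1, 1⟩, ⟨1, 0, 1⟩⟩⟩,
    ⟨⟨⟨1, 0, 0⟩, ⟨0, 1, 0⟩, ⟨0, 0, -1⟩⟩, ⟨⟨0, 0, 0⟩, ⟨1, 1, 0⟩, ⟨-1, 1, 0⟩⟩⟩,
    ⟨⟨⟨0, 1, 0⟩, ⟨0, 0, 1⟩, ⟨-1, 0, 0⟩⟩, ⟨⟨-1, 0, -1⟩, ⟨0, 1, -1⟩, ⟨-1, -1, 0⟩⟩⟩,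
    ⟨⟨⟨0, -1, 0⟩, ⟨-1, 0, 0⟩, ⟨0, 0, 1⟩⟩, ⟨⟨-1, 0, -1⟩, ⟨0, 1, -1⟩, ⟨-1, -1, 0⟩⟩⟩,
    ⟨⟨⟨1, 0, 0⟩, ⟨0, -1, 0⟩, ⟨0, 0, -1⟩⟩, ⟨⟨0, 0, 0⟩, ⟨-1, -1, 0⟩, ⟨-1, 1, 0⟩⟩⟩,
    ⟨⟨⟨0, 1, 0⟩, ⟨0, 0, -1⟩, ⟨-1, 0, 0⟩⟩, ⟨⟨-1, 0, -1⟩, ⟨0, -1, 1⟩, ⟨-1, -1, 0⟩⟩⟩,
    ⟨⟨⟨0, -1, 0⟩, ⟨1, 0, 0⟩, ⟨0, 0, 1⟩⟩, ⟨⟨-1, 0, -1⟩, ⟨0, -1, 1⟩, ⟨-1, -1, 0⟩⟩⟩,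
    ⟨⟨⟨0, 0, -1⟩, ⟨1, 0, 0⟩, ⟨0, -1, 0⟩⟩, ⟨⟨1, -1, 1⟩, ⟨1, 2, 0⟩, ⟨-1, 0, 0⟩⟩⟩,
    ⟨⟨⟨0, 0, -1⟩, ⟨-1, 0, 0⟩, ⟨0, -1, 0⟩⟩, ⟨⟨1, 1, 0⟩, ⟨0, 1, -1⟩, ⟨1, 0, 1⟩⟩⟩,
    ⟨⟨⟨0, 0, 1⟩, ⟨0, -1, 0⟩, ⟨1, 0, 0⟩⟩, ⟨⟨1, 1, -1⟩, ⟨-1, 1, -1⟩, ⟨1, 1, 1⟩⟩⟩,
    ⟨⟨⟨0, 0, 1⟩, ⟨0, 1, 0⟩, ⟨1, 0, 0⟩⟩, ⟨⟨1, 1, -1⟩, ⟨1, -1, 1⟩, ⟨1, 1, 1⟩⟩⟩,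
    ⟨⟨⟨0, 1, 0⟩, ⟨1, 0, 0⟩, ⟨0, 0, 1⟩⟩, ⟨⟨1, 0, 0⟩, ⟨1, 2, 0⟩, ⟨-1, 1, -1⟩⟩⟩,
    ⟨⟨⟨0, 1, 0⟩, ⟨-1, 0, 0⟩, ⟨0, 0, 1⟩⟩, ⟨⟨-1, 0, -1⟩, ⟨0, 1, -1⟩, ⟨-1, -1, 0⟩⟩⟩,
    ⟨⟨⟨-1, 0, 0⟩, ⟨0, -1, 0⟩, ⟨0, 0, -1⟩⟩, ⟨⟨-1, -1, -1⟩, ⟨-1, 1, -1⟩, ⟨-1, -1, 1⟩⟩⟩,
    ⟨⟨⟨-1, 0, 0⟩, ⟨0, 1, 0⟩, ⟨0, 0, -1⟩⟩, ⟨⟨-1, -1, -1⟩, ⟨1, -1, 1⟩, ⟨-1, -1, 1⟩⟩⟩],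
   [(0, 0), (0, 1), (1, 1), (0, 2), (1, 2), (2, 2), (3, 2), (4, 0), (4, 1), (5, 0), (5, 1), (6, 0), (6, 1), (7, 0), (7, 1), (8, 1), (8, 2), (9, 2), (10, 1), (10, 2), (11, 2), (12, 1), (12, 2), (13, 2), (14, 1), (14, 2), (15, 2), (17, 1), (18, 0), (18, 1), (20, 1), (21, 0), (21, 1), (23, 1), (24, 0), (24, 1), (26, 1), (27, 0), (27, 1), (28, 2), (29, 1), (30, 2), (33, 2), (34, 2), (35, 1), (36, 2), (39, 2)],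
   [⟨⟨0, 0, 0⟩, ⟨0, 0, 0⟩, ⟨0, 0, 0⟩⟩,
    ⟨⟨-1, -1, 0⟩, ⟨-1, -1, 0⟩, ⟨0, 0, 0⟩⟩,
    ⟨⟨-1, -1, 0⟩, ⟨1, 1, 0⟩, ⟨0, 0, 0⟩⟩,
    ⟨⟨0, 0, 0⟩, ⟨-1, -1, 0⟩, ⟨1, 1, 0⟩⟩,
    ⟨⟨0, 0, 0⟩, ⟨1, 1, 0⟩, ⟨1, 1, 0⟩⟩,
    ⟨⟨1, 1, 0⟩, ⟨1, 1, 0⟩, ⟨0, 0, 0⟩⟩,
    ⟨⟨1, 1, 0⟩, ⟨-1, -1, 0⟩, ⟨0, 0, 0⟩⟩,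
    ⟨⟨0, 0, 0⟩, ⟨1, 1, 0⟩, ⟨-1, -1, 0⟩⟩,
    ⟨⟨0, 0, 0⟩, ⟨-1, -1, 0⟩, ⟨-1, -1, 0⟩⟩,
    ⟨⟨-1, -1, 0⟩, ⟨0, 0, 0⟩, ⟨-1, -1, 0⟩⟩,
    ⟨⟨1, 1, 0⟩, ⟨0, 0, 0⟩, ⟨1, 1, 0⟩⟩,
    ⟨⟨1, -1, 1⟩, ⟨0, 2, -1⟩, ⟨2, 0, 1⟩⟩,
    ⟨⟨2, 0, 1⟩, ⟨0, 2, -1⟩, ⟨1, -1, 1⟩⟩,
    ⟨⟨0, 0, 0⟩, ⟨2, 2, 0⟩, ⟨0, 0, 0⟩⟩,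
    ⟨⟨1, -1, 1⟩, ⟨0, -2, 1⟩, ⟨2, 0, 1⟩⟩,
    ⟨⟨2, 0, 1⟩, ⟨0, -2, 1⟩, ⟨1, -1, 1⟩⟩,
    ⟨⟨0, 0, 0⟩, ⟨-2, -2, 0⟩, ⟨0, 0, 0⟩⟩,
    ⟨⟨-2, 0, -1⟩, ⟨0, 2, -1⟩, ⟨-1, 1, -1⟩⟩,
    ⟨⟨-1, 1, -1⟩, ⟨0, 2, -1⟩, ⟨-2, 0, -1⟩⟩,
    ⟨⟨-2, 0, -1⟩, ⟨0, -2, 1⟩, ⟨-1, 1, -1⟩⟩,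
    ⟨⟨-1, 1, -1⟩, ⟨0, -2, 1⟩, ⟨-2, 0, -1⟩⟩,
    ⟨⟨3, 1, 1⟩, ⟨0, 2, -1⟩, ⟨2, 0, 1⟩⟩,
    ⟨⟨2, 0, 1⟩, ⟨0, 2, -1⟩, ⟨3, 1, 1⟩⟩,
    ⟨⟨0, -2, 1⟩, ⟨-1, -3, 1⟩, ⟨-2, 0, -1⟩⟩,
    ⟨⟨0, -2, 1⟩, ⟨0, -2, 1⟩, ⟨-1, 1, -1⟩⟩,
    ⟨⟨0, 2, -1⟩, ⟨-1, -3, 1⟩, ⟨2, 0, 1⟩⟩,
    ⟨⟨3, 1, 1⟩, ⟨0, -2, 1⟩, ⟨2, 0, 1⟩⟩,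
    ⟨⟨2, 0, 1⟩, ⟨0, -2, 1⟩, ⟨3, 1, 1⟩⟩,
    ⟨⟨-2, 0, -1⟩, ⟨0, 2, -1⟩, ⟨-3, -1, -1⟩⟩,
    ⟨⟨-3, -1, -1⟩, ⟨0, 2, -1⟩, ⟨-2, 0, -1⟩⟩,
    ⟨⟨2, 0, 1⟩, ⟨-1, -3, 1⟩, ⟨0, 2, -1⟩⟩,
    ⟨⟨1, -1, 1⟩, ⟨0, -2, 1⟩, ⟨0, 2, -1⟩⟩,
    ⟨⟨-2, 0, -1⟩, ⟨-1, -3, 1⟩, ⟨0, -2, 1⟩⟩,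
    ⟨⟨-2, 0, -1⟩, ⟨0, -2, 1⟩, ⟨-3, -1, -1⟩⟩,
    ⟨⟨-3, -1, -1⟩, ⟨0, -2, 1⟩, ⟨-2, 0, -1⟩⟩,
    ⟨⟨0, -2, 1⟩, ⟨1, 3, -1⟩, ⟨-2, 0, -1⟩⟩,
    ⟨⟨0, 2, -1⟩, ⟨0, 2, -1⟩, ⟨1, -1, 1⟩⟩,
    ⟨⟨0, 2, -1⟩, ⟨1, 3, -1⟩, ⟨2, 0, 1⟩⟩,
    ⟨⟨0, 0, 0⟩, ⟨-2, 2, -2⟩, ⟨0, 0, 0⟩⟩,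
    ⟨⟨2, 2, 0⟩, ⟨0, 0, 0⟩, ⟨2, 2, 0⟩⟩,
    ⟨⟨0, 0, 0⟩, ⟨2, -2, 2⟩, ⟨0, 0, 0⟩⟩,
    ⟨⟨2, 0, 1⟩, ⟨1, 3, -1⟩, ⟨0, 2, -1⟩⟩,
    ⟨⟨-1, 1, -1⟩, ⟨0, 2, -1⟩, ⟨0, -2, 1⟩⟩,
    ⟨⟨-2, 0, -1⟩, ⟨1, 3, -1⟩, ⟨0, -2, 1⟩⟩,
    ⟨⟨-2, -2, 0⟩, ⟨0, 0, 0⟩, ⟨-2, -2, 0⟩⟩],
   [[(1, 0), (2, 0), (4, 0), (4, 1)],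
    [(0, 0), (3, 0), (5, 0), (5, 2)],
    [(3, 0), (0, 0), (6, 0), (6, 3)],
    [(2, 0), (1, 0), (7, 0), (7, 4)],
    [(8, 0), (9, 0), (0, 5), (0, 0)],
    [(10, 0), (11, 0), (1, 6), (1, 0)],
    [(12, 0), (13, 0), (2, 7), (2, 0)],
    [(14, 0), (15, 0), (3, 8), (3, 0)],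
    [(4, 0), (16, 0), (17, 0), (17, 6)],
    [(16, 0), (4, 0), (18, 0), (18, 9)],
    [(5, 0), (19, 0), (20, 0), (20, 5)],
    [(19, 0), (5, 0), (21, 0), (21, 9)],
    [(6, 0), (22, 0), (23, 0), (23, 8)],
    [(22, 0), (6, 0), (24, 0), (24, 10)],
    [(7, 0), (25, 0), (26, 0), (26, 7)],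
    [(25, 0), (7, 0), (27, 0), (27, 10)],
    [(9, 0), (8, 0), (25, 11), (25, 12)],
    [(20, 13), (28, 0), (8, 2), (8, 0)],
    [(29, 0), (30, 0), (9, 10), (9, 0)],
    [(11, 0), (10, 0), (22, 14), (22, 15)],
    [(17, 16), (31, 0), (10, 1), (10, 0)],
    [(32, 0), (33, 0), (11, 10), (11, 0)],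
    [(13, 0), (12, 0), (19, 17), (19, 18)],
    [(26, 13), (34, 0), (12, 4), (12, 0)],
    [(35, 0), (36, 0), (13, 9), (13, 0)],
    [(15, 0), (14, 0), (16, 19), (16, 20)],
    [(23, 16), (37, 0), (14, 3), (14, 0)],
    [(38, 0), (39, 0), (15, 9), (15, 0)],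
    [(31, 13), (17, 0), (40, 0), (40, 3)],
    [(18, 0), (41, 0), (38, 21), (38, 22)],
    [(41, 0), (18, 0), (42, 0), (42, 7)],
    [(28, 16), (20, 0), (41, 23), (41, 24)],
    [(21, 0), (40, 25), (35, 26), (35, 27)],
    [(40, 25), (21, 0), (43, 0), (43, 8)],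
    [(37, 13), (23, 0), (44, 0), (44, 1)],
    [(24, 0), (45, 0), (32, 28), (32, 29)],
    [(45, 0), (24, 0), (46, 0), (46, 5)],
    [(34, 16), (26, 0), (45, 30), (45, 31)],
    [(27, 0), (44, 32), (29, 33), (29, 34)],
    [(44, 32), (27, 0), (47, 0), (47, 6)],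
    [(33, 35), (32, 35), (28, 7), (28, 0)],
    [(30, 0), (29, 0), (31, 36), (31, 37)],
    [(43, 38), (46, 39), (30, 3), (30, 0)],
    [(42, 40), (47, 39), (33, 4), (33, 0)],
    [(39, 41), (38, 41), (34, 5), (34, 0)],
    [(36, 0), (35, 0), (37, 42), (37, 43)],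
    [(47, 38), (42, 44), (36, 1), (36, 0)],
    [(46, 40), (43, 44), (39, 2), (39, 0)]]⟩

def cubLat25 : List LatE :=
  [⟨⟨⟨1, 0, 0⟩, ⟨0, 1, 0⟩, ⟨0, 0, 1⟩⟩, 1, ⟨⟨0, 0, 0⟩, ⟨0, 0, 0⟩, ⟨0, 0, 0⟩⟩⟩,
   ⟨⟨⟨1, 1, 1⟩, ⟨0, 2, 0⟩, ⟨0, 0, 2⟩⟩, 2, ⟨⟨0, 0, 0⟩, ⟨0, 0, 0⟩, ⟨0, 0, 0⟩⟩⟩,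
   ⟨⟨⟨1, 1, 0⟩, ⟨0, 1, 1⟩, ⟨0, 0, 2⟩⟩, 2, ⟨⟨0, 0, 0⟩, ⟨0, 0, 0⟩, ⟨0, 0, 0⟩⟩⟩]

def cubRow26 : Row :=
  ⟨[⟨⟨0, 0, 1⟩, ⟨-1, 0, 0⟩, ⟨0, 1, 0⟩⟩], ⟨⟨1, 0, 0⟩, ⟨0, 1, 0⟩, ⟨0, 0, -1⟩⟩, ⟨⟨1, 0, 0⟩, ⟨0, 1, 0⟩, ⟨0, 0, -1⟩⟩, 6,
   [⟨⟨⟨1, 0, 0⟩, ⟨0, 1, 0⟩, ⟨0, 0, 1⟩⟩, ⟨⟨0, 0, 0⟩, ⟨0, 0, 0⟩, ⟨0, 0, 0⟩⟩⟩,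
    ⟨⟨⟨0, 0, 1⟩, ⟨-1, 0, 0⟩, ⟨0, 1, 0⟩⟩, ⟨⟨0, 0, 0⟩, ⟨0, 0, 0⟩, ⟨0, 0, 0⟩⟩⟩,
    ⟨⟨⟨0, 1, 0⟩, ⟨0, 0, -1⟩, ⟨-1, 0, 0⟩⟩, ⟨⟨0, 0, 0⟩, ⟨0, 0, 0⟩, ⟨0, 0, 0⟩⟩⟩,
    ⟨⟨⟨-1, 0, 0⟩, ⟨0, -1, 0⟩, ⟨0, 0, -1⟩⟩, ⟨⟨0, 0, 0⟩, ⟨0, 0, 0⟩, ⟨0, 0, 0⟩⟩⟩,
    ⟨⟨⟨0, 0, -1⟩, ⟨1, 0, 0⟩, ⟨0, -1, 0⟩⟩, ⟨⟨0, 0, 0⟩, ⟨0, 0, 0⟩, ⟨0, 0, 0⟩⟩⟩,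
    ⟨⟨⟨0, -1, 0⟩, ⟨0, 0, 1⟩, ⟨1, 0, 0⟩⟩, ⟨⟨0, 0, 0⟩, ⟨0, 0, 0⟩, ⟨0, 0, 0⟩⟩⟩,
    ⟨⟨⟨1, 0, 0⟩, ⟨0, 1, 0⟩, ⟨0, 0, -1⟩⟩, ⟨⟨1, 0, 0⟩, ⟨0, 1, 0⟩, ⟨0, 0, 1⟩⟩⟩,
    ⟨⟨⟨0, 0, -1⟩, ⟨-1, 0, 0⟩, ⟨0, 1, 0⟩⟩, ⟨⟨0, 0, 1⟩, ⟨-1, 0, 0⟩, ⟨0, 1, 0⟩⟩⟩,
    ⟨⟨⟨0, 1, 0⟩, ⟨0, 0, 1⟩, ⟨-1, 0, 0⟩⟩, ⟨⟨0, 1, 0⟩, ⟨0, 0, -1⟩, ⟨-1, 0, 0⟩⟩⟩,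
    ⟨⟨⟨-1, 0, 0⟩, ⟨0, -1, 0⟩, ⟨0, 0, 1⟩⟩, ⟨⟨-1, 0, 0⟩, ⟨0, -1, 0⟩, ⟨0, 0, -1⟩⟩⟩,
    ⟨⟨⟨0, 0, 1⟩, ⟨1, 0, 0⟩, ⟨0, -1, 0⟩⟩, ⟨⟨0, 0, -1⟩, ⟨1, 0, 0⟩, ⟨0, -1, 0⟩⟩⟩,
    ⟨⟨⟨0, -1, 0⟩, ⟨0, 0, -1⟩, ⟨1, 0, 0⟩⟩, ⟨⟨0, -1, 0⟩, ⟨0, 0, 1⟩, ⟨1, 0, 0⟩⟩⟩,
    ⟨⟨⟨0, 0, 1⟩, ⟨-1, 0, 0⟩, ⟨0, -1, 0⟩⟩, ⟨⟨1, 0, 0⟩, ⟨0, 1, 0⟩, ⟨0, 0, 1⟩⟩⟩,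
    ⟨⟨⟨0, -1, 0⟩, ⟨0, 0, -1⟩, ⟨-1, 0, 0⟩⟩, ⟨⟨0, 0, 1⟩, ⟨-1, 0, 0⟩, ⟨0, 1, 0⟩⟩⟩,
    ⟨⟨⟨-1, 0, 0⟩, ⟨0, 1, 0⟩, ⟨0, 0, -1⟩⟩, ⟨⟨0, 1, 0⟩, ⟨0, 0, -1⟩, ⟨-1, 0, 0⟩⟩⟩,
    ⟨⟨⟨0, 0, -1⟩, ⟨1, 0, 0⟩, ⟨0, 1, 0⟩⟩, ⟨⟨-1, 0, 0⟩, ⟨0, -1, 0⟩, ⟨0, 0, -1⟩⟩⟩,
    ⟨⟨⟨0, 1, 0⟩, ⟨0, 0, 1⟩, ⟨1, 0, 0⟩⟩, ⟨⟨0, 0, -1⟩, ⟨1, 0, 0⟩, ⟨0, -1, 0⟩⟩⟩,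
    ⟨⟨⟨1, 0, 0⟩, ⟨0, -1, 0⟩, ⟨0, 0, 1⟩⟩, ⟨⟨0, -1, 0⟩, ⟨0, 0, 1⟩, ⟨1, 0, 0⟩⟩⟩,
    ⟨⟨⟨0, 1, 0⟩, ⟨0, 0, -1⟩, ⟨1, 0, 0⟩⟩, ⟨⟨1, 0, 0⟩, ⟨0, 1, 0⟩, ⟨0, 0, 1⟩⟩⟩,
    ⟨⟨⟨0, 0, -1⟩, ⟨-1, 0, 0⟩, ⟨0, -1, 0⟩⟩, ⟨⟨1, 0, 1⟩, ⟨-1, 1, 0⟩, ⟨0, -1, 1⟩⟩⟩,
    ⟨⟨⟨1, 0, 0⟩, ⟨0, -1, 0⟩, ⟨0, 0, -1⟩⟩, ⟨⟨0, 0, 1⟩, ⟨-1, 0, 0⟩, ⟨0, 1, 0⟩⟩⟩,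
    ⟨⟨⟨0, -1, 0⟩, ⟨0, 0, 1⟩, ⟨-1, 0, 0⟩⟩, ⟨⟨0, -1, 1⟩, ⟨-1, 0, -1⟩, ⟨-1, 1, 0⟩⟩⟩,
    ⟨⟨⟨-1, 0, 0⟩, ⟨0, 1, 0⟩, ⟨0, 0, 1⟩⟩, ⟨⟨-1, 1, 0⟩, ⟨0, 1, -1⟩, ⟨-1, 0, -1⟩⟩⟩,
    ⟨⟨⟨0, 0, 1⟩, ⟨1, 0, 0⟩, ⟨0, 1, 0⟩⟩, ⟨⟨-1, 0, -1⟩, ⟨1, -1, 0⟩, ⟨0, 1, -1⟩⟩⟩],
   [(0, 0), (1, 0), (2, 0), (3, 0), (4, 0), (0, 1), (1, 1), (2, 1), (3, 1), (4, 1), (5, 1), (6, 0), (7, 0), (8, 0), (9, 0), (10, 0), (11, 0), (12, 0), (12, 1), (13, 0), (13, 1), (14, 1), (15, 1)],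
   [⟨⟨0, 0, 0⟩, ⟨0, 0, 0⟩, ⟨0, 0, 0⟩⟩,
    ⟨⟨-2, 0, 0⟩, ⟨0, -2, 0⟩, ⟨0, 0, 0⟩⟩,
    ⟨⟨0, 0, 0⟩, ⟨2, 0, 0⟩, ⟨0, -2, 0⟩⟩,
    ⟨⟨0, -2, 0⟩, ⟨0, 0, 0⟩, ⟨2, 0, 0⟩⟩,
    ⟨⟨2, 0, 0⟩, ⟨0, 2, 0⟩, ⟨0, 0, 0⟩⟩,
    ⟨⟨0, 0, 0⟩, ⟨-2, 0, 0⟩, ⟨0, 2, 0⟩⟩,
    ⟨⟨0, 2, 0⟩, ⟨0, 0, 0⟩, ⟨-2, 0, 0⟩⟩,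
    ⟨⟨0, 0, 0⟩, ⟨2, 0, 0⟩, ⟨0, 2, 0⟩⟩,
    ⟨⟨0, 2, 0⟩, ⟨0, 0, 0⟩, ⟨2, 0, 0⟩⟩,
    ⟨⟨-1, 1, -1⟩, ⟨1, -1, -1⟩, ⟨-1, 1, -1⟩⟩,
    ⟨⟨2, 0, 0⟩, ⟨0, -2, 0⟩, ⟨0, 0, 0⟩⟩,
    ⟨⟨-1, 1, -1⟩, ⟨1, -1, 1⟩, ⟨1, -1, -1⟩⟩,
    ⟨⟨0, 0, 0⟩, ⟨-2, 0, 0⟩, ⟨0, -2, 0⟩⟩,
    ⟨⟨1, -1, -1⟩, ⟨1, -1, 1⟩, ⟨1, -1, 1⟩⟩,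
    ⟨⟨-1, -1, -1⟩, ⟨1, -1, 1⟩, ⟨-1, -1, -1⟩⟩,
    ⟨⟨1, -1, 1⟩, ⟨-1, 1, 1⟩, ⟨1, -1, 1⟩⟩,
    ⟨⟨-1, -1, -1⟩, ⟨1, 1, 1⟩, ⟨1, -1, 1⟩⟩,
    ⟨⟨2, 0, 0⟩, ⟨0, 2, 0⟩, ⟨0, 0, 2⟩⟩,
    ⟨⟨1, 1, 1⟩, ⟨-1, 1, -1⟩, ⟨1, 1, 1⟩⟩,
    ⟨⟨1, -1, 1⟩, ⟨-1, 1, -1⟩, ⟨-1, 1, 1⟩⟩,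
    ⟨⟨1, 1, 1⟩, ⟨-1, 1, -1⟩, ⟨-1, -1, 1⟩⟩,
    ⟨⟨0, 0, 2⟩, ⟨-2, 0, 0⟩, ⟨0, 2, 0⟩⟩,
    ⟨⟨1, 1, 1⟩, ⟨-1, -1, -1⟩, ⟨-1, 1, -1⟩⟩,
    ⟨⟨-1, 1, 1⟩, ⟨-1, 1, -1⟩, ⟨-1, 1, -1⟩⟩,
    ⟨⟨-1, -1, 1⟩, ⟨-1, -1, -1⟩, ⟨-1, 1, -1⟩⟩,
    ⟨⟨0, -2, 0⟩, ⟨0, 0, 0⟩, ⟨-2, 0, 0⟩⟩,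
    ⟨⟨-1, 1, -1⟩, ⟨1, 1, -1⟩, ⟨-1, -1, -1⟩⟩,
    ⟨⟨-2, 0, 0⟩, ⟨0, 2, 0⟩, ⟨0, 0, 0⟩⟩,
    ⟨⟨-1, -1, -1⟩, ⟨1, -1, 1⟩, ⟨1, 1, -1⟩⟩],
   [[(1, 0), (6, 0), (6, 1)],
    [(2, 0), (7, 0), (7, 2)],
    [(3, 0), (8, 0), (8, 3)],
    [(4, 0), (9, 0), (9, 4)],
    [(5, 0), (10, 0), (10, 5)],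
    [(0, 0), (11, 0), (11, 6)],
    [(12, 0), (0, 4), (0, 0)],
    [(13, 0), (1, 5), (1, 0)],
    [(14, 0), (2, 6), (2, 0)],
    [(15, 0), (3, 1), (3, 0)],
    [(16, 0), (4, 2), (4, 0)],
    [(17, 0), (5, 3), (5, 0)],
    [(18, 0), (19, 0), (19, 7)],
    [(20, 0), (21, 0), (21, 8)],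
    [(19, 9), (22, 0), (22, 10)],
    [(21, 11), (23, 0), (23, 12)],
    [(22, 13), (18, 11), (18, 14)],
    [(23, 15), (20, 13), (20, 16)],
    [(9, 17), (16, 18), (16, 19)],
    [(11, 20), (12, 12), (12, 0)],
    [(10, 21), (17, 22), (17, 23)],
    [(6, 24), (13, 25), (13, 0)],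
    [(7, 26), (14, 27), (14, 0)],
    [(8, 28), (15, 7), (15, 0)]]⟩

def cubLat26 : List LatE :=
  [⟨⟨⟨1, 1, 0⟩, ⟨0, 1, 1⟩, ⟨0, 0, 2⟩⟩, 2, ⟨⟨0, 0, 0⟩, ⟨0, 0, 0⟩, ⟨0, 0, 0⟩⟩⟩,
   ⟨⟨⟨1, 1, 0⟩, ⟨0, 1, 1⟩, ⟨0, 0, 2⟩⟩, 2, ⟨⟨0, 0, 0⟩, ⟨0, 0, 0⟩, ⟨0, 0, 0⟩⟩⟩,
   ⟨⟨⟨1, 1, 0⟩, ⟨0, 1, 1⟩, ⟨0, 0, 2⟩⟩, 2, ⟨⟨0, 0, 0⟩, ⟨0, 0, 0⟩, ⟨0, 0, 0⟩⟩⟩]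

def cubRow27 : Row :=
  ⟨[⟨⟨0, 0, 1⟩, ⟨-1, 0, 0⟩, ⟨0, 1, 0⟩⟩], ⟨⟨1, 0, 0⟩, ⟨0, 0, 1⟩, ⟨0, 1, 0⟩⟩, ⟨⟨1, 0, 0⟩, ⟨0, 0, 1⟩, ⟨0, 1, 0⟩⟩, 6,
   [⟨⟨⟨1, 0, 0⟩, ⟨0, 1, 0⟩, ⟨0, 0, 1⟩⟩, ⟨⟨0, 0, 0⟩, ⟨0, 0, 0⟩, ⟨0, 0, 0⟩⟩⟩,
    ⟨⟨⟨0, 0, 1⟩, ⟨-1, 0, 0⟩, ⟨0, 1, 0⟩⟩, ⟨⟨0, 0, 0⟩, ⟨0, 0, 0⟩, ⟨0, 0, 0⟩⟩⟩,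
    ⟨⟨⟨0, 1, 0⟩, ⟨0, 0, -1⟩, ⟨-1, 0, 0⟩⟩, ⟨⟨0, 0, 0⟩, ⟨0, 0, 0⟩, ⟨0, 0, 0⟩⟩⟩,
    ⟨⟨⟨-1, 0, 0⟩, ⟨0, -1, 0⟩, ⟨0, 0, -1⟩⟩, ⟨⟨0, 0, 0⟩, ⟨0, 0, 0⟩, ⟨0, 0, 0⟩⟩⟩,
    ⟨⟨⟨0, 0, -1⟩, ⟨1, 0, 0⟩, ⟨0, -1, 0⟩⟩, ⟨⟨0, 0, 0⟩, ⟨0, 0, 0⟩, ⟨0, 0, 0⟩⟩⟩,
    ⟨⟨⟨0, -1, 0⟩, ⟨0, 0, 1⟩, ⟨1, 0, 0⟩⟩, ⟨⟨0, 0, 0⟩, ⟨0, 0, 0⟩, ⟨0, 0, 0⟩⟩⟩,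
    ⟨⟨⟨1, 0, 0⟩, ⟨0, 0, 1⟩, ⟨0, 1, 0⟩⟩, ⟨⟨1, 0, 0⟩, ⟨0, 1, 0⟩, ⟨0, 0, 1⟩⟩⟩,
    ⟨⟨⟨0, 1, 0⟩, ⟨-1, 0, 0⟩, ⟨0, 0, 1⟩⟩, ⟨⟨0, 0, 1⟩, ⟨-1, 0, 0⟩, ⟨0, 1, 0⟩⟩⟩,
    ⟨⟨⟨0, 0, 1⟩, ⟨0, -1, 0⟩, ⟨-1, 0, 0⟩⟩, ⟨⟨0, 1, 0⟩, ⟨0, 0, -1⟩, ⟨-1, 0, 0⟩⟩⟩,
    ⟨⟨⟨-1, 0, 0⟩, ⟨0, 0, -1⟩, ⟨0, -1, 0⟩⟩, ⟨⟨-1, 0, 0⟩, ⟨0, -1, 0⟩, ⟨0, 0, -1⟩⟩⟩,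
    ⟨⟨⟨0, -1, 0⟩, ⟨1, 0, 0⟩, ⟨0, 0, -1⟩⟩, ⟨⟨0, 0, -1⟩, ⟨1, 0, 0⟩, ⟨0, -1, 0⟩⟩⟩,
    ⟨⟨⟨0, 0, -1⟩, ⟨0, 1, 0⟩, ⟨1, 0, 0⟩⟩, ⟨⟨0, -1, 0⟩, ⟨0, 0, 1⟩, ⟨1, 0, 0⟩⟩⟩,
    ⟨⟨⟨0, 0, 1⟩, ⟨0, 1, 0⟩, ⟨-1, 0, 0⟩⟩, ⟨⟨1, 0, 0⟩, ⟨0, 1, 0⟩, ⟨0, 0, 1⟩⟩⟩,
    ⟨⟨⟨-1, 0, 0⟩, ⟨0, 0, -1⟩, ⟨0, 1, 0⟩⟩, ⟨⟨0, 0, 1⟩, ⟨-1, 0, 0⟩, ⟨0, 1, 0⟩⟩⟩,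
    ⟨⟨⟨0, 1, 0⟩, ⟨1, 0, 0⟩, ⟨0, 0, -1⟩⟩, ⟨⟨0, 1, 0⟩, ⟨0, 0, -1⟩, ⟨-1, 0, 0⟩⟩⟩,
    ⟨⟨⟨0, 0, -1⟩, ⟨0, -1, 0⟩, ⟨1, 0, 0⟩⟩, ⟨⟨-1, 0, 0⟩, ⟨0, -1, 0⟩, ⟨0, 0, -1⟩⟩⟩,
    ⟨⟨⟨1, 0, 0⟩, ⟨0, 0, 1⟩, ⟨0, -1, 0⟩⟩, ⟨⟨0, 0, -1⟩, ⟨1, 0, 0⟩, ⟨0, -1, 0⟩⟩⟩,
    ⟨⟨⟨0, -1, 0⟩, ⟨-1, 0, 0⟩, ⟨0, 0, 1⟩⟩, ⟨⟨0, -1, 0⟩, ⟨0, 0, 1⟩, ⟨1, 0, 0⟩⟩⟩,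
    ⟨⟨⟨0, 1, 0⟩, ⟨-1, 0, 0⟩, ⟨0, 0, -1⟩⟩, ⟨⟨1, 0, 0⟩, ⟨0, 1, 0⟩, ⟨0, 0, 1⟩⟩⟩,
    ⟨⟨⟨0, 1, 0⟩, ⟨0, 0, 1⟩, ⟨-1, 0, 0⟩⟩, ⟨⟨1, 0, 1⟩, ⟨0, 2, 0⟩, ⟨-1, 0, 1⟩⟩⟩,
    ⟨⟨⟨0, 0, -1⟩, ⟨0, -1, 0⟩, ⟨-1, 0, 0⟩⟩, ⟨⟨0, 0, 1⟩, ⟨-1, 0, 0⟩, ⟨0, 1, 0⟩⟩⟩,
    ⟨⟨⟨-1, 0, 0⟩, ⟨0, -1, 0⟩, ⟨0, 0, 1⟩⟩, ⟨⟨-1, 0, 1⟩, ⟨-1, 0, -1⟩, ⟨0, 2, 0⟩⟩⟩,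
    ⟨⟨⟨-1, 0, 0⟩, ⟨0, 0, 1⟩, ⟨0, -1, 0⟩⟩, ⟨⟨0, 1, 0⟩, ⟨0, 0, -1⟩, ⟨-1, 0, 0⟩⟩⟩,
    ⟨⟨⟨0, 0, 1⟩, ⟨1, 0, 0⟩, ⟨0, -1, 0⟩⟩, ⟨⟨0, 2, 0⟩, ⟨1, 0, -1⟩, ⟨-1, 0, -1⟩⟩⟩,
    ⟨⟨⟨0, -1, 0⟩, ⟨1, 0, 0⟩, ⟨0, 0, 1⟩⟩, ⟨⟨-1, 0, 0⟩, ⟨0, -1, 0⟩, ⟨0, 0, -1⟩⟩⟩,
    ⟨⟨⟨0, -1, 0⟩, ⟨0, 0, -1⟩, ⟨1, 0, 0⟩⟩, ⟨⟨-1, 0, -1⟩, ⟨0, -2, 0⟩, ⟨1, 0, -1⟩⟩⟩,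
    ⟨⟨⟨0, 0, 1⟩, ⟨0, 1, 0⟩, ⟨1, 0, 0⟩⟩, ⟨⟨0, 0, -1⟩, ⟨1, 0, 0⟩, ⟨0, -1, 0⟩⟩⟩,
    ⟨⟨⟨1, 0, 0⟩, ⟨0, 1, 0⟩, ⟨0, 0, -1⟩⟩, ⟨⟨1, 0, -1⟩, ⟨1, 0, 1⟩, ⟨0, -2, 0⟩⟩⟩,
    ⟨⟨⟨1, 0, 0⟩, ⟨0, 0, -1⟩, ⟨0, 1, 0⟩⟩, ⟨⟨0, -1, 0⟩, ⟨0, 0, 1⟩, ⟨1, 0, 0⟩⟩⟩,
    ⟨⟨⟨0, 0, -1⟩, ⟨-1, 0, 0⟩, ⟨0, 1, 0⟩⟩, ⟨⟨0, -2, 0⟩, ⟨-1, 0, 1⟩, ⟨1, 0, 1⟩⟩⟩,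
    ⟨⟨⟨0, 0, 1⟩, ⟨-1, 0, 0⟩, ⟨0, -1, 0⟩⟩, ⟨⟨1, 1, 0⟩, ⟨-1, 1, 0⟩, ⟨0, 0, 0⟩⟩⟩,
    ⟨⟨⟨-1, 0, 0⟩, ⟨0, 1, 0⟩, ⟨0, 0, -1⟩⟩, ⟨⟨1, 0, 1⟩, ⟨0, 2, 0⟩, ⟨-1, 0, 1⟩⟩⟩,
    ⟨⟨⟨0, -1, 0⟩, ⟨0, 0, -1⟩, ⟨-1, 0, 0⟩⟩, ⟨⟨0, 0, 0⟩, ⟨-1, -1, 0⟩, ⟨-1, 1, 0⟩⟩⟩,
    ⟨⟨⟨0, 0, -1⟩, ⟨1, 0, 0⟩, ⟨0, 1, 0⟩⟩, ⟨⟨-1, 0, 1⟩, ⟨-1, 0, -1⟩, ⟨0, 2, 0⟩⟩⟩,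
    ⟨⟨⟨0, 1, 0⟩, ⟨0, 0, 1⟩, ⟨1, 0, 0⟩⟩, ⟨⟨0, 2, 0⟩, ⟨1, 0, -1⟩, ⟨-1, 0, -1⟩⟩⟩,
    ⟨⟨⟨1, 0, 0⟩, ⟨0, -1, 0⟩, ⟨0, 0, 1⟩⟩, ⟨⟨-1, 0, -1⟩, ⟨0, -2, 0⟩, ⟨1, 0, -1⟩⟩⟩,
    ⟨⟨⟨0, 1, 0⟩, ⟨0, 0, -1⟩, ⟨1, 0, 0⟩⟩, ⟨⟨1, 1, 0⟩, ⟨-1, 1, 0⟩, ⟨0, 0, 0⟩⟩⟩,
    ⟨⟨⟨0, 0, -1⟩, ⟨-1, 0, 0⟩, ⟨0, -1, 0⟩⟩, ⟨⟨1, 0, 1⟩, ⟨0, 2, 0⟩, ⟨-1, 0, 1⟩⟩⟩,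
    ⟨⟨⟨1, 0, 0⟩, ⟨0, -1, 0⟩, ⟨0, 0, -1⟩⟩, ⟨⟨0, 0, 0⟩, ⟨-1, -1, 0⟩, ⟨-1, 1, 0⟩⟩⟩,
    ⟨⟨⟨0, -1, 0⟩, ⟨0, 0, 1⟩, ⟨-1, 0, 0⟩⟩, ⟨⟨-1, 0, 1⟩, ⟨-1, 0, -1⟩, ⟨0, 2, 0⟩⟩⟩,
    ⟨⟨⟨-1, 0, 0⟩, ⟨0, 1, 0⟩, ⟨0, 0, 1⟩⟩, ⟨⟨0, 2, 0⟩, ⟨1, 0, -1⟩, ⟨-1, 0, -1⟩⟩⟩,
    ⟨⟨⟨0, 0, 1⟩, ⟨1, 0, 0⟩, ⟨0, 1, 0⟩⟩, ⟨⟨-1, 0, -1⟩, ⟨0, -2, 0⟩, ⟨1, 0, -1⟩⟩⟩,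
    ⟨⟨⟨0, 0, 1⟩, ⟨0, -1, 0⟩, ⟨1, 0, 0⟩⟩, ⟨⟨1, 2, 0⟩, ⟨-1, 1, -1⟩, ⟨1, 0, 0⟩⟩⟩,
    ⟨⟨⟨0, -1, 0⟩, ⟨-1, 0, 0⟩, ⟨0, 0, -1⟩⟩, ⟨⟨1, 0, 0⟩, ⟨-1, 2, 0⟩, ⟨-1, -1, 1⟩⟩⟩,
    ⟨⟨⟨1, 0, 0⟩, ⟨0, 0, -1⟩, ⟨0, -1, 0⟩⟩, ⟨⟨1, 0, 0⟩, ⟨-1, -2, 0⟩, ⟨-1, 1, -1⟩⟩⟩,
    ⟨⟨⟨0, 0, -1⟩, ⟨0, 1, 0⟩, ⟨-1, 0, 0⟩⟩, ⟨⟨-1, -1, 1⟩, ⟨-1, 0, 0⟩, ⟨-1, 2, 0⟩⟩⟩,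
    ⟨⟨⟨-1, 0, 0⟩, ⟨0, 0, 1⟩, ⟨0, 1, 0⟩⟩, ⟨⟨-1, 2, 0⟩, ⟨1, 1, -1⟩, ⟨-1, 0, 0⟩⟩⟩,
    ⟨⟨⟨0, 1, 0⟩, ⟨1, 0, 0⟩, ⟨0, 0, 1⟩⟩, ⟨⟨-1, 0, 0⟩, ⟨1, -2, 0⟩, ⟨1, 1, -1⟩⟩⟩],
   [(0, 0), (1, 0), (2, 0), (3, 0), (4, 0), (0, 1), (1, 1), (2, 1), (3, 1), (4, 1), (5, 1), (6, 0), (7, 0), (8, 0), (9, 0), (10, 0), (11, 0), (12, 0), (12, 1), (13, 0), (13, 1), (14, 0), (14, 1), (15, 0), (15, 1), (16, 0), (16, 1), (17, 0), (17, 1), (18, 1), (19, 0), (20, 1), (21, 0), (23, 0), (25, 0), (30, 0), (31, 0), (32, 0), (33, 0), (34, 0),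 (35, 0), (36, 1), (37, 1), (38, 1), (39, 1), (40, 1), (41, 1)],
   [⟨⟨0, 0, 0⟩, ⟨0, 0, 0⟩, ⟨0, 0, 0⟩⟩,
    ⟨⟨-2, 0, 0⟩, ⟨0, -1, -1⟩, ⟨0, -1, -1⟩⟩,
    ⟨⟨0, -1, -1⟩, ⟨2, 0, 0⟩, ⟨0, -1, -1⟩⟩,
    ⟨⟨0, -1, -1⟩, ⟨0, 1, 1⟩, ⟨2, 0, 0⟩⟩,
    ⟨⟨2, 0, 0⟩, ⟨0, 1, 1⟩, ⟨0, 1, 1⟩⟩,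
    ⟨⟨0, 1, 1⟩, ⟨-2, 0, 0⟩, ⟨0, 1, 1⟩⟩,
    ⟨⟨0, 1, 1⟩, ⟨0, -1, -1⟩, ⟨-2, 0, 0⟩⟩,
    ⟨⟨0, -1, -1⟩, ⟨0, -1, -1⟩, ⟨2, 0, 0⟩⟩,
    ⟨⟨2, 0, 0⟩, ⟨0, 1, 1⟩, ⟨0, -1, -1⟩⟩,
    ⟨⟨0, -1, -1⟩, ⟨-2, 0, 0⟩, ⟨0, 1, 1⟩⟩,
    ⟨⟨0, 1, 1⟩, ⟨0, 1, 1⟩, ⟨-2, 0, 0⟩⟩,
    ⟨⟨-2, 0, 0⟩, ⟨0, -1, -1⟩, ⟨0, 1, 1⟩⟩,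
    ⟨⟨0, 1, 1⟩, ⟨2, 0, 0⟩, ⟨0, -1, -1⟩⟩,
    ⟨⟨2, 0, 0⟩, ⟨0, 2, 0⟩, ⟨0, 0, 2⟩⟩,
    ⟨⟨0, -1, -1⟩, ⟨2, 0, 0⟩, ⟨0, 1, 1⟩⟩,
    ⟨⟨0, 0, 2⟩, ⟨-2, 0, 0⟩, ⟨0, 2, 0⟩⟩,
    ⟨⟨0, 1, 1⟩, ⟨0, 1, 1⟩, ⟨2, 0, 0⟩⟩,
    ⟨⟨0, 2, 0⟩, ⟨0, 0, -2⟩, ⟨-2, 0, 0⟩⟩,
    ⟨⟨-2, 1, -1⟩, ⟨0, -2, 0⟩, ⟨0, -1, -1⟩⟩,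
    ⟨⟨0, 1, -1⟩, ⟨0, -3, -1⟩, ⟨0, 0, 0⟩⟩,
    ⟨⟨-2, 0, 0⟩, ⟨0, -2, 0⟩, ⟨0, 0, -2⟩⟩,
    ⟨⟨0, -1, -1⟩, ⟨2, -1, 1⟩, ⟨0, -2, 0⟩⟩,
    ⟨⟨0, 0, 0⟩, ⟨0, -1, 1⟩, ⟨0, -3, -1⟩⟩,
    ⟨⟨0, 0, -2⟩, ⟨2, 0, 0⟩, ⟨0, -2, 0⟩⟩,
    ⟨⟨0, -2, 0⟩, ⟨0, 1, 1⟩, ⟨2, -1, 1⟩⟩,
    ⟨⟨0, -3, -1⟩, ⟨0, 0, 0⟩, ⟨0, -1, 1⟩⟩,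
    ⟨⟨0, -2, 0⟩, ⟨0, 0, 2⟩, ⟨2, 0, 0⟩⟩,
    ⟨⟨2, -1, 1⟩, ⟨0, 2, 0⟩, ⟨0, 1, 1⟩⟩,
    ⟨⟨0, -1, 1⟩, ⟨0, 3, 1⟩, ⟨0, 0, 0⟩⟩,
    ⟨⟨0, 1, 1⟩, ⟨-2, 0, 0⟩, ⟨0, -1, -1⟩⟩,
    ⟨⟨0, -1, -1⟩, ⟨0, -1, -1⟩, ⟨-2, 0, 0⟩⟩,
    ⟨⟨0, 0, 0⟩, ⟨0, 1, -1⟩, ⟨0, 3, 1⟩⟩,
    ⟨⟨0, 1, 1⟩, ⟨-2, 1, -1⟩, ⟨0, 2, 0⟩⟩,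
    ⟨⟨0, 3, 1⟩, ⟨0, 0, 0⟩, ⟨0, 1, -1⟩⟩,
    ⟨⟨0, 2, 0⟩, ⟨0, -1, -1⟩, ⟨-2, 1, -1⟩⟩,
    ⟨⟨2, 1, -1⟩, ⟨0, 1, 1⟩, ⟨0, -2, 0⟩⟩,
    ⟨⟨0, -1, -1⟩, ⟨0, 1, 1⟩, ⟨-2, 0, 0⟩⟩,
    ⟨⟨2, 0, 2⟩, ⟨0, 4, 0⟩, ⟨-2, 0, 2⟩⟩,
    ⟨⟨0, 1, 1⟩, ⟨2, 0, 0⟩, ⟨0, 1, 1⟩⟩,
    ⟨⟨0, -2, 0⟩, ⟨-2, -1, 1⟩, ⟨0, 1, 1⟩⟩,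
    ⟨⟨-2, 0, 0⟩, ⟨0, 1, 1⟩, ⟨0, 1, 1⟩⟩,
    ⟨⟨-2, 0, 2⟩, ⟨-2, 0, -2⟩, ⟨0, 4, 0⟩⟩,
    ⟨⟨0, 1, 1⟩, ⟨0, -1, -1⟩, ⟨2, 0, 0⟩⟩,
    ⟨⟨0, 4, 0⟩, ⟨2, 0, -2⟩, ⟨-2, 0, -2⟩⟩,
    ⟨⟨2, 0, 0⟩, ⟨0, -1, -1⟩, ⟨0, -1, -1⟩⟩,
    ⟨⟨-2, 0, -2⟩, ⟨0, -4, 0⟩, ⟨2, 0, -2⟩⟩,
    ⟨⟨0, -1, -1⟩, ⟨-2, 0, 0⟩, ⟨0, -1, -1⟩⟩,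
    ⟨⟨2, 2, 0⟩, ⟨-2, 3, -1⟩, ⟨0, -1, 1⟩⟩,
    ⟨⟨0, 0, 0⟩, ⟨0, 4, 0⟩, ⟨0, -2, 2⟩⟩,
    ⟨⟨0, -2, 0⟩, ⟨0, -3, 1⟩, ⟨-2, 1, -1⟩⟩,
    ⟨⟨-2, -1, 1⟩, ⟨0, -2, 0⟩, ⟨0, 3, -1⟩⟩,
    ⟨⟨0, 3, -1⟩, ⟨2, 1, -1⟩, ⟨0, -2, 0⟩⟩,
    ⟨⟨0, -2, 0⟩, ⟨0, -3, 1⟩, ⟨2, 1, -1⟩⟩],
   [[(1, 0), (6, 0), (6, 1)],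
    [(2, 0), (7, 0), (7, 2)],
    [(3, 0), (8, 0), (8, 3)],
    [(4, 0), (9, 0), (9, 4)],
    [(5, 0), (10, 0), (10, 5)],
    [(0, 0), (11, 0), (11, 6)],
    [(12, 0), (0, 4), (0, 0)],
    [(13, 0), (1, 5), (1, 0)],
    [(14, 0), (2, 6), (2, 0)],
    [(15, 0), (3, 1), (3, 0)],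
    [(16, 0), (4, 2), (4, 0)],
    [(17, 0), (5, 3), (5, 0)],
    [(18, 0), (19, 0), (19, 7)],
    [(20, 0), (21, 0), (21, 8)],
    [(22, 0), (23, 0), (23, 9)],
    [(24, 0), (25, 0), (25, 10)],
    [(26, 0), (27, 0), (27, 11)],
    [(28, 0), (29, 0), (29, 12)],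
    [(9, 13), (30, 0), (30, 14)],
    [(31, 0), (12, 10), (12, 0)],
    [(10, 15), (32, 0), (32, 16)],
    [(33, 0), (13, 11), (13, 0)],
    [(11, 17), (31, 18), (31, 19)],
    [(34, 0), (14, 12), (14, 0)],
    [(6, 20), (33, 21), (33, 22)],
    [(35, 0), (15, 7), (15, 0)],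
    [(7, 23), (34, 24), (34, 25)],
    [(30, 21), (16, 8), (16, 0)],
    [(8, 26), (35, 27), (35, 28)],
    [(32, 24), (17, 9), (17, 0)],
    [(36, 0), (18, 29), (18, 0)],
    [(37, 0), (22, 28), (22, 27)],
    [(38, 0), (20, 30), (20, 0)],
    [(39, 0), (24, 31), (24, 32)],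
    [(40, 0), (26, 33), (26, 34)],
    [(41, 0), (28, 19), (28, 18)],
    [(21, 35), (42, 0), (42, 36)],
    [(25, 37), (43, 0), (43, 38)],
    [(23, 39), (44, 0), (44, 40)],
    [(27, 41), (45, 0), (45, 42)],
    [(29, 43), (46, 0), (46, 44)],
    [(19, 45), (47, 0), (47, 46)],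
    [(47, 47), (36, 42), (36, 0)],
    [(44, 48), (37, 46), (37, 0)],
    [(42, 49), (38, 44), (38, 0)],
    [(43, 50), (39, 36), (39, 0)],
    [(45, 51), (40, 40), (40, 0)],
    [(46, 52), (41, 38), (41, 0)]]⟩

def cubLat27 : List LatE :=
  [⟨⟨⟨1, 1, 1⟩, ⟨0, 2, 0⟩, ⟨0, 0, 2⟩⟩, 2, ⟨⟨0, 0, 0⟩, ⟨0, 0, 0⟩, ⟨0, 0, 0⟩⟩⟩,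
   ⟨⟨⟨1, 1, 0⟩, ⟨0, 1, 1⟩, ⟨0, 0, 2⟩⟩, 2, ⟨⟨0, 0, 0⟩, ⟨0, 0, 0⟩, ⟨0, 0, 0⟩⟩⟩,
   ⟨⟨⟨1, 1, 0⟩, ⟨0, 1, 1⟩, ⟨0, 0, 2⟩⟩, 2, ⟨⟨0, 0, 0⟩, ⟨0, 0, 0⟩, ⟨0, 0, 0⟩⟩⟩,
   ⟨⟨⟨1, 0, 0⟩, ⟨0, 1, 0⟩, ⟨0, 0, 1⟩⟩, 1, ⟨⟨0, 0, 0⟩, ⟨0, 0, 0⟩, ⟨0, 0, 0⟩⟩⟩]

def cubRow28 : Row :=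
  ⟨[⟨⟨0, 0, 1⟩, ⟨0, -1, 0⟩, ⟨1, 0, 0⟩⟩, ⟨⟨0, -1, 0⟩, ⟨-1, 0, 0⟩, ⟨0, 0, -1⟩⟩], ⟨⟨1, 0, 0⟩, ⟨0, 1, 0⟩, ⟨0, 0, -1⟩⟩, ⟨⟨1, 0, 0⟩, ⟨0, 1, 0⟩, ⟨0, 0, -1⟩⟩, 6,
   [⟨⟨⟨1, 0, 0⟩, ⟨0, 1, 0⟩, ⟨0, 0, 1⟩⟩, ⟨⟨0, 0, 0⟩, ⟨0, 0, 0⟩, ⟨0, 0, 0⟩⟩⟩,
    ⟨⟨⟨0, 0, 1⟩, ⟨0, -1, 0⟩, ⟨1, 0, 0⟩⟩, ⟨⟨0, 0, 0⟩, ⟨0, 0, 0⟩, ⟨0, 0, 0⟩⟩⟩,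
    ⟨⟨⟨0, -1, 0⟩, ⟨-1, 0, 0⟩, ⟨0, 0, -1⟩⟩, ⟨⟨0, 0, 0⟩, ⟨0, 0, 0⟩, ⟨0, 0, 0⟩⟩⟩,
    ⟨⟨⟨0, 0, -1⟩, ⟨1, 0, 0⟩, ⟨0, -1, 0⟩⟩, ⟨⟨0, 0, 0⟩, ⟨0, 0, 0⟩, ⟨0, 0, 0⟩⟩⟩,
    ⟨⟨⟨0, 1, 0⟩, ⟨0, 0, -1⟩, ⟨-1, 0, 0⟩⟩, ⟨⟨0, 0, 0⟩, ⟨0, 0, 0⟩, ⟨0, 0, 0⟩⟩⟩,
    ⟨⟨⟨-1, 0, 0⟩, ⟨0, 0, 1⟩, ⟨0, 1, 0⟩⟩, ⟨⟨0, 0, 0⟩, ⟨0, 0, 0⟩, ⟨0, 0, 0⟩⟩⟩,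
    ⟨⟨⟨1, 0, 0⟩, ⟨0, 1, 0⟩, ⟨0, 0, -1⟩⟩, ⟨⟨1, 0, 0⟩, ⟨0, 1, 0⟩, ⟨0, 0, 1⟩⟩⟩,
    ⟨⟨⟨0, 0, -1⟩, ⟨0, -1, 0⟩, ⟨1, 0, 0⟩⟩, ⟨⟨0, 0, 1⟩, ⟨0, -1, 0⟩, ⟨1, 0, 0⟩⟩⟩,
    ⟨⟨⟨0, -1, 0⟩, ⟨-1, 0, 0⟩, ⟨0, 0, 1⟩⟩, ⟨⟨0, -1, 0⟩, ⟨-1, 0, 0⟩, ⟨0, 0, -1⟩⟩⟩,
    ⟨⟨⟨0, 0, 1⟩, ⟨1, 0, 0⟩, ⟨0, -1, 0⟩⟩, ⟨⟨0, 0, -1⟩, ⟨1, 0, 0⟩, ⟨0, -1, 0⟩⟩⟩,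
    ⟨⟨⟨0, 1, 0⟩, ⟨0, 0, 1⟩, ⟨-1, 0, 0⟩⟩, ⟨⟨0, 1, 0⟩, ⟨0, 0, -1⟩, ⟨-1, 0, 0⟩⟩⟩,
    ⟨⟨⟨-1, 0, 0⟩, ⟨0, 0, -1⟩, ⟨0, 1, 0⟩⟩, ⟨⟨-1, 0, 0⟩, ⟨0, 0, 1⟩, ⟨0, 1, 0⟩⟩⟩,
    ⟨⟨⟨0, 0, 1⟩, ⟨0, -1, 0⟩, ⟨-1, 0, 0⟩⟩, ⟨⟨1, 0, 0⟩, ⟨0, 1, 0⟩, ⟨0, 0, 1⟩⟩⟩,
    ⟨⟨⟨-1, 0, 0⟩, ⟨0, 1, 0⟩, ⟨0, 0, 1⟩⟩, ⟨⟨0, 0, 1⟩, ⟨0, -1, 0⟩, ⟨1, 0, 0⟩⟩⟩,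
    ⟨⟨⟨0, 1, 0⟩, ⟨0, 0, -1⟩, ⟨1, 0, 0⟩⟩, ⟨⟨0, -1, 0⟩, ⟨-1, 0, 0⟩, ⟨0, 0, -1⟩⟩⟩,
    ⟨⟨⟨1, 0, 0⟩, ⟨0, 0, 1⟩, ⟨0, 1, 0⟩⟩, ⟨⟨0, 0, -1⟩, ⟨1, 0, 0⟩, ⟨0, -1, 0⟩⟩⟩,
    ⟨⟨⟨0, -1, 0⟩, ⟨1, 0, 0⟩, ⟨0, 0, -1⟩⟩, ⟨⟨0, 1, 0⟩, ⟨0, 0, -1⟩, ⟨-1, 0, 0⟩⟩⟩,
    ⟨⟨⟨0, 0, -1⟩, ⟨-1, 0, 0⟩, ⟨0, -1, 0⟩⟩, ⟨⟨-1, 0, 0⟩, ⟨0, 0, 1⟩, ⟨0, 1, 0⟩⟩⟩,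
    ⟨⟨⟨0, 0, -1⟩, ⟨1, 0, 0⟩, ⟨0, 1, 0⟩⟩, ⟨⟨1, 0, 0⟩, ⟨0, 1, 0⟩, ⟨0, 0, 1⟩⟩⟩,
    ⟨⟨⟨0, 0, -1⟩, ⟨0, -1, 0⟩, ⟨-1, 0, 0⟩⟩, ⟨⟨1, 0, 1⟩, ⟨0, 0, 0⟩, ⟨-1, 0, 1⟩⟩⟩,
    ⟨⟨⟨0, 1, 0⟩, ⟨-1, 0, 0⟩, ⟨0, 0, -1⟩⟩, ⟨⟨0, 0, 1⟩, ⟨0, -1, 0⟩, ⟨1, 0, 0⟩⟩⟩,
    ⟨⟨⟨-1, 0, 0⟩, ⟨0, 1, 0⟩, ⟨0, 0, -1⟩⟩, ⟨⟨-1, 0, 1⟩, ⟨0, 0, 0⟩, ⟨1, 0, 1⟩⟩⟩,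
    ⟨⟨⟨-1, 0, 0⟩, ⟨0, 0, 1⟩, ⟨0, -1, 0⟩⟩, ⟨⟨0, -1, 0⟩, ⟨-1, 0, 0⟩, ⟨0, 0, -1⟩⟩⟩,
    ⟨⟨⟨0, 1, 0⟩, ⟨0, 0, 1⟩, ⟨1, 0, 0⟩⟩, ⟨⟨0, 0, 0⟩, ⟨-1, 0, -1⟩, ⟨1, 0, -1⟩⟩⟩,
    ⟨⟨⟨0, -1, 0⟩, ⟨0, 0, -1⟩, ⟨-1, 0, 0⟩⟩, ⟨⟨0, 0, -1⟩, ⟨1, 0, 0⟩, ⟨0, -1, 0⟩⟩⟩,
    ⟨⟨⟨1, 0, 0⟩, ⟨0, 0, -1⟩, ⟨0, 1, 0⟩⟩, ⟨⟨1, 0, -1⟩, ⟨1, 0, 1⟩, ⟨0, 0, 0⟩⟩⟩,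
    ⟨⟨⟨1, 0, 0⟩, ⟨0, -1, 0⟩, ⟨0, 0, 1⟩⟩, ⟨⟨0, 1, 0⟩, ⟨0, 0, -1⟩, ⟨-1, 0, 0⟩⟩⟩,
    ⟨⟨⟨0, -1, 0⟩, ⟨1, 0, 0⟩, ⟨0, 0, 1⟩⟩, ⟨⟨0, 0, 0⟩, ⟨1, 0, -1⟩, ⟨-1, 0, -1⟩⟩⟩,
    ⟨⟨⟨0, 0, 1⟩, ⟨0, 1, 0⟩, ⟨1, 0, 0⟩⟩, ⟨⟨-1, 0, 0⟩, ⟨0, 0, 1⟩, ⟨0, 1, 0⟩⟩⟩,
    ⟨⟨⟨0, 0, 1⟩, ⟨-1, 0, 0⟩, ⟨0, -1, 0⟩⟩, ⟨⟨-1, 0, -1⟩, ⟨-1, 0, 1⟩, ⟨0, 0, 0⟩⟩⟩,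
    ⟨⟨⟨0, 0, 1⟩, ⟨1, 0, 0⟩, ⟨0, 1, 0⟩⟩, ⟨⟨1, 0, -1⟩, ⟨1, 1, 0⟩, ⟨0, 1, 1⟩⟩⟩,
    ⟨⟨⟨0, 1, 0⟩, ⟨-1, 0, 0⟩, ⟨0, 0, 1⟩⟩, ⟨⟨0, 1, 1⟩, ⟨-1, -1, 0⟩, ⟨1, 0, -1⟩⟩⟩,
    ⟨⟨⟨-1, 0, 0⟩, ⟨0, 0, -1⟩, ⟨0, -1, 0⟩⟩, ⟨⟨-1, -1, 0⟩, ⟨-1, 0, 1⟩, ⟨0, -1, -1⟩⟩⟩,
    ⟨⟨⟨0, -1, 0⟩, ⟨0, 0, 1⟩, ⟨-1, 0, 0⟩⟩, ⟨⟨0, -1, -1⟩, ⟨1, 0, -1⟩, ⟨-1, -1, 0⟩⟩⟩,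
    ⟨⟨⟨1, 0, 0⟩, ⟨0, -1, 0⟩, ⟨0, 0, -1⟩⟩, ⟨⟨1, 1, 0⟩, ⟨0, -1, -1⟩, ⟨-1, 0, 1⟩⟩⟩,
    ⟨⟨⟨0, 0, -1⟩, ⟨0, 1, 0⟩, ⟨1, 0, 0⟩⟩, ⟨⟨-1, 0, 1⟩, ⟨0, 1, 1⟩, ⟨1, 1, 0⟩⟩⟩,
    ⟨⟨⟨1, 0, 0⟩, ⟨0, 0, 1⟩, ⟨0, -1, 0⟩⟩, ⟨⟨1, 0, -1⟩, ⟨1, 1, 0⟩, ⟨0, 1, 1⟩⟩⟩,
    ⟨⟨⟨0, -1, 0⟩, ⟨0, 0, -1⟩, ⟨1, 0, 0⟩⟩, ⟨⟨0, 1, 1⟩, ⟨-1, -1, 0⟩, ⟨1, 0, -1⟩⟩⟩,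
    ⟨⟨⟨0, 0, -1⟩, ⟨-1, 0, 0⟩, ⟨0, 1, 0⟩⟩, ⟨⟨-1, -1, 0⟩, ⟨-1, 0, 1⟩, ⟨0, -1, -1⟩⟩⟩,
    ⟨⟨⟨0, 1, 0⟩, ⟨1, 0, 0⟩, ⟨0, 0, -1⟩⟩, ⟨⟨0, -1, -1⟩, ⟨1, 0, -1⟩, ⟨-1, -1, 0⟩⟩⟩,
    ⟨⟨⟨0, 0, 1⟩, ⟨0, 1, 0⟩, ⟨-1, 0, 0⟩⟩, ⟨⟨1, 1, 0⟩, ⟨0, -1, -1⟩, ⟨-1, 0, 1⟩⟩⟩,
    ⟨⟨⟨-1, 0, 0⟩, ⟨0, -1, 0⟩, ⟨0, 0, 1⟩⟩, ⟨⟨-1, 0, 1⟩, ⟨0, 1, 1⟩, ⟨1, 1, 0⟩⟩⟩,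
    ⟨⟨⟨1, 0, 0⟩, ⟨0, 0, -1⟩, ⟨0, -1, 0⟩⟩, ⟨⟨2, 0, -1⟩, ⟨1, 1, 1⟩, ⟨0, 0, 1⟩⟩⟩,
    ⟨⟨⟨0, -1, 0⟩, ⟨0, 0, 1⟩, ⟨1, 0, 0⟩⟩, ⟨⟨0, 0, 1⟩, ⟨-1, -1, -1⟩, ⟨2, 0, -1⟩⟩⟩,
    ⟨⟨⟨0, 0, 1⟩, ⟨-1, 0, 0⟩, ⟨0, 1, 0⟩⟩, ⟨⟨-1, -1, -1⟩, ⟨-2, 0, 1⟩, ⟨0, 0, -1⟩⟩⟩,
    ⟨⟨⟨0, 1, 0⟩, ⟨1, 0, 0⟩, ⟨0, 0, 1⟩⟩, ⟨⟨0, 0, -1⟩, ⟨2, 0, -1⟩, ⟨-1, -1, -1⟩⟩⟩,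
    ⟨⟨⟨0, 0, -1⟩, ⟨0, 1, 0⟩, ⟨-1, 0, 0⟩⟩, ⟨⟨1, 1, 1⟩, ⟨0, 0, -1⟩, ⟨-2, 0, 1⟩⟩⟩,
    ⟨⟨⟨-1, 0, 0⟩, ⟨0, -1, 0⟩, ⟨0, 0, -1⟩⟩, ⟨⟨-2, 0, 1⟩, ⟨0, 0, 1⟩, ⟨1, 1, 1⟩⟩⟩],
   [(0, 0), (0, 1), (1, 1), (2, 0), (3, 0), (0, 2), (1, 2), (2, 2), (3, 2), (4, 2), (5, 2), (6, 0), (7, 0), (8, 0), (9, 0), (10, 0), (11, 0), (12, 1), (12, 2), (13, 1), (13, 2), (14, 1), (14, 2), (15, 1), (15, 2), (16, 1), (16, 2), (17, 1), (17, 2), (18, 2), (20, 2), (22, 2), (24, 2), (26, 2), (28, 2), (30, 0), (31, 0), (32, 0), (33, 0), (34, 0),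 (35, 0), (36, 2), (37, 2), (38, 2), (39, 2), (40, 2), (41, 2)],
   [⟨⟨0, 0, 0⟩, ⟨0, 0, 0⟩, ⟨0, 0, 0⟩⟩,
    ⟨⟨-2, 0, 0⟩, ⟨0, -2, 0⟩, ⟨0, 0, 0⟩⟩,
    ⟨⟨0, 0, 0⟩, ⟨0, 2, 0⟩, ⟨-2, 0, 0⟩⟩,
    ⟨⟨0, 2, 0⟩, ⟨2, 0, 0⟩, ⟨0, 0, 0⟩⟩,
    ⟨⟨0, 0, 0⟩, ⟨-2, 0, 0⟩, ⟨0, 2, 0⟩⟩,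
    ⟨⟨0, -2, 0⟩, ⟨0, 0, 0⟩, ⟨2, 0, 0⟩⟩,
    ⟨⟨2, 0, 0⟩, ⟨0, 0, 0⟩, ⟨0, -2, 0⟩⟩,
    ⟨⟨1, 1, 0⟩, ⟨1, 1, 0⟩, ⟨0, 0, 2⟩⟩,
    ⟨⟨2, 0, 0⟩, ⟨0, 2, 0⟩, ⟨0, 0, 0⟩⟩,
    ⟨⟨0, 0, 2⟩, ⟨-1, -1, 0⟩, ⟨1, 1, 0⟩⟩,
    ⟨⟨0, 0, 0⟩, ⟨0, -2, 0⟩, ⟨2, 0, 0⟩⟩,
    ⟨⟨-1, -1, 0⟩, ⟨-1, -1, 0⟩, ⟨0, 0, -2⟩⟩,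
    ⟨⟨0, -2, 0⟩, ⟨-2, 0, 0⟩, ⟨0, 0, 0⟩⟩,
    ⟨⟨0, 0, -2⟩, ⟨1, 1, 0⟩, ⟨-1, -1, 0⟩⟩,
    ⟨⟨0, 0, 0⟩, ⟨2, 0, 0⟩, ⟨0, -2, 0⟩⟩,
    ⟨⟨1, 1, 0⟩, ⟨0, 0, -2⟩, ⟨-1, -1, 0⟩⟩,
    ⟨⟨0, 2, 0⟩, ⟨0, 0, 0⟩, ⟨-2, 0, 0⟩⟩,
    ⟨⟨-1, -1, 0⟩, ⟨0, 0, 2⟩, ⟨1, 1, 0⟩⟩,
    ⟨⟨-2, 0, 0⟩, ⟨0, 0, 0⟩, ⟨0, 2, 0⟩⟩,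
    ⟨⟨0, 0, 0⟩, ⟨0, 2, 0⟩, ⟨2, 0, 0⟩⟩,
    ⟨⟨2, 0, 0⟩, ⟨0, -2, 0⟩, ⟨0, 0, 0⟩⟩,
    ⟨⟨0, -2, 0⟩, ⟨0, 0, 0⟩, ⟨-2, 0, 0⟩⟩,
    ⟨⟨-2, 0, 0⟩, ⟨0, 0, 0⟩, ⟨0, -2, 0⟩⟩,
    ⟨⟨0, 2, 0⟩, ⟨-2, 0, 0⟩, ⟨0, 0, 0⟩⟩,
    ⟨⟨0, 0, 0⟩, ⟨2, 0, 0⟩, ⟨0, 2, 0⟩⟩,
    ⟨⟨0, 0, 0⟩, ⟨-2, 0, 0⟩, ⟨0, -2, 0⟩⟩,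
    ⟨⟨2, 0, 0⟩, ⟨0, 0, 0⟩, ⟨-2, 0, 0⟩⟩,
    ⟨⟨0, 0, 2⟩, ⟨-1, -1, 0⟩, ⟨-1, -1, 0⟩⟩,
    ⟨⟨0, 0, 0⟩, ⟨0, -2, 0⟩, ⟨-2, 0, 0⟩⟩,
    ⟨⟨0, -2, 0⟩, ⟨2, 0, 0⟩, ⟨0, 0, 0⟩⟩,
    ⟨⟨-2, 0, 0⟩, ⟨0, 0, 0⟩, ⟨2, 0, 0⟩⟩,
    ⟨⟨-1, -1, 0⟩, ⟨1, 1, 0⟩, ⟨0, 0, 2⟩⟩,
    ⟨⟨-2, 0, 0⟩, ⟨0, 2, 0⟩, ⟨0, 0, 0⟩⟩,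
    ⟨⟨2, 0, 0⟩, ⟨0, 0, 0⟩, ⟨0, 2, 0⟩⟩,
    ⟨⟨0, 0, 0⟩, ⟨-2, 0, 0⟩, ⟨2, 0, 0⟩⟩,
    ⟨⟨1, 1, 0⟩, ⟨0, 0, -2⟩, ⟨1, 1, 0⟩⟩,
    ⟨⟨0, 2, 0⟩, ⟨0, 0, 0⟩, ⟨2, 0, 0⟩⟩,
    ⟨⟨2, 0, 0⟩, ⟨2, 0, 0⟩, ⟨0, 0, 0⟩⟩,
    ⟨⟨1, 1, 0⟩, ⟨0, 0, 2⟩, ⟨1, 1, 0⟩⟩,
    ⟨⟨0, 0, 0⟩, ⟨2, 0, 0⟩, ⟨-2, 0, 0⟩⟩,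
    ⟨⟨-1, -1, 0⟩, ⟨1, 1, 0⟩, ⟨0, 0, -2⟩⟩,
    ⟨⟨-2, 0, 0⟩, ⟨-2, 0, 0⟩, ⟨0, 0, 0⟩⟩,
    ⟨⟨0, 0, -2⟩, ⟨-1, -1, 0⟩, ⟨-1, -1, 0⟩⟩,
    ⟨⟨0, 0, -2⟩, ⟨1, 1, 0⟩, ⟨1, 1, 0⟩⟩,
    ⟨⟨1, 1, 0⟩, ⟨-1, -1, 0⟩, ⟨0, 0, -2⟩⟩,
    ⟨⟨-1, -1, 0⟩, ⟨0, 0, 2⟩, ⟨-1, -1, 0⟩⟩,
    ⟨⟨-1, -1, 0⟩, ⟨0, 0, -2⟩, ⟨-1, -1, 0⟩⟩,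
    ⟨⟨1, 1, 0⟩, ⟨-1, -1, 0⟩, ⟨0, 0, 2⟩⟩,
    ⟨⟨0, 0, 2⟩, ⟨1, 1, 0⟩, ⟨1, 1, 0⟩⟩,
    ⟨⟨1, -1, -2⟩, ⟨2, 2, 0⟩, ⟨-1, 1, 2⟩⟩,
    ⟨⟨-1, 1, 2⟩, ⟨-2, -2, 0⟩, ⟨1, -1, -2⟩⟩,
    ⟨⟨-2, -2, 0⟩, ⟨-1, 1, 2⟩, ⟨1, -1, -2⟩⟩,
    ⟨⟨1, -1, -2⟩, ⟨1, -1, -2⟩, ⟨-2, -2, 0⟩⟩,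
    ⟨⟨2, 2, 0⟩, ⟨1, -1, -2⟩, ⟨-1, 1, 2⟩⟩,
    ⟨⟨-1, 1, 2⟩, ⟨-1, 1, 2⟩, ⟨2, 2, 0⟩⟩,
    ⟨⟨3, 1, 0⟩, ⟨3, 1, 0⟩, ⟨0, 0, 2⟩⟩,
    ⟨⟨2, 0, -2⟩, ⟨2, 2, 2⟩, ⟨-2, 0, 2⟩⟩,
    ⟨⟨0, 0, 2⟩, ⟨-3, -1, 0⟩, ⟨3, 1, 0⟩⟩,
    ⟨⟨-2, 0, 2⟩, ⟨-2, -2, -2⟩, ⟨2, 0, -2⟩⟩,
    ⟨⟨-3, -1, 0⟩, ⟨-3, -1, 0⟩, ⟨0, 0, -2⟩⟩,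
    ⟨⟨-2, -2, -2⟩, ⟨-2, 0, 2⟩, ⟨2, 0, -2⟩⟩,
    ⟨⟨0, 0, -2⟩, ⟨3, 1, 0⟩, ⟨-3, -1, 0⟩⟩,
    ⟨⟨2, 0, -2⟩, ⟨2, 0, -2⟩, ⟨-2, -2, -2⟩⟩,
    ⟨⟨3, 1, 0⟩, ⟨0, 0, -2⟩, ⟨-3, -1, 0⟩⟩,
    ⟨⟨2, 2, 2⟩, ⟨2, 0, -2⟩, ⟨-2, 0, 2⟩⟩,
    ⟨⟨-3, -1, 0⟩, ⟨0, 0, 2⟩, ⟨3, 1, 0⟩⟩,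
    ⟨⟨-2, 0, 2⟩, ⟨-2, 0, 2⟩, ⟨2, 2, 2⟩⟩],
   [[(1, 0), (2, 0), (6, 0), (6, 1)],
    [(0, 0), (3, 0), (7, 0), (7, 2)],
    [(4, 0), (0, 0), (8, 0), (8, 3)],
    [(5, 0), (1, 0), (9, 0), (9, 4)],
    [(2, 0), (5, 0), (10, 0), (10, 5)],
    [(3, 0), (4, 0), (11, 0), (11, 6)],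
    [(12, 0), (8, 7), (0, 8), (0, 0)],
    [(13, 0), (9, 9), (1, 10), (1, 0)],
    [(14, 0), (6, 11), (2, 12), (2, 0)],
    [(15, 0), (7, 13), (3, 14), (3, 0)],
    [(16, 0), (11, 15), (4, 16), (4, 0)],
    [(17, 0), (10, 17), (5, 18), (5, 0)],
    [(6, 0), (18, 0), (19, 0), (19, 19)],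
    [(7, 0), (20, 0), (21, 0), (21, 20)],
    [(8, 0), (22, 0), (23, 0), (23, 21)],
    [(9, 0), (24, 0), (25, 0), (25, 22)],
    [(10, 0), (26, 0), (27, 0), (27, 23)],
    [(11, 0), (28, 0), (29, 0), (29, 24)],
    [(22, 7), (12, 0), (30, 0), (30, 25)],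
    [(21, 26), (30, 27), (12, 28), (12, 0)],
    [(24, 9), (13, 0), (31, 0), (31, 29)],
    [(19, 30), (31, 31), (13, 32), (13, 0)],
    [(18, 11), (14, 0), (32, 0), (32, 33)],
    [(27, 34), (32, 35), (14, 36), (14, 0)],
    [(20, 13), (15, 0), (33, 0), (33, 36)],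
    [(29, 37), (33, 38), (15, 33), (15, 0)],
    [(28, 15), (16, 0), (34, 0), (34, 32)],
    [(23, 39), (34, 40), (16, 29), (16, 0)],
    [(26, 17), (17, 0), (35, 0), (35, 28)],
    [(25, 41), (35, 42), (17, 25), (17, 0)],
    [(36, 0), (19, 43), (18, 24), (18, 0)],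
    [(37, 0), (21, 44), (20, 23), (20, 0)],
    [(38, 0), (23, 45), (22, 22), (22, 0)],
    [(39, 0), (25, 46), (24, 21), (24, 0)],
    [(40, 0), (27, 47), (26, 20), (26, 0)],
    [(41, 0), (29, 48), (28, 19), (28, 0)],
    [(30, 0), (37, 49), (42, 0), (42, 18)],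
    [(31, 0), (36, 50), (43, 0), (43, 16)],
    [(32, 0), (40, 51), (44, 0), (44, 14)],
    [(33, 0), (41, 52), (45, 0), (45, 12)],
    [(34, 0), (38, 53), (46, 0), (46, 10)],
    [(35, 0), (39, 54), (47, 0), (47, 8)],
    [(44, 55), (43, 56), (36, 6), (36, 0)],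
    [(45, 57), (42, 58), (37, 5), (37, 0)],
    [(42, 59), (46, 60), (38, 4), (38, 0)],
    [(43, 61), (47, 62), (39, 3), (39, 0)],
    [(47, 63), (44, 64), (40, 2), (40, 0)],
    [(46, 65), (45, 66), (41, 1), (41, 0)]]⟩

def cubLat28 : List LatE :=
  [⟨⟨⟨1, 0, 0⟩, ⟨0, 1, 0⟩, ⟨0, 0, 1⟩⟩, 1, ⟨⟨0, 0, 0⟩, ⟨0, 0, 0⟩, ⟨0, 0, 0⟩⟩⟩,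
   ⟨⟨⟨1, 1, 1⟩, ⟨0, 2, 0⟩, ⟨0, 0, 2⟩⟩, 2, ⟨⟨0, 0, 0⟩, ⟨0, 0, 0⟩, ⟨0, 0, 0⟩⟩⟩]

def cubRow29 : Row :=
  ⟨[⟨⟨0, 0, 1⟩, ⟨0, -1, 0⟩, ⟨1, 0, 0⟩⟩, ⟨⟨0, -1, 0⟩, ⟨-1, 0, 0⟩, ⟨0, 0, -1⟩⟩], ⟨⟨1, 0, 0⟩, ⟨0, 0, 1⟩, ⟨0, -1, 0⟩⟩, ⟨⟨1, 0, 0⟩, ⟨0, 0, -1⟩, ⟨0, 1, 0⟩⟩, 6,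
   [⟨⟨⟨1, 0, 0⟩, ⟨0, 1, 0⟩, ⟨0, 0, 1⟩⟩, ⟨⟨0, 0, 0⟩, ⟨0, 0, 0⟩, ⟨0, 0, 0⟩⟩⟩,
    ⟨⟨⟨0, 0, 1⟩, ⟨0, -1, 0⟩, ⟨1, 0, 0⟩⟩, ⟨⟨0, 0, 0⟩, ⟨0, 0, 0⟩, ⟨0, 0, 0⟩⟩⟩,
    ⟨⟨⟨0, -1, 0⟩, ⟨-1, 0, 0⟩, ⟨0, 0, -1⟩⟩, ⟨⟨0, 0, 0⟩, ⟨0, 0, 0⟩, ⟨0, 0, 0⟩⟩⟩,
    ⟨⟨⟨0, 0, -1⟩, ⟨1, 0, 0⟩, ⟨0, -1, 0⟩⟩, ⟨⟨0, 0, 0⟩, ⟨0, 0, 0⟩, ⟨0, 0, 0⟩⟩⟩,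
    ⟨⟨⟨0, 1, 0⟩, ⟨0, 0, -1⟩, ⟨-1, 0, 0⟩⟩, ⟨⟨0, 0, 0⟩, ⟨0, 0, 0⟩, ⟨0, 0, 0⟩⟩⟩,
    ⟨⟨⟨-1, 0, 0⟩, ⟨0, 0, 1⟩, ⟨0, 1, 0⟩⟩, ⟨⟨0, 0, 0⟩, ⟨0, 0, 0⟩, ⟨0, 0, 0⟩⟩⟩,
    ⟨⟨⟨1, 0, 0⟩, ⟨0, 0, 1⟩, ⟨0, -1, 0⟩⟩, ⟨⟨1, 0, 0⟩, ⟨0, 1, 0⟩, ⟨0, 0, 1⟩⟩⟩,
    ⟨⟨⟨1, 0, 0⟩, ⟨0, 0, -1⟩, ⟨0, 1, 0⟩⟩, ⟨⟨-1, 0, 0⟩, ⟨0, 0, 1⟩, ⟨0, -1, 0⟩⟩⟩,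
    ⟨⟨⟨0, -1, 0⟩, ⟨0, 0, -1⟩, ⟨1, 0, 0⟩⟩, ⟨⟨0, 0, 1⟩, ⟨0, -1, 0⟩, ⟨1, 0, 0⟩⟩⟩,
    ⟨⟨⟨0, 1, 0⟩, ⟨0, 0, 1⟩, ⟨1, 0, 0⟩⟩, ⟨⟨0, -1, 0⟩, ⟨0, 0, -1⟩, ⟨-1, 0, 0⟩⟩⟩,
    ⟨⟨⟨0, 0, -1⟩, ⟨-1, 0, 0⟩, ⟨0, 1, 0⟩⟩, ⟨⟨0, -1, 0⟩, ⟨-1, 0, 0⟩, ⟨0, 0, -1⟩⟩⟩,
    ⟨⟨⟨0, 0, 1⟩, ⟨-1, 0, 0⟩, ⟨0, -1, 0⟩⟩, ⟨⟨0, 0, -1⟩, ⟨1, 0, 0⟩, ⟨0, 1, 0⟩⟩⟩,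
    ⟨⟨⟨0, 1, 0⟩, ⟨1, 0, 0⟩, ⟨0, 0, -1⟩⟩, ⟨⟨0, 0, -1⟩, ⟨1, 0, 0⟩, ⟨0, -1, 0⟩⟩⟩,
    ⟨⟨⟨0, -1, 0⟩, ⟨1, 0, 0⟩, ⟨0, 0, 1⟩⟩, ⟨⟨0, 1, 0⟩, ⟨-1, 0, 0⟩, ⟨0, 0, -1⟩⟩⟩,
    ⟨⟨⟨0, 0, 1⟩, ⟨0, 1, 0⟩, ⟨-1, 0, 0⟩⟩, ⟨⟨0, 1, 0⟩, ⟨0, 0, -1⟩, ⟨-1, 0, 0⟩⟩⟩,
    ⟨⟨⟨0, 0, -1⟩, ⟨0, -1, 0⟩, ⟨-1, 0, 0⟩⟩, ⟨⟨0, 0, 1⟩, ⟨0, 1, 0⟩, ⟨1, 0, 0⟩⟩⟩,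
    ⟨⟨⟨-1, 0, 0⟩, ⟨0, -1, 0⟩, ⟨0, 0, 1⟩⟩, ⟨⟨-1, 0, 0⟩, ⟨0, 0, 1⟩, ⟨0, 1, 0⟩⟩⟩,
    ⟨⟨⟨-1, 0, 0⟩, ⟨0, 1, 0⟩, ⟨0, 0, -1⟩⟩, ⟨⟨1, 0, 0⟩, ⟨0, -1, 0⟩, ⟨0, 0, 1⟩⟩⟩,
    ⟨⟨⟨0, 0, 1⟩, ⟨1, 0, 0⟩, ⟨0, 1, 0⟩⟩, ⟨⟨1, 0, 0⟩, ⟨0, 1, 0⟩, ⟨0, 0, 1⟩⟩⟩,
    ⟨⟨⟨1, 0, 0⟩, ⟨0, -1, 0⟩, ⟨0, 0, -1⟩⟩, ⟨⟨2, 0, 0⟩, ⟨0, 1, 1⟩, ⟨0, -1, 1⟩⟩⟩,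
    ⟨⟨⟨0, -1, 0⟩, ⟨0, 0, 1⟩, ⟨-1, 0, 0⟩⟩, ⟨⟨-1, 0, 0⟩, ⟨0, 0, 1⟩, ⟨0, -1, 0⟩⟩⟩,
    ⟨⟨⟨0, 1, 0⟩, ⟨-1, 0, 0⟩, ⟨0, 0, 1⟩⟩, ⟨⟨0, 0, 1⟩, ⟨0, -1, 0⟩, ⟨1, 0, 0⟩⟩⟩,
    ⟨⟨⟨0, 0, -1⟩, ⟨0, 1, 0⟩, ⟨1, 0, 0⟩⟩, ⟨⟨0, -1, 1⟩, ⟨0, -1, -1⟩, ⟨2, 0, 0⟩⟩⟩,
    ⟨⟨⟨-1, 0, 0⟩, ⟨0, 0, -1⟩, ⟨0, -1, 0⟩⟩, ⟨⟨0, -1, 0⟩, ⟨0, 0, -1⟩, ⟨-1, 0, 0⟩⟩⟩],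
   [(0, 0), (0, 1), (1, 1), (2, 0), (3, 0), (0, 2), (0, 3), (1, 2), (1, 3), (2, 2), (2, 3), (3, 2), (3, 3), (4, 2), (4, 3), (5, 2), (5, 3), (6, 0), (6, 2), (7, 1), (8, 0), (8, 2), (9, 1)],
   [⟨⟨0, 0, 0⟩, ⟨0, 0, 0⟩, ⟨0, 0, 0⟩⟩,
    ⟨⟨1, 0, -1⟩, ⟨0, 2, 0⟩, ⟨-1, 0, 1⟩⟩,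
    ⟨⟨-1, 0, 1⟩, ⟨-1, 0, 1⟩, ⟨0, -2, 0⟩⟩,
    ⟨⟨-4, 0, 0⟩, ⟨0, 0, 0⟩, ⟨0, 0, 0⟩⟩,
    ⟨⟨-1, 0, 1⟩, ⟨0, -2, 0⟩, ⟨1, 0, -1⟩⟩,
    ⟨⟨0, -2, 0⟩, ⟨1, 0, -1⟩, ⟨-1, 0, 1⟩⟩,
    ⟨⟨0, 0, 0⟩, ⟨0, 0, 0⟩, ⟨-4, 0, 0⟩⟩,
    ⟨⟨0, 0, 0⟩, ⟨-1, 0, 1⟩, ⟨1, 0, -1⟩⟩,
    ⟨⟨0, -2, 0⟩, ⟨-1, 0, 1⟩, ⟨1, 0, -1⟩⟩,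
    ⟨⟨0, -1, -2⟩, ⟨-2, 1, 0⟩, ⟨-1, 1, -1⟩⟩,
    ⟨⟨1, 0, -1⟩, ⟨1, 0, -1⟩, ⟨0, 2, 0⟩⟩,
    ⟨⟨0, 1, -2⟩, ⟨1, 1, 1⟩, ⟨-2, 1, 0⟩⟩,
    ⟨⟨0, -1, -2⟩, ⟨2, 1, 0⟩, ⟨-1, 1, -1⟩⟩,
    ⟨⟨1, 0, -1⟩, ⟨1, 0, -1⟩, ⟨0, 0, 0⟩⟩,
    ⟨⟨1, 0, -1⟩, ⟨1, 0, -1⟩, ⟨0, -2, 0⟩⟩,
    ⟨⟨-1, 1, -1⟩, ⟨2, -1, 0⟩, ⟨0, -1, -2⟩⟩,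
    ⟨⟨0, 2, 0⟩, ⟨-1, 0, 1⟩, ⟨1, 0, -1⟩⟩,
    ⟨⟨-2, 1, 0⟩, ⟨-1, -1, -1⟩, ⟨0, 1, -2⟩⟩,
    ⟨⟨-1, 1, -1⟩, ⟨-2, -1, 0⟩, ⟨0, -1, -2⟩⟩,
    ⟨⟨-2, 1, 0⟩, ⟨0, -1, -2⟩, ⟨-1, 1, -1⟩⟩,
    ⟨⟨0, 2, 0⟩, ⟨1, 0, -1⟩, ⟨-1, 0, 1⟩⟩,
    ⟨⟨1, 1, 1⟩, ⟨0, 1, -2⟩, ⟨-2, 1, 0⟩⟩,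
    ⟨⟨-1, 0, 1⟩, ⟨0, 2, 0⟩, ⟨1, 0, -1⟩⟩,
    ⟨⟨-1, 0, 1⟩, ⟨0, 0, 0⟩, ⟨1, 0, -1⟩⟩,
    ⟨⟨1, 1, 1⟩, ⟨0, 1, -2⟩, ⟨2, 1, 0⟩⟩,
    ⟨⟨-1, 1, -1⟩, ⟨0, 1, 2⟩, ⟨-2, 1, 0⟩⟩,
    ⟨⟨-1, 0, 1⟩, ⟨-1, 0, 1⟩, ⟨0, 2, 0⟩⟩,
    ⟨⟨-2, 1, 0⟩, ⟨0, -1, 2⟩, ⟨1, 1, 1⟩⟩,
    ⟨⟨1, 0, -1⟩, ⟨0, -2, 0⟩, ⟨-1, 0, 1⟩⟩,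
    ⟨⟨1, 0, -1⟩, ⟨0, 0, 0⟩, ⟨-1, 0, 1⟩⟩,
    ⟨⟨2, 1, 0⟩, ⟨0, -1, 2⟩, ⟨1, 1, 1⟩⟩,
    ⟨⟨1, -1, 1⟩, ⟨2, 1, 0⟩, ⟨0, 1, 2⟩⟩,
    ⟨⟨1, -1, 1⟩, ⟨-2, 1, 0⟩, ⟨0, 1, 2⟩⟩,
    ⟨⟨2, -1, 0⟩, ⟨0, 1, 2⟩, ⟨1, -1, 1⟩⟩,
    ⟨⟨2, -1, 0⟩, ⟨1, 1, 1⟩, ⟨0, -1, 2⟩⟩,
    ⟨⟨4, 0, 0⟩, ⟨0, 0, 0⟩, ⟨0, 0, 0⟩⟩,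
    ⟨⟨-1, 0, 1⟩, ⟨-1, 0, 1⟩, ⟨0, 0, 0⟩⟩,
    ⟨⟨-1, -1, -1⟩, ⟨0, -1, 2⟩, ⟨-2, -1, 0⟩⟩,
    ⟨⟨-1, -1, -1⟩, ⟨0, -1, 2⟩, ⟨2, -1, 0⟩⟩,
    ⟨⟨0, 1, 2⟩, ⟨-2, -1, 0⟩, ⟨1, -1, 1⟩⟩,
    ⟨⟨0, 1, 2⟩, ⟨2, -1, 0⟩, ⟨1, -1, 1⟩⟩,
    ⟨⟨1, -1, 1⟩, ⟨0, -1, -2⟩, ⟨2, -1, 0⟩⟩,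
    ⟨⟨0, -1, 2⟩, ⟨-1, -1, -1⟩, ⟨2, -1, 0⟩⟩,
    ⟨⟨0, 0, 0⟩, ⟨0, 0, 0⟩, ⟨4, 0, 0⟩⟩,
    ⟨⟨0, 0, 0⟩, ⟨1, 0, -1⟩, ⟨-1, 0, 1⟩⟩,
    ⟨⟨-2, -1, 0⟩, ⟨0, 1, -2⟩, ⟨-1, -1, -1⟩⟩,
    ⟨⟨2, -1, 0⟩, ⟨0, 1, -2⟩, ⟨-1, -1, -1⟩⟩],
   [[(1, 0), (2, 0), (6, 0), (7, 0)],
    [(0, 0), (3, 0), (8, 0), (9, 0)],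
    [(4, 0), (0, 0), (10, 0), (11, 0)],
    [(5, 0), (1, 0), (12, 0), (13, 0)],
    [(2, 0), (5, 0), (14, 0), (15, 0)],
    [(3, 0), (4, 0), (16, 0), (17, 0)],
    [(18, 0), (8, 1), (19, 0), (0, 0)],
    [(11, 2), (20, 0), (0, 0), (19, 3)],
    [(21, 0), (6, 4), (22, 0), (1, 0)],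
    [(13, 5), (23, 0), (1, 0), (22, 6)],
    [(23, 7), (14, 8), (21, 9), (2, 0)],
    [(7, 10), (22, 11), (2, 0), (21, 12)],
    [(20, 13), (16, 14), (18, 15), (3, 0)],
    [(9, 16), (19, 17), (3, 0), (18, 18)],
    [(19, 19), (10, 20), (20, 21), (4, 0)],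
    [(17, 22), (18, 23), (4, 0), (20, 24)],
    [(22, 25), (12, 26), (23, 27), (5, 0)],
    [(15, 28), (21, 29), (5, 0), (23, 30)],
    [(6, 0), (15, 29), (13, 31), (12, 32)],
    [(14, 33), (13, 34), (7, 35), (6, 0)],
    [(12, 36), (7, 0), (15, 37), (14, 38)],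
    [(8, 0), (17, 23), (11, 39), (10, 40)],
    [(16, 41), (11, 42), (9, 43), (8, 0)],
    [(10, 44), (9, 0), (17, 45), (16, 46)]]⟩

def cubLat29 : List LatE :=
  [⟨⟨⟨1, 1, 0⟩, ⟨0, 1, 1⟩, ⟨0, 0, 2⟩⟩, 2, ⟨⟨0, 0, 0⟩, ⟨0, 0, 0⟩, ⟨0, 0, 0⟩⟩⟩]

def cubRow30 : Row :=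
  ⟨[⟨⟨1, 0, 0⟩, ⟨0, 0, -1⟩, ⟨0, -1, 0⟩⟩, ⟨⟨0, 0, 1⟩, ⟨0, 1, 0⟩, ⟨1, 0, 0⟩⟩], ⟨⟨1, 0, 0⟩, ⟨0, 1, 0⟩, ⟨0, 0, -1⟩⟩, ⟨⟨1, 0, 0⟩, ⟨0, 1, 0⟩, ⟨0, 0, -1⟩⟩, 6,
   [⟨⟨⟨1, 0, 0⟩, ⟨0, 1, 0⟩, ⟨0, 0, 1⟩⟩, ⟨⟨0, 0, 0⟩, ⟨0, 0, 0⟩, ⟨0, 0, 0⟩⟩⟩,
    ⟨⟨⟨1, 0, 0⟩, ⟨0, 0, -1⟩, ⟨0, -1, 0⟩⟩, ⟨⟨0, 0, 0⟩, ⟨0, 0, 0⟩, ⟨0, 0, 0⟩⟩⟩,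
    ⟨⟨⟨0, 0, 1⟩, ⟨0, 1, 0⟩, ⟨1, 0, 0⟩⟩, ⟨⟨0, 0, 0⟩, ⟨0, 0, 0⟩, ⟨0, 0, 0⟩⟩⟩,
    ⟨⟨⟨0, 0, 1⟩, ⟨-1, 0, 0⟩, ⟨0, -1, 0⟩⟩, ⟨⟨0, 0, 0⟩, ⟨0, 0, 0⟩, ⟨0, 0, 0⟩⟩⟩,
    ⟨⟨⟨0, -1, 0⟩, ⟨0, 0, -1⟩, ⟨1, 0, 0⟩⟩, ⟨⟨0, 0, 0⟩, ⟨0, 0, 0⟩, ⟨0, 0, 0⟩⟩⟩,
    ⟨⟨⟨0, -1, 0⟩, ⟨-1, 0, 0⟩, ⟨0, 0, 1⟩⟩, ⟨⟨0, 0, 0⟩, ⟨0, 0, 0⟩, ⟨0, 0, 0⟩⟩⟩,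
    ⟨⟨⟨1, 0, 0⟩, ⟨0, 1, 0⟩, ⟨0, 0, -1⟩⟩, ⟨⟨1, 0, 0⟩, ⟨0, 1, 0⟩, ⟨0, 0, 1⟩⟩⟩,
    ⟨⟨⟨1, 0, 0⟩, ⟨0, 0, 1⟩, ⟨0, -1, 0⟩⟩, ⟨⟨1, 0, 0⟩, ⟨0, 0, -1⟩, ⟨0, -1, 0⟩⟩⟩,
    ⟨⟨⟨0, 0, -1⟩, ⟨0, 1, 0⟩, ⟨1, 0, 0⟩⟩, ⟨⟨0, 0, 1⟩, ⟨0, 1, 0⟩, ⟨1, 0, 0⟩⟩⟩,
    ⟨⟨⟨0, 0, -1⟩, ⟨-1, 0, 0⟩, ⟨0, -1, 0⟩⟩, ⟨⟨0, 0, 1⟩, ⟨-1, 0, 0⟩, ⟨0, -1, 0⟩⟩⟩,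
    ⟨⟨⟨0, -1, 0⟩, ⟨0, 0, 1⟩, ⟨1, 0, 0⟩⟩, ⟨⟨0, -1, 0⟩, ⟨0, 0, -1⟩, ⟨1, 0, 0⟩⟩⟩,
    ⟨⟨⟨0, -1, 0⟩, ⟨-1, 0, 0⟩, ⟨0, 0, -1⟩⟩, ⟨⟨0, -1, 0⟩, ⟨-1, 0, 0⟩, ⟨0, 0, 1⟩⟩⟩,
    ⟨⟨⟨1, 0, 0⟩, ⟨0, 0, -1⟩, ⟨0, 1, 0⟩⟩, ⟨⟨1, 0, 0⟩, ⟨0, 1, 0⟩, ⟨0, 0, 1⟩⟩⟩,
    ⟨⟨⟨0, 0, 1⟩, ⟨0, 1, 0⟩, ⟨-1, 0, 0⟩⟩, ⟨⟨1, 0, 0⟩, ⟨0, 1, 0⟩, ⟨0, 0, 1⟩⟩⟩,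
    ⟨⟨⟨1, 0, 0⟩, ⟨0, -1, 0⟩, ⟨0, 0, 1⟩⟩, ⟨⟨1, 0, 0⟩, ⟨0, 0, -1⟩, ⟨0, -1, 0⟩⟩⟩,
    ⟨⟨⟨0, 0, 1⟩, ⟨1, 0, 0⟩, ⟨0, -1, 0⟩⟩, ⟨⟨1, 0, 0⟩, ⟨0, 0, -1⟩, ⟨0, -1, 0⟩⟩⟩,
    ⟨⟨⟨0, 1, 0⟩, ⟨0, 0, -1⟩, ⟨1, 0, 0⟩⟩, ⟨⟨0, 0, 1⟩, ⟨0, 1, 0⟩, ⟨1, 0, 0⟩⟩⟩,
    ⟨⟨⟨-1, 0, 0⟩, ⟨0, 1, 0⟩, ⟨0, 0, 1⟩⟩, ⟨⟨0, 0, 1⟩, ⟨0, 1, 0⟩, ⟨1, 0, 0⟩⟩⟩,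
    ⟨⟨⟨0, 1, 0⟩, ⟨-1, 0, 0⟩, ⟨0, 0, 1⟩⟩, ⟨⟨0, 0, 1⟩, ⟨-1, 0, 0⟩, ⟨0, -1, 0⟩⟩⟩,
    ⟨⟨⟨-1, 0, 0⟩, ⟨0, 0, -1⟩, ⟨0, -1, 0⟩⟩, ⟨⟨0, 0, 1⟩, ⟨-1, 0, 0⟩, ⟨0, -1, 0⟩⟩⟩,
    ⟨⟨⟨0, 0, 1⟩, ⟨0, -1, 0⟩, ⟨1, 0, 0⟩⟩, ⟨⟨0, -1, 0⟩, ⟨0, 0, -1⟩, ⟨1, 0, 0⟩⟩⟩,
    ⟨⟨⟨0, -1, 0⟩, ⟨1, 0, 0⟩, ⟨0, 0, 1⟩⟩, ⟨⟨0, -1, 0⟩, ⟨0, 0, -1⟩, ⟨1, 0, 0⟩⟩⟩,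
    ⟨⟨⟨0, 0, 1⟩, ⟨-1, 0, 0⟩, ⟨0, 1, 0⟩⟩, ⟨⟨0, -1, 0⟩, ⟨-1, 0, 0⟩, ⟨0, 0, 1⟩⟩⟩,
    ⟨⟨⟨0, -1, 0⟩, ⟨0, 0, -1⟩, ⟨-1, 0, 0⟩⟩, ⟨⟨0, -1, 0⟩, ⟨-1, 0, 0⟩, ⟨0, 0, 1⟩⟩⟩,
    ⟨⟨⟨1, 0, 0⟩, ⟨0, 0, 1⟩, ⟨0, 1, 0⟩⟩, ⟨⟨2, 0, 0⟩, ⟨0, 1, -1⟩, ⟨0, 1, 1⟩⟩⟩,
    ⟨⟨⟨0, 0, -1⟩, ⟨0, 1, 0⟩, ⟨-1, 0, 0⟩⟩, ⟨⟨1, 0, 1⟩, ⟨0, 2, 0⟩, ⟨-1, 0, 1⟩⟩⟩,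
    ⟨⟨⟨1, 0, 0⟩, ⟨0, -1, 0⟩, ⟨0, 0, -1⟩⟩, ⟨⟨2, 0, 0⟩, ⟨0, -1, -1⟩, ⟨0, -1, 1⟩⟩⟩,
    ⟨⟨⟨0, 0, -1⟩, ⟨1, 0, 0⟩, ⟨0, -1, 0⟩⟩, ⟨⟨1, 0, 1⟩, ⟨1, 0, -1⟩, ⟨0, -2, 0⟩⟩⟩,
    ⟨⟨⟨0, 1, 0⟩, ⟨0, 0, 1⟩, ⟨1, 0, 0⟩⟩, ⟨⟨0, 1, 1⟩, ⟨0, 1, -1⟩, ⟨2, 0, 0⟩⟩⟩,
    ⟨⟨⟨-1, 0, 0⟩, ⟨0, 1, 0⟩, ⟨0, 0, -1⟩⟩, ⟨⟨-1, 0, 1⟩, ⟨0, 2, 0⟩, ⟨1, 0, 1⟩⟩⟩,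
    ⟨⟨⟨0, 1, 0⟩, ⟨-1, 0, 0⟩, ⟨0, 0, -1⟩⟩, ⟨⟨0, 1, 1⟩, ⟨-2, 0, 0⟩, ⟨0, -1, 1⟩⟩⟩,
    ⟨⟨⟨-1, 0, 0⟩, ⟨0, 0, 1⟩, ⟨0, -1, 0⟩⟩, ⟨⟨-1, 0, 1⟩, ⟨-1, 0, -1⟩, ⟨0, -2, 0⟩⟩⟩,
    ⟨⟨⟨0, 0, -1⟩, ⟨0, -1, 0⟩, ⟨1, 0, 0⟩⟩, ⟨⟨0, -1, 1⟩, ⟨0, -1, -1⟩, ⟨2, 0, 0⟩⟩⟩,
    ⟨⟨⟨0, -1, 0⟩, ⟨1, 0, 0⟩, ⟨0, 0, -1⟩⟩, ⟨⟨0, -2, 0⟩, ⟨1, 0, -1⟩, ⟨1, 0, 1⟩⟩⟩,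
    ⟨⟨⟨0, 0, -1⟩, ⟨-1, 0, 0⟩, ⟨0, 1, 0⟩⟩, ⟨⟨0, -1, 1⟩, ⟨-2, 0, 0⟩, ⟨0, 1, 1⟩⟩⟩,
    ⟨⟨⟨0, -1, 0⟩, ⟨0, 0, 1⟩, ⟨-1, 0, 0⟩⟩, ⟨⟨0, -2, 0⟩, ⟨-1, 0, -1⟩, ⟨-1, 0, 1⟩⟩⟩,
    ⟨⟨⟨0, 0, 1⟩, ⟨1, 0, 0⟩, ⟨0, 1, 0⟩⟩, ⟨⟨2, 0, 0⟩, ⟨0, 1, -1⟩, ⟨0, 1, 1⟩⟩⟩,
    ⟨⟨⟨0, 1, 0⟩, ⟨0, 0, -1⟩, ⟨-1, 0, 0⟩⟩, ⟨⟨1, 0, 1⟩, ⟨0, 2, 0⟩, ⟨-1, 0, 1⟩⟩⟩,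
    ⟨⟨⟨0, 0, 1⟩, ⟨0, -1, 0⟩, ⟨-1, 0, 0⟩⟩, ⟨⟨2, 0, 0⟩, ⟨0, -1, -1⟩, ⟨0, -1, 1⟩⟩⟩,
    ⟨⟨⟨0, 1, 0⟩, ⟨1, 0, 0⟩, ⟨0, 0, 1⟩⟩, ⟨⟨1, 0, 1⟩, ⟨1, 0, -1⟩, ⟨0, -2, 0⟩⟩⟩,
    ⟨⟨⟨-1, 0, 0⟩, ⟨0, 0, -1⟩, ⟨0, 1, 0⟩⟩, ⟨⟨-1, 0, 1⟩, ⟨0, 2, 0⟩, ⟨1, 0, 1⟩⟩⟩,
    ⟨⟨⟨-1, 0, 0⟩, ⟨0, -1, 0⟩, ⟨0, 0, 1⟩⟩, ⟨⟨-1, 0, 1⟩, ⟨-1, 0, -1⟩, ⟨0, -2, 0⟩⟩⟩,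
    ⟨⟨⟨0, 0, -1⟩, ⟨1, 0, 0⟩, ⟨0, 1, 0⟩⟩, ⟨⟨2, 0, 1⟩, ⟨1, 1, -1⟩, ⟨0, 2, 1⟩⟩⟩,
    ⟨⟨⟨0, 1, 0⟩, ⟨0, 0, 1⟩, ⟨-1, 0, 0⟩⟩, ⟨⟨1, 1, 1⟩, ⟨0, 2, -1⟩, ⟨-2, 0, 1⟩⟩⟩,
    ⟨⟨⟨0, 0, -1⟩, ⟨0, -1, 0⟩, ⟨-1, 0, 0⟩⟩, ⟨⟨2, 0, 1⟩, ⟨0, -2, -1⟩, ⟨-1, -1, 1⟩⟩⟩,
    ⟨⟨⟨0, 1, 0⟩, ⟨1, 0, 0⟩, ⟨0, 0, -1⟩⟩, ⟨⟨1, 1, 1⟩, ⟨2, 0, -1⟩, ⟨0, -2, 1⟩⟩⟩,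
    ⟨⟨⟨-1, 0, 0⟩, ⟨0, 0, 1⟩, ⟨0, 1, 0⟩⟩, ⟨⟨-2, 0, 1⟩, ⟨0, 2, -1⟩, ⟨1, 1, 1⟩⟩⟩,
    ⟨⟨⟨-1, 0, 0⟩, ⟨0, -1, 0⟩, ⟨0, 0, -1⟩⟩, ⟨⟨-2, 0, 1⟩, ⟨-1, -1, -1⟩, ⟨0, -2, 1⟩⟩⟩],
   [(0, 0), (0, 1), (1, 1), (2, 0), (3, 0), (0, 2), (1, 2), (2, 2), (3, 2), (4, 2), (5, 2), (6, 0), (6, 1), (7, 0), (7, 1), (8, 0), (8, 1), (9, 0), (9, 1), (10, 0), (10, 1), (11, 0), (11, 1), (12, 2), (13, 2), (14, 2), (15, 2), (16, 2), (17, 2), (18, 2), (19, 2), (20, 2), (21, 2), (22, 2), (23, 2), (24, 1), (25, 0), (26, 1), (27, 0), (29, 0),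 (31, 0), (36, 2), (37, 2), (38, 2), (39, 2), (40, 2), (41, 2)],
   [⟨⟨0, 0, 0⟩, ⟨0, 0, 0⟩, ⟨0, 0, 0⟩⟩,
    ⟨⟨-2, 0, 0⟩, ⟨0, -2, 0⟩, ⟨0, 0, 0⟩⟩,
    ⟨⟨-2, 0, 0⟩, ⟨0, 0, 0⟩, ⟨0, 2, 0⟩⟩,
    ⟨⟨0, 0, 0⟩, ⟨0, -2, 0⟩, ⟨-2, 0, 0⟩⟩,
    ⟨⟨0, 0, 0⟩, ⟨2, 0, 0⟩, ⟨0, 2, 0⟩⟩,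
    ⟨⟨0, 2, 0⟩, ⟨0, 0, 0⟩, ⟨-2, 0, 0⟩⟩,
    ⟨⟨0, 2, 0⟩, ⟨2, 0, 0⟩, ⟨0, 0, 0⟩⟩,
    ⟨⟨2, 0, 0⟩, ⟨0, 2, 0⟩, ⟨0, 0, 0⟩⟩,
    ⟨⟨2, 0, 0⟩, ⟨0, 0, 0⟩, ⟨0, -2, 0⟩⟩,
    ⟨⟨0, 0, 0⟩, ⟨0, 2, 0⟩, ⟨2, 0, 0⟩⟩,
    ⟨⟨0, 0, 0⟩, ⟨-2, 0, 0⟩, ⟨0, -2, 0⟩⟩,
    ⟨⟨0, -2, 0⟩, ⟨0, 0, 0⟩, ⟨2, 0, 0⟩⟩,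
    ⟨⟨0, -2, 0⟩, ⟨-2, 0, 0⟩, ⟨0, 0, 0⟩⟩,
    ⟨⟨1, 1, 0⟩, ⟨1, 1, 0⟩, ⟨0, 0, 0⟩⟩,
    ⟨⟨-2, 0, 0⟩, ⟨0, 0, 0⟩, ⟨0, -2, 0⟩⟩,
    ⟨⟨0, 0, 0⟩, ⟨0, -2, 0⟩, ⟨2, 0, 0⟩⟩,
    ⟨⟨1, 1, 0⟩, ⟨0, 0, 0⟩, ⟨-1, -1, 0⟩⟩,
    ⟨⟨-2, 0, 0⟩, ⟨0, 2, 0⟩, ⟨0, 0, 0⟩⟩,
    ⟨⟨0, 0, 0⟩, ⟨-2, 0, 0⟩, ⟨0, 2, 0⟩⟩,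
    ⟨⟨0, 0, 0⟩, ⟨1, 1, 0⟩, ⟨1, 1, 0⟩⟩,
    ⟨⟨0, -2, 0⟩, ⟨0, 0, 0⟩, ⟨-2, 0, 0⟩⟩,
    ⟨⟨2, 0, 0⟩, ⟨0, -2, 0⟩, ⟨0, 0, 0⟩⟩,
    ⟨⟨0, 0, 0⟩, ⟨-1, -1, 0⟩, ⟨-1, -1, 0⟩⟩,
    ⟨⟨0, -2, 0⟩, ⟨2, 0, 0⟩, ⟨0, 0, 0⟩⟩,
    ⟨⟨2, 0, 0⟩, ⟨0, 0, 0⟩, ⟨0, 2, 0⟩⟩,
    ⟨⟨-1, -1, 0⟩, ⟨0, 0, 0⟩, ⟨1, 1, 0⟩⟩,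
    ⟨⟨0, 0, 0⟩, ⟨0, 2, 0⟩, ⟨-2, 0, 0⟩⟩,
    ⟨⟨0, 2, 0⟩, ⟨-2, 0, 0⟩, ⟨0, 0, 0⟩⟩,
    ⟨⟨-1, -1, 0⟩, ⟨-1, -1, 0⟩, ⟨0, 0, 0⟩⟩,
    ⟨⟨0, 0, 0⟩, ⟨2, 0, 0⟩, ⟨0, -2, 0⟩⟩,
    ⟨⟨0, 2, 0⟩, ⟨0, 0, 0⟩, ⟨2, 0, 0⟩⟩,
    ⟨⟨0, 0, 0⟩, ⟨0, 2, 0⟩, ⟨0, 2, 0⟩⟩,
    ⟨⟨2, 0, 0⟩, ⟨0, 0, 0⟩, ⟨-2, 0, 0⟩⟩,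
    ⟨⟨0, 0, 0⟩, ⟨0, -2, 0⟩, ⟨0, -2, 0⟩⟩,
    ⟨⟨2, 0, 0⟩, ⟨2, 0, 0⟩, ⟨0, 0, 0⟩⟩,
    ⟨⟨0, 2, 0⟩, ⟨0, 2, 0⟩, ⟨0, 0, 0⟩⟩,
    ⟨⟨-1, 1, 0⟩, ⟨-1, 1, 0⟩, ⟨2, 2, 0⟩⟩,
    ⟨⟨-2, 0, 0⟩, ⟨0, 0, 0⟩, ⟨2, 0, 0⟩⟩,
    ⟨⟨0, 2, 0⟩, ⟨0, 0, 0⟩, ⟨0, -2, 0⟩⟩,
    ⟨⟨-1, 1, 0⟩, ⟨-2, -2, 0⟩, ⟨1, -1, 0⟩⟩,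
    ⟨⟨-2, 0, 0⟩, ⟨-2, 0, 0⟩, ⟨0, 0, 0⟩⟩,
    ⟨⟨0, -2, 0⟩, ⟨0, -2, 0⟩, ⟨0, 0, 0⟩⟩,
    ⟨⟨1, -1, 0⟩, ⟨1, -1, 0⟩, ⟨2, 2, 0⟩⟩,
    ⟨⟨-2, -2, 0⟩, ⟨1, -1, 0⟩, ⟨1, -1, 0⟩⟩,
    ⟨⟨0, 0, 0⟩, ⟨2, 0, 0⟩, ⟨2, 0, 0⟩⟩,
    ⟨⟨0, -2, 0⟩, ⟨0, 0, 0⟩, ⟨0, 2, 0⟩⟩,
    ⟨⟨1, -1, 0⟩, ⟨-2, -2, 0⟩, ⟨-1, 1, 0⟩⟩,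
    ⟨⟨-2, -2, 0⟩, ⟨-1, 1, 0⟩, ⟨-1, 1, 0⟩⟩,
    ⟨⟨0, 0, 0⟩, ⟨-2, 0, 0⟩, ⟨-2, 0, 0⟩⟩,
    ⟨⟨2, 2, 0⟩, ⟨-1, 1, 0⟩, ⟨-1, 1, 0⟩⟩,
    ⟨⟨1, -1, 0⟩, ⟨2, 2, 0⟩, ⟨-1, 1, 0⟩⟩,
    ⟨⟨2, 2, 0⟩, ⟨1, -1, 0⟩, ⟨1, -1, 0⟩⟩,
    ⟨⟨1, -1, 0⟩, ⟨1, -1, 0⟩, ⟨-2, -2, 0⟩⟩,
    ⟨⟨-1, 1, 0⟩, ⟨2, 2, 0⟩, ⟨1, -1, 0⟩⟩,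
    ⟨⟨-1, 1, 0⟩, ⟨-1, 1, 0⟩, ⟨-2, -2, 0⟩⟩,
    ⟨⟨1, -1, 0⟩, ⟨-1, 1, 0⟩, ⟨0, 4, 0⟩⟩,
    ⟨⟨4, 0, 0⟩, ⟨1, -1, 0⟩, ⟨-1, 1, 0⟩⟩,
    ⟨⟨-1, 1, 0⟩, ⟨0, 4, 0⟩, ⟨-1, 1, 0⟩⟩,
    ⟨⟨0, 0, 0⟩, ⟨-2, 2, 0⟩, ⟨-2, 2, 0⟩⟩,
    ⟨⟨1, -1, 0⟩, ⟨0, -4, 0⟩, ⟨1, -1, 0⟩⟩,
    ⟨⟨-1, 1, 0⟩, ⟨1, -1, 0⟩, ⟨0, -4, 0⟩⟩,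
    ⟨⟨0, 0, 0⟩, ⟨2, -2, 0⟩, ⟨2, -2, 0⟩⟩,
    ⟨⟨0, 0, 0⟩, ⟨1, 3, 0⟩, ⟨1, 3, 0⟩⟩,
    ⟨⟨-4, 0, 0⟩, ⟨-1, 1, 0⟩, ⟨1, -1, 0⟩⟩,
    ⟨⟨0, 0, 0⟩, ⟨-1, -3, 0⟩, ⟨-1, -3, 0⟩⟩],
   [[(1, 0), (2, 0), (6, 0), (6, 1)],
    [(0, 0), (3, 0), (7, 0), (7, 2)],
    [(4, 0), (0, 0), (8, 0), (8, 3)],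
    [(5, 0), (1, 0), (9, 0), (9, 4)],
    [(2, 0), (5, 0), (10, 0), (10, 5)],
    [(3, 0), (4, 0), (11, 0), (11, 6)],
    [(12, 0), (13, 0), (0, 7), (0, 0)],
    [(14, 0), (15, 0), (1, 8), (1, 0)],
    [(16, 0), (17, 0), (2, 9), (2, 0)],
    [(18, 0), (19, 0), (3, 10), (3, 0)],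
    [(20, 0), (21, 0), (4, 11), (4, 0)],
    [(22, 0), (23, 0), (5, 12), (5, 0)],
    [(6, 0), (22, 13), (24, 0), (24, 14)],
    [(23, 13), (6, 0), (25, 0), (25, 15)],
    [(7, 0), (20, 16), (26, 0), (26, 17)],
    [(21, 16), (7, 0), (27, 0), (27, 18)],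
    [(8, 0), (18, 19), (28, 0), (28, 20)],
    [(19, 19), (8, 0), (29, 0), (29, 21)],
    [(9, 0), (16, 22), (30, 0), (30, 23)],
    [(17, 22), (9, 0), (31, 0), (31, 24)],
    [(10, 0), (14, 25), (32, 0), (32, 26)],
    [(15, 25), (10, 0), (33, 0), (33, 27)],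
    [(11, 0), (12, 28), (34, 0), (34, 29)],
    [(13, 28), (11, 0), (35, 0), (35, 30)],
    [(26, 31), (36, 0), (12, 24), (12, 0)],
    [(37, 0), (29, 32), (13, 26), (13, 0)],
    [(24, 33), (38, 0), (14, 21), (14, 0)],
    [(39, 0), (31, 34), (15, 29), (15, 0)],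
    [(32, 35), (39, 36), (16, 30), (16, 0)],
    [(40, 0), (25, 37), (17, 17), (17, 0)],
    [(34, 38), (37, 39), (18, 27), (18, 0)],
    [(41, 0), (27, 40), (19, 14), (19, 0)],
    [(28, 41), (41, 42), (20, 15), (20, 0)],
    [(36, 43), (35, 44), (21, 23), (21, 0)],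
    [(30, 45), (40, 46), (22, 18), (22, 0)],
    [(38, 47), (33, 48), (23, 20), (23, 0)],
    [(33, 49), (24, 0), (42, 0), (42, 10)],
    [(25, 0), (30, 50), (43, 0), (43, 11)],
    [(35, 51), (26, 0), (44, 0), (44, 9)],
    [(27, 0), (28, 52), (45, 0), (45, 12)],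
    [(29, 0), (34, 53), (46, 0), (46, 8)],
    [(31, 0), (32, 54), (47, 0), (47, 7)],
    [(45, 55), (46, 56), (36, 4), (36, 0)],
    [(44, 57), (45, 58), (37, 5), (37, 0)],
    [(43, 59), (47, 56), (38, 3), (38, 0)],
    [(42, 60), (43, 61), (39, 6), (39, 0)],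
    [(47, 62), (42, 63), (40, 2), (40, 0)],
    [(46, 64), (44, 63), (41, 1), (41, 0)]]⟩

def cubLat30 : List LatE :=
  [⟨⟨⟨1, 1, 1⟩, ⟨0, 2, 0⟩, ⟨0, 0, 2⟩⟩, 2, ⟨⟨0, 0, 0⟩, ⟨0, 0, 0⟩, ⟨0, 0, 0⟩⟩⟩,
   ⟨⟨⟨1, 1, 1⟩, ⟨0, 2, 0⟩, ⟨0, 0, 2⟩⟩, 2, ⟨⟨0, 0, 0⟩, ⟨0, 0, 0⟩, ⟨0, 0, 0⟩⟩⟩]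

def cubRow31 : Row :=
  ⟨[⟨⟨1, 0, 0⟩, ⟨0, 0, -1⟩, ⟨0, -1, 0⟩⟩, ⟨⟨0, 0, 1⟩, ⟨0, 1, 0⟩, ⟨1, 0, 0⟩⟩], ⟨⟨1, 0, 0⟩, ⟨0, 0, 1⟩, ⟨0, 1, 0⟩⟩, ⟨⟨1, 0, 0⟩, ⟨0, 0, 1⟩, ⟨0, 1, 0⟩⟩, 6,
   [⟨⟨⟨1, 0, 0⟩, ⟨0, 1, 0⟩, ⟨0, 0, 1⟩⟩, ⟨⟨0, 0, 0⟩, ⟨0, 0, 0⟩, ⟨0, 0, 0⟩⟩⟩,
    ⟨⟨⟨1, 0, 0⟩, ⟨0, 0, -1⟩, ⟨0, -1, 0⟩⟩, ⟨⟨0, 0, 0⟩, ⟨0, 0, 0⟩, ⟨0, 0, 0⟩⟩⟩,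
    ⟨⟨⟨0, 0, 1⟩, ⟨0, 1, 0⟩, ⟨1, 0, 0⟩⟩, ⟨⟨0, 0, 0⟩, ⟨0, 0, 0⟩, ⟨0, 0, 0⟩⟩⟩,
    ⟨⟨⟨0, 0, 1⟩, ⟨-1, 0, 0⟩, ⟨0, -1, 0⟩⟩, ⟨⟨0, 0, 0⟩, ⟨0, 0, 0⟩, ⟨0, 0, 0⟩⟩⟩,
    ⟨⟨⟨0, -1, 0⟩, ⟨0, 0, -1⟩, ⟨1, 0, 0⟩⟩, ⟨⟨0, 0, 0⟩, ⟨0, 0, 0⟩, ⟨0, 0, 0⟩⟩⟩,
    ⟨⟨⟨0, -1, 0⟩, ⟨-1, 0, 0⟩, ⟨0, 0, 1⟩⟩, ⟨⟨0, 0, 0⟩, ⟨0, 0, 0⟩, ⟨0, 0, 0⟩⟩⟩,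
    ⟨⟨⟨1, 0, 0⟩, ⟨0, 0, 1⟩, ⟨0, 1, 0⟩⟩, ⟨⟨1, 0, 0⟩, ⟨0, 1, 0⟩, ⟨0, 0, 1⟩⟩⟩,
    ⟨⟨⟨1, 0, 0⟩, ⟨0, -1, 0⟩, ⟨0, 0, -1⟩⟩, ⟨⟨1, 0, 0⟩, ⟨0, 0, -1⟩, ⟨0, -1, 0⟩⟩⟩,
    ⟨⟨⟨0, 1, 0⟩, ⟨0, 0, 1⟩, ⟨1, 0, 0⟩⟩, ⟨⟨0, 0, 1⟩, ⟨0, 1, 0⟩, ⟨1, 0, 0⟩⟩⟩,
    ⟨⟨⟨0, 1, 0⟩, ⟨-1, 0, 0⟩, ⟨0, 0, -1⟩⟩, ⟨⟨0, 0, 1⟩, ⟨-1, 0, 0⟩, ⟨0, -1, 0⟩⟩⟩,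
    ⟨⟨⟨0, 0, -1⟩, ⟨0, -1, 0⟩, ⟨1, 0, 0⟩⟩, ⟨⟨0, -1, 0⟩, ⟨0, 0, -1⟩, ⟨1, 0, 0⟩⟩⟩,
    ⟨⟨⟨0, 0, -1⟩, ⟨-1, 0, 0⟩, ⟨0, 1, 0⟩⟩, ⟨⟨0, -1, 0⟩, ⟨-1, 0, 0⟩, ⟨0, 0, 1⟩⟩⟩,
    ⟨⟨⟨0, 0, 1⟩, ⟨1, 0, 0⟩, ⟨0, 1, 0⟩⟩, ⟨⟨1, 0, 0⟩, ⟨0, 1, 0⟩, ⟨0, 0, 1⟩⟩⟩,
    ⟨⟨⟨0, 0, 1⟩, ⟨0, -1, 0⟩, ⟨-1, 0, 0⟩⟩, ⟨⟨1, 0, 0⟩, ⟨0, 0, -1⟩, ⟨0, -1, 0⟩⟩⟩,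
    ⟨⟨⟨0, 1, 0⟩, ⟨1, 0, 0⟩, ⟨0, 0, 1⟩⟩, ⟨⟨0, 0, 1⟩, ⟨0, 1, 0⟩, ⟨1, 0, 0⟩⟩⟩,
    ⟨⟨⟨0, 1, 0⟩, ⟨0, 0, -1⟩, ⟨-1, 0, 0⟩⟩, ⟨⟨0, 0, 1⟩, ⟨-1, 0, 0⟩, ⟨0, -1, 0⟩⟩⟩,
    ⟨⟨⟨-1, 0, 0⟩, ⟨0, -1, 0⟩, ⟨0, 0, 1⟩⟩, ⟨⟨0, -1, 0⟩, ⟨0, 0, -1⟩, ⟨1, 0, 0⟩⟩⟩,
    ⟨⟨⟨-1, 0, 0⟩, ⟨0, 0, -1⟩, ⟨0, 1, 0⟩⟩, ⟨⟨0, -1, 0⟩, ⟨-1, 0, 0⟩, ⟨0, 0, 1⟩⟩⟩,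
    ⟨⟨⟨0, -1, 0⟩, ⟨1, 0, 0⟩, ⟨0, 0, -1⟩⟩, ⟨⟨1, 0, 0⟩, ⟨0, 1, 0⟩, ⟨0, 0, 1⟩⟩⟩,
    ⟨⟨⟨0, -1, 0⟩, ⟨0, 0, 1⟩, ⟨-1, 0, 0⟩⟩, ⟨⟨1, 0, 0⟩, ⟨0, 0, -1⟩, ⟨0, -1, 0⟩⟩⟩,
    ⟨⟨⟨0, 0, -1⟩, ⟨1, 0, 0⟩, ⟨0, -1, 0⟩⟩, ⟨⟨0, 0, 1⟩, ⟨0, 1, 0⟩, ⟨1, 0, 0⟩⟩⟩,
    ⟨⟨⟨0, 0, -1⟩, ⟨0, 1, 0⟩, ⟨-1, 0, 0⟩⟩, ⟨⟨0, 0, 1⟩, ⟨-1, 0, 0⟩, ⟨0, -1, 0⟩⟩⟩,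
    ⟨⟨⟨-1, 0, 0⟩, ⟨0, 0, 1⟩, ⟨0, -1, 0⟩⟩, ⟨⟨0, -1, 0⟩, ⟨0, 0, -1⟩, ⟨1, 0, 0⟩⟩⟩,
    ⟨⟨⟨-1, 0, 0⟩, ⟨0, 1, 0⟩, ⟨0, 0, -1⟩⟩, ⟨⟨0, -1, 0⟩, ⟨-1, 0, 0⟩, ⟨0, 0, 1⟩⟩⟩],
   [(0, 0), (0, 1), (1, 1), (2, 0), (3, 0), (0, 2), (1, 2), (2, 2), (3, 2), (4, 2), (5, 2), (6, 1), (7, 1), (8, 1), (9, 1), (10, 1), (11, 1), (12, 0), (13, 0), (14, 0), (15, 0), (16, 0), (17, 0)],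
   [⟨⟨0, 0, 0⟩, ⟨0, 0, 0⟩, ⟨0, 0, 0⟩⟩,
    ⟨⟨-2, 0, 0⟩, ⟨0, -1, -1⟩, ⟨0, -1, -1⟩⟩,
    ⟨⟨-2, 0, 0⟩, ⟨0, 1, 1⟩, ⟨0, 1, 1⟩⟩,
    ⟨⟨0, -1, -1⟩, ⟨0, -1, -1⟩, ⟨-2, 0, 0⟩⟩,
    ⟨⟨0, -1, -1⟩, ⟨2, 0, 0⟩, ⟨0, 1, 1⟩⟩,
    ⟨⟨0, 1, 1⟩, ⟨0, 1, 1⟩, ⟨-2, 0, 0⟩⟩,
    ⟨⟨0, 1, 1⟩, ⟨2, 0, 0⟩, ⟨0, -1, -1⟩⟩,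
    ⟨⟨0, 0, 0⟩, ⟨0, 1, 1⟩, ⟨0, 1, 1⟩⟩,
    ⟨⟨2, 0, 0⟩, ⟨0, 1, 1⟩, ⟨0, 1, 1⟩⟩,
    ⟨⟨0, 0, 0⟩, ⟨0, -1, -1⟩, ⟨0, -1, -1⟩⟩,
    ⟨⟨2, 0, 0⟩, ⟨0, -1, -1⟩, ⟨0, -1, -1⟩⟩,
    ⟨⟨0, 1, 1⟩, ⟨0, 1, 1⟩, ⟨0, 0, 0⟩⟩,
    ⟨⟨0, 1, 1⟩, ⟨0, 1, 1⟩, ⟨2, 0, 0⟩⟩,
    ⟨⟨0, 1, 1⟩, ⟨0, 0, 0⟩, ⟨0, -1, -1⟩⟩,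
    ⟨⟨0, 1, 1⟩, ⟨-2, 0, 0⟩, ⟨0, -1, -1⟩⟩,
    ⟨⟨0, -1, -1⟩, ⟨0, -1, -1⟩, ⟨0, 0, 0⟩⟩,
    ⟨⟨0, -1, -1⟩, ⟨0, -1, -1⟩, ⟨2, 0, 0⟩⟩,
    ⟨⟨0, -1, -1⟩, ⟨0, 0, 0⟩, ⟨0, 1, 1⟩⟩,
    ⟨⟨0, -1, -1⟩, ⟨-2, 0, 0⟩, ⟨0, 1, 1⟩⟩,
    ⟨⟨1, 0, 0⟩, ⟨1, 0, 0⟩, ⟨-1, 1, 1⟩⟩,
    ⟨⟨1, -1, -1⟩, ⟨-1, 0, 0⟩, ⟨-1, 0, 0⟩⟩,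
    ⟨⟨1, 0, 0⟩, ⟨1, -1, -1⟩, ⟨-1, 0, 0⟩⟩,
    ⟨⟨1, -1, -1⟩, ⟨1, 0, 0⟩, ⟨1, 0, 0⟩⟩,
    ⟨⟨-1, 1, 1⟩, ⟨1, 0, 0⟩, ⟨1, 0, 0⟩⟩,
    ⟨⟨-1, 0, 0⟩, ⟨-1, 0, 0⟩, ⟨1, -1, -1⟩⟩,
    ⟨⟨-1, 1, 1⟩, ⟨-1, 0, 0⟩, ⟨-1, 0, 0⟩⟩,
    ⟨⟨-1, 0, 0⟩, ⟨-1, 1, 1⟩, ⟨1, 0, 0⟩⟩,
    ⟨⟨-1, 0, 0⟩, ⟨1, -1, -1⟩, ⟨1, 0, 0⟩⟩,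
    ⟨⟨1, 0, 0⟩, ⟨1, 0, 0⟩, ⟨1, -1, -1⟩⟩,
    ⟨⟨-1, 0, 0⟩, ⟨-1, 0, 0⟩, ⟨-1, 1, 1⟩⟩,
    ⟨⟨1, 0, 0⟩, ⟨-1, 1, 1⟩, ⟨-1, 0, 0⟩⟩,
    ⟨⟨1, -1, -1⟩, ⟨1, 0, 0⟩, ⟨-1, 0, 0⟩⟩,
    ⟨⟨1, 0, 0⟩, ⟨-1, 0, 0⟩, ⟨-1, 1, 1⟩⟩,
    ⟨⟨1, 0, 0⟩, ⟨1, -1, -1⟩, ⟨1, 0, 0⟩⟩,
    ⟨⟨-1, 0, 0⟩, ⟨1, 0, 0⟩, ⟨1, -1, -1⟩⟩,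
    ⟨⟨-1, 1, 1⟩, ⟨-1, 0, 0⟩, ⟨1, 0, 0⟩⟩,
    ⟨⟨-1, 0, 0⟩, ⟨-1, 1, 1⟩, ⟨-1, 0, 0⟩⟩],
   [[(1, 0), (2, 0), (6, 0), (6, 1)],
    [(0, 0), (3, 0), (7, 0), (7, 2)],
    [(4, 0), (0, 0), (8, 0), (8, 3)],
    [(5, 0), (1, 0), (9, 0), (9, 4)],
    [(2, 0), (5, 0), (10, 0), (10, 5)],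
    [(3, 0), (4, 0), (11, 0), (11, 6)],
    [(7, 7), (12, 0), (0, 8), (0, 0)],
    [(6, 9), (13, 0), (1, 10), (1, 0)],
    [(10, 11), (14, 0), (2, 12), (2, 0)],
    [(11, 13), (15, 0), (3, 14), (3, 0)],
    [(8, 15), (16, 0), (4, 16), (4, 0)],
    [(9, 17), (17, 0), (5, 18), (5, 0)],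
    [(18, 0), (6, 0), (14, 19), (14, 20)],
    [(19, 0), (7, 0), (15, 21), (15, 22)],
    [(20, 0), (8, 0), (12, 23), (12, 24)],
    [(21, 0), (9, 0), (13, 25), (13, 26)],
    [(22, 0), (10, 0), (17, 27), (17, 28)],
    [(23, 0), (11, 0), (16, 29), (16, 30)],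
    [(12, 0), (19, 7), (20, 31), (20, 32)],
    [(13, 0), (18, 9), (21, 31), (21, 33)],
    [(14, 0), (22, 11), (18, 34), (18, 35)],
    [(15, 0), (23, 13), (19, 36), (19, 35)],
    [(16, 0), (20, 15), (23, 34), (23, 33)],
    [(17, 0), (21, 17), (22, 36), (22, 32)]]⟩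

def cubLat31 : List LatE :=
  [⟨⟨⟨1, 0, 0⟩, ⟨0, 1, 0⟩, ⟨0, 0, 1⟩⟩, 1, ⟨⟨0, 0, 0⟩, ⟨0, 0, 0⟩, ⟨0, 0, 0⟩⟩⟩,
   ⟨⟨⟨1, 1, 1⟩, ⟨0, 2, 0⟩, ⟨0, 0, 2⟩⟩, 2, ⟨⟨0, 0, 0⟩, ⟨0, 0, 0⟩, ⟨0, 0, 0⟩⟩⟩,
   ⟨⟨⟨1, 1, 0⟩, ⟨0, 1, 1⟩, ⟨0, 0, 2⟩⟩, 2, ⟨⟨0, 0, 0⟩, ⟨0, 0, 0⟩, ⟨0, 0, 0⟩⟩⟩]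

def cubRow32 : Row :=
  ⟨[⟨⟨1, 0, 0⟩, ⟨0, -1, 0⟩, ⟨0, 0, -1⟩⟩, ⟨⟨0, 0, 1⟩, ⟨0, -1, 0⟩, ⟨1, 0, 0⟩⟩], ⟨⟨1, 0, 0⟩, ⟨0, 0, 1⟩, ⟨0, 1, 0⟩⟩, ⟨⟨1, 0, 0⟩, ⟨0, 0, 1⟩, ⟨0, 1, 0⟩⟩, 8,
   [⟨⟨⟨1, 0, 0⟩, ⟨0, 1, 0⟩, ⟨0, 0, 1⟩⟩, ⟨⟨0, 0, 0⟩, ⟨0, 0, 0⟩, ⟨0, 0, 0⟩⟩⟩,
    ⟨⟨⟨1, 0, 0⟩, ⟨0, -1, 0⟩, ⟨0, 0, -1⟩⟩, ⟨⟨0, 0, 0⟩, ⟨0, 0, 0⟩, ⟨0, 0, 0⟩⟩⟩,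
    ⟨⟨⟨0, 0, 1⟩, ⟨0, -1, 0⟩, ⟨1, 0, 0⟩⟩, ⟨⟨0, 0, 0⟩, ⟨0, 0, 0⟩, ⟨0, 0, 0⟩⟩⟩,
    ⟨⟨⟨0, 0, 1⟩, ⟨0, 1, 0⟩, ⟨-1, 0, 0⟩⟩, ⟨⟨0, 0, 0⟩, ⟨0, 0, 0⟩, ⟨0, 0, 0⟩⟩⟩,
    ⟨⟨⟨0, 0, -1⟩, ⟨0, 1, 0⟩, ⟨1, 0, 0⟩⟩, ⟨⟨0, 0, 0⟩, ⟨0, 0, 0⟩, ⟨0, 0, 0⟩⟩⟩,
    ⟨⟨⟨0, 0, -1⟩, ⟨0, -1, 0⟩, ⟨-1, 0, 0⟩⟩, ⟨⟨0, 0, 0⟩, ⟨0, 0, 0⟩, ⟨0, 0, 0⟩⟩⟩,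
    ⟨⟨⟨-1, 0, 0⟩, ⟨0, -1, 0⟩, ⟨0, 0, 1⟩⟩, ⟨⟨0, 0, 0⟩, ⟨0, 0, 0⟩, ⟨0, 0, 0⟩⟩⟩,
    ⟨⟨⟨-1, 0, 0⟩, ⟨0, 1, 0⟩, ⟨0, 0, -1⟩⟩, ⟨⟨0, 0, 0⟩, ⟨0, 0, 0⟩, ⟨0, 0, 0⟩⟩⟩,
    ⟨⟨⟨1, 0, 0⟩, ⟨0, 0, 1⟩, ⟨0, 1, 0⟩⟩, ⟨⟨1, 0, 0⟩, ⟨0, 1, 0⟩, ⟨0, 0, 1⟩⟩⟩,
    ⟨⟨⟨1, 0, 0⟩, ⟨0, 0, -1⟩, ⟨0, -1, 0⟩⟩, ⟨⟨1, 0, 0⟩, ⟨0, -1, 0⟩, ⟨0, 0, -1⟩⟩⟩,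
    ⟨⟨⟨0, 1, 0⟩, ⟨0, 0, -1⟩, ⟨1, 0, 0⟩⟩, ⟨⟨0, 0, 1⟩, ⟨0, -1, 0⟩, ⟨1, 0, 0⟩⟩⟩,
    ⟨⟨⟨0, 1, 0⟩, ⟨0, 0, 1⟩, ⟨-1, 0, 0⟩⟩, ⟨⟨0, 0, 1⟩, ⟨0, 1, 0⟩, ⟨-1, 0, 0⟩⟩⟩,
    ⟨⟨⟨0, -1, 0⟩, ⟨0, 0, 1⟩, ⟨1, 0, 0⟩⟩, ⟨⟨0, 0, -1⟩, ⟨0, 1, 0⟩, ⟨1, 0, 0⟩⟩⟩,
    ⟨⟨⟨0, -1, 0⟩, ⟨0, 0, -1⟩, ⟨-1, 0, 0⟩⟩, ⟨⟨0, 0, -1⟩, ⟨0, -1, 0⟩, ⟨-1, 0, 0⟩⟩⟩,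
    ⟨⟨⟨-1, 0, 0⟩, ⟨0, 0, -1⟩, ⟨0, 1, 0⟩⟩, ⟨⟨-1, 0, 0⟩, ⟨0, -1, 0⟩, ⟨0, 0, 1⟩⟩⟩,
    ⟨⟨⟨-1, 0, 0⟩, ⟨0, 0, 1⟩, ⟨0, -1, 0⟩⟩, ⟨⟨-1, 0, 0⟩, ⟨0, 1, 0⟩, ⟨0, 0, -1⟩⟩⟩,
    ⟨⟨⟨0, 0, 1⟩, ⟨1, 0, 0⟩, ⟨0, -1, 0⟩⟩, ⟨⟨1, 0, 0⟩, ⟨0, 1, 0⟩, ⟨0, 0, 1⟩⟩⟩,
    ⟨⟨⟨0, 0, 1⟩, ⟨-1, 0, 0⟩, ⟨0, 1, 0⟩⟩, ⟨⟨1, 0, 0⟩, ⟨0, -1, 0⟩, ⟨0, 0, -1⟩⟩⟩,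
    ⟨⟨⟨0, -1, 0⟩, ⟨-1, 0, 0⟩, ⟨0, 0, 1⟩⟩, ⟨⟨0, 0, 1⟩, ⟨0, -1, 0⟩, ⟨1, 0, 0⟩⟩⟩,
    ⟨⟨⟨0, -1, 0⟩, ⟨1, 0, 0⟩, ⟨0, 0, -1⟩⟩, ⟨⟨0, 0, 1⟩, ⟨0, 1, 0⟩, ⟨-1, 0, 0⟩⟩⟩,
    ⟨⟨⟨0, 1, 0⟩, ⟨1, 0, 0⟩, ⟨0, 0, 1⟩⟩, ⟨⟨0, 0, -1⟩, ⟨0, 1, 0⟩, ⟨1, 0, 0⟩⟩⟩,
    ⟨⟨⟨0, 1, 0⟩, ⟨-1, 0, 0⟩, ⟨0, 0, -1⟩⟩, ⟨⟨0, 0, -1⟩, ⟨0, -1, 0⟩, ⟨-1, 0, 0⟩⟩⟩,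
    ⟨⟨⟨0, 0, -1⟩, ⟨-1, 0, 0⟩, ⟨0, -1, 0⟩⟩, ⟨⟨-1, 0, 0⟩, ⟨0, -1, 0⟩, ⟨0, 0, 1⟩⟩⟩,
    ⟨⟨⟨0, 0, -1⟩, ⟨1, 0, 0⟩, ⟨0, 1, 0⟩⟩, ⟨⟨-1, 0, 0⟩, ⟨0, 1, 0⟩, ⟨0, 0, -1⟩⟩⟩,
    ⟨⟨⟨0, 1, 0⟩, ⟨1, 0, 0⟩, ⟨0, 0, -1⟩⟩, ⟨⟨1, 0, 1⟩, ⟨1, 1, 0⟩, ⟨0, -1, 1⟩⟩⟩,
    ⟨⟨⟨0, 1, 0⟩, ⟨-1, 0, 0⟩, ⟨0, 0, 1⟩⟩, ⟨⟨1, 0, 1⟩, ⟨-1, -1, 0⟩, ⟨0, 1, -1⟩⟩⟩,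
    ⟨⟨⟨0, 0, -1⟩, ⟨-1, 0, 0⟩, ⟨0, 1, 0⟩⟩, ⟨⟨0, -1, 1⟩, ⟨-1, -1, 0⟩, ⟨1, 0, 1⟩⟩⟩,
    ⟨⟨⟨0, 0, -1⟩, ⟨1, 0, 0⟩, ⟨0, -1, 0⟩⟩, ⟨⟨0, -1, 1⟩, ⟨1, 1, 0⟩, ⟨-1, 0, -1⟩⟩⟩,
    ⟨⟨⟨0, 0, 1⟩, ⟨1, 0, 0⟩, ⟨0, 1, 0⟩⟩, ⟨⟨0, 1, -1⟩, ⟨1, 1, 0⟩, ⟨1, 0, 1⟩⟩⟩,
    ⟨⟨⟨0, 0, 1⟩, ⟨-1, 0, 0⟩, ⟨0, -1, 0⟩⟩, ⟨⟨0, 1, -1⟩, ⟨-1, -1, 0⟩, ⟨-1, 0, -1⟩⟩⟩,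
    ⟨⟨⟨0, -1, 0⟩, ⟨-1, 0, 0⟩, ⟨0, 0, -1⟩⟩, ⟨⟨-1, 0, -1⟩, ⟨-1, -1, 0⟩, ⟨0, -1, 1⟩⟩⟩,
    ⟨⟨⟨0, -1, 0⟩, ⟨1, 0, 0⟩, ⟨0, 0, 1⟩⟩, ⟨⟨-1, 0, -1⟩, ⟨1, 1, 0⟩, ⟨0, 1, -1⟩⟩⟩,
    ⟨⟨⟨0, -1, 0⟩, ⟨0, 0, 1⟩, ⟨-1, 0, 0⟩⟩, ⟨⟨1, 0, 1⟩, ⟨1, 1, 0⟩, ⟨0, -1, 1⟩⟩⟩,
    ⟨⟨⟨0, -1, 0⟩, ⟨0, 0, -1⟩, ⟨1, 0, 0⟩⟩, ⟨⟨1, 0, 1⟩, ⟨-1, -1, 0⟩, ⟨0, 1, -1⟩⟩⟩,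
    ⟨⟨⟨-1, 0, 0⟩, ⟨0, 0, -1⟩, ⟨0, -1, 0⟩⟩, ⟨⟨0, -1, 1⟩, ⟨-1, -1, 0⟩, ⟨1, 0, 1⟩⟩⟩,
    ⟨⟨⟨-1, 0, 0⟩, ⟨0, 0, 1⟩, ⟨0, 1, 0⟩⟩, ⟨⟨0, -1, 1⟩, ⟨1, 1, 0⟩, ⟨-1, 0, -1⟩⟩⟩,
    ⟨⟨⟨1, 0, 0⟩, ⟨0, 0, 1⟩, ⟨0, -1, 0⟩⟩, ⟨⟨0, 1, -1⟩, ⟨1, 1, 0⟩, ⟨1, 0, 1⟩⟩⟩,
    ⟨⟨⟨1, 0, 0⟩, ⟨0, 0, -1⟩, ⟨0, 1, 0⟩⟩, ⟨⟨0, 1, -1⟩, ⟨-1, -1, 0⟩, ⟨-1, 0, -1⟩⟩⟩,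
    ⟨⟨⟨0, 1, 0⟩, ⟨0, 0, -1⟩, ⟨-1, 0, 0⟩⟩, ⟨⟨-1, 0, -1⟩, ⟨-1, -1, 0⟩, ⟨0, -1, 1⟩⟩⟩,
    ⟨⟨⟨0, 1, 0⟩, ⟨0, 0, 1⟩, ⟨1, 0, 0⟩⟩, ⟨⟨-1, 0, -1⟩, ⟨1, 1, 0⟩, ⟨0, 1, -1⟩⟩⟩,
    ⟨⟨⟨0, 0, -1⟩, ⟨0, 1, 0⟩, ⟨-1, 0, 0⟩⟩, ⟨⟨1, -1, 1⟩, ⟨1, 1, 1⟩, ⟨-1, -1, 1⟩⟩⟩,
    ⟨⟨⟨0, 0, -1⟩, ⟨0, -1, 0⟩, ⟨1, 0, 0⟩⟩, ⟨⟨1, -1, 1⟩, ⟨-1, -1, -1⟩, ⟨1, 1, -1⟩⟩⟩,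
    ⟨⟨⟨-1, 0, 0⟩, ⟨0, -1, 0⟩, ⟨0, 0, -1⟩⟩, ⟨⟨-1, -1, 1⟩, ⟨-1, -1, -1⟩, ⟨1, -1, 1⟩⟩⟩,
    ⟨⟨⟨-1, 0, 0⟩, ⟨0, 1, 0⟩, ⟨0, 0, 1⟩⟩, ⟨⟨-1, -1, 1⟩, ⟨1, 1, 1⟩, ⟨-1, 1, -1⟩⟩⟩,
    ⟨⟨⟨1, 0, 0⟩, ⟨0, 1, 0⟩, ⟨0, 0, -1⟩⟩, ⟨⟨1, 1, -1⟩, ⟨1, 1, 1⟩, ⟨1, -1, 1⟩⟩⟩,
    ⟨⟨⟨1, 0, 0⟩, ⟨0, -1, 0⟩, ⟨0, 0, 1⟩⟩, ⟨⟨1, 1, -1⟩, ⟨-1, -1, -1⟩, ⟨-1, 1, -1⟩⟩⟩,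
    ⟨⟨⟨0, 0, 1⟩, ⟨0, -1, 0⟩, ⟨-1, 0, 0⟩⟩, ⟨⟨-1, 1, -1⟩, ⟨-1, -1, -1⟩, ⟨-1, -1, 1⟩⟩⟩,
    ⟨⟨⟨0, 0, 1⟩, ⟨0, 1, 0⟩, ⟨1, 0, 0⟩⟩, ⟨⟨-1, 1, -1⟩, ⟨1, 1, 1⟩, ⟨1, 1, -1⟩⟩⟩],
   [(0, 0), (0, 1), (1, 1), (2, 0), (3, 0), (4, 1), (5, 1), (0, 2), (1, 2), (2, 2), (3, 2), (4, 2), (5, 2), (6, 2), (7, 2), (8, 1), (9, 1), (10, 1), (11, 1), (12, 1), (13, 1), (14, 1), (15, 1), (16, 2), (17, 2), (18, 2), (19, 2), (20, 2), (21, 2), (22, 2), (23, 2), (24, 1), (25, 1), (26, 1), (27, 1), (28, 1), (29, 1), (30, 1), (31, 1), (32,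 2), (33, 2), (34, 2), (35, 2), (36, 2), (37, 2), (38, 2), (39, 2)],
   [⟨⟨0, 0, 0⟩, ⟨0, 0, 0⟩, ⟨0, 0, 0⟩⟩,
    ⟨⟨-2, 0, 0⟩, ⟨0, -1, -1⟩, ⟨0, -1, -1⟩⟩,
    ⟨⟨-2, 0, 0⟩, ⟨0, 1, 1⟩, ⟨0, 1, 1⟩⟩,
    ⟨⟨0, -1, -1⟩, ⟨0, 1, 1⟩, ⟨-2, 0, 0⟩⟩,
    ⟨⟨0, -1, -1⟩, ⟨0, -1, -1⟩, ⟨2, 0, 0⟩⟩,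
    ⟨⟨0, 1, 1⟩, ⟨0, -1, -1⟩, ⟨-2, 0, 0⟩⟩,
    ⟨⟨0, 1, 1⟩, ⟨0, 1, 1⟩, ⟨2, 0, 0⟩⟩,
    ⟨⟨2, 0, 0⟩, ⟨0, 1, 1⟩, ⟨0, -1, -1⟩⟩,
    ⟨⟨2, 0, 0⟩, ⟨0, -1, -1⟩, ⟨0, 1, 1⟩⟩,
    ⟨⟨0, 0, 0⟩, ⟨0, 2, 0⟩, ⟨0, 0, 2⟩⟩,
    ⟨⟨2, 0, 0⟩, ⟨0, 1, 1⟩, ⟨0, 1, 1⟩⟩,
    ⟨⟨0, 0, 0⟩, ⟨0, -2, 0⟩, ⟨0, 0, -2⟩⟩,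
    ⟨⟨2, 0, 0⟩, ⟨0, -1, -1⟩, ⟨0, -1, -1⟩⟩,
    ⟨⟨0, 0, 2⟩, ⟨0, -2, 0⟩, ⟨0, 0, 0⟩⟩,
    ⟨⟨0, 1, 1⟩, ⟨0, -1, -1⟩, ⟨2, 0, 0⟩⟩,
    ⟨⟨0, 0, 2⟩, ⟨0, 2, 0⟩, ⟨0, 0, 0⟩⟩,
    ⟨⟨0, 1, 1⟩, ⟨0, 1, 1⟩, ⟨-2, 0, 0⟩⟩,
    ⟨⟨0, 0, -2⟩, ⟨0, 2, 0⟩, ⟨0, 0, 0⟩⟩,
    ⟨⟨0, -1, -1⟩, ⟨0, 1, 1⟩, ⟨2, 0, 0⟩⟩,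
    ⟨⟨0, 0, -2⟩, ⟨0, -2, 0⟩, ⟨0, 0, 0⟩⟩,
    ⟨⟨0, -1, -1⟩, ⟨0, -1, -1⟩, ⟨-2, 0, 0⟩⟩,
    ⟨⟨0, 0, 0⟩, ⟨0, -2, 0⟩, ⟨0, 0, 2⟩⟩,
    ⟨⟨-2, 0, 0⟩, ⟨0, -1, -1⟩, ⟨0, 1, 1⟩⟩,
    ⟨⟨0, 0, 0⟩, ⟨0, 2, 0⟩, ⟨0, 0, -2⟩⟩,
    ⟨⟨-2, 0, 0⟩, ⟨0, 1, 1⟩, ⟨0, -1, -1⟩⟩,
    ⟨⟨2, 0, 0⟩, ⟨0, 0, 0⟩, ⟨0, 0, 2⟩⟩,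
    ⟨⟨0, -1, -1⟩, ⟨-2, 0, 0⟩, ⟨0, 1, 1⟩⟩,
    ⟨⟨2, 0, 0⟩, ⟨0, 0, 0⟩, ⟨0, 0, -2⟩⟩,
    ⟨⟨0, -1, -1⟩, ⟨2, 0, 0⟩, ⟨0, -1, -1⟩⟩,
    ⟨⟨0, 0, 2⟩, ⟨0, 0, 0⟩, ⟨2, 0, 0⟩⟩,
    ⟨⟨0, 1, 1⟩, ⟨2, 0, 0⟩, ⟨0, -1, -1⟩⟩,
    ⟨⟨0, 0, 2⟩, ⟨0, 0, 0⟩, ⟨-2, 0, 0⟩⟩,
    ⟨⟨0, 1, 1⟩, ⟨-2, 0, 0⟩, ⟨0, 1, 1⟩⟩,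
    ⟨⟨0, 0, -2⟩, ⟨0, 0, 0⟩, ⟨2, 0, 0⟩⟩,
    ⟨⟨0, -1, -1⟩, ⟨-2, 0, 0⟩, ⟨0, -1, -1⟩⟩,
    ⟨⟨0, 0, -2⟩, ⟨0, 0, 0⟩, ⟨-2, 0, 0⟩⟩,
    ⟨⟨0, -1, -1⟩, ⟨2, 0, 0⟩, ⟨0, 1, 1⟩⟩,
    ⟨⟨-2, 0, 0⟩, ⟨0, 0, 0⟩, ⟨0, 0, 2⟩⟩,
    ⟨⟨0, 1, 1⟩, ⟨2, 0, 0⟩, ⟨0, 1, 1⟩⟩,
    ⟨⟨-2, 0, 0⟩, ⟨0, 0, 0⟩, ⟨0, 0, -2⟩⟩,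
    ⟨⟨0, 1, 1⟩, ⟨-2, 0, 0⟩, ⟨0, -1, -1⟩⟩,
    ⟨⟨2, 0, 2⟩, ⟨0, 0, 0⟩, ⟨0, -2, 2⟩⟩,
    ⟨⟨2, 0, 2⟩, ⟨0, 0, 0⟩, ⟨0, 2, -2⟩⟩,
    ⟨⟨0, -2, 2⟩, ⟨0, 0, 0⟩, ⟨2, 0, 2⟩⟩,
    ⟨⟨0, -2, 2⟩, ⟨0, 0, 0⟩, ⟨-2, 0, -2⟩⟩,
    ⟨⟨0, 2, -2⟩, ⟨0, 0, 0⟩, ⟨2, 0, 2⟩⟩,
    ⟨⟨0, 2, -2⟩, ⟨0, 0, 0⟩, ⟨-2, 0, -2⟩⟩,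
    ⟨⟨-2, 0, -2⟩, ⟨0, 0, 0⟩, ⟨0, -2, 2⟩⟩,
    ⟨⟨-2, 0, -2⟩, ⟨0, 0, 0⟩, ⟨0, 2, -2⟩⟩,
    ⟨⟨2, 0, 2⟩, ⟨2, 2, 0⟩, ⟨0, 0, 0⟩⟩,
    ⟨⟨2, 0, 2⟩, ⟨-2, -2, 0⟩, ⟨0, 0, 0⟩⟩,
    ⟨⟨0, 0, 0⟩, ⟨-2, -2, 0⟩, ⟨2, 0, 2⟩⟩,
    ⟨⟨0, 0, 0⟩, ⟨2, 2, 0⟩, ⟨-2, 0, -2⟩⟩,
    ⟨⟨0, 0, 0⟩, ⟨2, 2, 0⟩, ⟨2, 0, 2⟩⟩,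
    ⟨⟨0, 0, 0⟩, ⟨-2, -2, 0⟩, ⟨-2, 0, -2⟩⟩,
    ⟨⟨-2, 0, -2⟩, ⟨-2, -2, 0⟩, ⟨0, 0, 0⟩⟩,
    ⟨⟨-2, 0, -2⟩, ⟨2, 2, 0⟩, ⟨0, 0, 0⟩⟩,
    ⟨⟨2, -2, 2⟩, ⟨2, 2, 2⟩, ⟨0, 0, 0⟩⟩,
    ⟨⟨2, 0, 0⟩, ⟨2, 2, 2⟩, ⟨-2, 0, 0⟩⟩,
    ⟨⟨2, -2, 2⟩, ⟨-2, -2, -2⟩, ⟨0, 0, 0⟩⟩,
    ⟨⟨2, 0, 0⟩, ⟨-2, -2, -2⟩, ⟨2, 0, 0⟩⟩,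
    ⟨⟨0, 0, 0⟩, ⟨-2, -2, -2⟩, ⟨2, -2, 2⟩⟩,
    ⟨⟨-2, 0, 0⟩, ⟨-2, -2, -2⟩, ⟨2, 0, 0⟩⟩,
    ⟨⟨0, 0, 0⟩, ⟨2, 2, 2⟩, ⟨-2, 2, -2⟩⟩,
    ⟨⟨-2, 0, 0⟩, ⟨2, 2, 2⟩, ⟨-2, 0, 0⟩⟩,
    ⟨⟨0, 0, 0⟩, ⟨2, 2, 2⟩, ⟨2, -2, 2⟩⟩,
    ⟨⟨2, 0, 0⟩, ⟨2, 2, 2⟩, ⟨2, 0, 0⟩⟩,
    ⟨⟨0, 0, 0⟩, ⟨-2, -2, -2⟩, ⟨-2, 2, -2⟩⟩,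
    ⟨⟨2, 0, 0⟩, ⟨-2, -2, -2⟩, ⟨-2, 0, 0⟩⟩,
    ⟨⟨-2, 2, -2⟩, ⟨-2, -2, -2⟩, ⟨0, 0, 0⟩⟩,
    ⟨⟨-2, 0, 0⟩, ⟨-2, -2, -2⟩, ⟨-2, 0, 0⟩⟩,
    ⟨⟨-2, 2, -2⟩, ⟨2, 2, 2⟩, ⟨0, 0, 0⟩⟩,
    ⟨⟨-2, 0, 0⟩, ⟨2, 2, 2⟩, ⟨2, 0, 0⟩⟩],
   [[(1, 0), (2, 0), (8, 0), (8, 1)],
    [(0, 0), (3, 0), (9, 0), (9, 2)],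
    [(4, 0), (0, 0), (10, 0), (10, 3)],
    [(5, 0), (1, 0), (11, 0), (11, 4)],
    [(2, 0), (6, 0), (12, 0), (12, 5)],
    [(3, 0), (7, 0), (13, 0), (13, 6)],
    [(7, 0), (4, 0), (14, 0), (14, 7)],
    [(6, 0), (5, 0), (15, 0), (15, 8)],
    [(9, 9), (16, 0), (0, 10), (0, 0)],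
    [(8, 11), (17, 0), (1, 12), (1, 0)],
    [(12, 13), (18, 0), (2, 14), (2, 0)],
    [(13, 15), (19, 0), (3, 16), (3, 0)],
    [(10, 17), (20, 0), (4, 18), (4, 0)],
    [(11, 19), (21, 0), (5, 20), (5, 0)],
    [(15, 21), (22, 0), (6, 22), (6, 0)],
    [(14, 23), (23, 0), (7, 24), (7, 0)],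
    [(23, 25), (8, 0), (24, 0), (24, 26)],
    [(22, 27), (9, 0), (25, 0), (25, 28)],
    [(21, 29), (10, 0), (26, 0), (26, 30)],
    [(20, 31), (11, 0), (27, 0), (27, 32)],
    [(19, 33), (12, 0), (28, 0), (28, 34)],
    [(18, 35), (13, 0), (29, 0), (29, 36)],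
    [(17, 37), (14, 0), (30, 0), (30, 38)],
    [(16, 39), (15, 0), (31, 0), (31, 40)],
    [(31, 41), (32, 0), (16, 30), (16, 0)],
    [(30, 42), (33, 0), (17, 32), (17, 0)],
    [(29, 43), (34, 0), (18, 26), (18, 0)],
    [(28, 44), (35, 0), (19, 28), (19, 0)],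
    [(27, 45), (36, 0), (20, 38), (20, 0)],
    [(26, 46), (37, 0), (21, 40), (21, 0)],
    [(25, 47), (38, 0), (22, 34), (22, 0)],
    [(24, 48), (39, 0), (23, 36), (23, 0)],
    [(38, 49), (24, 0), (40, 0), (40, 14)],
    [(39, 50), (25, 0), (41, 0), (41, 16)],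
    [(35, 51), (26, 0), (42, 0), (42, 10)],
    [(34, 52), (27, 0), (43, 0), (43, 12)],
    [(37, 53), (28, 0), (44, 0), (44, 22)],
    [(36, 54), (29, 0), (45, 0), (45, 24)],
    [(32, 55), (30, 0), (46, 0), (46, 18)],
    [(33, 56), (31, 0), (47, 0), (47, 20)],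
    [(46, 57), (42, 58), (32, 3), (32, 0)],
    [(47, 59), (43, 60), (33, 4), (33, 0)],
    [(43, 61), (40, 62), (34, 1), (34, 0)],
    [(42, 63), (41, 64), (35, 2), (35, 0)],
    [(45, 65), (46, 66), (36, 7), (36, 0)],
    [(44, 67), (47, 68), (37, 8), (37, 0)],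
    [(40, 69), (44, 70), (38, 5), (38, 0)],
    [(41, 71), (45, 72), (39, 6), (39, 0)]]⟩

def cubLat32 : List LatE :=
  [⟨⟨⟨1, 0, 0⟩, ⟨0, 1, 0⟩, ⟨0, 0, 1⟩⟩, 1, ⟨⟨0, 0, 0⟩, ⟨0, 0, 0⟩, ⟨0, 0, 0⟩⟩⟩]

def cubRow33 : Row :=
  ⟨[⟨⟨1, 0, 0⟩, ⟨0, -1, 0⟩, ⟨0, 0, -1⟩⟩, ⟨⟨0, 0, 1⟩, ⟨0, -1, 0⟩, ⟨1, 0, 0⟩⟩], ⟨⟨1, 0, 0⟩, ⟨0, 0, 1⟩, ⟨0, -1, 0⟩⟩, ⟨⟨1, 0, 0⟩, ⟨0, 0, -1⟩, ⟨0, 1, 0⟩⟩, 8,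
   [⟨⟨⟨1, 0, 0⟩, ⟨0, 1, 0⟩, ⟨0, 0, 1⟩⟩, ⟨⟨0, 0, 0⟩, ⟨0, 0, 0⟩, ⟨0, 0, 0⟩⟩⟩,
    ⟨⟨⟨1, 0, 0⟩, ⟨0, -1, 0⟩, ⟨0, 0, -1⟩⟩, ⟨⟨0, 0, 0⟩, ⟨0, 0, 0⟩, ⟨0, 0, 0⟩⟩⟩,
    ⟨⟨⟨0, 0, 1⟩, ⟨0, -1, 0⟩, ⟨1, 0, 0⟩⟩, ⟨⟨0, 0, 0⟩, ⟨0, 0, 0⟩, ⟨0, 0, 0⟩⟩⟩,
    ⟨⟨⟨0, 0, 1⟩, ⟨0, 1, 0⟩, ⟨-1, 0, 0⟩⟩, ⟨⟨0, 0, 0⟩, ⟨0, 0, 0⟩, ⟨0, 0, 0⟩⟩⟩,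
    ⟨⟨⟨0, 0, -1⟩, ⟨0, 1, 0⟩, ⟨1, 0, 0⟩⟩, ⟨⟨0, 0, 0⟩, ⟨0, 0, 0⟩, ⟨0, 0, 0⟩⟩⟩,
    ⟨⟨⟨0, 0, -1⟩, ⟨0, -1, 0⟩, ⟨-1, 0, 0⟩⟩, ⟨⟨0, 0, 0⟩, ⟨0, 0, 0⟩, ⟨0, 0, 0⟩⟩⟩,
    ⟨⟨⟨-1, 0, 0⟩, ⟨0, -1, 0⟩, ⟨0, 0, 1⟩⟩, ⟨⟨0, 0, 0⟩, ⟨0, 0, 0⟩, ⟨0, 0, 0⟩⟩⟩,
    ⟨⟨⟨-1, 0, 0⟩, ⟨0, 1, 0⟩, ⟨0, 0, -1⟩⟩, ⟨⟨0, 0, 0⟩, ⟨0, 0, 0⟩, ⟨0, 0, 0⟩⟩⟩,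
    ⟨⟨⟨1, 0, 0⟩, ⟨0, 0, 1⟩, ⟨0, -1, 0⟩⟩, ⟨⟨1, 0, 0⟩, ⟨0, 1, 0⟩, ⟨0, 0, 1⟩⟩⟩,
    ⟨⟨⟨1, 0, 0⟩, ⟨0, 0, -1⟩, ⟨0, 1, 0⟩⟩, ⟨⟨-1, 0, 0⟩, ⟨0, 0, 1⟩, ⟨0, -1, 0⟩⟩⟩,
    ⟨⟨⟨0, -1, 0⟩, ⟨0, 0, -1⟩, ⟨1, 0, 0⟩⟩, ⟨⟨0, 0, 1⟩, ⟨0, -1, 0⟩, ⟨1, 0, 0⟩⟩⟩,
    ⟨⟨⟨0, 1, 0⟩, ⟨0, 0, 1⟩, ⟨1, 0, 0⟩⟩, ⟨⟨0, -1, 0⟩, ⟨0, 0, -1⟩, ⟨-1, 0, 0⟩⟩⟩,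
    ⟨⟨⟨0, -1, 0⟩, ⟨0, 0, 1⟩, ⟨-1, 0, 0⟩⟩, ⟨⟨0, 0, 1⟩, ⟨0, 1, 0⟩, ⟨-1, 0, 0⟩⟩⟩,
    ⟨⟨⟨0, 1, 0⟩, ⟨0, 0, -1⟩, ⟨-1, 0, 0⟩⟩, ⟨⟨0, -1, 0⟩, ⟨0, 0, 1⟩, ⟨1, 0, 0⟩⟩⟩,
    ⟨⟨⟨-1, 0, 0⟩, ⟨0, 0, -1⟩, ⟨0, -1, 0⟩⟩, ⟨⟨-1, 0, 0⟩, ⟨0, -1, 0⟩, ⟨0, 0, 1⟩⟩⟩,
    ⟨⟨⟨-1, 0, 0⟩, ⟨0, 0, 1⟩, ⟨0, 1, 0⟩⟩, ⟨⟨1, 0, 0⟩, ⟨0, 0, -1⟩, ⟨0, -1, 0⟩⟩⟩,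
    ⟨⟨⟨0, 0, 1⟩, ⟨1, 0, 0⟩, ⟨0, 1, 0⟩⟩, ⟨⟨1, 0, 0⟩, ⟨0, 1, 0⟩, ⟨0, 0, 1⟩⟩⟩,
    ⟨⟨⟨0, 0, 1⟩, ⟨-1, 0, 0⟩, ⟨0, -1, 0⟩⟩, ⟨⟨-1, 0, 0⟩, ⟨0, 0, 1⟩, ⟨0, -1, 0⟩⟩⟩,
    ⟨⟨⟨0, 1, 0⟩, ⟨-1, 0, 0⟩, ⟨0, 0, 1⟩⟩, ⟨⟨0, 0, 1⟩, ⟨0, -1, 0⟩, ⟨1, 0, 0⟩⟩⟩,
    ⟨⟨⟨0, -1, 0⟩, ⟨1, 0, 0⟩, ⟨0, 0, 1⟩⟩, ⟨⟨0, -1, 0⟩, ⟨0, 0, -1⟩, ⟨-1, 0, 0⟩⟩⟩,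
    ⟨⟨⟨0, 1, 0⟩, ⟨1, 0, 0⟩, ⟨0, 0, -1⟩⟩, ⟨⟨0, 0, 1⟩, ⟨0, 1, 0⟩, ⟨-1, 0, 0⟩⟩⟩,
    ⟨⟨⟨0, -1, 0⟩, ⟨-1, 0, 0⟩, ⟨0, 0, -1⟩⟩, ⟨⟨0, -1, 0⟩, ⟨0, 0, 1⟩, ⟨1, 0, 0⟩⟩⟩,
    ⟨⟨⟨0, 0, -1⟩, ⟨-1, 0, 0⟩, ⟨0, 1, 0⟩⟩, ⟨⟨-1, 0, 0⟩, ⟨0, -1, 0⟩, ⟨0, 0, 1⟩⟩⟩,
    ⟨⟨⟨0, 0, -1⟩, ⟨1, 0, 0⟩, ⟨0, -1, 0⟩⟩, ⟨⟨1, 0, 0⟩, ⟨0, 0, -1⟩, ⟨0, -1, 0⟩⟩⟩],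
   [(0, 0), (0, 1), (1, 1), (2, 0), (3, 0), (4, 1), (5, 1), (0, 2), (0, 3), (2, 2), (2, 3), (3, 2), (3, 3), (6, 2), (6, 3), (8, 1), (9, 1), (10, 1), (11, 1), (12, 1), (13, 1), (14, 1), (15, 1)],
   [⟨⟨0, 0, 0⟩, ⟨0, 0, 0⟩, ⟨0, 0, 0⟩⟩,
    ⟨⟨2, 0, 0⟩, ⟨0, -1, -1⟩, ⟨0, 1, -1⟩⟩,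
    ⟨⟨-2, 0, 0⟩, ⟨0, -1, -1⟩, ⟨0, 1, -1⟩⟩,
    ⟨⟨0, 1, -1⟩, ⟨0, 1, 1⟩, ⟨2, 0, 0⟩⟩,
    ⟨⟨0, 1, -1⟩, ⟨0, 1, 1⟩, ⟨-2, 0, 0⟩⟩,
    ⟨⟨0, 1, -1⟩, ⟨0, -1, -1⟩, ⟨-2, 0, 0⟩⟩,
    ⟨⟨0, 1, -1⟩, ⟨0, -1, -1⟩, ⟨2, 0, 0⟩⟩,
    ⟨⟨-2, 0, 0⟩, ⟨0, 1, 1⟩, ⟨0, 1, -1⟩⟩,
    ⟨⟨2, 0, 0⟩, ⟨0, 1, 1⟩, ⟨0, 1, -1⟩⟩,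
    ⟨⟨2, 0, 0⟩, ⟨0, 1, -1⟩, ⟨0, 1, 1⟩⟩,
    ⟨⟨2, 0, 0⟩, ⟨0, 1, 1⟩, ⟨0, -1, 1⟩⟩,
    ⟨⟨-2, 0, 0⟩, ⟨0, -1, 1⟩, ⟨0, -1, -1⟩⟩,
    ⟨⟨-2, 0, 0⟩, ⟨0, 1, 1⟩, ⟨0, -1, 1⟩⟩,
    ⟨⟨0, 1, 1⟩, ⟨0, -1, 1⟩, ⟨2, 0, 0⟩⟩,
    ⟨⟨0, -1, 1⟩, ⟨0, -1, -1⟩, ⟨2, 0, 0⟩⟩,
    ⟨⟨0, -1, -1⟩, ⟨0, 1, -1⟩, ⟨-2, 0, 0⟩⟩,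
    ⟨⟨0, -1, 1⟩, ⟨0, -1, -1⟩, ⟨-2, 0, 0⟩⟩,
    ⟨⟨0, 1, 1⟩, ⟨0, 1, -1⟩, ⟨-2, 0, 0⟩⟩,
    ⟨⟨0, -1, 1⟩, ⟨0, 1, 1⟩, ⟨-2, 0, 0⟩⟩,
    ⟨⟨0, -1, -1⟩, ⟨0, -1, 1⟩, ⟨2, 0, 0⟩⟩,
    ⟨⟨0, -1, 1⟩, ⟨0, 1, 1⟩, ⟨2, 0, 0⟩⟩,
    ⟨⟨-2, 0, 0⟩, ⟨0, -1, 1⟩, ⟨0, 1, 1⟩⟩,
    ⟨⟨-2, 0, 0⟩, ⟨0, -1, -1⟩, ⟨0, -1, 1⟩⟩,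
    ⟨⟨2, 0, 0⟩, ⟨0, 1, -1⟩, ⟨0, -1, -1⟩⟩,
    ⟨⟨2, 0, 0⟩, ⟨0, -1, -1⟩, ⟨0, -1, 1⟩⟩,
    ⟨⟨0, 0, 0⟩, ⟨0, 1, 1⟩, ⟨0, 1, 1⟩⟩,
    ⟨⟨1, 1, 1⟩, ⟨1, 1, 1⟩, ⟨1, 1, 1⟩⟩,
    ⟨⟨1, -1, -1⟩, ⟨-1, 0, 0⟩, ⟨1, 0, 2⟩⟩,
    ⟨⟨0, 0, 0⟩, ⟨0, 1, 1⟩, ⟨0, -1, -1⟩⟩,
    ⟨⟨-1, 1, 1⟩, ⟨-1, 0, 0⟩, ⟨-1, -2, 0⟩⟩,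
    ⟨⟨-1, -1, -1⟩, ⟨1, 1, 1⟩, ⟨-1, -1, -1⟩⟩,
    ⟨⟨0, 1, 1⟩, ⟨0, -1, -1⟩, ⟨0, 0, 0⟩⟩,
    ⟨⟨1, 1, 1⟩, ⟨-1, -1, -1⟩, ⟨1, 1, 1⟩⟩,
    ⟨⟨1, 0, 2⟩, ⟨1, 0, 0⟩, ⟨1, -1, -1⟩⟩,
    ⟨⟨0, -1, -1⟩, ⟨0, -1, -1⟩, ⟨0, 0, 0⟩⟩,
    ⟨⟨-1, -2, 0⟩, ⟨1, 0, 0⟩, ⟨-1, 1, 1⟩⟩,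
    ⟨⟨-1, -1, -1⟩, ⟨-1, -1, -1⟩, ⟨-1, -1, -1⟩⟩,
    ⟨⟨0, 1, 1⟩, ⟨0, 1, 1⟩, ⟨0, 0, 0⟩⟩,
    ⟨⟨-1, 1, 1⟩, ⟨1, 0, 0⟩, ⟨-1, 0, -2⟩⟩,
    ⟨⟨-1, 0, 2⟩, ⟨-1, 1, 1⟩, ⟨-1, 2, 0⟩⟩,
    ⟨⟨0, -1, -1⟩, ⟨0, 1, 1⟩, ⟨0, 0, 0⟩⟩,
    ⟨⟨1, -2, 0⟩, ⟨-1, 1, 1⟩, ⟨1, 0, -2⟩⟩,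
    ⟨⟨1, -1, -1⟩, ⟨1, 0, 0⟩, ⟨1, 2, 0⟩⟩,
    ⟨⟨0, 0, 0⟩, ⟨0, -1, -1⟩, ⟨0, 1, 1⟩⟩,
    ⟨⟨-1, 0, -2⟩, ⟨-1, 0, 0⟩, ⟨-1, 1, 1⟩⟩,
    ⟨⟨-1, 2, 0⟩, ⟨1, -1, -1⟩, ⟨-1, 0, 2⟩⟩,
    ⟨⟨0, 0, 0⟩, ⟨0, -1, -1⟩, ⟨0, -1, -1⟩⟩,
    ⟨⟨1, 0, -2⟩, ⟨1, -1, -1⟩, ⟨1, -2, 0⟩⟩,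
    ⟨⟨1, 2, 0⟩, ⟨-1, 0, 0⟩, ⟨1, -1, -1⟩⟩],
   [[(1, 0), (2, 0), (8, 0), (9, 0)],
    [(0, 0), (3, 0), (9, 1), (8, 2)],
    [(4, 0), (0, 0), (10, 0), (11, 0)],
    [(5, 0), (1, 0), (12, 0), (13, 0)],
    [(2, 0), (6, 0), (11, 3), (10, 4)],
    [(3, 0), (7, 0), (13, 5), (12, 6)],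
    [(7, 0), (4, 0), (14, 0), (15, 0)],
    [(6, 0), (5, 0), (15, 7), (14, 8)],
    [(9, 9), (16, 0), (1, 10), (0, 0)],
    [(8, 11), (17, 0), (0, 0), (1, 12)],
    [(11, 13), (18, 0), (4, 14), (2, 0)],
    [(10, 15), (19, 0), (2, 0), (4, 16)],
    [(13, 17), (20, 0), (5, 18), (3, 0)],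
    [(12, 19), (21, 0), (3, 0), (5, 20)],
    [(15, 21), (22, 0), (7, 22), (6, 0)],
    [(14, 23), (23, 0), (6, 0), (7, 24)],
    [(23, 25), (8, 0), (19, 26), (20, 27)],
    [(22, 28), (9, 0), (21, 29), (18, 30)],
    [(21, 31), (10, 0), (17, 32), (22, 33)],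
    [(20, 34), (11, 0), (23, 35), (16, 36)],
    [(19, 37), (12, 0), (16, 38), (23, 39)],
    [(18, 40), (13, 0), (22, 41), (17, 42)],
    [(17, 43), (14, 0), (18, 44), (21, 45)],
    [(16, 46), (15, 0), (20, 47), (19, 48)]]⟩

def cubLat33 : List LatE :=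
  [⟨⟨⟨1, 1, 0⟩, ⟨0, 1, 1⟩, ⟨0, 0, 2⟩⟩, 2, ⟨⟨0, 0, 0⟩, ⟨0, 0, 0⟩, ⟨0, 0, 0⟩⟩⟩]

def cubRow34 : Row :=
  ⟨[⟨⟨1, 0, 0⟩, ⟨0, -1, 0⟩, ⟨0, 0, -1⟩⟩, ⟨⟨0, 0, 1⟩, ⟨0, 1, 0⟩, ⟨1, 0, 0⟩⟩], ⟨⟨1, 0, 0⟩, ⟨0, 0, 1⟩, ⟨0, 1, 0⟩⟩, ⟨⟨1, 0, 0⟩, ⟨0, 0, 1⟩, ⟨0, 1, 0⟩⟩, 8,
   [⟨⟨⟨1, 0, 0⟩, ⟨0, 1, 0⟩, ⟨0, 0, 1⟩⟩, ⟨⟨0, 0, 0⟩, ⟨0, 0, 0⟩, ⟨0, 0, 0⟩⟩⟩,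
    ⟨⟨⟨1, 0, 0⟩, ⟨0, -1, 0⟩, ⟨0, 0, -1⟩⟩, ⟨⟨0, 0, 0⟩, ⟨0, 0, 0⟩, ⟨0, 0, 0⟩⟩⟩,
    ⟨⟨⟨0, 0, 1⟩, ⟨0, 1, 0⟩, ⟨1, 0, 0⟩⟩, ⟨⟨0, 0, 0⟩, ⟨0, 0, 0⟩, ⟨0, 0, 0⟩⟩⟩,
    ⟨⟨⟨0, 0, 1⟩, ⟨0, -1, 0⟩, ⟨-1, 0, 0⟩⟩, ⟨⟨0, 0, 0⟩, ⟨0, 0, 0⟩, ⟨0, 0, 0⟩⟩⟩,
    ⟨⟨⟨0, 0, -1⟩, ⟨0, -1, 0⟩, ⟨1, 0, 0⟩⟩, ⟨⟨0, 0, 0⟩, ⟨0, 0, 0⟩, ⟨0, 0, 0⟩⟩⟩,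
    ⟨⟨⟨0, 0, -1⟩, ⟨0, 1, 0⟩, ⟨-1, 0, 0⟩⟩, ⟨⟨0, 0, 0⟩, ⟨0, 0, 0⟩, ⟨0, 0, 0⟩⟩⟩,
    ⟨⟨⟨-1, 0, 0⟩, ⟨0, -1, 0⟩, ⟨0, 0, 1⟩⟩, ⟨⟨0, 0, 0⟩, ⟨0, 0, 0⟩, ⟨0, 0, 0⟩⟩⟩,
    ⟨⟨⟨-1, 0, 0⟩, ⟨0, 1, 0⟩, ⟨0, 0, -1⟩⟩, ⟨⟨0, 0, 0⟩, ⟨0, 0, 0⟩, ⟨0, 0, 0⟩⟩⟩,
    ⟨⟨⟨1, 0, 0⟩, ⟨0, 0, 1⟩, ⟨0, 1, 0⟩⟩, ⟨⟨1, 0, 0⟩, ⟨0, 1, 0⟩, ⟨0, 0, 1⟩⟩⟩,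
    ⟨⟨⟨1, 0, 0⟩, ⟨0, 0, -1⟩, ⟨0, -1, 0⟩⟩, ⟨⟨1, 0, 0⟩, ⟨0, -1, 0⟩, ⟨0, 0, -1⟩⟩⟩,
    ⟨⟨⟨0, 1, 0⟩, ⟨0, 0, 1⟩, ⟨1, 0, 0⟩⟩, ⟨⟨0, 0, 1⟩, ⟨0, 1, 0⟩, ⟨1, 0, 0⟩⟩⟩,
    ⟨⟨⟨0, 1, 0⟩, ⟨0, 0, -1⟩, ⟨-1, 0, 0⟩⟩, ⟨⟨0, 0, 1⟩, ⟨0, -1, 0⟩, ⟨-1, 0, 0⟩⟩⟩,
    ⟨⟨⟨0, -1, 0⟩, ⟨0, 0, -1⟩, ⟨1, 0, 0⟩⟩, ⟨⟨0, 0, -1⟩, ⟨0, -1, 0⟩, ⟨1, 0, 0⟩⟩⟩,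
    ⟨⟨⟨0, -1, 0⟩, ⟨0, 0, 1⟩, ⟨-1, 0, 0⟩⟩, ⟨⟨0, 0, -1⟩, ⟨0, 1, 0⟩, ⟨-1, 0, 0⟩⟩⟩,
    ⟨⟨⟨-1, 0, 0⟩, ⟨0, 0, -1⟩, ⟨0, 1, 0⟩⟩, ⟨⟨-1, 0, 0⟩, ⟨0, -1, 0⟩, ⟨0, 0, 1⟩⟩⟩,
    ⟨⟨⟨-1, 0, 0⟩, ⟨0, 0, 1⟩, ⟨0, -1, 0⟩⟩, ⟨⟨-1, 0, 0⟩, ⟨0, 1, 0⟩, ⟨0, 0, -1⟩⟩⟩,
    ⟨⟨⟨0, 0, 1⟩, ⟨1, 0, 0⟩, ⟨0, 1, 0⟩⟩, ⟨⟨1, 0, 0⟩, ⟨0, 1, 0⟩, ⟨0, 0, 1⟩⟩⟩,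
    ⟨⟨⟨0, 0, 1⟩, ⟨-1, 0, 0⟩, ⟨0, -1, 0⟩⟩, ⟨⟨1, 0, 0⟩, ⟨0, -1, 0⟩, ⟨0, 0, -1⟩⟩⟩,
    ⟨⟨⟨0, 1, 0⟩, ⟨1, 0, 0⟩, ⟨0, 0, 1⟩⟩, ⟨⟨0, 0, 1⟩, ⟨0, 1, 0⟩, ⟨1, 0, 0⟩⟩⟩,
    ⟨⟨⟨0, 1, 0⟩, ⟨-1, 0, 0⟩, ⟨0, 0, -1⟩⟩, ⟨⟨0, 0, 1⟩, ⟨0, -1, 0⟩, ⟨-1, 0, 0⟩⟩⟩,
    ⟨⟨⟨0, -1, 0⟩, ⟨-1, 0, 0⟩, ⟨0, 0, 1⟩⟩, ⟨⟨0, 0, -1⟩, ⟨0, -1, 0⟩, ⟨1, 0, 0⟩⟩⟩,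
    ⟨⟨⟨0, -1, 0⟩, ⟨1, 0, 0⟩, ⟨0, 0, -1⟩⟩, ⟨⟨0, 0, -1⟩, ⟨0, 1, 0⟩, ⟨-1, 0, 0⟩⟩⟩,
    ⟨⟨⟨0, 0, -1⟩, ⟨-1, 0, 0⟩, ⟨0, 1, 0⟩⟩, ⟨⟨-1, 0, 0⟩, ⟨0, -1, 0⟩, ⟨0, 0, 1⟩⟩⟩,
    ⟨⟨⟨0, 0, -1⟩, ⟨1, 0, 0⟩, ⟨0, -1, 0⟩⟩, ⟨⟨-1, 0, 0⟩, ⟨0, 1, 0⟩, ⟨0, 0, -1⟩⟩⟩],
   [(0, 0), (0, 1), (1, 1), (2, 0), (3, 0), (4, 1), (5, 1), (0, 2), (1, 2), (2, 2), (3, 2), (4, 2), (5, 2), (6, 2), (7, 2), (8, 1), (9, 1), (10, 1), (11, 1), (12, 1), (13, 1), (14, 1), (15, 1)],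
   [⟨⟨0, 0, 0⟩, ⟨0, 0, 0⟩, ⟨0, 0, 0⟩⟩,
    ⟨⟨-2, 0, 0⟩, ⟨0, -1, -1⟩, ⟨0, -1, -1⟩⟩,
    ⟨⟨-2, 0, 0⟩, ⟨0, 1, 1⟩, ⟨0, 1, 1⟩⟩,
    ⟨⟨0, -1, -1⟩, ⟨0, -1, -1⟩, ⟨-2, 0, 0⟩⟩,
    ⟨⟨0, -1, -1⟩, ⟨0, 1, 1⟩, ⟨2, 0, 0⟩⟩,
    ⟨⟨0, 1, 1⟩, ⟨0, 1, 1⟩, ⟨-2, 0, 0⟩⟩,
    ⟨⟨0, 1, 1⟩, ⟨0, -1, -1⟩, ⟨2, 0, 0⟩⟩,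
    ⟨⟨2, 0, 0⟩, ⟨0, 1, 1⟩, ⟨0, -1, -1⟩⟩,
    ⟨⟨2, 0, 0⟩, ⟨0, -1, -1⟩, ⟨0, 1, 1⟩⟩,
    ⟨⟨0, 0, 0⟩, ⟨0, 2, 0⟩, ⟨0, 0, 2⟩⟩,
    ⟨⟨2, 0, 0⟩, ⟨0, 1, 1⟩, ⟨0, 1, 1⟩⟩,
    ⟨⟨0, 0, 0⟩, ⟨0, -2, 0⟩, ⟨0, 0, -2⟩⟩,
    ⟨⟨2, 0, 0⟩, ⟨0, -1, -1⟩, ⟨0, -1, -1⟩⟩,
    ⟨⟨0, 0, 2⟩, ⟨0, 2, 0⟩, ⟨0, 0, 0⟩⟩,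
    ⟨⟨0, 1, 1⟩, ⟨0, 1, 1⟩, ⟨2, 0, 0⟩⟩,
    ⟨⟨0, 0, 2⟩, ⟨0, -2, 0⟩, ⟨0, 0, 0⟩⟩,
    ⟨⟨0, 1, 1⟩, ⟨0, -1, -1⟩, ⟨-2, 0, 0⟩⟩,
    ⟨⟨0, 0, -2⟩, ⟨0, -2, 0⟩, ⟨0, 0, 0⟩⟩,
    ⟨⟨0, -1, -1⟩, ⟨0, -1, -1⟩, ⟨2, 0, 0⟩⟩,
    ⟨⟨0, 0, -2⟩, ⟨0, 2, 0⟩, ⟨0, 0, 0⟩⟩,
    ⟨⟨0, -1, -1⟩, ⟨0, 1, 1⟩, ⟨-2, 0, 0⟩⟩,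
    ⟨⟨0, 0, 0⟩, ⟨0, -2, 0⟩, ⟨0, 0, 2⟩⟩,
    ⟨⟨-2, 0, 0⟩, ⟨0, -1, -1⟩, ⟨0, 1, 1⟩⟩,
    ⟨⟨0, 0, 0⟩, ⟨0, 2, 0⟩, ⟨0, 0, -2⟩⟩,
    ⟨⟨-2, 0, 0⟩, ⟨0, 1, 1⟩, ⟨0, -1, -1⟩⟩,
    ⟨⟨2, 0, 0⟩, ⟨0, 0, 0⟩, ⟨0, 0, 2⟩⟩,
    ⟨⟨1, 0, 0⟩, ⟨1, 0, 0⟩, ⟨-1, 1, 1⟩⟩,
    ⟨⟨1, -1, -1⟩, ⟨-1, 0, 0⟩, ⟨-1, 0, 0⟩⟩,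
    ⟨⟨2, 0, 0⟩, ⟨0, 0, 0⟩, ⟨0, 0, -2⟩⟩,
    ⟨⟨1, 0, 0⟩, ⟨-1, 0, 0⟩, ⟨1, -1, -1⟩⟩,
    ⟨⟨1, -1, -1⟩, ⟨1, 0, 0⟩, ⟨1, 0, 0⟩⟩,
    ⟨⟨0, 0, 2⟩, ⟨0, 0, 0⟩, ⟨2, 0, 0⟩⟩,
    ⟨⟨-1, 1, 1⟩, ⟨1, 0, 0⟩, ⟨1, 0, 0⟩⟩,
    ⟨⟨-1, 0, 0⟩, ⟨-1, 0, 0⟩, ⟨1, -1, -1⟩⟩,
    ⟨⟨0, 0, 2⟩, ⟨0, 0, 0⟩, ⟨-2, 0, 0⟩⟩,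
    ⟨⟨-1, 1, 1⟩, ⟨-1, 0, 0⟩, ⟨-1, 0, 0⟩⟩,
    ⟨⟨-1, 0, 0⟩, ⟨1, 0, 0⟩, ⟨-1, 1, 1⟩⟩,
    ⟨⟨0, 0, -2⟩, ⟨0, 0, 0⟩, ⟨2, 0, 0⟩⟩,
    ⟨⟨1, -1, -1⟩, ⟨-1, 0, 0⟩, ⟨1, 0, 0⟩⟩,
    ⟨⟨1, 0, 0⟩, ⟨1, 0, 0⟩, ⟨1, -1, -1⟩⟩,
    ⟨⟨0, 0, -2⟩, ⟨0, 0, 0⟩, ⟨-2, 0, 0⟩⟩,
    ⟨⟨1, -1, -1⟩, ⟨1, 0, 0⟩, ⟨-1, 0, 0⟩⟩,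
    ⟨⟨1, 0, 0⟩, ⟨-1, 0, 0⟩, ⟨-1, 1, 1⟩⟩,
    ⟨⟨-2, 0, 0⟩, ⟨0, 0, 0⟩, ⟨0, 0, 2⟩⟩,
    ⟨⟨-1, 0, 0⟩, ⟨-1, 0, 0⟩, ⟨-1, 1, 1⟩⟩,
    ⟨⟨-1, 1, 1⟩, ⟨1, 0, 0⟩, ⟨-1, 0, 0⟩⟩,
    ⟨⟨-2, 0, 0⟩, ⟨0, 0, 0⟩, ⟨0, 0, -2⟩⟩,
    ⟨⟨-1, 0, 0⟩, ⟨1, 0, 0⟩, ⟨1, -1, -1⟩⟩,
    ⟨⟨-1, 1, 1⟩, ⟨-1, 0, 0⟩, ⟨1, 0, 0⟩⟩],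
   [[(1, 0), (2, 0), (8, 0), (8, 1)],
    [(0, 0), (3, 0), (9, 0), (9, 2)],
    [(4, 0), (0, 0), (10, 0), (10, 3)],
    [(5, 0), (1, 0), (11, 0), (11, 4)],
    [(2, 0), (6, 0), (12, 0), (12, 5)],
    [(3, 0), (7, 0), (13, 0), (13, 6)],
    [(7, 0), (4, 0), (14, 0), (14, 7)],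
    [(6, 0), (5, 0), (15, 0), (15, 8)],
    [(9, 9), (16, 0), (0, 10), (0, 0)],
    [(8, 11), (17, 0), (1, 12), (1, 0)],
    [(12, 13), (18, 0), (2, 14), (2, 0)],
    [(13, 15), (19, 0), (3, 16), (3, 0)],
    [(10, 17), (20, 0), (4, 18), (4, 0)],
    [(11, 19), (21, 0), (5, 20), (5, 0)],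
    [(15, 21), (22, 0), (6, 22), (6, 0)],
    [(14, 23), (23, 0), (7, 24), (7, 0)],
    [(23, 25), (8, 0), (18, 26), (18, 27)],
    [(22, 28), (9, 0), (19, 29), (19, 30)],
    [(21, 31), (10, 0), (16, 32), (16, 33)],
    [(20, 34), (11, 0), (17, 35), (17, 36)],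
    [(19, 37), (12, 0), (22, 38), (22, 39)],
    [(18, 40), (13, 0), (23, 41), (23, 42)],
    [(17, 43), (14, 0), (20, 44), (20, 45)],
    [(16, 46), (15, 0), (21, 47), (21, 48)]]⟩

def cubLat34 : List LatE :=
  [⟨⟨⟨1, 1, 0⟩, ⟨0, 1, 1⟩, ⟨0, 0, 2⟩⟩, 2, ⟨⟨0, 0, 0⟩, ⟨0, 0, 0⟩, ⟨0, 0, 0⟩⟩⟩]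

def cubRow35 : Row :=
  ⟨[⟨⟨1, 0, 0⟩, ⟨0, -1, 0⟩, ⟨0, 0, -1⟩⟩, ⟨⟨0, 0, 1⟩, ⟨0, 1, 0⟩, ⟨1, 0, 0⟩⟩], ⟨⟨1, 0, 0⟩, ⟨0, 0, 1⟩, ⟨0, -1, 0⟩⟩, ⟨⟨1, 0, 0⟩, ⟨0, 0, -1⟩, ⟨0, 1, 0⟩⟩, 8,
   [⟨⟨⟨1, 0, 0⟩, ⟨0, 1, 0⟩, ⟨0, 0, 1⟩⟩, ⟨⟨0, 0, 0⟩, ⟨0, 0, 0⟩, ⟨0, 0, 0⟩⟩⟩,
    ⟨⟨⟨1, 0, 0⟩, ⟨0, -1, 0⟩, ⟨0, 0, -1⟩⟩, ⟨⟨0, 0, 0⟩, ⟨0, 0, 0⟩, ⟨0, 0, 0⟩⟩⟩,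
    ⟨⟨⟨0, 0, 1⟩, ⟨0, 1, 0⟩, ⟨1, 0, 0⟩⟩, ⟨⟨0, 0, 0⟩, ⟨0, 0, 0⟩, ⟨0, 0, 0⟩⟩⟩,
    ⟨⟨⟨0, 0, 1⟩, ⟨0, -1, 0⟩, ⟨-1, 0, 0⟩⟩, ⟨⟨0, 0, 0⟩, ⟨0, 0, 0⟩, ⟨0, 0, 0⟩⟩⟩,
    ⟨⟨⟨0, 0, -1⟩, ⟨0, -1, 0⟩, ⟨1, 0, 0⟩⟩, ⟨⟨0, 0, 0⟩, ⟨0, 0, 0⟩, ⟨0, 0, 0⟩⟩⟩,
    ⟨⟨⟨0, 0, -1⟩, ⟨0, 1, 0⟩, ⟨-1, 0, 0⟩⟩, ⟨⟨0, 0, 0⟩, ⟨0, 0, 0⟩, ⟨0, 0, 0⟩⟩⟩,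
    ⟨⟨⟨-1, 0, 0⟩, ⟨0, -1, 0⟩, ⟨0, 0, 1⟩⟩, ⟨⟨0, 0, 0⟩, ⟨0, 0, 0⟩, ⟨0, 0, 0⟩⟩⟩,
    ⟨⟨⟨-1, 0, 0⟩, ⟨0, 1, 0⟩, ⟨0, 0, -1⟩⟩, ⟨⟨0, 0, 0⟩, ⟨0, 0, 0⟩, ⟨0, 0, 0⟩⟩⟩,
    ⟨⟨⟨1, 0, 0⟩, ⟨0, 0, 1⟩, ⟨0, -1, 0⟩⟩, ⟨⟨1, 0, 0⟩, ⟨0, 1, 0⟩, ⟨0, 0, 1⟩⟩⟩,
    ⟨⟨⟨1, 0, 0⟩, ⟨0, 0, -1⟩, ⟨0, 1, 0⟩⟩, ⟨⟨-1, 0, 0⟩, ⟨0, 0, 1⟩, ⟨0, -1, 0⟩⟩⟩,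
    ⟨⟨⟨0, -1, 0⟩, ⟨0, 0, 1⟩, ⟨1, 0, 0⟩⟩, ⟨⟨0, 0, 1⟩, ⟨0, 1, 0⟩, ⟨1, 0, 0⟩⟩⟩,
    ⟨⟨⟨0, 1, 0⟩, ⟨0, 0, -1⟩, ⟨1, 0, 0⟩⟩, ⟨⟨0, -1, 0⟩, ⟨0, 0, 1⟩, ⟨-1, 0, 0⟩⟩⟩,
    ⟨⟨⟨0, -1, 0⟩, ⟨0, 0, -1⟩, ⟨-1, 0, 0⟩⟩, ⟨⟨0, 0, 1⟩, ⟨0, -1, 0⟩, ⟨-1, 0, 0⟩⟩⟩,
    ⟨⟨⟨0, 1, 0⟩, ⟨0, 0, 1⟩, ⟨-1, 0, 0⟩⟩, ⟨⟨0, -1, 0⟩, ⟨0, 0, -1⟩, ⟨1, 0, 0⟩⟩⟩,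
    ⟨⟨⟨-1, 0, 0⟩, ⟨0, 0, -1⟩, ⟨0, -1, 0⟩⟩, ⟨⟨-1, 0, 0⟩, ⟨0, -1, 0⟩, ⟨0, 0, 1⟩⟩⟩,
    ⟨⟨⟨-1, 0, 0⟩, ⟨0, 0, 1⟩, ⟨0, 1, 0⟩⟩, ⟨⟨1, 0, 0⟩, ⟨0, 0, -1⟩, ⟨0, -1, 0⟩⟩⟩,
    ⟨⟨⟨0, 0, 1⟩, ⟨1, 0, 0⟩, ⟨0, -1, 0⟩⟩, ⟨⟨1, 0, 0⟩, ⟨0, 1, 0⟩, ⟨0, 0, 1⟩⟩⟩,
    ⟨⟨⟨0, 0, 1⟩, ⟨-1, 0, 0⟩, ⟨0, 1, 0⟩⟩, ⟨⟨-1, 0, 0⟩, ⟨0, 0, 1⟩, ⟨0, -1, 0⟩⟩⟩,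
    ⟨⟨⟨0, -1, 0⟩, ⟨1, 0, 0⟩, ⟨0, 0, 1⟩⟩, ⟨⟨0, 0, 1⟩, ⟨0, 1, 0⟩, ⟨1, 0, 0⟩⟩⟩,
    ⟨⟨⟨0, 1, 0⟩, ⟨-1, 0, 0⟩, ⟨0, 0, 1⟩⟩, ⟨⟨0, -1, 0⟩, ⟨0, 0, 1⟩, ⟨-1, 0, 0⟩⟩⟩,
    ⟨⟨⟨0, -1, 0⟩, ⟨-1, 0, 0⟩, ⟨0, 0, -1⟩⟩, ⟨⟨0, 0, 1⟩, ⟨0, -1, 0⟩, ⟨-1, 0, 0⟩⟩⟩,
    ⟨⟨⟨0, 1, 0⟩, ⟨1, 0, 0⟩, ⟨0, 0, -1⟩⟩, ⟨⟨0, -1, 0⟩, ⟨0, 0, -1⟩, ⟨1, 0, 0⟩⟩⟩,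
    ⟨⟨⟨0, 0, -1⟩, ⟨-1, 0, 0⟩, ⟨0, -1, 0⟩⟩, ⟨⟨-1, 0, 0⟩, ⟨0, -1, 0⟩, ⟨0, 0, 1⟩⟩⟩,
    ⟨⟨⟨0, 0, -1⟩, ⟨1, 0, 0⟩, ⟨0, 1, 0⟩⟩, ⟨⟨1, 0, 0⟩, ⟨0, 0, -1⟩, ⟨0, -1, 0⟩⟩⟩,
    ⟨⟨⟨0, -1, 0⟩, ⟨1, 0, 0⟩, ⟨0, 0, -1⟩⟩, ⟨⟨1, 0, 1⟩, ⟨1, 1, 0⟩, ⟨0, -1, 1⟩⟩⟩,
    ⟨⟨⟨0, 1, 0⟩, ⟨1, 0, 0⟩, ⟨0, 0, 1⟩⟩, ⟨⟨1, -1, 0⟩, ⟨-1, 1, 0⟩, ⟨0, 0, 0⟩⟩⟩,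
    ⟨⟨⟨0, -1, 0⟩, ⟨-1, 0, 0⟩, ⟨0, 0, 1⟩⟩, ⟨⟨-1, 0, 1⟩, ⟨-1, 0, 1⟩, ⟨0, 0, 0⟩⟩⟩,
    ⟨⟨⟨0, 1, 0⟩, ⟨-1, 0, 0⟩, ⟨0, 0, -1⟩⟩, ⟨⟨-1, -1, 0⟩, ⟨1, 0, 1⟩, ⟨0, -1, 1⟩⟩⟩,
    ⟨⟨⟨0, 0, -1⟩, ⟨1, 0, 0⟩, ⟨0, -1, 0⟩⟩, ⟨⟨0, -1, 1⟩, ⟨1, 1, 0⟩, ⟨1, 0, 1⟩⟩⟩,
    ⟨⟨⟨0, 0, 1⟩, ⟨1, 0, 0⟩, ⟨0, 1, 0⟩⟩, ⟨⟨0, 0, 0⟩, ⟨-1, 1, 0⟩, ⟨1, -1, 0⟩⟩⟩,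
    ⟨⟨⟨0, 0, 1⟩, ⟨-1, 0, 0⟩, ⟨0, -1, 0⟩⟩, ⟨⟨0, 0, 0⟩, ⟨-1, 0, 1⟩, ⟨-1, 0, 1⟩⟩⟩,
    ⟨⟨⟨0, 0, -1⟩, ⟨-1, 0, 0⟩, ⟨0, 1, 0⟩⟩, ⟨⟨0, -1, 1⟩, ⟨1, 0, 1⟩, ⟨-1, -1, 0⟩⟩⟩,
    ⟨⟨⟨0, -1, 0⟩, ⟨0, 0, 1⟩, ⟨-1, 0, 0⟩⟩, ⟨⟨1, 0, 1⟩, ⟨1, 1, 0⟩, ⟨0, -1, 1⟩⟩⟩,
    ⟨⟨⟨0, 1, 0⟩, ⟨0, 0, 1⟩, ⟨1, 0, 0⟩⟩, ⟨⟨1, -1, 0⟩, ⟨-1, 1, 0⟩, ⟨0, 0, 0⟩⟩⟩,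
    ⟨⟨⟨0, -1, 0⟩, ⟨0, 0, -1⟩, ⟨1, 0, 0⟩⟩, ⟨⟨-1, 0, 1⟩, ⟨-1, 0, 1⟩, ⟨0, 0, 0⟩⟩⟩,
    ⟨⟨⟨0, 1, 0⟩, ⟨0, 0, -1⟩, ⟨-1, 0, 0⟩⟩, ⟨⟨-1, -1, 0⟩, ⟨1, 0, 1⟩, ⟨0, -1, 1⟩⟩⟩,
    ⟨⟨⟨-1, 0, 0⟩, ⟨0, 0, 1⟩, ⟨0, -1, 0⟩⟩, ⟨⟨0, -1, 1⟩, ⟨1, 1, 0⟩, ⟨1, 0, 1⟩⟩⟩,
    ⟨⟨⟨1, 0, 0⟩, ⟨0, 0, 1⟩, ⟨0, 1, 0⟩⟩, ⟨⟨0, 0, 0⟩, ⟨-1, 1, 0⟩, ⟨1, -1, 0⟩⟩⟩,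
    ⟨⟨⟨1, 0, 0⟩, ⟨0, 0, -1⟩, ⟨0, -1, 0⟩⟩, ⟨⟨0, 0, 0⟩, ⟨-1, 0, 1⟩, ⟨-1, 0, 1⟩⟩⟩,
    ⟨⟨⟨-1, 0, 0⟩, ⟨0, 0, -1⟩, ⟨0, 1, 0⟩⟩, ⟨⟨0, -1, 1⟩, ⟨1, 0, 1⟩, ⟨-1, -1, 0⟩⟩⟩,
    ⟨⟨⟨0, 0, -1⟩, ⟨0, -1, 0⟩, ⟨-1, 0, 0⟩⟩, ⟨⟨1, -1, 1⟩, ⟨1, 1, 1⟩, ⟨-1, -1, 1⟩⟩⟩,
    ⟨⟨⟨0, 0, 1⟩, ⟨0, 1, 0⟩, ⟨-1, 0, 0⟩⟩, ⟨⟨1, 0, 0⟩, ⟨1, 0, 0⟩, ⟨1, -1, 1⟩⟩⟩,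
    ⟨⟨⟨0, 0, 1⟩, ⟨0, -1, 0⟩, ⟨1, 0, 0⟩⟩, ⟨⟨1, 0, 0⟩, ⟨-1, 1, 1⟩, ⟨1, 0, 0⟩⟩⟩,
    ⟨⟨⟨0, 0, -1⟩, ⟨0, 1, 0⟩, ⟨1, 0, 0⟩⟩, ⟨⟨1, -1, 1⟩, ⟨-1, 0, 0⟩, ⟨-1, 0, 0⟩⟩⟩,
    ⟨⟨⟨-1, 0, 0⟩, ⟨0, -1, 0⟩, ⟨0, 0, -1⟩⟩, ⟨⟨-1, -1, 1⟩, ⟨1, 1, 1⟩, ⟨1, -1, 1⟩⟩⟩,
    ⟨⟨⟨-1, 0, 0⟩, ⟨0, 1, 0⟩, ⟨0, 0, 1⟩⟩, ⟨⟨1, -1, 1⟩, ⟨1, 0, 0⟩, ⟨1, 0, 0⟩⟩⟩,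
    ⟨⟨⟨1, 0, 0⟩, ⟨0, -1, 0⟩, ⟨0, 0, 1⟩⟩, ⟨⟨1, 0, 0⟩, ⟨-1, 1, 1⟩, ⟨1, 0, 0⟩⟩⟩,
    ⟨⟨⟨1, 0, 0⟩, ⟨0, 1, 0⟩, ⟨0, 0, -1⟩⟩, ⟨⟨-1, 0, 0⟩, ⟨-1, 0, 0⟩, ⟨1, -1, 1⟩⟩⟩],
   [(0, 0), (0, 1), (1, 1), (2, 0), (3, 0), (4, 1), (5, 1), (0, 2), (0, 3), (2, 2), (2, 3), (3, 2), (3, 3), (6, 2), (6, 3), (8, 1), (9, 1), (10, 1), (11, 1), (12, 1), (13, 1), (14, 1), (15, 1), (16, 2), (16, 3), (17, 2), (17, 3), (18, 2), (18, 3), (19, 2), (19, 3), (24, 1), (25, 1), (26, 1), (27, 1), (28, 1), (29, 1), (30, 1), (31, 1), (32, 2), (32,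 3), (33, 2), (33, 3), (36, 2), (36, 3), (37, 2), (37, 3)],
   [⟨⟨0, 0, 0⟩, ⟨0, 0, 0⟩, ⟨0, 0, 0⟩⟩,
    ⟨⟨2, 0, 0⟩, ⟨0, -1, -1⟩, ⟨0, 1, -1⟩⟩,
    ⟨⟨-2, 0, 0⟩, ⟨0, -1, -1⟩, ⟨0, 1, -1⟩⟩,
    ⟨⟨0, 1, -1⟩, ⟨0, -1, -1⟩, ⟨2, 0, 0⟩⟩,
    ⟨⟨0, 1, -1⟩, ⟨0, -1, -1⟩, ⟨-2, 0, 0⟩⟩,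
    ⟨⟨0, 1, -1⟩, ⟨0, 1, 1⟩, ⟨-2, 0, 0⟩⟩,
    ⟨⟨0, 1, -1⟩, ⟨0, 1, 1⟩, ⟨2, 0, 0⟩⟩,
    ⟨⟨-2, 0, 0⟩, ⟨0, 1, 1⟩, ⟨0, 1, -1⟩⟩,
    ⟨⟨2, 0, 0⟩, ⟨0, 1, 1⟩, ⟨0, 1, -1⟩⟩,
    ⟨⟨2, 0, 0⟩, ⟨0, 1, -1⟩, ⟨0, 1, 1⟩⟩,
    ⟨⟨2, 0, 0⟩, ⟨0, 1, 1⟩, ⟨0, -1, 1⟩⟩,
    ⟨⟨-2, 0, 0⟩, ⟨0, -1, 1⟩, ⟨0, -1, -1⟩⟩,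
    ⟨⟨-2, 0, 0⟩, ⟨0, 1, 1⟩, ⟨0, -1, 1⟩⟩,
    ⟨⟨0, 1, 1⟩, ⟨0, 1, -1⟩, ⟨2, 0, 0⟩⟩,
    ⟨⟨0, -1, 1⟩, ⟨0, 1, 1⟩, ⟨2, 0, 0⟩⟩,
    ⟨⟨0, -1, -1⟩, ⟨0, -1, 1⟩, ⟨-2, 0, 0⟩⟩,
    ⟨⟨0, -1, 1⟩, ⟨0, 1, 1⟩, ⟨-2, 0, 0⟩⟩,
    ⟨⟨0, 1, 1⟩, ⟨0, -1, 1⟩, ⟨-2, 0, 0⟩⟩,
    ⟨⟨0, -1, 1⟩, ⟨0, -1, -1⟩, ⟨-2, 0, 0⟩⟩,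
    ⟨⟨0, -1, -1⟩, ⟨0, 1, -1⟩, ⟨2, 0, 0⟩⟩,
    ⟨⟨0, -1, 1⟩, ⟨0, -1, -1⟩, ⟨2, 0, 0⟩⟩,
    ⟨⟨-2, 0, 0⟩, ⟨0, -1, 1⟩, ⟨0, 1, 1⟩⟩,
    ⟨⟨-2, 0, 0⟩, ⟨0, -1, -1⟩, ⟨0, -1, 1⟩⟩,
    ⟨⟨2, 0, 0⟩, ⟨0, 1, -1⟩, ⟨0, -1, -1⟩⟩,
    ⟨⟨2, 0, 0⟩, ⟨0, -1, -1⟩, ⟨0, -1, 1⟩⟩,
    ⟨⟨0, 0, 0⟩, ⟨0, 1, 1⟩, ⟨0, 1, 1⟩⟩,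
    ⟨⟨0, 0, 0⟩, ⟨0, 1, 1⟩, ⟨0, -1, -1⟩⟩,
    ⟨⟨0, 1, 1⟩, ⟨0, 1, 1⟩, ⟨0, 0, 0⟩⟩,
    ⟨⟨0, -1, -1⟩, ⟨0, 1, 1⟩, ⟨0, 0, 0⟩⟩,
    ⟨⟨0, 1, 1⟩, ⟨0, -1, -1⟩, ⟨0, 0, 0⟩⟩,
    ⟨⟨0, 0, 0⟩, ⟨-2, -1, -1⟩, ⟨0, 1, -1⟩⟩,
    ⟨⟨0, 0, 0⟩, ⟨2, -1, -1⟩, ⟨0, 1, -1⟩⟩,
    ⟨⟨0, -1, -1⟩, ⟨0, -1, -1⟩, ⟨0, 0, 0⟩⟩,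
    ⟨⟨0, 0, 0⟩, ⟨0, -1, -1⟩, ⟨0, 1, 1⟩⟩,
    ⟨⟨0, 1, -1⟩, ⟨-2, -1, -1⟩, ⟨0, 0, 0⟩⟩,
    ⟨⟨0, 1, -1⟩, ⟨2, -1, -1⟩, ⟨0, 0, 0⟩⟩,
    ⟨⟨0, 0, 0⟩, ⟨0, -1, -1⟩, ⟨0, -1, -1⟩⟩,
    ⟨⟨0, 1, 1⟩, ⟨2, 0, 0⟩, ⟨0, -1, 1⟩⟩,
    ⟨⟨0, -1, 1⟩, ⟨2, 1, 1⟩, ⟨0, 0, 0⟩⟩,
    ⟨⟨0, -1, -1⟩, ⟨-2, 0, 0⟩, ⟨0, 1, -1⟩⟩,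
    ⟨⟨0, -1, 1⟩, ⟨-2, 1, 1⟩, ⟨0, 0, 0⟩⟩,
    ⟨⟨0, 1, 1⟩, ⟨-2, 0, 0⟩, ⟨0, 1, -1⟩⟩,
    ⟨⟨0, -1, -1⟩, ⟨2, 0, 0⟩, ⟨0, -1, 1⟩⟩,
    ⟨⟨0, -1, 1⟩, ⟨2, 0, 0⟩, ⟨0, 1, 1⟩⟩,
    ⟨⟨0, 0, 0⟩, ⟨2, 1, 1⟩, ⟨0, -1, 1⟩⟩,
    ⟨⟨0, 1, -1⟩, ⟨-2, 0, 0⟩, ⟨0, -1, -1⟩⟩,
    ⟨⟨0, 0, 0⟩, ⟨-2, 1, 1⟩, ⟨0, -1, 1⟩⟩,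
    ⟨⟨0, 1, -1⟩, ⟨-2, 0, 0⟩, ⟨0, 1, 1⟩⟩,
    ⟨⟨0, -1, 1⟩, ⟨2, 0, 0⟩, ⟨0, -1, -1⟩⟩,
    ⟨⟨2, 1, 1⟩, ⟨0, 1, -1⟩, ⟨0, 0, 0⟩⟩,
    ⟨⟨2, -1, -1⟩, ⟨0, 1, -1⟩, ⟨0, 0, 0⟩⟩,
    ⟨⟨-2, 1, 1⟩, ⟨0, -1, 1⟩, ⟨0, 0, 0⟩⟩,
    ⟨⟨-2, 0, 0⟩, ⟨0, 0, 0⟩, ⟨2, 0, 0⟩⟩,
    ⟨⟨-2, 0, 0⟩, ⟨0, 0, 0⟩, ⟨-2, 0, 0⟩⟩,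
    ⟨⟨-2, -1, -1⟩, ⟨0, -1, 1⟩, ⟨0, 0, 0⟩⟩,
    ⟨⟨0, 0, 0⟩, ⟨0, 1, -1⟩, ⟨2, 1, 1⟩⟩,
    ⟨⟨0, 0, 0⟩, ⟨0, 1, -1⟩, ⟨2, -1, -1⟩⟩,
    ⟨⟨0, 0, 0⟩, ⟨0, -1, 1⟩, ⟨-2, 1, 1⟩⟩,
    ⟨⟨2, 0, 0⟩, ⟨0, 0, 0⟩, ⟨-2, 0, 0⟩⟩,
    ⟨⟨0, 0, 0⟩, ⟨0, -1, 1⟩, ⟨-2, -1, -1⟩⟩,
    ⟨⟨2, 0, 0⟩, ⟨2, 0, 0⟩, ⟨0, 0, 0⟩⟩,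
    ⟨⟨2, 0, 0⟩, ⟨0, 0, 0⟩, ⟨2, 0, 0⟩⟩,
    ⟨⟨0, 0, 0⟩, ⟨-2, 0, 0⟩, ⟨-2, 0, 0⟩⟩,
    ⟨⟨0, 0, 0⟩, ⟨2, 0, 0⟩, ⟨2, 0, 0⟩⟩,
    ⟨⟨-2, 0, 0⟩, ⟨-2, 0, 0⟩, ⟨0, 0, 0⟩⟩],
   [[(1, 0), (2, 0), (8, 0), (9, 0)],
    [(0, 0), (3, 0), (9, 1), (8, 2)],
    [(4, 0), (0, 0), (10, 0), (11, 0)],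
    [(5, 0), (1, 0), (12, 0), (13, 0)],
    [(2, 0), (6, 0), (11, 3), (10, 4)],
    [(3, 0), (7, 0), (13, 5), (12, 6)],
    [(7, 0), (4, 0), (14, 0), (15, 0)],
    [(6, 0), (5, 0), (15, 7), (14, 8)],
    [(9, 9), (16, 0), (1, 10), (0, 0)],
    [(8, 11), (17, 0), (0, 0), (1, 12)],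
    [(11, 13), (18, 0), (4, 14), (2, 0)],
    [(10, 15), (19, 0), (2, 0), (4, 16)],
    [(13, 17), (20, 0), (5, 18), (3, 0)],
    [(12, 19), (21, 0), (3, 0), (5, 20)],
    [(15, 21), (22, 0), (7, 22), (6, 0)],
    [(14, 23), (23, 0), (6, 0), (7, 24)],
    [(23, 25), (8, 0), (24, 0), (25, 0)],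
    [(22, 26), (9, 0), (26, 0), (27, 0)],
    [(21, 27), (10, 0), (28, 0), (29, 0)],
    [(20, 28), (11, 0), (30, 0), (31, 0)],
    [(19, 29), (12, 0), (31, 30), (30, 31)],
    [(18, 32), (13, 0), (29, 31), (28, 30)],
    [(17, 33), (14, 0), (27, 34), (26, 35)],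
    [(16, 36), (15, 0), (25, 35), (24, 34)],
    [(25, 37), (32, 0), (23, 38), (16, 0)],
    [(24, 39), (33, 0), (16, 0), (23, 40)],
    [(27, 41), (34, 0), (22, 40), (17, 0)],
    [(26, 42), (35, 0), (17, 0), (22, 38)],
    [(29, 43), (36, 0), (21, 44), (18, 0)],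
    [(28, 45), (37, 0), (18, 0), (21, 46)],
    [(31, 47), (38, 0), (20, 46), (19, 0)],
    [(30, 48), (39, 0), (19, 0), (20, 44)],
    [(35, 49), (24, 0), (40, 0), (41, 0)],
    [(34, 50), (25, 0), (42, 0), (43, 0)],
    [(33, 51), (26, 0), (43, 52), (42, 53)],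
    [(32, 54), (27, 0), (41, 53), (40, 52)],
    [(39, 55), (28, 0), (44, 0), (45, 0)],
    [(38, 56), (29, 0), (46, 0), (47, 0)],
    [(37, 57), (30, 0), (47, 58), (46, 53)],
    [(36, 59), (31, 0), (45, 53), (44, 58)],
    [(41, 16), (44, 58), (35, 58), (32, 0)],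
    [(40, 3), (47, 60), (32, 0), (35, 61)],
    [(43, 6), (46, 0), (34, 61), (33, 0)],
    [(42, 18), (45, 62), (33, 0), (34, 58)],
    [(45, 12), (40, 52), (39, 52), (36, 0)],
    [(44, 1), (43, 63), (36, 0), (39, 61)],
    [(47, 8), (42, 0), (38, 61), (37, 0)],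
    [(46, 22), (41, 64), (37, 0), (38, 52)]]⟩

def cubLat35 : List LatE :=
  [⟨⟨⟨1, 0, 0⟩, ⟨0, 1, 0⟩, ⟨0, 0, 1⟩⟩, 1, ⟨⟨0, 0, 0⟩, ⟨0, 0, 0⟩, ⟨0, 0, 0⟩⟩⟩]

def cubRow36 : Row :=
  ⟨[⟨⟨1, 0, 0⟩, ⟨0, -1, 0⟩, ⟨0, 0, 1⟩⟩, ⟨⟨0, 1, 0⟩, ⟨1, 0, 0⟩, ⟨0, 0, -1⟩⟩], ⟨⟨1, 0, 0⟩, ⟨0, 0, 1⟩, ⟨0, 1, 0⟩⟩, ⟨⟨1, 0, 0⟩, ⟨0, 0, 1⟩, ⟨0, 1, 0⟩⟩, 8,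
   [⟨⟨⟨1, 0, 0⟩, ⟨0, 1, 0⟩, ⟨0, 0, 1⟩⟩, ⟨⟨0, 0, 0⟩, ⟨0, 0, 0⟩, ⟨0, 0, 0⟩⟩⟩,
    ⟨⟨⟨1, 0, 0⟩, ⟨0, -1, 0⟩, ⟨0, 0, 1⟩⟩, ⟨⟨0, 0, 0⟩, ⟨0, 0, 0⟩, ⟨0, 0, 0⟩⟩⟩,
    ⟨⟨⟨0, 1, 0⟩, ⟨1, 0, 0⟩, ⟨0, 0, -1⟩⟩, ⟨⟨0, 0, 0⟩, ⟨0, 0, 0⟩, ⟨0, 0, 0⟩⟩⟩,
    ⟨⟨⟨0, 1, 0⟩, ⟨-1, 0, 0⟩, ⟨0, 0, -1⟩⟩, ⟨⟨0, 0, 0⟩, ⟨0, 0, 0⟩, ⟨0, 0, 0⟩⟩⟩,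
    ⟨⟨⟨0, -1, 0⟩, ⟨1, 0, 0⟩, ⟨0, 0, -1⟩⟩, ⟨⟨0, 0, 0⟩, ⟨0, 0, 0⟩, ⟨0, 0, 0⟩⟩⟩,
    ⟨⟨⟨0, -1, 0⟩, ⟨-1, 0, 0⟩, ⟨0, 0, -1⟩⟩, ⟨⟨0, 0, 0⟩, ⟨0, 0, 0⟩, ⟨0, 0, 0⟩⟩⟩,
    ⟨⟨⟨-1, 0, 0⟩, ⟨0, 1, 0⟩, ⟨0, 0, 1⟩⟩, ⟨⟨0, 0, 0⟩, ⟨0, 0, 0⟩, ⟨0, 0, 0⟩⟩⟩,
    ⟨⟨⟨-1, 0, 0⟩, ⟨0, -1, 0⟩, ⟨0, 0, 1⟩⟩, ⟨⟨0, 0, 0⟩, ⟨0, 0, 0⟩, ⟨0, 0, 0⟩⟩⟩,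
    ⟨⟨⟨1, 0, 0⟩, ⟨0, 0, 1⟩, ⟨0, 1, 0⟩⟩, ⟨⟨1, 0, 0⟩, ⟨0, 1, 0⟩, ⟨0, 0, 1⟩⟩⟩,
    ⟨⟨⟨1, 0, 0⟩, ⟨0, 0, -1⟩, ⟨0, 1, 0⟩⟩, ⟨⟨1, 0, 0⟩, ⟨0, -1, 0⟩, ⟨0, 0, 1⟩⟩⟩,
    ⟨⟨⟨0, 0, 1⟩, ⟨1, 0, 0⟩, ⟨0, -1, 0⟩⟩, ⟨⟨0, 1, 0⟩, ⟨1, 0, 0⟩, ⟨0, 0, -1⟩⟩⟩,
    ⟨⟨⟨0, 0, 1⟩, ⟨-1, 0, 0⟩, ⟨0, -1, 0⟩⟩, ⟨⟨0, 1, 0⟩, ⟨-1, 0, 0⟩, ⟨0, 0, -1⟩⟩⟩,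
    ⟨⟨⟨0, 0, -1⟩, ⟨1, 0, 0⟩, ⟨0, -1, 0⟩⟩, ⟨⟨0, -1, 0⟩, ⟨1, 0, 0⟩, ⟨0, 0, -1⟩⟩⟩,
    ⟨⟨⟨0, 0, -1⟩, ⟨-1, 0, 0⟩, ⟨0, -1, 0⟩⟩, ⟨⟨0, -1, 0⟩, ⟨-1, 0, 0⟩, ⟨0, 0, -1⟩⟩⟩,
    ⟨⟨⟨-1, 0, 0⟩, ⟨0, 0, 1⟩, ⟨0, 1, 0⟩⟩, ⟨⟨-1, 0, 0⟩, ⟨0, 1, 0⟩, ⟨0, 0, 1⟩⟩⟩,
    ⟨⟨⟨-1, 0, 0⟩, ⟨0, 0, -1⟩, ⟨0, 1, 0⟩⟩, ⟨⟨-1, 0, 0⟩, ⟨0, -1, 0⟩, ⟨0, 0, 1⟩⟩⟩,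
    ⟨⟨⟨1, 0, 0⟩, ⟨0, 0, 1⟩, ⟨0, -1, 0⟩⟩, ⟨⟨1, 0, 0⟩, ⟨0, 1, 0⟩, ⟨0, 0, 1⟩⟩⟩,
    ⟨⟨⟨0, 1, 0⟩, ⟨0, 0, -1⟩, ⟨1, 0, 0⟩⟩, ⟨⟨1, 0, 0⟩, ⟨0, 1, 0⟩, ⟨0, 0, 1⟩⟩⟩,
    ⟨⟨⟨1, 0, 0⟩, ⟨0, 0, -1⟩, ⟨0, -1, 0⟩⟩, ⟨⟨1, 0, 0⟩, ⟨0, -1, 0⟩, ⟨0, 0, 1⟩⟩⟩,
    ⟨⟨⟨0, 1, 0⟩, ⟨0, 0, 1⟩, ⟨1, 0, 0⟩⟩, ⟨⟨1, 0, 0⟩, ⟨0, -1, 0⟩, ⟨0, 0, 1⟩⟩⟩,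
    ⟨⟨⟨0, 0, 1⟩, ⟨1, 0, 0⟩, ⟨0, 1, 0⟩⟩, ⟨⟨0, 1, 0⟩, ⟨1, 0, 0⟩, ⟨0, 0, -1⟩⟩⟩,
    ⟨⟨⟨0, 0, -1⟩, ⟨0, 1, 0⟩, ⟨-1, 0, 0⟩⟩, ⟨⟨0, 1, 0⟩, ⟨1, 0, 0⟩, ⟨0, 0, -1⟩⟩⟩,
    ⟨⟨⟨0, 0, 1⟩, ⟨-1, 0, 0⟩, ⟨0, 1, 0⟩⟩, ⟨⟨0, 1, 0⟩, ⟨-1, 0, 0⟩, ⟨0, 0, -1⟩⟩⟩,
    ⟨⟨⟨0, 0, -1⟩, ⟨0, -1, 0⟩, ⟨-1, 0, 0⟩⟩, ⟨⟨0, 1, 0⟩, ⟨-1, 0, 0⟩, ⟨0, 0, -1⟩⟩⟩,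
    ⟨⟨⟨0, 0, -1⟩, ⟨1, 0, 0⟩, ⟨0, 1, 0⟩⟩, ⟨⟨0, -1, 0⟩, ⟨1, 0, 0⟩, ⟨0, 0, -1⟩⟩⟩,
    ⟨⟨⟨0, 0, 1⟩, ⟨0, 1, 0⟩, ⟨-1, 0, 0⟩⟩, ⟨⟨0, -1, 0⟩, ⟨1, 0, 0⟩, ⟨0, 0, -1⟩⟩⟩,
    ⟨⟨⟨0, 0, -1⟩, ⟨-1, 0, 0⟩, ⟨0, 1, 0⟩⟩, ⟨⟨0, -1, 0⟩, ⟨-1, 0, 0⟩, ⟨0, 0, -1⟩⟩⟩,
    ⟨⟨⟨0, 0, 1⟩, ⟨0, -1, 0⟩, ⟨-1, 0, 0⟩⟩, ⟨⟨0, -1, 0⟩, ⟨-1, 0, 0⟩, ⟨0, 0, -1⟩⟩⟩,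
    ⟨⟨⟨-1, 0, 0⟩, ⟨0, 0, 1⟩, ⟨0, -1, 0⟩⟩, ⟨⟨-1, 0, 0⟩, ⟨0, 1, 0⟩, ⟨0, 0, 1⟩⟩⟩,
    ⟨⟨⟨0, -1, 0⟩, ⟨0, 0, -1⟩, ⟨1, 0, 0⟩⟩, ⟨⟨-1, 0, 0⟩, ⟨0, 1, 0⟩, ⟨0, 0, 1⟩⟩⟩,
    ⟨⟨⟨-1, 0, 0⟩, ⟨0, 0, -1⟩, ⟨0, -1, 0⟩⟩, ⟨⟨-1, 0, 0⟩, ⟨0, -1, 0⟩, ⟨0, 0, 1⟩⟩⟩,
    ⟨⟨⟨0, -1, 0⟩, ⟨0, 0, 1⟩, ⟨1, 0, 0⟩⟩, ⟨⟨-1, 0, 0⟩, ⟨0, -1, 0⟩, ⟨0, 0, 1⟩⟩⟩,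
    ⟨⟨⟨0, 1, 0⟩, ⟨0, 0, -1⟩, ⟨-1, 0, 0⟩⟩, ⟨⟨1, 0, 0⟩, ⟨0, 1, 0⟩, ⟨0, 0, 1⟩⟩⟩,
    ⟨⟨⟨1, 0, 0⟩, ⟨0, 1, 0⟩, ⟨0, 0, -1⟩⟩, ⟨⟨2, 0, 0⟩, ⟨0, 1, 1⟩, ⟨0, -1, 1⟩⟩⟩,
    ⟨⟨⟨0, 0, 1⟩, ⟨0, -1, 0⟩, ⟨1, 0, 0⟩⟩, ⟨⟨1, 1, 0⟩, ⟨0, 1, -1⟩, ⟨1, 0, 1⟩⟩⟩,
    ⟨⟨⟨0, 1, 0⟩, ⟨0, 0, 1⟩, ⟨-1, 0, 0⟩⟩, ⟨⟨1, 0, 0⟩, ⟨0, -1, 0⟩, ⟨0, 0, 1⟩⟩⟩,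
    ⟨⟨⟨1, 0, 0⟩, ⟨0, -1, 0⟩, ⟨0, 0, -1⟩⟩, ⟨⟨2, 0, 0⟩, ⟨0, -1, -1⟩, ⟨0, -1, 1⟩⟩⟩,
    ⟨⟨⟨0, 0, 1⟩, ⟨0, 1, 0⟩, ⟨1, 0, 0⟩⟩, ⟨⟨1, 1, 0⟩, ⟨0, -1, 1⟩, ⟨1, 0, 1⟩⟩⟩,
    ⟨⟨⟨0, 0, -1⟩, ⟨0, 1, 0⟩, ⟨1, 0, 0⟩⟩, ⟨⟨0, 1, 0⟩, ⟨1, 0, 0⟩, ⟨0, 0, -1⟩⟩⟩,
    ⟨⟨⟨0, 1, 0⟩, ⟨1, 0, 0⟩, ⟨0, 0, 1⟩⟩, ⟨⟨0, 1, 1⟩, ⟨2, 0, 0⟩, ⟨0, 1, -1⟩⟩⟩,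
    ⟨⟨⟨0, -1, 0⟩, ⟨0, 0, 1⟩, ⟨-1, 0, 0⟩⟩, ⟨⟨0, 1, -1⟩, ⟨1, 1, 0⟩, ⟨-1, 0, -1⟩⟩⟩,
    ⟨⟨⟨0, 0, -1⟩, ⟨0, -1, 0⟩, ⟨1, 0, 0⟩⟩, ⟨⟨0, 1, 0⟩, ⟨-1, 0, 0⟩, ⟨0, 0, -1⟩⟩⟩,
    ⟨⟨⟨0, 1, 0⟩, ⟨-1, 0, 0⟩, ⟨0, 0, 1⟩⟩, ⟨⟨0, 1, 1⟩, ⟨-2, 0, 0⟩, ⟨0, 1, -1⟩⟩⟩,
    ⟨⟨⟨0, -1, 0⟩, ⟨0, 0, -1⟩, ⟨-1, 0, 0⟩⟩, ⟨⟨0, 1, -1⟩, ⟨-1, -1, 0⟩, ⟨-1, 0, -1⟩⟩⟩,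
    ⟨⟨⟨0, -1, 0⟩, ⟨1, 0, 0⟩, ⟨0, 0, 1⟩⟩, ⟨⟨0, -1, -1⟩, ⟨2, 0, 0⟩, ⟨0, 1, -1⟩⟩⟩,
    ⟨⟨⟨0, -1, 0⟩, ⟨-1, 0, 0⟩, ⟨0, 0, 1⟩⟩, ⟨⟨0, -1, -1⟩, ⟨-2, 0, 0⟩, ⟨0, 1, -1⟩⟩⟩,
    ⟨⟨⟨-1, 0, 0⟩, ⟨0, 1, 0⟩, ⟨0, 0, -1⟩⟩, ⟨⟨-2, 0, 0⟩, ⟨0, 1, 1⟩, ⟨0, -1, 1⟩⟩⟩,
    ⟨⟨⟨-1, 0, 0⟩, ⟨0, -1, 0⟩, ⟨0, 0, -1⟩⟩, ⟨⟨-2, 0, 0⟩, ⟨0, -1, -1⟩, ⟨0, -1, 1⟩⟩⟩],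
   [(0, 0), (0, 1), (1, 1), (2, 0), (3, 0), (4, 1), (5, 1), (0, 2), (1, 2), (2, 2), (3, 2), (4, 2), (5, 2), (6, 2), (7, 2), (8, 0), (8, 1), (9, 0), (9, 1), (10, 0), (10, 1), (11, 0), (11, 1), (12, 0), (12, 1), (13, 0), (13, 1), (14, 0), (14, 1), (15, 0), (15, 1), (16, 1), (16, 2), (17, 2), (18, 1), (18, 2), (19, 2), (20, 1), (20, 2), (21, 2), (22, 1), (22, 2), (23, 2), (24, 2), (26, 2), (28, 2), (30, 2)],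
   [⟨⟨0, 0, 0⟩, ⟨0, 0, 0⟩, ⟨0, 0, 0⟩⟩,
    ⟨⟨-2, 0, 0⟩, ⟨0, -1, -1⟩, ⟨0, -1, -1⟩⟩,
    ⟨⟨-2, 0, 0⟩, ⟨0, 1, 1⟩, ⟨0, -1, -1⟩⟩,
    ⟨⟨0, -1, -1⟩, ⟨-2, 0, 0⟩, ⟨0, 1, 1⟩⟩,
    ⟨⟨0, -1, -1⟩, ⟨2, 0, 0⟩, ⟨0, 1, 1⟩⟩,
    ⟨⟨0, 1, 1⟩, ⟨-2, 0, 0⟩, ⟨0, 1, 1⟩⟩,
    ⟨⟨0, 1, 1⟩, ⟨2, 0, 0⟩, ⟨0, 1, 1⟩⟩,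
    ⟨⟨2, 0, 0⟩, ⟨0, -1, -1⟩, ⟨0, -1, -1⟩⟩,
    ⟨⟨2, 0, 0⟩, ⟨0, 1, 1⟩, ⟨0, -1, -1⟩⟩,
    ⟨⟨2, 0, 0⟩, ⟨0, 1, 1⟩, ⟨0, 1, 1⟩⟩,
    ⟨⟨2, 0, 0⟩, ⟨0, -1, -1⟩, ⟨0, 1, 1⟩⟩,
    ⟨⟨0, 1, 1⟩, ⟨2, 0, 0⟩, ⟨0, -1, -1⟩⟩,
    ⟨⟨0, 1, 1⟩, ⟨-2, 0, 0⟩, ⟨0, -1, -1⟩⟩,
    ⟨⟨0, -1, -1⟩, ⟨2, 0, 0⟩, ⟨0, -1, -1⟩⟩,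
    ⟨⟨0, -1, -1⟩, ⟨-2, 0, 0⟩, ⟨0, -1, -1⟩⟩,
    ⟨⟨-2, 0, 0⟩, ⟨0, 1, 1⟩, ⟨0, 1, 1⟩⟩,
    ⟨⟨-2, 0, 0⟩, ⟨0, -1, -1⟩, ⟨0, 1, 1⟩⟩,
    ⟨⟨2, 0, 0⟩, ⟨0, 0, 0⟩, ⟨0, 0, 0⟩⟩,
    ⟨⟨0, -1, -1⟩, ⟨0, 1, 1⟩, ⟨-2, 0, 0⟩⟩,
    ⟨⟨0, -1, -1⟩, ⟨0, -1, -1⟩, ⟨-2, 0, 0⟩⟩,
    ⟨⟨0, 0, 0⟩, ⟨2, 0, 0⟩, ⟨0, 0, 0⟩⟩,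
    ⟨⟨0, 1, 1⟩, ⟨0, -1, -1⟩, ⟨2, 0, 0⟩⟩,
    ⟨⟨0, 0, 0⟩, ⟨-2, 0, 0⟩, ⟨0, 0, 0⟩⟩,
    ⟨⟨0, 1, 1⟩, ⟨0, 1, 1⟩, ⟨2, 0, 0⟩⟩,
    ⟨⟨-1, -2, 0⟩, ⟨1, 1, -1⟩, ⟨-1, 0, -2⟩⟩,
    ⟨⟨-1, -1, 1⟩, ⟨1, 2, 0⟩, ⟨-1, 0, -2⟩⟩,
    ⟨⟨-1, -2, 0⟩, ⟨1, 1, -1⟩, ⟨1, 0, -2⟩⟩,
    ⟨⟨-1, -2, 0⟩, ⟨-1, -1, 1⟩, ⟨-1, 0, -2⟩⟩,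
    ⟨⟨-1, -1, 1⟩, ⟨-1, -2, 0⟩, ⟨-1, 0, -2⟩⟩,
    ⟨⟨-1, -2, 0⟩, ⟨-1, -1, 1⟩, ⟨1, 0, -2⟩⟩,
    ⟨⟨-1, -1, 1⟩, ⟨1, 2, 0⟩, ⟨1, 0, 2⟩⟩,
    ⟨⟨-2, 0, 0⟩, ⟨0, 0, 0⟩, ⟨0, 0, 0⟩⟩,
    ⟨⟨-1, -2, 0⟩, ⟨1, 1, -1⟩, ⟨1, 0, 2⟩⟩,
    ⟨⟨-1, -1, 1⟩, ⟨1, 2, 0⟩, ⟨-1, 0, 2⟩⟩,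
    ⟨⟨-1, -1, 1⟩, ⟨-1, -2, 0⟩, ⟨1, 0, 2⟩⟩,
    ⟨⟨-1, -2, 0⟩, ⟨-1, -1, 1⟩, ⟨1, 0, 2⟩⟩,
    ⟨⟨-1, -1, 1⟩, ⟨-1, -2, 0⟩, ⟨-1, 0, 2⟩⟩,
    ⟨⟨1, -1, 1⟩, ⟨1, 2, 0⟩, ⟨1, 0, 2⟩⟩,
    ⟨⟨1, 2, 0⟩, ⟨1, 1, -1⟩, ⟨-1, 0, 2⟩⟩,
    ⟨⟨1, 1, -1⟩, ⟨1, 2, 0⟩, ⟨1, 0, 2⟩⟩,
    ⟨⟨0, 0, 0⟩, ⟨0, 2, 2⟩, ⟨0, 0, 0⟩⟩,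
    ⟨⟨2, -1, -1⟩, ⟨-2, 1, 1⟩, ⟨0, -2, 2⟩⟩,
    ⟨⟨0, 0, 0⟩, ⟨0, 2, -2⟩, ⟨0, 0, 0⟩⟩,
    ⟨⟨1, 2, 0⟩, ⟨1, 1, -1⟩, ⟨1, 0, 2⟩⟩,
    ⟨⟨1, -1, 1⟩, ⟨-1, -2, 0⟩, ⟨1, 0, 2⟩⟩,
    ⟨⟨1, 2, 0⟩, ⟨-1, -1, 1⟩, ⟨-1, 0, 2⟩⟩,
    ⟨⟨1, 1, -1⟩, ⟨-1, -2, 0⟩, ⟨1, 0, 2⟩⟩,
    ⟨⟨0, 0, 0⟩, ⟨0, -2, -2⟩, ⟨0, 0, 0⟩⟩,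
    ⟨⟨2, -1, -1⟩, ⟨2, -1, -1⟩, ⟨0, -2, 2⟩⟩,
    ⟨⟨0, 0, 0⟩, ⟨0, -2, 2⟩, ⟨0, 0, 0⟩⟩,
    ⟨⟨1, 2, 0⟩, ⟨-1, -1, 1⟩, ⟨1, 0, 2⟩⟩,
    ⟨⟨1, 1, -1⟩, ⟨1, 2, 0⟩, ⟨1, 0, -2⟩⟩,
    ⟨⟨1, 2, 0⟩, ⟨1, 1, -1⟩, ⟨-1, 0, -2⟩⟩,
    ⟨⟨0, 2, 2⟩, ⟨0, 0, 0⟩, ⟨0, 0, 0⟩⟩,
    ⟨⟨-2, 1, 1⟩, ⟨2, -1, -1⟩, ⟨0, 2, -2⟩⟩,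
    ⟨⟨-1, 1, -1⟩, ⟨1, 2, 0⟩, ⟨-1, 0, -2⟩⟩,
    ⟨⟨1, 1, -1⟩, ⟨1, 2, 0⟩, ⟨-1, 0, -2⟩⟩,
    ⟨⟨1, 1, -1⟩, ⟨-1, -2, 0⟩, ⟨1, 0, -2⟩⟩,
    ⟨⟨1, 2, 0⟩, ⟨-1, -1, 1⟩, ⟨-1, 0, -2⟩⟩,
    ⟨⟨-2, 1, 1⟩, ⟨-2, 1, 1⟩, ⟨0, 2, -2⟩⟩,
    ⟨⟨-1, 1, -1⟩, ⟨-1, -2, 0⟩, ⟨-1, 0, -2⟩⟩,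
    ⟨⟨1, 1, -1⟩, ⟨-1, -2, 0⟩, ⟨-1, 0, -2⟩⟩,
    ⟨⟨0, -2, -2⟩, ⟨0, 0, 0⟩, ⟨0, 0, 0⟩⟩,
    ⟨⟨2, -1, -1⟩, ⟨2, -1, -1⟩, ⟨0, 2, -2⟩⟩,
    ⟨⟨2, -1, -1⟩, ⟨-2, 1, 1⟩, ⟨0, 2, -2⟩⟩,
    ⟨⟨-2, 1, 1⟩, ⟨-2, 1, 1⟩, ⟨0, -2, 2⟩⟩,
    ⟨⟨-2, 1, 1⟩, ⟨2, -1, -1⟩, ⟨0, -2, 2⟩⟩],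
   [[(1, 0), (2, 0), (8, 0), (8, 1)],
    [(0, 0), (3, 0), (9, 0), (9, 2)],
    [(4, 0), (0, 0), (10, 0), (10, 3)],
    [(5, 0), (1, 0), (11, 0), (11, 4)],
    [(2, 0), (6, 0), (12, 0), (12, 5)],
    [(3, 0), (7, 0), (13, 0), (13, 6)],
    [(7, 0), (4, 0), (14, 0), (14, 7)],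
    [(6, 0), (5, 0), (15, 0), (15, 8)],
    [(16, 0), (17, 0), (0, 9), (0, 0)],
    [(18, 0), (19, 0), (1, 10), (1, 0)],
    [(20, 0), (21, 0), (2, 11), (2, 0)],
    [(22, 0), (23, 0), (3, 12), (3, 0)],
    [(24, 0), (25, 0), (4, 13), (4, 0)],
    [(26, 0), (27, 0), (5, 14), (5, 0)],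
    [(28, 0), (29, 0), (6, 15), (6, 0)],
    [(30, 0), (31, 0), (7, 16), (7, 0)],
    [(8, 0), (32, 0), (33, 0), (33, 16)],
    [(29, 17), (8, 0), (34, 0), (34, 18)],
    [(9, 0), (35, 0), (36, 0), (36, 15)],
    [(31, 17), (9, 0), (37, 0), (37, 19)],
    [(10, 0), (38, 0), (39, 0), (39, 14)],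
    [(23, 20), (10, 0), (40, 0), (40, 21)],
    [(11, 0), (41, 0), (42, 0), (42, 13)],
    [(21, 22), (11, 0), (43, 0), (43, 23)],
    [(12, 0), (37, 24), (44, 0), (44, 12)],
    [(27, 20), (12, 0), (35, 25), (35, 26)],
    [(13, 0), (34, 27), (45, 0), (45, 11)],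
    [(25, 22), (13, 0), (32, 28), (32, 29)],
    [(14, 0), (43, 30), (46, 0), (46, 10)],
    [(17, 31), (14, 0), (41, 32), (41, 33)],
    [(15, 0), (40, 34), (47, 0), (47, 9)],
    [(19, 31), (15, 0), (38, 35), (38, 36)],
    [(43, 37), (16, 0), (27, 38), (27, 39)],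
    [(36, 40), (39, 41), (16, 8), (16, 0)],
    [(37, 42), (26, 43), (17, 21), (17, 0)],
    [(40, 44), (18, 0), (25, 45), (25, 46)],
    [(33, 47), (42, 48), (18, 7), (18, 0)],
    [(34, 49), (24, 50), (19, 23), (19, 0)],
    [(41, 20), (20, 0), (31, 51), (31, 52)],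
    [(44, 53), (33, 54), (20, 6), (20, 0)],
    [(35, 55), (30, 56), (21, 18), (21, 0)],
    [(38, 22), (22, 0), (29, 57), (29, 58)],
    [(45, 53), (36, 59), (22, 5), (22, 0)],
    [(32, 60), (28, 61), (23, 19), (23, 0)],
    [(39, 62), (46, 63), (24, 4), (24, 0)],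
    [(42, 62), (47, 64), (26, 3), (26, 0)],
    [(47, 40), (44, 65), (28, 2), (28, 0)],
    [(46, 47), (45, 66), (30, 1), (30, 0)]]⟩

def cubLat36 : List LatE :=
  [⟨⟨⟨1, 1, 0⟩, ⟨0, 1, 1⟩, ⟨0, 0, 2⟩⟩, 2, ⟨⟨0, 0, 0⟩, ⟨0, 0, 0⟩, ⟨0, 0, 0⟩⟩⟩,
   ⟨⟨⟨1, 1, 1⟩, ⟨0, 2, 0⟩, ⟨0, 0, 2⟩⟩, 2, ⟨⟨0, 0, 0⟩, ⟨0, 0, 0⟩, ⟨0, 0, 0⟩⟩⟩]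

def cubRow37 : Row :=
  ⟨[⟨⟨1, 0, 0⟩, ⟨0, -1, 0⟩, ⟨0, 0, 1⟩⟩, ⟨⟨0, 1, 0⟩, ⟨1, 0, 0⟩, ⟨0, 0, 1⟩⟩], ⟨⟨1, 0, 0⟩, ⟨0, 0, 1⟩, ⟨0, 1, 0⟩⟩, ⟨⟨1, 0, 0⟩, ⟨0, 0, 1⟩, ⟨0, 1, 0⟩⟩, 8,
   [⟨⟨⟨1, 0, 0⟩, ⟨0, 1, 0⟩, ⟨0, 0, 1⟩⟩, ⟨⟨0, 0, 0⟩, ⟨0, 0, 0⟩, ⟨0, 0, 0⟩⟩⟩,
    ⟨⟨⟨1, 0, 0⟩, ⟨0, -1, 0⟩, ⟨0, 0, 1⟩⟩, ⟨⟨0, 0, 0⟩, ⟨0, 0, 0⟩, ⟨0, 0, 0⟩⟩⟩,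
    ⟨⟨⟨0, 1, 0⟩, ⟨1, 0, 0⟩, ⟨0, 0, 1⟩⟩, ⟨⟨0, 0, 0⟩, ⟨0, 0, 0⟩, ⟨0, 0, 0⟩⟩⟩,
    ⟨⟨⟨0, 1, 0⟩, ⟨-1, 0, 0⟩, ⟨0, 0, 1⟩⟩, ⟨⟨0, 0, 0⟩, ⟨0, 0, 0⟩, ⟨0, 0, 0⟩⟩⟩,
    ⟨⟨⟨0, -1, 0⟩, ⟨1, 0, 0⟩, ⟨0, 0, 1⟩⟩, ⟨⟨0, 0, 0⟩, ⟨0, 0, 0⟩, ⟨0, 0, 0⟩⟩⟩,
    ⟨⟨⟨0, -1, 0⟩, ⟨-1, 0, 0⟩, ⟨0, 0, 1⟩⟩, ⟨⟨0, 0, 0⟩, ⟨0, 0, 0⟩, ⟨0, 0, 0⟩⟩⟩,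
    ⟨⟨⟨-1, 0, 0⟩, ⟨0, 1, 0⟩, ⟨0, 0, 1⟩⟩, ⟨⟨0, 0, 0⟩, ⟨0, 0, 0⟩, ⟨0, 0, 0⟩⟩⟩,
    ⟨⟨⟨-1, 0, 0⟩, ⟨0, -1, 0⟩, ⟨0, 0, 1⟩⟩, ⟨⟨0, 0, 0⟩, ⟨0, 0, 0⟩, ⟨0, 0, 0⟩⟩⟩,
    ⟨⟨⟨1, 0, 0⟩, ⟨0, 0, 1⟩, ⟨0, 1, 0⟩⟩, ⟨⟨1, 0, 0⟩, ⟨0, 1, 0⟩, ⟨0, 0, 1⟩⟩⟩,
    ⟨⟨⟨1, 0, 0⟩, ⟨0, 0, -1⟩, ⟨0, 1, 0⟩⟩, ⟨⟨1, 0, 0⟩, ⟨0, -1, 0⟩, ⟨0, 0, 1⟩⟩⟩,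
    ⟨⟨⟨0, 0, 1⟩, ⟨1, 0, 0⟩, ⟨0, 1, 0⟩⟩, ⟨⟨0, 1, 0⟩, ⟨1, 0, 0⟩, ⟨0, 0, 1⟩⟩⟩,
    ⟨⟨⟨0, 0, 1⟩, ⟨-1, 0, 0⟩, ⟨0, 1, 0⟩⟩, ⟨⟨0, 1, 0⟩, ⟨-1, 0, 0⟩, ⟨0, 0, 1⟩⟩⟩,
    ⟨⟨⟨0, 0, -1⟩, ⟨1, 0, 0⟩, ⟨0, 1, 0⟩⟩, ⟨⟨0, -1, 0⟩, ⟨1, 0, 0⟩, ⟨0, 0, 1⟩⟩⟩,
    ⟨⟨⟨0, 0, -1⟩, ⟨-1, 0, 0⟩, ⟨0, 1, 0⟩⟩, ⟨⟨0, -1, 0⟩, ⟨-1, 0, 0⟩, ⟨0, 0, 1⟩⟩⟩,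
    ⟨⟨⟨-1, 0, 0⟩, ⟨0, 0, 1⟩, ⟨0, 1, 0⟩⟩, ⟨⟨-1, 0, 0⟩, ⟨0, 1, 0⟩, ⟨0, 0, 1⟩⟩⟩,
    ⟨⟨⟨-1, 0, 0⟩, ⟨0, 0, -1⟩, ⟨0, 1, 0⟩⟩, ⟨⟨-1, 0, 0⟩, ⟨0, -1, 0⟩, ⟨0, 0, 1⟩⟩⟩,
    ⟨⟨⟨1, 0, 0⟩, ⟨0, 0, 1⟩, ⟨0, -1, 0⟩⟩, ⟨⟨1, 0, 0⟩, ⟨0, 1, 0⟩, ⟨0, 0, 1⟩⟩⟩,
    ⟨⟨⟨0, 1, 0⟩, ⟨0, 0, 1⟩, ⟨1, 0, 0⟩⟩, ⟨⟨1, 0, 0⟩, ⟨0, 1, 0⟩, ⟨0, 0, 1⟩⟩⟩,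
    ⟨⟨⟨1, 0, 0⟩, ⟨0, 0, -1⟩, ⟨0, -1, 0⟩⟩, ⟨⟨1, 0, 0⟩, ⟨0, -1, 0⟩, ⟨0, 0, 1⟩⟩⟩,
    ⟨⟨⟨0, 1, 0⟩, ⟨0, 0, -1⟩, ⟨1, 0, 0⟩⟩, ⟨⟨1, 0, 0⟩, ⟨0, -1, 0⟩, ⟨0, 0, 1⟩⟩⟩,
    ⟨⟨⟨0, 0, 1⟩, ⟨1, 0, 0⟩, ⟨0, -1, 0⟩⟩, ⟨⟨0, 1, 0⟩, ⟨1, 0, 0⟩, ⟨0, 0, 1⟩⟩⟩,
    ⟨⟨⟨0, 0, 1⟩, ⟨0, 1, 0⟩, ⟨1, 0, 0⟩⟩, ⟨⟨0, 1, 0⟩, ⟨1, 0, 0⟩, ⟨0, 0, 1⟩⟩⟩,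
    ⟨⟨⟨0, 0, 1⟩, ⟨-1, 0, 0⟩, ⟨0, -1, 0⟩⟩, ⟨⟨0, 1, 0⟩, ⟨-1, 0, 0⟩, ⟨0, 0, 1⟩⟩⟩,
    ⟨⟨⟨0, 0, 1⟩, ⟨0, -1, 0⟩, ⟨1, 0, 0⟩⟩, ⟨⟨0, 1, 0⟩, ⟨-1, 0, 0⟩, ⟨0, 0, 1⟩⟩⟩,
    ⟨⟨⟨0, 0, -1⟩, ⟨1, 0, 0⟩, ⟨0, -1, 0⟩⟩, ⟨⟨0, -1, 0⟩, ⟨1, 0, 0⟩, ⟨0, 0, 1⟩⟩⟩,
    ⟨⟨⟨0, 0, -1⟩, ⟨0, 1, 0⟩, ⟨1, 0, 0⟩⟩, ⟨⟨0, -1, 0⟩, ⟨1, 0, 0⟩, ⟨0, 0, 1⟩⟩⟩,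
    ⟨⟨⟨0, 0, -1⟩, ⟨-1, 0, 0⟩, ⟨0, -1, 0⟩⟩, ⟨⟨0, -1, 0⟩, ⟨-1, 0, 0⟩, ⟨0, 0, 1⟩⟩⟩,
    ⟨⟨⟨0, 0, -1⟩, ⟨0, -1, 0⟩, ⟨1, 0, 0⟩⟩, ⟨⟨0, -1, 0⟩, ⟨-1, 0, 0⟩, ⟨0, 0, 1⟩⟩⟩,
    ⟨⟨⟨-1, 0, 0⟩, ⟨0, 0, 1⟩, ⟨0, -1, 0⟩⟩, ⟨⟨-1, 0, 0⟩, ⟨0, 1, 0⟩, ⟨0, 0, 1⟩⟩⟩,
    ⟨⟨⟨0, -1, 0⟩, ⟨0, 0, 1⟩, ⟨1, 0, 0⟩⟩, ⟨⟨-1, 0, 0⟩, ⟨0, 1, 0⟩, ⟨0, 0, 1⟩⟩⟩,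
    ⟨⟨⟨-1, 0, 0⟩, ⟨0, 0, -1⟩, ⟨0, -1, 0⟩⟩, ⟨⟨-1, 0, 0⟩, ⟨0, -1, 0⟩, ⟨0, 0, 1⟩⟩⟩,
    ⟨⟨⟨0, -1, 0⟩, ⟨0, 0, -1⟩, ⟨1, 0, 0⟩⟩, ⟨⟨-1, 0, 0⟩, ⟨0, -1, 0⟩, ⟨0, 0, 1⟩⟩⟩,
    ⟨⟨⟨0, 1, 0⟩, ⟨0, 0, 1⟩, ⟨-1, 0, 0⟩⟩, ⟨⟨1, 0, 0⟩, ⟨0, 1, 0⟩, ⟨0, 0, 1⟩⟩⟩,
    ⟨⟨⟨1, 0, 0⟩, ⟨0, 1, 0⟩, ⟨0, 0, -1⟩⟩, ⟨⟨2, 0, 0⟩, ⟨0, 1, 1⟩, ⟨0, -1, 1⟩⟩⟩,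
    ⟨⟨⟨0, 1, 0⟩, ⟨0, 0, -1⟩, ⟨-1, 0, 0⟩⟩, ⟨⟨1, 0, 0⟩, ⟨0, -1, 0⟩, ⟨0, 0, 1⟩⟩⟩,
    ⟨⟨⟨1, 0, 0⟩, ⟨0, -1, 0⟩, ⟨0, 0, -1⟩⟩, ⟨⟨2, 0, 0⟩, ⟨0, -1, -1⟩, ⟨0, -1, 1⟩⟩⟩,
    ⟨⟨⟨0, 0, 1⟩, ⟨0, 1, 0⟩, ⟨-1, 0, 0⟩⟩, ⟨⟨0, 1, 0⟩, ⟨1, 0, 0⟩, ⟨0, 0, 1⟩⟩⟩,
    ⟨⟨⟨0, 1, 0⟩, ⟨1, 0, 0⟩, ⟨0, 0, -1⟩⟩, ⟨⟨0, 1, 1⟩, ⟨2, 0, 0⟩, ⟨0, -1, 1⟩⟩⟩,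
    ⟨⟨⟨0, 0, 1⟩, ⟨0, -1, 0⟩, ⟨-1, 0, 0⟩⟩, ⟨⟨0, 1, 0⟩, ⟨-1, 0, 0⟩, ⟨0, 0, 1⟩⟩⟩,
    ⟨⟨⟨0, 1, 0⟩, ⟨-1, 0, 0⟩, ⟨0, 0, -1⟩⟩, ⟨⟨0, 1, 1⟩, ⟨-2, 0, 0⟩, ⟨0, -1, 1⟩⟩⟩,
    ⟨⟨⟨0, 0, -1⟩, ⟨0, 1, 0⟩, ⟨-1, 0, 0⟩⟩, ⟨⟨0, -1, 0⟩, ⟨1, 0, 0⟩, ⟨0, 0, 1⟩⟩⟩,
    ⟨⟨⟨0, -1, 0⟩, ⟨1, 0, 0⟩, ⟨0, 0, -1⟩⟩, ⟨⟨0, -1, -1⟩, ⟨2, 0, 0⟩, ⟨0, -1, 1⟩⟩⟩,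
    ⟨⟨⟨0, 0, -1⟩, ⟨0, -1, 0⟩, ⟨-1, 0, 0⟩⟩, ⟨⟨0, -1, 0⟩, ⟨-1, 0, 0⟩, ⟨0, 0, 1⟩⟩⟩,
    ⟨⟨⟨0, -1, 0⟩, ⟨-1, 0, 0⟩, ⟨0, 0, -1⟩⟩, ⟨⟨0, -1, -1⟩, ⟨-2, 0, 0⟩, ⟨0, -1, 1⟩⟩⟩,
    ⟨⟨⟨0, -1, 0⟩, ⟨0, 0, 1⟩, ⟨-1, 0, 0⟩⟩, ⟨⟨-1, 0, 0⟩, ⟨0, 1, 0⟩, ⟨0, 0, 1⟩⟩⟩,
    ⟨⟨⟨-1, 0, 0⟩, ⟨0, 1, 0⟩, ⟨0, 0, -1⟩⟩, ⟨⟨-2, 0, 0⟩, ⟨0, 1, 1⟩, ⟨0, -1, 1⟩⟩⟩,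
    ⟨⟨⟨0, -1, 0⟩, ⟨0, 0, -1⟩, ⟨-1, 0, 0⟩⟩, ⟨⟨-1, 0, 0⟩, ⟨0, -1, 0⟩, ⟨0, 0, 1⟩⟩⟩,
    ⟨⟨⟨-1, 0, 0⟩, ⟨0, -1, 0⟩, ⟨0, 0, -1⟩⟩, ⟨⟨-2, 0, 0⟩, ⟨0, -1, -1⟩, ⟨0, -1, 1⟩⟩⟩],
   [(0, 0), (0, 1), (1, 1), (2, 0), (3, 0), (4, 1), (5, 1), (0, 2), (1, 2), (2, 2), (3, 2), (4, 2), (5, 2), (6, 2), (7, 2), (8, 0), (8, 1), (9, 0), (9, 1), (10, 0), (10, 1), (11, 0), (11, 1), (12, 0), (12, 1), (13, 0), (13, 1), (14, 0), (14, 1), (15, 0), (15, 1), (16, 1), (16, 2), (18, 1), (18, 2), (20, 1), (20, 2), (22, 1), (22, 2), (24, 1),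 (24, 2), (26, 1), (26, 2), (28, 1), (28, 2), (30, 1), (30, 2)],
   [⟨⟨0, 0, 0⟩, ⟨0, 0, 0⟩, ⟨0, 0, 0⟩⟩,
    ⟨⟨-2, 0, 0⟩, ⟨0, -1, -1⟩, ⟨0, -1, -1⟩⟩,
    ⟨⟨-2, 0, 0⟩, ⟨0, 1, 1⟩, ⟨0, -1, -1⟩⟩,
    ⟨⟨0, -1, -1⟩, ⟨-2, 0, 0⟩, ⟨0, -1, -1⟩⟩,
    ⟨⟨0, -1, -1⟩, ⟨2, 0, 0⟩, ⟨0, -1, -1⟩⟩,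
    ⟨⟨0, 1, 1⟩, ⟨-2, 0, 0⟩, ⟨0, -1, -1⟩⟩,
    ⟨⟨0, 1, 1⟩, ⟨2, 0, 0⟩, ⟨0, -1, -1⟩⟩,
    ⟨⟨2, 0, 0⟩, ⟨0, -1, -1⟩, ⟨0, -1, -1⟩⟩,
    ⟨⟨2, 0, 0⟩, ⟨0, 1, 1⟩, ⟨0, -1, -1⟩⟩,
    ⟨⟨2, 0, 0⟩, ⟨0, 1, 1⟩, ⟨0, 1, 1⟩⟩,
    ⟨⟨2, 0, 0⟩, ⟨0, -1, -1⟩, ⟨0, 1, 1⟩⟩,
    ⟨⟨0, 1, 1⟩, ⟨2, 0, 0⟩, ⟨0, 1, 1⟩⟩,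
    ⟨⟨0, 1, 1⟩, ⟨-2, 0, 0⟩, ⟨0, 1, 1⟩⟩,
    ⟨⟨0, -1, -1⟩, ⟨2, 0, 0⟩, ⟨0, 1, 1⟩⟩,
    ⟨⟨0, -1, -1⟩, ⟨-2, 0, 0⟩, ⟨0, 1, 1⟩⟩,
    ⟨⟨-2, 0, 0⟩, ⟨0, 1, 1⟩, ⟨0, 1, 1⟩⟩,
    ⟨⟨-2, 0, 0⟩, ⟨0, -1, -1⟩, ⟨0, 1, 1⟩⟩,
    ⟨⟨2, 0, 0⟩, ⟨0, 0, 0⟩, ⟨0, 0, 0⟩⟩,
    ⟨⟨1, 0, 0⟩, ⟨-1, 1, 1⟩, ⟨1, 0, 0⟩⟩,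
    ⟨⟨1, -1, -1⟩, ⟨-1, 0, 0⟩, ⟨-1, 0, 0⟩⟩,
    ⟨⟨1, 0, 0⟩, ⟨1, -1, -1⟩, ⟨1, 0, 0⟩⟩,
    ⟨⟨1, -1, -1⟩, ⟨1, 0, 0⟩, ⟨-1, 0, 0⟩⟩,
    ⟨⟨0, 0, 0⟩, ⟨2, 0, 0⟩, ⟨0, 0, 0⟩⟩,
    ⟨⟨-1, 1, 1⟩, ⟨1, 0, 0⟩, ⟨1, 0, 0⟩⟩,
    ⟨⟨-1, 0, 0⟩, ⟨1, -1, -1⟩, ⟨-1, 0, 0⟩⟩,
    ⟨⟨0, 0, 0⟩, ⟨-2, 0, 0⟩, ⟨0, 0, 0⟩⟩,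
    ⟨⟨-1, 1, 1⟩, ⟨-1, 0, 0⟩, ⟨1, 0, 0⟩⟩,
    ⟨⟨-1, 0, 0⟩, ⟨-1, 1, 1⟩, ⟨-1, 0, 0⟩⟩,
    ⟨⟨1, -1, -1⟩, ⟨1, 0, 0⟩, ⟨1, 0, 0⟩⟩,
    ⟨⟨1, 0, 0⟩, ⟨1, -1, -1⟩, ⟨-1, 0, 0⟩⟩,
    ⟨⟨1, -1, -1⟩, ⟨-1, 0, 0⟩, ⟨1, 0, 0⟩⟩,
    ⟨⟨1, 0, 0⟩, ⟨-1, 1, 1⟩, ⟨-1, 0, 0⟩⟩,
    ⟨⟨-2, 0, 0⟩, ⟨0, 0, 0⟩, ⟨0, 0, 0⟩⟩,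
    ⟨⟨-1, 0, 0⟩, ⟨-1, 1, 1⟩, ⟨1, 0, 0⟩⟩,
    ⟨⟨-1, 1, 1⟩, ⟨-1, 0, 0⟩, ⟨-1, 0, 0⟩⟩,
    ⟨⟨-1, 0, 0⟩, ⟨1, -1, -1⟩, ⟨1, 0, 0⟩⟩,
    ⟨⟨-1, 1, 1⟩, ⟨1, 0, 0⟩, ⟨-1, 0, 0⟩⟩,
    ⟨⟨0, 0, 0⟩, ⟨0, 2, 2⟩, ⟨0, 0, 0⟩⟩,
    ⟨⟨2, -1, -1⟩, ⟨-2, 1, 1⟩, ⟨0, 0, 0⟩⟩,
    ⟨⟨0, 0, 0⟩, ⟨0, -2, -2⟩, ⟨0, 0, 0⟩⟩,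
    ⟨⟨2, -1, -1⟩, ⟨2, -1, -1⟩, ⟨0, 0, 0⟩⟩,
    ⟨⟨0, 2, 2⟩, ⟨0, 0, 0⟩, ⟨0, 0, 0⟩⟩,
    ⟨⟨-2, 1, 1⟩, ⟨2, -1, -1⟩, ⟨0, 0, 0⟩⟩,
    ⟨⟨-2, 1, 1⟩, ⟨-2, 1, 1⟩, ⟨0, 0, 0⟩⟩,
    ⟨⟨0, -2, -2⟩, ⟨0, 0, 0⟩, ⟨0, 0, 0⟩⟩],
   [[(1, 0), (2, 0), (8, 0), (8, 1)],
    [(0, 0), (3, 0), (9, 0), (9, 2)],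
    [(4, 0), (0, 0), (10, 0), (10, 3)],
    [(5, 0), (1, 0), (11, 0), (11, 4)],
    [(2, 0), (6, 0), (12, 0), (12, 5)],
    [(3, 0), (7, 0), (13, 0), (13, 6)],
    [(7, 0), (4, 0), (14, 0), (14, 7)],
    [(6, 0), (5, 0), (15, 0), (15, 8)],
    [(16, 0), (17, 0), (0, 9), (0, 0)],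
    [(18, 0), (19, 0), (1, 10), (1, 0)],
    [(20, 0), (21, 0), (2, 11), (2, 0)],
    [(22, 0), (23, 0), (3, 12), (3, 0)],
    [(24, 0), (25, 0), (4, 13), (4, 0)],
    [(26, 0), (27, 0), (5, 14), (5, 0)],
    [(28, 0), (29, 0), (6, 15), (6, 0)],
    [(30, 0), (31, 0), (7, 16), (7, 0)],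
    [(8, 0), (32, 0), (33, 0), (33, 16)],
    [(29, 17), (8, 0), (21, 18), (21, 19)],
    [(9, 0), (34, 0), (35, 0), (35, 15)],
    [(31, 17), (9, 0), (23, 20), (23, 21)],
    [(10, 0), (36, 0), (37, 0), (37, 14)],
    [(23, 22), (10, 0), (17, 23), (17, 24)],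
    [(11, 0), (38, 0), (39, 0), (39, 13)],
    [(21, 25), (11, 0), (19, 26), (19, 27)],
    [(12, 0), (40, 0), (41, 0), (41, 12)],
    [(27, 22), (12, 0), (29, 28), (29, 29)],
    [(13, 0), (42, 0), (43, 0), (43, 11)],
    [(25, 25), (13, 0), (31, 30), (31, 31)],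
    [(14, 0), (44, 0), (45, 0), (45, 10)],
    [(17, 32), (14, 0), (25, 33), (25, 34)],
    [(15, 0), (46, 0), (47, 0), (47, 9)],
    [(19, 32), (15, 0), (27, 35), (27, 36)],
    [(44, 17), (16, 0), (36, 31), (36, 30)],
    [(35, 37), (37, 38), (16, 8), (16, 0)],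
    [(46, 17), (18, 0), (38, 29), (38, 28)],
    [(33, 39), (39, 40), (18, 7), (18, 0)],
    [(38, 22), (20, 0), (32, 36), (32, 35)],
    [(41, 41), (33, 42), (20, 6), (20, 0)],
    [(36, 25), (22, 0), (34, 34), (34, 33)],
    [(43, 41), (35, 43), (22, 5), (22, 0)],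
    [(42, 22), (24, 0), (44, 21), (44, 20)],
    [(37, 44), (45, 40), (24, 4), (24, 0)],
    [(40, 25), (26, 0), (46, 19), (46, 18)],
    [(39, 44), (47, 38), (26, 3), (26, 0)],
    [(32, 32), (28, 0), (40, 27), (40, 26)],
    [(47, 37), (41, 43), (28, 2), (28, 0)],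
    [(34, 32), (30, 0), (42, 24), (42, 23)],
    [(45, 39), (43, 42), (30, 1), (30, 0)]]⟩

def cubLat37 : List LatE :=
  [⟨⟨⟨1, 0, 0⟩, ⟨0, 1, 0⟩, ⟨0, 0, 1⟩⟩, 1, ⟨⟨0, 0, 0⟩, ⟨0, 0, 0⟩, ⟨0, 0, 0⟩⟩⟩,
   ⟨⟨⟨1, 1, 1⟩, ⟨0, 2, 0⟩, ⟨0, 0, 2⟩⟩, 2, ⟨⟨0, 0, 0⟩, ⟨0, 0, 0⟩, ⟨0, 0, 0⟩⟩⟩,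
   ⟨⟨⟨1, 1, 0⟩, ⟨0, 1, 1⟩, ⟨0, 0, 2⟩⟩, 2, ⟨⟨0, 0, 0⟩, ⟨0, 0, 0⟩, ⟨0, 0, 0⟩⟩⟩]

def cubRow38 : Row :=
  ⟨[⟨⟨1, 0, 0⟩, ⟨0, 0, -1⟩, ⟨0, -1, 0⟩⟩, ⟨⟨0, 1, 0⟩, ⟨1, 0, 0⟩, ⟨0, 0, -1⟩⟩], ⟨⟨1, 0, 0⟩, ⟨0, 1, 0⟩, ⟨0, 0, -1⟩⟩, ⟨⟨1, 0, 0⟩, ⟨0, 1, 0⟩, ⟨0, 0, -1⟩⟩, 12,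
   [⟨⟨⟨1, 0, 0⟩, ⟨0, 1, 0⟩, ⟨0, 0, 1⟩⟩, ⟨⟨0, 0, 0⟩, ⟨0, 0, 0⟩, ⟨0, 0, 0⟩⟩⟩,
    ⟨⟨⟨1, 0, 0⟩, ⟨0, 0, -1⟩, ⟨0, -1, 0⟩⟩, ⟨⟨0, 0, 0⟩, ⟨0, 0, 0⟩, ⟨0, 0, 0⟩⟩⟩,
    ⟨⟨⟨0, 1, 0⟩, ⟨1, 0, 0⟩, ⟨0, 0, -1⟩⟩, ⟨⟨0, 0, 0⟩, ⟨0, 0, 0⟩, ⟨0, 0, 0⟩⟩⟩,
    ⟨⟨⟨0, 1, 0⟩, ⟨0, 0, 1⟩, ⟨-1, 0, 0⟩⟩, ⟨⟨0, 0, 0⟩, ⟨0, 0, 0⟩, ⟨0, 0, 0⟩⟩⟩,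
    ⟨⟨⟨0, 0, -1⟩, ⟨1, 0, 0⟩, ⟨0, 1, 0⟩⟩, ⟨⟨0, 0, 0⟩, ⟨0, 0, 0⟩, ⟨0, 0, 0⟩⟩⟩,
    ⟨⟨⟨0, 0, -1⟩, ⟨0, -1, 0⟩, ⟨-1, 0, 0⟩⟩, ⟨⟨0, 0, 0⟩, ⟨0, 0, 0⟩, ⟨0, 0, 0⟩⟩⟩,
    ⟨⟨⟨0, 0, 1⟩, ⟨0, 1, 0⟩, ⟨1, 0, 0⟩⟩, ⟨⟨0, 0, 0⟩, ⟨0, 0, 0⟩, ⟨0, 0, 0⟩⟩⟩,
    ⟨⟨⟨0, 0, 1⟩, ⟨-1, 0, 0⟩, ⟨0, -1, 0⟩⟩, ⟨⟨0, 0, 0⟩, ⟨0, 0, 0⟩, ⟨0, 0, 0⟩⟩⟩,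
    ⟨⟨⟨0, -1, 0⟩, ⟨0, 0, -1⟩, ⟨1, 0, 0⟩⟩, ⟨⟨0, 0, 0⟩, ⟨0, 0, 0⟩, ⟨0, 0, 0⟩⟩⟩,
    ⟨⟨⟨0, -1, 0⟩, ⟨-1, 0, 0⟩, ⟨0, 0, 1⟩⟩, ⟨⟨0, 0, 0⟩, ⟨0, 0, 0⟩, ⟨0, 0, 0⟩⟩⟩,
    ⟨⟨⟨-1, 0, 0⟩, ⟨0, 0, 1⟩, ⟨0, 1, 0⟩⟩, ⟨⟨0, 0, 0⟩, ⟨0, 0, 0⟩, ⟨0, 0, 0⟩⟩⟩,
    ⟨⟨⟨-1, 0, 0⟩, ⟨0, -1, 0⟩, ⟨0, 0, -1⟩⟩, ⟨⟨0, 0, 0⟩, ⟨0, 0, 0⟩, ⟨0, 0, 0⟩⟩⟩,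
    ⟨⟨⟨1, 0, 0⟩, ⟨0, 1, 0⟩, ⟨0, 0, -1⟩⟩, ⟨⟨1, 0, 0⟩, ⟨0, 1, 0⟩, ⟨0, 0, 1⟩⟩⟩,
    ⟨⟨⟨1, 0, 0⟩, ⟨0, 0, 1⟩, ⟨0, -1, 0⟩⟩, ⟨⟨1, 0, 0⟩, ⟨0, 0, -1⟩, ⟨0, -1, 0⟩⟩⟩,
    ⟨⟨⟨0, 1, 0⟩, ⟨1, 0, 0⟩, ⟨0, 0, 1⟩⟩, ⟨⟨0, 1, 0⟩, ⟨1, 0, 0⟩, ⟨0, 0, -1⟩⟩⟩,
    ⟨⟨⟨0, 1, 0⟩, ⟨0, 0, -1⟩, ⟨-1, 0, 0⟩⟩, ⟨⟨0, 1, 0⟩, ⟨0, 0, 1⟩, ⟨-1, 0, 0⟩⟩⟩,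
    ⟨⟨⟨0, 0, 1⟩, ⟨1, 0, 0⟩, ⟨0, 1, 0⟩⟩, ⟨⟨0, 0, -1⟩, ⟨1, 0, 0⟩, ⟨0, 1, 0⟩⟩⟩,
    ⟨⟨⟨0, 0, 1⟩, ⟨0, -1, 0⟩, ⟨-1, 0, 0⟩⟩, ⟨⟨0, 0, -1⟩, ⟨0, -1, 0⟩, ⟨-1, 0, 0⟩⟩⟩,
    ⟨⟨⟨0, 0, -1⟩, ⟨0, 1, 0⟩, ⟨1, 0, 0⟩⟩, ⟨⟨0, 0, 1⟩, ⟨0, 1, 0⟩, ⟨1, 0, 0⟩⟩⟩,
    ⟨⟨⟨0, 0, -1⟩, ⟨-1, 0, 0⟩, ⟨0, -1, 0⟩⟩, ⟨⟨0, 0, 1⟩, ⟨-1, 0, 0⟩, ⟨0, -1, 0⟩⟩⟩,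
    ⟨⟨⟨0, -1, 0⟩, ⟨0, 0, 1⟩, ⟨1, 0, 0⟩⟩, ⟨⟨0, -1, 0⟩, ⟨0, 0, -1⟩, ⟨1, 0, 0⟩⟩⟩,
    ⟨⟨⟨0, -1, 0⟩, ⟨-1, 0, 0⟩, ⟨0, 0, -1⟩⟩, ⟨⟨0, -1, 0⟩, ⟨-1, 0, 0⟩, ⟨0, 0, 1⟩⟩⟩,
    ⟨⟨⟨-1, 0, 0⟩, ⟨0, 0, -1⟩, ⟨0, 1, 0⟩⟩, ⟨⟨-1, 0, 0⟩, ⟨0, 0, 1⟩, ⟨0, 1, 0⟩⟩⟩,
    ⟨⟨⟨-1, 0, 0⟩, ⟨0, -1, 0⟩, ⟨0, 0, 1⟩⟩, ⟨⟨-1, 0, 0⟩, ⟨0, -1, 0⟩, ⟨0, 0, -1⟩⟩⟩,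
    ⟨⟨⟨1, 0, 0⟩, ⟨0, 0, -1⟩, ⟨0, 1, 0⟩⟩, ⟨⟨1, 0, 0⟩, ⟨0, 1, 0⟩, ⟨0, 0, 1⟩⟩⟩,
    ⟨⟨⟨1, 0, 0⟩, ⟨0, -1, 0⟩, ⟨0, 0, 1⟩⟩, ⟨⟨1, 0, 0⟩, ⟨0, 0, -1⟩, ⟨0, -1, 0⟩⟩⟩,
    ⟨⟨⟨0, 0, -1⟩, ⟨1, 0, 0⟩, ⟨0, -1, 0⟩⟩, ⟨⟨0, 1, 0⟩, ⟨1, 0, 0⟩, ⟨0, 0, -1⟩⟩⟩,
    ⟨⟨⟨0, 0, -1⟩, ⟨0, 1, 0⟩, ⟨-1, 0, 0⟩⟩, ⟨⟨0, 1, 0⟩, ⟨0, 0, 1⟩, ⟨-1, 0, 0⟩⟩⟩,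
    ⟨⟨⟨0, -1, 0⟩, ⟨1, 0, 0⟩, ⟨0, 0, -1⟩⟩, ⟨⟨0, 0, -1⟩, ⟨1, 0, 0⟩, ⟨0, 1, 0⟩⟩⟩,
    ⟨⟨⟨0, -1, 0⟩, ⟨0, 0, 1⟩, ⟨-1, 0, 0⟩⟩, ⟨⟨0, 0, -1⟩, ⟨0, -1, 0⟩, ⟨-1, 0, 0⟩⟩⟩,
    ⟨⟨⟨0, 1, 0⟩, ⟨0, 0, -1⟩, ⟨1, 0, 0⟩⟩, ⟨⟨0, 0, 1⟩, ⟨0, 1, 0⟩, ⟨1, 0, 0⟩⟩⟩,
    ⟨⟨⟨0, 1, 0⟩, ⟨-1, 0, 0⟩, ⟨0, 0, 1⟩⟩, ⟨⟨0, 0, 1⟩, ⟨-1, 0, 0⟩, ⟨0, -1, 0⟩⟩⟩,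
    ⟨⟨⟨0, 0, 1⟩, ⟨0, -1, 0⟩, ⟨1, 0, 0⟩⟩, ⟨⟨0, -1, 0⟩, ⟨0, 0, -1⟩, ⟨1, 0, 0⟩⟩⟩,
    ⟨⟨⟨0, 0, 1⟩, ⟨-1, 0, 0⟩, ⟨0, 1, 0⟩⟩, ⟨⟨0, -1, 0⟩, ⟨-1, 0, 0⟩, ⟨0, 0, 1⟩⟩⟩,
    ⟨⟨⟨-1, 0, 0⟩, ⟨0, 1, 0⟩, ⟨0, 0, -1⟩⟩, ⟨⟨-1, 0, 0⟩, ⟨0, 0, 1⟩, ⟨0, 1, 0⟩⟩⟩,
    ⟨⟨⟨-1, 0, 0⟩, ⟨0, 0, 1⟩, ⟨0, -1, 0⟩⟩, ⟨⟨-1, 0, 0⟩, ⟨0, -1, 0⟩, ⟨0, 0, -1⟩⟩⟩,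
    ⟨⟨⟨0, 1, 0⟩, ⟨0, 0, 1⟩, ⟨1, 0, 0⟩⟩, ⟨⟨1, 0, 0⟩, ⟨0, 1, 0⟩, ⟨0, 0, 1⟩⟩⟩,
    ⟨⟨⟨1, 0, 0⟩, ⟨0, 0, 1⟩, ⟨0, 1, 0⟩⟩, ⟨⟨2, 0, 0⟩, ⟨0, 1, -1⟩, ⟨0, 1, 1⟩⟩⟩,
    ⟨⟨⟨0, 1, 0⟩, ⟨-1, 0, 0⟩, ⟨0, 0, -1⟩⟩, ⟨⟨1, 0, 0⟩, ⟨0, 0, -1⟩, ⟨0, -1, 0⟩⟩⟩,
    ⟨⟨⟨1, 0, 0⟩, ⟨0, -1, 0⟩, ⟨0, 0, -1⟩⟩, ⟨⟨2, 0, 0⟩, ⟨0, -1, -1⟩, ⟨0, -1, 1⟩⟩⟩,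
    ⟨⟨⟨0, 0, 1⟩, ⟨0, 1, 0⟩, ⟨-1, 0, 0⟩⟩, ⟨⟨0, 1, 0⟩, ⟨1, 0, 0⟩, ⟨0, 0, -1⟩⟩⟩,
    ⟨⟨⟨0, 0, 1⟩, ⟨1, 0, 0⟩, ⟨0, -1, 0⟩⟩, ⟨⟨0, 1, -1⟩, ⟨2, 0, 0⟩, ⟨0, -1, -1⟩⟩⟩,
    ⟨⟨⟨-1, 0, 0⟩, ⟨0, 1, 0⟩, ⟨0, 0, 1⟩⟩, ⟨⟨0, 0, -1⟩, ⟨1, 0, 0⟩, ⟨0, 1, 0⟩⟩⟩,
    ⟨⟨⟨0, -1, 0⟩, ⟨1, 0, 0⟩, ⟨0, 0, 1⟩⟩, ⟨⟨0, -1, -1⟩, ⟨2, 0, 0⟩, ⟨0, 1, -1⟩⟩⟩,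
    ⟨⟨⟨-1, 0, 0⟩, ⟨0, 0, -1⟩, ⟨0, -1, 0⟩⟩, ⟨⟨0, 0, -1⟩, ⟨0, -1, 0⟩, ⟨-1, 0, 0⟩⟩⟩,
    ⟨⟨⟨0, -1, 0⟩, ⟨0, 0, -1⟩, ⟨-1, 0, 0⟩⟩, ⟨⟨0, -1, -1⟩, ⟨0, -1, 1⟩, ⟨-2, 0, 0⟩⟩⟩,
    ⟨⟨⟨0, 0, -1⟩, ⟨-1, 0, 0⟩, ⟨0, 1, 0⟩⟩, ⟨⟨0, -1, 0⟩, ⟨0, 0, -1⟩, ⟨1, 0, 0⟩⟩⟩,
    ⟨⟨⟨0, 0, -1⟩, ⟨0, -1, 0⟩, ⟨1, 0, 0⟩⟩, ⟨⟨0, -1, 1⟩, ⟨0, -1, -1⟩, ⟨2, 0, 0⟩⟩⟩],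
   [(0, 0), (0, 1), (1, 1), (2, 0), (3, 0), (4, 1), (5, 1), (6, 0), (7, 0), (8, 1), (9, 1), (0, 2), (1, 2), (2, 2), (3, 2), (4, 2), (5, 2), (6, 2), (7, 2), (8, 2), (9, 2), (10, 2), (11, 2), (12, 0), (13, 0), (14, 0), (15, 0), (16, 0), (17, 0), (18, 0), (19, 0), (20, 0), (21, 0), (22, 0), (23, 0), (24, 1), (24, 2), (25, 1), (25, 2), (26, 1), (26, 2), (28, 1), (28, 2), (29, 1), (29, 2), (32, 1), (32, 2)],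
   [⟨⟨0, 0, 0⟩, ⟨0, 0, 0⟩, ⟨0, 0, 0⟩⟩,
    ⟨⟨-2, 0, 0⟩, ⟨0, -2, 0⟩, ⟨0, 0, 0⟩⟩,
    ⟨⟨-2, 0, 0⟩, ⟨0, 0, 0⟩, ⟨0, 2, 0⟩⟩,
    ⟨⟨0, -2, 0⟩, ⟨-2, 0, 0⟩, ⟨0, 0, 0⟩⟩,
    ⟨⟨0, -2, 0⟩, ⟨0, 0, 0⟩, ⟨2, 0, 0⟩⟩,
    ⟨⟨0, 0, 0⟩, ⟨-2, 0, 0⟩, ⟨0, -2, 0⟩⟩,
    ⟨⟨0, 0, 0⟩, ⟨0, 2, 0⟩, ⟨2, 0, 0⟩⟩,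
    ⟨⟨0, 0, 0⟩, ⟨0, -2, 0⟩, ⟨-2, 0, 0⟩⟩,
    ⟨⟨0, 0, 0⟩, ⟨2, 0, 0⟩, ⟨0, 2, 0⟩⟩,
    ⟨⟨0, 2, 0⟩, ⟨0, 0, 0⟩, ⟨-2, 0, 0⟩⟩,
    ⟨⟨0, 2, 0⟩, ⟨2, 0, 0⟩, ⟨0, 0, 0⟩⟩,
    ⟨⟨2, 0, 0⟩, ⟨0, 0, 0⟩, ⟨0, -2, 0⟩⟩,
    ⟨⟨2, 0, 0⟩, ⟨0, 2, 0⟩, ⟨0, 0, 0⟩⟩,
    ⟨⟨1, -1, 0⟩, ⟨-1, 1, 0⟩, ⟨0, 0, 2⟩⟩,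
    ⟨⟨1, -1, 0⟩, ⟨0, 0, -2⟩, ⟨1, -1, 0⟩⟩,
    ⟨⟨-1, 1, 0⟩, ⟨1, -1, 0⟩, ⟨0, 0, -2⟩⟩,
    ⟨⟨-1, 1, 0⟩, ⟨0, 0, 2⟩, ⟨-1, 1, 0⟩⟩,
    ⟨⟨0, 0, -2⟩, ⟨1, -1, 0⟩, ⟨-1, 1, 0⟩⟩,
    ⟨⟨0, 0, 2⟩, ⟨-1, 1, 0⟩, ⟨1, -1, 0⟩⟩,
    ⟨⟨-2, 0, 0⟩, ⟨0, 0, 0⟩, ⟨0, -2, 0⟩⟩,
    ⟨⟨-2, 0, 0⟩, ⟨0, 2, 0⟩, ⟨0, 0, 0⟩⟩,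
    ⟨⟨0, 0, 0⟩, ⟨-2, 0, 0⟩, ⟨0, 2, 0⟩⟩,
    ⟨⟨0, 0, 1⟩, ⟨-2, 0, 1⟩, ⟨-1, 1, 1⟩⟩,
    ⟨⟨0, 0, -1⟩, ⟨-1, 1, 1⟩, ⟨-2, 0, 1⟩⟩,
    ⟨⟨0, 0, -1⟩, ⟨-1, -1, 1⟩, ⟨0, 0, 1⟩⟩,
    ⟨⟨0, 2, 0⟩, ⟨-2, 0, 0⟩, ⟨0, 0, 0⟩⟩,
    ⟨⟨0, 2, 0⟩, ⟨0, 0, 0⟩, ⟨2, 0, 0⟩⟩,
    ⟨⟨-2, 0, 1⟩, ⟨0, 0, 1⟩, ⟨1, -1, -1⟩⟩,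
    ⟨⟨-1, 1, 1⟩, ⟨0, 0, -1⟩, ⟨2, 0, -1⟩⟩,
    ⟨⟨-1, -1, 1⟩, ⟨0, 0, -1⟩, ⟨0, 0, -1⟩⟩,
    ⟨⟨-2, 0, 1⟩, ⟨-1, 1, 1⟩, ⟨0, 0, -1⟩⟩,
    ⟨⟨-1, 1, 1⟩, ⟨-2, 0, 1⟩, ⟨0, 0, 1⟩⟩,
    ⟨⟨-1, -1, 1⟩, ⟨0, 0, 1⟩, ⟨0, 0, 1⟩⟩,
    ⟨⟨0, 0, 0⟩, ⟨0, 2, 0⟩, ⟨-2, 0, 0⟩⟩,
    ⟨⟨0, 0, 1⟩, ⟨0, 0, 1⟩, ⟨-1, -1, 1⟩⟩,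
    ⟨⟨0, 0, 1⟩, ⟨-1, -1, 1⟩, ⟨0, 0, -1⟩⟩,
    ⟨⟨0, 0, 1⟩, ⟨0, 0, 1⟩, ⟨1, 1, -1⟩⟩,
    ⟨⟨1, 1, -1⟩, ⟨0, 2, 1⟩, ⟨-2, 0, 1⟩⟩,
    ⟨⟨1, 1, -1⟩, ⟨0, 0, 1⟩, ⟨0, 0, 1⟩⟩,
    ⟨⟨1, -1, -1⟩, ⟨0, 0, 1⟩, ⟨-2, 0, 1⟩⟩,
    ⟨⟨0, 0, 0⟩, ⟨0, 2, 0⟩, ⟨0, 2, 0⟩⟩,
    ⟨⟨2, 0, -1⟩, ⟨0, 0, -1⟩, ⟨-1, 1, 1⟩⟩,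
    ⟨⟨2, 0, 0⟩, ⟨0, 0, 0⟩, ⟨0, 2, 0⟩⟩,
    ⟨⟨1, 1, 0⟩, ⟨0, 0, 0⟩, ⟨-1, -1, 0⟩⟩,
    ⟨⟨1, 1, -1⟩, ⟨0, 0, -1⟩, ⟨0, 0, -1⟩⟩,
    ⟨⟨1, -1, -1⟩, ⟨2, 0, -1⟩, ⟨0, 0, -1⟩⟩,
    ⟨⟨0, 0, 0⟩, ⟨0, -2, 0⟩, ⟨0, -2, 0⟩⟩,
    ⟨⟨2, 0, -1⟩, ⟨1, -1, -1⟩, ⟨0, 0, 1⟩⟩,
    ⟨⟨2, 0, 0⟩, ⟨0, -2, 0⟩, ⟨0, 0, 0⟩⟩,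
    ⟨⟨0, 2, 1⟩, ⟨1, 1, -1⟩, ⟨2, 0, -1⟩⟩,
    ⟨⟨0, 0, 1⟩, ⟨1, 1, -1⟩, ⟨0, 0, -1⟩⟩,
    ⟨⟨0, 0, 1⟩, ⟨1, -1, -1⟩, ⟨2, 0, -1⟩⟩,
    ⟨⟨0, 2, 0⟩, ⟨0, 0, 0⟩, ⟨0, -2, 0⟩⟩,
    ⟨⟨0, 0, -1⟩, ⟨2, 0, -1⟩, ⟨1, -1, -1⟩⟩,
    ⟨⟨0, 0, 0⟩, ⟨2, 0, 0⟩, ⟨0, -2, 0⟩⟩,
    ⟨⟨0, 0, 0⟩, ⟨1, 1, 0⟩, ⟨1, 1, 0⟩⟩,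
    ⟨⟨0, 0, -1⟩, ⟨1, 1, -1⟩, ⟨0, 0, 1⟩⟩,
    ⟨⟨0, -2, 0⟩, ⟨0, 0, 0⟩, ⟨0, 2, 0⟩⟩,
    ⟨⟨0, -2, 0⟩, ⟨2, 0, 0⟩, ⟨0, 0, 0⟩⟩,
    ⟨⟨0, 0, 0⟩, ⟨-1, -1, 0⟩, ⟨-1, -1, 0⟩⟩,
    ⟨⟨0, 0, -1⟩, ⟨0, 0, -1⟩, ⟨-1, -1, 1⟩⟩,
    ⟨⟨0, -2, -1⟩, ⟨-1, -1, 1⟩, ⟨-2, 0, 1⟩⟩,
    ⟨⟨0, -2, 0⟩, ⟨0, 0, 0⟩, ⟨-2, 0, 0⟩⟩,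
    ⟨⟨-1, -1, 0⟩, ⟨0, 0, 0⟩, ⟨1, 1, 0⟩⟩,
    ⟨⟨0, 0, -1⟩, ⟨0, 0, -1⟩, ⟨1, 1, -1⟩⟩,
    ⟨⟨-1, -1, 1⟩, ⟨0, -2, -1⟩, ⟨2, 0, -1⟩⟩,
    ⟨⟨0, 0, 0⟩, ⟨0, -2, 0⟩, ⟨2, 0, 0⟩⟩],
   [[(1, 0), (2, 0), (12, 0), (12, 1)],
    [(0, 0), (3, 0), (13, 0), (13, 2)],
    [(4, 0), (0, 0), (14, 0), (14, 3)],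
    [(5, 0), (1, 0), (15, 0), (15, 4)],
    [(2, 0), (6, 0), (16, 0), (16, 5)],
    [(3, 0), (7, 0), (17, 0), (17, 6)],
    [(8, 0), (4, 0), (18, 0), (18, 7)],
    [(9, 0), (5, 0), (19, 0), (19, 8)],
    [(6, 0), (10, 0), (20, 0), (20, 9)],
    [(7, 0), (11, 0), (21, 0), (21, 10)],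
    [(11, 0), (8, 0), (22, 0), (22, 11)],
    [(10, 0), (9, 0), (23, 0), (23, 12)],
    [(24, 0), (14, 13), (0, 12), (0, 0)],
    [(25, 0), (15, 14), (1, 11), (1, 0)],
    [(26, 0), (12, 15), (2, 10), (2, 0)],
    [(27, 0), (13, 16), (3, 9), (3, 0)],
    [(28, 0), (18, 17), (4, 8), (4, 0)],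
    [(29, 0), (19, 17), (5, 7), (5, 0)],
    [(30, 0), (16, 18), (6, 6), (6, 0)],
    [(31, 0), (17, 18), (7, 5), (7, 0)],
    [(32, 0), (22, 14), (8, 4), (8, 0)],
    [(33, 0), (23, 13), (9, 3), (9, 0)],
    [(34, 0), (20, 16), (10, 2), (10, 0)],
    [(35, 0), (21, 15), (11, 1), (11, 0)],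
    [(12, 0), (36, 0), (37, 0), (37, 19)],
    [(13, 0), (38, 0), (39, 0), (39, 20)],
    [(14, 0), (40, 0), (41, 0), (41, 21)],
    [(15, 0), (41, 22), (40, 23), (40, 24)],
    [(16, 0), (42, 0), (43, 0), (43, 25)],
    [(17, 0), (44, 0), (45, 0), (45, 26)],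
    [(18, 0), (37, 27), (36, 28), (36, 29)],
    [(19, 0), (39, 30), (38, 31), (38, 32)],
    [(20, 0), (46, 0), (47, 0), (47, 33)],
    [(21, 0), (47, 23), (46, 22), (46, 34)],
    [(22, 0), (43, 31), (42, 30), (42, 35)],
    [(23, 0), (45, 28), (44, 27), (44, 36)],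
    [(47, 37), (24, 0), (30, 38), (30, 39)],
    [(39, 40), (30, 41), (24, 42), (24, 0)],
    [(46, 43), (25, 0), (31, 44), (31, 45)],
    [(37, 46), (31, 47), (25, 48), (25, 0)],
    [(45, 49), (26, 0), (27, 50), (27, 51)],
    [(43, 52), (27, 53), (26, 54), (26, 0)],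
    [(44, 55), (28, 0), (34, 56), (34, 47)],
    [(41, 57), (34, 45), (28, 58), (28, 0)],
    [(42, 59), (29, 0), (35, 60), (35, 41)],
    [(40, 61), (35, 39), (29, 62), (29, 0)],
    [(38, 63), (32, 0), (33, 64), (33, 53)],
    [(36, 65), (33, 51), (32, 66), (32, 0)]]⟩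

def cubLat38 : List LatE :=
  [⟨⟨⟨1, 1, 0⟩, ⟨0, 1, 1⟩, ⟨0, 0, 2⟩⟩, 2, ⟨⟨0, 0, 0⟩, ⟨0, 0, 0⟩, ⟨0, 0, 0⟩⟩⟩]

/-- The rows of the cubic blocks, with a lattice for each family. -/
def cubRows : List (Row × List LatE) :=
  [(cubRow0, cubLat0),
   (cubRow1, cubLat1),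
   (cubRow2, cubLat2),
   (cubRow3, cubLat3),
   (cubRow4, cubLat4),
   (cubRow5, cubLat5),
   (cubRow6, cubLat6),
   (cubRow7, cubLat7),
   (cubRow8, cubLat8),
   (cubRow9, cubLat9),
   (cubRow10, cubLat10),
   (cubRow11, cubLat11),
   (cubRow12, cubLat12),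
   (cubRow13, cubLat13),
   (cubRow14, cubLat14),
   (cubRow15, cubLat15),
   (cubRow16, cubLat16),
   (cubRow17, cubLat17),
   (cubRow18, cubLat18),
   (cubRow19, cubLat19),
   (cubRow20, cubLat20),
   (cubRow21, cubLat21),
   (cubRow22, cubLat22),
   (cubRow23, cubLat23),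
   (cubRow24, cubLat24),
   (cubRow25, cubLat25),
   (cubRow26, cubLat26),
   (cubRow27, cubLat27),
   (cubRow28, cubLat28),
   (cubRow29, cubLat29),
   (cubRow30, cubLat30),
   (cubRow31, cubLat31),
   (cubRow32, cubLat32),
   (cubRow33, cubLat33),
   (cubRow34, cubLat34),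
   (cubRow35, cubLat35),
   (cubRow36, cubLat36),
   (cubRow37, cubLat37),
   (cubRow38, cubLat38)]

end Pool.Agent.H21.FT
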