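import Pool.Agent.H21.FT.ListSplit
import Pool.Agent.H21.FT.C1KerBase
import Pool.Agent.H21.FT.C1DataCub
import Pool.Agent.H21.FT.RowsCub

/-!
# Kernel checks of the certificates for the rigid cubic rows
-/

namespace Pool.Agent.H21.FT

set_option maxRecDepth 100000 in
theorem c1_cub_chk1_p0 : (((cubC1.take 10).drop 0).take 2).all
    (c1Chk .cub (cubBlocks.zip cubRows)) = true := by
  decide +kernel

set_option maxRecDepth 100000 in
theorem c1_cub_chk1_p1 : (((cubC1.take 10).drop 2).take 2).all
    (c1Chk .cub (cubBlocks.zip cubRows)) = true := by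
  decide +kernel

set_option maxRecDepth 100000 in
theorem c1_cub_chk1_p2 : (((cubC1.take 10).drop 4).take 2).all
    (c1Chk .cub (cubBlocks.zip cubRows)) = true := by
  decide +kernel

set_option maxRecDepth 100000 in
theorem c1_cub_chk1_p3 : (((cubC1.take 10).drop 6).take 2).all
    (c1Chk .cub (cubBlocks.zip cubRows)) = true := by
  decide +kernel

set_option maxRecDepth 100000 in
theorem c1_cub_chk1_p4 : ((cubC1.take 10).drop 8).all
    (c1Chk .cub (cubBlocks.zip cubRows)) = true := by
  decide +kernel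

theorem c1_cub_chk1 : (cubC1.take 10).all
    (c1Chk .cub (cubBlocks.zip cubRows)) = true := by
  change ((cubC1.take 10).drop 0).all _ = true
  refine all_step 0 2 c1_cub_chk1_p0 ?_
  refine all_step 2 2 c1_cub_chk1_p1 ?_
  refine all_step 4 2 c1_cub_chk1_p2 ?_
  refine all_step 6 2 c1_cub_chk1_p3 ?_
  exact c1_cub_chk1_p4

set_option maxRecDepth 100000 in
theorem c1_cub_chk2_p0 : ((((cubC1.drop 10).take 8).drop 0).take 2).all
    (c1Chk .cub (cubBlocks.zip cubRows)) = true := by
  decide +kernel

set_option maxRecDepth 100000 in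
theorem c1_cub_chk2_p1 : ((((cubC1.drop 10).take 8).drop 2).take 2).all
    (c1Chk .cub (cubBlocks.zip cubRows)) = true := by
  decide +kernel

set_option maxRecDepth 100000 in
theorem c1_cub_chk2_p2 : ((((cubC1.drop 10).take 8).drop 4).take 2).all
    (c1Chk .cub (cubBlocks.zip cubRows)) = true := by
  decide +kernel

set_option maxRecDepth 100000 in
theorem c1_cub_chk2_p3 : (((cubC1.drop 10).take 8).drop 6).all
    (c1Chk .cub (cubBlocks.zip cubRows)) = true := by
  decide +kernel

theorem c1_cub_chk2 : ((cubC1.drop 10).take 8).all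
    (c1Chk .cub (cubBlocks.zip cubRows)) = true := by
  change (((cubC1.drop 10).take 8).drop 0).all _ = true
  refine all_step 0 2 c1_cub_chk2_p0 ?_
  refine all_step 2 2 c1_cub_chk2_p1 ?_
  refine all_step 4 2 c1_cub_chk2_p2 ?_
  exact c1_cub_chk2_p3

set_option maxRecDepth 100000 in
theorem c1_cub_chk3_p0 : ((((cubC1.drop 18).take 8).drop 0).take 3).all
    (c1Chk .cub (cubBlocks.zip cubRows)) = true := by
  decide +kernel

set_option maxRecDepth 100000 in
theorem c1_cub_chk3_p1 : ((((cubC1.drop 18).take 8).drop 3).take 3).all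
    (c1Chk .cub (cubBlocks.zip cubRows)) = true := by
  decide +kernel

set_option maxRecDepth 100000 in
theorem c1_cub_chk3_p2 : (((cubC1.drop 18).take 8).drop 6).all
    (c1Chk .cub (cubBlocks.zip cubRows)) = true := by
  decide +kernel

theorem c1_cub_chk3 : ((cubC1.drop 18).take 8).all
    (c1Chk .cub (cubBlocks.zip cubRows)) = true := by
  change (((cubC1.drop 18).take 8).drop 0).all _ = true
  refine all_step 0 3 c1_cub_chk3_p0 ?_
  refine all_step 3 3 c1_cub_chk3_p1 ?_
  exact c1_cub_chk3_p2

set_option maxRecDepth 100000 in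
theorem c1_cub_chk4_p0 : (((cubC1.drop 26).drop 0).take 2).all
    (c1Chk .cub (cubBlocks.zip cubRows)) = true := by
  decide +kernel

set_option maxRecDepth 100000 in
theorem c1_cub_chk4_p1 : (((cubC1.drop 26).drop 2).take 2).all
    (c1Chk .cub (cubBlocks.zip cubRows)) = true := by
  decide +kernel

set_option maxRecDepth 100000 in
theorem c1_cub_chk4_p2 : (((cubC1.drop 26).drop 4).take 2).all
    (c1Chk .cub (cubBlocks.zip cubRows)) = true := by
  decide +kernel

set_option maxRecDepth 100000 in
theorem c1_cub_chk4_p3 : (((cubC1.drop 26).drop 6).take 2).all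
    (c1Chk .cub (cubBlocks.zip cubRows)) = true := by
  decide +kernel

set_option maxRecDepth 100000 in
theorem c1_cub_chk4_p4 : ((cubC1.drop 26).drop 8).all
    (c1Chk .cub (cubBlocks.zip cubRows)) = true := by
  decide +kernel

theorem c1_cub_chk4 : (cubC1.drop 26).all
    (c1Chk .cub (cubBlocks.zip cubRows)) = true := by
  change ((cubC1.drop 26).drop 0).all _ = true
  refine all_step 0 2 c1_cub_chk4_p0 ?_
  refine all_step 2 2 c1_cub_chk4_p1 ?_
  refine all_step 4 2 c1_cub_chk4_p2 ?_
  refine all_step 6 2 c1_cub_chk4_p3 ?_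
  exact c1_cub_chk4_p4

theorem c1_cub_ok : ∀ c ∈ cubC1, ∃ x, (cubBlocks.zip cubRows)[c.1]? = some x ∧
    c.2.ok .cub x.2.1 x.1.fams x.2.2 = true := by
  intro c hc
  have e : cubC1 = cubC1.take 10 ++ ((cubC1.drop 10).take 8 ++
      ((cubC1.drop 18).take 8 ++ cubC1.drop 26)) := rfl
  rw [e] at hc
  simp only [List.mem_append] at hc
  rcases hc with h | h | h | h
  · exact exists_of_c1Chk (List.all_eq_true.1 c1_cub_chk1 c h)
  · exact exists_of_c1Chk (List.all_eq_true.1 c1_cub_chk2 c h)
  · exact exists_of_c1Chk (List.all_eq_true.1 c1_cub_chk3 c h)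
  · exact exists_of_c1Chk (List.all_eq_true.1 c1_cub_chk4 c h)

end Pool.Agent.H21.FT
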