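import Pool.Agent.H21.FT.Row

/-!
# The group generated by a row
-/

namespace Pool.Agent.H21.FT

open Matrix

/-! ### Integer matrices and real matrices -/

theorem rf_mul_mat (M N : IM) : (M.mul N).mat = M.mat * N.mat := by
  obtain ⟨⟨a, b, c⟩, ⟨d, e, f⟩, ⟨g, h, i⟩⟩ := M
  obtain ⟨⟨a', b', c'⟩, ⟨d', e', f'⟩, ⟨g', h', i'⟩⟩ := N
  ext i j
  fin_cases i <;> fin_cases j <;>
    simp [IM.mul, IM.mat, IM.vm, IV.add, IV.smul, Matrix.mul_apply, Fin.sum_univ_three]

theorem rf_add_mat (M N : IM) : (M.add N).mat = M.mat + N.mat := by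
  ext i j
  fin_cases i <;> fin_cases j <;> simp [IM.add, IM.mat, IV.add]

theorem rf_neg_mat (M : IM) : M.neg.mat = -M.mat := by
  ext i j
  fin_cases i <;> fin_cases j <;> simp [IM.neg, IM.mat, IV.neg]

theorem rf_one_mat : IM.one.mat = 1 := by
  ext i j
  fin_cases i <;> fin_cases j <;> simp [IM.one, IM.mat]

theorem rf_zero_mat : IM.zero.mat = 0 := by
  ext i j
  fin_cases i <;> fin_cases j <;> simp [IM.zero, IM.mat]

theorem rf_mat_inj {M N : IM} (h : M.mat = N.mat) : M = N := by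
  obtain ⟨⟨a, b, c⟩, ⟨d, e, f⟩, ⟨g, h, i⟩⟩ := M
  obtain ⟨⟨a', b', c'⟩, ⟨d', e', f'⟩, ⟨g', h', i'⟩⟩ := N
  have e00 := congrFun (congrFun h 0) 0
  have e01 := congrFun (congrFun h 0) 1
  have e02 := congrFun (congrFun h 0) 2
  have e10 := congrFun (congrFun h 1) 0
  have e11 := congrFun (congrFun h 1) 1
  have e12 := congrFun (congrFun h 1) 2
  have e20 := congrFun (congrFun h 2) 0
  have e21 := congrFun (congrFun h 2) 1
  have e22 := congrFun (congrFun h 2) 2
  simp [IM.mat] at e00 e01 e02 e10 e11 e12 e20 e21 e22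
  subst e00 e01 e02 e10 e11 e12 e20 e21 e22
  rfl

theorem rf_mul_assoc (M N P : IM) : (M.mul N).mul P = M.mul (N.mul P) := by
  apply rf_mat_inj
  simp only [rf_mul_mat, Matrix.mul_assoc]

/-! ### Affine maps -/

theorem rf_unique {g : Equiv.Perm V3} {M M' : M3} {a a' : V3} (h : IsAff g M a)
    (h' : IsAff g M' a') : M = M' ∧ a = a' := by
  have ha : a = a' := by
    have h0 := h 0
    have h0' := h' 0
    rw [h0, mulVec_zero, mulVec_zero, zero_add, zero_add] at h0'
    exact h0'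
  refine ⟨?_, ha⟩
  apply Matrix.ext_of_mulVec_single
  intro i
  have h1 := h (Pi.single i 1)
  have h1' := h' (Pi.single i 1)
  rw [h1, ha] at h1'
  exact add_right_cancel h1'

theorem rf_ext {g g' : Equiv.Perm V3} {M : M3} {a : V3} (h : IsAff g M a)
    (h' : IsAff g' M a) : g = g' := by
  apply Equiv.ext
  intro x
  rw [h x, h' x]

theorem rf_one : IsAff 1 1 0 := fun x => by simp

theorem rf_mul {g h : Equiv.Perm V3} {M N : M3} {a b : V3} (hg : IsAff g M a)
    (hh : IsAff h N b) : IsAff (g * h) (M * N) (M *ᵥ b + a) := by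
  intro x
  rw [Equiv.Perm.mul_apply, hg, hh, mulVec_add, mulVec_mulVec, add_assoc]

theorem rf_inv {g : Equiv.Perm V3} {M N : M3} {a : V3} (hg : IsAff g M a) (hM : N * M = 1) :
    IsAff g⁻¹ N (-(N *ᵥ a)) := by
  intro x
  rw [Equiv.Perm.inv_eq_iff_eq, hg, mulVec_add, mulVec_mulVec, mulVec_neg, mulVec_mulVec,
    mul_eq_one_comm.mp hM, one_mulVec, one_mulVec, neg_add_cancel_right]

/-- An invertible matrix defines a permutation. -/
def rfPerm (M N : M3) (h : N * M = 1) : Equiv.Perm V3 where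
  toFun x := M *ᵥ x
  invFun x := N *ᵥ x
  left_inv x := by
    change N *ᵥ (M *ᵥ x) = x
    rw [mulVec_mulVec, h, one_mulVec]
  right_inv x := by
    change M *ᵥ (N *ᵥ x) = x
    rw [mulVec_mulVec, mul_eq_one_comm.mp h, one_mulVec]

theorem rf_perm (M N : M3) (h : N * M = 1) : IsAff (rfPerm M N h) M 0 := by
  intro x
  rw [add_zero]
  rfl

/-- composition of the maps given by two formal elements -/
theorem rf_comp {g h : Equiv.Perm V3} {p q : FA} {w y : V3}
    (hg : IsAff g p.M.mat (p.X.mat *ᵥ w + y)) (hh : IsAff h q.M.mat (q.X.mat *ᵥ w)) :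
    IsAff (g * h) (p.mul q).M.mat ((p.mul q).X.mat *ᵥ w + y) := by
  have h1 := rf_mul hg hh
  have e1 : (p.mul q).M.mat = p.M.mat * q.M.mat := rf_mul_mat _ _
  have e2 : (p.mul q).X.mat = p.X.mat + p.M.mat * q.X.mat := by
    change (p.X.add (p.M.mul q.X)).mat = _
    rw [rf_add_mat, rf_mul_mat]
  rw [e1, e2]
  convert h1 using 1
  rw [add_mulVec, ← mulVec_mulVec]
  abel

/-! ### The checks -/

/-- The checks in a readable form. -/
structure Row.OK (r : Row) : Prop where
  hn_pos : 0 < r.hn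
  hn_le : r.hn ≤ r.reps.length
  S_Si : r.S.mul r.Si = IM.one
  Si_S : r.Si.mul r.S = IM.one
  head : r.reps.getD 0 FA.one = FA.one
  tree_ok : ∀ k, k + 1 < r.reps.length → ∃ i j, i ≤ k ∧ j < r.G.length ∧
    r.reps.getD (k + 1) FA.one = (r.reps.getD i FA.one).mul (r.G.getD j FA.one) ∧
    (k + 1 < r.hn → j < r.gens.length)
  lin : ∀ k < r.hn, (r.reps.getD k FA.one).X = IM.zero
  nx_ok : ∀ k < r.reps.length, ∀ j < r.G.length, ∃ i m, i < r.reps.length ∧ m < r.sch.length ∧
    ((r.reps.getD k FA.one).mul (r.G.getD j FA.one)).M = (r.reps.getD i FA.one).M ∧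
    ((r.reps.getD k FA.one).mul (r.G.getD j FA.one)).X =
      (r.reps.getD i FA.one).X.add (r.sch.getD m IM.zero) ∧
    (k < r.hn → j < r.gens.length → i < r.hn)
  app : ∀ m < r.sch.length, ∃ k < r.reps.length, ∃ j < r.G.length, ∃ i < r.reps.length,
    ((r.reps.getD k FA.one).mul (r.G.getD j FA.one)).M = (r.reps.getD i FA.one).M ∧
    ((r.reps.getD k FA.one).mul (r.G.getD j FA.one)).X =
      (r.reps.getD i FA.one).X.add (r.sch.getD m IM.zero)
  ne_one : ∀ k, 0 < k → k < r.reps.length → (r.reps.getD k FA.one).M ≠ IM.one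
  ne_h : ∀ k < r.hn, ∀ i, r.hn ≤ i → i < r.reps.length →
    (r.reps.getD k FA.one).M ≠ (r.reps.getD i FA.one).M
  inv : ∀ M ∈ r.gens, ∃ k < r.hn, (r.reps.getD k FA.one).M.mul M = IM.one

theorem rf_getD {α : Type*} (l : List α) (d : α) {k : ℕ} (h : k < l.length) :
    l.getD k d = l[k] := by
  simp [List.getD, h]

theorem rf_getD_mem {α : Type*} (l : List α) (d : α) {k : ℕ} (h : k < l.length) :
    l.getD k d ∈ l := by
  rw [rf_getD l d h]
  exact List.getElem_mem h

theorem rf_exists_getD {α : Type*} (l : List α) (d : α) {x : α} (h : x ∈ l) :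
    ∃ k < l.length, l.getD k d = x := by
  obtain ⟨k, hk, rfl⟩ := List.mem_iff_getElem.1 h
  exact ⟨k, hk, rf_getD l d hk⟩

theorem rf_mem_zip {α β : Type*} (l : List α) (l' : List β) (d : α) (d' : β) {k : ℕ}
    (h : k < l.length) (h' : k < l'.length) : (l.getD k d, l'.getD k d') ∈ l.zip l' := by
  rw [rf_getD l d h, rf_getD l' d' h', List.mem_iff_getElem]
  refine ⟨k, by simp; omega, ?_⟩
  simp

theorem rf_mem_take {α : Type*} (l : List α) (d : α) {k n : ℕ} (hk : k < n) (h : k < l.length) :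
    l.getD k d ∈ l.take n := by
  rw [rf_getD l d h, List.mem_iff_getElem]
  exact ⟨k, by simp; omega, by simp⟩

theorem rf_mem_drop {α : Type*} (l : List α) (d : α) {k n : ℕ} (hk : n ≤ k) (h : k < l.length) :
    l.getD k d ∈ l.drop n := by
  rw [rf_getD l d h, List.mem_iff_getElem]
  refine ⟨k - n, by simp; omega, ?_⟩
  simp only [List.getElem_drop]
  congr 1
  omega

theorem rf_of_mem_take {α : Type*} (l : List α) (d : α) {n : ℕ} {x : α} (h : x ∈ l.take n) :
    ∃ k < n, k < l.length ∧ l.getD k d = x := by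
  obtain ⟨k, hk, rfl⟩ := List.mem_iff_getElem.1 h
  rw [List.length_take] at hk
  refine ⟨k, by omega, by omega, ?_⟩
  rw [rf_getD l d (by omega)]
  simp

theorem rf_of_mem_drop {α : Type*} (l : List α) (d : α) {n : ℕ} {x : α} (h : x ∈ l.drop n) :
    ∃ k, n ≤ k ∧ k < l.length ∧ l.getD k d = x := by
  obtain ⟨k, hk, rfl⟩ := List.mem_iff_getElem.1 h
  rw [List.length_drop] at hk
  refine ⟨n + k, by omega, by omega, ?_⟩
  rw [rf_getD l d (by omega)]
  simp

theorem Row.ok_OK {r : Row} (hok : r.ok = true) : r.OK := by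
  simp only [Row.ok, Bool.and_eq_true, decide_eq_true_eq, List.all_eq_true,
    List.any_eq_true] at hok
  obtain ⟨⟨⟨⟨⟨⟨⟨⟨⟨⟨⟨⟨⟨⟨⟨⟨h1, h2⟩, h3⟩, h4⟩, h5⟩, h6⟩, h7⟩, h8⟩, h9⟩, h10⟩, h11⟩, h12⟩, h13⟩, h14⟩,
    h15⟩, h16⟩, h17⟩ := hok
  have hnx : ∀ k < r.reps.length, ∀ j < r.G.length,
      (r.nx.getD k []).length = r.G.length ∧
      ((r.nx.getD k []).getD j (0, 0)).1 < r.reps.length ∧
      ((r.nx.getD k []).getD j (0, 0)).2 < r.sch.length ∧
      ((r.reps.getD k FA.one).mul (r.G.getD j FA.one)).M =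
        (r.reps.getD ((r.nx.getD k []).getD j (0, 0)).1 FA.one).M ∧
      ((r.reps.getD k FA.one).mul (r.G.getD j FA.one)).X =
        (r.reps.getD ((r.nx.getD k []).getD j (0, 0)).1 FA.one).X.add
          (r.sch.getD ((r.nx.getD k []).getD j (0, 0)).2 IM.zero) := by
    intro k hk j hj
    have e1 := h12 _ (rf_mem_zip r.reps r.nx FA.one [] hk (by omega))
    have e2 := e1.2 _ (rf_mem_zip r.G (r.nx.getD k []) FA.one (0, 0) hj (by
      have := e1.1
      simp only at this
      omega))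
    exact ⟨e1.1, e2.1.1.1, e2.1.1.2, e2.1.2, e2.2⟩
  refine ⟨h1, h2, h3, h4, ?_, ?_, ?_, ?_, ?_, ?_, ?_, ?_⟩
  · rw [rf_getD _ _ (by omega)]
    have : r.reps[0]'(by omega) = FA.one := by
      rw [List.head?_eq_getElem?] at h5
      rw [List.getElem?_eq_some_iff] at h5
      exact h5.2
    exact this
  · intro k hk
    have hkt : k < r.tree.length := by omega
    have hkz : k < (r.reps.tail.zip r.tree).length := by
      rw [List.length_zip, List.length_tail]
      omega
    have e0 : ((r.reps.getD (k + 1) FA.one, r.tree.getD k (0, 0)), k) ∈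
        (r.reps.tail.zip r.tree).zipIdx := by
      rw [List.mk_mem_zipIdx_iff_getElem?]
      rw [List.getElem?_zip_eq_some]
      constructor
      · simp only [List.getElem?_tail]
        rw [rf_getD _ _ hk]
        exact List.getElem?_eq_getElem hk
      · simp only
        rw [rf_getD _ _ hkt]
        exact List.getElem?_eq_getElem hkt
    have e1 := h9 _ e0
    simp only at e1
    refine ⟨(r.tree.getD k (0, 0)).1, (r.tree.getD k (0, 0)).2, e1.1.1, e1.1.2, e1.2, ?_⟩
    intro hk2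
    exact h10 _ (rf_mem_take r.tree (0, 0) (by omega) hkt)
  · intro k hk
    exact h11 _ (rf_mem_take r.reps FA.one hk (by omega))
  · intro k hk j hj
    obtain ⟨e0, e1, e2, e3, e4⟩ := hnx k hk j hj
    refine ⟨_, _, e1, e2, e3, e4, ?_⟩
    intro hk1 hj1
    have e5 := h13 _ (rf_mem_take r.nx [] hk1 (by omega))
    exact e5 _ (rf_mem_take (r.nx.getD k []) (0, 0) hj1 (by omega))
  · intro m hm
    obtain ⟨x, hx, y, hy, hym⟩ := h14 m (List.mem_range.2 hm)
    obtain ⟨k, hk, rfl⟩ := rf_exists_getD r.nx [] hx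
    have hk' : k < r.reps.length := by omega
    have hG : 0 < r.G.length := by simp [Row.G]
    have hl := (hnx k hk' 0 hG).1
    obtain ⟨j, hj, rfl⟩ := rf_exists_getD _ (0, 0) hy
    rw [hl] at hj
    obtain ⟨e0, e1, e2, e3, e4⟩ := hnx k hk' j hj
    rw [hym] at e4
    exact ⟨k, hk', j, hj, _, e1, e3, e4⟩
  · intro k hk0 hk
    apply h15
    have e1 : r.reps.getD k FA.one ∈ r.reps.drop 1 := rf_mem_drop r.reps FA.one hk0 hk
    rw [List.drop_one] at e1
    exact e1
  · intro k hk i hi hi'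
    exact h16 _ (rf_mem_drop r.reps FA.one hi hi') _ (rf_mem_take r.reps FA.one hk (by omega))
  · intro M hM
    obtain ⟨N, hN, hNM⟩ := h17 M hM
    rw [Row.hl, List.mem_map] at hN
    obtain ⟨p, hp, rfl⟩ := hN
    obtain ⟨k, hk, hk', rfl⟩ := rf_of_mem_take _ FA.one hp
    exact ⟨k, hk, hNM⟩

/-! ### The generators -/

theorem Row.G_len (r : Row) : r.G.length = r.gens.length + 2 := by simp [Row.G]

theorem Row.G_lin (r : Row) {j : ℕ} (hj : j < r.gens.length) :
    ∃ M ∈ r.gens, r.G.getD j FA.one = ⟨M, IM.zero⟩ := by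
  refine ⟨r.gens[j], List.getElem_mem hj, ?_⟩
  rw [rf_getD _ _ (by rw [Row.G_len]; omega)]
  simp only [Row.G]
  rw [List.getElem_append_left (by simpa using hj)]
  simp

theorem Row.G_t (r : Row) : r.G.getD r.gens.length FA.one = ⟨r.S, IM.one⟩ := by
  rw [rf_getD _ _ (by rw [Row.G_len]; omega)]
  simp only [Row.G]
  rw [List.getElem_append_right (by simp)]
  simp

theorem Row.G_ti (r : Row) : r.G.getD (r.gens.length + 1) FA.one = ⟨r.Si, r.Si.neg⟩ := by
  rw [rf_getD _ _ (by rw [Row.G_len]; omega)]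
  simp only [Row.G]
  rw [List.getElem_append_right (by simp)]
  simp

section

variable {r : Row} (hr : r.OK)
include hr

theorem Row.OK.gen_lin {M : IM} (hM : M ∈ r.gens) : ∃ g ∈ linGrp r.gens, IsAff g M.mat 0 := by
  obtain ⟨k, -, hk⟩ := hr.inv M hM
  have h1 : (r.reps.getD k FA.one).M.mat * M.mat = 1 := by
    rw [← rf_mul_mat, hk, rf_one_mat]
  exact ⟨rfPerm _ _ h1, Subgroup.subset_closure ⟨M, hM, rf_perm _ _ h1⟩, rf_perm _ _ h1⟩

/-- the first representatives are realised in the linear group -/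
theorem Row.OK.hl_real : ∀ k < r.hn, ∃ g ∈ linGrp r.gens,
    IsAff g (r.reps.getD k FA.one).M.mat 0 := by
  intro k
  induction k using Nat.strong_induction_on with
  | _ k ih =>
    intro hk
    rcases k with _ | k
    · refine ⟨1, one_mem _, ?_⟩
      rw [hr.head]
      change IsAff 1 IM.one.mat 0
      rw [rf_one_mat]
      exact rf_one
    · obtain ⟨i, j, hi, hj, he, hj'⟩ := hr.tree_ok k (lt_of_lt_of_le hk hr.hn_le)
      obtain ⟨M, hM, hG⟩ := r.G_lin (hj' hk)
      obtain ⟨g, hg, hg'⟩ := ih i (by omega) (by omega)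
      obtain ⟨h, hh, hh'⟩ := hr.gen_lin hM
      refine ⟨g * h, mul_mem hg hh, ?_⟩
      rw [he, hG]
      have e1 := rf_mul hg' hh'
      rw [mulVec_zero, add_zero] at e1
      change IsAff (g * h) ((r.reps.getD i FA.one).M.mul M).mat 0
      rw [rf_mul_mat]
      exact e1

/-- a property that is stable under multiplication by the generators is stable under
multiplication by the first representatives -/
theorem Row.OK.right_hl {P : Equiv.Perm V3 → Prop}
    (hP : ∀ x, P x → ∀ M ∈ r.gens, ∀ g, IsAff g M.mat 0 → P (x * g)) :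
    ∀ k < r.hn, ∀ x, P x → ∀ g, IsAff g (r.reps.getD k FA.one).M.mat 0 → P (x * g) := by
  intro k
  induction k using Nat.strong_induction_on with
  | _ k ih =>
    intro hk x hx g hg
    rcases k with _ | k
    · rw [hr.head] at hg
      have hg' : IsAff g 1 0 := by
        rw [← rf_one_mat]
        exact hg
      rw [rf_ext hg' rf_one, mul_one]
      exact hx
    · obtain ⟨i, j, hi, hj, he, hj'⟩ := hr.tree_ok k (lt_of_lt_of_le hk hr.hn_le)
      obtain ⟨M, hM, hG⟩ := r.G_lin (hj' hk)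
      obtain ⟨a, ha, ha'⟩ := hr.hl_real i (by omega)
      obtain ⟨b, hb, hb'⟩ := hr.gen_lin hM
      rw [he, hG] at hg
      have e1 := rf_mul ha' hb'
      rw [mulVec_zero, add_zero, ← rf_mul_mat] at e1
      have e2 : g = a * b := rf_ext hg e1
      rw [e2, ← mul_assoc]
      exact hP _ (ih i (by omega) (by omega) x hx a ha') M hM b hb'

theorem Row.OK.mem_H {g : Equiv.Perm V3} :
    g ∈ linGrp r.gens ↔ ∃ k < r.hn, IsAff g (r.reps.getD k FA.one).M.mat 0 := by
  constructor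
  · intro hg
    have hmul : ∀ x, (∃ k < r.hn, IsAff x (r.reps.getD k FA.one).M.mat 0) → ∀ M ∈ r.gens,
        ∀ g, IsAff g M.mat 0 → ∃ k < r.hn, IsAff (x * g) (r.reps.getD k FA.one).M.mat 0 := by
      rintro x ⟨k, hk, hx⟩ M hM g hg
      obtain ⟨j, hj, rfl⟩ := List.mem_iff_getElem.1 hM
      obtain ⟨M', hM', hG⟩ := r.G_lin hj
      have hG2 : r.G.getD j FA.one = ⟨r.gens[j], IM.zero⟩ := by
        rw [rf_getD _ _ (by rw [Row.G_len]; omega)]
        simp only [Row.G]
        rw [List.getElem_append_left (by simpa using hj)]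
        simp
      obtain ⟨i, m, hi, hm, e1, e2, e3⟩ := hr.nx_ok k (lt_of_lt_of_le hk hr.hn_le) j (by
        rw [Row.G_len]; omega)
      refine ⟨i, e3 hk hj, ?_⟩
      rw [← e1, hG2]
      change IsAff (x * g) ((r.reps.getD k FA.one).M.mul r.gens[j]).mat 0
      rw [rf_mul_mat]
      have e4 := rf_mul hx hg
      rw [mulVec_zero, add_zero] at e4
      exact e4
    induction hg using Subgroup.closure_induction_right with
    | one => exact ⟨0, hr.hn_pos, by
        rw [hr.head]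
        change IsAff 1 IM.one.mat 0
        rw [rf_one_mat]
        exact rf_one⟩
    | mul_right x _ y hy ih =>
      obtain ⟨M, hM, hyM⟩ := hy
      exact hmul x ih M hM y hyM
    | mul_inv_cancel x _ y hy ih =>
      obtain ⟨M, hM, hyM⟩ := hy
      obtain ⟨k, hk, hkM⟩ := hr.inv M hM
      have e1 : (r.reps.getD k FA.one).M.mat * M.mat = 1 := by
        rw [← rf_mul_mat, hkM, rf_one_mat]
      have e2 := rf_inv hyM e1
      rw [mulVec_zero, neg_zero] at e2
      exact hr.right_hl hmul k hk x ih y⁻¹ e2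
  · rintro ⟨k, hk, hg⟩
    obtain ⟨g', hg', hg''⟩ := hr.hl_real k hk
    rw [rf_ext hg hg'']
    exact hg'

end

section

variable {r : Row} (hr : r.OK) {w : V3} {t : Equiv.Perm V3} (ht : IsAff t r.S.mat w)
include hr ht

theorem Row.OK.gen_real {j : ℕ} (hj : j < r.G.length) :
    ∃ g ∈ r.grp t, IsAff g (r.G.getD j FA.one).M.mat ((r.G.getD j FA.one).X.mat *ᵥ w) := by
  rw [Row.G_len] at hj
  rcases lt_or_ge j r.gens.length with h | h
  · obtain ⟨M, hM, hG⟩ := r.G_lin h
    obtain ⟨g, hg, hg'⟩ := hr.gen_lin hM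
    refine ⟨g, Subgroup.mem_sup_left hg, ?_⟩
    rw [hG]
    change IsAff g M.mat (IM.zero.mat *ᵥ w)
    rw [rf_zero_mat, zero_mulVec]
    exact hg'
  · have h2 : j = r.gens.length ∨ j = r.gens.length + 1 := by omega
    rcases h2 with rfl | rfl
    · refine ⟨t, Subgroup.mem_sup_right (Subgroup.mem_zpowers t), ?_⟩
      rw [r.G_t]
      change IsAff t r.S.mat (IM.one.mat *ᵥ w)
      rw [rf_one_mat, one_mulVec]
      exact ht
    · refine ⟨t⁻¹, Subgroup.mem_sup_right (inv_mem (Subgroup.mem_zpowers t)), ?_⟩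
      rw [r.G_ti]
      change IsAff t⁻¹ r.Si.mat (r.Si.neg.mat *ᵥ w)
      rw [rf_neg_mat, neg_mulVec]
      apply rf_inv ht
      rw [← rf_mul_mat, hr.Si_S, rf_one_mat]

theorem Row.OK.rep_real : ∀ k < r.reps.length, ∃ g ∈ r.grp t,
    IsAff g (r.reps.getD k FA.one).M.mat ((r.reps.getD k FA.one).X.mat *ᵥ w) := by
  intro k
  induction k using Nat.strong_induction_on with
  | _ k ih =>
    intro hk
    rcases k with _ | k
    · refine ⟨1, one_mem _, ?_⟩
      rw [hr.head]
      change IsAff 1 IM.one.mat (IM.zero.mat *ᵥ w)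
      rw [rf_one_mat, rf_zero_mat, zero_mulVec]
      exact rf_one
    · obtain ⟨i, j, hi, hj, he, -⟩ := hr.tree_ok k hk
      obtain ⟨g, hg, hg'⟩ := ih i (by omega) (by omega)
      obtain ⟨h, hh, hh'⟩ := hr.gen_real ht hj
      refine ⟨g * h, mul_mem hg hh, ?_⟩
      rw [he]
      have e1 := rf_comp (y := 0) (by rw [add_zero]; exact hg') hh'
      rw [add_zero] at e1
      exact e1

theorem Row.OK.form {g : Equiv.Perm V3} (hg : g ∈ r.grp t) :
    ∃ k < r.reps.length, ∃ y ∈ r.Tw w, IsAff g (r.reps.getD k FA.one).M.mat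
      ((r.reps.getD k FA.one).X.mat *ᵥ w + y) := by
  have hlen : 0 < r.reps.length := lt_of_lt_of_le hr.hn_pos hr.hn_le
  have hmul : ∀ x, (∃ k < r.reps.length, ∃ y ∈ r.Tw w, IsAff x (r.reps.getD k FA.one).M.mat
      ((r.reps.getD k FA.one).X.mat *ᵥ w + y)) → ∀ j < r.G.length, ∀ g,
      IsAff g (r.G.getD j FA.one).M.mat ((r.G.getD j FA.one).X.mat *ᵥ w) →
      ∃ k < r.reps.length, ∃ y ∈ r.Tw w, IsAff (x * g) (r.reps.getD k FA.one).M.mat
      ((r.reps.getD k FA.one).X.mat *ᵥ w + y) := by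
    rintro x ⟨k, hk, y, hy, hx⟩ j hj g hg
    obtain ⟨i, m, hi, hm, e1, e2, -⟩ := hr.nx_ok k hk j hj
    refine ⟨i, hi, (r.sch.getD m IM.zero).mat *ᵥ w + y, ?_, ?_⟩
    · exact add_mem (AddSubgroup.subset_closure ⟨_, rf_getD_mem r.sch IM.zero hm, rfl⟩) hy
    · have e3 := rf_comp hx hg
      rw [e1, e2, rf_add_mat, add_mulVec, add_assoc] at e3
      exact e3
  have hlin : ∀ x, (∃ k < r.reps.length, ∃ y ∈ r.Tw w, IsAff x (r.reps.getD k FA.one).M.mat
      ((r.reps.getD k FA.one).X.mat *ᵥ w + y)) → ∀ M ∈ r.gens, ∀ g, IsAff g M.mat 0 →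
      ∃ k < r.reps.length, ∃ y ∈ r.Tw w, IsAff (x * g) (r.reps.getD k FA.one).M.mat
      ((r.reps.getD k FA.one).X.mat *ᵥ w + y) := by
    intro x hx M hM g hg
    obtain ⟨j, hj, rfl⟩ := List.mem_iff_getElem.1 hM
    have hG2 : r.G.getD j FA.one = ⟨r.gens[j], IM.zero⟩ := by
      rw [rf_getD _ _ (by rw [Row.G_len]; omega)]
      simp only [Row.G]
      rw [List.getElem_append_left (by simpa using hj)]
      simp
    apply hmul x hx j (by rw [Row.G_len]; omega) g
    rw [hG2]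
    change IsAff g (r.gens[j]).mat (IM.zero.mat *ᵥ w)
    rw [rf_zero_mat, zero_mulVec]
    exact hg
  have hgrp : r.grp t = Subgroup.closure
      ({g | ∃ M ∈ r.gens, IsAff g M.mat 0} ∪ {t}) := by
    rw [Subgroup.closure_union, Row.grp, linGrp, Subgroup.zpowers_eq_closure]
  rw [hgrp] at hg
  induction hg using Subgroup.closure_induction_right with
  | one => exact ⟨0, hlen, 0, zero_mem _, by
      rw [hr.head]
      change IsAff 1 IM.one.mat (IM.zero.mat *ᵥ w + 0)
      rw [rf_one_mat, rf_zero_mat, zero_mulVec, add_zero]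
      exact rf_one⟩
  | mul_right x _ y hy ih =>
    rcases hy with ⟨M, hM, hyM⟩ | hy
    · exact hlin x ih M hM y hyM
    · rw [Set.mem_singleton_iff] at hy
      subst hy
      apply hmul x ih r.gens.length (by rw [Row.G_len]; omega) y
      rw [r.G_t]
      change IsAff y r.S.mat (IM.one.mat *ᵥ w)
      rw [rf_one_mat, one_mulVec]
      exact ht
  | mul_inv_cancel x _ y hy ih =>
    rcases hy with ⟨M, hM, hyM⟩ | hy
    · obtain ⟨k, hk, hkM⟩ := hr.inv M hM
      have e1 : (r.reps.getD k FA.one).M.mat * M.mat = 1 := by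
        rw [← rf_mul_mat, hkM, rf_one_mat]
      have e2 := rf_inv hyM e1
      rw [mulVec_zero, neg_zero] at e2
      exact hr.right_hl hlin k hk x ih y⁻¹ e2
    · rw [Set.mem_singleton_iff] at hy
      subst hy
      apply hmul x ih (r.gens.length + 1) (by rw [Row.G_len]; omega) y⁻¹
      rw [r.G_ti]
      change IsAff y⁻¹ r.Si.mat (r.Si.neg.mat *ᵥ w)
      rw [rf_neg_mat, neg_mulVec]
      apply rf_inv ht
      rw [← rf_mul_mat, hr.Si_S, rf_one_mat]

theorem Row.OK.trans_iff {y : V3} : IsTrans (r.grp t) y ↔ y ∈ r.Tw w := by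
  constructor
  · rintro ⟨g, hg, hgy⟩
    obtain ⟨k, hk, y', hy', hg'⟩ := hr.form ht hg
    obtain ⟨e1, e2⟩ := rf_unique hgy hg'
    have hk0 : k = 0 := by
      by_contra hk0
      apply hr.ne_one k (Nat.pos_of_ne_zero hk0) hk
      apply rf_mat_inj
      rw [rf_one_mat, ← e1]
    subst hk0
    rw [hr.head] at e2
    have e3 : y = y' := by
      rw [e2]
      change IM.zero.mat *ᵥ w + y' = y'
      rw [rf_zero_mat, zero_mulVec, zero_add]
    rw [e3]
    exact hy'
  · intro hy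
    induction hy using AddSubgroup.closure_induction with
    | mem y hy =>
      obtain ⟨X, hX, rfl⟩ := hy
      obtain ⟨m, hm, rfl⟩ := rf_exists_getD r.sch IM.zero hX
      obtain ⟨k, hk, j, hj, i, hi, e1, e2⟩ := hr.app m hm
      obtain ⟨a, ha, ha'⟩ := hr.rep_real ht k hk
      obtain ⟨b, hb, hb'⟩ := hr.gen_real ht hj
      obtain ⟨c, hc, hc'⟩ := hr.rep_real ht i hi
      refine ⟨a * b * c⁻¹, mul_mem (mul_mem ha hb) (inv_mem hc), ?_⟩
      have e3 := rf_comp (y := 0) (by rw [add_zero]; exact ha') hb'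
      rw [add_zero, e1, e2, rf_add_mat, add_mulVec] at e3
      intro x
      have e4 : x = c (c⁻¹ x) := (Equiv.apply_symm_apply c x).symm
      rw [Equiv.Perm.mul_apply, e3, one_mulVec]
      conv_rhs => rw [e4, hc']
      rw [add_assoc]
    | zero => exact ⟨1, one_mem _, rf_one⟩
    | add y z _ _ h1 h2 =>
      obtain ⟨g, hg, hg'⟩ := h1
      obtain ⟨h, hh, hh'⟩ := h2
      refine ⟨g * h, mul_mem hg hh, ?_⟩
      have e1 := rf_mul hg' hh'
      rw [mul_one, one_mulVec, add_comm] at e1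
      exact e1
    | neg y _ h1 =>
      obtain ⟨g, hg, hg'⟩ := h1
      refine ⟨g⁻¹, inv_mem hg, ?_⟩
      have e1 := rf_inv hg' (mul_one 1)
      rw [one_mulVec] at e1
      exact e1

end

section RowFacts

variable {r : Row} (hok : r.ok = true) {w : V3} {t : Equiv.Perm V3} (ht : IsAff t r.S.mat w)
include hok

theorem Row.mem_H {g : Equiv.Perm V3} : g ∈ linGrp r.gens ↔ ∃ M ∈ r.hl, IsAff g M.mat 0 := by
  have hr := Row.ok_OK hok
  rw [hr.mem_H]
  constructor
  · rintro ⟨k, hk, hg⟩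
    exact ⟨_, List.mem_map.2 ⟨_, rf_mem_take r.reps FA.one hk (lt_of_lt_of_le hk hr.hn_le), rfl⟩,
      hg⟩
  · rintro ⟨M, hM, hg⟩
    rw [Row.hl, List.mem_map] at hM
    obtain ⟨p, hp, rfl⟩ := hM
    obtain ⟨k, hk, -, rfl⟩ := rf_of_mem_take _ FA.one hp
    exact ⟨k, hk, hg⟩

include ht

theorem Row.rep_real {p : FA} (hp : p ∈ r.reps) :
    ∃ g ∈ r.grp t, IsAff g p.M.mat (p.X.mat *ᵥ w) := by
  obtain ⟨k, hk, rfl⟩ := rf_exists_getD r.reps FA.one hp
  exact (Row.ok_OK hok).rep_real ht k hk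

theorem Row.form {g : Equiv.Perm V3} (hg : g ∈ r.grp t) :
    ∃ p ∈ r.reps, ∃ y ∈ r.Tw w, IsAff g p.M.mat (p.X.mat *ᵥ w + y) := by
  obtain ⟨k, hk, y, hy, h⟩ := (Row.ok_OK hok).form ht hg
  exact ⟨_, rf_getD_mem r.reps FA.one hk, y, hy, h⟩

theorem Row.trans_iff {y : V3} : IsTrans (r.grp t) y ↔ y ∈ r.Tw w :=
  (Row.ok_OK hok).trans_iff ht

theorem Row.stab_iff : (∀ g ∈ r.grp t, g 0 = 0 → g ∈ linGrp r.gens) ↔
    ∀ p ∈ r.nl, p.X.mat *ᵥ w ∉ r.Tw w := by
  have hr := Row.ok_OK hok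
  constructor
  · intro h p hp hpw
    obtain ⟨i, hi, hi', rfl⟩ := rf_of_mem_drop r.reps FA.one hp
    obtain ⟨g, hg, hg'⟩ := hr.rep_real ht i hi'
    obtain ⟨τ, hτ, hτ'⟩ := (Row.trans_iff hok ht).2 (neg_mem hpw)
    have e1 := rf_mul hτ' hg'
    rw [one_mulVec, one_mul, add_neg_cancel] at e1
    have e2 : (τ * g) 0 = 0 := by rw [e1, mulVec_zero, zero_add]
    obtain ⟨k, hk, e3⟩ := hr.mem_H.1 (h _ (mul_mem hτ hg) e2)
    exact hr.ne_h k hk i hi hi' (rf_mat_inj (rf_unique e3 e1).1)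
  · intro h g hg h0
    obtain ⟨k, hk, y, hy, hg'⟩ := hr.form ht hg
    have e1 : (r.reps.getD k FA.one).X.mat *ᵥ w + y = 0 := by
      rw [hg', mulVec_zero, zero_add] at h0
      exact h0
    rcases lt_or_ge k r.hn with hkn | hkn
    · rw [hr.lin k hkn, rf_zero_mat, zero_mulVec, zero_add] at e1
      rw [hr.lin k hkn, rf_zero_mat, zero_mulVec, zero_add, e1] at hg'
      exact hr.mem_H.2 ⟨k, hkn, hg'⟩
    · exfalso
      apply h _ (rf_mem_drop r.reps FA.one hkn hk)
      rw [eq_neg_of_add_eq_zero_left e1]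
      exact neg_mem hy

theorem Row.Tw_inv {p : FA} (hp : p ∈ r.reps) {y : V3} (hy : y ∈ r.Tw w) :
    p.M.mat *ᵥ y ∈ r.Tw w := by
  obtain ⟨g, hg, hg'⟩ := Row.rep_real hok ht hp
  obtain ⟨τ, hτ, hτ'⟩ := (Row.trans_iff hok ht).2 hy
  apply (Row.trans_iff hok ht).1
  refine ⟨g * τ * g⁻¹, mul_mem (mul_mem hg hτ) (inv_mem hg), ?_⟩
  intro x
  have e4 : x = g (g⁻¹ x) := (Equiv.apply_symm_apply g x).symm
  rw [Equiv.Perm.mul_apply, Equiv.Perm.mul_apply, hg', hτ', one_mulVec, one_mulVec, mulVec_add]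
  conv_rhs => rw [e4, hg']
  abel

omit ht in
/-- if all `X w` with `X ∈ sch` vanish, the group is finite -/
theorem Row.finite_of_zero (ht : IsAff t r.S.mat w) (h : ∀ X ∈ r.sch, X.mat *ᵥ w = 0) :
    (r.grp t : Set (Equiv.Perm V3)).Finite := by
  have hT : r.Tw w = ⊥ := by
    rw [eq_bot_iff, Row.Tw, AddSubgroup.closure_le]
    rintro y ⟨X, hX, rfl⟩
    rw [SetLike.mem_coe, AddSubgroup.mem_bot]
    exact h X hX
  have hsub : (r.grp t : Set (Equiv.Perm V3)) ⊆ ⋃ p ∈ {p | p ∈ r.reps},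
      {g | IsAff g p.M.mat (p.X.mat *ᵥ w)} := by
    intro g hg
    obtain ⟨p, hp, y, hy, hg'⟩ := Row.form hok ht hg
    rw [hT, AddSubgroup.mem_bot] at hy
    rw [hy, add_zero] at hg'
    exact Set.mem_biUnion hp hg'
  refine Set.Finite.subset (Set.Finite.biUnion r.reps.finite_toSet fun p _ => ?_) hsub
  apply Set.Subsingleton.finite
  intro g hg g' hg'
  exact rf_ext hg hg'

end RowFacts

/-- FTI-17 -/
theorem grp_link {l : List IM} {A B s t : Equiv.Perm V3} (h : stab A B = linGrp l)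
    (hl : Link (stab A B) s t) : grp A B s = linGrp l ⊔ Subgroup.zpowers t := by
  have hst : stab A B ≤ grp A B s :=
    Subgroup.closure_mono (by
      intro x hx
      rcases hx with rfl | hx
      · exact Or.inl rfl
      · exact Or.inr (Or.inl hx))
  have hs : s ∈ grp A B s := Subgroup.subset_closure (Or.inr (Or.inr rfl))
  obtain ⟨a, ha, b, hb, hab⟩ := hl
  have hti : t ∈ grp A B s := by
    rcases hab with hab | hab
    · have e1 : t = a⁻¹ * s * b⁻¹ := by rw [hab]; group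
      rw [e1]
      exact mul_mem (mul_mem (inv_mem (hst ha)) hs) (inv_mem (hst hb))
    · have e1 : t = b * s⁻¹ * a := by rw [hab]; group
      rw [e1]
      exact mul_mem (mul_mem (hst hb) (inv_mem hs)) (hst ha)
  rw [← h]
  apply le_antisymm
  · rw [grp, Subgroup.closure_le]
    have ht1 : t ∈ stab A B ⊔ Subgroup.zpowers t :=
      Subgroup.mem_sup_right (Subgroup.mem_zpowers t)
    rintro x (rfl | rfl | hx)
    · exact Subgroup.mem_sup_left (Subgroup.subset_closure (Or.inl rfl))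
    · exact Subgroup.mem_sup_left (Subgroup.subset_closure (Or.inr rfl))
    · rw [Set.mem_singleton_iff] at hx
      rw [hx]
      rcases hab with hab | hab
      · rw [hab]
        exact mul_mem (mul_mem (Subgroup.mem_sup_left ha) ht1) (Subgroup.mem_sup_left hb)
      · rw [hab]
        exact mul_mem (mul_mem (Subgroup.mem_sup_left ha) (inv_mem ht1))
          (Subgroup.mem_sup_left hb)
  · refine sup_le hst ?_
    rw [Subgroup.zpowers_le]
    exact hti

end Pool.Agent.H21.FT
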