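import Pool.Agent.H21.FT.Row
import Pool.Agent.H21.FT.RowFacts

/-!
# Soundness of the families of a row
-/

namespace Pool.Agent.H21.FT

open Matrix

namespace FamS

theorem mat_vec (M : IM) (v : IV) : M.mat *ᵥ v.vec = (M.mv v).vec := by
  funext i
  fin_cases i <;>
    simp [IM.mat, IV.vec, IM.mv, IV.dot, Matrix.mulVec, dotProduct, Fin.sum_univ_three]

theorem vec_inj {v w : IV} (h : v.vec = w.vec) : v = w := by
  have h0 := congrFun h 0
  have h1 := congrFun h 1
  have h2 := congrFun h 2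
  simp only [IV.vec, Matrix.cons_val_zero, Matrix.cons_val_one, Matrix.cons_val] at h0 h1 h2
  cases v
  cases w
  simp only [IV.mk.injEq]
  exact ⟨by exact_mod_cast h0, by exact_mod_cast h1, by exact_mod_cast h2⟩

theorem vec_zero : (⟨0, 0, 0⟩ : IV).vec = 0 := by
  funext i
  fin_cases i <;> simp [IV.vec]

theorem vec_add (v w : IV) : (v.add w).vec = v.vec + w.vec := by
  funext i
  fin_cases i <;> simp [IV.vec, IV.add]

theorem vec_neg (v : IV) : (v.neg).vec = -v.vec := by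
  funext i
  fin_cases i <;> simp [IV.vec, IV.neg]

theorem vec_smul (k : ℤ) (v : IV) : (v.smul k).vec = (k : ℝ) • v.vec := by
  funext i
  fin_cases i <;> simp [IV.vec, IV.smul]

/-- The lattice as an additive subgroup. -/
def sg (L : LatE) : AddSubgroup V3 where
  carrier := {y | L.Mem y}
  zero_mem' := ⟨⟨⟨0, 0, 0⟩, by simp [vec_zero]⟩, by simp⟩
  add_mem' := by
    rintro a b ⟨⟨k, hk⟩, ha⟩ ⟨⟨l, hl⟩, hb⟩
    refine ⟨⟨k.add l, ?_⟩, ?_⟩
    · rw [Matrix.mulVec_add, hk, hl, vec_add, smul_add]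
    · rw [Matrix.mulVec_add, ha, hb, add_zero]
  neg_mem' := by
    rintro a ⟨⟨k, hk⟩, ha⟩
    refine ⟨⟨k.neg, ?_⟩, ?_⟩
    · rw [Matrix.mulVec_neg, hk, vec_neg, smul_neg]
    · rw [Matrix.mulVec_neg, ha, neg_zero]

theorem mem_sg {L : LatE} {y : V3} : y ∈ sg L ↔ L.Mem y := Iff.rfl

theorem div_spec {L : LatE} {N : ℤ} {y : IV} (h : L.div N y = true) :
    (∃ k : IV, L.D.mv y = k.smul N) ∧ L.E.mv y = ⟨0, 0, 0⟩ := by
  simp only [LatE.div, Bool.and_eq_true, decide_eq_true_eq] at h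
  obtain ⟨⟨⟨⟨a, ha⟩, ⟨b, hb⟩⟩, ⟨c, hc⟩⟩, he⟩ := h
  refine ⟨⟨⟨a, b, c⟩, ?_⟩, he⟩
  simp only [IV.smul, ← ha, ← hb, ← hc]

/-- The vectors `u / den` with `div` are in the lattice. -/
theorem div_mem {L : LatE} {den : ℤ} (hd : 0 < den) {u : IV} (h : L.div (den * L.m) u = true) :
    ((den : ℝ)⁻¹) • u.vec ∈ sg L := by
  obtain ⟨⟨k, hk⟩, he⟩ := div_spec h
  have hd' : (den : ℝ) ≠ 0 := by exact_mod_cast hd.ne'
  refine ⟨⟨k, ?_⟩, ?_⟩
  · rw [Matrix.mulVec_smul, mat_vec, hk, vec_smul, smul_smul]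
    push_cast
    congr 1
    field_simp
  · rw [Matrix.mulVec_smul, mat_vec, he, vec_zero, smul_zero]

/-- `X` applied to a vector of the family. -/
theorem X_pt (f : Fam) (X : IM) (n : IV) (x y : ℝ) : X.mat *ᵥ f.pt n x y =
    (((f.den : ℝ)⁻¹) • (X.mv f.v).vec + x • (X.mv f.K1).vec + y • (X.mv f.K2).vec) +
    ((n.x : ℤ) • (((f.den : ℝ)⁻¹) • (X.mv f.T1).vec) +
      (n.y : ℤ) • (((f.den : ℝ)⁻¹) • (X.mv f.T2).vec) +
      (n.z : ℤ) • (((f.den : ℝ)⁻¹) • (X.mv f.T3).vec)) := by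
  simp only [Fam.pt, Matrix.mulVec_add, Matrix.mulVec_smul, mat_vec, smul_add, ← Int.cast_smul_eq_zsmul ℝ,
    smul_smul, mul_comm]
  abel

/-- All checks of `famOK`. -/
theorem fam_facts {r : Row} {f : Fam} {L : LatE} (hf : famOK r f L = true) :
    0 < f.den ∧ 0 < L.m ∧ L.D.mat.det ≠ 0 ∧
    (∀ X ∈ r.sch, X.mv f.K1 = ⟨0, 0, 0⟩ ∧ X.mv f.K2 = ⟨0, 0, 0⟩ ∧
      L.div (f.den * L.m) (X.mv f.v) = true ∧ L.div (f.den * L.m) (X.mv f.T1) = true ∧
      L.div (f.den * L.m) (X.mv f.T2) = true ∧ L.div (f.den * L.m) (X.mv f.T3) = true) ∧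
    (∀ p ∈ r.nl, L.E.mv (p.X.mv f.K1) = ⟨0, 0, 0⟩ ∧ L.E.mv (p.X.mv f.K2) = ⟨0, 0, 0⟩ ∧
      L.div (f.den * L.m) (p.X.mv f.T1) = true ∧ L.div (f.den * L.m) (p.X.mv f.T2) = true ∧
      L.div (f.den * L.m) (p.X.mv f.T3) = true ∧
      (L.E.mv (p.X.mv f.v) ≠ ⟨0, 0, 0⟩ ∨ (∃ u ∈ combs, (comb (conds f L p.X) u).never = true) ∨
        ∃ it ∈ f.exc, ∀ q ∈ it, ∃ u ∈ combs, (comb (conds f L p.X) u).gives q = true)) := by
  simp only [famOK, Bool.and_eq_true, decide_eq_true_eq, List.all_eq_true, List.any_eq_true,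
    Bool.or_eq_true] at hf
  obtain ⟨⟨⟨⟨h1, h2⟩, h3⟩, h4⟩, h5⟩ := hf
  refine ⟨h1, h2, ?_, ?_, ?_⟩
  · intro h
    apply h3
    have h' : ((L.D.a.dot ⟨L.D.b.y * L.D.c.z - L.D.b.z * L.D.c.y,
      L.D.b.z * L.D.c.x - L.D.b.x * L.D.c.z,
      L.D.b.x * L.D.c.y - L.D.b.y * L.D.c.x⟩ : ℤ) : ℝ) = 0 := by
      rw [← h, Matrix.det_fin_three]
      simp [IV.dot, IM.mat]
      ring
    exact_mod_cast h'
  · intro X hX
    obtain ⟨⟨⟨⟨⟨a, b⟩, c⟩, d⟩, e⟩, g⟩ := h4 X hX
    exact ⟨a, b, c, d, e, g⟩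
  · intro p hp
    obtain ⟨⟨⟨⟨⟨a, b⟩, c⟩, d⟩, e⟩, g⟩ := h5 p hp
    exact ⟨a, b, c, d, e, g⟩

/-- The part of `X w` that comes from the translations of the family is in the lattice. -/
theorem T_mem {L : LatE} {den : ℤ} (hd : 0 < den) {u1 u2 u3 : IV} (n : IV)
    (h1 : L.div (den * L.m) u1 = true) (h2 : L.div (den * L.m) u2 = true)
    (h3 : L.div (den * L.m) u3 = true) :
    (n.x : ℤ) • (((den : ℝ)⁻¹) • u1.vec) + (n.y : ℤ) • (((den : ℝ)⁻¹) • u2.vec) +
      (n.z : ℤ) • (((den : ℝ)⁻¹) • u3.vec) ∈ sg L :=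
  add_mem (add_mem (zsmul_mem (div_mem hd h1) _) (zsmul_mem (div_mem hd h2) _))
    (zsmul_mem (div_mem hd h3) _)

theorem sch_mem {r : Row} {f : Fam} {L : LatE} (hf : famOK r f L = true) {n : IV} {x y : ℝ}
    {X : IM} (hX : X ∈ r.sch) : X.mat *ᵥ f.pt n x y ∈ sg L := by
  obtain ⟨h1, h2, h3, h4, h5⟩ := fam_facts hf
  obtain ⟨a, b, c, d, e, g⟩ := h4 X hX
  rw [X_pt, a, b]
  refine add_mem ?_ (T_mem h1 n d e g)
  rw [vec_zero, smul_zero, smul_zero, add_zero, add_zero]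
  exact div_mem h1 c

theorem Tw_le {r : Row} {f : Fam} {L : LatE} (hf : famOK r f L = true) {n : IV} {x y : ℝ} :
    r.Tw (f.pt n x y) ≤ sg L := by
  unfold Row.Tw
  rw [AddSubgroup.closure_le]
  rintro z ⟨X, hX, rfl⟩
  exact sch_mem hf hX

/-- A row of the matrix equation. -/
theorem row_eq (u c a b : IV) (den m : ℤ) (hd : 0 < den) (x y : ℝ) (k : ℤ) :
    ((den : ℝ)⁻¹ * (u.dot c : ℤ) + x * (u.dot a : ℤ) + y * (u.dot b : ℤ) = m * k) ↔
    ((den * u.dot a : ℤ) : ℝ) * x + ((den * u.dot b : ℤ) : ℝ) * y + ((u.dot c : ℤ) : ℝ) =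
      ((den * m : ℤ) : ℝ) * k := by
  have hd' : (den : ℝ) ≠ 0 := by exact_mod_cast hd.ne'
  constructor
  · intro h
    have := congrArg (fun z => (den : ℝ) * z) h
    simp only [mul_add] at this
    rw [← mul_assoc, mul_inv_cancel₀ hd', one_mul] at this
    push_cast
    linarith
  · intro h
    push_cast at h
    apply mul_left_cancel₀ hd'
    simp only [mul_add]
    rw [← mul_assoc, mul_inv_cancel₀ hd', one_mul]
    linarith

/-- The vector is in the lattice iff the congruences hold. -/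
theorem mem_iff {f : Fam} {L : LatE} (hd : 0 < f.den) {X : IM} {x y : ℝ}
    (hK1 : L.E.mv (X.mv f.K1) = ⟨0, 0, 0⟩) (hK2 : L.E.mv (X.mv f.K2) = ⟨0, 0, 0⟩) :
    (((f.den : ℝ)⁻¹) • (X.mv f.v).vec + x • (X.mv f.K1).vec + y • (X.mv f.K2).vec) ∈ sg L ↔
    L.E.mv (X.mv f.v) = ⟨0, 0, 0⟩ ∧ ∀ c ∈ conds f L X, c.Holds x y := by
  have hd' : (f.den : ℝ) ≠ 0 := by exact_mod_cast hd.ne'
  rw [mem_sg]
  unfold LatE.Mem
  rw [and_comm]
  refine and_congr ?_ ?_
  · simp only [Matrix.mulVec_add, Matrix.mulVec_smul, mat_vec, hK1, hK2, vec_zero, smul_zero,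
      add_zero]
    constructor
    · intro h
      apply vec_inj
      rw [vec_zero]
      have := (smul_eq_zero.1 h).resolve_left (inv_ne_zero hd')
      exact this
    · intro h
      rw [h, vec_zero, smul_zero]
  · simp only [Matrix.mulVec_add, Matrix.mulVec_smul, mat_vec]
    constructor
    · rintro ⟨k, hk⟩
      have h0 := congrFun hk 0
      have h1 := congrFun hk 1
      have h2 := congrFun hk 2
      simp only [IV.vec, IM.mv, Pi.add_apply, Pi.smul_apply, smul_eq_mul, Matrix.cons_val_zero,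
        Matrix.cons_val_one, Matrix.cons_val] at h0 h1 h2
      intro c hc
      simp only [conds, List.mem_cons, List.not_mem_nil, or_false] at hc
      rcases hc with rfl | rfl | rfl
      · exact ⟨k.x, (row_eq L.D.a (X.mv f.v) (X.mv f.K1) (X.mv f.K2) f.den L.m hd x y k.x).1 h0⟩
      · exact ⟨k.y, (row_eq L.D.b (X.mv f.v) (X.mv f.K1) (X.mv f.K2) f.den L.m hd x y k.y).1 h1⟩
      · exact ⟨k.z, (row_eq L.D.c (X.mv f.v) (X.mv f.K1) (X.mv f.K2) f.den L.m hd x y k.z).1 h2⟩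
    · intro h
      simp only [conds, List.mem_cons, List.not_mem_nil, or_false, forall_eq_or_imp,
        forall_eq] at h
      obtain ⟨⟨k0, h0⟩, ⟨k1, h1⟩, ⟨k2, h2⟩⟩ := h
      refine ⟨⟨k0, k1, k2⟩, ?_⟩
      have h0' := (row_eq L.D.a (X.mv f.v) (X.mv f.K1) (X.mv f.K2) f.den L.m hd x y k0).2 h0
      have h1' := (row_eq L.D.b (X.mv f.v) (X.mv f.K1) (X.mv f.K2) f.den L.m hd x y k1).2 h1
      have h2' := (row_eq L.D.c (X.mv f.v) (X.mv f.K1) (X.mv f.K2) f.den L.m hd x y k2).2 h2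
      funext i
      fin_cases i
      · simpa [IV.vec, IM.mv] using h0'
      · simpa [IV.vec, IM.mv] using h1'
      · simpa [IV.vec, IM.mv] using h2'

theorem comb_holds {f : Fam} {L : LatE} {X : IM} {x y : ℝ}
    (h : ∀ c ∈ conds f L X, c.Holds x y) (u : IV) : (comb (conds f L X) u).Holds x y := by
  simp only [conds, List.mem_cons, List.not_mem_nil, or_false, forall_eq_or_imp,
    forall_eq, Cong.Holds] at h
  obtain ⟨⟨k0, h0⟩, ⟨k1, h1⟩, ⟨k2, h2⟩⟩ := h
  refine ⟨u.x * k0 + u.y * k1 + u.z * k2, ?_⟩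
  simp only [comb, conds, List.getD_cons_zero, List.getD_cons_succ]
  push_cast at h0 h1 h2 ⊢
  linear_combination (u.x : ℝ) * h0 + (u.y : ℝ) * h1 + (u.z : ℝ) * h2

theorem never_false {c : Cong} {x y : ℝ} (h : c.Holds x y) (hn : c.never = true) : False := by
  simp only [Cong.never, Bool.and_eq_true, decide_eq_true_eq, Bool.not_eq_true',
    decide_eq_false_iff_not] at hn
  obtain ⟨⟨h1, h2⟩, h3⟩ := hn
  obtain ⟨k, hk⟩ := h
  rw [h1, h2] at hk
  apply h3
  refine ⟨k, ?_⟩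
  have : (c.ga : ℝ) = c.d * k := by simpa using hk
  exact_mod_cast this

theorem gives_holds {c q : Cong} {x y : ℝ} (h : c.Holds x y) (hg : c.gives q = true) :
    q.Holds x y := by
  simp only [Cong.gives, Bool.and_eq_true, decide_eq_true_eq] at hg
  generalize (if q.al = 0 then c.be / q.be else c.al / q.al) = u at hg
  obtain ⟨⟨⟨⟨h1, h2⟩, h3⟩, ⟨a, h4⟩⟩, ⟨b, h5⟩⟩ := hg
  obtain ⟨k, hk⟩ := h
  refine ⟨a * k - b, ?_⟩
  have hu : (u : ℝ) ≠ 0 := by exact_mod_cast h1
  apply mul_left_cancel₀ hu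
  have h2' : (u : ℝ) * q.al = c.al := by exact_mod_cast h2
  have h3' : (u : ℝ) * q.be = c.be := by exact_mod_cast h3
  have h4' : (c.d : ℝ) = u * q.d * a := by exact_mod_cast h4
  have h5' : (c.ga : ℝ) - u * q.ga = u * q.d * b := by exact_mod_cast h5
  push_cast
  rw [← h2', ← h3', h4'] at hk
  linear_combination hk - h5'

theorem imp_holds {q c : Cong} {x y : ℝ} (h : q.Holds x y) (hg : q.imp c = true) :
    c.Holds x y := by
  simp only [Cong.imp, Bool.and_eq_true, decide_eq_true_eq] at hg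
  generalize (if q.al = 0 then c.be / q.be else c.al / q.al) = u at hg
  obtain ⟨⟨⟨h2, h3⟩, ⟨a, h4⟩⟩, ⟨b, h5⟩⟩ := hg
  obtain ⟨k, hk⟩ := h
  refine ⟨a * k + b, ?_⟩
  have h2' : (u : ℝ) * q.al = c.al := by exact_mod_cast h2
  have h3' : (u : ℝ) * q.be = c.be := by exact_mod_cast h3
  have h4' : (u : ℝ) * q.d = c.d * a := by exact_mod_cast h4
  have h5' : (c.ga : ℝ) - u * q.ga = c.d * b := by exact_mod_cast h5
  push_cast
  rw [← h2', ← h3']
  linear_combination (u : ℝ) * hk + h5' + (k : ℝ) * h4'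

theorem always_holds {c : Cong} {x y : ℝ} (h : c.always = true) : c.Holds x y := by
  simp only [Cong.always, Bool.and_eq_true, decide_eq_true_eq] at h
  obtain ⟨⟨h1, h2⟩, ⟨k, h3⟩⟩ := h
  refine ⟨k, ?_⟩
  rw [h1, h2, h3]
  push_cast
  ring

/-- The lattice has finitely many vectors in a bounded set. -/
theorem finite_bdd {L : LatE} (hm : 0 < L.m) (hdet : L.D.mat.det ≠ 0) (R : ℝ) :
    {y : V3 | y ∈ sg L ∧ ∀ i, |y i| ≤ R}.Finite := by
  obtain ⟨B, hB⟩ := exists_nat_ge ((∑ i, ∑ j, |L.D.mat i j|) * R)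
  have hZ : ((fun k : Fin 3 → ℤ => (L.m : ℝ) • (fun i => ((k i : ℤ) : ℝ)) : (Fin 3 → ℤ) → V3) ''
      (Set.Icc (fun _ => -(B : ℤ)) (fun _ => (B : ℤ)))).Finite := (Set.finite_Icc _ _).image _
  refine Set.Finite.of_injOn (f := fun y : V3 => L.D.mat *ᵥ y) ?_ ?_ hZ
  · rintro y ⟨⟨⟨k, hk⟩, -⟩, hy⟩
    have hR : 0 ≤ R := (abs_nonneg _).trans (hy 0)
    have hm1 : (1 : ℝ) ≤ L.m := by exact_mod_cast hm
    have hbd : ∀ i, |(L.D.mat *ᵥ y) i| ≤ B := by
      intro i
      have e1 : |(L.D.mat *ᵥ y) i| ≤ ∑ j, |L.D.mat i j| * R := by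
        unfold Matrix.mulVec dotProduct
        refine (Finset.abs_sum_le_sum_abs _ _).trans (Finset.sum_le_sum fun j _ => ?_)
        rw [abs_mul]
        exact mul_le_mul_of_nonneg_left (hy j) (abs_nonneg _)
      have e2 : ∑ j, |L.D.mat i j| * R ≤ (∑ i, ∑ j, |L.D.mat i j|) * R := by
        rw [← Finset.sum_mul]
        refine mul_le_mul_of_nonneg_right ?_ hR
        exact Finset.single_le_sum (f := fun i => ∑ j, |L.D.mat i j|)
          (fun i _ => Finset.sum_nonneg fun j _ => abs_nonneg _) (Finset.mem_univ i)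
      exact (e1.trans e2).trans hB
    have hk' : ∀ i, |k.vec i| ≤ B := by
      intro i
      have e3 := hbd i
      rw [hk, Pi.smul_apply, smul_eq_mul, abs_mul] at e3
      have e4 : |(L.m : ℝ)| = L.m := abs_of_pos (by linarith)
      rw [e4] at e3
      refine le_trans ?_ e3
      nlinarith [abs_nonneg (k.vec i)]
    refine ⟨![k.x, k.y, k.z], ?_, ?_⟩
    · rw [Set.mem_Icc]
      constructor
      · intro i
        fin_cases i
        · have := (abs_le.1 (hk' 0)).1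
          simp only [IV.vec, Matrix.cons_val_zero] at this
          have h' : (-(B : ℤ)) ≤ k.x := by exact_mod_cast this
          simpa using h'
        · have : -(B : ℝ) ≤ (k.y : ℝ) := by simpa [IV.vec] using (abs_le.1 (hk' 1)).1
          have h' : (-(B : ℤ)) ≤ k.y := by exact_mod_cast this
          simpa using h'
        · have := (abs_le.1 (hk' 2)).1
          simp only [IV.vec, Matrix.cons_val] at this
          have h' : (-(B : ℤ)) ≤ k.z := by exact_mod_cast this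
          simpa using h'
      · intro i
        fin_cases i
        · have := (abs_le.1 (hk' 0)).2
          simp only [IV.vec, Matrix.cons_val_zero] at this
          have h' : k.x ≤ (B : ℤ) := by exact_mod_cast this
          simpa using h'
        · have : (k.y : ℝ) ≤ (B : ℝ) := by simpa [IV.vec] using (abs_le.1 (hk' 1)).2
          have h' : k.y ≤ (B : ℤ) := by exact_mod_cast this
          simpa using h'
        · have := (abs_le.1 (hk' 2)).2
          simp only [IV.vec, Matrix.cons_val] at this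
          have h' : k.z ≤ (B : ℤ) := by exact_mod_cast this
          simpa using h'
    · show (L.m : ℝ) • (fun i => (((![k.x, k.y, k.z] : Fin 3 → ℤ) i : ℤ) : ℝ)) = L.D.mat *ᵥ y
      rw [hk]
      congr 1
      funext i
      fin_cases i <;> simp [IV.vec]
  · intro a _ b _ hab
    have hz : L.D.mat *ᵥ (a - b) = 0 := by
      rw [Matrix.mulVec_sub]
      exact sub_eq_zero.2 hab
    exact sub_eq_zero.1 (Matrix.eq_zero_of_mulVec_eq_zero hdet hz)

end FamS

open FamS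

/-- Soundness of a family: the stabiliser of the origin is the group of the row and the group is
discrete. -/
theorem fam_sound {r : Row} (hok : r.ok = true) {f : Fam} {L : LatE} (hf : famOK r f L = true)
    {n : IV} {x y : ℝ} (hx : ¬ f.Excl x y) {t : Equiv.Perm V3}
    (ht : IsAff t r.S.mat (f.pt n x y)) :
    (∀ g ∈ r.grp t, g 0 = 0 → g ∈ linGrp r.gens) ∧ Disc (r.grp t) := by
  obtain ⟨h1, h2, h3, h4, h5⟩ := fam_facts hf
  constructor
  · rw [Row.stab_iff hok ht]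
    intro p hp hmem
    obtain ⟨a, b, c, d, e, g⟩ := h5 p hp
    have hm := Tw_le hf hmem
    rw [X_pt] at hm
    have hm' := (AddSubgroup.add_mem_cancel_right _ (T_mem h1 n c d e)).1 hm
    rw [mem_iff h1 a b] at hm'
    obtain ⟨hE, hc⟩ := hm'
    rcases g with g | ⟨u, -, g⟩ | ⟨it, hit, g⟩
    · exact g hE
    · exact never_false (comb_holds hc u) g
    · refine hx ⟨it, hit, fun q hq => ?_⟩
      obtain ⟨u, -, hu⟩ := g q hq
      exact gives_holds (comb_holds hc u) hu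
  · intro R
    have hfin : (⋃ p ∈ {p | p ∈ r.reps}, {g : Equiv.Perm V3 | (∀ i, |g 0 i| ≤ R) ∧
        ∃ y' ∈ sg L, IsAff g p.M.mat (p.X.mat *ᵥ f.pt n x y + y')}).Finite := by
      refine Set.Finite.biUnion (List.finite_toSet _) ?_
      intro p _
      set v := p.X.mat *ᵥ f.pt n x y with hv
      refine Set.Finite.of_injOn (f := fun g : Equiv.Perm V3 => g 0 - v) ?_ ?_
        (finite_bdd h2 h3 (R + ∑ i, |v i|))
      · rintro g ⟨hg, y', hy', hga⟩
        have h0 : g 0 = v + y' := by rw [hga 0, Matrix.mulVec_zero, zero_add]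
        refine ⟨?_, ?_⟩
        · show g 0 - v ∈ sg L
          rw [h0, add_sub_cancel_left]
          exact hy'
        · intro i
          show |g 0 i - v i| ≤ _
          refine (abs_sub _ _).trans (add_le_add (hg i) ?_)
          exact Finset.single_le_sum (f := fun i => |v i|) (fun i _ => abs_nonneg _)
            (Finset.mem_univ i)
      · rintro g ⟨-, y1, -, hg1⟩ g' ⟨-, y2, -, hg2⟩ hgg
        have e1 : g 0 = v + y1 := by rw [hg1 0, Matrix.mulVec_zero, zero_add]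
        have e2 : g' 0 = v + y2 := by rw [hg2 0, Matrix.mulVec_zero, zero_add]
        have e3 : y1 = y2 := by
          have : g 0 - v = g' 0 - v := hgg
          rw [e1, e2, add_sub_cancel_left, add_sub_cancel_left] at this
          exact this
        ext1 z
        rw [hg1 z, hg2 z, e3]
    refine hfin.subset ?_
    rintro g ⟨hg, hR⟩
    obtain ⟨p, hp, y', hy', hga⟩ := Row.form hok ht hg
    simp only [Set.mem_iUnion]
    exact ⟨p, hp, hR, y', Tw_le hf hy', hga⟩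

/-- The excluded parameters are really excluded: some representative outside the stabiliser has
its translation part in the lattice. -/
theorem exc_contra {r : Row} {f : Fam} {L : LatE} (hf : famOK r f L = true)
    (he : excOK r f L = true) {n : IV} {x y : ℝ} (hx : f.Excl x y) :
    ∃ p ∈ r.nl, L.Mem (p.X.mat *ᵥ f.pt n x y) := by
  obtain ⟨h1, h2, h3, h4, h5⟩ := fam_facts hf
  obtain ⟨it, hit, hq⟩ := hx
  simp only [excOK, List.all_eq_true, List.any_eq_true, Bool.and_eq_true, decide_eq_true_eq,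
    Bool.or_eq_true] at he
  obtain ⟨p, hp, hE, hc⟩ := he it hit
  obtain ⟨a, b, c, d, e, -⟩ := h5 p hp
  refine ⟨p, hp, ?_⟩
  rw [← mem_sg, X_pt]
  refine add_mem ?_ (T_mem h1 n c d e)
  rw [mem_iff h1 a b]
  refine ⟨hE, fun c' hc' => ?_⟩
  rcases hc c' hc' with h | ⟨q, hq', h⟩
  · exact always_holds h
  · exact imp_holds (hq q hq') h

end Pool.Agent.H21.FT
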