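import Pool.Agent.H21.FT.C1Defs
import Pool.Agent.H21.FT.RowFacts
import Pool.Agent.H21.FT.FamSound

/-!
# The checker for the rigid rows is sound
-/

namespace Pool.Agent.H21.FT

open Matrix

/-! ### Integer vectors and real vectors -/

theorem c1_mv_vec (M : IM) (v : IV) : M.mat *ᵥ v.vec = (M.mv v).vec := by
  ext i
  fin_cases i <;>
    simp [IM.mv, IM.mat, IV.vec, IV.dot, Matrix.mulVec, dotProduct, Fin.sum_univ_three]

theorem c1_add_vec (v w : IV) : (v.add w).vec = v.vec + w.vec := by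
  ext i
  fin_cases i <;> simp [IV.vec, IV.add]

theorem c1_sub_vec (v w : IV) : (v.sub w).vec = v.vec - w.vec := by
  ext i
  fin_cases i <;> simp [IV.vec, IV.sub]

theorem c1_smul_vec (c : ℤ) (v : IV) : (v.smul c).vec = (c : ℝ) • v.vec := by
  ext i
  fin_cases i <;> simp [IV.vec, IV.smul]

theorem c1_vec_inj {v w : IV} (h : v.vec = w.vec) : v = w := by
  obtain ⟨a, b, c⟩ := v
  obtain ⟨a', b', c'⟩ := w
  have e0 := congrFun h 0
  have e1 := congrFun h 1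
  have e2 := congrFun h 2
  simp [IV.vec] at e0 e1 e2
  subst e0 e1 e2
  rfl

theorem c1_zero_vec : (⟨0, 0, 0⟩ : IV).vec = 0 := by
  ext i
  fin_cases i <;> simp [IV.vec]

/-! ### Membership in a lattice and the divisibility check -/

theorem c1_div_def {L : LatE} {N : ℤ} {y : IV} : L.div N y = true ↔
    (N ∣ (L.D.mv y).x ∧ N ∣ (L.D.mv y).y ∧ N ∣ (L.D.mv y).z) ∧ L.E.mv y = ⟨0, 0, 0⟩ := by
  simp only [LatE.div, Bool.and_eq_true, decide_eq_true_eq]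
  tauto

theorem c1_div_iff {L : LatE} {e : ℤ} (he : 0 < e) (y : IV) :
    L.div (L.m * e) y = true ↔ L.Mem ((e : ℝ)⁻¹ • y.vec) := by
  have he' : (e : ℝ) ≠ 0 := by exact_mod_cast he.ne'
  rw [c1_div_def, LatE.Mem, mulVec_smul, mulVec_smul, c1_mv_vec, c1_mv_vec]
  refine and_congr ?_ ?_
  · constructor
    · rintro ⟨⟨a, ha⟩, ⟨b, hb⟩, ⟨c, hc⟩⟩
      refine ⟨⟨a, b, c⟩, ?_⟩
      ext i
      fin_cases i
      · simp [IV.vec, ha]
        field_simp
      · simp [IV.vec, hb]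
        field_simp
      · simp [IV.vec, hc]
        field_simp
    · rintro ⟨⟨a, b, c⟩, h⟩
      have e0 := congrFun h 0
      have e1 := congrFun h 1
      have e2 := congrFun h 2
      simp [IV.vec] at e0 e1 e2
      refine ⟨⟨a, ?_⟩, ⟨b, ?_⟩, ⟨c, ?_⟩⟩
      · have : ((L.D.mv y).x : ℝ) = L.m * e * a := by
          field_simp at e0
          linarith
        exact_mod_cast this
      · have : ((L.D.mv y).y : ℝ) = L.m * e * b := by
          field_simp at e1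
          linarith
        exact_mod_cast this
      · have : ((L.D.mv y).z : ℝ) = L.m * e * c := by
          field_simp at e2
          linarith
        exact_mod_cast this
  · rw [smul_eq_zero_iff_right (inv_ne_zero he')]
    constructor
    · intro h
      rw [h, c1_zero_vec]
    · intro h
      apply c1_vec_inj
      rw [h, c1_zero_vec]

theorem c1_toE_mem (L : LatD) (y : V3) : L.toE.Mem y ↔ L.Mem y := by
  rw [LatE.Mem, LatD.Mem, LatD.toE]
  refine and_congr Iff.rfl ?_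
  constructor
  · intro h hf
    have h0 := congrFun h 0
    simp [hf, IM.mat, Matrix.mulVec, dotProduct, Fin.sum_univ_three] at h0
    exact h0
  · intro h
    by_cases hf : L.flat = true
    · have h2 := h hf
      ext i
      fin_cases i <;> simp [hf, IM.mat, Matrix.mulVec, dotProduct, Fin.sum_univ_three, h2]
    · simp only [hf]
      change IM.zero.mat *ᵥ y = 0
      rw [rf_zero_mat, zero_mulVec]

theorem c1_mem_zero (L : LatE) : L.Mem 0 := by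
  refine ⟨⟨⟨0, 0, 0⟩, ?_⟩, ?_⟩
  · rw [mulVec_zero, c1_zero_vec, smul_zero]
  · rw [mulVec_zero]

theorem c1_mem_add {L : LatE} {y z : V3} (hy : L.Mem y) (hz : L.Mem z) : L.Mem (y + z) := by
  obtain ⟨⟨k, hk⟩, h⟩ := hy
  obtain ⟨⟨k', hk'⟩, h'⟩ := hz
  refine ⟨⟨k.add k', ?_⟩, ?_⟩
  · rw [mulVec_add, hk, hk', c1_add_vec, smul_add]
  · rw [mulVec_add, h, h', add_zero]

theorem c1_mem_neg {L : LatE} {y : V3} (hy : L.Mem y) : L.Mem (-y) := by
  obtain ⟨⟨k, hk⟩, h⟩ := hy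
  refine ⟨⟨k.smul (-1), ?_⟩, ?_⟩
  · rw [mulVec_neg, hk, c1_smul_vec]
    push_cast
    module
  · rw [mulVec_neg, h, neg_zero]

/-- The group generated by the vectors `X p` is contained in a lattice if the vectors are. -/
theorem c1_Tw_le {r : Row} {L : LatE} {p : V3} (h : ∀ X ∈ r.sch, L.Mem (X.mat *ᵥ p)) :
    ∀ y ∈ r.Tw p, L.Mem y := by
  intro y hy
  induction hy using AddSubgroup.closure_induction with
  | mem y hy =>
    obtain ⟨X, hX, rfl⟩ := hy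
    exact h X hX
  | zero => exact c1_mem_zero L
  | add y z _ _ h1 h2 => exact c1_mem_add h1 h2
  | neg y _ h1 => exact c1_mem_neg h1

/-- The vectors `X p` have third coordinate `0`. -/
theorem c1_Tw_flat {r : Row} {p : V3} (h : ∀ X ∈ r.sch, X.c = ⟨0, 0, 0⟩) :
    ∀ y ∈ r.Tw p, y 2 = 0 := by
  intro y hy
  induction hy using AddSubgroup.closure_induction with
  | mem y hy =>
    obtain ⟨X, hX, rfl⟩ := hy
    simp [IM.mat, Matrix.mulVec, dotProduct, Fin.sum_univ_three, h X hX]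
  | zero => rfl
  | add y z _ _ h1 h2 => simp [h1, h2]
  | neg y _ h1 => simp [h1]

/-! ### Linearity of the checks -/

theorem c1_mv_add (M : IM) (v w : IV) : M.mv (v.add w) = (M.mv v).add (M.mv w) := by
  simp only [IM.mv, IV.add, IV.dot, IV.mk.injEq]
  refine ⟨by ring, by ring, by ring⟩

theorem c1_mv_smul (M : IM) (a : ℤ) (v : IV) : M.mv (v.smul a) = (M.mv v).smul a := by
  simp only [IM.mv, IV.smul, IV.dot, IV.mk.injEq]
  refine ⟨by ring, by ring, by ring⟩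

theorem c1_div_lin {L : LatE} {N a : ℤ} {y z : IV} (hz : L.div N z = true) :
    L.div N (y.add (z.smul a)) = L.div N y := by
  rw [c1_div_def] at hz
  obtain ⟨⟨h1, h2, h3⟩, h4⟩ := hz
  rw [Bool.eq_iff_iff, c1_div_def, c1_div_def, c1_mv_add, c1_mv_smul, c1_mv_add, c1_mv_smul, h4]
  refine and_congr (and_congr ?_ (and_congr ?_ ?_)) ?_
  · simp only [IV.add, IV.smul]
    exact dvd_add_left (Dvd.dvd.mul_left h1 a)
  · simp only [IV.add, IV.smul]
    exact dvd_add_left (Dvd.dvd.mul_left h2 a)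
  · simp only [IV.add, IV.smul]
    exact dvd_add_left (Dvd.dvd.mul_left h3 a)
  · obtain ⟨a', b', c'⟩ := L.E.mv y
    simp [IV.add, IV.smul]

theorem c1_div_mv_lin {L : LatE} {N a : ℤ} {X : IM} {y z : IV} (hz : L.div N (X.mv z) = true) :
    L.div N (X.mv (y.add (z.smul a))) = L.div N (X.mv y) := by
  rw [c1_mv_add, c1_mv_smul, c1_div_lin hz]

theorem c1_covers_lin {k : Kind} {N : ℤ} {f : Fam} {W : IM} {cw s a : ℤ} {P Q : IV}
    (hQ : coversShift k N f W cw s Q = true) (hP : covers k N f W cw s P = true) :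
    covers k N f W cw s (P.add (Q.smul a)) = true := by
  simp only [covers, coversShift, Bool.and_eq_true, Bool.or_eq_true, decide_eq_true_eq] at hP hQ ⊢
  obtain ⟨⟨⟨h0, h1⟩, h2⟩, h3⟩ := hP
  obtain ⟨⟨⟨g0, g1⟩, g2⟩, g3⟩ := hQ
  have key : ((scl k s (P.add (Q.smul a))).smul f.den).sub (f.v.smul N) =
      (((scl k s P).smul f.den).sub (f.v.smul N)).add (((scl k s Q).smul f.den).smul a) := by
    simp only [scl, IV.add, IV.smul, IV.sub, IV.mk.injEq]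
    refine ⟨by ring, by ring, by ring⟩
  have hd : ∀ v y z : IV, v.dot (y.add (z.smul a)) = v.dot y + a * v.dot z := by
    intro v y z
    simp only [IV.dot, IV.add, IV.smul]
    ring
  rw [key, hd, hd, hd]
  refine ⟨⟨⟨?_, ?_⟩, ?_⟩, ?_⟩
  · rcases h0 with h0 | h0
    · exact Or.inl h0
    · rcases g0 with g0 | g0
      · exact Or.inl g0
      · right
        simp only [IV.add, IV.smul] at h0 g0 ⊢
        rw [h0, g0]
        ring
  · exact dvd_add h1 (Dvd.dvd.mul_left g1 a)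
  · exact dvd_add h2 (Dvd.dvd.mul_left g2 a)
  · exact dvd_add h3 (Dvd.dvd.mul_left g3 a)

/-- The property of `P` that is checked. -/
def C1Cls (k : Kind) (r : Row) (fams : List Fam) (ws : List (IM × ℤ × IV)) (L : LatE) (c : C1L)
    (N : ℤ) (P : IV) : Prop :=
  (∃ X ∈ c.xs, ¬ L.div (L.m * N) (X.mv P) = true) ∨
  (∃ p ∈ c.bad, L.div (L.m * N) (p.X.mv P) = true) ∨
  (∃ l ∈ c.subs, ∀ X ∈ r.sch, l.1.div (l.1.m * N) (X.mv P) = true) ∨
  (∃ js ∈ c.cov, ∃ f w, fams[js.1]? = some f ∧ ws[js.1]? = some w ∧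
    covers k N f w.1 w.2.1 js.2 P = true)

/-- The property of the shift `Q` that is checked. -/
def C1Shf (k : Kind) (r : Row) (fams : List Fam) (ws : List (IM × ℤ × IV)) (L : LatE) (c : C1L)
    (N : ℤ) (Q : IV) : Prop :=
  (∀ X ∈ c.xs, L.div (L.m * N) (X.mv Q) = true) ∧
  (∀ p ∈ c.bad, L.div (L.m * N) (p.X.mv Q) = true) ∧
  (∀ l ∈ c.subs, ∀ X ∈ r.sch, l.1.div (l.1.m * N) (X.mv Q) = true) ∧
  (∀ js ∈ c.cov, ∀ f w, fams[js.1]? = some f → ws[js.1]? = some w →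
    coversShift k N f w.1 w.2.1 js.2 Q = true)

theorem c1_cls_shift {k : Kind} {r : Row} {fams : List Fam} {ws : List (IM × ℤ × IV)} {L : LatE}
    {c : C1L} {N : ℤ} {P Q : IV} (hP : C1Cls k r fams ws L c N P) (hQ : C1Shf k r fams ws L c N Q)
    (a : ℤ) : C1Cls k r fams ws L c N (P.add (Q.smul a)) := by
  obtain ⟨q1, q2, q3, q4⟩ := hQ
  rcases hP with ⟨X, hX, h⟩ | ⟨p, hp, h⟩ | ⟨l, hl, h⟩ | ⟨js, hjs, f, w, hf, hw, h⟩
  · left
    refine ⟨X, hX, ?_⟩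
    rw [c1_div_mv_lin (q1 X hX)]
    exact h
  · right; left
    refine ⟨p, hp, ?_⟩
    rw [c1_div_mv_lin (q2 p hp)]
    exact h
  · right; right; left
    refine ⟨l, hl, fun X hX => ?_⟩
    rw [c1_div_mv_lin (q3 l hl X hX)]
    exact h X hX
  · right; right; right
    exact ⟨js, hjs, f, w, hf, hw, c1_covers_lin (q4 js hjs f w hf hw) h⟩

theorem c1_class {k : Kind} {r : Row} {fams : List Fam} {C : C1Cert} {L : LatE} {c : C1L} {n : IV}
    (h : c.class k r fams C L n = true) : C1Cls k r fams C.ws L c (C.N c) (C.P c n) := by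
  simp only [C1L.class, Bool.or_eq_true, List.any_eq_true, List.all_eq_true,
    Bool.not_eq_eq_eq_not, Bool.not_true] at h
  rcases h with ((⟨X, hX, h⟩ | ⟨p, hp, h⟩) | ⟨l, hl, h⟩) | ⟨js, hjs, h⟩
  · left
    refine ⟨X, hX, ?_⟩
    rw [h]
    exact Bool.false_ne_true
  · right; left
    exact ⟨p, hp, h⟩
  · right; right; left
    exact ⟨l, hl, h⟩
  · right; right; right
    refine ⟨js, hjs, ?_⟩
    rcases hf : fams[js.1]? with _ | f
    · rw [hf] at h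
      simp at h
    · rcases hw : C.ws[js.1]? with _ | w
      · rw [hf, hw] at h
        simp at h
      · rw [hf, hw] at h
        exact ⟨f, w, rfl, rfl, h⟩

theorem c1_shift {k : Kind} {r : Row} {fams : List Fam} {C : C1Cert} {L : LatE} {c : C1L} {n : IV}
    (h : c.shift k r fams C L n = true) :
    C1Shf k r fams C.ws L c (C.N c) ((C.Eh.mv n).smul C.wd) := by
  simp only [C1L.shift, Bool.and_eq_true, List.all_eq_true] at h
  obtain ⟨⟨⟨h1, h2⟩, h3⟩, h4⟩ := h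
  refine ⟨h1, h2, h3, ?_⟩
  intro js hjs f w hf hw
  have h5 := h4 js hjs
  rw [hf, hw] at h5
  exact h5

/-! ### Denominators -/

/-- The adjugate check: the vectors of the lattice have denominators dividing `q`. -/
theorem c1_denom {a b e : IV} {m q : ℤ}
    (hdt : a.dot ⟨b.y * e.z - b.z * e.y, b.z * e.x - b.x * e.z, b.x * e.y - b.y * e.x⟩ ≠ 0)
    (h1 : a.dot ⟨b.y * e.z - b.z * e.y, b.z * e.x - b.x * e.z, b.x * e.y - b.y * e.x⟩ ∣
      m * q * (b.y * e.z - b.z * e.y))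
    (h2 : a.dot ⟨b.y * e.z - b.z * e.y, b.z * e.x - b.x * e.z, b.x * e.y - b.y * e.x⟩ ∣
      m * q * (b.z * e.x - b.x * e.z))
    (h3 : a.dot ⟨b.y * e.z - b.z * e.y, b.z * e.x - b.x * e.z, b.x * e.y - b.y * e.x⟩ ∣
      m * q * (b.x * e.y - b.y * e.x))
    (h4 : a.dot ⟨b.y * e.z - b.z * e.y, b.z * e.x - b.x * e.z, b.x * e.y - b.y * e.x⟩ ∣
      m * q * (e.y * a.z - e.z * a.y))
    (h5 : a.dot ⟨b.y * e.z - b.z * e.y, b.z * e.x - b.x * e.z, b.x * e.y - b.y * e.x⟩ ∣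
      m * q * (e.z * a.x - e.x * a.z))
    (h6 : a.dot ⟨b.y * e.z - b.z * e.y, b.z * e.x - b.x * e.z, b.x * e.y - b.y * e.x⟩ ∣
      m * q * (e.x * a.y - e.y * a.x))
    (h7 : a.dot ⟨b.y * e.z - b.z * e.y, b.z * e.x - b.x * e.z, b.x * e.y - b.y * e.x⟩ ∣
      m * q * (a.y * b.z - a.z * b.y))
    (h8 : a.dot ⟨b.y * e.z - b.z * e.y, b.z * e.x - b.x * e.z, b.x * e.y - b.y * e.x⟩ ∣
      m * q * (a.z * b.x - a.x * b.z))
    (h9 : a.dot ⟨b.y * e.z - b.z * e.y, b.z * e.x - b.x * e.z, b.x * e.y - b.y * e.x⟩ ∣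
      m * q * (a.x * b.y - a.y * b.x))
    {y : V3} {k : IV} (hy : (IM.mk a b e).mat *ᵥ y = (m : ℝ) • k.vec) :
    ∃ n : IV, (q : ℝ) • y = n.vec := by
  set dt := a.dot ⟨b.y * e.z - b.z * e.y, b.z * e.x - b.x * e.z, b.x * e.y - b.y * e.x⟩ with hdte
  obtain ⟨u1, h1⟩ := h1
  obtain ⟨u2, h2⟩ := h2
  obtain ⟨u3, h3⟩ := h3
  obtain ⟨u4, h4⟩ := h4
  obtain ⟨u5, h5⟩ := h5
  obtain ⟨u6, h6⟩ := h6
  obtain ⟨u7, h7⟩ := h7
  obtain ⟨u8, h8⟩ := h8
  obtain ⟨u9, h9⟩ := h9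
  have hdt' : (dt : ℝ) ≠ 0 := by exact_mod_cast hdt
  have hdr : (dt : ℝ) = a.x * (b.y * e.z - b.z * e.y) + a.y * (b.z * e.x - b.x * e.z) +
      a.z * (b.x * e.y - b.y * e.x) := by
    rw [hdte]
    simp only [IV.dot]
    push_cast
    ring
  have e0 := congrFun hy 0
  have e1 := congrFun hy 1
  have e2 := congrFun hy 2
  simp [IV.vec, IM.mat, Matrix.mulVec, dotProduct, Fin.sum_univ_three] at e0 e1 e2
  have c1 : (m : ℝ) * q * (b.y * e.z - b.z * e.y) = dt * u1 := by exact_mod_cast h1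
  have c2 : (m : ℝ) * q * (b.z * e.x - b.x * e.z) = dt * u2 := by exact_mod_cast h2
  have c3 : (m : ℝ) * q * (b.x * e.y - b.y * e.x) = dt * u3 := by exact_mod_cast h3
  have c4 : (m : ℝ) * q * (e.y * a.z - e.z * a.y) = dt * u4 := by exact_mod_cast h4
  have c5 : (m : ℝ) * q * (e.z * a.x - e.x * a.z) = dt * u5 := by exact_mod_cast h5
  have c6 : (m : ℝ) * q * (e.x * a.y - e.y * a.x) = dt * u6 := by exact_mod_cast h6
  have c7 : (m : ℝ) * q * (a.y * b.z - a.z * b.y) = dt * u7 := by exact_mod_cast h7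
  have c8 : (m : ℝ) * q * (a.z * b.x - a.x * b.z) = dt * u8 := by exact_mod_cast h8
  have c9 : (m : ℝ) * q * (a.x * b.y - a.y * b.x) = dt * u9 := by exact_mod_cast h9
  refine ⟨⟨u1 * k.x + u4 * k.y + u7 * k.z, u2 * k.x + u5 * k.y + u8 * k.z,
    u3 * k.x + u6 * k.y + u9 * k.z⟩, ?_⟩
  ext i
  fin_cases i
  · simp [IV.vec]
    apply mul_left_cancel₀ hdt'
    linear_combination q * y 0 * hdr + q * (b.y * e.z - b.z * e.y : ℝ) * e0 +
      q * (e.y * a.z - e.z * a.y : ℝ) * e1 + q * (a.y * b.z - a.z * b.y : ℝ) * e2 +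
      k.x * c1 + k.y * c4 + k.z * c7
  · simp [IV.vec]
    apply mul_left_cancel₀ hdt'
    linear_combination q * y 1 * hdr + q * (b.z * e.x - b.x * e.z : ℝ) * e0 +
      q * (e.z * a.x - e.x * a.z : ℝ) * e1 + q * (a.z * b.x - a.x * b.z : ℝ) * e2 +
      k.x * c2 + k.y * c5 + k.z * c8
  · simp [IV.vec]
    apply mul_left_cancel₀ hdt'
    linear_combination q * y 2 * hdr + q * (b.x * e.y - b.y * e.x : ℝ) * e0 +
      q * (e.x * a.y - e.y * a.x : ℝ) * e1 + q * (a.x * b.y - a.y * b.x : ℝ) * e2 +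
      k.x * c3 + k.y * c6 + k.z * c9

theorem c1_fold {q : ℤ} {p : V3} (l : List (IM × IM))
    (hl : ∀ x ∈ l, ∃ n : IV, (q : ℝ) • (x.2.mat *ᵥ p) = n.vec) : ∀ acc : IM,
    (∃ n : IV, (q : ℝ) • (acc.mat *ᵥ p) = n.vec) →
    ∃ n : IV, (q : ℝ) • ((l.foldl (fun acc x => acc.add (x.1.mul x.2)) acc).mat *ᵥ p) = n.vec := by
  induction l with
  | nil => exact fun acc h => h
  | cons x l ih =>
    intro acc hacc
    rw [List.foldl_cons]
    apply ih (fun y hy => hl y (List.mem_cons_of_mem _ hy))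
    obtain ⟨n, hn⟩ := hacc
    obtain ⟨n', hn'⟩ := hl x List.mem_cons_self
    refine ⟨n.add (x.1.mv n'), ?_⟩
    rw [rf_add_mat, rf_mul_mat, add_mulVec, ← mulVec_mulVec, smul_add, hn, ← mulVec_smul, hn',
      c1_mv_vec, c1_add_vec]

/-! ### The form of `p` -/

theorem c1_outer_mulVec (v w : IV) (y : V3) :
    (outer v w).mat *ᵥ y = (w.vec ⬝ᵥ y) • v.vec := by
  ext i
  fin_cases i <;>
    simp [outer, IV.smul, IM.mat, IV.vec, Matrix.mulVec, dotProduct, Fin.sum_univ_three] <;> ring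

theorem c1_outer_mv (v w y : IV) : (outer v w).mv y = v.smul (w.dot y) := by
  simp only [outer, IV.smul, IM.mv, IV.dot, IV.mk.injEq]
  refine ⟨by ring, by ring, by ring⟩

theorem c1_jmat_mulVec (k : Kind) (c : ℤ) (y : V3) :
    (jmat k c).mat *ᵥ y = (c : ℝ) • ![y 0, y 1, if k = .cub then y 2 else 0] := by
  by_cases hk : k = .cub
  · ext i
    fin_cases i <;>
      simp [jmat, hk, IM.mat, Matrix.mulVec, dotProduct, Fin.sum_univ_three]
  · ext i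
    fin_cases i <;>
      simp [jmat, hk, IM.mat, Matrix.mulVec, dotProduct, Fin.sum_univ_three]

theorem c1_jmat_mv {k : Kind} {c : ℤ} {y : IV} (h : k = .cub ∨ y.z = 0) :
    (jmat k c).mv y = y.smul c := by
  by_cases hk : k = .cub
  · simp [jmat, hk, IM.mv, IV.dot, IV.smul]
  · have hz : y.z = 0 := h.resolve_left hk
    simp [jmat, hk, IM.mv, IV.dot, IV.smul, hz]

theorem c1_p_eq {k : Kind} {C : C1Cert} {c : C1L} {p : V3} {n : IV} (hd : 0 < C.d)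
    (hw : 0 < C.wd) (hq : 0 < c.q)
    (hcomb : (C.Eh.mul C.F).add (outer C.K C.G) = jmat k C.d)
    (hk : (k = .cub ∧ C.wn = 0) ∨ (k ≠ .cub ∧ C.K = ⟨0, 0, 0⟩))
    (hn : (c.q : ℝ) • (C.F.mat *ᵥ p) = n.vec)
    (hz : k ≠ .cub → p 2 = (C.wn : ℝ) / C.wd) :
    ∃ x : ℝ, p = ((C.N c : ℤ) : ℝ)⁻¹ • (C.P c n).vec + x • C.K.vec := by
  have hd' : (C.d : ℝ) ≠ 0 := by exact_mod_cast hd.ne'
  have hw' : (C.wd : ℝ) ≠ 0 := by exact_mod_cast hw.ne'
  have hq' : (c.q : ℝ) ≠ 0 := by exact_mod_cast hq.ne'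
  have e1 : (C.Eh.mv n).vec + (c.q * (C.G.vec ⬝ᵥ p)) • C.K.vec =
      (c.q * C.d : ℝ) • ![p 0, p 1, if k = .cub then p 2 else 0] := by
    have h1 : ((C.Eh.mul C.F).add (outer C.K C.G)).mat *ᵥ p = (jmat k C.d).mat *ᵥ p := by
      rw [hcomb]
    rw [rf_add_mat, rf_mul_mat, add_mulVec, ← mulVec_mulVec, c1_outer_mulVec,
      c1_jmat_mulVec] at h1
    rw [mul_smul, mul_smul, ← h1, smul_add, ← mulVec_smul, hn, c1_mv_vec]
  refine ⟨(C.G.vec ⬝ᵥ p) / C.d, ?_⟩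
  set g := C.G.vec ⬝ᵥ p
  have h0 := congrFun e1 0
  have h1 := congrFun e1 1
  have h2 := congrFun e1 2
  rcases hk with ⟨hk, hwn⟩ | ⟨hk, hK⟩
  · simp [hk, IV.vec] at h0 h1 h2
    ext i
    fin_cases i
    · simp [IV.vec, C1Cert.P, C1Cert.N, IV.add, IV.smul]
      field_simp
      linear_combination -h0
    · simp [IV.vec, C1Cert.P, C1Cert.N, IV.add, IV.smul]
      field_simp
      linear_combination -h1
    · simp [IV.vec, C1Cert.P, C1Cert.N, IV.add, IV.smul, hwn]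
      field_simp
      linear_combination -h2
  · have hz' := hz hk
    simp [hk, IV.vec, hK] at h0 h1 h2
    ext i
    fin_cases i
    · simp [IV.vec, C1Cert.P, C1Cert.N, IV.add, IV.smul, hK]
      field_simp
      linear_combination -h0
    · simp [IV.vec, C1Cert.P, C1Cert.N, IV.add, IV.smul, hK]
      field_simp
      linear_combination -h1
    · simp [IV.vec, C1Cert.P, C1Cert.N, IV.add, IV.smul, hK, h2]
      rw [hz']
      field_simp

/-- scaling of the coordinates by `σ` (of the first two only, if the kind is not cubic) -/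
def sclR (k : Kind) (σ : ℝ) (v : V3) : V3 := ![σ * v 0, σ * v 1, if k = .cub then σ * v 2 else v 2]

theorem c1_cov {k : Kind} {N : ℤ} (hN : 0 < N) {f : Fam} (hden : 0 < f.den) {K : IV}
    {w : IM × ℤ × IV} {s : ℤ} (hcw : 0 < w.2.1) (hK1 : f.K1 = K)
    (hK2 : f.K2 = ⟨0, 0, 0⟩)
    (hW : (((outer f.T1 w.1.a).add (outer f.T2 w.1.b)).add (outer f.T3 w.1.c)).add
      (outer K w.2.2) = jmat k w.2.1)
    (hKk : k = .cub ∨ K = ⟨0, 0, 0⟩) {P : IV} (hc : covers k N f w.1 w.2.1 s P = true) (x : ℝ) :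
    ∃ n' x', sclR k s ((N : ℝ)⁻¹ • P.vec + x • K.vec) = f.pt n' x' 0 := by
  obtain ⟨W, cw, G'⟩ := w
  simp only at hcw hW hc
  simp only [covers, Bool.and_eq_true, Bool.or_eq_true, decide_eq_true_eq] at hc
  set Y := ((scl k s P).smul f.den).sub (f.v.smul N) with hYdef
  obtain ⟨⟨⟨h0, n1, h1⟩, n2, h2⟩, n3, h3⟩ := hc
  have hN' : (N : ℝ) ≠ 0 := by exact_mod_cast hN.ne'
  have hden' : (f.den : ℝ) ≠ 0 := by exact_mod_cast hden.ne'
  have hcw' : (cw : ℝ) ≠ 0 := by exact_mod_cast hcw.ne'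
  have e1 : (jmat k cw).mv Y = Y.smul cw := c1_jmat_mv h0
  rw [← hW] at e1
  have hadd : ∀ (M M' : IM) (y : IV), (M.add M').mv y = (M.mv y).add (M'.mv y) := by
    intro M M' y
    simp only [IM.add, IM.mv, IV.dot, IV.add, IV.mk.injEq]
    refine ⟨by ring, by ring, by ring⟩
  rw [hadd, hadd, hadd, c1_outer_mv, c1_outer_mv, c1_outer_mv, c1_outer_mv, h1, h2, h3] at e1
  have e2 := congrArg IV.vec e1
  rw [c1_add_vec, c1_add_vec, c1_add_vec, c1_smul_vec, c1_smul_vec, c1_smul_vec, c1_smul_vec,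
    c1_smul_vec, hYdef, c1_sub_vec, c1_smul_vec, c1_smul_vec] at e2
  rw [← hYdef] at e2
  refine ⟨⟨n1, n2, n3⟩, s * x + (G'.dot Y : ℝ) / (cw * N * f.den), ?_⟩
  have e3 : sclR k s ((N : ℝ)⁻¹ • P.vec + x • K.vec) =
      (N : ℝ)⁻¹ • (scl k s P).vec + ((s : ℝ) * x) • K.vec := by
    rcases hKk with hk | hK
    · ext i
      fin_cases i <;> simp [sclR, scl, IV.vec, hk] <;> ring
    · by_cases hk : k = .cub
      · ext i
        fin_cases i <;> simp [sclR, scl, IV.vec, hk] <;> ring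
      · ext i
        fin_cases i
        · simp [sclR, scl, IV.vec, hK]
          ring
        · simp [sclR, scl, IV.vec, hK]
          ring
        · simp [sclR, scl, IV.vec, hK, hk]
  rw [e3, Fam.pt, hK1, hK2]
  ext i
  have e4 := congrFun e2 i
  simp only [Pi.add_apply, Pi.smul_apply, Pi.sub_apply, smul_eq_mul, c1_zero_vec,
    Pi.zero_apply] at e4 ⊢
  push_cast at e4 ⊢
  field_simp
  linear_combination -e4

theorem c1_sclR_inv {k : Kind} {s : ℝ} (hs : s ≠ 0) (v : V3) : sclR k s⁻¹ (sclR k s v) = v := by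
  ext i
  by_cases hk : k = .cub
  · fin_cases i <;> simp [sclR, hk, hs]
  · fin_cases i <;> simp [sclR, hk, hs]

theorem c1_sclR_one {k : Kind} (v : V3) : sclR k 1 v = v := by
  ext i
  by_cases hk : k = .cub
  · fin_cases i <;> simp [sclR]
  · fin_cases i <;> simp [sclR]

/-! ### The verdicts -/

theorem c1_absInv {r : Row} {L : LatE} {p : V3} (hT : ∀ y, y ∈ r.Tw p ↔ L.Mem y)
    (hinv : ∀ q ∈ r.reps, ∀ y ∈ r.Tw p, q.M.mat *ᵥ y ∈ r.Tw p) {M : IM} {y : IV} {e : ℤ}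
    (hM : ∃ q ∈ r.reps, q.M = M) (he : 0 < e) (h1 : L.div (L.m * e) y = true)
    (h2 : ¬ L.div (L.m * e) (M.mv y) = true) : False := by
  obtain ⟨q, hq, rfl⟩ := hM
  apply h2
  rw [c1_div_iff he, ← c1_mv_vec, ← mulVec_smul, ← hT]
  apply hinv q hq
  rw [hT, ← c1_div_iff he]
  exact h1

theorem c1_absFlat {r : Row} {L : LatE} {p : V3} (hT : ∀ y, y ∈ r.Tw p ↔ L.Mem y)
    {y : IV} {e : ℤ} (he : 0 < e) (h1 : L.div (L.m * e) y = true) (hy : y.z ≠ 0)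
    (h2 : ∀ X ∈ r.sch, X.c = ⟨0, 0, 0⟩) : False := by
  have he' : (e : ℝ) ≠ 0 := by exact_mod_cast he.ne'
  rw [c1_div_iff he, ← hT] at h1
  have h3 := c1_Tw_flat h2 _ h1
  simp [IV.vec, he', hy] at h3

theorem c1_absZ {r : Row} {L : LatE} {p : V3} (hT : ∀ y, y ∈ r.Tw p ↔ L.Mem y)
    {wn wd : ℤ} (hw : 0 < wd) (hz : p 2 = (wn : ℝ) / wd) {X : IM} (hX : X ∈ r.sch)
    (hE : L.E.a = ⟨0, 0, 1⟩) (hx : X.c.x = 0) (hy : X.c.y = 0) (hz' : X.c.z ≠ 0) (hwn : wn ≠ 0) :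
    False := by
  have hw' : (wd : ℝ) ≠ 0 := by exact_mod_cast hw.ne'
  have h1 : X.mat *ᵥ p ∈ r.Tw p := AddSubgroup.subset_closure ⟨X, hX, rfl⟩
  have h2 := ((hT _).1 h1).2
  have h3 := congrFun h2 0
  simp [IM.mat, Matrix.mulVec, dotProduct, Fin.sum_univ_three, hE, hx, hy, hz, hz', hwn, hw'] at h3

theorem c1_cls_sound {k : Kind} {b : Block} {r : Row} {lats : List LatE}
    (hb : BlockOK k b (r, lats)) {L : LatE} {p : V3} (hT : ∀ y, y ∈ r.Tw p ↔ L.Mem y)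
    (hn : ∀ q ∈ r.nl, q.X.mat *ᵥ p ∉ r.Tw p) {K : IV} {ws : List (IM × ℤ × IV)} {c : C1L}
    (hKk : k = .cub ∨ K = ⟨0, 0, 0⟩)
    (hKs : ∀ X ∈ r.sch, X.mv K = ⟨0, 0, 0⟩)
    (hws : ws.length = b.fams.length)
    (hfw : ∀ fw ∈ b.fams.zip ws, ((0 < fw.2.2.1 ∧ fw.1.K1 = K) ∧ fw.1.K2 = ⟨0, 0, 0⟩) ∧
      (((outer fw.1.T1 fw.2.1.a).add (outer fw.1.T2 fw.2.1.b)).add
      (outer fw.1.T3 fw.2.1.c)).add (outer K fw.2.2.2) = jmat k fw.2.2.1)
    (hxs : ∀ X ∈ c.xs, X ∈ r.sch) (hbad : ∀ q ∈ c.bad, q ∈ r.nl ∧ q.X.mv K = ⟨0, 0, 0⟩)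
    (hsubs : ∀ l ∈ c.subs, ((0 < l.2.2 ∧ 0 < l.1.m) ∧ L.div (L.m * l.2.2) l.2.1 = true) ∧
      ¬ l.1.div (l.1.m * l.2.2) l.2.1 = true)
    (hcov : ∀ js ∈ c.cov, 0 < js.2 ∧ ∃ f l, b.fams[js.1]? = some f ∧ lats[js.1]? = some l ∧
      (f.exc = [] ∨ (js.2 = 1 ∧ l = L)))
    {N : ℤ} (hN : 0 < N) {P : IV} {x : ℝ} (hp : p = (N : ℝ)⁻¹ • P.vec + x • K.vec)
    (hC : C1Cls k r b.fams ws L c N P) :
    ∃ f ∈ b.fams, ∃ σ : ℝ, 0 < σ ∧ ∃ n x y, ¬ f.Excl x y ∧ p = sclR k σ (f.pt n x y) := by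
  have hX : ∀ X : IM, X.mv K = ⟨0, 0, 0⟩ → X.mat *ᵥ p = (N : ℝ)⁻¹ • (X.mv P).vec := by
    intro X hX
    rw [hp, mulVec_add, mulVec_smul, mulVec_smul, c1_mv_vec, c1_mv_vec, hX, c1_zero_vec,
      smul_zero, add_zero]
  rcases hC with ⟨X, hXc, h⟩ | ⟨q, hq, h⟩ | ⟨l, hl, h⟩ | ⟨js, hjs, f, w, hf, hw, h⟩
  · exfalso
    apply h
    rw [c1_div_iff hN, ← hX X (hKs X (hxs X hXc)), ← hT]
    exact AddSubgroup.subset_closure ⟨X, hxs X hXc, rfl⟩
  · exfalso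
    obtain ⟨hq1, hq2⟩ := hbad q hq
    apply hn q hq1
    rw [hT, hX q.X hq2, ← c1_div_iff hN]
    exact h
  · exfalso
    obtain ⟨⟨⟨h1, -⟩, h2⟩, h3⟩ := hsubs l hl
    apply h3
    rw [c1_div_iff h1]
    apply c1_Tw_le (p := p) (r := r)
    · intro X hXs
      rw [hX X (hKs X hXs), ← c1_div_iff hN]
      exact h X hXs
    · rw [hT, ← c1_div_iff h1]
      exact h2
  · obtain ⟨hs, f', l, hf', hl, hexc⟩ := hcov js hjs
    have hff : f' = f := by
      rw [hf] at hf'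
      exact (Option.some.inj hf').symm
    subst hff
    obtain ⟨hj, hfj⟩ := List.getElem?_eq_some_iff.1 hf
    obtain ⟨hj', hwj⟩ := List.getElem?_eq_some_iff.1 hw
    obtain ⟨hj'', hlj⟩ := List.getElem?_eq_some_iff.1 hl
    have hz1 : (f', w) ∈ b.fams.zip ws := by
      rw [List.mem_iff_getElem]
      refine ⟨js.1, by simp; omega, ?_⟩
      simp [hfj, hwj]
    have hz2 : (f', l) ∈ b.fams.zip lats := by
      rw [List.mem_iff_getElem]
      refine ⟨js.1, by simp; omega, ?_⟩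
      simp [hfj, hlj]
    obtain ⟨⟨⟨g1, g2⟩, g3⟩, g4⟩ := hfw _ hz1
    obtain ⟨k1, k2⟩ := hb.fams _ hz2
    have hden : 0 < f'.den := by
      simp only [famOK, Bool.and_eq_true, decide_eq_true_eq] at k1
      exact k1.1.1.1.1
    obtain ⟨n', x', he⟩ := c1_cov hN hden g1 g2 g3 g4 hKk h x
    have hs' : (0 : ℝ) < js.2 := by exact_mod_cast hs
    refine ⟨f', hfj ▸ List.getElem_mem hj, (js.2 : ℝ)⁻¹, inv_pos.2 hs', n', x', 0, ?_, ?_⟩
    · intro hEx
      rcases hexc with hexc | ⟨hs1, hlL⟩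
      · obtain ⟨c', hc', -⟩ := hEx
        rw [hexc] at hc'
        exact absurd hc' (List.not_mem_nil)
      · subst hlL
        obtain ⟨q, hq, hq'⟩ := exc_contra k1 k2 (n := n') hEx
        apply hn q hq
        rw [hT]
        rw [← he, ← hp, hs1] at hq'
        push_cast at hq'
        rw [c1_sclR_one] at hq'
        exact hq'
    · rw [← he, ← hp, c1_sclR_inv hs'.ne']

/-! ### The theorem -/

theorem c1_P_shift (C : C1Cert) (c : C1L) (n0 a m : IV) :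
    C.P c ⟨n0.x + m.x * a.x, n0.y + m.y * a.y, n0.z + m.z * a.z⟩ =
      (((C.P c n0).add (((C.Eh.mv ⟨m.x, 0, 0⟩).smul C.wd).smul a.x)).add
        (((C.Eh.mv ⟨0, m.y, 0⟩).smul C.wd).smul a.y)).add
        (((C.Eh.mv ⟨0, 0, m.z⟩).smul C.wd).smul a.z) := by
  simp only [C1Cert.P, IM.mv, IV.smul, IV.add, IV.dot, IV.mk.injEq]
  refine ⟨by ring, by ring, by ring⟩

theorem c1_sound {k : Kind} {b : Block} {r : Row} {lats : List LatE} (hb : BlockOK k b (r, lats))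
    {C : C1Cert} (hC : C.ok k r b.fams lats = true) {L : LatD} (hL : L ∈ k.lats) {p : V3}
    (hT : ∀ y, y ∈ r.Tw p ↔ L.Mem y) (hn : ∀ q ∈ r.nl, q.X.mat *ᵥ p ∉ r.Tw p)
    (hinv : ∀ q ∈ r.reps, ∀ y ∈ r.Tw p, q.M.mat *ᵥ y ∈ r.Tw p)
    (hz : k ≠ .cub → p 2 = (C.wn : ℝ) / C.wd) :
    ∃ f ∈ b.fams, ∃ σ : ℝ, 0 < σ ∧ ∃ n x y, ¬ f.Excl x y ∧ p = sclR k σ (f.pt n x y) := by
  simp only [C1Cert.ok, Bool.and_eq_true, Bool.or_eq_true, decide_eq_true_eq,
    List.all_eq_true] at hC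
  obtain ⟨⟨⟨⟨⟨⟨⟨⟨⟨⟨⟨hd, hw⟩, hk⟩, hFc⟩, hF⟩, hcomb⟩, hKs⟩, hws⟩, hlats⟩, hfw⟩, hvs⟩, hV⟩ := hC
  obtain ⟨i, hi, hLi⟩ := List.mem_iff_getElem.1 hL
  have hi' : i < C.vs.length := by omega
  have hv : (C.vs[i]).ok k r b.fams lats C L.toE = true := by
    apply hV (L, C.vs[i])
    rw [List.mem_iff_getElem]
    refine ⟨i, by simp; omega, ?_⟩
    simp [hLi]
  have hTE : ∀ y, y ∈ r.Tw p ↔ L.toE.Mem y := fun y => (hT y).trans (c1_toE_mem L y).symm
  generalize C.vs[i] = v at hv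
  generalize L.toE = LE at hv hTE
  have hk' : (k = .cub ∧ C.wn = 0) ∨ (k ≠ .cub ∧ C.K = ⟨0, 0, 0⟩) := by
    rcases hk with hk | ⟨hk, hK⟩
    · exact Or.inl hk
    · refine Or.inr ⟨?_, hK⟩
      rcases hk with rfl | rfl <;> decide
  have hKk : k = .cub ∨ C.K = ⟨0, 0, 0⟩ := hk'.imp (fun h => h.1) (fun h => h.2)
  cases v with
  | absInv M y e =>
    simp only [C1V.ok, Bool.and_eq_true, decide_eq_true_eq, List.any_eq_true,
      Bool.not_eq_eq_eq_not, Bool.not_true] at hv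
    obtain ⟨⟨⟨h1, h2⟩, h3⟩, h4⟩ := hv
    exact (c1_absInv hTE hinv h1 h2 h3 (by rw [h4]; exact Bool.false_ne_true)).elim
  | absFlat y e =>
    simp only [C1V.ok, Bool.and_eq_true, decide_eq_true_eq, List.all_eq_true] at hv
    obtain ⟨⟨⟨⟨h1, h2⟩, h3⟩, h4⟩, h5⟩ := hv
    exact (c1_absFlat hTE h2 h3 h4 h5).elim
  | absZ X =>
    simp only [C1V.ok, Bool.and_eq_true, decide_eq_true_eq] at hv
    obtain ⟨⟨⟨⟨⟨⟨h1, h2⟩, h3⟩, h4⟩, h5⟩, h6⟩, h7⟩ := hv
    exact (c1_absZ hTE hw (hz h1) h2 h3 h4 h5 h6 h7).elim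
  | cert c =>
    simp only [C1V.ok, Bool.and_eq_true, decide_eq_true_eq, List.all_eq_true] at hv
    obtain ⟨⟨⟨⟨⟨⟨⟨⟨⟨⟨⟨⟨⟨⟨⟨hq, hm1⟩, hm2⟩, hm3⟩, hadj⟩, hxs⟩, hbad⟩, hsubs⟩, hcov⟩, -⟩, -⟩, -⟩, hs1⟩,
      hs2⟩, hs3⟩, hcl⟩ := hv
    -- `p` in terms of the class
    have hden : ∀ y, LE.Mem y → ∃ n : IV, (c.q : ℝ) • y = n.vec := by
      rintro y ⟨⟨kk, hy⟩, -⟩
      obtain ⟨⟨⟨⟨⟨⟨⟨⟨⟨a0, a1⟩, a2⟩, a3⟩, a4⟩, a5⟩, a6⟩, a7⟩, a8⟩, a9⟩ := hadj
      exact c1_denom a0 a1 a2 a3 a4 a5 a6 a7 a8 a9 hy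
    have hFp : ∃ n : IV, (c.q : ℝ) • (C.F.mat *ᵥ p) = n.vec := by
      rw [← hF]
      apply c1_fold
      · intro x hx
        apply hden
        rw [← hTE]
        exact AddSubgroup.subset_closure ⟨_, hFc x hx, rfl⟩
      · refine ⟨⟨0, 0, 0⟩, ?_⟩
        rw [rf_zero_mat, zero_mulVec, smul_zero, c1_zero_vec]
    obtain ⟨n, hFn⟩ := hFp
    obtain ⟨x, hp⟩ := c1_p_eq hd hw hq hcomb hk' hFn hz
    have hN : 0 < C.N c := by
      unfold C1Cert.N
      positivity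
    refine c1_cls_sound hb hTE hn hKk hKs hws hfw hxs hbad ?_ ?_ hN hp ?_
    · intro l hl
      obtain ⟨h1, h2⟩ := hsubs l hl
      refine ⟨h1, ?_⟩
      simp only [Bool.not_eq_eq_eq_not, Bool.not_true] at h2
      rw [h2]
      exact Bool.false_ne_true
    · intro js hjs
      obtain ⟨h1, h2⟩ := hcov js hjs
      refine ⟨h1, ?_⟩
      rcases hf : b.fams[js.1]? with _ | f
      · rw [hf] at h2
        simp at h2
      · rcases hl : lats[js.1]? with _ | l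
        · rw [hf, hl] at h2
          simp at h2
        · rw [hf, hl] at h2
          simp only [Bool.and_eq_true, Bool.or_eq_true, decide_eq_true_eq] at h2
          exact ⟨f, l, rfl, rfl, h2⟩
    · have e1 : n = ⟨n.x % c.m1 + c.m1 * (n.x / c.m1), n.y % c.m2 + c.m2 * (n.y / c.m2),
          n.z % c.m3 + c.m3 * (n.z / c.m3)⟩ := by
        rw [Int.emod_add_mul_ediv, Int.emod_add_mul_ediv, Int.emod_add_mul_ediv]
      rw [e1]
      have e2 := c1_P_shift C c ⟨n.x % c.m1, n.y % c.m2, n.z % c.m3⟩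
        ⟨n.x / c.m1, n.y / c.m2, n.z / c.m3⟩ ⟨c.m1, c.m2, c.m3⟩
      simp only at e2
      rw [e2]
      apply c1_cls_shift _ (c1_shift hs3)
      apply c1_cls_shift _ (c1_shift hs2)
      apply c1_cls_shift _ (c1_shift hs1)
      apply c1_class
      have hx : ∀ (a : ℤ) (m : ℕ), 0 < m → ∃ j : ℕ, j < m ∧ (j : ℤ) = a % m := by
        intro a m hm
        have hm' : (0 : ℤ) < m := by exact_mod_cast hm
        refine ⟨(a % m).toNat, ?_, Int.toNat_of_nonneg (Int.emod_nonneg _ hm'.ne')⟩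
        have h1 := Int.emod_lt_of_pos a hm'
        have h2 := Int.emod_nonneg a hm'.ne'
        omega
      obtain ⟨j1, hj1, hj1'⟩ := hx n.x c.m1 hm1
      obtain ⟨j2, hj2, hj2'⟩ := hx n.y c.m2 hm2
      obtain ⟨j3, hj3, hj3'⟩ := hx n.z c.m3 hm3
      have h1 := hcl j1 (List.mem_range.2 hj1) j2 (List.mem_range.2 hj2) j3 (List.mem_range.2 hj3)
      rw [hj1', hj2', hj3'] at h1
      exact h1

end Pool.Agent.H21.FT
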