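import Pool.Agent.H21.FT.Flag

/-!
# The seven base configurations

The base flags turn under the group, the face of the first base flag is the base face, and the
configuration of all flags is the configuration of the construction.
-/

namespace Pool.Agent.H21.FT

open Pool.Agent.H38.FT (Cfg)

variable {X : Type*}

section General

variable {Γ : Subgroup (Equiv.Perm X)} {β : Base X}

@[simp] theorem act_one (t : X × X × X) : act (1 : Equiv.Perm X) t = t := rfl

theorem act_mul (g h : Equiv.Perm X) (t : X × X × X) : act (g * h) t = act g (act h t) := rfl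

@[simp] theorem act_inv_act (g : Equiv.Perm X) (t : X × X × X) : act g⁻¹ (act g t) = t := by
  rw [← act_mul, inv_mul_cancel, act_one]

@[simp] theorem act_act_inv (g : Equiv.Perm X) (t : X × X × X) : act g (act g⁻¹ t) = t := by
  rw [← act_mul, mul_inv_cancel, act_one]

@[simp] theorem swp_swp (t : X × X × X) : swp (swp t) = t := rfl

theorem swp_act (g : Equiv.Perm X) (t : X × X × X) : swp (act g t) = act g (swp t) := rfl

theorem fl_mem_flags (i j : Bool) : β.fl i j ∈ flags Γ β := ⟨1, Γ.one_mem, i, j, rfl⟩

theorem act_fl_mem_flags {g : Equiv.Perm X} (hg : g ∈ Γ) (i j : Bool) :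
    act g (β.fl i j) ∈ flags Γ β := ⟨g, hg, i, j, rfl⟩

theorem act_mem_flags {g : Equiv.Perm X} (hg : g ∈ Γ) {t : X × X × X} (ht : t ∈ flags Γ β) :
    act g t ∈ flags Γ β := by
  obtain ⟨h, hh, i, j, rfl⟩ := ht
  exact ⟨g * h, Γ.mul_mem hg hh, i, j, rfl⟩

theorem swp_mem_flags (hturn : ∀ i j, swp (β.fl i j) ∈ flags Γ β) {t : X × X × X}
    (ht : t ∈ flags Γ β) : swp t ∈ flags Γ β := by
  obtain ⟨h, hh, i, j, rfl⟩ := ht
  rw [swp_act]
  exact act_mem_flags hh (hturn i j)

theorem step_act {g : Equiv.Perm X} (hg : g ∈ Γ) {t t' : X × X × X} (h : Step Γ β t t') :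
    Step Γ β (act g t) (act g t') := by
  cases h with
  | turn _ ht => rw [← swp_act]; exact Step.turn _ (act_mem_flags hg ht)
  | go k i j hk => rw [← act_mul, ← act_mul]; exact Step.go _ i j (Γ.mul_mem hg hk)

theorem step_symm (hturn : ∀ i j, swp (β.fl i j) ∈ flags Γ β) {t t' : X × X × X}
    (h : Step Γ β t t') : Step Γ β t' t := by
  cases h with
  | turn _ ht => exact Step.turn (swp t) (swp_mem_flags hturn ht)
  | go k i j hk =>
    have := Step.go (β := β) k (!i) j hk
    rwa [Bool.not_not] at this

theorem rtg_act {g : Equiv.Perm X} (hg : g ∈ Γ) {t t' : X × X × X}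
    (h : Relation.ReflTransGen (Step Γ β) t t') :
    Relation.ReflTransGen (Step Γ β) (act g t) (act g t') :=
  h.lift (act g) fun _ _ hab => step_act hg hab

theorem rtg_symm (hturn : ∀ i j, swp (β.fl i j) ∈ flags Γ β) {t t' : X × X × X}
    (h : Relation.ReflTransGen (Step Γ β) t t') : Relation.ReflTransGen (Step Γ β) t' t := by
  induction h with
  | refl => exact Relation.ReflTransGen.refl
  | tail _ hbc ih => exact Relation.ReflTransGen.head (step_symm hturn hbc) ih

theorem faceOf_congr (hturn : ∀ i j, swp (β.fl i j) ∈ flags Γ β) {t t' : X × X × X}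
    (h : Relation.ReflTransGen (Step Γ β) t t') : faceOf Γ β t = faceOf Γ β t' := by
  ext e
  constructor
  · rintro ⟨u, hu, rfl⟩
    exact ⟨u, (rtg_symm hturn h).trans hu, rfl⟩
  · rintro ⟨u, hu, rfl⟩
    exact ⟨u, h.trans hu, rfl⟩

theorem faceOf_act {g : Equiv.Perm X} (hg : g ∈ Γ) (t : X × X × X) :
    faceOf Γ β (act g t) = Sym2.map g '' faceOf Γ β t := by
  ext e
  constructor
  · rintro ⟨u, hu, rfl⟩
    refine ⟨s((act g⁻¹ u).1, (act g⁻¹ u).2.1), ⟨act g⁻¹ u, ?_, rfl⟩, ?_⟩
    · have := rtg_act (Γ.inv_mem hg) hu
      rwa [act_inv_act] at this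
    · simp [act]
  · rintro ⟨_, ⟨u, hu, rfl⟩, rfl⟩
    exact ⟨act g u, rtg_act hg hu, rfl⟩

/-- The face of the first base flag, computed from finitely many flags `L` and a group `K`
generated by `S`. -/
theorem faceOf_eq (hc : Compat Γ β) (hturn : ∀ i j, swp (β.fl i j) ∈ flags Γ β)
    (S : Set (Equiv.Perm X)) (hS : ∀ a ∈ S, a ∈ Γ) (L : Set (Equiv.Perm X × Bool × Bool))
    (hLΓ : ∀ p ∈ L, p.1 ∈ Γ) (h0 : ((1 : Equiv.Perm X), false, false) ∈ L)
    (hgo : ∀ p ∈ L, ∃ q ∈ L, ∃ k ∈ Subgroup.closure S,
      act p.1 (β.fl (!p.2.1) p.2.2) = act k (act q.1 (β.fl q.2.1 q.2.2)))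
    (ht : ∀ p ∈ L, ∃ q ∈ L, ∃ k ∈ Subgroup.closure S,
      swp (act p.1 (β.fl p.2.1 p.2.2)) = act k (act q.1 (β.fl q.2.1 q.2.2)))
    (hL : ∀ p ∈ L, Relation.ReflTransGen (Step Γ β) (β.fl false false)
      (act p.1 (β.fl p.2.1 p.2.2)))
    (hgen : ∀ a ∈ S, ∃ y, Relation.ReflTransGen (Step Γ β) (β.fl false false) y ∧
      Relation.ReflTransGen (Step Γ β) (β.fl false false) (act a y)) :
    faceOf Γ β (β.fl false false) = {e | ∃ k ∈ Subgroup.closure S, ∃ p ∈ L,
      e = Sym2.map k s((act p.1 (β.fl p.2.1 p.2.2)).1, (act p.1 (β.fl p.2.1 p.2.2)).2.1)} := by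
  have hK : ∀ k ∈ Subgroup.closure S, k ∈ Γ := fun k hk => (Subgroup.closure_le Γ).2 hS hk
  have key : ∀ t, Relation.ReflTransGen (Step Γ β) (β.fl false false) t →
      ∃ p ∈ L, ∃ k ∈ Subgroup.closure S, t = act k (act p.1 (β.fl p.2.1 p.2.2)) := by
    intro t h
    induction h with
    | refl => exact ⟨_, h0, 1, Subgroup.one_mem _, rfl⟩
    | @tail b c _ hbc ih =>
      obtain ⟨p, hp, k, hk, rfl⟩ := ih
      have h1 : Step Γ β (act p.1 (β.fl p.2.1 p.2.2)) (act k⁻¹ c) := by
        have := step_act (Γ.inv_mem (hK k hk)) hbc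
        rwa [act_inv_act] at this
      have h2 : ∃ q ∈ L, ∃ k' ∈ Subgroup.closure S,
          act k⁻¹ c = act k' (act q.1 (β.fl q.2.1 q.2.2)) := by
        generalize hx : act p.1 (β.fl p.2.1 p.2.2) = x at h1
        generalize hy : act k⁻¹ c = y at h1
        cases h1 with
        | turn _ ht' =>
          subst hx
          exact ht p hp
        | go g i j hg =>
          obtain ⟨q, hq, k', hk', he⟩ := hgo p hp
          refine ⟨q, hq, k', hk', ?_⟩
          rw [← he]
          have h3 : act (p.1⁻¹ * g) (β.fl i j) = β.fl p.2.1 p.2.2 := by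
            rw [act_mul, ← hx, act_inv_act]
          have h4 := hc (p.1⁻¹ * g) (Γ.mul_mem (Γ.inv_mem (hLΓ p hp)) hg) _ _ _ _ h3 (!i) j
          have h5 : (!i ^^ (i ^^ p.2.1)) = !p.2.1 := by
            cases i <;> cases p.2.1 <;> rfl
          have h6 : (j ^^ (j ^^ p.2.2)) = p.2.2 := by
            cases j <;> cases p.2.2 <;> rfl
          rw [h5, h6] at h4
          rw [← h4, act_mul, act_act_inv]
      obtain ⟨q, hq, k', hk', he⟩ := h2
      refine ⟨q, hq, k * k', Subgroup.mul_mem _ hk hk', ?_⟩
      rw [act_mul, ← he, act_act_inv]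
  have key2 : ∀ k ∈ Subgroup.closure S,
      Relation.ReflTransGen (Step Γ β) (β.fl false false) (act k (β.fl false false)) := by
    intro k hk
    induction hk using Subgroup.closure_induction with
    | mem a ha =>
      obtain ⟨y, hy1, hy2⟩ := hgen a ha
      exact hy2.trans (rtg_symm hturn (rtg_act (hS a ha) hy1))
    | one => exact Relation.ReflTransGen.refl
    | mul a b ha hb iha ihb =>
      exact iha.trans (rtg_act (hK a ha) ihb)
    | inv a ha iha =>
      have := rtg_act (Γ.inv_mem (hK a ha)) iha
      rw [act_inv_act] at this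
      exact rtg_symm hturn this
  ext e
  constructor
  · rintro ⟨t, h, rfl⟩
    obtain ⟨p, hp, k, hk, rfl⟩ := key t h
    exact ⟨k, hk, p, hp, rfl⟩
  · rintro ⟨k, hk, p, hp, rfl⟩
    exact ⟨act k (act p.1 (β.fl p.2.1 p.2.2)), (key2 k hk).trans (rtg_act (hK k hk) (hL p hp)), rfl⟩

end General

section Canon

variable {A B s : Equiv.Perm X} {o : X}

theorem A_mem_grp : A ∈ grp A B s := Subgroup.subset_closure (by simp)

theorem B_mem_grp : B ∈ grp A B s := Subgroup.subset_closure (by simp)

theorem s_mem_grp : s ∈ grp A B s := Subgroup.subset_closure (by simp)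

theorem apply_apply_of_mul_self {g : Equiv.Perm X} (h : g * g = 1) (x : X) : g (g x) = x := by
  rw [← Equiv.Perm.mul_apply, h]
  rfl

theorem apply_comm_of_mul {g h : Equiv.Perm X} (e : g * h = h * g) (x : X) :
    g (h x) = h (g x) := by
  rw [← Equiv.Perm.mul_apply, e]
  rfl

theorem inv_apply_fix {g : Equiv.Perm X} {x : X} (h : g x = x) : g⁻¹ x = x := by
  rw [Equiv.Perm.inv_eq_iff_eq, h]

/-- The base flags of the class `reg`. -/
theorem canon_reg_id (hA : A o = o) (hB : B o = o) (hr : Rel .reg A B s o) :
    act s ((canon .reg A B s o).fl false false) = (canon .reg A B s o).fl true false ∧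
    act s ((canon .reg A B s o).fl false true) = (canon .reg A B s o).fl true true ∧
    act B ((canon .reg A B s o).fl false false) = (canon .reg A B s o).fl false true ∧
    swp ((canon .reg A B s o).fl false false) = act A ((canon .reg A B s o).fl false false) := by
  obtain ⟨hAA, hBB, hss, hsB⟩ := hr
  have hAA' := apply_apply_of_mul_self hAA
  have hBB' := apply_apply_of_mul_self hBB
  have hss' := apply_apply_of_mul_self hss
  have hsB' := apply_comm_of_mul hsB
  refine ⟨?_, ?_, ?_, ?_⟩ <;>
    simp [canon, Base.fl, act, swp, hA, hB, hAA', hss', ← hsB']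

/-- The base flags of the class `c2`. -/
theorem canon_c2_id (hA : A o = o) (hr : Rel .c2 A B s o) :
    act s ((canon .c2 A B s o).fl false true) = (canon .c2 A B s o).fl true false ∧
    act s ((canon .c2 A B s o).fl false false) = (canon .c2 A B s o).fl true true ∧
    swp ((canon .c2 A B s o).fl false false) = act A ((canon .c2 A B s o).fl false true) ∧
    swp ((canon .c2 A B s o).fl false true) = act A⁻¹ ((canon .c2 A B s o).fl false false) := by
  obtain ⟨hB, hss⟩ := hr
  have hss' := apply_apply_of_mul_self hss
  have hA' := inv_apply_fix hA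
  refine ⟨?_, ?_, ?_, ?_⟩ <;>
    simp [canon, Base.fl, act, swp, hA, hA', hss']

/-- The base flags of the class `c20`. -/
theorem canon_c20_id (hA : A o = o) (hr : Rel .c20 A B s o) :
    act s ((canon .c20 A B s o).fl false false) = (canon .c20 A B s o).fl true false ∧
    act s ((canon .c20 A B s o).fl false true) = (canon .c20 A B s o).fl true true ∧
    swp ((canon .c20 A B s o).fl false false) = act A ((canon .c20 A B s o).fl false true) ∧
    swp ((canon .c20 A B s o).fl false true) = act A⁻¹ ((canon .c20 A B s o).fl false false) := by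
  obtain ⟨hB, hss⟩ := hr
  have hss' := apply_apply_of_mul_self hss
  have hA' := inv_apply_fix hA
  refine ⟨?_, ?_, ?_, ?_⟩ <;>
    simp [canon, Base.fl, act, swp, hA, hA', hss']

/-- The base flags of the class `c21`. -/
theorem canon_c21_id (hA : A o = o) (hB : B o = o) (hr : Rel .c21 A B s o) :
    act s ((canon .c21 A B s o).fl false true) = (canon .c21 A B s o).fl true false ∧
    act s ((canon .c21 A B s o).fl false false) = (canon .c21 A B s o).fl true true ∧
    swp ((canon .c21 A B s o).fl false false) = act A ((canon .c21 A B s o).fl false false) ∧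
    swp ((canon .c21 A B s o).fl false true) = act B ((canon .c21 A B s o).fl false true) := by
  obtain ⟨hAA, hBB, hss⟩ := hr
  have hAA' := apply_apply_of_mul_self hAA
  have hBB' := apply_apply_of_mul_self hBB
  have hss' := apply_apply_of_mul_self hss
  refine ⟨?_, ?_, ?_, ?_⟩ <;>
    simp [canon, Base.fl, act, swp, hA, hB, hAA', hBB', hss']

/-- The base flags of the class `c22`. -/
theorem canon_c22_id (hA : A o = o) (hr : Rel .c22 A B s o) :
    act A ((canon .c22 A B s o).fl false false) = (canon .c22 A B s o).fl false true ∧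
    act A ((canon .c22 A B s o).fl true false) = (canon .c22 A B s o).fl true true ∧
    swp ((canon .c22 A B s o).fl false false) = act s⁻¹ ((canon .c22 A B s o).fl true false) ∧
    swp ((canon .c22 A B s o).fl true false) = act s ((canon .c22 A B s o).fl false false) := by
  obtain ⟨hAA, hAw, hB⟩ := hr
  refine ⟨?_, ?_, ?_, ?_⟩ <;>
    simp [canon, Base.fl, act, swp, hA, hAw]

/-- The base flags of the class `c4a`. -/
theorem canon_c4a_id (hA : A o = o) :
    swp ((canon .c4a A B s o).fl false false) = act s⁻¹ ((canon .c4a A B s o).fl true true) ∧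
    swp ((canon .c4a A B s o).fl true true) = act s ((canon .c4a A B s o).fl false false) ∧
    swp ((canon .c4a A B s o).fl false true) =
      act (A⁻¹ * s⁻¹) ((canon .c4a A B s o).fl true false) ∧
    swp ((canon .c4a A B s o).fl true false) =
      act (s * A) ((canon .c4a A B s o).fl false true) := by
  have hA' : (Equiv.symm A) o = o := inv_apply_fix hA
  refine ⟨?_, ?_, ?_, ?_⟩ <;>
    simp [canon, Base.fl, act, swp, hA, hA']

/-- The base flags of the class `c4b`. -/
theorem canon_c4b_id (hA : A o = o) (hB : B o = o) (hr : Rel .c4b A B s o) :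
    swp ((canon .c4b A B s o).fl false false) = act A ((canon .c4b A B s o).fl false false) ∧
    swp ((canon .c4b A B s o).fl false true) = act s⁻¹ ((canon .c4b A B s o).fl true false) ∧
    swp ((canon .c4b A B s o).fl true false) = act s ((canon .c4b A B s o).fl false true) ∧
    swp ((canon .c4b A B s o).fl true true) =
      act (s * B * s⁻¹) ((canon .c4b A B s o).fl true true) := by
  obtain ⟨hAA, hBB⟩ := hr
  have hAA' := apply_apply_of_mul_self hAA
  have hBB' := apply_apply_of_mul_self hBB
  refine ⟨?_, ?_, ?_, ?_⟩ <;>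
    simp [canon, Base.fl, act, swp, hA, hB, hAA', hBB']

/-- The base flags turn. -/
theorem canon_turn {c : Cls} (hA : A o = o) (hB : B o = o)
    (hr : Rel c A B s o) (i j : Bool) :
    swp ((canon c A B s o).fl i j) ∈ flags (grp A B s) (canon c A B s o) := by
  have mA : A ∈ grp A B s := A_mem_grp
  have mB : B ∈ grp A B s := B_mem_grp
  have ms : s ∈ grp A B s := s_mem_grp
  have mA' := inv_mem mA
  have ms' := inv_mem ms
  cases c with
  | reg =>
    obtain ⟨h1, h2, h3, h4⟩ := canon_reg_id hA hB hr
    have e00 : swp ((canon .reg A B s o).fl false false) ∈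
        flags (grp A B s) (canon .reg A B s o) := by
      rw [h4]; exact act_fl_mem_flags mA _ _
    have e01 : swp ((canon .reg A B s o).fl false true) ∈
        flags (grp A B s) (canon .reg A B s o) := by
      rw [← h3, swp_act]; exact act_mem_flags mB e00
    cases i <;> cases j
    · exact e00
    · exact e01
    · rw [← h1, swp_act]; exact act_mem_flags ms e00
    · rw [← h2, swp_act]; exact act_mem_flags ms e01
  | c2 =>
    obtain ⟨h1, h2, h3, h4⟩ := canon_c2_id hA hr
    have e00 : swp ((canon .c2 A B s o).fl false false) ∈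
        flags (grp A B s) (canon .c2 A B s o) := by
      rw [h3]; exact act_fl_mem_flags mA _ _
    have e01 : swp ((canon .c2 A B s o).fl false true) ∈
        flags (grp A B s) (canon .c2 A B s o) := by
      rw [h4]; exact act_fl_mem_flags mA' _ _
    cases i <;> cases j
    · exact e00
    · exact e01
    · rw [← h1, swp_act]; exact act_mem_flags ms e01
    · rw [← h2, swp_act]; exact act_mem_flags ms e00
  | c20 =>
    obtain ⟨h1, h2, h3, h4⟩ := canon_c20_id hA hr
    have e00 : swp ((canon .c20 A B s o).fl false false) ∈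
        flags (grp A B s) (canon .c20 A B s o) := by
      rw [h3]; exact act_fl_mem_flags mA _ _
    have e01 : swp ((canon .c20 A B s o).fl false true) ∈
        flags (grp A B s) (canon .c20 A B s o) := by
      rw [h4]; exact act_fl_mem_flags mA' _ _
    cases i <;> cases j
    · exact e00
    · exact e01
    · rw [← h1, swp_act]; exact act_mem_flags ms e00
    · rw [← h2, swp_act]; exact act_mem_flags ms e01
  | c21 =>
    obtain ⟨h1, h2, h3, h4⟩ := canon_c21_id hA hB hr
    have e00 : swp ((canon .c21 A B s o).fl false false) ∈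
        flags (grp A B s) (canon .c21 A B s o) := by
      rw [h3]; exact act_fl_mem_flags mA _ _
    have e01 : swp ((canon .c21 A B s o).fl false true) ∈
        flags (grp A B s) (canon .c21 A B s o) := by
      rw [h4]; exact act_fl_mem_flags mB _ _
    cases i <;> cases j
    · exact e00
    · exact e01
    · rw [← h1, swp_act]; exact act_mem_flags ms e01
    · rw [← h2, swp_act]; exact act_mem_flags ms e00
  | c22 =>
    obtain ⟨h1, h2, h3, h4⟩ := canon_c22_id hA hr
    have e00 : swp ((canon .c22 A B s o).fl false false) ∈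
        flags (grp A B s) (canon .c22 A B s o) := by
      rw [h3]; exact act_fl_mem_flags ms' _ _
    have e10 : swp ((canon .c22 A B s o).fl true false) ∈
        flags (grp A B s) (canon .c22 A B s o) := by
      rw [h4]; exact act_fl_mem_flags ms _ _
    cases i <;> cases j
    · exact e00
    · rw [← h1, swp_act]; exact act_mem_flags mA e00
    · exact e10
    · rw [← h2, swp_act]; exact act_mem_flags mA e10
  | c4a =>
    obtain ⟨h1, h2, h3, h4⟩ := canon_c4a_id (B := B) (s := s) hA
    cases i <;> cases j
    · rw [h1]; exact act_fl_mem_flags ms' _ _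
    · rw [h3]; exact act_fl_mem_flags (mul_mem mA' ms') _ _
    · rw [h4]; exact act_fl_mem_flags (mul_mem ms mA) _ _
    · rw [h2]; exact act_fl_mem_flags ms _ _
  | c4b =>
    obtain ⟨h1, h2, h3, h4⟩ := canon_c4b_id hA hB hr
    cases i <;> cases j
    · rw [h1]; exact act_fl_mem_flags mA _ _
    · rw [h2]; exact act_fl_mem_flags ms' _ _
    · rw [h3]; exact act_fl_mem_flags ms _ _
    · rw [h4]; exact act_fl_mem_flags (mul_mem (mul_mem ms mB) ms') _ _

/-- The face of the second base flag is an image of the base face. -/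
theorem canon_ftr {c : Cls} (hA : A o = o) (hB : B o = o)
    (hr : Rel c A B s o) :
    ∃ g ∈ grp A B s, ∃ i, Relation.ReflTransGen (Step (grp A B s) (canon c A B s o))
      ((canon c A B s o).fl false true) (act g ((canon c A B s o).fl i false)) := by
  have mA : A ∈ grp A B s := A_mem_grp
  have mB : B ∈ grp A B s := B_mem_grp
  have ms : s ∈ grp A B s := s_mem_grp
  have mA' := inv_mem mA
  have ms' := inv_mem ms
  cases c with
  | reg =>
    obtain ⟨h1, h2, h3, h4⟩ := canon_reg_id hA hB hr
    exact ⟨B, mB, false, by rw [h3]⟩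
  | c2 =>
    obtain ⟨h1, h2, h3, h4⟩ := canon_c2_id hA hr
    refine ⟨A⁻¹, mA', false, ?_⟩
    rw [← h4]
    exact Relation.ReflTransGen.single (Step.turn _ (fl_mem_flags _ _))
  | c20 =>
    obtain ⟨h1, h2, h3, h4⟩ := canon_c20_id hA hr
    refine ⟨A⁻¹, mA', false, ?_⟩
    rw [← h4]
    exact Relation.ReflTransGen.single (Step.turn _ (fl_mem_flags _ _))
  | c21 =>
    obtain ⟨h1, h2, h3, h4⟩ := canon_c21_id hA hB hr
    refine ⟨s, ms, false, ?_⟩
    rw [h2]
    exact Relation.ReflTransGen.single (Step.go 1 false true (one_mem _))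
  | c22 =>
    obtain ⟨h1, h2, h3, h4⟩ := canon_c22_id hA hr
    exact ⟨A, mA, false, by rw [h1]⟩
  | c4a =>
    obtain ⟨h1, h2, h3, h4⟩ := canon_c4a_id (B := B) (s := s) hA
    refine ⟨A⁻¹ * s⁻¹, mul_mem mA' ms', true, ?_⟩
    rw [← h3]
    exact Relation.ReflTransGen.single (Step.turn _ (fl_mem_flags _ _))
  | c4b =>
    obtain ⟨h1, h2, h3, h4⟩ := canon_c4b_id hA hB hr
    refine ⟨s⁻¹, ms', true, ?_⟩
    rw [← h2]
    exact Relation.ReflTransGen.single (Step.turn _ (fl_mem_flags _ _))

theorem face_of_list {c : Cls} {Γ : Subgroup (Equiv.Perm X)} {β : Base X}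
    (L : Set (Equiv.Perm X × Bool × Bool))
    (h1 : ∀ e₀ ∈ faceEdges c A B s o, ∃ p ∈ L,
      e₀ = s((act p.1 (β.fl p.2.1 p.2.2)).1, (act p.1 (β.fl p.2.1 p.2.2)).2.1))
    (h2 : ∀ p ∈ L, s((act p.1 (β.fl p.2.1 p.2.2)).1, (act p.1 (β.fl p.2.1 p.2.2)).2.1) ∈
      faceEdges c A B s o)
    (h3 : faceOf Γ β (β.fl false false) =
      {e | ∃ k ∈ Subgroup.closure (faceGens c A B s), ∃ p ∈ L,
      e = Sym2.map k s((act p.1 (β.fl p.2.1 p.2.2)).1, (act p.1 (β.fl p.2.1 p.2.2)).2.1)}) :
    faceOf Γ β (β.fl false false) = face c A B s o := by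
  rw [h3]
  ext e
  constructor
  · rintro ⟨k, hk, p, hp, rfl⟩
    exact ⟨k, hk, _, h2 p hp, rfl⟩
  · rintro ⟨k, hk, e₀, he, rfl⟩
    obtain ⟨p, hp, rfl⟩ := h1 e₀ he
    exact ⟨k, hk, p, hp, rfl⟩

/-- The base face is the face of the first base flag. -/
theorem canon_faceOf {c : Cls} (hA : A o = o) (hB : B o = o)
    (hr : Rel c A B s o) (hc : Compat (grp A B s) (canon c A B s o)) :
    faceOf (grp A B s) (canon c A B s o) ((canon c A B s o).fl false false) =
      face c A B s o := by
  have hturn := canon_turn hA hB hr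
  have mA : A ∈ grp A B s := A_mem_grp
  have mB : B ∈ grp A B s := B_mem_grp
  have ms : s ∈ grp A B s := s_mem_grp
  have mA' := inv_mem mA
  have mB' := inv_mem mB
  have ms' := inv_mem ms
  have go : ∀ (g : Equiv.Perm X) (i j : Bool), g ∈ grp A B s →
      Relation.ReflTransGen (Step (grp A B s) (canon c A B s o))
        (act g ((canon c A B s o).fl i j)) (act g ((canon c A B s o).fl (!i) j)) :=
    fun g i j hg => Relation.ReflTransGen.single (Step.go g i j hg)
  have tn : ∀ t ∈ flags (grp A B s) (canon c A B s o),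
      Relation.ReflTransGen (Step (grp A B s) (canon c A B s o)) t (swp t) :=
    fun t ht => Relation.ReflTransGen.single (Step.turn t ht)
  cases c with
  | reg =>
    obtain ⟨h1, h2, h3, h4⟩ := canon_reg_id hA hB hr
    have cs : s ∈ Subgroup.closure (faceGens .reg A B s) :=
      Subgroup.subset_closure (by simp [faceGens])
    have cA : A ∈ Subgroup.closure (faceGens .reg A B s) :=
      Subgroup.subset_closure (by simp [faceGens])
    refine face_of_list {(1, false, false)} ?_ ?_
      (faceOf_eq hc hturn _ ?_ _ ?_ ?_ ?_ ?_ ?_ ?_)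
    · rintro e₀ rfl
      exact ⟨_, rfl, rfl⟩
    · rintro p rfl
      exact rfl
    · rintro a (rfl | rfl)
      · exact ms
      · exact mA
    · rintro p rfl
      exact one_mem _
    · rfl
    · rintro p rfl
      exact ⟨_, rfl, s, cs, h1.symm⟩
    · rintro p rfl
      exact ⟨_, rfl, A, cA, h4⟩
    · rintro p rfl
      exact Relation.ReflTransGen.refl
    · rintro a (rfl | rfl)
      · refine ⟨_, Relation.ReflTransGen.refl, ?_⟩
        rw [h1]
        exact go 1 false false (one_mem _)
      · refine ⟨_, Relation.ReflTransGen.refl, ?_⟩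
        rw [← h4]
        exact tn _ (fl_mem_flags _ _)
  | c2 =>
    obtain ⟨h1, h2, h3, h4⟩ := canon_c2_id hA hr
    have hss' := apply_apply_of_mul_self hr.2
    have hsi : s⁻¹ = s := inv_eq_of_mul_eq_one_left hr.2
    have cs : s * A⁻¹ ∈ Subgroup.closure (faceGens .c2 A B s) :=
      Subgroup.subset_closure (by simp [faceGens])
    have e10 : swp ((canon .c2 A B s o).fl true false) =
        act (s * A⁻¹) ((canon .c2 A B s o).fl false false) := by
      rw [← h1, swp_act, h4, act_mul]
    have e00 : swp ((canon .c2 A B s o).fl false false) =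
        act (s * A⁻¹)⁻¹ ((canon .c2 A B s o).fl true false) := by
      rw [h3, ← h1, mul_inv_rev, inv_inv, hsi, ← act_mul, mul_assoc, hr.2, mul_one]
    refine face_of_list {(1, false, false), (1, true, false)} ?_ ?_
      (faceOf_eq hc hturn _ ?_ _ ?_ ?_ ?_ ?_ ?_ ?_)
    · rintro e₀ rfl
      exact ⟨(1, false, false), by simp, rfl⟩
    · rintro p (rfl | rfl)
      · exact rfl
      · exact Sym2.eq_swap
    · rintro a rfl
      exact mul_mem ms mA'
    · rintro p (rfl | rfl) <;> exact one_mem _
    · simp
    · rintro p (rfl | rfl)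
      · exact ⟨(1, true, false), by simp, 1, one_mem _, rfl⟩
      · exact ⟨(1, false, false), by simp, 1, one_mem _, rfl⟩
    · rintro p (rfl | rfl)
      · exact ⟨(1, true, false), by simp, _, inv_mem cs, e00⟩
      · exact ⟨(1, false, false), by simp, _, cs, e10⟩
    · rintro p (rfl | rfl)
      · exact Relation.ReflTransGen.refl
      · exact go 1 false false (one_mem _)
    · rintro a rfl
      refine ⟨_, Relation.ReflTransGen.refl, ?_⟩
      rw [← e10]
      exact (go 1 false false (one_mem _)).trans (tn _ (act_fl_mem_flags (one_mem _) _ _))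
  | c20 =>
    obtain ⟨h1, h2, h3, h4⟩ := canon_c20_id hA hr
    have cs : s ∈ Subgroup.closure (faceGens .c20 A B s) :=
      Subgroup.subset_closure (by simp [faceGens])
    have cA : A * s * A⁻¹ ∈ Subgroup.closure (faceGens .c20 A B s) :=
      Subgroup.subset_closure (by simp [faceGens])
    have e11 : act A ((canon .c20 A B s o).fl true true) =
        act (A * s * A⁻¹) (act A ((canon .c20 A B s o).fl false true)) := by
      rw [← h2, ← act_mul, ← act_mul, inv_mul_cancel_right]
    have e01 : swp (act A ((canon .c20 A B s o).fl false true)) =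
        (canon .c20 A B s o).fl false false := by
      rw [← h3, swp_swp]
    refine face_of_list {(1, false, false), (A, false, true)} ?_ ?_
      (faceOf_eq hc hturn _ ?_ _ ?_ ?_ ?_ ?_ ?_ ?_)
    · rintro e₀ (rfl | rfl)
      · exact ⟨(1, false, false), by simp, rfl⟩
      · refine ⟨(A, false, true), by simp, ?_⟩
        simp [act, canon, Base.fl, hA]
    · rintro p (rfl | rfl)
      · exact Or.inl rfl
      · refine Or.inr ?_
        simp [act, canon, Base.fl, hA]
    · rintro a (rfl | rfl)
      · exact ms
      · exact mul_mem (mul_mem mA ms) mA'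
    · rintro p (rfl | rfl)
      · exact one_mem _
      · exact mA
    · simp
    · rintro p (rfl | rfl)
      · exact ⟨(1, false, false), by simp, s, cs, h1.symm⟩
      · exact ⟨(A, false, true), by simp, _, cA, e11⟩
    · rintro p (rfl | rfl)
      · exact ⟨(A, false, true), by simp, 1, one_mem _, h3⟩
      · exact ⟨(1, false, false), by simp, 1, one_mem _, e01⟩
    · rintro p (rfl | rfl)
      · exact Relation.ReflTransGen.refl
      · change Relation.ReflTransGen _ _ (act A _)
        rw [← h3]
        exact tn _ (fl_mem_flags _ _)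
    · rintro a (rfl | rfl)
      · refine ⟨_, Relation.ReflTransGen.refl, ?_⟩
        rw [h1]
        exact go 1 false false (one_mem _)
      · have r1 : Relation.ReflTransGen (Step (grp A B s) (canon .c20 A B s o))
            ((canon .c20 A B s o).fl false false) (act A ((canon .c20 A B s o).fl false true)) := by
          rw [← h3]
          exact tn _ (fl_mem_flags _ _)
        refine ⟨_, r1, ?_⟩
        rw [← e11]
        exact r1.trans (go A false true mA)
  | c21 =>
    obtain ⟨h1, h2, h3, h4⟩ := canon_c21_id hA hB hr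
    have cA : A ∈ Subgroup.closure (faceGens .c21 A B s) :=
      Subgroup.subset_closure (by simp [faceGens])
    have cB : s * B * s⁻¹ ∈ Subgroup.closure (faceGens .c21 A B s) :=
      Subgroup.subset_closure (by simp [faceGens])
    have e10 : swp ((canon .c21 A B s o).fl true false) =
        act (s * B * s⁻¹) ((canon .c21 A B s o).fl true false) := by
      rw [← h1, swp_act, h4, ← act_mul, ← act_mul, inv_mul_cancel_right]
    refine face_of_list {(1, false, false), (1, true, false)} ?_ ?_
      (faceOf_eq hc hturn _ ?_ _ ?_ ?_ ?_ ?_ ?_ ?_)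
    · rintro e₀ rfl
      exact ⟨(1, false, false), by simp, rfl⟩
    · rintro p (rfl | rfl)
      · exact rfl
      · exact Sym2.eq_swap
    · rintro a (rfl | rfl)
      · exact mA
      · exact mul_mem (mul_mem ms mB) ms'
    · rintro p (rfl | rfl) <;> exact one_mem _
    · simp
    · rintro p (rfl | rfl)
      · exact ⟨(1, true, false), by simp, 1, one_mem _, rfl⟩
      · exact ⟨(1, false, false), by simp, 1, one_mem _, rfl⟩
    · rintro p (rfl | rfl)
      · exact ⟨(1, false, false), by simp, A, cA, h3⟩
      · exact ⟨(1, true, false), by simp, _, cB, e10⟩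
    · rintro p (rfl | rfl)
      · exact Relation.ReflTransGen.refl
      · exact go 1 false false (one_mem _)
    · rintro a (rfl | rfl)
      · refine ⟨_, Relation.ReflTransGen.refl, ?_⟩
        rw [← h3]
        exact tn _ (fl_mem_flags _ _)
      · refine ⟨_, go 1 false false (one_mem _), ?_⟩
        change Relation.ReflTransGen _ _ (act _ ((canon .c21 A B s o).fl true false))
        rw [← e10]
        exact (go 1 false false (one_mem _)).trans (tn _ (act_fl_mem_flags (one_mem _) _ _))
  | c22 =>
    obtain ⟨h1, h2, h3, h4⟩ := canon_c22_id hA hr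
    have cs : s ∈ Subgroup.closure (faceGens .c22 A B s) :=
      Subgroup.subset_closure (by simp [faceGens])
    refine face_of_list {(1, false, false), (1, true, false)} ?_ ?_
      (faceOf_eq hc hturn _ ?_ _ ?_ ?_ ?_ ?_ ?_ ?_)
    · rintro e₀ rfl
      exact ⟨(1, false, false), by simp, rfl⟩
    · rintro p (rfl | rfl)
      · exact rfl
      · exact Sym2.eq_swap
    · rintro a rfl
      exact ms
    · rintro p (rfl | rfl) <;> exact one_mem _
    · simp
    · rintro p (rfl | rfl)
      · exact ⟨(1, true, false), by simp, 1, one_mem _, rfl⟩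
      · exact ⟨(1, false, false), by simp, 1, one_mem _, rfl⟩
    · rintro p (rfl | rfl)
      · exact ⟨(1, true, false), by simp, s⁻¹, inv_mem cs, h3⟩
      · exact ⟨(1, false, false), by simp, s, cs, h4⟩
    · rintro p (rfl | rfl)
      · exact Relation.ReflTransGen.refl
      · exact go 1 false false (one_mem _)
    · rintro a rfl
      refine ⟨_, Relation.ReflTransGen.refl, ?_⟩
      rw [← h4]
      exact (go 1 false false (one_mem _)).trans (tn _ (act_fl_mem_flags (one_mem _) _ _))
  | c4a =>
    obtain ⟨h1, h2, h3, h4⟩ := canon_c4a_id (B := B) (s := s) hA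
    have cs : s * A * s ∈ Subgroup.closure (faceGens .c4a A B s) :=
      Subgroup.subset_closure (by simp [faceGens])
    have e10 : swp ((canon .c4a A B s o).fl true false) =
        act (s * A * s) (act s⁻¹ ((canon .c4a A B s o).fl false true)) := by
      rw [h4, ← act_mul, mul_inv_cancel_right]
    have e01 : swp (act s⁻¹ ((canon .c4a A B s o).fl false true)) =
        act (s * A * s)⁻¹ ((canon .c4a A B s o).fl true false) := by
      rw [swp_act, h3, ← act_mul, mul_inv_rev, mul_inv_rev]
    have e11 : swp (act s⁻¹ ((canon .c4a A B s o).fl true true)) =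
        (canon .c4a A B s o).fl false false := by
      rw [swp_act, h2, act_inv_act]
    have r1 : Relation.ReflTransGen (Step (grp A B s) (canon .c4a A B s o))
        ((canon .c4a A B s o).fl false false) (act s⁻¹ ((canon .c4a A B s o).fl true true)) := by
      rw [← h1]
      exact tn _ (fl_mem_flags _ _)
    have r2 : Relation.ReflTransGen (Step (grp A B s) (canon .c4a A B s o))
        ((canon .c4a A B s o).fl false false) (act s⁻¹ ((canon .c4a A B s o).fl false true)) :=
      r1.trans (go s⁻¹ true true ms')
    refine face_of_list {(1, false, false), (1, true, false), (s⁻¹, true, true),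
      (s⁻¹, false, true)} ?_ ?_ (faceOf_eq hc hturn _ ?_ _ ?_ ?_ ?_ ?_ ?_ ?_)
    · rintro e₀ (rfl | rfl)
      · refine ⟨(s⁻¹, false, true), by simp, ?_⟩
        simp [act, canon, Base.fl]
      · exact ⟨(1, false, false), by simp, rfl⟩
    · rintro p (rfl | rfl | rfl | rfl)
      · exact Or.inr rfl
      · exact Or.inr Sym2.eq_swap
      · refine Or.inl ?_
        simp [act, canon, Base.fl, Sym2.eq_swap]
      · refine Or.inl ?_
        simp [act, canon, Base.fl]
    · rintro a rfl
      exact mul_mem (mul_mem ms mA) ms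
    · rintro p (rfl | rfl | rfl | rfl)
      · exact one_mem _
      · exact one_mem _
      · exact ms'
      · exact ms'
    · simp
    · rintro p (rfl | rfl | rfl | rfl)
      · exact ⟨(1, true, false), by simp, 1, one_mem _, rfl⟩
      · exact ⟨(1, false, false), by simp, 1, one_mem _, rfl⟩
      · exact ⟨(s⁻¹, false, true), by simp, 1, one_mem _, rfl⟩
      · exact ⟨(s⁻¹, true, true), by simp, 1, one_mem _, rfl⟩
    · rintro p (rfl | rfl | rfl | rfl)
      · exact ⟨(s⁻¹, true, true), by simp, 1, one_mem _, h1⟩
      · exact ⟨(s⁻¹, false, true), by simp, _, cs, e10⟩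
      · exact ⟨(1, false, false), by simp, 1, one_mem _, e11⟩
      · exact ⟨(1, true, false), by simp, _, inv_mem cs, e01⟩
    · rintro p (rfl | rfl | rfl | rfl)
      · exact Relation.ReflTransGen.refl
      · exact go 1 false false (one_mem _)
      · exact r1
      · exact r2
    · rintro a rfl
      refine ⟨_, r2, ?_⟩
      rw [← e10]
      exact (go 1 false false (one_mem _)).trans (tn _ (act_fl_mem_flags (one_mem _) _ _))
  | c4b =>
    obtain ⟨h1, h2, h3, h4⟩ := canon_c4b_id hA hB hr
    have cA : A ∈ Subgroup.closure (faceGens .c4b A B s) :=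
      Subgroup.subset_closure (by simp [faceGens])
    have cB : s * s * B * s⁻¹ * s⁻¹ ∈ Subgroup.closure (faceGens .c4b A B s) :=
      Subgroup.subset_closure (by simp [faceGens])
    have e01 : swp (act s ((canon .c4b A B s o).fl false true)) =
        (canon .c4b A B s o).fl true false := by
      rw [swp_act, h2, act_act_inv]
    have e11 : swp (act s ((canon .c4b A B s o).fl true true)) =
        act (s * s * B * s⁻¹ * s⁻¹) (act s ((canon .c4b A B s o).fl true true)) := by
      rw [swp_act, h4, ← act_mul, ← act_mul]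
      congr 1
      group
    have r1 : Relation.ReflTransGen (Step (grp A B s) (canon .c4b A B s o))
        ((canon .c4b A B s o).fl false false) (act s ((canon .c4b A B s o).fl false true)) := by
      rw [← h3]
      exact (go 1 false false (one_mem _)).trans (tn _ (act_fl_mem_flags (one_mem _) _ _))
    have r2 : Relation.ReflTransGen (Step (grp A B s) (canon .c4b A B s o))
        ((canon .c4b A B s o).fl false false) (act s ((canon .c4b A B s o).fl true true)) :=
      r1.trans (go s false true ms)
    refine face_of_list {(1, false, false), (1, true, false), (s, false, true),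
      (s, true, true)} ?_ ?_ (faceOf_eq hc hturn _ ?_ _ ?_ ?_ ?_ ?_ ?_ ?_)
    · rintro e₀ (rfl | rfl)
      · exact ⟨(1, false, false), by simp, rfl⟩
      · refine ⟨(s, false, true), by simp, ?_⟩
        simp [act, canon, Base.fl]
    · rintro p (rfl | rfl | rfl | rfl)
      · exact Or.inl rfl
      · exact Or.inl Sym2.eq_swap
      · refine Or.inr ?_
        simp [act, canon, Base.fl]
      · refine Or.inr ?_
        simp [act, canon, Base.fl, Sym2.eq_swap]
    · rintro a (rfl | rfl)
      · exact mA
      · exact mul_mem (mul_mem (mul_mem (mul_mem ms ms) mB) ms') ms'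
    · rintro p (rfl | rfl | rfl | rfl)
      · exact one_mem _
      · exact one_mem _
      · exact ms
      · exact ms
    · simp
    · rintro p (rfl | rfl | rfl | rfl)
      · exact ⟨(1, true, false), by simp, 1, one_mem _, rfl⟩
      · exact ⟨(1, false, false), by simp, 1, one_mem _, rfl⟩
      · exact ⟨(s, true, true), by simp, 1, one_mem _, rfl⟩
      · exact ⟨(s, false, true), by simp, 1, one_mem _, rfl⟩
    · rintro p (rfl | rfl | rfl | rfl)
      · exact ⟨(1, false, false), by simp, A, cA, h1⟩
      · exact ⟨(s, false, true), by simp, 1, one_mem _, h3⟩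
      · exact ⟨(1, true, false), by simp, 1, one_mem _, e01⟩
      · exact ⟨(s, true, true), by simp, _, cB, e11⟩
    · rintro p (rfl | rfl | rfl | rfl)
      · exact Relation.ReflTransGen.refl
      · exact go 1 false false (one_mem _)
      · exact r1
      · exact r2
    · rintro a (rfl | rfl)
      · refine ⟨_, Relation.ReflTransGen.refl, ?_⟩
        rw [← h1]
        exact tn _ (fl_mem_flags _ _)
      · refine ⟨_, r2, ?_⟩
        rw [← e11]
        exact r2.trans (tn _ (act_fl_mem_flags ms _ _))

/-- The configuration of all flags is the configuration of the construction. -/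
theorem flagCfg_canon {c : Cls} (hA : A o = o) (hB : B o = o)
    (hr : Rel c A B s o) (hc : Compat (grp A B s) (canon c A B s o)) :
    flagCfg (grp A B s) (canon c A B s o) = cfg c A B s o := by
  have hturn := canon_turn hA hB hr
  have ms : s ∈ grp A B s := s_mem_grp
  have ho : (canon c A B s o).o = o := by cases c <;> rfl
  have hw : (canon c A B s o).w = s o := by cases c <;> rfl
  have hf := canon_faceOf hA hB hr hc
  have hfi : ∀ i, faceOf (grp A B s) (canon c A B s o) ((canon c A B s o).fl i false) =
      face c A B s o := by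
    intro i
    cases i with
    | false => exact hf
    | true =>
      rw [← hf]
      exact (faceOf_congr hturn (Relation.ReflTransGen.single
        (Step.go (β := canon c A B s o) 1 false false (one_mem _)))).symm
  have hV : (flagCfg (grp A B s) (canon c A B s o)).V = (cfg c A B s o).V := by
    ext x
    constructor
    · rintro ⟨t, ⟨g, hg, i, j, rfl⟩, rfl⟩
      cases i with
      | false =>
        refine ⟨g, hg, ?_⟩
        cases j <;> simp [act, Base.fl, ho]
      | true =>
        refine ⟨g * s, mul_mem hg ms, ?_⟩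
        cases j <;> simp [act, Base.fl, hw]
    · rintro ⟨g, hg, rfl⟩
      exact ⟨_, act_fl_mem_flags hg false false, by simp [act, Base.fl, ho]⟩
  have hE : (flagCfg (grp A B s) (canon c A B s o)).E = (cfg c A B s o).E := by
    ext x
    constructor
    · rintro ⟨t, ⟨g, hg, i, j, rfl⟩, rfl⟩
      refine ⟨g, hg, ?_⟩
      cases i <;> cases j <;> simp [act, Base.fl, ho, hw, Sym2.eq_swap]
    · rintro ⟨g, hg, rfl⟩
      exact ⟨_, act_fl_mem_flags hg false false, by simp [act, Base.fl, ho, hw]⟩
  have hF : (flagCfg (grp A B s) (canon c A B s o)).F = (cfg c A B s o).F := by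
    ext f
    constructor
    · rintro ⟨t, ⟨g, hg, i, j, rfl⟩, rfl⟩
      cases j with
      | false =>
        refine ⟨g, hg, ?_⟩
        rw [faceOf_act hg, hfi]
      | true =>
        obtain ⟨g', hg', i', h⟩ := canon_ftr hA hB hr
        refine ⟨g * g', mul_mem hg hg', ?_⟩
        have h1 : faceOf (grp A B s) (canon c A B s o) ((canon c A B s o).fl i true) =
            faceOf (grp A B s) (canon c A B s o) ((canon c A B s o).fl false true) := by
          cases i with
          | false => rfl
          | true =>
            exact (faceOf_congr hturn (Relation.ReflTransGen.single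
              (Step.go (β := canon c A B s o) 1 false true (one_mem _)))).symm
        rw [faceOf_act hg, h1, faceOf_congr hturn h, faceOf_act hg', hfi, ← Set.image_comp]
        congr 1
        funext e
        simp [Sym2.map_map]
    · rintro ⟨g, hg, rfl⟩
      refine ⟨_, act_fl_mem_flags hg false false, ?_⟩
      rw [faceOf_act hg, hf]
  cases h1 : flagCfg (grp A B s) (canon c A B s o)
  cases h2 : cfg c A B s o
  rw [h1, h2] at hV hE hF
  simp only at hV hE hF
  rw [hV, hE, hF]

end Canon

end Pool.Agent.H21.FT
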