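import Pool.Agent.H21.FT.Tab

/-!
# The catalogue

All vectors and matrices are given by integer coordinates with respect to the frame. A block
consists of the kind of its frame, generators of the stabiliser `H` of the base vertex, the linear
part `S` of the map `t` and the families of the translation part `p` of `t`.
-/

namespace Pool.Agent.H21.FT.Catalogue

/-- The vector `(0, 0, 0)`. -/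
def v000 : IV := ⟨0, 0, 0⟩

/-- The vector `(1, 0, 0)`. -/
def v100 : IV := ⟨1, 0, 0⟩

/-- The vector `(0, 1, 0)`. -/
def v010 : IV := ⟨0, 1, 0⟩

/-- The vector `(0, 0, 1)`. -/
def v001 : IV := ⟨0, 0, 1⟩

/-- The vector `(2, 0, 0)`. -/
def v200 : IV := ⟨2, 0, 0⟩

/-- The vector `(1, 1, 0)`. -/
def v110 : IV := ⟨1, 1, 0⟩

/-- The vector `(1, 0, 1)`. -/
def v101 : IV := ⟨1, 0, 1⟩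

/-- The vector `(1, 0, -1)`. -/
def v10m1 : IV := ⟨1, 0, -1⟩

/-- The vector `(1, -1, 0)`. -/
def v1m10 : IV := ⟨1, -1, 0⟩

/-- The vector `(0, 2, 0)`. -/
def v020 : IV := ⟨0, 2, 0⟩

/-- The vector `(0, 1, 1)`. -/
def v011 : IV := ⟨0, 1, 1⟩

/-- The vector `(0, 1, -1)`. -/
def v01m1 : IV := ⟨0, 1, -1⟩

/-- The vector `(0, 0, 2)`. -/
def v002 : IV := ⟨0, 0, 2⟩

/-- The vector `(0, -1, 1)`. -/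
def v0m11 : IV := ⟨0, -1, 1⟩

/-- The vector `(-1, 1, 0)`. -/
def vm110 : IV := ⟨-1, 1, 0⟩

/-- The vector `(-1, 0, 1)`. -/
def vm101 : IV := ⟨-1, 0, 1⟩

/-- The vector `(3, 0, 0)`. -/
def v300 : IV := ⟨3, 0, 0⟩

/-- The vector `(2, 0, 1)`. -/
def v201 : IV := ⟨2, 0, 1⟩

/-- The vector `(1, 2, 0)`. -/
def v120 : IV := ⟨1, 2, 0⟩

/-- The vector `(1, 1, 1)`. -/
def v111 : IV := ⟨1, 1, 1⟩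

/-- The vector `(1, 1, -1)`. -/
def v11m1 : IV := ⟨1, 1, -1⟩

/-- The vector `(1, 0, 2)`. -/
def v102 : IV := ⟨1, 0, 2⟩

/-- The vector `(1, -1, 1)`. -/
def v1m11 : IV := ⟨1, -1, 1⟩

/-- The vector `(1, -1, -1)`. -/
def v1m1m1 : IV := ⟨1, -1, -1⟩

/-- The vector `(0, 3, 0)`. -/
def v030 : IV := ⟨0, 3, 0⟩

/-- The vector `(0, 1, 2)`. -/
def v012 : IV := ⟨0, 1, 2⟩

/-- The vector `(-1, 1, 1)`. -/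
def vm111 : IV := ⟨-1, 1, 1⟩

/-- The vector `(4, 0, 0)`. -/
def v400 : IV := ⟨4, 0, 0⟩

/-- The vector `(3, 1, 0)`. -/
def v310 : IV := ⟨3, 1, 0⟩

/-- The vector `(2, 2, 0)`. -/
def v220 : IV := ⟨2, 2, 0⟩

/-- The vector `(2, 1, 1)`. -/
def v211 : IV := ⟨2, 1, 1⟩

/-- The vector `(2, 0, 2)`. -/
def v202 : IV := ⟨2, 0, 2⟩

/-- The vector `(2, 0, -2)`. -/
def v20m2 : IV := ⟨2, 0, -2⟩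

/-- The vector `(1, 3, 0)`. -/
def v130 : IV := ⟨1, 3, 0⟩

/-- The vector `(1, -2, 1)`. -/
def v1m21 : IV := ⟨1, -2, 1⟩

/-- The vector `(0, 4, 0)`. -/
def v040 : IV := ⟨0, 4, 0⟩

/-- The vector `(0, 2, 2)`. -/
def v022 : IV := ⟨0, 2, 2⟩

/-- The vector `(0, 0, 4)`. -/
def v004 : IV := ⟨0, 0, 4⟩

/-- The vector `(-1, 1, 2)`. -/
def vm112 : IV := ⟨-1, 1, 2⟩

/-- The vector `(-2, -1, -1)`. -/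
def vm2m1m1 : IV := ⟨-2, -1, -1⟩

/-- The vector `(4, 0, 1)`. -/
def v401 : IV := ⟨4, 0, 1⟩

/-- The vector `(3, 0, 2)`. -/
def v302 : IV := ⟨3, 0, 2⟩

/-- The vector `(3, 3, 0)`. -/
def v330 : IV := ⟨3, 3, 0⟩

/-- The vector `(2, 3, 1)`. -/
def v231 : IV := ⟨2, 3, 1⟩

/-- The vector `(2, 2, 2)`. -/
def v222 : IV := ⟨2, 2, 2⟩

/-- The vector `(2, 2, -2)`. -/
def v22m2 : IV := ⟨2, 2, -2⟩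

/-- The vector `(2, 1, 3)`. -/
def v213 : IV := ⟨2, 1, 3⟩

/-- The vector `(2, -2, 2)`. -/
def v2m22 : IV := ⟨2, -2, 2⟩

/-- The vector `(-2, 2, 2)`. -/
def vm222 : IV := ⟨-2, 2, 2⟩

/-- The vector `(6, 0, 1)`. -/
def v601 : IV := ⟨6, 0, 1⟩

/-- The vector `(4, 4, -4)`. -/
def v44m4 : IV := ⟨4, 4, -4⟩

/-- The vector `(4, -4, 4)`. -/
def v4m44 : IV := ⟨4, -4, 4⟩

/-- The vector `(-4, 4, 4)`. -/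
def vm444 : IV := ⟨-4, 4, 4⟩

/-- The map `(x, y, z) ↦ (-x, -y, z)`. -/
def m1 : IM := ⟨⟨-1, 0, 0⟩, ⟨0, -1, 0⟩, ⟨0, 0, 1⟩⟩

/-- The map `(x, y, z) ↦ (y, z, x)`. -/
def m2 : IM := ⟨⟨0, 1, 0⟩, ⟨0, 0, 1⟩, ⟨1, 0, 0⟩⟩

/-- The map `(x, y, z) ↦ (y, z, -x)`. -/
def m3 : IM := ⟨⟨0, 1, 0⟩, ⟨0, 0, 1⟩, ⟨-1, 0, 0⟩⟩

/-- The map `(x, y, z) ↦ (-x, -z, -y)`. -/
def m4 : IM := ⟨⟨-1, 0, 0⟩, ⟨0, 0, -1⟩, ⟨0, -1, 0⟩⟩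

/-- The map `(x, y, z) ↦ (y, -z, -x)`. -/
def m5 : IM := ⟨⟨0, 1, 0⟩, ⟨0, 0, -1⟩, ⟨-1, 0, 0⟩⟩

/-- The map `(x, y, z) ↦ (-x, y, z)`. -/
def m6 : IM := ⟨⟨-1, 0, 0⟩, ⟨0, 1, 0⟩, ⟨0, 0, 1⟩⟩

/-- The map `(x, y, z) ↦ (-y, -x, z)`. -/
def m7 : IM := ⟨⟨0, -1, 0⟩, ⟨-1, 0, 0⟩, ⟨0, 0, 1⟩⟩

/-- The map `(x, y, z) ↦ (x, z, -y)`. -/
def m8 : IM := ⟨⟨1, 0, 0⟩, ⟨0, 0, 1⟩, ⟨0, -1, 0⟩⟩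

/-- The map `(x, y, z) ↦ (-z, -x, y)`. -/
def m9 : IM := ⟨⟨0, 0, -1⟩, ⟨-1, 0, 0⟩, ⟨0, 1, 0⟩⟩

/-- The map `(x, y, z) ↦ (x, y, -z)`. -/
def m10 : IM := ⟨⟨1, 0, 0⟩, ⟨0, 1, 0⟩, ⟨0, 0, -1⟩⟩

/-- The map `(x, y, z) ↦ (x, -z, -y)`. -/
def m11 : IM := ⟨⟨1, 0, 0⟩, ⟨0, 0, -1⟩, ⟨0, -1, 0⟩⟩

/-- The map `(x, y, z) ↦ (x, -y, -z)`. -/
def m12 : IM := ⟨⟨1, 0, 0⟩, ⟨0, -1, 0⟩, ⟨0, 0, -1⟩⟩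

/-- The map `(x, y, z) ↦ (z, -y, -x)`. -/
def m13 : IM := ⟨⟨0, 0, 1⟩, ⟨0, -1, 0⟩, ⟨-1, 0, 0⟩⟩

/-- The map `(x, y, z) ↦ (x, z, y)`. -/
def m14 : IM := ⟨⟨1, 0, 0⟩, ⟨0, 0, 1⟩, ⟨0, 1, 0⟩⟩

/-- The map `(x, y, z) ↦ (z, -y, x)`. -/
def m15 : IM := ⟨⟨0, 0, 1⟩, ⟨0, -1, 0⟩, ⟨1, 0, 0⟩⟩

/-- The map `(x, y, z) ↦ (-z, -y, -x)`. -/
def m16 : IM := ⟨⟨0, 0, -1⟩, ⟨0, -1, 0⟩, ⟨-1, 0, 0⟩⟩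

/-- The map `(x, y, z) ↦ (z, y, -x)`. -/
def m17 : IM := ⟨⟨0, 0, 1⟩, ⟨0, 1, 0⟩, ⟨-1, 0, 0⟩⟩

/-- The map `(x, y, z) ↦ (z, y, x)`. -/
def m18 : IM := ⟨⟨0, 0, 1⟩, ⟨0, 1, 0⟩, ⟨1, 0, 0⟩⟩

/-- The map `(x, y, z) ↦ (-z, y, -x)`. -/
def m19 : IM := ⟨⟨0, 0, -1⟩, ⟨0, 1, 0⟩, ⟨-1, 0, 0⟩⟩

/-- The map `(x, y, z) ↦ (-x, y, -z)`. -/
def m20 : IM := ⟨⟨-1, 0, 0⟩, ⟨0, 1, 0⟩, ⟨0, 0, -1⟩⟩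

/-- The map `(x, y, z) ↦ (x, -y, z)`. -/
def m21 : IM := ⟨⟨1, 0, 0⟩, ⟨0, -1, 0⟩, ⟨0, 0, 1⟩⟩

/-- The map `(x, y, z) ↦ (y, x, -z)`. -/
def m22 : IM := ⟨⟨0, 1, 0⟩, ⟨1, 0, 0⟩, ⟨0, 0, -1⟩⟩

/-- The map `(x, y, z) ↦ (z, -x, y)`. -/
def m23 : IM := ⟨⟨0, 0, 1⟩, ⟨-1, 0, 0⟩, ⟨0, 1, 0⟩⟩

/-- The map `(x, y, z) ↦ (-y, -x, -z)`. -/
def m24 : IM := ⟨⟨0, -1, 0⟩, ⟨-1, 0, 0⟩, ⟨0, 0, -1⟩⟩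

/-- The map `(x, y, z) ↦ (y, x, z)`. -/
def m25 : IM := ⟨⟨0, 1, 0⟩, ⟨1, 0, 0⟩, ⟨0, 0, 1⟩⟩

/-- The map `(x, y, z) ↦ (y, -x, z)`. -/
def m26 : IM := ⟨⟨0, 1, 0⟩, ⟨-1, 0, 0⟩, ⟨0, 0, 1⟩⟩

/-- The map `(x, y, z) ↦ (x, y, z)`. -/
def m27 : IM := ⟨⟨1, 0, 0⟩, ⟨0, 1, 0⟩, ⟨0, 0, 1⟩⟩

/-- The map `(x, y, z) ↦ (-x, -x + y, -z)`. -/
def m28 : IM := ⟨⟨-1, 0, 0⟩, ⟨-1, 1, 0⟩, ⟨0, 0, -1⟩⟩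

/-- The map `(x, y, z) ↦ (x - y, x, z)`. -/
def m29 : IM := ⟨⟨1, -1, 0⟩, ⟨1, 0, 0⟩, ⟨0, 0, 1⟩⟩

/-- The map `(x, y, z) ↦ (x - y, x, -z)`. -/
def m30 : IM := ⟨⟨1, -1, 0⟩, ⟨1, 0, 0⟩, ⟨0, 0, -1⟩⟩

/-- The map `(x, y, z) ↦ (x - y, -y, z)`. -/
def m31 : IM := ⟨⟨1, -1, 0⟩, ⟨0, -1, 0⟩, ⟨0, 0, 1⟩⟩

/-- The map `(x, y, z) ↦ (x - y, -y, -z)`. -/
def m32 : IM := ⟨⟨1, -1, 0⟩, ⟨0, -1, 0⟩, ⟨0, 0, -1⟩⟩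

/-- The map `(x, y, z) ↦ (-x, -x + y, z)`. -/
def m33 : IM := ⟨⟨-1, 0, 0⟩, ⟨-1, 1, 0⟩, ⟨0, 0, 1⟩⟩

/-- The map `(x, y, z) ↦ (x, x - y, z)`. -/
def m34 : IM := ⟨⟨1, 0, 0⟩, ⟨1, -1, 0⟩, ⟨0, 0, 1⟩⟩

/-- The map `(x, y, z) ↦ (x, x - y, -z)`. -/
def m35 : IM := ⟨⟨1, 0, 0⟩, ⟨1, -1, 0⟩, ⟨0, 0, -1⟩⟩

/-- (1, 1, 0)/2 + n₁ (1, 1, 1) + n₂ (1, 1, -1) + x (0, -1, 1). -/
def f1 : Fam := ⟨2, v110, v222, v22m2, v000, v0m11, v000, []⟩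

/-- (1, 3, 0)/2 + n₁ (1, 1, 1) + n₂ (1, 1, -1) + x (0, -1, 1). -/
def f2 : Fam := ⟨2, v130, v222, v22m2, v000, v0m11, v000, []⟩

/-- (0, 0, 0) + n₁ (1, 1, 1) + n₂ (1, 1, -1) + x (0, -1, 1), except: x ∈ ℤ. -/
def f3 : Fam := ⟨1, v000, v111, v11m1, v000, v0m11, v000, [[⟨1, 0, 0, 1⟩]]⟩

/-- (0, 1, 0) + n₁ (1, 1, 1) + n₂ (1, 1, -1) + x (0, -1, 1), except: x ∈ ℤ. -/
def f4 : Fam := ⟨1, v010, v111, v11m1, v000, v0m11, v000, [[⟨1, 0, 0, 1⟩]]⟩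

/-- (0, 1, 0)/2 + n₁ (1, 0, 0) + n₂ (0, 1, 0) + x (0, -1, 1), except: 2x ∈ ℤ. -/
def f5 : Fam := ⟨2, v010, v200, v020, v000, v0m11, v000, [[⟨2, 0, 0, 1⟩]]⟩

/-- (1, 0, 0)/2 + n₁ (1, 1, 0) + n₂ (1, 0, -1) + x (0, -1, 1), except: 2x + 1 ∈ 2ℤ. -/
def f6 : Fam := ⟨2, v100, v220, v20m2, v000, v0m11, v000, [[⟨2, 0, 1, 2⟩]]⟩

/-- (1, 2, 0)/2 + n₁ (1, 1, 0) + n₂ (1, 0, -1) + x (0, -1, 1), except: 2x + 1 ∈ 2ℤ. -/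
def f7 : Fam := ⟨2, v120, v220, v20m2, v000, v0m11, v000, [[⟨2, 0, 1, 2⟩]]⟩

/-- (0, 1, 0)/2 + n₁ (1, 0, 0) + n₂ (0, 1, 0) + x (1, -2, 1), except: 2x ∈ ℤ. -/
def f8 : Fam := ⟨2, v010, v200, v020, v000, v1m21, v000, [[⟨2, 0, 0, 1⟩]]⟩

/-- (1, 1, 0)/2 + n₁ (1, 1, 0) + n₂ (1, 0, 1) + x (1, -2, 1), except: 2x ∈ ℤ. -/
def f9 : Fam := ⟨2, v110, v220, v202, v000, v1m21, v000, [[⟨2, 0, 0, 1⟩]]⟩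

/-- (1, 3, 0)/2 + n₁ (1, 1, 0) + n₂ (1, 0, 1) + x (1, -2, 1), except: x ∈ ℤ; 2x + 1 ∈ 2ℤ. -/
def f10 : Fam := ⟨2, v130, v220, v202, v000, v1m21, v000, [[⟨1, 0, 0, 1⟩], [⟨2, 0, 1, 2⟩]]⟩

/-- (1, 0, 0)/2 + n₁ (1, 1, -1) + n₂ (1, -1, 1) + x (1, -2, 1), except: 4x + 3 ∈ 4ℤ; x + 1 ∈ 2ℤ;
2x + 1 ∈ 4ℤ. -/
def f11 : Fam :=
  ⟨2, v100, v22m2, v2m22, v000, v1m21, v000,
    [[⟨4, 0, 3, 4⟩], [⟨1, 0, 1, 2⟩], [⟨2, 0, 1, 4⟩]]⟩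

/-- (3, 0, 0)/2 + n₁ (1, 1, -1) + n₂ (1, -1, 1) + x (1, -2, 1), except: 2x + 3 ∈ 4ℤ; 4x + 1 ∈ 4ℤ;
x + 1 ∈ 2ℤ. -/
def f12 : Fam :=
  ⟨2, v300, v22m2, v2m22, v000, v1m21, v000,
    [[⟨2, 0, 3, 4⟩], [⟨4, 0, 1, 4⟩], [⟨1, 0, 1, 2⟩]]⟩

/-- (3, 1, 0)/4 + n₁ (1, 0, 0) + n₂ (0, 1, 0) + x (1, 0, 1), except: 2x + 1 ∈ 2ℤ; 4x + 1 ∈ 4ℤ. -/
def f13 : Fam := ⟨4, v310, v400, v040, v000, v101, v000, [[⟨2, 0, 1, 2⟩], [⟨4, 0, 1, 4⟩]]⟩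

/-- (1, 3, 0)/4 + n₁ (1, 0, 0) + n₂ (0, 1, 0) + x (1, 0, 1), except: 4x + 3 ∈ 4ℤ; 2x + 1 ∈ 2ℤ. -/
def f14 : Fam := ⟨4, v130, v400, v040, v000, v101, v000, [[⟨4, 0, 3, 4⟩], [⟨2, 0, 1, 2⟩]]⟩

/-- (1, 0, 0) + n₁ (1, 1, 1) + n₂ (1, 1, -1) + x (1, 0, 1), except: x ∈ 2ℤ; 2x + 1 ∈ 2ℤ; x + 1 ∈
2ℤ. -/
def f15 : Fam :=
  ⟨1, v100, v111, v11m1, v000, v101, v000,
    [[⟨1, 0, 0, 2⟩], [⟨2, 0, 1, 2⟩], [⟨1, 0, 1, 2⟩]]⟩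

/-- (1, 1, 0)/2 + n₁ (1, 1, 1) + n₂ (1, 1, -1) + x (1, 0, 1), except: x ∈ 2ℤ; 4x + 1 ∈ 4ℤ; 2x + 1
∈ 4ℤ. -/
def f16 : Fam :=
  ⟨2, v110, v222, v22m2, v000, v101, v000,
    [[⟨1, 0, 0, 2⟩], [⟨4, 0, 1, 4⟩], [⟨2, 0, 1, 4⟩]]⟩

/-- (0, 0, 0) + n₁ (1, 1, 1) + n₂ (1, 1, -1) + x (1, 0, 1), except: x ∈ ℤ. -/
def f17 : Fam := ⟨1, v000, v111, v11m1, v000, v101, v000, [[⟨1, 0, 0, 1⟩]]⟩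

/-- (3, 1, 0)/2 + n₁ (1, 1, 1) + n₂ (1, 1, -1) + x (1, 0, 1), except: 4x + 3 ∈ 4ℤ; x + 1 ∈ 2ℤ; 2x
+ 1 ∈ 4ℤ. -/
def f18 : Fam :=
  ⟨2, v310, v222, v22m2, v000, v101, v000,
    [[⟨4, 0, 3, 4⟩], [⟨1, 0, 1, 2⟩], [⟨2, 0, 1, 4⟩]]⟩

/-- (1, 0, 0) + x (-1, 1, 0) + y (-1, 0, 1), except: y ∈ ℤ; x + y ∈ ℤ. -/
def f19 : Fam := ⟨1, v100, v000, v000, v000, vm110, vm101, [[⟨0, 1, 0, 1⟩], [⟨1, 1, 0, 1⟩]]⟩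

/-- (1, 0, 0)/2 + x (0, 1, 0) + y (0, 0, 1), except: 2x + 1 ∈ 2ℤ; 2y + 1 ∈ 2ℤ; x + y ∈ ℤ; y ∈ ℤ
and 2x + 2y + 1 ∈ 4ℤ; x ∈ ℤ and 2x + 2y + 3 ∈ 4ℤ; 2x - 2y + 1 ∈ 4ℤ and 2x + 2y + 1 ∈ 2ℤ. -/
def f20 : Fam :=
  ⟨2, v100, v000, v000, v000, v010, v001,
    [[⟨2, 0, 1, 2⟩], [⟨0, 2, 1, 2⟩], [⟨1, 1, 0, 1⟩], [⟨0, 1, 0, 1⟩, ⟨2, 2, 1, 4⟩], [⟨1, 0, 0, 1⟩, ⟨2, 2, 3, 4⟩], [⟨2, -2, 1, 4⟩, ⟨2, 2, 1, 2⟩]]⟩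

/-- (1, 0, 0) + x (-1, 1, 0) + y (-1, 0, 1), except: x + 1 ∈ 2ℤ; y + 1 ∈ 2ℤ; x + y ∈ 2ℤ; y ∈ ℤ and
x - y ∈ 2ℤ and x + 2y + 1 ∈ 2ℤ; x + y ∈ ℤ and x + 2y + 1 ∈ 2ℤ and 2x + y + 1 ∈ 2ℤ. -/
def f21 : Fam :=
  ⟨1, v100, v000, v000, v000, vm110, vm101,
    [[⟨1, 0, 1, 2⟩], [⟨0, 1, 1, 2⟩], [⟨1, 1, 0, 2⟩], [⟨0, 1, 0, 1⟩, ⟨1, -1, 0, 2⟩, ⟨1, 2, 1, 2⟩], [⟨1, 1, 0, 1⟩, ⟨1, 2, 1, 2⟩, ⟨2, 1, 1, 2⟩]]⟩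

/-- (0, 1, 0)/2 + n₁ (1, 0, 0) + n₂ (0, 1, 0) + x (0, 0, 1), except: 2x + 1 ∈ 2ℤ. -/
def f22 : Fam := ⟨2, v010, v200, v020, v000, v001, v000, [[⟨2, 0, 1, 2⟩]]⟩

/-- (1, 0, 0)/2 + n₁ (1, 0, 0) + n₂ (0, 1, 0) + x (0, 0, 1), except: 2x + 1 ∈ 2ℤ. -/
def f23 : Fam := ⟨2, v100, v200, v020, v000, v001, v000, [[⟨2, 0, 1, 2⟩]]⟩

/-- (1, 1, 0)/2 + n₁ (1, 1, 0) + n₂ (1, 0, 1) + x (0, 0, 1), except: 2x + 1 ∈ 2ℤ; x + 1 ∈ 2ℤ. -/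
def f24 : Fam := ⟨2, v110, v220, v202, v000, v001, v000, [[⟨2, 0, 1, 2⟩], [⟨1, 0, 1, 2⟩]]⟩

/-- (1, 1, 0)/4 + n₁ (1, 0, 0) + n₂ (0, 1, 0) + x (0, 0, 1), except: 2x + 1 ∈ 2ℤ. -/
def f25 : Fam := ⟨4, v110, v400, v040, v000, v001, v000, [[⟨2, 0, 1, 2⟩]]⟩

/-- (3, 3, 0)/4 + n₁ (1, 0, 0) + n₂ (0, 1, 0) + x (0, 0, 1), except: 2x + 1 ∈ 2ℤ. -/
def f26 : Fam := ⟨4, v330, v400, v040, v000, v001, v000, [[⟨2, 0, 1, 2⟩]]⟩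

/-- (0, 0, 0) + n₁ (1, 1, 0) + n₂ (1, 0, 1) + x (0, 0, 1), except: x ∈ ℤ. -/
def f27 : Fam := ⟨1, v000, v110, v101, v000, v001, v000, [[⟨1, 0, 0, 1⟩]]⟩

/-- (1, 0, 0)/2 + n₁ (1, 0, 0) + n₂ (0, 1, 0) + x (0, 1, 1), except: 2x + 1 ∈ 2ℤ. -/
def f28 : Fam := ⟨2, v100, v200, v020, v000, v011, v000, [[⟨2, 0, 1, 2⟩]]⟩

/-- (0, 1, 0) + n₁ (1, 1, 0) + n₂ (1, 0, 1) + x (0, 1, 1), except: x ∈ ℤ. -/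
def f29 : Fam := ⟨1, v010, v110, v101, v000, v011, v000, [[⟨1, 0, 0, 1⟩]]⟩

/-- (1, 2, 0)/2 + n₁ (1, 1, 1) + n₂ (1, 1, -1) + x (0, 1, 1). -/
def f30 : Fam := ⟨2, v120, v222, v22m2, v000, v011, v000, []⟩

/-- (1, 1, 0)/2 + n₁ (1, 0, 0) + n₂ (0, 1, 0) + x (0, 1, 1). -/
def f31 : Fam := ⟨2, v110, v200, v020, v000, v011, v000, []⟩

/-- (0, 0, 0) + n₁ (1, 1, 1) + n₂ (1, 1, -1) + x (0, 1, 1), except: x ∈ 2ℤ. -/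
def f32 : Fam := ⟨1, v000, v111, v11m1, v000, v011, v000, [[⟨1, 0, 0, 2⟩]]⟩

/-- (0, 1, 0) + n₁ (1, 1, 1) + n₂ (1, 1, -1) + x (0, 1, 1). -/
def f33 : Fam := ⟨1, v010, v111, v11m1, v000, v011, v000, []⟩

/-- (0, 1, -1)/2 + n₁ (-1, 1, 1) + n₂ (1, -1, 1) + n₃ (1, 1, -1). -/
def f34 : Fam := ⟨2, v01m1, vm222, v2m22, v22m2, v000, v000, []⟩

/-- (0, 1, 1)/2 + n₁ (0, 1, 1) + n₂ (1, 0, 1) + n₃ (1, 1, 0). -/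
def f35 : Fam := ⟨2, v011, v022, v202, v220, v000, v000, []⟩

/-- (2, 1, 1)/4 + n₁ (-1, 1, 1) + n₂ (1, -1, 1) + n₃ (1, 1, -1). -/
def f36 : Fam := ⟨4, v211, vm444, v4m44, v44m4, v000, v000, []⟩

/-- (-2, -1, -1)/4 + n₁ (-1, 1, 1) + n₂ (1, -1, 1) + n₃ (1, 1, -1). -/
def f37 : Fam := ⟨4, vm2m1m1, vm444, v4m44, v44m4, v000, v000, []⟩

/-- (0, 1, 1)/4 + n₁ (1, 0, 0) + n₂ (0, 1, 0) + n₃ (0, 0, 1). -/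
def f38 : Fam := ⟨4, v011, v400, v040, v004, v000, v000, []⟩

/-- (1, 0, 0)/2 + n₁ (0, 1, 1) + n₂ (1, 0, 1) + n₃ (1, 1, 0). -/
def f39 : Fam := ⟨2, v100, v022, v202, v220, v000, v000, []⟩

/-- (2, 3, 1)/4 + n₁ (-1, 1, 1) + n₂ (1, -1, 1) + n₃ (1, 1, -1). -/
def f40 : Fam := ⟨4, v231, vm444, v4m44, v44m4, v000, v000, []⟩

/-- (2, 1, 3)/4 + n₁ (-1, 1, 1) + n₂ (1, -1, 1) + n₃ (1, 1, -1). -/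
def f41 : Fam := ⟨4, v213, vm444, v4m44, v44m4, v000, v000, []⟩

/-- (0, -1, 1)/4 + n₁ (1, 0, 0) + n₂ (0, 1, 0) + n₃ (0, 0, 1). -/
def f42 : Fam := ⟨4, v0m11, v400, v040, v004, v000, v000, []⟩

/-- (0, 1, 1)/2 + n₁ (-1, 1, 1) + n₂ (1, -1, 1) + n₃ (1, 1, -1). -/
def f43 : Fam := ⟨2, v011, vm222, v2m22, v22m2, v000, v000, []⟩

/-- (0, 1, -1)/2 + n₁ (0, 1, 1) + n₂ (1, 0, 1) + n₃ (1, 1, 0). -/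
def f44 : Fam := ⟨2, v01m1, v022, v202, v220, v000, v000, []⟩

/-- (1, 0, 0)/2 + n₁ (1, 0, 0) + n₂ (0, 1, 0) + x (0, -1, 1), except: 2x ∈ ℤ. -/
def f45 : Fam := ⟨2, v100, v200, v020, v000, v0m11, v000, [[⟨2, 0, 0, 1⟩]]⟩

/-- (0, 1, 0) + n₁ (1, 1, 0) + n₂ (1, 0, -1) + x (0, -1, 1), except: x ∈ ℤ; 2x + 1 ∈ 2ℤ. -/
def f46 : Fam := ⟨1, v010, v110, v10m1, v000, v0m11, v000, [[⟨1, 0, 0, 1⟩], [⟨2, 0, 1, 2⟩]]⟩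

/-- (0, 0, 0) + n₁ (1, 0, 0) + n₂ (0, 1, 0) + x (0, 1, 1), except: 2x ∈ ℤ. -/
def f47 : Fam := ⟨1, v000, v100, v010, v000, v011, v000, [[⟨2, 0, 0, 1⟩]]⟩

/-- (0, 0, 0) + n₁ (1, 1, 0) + n₂ (1, 0, 1) + x (0, 1, 1), except: x ∈ ℤ. -/
def f48 : Fam := ⟨1, v000, v110, v101, v000, v011, v000, [[⟨1, 0, 0, 1⟩]]⟩

/-- (0, 0, 0) + n₁ (1, 1, 1) + n₂ (1, 1, -1) + x (0, 1, 1), except: x ∈ ℤ. -/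
def f49 : Fam := ⟨1, v000, v111, v11m1, v000, v011, v000, [[⟨1, 0, 0, 1⟩]]⟩

/-- (0, 0, 0) + n₁ (1, 0, 0) + n₂ (0, 1, 0) + x (0, -1, 1), except: 2x ∈ ℤ. -/
def f50 : Fam := ⟨1, v000, v100, v010, v000, v0m11, v000, [[⟨2, 0, 0, 1⟩]]⟩

/-- (0, 0, 0) + n₁ (1, 1, 0) + n₂ (1, 0, -1) + x (0, -1, 1), except: x ∈ ℤ. -/
def f51 : Fam := ⟨1, v000, v110, v10m1, v000, v0m11, v000, [[⟨1, 0, 0, 1⟩]]⟩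

/-- (0, 1, 0) + n₁ (1, 1, 0) + n₂ (1, 0, 1) + x (0, 1, 1), except: x ∈ ℤ; 2x + 1 ∈ 2ℤ. -/
def f52 : Fam := ⟨1, v010, v110, v101, v000, v011, v000, [[⟨1, 0, 0, 1⟩], [⟨2, 0, 1, 2⟩]]⟩

/-- (1, 0, 0)/2 + n₁ (1, 1, 0) + n₂ (1, 0, 1) + x (0, 1, 1), except: 2x + 1 ∈ 2ℤ. -/
def f53 : Fam := ⟨2, v100, v220, v202, v000, v011, v000, [[⟨2, 0, 1, 2⟩]]⟩

/-- (1, 2, 0)/2 + n₁ (1, 1, 0) + n₂ (1, 0, 1) + x (0, 1, 1), except: 2x + 1 ∈ 2ℤ. -/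
def f54 : Fam := ⟨2, v120, v220, v202, v000, v011, v000, [[⟨2, 0, 1, 2⟩]]⟩

/-- (0, 1, 0) + n₁ (-1, 1, 1) + n₂ (1, -1, 1) + n₃ (1, 1, -1). -/
def f55 : Fam := ⟨1, v010, vm111, v1m11, v11m1, v000, v000, []⟩

/-- (0, 0, 1) + n₁ (-1, 1, 1) + n₂ (1, -1, 1) + n₃ (1, 1, -1). -/
def f56 : Fam := ⟨1, v001, vm111, v1m11, v11m1, v000, v000, []⟩

/-- (1, 0, 0) + n₁ (-1, 1, 1) + n₂ (1, -1, 1) + n₃ (1, 1, -1). -/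
def f57 : Fam := ⟨1, v100, vm111, v1m11, v11m1, v000, v000, []⟩

/-- (0, 0, 1)/2 + n₁ (1, 0, 0) + n₂ (0, 1, 0) + n₃ (0, 0, 1). -/
def f58 : Fam := ⟨2, v001, v200, v020, v002, v000, v000, []⟩

/-- (0, 1, 0)/2 + n₁ (1, 0, 0) + n₂ (0, 1, 0) + n₃ (0, 0, 1). -/
def f59 : Fam := ⟨2, v010, v200, v020, v002, v000, v000, []⟩

/-- (1, 0, 0)/2 + n₁ (1, 0, 0) + n₂ (0, 1, 0) + n₃ (0, 0, 1). -/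
def f60 : Fam := ⟨2, v100, v200, v020, v002, v000, v000, []⟩

/-- (1, 0, -1)/2 + n₁ (0, 1, 1) + n₂ (1, 0, 1) + n₃ (1, 1, 0). -/
def f61 : Fam := ⟨2, v10m1, v022, v202, v220, v000, v000, []⟩

/-- (1, 1, 0)/2 + n₁ (1, 0, 0) + n₂ (0, 1, 0) + x (0, -1, 1), except: 2x ∈ ℤ. -/
def f62 : Fam := ⟨2, v110, v200, v020, v000, v0m11, v000, [[⟨2, 0, 0, 1⟩]]⟩

/-- (0, 0, 0) + n₁ (1, 1, 0) + n₂ (1, 0, -1) + x (0, -1, 1), except: 2x ∈ ℤ. -/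
def f63 : Fam := ⟨1, v000, v110, v10m1, v000, v0m11, v000, [[⟨2, 0, 0, 1⟩]]⟩

/-- (0, 0, 0) + n₁ (1, 0, 0) + n₂ (0, 0, 1) + x (-1, 1, 2), except: 2x ∈ ℤ. -/
def f64 : Fam := ⟨1, v000, v100, v001, v000, vm112, v000, [[⟨2, 0, 0, 1⟩]]⟩

/-- (0, 0, 0) + n₁ (1, 0, 1) + n₂ (1, 0, -1) + x (-1, 1, 2), except: 2x ∈ ℤ. -/
def f65 : Fam := ⟨1, v000, v101, v10m1, v000, vm112, v000, [[⟨2, 0, 0, 1⟩]]⟩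

/-- (0, 0, 0) + n₁ (1, 1, 1) + n₂ (1, -1, -1) + x (-1, 1, 2), except: x ∈ ℤ. -/
def f66 : Fam := ⟨1, v000, v111, v1m1m1, v000, vm112, v000, [[⟨1, 0, 0, 1⟩]]⟩

/-- (1, 1, 1)/2 + n₁ (-1, 1, 1) + n₂ (1, -1, 1) + n₃ (1, 1, -1). -/
def f67 : Fam := ⟨2, v111, vm222, v2m22, v22m2, v000, v000, []⟩

/-- (-1, 1, 1)/2 + n₁ (-1, 1, 1) + n₂ (1, -1, 1) + n₃ (1, 1, -1). -/
def f68 : Fam := ⟨2, vm111, vm222, v2m22, v22m2, v000, v000, []⟩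

/-- (1, -1, 0)/2 + n₁ (0, 1, 1) + n₂ (1, 0, 1) + n₃ (1, 1, 0). -/
def f69 : Fam := ⟨2, v1m10, v022, v202, v220, v000, v000, []⟩

/-- (0, 0, 0) + n₁ (1, 0, 0) + n₂ (0, 1, 0) + x (0, -1, 1), except: x ∈ ℤ. -/
def f70 : Fam := ⟨1, v000, v100, v010, v000, v0m11, v000, [[⟨1, 0, 0, 1⟩]]⟩

/-- (0, 0, 0) + n₁ (1, 1, 1) + n₂ (1, 1, -1) + x (0, -1, 1), except: x ∈ 2ℤ. -/
def f71 : Fam := ⟨1, v000, v111, v11m1, v000, v0m11, v000, [[⟨1, 0, 0, 2⟩]]⟩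

/-- (2, 0, 1)/2 + x (-1, 1, 0). -/
def f72 : Fam := ⟨2, v201, v000, v000, v000, vm110, v000, []⟩

/-- (4, 0, 1)/4 + x (-1, 1, 0). -/
def f73 : Fam := ⟨4, v401, v000, v000, v000, vm110, v000, []⟩

/-- (2, 0, 1)/2 + x (-1, 1, 0), except: x ∈ ℤ. -/
def f74 : Fam := ⟨2, v201, v000, v000, v000, vm110, v000, [[⟨1, 0, 0, 1⟩]]⟩

/-- (1, 0, 1) + x (-1, 1, 0), except: x ∈ ℤ. -/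
def f75 : Fam := ⟨1, v101, v000, v000, v000, vm110, v000, [[⟨1, 0, 0, 1⟩]]⟩

/-- (0, 0, 1)/2 + n₁ (1, 0, 0) + n₂ (0, 1, 0). -/
def f76 : Fam := ⟨2, v001, v200, v020, v000, v000, v000, []⟩

/-- (1, 0, 1)/2 + n₁ (1, 0, 0) + n₂ (0, 1, 0). -/
def f77 : Fam := ⟨2, v101, v200, v020, v000, v000, v000, []⟩

/-- (0, 1, 1)/2 + n₁ (1, 0, 0) + n₂ (0, 1, 0). -/
def f78 : Fam := ⟨2, v011, v200, v020, v000, v000, v000, []⟩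

/-- (0, 0, 1) + n₁ (1, 0, 0) + n₂ (0, 1, 0). -/
def f79 : Fam := ⟨1, v001, v100, v010, v000, v000, v000, []⟩

/-- (2, 0, 1)/2. -/
def f80 : Fam := ⟨2, v201, v000, v000, v000, v000, v000, []⟩

/-- (6, 0, 1)/6 + x (1, 1, 0). -/
def f81 : Fam := ⟨6, v601, v000, v000, v000, v110, v000, []⟩

/-- (2, 0, 1)/2 + x (1, 1, 0), except: x + 2 ∈ 3ℤ. -/
def f82 : Fam := ⟨2, v201, v000, v000, v000, v110, v000, [[⟨1, 0, 2, 3⟩]]⟩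

/-- (1, 0, 1)/2 + x (1, 2, 0), except: 2x + 1 ∈ 2ℤ. -/
def f83 : Fam := ⟨2, v101, v000, v000, v000, v120, v000, [[⟨2, 0, 1, 2⟩]]⟩

/-- (3, 0, 2)/6 + x (1, 2, 0). -/
def f84 : Fam := ⟨6, v302, v000, v000, v000, v120, v000, []⟩

/-- (2, 0, 1)/2 + x (1, 1, 0), except: x ∈ ℤ. -/
def f85 : Fam := ⟨2, v201, v000, v000, v000, v110, v000, [[⟨1, 0, 0, 1⟩]]⟩

/-- (1, 0, 1) + x (1, 1, 0), except: x ∈ ℤ. -/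
def f86 : Fam := ⟨1, v101, v000, v000, v000, v110, v000, [[⟨1, 0, 0, 1⟩]]⟩

/-- (1, 0, 2)/2 + x (1, 2, 0), except: 2x + 1 ∈ 2ℤ. -/
def f87 : Fam := ⟨2, v102, v000, v000, v000, v120, v000, [[⟨2, 0, 1, 2⟩]]⟩

/-- (0, 0, 1)/3 + n₁ (1, 0, 0) + n₂ (0, 1, 0). -/
def f88 : Fam := ⟨3, v001, v300, v030, v000, v000, v000, []⟩

/-- (0, 1, 2)/2 + n₁ (1, 0, 0) + n₂ (0, 1, 0). -/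
def f89 : Fam := ⟨2, v012, v200, v020, v000, v000, v000, []⟩

/-- (1, 0, 1). -/
def f90 : Fam := ⟨1, v101, v000, v000, v000, v000, v000, []⟩

/-- (1, 1, 1). -/
def f91 : Fam := ⟨1, v111, v000, v000, v000, v000, v000, []⟩

/-- The 38 cubic blocks. -/
def cubic : List Block :=
  [⟨.cub, [m1], m2, [f1, f2, f3, f4]⟩,
   ⟨.cub, [m1], m3, [f5, f6, f7, f1, f2]⟩,
   ⟨.cub, [m4], m3, [f8, f9, f10, f11, f12]⟩,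
   ⟨.cub, [m4], m5, [f13, f14, f15, f16, f17, f18]⟩,
   ⟨.cub, [m6], m2, [f19]⟩,
   ⟨.cub, [m7], m8, [f20]⟩,
   ⟨.cub, [m7], m2, [f21]⟩,
   ⟨.cub, [m9], m10, [f22, f23, f24]⟩,
   ⟨.cub, [m9], m8, [f25, f26, f27, f24]⟩,
   ⟨.cub, [m9], m11, [f28, f29, f30]⟩,
   ⟨.cub, [m9], m12, [f31, f32, f33]⟩,
   ⟨.cub, [m13], m14, [f34, f35]⟩,
   ⟨.cub, [m13], m8, [f36, f37, f38, f39]⟩,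
   ⟨.cub, [m15, m16], m14, [f40, f41, f42]⟩,
   ⟨.cub, [m15, m16], m8, [f43, f44]⟩,
   ⟨.cub, [m17], m14, [f45, f46]⟩,
   ⟨.cub, [m17], m8, [f47, f48, f49]⟩,
   ⟨.cub, [m18, m19], m14, [f50, f51, f3]⟩,
   ⟨.cub, [m18, m19], m8, [f52, f53, f54]⟩,
   ⟨.cub, [m12, m20], m2, [f55, f56, f57]⟩,
   ⟨.cub, [m12, m20], m3, [f58, f59, f60]⟩,
   ⟨.cub, [m12, m6], m2, [f61]⟩,
   ⟨.cub, [m21, m6], m2, [f62, f3, f4]⟩,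
   ⟨.cub, [m21, m19], m14, [f50, f63, f3]⟩,
   ⟨.cub, [m21, m19], m22, [f64, f65, f66]⟩,
   ⟨.cub, [m23], m10, [f55, f56, f57]⟩,
   ⟨.cub, [m23], m14, [f35, f67, f68, f60]⟩,
   ⟨.cub, [m15, m24], m10, [f58, f69]⟩,
   ⟨.cub, [m15, m24], m8, [f55]⟩,
   ⟨.cub, [m11, m18], m10, [f24, f27]⟩,
   ⟨.cub, [m11, m18], m14, [f70, f51, f71]⟩,
   ⟨.cub, [m12, m15], m14, [f60]⟩,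
   ⟨.cub, [m12, m15], m8, [f57]⟩,
   ⟨.cub, [m12, m18], m14, [f57]⟩,
   ⟨.cub, [m12, m18], m8, [f60]⟩,
   ⟨.cub, [m21, m22], m14, [f34, f35]⟩,
   ⟨.cub, [m21, m25], m14, [f50, f51, f3]⟩,
   ⟨.cub, [m11, m22], m10, [f56]⟩]

/-- The 17 tetragonal blocks. -/
def tetragonal : List Block :=
  [⟨.tet, [m20], m25, [f72]⟩,
   ⟨.tet, [m20], m22, [f73]⟩,
   ⟨.tet, [m6], m25, [f74]⟩,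
   ⟨.tet, [m6], m22, [f75]⟩,
   ⟨.tet, [m22, m24], m21, [f76]⟩,
   ⟨.tet, [m22, m24], m12, [f76]⟩,
   ⟨.tet, [m22, m7], m21, [f77, f78]⟩,
   ⟨.tet, [m25, m7], m21, [f76]⟩,
   ⟨.tet, [m25, m7], m12, [f79]⟩,
   ⟨.tet, [m10, m1], m26, [f80]⟩,
   ⟨.tet, [m10, m6], m25, [f74]⟩,
   ⟨.tet, [m12, m22], m27, [f79]⟩,
   ⟨.tet, [m12, m22], m10, [f76]⟩,
   ⟨.tet, [m12, m25], m27, [f79]⟩,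
   ⟨.tet, [m12, m25], m10, [f76]⟩,
   ⟨.tet, [m21, m25], m27, [f79]⟩,
   ⟨.tet, [m21, m25], m10, [f79]⟩]

/-- The 33 hexagonal blocks. -/
def hexagonal : List Block :=
  [⟨.hex, [m28], m29, [f81]⟩,
   ⟨.hex, [m28], m30, [f82]⟩,
   ⟨.hex, [m28], m31, [f83]⟩,
   ⟨.hex, [m28], m32, [f84]⟩,
   ⟨.hex, [m33], m29, [f85]⟩,
   ⟨.hex, [m33], m30, [f86]⟩,
   ⟨.hex, [m33], m31, [f87]⟩,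
   ⟨.hex, [m33], m32, [f87]⟩,
   ⟨.hex, [m22, m24], m34, [f78]⟩,
   ⟨.hex, [m22, m24], m35, [f88]⟩,
   ⟨.hex, [m22, m7], m34, [f89]⟩,
   ⟨.hex, [m22, m7], m35, [f78]⟩,
   ⟨.hex, [m25, m7], m34, [f89]⟩,
   ⟨.hex, [m25, m7], m35, [f89]⟩,
   ⟨.hex, [m10, m33], m29, [f85]⟩,
   ⟨.hex, [m10, m33], m31, [f87]⟩,
   ⟨.hex, [m10, m1], m29, [f90]⟩,
   ⟨.hex, [m32, m22], m34, [f76]⟩,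
   ⟨.hex, [m32, m22], m35, [f76]⟩,
   ⟨.hex, [m32, m22], m27, [f79]⟩,
   ⟨.hex, [m32, m22], m10, [f76]⟩,
   ⟨.hex, [m31, m25], m34, [f76]⟩,
   ⟨.hex, [m31, m25], m35, [f79]⟩,
   ⟨.hex, [m31, m25], m27, [f79]⟩,
   ⟨.hex, [m31, m25], m10, [f79]⟩,
   ⟨.hex, [m31, m22], m34, [f76]⟩,
   ⟨.hex, [m31, m22], m27, [f79]⟩,
   ⟨.hex, [m35, m31], m34, [f76]⟩,
   ⟨.hex, [m35, m31], m35, [f79]⟩,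
   ⟨.hex, [m35, m32], m34, [f76]⟩,
   ⟨.hex, [m35, m32], m35, [f79]⟩,
   ⟨.hex, [m34, m31], m34, [f79]⟩,
   ⟨.hex, [m34, m31], m35, [f79]⟩]

/-- The 5 orthogonal blocks. -/
def orthogonal : List Block :=
  [⟨.ort, [m12, m20], m27, [f91]⟩,
   ⟨.ort, [m12, m20], m10, [f91]⟩,
   ⟨.ort, [m12, m6], m10, [f91]⟩,
   ⟨.ort, [m21, m6], m27, [f91]⟩,
   ⟨.ort, [m21, m6], m10, [f91]⟩]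

end Pool.Agent.H21.FT.Catalogue

namespace Pool.Agent.H21.FT

/-- The 93 blocks. -/
def catalogue : List Block :=
  Catalogue.cubic ++ Catalogue.tetragonal ++ Catalogue.hexagonal ++ Catalogue.orthogonal

end Pool.Agent.H21.FT
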