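import Pool.Agent.H21.FT.Geo
import Pool.Agent.H38.FT.Defs

/-!
# Conjugation of the seven constructions
-/

namespace Pool.Agent.H21.FT

open Pool.Agent.H38.FT (Cfg)

variable {X : Type*}

theorem grp_cnj (f A B s : Equiv.Perm X) :
    grp (f * A * f⁻¹) (f * B * f⁻¹) (f * s * f⁻¹) = (grp A B s).map (MulAut.conj f).toMonoidHom := by
  unfold grp
  rw [MonoidHom.map_closure]
  congr 1
  simp [Set.image_insert_eq]

theorem stab_cnj (f A B : Equiv.Perm X) :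
    stab (f * A * f⁻¹) (f * B * f⁻¹) = (stab A B).map (MulAut.conj f).toMonoidHom := by
  unfold stab
  rw [MonoidHom.map_closure]
  congr 1
  simp [Set.image_insert_eq]

private theorem mem_map_conj {f : Equiv.Perm X} {G : Subgroup (Equiv.Perm X)} {g : Equiv.Perm X} :
    g ∈ G.map (MulAut.conj f).toMonoidHom ↔ ∃ h ∈ G, g = f * h * f⁻¹ := by
  rw [Subgroup.mem_map]
  constructor
  · rintro ⟨h, hh, rfl⟩; exact ⟨h, hh, by simp⟩
  · rintro ⟨h, hh, rfl⟩; exact ⟨h, hh, by simp⟩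

private theorem cj_apply (f g : Equiv.Perm X) (x : X) : (f * g * f⁻¹) (f x) = f (g x) := by
  simp [Equiv.Perm.mul_apply]

private theorem map_cj (f g : Equiv.Perm X) (e : Sym2 X) :
    Sym2.map (f * g * f⁻¹) (Sym2.map f e) = Sym2.map f (Sym2.map g e) := by
  rw [Sym2.map_map, Sym2.map_map]
  congr 1
  funext x
  exact cj_apply f g x

private theorem cj_inv (f g : Equiv.Perm X) : (f * g * f⁻¹)⁻¹ = f * g⁻¹ * f⁻¹ := by group

private theorem cj_eq_one {f g : Equiv.Perm X} : f * g * f⁻¹ = 1 ↔ g = 1 := by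
  constructor
  · intro h
    have : g = f⁻¹ * (f * g * f⁻¹) * f := by group
    rw [this, h]; group
  · rintro rfl; group

private theorem cj_inj {f g h : Equiv.Perm X} : f * g * f⁻¹ = f * h * f⁻¹ ↔ g = h := by
  constructor
  · intro e
    have e1 := congrArg (fun k => f⁻¹ * k * f) e
    simpa [mul_assoc] using e1
  · rintro rfl; rfl

private theorem cj_mul (f g h : Equiv.Perm X) :
    (f * g * f⁻¹) * (f * h * f⁻¹) = f * (g * h) * f⁻¹ := by group

theorem faceGens_cnj (c : Cls) (f A B s : Equiv.Perm X) :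
    faceGens c (f * A * f⁻¹) (f * B * f⁻¹) (f * s * f⁻¹) =
      (MulAut.conj f).toMonoidHom '' faceGens c A B s := by
  cases c <;> simp [faceGens, Set.image_insert_eq, mul_assoc]

theorem faceEdges_cnj (c : Cls) (f A B s : Equiv.Perm X) (o : X) :
    faceEdges c (f * A * f⁻¹) (f * B * f⁻¹) (f * s * f⁻¹) (f o) =
      Sym2.map f '' faceEdges c A B s o := by
  cases c <;> simp [faceEdges, Set.image_insert_eq, Equiv.Perm.mul_apply, Sym2.map_mk]

theorem face_cnj (c : Cls) (f A B s : Equiv.Perm X) (o : X) :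
    face c (f * A * f⁻¹) (f * B * f⁻¹) (f * s * f⁻¹) (f o) = Sym2.map f '' face c A B s o := by
  ext e
  unfold face
  rw [faceGens_cnj, faceEdges_cnj, ← MonoidHom.map_closure]
  simp only [Set.mem_setOf_eq, Set.mem_image]
  constructor
  · rintro ⟨g, hg, e₀, ⟨e₁, he₁, rfl⟩, rfl⟩
    obtain ⟨h, hh, rfl⟩ := mem_map_conj.1 hg
    exact ⟨Sym2.map h e₁, ⟨h, hh, e₁, he₁, rfl⟩, (map_cj f h e₁).symm⟩
  · rintro ⟨e', ⟨h, hh, e₁, he₁, rfl⟩, rfl⟩
    exact ⟨f * h * f⁻¹, mem_map_conj.2 ⟨h, hh, rfl⟩, Sym2.map f e₁, ⟨e₁, he₁, rfl⟩,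
      (map_cj f h e₁).symm⟩

theorem cfg_cnj (c : Cls) (f A B s : Equiv.Perm X) (o : X) :
    cfg c (f * A * f⁻¹) (f * B * f⁻¹) (f * s * f⁻¹) (f o) = (cfg c A B s o).map f := by
  have e0 : s(f o, (f * s * f⁻¹) (f o)) = Sym2.map f s(o, s o) := by
    rw [cj_apply]; rfl
  unfold cfg Cfg.map
  rw [grp_cnj, face_cnj, e0]
  congr 1
  · ext x
    simp only [Set.mem_setOf_eq, Set.mem_image]
    constructor
    · rintro ⟨g, hg, rfl⟩
      obtain ⟨h, hh, rfl⟩ := mem_map_conj.1 hg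
      exact ⟨h o, ⟨h, hh, rfl⟩, (cj_apply f h o).symm⟩
    · rintro ⟨y, ⟨h, hh, rfl⟩, rfl⟩
      exact ⟨f * h * f⁻¹, mem_map_conj.2 ⟨h, hh, rfl⟩, (cj_apply f h o).symm⟩
  · ext x
    simp only [Set.mem_setOf_eq, Set.mem_image]
    constructor
    · rintro ⟨g, hg, rfl⟩
      obtain ⟨h, hh, rfl⟩ := mem_map_conj.1 hg
      exact ⟨Sym2.map h s(o, s o), ⟨h, hh, rfl⟩, (map_cj f h _).symm⟩
    · rintro ⟨y, ⟨h, hh, rfl⟩, rfl⟩
      exact ⟨f * h * f⁻¹, mem_map_conj.2 ⟨h, hh, rfl⟩, (map_cj f h _).symm⟩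
  · have key : ∀ (h : Equiv.Perm X) (F : Set (Sym2 X)),
        Sym2.map (f * h * f⁻¹) '' (Sym2.map f '' F) = Sym2.map f '' (Sym2.map h '' F) := by
      intro h F
      rw [Set.image_image, Set.image_image]
      exact Set.image_congr fun e _ => map_cj f h e
    ext x
    simp only [Set.mem_setOf_eq, Set.mem_image (f := fun F => Sym2.map f '' F)]
    constructor
    · rintro ⟨g, hg, rfl⟩
      obtain ⟨h, hh, rfl⟩ := mem_map_conj.1 hg
      exact ⟨Sym2.map h '' face c A B s o, ⟨h, hh, rfl⟩, (key h _).symm⟩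
    · rintro ⟨y, ⟨h, hh, rfl⟩, rfl⟩
      exact ⟨f * h * f⁻¹, mem_map_conj.2 ⟨h, hh, rfl⟩, (key h _).symm⟩

theorem rel_cnj {c : Cls} (f : Equiv.Perm X) {A B s : Equiv.Perm X} {o : X}
    (h : Rel c A B s o) : Rel c (f * A * f⁻¹) (f * B * f⁻¹) (f * s * f⁻¹) (f o) := by
  cases c <;> simp only [Rel, cj_mul, cj_eq_one, cj_inj, cj_inv, cj_apply,
    EmbeddingLike.apply_eq_iff_eq] at h ⊢ <;> exact h

private theorem free_cnj {f : Equiv.Perm X} {A B s : Equiv.Perm X} {o : X}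
    (h : Free A B s o) : Free (f * A * f⁻¹) (f * B * f⁻¹) (f * s * f⁻¹) (f o) := by
  intro g hg
  rw [stab_cnj] at hg
  obtain ⟨k, hk, rfl⟩ := mem_map_conj.1 hg
  rw [cj_apply, cj_apply, EmbeddingLike.apply_eq_iff_eq, cj_eq_one]
  exact h k hk

private theorem apart_cnj {f : Equiv.Perm X} {A B s : Equiv.Perm X} {o : X}
    (h : Apart A B s o) : Apart (f * A * f⁻¹) (f * B * f⁻¹) (f * s * f⁻¹) (f o) := by
  intro g hg
  rw [stab_cnj] at hg
  obtain ⟨k, hk, rfl⟩ := mem_map_conj.1 hg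
  rw [cj_apply, cj_inv, cj_apply, cj_apply, ne_eq, EmbeddingLike.apply_eq_iff_eq]
  exact h k hk

private theorem two_cnj {f : Equiv.Perm X} {A B s C : Equiv.Perm X} {o : X}
    (h : ∀ g ∈ stab A B, g (s o) = s o → g = 1 ∨ g = C) :
    ∀ g ∈ stab (f * A * f⁻¹) (f * B * f⁻¹), g ((f * s * f⁻¹) (f o)) = (f * s * f⁻¹) (f o) →
      g = 1 ∨ g = f * C * f⁻¹ := by
  intro g hg
  rw [stab_cnj] at hg
  obtain ⟨k, hk, rfl⟩ := mem_map_conj.1 hg
  rw [cj_apply, cj_apply, EmbeddingLike.apply_eq_iff_eq, cj_eq_one, cj_inj]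
  exact h k hk

theorem nondeg_cnj {c : Cls} (f : Equiv.Perm X) {A B s : Equiv.Perm X} {o : X}
    (h : Nondeg c A B s o) : Nondeg c (f * A * f⁻¹) (f * B * f⁻¹) (f * s * f⁻¹) (f o) := by
  have e1 : ∀ x y : X, f x ≠ f y ↔ x ≠ y := fun x y => by simp
  cases c
  case reg =>
    obtain ⟨h1, h2, h3, h4⟩ := h
    refine ⟨by rwa [cj_apply, e1], two_cnj h2, ?_, ?_⟩
    · rwa [cj_apply, cj_apply, e1]
    · rwa [cj_apply, cj_apply, cj_apply, e1]
  case c2 =>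
    obtain ⟨h1, h2, h3, h4⟩ := h
    exact ⟨by rwa [cj_apply, e1], free_cnj h2, by rwa [ne_eq, cj_eq_one],
      by rwa [cj_mul, ne_eq, cj_eq_one]⟩
  case c20 =>
    obtain ⟨h1, h2, h3, h4⟩ := h
    exact ⟨by rwa [cj_apply, e1], free_cnj h2, by rwa [ne_eq, cj_eq_one],
      by rwa [cj_mul, ne_eq, cj_eq_one]⟩
  case c21 =>
    obtain ⟨h1, h2, h3, h4, h5⟩ := h
    exact ⟨by rwa [cj_apply, e1], free_cnj h2, by rwa [ne_eq, cj_eq_one],
      by rwa [ne_eq, cj_eq_one], by rwa [ne_eq, cj_inj]⟩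
  case c22 =>
    obtain ⟨h1, h2, h3, h4⟩ := h
    exact ⟨by rwa [cj_apply, e1], two_cnj h2, by rwa [cj_inv, cj_apply, cj_apply, e1],
      apart_cnj h4⟩
  case c4a =>
    obtain ⟨h1, h2, h3, h4⟩ := h
    exact ⟨by rwa [cj_apply, e1], free_cnj h2, by rwa [ne_eq, cj_eq_one], apart_cnj h4⟩
  case c4b =>
    obtain ⟨h1, h2, h3, h4, h5⟩ := h
    exact ⟨by rwa [cj_apply, e1], free_cnj h2, by rwa [ne_eq, cj_eq_one],
      by rwa [ne_eq, cj_eq_one], apart_cnj h5⟩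

theorem simpleFace_cnj {c : Cls} (f : Equiv.Perm X) {A B s : Equiv.Perm X} {o : X}
    (h : SimpleFace c A B s o) :
    SimpleFace c (f * A * f⁻¹) (f * B * f⁻¹) (f * s * f⁻¹) (f o) := by
  intro x hx
  obtain ⟨y, rfl⟩ := f.surjective x
  have hm : ∀ (z : X) (e : Sym2 X), f z ∈ Sym2.map f e ↔ z ∈ e := by
    intro z e
    rw [Sym2.mem_map]
    constructor
    · rintro ⟨w, hw, hwz⟩
      rwa [f.injective hwz] at hw
    · intro hz
      exact ⟨z, hz, rfl⟩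
  have hinj : Function.Injective (Sym2.map f) := Sym2.map.injective f.injective
  rw [face_cnj] at hx ⊢
  have hset : {e | e ∈ Sym2.map f '' face c A B s o ∧ f y ∈ e} =
      Sym2.map f '' {e | e ∈ face c A B s o ∧ y ∈ e} := by
    ext e
    simp only [Set.mem_setOf_eq, Set.mem_image]
    constructor
    · rintro ⟨⟨e', he', rfl⟩, hy⟩
      exact ⟨e', ⟨he', (hm y e').1 hy⟩, rfl⟩
    · rintro ⟨e', ⟨he', hy⟩, rfl⟩
      exact ⟨⟨e', he', rfl⟩, (hm y e').2 hy⟩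
  rw [hset, Set.ncard_image_of_injective _ hinj]
  apply h
  obtain ⟨e, ⟨e', he', rfl⟩, hy⟩ := hx
  exact ⟨e', he', (hm y e').1 hy⟩

theorem good_cnj {c : Cls} (f : Equiv.Perm X) {A B s : Equiv.Perm X} {o : X}
    (h : Good c A B s o) : Good c (f * A * f⁻¹) (f * B * f⁻¹) (f * s * f⁻¹) (f o) where
  hA := by rw [cj_apply, h.hA]
  hB := by rw [cj_apply, h.hB]
  rel := rel_cnj f h.rel
  nondeg := nondeg_cnj f h.nondeg
  simple := simpleFace_cnj f h.simple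
  stab := by
    intro g hg ho
    rw [grp_cnj] at hg
    rw [stab_cnj]
    obtain ⟨k, hk, rfl⟩ := mem_map_conj.1 hg
    rw [cj_apply, EmbeddingLike.apply_eq_iff_eq] at ho
    exact mem_map_conj.2 ⟨k, h.stab k hk ho, rfl⟩

end Pool.Agent.H21.FT
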