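import Pool.Agent.H21.FT.DefsC

/-!
# Kernel checks: the Boolean check of a block and its row
-/

namespace Pool.Agent.H21.FT

/-- The check of a block and its row. -/
def blockChk (k : Kind) (b : Block) (rl : Row × List LatE) : Bool :=
  decide (b.kind = k) && decide (b.gens = rl.1.gens) && decide (b.S = rl.1.S) &&
    rl.1.reps.all (fun p => k.auts.any (fun M => decide (p.M = M))) && rl.1.ok &&
    decide (b.fams.length = rl.2.length) &&
    (b.fams.zip rl.2).all (fun fl => famOK rl.1 fl.1 fl.2 && excOK rl.1 fl.1 fl.2)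

theorem blockOK_of_chk {k : Kind} {b : Block} {rl : Row × List LatE}
    (h : blockChk k b rl = true) : BlockOK k b rl := by
  simp only [blockChk, Bool.and_eq_true, decide_eq_true_eq, List.all_eq_true, List.any_eq_true] at h
  obtain ⟨⟨⟨⟨⟨⟨h1, h2⟩, h3⟩, h4⟩, h5⟩, h6⟩, h7⟩ := h
  refine ⟨h1, h2, h3, ?_, h5, h6, ?_⟩
  · intro p hp
    obtain ⟨M, hM, hpM⟩ := h4 p hp
    rw [hpM]; exact hM
  · intro fl hfl
    exact h7 fl hfl

end Pool.Agent.H21.FT
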