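import Pool.Agent.H21.FT.ListSplit
import Pool.Agent.H21.FT.KerAxBase
import Pool.Agent.H21.FT.RowsHex

/-!
# Kernel checks: the hexagonal rows
-/

namespace Pool.Agent.H21.FT

set_option maxRecDepth 100000 in
theorem hex_len : hexBlocks.length = hexRows.length := by decide +kernel

set_option maxRecDepth 100000 in
theorem hex_chk_p0 : (((hexBlocks.zip hexRows).drop 0).take 4).all
    (fun x => blockChk .hex x.1 x.2) = true := by
  decide +kernel

set_option maxRecDepth 100000 in
theorem hex_chk_p1 : (((hexBlocks.zip hexRows).drop 4).take 4).all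
    (fun x => blockChk .hex x.1 x.2) = true := by
  decide +kernel

set_option maxRecDepth 100000 in
theorem hex_chk_p2 : (((hexBlocks.zip hexRows).drop 8).take 4).all
    (fun x => blockChk .hex x.1 x.2) = true := by
  decide +kernel

set_option maxRecDepth 100000 in
theorem hex_chk_p3 : (((hexBlocks.zip hexRows).drop 12).take 4).all
    (fun x => blockChk .hex x.1 x.2) = true := by
  decide +kernel

set_option maxRecDepth 100000 in
theorem hex_chk_p4 : (((hexBlocks.zip hexRows).drop 16).take 4).all
    (fun x => blockChk .hex x.1 x.2) = true := by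
  decide +kernel

set_option maxRecDepth 100000 in
theorem hex_chk_p5 : (((hexBlocks.zip hexRows).drop 20).take 4).all
    (fun x => blockChk .hex x.1 x.2) = true := by
  decide +kernel

set_option maxRecDepth 100000 in
theorem hex_chk_p6 : (((hexBlocks.zip hexRows).drop 24).take 4).all
    (fun x => blockChk .hex x.1 x.2) = true := by
  decide +kernel

set_option maxRecDepth 100000 in
theorem hex_chk_p7 : (((hexBlocks.zip hexRows).drop 28).take 4).all
    (fun x => blockChk .hex x.1 x.2) = true := by
  decide +kernel

set_option maxRecDepth 100000 in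
theorem hex_chk_p8 : (((hexBlocks.zip hexRows).drop 32).take 4).all
    (fun x => blockChk .hex x.1 x.2) = true := by
  decide +kernel

set_option maxRecDepth 100000 in
theorem hex_chk_p9 : (((hexBlocks.zip hexRows).drop 36).take 4).all
    (fun x => blockChk .hex x.1 x.2) = true := by
  decide +kernel

set_option maxRecDepth 100000 in
theorem hex_chk_p10 : (((hexBlocks.zip hexRows).drop 40).take 4).all
    (fun x => blockChk .hex x.1 x.2) = true := by
  decide +kernel

set_option maxRecDepth 100000 in
theorem hex_chk_p11 : (((hexBlocks.zip hexRows).drop 44).take 4).all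
    (fun x => blockChk .hex x.1 x.2) = true := by
  decide +kernel

set_option maxRecDepth 100000 in
theorem hex_chk_p12 : (((hexBlocks.zip hexRows).drop 48).take 4).all
    (fun x => blockChk .hex x.1 x.2) = true := by
  decide +kernel

set_option maxRecDepth 100000 in
theorem hex_chk_p13 : ((hexBlocks.zip hexRows).drop 52).all
    (fun x => blockChk .hex x.1 x.2) = true := by
  decide +kernel

theorem hex_chk : (hexBlocks.zip hexRows).all
    (fun x => blockChk .hex x.1 x.2) = true := by
  change ((hexBlocks.zip hexRows).drop 0).all _ = true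
  refine all_step 0 4 hex_chk_p0 ?_
  refine all_step 4 4 hex_chk_p1 ?_
  refine all_step 8 4 hex_chk_p2 ?_
  refine all_step 12 4 hex_chk_p3 ?_
  refine all_step 16 4 hex_chk_p4 ?_
  refine all_step 20 4 hex_chk_p5 ?_
  refine all_step 24 4 hex_chk_p6 ?_
  refine all_step 28 4 hex_chk_p7 ?_
  refine all_step 32 4 hex_chk_p8 ?_
  refine all_step 36 4 hex_chk_p9 ?_
  refine all_step 40 4 hex_chk_p10 ?_
  refine all_step 44 4 hex_chk_p11 ?_
  refine all_step 48 4 hex_chk_p12 ?_
  exact hex_chk_p13

theorem hex_ok : hexBlocks.length = hexRows.length ∧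
    ∀ x ∈ hexBlocks.zip hexRows, BlockOK .hex x.1 x.2 :=
  ⟨hex_len, fun x hx => blockOK_of_chk (List.all_eq_true.mp hex_chk x hx)⟩

end Pool.Agent.H21.FT
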