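import Pool.Agent.H21.FT.Row

/-!
# Certificates for the orthogonal blocks of the table
-/

namespace Pool.Agent.H21.FT

def ortRow0 : Row :=
  ⟨[⟨⟨-1, 0, 0⟩, ⟨0, -1, 0⟩, ⟨0, 0, 1⟩⟩], ⟨⟨1, 0, 0⟩, ⟨0, -1, 0⟩, ⟨0, 0, 1⟩⟩, ⟨⟨1, 0, 0⟩, ⟨0, -1, 0⟩, ⟨0, 0, 1⟩⟩, 2,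
   [⟨⟨⟨1, 0, 0⟩, ⟨0, 1, 0⟩, ⟨0, 0, 1⟩⟩, ⟨⟨0, 0, 0⟩, ⟨0, 0, 0⟩, ⟨0, 0, 0⟩⟩⟩,
    ⟨⟨⟨-1, 0, 0⟩, ⟨0, -1, 0⟩, ⟨0, 0, 1⟩⟩, ⟨⟨0, 0, 0⟩, ⟨0, 0, 0⟩, ⟨0, 0, 0⟩⟩⟩,
    ⟨⟨⟨1, 0, 0⟩, ⟨0, -1, 0⟩, ⟨0, 0, 1⟩⟩, ⟨⟨1, 0, 0⟩, ⟨0, 1, 0⟩, ⟨0, 0, 1⟩⟩⟩,
    ⟨⟨⟨-1, 0, 0⟩, ⟨0, 1, 0⟩, ⟨0, 0, 1⟩⟩, ⟨⟨-1, 0, 0⟩, ⟨0, -1, 0⟩, ⟨0, 0, 1⟩⟩⟩],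
   [(0, 0), (0, 1), (1, 1)],
   [⟨⟨0, 0, 0⟩, ⟨0, 0, 0⟩, ⟨0, 0, 0⟩⟩,
    ⟨⟨-2, 0, 0⟩, ⟨0, 0, 0⟩, ⟨0, 0, -2⟩⟩,
    ⟨⟨2, 0, 0⟩, ⟨0, 0, 0⟩, ⟨0, 0, -2⟩⟩,
    ⟨⟨2, 0, 0⟩, ⟨0, 2, 0⟩, ⟨0, 0, 0⟩⟩,
    ⟨⟨2, 0, 0⟩, ⟨0, 0, 0⟩, ⟨0, 0, 2⟩⟩,
    ⟨⟨-2, 0, 0⟩, ⟨0, -2, 0⟩, ⟨0, 0, 0⟩⟩,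
    ⟨⟨-2, 0, 0⟩, ⟨0, 0, 0⟩, ⟨0, 0, 2⟩⟩],
   [[(1, 0), (2, 0), (2, 1)],
    [(0, 0), (3, 0), (3, 2)],
    [(3, 3), (0, 4), (0, 0)],
    [(2, 5), (1, 6), (1, 0)]]⟩

def ortLat0 : List LatE :=
  [⟨⟨⟨2, 0, 0⟩, ⟨0, 2, 0⟩, ⟨-1, -1, 1⟩⟩, 4, ⟨⟨0, 0, 0⟩, ⟨0, 0, 0⟩, ⟨0, 0, 0⟩⟩⟩]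

def ortRow1 : Row :=
  ⟨[⟨⟨-1, 0, 0⟩, ⟨0, -1, 0⟩, ⟨0, 0, 1⟩⟩], ⟨⟨1, 0, 0⟩, ⟨0, -1, 0⟩, ⟨0, 0, -1⟩⟩, ⟨⟨1, 0, 0⟩, ⟨0, -1, 0⟩, ⟨0, 0, -1⟩⟩, 2,
   [⟨⟨⟨1, 0, 0⟩, ⟨0, 1, 0⟩, ⟨0, 0, 1⟩⟩, ⟨⟨0, 0, 0⟩, ⟨0, 0, 0⟩, ⟨0, 0, 0⟩⟩⟩,
    ⟨⟨⟨-1, 0, 0⟩, ⟨0, -1, 0⟩, ⟨0, 0, 1⟩⟩, ⟨⟨0, 0, 0⟩, ⟨0, 0, 0⟩, ⟨0, 0, 0⟩⟩⟩,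
    ⟨⟨⟨1, 0, 0⟩, ⟨0, -1, 0⟩, ⟨0, 0, -1⟩⟩, ⟨⟨1, 0, 0⟩, ⟨0, 1, 0⟩, ⟨0, 0, 1⟩⟩⟩,
    ⟨⟨⟨-1, 0, 0⟩, ⟨0, 1, 0⟩, ⟨0, 0, -1⟩⟩, ⟨⟨-1, 0, 0⟩, ⟨0, -1, 0⟩, ⟨0, 0, 1⟩⟩⟩],
   [(0, 0), (0, 1), (1, 1)],
   [⟨⟨0, 0, 0⟩, ⟨0, 0, 0⟩, ⟨0, 0, 0⟩⟩,
    ⟨⟨-2, 0, 0⟩, ⟨0, 0, 0⟩, ⟨0, 0, 0⟩⟩,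
    ⟨⟨2, 0, 0⟩, ⟨0, 0, 0⟩, ⟨0, 0, 0⟩⟩,
    ⟨⟨2, 0, 0⟩, ⟨0, 2, 0⟩, ⟨0, 0, 0⟩⟩,
    ⟨⟨-2, 0, 0⟩, ⟨0, -2, 0⟩, ⟨0, 0, 0⟩⟩],
   [[(1, 0), (2, 0), (2, 1)],
    [(0, 0), (3, 0), (3, 2)],
    [(3, 3), (0, 2), (0, 0)],
    [(2, 4), (1, 1), (1, 0)]]⟩

def ortLat1 : List LatE :=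
  [⟨⟨⟨1, 0, 0⟩, ⟨0, 1, 0⟩, ⟨0, 0, 2⟩⟩, 2, ⟨⟨0, 0, 1⟩, ⟨0, 0, 0⟩, ⟨0, 0, 0⟩⟩⟩]

def ortRow2 : Row :=
  ⟨[⟨⟨-1, 0, 0⟩, ⟨0, 1, 0⟩, ⟨0, 0, 1⟩⟩], ⟨⟨1, 0, 0⟩, ⟨0, 1, 0⟩, ⟨0, 0, -1⟩⟩, ⟨⟨1, 0, 0⟩, ⟨0, 1, 0⟩, ⟨0, 0, -1⟩⟩, 2,
   [⟨⟨⟨1, 0, 0⟩, ⟨0, 1, 0⟩, ⟨0, 0, 1⟩⟩, ⟨⟨0, 0, 0⟩, ⟨0, 0, 0⟩, ⟨0, 0, 0⟩⟩⟩,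
    ⟨⟨⟨-1, 0, 0⟩, ⟨0, 1, 0⟩, ⟨0, 0, 1⟩⟩, ⟨⟨0, 0, 0⟩, ⟨0, 0, 0⟩, ⟨0, 0, 0⟩⟩⟩,
    ⟨⟨⟨1, 0, 0⟩, ⟨0, 1, 0⟩, ⟨0, 0, -1⟩⟩, ⟨⟨1, 0, 0⟩, ⟨0, 1, 0⟩, ⟨0, 0, 1⟩⟩⟩,
    ⟨⟨⟨-1, 0, 0⟩, ⟨0, 1, 0⟩, ⟨0, 0, -1⟩⟩, ⟨⟨-1, 0, 0⟩, ⟨0, 1, 0⟩, ⟨0, 0, 1⟩⟩⟩],
   [(0, 0), (0, 1), (1, 1)],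
   [⟨⟨0, 0, 0⟩, ⟨0, 0, 0⟩, ⟨0, 0, 0⟩⟩,
    ⟨⟨-2, 0, 0⟩, ⟨0, -2, 0⟩, ⟨0, 0, 0⟩⟩,
    ⟨⟨2, 0, 0⟩, ⟨0, -2, 0⟩, ⟨0, 0, 0⟩⟩,
    ⟨⟨2, 0, 0⟩, ⟨0, 0, 0⟩, ⟨0, 0, 0⟩⟩,
    ⟨⟨2, 0, 0⟩, ⟨0, 2, 0⟩, ⟨0, 0, 0⟩⟩,
    ⟨⟨-2, 0, 0⟩, ⟨0, 0, 0⟩, ⟨0, 0, 0⟩⟩,
    ⟨⟨-2, 0, 0⟩, ⟨0, 2, 0⟩, ⟨0, 0, 0⟩⟩],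
   [[(1, 0), (2, 0), (2, 1)],
    [(0, 0), (3, 0), (3, 2)],
    [(3, 3), (0, 4), (0, 0)],
    [(2, 5), (1, 6), (1, 0)]]⟩

def ortLat2 : List LatE :=
  [⟨⟨⟨1, 0, 0⟩, ⟨0, 1, 0⟩, ⟨0, 0, 2⟩⟩, 2, ⟨⟨0, 0, 1⟩, ⟨0, 0, 0⟩, ⟨0, 0, 0⟩⟩⟩]

def ortRow3 : Row :=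
  ⟨[⟨⟨1, 0, 0⟩, ⟨0, -1, 0⟩, ⟨0, 0, -1⟩⟩, ⟨⟨-1, 0, 0⟩, ⟨0, 1, 0⟩, ⟨0, 0, -1⟩⟩], ⟨⟨1, 0, 0⟩, ⟨0, 1, 0⟩, ⟨0, 0, 1⟩⟩, ⟨⟨1, 0, 0⟩, ⟨0, 1, 0⟩, ⟨0, 0, 1⟩⟩, 4,
   [⟨⟨⟨1, 0, 0⟩, ⟨0, 1, 0⟩, ⟨0, 0, 1⟩⟩, ⟨⟨0, 0, 0⟩, ⟨0, 0, 0⟩, ⟨0, 0, 0⟩⟩⟩,
    ⟨⟨⟨1, 0, 0⟩, ⟨0, -1, 0⟩, ⟨0, 0, -1⟩⟩, ⟨⟨0, 0, 0⟩, ⟨0, 0, 0⟩, ⟨0, 0, 0⟩⟩⟩,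
    ⟨⟨⟨-1, 0, 0⟩, ⟨0, 1, 0⟩, ⟨0, 0, -1⟩⟩, ⟨⟨0, 0, 0⟩, ⟨0, 0, 0⟩, ⟨0, 0, 0⟩⟩⟩,
    ⟨⟨⟨-1, 0, 0⟩, ⟨0, -1, 0⟩, ⟨0, 0, 1⟩⟩, ⟨⟨0, 0, 0⟩, ⟨0, 0, 0⟩, ⟨0, 0, 0⟩⟩⟩],
   [(0, 0), (0, 1), (1, 1)],
   [⟨⟨0, 0, 0⟩, ⟨0, 0, 0⟩, ⟨0, 0, 0⟩⟩,
    ⟨⟨1, 0, 0⟩, ⟨0, 1, 0⟩, ⟨0, 0, 1⟩⟩,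
    ⟨⟨-1, 0, 0⟩, ⟨0, -1, 0⟩, ⟨0, 0, -1⟩⟩,
    ⟨⟨1, 0, 0⟩, ⟨0, -1, 0⟩, ⟨0, 0, -1⟩⟩,
    ⟨⟨-1, 0, 0⟩, ⟨0, 1, 0⟩, ⟨0, 0, 1⟩⟩,
    ⟨⟨-1, 0, 0⟩, ⟨0, 1, 0⟩, ⟨0, 0, -1⟩⟩,
    ⟨⟨1, 0, 0⟩, ⟨0, -1, 0⟩, ⟨0, 0, 1⟩⟩,
    ⟨⟨-1, 0, 0⟩, ⟨0, -1, 0⟩, ⟨0, 0, 1⟩⟩,
    ⟨⟨1, 0, 0⟩, ⟨0, 1, 0⟩, ⟨0, 0, -1⟩⟩],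
   [[(1, 0), (2, 0), (0, 1), (0, 2)],
    [(0, 0), (3, 0), (1, 3), (1, 4)],
    [(3, 0), (0, 0), (2, 5), (2, 6)],
    [(2, 0), (1, 0), (3, 7), (3, 8)]]⟩

def ortLat3 : List LatE :=
  [⟨⟨⟨2, 0, 0⟩, ⟨-1, 1, 0⟩, ⟨-1, 0, 1⟩⟩, 2, ⟨⟨0, 0, 0⟩, ⟨0, 0, 0⟩, ⟨0, 0, 0⟩⟩⟩]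

def ortRow4 : Row :=
  ⟨[⟨⟨1, 0, 0⟩, ⟨0, -1, 0⟩, ⟨0, 0, -1⟩⟩, ⟨⟨-1, 0, 0⟩, ⟨0, 1, 0⟩, ⟨0, 0, -1⟩⟩], ⟨⟨1, 0, 0⟩, ⟨0, 1, 0⟩, ⟨0, 0, -1⟩⟩, ⟨⟨1, 0, 0⟩, ⟨0, 1, 0⟩, ⟨0, 0, -1⟩⟩, 4,
   [⟨⟨⟨1, 0, 0⟩, ⟨0, 1, 0⟩, ⟨0, 0, 1⟩⟩, ⟨⟨0, 0, 0⟩, ⟨0, 0, 0⟩, ⟨0, 0, 0⟩⟩⟩,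
    ⟨⟨⟨1, 0, 0⟩, ⟨0, -1, 0⟩, ⟨0, 0, -1⟩⟩, ⟨⟨0, 0, 0⟩, ⟨0, 0, 0⟩, ⟨0, 0, 0⟩⟩⟩,
    ⟨⟨⟨-1, 0, 0⟩, ⟨0, 1, 0⟩, ⟨0, 0, -1⟩⟩, ⟨⟨0, 0, 0⟩, ⟨0, 0, 0⟩, ⟨0, 0, 0⟩⟩⟩,
    ⟨⟨⟨-1, 0, 0⟩, ⟨0, -1, 0⟩, ⟨0, 0, 1⟩⟩, ⟨⟨0, 0, 0⟩, ⟨0, 0, 0⟩, ⟨0, 0, 0⟩⟩⟩,
    ⟨⟨⟨1, 0, 0⟩, ⟨0, 1, 0⟩, ⟨0, 0, -1⟩⟩, ⟨⟨1, 0, 0⟩, ⟨0, 1, 0⟩, ⟨0, 0, 1⟩⟩⟩,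
    ⟨⟨⟨1, 0, 0⟩, ⟨0, -1, 0⟩, ⟨0, 0, 1⟩⟩, ⟨⟨1, 0, 0⟩, ⟨0, -1, 0⟩, ⟨0, 0, -1⟩⟩⟩,
    ⟨⟨⟨-1, 0, 0⟩, ⟨0, 1, 0⟩, ⟨0, 0, 1⟩⟩, ⟨⟨-1, 0, 0⟩, ⟨0, 1, 0⟩, ⟨0, 0, -1⟩⟩⟩,
    ⟨⟨⟨-1, 0, 0⟩, ⟨0, -1, 0⟩, ⟨0, 0, -1⟩⟩, ⟨⟨-1, 0, 0⟩, ⟨0, -1, 0⟩, ⟨0, 0, 1⟩⟩⟩],
   [(0, 0), (0, 1), (1, 1), (0, 2), (1, 2), (2, 2), (3, 2)],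
   [⟨⟨0, 0, 0⟩, ⟨0, 0, 0⟩, ⟨0, 0, 0⟩⟩,
    ⟨⟨-2, 0, 0⟩, ⟨0, -2, 0⟩, ⟨0, 0, 0⟩⟩,
    ⟨⟨-2, 0, 0⟩, ⟨0, 2, 0⟩, ⟨0, 0, 0⟩⟩,
    ⟨⟨2, 0, 0⟩, ⟨0, -2, 0⟩, ⟨0, 0, 0⟩⟩,
    ⟨⟨2, 0, 0⟩, ⟨0, 2, 0⟩, ⟨0, 0, 0⟩⟩,
    ⟨⟨0, 0, 0⟩, ⟨0, 2, 0⟩, ⟨0, 0, 2⟩⟩,
    ⟨⟨2, 0, 0⟩, ⟨0, 0, 0⟩, ⟨0, 0, 2⟩⟩,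
    ⟨⟨0, 0, 0⟩, ⟨0, -2, 0⟩, ⟨0, 0, -2⟩⟩,
    ⟨⟨2, 0, 0⟩, ⟨0, 0, 0⟩, ⟨0, 0, -2⟩⟩,
    ⟨⟨0, 0, 0⟩, ⟨0, 2, 0⟩, ⟨0, 0, -2⟩⟩,
    ⟨⟨-2, 0, 0⟩, ⟨0, 0, 0⟩, ⟨0, 0, -2⟩⟩,
    ⟨⟨0, 0, 0⟩, ⟨0, -2, 0⟩, ⟨0, 0, 2⟩⟩,
    ⟨⟨-2, 0, 0⟩, ⟨0, 0, 0⟩, ⟨0, 0, 2⟩⟩],
   [[(1, 0), (2, 0), (4, 0), (4, 1)],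
    [(0, 0), (3, 0), (5, 0), (5, 2)],
    [(3, 0), (0, 0), (6, 0), (6, 3)],
    [(2, 0), (1, 0), (7, 0), (7, 4)],
    [(5, 5), (6, 6), (0, 4), (0, 0)],
    [(4, 7), (7, 8), (1, 3), (1, 0)],
    [(7, 9), (4, 10), (2, 2), (2, 0)],
    [(6, 11), (5, 12), (3, 1), (3, 0)]]⟩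

def ortLat4 : List LatE :=
  [⟨⟨⟨2, 0, 0⟩, ⟨0, 2, 0⟩, ⟨-1, -1, 1⟩⟩, 4, ⟨⟨0, 0, 0⟩, ⟨0, 0, 0⟩, ⟨0, 0, 0⟩⟩⟩]

def ortRow5 : Row :=
  ⟨[⟨⟨1, 0, 0⟩, ⟨0, -1, 0⟩, ⟨0, 0, -1⟩⟩, ⟨⟨-1, 0, 0⟩, ⟨0, 1, 0⟩, ⟨0, 0, 1⟩⟩], ⟨⟨1, 0, 0⟩, ⟨0, 1, 0⟩, ⟨0, 0, -1⟩⟩, ⟨⟨1, 0, 0⟩, ⟨0, 1, 0⟩, ⟨0, 0, -1⟩⟩, 4,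
   [⟨⟨⟨1, 0, 0⟩, ⟨0, 1, 0⟩, ⟨0, 0, 1⟩⟩, ⟨⟨0, 0, 0⟩, ⟨0, 0, 0⟩, ⟨0, 0, 0⟩⟩⟩,
    ⟨⟨⟨1, 0, 0⟩, ⟨0, -1, 0⟩, ⟨0, 0, -1⟩⟩, ⟨⟨0, 0, 0⟩, ⟨0, 0, 0⟩, ⟨0, 0, 0⟩⟩⟩,
    ⟨⟨⟨-1, 0, 0⟩, ⟨0, 1, 0⟩, ⟨0, 0, 1⟩⟩, ⟨⟨0, 0, 0⟩, ⟨0, 0, 0⟩, ⟨0, 0, 0⟩⟩⟩,
    ⟨⟨⟨-1, 0, 0⟩, ⟨0, -1, 0⟩, ⟨0, 0, -1⟩⟩, ⟨⟨0, 0, 0⟩, ⟨0, 0, 0⟩, ⟨0, 0, 0⟩⟩⟩,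
    ⟨⟨⟨1, 0, 0⟩, ⟨0, 1, 0⟩, ⟨0, 0, -1⟩⟩, ⟨⟨1, 0, 0⟩, ⟨0, 1, 0⟩, ⟨0, 0, 1⟩⟩⟩,
    ⟨⟨⟨1, 0, 0⟩, ⟨0, -1, 0⟩, ⟨0, 0, 1⟩⟩, ⟨⟨1, 0, 0⟩, ⟨0, -1, 0⟩, ⟨0, 0, -1⟩⟩⟩,
    ⟨⟨⟨-1, 0, 0⟩, ⟨0, 1, 0⟩, ⟨0, 0, -1⟩⟩, ⟨⟨-1, 0, 0⟩, ⟨0, 1, 0⟩, ⟨0, 0, 1⟩⟩⟩,
    ⟨⟨⟨-1, 0, 0⟩, ⟨0, -1, 0⟩, ⟨0, 0, 1⟩⟩, ⟨⟨-1, 0, 0⟩, ⟨0, -1, 0⟩, ⟨0, 0, -1⟩⟩⟩],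
   [(0, 0), (0, 1), (1, 1), (0, 2), (1, 2), (2, 2), (3, 2)],
   [⟨⟨0, 0, 0⟩, ⟨0, 0, 0⟩, ⟨0, 0, 0⟩⟩,
    ⟨⟨-2, 0, 0⟩, ⟨0, -2, 0⟩, ⟨0, 0, 0⟩⟩,
    ⟨⟨-2, 0, 0⟩, ⟨0, 2, 0⟩, ⟨0, 0, 0⟩⟩,
    ⟨⟨2, 0, 0⟩, ⟨0, -2, 0⟩, ⟨0, 0, 0⟩⟩,
    ⟨⟨2, 0, 0⟩, ⟨0, 2, 0⟩, ⟨0, 0, 0⟩⟩,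
    ⟨⟨0, 0, 0⟩, ⟨0, 2, 0⟩, ⟨0, 0, 2⟩⟩,
    ⟨⟨2, 0, 0⟩, ⟨0, 0, 0⟩, ⟨0, 0, 0⟩⟩,
    ⟨⟨0, 0, 0⟩, ⟨0, -2, 0⟩, ⟨0, 0, -2⟩⟩,
    ⟨⟨-2, 0, 0⟩, ⟨0, 0, 0⟩, ⟨0, 0, 0⟩⟩],
   [[(1, 0), (2, 0), (4, 0), (4, 1)],
    [(0, 0), (3, 0), (5, 0), (5, 2)],
    [(3, 0), (0, 0), (6, 0), (6, 3)],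
    [(2, 0), (1, 0), (7, 0), (7, 4)],
    [(5, 5), (6, 6), (0, 4), (0, 0)],
    [(4, 7), (7, 6), (1, 3), (1, 0)],
    [(7, 5), (4, 8), (2, 2), (2, 0)],
    [(6, 7), (5, 8), (3, 1), (3, 0)]]⟩

def ortLat5 : List LatE :=
  [⟨⟨⟨1, 0, 0⟩, ⟨0, 1, 0⟩, ⟨0, 0, 1⟩⟩, 2, ⟨⟨0, 0, 0⟩, ⟨0, 0, 0⟩, ⟨0, 0, 0⟩⟩⟩]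

def ortRow6 : Row :=
  ⟨[⟨⟨1, 0, 0⟩, ⟨0, -1, 0⟩, ⟨0, 0, 1⟩⟩, ⟨⟨-1, 0, 0⟩, ⟨0, 1, 0⟩, ⟨0, 0, 1⟩⟩], ⟨⟨1, 0, 0⟩, ⟨0, 1, 0⟩, ⟨0, 0, 1⟩⟩, ⟨⟨1, 0, 0⟩, ⟨0, 1, 0⟩, ⟨0, 0, 1⟩⟩, 4,
   [⟨⟨⟨1, 0, 0⟩, ⟨0, 1, 0⟩, ⟨0, 0, 1⟩⟩, ⟨⟨0, 0, 0⟩, ⟨0, 0, 0⟩, ⟨0, 0, 0⟩⟩⟩,
    ⟨⟨⟨1, 0, 0⟩, ⟨0, -1, 0⟩, ⟨0, 0, 1⟩⟩, ⟨⟨0, 0, 0⟩, ⟨0, 0, 0⟩, ⟨0, 0, 0⟩⟩⟩,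
    ⟨⟨⟨-1, 0, 0⟩, ⟨0, 1, 0⟩, ⟨0, 0, 1⟩⟩, ⟨⟨0, 0, 0⟩, ⟨0, 0, 0⟩, ⟨0, 0, 0⟩⟩⟩,
    ⟨⟨⟨-1, 0, 0⟩, ⟨0, -1, 0⟩, ⟨0, 0, 1⟩⟩, ⟨⟨0, 0, 0⟩, ⟨0, 0, 0⟩, ⟨0, 0, 0⟩⟩⟩],
   [(0, 0), (0, 1), (1, 1)],
   [⟨⟨0, 0, 0⟩, ⟨0, 0, 0⟩, ⟨0, 0, 0⟩⟩,
    ⟨⟨1, 0, 0⟩, ⟨0, 1, 0⟩, ⟨0, 0, 1⟩⟩,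
    ⟨⟨-1, 0, 0⟩, ⟨0, -1, 0⟩, ⟨0, 0, -1⟩⟩,
    ⟨⟨1, 0, 0⟩, ⟨0, -1, 0⟩, ⟨0, 0, 1⟩⟩,
    ⟨⟨-1, 0, 0⟩, ⟨0, 1, 0⟩, ⟨0, 0, -1⟩⟩,
    ⟨⟨-1, 0, 0⟩, ⟨0, 1, 0⟩, ⟨0, 0, 1⟩⟩,
    ⟨⟨1, 0, 0⟩, ⟨0, -1, 0⟩, ⟨0, 0, -1⟩⟩,
    ⟨⟨-1, 0, 0⟩, ⟨0, -1, 0⟩, ⟨0, 0, 1⟩⟩,
    ⟨⟨1, 0, 0⟩, ⟨0, 1, 0⟩, ⟨0, 0, -1⟩⟩],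
   [[(1, 0), (2, 0), (0, 1), (0, 2)],
    [(0, 0), (3, 0), (1, 3), (1, 4)],
    [(3, 0), (0, 0), (2, 5), (2, 6)],
    [(2, 0), (1, 0), (3, 7), (3, 8)]]⟩

def ortLat6 : List LatE :=
  [⟨⟨⟨2, 0, 0⟩, ⟨-1, 1, 0⟩, ⟨-1, 0, 1⟩⟩, 2, ⟨⟨0, 0, 0⟩, ⟨0, 0, 0⟩, ⟨0, 0, 0⟩⟩⟩]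

def ortRow7 : Row :=
  ⟨[⟨⟨1, 0, 0⟩, ⟨0, -1, 0⟩, ⟨0, 0, 1⟩⟩, ⟨⟨-1, 0, 0⟩, ⟨0, 1, 0⟩, ⟨0, 0, 1⟩⟩], ⟨⟨1, 0, 0⟩, ⟨0, 1, 0⟩, ⟨0, 0, -1⟩⟩, ⟨⟨1, 0, 0⟩, ⟨0, 1, 0⟩, ⟨0, 0, -1⟩⟩, 4,
   [⟨⟨⟨1, 0, 0⟩, ⟨0, 1, 0⟩, ⟨0, 0, 1⟩⟩, ⟨⟨0, 0, 0⟩, ⟨0, 0, 0⟩, ⟨0, 0, 0⟩⟩⟩,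
    ⟨⟨⟨1, 0, 0⟩, ⟨0, -1, 0⟩, ⟨0, 0, 1⟩⟩, ⟨⟨0, 0, 0⟩, ⟨0, 0, 0⟩, ⟨0, 0, 0⟩⟩⟩,
    ⟨⟨⟨-1, 0, 0⟩, ⟨0, 1, 0⟩, ⟨0, 0, 1⟩⟩, ⟨⟨0, 0, 0⟩, ⟨0, 0, 0⟩, ⟨0, 0, 0⟩⟩⟩,
    ⟨⟨⟨-1, 0, 0⟩, ⟨0, -1, 0⟩, ⟨0, 0, 1⟩⟩, ⟨⟨0, 0, 0⟩, ⟨0, 0, 0⟩, ⟨0, 0, 0⟩⟩⟩,
    ⟨⟨⟨1, 0, 0⟩, ⟨0, 1, 0⟩, ⟨0, 0, -1⟩⟩, ⟨⟨1, 0, 0⟩, ⟨0, 1, 0⟩, ⟨0, 0, 1⟩⟩⟩,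
    ⟨⟨⟨1, 0, 0⟩, ⟨0, -1, 0⟩, ⟨0, 0, -1⟩⟩, ⟨⟨1, 0, 0⟩, ⟨0, -1, 0⟩, ⟨0, 0, 1⟩⟩⟩,
    ⟨⟨⟨-1, 0, 0⟩, ⟨0, 1, 0⟩, ⟨0, 0, -1⟩⟩, ⟨⟨-1, 0, 0⟩, ⟨0, 1, 0⟩, ⟨0, 0, 1⟩⟩⟩,
    ⟨⟨⟨-1, 0, 0⟩, ⟨0, -1, 0⟩, ⟨0, 0, -1⟩⟩, ⟨⟨-1, 0, 0⟩, ⟨0, -1, 0⟩, ⟨0, 0, 1⟩⟩⟩],
   [(0, 0), (0, 1), (1, 1), (0, 2), (1, 2), (2, 2), (3, 2)],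
   [⟨⟨0, 0, 0⟩, ⟨0, 0, 0⟩, ⟨0, 0, 0⟩⟩,
    ⟨⟨-2, 0, 0⟩, ⟨0, -2, 0⟩, ⟨0, 0, 0⟩⟩,
    ⟨⟨-2, 0, 0⟩, ⟨0, 2, 0⟩, ⟨0, 0, 0⟩⟩,
    ⟨⟨2, 0, 0⟩, ⟨0, -2, 0⟩, ⟨0, 0, 0⟩⟩,
    ⟨⟨2, 0, 0⟩, ⟨0, 2, 0⟩, ⟨0, 0, 0⟩⟩,
    ⟨⟨0, 0, 0⟩, ⟨0, 2, 0⟩, ⟨0, 0, 0⟩⟩,
    ⟨⟨2, 0, 0⟩, ⟨0, 0, 0⟩, ⟨0, 0, 0⟩⟩,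
    ⟨⟨0, 0, 0⟩, ⟨0, -2, 0⟩, ⟨0, 0, 0⟩⟩,
    ⟨⟨-2, 0, 0⟩, ⟨0, 0, 0⟩, ⟨0, 0, 0⟩⟩],
   [[(1, 0), (2, 0), (4, 0), (4, 1)],
    [(0, 0), (3, 0), (5, 0), (5, 2)],
    [(3, 0), (0, 0), (6, 0), (6, 3)],
    [(2, 0), (1, 0), (7, 0), (7, 4)],
    [(5, 5), (6, 6), (0, 4), (0, 0)],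
    [(4, 7), (7, 6), (1, 3), (1, 0)],
    [(7, 5), (4, 8), (2, 2), (2, 0)],
    [(6, 7), (5, 8), (3, 1), (3, 0)]]⟩

def ortLat7 : List LatE :=
  [⟨⟨⟨1, 0, 0⟩, ⟨0, 1, 0⟩, ⟨0, 0, 2⟩⟩, 2, ⟨⟨0, 0, 1⟩, ⟨0, 0, 0⟩, ⟨0, 0, 0⟩⟩⟩]

/-- The rows of the orthogonal blocks, with a lattice for each family. -/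
def ortRows : List (Row × List LatE) :=
  [(ortRow0, ortLat0),
   (ortRow1, ortLat1),
   (ortRow2, ortLat2),
   (ortRow3, ortLat3),
   (ortRow4, ortLat4),
   (ortRow5, ortLat5),
   (ortRow6, ortLat6),
   (ortRow7, ortLat7)]

end Pool.Agent.H21.FT
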