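import Pool.Agent.H21.FT.ListSplit
import Pool.Agent.H21.FT.KerAxHex
import Pool.Agent.H21.FT.RowsTet
import Pool.Agent.H21.FT.RowsOrt

/-!
# Kernel checks: the tetragonal and orthogonal rows
-/

namespace Pool.Agent.H21.FT

set_option maxRecDepth 100000 in
theorem tet_len : tetBlocks.length = tetRows.length := by decide +kernel

set_option maxRecDepth 100000 in
theorem tet_chk_p0 : (((tetBlocks.zip tetRows).drop 0).take 6).all
    (fun x => blockChk .tet x.1 x.2) = true := by
  decide +kernel

set_option maxRecDepth 100000 in
theorem tet_chk_p1 : (((tetBlocks.zip tetRows).drop 6).take 6).all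
    (fun x => blockChk .tet x.1 x.2) = true := by
  decide +kernel

set_option maxRecDepth 100000 in
theorem tet_chk_p2 : (((tetBlocks.zip tetRows).drop 12).take 6).all
    (fun x => blockChk .tet x.1 x.2) = true := by
  decide +kernel

set_option maxRecDepth 100000 in
theorem tet_chk_p3 : (((tetBlocks.zip tetRows).drop 18).take 6).all
    (fun x => blockChk .tet x.1 x.2) = true := by
  decide +kernel

set_option maxRecDepth 100000 in
theorem tet_chk_p4 : ((tetBlocks.zip tetRows).drop 24).all
    (fun x => blockChk .tet x.1 x.2) = true := by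
  decide +kernel

theorem tet_chk : (tetBlocks.zip tetRows).all
    (fun x => blockChk .tet x.1 x.2) = true := by
  change ((tetBlocks.zip tetRows).drop 0).all _ = true
  refine all_step 0 6 tet_chk_p0 ?_
  refine all_step 6 6 tet_chk_p1 ?_
  refine all_step 12 6 tet_chk_p2 ?_
  refine all_step 18 6 tet_chk_p3 ?_
  exact tet_chk_p4

theorem tet_ok : tetBlocks.length = tetRows.length ∧
    ∀ x ∈ tetBlocks.zip tetRows, BlockOK .tet x.1 x.2 :=
  ⟨tet_len, fun x hx => blockOK_of_chk (List.all_eq_true.mp tet_chk x hx)⟩

set_option maxRecDepth 100000 in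
theorem ort_len : ortBlocks.length = ortRows.length := by decide +kernel

set_option maxRecDepth 100000 in
theorem ort_chk :
    (ortBlocks.zip ortRows).all (fun x => blockChk .ort x.1 x.2) = true := by decide +kernel

theorem ort_ok : ortBlocks.length = ortRows.length ∧
    ∀ x ∈ ortBlocks.zip ortRows, BlockOK .ort x.1 x.2 :=
  ⟨ort_len, fun x hx => blockOK_of_chk (List.all_eq_true.mp ort_chk x hx)⟩

end Pool.Agent.H21.FT
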