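import Pool.Agent.H21.FT.EasyDefs
import Pool.Agent.H21.FT.RowsCub
import Pool.Agent.H21.FT.RowsTet
import Pool.Agent.H21.FT.RowsHex
import Pool.Agent.H21.FT.RowsOrt

/-!
# The easy rows: kernel checks
-/

namespace Pool.Agent.H21.FT

set_option maxRecDepth 100000

theorem easyCub_ok : (cubBlocks.zip cubRows).zipIdx.all (fun x => decide (x.2 ∈ c1Cub) ||
    cubC2.any (fun c => decide (c.1 = x.2) && c2CubB x.1 c.2)) = true := by
  decide +kernel

theorem easyTet_ok : (tetBlocks.zip tetRows).zipIdx.all (fun x => decide (x.2 ∈ c1Tet) ||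
    (noneB x.1 || (cycB 0 x.1 ||
      tetC2.any (fun c => decide (c.1 = x.2) && c2AxB x.1 c.2)))) = true := by
  decide +kernel

theorem easyHex_ok : (hexBlocks.zip hexRows).zipIdx.all (fun x => decide (x.2 ∈ c1Hex) ||
    (noneB x.1 || (cycB 1 x.1 ||
      hexC2.any (fun c => decide (c.1 = x.2) && c2AxB x.1 c.2)))) = true := by
  decide +kernel

theorem easyOrt_ok : (ortBlocks.zip ortRows).all ortB = true := by
  decide +kernel

end Pool.Agent.H21.FT
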