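import Pool.Agent.H21.FT.EasyGen
import Pool.Agent.H21.FT.EasyKer

/-!
# The easy rows
-/

namespace Pool.Agent.H21.FT

open Matrix

namespace Easy

theorem fam1_some {k : Kind} {x : Block × (Row × List LatE)} {f : Fam} {L : LatE}
    (h : fam1 x = some (f, L)) (hok : BlockOK k x.1 x.2) :
    f ∈ x.1.fams ∧ famOK x.2.1 f L = true ∧ excOK x.2.1 f L = true := by
  unfold fam1 at h
  split at h
  · rename_i f' t L' t' h1 h2
    simp only [Option.some.injEq, Prod.mk.injEq] at h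
    obtain ⟨rfl, rfl⟩ := h
    refine ⟨by rw [h1]; exact List.mem_cons_self, ?_⟩
    apply hok.fams (f', L')
    rw [h1, h2]
    simp
  · simp at h

theorem c2_cub {x : Block × (Row × List LatE)} {l : List (IM × IV)} (h : c2CubB x l = true)
    (hok : BlockOK .cub x.1 x.2) {w : V3}
    (hst : ∀ p ∈ x.2.1.nl, p.X.mat *ᵥ w ∉ x.2.1.Tw w) (hne : ∃ y ∈ x.2.1.Tw w, y ≠ 0) :
    RowConc x.1 w := by
  unfold c2CubB at h
  split at h
  · exact absurd h (by simp)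
  rename_i f L hfam
  obtain ⟨hf, hf1, hf2⟩ := fam1_some hfam hok
  simp only [Bool.and_eq_true, decide_eq_true_eq, List.all_eq_true, Bool.or_eq_true] at h
  obtain ⟨⟨⟨⟨hden, hm⟩, hdet⟩, hK⟩, hl⟩ := h
  have hd : (f.den : ℝ) ≠ 0 := by
    have : f.den ≠ 0 := hden.ne'
    exact_mod_cast this
  set D : ℝ := ((f.v.dot ⟨f.K1.y * f.K2.z - f.K1.z * f.K2.y, f.K1.z * f.K2.x - f.K1.x * f.K2.z,
      f.K1.x * f.K2.y - f.K1.y * f.K2.x⟩ : ℤ) : ℝ) with hD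
  have hD0 : D ≠ 0 := by
    rw [hD]
    exact_mod_cast hdet
  have hD' : D = f.v.x * (f.K1.y * f.K2.z - f.K1.z * f.K2.y) +
      f.v.y * (f.K1.z * f.K2.x - f.K1.x * f.K2.z) +
      f.v.z * (f.K1.x * f.K2.y - f.K1.y * f.K2.x) := by
    rw [hD]
    simp [IV.dot]
  clear_value D
  obtain ⟨a, b, c, habc⟩ : ∃ a b c : ℝ, w = a • f.v.vec + b • f.K1.vec + c • f.K2.vec := by
    refine ⟨(w 0 * (f.K1.y * f.K2.z - f.K1.z * f.K2.y) +
      w 1 * (f.K1.z * f.K2.x - f.K1.x * f.K2.z) +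
      w 2 * (f.K1.x * f.K2.y - f.K1.y * f.K2.x)) / D,
      (f.v.x * (w 1 * f.K2.z - w 2 * f.K2.y) + f.v.y * (w 2 * f.K2.x - w 0 * f.K2.z) +
      f.v.z * (w 0 * f.K2.y - w 1 * f.K2.x)) / D,
      (f.v.x * (f.K1.y * w 2 - f.K1.z * w 1) + f.v.y * (f.K1.z * w 0 - f.K1.x * w 2) +
      f.v.z * (f.K1.x * w 1 - f.K1.y * w 0)) / D, ?_⟩
    ext i
    fin_cases i <;> simp [IV.vec] <;> field_simp <;> rw [hD'] <;> ring
  have hX : ∀ X ∈ x.2.1.sch, X.mat *ᵥ w = a • (X.mv f.v).vec := by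
    intro X hX
    obtain ⟨h1, h2⟩ := hK X hX
    rw [habc, mulVec_add, mulVec_add, mulVec_smul, mulVec_smul, mulVec_smul, ← mv_vec, ← mv_vec,
      ← mv_vec, h1, h2, vec_zero, smul_zero, smul_zero, add_zero, add_zero]
  have ha : a ≠ 0 := by
    rintro rfl
    obtain ⟨y, hy, hy0⟩ := hne
    exact hy0 (all_zero (fun X hX' => by rw [hX X hX', zero_smul]) hy)
  have hα : a * f.den ≠ 0 := mul_ne_zero ha hd
  have hw : w = ((a * f.den) • (1 : M3)) *ᵥ f.pt ⟨0, 0, 0⟩ (b / (a * f.den)) (c / (a * f.den)) := by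
    rw [pt_zero, smul_mulVec, one_mulVec, smul_add, smul_add, smul_smul, smul_smul, smul_smul,
      mul_div_cancel₀ _ hα, mul_div_cancel₀ _ hα, mul_assoc, mul_inv_cancel₀ hd, mul_one]
    exact habc
  have hcomm : ∀ M : M3, ((a * f.den) • (1 : M3)) * M = M * ((a * f.den) • (1 : M3)) := by
    intro M
    rw [smul_mul_assoc, one_mul, mul_smul_comm, mul_one]
  refine ⟨(a * f.den) • (1 : M3), ?_, fun M _ => hcomm _, f, hf, ⟨0, 0, 0⟩, _, _, ?_, hw⟩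
  · rw [hok.kind]
    exact ⟨a * f.den, hα, rfl⟩
  · exact not_excl hden hm (fun X hX => hK X hX) hl hf1 hf2 (fun X _ => hcomm _)
      (fun p _ => hcomm _) hw hst

theorem c2_ax {k : Kind} (hk : k = .tet ∨ k = .hex) {x : Block × (Row × List LatE)}
    {l : List (IM × IV)} (h : c2AxB x l = true)
    (hok : BlockOK k x.1 x.2) {w : V3}
    (hst : ∀ p ∈ x.2.1.nl, p.X.mat *ᵥ w ∉ x.2.1.Tw w) (hz : w 2 ≠ 0)
    (hL : ∃ y ∈ x.2.1.Tw w, y 0 ≠ 0 ∨ y 1 ≠ 0) : RowConc x.1 w := by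
  unfold c2AxB at h
  split at h
  · exact absurd h (by simp)
  rename_i f L hfam
  obtain ⟨hf, hf1, hf2⟩ := fam1_some hfam hok
  simp only [Bool.and_eq_true, decide_eq_true_eq, List.all_eq_true, Bool.or_eq_true] at h
  obtain ⟨⟨⟨⟨⟨⟨⟨⟨hden, hm⟩, hdet⟩, hvz⟩, hKz⟩, hK⟩, hnl⟩, hgens⟩, hl⟩ := h
  have hd : (f.den : ℝ) ≠ 0 := by
    have : f.den ≠ 0 := hden.ne'
    exact_mod_cast this
  have hD0 : (f.v.x : ℝ) * f.K1.y - f.v.y * f.K1.x ≠ 0 := by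
    exact_mod_cast hdet
  have hvz' : (f.v.z : ℝ) ≠ 0 := by exact_mod_cast hvz
  have hKz' : (f.K1.z : ℝ) = 0 := by exact_mod_cast hKz
  obtain ⟨a, b, h0, h1⟩ : ∃ a b : ℝ, w 0 = a * f.v.x + b * f.K1.x ∧
      w 1 = a * f.v.y + b * f.K1.y := by
    refine ⟨(w 0 * f.K1.y - w 1 * f.K1.x) / ((f.v.x : ℝ) * f.K1.y - f.v.y * f.K1.x),
      (f.v.x * w 1 - f.v.y * w 0) / ((f.v.x : ℝ) * f.K1.y - f.v.y * f.K1.x), ?_, ?_⟩ <;>
    rw [div_mul_eq_mul_div, div_mul_eq_mul_div, ← add_div, eq_div_iff hD0] <;> ring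
  have hX : ∀ X ∈ x.2.1.sch, (X.mat *ᵥ w) 0 = a * (X.mat *ᵥ f.v.vec) 0 ∧
      (X.mat *ᵥ w) 1 = a * (X.mat *ᵥ f.v.vec) 1 := by
    intro X hX
    obtain ⟨⟨e1, e2⟩, e3⟩ := hK X hX
    obtain ⟨b1, b2, b3, b4⟩ := blk_of e3
    have e4 : X.mat *ᵥ f.K1.vec = 0 := by rw [← mv_vec, e1, vec_zero]
    have e5 := congrFun e4 0
    have e6 := congrFun e4 1
    simp only [IM.mat, IV.vec, Matrix.mulVec, dotProduct, Fin.sum_univ_three, of_apply, cons_val',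
      cons_val_zero, cons_val_one, cons_val, Pi.zero_apply, b1, b2, b3, b4, Int.cast_zero,
      zero_mul, add_zero] at e5 e6 ⊢
    rw [h0, h1]
    constructor
    · linear_combination b * e5
    · linear_combination b * e6
  have ha : a ≠ 0 := by
    rintro rfl
    obtain ⟨y, hy, hy0⟩ := hL
    obtain ⟨y0, y1⟩ := planar_zero (fun X hX' => by
      obtain ⟨e1, e2⟩ := hX X hX'
      rw [e1, e2, zero_mul, zero_mul]
      exact ⟨rfl, rfl⟩) hy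
    rcases hy0 with hy0 | hy0
    · exact hy0 y0
    · exact hy0 y1
  have hα : a * f.den ≠ 0 := mul_ne_zero ha hd
  have hτ : w 2 * f.den / f.v.z ≠ 0 := div_ne_zero (mul_ne_zero hz hd) hvz'
  have hw : w = (!![a * f.den, -0, 0; 0, a * f.den, 0; 0, 0, w 2 * f.den / f.v.z] : M3) *ᵥ
      f.pt ⟨0, 0, 0⟩ (b / (a * f.den)) 0 := by
    rw [pt_zero]
    ext i
    fin_cases i
    · simp [IV.vec, Matrix.mulVec, dotProduct, Fin.sum_univ_three, h0]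
      field_simp
    · simp [IV.vec, Matrix.mulVec, dotProduct, Fin.sum_univ_three, h1]
      field_simp
    · simp [IV.vec, Matrix.mulVec, dotProduct, Fin.sum_univ_three, hKz']
      field_simp
  refine ⟨!![a * f.den, -0, 0; 0, a * f.den, 0; 0, 0, w 2 * f.den / f.v.z], ?_,
    fun M hM => diag_comm (hgens M hM) _ _, f, hf, ⟨0, 0, 0⟩, _, _, ?_, hw⟩
  · rw [hok.kind]
    rcases hk with rfl | rfl
    · exact ⟨a * f.den, 0, _, Or.inl hα, hτ, rfl⟩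
    · exact ⟨a * f.den, 0, _, Or.inl hα, hτ, by rw [sub_zero]⟩
  · exact not_excl hden hm (fun X hX => (hK X hX).1) hl hf1 hf2
      (fun X hX => diag_comm (hK X hX).2 _ _) (fun p hp => diag_comm (hnl p hp) _ _) hw hst

theorem none_false {x : Block × (Row × List LatE)} (h : noneB x = true) {w : V3}
    (hL : ∃ y ∈ x.2.1.Tw w, y 0 ≠ 0 ∨ y 1 ≠ 0) : False := by
  simp only [noneB, Bool.and_eq_true, decide_eq_true_eq, List.all_eq_true] at h
  obtain ⟨y, hy, hy0⟩ := hL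
  obtain ⟨y0, y1⟩ := planar_zero (fun X hX' => by
    obtain ⟨e1, e2⟩ := h X hX'
    simp [IM.mat, Matrix.mulVec, dotProduct, Fin.sum_univ_three, e1, e2]) hy
  rcases hy0 with hy0 | hy0
  · exact hy0 y0
  · exact hy0 y1

/-- the similarities commute with the rotations -/
theorem rot_comm {e : ℤ} {M : IM} (h : rotB e M = true) (a b τ : ℝ) :
    (!![a, -b, 0; b, a - e * b, 0; 0, 0, τ] : M3) * M.mat =
      M.mat * !![a, -b, 0; b, a - e * b, 0; 0, 0, τ] := by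
  simp only [rotB, Bool.and_eq_true, decide_eq_true_eq] at h
  obtain ⟨⟨h0, h5⟩, h6⟩ := h
  obtain ⟨h1, h2, h3, h4⟩ := blk_of h0
  ext i j
  fin_cases i <;> fin_cases j <;>
    simp [IM.mat, Matrix.mul_apply, Fin.sum_univ_three, h1, h2, h3, h4, h5, h6] <;> ring

theorem cyc_ax {k : Kind} {e : ℤ} (hk : (k = .tet ∧ e = 0) ∨ (k = .hex ∧ e = 1))
    {x : Block × (Row × List LatE)} (h : cycB e x = true)
    (hok : BlockOK k x.1 x.2) {w : V3} (hz : w 2 ≠ 0)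
    (hL : ∃ y ∈ x.2.1.Tw w, y 0 ≠ 0 ∨ y 1 ≠ 0) : RowConc x.1 w := by
  unfold cycB at h
  split at h
  · exact absurd h (by simp)
  rename_i f t hfam
  simp only [Bool.and_eq_true, decide_eq_true_eq, List.all_eq_true] at h
  obtain ⟨⟨⟨⟨⟨⟨hden, hvx⟩, hvy⟩, hvz⟩, hexc⟩, hblk⟩, hgens⟩ := h
  have hd : (f.den : ℝ) ≠ 0 := by
    have : f.den ≠ 0 := hden.ne'
    exact_mod_cast this
  have hvz' : (f.v.z : ℝ) ≠ 0 := by exact_mod_cast hvz
  have hab : w 0 ≠ 0 ∨ w 1 ≠ 0 := by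
    by_contra hcon
    push Not at hcon
    obtain ⟨y, hy, hy0⟩ := hL
    obtain ⟨y0, y1⟩ := planar_zero (fun X hX' => by
      obtain ⟨b1, b2, b3, b4⟩ := blk_of (hblk X hX')
      simp [IM.mat, Matrix.mulVec, dotProduct, Fin.sum_univ_three, b1, b2, hcon.1, hcon.2]) hy
    rcases hy0 with hy0 | hy0
    · exact hy0 y0
    · exact hy0 y1
  have hτ : w 2 * f.den / f.v.z ≠ 0 := div_ne_zero (mul_ne_zero hz hd) hvz'
  have hw : w = (!![w 0, -w 1, 0; w 1, w 0 - e * w 1, 0; 0, 0, w 2 * f.den / f.v.z] : M3) *ᵥ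
      f.pt ⟨0, 0, 0⟩ 0 0 := by
    rw [pt_zero]
    ext i
    fin_cases i
    · simp [IV.vec, Matrix.mulVec, dotProduct, Fin.sum_univ_three, hvx, hvy, hd]
    · simp [IV.vec, Matrix.mulVec, dotProduct, Fin.sum_univ_three, hvx, hvy, hd]
    · simp [IV.vec, Matrix.mulVec, dotProduct, Fin.sum_univ_three, hvx, hvy]
      field_simp
  refine ⟨!![w 0, -w 1, 0; w 1, w 0 - e * w 1, 0; 0, 0, w 2 * f.den / f.v.z], ?_,
    fun M hM => rot_comm (hgens M hM) _ _ _, f, by rw [hfam]; exact List.mem_cons_self,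
    ⟨0, 0, 0⟩, _, _, ?_, hw⟩
  · rw [hok.kind]
    rcases hk with ⟨rfl, rfl⟩ | ⟨rfl, rfl⟩
    · exact ⟨w 0, w 1, _, hab, hτ, by rw [Int.cast_zero, zero_mul, sub_zero]⟩
    · exact ⟨w 0, w 1, _, hab, hτ, by rw [Int.cast_one, one_mul]⟩
  · rintro ⟨c, hc, -⟩
    rw [hexc] at hc
    exact absurd hc List.not_mem_nil

end Easy

open Easy

theorem easy_cub {i : ℕ} (hi : i ∉ c1Cub) {x : Block × (Row × List LatE)}
    (hx : (cubBlocks.zip cubRows)[i]? = some x) (hok : BlockOK .cub x.1 x.2) {w : V3}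
    (hst : ∀ p ∈ x.2.1.nl, p.X.mat *ᵥ w ∉ x.2.1.Tw w) (hne : ∃ y ∈ x.2.1.Tw w, y ≠ 0) :
    RowConc x.1 w := by
  have h1 := List.all_eq_true.1 easyCub_ok (x, i) (List.mk_mem_zipIdx_iff_getElem?.2 hx)
  simp only [Bool.or_eq_true, decide_eq_true_eq, List.any_eq_true, Bool.and_eq_true] at h1
  rcases h1 with h1 | ⟨c, -, -, hc⟩
  · exact absurd h1 hi
  · exact c2_cub hc hok hst hne

theorem easy_tet {i : ℕ} (hi : i ∉ c1Tet) {x : Block × (Row × List LatE)}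
    (hx : (tetBlocks.zip tetRows)[i]? = some x) (hok : BlockOK .tet x.1 x.2) {w : V3}
    (hst : ∀ p ∈ x.2.1.nl, p.X.mat *ᵥ w ∉ x.2.1.Tw w) (hz : w 2 ≠ 0)
    (hL : ∃ y ∈ x.2.1.Tw w, y 0 ≠ 0 ∨ y 1 ≠ 0) : RowConc x.1 w := by
  have h1 := List.all_eq_true.1 easyTet_ok (x, i) (List.mk_mem_zipIdx_iff_getElem?.2 hx)
  simp only [Bool.or_eq_true, decide_eq_true_eq, List.any_eq_true, Bool.and_eq_true] at h1
  rcases h1 with h1 | h1 | h1 | ⟨c, -, -, hc⟩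
  · exact absurd h1 hi
  · exact (none_false h1 hL).elim
  · exact cyc_ax (Or.inl ⟨rfl, rfl⟩) h1 hok hz hL
  · exact c2_ax (Or.inl rfl) hc hok hst hz hL

theorem easy_hex {i : ℕ} (hi : i ∉ c1Hex) {x : Block × (Row × List LatE)}
    (hx : (hexBlocks.zip hexRows)[i]? = some x) (hok : BlockOK .hex x.1 x.2) {w : V3}
    (hst : ∀ p ∈ x.2.1.nl, p.X.mat *ᵥ w ∉ x.2.1.Tw w) (hz : w 2 ≠ 0)
    (hL : ∃ y ∈ x.2.1.Tw w, y 0 ≠ 0 ∨ y 1 ≠ 0) : RowConc x.1 w := by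
  have h1 := List.all_eq_true.1 easyHex_ok (x, i) (List.mk_mem_zipIdx_iff_getElem?.2 hx)
  simp only [Bool.or_eq_true, decide_eq_true_eq, List.any_eq_true, Bool.and_eq_true] at h1
  rcases h1 with h1 | h1 | h1 | ⟨c, -, -, hc⟩
  · exact absurd h1 hi
  · exact (none_false h1 hL).elim
  · exact cyc_ax (Or.inr ⟨rfl, rfl⟩) h1 hok hz hL
  · exact c2_ax (Or.inr rfl) hc hok hst hz hL

theorem row_ort {x : Block × (Row × List LatE)} (hx : x ∈ ortBlocks.zip ortRows) {w : V3}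
    (h0 : w 0 ≠ 0) (h1 : w 1 ≠ 0) (h2 : w 2 ≠ 0) : RowConc x.1 w := by
  have h := List.all_eq_true.1 easyOrt_ok x hx
  unfold ortB at h
  split at h
  · exact absurd h (by simp)
  rename_i f t hfam
  simp only [Bool.and_eq_true, decide_eq_true_eq, List.all_eq_true] at h
  obtain ⟨⟨⟨⟨hkind, hden⟩, hv⟩, hexc⟩, hgens⟩ := h
  refine ⟨!![w 0, 0, 0; 0, w 1, 0; 0, 0, w 2], ?_, ?_, f, by rw [hfam]; exact List.mem_cons_self,
    ⟨0, 0, 0⟩, 0, 0, ?_, ?_⟩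
  · rw [hkind]
    exact ⟨w 0, w 1, w 2, h0, h1, h2, rfl⟩
  · intro M hM
    have hM' := hgens M hM
    simp only [diagB, Bool.and_eq_true, decide_eq_true_eq] at hM'
    obtain ⟨⟨e0, e1⟩, e2⟩ := hM'
    obtain ⟨b1, b2, b3, b4⟩ := blk_of e0
    ext i j
    fin_cases i <;> fin_cases j <;>
      simp [IM.mat, Matrix.mul_apply, Fin.sum_univ_three, b1, b2, b3, b4, e1, e2, mul_comm]
  · rintro ⟨c, hc, -⟩
    rw [hexc] at hc
    exact absurd hc List.not_mem_nil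
  · rw [pt_zero]
    ext i
    fin_cases i <;>
      simp [IV.vec, Matrix.mulVec, dotProduct, Fin.sum_univ_three, hv, hden]

end Pool.Agent.H21.FT
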