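import Pool.Agent.H21.FT.Lats

/-!
# Invariant lattices: the tetragonal and the hexagonal case
-/

set_option autoImplicit false

namespace Pool.Agent.H21.FT

open Matrix

theorem LatD.mem_iff (L : LatD) (y : V3) :
    L.Mem y ↔ (∃ i j k : ℤ, (L.D.a.x : ℝ) * y 0 + L.D.a.y * y 1 + L.D.a.z * y 2 = L.m * i ∧
      (L.D.b.x : ℝ) * y 0 + L.D.b.y * y 1 + L.D.b.z * y 2 = L.m * j ∧
      (L.D.c.x : ℝ) * y 0 + L.D.c.y * y 1 + L.D.c.z * y 2 = L.m * k) ∧
      (L.flat = true → y 2 = 0) := by
  unfold LatD.Mem
  refine and_congr_left fun _ => ?_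
  constructor
  · rintro ⟨⟨i, j, k⟩, h⟩
    refine ⟨i, j, k, ?_, ?_, ?_⟩
    · have := congrFun h 0
      simpa [IM.mat, IV.vec, Matrix.mulVec, dotProduct, Fin.sum_univ_three] using this
    · have := congrFun h 1
      simpa [IM.mat, IV.vec, Matrix.mulVec, dotProduct, Fin.sum_univ_three] using this
    · have := congrFun h 2
      simpa [IM.mat, IV.vec, Matrix.mulVec, dotProduct, Fin.sum_univ_three] using this
  · rintro ⟨i, j, k, h1, h2, h3⟩
    refine ⟨⟨i, j, k⟩, ?_⟩
    ext a
    fin_cases a
    · simpa [IM.mat, IV.vec, Matrix.mulVec, dotProduct, Fin.sum_univ_three] using h1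
    · simpa [IM.mat, IV.vec, Matrix.mulVec, dotProduct, Fin.sum_univ_three] using h2
    · simpa [IM.mat, IV.vec, Matrix.mulVec, dotProduct, Fin.sum_univ_three] using h3

theorem eta3 (t : V3) : ![t 0, t 1, t 2] = t := by
  ext i
  fin_cases i <;> rfl

theorem lat_flat (T : AddSubgroup V3) (h0 : ∀ t ∈ T, t 2 = 0) (y : V3) :
    y ∈ T ↔ y 2 = 0 ∧ ![y 0, y 1, 0] ∈ T := by
  constructor
  · intro h
    have h2 := h0 y h
    refine ⟨h2, ?_⟩
    rw [← h2, eta3]
    exact h
  · rintro ⟨h2, h⟩
    rw [← h2, eta3] at h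
    exact h

theorem lat_key (T : AddSubgroup V3) (h1 : ∀ t ∈ T, ∃ m : ℤ, t 2 = m) {s : V3} (hs : s ∈ T)
    (hs2 : s 2 = 1) (y : V3) :
    y ∈ T ↔ ∃ m : ℤ, y 2 = m ∧ ![y 0 - m * s 0, y 1 - m * s 1, 0] ∈ T := by
  have e : ∀ m : ℤ, y 2 = m → ![y 0 - m * s 0, y 1 - m * s 1, 0] = y - m • s := by
    intro m hm
    ext i
    fin_cases i
    · simp
    · simp
    · simp [hs2, hm]
  constructor
  · intro h
    obtain ⟨m, hm⟩ := h1 y h
    refine ⟨m, hm, ?_⟩
    rw [e m hm]
    exact T.sub_mem h (T.zsmul_mem hs m)
  · rintro ⟨m, hm, h⟩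
    rw [e m hm] at h
    have := T.add_mem h (T.zsmul_mem hs m)
    rwa [sub_add_cancel] at this

/-- B7 (file LatTet.lean): `C = false`: the planar lattice is `ℤ²`; `C = true`: its sublattice of
index 2 -/
theorem lat_tet (T : AddSubgroup V3) (C : Bool)
    (hp : ∀ a b : ℝ, ![a, b, 0] ∈ T ↔ ∃ m n : ℤ, a = m ∧ b = n ∧ (C = true → Even (m + n)))
    (hz : (∀ t ∈ T, t 2 = 0) ∨ ((∀ t ∈ T, ∃ m : ℤ, t 2 = m) ∧ ∃ t ∈ T, t 2 = 1))
    {ε : ℝ} (hε : ε = 1 ∨ ε = -1) (hR : ∀ t ∈ T, ![-t 1, t 0, ε * t 2] ∈ T) :
    ∃ L ∈ tetLats, ∀ y : V3, y ∈ T ↔ L.Mem y := by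
  rcases hz with h0 | ⟨h1, s, hs, hs2⟩
  · -- flat
    cases C with
    | false =>
      refine ⟨⟨⟨⟨1, 0, 0⟩, ⟨0, 1, 0⟩, ⟨0, 0, 1⟩⟩, 1, true⟩, by simp [tetLats], fun y => ?_⟩
      rw [lat_flat T h0, hp, LatD.mem_iff]
      simp only [Int.cast_one, Int.cast_zero, one_mul, zero_mul, add_zero, zero_add,
        Bool.false_eq_true, false_imp_iff, and_true, true_imp_iff]
      constructor
      · rintro ⟨h2, m, n, hm, hn⟩
        exact ⟨⟨m, n, 0, hm, hn, by simpa using h2⟩, h2⟩
      · rintro ⟨⟨i, j, k, hi, hj, hk⟩, h2⟩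
        exact ⟨h2, i, j, hi, hj⟩
    | true =>
      refine ⟨⟨⟨⟨1, 1, 0⟩, ⟨0, 2, 0⟩, ⟨0, 0, 2⟩⟩, 2, true⟩, by simp [tetLats], fun y => ?_⟩
      rw [lat_flat T h0, hp, LatD.mem_iff]
      simp only [Int.cast_one, Int.cast_zero, one_mul, zero_mul, add_zero, zero_add,
        true_imp_iff, Int.cast_ofNat]
      constructor
      · rintro ⟨h2, m, n, hm, hn, r, hr⟩
        refine ⟨⟨r, n, 0, ?_, by rw [hn], by simpa using h2⟩, h2⟩
        have : (m : ℝ) + n = r + r := by exact_mod_cast hr
        linarith
      · rintro ⟨⟨i, j, k, hi, hj, hk⟩, h2⟩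
        refine ⟨h2, 2 * i - j, j, ?_, by linarith, i, by ring⟩
        push_cast
        linarith
  · -- not flat
    have hpq : ∃ p q : ℤ, s 0 + s 1 = p ∧ s 1 - s 0 = q ∧ (C = true → Even (p + q)) := by
      have hR' := hR s hs
      rcases hε with rfl | rfl
      · have h2 : ![s 0 + s 1, s 1 - s 0, 0] ∈ T := by
          have := T.sub_mem hs hR'
          convert this using 1
          ext i
          fin_cases i <;> simp
        exact (hp _ _).1 h2
      · have h2 : ![s 0 - s 1, s 1 + s 0, 0] ∈ T := by
          have := T.add_mem hs hR'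
          convert this using 1
          ext i
          fin_cases i
          · simp [sub_eq_add_neg]
          · simp
          · simp
        obtain ⟨m, n, hm, hn, hmn⟩ := (hp _ _).1 h2
        refine ⟨n, -m, by linarith, by push_cast; linarith, fun hC => ?_⟩
        have := hmn hC
        rw [Int.even_iff] at this ⊢
        omega
    obtain ⟨p, q, hpe, hqe, hev⟩ := hpq
    cases C with
    | false =>
      rcases Int.even_or_odd' (p + q) with ⟨r, hr | hr⟩
      · -- the vector `s` is an integer vector
        have s1 : s 1 = r := by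
          have : (p : ℝ) + q = 2 * r := by exact_mod_cast hr
          linarith
        have s0 : s 0 = ((p - r : ℤ) : ℝ) := by
          push_cast
          linarith
        refine ⟨⟨⟨⟨1, 0, 0⟩, ⟨0, 1, 0⟩, ⟨0, 0, 1⟩⟩, 1, false⟩, by simp [tetLats], fun y => ?_⟩
        rw [lat_key T h1 hs hs2, LatD.mem_iff]
        simp only [Int.cast_one, Int.cast_zero, one_mul, zero_mul, add_zero, zero_add,
          Bool.false_eq_true, false_imp_iff, and_true, hp, s0, s1]
        constructor
        · rintro ⟨m, hm, a, b, ha, hb⟩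
          refine ⟨a + m * (p - r), b + m * r, m, ?_, ?_, hm⟩
          · push_cast at ha ⊢
            linarith
          · push_cast
            linarith
        · rintro ⟨i, j, k, hi, hj, hk⟩
          refine ⟨k, hk, i - k * (p - r), j - k * r, ?_, ?_⟩
          · push_cast
            linarith
          · push_cast
            linarith
      · have s1 : 2 * s 1 = 2 * r + 1 := by
          have : (p : ℝ) + q = 2 * r + 1 := by exact_mod_cast hr
          linarith
        have s0 : 2 * s 0 = 2 * ((p - r - 1 : ℤ) : ℝ) + 1 := by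
          push_cast
          linarith
        refine ⟨⟨⟨⟨2, 0, -1⟩, ⟨0, 2, -1⟩, ⟨0, 0, 2⟩⟩, 2, false⟩, by simp [tetLats], fun y => ?_⟩
        rw [lat_key T h1 hs hs2, LatD.mem_iff]
        simp only [Int.cast_one, Int.cast_zero, one_mul, zero_mul, add_zero, zero_add,
          Bool.false_eq_true, false_imp_iff, and_true, hp, Int.cast_ofNat, Int.cast_neg, neg_mul]
        constructor
        · rintro ⟨m, hm, a, b, ha, hb⟩
          refine ⟨a + m * (p - r - 1), b + m * r, m, ?_, ?_, by rw [hm]⟩
          · push_cast at s0 ⊢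
            rw [hm]
            linear_combination 2 * ha + (m : ℝ) * s0
          · push_cast
            rw [hm]
            linear_combination 2 * hb + (m : ℝ) * s1
        · rintro ⟨i, j, k, hi, hj, hk⟩
          have hk' : y 2 = k := by linarith
          refine ⟨k, hk', i - k * (p - r - 1), j - k * r, ?_, ?_⟩
          · push_cast at s0 ⊢
            rw [hk'] at hi
            linear_combination hi / 2 - (k : ℝ) / 2 * s0
          · push_cast
            rw [hk'] at hj
            linear_combination hj / 2 - (k : ℝ) / 2 * s1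
    | true =>
      obtain ⟨r, hr⟩ := hev rfl
      have s1 : s 1 = r := by
        have : (p : ℝ) + q = r + r := by exact_mod_cast hr
        linarith
      have s0 : s 0 = ((p - r : ℤ) : ℝ) := by
        push_cast
        linarith
      rcases Int.even_or_odd' p with ⟨w, hw | hw⟩
      · refine ⟨⟨⟨⟨1, 1, 0⟩, ⟨0, 2, 0⟩, ⟨0, 0, 2⟩⟩, 2, false⟩, by simp [tetLats], fun y => ?_⟩
        rw [lat_key T h1 hs hs2, LatD.mem_iff]
        simp only [Int.cast_one, Int.cast_zero, one_mul, zero_mul, add_zero, zero_add,
          Bool.false_eq_true, false_imp_iff, and_true, hp, s0, s1, true_imp_iff, Int.cast_ofNat]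
        have hw' : (p : ℝ) = 2 * w := by exact_mod_cast hw
        constructor
        · rintro ⟨m, hm, a, b, ha, hb, c, hc⟩
          have hc' : (a : ℝ) + b = c + c := by exact_mod_cast hc
          refine ⟨c + m * w, b + m * r, m, ?_, ?_, by rw [hm]⟩
          · push_cast at ha ⊢
            linear_combination ha + hb + hc' + (m : ℝ) * hw'
          · push_cast at ha ⊢
            linear_combination 2 * hb
        · rintro ⟨i, j, k, hi, hj, hk⟩
          have hk' : y 2 = k := by linarith
          refine ⟨k, hk', 2 * i - j - k * (p - r), j - k * r, ?_, ?_, i - k * w, ?_⟩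
          · push_cast
            linear_combination hi - hj / 2
          · push_cast
            linear_combination hj / 2
          · rw [hw]
            ring
      · refine ⟨⟨⟨⟨1, 1, 1⟩, ⟨0, 2, 0⟩, ⟨0, 0, 2⟩⟩, 2, false⟩, by simp [tetLats], fun y => ?_⟩
        rw [lat_key T h1 hs hs2, LatD.mem_iff]
        simp only [Int.cast_one, Int.cast_zero, one_mul, zero_mul, add_zero, zero_add,
          Bool.false_eq_true, false_imp_iff, and_true, hp, s0, s1, true_imp_iff, Int.cast_ofNat]
        have hw' : (p : ℝ) = 2 * w + 1 := by exact_mod_cast hw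
        constructor
        · rintro ⟨m, hm, a, b, ha, hb, c, hc⟩
          have hc' : (a : ℝ) + b = c + c := by exact_mod_cast hc
          refine ⟨c + m * (w + 1), b + m * r, m, ?_, ?_, by rw [hm]⟩
          · push_cast at ha ⊢
            linear_combination ha + hb + hc' + (m : ℝ) * hw' + hm
          · push_cast at ha ⊢
            linear_combination 2 * hb
        · rintro ⟨i, j, k, hi, hj, hk⟩
          have hk' : y 2 = k := by linarith
          refine ⟨k, hk', 2 * i - j - k - k * (p - r), j - k * r, ?_, ?_, i - k * w - k, ?_⟩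
          · push_cast
            linear_combination hi - hj / 2 - hk'
          · push_cast
            linear_combination hj / 2
          · rw [hw]
            ring

/-- B7 (file LatTet.lean): `C = false`: the planar lattice is `ℤ²`; `C = true`: its sublattice of
index 3 -/
theorem lat_hex (T : AddSubgroup V3) (C : Bool)
    (hp : ∀ a b : ℝ, ![a, b, 0] ∈ T ↔
      ∃ m n : ℤ, a = m ∧ b = n ∧ (C = true → (3 : ℤ) ∣ m + n))
    (hz : (∀ t ∈ T, t 2 = 0) ∨ ((∀ t ∈ T, ∃ m : ℤ, t 2 = m) ∧ ∃ t ∈ T, t 2 = 1))
    (hR : ∀ t ∈ T, ![-t 1, t 0 - t 1, t 2] ∈ T) :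
    ∃ L ∈ hexLats, ∀ y : V3, y ∈ T ↔ L.Mem y := by
  rcases hz with h0 | ⟨h1, s, hs, hs2⟩
  · -- flat
    cases C with
    | false =>
      refine ⟨⟨⟨⟨1, 0, 0⟩, ⟨0, 1, 0⟩, ⟨0, 0, 1⟩⟩, 1, true⟩, by simp [hexLats], fun y => ?_⟩
      rw [lat_flat T h0, hp, LatD.mem_iff]
      simp only [Int.cast_one, Int.cast_zero, one_mul, zero_mul, add_zero, zero_add,
        Bool.false_eq_true, false_imp_iff, and_true, true_imp_iff]
      constructor
      · rintro ⟨h2, m, n, hm, hn⟩
        exact ⟨⟨m, n, 0, hm, hn, by simpa using h2⟩, h2⟩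
      · rintro ⟨⟨i, j, k, hi, hj, hk⟩, h2⟩
        exact ⟨h2, i, j, hi, hj⟩
    | true =>
      refine ⟨⟨⟨⟨1, 1, 0⟩, ⟨0, 3, 0⟩, ⟨0, 0, 3⟩⟩, 3, true⟩, by simp [hexLats], fun y => ?_⟩
      rw [lat_flat T h0, hp, LatD.mem_iff]
      simp only [Int.cast_one, Int.cast_zero, one_mul, zero_mul, add_zero, zero_add,
        true_imp_iff, Int.cast_ofNat]
      constructor
      · rintro ⟨h2, m, n, hm, hn, r, hr⟩
        refine ⟨⟨r, n, 0, ?_, by rw [hn], by simpa using h2⟩, h2⟩
        have : (m : ℝ) + n = 3 * r := by exact_mod_cast hr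
        linarith
      · rintro ⟨⟨i, j, k, hi, hj, hk⟩, h2⟩
        refine ⟨h2, 3 * i - j, j, ?_, by linarith, i, by ring⟩
        push_cast
        linarith
  · -- not flat
    have hpq : ∃ p q : ℤ, s 0 + s 1 = p ∧ 2 * s 1 - s 0 = q ∧ (C = true → (3 : ℤ) ∣ p + q) := by
      have hR' := hR s hs
      have h2 : ![s 0 + s 1, 2 * s 1 - s 0, 0] ∈ T := by
        have := T.sub_mem hs hR'
        convert this using 1
        ext i
        fin_cases i
        · simp
        · simp
          ring
        · simp
      exact (hp _ _).1 h2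
    obtain ⟨p, q, hpe, hqe, hev⟩ := hpq
    cases C with
    | false =>
      have hmod : ∃ r : ℤ, p + q = 3 * r ∨ p + q = 3 * r + 1 ∨ p + q = 3 * r + 2 :=
        ⟨(p + q) / 3, by omega⟩
      obtain ⟨r, hr | hr | hr⟩ := hmod
      · -- the vector `s` is an integer vector
        have s1 : s 1 = r := by
          have : (p : ℝ) + q = 3 * r := by exact_mod_cast hr
          linarith
        have s0 : s 0 = ((p - r : ℤ) : ℝ) := by
          push_cast
          linarith
        refine ⟨⟨⟨⟨1, 0, 0⟩, ⟨0, 1, 0⟩, ⟨0, 0, 1⟩⟩, 1, false⟩, by simp [hexLats], fun y => ?_⟩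
        rw [lat_key T h1 hs hs2, LatD.mem_iff]
        simp only [Int.cast_one, Int.cast_zero, one_mul, zero_mul, add_zero, zero_add,
          Bool.false_eq_true, false_imp_iff, and_true, hp, s0, s1]
        constructor
        · rintro ⟨m, hm, a, b, ha, hb⟩
          refine ⟨a + m * (p - r), b + m * r, m, ?_, ?_, hm⟩
          · push_cast at ha ⊢
            linarith
          · push_cast
            linarith
        · rintro ⟨i, j, k, hi, hj, hk⟩
          refine ⟨k, hk, i - k * (p - r), j - k * r, ?_, ?_⟩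
          · push_cast
            linarith
          · push_cast
            linarith
      · -- residue one
        have s1 : 3 * s 1 = 3 * r + 1 := by
          have : (p : ℝ) + q = 3 * r + 1 := by exact_mod_cast hr
          linarith
        have s0 : 3 * s 0 = 3 * ((p - r - 1 : ℤ) : ℝ) + 2 := by
          push_cast
          linarith
        refine ⟨⟨⟨⟨3, 0, -2⟩, ⟨0, 3, -1⟩, ⟨0, 0, 3⟩⟩, 3, false⟩, by simp [hexLats], fun y => ?_⟩
        rw [lat_key T h1 hs hs2, LatD.mem_iff]
        simp only [Int.cast_one, Int.cast_zero, one_mul, zero_mul, add_zero, zero_add,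
          Bool.false_eq_true, false_imp_iff, and_true, hp, Int.cast_ofNat, Int.cast_neg, neg_mul]
        constructor
        · rintro ⟨m, hm, a, b, ha, hb⟩
          refine ⟨a + m * (p - r - 1), b + m * r, m, ?_, ?_, by rw [hm]⟩
          · push_cast at s0 ⊢
            rw [hm]
            linear_combination 3 * ha + (m : ℝ) * s0
          · push_cast
            rw [hm]
            linear_combination 3 * hb + (m : ℝ) * s1
        · rintro ⟨i, j, k, hi, hj, hk⟩
          have hk' : y 2 = k := by linarith
          refine ⟨k, hk', i - k * (p - r - 1), j - k * r, ?_, ?_⟩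
          · push_cast at s0 ⊢
            rw [hk'] at hi
            linear_combination hi / 3 - (k : ℝ) / 3 * s0
          · push_cast
            rw [hk'] at hj
            linear_combination hj / 3 - (k : ℝ) / 3 * s1
      · -- residue two
        have s1 : 3 * s 1 = 3 * r + 2 := by
          have : (p : ℝ) + q = 3 * r + 2 := by exact_mod_cast hr
          linarith
        have s0 : 3 * s 0 = 3 * ((p - r - 1 : ℤ) : ℝ) + 1 := by
          push_cast
          linarith
        refine ⟨⟨⟨⟨3, 0, -1⟩, ⟨0, 3, -2⟩, ⟨0, 0, 3⟩⟩, 3, false⟩, by simp [hexLats], fun y => ?_⟩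
        rw [lat_key T h1 hs hs2, LatD.mem_iff]
        simp only [Int.cast_one, Int.cast_zero, one_mul, zero_mul, add_zero, zero_add,
          Bool.false_eq_true, false_imp_iff, and_true, hp, Int.cast_ofNat, Int.cast_neg, neg_mul]
        constructor
        · rintro ⟨m, hm, a, b, ha, hb⟩
          refine ⟨a + m * (p - r - 1), b + m * r, m, ?_, ?_, by rw [hm]⟩
          · push_cast at s0 ⊢
            rw [hm]
            linear_combination 3 * ha + (m : ℝ) * s0
          · push_cast
            rw [hm]
            linear_combination 3 * hb + (m : ℝ) * s1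
        · rintro ⟨i, j, k, hi, hj, hk⟩
          have hk' : y 2 = k := by linarith
          refine ⟨k, hk', i - k * (p - r - 1), j - k * r, ?_, ?_⟩
          · push_cast at s0 ⊢
            rw [hk'] at hi
            linear_combination hi / 3 - (k : ℝ) / 3 * s0
          · push_cast
            rw [hk'] at hj
            linear_combination hj / 3 - (k : ℝ) / 3 * s1
    | true =>
      obtain ⟨r, hr⟩ := hev rfl
      have s1 : s 1 = r := by
        have : (p : ℝ) + q = 3 * r := by exact_mod_cast hr
        linarith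
      have s0 : s 0 = ((p - r : ℤ) : ℝ) := by
        push_cast
        linarith
      have hmod : ∃ w : ℤ, p = 3 * w ∨ p = 3 * w + 1 ∨ p = 3 * w - 1 :=
        ⟨(p + 1) / 3, by omega⟩
      obtain ⟨w, hw | hw | hw⟩ := hmod
      · refine ⟨⟨⟨⟨1, 1, 0⟩, ⟨0, 3, 0⟩, ⟨0, 0, 3⟩⟩, 3, false⟩, by simp [hexLats], fun y => ?_⟩
        rw [lat_key T h1 hs hs2, LatD.mem_iff]
        simp only [Int.cast_one, Int.cast_zero, one_mul, zero_mul, add_zero, zero_add,
          Bool.false_eq_true, false_imp_iff, and_true, hp, s0, s1, true_imp_iff, Int.cast_ofNat]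
        have hw' : (p : ℝ) = 3 * w := by exact_mod_cast hw
        constructor
        · rintro ⟨m, hm, a, b, ha, hb, c, hc⟩
          have hc' : (a : ℝ) + b = 3 * c := by exact_mod_cast hc
          refine ⟨c + m * w, b + m * r, m, ?_, ?_, by rw [hm]⟩
          · push_cast at ha ⊢
            linear_combination ha + hb + hc' + (m : ℝ) * hw'
          · push_cast at ha ⊢
            linear_combination 3 * hb
        · rintro ⟨i, j, k, hi, hj, hk⟩
          have hk' : y 2 = k := by linarith
          refine ⟨k, hk', 3 * i - j - k * (p - r), j - k * r, ?_, ?_, i - k * w, ?_⟩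
          · push_cast
            linear_combination hi - hj / 3
          · push_cast
            linear_combination hj / 3
          · rw [hw]
            ring
      · refine ⟨⟨⟨⟨1, 1, -1⟩, ⟨0, 3, 0⟩, ⟨0, 0, 3⟩⟩, 3, false⟩, by simp [hexLats], fun y => ?_⟩
        rw [lat_key T h1 hs hs2, LatD.mem_iff]
        simp only [Int.cast_one, Int.cast_zero, one_mul, zero_mul, add_zero, zero_add,
          Bool.false_eq_true, false_imp_iff, and_true, hp, s0, s1, true_imp_iff, Int.cast_ofNat,
          Int.cast_neg, neg_mul]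
        have hw' : (p : ℝ) = 3 * w + 1 := by exact_mod_cast hw
        constructor
        · rintro ⟨m, hm, a, b, ha, hb, c, hc⟩
          have hc' : (a : ℝ) + b = 3 * c := by exact_mod_cast hc
          refine ⟨c + m * w, b + m * r, m, ?_, ?_, by rw [hm]⟩
          · push_cast at ha ⊢
            linear_combination ha + hb + hc' + (m : ℝ) * hw' - hm
          · push_cast at ha ⊢
            linear_combination 3 * hb
        · rintro ⟨i, j, k, hi, hj, hk⟩
          have hk' : y 2 = k := by linarith
          refine ⟨k, hk', 3 * i - j + k - k * (p - r), j - k * r, ?_, ?_, i - k * w, ?_⟩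
          · push_cast
            linear_combination hi - hj / 3 + hk'
          · push_cast
            linear_combination hj / 3
          · rw [hw]
            ring
      · refine ⟨⟨⟨⟨1, 1, 1⟩, ⟨0, 3, 0⟩, ⟨0, 0, 3⟩⟩, 3, false⟩, by simp [hexLats], fun y => ?_⟩
        rw [lat_key T h1 hs hs2, LatD.mem_iff]
        simp only [Int.cast_one, Int.cast_zero, one_mul, zero_mul, add_zero, zero_add,
          Bool.false_eq_true, false_imp_iff, and_true, hp, s0, s1, true_imp_iff, Int.cast_ofNat]
        have hw' : (p : ℝ) = 3 * w - 1 := by exact_mod_cast hw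
        constructor
        · rintro ⟨m, hm, a, b, ha, hb, c, hc⟩
          have hc' : (a : ℝ) + b = 3 * c := by exact_mod_cast hc
          refine ⟨c + m * w, b + m * r, m, ?_, ?_, by rw [hm]⟩
          · push_cast at ha ⊢
            linear_combination ha + hb + hc' + (m : ℝ) * hw' + hm
          · push_cast at ha ⊢
            linear_combination 3 * hb
        · rintro ⟨i, j, k, hi, hj, hk⟩
          have hk' : y 2 = k := by linarith
          refine ⟨k, hk', 3 * i - j - k - k * (p - r), j - k * r, ?_, ?_, i - k * w, ?_⟩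
          · push_cast
            linear_combination hi - hj / 3 - hk'
          · push_cast
            linear_combination hj / 3
          · rw [hw]
            ring

end Pool.Agent.H21.FT
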