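import Pool.Agent.H21.FT.RowFacts
import Pool.Agent.H21.FT.LatTet
import Pool.Agent.H21.FT.KerAx
import Pool.Agent.H21.FT.Easy
import Pool.Agent.H21.FT.C1Sound
import Pool.Agent.H21.FT.C1Ker

/-!
# Completeness of the tetragonal and hexagonal rows
-/

namespace Pool.Agent.H21.FT

open Matrix

/-- The matrix is block diagonal. -/
def IM.blk (M : IM) : Bool :=
  decide (M.a.z = 0) && decide (M.b.z = 0) && decide (M.c.x = 0) && decide (M.c.y = 0)

/-- The check of a row with a rigid family: all matrices are block diagonal, the vertical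
projection of the translations is trivial or the integers, one of the matrices of `rots` is the
linear part of a representative. -/
def axOK (rots : List IM) (r : Row) (C : C1Cert) : Bool :=
  r.sch.all IM.blk && r.reps.all (fun p => p.M.blk && p.X.blk) && r.S.blk && r.gens.all IM.blk &&
  decide (C.wn ≠ 0) && decide (0 < C.wd) &&
  (r.sch.all (fun X => decide (X.c.z = 0)) ||
    (r.sch.all (fun X => decide (C.wd ∣ C.wn * X.c.z)) &&
      r.sch.any (fun X => decide (C.wn * X.c.z = C.wd) || decide (C.wn * X.c.z = -C.wd)))) &&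
  rots.any (fun N => r.reps.any (fun p => decide (p.M = N)))

/-- The scaling of the plane by `a` and of the third coordinate by `c`. -/
def scal (a c : ℝ) : V3 →+ V3 where
  toFun v := ![a * v 0, a * v 1, c * v 2]
  map_zero' := by ext i; fin_cases i <;> simp
  map_add' := by intro x y; ext i; fin_cases i <;> simp [mul_add]

theorem scal_apply (a c : ℝ) (v : V3) : scal a c v = ![a * v 0, a * v 1, c * v 2] := rfl

theorem scal_scal (a c a' c' : ℝ) (v : V3) :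
    scal a c (scal a' c' v) = scal (a * a') (c * c') v := by
  ext i
  fin_cases i <;> simp [scal_apply, mul_assoc]

theorem scal_one (v : V3) : scal 1 1 v = v := by
  ext i
  fin_cases i <;> simp [scal_apply]

theorem scal_inj {a c : ℝ} (ha : a ≠ 0) (hc : c ≠ 0) {v w : V3} (h : scal a c v = scal a c w) :
    v = w := by
  have := congrArg (scal a⁻¹ c⁻¹) h
  rwa [scal_scal, scal_scal, inv_mul_cancel₀ ha, inv_mul_cancel₀ hc, scal_one, scal_one] at this

theorem blk_comm {M : IM} (hM : M.blk = true) (a c : ℝ) (v : V3) :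
    M.mat *ᵥ scal a c v = scal a c (M.mat *ᵥ v) := by
  simp only [IM.blk, Bool.and_eq_true, decide_eq_true_eq] at hM
  obtain ⟨⟨⟨h1, h2⟩, h3⟩, h4⟩ := hM
  ext i
  fin_cases i <;>
    simp [IM.mat, scal_apply, Matrix.mulVec, dotProduct, Fin.sum_univ_three, h1, h2, h3, h4] <;>
    ring

theorem blk_z {M : IM} (hM : M.blk = true) (v : V3) : (M.mat *ᵥ v) 2 = M.c.z * v 2 := by
  simp only [IM.blk, Bool.and_eq_true, decide_eq_true_eq] at hM
  obtain ⟨⟨⟨h1, h2⟩, h3⟩, h4⟩ := hM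
  simp [IM.mat, Matrix.mulVec, dotProduct, Fin.sum_univ_three, h3, h4]

theorem tw_scal {r : Row} (h : ∀ X ∈ r.sch, X.blk = true) {a c : ℝ} (ha : a ≠ 0) (hc : c ≠ 0)
    {p z : V3} : scal a c z ∈ r.Tw (scal a c p) ↔ z ∈ r.Tw p := by
  have e : r.Tw (scal a c p) = (r.Tw p).map (scal a c) := by
    unfold Row.Tw
    rw [AddMonoidHom.map_closure]
    refine congrArg _ ?_
    ext y
    constructor
    · rintro ⟨X, hX, rfl⟩
      exact ⟨X.mat *ᵥ p, ⟨X, hX, rfl⟩, (blk_comm (h X hX) a c p).symm⟩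
    · rintro ⟨_, ⟨X, hX, rfl⟩, rfl⟩
      exact ⟨X, hX, (blk_comm (h X hX) a c p).symm⟩
  rw [e, AddSubgroup.mem_map]
  constructor
  · rintro ⟨y, hy, h⟩
    rwa [← scal_inj ha hc h]
  · intro hz
    exact ⟨z, hz, rfl⟩

/-- The completeness of a rigid row. -/
theorem row_ax {k : Kind} (hk : k ≠ .cub) {rots : List IM} {b : Block} {r : Row}
    {lats : List LatE} (hb : BlockOK k b (r, lats)) {C : C1Cert}
    (hC : C.ok k r b.fams lats = true) (hax : axOK rots r C = true) {w : V3} {t : Equiv.Perm V3}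
    (ht : IsAff t r.S.mat w) (hst : ∀ p ∈ r.nl, p.X.mat *ᵥ w ∉ r.Tw w) (hz : w 2 ≠ 0)
    {δ : ℝ} (hδ : 0 < δ) (P : ℤ → ℤ → Prop)
    (hL : ∀ a b : ℝ, ![δ * a, δ * b, 0] ∈ r.Tw w ↔ ∃ m n : ℤ, a = m ∧ b = n ∧ P m n)
    (hlat : ∀ T : AddSubgroup V3, (∀ a b : ℝ, ![a, b, 0] ∈ T ↔ ∃ m n : ℤ, a = m ∧ b = n ∧ P m n) →
      ((∀ t ∈ T, t 2 = 0) ∨ ((∀ t ∈ T, ∃ m : ℤ, t 2 = m) ∧ ∃ t ∈ T, t 2 = 1)) →
      (∃ N ∈ rots, ∀ t ∈ T, N.mat *ᵥ t ∈ T) → ∃ L ∈ k.lats, ∀ y : V3, y ∈ T ↔ L.Mem y)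
    (hsim : ∀ a τ : ℝ, a ≠ 0 → τ ≠ 0 → SimF k !![a, 0, 0; 0, a, 0; 0, 0, τ]) : RowConc b w := by
  simp only [axOK, Bool.and_eq_true, List.all_eq_true, decide_eq_true_eq, Bool.or_eq_true,
    List.any_eq_true] at hax
  obtain ⟨⟨⟨⟨⟨⟨⟨hs, hreps⟩, hS⟩, hgens⟩, hwn⟩, hwd⟩, hv⟩, N, hN, q, hq, hqN⟩ := hax
  have hwn' : (C.wn : ℝ) ≠ 0 := by exact_mod_cast hwn
  have hwd' : (C.wd : ℝ) ≠ 0 := by exact_mod_cast hwd.ne'
  set κ : ℝ := (C.wn : ℝ) / C.wd with hκ
  have hκ0 : κ ≠ 0 := div_ne_zero hwn' hwd'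
  set τ : ℝ := w 2 / κ with hτ
  have hτ0 : τ ≠ 0 := div_ne_zero hz hκ0
  set p : V3 := scal δ⁻¹ τ⁻¹ w with hp
  have hwp : w = scal δ τ p := by
    rw [hp, scal_scal, mul_inv_cancel₀ hδ.ne', mul_inv_cancel₀ hτ0, scal_one]
  have hp2 : p 2 = κ := by
    rw [hp, scal_apply]
    simp only [Matrix.cons_val]
    rw [hτ]
    field_simp
  have hTw : ∀ z : V3, scal δ τ z ∈ r.Tw w ↔ z ∈ r.Tw p := by
    intro z
    rw [hwp]
    exact tw_scal hs hδ.ne' hτ0
  have hinv : ∀ q ∈ r.reps, ∀ y ∈ r.Tw p, q.M.mat *ᵥ y ∈ r.Tw p := by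
    intro q hq y hy
    rw [← hTw] at hy ⊢
    have := Row.Tw_inv hb.ok ht hq hy
    rwa [blk_comm (hreps q hq).1] at this
  have hnl : ∀ q ∈ r.nl, q.X.mat *ᵥ p ∉ r.Tw p := by
    intro q hq h
    refine hst q hq ?_
    rw [← hTw, ← blk_comm (hreps q (List.mem_of_mem_drop hq)).2, ← hwp] at h
    exact h
  have hvert : (∀ t ∈ r.Tw p, t 2 = 0) ∨
      ((∀ t ∈ r.Tw p, ∃ m : ℤ, t 2 = m) ∧ ∃ t ∈ r.Tw p, t 2 = 1) := by
    rcases hv with hv | ⟨hv, X, hX, hX1⟩
    · left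
      intro t ht
      refine AddSubgroup.closure_induction (p := fun t _ => t 2 = 0) ?_ ?_ ?_ ?_ ht
      · rintro y ⟨X, hX, rfl⟩
        rw [blk_z (hs X hX), hv X hX]
        simp
      · rfl
      · intro x y _ _ hx hy
        rw [Pi.add_apply, hx, hy, add_zero]
      · intro x _ hx
        rw [Pi.neg_apply, hx, neg_zero]
    · right
      refine ⟨?_, ?_⟩
      · intro t ht
        refine AddSubgroup.closure_induction (p := fun (t : V3) _ => ∃ m : ℤ, t 2 = (m : ℝ)) ?_ ?_ ?_ ?_ ht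
        · rintro y ⟨X, hX, rfl⟩
          obtain ⟨m, hm⟩ := hv X hX
          refine ⟨m, ?_⟩
          rw [blk_z (hs X hX), hp2, hκ]
          have : (C.wn : ℝ) * X.c.z = C.wd * m := by exact_mod_cast hm
          field_simp
          linarith
        · exact ⟨0, by simp⟩
        · rintro x y _ _ ⟨m, hm⟩ ⟨n, hn⟩
          exact ⟨m + n, by rw [Pi.add_apply, hm, hn]; push_cast; ring⟩
        · rintro x _ ⟨m, hm⟩
          exact ⟨-m, by rw [Pi.neg_apply, hm]; push_cast; ring⟩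
      · have hXm : X.mat *ᵥ p ∈ r.Tw p := AddSubgroup.subset_closure ⟨X, hX, rfl⟩
        rcases hX1 with h | h
        · refine ⟨_, hXm, ?_⟩
          rw [blk_z (hs X hX), hp2, hκ]
          have : (C.wn : ℝ) * X.c.z = C.wd := by exact_mod_cast h
          field_simp
          linarith
        · refine ⟨_, (r.Tw p).neg_mem hXm, ?_⟩
          rw [Pi.neg_apply, blk_z (hs X hX), hp2, hκ]
          have : (C.wn : ℝ) * X.c.z = -C.wd := by exact_mod_cast h
          field_simp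
          linarith
  have hpl : ∀ a b : ℝ, ![a, b, 0] ∈ r.Tw p ↔ ∃ m n : ℤ, a = m ∧ b = n ∧ P m n := by
    intro a b
    rw [← hTw, ← hL]
    have : scal δ τ ![a, b, 0] = ![δ * a, δ * b, 0] := by
      ext i
      fin_cases i <;> simp [scal_apply]
    rw [this]
  obtain ⟨L, hLm, hT⟩ := hlat (r.Tw p) hpl hvert ⟨N, hN, fun t ht => hqN ▸ hinv q hq t ht⟩
  obtain ⟨f, hf, σ, hσ, n, x, y, hex, hpσ⟩ := c1_sound hb hC hLm hT hnl hinv (fun _ => hp2)
  have hps : p = scal σ 1 (f.pt n x y) := by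
    rw [hpσ]
    ext i
    fin_cases i <;> simp [sclR, scal_apply, hk]
  refine ⟨!![δ * σ, 0, 0; 0, δ * σ, 0; 0, 0, τ], ?_, ?_, f, hf, n, x, y, hex, ?_⟩
  · rw [hb.kind]
    exact hsim _ _ (mul_pos hδ hσ).ne' hτ0
  · intro M hM
    have hMb : M.blk = true := by
      rcases List.mem_cons.mp hM with rfl | hM
      · rw [hb.S]; exact hS
      · rw [hb.gens] at hM; exact hgens M hM
    simp only [IM.blk, Bool.and_eq_true, decide_eq_true_eq] at hMb
    obtain ⟨⟨⟨h1, h2⟩, h3⟩, h4⟩ := hMb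
    ext i j
    fin_cases i <;> fin_cases j <;>
      simp [IM.mat, Matrix.mul_apply, Fin.sum_univ_three, h1, h2, h3, h4, mul_comm]
  · rw [hwp, hps, scal_scal]
    ext i
    fin_cases i <;> simp [scal_apply, Matrix.mulVec, dotProduct, Fin.sum_univ_three]

/-- The rotations by 90 degrees. -/
def tetRots : List IM := [⟨⟨0, -1, 0⟩, ⟨1, 0, 0⟩, ⟨0, 0, 1⟩⟩, ⟨⟨0, -1, 0⟩, ⟨1, 0, 0⟩, ⟨0, 0, -1⟩⟩]

/-- The rotation by 120 degrees. -/
def hexRots : List IM := [⟨⟨0, -1, 0⟩, ⟨1, -1, 0⟩, ⟨0, 0, 1⟩⟩]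

set_option maxRecDepth 100000 in
theorem ax_tet : tetC1.all (fun c => match (tetBlocks.zip tetRows)[c.1]? with
    | some x => axOK tetRots x.2.1 c.2
    | none => false) = true := by decide +kernel

set_option maxRecDepth 100000 in
theorem ax_hex : hexC1.all (fun c => match (hexBlocks.zip hexRows)[c.1]? with
    | some x => axOK hexRots x.2.1 c.2
    | none => false) = true := by decide +kernel

theorem c1Tet_sub : ∀ i ∈ c1Tet, ∃ c ∈ tetC1, c.1 = i := by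
  have h : c1Tet.all (fun i => tetC1.any (fun c => decide (c.1 = i))) = true := by decide +kernel
  simpa [List.all_eq_true, List.any_eq_true] using h

theorem c1Hex_sub : ∀ i ∈ c1Hex, ∃ c ∈ hexC1, c.1 = i := by
  have h : c1Hex.all (fun i => hexC1.any (fun c => decide (c.1 = i))) = true := by decide +kernel
  simpa [List.all_eq_true, List.any_eq_true] using h

theorem row_tet {x : Block × (Row × List LatE)} (hx : x ∈ tetBlocks.zip tetRows) {w : V3}
    {t : Equiv.Perm V3} (ht : IsAff t x.2.1.S.mat w) (hd : Disc (x.2.1.grp t))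
    (hst : ∀ p ∈ x.2.1.nl, p.X.mat *ᵥ w ∉ x.2.1.Tw w)
    (hz : w 2 ≠ 0) {δ : ℝ} (hδ : 0 < δ) (C : Bool)
    (hL : ∀ a b : ℝ, ![δ * a, δ * b, 0] ∈ x.2.1.Tw w ↔
      ∃ m n : ℤ, a = m ∧ b = n ∧ (C = true → Even (m + n))) :
    RowConc x.1 w := by
  have hok := tet_ok.2 x hx
  obtain ⟨i, hi⟩ := List.mem_iff_getElem?.mp hx
  by_cases hc : i ∈ c1Tet
  · obtain ⟨c, hcm, rfl⟩ := c1Tet_sub i hc
    obtain ⟨y, hy, hC⟩ := c1_tet_ok c hcm
    have hyx : y = x := Option.some.inj (hy.symm.trans hi)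
    subst hyx
    have hax := List.all_eq_true.mp ax_tet c hcm
    rw [hy] at hax
    refine row_ax (k := .tet) (by decide) (lats := y.2.2) hok hC hax ht hst hz hδ _ hL ?_ ?_
    · rintro T hp hv ⟨N, hN, hR⟩
      simp only [tetRots, List.mem_cons, List.not_mem_nil, or_false] at hN
      rcases hN with rfl | rfl
      · refine lat_tet T C hp hv (ε := 1) (Or.inl rfl) fun t ht => ?_
        have := hR t ht
        have e : (⟨⟨0, -1, 0⟩, ⟨1, 0, 0⟩, ⟨0, 0, 1⟩⟩ : IM).mat *ᵥ t = ![-t 1, t 0, 1 * t 2] := by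
          ext i
          fin_cases i <;> simp [IM.mat, Matrix.mulVec, dotProduct, Fin.sum_univ_three]
        rwa [e] at this
      · refine lat_tet T C hp hv (ε := -1) (Or.inr rfl) fun t ht => ?_
        have := hR t ht
        have e : (⟨⟨0, -1, 0⟩, ⟨1, 0, 0⟩, ⟨0, 0, -1⟩⟩ : IM).mat *ᵥ t = ![-t 1, t 0, -1 * t 2] := by
          ext i
          fin_cases i <;> simp [IM.mat, Matrix.mulVec, dotProduct, Fin.sum_univ_three]
        rwa [e] at this
    · intro a τ ha hτ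
      exact ⟨a, 0, τ, Or.inl ha, hτ, by simp⟩
  · refine easy_tet hc hi hok hst hz ⟨![δ * 1, δ * 1, 0], (hL 1 1).mpr ⟨1, 1, by simp, by simp, ?_⟩,
      Or.inl (by simpa using hδ.ne')⟩
    intro _
    exact ⟨1, by norm_num⟩

theorem row_hex {x : Block × (Row × List LatE)} (hx : x ∈ hexBlocks.zip hexRows) {w : V3}
    {t : Equiv.Perm V3} (ht : IsAff t x.2.1.S.mat w) (hd : Disc (x.2.1.grp t))
    (hst : ∀ p ∈ x.2.1.nl, p.X.mat *ᵥ w ∉ x.2.1.Tw w)
    (hz : w 2 ≠ 0) {δ : ℝ} (hδ : 0 < δ) (C : Bool)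
    (hL : ∀ a b : ℝ, ![δ * a, δ * b, 0] ∈ x.2.1.Tw w ↔
      ∃ m n : ℤ, a = m ∧ b = n ∧ (C = true → (3 : ℤ) ∣ m + n)) :
    RowConc x.1 w := by
  have hok := hex_ok.2 x hx
  obtain ⟨i, hi⟩ := List.mem_iff_getElem?.mp hx
  by_cases hc : i ∈ c1Hex
  · obtain ⟨c, hcm, rfl⟩ := c1Hex_sub i hc
    obtain ⟨y, hy, hC⟩ := c1_hex_ok c hcm
    have hyx : y = x := Option.some.inj (hy.symm.trans hi)
    subst hyx
    have hax := List.all_eq_true.mp ax_hex c hcm
    rw [hy] at hax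
    refine row_ax (k := .hex) (by decide) (lats := y.2.2) hok hC hax ht hst hz hδ _ hL ?_ ?_
    · rintro T hp hv ⟨N, hN, hR⟩
      simp only [hexRots, List.mem_cons, List.not_mem_nil, or_false] at hN
      subst hN
      refine lat_hex T C hp hv fun t ht => ?_
      have := hR t ht
      have e : (⟨⟨0, -1, 0⟩, ⟨1, -1, 0⟩, ⟨0, 0, 1⟩⟩ : IM).mat *ᵥ t = ![-t 1, t 0 - t 1, t 2] := by
        ext i
        fin_cases i <;>
          simp [IM.mat, Matrix.mulVec, dotProduct, Fin.sum_univ_three, sub_eq_add_neg]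
      rwa [e] at this
    · intro a τ ha hτ
      exact ⟨a, 0, τ, Or.inl ha, hτ, by simp⟩
  · refine easy_hex hc hi hok hst hz ⟨![δ * 1, δ * 2, 0], (hL 1 2).mpr ⟨1, 2, by simp, by simp, ?_⟩,
      Or.inl (by simpa using hδ.ne')⟩
    intro _
    exact ⟨1, by norm_num⟩

end Pool.Agent.H21.FT
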