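import Pool.Agent.H21.FT.RowRedGen
import Pool.Agent.H21.FT.RowsOrt

/-!
# Tables for the reduction of a triple of matrices to a row (orthogonal)
-/

namespace Pool.Agent.H21.FT

namespace RR

/-- The tables. -/
def ortD : Dat :=
  ⟨8, ortAuts, conjs .ort, ortRows.map Prod.fst,
   0x443214c708062290e610c0131c8518820398a4214c700443290e60806231c8510c01398a418820,
   0x38cc228480394613104038ca1308803986229020394c418440398a418820,
   0x810000c30000a50000990000990000a50000c30000810000c30000410000690000550000690000550000c30000410000a50000690000210000330000690000a500003300002100009900005500003300001100009900005500003300001100009900006900006900009900000900000f00000f0000090000a50000550000a500005500000f00000500000f0000050000c30000c300003300003300000f00000f000003000003000081000041000021000011000009000005000003000001,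
   0x55000055000099000069000069000011000041000041,
   0x8400084210002118c42,
   0x9800009000008800008000000009800009000008800008000009c09000000008c08000009800000009400008c08000000009809400008c0000000800000000900000000000800000000000980000800000000000000000000980000800000000,
   0x1431431431430000000001420001421420001420000001401400000001401400000001401400000001401400000001420001421420001420000000001431431431430000000000000000000000000000000000001431431431430000000000000400000400000000001000c00c01000c01001000c01c01801c01801c01801c01801000c00c01000c01001000c01c01801c01801c01801c01800000001431431431430000000000000400000400000000000001420001421420001420001000c00c01000c01001000c00000410000010410000010001c11c11811811c11c11811811000c00c01000c01001000c00001420001421420001420001c11c11811811c11c11811810000410000010410000010000001401400000001401400001c01801c01801c01801c01801c11c11811811c11c11811810000810800000000810800000001401400000001401400001c01801c01801c01801c01801c11c11811811c11c11811810000810800000000810800000001401400000001401400001000c00c01000c01001000c01000c00c01000c01001000c00001401400000001401400000000430430000000030030001c31c31c31c31831831831831c31c31c31c31831831831830000430430000000030030000001420001421420001420001c01801c01801c01801c01800001420001421420001420001c01801c01801c01801c01801c31c31c31c31831831831830000840000840820000820001c31c31c31c31831831831830000840000840820000820000000001431431431430000000000001431431431430000001c11c11811811c11c11811811c11c11811811c11c11811811c31c31c31c31831831831831c31c31c31c3183183183183000000083083085085000000000000083083085085000000000000000000000000000000000000000000000000000000000000000000000000000000000000000000000000000000000000000000000000000000000000000000000000000000000000000000000000000000000000000000000000000000⟩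

end RR

end Pool.Agent.H21.FT
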