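import Pool.Agent.H21.FT.RowRedDTet
import Pool.Agent.H21.FT.RowRedDHex
import Pool.Agent.H21.FT.RowRedDOrt

/-!
# Reduction of a triple of matrices to a row: tetragonal, hexagonal and orthogonal frames
-/

namespace Pool.Agent.H21.FT

namespace RR

instance (M : IM) : Decidable (Turns M) := by unfold Turns; infer_instance

/-- The set `K` of indices is a group without elements that turn. -/
def Dat.chkK (d : Dat) (K : ℕ) : Bool :=
  Nat.testBit K 0 &&
  (List.range d.n).all fun i => bif Nat.testBit K i then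
    decide (¬ Turns (d.el i)) &&
      (List.range d.n).all fun j => bif Nat.testBit K j then Nat.testBit K (d.T i j) else true
    else true

/-- Only the first matrix is the identity. -/
def Dat.chkI (d : Dat) : Bool :=
  (List.range d.n).all fun i => Nat.beq i 0 || !decide (d.el i = IM.one)

lemma Dat.chkI_spec {d : Dat} (h : d.chkI = true) {i : ℕ} (hi : i < d.n)
    (he : d.el i = IM.one) : i = 0 := by
  simp only [Dat.chkI, List.all_eq_true, List.mem_range, Bool.or_eq_true, Nat.beq_eq,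
    Bool.not_eq_true', decide_eq_false_iff_not] at h
  rcases h i hi with h | h
  · exact h
  · exact absurd he h

lemma Dat.chkK_spec {d : Dat} (ok : d.OK) {K : ℕ} (h : d.chkK K = true) {a b s : ℕ}
    (ha : a < d.n) (hb : b < d.n) (hs : s < d.n) (ka : Nat.testBit K a = true)
    (kb : Nat.testBit K b = true) (ks : Nat.testBit K s = true) {M : IM}
    (hM : GenBy [d.el a, d.el b, d.el s] M) : ¬ Turns M := by
  simp only [Dat.chkK, List.all_eq_true, List.mem_range, Bool.and_eq_true] at h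
  obtain ⟨h0, h⟩ := h
  have key : ∀ i < d.n, Nat.testBit K i = true → (¬ Turns (d.el i)) ∧
      ∀ j < d.n, Nat.testBit K j = true → Nat.testBit K (d.T i j) = true := by
    intro i hi hb
    have h1 := h i hi
    rw [hb, cond_true, Bool.and_eq_true, decide_eq_true_eq, List.all_eq_true] at h1
    refine ⟨h1.1, fun j hj hk => ?_⟩
    have h2 := h1.2 j (List.mem_range.2 hj)
    rwa [hk, cond_true] at h2
  have : ∃ k < d.n, Nat.testBit K k = true ∧ d.el k = M := by
    induction hM with
    | one => exact ⟨0, ok.pos, h0, ok.zero⟩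
    | mul hM _ ih =>
      obtain ⟨k, hk, hbk, rfl⟩ := ih
      rcases List.mem_cons.1 hM with rfl | hM
      · exact ⟨_, (ok.hT ha hk).1, (key a ha ka).2 k hk hbk, (ok.hT ha hk).2.symm⟩
      · rcases List.mem_cons.1 hM with rfl | hM
        · exact ⟨_, (ok.hT hb hk).1, (key b hb kb).2 k hk hbk, (ok.hT hb hk).2.symm⟩
        · rw [List.mem_singleton] at hM
          subst hM
          exact ⟨_, (ok.hT hs hk).1, (key s hs ks).2 k hk hbk, (ok.hT hs hk).2.symm⟩
  obtain ⟨k, hk, hbk, rfl⟩ := this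
  exact (key k hk hbk).1

/-- The excluded triples. -/
def Dat.ex (d : Dat) (Ks : List ℕ) (a b s : ℕ) : Bool :=
  Nat.beq a 0 || !(Nat.beq b 0 || (Nat.beq (d.T a a) 0 && Nat.beq (d.T b b) 0)) ||
  Ks.any fun K => Nat.testBit K a && Nat.testBit K b && Nat.testBit K s

theorem Dat.OK.red3 {d : Dat} (ok : d.OK) (hI : d.chkI = true) (Ks : List ℕ)
    (hK : ∀ K ∈ Ks, d.chkK K = true)
    (hz : ∀ a < d.n, ∀ b < d.n, ∀ s < d.n,
      d.ex Ks a b s = true ∨ d.chk1 a b s (d.Z a b s) = true)
    {bl : List Block} {rw : List (Row × List LatE)} (hR : d.R = rw.map Prod.fst)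
    (hl : bl.length = rw.length) {A B S : IM} (hA : A ∈ d.A) (hB : B ∈ d.A) (hS : S ∈ d.A)
    (h1 : A ≠ IM.one) (h2 : B = IM.one ∨ (A.mul A = IM.one ∧ B.mul B = IM.one)) :
    (∀ M, GenBy [A, B, S] M → ¬ Turns M) ∨
    ∃ N ∈ d.N, ∃ x ∈ bl.zip rw, RedTo A B S N x.2.1 := by
  obtain ⟨a, ha, rfl⟩ := ok.mem_el hA
  obtain ⟨b, hb, rfl⟩ := ok.mem_el hB
  obtain ⟨s, hs, rfl⟩ := ok.mem_el hS
  cases hx : d.ex Ks a b s
  · exact Or.inr (ok.main hz hR hl ha hb hs hx)
  left
  intro M hM
  simp only [Dat.ex, Bool.or_eq_true, Bool.not_eq_true', Bool.or_eq_false_iff, Nat.beq_eq,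
    Bool.and_eq_false_iff, List.any_eq_true, Bool.and_eq_true] at hx
  rcases hx with (hx | ⟨hx1, hx2⟩) | ⟨K, hKs, ⟨ka, kb⟩, ks⟩
  · subst hx
    exact absurd ok.zero h1
  · exfalso
    rcases h2 with h2 | ⟨h2, h3⟩
    · have := Dat.chkI_spec hI hb h2
      rw [this] at hx1
      exact absurd hx1 (by decide)
    · rw [(ok.hT ha ha).2] at h2
      rw [(ok.hT hb hb).2] at h3
      have e1 := Dat.chkI_spec hI (ok.hT ha ha).1 h2
      have e2 := Dat.chkI_spec hI (ok.hT hb hb).1 h3
      rw [e1, e2] at hx2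
      rcases hx2 with h | h <;> exact absurd h (by decide)
  · exact Dat.chkK_spec ok (hK K hKs) ha hb hs ka kb ks hM

set_option maxRecDepth 100000

theorem tetOK : tetD.OK where
  len := by decide +kernel
  pos := by decide +kernel
  zero := by decide +kernel
  T := by decide +kernel
  C := by decide +kernel
  G := by decide +kernel
  R := by decide +kernel
  W := by decide +kernel

theorem hexOK : hexD.OK where
  len := by decide +kernel
  pos := by decide +kernel
  zero := by decide +kernel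
  T := by decide +kernel
  C := by decide +kernel
  G := by decide +kernel
  R := by decide +kernel
  W := by decide +kernel

theorem ortOK : ortD.OK where
  len := by decide +kernel
  pos := by decide +kernel
  zero := by decide +kernel
  T := by decide +kernel
  C := by decide +kernel
  G := by decide +kernel
  R := by decide +kernel
  W := by decide +kernel

theorem tetZ : tetD.chkZ (tetD.ex [52275, 61455]) 0 16 = true := by decide +kernel

theorem hexZ : hexD.chkZ (hexD.ex [3195657, 3342537, 15728655]) 0 24 = true := by decide +kernel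

/-- The excluded triples: two of the sign patterns agree. -/
def ortEx (a b s : ℕ) : Bool :=
  Nat.beq a 0 ||
  decide (((ortD.el a).a.x, (ortD.el b).a.x, (ortD.el s).a.x) =
    ((ortD.el a).b.y, (ortD.el b).b.y, (ortD.el s).b.y)) ||
  decide (((ortD.el a).a.x, (ortD.el b).a.x, (ortD.el s).a.x) =
    ((ortD.el a).c.z, (ortD.el b).c.z, (ortD.el s).c.z)) ||
  decide (((ortD.el a).b.y, (ortD.el b).b.y, (ortD.el s).b.y) =
    ((ortD.el a).c.z, (ortD.el b).c.z, (ortD.el s).c.z))

theorem ortZ : ortD.chkZ ortEx 0 8 = true := by decide +kernel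

end RR

open RR

theorem rowred_tet {A B S : IM} (hA : A ∈ tetAuts) (hB : B ∈ tetAuts) (hS : S ∈ tetAuts)
    (h1 : A ≠ IM.one) (h2 : B = IM.one ∨ (A.mul A = IM.one ∧ B.mul B = IM.one)) :
    (∀ M, GenBy [A, B, S] M → ¬ Turns M) ∨
    ∃ N ∈ conjs .tet, ∃ x ∈ tetBlocks.zip tetRows, RedTo A B S N x.2.1 := by
  refine tetOK.red3 (by decide +kernel) [52275, 61455] ?_ ?_ (bl := tetBlocks) (rw := tetRows)
    rfl (by decide +kernel) hA hB hS h1 h2
  · have : ([52275, 61455] : List ℕ).all (fun K => tetD.chkK K) = true := by decide +kernel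
    rw [List.all_eq_true] at this
    exact this
  · intro a ha b hb s hs
    exact Dat.chkZ_spec tetZ (Nat.zero_le a) ha hb hs

theorem rowred_hex {A B S : IM} (hA : A ∈ hexAuts) (hB : B ∈ hexAuts) (hS : S ∈ hexAuts)
    (h1 : A ≠ IM.one) (h2 : B = IM.one ∨ (A.mul A = IM.one ∧ B.mul B = IM.one)) :
    (∀ M, GenBy [A, B, S] M → ¬ Turns M) ∨
    ∃ N ∈ conjs .hex, ∃ x ∈ hexBlocks.zip hexRows, RedTo A B S N x.2.1 := by
  refine hexOK.red3 (by decide +kernel) [3195657, 3342537, 15728655] ?_ ?_ (bl := hexBlocks)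
    (rw := hexRows) rfl (by decide +kernel) hA hB hS h1 h2
  · have : ([3195657, 3342537, 15728655] : List ℕ).all (fun K => hexD.chkK K) = true := by
      decide +kernel
    rw [List.all_eq_true] at this
    exact this
  · intro a ha b hb s hs
    exact Dat.chkZ_spec hexZ (Nat.zero_le a) ha hb hs

theorem rowred_ort {A B S : IM} (hA : A ∈ ortAuts) (hB : B ∈ ortAuts) (hS : S ∈ ortAuts)
    (h1 : A ≠ IM.one)
    (h12 : (A.a.x, B.a.x, S.a.x) ≠ (A.b.y, B.b.y, S.b.y))
    (h13 : (A.a.x, B.a.x, S.a.x) ≠ (A.c.z, B.c.z, S.c.z))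
    (h23 : (A.b.y, B.b.y, S.b.y) ≠ (A.c.z, B.c.z, S.c.z)) :
    ∃ N ∈ conjs .ort, ∃ x ∈ ortBlocks.zip ortRows, RedTo A B S N x.2.1 := by
  obtain ⟨a, ha, rfl⟩ := ortOK.mem_el (M := A) hA
  obtain ⟨b, hb, rfl⟩ := ortOK.mem_el (M := B) hB
  obtain ⟨s, hs, rfl⟩ := ortOK.mem_el (M := S) hS
  refine ortOK.main (ex := ortEx) (bl := ortBlocks) (rw := ortRows) ?_ rfl (by decide +kernel)
    ha hb hs ?_
  · intro a ha b hb s hs
    exact Dat.chkZ_spec ortZ (Nat.zero_le a) ha hb hs
  · simp only [ortEx, Bool.or_eq_false_iff, decide_eq_false_iff_not]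
    refine ⟨⟨⟨?_, h12⟩, h13⟩, h23⟩
    rw [← Bool.not_eq_true, Nat.beq_eq]
    rintro rfl
    exact h1 ortOK.zero

end Pool.Agent.H21.FT
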