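import Pool.Agent.H21.FT.DefsE
import Pool.Agent.H21.FT.RowFacts
import Pool.Agent.H21.FT.Cnj

/-!
# From rows back to permutations
-/

namespace Pool.Agent.H21.FT

open Matrix

/-! ### The matrices of `conjs` -/

/-- The transposed matrix. -/
def tfTr (M : IM) : IM :=
  ⟨⟨M.a.x, M.b.x, M.c.x⟩, ⟨M.a.y, M.b.y, M.c.y⟩, ⟨M.a.z, M.b.z, M.c.z⟩⟩

theorem tf_tr_mat (M : IM) : (tfTr M).mat = M.matᵀ := by
  ext i j
  fin_cases i <;> fin_cases j <;> simp [tfTr, IM.mat]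

/-- `12` times the Gram matrix of the frame. -/
def tfG : Kind → IM
  | .hex => ⟨⟨12, -6, 0⟩, ⟨-6, 12, 0⟩, ⟨0, 0, 12⟩⟩
  | _ => ⟨⟨12, 0, 0⟩, ⟨0, 12, 0⟩, ⟨0, 0, 12⟩⟩

/-- `12` times the Gram matrices of the transformed frame. -/
def tfH : Kind → Bool → IM
  | .hex, false => ⟨⟨12, -6, 0⟩, ⟨-6, 12, 0⟩, ⟨0, 0, 12⟩⟩
  | .hex, true => ⟨⟨4, -2, 0⟩, ⟨-2, 4, 0⟩, ⟨0, 0, 12⟩⟩
  | .tet, true => ⟨⟨6, 0, 0⟩, ⟨0, 6, 0⟩, ⟨0, 0, 12⟩⟩
  | _, _ => ⟨⟨12, 0, 0⟩, ⟨0, 12, 0⟩, ⟨0, 0, 12⟩⟩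

theorem tf_check (k : Kind) : ∀ N ∈ conjs k,
    (tfTr N).mul ((tfH k false).mul N) = tfG k ∨ (tfTr N).mul ((tfH k true).mul N) = tfG k := by
  cases k <;> decide +kernel

theorem tf_gram {k : Kind} {N : IM} (hN : N ∈ conjs k) :
    ∃ o : Bool, N.matᵀ * ((tfH k o).mat * N.mat) = (tfG k).mat := by
  rcases tf_check k N hN with h | h
  · refine ⟨false, ?_⟩
    rw [← h, rf_mul_mat, rf_mul_mat, tf_tr_mat]
  · refine ⟨true, ?_⟩
    rw [← h, rf_mul_mat, rf_mul_mat, tf_tr_mat]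

theorem tf_G_det (k : Kind) : (tfG k).mat.det ≠ 0 := by
  cases k <;> simp [tfG, IM.mat, det_fin_three]
  norm_num

/-- FTI-30 -/
theorem conjs_det {k : Kind} {N : IM} (hN : N ∈ conjs k) : N.mat.det ≠ 0 := by
  obtain ⟨o, h⟩ := tf_gram hN
  have h1 := congrArg Matrix.det h
  rw [det_mul, det_mul] at h1
  intro h0
  rw [h0, mul_zero, mul_zero] at h1
  exact tf_G_det k h1.symm

theorem tf_frame (k : Kind) :
    (k.frame 1 1)ᵀ * k.frame 1 1 = (12 : ℝ)⁻¹ • (tfG k).mat := by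
  have h3 : √3 * √3 = 3 := Real.mul_self_sqrt (by norm_num)
  have h4 : √3 / 2 * (√3 / 2) = 3 / 4 := by
    rw [div_mul_div_comm, h3]
    norm_num
  cases k <;> ext i j <;> fin_cases i <;> fin_cases j <;>
    simp [Kind.frame, tfG, IM.mat, Matrix.mul_apply, Fin.sum_univ_three] <;>
    (try rw [h4]) <;> norm_num

theorem tf_conj {N G H : M3} (hN : N.det ≠ 0) (h : Nᵀ * (H * N) = G) :
    (N⁻¹)ᵀ * (G * N⁻¹) = H := by
  have h1 : N * N⁻¹ = 1 := mul_nonsing_inv N (isUnit_iff_ne_zero.2 hN)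
  have h2 : (N⁻¹)ᵀ * Nᵀ = 1 := by
    rw [← transpose_mul, h1, transpose_one]
  rw [← h]
  calc (N⁻¹)ᵀ * (Nᵀ * (H * N) * N⁻¹) = ((N⁻¹)ᵀ * Nᵀ) * H * (N * N⁻¹) := by
        simp only [Matrix.mul_assoc]
    _ = H := by rw [h1, h2, Matrix.one_mul, Matrix.mul_one]

theorem tf_gram2 {k : Kind} {N : IM} (hN : N ∈ conjs k) (F : M3) :
    ∃ o : Bool, (k.frame 1 1 * (N.mat⁻¹ * F))ᵀ * (k.frame 1 1 * (N.mat⁻¹ * F)) =
      Fᵀ * (((12 : ℝ)⁻¹ • (tfH k o).mat) * F) := by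
  obtain ⟨o, h⟩ := tf_gram hN
  refine ⟨o, ?_⟩
  have h1 := tf_conj (conjs_det hN) h
  calc (k.frame 1 1 * (N.mat⁻¹ * F))ᵀ * (k.frame 1 1 * (N.mat⁻¹ * F))
      = Fᵀ * ((N.mat⁻¹)ᵀ * (((k.frame 1 1)ᵀ * k.frame 1 1) * N.mat⁻¹) * F) := by
        simp only [transpose_mul, Matrix.mul_assoc]
    _ = Fᵀ * (((12 : ℝ)⁻¹ • (tfH k o).mat) * F) := by
        rw [tf_frame, Matrix.smul_mul, Matrix.mul_smul, h1]

/-- FTI-30 -/
theorem qgram {k : Kind} {N : IM} (hN : N ∈ conjs k) {F : M3} (hF : SimF k F) :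
    QGram k (N.mat⁻¹ * F) := by
  obtain ⟨o, h⟩ := tf_gram2 hN F
  unfold QGram
  rw [h]
  cases k
  case cub =>
    obtain ⟨σ, hσ, rfl⟩ := hF
    refine ⟨|σ|, 1, 1, abs_pos.2 hσ, one_pos, one_pos, ?_⟩
    rw [sq_abs]
    ext i j
    cases o <;> fin_cases i <;> fin_cases j <;>
      simp [Kind.frame, tfH, IM.mat, Matrix.mul_apply, Fin.sum_univ_three, Matrix.one_apply] <;>
      ring
  case tet =>
    obtain ⟨a, b, τ, hab, hτ, rfl⟩ := hF
    have hpos : 0 < a ^ 2 + b ^ 2 := by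
      rcases hab with h0 | h0
      · have := pow_pos (abs_pos.2 h0) 2
        rw [sq_abs] at this
        nlinarith [sq_nonneg b]
      · have := pow_pos (abs_pos.2 h0) 2
        rw [sq_abs] at this
        nlinarith [sq_nonneg a]
    have key : ∀ κ : ℝ, 0 < κ → ∃ ρ c : ℝ, 0 < ρ ∧ 0 < c ∧ ρ ^ 2 = (a ^ 2 + b ^ 2) * κ ∧
        ρ ^ 2 * c ^ 2 = τ ^ 2 := by
      intro κ hκ
      have h1 : 0 < (a ^ 2 + b ^ 2) * κ := mul_pos hpos hκ
      have h2 : 0 < √((a ^ 2 + b ^ 2) * κ) := Real.sqrt_pos.2 h1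
      refine ⟨√((a ^ 2 + b ^ 2) * κ), |τ| / √((a ^ 2 + b ^ 2) * κ), h2,
        div_pos (abs_pos.2 hτ) h2, Real.sq_sqrt h1.le, ?_⟩
      rw [← mul_pow, mul_div_cancel₀ _ h2.ne', sq_abs]
    cases o
    · obtain ⟨ρ, c, hρ, hc, e1, e2⟩ := key 1 one_pos
      refine ⟨ρ, 1, c, hρ, one_pos, hc, ?_⟩
      rw [mul_one] at e1
      ext i j
      fin_cases i <;> fin_cases j <;>
        simp [Kind.frame, tfH, IM.mat, Matrix.mul_apply, Fin.sum_univ_three] <;>
        first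
          | ring1
          | linear_combination -e1
          | linear_combination -e2
    · obtain ⟨ρ, c, hρ, hc, e1, e2⟩ := key (1 / 2) (by norm_num)
      refine ⟨ρ, 1, c, hρ, one_pos, hc, ?_⟩
      ext i j
      fin_cases i <;> fin_cases j <;>
        simp [Kind.frame, tfH, IM.mat, Matrix.mul_apply, Fin.sum_univ_three] <;>
        first
          | ring1
          | linear_combination -e1
          | linear_combination -e2
  case hex =>
    obtain ⟨a, b, τ, hab, hτ, rfl⟩ := hF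
    have hpos : 0 < a ^ 2 - a * b + b ^ 2 := by
      rcases hab with h0 | h0
      · have := pow_pos (abs_pos.2 h0) 2
        rw [sq_abs] at this
        nlinarith [sq_nonneg (a - 2 * b), sq_nonneg b]
      · have := pow_pos (abs_pos.2 h0) 2
        rw [sq_abs] at this
        nlinarith [sq_nonneg (b - 2 * a), sq_nonneg a]
    have key : ∀ κ : ℝ, 0 < κ → ∃ ρ c : ℝ, 0 < ρ ∧ 0 < c ∧ ρ ^ 2 = (a ^ 2 - a * b + b ^ 2) * κ ∧
        ρ ^ 2 * c ^ 2 = τ ^ 2 := by
      intro κ hκ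
      have h1 : 0 < (a ^ 2 - a * b + b ^ 2) * κ := mul_pos hpos hκ
      have h2 : 0 < √((a ^ 2 - a * b + b ^ 2) * κ) := Real.sqrt_pos.2 h1
      refine ⟨√((a ^ 2 - a * b + b ^ 2) * κ), |τ| / √((a ^ 2 - a * b + b ^ 2) * κ), h2,
        div_pos (abs_pos.2 hτ) h2, Real.sq_sqrt h1.le, ?_⟩
      rw [← mul_pow, mul_div_cancel₀ _ h2.ne', sq_abs]
    have h3 : √3 * √3 = 3 := Real.mul_self_sqrt (by norm_num)
    have h4 : √3 / 2 * (√3 / 2) = 3 / 4 := by
      rw [div_mul_div_comm, h3]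
      norm_num
    cases o
    · obtain ⟨ρ, c, hρ, hc, e1, e2⟩ := key 1 one_pos
      refine ⟨ρ, 1, c, hρ, one_pos, hc, ?_⟩
      ext i j
      fin_cases i <;> fin_cases j <;>
        simp [Kind.frame, tfH, IM.mat, Matrix.mul_apply, Fin.sum_univ_three] <;>
        first
          | ring1
          | linear_combination -e1
          | linear_combination -e2
          | linear_combination (1 / 2 : ℝ) * e1
          | (rw [h4]; linear_combination -e1)
    · obtain ⟨ρ, c, hρ, hc, e1, e2⟩ := key (1 / 3) (by norm_num)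
      refine ⟨ρ, 1, c, hρ, one_pos, hc, ?_⟩
      ext i j
      fin_cases i <;> fin_cases j <;>
        simp [Kind.frame, tfH, IM.mat, Matrix.mul_apply, Fin.sum_univ_three] <;>
        first
          | ring1
          | linear_combination -e1
          | linear_combination -e2
          | linear_combination (1 / 2 : ℝ) * e1
          | (rw [h4]; linear_combination -e1)
  case ort =>
    obtain ⟨a, b, c, ha, hb, hc, rfl⟩ := hF
    have ha' := abs_pos.2 ha
    have e1 : |a| ^ 2 * (|b| / |a|) ^ 2 = b ^ 2 := by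
      rw [← mul_pow, mul_div_cancel₀ _ ha'.ne', sq_abs]
    have e2 : |a| ^ 2 * (|c| / |a|) ^ 2 = c ^ 2 := by
      rw [← mul_pow, mul_div_cancel₀ _ ha'.ne', sq_abs]
    refine ⟨|a|, |b| / |a|, |c| / |a|, ha', div_pos (abs_pos.2 hb) ha',
      div_pos (abs_pos.2 hc) ha', ?_⟩
    generalize |b| / |a| = b' at *
    generalize |c| / |a| = c' at *
    rw [sq_abs] at e1 e2 ⊢
    ext i j
    cases o <;> fin_cases i <;> fin_cases j <;>
      simp [Kind.frame, tfH, IM.mat, Matrix.mul_apply, Fin.sum_univ_three] <;>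
      first
        | ring1
        | linear_combination -e1
        | linear_combination -e2

theorem simF_det {k : Kind} {F : M3} (hF : SimF k F) : F.det ≠ 0 := by
  cases k
  case cub =>
    obtain ⟨σ, hσ, rfl⟩ := hF
    simp [hσ]
  case tet =>
    obtain ⟨a, b, τ, hab, hτ, rfl⟩ := hF
    have hpos : 0 < a ^ 2 + b ^ 2 := by
      rcases hab with h0 | h0
      · have := pow_pos (abs_pos.2 h0) 2
        rw [sq_abs] at this
        nlinarith [sq_nonneg b]
      · have := pow_pos (abs_pos.2 h0) 2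
        rw [sq_abs] at this
        nlinarith [sq_nonneg a]
    have e : (!![a, -b, 0; b, a, 0; 0, 0, τ] : M3).det = (a ^ 2 + b ^ 2) * τ := by
      simp [det_fin_three]
      ring
    rw [e]
    exact mul_ne_zero hpos.ne' hτ
  case hex =>
    obtain ⟨a, b, τ, hab, hτ, rfl⟩ := hF
    have hpos : 0 < a ^ 2 - a * b + b ^ 2 := by
      rcases hab with h0 | h0
      · have := pow_pos (abs_pos.2 h0) 2
        rw [sq_abs] at this
        nlinarith [sq_nonneg (a - 2 * b), sq_nonneg b]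
      · have := pow_pos (abs_pos.2 h0) 2
        rw [sq_abs] at this
        nlinarith [sq_nonneg (b - 2 * a), sq_nonneg a]
    have e : (!![a, -b, 0; b, a - b, 0; 0, 0, τ] : M3).det = (a ^ 2 - a * b + b ^ 2) * τ := by
      simp [det_fin_three]
      ring
    rw [e]
    exact mul_ne_zero hpos.ne' hτ
  case ort =>
    obtain ⟨a, b, c, ha, hb, hc, rfl⟩ := hF
    have e : (!![a, 0, 0; 0, b, 0; 0, 0, c] : M3).det = a * b * c := by
      simp [det_fin_three]
    rw [e]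
    exact mul_ne_zero (mul_ne_zero ha hb) hc

/-! ### The transfer -/

/-- The linear part of a conjugate. -/
theorem tf_conj_aff {f g : Equiv.Perm V3} {N Ni M M' : M3} {v : V3} (hf : IsAff f N 0)
    (hNi : Ni * N = 1) (hg : IsAff g M v) (h : N * M = M' * N) :
    IsAff (f * g * f⁻¹) M' (N *ᵥ v) := by
  have hN : N * Ni = 1 := mul_eq_one_comm.1 hNi
  have h1 := rf_mul (rf_mul hf hg) (rf_inv hf hNi)
  rw [mulVec_zero, neg_zero, mulVec_zero, zero_add, add_zero, h, Matrix.mul_assoc, hN,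
    Matrix.mul_one] at h1
  exact h1

theorem tf_genBy {l : List IM} {H : Subgroup (Equiv.Perm V3)}
    (hl : ∀ M ∈ l, ∃ g ∈ H, IsAff g M.mat 0) {M : IM} (h : GenBy l M) :
    ∃ g ∈ H, IsAff g M.mat 0 := by
  induction h with
  | one => exact ⟨1, one_mem _, by rw [rf_one_mat]; exact rf_one⟩
  | mul hM _ ih =>
    obtain ⟨g, hg, hg'⟩ := ih
    obtain ⟨g', hg1, hg1'⟩ := hl _ hM
    refine ⟨g' * g, mul_mem hg1 hg, ?_⟩
    have h2 := rf_mul hg1' hg'
    rw [mulVec_zero, add_zero] at h2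
    rw [rf_mul_mat]
    exact h2

theorem tf_mul_one (M : IM) : M.mul IM.one = M := by
  apply rf_mat_inj
  rw [rf_mul_mat, rf_one_mat, Matrix.mul_one]

/-- The matrix of the inverse of a linear element. -/
theorem tf_inv_mat {r : Row} (hok : r.ok = true) {g : Equiv.Perm V3} {M : IM}
    (hg : g ∈ linGrp r.gens) (hg' : IsAff g M.mat 0) :
    ∃ Mi : IM, Mi.mat * M.mat = 1 ∧ M.mat * Mi.mat = 1 ∧ IsAff g⁻¹ Mi.mat 0 := by
  obtain ⟨Mi, -, h⟩ := (Row.mem_H hok).1 (inv_mem hg)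
  have h1 := rf_mul h hg'
  rw [inv_mul_cancel, mulVec_zero, add_zero] at h1
  have h2 := (rf_unique h1 rf_one).1
  exact ⟨Mi, h2, mul_eq_one_comm.1 h2, h⟩

/-- FTI-30 -/
theorem conck_of_row {k : Kind} {A B s : Equiv.Perm V3} {Am Bm Sm N : IM} {v : V3}
    (hA : IsAff A Am.mat 0) (hB : IsAff B Bm.mat 0) (hs : IsAff s Sm.mat v) (hN : N ∈ conjs k)
    {b : Block} {rl : Row × List LatE} (hb : b ∈ table) (hok : BlockOK k b rl)
    (hred : RedTo Am Bm Sm N rl.1)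
    (hrow : ∀ (f t : Equiv.Perm V3) (w : V3), IsAff f N.mat 0 → IsAff t rl.1.S.mat w →
      stab (f * A * f⁻¹) (f * B * f⁻¹) = linGrp rl.1.gens →
      grp (f * A * f⁻¹) (f * B * f⁻¹) (f * s * f⁻¹) = rl.1.grp t →
      Link (linGrp rl.1.gens) (f * s * f⁻¹) t → RowConc b w) :
    ConcK k A B s := by
  obtain ⟨A', B', S', eA, eB, eS, hgen, h, hh, h', hh', hS⟩ := hred
  have hok1 := hok.ok
  have hNd := conjs_det hN
  have hNi : N.mat⁻¹ * N.mat = 1 := nonsing_inv_mul _ (isUnit_iff_ne_zero.2 hNd)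
  set f0 : Equiv.Perm V3 := rfPerm N.mat N.mat⁻¹ hNi with hf0
  have hf : IsAff f0 N.mat 0 := rf_perm _ _ hNi
  have hA1 : IsAff (f0 * A * f0⁻¹) A'.mat 0 := by
    have := tf_conj_aff (M' := A'.mat) hf hNi hA (by rw [← rf_mul_mat, eA, rf_mul_mat])
    rwa [mulVec_zero] at this
  have hB1 : IsAff (f0 * B * f0⁻¹) B'.mat 0 := by
    have := tf_conj_aff (M' := B'.mat) hf hNi hB (by rw [← rf_mul_mat, eB, rf_mul_mat])
    rwa [mulVec_zero] at this
  have hs1 : IsAff (f0 * s * f0⁻¹) S'.mat (N.mat *ᵥ v) :=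
    tf_conj_aff hf hNi hs (by rw [← rf_mul_mat, eS, rf_mul_mat])
  set A1 := f0 * A * f0⁻¹ with hA1d
  set B1 := f0 * B * f0⁻¹ with hB1d
  set s1 := f0 * s * f0⁻¹ with hs1d
  -- the stabilisers
  have hAl : A1 ∈ linGrp rl.1.gens := by
    rw [Row.mem_H hok1]
    refine ⟨A', (hgen A').1 ?_, hA1⟩
    have := GenBy.mul (l := [A', B']) (M := A') (N := IM.one) (by simp) GenBy.one
    rwa [tf_mul_one] at this
  have hBl : B1 ∈ linGrp rl.1.gens := by
    rw [Row.mem_H hok1]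
    refine ⟨B', (hgen B').1 ?_, hB1⟩
    have := GenBy.mul (l := [A', B']) (M := B') (N := IM.one) (by simp) GenBy.one
    rwa [tf_mul_one] at this
  have hreal : ∀ M ∈ rl.1.hl, ∃ g ∈ stab A1 B1, IsAff g M.mat 0 := by
    intro M hM
    refine tf_genBy ?_ ((hgen M).2 hM)
    intro M' hM'
    rcases List.mem_cons.1 hM' with rfl | hM'
    · exact ⟨A1, Subgroup.subset_closure (by simp), hA1⟩
    · rw [List.mem_singleton] at hM'
      subst hM'
      exact ⟨B1, Subgroup.subset_closure (by simp), hB1⟩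
  have hstab : stab A1 B1 = linGrp rl.1.gens := by
    apply le_antisymm
    · rw [stab, Subgroup.closure_le]
      rintro x (rfl | hx)
      · exact hAl
      · rw [Set.mem_singleton_iff] at hx
        rw [hx]
        exact hBl
    · intro g hg
      obtain ⟨M, hM, hgM⟩ := (Row.mem_H hok1).1 hg
      obtain ⟨g', hg', hg'M⟩ := hreal M hM
      rw [rf_ext hgM hg'M]
      exact hg'
  -- the element `t`
  obtain ⟨p, hp, hpM⟩ := hreal h hh
  obtain ⟨p', hp', hp'M⟩ := hreal h' hh'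
  rw [hstab] at hp hp'
  obtain ⟨hi, hi1, hi2, hpi⟩ := tf_inv_mat hok1 hp hpM
  obtain ⟨hi', hi1', hi2', hpi'⟩ := tf_inv_mat hok1 hp' hp'M
  have hOK := Row.ok_OK hok1
  have hSSi : rl.1.S.mat * rl.1.Si.mat = 1 := by
    rw [← rf_mul_mat, hOK.S_Si, rf_one_mat]
  obtain ⟨t, w, ht, hlink⟩ : ∃ (t : Equiv.Perm V3) (w : V3), IsAff t rl.1.S.mat w ∧
      (s1 = p * t * p' ∨ s1 = p * t⁻¹ * p') := by
    have h1 := rf_mul (rf_mul hpi hs1) hpi'
    rcases hS with hS | hS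
    · have e1 : hi.mat * S'.mat * hi'.mat = rl.1.S.mat := by
        rw [hS, rf_mul_mat, rf_mul_mat]
        calc hi.mat * (h.mat * rl.1.S.mat * h'.mat) * hi'.mat
            = (hi.mat * h.mat) * rl.1.S.mat * (h'.mat * hi'.mat) := by
              simp only [Matrix.mul_assoc]
          _ = rl.1.S.mat := by rw [hi1, hi2', Matrix.one_mul, Matrix.mul_one]
      rw [e1] at h1
      exact ⟨p⁻¹ * s1 * p'⁻¹, _, h1, Or.inl (by group)⟩
    · have e1 : hi.mat * S'.mat * hi'.mat = rl.1.Si.mat := by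
        rw [hS, rf_mul_mat, rf_mul_mat]
        calc hi.mat * (h.mat * rl.1.Si.mat * h'.mat) * hi'.mat
            = (hi.mat * h.mat) * rl.1.Si.mat * (h'.mat * hi'.mat) := by
              simp only [Matrix.mul_assoc]
          _ = rl.1.Si.mat := by rw [hi1, hi2', Matrix.one_mul, Matrix.mul_one]
      rw [e1] at h1
      exact ⟨(p⁻¹ * s1 * p'⁻¹)⁻¹, _, rf_inv h1 hSSi, Or.inr (by group)⟩
  have hLink : Link (linGrp rl.1.gens) s1 t := ⟨p, hp, p', hp', hlink⟩
  have hgrp : grp A1 B1 s1 = rl.1.grp t := grp_link hstab (by rw [hstab]; exact hLink)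
  obtain ⟨F, hF, hcomm, fam, hfam, n, x, y, hex, hw⟩ := hrow f0 t w hf ht hstab hgrp hLink
  -- the second conjugation
  rw [hok.kind] at hF
  have hFd := simF_det hF
  have hFi : F⁻¹ * F = 1 := nonsing_inv_mul _ (isUnit_iff_ne_zero.2 hFd)
  set g : Equiv.Perm V3 := rfPerm F F⁻¹ hFi with hg0
  have hg : IsAff g F 0 := rf_perm _ _ hFi
  have hgi : IsAff g⁻¹ F⁻¹ 0 := by
    have := rf_inv hg hFi
    rwa [mulVec_zero, neg_zero] at this
  have hFF : F * F⁻¹ = 1 := mul_eq_one_comm.1 hFi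
  have hcg : ∀ z ∈ linGrp rl.1.gens, g⁻¹ * z * g = z := by
    intro z hz
    have hle : linGrp rl.1.gens ≤ Subgroup.centralizer {g} := by
      rw [linGrp, Subgroup.closure_le]
      rintro z ⟨M, hM, hz⟩
      rw [SetLike.mem_coe, Subgroup.mem_centralizer_singleton_iff]
      have c1 := hcomm M (List.mem_cons_of_mem _ (by rw [hok.gens]; exact hM))
      have h1 := rf_mul hz hg
      have h2 := rf_mul hg hz
      rw [mulVec_zero, add_zero] at h1 h2
      rw [c1] at h2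
      exact rf_ext h1 h2
    have := hle hz
    rw [Subgroup.mem_centralizer_singleton_iff] at this
    rw [mul_assoc, this]
    group
  have ht2 : IsAff (g⁻¹ * t * g) rl.1.S.mat (fam.pt n x y) := by
    have h1 := rf_mul (rf_mul hgi ht) hg
    have c1 := hcomm rl.1.S (by rw [hok.S]; simp)
    have e1 : F⁻¹ * rl.1.S.mat * F = rl.1.S.mat := by
      rw [Matrix.mul_assoc, ← c1, ← Matrix.mul_assoc, hFi, Matrix.one_mul]
    have e2 : F⁻¹ *ᵥ w = fam.pt n x y := by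
      rw [hw, mulVec_mulVec, hFi, one_mulVec]
    rw [e1, mulVec_zero, zero_add, add_zero, e2] at h1
    exact h1
  refine ⟨N.mat⁻¹ * F, f0⁻¹ * g, A1, B1, g⁻¹ * s1 * g, qgram hN hF, ?_, ?_, ?_, ?_, b, hb,
    hok.kind, ?_⟩
  · have h1 := rf_mul (rf_inv hf hNi) hg
    simp only [mulVec_zero, neg_zero, add_zero] at h1
    exact h1
  · have h1 := hcg A1 hAl
    have h2 : g * A1 * g⁻¹ = A1 := by
      conv_lhs => rw [← h1]
      group
    calc A = f0⁻¹ * A1 * f0 := by rw [hA1d]; group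
      _ = f0⁻¹ * (g * A1 * g⁻¹) * f0 := by rw [h2]
      _ = f0⁻¹ * g * A1 * (f0⁻¹ * g)⁻¹ := by group
  · have h1 := hcg B1 hBl
    have h2 : g * B1 * g⁻¹ = B1 := by
      conv_lhs => rw [← h1]
      group
    calc B = f0⁻¹ * B1 * f0 := by rw [hB1d]; group
      _ = f0⁻¹ * (g * B1 * g⁻¹) * f0 := by rw [h2]
      _ = f0⁻¹ * g * B1 * (f0⁻¹ * g)⁻¹ := by group
  · rw [hs1d]
    group
  · refine ⟨by rw [hok.gens]; exact hstab, fam, hfam, n, x, y, hex, g⁻¹ * t * g, ?_, ?_⟩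
    · rw [hok.S]
      exact ht2
    · rw [hstab]
      refine ⟨p, hp, p', hp', ?_⟩
      have c1 := hcg p hp
      have c2 := hcg p' hp'
      rcases hlink with hl | hl
      · left
        rw [hl]
        calc g⁻¹ * (p * t * p') * g = (g⁻¹ * p * g) * (g⁻¹ * t * g) * (g⁻¹ * p' * g) := by group
          _ = p * (g⁻¹ * t * g) * p' := by rw [c1, c2]
      · right
        rw [hl]
        calc g⁻¹ * (p * t⁻¹ * p') * g =
            (g⁻¹ * p * g) * (g⁻¹ * t * g)⁻¹ * (g⁻¹ * p' * g) := by group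
          _ = p * (g⁻¹ * t * g)⁻¹ * p' := by rw [c1, c2]

end Pool.Agent.H21.FT
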