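import Pool.Agent.H21.FT.DefsE
import Pool.Agent.H21.FT.RowFacts
import Pool.Agent.H21.FT.Cnj
import Pool.Agent.H21.FT.KerAx
import Pool.Agent.H21.FT.KerAxHex
import Pool.Agent.H21.FT.RowRedAx
import Pool.Agent.H21.FT.RowAx
import Pool.Agent.H21.FT.Transfer

/-!
# Completeness of the table: tetragonal and hexagonal frames
-/

namespace Pool.Agent.H21.FT

open Matrix

namespace CA

/-! ### Products of integer matrices -/

theorem one_mul' (N : IM) : IM.one.mul N = N :=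
  rf_mat_inj (by rw [rf_mul_mat, rf_one_mat, one_mul])

theorem mul_one' (N : IM) : N.mul IM.one = N :=
  rf_mat_inj (by rw [rf_mul_mat, rf_one_mat, mul_one])

theorem genBy_mul {l : List IM} {M N : IM} (hM : GenBy l M) (hN : GenBy l N) :
    GenBy l (M.mul N) := by
  induction hM with
  | one => rwa [one_mul']
  | mul hM _ ih =>
    rw [rf_mul_assoc]
    exact GenBy.mul hM ih

theorem genBy_self {l : List IM} {M : IM} (hM : M ∈ l) : GenBy l M := by
  have h := GenBy.mul hM GenBy.one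
  rwa [mul_one'] at h

/-- The powers of a matrix. -/
def pw (M : IM) : ℕ → IM
  | 0 => IM.one
  | n + 1 => M.mul (pw M n)

theorem genBy_pw {l : List IM} {M : IM} (hM : GenBy l M) (n : ℕ) : GenBy l (pw M n) := by
  induction n with
  | zero => exact GenBy.one
  | succ n ih => exact genBy_mul hM ih

theorem pw_mem {au : List IM} (hone : IM.one ∈ au) (hmul : ∀ M ∈ au, ∀ N ∈ au, M.mul N ∈ au)
    {M : IM} (hM : M ∈ au) (n : ℕ) : pw M n ∈ au := by
  induction n with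
  | zero => exact hone
  | succ n ih => exact hmul _ hM _ ih

/-- The linear parts of the group are products of the three matrices. -/
theorem grp_genBy {au : List IM} (hone : IM.one ∈ au) (hmul : ∀ M ∈ au, ∀ N ∈ au, M.mul N ∈ au)
    (hpw : ∀ M ∈ au, (pw M 11).mul M = IM.one) {A B s : Equiv.Perm V3} {Am Bm Sm : IM} {v : V3}
    (hAm : Am ∈ au) (hBm : Bm ∈ au) (hSm : Sm ∈ au) (hA : IsAff A Am.mat 0)
    (hB : IsAff B Bm.mat 0) (hs : IsAff s Sm.mat v) {g : Equiv.Perm V3} (hg : g ∈ grp A B s) :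
    ∃ M ∈ au, GenBy [Am, Bm, Sm] M ∧ ∃ a, IsAff g M.mat a := by
  unfold grp at hg
  induction hg using Subgroup.closure_induction with
  | mem x hx =>
    rcases hx with rfl | rfl | hx
    · exact ⟨Am, hAm, genBy_self (by simp), 0, hA⟩
    · exact ⟨Bm, hBm, genBy_self (by simp), 0, hB⟩
    · rw [Set.mem_singleton_iff] at hx
      subst hx
      exact ⟨Sm, hSm, genBy_self (by simp), v, hs⟩
  | one => exact ⟨IM.one, hone, GenBy.one, 0, by rw [rf_one_mat]; exact rf_one⟩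
  | mul x y _ _ hx hy =>
    obtain ⟨M, hM, gM, a, ha⟩ := hx
    obtain ⟨N, hN, gN, b, hb⟩ := hy
    exact ⟨M.mul N, hmul _ hM _ hN, genBy_mul gM gN, _, by rw [rf_mul_mat]; exact rf_mul ha hb⟩
  | inv x _ hx =>
    obtain ⟨M, hM, gM, a, ha⟩ := hx
    refine ⟨pw M 11, pw_mem hone hmul hM 11, genBy_pw gM 11, _, rf_inv ha ?_⟩
    rw [← rf_mul_mat, hpw M hM, rf_one_mat]

/-! ### The planar part of the conjugating matrices -/

/-- The third axis is preserved and the planar part is unimodular or maps the integer vectors onto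
the integer vectors whose sum of coordinates is divisible by `D`. -/
def PlanOK (D : ℤ) (N : IM) : Prop :=
  N.a.z = 0 ∧ N.b.z = 0 ∧ N.c.x = 0 ∧ N.c.y = 0 ∧ (N.c.z = 1 ∨ N.c.z = -1) ∧
  ((N.a.x * N.b.y - N.a.y * N.b.x = 1 ∨ N.a.x * N.b.y - N.a.y * N.b.x = -1) ∨
    ((N.a.x * N.b.y - N.a.y * N.b.x = D ∨ N.a.x * N.b.y - N.a.y * N.b.x = -D) ∧
      D ∣ N.a.x + N.b.x ∧ D ∣ N.a.y + N.b.y))

instance (D : ℤ) (N : IM) : Decidable (PlanOK D N) := by unfold PlanOK; infer_instance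

theorem plan {D : ℤ} (hD : D ≠ 0) {N : IM} (h : PlanOK D N) : ∃ C : Bool,
    (∀ m n : ℤ, C = true → D ∣ (N.a.x * m + N.a.y * n) + (N.b.x * m + N.b.y * n)) ∧
    ∀ p q : ℤ, (C = true → D ∣ p + q) →
      ∃ m n : ℤ, p = N.a.x * m + N.a.y * n ∧ q = N.b.x * m + N.b.y * n := by
  obtain ⟨-, -, -, -, -, h⟩ := h
  rcases h with (h | h) | ⟨h, ⟨u, hu⟩, ⟨w, hw⟩⟩
  · refine ⟨false, by simp, fun p q _ => ⟨N.b.y * p - N.a.y * q, -N.b.x * p + N.a.x * q, ?_, ?_⟩⟩
    · linear_combination -p * h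
    · linear_combination -q * h
  · refine ⟨false, by simp, fun p q _ => ⟨-(N.b.y * p - N.a.y * q), N.b.x * p - N.a.x * q, ?_, ?_⟩⟩
    · linear_combination p * h
    · linear_combination q * h
  · refine ⟨true, fun m n _ => ⟨u * m + w * n, ?_⟩, fun p q hpq => ?_⟩
    · linear_combination m * hu + n * hw
    obtain ⟨k, hk⟩ := hpq rfl
    rcases h with h | h
    · have e1 : N.a.x * w - N.a.y * u = 1 := by
        apply mul_left_cancel₀ hD
        linear_combination h - N.a.x * hw + N.a.y * hu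
      have e2 : N.b.y * u - N.b.x * w = 1 := by
        apply mul_left_cancel₀ hD
        linear_combination h - N.b.y * hu + N.b.x * hw
      refine ⟨N.b.y * k - w * q, -N.b.x * k + u * q, ?_, ?_⟩
      · linear_combination hk - k * h + q * e1
      · linear_combination -q * e2
    · have e1 : N.a.x * w - N.a.y * u = -1 := by
        apply mul_left_cancel₀ hD
        linear_combination h - N.a.x * hw + N.a.y * hu
      have e2 : N.b.y * u - N.b.x * w = -1 := by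
        apply mul_left_cancel₀ hD
        linear_combination h - N.b.y * hu + N.b.x * hw
      refine ⟨-(N.b.y * k - w * q), N.b.x * k - u * q, ?_, ?_⟩
      · linear_combination hk + k * h - q * e1
      · linear_combination q * e2

/-! ### Conjugation by a linear map -/

theorem inv_app (f : Equiv.Perm V3) (x : V3) : f⁻¹ (f x) = x := f.symm_apply_apply x

theorem app_inv (f : Equiv.Perm V3) (x : V3) : f (f⁻¹ x) = x := f.apply_symm_apply x

section Conj

variable {Γ : Subgroup (Equiv.Perm V3)} {f : Equiv.Perm V3} {F : M3} (hf : IsAff f F 0)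
include hf

theorem map_zero' : f 0 = 0 := by rw [hf, mulVec_zero, zero_add]

theorem inv_zero' : f⁻¹ 0 = 0 := by
  rw [Equiv.Perm.inv_eq_iff_eq, map_zero' hf]

theorem isTrans_conj {y : V3} :
    IsTrans (Γ.map (MulAut.conj f).toMonoidHom) (F *ᵥ y) ↔ IsTrans Γ y := by
  constructor
  · rintro ⟨g', hg', h⟩
    obtain ⟨g, hg, rfl⟩ := Subgroup.mem_map.1 hg'
    refine ⟨g, hg, fun x => ?_⟩
    have h1 := h (f x)
    have e : (MulAut.conj f).toMonoidHom g = f * g * f⁻¹ := rfl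
    rw [e, Equiv.Perm.mul_apply, Equiv.Perm.mul_apply, inv_app, one_mulVec] at h1
    rw [one_mulVec]
    apply f.injective
    rw [h1, hf x, hf (x + y), mulVec_add, add_zero, add_zero]
  · rintro ⟨g, hg, h⟩
    refine ⟨f * g * f⁻¹, Subgroup.mem_map.2 ⟨g, hg, rfl⟩, fun x => ?_⟩
    have e1 : f (f⁻¹ x) = x := app_inv f x
    rw [Equiv.Perm.mul_apply, Equiv.Perm.mul_apply, h, one_mulVec, one_mulVec, hf, mulVec_add,
      add_zero]
    have e2 := hf (f⁻¹ x)
    rw [e1, add_zero] at e2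
    rw [← e2]

theorem disc_conj (hd : Disc Γ) : Disc (Γ.map (MulAut.conj f).toMonoidHom) := by
  have hinj : Function.Injective F.mulVec := by
    intro x y hxy
    apply f.injective
    have hxy' : F *ᵥ x = F *ᵥ y := hxy
    rw [hf, hf, hxy']
  have hu : IsUnit F := Matrix.mulVec_injective_iff_isUnit.1 hinj
  have hF : F⁻¹ * F = 1 := Matrix.nonsing_inv_mul F ((Matrix.isUnit_iff_isUnit_det F).1 hu)
  intro R
  set K : ℝ := ∑ i, ∑ j, |F⁻¹ i j| with hK
  refine ((hd (K * |R|)).image fun g => f * g * f⁻¹).subset ?_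
  rintro g' ⟨hg', hR⟩
  obtain ⟨g, hg, rfl⟩ := Subgroup.mem_map.1 hg'
  refine ⟨g, ⟨hg, fun i => ?_⟩, rfl⟩
  have e : (MulAut.conj f).toMonoidHom g = f * g * f⁻¹ := rfl
  rw [e] at hR
  have e0 : (f * g * f⁻¹) 0 = F *ᵥ g 0 := by
    rw [Equiv.Perm.mul_apply, Equiv.Perm.mul_apply, inv_zero' hf, hf, add_zero]
  rw [e0] at hR
  have e1 : g 0 = F⁻¹ *ᵥ (F *ᵥ g 0) := by rw [mulVec_mulVec, hF, one_mulVec]
  rw [e1]
  have e2 : (F⁻¹ *ᵥ (F *ᵥ g 0)) i = ∑ j, F⁻¹ i j * (F *ᵥ g 0) j := rfl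
  rw [e2]
  calc |∑ j, F⁻¹ i j * (F *ᵥ g 0) j| ≤ ∑ j, |F⁻¹ i j * (F *ᵥ g 0) j| :=
        Finset.abs_sum_le_sum_abs _ _
    _ ≤ ∑ j, |F⁻¹ i j| * |R| := by
        refine Finset.sum_le_sum fun j _ => ?_
        rw [abs_mul]
        exact mul_le_mul_of_nonneg_left ((hR j).trans (le_abs_self R)) (abs_nonneg _)
    _ = (∑ j, |F⁻¹ i j|) * |R| := by rw [Finset.sum_mul]
    _ ≤ K * |R| := by
        refine mul_le_mul_of_nonneg_right ?_ (abs_nonneg _)
        exact Finset.single_le_sum (f := fun i => ∑ j, |F⁻¹ i j|)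
          (fun i _ => Finset.sum_nonneg fun j _ => abs_nonneg _) (Finset.mem_univ i)

end Conj

theorem mat_mulVec (N : IM) (y : V3) : N.mat *ᵥ y =
    ![N.a.x * y 0 + N.a.y * y 1 + N.a.z * y 2, N.b.x * y 0 + N.b.y * y 1 + N.b.z * y 2,
      N.c.x * y 0 + N.c.y * y 1 + N.c.z * y 2] := by
  funext i
  fin_cases i <;> simp [IM.mat, Matrix.mulVec, dotProduct, Fin.sum_univ_three]

theorem lattice_conj {Γ : Subgroup (Equiv.Perm V3)} {f : Equiv.Perm V3} {N : IM} {D : ℤ}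
    (hD : D ≠ 0) (hN : PlanOK D N) (hf : IsAff f N.mat 0) {δ : ℝ} (hδ : 0 < δ)
    (hL : ∀ a b : ℝ, IsTrans Γ ![δ * a, δ * b, 0] ↔ ∃ m n : ℤ, a = m ∧ b = n) :
    ∃ C : Bool, ∀ a b : ℝ, IsTrans (Γ.map (MulAut.conj f).toMonoidHom) ![δ * a, δ * b, 0] ↔
      ∃ m n : ℤ, a = m ∧ b = n ∧ (C = true → D ∣ m + n) := by
  obtain ⟨C, hC1, hC2⟩ := plan hD hN
  obtain ⟨h1, h2, h3, h4, h5, -⟩ := hN
  refine ⟨C, fun a b => ?_⟩
  have hδ' : δ ≠ 0 := hδ.ne'
  constructor
  · intro h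
    set y : V3 := f⁻¹ ![δ * a, δ * b, 0] with hy
    have e1 : N.mat *ᵥ y = ![δ * a, δ * b, 0] := by
      have e2 := hf y
      rw [hy, app_inv, add_zero, ← hy] at e2
      exact e2.symm
    rw [← e1, isTrans_conj hf] at h
    rw [mat_mulVec, h1, h2, h3, h4] at e1
    have q0 := congrFun e1 0
    have q1 := congrFun e1 1
    have q2 := congrFun e1 2
    simp at q0 q1 q2
    have y2 : y 2 = 0 := by
      rcases q2 with q2 | q2
      · rcases h5 with h5 | h5 <;> rw [h5] at q2 <;> exact absurd q2 (by norm_num)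
      · exact q2
    have ey : y = ![δ * (y 0 / δ), δ * (y 1 / δ), 0] := by
      funext i
      fin_cases i
      · simp; field_simp
      · simp; field_simp
      · simpa using y2
    rw [ey, hL] at h
    obtain ⟨m, n, hm, hn⟩ := h
    have hm' : y 0 = δ * m := by rw [← hm]; field_simp
    have hn' : y 1 = δ * n := by rw [← hn]; field_simp
    refine ⟨N.a.x * m + N.a.y * n, N.b.x * m + N.b.y * n, ?_, ?_, hC1 m n⟩
    · apply mul_left_cancel₀ hδ'
      push_cast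
      rw [← q0, hm', hn']
      ring
    · apply mul_left_cancel₀ hδ'
      push_cast
      rw [← q1, hm', hn']
      ring
  · rintro ⟨p, q, rfl, rfl, hpq⟩
    obtain ⟨m, n, hm, hn⟩ := hC2 p q hpq
    have h : IsTrans Γ ![δ * (m : ℝ), δ * (n : ℝ), 0] := (hL _ _).2 ⟨m, n, rfl, rfl⟩
    rw [← isTrans_conj hf, mat_mulVec, h1, h2, h3, h4] at h
    have e : (![(N.a.x : ℝ) * (![δ * (m : ℝ), δ * (n : ℝ), 0] : V3) 0 +
        (N.a.y : ℝ) * (![δ * (m : ℝ), δ * (n : ℝ), 0] : V3) 1 +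
        ((0 : ℤ) : ℝ) * (![δ * (m : ℝ), δ * (n : ℝ), 0] : V3) 2,
        (N.b.x : ℝ) * (![δ * (m : ℝ), δ * (n : ℝ), 0] : V3) 0 +
        (N.b.y : ℝ) * (![δ * (m : ℝ), δ * (n : ℝ), 0] : V3) 1 +
        ((0 : ℤ) : ℝ) * (![δ * (m : ℝ), δ * (n : ℝ), 0] : V3) 2,
        ((0 : ℤ) : ℝ) * (![δ * (m : ℝ), δ * (n : ℝ), 0] : V3) 0 +
        ((0 : ℤ) : ℝ) * (![δ * (m : ℝ), δ * (n : ℝ), 0] : V3) 1 +
        (N.c.z : ℝ) * (![δ * (m : ℝ), δ * (n : ℝ), 0] : V3) 2] : V3) =
        ![δ * (p : ℝ), δ * (q : ℝ), 0] := by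
      have hm' : (p : ℝ) = N.a.x * m + N.a.y * n := by exact_mod_cast hm
      have hn' : (q : ℝ) = N.b.x * m + N.b.y * n := by exact_mod_cast hn
      rw [hm', hn']
      funext i
      fin_cases i
      · simp; ring
      · simp; ring
      · simp
    rwa [e] at h

/-- The hypotheses on the frame. -/
structure KindOK (k : Kind) (D : ℤ) (bl : List Block) (rw : List (Row × List LatE)) : Prop where
  hD : D ≠ 0
  one : IM.one ∈ k.auts
  mul : ∀ M ∈ k.auts, ∀ N ∈ k.auts, M.mul N ∈ k.auts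
  pow : ∀ M ∈ k.auts, (pw M 11).mul M = IM.one
  axis : ∀ M ∈ k.auts, M.c.x = 0 ∧ M.c.y = 0 ∧ (M.c.z = 1 ∨ M.c.z = -1)
  conj : ∀ N ∈ conjs k, PlanOK D N
  blk : ∀ x ∈ bl.zip rw, x.1 ∈ table ∧ BlockOK k x.1 x.2
  red : ∀ A ∈ k.auts, ∀ B ∈ k.auts, ∀ S ∈ k.auts, A ≠ IM.one →
    (B = IM.one ∨ (A.mul A = IM.one ∧ B.mul B = IM.one)) →
    (∀ M, GenBy [A, B, S] M → ¬ Turns M) ∨
    ∃ N ∈ conjs k, ∃ x ∈ bl.zip rw, RedTo A B S N x.2.1
  row : ∀ x ∈ bl.zip rw, ∀ (w : V3) (t : Equiv.Perm V3), IsAff t x.2.1.S.mat w →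
    Disc (x.2.1.grp t) → (∀ p ∈ x.2.1.nl, p.X.mat *ᵥ w ∉ x.2.1.Tw w) → w 2 ≠ 0 →
    ∀ δ : ℝ, 0 < δ → ∀ C : Bool, (∀ a b : ℝ, ![δ * a, δ * b, 0] ∈ x.2.1.Tw w ↔
      ∃ m n : ℤ, a = m ∧ b = n ∧ (C = true → D ∣ m + n)) → RowConc x.1 w

/-- Elements of the group of a row preserve the third axis up to sign. -/
theorem third {k : Kind} {b : Block} {rl : Row × List LatE} (hok : BlockOK k b rl)
    (haxis : ∀ M ∈ k.auts, M.c.x = 0 ∧ M.c.y = 0 ∧ (M.c.z = 1 ∨ M.c.z = -1)) {w : V3}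
    {t : Equiv.Perm V3} (ht : IsAff t rl.1.S.mat w) {g : Equiv.Perm V3} (hg : g ∈ rl.1.grp t)
    (x : V3) (hx : x 2 = 0) : (g x) 2 = (g 0) 2 := by
  obtain ⟨p, hp, y, -, h⟩ := Row.form hok.ok ht hg
  obtain ⟨h1, h2, -⟩ := haxis _ (hok.auts p hp)
  rw [h x, h 0, mulVec_zero, zero_add, Pi.add_apply, mat_mulVec, h1, h2]
  simp [hx]

theorem complete {k : Kind} {D : ℤ} {bl : List Block} {rw : List (Row × List LatE)}
    (H : KindOK k D bl rw) {A B s : Equiv.Perm V3} {Am Bm Sm : IM} {v : V3} (hAm : Am ∈ k.auts)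
    (hBm : Bm ∈ k.auts) (hSm : Sm ∈ k.auts) (hA : IsAff A Am.mat 0) (hB : IsAff B Bm.mat 0)
    (hs : IsAff s Sm.mat v) (hd : Disc (grp A B s))
    (hst : ∀ g ∈ grp A B s, g 0 = 0 → g ∈ stab A B)
    (hturn : ∃ N ∈ k.auts, N.mat ∈ lin (grp A B s) ∧ Turns N)
    {δ : ℝ} (hδ : 0 < δ) (hL : ∀ a b : ℝ, IsTrans (grp A B s) ![δ * a, δ * b, 0] ↔
      ∃ m n : ℤ, a = m ∧ b = n) (hz : v 2 ≠ 0) (hA1 : A ≠ 1)
    (hAB : B = 1 ∨ (A * A = 1 ∧ B * B = 1)) : ConcK k A B s := by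
  have h1 : Am ≠ IM.one := by
    rintro rfl
    rw [rf_one_mat] at hA
    exact hA1 (rf_ext hA rf_one)
  have h2 : Bm = IM.one ∨ (Am.mul Am = IM.one ∧ Bm.mul Bm = IM.one) := by
    have sq : ∀ {g : Equiv.Perm V3} {M : IM}, IsAff g M.mat 0 → g * g = 1 →
        M.mul M = IM.one := by
      intro g M hg hgg
      apply rf_mat_inj
      have e := rf_mul hg hg
      rw [hgg] at e
      rw [rf_mul_mat, rf_one_mat]
      exact (rf_unique e rf_one).1
    rcases hAB with h | ⟨h, h'⟩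
    · left
      apply rf_mat_inj
      rw [h] at hB
      rw [rf_one_mat]
      exact (rf_unique hB rf_one).1
    · exact Or.inr ⟨sq hA h, sq hB h'⟩
  rcases H.red Am hAm Bm hBm Sm hSm h1 h2 with hno | ⟨N, hN, x, hx, hred⟩
  · exfalso
    obtain ⟨N, -, ⟨g, hg, a, ha⟩, hturn⟩ := hturn
    obtain ⟨M, -, hM, b, hb⟩ := grp_genBy H.one H.mul H.pow hAm hBm hSm hA hB hs hg
    have e : M = N := rf_mat_inj (rf_unique hb ha).1
    rw [e] at hM
    exact hno N hM hturn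
  obtain ⟨htab, hok⟩ := H.blk x hx
  refine conck_of_row hA hB hs hN htab hok hred ?_
  intro f t w hf ht hstab hgrp hlink
  have hgrp' : x.2.1.grp t = (grp A B s).map (MulAut.conj f).toMonoidHom := by
    rw [← hgrp, grp_cnj]
  have hd' : Disc (x.2.1.grp t) := by
    rw [hgrp']
    exact disc_conj hf hd
  have hst' : ∀ g ∈ x.2.1.grp t, g 0 = 0 → g ∈ linGrp x.2.1.gens := by
    intro g hg h0
    rw [hgrp'] at hg
    obtain ⟨g', hg', rfl⟩ := Subgroup.mem_map.1 hg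
    rw [← hstab, stab_cnj]
    refine Subgroup.mem_map.2 ⟨g', hst g' hg' ?_, rfl⟩
    have e : (MulAut.conj f).toMonoidHom g' = f * g' * f⁻¹ := rfl
    rw [e, Equiv.Perm.mul_apply, Equiv.Perm.mul_apply, inv_zero' hf] at h0
    apply f.injective
    rw [h0, map_zero' hf]
  obtain ⟨C, hC⟩ := lattice_conj H.hD (H.conj N hN) hf hδ hL
  refine H.row x hx w t ht hd' ((Row.stab_iff hok.ok ht).1 hst') ?_ δ hδ C ?_
  · intro hw
    have hP := H.conj N hN
    have e0 : (f * s * f⁻¹) 0 = N.mat *ᵥ v := by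
      rw [Equiv.Perm.mul_apply, Equiv.Perm.mul_apply, inv_zero' hf, hs, mulVec_zero, zero_add, hf,
        add_zero]
    have e1 : ((f * s * f⁻¹) 0) 2 ≠ 0 := by
      rw [e0, mat_mulVec, hP.2.2.1, hP.2.2.2.1]
      simp only [Int.cast_zero, zero_mul, zero_add]
      have : (![(N.a.x : ℝ) * v 0 + N.a.y * v 1 + N.a.z * v 2,
          N.b.x * v 0 + N.b.y * v 1 + N.b.z * v 2, (N.c.z : ℝ) * v 2] : V3) 2 = N.c.z * v 2 := rfl
      rw [this]
      rcases hP.2.2.2.2.1 with h | h <;> rw [h] <;> simpa using hz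
    apply e1
    have hle : linGrp x.2.1.gens ≤ x.2.1.grp t := le_sup_left
    have htm : t ∈ x.2.1.grp t := Subgroup.mem_sup_right (Subgroup.mem_zpowers t)
    have h0 : ∀ g ∈ linGrp x.2.1.gens, g 0 = 0 := by
      intro g hg
      obtain ⟨M, -, hM⟩ := (Row.mem_H hok.ok).1 hg
      rw [hM, mulVec_zero, add_zero]
    obtain ⟨h, hh, h', hh', e⟩ := hlink
    have t0 : t 0 = w := by rw [ht, mulVec_zero, zero_add]
    rcases e with e | e
    · rw [e, Equiv.Perm.mul_apply, Equiv.Perm.mul_apply, h0 h' hh', t0,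
        third hok H.axis ht (hle hh) w hw, h0 h hh]
      rfl
    · rw [e, Equiv.Perm.mul_apply, Equiv.Perm.mul_apply, h0 h' hh']
      have e3 : (t⁻¹ 0) 2 = 0 := by
        have e4 := third hok H.axis ht (inv_mem htm) w hw
        rw [← e4, ← t0, inv_app]
        rfl
      rw [third hok H.axis ht (hle hh) _ e3, h0 h hh]
      rfl
  · intro a b
    rw [← Row.trans_iff hok.ok ht, hgrp']
    exact hC a b

end CA

theorem complete_tet {A B s : Equiv.Perm V3} {Am Bm Sm : IM} {v : V3} (hAm : Am ∈ tetAuts)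
    (hBm : Bm ∈ tetAuts) (hSm : Sm ∈ tetAuts) (hA : IsAff A Am.mat 0) (hB : IsAff B Bm.mat 0)
    (hs : IsAff s Sm.mat v) (hd : Disc (grp A B s))
    (hst : ∀ g ∈ grp A B s, g 0 = 0 → g ∈ stab A B)
    (hturn : ∃ N ∈ tetAuts, N.mat ∈ lin (grp A B s) ∧ Turns N)
    {δ : ℝ} (hδ : 0 < δ) (hL : ∀ a b : ℝ, IsTrans (grp A B s) ![δ * a, δ * b, 0] ↔
      ∃ m n : ℤ, a = m ∧ b = n) (hz : v 2 ≠ 0) (hA1 : A ≠ 1)
    (hAB : B = 1 ∨ (A * A = 1 ∧ B * B = 1)) : ConcK .tet A B s := by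
  have H : CA.KindOK .tet 2 tetBlocks tetRows :=
    { hD := by norm_num
      one := by decide +kernel
      mul := by decide +kernel
      pow := by decide +kernel
      axis := by decide +kernel
      conj := by decide +kernel
      blk := fun x hx => ⟨by
        have := (List.of_mem_zip (a := x.1) (b := x.2) hx).1
        unfold table
        simp only [List.mem_append]
        exact Or.inl (Or.inl (Or.inr this)), tet_ok.2 x hx⟩
      red := fun A hA B hB S hS h1 h2 => rowred_tet hA hB hS h1 h2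
      row := fun x hx w t ht hd hst hz δ hδ C hL => row_tet hx ht hd hst hz hδ C (by
        intro a b
        rw [hL a b]
        simp only [even_iff_two_dvd]) }
  exact CA.complete H hAm hBm hSm hA hB hs hd hst hturn hδ hL hz hA1 hAB

theorem complete_hex {A B s : Equiv.Perm V3} {Am Bm Sm : IM} {v : V3} (hAm : Am ∈ hexAuts)
    (hBm : Bm ∈ hexAuts) (hSm : Sm ∈ hexAuts) (hA : IsAff A Am.mat 0) (hB : IsAff B Bm.mat 0)
    (hs : IsAff s Sm.mat v) (hd : Disc (grp A B s))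
    (hst : ∀ g ∈ grp A B s, g 0 = 0 → g ∈ stab A B)
    (hturn : ∃ N ∈ hexAuts, N.mat ∈ lin (grp A B s) ∧ Turns N)
    {δ : ℝ} (hδ : 0 < δ) (hL : ∀ a b : ℝ, IsTrans (grp A B s) ![δ * a, δ * b, 0] ↔
      ∃ m n : ℤ, a = m ∧ b = n) (hz : v 2 ≠ 0) (hA1 : A ≠ 1)
    (hAB : B = 1 ∨ (A * A = 1 ∧ B * B = 1)) : ConcK .hex A B s := by
  have H : CA.KindOK .hex 3 hexBlocks hexRows :=
    { hD := by norm_num
      one := by decide +kernel
      mul := by decide +kernel
      pow := by decide +kernel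
      axis := by decide +kernel
      conj := by decide +kernel
      blk := fun x hx => ⟨by
        have := (List.of_mem_zip (a := x.1) (b := x.2) hx).1
        unfold table
        simp only [List.mem_append]
        exact Or.inl (Or.inr this), hex_ok.2 x hx⟩
      red := fun A hA B hB S hS h1 h2 => rowred_hex hA hB hS h1 h2
      row := fun x hx w t ht hd hst hz δ hδ C hL => row_hex hx ht hd hst hz hδ C hL }
  exact CA.complete H hAm hBm hSm hA hB hs hd hst hturn hδ hL hz hA1 hAB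

end Pool.Agent.H21.FT
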