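import Pool.Agent.H21.FT.KerCub1
import Pool.Agent.H21.FT.KerCub2
import Pool.Agent.H21.FT.KerCub3
import Pool.Agent.H21.FT.KerCub4
import Pool.Agent.H21.FT.KerCub5

/-!
# Kernel checks: the cubic rows
-/

namespace Pool.Agent.H21.FT

set_option maxRecDepth 100000 in
theorem cub_len : cubBlocks.length = cubRows.length := by decide +kernel

set_option maxRecDepth 100000 in
theorem cub_len39 : (cubBlocks.zip cubRows).length = 39 := by decide +kernel

theorem mem_drop_take {α : Type*} {l : List α} {x : α} (h : x ∈ l) (n : ℕ) (hn : l.length ≤ 3 * n) :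
    ∃ k < n, x ∈ (l.drop (3 * k)).take 3 := by
  obtain ⟨i, hi, rfl⟩ := List.mem_iff_getElem.1 h
  refine ⟨i / 3, by omega, ?_⟩
  rw [List.mem_iff_getElem]
  have hl : i % 3 < ((l.drop (3 * (i / 3))).take 3).length := by
    rw [List.length_take, List.length_drop]
    omega
  refine ⟨i % 3, hl, ?_⟩
  rw [List.getElem_take, List.getElem_drop]
  congr 1
  omega

theorem cub_ok : cubBlocks.length = cubRows.length ∧
    ∀ x ∈ cubBlocks.zip cubRows, BlockOK .cub x.1 x.2 := by
  refine ⟨cub_len, fun x hx => ?_⟩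
  obtain ⟨k, hk, hx'⟩ := mem_drop_take hx 13 (by rw [cub_len39])
  apply blockOK_of_chk
  interval_cases k
  · exact List.all_eq_true.mp cub_chk1 x hx'
  · exact List.all_eq_true.mp cub_chk2 x hx'
  · exact List.all_eq_true.mp cub_chk3 x hx'
  · exact List.all_eq_true.mp cub_chk4 x hx'
  · exact List.all_eq_true.mp cub_chk5 x hx'
  · exact List.all_eq_true.mp cub_chk6 x hx'
  · exact List.all_eq_true.mp cub_chk7 x hx'
  · exact List.all_eq_true.mp cub_chk8 x hx'
  · exact List.all_eq_true.mp cub_chk9 x hx'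
  · exact List.all_eq_true.mp cub_chk10 x hx'
  · exact List.all_eq_true.mp cub_chk11 x hx'
  · exact List.all_eq_true.mp cub_chk12 x hx'
  · exact List.all_eq_true.mp cub_chk13 x hx'

end Pool.Agent.H21.FT
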