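import Pool.Agent.H21.FT.LatTet

/-!
# Invariant lattices: the cubic case
-/

set_option autoImplicit false

namespace Pool.Agent.H21.FT

open Matrix

/-- a nonzero discrete subgroup of the line is cyclic -/
theorem cyclic_line (A : AddSubgroup ℝ) (hd : ∀ R : ℝ, {x : ℝ | x ∈ A ∧ |x| ≤ R}.Finite)
    (hne : ∃ x ∈ A, x ≠ 0) : ∃ d : ℝ, 0 < d ∧ ∀ x, x ∈ A ↔ ∃ n : ℤ, x = n * d := by
  obtain ⟨x0, hx0, hx00⟩ := hne
  have hfin : {x : ℝ | x ∈ A ∧ 0 < x ∧ x ≤ |x0|}.Finite := by
    refine (hd |x0|).subset fun x hx => ⟨hx.1, ?_⟩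
    rw [abs_of_pos hx.2.1]
    exact hx.2.2
  have hne' : {x : ℝ | x ∈ A ∧ 0 < x ∧ x ≤ |x0|}.Nonempty := by
    refine ⟨|x0|, ?_, abs_pos.2 hx00, le_rfl⟩
    rcases abs_choice x0 with h | h
    · rw [h]; exact hx0
    · rw [h]; exact A.neg_mem hx0
  obtain ⟨d, ⟨hdA, hd0, hdx⟩, hmin⟩ := Set.exists_min_image _ id hfin hne'
  have hleast : IsLeast {g : ℝ | g ∈ A ∧ 0 < g} d := by
    refine ⟨⟨hdA, hd0⟩, fun g hg => ?_⟩
    by_cases hgx : g ≤ |x0|
    · exact hmin g ⟨hg.1, hg.2, hgx⟩
    · exact hdx.trans (not_le.1 hgx).le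
  have hA := AddSubgroup.cyclic_of_min hleast
  refine ⟨d, hd0, fun x => ?_⟩
  rw [hA, AddSubgroup.mem_closure_singleton]
  constructor
  · rintro ⟨n, hn⟩
    exact ⟨n, by rw [← hn, zsmul_eq_mul]⟩
  · rintro ⟨n, hn⟩
    exact ⟨n, by rw [hn, zsmul_eq_mul]⟩

/-- B7 (file LatCub.lean) -/
theorem lat_cub (T : AddSubgroup V3)
    (hd : ∀ R : ℝ, {t : V3 | t ∈ T ∧ ∀ i, |t i| ≤ R}.Finite) (hne : ∃ t ∈ T, t ≠ 0)
    (hc : ∀ t ∈ T, ![t 2, t 0, t 1] ∈ T) (hh : ∀ t ∈ T, ![t 0, -t 1, -t 2] ∈ T) :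
    ∃ δ : ℝ, 0 < δ ∧ ∃ L ∈ cubLats, ∀ y : V3, δ • y ∈ T ↔ L.Mem y := by
  -- the line of the first coordinate axis
  let f : ℝ →+ V3 :=
    { toFun := fun x => ![x, 0, 0]
      map_zero' := by
        ext i
        fin_cases i <;> rfl
      map_add' := fun x y => by
        ext i
        fin_cases i <;> simp }
  have hf : ∀ x, f x = ![x, 0, 0] := fun _ => rfl
  let A : AddSubgroup ℝ := T.comap f
  have hA : ∀ x, x ∈ A ↔ ![x, 0, 0] ∈ T := fun _ => Iff.rfl
  have h2 : ∀ t ∈ T, 2 * t 0 ∈ A := by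
    intro t ht
    rw [hA]
    have := T.add_mem ht (hh t ht)
    convert this using 1
    ext i
    fin_cases i
    · simp; ring
    · simp
    · simp
  have hcyc : ∀ a b c : ℝ, ![a, b, c] ∈ T → ![c, a, b] ∈ T := by
    intro a b c h
    simpa using hc _ h
  have h2' : ∀ t ∈ T, 2 * t 1 ∈ A := by
    intro t ht
    have h' := hc _ (hc t ht)
    simpa using h2 _ h'
  have h2'' : ∀ t ∈ T, 2 * t 2 ∈ A := by
    intro t ht
    have h' := hc t ht
    simpa using h2 _ h'
  obtain ⟨d, hd0, hAd⟩ : ∃ d : ℝ, 0 < d ∧ ∀ x, x ∈ A ↔ ∃ n : ℤ, x = n * d := by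
    refine cyclic_line A (fun R => ?_) ?_
    · have := (hd |R|).preimage (f := f) (by
        intro x _ y _ hxy
        have := congrFun hxy 0
        simpa [hf] using this)
      refine this.subset fun x hx => ?_
      refine ⟨hx.1, fun i => ?_⟩
      have hx2 : |x| ≤ |R| := hx.2.trans (le_abs_self R)
      fin_cases i
      · simpa [hf] using hx2
      · simp [hf]
      · simp [hf]
    · obtain ⟨t, ht, ht0⟩ := hne
      by_contra hcon
      push Not at hcon
      refine ht0 ?_
      ext i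
      fin_cases i
      · have := hcon _ (h2 t ht)
        simpa using this
      · have := hcon _ (h2' t ht)
        simpa using this
      · have := hcon _ (h2'' t ht)
        simpa using this
  -- the half step
  set e : ℝ := d / 2 with he
  have he0 : 0 < e := by positivity
  have hde : d = 2 * e := by rw [he]; ring
  have hint : ∀ t ∈ T, ∃ a b c : ℤ, t = ![e * a, e * b, e * c] := by
    intro t ht
    obtain ⟨a, ha⟩ := (hAd _).1 (h2 t ht)
    obtain ⟨b, hb⟩ := (hAd _).1 (h2' t ht)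
    obtain ⟨c, hc⟩ := (hAd _).1 (h2'' t ht)
    refine ⟨a, b, c, ?_⟩
    ext i
    fin_cases i
    · show t 0 = e * a
      rw [hde] at ha
      linarith
    · show t 1 = e * b
      rw [hde] at hb
      linarith
    · show t 2 = e * c
      rw [hde] at hc
      linarith
  -- even shifts
  have hshift0 : ∀ k : ℤ, ![e * (2 * k), 0, 0] ∈ T := by
    intro k
    rw [← hA, hAd]
    exact ⟨k, by rw [hde]; ring⟩
  have hshift1 : ∀ k : ℤ, ![0, e * (2 * k), 0] ∈ T := fun k => hcyc _ _ _ (hshift0 k)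
  have hshift2 : ∀ k : ℤ, ![0, 0, e * (2 * k)] ∈ T := fun k => hcyc _ _ _ (hshift1 k)
  have hsh : ∀ (a b c : ℝ) (i j k : ℤ), ![e * (2 * i + a), e * (2 * j + b), e * (2 * k + c)] ∈ T ↔
      ![e * a, e * b, e * c] ∈ T := by
    intro a b c i j k
    have h := T.add_mem (T.add_mem (hshift0 i) (hshift1 j)) (hshift2 k)
    rw [show (![e * (2 * i + a), e * (2 * j + b), e * (2 * k + c)] : V3) =
      (![e * (2 * i), 0, 0] + ![0, e * (2 * j), 0] + ![0, 0, e * (2 * k)]) +
        ![e * a, e * b, e * c] by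
      ext l
      fin_cases l
      · simp; ring
      · simp; ring
      · simp; ring]
    exact T.add_mem_cancel_left h
  obtain ⟨M, hM⟩ : ∃ M : ℤ → ℤ → ℤ → Prop, ∀ a b c, M a b c ↔
      ![e * (a : ℝ), e * (b : ℝ), e * (c : ℝ)] ∈ T := ⟨_, fun _ _ _ => Iff.rfl⟩
  have hMsh : ∀ a b c i j k : ℤ, M (2 * i + a) (2 * j + b) (2 * k + c) ↔ M a b c := by
    intro a b c i j k
    rw [hM, hM]
    push_cast
    exact hsh a b c i j k
  have hMcyc : ∀ a b c : ℤ, M a b c → M c a b := by
    intro a b c h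
    rw [hM] at h ⊢
    exact hcyc _ _ _ h
  have hMsub : ∀ a b c a' b' c' : ℤ, M a b c → M a' b' c' → M (a - a') (b - b') (c - c') := by
    intro a b c a' b' c' h h'
    rw [hM] at h h' ⊢
    have := T.sub_mem h h'
    convert this using 1
    ext l
    fin_cases l
    · simp; ring
    · simp; ring
    · simp; ring
  have n100 : ¬ M 1 0 0 := by
    intro h
    rw [hM] at h
    have h' : e ∈ A := by
      rw [hA]
      simpa using h
    obtain ⟨n, hn⟩ := (hAd _).1 h'
    rw [hde] at hn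
    have h3 : (1 : ℝ) = 2 * n := by
      have : e * 1 = e * (2 * n) := by linarith
      exact mul_left_cancel₀ he0.ne' this
    have h4 : (1 : ℤ) = 2 * n := by exact_mod_cast h3
    omega
  have n010 : ¬ M 0 1 0 := fun h => n100 (hMcyc _ _ _ (hMcyc _ _ _ h))
  have n001 : ¬ M 0 0 1 := fun h => n100 (hMcyc _ _ _ h)
  have t000 : M 0 0 0 := by
    rw [hM]
    have := T.zero_mem
    convert this using 1
    ext i
    fin_cases i <;> simp
  have hpar : ∀ a : ℤ, ∃ i, a = 2 * i + 0 ∨ a = 2 * i + 1 := fun a => ⟨a / 2, by omega⟩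
  have hy : ∀ y : V3, e • y ∈ T ↔ ∃ a b c : ℤ, y 0 = a ∧ y 1 = b ∧ y 2 = c ∧ M a b c := by
    intro y
    constructor
    · intro h
      obtain ⟨a, b, c, habc⟩ := hint _ h
      have h0 : y 0 = a := by
        have := congrFun habc 0
        simp at this
        exact this.resolve_right he0.ne'
      have h1 : y 1 = b := by
        have := congrFun habc 1
        simp at this
        exact this.resolve_right he0.ne'
      have h2 : y 2 = c := by
        have := congrFun habc 2
        simp at this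
        exact this.resolve_right he0.ne'
      refine ⟨a, b, c, h0, h1, h2, ?_⟩
      rw [hM, ← habc]
      exact h
    · rintro ⟨a, b, c, h0, h1, h2, h⟩
      rw [hM] at h
      convert h using 1
      ext l
      fin_cases l
      · simp [h0]
      · simp [h1]
      · simp [h2]
  by_cases t110 : M 1 1 0
  · -- even sum
    have t011 : M 0 1 1 := hMcyc _ _ _ t110
    have t101 : M 1 0 1 := hMcyc _ _ _ t011
    have n111 : ¬ M 1 1 1 := fun h => n001 (hMsub _ _ _ _ _ _ h t110)
    have htab : ∀ a b c : ℤ, M a b c ↔ (a + b + c) % 2 = 0 := by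
      intro a b c
      obtain ⟨i, rfl | rfl⟩ := hpar a <;> obtain ⟨j, rfl | rfl⟩ := hpar b <;>
        obtain ⟨k, rfl | rfl⟩ := hpar c <;> rw [hMsh] <;>
        first
          | exact iff_of_true (by assumption) (by omega)
          | exact iff_of_false (by assumption) (by omega)
    refine ⟨e, he0, ⟨⟨⟨1, 1, 1⟩, ⟨0, 2, 0⟩, ⟨0, 0, 2⟩⟩, 2, false⟩, by simp [cubLats], fun y => ?_⟩
    rw [hy, LatD.mem_iff]
    simp only [Int.cast_one, Int.cast_zero, one_mul, zero_mul, add_zero, zero_add,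
      Bool.false_eq_true, false_imp_iff, and_true, Int.cast_ofNat]
    constructor
    · rintro ⟨a, b, c, h0, h1, h2, h⟩
      rw [htab] at h
      obtain ⟨r, hr⟩ : ∃ r, a + b + c = 2 * r := ⟨(a + b + c) / 2, by omega⟩
      have hr' : (a : ℝ) + b + c = 2 * r := by exact_mod_cast hr
      exact ⟨r, b, c, by linarith, by linarith, by linarith⟩
    · rintro ⟨i, j, k, hi, hj, hk⟩
      refine ⟨2 * i - j - k, j, k, ?_, by linarith, by linarith, ?_⟩
      · push_cast
        linarith
      · rw [htab]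
        omega
  · have n110 : ¬ M 1 1 0 := t110
    have n101 : ¬ M 1 0 1 := fun h => n110 (hMcyc _ _ _ h)
    have n011 : ¬ M 0 1 1 := fun h => n101 (hMcyc _ _ _ h)
    by_cases t111 : M 1 1 1
    · have htab : ∀ a b c : ℤ, M a b c ↔ (a + b) % 2 = 0 ∧ (b + c) % 2 = 0 := by
        intro a b c
        obtain ⟨i, rfl | rfl⟩ := hpar a <;> obtain ⟨j, rfl | rfl⟩ := hpar b <;>
          obtain ⟨k, rfl | rfl⟩ := hpar c <;> rw [hMsh] <;>
          first
            | exact iff_of_true (by assumption) (by omega)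
            | exact iff_of_false (by assumption) (by omega)
      refine ⟨e, he0, ⟨⟨⟨1, 1, 0⟩, ⟨0, 1, 1⟩, ⟨0, 0, 2⟩⟩, 2, false⟩, by simp [cubLats],
        fun y => ?_⟩
      rw [hy, LatD.mem_iff]
      simp only [Int.cast_one, Int.cast_zero, one_mul, zero_mul, add_zero, zero_add,
        Bool.false_eq_true, false_imp_iff, and_true, Int.cast_ofNat]
      constructor
      · rintro ⟨a, b, c, h0, h1, h2, h⟩
        rw [htab] at h
        obtain ⟨r, hr⟩ : ∃ r, a + b = 2 * r := ⟨(a + b) / 2, by omega⟩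
        obtain ⟨r', hr'⟩ : ∃ r, b + c = 2 * r := ⟨(b + c) / 2, by omega⟩
        have g1 : (a : ℝ) + b = 2 * r := by exact_mod_cast hr
        have g2 : (b : ℝ) + c = 2 * r' := by exact_mod_cast hr'
        exact ⟨r, r', c, by linarith, by linarith, by linarith⟩
      · rintro ⟨i, j, k, hi, hj, hk⟩
        refine ⟨2 * i - (2 * j - k), 2 * j - k, k, ?_, ?_, by linarith, ?_⟩
        · push_cast
          linarith
        · push_cast
          linarith
        · rw [htab]
          omega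
    · have n111 : ¬ M 1 1 1 := t111
      have htab : ∀ a b c : ℤ, M a b c ↔ a % 2 = 0 ∧ b % 2 = 0 ∧ c % 2 = 0 := by
        intro a b c
        obtain ⟨i, rfl | rfl⟩ := hpar a <;> obtain ⟨j, rfl | rfl⟩ := hpar b <;>
          obtain ⟨k, rfl | rfl⟩ := hpar c <;> rw [hMsh] <;>
          first
            | exact iff_of_true (by assumption) (by omega)
            | exact iff_of_false (by assumption) (by omega)
      refine ⟨d, hd0, ⟨⟨⟨1, 0, 0⟩, ⟨0, 1, 0⟩, ⟨0, 0, 1⟩⟩, 1, false⟩, by simp [cubLats],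
        fun y => ?_⟩
      rw [show d • y = e • ((2 : ℝ) • y) by rw [smul_smul, hde, mul_comm], hy, LatD.mem_iff]
      simp only [Int.cast_one, Int.cast_zero, one_mul, zero_mul, add_zero, zero_add,
        Bool.false_eq_true, false_imp_iff, and_true, Pi.smul_apply, smul_eq_mul]
      constructor
      · rintro ⟨a, b, c, h0, h1, h2, h⟩
        rw [htab] at h
        obtain ⟨a', rfl⟩ : ∃ r, a = 2 * r := ⟨a / 2, by omega⟩
        obtain ⟨b', rfl⟩ : ∃ r, b = 2 * r := ⟨b / 2, by omega⟩
        obtain ⟨c', rfl⟩ : ∃ r, c = 2 * r := ⟨c / 2, by omega⟩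
        push_cast at h0 h1 h2
        exact ⟨a', b', c', by linarith, by linarith, by linarith⟩
      · rintro ⟨i, j, k, hi, hj, hk⟩
        refine ⟨2 * i, 2 * j, 2 * k, ?_, ?_, ?_, ?_⟩
        · push_cast
          linarith
        · push_cast
          linarith
        · push_cast
          linarith
        · rw [htab]
          omega

end Pool.Agent.H21.FT
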