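import Pool.Agent.H21.FT.RowFacts
import Pool.Agent.H21.FT.LatCub
import Pool.Agent.H21.FT.KerCub
import Pool.Agent.H21.FT.Easy
import Pool.Agent.H21.FT.C1Sound
import Pool.Agent.H21.FT.C1KerCub

/-!
# Completeness of the cubic rows
-/

namespace Pool.Agent.H21.FT

open Matrix

namespace RowCub

/-- Scaling of the group of translations. -/
theorem Tw_smul (r : Row) (w : V3) {c : ℝ} (hc : c ≠ 0) {y : V3} :
    y ∈ r.Tw (c • w) ↔ c⁻¹ • y ∈ r.Tw w := by
  have key : ∀ (c : ℝ) (w : V3) (y : V3), y ∈ r.Tw w → c • y ∈ r.Tw (c • w) := by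
    intro c w y hy
    unfold Row.Tw at hy ⊢
    induction hy using AddSubgroup.closure_induction with
    | mem y hy =>
      obtain ⟨X, hX, rfl⟩ := hy
      refine AddSubgroup.subset_closure ⟨X, hX, ?_⟩
      rw [Matrix.mulVec_smul]
    | zero => rw [smul_zero]; exact zero_mem _
    | add a b _ _ ha hb => rw [smul_add]; exact add_mem ha hb
    | neg a _ ha => rw [smul_neg]; exact neg_mem ha
  constructor
  · intro h
    have := key c⁻¹ _ _ h
    rwa [smul_smul, inv_mul_cancel₀ hc, one_smul] at this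
  · intro h
    have := key c _ _ h
    rwa [smul_smul, mul_inv_cancel₀ hc, one_smul] at this

theorem rows_cyc : (cubRows.all fun x => x.1.reps.any fun p =>
    decide (p.M = ⟨⟨0, 0, 1⟩, ⟨1, 0, 0⟩, ⟨0, 1, 0⟩⟩)) = true := by decide +kernel

theorem rows_half : (cubRows.all fun x => x.1.reps.any fun p =>
    decide (p.M = ⟨⟨1, 0, 0⟩, ⟨0, -1, 0⟩, ⟨0, 0, -1⟩⟩)) = true := by decide +kernel

theorem c1_fst : cubC1.map Prod.fst = c1Cub := by decide +kernel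

theorem disc_Tw {r : Row} (hok : r.ok = true) {w : V3} {t : Equiv.Perm V3}
    (ht : IsAff t r.S.mat w) (hd : Disc (r.grp t)) (R : ℝ) :
    {y : V3 | y ∈ r.Tw w ∧ ∀ i, |y i| ≤ R}.Finite := by
  have hfin := (hd R).image (fun g : Equiv.Perm V3 => g 0)
  refine hfin.subset ?_
  rintro y ⟨hy, hR⟩
  obtain ⟨g, hg, hg'⟩ := (Row.trans_iff hok ht).2 hy
  have h0 : g 0 = y := by
    rw [hg' 0, Matrix.mulVec_zero, zero_add]
  exact ⟨g, ⟨hg, by rw [h0]; exact hR⟩, h0⟩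

end RowCub

open RowCub

theorem row_cub {x : Block × (Row × List LatE)} (hx : x ∈ cubBlocks.zip cubRows) {w : V3}
    {t : Equiv.Perm V3} (ht : IsAff t x.2.1.S.mat w) (hd : Disc (x.2.1.grp t))
    (hst : ∀ p ∈ x.2.1.nl, p.X.mat *ᵥ w ∉ x.2.1.Tw w) (hne : ∃ y ∈ x.2.1.Tw w, y ≠ 0) :
    RowConc x.1 w := by
  have hB := cub_ok.2 x hx
  obtain ⟨i, hi⟩ := List.mem_iff_getElem?.1 hx
  by_cases hc : i ∈ c1Cub
  swap
  · exact easy_cub hc hi hB hst hne
  -- the certificate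
  rw [← c1_fst, List.mem_map] at hc
  obtain ⟨c, hcm, rfl⟩ := hc
  obtain ⟨x', hx', hcok⟩ := c1_cub_ok c hcm
  have hxx : x' = x := by
    rw [hi] at hx'
    exact (Option.some.inj hx').symm
  subst hxx
  obtain ⟨b, r, lats⟩ := x'
  simp only at *
  have hr2 : (r, lats) ∈ cubRows := (List.of_mem_zip hx).2
  have hok : r.ok = true := hB.ok
  -- invariance
  have hinv : ∀ p ∈ r.reps, ∀ y ∈ r.Tw w, p.M.mat *ᵥ y ∈ r.Tw w := fun p hp y hy =>
    Row.Tw_inv hok ht hp hy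
  have hcyc : ∀ y ∈ r.Tw w, ![y 2, y 0, y 1] ∈ r.Tw w := by
    intro y hy
    have h1 := List.all_eq_true.1 rows_cyc _ hr2
    rw [List.any_eq_true] at h1
    obtain ⟨p, hp, hpM⟩ := h1
    rw [decide_eq_true_eq] at hpM
    have h2 := hinv p hp y hy
    rw [hpM] at h2
    have h3 : (⟨⟨0, 0, 1⟩, ⟨1, 0, 0⟩, ⟨0, 1, 0⟩⟩ : IM).mat *ᵥ y = ![y 2, y 0, y 1] := by
      ext j
      fin_cases j <;> simp [IM.mat, Matrix.mulVec, dotProduct, Fin.sum_univ_three]
    rwa [h3] at h2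
  have hhalf : ∀ y ∈ r.Tw w, ![y 0, -y 1, -y 2] ∈ r.Tw w := by
    intro y hy
    have h1 := List.all_eq_true.1 rows_half _ hr2
    rw [List.any_eq_true] at h1
    obtain ⟨p, hp, hpM⟩ := h1
    rw [decide_eq_true_eq] at hpM
    have h2 := hinv p hp y hy
    rw [hpM] at h2
    have h3 : (⟨⟨1, 0, 0⟩, ⟨0, -1, 0⟩, ⟨0, 0, -1⟩⟩ : IM).mat *ᵥ y = ![y 0, -y 1, -y 2] := by
      ext j
      fin_cases j <;> simp [IM.mat, Matrix.mulVec, dotProduct, Fin.sum_univ_three]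
    rwa [h3] at h2
  obtain ⟨δ, hδ, L, hL, hLat⟩ := lat_cub (r.Tw w) (disc_Tw hok ht hd) hne hcyc hhalf
  have hδ0 : δ ≠ 0 := hδ.ne'
  have hδi : δ⁻¹ ≠ 0 := inv_ne_zero hδ0
  have hTp : ∀ y, y ∈ r.Tw (δ⁻¹ • w) ↔ δ • y ∈ r.Tw w := by
    intro y
    rw [Tw_smul r w hδi, inv_inv]
  obtain ⟨f, hf, σ, hσ, n, u, v, hex, hp⟩ := c1_sound hB hcok (L := L) hL (p := δ⁻¹ • w)
    (fun y => by rw [hTp, hLat]) (by
      intro q hq hmem
      rw [hTp, Matrix.mulVec_smul, smul_smul, mul_inv_cancel₀ hδ0, one_smul] at hmem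
      exact hst q hq hmem) (by
      intro q hq y hy
      rw [hTp] at hy ⊢
      rw [← Matrix.mulVec_smul]
      exact hinv q hq _ hy) (fun h => absurd rfl h)
  have hscl : sclR .cub σ (f.pt n u v) = σ • f.pt n u v := by
    ext j
    fin_cases j <;> simp [sclR]
  rw [hscl] at hp
  have hw : w = (δ * σ) • f.pt n u v := by
    rw [mul_smul, ← hp, smul_smul, mul_inv_cancel₀ hδ0, one_smul]
  have hk : b.kind = .cub := hB.kind
  refine ⟨(δ * σ) • (1 : M3), ?_, ?_, f, hf, n, u, v, hex, ?_⟩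
  · simp only [hk]
    exact ⟨δ * σ, mul_ne_zero hδ0 hσ.ne', rfl⟩
  · intro M _
    rw [smul_mul_assoc, one_mul, mul_smul_comm, mul_one]
  · rw [Matrix.smul_mulVec, Matrix.one_mulVec]
    exact hw

end Pool.Agent.H21.FT
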