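import Pool.Agent.H21.FT.RowRedCubData

/-!
# Reduction of triples of signed permutation matrices to the rows of the table
-/

namespace Pool.Agent.H21.FT

namespace RRC

/-! ### Algebra of integer matrices -/

theorem mul_assoc' (A B C : IM) : (A.mul B).mul C = A.mul (B.mul C) := by
  simp only [IM.mul, IM.vm, IV.add, IV.smul, IM.mk.injEq, IV.mk.injEq]
  refine ⟨⟨?_, ?_, ?_⟩, ⟨?_, ?_, ?_⟩, ⟨?_, ?_, ?_⟩⟩ <;> ring

theorem one_mul' (A : IM) : IM.one.mul A = A := by
  obtain ⟨⟨a1, a2, a3⟩, ⟨b1, b2, b3⟩, ⟨c1, c2, c3⟩⟩ := A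
  simp [IM.one, IM.mul, IM.vm, IV.add, IV.smul]

theorem mul_one' (A : IM) : A.mul IM.one = A := by
  obtain ⟨⟨a1, a2, a3⟩, ⟨b1, b2, b3⟩, ⟨c1, c2, c3⟩⟩ := A
  simp [IM.one, IM.mul, IM.vm, IV.add, IV.smul]

theorem mv_mul (A B : IM) (v : IV) : (A.mul B).mv v = A.mv (B.mv v) := by
  simp only [IM.mul, IM.vm, IM.mv, IV.dot, IV.add, IV.smul, IV.mk.injEq]
  refine ⟨?_, ?_, ?_⟩ <;> ring

theorem one_mv (v : IV) : IM.one.mv v = v := by
  obtain ⟨x, y, z⟩ := v
  simp [IM.one, IM.mv, IV.dot]

theorem mv_neg (A : IM) (v : IV) : A.mv v.neg = (A.mv v).neg := by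
  simp only [IM.mv, IV.neg, IV.dot, IV.mk.injEq]
  refine ⟨?_, ?_, ?_⟩ <;> ring

theorem mv_zero (A : IM) : A.mv ⟨0, 0, 0⟩ = ⟨0, 0, 0⟩ := by
  simp [IM.mv, IV.dot]

theorem genBy_conj {N Ni A B M : IM} (h : N.mul Ni = IM.one) (h' : Ni.mul N = IM.one)
    (hM : GenBy [A, B] M) :
    GenBy [(N.mul A).mul Ni, (N.mul B).mul Ni] ((N.mul M).mul Ni) := by
  induction hM with
  | one =>
    rw [mul_one', h]
    exact GenBy.one
  | @mul M M' hM _ ih =>
    have e : (N.mul (M.mul M')).mul Ni = ((N.mul M).mul Ni).mul ((N.mul M').mul Ni) := by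
      rw [mul_assoc' (N.mul M) Ni, ← mul_assoc' Ni, ← mul_assoc' Ni, h', one_mul', ← mul_assoc',
        ← mul_assoc']
    rw [e]
    refine GenBy.mul ?_ ih
    rw [List.mem_cons, List.mem_singleton] at hM ⊢
    rcases hM with rfl | rfl
    · exact Or.inl rfl
    · exact Or.inr rfl

/-! ### The group table -/

/-- The `i`-th signed permutation matrix. -/
def G (i : ℕ) : IM := cubAuts.getD i IM.one

def mulI (i j : ℕ) : ℕ := (mulT >>> (6 * (48 * i + j))) % 64

def invI (i : ℕ) : ℕ := invL.getD i 0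

def conjI (n x : ℕ) : ℕ := mulI (mulI n x) (invI n)

theorem tab_ok : ((List.range 48).all fun i => (List.range 48).all fun j =>
    decide (mulI i j < 48) && decide (G (mulI i j) = (G i).mul (G j))) = true := by
  decide +kernel

theorem inv_ok : ((List.range 48).all fun i => decide (invI i < 48) &&
    decide (mulI i (invI i) = 0) && decide (mulI (invI i) i = 0)) = true := by
  decide +kernel

theorem nodup_ok : cubAuts.Nodup := by decide +kernel

theorem G_mul {i j : ℕ} (hi : i < 48) (hj : j < 48) :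
    mulI i j < 48 ∧ G (mulI i j) = (G i).mul (G j) := by
  have h := List.all_eq_true.1 (List.all_eq_true.1 tab_ok i (List.mem_range.2 hi)) j
    (List.mem_range.2 hj)
  simpa using h

theorem G_inv {i : ℕ} (hi : i < 48) : invI i < 48 ∧ (G i).mul (G (invI i)) = IM.one ∧
    (G (invI i)).mul (G i) = IM.one := by
  have h := List.all_eq_true.1 inv_ok i (List.mem_range.2 hi)
  simp only [Bool.and_eq_true, decide_eq_true_eq] at h
  have e0 : G 0 = IM.one := rfl
  refine ⟨h.1.1, ?_, ?_⟩
  · rw [← (G_mul hi h.1.1).2, h.1.2, e0]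
  · rw [← (G_mul h.1.1 hi).2, h.2, e0]

theorem len_auts : cubAuts.length = 48 := rfl

theorem G_eq {i : ℕ} (hi : i < 48) : G i = cubAuts[i]'(by rw [len_auts]; exact hi) := by
  rw [G, List.getD_eq_getElem]

theorem G_mem {i : ℕ} (hi : i < 48) : G i ∈ cubAuts := by
  rw [G_eq hi]; exact List.getElem_mem _

theorem exists_G {A : IM} (hA : A ∈ cubAuts) : ∃ i < 48, G i = A := by
  obtain ⟨i, hi, rfl⟩ := List.mem_iff_getElem.1 hA
  rw [len_auts] at hi
  exact ⟨i, hi, G_eq hi⟩

theorem G_inj {i j : ℕ} (hi : i < 48) (hj : j < 48) (h : G i = G j) : i = j := by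
  rw [G_eq hi, G_eq hj] at h
  exact (nodup_ok.getElem_inj_iff).1 h

theorem conj_lt {n x : ℕ} (hn : n < 48) (hx : x < 48) : conjI n x < 48 :=
  (G_mul (G_mul hn hx).1 (G_inv hn).1).1

theorem G_conj {n x : ℕ} (hn : n < 48) (hx : x < 48) :
    G (conjI n x) = ((G n).mul (G x)).mul (G (invI n)) := by
  rw [conjI, (G_mul (G_mul hn hx).1 (G_inv hn).1).2, (G_mul hn hx).2]

/-- `N A = A' N`. -/
theorem conj_comm {n x : ℕ} (hn : n < 48) (hx : x < 48) :
    (G n).mul (G x) = (G (conjI n x)).mul (G n) := by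
  rw [G_conj hn hx, mul_assoc', (G_inv hn).2.2, mul_one']

/-! ### Alternating words -/

/-- The alternating product of length `k` of `a`, `b`, starting with `a`. -/
def wd : ℕ → ℕ → ℕ → ℕ
  | 0, _, _ => 0
  | k + 1, a, b => mulI a (wd k b a)

theorem wd_ok {a b : ℕ} (ha : a < 48) (hb : b < 48) (k : ℕ) :
    wd k a b < 48 ∧ GenBy [G a, G b] (G (wd k a b)) ∧ GenBy [G b, G a] (G (wd k a b)) := by
  induction k generalizing a b with
  | zero => exact ⟨by rw [wd]; omega, GenBy.one, GenBy.one⟩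
  | succ k ih =>
    obtain ⟨h1, h2, h3⟩ := ih hb ha
    have h4 := G_mul ha h1
    rw [wd]
    refine ⟨h4.1, ?_, ?_⟩
    · rw [h4.2]
      exact GenBy.mul (by simp) h3
    · rw [h4.2]
      exact GenBy.mul (by simp) h2

/-! ### The checks -/

def cl (j : ℕ) : List ℕ := cls.getD j []

def code1 (a b : ℕ) : ℕ := (c1 >>> (11 * (48 * a + b))) % 2048

def code2 (j s : ℕ) : ℕ := (c2 >>> (24 * (48 * j + s))) % 16777216

def check1 (a b : ℕ) : Bool :=
  let c := code1 a b
  let n := c / 32
  let j := c % 32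
  let a' := conjI n a
  let b' := conjI n b
  let H := cl j
  Nat.blt n 48 && Nat.blt j 23 && H.contains a' && H.contains b' &&
    H.all (fun h => (List.range 12).any (fun k => Nat.beq (wd k a' b') h || Nat.beq (wd k b' a') h))

def cond1 (a b : ℕ) : Bool := !Nat.beq a 0 && (Nat.beq b 0 || (Nat.beq (mulI a a) 0 && Nat.beq (mulI b b) 0))

theorem check1_ok : ((List.range 48).all fun a => (List.range 48).all fun b =>
    !cond1 a b || check1 a b) = true := by
  decide +kernel

def pm (M : IM) (u : IV) : Bool := decide (M.mv u = u) || decide (M.mv u = u.neg)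

def check2 (j s : ℕ) : Bool :=
  let c := code2 j s
  let H := cl j
  if Nat.blt c 16 then
    let u := us.getD c ⟨0, 0, 0⟩
    decide (u ≠ ⟨0, 0, 0⟩) && H.all (fun h => pm (G h) u) && pm (G s) u
  else
    let d := c - 16
    let sg := d % 2
    let h2 := (d / 2) % 48
    let h1 := (d / 96) % 48
    let r := (d / 4608) % 39
    let n := d / 179712
    let L := hls.getD r []
    let p := sis.getD r (0, 0)
    let t := if Nat.beq sg 0 then p.1 else p.2
    Nat.blt n 48 && H.all (fun h => L.contains (conjI n h)) &&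
      L.all (fun h => H.contains (conjI (invI n) h)) && L.contains h1 && L.contains h2 &&
      Nat.beq (conjI n s) (mulI (mulI h1 t) h2)

theorem check2_ok : ((List.range 23).all fun j => (List.range 48).all fun s =>
    check2 j s) = true := by
  decide +kernel

theorem cls_ok : (cls.all fun L => L.all (fun h => Nat.blt h 48)) = true := by decide +kernel

theorem hls_ok : (hls.all fun L => L.contains 0 && L.all (fun h => Nat.blt h 48 && L.all (fun h' =>
    L.contains (mulI h h')))) = true := by decide +kernel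

theorem sis_ok : (sis.all fun p => Nat.blt p.1 48 && Nat.blt p.2 48) = true := by decide +kernel

theorem link1 : cubRows.map (fun x => x.1.hl) = hls.map (fun l => l.map G) := by decide +kernel

theorem link2 : cubRows.map (fun x => (x.1.S, x.1.Si)) = sis.map (fun p => (G p.1, G p.2)) := by
  decide +kernel

theorem len1 : cubBlocks.length = 39 := rfl

theorem len2 : cubRows.length = 39 := rfl

theorem cl_lt {j h : ℕ} (hh : h ∈ cl j) : h < 48 := by
  have hL : cl j ∈ cls ∨ cl j = [] := by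
    unfold cl
    by_cases hj : j < cls.length
    · left
      rw [List.getD_eq_getElem _ _ hj]
      exact List.getElem_mem _
    · right
      exact List.getD_eq_default _ _ (not_lt.1 hj)
  rcases hL with hL | hL
  · have h1 := List.all_eq_true.1 (List.all_eq_true.1 cls_ok _ hL) h hh
    simpa using h1
  · rw [hL] at hh
    exact absurd hh List.not_mem_nil

theorem hls_len : hls.length = 39 := rfl

theorem sis_len : sis.length = 39 := rfl

theorem row_hl {r : ℕ} (hr : r < 39) :
    (cubRows[r]'(by rw [len2]; exact hr)).1.hl = (hls.getD r []).map G := by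
  have h := congrArg (fun l => l[r]?) link1
  simp only [List.getElem?_map] at h
  rw [List.getElem?_eq_getElem (by rw [len2]; exact hr),
    List.getElem?_eq_getElem (by rw [hls_len]; exact hr)] at h
  rw [List.getD_eq_getElem _ _ (by rw [hls_len]; exact hr)]
  simpa using h

theorem row_S {r : ℕ} (hr : r < 39) :
    (cubRows[r]'(by rw [len2]; exact hr)).1.S = G (sis.getD r (0, 0)).1 ∧
    (cubRows[r]'(by rw [len2]; exact hr)).1.Si = G (sis.getD r (0, 0)).2 := by
  have h := congrArg (fun l => l[r]?) link2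
  simp only [List.getElem?_map] at h
  rw [List.getElem?_eq_getElem (by rw [len2]; exact hr),
    List.getElem?_eq_getElem (by rw [sis_len]; exact hr)] at h
  rw [List.getD_eq_getElem _ _ (by rw [sis_len]; exact hr)]
  simpa using h

theorem sis_lt {r : ℕ} (hr : r < 39) :
    (sis.getD r (0, 0)).1 < 48 ∧ (sis.getD r (0, 0)).2 < 48 := by
  rw [List.getD_eq_getElem _ _ (by rw [sis_len]; exact hr)]
  have h := List.all_eq_true.1 sis_ok _ (List.getElem_mem (l := sis) (n := r)
    (by rw [sis_len]; exact hr))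
  simpa using h

theorem hls_fact {r : ℕ} (hr : r < 39) : 0 ∈ hls.getD r [] ∧ ∀ h ∈ hls.getD r [], h < 48 ∧
    ∀ h' ∈ hls.getD r [], mulI h h' ∈ hls.getD r [] := by
  rw [List.getD_eq_getElem _ _ (by rw [hls_len]; exact hr)]
  have h := List.all_eq_true.1 hls_ok _ (List.getElem_mem (l := hls) (n := r)
    (by rw [hls_len]; exact hr))
  simp only [Bool.and_eq_true, List.all_eq_true, List.contains_iff_mem, Nat.blt_eq] at h
  exact h

theorem exists_zip {r : ℕ} (hr : r < 39) : ∃ x ∈ cubBlocks.zip cubRows,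
    x.2 = cubRows[r]'(by rw [len2]; exact hr) := by
  have hlen : (cubBlocks.zip cubRows).length = 39 := by
    rw [List.length_zip, len1, len2, min_self]
  refine ⟨(cubBlocks.zip cubRows)[r]'(by rw [hlen]; exact hr), List.getElem_mem _, ?_⟩
  rw [List.getElem_zip]

theorem gen_iff {r a b : ℕ} (hr : r < 39) (ha : a ∈ hls.getD r []) (hb : b ∈ hls.getD r [])
    (h : ∀ x ∈ hls.getD r [], GenBy [G a, G b] (G x)) (M : IM) :
    GenBy [G a, G b] M ↔ M ∈ (hls.getD r []).map G := by
  obtain ⟨f0, f1⟩ := hls_fact hr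
  constructor
  · intro hM
    induction hM with
    | one => exact List.mem_map.2 ⟨0, f0, rfl⟩
    | @mul M M' hM _ ih =>
      obtain ⟨y, hy, rfl⟩ := List.mem_map.1 ih
      rw [List.mem_cons, List.mem_singleton] at hM
      rcases hM with rfl | rfl
      · refine List.mem_map.2 ⟨mulI a y, (f1 a ha).2 y hy, ?_⟩
        exact (G_mul (f1 a ha).1 (f1 y hy).1).2
      · refine List.mem_map.2 ⟨mulI b y, (f1 b hb).2 y hy, ?_⟩
        exact (G_mul (f1 b hb).1 (f1 y hy).1).2
  · intro hM
    obtain ⟨y, hy, rfl⟩ := List.mem_map.1 hM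
    exact h y hy

end RRC

open RRC

theorem rowred_cub {A B S : IM} (hA : A ∈ cubAuts) (hB : B ∈ cubAuts) (hS : S ∈ cubAuts)
    (h1 : A ≠ IM.one) (h2 : B = IM.one ∨ (A.mul A = IM.one ∧ B.mul B = IM.one)) :
    (∃ u : IV, u ≠ ⟨0, 0, 0⟩ ∧ ∀ M ∈ [A, B, S], M.mv u = u ∨ M.mv u = u.neg) ∨
    ∃ N ∈ conjs .cub, ∃ x ∈ cubBlocks.zip cubRows, RedTo A B S N x.2.1 := by
  obtain ⟨a, ha, rfl⟩ := exists_G hA
  obtain ⟨b, hb, rfl⟩ := exists_G hB
  obtain ⟨s, hs, rfl⟩ := exists_G hS
  have e0 : G 0 = IM.one := rfl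
  have ha0 : a ≠ 0 := by
    rintro rfl
    exact h1 e0
  have hcond : cond1 a b = true := by
    have h3 : b = 0 ∨ (mulI a a = 0 ∧ mulI b b = 0) := by
      rcases h2 with h2 | ⟨h2, h2'⟩
      · left
        exact G_inj hb (by omega) (h2.trans e0.symm)
      · right
        refine ⟨G_inj (G_mul ha ha).1 (by omega) ?_, G_inj (G_mul hb hb).1 (by omega) ?_⟩
        · rw [(G_mul ha ha).2, h2, e0]
        · rw [(G_mul hb hb).2, h2', e0]
    unfold cond1
    simp only [Bool.and_eq_true, Bool.or_eq_true, Nat.beq_eq, Bool.not_eq_true',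
      ← Bool.not_eq_true]
    exact ⟨ha0, h3⟩
  have hc1 := List.all_eq_true.1 (List.all_eq_true.1 check1_ok a (List.mem_range.2 ha)) b
    (List.mem_range.2 hb)
  rw [hcond, Bool.not_true, Bool.false_or] at hc1
  unfold check1 at hc1
  simp only [Bool.and_eq_true, List.all_eq_true, List.any_eq_true, Bool.or_eq_true, Nat.beq_eq,
    Nat.blt_eq, List.contains_iff_mem] at hc1
  obtain ⟨⟨⟨⟨hn, hj⟩, ha'⟩, hb'⟩, hgen⟩ := hc1
  generalize code1 a b / 32 = n at *
  generalize code1 a b % 32 = j at *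
  have hcl : ∀ h ∈ cl j, GenBy [G (conjI n a), G (conjI n b)] (G h) := by
    intro h hh
    obtain ⟨k, -, hk | hk⟩ := hgen h hh
    · rw [← hk]
      exact (wd_ok (conj_lt hn ha) (conj_lt hn hb) k).2.1
    · rw [← hk]
      exact (wd_ok (conj_lt hn hb) (conj_lt hn ha) k).2.2
  have hs' := conj_lt hn hs
  have hc2 := List.all_eq_true.1 (List.all_eq_true.1 check2_ok j (List.mem_range.2 hj)) _
    (List.mem_range.2 hs')
  unfold check2 at hc2
  generalize code2 j (conjI n s) = c at hc2
  obtain ⟨hni, hnn, hnn'⟩ := G_inv hn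
  dsimp only at hc2
  by_cases hc : Nat.blt c 16 = true
  · -- a common axis
    rw [if_pos hc] at hc2
    left
    simp only [Bool.and_eq_true, List.all_eq_true, decide_eq_true_eq] at hc2
    obtain ⟨⟨hu, hH⟩, hSu⟩ := hc2
    generalize us.getD c ⟨0, 0, 0⟩ = u at hu hH hSu
    have key : ∀ x < 48, pm (G (conjI n x)) u = true →
        (G x).mv ((G (invI n)).mv u) = (G (invI n)).mv u ∨
        (G x).mv ((G (invI n)).mv u) = ((G (invI n)).mv u).neg := by
      intro x hx hp
      have e1 : (G x).mul (G (invI n)) = (G (invI n)).mul (G (conjI n x)) := by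
        rw [G_conj hn hx, ← mul_assoc', ← mul_assoc', hnn', one_mul']
      rw [← mv_mul, e1, mv_mul, ← mv_neg]
      unfold pm at hp
      rw [Bool.or_eq_true, decide_eq_true_eq, decide_eq_true_eq] at hp
      rcases hp with hp | hp
      · left; rw [hp]
      · right; rw [hp]
    refine ⟨(G (invI n)).mv u, ?_, ?_⟩
    · intro h0
      apply hu
      have e1 : (G n).mv ((G (invI n)).mv u) = u := by
        rw [← mv_mul, hnn, one_mv]
      rw [← e1, h0, mv_zero]
    · intro M hM
      simp only [List.mem_cons, List.not_mem_nil, or_false] at hM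
      rcases hM with rfl | rfl | rfl
      · exact key a ha (hH _ ha')
      · exact key b hb (hH _ hb')
      · exact key s hs hSu
  · -- a row of the table
    rw [if_neg hc] at hc2
    right
    simp only [Bool.and_eq_true, List.all_eq_true, Nat.beq_eq, Nat.blt_eq,
      List.contains_iff_mem] at hc2
    obtain ⟨⟨⟨⟨⟨hn2, hH⟩, hL⟩, hh1⟩, hh2⟩, hfin⟩ := hc2
    have hr : (c - 16) / 4608 % 39 < 39 := Nat.mod_lt _ (by omega)
    generalize (c - 16) / 4608 % 39 = r at *
    generalize (c - 16) / 179712 = n2 at *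
    generalize (c - 16) / 96 % 48 = y1 at *
    generalize (c - 16) / 2 % 48 = y2 at *
    obtain ⟨hn2i, hm, hm'⟩ := G_inv hn2
    obtain ⟨f0, f1⟩ := hls_fact hr
    obtain ⟨x, hx, hxr⟩ := exists_zip hr
    have hN := G_mul hn2 hn
    refine ⟨G (mulI n2 n), G_mem hN.1, x, hx, ?_⟩
    rw [hxr]
    have hcomm : ∀ y < 48, (G (mulI n2 n)).mul (G y) =
        (G (conjI n2 (conjI n y))).mul (G (mulI n2 n)) := by
      intro y hy
      rw [hN.2, mul_assoc', conj_comm hn hy, ← mul_assoc', conj_comm hn2 (conj_lt hn hy),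
        mul_assoc']
    refine ⟨G (conjI n2 (conjI n a)), G (conjI n2 (conjI n b)), G (conjI n2 (conjI n s)),
      hcomm a ha, hcomm b hb, hcomm s hs, ?_, ?_⟩
    · intro M
      rw [row_hl hr]
      refine gen_iff hr (hH _ ha') (hH _ hb') ?_ M
      intro y hy
      have hy48 := (f1 y hy).1
      have h3 := hcl _ (hL y hy)
      have h4 := genBy_conj hm hm' h3
      rw [G_conj hn2 (conj_lt hn ha), G_conj hn2 (conj_lt hn hb)]
      have h5 : ((G n2).mul (G (conjI (invI n2) y))).mul (G (invI n2)) = G y := by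
        rw [G_conj hn2i hy48]
        have h6 : invI (invI n2) < 48 ∧ _ := G_inv hn2i
        have h7 : G (invI (invI n2)) = G n2 := by
          have h8 := h6.2.1
          calc G (invI (invI n2)) = ((G n2).mul (G (invI n2))).mul (G (invI (invI n2))) := by
                rw [hm, one_mul']
            _ = G n2 := by rw [mul_assoc', h8, mul_one']
        rw [h7, ← mul_assoc', ← mul_assoc', hm, one_mul', mul_assoc', hm, mul_one']
      rw [h5] at h4
      exact h4
    · rw [row_hl hr, (row_S hr).1, (row_S hr).2]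
      have hs1 := (sis_lt hr).1
      have hs2 := (sis_lt hr).2
      refine ⟨G y1, List.mem_map.2 ⟨y1, hh1, rfl⟩, G y2, List.mem_map.2 ⟨y2, hh2, rfl⟩, ?_⟩
      rw [hfin]
      split_ifs with hsg
      · left
        rw [(G_mul (G_mul (f1 _ hh1).1 hs1).1 (f1 _ hh2).1).2, (G_mul (f1 _ hh1).1 hs1).2]
      · right
        rw [(G_mul (G_mul (f1 _ hh1).1 hs2).1 (f1 _ hh2).1).2, (G_mul (f1 _ hh1).1 hs2).2]

end Pool.Agent.H21.FT
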