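import Pool.Agent.H21.FT.CompleteOrt
import Pool.Agent.H21.FT.RowRedCub
import Pool.Agent.H21.FT.KerCub
import Pool.Agent.H21.FT.RowCub

/-!
# Completeness of the cubic blocks
-/

namespace Pool.Agent.H21.FT

open Matrix

theorem complete_cub {A B s : Equiv.Perm V3} {Am Bm Sm : IM} {v : V3} (hAm : Am ∈ cubAuts)
    (hBm : Bm ∈ cubAuts) (hSm : Sm ∈ cubAuts) (hA : IsAff A Am.mat 0) (hB : IsAff B Bm.mat 0)
    (hs : IsAff s Sm.mat v) (hd : Disc (grp A B s))
    (hst : ∀ g ∈ grp A B s, g 0 = 0 → g ∈ stab A B)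
    (hirr : ∀ u : V3, u ≠ 0 → ∃ M ∈ lin (grp A B s), M *ᵥ u ≠ u ∧ M *ᵥ u ≠ -u)
    (ht : ∃ t : V3, t ≠ 0 ∧ IsTrans (grp A B s) t) (hA1 : A ≠ 1)
    (hAB : B = 1 ∨ (A * A = 1 ∧ B * B = 1)) : ConcK .cub A B s := by
  rcases rowred_cub hAm hBm hSm (cc_ne_one hA hA1) (cc_rel hA hB hAB) with
    ⟨u, hu0, hu⟩ | ⟨N, hN, x, hx, hred⟩
  · exfalso
    have hu1 : u.vec ≠ 0 := by
      intro h
      apply hu0
      obtain ⟨a, b, c⟩ := u
      have h0 := congrFun h 0
      have h1 := congrFun h 1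
      have h2 := congrFun h 2
      simp only [IV.vec, Matrix.cons_val_zero, Matrix.cons_val_one, Matrix.cons_val,
        Pi.zero_apply, Int.cast_eq_zero] at h0 h1 h2
      rw [h0, h1, h2]
    obtain ⟨M, hM, hM1, hM2⟩ := hirr u.vec hu1
    have hu' : ∀ M ∈ [Am, Bm, Sm], M.mat *ᵥ u.vec = u.vec ∨ M.mat *ᵥ u.vec = -u.vec := by
      intro M hM
      rw [cc_mv, ← cc_neg]
      rcases hu M hM with h | h
      · left
        rw [h]
      · right
        rw [h]
    rcases cc_line hA hB hs (hu' Am (by simp)) (hu' Bm (by simp)) (hu' Sm (by simp)) hM with h | h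
    · exact hM1 h
    · exact hM2 h
  · have hb : x.1 ∈ table := by
      have h1 := (List.of_mem_zip (show (x.1, x.2) ∈ cubBlocks.zip cubRows from hx)).1
      simp only [table, List.mem_append]
      exact Or.inl (Or.inl (Or.inl h1))
    have hblk := cub_ok.2 x hx
    have hok := hblk.ok
    have hNd := conjs_det hN
    have hNi : N.mat⁻¹ * N.mat = 1 := Matrix.nonsing_inv_mul _ hNd.isUnit
    have hNj : N.mat * N.mat⁻¹ = 1 := Matrix.mul_nonsing_inv _ hNd.isUnit
    refine conck_of_row hA hB hs hN hb hblk hred ?_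
    intro f t w hf htw hstab hgrp hlink
    refine row_cub hx htw ?_ ?_ ?_
    · rw [← hgrp, grp_cnj]
      exact cc_disc hf hNi hd
    · apply (Row.stab_iff hok htw).1
      intro g hg hg0
      rw [← hgrp, grp_cnj] at hg
      obtain ⟨g0, hg0', rfl⟩ := cc_map_conj.1 hg
      rw [← hstab, stab_cnj]
      refine cc_map_conj.2 ⟨g0, hst g0 hg0' ?_, rfl⟩
      rw [Equiv.Perm.mul_apply, Equiv.Perm.mul_apply, cc_inv_zero hf] at hg0
      apply f.injective
      rw [hg0, cc_zero hf]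
    · obtain ⟨t0, ht0, τ, hτ, hτ'⟩ := ht
      refine ⟨N.mat *ᵥ t0, (Row.trans_iff hok htw).1 ⟨f * τ * f⁻¹, ?_, ?_⟩, ?_⟩
      · rw [← hgrp, grp_cnj]
        exact cc_map_conj.2 ⟨τ, hτ, rfl⟩
      · intro y
        have e1 : N.mat *ᵥ (f⁻¹ y) = y := by
          have := hf (f⁻¹ y)
          rw [cc_apply_inv, add_zero] at this
          exact this.symm
        rw [Equiv.Perm.mul_apply, Equiv.Perm.mul_apply, hf, hτ', one_mulVec, one_mulVec,
          mulVec_add, e1, add_zero]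
      · intro h
        apply ht0
        have h1 : N.mat⁻¹ *ᵥ (N.mat *ᵥ t0) = 0 := by rw [h, mulVec_zero]
        rwa [mulVec_mulVec, hNi, one_mulVec] at h1

end Pool.Agent.H21.FT
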