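import Pool.Agent.H21.FT.DefsE
import Pool.Agent.H21.FT.RowFacts
import Pool.Agent.H21.FT.RowRedAx
import Pool.Agent.H21.FT.KerAx
import Pool.Agent.H21.FT.Cnj
import Pool.Agent.H21.FT.Transfer
import Pool.Agent.H21.FT.Easy

/-!
# Completeness of the orthogonal blocks
-/

namespace Pool.Agent.H21.FT

open Matrix

/-! ### Conjugation by a linear map -/

theorem cc_apply_inv (g : Equiv.Perm V3) (x : V3) : g (g⁻¹ x) = x :=
  g.apply_symm_apply x

theorem cc_zero {f : Equiv.Perm V3} {Q : M3} (hf : IsAff f Q 0) : f 0 = 0 := by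
  rw [hf, mulVec_zero, zero_add]

theorem cc_inv_zero {f : Equiv.Perm V3} {Q : M3} (hf : IsAff f Q 0) : f⁻¹ 0 = 0 := by
  rw [Equiv.Perm.inv_eq_iff_eq, cc_zero hf]

theorem cc_map_conj {f : Equiv.Perm V3} {G : Subgroup (Equiv.Perm V3)}
    {g : Equiv.Perm V3} :
    g ∈ G.map (MulAut.conj f).toMonoidHom ↔ ∃ h ∈ G, g = f * h * f⁻¹ := by
  rw [Subgroup.mem_map]
  constructor
  · rintro ⟨h, hh, rfl⟩
    exact ⟨h, hh, by simp⟩
  · rintro ⟨h, hh, rfl⟩
    exact ⟨h, hh, by simp⟩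

theorem cc_disc {Γ : Subgroup (Equiv.Perm V3)} {f : Equiv.Perm V3} {Q R : M3}
    (hf : IsAff f Q 0) (hR : R * Q = 1) (hd : Disc Γ) :
    Disc (Γ.map (MulAut.conj f).toMonoidHom) := by
  intro K
  refine ((hd (∑ i, ∑ j, |R i j| * |K|)).image fun g : Equiv.Perm V3 => f * g * f⁻¹).subset ?_
  rintro g ⟨hg, hb⟩
  obtain ⟨h, hh, rfl⟩ := cc_map_conj.1 hg
  refine ⟨h, ⟨hh, ?_⟩, rfl⟩
  intro i
  have e : (f * h * f⁻¹) 0 = Q *ᵥ h 0 := by
    rw [Equiv.Perm.mul_apply, Equiv.Perm.mul_apply, cc_inv_zero hf, hf, add_zero]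
  have e2 : h 0 = R *ᵥ ((f * h * f⁻¹) 0) := by rw [e, mulVec_mulVec, hR, one_mulVec]
  rw [e2, mulVec, dotProduct]
  calc |∑ j, R i j * (f * h * f⁻¹) 0 j| ≤ ∑ j, |R i j * (f * h * f⁻¹) 0 j| :=
        Finset.abs_sum_le_sum_abs _ _
    _ ≤ ∑ j, |R i j| * |K| := by
        apply Finset.sum_le_sum
        intro j _
        rw [abs_mul]
        exact mul_le_mul_of_nonneg_left ((hb j).trans (le_abs_self K)) (abs_nonneg _)
    _ ≤ ∑ i, ∑ j, |R i j| * |K| := by
        apply Finset.single_le_sum (f := fun i => ∑ j, |R i j| * |K|) _ (Finset.mem_univ i)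
        intro i _
        exact Finset.sum_nonneg fun j _ => mul_nonneg (abs_nonneg _) (abs_nonneg _)

theorem cc_mv (M : IM) (u : IV) : M.mat *ᵥ u.vec = (M.mv u).vec := by
  ext i
  fin_cases i <;>
    simp [IM.mat, IM.mv, IV.vec, IV.dot, mulVec, dotProduct, Fin.sum_univ_three]

theorem cc_neg (u : IV) : u.neg.vec = -u.vec := by
  ext i
  fin_cases i <;> simp [IV.vec, IV.neg]

theorem cc_ne_one {A : Equiv.Perm V3} {Am : IM} (hA : IsAff A Am.mat 0) (hA1 : A ≠ 1) :
    Am ≠ IM.one := by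
  rintro rfl
  apply hA1
  rw [rf_one_mat] at hA
  exact rf_ext hA rf_one

theorem cc_rel {A B : Equiv.Perm V3} {Am Bm : IM} (hA : IsAff A Am.mat 0)
    (hB : IsAff B Bm.mat 0) (hAB : B = 1 ∨ (A * A = 1 ∧ B * B = 1)) :
    Bm = IM.one ∨ (Am.mul Am = IM.one ∧ Bm.mul Bm = IM.one) := by
  rcases hAB with h | ⟨h, h'⟩
  · left
    subst h
    exact rf_mat_inj (by rw [(rf_unique hB rf_one).1, rf_one_mat])
  · right
    constructor
    · have e := rf_mul hA hA
      rw [h] at e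
      apply rf_mat_inj
      rw [rf_mul_mat, (rf_unique e rf_one).1, rf_one_mat]
    · have e := rf_mul hB hB
      rw [h'] at e
      apply rf_mat_inj
      rw [rf_mul_mat, (rf_unique e rf_one).1, rf_one_mat]

/-- a vector that all generators map to itself or its negative -/
theorem cc_line {A B s : Equiv.Perm V3} {Am Bm Sm : IM} {v : V3} {u : V3}
    (hA : IsAff A Am.mat 0) (hB : IsAff B Bm.mat 0) (hs : IsAff s Sm.mat v)
    (hAu : Am.mat *ᵥ u = u ∨ Am.mat *ᵥ u = -u) (hBu : Bm.mat *ᵥ u = u ∨ Bm.mat *ᵥ u = -u)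
    (hSu : Sm.mat *ᵥ u = u ∨ Sm.mat *ᵥ u = -u) {M : M3} (hM : M ∈ lin (grp A B s)) :
    M *ᵥ u = u ∨ M *ᵥ u = -u := by
  have gen : ∀ (g : Equiv.Perm V3) (M : M3) (a : V3), IsAff g M a →
      (M *ᵥ u = u ∨ M *ᵥ u = -u) → ((∀ (c : ℝ) x, g (x + c • u) = g x + c • u) ∨
      ∀ (c : ℝ) x, g (x + c • u) = g x + (-c) • u) := by
    intro g M a hg h
    rcases h with h | h
    · left
      intro c x
      rw [hg, hg, mulVec_add, mulVec_smul, h]
      abel
    · right
      intro c x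
      rw [hg, hg, mulVec_add, mulVec_smul, h, smul_neg, neg_smul]
      abel
  have key : ∀ g ∈ grp A B s, ((∀ (c : ℝ) x, g (x + c • u) = g x + c • u) ∨
      ∀ (c : ℝ) x, g (x + c • u) = g x + (-c) • u) := by
    intro g hg
    induction hg using Subgroup.closure_induction with
    | mem g hg =>
      rcases hg with rfl | rfl | rfl
      · exact gen _ _ _ hA hAu
      · exact gen _ _ _ hB hBu
      · exact gen _ _ _ hs hSu
    | one => exact Or.inl fun c x => rfl
    | mul g h _ _ hg hh =>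
      rcases hg with hg | hg <;> rcases hh with hh | hh
      · exact Or.inl fun c x => by
          rw [Equiv.Perm.mul_apply, Equiv.Perm.mul_apply, hh, hg]
      · exact Or.inr fun c x => by
          rw [Equiv.Perm.mul_apply, Equiv.Perm.mul_apply, hh, hg]
      · exact Or.inr fun c x => by
          rw [Equiv.Perm.mul_apply, Equiv.Perm.mul_apply, hh, hg]
      · exact Or.inl fun c x => by
          rw [Equiv.Perm.mul_apply, Equiv.Perm.mul_apply, hh, hg, neg_neg]
    | inv g _ hg =>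
      rcases hg with hg | hg
      · refine Or.inl fun c x => ?_
        rw [Equiv.Perm.inv_eq_iff_eq, hg, cc_apply_inv]
      · refine Or.inr fun c x => ?_
        rw [Equiv.Perm.inv_eq_iff_eq, hg, cc_apply_inv, neg_neg]
  obtain ⟨g, hg, a, hga⟩ := hM
  have e0 : g 0 = a := by rw [hga, mulVec_zero, zero_add]
  rcases key g hg with h | h
  · left
    have h1 := h 1 0
    rw [zero_add, one_smul, e0, hga, add_comm a] at h1
    exact add_right_cancel h1
  · right
    have h1 := h 1 0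
    rw [zero_add, one_smul, e0, hga, add_comm a, neg_smul, one_smul] at h1
    exact add_right_cancel h1

/-! ### The orthogonal case -/

/-- the diagonal entries -/
private def dg (M : IM) : V3 := ![(M.a.x : ℝ), (M.b.y : ℝ), (M.c.z : ℝ)]

private theorem ort_spec {M : IM} (h : M ∈ ortAuts) :
    (∀ i, dg M i = 1 ∨ dg M i = -1) ∧ ∀ (x : V3) i, (M.mat *ᵥ x) i = dg M i * x i := by
  simp only [ortAuts, List.mem_cons, List.not_mem_nil, or_false] at h
  rcases h with rfl | rfl | rfl | rfl | rfl | rfl | rfl | rfl <;>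
  · constructor
    · intro i
      fin_cases i <;> simp [dg]
    · intro x i
      fin_cases i <;> simp [dg, IM.mat, mulVec, dotProduct, Fin.sum_univ_three]

/-- the coordinates `i` and `j` behave in the same way -/
private theorem ort_same {A B s : Equiv.Perm V3} {a b c v : V3}
    (ha : ∀ i, a i = 1 ∨ a i = -1) (hb : ∀ i, b i = 1 ∨ b i = -1) (hc : ∀ i, c i = 1 ∨ c i = -1)
    (hA : ∀ x i, (A x) i = a i * x i) (hB : ∀ x i, (B x) i = b i * x i)
    (hs : ∀ x i, (s x) i = c i * x i + v i) {i j : Fin 3} (h1 : a i = a j) (h2 : b i = b j)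
    (h3 : c i = c j) {g : Equiv.Perm V3} (hg : g ∈ grp A B s) :
    ∃ e d : ℝ, (e = 1 ∨ e = -1) ∧ ∀ x, (g x) i = e * x i + d * v i ∧
      (g x) j = e * x j + d * v j := by
  induction hg using Subgroup.closure_induction with
  | mem g hg =>
    rcases hg with rfl | rfl | rfl
    · exact ⟨a i, 0, ha i, fun x => ⟨by rw [hA]; ring, by rw [hA, h1]; ring⟩⟩
    · exact ⟨b i, 0, hb i, fun x => ⟨by rw [hB]; ring, by rw [hB, h2]; ring⟩⟩
    · exact ⟨c i, 1, hc i, fun x => ⟨by rw [hs]; ring, by rw [hs, h3]; ring⟩⟩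
  | one => exact ⟨1, 0, Or.inl rfl, fun x => ⟨by simp, by simp⟩⟩
  | mul g h _ _ hg hh =>
    obtain ⟨e, d, he, hg⟩ := hg
    obtain ⟨e', d', he', hh⟩ := hh
    refine ⟨e * e', e * d' + d, ?_, fun x => ?_⟩
    · rcases he with rfl | rfl <;> rcases he' with rfl | rfl <;> simp
    · rw [Equiv.Perm.mul_apply, (hg _).1, (hg _).2, (hh x).1, (hh x).2]
      constructor <;> ring
  | inv g _ hg =>
    obtain ⟨e, d, he, hg⟩ := hg
    have hee : e * e = 1 := by rcases he with rfl | rfl <;> norm_num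
    refine ⟨e, -(e * d), he, fun x => ?_⟩
    have h1 := hg (g⁻¹ x)
    rw [cc_apply_inv] at h1
    constructor
    · rw [h1.1]
      linear_combination (-(g⁻¹ x i)) * hee
    · rw [h1.2]
      linear_combination (-(g⁻¹ x j)) * hee

/-- different coordinates behave differently -/
private theorem ort_ne {A B s : Equiv.Perm V3} {a b c v : V3}
    (ha : ∀ i, a i = 1 ∨ a i = -1) (hb : ∀ i, b i = 1 ∨ b i = -1) (hc : ∀ i, c i = 1 ∨ c i = -1)
    (hA : ∀ x i, (A x) i = a i * x i) (hB : ∀ x i, (B x) i = b i * x i)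
    (hs : ∀ x i, (s x) i = c i * x i + v i) (hsp : Spans {x | ∃ g ∈ grp A B s, x = g 0})
    (i : Fin 3) : v i ≠ 0 ∧ ∀ j, j ≠ i → ¬ (a i = a j ∧ b i = b j ∧ c i = c j) := by
  have hv : v i ≠ 0 := by
    intro hv
    obtain ⟨x, ⟨g, hg, rfl⟩, hx⟩ := hsp (Pi.single i 1) (by simp)
    apply hx
    obtain ⟨e, d, -, h⟩ := ort_same ha hb hc hA hB hs (i := i) (j := i) rfl rfl rfl hg
    rw [single_dotProduct, one_mul, (h 0).1, hv]
    simp
  refine ⟨hv, fun j hj ⟨h1, h2, h3⟩ => ?_⟩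
  obtain ⟨x, ⟨g, hg, rfl⟩, hx⟩ := hsp (Pi.single i (v j) - Pi.single j (v i)) (by
    intro h
    have h4 := congrFun h j
    simp [hj] at h4
    exact hv h4)
  apply hx
  obtain ⟨e, d, -, h⟩ := ort_same ha hb hc hA hB hs h1 h2 h3 hg
  rw [sub_dotProduct, single_dotProduct, single_dotProduct, (h 0).1, (h 0).2]
  simp only [Pi.zero_apply, mul_zero, zero_add]
  ring

private theorem conjs_ort {N : IM} (h : N ∈ conjs .ort) {v : V3} (hv : ∀ i, v i ≠ 0) (i : Fin 3) :
    (N.mat *ᵥ v) i ≠ 0 := by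
  simp only [conjs, List.mem_cons, List.not_mem_nil, or_false] at h
  rcases h with rfl | rfl | rfl | rfl | rfl | rfl <;>
    fin_cases i <;> simp [IM.mat, mulVec, dotProduct, Fin.sum_univ_three, hv]

theorem complete_ort {A B s : Equiv.Perm V3} {Am Bm Sm : IM} {v : V3} (hAm : Am ∈ ortAuts)
    (hBm : Bm ∈ ortAuts) (hSm : Sm ∈ ortAuts) (hA : IsAff A Am.mat 0) (hB : IsAff B Bm.mat 0)
    (hs : IsAff s Sm.mat v) (hsp : Spans {x | ∃ g ∈ grp A B s, x = g 0}) (hA1 : A ≠ 1) :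
    ConcK .ort A B s := by
  obtain ⟨a1, a2⟩ := ort_spec hAm
  obtain ⟨b1, b2⟩ := ort_spec hBm
  obtain ⟨c1, c2⟩ := ort_spec hSm
  have hne := ort_ne (A := A) (B := B) (s := s) (v := v) a1 b1 c1
    (fun x i => by rw [hA, add_zero, a2]) (fun x i => by rw [hB, add_zero, b2])
    (fun x i => by rw [hs, Pi.add_apply, c2]) hsp
  have hv : ∀ i, v i ≠ 0 := fun i => (hne i).1
  have h12 : (Am.a.x, Bm.a.x, Sm.a.x) ≠ (Am.b.y, Bm.b.y, Sm.b.y) := by
    intro h
    simp only [Prod.mk.injEq] at h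
    refine (hne 0).2 1 (by decide) ⟨?_, ?_, ?_⟩ <;> simp [dg, h]
  have h13 : (Am.a.x, Bm.a.x, Sm.a.x) ≠ (Am.c.z, Bm.c.z, Sm.c.z) := by
    intro h
    simp only [Prod.mk.injEq] at h
    refine (hne 0).2 2 (by decide) ⟨?_, ?_, ?_⟩ <;> simp [dg, h]
  have h23 : (Am.b.y, Bm.b.y, Sm.b.y) ≠ (Am.c.z, Bm.c.z, Sm.c.z) := by
    intro h
    simp only [Prod.mk.injEq] at h
    refine (hne 1).2 2 (by decide) ⟨?_, ?_, ?_⟩ <;> simp [dg, h]
  obtain ⟨N, hN, x, hx, hred⟩ := rowred_ort hAm hBm hSm (cc_ne_one hA hA1) h12 h13 h23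
  have hb : x.1 ∈ table := by
    have h1 := (List.of_mem_zip (show (x.1, x.2) ∈ ortBlocks.zip ortRows from hx)).1
    simp only [table, List.mem_append]
    exact Or.inr h1
  have hblk := ort_ok.2 x hx
  have hok := hblk.ok
  refine conck_of_row hA hB hs hN hb hblk hred ?_
  intro f t w hf htw hstab hgrp hlink
  have hw : ∀ i, w i ≠ 0 := by
    intro i hwi
    have hlin : ∀ h ∈ linGrp x.2.1.gens, ∀ y : V3, y i = 0 → (h y) i = 0 := by
      intro h hh y hy
      obtain ⟨M, hM, hhM⟩ := (Row.mem_H hok).1 hh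
      rw [Row.hl, List.mem_map] at hM
      obtain ⟨p, hp, rfl⟩ := hM
      have hp' := hblk.auts p (List.mem_of_mem_take hp)
      rw [hhM, add_zero, (ort_spec hp').2, hy, mul_zero]
    have hS : x.2.1.S ∈ ortAuts := by
      have h1 : t ∈ x.2.1.grp t := Subgroup.mem_sup_right (Subgroup.mem_zpowers t)
      obtain ⟨p, hp, y, -, h2⟩ := Row.form hok htw h1
      rw [rf_mat_inj (rf_unique htw h2).1]
      exact hblk.auts p hp
    have ht1 : ∀ y : V3, y i = 0 → (t y) i = 0 := by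
      intro y hy
      rw [htw, Pi.add_apply, (ort_spec hS).2, hy, hwi, mul_zero, add_zero]
    have ht2 : ∀ y : V3, y i = 0 → (t⁻¹ y) i = 0 := by
      intro y hy
      have h1 := congrFun (htw (t⁻¹ y)) i
      rw [cc_apply_inv, Pi.add_apply, (ort_spec hS).2, hwi, add_zero, hy] at h1
      rcases (ort_spec hS).1 i with h2 | h2
      · rw [h2, one_mul] at h1
        exact h1.symm
      · rw [h2, neg_one_mul] at h1
        linarith
    apply conjs_ort hN hv i
    have e1 : (f * s * f⁻¹) 0 = N.mat *ᵥ v := by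
      rw [Equiv.Perm.mul_apply, Equiv.Perm.mul_apply, cc_inv_zero hf, hf, add_zero, hs,
        mulVec_zero, zero_add]
    rw [← e1]
    obtain ⟨h, hh, h', hh', e2 | e2⟩ := hlink
    · rw [e2, Equiv.Perm.mul_apply, Equiv.Perm.mul_apply]
      exact hlin h hh _ (ht1 _ (hlin h' hh' _ rfl))
    · rw [e2, Equiv.Perm.mul_apply, Equiv.Perm.mul_apply]
      exact hlin h hh _ (ht2 _ (hlin h' hh' _ rfl))
  exact row_ort hx (hw 0) (hw 1) (hw 2)

end Pool.Agent.H21.FT
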