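import Pool.Agent.H21.FT.Canon

/-!
# The base flags of the constructions c22, c4a and c4b
-/

namespace Pool.Agent.H21.FT

open Pool.Agent.H38.FT (Cfg)

variable {X : Type*}

namespace ConvB

variable {A B s : Equiv.Perm X} {o : X}

theorem inv_app (g : Equiv.Perm X) (x : X) : g⁻¹ (g x) = x := g.symm_apply_apply x

theorem app_inv (g : Equiv.Perm X) (x : X) : g (g⁻¹ x) = x := g.apply_symm_apply x

theorem rtg_symm {r : X → X → Prop} (hr : ∀ x y, r x y → r y x) {x y : X}
    (h : Relation.ReflTransGen r x y) : Relation.ReflTransGen r y x := by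
  induction h with
  | refl => exact Relation.ReflTransGen.refl
  | tail _ b c => exact Relation.ReflTransGen.head (hr _ _ b) c

theorem rtg_lift {r : X → X → Prop} (f : X → X) (hr : ∀ x y, r x y → r (f x) (f y)) {x y : X}
    (h : Relation.ReflTransGen r x y) : Relation.ReflTransGen r (f x) (f y) := by
  induction h with
  | refl => exact Relation.ReflTransGen.refl
  | tail _ b c => exact Relation.ReflTransGen.tail c (hr _ _ b)

theorem A_mem : A ∈ stab A B := Subgroup.subset_closure (by simp)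

theorem B_mem : B ∈ stab A B := Subgroup.subset_closure (by simp)

theorem s_mem : s ∈ grp A B s := Subgroup.subset_closure (by simp)

theorem stab_le : stab A B ≤ grp A B s := by
  unfold stab grp
  apply Subgroup.closure_mono
  intro x hx
  rcases hx with rfl | rfl <;> simp

theorem stab_fix (hA : A o = o) (hB : B o = o) {g : Equiv.Perm X} (hg : g ∈ stab A B) :
    g o = o := by
  refine Subgroup.closure_induction (p := fun g _ => g o = o) ?_ ?_ ?_ ?_ hg
  · rintro x (rfl | rfl)
    · exact hA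
    · exact hB
  · rfl
  · intro x y _ _ hx hy
    rw [Equiv.Perm.mul_apply, hy, hx]
  · intro x _ hx
    rw [Equiv.Perm.inv_eq_iff_eq, hx]

theorem act_mul (g h : Equiv.Perm X) (t : X × X × X) : act (g * h) t = act g (act h t) := rfl

theorem flags_act {Γ : Subgroup (Equiv.Perm X)} {β : Base X} {t : X × X × X}
    (ht : t ∈ flags Γ β) {g : Equiv.Perm X} (hg : g ∈ Γ) : act g t ∈ flags Γ β := by
  obtain ⟨k, hk, i, j, rfl⟩ := ht
  exact ⟨g * k, Γ.mul_mem hg hk, i, j, rfl⟩

theorem fl_mem {Γ : Subgroup (Equiv.Perm X)} {β : Base X} (i j : Bool) :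
    β.fl i j ∈ flags Γ β := ⟨1, Γ.one_mem, i, j, rfl⟩

theorem flags_swp {Γ : Subgroup (Equiv.Perm X)} {β : Base X}
    (hturn : ∀ i j, swp (β.fl i j) ∈ flags Γ β) {t : X × X × X}
    (ht : t ∈ flags Γ β) : swp t ∈ flags Γ β := by
  obtain ⟨k, hk, i, j, rfl⟩ := ht
  exact flags_act (hturn i j) hk

theorem flags_go {Γ : Subgroup (Equiv.Perm X)} {β : Base X} {t : X × X × X}
    (ht : t ∈ flags Γ β) : ∃ z, (t.2.1, t.1, z) ∈ flags Γ β := by
  obtain ⟨k, hk, i, j, rfl⟩ := ht
  refine ⟨(act k (β.fl (!i) j)).2.2, k, hk, !i, j, ?_⟩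
  cases i <;> cases j <;> rfl

/-- `Compat` follows from `edge` and distinctness. -/
theorem compat {Γ : Subgroup (Equiv.Perm X)} {β : Base X} (ow : β.o ≠ β.w) (b12 : β.b1 ≠ β.b2)
    (c12 : β.c1 ≠ β.c2)
    (edge : ∀ g ∈ Γ, (g β.o = β.o ∧ g β.w = β.w) ∨ (g β.o = β.w ∧ g β.w = β.o) →
      ∃ k l, ∀ i j, act g (β.fl i j) = β.fl (xor i k) (xor j l)) : Compat Γ β := by
  have inj : ∀ i j i' j', β.fl i j = β.fl i' j' → i = i' ∧ j = j' := by
    intro i j i' j' h
    have h1 := congrArg (fun t : X × X × X => t.1) h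
    have h2 := congrArg (fun t : X × X × X => t.2.2) h
    cases i <;> cases j <;> cases i' <;> cases j' <;> simp only [Base.fl] at h1 h2 <;>
      first
        | exact ⟨rfl, rfl⟩
        | exact absurd h1 ow
        | exact absurd h1.symm ow
        | exact absurd h2 b12
        | exact absurd h2.symm b12
        | exact absurd h2 c12
        | exact absurd h2.symm c12
  intro g hg i j i' j' h a b
  have hcase : (g β.o = β.o ∧ g β.w = β.w) ∨ (g β.o = β.w ∧ g β.w = β.o) := by
    have h1 := congrArg (fun t : X × X × X => t.1) h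
    have h2 := congrArg (fun t : X × X × X => t.2.1) h
    cases i <;> cases j <;> cases i' <;> cases j' <;> simp only [Base.fl, act] at h1 h2 <;>
      tauto
  obtain ⟨k, l, hkl⟩ := edge g hg hcase
  have h3 := (hkl i j).symm.trans h
  obtain ⟨h4, h5⟩ := inj _ _ _ _ h3
  rw [hkl a b, ← h4, ← h5]
  cases a <;> cases b <;> cases i <;> cases j <;> cases k <;> cases l <;> rfl

/-- The neighbours of the base vertex are the images of `s o` and `s⁻¹ o` under the stabiliser. -/
theorem nbr {β : Base X} (ho : β.o = o) (hw : β.w = s o)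
    (hstab : ∀ g ∈ grp A B s, g o = o → g ∈ stab A B)
    {t : X × X × X} (ht : t ∈ flags (grp A B s) β) (h1 : t.1 = β.o) :
    ∃ g ∈ stab A B, t.2.1 = g (s o) ∨ t.2.1 = g (s⁻¹ o) := by
  obtain ⟨k, hk, i, j, rfl⟩ := ht
  cases i
  · refine ⟨k, hstab k hk ?_, Or.inl ?_⟩
    · cases j <;> simpa [act, Base.fl, ho] using h1
    · cases j <;> simp [act, Base.fl, hw]
  · have h2 : k (s o) = o := by
      cases j <;> simpa [act, Base.fl, ho, hw] using h1
    refine ⟨k * s, hstab _ ((grp A B s).mul_mem hk s_mem) h2, Or.inr ?_⟩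
    cases j <;> simp [act, Base.fl, ho]

/-- connectedness at the base vertex -/
theorem vert {β : Base X} (ho : β.o = o) (hw : β.w = s o) (hA : A o = o) (hB : B o = o)
    (hstab : ∀ g ∈ grp A B s, g o = o → g ∈ stab A B)
    (hturn : ∀ i j, swp (β.fl i j) ∈ flags (grp A B s) β)
    (hu : Relation.ReflTransGen (fun n n' => (β.o, n, n') ∈ flags (grp A B s) β) (s o) (s⁻¹ o))
    (hAw : Relation.ReflTransGen (fun n n' => (β.o, n, n') ∈ flags (grp A B s) β) (s o)
      (A (s o)))
    (hBw : Relation.ReflTransGen (fun n n' => (β.o, n, n') ∈ flags (grp A B s) β) (s o)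
      (B (s o))) :
    ∀ t ∈ flags (grp A B s) β, t.1 = β.o →
      Relation.ReflTransGen (fun n n' => (β.o, n, n') ∈ flags (grp A B s) β) β.w t.2.1 := by
  have hsymm : ∀ x y,
      Relation.ReflTransGen (fun n n' => (β.o, n, n') ∈ flags (grp A B s) β) x y →
      Relation.ReflTransGen (fun n n' => (β.o, n, n') ∈ flags (grp A B s) β) y x := by
    intro x y h
    refine rtg_symm ?_ h
    intro a b hab
    exact flags_swp hturn hab
  have hact : ∀ g ∈ stab A B, ∀ x y,
      Relation.ReflTransGen (fun n n' => (β.o, n, n') ∈ flags (grp A B s) β) x y →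
      Relation.ReflTransGen (fun n n' => (β.o, n, n') ∈ flags (grp A B s) β) (g x) (g y) := by
    intro g hg x y h
    refine rtg_lift g ?_ h
    intro a b hab
    have h2 := flags_act hab (stab_le (s := s) hg)
    have h3 : act g (β.o, a, b) = (β.o, g a, g b) := by
      simp [act, ho, stab_fix hA hB hg]
    rwa [h3] at h2
  have hw' : ∀ g ∈ stab A B,
      Relation.ReflTransGen (fun n n' => (β.o, n, n') ∈ flags (grp A B s) β) (s o) (g (s o)) := by
    intro g hg
    refine Subgroup.closure_induction (p := fun g _ =>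
      Relation.ReflTransGen (fun n n' => (β.o, n, n') ∈ flags (grp A B s) β) (s o) (g (s o)))
      ?_ ?_ ?_ ?_ hg
    · rintro x (rfl | rfl)
      · exact hAw
      · exact hBw
    · exact Relation.ReflTransGen.refl
    · intro x y hx hy h1 h2
      exact h1.trans (hact x hx _ _ h2)
    · intro x hx h1
      have h2 := hact x⁻¹ (Subgroup.inv_mem _ hx) _ _ h1
      rw [inv_app] at h2
      exact hsymm _ _ h2
  intro t ht h1
  obtain ⟨g, hg, h2 | h2⟩ := nbr ho hw hstab ht h1
  · rw [h2, hw]
    exact hw' g hg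
  · rw [h2, hw]
    exact (hw' g hg).trans (hact g hg _ _ hu)

theorem conn {β : Base X} (ho : β.o = o) (hw : β.w = s o) (hA : A o = o) (hB : B o = o) :
    ∀ t ∈ flags (grp A B s) β,
      Relation.ReflTransGen (fun x y => ∃ z, (x, y, z) ∈ flags (grp A B s) β) β.o t.1 := by
  have hsymm : ∀ x y,
      Relation.ReflTransGen (fun x y => ∃ z, (x, y, z) ∈ flags (grp A B s) β) x y →
      Relation.ReflTransGen (fun x y => ∃ z, (x, y, z) ∈ flags (grp A B s) β) y x := by
    intro x y h
    refine rtg_symm ?_ h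
    rintro a b ⟨z, hz⟩
    exact flags_go hz
  have hact : ∀ g ∈ grp A B s, ∀ x y,
      Relation.ReflTransGen (fun x y => ∃ z, (x, y, z) ∈ flags (grp A B s) β) x y →
      Relation.ReflTransGen (fun x y => ∃ z, (x, y, z) ∈ flags (grp A B s) β) (g x) (g y) := by
    intro g hg x y h
    refine rtg_lift g ?_ h
    rintro a b ⟨z, hz⟩
    exact ⟨g z, flags_act hz hg⟩
  have ho' : ∀ g ∈ grp A B s,
      Relation.ReflTransGen (fun x y => ∃ z, (x, y, z) ∈ flags (grp A B s) β) o (g o) := by
    intro g hg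
    refine Subgroup.closure_induction (p := fun g _ =>
      Relation.ReflTransGen (fun x y => ∃ z, (x, y, z) ∈ flags (grp A B s) β) o (g o))
      ?_ ?_ ?_ ?_ hg
    · rintro x (rfl | rfl | rfl)
      · rw [hA]
      · rw [hB]
      · refine Relation.ReflTransGen.single ⟨β.b1, ?_⟩
        have h := fl_mem (Γ := grp A B x) (β := β) false false
        simp only [Base.fl] at h
        rwa [ho, hw] at h
    · exact Relation.ReflTransGen.refl
    · intro x y hx hy h1 h2
      exact h1.trans (hact x hx _ _ h2)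
    · intro x hx h1
      have h2 := hact x⁻¹ (Subgroup.inv_mem _ hx) _ _ h1
      rw [inv_app] at h2
      exact hsymm _ _ h2
  rintro t ⟨g, hg, i, j, rfl⟩
  cases i
  · have h1 : (act g (β.fl false j)).1 = g o := by
      cases j <;> simp [act, Base.fl, ho]
    rw [h1, ho]
    exact ho' g hg
  · have h1 : (act g (β.fl true j)).1 = (g * s) o := by
      cases j <;> simp [act, Base.fl, hw]
    rw [h1, ho]
    exact ho' _ ((grp A B s).mul_mem hg s_mem)

/-- no element of the group swaps the ends of the base edge, the others are in the stabiliser -/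
theorem edge_cases {g : Equiv.Perm X}
    (hstab : ∀ g ∈ grp A B s, g o = o → g ∈ stab A B) (ha : Apart A B s o)
    (hg : g ∈ grp A B s) (h : (g o = o ∧ g (s o) = s o) ∨ (g o = s o ∧ g (s o) = o)) :
    g ∈ stab A B ∧ g (s o) = s o := by
  rcases h with ⟨h1, h2⟩ | ⟨h1, h2⟩
  · exact ⟨hstab g hg h1, h2⟩
  · exfalso
    have h3 : s⁻¹ * g ∈ stab A B := by
      refine hstab _ ((grp A B s).mul_mem ((grp A B s).inv_mem s_mem) hg) ?_
      rw [Equiv.Perm.mul_apply, h1, inv_app]
    refine ha _ h3 ?_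
    rw [Equiv.Perm.mul_apply, h2]

/-- if `a` fixes `s⁻¹ o` then `s a s⁻¹` fixes `o` and `s o` -/
theorem conj_mem {a : Equiv.Perm X} (ha : a ∈ stab A B) (hao : a o = o)
    (hstab : ∀ g ∈ grp A B s, g o = o → g ∈ stab A B) (h : a (s⁻¹ o) = s⁻¹ o) :
    s * a * s⁻¹ ∈ stab A B ∧ (s * a * s⁻¹) (s o) = s o := by
  constructor
  · refine hstab _ ((grp A B s).mul_mem ((grp A B s).mul_mem s_mem (stab_le ha))
      ((grp A B s).inv_mem s_mem)) ?_
    rw [Equiv.Perm.mul_apply, Equiv.Perm.mul_apply, h, app_inv]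
  · rw [Equiv.Perm.mul_apply, Equiv.Perm.mul_apply, inv_app, hao]

end ConvB

open ConvB

theorem canon_sys_c22 {A B s : Equiv.Perm X} {o : X} (h : Good .c22 A B s o) :
    Sys (grp A B s) (canon .c22 A B s o) ∧ Compat (grp A B s) (canon .c22 A B s o) := by
  obtain ⟨hA, hB, hr, hn, hs, hstab⟩ := h
  have hr' := hr
  obtain ⟨hAA, hAw, hBs⟩ := hr'
  obtain ⟨hso, hfree, hAu, hap⟩ := hn
  set β := canon .c22 A B s o with hβ
  have eo : β.o = o := rfl
  have ew : β.w = s o := rfl
  have hturn : ∀ i j, swp (β.fl i j) ∈ flags (grp A B s) β := canon_turn hA hB hr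
  have huo : s⁻¹ o ≠ o := by
    intro h
    apply hso
    rw [Equiv.Perm.inv_eq_iff_eq] at h
    exact h.symm
  have huw : s⁻¹ o ≠ s o := fun h => hap 1 (Subgroup.one_mem _) (by simpa using h.symm)
  have hsso : s (s o) ≠ o := by
    intro h
    apply huw
    rw [Equiv.Perm.inv_eq_iff_eq]
    exact h.symm
  have hssw : s (s o) ≠ s o := fun h => hso (s.injective h)
  have hBu : B (s⁻¹ o) = s⁻¹ o := by
    rw [hBs]
    simp [hA]
  have ow : β.o ≠ β.w := fun h => hso h.symm
  have b1o : β.b1 ≠ β.o := huo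
  have b1w : β.b1 ≠ β.w := huw
  have b2o : β.b2 ≠ β.o := by
    intro h
    change A (s⁻¹ o) = o at h
    exact huo (A.injective (h.trans hA.symm))
  have b2w : β.b2 ≠ β.w := by
    intro h
    change A (s⁻¹ o) = s o at h
    exact huw (A.injective (h.trans hAw.symm))
  have c1o : β.c1 ≠ β.o := hsso
  have c1w : β.c1 ≠ β.w := hssw
  have c2o : β.c2 ≠ β.o := by
    intro h
    change A (s (s o)) = o at h
    exact hsso (A.injective (h.trans hA.symm))
  have c2w : β.c2 ≠ β.w := by
    intro h
    change A (s (s o)) = s o at h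
    exact hssw (A.injective (h.trans hAw.symm))
  have b12 : β.b1 ≠ β.b2 := fun h => hAu h.symm
  have c12 : β.c1 ≠ β.c2 := by
    intro h
    change s (s o) = A (s (s o)) at h
    have h1 : B (s o) = s o := by
      rw [hBs, Equiv.Perm.mul_apply, Equiv.Perm.mul_apply, ← h, inv_app]
    rcases hfree B B_mem h1 with h2 | h2
    · have h3 : A = 1 := by
        have : A = s * B * s⁻¹ := by rw [hBs]; group
        rw [this, h2]
        group
      apply hAu
      rw [h3]
      rfl
    · apply hAu
      rw [← h2]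
      exact hBu
  have edge : ∀ g ∈ grp A B s, (g β.o = β.o ∧ g β.w = β.w) ∨ (g β.o = β.w ∧ g β.w = β.o) →
      ∃ k l, ∀ i j, act g (β.fl i j) = β.fl (xor i k) (xor j l) := by
    intro g hg hc
    obtain ⟨h1, h2⟩ := edge_cases hstab hap hg hc
    rcases hfree g h1 h2 with rfl | rfl
    · refine ⟨false, false, ?_⟩
      intro i j
      cases i <;> cases j <;> rfl
    · refine ⟨false, true, ?_⟩
      have hAA' : ∀ x, g (g x) = x := by
        intro x
        have := congrArg (fun f : Equiv.Perm X => f x) hAA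
        simpa using this
      intro i j
      cases i <;> cases j <;> simp [act, Base.fl, hβ, canon, hA, hAw, hAA']
  have hcomp := compat ow b12 c12 edge
  refine ⟨⟨ow, b1o, b1w, b2o, b2w, c1o, c1w, c2o, c2w, b12, c12, ⟨s, s_mem, rfl⟩,
    canon_ftr hA hB hr, hturn, edge, ?_, ?_, ?_⟩, hcomp⟩
  · have hwu : (β.o, s o, s⁻¹ o) ∈ flags (grp A B s) β := fl_mem false false
    refine vert eo ew hA hB hstab hturn (Relation.ReflTransGen.single hwu) ?_ ?_
    · rw [hAw]
    · have h1 : (β.o, B (s o), s⁻¹ o) ∈ flags (grp A B s) β := by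
        have := flags_act hwu (stab_le (s := s) (B_mem (A := A)))
        rw [eo] at this ⊢
        simpa only [act, hB, hBu] using this
      exact (Relation.ReflTransGen.single hwu).trans
        (Relation.ReflTransGen.single (flags_swp hturn h1))
  · exact conn eo ew hA hB
  · rw [canon_faceOf hA hB hr hcomp]
    exact hs

theorem canon_sys_c4a {A B s : Equiv.Perm X} {o : X} (h : Good .c4a A B s o) :
    Sys (grp A B s) (canon .c4a A B s o) ∧ Compat (grp A B s) (canon .c4a A B s o) := by
  obtain ⟨hA, hB, hr, hn, hs, hstab⟩ := h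
  have hB1 : B = 1 := hr
  obtain ⟨hso, hfree, hA1, hap⟩ := hn
  set β := canon .c4a A B s o with hβ
  have eo : β.o = o := rfl
  have ew : β.w = s o := rfl
  have hturn : ∀ i j, swp (β.fl i j) ∈ flags (grp A B s) β := canon_turn hA hB hr
  have huo : s⁻¹ o ≠ o := by
    intro h
    apply hso
    rw [Equiv.Perm.inv_eq_iff_eq] at h
    exact h.symm
  have huw : s⁻¹ o ≠ s o := fun h => hap 1 (Subgroup.one_mem _) (by simpa using h.symm)
  have hsso : s (s o) ≠ o := by
    intro h
    apply huw
    rw [Equiv.Perm.inv_eq_iff_eq]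
    exact h.symm
  have hssw : s (s o) ≠ s o := fun h => hso (s.injective h)
  have hAinv : A⁻¹ o = o := by rw [Equiv.Perm.inv_eq_iff_eq, hA]
  have hAwu : A (s o) ≠ s⁻¹ o := hap A A_mem
  have ow : β.o ≠ β.w := fun h => hso h.symm
  have b1o : β.b1 ≠ β.o := huo
  have b1w : β.b1 ≠ β.w := huw
  have b2o : β.b2 ≠ β.o := by
    intro h
    change A⁻¹ (s⁻¹ o) = o at h
    exact huo (A⁻¹.injective (h.trans hAinv.symm))
  have b2w : β.b2 ≠ β.w := by
    intro h
    change A⁻¹ (s⁻¹ o) = s o at h
    rw [Equiv.Perm.inv_eq_iff_eq] at h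
    exact hAwu h.symm
  have c1o : β.c1 ≠ β.o := by
    intro h
    change s (A (s o)) = o at h
    apply hAwu
    rw [eq_comm, Equiv.Perm.inv_eq_iff_eq]
    exact h.symm
  have c1w : β.c1 ≠ β.w := by
    intro h
    change s (A (s o)) = s o at h
    exact hso (A.injective ((s.injective h).trans hA.symm))
  have c2o : β.c2 ≠ β.o := hsso
  have c2w : β.c2 ≠ β.w := hssw
  have b12 : β.b1 ≠ β.b2 := by
    intro h
    change s⁻¹ o = A⁻¹ (s⁻¹ o) at h
    have h1 : A (s⁻¹ o) = s⁻¹ o := by
      have := congrArg A h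
      rwa [app_inv] at this
    obtain ⟨h2, h3⟩ := conj_mem A_mem hA hstab h1
    have h4 := hfree _ h2 h3
    apply hA1
    have : A = s⁻¹ * (s * A * s⁻¹) * s := by group
    rw [this, h4]
    group
  have c12 : β.c1 ≠ β.c2 := by
    intro h
    change s (A (s o)) = s (s o) at h
    exact hA1 (hfree A A_mem (s.injective h))
  have edge : ∀ g ∈ grp A B s, (g β.o = β.o ∧ g β.w = β.w) ∨ (g β.o = β.w ∧ g β.w = β.o) →
      ∃ k l, ∀ i j, act g (β.fl i j) = β.fl (xor i k) (xor j l) := by
    intro g hg hc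
    obtain ⟨h1, h2⟩ := edge_cases hstab hap hg hc
    obtain rfl := hfree g h1 h2
    refine ⟨false, false, ?_⟩
    intro i j
    cases i <;> cases j <;> rfl
  have hcomp := compat ow b12 c12 edge
  refine ⟨⟨ow, b1o, b1w, b2o, b2w, c1o, c1w, c2o, c2w, b12, c12, ⟨s, s_mem, rfl⟩,
    canon_ftr hA hB hr, hturn, edge, ?_, ?_, ?_⟩, hcomp⟩
  · have hwu : (β.o, s o, s⁻¹ o) ∈ flags (grp A B s) β := fl_mem false false
    have hwu2 : (β.o, s o, A⁻¹ (s⁻¹ o)) ∈ flags (grp A B s) β := fl_mem false true
    refine vert eo ew hA hB hstab hturn (Relation.ReflTransGen.single hwu) ?_ ?_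
    · have h1 : (β.o, A (s o), s⁻¹ o) ∈ flags (grp A B s) β := by
        have := flags_act hwu2 (stab_le (s := s) (A_mem (B := B)))
        rw [eo] at this ⊢
        simpa only [act, hA, app_inv] using this
      exact (Relation.ReflTransGen.single hwu).trans
        (Relation.ReflTransGen.single (flags_swp hturn h1))
    · rw [hB1]
      exact Relation.ReflTransGen.refl
  · exact conn eo ew hA hB
  · rw [canon_faceOf hA hB hr hcomp]
    exact hs

theorem canon_sys_c4b {A B s : Equiv.Perm X} {o : X} (h : Good .c4b A B s o) :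
    Sys (grp A B s) (canon .c4b A B s o) ∧ Compat (grp A B s) (canon .c4b A B s o) := by
  obtain ⟨hA, hB, hr, hn, hs, hstab⟩ := h
  have hr' := hr
  obtain ⟨hAA, hBB⟩ := hr'
  obtain ⟨hso, hfree, hA1, hB1, hap⟩ := hn
  set β := canon .c4b A B s o with hβ
  have eo : β.o = o := rfl
  have ew : β.w = s o := rfl
  have hturn : ∀ i j, swp (β.fl i j) ∈ flags (grp A B s) β := canon_turn hA hB hr
  have huo : s⁻¹ o ≠ o := by
    intro h
    apply hso
    rw [Equiv.Perm.inv_eq_iff_eq] at h
    exact h.symm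
  have huw : s⁻¹ o ≠ s o := fun h => hap 1 (Subgroup.one_mem _) (by simpa using h.symm)
  have hsso : s (s o) ≠ o := by
    intro h
    apply huw
    rw [Equiv.Perm.inv_eq_iff_eq]
    exact h.symm
  have hssw : s (s o) ≠ s o := fun h => hso (s.injective h)
  have hBu : B (s⁻¹ o) ≠ s⁻¹ o := by
    intro h1
    obtain ⟨h2, h3⟩ := conj_mem B_mem hB hstab h1
    have h4 := hfree _ h2 h3
    apply hB1
    have : B = s⁻¹ * (s * B * s⁻¹) * s := by group
    rw [this, h4]
    group
  have ow : β.o ≠ β.w := fun h => hso h.symm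
  have b1o : β.b1 ≠ β.o := by
    intro h
    change A (s o) = o at h
    exact hso (A.injective (h.trans hA.symm))
  have b1w : β.b1 ≠ β.w := fun h => hA1 (hfree A A_mem h)
  have b2o : β.b2 ≠ β.o := huo
  have b2w : β.b2 ≠ β.w := huw
  have c1o : β.c1 ≠ β.o := hsso
  have c1w : β.c1 ≠ β.w := hssw
  have c2o : β.c2 ≠ β.o := by
    intro h
    change s (B (s⁻¹ o)) = o at h
    apply hBu
    rw [eq_comm, Equiv.Perm.inv_eq_iff_eq]
    exact h.symm
  have c2w : β.c2 ≠ β.w := by
    intro h
    change s (B (s⁻¹ o)) = s o at h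
    exact huo (B.injective ((s.injective h).trans hB.symm))
  have b12 : β.b1 ≠ β.b2 := hap A A_mem
  have c12 : β.c1 ≠ β.c2 := by
    intro h
    change s (s o) = s (B (s⁻¹ o)) at h
    have h1 := s.injective h
    apply hap B B_mem
    rw [h1, ← Equiv.Perm.mul_apply, hBB]
    rfl
  have edge : ∀ g ∈ grp A B s, (g β.o = β.o ∧ g β.w = β.w) ∨ (g β.o = β.w ∧ g β.w = β.o) →
      ∃ k l, ∀ i j, act g (β.fl i j) = β.fl (xor i k) (xor j l) := by
    intro g hg hc
    obtain ⟨h1, h2⟩ := edge_cases hstab hap hg hc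
    obtain rfl := hfree g h1 h2
    refine ⟨false, false, ?_⟩
    intro i j
    cases i <;> cases j <;> rfl
  have hcomp := compat ow b12 c12 edge
  refine ⟨⟨ow, b1o, b1w, b2o, b2w, c1o, c1w, c2o, c2w, b12, c12, ⟨s, s_mem, rfl⟩,
    canon_ftr hA hB hr, hturn, edge, ?_, ?_, ?_⟩, hcomp⟩
  · have hwA : (β.o, s o, A (s o)) ∈ flags (grp A B s) β := fl_mem false false
    have hwu : (β.o, s o, s⁻¹ o) ∈ flags (grp A B s) β := fl_mem false true
    have huB : (β.o, s⁻¹ o, B (s⁻¹ o)) ∈ flags (grp A B s) β := by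
      have h1 : (s o, o, s (B (s⁻¹ o))) ∈ flags (grp A B s) β := fl_mem true true
      have h2 := flags_act h1 ((grp A B s).inv_mem s_mem)
      rw [eo]
      simpa only [act, inv_app] using h2
    have hBwu : (β.o, B (s o), B (s⁻¹ o)) ∈ flags (grp A B s) β := by
      have := flags_act hwu (stab_le (s := s) (B_mem (A := A)))
      rw [eo] at this ⊢
      simpa only [act, hB] using this
    refine vert eo ew hA hB hstab hturn (Relation.ReflTransGen.single hwu)
      (Relation.ReflTransGen.single hwA) ?_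
    exact ((Relation.ReflTransGen.single hwu).trans (Relation.ReflTransGen.single huB)).trans
      (Relation.ReflTransGen.single (flags_swp hturn hBwu))
  · exact conn eo ew hA hB
  · rw [canon_faceOf hA hB hr hcomp]
    exact hs

end Pool.Agent.H21.FT
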