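import Pool.Agent.H21.FT.Flag

/-!
# Four base flags give a polyhedron

The combinatorial lemma: the configuration of all flags is an abstract polyhedron on which the
group acts transitively on the vertices, on the edges and on the faces.
-/

namespace Pool.Agent.H21.FT

open Pool.Agent.H38.FT (Cfg Triple Adjacent HasCommon)

variable {X : Type*} {Γ : Subgroup (Equiv.Perm X)} {β : Base X}

namespace FlagPoly

theorem act_one (t : X × X × X) : act (1 : Equiv.Perm X) t = t := rfl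

theorem act_act (g k : Equiv.Perm X) (t : X × X × X) : act g (act k t) = act (g * k) t := rfl

theorem act_inv_act (g : Equiv.Perm X) (t : X × X × X) : act g⁻¹ (act g t) = t := by
  rw [act_act, inv_mul_cancel, act_one]

theorem act_act_inv (g : Equiv.Perm X) (t : X × X × X) : act g (act g⁻¹ t) = t := by
  rw [act_act, mul_inv_cancel, act_one]

theorem flags_act {g : Equiv.Perm X} (hg : g ∈ Γ) {t : X × X × X} (ht : t ∈ flags Γ β) :
    act g t ∈ flags Γ β := by
  obtain ⟨k, hk, i, j, rfl⟩ := ht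
  exact ⟨g * k, Γ.mul_mem hg hk, i, j, rfl⟩

theorem fl_mem (i j : Bool) : β.fl i j ∈ flags Γ β := ⟨1, Γ.one_mem, i, j, rfl⟩

theorem act_fl_mem {g : Equiv.Perm X} (hg : g ∈ Γ) (i j : Bool) :
    act g (β.fl i j) ∈ flags Γ β := ⟨g, hg, i, j, rfl⟩

theorem swp_mem (h : Sys Γ β) {t : X × X × X} (ht : t ∈ flags Γ β) : swp t ∈ flags Γ β := by
  obtain ⟨g, hg, i, j, rfl⟩ := ht
  exact flags_act hg (h.turn i j)

theorem step_act {g : Equiv.Perm X} (hg : g ∈ Γ) {t t' : X × X × X} (h : Step Γ β t t') :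
    Step Γ β (act g t) (act g t') := by
  cases h with
  | turn _ ht => exact Step.turn _ (flags_act hg ht)
  | go k i j hk => exact Step.go (g * k) i j (Γ.mul_mem hg hk)

theorem step_left {t t' : X × X × X} (h : Step Γ β t t') : t ∈ flags Γ β := by
  cases h with
  | turn _ ht => exact ht
  | go k i j hk => exact act_fl_mem hk i j

theorem step_right (hs : Sys Γ β) {t t' : X × X × X} (h : Step Γ β t t') : t' ∈ flags Γ β := by
  cases h with
  | turn _ ht => exact swp_mem hs ht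
  | go k i j hk => exact act_fl_mem hk _ j

theorem step_symm (hs : Sys Γ β) {t t' : X × X × X} (h : Step Γ β t t') : Step Γ β t' t := by
  cases h with
  | turn _ ht => exact Step.turn _ (swp_mem hs ht)
  | go k i j hk =>
    have := Step.go (β := β) k (!i) j hk
    rwa [Bool.not_not] at this

/-- The flags of a face. -/
abbrev Steps (Γ : Subgroup (Equiv.Perm X)) (β : Base X) : X × X × X → X × X × X → Prop :=
  Relation.ReflTransGen (Step Γ β)

theorem steps_act {g : Equiv.Perm X} (hg : g ∈ Γ) {t t' : X × X × X} (h : Steps Γ β t t') :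
    Steps Γ β (act g t) (act g t') :=
  Relation.ReflTransGen.lift (act g) (fun _ _ h => step_act hg h) _ _ h

theorem rtg_symm {α : Type*} {r : α → α → Prop} (hr : ∀ a b, r a b → r b a) {a b : α}
    (h : Relation.ReflTransGen r a b) : Relation.ReflTransGen r b a := by
  induction h with
  | refl => exact Relation.ReflTransGen.refl
  | tail _ h ih => exact Relation.ReflTransGen.head (hr _ _ h) ih

theorem rtg_mono {α : Type*} {r p : α → α → Prop} (hr : ∀ a b, r a b → p a b) {a b : α}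
    (h : Relation.ReflTransGen r a b) : Relation.ReflTransGen p a b :=
  Relation.ReflTransGen.mono hr _ _ h

theorem steps_symm (hs : Sys Γ β) {t t' : X × X × X} (h : Steps Γ β t t') : Steps Γ β t' t :=
  rtg_symm (fun _ _ h => step_symm hs h) h

theorem steps_mem (hs : Sys Γ β) {t t' : X × X × X} (h : Steps Γ β t t') (ht : t ∈ flags Γ β) :
    t' ∈ flags Γ β := by
  induction h with
  | refl => exact ht
  | tail _ h _ => exact step_right hs h

theorem faceOf_eq (hs : Sys Γ β) {t t' : X × X × X} (h : Steps Γ β t t') :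
    faceOf Γ β t = faceOf Γ β t' := by
  ext e
  constructor
  · rintro ⟨u, hu, rfl⟩
    exact ⟨u, (steps_symm hs h).trans hu, rfl⟩
  · rintro ⟨u, hu, rfl⟩
    exact ⟨u, h.trans hu, rfl⟩

theorem faceOf_act {g : Equiv.Perm X} (hg : g ∈ Γ) (t : X × X × X) :
    faceOf Γ β (act g t) = Sym2.map g '' faceOf Γ β t := by
  ext e
  constructor
  · rintro ⟨t', ht', rfl⟩
    refine ⟨s(g⁻¹ t'.1, g⁻¹ t'.2.1), ⟨act g⁻¹ t', ?_, rfl⟩, ?_⟩
    · have := steps_act (Γ.inv_mem hg) ht'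
      rwa [act_inv_act] at this
    · simp
  · rintro ⟨_, ⟨t', ht', rfl⟩, rfl⟩
    exact ⟨act g t', steps_act hg ht', rfl⟩

theorem mem_faceOf (t : X × X × X) : s(t.1, t.2.1) ∈ faceOf Γ β t :=
  ⟨t, Relation.ReflTransGen.refl, rfl⟩

theorem mem_faceOf' {t : X × X × X} (ht : t ∈ flags Γ β) : s(t.1, t.2.2) ∈ faceOf Γ β t :=
  ⟨swp t, Relation.ReflTransGen.single (Step.turn _ ht), rfl⟩

/-! ### The base flags -/

theorem fl_edge (i j : Bool) : s((β.fl i j).1, (β.fl i j).2.1) = s(β.o, β.w) := by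
  cases i <;> cases j <;> first | rfl | exact Sym2.eq_swap

theorem fl_not (i j : Bool) : (β.fl (!i) j).1 = (β.fl i j).2.1 ∧
    (β.fl (!i) j).2.1 = (β.fl i j).1 := by
  cases i <;> cases j <;> exact ⟨rfl, rfl⟩

theorem fl_not' (i j : Bool) : (β.fl i (!j)).1 = (β.fl i j).1 ∧
    (β.fl i (!j)).2.1 = (β.fl i j).2.1 := by
  cases i <;> cases j <;> exact ⟨rfl, rfl⟩

theorem act_edge (g : Equiv.Perm X) (i j : Bool) :
    s((act g (β.fl i j)).1, (act g (β.fl i j)).2.1) = Sym2.map g s(β.o, β.w) := by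
  rw [← fl_edge i j]; rfl

theorem fl_ne (h : Sys Γ β) (i j : Bool) : (β.fl i j).1 ≠ (β.fl i j).2.1 ∧
    (β.fl i j).1 ≠ (β.fl i j).2.2 ∧ (β.fl i j).2.1 ≠ (β.fl i j).2.2 := by
  cases i <;> cases j
  · exact ⟨h.ow, h.b1o.symm, h.b1w.symm⟩
  · exact ⟨h.ow, h.b2o.symm, h.b2w.symm⟩
  · exact ⟨h.ow.symm, h.c1w.symm, h.c1o.symm⟩
  · exact ⟨h.ow.symm, h.c2w.symm, h.c2o.symm⟩

theorem flag_ne (h : Sys Γ β) {t : X × X × X} (ht : t ∈ flags Γ β) : t.1 ≠ t.2.1 ∧
    t.1 ≠ t.2.2 ∧ t.2.1 ≠ t.2.2 := by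
  obtain ⟨g, hg, i, j, rfl⟩ := ht
  obtain ⟨h1, h2, h3⟩ := fl_ne h i j
  exact ⟨fun e => h1 (g.injective e), fun e => h2 (g.injective e), fun e => h3 (g.injective e)⟩

theorem fl_inj (h : Sys Γ β) {i j i' j' : Bool} (he : β.fl i j = β.fl i' j') :
    i = i' ∧ j = j' := by
  have h1 := congrArg Prod.fst he
  have h2 := congrArg (fun t : X × X × X => t.2.2) he
  cases i <;> cases i' <;> cases j <;> cases j' <;>
    first
    | exact ⟨rfl, rfl⟩
    | exact absurd h1 h.ow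
    | exact absurd h1.symm h.ow
    | exact absurd h2 h.b12
    | exact absurd h2.symm h.b12
    | exact absurd h2 h.c12
    | exact absurd h2.symm h.c12

/-- An element of the group that maps the base edge to itself acts on the base flags as a
translation. -/
theorem edge_of (h : Sys Γ β) {g : Equiv.Perm X} (hg : g ∈ Γ)
    (he : Sym2.map g s(β.o, β.w) = s(β.o, β.w)) :
    ∃ k l, ∀ i j, act g (β.fl i j) = β.fl (xor i k) (xor j l) := by
  have he' : s(g β.o, g β.w) = s(β.o, β.w) := he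
  exact h.edge g hg (Sym2.eq_iff.1 he')

theorem edge_of₂ (h : Sys Γ β) {g g' : Equiv.Perm X} (hg : g ∈ Γ) (hg' : g' ∈ Γ)
    (he : Sym2.map g s(β.o, β.w) = Sym2.map g' s(β.o, β.w)) :
    ∃ k l, ∀ i j, act g (β.fl i j) = act g' (β.fl (xor i k) (xor j l)) := by
  obtain ⟨k, l, hkl⟩ := edge_of h (g := g'⁻¹ * g) (Γ.mul_mem (Γ.inv_mem hg') hg) (by
    have := congrArg (Sym2.map (g'⁻¹ : Equiv.Perm X)) he
    rw [Sym2.map_map, Sym2.map_map] at this
    have h1 : ((g'⁻¹ : Equiv.Perm X) : X → X) ∘ g' = id := by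
      funext x; simp
    rw [h1, Sym2.map_id, id] at this
    exact this)
  refine ⟨k, l, fun i j => ?_⟩
  rw [← hkl, act_act, mul_inv_cancel_left]

/-- A flag whose edge is the image of the base edge under `g` is the image of a base flag
under `g`. -/
theorem flag_edge (h : Sys Γ β) {g : Equiv.Perm X} (hg : g ∈ Γ) {t : X × X × X}
    (ht : t ∈ flags Γ β) (he : s(t.1, t.2.1) = Sym2.map g s(β.o, β.w)) :
    ∃ i j, t = act g (β.fl i j) := by
  obtain ⟨k, hk, i, j, rfl⟩ := ht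
  rw [act_edge] at he
  obtain ⟨a, b, hab⟩ := edge_of₂ h hk hg he
  exact ⟨_, _, hab i j⟩

/-- Two flags with the same edge. -/
theorem flag_edge' (h : Sys Γ β) {t t' : X × X × X}
    (ht : t ∈ flags Γ β) (ht' : t' ∈ flags Γ β) (he : s(t.1, t.2.1) = s(t'.1, t'.2.1)) :
    ∃ g ∈ Γ, ∃ i j i' j', t = act g (β.fl i j) ∧ t' = act g (β.fl i' j') := by
  obtain ⟨g, hg, i, j, rfl⟩ := ht
  rw [act_edge] at he
  obtain ⟨i', j', h'⟩ := flag_edge h hg ht' he.symm
  exact ⟨g, hg, i, j, i', j', rfl, h'⟩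

theorem steps_go {g : Equiv.Perm X} (hg : g ∈ Γ) (i i' j : Bool) :
    Steps Γ β (act g (β.fl i j)) (act g (β.fl i' j)) := by
  cases i <;> cases i'
  · exact Relation.ReflTransGen.refl
  · exact Relation.ReflTransGen.single (Step.go g false j hg)
  · exact Relation.ReflTransGen.single (Step.go g true j hg)
  · exact Relation.ReflTransGen.refl

/-- Every face is an image of the first base face. -/
theorem steps_base (h : Sys Γ β) {t : X × X × X} (ht : t ∈ flags Γ β) :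
    ∃ g ∈ Γ, Steps Γ β t (act g (β.fl false false)) := by
  obtain ⟨g, hg, i, j, rfl⟩ := ht
  cases j
  · exact ⟨g, hg, steps_go hg _ _ _⟩
  · obtain ⟨k, hk, a, hka⟩ := h.ftr
    refine ⟨g * k, Γ.mul_mem hg hk, (steps_go hg i false true).trans ?_⟩
    refine (steps_act hg hka).trans ?_
    rw [act_act]
    exact steps_go (Γ.mul_mem hg hk) _ _ _

theorem map_mem_iff (g : Equiv.Perm X) (x : X) (e : Sym2 X) : g x ∈ Sym2.map g e ↔ x ∈ e := by
  rw [Sym2.mem_map]
  constructor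
  · rintro ⟨a, ha, hax⟩
    rwa [← g.injective hax]
  · intro hx
    exact ⟨x, hx, rfl⟩

theorem simple_all (h : Sys Γ β) {t : X × X × X} (ht : t ∈ flags Γ β) {x : X}
    (hx : ∃ e ∈ faceOf Γ β t, x ∈ e) : {e | e ∈ faceOf Γ β t ∧ x ∈ e}.ncard = 2 := by
  obtain ⟨g, hg, hst⟩ := steps_base h ht
  rw [faceOf_eq h hst, faceOf_act hg] at hx ⊢
  obtain ⟨_, ⟨e, he, rfl⟩, hxe⟩ := hx
  obtain ⟨y, hye, rfl⟩ := Sym2.mem_map.1 hxe
  rw [← h.simple y ⟨e, he, hye⟩]
  have hinj : Function.Injective (Sym2.map (g : X → X)) := Sym2.map.injective g.injective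
  rw [← Set.ncard_image_of_injective
    {e | e ∈ faceOf Γ β (β.fl false false) ∧ y ∈ e} hinj]
  congr 1
  ext e'
  constructor
  · rintro ⟨⟨e'', he'', rfl⟩, h2⟩
    exact ⟨e'', ⟨he'', (map_mem_iff g y e'').1 h2⟩, rfl⟩
  · rintro ⟨e'', ⟨he'', h2⟩, rfl⟩
    exact ⟨⟨e'', he'', rfl⟩, (map_mem_iff g y e'').2 h2⟩

/-- The edges of a face at a vertex. -/
theorem edges_at (h : Sys Γ β) {t : X × X × X} (ht : t ∈ flags Γ β) {e : Sym2 X}
    (he : e ∈ faceOf Γ β t) (hx : t.1 ∈ e) : e = s(t.1, t.2.1) ∨ e = s(t.1, t.2.2) := by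
  have h2 := simple_all h ht (x := t.1) ⟨_, mem_faceOf t, Sym2.mem_mk_left _ _⟩
  obtain ⟨a, b, hab, hs⟩ := Set.ncard_eq_two.1 h2
  have m1 : s(t.1, t.2.1) ∈ ({a, b} : Set (Sym2 X)) := by
    rw [← hs]; exact ⟨mem_faceOf t, Sym2.mem_mk_left _ _⟩
  have m2 : s(t.1, t.2.2) ∈ ({a, b} : Set (Sym2 X)) := by
    rw [← hs]; exact ⟨mem_faceOf' ht, Sym2.mem_mk_left _ _⟩
  have m3 : e ∈ ({a, b} : Set (Sym2 X)) := by
    rw [← hs]; exact ⟨he, hx⟩
  have hne : s(t.1, t.2.1) ≠ s(t.1, t.2.2) := by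
    intro heq
    rw [Sym2.congr_right] at heq
    exact (flag_ne h ht).2.2 heq
  rw [Set.mem_insert_iff, Set.mem_singleton_iff] at m1 m2 m3
  rcases m1 with m1 | m1 <;> rcases m2 with m2 | m2
  · exact absurd (m1.trans m2.symm) hne
  · rcases m3 with m3 | m3
    · exact Or.inl (m3.trans m1.symm)
    · exact Or.inr (m3.trans m2.symm)
  · rcases m3 with m3 | m3
    · exact Or.inr (m3.trans m2.symm)
    · exact Or.inl (m3.trans m1.symm)
  · exact absurd (m1.trans m2.symm) hne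

/-- The two faces at an edge are different. -/
theorem faces_ne (h : Sys Γ β) {g : Equiv.Perm X} (hg : g ∈ Γ) :
    faceOf Γ β (act g (β.fl false false)) ≠ faceOf Γ β (act g (β.fl false true)) := by
  intro heq
  rw [faceOf_act hg, faceOf_act hg] at heq
  have heq' := Set.image_injective.2 (Sym2.map.injective g.injective) heq
  have hm : s(β.o, β.b2) ∈ faceOf Γ β (β.fl false false) := by
    rw [heq']; exact mem_faceOf' (t := β.fl false true) (fl_mem false true)
  rcases edges_at h (fl_mem false false) hm (Sym2.mem_mk_left _ _) with h1 | h1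
  · have h1' : s(β.o, β.b2) = s(β.o, β.w) := h1
    rw [Sym2.congr_right] at h1'
    exact h.b2w h1'
  · have h1' : s(β.o, β.b2) = s(β.o, β.b1) := h1
    rw [Sym2.congr_right] at h1'
    exact h.b12 h1'.symm

theorem face_false (h : Sys Γ β) {g : Equiv.Perm X} (hg : g ∈ Γ) (i i' j : Bool) :
    faceOf Γ β (act g (β.fl i j)) = faceOf Γ β (act g (β.fl i' j)) :=
  faceOf_eq h (steps_go hg i i' j)

theorem face_inj (h : Sys Γ β) {g : Equiv.Perm X} (hg : g ∈ Γ) {i i' j j' : Bool}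
    (he : faceOf Γ β (act g (β.fl i j)) = faceOf Γ β (act g (β.fl i' j'))) : j = j' := by
  rw [face_false h hg i false, face_false h hg i' false] at he
  cases j <;> cases j'
  · rfl
  · exact absurd he (faces_ne h hg)
  · exact absurd he.symm (faces_ne h hg)
  · rfl

/-- Flags with the same face are connected along the face. -/
theorem steps_of_face (h : Sys Γ β) {t t' : X × X × X} (ht : t ∈ flags Γ β)
    (ht' : t' ∈ flags Γ β) (he : faceOf Γ β t = faceOf Γ β t') : Steps Γ β t t' := by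
  have hm := mem_faceOf (Γ := Γ) (β := β) t'
  rw [← he] at hm
  obtain ⟨u, hu, heu⟩ := hm
  have hum := steps_mem h hu ht
  obtain ⟨g, hg, i, j, i', j', rfl, rfl⟩ := flag_edge' h ht' hum heu
  have hj : j = j' := by
    apply face_inj h hg (i := i) (i' := i')
    rw [← he, faceOf_eq h hu]
  subst hj
  exact hu.trans (steps_go hg _ _ _)

/-! ### The triples -/

/-- The triple of a flag. -/
def T (Γ : Subgroup (Equiv.Perm X)) (β : Base X) (t : X × X × X) : Triple X :=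
  (t.1, s(t.1, t.2.1), faceOf Γ β t)

theorem T_flag {t : X × X × X} (ht : t ∈ flags Γ β) : (flagCfg Γ β).IsFlag (T Γ β t) :=
  ⟨⟨t, ht, rfl⟩, ⟨t, ht, rfl⟩, ⟨t, ht, rfl⟩, Sym2.mem_mk_left _ _, mem_faceOf t⟩

theorem exists_T (h : Sys Γ β) {A : Triple X} (hA : (flagCfg Γ β).IsFlag A) :
    ∃ t ∈ flags Γ β, A = T Γ β t := by
  obtain ⟨x, e, f⟩ := A
  obtain ⟨-, -, ⟨t, ht, hf⟩, hxe, hef⟩ := hA
  simp only at hf hxe hef
  subst hf
  obtain ⟨u, hu, rfl⟩ := hef
  have hum := steps_mem h hu ht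
  rw [Sym2.mem_iff] at hxe
  rcases hxe with rfl | rfl
  · exact ⟨u, hum, by unfold T; rw [faceOf_eq h hu]⟩
  · obtain ⟨g, hg, i, j, rfl⟩ := hum
    refine ⟨act g (β.fl (!i) j), act_fl_mem hg _ _, ?_⟩
    have h1 : (act g (β.fl (!i) j)).1 = (act g (β.fl i j)).2.1 := congrArg g (fl_not i j).1
    have h2 : (act g (β.fl (!i) j)).2.1 = (act g (β.fl i j)).1 := congrArg g (fl_not i j).2
    unfold T
    rw [h1, h2, faceOf_eq h hu, face_false h hg (!i) i j]
    rw [Sym2.eq_swap]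

/-- Paths of flags inside a set. -/
def R (Γ : Subgroup (Equiv.Perm X)) (β : Base X) (S : Set (Triple X)) (C D : Triple X) : Prop :=
  (flagCfg Γ β).IsFlag C ∧ (flagCfg Γ β).IsFlag D ∧ Adjacent C D ∧ C ∈ S ∧ D ∈ S

theorem adj_symm {A B : Triple X} (h : Adjacent A B) : Adjacent B A := by
  rcases h with ⟨a, b, c⟩ | ⟨a, b, c⟩ | ⟨a, b, c⟩
  · exact Or.inl ⟨a.symm, b.symm, c.symm⟩
  · exact Or.inr (Or.inl ⟨a.symm, b.symm, c.symm⟩)
  · exact Or.inr (Or.inr ⟨a.symm, b.symm, c.symm⟩)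

theorem R_symm {S : Set (Triple X)} {C D : Triple X}
    (h : Relation.ReflTransGen (R Γ β S) C D) : Relation.ReflTransGen (R Γ β S) D C :=
  rtg_symm (fun _ _ ⟨h1, h2, h3, h4, h5⟩ => ⟨h2, h1, adj_symm h3, h5, h4⟩) h

theorem R_mono {S S' : Set (Triple X)} (hS : S ⊆ S') {C D : Triple X}
    (h : Relation.ReflTransGen (R Γ β S) C D) : Relation.ReflTransGen (R Γ β S') C D :=
  rtg_mono (fun _ _ ⟨h1, h2, h3, h4, h5⟩ => ⟨h1, h2, h3, hS h4, hS h5⟩) h

/-- Flags with the same vertex and the same edge. -/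
theorem path_edge {S : Set (Triple X)} {C D : Triple X} (hC : (flagCfg Γ β).IsFlag C)
    (hD : (flagCfg Γ β).IsFlag D) (h1 : C.1 = D.1) (h2 : C.2.1 = D.2.1) (h4 : C ∈ S)
    (h5 : D ∈ S) : Relation.ReflTransGen (R Γ β S) C D := by
  by_cases h3 : C.2.2 = D.2.2
  · have : C = D := Prod.ext h1 (Prod.ext h2 h3)
    rw [this]
  · exact Relation.ReflTransGen.single ⟨hC, hD, Or.inr (Or.inr ⟨h1, h2, h3⟩), h4, h5⟩

/-- The flags at a vertex. -/
theorem path_vertex_aux (h : Sys Γ β) {g : Equiv.Perm X} (hg : g ∈ Γ) {n : X}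
    (hn : Relation.ReflTransGen (fun n n' => (β.o, n, n') ∈ flags Γ β) β.w n) :
    ∀ t ∈ flags Γ β, t.1 = g β.o → t.2.1 = g n →
      Relation.ReflTransGen (R Γ β {D | D.1 = g β.o}) (T Γ β (act g (β.fl false false)))
        (T Γ β t) := by
  induction hn with
  | refl =>
    intro t ht h1 h2
    refine path_edge (T_flag (act_fl_mem hg _ _)) (T_flag ht) ?_ ?_ rfl h1
    · exact h1.symm
    · change s(g β.o, g β.w) = s(t.1, t.2.1)
      rw [h1, h2]
  | tail _ hstep ih =>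
    rename_i n n' _
    intro t ht h1 h2
    have hu : act g (β.o, n, n') ∈ flags Γ β := flags_act hg hstep
    have hp := ih _ hu rfl rfl
    have hsw := swp_mem h hu
    refine hp.trans (Relation.ReflTransGen.trans (b := T Γ β (swp (act g (β.o, n, n')))) ?_ ?_)
    · refine Relation.ReflTransGen.single ⟨T_flag hu, T_flag hsw, Or.inr (Or.inl ⟨rfl, ?_, ?_⟩),
        rfl, rfl⟩
      · intro heq
        have heq' : s(g β.o, g n) = s(g β.o, g n') := heq
        rw [Sym2.congr_right] at heq'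
        exact (flag_ne h hu).2.2 heq'
      · exact faceOf_eq h (Relation.ReflTransGen.single (Step.turn _ hu))
    · refine path_edge (T_flag hsw) (T_flag ht) ?_ ?_ rfl h1
      · exact h1.symm
      · change s(g β.o, g n') = s(t.1, t.2.1)
        rw [h1, h2]

theorem path_vertex₀ (h : Sys Γ β) {g : Equiv.Perm X} (hg : g ∈ Γ) {t : X × X × X}
    (ht : t ∈ flags Γ β) (h1 : t.1 = g β.o) :
    Relation.ReflTransGen (R Γ β {D | D.1 = g β.o}) (T Γ β (act g (β.fl false false)))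
      (T Γ β t) := by
  have hv := h.vert (act g⁻¹ t) (flags_act (Γ.inv_mem hg) ht) (by
    change g⁻¹ t.1 = β.o
    rw [h1]; simp)
  refine path_vertex_aux h hg hv t ht h1 ?_
  change t.2.1 = g (g⁻¹ t.2.1)
  simp

theorem vertex_orbit (h : Sys Γ β) {t : X × X × X} (ht : t ∈ flags Γ β) :
    ∃ g ∈ Γ, t.1 = g β.o := by
  obtain ⟨g, hg, i, j, rfl⟩ := ht
  obtain ⟨k, hk, hko⟩ := h.vtr
  cases i <;> cases j
  · exact ⟨g, hg, rfl⟩
  · exact ⟨g, hg, rfl⟩
  · exact ⟨g * k, Γ.mul_mem hg hk, by rw [Equiv.Perm.mul_apply, hko]; rfl⟩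
  · exact ⟨g * k, Γ.mul_mem hg hk, by rw [Equiv.Perm.mul_apply, hko]; rfl⟩

theorem path_vertex (h : Sys Γ β) {t t' : X × X × X} (ht : t ∈ flags Γ β)
    (ht' : t' ∈ flags Γ β) (h1 : t.1 = t'.1) :
    Relation.ReflTransGen (R Γ β {D | D.1 = t.1}) (T Γ β t) (T Γ β t') := by
  obtain ⟨g, hg, hgt⟩ := vertex_orbit h ht
  have p1 := path_vertex₀ h hg ht hgt
  have p2 := path_vertex₀ h hg ht' (h1.symm.trans hgt)
  rw [hgt]
  exact (R_symm p1).trans p2

/-- Any two flags are connected. -/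
theorem path_aux (h : Sys Γ β) {x : X}
    (hx : Relation.ReflTransGen (fun x y => ∃ z, (x, y, z) ∈ flags Γ β) β.o x) :
    ∀ t ∈ flags Γ β, t.1 = x →
      Relation.ReflTransGen (R Γ β Set.univ) (T Γ β (β.fl false false)) (T Γ β t) := by
  induction hx with
  | refl =>
    intro t ht h1
    exact R_mono (Set.subset_univ _) (path_vertex h (fl_mem false false) ht h1.symm)
  | tail _ hstep ih =>
    rename_i x y _
    intro t ht h1
    obtain ⟨z, hz⟩ := hstep
    have hp := ih _ hz rfl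
    obtain ⟨g, hg, i, j, hgij⟩ := hz
    have hu : act g (β.fl (!i) j) ∈ flags Γ β := act_fl_mem hg _ _
    have hxg : x = (act g (β.fl i j)).1 := congrArg Prod.fst hgij
    have hyg : y = (act g (β.fl i j)).2.1 := congrArg (fun t : X × X × X => t.2.1) hgij
    have e1 : (act g (β.fl (!i) j)).1 = y := by
      rw [hyg]; exact congrArg g (fl_not i j).1
    rw [hgij] at hp
    refine hp.trans (Relation.ReflTransGen.trans (b := T Γ β (act g (β.fl (!i) j))) ?_ ?_)
    · refine Relation.ReflTransGen.single ⟨T_flag (act_fl_mem hg _ _), T_flag hu,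
        Or.inl ⟨?_, ?_, ?_⟩, trivial, trivial⟩
      · change (act g (β.fl i j)).1 ≠ (act g (β.fl (!i) j)).1
        rw [e1, hyg]
        exact (flag_ne h (act_fl_mem hg i j)).1
      · change s((act g (β.fl i j)).1, (act g (β.fl i j)).2.1) =
          s((act g (β.fl (!i) j)).1, (act g (β.fl (!i) j)).2.1)
        rw [act_edge, act_edge]
      · exact face_false h hg _ _ _
    · exact R_mono (Set.subset_univ _) (path_vertex h hu ht (e1.trans h1.symm))

theorem path_all (h : Sys Γ β) {t t' : X × X × X} (ht : t ∈ flags Γ β)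
    (ht' : t' ∈ flags Γ β) :
    Relation.ReflTransGen (R Γ β Set.univ) (T Γ β t) (T Γ β t') :=
  (R_symm (path_aux h (h.conn t ht) t ht rfl)).trans (path_aux h (h.conn t' ht') t' ht' rfl)

/-- The flags of a face. -/
theorem path_face (h : Sys Γ β) {t t' : X × X × X} (hst : Steps Γ β t t')
    (ht : t ∈ flags Γ β) :
    Relation.ReflTransGen (R Γ β {D | D.2.2 = faceOf Γ β t}) (T Γ β t) (T Γ β t') := by
  induction hst with
  | refl => exact Relation.ReflTransGen.refl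
  | tail hst' hstep ih =>
    rename_i u v
    have hu : u ∈ flags Γ β := steps_mem h hst' ht
    have hv : v ∈ flags Γ β := step_right h hstep
    have hfu : faceOf Γ β u = faceOf Γ β t := (faceOf_eq h hst').symm
    have hfv : faceOf Γ β v = faceOf Γ β t := (faceOf_eq h (hst'.tail hstep)).symm
    refine ih.tail ⟨T_flag hu, T_flag hv, ?_, hfu, hfv⟩
    cases hstep with
    | turn _ hu' =>
      refine Or.inr (Or.inl ⟨rfl, ?_, hfu.trans hfv.symm⟩)
      intro heq
      have heq' : s(u.1, u.2.1) = s(u.1, u.2.2) := heq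
      rw [Sym2.congr_right] at heq'
      exact (flag_ne h hu).2.2 heq'
    | go g i j hg =>
      refine Or.inl ⟨?_, ?_, hfu.trans hfv.symm⟩
      · change (act g (β.fl i j)).1 ≠ (act g (β.fl (!i) j)).1
        have e1 : (act g (β.fl (!i) j)).1 = (act g (β.fl i j)).2.1 :=
          congrArg g (fl_not i j).1
        rw [e1]
        exact (flag_ne h hu).1
      · change s((act g (β.fl i j)).1, (act g (β.fl i j)).2.1) =
          s((act g (β.fl (!i) j)).1, (act g (β.fl (!i) j)).2.1)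
        rw [act_edge, act_edge]

theorem connected (h : Sys Γ β) (A B : Triple X) (hA : (flagCfg Γ β).IsFlag A)
    (hB : (flagCfg Γ β).IsFlag B) :
    Relation.ReflTransGen (fun C D => (flagCfg Γ β).IsFlag C ∧ (flagCfg Γ β).IsFlag D ∧
      Adjacent C D ∧ HasCommon A B D) A B := by
  have hBB : HasCommon A B B := ⟨fun h => h.symm, fun h => h.symm, fun h => h.symm⟩
  by_cases h1 : A.1 = B.1
  · by_cases h2 : A.2.1 = B.2.1
    · by_cases h3 : A.2.2 = B.2.2
      · have : A = B := Prod.ext h1 (Prod.ext h2 h3)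
        rw [this]
      · exact Relation.ReflTransGen.single ⟨hA, hB, Or.inr (Or.inr ⟨h1, h2, h3⟩), hBB⟩
    · by_cases h3 : A.2.2 = B.2.2
      · exact Relation.ReflTransGen.single ⟨hA, hB, Or.inr (Or.inl ⟨h1, h2, h3⟩), hBB⟩
      · obtain ⟨t, ht, rfl⟩ := exists_T h hA
        obtain ⟨t', ht', rfl⟩ := exists_T h hB
        refine rtg_mono ?_ (path_vertex h ht ht' h1)
        rintro C D ⟨hC, hD, hCD, -, hDS⟩
        exact ⟨hC, hD, hCD, fun _ => hDS, fun e => absurd e h2, fun e => absurd e h3⟩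
  · by_cases h2 : A.2.1 = B.2.1
    · by_cases h3 : A.2.2 = B.2.2
      · exact Relation.ReflTransGen.single ⟨hA, hB, Or.inl ⟨h1, h2, h3⟩, hBB⟩
      · have hC : (flagCfg Γ β).IsFlag (B.1, A.2.1, A.2.2) := by
          refine ⟨hB.1, hA.2.1, hA.2.2.1, ?_, hA.2.2.2.2⟩
          change B.1 ∈ A.2.1
          rw [h2]; exact hB.2.2.2.1
        refine Relation.ReflTransGen.trans (b := (B.1, A.2.1, A.2.2))
          (Relation.ReflTransGen.single ⟨hA, hC, Or.inl ⟨h1, rfl, rfl⟩, ?_⟩)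
          (Relation.ReflTransGen.single ⟨hC, hB, Or.inr (Or.inr ⟨rfl, h2, h3⟩), hBB⟩)
        exact ⟨fun e => absurd e h1, fun _ => rfl, fun e => absurd e h3⟩
    · by_cases h3 : A.2.2 = B.2.2
      · obtain ⟨t, ht, rfl⟩ := exists_T h hA
        obtain ⟨t', ht', rfl⟩ := exists_T h hB
        refine rtg_mono ?_ (path_face h (steps_of_face h ht ht' h3) ht)
        rintro C D ⟨hC, hD, hCD, -, hDS⟩
        exact ⟨hC, hD, hCD, fun e => absurd e h1, fun e => absurd e h2, fun _ => hDS⟩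
      · obtain ⟨t, ht, rfl⟩ := exists_T h hA
        obtain ⟨t', ht', rfl⟩ := exists_T h hB
        refine rtg_mono ?_ (path_all h ht ht')
        rintro C D ⟨hC, hD, hCD, -, -⟩
        exact ⟨hC, hD, hCD, fun e => absurd e h1, fun e => absurd e h2, fun e => absurd e h3⟩

theorem mem_V_snd {t : X × X × X} (ht : t ∈ flags Γ β) : t.2.1 ∈ (flagCfg Γ β).V := by
  obtain ⟨g, hg, i, j, rfl⟩ := ht
  exact ⟨act g (β.fl (!i) j), act_fl_mem hg _ _, (congrArg g (fl_not i j).1).symm⟩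

theorem diamond_edge (h : Sys Γ β) {e : Sym2 X} (he : e ∈ (flagCfg Γ β).E) :
    {f | f ∈ (flagCfg Γ β).F ∧ e ∈ f}.ncard = 2 := by
  obtain ⟨t, ⟨g, hg, i, j, rfl⟩, rfl⟩ := he
  rw [Set.ncard_eq_two]
  refine ⟨_, _, faces_ne h hg, ?_⟩
  ext f
  rw [Set.mem_insert_iff, Set.mem_singleton_iff]
  constructor
  · rintro ⟨⟨t, ht, rfl⟩, hef⟩
    obtain ⟨u, hu, heu⟩ := hef
    have hum := steps_mem h hu ht
    rw [act_edge] at heu
    obtain ⟨a, b, rfl⟩ := flag_edge h hg hum heu.symm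
    rw [faceOf_eq h hu, face_false h hg a false b]
    cases b
    · exact Or.inl rfl
    · exact Or.inr rfl
  · rintro (rfl | rfl)
    · refine ⟨⟨_, act_fl_mem hg false false, rfl⟩, ?_⟩
      rw [act_edge, ← act_edge g false false]
      exact mem_faceOf _
    · refine ⟨⟨_, act_fl_mem hg false true, rfl⟩, ?_⟩
      rw [act_edge, ← act_edge g false true]
      exact mem_faceOf _

end FlagPoly

open FlagPoly

/-- Four base flags give a polyhedron. -/
theorem Sys.isPolyhedron {Γ : Subgroup (Equiv.Perm X)} {β : Base X} (h : Sys Γ β) :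
    (flagCfg Γ β).IsPolyhedron where
  nonempty := ⟨β.o, β.fl false false, fl_mem _ _, rfl⟩
  edge := by
    rintro _ ⟨t, ht, rfl⟩
    exact ⟨t.1, ⟨t, ht, rfl⟩, t.2.1, mem_V_snd ht, (flag_ne h ht).1, rfl⟩
  face := by
    rintro _ ⟨t, ht, rfl⟩
    refine ⟨⟨_, mem_faceOf t⟩, ?_⟩
    rintro _ ⟨u, hu, rfl⟩
    exact ⟨u, steps_mem h hu ht, rfl⟩
  vertex := by
    rintro _ ⟨t, ht, rfl⟩
    exact ⟨_, ⟨t, ht, rfl⟩, Sym2.mem_mk_left _ _⟩
  diamond_edge := fun e he => FlagPoly.diamond_edge h he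
  diamond_face := by
    rintro _ ⟨t, ht, rfl⟩ x hx
    exact simple_all h ht hx
  connected := FlagPoly.connected h

theorem FlagPoly.map_sub {g : Equiv.Perm X} (hg : g ∈ Γ) :
    g '' (flagCfg Γ β).V ⊆ (flagCfg Γ β).V ∧
    Sym2.map g '' (flagCfg Γ β).E ⊆ (flagCfg Γ β).E ∧
    (fun f => Sym2.map g '' f) '' (flagCfg Γ β).F ⊆ (flagCfg Γ β).F := by
  refine ⟨?_, ?_, ?_⟩
  · rintro _ ⟨_, ⟨t, ht, rfl⟩, rfl⟩
    exact ⟨act g t, flags_act hg ht, rfl⟩
  · rintro _ ⟨_, ⟨t, ht, rfl⟩, rfl⟩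
    exact ⟨act g t, flags_act hg ht, rfl⟩
  · rintro _ ⟨_, ⟨t, ht, rfl⟩, rfl⟩
    exact ⟨act g t, flags_act hg ht, (faceOf_act hg t).symm⟩

theorem FlagPoly.map_inv (g : Equiv.Perm X) (e : Sym2 X) :
    Sym2.map g (Sym2.map (g⁻¹ : Equiv.Perm X) e) = e := by
  rw [Sym2.map_map]
  have h1 : (g : X → X) ∘ ((g⁻¹ : Equiv.Perm X) : X → X) = id := by
    funext x; simp
  rw [h1, Sym2.map_id, id]

theorem FlagPoly.map_eq {g : Equiv.Perm X} (hg : g ∈ Γ) :
    (flagCfg Γ β).map g = flagCfg Γ β := by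
  obtain ⟨a1, a2, a3⟩ := FlagPoly.map_sub (β := β) hg
  obtain ⟨b1, b2, b3⟩ := FlagPoly.map_sub (β := β) (Γ.inv_mem hg)
  have hV : (g : X → X) '' (flagCfg Γ β).V = (flagCfg Γ β).V := by
    refine Set.Subset.antisymm a1 fun x hx => ⟨g⁻¹ x, b1 ⟨x, hx, rfl⟩, by simp⟩
  have hE : Sym2.map g '' (flagCfg Γ β).E = (flagCfg Γ β).E := by
    refine Set.Subset.antisymm a2 fun x hx => ⟨_, b2 ⟨x, hx, rfl⟩, FlagPoly.map_inv g x⟩
  have hF : (fun f => Sym2.map g '' f) '' (flagCfg Γ β).F = (flagCfg Γ β).F := by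
    refine Set.Subset.antisymm a3 fun f hf => ⟨_, b3 ⟨f, hf, rfl⟩, ?_⟩
    change Sym2.map g '' (Sym2.map (g⁻¹ : Equiv.Perm X) '' f) = f
    rw [Set.image_image]
    have : (fun e => Sym2.map g (Sym2.map (g⁻¹ : Equiv.Perm X) e)) = id :=
      funext fun e => FlagPoly.map_inv g e
    rw [this, Set.image_id]
  unfold Cfg.map
  rw [hV, hE, hF]

/-- The group acts on the configuration of the flags. -/
theorem Sys.acts {Γ : Subgroup (Equiv.Perm X)} {β : Base X} (h : Sys Γ β) :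
    Acts Γ (flagCfg Γ β) where
  sym g hg := FlagPoly.map_eq hg
  tV := by
    rintro _ ⟨t, ht, rfl⟩ _ ⟨t', ht', rfl⟩
    obtain ⟨g, hg, hgt⟩ := vertex_orbit h ht
    obtain ⟨g', hg', hgt'⟩ := vertex_orbit h ht'
    refine ⟨g' * g⁻¹, Γ.mul_mem hg' (Γ.inv_mem hg), ?_⟩
    rw [hgt, hgt']
    simp
  tE := by
    rintro _ ⟨_, ⟨g, hg, i, j, rfl⟩, rfl⟩ _ ⟨_, ⟨g', hg', i', j', rfl⟩, rfl⟩
    refine ⟨g' * g⁻¹, Γ.mul_mem hg' (Γ.inv_mem hg), ?_⟩
    rw [act_edge, act_edge]
    simp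
  tF := by
    rintro _ ⟨t, ht, rfl⟩ _ ⟨t', ht', rfl⟩
    obtain ⟨g, hg, hst⟩ := steps_base h ht
    obtain ⟨g', hg', hst'⟩ := steps_base h ht'
    refine ⟨g' * g⁻¹, Γ.mul_mem hg' (Γ.inv_mem hg), ?_⟩
    rw [faceOf_eq h hst, faceOf_eq h hst', ← faceOf_act (Γ.mul_mem hg' (Γ.inv_mem hg)),
      act_act, inv_mul_cancel_right]

end Pool.Agent.H21.FT
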