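import Pool.Agent.H21.FT.ConvA
import Pool.Agent.H21.FT.ConvB
import Pool.Agent.H21.FT.FlagPoly

/-!
# The converse: the seven constructions give polyhedra
-/

namespace Pool.Agent.H21.FT

open Pool.Agent.H38.FT (Cfg)

variable {X : Type*}

theorem canon_sys {c : Cls} {A B s : Equiv.Perm X} {o : X} (h : Good c A B s o) :
    Sys (grp A B s) (canon c A B s o) ∧ Compat (grp A B s) (canon c A B s o) := by
  cases c
  · exact canon_sys_reg h
  · exact canon_sys_c2 h
  · exact canon_sys_c20 h
  · exact canon_sys_c21 h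
  · exact canon_sys_c22 h
  · exact canon_sys_c4a h
  · exact canon_sys_c4b h

theorem conv {c : Cls} {A B s : Equiv.Perm X} {o : X} (h : Good c A B s o) :
    (cfg c A B s o).IsPolyhedron ∧ Acts (grp A B s) (cfg c A B s o) := by
  obtain ⟨hβ, hc⟩ := canon_sys h
  rw [← flagCfg_canon h.hA h.hB h.rel hc]
  exact ⟨hβ.isPolyhedron, hβ.acts⟩

end Pool.Agent.H21.FT
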