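import Pool.Agent.H21.FT.Flag

/-!
# General lemmas on systems of base flags (used by `ConvA.lean`)
-/

set_option autoImplicit false

namespace Pool.Agent.H21.FT.CvA

open Pool.Agent.H38.FT (Cfg)

variable {X : Type*}

section General

variable {Γ : Subgroup (Equiv.Perm X)} {β : Base X}

theorem act_one (t : X × X × X) : act 1 t = t := rfl

theorem act_mul (g h : Equiv.Perm X) (t : X × X × X) : act (g * h) t = act g (act h t) := rfl

theorem act_flags {g : Equiv.Perm X} (hg : g ∈ Γ) {t : X × X × X} (ht : t ∈ flags Γ β) :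
    act g t ∈ flags Γ β := by
  obtain ⟨h, hh, i, j, rfl⟩ := ht
  exact ⟨g * h, Γ.mul_mem hg hh, i, j, rfl⟩

theorem fl_mem (i j : Bool) : β.fl i j ∈ flags Γ β := ⟨1, Γ.one_mem, i, j, rfl⟩

theorem swp_flags (hturn : ∀ i j, swp (β.fl i j) ∈ flags Γ β) {t : X × X × X}
    (ht : t ∈ flags Γ β) : swp t ∈ flags Γ β := by
  obtain ⟨h, hh, i, j, rfl⟩ := ht
  exact act_flags hh (hturn i j)

theorem fl_fst (i j : Bool) : (β.fl i j).1 = if i then β.w else β.o := by
  cases i <;> cases j <;> rfl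

theorem fl_snd (i j : Bool) : (β.fl i j).2.1 = if i then β.o else β.w := by
  cases i <;> cases j <;> rfl

theorem fl_inj (ow : β.o ≠ β.w) (b12 : β.b1 ≠ β.b2) (c12 : β.c1 ≠ β.c2) {i j i' j' : Bool}
    (h : β.fl i j = β.fl i' j') : i = i' ∧ j = j' := by
  have hi : i = i' := by
    have h1 := congrArg Prod.fst h
    rw [fl_fst, fl_fst] at h1
    cases i <;> cases i' <;> simp_all
  subst hi
  refine ⟨rfl, ?_⟩
  have h2 := congrArg (fun t => t.2.2) h
  cases i <;> cases j <;> cases j' <;> simp_all [Base.fl]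

/-- `Compat` follows from the description of the elements that preserve the base edge -/
theorem compat_of_edge (ow : β.o ≠ β.w) (b12 : β.b1 ≠ β.b2) (c12 : β.c1 ≠ β.c2)
    (edge : ∀ g ∈ Γ, (g β.o = β.o ∧ g β.w = β.w) ∨ (g β.o = β.w ∧ g β.w = β.o) →
      ∃ k l, ∀ i j, act g (β.fl i j) = β.fl (xor i k) (xor j l)) : Compat Γ β := by
  intro g hg i j i' j' h a b
  have h1 : g (β.fl i j).1 = (β.fl i' j').1 := congrArg Prod.fst h
  have h2 : g (β.fl i j).2.1 = (β.fl i' j').2.1 := congrArg (fun t => t.2.1) h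
  rw [fl_fst, fl_fst] at h1
  rw [fl_snd, fl_snd] at h2
  have h3 : (g β.o = β.o ∧ g β.w = β.w) ∨ (g β.o = β.w ∧ g β.w = β.o) := by
    cases i <;> cases i' <;> simp_all
  obtain ⟨k, l, hkl⟩ := edge g hg h3
  have h4 := hkl i j
  rw [h] at h4
  obtain ⟨e1, e2⟩ := fl_inj ow b12 c12 h4
  rw [hkl a b]
  subst e1 e2
  cases i <;> cases j <;> cases a <;> cases b <;> cases k <;> cases l <;> rfl

/-- the elements that preserve the base edge, when there is an involution that swaps its vertices -/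
theorem edge_of_swap {s : Equiv.Perm X} (hs : s ∈ Γ) (hss : s * s = 1) {l₀ : Bool}
    (hsf : ∀ i j, act s (β.fl i j) = β.fl (!i) (xor j l₀))
    (hfix : ∀ g ∈ Γ, g β.o = β.o → g β.w = β.w →
      ∃ l, ∀ i j, act g (β.fl i j) = β.fl i (xor j l)) :
    ∀ g ∈ Γ, (g β.o = β.o ∧ g β.w = β.w) ∨ (g β.o = β.w ∧ g β.w = β.o) →
      ∃ k l, ∀ i j, act g (β.fl i j) = β.fl (xor i k) (xor j l) := by
  intro g hg h
  rcases h with ⟨h1, h2⟩ | ⟨h1, h2⟩
  · obtain ⟨l, hl⟩ := hfix g hg h1 h2
    exact ⟨false, l, fun i j => by rw [hl, Bool.xor_false]⟩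
  · have so : s β.o = β.w := by
      have := congrArg Prod.fst (hsf false false)
      rwa [fl_fst] at this
    have sw : s β.w = β.o := by
      have := congrArg Prod.fst (hsf true false)
      rwa [fl_fst] at this
    obtain ⟨l, hl⟩ := hfix (s * g) (Γ.mul_mem hs hg) (by rw [Equiv.Perm.mul_apply, h1, sw])
      (by rw [Equiv.Perm.mul_apply, h2, so])
    refine ⟨true, xor l l₀, fun i j => ?_⟩
    have h3 : act g (β.fl i j) = act s (act (s * g) (β.fl i j)) := by
      rw [← act_mul, ← mul_assoc, hss, one_mul]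
    rw [h3, hl, hsf]
    cases i <;> cases j <;> cases l <;> cases l₀ <;> rfl

theorem refl_symm {α : Type*} {R : α → α → Prop} (hR : ∀ a b, R a b → R b a) {a b : α}
    (h : Relation.ReflTransGen R a b) : Relation.ReflTransGen R b a := by
  induction h with
  | refl => exact Relation.ReflTransGen.refl
  | tail _ h2 ih => exact Relation.ReflTransGen.head (hR _ _ h2) ih

theorem vert_rel {A B : Equiv.Perm X} (hA : A β.o = β.o) (hB : B β.o = β.o)
    (hAB : stab A B ≤ Γ) (hturn : ∀ i j, swp (β.fl i j) ∈ flags Γ β)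
    (h1 : Relation.ReflTransGen (fun n n' => (β.o, n, n') ∈ flags Γ β) β.w (A β.w))
    (h2 : Relation.ReflTransGen (fun n n' => (β.o, n, n') ∈ flags Γ β) β.w (B β.w)) :
    ∀ g ∈ stab A B, g β.o = β.o ∧
      Relation.ReflTransGen (fun n n' => (β.o, n, n') ∈ flags Γ β) β.w (g β.w) := by
  intro g hg
  have lift : ∀ (x : Equiv.Perm X), x ∈ stab A B → x β.o = β.o → ∀ {a b : X},
      Relation.ReflTransGen (fun n n' => (β.o, n, n') ∈ flags Γ β) a b →
      Relation.ReflTransGen (fun n n' => (β.o, n, n') ∈ flags Γ β) (x a) (x b) := by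
    intro x hx hxo a b hab
    refine Relation.ReflTransGen.lift x ?_ _ _ hab
    intro n n' hn
    have := act_flags (hAB hx) hn
    simp only [act, hxo] at this
    exact this
  induction hg using Subgroup.closure_induction with
  | mem x hx =>
    rcases hx with rfl | hx
    · exact ⟨hA, h1⟩
    · rw [Set.mem_singleton_iff] at hx
      subst hx
      exact ⟨hB, h2⟩
  | one => exact ⟨rfl, Relation.ReflTransGen.refl⟩
  | mul x y hx hy ihx ihy =>
    refine ⟨by rw [Equiv.Perm.mul_apply, ihy.1, ihx.1], ?_⟩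
    exact ihx.2.trans (lift x hx ihx.1 ihy.2)
  | inv x hx ih =>
    have hxo : x⁻¹ β.o = β.o := by
      rw [Equiv.Perm.inv_eq_iff_eq]
      exact ih.1.symm
    refine ⟨hxo, ?_⟩
    have h3 := lift x⁻¹ ((stab A B).inv_mem hx) hxo ih.2
    have h4 : x⁻¹ (x β.w) = β.w := Equiv.symm_apply_apply x β.w
    rw [h4] at h3
    refine refl_symm (fun a b hab => ?_) h3
    exact swp_flags hturn hab

theorem vert_of {A B s : Equiv.Perm X} (hA : A β.o = β.o) (hB : B β.o = β.o)
    (hAB : stab A B ≤ Γ) (hs : s ∈ Γ) (so : s β.o = β.w) (sw : s β.w = β.o)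
    (hst : ∀ g ∈ Γ, g β.o = β.o → g ∈ stab A B)
    (hturn : ∀ i j, swp (β.fl i j) ∈ flags Γ β)
    (h1 : Relation.ReflTransGen (fun n n' => (β.o, n, n') ∈ flags Γ β) β.w (A β.w))
    (h2 : Relation.ReflTransGen (fun n n' => (β.o, n, n') ∈ flags Γ β) β.w (B β.w)) :
    ∀ t ∈ flags Γ β, t.1 = β.o →
      Relation.ReflTransGen (fun n n' => (β.o, n, n') ∈ flags Γ β) β.w t.2.1 := by
  rintro t ⟨g, hg, i, j, rfl⟩ ht
  have e1 : (act g (β.fl i j)).1 = g (β.fl i j).1 := rfl
  have e2 : (act g (β.fl i j)).2.1 = g (β.fl i j).2.1 := rfl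
  rw [e1, fl_fst] at ht
  rw [e2, fl_snd]
  cases i with
  | false =>
    simp only [Bool.false_eq_true, if_false] at ht ⊢
    exact (vert_rel hA hB hAB hturn h1 h2 g (hst g hg ht)).2
  | true =>
    simp only [if_true] at ht ⊢
    have h3 : (g * s) β.o = β.o := by rw [Equiv.Perm.mul_apply, so, ht]
    have h4 := (vert_rel hA hB hAB hturn h1 h2 (g * s) (hst _ (Γ.mul_mem hg hs) h3)).2
    rwa [Equiv.Perm.mul_apply, sw] at h4

theorem edge_symm {x y : X} (h : ∃ z, (x, y, z) ∈ flags Γ β) : ∃ z, (y, x, z) ∈ flags Γ β := by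
  obtain ⟨z, g, hg, i, j, h⟩ := h
  have h1 : x = g (β.fl i j).1 := congrArg Prod.fst h
  have h2 : y = g (β.fl i j).2.1 := congrArg (fun t => t.2.1) h
  refine ⟨(act g (β.fl (!i) j)).2.2, g, hg, !i, j, ?_⟩
  have e1 : (β.fl (!i) j).1 = (β.fl i j).2.1 := by cases i <;> cases j <;> rfl
  have e2 : (β.fl (!i) j).2.1 = (β.fl i j).1 := by cases i <;> cases j <;> rfl
  refine Prod.ext ?_ (Prod.ext ?_ rfl)
  · change y = g (β.fl (!i) j).1
    rw [e1, h2]
  · change x = g (β.fl (!i) j).2.1
    rw [e2, h1]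

/-- connectedness of the edge graph -/
theorem conn_of {S : Set (Equiv.Perm X)} (hΓ : Γ = Subgroup.closure S)
    (hgen : ∀ g ∈ S, Relation.ReflTransGen (fun x y => ∃ z, (x, y, z) ∈ flags Γ β) β.o (g β.o)) :
    ∀ t ∈ flags Γ β,
      Relation.ReflTransGen (fun x y => ∃ z, (x, y, z) ∈ flags Γ β) β.o t.1 := by
  have lift : ∀ (x : Equiv.Perm X), x ∈ Γ → ∀ {a b : X},
      Relation.ReflTransGen (fun x y => ∃ z, (x, y, z) ∈ flags Γ β) a b →
      Relation.ReflTransGen (fun x y => ∃ z, (x, y, z) ∈ flags Γ β) (x a) (x b) := by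
    intro x hx a b hab
    refine Relation.ReflTransGen.lift x ?_ _ _ hab
    rintro n n' ⟨z, hn⟩
    exact ⟨x z, act_flags hx hn⟩
  have key : ∀ g ∈ Γ,
      Relation.ReflTransGen (fun x y => ∃ z, (x, y, z) ∈ flags Γ β) β.o (g β.o) := by
    intro g hg
    have hg' : g ∈ Subgroup.closure S := by rwa [hΓ] at hg
    clear hg
    induction hg' using Subgroup.closure_induction with
    | mem x hx => exact hgen x hx
    | one => exact Relation.ReflTransGen.refl
    | mul x y hx hy ihx ihy =>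
      exact ihx.trans (lift x (by rw [hΓ]; exact hx) ihy)
    | inv x hx ih =>
      have h3 := lift x⁻¹ (by rw [hΓ]; exact (Subgroup.closure S).inv_mem hx) ih
      have h4 : x⁻¹ (x β.o) = β.o := Equiv.symm_apply_apply x β.o
      rw [h4] at h3
      exact refl_symm (fun a b hab => edge_symm hab) h3
  rintro t ⟨g, hg, i, j, rfl⟩
  have e1 : (act g (β.fl i j)).1 = g (β.fl i j).1 := rfl
  rw [e1, fl_fst]
  cases i with
  | false => exact key g hg
  | true =>
    simp only [if_true]
    refine (key g hg).tail ⟨g β.b1, ?_⟩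
    exact act_flags hg (fl_mem false false)

end General

section Basics

variable {A B s : Equiv.Perm X}

theorem mem_grpA : A ∈ grp A B s := Subgroup.subset_closure (by simp)

theorem mem_grpB : B ∈ grp A B s := Subgroup.subset_closure (by simp)

theorem mem_grps : s ∈ grp A B s := Subgroup.subset_closure (by simp)

theorem mem_stabA : A ∈ stab A B := Subgroup.subset_closure (by simp)

theorem mem_stabB : B ∈ stab A B := Subgroup.subset_closure (by simp)

theorem stab_le_grp : stab A B ≤ grp A B s := by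
  refine Subgroup.closure_mono ?_
  intro x hx
  rcases hx with rfl | hx
  · simp
  · rw [Set.mem_singleton_iff] at hx
    subst hx
    simp

theorem perm_mul_self {g : Equiv.Perm X} (h : g * g = 1) (x : X) : g (g x) = x := by
  have := congrArg (fun f : Equiv.Perm X => f x) h
  exact this

end Basics

end Pool.Agent.H21.FT.CvA
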