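import Pool.Agent.H21.FT.Canon
import Pool.Agent.H21.FT.ConvGen

/-!
# The constructions `reg`, `c2`, `c20`, `c21` give systems of base flags
-/

set_option autoImplicit false

namespace Pool.Agent.H21.FT

open Pool.Agent.H38.FT (Cfg)
open CvA

variable {X : Type*} {A B s : Equiv.Perm X} {o : X}

/-- all fields of `Sys` from the data of the four constructions with `s * s = 1` -/
theorem CvA.sys_of {c : Cls} (h : Good c A B s o) (hss : s * s = 1) (hβo : (canon c A B s o).o = o)
    (hβw : (canon c A B s o).w = s o)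
    (h1 : (canon c A B s o).b1 ≠ o) (h2 : (canon c A B s o).b1 ≠ s o)
    (h3 : (canon c A B s o).b2 ≠ o) (h4 : (canon c A B s o).b2 ≠ s o)
    (how : o ≠ s o) (h5 : (canon c A B s o).b1 ≠ (canon c A B s o).b2)
    {l₀ : Bool} (hsf : ∀ i j, act s ((canon c A B s o).fl i j) =
      (canon c A B s o).fl (!i) (xor j l₀))
    (hfix : ∀ g ∈ stab A B, g (s o) = s o →
      ∃ l, ∀ i j, act g ((canon c A B s o).fl i j) = (canon c A B s o).fl i (xor j l))
    (hvA : Relation.ReflTransGen (fun n n' => (o, n, n') ∈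
      flags (grp A B s) (canon c A B s o)) (s o) (A (s o)))
    (hvB : Relation.ReflTransGen (fun n n' => (o, n, n') ∈
      flags (grp A B s) (canon c A B s o)) (s o) (B (s o))) :
    Sys (grp A B s) (canon c A B s o) ∧ Compat (grp A B s) (canon c A B s o) := by
  set β := canon c A B s o with hβ
  have sso : s (s o) = o := perm_mul_self hss o
  have hturn : ∀ i j, swp (β.fl i j) ∈ flags (grp A B s) β := canon_turn h.hA h.hB h.rel
  have ow : β.o ≠ β.w := by rw [hβo, hβw]; exact how
  -- the other two neighbours are images of the first two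
  have hc : ∀ j, s (β.fl false j).2.2 = (β.fl true (xor j l₀)).2.2 := by
    intro j
    exact congrArg (fun t => t.2.2) (hsf false j)
  have hb : ∀ j, (β.fl false j).2.2 ≠ o ∧ (β.fl false j).2.2 ≠ s o := by
    intro j
    cases j
    · exact ⟨h1, h2⟩
    · exact ⟨h3, h4⟩
  have hcc : ∀ j, (β.fl true j).2.2 ≠ o ∧ (β.fl true j).2.2 ≠ s o := by
    intro j
    have e : (β.fl true j).2.2 = s (β.fl false (xor j l₀)).2.2 := by
      rw [hc]
      cases j <;> cases l₀ <;> rfl
    rw [e]
    constructor
    · intro h6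
      apply (hb (xor j l₀)).2
      rw [← sso] at h6
      exact s.injective h6
    · intro h6
      exact (hb (xor j l₀)).1 (s.injective h6)
  have c12 : β.c1 ≠ β.c2 := by
    have e1 : β.c1 = s (β.fl false (xor false l₀)).2.2 := by
      rw [hc]
      cases l₀ <;> rfl
    have e2 : β.c2 = s (β.fl false (xor true l₀)).2.2 := by
      rw [hc]
      cases l₀ <;> rfl
    rw [e1, e2]
    intro h6
    have h7 := s.injective h6
    cases l₀
    · exact h5 h7
    · exact h5 h7.symm
  have edge := edge_of_swap (Γ := grp A B s) (β := β) mem_grps hss hsf (by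
    intro g hg hgo hgw
    rw [hβo] at hgo
    rw [hβw] at hgw
    exact hfix g (h.stab g hg hgo) hgw)
  have hcompat : Compat (grp A B s) β := compat_of_edge ow h5 c12 edge
  refine ⟨?_, hcompat⟩
  refine ⟨ow, ?_, ?_, ?_, ?_, ?_, ?_, ?_, ?_, h5, c12, ?_, canon_ftr h.hA h.hB h.rel, hturn, edge,
    ?_, ?_, ?_⟩
  · rw [hβo]; exact h1
  · rw [hβw]; exact h2
  · rw [hβo]; exact h3
  · rw [hβw]; exact h4
  · rw [hβo]; exact (hcc false).1
  · rw [hβw]; exact (hcc false).2
  · rw [hβo]; exact (hcc true).1
  · rw [hβw]; exact (hcc true).2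
  · exact ⟨s, mem_grps, by rw [hβo, hβw]⟩
  · refine vert_of (Γ := grp A B s) (β := β) (A := A) (B := B) (s := s) ?_ ?_ stab_le_grp
      mem_grps ?_ ?_ ?_ hturn ?_ ?_
    · rw [hβo]; exact h.hA
    · rw [hβo]; exact h.hB
    · rw [hβo, hβw]
    · rw [hβo, hβw]; exact sso
    · rw [hβo]; exact h.stab
    · rw [hβo, hβw]; exact hvA
    · rw [hβo, hβw]; exact hvB
  · refine conn_of (Γ := grp A B s) (β := β) rfl ?_
    intro g hg
    have hgg : g = A ∨ g = B ∨ g = s := by simpa using hg
    rcases hgg with rfl | rfl | rfl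
    · rw [hβo, h.hA]
    · rw [hβo, h.hB]
    · refine Relation.ReflTransGen.single ⟨β.b1, ?_⟩
      have := fl_mem (Γ := grp A B g) (β := β) false false
      have e : β.fl false false = (β.o, β.w, β.b1) := rfl
      rw [e] at this
      rw [hβo] at this ⊢
      rw [← hβw]
      exact this
  · intro x hx
    rw [canon_faceOf h.hA h.hB h.rel hcompat] at hx ⊢
    exact h.simple x hx

theorem canon_sys_c2 (h : Good .c2 A B s o) :
    Sys (grp A B s) (canon .c2 A B s o) ∧ Compat (grp A B s) (canon .c2 A B s o) := by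
  obtain ⟨hB1, hss⟩ := h.rel
  obtain ⟨hso, hfree, hA1, hA2⟩ := h.nondeg
  have sso : s (s o) = o := perm_mul_self hss o
  have hAo' : A⁻¹ o = o := by rw [Equiv.Perm.inv_eq_iff_eq]; exact h.hA.symm
  have hAw : A (s o) ≠ s o := fun h1 => hA1 (hfree A mem_stabA h1)
  have hAw' : A⁻¹ (s o) ≠ s o := by
    intro h1
    rw [Equiv.Perm.inv_eq_iff_eq] at h1
    exact hAw h1.symm
  refine sys_of (l₀ := true) h hss rfl rfl ?_ ?_ ?_ ?_ (Ne.symm hso) ?_ ?_ ?_ ?_ ?_
  · intro h1
    exact hso (A.injective (h1.trans h.hA.symm))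
  · exact hAw
  · intro h1
    exact hso (A⁻¹.injective (h1.trans hAo'.symm))
  · exact hAw'
  · intro h1
    change A (s o) = A⁻¹ (s o) at h1
    apply hA2
    apply hfree (A * A) ((stab A B).mul_mem mem_stabA mem_stabA)
    rw [Equiv.Perm.mul_apply, h1]
    exact A.apply_symm_apply (s o)
  · intro i j
    cases i <;> cases j <;> simp only [canon, Base.fl, act, sso, Bool.not_false, Bool.not_true,
      Bool.false_xor, Bool.true_xor, perm_mul_self hss]
  · intro g hg hgw
    rw [hfree g hg hgw]
    exact ⟨false, fun i j => by rw [act_one, Bool.xor_false]⟩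
  · exact Relation.ReflTransGen.single (fl_mem false false)
  · rw [hB1]
    exact Relation.ReflTransGen.refl

theorem canon_sys_c20 (h : Good .c20 A B s o) :
    Sys (grp A B s) (canon .c20 A B s o) ∧ Compat (grp A B s) (canon .c20 A B s o) := by
  obtain ⟨hB1, hss⟩ := h.rel
  obtain ⟨hso, hfree, hA1, hA2⟩ := h.nondeg
  have sso : s (s o) = o := perm_mul_self hss o
  have hAo' : A⁻¹ o = o := by rw [Equiv.Perm.inv_eq_iff_eq]; exact h.hA.symm
  have hAw : A (s o) ≠ s o := fun h1 => hA1 (hfree A mem_stabA h1)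
  have hAw' : A⁻¹ (s o) ≠ s o := by
    intro h1
    rw [Equiv.Perm.inv_eq_iff_eq] at h1
    exact hAw h1.symm
  refine sys_of (l₀ := false) h hss rfl rfl ?_ ?_ ?_ ?_ (Ne.symm hso) ?_ ?_ ?_ ?_ ?_
  · intro h1
    exact hso (A.injective (h1.trans h.hA.symm))
  · exact hAw
  · intro h1
    exact hso (A⁻¹.injective (h1.trans hAo'.symm))
  · exact hAw'
  · intro h1
    change A (s o) = A⁻¹ (s o) at h1
    apply hA2
    apply hfree (A * A) ((stab A B).mul_mem mem_stabA mem_stabA)
    rw [Equiv.Perm.mul_apply, h1]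
    exact A.apply_symm_apply (s o)
  · intro i j
    cases i <;> cases j <;> simp only [canon, Base.fl, act, sso, Bool.not_false, Bool.not_true,
      Bool.xor_false, perm_mul_self hss]
  · intro g hg hgw
    rw [hfree g hg hgw]
    exact ⟨false, fun i j => by rw [act_one, Bool.xor_false]⟩
  · exact Relation.ReflTransGen.single (fl_mem false false)
  · rw [hB1]
    exact Relation.ReflTransGen.refl

theorem canon_sys_c21 (h : Good .c21 A B s o) :
    Sys (grp A B s) (canon .c21 A B s o) ∧ Compat (grp A B s) (canon .c21 A B s o) := by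
  obtain ⟨hAA, hBB, hss⟩ := h.rel
  obtain ⟨hso, hfree, hA1, hB1, hAB⟩ := h.nondeg
  have sso : s (s o) = o := perm_mul_self hss o
  have hAw : A (s o) ≠ s o := fun h1 => hA1 (hfree A mem_stabA h1)
  have hBw : B (s o) ≠ s o := fun h1 => hB1 (hfree B mem_stabB h1)
  refine sys_of (l₀ := true) h hss rfl rfl ?_ ?_ ?_ ?_ (Ne.symm hso) ?_ ?_ ?_ ?_ ?_
  · intro h1
    exact hso (A.injective (h1.trans h.hA.symm))
  · exact hAw
  · intro h1
    exact hso (B.injective (h1.trans h.hB.symm))
  · exact hBw
  · intro h1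
    change A (s o) = B (s o) at h1
    apply hAB
    have h2 : A * B = 1 := by
      apply hfree (A * B) ((stab A B).mul_mem mem_stabA mem_stabB)
      rw [Equiv.Perm.mul_apply, ← h1, perm_mul_self hAA]
    have h3 : A * (A * B) = A := by rw [h2, mul_one]
    rw [← mul_assoc, hAA, one_mul] at h3
    exact h3.symm
  · intro i j
    cases i <;> cases j <;> simp only [canon, Base.fl, act, sso, Bool.not_false, Bool.not_true,
      Bool.false_xor, Bool.true_xor, perm_mul_self hss]
  · intro g hg hgw
    rw [hfree g hg hgw]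
    exact ⟨false, fun i j => by rw [act_one, Bool.xor_false]⟩
  · exact Relation.ReflTransGen.single (fl_mem false false)
  · exact Relation.ReflTransGen.single (fl_mem false true)

theorem canon_sys_reg (h : Good .reg A B s o) :
    Sys (grp A B s) (canon .reg A B s o) ∧ Compat (grp A B s) (canon .reg A B s o) := by
  obtain ⟨hAA, hBB, hss, hsB⟩ := h.rel
  obtain ⟨hso, hfree, hAw, hBAw⟩ := h.nondeg
  have sso : s (s o) = o := perm_mul_self hss o
  have hBs : ∀ x, B (s x) = s (B x) := by
    intro x
    have := congrArg (fun f : Equiv.Perm X => f x) hsB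
    exact this.symm
  have hBw : B (s o) = s o := by rw [hBs, h.hB]
  refine sys_of (l₀ := false) h hss rfl rfl ?_ ?_ ?_ ?_ (Ne.symm hso) ?_ ?_ ?_ ?_ ?_
  · intro h1
    exact hso (A.injective (h1.trans h.hA.symm))
  · exact hAw
  · intro h1
    change B (A (s o)) = o at h1
    have h2 : A (s o) = o := B.injective (h1.trans h.hB.symm)
    exact hso (A.injective (h2.trans h.hA.symm))
  · intro h1
    change B (A (s o)) = s o at h1
    exact hAw (B.injective (h1.trans hBw.symm))
  · exact Ne.symm hBAw
  · intro i j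
    cases i <;> cases j <;> simp only [canon, Base.fl, act, sso, Bool.not_false, Bool.not_true,
      Bool.xor_false, perm_mul_self hss]
  · intro g hg hgw
    rcases hfree g hg hgw with rfl | rfl
    · exact ⟨false, fun i j => by rw [act_one, Bool.xor_false]⟩
    · refine ⟨true, fun i j => ?_⟩
      cases i <;> cases j <;> simp only [canon, Base.fl, act, hBw, h.hB, Bool.false_xor,
        Bool.true_xor, Bool.not_true, perm_mul_self hBB, hBs]
  · exact Relation.ReflTransGen.single (fl_mem false false)
  · rw [hBw]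

end Pool.Agent.H21.FT
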