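import Pool.Agent.H38.FT.Defs

/-!
# Infinite fully transitive polyhedra: the seven constructions

A polyhedron is built from permutations `A`, `B`, `s` of the points and a base vertex `o` fixed by
`A` and `B`: its vertices are the images of `o`, its edges the images of the edge `{o, s o}` and its
2-faces the images of a base face, under the group generated by `A`, `B` and `s`.
-/

namespace Pool.Agent.H21.FT

open Pool.Agent.H38.FT (Cfg)

/-- The seven constructions. -/
inductive Cls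
  | reg | c2 | c20 | c21 | c22 | c4a | c4b
  deriving DecidableEq

variable {X : Type*}

/-- The group generated by `A` and `B` (the stabiliser of the base vertex). -/
def stab (A B : Equiv.Perm X) : Subgroup (Equiv.Perm X) := Subgroup.closure {A, B}

/-- The group generated by `A`, `B` and `s`. -/
def grp (A B s : Equiv.Perm X) : Subgroup (Equiv.Perm X) := Subgroup.closure {A, B, s}

/-- The relations between the generators. -/
def Rel : Cls → Equiv.Perm X → Equiv.Perm X → Equiv.Perm X → X → Prop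
  | .reg, A, B, s, _ => A * A = 1 ∧ B * B = 1 ∧ s * s = 1 ∧ s * B = B * s
  | .c2, _, B, s, _ => B = 1 ∧ s * s = 1
  | .c20, _, B, s, _ => B = 1 ∧ s * s = 1
  | .c21, A, B, s, _ => A * A = 1 ∧ B * B = 1 ∧ s * s = 1
  | .c22, A, B, s, o => A * A = 1 ∧ A (s o) = s o ∧ B = s⁻¹ * A * s
  | .c4a, _, B, _, _ => B = 1
  | .c4b, A, B, _, _ => A * A = 1 ∧ B * B = 1

/-- Only the identity of the stabiliser of the base vertex fixes the neighbour `s o`. -/
def Free (A B s : Equiv.Perm X) (o : X) : Prop := ∀ g ∈ stab A B, g (s o) = s o → g = 1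

/-- The neighbours `s o` and `s⁻¹ o` are not images of each other under the stabiliser of `o`. -/
def Apart (A B s : Equiv.Perm X) (o : X) : Prop := ∀ g ∈ stab A B, g (s o) ≠ s⁻¹ o

/-- The neighbours of the base vertex are as distinct as the construction requires. -/
def Nondeg : Cls → Equiv.Perm X → Equiv.Perm X → Equiv.Perm X → X → Prop
  | .reg, A, B, s, o => s o ≠ o ∧ (∀ g ∈ stab A B, g (s o) = s o → g = 1 ∨ g = B) ∧
      A (s o) ≠ s o ∧ B (A (s o)) ≠ A (s o)
  | .c2, A, B, s, o => s o ≠ o ∧ Free A B s o ∧ A ≠ 1 ∧ A * A ≠ 1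
  | .c20, A, B, s, o => s o ≠ o ∧ Free A B s o ∧ A ≠ 1 ∧ A * A ≠ 1
  | .c21, A, B, s, o => s o ≠ o ∧ Free A B s o ∧ A ≠ 1 ∧ B ≠ 1 ∧ A ≠ B
  | .c22, A, B, s, o => s o ≠ o ∧ (∀ g ∈ stab A B, g (s o) = s o → g = 1 ∨ g = A) ∧
      A (s⁻¹ o) ≠ s⁻¹ o ∧ Apart A B s o
  | .c4a, A, B, s, o => s o ≠ o ∧ Free A B s o ∧ A ≠ 1 ∧ Apart A B s o
  | .c4b, A, B, s, o => s o ≠ o ∧ Free A B s o ∧ A ≠ 1 ∧ B ≠ 1 ∧ Apart A B s o

/-- Generators of a group that acts on the base face. -/
def faceGens : Cls → Equiv.Perm X → Equiv.Perm X → Equiv.Perm X → Set (Equiv.Perm X)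
  | .reg, A, _, s => {s, A}
  | .c2, A, _, s => {s * A⁻¹}
  | .c20, A, _, s => {s, A * s * A⁻¹}
  | .c21, A, B, s => {A, s * B * s⁻¹}
  | .c22, _, _, s => {s}
  | .c4a, A, _, s => {s * A * s}
  | .c4b, A, B, s => {A, s * s * B * s⁻¹ * s⁻¹}

/-- Representatives of the edges of the base face. -/
def faceEdges : Cls → Equiv.Perm X → Equiv.Perm X → Equiv.Perm X → X → Set (Sym2 X)
  | .c20, A, _, s, o => {s(o, s o), s(o, A (s o))}
  | .c4a, _, _, s, o => {s(s⁻¹ o, o), s(o, s o)}
  | .c4b, _, _, s, o => {s(o, s o), s(s o, s (s o))}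
  | _, _, _, s, o => {s(o, s o)}

/-- The base face: the set of its edges. -/
def face (c : Cls) (A B s : Equiv.Perm X) (o : X) : Set (Sym2 X) :=
  {e | ∃ g ∈ Subgroup.closure (faceGens c A B s), ∃ e₀ ∈ faceEdges c A B s o, e = Sym2.map g e₀}

/-- The configuration built from `A`, `B`, `s` and `o`. -/
def cfg (c : Cls) (A B s : Equiv.Perm X) (o : X) : Cfg X where
  V := {x | ∃ g ∈ grp A B s, x = g o}
  E := {e | ∃ g ∈ grp A B s, e = Sym2.map g s(o, s o)}
  F := {f | ∃ g ∈ grp A B s, f = Sym2.map g '' face c A B s o}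

/-- The base face is a simple polygon: each of its vertices lies on exactly two of its edges. -/
def SimpleFace (c : Cls) (A B s : Equiv.Perm X) (o : X) : Prop :=
  ∀ x, (∃ e ∈ face c A B s o, x ∈ e) → {e | e ∈ face c A B s o ∧ x ∈ e}.ncard = 2

/-- The hypotheses of the converse theorem. -/
structure Good (c : Cls) (A B s : Equiv.Perm X) (o : X) : Prop where
  hA : A o = o
  hB : B o = o
  rel : Rel c A B s o
  nondeg : Nondeg c A B s o
  simple : SimpleFace c A B s o
  stab : ∀ g ∈ grp A B s, g o = o → g ∈ stab A B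

/-- The group `G` acts on `P` and is transitive on the vertices, edges and 2-faces of `P`. -/
structure Acts (G : Subgroup (Equiv.Perm X)) (P : Cfg X) : Prop where
  sym : ∀ g ∈ G, P.map g = P
  tV : ∀ x ∈ P.V, ∀ y ∈ P.V, ∃ g ∈ G, g x = y
  tE : ∀ e ∈ P.E, ∀ e' ∈ P.E, ∃ g ∈ G, Sym2.map g e = e'
  tF : ∀ f ∈ P.F, ∀ f' ∈ P.F, ∃ g ∈ G, Sym2.map g '' f = f'

/-- An element of `G` that fixes the vertices of an edge and maps a 2-face that contains the edge
to itself is the identity. -/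
def Semireg (G : Subgroup (Equiv.Perm X)) (P : Cfg X) : Prop :=
  ∀ g ∈ G, ∀ x y, ∀ f ∈ P.F, s(x, y) ∈ f → g x = x → g y = y → Sym2.map g '' f = f → g = 1

end Pool.Agent.H21.FT
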