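import Pool.Agent.H21.FT.Tab

/-!
# Certificates for the blocks of the table: the group generated by the stabiliser and one affine map

The translation part of the affine map `t` with linear part `S` is an unknown vector `w`; all
elements of the group are maps `x ↦ M x + X w + y` with `(M, X)` in a finite list and `y` in the
additive group generated by finitely many vectors `X w`.
-/

namespace Pool.Agent.H21.FT

open Matrix

/-- The affine map `x ↦ M x + X w` (for a fixed vector `w`). -/
structure FA where
  M : IM
  X : IM
  deriving DecidableEq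

/-- The composition of the maps. -/
def FA.mul (p q : FA) : FA := ⟨p.M.mul q.M, p.X.add (p.M.mul q.X)⟩

/-- The identity. -/
def FA.one : FA := ⟨IM.one, IM.zero⟩

/-- Data of the group generated by the linear maps `gens` and the map `t = (S, w)`: `Si` is the
inverse of `S`; `reps` are representatives of the elements modulo translations, the first `hn` of
them the elements of the group generated by `gens`; `tree` gives for each representative but the
first one an earlier representative and a generator whose product it is; `sch` are the matrices `X`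
of the translations `X w` that appear, the first one being `0`; `nx` gives for each representative
and each generator the representative of the product and the translation. -/
structure Row where
  gens : List IM
  S : IM
  Si : IM
  hn : ℕ
  reps : List FA
  tree : List (ℕ × ℕ)
  sch : List IM
  nx : List (List (ℕ × ℕ))

/-- The generators `gens`, `t`, `t⁻¹`. -/
def Row.G (r : Row) : List FA :=
  r.gens.map (fun M => ⟨M, IM.zero⟩) ++ [⟨r.S, IM.one⟩, ⟨r.Si, r.Si.neg⟩]

/-- The elements of the group generated by `gens`. -/
def Row.hl (r : Row) : List IM := (r.reps.take r.hn).map FA.M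

/-- The other representatives. -/
def Row.nl (r : Row) : List FA := r.reps.drop r.hn

/-- The checks. -/
def Row.ok (r : Row) : Bool :=
  decide (0 < r.hn) && decide (r.hn ≤ r.reps.length) &&
  decide (r.S.mul r.Si = IM.one) && decide (r.Si.mul r.S = IM.one) &&
  decide (r.reps.head? = some FA.one) && decide (r.sch.head? = some IM.zero) &&
  decide (r.tree.length + 1 = r.reps.length) && decide (r.nx.length = r.reps.length) &&
  -- the representatives are products of earlier representatives and generators
  (r.reps.tail.zip r.tree).zipIdx.all (fun x => decide (x.1.2.1 ≤ x.2) &&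
    decide (x.1.2.2 < r.G.length) &&
    decide (x.1.1 = (r.reps.getD x.1.2.1 FA.one).mul (r.G.getD x.1.2.2 FA.one))) &&
  -- the first ones are built from `gens` only, they are linear
  (r.tree.take (r.hn - 1)).all (fun ij => decide (ij.2 < r.gens.length)) &&
  (r.reps.take r.hn).all (fun p => decide (p.X = IM.zero)) &&
  -- products with generators
  (r.reps.zip r.nx).all (fun x => decide (x.2.length = r.G.length) &&
    (r.G.zip x.2).all (fun y =>
      let q := x.1.mul y.1
      let p := r.reps.getD y.2.1 FA.one
      decide (y.2.1 < r.reps.length) && decide (y.2.2 < r.sch.length) && decide (q.M = p.M) &&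
        decide (q.X = p.X.add (r.sch.getD y.2.2 IM.zero)))) &&
  -- the group generated by `gens` is closed
  (r.nx.take r.hn).all (fun x => (x.take r.gens.length).all (fun y => decide (y.1 < r.hn))) &&
  -- every element of `sch` appears
  (List.range r.sch.length).all (fun b => r.nx.any (fun x => x.any (fun y => decide (y.2 = b)))) &&
  -- the linear parts are different
  r.reps.tail.all (fun p => decide (p.M ≠ IM.one)) &&
  (r.reps.drop r.hn).all (fun p => (r.reps.take r.hn).all (fun q => decide (q.M ≠ p.M))) &&
  -- the generators are invertible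
  r.gens.all (fun M => r.hl.any (fun N => decide (N.mul M = IM.one)))

/-- The group generated by `gens` and `t`. -/
def Row.grp (r : Row) (t : Equiv.Perm V3) : Subgroup (Equiv.Perm V3) :=
  linGrp r.gens ⊔ Subgroup.zpowers t

/-- The additive group generated by the vectors `X w`, `X ∈ sch`. -/
def Row.Tw (r : Row) (w : V3) : AddSubgroup V3 :=
  AddSubgroup.closure {y | ∃ X ∈ r.sch, y = X.mat *ᵥ w}

/-- A lattice of the coordinate space: the vectors `y` such that all entries of `D y` are integer
multiples of `m` and `E y = 0`. -/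
structure LatE where
  D : IM
  m : ℤ
  E : IM
  deriving DecidableEq

/-- The elements of the lattice. -/
def LatE.Mem (L : LatE) (y : V3) : Prop :=
  (∃ k : IV, L.D.mat *ᵥ y = (L.m : ℝ) • k.vec) ∧ L.E.mat *ᵥ y = 0

/-- The lattice `L` in this form. -/
def LatD.toE (L : LatD) : LatE :=
  ⟨L.D, L.m, if L.flat then ⟨⟨0, 0, 1⟩, ⟨0, 0, 0⟩, ⟨0, 0, 0⟩⟩ else IM.zero⟩

/-- All entries of `D y` are integer multiples of `N` and `E y = 0` (for an integer vector `y`). -/
def LatE.div (L : LatE) (N : ℤ) (y : IV) : Bool :=
  let z := L.D.mv y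
  decide (N ∣ z.x) && decide (N ∣ z.y) && decide (N ∣ z.z) &&
    decide (L.E.mv y = ⟨0, 0, 0⟩)

/-- The congruences for `x`, `y` which say that `X (pt 0 x y)` satisfies the congruences of `L`. -/
def conds (f : Fam) (L : LatE) (X : IM) : List Cong :=
  let a := X.mv f.K1
  let b := X.mv f.K2
  let c := X.mv f.v
  [⟨f.den * L.D.a.dot a, f.den * L.D.a.dot b, L.D.a.dot c, f.den * L.m⟩,
   ⟨f.den * L.D.b.dot a, f.den * L.D.b.dot b, L.D.b.dot c, f.den * L.m⟩,
   ⟨f.den * L.D.c.dot a, f.den * L.D.c.dot b, L.D.c.dot c, f.den * L.m⟩]

/-- The integer combination of three congruences with coefficients `u`. -/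
def comb (c : List Cong) (u : IV) : Cong :=
  let c1 := c.getD 0 ⟨0, 0, 0, 0⟩
  let c2 := c.getD 1 ⟨0, 0, 0, 0⟩
  let c3 := c.getD 2 ⟨0, 0, 0, 0⟩
  ⟨u.x * c1.al + u.y * c2.al + u.z * c3.al, u.x * c1.be + u.y * c2.be + u.z * c3.be,
   u.x * c1.ga + u.y * c2.ga + u.z * c3.ga, c1.d⟩

/-- The congruence is never satisfied. -/
def Cong.never (q : Cong) : Bool := decide (q.al = 0) && decide (q.be = 0) && !decide (q.d ∣ q.ga)

/-- The congruence is always satisfied. -/
def Cong.always (q : Cong) : Bool := decide (q.al = 0) && decide (q.be = 0) && decide (q.d ∣ q.ga)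

/-- `q` implies `c`: `c` is an integer multiple of `q`, up to a divisor of the modulus. -/
def Cong.imp (q c : Cong) : Bool :=
  let u := if q.al = 0 then c.be / q.be else c.al / q.al
  decide (u * q.al = c.al) && decide (u * q.be = c.be) && decide (c.d ∣ u * q.d) &&
    decide (c.d ∣ c.ga - u * q.ga)

/-- Coefficients used for combinations. -/
def combs : List IV :=
  [⟨1, 0, 0⟩, ⟨0, 1, 0⟩, ⟨0, 0, 1⟩, ⟨1, 1, 0⟩, ⟨1, -1, 0⟩, ⟨1, 0, 1⟩, ⟨1, 0, -1⟩, ⟨0, 1, 1⟩, ⟨0, 1, -1⟩,
   ⟨1, 1, 1⟩, ⟨1, 1, -1⟩, ⟨1, -1, 1⟩, ⟨1, -1, -1⟩]

/-- `c` and `q` have the same linear forms up to an integer factor `u` of `q`, and `c` implies `q`. -/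
def Cong.gives (c q : Cong) : Bool :=
  let u := if q.al = 0 then c.be / q.be else c.al / q.al
  decide (u ≠ 0) && decide (u * q.al = c.al) && decide (u * q.be = c.be) &&
    decide (u * q.d ∣ c.d) && decide (u * q.d ∣ c.ga - u * q.ga)

/-- The checks for a family: the vectors `X w` with `X ∈ sch` are in the lattice and the vectors
`X w` of the representatives outside the stabiliser are not. -/
def famOK (r : Row) (f : Fam) (L : LatE) : Bool :=
  let N := f.den * L.m
  let z : IV := ⟨0, 0, 0⟩
  decide (0 < f.den) && decide (0 < L.m) &&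
  decide (L.D.a.dot ⟨L.D.b.y * L.D.c.z - L.D.b.z * L.D.c.y, L.D.b.z * L.D.c.x - L.D.b.x * L.D.c.z,
    L.D.b.x * L.D.c.y - L.D.b.y * L.D.c.x⟩ ≠ 0) &&
  r.sch.all (fun X => decide (X.mv f.K1 = z) && decide (X.mv f.K2 = z) && L.div N (X.mv f.v) &&
    L.div N (X.mv f.T1) && L.div N (X.mv f.T2) && L.div N (X.mv f.T3)) &&
  r.nl.all (fun p => decide (L.E.mv (p.X.mv f.K1) = z) && decide (L.E.mv (p.X.mv f.K2) = z) &&
    L.div N (p.X.mv f.T1) && L.div N (p.X.mv f.T2) && L.div N (p.X.mv f.T3) &&
    (decide (L.E.mv (p.X.mv f.v) ≠ z) ||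
      (let c := conds f L p.X
       combs.any (fun u => (comb c u).never) ||
       f.exc.any (fun it => it.all (fun q => combs.any (fun u => (comb c u).gives q))))))

/-- Every excluded item comes from a representative outside the stabiliser. -/
def excOK (r : Row) (f : Fam) (L : LatE) : Bool :=
  f.exc.all (fun it => r.nl.any (fun p =>
    decide (L.E.mv (p.X.mv f.v) = ⟨0, 0, 0⟩) &&
    (conds f L p.X).all (fun c => c.always || it.any (fun q => q.imp c))))

end Pool.Agent.H21.FT
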