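import Pool.Agent.H21.FT.Table
import Pool.Agent.H21.FT.Row

/-!
# Definitions for the completeness of the table
-/

namespace Pool.Agent.H21.FT

open Matrix

/-- What the kernel checks say about a block and its row. -/
structure BlockOK (k : Kind) (b : Block) (rl : Row × List LatE) : Prop where
  kind : b.kind = k
  gens : b.gens = rl.1.gens
  S : b.S = rl.1.S
  auts : ∀ p ∈ rl.1.reps, p.M ∈ k.auts
  ok : rl.1.ok = true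
  len : b.fams.length = rl.2.length
  fams : ∀ fl ∈ b.fams.zip rl.2, famOK rl.1 fl.1 fl.2 = true ∧ excOK rl.1 fl.1 fl.2 = true

/-- `Q` is a similarity followed by a frame matrix. -/
def GoodFrame (k : Kind) (Q : M3) : Prop :=
  ∃ ρ : ℝ, 0 < ρ ∧ ∃ U : M3, Uᵀ * U = 1 ∧ ∃ b c : ℝ, 0 < b ∧ 0 < c ∧ Q = ρ • (U * k.frame b c)

/-- The conclusion of the linear classification. -/
def Conc (A B s : Equiv.Perm V3) : Prop :=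
  ∃ (k : Kind) (Q : M3) (f A' B' s' : Equiv.Perm V3), GoodFrame k Q ∧ IsAff f Q 0 ∧
    A = f * A' * f⁻¹ ∧ B = f * B' * f⁻¹ ∧ s = f * s' * f⁻¹ ∧
    ((∃ b ∈ table, b.kind = k ∧ b.Has A' B' s') ∨ (k = .tet ∧ ∃ r : Rod, r.Has A' B' s'))

/-- Products of matrices of the list. -/
inductive GenBy (l : List IM) : IM → Prop
  | one : GenBy l IM.one
  | mul {M N : IM} : M ∈ l → GenBy l N → GenBy l (M.mul N)

/-- The matrices used to transform a triple of matrices to a row of the table. -/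
def conjs : Kind → List IM
  | .cub => cubAuts
  | .tet => tetAuts ++ tetAuts.map (fun M => IM.mul ⟨⟨1, -1, 0⟩, ⟨1, 1, 0⟩, ⟨0, 0, 1⟩⟩ M)
  | .hex => hexAuts ++ hexAuts.map (fun M => IM.mul ⟨⟨1, 1, 0⟩, ⟨-1, 2, 0⟩, ⟨0, 0, 1⟩⟩ M)
  | .ort => [⟨⟨1, 0, 0⟩, ⟨0, 1, 0⟩, ⟨0, 0, 1⟩⟩, ⟨⟨1, 0, 0⟩, ⟨0, 0, 1⟩, ⟨0, 1, 0⟩⟩,
      ⟨⟨0, 1, 0⟩, ⟨1, 0, 0⟩, ⟨0, 0, 1⟩⟩, ⟨⟨0, 0, 1⟩, ⟨0, 1, 0⟩, ⟨1, 0, 0⟩⟩,
      ⟨⟨0, 1, 0⟩, ⟨0, 0, 1⟩, ⟨1, 0, 0⟩⟩, ⟨⟨0, 0, 1⟩, ⟨1, 0, 0⟩, ⟨0, 1, 0⟩⟩]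

/-- The triple `A`, `B`, `S` is transformed to the row `r` by `N`. -/
def RedTo (A B S N : IM) (r : Row) : Prop :=
  ∃ A' B' S' : IM, N.mul A = A'.mul N ∧ N.mul B = B'.mul N ∧ N.mul S = S'.mul N ∧
    (∀ M, GenBy [A', B'] M ↔ M ∈ r.hl) ∧ ∃ h ∈ r.hl, ∃ h' ∈ r.hl,
      S' = (h.mul r.S).mul h' ∨ S' = (h.mul r.Si).mul h'

/-- Similarities with respect to the frame. -/
def SimF : Kind → M3 → Prop
  | .cub, F => ∃ σ : ℝ, σ ≠ 0 ∧ F = σ • (1 : M3)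
  | .tet, F => ∃ a b τ : ℝ, (a ≠ 0 ∨ b ≠ 0) ∧ τ ≠ 0 ∧ F = !![a, -b, 0; b, a, 0; 0, 0, τ]
  | .hex, F => ∃ a b τ : ℝ, (a ≠ 0 ∨ b ≠ 0) ∧ τ ≠ 0 ∧ F = !![a, -b, 0; b, a - b, 0; 0, 0, τ]
  | .ort, F => ∃ a b c : ℝ, a ≠ 0 ∧ b ≠ 0 ∧ c ≠ 0 ∧ F = !![a, 0, 0; 0, b, 0; 0, 0, c]

/-- The vector `w` belongs to a family of the block, up to a similarity of the frame that commutes
with the linear parts. -/
def RowConc (b : Block) (w : V3) : Prop :=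
  ∃ F : M3, SimF b.kind F ∧ (∀ M ∈ b.S :: b.gens, F * M.mat = M.mat * F) ∧
    ∃ f ∈ b.fams, ∃ n x y, ¬ f.Excl x y ∧ w = F *ᵥ f.pt n x y

end Pool.Agent.H21.FT
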