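import Pool.Agent.H21.FT.DefsC

/-!
# Definitions for the linear classification
-/

namespace Pool.Agent.H21.FT

open Matrix

/-- The columns of `frame * Q` are those of a frame, up to an isometry and a scale. -/
def QGram (k : Kind) (Q : M3) : Prop :=
  ∃ ρ b c : ℝ, 0 < ρ ∧ 0 < b ∧ 0 < c ∧ (k.frame 1 1 * Q)ᵀ * (k.frame 1 1 * Q) =
    ρ ^ 2 • ((k.frame b c)ᵀ * k.frame b c)

/-- The conclusion of the linear classification in frame coordinates. -/
def ConcK (k : Kind) (A B s : Equiv.Perm V3) : Prop :=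
  ∃ (Q : M3) (f A' B' s' : Equiv.Perm V3), QGram k Q ∧ IsAff f Q 0 ∧
    A = f * A' * f⁻¹ ∧ B = f * B' * f⁻¹ ∧ s = f * s' * f⁻¹ ∧
    ∃ b ∈ table, b.kind = k ∧ b.Has A' B' s'

end Pool.Agent.H21.FT
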