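import Pool.Agent.H21.FT.Geo

/-!
# The other generators of a configuration, the base face, further symmetries
-/

namespace Pool.Agent.H21.FT

open Matrix
open Pool.Agent.H38.FT (Cfg E3)

variable {X : Type*}

/-! ### The other generators of the same polyhedron -/

/-- The other triples of generators that give the same configuration with the same group, by the
same construction and with the same base vertex (up to the group itself): one for each further orbit
of flags at which the construction can be started. -/
def others : Cls → Equiv.Perm X → Equiv.Perm X → Equiv.Perm X →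
    List (Equiv.Perm X × Equiv.Perm X × Equiv.Perm X)
  | .reg, _, _, _ => []
  | .c2, A, B, s => [(A⁻¹, B, s)]
  | .c20, A, B, s => [(A⁻¹, B, s)]
  | .c21, A, B, s => [(B, A, s)]
  | .c22, A, B, s => [(B, A, s⁻¹)]
  | .c4a, A, B, s => [(A⁻¹, B, s * A), (A, B, s⁻¹ * A⁻¹), (A⁻¹, B, s⁻¹)]
  | .c4b, A, B, s => [(B, A, s⁻¹)]

/-- The triple conjugated by `σ`. -/
def cnj3 (σ : Equiv.Perm X) (T : Equiv.Perm X × Equiv.Perm X × Equiv.Perm X) :
    Equiv.Perm X × Equiv.Perm X × Equiv.Perm X :=
  (σ * T.1 * σ⁻¹, σ * T.2.1 * σ⁻¹, σ * T.2.2 * σ⁻¹)

/-! ### The base face -/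

/-- A rotation of the base face (for the constructions `c20`, `c21`, `c4a` by two edges, for `c4b`
by four edges). -/
def faceRot : Cls → Equiv.Perm X → Equiv.Perm X → Equiv.Perm X → Equiv.Perm X
  | .c20, A, _, s => A * s * A⁻¹ * s
  | .c21, A, B, s => s * B * s⁻¹ * A
  | .c4a, A, _, s => s * A * s
  | .c4b, A, B, s => s * s * B * s⁻¹ * s⁻¹ * A
  | _, _, _, _ => 1

/-- Consecutive vertices of the base face, one for each orbit of the powers of `faceRot`; the empty
list for the constructions `reg`, `c2` and `c22`, where no condition is needed. -/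
def faceReps : Cls → Equiv.Perm X → Equiv.Perm X → Equiv.Perm X → X → List X
  | .c20, _, _, s, o => [o, s o]
  | .c21, _, _, s, o => [o, s o]
  | .c4a, _, _, s, o => [o, s o]
  | .c4b, A, _, s, o => [A (s o), o, s o, s (s o)]
  | _, _, _, _, _ => []

/-- The vertices of the base face are distinct: a power of `faceRot` other than the identity maps
none of the representatives to a representative. -/
def Distinct (c : Cls) (A B s : Equiv.Perm X) (o : X) : Prop :=
  (faceReps c A B s o).Nodup ∧ ∀ n : ℤ, faceRot c A B s ^ n ≠ 1 →
    ∀ v ∈ faceReps c A B s o, (faceRot c A B s ^ n) v ∉ faceReps c A B s o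

/-! ### Isometries with respect to a frame -/

/-- `M` is the matrix of an isometry with respect to the frame `F`. -/
def OrthF (F M : M3) : Prop := (F * M * F⁻¹)ᵀ * (F * M * F⁻¹) = 1

/-- No isometry that fixes the base vertex transforms the generators to one of the other triples of
generators: the configuration has no further symmetries. -/
def Full (c : Cls) (F : M3) (A B s : Equiv.Perm V3) : Prop :=
  ∀ (σ : Equiv.Perm V3) (M : M3), IsAff σ M 0 → OrthF F M → cnj3 σ (A, B, s) ∉ others c A B s

end Pool.Agent.H21.FT
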