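import Pool.Agent.H21.FT.Tab

/-!
# The integral part of a vector of a family
-/

namespace Pool.Agent.H21.FT

/-- The vector `v + n₁ T1 + n₂ T2 + n₃ T3` of the family. -/
def Fam.base (f : Fam) (n : IV) : IV :=
  ((f.v.add (f.T1.smul n.x)).add (f.T2.smul n.y)).add (f.T3.smul n.z)

end Pool.Agent.H21.FT
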