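import Pool.Agent.H21.FT.Tab

/-!
# The table
-/

namespace Pool.Agent.H21.FT

/-- The cubic blocks. -/
def cubBlocks : List Block :=
  [⟨.cub, [⟨⟨-1, 0, 0⟩, ⟨0, -1, 0⟩, ⟨0, 0, 1⟩⟩], ⟨⟨0, 1, 0⟩, ⟨0, 0, 1⟩, ⟨1, 0, 0⟩⟩,
    [⟨2, ⟨1, 1, 0⟩, ⟨2, 2, 2⟩, ⟨2, 2, -2⟩, ⟨0, 0, 0⟩, ⟨0, -1, 1⟩, ⟨0, 0, 0⟩, []⟩,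
     ⟨2, ⟨1, 3, 0⟩, ⟨2, 2, 2⟩, ⟨2, 2, -2⟩, ⟨0, 0, 0⟩, ⟨0, -1, 1⟩, ⟨0, 0, 0⟩, []⟩,
     ⟨1, ⟨0, 0, 0⟩, ⟨1, 1, 1⟩, ⟨1, 1, -1⟩, ⟨0, 0, 0⟩, ⟨0, -1, 1⟩, ⟨0, 0, 0⟩, [[⟨1, 0, 0, 1⟩]]⟩,
     ⟨1, ⟨0, 1, 0⟩, ⟨1, 1, 1⟩, ⟨1, 1, -1⟩, ⟨0, 0, 0⟩, ⟨0, -1, 1⟩, ⟨0, 0, 0⟩, [[⟨1, 0, 0, 1⟩]]⟩]⟩,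
   ⟨.cub, [⟨⟨-1, 0, 0⟩, ⟨0, -1, 0⟩, ⟨0, 0, 1⟩⟩], ⟨⟨0, 1, 0⟩, ⟨0, 0, 1⟩, ⟨-1, 0, 0⟩⟩,
    [⟨2, ⟨0, 1, 0⟩, ⟨2, 0, 0⟩, ⟨0, 2, 0⟩, ⟨0, 0, 0⟩, ⟨0, -1, 1⟩, ⟨0, 0, 0⟩, [[⟨2, 0, 0, 1⟩]]⟩,
     ⟨2, ⟨1, 0, 0⟩, ⟨2, 2, 0⟩, ⟨2, 0, -2⟩, ⟨0, 0, 0⟩, ⟨0, -1, 1⟩, ⟨0, 0, 0⟩, [[⟨2, 0, 1, 2⟩]]⟩,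
     ⟨2, ⟨1, 2, 0⟩, ⟨2, 2, 0⟩, ⟨2, 0, -2⟩, ⟨0, 0, 0⟩, ⟨0, -1, 1⟩, ⟨0, 0, 0⟩, [[⟨2, 0, 1, 2⟩]]⟩,
     ⟨2, ⟨1, 1, 0⟩, ⟨2, 2, 2⟩, ⟨2, 2, -2⟩, ⟨0, 0, 0⟩, ⟨0, -1, 1⟩, ⟨0, 0, 0⟩, []⟩,
     ⟨2, ⟨1, 3, 0⟩, ⟨2, 2, 2⟩, ⟨2, 2, -2⟩, ⟨0, 0, 0⟩, ⟨0, -1, 1⟩, ⟨0, 0, 0⟩, []⟩]⟩,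
   ⟨.cub, [⟨⟨-1, 0, 0⟩, ⟨0, 0, -1⟩, ⟨0, -1, 0⟩⟩], ⟨⟨0, 1, 0⟩, ⟨0, 0, 1⟩, ⟨-1, 0, 0⟩⟩,
    [⟨2, ⟨0, 1, 0⟩, ⟨2, 0, 0⟩, ⟨0, 2, 0⟩, ⟨0, 0, 0⟩, ⟨1, -2, 1⟩, ⟨0, 0, 0⟩, [[⟨2, 0, 0, 1⟩]]⟩,
     ⟨2, ⟨1, 1, 0⟩, ⟨2, 2, 0⟩, ⟨2, 0, 2⟩, ⟨0, 0, 0⟩, ⟨1, -2, 1⟩, ⟨0, 0, 0⟩, [[⟨2, 0, 0, 1⟩]]⟩,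
     ⟨2, ⟨1, 3, 0⟩, ⟨2, 2, 0⟩, ⟨2, 0, 2⟩, ⟨0, 0, 0⟩, ⟨1, -2, 1⟩, ⟨0, 0, 0⟩, [[⟨1, 0, 0, 1⟩], [⟨2, 0, 1, 2⟩]]⟩,
     ⟨2, ⟨1, 0, 0⟩, ⟨2, 2, -2⟩, ⟨2, -2, 2⟩, ⟨0, 0, 0⟩, ⟨1, -2, 1⟩, ⟨0, 0, 0⟩, [[⟨4, 0, 3, 4⟩], [⟨1, 0, 1, 2⟩], [⟨2, 0, 1, 4⟩]]⟩,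
     ⟨2, ⟨3, 0, 0⟩, ⟨2, 2, -2⟩, ⟨2, -2, 2⟩, ⟨0, 0, 0⟩, ⟨1, -2, 1⟩, ⟨0, 0, 0⟩, [[⟨2, 0, 3, 4⟩], [⟨4, 0, 1, 4⟩], [⟨1, 0, 1, 2⟩]]⟩]⟩,
   ⟨.cub, [⟨⟨-1, 0, 0⟩, ⟨0, 0, -1⟩, ⟨0, -1, 0⟩⟩], ⟨⟨0, 1, 0⟩, ⟨0, 0, -1⟩, ⟨-1, 0, 0⟩⟩,
    [⟨4, ⟨3, 1, 0⟩, ⟨4, 0, 0⟩, ⟨0, 4, 0⟩, ⟨0, 0, 0⟩, ⟨1, 0, 1⟩, ⟨0, 0, 0⟩, [[⟨2, 0, 1, 2⟩], [⟨4, 0, 1, 4⟩]]⟩,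
     ⟨4, ⟨1, 3, 0⟩, ⟨4, 0, 0⟩, ⟨0, 4, 0⟩, ⟨0, 0, 0⟩, ⟨1, 0, 1⟩, ⟨0, 0, 0⟩, [[⟨4, 0, 3, 4⟩], [⟨2, 0, 1, 2⟩]]⟩,
     ⟨1, ⟨1, 0, 0⟩, ⟨1, 1, 1⟩, ⟨1, 1, -1⟩, ⟨0, 0, 0⟩, ⟨1, 0, 1⟩, ⟨0, 0, 0⟩, [[⟨1, 0, 0, 2⟩], [⟨2, 0, 1, 2⟩], [⟨1, 0, 1, 2⟩]]⟩,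
     ⟨2, ⟨1, 1, 0⟩, ⟨2, 2, 2⟩, ⟨2, 2, -2⟩, ⟨0, 0, 0⟩, ⟨1, 0, 1⟩, ⟨0, 0, 0⟩, [[⟨1, 0, 0, 2⟩], [⟨4, 0, 1, 4⟩], [⟨2, 0, 1, 4⟩]]⟩,
     ⟨1, ⟨0, 0, 0⟩, ⟨1, 1, 1⟩, ⟨1, 1, -1⟩, ⟨0, 0, 0⟩, ⟨1, 0, 1⟩, ⟨0, 0, 0⟩, [[⟨1, 0, 0, 1⟩]]⟩,
     ⟨2, ⟨3, 1, 0⟩, ⟨2, 2, 2⟩, ⟨2, 2, -2⟩, ⟨0, 0, 0⟩, ⟨1, 0, 1⟩, ⟨0, 0, 0⟩, [[⟨4, 0, 3, 4⟩], [⟨1, 0, 1, 2⟩], [⟨2, 0, 1, 4⟩]]⟩]⟩,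
   ⟨.cub, [⟨⟨-1, 0, 0⟩, ⟨0, 1, 0⟩, ⟨0, 0, 1⟩⟩], ⟨⟨0, 1, 0⟩, ⟨0, 0, 1⟩, ⟨1, 0, 0⟩⟩,
    [⟨1, ⟨1, 0, 0⟩, ⟨0, 0, 0⟩, ⟨0, 0, 0⟩, ⟨0, 0, 0⟩, ⟨-1, 1, 0⟩, ⟨-1, 0, 1⟩, [[⟨0, 1, 0, 1⟩], [⟨1, 1, 0, 1⟩]]⟩]⟩,
   ⟨.cub, [⟨⟨0, -1, 0⟩, ⟨-1, 0, 0⟩, ⟨0, 0, 1⟩⟩], ⟨⟨1, 0, 0⟩, ⟨0, 0, 1⟩, ⟨0, -1, 0⟩⟩,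
    [⟨2, ⟨1, 0, 0⟩, ⟨0, 0, 0⟩, ⟨0, 0, 0⟩, ⟨0, 0, 0⟩, ⟨0, 1, 0⟩, ⟨0, 0, 1⟩, [[⟨2, 0, 1, 2⟩], [⟨0, 2, 1, 2⟩], [⟨1, 1, 0, 1⟩], [⟨0, 1, 0, 1⟩, ⟨2, 2, 1, 4⟩], [⟨1, 0, 0, 1⟩, ⟨2, 2, 3, 4⟩], [⟨2, -2, 1, 4⟩, ⟨2, 2, 1, 2⟩]]⟩]⟩,
   ⟨.cub, [⟨⟨0, -1, 0⟩, ⟨-1, 0, 0⟩, ⟨0, 0, 1⟩⟩], ⟨⟨0, 1, 0⟩, ⟨0, 0, 1⟩, ⟨1, 0, 0⟩⟩,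
    [⟨1, ⟨1, 0, 0⟩, ⟨0, 0, 0⟩, ⟨0, 0, 0⟩, ⟨0, 0, 0⟩, ⟨-1, 1, 0⟩, ⟨-1, 0, 1⟩, [[⟨1, 0, 1, 2⟩], [⟨0, 1, 1, 2⟩], [⟨1, 1, 0, 2⟩], [⟨0, 1, 0, 1⟩, ⟨1, -1, 0, 2⟩, ⟨1, 2, 1, 2⟩], [⟨1, 1, 0, 1⟩, ⟨1, 2, 1, 2⟩, ⟨2, 1, 1, 2⟩]]⟩]⟩,
   ⟨.cub, [⟨⟨0, 0, -1⟩, ⟨-1, 0, 0⟩, ⟨0, 1, 0⟩⟩], ⟨⟨1, 0, 0⟩, ⟨0, 1, 0⟩, ⟨0, 0, -1⟩⟩,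
    [⟨2, ⟨0, 1, 0⟩, ⟨2, 0, 0⟩, ⟨0, 2, 0⟩, ⟨0, 0, 0⟩, ⟨0, 0, 1⟩, ⟨0, 0, 0⟩, [[⟨2, 0, 1, 2⟩]]⟩,
     ⟨2, ⟨1, 0, 0⟩, ⟨2, 0, 0⟩, ⟨0, 2, 0⟩, ⟨0, 0, 0⟩, ⟨0, 0, 1⟩, ⟨0, 0, 0⟩, [[⟨2, 0, 1, 2⟩]]⟩,
     ⟨2, ⟨1, 1, 0⟩, ⟨2, 2, 0⟩, ⟨2, 0, 2⟩, ⟨0, 0, 0⟩, ⟨0, 0, 1⟩, ⟨0, 0, 0⟩, [[⟨2, 0, 1, 2⟩], [⟨1, 0, 1, 2⟩]]⟩]⟩,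
   ⟨.cub, [⟨⟨0, 0, -1⟩, ⟨-1, 0, 0⟩, ⟨0, 1, 0⟩⟩], ⟨⟨1, 0, 0⟩, ⟨0, 0, 1⟩, ⟨0, -1, 0⟩⟩,
    [⟨4, ⟨1, 1, 0⟩, ⟨4, 0, 0⟩, ⟨0, 4, 0⟩, ⟨0, 0, 0⟩, ⟨0, 0, 1⟩, ⟨0, 0, 0⟩, [[⟨2, 0, 1, 2⟩]]⟩,
     ⟨4, ⟨3, 3, 0⟩, ⟨4, 0, 0⟩, ⟨0, 4, 0⟩, ⟨0, 0, 0⟩, ⟨0, 0, 1⟩, ⟨0, 0, 0⟩, [[⟨2, 0, 1, 2⟩]]⟩,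
     ⟨1, ⟨0, 0, 0⟩, ⟨1, 1, 0⟩, ⟨1, 0, 1⟩, ⟨0, 0, 0⟩, ⟨0, 0, 1⟩, ⟨0, 0, 0⟩, [[⟨1, 0, 0, 1⟩]]⟩,
     ⟨2, ⟨1, 1, 0⟩, ⟨2, 2, 0⟩, ⟨2, 0, 2⟩, ⟨0, 0, 0⟩, ⟨0, 0, 1⟩, ⟨0, 0, 0⟩, [[⟨2, 0, 1, 2⟩], [⟨1, 0, 1, 2⟩]]⟩]⟩,
   ⟨.cub, [⟨⟨0, 0, -1⟩, ⟨-1, 0, 0⟩, ⟨0, 1, 0⟩⟩], ⟨⟨1, 0, 0⟩, ⟨0, 0, -1⟩, ⟨0, -1, 0⟩⟩,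
    [⟨2, ⟨1, 0, 0⟩, ⟨2, 0, 0⟩, ⟨0, 2, 0⟩, ⟨0, 0, 0⟩, ⟨0, 1, 1⟩, ⟨0, 0, 0⟩, [[⟨2, 0, 1, 2⟩]]⟩,
     ⟨1, ⟨0, 1, 0⟩, ⟨1, 1, 0⟩, ⟨1, 0, 1⟩, ⟨0, 0, 0⟩, ⟨0, 1, 1⟩, ⟨0, 0, 0⟩, [[⟨1, 0, 0, 1⟩]]⟩,
     ⟨2, ⟨1, 2, 0⟩, ⟨2, 2, 2⟩, ⟨2, 2, -2⟩, ⟨0, 0, 0⟩, ⟨0, 1, 1⟩, ⟨0, 0, 0⟩, []⟩]⟩,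
   ⟨.cub, [⟨⟨0, 0, -1⟩, ⟨-1, 0, 0⟩, ⟨0, 1, 0⟩⟩], ⟨⟨1, 0, 0⟩, ⟨0, -1, 0⟩, ⟨0, 0, -1⟩⟩,
    [⟨2, ⟨1, 1, 0⟩, ⟨2, 0, 0⟩, ⟨0, 2, 0⟩, ⟨0, 0, 0⟩, ⟨0, 1, 1⟩, ⟨0, 0, 0⟩, []⟩,
     ⟨1, ⟨0, 0, 0⟩, ⟨1, 1, 1⟩, ⟨1, 1, -1⟩, ⟨0, 0, 0⟩, ⟨0, 1, 1⟩, ⟨0, 0, 0⟩, [[⟨1, 0, 0, 2⟩]]⟩,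
     ⟨1, ⟨0, 1, 0⟩, ⟨1, 1, 1⟩, ⟨1, 1, -1⟩, ⟨0, 0, 0⟩, ⟨0, 1, 1⟩, ⟨0, 0, 0⟩, []⟩]⟩,
   ⟨.cub, [⟨⟨0, 0, 1⟩, ⟨0, -1, 0⟩, ⟨-1, 0, 0⟩⟩], ⟨⟨1, 0, 0⟩, ⟨0, 0, 1⟩, ⟨0, 1, 0⟩⟩,
    [⟨2, ⟨0, 1, -1⟩, ⟨-2, 2, 2⟩, ⟨2, -2, 2⟩, ⟨2, 2, -2⟩, ⟨0, 0, 0⟩, ⟨0, 0, 0⟩, []⟩,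
     ⟨2, ⟨0, 1, 1⟩, ⟨0, 2, 2⟩, ⟨2, 0, 2⟩, ⟨2, 2, 0⟩, ⟨0, 0, 0⟩, ⟨0, 0, 0⟩, []⟩]⟩,
   ⟨.cub, [⟨⟨0, 0, 1⟩, ⟨0, -1, 0⟩, ⟨-1, 0, 0⟩⟩], ⟨⟨1, 0, 0⟩, ⟨0, 0, 1⟩, ⟨0, -1, 0⟩⟩,
    [⟨4, ⟨2, 1, 1⟩, ⟨-4, 4, 4⟩, ⟨4, -4, 4⟩, ⟨4, 4, -4⟩, ⟨0, 0, 0⟩, ⟨0, 0, 0⟩, []⟩,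
     ⟨4, ⟨-2, -1, -1⟩, ⟨-4, 4, 4⟩, ⟨4, -4, 4⟩, ⟨4, 4, -4⟩, ⟨0, 0, 0⟩, ⟨0, 0, 0⟩, []⟩,
     ⟨4, ⟨0, 1, 1⟩, ⟨4, 0, 0⟩, ⟨0, 4, 0⟩, ⟨0, 0, 4⟩, ⟨0, 0, 0⟩, ⟨0, 0, 0⟩, []⟩,
     ⟨2, ⟨1, 0, 0⟩, ⟨0, 2, 2⟩, ⟨2, 0, 2⟩, ⟨2, 2, 0⟩, ⟨0, 0, 0⟩, ⟨0, 0, 0⟩, []⟩]⟩,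
   ⟨.cub, [⟨⟨0, 0, 1⟩, ⟨0, -1, 0⟩, ⟨1, 0, 0⟩⟩, ⟨⟨0, 0, -1⟩, ⟨0, -1, 0⟩, ⟨-1, 0, 0⟩⟩], ⟨⟨1, 0, 0⟩, ⟨0, 0, 1⟩, ⟨0, 1, 0⟩⟩,
    [⟨4, ⟨2, 3, 1⟩, ⟨-4, 4, 4⟩, ⟨4, -4, 4⟩, ⟨4, 4, -4⟩, ⟨0, 0, 0⟩, ⟨0, 0, 0⟩, []⟩,
     ⟨4, ⟨2, 1, 3⟩, ⟨-4, 4, 4⟩, ⟨4, -4, 4⟩, ⟨4, 4, -4⟩, ⟨0, 0, 0⟩, ⟨0, 0, 0⟩, []⟩,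
     ⟨4, ⟨0, -1, 1⟩, ⟨4, 0, 0⟩, ⟨0, 4, 0⟩, ⟨0, 0, 4⟩, ⟨0, 0, 0⟩, ⟨0, 0, 0⟩, []⟩]⟩,
   ⟨.cub, [⟨⟨0, 0, 1⟩, ⟨0, -1, 0⟩, ⟨1, 0, 0⟩⟩, ⟨⟨0, 0, -1⟩, ⟨0, -1, 0⟩, ⟨-1, 0, 0⟩⟩], ⟨⟨1, 0, 0⟩, ⟨0, 0, 1⟩, ⟨0, -1, 0⟩⟩,
    [⟨2, ⟨0, 1, 1⟩, ⟨-2, 2, 2⟩, ⟨2, -2, 2⟩, ⟨2, 2, -2⟩, ⟨0, 0, 0⟩, ⟨0, 0, 0⟩, []⟩,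
     ⟨2, ⟨0, 1, -1⟩, ⟨0, 2, 2⟩, ⟨2, 0, 2⟩, ⟨2, 2, 0⟩, ⟨0, 0, 0⟩, ⟨0, 0, 0⟩, []⟩]⟩,
   ⟨.cub, [⟨⟨0, 0, 1⟩, ⟨0, -1, 0⟩, ⟨1, 0, 0⟩⟩, ⟨⟨0, 0, -1⟩, ⟨0, 1, 0⟩, ⟨-1, 0, 0⟩⟩], ⟨⟨1, 0, 0⟩, ⟨0, 0, 1⟩, ⟨0, -1, 0⟩⟩,
    []⟩,
   ⟨.cub, [⟨⟨0, 0, 1⟩, ⟨0, 1, 0⟩, ⟨-1, 0, 0⟩⟩], ⟨⟨1, 0, 0⟩, ⟨0, 0, 1⟩, ⟨0, 1, 0⟩⟩,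
    [⟨2, ⟨1, 0, 0⟩, ⟨2, 0, 0⟩, ⟨0, 2, 0⟩, ⟨0, 0, 0⟩, ⟨0, -1, 1⟩, ⟨0, 0, 0⟩, [[⟨2, 0, 0, 1⟩]]⟩,
     ⟨1, ⟨0, 1, 0⟩, ⟨1, 1, 0⟩, ⟨1, 0, -1⟩, ⟨0, 0, 0⟩, ⟨0, -1, 1⟩, ⟨0, 0, 0⟩, [[⟨1, 0, 0, 1⟩], [⟨2, 0, 1, 2⟩]]⟩]⟩,
   ⟨.cub, [⟨⟨0, 0, 1⟩, ⟨0, 1, 0⟩, ⟨-1, 0, 0⟩⟩], ⟨⟨1, 0, 0⟩, ⟨0, 0, 1⟩, ⟨0, -1, 0⟩⟩,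
    [⟨1, ⟨0, 0, 0⟩, ⟨1, 0, 0⟩, ⟨0, 1, 0⟩, ⟨0, 0, 0⟩, ⟨0, 1, 1⟩, ⟨0, 0, 0⟩, [[⟨2, 0, 0, 1⟩]]⟩,
     ⟨1, ⟨0, 0, 0⟩, ⟨1, 1, 0⟩, ⟨1, 0, 1⟩, ⟨0, 0, 0⟩, ⟨0, 1, 1⟩, ⟨0, 0, 0⟩, [[⟨1, 0, 0, 1⟩]]⟩,
     ⟨1, ⟨0, 0, 0⟩, ⟨1, 1, 1⟩, ⟨1, 1, -1⟩, ⟨0, 0, 0⟩, ⟨0, 1, 1⟩, ⟨0, 0, 0⟩, [[⟨1, 0, 0, 1⟩]]⟩]⟩,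
   ⟨.cub, [⟨⟨0, 0, 1⟩, ⟨0, 1, 0⟩, ⟨1, 0, 0⟩⟩, ⟨⟨0, 0, -1⟩, ⟨0, 1, 0⟩, ⟨-1, 0, 0⟩⟩], ⟨⟨1, 0, 0⟩, ⟨0, 0, 1⟩, ⟨0, 1, 0⟩⟩,
    [⟨1, ⟨0, 0, 0⟩, ⟨1, 0, 0⟩, ⟨0, 1, 0⟩, ⟨0, 0, 0⟩, ⟨0, -1, 1⟩, ⟨0, 0, 0⟩, [[⟨2, 0, 0, 1⟩]]⟩,
     ⟨1, ⟨0, 0, 0⟩, ⟨1, 1, 0⟩, ⟨1, 0, -1⟩, ⟨0, 0, 0⟩, ⟨0, -1, 1⟩, ⟨0, 0, 0⟩, [[⟨1, 0, 0, 1⟩]]⟩,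
     ⟨1, ⟨0, 0, 0⟩, ⟨1, 1, 1⟩, ⟨1, 1, -1⟩, ⟨0, 0, 0⟩, ⟨0, -1, 1⟩, ⟨0, 0, 0⟩, [[⟨1, 0, 0, 1⟩]]⟩]⟩,
   ⟨.cub, [⟨⟨0, 0, 1⟩, ⟨0, 1, 0⟩, ⟨1, 0, 0⟩⟩, ⟨⟨0, 0, -1⟩, ⟨0, 1, 0⟩, ⟨-1, 0, 0⟩⟩], ⟨⟨1, 0, 0⟩, ⟨0, 0, 1⟩, ⟨0, -1, 0⟩⟩,
    [⟨1, ⟨0, 1, 0⟩, ⟨1, 1, 0⟩, ⟨1, 0, 1⟩, ⟨0, 0, 0⟩, ⟨0, 1, 1⟩, ⟨0, 0, 0⟩, [[⟨1, 0, 0, 1⟩], [⟨2, 0, 1, 2⟩]]⟩,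
     ⟨2, ⟨1, 0, 0⟩, ⟨2, 2, 0⟩, ⟨2, 0, 2⟩, ⟨0, 0, 0⟩, ⟨0, 1, 1⟩, ⟨0, 0, 0⟩, [[⟨2, 0, 1, 2⟩]]⟩,
     ⟨2, ⟨1, 2, 0⟩, ⟨2, 2, 0⟩, ⟨2, 0, 2⟩, ⟨0, 0, 0⟩, ⟨0, 1, 1⟩, ⟨0, 0, 0⟩, [[⟨2, 0, 1, 2⟩]]⟩]⟩,
   ⟨.cub, [⟨⟨1, 0, 0⟩, ⟨0, -1, 0⟩, ⟨0, 0, -1⟩⟩, ⟨⟨-1, 0, 0⟩, ⟨0, 1, 0⟩, ⟨0, 0, -1⟩⟩], ⟨⟨0, 1, 0⟩, ⟨0, 0, 1⟩, ⟨1, 0, 0⟩⟩,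
    [⟨1, ⟨0, 1, 0⟩, ⟨-1, 1, 1⟩, ⟨1, -1, 1⟩, ⟨1, 1, -1⟩, ⟨0, 0, 0⟩, ⟨0, 0, 0⟩, []⟩,
     ⟨1, ⟨0, 0, 1⟩, ⟨-1, 1, 1⟩, ⟨1, -1, 1⟩, ⟨1, 1, -1⟩, ⟨0, 0, 0⟩, ⟨0, 0, 0⟩, []⟩,
     ⟨1, ⟨1, 0, 0⟩, ⟨-1, 1, 1⟩, ⟨1, -1, 1⟩, ⟨1, 1, -1⟩, ⟨0, 0, 0⟩, ⟨0, 0, 0⟩, []⟩]⟩,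
   ⟨.cub, [⟨⟨1, 0, 0⟩, ⟨0, -1, 0⟩, ⟨0, 0, -1⟩⟩, ⟨⟨-1, 0, 0⟩, ⟨0, 1, 0⟩, ⟨0, 0, -1⟩⟩], ⟨⟨0, 1, 0⟩, ⟨0, 0, 1⟩, ⟨-1, 0, 0⟩⟩,
    [⟨2, ⟨0, 0, 1⟩, ⟨2, 0, 0⟩, ⟨0, 2, 0⟩, ⟨0, 0, 2⟩, ⟨0, 0, 0⟩, ⟨0, 0, 0⟩, []⟩,
     ⟨2, ⟨0, 1, 0⟩, ⟨2, 0, 0⟩, ⟨0, 2, 0⟩, ⟨0, 0, 2⟩, ⟨0, 0, 0⟩, ⟨0, 0, 0⟩, []⟩,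
     ⟨2, ⟨1, 0, 0⟩, ⟨2, 0, 0⟩, ⟨0, 2, 0⟩, ⟨0, 0, 2⟩, ⟨0, 0, 0⟩, ⟨0, 0, 0⟩, []⟩]⟩,
   ⟨.cub, [⟨⟨1, 0, 0⟩, ⟨0, -1, 0⟩, ⟨0, 0, -1⟩⟩, ⟨⟨-1, 0, 0⟩, ⟨0, 1, 0⟩, ⟨0, 0, 1⟩⟩], ⟨⟨0, 1, 0⟩, ⟨0, 0, 1⟩, ⟨1, 0, 0⟩⟩,
    [⟨2, ⟨1, 0, -1⟩, ⟨0, 2, 2⟩, ⟨2, 0, 2⟩, ⟨2, 2, 0⟩, ⟨0, 0, 0⟩, ⟨0, 0, 0⟩, []⟩]⟩,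
   ⟨.cub, [⟨⟨1, 0, 0⟩, ⟨0, -1, 0⟩, ⟨0, 0, 1⟩⟩, ⟨⟨-1, 0, 0⟩, ⟨0, 1, 0⟩, ⟨0, 0, 1⟩⟩], ⟨⟨0, 1, 0⟩, ⟨0, 0, 1⟩, ⟨1, 0, 0⟩⟩,
    [⟨2, ⟨1, 1, 0⟩, ⟨2, 0, 0⟩, ⟨0, 2, 0⟩, ⟨0, 0, 0⟩, ⟨0, -1, 1⟩, ⟨0, 0, 0⟩, [[⟨2, 0, 0, 1⟩]]⟩,
     ⟨1, ⟨0, 0, 0⟩, ⟨1, 1, 1⟩, ⟨1, 1, -1⟩, ⟨0, 0, 0⟩, ⟨0, -1, 1⟩, ⟨0, 0, 0⟩, [[⟨1, 0, 0, 1⟩]]⟩,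
     ⟨1, ⟨0, 1, 0⟩, ⟨1, 1, 1⟩, ⟨1, 1, -1⟩, ⟨0, 0, 0⟩, ⟨0, -1, 1⟩, ⟨0, 0, 0⟩, [[⟨1, 0, 0, 1⟩]]⟩]⟩,
   ⟨.cub, [⟨⟨1, 0, 0⟩, ⟨0, -1, 0⟩, ⟨0, 0, 1⟩⟩, ⟨⟨0, 0, -1⟩, ⟨0, 1, 0⟩, ⟨-1, 0, 0⟩⟩], ⟨⟨1, 0, 0⟩, ⟨0, 0, 1⟩, ⟨0, 1, 0⟩⟩,
    [⟨1, ⟨0, 0, 0⟩, ⟨1, 0, 0⟩, ⟨0, 1, 0⟩, ⟨0, 0, 0⟩, ⟨0, -1, 1⟩, ⟨0, 0, 0⟩, [[⟨2, 0, 0, 1⟩]]⟩,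
     ⟨1, ⟨0, 0, 0⟩, ⟨1, 1, 0⟩, ⟨1, 0, -1⟩, ⟨0, 0, 0⟩, ⟨0, -1, 1⟩, ⟨0, 0, 0⟩, [[⟨2, 0, 0, 1⟩]]⟩,
     ⟨1, ⟨0, 0, 0⟩, ⟨1, 1, 1⟩, ⟨1, 1, -1⟩, ⟨0, 0, 0⟩, ⟨0, -1, 1⟩, ⟨0, 0, 0⟩, [[⟨1, 0, 0, 1⟩]]⟩]⟩,
   ⟨.cub, [⟨⟨1, 0, 0⟩, ⟨0, -1, 0⟩, ⟨0, 0, 1⟩⟩, ⟨⟨0, 0, -1⟩, ⟨0, 1, 0⟩, ⟨-1, 0, 0⟩⟩], ⟨⟨0, 1, 0⟩, ⟨1, 0, 0⟩, ⟨0, 0, -1⟩⟩,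
    [⟨1, ⟨0, 0, 0⟩, ⟨1, 0, 0⟩, ⟨0, 0, 1⟩, ⟨0, 0, 0⟩, ⟨-1, 1, 2⟩, ⟨0, 0, 0⟩, [[⟨2, 0, 0, 1⟩]]⟩,
     ⟨1, ⟨0, 0, 0⟩, ⟨1, 0, 1⟩, ⟨1, 0, -1⟩, ⟨0, 0, 0⟩, ⟨-1, 1, 2⟩, ⟨0, 0, 0⟩, [[⟨2, 0, 0, 1⟩]]⟩,
     ⟨1, ⟨0, 0, 0⟩, ⟨1, 1, 1⟩, ⟨1, -1, -1⟩, ⟨0, 0, 0⟩, ⟨-1, 1, 2⟩, ⟨0, 0, 0⟩, [[⟨1, 0, 0, 1⟩]]⟩]⟩,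
   ⟨.cub, [⟨⟨0, 0, 1⟩, ⟨-1, 0, 0⟩, ⟨0, 1, 0⟩⟩], ⟨⟨1, 0, 0⟩, ⟨0, 1, 0⟩, ⟨0, 0, -1⟩⟩,
    [⟨1, ⟨0, 1, 0⟩, ⟨-1, 1, 1⟩, ⟨1, -1, 1⟩, ⟨1, 1, -1⟩, ⟨0, 0, 0⟩, ⟨0, 0, 0⟩, []⟩,
     ⟨1, ⟨0, 0, 1⟩, ⟨-1, 1, 1⟩, ⟨1, -1, 1⟩, ⟨1, 1, -1⟩, ⟨0, 0, 0⟩, ⟨0, 0, 0⟩, []⟩,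
     ⟨1, ⟨1, 0, 0⟩, ⟨-1, 1, 1⟩, ⟨1, -1, 1⟩, ⟨1, 1, -1⟩, ⟨0, 0, 0⟩, ⟨0, 0, 0⟩, []⟩]⟩,
   ⟨.cub, [⟨⟨0, 0, 1⟩, ⟨-1, 0, 0⟩, ⟨0, 1, 0⟩⟩], ⟨⟨1, 0, 0⟩, ⟨0, 0, 1⟩, ⟨0, 1, 0⟩⟩,
    [⟨2, ⟨0, 1, 1⟩, ⟨0, 2, 2⟩, ⟨2, 0, 2⟩, ⟨2, 2, 0⟩, ⟨0, 0, 0⟩, ⟨0, 0, 0⟩, []⟩,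
     ⟨2, ⟨1, 1, 1⟩, ⟨-2, 2, 2⟩, ⟨2, -2, 2⟩, ⟨2, 2, -2⟩, ⟨0, 0, 0⟩, ⟨0, 0, 0⟩, []⟩,
     ⟨2, ⟨-1, 1, 1⟩, ⟨-2, 2, 2⟩, ⟨2, -2, 2⟩, ⟨2, 2, -2⟩, ⟨0, 0, 0⟩, ⟨0, 0, 0⟩, []⟩,
     ⟨2, ⟨1, 0, 0⟩, ⟨2, 0, 0⟩, ⟨0, 2, 0⟩, ⟨0, 0, 2⟩, ⟨0, 0, 0⟩, ⟨0, 0, 0⟩, []⟩]⟩,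
   ⟨.cub, [⟨⟨0, 0, 1⟩, ⟨0, -1, 0⟩, ⟨1, 0, 0⟩⟩, ⟨⟨0, -1, 0⟩, ⟨-1, 0, 0⟩, ⟨0, 0, -1⟩⟩], ⟨⟨1, 0, 0⟩, ⟨0, 1, 0⟩, ⟨0, 0, -1⟩⟩,
    [⟨2, ⟨0, 0, 1⟩, ⟨2, 0, 0⟩, ⟨0, 2, 0⟩, ⟨0, 0, 2⟩, ⟨0, 0, 0⟩, ⟨0, 0, 0⟩, []⟩,
     ⟨2, ⟨1, -1, 0⟩, ⟨0, 2, 2⟩, ⟨2, 0, 2⟩, ⟨2, 2, 0⟩, ⟨0, 0, 0⟩, ⟨0, 0, 0⟩, []⟩]⟩,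
   ⟨.cub, [⟨⟨0, 0, 1⟩, ⟨0, -1, 0⟩, ⟨1, 0, 0⟩⟩, ⟨⟨0, -1, 0⟩, ⟨-1, 0, 0⟩, ⟨0, 0, -1⟩⟩], ⟨⟨1, 0, 0⟩, ⟨0, 0, 1⟩, ⟨0, -1, 0⟩⟩,
    [⟨1, ⟨0, 1, 0⟩, ⟨-1, 1, 1⟩, ⟨1, -1, 1⟩, ⟨1, 1, -1⟩, ⟨0, 0, 0⟩, ⟨0, 0, 0⟩, []⟩]⟩,
   ⟨.cub, [⟨⟨1, 0, 0⟩, ⟨0, 0, -1⟩, ⟨0, -1, 0⟩⟩, ⟨⟨0, 0, 1⟩, ⟨0, 1, 0⟩, ⟨1, 0, 0⟩⟩], ⟨⟨1, 0, 0⟩, ⟨0, 1, 0⟩, ⟨0, 0, -1⟩⟩,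
    [⟨2, ⟨1, 1, 0⟩, ⟨2, 2, 0⟩, ⟨2, 0, 2⟩, ⟨0, 0, 0⟩, ⟨0, 0, 1⟩, ⟨0, 0, 0⟩, [[⟨2, 0, 1, 2⟩], [⟨1, 0, 1, 2⟩]]⟩,
     ⟨1, ⟨0, 0, 0⟩, ⟨1, 1, 0⟩, ⟨1, 0, 1⟩, ⟨0, 0, 0⟩, ⟨0, 0, 1⟩, ⟨0, 0, 0⟩, [[⟨1, 0, 0, 1⟩]]⟩]⟩,
   ⟨.cub, [⟨⟨1, 0, 0⟩, ⟨0, 0, -1⟩, ⟨0, -1, 0⟩⟩, ⟨⟨0, 0, 1⟩, ⟨0, 1, 0⟩, ⟨1, 0, 0⟩⟩], ⟨⟨1, 0, 0⟩, ⟨0, 0, 1⟩, ⟨0, 1, 0⟩⟩,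
    [⟨1, ⟨0, 0, 0⟩, ⟨1, 0, 0⟩, ⟨0, 1, 0⟩, ⟨0, 0, 0⟩, ⟨0, -1, 1⟩, ⟨0, 0, 0⟩, [[⟨1, 0, 0, 1⟩]]⟩,
     ⟨1, ⟨0, 0, 0⟩, ⟨1, 1, 0⟩, ⟨1, 0, -1⟩, ⟨0, 0, 0⟩, ⟨0, -1, 1⟩, ⟨0, 0, 0⟩, [[⟨1, 0, 0, 1⟩]]⟩,
     ⟨1, ⟨0, 0, 0⟩, ⟨1, 1, 1⟩, ⟨1, 1, -1⟩, ⟨0, 0, 0⟩, ⟨0, -1, 1⟩, ⟨0, 0, 0⟩, [[⟨1, 0, 0, 2⟩]]⟩]⟩,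
   ⟨.cub, [⟨⟨1, 0, 0⟩, ⟨0, -1, 0⟩, ⟨0, 0, -1⟩⟩, ⟨⟨0, 0, 1⟩, ⟨0, -1, 0⟩, ⟨1, 0, 0⟩⟩], ⟨⟨1, 0, 0⟩, ⟨0, 0, 1⟩, ⟨0, 1, 0⟩⟩,
    [⟨2, ⟨1, 0, 0⟩, ⟨2, 0, 0⟩, ⟨0, 2, 0⟩, ⟨0, 0, 2⟩, ⟨0, 0, 0⟩, ⟨0, 0, 0⟩, []⟩]⟩,
   ⟨.cub, [⟨⟨1, 0, 0⟩, ⟨0, -1, 0⟩, ⟨0, 0, -1⟩⟩, ⟨⟨0, 0, 1⟩, ⟨0, -1, 0⟩, ⟨1, 0, 0⟩⟩], ⟨⟨1, 0, 0⟩, ⟨0, 0, 1⟩, ⟨0, -1, 0⟩⟩,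
    [⟨1, ⟨1, 0, 0⟩, ⟨-1, 1, 1⟩, ⟨1, -1, 1⟩, ⟨1, 1, -1⟩, ⟨0, 0, 0⟩, ⟨0, 0, 0⟩, []⟩]⟩,
   ⟨.cub, [⟨⟨1, 0, 0⟩, ⟨0, -1, 0⟩, ⟨0, 0, -1⟩⟩, ⟨⟨0, 0, 1⟩, ⟨0, 1, 0⟩, ⟨1, 0, 0⟩⟩], ⟨⟨1, 0, 0⟩, ⟨0, 0, 1⟩, ⟨0, 1, 0⟩⟩,
    [⟨1, ⟨1, 0, 0⟩, ⟨-1, 1, 1⟩, ⟨1, -1, 1⟩, ⟨1, 1, -1⟩, ⟨0, 0, 0⟩, ⟨0, 0, 0⟩, []⟩]⟩,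
   ⟨.cub, [⟨⟨1, 0, 0⟩, ⟨0, -1, 0⟩, ⟨0, 0, -1⟩⟩, ⟨⟨0, 0, 1⟩, ⟨0, 1, 0⟩, ⟨1, 0, 0⟩⟩], ⟨⟨1, 0, 0⟩, ⟨0, 0, 1⟩, ⟨0, -1, 0⟩⟩,
    [⟨2, ⟨1, 0, 0⟩, ⟨2, 0, 0⟩, ⟨0, 2, 0⟩, ⟨0, 0, 2⟩, ⟨0, 0, 0⟩, ⟨0, 0, 0⟩, []⟩]⟩,
   ⟨.cub, [⟨⟨1, 0, 0⟩, ⟨0, -1, 0⟩, ⟨0, 0, 1⟩⟩, ⟨⟨0, 1, 0⟩, ⟨1, 0, 0⟩, ⟨0, 0, -1⟩⟩], ⟨⟨1, 0, 0⟩, ⟨0, 0, 1⟩, ⟨0, 1, 0⟩⟩,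
    [⟨2, ⟨0, 1, -1⟩, ⟨-2, 2, 2⟩, ⟨2, -2, 2⟩, ⟨2, 2, -2⟩, ⟨0, 0, 0⟩, ⟨0, 0, 0⟩, []⟩,
     ⟨2, ⟨0, 1, 1⟩, ⟨0, 2, 2⟩, ⟨2, 0, 2⟩, ⟨2, 2, 0⟩, ⟨0, 0, 0⟩, ⟨0, 0, 0⟩, []⟩]⟩,
   ⟨.cub, [⟨⟨1, 0, 0⟩, ⟨0, -1, 0⟩, ⟨0, 0, 1⟩⟩, ⟨⟨0, 1, 0⟩, ⟨1, 0, 0⟩, ⟨0, 0, 1⟩⟩], ⟨⟨1, 0, 0⟩, ⟨0, 0, 1⟩, ⟨0, 1, 0⟩⟩,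
    [⟨1, ⟨0, 0, 0⟩, ⟨1, 0, 0⟩, ⟨0, 1, 0⟩, ⟨0, 0, 0⟩, ⟨0, -1, 1⟩, ⟨0, 0, 0⟩, [[⟨2, 0, 0, 1⟩]]⟩,
     ⟨1, ⟨0, 0, 0⟩, ⟨1, 1, 0⟩, ⟨1, 0, -1⟩, ⟨0, 0, 0⟩, ⟨0, -1, 1⟩, ⟨0, 0, 0⟩, [[⟨1, 0, 0, 1⟩]]⟩,
     ⟨1, ⟨0, 0, 0⟩, ⟨1, 1, 1⟩, ⟨1, 1, -1⟩, ⟨0, 0, 0⟩, ⟨0, -1, 1⟩, ⟨0, 0, 0⟩, [[⟨1, 0, 0, 1⟩]]⟩]⟩,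
   ⟨.cub, [⟨⟨1, 0, 0⟩, ⟨0, 0, -1⟩, ⟨0, -1, 0⟩⟩, ⟨⟨0, 1, 0⟩, ⟨1, 0, 0⟩, ⟨0, 0, -1⟩⟩], ⟨⟨1, 0, 0⟩, ⟨0, 1, 0⟩, ⟨0, 0, -1⟩⟩,
    [⟨1, ⟨0, 0, 1⟩, ⟨-1, 1, 1⟩, ⟨1, -1, 1⟩, ⟨1, 1, -1⟩, ⟨0, 0, 0⟩, ⟨0, 0, 0⟩, []⟩]⟩]

/-- The tetragonal blocks. -/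
def tetBlocks : List Block :=
  [⟨.tet, [⟨⟨-1, 0, 0⟩, ⟨0, -1, 0⟩, ⟨0, 0, -1⟩⟩], ⟨⟨0, 1, 0⟩, ⟨-1, 0, 0⟩, ⟨0, 0, 1⟩⟩,
    [⟨2, ⟨2, 0, 1⟩, ⟨0, 0, 0⟩, ⟨0, 0, 0⟩, ⟨0, 0, 0⟩, ⟨0, 0, 0⟩, ⟨0, 0, 0⟩, []⟩]⟩,
   ⟨.tet, [⟨⟨-1, 0, 0⟩, ⟨0, -1, 0⟩, ⟨0, 0, 1⟩⟩], ⟨⟨0, 1, 0⟩, ⟨-1, 0, 0⟩, ⟨0, 0, 1⟩⟩,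
    [⟨2, ⟨2, 0, 1⟩, ⟨0, 0, 0⟩, ⟨0, 0, 0⟩, ⟨0, 0, 0⟩, ⟨0, 0, 0⟩, ⟨0, 0, 0⟩, []⟩]⟩,
   ⟨.tet, [⟨⟨-1, 0, 0⟩, ⟨0, -1, 0⟩, ⟨0, 0, 1⟩⟩], ⟨⟨0, 1, 0⟩, ⟨-1, 0, 0⟩, ⟨0, 0, -1⟩⟩,
    [⟨1, ⟨1, 0, 1⟩, ⟨0, 0, 0⟩, ⟨0, 0, 0⟩, ⟨0, 0, 0⟩, ⟨0, 0, 0⟩, ⟨0, 0, 0⟩, []⟩]⟩,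
   ⟨.tet, [⟨⟨-1, 0, 0⟩, ⟨0, 1, 0⟩, ⟨0, 0, -1⟩⟩], ⟨⟨0, 1, 0⟩, ⟨1, 0, 0⟩, ⟨0, 0, 1⟩⟩,
    [⟨2, ⟨2, 0, 1⟩, ⟨0, 0, 0⟩, ⟨0, 0, 0⟩, ⟨0, 0, 0⟩, ⟨-1, 1, 0⟩, ⟨0, 0, 0⟩, []⟩]⟩,
   ⟨.tet, [⟨⟨-1, 0, 0⟩, ⟨0, 1, 0⟩, ⟨0, 0, -1⟩⟩], ⟨⟨0, 1, 0⟩, ⟨1, 0, 0⟩, ⟨0, 0, -1⟩⟩,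
    [⟨4, ⟨4, 0, 1⟩, ⟨0, 0, 0⟩, ⟨0, 0, 0⟩, ⟨0, 0, 0⟩, ⟨-1, 1, 0⟩, ⟨0, 0, 0⟩, []⟩]⟩,
   ⟨.tet, [⟨⟨-1, 0, 0⟩, ⟨0, 1, 0⟩, ⟨0, 0, 1⟩⟩], ⟨⟨0, 1, 0⟩, ⟨1, 0, 0⟩, ⟨0, 0, 1⟩⟩,
    [⟨2, ⟨2, 0, 1⟩, ⟨0, 0, 0⟩, ⟨0, 0, 0⟩, ⟨0, 0, 0⟩, ⟨-1, 1, 0⟩, ⟨0, 0, 0⟩, [[⟨1, 0, 0, 1⟩]]⟩]⟩,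
   ⟨.tet, [⟨⟨-1, 0, 0⟩, ⟨0, 1, 0⟩, ⟨0, 0, 1⟩⟩], ⟨⟨0, 1, 0⟩, ⟨1, 0, 0⟩, ⟨0, 0, -1⟩⟩,
    [⟨1, ⟨1, 0, 1⟩, ⟨0, 0, 0⟩, ⟨0, 0, 0⟩, ⟨0, 0, 0⟩, ⟨-1, 1, 0⟩, ⟨0, 0, 0⟩, [[⟨1, 0, 0, 1⟩]]⟩]⟩,
   ⟨.tet, [⟨⟨1, 0, 0⟩, ⟨0, 1, 0⟩, ⟨0, 0, -1⟩⟩], ⟨⟨0, 1, 0⟩, ⟨-1, 0, 0⟩, ⟨0, 0, 1⟩⟩,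
    []⟩,
   ⟨.tet, [⟨⟨0, 1, 0⟩, ⟨-1, 0, 0⟩, ⟨0, 0, -1⟩⟩], ⟨⟨1, 0, 0⟩, ⟨0, 1, 0⟩, ⟨0, 0, 1⟩⟩,
    [⟨1, ⟨1, 0, 1⟩, ⟨0, 0, 0⟩, ⟨0, 0, 0⟩, ⟨0, 0, 0⟩, ⟨0, 0, 0⟩, ⟨0, 0, 0⟩, []⟩]⟩,
   ⟨.tet, [⟨⟨0, 1, 0⟩, ⟨-1, 0, 0⟩, ⟨0, 0, -1⟩⟩], ⟨⟨1, 0, 0⟩, ⟨0, 1, 0⟩, ⟨0, 0, -1⟩⟩,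
    [⟨2, ⟨2, 0, 1⟩, ⟨0, 0, 0⟩, ⟨0, 0, 0⟩, ⟨0, 0, 0⟩, ⟨0, 0, 0⟩, ⟨0, 0, 0⟩, []⟩]⟩,
   ⟨.tet, [⟨⟨0, 1, 0⟩, ⟨-1, 0, 0⟩, ⟨0, 0, -1⟩⟩], ⟨⟨1, 0, 0⟩, ⟨0, -1, 0⟩, ⟨0, 0, 1⟩⟩,
    [⟨2, ⟨0, 0, 1⟩, ⟨2, 0, 0⟩, ⟨0, 2, 0⟩, ⟨0, 0, 0⟩, ⟨0, 0, 0⟩, ⟨0, 0, 0⟩, []⟩]⟩,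
   ⟨.tet, [⟨⟨0, 1, 0⟩, ⟨-1, 0, 0⟩, ⟨0, 0, 1⟩⟩], ⟨⟨1, 0, 0⟩, ⟨0, 1, 0⟩, ⟨0, 0, 1⟩⟩,
    [⟨1, ⟨1, 0, 1⟩, ⟨0, 0, 0⟩, ⟨0, 0, 0⟩, ⟨0, 0, 0⟩, ⟨0, 0, 0⟩, ⟨0, 0, 0⟩, []⟩]⟩,
   ⟨.tet, [⟨⟨0, 1, 0⟩, ⟨-1, 0, 0⟩, ⟨0, 0, 1⟩⟩], ⟨⟨1, 0, 0⟩, ⟨0, 1, 0⟩, ⟨0, 0, -1⟩⟩,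
    [⟨1, ⟨1, 0, 1⟩, ⟨0, 0, 0⟩, ⟨0, 0, 0⟩, ⟨0, 0, 0⟩, ⟨0, 0, 0⟩, ⟨0, 0, 0⟩, []⟩]⟩,
   ⟨.tet, [⟨⟨0, 1, 0⟩, ⟨-1, 0, 0⟩, ⟨0, 0, 1⟩⟩], ⟨⟨1, 0, 0⟩, ⟨0, -1, 0⟩, ⟨0, 0, 1⟩⟩,
    [⟨2, ⟨0, 0, 1⟩, ⟨2, 0, 0⟩, ⟨0, 2, 0⟩, ⟨0, 0, 0⟩, ⟨0, 0, 0⟩, ⟨0, 0, 0⟩, []⟩]⟩,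
   ⟨.tet, [⟨⟨0, 1, 0⟩, ⟨-1, 0, 0⟩, ⟨0, 0, 1⟩⟩], ⟨⟨1, 0, 0⟩, ⟨0, -1, 0⟩, ⟨0, 0, -1⟩⟩,
    [⟨1, ⟨0, 0, 1⟩, ⟨1, 0, 0⟩, ⟨0, 1, 0⟩, ⟨0, 0, 0⟩, ⟨0, 0, 0⟩, ⟨0, 0, 0⟩, []⟩]⟩,
   ⟨.tet, [⟨⟨0, 1, 0⟩, ⟨1, 0, 0⟩, ⟨0, 0, -1⟩⟩, ⟨⟨0, -1, 0⟩, ⟨-1, 0, 0⟩, ⟨0, 0, -1⟩⟩], ⟨⟨1, 0, 0⟩, ⟨0, -1, 0⟩, ⟨0, 0, 1⟩⟩,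
    [⟨2, ⟨0, 0, 1⟩, ⟨2, 0, 0⟩, ⟨0, 2, 0⟩, ⟨0, 0, 0⟩, ⟨0, 0, 0⟩, ⟨0, 0, 0⟩, []⟩]⟩,
   ⟨.tet, [⟨⟨0, 1, 0⟩, ⟨1, 0, 0⟩, ⟨0, 0, -1⟩⟩, ⟨⟨0, -1, 0⟩, ⟨-1, 0, 0⟩, ⟨0, 0, -1⟩⟩], ⟨⟨1, 0, 0⟩, ⟨0, -1, 0⟩, ⟨0, 0, -1⟩⟩,
    [⟨2, ⟨0, 0, 1⟩, ⟨2, 0, 0⟩, ⟨0, 2, 0⟩, ⟨0, 0, 0⟩, ⟨0, 0, 0⟩, ⟨0, 0, 0⟩, []⟩]⟩,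
   ⟨.tet, [⟨⟨0, 1, 0⟩, ⟨1, 0, 0⟩, ⟨0, 0, -1⟩⟩, ⟨⟨0, -1, 0⟩, ⟨-1, 0, 0⟩, ⟨0, 0, 1⟩⟩], ⟨⟨1, 0, 0⟩, ⟨0, -1, 0⟩, ⟨0, 0, 1⟩⟩,
    [⟨2, ⟨1, 0, 1⟩, ⟨2, 0, 0⟩, ⟨0, 2, 0⟩, ⟨0, 0, 0⟩, ⟨0, 0, 0⟩, ⟨0, 0, 0⟩, []⟩,
     ⟨2, ⟨0, 1, 1⟩, ⟨2, 0, 0⟩, ⟨0, 2, 0⟩, ⟨0, 0, 0⟩, ⟨0, 0, 0⟩, ⟨0, 0, 0⟩, []⟩]⟩,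
   ⟨.tet, [⟨⟨0, 1, 0⟩, ⟨1, 0, 0⟩, ⟨0, 0, 1⟩⟩, ⟨⟨0, -1, 0⟩, ⟨-1, 0, 0⟩, ⟨0, 0, 1⟩⟩], ⟨⟨1, 0, 0⟩, ⟨0, -1, 0⟩, ⟨0, 0, 1⟩⟩,
    [⟨2, ⟨0, 0, 1⟩, ⟨2, 0, 0⟩, ⟨0, 2, 0⟩, ⟨0, 0, 0⟩, ⟨0, 0, 0⟩, ⟨0, 0, 0⟩, []⟩]⟩,
   ⟨.tet, [⟨⟨0, 1, 0⟩, ⟨1, 0, 0⟩, ⟨0, 0, 1⟩⟩, ⟨⟨0, -1, 0⟩, ⟨-1, 0, 0⟩, ⟨0, 0, 1⟩⟩], ⟨⟨1, 0, 0⟩, ⟨0, -1, 0⟩, ⟨0, 0, -1⟩⟩,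
    [⟨1, ⟨0, 0, 1⟩, ⟨1, 0, 0⟩, ⟨0, 1, 0⟩, ⟨0, 0, 0⟩, ⟨0, 0, 0⟩, ⟨0, 0, 0⟩, []⟩]⟩,
   ⟨.tet, [⟨⟨1, 0, 0⟩, ⟨0, 1, 0⟩, ⟨0, 0, -1⟩⟩, ⟨⟨-1, 0, 0⟩, ⟨0, -1, 0⟩, ⟨0, 0, 1⟩⟩], ⟨⟨0, 1, 0⟩, ⟨-1, 0, 0⟩, ⟨0, 0, 1⟩⟩,
    [⟨2, ⟨2, 0, 1⟩, ⟨0, 0, 0⟩, ⟨0, 0, 0⟩, ⟨0, 0, 0⟩, ⟨0, 0, 0⟩, ⟨0, 0, 0⟩, []⟩]⟩,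
   ⟨.tet, [⟨⟨1, 0, 0⟩, ⟨0, 1, 0⟩, ⟨0, 0, -1⟩⟩, ⟨⟨-1, 0, 0⟩, ⟨0, 1, 0⟩, ⟨0, 0, 1⟩⟩], ⟨⟨0, 1, 0⟩, ⟨1, 0, 0⟩, ⟨0, 0, 1⟩⟩,
    [⟨2, ⟨2, 0, 1⟩, ⟨0, 0, 0⟩, ⟨0, 0, 0⟩, ⟨0, 0, 0⟩, ⟨-1, 1, 0⟩, ⟨0, 0, 0⟩, [[⟨1, 0, 0, 1⟩]]⟩]⟩,
   ⟨.tet, [⟨⟨1, 0, 0⟩, ⟨0, -1, 0⟩, ⟨0, 0, -1⟩⟩, ⟨⟨0, 1, 0⟩, ⟨1, 0, 0⟩, ⟨0, 0, -1⟩⟩], ⟨⟨1, 0, 0⟩, ⟨0, 1, 0⟩, ⟨0, 0, 1⟩⟩,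
    [⟨1, ⟨0, 0, 1⟩, ⟨1, 0, 0⟩, ⟨0, 1, 0⟩, ⟨0, 0, 0⟩, ⟨0, 0, 0⟩, ⟨0, 0, 0⟩, []⟩]⟩,
   ⟨.tet, [⟨⟨1, 0, 0⟩, ⟨0, -1, 0⟩, ⟨0, 0, -1⟩⟩, ⟨⟨0, 1, 0⟩, ⟨1, 0, 0⟩, ⟨0, 0, -1⟩⟩], ⟨⟨1, 0, 0⟩, ⟨0, 1, 0⟩, ⟨0, 0, -1⟩⟩,
    [⟨2, ⟨0, 0, 1⟩, ⟨2, 0, 0⟩, ⟨0, 2, 0⟩, ⟨0, 0, 0⟩, ⟨0, 0, 0⟩, ⟨0, 0, 0⟩, []⟩]⟩,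
   ⟨.tet, [⟨⟨1, 0, 0⟩, ⟨0, -1, 0⟩, ⟨0, 0, -1⟩⟩, ⟨⟨0, 1, 0⟩, ⟨1, 0, 0⟩, ⟨0, 0, 1⟩⟩], ⟨⟨1, 0, 0⟩, ⟨0, 1, 0⟩, ⟨0, 0, 1⟩⟩,
    [⟨1, ⟨0, 0, 1⟩, ⟨1, 0, 0⟩, ⟨0, 1, 0⟩, ⟨0, 0, 0⟩, ⟨0, 0, 0⟩, ⟨0, 0, 0⟩, []⟩]⟩,
   ⟨.tet, [⟨⟨1, 0, 0⟩, ⟨0, -1, 0⟩, ⟨0, 0, -1⟩⟩, ⟨⟨0, 1, 0⟩, ⟨1, 0, 0⟩, ⟨0, 0, 1⟩⟩], ⟨⟨1, 0, 0⟩, ⟨0, 1, 0⟩, ⟨0, 0, -1⟩⟩,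
    [⟨2, ⟨0, 0, 1⟩, ⟨2, 0, 0⟩, ⟨0, 2, 0⟩, ⟨0, 0, 0⟩, ⟨0, 0, 0⟩, ⟨0, 0, 0⟩, []⟩]⟩,
   ⟨.tet, [⟨⟨1, 0, 0⟩, ⟨0, -1, 0⟩, ⟨0, 0, 1⟩⟩, ⟨⟨0, 1, 0⟩, ⟨1, 0, 0⟩, ⟨0, 0, 1⟩⟩], ⟨⟨1, 0, 0⟩, ⟨0, 1, 0⟩, ⟨0, 0, 1⟩⟩,
    [⟨1, ⟨0, 0, 1⟩, ⟨1, 0, 0⟩, ⟨0, 1, 0⟩, ⟨0, 0, 0⟩, ⟨0, 0, 0⟩, ⟨0, 0, 0⟩, []⟩]⟩,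
   ⟨.tet, [⟨⟨1, 0, 0⟩, ⟨0, -1, 0⟩, ⟨0, 0, 1⟩⟩, ⟨⟨0, 1, 0⟩, ⟨1, 0, 0⟩, ⟨0, 0, 1⟩⟩], ⟨⟨1, 0, 0⟩, ⟨0, 1, 0⟩, ⟨0, 0, -1⟩⟩,
    [⟨1, ⟨0, 0, 1⟩, ⟨1, 0, 0⟩, ⟨0, 1, 0⟩, ⟨0, 0, 0⟩, ⟨0, 0, 0⟩, ⟨0, 0, 0⟩, []⟩]⟩]

/-- The hexagonal blocks. -/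
def hexBlocks : List Block :=
  [⟨.hex, [⟨⟨-1, 0, 0⟩, ⟨-1, 1, 0⟩, ⟨0, 0, -1⟩⟩], ⟨⟨1, -1, 0⟩, ⟨1, 0, 0⟩, ⟨0, 0, 1⟩⟩,
    [⟨6, ⟨6, 0, 1⟩, ⟨0, 0, 0⟩, ⟨0, 0, 0⟩, ⟨0, 0, 0⟩, ⟨1, 1, 0⟩, ⟨0, 0, 0⟩, []⟩]⟩,
   ⟨.hex, [⟨⟨-1, 0, 0⟩, ⟨-1, 1, 0⟩, ⟨0, 0, -1⟩⟩], ⟨⟨1, -1, 0⟩, ⟨1, 0, 0⟩, ⟨0, 0, -1⟩⟩,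
    [⟨2, ⟨2, 0, 1⟩, ⟨0, 0, 0⟩, ⟨0, 0, 0⟩, ⟨0, 0, 0⟩, ⟨1, 1, 0⟩, ⟨0, 0, 0⟩, [[⟨1, 0, 2, 3⟩]]⟩]⟩,
   ⟨.hex, [⟨⟨-1, 0, 0⟩, ⟨-1, 1, 0⟩, ⟨0, 0, -1⟩⟩], ⟨⟨1, -1, 0⟩, ⟨0, -1, 0⟩, ⟨0, 0, 1⟩⟩,
    [⟨2, ⟨1, 0, 1⟩, ⟨0, 0, 0⟩, ⟨0, 0, 0⟩, ⟨0, 0, 0⟩, ⟨1, 2, 0⟩, ⟨0, 0, 0⟩, [[⟨2, 0, 1, 2⟩]]⟩]⟩,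
   ⟨.hex, [⟨⟨-1, 0, 0⟩, ⟨-1, 1, 0⟩, ⟨0, 0, -1⟩⟩], ⟨⟨1, -1, 0⟩, ⟨0, -1, 0⟩, ⟨0, 0, -1⟩⟩,
    [⟨6, ⟨3, 0, 2⟩, ⟨0, 0, 0⟩, ⟨0, 0, 0⟩, ⟨0, 0, 0⟩, ⟨1, 2, 0⟩, ⟨0, 0, 0⟩, []⟩]⟩,
   ⟨.hex, [⟨⟨-1, 0, 0⟩, ⟨-1, 1, 0⟩, ⟨0, 0, 1⟩⟩], ⟨⟨1, -1, 0⟩, ⟨1, 0, 0⟩, ⟨0, 0, 1⟩⟩,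
    [⟨2, ⟨2, 0, 1⟩, ⟨0, 0, 0⟩, ⟨0, 0, 0⟩, ⟨0, 0, 0⟩, ⟨1, 1, 0⟩, ⟨0, 0, 0⟩, [[⟨1, 0, 0, 1⟩]]⟩]⟩,
   ⟨.hex, [⟨⟨-1, 0, 0⟩, ⟨-1, 1, 0⟩, ⟨0, 0, 1⟩⟩], ⟨⟨1, -1, 0⟩, ⟨1, 0, 0⟩, ⟨0, 0, -1⟩⟩,
    [⟨1, ⟨1, 0, 1⟩, ⟨0, 0, 0⟩, ⟨0, 0, 0⟩, ⟨0, 0, 0⟩, ⟨1, 1, 0⟩, ⟨0, 0, 0⟩, [[⟨1, 0, 0, 1⟩]]⟩]⟩,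
   ⟨.hex, [⟨⟨-1, 0, 0⟩, ⟨-1, 1, 0⟩, ⟨0, 0, 1⟩⟩], ⟨⟨1, -1, 0⟩, ⟨0, -1, 0⟩, ⟨0, 0, 1⟩⟩,
    [⟨2, ⟨1, 0, 2⟩, ⟨0, 0, 0⟩, ⟨0, 0, 0⟩, ⟨0, 0, 0⟩, ⟨1, 2, 0⟩, ⟨0, 0, 0⟩, [[⟨2, 0, 1, 2⟩]]⟩]⟩,
   ⟨.hex, [⟨⟨-1, 0, 0⟩, ⟨-1, 1, 0⟩, ⟨0, 0, 1⟩⟩], ⟨⟨1, -1, 0⟩, ⟨0, -1, 0⟩, ⟨0, 0, -1⟩⟩,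
    [⟨2, ⟨1, 0, 2⟩, ⟨0, 0, 0⟩, ⟨0, 0, 0⟩, ⟨0, 0, 0⟩, ⟨1, 2, 0⟩, ⟨0, 0, 0⟩, [[⟨2, 0, 1, 2⟩]]⟩]⟩,
   ⟨.hex, [⟨⟨-1, 0, 0⟩, ⟨0, -1, 0⟩, ⟨0, 0, -1⟩⟩], ⟨⟨1, -1, 0⟩, ⟨1, 0, 0⟩, ⟨0, 0, 1⟩⟩,
    [⟨2, ⟨2, 0, 1⟩, ⟨0, 0, 0⟩, ⟨0, 0, 0⟩, ⟨0, 0, 0⟩, ⟨0, 0, 0⟩, ⟨0, 0, 0⟩, []⟩]⟩,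
   ⟨.hex, [⟨⟨-1, 0, 0⟩, ⟨0, -1, 0⟩, ⟨0, 0, -1⟩⟩], ⟨⟨1, -1, 0⟩, ⟨1, 0, 0⟩, ⟨0, 0, -1⟩⟩,
    [⟨1, ⟨1, 0, 1⟩, ⟨0, 0, 0⟩, ⟨0, 0, 0⟩, ⟨0, 0, 0⟩, ⟨0, 0, 0⟩, ⟨0, 0, 0⟩, []⟩]⟩,
   ⟨.hex, [⟨⟨-1, 0, 0⟩, ⟨0, -1, 0⟩, ⟨0, 0, 1⟩⟩], ⟨⟨1, -1, 0⟩, ⟨1, 0, 0⟩, ⟨0, 0, 1⟩⟩,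
    [⟨3, ⟨3, 0, 1⟩, ⟨0, 0, 0⟩, ⟨0, 0, 0⟩, ⟨0, 0, 0⟩, ⟨0, 0, 0⟩, ⟨0, 0, 0⟩, []⟩]⟩,
   ⟨.hex, [⟨⟨-1, 0, 0⟩, ⟨0, -1, 0⟩, ⟨0, 0, 1⟩⟩], ⟨⟨1, -1, 0⟩, ⟨1, 0, 0⟩, ⟨0, 0, -1⟩⟩,
    [⟨1, ⟨1, 0, 1⟩, ⟨0, 0, 0⟩, ⟨0, 0, 0⟩, ⟨0, 0, 0⟩, ⟨0, 0, 0⟩, ⟨0, 0, 0⟩, []⟩]⟩,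
   ⟨.hex, [⟨⟨1, 0, 0⟩, ⟨0, 1, 0⟩, ⟨0, 0, -1⟩⟩], ⟨⟨1, -1, 0⟩, ⟨1, 0, 0⟩, ⟨0, 0, 1⟩⟩,
    []⟩,
   ⟨.hex, [⟨⟨1, 0, 0⟩, ⟨0, 1, 0⟩, ⟨0, 0, -1⟩⟩], ⟨⟨0, -1, 0⟩, ⟨1, -1, 0⟩, ⟨0, 0, 1⟩⟩,
    []⟩,
   ⟨.hex, [⟨⟨0, -1, 0⟩, ⟨1, -1, 0⟩, ⟨0, 0, 1⟩⟩], ⟨⟨1, 0, 0⟩, ⟨1, -1, 0⟩, ⟨0, 0, 1⟩⟩,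
    [⟨2, ⟨0, 0, 1⟩, ⟨2, 0, 0⟩, ⟨0, 2, 0⟩, ⟨0, 0, 0⟩, ⟨0, 0, 0⟩, ⟨0, 0, 0⟩, []⟩]⟩,
   ⟨.hex, [⟨⟨0, -1, 0⟩, ⟨1, -1, 0⟩, ⟨0, 0, 1⟩⟩], ⟨⟨1, 0, 0⟩, ⟨1, -1, 0⟩, ⟨0, 0, -1⟩⟩,
    [⟨1, ⟨0, 0, 1⟩, ⟨1, 0, 0⟩, ⟨0, 1, 0⟩, ⟨0, 0, 0⟩, ⟨0, 0, 0⟩, ⟨0, 0, 0⟩, []⟩]⟩,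
   ⟨.hex, [⟨⟨0, -1, 0⟩, ⟨1, -1, 0⟩, ⟨0, 0, 1⟩⟩], ⟨⟨1, 0, 0⟩, ⟨0, 1, 0⟩, ⟨0, 0, 1⟩⟩,
    [⟨1, ⟨1, 0, 1⟩, ⟨0, 0, 0⟩, ⟨0, 0, 0⟩, ⟨0, 0, 0⟩, ⟨0, 0, 0⟩, ⟨0, 0, 0⟩, []⟩]⟩,
   ⟨.hex, [⟨⟨0, -1, 0⟩, ⟨1, -1, 0⟩, ⟨0, 0, 1⟩⟩], ⟨⟨1, 0, 0⟩, ⟨0, 1, 0⟩, ⟨0, 0, -1⟩⟩,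
    [⟨1, ⟨1, 0, 1⟩, ⟨0, 0, 0⟩, ⟨0, 0, 0⟩, ⟨0, 0, 0⟩, ⟨0, 0, 0⟩, ⟨0, 0, 0⟩, []⟩]⟩,
   ⟨.hex, [⟨⟨0, -1, 0⟩, ⟨1, -1, 0⟩, ⟨0, 0, 1⟩⟩], ⟨⟨1, -1, 0⟩, ⟨1, 0, 0⟩, ⟨0, 0, 1⟩⟩,
    [⟨2, ⟨2, 0, 1⟩, ⟨0, 0, 0⟩, ⟨0, 0, 0⟩, ⟨0, 0, 0⟩, ⟨0, 0, 0⟩, ⟨0, 0, 0⟩, []⟩]⟩,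
   ⟨.hex, [⟨⟨0, -1, 0⟩, ⟨1, -1, 0⟩, ⟨0, 0, 1⟩⟩], ⟨⟨1, -1, 0⟩, ⟨1, 0, 0⟩, ⟨0, 0, -1⟩⟩,
    [⟨1, ⟨1, 0, 1⟩, ⟨0, 0, 0⟩, ⟨0, 0, 0⟩, ⟨0, 0, 0⟩, ⟨0, 0, 0⟩, ⟨0, 0, 0⟩, []⟩]⟩,
   ⟨.hex, [⟨⟨0, 1, 0⟩, ⟨1, 0, 0⟩, ⟨0, 0, -1⟩⟩, ⟨⟨0, -1, 0⟩, ⟨-1, 0, 0⟩, ⟨0, 0, -1⟩⟩], ⟨⟨1, 0, 0⟩, ⟨1, -1, 0⟩, ⟨0, 0, 1⟩⟩,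
    [⟨2, ⟨0, 1, 1⟩, ⟨2, 0, 0⟩, ⟨0, 2, 0⟩, ⟨0, 0, 0⟩, ⟨0, 0, 0⟩, ⟨0, 0, 0⟩, []⟩]⟩,
   ⟨.hex, [⟨⟨0, 1, 0⟩, ⟨1, 0, 0⟩, ⟨0, 0, -1⟩⟩, ⟨⟨0, -1, 0⟩, ⟨-1, 0, 0⟩, ⟨0, 0, -1⟩⟩], ⟨⟨1, 0, 0⟩, ⟨1, -1, 0⟩, ⟨0, 0, -1⟩⟩,
    [⟨3, ⟨0, 0, 1⟩, ⟨3, 0, 0⟩, ⟨0, 3, 0⟩, ⟨0, 0, 0⟩, ⟨0, 0, 0⟩, ⟨0, 0, 0⟩, []⟩]⟩,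
   ⟨.hex, [⟨⟨0, 1, 0⟩, ⟨1, 0, 0⟩, ⟨0, 0, -1⟩⟩, ⟨⟨0, -1, 0⟩, ⟨-1, 0, 0⟩, ⟨0, 0, 1⟩⟩], ⟨⟨1, 0, 0⟩, ⟨1, -1, 0⟩, ⟨0, 0, 1⟩⟩,
    [⟨2, ⟨0, 1, 2⟩, ⟨2, 0, 0⟩, ⟨0, 2, 0⟩, ⟨0, 0, 0⟩, ⟨0, 0, 0⟩, ⟨0, 0, 0⟩, []⟩]⟩,
   ⟨.hex, [⟨⟨0, 1, 0⟩, ⟨1, 0, 0⟩, ⟨0, 0, -1⟩⟩, ⟨⟨0, -1, 0⟩, ⟨-1, 0, 0⟩, ⟨0, 0, 1⟩⟩], ⟨⟨1, 0, 0⟩, ⟨1, -1, 0⟩, ⟨0, 0, -1⟩⟩,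
    [⟨2, ⟨0, 1, 1⟩, ⟨2, 0, 0⟩, ⟨0, 2, 0⟩, ⟨0, 0, 0⟩, ⟨0, 0, 0⟩, ⟨0, 0, 0⟩, []⟩]⟩,
   ⟨.hex, [⟨⟨0, 1, 0⟩, ⟨1, 0, 0⟩, ⟨0, 0, 1⟩⟩, ⟨⟨0, -1, 0⟩, ⟨-1, 0, 0⟩, ⟨0, 0, 1⟩⟩], ⟨⟨1, 0, 0⟩, ⟨1, -1, 0⟩, ⟨0, 0, 1⟩⟩,
    [⟨2, ⟨0, 1, 2⟩, ⟨2, 0, 0⟩, ⟨0, 2, 0⟩, ⟨0, 0, 0⟩, ⟨0, 0, 0⟩, ⟨0, 0, 0⟩, []⟩]⟩,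
   ⟨.hex, [⟨⟨0, 1, 0⟩, ⟨1, 0, 0⟩, ⟨0, 0, 1⟩⟩, ⟨⟨0, -1, 0⟩, ⟨-1, 0, 0⟩, ⟨0, 0, 1⟩⟩], ⟨⟨1, 0, 0⟩, ⟨1, -1, 0⟩, ⟨0, 0, -1⟩⟩,
    [⟨2, ⟨0, 1, 2⟩, ⟨2, 0, 0⟩, ⟨0, 2, 0⟩, ⟨0, 0, 0⟩, ⟨0, 0, 0⟩, ⟨0, 0, 0⟩, []⟩]⟩,
   ⟨.hex, [⟨⟨1, 0, 0⟩, ⟨0, 1, 0⟩, ⟨0, 0, -1⟩⟩, ⟨⟨-1, 0, 0⟩, ⟨-1, 1, 0⟩, ⟨0, 0, 1⟩⟩], ⟨⟨1, -1, 0⟩, ⟨1, 0, 0⟩, ⟨0, 0, 1⟩⟩,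
    [⟨2, ⟨2, 0, 1⟩, ⟨0, 0, 0⟩, ⟨0, 0, 0⟩, ⟨0, 0, 0⟩, ⟨1, 1, 0⟩, ⟨0, 0, 0⟩, [[⟨1, 0, 0, 1⟩]]⟩]⟩,
   ⟨.hex, [⟨⟨1, 0, 0⟩, ⟨0, 1, 0⟩, ⟨0, 0, -1⟩⟩, ⟨⟨-1, 0, 0⟩, ⟨-1, 1, 0⟩, ⟨0, 0, 1⟩⟩], ⟨⟨1, -1, 0⟩, ⟨0, -1, 0⟩, ⟨0, 0, 1⟩⟩,
    [⟨2, ⟨1, 0, 2⟩, ⟨0, 0, 0⟩, ⟨0, 0, 0⟩, ⟨0, 0, 0⟩, ⟨1, 2, 0⟩, ⟨0, 0, 0⟩, [[⟨2, 0, 1, 2⟩]]⟩]⟩,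
   ⟨.hex, [⟨⟨1, 0, 0⟩, ⟨0, 1, 0⟩, ⟨0, 0, -1⟩⟩, ⟨⟨-1, 0, 0⟩, ⟨0, -1, 0⟩, ⟨0, 0, 1⟩⟩], ⟨⟨1, -1, 0⟩, ⟨1, 0, 0⟩, ⟨0, 0, 1⟩⟩,
    [⟨1, ⟨1, 0, 1⟩, ⟨0, 0, 0⟩, ⟨0, 0, 0⟩, ⟨0, 0, 0⟩, ⟨0, 0, 0⟩, ⟨0, 0, 0⟩, []⟩]⟩,
   ⟨.hex, [⟨⟨1, -1, 0⟩, ⟨0, -1, 0⟩, ⟨0, 0, -1⟩⟩, ⟨⟨0, 1, 0⟩, ⟨1, 0, 0⟩, ⟨0, 0, -1⟩⟩], ⟨⟨1, 0, 0⟩, ⟨1, -1, 0⟩, ⟨0, 0, 1⟩⟩,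
    [⟨2, ⟨0, 0, 1⟩, ⟨2, 0, 0⟩, ⟨0, 2, 0⟩, ⟨0, 0, 0⟩, ⟨0, 0, 0⟩, ⟨0, 0, 0⟩, []⟩]⟩,
   ⟨.hex, [⟨⟨1, -1, 0⟩, ⟨0, -1, 0⟩, ⟨0, 0, -1⟩⟩, ⟨⟨0, 1, 0⟩, ⟨1, 0, 0⟩, ⟨0, 0, -1⟩⟩], ⟨⟨1, 0, 0⟩, ⟨1, -1, 0⟩, ⟨0, 0, -1⟩⟩,
    [⟨2, ⟨0, 0, 1⟩, ⟨2, 0, 0⟩, ⟨0, 2, 0⟩, ⟨0, 0, 0⟩, ⟨0, 0, 0⟩, ⟨0, 0, 0⟩, []⟩]⟩,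
   ⟨.hex, [⟨⟨1, -1, 0⟩, ⟨0, -1, 0⟩, ⟨0, 0, -1⟩⟩, ⟨⟨0, 1, 0⟩, ⟨1, 0, 0⟩, ⟨0, 0, -1⟩⟩], ⟨⟨1, 0, 0⟩, ⟨0, 1, 0⟩, ⟨0, 0, 1⟩⟩,
    [⟨1, ⟨0, 0, 1⟩, ⟨1, 0, 0⟩, ⟨0, 1, 0⟩, ⟨0, 0, 0⟩, ⟨0, 0, 0⟩, ⟨0, 0, 0⟩, []⟩]⟩,
   ⟨.hex, [⟨⟨1, -1, 0⟩, ⟨0, -1, 0⟩, ⟨0, 0, -1⟩⟩, ⟨⟨0, 1, 0⟩, ⟨1, 0, 0⟩, ⟨0, 0, -1⟩⟩], ⟨⟨1, 0, 0⟩, ⟨0, 1, 0⟩, ⟨0, 0, -1⟩⟩,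
    [⟨2, ⟨0, 0, 1⟩, ⟨2, 0, 0⟩, ⟨0, 2, 0⟩, ⟨0, 0, 0⟩, ⟨0, 0, 0⟩, ⟨0, 0, 0⟩, []⟩]⟩,
   ⟨.hex, [⟨⟨1, -1, 0⟩, ⟨0, -1, 0⟩, ⟨0, 0, 1⟩⟩, ⟨⟨0, 1, 0⟩, ⟨1, 0, 0⟩, ⟨0, 0, 1⟩⟩], ⟨⟨1, 0, 0⟩, ⟨1, -1, 0⟩, ⟨0, 0, 1⟩⟩,
    [⟨2, ⟨0, 0, 1⟩, ⟨2, 0, 0⟩, ⟨0, 2, 0⟩, ⟨0, 0, 0⟩, ⟨0, 0, 0⟩, ⟨0, 0, 0⟩, []⟩]⟩,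
   ⟨.hex, [⟨⟨1, -1, 0⟩, ⟨0, -1, 0⟩, ⟨0, 0, 1⟩⟩, ⟨⟨0, 1, 0⟩, ⟨1, 0, 0⟩, ⟨0, 0, 1⟩⟩], ⟨⟨1, 0, 0⟩, ⟨1, -1, 0⟩, ⟨0, 0, -1⟩⟩,
    [⟨1, ⟨0, 0, 1⟩, ⟨1, 0, 0⟩, ⟨0, 1, 0⟩, ⟨0, 0, 0⟩, ⟨0, 0, 0⟩, ⟨0, 0, 0⟩, []⟩]⟩,
   ⟨.hex, [⟨⟨1, -1, 0⟩, ⟨0, -1, 0⟩, ⟨0, 0, 1⟩⟩, ⟨⟨0, 1, 0⟩, ⟨1, 0, 0⟩, ⟨0, 0, 1⟩⟩], ⟨⟨1, 0, 0⟩, ⟨0, 1, 0⟩, ⟨0, 0, 1⟩⟩,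
    [⟨1, ⟨0, 0, 1⟩, ⟨1, 0, 0⟩, ⟨0, 1, 0⟩, ⟨0, 0, 0⟩, ⟨0, 0, 0⟩, ⟨0, 0, 0⟩, []⟩]⟩,
   ⟨.hex, [⟨⟨1, -1, 0⟩, ⟨0, -1, 0⟩, ⟨0, 0, 1⟩⟩, ⟨⟨0, 1, 0⟩, ⟨1, 0, 0⟩, ⟨0, 0, 1⟩⟩], ⟨⟨1, 0, 0⟩, ⟨0, 1, 0⟩, ⟨0, 0, -1⟩⟩,
    [⟨1, ⟨0, 0, 1⟩, ⟨1, 0, 0⟩, ⟨0, 1, 0⟩, ⟨0, 0, 0⟩, ⟨0, 0, 0⟩, ⟨0, 0, 0⟩, []⟩]⟩,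
   ⟨.hex, [⟨⟨1, -1, 0⟩, ⟨1, 0, 0⟩, ⟨0, 0, -1⟩⟩], ⟨⟨1, 0, 0⟩, ⟨1, -1, 0⟩, ⟨0, 0, 1⟩⟩,
    [⟨2, ⟨0, 0, 1⟩, ⟨2, 0, 0⟩, ⟨0, 2, 0⟩, ⟨0, 0, 0⟩, ⟨0, 0, 0⟩, ⟨0, 0, 0⟩, []⟩]⟩,
   ⟨.hex, [⟨⟨1, -1, 0⟩, ⟨1, 0, 0⟩, ⟨0, 0, -1⟩⟩], ⟨⟨1, 0, 0⟩, ⟨0, 1, 0⟩, ⟨0, 0, 1⟩⟩,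
    [⟨1, ⟨1, 0, 1⟩, ⟨0, 0, 0⟩, ⟨0, 0, 0⟩, ⟨0, 0, 0⟩, ⟨0, 0, 0⟩, ⟨0, 0, 0⟩, []⟩]⟩,
   ⟨.hex, [⟨⟨1, -1, 0⟩, ⟨1, 0, 0⟩, ⟨0, 0, -1⟩⟩], ⟨⟨1, 0, 0⟩, ⟨0, 1, 0⟩, ⟨0, 0, -1⟩⟩,
    [⟨2, ⟨2, 0, 1⟩, ⟨0, 0, 0⟩, ⟨0, 0, 0⟩, ⟨0, 0, 0⟩, ⟨0, 0, 0⟩, ⟨0, 0, 0⟩, []⟩]⟩,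
   ⟨.hex, [⟨⟨1, -1, 0⟩, ⟨1, 0, 0⟩, ⟨0, 0, 1⟩⟩], ⟨⟨1, 0, 0⟩, ⟨1, -1, 0⟩, ⟨0, 0, 1⟩⟩,
    [⟨2, ⟨0, 0, 1⟩, ⟨2, 0, 0⟩, ⟨0, 2, 0⟩, ⟨0, 0, 0⟩, ⟨0, 0, 0⟩, ⟨0, 0, 0⟩, []⟩]⟩,
   ⟨.hex, [⟨⟨1, -1, 0⟩, ⟨1, 0, 0⟩, ⟨0, 0, 1⟩⟩], ⟨⟨1, 0, 0⟩, ⟨1, -1, 0⟩, ⟨0, 0, -1⟩⟩,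
    [⟨1, ⟨0, 0, 1⟩, ⟨1, 0, 0⟩, ⟨0, 1, 0⟩, ⟨0, 0, 0⟩, ⟨0, 0, 0⟩, ⟨0, 0, 0⟩, []⟩]⟩,
   ⟨.hex, [⟨⟨1, -1, 0⟩, ⟨1, 0, 0⟩, ⟨0, 0, 1⟩⟩], ⟨⟨1, 0, 0⟩, ⟨0, 1, 0⟩, ⟨0, 0, 1⟩⟩,
    [⟨1, ⟨1, 0, 1⟩, ⟨0, 0, 0⟩, ⟨0, 0, 0⟩, ⟨0, 0, 0⟩, ⟨0, 0, 0⟩, ⟨0, 0, 0⟩, []⟩]⟩,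
   ⟨.hex, [⟨⟨1, -1, 0⟩, ⟨1, 0, 0⟩, ⟨0, 0, 1⟩⟩], ⟨⟨1, 0, 0⟩, ⟨0, 1, 0⟩, ⟨0, 0, -1⟩⟩,
    [⟨1, ⟨1, 0, 1⟩, ⟨0, 0, 0⟩, ⟨0, 0, 0⟩, ⟨0, 0, 0⟩, ⟨0, 0, 0⟩, ⟨0, 0, 0⟩, []⟩]⟩,
   ⟨.hex, [⟨⟨0, -1, 0⟩, ⟨1, -1, 0⟩, ⟨0, 0, -1⟩⟩], ⟨⟨1, 0, 0⟩, ⟨1, -1, 0⟩, ⟨0, 0, 1⟩⟩,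
    [⟨2, ⟨0, 0, 1⟩, ⟨2, 0, 0⟩, ⟨0, 2, 0⟩, ⟨0, 0, 0⟩, ⟨0, 0, 0⟩, ⟨0, 0, 0⟩, []⟩]⟩,
   ⟨.hex, [⟨⟨0, -1, 0⟩, ⟨1, -1, 0⟩, ⟨0, 0, -1⟩⟩], ⟨⟨1, 0, 0⟩, ⟨0, 1, 0⟩, ⟨0, 0, 1⟩⟩,
    [⟨1, ⟨1, 0, 1⟩, ⟨0, 0, 0⟩, ⟨0, 0, 0⟩, ⟨0, 0, 0⟩, ⟨0, 0, 0⟩, ⟨0, 0, 0⟩, []⟩]⟩,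
   ⟨.hex, [⟨⟨0, -1, 0⟩, ⟨1, -1, 0⟩, ⟨0, 0, -1⟩⟩], ⟨⟨1, -1, 0⟩, ⟨1, 0, 0⟩, ⟨0, 0, 1⟩⟩,
    [⟨2, ⟨2, 0, 1⟩, ⟨0, 0, 0⟩, ⟨0, 0, 0⟩, ⟨0, 0, 0⟩, ⟨0, 0, 0⟩, ⟨0, 0, 0⟩, []⟩]⟩,
   ⟨.hex, [⟨⟨1, -1, 0⟩, ⟨0, -1, 0⟩, ⟨0, 0, 1⟩⟩, ⟨⟨0, 1, 0⟩, ⟨1, 0, 0⟩, ⟨0, 0, -1⟩⟩], ⟨⟨1, 0, 0⟩, ⟨1, -1, 0⟩, ⟨0, 0, 1⟩⟩,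
    [⟨2, ⟨0, 0, 1⟩, ⟨2, 0, 0⟩, ⟨0, 2, 0⟩, ⟨0, 0, 0⟩, ⟨0, 0, 0⟩, ⟨0, 0, 0⟩, []⟩]⟩,
   ⟨.hex, [⟨⟨1, -1, 0⟩, ⟨0, -1, 0⟩, ⟨0, 0, 1⟩⟩, ⟨⟨0, 1, 0⟩, ⟨1, 0, 0⟩, ⟨0, 0, -1⟩⟩], ⟨⟨1, 0, 0⟩, ⟨0, 1, 0⟩, ⟨0, 0, 1⟩⟩,
    [⟨1, ⟨0, 0, 1⟩, ⟨1, 0, 0⟩, ⟨0, 1, 0⟩, ⟨0, 0, 0⟩, ⟨0, 0, 0⟩, ⟨0, 0, 0⟩, []⟩]⟩,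
   ⟨.hex, [⟨⟨1, 0, 0⟩, ⟨1, -1, 0⟩, ⟨0, 0, -1⟩⟩, ⟨⟨1, -1, 0⟩, ⟨0, -1, 0⟩, ⟨0, 0, 1⟩⟩], ⟨⟨1, 0, 0⟩, ⟨1, -1, 0⟩, ⟨0, 0, 1⟩⟩,
    [⟨2, ⟨0, 0, 1⟩, ⟨2, 0, 0⟩, ⟨0, 2, 0⟩, ⟨0, 0, 0⟩, ⟨0, 0, 0⟩, ⟨0, 0, 0⟩, []⟩]⟩,
   ⟨.hex, [⟨⟨1, 0, 0⟩, ⟨1, -1, 0⟩, ⟨0, 0, -1⟩⟩, ⟨⟨1, -1, 0⟩, ⟨0, -1, 0⟩, ⟨0, 0, 1⟩⟩], ⟨⟨1, 0, 0⟩, ⟨1, -1, 0⟩, ⟨0, 0, -1⟩⟩,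
    [⟨1, ⟨0, 0, 1⟩, ⟨1, 0, 0⟩, ⟨0, 1, 0⟩, ⟨0, 0, 0⟩, ⟨0, 0, 0⟩, ⟨0, 0, 0⟩, []⟩]⟩,
   ⟨.hex, [⟨⟨1, 0, 0⟩, ⟨1, -1, 0⟩, ⟨0, 0, -1⟩⟩, ⟨⟨1, -1, 0⟩, ⟨0, -1, 0⟩, ⟨0, 0, -1⟩⟩], ⟨⟨1, 0, 0⟩, ⟨1, -1, 0⟩, ⟨0, 0, 1⟩⟩,
    [⟨2, ⟨0, 0, 1⟩, ⟨2, 0, 0⟩, ⟨0, 2, 0⟩, ⟨0, 0, 0⟩, ⟨0, 0, 0⟩, ⟨0, 0, 0⟩, []⟩]⟩,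
   ⟨.hex, [⟨⟨1, 0, 0⟩, ⟨1, -1, 0⟩, ⟨0, 0, -1⟩⟩, ⟨⟨1, -1, 0⟩, ⟨0, -1, 0⟩, ⟨0, 0, -1⟩⟩], ⟨⟨1, 0, 0⟩, ⟨1, -1, 0⟩, ⟨0, 0, -1⟩⟩,
    [⟨1, ⟨0, 0, 1⟩, ⟨1, 0, 0⟩, ⟨0, 1, 0⟩, ⟨0, 0, 0⟩, ⟨0, 0, 0⟩, ⟨0, 0, 0⟩, []⟩]⟩,
   ⟨.hex, [⟨⟨1, 0, 0⟩, ⟨1, -1, 0⟩, ⟨0, 0, 1⟩⟩, ⟨⟨1, -1, 0⟩, ⟨0, -1, 0⟩, ⟨0, 0, 1⟩⟩], ⟨⟨1, 0, 0⟩, ⟨1, -1, 0⟩, ⟨0, 0, 1⟩⟩,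
    [⟨1, ⟨0, 0, 1⟩, ⟨1, 0, 0⟩, ⟨0, 1, 0⟩, ⟨0, 0, 0⟩, ⟨0, 0, 0⟩, ⟨0, 0, 0⟩, []⟩]⟩,
   ⟨.hex, [⟨⟨1, 0, 0⟩, ⟨1, -1, 0⟩, ⟨0, 0, 1⟩⟩, ⟨⟨1, -1, 0⟩, ⟨0, -1, 0⟩, ⟨0, 0, 1⟩⟩], ⟨⟨1, 0, 0⟩, ⟨1, -1, 0⟩, ⟨0, 0, -1⟩⟩,
    [⟨1, ⟨0, 0, 1⟩, ⟨1, 0, 0⟩, ⟨0, 1, 0⟩, ⟨0, 0, 0⟩, ⟨0, 0, 0⟩, ⟨0, 0, 0⟩, []⟩]⟩]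

/-- The orthogonal blocks. -/
def ortBlocks : List Block :=
  [⟨.ort, [⟨⟨-1, 0, 0⟩, ⟨0, -1, 0⟩, ⟨0, 0, 1⟩⟩], ⟨⟨1, 0, 0⟩, ⟨0, -1, 0⟩, ⟨0, 0, 1⟩⟩,
    [⟨1, ⟨1, 1, 1⟩, ⟨0, 0, 0⟩, ⟨0, 0, 0⟩, ⟨0, 0, 0⟩, ⟨0, 0, 0⟩, ⟨0, 0, 0⟩, []⟩]⟩,
   ⟨.ort, [⟨⟨-1, 0, 0⟩, ⟨0, -1, 0⟩, ⟨0, 0, 1⟩⟩], ⟨⟨1, 0, 0⟩, ⟨0, -1, 0⟩, ⟨0, 0, -1⟩⟩,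
    [⟨1, ⟨1, 1, 1⟩, ⟨0, 0, 0⟩, ⟨0, 0, 0⟩, ⟨0, 0, 0⟩, ⟨0, 0, 0⟩, ⟨0, 0, 0⟩, []⟩]⟩,
   ⟨.ort, [⟨⟨-1, 0, 0⟩, ⟨0, 1, 0⟩, ⟨0, 0, 1⟩⟩], ⟨⟨1, 0, 0⟩, ⟨0, 1, 0⟩, ⟨0, 0, -1⟩⟩,
    [⟨1, ⟨1, 1, 1⟩, ⟨0, 0, 0⟩, ⟨0, 0, 0⟩, ⟨0, 0, 0⟩, ⟨0, 0, 0⟩, ⟨0, 0, 0⟩, []⟩]⟩,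
   ⟨.ort, [⟨⟨1, 0, 0⟩, ⟨0, -1, 0⟩, ⟨0, 0, -1⟩⟩, ⟨⟨-1, 0, 0⟩, ⟨0, 1, 0⟩, ⟨0, 0, -1⟩⟩], ⟨⟨1, 0, 0⟩, ⟨0, 1, 0⟩, ⟨0, 0, 1⟩⟩,
    [⟨1, ⟨1, 1, 1⟩, ⟨0, 0, 0⟩, ⟨0, 0, 0⟩, ⟨0, 0, 0⟩, ⟨0, 0, 0⟩, ⟨0, 0, 0⟩, []⟩]⟩,
   ⟨.ort, [⟨⟨1, 0, 0⟩, ⟨0, -1, 0⟩, ⟨0, 0, -1⟩⟩, ⟨⟨-1, 0, 0⟩, ⟨0, 1, 0⟩, ⟨0, 0, -1⟩⟩], ⟨⟨1, 0, 0⟩, ⟨0, 1, 0⟩, ⟨0, 0, -1⟩⟩,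
    [⟨1, ⟨1, 1, 1⟩, ⟨0, 0, 0⟩, ⟨0, 0, 0⟩, ⟨0, 0, 0⟩, ⟨0, 0, 0⟩, ⟨0, 0, 0⟩, []⟩]⟩,
   ⟨.ort, [⟨⟨1, 0, 0⟩, ⟨0, -1, 0⟩, ⟨0, 0, -1⟩⟩, ⟨⟨-1, 0, 0⟩, ⟨0, 1, 0⟩, ⟨0, 0, 1⟩⟩], ⟨⟨1, 0, 0⟩, ⟨0, 1, 0⟩, ⟨0, 0, -1⟩⟩,
    [⟨1, ⟨1, 1, 1⟩, ⟨0, 0, 0⟩, ⟨0, 0, 0⟩, ⟨0, 0, 0⟩, ⟨0, 0, 0⟩, ⟨0, 0, 0⟩, []⟩]⟩,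
   ⟨.ort, [⟨⟨1, 0, 0⟩, ⟨0, -1, 0⟩, ⟨0, 0, 1⟩⟩, ⟨⟨-1, 0, 0⟩, ⟨0, 1, 0⟩, ⟨0, 0, 1⟩⟩], ⟨⟨1, 0, 0⟩, ⟨0, 1, 0⟩, ⟨0, 0, 1⟩⟩,
    [⟨1, ⟨1, 1, 1⟩, ⟨0, 0, 0⟩, ⟨0, 0, 0⟩, ⟨0, 0, 0⟩, ⟨0, 0, 0⟩, ⟨0, 0, 0⟩, []⟩]⟩,
   ⟨.ort, [⟨⟨1, 0, 0⟩, ⟨0, -1, 0⟩, ⟨0, 0, 1⟩⟩, ⟨⟨-1, 0, 0⟩, ⟨0, 1, 0⟩, ⟨0, 0, 1⟩⟩], ⟨⟨1, 0, 0⟩, ⟨0, 1, 0⟩, ⟨0, 0, -1⟩⟩,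
    [⟨1, ⟨1, 1, 1⟩, ⟨0, 0, 0⟩, ⟨0, 0, 0⟩, ⟨0, 0, 0⟩, ⟨0, 0, 0⟩, ⟨0, 0, 0⟩, []⟩]⟩]

/-- All blocks. -/
def table : List Block := cubBlocks ++ tetBlocks ++ hexBlocks ++ ortBlocks

end Pool.Agent.H21.FT
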