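import Pool.Agent.H21.FT.DefsF
import Pool.Agent.H21.FT.Table
import Pool.Agent.H21.FT.FamBase

/-!
# Explicit data for the generators
-/

namespace Pool.Agent.H21.FT

open Matrix
open Pool.Agent.H38.FT (Cfg E3)

/-! ### The explicit list -/

open scoped Classical in
/-- The affine map `x ↦ M x + a` (for an invertible matrix `M`). -/
noncomputable def aff (M : M3) (a : V3) : Equiv.Perm V3 :=
  if h : IsUnit M.det then
    { toFun := fun x => M *ᵥ x + a
      invFun := fun x => M⁻¹ *ᵥ (x - a)
      left_inv := fun x => by simp [mulVec_mulVec, nonsing_inv_mul M h]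
      right_inv := fun x => by simp [mulVec_mulVec, mul_nonsing_inv M h] }
  else 1

/-- The list `L` together with the products of elements of `G` with elements of `L`. -/
def extend (G L : List IM) : List IM :=
  (L.flatMap fun M => G.map fun g => g.mul M).foldl
    (fun acc N => if N ∈ acc then acc else acc ++ [N]) L

/-- The elements of the group generated by `G` (a group of order at most 12). -/
def elts (G : List IM) : List IM := (extend G)^[12] [IM.one]

/-- The data that determine generators `A`, `B`, `s`: a block of the table or a rod, the matrices of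
`A` and `B`, the map `t` of the block or the rod, and matrices `h`, `h'` with `s = h t h'` or
`s = h t⁻¹ h'`. -/
inductive Dat
  | cryst (blk : Block) (A B h h' : IM) (inv : Bool) (fam : Fam) (n : IV) (x y : ℝ)
  | rod (r : Rod) (A B h h' : IM) (inv : Bool) (p q : ℤ)

namespace Dat

/-- The kind of the frame. -/
def kind : Dat → Kind
  | cryst blk _ _ _ _ _ _ _ _ _ => blk.kind
  | rod _ _ _ _ _ _ _ _ => .tet

/-- The generator `A`. -/
noncomputable def A : Dat → Equiv.Perm V3
  | cryst _ A _ _ _ _ _ _ _ _ => aff A.mat 0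
  | rod _ A _ _ _ _ _ _ => aff A.mat 0

/-- The generator `B`. -/
noncomputable def B : Dat → Equiv.Perm V3
  | cryst _ _ B _ _ _ _ _ _ _ => aff B.mat 0
  | rod _ _ B _ _ _ _ _ => aff B.mat 0

/-- The map `t`. -/
noncomputable def t : Dat → Equiv.Perm V3
  | cryst blk _ _ _ _ _ fam n x y => aff blk.S.mat (fam.pt n x y)
  | rod r _ _ _ _ _ p q =>
      aff (rodMat (Real.pi * p / q) r.sgn)
        ![Real.cos (Real.pi * p / q) - 1, Real.sin (Real.pi * p / q), 1]

/-- The generator `s`. -/
noncomputable def s : Dat → Equiv.Perm V3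
  | cryst blk A B h h' inv fam n x y =>
      aff h.mat 0 * (bif inv then (t (cryst blk A B h h' inv fam n x y))⁻¹
        else t (cryst blk A B h h' inv fam n x y)) * aff h'.mat 0
  | rod r A B h h' inv p q =>
      aff h.mat 0 * (bif inv then (t (rod r A B h h' inv p q))⁻¹
        else t (rod r A B h h' inv p q)) * aff h'.mat 0

/-- The data are those of a block of the table or of a rod. -/
def Ok : Dat → Prop
  | cryst blk A B h h' _ fam n x y => blk ∈ table ∧ A ∈ elts blk.gens ∧ B ∈ elts blk.gens ∧
      h ∈ elts blk.gens ∧ h' ∈ elts blk.gens ∧ linGrp [A, B] = linGrp blk.gens ∧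
      fam ∈ blk.fams ∧ ¬ fam.Excl x y ∧ fam.base n ≠ ⟨0, 0, 0⟩
  | rod r A B h h' _ p q => A ∈ elts r.gens ∧ B ∈ elts r.gens ∧ h ∈ elts r.gens ∧
      h' ∈ elts r.gens ∧ linGrp [A, B] = linGrp r.gens ∧ 0 < q ∧ ¬ q ∣ p

end Dat

/-- A member of the list: the construction, the generators and the parameters of the frame. -/
structure InfItem where
  cls : Cls
  dat : Dat
  b : ℝ
  c : ℝ

namespace InfItem

/-- The frame. -/
noncomputable def F (i : InfItem) : M3 := i.dat.kind.frame i.b i.c

/-- The configuration in the coordinate space. -/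
noncomputable def pre (i : InfItem) : Cfg V3 := cfg i.cls i.dat.A i.dat.B i.dat.s 0

/-- The point of Euclidean space with coordinates `x` with respect to the frame. -/
noncomputable def point (i : InfItem) (x : V3) : E3 := WithLp.toLp 2 (i.F *ᵥ x)

/-- The configuration in Euclidean space. -/
noncomputable def cfg (i : InfItem) : Cfg E3 := i.pre.map i.point

/-- The conditions on the data and on the parameters. -/
structure Valid (i : InfItem) : Prop where
  dat : i.dat.Ok
  b : 0 < i.b
  c : 0 < i.c
  rel : Rel i.cls i.dat.A i.dat.B i.dat.s 0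
  nondeg : Nondeg i.cls i.dat.A i.dat.B i.dat.s 0
  distinct : Distinct i.cls i.dat.A i.dat.B i.dat.s 0
  flat : i.dat.kind = .tet ∨ i.dat.kind = .hex → i.dat.s 0 0 ≠ 0 ∨ i.dat.s 0 1 ≠ 0
  full : Full i.cls i.F i.dat.A i.dat.B i.dat.s

/-- Some linear similarity transforms the generators of `i` to the generators of `j` or to one of
the other triples of generators of `j`. -/
def Equivalent (i j : InfItem) : Prop :=
  i.cls = j.cls ∧ ∃ (σ : Equiv.Perm V3) (M : M3) (r : ℝ), 0 < r ∧ IsAff σ M 0 ∧
    (j.F * M * i.F⁻¹)ᵀ * (j.F * M * i.F⁻¹) = r • (1 : M3) ∧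
    cnj3 σ (i.dat.A, i.dat.B, i.dat.s) ∈
      (j.dat.A, j.dat.B, j.dat.s) :: others j.cls j.dat.A j.dat.B j.dat.s

end InfItem

end Pool.Agent.H21.FT
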