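import Pool.Agent.H21.FT.Geo

/-!
# Linear parts of a discrete group of isometries: the dichotomy

The linear parts of a discrete group of isometries of the coordinate space are finitely many or
preserve a common line (iterated commutators).
-/

namespace Pool.Agent.H21.FT

open Matrix
open scoped Matrix.Norms.L2Operator

namespace Dich

/-! ## Orthogonal matrices and the operator norm -/

theorem mul_tr {M : M3} (h : Mᵀ * M = 1) : M * Mᵀ = 1 := mul_eq_one_comm.mp h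

theorem mem_unit {M : M3} (h : Mᵀ * M = 1) : M ∈ unitary M3 := by
  rw [Unitary.mem_iff]
  have h2 : star M = Mᵀ := by
    rw [star_eq_conjTranspose, conjTranspose_eq_transpose_of_trivial]
  rw [h2]
  exact ⟨h, mul_tr h⟩

theorem nrm_mul_left {U : M3} (hU : Uᵀ * U = 1) (A : M3) : ‖U * A‖ = ‖A‖ :=
  CStarRing.norm_mem_unitary_mul A (mem_unit hU)

theorem nrm_mul_right {U : M3} (hU : Uᵀ * U = 1) (A : M3) : ‖A * U‖ = ‖A‖ :=
  CStarRing.norm_mul_mem_unitary A (mem_unit hU)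

theorem tr_orth {M : M3} (h : Mᵀ * M = 1) : (Mᵀ)ᵀ * Mᵀ = 1 := by
  rw [transpose_transpose]; exact mul_tr h

theorem nrm_one : ‖(1 : M3)‖ = 1 := CStarRing.norm_one

theorem nrm_orth {U : M3} (hU : Uᵀ * U = 1) : ‖U‖ = 1 := by
  have := nrm_mul_left hU 1
  rw [mul_one, nrm_one] at this
  exact this

theorem nrm_sub_one_le {U : M3} (hU : Uᵀ * U = 1) : ‖U - 1‖ ≤ 2 := by
  have := norm_sub_le U (1 : M3)
  rw [nrm_orth hU, nrm_one] at this
  linarith

/-- The Euclidean norm. -/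
noncomputable def vn (x : V3) : ℝ := ‖(WithLp.toLp 2 x : EuclideanSpace ℝ (Fin 3))‖

theorem vn_nonneg (x : V3) : 0 ≤ vn x := norm_nonneg _

theorem vn_mulVec (A : M3) (x : V3) : vn (A *ᵥ x) ≤ ‖A‖ * vn x :=
  l2_opNorm_mulVec A (WithLp.toLp 2 x)

theorem vn_add (x y : V3) : vn (x + y) ≤ vn x + vn y := by
  unfold vn
  rw [WithLp.toLp_add]
  exact norm_add_le _ _

theorem vn_pos {x : V3} (h : x ≠ 0) : 0 < vn x := by
  unfold vn
  rw [norm_pos_iff]
  intro h2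
  exact h (by simpa using congrArg WithLp.ofLp h2)

theorem vn_smul (c : ℝ) (x : V3) : vn (c • x) = |c| * vn x := by
  unfold vn
  rw [WithLp.toLp_smul, norm_smul, Real.norm_eq_abs]

theorem vn_orth {U : M3} (hU : Uᵀ * U = 1) (x : V3) : vn (U *ᵥ x) = vn x := by
  apply le_antisymm
  · have := vn_mulVec U x
    rwa [nrm_orth hU, one_mul] at this
  · have := vn_mulVec Uᵀ (U *ᵥ x)
    rwa [mulVec_mulVec, hU, one_mulVec, nrm_orth (tr_orth hU), one_mul] at this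

theorem abs_le_vn (x : V3) (i : Fin 3) : |x i| ≤ vn x := by
  unfold vn
  have := PiLp.norm_apply_le (WithLp.toLp 2 x : EuclideanSpace ℝ (Fin 3)) i
  simpa using this

/-! ## The linear part of a permutation -/

/-- The linear part of an affine map. -/
def lp (g : Equiv.Perm V3) : M3 := Matrix.of fun i j => g (Pi.single j 1) i - g 0 i

theorem isAff_zero {g : Equiv.Perm V3} {M : M3} {a : V3} (h : IsAff g M a) : g 0 = a := by
  rw [h 0, mulVec_zero, zero_add]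

theorem isAff_lp {g : Equiv.Perm V3} {M : M3} {a : V3} (h : IsAff g M a) : lp g = M := by
  ext i j
  simp only [lp, of_apply, isAff_zero h, h (Pi.single j 1), mulVec_single_one, Pi.add_apply,
    col_apply]
  ring

theorem isAff_mul {g k : Equiv.Perm V3} {M N : M3} {a b : V3} (hg : IsAff g M a)
    (hk : IsAff k N b) : IsAff (g * k) (M * N) (M *ᵥ b + a) := by
  intro x
  rw [Equiv.Perm.mul_apply, hk x, hg, mulVec_add, mulVec_mulVec, add_assoc]

theorem isAff_inv {g : Equiv.Perm V3} {M : M3} {a : V3} (hM : Mᵀ * M = 1) (hg : IsAff g M a) :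
    IsAff g⁻¹ Mᵀ (-(Mᵀ *ᵥ a)) := by
  intro x
  rw [Equiv.Perm.inv_eq_iff_eq, hg, mulVec_add, mulVec_neg, mulVec_mulVec, mulVec_mulVec,
    mul_tr hM, one_mulVec, one_mulVec]
  simp

theorem iso_lp {Γ : Subgroup (Equiv.Perm V3)} (hi : Iso Γ) {g : Equiv.Perm V3} (hg : g ∈ Γ) :
    (lp g)ᵀ * lp g = 1 ∧ IsAff g (lp g) (g 0) := by
  obtain ⟨M, a, hM, h⟩ := hi g hg
  rw [isAff_lp h, isAff_zero h]
  exact ⟨hM, h⟩

theorem lp_mul {Γ : Subgroup (Equiv.Perm V3)} (hi : Iso Γ) {g k : Equiv.Perm V3} (hg : g ∈ Γ)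
    (hk : k ∈ Γ) : lp (g * k) = lp g * lp k :=
  isAff_lp (isAff_mul (iso_lp hi hg).2 (iso_lp hi hk).2)

theorem mem_lin {Γ : Subgroup (Equiv.Perm V3)} {M : M3} (h : M ∈ lin Γ) :
    ∃ g ∈ Γ, lp g = M := by
  obtain ⟨g, hg, a, h⟩ := h
  exact ⟨g, hg, isAff_lp h⟩

theorem lp_mem_lin {Γ : Subgroup (Equiv.Perm V3)} (hi : Iso Γ) {g : Equiv.Perm V3} (hg : g ∈ Γ) :
    lp g ∈ lin Γ := ⟨g, hg, g 0, (iso_lp hi hg).2⟩

theorem det_orth {M : M3} (h : Mᵀ * M = 1) : M.det = 1 ∨ M.det = -1 := by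
  have h2 := congrArg Matrix.det h
  rw [det_mul, det_transpose, det_one] at h2
  have h3 : (M.det - 1) * (M.det + 1) = 0 := by linear_combination h2
  rcases mul_eq_zero.mp h3 with h4 | h4
  · left; linarith
  · right; linarith

/-! ## Separated bounded sets are finite -/

theorem finite_sep {S : Set M3} {c : ℝ} (hc : 0 < c) (hb : ∀ M ∈ S, ‖M‖ ≤ 1)
    (hs : ∀ M ∈ S, ∀ N ∈ S, M ≠ N → c ≤ ‖M - N‖) : S.Finite := by
  have : ProperSpace M3 := FiniteDimensional.proper ℝ M3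
  have h1 : TotallyBounded S :=
    (isCompact_closedBall (0 : M3) 1).totallyBounded.subset (fun M hM => by
      rw [mem_closedBall_zero_iff]; exact hb M hM)
  obtain ⟨t, ht, hS⟩ := Metric.totallyBounded_iff.1 h1 (c / 2) (by positivity)
  refine (ht.biUnion (t := fun y => S ∩ Metric.ball y (c / 2)) (fun y _ => ?_)).subset ?_
  · apply Set.Subsingleton.finite
    intro M hM N hN
    by_contra hne
    have h2 := hs M hM.1 N hN.1 hne
    have h3 : dist M N < c / 2 + c / 2 := by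
      refine lt_of_le_of_lt (dist_triangle_right M N y) ?_
      exact add_lt_add hM.2 hN.2
    rw [dist_eq_norm] at h3
    linarith
  · intro M hM
    obtain ⟨y, hy, h⟩ := Set.mem_iUnion₂.1 (hS hM)
    exact Set.mem_iUnion₂.2 ⟨y, hy, hM, h⟩

/-! ## Rotations with two independent fixed vectors -/

theorem perp_zero {r u w : V3} (hu : r 0 * u 0 + r 1 * u 1 + r 2 * u 2 = 0)
    (hw : r 0 * w 0 + r 1 * w 1 + r 2 * w 2 = 0)
    (hn : r 0 * (u 1 * w 2 - u 2 * w 1) + r 1 * (u 2 * w 0 - u 0 * w 2) +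
      r 2 * (u 0 * w 1 - u 1 * w 0) = 0)
    (h0 : (u 1 * w 2 - u 2 * w 1) ^ 2 + (u 2 * w 0 - u 0 * w 2) ^ 2 +
      (u 0 * w 1 - u 1 * w 0) ^ 2 ≠ 0) : r 0 = 0 ∧ r 1 = 0 ∧ r 2 = 0 := by
  set n0 := u 1 * w 2 - u 2 * w 1 with hn0
  set n1 := u 2 * w 0 - u 0 * w 2 with hn1
  set n2 := u 0 * w 1 - u 1 * w 0 with hn2
  refine ⟨?_, ?_, ?_⟩
  · have : (n0 ^ 2 + n1 ^ 2 + n2 ^ 2) * r 0 = 0 := by
      have : (n0 ^ 2 + n1 ^ 2 + n2 ^ 2) * r 0 = n0 * (r 0 * n0 + r 1 * n1 + r 2 * n2) +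
          (n1 * u 2 - n2 * u 1) * (r 0 * w 0 + r 1 * w 1 + r 2 * w 2) -
          (n1 * w 2 - n2 * w 1) * (r 0 * u 0 + r 1 * u 1 + r 2 * u 2) := by
        rw [hn0, hn1, hn2]; ring
      rw [this, hn, hw, hu]; ring
    exact (mul_eq_zero.mp this).resolve_left h0
  · have : (n0 ^ 2 + n1 ^ 2 + n2 ^ 2) * r 1 = 0 := by
      have : (n0 ^ 2 + n1 ^ 2 + n2 ^ 2) * r 1 = n1 * (r 0 * n0 + r 1 * n1 + r 2 * n2) +
          (n2 * u 0 - n0 * u 2) * (r 0 * w 0 + r 1 * w 1 + r 2 * w 2) -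
          (n2 * w 0 - n0 * w 2) * (r 0 * u 0 + r 1 * u 1 + r 2 * u 2) := by
        rw [hn0, hn1, hn2]; ring
      rw [this, hn, hw, hu]; ring
    exact (mul_eq_zero.mp this).resolve_left h0
  · have : (n0 ^ 2 + n1 ^ 2 + n2 ^ 2) * r 2 = 0 := by
      have : (n0 ^ 2 + n1 ^ 2 + n2 ^ 2) * r 2 = n2 * (r 0 * n0 + r 1 * n1 + r 2 * n2) +
          (n0 * u 1 - n1 * u 0) * (r 0 * w 0 + r 1 * w 1 + r 2 * w 2) -
          (n0 * w 1 - n1 * w 0) * (r 0 * u 0 + r 1 * u 1 + r 2 * u 2) := by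
        rw [hn0, hn1, hn2]; ring
      rw [this, hn, hw, hu]; ring
    exact (mul_eq_zero.mp this).resolve_left h0

theorem fixed_two {E : M3} (hE : Eᵀ * E = 1) (hd : E.det = 1) {u w : V3} (hu : E *ᵥ u = u)
    (hw : E *ᵥ w = w) (h0 : (u 1 * w 2 - u 2 * w 1) ^ 2 + (u 2 * w 0 - u 0 * w 2) ^ 2 +
      (u 0 * w 1 - u 1 * w 0) ^ 2 ≠ 0) : E = 1 := by
  have hadj : E.adjugate = Eᵀ := by
    have h1 : E * E.adjugate = 1 := by rw [mul_adjugate, hd, one_smul]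
    calc E.adjugate = (Eᵀ * E) * E.adjugate := by rw [hE, one_mul]
      _ = Eᵀ * (E * E.adjugate) := by rw [mul_assoc]
      _ = Eᵀ := by rw [h1, mul_one]
  rw [adjugate_fin_three] at hadj
  have c00 := congrFun (congrFun hadj 0) 0
  have c01 := congrFun (congrFun hadj 0) 1
  have c02 := congrFun (congrFun hadj 0) 2
  have c10 := congrFun (congrFun hadj 1) 0
  have c11 := congrFun (congrFun hadj 1) 1
  have c12 := congrFun (congrFun hadj 1) 2
  have c20 := congrFun (congrFun hadj 2) 0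
  have c21 := congrFun (congrFun hadj 2) 1
  have c22 := congrFun (congrFun hadj 2) 2
  simp only [of_apply, cons_val', cons_val_zero, cons_val_one, cons_val, transpose_apply]
    at c00 c01 c02 c10 c11 c12 c20 c21 c22
  have hu' : ∀ i, E i 0 * u 0 + E i 1 * u 1 + E i 2 * u 2 = u i := fun i => by
    have := congrFun hu i
    rwa [mulVec, dotProduct, Fin.sum_univ_three] at this
  have hw' : ∀ i, E i 0 * w 0 + E i 1 * w 1 + E i 2 * w 2 = w i := fun i => by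
    have := congrFun hw i
    rwa [mulVec, dotProduct, Fin.sum_univ_three] at this
  have hn0 : E 0 0 * (u 1 * w 2 - u 2 * w 1) + E 0 1 * (u 2 * w 0 - u 0 * w 2) +
      E 0 2 * (u 0 * w 1 - u 1 * w 0) = u 1 * w 2 - u 2 * w 1 := by
    linear_combination (-(u 1 * w 2 - u 2 * w 1)) * c00 + (-(u 2 * w 0 - u 0 * w 2)) * c10 +
      (-(u 0 * w 1 - u 1 * w 0)) * c20 + (E 2 0 * w 0 + E 2 1 * w 1 + E 2 2 * w 2) * hu' 1 +
      u 1 * hw' 2 - (E 1 0 * w 0 + E 1 1 * w 1 + E 1 2 * w 2) * hu' 2 - u 2 * hw' 1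
  have hn1 : E 1 0 * (u 1 * w 2 - u 2 * w 1) + E 1 1 * (u 2 * w 0 - u 0 * w 2) +
      E 1 2 * (u 0 * w 1 - u 1 * w 0) = u 2 * w 0 - u 0 * w 2 := by
    linear_combination (-(u 1 * w 2 - u 2 * w 1)) * c01 + (-(u 2 * w 0 - u 0 * w 2)) * c11 +
      (-(u 0 * w 1 - u 1 * w 0)) * c21 + (E 0 0 * w 0 + E 0 1 * w 1 + E 0 2 * w 2) * hu' 2 +
      u 2 * hw' 0 - (E 2 0 * w 0 + E 2 1 * w 1 + E 2 2 * w 2) * hu' 0 - u 0 * hw' 2
  have hn2 : E 2 0 * (u 1 * w 2 - u 2 * w 1) + E 2 1 * (u 2 * w 0 - u 0 * w 2) +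
      E 2 2 * (u 0 * w 1 - u 1 * w 0) = u 0 * w 1 - u 1 * w 0 := by
    linear_combination (-(u 1 * w 2 - u 2 * w 1)) * c02 + (-(u 2 * w 0 - u 0 * w 2)) * c12 +
      (-(u 0 * w 1 - u 1 * w 0)) * c22 + (E 1 0 * w 0 + E 1 1 * w 1 + E 1 2 * w 2) * hu' 0 +
      u 0 * hw' 1 - (E 0 0 * w 0 + E 0 1 * w 1 + E 0 2 * w 2) * hu' 1 - u 1 * hw' 0
  have r0 := perp_zero (r := ![E 0 0 - 1, E 0 1, E 0 2]) (u := u) (w := w)
    (by simp; linear_combination hu' 0) (by simp; linear_combination hw' 0)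
    (by simp; linear_combination hn0) h0
  have r1 := perp_zero (r := ![E 1 0, E 1 1 - 1, E 1 2]) (u := u) (w := w)
    (by simp; linear_combination hu' 1) (by simp; linear_combination hw' 1)
    (by simp; linear_combination hn1) h0
  have r2 := perp_zero (r := ![E 2 0, E 2 1, E 2 2 - 1]) (u := u) (w := w)
    (by simp; linear_combination hu' 2) (by simp; linear_combination hw' 2)
    (by simp; linear_combination hn2) h0
  simp only [cons_val_zero, cons_val_one, cons_val] at r0 r1 r2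
  ext i j
  fin_cases i <;> fin_cases j <;> simp <;> first | linarith [r0.1, r0.2.1, r0.2.2, r1.1, r1.2.1,
    r1.2.2, r2.1, r2.2.1, r2.2.2]

/-- Two vectors of the same length whose cross product vanishes are equal up to sign. -/
theorem par_of_cross {u w : V3} (hu : u ≠ 0) (hl : vn w = vn u)
    (h0 : (u 1 * w 2 - u 2 * w 1) ^ 2 + (u 2 * w 0 - u 0 * w 2) ^ 2 +
      (u 0 * w 1 - u 1 * w 0) ^ 2 = 0) : w = u ∨ w = -u := by
  have q0 := sq_nonneg (u 1 * w 2 - u 2 * w 1)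
  have q1 := sq_nonneg (u 2 * w 0 - u 0 * w 2)
  have q2 := sq_nonneg (u 0 * w 1 - u 1 * w 0)
  have a0 : u 1 * w 2 - u 2 * w 1 = 0 := pow_eq_zero_iff two_ne_zero |>.1 (by linarith)
  have a1 : u 2 * w 0 - u 0 * w 2 = 0 := pow_eq_zero_iff two_ne_zero |>.1 (by linarith)
  have a2 : u 0 * w 1 - u 1 * w 0 = 0 := pow_eq_zero_iff two_ne_zero |>.1 (by linarith)
  obtain ⟨k, hk⟩ : ∃ k, u k ≠ 0 := by
    by_contra h
    push Not at h
    exact hu (funext h)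
  have hw : w = (w k / u k) • u := by
    funext j
    simp only [Pi.smul_apply, smul_eq_mul]
    rw [div_mul_eq_mul_div, eq_div_iff hk]
    fin_cases k <;> fin_cases j <;> simp <;> linarith
  rw [hw, vn_smul] at hl
  have h1 : |w k / u k| = 1 := by
    have := vn_pos hu
    have h2 : (|w k / u k| - 1) * vn u = 0 := by rw [sub_mul, one_mul, hl, sub_self]
    rcases mul_eq_zero.mp h2 with h3 | h3
    · linarith
    · exact absurd h3 (ne_of_gt this)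
  rcases (abs_eq zero_le_one).mp h1 with h2 | h2
  · left; rw [hw, h2, one_smul]
  · right; rw [hw, h2, neg_smul, one_smul]

/-- A rotation of determinant `1`, close to but different from the identity: if it maps `u` to
`u` or `-u` and fixes a vector `w` of the same length then `w = u` or `w = -u`. -/
theorem axis {E : M3} (hE : Eᵀ * E = 1) (hd : E.det = 1) (h1 : E ≠ 1) (hs : ‖E - 1‖ < 1)
    {u w : V3} (hu0 : u ≠ 0) (hu : E *ᵥ u = u ∨ E *ᵥ u = -u) (hw : E *ᵥ w = w)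
    (hl : vn w = vn u) : w = u ∨ w = -u := by
  have hu' : E *ᵥ u = u := by
    rcases hu with h | h
    · exact h
    · exfalso
      have h2 := vn_mulVec (E - 1) u
      have h3 : (E - 1) *ᵥ u = (-2 : ℝ) • u := by
        rw [sub_mulVec, one_mulVec, h]
        funext i
        simp; ring
      rw [h3, vn_smul] at h2
      have := vn_pos hu0
      rw [show |(-2 : ℝ)| = 2 by norm_num] at h2
      nlinarith
  apply par_of_cross hu0 hl
  by_contra h0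
  exact h1 (fixed_two hE hd hu' hw h0)

/-! ## Case 1: no small rotation -/

theorem lin_orth {Γ : Subgroup (Equiv.Perm V3)} (hi : Iso Γ) {M : M3} (hM : M ∈ lin Γ) :
    Mᵀ * M = 1 := by
  obtain ⟨g, hg, rfl⟩ := mem_lin hM
  exact (iso_lp hi hg).1

theorem lin_mul {Γ : Subgroup (Equiv.Perm V3)} (hi : Iso Γ) {M N : M3} (hM : M ∈ lin Γ)
    (hN : N ∈ lin Γ) : M * N ∈ lin Γ := by
  obtain ⟨g, hg, rfl⟩ := mem_lin hM
  obtain ⟨k, hk, rfl⟩ := mem_lin hN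
  exact ⟨g * k, Γ.mul_mem hg hk, _, isAff_mul (iso_lp hi hg).2 (iso_lp hi hk).2⟩

theorem lin_tr {Γ : Subgroup (Equiv.Perm V3)} (hi : Iso Γ) {M : M3} (hM : M ∈ lin Γ) :
    Mᵀ ∈ lin Γ := by
  obtain ⟨g, hg, rfl⟩ := mem_lin hM
  exact ⟨g⁻¹, Γ.inv_mem hg, _, isAff_inv (iso_lp hi hg).1 (iso_lp hi hg).2⟩

theorem case_one {Γ : Subgroup (Equiv.Perm V3)} (hi : Iso Γ) {c : ℝ} (hc : 0 < c)
    (h : ∀ A ∈ lin Γ, A.det = 1 → A ≠ 1 → c ≤ ‖A - 1‖) : (lin Γ).Finite := by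
  have hS : {M : M3 | M ∈ lin Γ ∧ M.det = 1}.Finite := by
    apply finite_sep hc
    · rintro M ⟨hM, -⟩
      exact (nrm_orth (lin_orth hi hM)).le
    · rintro M ⟨hM, hdM⟩ N ⟨hN, hdN⟩ hne
      have hN1 := lin_orth hi hN
      have h1 : (M - N) * Nᵀ = M * Nᵀ - 1 := by rw [sub_mul, mul_tr hN1]
      have h2 := nrm_mul_right (tr_orth hN1) (M - N)
      rw [h1] at h2
      rw [← h2]
      apply h _ (lin_mul hi hM (lin_tr hi hN))
      · rw [det_mul, det_transpose, hdM, hdN, one_mul]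
      · intro h3
        apply hne
        calc M = M * (Nᵀ * N) := by rw [hN1, mul_one]
          _ = (M * Nᵀ) * N := by rw [mul_assoc]
          _ = N := by rw [h3, one_mul]
  by_cases hR : ∃ R ∈ lin Γ, R.det = -1
  · obtain ⟨R, hR, hdR⟩ := hR
    have hR1 := lin_orth hi hR
    refine (hS.union (hS.image (fun N => R * N))).subset ?_
    intro M hM
    rcases det_orth (lin_orth hi hM) with hd | hd
    · exact Or.inl ⟨hM, hd⟩
    · right
      refine ⟨Rᵀ * M, ⟨lin_mul hi (lin_tr hi hR) hM, ?_⟩, ?_⟩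
      · rw [det_mul, det_transpose, hdR, hd]; norm_num
      · change R * (Rᵀ * M) = M
        rw [← mul_assoc, mul_tr hR1, one_mul]
  · refine hS.subset ?_
    intro M hM
    rcases det_orth (lin_orth hi hM) with hd | hd
    · exact ⟨hM, hd⟩
    · exact absurd ⟨M, hM, hd⟩ hR

/-! ## Case 2: iterated commutators with a small rotation -/

/-- The iterated commutators. -/
def cm (α β : Equiv.Perm V3) : ℕ → Equiv.Perm V3
  | 0 => β
  | k + 1 => α * cm α β k * α⁻¹ * (cm α β k)⁻¹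

theorem cm_mem {Γ : Subgroup (Equiv.Perm V3)} {α β : Equiv.Perm V3} (hα : α ∈ Γ) (hβ : β ∈ Γ)
    (k : ℕ) : cm α β k ∈ Γ := by
  induction k with
  | zero => exact hβ
  | succ k ih =>
    exact Γ.mul_mem (Γ.mul_mem (Γ.mul_mem hα ih) (Γ.inv_mem hα)) (Γ.inv_mem ih)

section step

variable {A C : M3}

theorem comm_sub_one (hA : Aᵀ * A = 1) (hC : Cᵀ * C = 1) :
    A * C * Aᵀ * Cᵀ - 1 = (A * C - C * A) * Aᵀ * Cᵀ := by
  have : C * A * Aᵀ * Cᵀ = 1 := by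
    rw [mul_assoc C A, mul_tr hA, mul_one, mul_tr hC]
  rw [sub_mul, sub_mul, this]

theorem nrm_comm (hA : Aᵀ * A = 1) (hC : Cᵀ * C = 1) :
    ‖A * C * Aᵀ * Cᵀ - 1‖ ≤ 2 * ‖A - 1‖ * ‖C - 1‖ := by
  rw [comm_sub_one hA hC, nrm_mul_right (tr_orth hC), nrm_mul_right (tr_orth hA)]
  have h : A * C - C * A = (A - 1) * (C - 1) - (C - 1) * (A - 1) := by noncomm_ring
  rw [h]
  have h1 := norm_sub_le ((A - 1) * (C - 1)) ((C - 1) * (A - 1))
  have h2 := norm_mul_le (A - 1) (C - 1)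
  have h3 := norm_mul_le (C - 1) (A - 1)
  nlinarith

theorem nrm_conj (hC : Cᵀ * C = 1) (A : M3) : ‖C * A * Cᵀ - 1‖ = ‖A - 1‖ := by
  have h : C * A * Cᵀ - 1 = C * (A - 1) * Cᵀ := by
    rw [mul_sub, sub_mul, mul_one, mul_tr hC]
  rw [h, nrm_mul_right (tr_orth hC), nrm_mul_left hC]

theorem nrm_tr (hA : Aᵀ * A = 1) : ‖Aᵀ - 1‖ = ‖A - 1‖ := by
  have h : Aᵀ * (1 - A) = Aᵀ - 1 := by rw [mul_sub, mul_one, hA]
  rw [← h, nrm_mul_left (tr_orth hA), norm_sub_rev]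

end step

theorem cm_lp {Γ : Subgroup (Equiv.Perm V3)} (hi : Iso Γ) {α β : Equiv.Perm V3} (hα : α ∈ Γ)
    (hβ : β ∈ Γ) (k : ℕ) :
    lp (cm α β (k + 1)) = lp α * lp (cm α β k) * (lp α)ᵀ * (lp (cm α β k))ᵀ ∧
    cm α β (k + 1) 0 = (lp α - lp (cm α β (k + 1))) *ᵥ (cm α β k 0) +
      (1 - lp α * lp (cm α β k) * (lp α)ᵀ) *ᵥ (α 0) := by
  have hk := cm_mem hα hβ k
  obtain ⟨o1, a1⟩ := iso_lp hi hα
  obtain ⟨o2, a2⟩ := iso_lp hi hk
  have h := isAff_mul (isAff_mul (isAff_mul a1 a2) (isAff_inv o1 a1)) (isAff_inv o2 a2)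
  have e1 := isAff_lp h
  have e2 := isAff_zero h
  refine ⟨e1, ?_⟩
  have e1' : lp (cm α β (k + 1)) = lp α * lp (cm α β k) * (lp α)ᵀ * (lp (cm α β k))ᵀ := e1
  rw [e1']
  change (α * cm α β k * α⁻¹ * (cm α β k)⁻¹) 0 = _
  rw [e2]
  simp only [mulVec_neg, mulVec_mulVec, sub_mulVec, one_mulVec]
  abel

theorem cm_bound {Γ : Subgroup (Equiv.Perm V3)} (hi : Iso Γ) {α β : Equiv.Perm V3} (hα : α ∈ Γ)
    (hβ : β ∈ Γ) (hs : ‖lp α - 1‖ < 1 / 8) (k : ℕ) :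
    vn (cm α β k 0) ≤ vn (β 0) + 6 * vn (α 0) := by
  induction k with
  | zero =>
    have := vn_nonneg (α 0)
    change vn (β 0) ≤ _
    linarith
  | succ k ih =>
    obtain ⟨e1, e2⟩ := cm_lp hi hα hβ k
    have oA := (iso_lp hi hα).1
    have oC := (iso_lp hi (cm_mem hα hβ k)).1
    have n1 := nrm_comm oA oC
    rw [← e1] at n1
    have n2 := nrm_sub_one_le oC
    have n3 : ‖lp α - lp (cm α β (k + 1))‖ ≤ 5 / 8 := by
      have h1 := norm_sub_le (lp α - 1) (lp (cm α β (k + 1)) - 1)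
      rw [sub_sub_sub_cancel_right] at h1
      have h2 : 0 ≤ ‖lp α - 1‖ := norm_nonneg _
      nlinarith
    have n4 : ‖1 - lp α * lp (cm α β k) * (lp α)ᵀ‖ ≤ 2 := by
      rw [norm_sub_rev, nrm_conj oA]
      exact n2
    rw [e2]
    have v1 := vn_add ((lp α - lp (cm α β (k + 1))) *ᵥ (cm α β k 0))
      ((1 - lp α * lp (cm α β k) * (lp α)ᵀ) *ᵥ (α 0))
    have v2 := vn_mulVec (lp α - lp (cm α β (k + 1))) (cm α β k 0)
    have v3 := vn_mulVec (1 - lp α * lp (cm α β k) * (lp α)ᵀ) (α 0)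
    have p1 := vn_nonneg (cm α β k 0)
    have p2 := vn_nonneg (α 0)
    have p3 := vn_nonneg (β 0)
    have q1 : ‖lp α - lp (cm α β (k + 1))‖ * vn (cm α β k 0) ≤ 5 / 8 * vn (cm α β k 0) :=
      mul_le_mul_of_nonneg_right n3 p1
    have q2 : ‖1 - lp α * lp (cm α β k) * (lp α)ᵀ‖ * vn (α 0) ≤ 2 * vn (α 0) :=
      mul_le_mul_of_nonneg_right n4 p2
    linarith

theorem cm_one {Γ : Subgroup (Equiv.Perm V3)} (hi : Iso Γ) (hd : Disc Γ) {α β : Equiv.Perm V3}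
    (hα : α ∈ Γ) (hβ : β ∈ Γ) (hs : ‖lp α - 1‖ < 1 / 8) : ∃ n, lp (cm α β n) = 1 := by
  by_contra hno
  push Not at hno
  have hanti : StrictAnti (fun k => ‖lp (cm α β k) - 1‖) := by
    apply strictAnti_nat_of_succ_lt
    intro k
    obtain ⟨e1, -⟩ := cm_lp hi hα hβ k
    have n1 := nrm_comm (iso_lp hi hα).1 (iso_lp hi (cm_mem hα hβ k)).1
    rw [← e1] at n1
    have h0 : 0 < ‖lp (cm α β k) - 1‖ := norm_pos_iff.2 (sub_ne_zero.2 (hno k))
    have h2 : 0 ≤ ‖lp α - 1‖ := norm_nonneg _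
    nlinarith
  have hfin := (hd (vn (β 0) + 6 * vn (α 0))).image (fun g => ‖lp g - 1‖)
  refine Set.infinite_range_of_injective hanti.injective (hfin.subset ?_)
  rintro _ ⟨k, rfl⟩
  refine ⟨cm α β k, ⟨cm_mem hα hβ k, fun i => ?_⟩, rfl⟩
  exact (abs_le_vn _ i).trans (cm_bound hi hα hβ hs k)

theorem cm_line {Γ : Subgroup (Equiv.Perm V3)} (hi : Iso Γ) {α β : Equiv.Perm V3} (hα : α ∈ Γ)
    (hβ : β ∈ Γ) (hs : ‖lp α - 1‖ < 1 / 8) (hdet : (lp α).det = 1) (h1 : lp α ≠ 1) {u : V3}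
    (hu0 : u ≠ 0) (hu : lp α *ᵥ u = u) (k : ℕ)
    (h : lp (cm α β (k + 1)) *ᵥ u = u ∨ lp (cm α β (k + 1)) *ᵥ u = -u) :
    lp (cm α β k) *ᵥ u = u ∨ lp (cm α β k) *ᵥ u = -u := by
  obtain ⟨e1, -⟩ := cm_lp hi hα hβ k
  have oA := (iso_lp hi hα).1
  have oC := (iso_lp hi (cm_mem hα hβ k)).1
  set A := lp α with hA
  set C := lp (cm α β k) with hC
  have hAt : Aᵀ *ᵥ u = u := by
    conv_lhs => rw [← hu]
    rw [mulVec_mulVec, oA, one_mulVec]
  have oE : (C * Aᵀ * Cᵀ)ᵀ * (C * Aᵀ * Cᵀ) = 1 := by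
    simp only [transpose_mul, transpose_transpose]
    calc C * (A * Cᵀ) * (C * Aᵀ * Cᵀ) = C * (A * (Cᵀ * C) * Aᵀ) * Cᵀ := by
          simp only [mul_assoc]
      _ = 1 := by rw [oC, mul_one, mul_tr oA, mul_one, mul_tr oC]
  have dE : (C * Aᵀ * Cᵀ).det = 1 := by
    rw [det_mul, det_mul, det_transpose, det_transpose, hdet, mul_one]
    have := congrArg Matrix.det oC
    rwa [det_mul, det_transpose, det_one] at this
  have E1 : C * Aᵀ * Cᵀ ≠ 1 := by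
    intro h2
    apply h1
    have h3 : Aᵀ = 1 := by
      calc Aᵀ = (Cᵀ * C) * Aᵀ * (Cᵀ * C) := by rw [oC, mul_one, one_mul]
        _ = Cᵀ * (C * Aᵀ * Cᵀ) * C := by simp only [mul_assoc]
        _ = 1 := by rw [h2, mul_one, oC]
    have := congrArg Matrix.transpose h3
    rwa [transpose_transpose, transpose_one] at this
  have sE : ‖C * Aᵀ * Cᵀ - 1‖ < 1 := by
    rw [nrm_conj oC, nrm_tr oA]
    linarith
  have e3 : C * Aᵀ * Cᵀ = Aᵀ * lp (cm α β (k + 1)) := by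
    rw [e1]
    calc C * Aᵀ * Cᵀ = (Aᵀ * A) * C * Aᵀ * Cᵀ := by rw [oA, one_mul]
      _ = Aᵀ * (A * C * Aᵀ * Cᵀ) := by simp only [mul_assoc]
  have uE : (C * Aᵀ * Cᵀ) *ᵥ u = u ∨ (C * Aᵀ * Cᵀ) *ᵥ u = -u := by
    rw [e3, ← mulVec_mulVec]
    rcases h with h | h
    · left; rw [h, hAt]
    · right; rw [h, mulVec_neg, hAt]
  have wE : (C * Aᵀ * Cᵀ) *ᵥ (C *ᵥ u) = C *ᵥ u := by
    rw [mulVec_mulVec]
    have : C * Aᵀ * Cᵀ * C = C * Aᵀ := by rw [mul_assoc, oC, mul_one]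
    rw [this, ← mulVec_mulVec, hAt]
  exact axis oE dE E1 sE hu0 uE wE (vn_orth oC u)

theorem exists_axis {A : M3} (hA : Aᵀ * A = 1) (hd : A.det = 1) :
    ∃ u : V3, u ≠ 0 ∧ A *ᵥ u = u := by
  have h1 : (A - 1).det = 0 := by
    have h2 : Aᵀ * (A - 1) = -(A - 1)ᵀ := by
      rw [mul_sub, hA, mul_one, transpose_sub, transpose_one]
      abel
    have h3 := congrArg Matrix.det h2
    rw [det_mul, det_transpose, hd, one_mul, det_neg, det_transpose, Fintype.card_fin] at h3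
    linarith
  obtain ⟨u, hu, h⟩ := exists_mulVec_eq_zero_iff.2 h1
  refine ⟨u, hu, ?_⟩
  rw [sub_mulVec, one_mulVec, sub_eq_zero] at h
  exact h

end Dich

open Dich in
/-- B4: the linear parts of a discrete group of isometries are finitely many or preserve a common
line. -/
theorem dichotomy {Γ : Subgroup (Equiv.Perm V3)} (hi : Iso Γ) (hd : Disc Γ) :
    (lin Γ).Finite ∨ ∃ u : V3, u ≠ 0 ∧ ∀ M ∈ lin Γ, M *ᵥ u = u ∨ M *ᵥ u = -u := by
  by_cases h : ∀ A ∈ lin Γ, A.det = 1 → A ≠ 1 → (1 / 8 : ℝ) ≤ ‖A - 1‖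
  · left
    exact case_one hi (by norm_num) h
  · right
    push Not at h
    obtain ⟨A, hA, hdet, hne, hs⟩ := h
    obtain ⟨α, hα, rfl⟩ := mem_lin hA
    obtain ⟨u, hu0, hu⟩ := exists_axis (iso_lp hi hα).1 hdet
    refine ⟨u, hu0, fun B hB => ?_⟩
    obtain ⟨β, hβ, rfl⟩ := mem_lin hB
    obtain ⟨n, hn⟩ := cm_one hi hd hα hβ hs
    have key : ∀ m, (lp (cm α β m) *ᵥ u = u ∨ lp (cm α β m) *ᵥ u = -u) →
        (lp (cm α β 0) *ᵥ u = u ∨ lp (cm α β 0) *ᵥ u = -u) := by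
      intro m
      induction m with
      | zero => exact id
      | succ m ih => exact fun h => ih (cm_line hi hα hβ hs hdet hne hu0 hu m h)
    exact key n (Or.inl (by rw [hn, one_mulVec]))

end Pool.Agent.H21.FT
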