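import Pool.Agent.H21.FT.C1Idx

/-!
# The easy rows: checks

The rows whose families have no integer parameters. There are four types: rows with families of the
form `v / den + x K1 + y K2` that are, up to similarity, all vectors (`c2`); rows whose linear maps
all commute with the rotations of the plane (`cyc`); rows without family (`none`); orthogonal rows.
-/

namespace Pool.Agent.H21.FT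

open Matrix

/-- The matrix is the direct sum of a planar matrix and a number. -/
def blkB (M : IM) : Bool :=
  decide (M.a.z = 0) && decide (M.b.z = 0) && decide (M.c.x = 0) && decide (M.c.y = 0)

/-- The matrix `∑ X v ⊗ c` over the pairs `(X, c)` of the list. -/
def bmat (v : IV) (l : List (IM × IV)) : IM :=
  l.foldr (fun x acc => (outer (x.1.mv v) x.2).add acc) IM.zero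

/-- The vectors `X v / den` generate the lattice `L`. -/
def genB (r : Row) (f : Fam) (L : LatE) (l : List (IM × IV)) : Bool :=
  l.all (fun x => decide (x.1 ∈ r.sch)) &&
  (let M := (bmat f.v l).mul L.D
   let N := f.den * L.m
   decide (M.a.x = N) && decide (M.a.y = 0) && decide (M.b.x = 0) && decide (M.b.y = N) &&
   decide (M.c.x = 0) && decide (M.c.y = 0) &&
   (decide (M.a.z = 0) && decide (M.b.z = 0) && decide (M.c.z = N) ||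
    decide (L.E.a = ⟨0, 0, 1⟩)))

/-- The first family of the list of families, with the first lattice. -/
def fam1 (x : Block × (Row × List LatE)) : Option (Fam × LatE) :=
  match x.1.fams, x.2.2 with
  | f :: _, L :: _ => some (f, L)
  | _, _ => none

/-- The check of a cubic row with two real parameters. -/
def c2CubB (x : Block × (Row × List LatE)) (l : List (IM × IV)) : Bool :=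
  match fam1 x with
  | none => false
  | some (f, L) =>
    decide (0 < f.den) && decide (0 < L.m) &&
    decide (f.v.dot ⟨f.K1.y * f.K2.z - f.K1.z * f.K2.y, f.K1.z * f.K2.x - f.K1.x * f.K2.z,
      f.K1.x * f.K2.y - f.K1.y * f.K2.x⟩ ≠ 0) &&
    x.2.1.sch.all (fun X => decide (X.mv f.K1 = ⟨0, 0, 0⟩) && decide (X.mv f.K2 = ⟨0, 0, 0⟩)) &&
    (decide (f.exc = []) || genB x.2.1 f L l)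

/-- The check of a tetragonal or hexagonal row with one real parameter. -/
def c2AxB (x : Block × (Row × List LatE)) (l : List (IM × IV)) : Bool :=
  match fam1 x with
  | none => false
  | some (f, L) =>
    decide (0 < f.den) && decide (0 < L.m) &&
    decide (f.v.x * f.K1.y - f.v.y * f.K1.x ≠ 0) && decide (f.v.z ≠ 0) && decide (f.K1.z = 0) &&
    x.2.1.sch.all (fun X => decide (X.mv f.K1 = ⟨0, 0, 0⟩) && decide (X.mv f.K2 = ⟨0, 0, 0⟩) &&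
      blkB X) &&
    x.2.1.nl.all (fun p => blkB p.X) && (x.1.S :: x.1.gens).all blkB &&
    (decide (f.exc = []) || genB x.2.1 f L l)

/-- The check of a row without family. -/
def noneB (x : Block × (Row × List LatE)) : Bool :=
  x.2.1.sch.all (fun X => decide (X.a = ⟨0, 0, 0⟩) && decide (X.b = ⟨0, 0, 0⟩))

/-- The planar part of the matrix commutes with the rotations of the tetragonal (`e = 0`) or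
hexagonal (`e = 1`) frame. -/
def rotB (e : ℤ) (M : IM) : Bool :=
  blkB M && decide (M.a.y = -M.b.x) && decide (M.b.y = M.a.x - e * M.b.x)

/-- The check of a row whose linear maps all commute with rotations. -/
def cycB (e : ℤ) (x : Block × (Row × List LatE)) : Bool :=
  match x.1.fams with
  | [] => false
  | f :: _ =>
    decide (0 < f.den) && decide (f.v.x = f.den) && decide (f.v.y = 0) && decide (f.v.z ≠ 0) &&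
    decide (f.exc = []) && x.2.1.sch.all blkB && (x.1.S :: x.1.gens).all (rotB e)

/-- The matrix is diagonal. -/
def diagB (M : IM) : Bool := blkB M && decide (M.a.y = 0) && decide (M.b.x = 0)

/-- The check of an orthogonal row. -/
def ortB (x : Block × (Row × List LatE)) : Bool :=
  match x.1.fams with
  | [] => false
  | f :: _ =>
    decide (x.1.kind = .ort) && decide (f.den = 1) && decide (f.v = ⟨1, 1, 1⟩) &&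
    decide (f.exc = []) && (x.1.S :: x.1.gens).all diagB

/-- Certificates for the cubic rows with two real parameters. -/
def cubC2 : List (ℕ × List (IM × IV)) :=
  [(4, [(⟨⟨1, 1, 1⟩, ⟨1, 1, 1⟩, ⟨1, 1, 1⟩⟩, ⟨1, 1, 1⟩),
      (⟨⟨1, 1, 1⟩, ⟨1, 1, 1⟩, ⟨-1, -1, -1⟩⟩, ⟨0, 0, -1⟩),
      (⟨⟨1, 1, 1⟩, ⟨-1, -1, -1⟩, ⟨1, 1, 1⟩⟩, ⟨0, -1, 0⟩)]),
   (5, [(⟨⟨0, 0, 0⟩, ⟨0, 0, 0⟩, ⟨-4, 0, 0⟩⟩, ⟨0, 0, -1⟩),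
      (⟨⟨0, 0, 0⟩, ⟨2, 0, 0⟩, ⟨2, 0, 0⟩⟩, ⟨0, 1, 0⟩),
      (⟨⟨2, 0, 0⟩, ⟨0, 0, 0⟩, ⟨2, 0, 0⟩⟩, ⟨1, 0, 0⟩)]),
   (6, [(⟨⟨1, 1, 1⟩, ⟨1, 1, 1⟩, ⟨1, 1, 1⟩⟩, ⟨1, 1, 0⟩),
      (⟨⟨-1, -1, -1⟩, ⟨1, 1, 1⟩, ⟨-1, -1, -1⟩⟩, ⟨0, 1, 0⟩),
      (⟨⟨0, 0, 0⟩, ⟨0, 0, 0⟩, ⟨-2, -2, -2⟩⟩, ⟨0, 0, -1⟩)])]

/-- Certificates for the tetragonal rows with one real parameter. -/
def tetC2 : List (ℕ × List (IM × IV)) :=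
  [(3, []),
   (4, []),
   (5, [(⟨⟨-1, -1, 0⟩, ⟨-1, -1, 0⟩, ⟨0, 0, -2⟩⟩, ⟨-1, -1, -1⟩),
      (⟨⟨-1, -1, 0⟩, ⟨1, 1, 0⟩, ⟨0, 0, -2⟩⟩, ⟨0, 1, 0⟩),
      (⟨⟨1, 1, 0⟩, ⟨1, 1, 0⟩, ⟨0, 0, -2⟩⟩, ⟨0, 0, -1⟩)]),
   (6, [(⟨⟨-1, -1, 0⟩, ⟨-1, -1, 0⟩, ⟨0, 0, 0⟩⟩, ⟨-1, -1, 0⟩),
      (⟨⟨1, 1, 0⟩, ⟨-1, -1, 0⟩, ⟨0, 0, 0⟩⟩, ⟨0, -1, 0⟩)]),
   (21, [(⟨⟨-1, -1, 0⟩, ⟨-1, -1, 0⟩, ⟨0, 0, -2⟩⟩, ⟨-1, -1, 0⟩),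
      (⟨⟨1, 1, 0⟩, ⟨-1, -1, 0⟩, ⟨0, 0, 2⟩⟩, ⟨0, -1, 0⟩),
      (⟨⟨0, 0, 0⟩, ⟨0, 0, 0⟩, ⟨0, 0, 2⟩⟩, ⟨-1, 0, 1⟩)])]

/-- Certificates for the hexagonal rows with one real parameter. -/
def hexC2 : List (ℕ × List (IM × IV)) :=
  [(0, []),
   (1, [(⟨⟨1, -1, 0⟩, ⟨-1, 1, 0⟩, ⟨0, 0, 2⟩⟩, ⟨0, -1, 2⟩),
      (⟨⟨1, -1, 0⟩, ⟨2, -2, 0⟩, ⟨0, 0, 2⟩⟩, ⟨1, 1, 1⟩),
      (⟨⟨3, -3, 0⟩, ⟨0, 0, 0⟩, ⟨0, 0, 0⟩⟩, ⟨0, 0, -1⟩)]),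
   (2, [(⟨⟨-2, 1, 0⟩, ⟨0, 0, 0⟩, ⟨0, 0, -2⟩⟩, ⟨-1, 1, 0⟩),
      (⟨⟨2, -1, 0⟩, ⟨2, -1, 0⟩, ⟨0, 0, 2⟩⟩, ⟨0, 1, 0⟩),
      (⟨⟨0, 0, 0⟩, ⟨0, 0, 0⟩, ⟨0, 0, 2⟩⟩, ⟨-1, 0, 1⟩)]),
   (3, []),
   (4, [(⟨⟨1, -1, 0⟩, ⟨-1, 1, 0⟩, ⟨0, 0, 2⟩⟩, ⟨-2, -2, -2⟩),
      (⟨⟨1, -1, 0⟩, ⟨2, -2, 0⟩, ⟨0, 0, -2⟩⟩, ⟨0, 2, -1⟩),
      (⟨⟨3, -3, 0⟩, ⟨0, 0, 0⟩, ⟨0, 0, 4⟩⟩, ⟨1, 1, 1⟩),
      (⟨⟨3, -3, 0⟩, ⟨3, -3, 0⟩, ⟨0, 0, -4⟩⟩, ⟨0, -1, 0⟩)]),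
   (5, [(⟨⟨1, -1, 0⟩, ⟨-1, 1, 0⟩, ⟨0, 0, 0⟩⟩, ⟨0, -1, 0⟩),
      (⟨⟨1, -1, 0⟩, ⟨2, -2, 0⟩, ⟨0, 0, 0⟩⟩, ⟨1, 1, 0⟩)]),
   (6, [(⟨⟨-2, 1, 0⟩, ⟨0, 0, 0⟩, ⟨0, 0, -2⟩⟩, ⟨-1, 0, -1⟩),
      (⟨⟨2, -1, 0⟩, ⟨2, -1, 0⟩, ⟨0, 0, 1⟩⟩, ⟨0, 1, 0⟩),
      (⟨⟨2, -1, 0⟩, ⟨0, 0, 0⟩, ⟨0, 0, -1⟩⟩, ⟨0, -1, -1⟩)]),
   (7, [(⟨⟨-2, 1, 0⟩, ⟨0, 0, 0⟩, ⟨0, 0, 0⟩⟩, ⟨-1, 0, 0⟩),
      (⟨⟨0, 0, 0⟩, ⟨-2, 1, 0⟩, ⟨0, 0, 0⟩⟩, ⟨0, -1, 0⟩)]),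
   (26, [(⟨⟨0, 0, 0⟩, ⟨0, 0, 0⟩, ⟨0, 0, 2⟩⟩, ⟨1, 0, 1⟩),
      (⟨⟨1, -1, 0⟩, ⟨-1, 1, 0⟩, ⟨0, 0, 2⟩⟩, ⟨0, -1, 0⟩),
      (⟨⟨1, -1, 0⟩, ⟨2, -2, 0⟩, ⟨0, 0, -2⟩⟩, ⟨1, 0, 0⟩),
      (⟨⟨1, -1, 0⟩, ⟨2, -2, 0⟩, ⟨0, 0, 2⟩⟩, ⟨0, 1, 0⟩)]),
   (27, [(⟨⟨-2, 1, 0⟩, ⟨0, 0, 0⟩, ⟨0, 0, -2⟩⟩, ⟨-1, 1, -1⟩),
      (⟨⟨2, -1, 0⟩, ⟨2, -1, 0⟩, ⟨0, 0, 2⟩⟩, ⟨0, 1, 0⟩),
      (⟨⟨0, 0, 0⟩, ⟨0, 0, 0⟩, ⟨0, 0, 2⟩⟩, ⟨-1, 0, 0⟩),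
      (⟨⟨2, -1, 0⟩, ⟨0, 0, 0⟩, ⟨0, 0, 1⟩⟩, ⟨0, 0, -1⟩)])]

end Pool.Agent.H21.FT
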