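import Pool.Agent.H21.FT.EasyDefs
import Pool.Agent.H21.FT.FamSound

/-!
# The easy rows: general lemmas
-/

namespace Pool.Agent.H21.FT

open Matrix

namespace Easy

theorem mv_vec (M : IM) (v : IV) : (M.mv v).vec = M.mat *ᵥ v.vec := by
  obtain ⟨⟨a, b, c⟩, ⟨d, e, f⟩, ⟨g, h, i⟩⟩ := M
  obtain ⟨x, y, z⟩ := v
  ext i
  fin_cases i <;>
    simp [IM.mv, IV.dot, IV.vec, IM.mat, Matrix.mulVec, dotProduct, Fin.sum_univ_three]

theorem vec_zero : (⟨0, 0, 0⟩ : IV).vec = 0 := by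
  ext i
  fin_cases i <;> simp [IV.vec]

theorem outer_mat (v c k : IV) :
    (outer v c).mat *ᵥ k.vec = ((c.dot k : ℤ) : ℝ) • v.vec := by
  obtain ⟨x, y, z⟩ := v
  obtain ⟨a, b, e⟩ := c
  obtain ⟨l, m, n⟩ := k
  ext i
  fin_cases i <;>
    simp [outer, IV.smul, IV.dot, IV.vec, IM.mat, Matrix.mulVec, dotProduct,
      Fin.sum_univ_three] <;> ring

/-- the point with integer parameters zero -/
theorem pt_zero (f : Fam) (x y : ℝ) :
    f.pt ⟨0, 0, 0⟩ x y = ((f.den : ℝ)⁻¹) • f.v.vec + x • f.K1.vec + y • f.K2.vec := by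
  simp [Fam.pt]

theorem mat_pt {f : Fam} {X : IM} (h1 : X.mv f.K1 = ⟨0, 0, 0⟩) (h2 : X.mv f.K2 = ⟨0, 0, 0⟩)
    (x y : ℝ) : X.mat *ᵥ f.pt ⟨0, 0, 0⟩ x y = ((f.den : ℝ)⁻¹) • (X.mv f.v).vec := by
  rw [pt_zero, mulVec_add, mulVec_add, mulVec_smul, mulVec_smul, mulVec_smul, ← mv_vec, ← mv_vec,
    ← mv_vec, h1, h2, vec_zero, smul_zero, smul_zero, add_zero, add_zero]

/-- integer combinations of the vectors `X v` are multiples of elements of the group -/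
theorem bmat_mem {r : Row} {f : Fam} (hden : 0 < f.den)
    (hK : ∀ X ∈ r.sch, X.mv f.K1 = ⟨0, 0, 0⟩ ∧ X.mv f.K2 = ⟨0, 0, 0⟩) {l : List (IM × IV)}
    (hl : ∀ x ∈ l, x.1 ∈ r.sch) (x y : ℝ) (k : IV) :
    ∃ u ∈ r.Tw (f.pt ⟨0, 0, 0⟩ x y), (bmat f.v l).mat *ᵥ k.vec = (f.den : ℝ) • u := by
  have hd : (f.den : ℝ) ≠ 0 := by
    have : f.den ≠ 0 := hden.ne'
    exact_mod_cast this
  induction l with
  | nil => exact ⟨0, zero_mem _, by simp [bmat, rf_zero_mat]⟩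
  | cons a l ih =>
    obtain ⟨u, hu, hu'⟩ := ih (fun x hx => hl x (List.mem_cons_of_mem _ hx))
    have ha := hl a List.mem_cons_self
    obtain ⟨h1, h2⟩ := hK _ ha
    have hm : a.1.mat *ᵥ f.pt ⟨0, 0, 0⟩ x y ∈ r.Tw (f.pt ⟨0, 0, 0⟩ x y) :=
      AddSubgroup.subset_closure ⟨a.1, ha, rfl⟩
    refine ⟨(a.2.dot k) • (a.1.mat *ᵥ f.pt ⟨0, 0, 0⟩ x y) + u, ?_, ?_⟩
    · exact add_mem (zsmul_mem hm _) hu
    · change ((outer (a.1.mv f.v) a.2).add (bmat f.v l)).mat *ᵥ k.vec = _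
      rw [rf_add_mat, add_mulVec, hu', outer_mat, mat_pt h1 h2, smul_add, ← Int.cast_smul_eq_zsmul ℝ,
        smul_comm (f.den : ℝ) ((a.2.dot k : ℤ) : ℝ), smul_smul (f.den : ℝ), mul_inv_cancel₀ hd,
        one_smul]

/-- the lattice is generated by the vectors `X v / den` -/
theorem gen_mem {r : Row} {f : Fam} {L : LatE} {l : List (IM × IV)} (hden : 0 < f.den)
    (hm : 0 < L.m) (hK : ∀ X ∈ r.sch, X.mv f.K1 = ⟨0, 0, 0⟩ ∧ X.mv f.K2 = ⟨0, 0, 0⟩)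
    (hg : genB r f L l = true) {u : V3} (hu : L.Mem u) (x y : ℝ) :
    u ∈ r.Tw (f.pt ⟨0, 0, 0⟩ x y) := by
  simp only [genB, Bool.and_eq_true, decide_eq_true_eq, List.all_eq_true, Bool.or_eq_true] at hg
  obtain ⟨hl, ⟨⟨⟨⟨⟨⟨e1, e2⟩, e3⟩, e4⟩, e5⟩, e6⟩, e7⟩⟩ := hg
  obtain ⟨⟨k, hk⟩, hE⟩ := hu
  obtain ⟨z, hz, hz'⟩ := bmat_mem hden hK hl x y k
  have hd : (f.den : ℝ) ≠ 0 := by
    have : f.den ≠ 0 := hden.ne'
    exact_mod_cast this
  have hm' : (L.m : ℝ) ≠ 0 := by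
    have : L.m ≠ 0 := hm.ne'
    exact_mod_cast this
  have h1 : ((bmat f.v l).mul L.D).mat *ᵥ u = ((f.den * L.m : ℤ) : ℝ) • z := by
    rw [rf_mul_mat, ← mulVec_mulVec, hk, mulVec_smul, hz', smul_smul]
    push_cast
    rw [mul_comm]
  have h2 : ((bmat f.v l).mul L.D).mat *ᵥ u = ((f.den * L.m : ℤ) : ℝ) • u := by
    generalize (bmat f.v l).mul L.D = M at *
    have h3 : (M.a.z = 0 ∧ M.b.z = 0 ∧ M.c.z = f.den * L.m) ∨ u 2 = 0 := by
      rcases e7 with h | h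
      · exact Or.inl ⟨h.1.1, h.1.2, h.2⟩
      · right
        have h4 := congrFun hE 0
        simpa [IM.mat, h, Matrix.mulVec, dotProduct, Fin.sum_univ_three] using h4
    ext i
    rcases h3 with ⟨e7, e8, e9⟩ | h3
    · fin_cases i <;> simp [IM.mat, Matrix.mulVec, dotProduct, Fin.sum_univ_three, *]
    · fin_cases i <;> simp [IM.mat, Matrix.mulVec, dotProduct, Fin.sum_univ_three, *]
  have h5 : ((f.den * L.m : ℤ) : ℝ) • (u - z) = 0 := by
    rw [smul_sub, ← h1, ← h2, sub_self]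
  rw [smul_eq_zero] at h5
  rcases h5 with h5 | h5
  · push_cast at h5
    exact absurd h5 (mul_ne_zero hd hm')
  · rw [sub_eq_zero] at h5
    rw [h5]
    exact hz

/-- a linear map that commutes with all `X` maps the group of `p` to the group of its image -/
theorem map_mem {r : Row} {F : M3} (hF : ∀ X ∈ r.sch, F * X.mat = X.mat * F) {p u : V3}
    (hu : u ∈ r.Tw p) : F *ᵥ u ∈ r.Tw (F *ᵥ p) := by
  unfold Row.Tw at hu
  induction hu using AddSubgroup.closure_induction with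
  | mem x hx =>
    obtain ⟨X, hX, rfl⟩ := hx
    apply AddSubgroup.subset_closure
    exact ⟨X, hX, by rw [mulVec_mulVec, hF X hX, mulVec_mulVec]⟩
  | zero => rw [mulVec_zero]; exact zero_mem _
  | add x y _ _ hx hy => rw [mulVec_add]; exact add_mem hx hy
  | neg x _ hx => rw [mulVec_neg]; exact neg_mem hx

/-- the parameters are not excluded -/
theorem not_excl {r : Row} {f : Fam} {L : LatE} {l : List (IM × IV)} (hden : 0 < f.den)
    (hm : 0 < L.m) (hK : ∀ X ∈ r.sch, X.mv f.K1 = ⟨0, 0, 0⟩ ∧ X.mv f.K2 = ⟨0, 0, 0⟩)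
    (hl : f.exc = [] ∨ genB r f L l = true) (hf : famOK r f L = true) (he : excOK r f L = true)
    {F : M3} (hF : ∀ X ∈ r.sch, F * X.mat = X.mat * F)
    (hF' : ∀ p ∈ r.nl, F * p.X.mat = p.X.mat * F) {w : V3} {x y : ℝ}
    (hw : w = F *ᵥ f.pt ⟨0, 0, 0⟩ x y) (hst : ∀ p ∈ r.nl, p.X.mat *ᵥ w ∉ r.Tw w) :
    ¬ f.Excl x y := by
  intro hx
  rcases hl with hl | hl
  · obtain ⟨c, hc, -⟩ := hx
    rw [hl] at hc
    exact absurd hc List.not_mem_nil
  · obtain ⟨p, hp, hL⟩ := exc_contra hf he (n := ⟨0, 0, 0⟩) hx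
    have h1 := map_mem hF (gen_mem hden hm hK hl hL x y)
    apply hst p hp
    rw [hw, mulVec_mulVec, ← hF' p hp, ← mulVec_mulVec]
    exact h1

/-- block matrices -/
theorem blk_of {M : IM} (h : blkB M = true) :
    M.a.z = 0 ∧ M.b.z = 0 ∧ M.c.x = 0 ∧ M.c.y = 0 := by
  simp only [blkB, Bool.and_eq_true, decide_eq_true_eq] at h
  exact ⟨h.1.1.1, h.1.1.2, h.1.2, h.2⟩

/-- the maps `diag(α, α, τ)` commute with block matrices -/
theorem diag_comm {M : IM} (h : blkB M = true) (α τ : ℝ) :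
    (!![α, -0, 0; 0, α, 0; 0, 0, τ] : M3) * M.mat = M.mat * !![α, -0, 0; 0, α, 0; 0, 0, τ] := by
  obtain ⟨h1, h2, h3, h4⟩ := blk_of h
  ext i j
  fin_cases i <;> fin_cases j <;>
    simp [IM.mat, Matrix.mul_apply, Fin.sum_univ_three, h1, h2, h3, h4, mul_comm]

/-- if all `X w` have planar part zero then so have all elements of the group -/
theorem planar_zero {r : Row} {w : V3} (h : ∀ X ∈ r.sch, (X.mat *ᵥ w) 0 = 0 ∧ (X.mat *ᵥ w) 1 = 0)
    {u : V3} (hu : u ∈ r.Tw w) : u 0 = 0 ∧ u 1 = 0 := by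
  unfold Row.Tw at hu
  induction hu using AddSubgroup.closure_induction with
  | mem x hx =>
    obtain ⟨X, hX, rfl⟩ := hx
    exact h X hX
  | zero => simp
  | add x y _ _ hx hy => simp [hx.1, hx.2, hy.1, hy.2]
  | neg x _ hx => simp [hx.1, hx.2]

theorem all_zero {r : Row} {w : V3} (h : ∀ X ∈ r.sch, X.mat *ᵥ w = 0) {u : V3}
    (hu : u ∈ r.Tw w) : u = 0 := by
  unfold Row.Tw at hu
  induction hu using AddSubgroup.closure_induction with
  | mem x hx =>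
    obtain ⟨X, hX, rfl⟩ := hx
    exact h X hX
  | zero => rfl
  | add x y _ _ hx hy => rw [hx, hy, add_zero]
  | neg x _ hx => rw [hx, neg_zero]

end Easy

end Pool.Agent.H21.FT
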