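import Pool.Agent.H21.FT.DefsF
import Pool.Agent.H21.FT.FamBase
import Pool.Agent.H38.FT.Items

/-!
# Polyhedra in Euclidean space; the generators given by a block
-/

namespace Pool.Agent.H21.FT

open Matrix
open Pool.Agent.H38.FT (Cfg E3 Triple Adjacent)

/-! ### Polyhedra in Euclidean space -/

/-- The vertices do not lie in a plane. -/
def NotCoplanar (P : Cfg E3) : Prop :=
  ∀ (n : V3) (d : ℝ), n ≠ 0 → ∃ x ∈ P.V, n 0 * x 0 + n 1 * x 1 + n 2 * x 2 ≠ d

/-- Every vertex is isolated. -/
def Isolated (P : Cfg E3) : Prop := ∀ x ∈ P.V, ∃ ε > 0, ∀ y ∈ P.V, dist x y < ε → y = x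

/-- `P` is a polyhedron in Euclidean 3-space: an abstract polyhedron whose set of vertices is
discrete and not contained in a plane. -/
structure IsPoly (P : Cfg E3) : Prop where
  poly : P.IsPolyhedron
  discrete : Isolated P
  space : NotCoplanar P

/-- Some symmetry of `P` maps the flag `A` to the flag `B`. -/
def SameOrbit (P : Cfg E3) (A B : Triple E3) : Prop :=
  ∃ g : E3 ≃ᵢ E3, P.map g = P ∧ g A.1 = B.1 ∧ Sym2.map g A.2.1 = B.2.1 ∧
    Sym2.map g '' A.2.2 = B.2.2

/-- All flags are images of each other under symmetries. -/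
def Regular (P : Cfg E3) : Prop := ∀ A B, P.IsFlag A → P.IsFlag B → SameOrbit P A B

/-- The symmetries have exactly two orbits on the flags, and adjacent flags are in different
orbits. -/
def Chiral (P : Cfg E3) : Prop :=
  (∀ A B, P.IsFlag A → P.IsFlag B → Adjacent A B → ¬ SameOrbit P A B) ∧
  ∀ A B C, P.IsFlag A → P.IsFlag B → P.IsFlag C →
    SameOrbit P A B ∨ SameOrbit P A C ∨ SameOrbit P B C

/-- The number of orbits of the symmetries on the flags. -/
noncomputable def flagOrbits (P : Cfg E3) : ℕ :=
  Nat.card (Quot fun A B : {A : Triple E3 // P.IsFlag A} => SameOrbit P A B)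

/-- The number of orbits on the flags in each of the seven constructions. -/
def Cls.orbits : Cls → ℕ
  | .reg => 1
  | .c2 => 2
  | .c20 => 2
  | .c21 => 2
  | .c22 => 2
  | .c4a => 4
  | .c4b => 4

/-- The item of the list of the finite polyhedra, in Euclidean space. -/
noncomputable def finItem (i : Pool.Agent.H38.FT.Item) : Cfg E3 := i.cfg.map (WithLp.toLp 2)

/-! ### The generators given by a block -/

/-- The block gives the generators `A`, `B`, `s`: `A` and `B` generate the stabiliser `H` of the
block, and `s` is obtained from `t` or `t⁻¹` by multiplication with elements of `H` on both sides,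
where `t` is the affine map with the linear part of the block and with translation part in one of
the families of the block (the integral part of which is not zero). -/
def Block.Gives (b : Block) (A B s : Equiv.Perm V3) : Prop :=
  stab A B = linGrp b.gens ∧ ∃ f ∈ b.fams, ∃ (n : IV) (x y : ℝ), ¬ f.Excl x y ∧
    f.base n ≠ ⟨0, 0, 0⟩ ∧ ∃ t, IsAff t b.S.mat (f.pt n x y) ∧ Link (stab A B) s t

end Pool.Agent.H21.FT
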