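import Pool.Agent.H21.FT.Catalogue
import Pool.Agent.H21.FT.Poly

/-!
# The list of the infinite fully transitive polyhedra
-/

namespace Pool.Agent.H21.FT

open Matrix
open Pool.Agent.H38.FT (Cfg E3)

/-- The block `b` with the single family `f`. -/
def Block.only (b : Block) (f : Fam) : Block := ⟨b.kind, b.gens, b.S, [f]⟩

/-- The generators of a tube: `A` and `B` generate the group of the four matrices
`diag(1, ±1, ±1)`, and `s` is obtained by multiplication with elements of this group on both sides
from `t` or `t⁻¹`, where `t` is the rotation by the angle `θ` about the vertical line through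
`(-1, 0, 0)` followed by the translation by `(0, 0, 1)`; `θ` is a rational multiple of `π`, but no
integer multiple of `π`. -/
def Tube (A B s : Equiv.Perm V3) : Prop :=
  stab A B = linGrp [⟨⟨1, 0, 0⟩, ⟨0, -1, 0⟩, ⟨0, 0, 1⟩⟩, ⟨⟨1, 0, 0⟩, ⟨0, 1, 0⟩, ⟨0, 0, -1⟩⟩] ∧
  ∃ θ : ℝ, (∃ p q : ℤ, 0 < q ∧ θ * q = Real.pi * p) ∧ Real.sin θ ≠ 0 ∧
    ∃ t, IsAff t !![Real.cos θ, -Real.sin θ, 0; Real.sin θ, Real.cos θ, 0; 0, 0, 1]
      ![Real.cos θ - 1, Real.sin θ, 1] ∧ Link (stab A B) s t

/-- A member of the list is given by the construction, the kind and the parameters of the frame and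
the generators. -/
structure Entry where
  cls : Cls
  kind : Kind
  b : ℝ
  c : ℝ
  A : Equiv.Perm V3
  B : Equiv.Perm V3
  s : Equiv.Perm V3

namespace Entry

/-- The frame. -/
noncomputable def F (i : Entry) : M3 := i.kind.frame i.b i.c

/-- The point of Euclidean space with coordinates `x` with respect to the frame. -/
noncomputable def point (i : Entry) (x : V3) : E3 := WithLp.toLp 2 (i.F *ᵥ x)

/-- The polyhedron. -/
noncomputable def cfg (i : Entry) : Cfg E3 := (FT.cfg i.cls i.A i.B i.s 0).map i.point

/-- The conditions. `listed`: the generators are given by a block of the catalogue or are those of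
a tube.
`hb`, `hc`: the parameters of the frame. `rel`, `nondeg`: the relations of the construction, and
the neighbours of the base vertex are distinct (the stabiliser is a finite group of matrices).
`distinct`: the vertices of the base face are distinct. `flat`: the base edge is not vertical.
`full`: no isometry transforms the generators to one of the other triples of generators. -/
structure Valid (i : Entry) : Prop where
  listed : (∃ b ∈ catalogue, b.kind = i.kind ∧ b.Gives i.A i.B i.s) ∨
    (i.kind = .tet ∧ Tube i.A i.B i.s)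
  hb : 0 < i.b ∧ (i.kind = .ort ∨ i.b = 1)
  hc : 0 < i.c ∧ (i.kind ≠ .cub ∨ i.c = 1)
  rel : Rel i.cls i.A i.B i.s 0
  nondeg : Nondeg i.cls i.A i.B i.s 0
  distinct : Distinct i.cls i.A i.B i.s 0
  flat : i.kind = .tet ∨ i.kind = .hex → i.s 0 0 ≠ 0 ∨ i.s 0 1 ≠ 0
  full : Full i.cls i.F i.A i.B i.s

/-- Some linear similarity transforms the generators of `i` to the generators of `j` or to one of
the other triples of generators of `j`. -/
def Equivalent (i j : Entry) : Prop :=
  i.cls = j.cls ∧ ∃ (σ : Equiv.Perm V3) (M : M3) (r : ℝ), 0 < r ∧ IsAff σ M 0 ∧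
    (j.F * M * i.F⁻¹)ᵀ * (j.F * M * i.F⁻¹) = r • (1 : M3) ∧
    cnj3 σ (i.A, i.B, i.s) ∈ (j.A, j.B, j.s) :: others j.cls j.A j.B j.s

end Entry

end Pool.Agent.H21.FT
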