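import Pool.Agent.H21.FT.Poly
import Pool.Agent.H21.FT.DefsG

/-!
# Checks for generators with rational coordinates
-/

namespace Pool.Agent.H21.FT

open Matrix

namespace Ex

/-- The affine map `x ↦ M x + v / d` (the denominator `d` is fixed elsewhere). -/
structure ZA where
  M : IM
  v : IV
  deriving DecidableEq

namespace ZA

/-- The product. -/
def mul (p q : ZA) : ZA := ⟨p.M.mul q.M, (p.M.mv q.v).add p.v⟩

/-- The identity. -/
def one : ZA := ⟨IM.one, ⟨0, 0, 0⟩⟩

/-- The linear map `M`. -/
def lin (M : IM) : ZA := ⟨M, ⟨0, 0, 0⟩⟩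

/-- The image of `v / d`, multiplied by `d`. -/
def ap (p : ZA) (v : IV) : IV := (p.M.mv v).add p.v

/-- The powers. -/
def pow (p : ZA) : ℕ → ZA
  | 0 => one
  | n + 1 => mul p (pow p n)

end ZA

/-- The vector product. -/
def cross (u v : IV) : IV :=
  ⟨u.y * v.z - u.z * v.y, u.z * v.x - u.x * v.z, u.x * v.y - u.y * v.x⟩

/-- The inverse of a matrix with determinant `1` or `-1`. -/
def invM (M : IM) : IM :=
  let p := cross M.b M.c
  let q := cross M.c M.a
  let r := cross M.a M.b
  let e := M.a.dot p
  ⟨⟨e * p.x, e * q.x, e * r.x⟩, ⟨e * p.y, e * q.y, e * r.y⟩, ⟨e * p.z, e * q.z, e * r.z⟩⟩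

/-- The inverse. -/
def ZA.inv (p : ZA) : ZA := ⟨invM p.M, ((invM p.M).mv p.v).neg⟩

/-- An example: the construction, the kind and the parameters of the frame, the denominator `d`,
the generators, the elements of the stabiliser of the base vertex, and for each of the other triples
of generators a word (a list of letters `0` to `5` for `A`, `A⁻¹`, `B`, `B⁻¹`, `s`, `s⁻¹`). -/
structure Data where
  cls : Cls
  kind : Kind
  b : ℕ
  c : ℕ
  d : ℤ
  A : IM
  B : IM
  s : ZA
  hl : List IM
  words : List (List ℕ)

/-- The squared length of a vector with respect to the frame. -/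
def q (k : Kind) (b c : ℤ) (u : IV) : ℤ :=
  match k with
  | .cub => u.x * u.x + u.y * u.y + u.z * u.z
  | .tet => u.x * u.x + u.y * u.y + c * c * (u.z * u.z)
  | .hex => u.x * u.x - u.x * u.y + u.y * u.y + c * c * (u.z * u.z)
  | .ort => u.x * u.x + b * b * (u.y * u.y) + c * c * (u.z * u.z)

/-- The letter of the word, for the triple `T`. -/
def letter (T : ZA × ZA × ZA) : ℕ → ZA
  | 0 => T.1
  | 1 => T.1.inv
  | 2 => T.2.1
  | 3 => T.2.1.inv
  | 4 => T.2.2
  | _ => T.2.2.inv

/-- The product of the letters of the word. -/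
def word (T : ZA × ZA × ZA) : List ℕ → ZA
  | [] => ZA.one
  | l :: w => (letter T l).mul (word T w)

/-- The other triples of generators. -/
def oth (c : Cls) (A B s : ZA) : List (ZA × ZA × ZA) :=
  match c with
  | .reg => []
  | .c2 => [(A.inv, B, s)]
  | .c20 => [(A.inv, B, s)]
  | .c21 => [(B, A, s)]
  | .c22 => [(B, A, s.inv)]
  | .c4a => [(A.inv, B, s.mul A), (A, B, s.inv.mul A.inv), (A.inv, B, s.inv)]
  | .c4b => [(B, A, s.inv)]

/-- The relations. -/
def relOK (c : Cls) (A B s : ZA) : Bool :=
  let i := ZA.one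
  match c with
  | .reg => decide (A.mul A = i) && decide (B.mul B = i) && decide (s.mul s = i) &&
      decide (s.mul B = B.mul s)
  | .c2 => decide (B = i) && decide (s.mul s = i)
  | .c20 => decide (B = i) && decide (s.mul s = i)
  | .c21 => decide (A.mul A = i) && decide (B.mul B = i) && decide (s.mul s = i)
  | .c22 => decide (A.mul A = i) && decide (A.ap s.v = s.v) && decide (B = (s.inv.mul A).mul s)
  | .c4a => decide (B = i)
  | .c4b => decide (A.mul A = i) && decide (B.mul B = i)

/-- Only the identity of the stabiliser fixes `u`. -/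
def freeOK (hl : List IM) (u : IV) : Bool := hl.all fun g => decide (g = IM.one) || decide (g.mv u ≠ u)

/-- No element of the stabiliser maps `u` to `v`. -/
def apartOK (hl : List IM) (u v : IV) : Bool := hl.all fun g => decide (g.mv u ≠ v)

/-- The neighbours of the base vertex are as distinct as required. -/
def ndOK (c : Cls) (hl : List IM) (A B s : ZA) : Bool :=
  let i := ZA.one
  let u := s.v
  let v := s.inv.v
  decide (u ≠ ⟨0, 0, 0⟩) &&
  match c with
  | .reg => (hl.all fun g => decide (g = IM.one) || decide (g = B.M) || decide (g.mv u ≠ u)) &&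
      decide (A.ap u ≠ u) && decide (B.ap (A.ap u) ≠ A.ap u)
  | .c2 => freeOK hl u && decide (A ≠ i) && decide (A.mul A ≠ i)
  | .c20 => freeOK hl u && decide (A ≠ i) && decide (A.mul A ≠ i)
  | .c21 => freeOK hl u && decide (A ≠ i) && decide (B ≠ i) && decide (A ≠ B)
  | .c22 => (hl.all fun g => decide (g = IM.one) || decide (g = A.M) || decide (g.mv u ≠ u)) &&
      decide (A.ap v ≠ v) && apartOK hl u v
  | .c4a => freeOK hl u && decide (A ≠ i) && apartOK hl u v
  | .c4b => freeOK hl u && decide (A ≠ i) && decide (B ≠ i) && apartOK hl u v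

/-- The rotation of the base face. -/
def rot (c : Cls) (A B s : ZA) : ZA :=
  match c with
  | .c20 => ((A.mul s).mul A.inv).mul s
  | .c21 => ((s.mul B).mul s.inv).mul A
  | .c4a => (s.mul A).mul s
  | .c4b => ((((s.mul s).mul B).mul s.inv).mul s.inv).mul A
  | _ => ZA.one

/-- Representatives of the vertices of the base face, multiplied by `d`. -/
def reps (c : Cls) (A s : ZA) : List IV :=
  match c with
  | .c20 => [⟨0, 0, 0⟩, s.v]
  | .c21 => [⟨0, 0, 0⟩, s.v]
  | .c4a => [⟨0, 0, 0⟩, s.v]
  | .c4b => [A.ap s.v, ⟨0, 0, 0⟩, s.v, s.ap s.v]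
  | _ => []

/-- `y` is no integer multiple of `t`. -/
def noMult (t y : IV) : Bool := decide (y ≠ t.smul (t.dot y / t.dot t))

/-- The check of `Distinct`: the twelfth power of the rotation is a translation. -/
def distOK (c : Cls) (A B s : ZA) : Bool :=
  let r := rot c A B s
  let R := reps c A s
  let t := (r.pow 12).v
  R.Nodup && decide ((r.pow 12).M = IM.one) &&
  if t = ⟨0, 0, 0⟩ then
    (List.range 12).all fun j => decide (r.pow j = ZA.one) ||
      R.all fun v => R.all fun w => decide ((r.pow j).ap v ≠ w)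
  else
    (List.range 12).all fun j => R.all fun v => R.all fun w =>
      (decide (j = 0) && decide (v = w)) || noMult t (w.sub ((r.pow j).ap v))

/-- No isometry transforms the generators to one of the other triples. -/
def fullOK (e : Data) : Bool :=
  let T : ZA × ZA × ZA := (ZA.lin e.A, ZA.lin e.B, e.s)
  let O := oth e.cls (ZA.lin e.A) (ZA.lin e.B) e.s
  decide (O.length = e.words.length) &&
  (O.zip e.words).all fun x =>
    decide (q e.kind e.b e.c (word T x.2).v ≠ q e.kind e.b e.c (word x.1 x.2).v)

/-- The check. -/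
def ok (e : Data) : Bool :=
  let A := ZA.lin e.A
  let B := ZA.lin e.B
  let s := e.s
  decide (0 < e.b) && decide (0 < e.c) && decide (0 < e.d) &&
  decide (e.A.mul (invM e.A) = IM.one) && decide ((invM e.A).mul e.A = IM.one) &&
  decide (e.B.mul (invM e.B) = IM.one) && decide ((invM e.B).mul e.B = IM.one) &&
  decide (s.M.mul (invM s.M) = IM.one) && decide ((invM s.M).mul s.M = IM.one) &&
  decide (IM.one ∈ e.hl) && e.hl.all (fun M => decide (e.A.mul M ∈ e.hl) &&
    decide ((invM e.A).mul M ∈ e.hl) && decide (e.B.mul M ∈ e.hl) &&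
    decide ((invM e.B).mul M ∈ e.hl)) &&
  relOK e.cls A B s && ndOK e.cls e.hl A B s && distOK e.cls A B s &&
  (decide (e.kind = .cub) || decide (e.kind = .ort) || decide (s.v.x ≠ 0) ||
    decide (s.v.y ≠ 0)) &&
  fullOK e

/-- How the generators are obtained from a block: the position of the family, the integers `n`, the
parameters `x / d`, `y / d`, the matrices `h`, `h'` and whether `t⁻¹` is used. -/
structure Pos where
  fam : ℕ
  n : IV
  x : ℤ
  y : ℤ
  h : IM
  h' : IM
  inv : Bool

/-- The parameters are not excluded. -/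
def exclOK (f : Fam) (d x y : ℤ) : Bool :=
  f.exc.all fun it => it.any fun g => !decide (g.d * d ∣ g.al * x + g.be * y + g.ga * d)

/-- The block gives the generators. -/
def givesOK (e : Data) (p : Pos) (b : Block) : Bool :=
  decide (b.kind = e.kind) &&
  decide (e.A ∈ elts b.gens) && decide (e.B ∈ elts b.gens) &&
  b.gens.all (fun g => decide (g ∈ elts [e.A, e.B])) &&
  decide (p.h ∈ elts b.gens) && decide (p.h' ∈ elts b.gens) &&
  decide (b.S.mul (invM b.S) = IM.one) && decide ((invM b.S).mul b.S = IM.one) &&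
  match b.fams[p.fam]? with
  | none => false
  | some f =>
    let t : ZA := ⟨b.S, (((f.base p.n).smul (e.d / f.den)).add (f.K1.smul p.x)).add
      (f.K2.smul p.y)⟩
    decide (0 < f.den) && decide (f.den ∣ e.d) && decide (f.base p.n ≠ ⟨0, 0, 0⟩) &&
    exclOK f e.d p.x p.y &&
    decide (e.s = ((ZA.lin p.h).mul (bif p.inv then t.inv else t)).mul (ZA.lin p.h'))

end Ex

end Pool.Agent.H21.FT
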