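import Pool.Agent.H21.FT.ExDefs

/-!
# Examples: one for each family of each block
-/

namespace Pool.Agent.H21.FT.Ex

/-- One example for each family of each cubic block. -/
def cubFamEx : List (Data × Pos) :=
  [
    (⟨.c4b, .cub, 1, 1, 2, ⟨⟨-1, 0, 0⟩, ⟨0, -1, 0⟩, ⟨0, 0, 1⟩⟩, ⟨⟨-1, 0, 0⟩, ⟨0, -1, 0⟩, ⟨0, 0, 1⟩⟩, ⟨⟨⟨0, 0, 1⟩, ⟨1, 0, 0⟩, ⟨0, 1, 0⟩⟩, ⟨0, -1, -1⟩⟩,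
      [⟨⟨-1, 0, 0⟩, ⟨0, -1, 0⟩, ⟨0, 0, 1⟩⟩, ⟨⟨1, 0, 0⟩, ⟨0, 1, 0⟩, ⟨0, 0, 1⟩⟩],
      [[5, 0, 4]]⟩,
     ⟨0, ⟨0, 0, 0⟩, 0, 0, ⟨⟨1, 0, 0⟩, ⟨0, 1, 0⟩, ⟨0, 0, 1⟩⟩, ⟨⟨1, 0, 0⟩, ⟨0, 1, 0⟩, ⟨0, 0, 1⟩⟩, true⟩),
    (⟨.c4b, .cub, 1, 1, 2, ⟨⟨-1, 0, 0⟩, ⟨0, -1, 0⟩, ⟨0, 0, 1⟩⟩, ⟨⟨-1, 0, 0⟩, ⟨0, -1, 0⟩, ⟨0, 0, 1⟩⟩, ⟨⟨⟨0, 0, 1⟩, ⟨1, 0, 0⟩, ⟨0, 1, 0⟩⟩, ⟨0, -1, -3⟩⟩,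
      [⟨⟨-1, 0, 0⟩, ⟨0, -1, 0⟩, ⟨0, 0, 1⟩⟩, ⟨⟨1, 0, 0⟩, ⟨0, 1, 0⟩, ⟨0, 0, 1⟩⟩],
      [[5, 0, 4]]⟩,
     ⟨0, ⟨0, 0, 0⟩, 0, 0, ⟨⟨1, 0, 0⟩, ⟨0, 1, 0⟩, ⟨0, 0, 1⟩⟩, ⟨⟨1, 0, 0⟩, ⟨0, 1, 0⟩, ⟨0, 0, 1⟩⟩, true⟩),
    (⟨.c4b, .cub, 1, 1, 2, ⟨⟨-1, 0, 0⟩, ⟨0, -1, 0⟩, ⟨0, 0, 1⟩⟩, ⟨⟨-1, 0, 0⟩, ⟨0, -1, 0⟩, ⟨0, 0, 1⟩⟩, ⟨⟨⟨0, 0, 1⟩, ⟨-1, 0, 0⟩, ⟨0, -1, 0⟩⟩, ⟨-3, -2, -1⟩⟩,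
      [⟨⟨-1, 0, 0⟩, ⟨0, -1, 0⟩, ⟨0, 0, 1⟩⟩, ⟨⟨1, 0, 0⟩, ⟨0, 1, 0⟩, ⟨0, 0, 1⟩⟩],
      [[5, 0, 4]]⟩,
     ⟨0, ⟨1, 0, 0⟩, 1, 0, ⟨⟨1, 0, 0⟩, ⟨0, 1, 0⟩, ⟨0, 0, 1⟩⟩, ⟨⟨-1, 0, 0⟩, ⟨0, -1, 0⟩, ⟨0, 0, 1⟩⟩, true⟩),
    (⟨.c4b, .cub, 1, 1, 3, ⟨⟨-1, 0, 0⟩, ⟨0, -1, 0⟩, ⟨0, 0, 1⟩⟩, ⟨⟨-1, 0, 0⟩, ⟨0, -1, 0⟩, ⟨0, 0, 1⟩⟩, ⟨⟨⟨0, 0, 1⟩, ⟨-1, 0, 0⟩, ⟨0, -1, 0⟩⟩, ⟨-1, 0, -2⟩⟩,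
      [⟨⟨-1, 0, 0⟩, ⟨0, -1, 0⟩, ⟨0, 0, 1⟩⟩, ⟨⟨1, 0, 0⟩, ⟨0, 1, 0⟩, ⟨0, 0, 1⟩⟩],
      [[5, 0, 4]]⟩,
     ⟨0, ⟨0, 0, 0⟩, 1, 0, ⟨⟨1, 0, 0⟩, ⟨0, 1, 0⟩, ⟨0, 0, 1⟩⟩, ⟨⟨-1, 0, 0⟩, ⟨0, -1, 0⟩, ⟨0, 0, 1⟩⟩, true⟩),
    (⟨.c4b, .cub, 1, 1, 6, ⟨⟨-1, 0, 0⟩, ⟨0, -1, 0⟩, ⟨0, 0, 1⟩⟩, ⟨⟨-1, 0, 0⟩, ⟨0, -1, 0⟩, ⟨0, 0, 1⟩⟩, ⟨⟨⟨0, 1, 0⟩, ⟨0, 0, 1⟩, ⟨-1, 0, 0⟩⟩, ⟨0, 1, 2⟩⟩,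
      [⟨⟨-1, 0, 0⟩, ⟨0, -1, 0⟩, ⟨0, 0, 1⟩⟩, ⟨⟨1, 0, 0⟩, ⟨0, 1, 0⟩, ⟨0, 0, 1⟩⟩],
      [[5, 0, 4]]⟩,
     ⟨0, ⟨0, 0, 0⟩, 2, 0, ⟨⟨1, 0, 0⟩, ⟨0, 1, 0⟩, ⟨0, 0, 1⟩⟩, ⟨⟨1, 0, 0⟩, ⟨0, 1, 0⟩, ⟨0, 0, 1⟩⟩, false⟩),
    (⟨.c4b, .cub, 1, 1, 2, ⟨⟨-1, 0, 0⟩, ⟨0, -1, 0⟩, ⟨0, 0, 1⟩⟩, ⟨⟨-1, 0, 0⟩, ⟨0, -1, 0⟩, ⟨0, 0, 1⟩⟩, ⟨⟨⟨0, 0, -1⟩, ⟨-1, 0, 0⟩, ⟨0, -1, 0⟩⟩, ⟨0, -3, -2⟩⟩,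
      [⟨⟨-1, 0, 0⟩, ⟨0, -1, 0⟩, ⟨0, 0, 1⟩⟩, ⟨⟨1, 0, 0⟩, ⟨0, 1, 0⟩, ⟨0, 0, 1⟩⟩],
      [[5, 0, 4]]⟩,
     ⟨0, ⟨1, 0, 0⟩, 0, 0, ⟨⟨1, 0, 0⟩, ⟨0, 1, 0⟩, ⟨0, 0, 1⟩⟩, ⟨⟨-1, 0, 0⟩, ⟨0, -1, 0⟩, ⟨0, 0, 1⟩⟩, true⟩),
    (⟨.c4b, .cub, 1, 1, 2, ⟨⟨-1, 0, 0⟩, ⟨0, -1, 0⟩, ⟨0, 0, 1⟩⟩, ⟨⟨-1, 0, 0⟩, ⟨0, -1, 0⟩, ⟨0, 0, 1⟩⟩, ⟨⟨⟨0, -1, 0⟩, ⟨0, 0, 1⟩, ⟨1, 0, 0⟩⟩, ⟨1, 2, 0⟩⟩,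
      [⟨⟨-1, 0, 0⟩, ⟨0, -1, 0⟩, ⟨0, 0, 1⟩⟩, ⟨⟨1, 0, 0⟩, ⟨0, 1, 0⟩, ⟨0, 0, 1⟩⟩],
      [[5, 0, 4]]⟩,
     ⟨0, ⟨0, 0, 0⟩, 0, 0, ⟨⟨1, 0, 0⟩, ⟨0, 1, 0⟩, ⟨0, 0, 1⟩⟩, ⟨⟨-1, 0, 0⟩, ⟨0, -1, 0⟩, ⟨0, 0, 1⟩⟩, false⟩),
    (⟨.c4b, .cub, 1, 1, 2, ⟨⟨-1, 0, 0⟩, ⟨0, -1, 0⟩, ⟨0, 0, 1⟩⟩, ⟨⟨-1, 0, 0⟩, ⟨0, -1, 0⟩, ⟨0, 0, 1⟩⟩, ⟨⟨⟨0, 0, -1⟩, ⟨1, 0, 0⟩, ⟨0, 1, 0⟩⟩, ⟨0, -1, -1⟩⟩,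
      [⟨⟨-1, 0, 0⟩, ⟨0, -1, 0⟩, ⟨0, 0, 1⟩⟩, ⟨⟨1, 0, 0⟩, ⟨0, 1, 0⟩, ⟨0, 0, 1⟩⟩],
      [[5, 0, 4]]⟩,
     ⟨0, ⟨0, 0, 0⟩, 0, 0, ⟨⟨1, 0, 0⟩, ⟨0, 1, 0⟩, ⟨0, 0, 1⟩⟩, ⟨⟨1, 0, 0⟩, ⟨0, 1, 0⟩, ⟨0, 0, 1⟩⟩, true⟩),
    (⟨.c4b, .cub, 1, 1, 2, ⟨⟨-1, 0, 0⟩, ⟨0, -1, 0⟩, ⟨0, 0, 1⟩⟩, ⟨⟨-1, 0, 0⟩, ⟨0, -1, 0⟩, ⟨0, 0, 1⟩⟩, ⟨⟨⟨0, -1, 0⟩, ⟨0, 0, 1⟩, ⟨1, 0, 0⟩⟩, ⟨1, 3, 0⟩⟩,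
      [⟨⟨-1, 0, 0⟩, ⟨0, -1, 0⟩, ⟨0, 0, 1⟩⟩, ⟨⟨1, 0, 0⟩, ⟨0, 1, 0⟩, ⟨0, 0, 1⟩⟩],
      [[5, 0, 4]]⟩,
     ⟨0, ⟨0, 0, 0⟩, 0, 0, ⟨⟨1, 0, 0⟩, ⟨0, 1, 0⟩, ⟨0, 0, 1⟩⟩, ⟨⟨-1, 0, 0⟩, ⟨0, -1, 0⟩, ⟨0, 0, 1⟩⟩, false⟩),
    (⟨.c4b, .cub, 1, 1, 6, ⟨⟨-1, 0, 0⟩, ⟨0, 0, -1⟩, ⟨0, -1, 0⟩⟩, ⟨⟨-1, 0, 0⟩, ⟨0, 0, -1⟩, ⟨0, -1, 0⟩⟩, ⟨⟨⟨0, 0, -1⟩, ⟨0, -1, 0⟩, ⟨1, 0, 0⟩⟩, ⟨8, -1, 2⟩⟩,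
      [⟨⟨-1, 0, 0⟩, ⟨0, 0, -1⟩, ⟨0, -1, 0⟩⟩, ⟨⟨1, 0, 0⟩, ⟨0, 1, 0⟩, ⟨0, 0, 1⟩⟩],
      [[5, 0, 4]]⟩,
     ⟨0, ⟨1, 0, 0⟩, 2, 0, ⟨⟨1, 0, 0⟩, ⟨0, 1, 0⟩, ⟨0, 0, 1⟩⟩, ⟨⟨-1, 0, 0⟩, ⟨0, 0, -1⟩, ⟨0, -1, 0⟩⟩, false⟩),
    (⟨.c4b, .cub, 1, 1, 6, ⟨⟨-1, 0, 0⟩, ⟨0, 0, -1⟩, ⟨0, -1, 0⟩⟩, ⟨⟨-1, 0, 0⟩, ⟨0, 0, -1⟩, ⟨0, -1, 0⟩⟩, ⟨⟨⟨0, 0, -1⟩, ⟨1, 0, 0⟩, ⟨0, 1, 0⟩⟩, ⟨2, -5, 1⟩⟩,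
      [⟨⟨-1, 0, 0⟩, ⟨0, 0, -1⟩, ⟨0, -1, 0⟩⟩, ⟨⟨1, 0, 0⟩, ⟨0, 1, 0⟩, ⟨0, 0, 1⟩⟩],
      [[5, 0, 4]]⟩,
     ⟨0, ⟨0, 0, 0⟩, 2, 0, ⟨⟨1, 0, 0⟩, ⟨0, 1, 0⟩, ⟨0, 0, 1⟩⟩, ⟨⟨1, 0, 0⟩, ⟨0, 1, 0⟩, ⟨0, 0, 1⟩⟩, true⟩),
    (⟨.c4b, .cub, 1, 1, 6, ⟨⟨-1, 0, 0⟩, ⟨0, 0, -1⟩, ⟨0, -1, 0⟩⟩, ⟨⟨-1, 0, 0⟩, ⟨0, 0, -1⟩, ⟨0, -1, 0⟩⟩, ⟨⟨⟨0, 0, -1⟩, ⟨0, -1, 0⟩, ⟨1, 0, 0⟩⟩, ⟨5, 5, 2⟩⟩,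
      [⟨⟨-1, 0, 0⟩, ⟨0, 0, -1⟩, ⟨0, -1, 0⟩⟩, ⟨⟨1, 0, 0⟩, ⟨0, 1, 0⟩, ⟨0, 0, 1⟩⟩],
      [[5, 0, 4]]⟩,
     ⟨0, ⟨0, 0, 0⟩, 2, 0, ⟨⟨1, 0, 0⟩, ⟨0, 1, 0⟩, ⟨0, 0, 1⟩⟩, ⟨⟨-1, 0, 0⟩, ⟨0, 0, -1⟩, ⟨0, -1, 0⟩⟩, false⟩),
    (⟨.c4b, .cub, 1, 1, 2, ⟨⟨-1, 0, 0⟩, ⟨0, 0, -1⟩, ⟨0, -1, 0⟩⟩, ⟨⟨-1, 0, 0⟩, ⟨0, 0, -1⟩, ⟨0, -1, 0⟩⟩, ⟨⟨⟨0, 1, 0⟩, ⟨0, 0, 1⟩, ⟨-1, 0, 0⟩⟩, ⟨1, 0, 0⟩⟩,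
      [⟨⟨-1, 0, 0⟩, ⟨0, 0, -1⟩, ⟨0, -1, 0⟩⟩, ⟨⟨1, 0, 0⟩, ⟨0, 1, 0⟩, ⟨0, 0, 1⟩⟩],
      [[5, 0, 4]]⟩,
     ⟨0, ⟨0, 0, 0⟩, 0, 0, ⟨⟨1, 0, 0⟩, ⟨0, 1, 0⟩, ⟨0, 0, 1⟩⟩, ⟨⟨1, 0, 0⟩, ⟨0, 1, 0⟩, ⟨0, 0, 1⟩⟩, false⟩),
    (⟨.c4b, .cub, 1, 1, 2, ⟨⟨-1, 0, 0⟩, ⟨0, 0, -1⟩, ⟨0, -1, 0⟩⟩, ⟨⟨-1, 0, 0⟩, ⟨0, 0, -1⟩, ⟨0, -1, 0⟩⟩, ⟨⟨⟨0, 0, -1⟩, ⟨1, 0, 0⟩, ⟨0, 1, 0⟩⟩, ⟨0, -3, 0⟩⟩,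
      [⟨⟨-1, 0, 0⟩, ⟨0, 0, -1⟩, ⟨0, -1, 0⟩⟩, ⟨⟨1, 0, 0⟩, ⟨0, 1, 0⟩, ⟨0, 0, 1⟩⟩],
      [[5, 0, 4]]⟩,
     ⟨0, ⟨0, 0, 0⟩, 0, 0, ⟨⟨1, 0, 0⟩, ⟨0, 1, 0⟩, ⟨0, 0, 1⟩⟩, ⟨⟨1, 0, 0⟩, ⟨0, 1, 0⟩, ⟨0, 0, 1⟩⟩, true⟩),
    (⟨.c4b, .cub, 1, 1, 4, ⟨⟨-1, 0, 0⟩, ⟨0, 0, -1⟩, ⟨0, -1, 0⟩⟩, ⟨⟨-1, 0, 0⟩, ⟨0, 0, -1⟩, ⟨0, -1, 0⟩⟩, ⟨⟨⟨0, 0, -1⟩, ⟨1, 0, 0⟩, ⟨0, -1, 0⟩⟩, ⟨0, -3, 1⟩⟩,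
      [⟨⟨-1, 0, 0⟩, ⟨0, 0, -1⟩, ⟨0, -1, 0⟩⟩, ⟨⟨1, 0, 0⟩, ⟨0, 1, 0⟩, ⟨0, 0, 1⟩⟩],
      [[5, 0, 4]]⟩,
     ⟨0, ⟨0, 0, 0⟩, 0, 0, ⟨⟨1, 0, 0⟩, ⟨0, 1, 0⟩, ⟨0, 0, 1⟩⟩, ⟨⟨1, 0, 0⟩, ⟨0, 1, 0⟩, ⟨0, 0, 1⟩⟩, true⟩),
    (⟨.c4b, .cub, 1, 1, 4, ⟨⟨-1, 0, 0⟩, ⟨0, 0, -1⟩, ⟨0, -1, 0⟩⟩, ⟨⟨-1, 0, 0⟩, ⟨0, 0, -1⟩, ⟨0, -1, 0⟩⟩, ⟨⟨⟨0, 0, -1⟩, ⟨1, 0, 0⟩, ⟨0, -1, 0⟩⟩, ⟨0, -1, 3⟩⟩,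
      [⟨⟨-1, 0, 0⟩, ⟨0, 0, -1⟩, ⟨0, -1, 0⟩⟩, ⟨⟨1, 0, 0⟩, ⟨0, 1, 0⟩, ⟨0, 0, 1⟩⟩],
      [[5, 0, 4]]⟩,
     ⟨0, ⟨0, 0, 0⟩, 0, 0, ⟨⟨1, 0, 0⟩, ⟨0, 1, 0⟩, ⟨0, 0, 1⟩⟩, ⟨⟨1, 0, 0⟩, ⟨0, 1, 0⟩, ⟨0, 0, 1⟩⟩, true⟩),
    (⟨.c4b, .cub, 1, 1, 3, ⟨⟨-1, 0, 0⟩, ⟨0, 0, -1⟩, ⟨0, -1, 0⟩⟩, ⟨⟨-1, 0, 0⟩, ⟨0, 0, -1⟩, ⟨0, -1, 0⟩⟩, ⟨⟨⟨0, 1, 0⟩, ⟨-1, 0, 0⟩, ⟨0, 0, 1⟩⟩, ⟨1, -4, 0⟩⟩,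
      [⟨⟨-1, 0, 0⟩, ⟨0, 0, -1⟩, ⟨0, -1, 0⟩⟩, ⟨⟨1, 0, 0⟩, ⟨0, 1, 0⟩, ⟨0, 0, 1⟩⟩],
      [[5, 0, 4]]⟩,
     ⟨0, ⟨0, 0, 0⟩, 1, 0, ⟨⟨1, 0, 0⟩, ⟨0, 1, 0⟩, ⟨0, 0, 1⟩⟩, ⟨⟨-1, 0, 0⟩, ⟨0, 0, -1⟩, ⟨0, -1, 0⟩⟩, true⟩),
    (⟨.c4b, .cub, 1, 1, 2, ⟨⟨-1, 0, 0⟩, ⟨0, 0, -1⟩, ⟨0, -1, 0⟩⟩, ⟨⟨-1, 0, 0⟩, ⟨0, 0, -1⟩, ⟨0, -1, 0⟩⟩, ⟨⟨⟨0, 0, -1⟩, ⟨1, 0, 0⟩, ⟨0, -1, 0⟩⟩, ⟨1, -2, 1⟩⟩,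
      [⟨⟨-1, 0, 0⟩, ⟨0, 0, -1⟩, ⟨0, -1, 0⟩⟩, ⟨⟨1, 0, 0⟩, ⟨0, 1, 0⟩, ⟨0, 0, 1⟩⟩],
      [[5, 0, 4]]⟩,
     ⟨0, ⟨0, 0, 0⟩, 1, 0, ⟨⟨1, 0, 0⟩, ⟨0, 1, 0⟩, ⟨0, 0, 1⟩⟩, ⟨⟨1, 0, 0⟩, ⟨0, 1, 0⟩, ⟨0, 0, 1⟩⟩, true⟩),
    (⟨.c4b, .cub, 1, 1, 2, ⟨⟨-1, 0, 0⟩, ⟨0, 0, -1⟩, ⟨0, -1, 0⟩⟩, ⟨⟨-1, 0, 0⟩, ⟨0, 0, -1⟩, ⟨0, -1, 0⟩⟩, ⟨⟨⟨0, 1, 0⟩, ⟨-1, 0, 0⟩, ⟨0, 0, 1⟩⟩, ⟨3, -3, 2⟩⟩,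
      [⟨⟨-1, 0, 0⟩, ⟨0, 0, -1⟩, ⟨0, -1, 0⟩⟩, ⟨⟨1, 0, 0⟩, ⟨0, 1, 0⟩, ⟨0, 0, 1⟩⟩],
      [[5, 0, 4]]⟩,
     ⟨0, ⟨1, 0, 0⟩, 1, 0, ⟨⟨1, 0, 0⟩, ⟨0, 1, 0⟩, ⟨0, 0, 1⟩⟩, ⟨⟨-1, 0, 0⟩, ⟨0, 0, -1⟩, ⟨0, -1, 0⟩⟩, true⟩),
    (⟨.c4b, .cub, 1, 1, 2, ⟨⟨-1, 0, 0⟩, ⟨0, 0, -1⟩, ⟨0, -1, 0⟩⟩, ⟨⟨-1, 0, 0⟩, ⟨0, 0, -1⟩, ⟨0, -1, 0⟩⟩, ⟨⟨⟨0, 0, -1⟩, ⟨1, 0, 0⟩, ⟨0, -1, 0⟩⟩, ⟨0, -3, 1⟩⟩,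
      [⟨⟨-1, 0, 0⟩, ⟨0, 0, -1⟩, ⟨0, -1, 0⟩⟩, ⟨⟨1, 0, 0⟩, ⟨0, 1, 0⟩, ⟨0, 0, 1⟩⟩],
      [[5, 0, 4]]⟩,
     ⟨0, ⟨0, 0, 0⟩, 0, 0, ⟨⟨1, 0, 0⟩, ⟨0, 1, 0⟩, ⟨0, 0, 1⟩⟩, ⟨⟨1, 0, 0⟩, ⟨0, 1, 0⟩, ⟨0, 0, 1⟩⟩, true⟩),
    (⟨.c4b, .cub, 1, 1, 3, ⟨⟨-1, 0, 0⟩, ⟨0, 1, 0⟩, ⟨0, 0, 1⟩⟩, ⟨⟨-1, 0, 0⟩, ⟨0, 1, 0⟩, ⟨0, 0, 1⟩⟩, ⟨⟨⟨0, 0, 1⟩, ⟨1, 0, 0⟩, ⟨0, 1, 0⟩⟩, ⟨-1, -2, 0⟩⟩,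
      [⟨⟨-1, 0, 0⟩, ⟨0, 1, 0⟩, ⟨0, 0, 1⟩⟩, ⟨⟨1, 0, 0⟩, ⟨0, 1, 0⟩, ⟨0, 0, 1⟩⟩],
      [[5, 0, 4]]⟩,
     ⟨0, ⟨0, 0, 0⟩, 0, 1, ⟨⟨1, 0, 0⟩, ⟨0, 1, 0⟩, ⟨0, 0, 1⟩⟩, ⟨⟨1, 0, 0⟩, ⟨0, 1, 0⟩, ⟨0, 0, 1⟩⟩, true⟩),
    (⟨.c4b, .cub, 1, 1, 6, ⟨⟨0, -1, 0⟩, ⟨-1, 0, 0⟩, ⟨0, 0, 1⟩⟩, ⟨⟨0, -1, 0⟩, ⟨-1, 0, 0⟩, ⟨0, 0, 1⟩⟩, ⟨⟨⟨1, 0, 0⟩, ⟨0, 0, -1⟩, ⟨0, 1, 0⟩⟩, ⟨-3, 2, 0⟩⟩,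
      [⟨⟨0, -1, 0⟩, ⟨-1, 0, 0⟩, ⟨0, 0, 1⟩⟩, ⟨⟨1, 0, 0⟩, ⟨0, 1, 0⟩, ⟨0, 0, 1⟩⟩],
      [[5, 0, 4]]⟩,
     ⟨0, ⟨0, 0, 0⟩, 0, 2, ⟨⟨1, 0, 0⟩, ⟨0, 1, 0⟩, ⟨0, 0, 1⟩⟩, ⟨⟨1, 0, 0⟩, ⟨0, 1, 0⟩, ⟨0, 0, 1⟩⟩, true⟩),
    (⟨.c4b, .cub, 1, 1, 2, ⟨⟨0, -1, 0⟩, ⟨-1, 0, 0⟩, ⟨0, 0, 1⟩⟩, ⟨⟨0, -1, 0⟩, ⟨-1, 0, 0⟩, ⟨0, 0, 1⟩⟩, ⟨⟨⟨0, 0, 1⟩, ⟨1, 0, 0⟩, ⟨0, 1, 0⟩⟩, ⟨-1, -1, 0⟩⟩,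
      [⟨⟨0, -1, 0⟩, ⟨-1, 0, 0⟩, ⟨0, 0, 1⟩⟩, ⟨⟨1, 0, 0⟩, ⟨0, 1, 0⟩, ⟨0, 0, 1⟩⟩],
      [[5, 0, 4]]⟩,
     ⟨0, ⟨0, 0, 0⟩, 0, 1, ⟨⟨1, 0, 0⟩, ⟨0, 1, 0⟩, ⟨0, 0, 1⟩⟩, ⟨⟨1, 0, 0⟩, ⟨0, 1, 0⟩, ⟨0, 0, 1⟩⟩, true⟩),
    (⟨.c4a, .cub, 1, 1, 2, ⟨⟨0, -1, 0⟩, ⟨0, 0, 1⟩, ⟨-1, 0, 0⟩⟩, ⟨⟨1, 0, 0⟩, ⟨0, 1, 0⟩, ⟨0, 0, 1⟩⟩, ⟨⟨⟨0, 0, 1⟩, ⟨-1, 0, 0⟩, ⟨0, 1, 0⟩⟩, ⟨0, 0, -1⟩⟩,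
      [⟨⟨0, -1, 0⟩, ⟨0, 0, 1⟩, ⟨-1, 0, 0⟩⟩, ⟨⟨0, 0, -1⟩, ⟨-1, 0, 0⟩, ⟨0, 1, 0⟩⟩,
       ⟨⟨1, 0, 0⟩, ⟨0, 1, 0⟩, ⟨0, 0, 1⟩⟩],
      [[4, 4], [4, 4], [4, 4, 1, 4]]⟩,
     ⟨0, ⟨0, 0, 0⟩, 0, 0, ⟨⟨0, 0, -1⟩, ⟨-1, 0, 0⟩, ⟨0, 1, 0⟩⟩, ⟨⟨1, 0, 0⟩, ⟨0, 1, 0⟩, ⟨0, 0, 1⟩⟩, true⟩),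
    (⟨.c4a, .cub, 1, 1, 2, ⟨⟨0, -1, 0⟩, ⟨0, 0, 1⟩, ⟨-1, 0, 0⟩⟩, ⟨⟨1, 0, 0⟩, ⟨0, 1, 0⟩, ⟨0, 0, 1⟩⟩, ⟨⟨⟨0, 0, -1⟩, ⟨-1, 0, 0⟩, ⟨0, -1, 0⟩⟩, ⟨-1, 0, 0⟩⟩,
      [⟨⟨0, -1, 0⟩, ⟨0, 0, 1⟩, ⟨-1, 0, 0⟩⟩, ⟨⟨0, 0, -1⟩, ⟨-1, 0, 0⟩, ⟨0, 1, 0⟩⟩,
       ⟨⟨1, 0, 0⟩, ⟨0, 1, 0⟩, ⟨0, 0, 1⟩⟩],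
      [[4, 4], [4, 4], [4, 4, 1, 4]]⟩,
     ⟨0, ⟨0, 0, 0⟩, 0, 0, ⟨⟨1, 0, 0⟩, ⟨0, 1, 0⟩, ⟨0, 0, 1⟩⟩, ⟨⟨0, 0, -1⟩, ⟨-1, 0, 0⟩, ⟨0, 1, 0⟩⟩, true⟩),
    (⟨.c4a, .cub, 1, 1, 2, ⟨⟨0, -1, 0⟩, ⟨0, 0, 1⟩, ⟨-1, 0, 0⟩⟩, ⟨⟨1, 0, 0⟩, ⟨0, 1, 0⟩, ⟨0, 0, 1⟩⟩, ⟨⟨⟨0, -1, 0⟩, ⟨0, 0, 1⟩, ⟨1, 0, 0⟩⟩, ⟨3, 1, 2⟩⟩,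
      [⟨⟨0, -1, 0⟩, ⟨0, 0, 1⟩, ⟨-1, 0, 0⟩⟩, ⟨⟨0, 0, -1⟩, ⟨-1, 0, 0⟩, ⟨0, 1, 0⟩⟩,
       ⟨⟨1, 0, 0⟩, ⟨0, 1, 0⟩, ⟨0, 0, 1⟩⟩],
      [[4, 4], [4, 4], [5, 0, 4]]⟩,
     ⟨0, ⟨0, 1, 0⟩, 0, 0, ⟨⟨1, 0, 0⟩, ⟨0, 1, 0⟩, ⟨0, 0, 1⟩⟩, ⟨⟨0, -1, 0⟩, ⟨0, 0, 1⟩, ⟨-1, 0, 0⟩⟩, false⟩),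
    (⟨.c2, .cub, 1, 1, 12, ⟨⟨0, -1, 0⟩, ⟨0, 0, 1⟩, ⟨-1, 0, 0⟩⟩, ⟨⟨1, 0, 0⟩, ⟨0, 1, 0⟩, ⟨0, 0, 1⟩⟩, ⟨⟨⟨0, -1, 0⟩, ⟨-1, 0, 0⟩, ⟨0, 0, -1⟩⟩, ⟨3, 3, 4⟩⟩,
      [⟨⟨0, -1, 0⟩, ⟨0, 0, 1⟩, ⟨-1, 0, 0⟩⟩, ⟨⟨0, 0, -1⟩, ⟨-1, 0, 0⟩, ⟨0, 1, 0⟩⟩,
       ⟨⟨1, 0, 0⟩, ⟨0, 1, 0⟩, ⟨0, 0, 1⟩⟩],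
      [[4, 1, 4, 0, 4]]⟩,
     ⟨0, ⟨0, 0, 0⟩, 4, 0, ⟨⟨1, 0, 0⟩, ⟨0, 1, 0⟩, ⟨0, 0, 1⟩⟩, ⟨⟨0, -1, 0⟩, ⟨0, 0, 1⟩, ⟨-1, 0, 0⟩⟩, false⟩),
    (⟨.c2, .cub, 1, 1, 12, ⟨⟨0, -1, 0⟩, ⟨0, 0, 1⟩, ⟨-1, 0, 0⟩⟩, ⟨⟨1, 0, 0⟩, ⟨0, 1, 0⟩, ⟨0, 0, 1⟩⟩, ⟨⟨⟨0, -1, 0⟩, ⟨-1, 0, 0⟩, ⟨0, 0, -1⟩⟩, ⟨9, 9, 4⟩⟩,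
      [⟨⟨0, -1, 0⟩, ⟨0, 0, 1⟩, ⟨-1, 0, 0⟩⟩, ⟨⟨0, 0, -1⟩, ⟨-1, 0, 0⟩, ⟨0, 1, 0⟩⟩,
       ⟨⟨1, 0, 0⟩, ⟨0, 1, 0⟩, ⟨0, 0, 1⟩⟩],
      [[4, 1, 4, 0, 4]]⟩,
     ⟨0, ⟨0, 0, 0⟩, 4, 0, ⟨⟨1, 0, 0⟩, ⟨0, 1, 0⟩, ⟨0, 0, 1⟩⟩, ⟨⟨0, -1, 0⟩, ⟨0, 0, 1⟩, ⟨-1, 0, 0⟩⟩, false⟩),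
    (⟨.c2, .cub, 1, 1, 2, ⟨⟨0, -1, 0⟩, ⟨0, 0, 1⟩, ⟨-1, 0, 0⟩⟩, ⟨⟨1, 0, 0⟩, ⟨0, 1, 0⟩, ⟨0, 0, 1⟩⟩, ⟨⟨⟨0, -1, 0⟩, ⟨-1, 0, 0⟩, ⟨0, 0, -1⟩⟩, ⟨2, 2, 1⟩⟩,
      [⟨⟨0, -1, 0⟩, ⟨0, 0, 1⟩, ⟨-1, 0, 0⟩⟩, ⟨⟨0, 0, -1⟩, ⟨-1, 0, 0⟩, ⟨0, 1, 0⟩⟩,
       ⟨⟨1, 0, 0⟩, ⟨0, 1, 0⟩, ⟨0, 0, 1⟩⟩],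
      [[4, 1, 4, 0, 4]]⟩,
     ⟨0, ⟨1, 0, 0⟩, 1, 0, ⟨⟨1, 0, 0⟩, ⟨0, 1, 0⟩, ⟨0, 0, 1⟩⟩, ⟨⟨0, -1, 0⟩, ⟨0, 0, 1⟩, ⟨-1, 0, 0⟩⟩, false⟩),
    (⟨.c4a, .cub, 1, 1, 2, ⟨⟨0, -1, 0⟩, ⟨0, 0, 1⟩, ⟨-1, 0, 0⟩⟩, ⟨⟨1, 0, 0⟩, ⟨0, 1, 0⟩, ⟨0, 0, 1⟩⟩, ⟨⟨⟨0, 1, 0⟩, ⟨-1, 0, 0⟩, ⟨0, 0, 1⟩⟩, ⟨-2, -3, 1⟩⟩,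
      [⟨⟨0, -1, 0⟩, ⟨0, 0, 1⟩, ⟨-1, 0, 0⟩⟩, ⟨⟨0, 0, -1⟩, ⟨-1, 0, 0⟩, ⟨0, 1, 0⟩⟩,
       ⟨⟨1, 0, 0⟩, ⟨0, 1, 0⟩, ⟨0, 0, 1⟩⟩],
      [[4, 4], [4, 4], [5, 0, 4]]⟩,
     ⟨0, ⟨0, 1, 0⟩, 0, 0, ⟨⟨0, 0, -1⟩, ⟨-1, 0, 0⟩, ⟨0, 1, 0⟩⟩, ⟨⟨1, 0, 0⟩, ⟨0, 1, 0⟩, ⟨0, 0, 1⟩⟩, false⟩),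
    (⟨.c4a, .cub, 1, 1, 6, ⟨⟨0, -1, 0⟩, ⟨0, 0, 1⟩, ⟨-1, 0, 0⟩⟩, ⟨⟨1, 0, 0⟩, ⟨0, 1, 0⟩, ⟨0, 0, 1⟩⟩, ⟨⟨⟨0, 0, -1⟩, ⟨0, -1, 0⟩, ⟨1, 0, 0⟩⟩, ⟨3, 2, 2⟩⟩,
      [⟨⟨0, -1, 0⟩, ⟨0, 0, 1⟩, ⟨-1, 0, 0⟩⟩, ⟨⟨0, 0, -1⟩, ⟨-1, 0, 0⟩, ⟨0, 1, 0⟩⟩,
       ⟨⟨1, 0, 0⟩, ⟨0, 1, 0⟩, ⟨0, 0, 1⟩⟩],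
      [[4, 4], [4, 4], [5, 0, 4]]⟩,
     ⟨0, ⟨0, 0, 0⟩, 2, 0, ⟨⟨1, 0, 0⟩, ⟨0, 1, 0⟩, ⟨0, 0, 1⟩⟩, ⟨⟨0, 0, -1⟩, ⟨-1, 0, 0⟩, ⟨0, 1, 0⟩⟩, false⟩),
    (⟨.c4a, .cub, 1, 1, 2, ⟨⟨0, -1, 0⟩, ⟨0, 0, 1⟩, ⟨-1, 0, 0⟩⟩, ⟨⟨1, 0, 0⟩, ⟨0, 1, 0⟩, ⟨0, 0, 1⟩⟩, ⟨⟨⟨1, 0, 0⟩, ⟨0, 0, -1⟩, ⟨0, -1, 0⟩⟩, ⟨-2, 1, 5⟩⟩,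
      [⟨⟨0, -1, 0⟩, ⟨0, 0, 1⟩, ⟨-1, 0, 0⟩⟩, ⟨⟨0, 0, -1⟩, ⟨-1, 0, 0⟩, ⟨0, 1, 0⟩⟩,
       ⟨⟨1, 0, 0⟩, ⟨0, 1, 0⟩, ⟨0, 0, 1⟩⟩],
      [[4, 4], [4, 4], [5, 0, 4]]⟩,
     ⟨0, ⟨1, 0, 0⟩, 1, 0, ⟨⟨1, 0, 0⟩, ⟨0, 1, 0⟩, ⟨0, 0, 1⟩⟩, ⟨⟨1, 0, 0⟩, ⟨0, 1, 0⟩, ⟨0, 0, 1⟩⟩, true⟩),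
    (⟨.c4a, .cub, 1, 1, 2, ⟨⟨0, -1, 0⟩, ⟨0, 0, 1⟩, ⟨-1, 0, 0⟩⟩, ⟨⟨1, 0, 0⟩, ⟨0, 1, 0⟩, ⟨0, 0, 1⟩⟩, ⟨⟨⟨0, 1, 0⟩, ⟨-1, 0, 0⟩, ⟨0, 0, -1⟩⟩, ⟨-2, 1, 0⟩⟩,
      [⟨⟨0, -1, 0⟩, ⟨0, 0, 1⟩, ⟨-1, 0, 0⟩⟩, ⟨⟨0, 0, -1⟩, ⟨-1, 0, 0⟩, ⟨0, 1, 0⟩⟩,
       ⟨⟨1, 0, 0⟩, ⟨0, 1, 0⟩, ⟨0, 0, 1⟩⟩],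
      [[4, 4], [4, 4], [5, 0, 4]]⟩,
     ⟨0, ⟨0, 0, 0⟩, 0, 0, ⟨⟨0, 0, -1⟩, ⟨-1, 0, 0⟩, ⟨0, 1, 0⟩⟩, ⟨⟨1, 0, 0⟩, ⟨0, 1, 0⟩, ⟨0, 0, 1⟩⟩, true⟩),
    (⟨.c4a, .cub, 1, 1, 2, ⟨⟨0, -1, 0⟩, ⟨0, 0, 1⟩, ⟨-1, 0, 0⟩⟩, ⟨⟨1, 0, 0⟩, ⟨0, 1, 0⟩, ⟨0, 0, 1⟩⟩, ⟨⟨⟨0, 0, -1⟩, ⟨1, 0, 0⟩, ⟨0, -1, 0⟩⟩, ⟨-1, 1, 0⟩⟩,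
      [⟨⟨0, -1, 0⟩, ⟨0, 0, 1⟩, ⟨-1, 0, 0⟩⟩, ⟨⟨0, 0, -1⟩, ⟨-1, 0, 0⟩, ⟨0, 1, 0⟩⟩,
       ⟨⟨1, 0, 0⟩, ⟨0, 1, 0⟩, ⟨0, 0, 1⟩⟩],
      [[4, 4], [4, 4], [5, 0, 4]]⟩,
     ⟨0, ⟨0, 0, 0⟩, 0, 0, ⟨⟨1, 0, 0⟩, ⟨0, 1, 0⟩, ⟨0, 0, 1⟩⟩, ⟨⟨0, 0, -1⟩, ⟨-1, 0, 0⟩, ⟨0, 1, 0⟩⟩, true⟩),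
    (⟨.c4a, .cub, 1, 1, 2, ⟨⟨0, -1, 0⟩, ⟨0, 0, 1⟩, ⟨-1, 0, 0⟩⟩, ⟨⟨1, 0, 0⟩, ⟨0, 1, 0⟩, ⟨0, 0, 1⟩⟩, ⟨⟨⟨0, 0, -1⟩, ⟨1, 0, 0⟩, ⟨0, -1, 0⟩⟩, ⟨2, 3, 3⟩⟩,
      [⟨⟨0, -1, 0⟩, ⟨0, 0, 1⟩, ⟨-1, 0, 0⟩⟩, ⟨⟨0, 0, -1⟩, ⟨-1, 0, 0⟩, ⟨0, 1, 0⟩⟩,
       ⟨⟨1, 0, 0⟩, ⟨0, 1, 0⟩, ⟨0, 0, 1⟩⟩],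
      [[4, 4], [4, 4], [5, 0, 4]]⟩,
     ⟨0, ⟨1, 0, 0⟩, 1, 0, ⟨⟨1, 0, 0⟩, ⟨0, 1, 0⟩, ⟨0, 0, 1⟩⟩, ⟨⟨0, 0, -1⟩, ⟨-1, 0, 0⟩, ⟨0, 1, 0⟩⟩, false⟩),
    (⟨.c20, .cub, 1, 1, 1, ⟨⟨0, -1, 0⟩, ⟨0, 0, 1⟩, ⟨-1, 0, 0⟩⟩, ⟨⟨1, 0, 0⟩, ⟨0, 1, 0⟩, ⟨0, 0, 1⟩⟩, ⟨⟨⟨1, 0, 0⟩, ⟨0, -1, 0⟩, ⟨0, 0, -1⟩⟩, ⟨0, 1, 0⟩⟩,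
      [⟨⟨0, -1, 0⟩, ⟨0, 0, 1⟩, ⟨-1, 0, 0⟩⟩, ⟨⟨0, 0, -1⟩, ⟨-1, 0, 0⟩, ⟨0, 1, 0⟩⟩,
       ⟨⟨1, 0, 0⟩, ⟨0, 1, 0⟩, ⟨0, 0, 1⟩⟩],
      [[4, 1, 4, 0, 4]]⟩,
     ⟨0, ⟨0, 0, 0⟩, 0, 0, ⟨⟨1, 0, 0⟩, ⟨0, 1, 0⟩, ⟨0, 0, 1⟩⟩, ⟨⟨1, 0, 0⟩, ⟨0, 1, 0⟩, ⟨0, 0, 1⟩⟩, false⟩),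
    (⟨.c4a, .cub, 1, 1, 2, ⟨⟨0, 0, -1⟩, ⟨0, -1, 0⟩, ⟨1, 0, 0⟩⟩, ⟨⟨1, 0, 0⟩, ⟨0, 1, 0⟩, ⟨0, 0, 1⟩⟩, ⟨⟨⟨0, 1, 0⟩, ⟨-1, 0, 0⟩, ⟨0, 0, -1⟩⟩, ⟨3, 1, 2⟩⟩,
      [⟨⟨-1, 0, 0⟩, ⟨0, 1, 0⟩, ⟨0, 0, -1⟩⟩, ⟨⟨0, 0, -1⟩, ⟨0, -1, 0⟩, ⟨1, 0, 0⟩⟩,
       ⟨⟨0, 0, 1⟩, ⟨0, -1, 0⟩, ⟨-1, 0, 0⟩⟩, ⟨⟨1, 0, 0⟩, ⟨0, 1, 0⟩, ⟨0, 0, 1⟩⟩],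
      [[4, 4], [4, 4], [5, 0, 4]]⟩,
     ⟨0, ⟨1, 0, 0⟩, 0, 0, ⟨⟨0, 0, -1⟩, ⟨0, -1, 0⟩, ⟨1, 0, 0⟩⟩, ⟨⟨0, 0, -1⟩, ⟨0, -1, 0⟩, ⟨1, 0, 0⟩⟩, true⟩),
    (⟨.c4a, .cub, 1, 1, 2, ⟨⟨0, 0, -1⟩, ⟨0, -1, 0⟩, ⟨1, 0, 0⟩⟩, ⟨⟨1, 0, 0⟩, ⟨0, 1, 0⟩, ⟨0, 0, 1⟩⟩, ⟨⟨⟨0, 0, -1⟩, ⟨1, 0, 0⟩, ⟨0, -1, 0⟩⟩, ⟨-2, -3, -1⟩⟩,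
      [⟨⟨-1, 0, 0⟩, ⟨0, 1, 0⟩, ⟨0, 0, -1⟩⟩, ⟨⟨0, 0, -1⟩, ⟨0, -1, 0⟩, ⟨1, 0, 0⟩⟩,
       ⟨⟨0, 0, 1⟩, ⟨0, -1, 0⟩, ⟨-1, 0, 0⟩⟩, ⟨⟨1, 0, 0⟩, ⟨0, 1, 0⟩, ⟨0, 0, 1⟩⟩],
      [[4, 4], [4, 4], [5, 0, 4]]⟩,
     ⟨0, ⟨0, 1, 0⟩, 0, 0, ⟨⟨1, 0, 0⟩, ⟨0, 1, 0⟩, ⟨0, 0, 1⟩⟩, ⟨⟨0, 0, -1⟩, ⟨0, -1, 0⟩, ⟨1, 0, 0⟩⟩, true⟩),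
    (⟨.c2, .cub, 1, 1, 4, ⟨⟨0, 0, -1⟩, ⟨0, -1, 0⟩, ⟨1, 0, 0⟩⟩, ⟨⟨1, 0, 0⟩, ⟨0, 1, 0⟩, ⟨0, 0, 1⟩⟩, ⟨⟨⟨-1, 0, 0⟩, ⟨0, 0, 1⟩, ⟨0, 1, 0⟩⟩, ⟨-2, 1, -1⟩⟩,
      [⟨⟨-1, 0, 0⟩, ⟨0, 1, 0⟩, ⟨0, 0, -1⟩⟩, ⟨⟨0, 0, -1⟩, ⟨0, -1, 0⟩, ⟨1, 0, 0⟩⟩,
       ⟨⟨0, 0, 1⟩, ⟨0, -1, 0⟩, ⟨-1, 0, 0⟩⟩, ⟨⟨1, 0, 0⟩, ⟨0, 1, 0⟩, ⟨0, 0, 1⟩⟩],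
      [[4, 1, 4, 0, 4]]⟩,
     ⟨0, ⟨0, 0, 0⟩, 0, 0, ⟨⟨-1, 0, 0⟩, ⟨0, 1, 0⟩, ⟨0, 0, -1⟩⟩, ⟨⟨1, 0, 0⟩, ⟨0, 1, 0⟩, ⟨0, 0, 1⟩⟩, false⟩),
    (⟨.c2, .cub, 1, 1, 4, ⟨⟨0, 0, -1⟩, ⟨0, -1, 0⟩, ⟨1, 0, 0⟩⟩, ⟨⟨1, 0, 0⟩, ⟨0, 1, 0⟩, ⟨0, 0, 1⟩⟩, ⟨⟨⟨-1, 0, 0⟩, ⟨0, 0, 1⟩, ⟨0, 1, 0⟩⟩, ⟨2, -1, 1⟩⟩,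
      [⟨⟨-1, 0, 0⟩, ⟨0, 1, 0⟩, ⟨0, 0, -1⟩⟩, ⟨⟨0, 0, -1⟩, ⟨0, -1, 0⟩, ⟨1, 0, 0⟩⟩,
       ⟨⟨0, 0, 1⟩, ⟨0, -1, 0⟩, ⟨-1, 0, 0⟩⟩, ⟨⟨1, 0, 0⟩, ⟨0, 1, 0⟩, ⟨0, 0, 1⟩⟩],
      [[4, 1, 4, 0, 4]]⟩,
     ⟨0, ⟨0, 0, 0⟩, 0, 0, ⟨⟨-1, 0, 0⟩, ⟨0, 1, 0⟩, ⟨0, 0, -1⟩⟩, ⟨⟨1, 0, 0⟩, ⟨0, 1, 0⟩, ⟨0, 0, 1⟩⟩, false⟩),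
    (⟨.c2, .cub, 1, 1, 4, ⟨⟨0, 0, -1⟩, ⟨0, -1, 0⟩, ⟨1, 0, 0⟩⟩, ⟨⟨1, 0, 0⟩, ⟨0, 1, 0⟩, ⟨0, 0, 1⟩⟩, ⟨⟨⟨-1, 0, 0⟩, ⟨0, 0, 1⟩, ⟨0, 1, 0⟩⟩, ⟨-4, 1, -1⟩⟩,
      [⟨⟨-1, 0, 0⟩, ⟨0, 1, 0⟩, ⟨0, 0, -1⟩⟩, ⟨⟨0, 0, -1⟩, ⟨0, -1, 0⟩, ⟨1, 0, 0⟩⟩,
       ⟨⟨0, 0, 1⟩, ⟨0, -1, 0⟩, ⟨-1, 0, 0⟩⟩, ⟨⟨1, 0, 0⟩, ⟨0, 1, 0⟩, ⟨0, 0, 1⟩⟩],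
      [[4, 1, 4, 0, 4]]⟩,
     ⟨0, ⟨1, 0, 0⟩, 0, 0, ⟨⟨-1, 0, 0⟩, ⟨0, 1, 0⟩, ⟨0, 0, -1⟩⟩, ⟨⟨1, 0, 0⟩, ⟨0, 1, 0⟩, ⟨0, 0, 1⟩⟩, false⟩),
    (⟨.c2, .cub, 1, 1, 2, ⟨⟨0, 0, -1⟩, ⟨0, -1, 0⟩, ⟨1, 0, 0⟩⟩, ⟨⟨1, 0, 0⟩, ⟨0, 1, 0⟩, ⟨0, 0, 1⟩⟩, ⟨⟨⟨0, 1, 0⟩, ⟨1, 0, 0⟩, ⟨0, 0, -1⟩⟩, ⟨2, -2, -1⟩⟩,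
      [⟨⟨-1, 0, 0⟩, ⟨0, 1, 0⟩, ⟨0, 0, -1⟩⟩, ⟨⟨0, 0, -1⟩, ⟨0, -1, 0⟩, ⟨1, 0, 0⟩⟩,
       ⟨⟨0, 0, 1⟩, ⟨0, -1, 0⟩, ⟨-1, 0, 0⟩⟩, ⟨⟨1, 0, 0⟩, ⟨0, 1, 0⟩, ⟨0, 0, 1⟩⟩],
      [[4, 1, 4, 0, 4]]⟩,
     ⟨0, ⟨1, 0, 0⟩, 0, 0, ⟨⟨0, 0, 1⟩, ⟨0, -1, 0⟩, ⟨-1, 0, 0⟩⟩, ⟨⟨0, 0, 1⟩, ⟨0, -1, 0⟩, ⟨-1, 0, 0⟩⟩, false⟩),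
    (⟨.c4b, .cub, 1, 1, 4, ⟨⟨-1, 0, 0⟩, ⟨0, 1, 0⟩, ⟨0, 0, -1⟩⟩, ⟨⟨0, 0, -1⟩, ⟨0, -1, 0⟩, ⟨-1, 0, 0⟩⟩, ⟨⟨⟨0, 0, -1⟩, ⟨-1, 0, 0⟩, ⟨0, -1, 0⟩⟩, ⟨2, 3, 1⟩⟩,
      [⟨⟨-1, 0, 0⟩, ⟨0, 1, 0⟩, ⟨0, 0, -1⟩⟩, ⟨⟨0, 0, -1⟩, ⟨0, -1, 0⟩, ⟨-1, 0, 0⟩⟩,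
       ⟨⟨0, 0, 1⟩, ⟨0, -1, 0⟩, ⟨1, 0, 0⟩⟩, ⟨⟨1, 0, 0⟩, ⟨0, 1, 0⟩, ⟨0, 0, 1⟩⟩],
      [[4, 0, 4]]⟩,
     ⟨0, ⟨0, 0, 0⟩, 0, 0, ⟨⟨1, 0, 0⟩, ⟨0, 1, 0⟩, ⟨0, 0, 1⟩⟩, ⟨⟨0, 0, -1⟩, ⟨0, -1, 0⟩, ⟨-1, 0, 0⟩⟩, false⟩),
    (⟨.c4b, .cub, 1, 1, 4, ⟨⟨-1, 0, 0⟩, ⟨0, 1, 0⟩, ⟨0, 0, -1⟩⟩, ⟨⟨0, 0, -1⟩, ⟨0, -1, 0⟩, ⟨-1, 0, 0⟩⟩, ⟨⟨⟨0, 0, 1⟩, ⟨1, 0, 0⟩, ⟨0, -1, 0⟩⟩, ⟨2, 1, 3⟩⟩,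
      [⟨⟨-1, 0, 0⟩, ⟨0, 1, 0⟩, ⟨0, 0, -1⟩⟩, ⟨⟨0, 0, -1⟩, ⟨0, -1, 0⟩, ⟨-1, 0, 0⟩⟩,
       ⟨⟨0, 0, 1⟩, ⟨0, -1, 0⟩, ⟨1, 0, 0⟩⟩, ⟨⟨1, 0, 0⟩, ⟨0, 1, 0⟩, ⟨0, 0, 1⟩⟩],
      [[4, 0, 4]]⟩,
     ⟨0, ⟨0, 0, 0⟩, 0, 0, ⟨⟨1, 0, 0⟩, ⟨0, 1, 0⟩, ⟨0, 0, 1⟩⟩, ⟨⟨0, 0, 1⟩, ⟨0, -1, 0⟩, ⟨1, 0, 0⟩⟩, false⟩),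
    (⟨.c21, .cub, 1, 1, 4, ⟨⟨-1, 0, 0⟩, ⟨0, 1, 0⟩, ⟨0, 0, -1⟩⟩, ⟨⟨0, 0, -1⟩, ⟨0, -1, 0⟩, ⟨-1, 0, 0⟩⟩, ⟨⟨⟨1, 0, 0⟩, ⟨0, 0, 1⟩, ⟨0, 1, 0⟩⟩, ⟨0, -1, 1⟩⟩,
      [⟨⟨-1, 0, 0⟩, ⟨0, 1, 0⟩, ⟨0, 0, -1⟩⟩, ⟨⟨0, 0, -1⟩, ⟨0, -1, 0⟩, ⟨-1, 0, 0⟩⟩,
       ⟨⟨0, 0, 1⟩, ⟨0, -1, 0⟩, ⟨1, 0, 0⟩⟩, ⟨⟨1, 0, 0⟩, ⟨0, 1, 0⟩, ⟨0, 0, 1⟩⟩],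
      [[4, 0, 4]]⟩,
     ⟨0, ⟨0, 0, 0⟩, 0, 0, ⟨⟨1, 0, 0⟩, ⟨0, 1, 0⟩, ⟨0, 0, 1⟩⟩, ⟨⟨1, 0, 0⟩, ⟨0, 1, 0⟩, ⟨0, 0, 1⟩⟩, false⟩),
    (⟨.c21, .cub, 1, 1, 2, ⟨⟨-1, 0, 0⟩, ⟨0, 1, 0⟩, ⟨0, 0, -1⟩⟩, ⟨⟨0, 0, -1⟩, ⟨0, -1, 0⟩, ⟨-1, 0, 0⟩⟩, ⟨⟨⟨-1, 0, 0⟩, ⟨0, 0, -1⟩, ⟨0, -1, 0⟩⟩, ⟨0, 1, 1⟩⟩,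
      [⟨⟨-1, 0, 0⟩, ⟨0, 1, 0⟩, ⟨0, 0, -1⟩⟩, ⟨⟨0, 0, -1⟩, ⟨0, -1, 0⟩, ⟨-1, 0, 0⟩⟩,
       ⟨⟨0, 0, 1⟩, ⟨0, -1, 0⟩, ⟨1, 0, 0⟩⟩, ⟨⟨1, 0, 0⟩, ⟨0, 1, 0⟩, ⟨0, 0, 1⟩⟩],
      [[4, 0, 4]]⟩,
     ⟨0, ⟨0, 0, 0⟩, 0, 0, ⟨⟨1, 0, 0⟩, ⟨0, 1, 0⟩, ⟨0, 0, 1⟩⟩, ⟨⟨-1, 0, 0⟩, ⟨0, 1, 0⟩, ⟨0, 0, -1⟩⟩, false⟩),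
    (⟨.c4b, .cub, 1, 1, 2, ⟨⟨-1, 0, 0⟩, ⟨0, 1, 0⟩, ⟨0, 0, -1⟩⟩, ⟨⟨0, 0, -1⟩, ⟨0, -1, 0⟩, ⟨-1, 0, 0⟩⟩, ⟨⟨⟨0, 0, -1⟩, ⟨-1, 0, 0⟩, ⟨0, 1, 0⟩⟩, ⟨0, 1, -1⟩⟩,
      [⟨⟨-1, 0, 0⟩, ⟨0, 1, 0⟩, ⟨0, 0, -1⟩⟩, ⟨⟨0, 0, -1⟩, ⟨0, -1, 0⟩, ⟨-1, 0, 0⟩⟩,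
       ⟨⟨0, 0, 1⟩, ⟨0, -1, 0⟩, ⟨1, 0, 0⟩⟩, ⟨⟨1, 0, 0⟩, ⟨0, 1, 0⟩, ⟨0, 0, 1⟩⟩],
      [[4, 0, 4]]⟩,
     ⟨0, ⟨0, 0, 0⟩, 0, 0, ⟨⟨1, 0, 0⟩, ⟨0, 1, 0⟩, ⟨0, 0, 1⟩⟩, ⟨⟨0, 0, -1⟩, ⟨0, -1, 0⟩, ⟨-1, 0, 0⟩⟩, false⟩),
    (⟨.c4a, .cub, 1, 1, 6, ⟨⟨0, 0, -1⟩, ⟨0, 1, 0⟩, ⟨1, 0, 0⟩⟩, ⟨⟨1, 0, 0⟩, ⟨0, 1, 0⟩, ⟨0, 0, 1⟩⟩, ⟨⟨⟨-1, 0, 0⟩, ⟨0, 0, -1⟩, ⟨0, 1, 0⟩⟩, ⟨-3, -2, -4⟩⟩,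
      [⟨⟨-1, 0, 0⟩, ⟨0, 1, 0⟩, ⟨0, 0, -1⟩⟩, ⟨⟨0, 0, -1⟩, ⟨0, 1, 0⟩, ⟨1, 0, 0⟩⟩,
       ⟨⟨0, 0, 1⟩, ⟨0, 1, 0⟩, ⟨-1, 0, 0⟩⟩, ⟨⟨1, 0, 0⟩, ⟨0, 1, 0⟩, ⟨0, 0, 1⟩⟩],
      [[4, 4], [4, 4], [5, 0, 4]]⟩,
     ⟨0, ⟨0, 1, 0⟩, 2, 0, ⟨⟨1, 0, 0⟩, ⟨0, 1, 0⟩, ⟨0, 0, 1⟩⟩, ⟨⟨-1, 0, 0⟩, ⟨0, 1, 0⟩, ⟨0, 0, -1⟩⟩, true⟩),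
    (⟨.c4a, .cub, 1, 1, 3, ⟨⟨0, 0, -1⟩, ⟨0, 1, 0⟩, ⟨1, 0, 0⟩⟩, ⟨⟨1, 0, 0⟩, ⟨0, 1, 0⟩, ⟨0, 0, 1⟩⟩, ⟨⟨⟨0, -1, 0⟩, ⟨0, 0, 1⟩, ⟨1, 0, 0⟩⟩, ⟨-1, 2, 0⟩⟩,
      [⟨⟨-1, 0, 0⟩, ⟨0, 1, 0⟩, ⟨0, 0, -1⟩⟩, ⟨⟨0, 0, -1⟩, ⟨0, 1, 0⟩, ⟨1, 0, 0⟩⟩,
       ⟨⟨0, 0, 1⟩, ⟨0, 1, 0⟩, ⟨-1, 0, 0⟩⟩, ⟨⟨1, 0, 0⟩, ⟨0, 1, 0⟩, ⟨0, 0, 1⟩⟩],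
      [[4, 4], [4, 4], [5, 0, 4]]⟩,
     ⟨0, ⟨0, 0, 0⟩, 1, 0, ⟨⟨0, 0, -1⟩, ⟨0, 1, 0⟩, ⟨1, 0, 0⟩⟩, ⟨⟨1, 0, 0⟩, ⟨0, 1, 0⟩, ⟨0, 0, 1⟩⟩, false⟩),
    (⟨.c2, .cub, 1, 1, 3, ⟨⟨0, 0, -1⟩, ⟨0, 1, 0⟩, ⟨1, 0, 0⟩⟩, ⟨⟨1, 0, 0⟩, ⟨0, 1, 0⟩, ⟨0, 0, 1⟩⟩, ⟨⟨⟨0, 1, 0⟩, ⟨1, 0, 0⟩, ⟨0, 0, -1⟩⟩, ⟨-1, 1, 3⟩⟩,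
      [⟨⟨-1, 0, 0⟩, ⟨0, 1, 0⟩, ⟨0, 0, -1⟩⟩, ⟨⟨0, 0, -1⟩, ⟨0, 1, 0⟩, ⟨1, 0, 0⟩⟩,
       ⟨⟨0, 0, 1⟩, ⟨0, 1, 0⟩, ⟨-1, 0, 0⟩⟩, ⟨⟨1, 0, 0⟩, ⟨0, 1, 0⟩, ⟨0, 0, 1⟩⟩],
      [[4, 1, 4, 0, 4]]⟩,
     ⟨0, ⟨1, 0, 0⟩, 1, 0, ⟨⟨0, 0, -1⟩, ⟨0, 1, 0⟩, ⟨1, 0, 0⟩⟩, ⟨⟨0, 0, -1⟩, ⟨0, 1, 0⟩, ⟨1, 0, 0⟩⟩, false⟩),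
    (⟨.c4a, .cub, 1, 1, 2, ⟨⟨0, 0, -1⟩, ⟨0, 1, 0⟩, ⟨1, 0, 0⟩⟩, ⟨⟨1, 0, 0⟩, ⟨0, 1, 0⟩, ⟨0, 0, 1⟩⟩, ⟨⟨⟨0, 0, 1⟩, ⟨1, 0, 0⟩, ⟨0, 1, 0⟩⟩, ⟨-2, 1, -3⟩⟩,
      [⟨⟨-1, 0, 0⟩, ⟨0, 1, 0⟩, ⟨0, 0, -1⟩⟩, ⟨⟨0, 0, -1⟩, ⟨0, 1, 0⟩, ⟨1, 0, 0⟩⟩,
       ⟨⟨0, 0, 1⟩, ⟨0, 1, 0⟩, ⟨-1, 0, 0⟩⟩, ⟨⟨1, 0, 0⟩, ⟨0, 1, 0⟩, ⟨0, 0, 1⟩⟩],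
      [[4, 4], [4, 4], [5, 0, 4]]⟩,
     ⟨0, ⟨1, 0, 0⟩, 1, 0, ⟨⟨1, 0, 0⟩, ⟨0, 1, 0⟩, ⟨0, 0, 1⟩⟩, ⟨⟨0, 0, 1⟩, ⟨0, 1, 0⟩, ⟨-1, 0, 0⟩⟩, true⟩),
    (⟨.c2, .cub, 1, 1, 2, ⟨⟨0, 0, -1⟩, ⟨0, 1, 0⟩, ⟨1, 0, 0⟩⟩, ⟨⟨1, 0, 0⟩, ⟨0, 1, 0⟩, ⟨0, 0, 1⟩⟩, ⟨⟨⟨-1, 0, 0⟩, ⟨0, 0, -1⟩, ⟨0, -1, 0⟩⟩, ⟨2, 3, 3⟩⟩,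
      [⟨⟨-1, 0, 0⟩, ⟨0, 1, 0⟩, ⟨0, 0, -1⟩⟩, ⟨⟨0, 0, -1⟩, ⟨0, 1, 0⟩, ⟨1, 0, 0⟩⟩,
       ⟨⟨0, 0, 1⟩, ⟨0, 1, 0⟩, ⟨-1, 0, 0⟩⟩, ⟨⟨1, 0, 0⟩, ⟨0, 1, 0⟩, ⟨0, 0, 1⟩⟩],
      [[4, 1, 4, 0, 4]]⟩,
     ⟨0, ⟨1, 0, 0⟩, 1, 0, ⟨⟨1, 0, 0⟩, ⟨0, 1, 0⟩, ⟨0, 0, 1⟩⟩, ⟨⟨-1, 0, 0⟩, ⟨0, 1, 0⟩, ⟨0, 0, -1⟩⟩, false⟩),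
    (⟨.c4b, .cub, 1, 1, 3, ⟨⟨-1, 0, 0⟩, ⟨0, 1, 0⟩, ⟨0, 0, -1⟩⟩, ⟨⟨0, 0, -1⟩, ⟨0, 1, 0⟩, ⟨-1, 0, 0⟩⟩, ⟨⟨⟨1, 0, 0⟩, ⟨0, 0, 1⟩, ⟨0, 1, 0⟩⟩, ⟨-3, -1, 1⟩⟩,
      [⟨⟨-1, 0, 0⟩, ⟨0, 1, 0⟩, ⟨0, 0, -1⟩⟩, ⟨⟨0, 0, -1⟩, ⟨0, 1, 0⟩, ⟨-1, 0, 0⟩⟩,
       ⟨⟨0, 0, 1⟩, ⟨0, 1, 0⟩, ⟨1, 0, 0⟩⟩, ⟨⟨1, 0, 0⟩, ⟨0, 1, 0⟩, ⟨0, 0, 1⟩⟩],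
      [[4, 0, 4]]⟩,
     ⟨0, ⟨1, 0, 0⟩, 1, 0, ⟨⟨1, 0, 0⟩, ⟨0, 1, 0⟩, ⟨0, 0, 1⟩⟩, ⟨⟨1, 0, 0⟩, ⟨0, 1, 0⟩, ⟨0, 0, 1⟩⟩, true⟩),
    (⟨.c4b, .cub, 1, 1, 2, ⟨⟨-1, 0, 0⟩, ⟨0, 1, 0⟩, ⟨0, 0, -1⟩⟩, ⟨⟨0, 0, -1⟩, ⟨0, 1, 0⟩, ⟨-1, 0, 0⟩⟩, ⟨⟨⟨1, 0, 0⟩, ⟨0, 0, 1⟩, ⟨0, 1, 0⟩⟩, ⟨2, 1, 1⟩⟩,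
      [⟨⟨-1, 0, 0⟩, ⟨0, 1, 0⟩, ⟨0, 0, -1⟩⟩, ⟨⟨0, 0, -1⟩, ⟨0, 1, 0⟩, ⟨-1, 0, 0⟩⟩,
       ⟨⟨0, 0, 1⟩, ⟨0, 1, 0⟩, ⟨1, 0, 0⟩⟩, ⟨⟨1, 0, 0⟩, ⟨0, 1, 0⟩, ⟨0, 0, 1⟩⟩],
      [[4, 0, 4]]⟩,
     ⟨0, ⟨1, 0, 0⟩, 1, 0, ⟨⟨1, 0, 0⟩, ⟨0, 1, 0⟩, ⟨0, 0, 1⟩⟩, ⟨⟨1, 0, 0⟩, ⟨0, 1, 0⟩, ⟨0, 0, 1⟩⟩, false⟩),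
    (⟨.c4b, .cub, 1, 1, 2, ⟨⟨-1, 0, 0⟩, ⟨0, 1, 0⟩, ⟨0, 0, -1⟩⟩, ⟨⟨0, 0, -1⟩, ⟨0, 1, 0⟩, ⟨-1, 0, 0⟩⟩, ⟨⟨⟨0, 0, -1⟩, ⟨-1, 0, 0⟩, ⟨0, 1, 0⟩⟩, ⟨2, 1, 3⟩⟩,
      [⟨⟨-1, 0, 0⟩, ⟨0, 1, 0⟩, ⟨0, 0, -1⟩⟩, ⟨⟨0, 0, -1⟩, ⟨0, 1, 0⟩, ⟨-1, 0, 0⟩⟩,
       ⟨⟨0, 0, 1⟩, ⟨0, 1, 0⟩, ⟨1, 0, 0⟩⟩, ⟨⟨1, 0, 0⟩, ⟨0, 1, 0⟩, ⟨0, 0, 1⟩⟩],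
      [[4, 0, 4]]⟩,
     ⟨0, ⟨1, 0, 0⟩, 1, 0, ⟨⟨1, 0, 0⟩, ⟨0, 1, 0⟩, ⟨0, 0, 1⟩⟩, ⟨⟨0, 0, -1⟩, ⟨0, 1, 0⟩, ⟨-1, 0, 0⟩⟩, false⟩),
    (⟨.c4b, .cub, 1, 1, 3, ⟨⟨-1, 0, 0⟩, ⟨0, 1, 0⟩, ⟨0, 0, -1⟩⟩, ⟨⟨0, 0, -1⟩, ⟨0, 1, 0⟩, ⟨-1, 0, 0⟩⟩, ⟨⟨⟨-1, 0, 0⟩, ⟨0, 0, 1⟩, ⟨0, 1, 0⟩⟩, ⟨0, 1, -4⟩⟩,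
      [⟨⟨-1, 0, 0⟩, ⟨0, 1, 0⟩, ⟨0, 0, -1⟩⟩, ⟨⟨0, 0, -1⟩, ⟨0, 1, 0⟩, ⟨-1, 0, 0⟩⟩,
       ⟨⟨0, 0, 1⟩, ⟨0, 1, 0⟩, ⟨1, 0, 0⟩⟩, ⟨⟨1, 0, 0⟩, ⟨0, 1, 0⟩, ⟨0, 0, 1⟩⟩],
      [[4, 0, 4]]⟩,
     ⟨0, ⟨0, 0, 0⟩, 1, 0, ⟨⟨1, 0, 0⟩, ⟨0, 1, 0⟩, ⟨0, 0, 1⟩⟩, ⟨⟨-1, 0, 0⟩, ⟨0, 1, 0⟩, ⟨0, 0, -1⟩⟩, true⟩),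
    (⟨.c21, .cub, 1, 1, 2, ⟨⟨-1, 0, 0⟩, ⟨0, 1, 0⟩, ⟨0, 0, -1⟩⟩, ⟨⟨0, 0, -1⟩, ⟨0, 1, 0⟩, ⟨-1, 0, 0⟩⟩, ⟨⟨⟨-1, 0, 0⟩, ⟨0, 0, -1⟩, ⟨0, -1, 0⟩⟩, ⟨1, 0, 0⟩⟩,
      [⟨⟨-1, 0, 0⟩, ⟨0, 1, 0⟩, ⟨0, 0, -1⟩⟩, ⟨⟨0, 0, -1⟩, ⟨0, 1, 0⟩, ⟨-1, 0, 0⟩⟩,
       ⟨⟨0, 0, 1⟩, ⟨0, 1, 0⟩, ⟨1, 0, 0⟩⟩, ⟨⟨1, 0, 0⟩, ⟨0, 1, 0⟩, ⟨0, 0, 1⟩⟩],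
      [[4, 0, 4]]⟩,
     ⟨0, ⟨0, 0, 0⟩, 0, 0, ⟨⟨1, 0, 0⟩, ⟨0, 1, 0⟩, ⟨0, 0, 1⟩⟩, ⟨⟨-1, 0, 0⟩, ⟨0, 1, 0⟩, ⟨0, 0, -1⟩⟩, false⟩),
    (⟨.c4b, .cub, 1, 1, 2, ⟨⟨-1, 0, 0⟩, ⟨0, 1, 0⟩, ⟨0, 0, -1⟩⟩, ⟨⟨0, 0, -1⟩, ⟨0, 1, 0⟩, ⟨-1, 0, 0⟩⟩, ⟨⟨⟨0, 0, 1⟩, ⟨1, 0, 0⟩, ⟨0, -1, 0⟩⟩, ⟨1, 2, 0⟩⟩,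
      [⟨⟨-1, 0, 0⟩, ⟨0, 1, 0⟩, ⟨0, 0, -1⟩⟩, ⟨⟨0, 0, -1⟩, ⟨0, 1, 0⟩, ⟨-1, 0, 0⟩⟩,
       ⟨⟨0, 0, 1⟩, ⟨0, 1, 0⟩, ⟨1, 0, 0⟩⟩, ⟨⟨1, 0, 0⟩, ⟨0, 1, 0⟩, ⟨0, 0, 1⟩⟩],
      [[4, 0, 4]]⟩,
     ⟨0, ⟨0, 0, 0⟩, 0, 0, ⟨⟨1, 0, 0⟩, ⟨0, 1, 0⟩, ⟨0, 0, 1⟩⟩, ⟨⟨0, 0, 1⟩, ⟨0, 1, 0⟩, ⟨1, 0, 0⟩⟩, false⟩),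
    (⟨.c4b, .cub, 1, 1, 1, ⟨⟨-1, 0, 0⟩, ⟨0, -1, 0⟩, ⟨0, 0, 1⟩⟩, ⟨⟨-1, 0, 0⟩, ⟨0, 1, 0⟩, ⟨0, 0, -1⟩⟩, ⟨⟨⟨0, 1, 0⟩, ⟨0, 0, 1⟩, ⟨1, 0, 0⟩⟩, ⟨-1, 2, 1⟩⟩,
      [⟨⟨-1, 0, 0⟩, ⟨0, -1, 0⟩, ⟨0, 0, 1⟩⟩, ⟨⟨-1, 0, 0⟩, ⟨0, 1, 0⟩, ⟨0, 0, -1⟩⟩,
       ⟨⟨1, 0, 0⟩, ⟨0, -1, 0⟩, ⟨0, 0, -1⟩⟩, ⟨⟨1, 0, 0⟩, ⟨0, 1, 0⟩, ⟨0, 0, 1⟩⟩],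
      [[4, 0, 4]]⟩,
     ⟨0, ⟨1, 0, 0⟩, 0, 0, ⟨⟨1, 0, 0⟩, ⟨0, 1, 0⟩, ⟨0, 0, 1⟩⟩, ⟨⟨1, 0, 0⟩, ⟨0, 1, 0⟩, ⟨0, 0, 1⟩⟩, false⟩),
    (⟨.c4b, .cub, 1, 1, 1, ⟨⟨-1, 0, 0⟩, ⟨0, -1, 0⟩, ⟨0, 0, 1⟩⟩, ⟨⟨-1, 0, 0⟩, ⟨0, 1, 0⟩, ⟨0, 0, -1⟩⟩, ⟨⟨⟨0, 0, 1⟩, ⟨-1, 0, 0⟩, ⟨0, -1, 0⟩⟩, ⟨-2, 1, -1⟩⟩,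
      [⟨⟨-1, 0, 0⟩, ⟨0, -1, 0⟩, ⟨0, 0, 1⟩⟩, ⟨⟨-1, 0, 0⟩, ⟨0, 1, 0⟩, ⟨0, 0, -1⟩⟩,
       ⟨⟨1, 0, 0⟩, ⟨0, -1, 0⟩, ⟨0, 0, -1⟩⟩, ⟨⟨1, 0, 0⟩, ⟨0, 1, 0⟩, ⟨0, 0, 1⟩⟩],
      [[4, 0, 4]]⟩,
     ⟨0, ⟨1, 0, 0⟩, 0, 0, ⟨⟨1, 0, 0⟩, ⟨0, 1, 0⟩, ⟨0, 0, 1⟩⟩, ⟨⟨-1, 0, 0⟩, ⟨0, -1, 0⟩, ⟨0, 0, 1⟩⟩, true⟩),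
    (⟨.c4b, .cub, 1, 1, 1, ⟨⟨-1, 0, 0⟩, ⟨0, -1, 0⟩, ⟨0, 0, 1⟩⟩, ⟨⟨-1, 0, 0⟩, ⟨0, 1, 0⟩, ⟨0, 0, -1⟩⟩, ⟨⟨⟨0, -1, 0⟩, ⟨0, 0, 1⟩, ⟨-1, 0, 0⟩⟩, ⟨0, 1, 1⟩⟩,
      [⟨⟨-1, 0, 0⟩, ⟨0, -1, 0⟩, ⟨0, 0, 1⟩⟩, ⟨⟨-1, 0, 0⟩, ⟨0, 1, 0⟩, ⟨0, 0, -1⟩⟩,
       ⟨⟨1, 0, 0⟩, ⟨0, -1, 0⟩, ⟨0, 0, -1⟩⟩, ⟨⟨1, 0, 0⟩, ⟨0, 1, 0⟩, ⟨0, 0, 1⟩⟩],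
      [[4, 0, 4]]⟩,
     ⟨0, ⟨1, 0, 0⟩, 0, 0, ⟨⟨1, 0, 0⟩, ⟨0, 1, 0⟩, ⟨0, 0, 1⟩⟩, ⟨⟨-1, 0, 0⟩, ⟨0, -1, 0⟩, ⟨0, 0, 1⟩⟩, false⟩),
    (⟨.c4b, .cub, 1, 1, 2, ⟨⟨-1, 0, 0⟩, ⟨0, -1, 0⟩, ⟨0, 0, 1⟩⟩, ⟨⟨-1, 0, 0⟩, ⟨0, 1, 0⟩, ⟨0, 0, -1⟩⟩, ⟨⟨⟨0, 0, -1⟩, ⟨-1, 0, 0⟩, ⟨0, -1, 0⟩⟩, ⟨1, -2, 0⟩⟩,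
      [⟨⟨-1, 0, 0⟩, ⟨0, -1, 0⟩, ⟨0, 0, 1⟩⟩, ⟨⟨-1, 0, 0⟩, ⟨0, 1, 0⟩, ⟨0, 0, -1⟩⟩,
       ⟨⟨1, 0, 0⟩, ⟨0, -1, 0⟩, ⟨0, 0, -1⟩⟩, ⟨⟨1, 0, 0⟩, ⟨0, 1, 0⟩, ⟨0, 0, 1⟩⟩],
      [[5, 2, 4]]⟩,
     ⟨0, ⟨1, 0, 0⟩, 0, 0, ⟨⟨1, 0, 0⟩, ⟨0, 1, 0⟩, ⟨0, 0, 1⟩⟩, ⟨⟨-1, 0, 0⟩, ⟨0, -1, 0⟩, ⟨0, 0, 1⟩⟩, true⟩),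
    (⟨.c4b, .cub, 1, 1, 2, ⟨⟨-1, 0, 0⟩, ⟨0, -1, 0⟩, ⟨0, 0, 1⟩⟩, ⟨⟨-1, 0, 0⟩, ⟨0, 1, 0⟩, ⟨0, 0, -1⟩⟩, ⟨⟨⟨0, -1, 0⟩, ⟨0, 0, 1⟩, ⟨1, 0, 0⟩⟩, ⟨2, 1, 0⟩⟩,
      [⟨⟨-1, 0, 0⟩, ⟨0, -1, 0⟩, ⟨0, 0, 1⟩⟩, ⟨⟨-1, 0, 0⟩, ⟨0, 1, 0⟩, ⟨0, 0, -1⟩⟩,
       ⟨⟨1, 0, 0⟩, ⟨0, -1, 0⟩, ⟨0, 0, -1⟩⟩, ⟨⟨1, 0, 0⟩, ⟨0, 1, 0⟩, ⟨0, 0, 1⟩⟩],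
      [[4, 0, 4]]⟩,
     ⟨0, ⟨1, 0, 0⟩, 0, 0, ⟨⟨1, 0, 0⟩, ⟨0, 1, 0⟩, ⟨0, 0, 1⟩⟩, ⟨⟨-1, 0, 0⟩, ⟨0, -1, 0⟩, ⟨0, 0, 1⟩⟩, false⟩),
    (⟨.c4b, .cub, 1, 1, 2, ⟨⟨-1, 0, 0⟩, ⟨0, -1, 0⟩, ⟨0, 0, 1⟩⟩, ⟨⟨-1, 0, 0⟩, ⟨0, 1, 0⟩, ⟨0, 0, -1⟩⟩, ⟨⟨⟨0, -1, 0⟩, ⟨0, 0, 1⟩, ⟨1, 0, 0⟩⟩, ⟨1, 2, 0⟩⟩,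
      [⟨⟨-1, 0, 0⟩, ⟨0, -1, 0⟩, ⟨0, 0, 1⟩⟩, ⟨⟨-1, 0, 0⟩, ⟨0, 1, 0⟩, ⟨0, 0, -1⟩⟩,
       ⟨⟨1, 0, 0⟩, ⟨0, -1, 0⟩, ⟨0, 0, -1⟩⟩, ⟨⟨1, 0, 0⟩, ⟨0, 1, 0⟩, ⟨0, 0, 1⟩⟩],
      [[4, 0, 4]]⟩,
     ⟨0, ⟨0, 1, 0⟩, 0, 0, ⟨⟨1, 0, 0⟩, ⟨0, 1, 0⟩, ⟨0, 0, 1⟩⟩, ⟨⟨-1, 0, 0⟩, ⟨0, -1, 0⟩, ⟨0, 0, 1⟩⟩, false⟩),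
    (⟨.c4b, .cub, 1, 1, 2, ⟨⟨-1, 0, 0⟩, ⟨0, -1, 0⟩, ⟨0, 0, -1⟩⟩, ⟨⟨-1, 0, 0⟩, ⟨0, 1, 0⟩, ⟨0, 0, 1⟩⟩, ⟨⟨⟨0, 0, -1⟩, ⟨-1, 0, 0⟩, ⟨0, -1, 0⟩⟩, ⟨1, -1, 0⟩⟩,
      [⟨⟨-1, 0, 0⟩, ⟨0, -1, 0⟩, ⟨0, 0, -1⟩⟩, ⟨⟨-1, 0, 0⟩, ⟨0, 1, 0⟩, ⟨0, 0, 1⟩⟩,
       ⟨⟨1, 0, 0⟩, ⟨0, -1, 0⟩, ⟨0, 0, -1⟩⟩, ⟨⟨1, 0, 0⟩, ⟨0, 1, 0⟩, ⟨0, 0, 1⟩⟩],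
      [[5, 0, 4]]⟩,
     ⟨0, ⟨0, 0, 0⟩, 0, 0, ⟨⟨1, 0, 0⟩, ⟨0, 1, 0⟩, ⟨0, 0, 1⟩⟩, ⟨⟨-1, 0, 0⟩, ⟨0, -1, 0⟩, ⟨0, 0, -1⟩⟩, true⟩),
    (⟨.c4b, .cub, 1, 1, 6, ⟨⟨-1, 0, 0⟩, ⟨0, -1, 0⟩, ⟨0, 0, 1⟩⟩, ⟨⟨-1, 0, 0⟩, ⟨0, 1, 0⟩, ⟨0, 0, 1⟩⟩, ⟨⟨⟨0, -1, 0⟩, ⟨0, 0, 1⟩, ⟨-1, 0, 0⟩⟩, ⟨3, 1, 2⟩⟩,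
      [⟨⟨-1, 0, 0⟩, ⟨0, -1, 0⟩, ⟨0, 0, 1⟩⟩, ⟨⟨-1, 0, 0⟩, ⟨0, 1, 0⟩, ⟨0, 0, 1⟩⟩,
       ⟨⟨1, 0, 0⟩, ⟨0, -1, 0⟩, ⟨0, 0, 1⟩⟩, ⟨⟨1, 0, 0⟩, ⟨0, 1, 0⟩, ⟨0, 0, 1⟩⟩],
      [[4, 0, 4]]⟩,
     ⟨0, ⟨0, 0, 0⟩, 2, 0, ⟨⟨1, 0, 0⟩, ⟨0, 1, 0⟩, ⟨0, 0, 1⟩⟩, ⟨⟨-1, 0, 0⟩, ⟨0, -1, 0⟩, ⟨0, 0, 1⟩⟩, false⟩),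
    (⟨.c4b, .cub, 1, 1, 2, ⟨⟨-1, 0, 0⟩, ⟨0, -1, 0⟩, ⟨0, 0, 1⟩⟩, ⟨⟨-1, 0, 0⟩, ⟨0, 1, 0⟩, ⟨0, 0, 1⟩⟩, ⟨⟨⟨0, 0, 1⟩, ⟨-1, 0, 0⟩, ⟨0, 1, 0⟩⟩, ⟨-3, -2, -1⟩⟩,
      [⟨⟨-1, 0, 0⟩, ⟨0, -1, 0⟩, ⟨0, 0, 1⟩⟩, ⟨⟨-1, 0, 0⟩, ⟨0, 1, 0⟩, ⟨0, 0, 1⟩⟩,
       ⟨⟨1, 0, 0⟩, ⟨0, -1, 0⟩, ⟨0, 0, 1⟩⟩, ⟨⟨1, 0, 0⟩, ⟨0, 1, 0⟩, ⟨0, 0, 1⟩⟩],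
      [[4, 0, 4]]⟩,
     ⟨0, ⟨1, 0, 0⟩, 1, 0, ⟨⟨1, 0, 0⟩, ⟨0, 1, 0⟩, ⟨0, 0, 1⟩⟩, ⟨⟨-1, 0, 0⟩, ⟨0, 1, 0⟩, ⟨0, 0, 1⟩⟩, true⟩),
    (⟨.c22, .cub, 1, 1, 3, ⟨⟨-1, 0, 0⟩, ⟨0, 1, 0⟩, ⟨0, 0, 1⟩⟩, ⟨⟨1, 0, 0⟩, ⟨0, -1, 0⟩, ⟨0, 0, 1⟩⟩, ⟨⟨⟨0, 1, 0⟩, ⟨0, 0, -1⟩, ⟨1, 0, 0⟩⟩, ⟨0, -2, 1⟩⟩,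
      [⟨⟨-1, 0, 0⟩, ⟨0, -1, 0⟩, ⟨0, 0, 1⟩⟩, ⟨⟨-1, 0, 0⟩, ⟨0, 1, 0⟩, ⟨0, 0, 1⟩⟩,
       ⟨⟨1, 0, 0⟩, ⟨0, -1, 0⟩, ⟨0, 0, 1⟩⟩, ⟨⟨1, 0, 0⟩, ⟨0, 1, 0⟩, ⟨0, 0, 1⟩⟩],
      [[5, 2, 4]]⟩,
     ⟨0, ⟨0, 0, 0⟩, 1, 0, ⟨⟨-1, 0, 0⟩, ⟨0, -1, 0⟩, ⟨0, 0, 1⟩⟩, ⟨⟨1, 0, 0⟩, ⟨0, -1, 0⟩, ⟨0, 0, 1⟩⟩, false⟩),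
    (⟨.c4b, .cub, 1, 1, 3, ⟨⟨0, 0, -1⟩, ⟨0, -1, 0⟩, ⟨-1, 0, 0⟩⟩, ⟨⟨0, 0, -1⟩, ⟨0, 1, 0⟩, ⟨-1, 0, 0⟩⟩, ⟨⟨⟨0, 0, -1⟩, ⟨-1, 0, 0⟩, ⟨0, 1, 0⟩⟩, ⟨3, -1, 1⟩⟩,
      [⟨⟨0, 0, -1⟩, ⟨0, -1, 0⟩, ⟨-1, 0, 0⟩⟩, ⟨⟨0, 0, -1⟩, ⟨0, 1, 0⟩, ⟨-1, 0, 0⟩⟩,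
       ⟨⟨1, 0, 0⟩, ⟨0, -1, 0⟩, ⟨0, 0, 1⟩⟩, ⟨⟨1, 0, 0⟩, ⟨0, 1, 0⟩, ⟨0, 0, 1⟩⟩],
      [[4, 0, 4]]⟩,
     ⟨0, ⟨1, 0, 0⟩, 1, 0, ⟨⟨1, 0, 0⟩, ⟨0, 1, 0⟩, ⟨0, 0, 1⟩⟩, ⟨⟨0, 0, -1⟩, ⟨0, 1, 0⟩, ⟨-1, 0, 0⟩⟩, false⟩),
    (⟨.c4b, .cub, 1, 1, 3, ⟨⟨0, 0, -1⟩, ⟨0, -1, 0⟩, ⟨-1, 0, 0⟩⟩, ⟨⟨0, 0, -1⟩, ⟨0, 1, 0⟩, ⟨-1, 0, 0⟩⟩, ⟨⟨⟨0, 0, -1⟩, ⟨-1, 0, 0⟩, ⟨0, -1, 0⟩⟩, ⟨-3, -1, -2⟩⟩,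
      [⟨⟨0, 0, -1⟩, ⟨0, -1, 0⟩, ⟨-1, 0, 0⟩⟩, ⟨⟨0, 0, -1⟩, ⟨0, 1, 0⟩, ⟨-1, 0, 0⟩⟩,
       ⟨⟨1, 0, 0⟩, ⟨0, -1, 0⟩, ⟨0, 0, 1⟩⟩, ⟨⟨1, 0, 0⟩, ⟨0, 1, 0⟩, ⟨0, 0, 1⟩⟩],
      [[4, 0, 4]]⟩,
     ⟨0, ⟨1, 0, 0⟩, 1, 0, ⟨⟨1, 0, 0⟩, ⟨0, 1, 0⟩, ⟨0, 0, 1⟩⟩, ⟨⟨0, 0, -1⟩, ⟨0, -1, 0⟩, ⟨-1, 0, 0⟩⟩, true⟩),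
    (⟨.c4b, .cub, 1, 1, 2, ⟨⟨0, 0, -1⟩, ⟨0, -1, 0⟩, ⟨-1, 0, 0⟩⟩, ⟨⟨0, 0, -1⟩, ⟨0, 1, 0⟩, ⟨-1, 0, 0⟩⟩, ⟨⟨⟨0, 0, -1⟩, ⟨-1, 0, 0⟩, ⟨0, 1, 0⟩⟩, ⟨2, 1, 3⟩⟩,
      [⟨⟨0, 0, -1⟩, ⟨0, -1, 0⟩, ⟨-1, 0, 0⟩⟩, ⟨⟨0, 0, -1⟩, ⟨0, 1, 0⟩, ⟨-1, 0, 0⟩⟩,
       ⟨⟨1, 0, 0⟩, ⟨0, -1, 0⟩, ⟨0, 0, 1⟩⟩, ⟨⟨1, 0, 0⟩, ⟨0, 1, 0⟩, ⟨0, 0, 1⟩⟩],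
      [[4, 0, 4]]⟩,
     ⟨0, ⟨1, 0, 0⟩, 1, 0, ⟨⟨1, 0, 0⟩, ⟨0, 1, 0⟩, ⟨0, 0, 1⟩⟩, ⟨⟨0, 0, -1⟩, ⟨0, 1, 0⟩, ⟨-1, 0, 0⟩⟩, false⟩),
    (⟨.c4b, .cub, 1, 1, 3, ⟨⟨0, 0, -1⟩, ⟨0, -1, 0⟩, ⟨-1, 0, 0⟩⟩, ⟨⟨0, 0, -1⟩, ⟨0, 1, 0⟩, ⟨-1, 0, 0⟩⟩, ⟨⟨⟨0, 1, 0⟩, ⟨0, 0, -1⟩, ⟨1, 0, 0⟩⟩, ⟨-1, -2, 2⟩⟩,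
      [⟨⟨0, 0, -1⟩, ⟨0, -1, 0⟩, ⟨-1, 0, 0⟩⟩, ⟨⟨0, 0, -1⟩, ⟨0, 1, 0⟩, ⟨-1, 0, 0⟩⟩,
       ⟨⟨1, 0, 0⟩, ⟨0, -1, 0⟩, ⟨0, 0, 1⟩⟩, ⟨⟨1, 0, 0⟩, ⟨0, 1, 0⟩, ⟨0, 0, 1⟩⟩],
      [[4, 0, 4]]⟩,
     ⟨0, ⟨1, 0, 0⟩, 1, 0, ⟨⟨1, 0, 0⟩, ⟨0, 1, 0⟩, ⟨0, 0, 1⟩⟩, ⟨⟨0, 0, -1⟩, ⟨0, 1, 0⟩, ⟨-1, 0, 0⟩⟩, true⟩),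
    (⟨.c4b, .cub, 1, 1, 3, ⟨⟨0, 0, -1⟩, ⟨0, -1, 0⟩, ⟨-1, 0, 0⟩⟩, ⟨⟨0, 0, -1⟩, ⟨0, 1, 0⟩, ⟨-1, 0, 0⟩⟩, ⟨⟨⟨0, 1, 0⟩, ⟨0, 0, -1⟩, ⟨1, 0, 0⟩⟩, ⟨2, 1, 5⟩⟩,
      [⟨⟨0, 0, -1⟩, ⟨0, -1, 0⟩, ⟨-1, 0, 0⟩⟩, ⟨⟨0, 0, -1⟩, ⟨0, 1, 0⟩, ⟨-1, 0, 0⟩⟩,
       ⟨⟨1, 0, 0⟩, ⟨0, -1, 0⟩, ⟨0, 0, 1⟩⟩, ⟨⟨1, 0, 0⟩, ⟨0, 1, 0⟩, ⟨0, 0, 1⟩⟩],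
      [[4, 0, 4]]⟩,
     ⟨0, ⟨1, 0, 0⟩, 1, 0, ⟨⟨1, 0, 0⟩, ⟨0, 1, 0⟩, ⟨0, 0, 1⟩⟩, ⟨⟨0, 0, -1⟩, ⟨0, 1, 0⟩, ⟨-1, 0, 0⟩⟩, false⟩),
    (⟨.c4b, .cub, 1, 1, 2, ⟨⟨0, 0, -1⟩, ⟨0, -1, 0⟩, ⟨-1, 0, 0⟩⟩, ⟨⟨0, 0, -1⟩, ⟨0, 1, 0⟩, ⟨-1, 0, 0⟩⟩, ⟨⟨⟨0, 1, 0⟩, ⟨0, 0, -1⟩, ⟨1, 0, 0⟩⟩, ⟨-3, -1, 4⟩⟩,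
      [⟨⟨0, 0, -1⟩, ⟨0, -1, 0⟩, ⟨-1, 0, 0⟩⟩, ⟨⟨0, 0, -1⟩, ⟨0, 1, 0⟩, ⟨-1, 0, 0⟩⟩,
       ⟨⟨1, 0, 0⟩, ⟨0, -1, 0⟩, ⟨0, 0, 1⟩⟩, ⟨⟨1, 0, 0⟩, ⟨0, 1, 0⟩, ⟨0, 0, 1⟩⟩],
      [[4, 0, 4]]⟩,
     ⟨0, ⟨1, 0, 0⟩, 1, 0, ⟨⟨1, 0, 0⟩, ⟨0, 1, 0⟩, ⟨0, 0, 1⟩⟩, ⟨⟨0, 0, -1⟩, ⟨0, 1, 0⟩, ⟨-1, 0, 0⟩⟩, true⟩),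
    (⟨.c2, .cub, 1, 1, 1, ⟨⟨0, -1, 0⟩, ⟨0, 0, 1⟩, ⟨1, 0, 0⟩⟩, ⟨⟨1, 0, 0⟩, ⟨0, 1, 0⟩, ⟨0, 0, 1⟩⟩, ⟨⟨⟨-1, 0, 0⟩, ⟨0, -1, 0⟩, ⟨0, 0, 1⟩⟩, ⟨0, -1, 0⟩⟩,
      [⟨⟨-1, 0, 0⟩, ⟨0, -1, 0⟩, ⟨0, 0, -1⟩⟩, ⟨⟨0, -1, 0⟩, ⟨0, 0, 1⟩, ⟨1, 0, 0⟩⟩,
       ⟨⟨0, 0, -1⟩, ⟨1, 0, 0⟩, ⟨0, -1, 0⟩⟩, ⟨⟨0, 0, 1⟩, ⟨-1, 0, 0⟩, ⟨0, 1, 0⟩⟩,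
       ⟨⟨0, 1, 0⟩, ⟨0, 0, -1⟩, ⟨-1, 0, 0⟩⟩, ⟨⟨1, 0, 0⟩, ⟨0, 1, 0⟩, ⟨0, 0, 1⟩⟩],
      [[4, 1, 4, 0, 4]]⟩,
     ⟨0, ⟨0, 0, 0⟩, 0, 0, ⟨⟨-1, 0, 0⟩, ⟨0, -1, 0⟩, ⟨0, 0, -1⟩⟩, ⟨⟨1, 0, 0⟩, ⟨0, 1, 0⟩, ⟨0, 0, 1⟩⟩, false⟩),
    (⟨.c4a, .cub, 1, 1, 1, ⟨⟨0, -1, 0⟩, ⟨0, 0, 1⟩, ⟨1, 0, 0⟩⟩, ⟨⟨1, 0, 0⟩, ⟨0, 1, 0⟩, ⟨0, 0, 1⟩⟩, ⟨⟨⟨-1, 0, 0⟩, ⟨0, -1, 0⟩, ⟨0, 0, 1⟩⟩, ⟨-2, -2, -1⟩⟩,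
      [⟨⟨-1, 0, 0⟩, ⟨0, -1, 0⟩, ⟨0, 0, -1⟩⟩, ⟨⟨0, -1, 0⟩, ⟨0, 0, 1⟩, ⟨1, 0, 0⟩⟩,
       ⟨⟨0, 0, -1⟩, ⟨1, 0, 0⟩, ⟨0, -1, 0⟩⟩, ⟨⟨0, 0, 1⟩, ⟨-1, 0, 0⟩, ⟨0, 1, 0⟩⟩,
       ⟨⟨0, 1, 0⟩, ⟨0, 0, -1⟩, ⟨-1, 0, 0⟩⟩, ⟨⟨1, 0, 0⟩, ⟨0, 1, 0⟩, ⟨0, 0, 1⟩⟩],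
      [[4, 4], [4, 4], [5, 0, 4]]⟩,
     ⟨0, ⟨0, 0, 2⟩, 0, 0, ⟨⟨1, 0, 0⟩, ⟨0, 1, 0⟩, ⟨0, 0, 1⟩⟩, ⟨⟨-1, 0, 0⟩, ⟨0, -1, 0⟩, ⟨0, 0, -1⟩⟩, true⟩),
    (⟨.c2, .cub, 1, 1, 1, ⟨⟨0, -1, 0⟩, ⟨0, 0, 1⟩, ⟨1, 0, 0⟩⟩, ⟨⟨1, 0, 0⟩, ⟨0, 1, 0⟩, ⟨0, 0, 1⟩⟩, ⟨⟨⟨-1, 0, 0⟩, ⟨0, -1, 0⟩, ⟨0, 0, 1⟩⟩, ⟨1, 0, 0⟩⟩,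
      [⟨⟨-1, 0, 0⟩, ⟨0, -1, 0⟩, ⟨0, 0, -1⟩⟩, ⟨⟨0, -1, 0⟩, ⟨0, 0, 1⟩, ⟨1, 0, 0⟩⟩,
       ⟨⟨0, 0, -1⟩, ⟨1, 0, 0⟩, ⟨0, -1, 0⟩⟩, ⟨⟨0, 0, 1⟩, ⟨-1, 0, 0⟩, ⟨0, 1, 0⟩⟩,
       ⟨⟨0, 1, 0⟩, ⟨0, 0, -1⟩, ⟨-1, 0, 0⟩⟩, ⟨⟨1, 0, 0⟩, ⟨0, 1, 0⟩, ⟨0, 0, 1⟩⟩],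
      [[4, 1, 4, 0, 4]]⟩,
     ⟨0, ⟨0, 0, 0⟩, 0, 0, ⟨⟨1, 0, 0⟩, ⟨0, 1, 0⟩, ⟨0, 0, 1⟩⟩, ⟨⟨-1, 0, 0⟩, ⟨0, -1, 0⟩, ⟨0, 0, -1⟩⟩, false⟩),
    (⟨.c4a, .cub, 1, 1, 2, ⟨⟨0, -1, 0⟩, ⟨0, 0, 1⟩, ⟨1, 0, 0⟩⟩, ⟨⟨1, 0, 0⟩, ⟨0, 1, 0⟩, ⟨0, 0, 1⟩⟩, ⟨⟨⟨-1, 0, 0⟩, ⟨0, 0, -1⟩, ⟨0, -1, 0⟩⟩, ⟨-2, -3, -1⟩⟩,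
      [⟨⟨-1, 0, 0⟩, ⟨0, -1, 0⟩, ⟨0, 0, -1⟩⟩, ⟨⟨0, -1, 0⟩, ⟨0, 0, 1⟩, ⟨1, 0, 0⟩⟩,
       ⟨⟨0, 0, -1⟩, ⟨1, 0, 0⟩, ⟨0, -1, 0⟩⟩, ⟨⟨0, 0, 1⟩, ⟨-1, 0, 0⟩, ⟨0, 1, 0⟩⟩,
       ⟨⟨0, 1, 0⟩, ⟨0, 0, -1⟩, ⟨-1, 0, 0⟩⟩, ⟨⟨1, 0, 0⟩, ⟨0, 1, 0⟩, ⟨0, 0, 1⟩⟩],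
      [[4, 4], [4, 4], [5, 0, 4]]⟩,
     ⟨0, ⟨0, 1, 0⟩, 0, 0, ⟨⟨1, 0, 0⟩, ⟨0, 1, 0⟩, ⟨0, 0, 1⟩⟩, ⟨⟨-1, 0, 0⟩, ⟨0, -1, 0⟩, ⟨0, 0, -1⟩⟩, true⟩),
    (⟨.c2, .cub, 1, 1, 2, ⟨⟨0, -1, 0⟩, ⟨0, 0, 1⟩, ⟨1, 0, 0⟩⟩, ⟨⟨1, 0, 0⟩, ⟨0, 1, 0⟩, ⟨0, 0, 1⟩⟩, ⟨⟨⟨0, 1, 0⟩, ⟨1, 0, 0⟩, ⟨0, 0, -1⟩⟩, ⟨-1, 1, 1⟩⟩,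
      [⟨⟨-1, 0, 0⟩, ⟨0, -1, 0⟩, ⟨0, 0, -1⟩⟩, ⟨⟨0, -1, 0⟩, ⟨0, 0, 1⟩, ⟨1, 0, 0⟩⟩,
       ⟨⟨0, 0, -1⟩, ⟨1, 0, 0⟩, ⟨0, -1, 0⟩⟩, ⟨⟨0, 0, 1⟩, ⟨-1, 0, 0⟩, ⟨0, 1, 0⟩⟩,
       ⟨⟨0, 1, 0⟩, ⟨0, 0, -1⟩, ⟨-1, 0, 0⟩⟩, ⟨⟨1, 0, 0⟩, ⟨0, 1, 0⟩, ⟨0, 0, 1⟩⟩],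
      [[4, 1, 4, 0, 4]]⟩,
     ⟨0, ⟨0, 0, 0⟩, 0, 0, ⟨⟨0, -1, 0⟩, ⟨0, 0, 1⟩, ⟨1, 0, 0⟩⟩, ⟨⟨0, 0, -1⟩, ⟨1, 0, 0⟩, ⟨0, -1, 0⟩⟩, false⟩),
    (⟨.c2, .cub, 1, 1, 2, ⟨⟨0, -1, 0⟩, ⟨0, 0, 1⟩, ⟨1, 0, 0⟩⟩, ⟨⟨1, 0, 0⟩, ⟨0, 1, 0⟩, ⟨0, 0, 1⟩⟩, ⟨⟨⟨-1, 0, 0⟩, ⟨0, 0, -1⟩, ⟨0, -1, 0⟩⟩, ⟨-1, 1, 1⟩⟩,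
      [⟨⟨-1, 0, 0⟩, ⟨0, -1, 0⟩, ⟨0, 0, -1⟩⟩, ⟨⟨0, -1, 0⟩, ⟨0, 0, 1⟩, ⟨1, 0, 0⟩⟩,
       ⟨⟨0, 0, -1⟩, ⟨1, 0, 0⟩, ⟨0, -1, 0⟩⟩, ⟨⟨0, 0, 1⟩, ⟨-1, 0, 0⟩, ⟨0, 1, 0⟩⟩,
       ⟨⟨0, 1, 0⟩, ⟨0, 0, -1⟩, ⟨-1, 0, 0⟩⟩, ⟨⟨1, 0, 0⟩, ⟨0, 1, 0⟩, ⟨0, 0, 1⟩⟩],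
      [[4, 1, 4, 0, 4]]⟩,
     ⟨0, ⟨0, 0, 0⟩, 0, 0, ⟨⟨1, 0, 0⟩, ⟨0, 1, 0⟩, ⟨0, 0, 1⟩⟩, ⟨⟨-1, 0, 0⟩, ⟨0, -1, 0⟩, ⟨0, 0, -1⟩⟩, false⟩),
    (⟨.c4a, .cub, 1, 1, 2, ⟨⟨0, -1, 0⟩, ⟨0, 0, 1⟩, ⟨1, 0, 0⟩⟩, ⟨⟨1, 0, 0⟩, ⟨0, 1, 0⟩, ⟨0, 0, 1⟩⟩, ⟨⟨⟨0, -1, 0⟩, ⟨1, 0, 0⟩, ⟨0, 0, 1⟩⟩, ⟨-1, 0, -2⟩⟩,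
      [⟨⟨-1, 0, 0⟩, ⟨0, -1, 0⟩, ⟨0, 0, -1⟩⟩, ⟨⟨0, -1, 0⟩, ⟨0, 0, 1⟩, ⟨1, 0, 0⟩⟩,
       ⟨⟨0, 0, -1⟩, ⟨1, 0, 0⟩, ⟨0, -1, 0⟩⟩, ⟨⟨0, 0, 1⟩, ⟨-1, 0, 0⟩, ⟨0, 1, 0⟩⟩,
       ⟨⟨0, 1, 0⟩, ⟨0, 0, -1⟩, ⟨-1, 0, 0⟩⟩, ⟨⟨1, 0, 0⟩, ⟨0, 1, 0⟩, ⟨0, 0, 1⟩⟩],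
      [[4, 4], [4, 4], [5, 0, 4]]⟩,
     ⟨0, ⟨0, 1, 0⟩, 0, 0, ⟨⟨1, 0, 0⟩, ⟨0, 1, 0⟩, ⟨0, 0, 1⟩⟩, ⟨⟨0, -1, 0⟩, ⟨0, 0, 1⟩, ⟨1, 0, 0⟩⟩, true⟩),
    (⟨.c21, .cub, 1, 1, 2, ⟨⟨-1, 0, 0⟩, ⟨0, 0, 1⟩, ⟨0, 1, 0⟩⟩, ⟨⟨0, -1, 0⟩, ⟨-1, 0, 0⟩, ⟨0, 0, -1⟩⟩, ⟨⟨⟨1, 0, 0⟩, ⟨0, 1, 0⟩, ⟨0, 0, -1⟩⟩, ⟨0, 0, 1⟩⟩,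
      [⟨⟨-1, 0, 0⟩, ⟨0, 0, 1⟩, ⟨0, 1, 0⟩⟩, ⟨⟨0, -1, 0⟩, ⟨-1, 0, 0⟩, ⟨0, 0, -1⟩⟩,
       ⟨⟨0, 0, -1⟩, ⟨1, 0, 0⟩, ⟨0, -1, 0⟩⟩, ⟨⟨0, 0, 1⟩, ⟨0, -1, 0⟩, ⟨1, 0, 0⟩⟩,
       ⟨⟨0, 1, 0⟩, ⟨0, 0, -1⟩, ⟨-1, 0, 0⟩⟩, ⟨⟨1, 0, 0⟩, ⟨0, 1, 0⟩, ⟨0, 0, 1⟩⟩],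
      [[4, 0, 4]]⟩,
     ⟨0, ⟨0, 0, 0⟩, 0, 0, ⟨⟨1, 0, 0⟩, ⟨0, 1, 0⟩, ⟨0, 0, 1⟩⟩, ⟨⟨1, 0, 0⟩, ⟨0, 1, 0⟩, ⟨0, 0, 1⟩⟩, false⟩),
    (⟨.c4b, .cub, 1, 1, 2, ⟨⟨-1, 0, 0⟩, ⟨0, 0, 1⟩, ⟨0, 1, 0⟩⟩, ⟨⟨0, -1, 0⟩, ⟨-1, 0, 0⟩, ⟨0, 0, -1⟩⟩, ⟨⟨⟨0, 1, 0⟩, ⟨0, 0, -1⟩, ⟨1, 0, 0⟩⟩, ⟨1, 1, 2⟩⟩,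
      [⟨⟨-1, 0, 0⟩, ⟨0, 0, 1⟩, ⟨0, 1, 0⟩⟩, ⟨⟨0, -1, 0⟩, ⟨-1, 0, 0⟩, ⟨0, 0, -1⟩⟩,
       ⟨⟨0, 0, -1⟩, ⟨1, 0, 0⟩, ⟨0, -1, 0⟩⟩, ⟨⟨0, 0, 1⟩, ⟨0, -1, 0⟩, ⟨1, 0, 0⟩⟩,
       ⟨⟨0, 1, 0⟩, ⟨0, 0, -1⟩, ⟨-1, 0, 0⟩⟩, ⟨⟨1, 0, 0⟩, ⟨0, 1, 0⟩, ⟨0, 0, 1⟩⟩],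
      [[5, 0, 4]]⟩,
     ⟨0, ⟨1, 0, 0⟩, 0, 0, ⟨⟨1, 0, 0⟩, ⟨0, 1, 0⟩, ⟨0, 0, 1⟩⟩, ⟨⟨0, 1, 0⟩, ⟨0, 0, -1⟩, ⟨-1, 0, 0⟩⟩, false⟩),
    (⟨.reg, .cub, 1, 1, 1, ⟨⟨-1, 0, 0⟩, ⟨0, 0, 1⟩, ⟨0, 1, 0⟩⟩, ⟨⟨0, -1, 0⟩, ⟨-1, 0, 0⟩, ⟨0, 0, -1⟩⟩, ⟨⟨⟨0, 1, 0⟩, ⟨1, 0, 0⟩, ⟨0, 0, -1⟩⟩, ⟨-1, 1, 0⟩⟩,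
      [⟨⟨-1, 0, 0⟩, ⟨0, 0, 1⟩, ⟨0, 1, 0⟩⟩, ⟨⟨0, -1, 0⟩, ⟨-1, 0, 0⟩, ⟨0, 0, -1⟩⟩,
       ⟨⟨0, 0, -1⟩, ⟨1, 0, 0⟩, ⟨0, -1, 0⟩⟩, ⟨⟨0, 0, 1⟩, ⟨0, -1, 0⟩, ⟨1, 0, 0⟩⟩,
       ⟨⟨0, 1, 0⟩, ⟨0, 0, -1⟩, ⟨-1, 0, 0⟩⟩, ⟨⟨1, 0, 0⟩, ⟨0, 1, 0⟩, ⟨0, 0, 1⟩⟩],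
      []⟩,
     ⟨0, ⟨0, 1, 0⟩, 0, 0, ⟨⟨-1, 0, 0⟩, ⟨0, 0, 1⟩, ⟨0, 1, 0⟩⟩, ⟨⟨0, -1, 0⟩, ⟨-1, 0, 0⟩, ⟨0, 0, -1⟩⟩, false⟩),
    (⟨.c21, .cub, 1, 1, 2, ⟨⟨0, -1, 0⟩, ⟨-1, 0, 0⟩, ⟨0, 0, 1⟩⟩, ⟨⟨0, 0, 1⟩, ⟨0, 1, 0⟩, ⟨1, 0, 0⟩⟩, ⟨⟨⟨0, -1, 0⟩, ⟨-1, 0, 0⟩, ⟨0, 0, -1⟩⟩, ⟨-1, -1, 0⟩⟩,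
      [⟨⟨0, -1, 0⟩, ⟨-1, 0, 0⟩, ⟨0, 0, 1⟩⟩, ⟨⟨0, -1, 0⟩, ⟨0, 0, -1⟩, ⟨1, 0, 0⟩⟩,
       ⟨⟨0, 0, 1⟩, ⟨-1, 0, 0⟩, ⟨0, -1, 0⟩⟩, ⟨⟨0, 0, 1⟩, ⟨0, 1, 0⟩, ⟨1, 0, 0⟩⟩,
       ⟨⟨1, 0, 0⟩, ⟨0, 0, -1⟩, ⟨0, -1, 0⟩⟩, ⟨⟨1, 0, 0⟩, ⟨0, 1, 0⟩, ⟨0, 0, 1⟩⟩],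
      [[4, 0, 4]]⟩,
     ⟨0, ⟨0, 0, 0⟩, 0, 0, ⟨⟨0, -1, 0⟩, ⟨-1, 0, 0⟩, ⟨0, 0, 1⟩⟩, ⟨⟨1, 0, 0⟩, ⟨0, 1, 0⟩, ⟨0, 0, 1⟩⟩, false⟩),
    (⟨.c21, .cub, 1, 1, 2, ⟨⟨0, -1, 0⟩, ⟨-1, 0, 0⟩, ⟨0, 0, 1⟩⟩, ⟨⟨0, 0, 1⟩, ⟨0, 1, 0⟩, ⟨1, 0, 0⟩⟩, ⟨⟨⟨0, -1, 0⟩, ⟨-1, 0, 0⟩, ⟨0, 0, -1⟩⟩, ⟨2, 2, 1⟩⟩,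
      [⟨⟨0, -1, 0⟩, ⟨-1, 0, 0⟩, ⟨0, 0, 1⟩⟩, ⟨⟨0, -1, 0⟩, ⟨0, 0, -1⟩, ⟨1, 0, 0⟩⟩,
       ⟨⟨0, 0, 1⟩, ⟨-1, 0, 0⟩, ⟨0, -1, 0⟩⟩, ⟨⟨0, 0, 1⟩, ⟨0, 1, 0⟩, ⟨1, 0, 0⟩⟩,
       ⟨⟨1, 0, 0⟩, ⟨0, 0, -1⟩, ⟨0, -1, 0⟩⟩, ⟨⟨1, 0, 0⟩, ⟨0, 1, 0⟩, ⟨0, 0, 1⟩⟩],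
      [[4, 0, 4]]⟩,
     ⟨0, ⟨1, 0, 0⟩, 1, 0, ⟨⟨1, 0, 0⟩, ⟨0, 1, 0⟩, ⟨0, 0, 1⟩⟩, ⟨⟨0, -1, 0⟩, ⟨-1, 0, 0⟩, ⟨0, 0, 1⟩⟩, false⟩),
    (⟨.c22, .cub, 1, 1, 2, ⟨⟨1, 0, 0⟩, ⟨0, 0, -1⟩, ⟨0, -1, 0⟩⟩, ⟨⟨0, -1, 0⟩, ⟨-1, 0, 0⟩, ⟨0, 0, 1⟩⟩, ⟨⟨⟨0, 0, 1⟩, ⟨1, 0, 0⟩, ⟨0, 1, 0⟩⟩, ⟨-2, -1, 1⟩⟩,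
      [⟨⟨0, -1, 0⟩, ⟨-1, 0, 0⟩, ⟨0, 0, 1⟩⟩, ⟨⟨0, -1, 0⟩, ⟨0, 0, -1⟩, ⟨1, 0, 0⟩⟩,
       ⟨⟨0, 0, 1⟩, ⟨-1, 0, 0⟩, ⟨0, -1, 0⟩⟩, ⟨⟨0, 0, 1⟩, ⟨0, 1, 0⟩, ⟨1, 0, 0⟩⟩,
       ⟨⟨1, 0, 0⟩, ⟨0, 0, -1⟩, ⟨0, -1, 0⟩⟩, ⟨⟨1, 0, 0⟩, ⟨0, 1, 0⟩, ⟨0, 0, 1⟩⟩],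
      [[5, 2, 4]]⟩,
     ⟨0, ⟨1, 0, 0⟩, 1, 0, ⟨⟨1, 0, 0⟩, ⟨0, 0, -1⟩, ⟨0, -1, 0⟩⟩, ⟨⟨0, 0, 1⟩, ⟨-1, 0, 0⟩, ⟨0, -1, 0⟩⟩, true⟩),
    (⟨.c4b, .cub, 1, 1, 2, ⟨⟨0, -1, 0⟩, ⟨-1, 0, 0⟩, ⟨0, 0, 1⟩⟩, ⟨⟨0, 0, 1⟩, ⟨0, 1, 0⟩, ⟨1, 0, 0⟩⟩, ⟨⟨⟨0, 0, 1⟩, ⟨0, -1, 0⟩, ⟨-1, 0, 0⟩⟩, ⟨2, 1, 1⟩⟩,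
      [⟨⟨0, -1, 0⟩, ⟨-1, 0, 0⟩, ⟨0, 0, 1⟩⟩, ⟨⟨0, -1, 0⟩, ⟨0, 0, -1⟩, ⟨1, 0, 0⟩⟩,
       ⟨⟨0, 0, 1⟩, ⟨-1, 0, 0⟩, ⟨0, -1, 0⟩⟩, ⟨⟨0, 0, 1⟩, ⟨0, 1, 0⟩, ⟨1, 0, 0⟩⟩,
       ⟨⟨1, 0, 0⟩, ⟨0, 0, -1⟩, ⟨0, -1, 0⟩⟩, ⟨⟨1, 0, 0⟩, ⟨0, 1, 0⟩, ⟨0, 0, 1⟩⟩],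
      [[4, 0, 4]]⟩,
     ⟨0, ⟨1, 0, 0⟩, 1, 0, ⟨⟨1, 0, 0⟩, ⟨0, 1, 0⟩, ⟨0, 0, 1⟩⟩, ⟨⟨0, 0, 1⟩, ⟨-1, 0, 0⟩, ⟨0, -1, 0⟩⟩, false⟩),
    (⟨.c4b, .cub, 1, 1, 2, ⟨⟨0, -1, 0⟩, ⟨-1, 0, 0⟩, ⟨0, 0, 1⟩⟩, ⟨⟨0, 0, 1⟩, ⟨0, 1, 0⟩, ⟨1, 0, 0⟩⟩, ⟨⟨⟨0, 0, 1⟩, ⟨0, -1, 0⟩, ⟨-1, 0, 0⟩⟩, ⟨-2, -3, -1⟩⟩,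
      [⟨⟨0, -1, 0⟩, ⟨-1, 0, 0⟩, ⟨0, 0, 1⟩⟩, ⟨⟨0, -1, 0⟩, ⟨0, 0, -1⟩, ⟨1, 0, 0⟩⟩,
       ⟨⟨0, 0, 1⟩, ⟨-1, 0, 0⟩, ⟨0, -1, 0⟩⟩, ⟨⟨0, 0, 1⟩, ⟨0, 1, 0⟩, ⟨1, 0, 0⟩⟩,
       ⟨⟨1, 0, 0⟩, ⟨0, 0, -1⟩, ⟨0, -1, 0⟩⟩, ⟨⟨1, 0, 0⟩, ⟨0, 1, 0⟩, ⟨0, 0, 1⟩⟩],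
      [[4, 0, 4]]⟩,
     ⟨0, ⟨1, 0, 0⟩, 1, 0, ⟨⟨1, 0, 0⟩, ⟨0, 1, 0⟩, ⟨0, 0, 1⟩⟩, ⟨⟨0, 0, 1⟩, ⟨-1, 0, 0⟩, ⟨0, -1, 0⟩⟩, true⟩),
    (⟨.c4b, .cub, 1, 1, 2, ⟨⟨-1, 0, 0⟩, ⟨0, -1, 0⟩, ⟨0, 0, 1⟩⟩, ⟨⟨0, 0, -1⟩, ⟨0, -1, 0⟩, ⟨-1, 0, 0⟩⟩, ⟨⟨⟨-1, 0, 0⟩, ⟨0, 0, -1⟩, ⟨0, 1, 0⟩⟩, ⟨1, 2, 0⟩⟩,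
      [⟨⟨-1, 0, 0⟩, ⟨0, -1, 0⟩, ⟨0, 0, 1⟩⟩, ⟨⟨-1, 0, 0⟩, ⟨0, 1, 0⟩, ⟨0, 0, -1⟩⟩,
       ⟨⟨0, 0, -1⟩, ⟨0, -1, 0⟩, ⟨-1, 0, 0⟩⟩, ⟨⟨0, 0, -1⟩, ⟨0, 1, 0⟩, ⟨1, 0, 0⟩⟩,
       ⟨⟨0, 0, 1⟩, ⟨0, -1, 0⟩, ⟨1, 0, 0⟩⟩, ⟨⟨0, 0, 1⟩, ⟨0, 1, 0⟩, ⟨-1, 0, 0⟩⟩,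
       ⟨⟨1, 0, 0⟩, ⟨0, -1, 0⟩, ⟨0, 0, -1⟩⟩, ⟨⟨1, 0, 0⟩, ⟨0, 1, 0⟩, ⟨0, 0, 1⟩⟩],
      [[4, 0, 4]]⟩,
     ⟨0, ⟨0, 1, 0⟩, 0, 0, ⟨⟨1, 0, 0⟩, ⟨0, 1, 0⟩, ⟨0, 0, 1⟩⟩, ⟨⟨-1, 0, 0⟩, ⟨0, 1, 0⟩, ⟨0, 0, -1⟩⟩, false⟩),
    (⟨.reg, .cub, 1, 1, 1, ⟨⟨0, 0, -1⟩, ⟨0, -1, 0⟩, ⟨-1, 0, 0⟩⟩, ⟨⟨-1, 0, 0⟩, ⟨0, -1, 0⟩, ⟨0, 0, 1⟩⟩, ⟨⟨⟨0, 1, 0⟩, ⟨1, 0, 0⟩, ⟨0, 0, -1⟩⟩, ⟨0, 0, 1⟩⟩,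
      [⟨⟨-1, 0, 0⟩, ⟨0, -1, 0⟩, ⟨0, 0, 1⟩⟩, ⟨⟨-1, 0, 0⟩, ⟨0, 1, 0⟩, ⟨0, 0, -1⟩⟩,
       ⟨⟨0, 0, -1⟩, ⟨0, -1, 0⟩, ⟨-1, 0, 0⟩⟩, ⟨⟨0, 0, -1⟩, ⟨0, 1, 0⟩, ⟨1, 0, 0⟩⟩,
       ⟨⟨0, 0, 1⟩, ⟨0, -1, 0⟩, ⟨1, 0, 0⟩⟩, ⟨⟨0, 0, 1⟩, ⟨0, 1, 0⟩, ⟨-1, 0, 0⟩⟩,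
       ⟨⟨1, 0, 0⟩, ⟨0, -1, 0⟩, ⟨0, 0, -1⟩⟩, ⟨⟨1, 0, 0⟩, ⟨0, 1, 0⟩, ⟨0, 0, 1⟩⟩],
      []⟩,
     ⟨0, ⟨0, 0, 0⟩, 0, 0, ⟨⟨0, 0, -1⟩, ⟨0, 1, 0⟩, ⟨1, 0, 0⟩⟩, ⟨⟨0, 0, -1⟩, ⟨0, 1, 0⟩, ⟨1, 0, 0⟩⟩, false⟩),
    (⟨.c21, .cub, 1, 1, 1, ⟨⟨-1, 0, 0⟩, ⟨0, -1, 0⟩, ⟨0, 0, 1⟩⟩, ⟨⟨0, 0, -1⟩, ⟨0, 1, 0⟩, ⟨-1, 0, 0⟩⟩, ⟨⟨⟨1, 0, 0⟩, ⟨0, 0, -1⟩, ⟨0, -1, 0⟩⟩, ⟨0, 1, 1⟩⟩,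
      [⟨⟨-1, 0, 0⟩, ⟨0, -1, 0⟩, ⟨0, 0, 1⟩⟩, ⟨⟨-1, 0, 0⟩, ⟨0, 1, 0⟩, ⟨0, 0, -1⟩⟩,
       ⟨⟨0, 0, -1⟩, ⟨0, -1, 0⟩, ⟨1, 0, 0⟩⟩, ⟨⟨0, 0, -1⟩, ⟨0, 1, 0⟩, ⟨-1, 0, 0⟩⟩,
       ⟨⟨0, 0, 1⟩, ⟨0, -1, 0⟩, ⟨-1, 0, 0⟩⟩, ⟨⟨0, 0, 1⟩, ⟨0, 1, 0⟩, ⟨1, 0, 0⟩⟩,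
       ⟨⟨1, 0, 0⟩, ⟨0, -1, 0⟩, ⟨0, 0, -1⟩⟩, ⟨⟨1, 0, 0⟩, ⟨0, 1, 0⟩, ⟨0, 0, 1⟩⟩],
      [[4, 0, 4]]⟩,
     ⟨0, ⟨1, 0, 0⟩, 0, 0, ⟨⟨1, 0, 0⟩, ⟨0, 1, 0⟩, ⟨0, 0, 1⟩⟩, ⟨⟨1, 0, 0⟩, ⟨0, -1, 0⟩, ⟨0, 0, -1⟩⟩, false⟩),
    (⟨.reg, .cub, 1, 1, 2, ⟨⟨0, 0, -1⟩, ⟨0, 1, 0⟩, ⟨-1, 0, 0⟩⟩, ⟨⟨-1, 0, 0⟩, ⟨0, -1, 0⟩, ⟨0, 0, 1⟩⟩, ⟨⟨⟨0, -1, 0⟩, ⟨-1, 0, 0⟩, ⟨0, 0, -1⟩⟩, ⟨0, 0, 1⟩⟩,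
      [⟨⟨-1, 0, 0⟩, ⟨0, -1, 0⟩, ⟨0, 0, 1⟩⟩, ⟨⟨-1, 0, 0⟩, ⟨0, 1, 0⟩, ⟨0, 0, -1⟩⟩,
       ⟨⟨0, 0, -1⟩, ⟨0, -1, 0⟩, ⟨1, 0, 0⟩⟩, ⟨⟨0, 0, -1⟩, ⟨0, 1, 0⟩, ⟨-1, 0, 0⟩⟩,
       ⟨⟨0, 0, 1⟩, ⟨0, -1, 0⟩, ⟨-1, 0, 0⟩⟩, ⟨⟨0, 0, 1⟩, ⟨0, 1, 0⟩, ⟨1, 0, 0⟩⟩,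
       ⟨⟨1, 0, 0⟩, ⟨0, -1, 0⟩, ⟨0, 0, -1⟩⟩, ⟨⟨1, 0, 0⟩, ⟨0, 1, 0⟩, ⟨0, 0, 1⟩⟩],
      []⟩,
     ⟨0, ⟨0, 0, 0⟩, 0, 0, ⟨⟨0, 0, -1⟩, ⟨0, -1, 0⟩, ⟨1, 0, 0⟩⟩, ⟨⟨0, 0, -1⟩, ⟨0, -1, 0⟩, ⟨1, 0, 0⟩⟩, false⟩),
    (⟨.reg, .cub, 1, 1, 2, ⟨⟨0, -1, 0⟩, ⟨-1, 0, 0⟩, ⟨0, 0, -1⟩⟩, ⟨⟨-1, 0, 0⟩, ⟨0, 1, 0⟩, ⟨0, 0, 1⟩⟩, ⟨⟨⟨-1, 0, 0⟩, ⟨0, 0, 1⟩, ⟨0, 1, 0⟩⟩, ⟨0, 1, -1⟩⟩,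
      [⟨⟨-1, 0, 0⟩, ⟨0, -1, 0⟩, ⟨0, 0, 1⟩⟩, ⟨⟨-1, 0, 0⟩, ⟨0, 1, 0⟩, ⟨0, 0, 1⟩⟩,
       ⟨⟨0, -1, 0⟩, ⟨-1, 0, 0⟩, ⟨0, 0, -1⟩⟩, ⟨⟨0, -1, 0⟩, ⟨1, 0, 0⟩, ⟨0, 0, -1⟩⟩,
       ⟨⟨0, 1, 0⟩, ⟨-1, 0, 0⟩, ⟨0, 0, -1⟩⟩, ⟨⟨0, 1, 0⟩, ⟨1, 0, 0⟩, ⟨0, 0, -1⟩⟩,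
       ⟨⟨1, 0, 0⟩, ⟨0, -1, 0⟩, ⟨0, 0, 1⟩⟩, ⟨⟨1, 0, 0⟩, ⟨0, 1, 0⟩, ⟨0, 0, 1⟩⟩],
      []⟩,
     ⟨0, ⟨0, 0, 0⟩, 0, 0, ⟨⟨-1, 0, 0⟩, ⟨0, 1, 0⟩, ⟨0, 0, 1⟩⟩, ⟨⟨1, 0, 0⟩, ⟨0, 1, 0⟩, ⟨0, 0, 1⟩⟩, false⟩),
    (⟨.c4b, .cub, 1, 1, 2, ⟨⟨-1, 0, 0⟩, ⟨0, 1, 0⟩, ⟨0, 0, 1⟩⟩, ⟨⟨0, -1, 0⟩, ⟨-1, 0, 0⟩, ⟨0, 0, -1⟩⟩, ⟨⟨⟨0, 1, 0⟩, ⟨0, 0, -1⟩, ⟨-1, 0, 0⟩⟩, ⟨-2, -3, -1⟩⟩,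
      [⟨⟨-1, 0, 0⟩, ⟨0, -1, 0⟩, ⟨0, 0, 1⟩⟩, ⟨⟨-1, 0, 0⟩, ⟨0, 1, 0⟩, ⟨0, 0, 1⟩⟩,
       ⟨⟨0, -1, 0⟩, ⟨-1, 0, 0⟩, ⟨0, 0, -1⟩⟩, ⟨⟨0, -1, 0⟩, ⟨1, 0, 0⟩, ⟨0, 0, -1⟩⟩,
       ⟨⟨0, 1, 0⟩, ⟨-1, 0, 0⟩, ⟨0, 0, -1⟩⟩, ⟨⟨0, 1, 0⟩, ⟨1, 0, 0⟩, ⟨0, 0, -1⟩⟩,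
       ⟨⟨1, 0, 0⟩, ⟨0, -1, 0⟩, ⟨0, 0, 1⟩⟩, ⟨⟨1, 0, 0⟩, ⟨0, 1, 0⟩, ⟨0, 0, 1⟩⟩],
      [[4, 0, 4]]⟩,
     ⟨0, ⟨0, 1, 0⟩, 0, 0, ⟨⟨1, 0, 0⟩, ⟨0, 1, 0⟩, ⟨0, 0, 1⟩⟩, ⟨⟨0, 1, 0⟩, ⟨-1, 0, 0⟩, ⟨0, 0, -1⟩⟩, true⟩),
    (⟨.c21, .cub, 1, 1, 3, ⟨⟨-1, 0, 0⟩, ⟨0, 1, 0⟩, ⟨0, 0, 1⟩⟩, ⟨⟨0, -1, 0⟩, ⟨-1, 0, 0⟩, ⟨0, 0, 1⟩⟩, ⟨⟨⟨-1, 0, 0⟩, ⟨0, 0, 1⟩, ⟨0, 1, 0⟩⟩, ⟨-3, -1, 1⟩⟩,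
      [⟨⟨-1, 0, 0⟩, ⟨0, -1, 0⟩, ⟨0, 0, 1⟩⟩, ⟨⟨-1, 0, 0⟩, ⟨0, 1, 0⟩, ⟨0, 0, 1⟩⟩,
       ⟨⟨0, -1, 0⟩, ⟨-1, 0, 0⟩, ⟨0, 0, 1⟩⟩, ⟨⟨0, -1, 0⟩, ⟨1, 0, 0⟩, ⟨0, 0, 1⟩⟩,
       ⟨⟨0, 1, 0⟩, ⟨-1, 0, 0⟩, ⟨0, 0, 1⟩⟩, ⟨⟨0, 1, 0⟩, ⟨1, 0, 0⟩, ⟨0, 0, 1⟩⟩,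
       ⟨⟨1, 0, 0⟩, ⟨0, -1, 0⟩, ⟨0, 0, 1⟩⟩, ⟨⟨1, 0, 0⟩, ⟨0, 1, 0⟩, ⟨0, 0, 1⟩⟩],
      [[4, 0, 4]]⟩,
     ⟨0, ⟨1, 0, 0⟩, 1, 0, ⟨⟨-1, 0, 0⟩, ⟨0, 1, 0⟩, ⟨0, 0, 1⟩⟩, ⟨⟨1, 0, 0⟩, ⟨0, 1, 0⟩, ⟨0, 0, 1⟩⟩, false⟩),
    (⟨.c4b, .cub, 1, 1, 2, ⟨⟨-1, 0, 0⟩, ⟨0, 1, 0⟩, ⟨0, 0, 1⟩⟩, ⟨⟨0, -1, 0⟩, ⟨-1, 0, 0⟩, ⟨0, 0, 1⟩⟩, ⟨⟨⟨0, -1, 0⟩, ⟨0, 0, 1⟩, ⟨-1, 0, 0⟩⟩, ⟨-2, -1, -1⟩⟩,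
      [⟨⟨-1, 0, 0⟩, ⟨0, -1, 0⟩, ⟨0, 0, 1⟩⟩, ⟨⟨-1, 0, 0⟩, ⟨0, 1, 0⟩, ⟨0, 0, 1⟩⟩,
       ⟨⟨0, -1, 0⟩, ⟨-1, 0, 0⟩, ⟨0, 0, 1⟩⟩, ⟨⟨0, -1, 0⟩, ⟨1, 0, 0⟩, ⟨0, 0, 1⟩⟩,
       ⟨⟨0, 1, 0⟩, ⟨-1, 0, 0⟩, ⟨0, 0, 1⟩⟩, ⟨⟨0, 1, 0⟩, ⟨1, 0, 0⟩, ⟨0, 0, 1⟩⟩,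
       ⟨⟨1, 0, 0⟩, ⟨0, -1, 0⟩, ⟨0, 0, 1⟩⟩, ⟨⟨1, 0, 0⟩, ⟨0, 1, 0⟩, ⟨0, 0, 1⟩⟩],
      [[4, 0, 4]]⟩,
     ⟨0, ⟨1, 0, 0⟩, 1, 0, ⟨⟨1, 0, 0⟩, ⟨0, 1, 0⟩, ⟨0, 0, 1⟩⟩, ⟨⟨0, -1, 0⟩, ⟨-1, 0, 0⟩, ⟨0, 0, 1⟩⟩, true⟩),
    (⟨.c4b, .cub, 1, 1, 2, ⟨⟨-1, 0, 0⟩, ⟨0, 1, 0⟩, ⟨0, 0, 1⟩⟩, ⟨⟨0, -1, 0⟩, ⟨-1, 0, 0⟩, ⟨0, 0, 1⟩⟩, ⟨⟨⟨0, 1, 0⟩, ⟨0, 0, 1⟩, ⟨1, 0, 0⟩⟩, ⟨2, 1, 3⟩⟩,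
      [⟨⟨-1, 0, 0⟩, ⟨0, -1, 0⟩, ⟨0, 0, 1⟩⟩, ⟨⟨-1, 0, 0⟩, ⟨0, 1, 0⟩, ⟨0, 0, 1⟩⟩,
       ⟨⟨0, -1, 0⟩, ⟨-1, 0, 0⟩, ⟨0, 0, 1⟩⟩, ⟨⟨0, -1, 0⟩, ⟨1, 0, 0⟩, ⟨0, 0, 1⟩⟩,
       ⟨⟨0, 1, 0⟩, ⟨-1, 0, 0⟩, ⟨0, 0, 1⟩⟩, ⟨⟨0, 1, 0⟩, ⟨1, 0, 0⟩, ⟨0, 0, 1⟩⟩,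
       ⟨⟨1, 0, 0⟩, ⟨0, -1, 0⟩, ⟨0, 0, 1⟩⟩, ⟨⟨1, 0, 0⟩, ⟨0, 1, 0⟩, ⟨0, 0, 1⟩⟩],
      [[4, 0, 4]]⟩,
     ⟨0, ⟨1, 0, 0⟩, 1, 0, ⟨⟨1, 0, 0⟩, ⟨0, 1, 0⟩, ⟨0, 0, 1⟩⟩, ⟨⟨0, 1, 0⟩, ⟨1, 0, 0⟩, ⟨0, 0, 1⟩⟩, false⟩),
    (⟨.reg, .cub, 1, 1, 1, ⟨⟨-1, 0, 0⟩, ⟨0, 0, 1⟩, ⟨0, 1, 0⟩⟩, ⟨⟨0, -1, 0⟩, ⟨-1, 0, 0⟩, ⟨0, 0, 1⟩⟩, ⟨⟨⟨1, 0, 0⟩, ⟨0, 1, 0⟩, ⟨0, 0, -1⟩⟩, ⟨0, 0, 1⟩⟩,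
      [⟨⟨-1, 0, 0⟩, ⟨0, -1, 0⟩, ⟨0, 0, -1⟩⟩, ⟨⟨-1, 0, 0⟩, ⟨0, 0, 1⟩, ⟨0, 1, 0⟩⟩,
       ⟨⟨0, -1, 0⟩, ⟨-1, 0, 0⟩, ⟨0, 0, 1⟩⟩, ⟨⟨0, -1, 0⟩, ⟨0, 0, -1⟩, ⟨1, 0, 0⟩⟩,
       ⟨⟨0, 0, -1⟩, ⟨0, -1, 0⟩, ⟨-1, 0, 0⟩⟩, ⟨⟨0, 0, -1⟩, ⟨1, 0, 0⟩, ⟨0, 1, 0⟩⟩,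
       ⟨⟨0, 0, 1⟩, ⟨-1, 0, 0⟩, ⟨0, -1, 0⟩⟩, ⟨⟨0, 0, 1⟩, ⟨0, 1, 0⟩, ⟨1, 0, 0⟩⟩,
       ⟨⟨0, 1, 0⟩, ⟨0, 0, 1⟩, ⟨-1, 0, 0⟩⟩, ⟨⟨0, 1, 0⟩, ⟨1, 0, 0⟩, ⟨0, 0, -1⟩⟩,
       ⟨⟨1, 0, 0⟩, ⟨0, 0, -1⟩, ⟨0, -1, 0⟩⟩, ⟨⟨1, 0, 0⟩, ⟨0, 1, 0⟩, ⟨0, 0, 1⟩⟩],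
      []⟩,
     ⟨0, ⟨0, 0, 0⟩, 0, 0, ⟨⟨0, -1, 0⟩, ⟨-1, 0, 0⟩, ⟨0, 0, 1⟩⟩, ⟨⟨0, -1, 0⟩, ⟨-1, 0, 0⟩, ⟨0, 0, 1⟩⟩, false⟩)
  ]

/-- One example for each family of each tetragonal block. -/
def tetFamEx : List (Data × Pos) :=
  [
    (⟨.c4b, .tet, 1, 1, 2, ⟨⟨-1, 0, 0⟩, ⟨0, 1, 0⟩, ⟨0, 0, -1⟩⟩, ⟨⟨-1, 0, 0⟩, ⟨0, 1, 0⟩, ⟨0, 0, -1⟩⟩, ⟨⟨⟨0, 1, 0⟩, ⟨1, 0, 0⟩, ⟨0, 0, 1⟩⟩, ⟨0, -2, -1⟩⟩,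
      [⟨⟨-1, 0, 0⟩, ⟨0, 1, 0⟩, ⟨0, 0, -1⟩⟩, ⟨⟨1, 0, 0⟩, ⟨0, 1, 0⟩, ⟨0, 0, 1⟩⟩],
      [[5, 0, 4]]⟩,
     ⟨0, ⟨0, 0, 0⟩, 0, 0, ⟨⟨1, 0, 0⟩, ⟨0, 1, 0⟩, ⟨0, 0, 1⟩⟩, ⟨⟨1, 0, 0⟩, ⟨0, 1, 0⟩, ⟨0, 0, 1⟩⟩, true⟩),
    (⟨.c4b, .tet, 1, 1, 4, ⟨⟨-1, 0, 0⟩, ⟨0, 1, 0⟩, ⟨0, 0, -1⟩⟩, ⟨⟨-1, 0, 0⟩, ⟨0, 1, 0⟩, ⟨0, 0, -1⟩⟩, ⟨⟨⟨0, 1, 0⟩, ⟨1, 0, 0⟩, ⟨0, 0, -1⟩⟩, ⟨4, 0, 1⟩⟩,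
      [⟨⟨-1, 0, 0⟩, ⟨0, 1, 0⟩, ⟨0, 0, -1⟩⟩, ⟨⟨1, 0, 0⟩, ⟨0, 1, 0⟩, ⟨0, 0, 1⟩⟩],
      [[5, 0, 4]]⟩,
     ⟨0, ⟨0, 0, 0⟩, 0, 0, ⟨⟨1, 0, 0⟩, ⟨0, 1, 0⟩, ⟨0, 0, 1⟩⟩, ⟨⟨1, 0, 0⟩, ⟨0, 1, 0⟩, ⟨0, 0, 1⟩⟩, false⟩),
    (⟨.c4b, .tet, 1, 1, 6, ⟨⟨-1, 0, 0⟩, ⟨0, 1, 0⟩, ⟨0, 0, 1⟩⟩, ⟨⟨-1, 0, 0⟩, ⟨0, 1, 0⟩, ⟨0, 0, 1⟩⟩, ⟨⟨⟨0, 1, 0⟩, ⟨-1, 0, 0⟩, ⟨0, 0, 1⟩⟩, ⟨4, 2, 3⟩⟩,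
      [⟨⟨-1, 0, 0⟩, ⟨0, 1, 0⟩, ⟨0, 0, 1⟩⟩, ⟨⟨1, 0, 0⟩, ⟨0, 1, 0⟩, ⟨0, 0, 1⟩⟩],
      [[5, 0, 4]]⟩,
     ⟨0, ⟨0, 0, 0⟩, 2, 0, ⟨⟨1, 0, 0⟩, ⟨0, 1, 0⟩, ⟨0, 0, 1⟩⟩, ⟨⟨-1, 0, 0⟩, ⟨0, 1, 0⟩, ⟨0, 0, 1⟩⟩, false⟩),
    (⟨.c4b, .tet, 1, 1, 3, ⟨⟨-1, 0, 0⟩, ⟨0, 1, 0⟩, ⟨0, 0, 1⟩⟩, ⟨⟨-1, 0, 0⟩, ⟨0, 1, 0⟩, ⟨0, 0, 1⟩⟩, ⟨⟨⟨0, 1, 0⟩, ⟨-1, 0, 0⟩, ⟨0, 0, -1⟩⟩, ⟨-1, -2, 3⟩⟩,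
      [⟨⟨-1, 0, 0⟩, ⟨0, 1, 0⟩, ⟨0, 0, 1⟩⟩, ⟨⟨1, 0, 0⟩, ⟨0, 1, 0⟩, ⟨0, 0, 1⟩⟩],
      [[5, 0, 4]]⟩,
     ⟨0, ⟨0, 0, 0⟩, 1, 0, ⟨⟨1, 0, 0⟩, ⟨0, 1, 0⟩, ⟨0, 0, 1⟩⟩, ⟨⟨-1, 0, 0⟩, ⟨0, 1, 0⟩, ⟨0, 0, 1⟩⟩, true⟩),
    (⟨.c4b, .tet, 1, 1, 2, ⟨⟨-1, 0, 0⟩, ⟨0, -1, 0⟩, ⟨0, 0, 1⟩⟩, ⟨⟨0, -1, 0⟩, ⟨-1, 0, 0⟩, ⟨0, 0, -1⟩⟩, ⟨⟨⟨0, -1, 0⟩, ⟨1, 0, 0⟩, ⟨0, 0, -1⟩⟩, ⟨2, 0, 1⟩⟩,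
      [⟨⟨-1, 0, 0⟩, ⟨0, -1, 0⟩, ⟨0, 0, 1⟩⟩, ⟨⟨0, -1, 0⟩, ⟨-1, 0, 0⟩, ⟨0, 0, -1⟩⟩,
       ⟨⟨0, 1, 0⟩, ⟨1, 0, 0⟩, ⟨0, 0, -1⟩⟩, ⟨⟨1, 0, 0⟩, ⟨0, 1, 0⟩, ⟨0, 0, 1⟩⟩],
      [[4, 0, 4]]⟩,
     ⟨0, ⟨1, 0, 0⟩, 0, 0, ⟨⟨1, 0, 0⟩, ⟨0, 1, 0⟩, ⟨0, 0, 1⟩⟩, ⟨⟨0, -1, 0⟩, ⟨-1, 0, 0⟩, ⟨0, 0, -1⟩⟩, false⟩),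
    (⟨.c21, .tet, 1, 1, 2, ⟨⟨-1, 0, 0⟩, ⟨0, -1, 0⟩, ⟨0, 0, 1⟩⟩, ⟨⟨0, -1, 0⟩, ⟨-1, 0, 0⟩, ⟨0, 0, -1⟩⟩, ⟨⟨⟨-1, 0, 0⟩, ⟨0, 1, 0⟩, ⟨0, 0, -1⟩⟩, ⟨-2, 0, 1⟩⟩,
      [⟨⟨-1, 0, 0⟩, ⟨0, -1, 0⟩, ⟨0, 0, 1⟩⟩, ⟨⟨0, -1, 0⟩, ⟨-1, 0, 0⟩, ⟨0, 0, -1⟩⟩,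
       ⟨⟨0, 1, 0⟩, ⟨1, 0, 0⟩, ⟨0, 0, -1⟩⟩, ⟨⟨1, 0, 0⟩, ⟨0, 1, 0⟩, ⟨0, 0, 1⟩⟩],
      [[4, 0, 4]]⟩,
     ⟨0, ⟨1, 0, 0⟩, 0, 0, ⟨⟨-1, 0, 0⟩, ⟨0, -1, 0⟩, ⟨0, 0, 1⟩⟩, ⟨⟨1, 0, 0⟩, ⟨0, 1, 0⟩, ⟨0, 0, 1⟩⟩, false⟩),
    (⟨.c21, .tet, 1, 1, 2, ⟨⟨-1, 0, 0⟩, ⟨0, -1, 0⟩, ⟨0, 0, -1⟩⟩, ⟨⟨0, -1, 0⟩, ⟨-1, 0, 0⟩, ⟨0, 0, 1⟩⟩, ⟨⟨⟨-1, 0, 0⟩, ⟨0, 1, 0⟩, ⟨0, 0, -1⟩⟩, ⟨1, 0, 1⟩⟩,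
      [⟨⟨-1, 0, 0⟩, ⟨0, -1, 0⟩, ⟨0, 0, -1⟩⟩, ⟨⟨0, -1, 0⟩, ⟨-1, 0, 0⟩, ⟨0, 0, 1⟩⟩,
       ⟨⟨0, 1, 0⟩, ⟨1, 0, 0⟩, ⟨0, 0, -1⟩⟩, ⟨⟨1, 0, 0⟩, ⟨0, 1, 0⟩, ⟨0, 0, 1⟩⟩],
      [[4, 0, 4]]⟩,
     ⟨0, ⟨0, 0, 0⟩, 0, 0, ⟨⟨1, 0, 0⟩, ⟨0, 1, 0⟩, ⟨0, 0, 1⟩⟩, ⟨⟨-1, 0, 0⟩, ⟨0, -1, 0⟩, ⟨0, 0, -1⟩⟩, false⟩),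
    (⟨.c4b, .tet, 1, 1, 2, ⟨⟨-1, 0, 0⟩, ⟨0, -1, 0⟩, ⟨0, 0, -1⟩⟩, ⟨⟨0, -1, 0⟩, ⟨-1, 0, 0⟩, ⟨0, 0, 1⟩⟩, ⟨⟨⟨0, 1, 0⟩, ⟨-1, 0, 0⟩, ⟨0, 0, -1⟩⟩, ⟨0, 1, 1⟩⟩,
      [⟨⟨-1, 0, 0⟩, ⟨0, -1, 0⟩, ⟨0, 0, -1⟩⟩, ⟨⟨0, -1, 0⟩, ⟨-1, 0, 0⟩, ⟨0, 0, 1⟩⟩,
       ⟨⟨0, 1, 0⟩, ⟨1, 0, 0⟩, ⟨0, 0, -1⟩⟩, ⟨⟨1, 0, 0⟩, ⟨0, 1, 0⟩, ⟨0, 0, 1⟩⟩],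
      [[4, 0, 4]]⟩,
     ⟨0, ⟨0, 0, 0⟩, 0, 0, ⟨⟨1, 0, 0⟩, ⟨0, 1, 0⟩, ⟨0, 0, 1⟩⟩, ⟨⟨0, 1, 0⟩, ⟨1, 0, 0⟩, ⟨0, 0, -1⟩⟩, false⟩),
    (⟨.c4b, .tet, 1, 1, 2, ⟨⟨-1, 0, 0⟩, ⟨0, -1, 0⟩, ⟨0, 0, 1⟩⟩, ⟨⟨0, -1, 0⟩, ⟨-1, 0, 0⟩, ⟨0, 0, 1⟩⟩, ⟨⟨⟨1, 0, 0⟩, ⟨0, -1, 0⟩, ⟨0, 0, 1⟩⟩, ⟨-2, 0, -1⟩⟩,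
      [⟨⟨-1, 0, 0⟩, ⟨0, -1, 0⟩, ⟨0, 0, 1⟩⟩, ⟨⟨0, -1, 0⟩, ⟨-1, 0, 0⟩, ⟨0, 0, 1⟩⟩,
       ⟨⟨0, 1, 0⟩, ⟨1, 0, 0⟩, ⟨0, 0, 1⟩⟩, ⟨⟨1, 0, 0⟩, ⟨0, 1, 0⟩, ⟨0, 0, 1⟩⟩],
      [[4, 0, 4]]⟩,
     ⟨0, ⟨1, 0, 0⟩, 0, 0, ⟨⟨1, 0, 0⟩, ⟨0, 1, 0⟩, ⟨0, 0, 1⟩⟩, ⟨⟨1, 0, 0⟩, ⟨0, 1, 0⟩, ⟨0, 0, 1⟩⟩, true⟩),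
    (⟨.c21, .tet, 1, 1, 1, ⟨⟨-1, 0, 0⟩, ⟨0, -1, 0⟩, ⟨0, 0, 1⟩⟩, ⟨⟨0, -1, 0⟩, ⟨-1, 0, 0⟩, ⟨0, 0, 1⟩⟩, ⟨⟨⟨-1, 0, 0⟩, ⟨0, 1, 0⟩, ⟨0, 0, -1⟩⟩, ⟨1, 0, 1⟩⟩,
      [⟨⟨-1, 0, 0⟩, ⟨0, -1, 0⟩, ⟨0, 0, 1⟩⟩, ⟨⟨0, -1, 0⟩, ⟨-1, 0, 0⟩, ⟨0, 0, 1⟩⟩,
       ⟨⟨0, 1, 0⟩, ⟨1, 0, 0⟩, ⟨0, 0, 1⟩⟩, ⟨⟨1, 0, 0⟩, ⟨0, 1, 0⟩, ⟨0, 0, 1⟩⟩],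
      [[4, 0, 4]]⟩,
     ⟨0, ⟨1, 0, 0⟩, 0, 0, ⟨⟨1, 0, 0⟩, ⟨0, 1, 0⟩, ⟨0, 0, 1⟩⟩, ⟨⟨-1, 0, 0⟩, ⟨0, -1, 0⟩, ⟨0, 0, 1⟩⟩, false⟩),
    (⟨.c4b, .tet, 1, 1, 2, ⟨⟨-1, 0, 0⟩, ⟨0, -1, 0⟩, ⟨0, 0, -1⟩⟩, ⟨⟨-1, 0, 0⟩, ⟨0, -1, 0⟩, ⟨0, 0, 1⟩⟩, ⟨⟨⟨0, -1, 0⟩, ⟨1, 0, 0⟩, ⟨0, 0, -1⟩⟩, ⟨2, 0, 1⟩⟩,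
      [⟨⟨-1, 0, 0⟩, ⟨0, -1, 0⟩, ⟨0, 0, -1⟩⟩, ⟨⟨-1, 0, 0⟩, ⟨0, -1, 0⟩, ⟨0, 0, 1⟩⟩,
       ⟨⟨1, 0, 0⟩, ⟨0, 1, 0⟩, ⟨0, 0, -1⟩⟩, ⟨⟨1, 0, 0⟩, ⟨0, 1, 0⟩, ⟨0, 0, 1⟩⟩],
      [[4, 0, 4]]⟩,
     ⟨0, ⟨0, 0, 0⟩, 0, 0, ⟨⟨1, 0, 0⟩, ⟨0, 1, 0⟩, ⟨0, 0, 1⟩⟩, ⟨⟨-1, 0, 0⟩, ⟨0, -1, 0⟩, ⟨0, 0, -1⟩⟩, false⟩),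
    (⟨.c4b, .tet, 1, 1, 2, ⟨⟨-1, 0, 0⟩, ⟨0, 1, 0⟩, ⟨0, 0, -1⟩⟩, ⟨⟨-1, 0, 0⟩, ⟨0, 1, 0⟩, ⟨0, 0, 1⟩⟩, ⟨⟨⟨0, 1, 0⟩, ⟨1, 0, 0⟩, ⟨0, 0, 1⟩⟩, ⟨-1, -1, -1⟩⟩,
      [⟨⟨-1, 0, 0⟩, ⟨0, 1, 0⟩, ⟨0, 0, -1⟩⟩, ⟨⟨-1, 0, 0⟩, ⟨0, 1, 0⟩, ⟨0, 0, 1⟩⟩,
       ⟨⟨1, 0, 0⟩, ⟨0, 1, 0⟩, ⟨0, 0, -1⟩⟩, ⟨⟨1, 0, 0⟩, ⟨0, 1, 0⟩, ⟨0, 0, 1⟩⟩],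
      [[4, 0, 4]]⟩,
     ⟨0, ⟨0, 0, 0⟩, 1, 0, ⟨⟨1, 0, 0⟩, ⟨0, 1, 0⟩, ⟨0, 0, 1⟩⟩, ⟨⟨1, 0, 0⟩, ⟨0, 1, 0⟩, ⟨0, 0, 1⟩⟩, true⟩),
    (⟨.c21, .tet, 1, 1, 1, ⟨⟨-1, 0, 0⟩, ⟨0, 1, 0⟩, ⟨0, 0, -1⟩⟩, ⟨⟨0, -1, 0⟩, ⟨-1, 0, 0⟩, ⟨0, 0, -1⟩⟩, ⟨⟨⟨-1, 0, 0⟩, ⟨0, 1, 0⟩, ⟨0, 0, -1⟩⟩, ⟨-1, 0, -1⟩⟩,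
      [⟨⟨-1, 0, 0⟩, ⟨0, -1, 0⟩, ⟨0, 0, 1⟩⟩, ⟨⟨-1, 0, 0⟩, ⟨0, 1, 0⟩, ⟨0, 0, -1⟩⟩,
       ⟨⟨0, -1, 0⟩, ⟨-1, 0, 0⟩, ⟨0, 0, -1⟩⟩, ⟨⟨0, -1, 0⟩, ⟨1, 0, 0⟩, ⟨0, 0, 1⟩⟩,
       ⟨⟨0, 1, 0⟩, ⟨-1, 0, 0⟩, ⟨0, 0, 1⟩⟩, ⟨⟨0, 1, 0⟩, ⟨1, 0, 0⟩, ⟨0, 0, -1⟩⟩,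
       ⟨⟨1, 0, 0⟩, ⟨0, -1, 0⟩, ⟨0, 0, -1⟩⟩, ⟨⟨1, 0, 0⟩, ⟨0, 1, 0⟩, ⟨0, 0, 1⟩⟩],
      [[4, 0, 4]]⟩,
     ⟨0, ⟨1, 0, 0⟩, 0, 0, ⟨⟨-1, 0, 0⟩, ⟨0, 1, 0⟩, ⟨0, 0, -1⟩⟩, ⟨⟨1, 0, 0⟩, ⟨0, 1, 0⟩, ⟨0, 0, 1⟩⟩, false⟩),
    (⟨.c21, .tet, 1, 1, 2, ⟨⟨-1, 0, 0⟩, ⟨0, 1, 0⟩, ⟨0, 0, -1⟩⟩, ⟨⟨0, -1, 0⟩, ⟨-1, 0, 0⟩, ⟨0, 0, -1⟩⟩, ⟨⟨⟨-1, 0, 0⟩, ⟨0, -1, 0⟩, ⟨0, 0, -1⟩⟩, ⟨2, 0, 1⟩⟩,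
      [⟨⟨-1, 0, 0⟩, ⟨0, -1, 0⟩, ⟨0, 0, 1⟩⟩, ⟨⟨-1, 0, 0⟩, ⟨0, 1, 0⟩, ⟨0, 0, -1⟩⟩,
       ⟨⟨0, -1, 0⟩, ⟨-1, 0, 0⟩, ⟨0, 0, -1⟩⟩, ⟨⟨0, -1, 0⟩, ⟨1, 0, 0⟩, ⟨0, 0, 1⟩⟩,
       ⟨⟨0, 1, 0⟩, ⟨-1, 0, 0⟩, ⟨0, 0, 1⟩⟩, ⟨⟨0, 1, 0⟩, ⟨1, 0, 0⟩, ⟨0, 0, -1⟩⟩,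
       ⟨⟨1, 0, 0⟩, ⟨0, -1, 0⟩, ⟨0, 0, -1⟩⟩, ⟨⟨1, 0, 0⟩, ⟨0, 1, 0⟩, ⟨0, 0, 1⟩⟩],
      [[4, 0, 4]]⟩,
     ⟨0, ⟨1, 0, 0⟩, 0, 0, ⟨⟨1, 0, 0⟩, ⟨0, 1, 0⟩, ⟨0, 0, 1⟩⟩, ⟨⟨-1, 0, 0⟩, ⟨0, -1, 0⟩, ⟨0, 0, 1⟩⟩, false⟩),
    (⟨.c21, .tet, 1, 1, 1, ⟨⟨-1, 0, 0⟩, ⟨0, 1, 0⟩, ⟨0, 0, -1⟩⟩, ⟨⟨0, -1, 0⟩, ⟨-1, 0, 0⟩, ⟨0, 0, 1⟩⟩, ⟨⟨⟨-1, 0, 0⟩, ⟨0, 1, 0⟩, ⟨0, 0, -1⟩⟩, ⟨-1, 0, -1⟩⟩,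
      [⟨⟨-1, 0, 0⟩, ⟨0, -1, 0⟩, ⟨0, 0, 1⟩⟩, ⟨⟨-1, 0, 0⟩, ⟨0, 1, 0⟩, ⟨0, 0, -1⟩⟩,
       ⟨⟨0, -1, 0⟩, ⟨-1, 0, 0⟩, ⟨0, 0, 1⟩⟩, ⟨⟨0, -1, 0⟩, ⟨1, 0, 0⟩, ⟨0, 0, -1⟩⟩,
       ⟨⟨0, 1, 0⟩, ⟨-1, 0, 0⟩, ⟨0, 0, -1⟩⟩, ⟨⟨0, 1, 0⟩, ⟨1, 0, 0⟩, ⟨0, 0, 1⟩⟩,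
       ⟨⟨1, 0, 0⟩, ⟨0, -1, 0⟩, ⟨0, 0, -1⟩⟩, ⟨⟨1, 0, 0⟩, ⟨0, 1, 0⟩, ⟨0, 0, 1⟩⟩],
      [[4, 0, 4]]⟩,
     ⟨0, ⟨1, 0, 0⟩, 0, 0, ⟨⟨-1, 0, 0⟩, ⟨0, 1, 0⟩, ⟨0, 0, -1⟩⟩, ⟨⟨1, 0, 0⟩, ⟨0, 1, 0⟩, ⟨0, 0, 1⟩⟩, false⟩),
    (⟨.c21, .tet, 1, 1, 2, ⟨⟨-1, 0, 0⟩, ⟨0, 1, 0⟩, ⟨0, 0, -1⟩⟩, ⟨⟨0, -1, 0⟩, ⟨-1, 0, 0⟩, ⟨0, 0, 1⟩⟩, ⟨⟨⟨-1, 0, 0⟩, ⟨0, -1, 0⟩, ⟨0, 0, -1⟩⟩, ⟨2, 0, 1⟩⟩,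
      [⟨⟨-1, 0, 0⟩, ⟨0, -1, 0⟩, ⟨0, 0, 1⟩⟩, ⟨⟨-1, 0, 0⟩, ⟨0, 1, 0⟩, ⟨0, 0, -1⟩⟩,
       ⟨⟨0, -1, 0⟩, ⟨-1, 0, 0⟩, ⟨0, 0, 1⟩⟩, ⟨⟨0, -1, 0⟩, ⟨1, 0, 0⟩, ⟨0, 0, -1⟩⟩,
       ⟨⟨0, 1, 0⟩, ⟨-1, 0, 0⟩, ⟨0, 0, -1⟩⟩, ⟨⟨0, 1, 0⟩, ⟨1, 0, 0⟩, ⟨0, 0, 1⟩⟩,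
       ⟨⟨1, 0, 0⟩, ⟨0, -1, 0⟩, ⟨0, 0, -1⟩⟩, ⟨⟨1, 0, 0⟩, ⟨0, 1, 0⟩, ⟨0, 0, 1⟩⟩],
      [[4, 0, 4]]⟩,
     ⟨0, ⟨1, 0, 0⟩, 0, 0, ⟨⟨1, 0, 0⟩, ⟨0, 1, 0⟩, ⟨0, 0, 1⟩⟩, ⟨⟨-1, 0, 0⟩, ⟨0, -1, 0⟩, ⟨0, 0, 1⟩⟩, false⟩),
    (⟨.c4b, .tet, 1, 1, 1, ⟨⟨-1, 0, 0⟩, ⟨0, 1, 0⟩, ⟨0, 0, 1⟩⟩, ⟨⟨0, -1, 0⟩, ⟨-1, 0, 0⟩, ⟨0, 0, 1⟩⟩, ⟨⟨⟨0, 1, 0⟩, ⟨1, 0, 0⟩, ⟨0, 0, 1⟩⟩, ⟨1, 2, 1⟩⟩,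
      [⟨⟨-1, 0, 0⟩, ⟨0, -1, 0⟩, ⟨0, 0, 1⟩⟩, ⟨⟨-1, 0, 0⟩, ⟨0, 1, 0⟩, ⟨0, 0, 1⟩⟩,
       ⟨⟨0, -1, 0⟩, ⟨-1, 0, 0⟩, ⟨0, 0, 1⟩⟩, ⟨⟨0, -1, 0⟩, ⟨1, 0, 0⟩, ⟨0, 0, 1⟩⟩,
       ⟨⟨0, 1, 0⟩, ⟨-1, 0, 0⟩, ⟨0, 0, 1⟩⟩, ⟨⟨0, 1, 0⟩, ⟨1, 0, 0⟩, ⟨0, 0, 1⟩⟩,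
       ⟨⟨1, 0, 0⟩, ⟨0, -1, 0⟩, ⟨0, 0, 1⟩⟩, ⟨⟨1, 0, 0⟩, ⟨0, 1, 0⟩, ⟨0, 0, 1⟩⟩],
      [[4, 0, 4]]⟩,
     ⟨0, ⟨1, 2, 0⟩, 0, 0, ⟨⟨1, 0, 0⟩, ⟨0, 1, 0⟩, ⟨0, 0, 1⟩⟩, ⟨⟨0, 1, 0⟩, ⟨1, 0, 0⟩, ⟨0, 0, 1⟩⟩, false⟩),
    (⟨.reg, .tet, 1, 1, 1, ⟨⟨0, -1, 0⟩, ⟨-1, 0, 0⟩, ⟨0, 0, 1⟩⟩, ⟨⟨-1, 0, 0⟩, ⟨0, 1, 0⟩, ⟨0, 0, 1⟩⟩, ⟨⟨⟨-1, 0, 0⟩, ⟨0, -1, 0⟩, ⟨0, 0, -1⟩⟩, ⟨0, -1, 1⟩⟩,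
      [⟨⟨-1, 0, 0⟩, ⟨0, -1, 0⟩, ⟨0, 0, 1⟩⟩, ⟨⟨-1, 0, 0⟩, ⟨0, 1, 0⟩, ⟨0, 0, 1⟩⟩,
       ⟨⟨0, -1, 0⟩, ⟨-1, 0, 0⟩, ⟨0, 0, 1⟩⟩, ⟨⟨0, -1, 0⟩, ⟨1, 0, 0⟩, ⟨0, 0, 1⟩⟩,
       ⟨⟨0, 1, 0⟩, ⟨-1, 0, 0⟩, ⟨0, 0, 1⟩⟩, ⟨⟨0, 1, 0⟩, ⟨1, 0, 0⟩, ⟨0, 0, 1⟩⟩,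
       ⟨⟨1, 0, 0⟩, ⟨0, -1, 0⟩, ⟨0, 0, 1⟩⟩, ⟨⟨1, 0, 0⟩, ⟨0, 1, 0⟩, ⟨0, 0, 1⟩⟩],
      []⟩,
     ⟨0, ⟨1, 0, 0⟩, 0, 0, ⟨⟨0, -1, 0⟩, ⟨-1, 0, 0⟩, ⟨0, 0, 1⟩⟩, ⟨⟨0, 1, 0⟩, ⟨1, 0, 0⟩, ⟨0, 0, 1⟩⟩, false⟩)
  ]

/-- One example for each family of each hexagonal block. -/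
def hexFamEx : List (Data × Pos) :=
  [
    (⟨.c4b, .hex, 1, 1, 6, ⟨⟨-1, 0, 0⟩, ⟨-1, 1, 0⟩, ⟨0, 0, -1⟩⟩, ⟨⟨-1, 0, 0⟩, ⟨-1, 1, 0⟩, ⟨0, 0, -1⟩⟩, ⟨⟨⟨0, -1, 0⟩, ⟨-1, 0, 0⟩, ⟨0, 0, -1⟩⟩, ⟨6, 0, 1⟩⟩,
      [⟨⟨-1, 0, 0⟩, ⟨-1, 1, 0⟩, ⟨0, 0, -1⟩⟩, ⟨⟨1, 0, 0⟩, ⟨0, 1, 0⟩, ⟨0, 0, 1⟩⟩],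
      [[5, 0, 4]]⟩,
     ⟨0, ⟨0, 0, 0⟩, 0, 0, ⟨⟨1, 0, 0⟩, ⟨0, 1, 0⟩, ⟨0, 0, 1⟩⟩, ⟨⟨-1, 0, 0⟩, ⟨-1, 1, 0⟩, ⟨0, 0, -1⟩⟩, false⟩),
    (⟨.c4b, .hex, 1, 1, 2, ⟨⟨-1, 0, 0⟩, ⟨-1, 1, 0⟩, ⟨0, 0, -1⟩⟩, ⟨⟨-1, 0, 0⟩, ⟨-1, 1, 0⟩, ⟨0, 0, -1⟩⟩, ⟨⟨⟨0, 1, 0⟩, ⟨-1, 1, 0⟩, ⟨0, 0, -1⟩⟩, ⟨0, 2, 1⟩⟩,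
      [⟨⟨-1, 0, 0⟩, ⟨-1, 1, 0⟩, ⟨0, 0, -1⟩⟩, ⟨⟨1, 0, 0⟩, ⟨0, 1, 0⟩, ⟨0, 0, 1⟩⟩],
      [[5, 0, 4]]⟩,
     ⟨0, ⟨0, 0, 0⟩, 0, 0, ⟨⟨1, 0, 0⟩, ⟨0, 1, 0⟩, ⟨0, 0, 1⟩⟩, ⟨⟨1, 0, 0⟩, ⟨0, 1, 0⟩, ⟨0, 0, 1⟩⟩, true⟩),
    (⟨.c4b, .hex, 1, 1, 6, ⟨⟨-1, 0, 0⟩, ⟨-1, 1, 0⟩, ⟨0, 0, -1⟩⟩, ⟨⟨-1, 0, 0⟩, ⟨-1, 1, 0⟩, ⟨0, 0, -1⟩⟩, ⟨⟨⟨1, -1, 0⟩, ⟨0, -1, 0⟩, ⟨0, 0, 1⟩⟩, ⟨-1, 4, -3⟩⟩,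
      [⟨⟨-1, 0, 0⟩, ⟨-1, 1, 0⟩, ⟨0, 0, -1⟩⟩, ⟨⟨1, 0, 0⟩, ⟨0, 1, 0⟩, ⟨0, 0, 1⟩⟩],
      [[5, 0, 4]]⟩,
     ⟨0, ⟨0, 0, 0⟩, 2, 0, ⟨⟨1, 0, 0⟩, ⟨0, 1, 0⟩, ⟨0, 0, 1⟩⟩, ⟨⟨1, 0, 0⟩, ⟨0, 1, 0⟩, ⟨0, 0, 1⟩⟩, true⟩),
    (⟨.c4b, .hex, 1, 1, 6, ⟨⟨-1, 0, 0⟩, ⟨-1, 1, 0⟩, ⟨0, 0, -1⟩⟩, ⟨⟨-1, 0, 0⟩, ⟨-1, 1, 0⟩, ⟨0, 0, -1⟩⟩, ⟨⟨⟨0, -1, 0⟩, ⟨1, -1, 0⟩, ⟨0, 0, 1⟩⟩, ⟨6, 6, 2⟩⟩,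
      [⟨⟨-1, 0, 0⟩, ⟨-1, 1, 0⟩, ⟨0, 0, -1⟩⟩, ⟨⟨1, 0, 0⟩, ⟨0, 1, 0⟩, ⟨0, 0, 1⟩⟩],
      [[5, 0, 4]]⟩,
     ⟨0, ⟨0, 0, 0⟩, 3, 0, ⟨⟨1, 0, 0⟩, ⟨0, 1, 0⟩, ⟨0, 0, 1⟩⟩, ⟨⟨-1, 0, 0⟩, ⟨-1, 1, 0⟩, ⟨0, 0, -1⟩⟩, false⟩),
    (⟨.c4b, .hex, 1, 1, 2, ⟨⟨-1, 0, 0⟩, ⟨-1, 1, 0⟩, ⟨0, 0, 1⟩⟩, ⟨⟨-1, 0, 0⟩, ⟨-1, 1, 0⟩, ⟨0, 0, 1⟩⟩, ⟨⟨⟨1, -1, 0⟩, ⟨1, 0, 0⟩, ⟨0, 0, 1⟩⟩, ⟨3, 1, 1⟩⟩,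
      [⟨⟨-1, 0, 0⟩, ⟨-1, 1, 0⟩, ⟨0, 0, 1⟩⟩, ⟨⟨1, 0, 0⟩, ⟨0, 1, 0⟩, ⟨0, 0, 1⟩⟩],
      [[5, 0, 4]]⟩,
     ⟨0, ⟨0, 0, 0⟩, 1, 0, ⟨⟨1, 0, 0⟩, ⟨0, 1, 0⟩, ⟨0, 0, 1⟩⟩, ⟨⟨1, 0, 0⟩, ⟨0, 1, 0⟩, ⟨0, 0, 1⟩⟩, false⟩),
    (⟨.c4b, .hex, 1, 1, 2, ⟨⟨-1, 0, 0⟩, ⟨-1, 1, 0⟩, ⟨0, 0, 1⟩⟩, ⟨⟨-1, 0, 0⟩, ⟨-1, 1, 0⟩, ⟨0, 0, 1⟩⟩, ⟨⟨⟨-1, 1, 0⟩, ⟨0, 1, 0⟩, ⟨0, 0, -1⟩⟩, ⟨-1, 2, 2⟩⟩,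
      [⟨⟨-1, 0, 0⟩, ⟨-1, 1, 0⟩, ⟨0, 0, 1⟩⟩, ⟨⟨1, 0, 0⟩, ⟨0, 1, 0⟩, ⟨0, 0, 1⟩⟩],
      [[5, 0, 4]]⟩,
     ⟨0, ⟨0, 0, 0⟩, 1, 0, ⟨⟨1, 0, 0⟩, ⟨0, 1, 0⟩, ⟨0, 0, 1⟩⟩, ⟨⟨-1, 0, 0⟩, ⟨-1, 1, 0⟩, ⟨0, 0, 1⟩⟩, true⟩),
    (⟨.c4b, .hex, 1, 1, 6, ⟨⟨-1, 0, 0⟩, ⟨-1, 1, 0⟩, ⟨0, 0, 1⟩⟩, ⟨⟨-1, 0, 0⟩, ⟨-1, 1, 0⟩, ⟨0, 0, 1⟩⟩, ⟨⟨⟨1, -1, 0⟩, ⟨0, -1, 0⟩, ⟨0, 0, 1⟩⟩, ⟨5, 4, 6⟩⟩,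
      [⟨⟨-1, 0, 0⟩, ⟨-1, 1, 0⟩, ⟨0, 0, 1⟩⟩, ⟨⟨1, 0, 0⟩, ⟨0, 1, 0⟩, ⟨0, 0, 1⟩⟩],
      [[5, 0, 4]]⟩,
     ⟨0, ⟨0, 0, 0⟩, 2, 0, ⟨⟨1, 0, 0⟩, ⟨0, 1, 0⟩, ⟨0, 0, 1⟩⟩, ⟨⟨1, 0, 0⟩, ⟨0, 1, 0⟩, ⟨0, 0, 1⟩⟩, false⟩),
    (⟨.c4b, .hex, 1, 1, 6, ⟨⟨-1, 0, 0⟩, ⟨-1, 1, 0⟩, ⟨0, 0, 1⟩⟩, ⟨⟨-1, 0, 0⟩, ⟨-1, 1, 0⟩, ⟨0, 0, 1⟩⟩, ⟨⟨⟨0, -1, 0⟩, ⟨1, -1, 0⟩, ⟨0, 0, -1⟩⟩, ⟨5, 4, 6⟩⟩,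
      [⟨⟨-1, 0, 0⟩, ⟨-1, 1, 0⟩, ⟨0, 0, 1⟩⟩, ⟨⟨1, 0, 0⟩, ⟨0, 1, 0⟩, ⟨0, 0, 1⟩⟩],
      [[5, 0, 4]]⟩,
     ⟨0, ⟨0, 0, 0⟩, 2, 0, ⟨⟨1, 0, 0⟩, ⟨0, 1, 0⟩, ⟨0, 0, 1⟩⟩, ⟨⟨-1, 0, 0⟩, ⟨-1, 1, 0⟩, ⟨0, 0, 1⟩⟩, false⟩),
    (⟨.c4b, .hex, 1, 1, 2, ⟨⟨-1, 0, 0⟩, ⟨0, -1, 0⟩, ⟨0, 0, 1⟩⟩, ⟨⟨0, -1, 0⟩, ⟨-1, 0, 0⟩, ⟨0, 0, -1⟩⟩, ⟨⟨⟨-1, 0, 0⟩, ⟨-1, 1, 0⟩, ⟨0, 0, 1⟩⟩, ⟨0, 1, 1⟩⟩,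
      [⟨⟨-1, 0, 0⟩, ⟨0, -1, 0⟩, ⟨0, 0, 1⟩⟩, ⟨⟨0, -1, 0⟩, ⟨-1, 0, 0⟩, ⟨0, 0, -1⟩⟩,
       ⟨⟨0, 1, 0⟩, ⟨1, 0, 0⟩, ⟨0, 0, -1⟩⟩, ⟨⟨1, 0, 0⟩, ⟨0, 1, 0⟩, ⟨0, 0, 1⟩⟩],
      [[4, 0, 4]]⟩,
     ⟨0, ⟨0, 0, 0⟩, 0, 0, ⟨⟨1, 0, 0⟩, ⟨0, 1, 0⟩, ⟨0, 0, 1⟩⟩, ⟨⟨-1, 0, 0⟩, ⟨0, -1, 0⟩, ⟨0, 0, 1⟩⟩, false⟩),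
    (⟨.c4b, .hex, 1, 1, 3, ⟨⟨-1, 0, 0⟩, ⟨0, -1, 0⟩, ⟨0, 0, 1⟩⟩, ⟨⟨0, -1, 0⟩, ⟨-1, 0, 0⟩, ⟨0, 0, -1⟩⟩, ⟨⟨⟨-1, 0, 0⟩, ⟨-1, 1, 0⟩, ⟨0, 0, -1⟩⟩, ⟨3, 0, 1⟩⟩,
      [⟨⟨-1, 0, 0⟩, ⟨0, -1, 0⟩, ⟨0, 0, 1⟩⟩, ⟨⟨0, -1, 0⟩, ⟨-1, 0, 0⟩, ⟨0, 0, -1⟩⟩,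
       ⟨⟨0, 1, 0⟩, ⟨1, 0, 0⟩, ⟨0, 0, -1⟩⟩, ⟨⟨1, 0, 0⟩, ⟨0, 1, 0⟩, ⟨0, 0, 1⟩⟩],
      [[4, 0, 4]]⟩,
     ⟨0, ⟨1, 0, 0⟩, 0, 0, ⟨⟨1, 0, 0⟩, ⟨0, 1, 0⟩, ⟨0, 0, 1⟩⟩, ⟨⟨-1, 0, 0⟩, ⟨0, -1, 0⟩, ⟨0, 0, 1⟩⟩, false⟩),
    (⟨.c4b, .hex, 1, 1, 2, ⟨⟨-1, 0, 0⟩, ⟨0, -1, 0⟩, ⟨0, 0, -1⟩⟩, ⟨⟨0, -1, 0⟩, ⟨-1, 0, 0⟩, ⟨0, 0, 1⟩⟩, ⟨⟨⟨-1, 0, 0⟩, ⟨-1, 1, 0⟩, ⟨0, 0, -1⟩⟩, ⟨0, 1, -2⟩⟩,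
      [⟨⟨-1, 0, 0⟩, ⟨0, -1, 0⟩, ⟨0, 0, -1⟩⟩, ⟨⟨0, -1, 0⟩, ⟨-1, 0, 0⟩, ⟨0, 0, 1⟩⟩,
       ⟨⟨0, 1, 0⟩, ⟨1, 0, 0⟩, ⟨0, 0, -1⟩⟩, ⟨⟨1, 0, 0⟩, ⟨0, 1, 0⟩, ⟨0, 0, 1⟩⟩],
      [[4, 0, 4]]⟩,
     ⟨0, ⟨0, 0, 0⟩, 0, 0, ⟨⟨1, 0, 0⟩, ⟨0, 1, 0⟩, ⟨0, 0, 1⟩⟩, ⟨⟨-1, 0, 0⟩, ⟨0, -1, 0⟩, ⟨0, 0, -1⟩⟩, true⟩),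
    (⟨.c21, .hex, 1, 1, 2, ⟨⟨-1, 0, 0⟩, ⟨0, -1, 0⟩, ⟨0, 0, -1⟩⟩, ⟨⟨0, -1, 0⟩, ⟨-1, 0, 0⟩, ⟨0, 0, 1⟩⟩, ⟨⟨⟨1, 0, 0⟩, ⟨1, -1, 0⟩, ⟨0, 0, -1⟩⟩, ⟨0, 1, 1⟩⟩,
      [⟨⟨-1, 0, 0⟩, ⟨0, -1, 0⟩, ⟨0, 0, -1⟩⟩, ⟨⟨0, -1, 0⟩, ⟨-1, 0, 0⟩, ⟨0, 0, 1⟩⟩,
       ⟨⟨0, 1, 0⟩, ⟨1, 0, 0⟩, ⟨0, 0, -1⟩⟩, ⟨⟨1, 0, 0⟩, ⟨0, 1, 0⟩, ⟨0, 0, 1⟩⟩],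
      [[4, 0, 4]]⟩,
     ⟨0, ⟨0, 0, 0⟩, 0, 0, ⟨⟨1, 0, 0⟩, ⟨0, 1, 0⟩, ⟨0, 0, 1⟩⟩, ⟨⟨1, 0, 0⟩, ⟨0, 1, 0⟩, ⟨0, 0, 1⟩⟩, false⟩),
    (⟨.c4b, .hex, 1, 1, 2, ⟨⟨-1, 0, 0⟩, ⟨0, -1, 0⟩, ⟨0, 0, 1⟩⟩, ⟨⟨0, -1, 0⟩, ⟨-1, 0, 0⟩, ⟨0, 0, 1⟩⟩, ⟨⟨⟨0, 1, 0⟩, ⟨-1, 1, 0⟩, ⟨0, 0, 1⟩⟩, ⟨0, 1, -2⟩⟩,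
      [⟨⟨-1, 0, 0⟩, ⟨0, -1, 0⟩, ⟨0, 0, 1⟩⟩, ⟨⟨0, -1, 0⟩, ⟨-1, 0, 0⟩, ⟨0, 0, 1⟩⟩,
       ⟨⟨0, 1, 0⟩, ⟨1, 0, 0⟩, ⟨0, 0, 1⟩⟩, ⟨⟨1, 0, 0⟩, ⟨0, 1, 0⟩, ⟨0, 0, 1⟩⟩],
      [[4, 0, 4]]⟩,
     ⟨0, ⟨0, 0, 0⟩, 0, 0, ⟨⟨1, 0, 0⟩, ⟨0, 1, 0⟩, ⟨0, 0, 1⟩⟩, ⟨⟨0, 1, 0⟩, ⟨1, 0, 0⟩, ⟨0, 0, 1⟩⟩, true⟩),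
    (⟨.c21, .hex, 1, 1, 2, ⟨⟨-1, 0, 0⟩, ⟨0, -1, 0⟩, ⟨0, 0, 1⟩⟩, ⟨⟨0, -1, 0⟩, ⟨-1, 0, 0⟩, ⟨0, 0, 1⟩⟩, ⟨⟨⟨1, 0, 0⟩, ⟨1, -1, 0⟩, ⟨0, 0, -1⟩⟩, ⟨0, 1, 2⟩⟩,
      [⟨⟨-1, 0, 0⟩, ⟨0, -1, 0⟩, ⟨0, 0, 1⟩⟩, ⟨⟨0, -1, 0⟩, ⟨-1, 0, 0⟩, ⟨0, 0, 1⟩⟩,
       ⟨⟨0, 1, 0⟩, ⟨1, 0, 0⟩, ⟨0, 0, 1⟩⟩, ⟨⟨1, 0, 0⟩, ⟨0, 1, 0⟩, ⟨0, 0, 1⟩⟩],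
      [[4, 0, 4]]⟩,
     ⟨0, ⟨0, 0, 0⟩, 0, 0, ⟨⟨1, 0, 0⟩, ⟨0, 1, 0⟩, ⟨0, 0, 1⟩⟩, ⟨⟨1, 0, 0⟩, ⟨0, 1, 0⟩, ⟨0, 0, 1⟩⟩, false⟩),
    (⟨.c4b, .hex, 1, 1, 2, ⟨⟨-1, 0, 0⟩, ⟨-1, 1, 0⟩, ⟨0, 0, -1⟩⟩, ⟨⟨-1, 0, 0⟩, ⟨-1, 1, 0⟩, ⟨0, 0, 1⟩⟩, ⟨⟨⟨0, -1, 0⟩, ⟨-1, 0, 0⟩, ⟨0, 0, -1⟩⟩, ⟨3, 1, 1⟩⟩,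
      [⟨⟨-1, 0, 0⟩, ⟨-1, 1, 0⟩, ⟨0, 0, -1⟩⟩, ⟨⟨-1, 0, 0⟩, ⟨-1, 1, 0⟩, ⟨0, 0, 1⟩⟩,
       ⟨⟨1, 0, 0⟩, ⟨0, 1, 0⟩, ⟨0, 0, -1⟩⟩, ⟨⟨1, 0, 0⟩, ⟨0, 1, 0⟩, ⟨0, 0, 1⟩⟩],
      [[4, 0, 4]]⟩,
     ⟨0, ⟨0, 0, 0⟩, 1, 0, ⟨⟨1, 0, 0⟩, ⟨0, 1, 0⟩, ⟨0, 0, 1⟩⟩, ⟨⟨-1, 0, 0⟩, ⟨-1, 1, 0⟩, ⟨0, 0, -1⟩⟩, false⟩),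
    (⟨.c4b, .hex, 1, 1, 2, ⟨⟨-1, 0, 0⟩, ⟨-1, 1, 0⟩, ⟨0, 0, -1⟩⟩, ⟨⟨-1, 0, 0⟩, ⟨-1, 1, 0⟩, ⟨0, 0, 1⟩⟩, ⟨⟨⟨1, -1, 0⟩, ⟨0, -1, 0⟩, ⟨0, 0, -1⟩⟩, ⟨-1, 0, -2⟩⟩,
      [⟨⟨-1, 0, 0⟩, ⟨-1, 1, 0⟩, ⟨0, 0, -1⟩⟩, ⟨⟨-1, 0, 0⟩, ⟨-1, 1, 0⟩, ⟨0, 0, 1⟩⟩,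
       ⟨⟨1, 0, 0⟩, ⟨0, 1, 0⟩, ⟨0, 0, -1⟩⟩, ⟨⟨1, 0, 0⟩, ⟨0, 1, 0⟩, ⟨0, 0, 1⟩⟩],
      [[4, 0, 4]]⟩,
     ⟨0, ⟨0, 0, 0⟩, 0, 0, ⟨⟨1, 0, 0⟩, ⟨0, 1, 0⟩, ⟨0, 0, 1⟩⟩, ⟨⟨1, 0, 0⟩, ⟨0, 1, 0⟩, ⟨0, 0, -1⟩⟩, true⟩),
    (⟨.c4b, .hex, 1, 1, 1, ⟨⟨-1, 0, 0⟩, ⟨0, -1, 0⟩, ⟨0, 0, -1⟩⟩, ⟨⟨-1, 0, 0⟩, ⟨0, -1, 0⟩, ⟨0, 0, 1⟩⟩, ⟨⟨⟨-1, 1, 0⟩, ⟨-1, 0, 0⟩, ⟨0, 0, -1⟩⟩, ⟨1, 0, 1⟩⟩,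
      [⟨⟨-1, 0, 0⟩, ⟨0, -1, 0⟩, ⟨0, 0, -1⟩⟩, ⟨⟨-1, 0, 0⟩, ⟨0, -1, 0⟩, ⟨0, 0, 1⟩⟩,
       ⟨⟨1, 0, 0⟩, ⟨0, 1, 0⟩, ⟨0, 0, -1⟩⟩, ⟨⟨1, 0, 0⟩, ⟨0, 1, 0⟩, ⟨0, 0, 1⟩⟩],
      [[4, 0, 4]]⟩,
     ⟨0, ⟨0, 0, 0⟩, 0, 0, ⟨⟨1, 0, 0⟩, ⟨0, 1, 0⟩, ⟨0, 0, 1⟩⟩, ⟨⟨-1, 0, 0⟩, ⟨0, -1, 0⟩, ⟨0, 0, -1⟩⟩, false⟩),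
    (⟨.c21, .hex, 1, 1, 2, ⟨⟨-1, 0, 0⟩, ⟨-1, 1, 0⟩, ⟨0, 0, -1⟩⟩, ⟨⟨0, 1, 0⟩, ⟨1, 0, 0⟩, ⟨0, 0, -1⟩⟩, ⟨⟨⟨-1, 0, 0⟩, ⟨0, -1, 0⟩, ⟨0, 0, -1⟩⟩, ⟨-2, -2, -1⟩⟩,
      [⟨⟨-1, 0, 0⟩, ⟨-1, 1, 0⟩, ⟨0, 0, -1⟩⟩, ⟨⟨-1, 1, 0⟩, ⟨-1, 0, 0⟩, ⟨0, 0, 1⟩⟩,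
       ⟨⟨0, -1, 0⟩, ⟨1, -1, 0⟩, ⟨0, 0, 1⟩⟩, ⟨⟨0, 1, 0⟩, ⟨1, 0, 0⟩, ⟨0, 0, -1⟩⟩,
       ⟨⟨1, -1, 0⟩, ⟨0, -1, 0⟩, ⟨0, 0, -1⟩⟩, ⟨⟨1, 0, 0⟩, ⟨0, 1, 0⟩, ⟨0, 0, 1⟩⟩],
      [[4, 0, 4]]⟩,
     ⟨0, ⟨1, 0, 0⟩, 0, 0, ⟨⟨-1, 0, 0⟩, ⟨-1, 1, 0⟩, ⟨0, 0, -1⟩⟩, ⟨⟨1, 0, 0⟩, ⟨0, 1, 0⟩, ⟨0, 0, 1⟩⟩, false⟩),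
    (⟨.c21, .hex, 1, 1, 2, ⟨⟨-1, 0, 0⟩, ⟨-1, 1, 0⟩, ⟨0, 0, -1⟩⟩, ⟨⟨0, 1, 0⟩, ⟨1, 0, 0⟩, ⟨0, 0, -1⟩⟩, ⟨⟨⟨0, -1, 0⟩, ⟨-1, 0, 0⟩, ⟨0, 0, -1⟩⟩, ⟨-2, -2, 1⟩⟩,
      [⟨⟨-1, 0, 0⟩, ⟨-1, 1, 0⟩, ⟨0, 0, -1⟩⟩, ⟨⟨-1, 1, 0⟩, ⟨-1, 0, 0⟩, ⟨0, 0, 1⟩⟩,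
       ⟨⟨0, -1, 0⟩, ⟨1, -1, 0⟩, ⟨0, 0, 1⟩⟩, ⟨⟨0, 1, 0⟩, ⟨1, 0, 0⟩, ⟨0, 0, -1⟩⟩,
       ⟨⟨1, -1, 0⟩, ⟨0, -1, 0⟩, ⟨0, 0, -1⟩⟩, ⟨⟨1, 0, 0⟩, ⟨0, 1, 0⟩, ⟨0, 0, 1⟩⟩],
      [[4, 0, 4]]⟩,
     ⟨0, ⟨1, 0, 0⟩, 0, 0, ⟨⟨-1, 1, 0⟩, ⟨-1, 0, 0⟩, ⟨0, 0, 1⟩⟩, ⟨⟨1, 0, 0⟩, ⟨0, 1, 0⟩, ⟨0, 0, 1⟩⟩, false⟩),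
    (⟨.c4b, .hex, 1, 1, 1, ⟨⟨-1, 0, 0⟩, ⟨-1, 1, 0⟩, ⟨0, 0, -1⟩⟩, ⟨⟨0, 1, 0⟩, ⟨1, 0, 0⟩, ⟨0, 0, -1⟩⟩, ⟨⟨⟨-1, 1, 0⟩, ⟨-1, 0, 0⟩, ⟨0, 0, 1⟩⟩, ⟨-1, 0, -1⟩⟩,
      [⟨⟨-1, 0, 0⟩, ⟨-1, 1, 0⟩, ⟨0, 0, -1⟩⟩, ⟨⟨-1, 1, 0⟩, ⟨-1, 0, 0⟩, ⟨0, 0, 1⟩⟩,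
       ⟨⟨0, -1, 0⟩, ⟨1, -1, 0⟩, ⟨0, 0, 1⟩⟩, ⟨⟨0, 1, 0⟩, ⟨1, 0, 0⟩, ⟨0, 0, -1⟩⟩,
       ⟨⟨1, -1, 0⟩, ⟨0, -1, 0⟩, ⟨0, 0, -1⟩⟩, ⟨⟨1, 0, 0⟩, ⟨0, 1, 0⟩, ⟨0, 0, 1⟩⟩],
      [[4, 0, 4]]⟩,
     ⟨0, ⟨1, 0, 0⟩, 0, 0, ⟨⟨1, 0, 0⟩, ⟨0, 1, 0⟩, ⟨0, 0, 1⟩⟩, ⟨⟨-1, 1, 0⟩, ⟨-1, 0, 0⟩, ⟨0, 0, 1⟩⟩, true⟩),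
    (⟨.c4b, .hex, 1, 1, 2, ⟨⟨-1, 0, 0⟩, ⟨-1, 1, 0⟩, ⟨0, 0, -1⟩⟩, ⟨⟨0, 1, 0⟩, ⟨1, 0, 0⟩, ⟨0, 0, -1⟩⟩, ⟨⟨⟨0, -1, 0⟩, ⟨1, -1, 0⟩, ⟨0, 0, -1⟩⟩, ⟨2, 0, 1⟩⟩,
      [⟨⟨-1, 0, 0⟩, ⟨-1, 1, 0⟩, ⟨0, 0, -1⟩⟩, ⟨⟨-1, 1, 0⟩, ⟨-1, 0, 0⟩, ⟨0, 0, 1⟩⟩,
       ⟨⟨0, -1, 0⟩, ⟨1, -1, 0⟩, ⟨0, 0, 1⟩⟩, ⟨⟨0, 1, 0⟩, ⟨1, 0, 0⟩, ⟨0, 0, -1⟩⟩,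
       ⟨⟨1, -1, 0⟩, ⟨0, -1, 0⟩, ⟨0, 0, -1⟩⟩, ⟨⟨1, 0, 0⟩, ⟨0, 1, 0⟩, ⟨0, 0, 1⟩⟩],
      [[4, 0, 4]]⟩,
     ⟨0, ⟨1, 0, 0⟩, 0, 0, ⟨⟨1, 0, 0⟩, ⟨0, 1, 0⟩, ⟨0, 0, 1⟩⟩, ⟨⟨0, -1, 0⟩, ⟨1, -1, 0⟩, ⟨0, 0, 1⟩⟩, false⟩),
    (⟨.c4b, .hex, 1, 1, 2, ⟨⟨-1, 0, 0⟩, ⟨-1, 1, 0⟩, ⟨0, 0, 1⟩⟩, ⟨⟨0, 1, 0⟩, ⟨1, 0, 0⟩, ⟨0, 0, 1⟩⟩, ⟨⟨⟨0, -1, 0⟩, ⟨-1, 0, 0⟩, ⟨0, 0, 1⟩⟩, ⟨2, -2, 1⟩⟩,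
      [⟨⟨-1, 0, 0⟩, ⟨-1, 1, 0⟩, ⟨0, 0, 1⟩⟩, ⟨⟨-1, 1, 0⟩, ⟨-1, 0, 0⟩, ⟨0, 0, 1⟩⟩,
       ⟨⟨0, -1, 0⟩, ⟨1, -1, 0⟩, ⟨0, 0, 1⟩⟩, ⟨⟨0, 1, 0⟩, ⟨1, 0, 0⟩, ⟨0, 0, 1⟩⟩,
       ⟨⟨1, -1, 0⟩, ⟨0, -1, 0⟩, ⟨0, 0, 1⟩⟩, ⟨⟨1, 0, 0⟩, ⟨0, 1, 0⟩, ⟨0, 0, 1⟩⟩],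
      [[4, 0, 4]]⟩,
     ⟨0, ⟨1, -1, 0⟩, 0, 0, ⟨⟨1, 0, 0⟩, ⟨0, 1, 0⟩, ⟨0, 0, 1⟩⟩, ⟨⟨0, -1, 0⟩, ⟨1, -1, 0⟩, ⟨0, 0, 1⟩⟩, false⟩),
    (⟨.reg, .hex, 1, 1, 1, ⟨⟨-1, 0, 0⟩, ⟨-1, 1, 0⟩, ⟨0, 0, 1⟩⟩, ⟨⟨0, 1, 0⟩, ⟨1, 0, 0⟩, ⟨0, 0, 1⟩⟩, ⟨⟨⟨0, -1, 0⟩, ⟨-1, 0, 0⟩, ⟨0, 0, -1⟩⟩, ⟨-1, -1, 1⟩⟩,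
      [⟨⟨-1, 0, 0⟩, ⟨-1, 1, 0⟩, ⟨0, 0, 1⟩⟩, ⟨⟨-1, 1, 0⟩, ⟨-1, 0, 0⟩, ⟨0, 0, 1⟩⟩,
       ⟨⟨0, -1, 0⟩, ⟨1, -1, 0⟩, ⟨0, 0, 1⟩⟩, ⟨⟨0, 1, 0⟩, ⟨1, 0, 0⟩, ⟨0, 0, 1⟩⟩,
       ⟨⟨1, -1, 0⟩, ⟨0, -1, 0⟩, ⟨0, 0, 1⟩⟩, ⟨⟨1, 0, 0⟩, ⟨0, 1, 0⟩, ⟨0, 0, 1⟩⟩],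
      []⟩,
     ⟨0, ⟨1, 0, 0⟩, 0, 0, ⟨⟨-1, 0, 0⟩, ⟨-1, 1, 0⟩, ⟨0, 0, 1⟩⟩, ⟨⟨0, 1, 0⟩, ⟨1, 0, 0⟩, ⟨0, 0, 1⟩⟩, false⟩),
    (⟨.c4b, .hex, 1, 1, 1, ⟨⟨-1, 0, 0⟩, ⟨-1, 1, 0⟩, ⟨0, 0, 1⟩⟩, ⟨⟨0, 1, 0⟩, ⟨1, 0, 0⟩, ⟨0, 0, 1⟩⟩, ⟨⟨⟨1, 0, 0⟩, ⟨0, 1, 0⟩, ⟨0, 0, 1⟩⟩, ⟨-1, 1, -1⟩⟩,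
      [⟨⟨-1, 0, 0⟩, ⟨-1, 1, 0⟩, ⟨0, 0, 1⟩⟩, ⟨⟨-1, 1, 0⟩, ⟨-1, 0, 0⟩, ⟨0, 0, 1⟩⟩,
       ⟨⟨0, -1, 0⟩, ⟨1, -1, 0⟩, ⟨0, 0, 1⟩⟩, ⟨⟨0, 1, 0⟩, ⟨1, 0, 0⟩, ⟨0, 0, 1⟩⟩,
       ⟨⟨1, -1, 0⟩, ⟨0, -1, 0⟩, ⟨0, 0, 1⟩⟩, ⟨⟨1, 0, 0⟩, ⟨0, 1, 0⟩, ⟨0, 0, 1⟩⟩],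
      [[4, 0, 4]]⟩,
     ⟨0, ⟨1, -1, 0⟩, 0, 0, ⟨⟨1, 0, 0⟩, ⟨0, 1, 0⟩, ⟨0, 0, 1⟩⟩, ⟨⟨1, 0, 0⟩, ⟨0, 1, 0⟩, ⟨0, 0, 1⟩⟩, true⟩),
    (⟨.c21, .hex, 1, 1, 1, ⟨⟨-1, 0, 0⟩, ⟨-1, 1, 0⟩, ⟨0, 0, 1⟩⟩, ⟨⟨0, 1, 0⟩, ⟨1, 0, 0⟩, ⟨0, 0, 1⟩⟩, ⟨⟨⟨0, 1, 0⟩, ⟨1, 0, 0⟩, ⟨0, 0, -1⟩⟩, ⟨1, -1, 1⟩⟩,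
      [⟨⟨-1, 0, 0⟩, ⟨-1, 1, 0⟩, ⟨0, 0, 1⟩⟩, ⟨⟨-1, 1, 0⟩, ⟨-1, 0, 0⟩, ⟨0, 0, 1⟩⟩,
       ⟨⟨0, -1, 0⟩, ⟨1, -1, 0⟩, ⟨0, 0, 1⟩⟩, ⟨⟨0, 1, 0⟩, ⟨1, 0, 0⟩, ⟨0, 0, 1⟩⟩,
       ⟨⟨1, -1, 0⟩, ⟨0, -1, 0⟩, ⟨0, 0, 1⟩⟩, ⟨⟨1, 0, 0⟩, ⟨0, 1, 0⟩, ⟨0, 0, 1⟩⟩],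
      [[4, 0, 4]]⟩,
     ⟨0, ⟨1, -1, 0⟩, 0, 0, ⟨⟨1, 0, 0⟩, ⟨0, 1, 0⟩, ⟨0, 0, 1⟩⟩, ⟨⟨0, 1, 0⟩, ⟨1, 0, 0⟩, ⟨0, 0, 1⟩⟩, false⟩),
    (⟨.reg, .hex, 1, 1, 2, ⟨⟨-1, 0, 0⟩, ⟨-1, 1, 0⟩, ⟨0, 0, -1⟩⟩, ⟨⟨0, 1, 0⟩, ⟨1, 0, 0⟩, ⟨0, 0, 1⟩⟩, ⟨⟨⟨0, -1, 0⟩, ⟨-1, 0, 0⟩, ⟨0, 0, -1⟩⟩, ⟨-2, -2, -1⟩⟩,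
      [⟨⟨-1, 0, 0⟩, ⟨-1, 1, 0⟩, ⟨0, 0, -1⟩⟩, ⟨⟨-1, 0, 0⟩, ⟨-1, 1, 0⟩, ⟨0, 0, 1⟩⟩,
       ⟨⟨-1, 1, 0⟩, ⟨-1, 0, 0⟩, ⟨0, 0, -1⟩⟩, ⟨⟨-1, 1, 0⟩, ⟨-1, 0, 0⟩, ⟨0, 0, 1⟩⟩,
       ⟨⟨0, -1, 0⟩, ⟨1, -1, 0⟩, ⟨0, 0, -1⟩⟩, ⟨⟨0, -1, 0⟩, ⟨1, -1, 0⟩, ⟨0, 0, 1⟩⟩,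
       ⟨⟨0, 1, 0⟩, ⟨1, 0, 0⟩, ⟨0, 0, -1⟩⟩, ⟨⟨0, 1, 0⟩, ⟨1, 0, 0⟩, ⟨0, 0, 1⟩⟩,
       ⟨⟨1, -1, 0⟩, ⟨0, -1, 0⟩, ⟨0, 0, -1⟩⟩, ⟨⟨1, -1, 0⟩, ⟨0, -1, 0⟩, ⟨0, 0, 1⟩⟩,
       ⟨⟨1, 0, 0⟩, ⟨0, 1, 0⟩, ⟨0, 0, -1⟩⟩, ⟨⟨1, 0, 0⟩, ⟨0, 1, 0⟩, ⟨0, 0, 1⟩⟩],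
      []⟩,
     ⟨0, ⟨1, 0, 0⟩, 0, 0, ⟨⟨-1, 0, 0⟩, ⟨-1, 1, 0⟩, ⟨0, 0, -1⟩⟩, ⟨⟨0, 1, 0⟩, ⟨1, 0, 0⟩, ⟨0, 0, 1⟩⟩, false⟩),
    (⟨.c21, .hex, 1, 1, 1, ⟨⟨-1, 0, 0⟩, ⟨-1, 1, 0⟩, ⟨0, 0, -1⟩⟩, ⟨⟨1, -1, 0⟩, ⟨0, -1, 0⟩, ⟨0, 0, 1⟩⟩, ⟨⟨⟨0, 1, 0⟩, ⟨1, 0, 0⟩, ⟨0, 0, -1⟩⟩, ⟨1, -1, 1⟩⟩,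
      [⟨⟨-1, 0, 0⟩, ⟨-1, 1, 0⟩, ⟨0, 0, -1⟩⟩, ⟨⟨-1, 0, 0⟩, ⟨-1, 1, 0⟩, ⟨0, 0, 1⟩⟩,
       ⟨⟨-1, 1, 0⟩, ⟨-1, 0, 0⟩, ⟨0, 0, -1⟩⟩, ⟨⟨-1, 1, 0⟩, ⟨-1, 0, 0⟩, ⟨0, 0, 1⟩⟩,
       ⟨⟨0, -1, 0⟩, ⟨1, -1, 0⟩, ⟨0, 0, -1⟩⟩, ⟨⟨0, -1, 0⟩, ⟨1, -1, 0⟩, ⟨0, 0, 1⟩⟩,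
       ⟨⟨0, 1, 0⟩, ⟨1, 0, 0⟩, ⟨0, 0, -1⟩⟩, ⟨⟨0, 1, 0⟩, ⟨1, 0, 0⟩, ⟨0, 0, 1⟩⟩,
       ⟨⟨1, -1, 0⟩, ⟨0, -1, 0⟩, ⟨0, 0, -1⟩⟩, ⟨⟨1, -1, 0⟩, ⟨0, -1, 0⟩, ⟨0, 0, 1⟩⟩,
       ⟨⟨1, 0, 0⟩, ⟨0, 1, 0⟩, ⟨0, 0, -1⟩⟩, ⟨⟨1, 0, 0⟩, ⟨0, 1, 0⟩, ⟨0, 0, 1⟩⟩],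
      [[4, 0, 4]]⟩,
     ⟨0, ⟨1, -1, 0⟩, 0, 0, ⟨⟨1, 0, 0⟩, ⟨0, 1, 0⟩, ⟨0, 0, 1⟩⟩, ⟨⟨0, 1, 0⟩, ⟨1, 0, 0⟩, ⟨0, 0, -1⟩⟩, false⟩),
    (⟨.c21, .hex, 1, 1, 2, ⟨⟨-1, 0, 0⟩, ⟨-1, 1, 0⟩, ⟨0, 0, 1⟩⟩, ⟨⟨-1, 1, 0⟩, ⟨0, 1, 0⟩, ⟨0, 0, -1⟩⟩, ⟨⟨⟨0, 1, 0⟩, ⟨1, 0, 0⟩, ⟨0, 0, -1⟩⟩, ⟨2, -2, 1⟩⟩,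
      [⟨⟨-1, 0, 0⟩, ⟨-1, 1, 0⟩, ⟨0, 0, 1⟩⟩, ⟨⟨-1, 0, 0⟩, ⟨0, -1, 0⟩, ⟨0, 0, -1⟩⟩,
       ⟨⟨-1, 1, 0⟩, ⟨-1, 0, 0⟩, ⟨0, 0, 1⟩⟩, ⟨⟨-1, 1, 0⟩, ⟨0, 1, 0⟩, ⟨0, 0, -1⟩⟩,
       ⟨⟨0, -1, 0⟩, ⟨-1, 0, 0⟩, ⟨0, 0, -1⟩⟩, ⟨⟨0, -1, 0⟩, ⟨1, -1, 0⟩, ⟨0, 0, 1⟩⟩,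
       ⟨⟨0, 1, 0⟩, ⟨-1, 1, 0⟩, ⟨0, 0, -1⟩⟩, ⟨⟨0, 1, 0⟩, ⟨1, 0, 0⟩, ⟨0, 0, 1⟩⟩,
       ⟨⟨1, -1, 0⟩, ⟨0, -1, 0⟩, ⟨0, 0, 1⟩⟩, ⟨⟨1, -1, 0⟩, ⟨1, 0, 0⟩, ⟨0, 0, -1⟩⟩,
       ⟨⟨1, 0, 0⟩, ⟨0, 1, 0⟩, ⟨0, 0, 1⟩⟩, ⟨⟨1, 0, 0⟩, ⟨1, -1, 0⟩, ⟨0, 0, -1⟩⟩],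
      [[4, 0, 4]]⟩,
     ⟨0, ⟨1, -1, 0⟩, 0, 0, ⟨⟨1, 0, 0⟩, ⟨0, 1, 0⟩, ⟨0, 0, 1⟩⟩, ⟨⟨0, 1, 0⟩, ⟨-1, 1, 0⟩, ⟨0, 0, -1⟩⟩, false⟩),
    (⟨.reg, .hex, 1, 1, 1, ⟨⟨-1, 1, 0⟩, ⟨0, 1, 0⟩, ⟨0, 0, -1⟩⟩, ⟨⟨-1, 0, 0⟩, ⟨-1, 1, 0⟩, ⟨0, 0, 1⟩⟩, ⟨⟨⟨1, 0, 0⟩, ⟨1, -1, 0⟩, ⟨0, 0, -1⟩⟩, ⟨0, 1, 1⟩⟩,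
      [⟨⟨-1, 0, 0⟩, ⟨-1, 1, 0⟩, ⟨0, 0, 1⟩⟩, ⟨⟨-1, 0, 0⟩, ⟨0, -1, 0⟩, ⟨0, 0, -1⟩⟩,
       ⟨⟨-1, 1, 0⟩, ⟨-1, 0, 0⟩, ⟨0, 0, 1⟩⟩, ⟨⟨-1, 1, 0⟩, ⟨0, 1, 0⟩, ⟨0, 0, -1⟩⟩,
       ⟨⟨0, -1, 0⟩, ⟨-1, 0, 0⟩, ⟨0, 0, -1⟩⟩, ⟨⟨0, -1, 0⟩, ⟨1, -1, 0⟩, ⟨0, 0, 1⟩⟩,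
       ⟨⟨0, 1, 0⟩, ⟨-1, 1, 0⟩, ⟨0, 0, -1⟩⟩, ⟨⟨0, 1, 0⟩, ⟨1, 0, 0⟩, ⟨0, 0, 1⟩⟩,
       ⟨⟨1, -1, 0⟩, ⟨0, -1, 0⟩, ⟨0, 0, 1⟩⟩, ⟨⟨1, -1, 0⟩, ⟨1, 0, 0⟩, ⟨0, 0, -1⟩⟩,
       ⟨⟨1, 0, 0⟩, ⟨0, 1, 0⟩, ⟨0, 0, 1⟩⟩, ⟨⟨1, 0, 0⟩, ⟨1, -1, 0⟩, ⟨0, 0, -1⟩⟩],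
      []⟩,
     ⟨0, ⟨1, 0, 0⟩, 0, 0, ⟨⟨0, -1, 0⟩, ⟨1, -1, 0⟩, ⟨0, 0, 1⟩⟩, ⟨⟨0, -1, 0⟩, ⟨1, -1, 0⟩, ⟨0, 0, 1⟩⟩, false⟩),
    (⟨.c21, .hex, 1, 1, 2, ⟨⟨-1, 0, 0⟩, ⟨-1, 1, 0⟩, ⟨0, 0, -1⟩⟩, ⟨⟨-1, 1, 0⟩, ⟨0, 1, 0⟩, ⟨0, 0, -1⟩⟩, ⟨⟨⟨-1, 0, 0⟩, ⟨0, -1, 0⟩, ⟨0, 0, -1⟩⟩, ⟨2, 0, 1⟩⟩,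
      [⟨⟨-1, 0, 0⟩, ⟨-1, 1, 0⟩, ⟨0, 0, -1⟩⟩, ⟨⟨-1, 0, 0⟩, ⟨0, -1, 0⟩, ⟨0, 0, 1⟩⟩,
       ⟨⟨-1, 1, 0⟩, ⟨-1, 0, 0⟩, ⟨0, 0, 1⟩⟩, ⟨⟨-1, 1, 0⟩, ⟨0, 1, 0⟩, ⟨0, 0, -1⟩⟩,
       ⟨⟨0, -1, 0⟩, ⟨-1, 0, 0⟩, ⟨0, 0, -1⟩⟩, ⟨⟨0, -1, 0⟩, ⟨1, -1, 0⟩, ⟨0, 0, 1⟩⟩,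
       ⟨⟨0, 1, 0⟩, ⟨-1, 1, 0⟩, ⟨0, 0, 1⟩⟩, ⟨⟨0, 1, 0⟩, ⟨1, 0, 0⟩, ⟨0, 0, -1⟩⟩,
       ⟨⟨1, -1, 0⟩, ⟨0, -1, 0⟩, ⟨0, 0, -1⟩⟩, ⟨⟨1, -1, 0⟩, ⟨1, 0, 0⟩, ⟨0, 0, 1⟩⟩,
       ⟨⟨1, 0, 0⟩, ⟨0, 1, 0⟩, ⟨0, 0, 1⟩⟩, ⟨⟨1, 0, 0⟩, ⟨1, -1, 0⟩, ⟨0, 0, -1⟩⟩],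
      [[4, 0, 4]]⟩,
     ⟨0, ⟨1, 0, 0⟩, 0, 0, ⟨⟨1, 0, 0⟩, ⟨0, 1, 0⟩, ⟨0, 0, 1⟩⟩, ⟨⟨-1, 0, 0⟩, ⟨-1, 1, 0⟩, ⟨0, 0, -1⟩⟩, false⟩),
    (⟨.c21, .hex, 1, 1, 1, ⟨⟨-1, 0, 0⟩, ⟨-1, 1, 0⟩, ⟨0, 0, -1⟩⟩, ⟨⟨-1, 1, 0⟩, ⟨0, 1, 0⟩, ⟨0, 0, -1⟩⟩, ⟨⟨⟨-1, 1, 0⟩, ⟨0, 1, 0⟩, ⟨0, 0, -1⟩⟩, ⟨1, 0, 1⟩⟩,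
      [⟨⟨-1, 0, 0⟩, ⟨-1, 1, 0⟩, ⟨0, 0, -1⟩⟩, ⟨⟨-1, 0, 0⟩, ⟨0, -1, 0⟩, ⟨0, 0, 1⟩⟩,
       ⟨⟨-1, 1, 0⟩, ⟨-1, 0, 0⟩, ⟨0, 0, 1⟩⟩, ⟨⟨-1, 1, 0⟩, ⟨0, 1, 0⟩, ⟨0, 0, -1⟩⟩,
       ⟨⟨0, -1, 0⟩, ⟨-1, 0, 0⟩, ⟨0, 0, -1⟩⟩, ⟨⟨0, -1, 0⟩, ⟨1, -1, 0⟩, ⟨0, 0, 1⟩⟩,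
       ⟨⟨0, 1, 0⟩, ⟨-1, 1, 0⟩, ⟨0, 0, 1⟩⟩, ⟨⟨0, 1, 0⟩, ⟨1, 0, 0⟩, ⟨0, 0, -1⟩⟩,
       ⟨⟨1, -1, 0⟩, ⟨0, -1, 0⟩, ⟨0, 0, -1⟩⟩, ⟨⟨1, -1, 0⟩, ⟨1, 0, 0⟩, ⟨0, 0, 1⟩⟩,
       ⟨⟨1, 0, 0⟩, ⟨0, 1, 0⟩, ⟨0, 0, 1⟩⟩, ⟨⟨1, 0, 0⟩, ⟨1, -1, 0⟩, ⟨0, 0, -1⟩⟩],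
      [[4, 0, 4]]⟩,
     ⟨0, ⟨1, 0, 0⟩, 0, 0, ⟨⟨1, 0, 0⟩, ⟨0, 1, 0⟩, ⟨0, 0, 1⟩⟩, ⟨⟨-1, 1, 0⟩, ⟨-1, 0, 0⟩, ⟨0, 0, 1⟩⟩, false⟩),
    (⟨.c4b, .hex, 1, 1, 1, ⟨⟨-1, 0, 0⟩, ⟨-1, 1, 0⟩, ⟨0, 0, 1⟩⟩, ⟨⟨-1, 1, 0⟩, ⟨0, 1, 0⟩, ⟨0, 0, 1⟩⟩, ⟨⟨⟨0, 1, 0⟩, ⟨1, 0, 0⟩, ⟨0, 0, 1⟩⟩, ⟨1, 3, -1⟩⟩,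
      [⟨⟨-1, 0, 0⟩, ⟨-1, 1, 0⟩, ⟨0, 0, 1⟩⟩, ⟨⟨-1, 0, 0⟩, ⟨0, -1, 0⟩, ⟨0, 0, 1⟩⟩,
       ⟨⟨-1, 1, 0⟩, ⟨-1, 0, 0⟩, ⟨0, 0, 1⟩⟩, ⟨⟨-1, 1, 0⟩, ⟨0, 1, 0⟩, ⟨0, 0, 1⟩⟩,
       ⟨⟨0, -1, 0⟩, ⟨-1, 0, 0⟩, ⟨0, 0, 1⟩⟩, ⟨⟨0, -1, 0⟩, ⟨1, -1, 0⟩, ⟨0, 0, 1⟩⟩,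
       ⟨⟨0, 1, 0⟩, ⟨-1, 1, 0⟩, ⟨0, 0, 1⟩⟩, ⟨⟨0, 1, 0⟩, ⟨1, 0, 0⟩, ⟨0, 0, 1⟩⟩,
       ⟨⟨1, -1, 0⟩, ⟨0, -1, 0⟩, ⟨0, 0, 1⟩⟩, ⟨⟨1, -1, 0⟩, ⟨1, 0, 0⟩, ⟨0, 0, 1⟩⟩,
       ⟨⟨1, 0, 0⟩, ⟨0, 1, 0⟩, ⟨0, 0, 1⟩⟩, ⟨⟨1, 0, 0⟩, ⟨1, -1, 0⟩, ⟨0, 0, 1⟩⟩],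
      [[4, 0, 4]]⟩,
     ⟨0, ⟨-1, 2, 0⟩, 0, 0, ⟨⟨1, 0, 0⟩, ⟨0, 1, 0⟩, ⟨0, 0, 1⟩⟩, ⟨⟨0, 1, 0⟩, ⟨-1, 1, 0⟩, ⟨0, 0, 1⟩⟩, true⟩),
    (⟨.reg, .hex, 1, 1, 1, ⟨⟨-1, 1, 0⟩, ⟨0, 1, 0⟩, ⟨0, 0, 1⟩⟩, ⟨⟨-1, 0, 0⟩, ⟨-1, 1, 0⟩, ⟨0, 0, 1⟩⟩, ⟨⟨⟨1, 0, 0⟩, ⟨1, -1, 0⟩, ⟨0, 0, -1⟩⟩, ⟨0, -1, 1⟩⟩,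
      [⟨⟨-1, 0, 0⟩, ⟨-1, 1, 0⟩, ⟨0, 0, 1⟩⟩, ⟨⟨-1, 0, 0⟩, ⟨0, -1, 0⟩, ⟨0, 0, 1⟩⟩,
       ⟨⟨-1, 1, 0⟩, ⟨-1, 0, 0⟩, ⟨0, 0, 1⟩⟩, ⟨⟨-1, 1, 0⟩, ⟨0, 1, 0⟩, ⟨0, 0, 1⟩⟩,
       ⟨⟨0, -1, 0⟩, ⟨-1, 0, 0⟩, ⟨0, 0, 1⟩⟩, ⟨⟨0, -1, 0⟩, ⟨1, -1, 0⟩, ⟨0, 0, 1⟩⟩,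
       ⟨⟨0, 1, 0⟩, ⟨-1, 1, 0⟩, ⟨0, 0, 1⟩⟩, ⟨⟨0, 1, 0⟩, ⟨1, 0, 0⟩, ⟨0, 0, 1⟩⟩,
       ⟨⟨1, -1, 0⟩, ⟨0, -1, 0⟩, ⟨0, 0, 1⟩⟩, ⟨⟨1, -1, 0⟩, ⟨1, 0, 0⟩, ⟨0, 0, 1⟩⟩,
       ⟨⟨1, 0, 0⟩, ⟨0, 1, 0⟩, ⟨0, 0, 1⟩⟩, ⟨⟨1, 0, 0⟩, ⟨1, -1, 0⟩, ⟨0, 0, 1⟩⟩],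
      []⟩,
     ⟨0, ⟨1, 0, 0⟩, 0, 0, ⟨⟨0, -1, 0⟩, ⟨-1, 0, 0⟩, ⟨0, 0, 1⟩⟩, ⟨⟨-1, 1, 0⟩, ⟨0, 1, 0⟩, ⟨0, 0, 1⟩⟩, false⟩)
  ]

/-- One example for each family of each orthogonal block. -/
def ortFamEx : List (Data × Pos) :=
  [
    (⟨.c4b, .ort, 1, 2, 1, ⟨⟨-1, 0, 0⟩, ⟨0, -1, 0⟩, ⟨0, 0, 1⟩⟩, ⟨⟨-1, 0, 0⟩, ⟨0, 1, 0⟩, ⟨0, 0, -1⟩⟩, ⟨⟨⟨1, 0, 0⟩, ⟨0, -1, 0⟩, ⟨0, 0, -1⟩⟩, ⟨1, 1, 1⟩⟩,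
      [⟨⟨-1, 0, 0⟩, ⟨0, -1, 0⟩, ⟨0, 0, 1⟩⟩, ⟨⟨-1, 0, 0⟩, ⟨0, 1, 0⟩, ⟨0, 0, -1⟩⟩,
       ⟨⟨1, 0, 0⟩, ⟨0, -1, 0⟩, ⟨0, 0, -1⟩⟩, ⟨⟨1, 0, 0⟩, ⟨0, 1, 0⟩, ⟨0, 0, 1⟩⟩],
      [[4, 0, 4]]⟩,
     ⟨0, ⟨0, 0, 0⟩, 0, 0, ⟨⟨1, 0, 0⟩, ⟨0, 1, 0⟩, ⟨0, 0, 1⟩⟩, ⟨⟨1, 0, 0⟩, ⟨0, -1, 0⟩, ⟨0, 0, -1⟩⟩, false⟩),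
    (⟨.c21, .ort, 1, 2, 1, ⟨⟨-1, 0, 0⟩, ⟨0, -1, 0⟩, ⟨0, 0, 1⟩⟩, ⟨⟨-1, 0, 0⟩, ⟨0, 1, 0⟩, ⟨0, 0, -1⟩⟩, ⟨⟨⟨-1, 0, 0⟩, ⟨0, -1, 0⟩, ⟨0, 0, -1⟩⟩, ⟨1, 1, 1⟩⟩,
      [⟨⟨-1, 0, 0⟩, ⟨0, -1, 0⟩, ⟨0, 0, 1⟩⟩, ⟨⟨-1, 0, 0⟩, ⟨0, 1, 0⟩, ⟨0, 0, -1⟩⟩,
       ⟨⟨1, 0, 0⟩, ⟨0, -1, 0⟩, ⟨0, 0, -1⟩⟩, ⟨⟨1, 0, 0⟩, ⟨0, 1, 0⟩, ⟨0, 0, 1⟩⟩],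
      [[4, 0, 4]]⟩,
     ⟨0, ⟨0, 0, 0⟩, 0, 0, ⟨⟨1, 0, 0⟩, ⟨0, 1, 0⟩, ⟨0, 0, 1⟩⟩, ⟨⟨-1, 0, 0⟩, ⟨0, -1, 0⟩, ⟨0, 0, 1⟩⟩, false⟩),
    (⟨.c4b, .ort, 1, 1, 1, ⟨⟨-1, 0, 0⟩, ⟨0, -1, 0⟩, ⟨0, 0, -1⟩⟩, ⟨⟨-1, 0, 0⟩, ⟨0, 1, 0⟩, ⟨0, 0, 1⟩⟩, ⟨⟨⟨1, 0, 0⟩, ⟨0, 1, 0⟩, ⟨0, 0, -1⟩⟩, ⟨1, 1, 1⟩⟩,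
      [⟨⟨-1, 0, 0⟩, ⟨0, -1, 0⟩, ⟨0, 0, -1⟩⟩, ⟨⟨-1, 0, 0⟩, ⟨0, 1, 0⟩, ⟨0, 0, 1⟩⟩,
       ⟨⟨1, 0, 0⟩, ⟨0, -1, 0⟩, ⟨0, 0, -1⟩⟩, ⟨⟨1, 0, 0⟩, ⟨0, 1, 0⟩, ⟨0, 0, 1⟩⟩],
      [[5, 0, 4]]⟩,
     ⟨0, ⟨0, 0, 0⟩, 0, 0, ⟨⟨1, 0, 0⟩, ⟨0, 1, 0⟩, ⟨0, 0, 1⟩⟩, ⟨⟨1, 0, 0⟩, ⟨0, 1, 0⟩, ⟨0, 0, 1⟩⟩, false⟩),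
    (⟨.c4b, .ort, 1, 1, 1, ⟨⟨-1, 0, 0⟩, ⟨0, -1, 0⟩, ⟨0, 0, 1⟩⟩, ⟨⟨-1, 0, 0⟩, ⟨0, 1, 0⟩, ⟨0, 0, 1⟩⟩, ⟨⟨⟨1, 0, 0⟩, ⟨0, 1, 0⟩, ⟨0, 0, 1⟩⟩, ⟨-1, -1, -1⟩⟩,
      [⟨⟨-1, 0, 0⟩, ⟨0, -1, 0⟩, ⟨0, 0, 1⟩⟩, ⟨⟨-1, 0, 0⟩, ⟨0, 1, 0⟩, ⟨0, 0, 1⟩⟩,
       ⟨⟨1, 0, 0⟩, ⟨0, -1, 0⟩, ⟨0, 0, 1⟩⟩, ⟨⟨1, 0, 0⟩, ⟨0, 1, 0⟩, ⟨0, 0, 1⟩⟩],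
      [[4, 0, 4]]⟩,
     ⟨0, ⟨0, 0, 0⟩, 0, 0, ⟨⟨1, 0, 0⟩, ⟨0, 1, 0⟩, ⟨0, 0, 1⟩⟩, ⟨⟨1, 0, 0⟩, ⟨0, 1, 0⟩, ⟨0, 0, 1⟩⟩, true⟩),
    (⟨.c21, .ort, 1, 1, 1, ⟨⟨-1, 0, 0⟩, ⟨0, -1, 0⟩, ⟨0, 0, 1⟩⟩, ⟨⟨-1, 0, 0⟩, ⟨0, 1, 0⟩, ⟨0, 0, 1⟩⟩, ⟨⟨⟨-1, 0, 0⟩, ⟨0, -1, 0⟩, ⟨0, 0, -1⟩⟩, ⟨1, 1, 1⟩⟩,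
      [⟨⟨-1, 0, 0⟩, ⟨0, -1, 0⟩, ⟨0, 0, 1⟩⟩, ⟨⟨-1, 0, 0⟩, ⟨0, 1, 0⟩, ⟨0, 0, 1⟩⟩,
       ⟨⟨1, 0, 0⟩, ⟨0, -1, 0⟩, ⟨0, 0, 1⟩⟩, ⟨⟨1, 0, 0⟩, ⟨0, 1, 0⟩, ⟨0, 0, 1⟩⟩],
      [[4, 0, 4]]⟩,
     ⟨0, ⟨0, 0, 0⟩, 0, 0, ⟨⟨1, 0, 0⟩, ⟨0, 1, 0⟩, ⟨0, 0, 1⟩⟩, ⟨⟨-1, 0, 0⟩, ⟨0, -1, 0⟩, ⟨0, 0, 1⟩⟩, false⟩)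
  ]

/-- One example for each family of each block. -/
def famEx : List (Data × Pos) := cubFamEx ++ tetFamEx ++ hexFamEx ++ ortFamEx

end Pool.Agent.H21.FT.Ex
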