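import Pool.Agent.H21.FT.ExData
import Pool.Agent.H21.FT.RowFacts

/-!
# Soundness of the checker of the blocks; a tube
-/

set_option autoImplicit false

namespace Pool.Agent.H21.FT

open Matrix

namespace ExG

theorem det_of_mul {M N : IM} (h : M.mul N = IM.one) : M.mat.det ≠ 0 := by
  have e : M.mat * N.mat = 1 := by rw [← rf_mul_mat, h, rf_one_mat]
  have e2 := congrArg Matrix.det e
  rw [Matrix.det_mul, Matrix.det_one] at e2
  exact left_ne_zero_of_mul_eq_one e2

theorem det_of_aff {g : Equiv.Perm V3} {M : M3} {a : V3} (h : IsAff g M a) : M.det ≠ 0 := by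
  intro h0
  obtain ⟨v, hv, hv0⟩ := Matrix.exists_mulVec_eq_zero_iff.2 h0
  apply hv
  apply g.injective
  rw [h, h, hv0, mulVec_zero]

theorem aff_isAff {M : M3} (h : M.det ≠ 0) (a : V3) : IsAff (aff M a) M a := by
  intro x
  rw [aff, dif_pos h.isUnit]
  rfl

theorem aff_eq {g : Equiv.Perm V3} {M : M3} {a : V3} (hg : IsAff g M a) : aff M a = g :=
  rf_ext (aff_isAff (det_of_aff hg) a) hg

theorem foldl {P : IM → Prop} (l : List IM) : ∀ acc : List IM, (∀ M ∈ l, P M) →
    (∀ M ∈ acc, P M) → ∀ M ∈ l.foldl (fun acc N => if N ∈ acc then acc else acc ++ [N]) acc,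
      P M := by
  induction l with
  | nil =>
    intro acc _ h
    exact h
  | cons x l ih =>
    intro acc h1 h2
    rw [List.foldl_cons]
    apply ih _ (fun M hM => h1 M (List.mem_cons_of_mem _ hM))
    split_ifs
    · exact h2
    · intro M hM
      rw [List.mem_append, List.mem_singleton] at hM
      rcases hM with hM | rfl
      · exact h2 M hM
      · exact h1 _ (by simp)

theorem elts_ind {G : List IM} {P : IM → Prop} (h1 : P IM.one)
    (hm : ∀ g ∈ G, ∀ M, P M → P (g.mul M)) : ∀ M ∈ elts G, P M := by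
  have h : ∀ (n : ℕ) (L : List IM), (∀ M ∈ L, P M) → ∀ M ∈ (extend G)^[n] L, P M := by
    intro n
    induction n with
    | zero => exact fun L hL => hL
    | succ n ih =>
      intro L hL
      rw [Function.iterate_succ_apply]
      apply ih
      apply foldl _ _ _ hL
      intro M hM
      rw [List.mem_flatMap] at hM
      obtain ⟨N, hN, hM⟩ := hM
      rw [List.mem_map] at hM
      obtain ⟨g, hg, rfl⟩ := hM
      exact hm g hg N (hL N hN)
  apply h
  intro M hM
  rw [List.mem_singleton] at hM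
  rw [hM]
  exact h1

/-- The elements of the list are linear maps of the group. -/
theorem elts_mem {G : List IM} (hG : ∀ M ∈ G, M.mat.det ≠ 0) {M : IM} (hM : M ∈ elts G) :
    M.mat.det ≠ 0 ∧ aff M.mat 0 ∈ linGrp G := by
  have h : ∀ M ∈ elts G, ∃ g ∈ linGrp G, IsAff g M.mat 0 := by
    apply elts_ind
    · refine ⟨1, one_mem _, ?_⟩
      rw [rf_one_mat]
      exact rf_one
    · rintro N hN M ⟨g, hg, hgM⟩
      have h1 := aff_isAff (hG N hN) 0
      refine ⟨aff N.mat 0 * g, mul_mem (Subgroup.subset_closure ⟨N, hN, h1⟩) hg, ?_⟩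
      have h2 := rf_mul h1 hgM
      rw [mulVec_zero, add_zero, ← rf_mul_mat] at h2
      exact h2
  obtain ⟨g, hg, hgM⟩ := h M hM
  have hd := det_of_aff hgM
  refine ⟨hd, ?_⟩
  rw [rf_ext (aff_isAff hd 0) hgM]
  exact hg

theorem linGrp_pair {A B : Equiv.Perm V3} {MA MB : IM} (hA : IsAff A MA.mat 0)
    (hB : IsAff B MB.mat 0) : linGrp [MA, MB] = stab A B := by
  unfold linGrp stab
  congr 1
  ext g
  simp only [List.mem_cons, List.not_mem_nil, or_false, exists_eq_or_imp, exists_eq_left,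
    Set.mem_ofPred_eq, Set.mem_insert_iff, Set.mem_singleton_iff]
  constructor
  · rintro (h | h)
    · exact Or.inl (rf_ext h hA)
    · exact Or.inr (rf_ext h hB)
  · rintro (rfl | rfl)
    · exact Or.inl hA
    · exact Or.inr hB

theorem vec_add (v w : IV) : (v.add w).vec = v.vec + w.vec := by
  ext i
  fin_cases i <;> simp [IV.add, IV.vec]

theorem vec_neg (v : IV) : v.neg.vec = -v.vec := by
  ext i
  fin_cases i <;> simp [IV.neg, IV.vec]

theorem vec_smul (k : ℤ) (v : IV) : (v.smul k).vec = (k : ℝ) • v.vec := by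
  ext i
  fin_cases i <;> simp [IV.smul, IV.vec]

theorem mv_vec (M : IM) (v : IV) : (M.mv v).vec = M.mat *ᵥ v.vec := by
  ext i
  fin_cases i <;> simp [IM.mv, IM.mat, IV.vec, IV.dot]
  all_goals ring

theorem base_vec (f : Fam) (n : IV) : (f.base n).vec =
    f.v.vec + (n.x : ℝ) • f.T1.vec + (n.y : ℝ) • f.T2.vec + (n.z : ℝ) • f.T3.vec := by
  simp only [Fam.base, vec_add, vec_smul]

theorem pt_eq (f : Fam) (n : IV) (x y : ℝ) :
    f.pt n x y = ((f.den : ℝ)⁻¹) • (f.base n).vec + x • f.K1.vec + y • f.K2.vec := by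
  rw [base_vec]
  rfl

/-- The formal affine map describes `g` (with the denominator `d`). -/
def ZRep (d : ℤ) (g : Equiv.Perm V3) (p : Ex.ZA) : Prop :=
  IsAff g p.M.mat (((d : ℝ)⁻¹) • p.v.vec)

theorem ZRep.mul {d : ℤ} {g h : Equiv.Perm V3} {p q : Ex.ZA} (hg : ZRep d g p) (hh : ZRep d h q) :
    ZRep d (g * h) (p.mul q) := by
  have h1 := rf_mul hg hh
  unfold ZRep
  simp only [Ex.ZA.mul, rf_mul_mat, vec_add, mv_vec, smul_add]
  rw [mulVec_smul] at h1
  exact h1

theorem ZRep.lin {d : ℤ} {g : Equiv.Perm V3} {M : IM} (hg : IsAff g M.mat 0) :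
    ZRep d g (Ex.ZA.lin M) := by
  have h0 : (⟨0, 0, 0⟩ : IV).vec = 0 := by
    ext i
    fin_cases i <;> simp [IV.vec]
  unfold ZRep
  simp only [Ex.ZA.lin, h0, smul_zero]
  exact hg

theorem ZRep.inv {d : ℤ} {g : Equiv.Perm V3} {p : Ex.ZA} (hg : ZRep d g p)
    (hi : (Ex.invM p.M).mul p.M = IM.one) : ZRep d g⁻¹ p.inv := by
  have h1 : (Ex.invM p.M).mat * p.M.mat = 1 := by rw [← rf_mul_mat, hi, rf_one_mat]
  have h2 := rf_inv hg h1
  unfold ZRep
  simp only [Ex.ZA.inv, vec_neg, mv_vec, smul_neg]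
  rw [mulVec_smul] at h2
  exact h2

end ExG

open ExG in
/-- Soundness of the checker `Ex.givesOK`. -/
theorem ex_gives {e : Ex.Data} {p : Ex.Pos} {b : Block} (hd : 0 < e.d)
    (h : Ex.givesOK e p b = true) {A B s : Equiv.Perm V3} (hA : IsAff A e.A.mat 0)
    (hB : IsAff B e.B.mat 0) (hs : IsAff s e.s.M.mat (((e.d : ℝ)⁻¹) • e.s.v.vec)) :
    b.kind = e.kind ∧ b.Gives A B s := by
  unfold Ex.givesOK at h
  cases hf : b.fams[p.fam]? with
  | none => simp [hf] at h
  | some f =>
    simp only [hf, Bool.and_eq_true, decide_eq_true_eq, List.all_eq_true] at h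
    obtain ⟨⟨⟨⟨⟨⟨⟨⟨hk, hA1⟩, hB1⟩, hg⟩, hh⟩, hh'⟩, hS1⟩, hS2⟩,
      ⟨⟨⟨⟨hden, hdvd⟩, hbase⟩, hexc⟩, hse⟩⟩ := h
    refine ⟨hk, ?_⟩
    have hdR : (e.d : ℝ) ≠ 0 := by exact_mod_cast hd.ne'
    have hG2 : ∀ M ∈ [e.A, e.B], M.mat.det ≠ 0 := by
      intro M hM
      simp only [List.mem_cons, List.not_mem_nil, or_false] at hM
      rcases hM with rfl | rfl
      · exact det_of_aff hA
      · exact det_of_aff hB
    have hpair := linGrp_pair hA hB
    have hG : ∀ M ∈ b.gens, M.mat.det ≠ 0 := fun M hM => (elts_mem hG2 (hg M hM)).1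
    have hst : stab A B = linGrp b.gens := by
      apply le_antisymm
      · unfold stab
        rw [Subgroup.closure_le]
        rintro x (rfl | rfl)
        · rw [← aff_eq hA]
          exact (elts_mem hG hA1).2
        · rw [← aff_eq hB]
          exact (elts_mem hG hB1).2
      · rw [← hpair]
        rw [linGrp, Subgroup.closure_le]
        rintro x ⟨M, hM, hx⟩
        rw [← aff_eq hx]
        exact (elts_mem hG2 (hg M hM)).2
    have hfm : f ∈ b.fams := List.mem_of_getElem? hf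
    refine ⟨hst, f, hfm, p.n, (p.x : ℝ) / e.d, (p.y : ℝ) / e.d, ?_, hbase, ?_⟩
    · rintro ⟨c, hc, hall⟩
      unfold Ex.exclOK at hexc
      rw [List.all_eq_true] at hexc
      have h1 := hexc c hc
      rw [List.any_eq_true] at h1
      obtain ⟨q, hq, hnd⟩ := h1
      obtain ⟨k, hkq⟩ := hall q hq
      simp only [Bool.not_eq_true', decide_eq_false_iff_not] at hnd
      apply hnd
      refine ⟨k, ?_⟩
      have h2 : (q.al : ℝ) * p.x + (q.be : ℝ) * p.y + (q.ga : ℝ) * e.d =
          (q.d : ℝ) * e.d * k := by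
        field_simp at hkq
        linear_combination hkq
      exact_mod_cast h2
    · have hSd : b.S.mat.det ≠ 0 := det_of_mul hS1
      refine ⟨aff b.S.mat (f.pt p.n ((p.x : ℝ) / e.d) ((p.y : ℝ) / e.d)), aff_isAff hSd _, ?_⟩
      set t := aff b.S.mat (f.pt p.n ((p.x : ℝ) / e.d) ((p.y : ℝ) / e.d)) with ht
      set tz : Ex.ZA := ⟨b.S, (((f.base p.n).smul (e.d / f.den)).add (f.K1.smul p.x)).add
        (f.K2.smul p.y)⟩ with htz
      have hdenR : (f.den : ℝ) ≠ 0 := by exact_mod_cast hden.ne'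
      have hrt : ZRep e.d t tz := by
        have h1 : IsAff t b.S.mat (f.pt p.n ((p.x : ℝ) / e.d) ((p.y : ℝ) / e.d)) :=
          aff_isAff hSd _
        unfold ZRep
        have h2 : ((e.d : ℝ)⁻¹) • tz.v.vec =
            f.pt p.n ((p.x : ℝ) / e.d) ((p.y : ℝ) / e.d) := by
          rw [pt_eq, htz]
          simp only [vec_add, vec_smul, smul_add, smul_smul]
          obtain ⟨k, hk⟩ := hdvd
          have h3 : e.d / f.den = k := by
            rw [hk]
            exact Int.mul_ediv_cancel_left _ hden.ne'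
          have h4 : (e.d : ℝ)⁻¹ * ((e.d / f.den : ℤ) : ℝ) = (f.den : ℝ)⁻¹ := by
            rw [h3]
            have h5 : (e.d : ℝ) = f.den * k := by exact_mod_cast hk
            have h6 : (k : ℝ) ≠ 0 := by
              intro h7
              rw [h7, mul_zero] at h5
              exact hdR h5
            rw [h5]
            field_simp
          rw [h4, inv_mul_eq_div, inv_mul_eq_div]
        rw [h2]
        exact h1
      have hhm := elts_mem hG hh
      have hhm' := elts_mem hG hh'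
      rw [← hst] at hhm hhm'
      refine ⟨aff p.h.mat 0, hhm.2, aff p.h'.mat 0, hhm'.2, ?_⟩
      have hrs : ZRep e.d s e.s := hs
      have hrh : ZRep e.d (aff p.h.mat 0) (Ex.ZA.lin p.h) := ZRep.lin (aff_isAff hhm.1 0)
      have hrh' : ZRep e.d (aff p.h'.mat 0) (Ex.ZA.lin p.h') := ZRep.lin (aff_isAff hhm'.1 0)
      rcases hb : p.inv with _ | _
      · left
        rw [hb] at hse
        have h1 := (hrh.mul hrt).mul hrh'
        rw [hse] at hrs
        exact rf_ext hrs h1
      · right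
        rw [hb] at hse
        have h1 := (hrh.mul (hrt.inv hS2)).mul hrh'
        rw [hse] at hrs
        exact rf_ext hrs h1

open ExG in
/-- The example of a tube is a rod. -/
theorem tube_has {A B s : Equiv.Perm V3} (hA : IsAff A Ex.tubeEx.A.mat 0)
    (hB : IsAff B Ex.tubeEx.B.mat 0)
    (hs : IsAff s Ex.tubeEx.s.M.mat (((Ex.tubeEx.d : ℝ)⁻¹) • Ex.tubeEx.s.v.vec)) :
    Rod.r1.Has A B s := by
  refine ⟨(linGrp_pair hA hB).symm, Real.pi / 2, ⟨1, 2, by norm_num, by push_cast; ring⟩, ?_, ?_⟩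
  · rw [Real.sin_pi_div_two]
    exact one_ne_zero
  · have hdet : (rodMat (Real.pi / 2) Rod.r1.sgn).det ≠ 0 := by
      rw [det_fin_three]
      simp [rodMat, Rod.sgn]
    refine ⟨aff (rodMat (Real.pi / 2) Rod.r1.sgn)
      ![Real.cos (Real.pi / 2) - 1, Real.sin (Real.pi / 2), 1], aff_isAff hdet _, A * B,
      mul_mem (Subgroup.subset_closure (Or.inl rfl)) (Subgroup.subset_closure (Or.inr rfl)), 1,
      one_mem _, Or.inl ?_⟩
    rw [mul_one]
    apply Equiv.ext
    intro x
    rw [hs x, Equiv.Perm.mul_apply, Equiv.Perm.mul_apply, hA, hB, aff_isAff hdet]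
    ext i
    fin_cases i <;>
      simp [Ex.tubeEx, IM.mat, IV.vec, rodMat, Rod.sgn, dotProduct, Fin.sum_univ_three]
    all_goals ring

end Pool.Agent.H21.FT
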