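import Pool.Agent.H21.FT.ListSplit
import Pool.Agent.H21.FT.Entry
import Pool.Agent.H21.FT.ExFam

/-!
# Kernel checks of the examples
-/

namespace Pool.Agent.H21.FT

namespace ExKer

/-- The blocks with one of their families. -/
def singles (l : List Block) : List Block := l.flatMap fun b => b.fams.map b.only

/-- The check of an example. -/
def chk (x : (Ex.Data × Ex.Pos) × Block) : Bool :=
  Ex.ok x.1.1 && Ex.givesOK x.1.1 x.1.2 x.2 && (decide (x.1.1.kind = .ort) || decide (x.1.1.b = 1)) &&
    (decide (x.1.1.kind ≠ .cub) || decide (x.1.1.c = 1))

/-- The check of all examples. -/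
def allChk (e : List (Ex.Data × Ex.Pos)) (l : List Block) : Bool :=
  decide (e.length = (singles l).length) && (e.zip (singles l)).all chk

theorem allChk_of {e : List (Ex.Data × Ex.Pos)} {l : List Block}
    (h : e.length = (singles l).length) (h2 : (e.zip (singles l)).all chk = true) :
    allChk e l = true := by
  rw [allChk, decide_eq_true h, h2]
  rfl

set_option maxRecDepth 100000 in
theorem cub_len : Ex.cubFamEx.length = (singles Catalogue.cubic).length := by decide +kernel

set_option maxRecDepth 100000 in
theorem cub_p0 : (((Ex.cubFamEx.zip (singles Catalogue.cubic)).drop 0).take 12).all chk = true := by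
  decide +kernel

set_option maxRecDepth 100000 in
theorem cub_p1 : (((Ex.cubFamEx.zip (singles Catalogue.cubic)).drop 12).take 12).all chk = true := by
  decide +kernel

set_option maxRecDepth 100000 in
theorem cub_p2 : (((Ex.cubFamEx.zip (singles Catalogue.cubic)).drop 24).take 12).all chk = true := by
  decide +kernel

set_option maxRecDepth 100000 in
theorem cub_p3 : (((Ex.cubFamEx.zip (singles Catalogue.cubic)).drop 36).take 12).all chk = true := by
  decide +kernel

set_option maxRecDepth 100000 in
theorem cub_p4 : (((Ex.cubFamEx.zip (singles Catalogue.cubic)).drop 48).take 12).all chk = true := by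
  decide +kernel

set_option maxRecDepth 100000 in
theorem cub_p5 : (((Ex.cubFamEx.zip (singles Catalogue.cubic)).drop 60).take 12).all chk = true := by
  decide +kernel

set_option maxRecDepth 100000 in
theorem cub_p6 : (((Ex.cubFamEx.zip (singles Catalogue.cubic)).drop 72).take 12).all chk = true := by
  decide +kernel

set_option maxRecDepth 100000 in
theorem cub_p7 : (((Ex.cubFamEx.zip (singles Catalogue.cubic)).drop 84).take 12).all chk = true := by
  decide +kernel

set_option maxRecDepth 100000 in
theorem cub_p8 : ((Ex.cubFamEx.zip (singles Catalogue.cubic)).drop 96).all chk = true := by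
  decide +kernel

theorem cub : allChk Ex.cubFamEx Catalogue.cubic = true := by
  have h : ((Ex.cubFamEx.zip (singles Catalogue.cubic)).drop 0).all chk = true := by
    refine all_step 0 12 cub_p0 ?_
    refine all_step 12 12 cub_p1 ?_
    refine all_step 24 12 cub_p2 ?_
    refine all_step 36 12 cub_p3 ?_
    refine all_step 48 12 cub_p4 ?_
    refine all_step 60 12 cub_p5 ?_
    refine all_step 72 12 cub_p6 ?_
    refine all_step 84 12 cub_p7 ?_
    exact cub_p8
  exact allChk_of cub_len h

set_option maxRecDepth 100000 in
theorem tet_len : Ex.tetFamEx.length = (singles Catalogue.tetragonal).length := by decide +kernel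

set_option maxRecDepth 100000 in
theorem tet_p0 : (((Ex.tetFamEx.zip (singles Catalogue.tetragonal)).drop 0).take 9).all chk = true := by
  decide +kernel

set_option maxRecDepth 100000 in
theorem tet_p1 : ((Ex.tetFamEx.zip (singles Catalogue.tetragonal)).drop 9).all chk = true := by
  decide +kernel

theorem tet : allChk Ex.tetFamEx Catalogue.tetragonal = true := by
  have h : ((Ex.tetFamEx.zip (singles Catalogue.tetragonal)).drop 0).all chk = true := by
    refine all_step 0 9 tet_p0 ?_
    exact tet_p1
  exact allChk_of tet_len h

set_option maxRecDepth 100000 in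
theorem hex_len : Ex.hexFamEx.length = (singles Catalogue.hexagonal).length := by decide +kernel

set_option maxRecDepth 100000 in
theorem hex_p0 : (((Ex.hexFamEx.zip (singles Catalogue.hexagonal)).drop 0).take 8).all chk = true := by
  decide +kernel

set_option maxRecDepth 100000 in
theorem hex_p1 : (((Ex.hexFamEx.zip (singles Catalogue.hexagonal)).drop 8).take 8).all chk = true := by
  decide +kernel

set_option maxRecDepth 100000 in
theorem hex_p2 : (((Ex.hexFamEx.zip (singles Catalogue.hexagonal)).drop 16).take 8).all chk = true := by
  decide +kernel

set_option maxRecDepth 100000 in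
theorem hex_p3 : (((Ex.hexFamEx.zip (singles Catalogue.hexagonal)).drop 24).take 8).all chk = true := by
  decide +kernel

set_option maxRecDepth 100000 in
theorem hex_p4 : ((Ex.hexFamEx.zip (singles Catalogue.hexagonal)).drop 32).all chk = true := by
  decide +kernel

theorem hex : allChk Ex.hexFamEx Catalogue.hexagonal = true := by
  have h : ((Ex.hexFamEx.zip (singles Catalogue.hexagonal)).drop 0).all chk = true := by
    refine all_step 0 8 hex_p0 ?_
    refine all_step 8 8 hex_p1 ?_
    refine all_step 16 8 hex_p2 ?_
    refine all_step 24 8 hex_p3 ?_
    exact hex_p4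
  exact allChk_of hex_len h

set_option maxRecDepth 100000 in
theorem ort : allChk Ex.ortFamEx Catalogue.orthogonal = true := by decide +kernel

theorem occurs (c : Cls) : Ex.famEx.any (fun x => decide (x.1.cls = c)) = true := by
  cases c <;> decide +kernel

end ExKer

end Pool.Agent.H21.FT
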