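import Pool.Agent.H21.FT.ExDefs

/-!
# Soundness of the checks for generators with rational coordinates
-/

namespace Pool.Agent.H21.FT

open Matrix

namespace ExS

open Ex

/-! ### Affine maps -/

theorem aff_mul {g h : Equiv.Perm V3} {M N : M3} {a b : V3} (hg : IsAff g M a)
    (hh : IsAff h N b) : IsAff (g * h) (M * N) (M *ᵥ b + a) := fun x => by
  rw [Equiv.Perm.mul_apply, hh, hg, mulVec_add, mulVec_mulVec, add_assoc]

theorem aff_inv {g : Equiv.Perm V3} {M N : M3} {a : V3} (hg : IsAff g M a) (hN : N * M = 1) :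
    IsAff g⁻¹ N (-(N *ᵥ a)) := fun x => by
  have h1 : g (g⁻¹ x) = x := by simp
  rw [hg] at h1
  have h2 : N *ᵥ (M *ᵥ (g⁻¹ x) + a) = N *ᵥ x := by rw [h1]
  rw [mulVec_add, mulVec_mulVec, hN, one_mulVec] at h2
  rw [← h2]
  simp

theorem aff_one : IsAff 1 1 0 := fun x => by simp

theorem aff_ext {g g' : Equiv.Perm V3} {M : M3} {a : V3} (h : IsAff g M a)
    (h' : IsAff g' M a) : g = g' := Equiv.ext fun x => by rw [h, h']

theorem aff_zero {g : Equiv.Perm V3} {M : M3} {a : V3} (h : IsAff g M a) : g 0 = a := by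
  rw [h, mulVec_zero, zero_add]

theorem aff_unique {g : Equiv.Perm V3} {M M' : M3} {a a' : V3} (h : IsAff g M a)
    (h' : IsAff g M' a') : M = M' ∧ a = a' := by
  have ha : a = a' := by rw [← aff_zero h, ← aff_zero h']
  refine ⟨?_, ha⟩
  apply Matrix.ext_of_mulVec_single
  intro i
  have h1 := h (Pi.single i 1)
  rw [h' (Pi.single i 1), ← ha] at h1
  exact (add_right_cancel h1).symm

theorem exists_aff {M N : M3} (h : M * N = 1) (a : V3) : ∃ g : Equiv.Perm V3, IsAff g M a := by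
  have h' : N * M = 1 := mul_eq_one_comm.1 h
  exact ⟨{ toFun := fun x => M *ᵥ x + a
           invFun := fun x => N *ᵥ (x - a)
           left_inv := fun x => by simp [mulVec_mulVec, h']
           right_inv := fun x => by simp [mulVec_mulVec, h] }, fun x => rfl⟩

/-! ### Integer vectors and matrices -/

theorem vec_inj {v w : IV} (h : v.vec = w.vec) : v = w := by
  have h0 := congrFun h 0
  have h1 := congrFun h 1
  have h2 := congrFun h 2
  simp only [IV.vec, cons_val_zero, cons_val_one, cons_val] at h0 h1 h2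
  cases v
  cases w
  simp only [IV.mk.injEq]
  exact ⟨by exact_mod_cast h0, by exact_mod_cast h1, by exact_mod_cast h2⟩

theorem vec_zero : (⟨0, 0, 0⟩ : IV).vec = 0 := by
  funext i
  fin_cases i <;> simp [IV.vec]

theorem vec_add (v w : IV) : (v.add w).vec = v.vec + w.vec := by
  funext i
  fin_cases i <;> simp [IV.vec, IV.add]

theorem vec_sub (v w : IV) : (v.sub w).vec = v.vec - w.vec := by
  funext i
  fin_cases i <;> simp [IV.vec, IV.sub]

theorem vec_neg (v : IV) : (v.neg).vec = -v.vec := by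
  funext i
  fin_cases i <;> simp [IV.vec, IV.neg]

theorem vec_smul (k : ℤ) (v : IV) : (v.smul k).vec = (k : ℝ) • v.vec := by
  funext i
  fin_cases i <;> simp [IV.vec, IV.smul]

theorem mat_vec (M : IM) (v : IV) : M.mat *ᵥ v.vec = (M.mv v).vec := by
  funext i
  fin_cases i <;>
    simp [IV.vec, IM.mv, IM.mat, IV.dot, mulVec, dotProduct, Fin.sum_univ_three]

theorem mat_mul (M N : IM) : (M.mul N).mat = M.mat * N.mat := by
  ext i j
  fin_cases i <;> fin_cases j <;>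
    simp [IM.mul, IM.vm, IM.mat, IV.add, IV.smul, Matrix.mul_apply, Fin.sum_univ_three]

theorem mat_one : IM.one.mat = 1 := by
  ext i j
  fin_cases i <;> fin_cases j <;> simp [IM.one, IM.mat]

theorem mat_inj {M N : IM} (hMN : M.mat = N.mat) : M = N := by
  rcases M with ⟨⟨a, b, c⟩, ⟨d, e, f⟩, ⟨g, h, i⟩⟩
  rcases N with ⟨⟨a', b', c'⟩, ⟨d', e', f'⟩, ⟨g', h', i'⟩⟩
  have key : ∀ u v, (IM.mat ⟨⟨a, b, c⟩, ⟨d, e, f⟩, ⟨g, h, i⟩⟩) u v =
      (IM.mat ⟨⟨a', b', c'⟩, ⟨d', e', f'⟩, ⟨g', h', i'⟩⟩) u v := fun u v => by rw [hMN]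
  have h00 : (a : ℝ) = a' := key 0 0
  have h01 : (b : ℝ) = b' := key 0 1
  have h02 : (c : ℝ) = c' := key 0 2
  have h10 : (d : ℝ) = d' := key 1 0
  have h11 : (e : ℝ) = e' := key 1 1
  have h12 : (f : ℝ) = f' := key 1 2
  have h20 : (g : ℝ) = g' := key 2 0
  have h21 : (h : ℝ) = h' := key 2 1
  have h22 : (i : ℝ) = i' := key 2 2
  norm_cast at h00 h01 h02 h10 h11 h12 h20 h21 h22
  subst h00 h01 h02 h10 h11 h12 h20 h21 h22
  rfl

/-- The determinant. -/
def dt (M : IM) : ℤ := M.a.dot (cross M.b M.c)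

theorem dt_mul (M N : IM) : dt (M.mul N) = dt M * dt N := by
  simp only [dt, IM.mul, IM.vm, IV.add, IV.smul, IV.dot, cross]
  ring

theorem dt_one : dt IM.one = 1 := by decide

theorem mul_invM {M : IM} (h : dt M * dt M = 1) : M.mul (invM M) = IM.one := by
  simp only [dt, IV.dot, cross] at h
  simp only [IM.mul, IM.vm, invM, IM.one, IV.add, IV.smul, IV.dot, cross, IM.mk.injEq,
    IV.mk.injEq]
  refine ⟨⟨?_, ?_, ?_⟩, ⟨?_, ?_, ?_⟩, ⟨?_, ?_, ?_⟩⟩
  · linear_combination h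
  · ring
  · ring
  · ring
  · linear_combination h
  · ring
  · ring
  · ring
  · linear_combination h

theorem invM_mul {M : IM} (h : dt M * dt M = 1) : (invM M).mul M = IM.one := by
  apply mat_inj
  have h1 := congrArg IM.mat (mul_invM h)
  rw [mat_mul, mat_one] at h1
  rw [mat_mul, mat_one]
  exact mul_eq_one_comm.1 h1

theorem sq_of_mul {x y : ℤ} (h : x * y = 1) : x * x = 1 := by
  rcases Int.isUnit_iff.1 (IsUnit.of_mul_eq_one y h) with rfl | rfl <;> norm_num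

theorem dt_sq_of_inv {M : IM} (h : M.mul (invM M) = IM.one) : dt M * dt M = 1 := by
  have h1 := congrArg dt h
  rw [dt_mul, dt_one] at h1
  exact sq_of_mul h1

/-! ### Representation of affine maps -/

/-- The point `v / d`. -/
noncomputable def pt (d : ℤ) (v : IV) : V3 := ((d : ℝ)⁻¹) • v.vec

/-- The permutation `g` is the affine map `p` with the denominator `d`. -/
def Rep (d : ℤ) (g : Equiv.Perm V3) (p : ZA) : Prop := IsAff g p.M.mat (pt d p.v)

/-- The matrix of `p` is unimodular. -/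
def Un (p : ZA) : Prop := dt p.M * dt p.M = 1

theorem Un.mul {p q : ZA} (hp : Un p) (hq : Un q) : Un (p.mul q) := by
  unfold Un at *
  have : dt (p.mul q).M = dt p.M * dt q.M := dt_mul _ _
  rw [this]
  linear_combination (dt q.M * dt q.M) * hp + hq

theorem Un.inv {p : ZA} (hp : Un p) : Un p.inv := by
  have h1 := congrArg dt (invM_mul hp)
  rw [dt_mul, dt_one] at h1
  exact sq_of_mul h1

theorem Un.one : Un ZA.one := by
  unfold Un
  decide

section

variable {d : ℤ} {g h : Equiv.Perm V3} {p q : ZA}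

theorem pt_zero : pt d ⟨0, 0, 0⟩ = 0 := by rw [pt, vec_zero, smul_zero]

theorem pt_inj (hd : d ≠ 0) {u v : IV} : pt d u = pt d v ↔ u = v := by
  constructor
  · intro h
    apply vec_inj
    have hd' : ((d : ℝ)⁻¹) ≠ 0 := inv_ne_zero (by exact_mod_cast hd)
    exact smul_right_injective _ hd' h
  · rintro rfl
    rfl

theorem mat_pt (M : IM) (v : IV) : M.mat *ᵥ pt d v = pt d (M.mv v) := by
  rw [pt, pt, mulVec_smul, mat_vec]

theorem pt_add (u v : IV) : pt d (u.add v) = pt d u + pt d v := by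
  rw [pt, pt, pt, vec_add, smul_add]

theorem Rep.mul (hg : Rep d g p) (hh : Rep d h q) : Rep d (g * h) (p.mul q) := by
  have h1 := aff_mul hg hh
  rw [← mat_mul, mat_pt, ← pt_add] at h1
  exact h1

theorem Rep.one : Rep d 1 ZA.one := by
  unfold Rep ZA.one
  rw [mat_one, pt_zero]
  exact aff_one

theorem Rep.inv (hg : Rep d g p) (hp : Un p) : Rep d g⁻¹ p.inv := by
  have h1 := congrArg IM.mat (invM_mul hp)
  rw [mat_mul, mat_one] at h1
  have h2 := aff_inv hg h1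
  rw [mat_pt] at h2
  have h3 : -pt d ((invM p.M).mv p.v) = pt d ((invM p.M).mv p.v).neg := by
    rw [pt, pt, vec_neg, smul_neg]
  rw [h3] at h2
  exact h2

theorem Rep.lin {M : IM} (hg : IsAff g M.mat 0) : Rep d g (ZA.lin M) := by
  unfold Rep ZA.lin
  rw [pt_zero]
  exact hg

theorem Rep.eq_iff (hd : d ≠ 0) (hg : Rep d g p) (hh : Rep d h q) : g = h ↔ p = q := by
  constructor
  · rintro rfl
    obtain ⟨h1, h2⟩ := aff_unique hg hh
    cases p
    cases q
    simp only [ZA.mk.injEq]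
    exact ⟨mat_inj h1, (pt_inj hd).1 h2⟩
  · rintro rfl
    exact aff_ext hg hh

theorem Rep.eq_one_iff (hd : d ≠ 0) (hg : Rep d g p) : g = 1 ↔ p = ZA.one :=
  hg.eq_iff hd Rep.one

theorem Rep.apply (hg : Rep d g p) (v : IV) : g (pt d v) = pt d (p.ap v) := by
  rw [hg, mat_pt, ← pt_add]
  rfl

theorem Rep.zero (hg : Rep d g p) : g 0 = pt d p.v := aff_zero hg

theorem Rep.pow (hg : Rep d g p) (n : ℕ) : Rep d (g ^ n) (p.pow n) := by
  induction n with
  | zero =>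
    rw [pow_zero]
    exact Rep.one
  | succ n ih =>
    rw [pow_succ']
    exact hg.mul ih

end

theorem lin_mul (M N : IM) : (ZA.lin M).mul (ZA.lin N) = ZA.lin (M.mul N) := by
  simp [ZA.mul, ZA.lin, IM.mv, IV.dot, IV.add]

theorem lin_inv (M : IM) : (ZA.lin M).inv = ZA.lin (invM M) := by
  simp [ZA.inv, ZA.lin, IM.mv, IV.dot, IV.neg]

theorem lin_ap (M : IM) (v : IV) : (ZA.lin M).ap v = M.mv v := by
  simp [ZA.ap, ZA.lin, IV.add]

/-! ### The stabiliser -/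

/-- The hypotheses on the list of the elements of the stabiliser. -/
structure Cl (hl : List IM) (A B : IM) : Prop where
  one : IM.one ∈ hl
  cA : ∀ M ∈ hl, A.mul M ∈ hl
  cAi : ∀ M ∈ hl, (invM A).mul M ∈ hl
  cB : ∀ M ∈ hl, B.mul M ∈ hl
  cBi : ∀ M ∈ hl, (invM B).mul M ∈ hl

theorem stab_rep {d : ℤ} {hl : List IM} {MA MB : IM} (hc : Cl hl MA MB) {A B : Equiv.Perm V3}
    (hA : Rep d A (ZA.lin MA)) (hB : Rep d B (ZA.lin MB)) (uA : Un (ZA.lin MA))
    (uB : Un (ZA.lin MB)) {g : Equiv.Perm V3} (hg : g ∈ stab A B) :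
    ∃ M ∈ hl, Rep d g (ZA.lin M) := by
  unfold stab at hg
  induction hg using Subgroup.closure_induction_left with
  | one => exact ⟨IM.one, hc.one, Rep.one⟩
  | mul_left x hx y hy ih =>
    obtain ⟨M, hM, hr⟩ := ih
    rcases hx with rfl | hx
    · exact ⟨_, hc.cA M hM, by rw [← lin_mul]; exact hA.mul hr⟩
    · rw [Set.mem_singleton_iff] at hx
      subst hx
      exact ⟨_, hc.cB M hM, by rw [← lin_mul]; exact hB.mul hr⟩
  | inv_mul_cancel x hx y hy ih =>
    obtain ⟨M, hM, hr⟩ := ih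
    rcases hx with rfl | hx
    · exact ⟨_, hc.cAi M hM, by rw [← lin_mul, ← lin_inv]; exact (hA.inv uA).mul hr⟩
    · rw [Set.mem_singleton_iff] at hx
      subst hx
      exact ⟨_, hc.cBi M hM, by rw [← lin_mul, ← lin_inv]; exact (hB.inv uB).mul hr⟩

theorem free_of {d : ℤ} (hd : d ≠ 0) {hl : List IM} {u : IV} (h : freeOK hl u = true)
    {A B s : Equiv.Perm V3} (hst : ∀ g ∈ stab A B, ∃ M ∈ hl, Rep d g (ZA.lin M))
    (hs : s 0 = pt d u) : Free A B s 0 := by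
  intro g hg hgs
  obtain ⟨M, hM, hr⟩ := hst g hg
  rw [freeOK, List.all_eq_true] at h
  have h1 := h M hM
  rw [Bool.or_eq_true, decide_eq_true_eq, decide_eq_true_eq] at h1
  rw [hs, hr.apply, lin_ap, pt_inj hd] at hgs
  rcases h1 with rfl | h1
  · exact aff_ext hr Rep.one
  · exact absurd hgs h1

theorem apart_of {d : ℤ} (hd : d ≠ 0) {hl : List IM} {u v : IV} (h : apartOK hl u v = true)
    {A B s : Equiv.Perm V3} (hst : ∀ g ∈ stab A B, ∃ M ∈ hl, Rep d g (ZA.lin M))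
    (hs : s 0 = pt d u) (hs' : s⁻¹ 0 = pt d v) : Apart A B s 0 := by
  intro g hg hgs
  obtain ⟨M, hM, hr⟩ := hst g hg
  rw [apartOK, List.all_eq_true] at h
  have h1 := h M hM
  rw [decide_eq_true_eq] at h1
  rw [hs, hs', hr.apply, lin_ap, pt_inj hd] at hgs
  exact h1 hgs

/-- Only the identity and `B` fix the neighbour. -/
theorem free_two {d : ℤ} (hd : d ≠ 0) {hl : List IM} {u : IV} {N : IM}
    (h : (hl.all fun g => decide (g = IM.one) || decide (g = N) || decide (g.mv u ≠ u)) = true)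
    {A B s : Equiv.Perm V3} (hst : ∀ g ∈ stab A B, ∃ M ∈ hl, Rep d g (ZA.lin M))
    (hs : s 0 = pt d u) {T : Equiv.Perm V3} (hT : Rep d T (ZA.lin N)) :
    ∀ g ∈ stab A B, g (s 0) = s 0 → g = 1 ∨ g = T := by
  intro g hg hgs
  obtain ⟨M, hM, hr⟩ := hst g hg
  rw [List.all_eq_true] at h
  have h1 := h M hM
  rw [Bool.or_eq_true, Bool.or_eq_true, decide_eq_true_eq, decide_eq_true_eq,
    decide_eq_true_eq] at h1
  rw [hs, hr.apply, lin_ap, pt_inj hd] at hgs
  rcases h1 with (rfl | rfl) | h1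
  · exact Or.inl (aff_ext hr Rep.one)
  · exact Or.inr (aff_ext hr hT)
  · exact absurd hgs h1

/-! ### The face rotation -/

section

variable {d : ℤ} {A B s : Equiv.Perm V3} {a b σ : ZA}

theorem rot_rep (c : Cls) (hA : Rep d A a) (hB : Rep d B b) (hs : Rep d s σ) (uA : Un a)
    (us : Un σ) : Rep d (faceRot c A B s) (rot c a b σ) := by
  cases c
  · exact Rep.one
  · exact Rep.one
  · exact ((hA.mul hs).mul (hA.inv uA)).mul hs
  · exact ((hs.mul hB).mul (hs.inv us)).mul hA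
  · exact Rep.one
  · exact (hs.mul hA).mul hs
  · exact ((((hs.mul hs).mul hB).mul (hs.inv us)).mul (hs.inv us)).mul hA

theorem reps_eq (c : Cls) (hA : Rep d A a) (hs : Rep d s σ) :
    faceReps c A B s 0 = (reps c a σ).map (pt d) := by
  have h1 := hs.zero
  cases c <;> simp [faceReps, reps, h1, hA.apply, hs.apply, pt_zero]

theorem dot_pos {t : IV} (ht : t ≠ ⟨0, 0, 0⟩) : 0 < t.dot t := by
  rcases t with ⟨x, y, z⟩
  simp only [IV.dot]
  have hx := mul_self_nonneg x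
  have hy := mul_self_nonneg y
  have hz := mul_self_nonneg z
  rcases eq_or_ne x 0 with rfl | h1
  · rcases eq_or_ne y 0 with rfl | h2
    · rcases eq_or_ne z 0 with rfl | h3
      · exact absurd rfl ht
      · have := mul_self_pos.2 h3
        linarith
    · have := mul_self_pos.2 h2
      linarith
  · have := mul_self_pos.2 h1
    linarith

theorem noMult_false {t y : IV} (ht : t ≠ ⟨0, 0, 0⟩) {k : ℤ} (h : y = t.smul k) :
    noMult t y = false := by
  have h1 : t.dot y / t.dot t = k := by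
    have h2 : t.dot y = k * t.dot t := by
      rw [h]
      simp only [IV.dot, IV.smul]
      ring
    rw [h2]
    exact Int.mul_ediv_cancel _ (dot_pos ht).ne'
  unfold noMult
  rw [h1, decide_eq_false_iff_not, not_not]
  exact h

theorem trans_zpow {T : Equiv.Perm V3} {t : V3} (hT : IsAff T 1 t) (k : ℤ) (x : V3) :
    (T ^ k) x = x + (k : ℝ) • t := by
  have h1 : ∀ (n : ℕ) (x : V3), (T ^ n) x = x + (n : ℝ) • t := by
    intro n
    induction n with
    | zero => intro x; simp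
    | succ n ih =>
      intro x
      rw [pow_succ, Equiv.Perm.mul_apply, ih, hT, one_mulVec]
      push_cast
      rw [add_smul, one_smul]
      abel
  obtain ⟨n, rfl | rfl⟩ := k.eq_nat_or_neg
  · rw [zpow_natCast, h1]
    simp
  · rw [_root_.zpow_neg, zpow_natCast, Equiv.Perm.inv_eq_iff_eq, h1]
    push_cast
    rw [neg_smul]
    abel

theorem distinct_of (hd : d ≠ 0) (c : Cls) (hA : Rep d A a) (hB : Rep d B b) (hs : Rep d s σ)
    (uA : Un a) (us : Un σ) (h : distOK c a b σ = true) : Distinct c A B s 0 := by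
  have hr := rot_rep c hA hB hs uA us
  have hR := reps_eq (B := B) c hA hs
  obtain ⟨r, hr0⟩ : ∃ r, r = rot c a b σ := ⟨_, rfl⟩
  obtain ⟨R, hR0⟩ : ∃ R, R = reps c a σ := ⟨_, rfl⟩
  obtain ⟨g, hg0⟩ : ∃ g, g = faceRot c A B s := ⟨_, rfl⟩
  rw [← hr0, ← hg0] at hr
  rw [← hR0] at hR
  unfold distOK at h
  rw [← hr0, ← hR0] at h
  simp only [Bool.and_eq_true, decide_eq_true_eq] at h
  obtain ⟨⟨hnd, hM⟩, hrest⟩ := h
  unfold Distinct
  rw [hR, ← hg0]
  refine ⟨hnd.map fun u v huv => (pt_inj hd).1 huv, ?_⟩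
  intro n hn v' hv' hw'
  rw [List.mem_map] at hv' hw'
  obtain ⟨v, hv, rfl⟩ := hv'
  obtain ⟨w, hw, hwe⟩ := hw'
  -- the twelfth power
  have h12 : IsAff (g ^ 12) 1 (pt d (r.pow 12).v) := by
    have := hr.pow 12
    unfold Rep at this
    rw [hM, mat_one] at this
    exact this
  obtain ⟨t, ht0⟩ : ∃ t, t = (r.pow 12).v := ⟨_, rfl⟩
  rw [← ht0] at h12 hrest
  obtain ⟨j, hj⟩ : ∃ j : ℕ, (j : ℤ) = n % 12 :=
    ⟨(n % 12).toNat, Int.toNat_of_nonneg (Int.emod_nonneg _ (by norm_num))⟩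
  have hj12 : j < 12 := by
    have := Int.emod_lt_of_pos n (show (0 : ℤ) < 12 by norm_num)
    omega
  obtain ⟨k, hk⟩ : ∃ k : ℤ, k = n / 12 := ⟨_, rfl⟩
  have hnk : n = 12 * k + j := by
    rw [hj, hk]
    exact (Int.mul_ediv_add_emod n 12).symm
  have hgn : g ^ n = (g ^ 12) ^ k * g ^ j := by
    rw [hnk, _root_.zpow_add, _root_.zpow_mul, zpow_natCast]
    norm_cast
  have hval : (g ^ n) (pt d v) = pt d ((((r.pow j).ap v)).add (t.smul k)) := by
    rw [hgn, Equiv.Perm.mul_apply, (hr.pow j).apply, trans_zpow h12, pt_add]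
    congr 1
    rw [pt, pt, vec_smul, smul_comm]
  rw [hval, pt_inj hd] at hwe
  split_ifs at hrest with htz
  · -- no translation
    rw [List.all_eq_true] at hrest
    have h1 := hrest j (List.mem_range.2 hj12)
    have hz : (t.smul k) = ⟨0, 0, 0⟩ := by
      rw [htz]
      simp [IV.smul]
    have hadd : ∀ u : IV, u.add ⟨0, 0, 0⟩ = u := by
      intro u
      simp [IV.add]
    rw [hz, hadd] at hwe hval
    rw [Bool.or_eq_true, decide_eq_true_eq, List.all_eq_true] at h1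
    rcases h1 with h1 | h1
    · apply hn
      have hgj : g ^ j = 1 := ((hr.pow j).eq_one_iff hd).2 h1
      have hg12 : g ^ 12 = 1 := by
        rw [htz, pt_zero] at h12
        exact aff_ext h12 aff_one
      rw [hgn, hgj, hg12]
      simp
    · have h2 := h1 v hv
      rw [List.all_eq_true] at h2
      have h3 := h2 w hw
      rw [decide_eq_true_eq] at h3
      exact h3 hwe.symm
  · rw [List.all_eq_true] at hrest
    have h1 := hrest j (List.mem_range.2 hj12)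
    rw [List.all_eq_true] at h1
    have h2 := h1 v hv
    rw [List.all_eq_true] at h2
    have h3 := h2 w hw
    rw [Bool.or_eq_true, Bool.and_eq_true, decide_eq_true_eq, decide_eq_true_eq] at h3
    rcases h3 with ⟨rfl, rfl⟩ | h3
    · -- the translation is trivial
      have hp0 : (r.pow 0).ap v = v := by
        simp [ZA.pow, ZA.ap, ZA.one, IM.mv, IM.one, IV.dot, IV.add]
      rw [hp0] at hwe
      have hkt : t.smul k = ⟨0, 0, 0⟩ := by
        rcases v with ⟨x, y, z⟩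
        simp only [IV.add, IV.mk.injEq] at hwe
        obtain ⟨e1, e2, e3⟩ := hwe
        rcases hts : t.smul k with ⟨x', y', z'⟩
        rw [hts] at e1 e2 e3
        simp only at e1 e2 e3
        simp only [IV.mk.injEq]
        exact ⟨by linarith, by linarith, by linarith⟩
      have hk0 : k = 0 := by
        by_contra hk0
        apply htz
        rcases t with ⟨x, y, z⟩
        simp only [IV.smul, IV.mk.injEq, mul_eq_zero, hk0, false_or] at hkt
        simp only [IV.mk.injEq]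
        exact hkt
      apply hn
      rw [hnk, hk0]
      simp
    · have h4 : w.sub ((r.pow j).ap v) = t.smul k := by
        rw [hwe]
        simp [IV.sub, IV.add]
      rw [noMult_false htz h4] at h3
      exact absurd h3 (by simp)

end

/-! ### The relations and the neighbours -/

section

variable {d : ℤ} {A B s : Equiv.Perm V3} {MA MB : IM} {σ : ZA}

theorem rel_of (hd : d ≠ 0) (c : Cls) (hA : Rep d A (ZA.lin MA)) (hB : Rep d B (ZA.lin MB))
    (hs : Rep d s σ) (us : Un σ) (h : relOK c (ZA.lin MA) (ZA.lin MB) σ = true) :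
    Rel c A B s 0 := by
  have hAA := (hA.mul hA).eq_one_iff hd
  have hBB := (hB.mul hB).eq_one_iff hd
  have hss := (hs.mul hs).eq_one_iff hd
  have hB1 := hB.eq_one_iff hd
  have hsB := (hs.mul hB).eq_iff hd (hB.mul hs)
  have hBs := hB.eq_iff hd (((hs.inv us).mul hA).mul hs)
  cases c <;> simp only [relOK, Bool.and_eq_true, decide_eq_true_eq] at h <;>
    simp only [Rel]
  · obtain ⟨⟨⟨h1, h2⟩, h3⟩, h4⟩ := h
    exact ⟨hAA.2 h1, hBB.2 h2, hss.2 h3, hsB.2 h4⟩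
  · exact ⟨hB1.2 h.1, hss.2 h.2⟩
  · exact ⟨hB1.2 h.1, hss.2 h.2⟩
  · exact ⟨hAA.2 h.1.1, hBB.2 h.1.2, hss.2 h.2⟩
  · refine ⟨hAA.2 h.1.1, ?_, hBs.2 h.2⟩
    rw [hs.zero, hA.apply, h.1.2]
  · exact hB1.2 h
  · exact ⟨hAA.2 h.1, hBB.2 h.2⟩

theorem nondeg_of (hd : d ≠ 0) (c : Cls) {hl : List IM} (hc : Cl hl MA MB)
    (hA : Rep d A (ZA.lin MA)) (hB : Rep d B (ZA.lin MB)) (hs : Rep d s σ)
    (uA : Un (ZA.lin MA)) (uB : Un (ZA.lin MB)) (us : Un σ)
    (h : ndOK c hl (ZA.lin MA) (ZA.lin MB) σ = true) : Nondeg c A B s 0 := by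
  have hst : ∀ g ∈ stab A B, ∃ M ∈ hl, Rep d g (ZA.lin M) :=
    fun g hg => stab_rep hc hA hB uA uB hg
  have hs0 := hs.zero
  have hs0' := (hs.inv us).zero
  have hA1 := hA.eq_one_iff hd
  have hB1 := hB.eq_one_iff hd
  have hAB := hA.eq_iff hd hB
  have hAA := (hA.mul hA).eq_one_iff hd
  unfold ndOK at h
  rw [Bool.and_eq_true, decide_eq_true_eq] at h
  obtain ⟨h0, h⟩ := h
  have hne : s 0 ≠ 0 := by
    intro h1
    rw [hs0, ← pt_zero (d := d), pt_inj hd] at h1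
    exact h0 h1
  cases c <;> simp only [Bool.and_eq_true, decide_eq_true_eq] at h <;> simp only [Nondeg]
  · obtain ⟨⟨h1, h2⟩, h3⟩ := h
    refine ⟨hne, free_two hd h1 hst hs0 hB, ?_, ?_⟩
    · rw [hs0, hA.apply]
      intro h4
      exact h2 ((pt_inj hd).1 h4)
    · rw [hs0, hA.apply, hB.apply]
      intro h4
      exact h3 ((pt_inj hd).1 h4)
  · obtain ⟨⟨h1, h2⟩, h3⟩ := h
    exact ⟨hne, free_of hd h1 hst hs0, fun h4 => h2 (hA1.1 h4), fun h4 => h3 (hAA.1 h4)⟩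
  · obtain ⟨⟨h1, h2⟩, h3⟩ := h
    exact ⟨hne, free_of hd h1 hst hs0, fun h4 => h2 (hA1.1 h4), fun h4 => h3 (hAA.1 h4)⟩
  · obtain ⟨⟨⟨h1, h2⟩, h3⟩, h4⟩ := h
    exact ⟨hne, free_of hd h1 hst hs0, fun h5 => h2 (hA1.1 h5), fun h5 => h3 (hB1.1 h5),
      fun h5 => h4 (hAB.1 h5)⟩
  · obtain ⟨⟨h1, h2⟩, h3⟩ := h
    refine ⟨hne, free_two hd h1 hst hs0 hA, ?_, apart_of hd h3 hst hs0 hs0'⟩
    rw [hs0', hA.apply]
    intro h4
    exact h2 ((pt_inj hd).1 h4)
  · obtain ⟨⟨h1, h2⟩, h3⟩ := h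
    exact ⟨hne, free_of hd h1 hst hs0, fun h4 => h2 (hA1.1 h4), apart_of hd h3 hst hs0 hs0'⟩
  · obtain ⟨⟨⟨h1, h2⟩, h3⟩, h4⟩ := h
    exact ⟨hne, free_of hd h1 hst hs0, fun h5 => h2 (hA1.1 h5), fun h5 => h3 (hB1.1 h5),
      apart_of hd h4 hst hs0 hs0'⟩

end

/-! ### Further symmetries -/

/-- A triple of permutations and a triple of affine maps. -/
def RepT (d : ℤ) (P : Equiv.Perm V3 × Equiv.Perm V3 × Equiv.Perm V3) (T : ZA × ZA × ZA) : Prop :=
  (Rep d P.1 T.1 ∧ Rep d P.2.1 T.2.1 ∧ Rep d P.2.2 T.2.2) ∧ Un T.1 ∧ Un T.2.1 ∧ Un T.2.2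

/-- The letter of the word, for a triple of permutations. -/
def pl (P : Equiv.Perm V3 × Equiv.Perm V3 × Equiv.Perm V3) : ℕ → Equiv.Perm V3
  | 0 => P.1
  | 1 => P.1⁻¹
  | 2 => P.2.1
  | 3 => P.2.1⁻¹
  | 4 => P.2.2
  | _ => P.2.2⁻¹

/-- The product of the letters. -/
def pw (P : Equiv.Perm V3 × Equiv.Perm V3 × Equiv.Perm V3) : List ℕ → Equiv.Perm V3
  | [] => 1
  | l :: w => pl P l * pw P w

section

variable {d : ℤ} {P : Equiv.Perm V3 × Equiv.Perm V3 × Equiv.Perm V3} {T : ZA × ZA × ZA}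

theorem pl_rep (h : RepT d P T) (l : ℕ) : Rep d (pl P l) (letter T l) := by
  obtain ⟨⟨h1, h2, h3⟩, u1, u2, u3⟩ := h
  match l with
  | 0 => exact h1
  | 1 => exact h1.inv u1
  | 2 => exact h2
  | 3 => exact h2.inv u2
  | 4 => exact h3
  | n + 5 => exact h3.inv u3

theorem pw_rep (h : RepT d P T) (w : List ℕ) : Rep d (pw P w) (word T w) := by
  induction w with
  | nil => exact Rep.one
  | cons l w ih => exact (pl_rep h l).mul ih

theorem pl_cnj (σ : Equiv.Perm V3) (l : ℕ) : pl (cnj3 σ P) l = σ * pl P l * σ⁻¹ := by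
  match l with
  | 0 => rfl
  | 1 => simp [pl, cnj3, mul_assoc]
  | 2 => rfl
  | 3 => simp [pl, cnj3, mul_assoc]
  | 4 => rfl
  | n + 5 => simp [pl, cnj3, mul_assoc]

theorem pw_cnj (σ : Equiv.Perm V3) (w : List ℕ) : pw (cnj3 σ P) w = σ * pw P w * σ⁻¹ := by
  induction w with
  | nil => simp [pw]
  | cons l w ih =>
    simp only [pw]
    rw [ih, pl_cnj]
    group

end

theorem others_rep {d : ℤ} {A B s : Equiv.Perm V3} {a b σ : ZA} (c : Cls)
    (h : RepT d (A, B, s) (a, b, σ)) : List.Forall₂ (RepT d) (others c A B s) (oth c a b σ) := by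
  obtain ⟨⟨h1, h2, h3⟩, u1, u2, u3⟩ := h
  simp only at h1 h2 h3 u1 u2 u3
  cases c <;> simp only [others, oth, List.forall₂_cons, List.forall₂_nil_left_iff, and_true]
  · exact ⟨⟨h1.inv u1, h2, h3⟩, u1.inv, u2, u3⟩
  · exact ⟨⟨h1.inv u1, h2, h3⟩, u1.inv, u2, u3⟩
  · exact ⟨⟨h2, h1, h3⟩, u2, u1, u3⟩
  · exact ⟨⟨h2, h1, h3.inv u3⟩, u2, u1, u3.inv⟩
  · exact ⟨⟨⟨h1.inv u1, h2, h3.mul h1⟩, u1.inv, u2, u3.mul u1⟩,
      ⟨⟨h1, h2, (h3.inv u3).mul (h1.inv u1)⟩, u1, u2, u3.inv.mul u1.inv⟩,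
      ⟨h1.inv u1, h2, h3.inv u3⟩, u1.inv, u2, u3.inv⟩
  · exact ⟨⟨h2, h1, h3.inv u3⟩, u2, u1, u3.inv⟩

theorem exists_zip {α β γ : Type} {R : α → β → Prop} {l : List α} {m : List β} {w : List γ}
    (h : List.Forall₂ R l m) (hlen : m.length = w.length) {x : α} (hx : x ∈ l) :
    ∃ y ∈ m.zip w, R x y.1 := by
  induction h generalizing w with
  | nil => simp at hx
  | cons hab _ ih =>
    cases w with
    | nil => simp at hlen
    | cons c w =>
      rcases List.mem_cons.1 hx with rfl | hx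
      · exact ⟨(_, c), by simp, hab⟩
      · obtain ⟨y, hy, hr⟩ := ih (by simpa using hlen) hx
        exact ⟨y, by rw [List.zip_cons_cons]; exact List.mem_cons_of_mem _ hy, hr⟩

theorem frame_det' (k : Kind) {b c : ℝ} (hb : 0 < b) (hc : 0 < c) : (k.frame b c).det ≠ 0 := by
  have h3 : (0 : ℝ) < √3 := Real.sqrt_pos.2 (by norm_num)
  cases k
  · simp [Kind.frame, det_fin_three]
  · simp [Kind.frame, det_fin_three, hc.ne']
  · simp only [Kind.frame, det_fin_three]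
    simp [hc.ne']
  · simp [Kind.frame, det_fin_three, hb.ne', hc.ne']

theorem q_eq (k : Kind) (b c : ℤ) (u : IV) :
    ((k.frame b c) *ᵥ u.vec) ⬝ᵥ ((k.frame b c) *ᵥ u.vec) = (q k b c u : ℝ) := by
  have h3 : √3 * √3 = (3 : ℝ) := Real.mul_self_sqrt (by norm_num)
  cases k
  · simp [Kind.frame, q, IV.vec, mulVec, dotProduct, Fin.sum_univ_three]
  · simp [Kind.frame, q, IV.vec, mulVec, dotProduct, Fin.sum_univ_three]
    ring
  · simp [Kind.frame, q, IV.vec, mulVec, dotProduct, Fin.sum_univ_three]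
    linear_combination ((u.y : ℝ) * u.y / 4) * h3
  · simp [Kind.frame, q, IV.vec, mulVec, dotProduct, Fin.sum_univ_three]
    ring

theorem orth_dot {F M : M3} (hF : F.det ≠ 0) (h : OrthF F M) (x : V3) :
    (F *ᵥ (M *ᵥ x)) ⬝ᵥ (F *ᵥ (M *ᵥ x)) = (F *ᵥ x) ⬝ᵥ (F *ᵥ x) := by
  have hFi : F⁻¹ * F = 1 := nonsing_inv_mul _ (isUnit_iff_ne_zero.2 hF)
  obtain ⟨N, hN⟩ : ∃ N, N = F * M * F⁻¹ := ⟨_, rfl⟩
  have h1 : F *ᵥ (M *ᵥ x) = N *ᵥ (F *ᵥ x) := by
    rw [hN, mulVec_mulVec, mulVec_mulVec, Matrix.mul_assoc (F * M), hFi, Matrix.mul_one]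
  unfold OrthF at h
  rw [← hN] at h
  rw [h1, dotProduct_mulVec, vecMul_mulVec, h, vecMul_one]

theorem full_of {e : Data} (h : fullOK e = true) (hb : 0 < e.b) (hc : 0 < e.c) (hd : e.d ≠ 0)
    {A B s : Equiv.Perm V3} (hT : RepT e.d (A, B, s) (ZA.lin e.A, ZA.lin e.B, e.s)) :
    Full e.cls (e.kind.frame e.b e.c) A B s := by
  intro σ M hσ hM hmem
  unfold fullOK at h
  simp only [Bool.and_eq_true, decide_eq_true_eq] at h
  obtain ⟨hlen, hall⟩ := h
  obtain ⟨y, hy, hr⟩ := exists_zip (others_rep e.cls hT) hlen hmem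
  rw [List.all_eq_true] at hall
  have h1 := hall y hy
  rw [decide_eq_true_eq] at h1
  apply h1
  have hσ0 : σ⁻¹ 0 = 0 := by
    rw [Equiv.Perm.inv_eq_iff_eq]
    exact (aff_zero hσ).symm
  have e1 := (pw_rep hT y.2).zero
  have e2 := (pw_rep hr y.2).zero
  rw [pw_cnj, Equiv.Perm.mul_apply, Equiv.Perm.mul_apply, hσ0, e1, hσ, add_zero] at e2
  have hd' : ((e.d : ℝ)⁻¹) ≠ 0 := inv_ne_zero (by exact_mod_cast hd)
  rw [pt, pt, mulVec_smul] at e2
  have e3 : M *ᵥ (word (ZA.lin e.A, ZA.lin e.B, e.s) y.2).v.vec = (word y.1 y.2).v.vec :=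
    smul_right_injective _ hd' e2
  have hF : (e.kind.frame e.b e.c).det ≠ 0 :=
    frame_det' e.kind (by exact_mod_cast hb) (by exact_mod_cast hc)
  have e4 := orth_dot hF hM (word (ZA.lin e.A, ZA.lin e.B, e.s) y.2).v.vec
  rw [e3] at e4
  have q1 := q_eq e.kind e.b e.c (word (ZA.lin e.A, ZA.lin e.B, e.s) y.2).v
  have q2 := q_eq e.kind e.b e.c (word y.1 y.2).v
  simp only [Int.cast_natCast] at q1 q2
  rw [q1, q2] at e4
  exact_mod_cast e4.symm

end ExS

open Ex ExS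

/-- Soundness of the check. -/
theorem ex_sound {e : Ex.Data} (h : Ex.ok e = true) {A B s : Equiv.Perm V3}
    (hA : IsAff A e.A.mat 0) (hB : IsAff B e.B.mat 0)
    (hs : IsAff s e.s.M.mat (((e.d : ℝ)⁻¹) • e.s.v.vec)) :
    Rel e.cls A B s 0 ∧ Nondeg e.cls A B s 0 ∧ Distinct e.cls A B s 0 ∧
      ((e.kind = .tet ∨ e.kind = .hex) → s 0 0 ≠ 0 ∨ s 0 1 ≠ 0) ∧
      Full e.cls (e.kind.frame e.b e.c) A B s := by
  unfold Ex.ok at h
  simp only [Bool.and_eq_true] at h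
  obtain ⟨⟨⟨⟨⟨⟨⟨⟨⟨⟨⟨⟨⟨⟨⟨hb, hc⟩, hd⟩, a1⟩, a2⟩, b1⟩, b2⟩, s1⟩, s2⟩, hone⟩, hcl⟩, hrel⟩, hnd⟩,
    hdist⟩, hflat⟩, hfull⟩ := h
  rw [decide_eq_true_eq] at hb hc hd a1 a2 b1 b2 s1 s2 hone
  have hd0 : e.d ≠ 0 := hd.ne'
  have uA : Un (ZA.lin e.A) := dt_sq_of_inv a1
  have uB : Un (ZA.lin e.B) := dt_sq_of_inv b1
  have us : Un e.s := dt_sq_of_inv s1
  have rA : Rep e.d A (ZA.lin e.A) := Rep.lin hA
  have rB : Rep e.d B (ZA.lin e.B) := Rep.lin hB
  have rs : Rep e.d s e.s := hs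
  rw [List.all_eq_true] at hcl
  have hC : Cl e.hl e.A e.B := by
    refine ⟨hone, fun M hM => ?_, fun M hM => ?_, fun M hM => ?_, fun M hM => ?_⟩ <;>
    · have h1 := hcl M hM
      simp only [Bool.and_eq_true, decide_eq_true_eq] at h1
      obtain ⟨⟨⟨h2, h3⟩, h4⟩, h5⟩ := h1
      assumption
  refine ⟨rel_of hd0 e.cls rA rB rs us hrel, nondeg_of hd0 e.cls hC rA rB rs uA uB us hnd,
    distinct_of hd0 e.cls rA rB rs uA us hdist, ?_, full_of hfull hb hc hd0
      ⟨⟨rA, rB, rs⟩, uA, uB, us⟩⟩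
  intro hk
  simp only [Bool.or_eq_true, decide_eq_true_eq] at hflat
  have hdr : ((e.d : ℝ)⁻¹) ≠ 0 := inv_ne_zero (by exact_mod_cast hd0)
  have h0 : s 0 = ((e.d : ℝ)⁻¹) • e.s.v.vec := rs.zero
  have e0 : s 0 0 = ((e.d : ℝ)⁻¹) * e.s.v.x := by
    rw [h0]
    rfl
  have e1 : s 0 1 = ((e.d : ℝ)⁻¹) * e.s.v.y := by
    rw [h0]
    rfl
  rw [e0, e1]
  rcases hflat with ((h1 | h1) | h1) | h1
  · rw [h1] at hk
    rcases hk with hk | hk <;> exact absurd hk (by decide)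
  · rw [h1] at hk
    rcases hk with hk | hk <;> exact absurd hk (by decide)
  · exact Or.inl (mul_ne_zero hdr (by exact_mod_cast h1))
  · exact Or.inr (mul_ne_zero hdr (by exact_mod_cast h1))

/-- Existence of the generators. -/
theorem ex_exists {e : Ex.Data} (h : Ex.ok e = true) : ∃ A B s : Equiv.Perm V3,
    IsAff A e.A.mat 0 ∧ IsAff B e.B.mat 0 ∧
      IsAff s e.s.M.mat (((e.d : ℝ)⁻¹) • e.s.v.vec) := by
  unfold Ex.ok at h
  simp only [Bool.and_eq_true] at h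
  obtain ⟨⟨⟨⟨⟨⟨⟨⟨⟨⟨⟨⟨⟨⟨⟨hb, hc⟩, hd⟩, a1⟩, a2⟩, b1⟩, b2⟩, s1⟩, s2⟩, hone⟩, hcl⟩, hrel⟩, hnd⟩,
    hdist⟩, hflat⟩, hfull⟩ := h
  rw [decide_eq_true_eq] at a1 b1 s1
  have key : ∀ (M : IM) (_ : M.mul (invM M) = IM.one) (a : V3),
      ∃ g : Equiv.Perm V3, IsAff g M.mat a := by
    intro M hM a
    have h1 := congrArg IM.mat hM
    rw [mat_mul, mat_one] at h1
    exact exists_aff h1 a
  obtain ⟨A, hA⟩ := key e.A a1 0
  obtain ⟨B, hB⟩ := key e.B b1 0
  obtain ⟨s, hs⟩ := key e.s.M s1 (((e.d : ℝ)⁻¹) • e.s.v.vec)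
  exact ⟨A, B, s, hA, hB, hs⟩

end Pool.Agent.H21.FT
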