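import Pool.Agent.H21.FT.Final
import Pool.Agent.H21.FT.ExKer
import Pool.Agent.H21.FT.ExSound
import Pool.Agent.H21.FT.ExGives

/-!
# Every family of every block, tubes and every construction occur
-/

namespace Pool.Agent.H21.FT

open Matrix

namespace ExFinal

/-- The example gives a valid entry. -/
theorem of_chk {x : (Ex.Data × Ex.Pos) × Block} (h : ExKer.chk x = true)
    (hx : ∃ b ∈ catalogue, b.kind = x.2.kind ∧ ∀ A B s, x.2.Gives A B s → b.Gives A B s) :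
    ∃ i : Entry, i.Valid ∧ i.cls = x.1.1.cls ∧ i.kind = x.2.kind ∧ x.2.Gives i.A i.B i.s := by
  simp only [ExKer.chk, Bool.and_eq_true, Bool.or_eq_true, decide_eq_true_eq] at h
  obtain ⟨⟨⟨h1, h2⟩, h3⟩, h4⟩ := h
  obtain ⟨A, B, s, hA, hB, hs⟩ := ex_exists h1
  obtain ⟨r1, r2, r3, r4, r5⟩ := ex_sound h1 hA hB hs
  have hpos : 0 < x.1.1.b ∧ 0 < x.1.1.c ∧ 0 < x.1.1.d := by
    have := h1
    simp only [Ex.ok, Bool.and_eq_true, decide_eq_true_eq] at this
    tauto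
  obtain ⟨g1, g2⟩ := ex_gives hpos.2.2 h2 hA hB hs
  obtain ⟨b, hb, hk, hg⟩ := hx
  refine ⟨⟨x.1.1.cls, x.1.1.kind, x.1.1.b, x.1.1.c, A, B, s⟩, ?_, rfl, g1.symm, g2⟩
  refine ⟨Or.inl ⟨b, hb, hk.trans g1, hg _ _ _ g2⟩, ⟨Nat.cast_pos.2 hpos.1, ?_⟩,
    ⟨Nat.cast_pos.2 hpos.2.1, ?_⟩, r1, r2, r3, r4, r5⟩
  · rcases h3 with h3 | h3
    · exact Or.inl h3
    · exact Or.inr (by simp [h3])
  · rcases h4 with h4 | h4
    · exact Or.inl h4
    · exact Or.inr (by simp [h4])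

theorem gives_of_only {b : Block} {f : Fam} (hf : f ∈ b.fams) {A B s : Equiv.Perm V3}
    (h : (b.only f).Gives A B s) : b.Gives A B s := by
  obtain ⟨hst, g, hg, n, x, y, h1, h2, t, h3, h4⟩ := h
  have : g = f := by simpa [Block.only] using hg
  subst this
  exact ⟨hst, g, hf, n, x, y, h1, h2, t, h3, h4⟩

theorem mem_singles {l : List Block} {b' : Block} :
    b' ∈ ExKer.singles l ↔ ∃ b ∈ l, ∃ f ∈ b.fams, b' = b.only f := by
  simp only [ExKer.singles, List.mem_flatMap, List.mem_map]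
  constructor
  · rintro ⟨b, hb, f, hf, rfl⟩
    exact ⟨b, hb, f, hf, rfl⟩
  · rintro ⟨b, hb, f, hf, rfl⟩
    exact ⟨b, hb, f, hf, rfl⟩

theorem zip_right {α β : Type} {l : List α} {m : List β} (h : l.length = m.length) {b : β}
    (hb : b ∈ m) : ∃ a, (a, b) ∈ l.zip m := by
  obtain ⟨i, hi, rfl⟩ := List.getElem_of_mem hb
  refine ⟨l[i], ?_⟩
  have : (l.zip m)[i]'(by simp [h]; exact hi) = (l[i], m[i]) := List.getElem_zip
  rw [← this]
  exact List.getElem_mem _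

theorem zip_left {α β : Type} {l : List α} {m : List β} (h : l.length = m.length) {a : α}
    (ha : a ∈ l) : ∃ b, (a, b) ∈ l.zip m := by
  obtain ⟨i, hi, rfl⟩ := List.getElem_of_mem ha
  refine ⟨m[i], ?_⟩
  have : (l.zip m)[i]'(by simp [← h]; exact hi) = (l[i], m[i]) := List.getElem_zip
  rw [← this]
  exact List.getElem_mem _

/-- The four parts. -/
theorem part {e : List (Ex.Data × Ex.Pos)} {l : List Block} (h : ExKer.allChk e l = true)
    (hl : ∀ b ∈ l, b ∈ catalogue) :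
    (∀ b ∈ l, ∀ f ∈ b.fams, ∃ i : Entry, i.Valid ∧ i.kind = b.kind ∧
      (b.only f).Gives i.A i.B i.s) ∧
    ∀ a ∈ e, ∃ i : Entry, i.Valid ∧ i.cls = a.1.cls := by
  simp only [ExKer.allChk, Bool.and_eq_true, decide_eq_true_eq, List.all_eq_true] at h
  obtain ⟨h1, h2⟩ := h
  have key : ∀ x ∈ e.zip (ExKer.singles l), ∃ i : Entry, i.Valid ∧ i.cls = x.1.1.cls ∧
      i.kind = x.2.kind ∧ x.2.Gives i.A i.B i.s := by
    intro x hx
    refine of_chk (h2 x hx) ?_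
    obtain ⟨b, hb, f, hf, hx2⟩ := mem_singles.1 (List.of_mem_zip hx).2
    refine ⟨b, hl b hb, by rw [hx2]; rfl, fun A B s hg => ?_⟩
    rw [hx2] at hg
    exact gives_of_only hf hg
  constructor
  · intro b hb f hf
    obtain ⟨a, ha⟩ := zip_right h1 (mem_singles.2 ⟨b, hb, f, hf, rfl⟩)
    obtain ⟨i, hi, -, hk, hg⟩ := key _ ha
    exact ⟨i, hi, hk, hg⟩
  · intro a ha
    obtain ⟨b, hb⟩ := zip_left h1 ha
    obtain ⟨i, hi, hc, -⟩ := key _ hb
    exact ⟨i, hi, hc⟩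

theorem mem_cat {b : Block} : b ∈ catalogue ↔ b ∈ Catalogue.cubic ∨ b ∈ Catalogue.tetragonal ∨
    b ∈ Catalogue.hexagonal ∨ b ∈ Catalogue.orthogonal := by
  simp only [catalogue, List.mem_append]
  tauto

end ExFinal

open ExFinal

/-- Every family of every block occurs. -/
theorem family_occurs {b : Block} (hb : b ∈ catalogue) {f : Fam} (hf : f ∈ b.fams) :
    ∃ i : Entry, i.Valid ∧ i.kind = b.kind ∧ (b.only f).Gives i.A i.B i.s := by
  rcases mem_cat.1 hb with h | h | h | h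
  · exact (part ExKer.cub fun b hb => mem_cat.2 (Or.inl hb)).1 b h f hf
  · exact (part ExKer.tet fun b hb => mem_cat.2 (Or.inr (Or.inl hb))).1 b h f hf
  · exact (part ExKer.hex fun b hb => mem_cat.2 (Or.inr (Or.inr (Or.inl hb)))).1 b h f hf
  · exact (part ExKer.ort fun b hb => mem_cat.2 (Or.inr (Or.inr (Or.inr hb)))).1 b h f hf

/-- Every construction occurs. -/
theorem class_occurs (c : Cls) : ∃ i : Entry, i.Valid ∧ i.cls = c := by
  have h := ExKer.occurs c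
  simp only [List.any_eq_true, decide_eq_true_eq] at h
  obtain ⟨a, ha, rfl⟩ := h
  simp only [Ex.famEx, List.mem_append] at ha
  rcases ha with ((ha | ha) | ha) | ha
  · exact (part ExKer.cub fun b hb => mem_cat.2 (Or.inl hb)).2 a ha
  · exact (part ExKer.tet fun b hb => mem_cat.2 (Or.inr (Or.inl hb))).2 a ha
  · exact (part ExKer.hex fun b hb => mem_cat.2 (Or.inr (Or.inr (Or.inl hb)))).2 a ha
  · exact (part ExKer.ort fun b hb => mem_cat.2 (Or.inr (Or.inr (Or.inr hb)))).2 a ha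

/-- Tubes occur. -/
theorem tube_occurs : ∃ i : Entry, i.Valid ∧ i.kind = .tet ∧ Tube i.A i.B i.s := by
  have h : Ex.ok Ex.tubeEx = true := by decide +kernel
  obtain ⟨A, B, s, hA, hB, hs⟩ := ex_exists h
  obtain ⟨r1, r2, r3, r4, r5⟩ := ex_sound h hA hB hs
  have ht : Tube A B s := tube_iff.2 (tube_has hA hB hs)
  refine ⟨⟨.c21, .tet, (1 : ℕ), (2 : ℕ), A, B, s⟩, ⟨Or.inr ⟨rfl, ht⟩, ⟨by norm_num, Or.inr (by simp)⟩,
    ⟨by norm_num, Or.inl (by simp)⟩, r1, r2, r3, r4, r5⟩, rfl, ht⟩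

end Pool.Agent.H21.FT
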