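import Pool.Agent.H21.FT.Table

/-!
# The list of the infinite fully transitive polyhedra
-/

namespace Pool.Agent.H21.FT

open Matrix
open Pool.Agent.H38.FT (Cfg E3)

/-- The generators `A`, `B`, `s` are listed in the table, in a block with frame of kind `k`, or they
define a rod (in a tetragonal frame). -/
def Listed (k : Kind) (A B s : Equiv.Perm V3) : Prop :=
  (∃ b ∈ table, b.kind = k ∧ b.Has A B s) ∨ (k = .tet ∧ ∃ r : Rod, r.Has A B s)

/-- The conditions on an item: the generators are listed, satisfy the relations of the construction
`c`, the neighbours of the base vertex are distinct as required by the construction, the base face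
is a simple polygon and the vertices are not coplanar. -/
structure Admissible (c : Cls) (k : Kind) (A B s : Equiv.Perm V3) : Prop where
  listed : Listed k A B s
  rel : Rel c A B s 0
  nondeg : Nondeg c A B s 0
  simple : SimpleFace c A B s 0
  spans : Spans (cfg c A B s 0).V

/-- The configuration in space: the coordinates refer to the frame with parameters `b'`, `c'`. -/
noncomputable def item (c : Cls) (k : Kind) (b' c' : ℝ) (A B s : Equiv.Perm V3) : Cfg E3 :=
  (cfg c A B s 0).map (fun x => WithLp.toLp 2 (k.frame b' c' *ᵥ x))

end Pool.Agent.H21.FT
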