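import Pool.Agent.H21.FT.ExplicitKer
import Pool.Agent.H21.FT.Items
import Pool.Agent.H21.FT.DefsC
import Pool.Agent.H21.FT.RowFacts

/-!
# The explicit list
-/

namespace Pool.Agent.H21.FT

open Matrix

/-- the data without the last condition -/
def Dat.Ok0 : Dat → Prop
  | .cryst blk A B h h' _ fam _ x y => blk ∈ table ∧ A ∈ elts blk.gens ∧ B ∈ elts blk.gens ∧
      h ∈ elts blk.gens ∧ h' ∈ elts blk.gens ∧ linGrp [A, B] = linGrp blk.gens ∧
      fam ∈ blk.fams ∧ ¬ fam.Excl x y
  | .rod r A B h h' _ p q => A ∈ elts r.gens ∧ B ∈ elts r.gens ∧ h ∈ elts r.gens ∧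
      h' ∈ elts r.gens ∧ linGrp [A, B] = linGrp r.gens ∧ 0 < q ∧ ¬ q ∣ p

/-! ### Affine maps -/

theorem aff_isAff {M : M3} (h : M.det ≠ 0) (a : V3) : IsAff (aff M a) M a := by
  intro x
  rw [aff, dif_pos h.isUnit]
  rfl

theorem ex_det {g : Equiv.Perm V3} {M : M3} {a : V3} (hg : IsAff g M a) : M.det ≠ 0 := by
  intro h
  obtain ⟨v, hv, hMv⟩ := Matrix.exists_mulVec_eq_zero_iff.2 h
  apply hv
  apply g.injective
  rw [hg, hg, hMv, mulVec_zero]

theorem aff_eq {g : Equiv.Perm V3} {M : M3} {a : V3} (hg : IsAff g M a) : aff M a = g :=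
  rf_ext (aff_isAff (ex_det hg) a) hg

theorem idet_mat (M : IM) : M.mat.det = (idet M : ℝ) := by
  rw [det_fin_three]
  simp [IM.mat, idet]
  ring

/-! ### The elements of the stabilisers -/

/-- what the kernel checks say about the list of generators -/
structure ExOK (l : List IM) : Prop where
  one : IM.one ∈ elts l
  mul : ∀ g ∈ l, ∀ M ∈ elts l, g.mul M ∈ elts l
  inv : ∀ g ∈ l, ∃ N ∈ elts l, N.mul g = IM.one

theorem exOK_of {l : List IM} (h : eltsData.any (fun p => decide (p.1 = l)) = true) : ExOK l := by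
  rw [List.any_eq_true] at h
  obtain ⟨p, hp, h⟩ := h
  rw [decide_eq_true_eq] at h
  subst h
  have h1 := List.all_eq_true.1 eltsData_elts p hp
  have h2 := List.all_eq_true.1 eltsData_mul p hp
  have h3 := List.all_eq_true.1 eltsData_inv p hp
  have h4 := List.all_eq_true.1 eltsData_one p hp
  simp only [decide_eq_true_eq] at h1 h4
  simp only [List.all_eq_true, List.any_eq_true, decide_eq_true_eq] at h2 h3
  rw [← h1] at h2 h3 h4
  exact ⟨h4, h2, h3⟩

theorem exOK_table {b : Block} (hb : b ∈ table) : ExOK b.gens :=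
  exOK_of (List.all_eq_true.1 eltsData_table b hb)

theorem exOK_rod (r : Rod) : ExOK r.gens := exOK_of (eltsData_rod r)

theorem mem_foldl_add {l acc : List IM} {N : IM}
    (h : N ∈ l.foldl (fun acc N => if N ∈ acc then acc else acc ++ [N]) acc) :
    N ∈ acc ∨ N ∈ l := by
  induction l generalizing acc with
  | nil => exact Or.inl h
  | cons M l ih =>
    rw [List.foldl_cons] at h
    rcases ih h with h1 | h1
    · split_ifs at h1 with h2
      · exact Or.inl h1
      · rcases List.mem_append.1 h1 with h3 | h3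
        · exact Or.inl h3
        · rw [List.mem_singleton] at h3
          exact Or.inr (h3 ▸ List.mem_cons_self)
    · exact Or.inr (List.mem_cons_of_mem _ h1)

theorem extend_genBy {l L : List IM} (h : ∀ M ∈ L, GenBy l M) : ∀ M ∈ extend l L, GenBy l M := by
  intro M hM
  rcases mem_foldl_add hM with h1 | h1
  · exact h M h1
  · rw [List.mem_flatMap] at h1
    obtain ⟨N, hN, h1⟩ := h1
    rw [List.mem_map] at h1
    obtain ⟨g, hg, rfl⟩ := h1
    exact GenBy.mul hg (h N hN)

theorem elts_genBy {l : List IM} : ∀ M ∈ elts l, GenBy l M := by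
  have key : ∀ k : ℕ, ∀ M ∈ (extend l)^[k] [IM.one], GenBy l M := by
    intro k
    induction k with
    | zero =>
      intro M hM
      rw [Function.iterate_zero, id, List.mem_singleton] at hM
      rw [hM]
      exact GenBy.one
    | succ k ih =>
      intro M hM
      rw [Function.iterate_succ_apply'] at hM
      exact extend_genBy ih M hM
  exact key 12

/-- products of generators are realised by elements of the group -/
theorem ex_genBy_real {l : List IM} (hl : ExOK l) {M : IM} (hM : GenBy l M) :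
    ∃ g ∈ linGrp l, IsAff g M.mat 0 := by
  induction hM with
  | one =>
    refine ⟨1, one_mem _, ?_⟩
    rw [rf_one_mat]
    exact rf_one
  | mul hg _ ih =>
    obtain ⟨h, hh, hh'⟩ := ih
    rename_i M N _
    obtain ⟨K, -, hK⟩ := hl.inv M hg
    have h1 : K.mat * M.mat = 1 := by rw [← rf_mul_mat, hK, rf_one_mat]
    refine ⟨rfPerm _ _ h1 * h, mul_mem (Subgroup.subset_closure ⟨M, hg, rf_perm _ _ h1⟩) hh, ?_⟩
    have h2 := rf_mul (rf_perm _ _ h1) hh'
    rw [mulVec_zero, add_zero] at h2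
    rw [rf_mul_mat]
    exact h2

theorem ex_genBy_mul {l : List IM} (hl : ExOK l) {M : IM} (hM : GenBy l M) :
    ∀ N ∈ elts l, M.mul N ∈ elts l := by
  induction hM with
  | one =>
    intro N hN
    have h1 : IM.one.mul N = N := rf_mat_inj (by rw [rf_mul_mat, rf_one_mat, Matrix.one_mul])
    rw [h1]
    exact hN
  | mul hg _ ih =>
    intro N hN
    rw [rf_mul_assoc]
    exact hl.mul _ hg _ (ih N hN)

theorem elts_iff {l : List IM} (hl : ExOK l) {g : Equiv.Perm V3} :
    g ∈ linGrp l ↔ ∃ M ∈ elts l, IsAff g M.mat 0 := by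
  constructor
  · intro hg
    induction hg using Subgroup.closure_induction_left with
    | one =>
      refine ⟨IM.one, hl.one, ?_⟩
      rw [rf_one_mat]
      exact rf_one
    | mul_left x hx y hy ih =>
      obtain ⟨M, hM, hxM⟩ := hx
      obtain ⟨N, hN, hyN⟩ := ih
      refine ⟨M.mul N, hl.mul M hM N hN, ?_⟩
      have h2 := rf_mul hxM hyN
      rw [mulVec_zero, add_zero] at h2
      rw [rf_mul_mat]
      exact h2
    | inv_mul_cancel x hx y hy ih =>
      obtain ⟨M, hM, hxM⟩ := hx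
      obtain ⟨N, hN, hyN⟩ := ih
      obtain ⟨K, hK, hKM⟩ := hl.inv M hM
      refine ⟨K.mul N, ex_genBy_mul hl (elts_genBy K hK) N hN, ?_⟩
      have h1 : K.mat * M.mat = 1 := by rw [← rf_mul_mat, hKM, rf_one_mat]
      have h2 := rf_mul (rf_inv hxM h1) hyN
      simp only [mulVec_zero, neg_zero, add_zero] at h2
      rw [rf_mul_mat]
      exact h2
  · rintro ⟨M, hM, hg⟩
    obtain ⟨g', hg', h1⟩ := ex_genBy_real hl (elts_genBy M hM)
    rw [rf_ext hg h1]
    exact hg'

theorem elts_aff {l : List IM} (hl : ExOK l) {M : IM} (hM : M ∈ elts l) :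
    IsAff (aff M.mat 0) M.mat 0 ∧ aff M.mat 0 ∈ linGrp l := by
  obtain ⟨g, hg, h1⟩ := ex_genBy_real hl (elts_genBy M hM)
  rw [aff_eq h1]
  exact ⟨h1, hg⟩

theorem linGrp_pair {A B : Equiv.Perm V3} {MA MB : IM} (hA : IsAff A MA.mat 0)
    (hB : IsAff B MB.mat 0) : linGrp [MA, MB] = stab A B := by
  unfold linGrp stab
  congr 1
  ext g
  simp only [List.mem_cons, List.not_mem_nil, or_false, exists_eq_or_imp, exists_eq_left,
    Set.mem_ofPred_eq, Set.mem_insert_iff, Set.mem_singleton_iff]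
  constructor
  · rintro (h | h)
    · exact Or.inl (rf_ext h hA)
    · exact Or.inr (rf_ext h hB)
  · rintro (rfl | rfl)
    · exact Or.inl hA
    · exact Or.inr hB

theorem rodMat_det {θ ε : ℝ} (h : ε ≠ 0) : (rodMat θ ε).det ≠ 0 := by
  have h1 : (rodMat θ ε).det = ε := by
    rw [det_fin_three]
    simp [rodMat]
    linear_combination ε * Real.cos_sq_add_sin_sq θ
  rw [h1]
  exact h

theorem sgn_ne (r : Rod) : r.sgn ≠ 0 := by
  cases r <;> simp [Rod.sgn]

theorem rod_sin {p q : ℤ} (hq : 0 < q) : Real.sin (Real.pi * p / q) ≠ 0 ↔ ¬ q ∣ p := by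
  have hq' : (q : ℝ) ≠ 0 := by exact_mod_cast hq.ne'
  rw [ne_eq, Real.sin_eq_zero_iff, not_iff_not]
  constructor
  · rintro ⟨n, hn⟩
    refine ⟨n, ?_⟩
    rw [eq_div_iff hq'] at hn
    have h1 : Real.pi * ((q : ℝ) * n) = Real.pi * p := by linear_combination hn
    exact_mod_cast (mul_left_cancel₀ Real.pi_ne_zero h1).symm
  · rintro ⟨n, rfl⟩
    refine ⟨n, ?_⟩
    rw [eq_div_iff hq']
    push_cast
    ring

theorem listed_iff {k : Kind} {A B s : Equiv.Perm V3} :
    Listed k A B s ↔ ∃ d : Dat, d.Ok0 ∧ d.kind = k ∧ d.A = A ∧ d.B = B ∧ d.s = s := by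
  constructor
  · rintro (⟨b, hb, rfl, hst, f, hf, n, x, y, hex, t, ht, h, hh, h', hh', hs⟩ |
      ⟨rfl, r, hst, θ, ⟨p, q, hq, hθ⟩, hsin, t, ht, h, hh, h', hh', hs⟩)
    · have hl := exOK_table hb
      have hA : A ∈ linGrp b.gens := hst ▸ Subgroup.subset_closure (Or.inl rfl)
      have hB : B ∈ linGrp b.gens := hst ▸ Subgroup.subset_closure (Or.inr rfl)
      rw [hst] at hh hh'
      obtain ⟨MA, hMA, hMA'⟩ := (elts_iff hl).1 hA
      obtain ⟨MB, hMB, hMB'⟩ := (elts_iff hl).1 hB
      obtain ⟨Mh, hMh, hMh'⟩ := (elts_iff hl).1 hh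
      obtain ⟨Mk, hMk, hMk'⟩ := (elts_iff hl).1 hh'
      have hgr : linGrp [MA, MB] = linGrp b.gens := (linGrp_pair hMA' hMB').trans hst
      rcases hs with hs | hs
      · refine ⟨.cryst b MA MB Mh Mk false f n x y,
          ⟨hb, hMA, hMB, hMh, hMk, hgr, hf, hex⟩, rfl, aff_eq hMA', aff_eq hMB', ?_⟩
        rw [hs]
        simp only [Dat.s, Dat.t, cond_false, aff_eq hMh', aff_eq hMk', aff_eq ht]
      · refine ⟨.cryst b MA MB Mh Mk true f n x y,
          ⟨hb, hMA, hMB, hMh, hMk, hgr, hf, hex⟩, rfl, aff_eq hMA', aff_eq hMB', ?_⟩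
        rw [hs]
        simp only [Dat.s, Dat.t, cond_true, aff_eq hMh', aff_eq hMk', aff_eq ht]
    · have hl := exOK_rod r
      have hA : A ∈ linGrp r.gens := hst ▸ Subgroup.subset_closure (Or.inl rfl)
      have hB : B ∈ linGrp r.gens := hst ▸ Subgroup.subset_closure (Or.inr rfl)
      rw [hst] at hh hh'
      obtain ⟨MA, hMA, hMA'⟩ := (elts_iff hl).1 hA
      obtain ⟨MB, hMB, hMB'⟩ := (elts_iff hl).1 hB
      obtain ⟨Mh, hMh, hMh'⟩ := (elts_iff hl).1 hh
      obtain ⟨Mk, hMk, hMk'⟩ := (elts_iff hl).1 hh'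
      have hgr : linGrp [MA, MB] = linGrp r.gens := (linGrp_pair hMA' hMB').trans hst
      have hq' : (q : ℝ) ≠ 0 := by exact_mod_cast hq.ne'
      have hθ' : θ = Real.pi * p / q := by rw [eq_div_iff hq', hθ]
      subst hθ'
      have hpq : ¬ q ∣ p := (rod_sin hq).1 hsin
      rcases hs with hs | hs
      · refine ⟨.rod r MA MB Mh Mk false p q,
          ⟨hMA, hMB, hMh, hMk, hgr, hq, hpq⟩, rfl, aff_eq hMA', aff_eq hMB', ?_⟩
        rw [hs]
        simp only [Dat.s, Dat.t, cond_false, aff_eq hMh', aff_eq hMk', aff_eq ht]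
      · refine ⟨.rod r MA MB Mh Mk true p q,
          ⟨hMA, hMB, hMh, hMk, hgr, hq, hpq⟩, rfl, aff_eq hMA', aff_eq hMB', ?_⟩
        rw [hs]
        simp only [Dat.s, Dat.t, cond_true, aff_eq hMh', aff_eq hMk', aff_eq ht]
  · rintro ⟨d, hd, rfl, rfl, rfl, rfl⟩
    cases d with
    | cryst b MA MB Mh Mk inv f n x y =>
      obtain ⟨hb, hMA, hMB, hMh, hMk, hgr, hf, hex⟩ := hd
      have hl := exOK_table hb
      have hst : stab (aff MA.mat 0) (aff MB.mat 0) = linGrp b.gens :=
        (linGrp_pair (elts_aff hl hMA).1 (elts_aff hl hMB).1).symm.trans hgr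
      have hS : b.S.mat.det ≠ 0 := by
        have h1 := List.all_eq_true.1 table_S b hb
        rw [decide_eq_true_eq] at h1
        rw [idet_mat]
        exact_mod_cast h1
      refine Or.inl ⟨b, hb, rfl, hst, f, hf, n, x, y, hex, aff b.S.mat (f.pt n x y),
        aff_isAff hS _, aff Mh.mat 0, ?_, aff Mk.mat 0, ?_, ?_⟩
      · change aff Mh.mat 0 ∈ stab (aff MA.mat 0) (aff MB.mat 0)
        rw [hst]
        exact (elts_aff hl hMh).2
      · change aff Mk.mat 0 ∈ stab (aff MA.mat 0) (aff MB.mat 0)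
        rw [hst]
        exact (elts_aff hl hMk).2
      · cases inv
        · exact Or.inl rfl
        · exact Or.inr rfl
    | rod r MA MB Mh Mk inv p q =>
      obtain ⟨hMA, hMB, hMh, hMk, hgr, hq, hpq⟩ := hd
      have hl := exOK_rod r
      have hst : stab (aff MA.mat 0) (aff MB.mat 0) = linGrp r.gens :=
        (linGrp_pair (elts_aff hl hMA).1 (elts_aff hl hMB).1).symm.trans hgr
      have hq' : (q : ℝ) ≠ 0 := by exact_mod_cast hq.ne'
      refine Or.inr ⟨rfl, r, hst, Real.pi * p / q, ⟨p, q, hq, div_mul_cancel₀ _ hq'⟩,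
        (rod_sin hq).2 hpq, aff (rodMat (Real.pi * p / q) r.sgn)
        ![Real.cos (Real.pi * p / q) - 1, Real.sin (Real.pi * p / q), 1],
        aff_isAff (rodMat_det (sgn_ne r)) _, aff Mh.mat 0, ?_, aff Mk.mat 0, ?_, ?_⟩
      · change aff Mh.mat 0 ∈ stab (aff MA.mat 0) (aff MB.mat 0)
        rw [hst]
        exact (elts_aff hl hMh).2
      · change aff Mk.mat 0 ∈ stab (aff MA.mat 0) (aff MB.mat 0)
        rw [hst]
        exact (elts_aff hl hMk).2
      · cases inv
        · exact Or.inl rfl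
        · exact Or.inr rfl

end Pool.Agent.H21.FT
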