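import Pool.Agent.H21.FT.DefsG

/-!
# The elements of the stabilisers: kernel checks
-/

namespace Pool.Agent.H21.FT

/-- The lists of generators that appear in the table and for the rods, with the elements of the
groups. -/
def eltsData : List (List IM × List IM) :=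
  [([⟨⟨-1, 0, 0⟩, ⟨0, -1, 0⟩, ⟨0, 0, 1⟩⟩],
     [⟨⟨1, 0, 0⟩, ⟨0, 1, 0⟩, ⟨0, 0, 1⟩⟩,
      ⟨⟨-1, 0, 0⟩, ⟨0, -1, 0⟩, ⟨0, 0, 1⟩⟩]),
   ([⟨⟨-1, 0, 0⟩, ⟨0, 0, -1⟩, ⟨0, -1, 0⟩⟩],
     [⟨⟨1, 0, 0⟩, ⟨0, 1, 0⟩, ⟨0, 0, 1⟩⟩,
      ⟨⟨-1, 0, 0⟩, ⟨0, 0, -1⟩, ⟨0, -1, 0⟩⟩]),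
   ([⟨⟨-1, 0, 0⟩, ⟨0, 1, 0⟩, ⟨0, 0, 1⟩⟩],
     [⟨⟨1, 0, 0⟩, ⟨0, 1, 0⟩, ⟨0, 0, 1⟩⟩,
      ⟨⟨-1, 0, 0⟩, ⟨0, 1, 0⟩, ⟨0, 0, 1⟩⟩]),
   ([⟨⟨0, -1, 0⟩, ⟨-1, 0, 0⟩, ⟨0, 0, 1⟩⟩],
     [⟨⟨1, 0, 0⟩, ⟨0, 1, 0⟩, ⟨0, 0, 1⟩⟩,
      ⟨⟨0, -1, 0⟩, ⟨-1, 0, 0⟩, ⟨0, 0, 1⟩⟩]),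
   ([⟨⟨0, 0, -1⟩, ⟨-1, 0, 0⟩, ⟨0, 1, 0⟩⟩],
     [⟨⟨1, 0, 0⟩, ⟨0, 1, 0⟩, ⟨0, 0, 1⟩⟩,
      ⟨⟨0, 0, -1⟩, ⟨-1, 0, 0⟩, ⟨0, 1, 0⟩⟩,
      ⟨⟨0, -1, 0⟩, ⟨0, 0, 1⟩, ⟨-1, 0, 0⟩⟩]),
   ([⟨⟨0, 0, 1⟩, ⟨0, -1, 0⟩, ⟨-1, 0, 0⟩⟩],
     [⟨⟨1, 0, 0⟩, ⟨0, 1, 0⟩, ⟨0, 0, 1⟩⟩,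
      ⟨⟨0, 0, 1⟩, ⟨0, -1, 0⟩, ⟨-1, 0, 0⟩⟩,
      ⟨⟨-1, 0, 0⟩, ⟨0, 1, 0⟩, ⟨0, 0, -1⟩⟩,
      ⟨⟨0, 0, -1⟩, ⟨0, -1, 0⟩, ⟨1, 0, 0⟩⟩]),
   ([⟨⟨0, 0, 1⟩, ⟨0, -1, 0⟩, ⟨1, 0, 0⟩⟩,
      ⟨⟨0, 0, -1⟩, ⟨0, -1, 0⟩, ⟨-1, 0, 0⟩⟩],
     [⟨⟨1, 0, 0⟩, ⟨0, 1, 0⟩, ⟨0, 0, 1⟩⟩,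
      ⟨⟨0, 0, 1⟩, ⟨0, -1, 0⟩, ⟨1, 0, 0⟩⟩,
      ⟨⟨0, 0, -1⟩, ⟨0, -1, 0⟩, ⟨-1, 0, 0⟩⟩,
      ⟨⟨-1, 0, 0⟩, ⟨0, 1, 0⟩, ⟨0, 0, -1⟩⟩]),
   ([⟨⟨0, 0, 1⟩, ⟨0, -1, 0⟩, ⟨1, 0, 0⟩⟩,
      ⟨⟨0, 0, -1⟩, ⟨0, 1, 0⟩, ⟨-1, 0, 0⟩⟩],
     [⟨⟨1, 0, 0⟩, ⟨0, 1, 0⟩, ⟨0, 0, 1⟩⟩,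
      ⟨⟨0, 0, 1⟩, ⟨0, -1, 0⟩, ⟨1, 0, 0⟩⟩,
      ⟨⟨0, 0, -1⟩, ⟨0, 1, 0⟩, ⟨-1, 0, 0⟩⟩,
      ⟨⟨-1, 0, 0⟩, ⟨0, -1, 0⟩, ⟨0, 0, -1⟩⟩]),
   ([⟨⟨0, 0, 1⟩, ⟨0, 1, 0⟩, ⟨-1, 0, 0⟩⟩],
     [⟨⟨1, 0, 0⟩, ⟨0, 1, 0⟩, ⟨0, 0, 1⟩⟩,
      ⟨⟨0, 0, 1⟩, ⟨0, 1, 0⟩, ⟨-1, 0, 0⟩⟩,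
      ⟨⟨-1, 0, 0⟩, ⟨0, 1, 0⟩, ⟨0, 0, -1⟩⟩,
      ⟨⟨0, 0, -1⟩, ⟨0, 1, 0⟩, ⟨1, 0, 0⟩⟩]),
   ([⟨⟨0, 0, 1⟩, ⟨0, 1, 0⟩, ⟨1, 0, 0⟩⟩,
      ⟨⟨0, 0, -1⟩, ⟨0, 1, 0⟩, ⟨-1, 0, 0⟩⟩],
     [⟨⟨1, 0, 0⟩, ⟨0, 1, 0⟩, ⟨0, 0, 1⟩⟩,
      ⟨⟨0, 0, 1⟩, ⟨0, 1, 0⟩, ⟨1, 0, 0⟩⟩,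
      ⟨⟨0, 0, -1⟩, ⟨0, 1, 0⟩, ⟨-1, 0, 0⟩⟩,
      ⟨⟨-1, 0, 0⟩, ⟨0, 1, 0⟩, ⟨0, 0, -1⟩⟩]),
   ([⟨⟨1, 0, 0⟩, ⟨0, -1, 0⟩, ⟨0, 0, -1⟩⟩,
      ⟨⟨-1, 0, 0⟩, ⟨0, 1, 0⟩, ⟨0, 0, -1⟩⟩],
     [⟨⟨1, 0, 0⟩, ⟨0, 1, 0⟩, ⟨0, 0, 1⟩⟩,
      ⟨⟨1, 0, 0⟩, ⟨0, -1, 0⟩, ⟨0, 0, -1⟩⟩,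
      ⟨⟨-1, 0, 0⟩, ⟨0, 1, 0⟩, ⟨0, 0, -1⟩⟩,
      ⟨⟨-1, 0, 0⟩, ⟨0, -1, 0⟩, ⟨0, 0, 1⟩⟩]),
   ([⟨⟨1, 0, 0⟩, ⟨0, -1, 0⟩, ⟨0, 0, -1⟩⟩,
      ⟨⟨-1, 0, 0⟩, ⟨0, 1, 0⟩, ⟨0, 0, 1⟩⟩],
     [⟨⟨1, 0, 0⟩, ⟨0, 1, 0⟩, ⟨0, 0, 1⟩⟩,
      ⟨⟨1, 0, 0⟩, ⟨0, -1, 0⟩, ⟨0, 0, -1⟩⟩,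
      ⟨⟨-1, 0, 0⟩, ⟨0, 1, 0⟩, ⟨0, 0, 1⟩⟩,
      ⟨⟨-1, 0, 0⟩, ⟨0, -1, 0⟩, ⟨0, 0, -1⟩⟩]),
   ([⟨⟨1, 0, 0⟩, ⟨0, -1, 0⟩, ⟨0, 0, 1⟩⟩,
      ⟨⟨-1, 0, 0⟩, ⟨0, 1, 0⟩, ⟨0, 0, 1⟩⟩],
     [⟨⟨1, 0, 0⟩, ⟨0, 1, 0⟩, ⟨0, 0, 1⟩⟩,
      ⟨⟨1, 0, 0⟩, ⟨0, -1, 0⟩, ⟨0, 0, 1⟩⟩,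
      ⟨⟨-1, 0, 0⟩, ⟨0, 1, 0⟩, ⟨0, 0, 1⟩⟩,
      ⟨⟨-1, 0, 0⟩, ⟨0, -1, 0⟩, ⟨0, 0, 1⟩⟩]),
   ([⟨⟨1, 0, 0⟩, ⟨0, -1, 0⟩, ⟨0, 0, 1⟩⟩,
      ⟨⟨0, 0, -1⟩, ⟨0, 1, 0⟩, ⟨-1, 0, 0⟩⟩],
     [⟨⟨1, 0, 0⟩, ⟨0, 1, 0⟩, ⟨0, 0, 1⟩⟩,
      ⟨⟨1, 0, 0⟩, ⟨0, -1, 0⟩, ⟨0, 0, 1⟩⟩,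
      ⟨⟨0, 0, -1⟩, ⟨0, 1, 0⟩, ⟨-1, 0, 0⟩⟩,
      ⟨⟨0, 0, -1⟩, ⟨0, -1, 0⟩, ⟨-1, 0, 0⟩⟩]),
   ([⟨⟨0, 0, 1⟩, ⟨-1, 0, 0⟩, ⟨0, 1, 0⟩⟩],
     [⟨⟨1, 0, 0⟩, ⟨0, 1, 0⟩, ⟨0, 0, 1⟩⟩,
      ⟨⟨0, 0, 1⟩, ⟨-1, 0, 0⟩, ⟨0, 1, 0⟩⟩,
      ⟨⟨0, 1, 0⟩, ⟨0, 0, -1⟩, ⟨-1, 0, 0⟩⟩,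
      ⟨⟨-1, 0, 0⟩, ⟨0, -1, 0⟩, ⟨0, 0, -1⟩⟩,
      ⟨⟨0, 0, -1⟩, ⟨1, 0, 0⟩, ⟨0, -1, 0⟩⟩,
      ⟨⟨0, -1, 0⟩, ⟨0, 0, 1⟩, ⟨1, 0, 0⟩⟩]),
   ([⟨⟨0, 0, 1⟩, ⟨0, -1, 0⟩, ⟨1, 0, 0⟩⟩,
      ⟨⟨0, -1, 0⟩, ⟨-1, 0, 0⟩, ⟨0, 0, -1⟩⟩],
     [⟨⟨1, 0, 0⟩, ⟨0, 1, 0⟩, ⟨0, 0, 1⟩⟩,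
      ⟨⟨0, 0, 1⟩, ⟨0, -1, 0⟩, ⟨1, 0, 0⟩⟩,
      ⟨⟨0, -1, 0⟩, ⟨-1, 0, 0⟩, ⟨0, 0, -1⟩⟩,
      ⟨⟨0, 1, 0⟩, ⟨0, 0, -1⟩, ⟨-1, 0, 0⟩⟩,
      ⟨⟨0, 0, -1⟩, ⟨1, 0, 0⟩, ⟨0, -1, 0⟩⟩,
      ⟨⟨-1, 0, 0⟩, ⟨0, 0, 1⟩, ⟨0, 1, 0⟩⟩]),
   ([⟨⟨1, 0, 0⟩, ⟨0, 0, -1⟩, ⟨0, -1, 0⟩⟩,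
      ⟨⟨0, 0, 1⟩, ⟨0, 1, 0⟩, ⟨1, 0, 0⟩⟩],
     [⟨⟨1, 0, 0⟩, ⟨0, 1, 0⟩, ⟨0, 0, 1⟩⟩,
      ⟨⟨1, 0, 0⟩, ⟨0, 0, -1⟩, ⟨0, -1, 0⟩⟩,
      ⟨⟨0, 0, 1⟩, ⟨0, 1, 0⟩, ⟨1, 0, 0⟩⟩,
      ⟨⟨0, -1, 0⟩, ⟨0, 0, -1⟩, ⟨1, 0, 0⟩⟩,
      ⟨⟨0, 0, 1⟩, ⟨-1, 0, 0⟩, ⟨0, -1, 0⟩⟩,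
      ⟨⟨0, -1, 0⟩, ⟨-1, 0, 0⟩, ⟨0, 0, 1⟩⟩]),
   ([⟨⟨1, 0, 0⟩, ⟨0, -1, 0⟩, ⟨0, 0, -1⟩⟩,
      ⟨⟨0, 0, 1⟩, ⟨0, -1, 0⟩, ⟨1, 0, 0⟩⟩],
     [⟨⟨1, 0, 0⟩, ⟨0, 1, 0⟩, ⟨0, 0, 1⟩⟩,
      ⟨⟨1, 0, 0⟩, ⟨0, -1, 0⟩, ⟨0, 0, -1⟩⟩,
      ⟨⟨0, 0, 1⟩, ⟨0, -1, 0⟩, ⟨1, 0, 0⟩⟩,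
      ⟨⟨0, 0, -1⟩, ⟨0, 1, 0⟩, ⟨1, 0, 0⟩⟩,
      ⟨⟨0, 0, 1⟩, ⟨0, 1, 0⟩, ⟨-1, 0, 0⟩⟩,
      ⟨⟨0, 0, -1⟩, ⟨0, -1, 0⟩, ⟨-1, 0, 0⟩⟩,
      ⟨⟨-1, 0, 0⟩, ⟨0, -1, 0⟩, ⟨0, 0, 1⟩⟩,
      ⟨⟨-1, 0, 0⟩, ⟨0, 1, 0⟩, ⟨0, 0, -1⟩⟩]),
   ([⟨⟨1, 0, 0⟩, ⟨0, -1, 0⟩, ⟨0, 0, -1⟩⟩,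
      ⟨⟨0, 0, 1⟩, ⟨0, 1, 0⟩, ⟨1, 0, 0⟩⟩],
     [⟨⟨1, 0, 0⟩, ⟨0, 1, 0⟩, ⟨0, 0, 1⟩⟩,
      ⟨⟨1, 0, 0⟩, ⟨0, -1, 0⟩, ⟨0, 0, -1⟩⟩,
      ⟨⟨0, 0, 1⟩, ⟨0, 1, 0⟩, ⟨1, 0, 0⟩⟩,
      ⟨⟨0, 0, -1⟩, ⟨0, -1, 0⟩, ⟨1, 0, 0⟩⟩,
      ⟨⟨0, 0, 1⟩, ⟨0, -1, 0⟩, ⟨-1, 0, 0⟩⟩,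
      ⟨⟨0, 0, -1⟩, ⟨0, 1, 0⟩, ⟨-1, 0, 0⟩⟩,
      ⟨⟨-1, 0, 0⟩, ⟨0, -1, 0⟩, ⟨0, 0, 1⟩⟩,
      ⟨⟨-1, 0, 0⟩, ⟨0, 1, 0⟩, ⟨0, 0, -1⟩⟩]),
   ([⟨⟨1, 0, 0⟩, ⟨0, -1, 0⟩, ⟨0, 0, 1⟩⟩,
      ⟨⟨0, 1, 0⟩, ⟨1, 0, 0⟩, ⟨0, 0, -1⟩⟩],
     [⟨⟨1, 0, 0⟩, ⟨0, 1, 0⟩, ⟨0, 0, 1⟩⟩,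
      ⟨⟨1, 0, 0⟩, ⟨0, -1, 0⟩, ⟨0, 0, 1⟩⟩,
      ⟨⟨0, 1, 0⟩, ⟨1, 0, 0⟩, ⟨0, 0, -1⟩⟩,
      ⟨⟨0, -1, 0⟩, ⟨1, 0, 0⟩, ⟨0, 0, -1⟩⟩,
      ⟨⟨0, 1, 0⟩, ⟨-1, 0, 0⟩, ⟨0, 0, -1⟩⟩,
      ⟨⟨0, -1, 0⟩, ⟨-1, 0, 0⟩, ⟨0, 0, -1⟩⟩,
      ⟨⟨-1, 0, 0⟩, ⟨0, 1, 0⟩, ⟨0, 0, 1⟩⟩,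
      ⟨⟨-1, 0, 0⟩, ⟨0, -1, 0⟩, ⟨0, 0, 1⟩⟩]),
   ([⟨⟨1, 0, 0⟩, ⟨0, -1, 0⟩, ⟨0, 0, 1⟩⟩,
      ⟨⟨0, 1, 0⟩, ⟨1, 0, 0⟩, ⟨0, 0, 1⟩⟩],
     [⟨⟨1, 0, 0⟩, ⟨0, 1, 0⟩, ⟨0, 0, 1⟩⟩,
      ⟨⟨1, 0, 0⟩, ⟨0, -1, 0⟩, ⟨0, 0, 1⟩⟩,
      ⟨⟨0, 1, 0⟩, ⟨1, 0, 0⟩, ⟨0, 0, 1⟩⟩,
      ⟨⟨0, -1, 0⟩, ⟨1, 0, 0⟩, ⟨0, 0, 1⟩⟩,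
      ⟨⟨0, 1, 0⟩, ⟨-1, 0, 0⟩, ⟨0, 0, 1⟩⟩,
      ⟨⟨0, -1, 0⟩, ⟨-1, 0, 0⟩, ⟨0, 0, 1⟩⟩,
      ⟨⟨-1, 0, 0⟩, ⟨0, 1, 0⟩, ⟨0, 0, 1⟩⟩,
      ⟨⟨-1, 0, 0⟩, ⟨0, -1, 0⟩, ⟨0, 0, 1⟩⟩]),
   ([⟨⟨1, 0, 0⟩, ⟨0, 0, -1⟩, ⟨0, -1, 0⟩⟩,
      ⟨⟨0, 1, 0⟩, ⟨1, 0, 0⟩, ⟨0, 0, -1⟩⟩],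
     [⟨⟨1, 0, 0⟩, ⟨0, 1, 0⟩, ⟨0, 0, 1⟩⟩,
      ⟨⟨1, 0, 0⟩, ⟨0, 0, -1⟩, ⟨0, -1, 0⟩⟩,
      ⟨⟨0, 1, 0⟩, ⟨1, 0, 0⟩, ⟨0, 0, -1⟩⟩,
      ⟨⟨0, 0, -1⟩, ⟨1, 0, 0⟩, ⟨0, 1, 0⟩⟩,
      ⟨⟨0, 1, 0⟩, ⟨0, 0, 1⟩, ⟨-1, 0, 0⟩⟩,
      ⟨⟨0, 0, -1⟩, ⟨0, -1, 0⟩, ⟨-1, 0, 0⟩⟩,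
      ⟨⟨0, 0, 1⟩, ⟨0, 1, 0⟩, ⟨1, 0, 0⟩⟩,
      ⟨⟨0, -1, 0⟩, ⟨0, 0, -1⟩, ⟨1, 0, 0⟩⟩,
      ⟨⟨0, 0, 1⟩, ⟨-1, 0, 0⟩, ⟨0, -1, 0⟩⟩,
      ⟨⟨0, -1, 0⟩, ⟨-1, 0, 0⟩, ⟨0, 0, 1⟩⟩,
      ⟨⟨-1, 0, 0⟩, ⟨0, 0, 1⟩, ⟨0, 1, 0⟩⟩,
      ⟨⟨-1, 0, 0⟩, ⟨0, -1, 0⟩, ⟨0, 0, -1⟩⟩]),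
   ([⟨⟨-1, 0, 0⟩, ⟨0, -1, 0⟩, ⟨0, 0, -1⟩⟩],
     [⟨⟨1, 0, 0⟩, ⟨0, 1, 0⟩, ⟨0, 0, 1⟩⟩,
      ⟨⟨-1, 0, 0⟩, ⟨0, -1, 0⟩, ⟨0, 0, -1⟩⟩]),
   ([⟨⟨-1, 0, 0⟩, ⟨0, 1, 0⟩, ⟨0, 0, -1⟩⟩],
     [⟨⟨1, 0, 0⟩, ⟨0, 1, 0⟩, ⟨0, 0, 1⟩⟩,
      ⟨⟨-1, 0, 0⟩, ⟨0, 1, 0⟩, ⟨0, 0, -1⟩⟩]),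
   ([⟨⟨1, 0, 0⟩, ⟨0, 1, 0⟩, ⟨0, 0, -1⟩⟩],
     [⟨⟨1, 0, 0⟩, ⟨0, 1, 0⟩, ⟨0, 0, 1⟩⟩,
      ⟨⟨1, 0, 0⟩, ⟨0, 1, 0⟩, ⟨0, 0, -1⟩⟩]),
   ([⟨⟨0, 1, 0⟩, ⟨-1, 0, 0⟩, ⟨0, 0, -1⟩⟩],
     [⟨⟨1, 0, 0⟩, ⟨0, 1, 0⟩, ⟨0, 0, 1⟩⟩,
      ⟨⟨0, 1, 0⟩, ⟨-1, 0, 0⟩, ⟨0, 0, -1⟩⟩,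
      ⟨⟨-1, 0, 0⟩, ⟨0, -1, 0⟩, ⟨0, 0, 1⟩⟩,
      ⟨⟨0, -1, 0⟩, ⟨1, 0, 0⟩, ⟨0, 0, -1⟩⟩]),
   ([⟨⟨0, 1, 0⟩, ⟨-1, 0, 0⟩, ⟨0, 0, 1⟩⟩],
     [⟨⟨1, 0, 0⟩, ⟨0, 1, 0⟩, ⟨0, 0, 1⟩⟩,
      ⟨⟨0, 1, 0⟩, ⟨-1, 0, 0⟩, ⟨0, 0, 1⟩⟩,
      ⟨⟨-1, 0, 0⟩, ⟨0, -1, 0⟩, ⟨0, 0, 1⟩⟩,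
      ⟨⟨0, -1, 0⟩, ⟨1, 0, 0⟩, ⟨0, 0, 1⟩⟩]),
   ([⟨⟨0, 1, 0⟩, ⟨1, 0, 0⟩, ⟨0, 0, -1⟩⟩,
      ⟨⟨0, -1, 0⟩, ⟨-1, 0, 0⟩, ⟨0, 0, -1⟩⟩],
     [⟨⟨1, 0, 0⟩, ⟨0, 1, 0⟩, ⟨0, 0, 1⟩⟩,
      ⟨⟨0, 1, 0⟩, ⟨1, 0, 0⟩, ⟨0, 0, -1⟩⟩,
      ⟨⟨0, -1, 0⟩, ⟨-1, 0, 0⟩, ⟨0, 0, -1⟩⟩,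
      ⟨⟨-1, 0, 0⟩, ⟨0, -1, 0⟩, ⟨0, 0, 1⟩⟩]),
   ([⟨⟨0, 1, 0⟩, ⟨1, 0, 0⟩, ⟨0, 0, -1⟩⟩,
      ⟨⟨0, -1, 0⟩, ⟨-1, 0, 0⟩, ⟨0, 0, 1⟩⟩],
     [⟨⟨1, 0, 0⟩, ⟨0, 1, 0⟩, ⟨0, 0, 1⟩⟩,
      ⟨⟨0, 1, 0⟩, ⟨1, 0, 0⟩, ⟨0, 0, -1⟩⟩,
      ⟨⟨0, -1, 0⟩, ⟨-1, 0, 0⟩, ⟨0, 0, 1⟩⟩,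
      ⟨⟨-1, 0, 0⟩, ⟨0, -1, 0⟩, ⟨0, 0, -1⟩⟩]),
   ([⟨⟨0, 1, 0⟩, ⟨1, 0, 0⟩, ⟨0, 0, 1⟩⟩,
      ⟨⟨0, -1, 0⟩, ⟨-1, 0, 0⟩, ⟨0, 0, 1⟩⟩],
     [⟨⟨1, 0, 0⟩, ⟨0, 1, 0⟩, ⟨0, 0, 1⟩⟩,
      ⟨⟨0, 1, 0⟩, ⟨1, 0, 0⟩, ⟨0, 0, 1⟩⟩,
      ⟨⟨0, -1, 0⟩, ⟨-1, 0, 0⟩, ⟨0, 0, 1⟩⟩,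
      ⟨⟨-1, 0, 0⟩, ⟨0, -1, 0⟩, ⟨0, 0, 1⟩⟩]),
   ([⟨⟨1, 0, 0⟩, ⟨0, 1, 0⟩, ⟨0, 0, -1⟩⟩,
      ⟨⟨-1, 0, 0⟩, ⟨0, -1, 0⟩, ⟨0, 0, 1⟩⟩],
     [⟨⟨1, 0, 0⟩, ⟨0, 1, 0⟩, ⟨0, 0, 1⟩⟩,
      ⟨⟨1, 0, 0⟩, ⟨0, 1, 0⟩, ⟨0, 0, -1⟩⟩,
      ⟨⟨-1, 0, 0⟩, ⟨0, -1, 0⟩, ⟨0, 0, 1⟩⟩,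
      ⟨⟨-1, 0, 0⟩, ⟨0, -1, 0⟩, ⟨0, 0, -1⟩⟩]),
   ([⟨⟨1, 0, 0⟩, ⟨0, 1, 0⟩, ⟨0, 0, -1⟩⟩,
      ⟨⟨-1, 0, 0⟩, ⟨0, 1, 0⟩, ⟨0, 0, 1⟩⟩],
     [⟨⟨1, 0, 0⟩, ⟨0, 1, 0⟩, ⟨0, 0, 1⟩⟩,
      ⟨⟨1, 0, 0⟩, ⟨0, 1, 0⟩, ⟨0, 0, -1⟩⟩,
      ⟨⟨-1, 0, 0⟩, ⟨0, 1, 0⟩, ⟨0, 0, 1⟩⟩,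
      ⟨⟨-1, 0, 0⟩, ⟨0, 1, 0⟩, ⟨0, 0, -1⟩⟩]),
   ([⟨⟨1, 0, 0⟩, ⟨0, -1, 0⟩, ⟨0, 0, -1⟩⟩,
      ⟨⟨0, 1, 0⟩, ⟨1, 0, 0⟩, ⟨0, 0, -1⟩⟩],
     [⟨⟨1, 0, 0⟩, ⟨0, 1, 0⟩, ⟨0, 0, 1⟩⟩,
      ⟨⟨1, 0, 0⟩, ⟨0, -1, 0⟩, ⟨0, 0, -1⟩⟩,
      ⟨⟨0, 1, 0⟩, ⟨1, 0, 0⟩, ⟨0, 0, -1⟩⟩,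
      ⟨⟨0, -1, 0⟩, ⟨1, 0, 0⟩, ⟨0, 0, 1⟩⟩,
      ⟨⟨0, 1, 0⟩, ⟨-1, 0, 0⟩, ⟨0, 0, 1⟩⟩,
      ⟨⟨0, -1, 0⟩, ⟨-1, 0, 0⟩, ⟨0, 0, -1⟩⟩,
      ⟨⟨-1, 0, 0⟩, ⟨0, 1, 0⟩, ⟨0, 0, -1⟩⟩,
      ⟨⟨-1, 0, 0⟩, ⟨0, -1, 0⟩, ⟨0, 0, 1⟩⟩]),
   ([⟨⟨1, 0, 0⟩, ⟨0, -1, 0⟩, ⟨0, 0, -1⟩⟩,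
      ⟨⟨0, 1, 0⟩, ⟨1, 0, 0⟩, ⟨0, 0, 1⟩⟩],
     [⟨⟨1, 0, 0⟩, ⟨0, 1, 0⟩, ⟨0, 0, 1⟩⟩,
      ⟨⟨1, 0, 0⟩, ⟨0, -1, 0⟩, ⟨0, 0, -1⟩⟩,
      ⟨⟨0, 1, 0⟩, ⟨1, 0, 0⟩, ⟨0, 0, 1⟩⟩,
      ⟨⟨0, -1, 0⟩, ⟨1, 0, 0⟩, ⟨0, 0, -1⟩⟩,
      ⟨⟨0, 1, 0⟩, ⟨-1, 0, 0⟩, ⟨0, 0, -1⟩⟩,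
      ⟨⟨0, -1, 0⟩, ⟨-1, 0, 0⟩, ⟨0, 0, 1⟩⟩,
      ⟨⟨-1, 0, 0⟩, ⟨0, 1, 0⟩, ⟨0, 0, -1⟩⟩,
      ⟨⟨-1, 0, 0⟩, ⟨0, -1, 0⟩, ⟨0, 0, 1⟩⟩]),
   ([⟨⟨-1, 0, 0⟩, ⟨-1, 1, 0⟩, ⟨0, 0, -1⟩⟩],
     [⟨⟨1, 0, 0⟩, ⟨0, 1, 0⟩, ⟨0, 0, 1⟩⟩,
      ⟨⟨-1, 0, 0⟩, ⟨-1, 1, 0⟩, ⟨0, 0, -1⟩⟩]),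
   ([⟨⟨-1, 0, 0⟩, ⟨-1, 1, 0⟩, ⟨0, 0, 1⟩⟩],
     [⟨⟨1, 0, 0⟩, ⟨0, 1, 0⟩, ⟨0, 0, 1⟩⟩,
      ⟨⟨-1, 0, 0⟩, ⟨-1, 1, 0⟩, ⟨0, 0, 1⟩⟩]),
   ([⟨⟨0, -1, 0⟩, ⟨1, -1, 0⟩, ⟨0, 0, 1⟩⟩],
     [⟨⟨1, 0, 0⟩, ⟨0, 1, 0⟩, ⟨0, 0, 1⟩⟩,
      ⟨⟨0, -1, 0⟩, ⟨1, -1, 0⟩, ⟨0, 0, 1⟩⟩,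
      ⟨⟨-1, 1, 0⟩, ⟨-1, 0, 0⟩, ⟨0, 0, 1⟩⟩]),
   ([⟨⟨1, 0, 0⟩, ⟨0, 1, 0⟩, ⟨0, 0, -1⟩⟩,
      ⟨⟨-1, 0, 0⟩, ⟨-1, 1, 0⟩, ⟨0, 0, 1⟩⟩],
     [⟨⟨1, 0, 0⟩, ⟨0, 1, 0⟩, ⟨0, 0, 1⟩⟩,
      ⟨⟨1, 0, 0⟩, ⟨0, 1, 0⟩, ⟨0, 0, -1⟩⟩,
      ⟨⟨-1, 0, 0⟩, ⟨-1, 1, 0⟩, ⟨0, 0, 1⟩⟩,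
      ⟨⟨-1, 0, 0⟩, ⟨-1, 1, 0⟩, ⟨0, 0, -1⟩⟩]),
   ([⟨⟨1, -1, 0⟩, ⟨0, -1, 0⟩, ⟨0, 0, -1⟩⟩,
      ⟨⟨0, 1, 0⟩, ⟨1, 0, 0⟩, ⟨0, 0, -1⟩⟩],
     [⟨⟨1, 0, 0⟩, ⟨0, 1, 0⟩, ⟨0, 0, 1⟩⟩,
      ⟨⟨1, -1, 0⟩, ⟨0, -1, 0⟩, ⟨0, 0, -1⟩⟩,
      ⟨⟨0, 1, 0⟩, ⟨1, 0, 0⟩, ⟨0, 0, -1⟩⟩,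
      ⟨⟨0, -1, 0⟩, ⟨1, -1, 0⟩, ⟨0, 0, 1⟩⟩,
      ⟨⟨-1, 1, 0⟩, ⟨-1, 0, 0⟩, ⟨0, 0, 1⟩⟩,
      ⟨⟨-1, 0, 0⟩, ⟨-1, 1, 0⟩, ⟨0, 0, -1⟩⟩]),
   ([⟨⟨1, -1, 0⟩, ⟨0, -1, 0⟩, ⟨0, 0, 1⟩⟩,
      ⟨⟨0, 1, 0⟩, ⟨1, 0, 0⟩, ⟨0, 0, 1⟩⟩],
     [⟨⟨1, 0, 0⟩, ⟨0, 1, 0⟩, ⟨0, 0, 1⟩⟩,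
      ⟨⟨1, -1, 0⟩, ⟨0, -1, 0⟩, ⟨0, 0, 1⟩⟩,
      ⟨⟨0, 1, 0⟩, ⟨1, 0, 0⟩, ⟨0, 0, 1⟩⟩,
      ⟨⟨0, -1, 0⟩, ⟨1, -1, 0⟩, ⟨0, 0, 1⟩⟩,
      ⟨⟨-1, 1, 0⟩, ⟨-1, 0, 0⟩, ⟨0, 0, 1⟩⟩,
      ⟨⟨-1, 0, 0⟩, ⟨-1, 1, 0⟩, ⟨0, 0, 1⟩⟩]),
   ([⟨⟨1, -1, 0⟩, ⟨1, 0, 0⟩, ⟨0, 0, -1⟩⟩],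
     [⟨⟨1, 0, 0⟩, ⟨0, 1, 0⟩, ⟨0, 0, 1⟩⟩,
      ⟨⟨1, -1, 0⟩, ⟨1, 0, 0⟩, ⟨0, 0, -1⟩⟩,
      ⟨⟨0, -1, 0⟩, ⟨1, -1, 0⟩, ⟨0, 0, 1⟩⟩,
      ⟨⟨-1, 0, 0⟩, ⟨0, -1, 0⟩, ⟨0, 0, -1⟩⟩,
      ⟨⟨-1, 1, 0⟩, ⟨-1, 0, 0⟩, ⟨0, 0, 1⟩⟩,
      ⟨⟨0, 1, 0⟩, ⟨-1, 1, 0⟩, ⟨0, 0, -1⟩⟩]),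
   ([⟨⟨1, -1, 0⟩, ⟨1, 0, 0⟩, ⟨0, 0, 1⟩⟩],
     [⟨⟨1, 0, 0⟩, ⟨0, 1, 0⟩, ⟨0, 0, 1⟩⟩,
      ⟨⟨1, -1, 0⟩, ⟨1, 0, 0⟩, ⟨0, 0, 1⟩⟩,
      ⟨⟨0, -1, 0⟩, ⟨1, -1, 0⟩, ⟨0, 0, 1⟩⟩,
      ⟨⟨-1, 0, 0⟩, ⟨0, -1, 0⟩, ⟨0, 0, 1⟩⟩,
      ⟨⟨-1, 1, 0⟩, ⟨-1, 0, 0⟩, ⟨0, 0, 1⟩⟩,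
      ⟨⟨0, 1, 0⟩, ⟨-1, 1, 0⟩, ⟨0, 0, 1⟩⟩]),
   ([⟨⟨0, -1, 0⟩, ⟨1, -1, 0⟩, ⟨0, 0, -1⟩⟩],
     [⟨⟨1, 0, 0⟩, ⟨0, 1, 0⟩, ⟨0, 0, 1⟩⟩,
      ⟨⟨0, -1, 0⟩, ⟨1, -1, 0⟩, ⟨0, 0, -1⟩⟩,
      ⟨⟨-1, 1, 0⟩, ⟨-1, 0, 0⟩, ⟨0, 0, 1⟩⟩,
      ⟨⟨1, 0, 0⟩, ⟨0, 1, 0⟩, ⟨0, 0, -1⟩⟩,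
      ⟨⟨0, -1, 0⟩, ⟨1, -1, 0⟩, ⟨0, 0, 1⟩⟩,
      ⟨⟨-1, 1, 0⟩, ⟨-1, 0, 0⟩, ⟨0, 0, -1⟩⟩]),
   ([⟨⟨1, -1, 0⟩, ⟨0, -1, 0⟩, ⟨0, 0, 1⟩⟩,
      ⟨⟨0, 1, 0⟩, ⟨1, 0, 0⟩, ⟨0, 0, -1⟩⟩],
     [⟨⟨1, 0, 0⟩, ⟨0, 1, 0⟩, ⟨0, 0, 1⟩⟩,
      ⟨⟨1, -1, 0⟩, ⟨0, -1, 0⟩, ⟨0, 0, 1⟩⟩,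
      ⟨⟨0, 1, 0⟩, ⟨1, 0, 0⟩, ⟨0, 0, -1⟩⟩,
      ⟨⟨0, -1, 0⟩, ⟨1, -1, 0⟩, ⟨0, 0, -1⟩⟩,
      ⟨⟨-1, 1, 0⟩, ⟨-1, 0, 0⟩, ⟨0, 0, -1⟩⟩,
      ⟨⟨-1, 0, 0⟩, ⟨-1, 1, 0⟩, ⟨0, 0, -1⟩⟩,
      ⟨⟨-1, 0, 0⟩, ⟨-1, 1, 0⟩, ⟨0, 0, 1⟩⟩,
      ⟨⟨-1, 1, 0⟩, ⟨-1, 0, 0⟩, ⟨0, 0, 1⟩⟩,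
      ⟨⟨0, -1, 0⟩, ⟨1, -1, 0⟩, ⟨0, 0, 1⟩⟩,
      ⟨⟨0, 1, 0⟩, ⟨1, 0, 0⟩, ⟨0, 0, 1⟩⟩,
      ⟨⟨1, -1, 0⟩, ⟨0, -1, 0⟩, ⟨0, 0, -1⟩⟩,
      ⟨⟨1, 0, 0⟩, ⟨0, 1, 0⟩, ⟨0, 0, -1⟩⟩]),
   ([⟨⟨1, 0, 0⟩, ⟨1, -1, 0⟩, ⟨0, 0, -1⟩⟩,
      ⟨⟨1, -1, 0⟩, ⟨0, -1, 0⟩, ⟨0, 0, 1⟩⟩],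
     [⟨⟨1, 0, 0⟩, ⟨0, 1, 0⟩, ⟨0, 0, 1⟩⟩,
      ⟨⟨1, 0, 0⟩, ⟨1, -1, 0⟩, ⟨0, 0, -1⟩⟩,
      ⟨⟨1, -1, 0⟩, ⟨0, -1, 0⟩, ⟨0, 0, 1⟩⟩,
      ⟨⟨0, 1, 0⟩, ⟨-1, 1, 0⟩, ⟨0, 0, -1⟩⟩,
      ⟨⟨1, -1, 0⟩, ⟨1, 0, 0⟩, ⟨0, 0, -1⟩⟩,
      ⟨⟨0, 1, 0⟩, ⟨1, 0, 0⟩, ⟨0, 0, 1⟩⟩,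
      ⟨⟨0, -1, 0⟩, ⟨-1, 0, 0⟩, ⟨0, 0, -1⟩⟩,
      ⟨⟨-1, 1, 0⟩, ⟨-1, 0, 0⟩, ⟨0, 0, 1⟩⟩,
      ⟨⟨0, -1, 0⟩, ⟨1, -1, 0⟩, ⟨0, 0, 1⟩⟩,
      ⟨⟨-1, 1, 0⟩, ⟨0, 1, 0⟩, ⟨0, 0, -1⟩⟩,
      ⟨⟨-1, 0, 0⟩, ⟨-1, 1, 0⟩, ⟨0, 0, 1⟩⟩,
      ⟨⟨-1, 0, 0⟩, ⟨0, -1, 0⟩, ⟨0, 0, -1⟩⟩]),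
   ([⟨⟨1, 0, 0⟩, ⟨1, -1, 0⟩, ⟨0, 0, -1⟩⟩,
      ⟨⟨1, -1, 0⟩, ⟨0, -1, 0⟩, ⟨0, 0, -1⟩⟩],
     [⟨⟨1, 0, 0⟩, ⟨0, 1, 0⟩, ⟨0, 0, 1⟩⟩,
      ⟨⟨1, 0, 0⟩, ⟨1, -1, 0⟩, ⟨0, 0, -1⟩⟩,
      ⟨⟨1, -1, 0⟩, ⟨0, -1, 0⟩, ⟨0, 0, -1⟩⟩,
      ⟨⟨0, 1, 0⟩, ⟨-1, 1, 0⟩, ⟨0, 0, 1⟩⟩,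
      ⟨⟨1, -1, 0⟩, ⟨1, 0, 0⟩, ⟨0, 0, 1⟩⟩,
      ⟨⟨0, 1, 0⟩, ⟨1, 0, 0⟩, ⟨0, 0, -1⟩⟩,
      ⟨⟨0, -1, 0⟩, ⟨-1, 0, 0⟩, ⟨0, 0, -1⟩⟩,
      ⟨⟨-1, 1, 0⟩, ⟨-1, 0, 0⟩, ⟨0, 0, 1⟩⟩,
      ⟨⟨0, -1, 0⟩, ⟨1, -1, 0⟩, ⟨0, 0, 1⟩⟩,
      ⟨⟨-1, 1, 0⟩, ⟨0, 1, 0⟩, ⟨0, 0, -1⟩⟩,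
      ⟨⟨-1, 0, 0⟩, ⟨-1, 1, 0⟩, ⟨0, 0, -1⟩⟩,
      ⟨⟨-1, 0, 0⟩, ⟨0, -1, 0⟩, ⟨0, 0, 1⟩⟩]),
   ([⟨⟨1, 0, 0⟩, ⟨1, -1, 0⟩, ⟨0, 0, 1⟩⟩,
      ⟨⟨1, -1, 0⟩, ⟨0, -1, 0⟩, ⟨0, 0, 1⟩⟩],
     [⟨⟨1, 0, 0⟩, ⟨0, 1, 0⟩, ⟨0, 0, 1⟩⟩,
      ⟨⟨1, 0, 0⟩, ⟨1, -1, 0⟩, ⟨0, 0, 1⟩⟩,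
      ⟨⟨1, -1, 0⟩, ⟨0, -1, 0⟩, ⟨0, 0, 1⟩⟩,
      ⟨⟨0, 1, 0⟩, ⟨-1, 1, 0⟩, ⟨0, 0, 1⟩⟩,
      ⟨⟨1, -1, 0⟩, ⟨1, 0, 0⟩, ⟨0, 0, 1⟩⟩,
      ⟨⟨0, 1, 0⟩, ⟨1, 0, 0⟩, ⟨0, 0, 1⟩⟩,
      ⟨⟨0, -1, 0⟩, ⟨-1, 0, 0⟩, ⟨0, 0, 1⟩⟩,
      ⟨⟨-1, 1, 0⟩, ⟨-1, 0, 0⟩, ⟨0, 0, 1⟩⟩,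
      ⟨⟨0, -1, 0⟩, ⟨1, -1, 0⟩, ⟨0, 0, 1⟩⟩,
      ⟨⟨-1, 1, 0⟩, ⟨0, 1, 0⟩, ⟨0, 0, 1⟩⟩,
      ⟨⟨-1, 0, 0⟩, ⟨-1, 1, 0⟩, ⟨0, 0, 1⟩⟩,
      ⟨⟨-1, 0, 0⟩, ⟨0, -1, 0⟩, ⟨0, 0, 1⟩⟩]),
   ([⟨⟨1, 0, 0⟩, ⟨0, -1, 0⟩, ⟨0, 0, 1⟩⟩,
      ⟨⟨1, 0, 0⟩, ⟨0, 1, 0⟩, ⟨0, 0, -1⟩⟩],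
     [⟨⟨1, 0, 0⟩, ⟨0, 1, 0⟩, ⟨0, 0, 1⟩⟩,
      ⟨⟨1, 0, 0⟩, ⟨0, -1, 0⟩, ⟨0, 0, 1⟩⟩,
      ⟨⟨1, 0, 0⟩, ⟨0, 1, 0⟩, ⟨0, 0, -1⟩⟩,
      ⟨⟨1, 0, 0⟩, ⟨0, -1, 0⟩, ⟨0, 0, -1⟩⟩]),
   ([⟨⟨1, 0, 0⟩, ⟨0, -1, 0⟩, ⟨0, 0, 1⟩⟩],
     [⟨⟨1, 0, 0⟩, ⟨0, 1, 0⟩, ⟨0, 0, 1⟩⟩,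
      ⟨⟨1, 0, 0⟩, ⟨0, -1, 0⟩, ⟨0, 0, 1⟩⟩]),
   ([⟨⟨1, 0, 0⟩, ⟨0, -1, 0⟩, ⟨0, 0, -1⟩⟩],
     [⟨⟨1, 0, 0⟩, ⟨0, 1, 0⟩, ⟨0, 0, 1⟩⟩,
      ⟨⟨1, 0, 0⟩, ⟨0, -1, 0⟩, ⟨0, 0, -1⟩⟩])]

set_option maxRecDepth 100000 in
theorem eltsData_elts : eltsData.all (fun p => decide (elts p.1 = p.2)) = true := by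
  decide +kernel

set_option maxRecDepth 100000 in
theorem eltsData_mul : eltsData.all (fun p => p.1.all fun g => p.2.all fun M =>
    decide (g.mul M ∈ p.2)) = true := by
  decide +kernel

set_option maxRecDepth 100000 in
theorem eltsData_inv : eltsData.all (fun p => p.1.all fun g => p.2.any fun N =>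
    decide (N.mul g = IM.one)) = true := by
  decide +kernel

set_option maxRecDepth 100000 in
theorem eltsData_one : eltsData.all (fun p => decide (IM.one ∈ p.2)) = true := by
  decide +kernel

set_option maxRecDepth 100000 in
theorem eltsData_table : table.all (fun b => eltsData.any fun p => decide (p.1 = b.gens)) = true := by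
  decide +kernel

theorem eltsData_rod (r : Rod) : eltsData.any (fun p => decide (p.1 = r.gens)) = true := by
  cases r <;> decide +kernel

/-- The determinant. -/
def idet (M : IM) : ℤ :=
  M.a.x * (M.b.y * M.c.z - M.b.z * M.c.y) - M.a.y * (M.b.x * M.c.z - M.b.z * M.c.x) +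
    M.a.z * (M.b.x * M.c.y - M.b.y * M.c.x)

set_option maxRecDepth 100000 in
theorem table_S : table.all (fun b => decide (idet b.S ≠ 0)) = true := by
  decide +kernel

end Pool.Agent.H21.FT
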