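import Pool.Agent.H21.FT.Fwd

/-!
# The generators generate the whole group
-/

namespace Pool.Agent.H21.FT

open Pool.Agent.H38.FT (Cfg)
open Pool.Agent.H38.FT.Cfg

variable {X : Type*}

namespace GrpFull

variable {P : Cfg X} {G Γ : Subgroup (Equiv.Perm X)} {β : Base X}

/-- An element maps a base flag to a turned base flag: the second one turns. -/
theorem turn_right {g : Equiv.Perm X} (hg : g ∈ Γ) {i j i' j' : Bool}
    (h : act g (β.fl i j) = swp (β.fl i' j')) : swp (β.fl i' j') ∈ flags Γ β :=
  ⟨g, hg, i, j, h.symm⟩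

/-- An element maps a base flag to a turned base flag: the first one turns. -/
theorem turn_left {g : Equiv.Perm X} (hg : g ∈ Γ) {i j i' j' : Bool}
    (h : act g (β.fl i j) = swp (β.fl i' j')) : swp (β.fl i j) ∈ flags Γ β := by
  refine ⟨g⁻¹, Γ.inv_mem hg, i', j', ?_⟩
  have h1 : β.fl i j = act g⁻¹ (swp (β.fl i' j')) := act_inv_eq h
  rw [h1]
  rfl

/-- An element maps a turned base flag to a base flag. -/
theorem turn_swp {g : Equiv.Perm X} {i j i' j' : Bool}
    (h : act g (swp (β.fl i j)) = β.fl i' j') : act g (β.fl i j) = swp (β.fl i' j') := by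
  rw [← h]
  rfl

/-- The turn is transported by the group. -/
theorem turn_move {g : Equiv.Perm X} (hg : g ∈ Γ) {i j i' j' : Bool}
    (h : act g (β.fl i j) = β.fl i' j') (ht : swp (β.fl i j) ∈ flags Γ β) :
    swp (β.fl i' j') ∈ flags Γ β := by
  obtain ⟨k, hk, a, b, e⟩ := ht
  refine ⟨g * k, Γ.mul_mem hg hk, a, b, ?_⟩
  rw [← h, act_mul, ← e]
  rfl

/-- If the base flags turn, all corners are flags. -/
theorem corners_sub (hP : P.IsPolyhedron) (hG : Acts G P) (hS : Semireg G P)
    (hβ : IsBase P β) (hΓ : Γ ≤ G) (hturn : ∀ i j, swp (β.fl i j) ∈ flags Γ β) :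
    corners P ⊆ flags Γ β := by
  refine corner_induct hP hG hS hβ _ ⟨1, Γ.one_mem, false, false, rfl⟩ ?_ ?_
  · rintro t ⟨g, hg, i, j, rfl⟩
    obtain ⟨g', hg', i', j', h'⟩ := hturn i j
    exact ⟨g * g', Γ.mul_mem hg hg', i', j', by rw [← act_swp_eq, h', act_act]⟩
  · rintro g hg i j i' j' ⟨γ, hγ, a, b, h⟩
    have h2 : act (γ⁻¹ * g) (β.fl i j) = β.fl a b := by
      rw [← act_act, h, act_act, inv_mul_cancel, act_id]
    have h3 := act_base hP hG hS hβ (G.mul_mem (G.inv_mem (hΓ hγ)) hg) h2 i' j'
    refine ⟨γ, hγ, xor i' (xor i a), xor j' (xor j b), ?_⟩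
    rw [← h3, act_act, mul_inv_cancel_left]

/-- The end of the proof, common to all classes. -/
theorem core (hP : P.IsPolyhedron) (hG : Acts G P) (hS : Semireg G P)
    (hβ : IsBase P β) (hΓ : Γ ≤ G) (hturn : ∀ i j, swp (β.fl i j) ∈ flags Γ β)
    (h : ∀ i j, (∃ g ∈ G, act g (β.fl false false) = β.fl i j) →
      ∃ g ∈ Γ, act g (β.fl false false) = β.fl i j) : Γ = G := by
  refine le_antisymm hΓ fun g hg => ?_
  have h0 : β.fl false false ∈ corners P := hβ.corner false false
  obtain ⟨γ, hγ, i, j, e⟩ := corners_sub hP hG hS hβ hΓ hturn (act_corner hG hg h0)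
  have e1 : act (γ⁻¹ * g) (β.fl false false) = β.fl i j := by
    rw [act_mul, e, act_inv_act]
  have hm : γ⁻¹ * g ∈ G := G.mul_mem (G.inv_mem (hΓ hγ)) hg
  obtain ⟨k, hk, e2⟩ := h i j ⟨_, hm, e1⟩
  have e3 : γ⁻¹ * g = k := eq_of_act hP hG hS h0 hm (hΓ hk) (e1.trans e2.symm)
  have e4 : g = γ * k := by rw [← e3, mul_inv_cancel_left]
  rw [e4]
  exact Γ.mul_mem hγ hk

end GrpFull

open GrpFull

theorem grp_eq {P : Cfg X} {G : Subgroup (Equiv.Perm X)} {β : Base X} (hP : P.IsPolyhedron)
    (hG : Acts G P) (hS : Semireg G P) (hβ : IsBase P β) {c : Cls} {A B s : Equiv.Perm X}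
    (hA : A ∈ G) (hB : B ∈ G) (hs : s ∈ G) (hc : Case β c A B s) (hn : NoMore G β c) :
    grp A B s = G := by
  have mA : A ∈ grp A B s := A_mem_grp
  have mB : B ∈ grp A B s := B_mem_grp
  have ms : s ∈ grp A B s := s_mem_grp
  have hle : grp A B s ≤ G := grp_le hA hB hs
  have hid : ∃ g ∈ grp A B s, act g (β.fl false false) = β.fl false false :=
    ⟨1, one_mem _, rfl⟩
  cases c with
  | reg =>
    obtain ⟨es, eA, eB⟩ := hc
    have bs := act_base hP hG hS hβ hs es
    have bB := act_base hP hG hS hβ hB eB
    have t00 := turn_right mA eA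
    have t10 := turn_move ms es t00
    have t01 := turn_move mB eB t00
    have t11 := turn_move ms (by simpa using bs false true) t01
    refine core hP hG hS hβ hle ?_ ?_
    · intro i j
      cases i <;> cases j
      · exact t00
      · exact t01
      · exact t10
      · exact t11
    · intro i j _
      cases i <;> cases j
      · exact hid
      · exact ⟨B, mB, eB⟩
      · exact ⟨s, ms, es⟩
      · exact ⟨s * B, mul_mem ms mB, by rw [act_mul, eB]; simpa using bs false true⟩
  | c2 =>
    obtain ⟨-, es, eA⟩ := hc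
    obtain ⟨n1, n2⟩ := hn
    have bs := act_base hP hG hS hβ hs es
    have t00 := turn_right mA eA
    have t01 := turn_left mA eA
    have t11 := turn_move ms es t00
    have t10 := turn_move ms (by simpa using bs false true) t01
    refine core hP hG hS hβ hle ?_ ?_
    · intro i j
      cases i <;> cases j
      · exact t00
      · exact t01
      · exact t10
      · exact t11
    · rintro i j ⟨g, hg, e⟩
      cases i <;> cases j
      · exact hid
      · exact absurd e (n1 g hg)
      · exact absurd e (n2 g hg)
      · exact ⟨s, ms, es⟩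
  | c20 =>
    obtain ⟨-, es, eA⟩ := hc
    obtain ⟨n1, n2⟩ := hn
    have bs := act_base hP hG hS hβ hs es
    have t00 := turn_right mA eA
    have t01 := turn_left mA eA
    have t10 := turn_move ms es t00
    have t11 := turn_move ms (by simpa using bs false true) t01
    refine core hP hG hS hβ hle ?_ ?_
    · intro i j
      cases i <;> cases j
      · exact t00
      · exact t01
      · exact t10
      · exact t11
    · rintro i j ⟨g, hg, e⟩
      cases i <;> cases j
      · exact hid
      · exact absurd e (n1 g hg)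
      · exact ⟨s, ms, es⟩
      · exact absurd e (n2 g hg)
  | c21 =>
    obtain ⟨es, eA, eB⟩ := hc
    obtain ⟨n1, n2⟩ := hn
    have bs := act_base hP hG hS hβ hs es
    have t00 := turn_right mA eA
    have t01 := turn_right mB eB
    have t11 := turn_move ms es t00
    have t10 := turn_move ms (by simpa using bs false true) t01
    refine core hP hG hS hβ hle ?_ ?_
    · intro i j
      cases i <;> cases j
      · exact t00
      · exact t01
      · exact t10
      · exact t11
    · rintro i j ⟨g, hg, e⟩
      cases i <;> cases j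
      · exact hid
      · exact absurd e (n1 g hg)
      · exact absurd e (n2 g hg)
      · exact ⟨s, ms, es⟩
  | c22 =>
    obtain ⟨-, eA, es'⟩ := hc
    obtain ⟨n1, n2⟩ := hn
    have es := turn_swp es'
    have bA := act_base hP hG hS hβ hA eA
    have t10 := turn_right ms es
    have t00 := turn_left ms es
    have t01 := turn_move mA eA t00
    have t11 := turn_move mA (by simpa using bA true false) t10
    refine core hP hG hS hβ hle ?_ ?_
    · intro i j
      cases i <;> cases j
      · exact t00
      · exact t01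
      · exact t10
      · exact t11
    · rintro i j ⟨g, hg, e⟩
      cases i <;> cases j
      · exact hid
      · exact ⟨A, mA, eA⟩
      · exact absurd e (n1 g hg)
      · exact absurd e (n2 g hg)
  | c4a =>
    obtain ⟨-, es', eA⟩ := hc
    obtain ⟨n1, n2, n3⟩ := hn
    have es := turn_swp es'
    have t11 := turn_right ms es
    have t00 := turn_left ms es
    have t10 := turn_right (mul_mem ms mA) eA
    have t01 := turn_left (mul_mem ms mA) eA
    refine core hP hG hS hβ hle ?_ ?_
    · intro i j
      cases i <;> cases j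
      · exact t00
      · exact t01
      · exact t10
      · exact t11
    · rintro i j ⟨g, hg, e⟩
      cases i <;> cases j
      · exact hid
      · exact absurd e (n1 g hg)
      · exact absurd e (n2 g hg)
      · exact absurd e (n3 g hg)
  | c4b =>
    obtain ⟨eA, es, eB⟩ := hc
    obtain ⟨n1, n2, n3⟩ := hn
    have t00 := turn_right mA eA
    have t10 := turn_right ms es
    have t01 := turn_left ms es
    have t11 := turn_right (mul_mem (mul_mem ms mB) (inv_mem ms)) eB
    refine core hP hG hS hβ hle ?_ ?_
    · intro i j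
      cases i <;> cases j
      · exact t00
      · exact t01
      · exact t10
      · exact t11
    · rintro i j ⟨g, hg, e⟩
      cases i <;> cases j
      · exact hid
      · exact absurd e (n1 g hg)
      · exact absurd e (n2 g hg)
      · exact absurd e (n3 g hg)

theorem fwd' {P : Cfg X} {G : Subgroup (Equiv.Perm X)} (hP : P.IsPolyhedron) (hG : Acts G P)
    (hS : Semireg G P) {o : X} (ho : o ∈ P.V) :
    ∃ (c : Cls) (A B s : Equiv.Perm X), grp A B s = G ∧ Good c A B s o ∧ P = cfg c A B s o := by
  obtain ⟨β, hβ, rfl, c, A, B, s, hA, hB, hs, hc, hn⟩ := exists_case hP hG hS ho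
  exact ⟨c, A, B, s, grp_eq hP hG hS hβ hA hB hs hc hn,
    good_of_case hP hG hS hβ hA hB hs hc hn⟩

end Pool.Agent.H21.FT
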