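import Pool.Agent.H21.FT.ListSplit
import Pool.Agent.H21.FT.DefsG
import Pool.Agent.H21.FT.Explicit
import Pool.Agent.H21.FT.KerCub
import Pool.Agent.H21.FT.KerAx

/-!
# Which items have infinitely many vertices

For the data of a block of the table the group is infinite if and only if the integer vector of the
family is not zero (for the tetragonal and hexagonal kinds provided that the vertices do not lie on
one line); for the rods the group is always infinite.
-/

namespace Pool.Agent.H21.FT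

open Matrix

/-! ### The kernel check -/

/-- Coefficients of linear forms. -/
def iiUs : List IV :=
  [⟨1, 0, 0⟩, ⟨0, 1, 0⟩, ⟨0, 0, 1⟩, ⟨1, 1, 0⟩, ⟨1, -1, 0⟩, ⟨1, 0, 1⟩, ⟨1, 0, -1⟩, ⟨0, 1, 1⟩, ⟨0, 1, -1⟩,
   ⟨1, 1, 1⟩, ⟨1, 1, -1⟩, ⟨1, -1, 1⟩, ⟨1, -1, -1⟩, ⟨1, 1, -2⟩, ⟨1, -1, -2⟩]

/-- Some linear form of some `X v` is no integer combination of those of `X T1`, `X T2`, `X T3`. -/
def iiA (r : Row) (f : Fam) : Bool :=
  r.sch.any fun X => iiUs.any fun u =>
    !decide (((Int.gcd (Int.gcd (u.dot (X.mv f.T1)) (u.dot (X.mv f.T2)) : ℕ)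
      (u.dot (X.mv f.T3)) : ℕ) : ℤ) ∣ u.dot (X.mv f.v))

/-- The entries of the vectors `X v`, `X T1`, `X T2`. -/
def iiF (r : Row) (f : Fam) : List IV :=
  r.sch.flatMap fun X => [⟨(X.mv f.v).x, (X.mv f.T1).x, (X.mv f.T2).x⟩,
    ⟨(X.mv f.v).y, (X.mv f.T1).y, (X.mv f.T2).y⟩, ⟨(X.mv f.v).z, (X.mv f.T1).z, (X.mv f.T2).z⟩]

/-- `T3 = 0` and two of the entries separate `T1` and `T2` and vanish for `v`. -/
def iiDet (r : Row) (f : Fam) : Bool :=
  decide (f.T3 = ⟨0, 0, 0⟩) && (iiF r f).any fun p => decide (p.x = 0) && (iiF r f).any fun q =>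
    decide (q.x = 0) && decide (p.y * q.z - p.z * q.y ≠ 0)

/-- `v` is vertical and the planar part is kept. -/
def iiC (k : Kind) (r : Row) (f : Fam) : Bool :=
  (decide (k = .tet) || decide (k = .hex)) && decide (f.v.x = 0) && decide (f.v.y = 0) &&
    decide (f.K1 = ⟨0, 0, 0⟩) && decide (f.K2 = ⟨0, 0, 0⟩) &&
    r.reps.all fun p => decide (p.X.a.z = 0) && decide (p.X.b.z = 0)

/-- The check for a family. -/
def iiChk (k : Kind) (r : Row) (f : Fam) : Bool :=
  iiA r f || (iiDet r f && (decide (f.v = ⟨0, 0, 0⟩) || iiC k r f))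

set_option maxRecDepth 100000 in
theorem ii_cub_p0 : (((cubBlocks.zip cubRows).drop 0).take 4).all
    (fun x => x.1.fams.all (iiChk .cub x.2.1)) = true := by
  decide +kernel

set_option maxRecDepth 100000 in
theorem ii_cub_p1 : (((cubBlocks.zip cubRows).drop 4).take 4).all
    (fun x => x.1.fams.all (iiChk .cub x.2.1)) = true := by
  decide +kernel

set_option maxRecDepth 100000 in
theorem ii_cub_p2 : (((cubBlocks.zip cubRows).drop 8).take 4).all
    (fun x => x.1.fams.all (iiChk .cub x.2.1)) = true := by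
  decide +kernel

set_option maxRecDepth 100000 in
theorem ii_cub_p3 : (((cubBlocks.zip cubRows).drop 12).take 4).all
    (fun x => x.1.fams.all (iiChk .cub x.2.1)) = true := by
  decide +kernel

set_option maxRecDepth 100000 in
theorem ii_cub_p4 : (((cubBlocks.zip cubRows).drop 16).take 4).all
    (fun x => x.1.fams.all (iiChk .cub x.2.1)) = true := by
  decide +kernel

set_option maxRecDepth 100000 in
theorem ii_cub_p5 : (((cubBlocks.zip cubRows).drop 20).take 4).all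
    (fun x => x.1.fams.all (iiChk .cub x.2.1)) = true := by
  decide +kernel

set_option maxRecDepth 100000 in
theorem ii_cub_p6 : (((cubBlocks.zip cubRows).drop 24).take 4).all
    (fun x => x.1.fams.all (iiChk .cub x.2.1)) = true := by
  decide +kernel

set_option maxRecDepth 100000 in
theorem ii_cub_p7 : (((cubBlocks.zip cubRows).drop 28).take 4).all
    (fun x => x.1.fams.all (iiChk .cub x.2.1)) = true := by
  decide +kernel

set_option maxRecDepth 100000 in
theorem ii_cub_p8 : (((cubBlocks.zip cubRows).drop 32).take 4).all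
    (fun x => x.1.fams.all (iiChk .cub x.2.1)) = true := by
  decide +kernel

set_option maxRecDepth 100000 in
theorem ii_cub_p9 : ((cubBlocks.zip cubRows).drop 36).all
    (fun x => x.1.fams.all (iiChk .cub x.2.1)) = true := by
  decide +kernel

theorem ii_cub : (cubBlocks.zip cubRows).all
    (fun x => x.1.fams.all (iiChk .cub x.2.1)) = true := by
  change ((cubBlocks.zip cubRows).drop 0).all _ = true
  refine all_step 0 4 ii_cub_p0 ?_
  refine all_step 4 4 ii_cub_p1 ?_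
  refine all_step 8 4 ii_cub_p2 ?_
  refine all_step 12 4 ii_cub_p3 ?_
  refine all_step 16 4 ii_cub_p4 ?_
  refine all_step 20 4 ii_cub_p5 ?_
  refine all_step 24 4 ii_cub_p6 ?_
  refine all_step 28 4 ii_cub_p7 ?_
  refine all_step 32 4 ii_cub_p8 ?_
  exact ii_cub_p9

set_option maxRecDepth 100000 in
theorem ii_tet : (tetBlocks.zip tetRows).all (fun x => x.1.fams.all (iiChk .tet x.2.1)) = true := by
  decide +kernel

set_option maxRecDepth 100000 in
theorem ii_hex : (hexBlocks.zip hexRows).all (fun x => x.1.fams.all (iiChk .hex x.2.1)) = true := by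
  decide +kernel

set_option maxRecDepth 100000 in
theorem ii_ort : (ortBlocks.zip ortRows).all (fun x => x.1.fams.all (iiChk .ort x.2.1)) = true := by
  decide +kernel


/-! ### Integer vectors -/

theorem ii_vec_zero : (⟨0, 0, 0⟩ : IV).vec = 0 := by
  ext i
  fin_cases i <;> simp [IV.vec]

theorem ii_mv_vec (M : IM) (v : IV) : (M.mv v).vec = M.mat *ᵥ v.vec := by
  ext i
  fin_cases i <;> simp [IM.mv, IM.mat, IV.vec, IV.dot, mulVec, dotProduct, Fin.sum_univ_three]

theorem ii_vec_inj {v : IV} (h : v.vec = 0) : v = ⟨0, 0, 0⟩ := by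
  obtain ⟨a, b, c⟩ := v
  have h0 := congrFun h 0
  have h1 := congrFun h 1
  have h2 := congrFun h 2
  simp [IV.vec] at h0 h1 h2
  simp [h0, h1, h2]

theorem ii_base_vec (f : Fam) (n : IV) : (f.base n).vec =
    f.v.vec + (n.x : ℝ) • f.T1.vec + (n.y : ℝ) • f.T2.vec + (n.z : ℝ) • f.T3.vec := by
  ext i
  fin_cases i <;> simp [Fam.base, IV.add, IV.smul, IV.vec]

theorem ii_pt (f : Fam) (n : IV) (x y : ℝ) :
    f.pt n x y = ((f.den : ℝ)⁻¹) • (f.base n).vec + x • f.K1.vec + y • f.K2.vec := by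
  rw [ii_base_vec]
  rfl

theorem ii_X_pt {f : Fam} {X : IM} (h1 : X.mv f.K1 = ⟨0, 0, 0⟩) (h2 : X.mv f.K2 = ⟨0, 0, 0⟩)
    (n : IV) (x y : ℝ) :
    X.mat *ᵥ f.pt n x y = ((f.den : ℝ)⁻¹) • (X.mv (f.base n)).vec := by
  have e1 : X.mat *ᵥ f.K1.vec = 0 := by rw [← ii_mv_vec, h1, ii_vec_zero]
  have e2 : X.mat *ᵥ f.K2.vec = 0 := by rw [← ii_mv_vec, h2, ii_vec_zero]
  rw [ii_pt, mulVec_add, mulVec_add, mulVec_smul, mulVec_smul, mulVec_smul, e1, e2, ii_mv_vec]
  simp

theorem ii_dot_add (u v w : IV) : u.dot (v.add w) = u.dot v + u.dot w := by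
  simp only [IV.dot, IV.add]
  ring

theorem ii_dot_smul (u : IV) (k : ℤ) (v : IV) : u.dot (v.smul k) = k * u.dot v := by
  simp only [IV.dot, IV.smul]
  ring

theorem ii_mv_add (M : IM) (v w : IV) : M.mv (v.add w) = (M.mv v).add (M.mv w) := by
  simp only [IM.mv, IV.add, IV.dot, IV.mk.injEq]
  refine ⟨?_, ?_, ?_⟩ <;> ring

theorem ii_mv_smul (M : IM) (k : ℤ) (v : IV) : M.mv (v.smul k) = (M.mv v).smul k := by
  simp only [IM.mv, IV.smul, IV.dot, IV.mk.injEq]
  refine ⟨?_, ?_, ?_⟩ <;> ring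

theorem ii_mv_base (X : IM) (f : Fam) (n : IV) : X.mv (f.base n) =
    (((X.mv f.v).add ((X.mv f.T1).smul n.x)).add ((X.mv f.T2).smul n.y)).add
      ((X.mv f.T3).smul n.z) := by
  rw [Fam.base, ii_mv_add, ii_mv_add, ii_mv_add, ii_mv_smul, ii_mv_smul, ii_mv_smul]

theorem ii_of_A {r : Row} {f : Fam} (h : iiA r f = true) (n : IV)
    (hn : ∀ X ∈ r.sch, X.mv (f.base n) = ⟨0, 0, 0⟩) : False := by
  simp only [iiA, List.any_eq_true, Bool.not_eq_true', decide_eq_false_iff_not] at h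
  obtain ⟨X, hX, u, -, hu⟩ := h
  apply hu
  have e1 := hn X hX
  rw [ii_mv_base] at e1
  have e2 := congrArg (fun z => u.dot z) e1
  simp only [ii_dot_add, ii_dot_smul] at e2
  have e3 : u.dot (⟨0, 0, 0⟩ : IV) = 0 := by simp [IV.dot]
  rw [e3] at e2
  have e4 : u.dot (X.mv f.v) = -(n.x * u.dot (X.mv f.T1) + n.y * u.dot (X.mv f.T2) +
      n.z * u.dot (X.mv f.T3)) := by linarith
  rw [e4]
  have g1 : ((Int.gcd (Int.gcd (u.dot (X.mv f.T1)) (u.dot (X.mv f.T2)) : ℕ)
      (u.dot (X.mv f.T3)) : ℕ) : ℤ) ∣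
      ((Int.gcd (u.dot (X.mv f.T1)) (u.dot (X.mv f.T2)) : ℕ) : ℤ) := Int.gcd_dvd_left ..
  have g2 := g1.trans (Int.gcd_dvd_left (u.dot (X.mv f.T1)) (u.dot (X.mv f.T2)))
  have g3 := g1.trans (Int.gcd_dvd_right (u.dot (X.mv f.T1)) (u.dot (X.mv f.T2)))
  have g4 : ((Int.gcd (Int.gcd (u.dot (X.mv f.T1)) (u.dot (X.mv f.T2)) : ℕ)
      (u.dot (X.mv f.T3)) : ℕ) : ℤ) ∣ u.dot (X.mv f.T3) := Int.gcd_dvd_right ..
  rw [dvd_neg]
  exact dvd_add (dvd_add (g2.mul_left _) (g3.mul_left _)) (g4.mul_left _)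

theorem ii_of_F {r : Row} {f : Fam} {p : IV} (hp : p ∈ iiF r f) (h3 : f.T3 = ⟨0, 0, 0⟩)
    (hp0 : p.x = 0) {n : IV} (hn : ∀ X ∈ r.sch, X.mv (f.base n) = ⟨0, 0, 0⟩) :
    n.x * p.y + n.y * p.z = 0 := by
  simp only [iiF, List.mem_flatMap, List.mem_cons, List.not_mem_nil, or_false] at hp
  obtain ⟨X, hX, hp⟩ := hp
  have e1 := hn X hX
  rw [ii_mv_base, h3] at e1
  have e0 : X.mv ⟨0, 0, 0⟩ = ⟨0, 0, 0⟩ := by simp [IM.mv, IV.dot]
  rw [e0] at e1
  simp only [IV.add, IV.smul, IV.mk.injEq, mul_zero, add_zero] at e1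
  obtain ⟨a, b, c⟩ := e1
  rcases hp with rfl | rfl | rfl
  · simp only at hp0 ⊢
    linarith
  · simp only at hp0 ⊢
    linarith
  · simp only at hp0 ⊢
    linarith

theorem ii_of_det {r : Row} {f : Fam} (h : iiDet r f = true) {n : IV}
    (hn : ∀ X ∈ r.sch, X.mv (f.base n) = ⟨0, 0, 0⟩) :
    f.T3 = ⟨0, 0, 0⟩ ∧ n.x = 0 ∧ n.y = 0 := by
  simp only [iiDet, Bool.and_eq_true, decide_eq_true_eq, List.any_eq_true] at h
  obtain ⟨h3, p, hp, hp0, q, hq, hq0, hd⟩ := h
  have e1 := ii_of_F hp h3 hp0 hn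
  have e2 := ii_of_F hq h3 hq0 hn
  refine ⟨h3, ?_, ?_⟩
  · have : n.x * (p.y * q.z - p.z * q.y) = 0 := by linear_combination q.z * e1 - p.z * e2
    rcases mul_eq_zero.1 this with h | h
    · exact h
    · exact absurd h hd
  · have : n.y * (p.y * q.z - p.z * q.y) = 0 := by linear_combination p.y * e2 - q.y * e1
    rcases mul_eq_zero.1 this with h | h
    · exact h
    · exact absurd h hd

/-- What the check gives. -/
theorem ii_of_chk {k : Kind} {r : Row} {f : Fam} (h : iiChk k r f = true) {n : IV}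
    (hn : ∀ X ∈ r.sch, X.mv (f.base n) = ⟨0, 0, 0⟩) :
    f.base n = ⟨0, 0, 0⟩ ∨ ((k = .tet ∨ k = .hex) ∧ (∀ x y : ℝ, ∃ z : ℝ, f.pt n x y = ![0, 0, z]) ∧
      ∀ p ∈ r.reps, p.X.a.z = 0 ∧ p.X.b.z = 0) := by
  simp only [iiChk, Bool.or_eq_true, Bool.and_eq_true, decide_eq_true_eq] at h
  rcases h with h | ⟨h, h'⟩
  · exact (ii_of_A h n hn).elim
  · obtain ⟨h3, hx, hy⟩ := ii_of_det h hn
    have hb : f.base n = f.v := by
      obtain ⟨a, b, c⟩ := n
      simp only at hx hy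
      subst hx hy
      simp [Fam.base, h3, IV.add, IV.smul]
    rcases h' with h' | h'
    · left
      rw [hb, h']
    · right
      simp only [iiC, Bool.or_eq_true, Bool.and_eq_true, decide_eq_true_eq, List.all_eq_true] at h'
      obtain ⟨⟨⟨⟨⟨hk, a⟩, b⟩, c⟩, d⟩, e⟩ := h'
      refine ⟨hk, fun x y => ⟨(f.den : ℝ)⁻¹ * f.v.z, ?_⟩, e⟩
      rw [ii_pt, hb, c, d, ii_vec_zero]
      ext i
      fin_cases i <;> simp [IV.vec, a, b]


/-! ### The groups -/

theorem ii_aff {M : M3} (h : M.det ≠ 0) (a : V3) : IsAff (aff M a) M a := by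
  intro x
  unfold aff
  rw [dif_pos (isUnit_iff_ne_zero.2 h)]
  rfl

theorem ii_det_of_mul {M N : IM} (h : M.mul N = IM.one) : M.mat.det ≠ 0 := by
  have e : M.mat * N.mat = 1 := by rw [← rf_mul_mat, h, rf_one_mat]
  have e2 := congrArg Matrix.det e
  rw [Matrix.det_mul, Matrix.det_one] at e2
  exact left_ne_zero_of_mul_eq_one e2

theorem ii_det_of_aff {g : Equiv.Perm V3} {M : M3} {a : V3} (h : IsAff g M a) : M.det ≠ 0 := by
  intro h0
  obtain ⟨v, hv, hv0⟩ := Matrix.exists_mulVec_eq_zero_iff.2 h0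
  apply hv
  apply g.injective
  rw [h, h, hv0, mulVec_zero]

theorem ii_foldl {P : IM → Prop} (l : List IM) : ∀ acc : List IM, (∀ M ∈ l, P M) →
    (∀ M ∈ acc, P M) → ∀ M ∈ l.foldl (fun acc N => if N ∈ acc then acc else acc ++ [N]) acc,
      P M := by
  induction l with
  | nil =>
    intro acc _ h
    exact h
  | cons x l ih =>
    intro acc h1 h2
    rw [List.foldl_cons]
    apply ih _ (fun M hM => h1 M (List.mem_cons_of_mem _ hM))
    split_ifs
    · exact h2
    · intro M hM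
      rw [List.mem_append, List.mem_singleton] at hM
      rcases hM with hM | rfl
      · exact h2 M hM
      · exact h1 _ (by simp)

theorem ii_elts {G : List IM} {P : IM → Prop} (h1 : P IM.one)
    (hm : ∀ g ∈ G, ∀ M, P M → P (g.mul M)) : ∀ M ∈ elts G, P M := by
  have h : ∀ (n : ℕ) (L : List IM), (∀ M ∈ L, P M) → ∀ M ∈ (extend G)^[n] L, P M := by
    intro n
    induction n with
    | zero => exact fun L hL => hL
    | succ n ih =>
      intro L hL
      rw [Function.iterate_succ_apply]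
      apply ih
      apply ii_foldl _ _ _ hL
      intro M hM
      rw [List.mem_flatMap] at hM
      obtain ⟨N, hN, hM⟩ := hM
      rw [List.mem_map] at hM
      obtain ⟨g, hg, rfl⟩ := hM
      exact hm g hg N (hL N hN)
  apply h
  intro M hM
  rw [List.mem_singleton] at hM
  rw [hM]
  exact h1

/-- The elements of the list are linear maps of the group. -/
theorem ii_elts_mem {G : List IM} (hG : ∀ M ∈ G, M.mat.det ≠ 0) {M : IM} (hM : M ∈ elts G) :
    M.mat.det ≠ 0 ∧ aff M.mat 0 ∈ linGrp G := by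
  have h : ∀ M ∈ elts G, ∃ g ∈ linGrp G, IsAff g M.mat 0 := by
    apply ii_elts
    · refine ⟨1, one_mem _, ?_⟩
      rw [rf_one_mat]
      exact rf_one
    · rintro N hN M ⟨g, hg, hgM⟩
      have h1 := ii_aff (hG N hN) 0
      refine ⟨aff N.mat 0 * g, mul_mem (Subgroup.subset_closure ⟨N, hN, h1⟩) hg, ?_⟩
      have h2 := rf_mul h1 hgM
      rw [mulVec_zero, add_zero, ← rf_mul_mat] at h2
      exact h2
  obtain ⟨g, hg, hgM⟩ := h M hM
  have hd := ii_det_of_aff hgM
  refine ⟨hd, ?_⟩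
  rw [rf_ext (ii_aff hd 0) hgM]
  exact hg

theorem ii_stab {G : List IM} (hG : ∀ M ∈ G, M.mat.det ≠ 0) {A B : IM} (hA : A ∈ elts G)
    (hB : B ∈ elts G) (h : linGrp [A, B] = linGrp G) :
    stab (aff A.mat 0) (aff B.mat 0) = linGrp G := by
  rw [← h, stab, linGrp]
  congr 1
  ext g
  simp only [Set.mem_insert_iff, Set.mem_singleton_iff, List.mem_cons, List.not_mem_nil, or_false,
    Set.mem_ofPred_eq]
  have hA' := ii_aff (ii_elts_mem hG hA).1 0
  have hB' := ii_aff (ii_elts_mem hG hB).1 0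
  constructor
  · rintro (rfl | rfl)
    · exact ⟨A, Or.inl rfl, hA'⟩
    · exact ⟨B, Or.inr rfl, hB'⟩
  · rintro ⟨M, rfl | rfl, hM⟩
    · exact Or.inl (rf_ext hM hA')
    · exact Or.inr (rf_ext hM hB')

theorem ii_link {G : List IM} (hG : ∀ M ∈ G, M.mat.det ≠ 0) {h h' : IM} (hh : h ∈ elts G)
    (hh' : h' ∈ elts G) (inv : Bool) (t : Equiv.Perm V3) :
    Link (linGrp G) (aff h.mat 0 * (bif inv then t⁻¹ else t) * aff h'.mat 0) t := by
  refine ⟨_, (ii_elts_mem hG hh).2, _, (ii_elts_mem hG hh').2, ?_⟩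
  cases inv
  · left
    rfl
  · right
    rfl

/-- The vertices are the images of the origin. -/
theorem ii_V (c : Cls) (A B s : Equiv.Perm V3) :
    (cfg c A B s 0).V = (fun g : Equiv.Perm V3 => g 0) '' (grp A B s : Set (Equiv.Perm V3)) := by
  ext x
  constructor
  · rintro ⟨g, hg, rfl⟩
    exact ⟨g, hg, rfl⟩
  · rintro ⟨g, hg, rfl⟩
    exact ⟨g, hg, rfl⟩

/-- A translation gives infinitely many vertices. -/
theorem ii_inf_trans {Γ : Subgroup (Equiv.Perm V3)} {y : V3} (hy : y ≠ 0) (h : IsTrans Γ y) :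
    ((fun g : Equiv.Perm V3 => g 0) '' (Γ : Set (Equiv.Perm V3))).Infinite := by
  obtain ⟨g, hg, hgy⟩ := h
  have hk : ∀ k : ℕ, (g ^ k) 0 = (k : ℝ) • y := by
    intro k
    induction k with
    | zero => simp
    | succ k ih =>
      rw [pow_succ', Equiv.Perm.mul_apply, ih, hgy, one_mulVec]
      push_cast
      rw [add_smul, one_smul]
  apply Set.infinite_of_injective_forall_mem (f := fun k : ℕ => (k : ℝ) • y)
  · intro a b hab
    have := smul_left_injective ℝ hy hab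
    exact_mod_cast this
  · intro k
    exact ⟨g ^ k, pow_mem hg k, hk k⟩

/-- A map that increases the third coordinate by a nonzero constant gives infinitely many
vertices. -/
theorem ii_inf_screw {Γ : Subgroup (Equiv.Perm V3)} {g : Equiv.Perm V3} (hg : g ∈ Γ) {c : ℝ}
    (hc : c ≠ 0) (h : ∀ x, (g x) 2 = x 2 + c) :
    ((fun g : Equiv.Perm V3 => g 0) '' (Γ : Set (Equiv.Perm V3))).Infinite := by
  have hk : ∀ k : ℕ, (g ^ k) 0 2 = (k : ℝ) * c := by
    intro k
    induction k with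
    | zero => simp
    | succ k ih =>
      rw [pow_succ', Equiv.Perm.mul_apply, h, ih]
      push_cast
      ring
  apply Set.infinite_of_injective_forall_mem (f := fun k : ℕ => (g ^ k) (0 : V3))
  · intro a b hab
    have e := congrFun hab 2
    simp only at e
    rw [hk, hk] at e
    have := mul_right_cancel₀ hc e
    exact_mod_cast this
  · intro k
    exact ⟨g ^ k, pow_mem hg k, rfl⟩


theorem ii_zip {α β : Type} {l : List α} {m : List β} (h : l.length = m.length) {a : α}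
    (ha : a ∈ l) : ∃ b, (a, b) ∈ l.zip m := by
  induction l generalizing m with
  | nil => simp at ha
  | cons x l ih =>
    cases m with
    | nil => simp at h
    | cons y m =>
      simp only [List.length_cons, Nat.add_right_cancel_iff] at h
      rcases List.mem_cons.1 ha with rfl | ha
      · exact ⟨y, by simp⟩
      · obtain ⟨b, hb⟩ := ih h ha
        exact ⟨b, by simp [hb]⟩

/-- Every block of the table has a checked row. -/
theorem ii_row {b : Block} (hb : b ∈ table) :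
    ∃ k rl, BlockOK k b rl ∧ ∀ f ∈ b.fams, iiChk k rl.1 f = true := by
  unfold table at hb
  rw [List.mem_append, List.mem_append, List.mem_append] at hb
  rcases hb with ((hb | hb) | hb) | hb
  · obtain ⟨r, hr⟩ := ii_zip cub_ok.1 hb
    exact ⟨_, r, cub_ok.2 _ hr, List.all_eq_true.1 (List.all_eq_true.1 ii_cub _ hr)⟩
  · obtain ⟨r, hr⟩ := ii_zip tet_ok.1 hb
    exact ⟨_, r, tet_ok.2 _ hr, List.all_eq_true.1 (List.all_eq_true.1 ii_tet _ hr)⟩
  · obtain ⟨r, hr⟩ := ii_zip hex_ok.1 hb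
    exact ⟨_, r, hex_ok.2 _ hr, List.all_eq_true.1 (List.all_eq_true.1 ii_hex _ hr)⟩
  · obtain ⟨r, hr⟩ := ii_zip ort_ok.1 hb
    exact ⟨_, r, ort_ok.2 _ hr, List.all_eq_true.1 (List.all_eq_true.1 ii_ort _ hr)⟩

theorem ii_famOK {r : Row} {f : Fam} {L : LatE} (h : famOK r f L = true) : 0 < f.den ∧
    ∀ X ∈ r.sch, X.mv f.K1 = ⟨0, 0, 0⟩ ∧ X.mv f.K2 = ⟨0, 0, 0⟩ := by
  simp only [famOK, Bool.and_eq_true, decide_eq_true_eq, List.all_eq_true] at h
  obtain ⟨⟨⟨⟨h1, h2⟩, h3⟩, h4⟩, h5⟩ := h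
  refine ⟨h1, fun X hX => ?_⟩
  obtain ⟨⟨⟨⟨⟨a, b⟩, -⟩, -⟩, -⟩, -⟩ := h4 X hX
  exact ⟨a, b⟩

theorem ii_block {k : Kind} {b : Block} {rl : Row × List LatE} (hr : BlockOK k b rl)
    (hc : ∀ f ∈ b.fams, iiChk k rl.1 f = true) {f : Fam} (hf : f ∈ b.fams) {n : IV} {x y : ℝ}
    {A B s t : Equiv.Perm V3} (ht : IsAff t b.S.mat (f.pt n x y)) (hst : stab A B = linGrp b.gens)
    (hl : Link (stab A B) s t) (hflat : k = .tet ∨ k = .hex → s 0 0 ≠ 0 ∨ s 0 1 ≠ 0) (c : Cls) :
    (cfg c A B s 0).V.Infinite ↔ f.base n ≠ ⟨0, 0, 0⟩ := by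
  obtain ⟨L, hL⟩ := ii_zip hr.len hf
  obtain ⟨hden, hK⟩ := ii_famOK (hr.fams _ hL).1
  have hden' : ((f.den : ℝ)⁻¹) ≠ 0 := inv_ne_zero (by exact_mod_cast hden.ne')
  rw [hr.S] at ht
  rw [hr.gens] at hst
  have hg : grp A B s = rl.1.grp t := grp_link hst hl
  have hX : ∀ X ∈ rl.1.sch, X.mat *ᵥ f.pt n x y = ((f.den : ℝ)⁻¹) • (X.mv (f.base n)).vec :=
    fun X hX => ii_X_pt (hK X hX).1 (hK X hX).2 n x y
  rw [ii_V, hg]
  constructor
  · intro hV h0
    apply hV
    apply Set.Finite.image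
    apply Row.finite_of_zero hr.ok ht
    intro X hX'
    rw [hX X hX', h0]
    have e0 : X.mv ⟨0, 0, 0⟩ = ⟨0, 0, 0⟩ := by simp [IM.mv, IV.dot]
    rw [e0, ii_vec_zero, smul_zero]
  · intro h0
    by_contra hV
    have h1 : ∀ X ∈ rl.1.sch, X.mat *ᵥ f.pt n x y = 0 := by
      intro X hX'
      by_contra hne
      apply hV
      exact ii_inf_trans hne ((Row.trans_iff hr.ok ht).2
        (AddSubgroup.subset_closure ⟨X, hX', rfl⟩))
    have h2 : ∀ X ∈ rl.1.sch, X.mv (f.base n) = ⟨0, 0, 0⟩ := by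
      intro X hX'
      have e := h1 X hX'
      rw [hX X hX'] at e
      exact ii_vec_inj ((smul_eq_zero.1 e).resolve_left hden')
    rcases ii_of_chk (hc f hf) h2 with h3 | ⟨hk, h3, h4⟩
    · exact h0 h3
    · obtain ⟨z, hz⟩ := h3 x y
      have hs : s ∈ rl.1.grp t := by
        rw [← hg]
        exact Subgroup.subset_closure (by simp)
      obtain ⟨p, hp, y', hy', hsp⟩ := Row.form hr.ok ht hs
      have hT : rl.1.Tw (f.pt n x y) = ⊥ := by
        rw [eq_bot_iff, Row.Tw, AddSubgroup.closure_le]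
        rintro y ⟨X, hX, rfl⟩
        rw [SetLike.mem_coe, AddSubgroup.mem_bot]
        exact h1 X hX
      rw [hT, AddSubgroup.mem_bot] at hy'
      have e := hsp 0
      rw [mulVec_zero, zero_add, hy', add_zero, hz] at e
      obtain ⟨ha, hb⟩ := h4 p hp
      have e0 : s 0 0 = 0 := by
        rw [e]
        simp [IM.mat, mulVec, dotProduct, Fin.sum_univ_three, ha]
      have e1 : s 0 1 = 0 := by
        rw [e]
        simp [IM.mat, mulVec, dotProduct, Fin.sum_univ_three, hb]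
      rcases hflat hk with h | h
      · exact h e0
      · exact h e1

/-! ### The rods -/

theorem ii_rodMat_det (θ : ℝ) (r : Rod) : (rodMat θ r.sgn).det ≠ 0 := by
  have h : (rodMat θ r.sgn).det = r.sgn := by
    rw [rodMat, Matrix.det_fin_three]
    simp
    linear_combination r.sgn * Real.cos_sq_add_sin_sq θ
  rw [h]
  cases r <;> simp [Rod.sgn]

theorem ii_rod_gens (r : Rod) : ∀ M ∈ r.gens, M.mat.det ≠ 0 := by
  have h : ∀ M ∈ r.gens, M.mul M = IM.one := by
    cases r <;> decide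
  intro M hM
  exact ii_det_of_mul (h M hM)

theorem ii_rod (r : Rod) {A B s t : Equiv.Perm V3} {θ : ℝ}
    (ht : IsAff t (rodMat θ r.sgn) ![Real.cos θ - 1, Real.sin θ, 1])
    (hst : stab A B = linGrp r.gens) (hl : Link (stab A B) s t) (c : Cls) :
    (cfg c A B s 0).V.Infinite := by
  have hg : grp A B s = linGrp r.gens ⊔ Subgroup.zpowers t := grp_link hst hl
  rw [ii_V, hg]
  have htm : t ∈ linGrp r.gens ⊔ Subgroup.zpowers t :=
    Subgroup.mem_sup_right (Subgroup.mem_zpowers t)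
  have hz : ∀ x, (t x) 2 = r.sgn * x 2 + 1 := by
    intro x
    rw [ht]
    simp [rodMat, dotProduct, Fin.sum_univ_three]
  by_cases hr : r.sgn = 1
  · refine ii_inf_screw htm one_ne_zero fun x => ?_
    rw [hz, hr, one_mul]
  · have hr4 : r = .r4 := by
      cases r <;> simp [Rod.sgn] at hr ⊢
    subst hr4
    have hM : (⟨⟨1, 0, 0⟩, ⟨0, -1, 0⟩, ⟨0, 0, -1⟩⟩ : IM) ∈ Rod.r4.gens := by
      simp [Rod.gens]
    have hd := ii_rod_gens .r4 _ hM
    have ha := ii_aff hd 0
    have hh : aff (⟨⟨1, 0, 0⟩, ⟨0, -1, 0⟩, ⟨0, 0, -1⟩⟩ : IM).mat 0 ∈ linGrp Rod.r4.gens :=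
      Subgroup.subset_closure ⟨_, hM, ha⟩
    refine ii_inf_screw (mul_mem (Subgroup.mem_sup_left hh) htm)
      (c := -1) (by norm_num) fun x => ?_
    rw [Equiv.Perm.mul_apply, ha]
    have e : (t x) 2 = - x 2 + 1 := by
      rw [hz]
      simp [Rod.sgn]
    simp [IM.mat, dotProduct, Fin.sum_univ_three, e]
    ring

/-- FTI-42 -/
theorem infinite_iff {d : Dat} (h : d.Ok0)
    (hf : d.kind = .tet ∨ d.kind = .hex → d.s 0 0 ≠ 0 ∨ d.s 0 1 ≠ 0) (c : Cls) :
    (cfg c d.A d.B d.s 0).V.Infinite ↔ d.Ok := by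
  cases d with
  | cryst blk A B a a' inv fam n x y =>
    obtain ⟨h1, h2, h3, h4, h5, h6, h7, h8⟩ := h
    obtain ⟨k, rl, hr, hc⟩ := ii_row h1
    have hG : ∀ M ∈ blk.gens, M.mat.det ≠ 0 := by
      intro M hM
      rw [hr.gens] at hM
      obtain ⟨g, -, hg⟩ := (Row.ok_OK hr.ok).gen_lin hM
      exact ii_det_of_aff hg
    have hS : blk.S.mat.det ≠ 0 := by
      rw [hr.S]
      exact ii_det_of_mul (Row.ok_OK hr.ok).S_Si
    have hst := ii_stab hG h2 h3 h6
    have hl : Link (stab (aff A.mat 0) (aff B.mat 0))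
        (Dat.s (.cryst blk A B a a' inv fam n x y)) (Dat.t (.cryst blk A B a a' inv fam n x y)) := by
      rw [hst]
      exact ii_link hG h4 h5 inv _
    have hflat : k = .tet ∨ k = .hex → Dat.s (.cryst blk A B a a' inv fam n x y) 0 0 ≠ 0 ∨
        Dat.s (.cryst blk A B a a' inv fam n x y) 0 1 ≠ 0 := by
      rw [← hr.kind]
      exact hf
    have hmain := ii_block hr hc h7 (ii_aff hS _) hst hl hflat c
    refine hmain.trans ?_
    constructor
    · intro h0
      exact ⟨h1, h2, h3, h4, h5, h6, h7, h8, h0⟩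
    · rintro ⟨-, -, -, -, -, -, -, -, h0⟩
      exact h0
  | rod r A B a a' inv p q =>
    have h' := h
    obtain ⟨h2, h3, h4, h5, h6, h7, h8⟩ := h'
    have hG := ii_rod_gens r
    have hst := ii_stab hG h2 h3 h6
    have hl : Link (stab (aff A.mat 0) (aff B.mat 0))
        (Dat.s (.rod r A B a a' inv p q)) (Dat.t (.rod r A B a a' inv p q)) := by
      rw [hst]
      exact ii_link hG h4 h5 inv _
    have hmain := ii_rod r (ii_aff (ii_rodMat_det _ r) _) hst hl c
    exact ⟨fun _ => h, fun _ => hmain⟩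

end Pool.Agent.H21.FT
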