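import Pool.Agent.H21.FT.Geo

/-!
# Integer vectors and matrices, frames
-/

namespace Pool.Agent.H21.FT

open Matrix

/-- Integer vectors. -/
structure IV where
  x : ℤ
  y : ℤ
  z : ℤ
  deriving DecidableEq

/-- Integer 3 by 3 matrices, given by their rows. -/
structure IM where
  a : IV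
  b : IV
  c : IV
  deriving DecidableEq

namespace IV

/-- The corresponding real vector. -/
def vec (v : IV) : V3 := ![(v.x : ℝ), (v.y : ℝ), (v.z : ℝ)]

def add (v w : IV) : IV := ⟨v.x + w.x, v.y + w.y, v.z + w.z⟩

def sub (v w : IV) : IV := ⟨v.x - w.x, v.y - w.y, v.z - w.z⟩

def neg (v : IV) : IV := ⟨-v.x, -v.y, -v.z⟩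

def smul (k : ℤ) (v : IV) : IV := ⟨k * v.x, k * v.y, k * v.z⟩

def dot (v w : IV) : ℤ := v.x * w.x + v.y * w.y + v.z * w.z

end IV

namespace IM

/-- The corresponding real matrix. -/
def mat (M : IM) : M3 :=
  !![(M.a.x : ℝ), (M.a.y : ℝ), (M.a.z : ℝ);
     (M.b.x : ℝ), (M.b.y : ℝ), (M.b.z : ℝ);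
     (M.c.x : ℝ), (M.c.y : ℝ), (M.c.z : ℝ)]

def one : IM := ⟨⟨1, 0, 0⟩, ⟨0, 1, 0⟩, ⟨0, 0, 1⟩⟩

def zero : IM := ⟨⟨0, 0, 0⟩, ⟨0, 0, 0⟩, ⟨0, 0, 0⟩⟩

/-- The product of a matrix and a column vector. -/
def mv (M : IM) (v : IV) : IV := ⟨M.a.dot v, M.b.dot v, M.c.dot v⟩

/-- The product of a row vector and a matrix. -/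
def vm (v : IV) (M : IM) : IV :=
  ((M.a.smul v.x).add (M.b.smul v.y)).add (M.c.smul v.z)

def mul (M N : IM) : IM := ⟨vm M.a N, vm M.b N, vm M.c N⟩

def add (M N : IM) : IM := ⟨M.a.add N.a, M.b.add N.b, M.c.add N.c⟩

def sub (M N : IM) : IM := ⟨M.a.sub N.a, M.b.sub N.b, M.c.sub N.c⟩

def neg (M : IM) : IM := ⟨M.a.neg, M.b.neg, M.c.neg⟩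

end IM

/-- The kinds of frames: cubic, tetragonal, hexagonal, orthogonal. -/
inductive Kind
  | cub | tet | hex | ort
  deriving DecidableEq

/-- The matrix whose columns are the vectors of the frame. -/
noncomputable def Kind.frame : Kind → ℝ → ℝ → M3
  | .cub, _, _ => !![1, 0, 0; 0, 1, 0; 0, 0, 1]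
  | .tet, _, c => !![1, 0, 0; 0, 1, 0; 0, 0, c]
  | .hex, _, c => !![1, -1 / 2, 0; 0, √3 / 2, 0; 0, 0, c]
  | .ort, b, c => !![1, 0, 0; 0, b, 0; 0, 0, c]

/-- The 48 signed permutation matrices. -/
def cubAuts : List IM :=
  [⟨⟨1, 0, 0⟩, ⟨0, 1, 0⟩, ⟨0, 0, 1⟩⟩,
   ⟨⟨1, 0, 0⟩, ⟨0, 1, 0⟩, ⟨0, 0, -1⟩⟩,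
   ⟨⟨1, 0, 0⟩, ⟨0, 0, 1⟩, ⟨0, 1, 0⟩⟩,
   ⟨⟨1, 0, 0⟩, ⟨0, 0, 1⟩, ⟨0, -1, 0⟩⟩,
   ⟨⟨1, 0, 0⟩, ⟨0, 0, -1⟩, ⟨0, 1, 0⟩⟩,
   ⟨⟨1, 0, 0⟩, ⟨0, 0, -1⟩, ⟨0, -1, 0⟩⟩,
   ⟨⟨1, 0, 0⟩, ⟨0, -1, 0⟩, ⟨0, 0, 1⟩⟩,
   ⟨⟨1, 0, 0⟩, ⟨0, -1, 0⟩, ⟨0, 0, -1⟩⟩,
   ⟨⟨0, 1, 0⟩, ⟨1, 0, 0⟩, ⟨0, 0, 1⟩⟩,
   ⟨⟨0, 1, 0⟩, ⟨1, 0, 0⟩, ⟨0, 0, -1⟩⟩,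
   ⟨⟨0, 1, 0⟩, ⟨0, 0, 1⟩, ⟨1, 0, 0⟩⟩,
   ⟨⟨0, 1, 0⟩, ⟨0, 0, 1⟩, ⟨-1, 0, 0⟩⟩,
   ⟨⟨0, 1, 0⟩, ⟨0, 0, -1⟩, ⟨1, 0, 0⟩⟩,
   ⟨⟨0, 1, 0⟩, ⟨0, 0, -1⟩, ⟨-1, 0, 0⟩⟩,
   ⟨⟨0, 1, 0⟩, ⟨-1, 0, 0⟩, ⟨0, 0, 1⟩⟩,
   ⟨⟨0, 1, 0⟩, ⟨-1, 0, 0⟩, ⟨0, 0, -1⟩⟩,
   ⟨⟨0, 0, 1⟩, ⟨1, 0, 0⟩, ⟨0, 1, 0⟩⟩,
   ⟨⟨0, 0, 1⟩, ⟨1, 0, 0⟩, ⟨0, -1, 0⟩⟩,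
   ⟨⟨0, 0, 1⟩, ⟨0, 1, 0⟩, ⟨1, 0, 0⟩⟩,
   ⟨⟨0, 0, 1⟩, ⟨0, 1, 0⟩, ⟨-1, 0, 0⟩⟩,
   ⟨⟨0, 0, 1⟩, ⟨0, -1, 0⟩, ⟨1, 0, 0⟩⟩,
   ⟨⟨0, 0, 1⟩, ⟨0, -1, 0⟩, ⟨-1, 0, 0⟩⟩,
   ⟨⟨0, 0, 1⟩, ⟨-1, 0, 0⟩, ⟨0, 1, 0⟩⟩,
   ⟨⟨0, 0, 1⟩, ⟨-1, 0, 0⟩, ⟨0, -1, 0⟩⟩,
   ⟨⟨0, 0, -1⟩, ⟨1, 0, 0⟩, ⟨0, 1, 0⟩⟩,
   ⟨⟨0, 0, -1⟩, ⟨1, 0, 0⟩, ⟨0, -1, 0⟩⟩,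
   ⟨⟨0, 0, -1⟩, ⟨0, 1, 0⟩, ⟨1, 0, 0⟩⟩,
   ⟨⟨0, 0, -1⟩, ⟨0, 1, 0⟩, ⟨-1, 0, 0⟩⟩,
   ⟨⟨0, 0, -1⟩, ⟨0, -1, 0⟩, ⟨1, 0, 0⟩⟩,
   ⟨⟨0, 0, -1⟩, ⟨0, -1, 0⟩, ⟨-1, 0, 0⟩⟩,
   ⟨⟨0, 0, -1⟩, ⟨-1, 0, 0⟩, ⟨0, 1, 0⟩⟩,
   ⟨⟨0, 0, -1⟩, ⟨-1, 0, 0⟩, ⟨0, -1, 0⟩⟩,
   ⟨⟨0, -1, 0⟩, ⟨1, 0, 0⟩, ⟨0, 0, 1⟩⟩,
   ⟨⟨0, -1, 0⟩, ⟨1, 0, 0⟩, ⟨0, 0, -1⟩⟩,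
   ⟨⟨0, -1, 0⟩, ⟨0, 0, 1⟩, ⟨1, 0, 0⟩⟩,
   ⟨⟨0, -1, 0⟩, ⟨0, 0, 1⟩, ⟨-1, 0, 0⟩⟩,
   ⟨⟨0, -1, 0⟩, ⟨0, 0, -1⟩, ⟨1, 0, 0⟩⟩,
   ⟨⟨0, -1, 0⟩, ⟨0, 0, -1⟩, ⟨-1, 0, 0⟩⟩,
   ⟨⟨0, -1, 0⟩, ⟨-1, 0, 0⟩, ⟨0, 0, 1⟩⟩,
   ⟨⟨0, -1, 0⟩, ⟨-1, 0, 0⟩, ⟨0, 0, -1⟩⟩,
   ⟨⟨-1, 0, 0⟩, ⟨0, 1, 0⟩, ⟨0, 0, 1⟩⟩,
   ⟨⟨-1, 0, 0⟩, ⟨0, 1, 0⟩, ⟨0, 0, -1⟩⟩,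
   ⟨⟨-1, 0, 0⟩, ⟨0, 0, 1⟩, ⟨0, 1, 0⟩⟩,
   ⟨⟨-1, 0, 0⟩, ⟨0, 0, 1⟩, ⟨0, -1, 0⟩⟩,
   ⟨⟨-1, 0, 0⟩, ⟨0, 0, -1⟩, ⟨0, 1, 0⟩⟩,
   ⟨⟨-1, 0, 0⟩, ⟨0, 0, -1⟩, ⟨0, -1, 0⟩⟩,
   ⟨⟨-1, 0, 0⟩, ⟨0, -1, 0⟩, ⟨0, 0, 1⟩⟩,
   ⟨⟨-1, 0, 0⟩, ⟨0, -1, 0⟩, ⟨0, 0, -1⟩⟩]

/-- The 16 signed permutation matrices that preserve the third axis. -/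
def tetAuts : List IM :=
  [⟨⟨1, 0, 0⟩, ⟨0, 1, 0⟩, ⟨0, 0, 1⟩⟩,
   ⟨⟨1, 0, 0⟩, ⟨0, 1, 0⟩, ⟨0, 0, -1⟩⟩,
   ⟨⟨1, 0, 0⟩, ⟨0, -1, 0⟩, ⟨0, 0, 1⟩⟩,
   ⟨⟨1, 0, 0⟩, ⟨0, -1, 0⟩, ⟨0, 0, -1⟩⟩,
   ⟨⟨0, 1, 0⟩, ⟨1, 0, 0⟩, ⟨0, 0, 1⟩⟩,
   ⟨⟨0, 1, 0⟩, ⟨1, 0, 0⟩, ⟨0, 0, -1⟩⟩,
   ⟨⟨0, 1, 0⟩, ⟨-1, 0, 0⟩, ⟨0, 0, 1⟩⟩,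
   ⟨⟨0, 1, 0⟩, ⟨-1, 0, 0⟩, ⟨0, 0, -1⟩⟩,
   ⟨⟨0, -1, 0⟩, ⟨1, 0, 0⟩, ⟨0, 0, 1⟩⟩,
   ⟨⟨0, -1, 0⟩, ⟨1, 0, 0⟩, ⟨0, 0, -1⟩⟩,
   ⟨⟨0, -1, 0⟩, ⟨-1, 0, 0⟩, ⟨0, 0, 1⟩⟩,
   ⟨⟨0, -1, 0⟩, ⟨-1, 0, 0⟩, ⟨0, 0, -1⟩⟩,
   ⟨⟨-1, 0, 0⟩, ⟨0, 1, 0⟩, ⟨0, 0, 1⟩⟩,
   ⟨⟨-1, 0, 0⟩, ⟨0, 1, 0⟩, ⟨0, 0, -1⟩⟩,
   ⟨⟨-1, 0, 0⟩, ⟨0, -1, 0⟩, ⟨0, 0, 1⟩⟩,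
   ⟨⟨-1, 0, 0⟩, ⟨0, -1, 0⟩, ⟨0, 0, -1⟩⟩]

/-- The 24 automorphisms of the hexagonal frame. -/
def hexAuts : List IM :=
  [⟨⟨1, 0, 0⟩, ⟨0, 1, 0⟩, ⟨0, 0, 1⟩⟩,
   ⟨⟨1, 0, 0⟩, ⟨1, -1, 0⟩, ⟨0, 0, 1⟩⟩,
   ⟨⟨1, 0, 0⟩, ⟨1, -1, 0⟩, ⟨0, 0, -1⟩⟩,
   ⟨⟨1, 0, 0⟩, ⟨0, 1, 0⟩, ⟨0, 0, -1⟩⟩,
   ⟨⟨1, -1, 0⟩, ⟨1, 0, 0⟩, ⟨0, 0, 1⟩⟩,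
   ⟨⟨1, -1, 0⟩, ⟨1, 0, 0⟩, ⟨0, 0, -1⟩⟩,
   ⟨⟨1, -1, 0⟩, ⟨0, -1, 0⟩, ⟨0, 0, 1⟩⟩,
   ⟨⟨1, -1, 0⟩, ⟨0, -1, 0⟩, ⟨0, 0, -1⟩⟩,
   ⟨⟨0, 1, 0⟩, ⟨1, 0, 0⟩, ⟨0, 0, 1⟩⟩,
   ⟨⟨0, 1, 0⟩, ⟨1, 0, 0⟩, ⟨0, 0, -1⟩⟩,
   ⟨⟨0, 1, 0⟩, ⟨-1, 1, 0⟩, ⟨0, 0, 1⟩⟩,
   ⟨⟨0, 1, 0⟩, ⟨-1, 1, 0⟩, ⟨0, 0, -1⟩⟩,
   ⟨⟨0, -1, 0⟩, ⟨1, -1, 0⟩, ⟨0, 0, 1⟩⟩,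
   ⟨⟨0, -1, 0⟩, ⟨1, -1, 0⟩, ⟨0, 0, -1⟩⟩,
   ⟨⟨0, -1, 0⟩, ⟨-1, 0, 0⟩, ⟨0, 0, 1⟩⟩,
   ⟨⟨0, -1, 0⟩, ⟨-1, 0, 0⟩, ⟨0, 0, -1⟩⟩,
   ⟨⟨-1, 1, 0⟩, ⟨0, 1, 0⟩, ⟨0, 0, 1⟩⟩,
   ⟨⟨-1, 1, 0⟩, ⟨0, 1, 0⟩, ⟨0, 0, -1⟩⟩,
   ⟨⟨-1, 1, 0⟩, ⟨-1, 0, 0⟩, ⟨0, 0, 1⟩⟩,
   ⟨⟨-1, 1, 0⟩, ⟨-1, 0, 0⟩, ⟨0, 0, -1⟩⟩,
   ⟨⟨-1, 0, 0⟩, ⟨0, -1, 0⟩, ⟨0, 0, 1⟩⟩,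
   ⟨⟨-1, 0, 0⟩, ⟨0, -1, 0⟩, ⟨0, 0, -1⟩⟩,
   ⟨⟨-1, 0, 0⟩, ⟨-1, 1, 0⟩, ⟨0, 0, 1⟩⟩,
   ⟨⟨-1, 0, 0⟩, ⟨-1, 1, 0⟩, ⟨0, 0, -1⟩⟩]

/-- The 8 diagonal matrices with entries `1` and `-1`. -/
def ortAuts : List IM :=
  [⟨⟨1, 0, 0⟩, ⟨0, 1, 0⟩, ⟨0, 0, 1⟩⟩,
   ⟨⟨1, 0, 0⟩, ⟨0, 1, 0⟩, ⟨0, 0, -1⟩⟩,
   ⟨⟨1, 0, 0⟩, ⟨0, -1, 0⟩, ⟨0, 0, 1⟩⟩,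
   ⟨⟨1, 0, 0⟩, ⟨0, -1, 0⟩, ⟨0, 0, -1⟩⟩,
   ⟨⟨-1, 0, 0⟩, ⟨0, 1, 0⟩, ⟨0, 0, 1⟩⟩,
   ⟨⟨-1, 0, 0⟩, ⟨0, 1, 0⟩, ⟨0, 0, -1⟩⟩,
   ⟨⟨-1, 0, 0⟩, ⟨0, -1, 0⟩, ⟨0, 0, 1⟩⟩,
   ⟨⟨-1, 0, 0⟩, ⟨0, -1, 0⟩, ⟨0, 0, -1⟩⟩]

/-- The matrices, with respect to the frame, of the isometries that preserve the frame (up to sign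
and order of its vectors; for the hexagonal frame, the planar lattice of the frame). -/
def Kind.auts : Kind → List IM
  | .cub => cubAuts
  | .tet => tetAuts
  | .hex => hexAuts
  | .ort => ortAuts

end Pool.Agent.H21.FT
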