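import Pool.Agent.H21.FT.ListSplit
import Pool.Agent.H21.FT.IM
import Pool.Agent.H70.FT.Groups
import Pool.Agent.H38.FT.GroupDefs

/-!
# Irreducible discrete groups are cubic
-/

namespace Pool.Agent.H21.FT

open Matrix
open Pool.Agent.H38.FT (Tag gen gr IsFinGroup)

namespace Irr

theorem isAff_unique {g : Equiv.Perm V3} {M M' : M3} {a a' : V3} (h : IsAff g M a)
    (h' : IsAff g M' a') : M = M' ∧ a = a' := by
  have h0 : a = a' := by
    have h1 := h 0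
    have h2 := h' 0
    rw [mulVec_zero, zero_add] at h1 h2
    exact h1.symm.trans h2
  refine ⟨?_, h0⟩
  apply Matrix.ext_of_mulVec_single
  intro i
  have h1 := h (Pi.single i 1)
  have h2 := h' (Pi.single i 1)
  rw [h1, h0] at h2
  exact add_right_cancel h2

theorem isAff_one : IsAff 1 1 0 := fun x => by simp

theorem isAff_mul {g h : Equiv.Perm V3} {M N : M3} {a b : V3} (hg : IsAff g M a)
    (hh : IsAff h N b) : IsAff (g * h) (M * N) (M *ᵥ b + a) := fun x => by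
  rw [Equiv.Perm.mul_apply, hh, hg, mulVec_add, mulVec_mulVec, add_assoc]

theorem isAff_inv {g : Equiv.Perm V3} {M : M3} {a : V3} (hg : IsAff g M a) (hM : Mᵀ * M = 1) :
    IsAff g⁻¹ Mᵀ (-(Mᵀ *ᵥ a)) := fun x => by
  have hM' : M * Mᵀ = 1 := mul_eq_one_comm.1 hM
  rw [Equiv.Perm.inv_eq_iff_eq, hg, mulVec_add, mulVec_mulVec, hM', one_mulVec, mulVec_neg,
    mulVec_mulVec, hM', one_mulVec, neg_add_cancel_right]

variable {Γ : Subgroup (Equiv.Perm V3)}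

theorem orth (hi : Iso Γ) {M : M3} (hM : M ∈ lin Γ) : Mᵀ * M = 1 := by
  obtain ⟨g, hg, a, hga⟩ := hM
  obtain ⟨M', a', h1, h2⟩ := hi g hg
  rw [(isAff_unique hga h2).1]
  exact h1

theorem isFinGroup (hi : Iso Γ) (hfin : (lin Γ).Finite) : IsFinGroup (lin Γ) where
  fin := hfin
  one := ⟨1, Γ.one_mem, 0, isAff_one⟩
  mul := by
    rintro A ⟨g, hg, a, hA⟩ B ⟨h, hh, b, hB⟩
    exact ⟨g * h, Γ.mul_mem hg hh, _, isAff_mul hA hB⟩
  orth := fun A hA => orth hi hA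
  tr := by
    intro A hA
    have hAo := orth hi hA
    obtain ⟨g, hg, a, hga⟩ := hA
    exact ⟨g⁻¹, Γ.inv_mem hg, _, isAff_inv hga hAo⟩

theorem exists_trans (hi : Iso Γ) (hfin : (lin Γ).Finite)
    (hinf : {x : V3 | ∃ g ∈ Γ, x = g 0}.Infinite) : ∃ t : V3, t ≠ 0 ∧ IsTrans Γ t := by
  classical
  have h1 : ∀ x : V3, ∃ M : M3, x ∈ {x : V3 | ∃ g ∈ Γ, x = g 0} →
      M ∈ lin Γ ∧ ∃ g ∈ Γ, IsAff g M x := by
    intro x
    by_cases hx : x ∈ {x : V3 | ∃ g ∈ Γ, x = g 0}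
    · obtain ⟨g, hg, rfl⟩ := hx
      obtain ⟨M, a, -, h2⟩ := hi g hg
      have ha : a = g 0 := by
        have := h2 0
        rw [mulVec_zero, zero_add] at this
        exact this.symm
      exact ⟨M, fun _ => ⟨⟨g, hg, a, h2⟩, g, hg, ha ▸ h2⟩⟩
    · exact ⟨1, fun h => absurd h hx⟩
  choose f hf using h1
  obtain ⟨x, hx, y, hy, hxy, hfe⟩ := hinf.exists_ne_map_eq_of_mapsTo (f := f)
    (fun x hx => (hf x hx).1) hfin
  obtain ⟨hl, g, hg, hgx⟩ := hf x hx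
  obtain ⟨-, g', hg', hgy⟩ := hf y hy
  rw [← hfe] at hgy
  have ho := orth hi hl
  have h2 := isAff_mul (isAff_inv hgx ho) hgy
  rw [ho] at h2
  refine ⟨_, ?_, g⁻¹ * g', Γ.mul_mem (Γ.inv_mem hg) hg', h2⟩
  intro h0
  apply hxy
  have h3 : (f x)ᵀ *ᵥ (y - x) = 0 := by
    rw [mulVec_sub, sub_eq_add_neg]
    exact h0
  have h4 := congrArg (f x *ᵥ ·) h3
  simp only [mulVec_mulVec, mulVec_zero] at h4
  rw [mul_eq_one_comm.1 ho, one_mulVec, sub_eq_zero] at h4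
  exact h4.symm

theorem isTrans_add {s t : V3} (hs : IsTrans Γ s) (ht : IsTrans Γ t) : IsTrans Γ (s + t) := by
  obtain ⟨g, hg, h1⟩ := hs
  obtain ⟨h, hh, h2⟩ := ht
  have h3 := isAff_mul h1 h2
  rw [one_mul, one_mulVec, add_comm] at h3
  exact ⟨g * h, Γ.mul_mem hg hh, h3⟩

theorem isTrans_neg {t : V3} (ht : IsTrans Γ t) : IsTrans Γ (-t) := by
  obtain ⟨g, hg, h1⟩ := ht
  have h3 := isAff_inv h1 (by simp)
  rw [transpose_one, one_mulVec] at h3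
  exact ⟨g⁻¹, Γ.inv_mem hg, h3⟩

theorem isTrans_lin (hi : Iso Γ) {M : M3} (hM : M ∈ lin Γ) {t : V3} (ht : IsTrans Γ t) :
    IsTrans Γ (M *ᵥ t) := by
  have ho := orth hi hM
  obtain ⟨g, hg, a, h1⟩ := hM
  obtain ⟨h, hh, h2⟩ := ht
  have h3 := isAff_mul (isAff_mul h1 h2) (isAff_inv h1 ho)
  have e1 : M * 1 * Mᵀ = 1 := by rw [mul_one, mul_eq_one_comm.1 ho]
  have e2 : (M * 1) *ᵥ -(Mᵀ *ᵥ a) + (M *ᵥ t + a) = M *ᵥ t := by
    rw [mul_one, mulVec_neg, mulVec_mulVec, mul_eq_one_comm.1 ho, one_mulVec]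
    abel
  rw [e1, e2] at h3
  exact ⟨g * h * g⁻¹, Γ.mul_mem (Γ.mul_mem hg hh) (Γ.inv_mem hg), h3⟩

theorem trans_disc (hd : Disc Γ) (R : ℝ) : {t : V3 | IsTrans Γ t ∧ ∀ i, |t i| ≤ R}.Finite := by
  refine ((hd R).image (fun g => g 0)).subset ?_
  rintro t ⟨⟨g, hg, h1⟩, h2⟩
  have h3 : g 0 = t := by rw [h1, mulVec_zero, zero_add]
  exact ⟨g, ⟨hg, fun i => by rw [h3]; exact h2 i⟩, h3⟩

/-- A discrete set of translations contains no multiples by arbitrarily small factors. -/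
theorem eq_zero_of_scale (hd : Disc Γ) {v : V3} {r : ℝ} (hr0 : 0 < r) (hr1 : r < 1)
    (h : ∀ k : ℕ, IsTrans Γ (r ^ k • v)) : v = 0 := by
  by_contra hv
  obtain ⟨R, hR⟩ : ∃ R : ℝ, ∀ i, |v i| ≤ R := by
    refine ⟨∑ i, |v i|, fun i => ?_⟩
    exact Finset.single_le_sum (f := fun i => |v i|) (fun i _ => abs_nonneg _) (Finset.mem_univ i)
  have h1 : Function.Injective fun k : ℕ => r ^ k • v := by
    intro k l hkl
    have h2 : r ^ k = r ^ l := by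
      have h3 : (r ^ k - r ^ l) • v = 0 := by
        rw [sub_smul]
        exact sub_eq_zero.2 hkl
      rcases smul_eq_zero.1 h3 with h4 | h4
      · exact sub_eq_zero.1 h4
      · exact absurd h4 hv
    exact pow_right_injective₀ hr0 hr1.ne h2
  have h2 : (Set.range fun k : ℕ => r ^ k • v).Infinite := Set.infinite_range_of_injective h1
  apply h2
  refine (trans_disc hd R).subset ?_
  rintro _ ⟨k, rfl⟩
  refine ⟨h k, fun i => ?_⟩
  change |(r ^ k • v) i| ≤ R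
  rw [Pi.smul_apply, smul_eq_mul, abs_mul, abs_of_pos (pow_pos hr0 k)]
  calc r ^ k * |v i| ≤ 1 * |v i| :=
        mul_le_mul_of_nonneg_right (pow_le_one₀ hr0.le hr1.le) (abs_nonneg _)
    _ ≤ R := by rw [one_mul]; exact hR i

theorem gr_sq : gr ^ 2 = gr + 1 := Real.goldenRatio_sq

/-- The rotation of order five acts on the plane perpendicular to its axis. -/
theorem p_identity : (gen .p + (gen .p)ᵀ) * (gen .p - 1) = (gr - 1) • (gen .p - 1) := by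
  have h := gr_sq
  generalize hg : gr = g at h
  have hp : gen .p = !![(g - 1) / 2, -g / 2, 1 / 2; g / 2, 1 / 2, (g - 1) / 2;
      -1 / 2, (g - 1) / 2, g / 2] := by rw [← hg]; rfl
  have hpT : (gen .p)ᵀ = !![(g - 1) / 2, g / 2, -1 / 2; -g / 2, 1 / 2, (g - 1) / 2;
      1 / 2, (g - 1) / 2, g / 2] := by
    rw [hp]
    ext i j
    fin_cases i <;> fin_cases j <;> rfl
  rw [hpT, hp]
  ext i j
  fin_cases i <;> fin_cases j <;>
    simp [Matrix.mul_apply, Fin.sum_univ_three] <;> ring_nf <;> linarith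

theorem p_fix {t : V3} (h : gen .p *ᵥ t = t) : t 0 = 0 ∧ t 2 = gr * t 1 := by
  have hg := gr_sq
  generalize hg' : gr = g at hg ⊢
  have hp : gen .p = !![(g - 1) / 2, -g / 2, 1 / 2; g / 2, 1 / 2, (g - 1) / 2;
      -1 / 2, (g - 1) / 2, g / 2] := by rw [← hg']; rfl
  rw [hp] at h
  have h0 := congrFun h 0
  have h1 := congrFun h 1
  simp only [Matrix.mulVec, dotProduct, Fin.sum_univ_three, Matrix.of_apply, Matrix.cons_val_zero,
    Matrix.cons_val_one, Matrix.cons_val] at h0 h1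
  have hg1 : 1 < g := by rw [← hg']; exact Real.one_lt_goldenRatio
  have hx : t 0 = 0 := by
    have h2 : (4 * g - 4) * t 0 = 0 := by
      linear_combination (-2 * (g - 1)) * h0 + 2 * h1 + (t 0 - t 1) * hg
    rcases mul_eq_zero.1 h2 with h3 | h3
    · linarith
    · exact h3
  refine ⟨hx, ?_⟩
  rw [hx] at h0
  linarith

/-- A discrete group with translations whose linear parts contain the rotation group of the
icosahedron does not exist. -/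
theorem no_ico (hi : Iso Γ) (hd : Disc Γ) {U : M3} (hU : Uᵀ * U = 1)
    (hp : U * gen .p * Uᵀ ∈ lin Γ) (hc : U * gen .c * Uᵀ ∈ lin Γ) {t : V3} (ht : IsTrans Γ t) :
    t = 0 := by
  have hU' : U * Uᵀ = 1 := mul_eq_one_comm.1 hU
  have hgr : 1 < gr := Real.one_lt_goldenRatio
  have hgr2 : gr < 2 := Real.goldenRatio_lt_two
  set A := U * gen .p * Uᵀ with hA
  have hAT : Aᵀ = U * (gen .p)ᵀ * Uᵀ := by
    rw [hA, transpose_mul, transpose_mul, transpose_transpose, Matrix.mul_assoc]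
  have hid : (A + Aᵀ) * (A - 1) = (gr - 1) • (A - 1) := by
    have e1 : A + Aᵀ = U * (gen .p + (gen .p)ᵀ) * Uᵀ := by
      rw [hAT, Matrix.mul_add, Matrix.add_mul]
    have e2 : A - 1 = U * (gen .p - 1) * Uᵀ := by
      rw [Matrix.mul_sub, Matrix.sub_mul, Matrix.mul_one, hU']
    rw [e1, e2]
    calc U * (gen .p + (gen .p)ᵀ) * Uᵀ * (U * (gen .p - 1) * Uᵀ)
        = U * (gen .p + (gen .p)ᵀ) * (Uᵀ * U) * (gen .p - 1) * Uᵀ := by noncomm_ring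
      _ = U * ((gen .p + (gen .p)ᵀ) * (gen .p - 1)) * Uᵀ := by rw [hU]; noncomm_ring
      _ = _ := by
        rw [p_identity, Matrix.mul_smul, Matrix.smul_mul]
  have hAt : Aᵀ ∈ lin Γ := by
    have ho := orth hi hp
    obtain ⟨g, hg, a, hga⟩ := hp
    exact ⟨g⁻¹, Γ.inv_mem hg, _, isAff_inv hga ho⟩
  -- every translation is fixed by the rotation
  have key : ∀ t, IsTrans Γ t → A *ᵥ t = t := by
    intro t ht
    have hv0 : IsTrans Γ ((A - 1) *ᵥ t) := by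
      rw [sub_mulVec, one_mulVec, sub_eq_add_neg]
      exact isTrans_add (isTrans_lin hi hp ht) (isTrans_neg ht)
    have h1 : (A - 1) *ᵥ t = 0 := by
      refine eq_zero_of_scale hd (r := gr - 1) (by linarith) (by linarith) fun k => ?_
      induction k with
      | zero => rw [pow_zero, one_smul]; exact hv0
      | succ k ih =>
        have e1 : (gr - 1) ^ (k + 1) • ((A - 1) *ᵥ t) =
            A *ᵥ ((gr - 1) ^ k • ((A - 1) *ᵥ t)) + Aᵀ *ᵥ ((gr - 1) ^ k • ((A - 1) *ᵥ t)) := by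
          rw [← add_mulVec, mulVec_smul, mulVec_mulVec, hid, smul_mulVec, smul_smul, pow_succ]
        rw [e1]
        exact isTrans_add (isTrans_lin hi hp ih) (isTrans_lin hi hAt ih)
    rwa [sub_mulVec, one_mulVec, sub_eq_zero] at h1
  have h1 := key t ht
  have hct : (U * gen .c * Uᵀ)ᵀ ∈ lin Γ := by
    have ho := orth hi hc
    obtain ⟨g, hg, a, hga⟩ := hc
    exact ⟨g⁻¹, Γ.inv_mem hg, _, isAff_inv hga ho⟩
  have h2 := key _ (isTrans_lin hi hct ht)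
  have h3 : gen .p *ᵥ (Uᵀ *ᵥ t) = Uᵀ *ᵥ t := by
    have := congrArg (Uᵀ *ᵥ ·) h1
    simp only [mulVec_mulVec] at this
    rw [hA, ← Matrix.mul_assoc, ← Matrix.mul_assoc, hU, Matrix.one_mul] at this
    rw [mulVec_mulVec]
    exact this
  have h4 : gen .p *ᵥ ((gen .c)ᵀ *ᵥ (Uᵀ *ᵥ t)) = (gen .c)ᵀ *ᵥ (Uᵀ *ᵥ t) := by
    have := congrArg (Uᵀ *ᵥ ·) h2
    simp only [mulVec_mulVec] at this
    rw [transpose_mul, transpose_mul, transpose_transpose, hA] at this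
    have e1 : Uᵀ * (U * (gen .c)ᵀ * Uᵀ) = (gen .c)ᵀ * Uᵀ := by
      rw [← Matrix.mul_assoc, ← Matrix.mul_assoc, hU, Matrix.one_mul]
    have e2 : Uᵀ * (U * gen .p * Uᵀ * (U * (gen .c)ᵀ * Uᵀ)) = gen .p * ((gen .c)ᵀ * Uᵀ) := by
      calc Uᵀ * (U * gen .p * Uᵀ * (U * (gen .c)ᵀ * Uᵀ))
          = (Uᵀ * U) * gen .p * (Uᵀ * U) * ((gen .c)ᵀ * Uᵀ) := by noncomm_ring
        _ = _ := by rw [hU]; noncomm_ring
    rw [← Matrix.mul_assoc U, e2, e1] at this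
    have e3 : (gen .c)ᵀ *ᵥ (Uᵀ *ᵥ t) = ((gen .c)ᵀ * Uᵀ) *ᵥ t := mulVec_mulVec _ _ _
    rw [e3, mulVec_mulVec]
    exact this
  have h5 := p_fix h3
  have h6 := p_fix h4
  have hc0 : ((gen .c)ᵀ *ᵥ (Uᵀ *ᵥ t)) 0 = (Uᵀ *ᵥ t) 1 := by
    simp [gen, Matrix.mulVec, dotProduct, Fin.sum_univ_three]
  have h7 : Uᵀ *ᵥ t = 0 := by
    have e1 : (Uᵀ *ᵥ t) 1 = 0 := by rw [← hc0]; exact h6.1
    have e2 : (Uᵀ *ᵥ t) 2 = 0 := by rw [h5.2, e1, mul_zero]
    funext i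
    fin_cases i
    · exact h5.1
    · exact e1
    · exact e2
  have h8 := congrArg (U *ᵥ ·) h7
  simp only [mulVec_mulVec, mulVec_zero] at h8
  rwa [hU', one_mulVec] at h8

theorem mul_mat (M N : IM) : (M.mul N).mat = M.mat * N.mat := by
  ext i j
  fin_cases i <;> fin_cases j <;>
    simp [IM.mul, IM.mat, IM.vm, IV.add, IV.smul, Matrix.mul_apply, Fin.sum_univ_three]

set_option maxRecDepth 100000 in
theorem cubAuts_mul_p0 : ∀ M ∈ (cubAuts.drop 0).take 12, ∀ N ∈ cubAuts, M.mul N ∈ cubAuts := by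
  decide +kernel

set_option maxRecDepth 100000 in
theorem cubAuts_mul_p1 : ∀ M ∈ (cubAuts.drop 12).take 12, ∀ N ∈ cubAuts, M.mul N ∈ cubAuts := by
  decide +kernel

set_option maxRecDepth 100000 in
theorem cubAuts_mul_p2 : ∀ M ∈ (cubAuts.drop 24).take 12, ∀ N ∈ cubAuts, M.mul N ∈ cubAuts := by
  decide +kernel

set_option maxRecDepth 100000 in
theorem cubAuts_mul_p3 : ∀ M ∈ cubAuts.drop 36, ∀ N ∈ cubAuts, M.mul N ∈ cubAuts := by
  decide +kernel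

theorem cubAuts_mul : ∀ M ∈ cubAuts, ∀ N ∈ cubAuts, M.mul N ∈ cubAuts := by
  change ∀ M ∈ cubAuts.drop 0, _
  refine mem_step 0 12 cubAuts_mul_p0 ?_
  refine mem_step 12 12 cubAuts_mul_p1 ?_
  refine mem_step 24 12 cubAuts_mul_p2 ?_
  exact cubAuts_mul_p3

theorem group_cub {t : Tag} (h1 : t ≠ .I) (h2 : t ≠ .Ih) {M : M3} (hM : M ∈ t.group) :
    ∃ N ∈ cubAuts, M = N.mat := by
  refine Submonoid.closure_induction ?_ ?_ ?_ hM
  · rintro _ ⟨l, hl, rfl⟩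
    cases l with
    | c => exact ⟨⟨⟨0, 0, 1⟩, ⟨1, 0, 0⟩, ⟨0, 1, 0⟩⟩, by decide, by simp [gen, IM.mat]⟩
    | d => exact ⟨⟨⟨1, 0, 0⟩, ⟨0, -1, 0⟩, ⟨0, 0, -1⟩⟩, by decide, by simp [gen, IM.mat]⟩
    | q => exact ⟨⟨⟨0, -1, 0⟩, ⟨1, 0, 0⟩, ⟨0, 0, 1⟩⟩, by decide, by simp [gen, IM.mat]⟩
    | p => cases t <;> simp_all [Tag.letters]
    | n => exact ⟨⟨⟨-1, 0, 0⟩, ⟨0, -1, 0⟩, ⟨0, 0, -1⟩⟩, by decide, by simp [gen, IM.mat]⟩
    | s => exact ⟨⟨⟨0, 1, 0⟩, ⟨1, 0, 0⟩, ⟨0, 0, 1⟩⟩, by decide, by simp [gen, IM.mat]⟩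
  · refine ⟨⟨⟨1, 0, 0⟩, ⟨0, 1, 0⟩, ⟨0, 0, 1⟩⟩, by decide, ?_⟩
    ext i j
    fin_cases i <;> fin_cases j <;> simp [IM.mat]
  · rintro _ _ _ _ ⟨N, hN, rfl⟩ ⟨N', hN', rfl⟩
    exact ⟨N.mul N', cubAuts_mul N hN N' hN', (mul_mat N N').symm⟩

theorem gen_mem {t : Tag} {l : Pool.Agent.H38.FT.Letter} (h : l ∈ t.letters) :
    gen l ∈ t.group := Submonoid.subset_closure ⟨l, h, rfl⟩

end Irr

open Irr

theorem irr_signed {Γ : Subgroup (Equiv.Perm V3)} (hi : Iso Γ) (hd : Disc Γ)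
    (hfin : (lin Γ).Finite)
    (hirr : ∀ u : V3, u ≠ 0 → ∃ M ∈ lin Γ, M *ᵥ u ≠ u ∧ M *ᵥ u ≠ -u)
    (hinf : {x : V3 | ∃ g ∈ Γ, x = g 0}.Infinite) :
    (∃ t : V3, t ≠ 0 ∧ IsTrans Γ t) ∧ ∃ U : M3, Uᵀ * U = 1 ∧
      (∀ M ∈ lin Γ, ∃ N ∈ cubAuts, Uᵀ * M * U = N.mat) ∧
      (∃ M ∈ lin Γ, Uᵀ * M * U = !![0, 0, 1; 1, 0, 0; 0, 1, 0]) ∧
      (∃ M ∈ lin Γ, Uᵀ * M * U = !![1, 0, 0; 0, -1, 0; 0, 0, -1]) := by
  obtain ⟨t, ht0, ht⟩ := exists_trans hi hfin hinf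
  refine ⟨⟨t, ht0, ht⟩, ?_⟩
  obtain ⟨U, hU, τ, hτ⟩ := Pool.Agent.H70.FT.finite_groups (lin Γ) (isFinGroup hi hfin) hirr
  have hconj : ∀ N : M3, Uᵀ * (U * N * Uᵀ) * U = N := fun N => by
    calc Uᵀ * (U * N * Uᵀ) * U = (Uᵀ * U) * N * (Uᵀ * U) := by noncomm_ring
      _ = N := by rw [hU, Matrix.one_mul, Matrix.mul_one]
  have hmem : ∀ l ∈ τ.letters, U * gen l * Uᵀ ∈ lin Γ := fun l hl => by
    rw [hτ, hconj]
    exact gen_mem hl
  have hcm : (Pool.Agent.H38.FT.Letter.c) ∈ τ.letters := by cases τ <;> decide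
  have hdm : (Pool.Agent.H38.FT.Letter.d) ∈ τ.letters := by cases τ <;> decide
  have hI : τ ≠ .I := by
    rintro rfl
    exact ht0 (no_ico hi hd hU (hmem .p (by decide)) (hmem .c hcm) ht)
  have hIh : τ ≠ .Ih := by
    rintro rfl
    exact ht0 (no_ico hi hd hU (hmem .p (by decide)) (hmem .c hcm) ht)
  refine ⟨U, hU, fun M hM => group_cub hI hIh ((hτ M).1 hM), ⟨_, hmem .c hcm, hconj _⟩,
    ⟨_, hmem .d hdm, hconj _⟩⟩

end Pool.Agent.H21.FT
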