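import Pool.Agent.H21.FT.AxialAux
import Pool.Agent.H21.FT.Cnj
import Pool.Agent.H21.FT.DefsE

/-!
# Conjugation by linear maps, for the linear classification
-/

namespace Pool.Agent.H21.FT

open Matrix

namespace LinC

/-! ### Affine maps -/

theorem isAff_zero {g : Equiv.Perm V3} {M : M3} {a : V3} (h : IsAff g M a) : g 0 = a := by
  rw [h 0, mulVec_zero, zero_add]

theorem exists_perm {Q Qi : M3} (h : Q * Qi = 1) :
    ∃ f : Equiv.Perm V3, IsAff f Q 0 ∧ IsAff f⁻¹ Qi 0 := by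
  have h' : Qi * Q = 1 := mul_eq_one_comm.1 h
  refine ⟨⟨fun x => Q *ᵥ x, fun x => Qi *ᵥ x, ?_, ?_⟩, ?_, ?_⟩
  · intro x
    simp only [mulVec_mulVec, h', one_mulVec]
  · intro x
    simp only [mulVec_mulVec, h, one_mulVec]
  · intro x
    rw [add_zero]
    rfl
  · intro x
    rw [add_zero]
    rfl

/-- Hypotheses on the conjugating map. -/
structure Cj (f : Equiv.Perm V3) (Q Qi : M3) : Prop where
  aff : IsAff f Q 0
  affi : IsAff f⁻¹ Qi 0
  mul : Q * Qi = 1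

variable {f : Equiv.Perm V3} {Q Qi : M3} {Γ Γ' : Subgroup (Equiv.Perm V3)}

theorem Cj.mul' (hf : Cj f Q Qi) : Qi * Q = 1 := mul_eq_one_comm.1 hf.mul

theorem Cj.f0 (hf : Cj f Q Qi) : f 0 = 0 := isAff_zero hf.aff

theorem Cj.fi0 (hf : Cj f Q Qi) : f⁻¹ 0 = 0 := isAff_zero hf.affi

theorem Cj.zero (hf : Cj f Q Qi) (g : Equiv.Perm V3) : (f * g * f⁻¹) 0 = Q *ᵥ g 0 := by
  rw [Equiv.Perm.mul_apply, Equiv.Perm.mul_apply, hf.fi0, hf.aff, add_zero]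

theorem Cj.up (hf : Cj f Q Qi) {g : Equiv.Perm V3} {M : M3} {a : V3} (h : IsAff g M a) :
    IsAff (f * g * f⁻¹) (Q * M * Qi) (Q *ᵥ a) := by
  have h1 := (hf.aff.mul h).mul hf.affi
  simpa using h1

theorem Cj.down (hf : Cj f Q Qi) {g : Equiv.Perm V3} {M : M3} {a : V3}
    (h : IsAff (f * g * f⁻¹) M a) : IsAff g (Qi * M * Q) (Qi *ᵥ a) := by
  have h1 := (hf.affi.mul h).mul hf.aff
  have e : f⁻¹ * (f * g * f⁻¹) * f = g := by group
  rw [e] at h1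
  simpa using h1

/-- `Γ` is the conjugate of `Γ'` by `f`. -/
structure Rel2 (f : Equiv.Perm V3) (Γ Γ' : Subgroup (Equiv.Perm V3)) : Prop where
  a : ∀ g ∈ Γ', f * g * f⁻¹ ∈ Γ
  b : ∀ g ∈ Γ, ∃ g' ∈ Γ', g = f * g' * f⁻¹

theorem rel2_map : Rel2 f (Γ'.map (MulAut.conj f).toMonoidHom) Γ' := by
  constructor
  · intro g hg
    exact ⟨g, hg, rfl⟩
  · rintro g ⟨g', hg', rfl⟩
    exact ⟨g', hg', rfl⟩

theorem disc (hf : Cj f Q Qi) (hr : Rel2 f Γ Γ') (hd : Disc Γ) : Disc Γ' := by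
  intro R
  have hinj : Function.Injective fun g : Equiv.Perm V3 => f * g * f⁻¹ := by
    intro g g' hgg
    simpa using hgg
  refine ((hd (∑ i, ∑ j, |Q i j| * |R|)).preimage hinj.injOn).subset ?_
  rintro g ⟨hg, hb⟩
  refine ⟨hr.a g hg, ?_⟩
  intro i
  have e : (fun g : Equiv.Perm V3 => f * g * f⁻¹) g 0 = Q *ᵥ g 0 := hf.zero g
  rw [e, mulVec, dotProduct]
  calc |∑ j, Q i j * g 0 j| ≤ ∑ j, |Q i j * g 0 j| := Finset.abs_sum_le_sum_abs _ _
    _ ≤ ∑ j, |Q i j| * |R| := by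
        apply Finset.sum_le_sum
        intro j _
        rw [abs_mul]
        exact mul_le_mul_of_nonneg_left ((hb j).trans (le_abs_self R)) (abs_nonneg _)
    _ ≤ ∑ i, ∑ j, |Q i j| * |R| :=
        Finset.single_le_sum (f := fun i => ∑ j, |Q i j| * |R|)
          (fun i _ => Finset.sum_nonneg fun j _ => mul_nonneg (abs_nonneg _) (abs_nonneg _))
          (Finset.mem_univ i)

theorem spans (hf : Cj f Q Qi) (hr : Rel2 f Γ Γ') (hsp : Spans {x | ∃ g ∈ Γ, x = g 0}) :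
    Spans {x | ∃ g ∈ Γ', x = g 0} := by
  intro n hn
  have hn' : n ᵥ* Qi ≠ 0 := by
    intro h0
    apply hn
    have := congrArg (fun v => v ᵥ* Q) h0
    simp only [vecMul_vecMul, hf.mul', vecMul_one, zero_vecMul] at this
    exact this
  obtain ⟨x, ⟨g, hg, rfl⟩, hx⟩ := hsp _ hn'
  obtain ⟨g', hg', rfl⟩ := hr.b g hg
  refine ⟨g' 0, ⟨g', hg', rfl⟩, ?_⟩
  rwa [hf.zero, dotProduct_mulVec, vecMul_vecMul, hf.mul', vecMul_one] at hx

theorem infinite (hf : Cj f Q Qi) (hr : Rel2 f Γ Γ') (hinf : {x | ∃ g ∈ Γ, x = g 0}.Infinite) :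
    {x | ∃ g ∈ Γ', x = g 0}.Infinite := by
  intro hfin
  apply hinf
  refine (hfin.image fun x => Q *ᵥ x).subset ?_
  rintro x ⟨g, hg, rfl⟩
  obtain ⟨g', hg', rfl⟩ := hr.b g hg
  exact ⟨g' 0, ⟨g', hg', rfl⟩, (hf.zero g').symm⟩

theorem lin_iff (hf : Cj f Q Qi) (hr : Rel2 f Γ Γ') {M : M3} :
    M ∈ lin Γ' ↔ Q * M * Qi ∈ lin Γ := by
  constructor
  · rintro ⟨g, hg, a, h⟩
    exact ⟨_, hr.a g hg, _, hf.up h⟩
  · rintro ⟨g, hg, a, h⟩
    obtain ⟨g', hg', rfl⟩ := hr.b g hg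
    refine ⟨g', hg', Qi *ᵥ a, ?_⟩
    have h1 := hf.down h
    have e : Qi * (Q * M * Qi) * Q = M := by
      calc Qi * (Q * M * Qi) * Q = (Qi * Q) * M * (Qi * Q) := by noncomm_ring
        _ = M := by rw [hf.mul', Matrix.one_mul, Matrix.mul_one]
    rwa [e] at h1

theorem trans_iff (hf : Cj f Q Qi) (hr : Rel2 f Γ Γ') {t : V3} :
    IsTrans Γ' t ↔ IsTrans Γ (Q *ᵥ t) := by
  constructor
  · rintro ⟨g, hg, h⟩
    refine ⟨_, hr.a g hg, ?_⟩
    have h1 := hf.up h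
    rwa [Matrix.mul_one, hf.mul] at h1
  · rintro ⟨g, hg, h⟩
    obtain ⟨g', hg', rfl⟩ := hr.b g hg
    refine ⟨g', hg', ?_⟩
    have h1 := hf.down h
    rwa [Matrix.mul_one, hf.mul', mulVec_mulVec, hf.mul', one_mulVec] at h1

theorem iso (hf : Cj f Q Qᵀ) (hr : Rel2 f Γ Γ') (hi : Iso Γ) : Iso Γ' := by
  intro g hg
  obtain ⟨M, a, hM, h⟩ := hi _ (hr.a g hg)
  refine ⟨_, _, ?_, hf.down h⟩
  rw [transpose_mul, transpose_mul, transpose_transpose]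
  calc Qᵀ * (Mᵀ * Q) * (Qᵀ * M * Q) = Qᵀ * (Mᵀ * (Q * Qᵀ) * M) * Q := by noncomm_ring
    _ = Qᵀ * (Mᵀ * M) * Q := by rw [hf.mul, Matrix.mul_one]
    _ = 1 := by rw [hM, Matrix.mul_one, hf.mul']

/-! ### The hypotheses of the classification -/

/-- The hypotheses of `lin_class`. -/
structure Hyp (A B s : Equiv.Perm V3) : Prop where
  d : Disc (grp A B s)
  A0 : A 0 = 0
  B0 : B 0 = 0
  st : ∀ g ∈ grp A B s, g 0 = 0 → g ∈ stab A B
  sp : Spans {x | ∃ g ∈ grp A B s, x = g 0}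
  inf : {x | ∃ g ∈ grp A B s, x = g 0}.Infinite
  A1 : A ≠ 1
  AB : B = 1 ∨ (A * A = 1 ∧ B * B = 1)
  deg : (∀ g ∈ stab A B, g = 1 ∨ g = A) → ∀ g ∈ stab A B, g (s 0) ≠ s⁻¹ 0

theorem cj_eq_one {g : Equiv.Perm V3} : f * g * f⁻¹ = 1 ↔ g = 1 := by
  constructor
  · intro h
    have : g = f⁻¹ * (f * g * f⁻¹) * f := by group
    rw [this, h]; group
  · rintro rfl; group

variable {A B s : Equiv.Perm V3}

theorem rel_grp : Rel2 f (grp (f * A * f⁻¹) (f * B * f⁻¹) (f * s * f⁻¹)) (grp A B s) := by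
  rw [grp_cnj]
  exact rel2_map

theorem rel_stab : Rel2 f (stab (f * A * f⁻¹) (f * B * f⁻¹)) (stab A B) := by
  rw [stab_cnj]
  exact rel2_map

theorem Hyp.down (hf : Cj f Q Qi) (h : Hyp (f * A * f⁻¹) (f * B * f⁻¹) (f * s * f⁻¹)) :
    Hyp A B s where
  d := disc hf rel_grp h.d
  A0 := by
    have h1 := h.A0
    rw [Equiv.Perm.mul_apply, Equiv.Perm.mul_apply, hf.fi0] at h1
    exact f.injective (h1.trans hf.f0.symm)
  B0 := by
    have h1 := h.B0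
    rw [Equiv.Perm.mul_apply, Equiv.Perm.mul_apply, hf.fi0] at h1
    exact f.injective (h1.trans hf.f0.symm)
  st := by
    intro g hg h0
    have h1 := h.st _ (rel_grp.a g hg) (by rw [hf.zero, h0, mulVec_zero])
    obtain ⟨g', hg', e⟩ := rel_stab.b _ h1
    have : g = g' := by simpa using e
    rwa [this]
  sp := spans hf rel_grp h.sp
  inf := infinite hf rel_grp h.inf
  A1 := fun e => h.A1 (cj_eq_one.2 e)
  AB := by
    have e : ∀ g : Equiv.Perm V3, (f * g * f⁻¹) * (f * g * f⁻¹) = f * (g * g) * f⁻¹ := by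
      intro g; group
    rcases h.AB with h1 | ⟨h1, h2⟩
    · exact Or.inl (cj_eq_one.1 h1)
    · rw [e] at h1 h2
      exact Or.inr ⟨cj_eq_one.1 h1, cj_eq_one.1 h2⟩
  deg := by
    intro h1 g hg heq
    refine h.deg ?_ _ (rel_stab.a g hg) ?_
    · intro k hk
      obtain ⟨k', hk', rfl⟩ := rel_stab.b k hk
      rcases h1 k' hk' with rfl | rfl
      · left; group
      · right; rfl
    · have e1 : (f * s * f⁻¹) 0 = f (s 0) := by
        rw [Equiv.Perm.mul_apply, Equiv.Perm.mul_apply, hf.fi0]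
      have e2 : (f * s * f⁻¹)⁻¹ 0 = f (s⁻¹ 0) := by
        have : (f * s * f⁻¹)⁻¹ = f * s⁻¹ * f⁻¹ := by group
        rw [this, Equiv.Perm.mul_apply, Equiv.Perm.mul_apply, hf.fi0]
      have e3 : f⁻¹ (f (s 0)) = s 0 := Equiv.symm_apply_apply f _
      rw [e1, e2, Equiv.Perm.mul_apply, Equiv.Perm.mul_apply, e3, heq]

/-! ### The conclusion -/

theorem conc_up (hf : Cj f Q Qᵀ) (h : Conc A B s) :
    Conc (f * A * f⁻¹) (f * B * f⁻¹) (f * s * f⁻¹) := by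
  obtain ⟨k, P, g, A', B', s', ⟨ρ, hρ, U, hU, b, c, hb, hc, hP⟩, hg, rfl, rfl, rfl, h1⟩ := h
  refine ⟨k, Q * P, f * g, A', B', s', ⟨ρ, hρ, Q * U, ?_, b, c, hb, hc, ?_⟩, ?_, ?_, ?_, ?_, h1⟩
  · rw [transpose_mul]
    calc Uᵀ * Qᵀ * (Q * U) = Uᵀ * (Qᵀ * Q) * U := by noncomm_ring
      _ = 1 := by rw [hf.mul', Matrix.mul_one, hU]
  · rw [hP, Matrix.mul_smul, Matrix.mul_assoc]
  · have := hf.aff.mul hg
    rwa [mulVec_zero, add_zero] at this
  · group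
  · group
  · group

theorem frame_det (k : Kind) {b c : ℝ} (hb : 0 < b) (hc : 0 < c) : (k.frame b c).det ≠ 0 := by
  have h3 : (0 : ℝ) < √3 := Real.sqrt_pos.2 (by norm_num)
  cases k
  · simp [Kind.frame, det_fin_three]
  · simp [Kind.frame, det_fin_three, hc.ne']
  · simp only [Kind.frame, det_fin_three]
    simp [hc.ne']
  · simp [Kind.frame, det_fin_three, hb.ne', hc.ne']

theorem conc_of_conck {k : Kind} {U : M3} (hU : Uᵀ * U = 1) (hf : IsAff f (U * k.frame 1 1) 0)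
    (h : ConcK k A B s) : Conc (f * A * f⁻¹) (f * B * f⁻¹) (f * s * f⁻¹) := by
  obtain ⟨P, g, A', B', s', ⟨ρ, b, c, hρ, hb, hc, hP⟩, hg, rfl, rfl, rfl, h1⟩ := h
  obtain ⟨K, hK⟩ : ∃ K, K = k.frame b c := ⟨_, rfl⟩
  have hdet : IsUnit K.det := by
    rw [hK]
    exact isUnit_iff_ne_zero.2 (frame_det k hb hc)
  have hK1 : K * K⁻¹ = 1 := mul_nonsing_inv _ hdet
  have hK2 : K⁻¹ * K = 1 := nonsing_inv_mul _ hdet
  have hT : (U * k.frame 1 1 * P)ᵀ * (U * k.frame 1 1 * P) = ρ ^ 2 • (Kᵀ * K) := by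
    rw [hK, ← hP, Matrix.mul_assoc, transpose_mul]
    calc (k.frame 1 1 * P)ᵀ * Uᵀ * (U * (k.frame 1 1 * P))
        = (k.frame 1 1 * P)ᵀ * (Uᵀ * U) * (k.frame 1 1 * P) := by noncomm_ring
      _ = (k.frame 1 1 * P)ᵀ * (k.frame 1 1 * P) := by rw [hU, Matrix.mul_one]
  obtain ⟨T, hTe⟩ : ∃ T, T = U * k.frame 1 1 * P := ⟨_, rfl⟩
  rw [← hTe] at hT
  refine ⟨k, T, f * g, A', B', s', ⟨ρ, hρ, ρ⁻¹ • (T * K⁻¹), ?_, b, c, hb, hc, ?_⟩, ?_, ?_, ?_, ?_,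
    Or.inl h1⟩
  · rw [transpose_smul, transpose_mul, Matrix.smul_mul, Matrix.mul_smul, smul_smul]
    calc (ρ⁻¹ * ρ⁻¹) • ((K⁻¹)ᵀ * Tᵀ * (T * K⁻¹)) = (ρ⁻¹ * ρ⁻¹) • ((K⁻¹)ᵀ * (Tᵀ * T) * K⁻¹) := by
          congr 1; noncomm_ring
      _ = (ρ⁻¹ * ρ⁻¹ * ρ ^ 2) • (((K * K⁻¹)ᵀ) * (K * K⁻¹)) := by
          rw [hT, Matrix.mul_smul, Matrix.smul_mul, smul_smul, transpose_mul]
          congr 1; noncomm_ring
      _ = 1 := by
          rw [hK1, transpose_one, Matrix.mul_one]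
          have : ρ⁻¹ * ρ⁻¹ * ρ ^ 2 = 1 := by field_simp
          rw [this, one_smul]
  · rw [← hK, Matrix.smul_mul, smul_smul, mul_inv_cancel₀ hρ.ne', one_smul, Matrix.mul_assoc, hK2,
      Matrix.mul_one]
  · have := hf.mul hg
    rw [mulVec_zero, add_zero] at this
    rwa [hTe]
  · group
  · group
  · group

/-! ### A reflection that moves the third axis -/

theorem exists_orth {u : V3} (hu : u ≠ 0) :
    ∃ U : M3, Uᵀ * U = 1 ∧ ∃ l : ℝ, l ≠ 0 ∧ U *ᵥ e3 = l • u := by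
  have hp : 0 < u ⬝ᵥ u := by
    have h0 : 0 ≤ u ⬝ᵥ u := by
      rw [dotProduct]
      exact Finset.sum_nonneg fun i _ => mul_self_nonneg (u i)
    rcases h0.lt_or_eq with h | h
    · exact h
    · exact absurd (dotProduct_self_eq_zero.1 h.symm) hu
  have hr : 0 < √(u ⬝ᵥ u) := Real.sqrt_pos.2 hp
  obtain ⟨l, hl⟩ : ∃ l : ℝ, l = (√(u ⬝ᵥ u))⁻¹ := ⟨_, rfl⟩
  have hl0 : l ≠ 0 := by rw [hl]; exact inv_ne_zero hr.ne'
  have hl1 : (l • u) ⬝ᵥ (l • u) = 1 := by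
    rw [smul_dotProduct, dotProduct_smul, smul_eq_mul, smul_eq_mul, hl]
    have := Real.mul_self_sqrt hp.le
    field_simp
    rw [sq, this]
  have he : e3 ⬝ᵥ e3 = (1 : ℝ) := by simp [e3, dotProduct, Fin.sum_univ_three]
  obtain ⟨w, hw⟩ : ∃ w, w = e3 - l • u := ⟨_, rfl⟩
  by_cases h0 : w = 0
  · refine ⟨1, by simp, l, hl0, ?_⟩
    rw [one_mulVec]
    rw [h0] at hw
    exact sub_eq_zero.1 hw.symm
  · have hw0 : w ⬝ᵥ w ≠ 0 := fun h => h0 (dotProduct_self_eq_zero.1 h)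
    obtain ⟨q, hq⟩ : ∃ q, q = w ⬝ᵥ w := ⟨_, rfl⟩
    have hq0 : q ≠ 0 := by rw [hq]; exact hw0
    have hqe : 2 * (w ⬝ᵥ e3) = q := by
      rw [hq, hw, sub_dotProduct, sub_dotProduct, dotProduct_sub, dotProduct_sub, he, hl1,
        dotProduct_comm e3 (l • u)]
      ring
    have hww : vecMulVec w w * vecMulVec w w = q • vecMulVec w w := by
      rw [vecMulVec_mul_vecMulVec, hq]
      ext i j
      simp [vecMulVec_apply]
      ring
    refine ⟨1 - (2 / q) • vecMulVec w w, ?_, l, hl0, ?_⟩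
    · have hs : (vecMulVec w w)ᵀ = vecMulVec w w := by
        ext i j
        simp [vecMulVec_apply, mul_comm]
      rw [transpose_sub, transpose_one, transpose_smul, hs]
      rw [sub_mul, mul_sub, mul_sub, Matrix.one_mul, Matrix.one_mul, Matrix.mul_one,
        Matrix.smul_mul, Matrix.mul_smul, hww, smul_smul, smul_smul]
      have e : 2 / q * (2 / q) * q = 2 / q + 2 / q := by field_simp; norm_num
      rw [e, add_smul]
      abel
    · have h1 : vecMulVec w w *ᵥ e3 = (w ⬝ᵥ e3) • w := by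
        ext i
        simp [mulVec, vecMulVec_apply, dotProduct, Fin.sum_univ_three]
        ring
      rw [sub_mulVec, one_mulVec, smul_mulVec, h1, smul_smul]
      have e : 2 / q * (w ⬝ᵥ e3) = 1 := by
        have : w ⬝ᵥ e3 = q / 2 := by linarith
        rw [this]
        field_simp
      rw [e, one_smul, hw]
      abel

end LinC

end Pool.Agent.H21.FT
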