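import Pool.Agent.H21.FT.RodComplete
import Pool.Agent.H21.FT.Irr
import Pool.Agent.H21.FT.Dichotomy
import Pool.Agent.H21.FT.Axial
import Pool.Agent.H21.FT.LinClassAux
import Pool.Agent.H21.FT.CompleteCub
import Pool.Agent.H21.FT.CompleteAx

/-!
# The linear classification
-/

namespace Pool.Agent.H21.FT

open Matrix

namespace LinC

variable {A B s : Equiv.Perm V3}

/-! ### Finite linear part without an invariant line -/

theorem cub_case (hi : Iso (grp A B s)) (h : Hyp A B s) (hfin : (lin (grp A B s)).Finite)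
    (hirr : ∀ u : V3, u ≠ 0 → ∃ M ∈ lin (grp A B s), M *ᵥ u ≠ u ∧ M *ᵥ u ≠ -u) : Conc A B s := by
  obtain ⟨⟨t, ht0, ht⟩, U, hU, hN, -, -⟩ := irr_signed hi h.d hfin hirr h.inf
  have hU' : U * Uᵀ = 1 := mul_eq_one_comm.1 hU
  obtain ⟨f, hf1, hf2⟩ := exists_perm hU'
  have hf : Cj f U Uᵀ := ⟨hf1, hf2, hU'⟩
  obtain ⟨A', rfl⟩ : ∃ A', A = f * A' * f⁻¹ := ⟨f⁻¹ * A * f, by group⟩
  obtain ⟨B', rfl⟩ : ∃ B', B = f * B' * f⁻¹ := ⟨f⁻¹ * B * f, by group⟩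
  obtain ⟨s', rfl⟩ : ∃ s', s = f * s' * f⁻¹ := ⟨f⁻¹ * s * f, by group⟩
  have h' := h.down hf
  have form : ∀ g ∈ grp A' B' s', ∃ N ∈ cubAuts, IsAff g N.mat (g 0) := by
    intro g hg
    obtain ⟨M, a, hM, haff⟩ := hi _ (rel_grp.a g hg)
    obtain ⟨N, hNm, e⟩ := hN M ⟨_, rel_grp.a g hg, a, haff⟩
    refine ⟨N, hNm, ?_⟩
    have h1 := hf.down haff
    rw [e] at h1
    rwa [isAff_zero h1]
  obtain ⟨Am, hAm, hA⟩ := form A' (Subgroup.subset_closure (Or.inl rfl))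
  obtain ⟨Bm, hBm, hB⟩ := form B' (Subgroup.subset_closure (Or.inr (Or.inl rfl)))
  obtain ⟨Sm, hSm, hS⟩ := form s' (Subgroup.subset_closure (Or.inr (Or.inr rfl)))
  rw [h'.A0] at hA
  rw [h'.B0] at hB
  have hirr' : ∀ u : V3, u ≠ 0 → ∃ M ∈ lin (grp A' B' s'), M *ᵥ u ≠ u ∧ M *ᵥ u ≠ -u := by
    intro u hu
    have hUu : U *ᵥ u ≠ 0 := by
      intro h0
      apply hu
      have := congrArg (fun v => Uᵀ *ᵥ v) h0
      simpa only [mulVec_mulVec, hU, one_mulVec, mulVec_zero] using this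
    obtain ⟨M, hM, h1, h2⟩ := hirr _ hUu
    have e1 : U * (Uᵀ * M * U) * Uᵀ = M := by
      calc U * (Uᵀ * M * U) * Uᵀ = (U * Uᵀ) * M * (U * Uᵀ) := by noncomm_ring
        _ = M := by rw [hU', Matrix.one_mul, Matrix.mul_one]
    have e2 : ∀ v, (Uᵀ * M * U) *ᵥ u = v → M *ᵥ (U *ᵥ u) = U *ᵥ v := by
      intro v hv
      rw [← hv, mulVec_mulVec, mulVec_mulVec, ← Matrix.mul_assoc, ← Matrix.mul_assoc, hU',
        Matrix.one_mul]
    refine ⟨Uᵀ * M * U, (lin_iff hf rel_grp).2 (by rwa [e1]), ?_, ?_⟩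
    · intro h3
      exact h1 (e2 _ h3)
    · intro h3
      apply h2
      rw [e2 _ h3, mulVec_neg]
  have ht' : ∃ t : V3, t ≠ 0 ∧ IsTrans (grp A' B' s') t := by
    refine ⟨Uᵀ *ᵥ t, ?_, ?_⟩
    · intro h0
      apply ht0
      have := congrArg (fun v => U *ᵥ v) h0
      simpa only [mulVec_mulVec, hU', one_mulVec, mulVec_zero] using this
    · rw [trans_iff hf rel_grp, mulVec_mulVec, hU', one_mulVec]
      exact ht
  have hfr : IsAff f (U * Kind.frame .cub 1 1) 0 := by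
    have e : Kind.frame .cub 1 1 = 1 := by
      ext i j
      fin_cases i <;> fin_cases j <;> simp [Kind.frame]
    rwa [e, Matrix.mul_one]
  exact conc_of_conck hU hfr
    (complete_cub hAm hBm hSm hA hB hS h'.d h'.st hirr' ht' h'.A1 h'.AB)

/-! ### An invariant line -/

theorem third_zero {l : List IM} (hl : ∀ N ∈ l, N.c.x = 0 ∧ N.c.y = 0)
    (form : ∀ g ∈ grp A B s, ∃ N ∈ l, IsAff g N.mat (g 0)) (hA : A 0 = 0) (hB : B 0 = 0)
    (hs : (s 0) 2 = 0) (hz : ∀ N ∈ l, N.c.z ≠ 0) : ∀ g ∈ grp A B s, (g 0) 2 = 0 := by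
  have key : ∀ g ∈ grp A B s, ∃ z : ℤ, z ≠ 0 ∧ ∀ x, g x 2 = z * x 2 + (g 0) 2 := by
    intro g hg
    obtain ⟨N, hN, h⟩ := form g hg
    refine ⟨N.c.z, hz N hN, fun x => ?_⟩
    obtain ⟨h1, h2⟩ := hl N hN
    rw [h x]
    simp [IM.mat, dotProduct, Fin.sum_univ_three, h1, h2]
  intro g hg
  have hg' := hg
  unfold grp at hg'
  induction hg' using Subgroup.closure_induction with
  | mem g h =>
    rcases h with rfl | rfl | rfl
    · rw [hA]; rfl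
    · rw [hB]; rfl
    · exact hs
  | one => rfl
  | mul g g' h h' ih ih' =>
    obtain ⟨z, -, hzg⟩ := key g h
    rw [Equiv.Perm.mul_apply, hzg, ih h, ih' h']
    simp
  | inv g h ih =>
    obtain ⟨z, hz0, hzg⟩ := key g h
    have h2 : g (g⁻¹ 0) = 0 := Equiv.apply_symm_apply g 0
    have h3 := congrFun h2 2
    rw [hzg, ih h, add_zero, Pi.zero_apply] at h3
    have hz1 : (z : ℝ) ≠ 0 := by exact_mod_cast hz0
    exact (mul_eq_zero.1 h3).resolve_left hz1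

theorem ax_case (hi : Iso (grp A B s)) (h : Hyp A B s)
    (hax : ∀ M ∈ lin (grp A B s), M *ᵥ e3 = e3 ∨ M *ᵥ e3 = -e3) : Conc A B s := by
  rcases axial_cases hi h.d hax with ⟨U, hU, -, hN⟩ | ⟨U, hU, -, k, hk, hN, ⟨M0, hM0, N0, hN0, e0,
    hT⟩, δ, hδ, hL⟩ | ho
  · have hU' : U * Uᵀ = 1 := mul_eq_one_comm.1 hU
    obtain ⟨f, hf1, hf2⟩ := exists_perm hU'
    have hf : Cj f U Uᵀ := ⟨hf1, hf2, hU'⟩
    obtain ⟨A', rfl⟩ : ∃ A', A = f * A' * f⁻¹ := ⟨f⁻¹ * A * f, by group⟩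
    obtain ⟨B', rfl⟩ : ∃ B', B = f * B' * f⁻¹ := ⟨f⁻¹ * B * f, by group⟩
    obtain ⟨s', rfl⟩ : ∃ s', s = f * s' * f⁻¹ := ⟨f⁻¹ * s * f, by group⟩
    have h' := h.down hf
    have form : ∀ g ∈ grp A' B' s', ∃ N ∈ ortAuts, IsAff g N.mat (g 0) := by
      intro g hg
      obtain ⟨M, a, hM, haff⟩ := hi _ (rel_grp.a g hg)
      obtain ⟨N, hNm, e⟩ := hN M ⟨_, rel_grp.a g hg, a, haff⟩
      refine ⟨N, hNm, ?_⟩
      have h1 := hf.down haff
      rw [e] at h1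
      rwa [isAff_zero h1]
    obtain ⟨Am, hAm, hA⟩ := form A' (Subgroup.subset_closure (Or.inl rfl))
    obtain ⟨Bm, hBm, hB⟩ := form B' (Subgroup.subset_closure (Or.inr (Or.inl rfl)))
    obtain ⟨Sm, hSm, hS⟩ := form s' (Subgroup.subset_closure (Or.inr (Or.inr rfl)))
    rw [h'.A0] at hA
    rw [h'.B0] at hB
    have hfr : IsAff f (U * Kind.frame .ort 1 1) 0 := by
      have e : Kind.frame .ort 1 1 = 1 := by
        ext i j
        fin_cases i <;> fin_cases j <;> simp [Kind.frame]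
      rwa [e, Matrix.mul_one]
    exact conc_of_conck hU hfr (complete_ort hAm hBm hSm hA hB hS h'.sp h'.A1)
  · obtain ⟨F, hF⟩ : ∃ F, F = k.frame 1 1 := ⟨_, rfl⟩
    have hdet : IsUnit F.det := by
      rw [hF]
      exact isUnit_iff_ne_zero.2 (frame_det k one_pos one_pos)
    have hF1 : F * F⁻¹ = 1 := mul_nonsing_inv _ hdet
    have hF2 : F⁻¹ * F = 1 := nonsing_inv_mul _ hdet
    have hU' : U * Uᵀ = 1 := mul_eq_one_comm.1 hU
    have hQ : (U * F) * (F⁻¹ * Uᵀ) = 1 := by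
      calc (U * F) * (F⁻¹ * Uᵀ) = U * (F * F⁻¹) * Uᵀ := by noncomm_ring
        _ = 1 := by rw [hF1, Matrix.mul_one, hU']
    obtain ⟨f, hf1, hf2⟩ := exists_perm hQ
    have hf : Cj f (U * F) (F⁻¹ * Uᵀ) := ⟨hf1, hf2, hQ⟩
    obtain ⟨A', rfl⟩ : ∃ A', A = f * A' * f⁻¹ := ⟨f⁻¹ * A * f, by group⟩
    obtain ⟨B', rfl⟩ : ∃ B', B = f * B' * f⁻¹ := ⟨f⁻¹ * B * f, by group⟩
    obtain ⟨s', rfl⟩ : ∃ s', s = f * s' * f⁻¹ := ⟨f⁻¹ * s * f, by group⟩
    have h' := h.down hf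
    have ecal : ∀ {M : M3} {N : IM}, Uᵀ * M * U * k.frame 1 1 = k.frame 1 1 * N.mat →
        F⁻¹ * Uᵀ * M * (U * F) = N.mat := by
      intro M N e
      rw [← hF] at e
      calc F⁻¹ * Uᵀ * M * (U * F) = F⁻¹ * (Uᵀ * M * U * F) := by noncomm_ring
        _ = (F⁻¹ * F) * N.mat := by rw [e, Matrix.mul_assoc]
        _ = N.mat := by rw [hF2, Matrix.one_mul]
    have form : ∀ g ∈ grp A' B' s', ∃ N ∈ k.auts, IsAff g N.mat (g 0) := by
      intro g hg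
      obtain ⟨M, a, hM, haff⟩ := hi _ (rel_grp.a g hg)
      obtain ⟨N, hNm, e⟩ := hN M ⟨_, rel_grp.a g hg, a, haff⟩
      refine ⟨N, hNm, ?_⟩
      have h1 := hf.down haff
      rw [ecal e] at h1
      rwa [isAff_zero h1]
    obtain ⟨Am, hAm, hA⟩ := form A' (Subgroup.subset_closure (Or.inl rfl))
    obtain ⟨Bm, hBm, hB⟩ := form B' (Subgroup.subset_closure (Or.inr (Or.inl rfl)))
    obtain ⟨Sm, hSm, hS⟩ := form s' (Subgroup.subset_closure (Or.inr (Or.inr rfl)))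
    rw [h'.A0] at hA
    rw [h'.B0] at hB
    have hturn : ∃ N ∈ k.auts, N.mat ∈ lin (grp A' B' s') ∧ Turns N := by
      refine ⟨N0, hN0, ?_, hT⟩
      rw [lin_iff hf rel_grp, ← ecal e0]
      have : U * F * (F⁻¹ * Uᵀ * M0 * (U * F)) * (F⁻¹ * Uᵀ) = M0 := by
        calc U * F * (F⁻¹ * Uᵀ * M0 * (U * F)) * (F⁻¹ * Uᵀ)
            = (U * F * (F⁻¹ * Uᵀ)) * M0 * ((U * F) * (F⁻¹ * Uᵀ)) := by noncomm_ring
          _ = M0 := by rw [hQ, Matrix.one_mul, Matrix.mul_one]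
      rwa [this]
    have hL' : ∀ a b : ℝ, IsTrans (grp A' B' s') ![δ * a, δ * b, 0] ↔
        ∃ m n : ℤ, a = m ∧ b = n := by
      intro a b
      rw [trans_iff hf rel_grp, ← hL a b]
      have e : (U * F) *ᵥ ![δ * a, δ * b, 0] = δ • (U *ᵥ (k.frame 1 1 *ᵥ ![a, b, 0])) := by
        have e1 : (![δ * a, δ * b, 0] : V3) = δ • ![a, b, 0] := by
          ext i
          fin_cases i <;> simp
        rw [e1, mulVec_smul, ← hF, mulVec_mulVec]
      rw [e]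
    have hauts : ∀ N ∈ k.auts, (N.c.x = 0 ∧ N.c.y = 0) ∧ N.c.z ≠ 0 := by
      rcases hk with rfl | rfl
      · decide
      · decide
    have hz : (s' 0) 2 ≠ 0 := by
      intro h0
      have hall := third_zero (fun N hN => (hauts N hN).1) form h'.A0 h'.B0 h0
        (fun N hN => (hauts N hN).2)
      have hn : (![0, 0, 1] : V3) ≠ 0 := by
        intro h
        have := congrFun h 2
        simp at this
      obtain ⟨x, ⟨g, hg, rfl⟩, hx⟩ := h'.sp _ hn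
      apply hx
      simp [dotProduct, Fin.sum_univ_three, hall g hg]
    have hfr : IsAff f (U * k.frame 1 1) 0 := by rw [← hF]; exact hf1
    refine conc_of_conck hU hfr ?_
    rcases hk with rfl | rfl
    · exact complete_tet hAm hBm hSm hA hB hS h'.d h'.st hturn hδ hL' hz h'.A1 h'.AB
    · exact complete_hex hAm hBm hSm hA hB hS h'.d h'.st hturn hδ hL' hz h'.A1 h'.AB
  · exact rod_complete hi h.d h.A0 h.B0 h.st h.sp h.inf h.A1 h.deg hax ho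

theorem line_case (hi : Iso (grp A B s)) (h : Hyp A B s) {u : V3} (hu : u ≠ 0)
    (hinv : ∀ M ∈ lin (grp A B s), M *ᵥ u = u ∨ M *ᵥ u = -u) : Conc A B s := by
  obtain ⟨U, hU, l, hl, hUe⟩ := exists_orth hu
  have hU' : U * Uᵀ = 1 := mul_eq_one_comm.1 hU
  obtain ⟨f, hf1, hf2⟩ := exists_perm hU'
  have hf : Cj f U Uᵀ := ⟨hf1, hf2, hU'⟩
  obtain ⟨A', rfl⟩ : ∃ A', A = f * A' * f⁻¹ := ⟨f⁻¹ * A * f, by group⟩
  obtain ⟨B', rfl⟩ : ∃ B', B = f * B' * f⁻¹ := ⟨f⁻¹ * B * f, by group⟩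
  obtain ⟨s', rfl⟩ : ∃ s', s = f * s' * f⁻¹ := ⟨f⁻¹ * s * f, by group⟩
  refine conc_up hf (ax_case (iso hf rel_grp hi) (h.down hf) ?_)
  intro M hM
  have h1 := hinv _ ((lin_iff hf rel_grp).1 hM)
  have e : (U * M * Uᵀ) *ᵥ (l • u) = U *ᵥ (M *ᵥ e3) := by
    rw [← hUe, mulVec_mulVec, mulVec_mulVec]
    congr 1
    calc U * M * Uᵀ * U = U * M * (Uᵀ * U) := by noncomm_ring
      _ = U * M := by rw [hU, Matrix.mul_one]
  have hinj : ∀ v w : V3, U *ᵥ v = U *ᵥ w → v = w := by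
    intro v w hvw
    have := congrArg (fun v => Uᵀ *ᵥ v) hvw
    simpa only [mulVec_mulVec, hU, one_mulVec] using this
  rcases h1 with h1 | h1
  · left
    apply hinj
    rw [← e, mulVec_smul, h1, hUe]
  · right
    apply hinj
    rw [← e, mulVec_smul, h1, mulVec_neg, hUe, smul_neg]

end LinC

open LinC in
theorem lin_class {A B s : Equiv.Perm V3} (hi : Iso (grp A B s)) (hd : Disc (grp A B s))
    (hA : A 0 = 0) (hB : B 0 = 0) (hst : ∀ g ∈ grp A B s, g 0 = 0 → g ∈ stab A B)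
    (hsp : Spans {x | ∃ g ∈ grp A B s, x = g 0}) (hinf : {x | ∃ g ∈ grp A B s, x = g 0}.Infinite)
    (hA1 : A ≠ 1) (hAB : B = 1 ∨ (A * A = 1 ∧ B * B = 1))
    (hdeg : (∀ g ∈ stab A B, g = 1 ∨ g = A) → ∀ g ∈ stab A B, g (s 0) ≠ s⁻¹ 0) :
    Conc A B s := by
  have h : Hyp A B s := ⟨hd, hA, hB, hst, hsp, hinf, hA1, hAB, hdeg⟩
  by_cases hirr : ∀ u : V3, u ≠ 0 → ∃ M ∈ lin (grp A B s), M *ᵥ u ≠ u ∧ M *ᵥ u ≠ -u
  · rcases dichotomy hi hd with hfin | ⟨u, hu, hinv⟩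
    · exact cub_case hi h hfin hirr
    · exact line_case hi h hu hinv
  · push Not at hirr
    obtain ⟨u, hu, hinv⟩ := hirr
    refine line_case hi h hu fun M hM => ?_
    by_cases h1 : M *ᵥ u = u
    · exact Or.inl h1
    · exact Or.inr (hinv M hM h1)

end Pool.Agent.H21.FT
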