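import Pool.Agent.H21.FT.FwdCore

/-!
# From a polyhedron to the constructions: the classes c22, c4a, c4b
-/

namespace Pool.Agent.H21.FT

open Pool.Agent.H38.FT (Cfg)
open Pool.Agent.H38.FT.Cfg

variable {X : Type*}

variable {P : Cfg X} {G : Subgroup (Equiv.Perm X)} {β : Base X}

/-- `1` or `s⁻¹`: moves the base vertex `i` to `o` -/
def back (s : Equiv.Perm X) (i : Bool) : Equiv.Perm X := bif i then s⁻¹ else 1

theorem back_mem {s : Equiv.Perm X} (hs : s ∈ G) (i : Bool) : back s i ∈ G := by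
  cases i
  · exact G.one_mem
  · exact G.inv_mem hs

/-- Every element of `G` that fixes the base vertex maps the first base flag to the image of
`fl i j` or `s⁻¹ (fl i j)` under an element of the stabiliser. -/
theorem vertex_flags (hP : P.IsPolyhedron) (hG : Acts G P) (hS : Semireg G P) (hβ : IsBase P β)
    {A B s : Equiv.Perm X} (hA : A ∈ G) (hB : B ∈ G) (hs : s ∈ G)
    (hsw : ∀ i j, ∃ h ∈ stab A B, ∃ i' j',
      swp (act (back s i) (β.fl i j)) = act h (act (back s i') (β.fl i' j')))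
    {g : Equiv.Perm X} (hg : g ∈ G) (ho : g β.o = β.o) :
    ∃ h ∈ stab A B, ∃ i j, act g (β.fl false false) = act h (act (back s i) (β.fl i j)) := by
  refine corner_induct_vertex hP hG hS hβ
    {t | ∃ h ∈ stab A B, ∃ i j, t = act h (act (back s i) (β.fl i j))} ?_ ?_ ?_
    (act g (β.fl false false)) (act_corner hG hg (hβ.corner _ _)) ho
  · exact ⟨1, Subgroup.one_mem _, false, false, rfl⟩
  · rintro t ⟨h, hh, i, j, rfl⟩
    obtain ⟨h', hh', i', j', he⟩ := hsw i j
    refine ⟨h * h', Subgroup.mul_mem _ hh hh', i', j', ?_⟩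
    rw [← act_swp, he, act_mul]
  · rintro g' hg' i j ⟨h, hh, i', j', he⟩
    refine ⟨h, hh, i', !j', ?_⟩
    have hhG := stab_le hA hB hh
    have hbG := back_mem (G := G) hs i'
    have h1 : act ((h * back s i')⁻¹ * g') (β.fl i j) = β.fl i' j' := by
      rw [act_mul, he, ← act_mul h, act_inv_act]
    have h2 := act_base hP hG hS hβ (G.mul_mem (G.inv_mem (G.mul_mem hhG hbG)) hg') h1 i (!j)
    have h3 : xor i (xor i i') = i' := by cases i <;> cases i' <;> rfl
    have h4 : xor (!j) (xor j j') = !j' := by cases j <;> cases j' <;> rfl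
    rw [h3, h4] at h2
    rw [← h2, ← act_mul h, ← act_mul, mul_inv_cancel_left]

/-- an element of `G` that fixes the vertices of the base edge -/
theorem fix_edge (hP : P.IsPolyhedron) (hG : Acts G P) (hβ : IsBase P β)
    {g : Equiv.Perm X} (hg : g ∈ G) (h1 : g β.o = β.o) (h2 : g β.w = β.w) :
    act g (β.fl false false) = β.fl false false ∨ act g (β.fl false false) = β.fl false true :=
  corner_ow hP hβ (act_corner hG hg (hβ.corner _ _)) h1 h2

/-- an element of `G` that exchanges the vertices of the base edge -/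
theorem swap_edge (hP : P.IsPolyhedron) (hG : Acts G P) (hβ : IsBase P β)
    {g : Equiv.Perm X} (hg : g ∈ G) (h1 : g β.o = β.w) (h2 : g β.w = β.o) :
    act g (β.fl false false) = β.fl true false ∨ act g (β.fl false false) = β.fl true true :=
  corner_wo hP hβ (act_corner hG hg (hβ.corner _ _)) h1 h2

theorem apart_of (hP : P.IsPolyhedron) (hG : Acts G P) (hβ : IsBase P β)
    {A B s : Equiv.Perm X} (hA : A ∈ G) (hB : B ∈ G) (hs : s ∈ G)
    (hAo : A β.o = β.o) (hBo : B β.o = β.o) (hso : s β.o = β.w)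
    (h1 : ∀ g ∈ G, act g (β.fl false false) ≠ β.fl true false)
    (h2 : ∀ g ∈ G, act g (β.fl false false) ≠ β.fl true true) : Apart A B s β.o := by
  intro g hg he
  have hgG := stab_le hA hB hg
  have hgo := stab_fix hAo hBo hg
  have h3 : (s * g) β.o = β.w := by rw [Equiv.Perm.mul_apply, hgo, hso]
  have h4 : (s * g) β.w = β.o := by
    rw [Equiv.Perm.mul_apply, ← hso, he, apply_inv']
  rcases swap_edge hP hG hβ (G.mul_mem hs hgG) h3 h4 with h | h
  · exact h1 _ (G.mul_mem hs hgG) h
  · exact h2 _ (G.mul_mem hs hgG) h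

theorem free_of (hP : P.IsPolyhedron) (hG : Acts G P) (hS : Semireg G P) (hβ : IsBase P β)
    {A B s : Equiv.Perm X} (hA : A ∈ G) (hB : B ∈ G)
    (hAo : A β.o = β.o) (hBo : B β.o = β.o) (hso : s β.o = β.w)
    (h1 : ∀ g ∈ G, act g (β.fl false false) ≠ β.fl false true) : Free A B s β.o := by
  intro g hg he
  have hgG := stab_le hA hB hg
  have hgo := stab_fix hAo hBo hg
  rw [hso] at he
  rcases fix_edge hP hG hβ hgG hgo he with h | h
  · exact act_eq_one hP hG hS (hβ.corner _ _) hgG h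
  · exact absurd h (h1 g hgG)

/-- the stabiliser when no two base flags are images of each other -/
theorem stab_of (hP : P.IsPolyhedron) (hG : Acts G P) (hS : Semireg G P) (hβ : IsBase P β)
    {A B s : Equiv.Perm X} (hA : A ∈ G) (hB : B ∈ G) (hs : s ∈ G)
    (hsw : ∀ i j, ∃ h ∈ stab A B, ∃ i' j',
      swp (act (back s i) (β.fl i j)) = act h (act (back s i') (β.fl i' j')))
    (h0 : ∀ g ∈ G, act g (β.fl false false) = β.fl false true → g ∈ stab A B)
    (h1 : ∀ g ∈ G, act g (β.fl false false) ≠ β.fl true false)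
    (h2 : ∀ g ∈ G, act g (β.fl false false) ≠ β.fl true true) :
    ∀ g ∈ grp A B s, g β.o = β.o → g ∈ stab A B := by
  intro g hg ho
  have hgG := grp_le hA hB hs hg
  obtain ⟨h, hh, i, j, he⟩ := vertex_flags hP hG hS hβ hA hB hs hsw hgG ho
  have hhG := stab_le hA hB hh
  have hbG := back_mem (G := G) hs i
  have h3 : act ((h * back s i)⁻¹ * g) (β.fl false false) = β.fl i j := by
    rw [act_mul, he, ← act_mul h, act_inv_act]
  have hmem : (h * back s i)⁻¹ * g ∈ G := G.mul_mem (G.inv_mem (G.mul_mem hhG hbG)) hgG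
  cases i
  · have h4 : (h * back s false)⁻¹ * g = h⁻¹ * g := by simp [back]
    rw [h4] at h3 hmem
    have h5 : h⁻¹ * g ∈ stab A B := by
      cases j
      · rw [act_eq_one hP hG hS (hβ.corner _ _) hmem h3]
        exact Subgroup.one_mem _
      · exact h0 _ hmem h3
    have := Subgroup.mul_mem _ hh h5
    rwa [mul_inv_cancel_left] at this
  · exfalso
    cases j
    · exact h1 _ hmem h3
    · exact h2 _ hmem h3

theorem good_c22 (hP : P.IsPolyhedron) (hG : Acts G P) (hS : Semireg G P) (hβ : IsBase P β)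
    {A B s : Equiv.Perm X} (hA : A ∈ G) (hB : B ∈ G) (hs : s ∈ G)
    (hc : Case β .c22 A B s) (hn : NoMore G β .c22) :
    Good .c22 A B s β.o ∧ P = cfg .c22 A B s β.o := by
  obtain ⟨rfl, hcA, hcs⟩ := hc
  obtain ⟨hn1, hn2⟩ := hn
  -- how the generators act
  have hA1 := act_base hP hG hS hβ hA hcA
  have hAo : A β.o = β.o := congrArg Prod.fst hcA
  have hAw : A β.w = β.w := congrArg (fun t => t.2.1) hcA
  have hAb : A β.b1 = β.b2 := congrArg (fun t => t.2.2) hcA
  have hAc : A β.c1 = β.c2 := congrArg (fun t => t.2.2) (hA1 true false)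
  have hso : s β.o = β.w := congrArg Prod.fst hcs
  have hsb : s β.b1 = β.o := congrArg (fun t => t.2.1) hcs
  have hsw : s β.w = β.c1 := congrArg (fun t => t.2.2) hcs
  have hsi : s⁻¹ β.o = β.b1 := by rw [← hsb, inv_apply']
  have hBo : (s⁻¹ * A * s) β.o = β.o := by
    rw [Equiv.Perm.mul_apply, Equiv.Perm.mul_apply, hso, hAw, ← hso, inv_apply']
  have hAA : A * A = 1 := by
    apply act_eq_one hP hG hS (hβ.corner false false) (G.mul_mem hA hA)
    rw [act_mul, hcA]
    exact hA1 false true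
  refine good_core hP hG hS hβ hA hB hs ?_ hAo hBo ⟨hAA, by rw [hso, hAw], rfl⟩
    ⟨?_, ?_, ?_, ?_⟩ ?_
  · obtain ⟨o, w, b1, b2, c1, c2⟩ := β
    simp only at hAo hAw hAb hAc hso hsb hsw hsi
    simp only [canon, hso, hsi, hAb, hsw, hAc]
  · rw [hso]; exact (hβ.ow hP).symm
  · intro g hg he
    have hgG := stab_le hA hB hg
    have hgo := stab_fix hAo hBo hg
    rw [hso] at he
    rcases fix_edge hP hG hβ hgG hgo he with h | h
    · left; exact act_eq_one hP hG hS (hβ.corner _ _) hgG h
    · right; exact eq_of_act hP hG hS (hβ.corner _ _) hgG hA (h.trans hcA.symm)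
  · rw [hsi, hAb]; exact (hβ.b12 hP hG).symm
  · exact apart_of hP hG hβ hA hB hs hAo hBo hso hn1 hn2
  · refine stab_of hP hG hS hβ hA hB hs ?_ ?_ hn1 hn2
    · have e1 : swp (β.fl false false) = act s⁻¹ (β.fl true false) := (inv_act_eq hcs).symm
      have e2 : swp (β.fl false true) = act A (act s⁻¹ (β.fl true false)) := by
        rw [← e1, act_swp, hcA]
      have e3 : act s⁻¹ (β.fl true true) = act (s⁻¹ * A * s) (swp (β.fl false false)) := by
        rw [act_mul, act_mul, hcs]
        congr 1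
        exact (hA1 true false).symm
      intro i j
      cases i <;> cases j
      · exact ⟨1, Subgroup.one_mem _, true, false, e1⟩
      · exact ⟨A, A_mem_stab _ _, true, false, e2⟩
      · refine ⟨1, Subgroup.one_mem _, false, false, ?_⟩
        change swp (act s⁻¹ (β.fl true false)) = β.fl false false
        rw [← e1, swp_swp]
      · refine ⟨s⁻¹ * A * s, B_mem_stab _ _, false, false, ?_⟩
        change swp (act s⁻¹ (β.fl true true)) = act (s⁻¹ * A * s) (β.fl false false)
        rw [e3, act_swp, swp_swp]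
    · intro g hg h
      rw [eq_of_act hP hG hS (hβ.corner _ _) hg hA (h.trans hcA.symm)]
      exact A_mem_stab _ _

theorem good_c4a (hP : P.IsPolyhedron) (hG : Acts G P) (hS : Semireg G P) (hβ : IsBase P β)
    {A B s : Equiv.Perm X} (hA : A ∈ G) (hB : B ∈ G) (hs : s ∈ G)
    (hc : Case β .c4a A B s) (hn : NoMore G β .c4a) :
    Good .c4a A B s β.o ∧ P = cfg .c4a A B s β.o := by
  obtain ⟨rfl, hcs, hcA⟩ := hc
  obtain ⟨hn0, hn1, hn2⟩ := hn
  have hso : s β.o = β.w := congrArg Prod.fst hcs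
  have hsb : s β.b1 = β.o := congrArg (fun t => t.2.1) hcs
  have hsw : s β.w = β.c2 := congrArg (fun t => t.2.2) hcs
  have hsi : s⁻¹ β.o = β.b1 := by rw [← hsb, inv_apply']
  have hsAo : s (A β.o) = β.w := congrArg Prod.fst hcA
  have hsAw : s (A β.w) = β.c1 := congrArg (fun t => t.2.1) hcA
  have hsAb : s (A β.b2) = β.o := congrArg (fun t => t.2.2) hcA
  have hAo : A β.o = β.o := s.injective (hsAo.trans hso.symm)
  have hAb : A β.b2 = β.b1 := s.injective (hsAb.trans hsb.symm)
  have hAi : A⁻¹ β.b1 = β.b2 := by rw [← hAb, inv_apply']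
  have hBo : (1 : Equiv.Perm X) β.o = β.o := rfl
  refine good_core hP hG hS hβ hA hB hs ?_ hAo hBo rfl ⟨?_, ?_, ?_, ?_⟩ ?_
  · obtain ⟨o, w, b1, b2, c1, c2⟩ := β
    simp only at hso hsb hsw hsi hsAo hsAw hsAb hAo hAb hAi
    simp only [canon, hso, hsi, hAi, hsw, hsAw]
  · rw [hso]; exact (hβ.ow hP).symm
  · exact free_of hP hG hS hβ hA hB hAo hBo hso hn0
  · rintro rfl
    exact hβ.b12 hP hG hAb.symm
  · exact apart_of hP hG hβ hA hB hs hAo hBo hso hn1 hn2
  · refine stab_of hP hG hS hβ hA hB hs ?_ (fun g hg h => absurd h (hn0 g hg)) hn1 hn2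
    have e1 : swp (β.fl false false) = act s⁻¹ (β.fl true true) := (inv_act_eq hcs).symm
    have e2 : act A (β.fl false true) = act s⁻¹ (swp (β.fl true false)) := by
      rw [← hcA, act_mul, act_inv_act]
    intro i j
    cases i <;> cases j
    · exact ⟨1, Subgroup.one_mem _, true, true, e1⟩
    · refine ⟨A⁻¹, Subgroup.inv_mem _ (A_mem_stab _ _), true, false, ?_⟩
      change swp (β.fl false true) = act A⁻¹ (act s⁻¹ (β.fl true false))
      rw [act_swp] at e2
      have e3 : act s⁻¹ (β.fl true false) = act A (swp (β.fl false true)) := by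
        rw [act_swp, e2, swp_swp]
      rw [e3, act_inv_act]
    · refine ⟨A, A_mem_stab _ _, false, true, ?_⟩
      change swp (act s⁻¹ (β.fl true false)) = act A (β.fl false true)
      rw [e2]; rfl
    · refine ⟨1, Subgroup.one_mem _, false, false, ?_⟩
      change swp (act s⁻¹ (β.fl true true)) = β.fl false false
      rw [← e1, swp_swp]

theorem good_c4b (hP : P.IsPolyhedron) (hG : Acts G P) (hS : Semireg G P) (hβ : IsBase P β)
    {A B s : Equiv.Perm X} (hA : A ∈ G) (hB : B ∈ G) (hs : s ∈ G)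
    (hc : Case β .c4b A B s) (hn : NoMore G β .c4b) :
    Good .c4b A B s β.o ∧ P = cfg .c4b A B s β.o := by
  obtain ⟨hcA, hcs, hcB⟩ := hc
  obtain ⟨hn0, hn1, hn2⟩ := hn
  have hAo : A β.o = β.o := congrArg Prod.fst hcA
  have hAw : A β.w = β.b1 := congrArg (fun t => t.2.1) hcA
  have hso : s β.o = β.w := congrArg Prod.fst hcs
  have hsw : s β.w = β.c1 := congrArg (fun t => t.2.1) hcs
  have hsb : s β.b2 = β.o := congrArg (fun t => t.2.2) hcs
  have hsi : s⁻¹ β.o = β.b2 := by rw [← hsb, inv_apply']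
  have hsiw : s⁻¹ β.w = β.o := by rw [← hso, inv_apply']
  have hB1 : s (B (s⁻¹ β.w)) = β.w := congrArg Prod.fst hcB
  have hB2 : s (B (s⁻¹ β.o)) = β.c2 := congrArg (fun t => t.2.1) hcB
  have hBo : B β.o = β.o := by
    apply s.injective
    rw [hsiw] at hB1
    rw [hB1, hso]
  have hAA : A * A = 1 := by
    apply act_eq_one hP hG hS (hβ.corner false false) (G.mul_mem hA hA)
    rw [act_mul, hcA, act_swp, hcA, swp_swp]
  have hsB : s * B * s⁻¹ ∈ G := G.mul_mem (G.mul_mem hs hB) (G.inv_mem hs)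
  have hBB : B * B = 1 := by
    have h1 : (s * B * s⁻¹) * (s * B * s⁻¹) = 1 := by
      apply act_eq_one hP hG hS (hβ.corner true true) (G.mul_mem hsB hsB)
      rw [act_mul, hcB, act_swp, hcB, swp_swp]
    have h2 : (s * B * s⁻¹) * (s * B * s⁻¹) = s * (B * B) * s⁻¹ := by group
    rw [h2] at h1
    rwa [mul_inv_eq_one, mul_eq_left] at h1
  refine good_core hP hG hS hβ hA hB hs ?_ hAo hBo ⟨hAA, hBB⟩ ⟨?_, ?_, ?_, ?_, ?_⟩ ?_
  · obtain ⟨o, w, b1, b2, c1, c2⟩ := β
    simp only at hso hsb hsw hsi hAo hAw hB2 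
    rw [hsi] at hB2
    simp only [canon, hso, hAw, hsi, hsw, hB2]
  · rw [hso]; exact (hβ.ow hP).symm
  · exact free_of hP hG hS hβ hA hB hAo hBo hso hn0
  · rintro rfl
    exact hβ.wb1 hAw
  · rintro rfl
    rw [Equiv.Perm.one_apply, apply_inv'] at hB2
    exact hβ.oc2 hB2
  · exact apart_of hP hG hβ hA hB hs hAo hBo hso hn1 hn2
  · refine stab_of hP hG hS hβ hA hB hs ?_ (fun g hg h => absurd h (hn0 g hg)) hn1 hn2
    have e2 : β.fl false true = act s⁻¹ (swp (β.fl true false)) := (inv_act_eq hcs).symm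
    have e3 : act B (act s⁻¹ (β.fl true true)) = act s⁻¹ (swp (β.fl true true)) := by
      rw [← hcB, act_mul, act_mul, act_inv_act]
    intro i j
    cases i <;> cases j
    · exact ⟨A, A_mem_stab _ _, false, false, hcA.symm⟩
    · refine ⟨1, Subgroup.one_mem _, true, false, ?_⟩
      change swp (β.fl false true) = act s⁻¹ (β.fl true false)
      rw [e2]; rfl
    · refine ⟨1, Subgroup.one_mem _, false, true, ?_⟩
      change swp (act s⁻¹ (β.fl true false)) = β.fl false true
      rw [e2]; rfl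
    · refine ⟨B, B_mem_stab _ _, true, true, ?_⟩
      change swp (act s⁻¹ (β.fl true true)) = act B (act s⁻¹ (β.fl true true))
      rw [e3]; rfl

end Pool.Agent.H21.FT
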