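import Pool.Agent.H21.FT.FwdBase

/-!
# From a polyhedron to the constructions: the seven cases
-/

namespace Pool.Agent.H21.FT

open Pool.Agent.H38.FT (Cfg)

variable {X : Type*}

namespace FwdCases

/-! ### The relations between the base flags -/

/-- `Φ i j` and `Φ i' j'` are images of each other under `G`. -/
def R (G : Subgroup (Equiv.Perm X)) (β : Base X) (i j i' j' : Bool) : Prop :=
  ∃ g ∈ G, act g (β.fl i j) = β.fl i' j'

/-- The turned flag of `Φ i j` and `Φ i' j'` are images of each other under `G`. -/
def T (G : Subgroup (Equiv.Perm X)) (β : Base X) (i j i' j' : Bool) : Prop :=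
  ∃ g ∈ G, act g (swp (β.fl i j)) = β.fl i' j'

theorem act_mul (g h : Equiv.Perm X) (t : X × X × X) : act (g * h) t = act g (act h t) := rfl

theorem act_one (t : X × X × X) : act (1 : Equiv.Perm X) t = t := rfl

theorem act_inv_act (g : Equiv.Perm X) (t : X × X × X) : act g⁻¹ (act g t) = t := by
  rw [← act_mul, inv_mul_cancel, act_one]

theorem act_act_inv (g : Equiv.Perm X) (t : X × X × X) : act g (act g⁻¹ t) = t := by
  rw [← act_mul, mul_inv_cancel, act_one]

theorem act_swp (g : Equiv.Perm X) (t : X × X × X) : act g (swp t) = swp (act g t) := rfl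

theorem swp_swp (t : X × X × X) : swp (swp t) = t := rfl

theorem act_inv_eq {g : Equiv.Perm X} {t u : X × X × X} (h : act g t = u) : act g⁻¹ u = t := by
  rw [← h, act_inv_act]

variable {P : Cfg X} {G : Subgroup (Equiv.Perm X)} {β : Base X}

theorem R.refl (i j : Bool) : R G β i j i j := ⟨1, G.one_mem, rfl⟩

theorem R.symm {i j i' j' : Bool} (h : R G β i j i' j') : R G β i' j' i j := by
  obtain ⟨g, hg, h⟩ := h
  exact ⟨g⁻¹, G.inv_mem hg, act_inv_eq h⟩

theorem R.trans {i j i' j' k l : Bool} (h : R G β i j i' j') (h' : R G β i' j' k l) :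
    R G β i j k l := by
  obtain ⟨g, hg, h⟩ := h
  obtain ⟨g', hg', h'⟩ := h'
  exact ⟨g' * g, G.mul_mem hg' hg, by rw [act_mul, h, h']⟩

theorem T.symm {i j i' j' : Bool} (h : T G β i j i' j') : T G β i' j' i j := by
  obtain ⟨g, hg, h⟩ := h
  refine ⟨g⁻¹, G.inv_mem hg, ?_⟩
  rw [act_swp, act_inv_eq h, swp_swp]

theorem T.trans {i j i' j' k l : Bool} (h : T G β i j i' j') (h' : R G β i' j' k l) :
    T G β i j k l := by
  obtain ⟨g, hg, h⟩ := h
  obtain ⟨g', hg', h'⟩ := h'
  exact ⟨g' * g, G.mul_mem hg' hg, by rw [act_mul, h, h']⟩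

theorem T.left {i j i' j' k l : Bool} (h : T G β i j i' j') (h' : R G β i j k l) :
    T G β k l i' j' := (h.symm.trans h').symm

theorem T.uniq {i j i' j' k l : Bool} (h : T G β i j i' j') (h' : T G β i j k l) :
    R G β i' j' k l := by
  obtain ⟨g, hg, h⟩ := h
  obtain ⟨g', hg', h'⟩ := h'
  exact ⟨g' * g⁻¹, G.mul_mem hg' (G.inv_mem hg), by rw [act_mul, act_inv_eq h, h']⟩

/-- the element that turns a base flag, written the other way -/
theorem T.inv {i j i' j' : Bool} (h : T G β i j i' j') :
    ∃ g ∈ G, act g (β.fl i' j') = swp (β.fl i j) := by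
  obtain ⟨g, hg, h⟩ := h
  exact ⟨g⁻¹, G.inv_mem hg, act_inv_eq h⟩

theorem R.shift (hP : P.IsPolyhedron) (hG : Acts G P) (hS : Semireg G P) (hβ : IsBase P β)
    {i j i' j' : Bool} (h : R G β i j i' j') (a b : Bool) :
    R G β a b (xor a (xor i i')) (xor b (xor j j')) := by
  obtain ⟨g, hg, h⟩ := h
  exact ⟨g, hg, act_base hP hG hS hβ hg h a b⟩

/-! ### Corners -/

theorem Corner.swp {f : Set (Sym2 X)} {t : X × X × X} (h : Corner f t) :
    Corner f (swp t) := ⟨h.1.symm, h.2.2, h.2.1⟩

theorem Corner.act {f : Set (Sym2 X)} {t : X × X × X} (h : Corner f t) (g : Equiv.Perm X) :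
    Corner (Sym2.map g '' f) (act g t) :=
  ⟨fun e => h.1 (g.injective e), ⟨_, h.2.1, rfl⟩, ⟨_, h.2.2, rfl⟩⟩

theorem map_F {g : Equiv.Perm X} (hG : Acts G P) (hg : g ∈ G) {f : Set (Sym2 X)} (hf : f ∈ P.F) :
    Sym2.map g '' f ∈ P.F :=
  Cfg.map_F_mem (hG.sym g hg) hf

theorem swp_mem_corners {t : X × X × X} (h : t ∈ corners P) : swp t ∈ corners P := by
  obtain ⟨f, hf, h⟩ := h
  exact ⟨f, hf, Corner.swp h⟩

theorem act_mem_corners (hG : Acts G P) {g : Equiv.Perm X} (hg : g ∈ G) {t : X × X × X}
    (h : t ∈ corners P) : act g t ∈ corners P := by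
  obtain ⟨f, hf, h⟩ := h
  exact ⟨_, map_F hG hg hf, Corner.act h g⟩

theorem fl_mem_corners (hβ : IsBase P β) (i j : Bool) : β.fl i j ∈ corners P := by
  obtain ⟨f₁, h₁, f₂, h₂, -, a, b, c, d⟩ := hβ
  cases i <;> cases j
  · exact ⟨f₁, h₁, a⟩
  · exact ⟨f₂, h₂, c⟩
  · exact ⟨f₁, h₁, b⟩
  · exact ⟨f₂, h₂, d⟩

theorem fst_mem_V (hP : P.IsPolyhedron) {t : X × X × X} (h : t ∈ corners P) : t.1 ∈ P.V := by
  obtain ⟨f, hf, -, h, -⟩ := h
  obtain ⟨x, hx, y, hy, -, he⟩ := hP.edge _ ((hP.face f hf).2 h)
  rw [Sym2.eq_iff] at he
  rcases he with ⟨h1, -⟩ | ⟨h1, -⟩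
  · rw [h1]; exact hx
  · rw [h1]; exact hy

theorem T.exists (hP : P.IsPolyhedron) (hG : Acts G P) (hS : Semireg G P) (hβ : IsBase P β)
    (i j : Bool) : ∃ i' j', T G β i j i' j' := by
  obtain ⟨g, hg, i', j', h⟩ := corner_of_base hP hG hS hβ (swp_mem_corners (fl_mem_corners hβ i j))
  exact ⟨i', j', g⁻¹, G.inv_mem hg, act_inv_eq h.symm⟩

/-- vertex transitivity on the classes of the base flags -/
theorem class_vertex (hP : P.IsPolyhedron) (hG : Acts G P) (hS : Semireg G P) (hβ : IsBase P β)
    (Z : Bool → Bool → Prop) (h0 : Z false false)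
    (hR : ∀ i j i' j', Z i j → R G β i j i' j' → Z i' j')
    (hT : ∀ i j i' j', Z i j → T G β i j i' j' → Z i' j')
    (h2 : ∀ i j, Z i j → Z i (!j)) (i j : Bool) : Z i j := by
  have key := corner_induct_vertex hP hG hS hβ
    {t | ∃ g ∈ G, ∃ i j, Z i j ∧ act g (β.fl i j) = t} ⟨1, G.one_mem, _, _, h0, rfl⟩
    (by
      rintro t ⟨g, hg, i, j, hz, rfl⟩
      obtain ⟨i', j', hT'⟩ := T.exists hP hG hS hβ i j
      obtain ⟨h, hh, e⟩ := hT'.inv
      exact ⟨g * h, G.mul_mem hg hh, i', j', hT _ _ _ _ hz hT', by
        rw [act_mul, e, act_swp]⟩)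
    (by
      rintro g hg i j ⟨g', hg', i', j', hz, e⟩
      refine ⟨g, hg, i, !j, h2 _ _ (hR _ _ _ _ hz ⟨g⁻¹ * g', G.mul_mem (G.inv_mem hg) hg', ?_⟩),
        rfl⟩
      rw [act_mul, e, act_inv_act])
  obtain ⟨g, hg, e⟩ := hG.tV _ (fst_mem_V hP (fl_mem_corners hβ i j)) _
    (fst_mem_V hP (fl_mem_corners hβ false false))
  obtain ⟨g', hg', i', j', hz, e'⟩ := key _ (act_mem_corners hG hg (fl_mem_corners hβ i j)) e
  refine hR _ _ _ _ hz ⟨g⁻¹ * g', G.mul_mem (G.inv_mem hg) hg', ?_⟩
  rw [act_mul, e', act_inv_act]

/-- face transitivity on the classes of the base flags -/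
theorem class_face (hP : P.IsPolyhedron) (hG : Acts G P) (hS : Semireg G P) (hβ : IsBase P β)
    (Z : Bool → Bool → Prop) (h0 : Z false false)
    (hR : ∀ i j i' j', Z i j → R G β i j i' j' → Z i' j')
    (hT : ∀ i j i' j', Z i j → T G β i j i' j' → Z i' j')
    (h2 : ∀ i j, Z i j → Z (!i) j) (i j : Bool) : Z i j := by
  obtain ⟨f₁, h₁, f₂, h₂, hne, hc, hrest⟩ := id hβ
  have key := corner_induct_face hP hG hS hβ
    {t | ∃ g ∈ G, ∃ i j, Z i j ∧ act g (β.fl i j) = t} ⟨1, G.one_mem, _, _, h0, rfl⟩
    (by
      rintro t ⟨g, hg, i, j, hz, rfl⟩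
      obtain ⟨i', j', hT'⟩ := T.exists hP hG hS hβ i j
      obtain ⟨h, hh, e⟩ := hT'.inv
      exact ⟨g * h, G.mul_mem hg hh, i', j', hT _ _ _ _ hz hT', by
        rw [act_mul, e, act_swp]⟩)
    (by
      rintro g hg i j ⟨g', hg', i', j', hz, e⟩
      refine ⟨g, hg, !i, j, h2 _ _ (hR _ _ _ _ hz ⟨g⁻¹ * g', G.mul_mem (G.inv_mem hg) hg', ?_⟩),
        rfl⟩
      rw [act_mul, e, act_inv_act]) h₁ hc
  obtain ⟨f, hf, hcf⟩ := fl_mem_corners hβ i j
  obtain ⟨g, hg, e⟩ := hG.tF _ hf _ h₁
  have hcf' := Corner.act hcf g
  rw [e] at hcf'
  obtain ⟨g', hg', i', j', hz, e'⟩ := key _ hcf'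
  refine hR _ _ _ _ hz ⟨g⁻¹ * g', G.mul_mem (G.inv_mem hg) hg', ?_⟩
  rw [act_mul, e', act_inv_act]

/-! ### The same base with the two faces exchanged -/

/-- exchange the two faces -/
def flip (β : Base X) : Base X := ⟨β.o, β.w, β.b2, β.b1, β.c2, β.c1⟩

theorem flip_fl (β : Base X) (i j : Bool) : (flip β).fl i j = β.fl i (!j) := by
  cases i <;> cases j <;> rfl

theorem flip_isBase (hβ : IsBase P β) : IsBase P (flip β) := by
  obtain ⟨f₁, h₁, f₂, h₂, hne, a, b, c, d⟩ := hβ
  exact ⟨f₂, h₂, f₁, h₁, hne.symm, c, d, a, b⟩

theorem flip_R {i j i' j' : Bool} : R G (flip β) i j i' j' ↔ R G β i (!j) i' (!j') := by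
  unfold R; simp only [flip_fl]

theorem flip_T {i j i' j' : Bool} : T G (flip β) i j i' j' ↔ T G β i (!j) i' (!j') := by
  unfold T; simp only [flip_fl]

/-- the case c4b -/
theorem case_c4b (hP : P.IsPolyhedron) (hG : Acts G P) (hS : Semireg G P) (hβ : IsBase P β)
    (n01 : ¬ R G β false false false true) (n10 : ¬ R G β false false true false)
    (n11 : ¬ R G β false false true true) (hy : T G β false true true false)
    (hn : ¬ T G β false false true true) :
    ∃ (A B s : Equiv.Perm X), A ∈ G ∧ B ∈ G ∧ s ∈ G ∧ Case β .c4b A B s ∧ NoMore G β .c4b := by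
  have sh := fun {i j i' j' : Bool} (h : R G β i j i' j') => R.shift hP hG hS hβ h false false
  have h0 : T G β false false false false := by
    obtain ⟨i', j', h⟩ := T.exists hP hG hS hβ false false
    cases i' <;> cases j'
    · exact h
    · exact absurd (by simpa using h.symm.uniq hy) n10
    · exact absurd (by simpa using h.symm.uniq hy.symm) n01
    · exact absurd h hn
  have h1 : T G β true true true true := by
    obtain ⟨i', j', h⟩ := T.exists hP hG hS hβ true true
    cases i' <;> cases j'
    · exact absurd h.symm hn
    · exact absurd (by simpa using sh (h.symm.uniq hy)) n01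
    · exact absurd (by simpa using sh (h.symm.uniq hy.symm)) n10
    · exact h
  obtain ⟨A, hA, eA⟩ := h0.inv
  obtain ⟨s, hs, es⟩ := hy.symm.inv
  obtain ⟨u, hu, eu⟩ := h1.inv
  refine ⟨A, s⁻¹ * u * s, s, hA, G.mul_mem (G.mul_mem (G.inv_mem hs) hu) hs, hs, ⟨eA, es, ?_⟩,
    fun g hg h => n01 ⟨g, hg, h⟩, fun g hg h => n10 ⟨g, hg, h⟩, fun g hg h => n11 ⟨g, hg, h⟩⟩
  have : s * (s⁻¹ * u * s) * s⁻¹ = u := by group
  rw [this]; exact eu

end FwdCases

open FwdCases

variable {P : Cfg X} {G : Subgroup (Equiv.Perm X)} {β : Base X}

/-- The seven cases. -/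
theorem exists_case (hP : P.IsPolyhedron) (hG : Acts G P) (hS : Semireg G P) {o : X}
    (ho : o ∈ P.V) :
    ∃ β : Base X, IsBase P β ∧ β.o = o ∧ ∃ (c : Cls) (A B s : Equiv.Perm X),
      A ∈ G ∧ B ∈ G ∧ s ∈ G ∧ Case β c A B s ∧ NoMore G β c := by
  obtain ⟨β, hβ, ho⟩ : ∃ β : Base X, IsBase P β ∧ β.o = o := by
    obtain ⟨e, he, hoe⟩ := hP.vertex o ho
    have h2 := hP.diamond_edge e he
    obtain ⟨f, f', -, hff⟩ := Set.ncard_eq_two.1 h2
    have hf : f ∈ {f | f ∈ P.F ∧ e ∈ f} := by rw [hff]; simp
    have h3 := hP.diamond_face f hf.1 o ⟨e, hf.2, hoe⟩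
    obtain ⟨a, b, hab, hh⟩ := Set.ncard_eq_two.1 h3
    have ha : a ∈ {e | e ∈ f ∧ o ∈ e} := by rw [hh]; simp
    have hb : b ∈ {e | e ∈ f ∧ o ∈ e} := by rw [hh]; simp
    obtain ⟨ha1, ha2⟩ := ha
    obtain ⟨hb1, hb2⟩ := hb
    obtain ⟨x, rfl⟩ := Sym2.mem_iff_exists.1 ha2
    obtain ⟨y, rfl⟩ := Sym2.mem_iff_exists.1 hb2
    obtain ⟨β, hβ, h⟩ := exists_base (t := (o, x, y)) hP hG
      ⟨f, hf.1, fun h => hab (by rw [show x = y from h]), ha1, hb1⟩
    exact ⟨β, hβ, congrArg Prod.fst h⟩
  have sh := fun {i j i' j' : Bool} (h : R G β i j i' j') => R.shift hP hG hS hβ h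
  have ex := T.exists hP hG hS hβ
  by_cases h01 : R G β false false false true
  · by_cases h10 : R G β false false true false
    · -- everything is equivalent
      have h11 : R G β false false true true := by
        simpa using h10.trans (sh h01 true false)
      have hall : ∀ i j, R G β i j false false := by
        intro i j
        cases i <;> cases j
        · exact R.refl _ _
        · exact h01.symm
        · exact h10.symm
        · exact h11.symm
      obtain ⟨i', j', hT⟩ := ex false false
      obtain ⟨A, hA, eA⟩ := (hT.trans (hall i' j')).inv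
      obtain ⟨s, hs, es⟩ := h10
      obtain ⟨B, hB, eB⟩ := h01
      exact ⟨β, hβ, ho, .reg, A, B, s, hA, hB, hs, ⟨es, eA, eB⟩, trivial⟩
    · -- c22
      have n11 : ¬ R G β false false true true := fun h => h10 (by
        simpa using h.trans (sh h01 true true))
      have hT : T G β false false true false := by
        by_contra hT
        have hT' : ∀ i' j', T G β false false i' j' → i' = false := by
          intro i' j' h
          cases i'
          · rfl
          · exfalso
            cases j'
            · exact hT h
            · exact hT (h.trans (by simpa using sh h01 true true))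
        have := class_vertex hP hG hS hβ (fun i _ => i = false) rfl
          (by
            rintro i j i' j' rfl h
            have h' : R G β false false i' j' := by
              cases j
              · exact h
              · exact h01.trans h
            cases i'
            · rfl
            · cases j'
              · exact absurd h' h10
              · exact absurd h' n11)
          (by
            rintro i j i' j' rfl h
            cases j
            · exact hT' _ _ h
            · exact hT' _ _ (h.left h01.symm))
          (fun i j h => h) true true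
        simp at this
      obtain ⟨A, hA, eA⟩ := h01
      obtain ⟨s, hs, es⟩ := hT
      exact ⟨β, hβ, ho, .c22, A, s⁻¹ * A * s, s, hA,
        G.mul_mem (G.mul_mem (G.inv_mem hs) hA) hs, hs, ⟨rfl, eA, es⟩,
        fun g hg h => h10 ⟨g, hg, h⟩, fun g hg h => n11 ⟨g, hg, h⟩⟩
  · by_cases h10 : R G β false false true false
    · -- c20
      have n11 : ¬ R G β false false true true := fun h => h01 (by
        simpa using h.trans (sh h10 true true))
      have hT : T G β false false false true := by
        by_contra hT
        have hT' : ∀ i' j', T G β false false i' j' → j' = false := by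
          intro i' j' h
          cases j'
          · rfl
          · exfalso
            cases i'
            · exact hT h
            · exact hT (h.trans (by simpa using sh h10 true true))
        have := class_face hP hG hS hβ (fun _ j => j = false) rfl
          (by
            rintro i j i' j' rfl h
            have h' : R G β false false i' j' := by
              cases i
              · exact h
              · exact h10.trans h
            cases j'
            · rfl
            · cases i'
              · exact absurd h' h01
              · exact absurd h' n11)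
          (by
            rintro i j i' j' rfl h
            cases i
            · exact hT' _ _ h
            · exact hT' _ _ (h.left h10.symm))
          (fun i j h => h) true true
        simp at this
      obtain ⟨s, hs, es⟩ := h10
      obtain ⟨A, hA, eA⟩ := hT.inv
      exact ⟨β, hβ, ho, .c20, A, 1, s, hA, G.one_mem, hs, ⟨rfl, es, eA⟩,
        fun g hg h => h01 ⟨g, hg, h⟩, fun g hg h => n11 ⟨g, hg, h⟩⟩
    · by_cases h11 : R G β false false true true
      · -- c2 or c21
        by_cases hT : T G β false false false true
        · obtain ⟨s, hs, es⟩ := h11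
          obtain ⟨A, hA, eA⟩ := hT.inv
          exact ⟨β, hβ, ho, .c2, A, 1, s, hA, G.one_mem, hs, ⟨rfl, es, eA⟩,
            fun g hg h => h01 ⟨g, hg, h⟩, fun g hg h => h10 ⟨g, hg, h⟩⟩
        · have hT0 : T G β false false false false := by
            obtain ⟨i', j', h⟩ := ex false false
            cases i' <;> cases j'
            · exact h
            · exact absurd h hT
            · exact absurd (h.trans (by simpa using sh h11 true false)) hT
            · exact h.trans h11.symm
          have hT1 : T G β false true false true := by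
            obtain ⟨i', j', h⟩ := ex false true
            cases i' <;> cases j'
            · exact absurd h.symm hT
            · exact h
            · exact h.trans (by simpa using sh h11 true false)
            · exact absurd (h.trans h11.symm).symm hT
          obtain ⟨s, hs, es⟩ := h11
          obtain ⟨A, hA, eA⟩ := hT0.inv
          obtain ⟨B, hB, eB⟩ := hT1.inv
          exact ⟨β, hβ, ho, .c21, A, B, s, hA, hB, hs, ⟨es, eA, eB⟩,
            fun g hg h => h01 ⟨g, hg, h⟩, fun g hg h => h10 ⟨g, hg, h⟩⟩
      · -- four classes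
        have key : ∀ i j i' j', R G β i j i' j' → i = i' ∧ j = j' := by
          intro i j i' j' h
          have h' := sh h false false
          cases i <;> cases j <;> cases i' <;> cases j' <;>
            first
            | exact ⟨rfl, rfl⟩
            | (exfalso; revert h'; simpa using h01)
            | (exfalso; revert h'; simpa using h10)
            | (exfalso; revert h'; simpa using h11)
        by_cases ha : T G β false false true true
        · by_cases hb : T G β false true true false
          · -- c4a
            obtain ⟨s, hs, es⟩ := ha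
            obtain ⟨u, hu, eu⟩ := hb.symm.inv
            exact ⟨β, hβ, ho, .c4a, s⁻¹ * u, 1, s, G.mul_mem (G.inv_mem hs) hu, G.one_mem, hs,
              ⟨rfl, es, by rw [mul_inv_cancel_left]; exact eu⟩,
              fun g hg h => h01 ⟨g, hg, h⟩, fun g hg h => h10 ⟨g, hg, h⟩,
              fun g hg h => h11 ⟨g, hg, h⟩⟩
          · -- exchange the faces
            obtain ⟨A, B, s, hA, hB, hs, hc, hn⟩ := case_c4b (β := flip β) hP hG hS
              (flip_isBase hβ)
              (fun h => by have := key _ _ _ _ (flip_R.1 h); simp at this)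
              (fun h => by have := key _ _ _ _ (flip_R.1 h); simp at this)
              (fun h => by have := key _ _ _ _ (flip_R.1 h); simp at this)
              (flip_T.2 (by simpa using ha)) (fun h => hb (by simpa using flip_T.1 h))
            exact ⟨flip β, flip_isBase hβ, ho, .c4b, A, B, s, hA, hB, hs, hc, hn⟩
        · by_cases hb : T G β false true true false
          · obtain ⟨A, B, s, hA, hB, hs, hc, hn⟩ := case_c4b hP hG hS hβ h01 h10 h11 hb ha
            exact ⟨β, hβ, ho, .c4b, A, B, s, hA, hB, hs, hc, hn⟩
          · -- contradiction with the transitivity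
            exfalso
            have hv : T G β false false true false ∨ T G β false true true true := by
              by_contra hcon
              push Not at hcon
              have := class_vertex hP hG hS hβ (fun i _ => i = false) rfl
                (by
                  rintro i j i' j' rfl h
                  exact (key _ _ _ _ h).1.symm)
                (by
                  rintro i j i' j' rfl h
                  cases i'
                  · rfl
                  · exfalso
                    cases j <;> cases j'
                    · exact hcon.1 h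
                    · exact ha h
                    · exact hb h
                    · exact hcon.2 h)
                (fun i j h => h) true true
              simp at this
            have hf : T G β false false false true ∨ T G β true false true true := by
              by_contra hcon
              push Not at hcon
              have := class_face hP hG hS hβ (fun _ j => j = false) rfl
                (by
                  rintro i j i' j' rfl h
                  exact (key _ _ _ _ h).2.symm)
                (by
                  rintro i j i' j' rfl h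
                  cases j'
                  · rfl
                  · exfalso
                    cases i <;> cases i'
                    · exact hcon.1 h
                    · exact ha h
                    · exact hb h.symm
                    · exact hcon.2 h)
                (fun i j h => h) true true
              simp at this
            rcases hv with hv | hv <;> rcases hf with hf | hf
            · simpa using key _ _ _ _ (hv.uniq hf)
            · simpa using key _ _ _ _ (hv.symm.uniq hf)
            · simpa using key _ _ _ _ (hv.uniq hf.symm)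
            · simpa using key _ _ _ _ (hv.symm.uniq hf.symm)

end Pool.Agent.H21.FT
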