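import Pool.Agent.H21.FT.FwdA
import Pool.Agent.H21.FT.FwdB
import Pool.Agent.H21.FT.FwdCases

/-!
# From a polyhedron to the constructions
-/

namespace Pool.Agent.H21.FT

open Pool.Agent.H38.FT (Cfg)

variable {X : Type*} {P : Cfg X} {G : Subgroup (Equiv.Perm X)} {β : Base X}

theorem good_of_case (hP : P.IsPolyhedron) (hG : Acts G P) (hS : Semireg G P) (hβ : IsBase P β)
    {c : Cls} {A B s : Equiv.Perm X} (hA : A ∈ G) (hB : B ∈ G) (hs : s ∈ G)
    (hc : Case β c A B s) (hn : NoMore G β c) :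
    Good c A B s β.o ∧ P = cfg c A B s β.o := by
  cases c
  · exact good_reg hP hG hS hβ hA hB hs hc hn
  · exact good_c2 hP hG hS hβ hA hB hs hc hn
  · exact good_c20 hP hG hS hβ hA hB hs hc hn
  · exact good_c21 hP hG hS hβ hA hB hs hc hn
  · exact good_c22 hP hG hS hβ hA hB hs hc hn
  · exact good_c4a hP hG hS hβ hA hB hs hc hn
  · exact good_c4b hP hG hS hβ hA hB hs hc hn

theorem fwd (hP : P.IsPolyhedron) (hG : Acts G P) (hS : Semireg G P) {o : X} (ho : o ∈ P.V) :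
    ∃ (c : Cls) (A B s : Equiv.Perm X), A ∈ G ∧ B ∈ G ∧ s ∈ G ∧ Good c A B s o ∧
      P = cfg c A B s o := by
  obtain ⟨β, hβ, rfl, c, A, B, s, hA, hB, hs, hc, hn⟩ := exists_case hP hG hS ho
  exact ⟨c, A, B, s, hA, hB, hs, good_of_case hP hG hS hβ hA hB hs hc hn⟩

end Pool.Agent.H21.FT
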