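import Pool.Agent.H21.FT.Geo
import Pool.Agent.H38.FT.Trans

/-!
# From the coordinates back to Euclidean space
-/

namespace Pool.Agent.H21.FT

open Matrix
open Pool.Agent.H38.FT (Cfg E3 FullyTransitive)

namespace Realize

variable {F : M3}

theorem inv_mul (hF : F.det ≠ 0) : F⁻¹ * F = 1 :=
  Matrix.nonsing_inv_mul _ (isUnit_iff_ne_zero.2 hF)

theorem mul_inv (hF : F.det ≠ 0) : F * F⁻¹ = 1 :=
  Matrix.mul_nonsing_inv _ (isUnit_iff_ne_zero.2 hF)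

theorem inj (hF : F.det ≠ 0) : Function.Injective (fun x : V3 => (WithLp.toLp 2 (F *ᵥ x) : E3)) := by
  intro x y h
  have h1 : F *ᵥ x = F *ᵥ y := congrArg WithLp.ofLp h
  have h2 : F⁻¹ *ᵥ (F *ᵥ x) = F⁻¹ *ᵥ (F *ᵥ y) := by rw [h1]
  simpa [mulVec_mulVec, inv_mul hF] using h2

/-- the isometry that corresponds to an element of the group -/
theorem exists_conj (hF : F.det ≠ 0) {g : Equiv.Perm V3} {M : M3} {a : V3} (hg : IsAff g M a)
    (hN : (F * M * F⁻¹)ᵀ * (F * M * F⁻¹) = 1) :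
    ∃ k : E3 ≃ᵢ E3, ∀ x : V3,
      k (WithLp.toLp 2 (F *ᵥ x)) = (WithLp.toLp 2 (F *ᵥ (g x)) : E3) := by
  obtain ⟨k, hk⟩ := Pool.Agent.H38.FT.exists_iso hN
  refine ⟨k.trans (IsometryEquiv.addRight (WithLp.toLp 2 (F *ᵥ a) : E3)), fun x => ?_⟩
  rw [IsometryEquiv.trans_apply, hk, hg x]
  change (WithLp.toLp 2 ((F * M * F⁻¹) *ᵥ (F *ᵥ x)) : E3) + WithLp.toLp 2 (F *ᵥ a) = _
  rw [← WithLp.toLp_add, mulVec_mulVec, mul_assoc (F * M), inv_mul hF, mul_one, mulVec_add,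
    mulVec_mulVec]

/-- a set with finitely many points in each ball is discrete -/
theorem discrete_of_finite {S : Set E3} (h : ∀ x : E3, (S ∩ Metric.closedBall x 1).Finite) :
    DiscreteTopology S := by
  rw [discreteTopology_subtype_iff']
  intro y hy
  refine ⟨Metric.ball y 1 ∩ ((S ∩ Metric.closedBall y 1) \ {y})ᶜ,
    Metric.isOpen_ball.inter (((h y).subset Set.sdiff_subset).isClosed.isOpen_compl), ?_⟩
  ext z
  constructor
  · rintro ⟨⟨hz, hz'⟩, hzS⟩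
    by_contra hne
    exact hz' ⟨⟨hzS, Metric.ball_subset_closedBall hz⟩, hne⟩
  · rintro rfl
    exact ⟨⟨Metric.mem_ball_self one_pos, fun hh => hh.2 rfl⟩, hy⟩

/-- the images of the vertices are discrete -/
theorem discrete (hF : F.det ≠ 0) {Γ : Subgroup (Equiv.Perm V3)} (hd : Disc Γ) :
    DiscreteTopology
      ((fun x : V3 => (WithLp.toLp 2 (F *ᵥ x) : E3)) '' {x | ∃ g ∈ Γ, x = g 0}) := by
  refine discrete_of_finite fun y => ?_
  have hcont : Continuous (fun z : E3 => F⁻¹ *ᵥ (WithLp.ofLp z)) :=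
    Continuous.matrix_mulVec continuous_const (PiLp.continuous_ofLp 2 _)
  have hcomp := ((isCompact_closedBall y 1).image hcont).isBounded
  obtain ⟨R, hR⟩ := hcomp.exists_norm_le
  refine ((hd R).image (fun g : Equiv.Perm V3 => (WithLp.toLp 2 (F *ᵥ (g 0)) : E3))).subset ?_
  rintro _ ⟨⟨_, ⟨g, hg, rfl⟩, rfl⟩, hz⟩
  refine ⟨g, ⟨hg, fun i => ?_⟩, rfl⟩
  have h1 := hR _ ⟨_, hz, rfl⟩
  have h2 : F⁻¹ *ᵥ (WithLp.ofLp (WithLp.toLp 2 (F *ᵥ (g 0)) : E3)) = g 0 := by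
    change F⁻¹ *ᵥ (F *ᵥ (g 0)) = g 0
    rw [mulVec_mulVec, inv_mul hF, one_mulVec]
  simp only [h2] at h1
  exact (norm_le_pi_norm (g 0) i).trans h1

/-- the images of the vertices span the space -/
theorem span (hF : F.det ≠ 0) {V : Set V3} (h0 : (0 : V3) ∈ V) (hs : Spans V) :
    affineSpan ℝ ((fun x : V3 => (WithLp.toLp 2 (F *ᵥ x) : E3)) '' V) = ⊤ := by
  have hne : ((fun x : V3 => (WithLp.toLp 2 (F *ᵥ x) : E3)) '' V).Nonempty := ⟨_, 0, h0, rfl⟩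
  rw [AffineSubspace.affineSpan_eq_top_iff_vectorSpan_eq_top_of_nonempty ℝ E3 E3 hne]
  by_contra hW
  rw [← Submodule.orthogonal_eq_bot_iff] at hW
  obtain ⟨u, hu, hu0⟩ := Submodule.exists_mem_ne_zero_of_ne_bot hW
  have hn : Fᵀ *ᵥ (WithLp.ofLp u) ≠ 0 := by
    intro hh
    apply hu0
    have h1 : (F⁻¹)ᵀ *ᵥ (Fᵀ *ᵥ (WithLp.ofLp u)) = 0 := by rw [hh, mulVec_zero]
    rw [mulVec_mulVec, ← transpose_mul, mul_inv hF, transpose_one, one_mulVec] at h1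
    exact (WithLp.ofLp_eq_zero 2).1 h1
  obtain ⟨x, hx, hx'⟩ := hs _ hn
  apply hx'
  have h2 : (WithLp.toLp 2 (F *ᵥ x) : E3) - WithLp.toLp 2 (F *ᵥ (0 : V3)) ∈
      vectorSpan ℝ ((fun x : V3 => (WithLp.toLp 2 (F *ᵥ x) : E3)) '' V) :=
    vsub_mem_vectorSpan ℝ ⟨x, hx, rfl⟩ ⟨0, h0, rfl⟩
  have h3 := (Submodule.mem_orthogonal' _ _).1 hu _ h2
  rw [mulVec_zero, WithLp.toLp_zero, sub_zero, PiLp.inner_apply] at h3
  have h4 : (WithLp.ofLp u) ⬝ᵥ (F *ᵥ x) = 0 := by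
    rw [dotProduct, ← h3]
    refine Finset.sum_congr rfl fun i _ => ?_
    simp [mul_comm]
  rw [mulVec_transpose, ← dotProduct_mulVec]
  exact h4

end Realize

open Realize

/-- The polyhedron of the coordinate space gives a polyhedron of Euclidean 3-space. -/
theorem realize {c : Cls} {A B s : Equiv.Perm V3} (hP : (cfg c A B s 0).IsPolyhedron)
    (hA : Acts (grp A B s) (cfg c A B s 0)) {F : M3} (hF : F.det ≠ 0)
    (hi : ∀ g ∈ grp A B s, ∃ M a, IsAff g M a ∧ (F * M * F⁻¹)ᵀ * (F * M * F⁻¹) = 1)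
    (hd : Disc (grp A B s)) (hs : Spans (cfg c A B s 0).V) :
    ((cfg c A B s 0).map (fun x => WithLp.toLp 2 (F *ᵥ x))).IsPolyhedron ∧
    FullyTransitive ((cfg c A B s 0).map (fun x => WithLp.toLp 2 (F *ᵥ x))) ∧
    DiscreteTopology ((cfg c A B s 0).map (fun x => WithLp.toLp 2 (F *ᵥ x)) : Cfg E3).V ∧
    affineSpan ℝ ((cfg c A B s 0).map (fun x => WithLp.toLp 2 (F *ᵥ x)) : Cfg E3).V = ⊤ := by
  set P := cfg c A B s 0 with hPdef
  set φ : V3 → E3 := fun x => WithLp.toLp 2 (F *ᵥ x) with hφ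
  have key : ∀ g ∈ grp A B s, ∃ k : E3 ≃ᵢ E3, (P.map φ).map k = P.map φ ∧
      ∀ x, k (φ x) = φ (g x) := by
    intro g hg
    obtain ⟨M, a, hM, hN⟩ := hi g hg
    obtain ⟨k, hk⟩ := exists_conj hF hM hN
    refine ⟨k, ?_, hk⟩
    rw [Cfg.map_map]
    have : (fun x => k (φ x)) = fun x => φ (g x) := funext hk
    rw [this, ← Cfg.map_map, hA.sym g hg]
  have hsy : ∀ (g : Equiv.Perm V3) (k : E3 ≃ᵢ E3), (∀ x, k (φ x) = φ (g x)) → ∀ e : Sym2 V3,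
      Sym2.map k (Sym2.map φ e) = Sym2.map φ (Sym2.map g e) := by
    intro h k hk e
    rw [Sym2.map_map, Sym2.map_map]
    congr 1
    exact funext hk
  refine ⟨Cfg.IsPolyhedron.map (inj hF) hP, ⟨?_, ?_, ?_⟩, discrete hF hd, span hF ?_ hs⟩
  · rintro _ ⟨x, hx, rfl⟩ _ ⟨y, hy, rfl⟩
    obtain ⟨g, hg, hxy⟩ := hA.tV x hx y hy
    obtain ⟨k, hk1, hk2⟩ := key g hg
    exact ⟨k, hk1, by rw [hk2, hxy]⟩
  · rintro _ ⟨x, hx, rfl⟩ _ ⟨y, hy, rfl⟩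
    obtain ⟨g, hg, hxy⟩ := hA.tE x hx y hy
    obtain ⟨k, hk1, hk2⟩ := key g hg
    exact ⟨k, hk1, by rw [hsy g k hk2, hxy]⟩
  · rintro _ ⟨x, hx, rfl⟩ _ ⟨y, hy, rfl⟩
    obtain ⟨g, hg, hxy⟩ := hA.tF x hx y hy
    obtain ⟨k, hk1, hk2⟩ := key g hg
    refine ⟨k, hk1, ?_⟩
    change Sym2.map k '' (Sym2.map φ '' x) = Sym2.map φ '' y
    rw [← hxy, Set.image_image, Set.image_image]
    exact Set.image_congr fun e _ => hsy g k hk2 e
  · exact ⟨1, Subgroup.one_mem _, rfl⟩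

end Pool.Agent.H21.FT
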