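import Pool.Agent.H21.FT.Geo
import Pool.Agent.H38.FT.Trans
import Pool.Agent.H59.FT.RedGeo
import Pool.Agent.H38.FT.Comb2

/-!
# From a polyhedron of Euclidean 3-space to a group of affine maps of the coordinate space
-/

namespace Pool.Agent.H21.FT

open Matrix
open Pool.Agent.H38.FT (Cfg E3 FullyTransitive Similar Triple Adjacent)
open Pool.Agent.H59.FT (exists_matrix)

/-- Coordinates with respect to the point `c`. -/
def coords (c : E3) (x : E3) : V3 := WithLp.ofLp x - WithLp.ofLp c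

/-- The point with the given coordinates with respect to `c`. -/
noncomputable def point (c : E3) (y : V3) : E3 := WithLp.toLp 2 y + c

theorem point_coords (c x : E3) : point c (coords c x) = x := by
  unfold point coords
  rw [WithLp.toLp_sub]
  simp

theorem coords_point (c : E3) (y : V3) : coords c (point c y) = y := by
  unfold point coords
  rw [WithLp.ofLp_add]
  simp

theorem coords_inj (c : E3) : Function.Injective (coords c) :=
  Function.LeftInverse.injective (point_coords c)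

theorem orth_tr {A : M3} (h : Aᵀ * A = 1) : A * Aᵀ = 1 := mul_eq_one_comm.1 h

theorem orth_tr_mulVec {A : M3} (h : Aᵀ * A = 1) (x : V3) : Aᵀ *ᵥ (A *ᵥ x) = x := by
  rw [Matrix.mulVec_mulVec, h, Matrix.one_mulVec]

theorem orth_mulVec_tr {A : M3} (h : Aᵀ * A = 1) (x : V3) : A *ᵥ (Aᵀ *ᵥ x) = x := by
  rw [Matrix.mulVec_mulVec, orth_tr h, Matrix.one_mulVec]

theorem orth_dot {A : M3} (h : Aᵀ * A = 1) (x y : V3) : (A *ᵥ x) ⬝ᵥ (A *ᵥ y) = x ⬝ᵥ y := by
  rw [dotProduct_mulVec, ← Matrix.mulVec_transpose, orth_tr_mulVec h]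

/-- A linear functional constant on a set that spans the space is zero. -/
theorem zero_of_const {V : Set E3} (hspan : affineSpan ℝ V = ⊤) {a : V3} {r : ℝ}
    (h : ∀ x ∈ V, WithLp.ofLp x ⬝ᵥ a = r) : a = 0 := by
  have hv : vectorSpan ℝ V = ⊤ := by
    rw [← direction_affineSpan, hspan, AffineSubspace.direction_top]
  let F : E3 →ₗ[ℝ] ℝ :=
    { toFun := fun x => WithLp.ofLp x ⬝ᵥ a
      map_add' := by intro x y; rw [WithLp.ofLp_add, add_dotProduct]
      map_smul' := by intro t x; rw [WithLp.ofLp_smul, smul_dotProduct, RingHom.id_apply] }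
  have hle : vectorSpan ℝ V ≤ LinearMap.ker F := by
    unfold vectorSpan
    rw [Submodule.span_le]
    rintro _ ⟨x, hx, y, hy, rfl⟩
    show F (x - y) = 0
    rw [map_sub]
    show WithLp.ofLp x ⬝ᵥ a - WithLp.ofLp y ⬝ᵥ a = 0
    rw [h x hx, h y hy, sub_self]
  rw [hv] at hle
  have h1 : F (WithLp.toLp 2 a) = 0 := hle trivial
  have h2 : a ⬝ᵥ a = 0 := h1
  exact dotProduct_self_eq_zero.1 h2

/-- The flags are fixed by a permutation that fixes one of them. -/
theorem fix_flags {X : Type*} {Q : Cfg X} (hP : Q.IsPolyhedron) {g : Equiv.Perm X}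
    (hg : Q.map g = Q) {A B : Triple X} (hA : Q.IsFlag A) (hB : Q.IsFlag B) (h1 : g A.1 = A.1)
    (h2 : Sym2.map g A.2.1 = A.2.1) (h3 : Sym2.map g '' A.2.2 = A.2.2) : g B.1 = B.1 := by
  have hinj : Function.Injective (Sym2.map g) := Sym2.map.injective g.injective
  have hF : ∀ f ∈ Q.F, Sym2.map g '' f ∈ Q.F := by
    intro f hf
    have : Sym2.map g '' f ∈ (Q.map g).F := ⟨f, hf, rfl⟩
    rwa [hg] at this
  have hc := hP.connected A B hA hB
  have key : ∀ D : Triple X, Relation.ReflTransGen (fun C D => Q.IsFlag C ∧ Q.IsFlag D ∧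
      Adjacent C D ∧ Pool.Agent.H38.FT.HasCommon A B D) A D → g D.1 = D.1 ∧
        Sym2.map g D.2.1 = D.2.1 ∧ Sym2.map g '' D.2.2 = D.2.2 := by
    intro D hD
    induction hD with
    | refl => exact ⟨h1, h2, h3⟩
    | tail _ hstep ih =>
      rename_i C D _
      obtain ⟨hC, hD, hadj, -⟩ := hstep
      obtain ⟨i1, i2, i3⟩ := ih
      rcases hadj with ⟨a1, a2, a3⟩ | ⟨a1, a2, a3⟩ | ⟨a1, a2, a3⟩
      · refine ⟨?_, by rw [← a2]; exact i2, by rw [← a3]; exact i3⟩
        have h4 : C.1 ∈ D.2.1 := by rw [← a2]; exact hC.2.2.2.1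
        have h5 : D.2.1 = s(C.1, D.1) := (Sym2.mem_and_mem_iff a1).1 ⟨h4, hD.2.2.2.1⟩
        have h6 : Sym2.map g D.2.1 = D.2.1 := by rw [← a2]; exact i2
        rw [h5, Sym2.map_mk, i1, Sym2.eq_iff] at h6
        rcases h6 with ⟨-, h7⟩ | ⟨h7, h8⟩
        · exact h7
        · rw [h8, h7]
      · refine ⟨by rw [← a1]; exact i1, ?_, by rw [← a3]; exact i3⟩
        have hn := hP.diamond_face D.2.2 hD.2.2.1 D.1 ⟨D.2.1, hD.2.2.2.2, hD.2.2.2.1⟩
        obtain ⟨a, b, -, hab⟩ := Set.ncard_eq_two.1 hn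
        have m1 : D.2.1 ∈ ({a, b} : Set (Sym2 X)) := by
          rw [← hab]; exact ⟨hD.2.2.2.2, hD.2.2.2.1⟩
        have m2 : C.2.1 ∈ ({a, b} : Set (Sym2 X)) := by
          rw [← hab]
          exact ⟨by rw [← a3]; exact hC.2.2.2.2, by rw [← a1]; exact hC.2.2.2.1⟩
        have m3 : Sym2.map g D.2.1 ∈ ({a, b} : Set (Sym2 X)) := by
          rw [← hab]
          refine ⟨?_, ?_⟩
          · have : Sym2.map g D.2.1 ∈ Sym2.map g '' D.2.2 := ⟨_, hD.2.2.2.2, rfl⟩
            rwa [← a3, i3, a3] at this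
          · refine Sym2.mem_map.2 ⟨D.1, hD.2.2.2.1, ?_⟩
            rw [← a1]; exact i1
        have hne : Sym2.map g D.2.1 ≠ C.2.1 := by
          intro h
          rw [← i2] at h
          exact a2 (hinj h).symm
        simp only [Set.mem_insert_iff, Set.mem_singleton_iff] at m1 m2 m3
        rcases m1 with m1 | m1 <;> rcases m2 with m2 | m2 <;> rcases m3 with m3 | m3
        · exact absurd (m2.trans m1.symm) a2
        · exact absurd (m2.trans m1.symm) a2
        · rw [m3, m1]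
        · exact absurd (m3.trans m2.symm) hne
        · exact absurd (m3.trans m2.symm) hne
        · rw [m3, m1]
        · exact absurd (m2.trans m1.symm) a2
        · exact absurd (m2.trans m1.symm) a2
      · refine ⟨by rw [← a1]; exact i1, by rw [← a2]; exact i2, ?_⟩
        have hn := hP.diamond_edge D.2.1 hD.2.1
        obtain ⟨a, b, -, hab⟩ := Set.ncard_eq_two.1 hn
        have m1 : D.2.2 ∈ ({a, b} : Set (Set (Sym2 X))) := by
          rw [← hab]; exact ⟨hD.2.2.1, hD.2.2.2.2⟩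
        have m2 : C.2.2 ∈ ({a, b} : Set (Set (Sym2 X))) := by
          rw [← hab]
          exact ⟨hC.2.2.1, by rw [← a2]; exact hC.2.2.2.2⟩
        have m3 : Sym2.map g '' D.2.2 ∈ ({a, b} : Set (Set (Sym2 X))) := by
          rw [← hab]
          refine ⟨hF _ hD.2.2.1, D.2.1, hD.2.2.2.2, ?_⟩
          rw [← a2]; exact i2
        have hne : Sym2.map g '' D.2.2 ≠ C.2.2 := by
          intro h
          rw [← i3] at h
          exact a3 (Set.image_injective.2 hinj h).symm
        simp only [Set.mem_insert_iff, Set.mem_singleton_iff] at m1 m2 m3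
        rcases m1 with m1 | m1 <;> rcases m2 with m2 | m2 <;> rcases m3 with m3 | m3
        · exact absurd (m2.trans m1.symm) a3
        · exact absurd (m2.trans m1.symm) a3
        · rw [m3, m1]
        · exact absurd (m3.trans m2.symm) hne
        · exact absurd (m3.trans m2.symm) hne
        · rw [m3, m1]
        · exact absurd (m2.trans m1.symm) a3
        · exact absurd (m2.trans m1.symm) a3
  exact (key B hc).1

/-- The group of the affine isometries of the coordinate space that map `Q` to itself. -/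
def isoGrp (Q : Cfg V3) : Subgroup (Equiv.Perm V3) where
  carrier := {g | (∃ M a, Mᵀ * M = 1 ∧ IsAff g M a) ∧ Q.map g = Q}
  one_mem' := by
    refine ⟨⟨1, 0, by simp, fun x => by simp⟩, ?_⟩
    exact Cfg.map_id' Q
  mul_mem' := by
    rintro g h ⟨⟨M, a, hM, hg⟩, hgQ⟩ ⟨⟨N, b, hN, hh⟩, hhQ⟩
    refine ⟨⟨M * N, M *ᵥ b + a, ?_, ?_⟩, ?_⟩
    · rw [Matrix.transpose_mul, Matrix.mul_assoc, ← Matrix.mul_assoc Mᵀ, hM, Matrix.one_mul, hN]
    · intro x
      rw [Equiv.Perm.mul_apply, hh, hg, Matrix.mulVec_add, Matrix.mulVec_mulVec, add_assoc]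
    · have : ((g * h : Equiv.Perm V3) : V3 → V3) = fun x => g (h x) := rfl
      rw [this, ← Cfg.map_map, hhQ, hgQ]
  inv_mem' := by
    rintro g ⟨⟨M, a, hM, hg⟩, hgQ⟩
    refine ⟨⟨Mᵀ, -(Mᵀ *ᵥ a), ?_, ?_⟩, ?_⟩
    · rw [Matrix.transpose_transpose]; exact orth_tr hM
    · intro x
      rw [Equiv.Perm.inv_eq_iff_eq, hg, Matrix.mulVec_add, Matrix.mulVec_neg, orth_mulVec_tr hM,
        orth_mulVec_tr hM, neg_add_cancel_right]
    · have h1 : Q.map (g⁻¹ : Equiv.Perm V3) = (Q.map g).map (g⁻¹ : Equiv.Perm V3) := by rw [hgQ]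
      rw [h1, Cfg.map_map]
      have : (fun x => (g⁻¹ : Equiv.Perm V3) (g x)) = fun x => x := by
        funext x
        exact Equiv.symm_apply_apply g x
      rw [this, Cfg.map_id']

theorem mem_isoGrp {Q : Cfg V3} {g : Equiv.Perm V3} :
    g ∈ isoGrp Q ↔ (∃ M a, Mᵀ * M = 1 ∧ IsAff g M a) ∧ Q.map g = Q := Iff.rfl

/-- A matrix is determined by its values on a set in no plane through the origin. -/
theorem mat_eq_of_spans {V : Set V3} (hV : Spans V) {M N : M3}
    (h : ∀ x ∈ V, M *ᵥ x = N *ᵥ x) : M = N := by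
  ext i j
  by_contra hne
  have hn : (M i - N i : V3) ≠ 0 := by
    intro h0
    apply hne
    have := congrFun h0 j
    rw [Pi.sub_apply, Pi.zero_apply, sub_eq_zero] at this
    exact this
  obtain ⟨x, hx, hnx⟩ := hV _ hn
  apply hnx
  have h1 := congrFun (h x hx) i
  rw [sub_dotProduct, sub_eq_zero]
  exact h1

/-- A permutation of the coordinate space attached to an isometry. -/
noncomputable def pm (p : E3) (g : E3 ≃ᵢ E3) : Equiv.Perm V3 where
  toFun y := coords p (g (point p y))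
  invFun y := coords p (g.symm (point p y))
  left_inv y := by
    simp only [point_coords, IsometryEquiv.symm_apply_apply, coords_point]
  right_inv y := by
    simp only [point_coords, IsometryEquiv.apply_symm_apply, coords_point]

theorem pm_apply (p : E3) (g : E3 ≃ᵢ E3) (x : E3) : pm p g (coords p x) = coords p (g x) := by
  show coords p (g (point p (coords p x))) = coords p (g x)
  rw [point_coords]

theorem pm_mem {P : Cfg E3} {p : E3} {g : E3 ≃ᵢ E3} (hg : P.map g = P) :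
    pm p g ∈ isoGrp (P.map (coords p)) := by
  obtain ⟨A, hA, hAg⟩ := exists_matrix g
  refine ⟨⟨A, A *ᵥ WithLp.ofLp p + WithLp.ofLp (g 0) - WithLp.ofLp p, hA, ?_⟩, ?_⟩
  · intro y
    show WithLp.ofLp (g (point p y)) - WithLp.ofLp p = _
    rw [hAg]
    unfold point
    rw [WithLp.ofLp_add, Matrix.mulVec_add]
    abel
  · rw [Cfg.map_map]
    have : (fun x => pm p g (coords p x)) = fun x => coords p (g x) := funext (pm_apply p g)
    rw [this, ← Cfg.map_map P g (coords p), hg]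

theorem pm_sym2 (p : E3) (g : E3 ≃ᵢ E3) (e : Sym2 E3) :
    Sym2.map (pm p g) (Sym2.map (coords p) e) = Sym2.map (coords p) (Sym2.map g e) := by
  rw [Sym2.map_map, Sym2.map_map]
  have : (pm p g : V3 → V3) ∘ coords p = coords p ∘ g := funext (pm_apply p g)
  rw [this]

theorem acts_isoGrp {P : Cfg E3} (hT : FullyTransitive P) (p : E3) :
    Acts (isoGrp (P.map (coords p))) (P.map (coords p)) where
  sym g hg := hg.2
  tV := by
    rintro _ ⟨x, hx, rfl⟩ _ ⟨y, hy, rfl⟩
    obtain ⟨g, hg, hgx⟩ := hT.1 x hx y hy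
    exact ⟨pm p g, pm_mem hg, by rw [pm_apply, hgx]⟩
  tE := by
    rintro _ ⟨x, hx, rfl⟩ _ ⟨y, hy, rfl⟩
    obtain ⟨g, hg, hgx⟩ := hT.2.1 x hx y hy
    exact ⟨pm p g, pm_mem hg, by rw [pm_sym2, hgx]⟩
  tF := by
    rintro _ ⟨x, hx, rfl⟩ _ ⟨y, hy, rfl⟩
    obtain ⟨g, hg, hgx⟩ := hT.2.2 x hx y hy
    refine ⟨pm p g, pm_mem hg, ?_⟩
    show Sym2.map (pm p g) '' (Sym2.map (coords p) '' x) = Sym2.map (coords p) '' y
    rw [← hgx, Set.image_image, Set.image_image]
    exact Set.image_congr fun e _ => pm_sym2 p g e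

/-- Only finitely many vertices lie in a bounded region. -/
theorem finite_box {P : Cfg E3} (hd : DiscreteTopology P.V) (hT : FullyTransitive P) {p : E3}
    (hp : p ∈ P.V) (R : ℝ) : {y | y ∈ (P.map (coords p)).V ∧ ∀ i, |y i| ≤ R}.Finite := by
  have hdisc : IsDiscrete P.V := ⟨hd⟩
  obtain ⟨r, hr, hball⟩ := Metric.exists_ball_inter_eq_singleton_of_mem_discrete hdisc hp
  have hpair : P.V.Pairwise fun x y => r ≤ dist x y := by
    intro x hx y hy hxy
    by_contra hlt
    push Not at hlt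
    obtain ⟨g, hg, hgx⟩ := hT.1 x hx p hp
    have hgy : g y ∈ P.V := by
      have : g y ∈ (P.map g).V := ⟨y, hy, rfl⟩
      rwa [hg] at this
    have h1 : g y ∈ Metric.ball p r ∩ P.V := by
      refine ⟨?_, hgy⟩
      rw [Metric.mem_ball, ← hgx, g.isometry.dist_eq, dist_comm]
      exact hlt
    rw [hball, Set.mem_singleton_iff, ← hgx] at h1
    exact hxy (g.injective h1).symm
  have hclosed : IsClosed P.V := Metric.isClosed_of_pairwise_le_dist hr hpair
  have hfin := Metric.finite_isBounded_inter_isClosed (K := Metric.closedBall p (2 * |R|)) hdisc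
    Metric.isBounded_closedBall hclosed
  refine (hfin.image (coords p)).subset ?_
  rintro _ ⟨⟨x, hx, rfl⟩, hR⟩
  refine ⟨x, ⟨?_, hx⟩, rfl⟩
  rw [Metric.mem_closedBall, dist_eq_norm]
  have h1 : ‖x - p‖ ^ 2 ≤ (2 * |R|) ^ 2 := by
    rw [EuclideanSpace.norm_sq_eq, Fin.sum_univ_three]
    have h2 : ∀ i, ‖(x - p).ofLp i‖ ^ 2 ≤ |R| ^ 2 := by
      intro i
      have h3 : (x - p).ofLp i = coords p x i := rfl
      rw [h3, Real.norm_eq_abs]
      exact pow_le_pow_left₀ (abs_nonneg _) ((hR i).trans (le_abs_self R)) 2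
    have h4 := h2 0
    have h5 := h2 1
    have h6 := h2 2
    nlinarith [sq_nonneg |R|]
  exact le_of_sq_le_sq h1 (by positivity)

theorem spans_coords {P : Cfg E3} (hs : affineSpan ℝ P.V = ⊤) (p : E3) :
    Spans (P.map (coords p)).V := by
  intro n hn
  by_contra hcon
  push Not at hcon
  apply hn
  refine zero_of_const hs (r := WithLp.ofLp p ⬝ᵥ n) ?_
  intro x hx
  have h1 := hcon (coords p x) ⟨x, hx, rfl⟩
  unfold coords at h1
  rw [dotProduct_sub, sub_eq_zero] at h1
  rw [dotProduct_comm, h1, dotProduct_comm]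

/-- A set in no plane through the origin contains a finite such set. -/
theorem exists_finset_spans {V : Set V3} (hV : Spans V) :
    ∃ S : Finset V3, (S : Set V3) ⊆ V ∧ Spans (S : Set V3) := by
  obtain ⟨S, hS, hspan⟩ := (Submodule.fg_span_iff_fg_span_finset_subset (R := ℝ) V).1
    (IsNoetherian.noetherian _)
  refine ⟨S, hS, ?_⟩
  intro n hn
  by_contra hcon
  push Not at hcon
  obtain ⟨x, hx, hnx⟩ := hV n hn
  apply hnx
  let F : V3 →ₗ[ℝ] ℝ :=
    { toFun := fun x => n ⬝ᵥ x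
      map_add' := by intro x y; exact dotProduct_add _ _ _
      map_smul' := by intro t x; rw [dotProduct_smul]; rfl }
  have hle : Submodule.span ℝ V ≤ LinearMap.ker F := by
    rw [hspan, Submodule.span_le]
    intro y hy
    exact hcon y hy
  exact hle (Submodule.subset_span hx)

theorem disc_isoGrp {Q : Cfg V3} (hV : Spans Q.V) (h0 : (0 : V3) ∈ Q.V)
    (hfin : ∀ R : ℝ, {y | y ∈ Q.V ∧ ∀ i, |y i| ≤ R}.Finite) : Disc (isoGrp Q) := by
  intro R
  obtain ⟨S, hS, hSV⟩ := exists_finset_spans hV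
  classical
  set T : Finset V3 := insert 0 S with hT
  have hTV : ∀ v ∈ T, v ∈ Q.V := by
    intro v hv
    rw [hT, Finset.mem_insert] at hv
    rcases hv with rfl | hv
    · exact h0
    · exact hS hv
  set C : ℝ := 1 + ∑ v ∈ T, v ⬝ᵥ v with hC
  have hpos : ∀ v : V3, 0 ≤ v ⬝ᵥ v := fun v => by
    rw [dotProduct]
    exact Finset.sum_nonneg fun i _ => mul_self_nonneg _
  have hC1 : 1 ≤ C := by
    rw [hC]
    have := Finset.sum_nonneg (fun v (_ : v ∈ T) => hpos v)
    linarith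
  have hCv : ∀ v ∈ T, v ⬝ᵥ v ≤ C := by
    intro v hv
    rw [hC]
    have := Finset.single_le_sum (f := fun v : V3 => v ⬝ᵥ v) (fun v _ => hpos v) hv
    linarith
  have hB := hfin (R + C)
  have hBpi : (Set.univ.pi (fun _ : T => {y | y ∈ Q.V ∧ ∀ i, |y i| ≤ R + C})).Finite :=
    Set.Finite.pi fun _ => hB
  refine Set.Finite.of_injOn (f := fun (g : Equiv.Perm V3) (v : T) => g (v : V3)) ?_ ?_ hBpi
  · rintro g ⟨⟨⟨M, a, hM, hg⟩, hgQ⟩, hR⟩ ⟨v, hv⟩ -
    refine ⟨?_, ?_⟩
    · have : g v ∈ (Q.map g).V := ⟨v, hTV v hv, rfl⟩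
      rwa [hgQ] at this
    · intro i
      have hg0 : g 0 = a := by rw [hg, Matrix.mulVec_zero, zero_add]
      have h1 := hR i
      rw [hg0] at h1
      show |g v i| ≤ R + C
      rw [hg, Pi.add_apply]
      have h2 : (M *ᵥ v) i * (M *ᵥ v) i ≤ v ⬝ᵥ v := by
        rw [← orth_dot hM v v, dotProduct]
        exact Finset.single_le_sum (f := fun i => (M *ᵥ v) i * (M *ᵥ v) i)
          (fun j _ => mul_self_nonneg _) (Finset.mem_univ i)
      have h3 : |(M *ᵥ v) i| ≤ C := by
        refine abs_le_of_sq_le_sq ?_ (by linarith)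
        have := hCv v hv
        nlinarith
      calc |(M *ᵥ v) i + a i| ≤ |(M *ᵥ v) i| + |a i| := abs_add_le _ _
        _ ≤ R + C := by linarith
  · rintro g ⟨⟨⟨M, a, hM, hg⟩, -⟩, -⟩ g' ⟨⟨⟨N, b, hN, hg'⟩, -⟩, -⟩ heq
    have heq' : ∀ v ∈ T, g v = g' v := fun v hv => congrFun heq ⟨v, hv⟩
    have hab : a = b := by
      have := heq' 0 (by rw [hT]; exact Finset.mem_insert_self _ _)
      rwa [hg, hg', Matrix.mulVec_zero, Matrix.mulVec_zero, zero_add, zero_add] at this
    have hMN : M = N := by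
      refine mat_eq_of_spans hSV ?_
      intro x hx
      have := heq' x (by rw [hT]; exact Finset.mem_insert_of_mem hx)
      rw [hg, hg', hab] at this
      exact add_right_cancel this
    ext1 x
    rw [hg, hg', hMN, hab]

theorem semireg_isoGrp {Q : Cfg V3} (hP : Q.IsPolyhedron) (hV : Spans Q.V)
    (h0 : (0 : V3) ∈ Q.V) : Semireg (isoGrp Q) Q := by
  rintro g ⟨⟨M, a, hM, hg⟩, hgQ⟩ x y f hf hxy hgx hgy hgf
  have hE : s(x, y) ∈ Q.E := hP.face_sub hf hxy
  have hA : Q.IsFlag (x, s(x, y), f) := ⟨hP.left_mem hE, hE, hf, Sym2.mem_mk_left x y, hxy⟩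
  have hfix : ∀ z ∈ Q.V, g z = z := by
    intro z hz
    obtain ⟨e, he, hze⟩ := hP.vertex z hz
    obtain ⟨f', -, -, hf', -, hef', -, -⟩ := hP.two_faces he
    exact fix_flags hP hgQ hA (B := (z, e, f')) ⟨hz, he, hf', hze, hef'⟩ hgx
      (by show Sym2.map g s(x, y) = s(x, y); rw [Sym2.map_mk, hgx, hgy]) hgf
  have ha : a = 0 := by
    have := hfix 0 h0
    rwa [hg, Matrix.mulVec_zero, zero_add] at this
  have hM1 : M = 1 := by
    refine mat_eq_of_spans hV ?_
    intro z hz
    have := hfix z hz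
    rw [hg, ha, add_zero] at this
    rw [this, Matrix.one_mulVec]
  ext1 z
  rw [hg, hM1, ha, Matrix.one_mulVec, add_zero]
  rfl

/-- Reduction to coordinates. -/
theorem reduction {P : Cfg E3} (hP : P.IsPolyhedron) (hd : DiscreteTopology P.V)
    (hs : affineSpan ℝ P.V = ⊤) (hft : FullyTransitive P) :
    ∃ (t : E3 ≃ᵢ E3) (Q : Cfg V3) (G : Subgroup (Equiv.Perm V3)),
      P = Q.map (fun x => t (WithLp.toLp 2 x)) ∧ Q.IsPolyhedron ∧ (0 : V3) ∈ Q.V ∧
      Acts G Q ∧ Semireg G Q ∧ Iso G ∧ Disc G ∧ Spans Q.V := by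
  obtain ⟨p, hp⟩ := hP.nonempty
  have hQ : (P.map (coords p)).IsPolyhedron := Cfg.IsPolyhedron.map (coords_inj p) hP
  have h0 : (0 : V3) ∈ (P.map (coords p)).V := ⟨p, hp, by unfold coords; exact sub_self _⟩
  have hsp := spans_coords hs p
  refine ⟨IsometryEquiv.addRight p, P.map (coords p), isoGrp (P.map (coords p)), ?_, hQ, h0,
    acts_isoGrp hft p, semireg_isoGrp hQ hsp h0, fun g hg => hg.1,
    disc_isoGrp hsp h0 (finite_box hd hft hp), hsp⟩
  rw [Cfg.map_map]
  have : (fun x : E3 => IsometryEquiv.addRight p (WithLp.toLp 2 (coords p x))) = fun x => x := by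
    funext x
    exact point_coords p x
  rw [this, Cfg.map_id']

end Pool.Agent.H21.FT
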