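import Pool.Agent.H21.FT.Items
import Pool.Agent.H21.FT.Conv
import Pool.Agent.H21.FT.Fwd
import Pool.Agent.H21.FT.Cnj
import Pool.Agent.H21.FT.Reduction
import Pool.Agent.H21.FT.Realize
import Pool.Agent.H21.FT.DefsC

/-!
# The classification of the infinite fully transitive polyhedra: assembly
-/

namespace Pool.Agent.H21.FT

open Matrix
open Pool.Agent.H38.FT (Cfg E3 FullyTransitive Similar)

theorem IsAff.lin_mul {f : Equiv.Perm V3} {Q : M3} (hf : IsAff f Q 0) (x : V3) : f x = Q *ᵥ x := by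
  rw [hf x, add_zero]

/-- `t (ρ • x)` is of the form `ρ • g x`. -/
theorem exists_smul_isom (t : E3 ≃ᵢ E3) {ρ : ℝ} (hρ : 0 < ρ) :
    ∃ g : E3 ≃ᵢ E3, ∀ x, t (ρ • x) = ρ • g x := by
  refine ⟨IsometryEquiv.mk' (fun x => ρ⁻¹ • t (ρ • x)) (fun x => ρ⁻¹ • t.symm (ρ • x)) ?_ ?_, ?_⟩
  · intro x
    simp only [smul_smul, mul_inv_cancel₀ hρ.ne', one_smul, IsometryEquiv.apply_symm_apply,
      inv_mul_cancel₀ hρ.ne']
  · refine Isometry.of_dist_eq fun x y => ?_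
    rw [dist_smul₀, t.dist_eq, dist_smul₀, ← mul_assoc, Real.norm_eq_abs, Real.norm_eq_abs,
      abs_of_pos hρ, abs_of_pos (inv_pos.2 hρ), inv_mul_cancel₀ hρ.ne', one_mul]
  · intro x
    change t (ρ • x) = ρ • (ρ⁻¹ • t (ρ • x))
    rw [smul_smul, mul_inv_cancel₀ hρ.ne', one_smul]

/-- An orthogonal matrix gives an isometry of `E3`. -/
theorem exists_isom_orth {U : M3} (hU : Uᵀ * U = 1) :
    ∃ g : E3 ≃ᵢ E3, ∀ x : V3, g (WithLp.toLp 2 x) = WithLp.toLp 2 (U *ᵥ x) := by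
  have hU' : U * Uᵀ = 1 := mul_eq_one_comm.1 hU
  refine ⟨IsometryEquiv.mk' (fun x => WithLp.toLp 2 (U *ᵥ (WithLp.ofLp x)))
    (fun x => WithLp.toLp 2 (Uᵀ *ᵥ (WithLp.ofLp x))) ?_ ?_, ?_⟩
  · intro x
    change WithLp.toLp 2 (U *ᵥ (Uᵀ *ᵥ (WithLp.ofLp x))) = x
    rw [mulVec_mulVec, hU', one_mulVec]
  · refine Isometry.of_dist_eq fun x y => ?_
    rw [EuclideanSpace.dist_eq, EuclideanSpace.dist_eq]
    congr 1
    have h1 : ∀ v : V3, ∑ i, (v i) ^ 2 = v ⬝ᵥ v := fun v => by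
      simp [dotProduct, pow_two]
    have h2 : ∀ v : V3, (U *ᵥ v) ⬝ᵥ (U *ᵥ v) = v ⬝ᵥ v := fun v => by
      rw [dotProduct_mulVec, vecMul_mulVec, ← dotProduct_mulVec, hU, one_mulVec]
    have h3 : ∑ i, (dist ((U *ᵥ (WithLp.ofLp x)) i) ((U *ᵥ (WithLp.ofLp y)) i)) ^ 2 =
        (U *ᵥ (WithLp.ofLp x - WithLp.ofLp y)) ⬝ᵥ (U *ᵥ (WithLp.ofLp x - WithLp.ofLp y)) := by
      rw [← h1, mulVec_sub]
      exact Finset.sum_congr rfl fun i _ => by rw [Real.dist_eq, sq_abs]; rfl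
    have h4 : ∑ i, (dist (WithLp.ofLp x i) (WithLp.ofLp y i)) ^ 2 =
        (WithLp.ofLp x - WithLp.ofLp y) ⬝ᵥ (WithLp.ofLp x - WithLp.ofLp y) := by
      rw [← h1]
      exact Finset.sum_congr rfl fun i _ => by rw [Real.dist_eq, sq_abs]; rfl
    change ∑ i, (dist ((U *ᵥ (WithLp.ofLp x)) i) ((U *ᵥ (WithLp.ofLp y)) i)) ^ 2 =
      ∑ i, (dist (WithLp.ofLp x i) (WithLp.ofLp y i)) ^ 2
    rw [h3, h4, h2]
  · intro x
    rfl

/-- Facts on the generators used by the linear classification. -/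
theorem good_facts {X : Type*} {c : Cls} {A B s : Equiv.Perm X} {o : X} (h : Good c A B s o) :
    A ≠ 1 ∧ (B = 1 ∨ (A * A = 1 ∧ B * B = 1)) ∧
    ((∀ g ∈ stab A B, g = 1 ∨ g = A) → ∀ g ∈ stab A B, g (s o) ≠ s⁻¹ o) := by
  have hAs : A ∈ stab A B := Subgroup.subset_closure (Or.inl rfl)
  have hBs : B ∈ stab A B := Subgroup.subset_closure (Or.inr rfl)
  cases c
  · obtain ⟨hAA, hBB, hss, hsB⟩ := h.rel
    obtain ⟨h1, h2, h3, h4⟩ := h.nondeg
    refine ⟨fun he => h3 (by rw [he]; rfl), Or.inr ⟨hAA, hBB⟩, fun hc => ?_⟩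
    exfalso
    have hBw : B (s o) = s o := by
      have := congrArg (fun g => g o) hsB
      simp only [Equiv.Perm.mul_apply, h.hB] at this
      exact this.symm
    rcases hc B hBs with hb | hb
    · exact h4 (by rw [hb]; rfl)
    · exact h3 (by rw [← hb]; exact hBw)
  · obtain ⟨hB1, hss⟩ := h.rel
    obtain ⟨h1, h2, h3, h4⟩ := h.nondeg
    refine ⟨h3, Or.inl hB1, fun hc => ?_⟩
    exfalso
    rcases hc (A * A) (mul_mem hAs hAs) with hb | hb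
    · exact h4 hb
    · exact h3 (mul_eq_left.1 hb)
  · obtain ⟨hB1, hss⟩ := h.rel
    obtain ⟨h1, h2, h3, h4⟩ := h.nondeg
    refine ⟨h3, Or.inl hB1, fun hc => ?_⟩
    exfalso
    rcases hc (A * A) (mul_mem hAs hAs) with hb | hb
    · exact h4 hb
    · exact h3 (mul_eq_left.1 hb)
  · obtain ⟨hAA, hBB, hss⟩ := h.rel
    obtain ⟨h1, h2, h3, h4, h5⟩ := h.nondeg
    refine ⟨h3, Or.inr ⟨hAA, hBB⟩, fun hc => ?_⟩
    exfalso
    rcases hc B hBs with hb | hb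
    · exact h4 hb
    · exact h5 hb.symm
  · obtain ⟨hAA, hAw, hBe⟩ := h.rel
    obtain ⟨h1, h2, h3, h4⟩ := h.nondeg
    refine ⟨fun he => h3 (by rw [he]; rfl), Or.inr ⟨hAA, ?_⟩, fun _ => h4⟩
    rw [hBe]
    calc s⁻¹ * A * s * (s⁻¹ * A * s) = s⁻¹ * (A * A) * s := by group
      _ = 1 := by rw [hAA]; group
  · obtain ⟨h1, h2, h3, h4⟩ := h.nondeg
    exact ⟨h3, Or.inl h.rel, fun _ => h4⟩
  · obtain ⟨hAA, hBB⟩ := h.rel
    obtain ⟨h1, h2, h3, h4, h5⟩ := h.nondeg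
    exact ⟨h3, Or.inr ⟨hAA, hBB⟩, fun _ => h5⟩

/-- The linear classification, the soundness of the table and of the rods imply the
classification. -/
theorem main
    (lin_class : ∀ {A B s : Equiv.Perm V3}, Iso (grp A B s) → Disc (grp A B s) → A 0 = 0 → B 0 = 0 →
      (∀ g ∈ grp A B s, g 0 = 0 → g ∈ stab A B) → Spans {x | ∃ g ∈ grp A B s, x = g 0} →
      {x | ∃ g ∈ grp A B s, x = g 0}.Infinite → A ≠ 1 → (B = 1 ∨ (A * A = 1 ∧ B * B = 1)) →
      ((∀ g ∈ stab A B, g = 1 ∨ g = A) → ∀ g ∈ stab A B, g (s 0) ≠ s⁻¹ 0) → Conc A B s)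
    (table_sound : ∀ {b : Block}, b ∈ table → ∀ {A B s : Equiv.Perm V3}, b.Has A B s →
      A 0 = 0 ∧ B 0 = 0 ∧ (∀ g ∈ grp A B s, g 0 = 0 → g ∈ stab A B) ∧ Disc (grp A B s) ∧
      ∀ g ∈ grp A B s, ∃ N ∈ b.kind.auts, ∃ a, IsAff g N.mat a)
    (auts_orth : ∀ {k : Kind} {N : IM}, N ∈ k.auts → ∀ {b c : ℝ}, 0 < b → 0 < c →
      (k.frame b c).det ≠ 0 ∧
      (k.frame b c * N.mat * (k.frame b c)⁻¹)ᵀ * (k.frame b c * N.mat * (k.frame b c)⁻¹) = 1)
    (rod_sound : ∀ {r : Rod} {A B s : Equiv.Perm V3}, r.Has A B s →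
      A 0 = 0 ∧ B 0 = 0 ∧ (∀ g ∈ grp A B s, g 0 = 0 → g ∈ stab A B) ∧ Disc (grp A B s) ∧
      ∀ c : ℝ, 0 < c → ∀ g ∈ grp A B s, ∃ M a, IsAff g M a ∧
        (Kind.frame .tet 1 c * M * (Kind.frame .tet 1 c)⁻¹)ᵀ *
          (Kind.frame .tet 1 c * M * (Kind.frame .tet 1 c)⁻¹) = 1) :
    (∀ P : Cfg E3, P.IsPolyhedron → DiscreteTopology P.V → affineSpan ℝ P.V = ⊤ →
      P.V.Infinite → FullyTransitive P → ∃ (c : Cls) (k : Kind) (b' c' : ℝ)
        (A B s : Equiv.Perm V3), Admissible c k A B s ∧ 0 < b' ∧ 0 < c' ∧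
        Similar P (item c k b' c' A B s)) ∧
    (∀ (c : Cls) (k : Kind) (b' c' : ℝ) (A B s : Equiv.Perm V3), Admissible c k A B s → 0 < b' →
      0 < c' → (item c k b' c' A B s).IsPolyhedron ∧ FullyTransitive (item c k b' c' A B s) ∧
        DiscreteTopology (item c k b' c' A B s).V ∧
        affineSpan ℝ (item c k b' c' A B s).V = ⊤) := by
  constructor
  · intro P hP hd hs hinf hft
    obtain ⟨t, Q, G, hPQ, hQ, h0, hA, hS, hIso, hDisc, hSp⟩ := reduction hP hd hs hft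
    obtain ⟨c, A, B, s, hAG, hBG, hsG, hgood, hQc⟩ := fwd hQ hA hS h0
    have hle : grp A B s ≤ G := by
      rw [grp, Subgroup.closure_le]
      rintro x (rfl | rfl | rfl) <;> assumption
    have hV : (cfg c A B s 0).V = {x | ∃ g ∈ grp A B s, x = g 0} := rfl
    have hQV : Q.V = {x | ∃ g ∈ grp A B s, x = g 0} := by rw [hQc, hV]
    have hinfQ : {x | ∃ g ∈ grp A B s, x = g 0}.Infinite := by
      rw [← hQV]
      intro hf
      apply hinf
      rw [hPQ]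
      exact hf.image _
    obtain ⟨hA1, hAB, hdeg⟩ := good_facts hgood
    obtain ⟨k, Q', f, A', B', s', ⟨ρ, hρ, U, hU, b', c', hb', hc', hQ'⟩, hf, hAe, hBe, hse, hl⟩ :=
      lin_class (fun g hg => hIso g (hle hg))
        (fun R => (hDisc R).subset (fun g hg => ⟨hle hg.1, hg.2⟩)) hgood.hA hgood.hB hgood.stab
        (by rw [← hQV]; exact hSp) hinfQ hA1 hAB hdeg
    have hf0 : f 0 = 0 := by rw [hf.lin_mul, mulVec_zero]
    have hfi0 : f⁻¹ 0 = 0 := by rw [Equiv.Perm.inv_eq_iff_eq, hf0]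
    have hA' : A' = f⁻¹ * A * f⁻¹⁻¹ := by rw [hAe]; group
    have hB' : B' = f⁻¹ * B * f⁻¹⁻¹ := by rw [hBe]; group
    have hs' : s' = f⁻¹ * s * f⁻¹⁻¹ := by rw [hse]; group
    have hgood' : Good c A' B' s' 0 := by
      have := good_cnj f⁻¹ hgood
      rwa [← hA', ← hB', ← hs', hfi0] at this
    have hcfg : cfg c A B s 0 = (cfg c A' B' s' 0).map f := by
      have := cfg_cnj c f A' B' s' 0
      rwa [← hAe, ← hBe, ← hse, hf0] at this
    have hdet : Q'.det ≠ 0 := by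
      intro hdet
      obtain ⟨v, hv, hv0⟩ := Matrix.exists_mulVec_eq_zero_iff.2 hdet
      exact hv (f.injective (by rw [hf.lin_mul, hv0, hf0]))
    refine ⟨c, k, b', c', A', B', s', ⟨?_, hgood'.rel, hgood'.nondeg, hgood'.simple, ?_⟩, hb', hc',
      ?_⟩
    · rcases hl with hl | ⟨hk, hl⟩
      · exact Or.inl hl
      · exact Or.inr ⟨hk, hl⟩
    · -- Spans
      intro n hn
      have hn' : (Q'⁻¹)ᵀ *ᵥ n ≠ 0 := by
        intro h
        apply hn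
        have := congrArg (fun v => Q'ᵀ *ᵥ v) h
        simp only [mulVec_mulVec, ← transpose_mul, mulVec_zero] at this
        rwa [nonsing_inv_mul _ (Ne.isUnit hdet), transpose_one, one_mulVec] at this
      obtain ⟨x, hx, hnx⟩ := hSp _ hn'
      rw [hQc, hcfg] at hx
      obtain ⟨y, hy, rfl⟩ := hx
      refine ⟨y, hy, ?_⟩
      have : (Q'⁻¹)ᵀ *ᵥ n ⬝ᵥ f y = n ⬝ᵥ y := by
        rw [hf.lin_mul, dotProduct_mulVec, vecMul_mulVec, ← dotProduct_mulVec, transpose_transpose,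
          nonsing_inv_mul _ (Ne.isUnit hdet), one_mulVec]
      rwa [this] at hnx
    · -- Similar
      obtain ⟨g1, hg1⟩ := exists_isom_orth hU
      obtain ⟨g2, hg2⟩ := exists_smul_isom t hρ
      refine ⟨ρ, hρ, g1.trans g2, ?_⟩
      rw [hPQ, hQc, hcfg, item, Pool.Agent.H38.FT.Cfg.map_map, Pool.Agent.H38.FT.Cfg.map_map]
      congr 1
      funext x
      rw [hf.lin_mul, hQ', smul_mulVec, WithLp.toLp_smul, hg2, ← mulVec_mulVec]
      change ρ • g2 _ = ρ • g2 (g1 _)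
      rw [hg1]
  · intro c k b' c' A B s hadm hb' hc'
    have key : A 0 = 0 ∧ B 0 = 0 ∧ (∀ g ∈ grp A B s, g 0 = 0 → g ∈ stab A B) ∧
        Disc (grp A B s) ∧ (k.frame b' c').det ≠ 0 ∧ ∀ g ∈ grp A B s, ∃ M a, IsAff g M a ∧
        (k.frame b' c' * M * (k.frame b' c')⁻¹)ᵀ * (k.frame b' c' * M * (k.frame b' c')⁻¹) = 1 := by
      rcases hadm.listed with ⟨b, hb, rfl, hh⟩ | ⟨rfl, r, hr⟩
      · obtain ⟨h1, h2, h3, h4, h5⟩ := table_sound hb hh
        refine ⟨h1, h2, h3, h4, ?_, fun g hg => ?_⟩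
        · obtain ⟨N, hN, -⟩ := h5 1 (one_mem _)
          exact (auts_orth hN hb' hc').1
        · obtain ⟨N, hN, a, ha⟩ := h5 g hg
          exact ⟨N.mat, a, ha, (auts_orth hN hb' hc').2⟩
      · obtain ⟨h1, h2, h3, h4, h5⟩ := rod_sound hr
        refine ⟨h1, h2, h3, h4, ?_, fun g hg => ?_⟩
        · simp only [Kind.frame, det_fin_three]
          simp [hc'.ne']
        · exact h5 c' hc' g hg
    obtain ⟨h1, h2, h3, h4, h5, h6⟩ := key
    have hgood : Good c A B s 0 := ⟨h1, h2, hadm.rel, hadm.nondeg, hadm.simple, h3⟩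
    obtain ⟨hc1, hc2⟩ := conv hgood
    exact realize hc1 hc2 h5 h6 h4 hadm.spans

end Pool.Agent.H21.FT
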