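import Pool.Agent.H21.FT.Reduction

/-!
# Reduction to coordinates, with the full symmetry group
-/

namespace Pool.Agent.H21.FT

open Matrix
open Pool.Agent.H38.FT (Cfg E3 FullyTransitive)

/-- Reduction to coordinates; the group consists of all isometries of the coordinate space that map
the configuration to itself. -/
theorem reduction' {P : Cfg E3} (hP : P.IsPolyhedron) (hd : DiscreteTopology P.V)
    (hs : affineSpan ℝ P.V = ⊤) (hft : FullyTransitive P) :
    ∃ (t : E3 ≃ᵢ E3) (Q : Cfg V3) (G : Subgroup (Equiv.Perm V3)),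
      P = Q.map (fun x => t (WithLp.toLp 2 x)) ∧ Q.IsPolyhedron ∧ (0 : V3) ∈ Q.V ∧
      Acts G Q ∧ Semireg G Q ∧ Iso G ∧ Disc G ∧ Spans Q.V ∧
      ∀ g : Equiv.Perm V3, (∃ M a, Mᵀ * M = 1 ∧ IsAff g M a) → Q.map g = Q → g ∈ G := by
  obtain ⟨p, hp⟩ := hP.nonempty
  have hQ : (P.map (coords p)).IsPolyhedron := Cfg.IsPolyhedron.map (coords_inj p) hP
  have h0 : (0 : V3) ∈ (P.map (coords p)).V := ⟨p, hp, by unfold coords; exact sub_self _⟩
  have hsp := spans_coords hs p
  refine ⟨IsometryEquiv.addRight p, P.map (coords p), isoGrp (P.map (coords p)), ?_, hQ, h0,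
    acts_isoGrp hft p, semireg_isoGrp hQ hsp h0, fun g hg => hg.1,
    disc_isoGrp hsp h0 (finite_box hd hft hp), hsp, fun g h1 h2 => ⟨h1, h2⟩⟩
  rw [Cfg.map_map]
  have : (fun x : E3 => IsometryEquiv.addRight p (WithLp.toLp 2 (coords p x))) = fun x => x := by
    funext x
    exact point_coords p x
  rw [this, Cfg.map_id']

end Pool.Agent.H21.FT
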