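import Pool.Agent.H21.FT.Tab
import Pool.Agent.H21.FT.AxialAux

/-!
# The rods are sound
-/

set_option autoImplicit false
set_option linter.unusedSimpArgs false

namespace Pool.Agent.H21.FT

open Matrix

namespace RodS

theorem link {l : List IM} {A B s t : Equiv.Perm V3} (h : stab A B = linGrp l)
    (hl : Link (stab A B) s t) : grp A B s = linGrp l ⊔ Subgroup.zpowers t := by
  have hA : A ∈ stab A B := Subgroup.subset_closure (by simp)
  have hB : B ∈ stab A B := Subgroup.subset_closure (by simp)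
  have hle : stab A B ≤ grp A B s := by
    unfold stab grp
    apply Subgroup.closure_mono
    intro x hx
    rcases hx with rfl | rfl <;> simp
  have hs : s ∈ grp A B s := Subgroup.subset_closure (by simp)
  obtain ⟨a, ha, b, hb, hab⟩ := hl
  rw [← h]
  have hsup : stab A B ≤ stab A B ⊔ Subgroup.zpowers t := le_sup_left
  have ht : t ∈ stab A B ⊔ Subgroup.zpowers t :=
    (le_sup_right : Subgroup.zpowers t ≤ _) (Subgroup.mem_zpowers t)
  apply le_antisymm
  · unfold grp
    rw [Subgroup.closure_le]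
    rintro x (rfl | rfl | rfl)
    · exact hsup hA
    · exact hsup hB
    · rcases hab with hab | hab
      · rw [hab]
        exact Subgroup.mul_mem _ (Subgroup.mul_mem _ (hsup ha) ht) (hsup hb)
      · rw [hab]
        exact Subgroup.mul_mem _ (Subgroup.mul_mem _ (hsup ha) (Subgroup.inv_mem _ ht)) (hsup hb)
  · refine sup_le hle ?_
    rw [Subgroup.zpowers_le]
    have hc : a⁻¹ * s * b⁻¹ ∈ grp A B s :=
      Subgroup.mul_mem _ (Subgroup.mul_mem _ (Subgroup.inv_mem _ (hle ha)) hs)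
        (Subgroup.inv_mem _ (hle hb))
    rcases hab with hab | hab
    · have : t = a⁻¹ * s * b⁻¹ := by rw [hab]; group
      rw [this]
      exact hc
    · have : t = (a⁻¹ * s * b⁻¹)⁻¹ := by rw [hab]; group
      rw [this]
      exact Subgroup.inv_mem _ hc

/-- the sign of the vertical part -/
def sgz (τ : Bool) : ℤ := if τ then -1 else 1

/-- the translation part -/
noncomputable def tv (u : ℂ) (l : ℤ) : V3 := ![u.re - 1, u.im, (l : ℝ)]

/-- the condition on the elements of the group of a rod -/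
def Cond : Rod → Bool → Bool → ℤ → Prop
  | .r1, _, _, _ => True
  | .r2, σ, _, _ => σ = false
  | .r3, _, τ, _ => τ = false
  | .r4, σ, τ, l => (Even l ↔ σ = τ)

/-- the form of the elements of the group of a rod -/
def Form (r : Rod) (N : ℕ) (g : Equiv.Perm V3) : Prop :=
  ∃ (u : ℂ) (σ τ : Bool) (l : ℤ), u ^ N = 1 ∧ Cond r σ τ l ∧
    IsAff g (rt u σ (sgz τ : ℝ)) (tv u l)

theorem sgz_mul (τ τ' : Bool) : (sgz τ : ℝ) * (sgz τ' : ℝ) = (sgz (xor τ τ') : ℝ) := by
  cases τ <;> cases τ' <;> simp [sgz]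

theorem Cond.mul {r : Rod} {σ τ σ' τ' : Bool} {l l' : ℤ} (h : Cond r σ τ l)
    (h' : Cond r σ' τ' l') : Cond r (xor σ σ') (xor τ τ') (sgz τ * l' + l) := by
  cases r <;> simp only [Cond] at *
  · simp [h, h']
  · simp [h, h']
  · cases σ <;> cases τ <;> cases σ' <;> cases τ' <;>
      simp [sgz, Int.even_add, Int.even_sub, ← Int.not_even_iff_odd] at * <;> tauto

theorem Cond.inv {r : Rod} {σ τ : Bool} {l : ℤ} (h : Cond r σ τ l) :
    Cond r σ τ (-(sgz τ * l)) := by
  cases r <;> simp only [Cond] at *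
  · exact h
  · exact h
  · cases σ <;> cases τ <;> simp [sgz] at * <;> tauto

theorem Form.one (r : Rod) (N : ℕ) : Form r N 1 := by
  refine ⟨1, false, false, 0, one_pow N, by cases r <;> simp [Cond], ?_⟩
  have h1 : rt 1 false ((sgz false : ℤ) : ℝ) = 1 := by
    simp only [sgz, Bool.false_eq_true, if_false, Int.cast_one]
    exact rt_one
  have h2 : tv 1 0 = 0 := by
    ext i; fin_cases i <;> simp [tv]
  rw [h1, h2]
  exact isAff_one

theorem Form.mul {r : Rod} {N : ℕ} {g h : Equiv.Perm V3} (hg : Form r N g) (hh : Form r N h) :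
    Form r N (g * h) := by
  obtain ⟨u, σ, τ, l, hu, hc, ha⟩ := hg
  obtain ⟨u', σ', τ', l', hu', hc', ha'⟩ := hh
  refine ⟨u * cj σ u', xor σ σ', xor τ τ', sgz τ * l' + l, ?_, hc.mul hc', ?_⟩
  · rw [mul_pow, hu, one_mul]
    cases σ
    · exact hu'
    · change ((starRingEnd ℂ) u') ^ N = 1
      rw [← map_pow, hu', map_one]
  · have h1 := ha.mul ha'
    rw [rt_mul, sgz_mul] at h1
    have h2 : rt u σ (sgz τ : ℝ) *ᵥ tv u' l' + tv u l = tv (u * cj σ u') (sgz τ * l' + l) := by
      ext i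
      cases σ <;> fin_cases i <;>
        simp [rt, tv, cj, mulVec, dotProduct, Fin.sum_univ_three] <;> ring
    rw [h2] at h1
    exact h1

theorem conj_mul_self {u : ℂ} {N : ℕ} (hN : N ≠ 0) (hu : u ^ N = 1) :
    (starRingEnd ℂ) u * u = 1 := by
  have h1 : ‖u‖ = 1 := Complex.norm_eq_one_of_pow_eq_one hu hN
  rw [mul_comm, Complex.mul_conj, Complex.normSq_eq_norm_sq, h1]
  simp

theorem Form.inv {r : Rod} {N : ℕ} (hN : N ≠ 0) {g : Equiv.Perm V3} (hg : Form r N g) :
    Form r N g⁻¹ := by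
  obtain ⟨u, σ, τ, l, hu, hc, ha⟩ := hg
  have hcu := conj_mul_self hN hu
  have hs : (sgz τ : ℝ) * (sgz τ : ℝ) = 1 := by
    rw [sgz_mul]; simp [sgz]
  cases σ
  · have h1 : rt ((starRingEnd ℂ) u) false (sgz τ : ℝ) * rt u false (sgz τ : ℝ) = 1 := by
      rw [rt_mul, hs]
      change rt ((starRingEnd ℂ) u * u) false 1 = 1
      rw [hcu, rt_one]
    refine ⟨(starRingEnd ℂ) u, false, τ, -(sgz τ * l), ?_, hc.inv, ?_⟩
    · rw [← map_pow, hu, map_one]
    · have h2 := ha.inv h1
      have hre := congrArg Complex.re hcu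
      have him := congrArg Complex.im hcu
      simp only [Complex.mul_re, Complex.mul_im, Complex.conj_re, Complex.conj_im,
        Complex.one_re, Complex.one_im] at hre him
      have h3 : -(rt ((starRingEnd ℂ) u) false (sgz τ : ℝ) *ᵥ tv u l) =
          tv ((starRingEnd ℂ) u) (-(sgz τ * l)) := by
        ext i
        fin_cases i
        · simp [rt, tv, mulVec, dotProduct, Fin.sum_univ_three]
          linear_combination (-1 : ℝ) * hre
        · simp [rt, tv, mulVec, dotProduct, Fin.sum_univ_three]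
          ring
        · simp [rt, tv, mulVec, dotProduct, Fin.sum_univ_three]
          ring
      rw [h3] at h2
      exact h2
  · have h1 : rt u true (sgz τ : ℝ) * rt u true (sgz τ : ℝ) = 1 := by
      rw [rt_mul, hs]
      change rt (u * (starRingEnd ℂ) u) false 1 = 1
      rw [mul_comm, hcu, rt_one]
    refine ⟨u, true, τ, -(sgz τ * l), hu, hc.inv, ?_⟩
    have h2 := ha.inv h1
    have hre := congrArg Complex.re hcu
    simp only [Complex.mul_re, Complex.conj_re, Complex.conj_im, Complex.one_re] at hre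
    have h3 : -(rt u true (sgz τ : ℝ) *ᵥ tv u l) = tv u (-(sgz τ * l)) := by
      ext i
      fin_cases i
      · simp [rt, tv, mulVec, dotProduct, Fin.sum_univ_three]
        linear_combination (-1 : ℝ) * hre
      · simp [rt, tv, mulVec, dotProduct, Fin.sum_univ_three]
        ring
      · simp [rt, tv, mulVec, dotProduct, Fin.sum_univ_three]
        ring
    rw [h3] at h2
    exact h2

theorem Form.orth {r : Rod} {N : ℕ} (hN : N ≠ 0) {g : Equiv.Perm V3} (hg : Form r N g) {c : ℝ}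
    (hc : 0 < c) : ∃ M a, IsAff g M a ∧
      (Kind.frame .tet 1 c * M * (Kind.frame .tet 1 c)⁻¹)ᵀ *
        (Kind.frame .tet 1 c * M * (Kind.frame .tet 1 c)⁻¹) = 1 := by
  obtain ⟨u, σ, τ, l, hu, -, ha⟩ := hg
  refine ⟨_, _, ha, ?_⟩
  have hcu := conj_mul_self hN hu
  have hre := congrArg Complex.re hcu
  simp only [Complex.mul_re, Complex.conj_re, Complex.conj_im, Complex.one_re] at hre
  have hs : (sgz τ : ℝ) * (sgz τ : ℝ) = 1 := by
    rw [sgz_mul]; simp [sgz]
  have hdet : (Kind.frame .tet 1 c).det ≠ 0 := by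
    rw [Kind.frame, Matrix.det_fin_three]
    simp [hc.ne']
  have h1 : Kind.frame .tet 1 c * rt u σ (sgz τ : ℝ) = rt u σ (sgz τ : ℝ) * Kind.frame .tet 1 c := by
    cases σ <;> ext i j <;> fin_cases i <;> fin_cases j <;>
      simp [rt, Kind.frame, Matrix.mul_apply, Fin.sum_univ_three, mul_comm]
  have h2 : Kind.frame .tet 1 c * rt u σ (sgz τ : ℝ) * (Kind.frame .tet 1 c)⁻¹ =
      rt u σ (sgz τ : ℝ) := by
    rw [h1, Matrix.mul_assoc, Matrix.mul_nonsing_inv _ (isUnit_iff_ne_zero.2 hdet),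
      Matrix.mul_one]
  rw [h2]
  cases σ <;> ext i j <;> fin_cases i <;> fin_cases j <;>
    simp [rt, Matrix.mul_apply, Fin.sum_univ_three] <;>
    first
      | linear_combination hre
      | linear_combination hs
      | ring

theorem finite_roots {N : ℕ} (hN : N ≠ 0) : {u : ℂ | u ^ N = 1}.Finite := by
  classical
  refine (Polynomial.nthRoots N (1 : ℂ)).toFinset.finite_toSet.subset ?_
  intro u hu
  simp only [Finset.mem_coe, Multiset.mem_toFinset]
  rw [Polynomial.mem_nthRoots (Nat.pos_of_ne_zero hN)]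
  exact hu

theorem isAff_ext {g g' : Equiv.Perm V3} {M : M3} {a : V3} (h : IsAff g M a)
    (h' : IsAff g' M a) : g = g' := by
  ext x i
  rw [h x, h' x]

open Classical in
/-- the permutation with given parameters -/
noncomputable def pm (x : ℂ × Bool × Bool × ℤ) : Equiv.Perm V3 :=
  if h : ∃ g, IsAff g (rt x.1 x.2.1 (sgz x.2.2.1 : ℝ)) (tv x.1 x.2.2.2) then h.choose else 1

theorem disc {r : Rod} {N : ℕ} (hN : N ≠ 0) {Γ : Subgroup (Equiv.Perm V3)}
    (h : ∀ g ∈ Γ, Form r N g) : Disc Γ := by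
  intro R
  have hfin : ({u : ℂ | u ^ N = 1} ×ˢ ((Set.univ : Set Bool) ×ˢ ((Set.univ : Set Bool) ×ˢ
      (Set.Icc (-⌈R⌉) ⌈R⌉ : Set ℤ)))).Finite :=
    (finite_roots hN).prod (Set.finite_univ.prod (Set.finite_univ.prod (Set.finite_Icc _ _)))
  refine (hfin.image pm).subset ?_
  rintro g ⟨hg, hR⟩
  obtain ⟨u, σ, τ, l, hu, -, ha⟩ := h g hg
  refine ⟨(u, σ, τ, l), ⟨hu, Set.mem_univ _, Set.mem_univ _, ?_⟩, ?_⟩
  · have h1 := hR 2
    rw [ha 0, mulVec_zero, zero_add] at h1
    have h2 : |(l : ℝ)| ≤ R := by simpa [tv] using h1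
    rw [abs_le] at h2
    have h3 : (l : ℝ) ≤ (⌈R⌉ : ℤ) := h2.2.trans (Int.le_ceil R)
    have h4 : (-(⌈R⌉ : ℤ) : ℝ) ≤ l := by
      have := Int.le_ceil R
      linarith [h2.1]
    constructor
    · exact_mod_cast h4
    · exact_mod_cast h3
  · have hex : ∃ g, IsAff g (rt u σ (sgz τ : ℝ)) (tv u l) := ⟨g, ha⟩
    have h5 : pm (u, σ, τ, l) = hex.choose := dif_pos hex
    rw [h5]
    exact isAff_ext hex.choose_spec ha

/-- the reflections -/
noncomputable def rf (σ τ : Bool) : Equiv.Perm V3 where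
  toFun x := rt 1 σ (sgz τ : ℝ) *ᵥ x
  invFun x := rt 1 σ (sgz τ : ℝ) *ᵥ x
  left_inv x := by
    change rt 1 σ (sgz τ : ℝ) *ᵥ (rt 1 σ (sgz τ : ℝ) *ᵥ x) = x
    rw [mulVec_mulVec, rt_mul, sgz_mul]
    have : rt (1 * cj σ 1) (xor σ σ) ((sgz (xor τ τ) : ℤ) : ℝ) = 1 := by
      cases σ <;> cases τ <;> simp [cj, sgz, rt_one]
    rw [this, one_mulVec]
  right_inv x := by
    change rt 1 σ (sgz τ : ℝ) *ᵥ (rt 1 σ (sgz τ : ℝ) *ᵥ x) = x
    rw [mulVec_mulVec, rt_mul, sgz_mul]
    have : rt (1 * cj σ 1) (xor σ σ) ((sgz (xor τ τ) : ℤ) : ℝ) = 1 := by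
      cases σ <;> cases τ <;> simp [cj, sgz, rt_one]
    rw [this, one_mulVec]

theorem rf_aff (σ τ : Bool) : IsAff (rf σ τ) (rt 1 σ (sgz τ : ℝ)) 0 := fun x => by
  rw [add_zero]; rfl

theorem rt_one_mat (σ τ : Bool) : rt 1 σ (sgz τ : ℝ) =
    (⟨⟨1, 0, 0⟩, ⟨0, sgz σ, 0⟩, ⟨0, 0, sgz τ⟩⟩ : IM).mat := by
  cases σ <;> cases τ <;> ext i j <;> fin_cases i <;> fin_cases j <;> simp [rt, IM.mat, sgz]

theorem rf_mem {r : Rod} {σ τ : Bool} (h : Cond r σ τ 0) : rf σ τ ∈ linGrp r.gens := by
  have hgen : ∀ σ τ : Bool, (⟨⟨1, 0, 0⟩, ⟨0, sgz σ, 0⟩, ⟨0, 0, sgz τ⟩⟩ : IM) ∈ r.gens →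
      rf σ τ ∈ linGrp r.gens := by
    intro σ τ hm
    refine Subgroup.subset_closure ⟨_, hm, ?_⟩
    rw [← rt_one_mat]
    exact rf_aff σ τ
  have hone : rf false false = 1 := by
    refine isAff_ext (rf_aff false false) ?_
    have h1 : rt 1 false ((sgz false : ℤ) : ℝ) = 1 := by
      simp only [sgz, Bool.false_eq_true, if_false, Int.cast_one]
      exact rt_one
    rw [h1]
    exact isAff_one
  have h1 : rf false false ∈ linGrp r.gens := by
    rw [hone]
    exact Subgroup.one_mem _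
  cases r
  · have hm : rf true false ∈ linGrp Rod.r1.gens := hgen _ _ (by simp [Rod.gens, sgz])
    have hz : rf false true ∈ linGrp Rod.r1.gens := hgen _ _ (by simp [Rod.gens, sgz])
    have hmz : rf true true ∈ linGrp Rod.r1.gens := by
      have h2 : rf true true = rf true false * rf false true := by
        refine isAff_ext (rf_aff true true) ?_
        have h3 := (rf_aff true false).mul (rf_aff false true)
        rw [rt_mul, sgz_mul, mulVec_zero, add_zero] at h3
        simpa [cj] using h3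
      rw [h2]
      exact Subgroup.mul_mem _ hm hz
    cases σ <;> cases τ
    · exact h1
    · exact hz
    · exact hm
    · exact hmz
  · have hz : rf false true ∈ linGrp Rod.r2.gens := hgen _ _ (by simp [Rod.gens, sgz])
    obtain rfl : σ = false := h
    cases τ
    · exact h1
    · exact hz
  · have hm : rf true false ∈ linGrp Rod.r3.gens := hgen _ _ (by simp [Rod.gens, sgz])
    obtain rfl : τ = false := h
    cases σ
    · exact h1
    · exact hm
  · have hmz : rf true true ∈ linGrp Rod.r4.gens := hgen _ _ (by simp [Rod.gens, sgz])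
    have h2 : σ = τ := h.1 (by simp)
    subst h2
    cases σ
    · exact h1
    · exact hmz

theorem Form.stab {r : Rod} {N : ℕ} {g : Equiv.Perm V3} (hg : Form r N g) (h0 : g 0 = 0) :
    g ∈ linGrp r.gens := by
  obtain ⟨u, σ, τ, l, hu, hc, ha⟩ := hg
  have h1 : tv u l = 0 := by
    rw [← h0, ha 0, mulVec_zero, zero_add]
  have h2 : u = 1 := by
    have h3 := congrFun h1 0
    have h4 := congrFun h1 1
    simp only [tv, Matrix.cons_val_zero, Matrix.cons_val_one, Pi.zero_apply] at h3 h4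
    apply Complex.ext
    · rw [Complex.one_re]; linarith
    · rw [Complex.one_im]; exact h4
  have h3 : l = 0 := by
    have h4 := congrFun h1 2
    simp only [tv, Matrix.cons_val, Pi.zero_apply] at h4
    exact_mod_cast h4
  subst h2
  subst h3
  have h4 : g = rf σ τ := by
    refine isAff_ext ha ?_
    rw [h1]
    exact rf_aff σ τ
  rw [h4]
  exact rf_mem hc

theorem Form.gens {r : Rod} (N : ℕ) {M : IM} (hM : M ∈ r.gens) {g : Equiv.Perm V3}
    (hg : IsAff g M.mat 0) : Form r N g := by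
  have key : ∀ σ τ : Bool, M = (⟨⟨1, 0, 0⟩, ⟨0, sgz σ, 0⟩, ⟨0, 0, sgz τ⟩⟩ : IM) →
      Cond r σ τ 0 → Form r N g := by
    intro σ τ hM hc
    refine ⟨1, σ, τ, 0, one_pow N, hc, ?_⟩
    rw [hM, ← rt_one_mat] at hg
    have h2 : tv 1 0 = 0 := by
      ext i; fin_cases i <;> simp [tv]
    rw [h2]
    exact hg
  cases r
  · simp only [Rod.gens, List.mem_cons, List.not_mem_nil, or_false] at hM
    rcases hM with hM | hM
    · exact key true false (by simpa [sgz] using hM) trivial
    · exact key false true (by simpa [sgz] using hM) trivial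
  · simp only [Rod.gens, List.mem_cons, List.not_mem_nil, or_false] at hM
    exact key false true (by simpa [sgz] using hM) rfl
  · simp only [Rod.gens, List.mem_cons, List.not_mem_nil, or_false] at hM
    exact key true false (by simpa [sgz] using hM) rfl
  · simp only [Rod.gens, List.mem_cons, List.not_mem_nil, or_false] at hM
    exact key true true (by simpa [sgz] using hM) (by simp [Cond])

theorem Form.t {r : Rod} {θ : ℝ} {p q : ℤ} (hq : 0 < q) (h : θ * q = Real.pi * p)
    {t : Equiv.Perm V3} (ht : IsAff t (rodMat θ r.sgn) ![Real.cos θ - 1, Real.sin θ, 1]) :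
    Form r (2 * q.toNat) t := by
  have hu : Complex.exp (θ * Complex.I) ^ (2 * q.toNat) = 1 := by
    rw [← Complex.exp_nat_mul, Complex.exp_eq_one_iff]
    refine ⟨p, ?_⟩
    have hq' : ((q.toNat : ℤ) : ℝ) = q := by
      rw [Int.toNat_of_nonneg hq.le]
    have h1 : ((q.toNat : ℕ) : ℝ) = q := by exact_mod_cast hq'
    have h2 : ((q.toNat : ℕ) : ℂ) * (θ : ℂ) = Real.pi * (p : ℂ) := by
      have h3 : ((q.toNat : ℕ) : ℝ) * θ = Real.pi * p := by rw [h1, mul_comm]; exact h
      exact_mod_cast congrArg (fun x : ℝ => (x : ℂ)) h3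
    push_cast
    linear_combination 2 * Complex.I * h2
  have hre : (Complex.exp (θ * Complex.I)).re = Real.cos θ := Complex.exp_ofReal_mul_I_re θ
  have him : (Complex.exp (θ * Complex.I)).im = Real.sin θ := Complex.exp_ofReal_mul_I_im θ
  have htv : tv (Complex.exp (θ * Complex.I)) 1 = ![Real.cos θ - 1, Real.sin θ, 1] := by
    rw [tv, hre, him, Int.cast_one]
  have hrt : ∀ τ : Bool, rt (Complex.exp (θ * Complex.I)) false (sgz τ : ℝ) =
      rodMat θ (sgz τ : ℝ) := by
    intro τ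
    rw [rt, rodMat, hre, him]
  cases r
  · refine ⟨_, false, false, 1, hu, trivial, ?_⟩
    rw [htv, hrt]
    simpa [sgz, Rod.sgn] using ht
  · refine ⟨_, false, false, 1, hu, rfl, ?_⟩
    rw [htv, hrt]
    simpa [sgz, Rod.sgn] using ht
  · refine ⟨_, false, false, 1, hu, rfl, ?_⟩
    rw [htv, hrt]
    simpa [sgz, Rod.sgn] using ht
  · refine ⟨_, false, true, 1, hu, by simp [Cond], ?_⟩
    rw [htv, hrt]
    simpa [sgz, Rod.sgn] using ht

end RodS

open RodS

/-- FTI-21 -/
theorem rod_sound {r : Rod} {A B s : Equiv.Perm V3} (h : r.Has A B s) :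
    A 0 = 0 ∧ B 0 = 0 ∧ (∀ g ∈ grp A B s, g 0 = 0 → g ∈ stab A B) ∧ Disc (grp A B s) ∧
    ∀ c : ℝ, 0 < c → ∀ g ∈ grp A B s, ∃ M a, IsAff g M a ∧
      (Kind.frame .tet 1 c * M * (Kind.frame .tet 1 c)⁻¹)ᵀ *
        (Kind.frame .tet 1 c * M * (Kind.frame .tet 1 c)⁻¹) = 1 := by
  obtain ⟨hst, θ, ⟨p, q, hq, hpq⟩, -, t, ht, hl⟩ := h
  have hgrp := RodS.link hst hl
  have hN : 2 * q.toNat ≠ 0 := by omega
  have hlin : ∀ g ∈ linGrp r.gens, Form r (2 * q.toNat) g := by
    intro g hg
    refine Subgroup.closure_induction (p := fun g _ => Form r (2 * q.toNat) g) ?_ ?_ ?_ ?_ hg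
    · rintro x ⟨M, hM, hx⟩
      exact Form.gens _ hM hx
    · exact Form.one _ _
    · intro x y _ _ hx hy
      exact hx.mul hy
    · intro x _ hx
      exact hx.inv hN
  have hfix : ∀ g ∈ linGrp r.gens, g 0 = 0 := by
    intro g hg
    refine Subgroup.closure_induction (p := fun g _ => g (0 : V3) = 0) ?_ ?_ ?_ ?_ hg
    · rintro x ⟨M, hM, hx⟩
      rw [hx 0, mulVec_zero, zero_add]
    · rfl
    · intro x y _ _ hx hy
      rw [Equiv.Perm.mul_apply, hy, hx]
    · intro x _ hx
      rw [Equiv.Perm.inv_eq_iff_eq, hx]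
  have hform : ∀ g ∈ grp A B s, Form r (2 * q.toNat) g := by
    intro g hg
    rw [hgrp] at hg
    have hle : linGrp r.gens ⊔ Subgroup.zpowers t ≤
        { carrier := {g | Form r (2 * q.toNat) g}
          mul_mem' := fun ha hb => Form.mul ha hb
          one_mem' := Form.one _ _
          inv_mem' := fun ha => Form.inv hN ha } := by
      refine sup_le ?_ ?_
      · intro g hg
        exact hlin g hg
      · rw [Subgroup.zpowers_le]
        exact Form.t hq hpq ht
    exact hle hg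
  refine ⟨?_, ?_, ?_, disc hN hform, ?_⟩
  · apply hfix
    rw [← hst]
    exact Subgroup.subset_closure (by simp)
  · apply hfix
    rw [← hst]
    exact Subgroup.subset_closure (by simp)
  · intro g hg h0
    rw [hst]
    exact (hform g hg).stab h0
  · intro c hc g hg
    exact (hform g hg).orth hN hc

end Pool.Agent.H21.FT
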