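import Pool.Agent.H21.FT.DefsF

/-!
# The base face is a simple polygon iff its vertices are distinct
-/

namespace Pool.Agent.H21.FT

namespace SI

variable {X : Type*}

/-- The edges of a walk. -/
def wf (v : ℤ → X) : Set (Sym2 X) := {e | ∃ n : ℤ, e = s(v n, v (n + 1))}

/-- Each vertex of the walk lies on exactly two edges. -/
def Smp (F : Set (Sym2 X)) : Prop :=
  ∀ x, (∃ e ∈ F, x ∈ e) → {e | e ∈ F ∧ x ∈ e}.ncard = 2

/-- Two equal vertices have equal successors. -/
def Per (v : ℤ → X) : Prop := ∀ n n', v n = v n' → ∀ k, v (n + k) = v (n' + k)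

theorem smp_of_per {v : ℤ → X} (h1 : ∀ n, v n ≠ v (n + 1)) (h2 : ∀ n, v n ≠ v (n + 2))
    (hp : Per v) : Smp (wf v) := by
  rintro x ⟨e, ⟨m, rfl⟩, hx⟩
  have hx' : ∃ n, x = v n := by
    rcases Sym2.mem_iff.1 hx with h | h
    · exact ⟨_, h⟩
    · exact ⟨_, h⟩
  obtain ⟨n, rfl⟩ := hx'
  have hset : {e | e ∈ wf v ∧ v n ∈ e} = {s(v n, v (n + 1)), s(v n, v (n - 1))} := by
    ext e
    simp only [Set.mem_ofPred_eq, Set.mem_insert_iff, Set.mem_singleton_iff]
    constructor
    · rintro ⟨⟨k, rfl⟩, hk⟩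
      rcases Sym2.mem_iff.1 hk with h | h
      · left
        rw [← h, hp n k h 1]
      · right
        have h3 := hp n (k + 1) h (-1)
        rw [show k + 1 + -1 = k from by ring, show n + -1 = n - 1 from by ring] at h3
        rw [h, h3, Sym2.eq_swap]
    · rintro (rfl | rfl)
      · exact ⟨⟨n, rfl⟩, Sym2.mem_mk_left _ _⟩
      · refine ⟨⟨n - 1, ?_⟩, Sym2.mem_mk_left _ _⟩
        rw [sub_add_cancel, Sym2.eq_swap]
  rw [hset]
  apply Set.ncard_pair
  intro h
  rw [Sym2.eq_iff] at h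
  rcases h with ⟨-, h⟩ | ⟨h, -⟩
  · have := h2 (n - 1)
    rw [show n - 1 + 2 = n + 1 from by ring] at this
    exact this h.symm
  · have := h1 (n - 1)
    rw [sub_add_cancel] at this
    exact this h.symm

theorem per_of_smp {v : ℤ → X} (h1 : ∀ n, v n ≠ v (n + 1)) (h2 : ∀ n, v n ≠ v (n + 2))
    (hs : Smp (wf v)) : Per v := by
  -- the two edges at a vertex
  have hset : ∀ n, {e | e ∈ wf v ∧ v n ∈ e} = {s(v n, v (n + 1)), s(v n, v (n - 1))} := by
    intro n
    have hc := hs (v n) ⟨s(v n, v (n + 1)), ⟨n, rfl⟩, Sym2.mem_mk_left _ _⟩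
    have hne : s(v n, v (n + 1)) ≠ s(v n, v (n - 1)) := by
      intro h
      rw [Sym2.eq_iff] at h
      rcases h with ⟨-, h⟩ | ⟨h, -⟩
      · have := h2 (n - 1)
        rw [show n - 1 + 2 = n + 1 from by ring] at this
        exact this h.symm
      · have := h1 (n - 1)
        rw [sub_add_cancel] at this
        exact this h.symm
    symm
    apply Set.eq_of_subset_of_ncard_le
    · rintro e (rfl | rfl)
      · exact ⟨⟨n, rfl⟩, Sym2.mem_mk_left _ _⟩
      · refine ⟨⟨n - 1, ?_⟩, Sym2.mem_mk_left _ _⟩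
        rw [sub_add_cancel, Sym2.eq_swap]
    · rw [hc, Set.ncard_pair hne]
    · exact Set.finite_of_ncard_ne_zero (by rw [hc]; norm_num)
  have nb : ∀ n n', v n = v n' → v (n' + 1) = v (n + 1) ∨ v (n' + 1) = v (n - 1) := by
    intro n n' h
    have hm : s(v n', v (n' + 1)) ∈ {e | e ∈ wf v ∧ v n ∈ e} :=
      ⟨⟨n', rfl⟩, by rw [h]; exact Sym2.mem_mk_left _ _⟩
    rw [hset n, h] at hm
    rcases hm with hm | hm
    · left; exact Sym2.congr_right.1 hm
    · right; exact Sym2.congr_right.1 hm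
  have nb' : ∀ n n', v n = v n' → v (n' - 1) = v (n + 1) ∨ v (n' - 1) = v (n - 1) := by
    intro n n' h
    have hm : s(v n', v (n' - 1)) ∈ {e | e ∈ wf v ∧ v n ∈ e} :=
      ⟨⟨n' - 1, by rw [sub_add_cancel, Sym2.eq_swap]⟩, by rw [h]; exact Sym2.mem_mk_left _ _⟩
    rw [hset n, h] at hm
    rcases hm with hm | hm
    · left; exact Sym2.congr_right.1 hm
    · right; exact Sym2.congr_right.1 hm
  have h2' : ∀ n, v (n - 1) ≠ v (n + 1) := by
    intro n h
    have := h2 (n - 1)
    rw [show n - 1 + 2 = n + 1 from by ring] at this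
    exact this h
  intro n n' h
  by_cases hd : v (n' + 1) = v (n + 1)
  · have key : ∀ k : ℤ, v (n + k) = v (n' + k) ∧ v (n + k + 1) = v (n' + k + 1) := by
      intro k
      induction k using Int.induction_on with
      | zero => rw [add_zero, add_zero]; exact ⟨h, hd.symm⟩
      | succ i ih =>
        refine ⟨by rw [← add_assoc, ← add_assoc]; exact ih.2, ?_⟩
        rw [← add_assoc, ← add_assoc]
        rcases nb _ _ ih.2 with h3 | h3
        · exact h3.symm
        · exfalso
          rw [add_sub_cancel_right, ih.1] at h3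
          apply h2 (n' + i)
          rw [← h3]
          congr 1
          ring
      | pred i ih =>
        have e1 : n + (-(i : ℤ) - 1) = n + -i - 1 := by ring
        have e2 : n' + (-(i : ℤ) - 1) = n' + -i - 1 := by ring
        rw [e1, e2, sub_add_cancel, sub_add_cancel]
        refine ⟨?_, ih.1⟩
        rcases nb' _ _ ih.1 with h3 | h3
        · exfalso
          rw [ih.2] at h3
          exact h2' _ h3
        · exact h3.symm
    exact fun k => (key k).1
  · exfalso
    have hd' := (nb n n' h).resolve_left hd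
    have key : ∀ k : ℤ, v (n - k) = v (n' + k) ∧ v (n - k - 1) = v (n' + k + 1) := by
      intro k
      induction k using Int.induction_on with
      | zero => rw [add_zero, sub_zero]; exact ⟨h, hd'.symm⟩
      | succ i ih =>
        refine ⟨by rw [← add_assoc, ← sub_sub]; exact ih.2, ?_⟩
        rw [← add_assoc, ← sub_sub]
        rcases nb _ _ ih.2 with h3 | h3
        · exfalso
          rw [sub_add_cancel, ih.1] at h3
          apply h2 (n' + i)
          rw [← h3]
          congr 1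
          ring
        · exact h3.symm
      | pred i ih =>
        have e1 : n - (-(i : ℤ) - 1) = n - -i + 1 := by ring
        have e2 : n' + (-(i : ℤ) - 1) = n' + -i - 1 := by ring
        rw [e1, e2, sub_add_cancel, add_sub_cancel_right]
        refine ⟨?_, ih.1⟩
        rcases nb' _ _ ih.1 with h3 | h3
        · exact h3.symm
        · exfalso
          rw [ih.2] at h3
          exact h2' _ h3
    rcases Int.even_or_odd' (n - n') with ⟨q, hq | hq⟩
    · have := (key (q - 1)).1
      rw [show n - (q - 1) = n' + (q - 1) + 2 from by linear_combination hq] at this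
      exact h2 _ this.symm
    · have := (key q).1
      rw [show n - q = n' + q + 1 from by linear_combination hq] at this
      exact h1 _ this.symm

/-- `g` acts on the walk by a translation or a reflection of the indices. -/
def Idx (v : ℤ → X) (g : Equiv.Perm X) : Prop :=
  (∃ c : ℤ, ∀ n, g (v n) = v (n + c)) ∨ ∃ c : ℤ, ∀ n, g (v n) = v (c - n)

theorem idx_one (v : ℤ → X) : Idx v 1 := Or.inl ⟨0, fun n => by rw [add_zero]; rfl⟩

theorem Idx.mul {v : ℤ → X} {g h : Equiv.Perm X} (hg : Idx v g) (hh : Idx v h) :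
    Idx v (g * h) := by
  rcases hg with ⟨c, hc⟩ | ⟨c, hc⟩ <;> rcases hh with ⟨d, hd⟩ | ⟨d, hd⟩
  · exact Or.inl ⟨d + c, fun n => by rw [Equiv.Perm.mul_apply, hd, hc, add_assoc]⟩
  · exact Or.inr ⟨d + c, fun n => by
      rw [Equiv.Perm.mul_apply, hd, hc]; congr 1; ring⟩
  · exact Or.inr ⟨c - d, fun n => by
      rw [Equiv.Perm.mul_apply, hd, hc]; congr 1; ring⟩
  · exact Or.inl ⟨c - d, fun n => by
      rw [Equiv.Perm.mul_apply, hd, hc]; congr 1; ring⟩

theorem Idx.inv {v : ℤ → X} {g : Equiv.Perm X} (hg : Idx v g) : Idx v g⁻¹ := by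
  rcases hg with ⟨c, hc⟩ | ⟨c, hc⟩
  · refine Or.inl ⟨-c, fun n => ?_⟩
    rw [Equiv.Perm.inv_eq_iff_eq, hc]
    congr 1
    ring
  · refine Or.inr ⟨c, fun n => ?_⟩
    rw [Equiv.Perm.inv_eq_iff_eq, hc]
    congr 1
    ring

theorem zpow_v {v : ℤ → X} {ρ : Equiv.Perm X} {m : ℤ} (hρ : ∀ n, ρ (v n) = v (n + m)) (j n : ℤ) :
    (ρ ^ j) (v n) = v (n + m * j) := by
  induction j using Int.induction_on with
  | zero => rw [zpow_zero, mul_zero, add_zero]; rfl
  | succ i ih =>
    rw [add_comm, zpow_add, zpow_one, Equiv.Perm.mul_apply, ih, hρ]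
    congr 1
    ring
  | pred i ih =>
    rw [sub_eq_add_neg, add_comm, zpow_add, zpow_neg_one, Equiv.Perm.mul_apply, ih,
      Equiv.Perm.inv_eq_iff_eq, hρ]
    congr 1
    ring

/-- The edges of the base face. -/
theorem face_eq {v : ℤ → X} {ρ : Equiv.Perm X} {m : ℤ} (hm : 0 < m)
    (hρ : ∀ n, ρ (v n) = v (n + m)) {S : Set (Equiv.Perm X)} (hρS : ρ ∈ Subgroup.closure S)
    {E : Set (Sym2 X)} (hE : ∀ e ∈ E, ∃ n, e = s(v n, v (n + 1)))
    (hS : ∀ g ∈ S, Idx v g)
    (hr : ∀ r, 0 ≤ r → r < m → ∃ g ∈ Subgroup.closure S, ∃ e₀ ∈ E,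
      s(v r, v (r + 1)) = Sym2.map g e₀) :
    {e | ∃ g ∈ Subgroup.closure S, ∃ e₀ ∈ E, e = Sym2.map g e₀} = wf v := by
  ext e
  constructor
  · rintro ⟨g, hg, e₀, he₀, rfl⟩
    obtain ⟨n, rfl⟩ := hE e₀ he₀
    have hI : Idx v g := by
      induction hg using Subgroup.closure_induction with
      | mem x hx => exact hS x hx
      | one => exact idx_one v
      | mul x y _ _ hx hy => exact hx.mul hy
      | inv x _ hx => exact hx.inv
    rcases hI with ⟨c, hc⟩ | ⟨c, hc⟩
    · refine ⟨n + c, ?_⟩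
      rw [Sym2.map_mk, hc, hc, show n + 1 + c = n + c + 1 from by ring]
    · refine ⟨c - n - 1, ?_⟩
      rw [Sym2.map_mk, hc, hc, Sym2.eq_swap, show c - (n + 1) = c - n - 1 from by ring,
        sub_add_cancel]
  · rintro ⟨n, rfl⟩
    obtain ⟨g, hg, e₀, he₀, h⟩ := hr (n % m) (Int.emod_nonneg _ hm.ne') (Int.emod_lt_of_pos _ hm)
    refine ⟨ρ ^ (n / m) * g, mul_mem (zpow_mem hρS _) hg, e₀, he₀, ?_⟩
    have h3 : Sym2.map (ρ ^ (n / m) * g) e₀ = Sym2.map (ρ ^ (n / m)) (Sym2.map g e₀) := by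
      rw [Sym2.map_map]
      rfl
    rw [h3, ← h, Sym2.map_mk, zpow_v hρ, zpow_v hρ]
    have h4 := Int.emod_add_mul_ediv n m
    rw [show n % m + 1 + m * (n / m) = n + 1 from by linear_combination h4, h4]

/-- The criterion. -/
theorem smp_iff {v : ℤ → X} {ρ : Equiv.Perm X} {m : ℕ} (hm : 0 < m)
    (hρ : ∀ n, ρ (v n) = v (n + m)) (h1 : ∀ n, v n ≠ v (n + 1)) (h2 : ∀ n, v n ≠ v (n + 2))
    (hcl : ∀ p : ℤ, (∀ k, v (k + p) = v k) → (m : ℤ) ∣ p)
    (hfree : ∀ j : ℤ, (∀ k, (ρ ^ j) (v k) = v k) → ρ ^ j = 1) :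
    Smp (wf v) ↔ (List.ofFn fun i : Fin m => v i).Nodup ∧ ∀ n : ℤ, ρ ^ n ≠ 1 →
      ∀ x ∈ (List.ofFn fun i : Fin m => v i), (ρ ^ n) x ∉ (List.ofFn fun i : Fin m => v i) := by
  constructor
  · intro hs
    have hp := per_of_smp h1 h2 hs
    have hper : ∀ a b : ℤ, v a = v b → (m : ℤ) ∣ b - a := by
      intro a b hab
      apply hcl
      intro k
      have := hp a b hab (k - a)
      rw [show a + (k - a) = k from by ring, show b + (k - a) = k + (b - a) from by ring] at this
      exact this.symm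
    have hij : ∀ i j : Fin m, (m : ℤ) ∣ (j : ℤ) - i → i = j := by
      intro i j h
      have hi := i.2
      have hj := j.2
      have : ((j : ℤ) - i) = 0 := by
        apply Int.eq_zero_of_abs_lt_dvd h
        rw [abs_lt]
        omega
      ext
      omega
    refine ⟨List.nodup_ofFn.2 fun i j h => hij i j (hper _ _ h), ?_⟩
    intro n hn x hx hx'
    rw [List.mem_ofFn] at hx hx'
    obtain ⟨i, rfl⟩ := hx
    obtain ⟨j, hj⟩ := hx'
    rw [zpow_v hρ] at hj
    have h3 := hper _ _ hj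
    have h4 : i = j := by
      apply hij i j
      have h5 : (j : ℤ) - i = m * n - (i + m * n - j) := by ring
      rw [h5]
      exact dvd_sub (dvd_mul_right _ _) h3
    subst h4
    apply hn
    apply hfree
    intro k
    rw [zpow_v hρ]
    have := hp _ _ hj.symm (k - i)
    rw [show (i : ℤ) + m * n + (k - i) = k + m * n from by ring,
      show (i : ℤ) + (k - i) = k from by ring] at this
    exact this
  · rintro ⟨hn, hd⟩
    apply smp_of_per h1 h2
    have hm' : (0 : ℤ) < m := by exact_mod_cast hm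
    -- representation of the vertices
    have hrep : ∀ a : ℤ, ∃ i : Fin m, v a = (ρ ^ (a / m)) (v i) ∧ a = i + m * (a / m) := by
      intro a
      have h3 := Int.emod_nonneg a hm'.ne'
      have h4 := Int.emod_lt_of_pos a hm'
      have h5 := Int.emod_add_mul_ediv a m
      refine ⟨⟨(a % m).toNat, by omega⟩, ?_, ?_⟩
      · rw [zpow_v hρ]
        simp only
        rw [Int.toNat_of_nonneg h3, h5]
      · simp only
        rw [Int.toNat_of_nonneg h3, h5]
    intro a b hab k
    obtain ⟨i, hi, hi'⟩ := hrep a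
    obtain ⟨j, hj, hj'⟩ := hrep b
    rw [hi, hj] at hab
    have h6 : (ρ ^ (a / m - b / m)) (v i) = v j := by
      rw [sub_eq_neg_add, zpow_add, Equiv.Perm.mul_apply, hab, zpow_neg]
      exact Equiv.symm_apply_apply _ _
    have h7 : ρ ^ (a / m - b / m) = 1 := by
      by_contra h8
      exact hd _ h8 (v i) (List.mem_ofFn.2 ⟨i, rfl⟩) (h6 ▸ List.mem_ofFn.2 ⟨j, rfl⟩)
    rw [h7] at h6
    have h9 : i = j := List.nodup_ofFn.1 hn h6
    subst h9
    have h10 := zpow_v hρ (a / m - b / m) (b + k)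
    rw [h7] at h10
    rw [show b + k + m * (a / m - b / m) = a + k from by linear_combination hj' - hi'] at h10
    exact h10.symm

theorem exists_walk (ρ : Equiv.Perm X) {m : ℤ} (hm : 0 < m) (rep : ℤ → X) :
    ∃ v : ℤ → X, (∀ n, ρ (v n) = v (n + m)) ∧ ∀ i, 0 ≤ i → i < m → v i = rep i := by
  refine ⟨fun n => (ρ ^ (n / m)) (rep (n % m)), ?_, ?_⟩
  · intro n
    show ρ ((ρ ^ (n / m)) (rep (n % m))) = (ρ ^ ((n + m) / m)) (rep ((n + m) % m))
    rw [Int.add_emod_right, Int.add_ediv_of_dvd_right (dvd_refl m), Int.ediv_self hm.ne',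
      add_comm (n / m) 1, zpow_add, zpow_one]
    rfl
  · intro i h0 h1
    show (ρ ^ (i / m)) (rep (i % m)) = rep i
    rw [Int.ediv_eq_zero_of_lt h0 h1, Int.emod_eq_of_lt h0 h1, zpow_zero]
    rfl

/-- A reflection of the walk. -/
theorem refl_v {v : ℤ → X} {ρ σ : Equiv.Perm X} {m : ℤ} (hm : 0 < m)
    (hρ : ∀ n, ρ (v n) = v (n + m)) (hσ : σ * ρ = ρ⁻¹ * σ) {c : ℤ}
    (h : ∀ r, 0 ≤ r → r < m → σ (v r) = v (c - r)) (n : ℤ) : σ (v n) = v (c - n) := by
  have h1 : ∀ q : ℤ, σ * ρ ^ q = ρ ^ (-q) * σ := by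
    intro q
    have h2 : SemiconjBy σ ρ ρ⁻¹ := hσ
    have h3 := h2.zpow_right q
    rw [inv_zpow, ← zpow_neg] at h3
    exact h3
  have h4 := Int.emod_add_mul_ediv n m
  have h5 : v n = (ρ ^ (n / m)) (v (n % m)) := by rw [zpow_v hρ, h4]
  rw [h5, ← Equiv.Perm.mul_apply, h1, Equiv.Perm.mul_apply,
    h _ (Int.emod_nonneg _ hm.ne') (Int.emod_lt_of_pos _ hm), zpow_v hρ]
  congr 1
  linear_combination -h4

theorem ne_all {v : ℤ → X} {ρ : Equiv.Perm X} {m : ℤ} (hm : 0 < m)
    (hρ : ∀ n, ρ (v n) = v (n + m)) (j : ℤ)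
    (h : ∀ r, 0 ≤ r → r < m → v r ≠ v (r + j)) (n : ℤ) : v n ≠ v (n + j) := by
  intro h1
  have h4 := Int.emod_add_mul_ediv n m
  apply h (n % m) (Int.emod_nonneg _ hm.ne') (Int.emod_lt_of_pos _ hm)
  apply (ρ ^ (n / m)).injective
  rw [zpow_v hρ, zpow_v hρ, h4, h1]
  congr 1
  linear_combination -h4

theorem idx_rho {v : ℤ → X} {ρ : Equiv.Perm X} {m : ℤ} (hρ : ∀ n, ρ (v n) = v (n + m)) :
    Idx v ρ := Or.inl ⟨m, hρ⟩

section cases

variable {A B s : Equiv.Perm X} {o : X}

theorem mem_A : A ∈ grp A B s := Subgroup.subset_closure (by simp)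
theorem mem_B : B ∈ grp A B s := Subgroup.subset_closure (by simp)
theorem mem_s : s ∈ grp A B s := Subgroup.subset_closure (by simp)
theorem A_mem_stab : A ∈ stab A B := Subgroup.subset_closure (by simp)
theorem B_mem_stab : B ∈ stab A B := Subgroup.subset_closure (by simp)

theorem stab_o (hA : A o = o) (hB : B o = o) {g : Equiv.Perm X} (hg : g ∈ stab A B) : g o = o := by
  induction hg using Subgroup.closure_induction with
  | mem x hx =>
    rcases hx with rfl | rfl
    · exact hA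
    · exact hB
  | one => rfl
  | mul x y _ _ hx hy => rw [Equiv.Perm.mul_apply, hy, hx]
  | inv x _ hx => rw [Equiv.Perm.inv_eq_iff_eq, hx]

/-- walks with one representative -/
theorem smp_one {ρ : Equiv.Perm X} {S : Set (Equiv.Perm X)} {E : Set (Sym2 X)}
    (hρS : ρ ∈ Subgroup.closure S) (hE : E = {s(o, ρ o)})
    (hS : ∀ g ∈ S, Idx (fun n : ℤ => (ρ ^ n) o) g) (h1 : ρ o ≠ o) (h2 : ρ⁻¹ o ≠ ρ o) :
    Smp {e | ∃ g ∈ Subgroup.closure S, ∃ e₀ ∈ E, e = Sym2.map g e₀} := by
  have hρ : ∀ n : ℤ, ρ ((ρ ^ n) o) = (ρ ^ (n + 1)) o := by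
    intro n
    rw [add_comm, zpow_add, zpow_one]
    rfl
  rw [face_eq (v := fun n : ℤ => (ρ ^ n) o) (m := 1) one_pos hρ hρS (E := E) ?_ hS ?_]
  · apply smp_of_per
    · apply ne_all (m := 1) one_pos hρ
      intro r h0 h3
      have : r = 0 := by omega
      subst this
      show (ρ ^ (0 : ℤ)) o ≠ (ρ ^ (0 + 1 : ℤ)) o
      rw [zero_add, zpow_zero, zpow_one]
      exact h1.symm
    · apply ne_all (m := 1) one_pos hρ
      intro r h0 h3
      have : r = 0 := by omega
      subst this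
      show (ρ ^ (0 : ℤ)) o ≠ (ρ ^ (0 + 2 : ℤ)) o
      rw [zero_add, zpow_zero]
      intro h4
      apply h2
      rw [Equiv.Perm.inv_eq_iff_eq]
      exact h4
    · intro n n' h k
      show (ρ ^ (n + k)) o = (ρ ^ (n' + k)) o
      rw [add_comm, add_comm n' k, zpow_add, zpow_add, Equiv.Perm.mul_apply,
        Equiv.Perm.mul_apply]
      exact congrArg _ h
  · rw [hE]
    rintro e rfl
    exact ⟨0, by show _ = s((ρ ^ (0 : ℤ)) o, (ρ ^ (0 + 1 : ℤ)) o); rw [zero_add, zpow_one]; rfl⟩
  · intro r h0 h3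
    have : r = 0 := by omega
    subst this
    refine ⟨1, one_mem _, s(o, ρ o), by rw [hE]; rfl, ?_⟩
    show s((ρ ^ (0 : ℤ)) o, (ρ ^ (0 + 1 : ℤ)) o) = _
    rw [zero_add, zpow_one]
    rfl

theorem reg (hA : A o = o) (hr : Rel .reg A B s o) (hn : Nondeg .reg A B s o) :
    SimpleFace .reg A B s o := by
  obtain ⟨hAA, -, hss, -⟩ := hr
  obtain ⟨h1, -, h2, -⟩ := hn
  have hso : s (s o) = o := by rw [← Equiv.Perm.mul_apply, hss]; rfl
  have hAi : A⁻¹ = A := by rw [inv_eq_iff_mul_eq_one]; exact hAA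
  have hsi : s⁻¹ = s := by rw [inv_eq_iff_mul_eq_one]; exact hss
  have hρo : (s * A) o = s o := by rw [Equiv.Perm.mul_apply, hA]
  have hρ : ∀ n : ℤ, (s * A) (((s * A) ^ n) o) = ((s * A) ^ (n + 1)) o := by
    intro n
    rw [add_comm n 1, zpow_add, zpow_one]
    rfl
  have hAr : ∀ n : ℤ, A (((s * A) ^ n) o) = ((s * A) ^ (0 - n)) o := by
    intro n
    exact refl_v (v := fun n : ℤ => ((s * A) ^ n) o) (m := 1) one_pos hρ (σ := A) (c := 0)
      (by rw [mul_inv_rev, hAi, hsi, mul_assoc]) (fun r h0 h3 => by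
        have : r = 0 := by omega
        subst this
        exact hA) n
  refine smp_one (ρ := s * A) (S := {s, A}) (E := {s(o, s o)}) ?_ (by rw [hρo]) ?_ ?_ ?_
  · exact mul_mem (Subgroup.subset_closure (by simp)) (Subgroup.subset_closure (by simp))
  · rintro g (rfl | rfl)
    · have h3 := (idx_rho (v := fun n : ℤ => ((g * A) ^ n) o) (m := 1) hρ).mul
        (Or.inr ⟨0, hAr⟩ : Idx (fun n : ℤ => ((g * A) ^ n) o) A)
      rw [mul_assoc, hAA, mul_one] at h3
      exact h3
    · exact Or.inr ⟨0, hAr⟩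
  · rw [hρo]
    exact h1
  · rw [hρo, mul_inv_rev, hAi, hsi, Equiv.Perm.mul_apply]
    exact h2

theorem c2 (hA : A o = o) (hr : Rel .c2 A B s o) (hn : Nondeg .c2 A B s o) :
    SimpleFace .c2 A B s o := by
  obtain ⟨-, hss⟩ := hr
  obtain ⟨h1, hF, h2, -⟩ := hn
  have hsi : s⁻¹ = s := by rw [inv_eq_iff_mul_eq_one]; exact hss
  have hAo : A⁻¹ o = o := by rw [Equiv.Perm.inv_eq_iff_eq, hA]
  have hρo : (s * A⁻¹) o = s o := by rw [Equiv.Perm.mul_apply, hAo]
  have hρ : ∀ n : ℤ, (s * A⁻¹) (((s * A⁻¹) ^ n) o) = ((s * A⁻¹) ^ (n + 1)) o := by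
    intro n
    rw [add_comm n 1, zpow_add, zpow_one]
    rfl
  refine smp_one (ρ := s * A⁻¹) (S := {s * A⁻¹}) (E := {s(o, s o)}) ?_ (by rw [hρo]) ?_ ?_ ?_
  · exact Subgroup.subset_closure rfl
  · rintro g rfl
    exact idx_rho (m := 1) hρ
  · rw [hρo]
    exact h1
  · rw [hρo, mul_inv_rev, inv_inv, hsi, Equiv.Perm.mul_apply]
    intro h3
    exact h2 (hF A A_mem_stab h3)

theorem c22 (hn : Nondeg .c22 A B s o) : SimpleFace .c22 A B s o := by
  obtain ⟨h1, -, -, h2⟩ := hn
  have hρ : ∀ n : ℤ, s ((s ^ n) o) = (s ^ (n + 1)) o := by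
    intro n
    rw [add_comm n 1, zpow_add, zpow_one]
    rfl
  refine smp_one (ρ := s) (S := {s}) (E := {s(o, s o)}) ?_ rfl ?_ h1 ?_
  · exact Subgroup.subset_closure rfl
  · rintro g rfl
    exact idx_rho (m := 1) hρ
  · exact (h2 1 (one_mem _)).symm

/-- an element that fixes the walk is trivial -/
theorem eq_one_of {g : Equiv.Perm X} (hst : ∀ g ∈ grp A B s, g o = o → g ∈ stab A B)
    (hF : Free A B s o) (hg : g ∈ grp A B s) (h1 : g o = o) (h2 : g (s o) = s o) : g = 1 :=
  hF g (hst g hg h1) h2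

/-- an element that fixes `o` and acts on `s o` as `C` in the stabiliser is equal to `C` -/
theorem eq_of {g C : Equiv.Perm X} (hst : ∀ g ∈ grp A B s, g o = o → g ∈ stab A B)
    (hF : Free A B s o) (hg : g ∈ grp A B s) (hC : C ∈ stab A B) (h1 : g o = o)
    (h2 : g (s o) = C (s o)) : g = C := by
  have h3 : C⁻¹ * g = 1 := by
    apply hF _ (mul_mem (inv_mem hC) (hst g hg h1))
    rw [Equiv.Perm.mul_apply, h2]
    exact Equiv.symm_apply_apply _ _
  rw [← mul_one C, ← h3, mul_inv_cancel_left]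

theorem c20 (hA : A o = o) (hr : Rel .c20 A B s o) (hn : Nondeg .c20 A B s o)
    (hst : ∀ g ∈ grp A B s, g o = o → g ∈ stab A B) :
    SimpleFace .c20 A B s o ↔ Distinct .c20 A B s o := by
  obtain ⟨-, hss⟩ := hr
  obtain ⟨h1, hF, hA1, hAA⟩ := hn
  have hs2 : ∀ x, s (s x) = x := fun x => by rw [← Equiv.Perm.mul_apply, hss]; rfl
  have hso : s (s o) = o := hs2 o
  have hsi : s⁻¹ = s := by rw [inv_eq_iff_mul_eq_one]; exact hss
  have hAo : A⁻¹ o = o := by rw [Equiv.Perm.inv_eq_iff_eq, hA]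
  have hne : A (s o) ≠ s o := fun h => hA1 (hF A A_mem_stab h)
  obtain ⟨v, hρ, hv⟩ := exists_walk (s * A * s * A⁻¹) (m := 2) (by norm_num)
    (fun i => if i = 0 then o else s o)
  have v0 : v 0 = o := hv 0 (by norm_num) (by norm_num)
  have v1 : v 1 = s o := hv 1 (by norm_num) (by norm_num)
  have v2 : v 2 = s (A (s o)) := by
    have := hρ 0
    rw [v0, zero_add] at this
    rw [← this]
    simp only [Equiv.Perm.mul_apply, hAo]
  have hρ' : ∀ n, (A * s * A⁻¹ * s) (v n) = v (n - 2) := by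
    intro n
    have e : A * s * A⁻¹ * s = (s * A * s * A⁻¹)⁻¹ := by
      simp only [mul_inv_rev, inv_inv, hsi, mul_assoc]
    rw [e, Equiv.Perm.inv_eq_iff_eq, hρ, sub_add_cancel]
  have vm1 : v (-1) = A (s o) := by
    have := hρ' 1
    rw [v1] at this
    rw [show (1 : ℤ) - 2 = -1 from by norm_num] at this
    rw [← this]
    simp only [Equiv.Perm.mul_apply, hso, hAo]
  have hs : ∀ n, s (v n) = v (1 - n) := by
    apply refl_v (by norm_num) hρ
    · simp only [mul_inv_rev, inv_inv, hsi]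
      simp only [← mul_assoc, hss, one_mul]
      simp only [mul_assoc, hss, mul_one]
    · intro r h0 h3
      have : r = 0 ∨ r = 1 := by omega
      rcases this with rfl | rfl
      · rw [v0, sub_zero, v1]
      · rw [v1, sub_self, v0, hso]
  have hσ : Idx v (A * s * A⁻¹) := by
    have h3 : Idx v (A * s * A⁻¹ * s) := Or.inl ⟨-2, hρ'⟩
    have h4 := h3.mul (Or.inr ⟨1, hs⟩ : Idx v s)
    rw [mul_assoc, hss, mul_one] at h4
    exact h4
  have hface : face .c20 A B s o = wf v := by
    apply face_eq (ρ := s * A * s * A⁻¹) (m := 2) (by norm_num) hρ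
    · rw [show s * A * s * A⁻¹ = s * (A * s * A⁻¹) from by simp only [mul_assoc]]
      exact mul_mem (Subgroup.subset_closure (by simp [faceGens]))
        (Subgroup.subset_closure (by simp [faceGens]))
    · rintro e (rfl | rfl)
      · exact ⟨0, by rw [zero_add, v0, v1]⟩
      · exact ⟨-1, by rw [show (-1 : ℤ) + 1 = 0 from by norm_num, v0, vm1, Sym2.eq_swap]⟩
    · rintro g (rfl | rfl)
      · exact Or.inr ⟨1, hs⟩
      · exact hσ
    · intro r h0 h3
      have : r = 0 ∨ r = 1 := by omega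
      rcases this with rfl | rfl
      · exact ⟨1, one_mem _, s(o, s o), Or.inl rfl, by rw [zero_add, v0, v1]; rfl⟩
      · refine ⟨s, Subgroup.subset_closure (by simp [faceGens]), s(o, A (s o)), Or.inr rfl, ?_⟩
        rw [show (1 : ℤ) + 1 = 2 from by norm_num, v1, v2, Sym2.map_mk]
  have hw1 : ∀ n, v n ≠ v (n + 1) := by
    apply ne_all (by norm_num) hρ
    intro r h0 h3
    have : r = 0 ∨ r = 1 := by omega
    rcases this with rfl | rfl
    · rw [zero_add, v0, v1]; exact h1.symm
    · rw [show (1 : ℤ) + 1 = 2 from by norm_num, v1, v2]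
      intro h
      have h4 : A o = A (s o) := by rw [hA]; exact s.injective h
      exact h1 (A.injective h4).symm
  have h02 : v 0 ≠ v 2 := by
    rw [v0, v2]
    intro h
    have h4 := congrArg s h
    rw [hs2] at h4
    exact hne h4.symm
  have hw2 : ∀ n, v n ≠ v (n + 2) := by
    apply ne_all (by norm_num) hρ
    intro r h0 h3
    have : r = 0 ∨ r = 1 := by omega
    rcases this with rfl | rfl
    · rw [zero_add]; exact h02
    · intro h
      apply h02
      have h4 := congrArg (s * A * s * A⁻¹) (congrArg s h)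
      rw [hs, hs, hρ, hρ] at h4
      norm_num at h4
      exact h4.symm
  have hρmem : s * A * s * A⁻¹ ∈ grp A B s :=
    mul_mem (mul_mem (mul_mem mem_s mem_A) mem_s) (inv_mem mem_A)
  have hfree : ∀ j : ℤ, (∀ k, ((s * A * s * A⁻¹) ^ j) (v k) = v k) →
      (s * A * s * A⁻¹) ^ j = 1 := by
    intro j hj
    apply eq_one_of hst hF (zpow_mem hρmem j)
    · have := hj 0
      rwa [v0] at this
    · have := hj 1
      rwa [v1] at this
  have hcl : ∀ p : ℤ, (∀ k, v (k + p) = v k) → ((2 : ℕ) : ℤ) ∣ p := by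
    intro p hp
    by_contra hcon
    obtain ⟨j, hj⟩ : ∃ j, p = 2 * j + 1 := by
      rcases Int.even_or_odd' p with ⟨j, hj | hj⟩
      · exact absurd ⟨j, hj⟩ hcon
      · exact ⟨j, hj⟩
    have hh : ∀ n, ((s * A * s * A⁻¹) ^ j * s) (v n) = v (-n) := by
      intro n
      rw [Equiv.Perm.mul_apply, hs, zpow_v hρ, ← hp (-n)]
      congr 1
      linear_combination -hj
    have hmem : (s * A * s * A⁻¹) ^ j * s ∈ grp A B s := mul_mem (zpow_mem hρmem j) mem_s
    have ho : ((s * A * s * A⁻¹) ^ j * s) o = o := by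
      have := hh 0
      rwa [neg_zero, v0] at this
    have h3 := eq_of hst hF hmem A_mem_stab ho (by
      have := hh 1
      rwa [v1, vm1] at this)
    apply hAA
    rw [← h3]
    apply eq_one_of hst hF (mul_mem hmem hmem)
    · rw [Equiv.Perm.mul_apply, ho, ho]
    · rw [← v1, Equiv.Perm.mul_apply, hh, hh, neg_neg]
  have key := smp_iff (m := 2) (by norm_num) hρ hw1 hw2 hcl hfree
  have hlist : (List.ofFn fun i : Fin 2 => v i) = [o, s o] := by
    simp [List.ofFn_succ, v0, v1]
  rw [hlist] at key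
  rw [show SimpleFace .c20 A B s o ↔ Smp (face .c20 A B s o) from Iff.rfl, hface, key]
  have hinv : ∀ n : ℤ, (s * A * s * A⁻¹) ^ n = (A * s * A⁻¹ * s) ^ (-n) := by
    intro n
    rw [zpow_neg, ← inv_zpow]
    congr 1
    simp only [mul_inv_rev, inv_inv, hsi, mul_assoc]
  constructor
  · rintro ⟨h3, h4⟩
    refine ⟨h3, fun n hn => ?_⟩
    have := h4 (-n)
    rw [hinv, neg_neg] at this
    exact this hn
  · rintro ⟨h3, h4⟩
    refine ⟨h3, fun n hn => ?_⟩
    rw [hinv] at hn ⊢
    exact h4 _ hn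

theorem c21 (hA : A o = o) (hB : B o = o) (hr : Rel .c21 A B s o) (hn : Nondeg .c21 A B s o)
    (hst : ∀ g ∈ grp A B s, g o = o → g ∈ stab A B) :
    SimpleFace .c21 A B s o ↔ Distinct .c21 A B s o := by
  obtain ⟨hAA, hBB, hss⟩ := hr
  obtain ⟨h1, hF, hA1, hB1, hAB⟩ := hn
  have hs2 : ∀ x, s (s x) = x := fun x => by rw [← Equiv.Perm.mul_apply, hss]; rfl
  have hsi : s⁻¹ = s := by rw [inv_eq_iff_mul_eq_one]; exact hss
  have hAi : A⁻¹ = A := by rw [inv_eq_iff_mul_eq_one]; exact hAA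
  have hBi : B⁻¹ = B := by rw [inv_eq_iff_mul_eq_one]; exact hBB
  have hsi' : ∀ x, s⁻¹ x = s x := fun x => by rw [hsi]
  have hneA : A (s o) ≠ s o := fun h => hA1 (hF A A_mem_stab h)
  have hneB : B (s o) ≠ s o := fun h => hB1 (hF B B_mem_stab h)
  obtain ⟨v, hρ, hv⟩ := exists_walk (s * B * s⁻¹ * A) (m := 2) (by norm_num)
    (fun i => if i = 0 then o else s o)
  have v0 : v 0 = o := hv 0 (by norm_num) (by norm_num)
  have v1 : v 1 = s o := hv 1 (by norm_num) (by norm_num)
  have v2 : v 2 = s (B (s o)) := by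
    have := hρ 0
    rw [v0, zero_add] at this
    rw [← this]
    simp only [Equiv.Perm.mul_apply, hA, hsi']
  have vm1 : v (-1) = A (s o) := by
    have h3 := hρ (-1)
    rw [show (-1 : ℤ) + 2 = 1 from by norm_num, v1, ← Equiv.Perm.eq_inv_iff_eq] at h3
    rw [h3]
    simp only [mul_inv_rev, inv_inv, hAi, hBi, hsi, Equiv.Perm.mul_apply, hs2, hB]
  have hAr : ∀ n, A (v n) = v (0 - n) := by
    apply refl_v (by norm_num) hρ
    · simp only [mul_inv_rev, inv_inv, hsi, hAi, hBi, mul_assoc]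
    · intro r h0 h3
      have : r = 0 ∨ r = 1 := by omega
      rcases this with rfl | rfl
      · rw [v0, sub_zero, v0, hA]
      · rw [v1, zero_sub, vm1]
  have hτ : Idx v (s * B * s⁻¹) := by
    have h4 := (idx_rho hρ).mul (Or.inr ⟨0, hAr⟩ : Idx v A)
    rw [mul_assoc (s * B * s⁻¹), hAA, mul_one] at h4
    exact h4
  have hface : face .c21 A B s o = wf v := by
    apply face_eq (ρ := s * B * s⁻¹ * A) (m := 2) (by norm_num) hρ
    · exact mul_mem (Subgroup.subset_closure (by simp [faceGens]))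
        (Subgroup.subset_closure (by simp [faceGens]))
    · rintro e rfl
      exact ⟨0, by rw [zero_add, v0, v1]⟩
    · rintro g (rfl | rfl)
      · exact Or.inr ⟨0, hAr⟩
      · exact hτ
    · intro r h0 h3
      have : r = 0 ∨ r = 1 := by omega
      rcases this with rfl | rfl
      · exact ⟨1, one_mem _, s(o, s o), rfl, by rw [zero_add, v0, v1]; rfl⟩
      · refine ⟨s * B * s⁻¹, Subgroup.subset_closure (by simp [faceGens]), s(o, s o), rfl, ?_⟩
        rw [show (1 : ℤ) + 1 = 2 from by norm_num, v1, v2, Sym2.map_mk]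
        simp only [Equiv.Perm.mul_apply, hsi', hs2, hB]
        exact Sym2.eq_swap
  have hw1 : ∀ n, v n ≠ v (n + 1) := by
    apply ne_all (by norm_num) hρ
    intro r h0 h3
    have : r = 0 ∨ r = 1 := by omega
    rcases this with rfl | rfl
    · rw [zero_add, v0, v1]; exact h1.symm
    · rw [show (1 : ℤ) + 1 = 2 from by norm_num, v1, v2]
      intro h
      have h4 : B o = B (s o) := by rw [hB]; exact s.injective h
      exact h1 (B.injective h4).symm
  have hw2 : ∀ n, v n ≠ v (n + 2) := by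
    apply ne_all (by norm_num) hρ
    intro r h0 h3
    have : r = 0 ∨ r = 1 := by omega
    rcases this with rfl | rfl
    · rw [zero_add, v0, v2]
      intro h
      have h4 := congrArg s h
      rw [hs2] at h4
      exact hneB h4.symm
    · intro h
      have h4 := congrArg (s * B * s⁻¹ * A) (congrArg A h)
      rw [hAr, hAr, hρ, hρ] at h4
      norm_num at h4
      rw [v1, vm1] at h4
      exact hneA h4.symm
  have hρmem : s * B * s⁻¹ * A ∈ grp A B s :=
    mul_mem (mul_mem (mul_mem mem_s mem_B) (inv_mem mem_s)) mem_A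
  have hfree : ∀ j : ℤ, (∀ k, ((s * B * s⁻¹ * A) ^ j) (v k) = v k) →
      (s * B * s⁻¹ * A) ^ j = 1 := by
    intro j hj
    apply eq_one_of hst hF (zpow_mem hρmem j)
    · have := hj 0
      rwa [v0] at this
    · have := hj 1
      rwa [v1] at this
  have hcl : ∀ p : ℤ, (∀ k, v (k + p) = v k) → ((2 : ℕ) : ℤ) ∣ p := by
    intro p hp
    by_contra hcon
    obtain ⟨j, hj⟩ : ∃ j, p = 2 * j + 1 := by
      rcases Int.even_or_odd' p with ⟨j, hj | hj⟩
      · exact absurd ⟨j, hj⟩ hcon
      · exact ⟨j, hj⟩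
    have hh : ∀ n, ((s * B * s⁻¹ * A) ^ (j + 1) * A) (v n) = v (1 - n) := by
      intro n
      rw [Equiv.Perm.mul_apply, hAr, zpow_v hρ, ← hp (1 - n)]
      congr 1
      linear_combination -hj
    have hmem : (s * B * s⁻¹ * A) ^ (j + 1) * A ∈ grp A B s :=
      mul_mem (zpow_mem hρmem _) mem_A
    generalize (s * B * s⁻¹ * A) ^ (j + 1) * A = h at hh hmem
    have h3 : s * h = 1 := by
      apply eq_one_of hst hF (mul_mem mem_s hmem)
      · rw [Equiv.Perm.mul_apply]
        have := hh 0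
        rw [sub_zero, v0, v1] at this
        rw [this, hs2]
      · rw [Equiv.Perm.mul_apply]
        have := hh 1
        rw [sub_self, v0, v1] at this
        rw [this]
    have h4 : h = s := by
      rw [← hsi]
      exact (inv_eq_of_mul_eq_one_right h3).symm
    apply hAB
    apply eq_of hst hF mem_A B_mem_stab hA
    have := hh (-1)
    rw [show (1 : ℤ) - -1 = 2 from by norm_num, vm1, v2, h4] at this
    exact s.injective this
  have key := smp_iff (m := 2) (by norm_num) hρ hw1 hw2 hcl hfree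
  have hlist : (List.ofFn fun i : Fin 2 => v i) = [o, s o] := by
    simp [List.ofFn_succ, v0, v1]
  rw [hlist] at key
  rw [show SimpleFace .c21 A B s o ↔ Smp (face .c21 A B s o) from Iff.rfl, hface, key]
  exact Iff.rfl

theorem c4a (hA : A o = o) (hr : Rel .c4a A B s o) (hn : Nondeg .c4a A B s o)
    (hst : ∀ g ∈ grp A B s, g o = o → g ∈ stab A B) :
    SimpleFace .c4a A B s o ↔ Distinct .c4a A B s o := by
  obtain ⟨h1, hF, hA1, hAp⟩ := hn
  have hi : ∀ x, s⁻¹ (s x) = x := fun x => Equiv.symm_apply_apply _ _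
  have hi' : ∀ x, s (s⁻¹ x) = x := fun x => Equiv.apply_symm_apply _ _
  have hAo : A⁻¹ o = o := by rw [Equiv.Perm.inv_eq_iff_eq, hA]
  obtain ⟨v, hρ, hv⟩ := exists_walk (s * A * s) (m := 2) (by norm_num)
    (fun i => if i = 0 then o else s o)
  have v0 : v 0 = o := hv 0 (by norm_num) (by norm_num)
  have v1 : v 1 = s o := hv 1 (by norm_num) (by norm_num)
  have v2 : v 2 = s (A (s o)) := by
    have := hρ 0
    rw [v0, zero_add] at this
    exact this.symm
  have vm1 : v (-1) = s⁻¹ o := by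
    have h3 := hρ (-1)
    rw [show (-1 : ℤ) + 2 = 1 from by norm_num, v1, ← Equiv.Perm.eq_inv_iff_eq] at h3
    rw [h3]
    simp only [mul_inv_rev, Equiv.Perm.mul_apply, hi, hAo]
  have hface : face .c4a A B s o = wf v := by
    apply face_eq (ρ := s * A * s) (m := 2) (by norm_num) hρ
    · exact Subgroup.subset_closure rfl
    · rintro e (rfl | rfl)
      · exact ⟨-1, by rw [show (-1 : ℤ) + 1 = 0 from by norm_num, v0, vm1]⟩
      · exact ⟨0, by rw [zero_add, v0, v1]⟩
    · rintro g rfl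
      exact idx_rho hρ
    · intro r h0 h3
      have : r = 0 ∨ r = 1 := by omega
      rcases this with rfl | rfl
      · exact ⟨1, one_mem _, s(o, s o), Or.inr rfl, by rw [zero_add, v0, v1]; rfl⟩
      · refine ⟨s * A * s, Subgroup.subset_closure rfl, s(s⁻¹ o, o), Or.inl rfl, ?_⟩
        rw [show (1 : ℤ) + 1 = 2 from by norm_num, v1, v2, Sym2.map_mk]
        simp only [Equiv.Perm.mul_apply, hi', hA]
  have hw1 : ∀ n, v n ≠ v (n + 1) := by
    apply ne_all (by norm_num) hρ
    intro r h0 h3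
    have : r = 0 ∨ r = 1 := by omega
    rcases this with rfl | rfl
    · rw [zero_add, v0, v1]; exact h1.symm
    · rw [show (1 : ℤ) + 1 = 2 from by norm_num, v1, v2]
      intro h
      have h4 : A o = A (s o) := by rw [hA]; exact s.injective h
      exact h1 (A.injective h4).symm
  have hw2 : ∀ n, v n ≠ v (n + 2) := by
    apply ne_all (by norm_num) hρ
    intro r h0 h3
    have : r = 0 ∨ r = 1 := by omega
    rcases this with rfl | rfl
    · rw [zero_add, v0, v2]
      intro h
      apply hAp A A_mem_stab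
      rw [Equiv.Perm.eq_inv_iff_eq]
      exact h.symm
    · rw [← hρ, v1]
      intro h
      apply hAp 1 (one_mem _)
      have h4 := hρ (-1)
      rw [show (-1 : ℤ) + 2 = 1 from by norm_num, v1, vm1] at h4
      rw [← h4] at h
      have h5 := (s * A * s).injective h
      rw [h4] at h5
      exact h5.symm
  have hρmem : s * A * s ∈ grp A B s := mul_mem (mul_mem mem_s mem_A) mem_s
  have hfree : ∀ j : ℤ, (∀ k, ((s * A * s) ^ j) (v k) = v k) → (s * A * s) ^ j = 1 := by
    intro j hj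
    apply eq_one_of hst hF (zpow_mem hρmem j)
    · have := hj 0
      rwa [v0] at this
    · have := hj 1
      rwa [v1] at this
  have hcl : ∀ p : ℤ, (∀ k, v (k + p) = v k) → ((2 : ℕ) : ℤ) ∣ p := by
    intro p hp
    by_contra hcon
    obtain ⟨j, hj⟩ : ∃ j, p = 2 * j + 1 := by
      rcases Int.even_or_odd' p with ⟨j, hj | hj⟩
      · exact absurd ⟨j, hj⟩ hcon
      · exact ⟨j, hj⟩
    have hh : ∀ n, ((s * A * s) ^ (j + 1)) (v n) = v (n + 1) := by
      intro n
      rw [zpow_v hρ, ← hp (n + 1)]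
      congr 1
      linear_combination -hj
    have hmem : (s * A * s) ^ (j + 1) ∈ grp A B s := zpow_mem hρmem _
    generalize (s * A * s) ^ (j + 1) = h at hh hmem
    have h3 : s⁻¹ * h = A := by
      apply eq_of hst hF (mul_mem (inv_mem mem_s) hmem) A_mem_stab
      · rw [Equiv.Perm.mul_apply]
        have := hh 0
        rw [zero_add, v0, v1] at this
        rw [this, hi]
      · rw [Equiv.Perm.mul_apply]
        have := hh 1
        rw [show (1 : ℤ) + 1 = 2 from by norm_num, v1, v2] at this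
        rw [this, hi]
    have h4 : A (s⁻¹ o) = s⁻¹ o := by
      rw [← h3, Equiv.Perm.mul_apply]
      have := hh (-1)
      rw [show (-1 : ℤ) + 1 = 0 from by norm_num, v0, vm1] at this
      rw [this]
    apply hA1
    have h5 : s * A * s⁻¹ = 1 := by
      apply eq_one_of hst hF (mul_mem (mul_mem mem_s mem_A) (inv_mem mem_s))
      · simp only [Equiv.Perm.mul_apply, h4, hi']
      · simp only [Equiv.Perm.mul_apply, hi, hA]
    rw [mul_inv_eq_one] at h5
    exact mul_eq_left.1 h5
  have key := smp_iff (m := 2) (by norm_num) hρ hw1 hw2 hcl hfree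
  have hlist : (List.ofFn fun i : Fin 2 => v i) = [o, s o] := by
    simp [List.ofFn_succ, v0, v1]
  rw [hlist] at key
  rw [show SimpleFace .c4a A B s o ↔ Smp (face .c4a A B s o) from Iff.rfl, hface, key]
  exact Iff.rfl

theorem c4b (hA : A o = o) (hB : B o = o) (hr : Rel .c4b A B s o) (hn : Nondeg .c4b A B s o)
    (hst : ∀ g ∈ grp A B s, g o = o → g ∈ stab A B) :
    SimpleFace .c4b A B s o ↔ Distinct .c4b A B s o := by
  obtain ⟨hAA, hBB⟩ := hr
  obtain ⟨h1, hF, hA1, hB1, hAp⟩ := hn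
  have hi : ∀ x, s⁻¹ (s x) = x := fun x => Equiv.symm_apply_apply _ _
  have hi' : ∀ x, s (s⁻¹ x) = x := fun x => Equiv.apply_symm_apply _ _
  have hA2 : ∀ x, A (A x) = x := fun x => by rw [← Equiv.Perm.mul_apply, hAA]; rfl
  have hAi : A⁻¹ = A := by rw [inv_eq_iff_mul_eq_one]; exact hAA
  have hBi : B⁻¹ = B := by rw [inv_eq_iff_mul_eq_one]; exact hBB
  obtain ⟨v, hρ, hv⟩ := exists_walk (s * s * B * s⁻¹ * s⁻¹ * A) (m := 4) (by norm_num)
    (fun i => if i = 0 then A (s o) else if i = 1 then o else if i = 2 then s o else s (s o))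
  have v0 : v 0 = A (s o) := hv 0 (by norm_num) (by norm_num)
  have v1 : v 1 = o := hv 1 (by norm_num) (by norm_num)
  have v2 : v 2 = s o := hv 2 (by norm_num) (by norm_num)
  have v3 : v 3 = s (s o) := hv 3 (by norm_num) (by norm_num)
  have v4 : v 4 = s (s (B (s⁻¹ o))) := by
    have := hρ 0
    rw [v0, zero_add] at this
    rw [← this]
    simp only [Equiv.Perm.mul_apply, hA2, hi]
  have vm1 : v (-1) = A (s (s o)) := by
    have h3 := hρ (-1)
    rw [show (-1 : ℤ) + 4 = 3 from by norm_num, v3, ← Equiv.Perm.eq_inv_iff_eq] at h3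
    rw [h3]
    simp only [mul_inv_rev, inv_inv, Equiv.Perm.mul_apply, hi, hAi, hBi, hB]
  have hAr : ∀ n, A (v n) = v (2 - n) := by
    apply refl_v (by norm_num) hρ
    · simp only [mul_inv_rev, inv_inv, hAi, hBi, mul_assoc]
    · intro r h0 h3
      have : r = 0 ∨ r = 1 ∨ r = 2 ∨ r = 3 := by omega
      rcases this with rfl | rfl | rfl | rfl
      · rw [v0, sub_zero, v2, hA2]
      · rw [show (2 : ℤ) - 1 = 1 from by norm_num, v1, hA]
      · rw [sub_self, v0, v2]
      · rw [show (2 : ℤ) - 3 = -1 from by norm_num, vm1, v3]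
  have hκ : ∀ n, (s * s * B * s⁻¹ * s⁻¹) (v n) = v (6 - n) := by
    intro n
    have h3 : s * s * B * s⁻¹ * s⁻¹ = s * s * B * s⁻¹ * s⁻¹ * A * A := by
      rw [mul_assoc _ A A, hAA, mul_one]
    rw [h3, Equiv.Perm.mul_apply, hAr, hρ]
    congr 1
    ring
  have hface : face .c4b A B s o = wf v := by
    apply face_eq (ρ := s * s * B * s⁻¹ * s⁻¹ * A) (m := 4) (by norm_num) hρ
    · exact mul_mem (Subgroup.subset_closure (by simp [faceGens]))
        (Subgroup.subset_closure (by simp [faceGens]))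
    · rintro e (rfl | rfl)
      · exact ⟨1, by rw [show (1 : ℤ) + 1 = 2 from by norm_num, v1, v2]⟩
      · exact ⟨2, by rw [show (2 : ℤ) + 1 = 3 from by norm_num, v2, v3]⟩
    · rintro g (rfl | rfl)
      · exact Or.inr ⟨2, hAr⟩
      · exact Or.inr ⟨6, hκ⟩
    · intro r h0 h3
      have : r = 0 ∨ r = 1 ∨ r = 2 ∨ r = 3 := by omega
      rcases this with rfl | rfl | rfl | rfl
      · refine ⟨A, Subgroup.subset_closure (by simp [faceGens]), s(o, s o), Or.inl rfl, ?_⟩
        rw [zero_add, v0, v1, Sym2.map_mk, hA]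
        exact Sym2.eq_swap
      · exact ⟨1, one_mem _, s(o, s o), Or.inl rfl, by
          rw [show (1 : ℤ) + 1 = 2 from by norm_num, v1, v2]; rfl⟩
      · exact ⟨1, one_mem _, s(s o, s (s o)), Or.inr rfl, by
          rw [show (2 : ℤ) + 1 = 3 from by norm_num, v2, v3]; rfl⟩
      · refine ⟨s * s * B * s⁻¹ * s⁻¹, Subgroup.subset_closure (by simp [faceGens]),
          s(s o, s (s o)), Or.inr rfl, ?_⟩
        rw [Sym2.map_mk, ← v3, ← v2, hκ, hκ, Sym2.eq_swap]
        norm_num
  have hw1 : ∀ n, v n ≠ v (n + 1) := by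
    apply ne_all (by norm_num) hρ
    intro r h0 h3
    have : r = 0 ∨ r = 1 ∨ r = 2 ∨ r = 3 := by omega
    have h23 : v 2 ≠ v 3 := by
      rw [v2, v3]
      intro h
      exact h1 (s.injective h).symm
    rcases this with rfl | rfl | rfl | rfl
    · rw [zero_add, v0, v1]
      intro h
      rw [← hA] at h
      have h4 := A.injective (h.trans (by rw [hA]))
      rw [hA] at h4
      exact h1 h4
    · rw [show (1 : ℤ) + 1 = 2 from by norm_num, v1, v2]
      exact h1.symm
    · exact h23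
    · intro h
      have h4 := congrArg (s * s * B * s⁻¹ * s⁻¹) h
      rw [hκ, hκ] at h4
      norm_num at h4
      exact h23 h4.symm
  have h13 : v 1 ≠ v 3 := by
    rw [v1, v3]
    intro h
    apply hAp 1 (one_mem _)
    rw [Equiv.Perm.eq_inv_iff_eq]
    exact h.symm
  have hw2 : ∀ n, v n ≠ v (n + 2) := by
    apply ne_all (by norm_num) hρ
    intro r h0 h3
    have : r = 0 ∨ r = 1 ∨ r = 2 ∨ r = 3 := by omega
    rcases this with rfl | rfl | rfl | rfl
    · rw [zero_add, v0, v2]
      intro h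
      exact hA1 (hF A A_mem_stab h)
    · exact h13
    · rw [show (2 : ℤ) + 2 = 4 from by norm_num, v2, v4]
      intro h
      have h4 : s (B (s⁻¹ o)) = o := (s.injective h).symm
      apply hB1
      have h5 : s * B * s⁻¹ = 1 := by
        apply eq_one_of hst hF (mul_mem (mul_mem mem_s mem_B) (inv_mem mem_s))
        · simp only [Equiv.Perm.mul_apply, h4]
        · simp only [Equiv.Perm.mul_apply, hi, hB]
      rw [mul_inv_eq_one] at h5
      exact mul_eq_left.1 h5
    · intro h
      have h4 := congrArg (s * s * B * s⁻¹ * s⁻¹) h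
      rw [hκ, hκ] at h4
      norm_num at h4
      exact h13 h4.symm
  have hρmem : s * s * B * s⁻¹ * s⁻¹ * A ∈ grp A B s :=
    mul_mem (mul_mem (mul_mem (mul_mem (mul_mem mem_s mem_s) mem_B) (inv_mem mem_s))
      (inv_mem mem_s)) mem_A
  have hfree : ∀ j : ℤ, (∀ k, ((s * s * B * s⁻¹ * s⁻¹ * A) ^ j) (v k) = v k) →
      (s * s * B * s⁻¹ * s⁻¹ * A) ^ j = 1 := by
    intro j hj
    apply eq_one_of hst hF (zpow_mem hρmem j)
    · have := hj 1
      rwa [v1] at this
    · have := hj 2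
      rwa [v2] at this
  -- no translation by one
  have hone : ∀ j : ℤ, ¬ ∀ n, ((s * s * B * s⁻¹ * s⁻¹ * A) ^ j) (v n) = v (n + 1) := by
    intro j hh
    have hmem : (s * s * B * s⁻¹ * s⁻¹ * A) ^ j ∈ grp A B s := zpow_mem hρmem _
    generalize (s * s * B * s⁻¹ * s⁻¹ * A) ^ j = h at hh hmem
    have h3 : s⁻¹ * h = 1 := by
      apply eq_one_of hst hF (mul_mem (inv_mem mem_s) hmem)
      · rw [Equiv.Perm.mul_apply]
        have := hh 1
        rw [show (1 : ℤ) + 1 = 2 from by norm_num, v1, v2] at this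
        rw [this, hi]
      · rw [Equiv.Perm.mul_apply]
        have := hh 2
        rw [show (2 : ℤ) + 1 = 3 from by norm_num, v2, v3] at this
        rw [this, hi]
    have h4 : h = s := (inv_mul_eq_one.1 h3).symm
    apply hAp A A_mem_stab
    rw [Equiv.Perm.eq_inv_iff_eq, ← h4]
    have := hh 0
    rw [zero_add, v0, v1] at this
    rw [h4] at this ⊢
    exact this
  have hcl : ∀ p : ℤ, (∀ k, v (k + p) = v k) → ((4 : ℕ) : ℤ) ∣ p := by
    intro p hp
    by_contra hcon
    have hcases : (∃ j, p = 4 * j + 1) ∨ (∃ j, p = 4 * j + 2) ∨ ∃ j, p = 4 * j + 3 := by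
      have h4 := Int.emod_add_mul_ediv p 4
      have h5 : p % 4 ≠ 0 := fun h => hcon (Int.dvd_of_emod_eq_zero h)
      have h6 := Int.emod_nonneg p (b := 4) (by norm_num)
      have h7 := Int.emod_lt_of_pos p (b := 4) (by norm_num)
      have : p % 4 = 1 ∨ p % 4 = 2 ∨ p % 4 = 3 := by omega
      rcases this with h | h | h
      · exact Or.inl ⟨p / 4, by omega⟩
      · exact Or.inr (Or.inl ⟨p / 4, by omega⟩)
      · exact Or.inr (Or.inr ⟨p / 4, by omega⟩)
    rcases hcases with ⟨j, hj⟩ | ⟨j, hj⟩ | ⟨j, hj⟩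
    · apply hone (-j)
      intro n
      rw [zpow_v hρ, ← hp (n + 4 * -j)]
      congr 1
      linear_combination hj
    · have hh : ∀ n, ((s * s * B * s⁻¹ * s⁻¹ * A) ^ (j + 1) * A) (v n) = v (4 - n) := by
        intro n
        rw [Equiv.Perm.mul_apply, hAr, zpow_v hρ, ← hp (4 - n)]
        congr 1
        linear_combination -hj
      have hmem : (s * s * B * s⁻¹ * s⁻¹ * A) ^ (j + 1) * A ∈ grp A B s :=
        mul_mem (zpow_mem hρmem _) mem_A
      generalize (s * s * B * s⁻¹ * s⁻¹ * A) ^ (j + 1) * A = h at hh hmem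
      have h2 := hh 2
      rw [show (4 : ℤ) - 2 = 2 from by norm_num, v2] at h2
      have h3 := hh 3
      rw [show (4 : ℤ) - 3 = 1 from by norm_num, v1, v3] at h3
      have h4 : s⁻¹ * h * s ∈ stab A B := by
        apply hst _ (mul_mem (mul_mem (inv_mem mem_s) hmem) mem_s)
        simp only [Equiv.Perm.mul_apply, h2, hi]
      apply hAp _ h4
      simp only [Equiv.Perm.mul_apply, h3]
    · apply hone (j + 1)
      intro n
      rw [zpow_v hρ, ← hp (n + 1)]
      congr 1
      linear_combination -hj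
  have key := smp_iff (m := 4) (by norm_num) hρ hw1 hw2 hcl hfree
  have hlist : (List.ofFn fun i : Fin 4 => v i) = [A (s o), o, s o, s (s o)] := by
    simp [List.ofFn_succ, v0, v1, v2, v3]
  rw [hlist] at key
  rw [show SimpleFace .c4b A B s o ↔ Smp (face .c4b A B s o) from Iff.rfl, hface, key]
  exact Iff.rfl

end cases

end SI

variable {X : Type*}

/-- The base face is a simple polygon iff its vertices are distinct. -/
theorem simple_iff {c : Cls} {A B s : Equiv.Perm X} {o : X} (hA : A o = o) (hB : B o = o)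
    (hr : Rel c A B s o) (hn : Nondeg c A B s o)
    (hst : ∀ g ∈ grp A B s, g o = o → g ∈ stab A B) :
    SimpleFace c A B s o ↔ Distinct c A B s o := by
  have htriv : ∀ c : Cls, faceReps c A B s o = [] → Distinct c A B s o := by
    intro c h
    unfold Distinct
    rw [h]
    exact ⟨List.nodup_nil, fun n _ v hv => absurd hv List.not_mem_nil⟩
  cases c with
  | reg => exact iff_of_true (SI.reg hA hr hn) (htriv _ rfl)
  | c2 => exact iff_of_true (SI.c2 hA hr hn) (htriv _ rfl)
  | c20 => exact SI.c20 hA hr hn hst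
  | c21 => exact SI.c21 hA hB hr hn hst
  | c22 => exact iff_of_true (SI.c22 hn) (htriv _ rfl)
  | c4a => exact SI.c4a hA hr hn hst
  | c4b => exact SI.c4b hA hB hr hn hst

end Pool.Agent.H21.FT
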