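import Pool.Agent.H21.FT.RowFacts
import Pool.Agent.H21.FT.Items

/-!
# When the vertices are not coplanar
-/

namespace Pool.Agent.H21.FT

open Matrix

namespace SpansIff

/-! ### Products of generators -/

/-- The product of the matrices with the given indices. -/
def word (G : List IM) : List ℕ → IM
  | [] => IM.one
  | i :: u => (G.getD i IM.one).mul (word G u)

theorem word_real {Γ : Subgroup (Equiv.Perm V3)} {G : List IM}
    (hG : ∀ M ∈ G, ∃ g ∈ Γ, ∃ a, IsAff g M.mat a) (u : List ℕ) :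
    ∃ g ∈ Γ, ∃ a, IsAff g (word G u).mat a := by
  induction u with
  | nil =>
    refine ⟨1, one_mem _, 0, ?_⟩
    change IsAff 1 IM.one.mat 0
    rw [rf_one_mat]
    exact rf_one
  | cons i u ih =>
    obtain ⟨g, hg, a, hga⟩ := ih
    have h1 : ∃ g ∈ Γ, ∃ a, IsAff g (G.getD i IM.one).mat a := by
      rcases lt_or_ge i G.length with h | h
      · rw [rf_getD _ _ h]
        exact hG _ (List.getElem_mem h)
      · refine ⟨1, one_mem _, 0, ?_⟩
        rw [List.getD_eq_default _ _ h, rf_one_mat]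
        exact rf_one
    obtain ⟨g', hg', a', hga'⟩ := h1
    have h2 := rf_mul hga' hga
    rw [← rf_mul_mat] at h2
    exact ⟨g' * g, mul_mem hg' hg, _, h2⟩

/-! ### The vectors all of whose images are orthogonal to `n` -/

/-- All images of `y` under the linear parts of `Γ` are orthogonal to `n`. -/
def W (Γ : Subgroup (Equiv.Perm V3)) (n y : V3) : Prop :=
  ∀ g ∈ Γ, ∀ M a, IsAff g M a → n ⬝ᵥ (M *ᵥ y) = 0

section

variable {Γ : Subgroup (Equiv.Perm V3)} {n : V3}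

theorem W_add {x y : V3} (hx : W Γ n x) (hy : W Γ n y) : W Γ n (x + y) := by
  intro g hg M a hM
  rw [mulVec_add, dotProduct_add, hx g hg M a hM, hy g hg M a hM, add_zero]

theorem W_smul (c : ℝ) {x : V3} (hx : W Γ n x) : W Γ n (c • x) := by
  intro g hg M a hM
  rw [mulVec_smul, dotProduct_smul, hx g hg M a hM, smul_zero]

theorem W_lin {x : V3} (hx : W Γ n x) {g : Equiv.Perm V3} (hg : g ∈ Γ) {N : M3} {b : V3}
    (hN : IsAff g N b) : W Γ n (N *ᵥ x) := by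
  intro g' hg' M a hM
  rw [mulVec_mulVec]
  exact hx _ (mul_mem hg' hg) _ _ (rf_mul hM hN)

theorem W_dot {x : V3} (hx : W Γ n x) : n ⬝ᵥ x = 0 := by
  have := hx 1 (one_mem _) 1 0 rf_one
  rwa [one_mulVec] at this

theorem W_orbit (h : ∀ g ∈ Γ, n ⬝ᵥ (g 0) = 0) {g : Equiv.Perm V3} (hg : g ∈ Γ) :
    W Γ n (g 0) := by
  intro g' hg' M a hM
  have h1 := h _ (mul_mem hg' hg)
  have h2 := h _ hg'
  rw [Equiv.Perm.mul_apply, hM, dotProduct_add] at h1
  rw [hM, mulVec_zero, zero_add] at h2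
  rw [h2, add_zero] at h1
  exact h1

end

/-- the axial case -/
theorem axial {Γ : Subgroup (Equiv.Perm V3)} {n : V3} {g : Equiv.Perm V3} (hg : g ∈ Γ) {N : M3}
    {b : V3} (hN : IsAff g N b) (h02 : N 0 2 = 0) (h12 : N 1 2 = 0) (h20 : N 2 0 = 0)
    (h21 : N 2 1 = 0) (hdet : N 0 0 * N 1 1 - N 0 1 * N 1 0 = 1)
    (htr : (N 0 0 + N 1 1) ^ 2 < 4) (h22 : N 2 2 ^ 2 = 1) {w x : V3} (hw : W Γ n w)
    (hx : W Γ n x) (hw2 : w 2 ≠ 0) (hx0 : x 0 ≠ 0 ∨ x 1 ≠ 0) : n = 0 := by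
  have hNv : ∀ y : V3, N *ᵥ y = ![N 0 0 * y 0 + N 0 1 * y 1, N 1 0 * y 0 + N 1 1 * y 1,
      N 2 2 * y 2] := by
    intro y
    ext j
    fin_cases j <;> simp [Matrix.mulVec, dotProduct, Fin.sum_univ_three, h02, h12, h20, h21]
  have e1 := W_dot (W_add (W_add (W_lin (W_lin hw hg hN) hg hN)
    (W_smul (-(N 0 0 + N 1 1)) (W_lin hw hg hN))) hw)
  have e2 := W_dot hx
  have e3 := W_dot (W_lin hx hg hN)
  rw [hNv, hNv] at e1
  rw [hNv] at e3
  simp only [dotProduct, Fin.sum_univ_three, Pi.add_apply, Pi.smul_apply, smul_eq_mul,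
    Matrix.cons_val_zero, Matrix.cons_val_one, Matrix.cons_val] at e1 e2 e3
  have e4 : n 2 * ((2 - (N 0 0 + N 1 1) * N 2 2) * w 2) = 0 := by
    linear_combination e1 + (n 0 * w 0 + n 1 * w 1) * (hdet) - n 2 * w 2 * h22
  have hq : 2 - (N 0 0 + N 1 1) * N 2 2 ≠ 0 := by
    intro h
    have h5 : ((N 0 0 + N 1 1) * N 2 2) ^ 2 = 4 := by
      have : (N 0 0 + N 1 1) * N 2 2 = 2 := by linarith
      rw [this]
      norm_num
    rw [mul_pow, h22, mul_one] at h5
    linarith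
  have hn2 : n 2 = 0 := by
    rcases mul_eq_zero.1 e4 with h | h
    · exact h
    · exact absurd h (mul_ne_zero hq hw2)
  rw [hn2] at e2 e3
  set D : ℝ := N 1 0 * x 0 ^ 2 + (N 1 1 - N 0 0) * x 0 * x 1 - N 0 1 * x 1 ^ 2 with hD
  have hD0 : D ≠ 0 := by
    intro h
    have h6 : (2 * N 1 0 * x 0 + (N 1 1 - N 0 0) * x 1) ^ 2 +
        (4 - (N 0 0 + N 1 1) ^ 2) * x 1 ^ 2 = 0 := by
      linear_combination 4 * N 1 0 * h - 4 * x 1 ^ 2 * hdet
    have h7 : (4 - (N 0 0 + N 1 1) ^ 2) * x 1 ^ 2 = 0 := by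
      have h8 : 0 ≤ (4 - (N 0 0 + N 1 1) ^ 2) * x 1 ^ 2 :=
        mul_nonneg (by linarith) (sq_nonneg _)
      nlinarith [sq_nonneg (2 * N 1 0 * x 0 + (N 1 1 - N 0 0) * x 1)]
    have h9 : x 1 = 0 := by
      rcases mul_eq_zero.1 h7 with h | h
      · linarith
      · exact pow_eq_zero_iff (two_ne_zero) |>.1 h
    have h10 : N 1 0 ≠ 0 := by
      intro h0
      rw [h0] at hdet
      nlinarith [sq_nonneg (N 0 0 - N 1 1)]
    rw [h9] at h6
    have h11 : (2 * N 1 0 * x 0) ^ 2 = 0 := by linear_combination h6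
    have h12 : x 0 = 0 := by
      have := pow_eq_zero_iff (two_ne_zero) |>.1 h11
      rcases mul_eq_zero.1 this with h | h
      · exact absurd h (mul_ne_zero two_ne_zero h10)
      · exact h
    rcases hx0 with h | h
    · exact h h12
    · exact h h9
  have hn0 : n 0 = 0 := by
    have : n 0 * D = 0 := by
      rw [hD]
      linear_combination (N 1 0 * x 0 + N 1 1 * x 1) * e2 - x 1 * e3
    exact (mul_eq_zero.1 this).resolve_right hD0
  have hn1 : n 1 = 0 := by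
    have : n 1 * D = 0 := by
      rw [hD]
      linear_combination x 0 * e3 - (N 0 0 * x 0 + N 0 1 * x 1) * e2
    exact (mul_eq_zero.1 this).resolve_right hD0
  ext j
  fin_cases j
  · exact hn0
  · exact hn1
  · exact hn2

/-- the cubic case -/
theorem cubic {Γ : Subgroup (Equiv.Perm V3)} {n : V3} {g g' : Equiv.Perm V3} (hg : g ∈ Γ)
    (hg' : g' ∈ Γ) {a b : V3} (hN : IsAff g (⟨⟨0, 0, 1⟩, ⟨1, 0, 0⟩, ⟨0, 1, 0⟩⟩ : IM).mat a)
    (hN' : IsAff g' (⟨⟨1, 0, 0⟩, ⟨0, -1, 0⟩, ⟨0, 0, -1⟩⟩ : IM).mat b) {x : V3} (hx : W Γ n x)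
    (hx0 : x ≠ 0) : n = 0 := by
  have hc : ∀ y, W Γ n y → W Γ n ![y 2, y 0, y 1] := by
    intro y hy
    have h1 := W_lin hy hg hN
    have h3 : (⟨⟨0, 0, 1⟩, ⟨1, 0, 0⟩, ⟨0, 1, 0⟩⟩ : IM).mat *ᵥ y = ![y 2, y 0, y 1] := by
      ext j
      fin_cases j <;> simp [IM.mat, Matrix.mulVec, dotProduct, Fin.sum_univ_three]
    rwa [h3] at h1
  have hh : ∀ y, W Γ n y → n 0 * y 0 = 0 := by
    intro y hy
    have h1 := W_lin hy hg' hN'
    have h3 : (⟨⟨1, 0, 0⟩, ⟨0, -1, 0⟩, ⟨0, 0, -1⟩⟩ : IM).mat *ᵥ y = ![y 0, -y 1, -y 2] := by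
      ext j
      fin_cases j <;> simp [IM.mat, Matrix.mulVec, dotProduct, Fin.sum_univ_three]
    rw [h3] at h1
    have e1 := W_dot h1
    have e2 := W_dot hy
    simp only [dotProduct, Fin.sum_univ_three, Matrix.cons_val_zero, Matrix.cons_val_one,
      Matrix.cons_val] at e1 e2
    linear_combination (e1 + e2) / 2
  have hd : ∀ y, W Γ n y → n 1 * y 0 = 0 ∧ n 2 * y 0 = 0 := by
    intro y hy
    have h1 := W_lin hy hg' hN'
    have h3 : (⟨⟨1, 0, 0⟩, ⟨0, -1, 0⟩, ⟨0, 0, -1⟩⟩ : IM).mat *ᵥ y = ![y 0, -y 1, -y 2] := by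
      ext j
      fin_cases j <;> simp [IM.mat, Matrix.mulVec, dotProduct, Fin.sum_univ_three]
    rw [h3] at h1
    have h4 : W Γ n ![2 * y 0, 0, 0] := by
      have h5 := W_add hy h1
      have h6 : y + ![y 0, -y 1, -y 2] = ![2 * y 0, 0, 0] := by
        ext j
        fin_cases j <;> simp
        ring
      rwa [h6] at h5
    have e1 := W_dot (hc _ h4)
    have e2 := W_dot (hc _ (hc _ h4))
    simp only [dotProduct, Fin.sum_univ_three, Matrix.cons_val_zero, Matrix.cons_val_one,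
      Matrix.cons_val] at e1 e2
    constructor
    · linear_combination e1 / 2
    · linear_combination e2 / 2
  have key : ∃ y, W Γ n y ∧ y 0 ≠ 0 := by
    by_contra hcon
    push Not at hcon
    apply hx0
    have h0 := hcon x hx
    have h2 := hcon _ (hc x hx)
    have h1 := hcon _ (hc _ (hc x hx))
    ext j
    fin_cases j
    · exact h0
    · exact h1
    · exact h2
  obtain ⟨y, hy, hy0⟩ := key
  ext j
  fin_cases j
  · exact (mul_eq_zero.1 (hh y hy)).resolve_right hy0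
  · exact (mul_eq_zero.1 (hd y hy).1).resolve_right hy0
  · exact (mul_eq_zero.1 (hd y hy).2).resolve_right hy0

/-- the orthogonal case -/
theorem ortho {Γ : Subgroup (Equiv.Perm V3)} {n : V3}
    (hd : ∀ i j : Fin 3, i ≠ j → ∃ d : V3, d i ≠ d j ∧ ∃ g ∈ Γ, ∃ a, IsAff g (diagonal d) a)
    {x : V3} (hx : W Γ n x) (hx0 : ∀ i, x i ≠ 0) : n = 0 := by
  have step : ∀ i j : Fin 3, i ≠ j → ∃ d : V3, d i ≠ d j ∧
      ∀ y, W Γ n y → W Γ n (fun l => (d l - d j) * y l) := by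
    intro i j hij
    obtain ⟨d, hd1, g, hg, a, hga⟩ := hd i j hij
    refine ⟨d, hd1, fun y hy => ?_⟩
    have h1 := W_add (W_lin hy hg hga) (W_smul (-(d j)) hy)
    have h2 : diagonal d *ᵥ y + -(d j) • y = fun l => (d l - d j) * y l := by
      ext l
      rw [Pi.add_apply, mulVec_diagonal, Pi.smul_apply, smul_eq_mul]
      ring
    rwa [h2] at h1
  have fin : ∀ i j l : Fin 3, i ≠ j → i ≠ l → (∀ f : Fin 3 → ℝ, ∑ t, f t = f i + f j + f l) →
      n i = 0 := by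
    intro i j l hij hil hsum
    obtain ⟨d, hd1, hd2⟩ := step i j hij
    obtain ⟨d', hd1', hd2'⟩ := step i l hil
    have h1 := W_dot (hd2' _ (hd2 _ hx))
    unfold dotProduct at h1
    rw [hsum] at h1
    simp only [sub_self, zero_mul, mul_zero, add_zero] at h1
    rcases mul_eq_zero.1 h1 with h | h
    · exact h
    · exfalso
      exact mul_ne_zero (sub_ne_zero.2 hd1') (mul_ne_zero (sub_ne_zero.2 hd1) (hx0 i)) h
  ext i
  fin_cases i
  · exact fin 0 1 2 (by decide) (by decide) (fun f => by rw [Fin.sum_univ_three])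
  · exact fin 1 0 2 (by decide) (by decide) (fun f => by rw [Fin.sum_univ_three]; ring)
  · exact fin 2 0 1 (by decide) (by decide) (fun f => by rw [Fin.sum_univ_three]; ring)

/-! ### Vertical lines -/

/-- `x` and `y` are on the same vertical line. -/
def Sim (x y : V3) : Prop := x 0 = y 0 ∧ x 1 = y 1

/-- The permutations that preserve the vertical lines. -/
def kGrp : Subgroup (Equiv.Perm V3) where
  carrier := {g | ∀ x y, Sim (g x) (g y) ↔ Sim x y}
  one_mem' := fun x y => Iff.rfl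
  mul_mem' := by
    intro g h hg hh x y
    rw [Equiv.Perm.mul_apply, Equiv.Perm.mul_apply, hg, hh]
  inv_mem' := by
    intro g hg x y
    rw [← hg]
    simp

theorem mem_kGrp {g : Equiv.Perm V3} : g ∈ kGrp ↔ ∀ x y, Sim (g x) (g y) ↔ Sim x y := Iff.rfl

theorem mem_kGrp_of_aff {g : Equiv.Perm V3} {M : M3} {a : V3} (h : IsAff g M a)
    (h02 : M 0 2 = 0) (h12 : M 1 2 = 0) (hdet : M 0 0 * M 1 1 - M 0 1 * M 1 0 ≠ 0) :
    g ∈ kGrp := by
  rw [mem_kGrp]
  intro x y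
  unfold Sim
  rw [h x, h y]
  simp only [Pi.add_apply, Matrix.mulVec, dotProduct, Fin.sum_univ_three, h02, h12, zero_mul,
    add_zero, add_left_inj]
  constructor
  · rintro ⟨h1, h2⟩
    constructor
    · apply mul_left_cancel₀ hdet
      linear_combination M 1 1 * h1 - M 0 1 * h2
    · apply mul_left_cancel₀ hdet
      linear_combination M 0 0 * h2 - M 1 0 * h1
  · rintro ⟨h1, h2⟩
    rw [h1, h2]
    exact ⟨rfl, rfl⟩

theorem sim_orbit {A B s : Equiv.Perm V3} (hk : grp A B s ≤ kGrp) (hA : A 0 = 0) (hB : B 0 = 0)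
    (hs : Sim (s 0) 0) {g : Equiv.Perm V3} (hg : g ∈ grp A B s) : Sim (g 0) 0 := by
  have main : ∀ g ∈ grp A B s, g ∈ grp A B s ∧ Sim (g 0) 0 := by
    intro g hg
    unfold grp at hg
    induction hg using Subgroup.closure_induction with
    | mem x hx =>
      refine ⟨Subgroup.subset_closure hx, ?_⟩
      rcases hx with rfl | rfl | hx
      · rw [hA]; exact ⟨rfl, rfl⟩
      · rw [hB]; exact ⟨rfl, rfl⟩
      · rw [Set.mem_singleton_iff.1 hx]; exact hs
    | one => exact ⟨one_mem _, rfl, rfl⟩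
    | mul x y _ _ hx hy =>
      refine ⟨mul_mem hx.1 hy.1, ?_⟩
      have h1 := (hk hx.1 (y 0) 0).2 hy.2
      exact ⟨h1.1.trans hx.2.1, h1.2.trans hx.2.2⟩
    | inv x _ hx =>
      refine ⟨inv_mem hx.1, ?_⟩
      have h1 := (hk hx.1 (x⁻¹ 0) 0)
      rw [← h1]
      have h2 : x (x⁻¹ 0) = 0 := Equiv.apply_symm_apply x 0
      rw [h2]
      exact ⟨hx.2.1.symm, hx.2.2.symm⟩
  exact (main g hg).2

/-- if the group preserves the vertical lines and the vertices are not coplanar, then `s 0` is not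
on the vertical line through `0` -/
theorem planar_of_spans {A B s : Equiv.Perm V3} (hk : grp A B s ≤ kGrp) (hA : A 0 = 0)
    (hB : B 0 = 0) {c : Cls} (h : Spans (cfg c A B s 0).V) : s 0 0 ≠ 0 ∨ s 0 1 ≠ 0 := by
  by_contra hcon
  push Not at hcon
  obtain ⟨x, ⟨g, hg, rfl⟩, hne⟩ := h ![1, 0, 0] (by
    intro h
    have := congrFun h 0
    simp at this)
  apply hne
  have h1 := sim_orbit hk hA hB ⟨hcon.1, hcon.2⟩ hg
  simp [dotProduct, Fin.sum_univ_three, h1.1]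

/-! ### Checks of the table -/

/-- The determinant. -/
def idet (M : IM) : ℤ :=
  M.a.dot ⟨M.b.y * M.c.z - M.b.z * M.c.y, M.b.z * M.c.x - M.b.x * M.c.z,
    M.b.x * M.c.y - M.b.y * M.c.x⟩

theorem det_mat (M : IM) : M.mat.det = (idet M : ℝ) := by
  obtain ⟨⟨a, b, c⟩, ⟨d, e, f⟩, ⟨g, h, i⟩⟩ := M
  rw [det_fin_three]
  simp [IM.mat, idet, IV.dot]
  ring

theorem exists_perm (M : IM) (h : idet M ≠ 0) : ∃ g : Equiv.Perm V3, IsAff g M.mat 0 := by
  have h1 : IsUnit M.mat.det := by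
    rw [det_mat, isUnit_iff_ne_zero]
    exact_mod_cast h
  exact ⟨rfPerm _ _ (nonsing_inv_mul _ h1), rf_perm _ _ _⟩

theorem table_det : (table.all fun b => (b.S :: b.gens).all fun M => decide (idet M ≠ 0)) =
    true := by decide +kernel

/-- The words of the cyclic permutation of the coordinates and of the half turn. -/
def cubWords : List (List ℕ × List ℕ) :=
  [([1, 1], [1, 1, 0, 1]), ([1, 1, 0], [1, 1, 1, 1, 1, 0, 1]),
   ([1, 1, 0, 1, 0, 1], [1, 0, 1, 1, 0, 1]), ([0, 1, 1, 0, 1], [1, 0, 1, 1, 0, 1]),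
   ([1, 1], [1, 0, 1, 0, 1]), ([1, 0, 1, 0, 1, 1], [1, 1]), ([1, 1], [1, 0, 1, 0]),
   ([0, 1, 0, 1, 0, 0], [1, 0, 0, 1, 0]), ([0, 1, 0, 1, 0], [1, 1]),
   ([1, 0, 0, 1], [0, 1, 0, 0, 1, 0]), ([1, 0, 1], [1]), ([0, 0, 1, 0, 0, 0], [1, 0, 0, 1, 0, 0]),
   ([0, 1, 0, 1], [1, 1]), ([1, 2, 1, 2], [2, 1, 0, 2, 1, 0]), ([2, 0], [2, 2]), ([2, 0], [2, 2]),
   ([0, 1, 0, 0, 0, 1], [1, 0, 0, 1, 0, 0]), ([1, 1, 1, 0], [1, 1]), ([2, 0], [2, 1, 0, 2, 1, 0]),
   ([1, 2, 0, 2], [2, 2]), ([2, 2], [0]), ([2, 1, 2], [0]), ([2, 2], [0]),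
   ([2, 2], [2, 2, 0, 2, 0]), ([1, 0, 2, 1, 0, 2], [2, 0, 2, 0]), ([1, 2, 0], [1, 2, 0, 2, 1, 0]),
   ([1, 0, 1, 0, 0, 0], [0, 1, 0, 0]), ([1, 0, 1, 0, 0, 0, 0, 0], [0, 1, 0, 0, 1, 0]),
   ([2, 0, 2, 1], [2, 1, 0, 2, 0, 1]), ([2, 0], [2, 2]), ([2, 0, 2, 1], [2, 0, 2, 0]),
   ([2, 1], [2, 0]), ([1, 2, 0, 1, 2], [0]), ([2, 1], [0]), ([2, 1], [0]),
   ([1, 2, 1, 2, 0], [0]), ([1, 2, 0], [2, 0, 2, 0]), ([1, 2], [2, 0, 2, 0]),
   ([1, 0, 2], [2, 0, 2, 0])]

theorem cub_len : cubBlocks.length = cubWords.length := by decide +kernel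

theorem cub_words : ((cubBlocks.zip cubWords).all fun x =>
    decide (word (x.1.gens ++ [x.1.S]) x.2.1 = ⟨⟨0, 0, 1⟩, ⟨1, 0, 0⟩, ⟨0, 1, 0⟩⟩) &&
    decide (word (x.1.gens ++ [x.1.S]) x.2.2 = ⟨⟨1, 0, 0⟩, ⟨0, -1, 0⟩, ⟨0, 0, -1⟩⟩)) = true := by
  decide +kernel

theorem cub_word {b : Block} (hb : b ∈ cubBlocks) : ∃ u v,
    word (b.gens ++ [b.S]) u = ⟨⟨0, 0, 1⟩, ⟨1, 0, 0⟩, ⟨0, 1, 0⟩⟩ ∧
    word (b.gens ++ [b.S]) v = ⟨⟨1, 0, 0⟩, ⟨0, -1, 0⟩, ⟨0, 0, -1⟩⟩ := by
  obtain ⟨i, hi, rfl⟩ := List.mem_iff_getElem.1 hb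
  have hi' : i < cubWords.length := by rw [← cub_len]; exact hi
  have h1 : (cubBlocks[i], cubWords[i]) ∈ cubBlocks.zip cubWords := by
    rw [List.mem_iff_getElem]
    exact ⟨i, by rw [List.length_zip]; omega, List.getElem_zip⟩
  have h2 := List.all_eq_true.1 cub_words _ h1
  simp only [Bool.and_eq_true, decide_eq_true_eq] at h2
  exact ⟨_, _, h2.1, h2.2⟩

/-- Checks of an axial block. -/
def axOK (b : Block) : Bool :=
  (b.S :: b.gens).all (fun M => decide (M.a.z = 0) && decide (M.b.z = 0) && decide (M.c.x = 0) &&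
    decide (M.c.y = 0) && decide (M.a.x * M.b.y - M.a.y * M.b.x ≠ 0)) &&
  b.fams.all (fun f => decide (f.den ≠ 0) && decide (f.v.z ≠ 0) && decide (f.T1.z = 0) &&
    decide (f.T2.z = 0) && decide (f.T3.z = 0) && decide (f.K1.z = 0) && decide (f.K2.z = 0)) &&
  [[0], [1], [2], [1, 0], [2, 0], [2, 1]].any (fun u =>
    let N := word (b.gens ++ [b.S]) u
    decide (N.a.z = 0) && decide (N.b.z = 0) && decide (N.c.x = 0) &&
    decide (N.c.y = 0) && decide (N.a.x * N.b.y - N.a.y * N.b.x = 1) &&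
    decide (-1 ≤ N.a.x + N.b.y) && decide (N.a.x + N.b.y ≤ 1) && decide (N.c.z * N.c.z = 1))

theorem ax_chk : ((tetBlocks ++ hexBlocks).all axOK) = true := by decide +kernel

/-- Checks of an orthogonal block. -/
def ortOK (b : Block) : Bool :=
  (b.S :: b.gens).all (fun M => decide (M.a.y = 0) && decide (M.a.z = 0) && decide (M.b.x = 0) &&
    decide (M.b.z = 0) && decide (M.c.x = 0) && decide (M.c.y = 0)) &&
  b.fams.all (fun f => decide (f.den = 1) && decide (f.v = ⟨1, 1, 1⟩) &&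
    decide (f.T1 = ⟨0, 0, 0⟩) && decide (f.T2 = ⟨0, 0, 0⟩) && decide (f.T3 = ⟨0, 0, 0⟩) &&
    decide (f.K1 = ⟨0, 0, 0⟩) && decide (f.K2 = ⟨0, 0, 0⟩)) &&
  (b.S :: b.gens).any (fun M => decide (M.a.x ≠ M.b.y)) &&
  (b.S :: b.gens).any (fun M => decide (M.a.x ≠ M.c.z)) &&
  (b.S :: b.gens).any (fun M => decide (M.b.y ≠ M.c.z))

theorem ort_chk' : (ortBlocks.all ortOK) = true := by decide +kernel

theorem kinds : (cubBlocks.all fun b => decide (b.kind = .cub)) &&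
    (tetBlocks.all fun b => decide (b.kind = .tet)) &&
    (hexBlocks.all fun b => decide (b.kind = .hex)) &&
    (ortBlocks.all fun b => decide (b.kind = .ort)) = true := by decide +kernel

/-! ### The group -/

theorem linGrp_fix {l : List IM} {g : Equiv.Perm V3} (hg : g ∈ linGrp l) : g 0 = 0 := by
  unfold linGrp at hg
  induction hg using Subgroup.closure_induction with
  | mem x hx =>
    obtain ⟨M, -, hM⟩ := hx
    rw [hM, mulVec_zero, zero_add]
  | one => rfl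
  | mul x y _ _ hx hy => rw [Equiv.Perm.mul_apply, hy, hx]
  | inv x _ hx => rw [Equiv.Perm.inv_eq_iff_eq, hx]

theorem le_kGrp {l : List IM} {t : Equiv.Perm V3} (hl : ∀ M ∈ l, M.a.z = 0 ∧ M.b.z = 0 ∧
    M.a.x * M.b.y - M.a.y * M.b.x ≠ 0) (ht : t ∈ kGrp) :
    linGrp l ⊔ Subgroup.zpowers t ≤ kGrp := by
  refine sup_le ?_ ?_
  · unfold linGrp
    rw [Subgroup.closure_le]
    rintro g ⟨M, hM, hg⟩
    obtain ⟨h1, h2, h3⟩ := hl M hM
    refine mem_kGrp_of_aff hg ?_ ?_ ?_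
    · simp [IM.mat, h1]
    · simp [IM.mat, h2]
    · have : ((M.a.x * M.b.y - M.a.y * M.b.x : ℤ) : ℝ) ≠ 0 := by exact_mod_cast h3
      simpa [IM.mat] using this
  · rw [Subgroup.zpowers_le]
    exact ht

theorem gens_real {b : Block} (hb : b ∈ table) {A B s t : Equiv.Perm V3} {w : V3}
    (hg : grp A B s = linGrp b.gens ⊔ Subgroup.zpowers t) (ht : IsAff t b.S.mat w) :
    ∀ M ∈ b.gens ++ [b.S], ∃ g ∈ grp A B s, ∃ a, IsAff g M.mat a := by
  intro M hM
  have h1 := List.all_eq_true.1 (List.all_eq_true.1 table_det b hb)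
  rcases List.mem_append.1 hM with h | h
  · have h2 := h1 M (List.mem_cons_of_mem _ h)
    rw [decide_eq_true_eq] at h2
    obtain ⟨g, hgM⟩ := exists_perm M h2
    refine ⟨g, ?_, 0, hgM⟩
    rw [hg]
    exact Subgroup.mem_sup_left (Subgroup.subset_closure ⟨M, h, hgM⟩)
  · rw [List.mem_singleton] at h
    subst h
    refine ⟨t, ?_, w, ht⟩
    rw [hg]
    exact Subgroup.mem_sup_right (Subgroup.mem_zpowers t)

/-- to show that the vertices are not coplanar -/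
theorem spans_of {c : Cls} {A B s : Equiv.Perm V3}
    (h : ∀ n : V3, (∀ g ∈ grp A B s, W (grp A B s) n (g 0)) → n = 0) :
    Spans (cfg c A B s 0).V := by
  intro n hn
  by_contra hcon
  push Not at hcon
  apply hn
  apply h n
  intro g hg
  exact W_orbit (fun g hg => hcon _ ⟨g, hg, rfl⟩) hg

theorem s_mem (A B s : Equiv.Perm V3) : s ∈ grp A B s :=
  Subgroup.subset_closure (Or.inr (Or.inr rfl))

theorem t_mem {A B s t : Equiv.Perm V3} {l : List IM}
    (hg : grp A B s = linGrp l ⊔ Subgroup.zpowers t) : t ∈ grp A B s := by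
  rw [hg]
  exact Subgroup.mem_sup_right (Subgroup.mem_zpowers t)

theorem t_zero {t : Equiv.Perm V3} {M : M3} {w : V3} (ht : IsAff t M w) : t 0 = w := by
  rw [ht, mulVec_zero, zero_add]

theorem ax_spans {b : Block} (hb : b ∈ table) (hok : axOK b = true) {A B s t : Equiv.Perm V3}
    {f : Fam} (hf : f ∈ b.fams) {n : IV} {x y : ℝ} (ht : IsAff t b.S.mat (f.pt n x y))
    (hg : grp A B s = linGrp b.gens ⊔ Subgroup.zpowers t)
    (hs : s 0 0 ≠ 0 ∨ s 0 1 ≠ 0) (c : Cls) : Spans (cfg c A B s 0).V := by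
  apply spans_of
  intro m hm
  simp only [axOK, Bool.and_eq_true, decide_eq_true_eq, List.all_eq_true, List.any_eq_true]
    at hok
  obtain ⟨⟨-, h2⟩, u, -, h3⟩ := hok
  obtain ⟨⟨⟨⟨⟨⟨f1, f2⟩, f3⟩, f4⟩, f5⟩, f6⟩, f7⟩ := h2 f hf
  obtain ⟨⟨⟨⟨⟨⟨⟨u1, u2⟩, u3⟩, u4⟩, u5⟩, u6⟩, u7⟩, u8⟩ := h3
  obtain ⟨g, hgm, a, hga⟩ := word_real (gens_real hb hg ht) u
  set N := word (b.gens ++ [b.S]) u
  refine axial hgm hga ?_ ?_ ?_ ?_ ?_ ?_ ?_ (hm t (t_mem hg)) (hm s (s_mem A B s)) ?_ hs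
  · simp [IM.mat, u1]
  · simp [IM.mat, u2]
  · simp [IM.mat, u3]
  · simp [IM.mat, u4]
  · have : ((N.a.x * N.b.y - N.a.y * N.b.x : ℤ) : ℝ) = 1 := by exact_mod_cast u5
    simpa [IM.mat] using this
  · have h6 : (-1 : ℝ) ≤ (N.a.x : ℝ) + N.b.y := by exact_mod_cast u6
    have h7 : (N.a.x : ℝ) + N.b.y ≤ 1 := by exact_mod_cast u7
    simp only [IM.mat, Matrix.of_apply, Matrix.cons_val_zero, Matrix.cons_val_one]
    nlinarith
  · have : ((N.c.z * N.c.z : ℤ) : ℝ) = 1 := by exact_mod_cast u8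
    simp only [IM.mat, Matrix.of_apply, Matrix.cons_val]
    push_cast at this
    rw [sq]
    exact this
  · rw [t_zero ht]
    have f1' : (f.den : ℝ) ≠ 0 := by exact_mod_cast f1
    have f2' : (f.v.z : ℝ) ≠ 0 := by exact_mod_cast f2
    simp [Fam.pt, IV.vec, f3, f4, f5, f6, f7, f1', f2']

theorem ort_spans {b : Block} (hb : b ∈ table) (hok : ortOK b = true) {A B s t : Equiv.Perm V3}
    {f : Fam} (hf : f ∈ b.fams) {n : IV} {x y : ℝ} (ht : IsAff t b.S.mat (f.pt n x y))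
    (hg : grp A B s = linGrp b.gens ⊔ Subgroup.zpowers t) (c : Cls) :
    Spans (cfg c A B s 0).V := by
  apply spans_of
  intro m hm
  simp only [ortOK, Bool.and_eq_true, decide_eq_true_eq, List.all_eq_true, List.any_eq_true]
    at hok
  obtain ⟨⟨⟨⟨h1, h2⟩, M₁, hM₁, h3⟩, M₂, hM₂, h4⟩, M₃, hM₃, h5⟩ := hok
  obtain ⟨⟨⟨⟨⟨⟨f1, f2⟩, f3⟩, f4⟩, f5⟩, f6⟩, f7⟩ := h2 f hf
  have hreal := gens_real hb hg ht
  have hdiag : ∀ M ∈ b.S :: b.gens, ∃ g ∈ grp A B s, ∃ a,
      IsAff g (diagonal ![(M.a.x : ℝ), (M.b.y : ℝ), (M.c.z : ℝ)]) a := by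
    intro M hM
    obtain ⟨g, hg, a, hga⟩ := hreal M (by
      rcases List.mem_cons.1 hM with h | h
      · rw [h]; simp
      · exact List.mem_append_left _ h)
    refine ⟨g, hg, a, ?_⟩
    obtain ⟨⟨⟨⟨⟨e1, e2⟩, e3⟩, e4⟩, e5⟩, e6⟩ := h1 M hM
    have h7 : M.mat = diagonal ![(M.a.x : ℝ), (M.b.y : ℝ), (M.c.z : ℝ)] := by
      ext i j
      fin_cases i <;> fin_cases j <;> simp [IM.mat, e1, e2, e3, e4, e5, e6]
    rw [← h7]
    exact hga
  have c01 : (M₁.a.x : ℝ) ≠ M₁.b.y := by exact_mod_cast h3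
  have c02 : (M₂.a.x : ℝ) ≠ M₂.c.z := by exact_mod_cast h4
  have c12 : (M₃.b.y : ℝ) ≠ M₃.c.z := by exact_mod_cast h5
  refine ortho ?_ (hm t (t_mem hg)) ?_
  · intro i j hij
    fin_cases i <;> fin_cases j
    · exact absurd rfl hij
    · exact ⟨_, c01, hdiag M₁ hM₁⟩
    · exact ⟨_, c02, hdiag M₂ hM₂⟩
    · exact ⟨_, c01.symm, hdiag M₁ hM₁⟩
    · exact absurd rfl hij
    · exact ⟨_, c12, hdiag M₃ hM₃⟩
    · exact ⟨_, c02.symm, hdiag M₂ hM₂⟩
    · exact ⟨_, c12.symm, hdiag M₃ hM₃⟩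
    · exact absurd rfl hij
  · intro i
    rw [t_zero ht]
    fin_cases i <;> simp [Fam.pt, IV.vec, f1, f2, f3, f4, f5, f6, f7]

theorem cub_spans {b : Block} (hb : b ∈ table) (hb' : b ∈ cubBlocks) {A B s t : Equiv.Perm V3}
    {w : V3} (ht : IsAff t b.S.mat w)
    (hg : grp A B s = linGrp b.gens ⊔ Subgroup.zpowers t) (hs : s 0 ≠ 0) (c : Cls) :
    Spans (cfg c A B s 0).V := by
  apply spans_of
  intro m hm
  obtain ⟨u, v, hu, hv⟩ := cub_word hb'
  obtain ⟨g, hgm, a, hga⟩ := word_real (gens_real hb hg ht) u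
  obtain ⟨g', hgm', a', hga'⟩ := word_real (gens_real hb hg ht) v
  rw [hu] at hga
  rw [hv] at hga'
  exact cubic hgm hgm' hga hga' (hm s (s_mem A B s)) hs

theorem rod_gens (r : Rod) : ∀ M ∈ r.gens, M.a.z = 0 ∧ M.b.z = 0 ∧
    M.a.x * M.b.y - M.a.y * M.b.x ≠ 0 := by
  cases r <;> simp [Rod.gens]

theorem rod_sgn (r : Rod) : r.sgn ^ 2 = 1 := by
  cases r <;> simp [Rod.sgn]

theorem kind_of {b : Block} (hb : b ∈ table) : (b.kind = .cub ∧ b ∈ cubBlocks) ∨
    ((b.kind = .tet ∨ b.kind = .hex) ∧ axOK b = true) ∨ (b.kind = .ort ∧ ortOK b = true) := by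
  have hk := kinds
  simp only [Bool.and_eq_true, List.all_eq_true, decide_eq_true_eq] at hk
  obtain ⟨⟨⟨k1, k2⟩, k3⟩, k4⟩ := hk
  have hax := List.all_eq_true.1 ax_chk
  have hort := List.all_eq_true.1 ort_chk'
  unfold table at hb
  rw [List.mem_append, List.mem_append, List.mem_append] at hb
  rcases hb with ((h | h) | h) | h
  · exact Or.inl ⟨k1 b h, h⟩
  · exact Or.inr (Or.inl ⟨Or.inl (k2 b h), hax b (List.mem_append_left _ h)⟩)
  · exact Or.inr (Or.inl ⟨Or.inr (k3 b h), hax b (List.mem_append_right _ h)⟩)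
  · exact Or.inr (Or.inr ⟨k4 b h, hort b h⟩)

end SpansIff

open SpansIff

/-- When the vertices are not coplanar. -/
theorem spans_iff {k : Kind} {A B s : Equiv.Perm V3} (h : Listed k A B s) (hs : s 0 ≠ 0) (c : Cls) :
    Spans (cfg c A B s 0).V ↔ (k = .tet ∨ k = .hex → s 0 0 ≠ 0 ∨ s 0 1 ≠ 0) := by
  rcases h with ⟨b, hb, rfl, hst, f, hf, n, x, y, -, t, ht, hl⟩ |
    ⟨rfl, r, hst, θ, -, hsin, t, ht, hl⟩
  · have hg := grp_link hst hl
    have hA : A 0 = 0 := by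
      apply linGrp_fix (l := b.gens)
      rw [← hst]
      exact Subgroup.subset_closure (Or.inl rfl)
    have hB : B 0 = 0 := by
      apply linGrp_fix (l := b.gens)
      rw [← hst]
      exact Subgroup.subset_closure (Or.inr rfl)
    rcases kind_of hb with ⟨hk, hc⟩ | ⟨hk, hok⟩ | ⟨hk, hok⟩
    · rw [hk]
      exact ⟨fun _ h => by rcases h with h | h <;> exact absurd h (by decide),
        fun _ => cub_spans hb hc ht hg hs c⟩
    · constructor
      · intro hsp _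
        refine planar_of_spans ?_ hA hB hsp
        rw [hg]
        have hok' := hok
        simp only [axOK, Bool.and_eq_true, decide_eq_true_eq, List.all_eq_true,
          List.any_eq_true] at hok'
        have h1 := hok'.1.1
        apply le_kGrp
        · intro M hM
          obtain ⟨⟨⟨⟨e1, e2⟩, e3⟩, e4⟩, e5⟩ := h1 M (List.mem_cons_of_mem _ hM)
          exact ⟨e1, e2, e5⟩
        · obtain ⟨⟨⟨⟨e1, e2⟩, e3⟩, e4⟩, e5⟩ := h1 b.S List.mem_cons_self
          refine mem_kGrp_of_aff ht ?_ ?_ ?_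
          · simp [IM.mat, e1]
          · simp [IM.mat, e2]
          · have : ((b.S.a.x * b.S.b.y - b.S.a.y * b.S.b.x : ℤ) : ℝ) ≠ 0 := by
              exact_mod_cast e5
            simpa [IM.mat] using this
      · intro h
        exact ax_spans hb hok hf ht hg (h hk) c
    · rw [hk]
      exact ⟨fun _ h => by rcases h with h | h <;> exact absurd h (by decide),
        fun _ => ort_spans hb hok hf ht hg c⟩
  · have hg := grp_link hst hl
    have hA : A 0 = 0 := by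
      apply linGrp_fix (l := r.gens)
      rw [← hst]
      exact Subgroup.subset_closure (Or.inl rfl)
    have hB : B 0 = 0 := by
      apply linGrp_fix (l := r.gens)
      rw [← hst]
      exact Subgroup.subset_closure (Or.inr rfl)
    have hcs := Real.cos_sq_add_sin_sq θ
    constructor
    · intro hsp _
      refine planar_of_spans ?_ hA hB hsp
      rw [hg]
      apply le_kGrp (rod_gens r)
      refine mem_kGrp_of_aff ht ?_ ?_ ?_
      · simp [rodMat]
      · simp [rodMat]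
      · have : rodMat θ r.sgn 0 0 * rodMat θ r.sgn 1 1 - rodMat θ r.sgn 0 1 * rodMat θ r.sgn 1 0 =
            1 := by
          simp [rodMat]
          linear_combination hcs
        rw [this]
        exact one_ne_zero
    · intro h
      have hpl := h (Or.inl rfl)
      apply spans_of
      intro m hm
      refine axial (t_mem hg) ht ?_ ?_ ?_ ?_ ?_ ?_ ?_ (hm t (t_mem hg)) (hm s (s_mem A B s)) ?_ hpl
      · simp [rodMat]
      · simp [rodMat]
      · simp [rodMat]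
      · simp [rodMat]
      · simp [rodMat]
        linear_combination hcs
      · have h1 : 0 < Real.sin θ ^ 2 := by positivity
        simp [rodMat]
        nlinarith
      · simp [rodMat, rod_sgn]
      · rw [t_zero ht]
        simp

end Pool.Agent.H21.FT
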