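import Pool.Agent.H21.FT.FwdDefs
import Pool.Agent.H21.FT.Canon
import Pool.Agent.H21.FT.Conv

/-!
# Base flags of a configuration given by generators
-/

namespace Pool.Agent.H21.FT

open Pool.Agent.H38.FT (Cfg)

variable {X : Type*}

namespace GoodCase

variable {A B s : Equiv.Perm X} {o : X}

theorem canon_o (c : Cls) : (canon c A B s o).o = o := by cases c <;> rfl

theorem canon_w (c : Cls) : (canon c A B s o).w = s o := by cases c <;> rfl

theorem base {Γ : Subgroup (Equiv.Perm X)} {β : Base X} (h : Sys Γ β) :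
    IsBase (flagCfg Γ β) β := by
  have hcor : ∀ i j, Corner (faceOf Γ β (β.fl i j)) (β.fl i j) := fun i j =>
    ⟨(FlagPoly.flag_ne h (FlagPoly.fl_mem i j)).2.2, FlagPoly.mem_faceOf _,
      FlagPoly.mem_faceOf' (FlagPoly.fl_mem i j)⟩
  have hf : ∀ j, faceOf Γ β (β.fl true j) = faceOf Γ β (β.fl false j) := fun j =>
    FlagPoly.face_false h Γ.one_mem true false j
  have h10 := hcor true false
  have h11 := hcor true true
  rw [hf] at h10 h11
  exact ⟨_, ⟨_, FlagPoly.fl_mem false false, rfl⟩, _, ⟨_, FlagPoly.fl_mem false true, rfl⟩,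
    FlagPoly.faces_ne h Γ.one_mem, hcor false false, h10, hcor false true, h11⟩

theorem case {c : Cls} (hA : A o = o) (hB : B o = o) (hr : Rel c A B s o) :
    Case (canon c A B s o) c A B s := by
  cases c with
  | reg =>
    obtain ⟨h1, -, h3, h4⟩ := canon_reg_id hA hB hr
    exact ⟨h1, h4.symm, h3⟩
  | c2 =>
    obtain ⟨-, h2, h3, -⟩ := canon_c2_id hA hr
    exact ⟨hr.1, h2, h3.symm⟩
  | c20 =>
    obtain ⟨h1, -, h3, -⟩ := canon_c20_id hA hr
    exact ⟨hr.1, h1, h3.symm⟩
  | c21 =>
    obtain ⟨-, h2, h3, h4⟩ := canon_c21_id hA hB hr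
    exact ⟨h2, h3.symm, h4.symm⟩
  | c22 =>
    obtain ⟨h1, -, h3, -⟩ := canon_c22_id hA hr
    refine ⟨hr.2.2, h1, ?_⟩
    rw [h3, act_act_inv]
  | c4a =>
    obtain ⟨h1, -, -, h4⟩ := canon_c4a_id (B := B) (s := s) hA
    refine ⟨hr, ?_, h4.symm⟩
    rw [h1, act_act_inv]
  | c4b =>
    obtain ⟨h1, -, h3, h4⟩ := canon_c4b_id hA hB hr
    exact ⟨h1.symm, h3.symm, h4.symm⟩

theorem swap_apply {c : Cls} {g : Equiv.Perm X} {i j : Bool}
    (he : act g ((canon c A B s o).fl false i) = (canon c A B s o).fl true j) :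
    g o = s o ∧ g (s o) = o := by
  have h1 : g (canon c A B s o).o = (canon c A B s o).w := by
    have := congrArg Prod.fst he
    cases i <;> cases j <;> exact this
  have h2 : g (canon c A B s o).w = (canon c A B s o).o := by
    have := congrArg (fun t : X × X × X => t.2.1) he
    cases i <;> cases j <;> exact this
  rw [canon_o, canon_w] at h1 h2
  exact ⟨h1, h2⟩

section
variable {c : Cls} (h : Good c A B s o)
include h

/-- An element that fixes the vertices of the base edge. -/
theorem mem_stab {g : Equiv.Perm X} (hg : g ∈ grp A B s) {i j : Bool}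
    (he : act g ((canon c A B s o).fl false i) = (canon c A B s o).fl false j) :
    g ∈ stab A B ∧ g (s o) = s o := by
  have h1 : g (canon c A B s o).o = (canon c A B s o).o := by
    have := congrArg Prod.fst he
    cases i <;> cases j <;> exact this
  have h2 : g (canon c A B s o).w = (canon c A B s o).w := by
    have := congrArg (fun t : X × X × X => t.2.1) he
    cases i <;> cases j <;> exact this
  rw [canon_o] at h1
  rw [canon_w] at h2
  exact ⟨h.stab g hg h1, h2⟩

theorem not_ff_ft (hfree : Free A B s o) {g : Equiv.Perm X} (hg : g ∈ grp A B s) :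
    act g ((canon c A B s o).fl false false) ≠ (canon c A B s o).fl false true := by
  intro he
  obtain ⟨h1, h2⟩ := mem_stab h hg he
  rw [hfree g h1 h2, act_one] at he
  have := (FlagPoly.fl_inj (canon_sys h).1 he).2
  exact Bool.false_ne_true this

theorem not_swap_apart (hap : Apart A B s o) {g : Equiv.Perm X} (hg : g ∈ grp A B s) (j : Bool) :
    act g ((canon c A B s o).fl false false) ≠ (canon c A B s o).fl true j := by
  intro he
  obtain ⟨h1, h2⟩ := swap_apply he
  have h3 : (s⁻¹ * g) o = o := by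
    rw [Equiv.Perm.mul_apply, h1]
    exact Equiv.symm_apply_apply s o
  have h4 : s⁻¹ * g ∈ stab A B := h.stab _ (mul_mem (inv_mem s_mem_grp) hg) h3
  apply hap _ h4
  rw [Equiv.Perm.mul_apply, h2]

theorem eq_s_of_swap (hfree : Free A B s o) (hss : s * s = 1) {g : Equiv.Perm X}
    (hg : g ∈ grp A B s) {j : Bool}
    (he : act g ((canon c A B s o).fl false false) = (canon c A B s o).fl true j) : g = s := by
  obtain ⟨h1, h2⟩ := swap_apply he
  have hss' := apply_apply_of_mul_self hss
  have h3 : (s * g) o = o := by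
    rw [Equiv.Perm.mul_apply, h1, hss']
  have h4 : s * g ∈ stab A B := h.stab _ (mul_mem s_mem_grp hg) h3
  have h5 : s * g = 1 := by
    apply hfree _ h4
    rw [Equiv.Perm.mul_apply, h2]
  calc g = s * s * g := by rw [hss, one_mul]
    _ = s * (s * g) := mul_assoc _ _ _
    _ = s := by rw [h5, mul_one]

theorem not_swap_free (hfree : Free A B s o) (hss : s * s = 1) {j : Bool}
    (hs : act s ((canon c A B s o).fl false false) = (canon c A B s o).fl true j)
    {g : Equiv.Perm X} (hg : g ∈ grp A B s) {j' : Bool} (hj : j' ≠ j) :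
    act g ((canon c A B s o).fl false false) ≠ (canon c A B s o).fl true j' := by
  intro he
  rw [eq_s_of_swap h hfree hss hg he, hs] at he
  exact hj (FlagPoly.fl_inj (canon_sys h).1 he).2.symm

theorem noMore : NoMore (grp A B s) (canon c A B s o) c := by
  have hn := h.nondeg
  have hr := h.rel
  have hA := h.hA
  have hB := h.hB
  cases c with
  | reg => trivial
  | c2 =>
    obtain ⟨-, h2, -, -⟩ := canon_c2_id hA hr
    exact ⟨fun g hg => not_ff_ft h hn.2.1 hg,
      fun g hg => not_swap_free h hn.2.1 hr.2 h2 hg (by simp)⟩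
  | c20 =>
    obtain ⟨h1, -, -, -⟩ := canon_c20_id hA hr
    exact ⟨fun g hg => not_ff_ft h hn.2.1 hg,
      fun g hg => not_swap_free h hn.2.1 hr.2 h1 hg (by simp)⟩
  | c21 =>
    obtain ⟨-, h2, -, -⟩ := canon_c21_id hA hB hr
    exact ⟨fun g hg => not_ff_ft h hn.2.1 hg,
      fun g hg => not_swap_free h hn.2.1 hr.2.2 h2 hg (by simp)⟩
  | c22 =>
    exact ⟨fun g hg => not_swap_apart h hn.2.2.2 hg false,
      fun g hg => not_swap_apart h hn.2.2.2 hg true⟩
  | c4a =>
    exact ⟨fun g hg => not_ff_ft h hn.2.1 hg, fun g hg => not_swap_apart h hn.2.2.2 hg false,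
      fun g hg => not_swap_apart h hn.2.2.2 hg true⟩
  | c4b =>
    exact ⟨fun g hg => not_ff_ft h hn.2.1 hg, fun g hg => not_swap_apart h hn.2.2.2.2 hg false,
      fun g hg => not_swap_apart h hn.2.2.2.2 hg true⟩

/-- Only the identity fixes the base flags. -/
theorem eq_one {g : Equiv.Perm X} (hg : g ∈ grp A B s)
    (he : act g ((canon c A B s o).fl false false) = (canon c A B s o).fl false false) :
    g = 1 := by
  obtain ⟨h1, h2⟩ := mem_stab h hg he
  have hS := (canon_sys h).1
  have hn := h.nondeg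
  have hr := h.rel
  have hA := h.hA
  have hB := h.hB
  cases c with
  | reg =>
    obtain ⟨-, -, h3, -⟩ := canon_reg_id hA hB hr
    rcases hn.2.1 g h1 h2 with h4 | h4
    · exact h4
    · rw [h4, h3] at he
      exact absurd (FlagPoly.fl_inj hS he).2 (by simp)
  | c2 => exact hn.2.1 g h1 h2
  | c20 => exact hn.2.1 g h1 h2
  | c21 => exact hn.2.1 g h1 h2
  | c22 =>
    obtain ⟨h3, -, -, -⟩ := canon_c22_id hA hr
    rcases hn.2.1 g h1 h2 with h4 | h4
    · exact h4
    · rw [h4, h3] at he
      exact absurd (FlagPoly.fl_inj hS he).2 (by simp)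
  | c4a => exact hn.2.1 g h1 h2
  | c4b => exact hn.2.1 g h1 h2

end

end GoodCase

theorem good_case {c : Cls} {A B s : Equiv.Perm X} {o : X} (h : Good c A B s o) :
    IsBase (cfg c A B s o) (canon c A B s o) ∧ Case (canon c A B s o) c A B s ∧
      NoMore (grp A B s) (canon c A B s o) c := by
  obtain ⟨hS, hC⟩ := canon_sys h
  refine ⟨?_, GoodCase.case h.hA h.hB h.rel, GoodCase.noMore h⟩
  rw [← flagCfg_canon h.hA h.hB h.rel hC]
  exact GoodCase.base hS

theorem good_semireg {c : Cls} {A B s : Equiv.Perm X} {o : X} (h : Good c A B s o) :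
    Semireg (grp A B s) (cfg c A B s o) := by
  obtain ⟨hS, hC⟩ := canon_sys h
  rw [← flagCfg_canon h.hA h.hB h.rel hC]
  intro g hg x y f hf hxy hx hy hgf
  obtain ⟨t, ht, rfl⟩ := hf
  obtain ⟨u, hu, hxu⟩ := hxy
  have hum := FlagPoly.steps_mem hS hu ht
  have hfu := FlagPoly.faceOf_eq hS hu
  rw [hfu] at hgf
  have hg1 : g u.1 = u.1 ∧ g u.2.1 = u.2.1 := by
    rcases Sym2.eq_iff.1 hxu with ⟨e1, e2⟩ | ⟨e1, e2⟩
    · exact ⟨by rw [← e1, hx], by rw [← e2, hy]⟩
    · exact ⟨by rw [← e2, hy], by rw [← e1, hx]⟩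
  have hne := FlagPoly.flag_ne hS hum
  have hm : s(u.1, g u.2.2) ∈ faceOf (grp A B s) (canon c A B s o) u := by
    have h1 : Sym2.map g s(u.1, u.2.2) ∈
        Sym2.map g '' faceOf (grp A B s) (canon c A B s o) u :=
      ⟨_, FlagPoly.mem_faceOf' hum, rfl⟩
    rw [hgf, Sym2.map_mk, hg1.1] at h1
    exact h1
  have hg2 : g u.2.2 = u.2.2 := by
    rcases FlagPoly.edges_at hS hum hm (Sym2.mem_mk_left _ _) with h1 | h1
    · rw [Sym2.congr_right] at h1
      have h2 : g u.2.2 = g u.2.1 := by rw [h1, hg1.2]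
      exact absurd (g.injective h2).symm hne.2.2
    · rwa [Sym2.congr_right] at h1
  have hgu : act g u = u := Prod.ext hg1.1 (Prod.ext hg1.2 hg2)
  obtain ⟨k, hk, i, j, rfl⟩ := hum
  have h1 : act (k⁻¹ * g * k) ((canon c A B s o).fl i j) = (canon c A B s o).fl i j := by
    rw [act_mul, act_mul, hgu, act_inv_act]
  have hmem : k⁻¹ * g * k ∈ grp A B s := mul_mem (mul_mem (inv_mem hk) hg) hk
  have h2 := hC _ hmem i j i j h1 false false
  simp only [Bool.xor_self, Bool.xor_false] at h2
  have h3 := GoodCase.eq_one h hmem h2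
  have h4 : g = k * (k⁻¹ * g * k) * k⁻¹ := by group
  rw [h4, h3]
  group

end Pool.Agent.H21.FT
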