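import Pool.Agent.H21.FT.DefsF
import Pool.Agent.H21.FT.Fwd
import Pool.Agent.H21.FT.GoodCase
import Pool.Agent.H21.FT.Cnj

/-!
# Further symmetries of a configuration given by generators

If a group of symmetries of the configuration of a good triple of generators contains the group
generated by the triple, then the two groups are equal if and only if no element of the larger
group that fixes the base vertex transforms the triple to one of the other triples of generators.
-/

namespace Pool.Agent.H21.FT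

open Pool.Agent.H38.FT (Cfg)

variable {X : Type*}

namespace FullIff

/-! ### Base flags -/

/-- The image of the base flags. -/
def bmap (g : Equiv.Perm X) (β : Base X) : Base X :=
  ⟨g β.o, g β.w, g β.b1, g β.b2, g β.c1, g β.c2⟩

theorem bmap_fl (g : Equiv.Perm X) (β : Base X) (i j : Bool) :
    (bmap g β).fl i j = act g (β.fl i j) := by
  cases i <;> cases j <;> rfl

theorem base_ext {β β' : Base X} (h : ∀ i j, β.fl i j = β'.fl i j) : β = β' := by
  have h1 := h false false
  have h2 := h false true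
  have h3 := h true false
  have h4 := h true true
  obtain ⟨o, w, b1, b2, c1, c2⟩ := β
  obtain ⟨o', w', b1', b2', c1', c2'⟩ := β'
  simp only [Base.fl, Prod.mk.injEq] at h1 h2 h3 h4
  obtain ⟨rfl, rfl, rfl⟩ := h1
  obtain ⟨-, -, rfl⟩ := h2
  obtain ⟨-, -, rfl⟩ := h3
  obtain ⟨-, -, rfl⟩ := h4
  rfl

theorem canon_cnj (c : Cls) (g A B s : Equiv.Perm X) (o : X) :
    canon c (g * A * g⁻¹) (g * B * g⁻¹) (g * s * g⁻¹) (g o) = bmap g (canon c A B s o) := by
  cases c <;> simp [canon, bmap]

/-- The generators are determined by their action on the base flags. -/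
theorem case_eq {P : Cfg X} {G : Subgroup (Equiv.Perm X)} {β : Base X} (hP : P.IsPolyhedron)
    (hG : Acts G P) (hS : Semireg G P) (hc : ∀ i j, β.fl i j ∈ corners P) {c : Cls}
    {A B s A' B' s' : Equiv.Perm X} (hA : A ∈ G) (hB : B ∈ G) (hs : s ∈ G) (hA' : A' ∈ G)
    (hB' : B' ∈ G) (hs' : s' ∈ G) (h : Case β c A B s) (h' : Case β c A' B' s') :
    A = A' ∧ B = B' ∧ s = s' := by
  have key : ∀ {i j : Bool} {g k : Equiv.Perm X} {t : X × X × X}, g ∈ G → k ∈ G →
      act g (β.fl i j) = t → act k (β.fl i j) = t → g = k := fun hg hk e e' =>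
    eq_of_act hP hG hS (hc _ _) hg hk (e.trans e'.symm)
  have key' : ∀ {i j : Bool} {g k : Equiv.Perm X} {t : X × X × X}, g ∈ G → k ∈ G →
      act g (swp (β.fl i j)) = t → act k (swp (β.fl i j)) = t → g = k := fun hg hk e e' =>
    eq_of_act hP hG hS (swp_corner (hc _ _)) hg hk (e.trans e'.symm)
  cases c
  · obtain ⟨h1, h2, h3⟩ := h
    obtain ⟨h1', h2', h3'⟩ := h'
    exact ⟨key hA hA' h2 h2', key hB hB' h3 h3', key hs hs' h1 h1'⟩
  · obtain ⟨h1, h2, h3⟩ := h
    obtain ⟨h1', h2', h3'⟩ := h'
    exact ⟨key hA hA' h3 h3', h1.trans h1'.symm, key hs hs' h2 h2'⟩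
  · obtain ⟨h1, h2, h3⟩ := h
    obtain ⟨h1', h2', h3'⟩ := h'
    exact ⟨key hA hA' h3 h3', h1.trans h1'.symm, key hs hs' h2 h2'⟩
  · obtain ⟨h1, h2, h3⟩ := h
    obtain ⟨h1', h2', h3'⟩ := h'
    exact ⟨key hA hA' h2 h2', key hB hB' h3 h3', key hs hs' h1 h1'⟩
  · obtain ⟨h1, h2, h3⟩ := h
    obtain ⟨h1', h2', h3'⟩ := h'
    have e1 := key hA hA' h2 h2'
    have e2 := key' hs hs' h3 h3'
    exact ⟨e1, by rw [h1, h1', e1, e2], e2⟩
  · obtain ⟨h1, h2, h3⟩ := h
    obtain ⟨h1', h2', h3'⟩ := h'
    have e2 := key' hs hs' h2 h2'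
    have e1 := key (G.mul_mem hs hA) (G.mul_mem hs' hA') h3 h3'
    rw [e2] at e1
    exact ⟨mul_left_cancel e1, h1.trans h1'.symm, e2⟩
  · obtain ⟨h1, h2, h3⟩ := h
    obtain ⟨h1', h2', h3'⟩ := h'
    have e2 := key hs hs' h2 h2'
    have e3 := key (G.mul_mem (G.mul_mem hs hB) (G.inv_mem hs))
      (G.mul_mem (G.mul_mem hs' hB') (G.inv_mem hs')) h3 h3'
    rw [e2] at e3
    exact ⟨key hA hA' h1 h1', mul_left_cancel (mul_right_cancel e3), e2⟩

/-! ### The other generators -/

/-- The base flags of the triple `T` are the images under `δ` of the shifted base flags. -/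
def W (c : Cls) (A B s : Equiv.Perm X) (o : X) (T : Equiv.Perm X × Equiv.Perm X × Equiv.Perm X)
    (δ : Equiv.Perm X) (i j : Bool) : Prop :=
  ∀ a b, (canon c T.1 T.2.1 T.2.2 o).fl a b = act δ ((canon c A B s o).fl (xor a i) (xor b j))

section W

variable {A B s : Equiv.Perm X} {o : X}

theorem w_c2 (B' : Equiv.Perm X) : W .c2 A B s o (A⁻¹, B', s) 1 false true := by
  intro a b
  cases a <;> cases b <;> simp [canon, Base.fl, act]

theorem w_c20 (B' : Equiv.Perm X) : W .c20 A B s o (A⁻¹, B', s) 1 false true := by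
  intro a b
  cases a <;> cases b <;> simp [canon, Base.fl, act]

theorem w_c21 : W .c21 A B s o (B, A, s) 1 false true := by
  intro a b
  cases a <;> cases b <;> simp [canon, Base.fl, act]

theorem w_c22 (hr : Rel .c22 A B s o) : W .c22 A B s o (B, A, s⁻¹) s⁻¹ true false := by
  obtain ⟨-, -, rfl⟩ := hr
  intro a b
  cases a <;> cases b <;> simp [canon, Base.fl, act]

theorem w_c4a1 (hA : A o = o) (B' : Equiv.Perm X) :
    W .c4a A B s o (A⁻¹, B', s * A) 1 false true := by
  intro a b
  cases a <;> cases b <;> simp [canon, Base.fl, act, hA]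

theorem w_c4a2 (hA : A o = o) (B' : Equiv.Perm X) :
    W .c4a A B s o (A, B', s⁻¹ * A⁻¹) s⁻¹ true false := by
  have hA' : (Equiv.symm A) o = o := inv_apply_fix hA
  intro a b
  cases a <;> cases b <;> simp [canon, Base.fl, act, hA']

theorem w_c4a3 (B' : Equiv.Perm X) : W .c4a A B s o (A⁻¹, B', s⁻¹) s⁻¹ true true := by
  intro a b
  cases a <;> cases b <;> simp [canon, Base.fl, act]

theorem w_c4b : W .c4b A B s o (B, A, s⁻¹) s⁻¹ true true := by
  intro a b
  cases a <;> cases b <;> simp [canon, Base.fl, act]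

/-- Facts about the other triples of generators. -/
theorem others_facts {c : Cls} (hA : A o = o) (hB : B o = o) (hr : Rel c A B s o)
    {T : Equiv.Perm X × Equiv.Perm X × Equiv.Perm X} (hT : T ∈ others c A B s) :
    T.1 o = o ∧ T.2.1 o = o ∧ Rel c T.1 T.2.1 T.2.2 o ∧ T.1 ∈ grp A B s ∧ T.2.1 ∈ grp A B s ∧
      T.2.2 ∈ grp A B s := by
  have mA : A ∈ grp A B s := A_mem_grp
  have mB : B ∈ grp A B s := B_mem_grp
  have ms : s ∈ grp A B s := s_mem_grp
  have mA' := inv_mem mA
  have ms' := inv_mem ms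
  have hA' : A⁻¹ o = o := inv_apply_fix hA
  cases c
  case reg => simp [others] at hT
  case c2 =>
    simp only [others, List.mem_singleton] at hT
    subst hT
    exact ⟨hA', hB, hr, mA', mB, ms⟩
  case c20 =>
    simp only [others, List.mem_singleton] at hT
    subst hT
    exact ⟨hA', hB, hr, mA', mB, ms⟩
  case c21 =>
    simp only [others, List.mem_singleton] at hT
    subst hT
    exact ⟨hB, hA, ⟨hr.2.1, hr.1, hr.2.2⟩, mB, mA, ms⟩
  case c22 =>
    simp only [others, List.mem_singleton] at hT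
    subst hT
    obtain ⟨hAA, hAw, hBe⟩ := hr
    refine ⟨hB, hA, ⟨?_, ?_, ?_⟩, mB, mA, ms'⟩
    · rw [hBe]
      calc s⁻¹ * A * s * (s⁻¹ * A * s) = s⁻¹ * (A * A) * s := by group
        _ = 1 := by rw [hAA]; group
    · show B (s⁻¹ o) = s⁻¹ o
      rw [hBe]
      simp [hA]
    · show A = s⁻¹⁻¹ * B * s⁻¹
      rw [hBe]
      group
  case c4a =>
    simp only [others, List.mem_cons, List.not_mem_nil, or_false] at hT
    rcases hT with rfl | rfl | rfl
    · exact ⟨hA', hB, hr, mA', mB, mul_mem ms mA⟩
    · exact ⟨hA, hB, hr, mA, mB, mul_mem ms' mA'⟩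
    · exact ⟨hA', hB, hr, mA', mB, ms'⟩
  case c4b =>
    simp only [others, List.mem_singleton] at hT
    subst hT
    exact ⟨hB, hA, ⟨hr.2, hr.1⟩, mB, mA, ms'⟩

/-- The base flags of the other triples of generators. -/
theorem others_w {c : Cls} (hA : A o = o) (hr : Rel c A B s o)
    {T : Equiv.Perm X × Equiv.Perm X × Equiv.Perm X} (hT : T ∈ others c A B s) :
    ∃ δ ∈ grp A B s, ∃ i j, W c A B s o T δ i j ∧
      ∀ (G : Subgroup (Equiv.Perm X)) (β : Base X), NoMore G β c →
        ∀ g ∈ G, act g (β.fl false false) ≠ β.fl i j := by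
  have mA : A ∈ grp A B s := A_mem_grp
  have ms : s ∈ grp A B s := s_mem_grp
  have ms' := inv_mem ms
  cases c
  case reg => simp [others] at hT
  case c2 =>
    simp only [others, List.mem_singleton] at hT
    subst hT
    exact ⟨1, one_mem _, _, _, w_c2 B, fun G β h => h.1⟩
  case c20 =>
    simp only [others, List.mem_singleton] at hT
    subst hT
    exact ⟨1, one_mem _, _, _, w_c20 B, fun G β h => h.1⟩
  case c21 =>
    simp only [others, List.mem_singleton] at hT
    subst hT
    exact ⟨1, one_mem _, _, _, w_c21, fun G β h => h.1⟩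
  case c22 =>
    simp only [others, List.mem_singleton] at hT
    subst hT
    exact ⟨s⁻¹, ms', _, _, w_c22 hr, fun G β h => h.1⟩
  case c4a =>
    simp only [others, List.mem_cons, List.not_mem_nil, or_false] at hT
    rcases hT with rfl | rfl | rfl
    · exact ⟨1, one_mem _, _, _, w_c4a1 hA B, fun G β h => h.1⟩
    · exact ⟨s⁻¹, ms', _, _, w_c4a2 hA B, fun G β h => h.2.1⟩
    · exact ⟨s⁻¹, ms', _, _, w_c4a3 B, fun G β h => h.2.2⟩
  case c4b =>
    simp only [others, List.mem_singleton] at hT
    subst hT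
    exact ⟨s⁻¹, ms', _, _, w_c4b, fun G β h => h.2.2⟩

end W

end FullIff

open FullIff

theorem full_iff {c : Cls} {A B s : Equiv.Perm X} {o : X} (h : Good c A B s o)
    {G : Subgroup (Equiv.Perm X)} (hle : grp A B s ≤ G)
    (hsym : ∀ g ∈ G, (cfg c A B s o).map g = cfg c A B s o)
    (hS : Semireg G (cfg c A B s o)) :
    (∀ g ∈ G, g ∈ grp A B s) ↔ ∀ g ∈ G, g o = o → cnj3 g (A, B, s) ∉ others c A B s := by
  obtain ⟨hP, hΓ⟩ := conv h
  obtain ⟨hβ, hc, hn⟩ := good_case h
  have hG : Acts G (cfg c A B s o) :=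
    { sym := hsym
      tV := fun x hx y hy => by
        obtain ⟨g, hg, e⟩ := hΓ.tV x hx y hy
        exact ⟨g, hle hg, e⟩
      tE := fun x hx y hy => by
        obtain ⟨g, hg, e⟩ := hΓ.tE x hx y hy
        exact ⟨g, hle hg, e⟩
      tF := fun x hx y hy => by
        obtain ⟨g, hg, e⟩ := hΓ.tF x hx y hy
        exact ⟨g, hle hg, e⟩ }
  have hSΓ : Semireg (grp A B s) (cfg c A B s o) := fun g hg => hS g (hle hg)
  have mA : A ∈ grp A B s := A_mem_grp
  have mB : B ∈ grp A B s := B_mem_grp
  have ms : s ∈ grp A B s := s_mem_grp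
  set β := canon c A B s o with hβd
  have hbo : β.o = o := GoodCase.canon_o c
  constructor
  · intro hall g hg hgo hT
    obtain ⟨δ, hδ, i, j, hW, hne⟩ := others_w h.hA h.rel hT
    have e1 : act g (β.fl false false) = act δ (β.fl i j) := by
      have := hW false false
      simp only [cnj3] at this
      rw [← bmap_fl, ← canon_cnj, hgo, this]
      simp only [Bool.false_xor]
      rfl
    refine hne _ β hn (δ⁻¹ * g) (mul_mem (inv_mem hδ) (hall g hg)) ?_
    rw [act_mul, e1, act_inv_act]
  · intro hno g₀ hg₀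
    by_contra hgΓ
    -- `Q i j`: an element of `G` that is not in `Γ` maps the first base flag to `fl i j`
    set Q : Bool → Bool → Prop := fun i j =>
      ∃ g ∈ G, g ∉ grp A B s ∧ act g (β.fl false false) = β.fl i j with hQ
    have hex : ∃ i j, Q i j := by
      obtain ⟨γ, hγ, i, j, e⟩ := corner_of_base hP hΓ hSΓ hβ
        (act_corner hG hg₀ (hβ.corner false false))
      refine ⟨i, j, γ⁻¹ * g₀, G.mul_mem (G.inv_mem (hle hγ)) hg₀, fun hm => hgΓ ?_, ?_⟩
      · have := mul_mem hγ hm
        rwa [mul_inv_cancel_left] at this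
      · rw [act_mul, e, act_inv_act]
    have Qfalse : ∀ {i j : Bool} {k : Equiv.Perm X}, k ∈ grp A B s →
        act k (β.fl false false) = β.fl i j → ¬ Q i j := by
      rintro i j k hk e ⟨g, hg, hgn, e'⟩
      exact hgn (by
        rw [eq_of_act hP hG hS (hβ.corner false false) hg (hle hk) (e'.trans e.symm)]
        exact hk)
    have Q00 : ¬ Q false false := Qfalse (one_mem _) rfl
    have Qtrans : ∀ {i j i' j' : Bool} {k : Equiv.Perm X}, k ∈ grp A B s →
        act k (β.fl i j) = β.fl i' j' → Q i j → Q i' j' := by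
      rintro i j i' j' k hk e ⟨g, hg, hgn, e'⟩
      refine ⟨k * g, G.mul_mem (hle hk) hg, fun hm => hgn ?_, by rw [act_mul, e', e]⟩
      have := mul_mem (inv_mem hk) hm
      rwa [inv_mul_cancel_left] at this
    have Qoth : ∀ {i j : Bool} {T : Equiv.Perm X × Equiv.Perm X × Equiv.Perm X}
        {δ : Equiv.Perm X}, T ∈ others c A B s → δ ∈ grp A B s → W c A B s o T δ i j →
        ¬ Q i j := by
      rintro i j T δ hT hδ hW ⟨g, hg, hgn, e⟩
      have hg' : δ * g ∈ G := G.mul_mem (hle hδ) hg
      have hfl : ∀ a b, act (δ * g) (β.fl a b) = (canon c T.1 T.2.1 T.2.2 o).fl a b := by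
        intro a b
        rw [hW a b, act_mul, act_base hP hG hS hβ hg e a b, Bool.false_xor, Bool.false_xor]
      have hbm : bmap (δ * g) β = canon c T.1 T.2.1 T.2.2 o :=
        base_ext fun a b => by rw [bmap_fl, hfl]
      have hgo : (δ * g) o = o := by
        have h1 : (δ * g) β.o = o := (congrArg Base.o hbm).trans (GoodCase.canon_o c)
        rwa [hbo] at h1
      obtain ⟨t1, t2, t3, t4, t5, t6⟩ := others_facts h.hA h.hB h.rel hT
      have hcT : Case (canon c T.1 T.2.1 T.2.2 o) c T.1 T.2.1 T.2.2 := GoodCase.case t1 t2 t3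
      have hcg : Case (canon c T.1 T.2.1 T.2.2 o) c (δ * g * A * (δ * g)⁻¹)
          (δ * g * B * (δ * g)⁻¹) (δ * g * s * (δ * g)⁻¹) := by
        have h1 := canon_cnj c (δ * g) A B s o
        rw [hgo] at h1
        rw [← hbm, ← h1]
        have h2 := rel_cnj (δ * g) h.rel
        rw [hgo] at h2
        refine GoodCase.case ?_ ?_ h2
        · have : (δ * g)⁻¹ o = o := inv_apply_fix hgo
          rw [Equiv.Perm.mul_apply, this, Equiv.Perm.mul_apply, h.hA, hgo]
        · have : (δ * g)⁻¹ o = o := inv_apply_fix hgo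
          rw [Equiv.Perm.mul_apply, this, Equiv.Perm.mul_apply, h.hB, hgo]
      have hcor : ∀ a b, (canon c T.1 T.2.1 T.2.2 o).fl a b ∈ corners (cfg c A B s o) := by
        intro a b
        rw [← hfl]
        exact act_corner hG hg' (hβ.corner a b)
      have cj : ∀ {k : Equiv.Perm X}, k ∈ grp A B s → δ * g * k * (δ * g)⁻¹ ∈ G := fun hk =>
        G.mul_mem (G.mul_mem hg' (hle hk)) (G.inv_mem hg')
      obtain ⟨e1, e2, e3⟩ := case_eq hP hG hS hcor (cj mA) (cj mB) (cj ms) (hle t4) (hle t5)
        (hle t6) hcg hcT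
      refine hno (δ * g) hg' hgo ?_
      have : cnj3 (δ * g) (A, B, s) = T := by
        simp only [cnj3]
        rw [e1, e2, e3]
      rw [this]
      exact hT
    have base := fun {g : Equiv.Perm X} (hg : g ∈ G) {i j i' j' : Bool}
      (e : act g (β.fl i j) = β.fl i' j') => act_base hP hG hS hβ hg e
    obtain ⟨i, j, hij⟩ := hex
    cases c
    case reg =>
      obtain ⟨h1, h2, h3, -⟩ := canon_reg_id h.hA h.hB h.rel
      cases i <;> cases j
      · exact Q00 hij
      · exact Qfalse mB h3 hij
      · exact Qfalse ms h1 hij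
      · exact Qfalse (mul_mem ms mB) (by rw [act_mul, hβd, h3, h2]) hij
    case c2 =>
      obtain ⟨h1, h2, -, -⟩ := canon_c2_id h.hA h.rel
      have n01 : ¬ Q false true := Qoth (by simp [others]) (one_mem _) (w_c2 B)
      cases i <;> cases j
      · exact Q00 hij
      · exact n01 hij
      · exact n01 (Qtrans (inv_mem ms) (by rw [hβd, ← h1, act_inv_act]) hij)
      · exact Qfalse ms h2 hij
    case c20 =>
      obtain ⟨h1, h2, -, -⟩ := canon_c20_id h.hA h.rel
      have n01 : ¬ Q false true := Qoth (by simp [others]) (one_mem _) (w_c20 B)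
      cases i <;> cases j
      · exact Q00 hij
      · exact n01 hij
      · exact Qfalse ms h1 hij
      · exact n01 (Qtrans (inv_mem ms) (by rw [hβd, ← h2, act_inv_act]) hij)
    case c21 =>
      obtain ⟨h1, h2, -, -⟩ := canon_c21_id h.hA h.hB h.rel
      have n01 : ¬ Q false true := Qoth (by simp [others]) (one_mem _) w_c21
      cases i <;> cases j
      · exact Q00 hij
      · exact n01 hij
      · exact n01 (Qtrans (inv_mem ms) (by rw [hβd, ← h1, act_inv_act]) hij)
      · exact Qfalse ms h2 hij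
    case c22 =>
      obtain ⟨h1, h2, -, -⟩ := canon_c22_id h.hA h.rel
      have n10 : ¬ Q true false := Qoth (by simp [others]) (inv_mem ms) (w_c22 h.rel)
      cases i <;> cases j
      · exact Q00 hij
      · exact Qfalse mA h1 hij
      · exact n10 hij
      · exact n10 (Qtrans (inv_mem mA) (by rw [hβd, ← h2, act_inv_act]) hij)
    case c4a =>
      have n01 : ¬ Q false true := Qoth (by simp [others]) (one_mem _) (w_c4a1 h.hA B)
      have n10 : ¬ Q true false := Qoth (by simp [others]) (inv_mem ms) (w_c4a2 h.hA B)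
      have n11 : ¬ Q true true := Qoth (by simp [others]) (inv_mem ms) (w_c4a3 B)
      cases i <;> cases j
      · exact Q00 hij
      · exact n01 hij
      · exact n10 hij
      · exact n11 hij
    case c4b =>
      obtain ⟨h1, -, h3, -⟩ := canon_c4b_id h.hA h.hB h.rel
      rw [← hβd] at h1 h3
      have n11 : ∀ g ∈ G, act g (β.fl false false) ≠ β.fl true true := fun g hg e =>
        Qoth (T := (B, A, s⁻¹)) (by simp [others]) (inv_mem ms) w_c4b
          ⟨g, hg, fun hm => hn.2.2 g hm e, e⟩
      cases i <;> cases j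
      · exact Q00 hij
      · obtain ⟨g, hg, -, e⟩ := hij
        -- `s g A` maps `fl 00` to `fl 10`
        have hk : s * g * A ∈ G := G.mul_mem (G.mul_mem (hle ms) hg) (hle mA)
        have ek : act (s * g * A) (β.fl false false) = β.fl true false := by
          rw [act_mul, ← h1, act_mul, act_swp, e, act_swp, ← h3, swp_swp]
        refine n11 (s * g * A * g) (G.mul_mem hk hg) ?_
        rw [act_mul, e]
        exact base hk ek false true
      · obtain ⟨g, hg, -, e⟩ := hij
        -- `A⁻¹ g s` maps `fl 01` to `fl 00`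
        have hk : A⁻¹ * g * s ∈ G := G.mul_mem (G.mul_mem (G.inv_mem (hle mA)) hg) (hle ms)
        have e2 : act g (β.fl true false) = β.fl false false := base hg e true false
        have ek : act (A⁻¹ * g * s) (β.fl false true) = β.fl false false := by
          rw [act_mul, ← h3, act_mul, act_swp, e2, h1, act_inv_act]
        have ek' : act (A⁻¹ * g * s) (β.fl false false) = β.fl false true :=
          base hk ek false false
        have e3 : act g (β.fl false true) = β.fl true true := base hg e false true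
        refine n11 (g * (A⁻¹ * g * s)) (G.mul_mem hg hk) ?_
        rw [act_mul, ek', e3]
      · obtain ⟨g, hg, -, e⟩ := hij
        exact n11 g hg e

end Pool.Agent.H21.FT
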