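import Pool.Agent.H21.FT.FwdBase

/-!
# From a polyhedron to the constructions: facts used in all seven cases
-/

namespace Pool.Agent.H21.FT

open Pool.Agent.H38.FT (Cfg)
open Pool.Agent.H38.FT.Cfg

variable {X : Type*}

theorem inv_apply' (g : Equiv.Perm X) (x : X) : g⁻¹ (g x) = x := g.symm_apply_apply x

theorem apply_inv' (g : Equiv.Perm X) (x : X) : g (g⁻¹ x) = x := g.apply_symm_apply x

@[simp] theorem act_one (t : X × X × X) : act (1 : Equiv.Perm X) t = t := rfl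

theorem act_mul (g h : Equiv.Perm X) (t : X × X × X) : act (g * h) t = act g (act h t) := rfl

@[simp] theorem act_inv_act (g : Equiv.Perm X) (t : X × X × X) : act g⁻¹ (act g t) = t := by
  simp [act]

@[simp] theorem act_act_inv (g : Equiv.Perm X) (t : X × X × X) : act g (act g⁻¹ t) = t := by
  simp [act]

theorem act_swp (g : Equiv.Perm X) (t : X × X × X) : act g (swp t) = swp (act g t) := rfl

@[simp] theorem swp_swp (t : X × X × X) : swp (swp t) = t := rfl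

theorem inv_act_eq {g : Equiv.Perm X} {t t' : X × X × X} (h : act g t = t') : act g⁻¹ t' = t := by
  rw [← h, act_inv_act]

variable {P : Cfg X} {G : Subgroup (Equiv.Perm X)} {β : Base X}

theorem deg3_of_acts (hP : P.IsPolyhedron) (hG : Acts G P) : ∀ x ∈ P.V, P.Deg3 x := by
  apply hP.deg3
  intro x hx y hy
  obtain ⟨g, hg, h⟩ := hG.tV x hx y hy
  exact ⟨g, g.injective, hG.sym g hg, h⟩

theorem act_corner (hG : Acts G P) {g : Equiv.Perm X} (hg : g ∈ G) {t : X × X × X}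
    (ht : t ∈ corners P) : act g t ∈ corners P := by
  obtain ⟨f, hf, h1, h2, h3⟩ := ht
  refine ⟨Sym2.map g '' f, map_F_mem (hG.sym g hg) hf, fun h => h1 (g.injective h), ?_, ?_⟩
  · exact ⟨_, h2, rfl⟩
  · exact ⟨_, h3, rfl⟩

theorem swp_corner {t : X × X × X} (ht : t ∈ corners P) : swp t ∈ corners P := by
  obtain ⟨f, hf, h1, h2, h3⟩ := ht
  exact ⟨f, hf, h1.symm, h3, h2⟩

theorem IsBase.corner (hβ : IsBase P β) (i j : Bool) : β.fl i j ∈ corners P := by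
  obtain ⟨f₁, hf₁, f₂, hf₂, -, h1, h2, h3, h4⟩ := hβ
  cases i <;> cases j
  · exact ⟨f₁, hf₁, h1⟩
  · exact ⟨f₂, hf₂, h3⟩
  · exact ⟨f₁, hf₁, h2⟩
  · exact ⟨f₂, hf₂, h4⟩

theorem IsBase.edge (hP : P.IsPolyhedron) (hβ : IsBase P β) : s(β.o, β.w) ∈ P.E := by
  obtain ⟨f₁, hf₁, f₂, hf₂, -, h1, h2, h3, h4⟩ := hβ
  exact hP.face_sub hf₁ h1.2.1

theorem IsBase.ow (hP : P.IsPolyhedron) (hβ : IsBase P β) : β.o ≠ β.w :=
  hP.ne_of_mem (hβ.edge hP)

theorem IsBase.wb1 (hβ : IsBase P β) : β.w ≠ β.b1 := by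
  obtain ⟨f₁, hf₁, f₂, hf₂, -, h1, h2, h3, h4⟩ := hβ
  exact h1.1

theorem IsBase.wb2 (hβ : IsBase P β) : β.w ≠ β.b2 := by
  obtain ⟨f₁, hf₁, f₂, hf₂, -, h1, h2, h3, h4⟩ := hβ
  exact h3.1

theorem IsBase.oc1 (hβ : IsBase P β) : β.o ≠ β.c1 := by
  obtain ⟨f₁, hf₁, f₂, hf₂, -, h1, h2, h3, h4⟩ := hβ
  exact h2.1

theorem IsBase.oc2 (hβ : IsBase P β) : β.o ≠ β.c2 := by
  obtain ⟨f₁, hf₁, f₂, hf₂, -, h1, h2, h3, h4⟩ := hβ
  exact h4.1

theorem IsBase.b12 (hP : P.IsPolyhedron) (hG : Acts G P) (hβ : IsBase P β) : β.b1 ≠ β.b2 := by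
  have hV : β.o ∈ P.V := hP.left_mem (hβ.edge hP)
  obtain ⟨f₁, hf₁, f₂, hf₂, hne, h1, h2, h3, h4⟩ := hβ
  intro h
  refine hne (hP.corner_unique (x := β.w) (y := β.o) (z := β.b1) (deg3_of_acts hP hG _ hV) h1.1
    hf₁ hf₂ ?_ h1.2.2 ?_ ?_)
  · rw [Sym2.eq_swap]; exact h1.2.1
  · rw [Sym2.eq_swap]; exact h3.2.1
  · rw [h]; exact h3.2.2

theorem IsBase.c12 (hP : P.IsPolyhedron) (hG : Acts G P) (hβ : IsBase P β) : β.c1 ≠ β.c2 := by
  have hV : β.w ∈ P.V := hP.right_mem (hβ.edge hP)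
  obtain ⟨f₁, hf₁, f₂, hf₂, hne, h1, h2, h3, h4⟩ := hβ
  intro h
  refine hne (hP.corner_unique (x := β.o) (y := β.w) (z := β.c1) (deg3_of_acts hP hG _ hV) h2.1
    hf₁ hf₂ ?_ h2.2.2 ?_ ?_)
  · rw [Sym2.eq_swap]; exact h2.2.1
  · rw [Sym2.eq_swap]; exact h4.2.1
  · rw [h]; exact h4.2.2

/-- in a face the second edge at a vertex is unique -/
theorem next_unique (hP : P.IsPolyhedron) {f : Set (Sym2 X)} (hf : f ∈ P.F) {v a b c : X}
    (h1 : a ≠ b) (h2 : a ≠ c) (ha : s(v, a) ∈ f) (hb : s(v, b) ∈ f) (hc : s(v, c) ∈ f) : b = c := by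
  rw [Sym2.eq_swap] at ha
  obtain ⟨z, -, -, hz⟩ := hP.next hf ha
  rcases hz b hb with h | h
  · exact absurd h.symm h1
  · rcases hz c hc with h' | h'
    · exact absurd h'.symm h2
    · rw [h, h']

theorem face_of_edge (hP : P.IsPolyhedron) {e : Sym2 X} {f₁ f₂ f : Set (Sym2 X)} (hf₁ : f₁ ∈ P.F)
    (hf₂ : f₂ ∈ P.F) (hne : f₁ ≠ f₂) (hf : f ∈ P.F) (h1 : e ∈ f₁) (h2 : e ∈ f₂) (h : e ∈ f) :
    f = f₁ ∨ f = f₂ := by
  obtain ⟨g₁, g₂, -, -, -, -, -, hall⟩ := hP.two_faces (hP.face_sub hf₁ h1)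
  rcases hall f₁ hf₁ h1 with a | a <;> rcases hall f₂ hf₂ h2 with b | b <;>
    rcases hall f hf h with c | c <;> simp_all

/-- the corners at the base vertex whose first edge is the base edge -/
theorem corner_ow (hP : P.IsPolyhedron) (hβ : IsBase P β) {t : X × X × X} (ht : t ∈ corners P)
    (h1 : t.1 = β.o) (h2 : t.2.1 = β.w) : t = β.fl false false ∨ t = β.fl false true := by
  obtain ⟨f₁, hf₁, f₂, hf₂, hne, k1, k2, k3, k4⟩ := hβ
  obtain ⟨f, hf, m1, m2, m3⟩ := ht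
  obtain ⟨v, a, b⟩ := t
  simp only at h1 h2 m1 m2 m3
  subst h1 h2
  rcases face_of_edge hP hf₁ hf₂ hne hf k1.2.1 k3.2.1 m2 with rfl | rfl
  · left
    rw [next_unique hP hf m1 k1.1 m2 m3 k1.2.2]
    rfl
  · right
    rw [next_unique hP hf m1 k3.1 m2 m3 k3.2.2]
    rfl

/-- the corners at the second vertex of the base edge whose first edge is the base edge -/
theorem corner_wo (hP : P.IsPolyhedron) (hβ : IsBase P β) {t : X × X × X} (ht : t ∈ corners P)
    (h1 : t.1 = β.w) (h2 : t.2.1 = β.o) : t = β.fl true false ∨ t = β.fl true true := by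
  obtain ⟨f₁, hf₁, f₂, hf₂, hne, k1, k2, k3, k4⟩ := hβ
  obtain ⟨f, hf, m1, m2, m3⟩ := ht
  obtain ⟨v, a, b⟩ := t
  simp only at h1 h2 m1 m2 m3
  subst h1 h2
  rcases face_of_edge hP hf₁ hf₂ hne hf k2.2.1 k4.2.1 m2 with rfl | rfl
  · left
    rw [next_unique hP hf m1 k2.1 m2 m3 k2.2.2]
    rfl
  · right
    rw [next_unique hP hf m1 k4.1 m2 m3 k4.2.2]
    rfl

theorem stab_le {A B : Equiv.Perm X} (hA : A ∈ G) (hB : B ∈ G) : stab A B ≤ G := by
  rw [stab, Subgroup.closure_le]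
  rintro g (rfl | hg)
  · exact hA
  · rw [Set.mem_singleton_iff] at hg
    rw [hg]; exact hB

theorem grp_le {A B s : Equiv.Perm X} (hA : A ∈ G) (hB : B ∈ G) (hs : s ∈ G) :
    grp A B s ≤ G := by
  rw [grp, Subgroup.closure_le]
  rintro g (rfl | hg | hg)
  · exact hA
  · rw [hg]; exact hB
  · rw [Set.mem_singleton_iff] at hg
    rw [hg]; exact hs

/-- the elements of the stabiliser fix the base vertex -/
theorem stab_fix {A B : Equiv.Perm X} {o : X} (hA : A o = o) (hB : B o = o) {g : Equiv.Perm X}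
    (hg : g ∈ stab A B) : g o = o := by
  have : stab A B ≤ MulAction.stabilizer (Equiv.Perm X) o := by
    rw [stab, Subgroup.closure_le]
    rintro g (rfl | hg)
    · exact hA
    · rw [Set.mem_singleton_iff] at hg
      rw [hg]; exact hB
  exact this hg

theorem A_mem_stab (A B : Equiv.Perm X) : A ∈ stab A B := Subgroup.subset_closure (by simp)

theorem B_mem_stab (A B : Equiv.Perm X) : B ∈ stab A B := Subgroup.subset_closure (by simp)

/-- two elements of `G` that act in the same way on a corner are equal -/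
theorem eq_of_act (hP : P.IsPolyhedron) (hG : Acts G P) (hS : Semireg G P) {t : X × X × X}
    (ht : t ∈ corners P) {g h : Equiv.Perm X} (hg : g ∈ G) (hh : h ∈ G)
    (he : act g t = act h t) : g = h := by
  have : h⁻¹ * g = 1 := by
    apply act_eq_one hP hG hS ht (G.mul_mem (G.inv_mem hh) hg)
    rw [act_mul, he, act_inv_act]
  rw [inv_mul_eq_one] at this
  exact this.symm

end Pool.Agent.H21.FT
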