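import Pool.Agent.H21.FT.GoodCase
import Pool.Agent.H21.FT.FwdCases
import Pool.Agent.H21.FT.FwdCommon
import Pool.Agent.H21.FT.Cnj
import Pool.Agent.H21.FT.DefsF

/-!
# Uniqueness of the generators
-/

namespace Pool.Agent.H21.FT

open Pool.Agent.H38.FT (Cfg)

variable {X : Type*}

namespace Uniq

open FwdCases (R T)

variable {P : Cfg X} {G : Subgroup (Equiv.Perm X)} {β β' : Base X} {c c' : Cls}
  {A B s A' B' s' : Equiv.Perm X}

/-! ### The relations of a class -/

theorem rels (hP : P.IsPolyhedron) (hG : Acts G P) (hS : Semireg G P) (hβ : IsBase P β)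
    (hA : A ∈ G) (hB : B ∈ G) (hs : s ∈ G) (hc : Case β c A B s) (hn : NoMore G β c) :
    (R G β false false false true ↔ c = .reg ∨ c = .c22) ∧
    (R G β false false true false ↔ c = .reg ∨ c = .c20) ∧
    (R G β false false true true ↔ c = .reg ∨ c = .c2 ∨ c = .c21) := by
  have no : ∀ {i j}, (∀ g ∈ G, act g (β.fl false false) ≠ β.fl i j) →
      ¬ R G β false false i j := by
    rintro i j h ⟨g, hg, e⟩
    exact h g hg e
  cases c with
  | reg =>
    obtain ⟨h1, -, h3⟩ := hc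
    have r10 : R G β false false true false := ⟨s, hs, h1⟩
    have r01 : R G β false false false true := ⟨B, hB, h3⟩
    have r11 : R G β false false true true := by
      simpa using r10.trans (R.shift hP hG hS hβ r01 true false)
    exact ⟨iff_of_true r01 (by decide), iff_of_true r10 (by decide), iff_of_true r11 (by decide)⟩
  | c2 =>
    exact ⟨iff_of_false (no hn.1) (by decide), iff_of_false (no hn.2) (by decide),
      iff_of_true ⟨s, hs, hc.2.1⟩ (by decide)⟩
  | c20 =>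
    exact ⟨iff_of_false (no hn.1) (by decide), iff_of_true ⟨s, hs, hc.2.1⟩ (by decide),
      iff_of_false (no hn.2) (by decide)⟩
  | c21 =>
    exact ⟨iff_of_false (no hn.1) (by decide), iff_of_false (no hn.2) (by decide),
      iff_of_true ⟨s, hs, hc.1⟩ (by decide)⟩
  | c22 =>
    exact ⟨iff_of_true ⟨A, hA, hc.2.1⟩ (by decide), iff_of_false (no hn.1) (by decide),
      iff_of_false (no hn.2) (by decide)⟩
  | c4a =>
    exact ⟨iff_of_false (no hn.1) (by decide), iff_of_false (no hn.2.1) (by decide),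
      iff_of_false (no hn.2.2) (by decide)⟩
  | c4b =>
    exact ⟨iff_of_false (no hn.1) (by decide), iff_of_false (no hn.2.1) (by decide),
      iff_of_false (no hn.2.2) (by decide)⟩

/-- an element that maps a flag to a turned flag -/
theorem T_of {g : Equiv.Perm X} (hg : g ∈ G) {i j i' j' : Bool}
    (h : act g (β.fl i' j') = swp (β.fl i j)) : T G β i j i' j' :=
  ⟨g⁻¹, G.inv_mem hg, inv_act_eq h⟩

theorem not_c2_c21 (hA : A ∈ G) (hA' : A' ∈ G) (hc : Case β .c2 A B s) (hn : NoMore G β .c2)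
    (hc' : Case β .c21 A' B' s') : False := by
  have h1 : T G β false false false true := T_of hA hc.2.2
  have h2 : T G β false false false false := T_of hA' hc'.2.1
  obtain ⟨g, hg, e⟩ := h2.uniq h1
  exact hn.1 g hg e

theorem not_c4a_c4b (hs : s ∈ G) (hA' : A' ∈ G) (hc : Case β .c4a A B s) (hn : NoMore G β .c4a)
    (hc' : Case β .c4b A' B' s') : False := by
  have h1 : T G β false false true true := ⟨s, hs, hc.2.1⟩
  have h2 : T G β false false false false := T_of hA' hc'.1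
  obtain ⟨g, hg, e⟩ := h2.uniq h1
  exact hn.2.2 g hg e

end Uniq

open FwdCases (R T)

theorem uniq_case {P : Cfg X} {G : Subgroup (Equiv.Perm X)} {β : Base X} (hP : P.IsPolyhedron)
    (hG : Acts G P) (hS : Semireg G P) (hβ : IsBase P β) {c c' : Cls}
    {A B s A' B' s' : Equiv.Perm X} (hA : A ∈ G) (hB : B ∈ G) (hs : s ∈ G) (hA' : A' ∈ G)
    (hB' : B' ∈ G) (hs' : s' ∈ G) (hc : Case β c A B s) (hn : NoMore G β c)
    (hc' : Case β c' A' B' s') (hn' : NoMore G β c') : c = c' ∧ A = A' ∧ B = B' ∧ s = s' := by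
  obtain ⟨p1, p2, p3⟩ := Uniq.rels hP hG hS hβ hA hB hs hc hn
  obtain ⟨q1, q2, q3⟩ := Uniq.rels hP hG hS hβ hA' hB' hs' hc' hn'
  have e1 := p1.symm.trans q1
  have e2 := p2.symm.trans q2
  have e3 := p3.symm.trans q3
  have key : c = c' := by
    by_contra hne
    cases c <;> cases c' <;> first
      | exact absurd rfl hne
      | exact absurd e1 (by decide)
      | exact absurd e2 (by decide)
      | exact absurd e3 (by decide)
      | exact Uniq.not_c2_c21 hA hA' hc hn hc'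
      | exact Uniq.not_c2_c21 hA' hA hc' hn' hc
      | exact Uniq.not_c4a_c4b hs hA' hc hn hc'
      | exact Uniq.not_c4a_c4b hs' hA hc' hn' hc
  subst key
  refine ⟨rfl, ?_⟩
  have eq : ∀ {t u : X × X × X} {g h : Equiv.Perm X}, t ∈ corners P → g ∈ G → h ∈ G →
      act g t = u → act h t = u → g = h := fun ht hg hh e e' =>
    eq_of_act hP hG hS ht hg hh (e.trans e'.symm)
  have cor := hβ.corner
  cases c with
  | reg =>
    exact ⟨eq (cor _ _) hA hA' hc.2.1 hc'.2.1, eq (cor _ _) hB hB' hc.2.2 hc'.2.2,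
      eq (cor _ _) hs hs' hc.1 hc'.1⟩
  | c2 =>
    exact ⟨eq (cor _ _) hA hA' hc.2.2 hc'.2.2, hc.1.trans hc'.1.symm,
      eq (cor _ _) hs hs' hc.2.1 hc'.2.1⟩
  | c20 =>
    exact ⟨eq (cor _ _) hA hA' hc.2.2 hc'.2.2, hc.1.trans hc'.1.symm,
      eq (cor _ _) hs hs' hc.2.1 hc'.2.1⟩
  | c21 =>
    exact ⟨eq (cor _ _) hA hA' hc.2.1 hc'.2.1, eq (cor _ _) hB hB' hc.2.2 hc'.2.2,
      eq (cor _ _) hs hs' hc.1 hc'.1⟩
  | c22 =>
    have h1 : A = A' := eq (cor _ _) hA hA' hc.2.1 hc'.2.1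
    have h2 : s = s' := eq (swp_corner (cor _ _)) hs hs' hc.2.2 hc'.2.2
    exact ⟨h1, by rw [hc.1, hc'.1, h1, h2], h2⟩
  | c4a =>
    have h2 : s = s' := eq (swp_corner (cor _ _)) hs hs' hc.2.1 hc'.2.1
    have h1 : s * A = s' * A' := eq (cor _ _) (G.mul_mem hs hA) (G.mul_mem hs' hA') hc.2.2 hc'.2.2
    rw [h2] at h1
    exact ⟨mul_left_cancel h1, hc.1.trans hc'.1.symm, h2⟩
  | c4b =>
    have h2 : s = s' := eq (cor _ _) hs hs' hc.2.1 hc'.2.1
    have h1 : A = A' := eq (cor _ _) hA hA' hc.1 hc'.1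
    have h3 : s * B * s⁻¹ = s' * B' * s'⁻¹ :=
      eq (cor _ _) (G.mul_mem (G.mul_mem hs hB) (G.inv_mem hs))
        (G.mul_mem (G.mul_mem hs' hB') (G.inv_mem hs')) hc.2.2 hc'.2.2
    rw [h2] at h3
    exact ⟨h1, mul_left_cancel (mul_right_cancel h3), h2⟩

namespace Uniq

variable {P : Cfg X} {G : Subgroup (Equiv.Perm X)} {β β' : Base X} {c c' : Cls}
  {A B s A' B' s' : Equiv.Perm X}

/-! ### Images of a base -/

/-- the image of a base -/
def bmap (k : Equiv.Perm X) (β : Base X) : Base X :=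
  ⟨k β.o, k β.w, k β.b1, k β.b2, k β.c1, k β.c2⟩

theorem bmap_fl (k : Equiv.Perm X) (β : Base X) (i j : Bool) :
    (bmap k β).fl i j = act k (β.fl i j) := by
  cases i <;> cases j <;> rfl

theorem cj_act {k g : Equiv.Perm X} {t u : X × X × X} (h : act g t = u) :
    act (k * g * k⁻¹) (act k t) = act k u := by
  rw [act_mul, act_mul, act_inv_act, h]

theorem case_bmap (k : Equiv.Perm X) (h : Case β c A B s) :
    Case (bmap k β) c (k * A * k⁻¹) (k * B * k⁻¹) (k * s * k⁻¹) := by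
  have e1 : ∀ B : Equiv.Perm X, B = 1 → k * B * k⁻¹ = 1 := by
    rintro B rfl
    rw [mul_one, mul_inv_cancel]
  cases c with
  | reg =>
    refine ⟨?_, ?_, ?_⟩
    · rw [bmap_fl, bmap_fl]; exact cj_act h.1
    · rw [bmap_fl]; exact cj_act h.2.1
    · rw [bmap_fl, bmap_fl]; exact cj_act h.2.2
  | c2 =>
    refine ⟨e1 B h.1, ?_, ?_⟩ <;> rw [bmap_fl, bmap_fl]
    · exact cj_act h.2.1
    · exact cj_act h.2.2
  | c20 =>
    refine ⟨e1 B h.1, ?_, ?_⟩ <;> rw [bmap_fl, bmap_fl]
    · exact cj_act h.2.1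
    · exact cj_act h.2.2
  | c21 =>
    refine ⟨?_, ?_, ?_⟩
    · rw [bmap_fl, bmap_fl]; exact cj_act h.1
    · rw [bmap_fl]; exact cj_act h.2.1
    · rw [bmap_fl]; exact cj_act h.2.2
  | c22 =>
    refine ⟨?_, ?_, ?_⟩
    · rw [h.1]; group
    · rw [bmap_fl, bmap_fl]; exact cj_act h.2.1
    · rw [bmap_fl, bmap_fl]; exact cj_act h.2.2
  | c4a =>
    refine ⟨e1 B h.1, ?_, ?_⟩
    · rw [bmap_fl, bmap_fl]; exact cj_act h.2.1
    · have e : k * s * k⁻¹ * (k * A * k⁻¹) = k * (s * A) * k⁻¹ := by group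
      rw [bmap_fl, bmap_fl, e]
      exact cj_act h.2.2
  | c4b =>
    refine ⟨?_, ?_, ?_⟩
    · rw [bmap_fl]; exact cj_act h.1
    · rw [bmap_fl, bmap_fl]; exact cj_act h.2.1
    · have e : k * s * k⁻¹ * (k * B * k⁻¹) * (k * s * k⁻¹)⁻¹ = k * (s * B * s⁻¹) * k⁻¹ := by
        group
      rw [bmap_fl, e]
      exact cj_act h.2.2

theorem noMore_bmap {k : Equiv.Perm X} (hk : k ∈ G) (h : NoMore G β c) :
    NoMore G (bmap k β) c := by
  have aux : ∀ {i j}, (∀ g ∈ G, act g (β.fl false false) ≠ β.fl i j) →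
      ∀ g ∈ G, act g ((bmap k β).fl false false) ≠ (bmap k β).fl i j := by
    intro i j h g hg e
    rw [bmap_fl, bmap_fl] at e
    apply h (k⁻¹ * g * k) (G.mul_mem (G.mul_mem (G.inv_mem hk) hg) hk)
    rw [act_mul, act_mul, e, act_inv_act]
  cases c with
  | reg => trivial
  | c2 => exact ⟨aux h.1, aux h.2⟩
  | c20 => exact ⟨aux h.1, aux h.2⟩
  | c21 => exact ⟨aux h.1, aux h.2⟩
  | c22 => exact ⟨aux h.1, aux h.2⟩
  | c4a => exact ⟨aux h.1, aux h.2.1, aux h.2.2⟩
  | c4b => exact ⟨aux h.1, aux h.2.1, aux h.2.2⟩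

theorem isBase_bmap (hG : Acts G P) {k : Equiv.Perm X} (hk : k ∈ G) (h : IsBase P β) :
    IsBase P (bmap k β) := by
  obtain ⟨f₁, h1, f₂, h2, hne, c1, c2, c3, c4⟩ := h
  refine ⟨_, face_image hG hk h1, _, face_image hG hk h2,
    fun e => hne ((Sym2.map.injective k.injective).image_injective e), ?_, ?_, ?_, ?_⟩ <;>
    rw [bmap_fl]
  · exact c1.image k
  · exact c2.image k
  · exact c3.image k
  · exact c4.image k

/-! ### A base is determined by its first flag -/

theorem base_det (hP : P.IsPolyhedron) (hG : Acts G P) (hβ : IsBase P β) (hβ' : IsBase P β')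
    {i j : Bool} (h : β.fl false false = β'.fl i j) (a b : Bool) :
    β.fl a b = β'.fl (xor a i) (xor b j) := by
  obtain ⟨F, hF⟩ := hβ.exists_bf
  obtain ⟨F', hF'⟩ := hβ'.exists_bf
  have e1 : β.vx false = β'.vx i := by
    have := congrArg (·.1) h
    simpa only [Base.fl_fst] using this
  have e2 : β.vx true = β'.vx (!i) := by
    have := congrArg (·.2.1) h
    simpa only [Base.fl_snd, Bool.not_false] using this
  have f0 : F false = F' j := corner_face hP hG (hF.mem false) (hF'.mem j) (hF.cor false false)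
    (by rw [h]; exact hF'.cor i j)
  have f1 : F true = F' (!j) := by
    have he : s(β'.vx i, β'.vx (!i)) ∈ F true := by
      rw [← e1, ← e2]
      exact hF.edge false true
    rcases face_cases hP (hF'.mem j) (hF'.mem (!j)) (hF.mem true) (hF'.edge i j)
      (hF'.edge i (!j)) (hF'.ne_not j) he with h | h
    · exact absurd (f0.trans h.symm) hF.ne
    · exact h
  have fb : F b = F' (xor b j) := by
    cases b
    · simpa using f0
    · simpa using f1
  have va : β.vx a = β'.vx (xor a i) := by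
    cases a
    · simpa using e1
    · simpa using e2
  have va' : β.vx (!a) = β'.vx (!(xor a i)) := by
    cases a
    · simpa using e2
    · simpa using e1
  refine hF'.eq_fl hP ?_ ?_ ?_
  · rw [Base.fl_fst, va]
  · rw [Base.fl_snd, va']
  · rw [← fb]
    exact hF.cor a b

theorem noMore_shift (hP : P.IsPolyhedron) (hG : Acts G P) (hS : Semireg G P)
    (hβ' : IsBase P β') {i j : Bool} (hfl : ∀ a b, β.fl a b = β'.fl (xor a i) (xor b j))
    (h : NoMore G β' c) : NoMore G β c := by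
  have aux : ∀ {p q}, (∀ g ∈ G, act g (β'.fl false false) ≠ β'.fl p q) →
      ∀ g ∈ G, act g (β.fl false false) ≠ β.fl p q := by
    intro p q h g hg e
    rw [hfl, hfl] at e
    apply h g hg
    have h1 := act_base hP hG hS hβ' hg e false false
    rw [h1]
    cases i <;> cases j <;> cases p <;> cases q <;> rfl
  cases c with
  | reg => trivial
  | c2 => exact ⟨aux h.1, aux h.2⟩
  | c20 => exact ⟨aux h.1, aux h.2⟩
  | c21 => exact ⟨aux h.1, aux h.2⟩
  | c22 => exact ⟨aux h.1, aux h.2⟩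
  | c4a => exact ⟨aux h.1, aux h.2.1, aux h.2.2⟩
  | c4b => exact ⟨aux h.1, aux h.2.1, aux h.2.2⟩

/-- representatives of the base flags under the group -/
def Rep : Cls → Bool → Bool → Prop
  | .reg, i, j => i = false ∧ j = false
  | .c2, i, _ => i = false
  | .c20, i, _ => i = false
  | .c21, i, _ => i = false
  | .c22, _, j => j = false
  | .c4a, _, _ => True
  | .c4b, _, _ => True

/-- the action of an element on all base flags -/
theorem sh (hP : P.IsPolyhedron) (hG : Acts G P) (hS : Semireg G P) (hβ : IsBase P β)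
    {g : Equiv.Perm X} (hg : g ∈ G) {i j i' j' : Bool} (h : act g (β.fl i j) = β.fl i' j')
    (a b : Bool) {a' b' : Bool} (ha : xor a (xor i i') = a') (hb : xor b (xor j j') = b') :
    act g (β.fl a b) = β.fl a' b' := by
  rw [act_base hP hG hS hβ hg h a b, ha, hb]

theorem reach (hP : P.IsPolyhedron) (hG : Acts G P) (hS : Semireg G P) (hβ' : IsBase P β')
    (hA' : A' ∈ G) (hB' : B' ∈ G) (hs' : s' ∈ G) (hc' : Case β' c' A' B' s') (i j : Bool) :
    ∃ k ∈ G, ∃ i' j', Rep c' i' j' ∧ act k (β'.fl i j) = β'.fl i' j' := by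
  have triv : Rep c' i j → ∃ k ∈ G, ∃ i' j', Rep c' i' j' ∧ act k (β'.fl i j) = β'.fl i' j' :=
    fun h => ⟨1, G.one_mem, i, j, h, rfl⟩
  have sh' := fun {g : Equiv.Perm X} (hg : g ∈ G) {i j i' j' : Bool} h =>
    sh hP hG hS hβ' hg (i := i) (j := j) (i' := i') (j' := j') h
  cases c' with
  | reg =>
    obtain ⟨h1, -, h3⟩ := hc'
    cases i <;> cases j
    · exact triv ⟨rfl, rfl⟩
    · exact ⟨B', hB', _, _, ⟨rfl, rfl⟩, sh' hB' h3 _ _ rfl rfl⟩
    · exact ⟨s', hs', _, _, ⟨rfl, rfl⟩, sh' hs' h1 _ _ rfl rfl⟩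
    · refine ⟨B' * s', G.mul_mem hB' hs', _, _, ⟨rfl, rfl⟩, ?_⟩
      rw [act_mul, sh' hs' h1 true true rfl rfl]
      exact sh' hB' h3 _ _ rfl rfl
  | c2 =>
    obtain ⟨-, h2, -⟩ := hc'
    cases i
    · exact triv rfl
    · exact ⟨s', hs', _, _, rfl, sh' hs' h2 _ j rfl rfl⟩
  | c20 =>
    obtain ⟨-, h2, -⟩ := hc'
    cases i
    · exact triv rfl
    · exact ⟨s', hs', _, _, rfl, sh' hs' h2 _ j rfl rfl⟩
  | c21 =>
    obtain ⟨h2, -, -⟩ := hc'
    cases i
    · exact triv rfl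
    · exact ⟨s', hs', _, _, rfl, sh' hs' h2 _ j rfl rfl⟩
  | c22 =>
    obtain ⟨-, h2, -⟩ := hc'
    cases j
    · exact triv rfl
    · exact ⟨A', hA', _, _, rfl, sh' hA' h2 i _ rfl rfl⟩
  | c4a => exact triv trivial
  | c4b => exact triv trivial

theorem inv_swp {g : Equiv.Perm X} {t u : X × X × X} (h : act g t = swp u) :
    act g⁻¹ u = swp t := by
  apply inv_act_eq
  rw [act_swp, h, swp_swp]

theorem swp_out {g : Equiv.Perm X} {t u : X × X × X} (h : act g (swp t) = u) :
    act g t = swp u := by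
  rw [← h, act_swp, swp_swp]

theorem swp_in {g : Equiv.Perm X} {t u : X × X × X} (h : act g t = swp u) :
    act g (swp t) = u := by
  rw [act_swp, h, swp_swp]

theorem rep (hP : P.IsPolyhedron) (hG : Acts G P) (hS : Semireg G P) (hβ : IsBase P β)
    (hβ' : IsBase P β') (hA : A ∈ G) (hB : B ∈ G) (hs : s ∈ G) (hA' : A' ∈ G) (hB' : B' ∈ G)
    (hs' : s' ∈ G) (hc : Case β c A B s) (hn : NoMore G β c) (hc' : Case β' c' A' B' s')
    (hn' : NoMore G β' c') {i j : Bool} (hr : Rep c' i j) (h0 : β.fl false false = β'.fl i j) :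
    c = c' ∧ ∃ g ∈ G, g β.o = β'.o ∧
      cnj3 g (A, B, s) ∈ (A', B', s') :: others c' A' B' s' := by
  have hfl := base_det hP hG hβ hβ' h0
  have hnβ := noMore_shift hP hG hS hβ' hfl hn'
  have ho : β.o = β'.vx i := by
    have : β.vx false = β'.vx i := by
      have := congrArg (·.1) h0
      simpa only [Base.fl_fst] using this
    exact this
  have fin : ∀ (A₁ B₁ s₁ g : Equiv.Perm X), A₁ ∈ G → B₁ ∈ G → s₁ ∈ G → g ∈ G →
      Case β c' A₁ B₁ s₁ → g β.o = β'.o →
      cnj3 g (A₁, B₁, s₁) ∈ (A', B', s') :: others c' A' B' s' →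
      c = c' ∧ ∃ g ∈ G, g β.o = β'.o ∧
        cnj3 g (A, B, s) ∈ (A', B', s') :: others c' A' B' s' := by
    intro A₁ B₁ s₁ g hA₁ hB₁ hs₁ hg hca hgo hmem
    obtain ⟨e, e1, e2, e3⟩ := uniq_case hP hG hS hβ hA hB hs hA₁ hB₁ hs₁ hc hn hca hnβ
    exact ⟨e, g, hg, hgo, by rw [e1, e2, e3]; exact hmem⟩
  have one : ∀ T : Equiv.Perm X × Equiv.Perm X × Equiv.Perm X, cnj3 1 T = T := by
    rintro ⟨a, b, c⟩
    simp [cnj3]
  have sh' := fun {g : Equiv.Perm X} (hg : g ∈ G) {i j i' j' : Bool} h =>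
    sh hP hG hS hβ' hg (i := i) (j := j) (i' := i') (j' := j') h
  -- the first flags are equal
  have first : i = false → j = false → c = c' ∧ ∃ g ∈ G, g β.o = β'.o ∧
      cnj3 g (A, B, s) ∈ (A', B', s') :: others c' A' B' s' := by
    rintro rfl rfl
    have hfl' : ∀ a b, β.fl a b = β'.fl a b := by
      intro a b
      rw [hfl, Bool.xor_false, Bool.xor_false]
    refine fin A' B' s' 1 hA' hB' hs' G.one_mem ?_ ho ?_
    · cases c' <;> simpa only [Case, hfl'] using hc'
    · rw [one]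
      exact List.mem_cons_self
  cases c' with
  | reg => exact first hr.1 hr.2
  | c2 =>
    obtain rfl : i = false := hr
    cases j
    · exact first rfl rfl
    · obtain ⟨h1, h2, h3⟩ := hc'
      refine fin A'⁻¹ 1 s' 1 (G.inv_mem hA') G.one_mem hs' G.one_mem ⟨rfl, ?_, ?_⟩ ho ?_
      · rw [hfl, hfl]
        exact sh' hs' h2 _ _ rfl rfl
      · rw [hfl, hfl]
        exact inv_swp h3
      · rw [one, h1]
        simp [others]
  | c20 =>
    obtain rfl : i = false := hr
    cases j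
    · exact first rfl rfl
    · obtain ⟨h1, h2, h3⟩ := hc'
      refine fin A'⁻¹ 1 s' 1 (G.inv_mem hA') G.one_mem hs' G.one_mem ⟨rfl, ?_, ?_⟩ ho ?_
      · rw [hfl, hfl]
        exact sh' hs' h2 _ _ rfl rfl
      · rw [hfl, hfl]
        exact inv_swp h3
      · rw [one, h1]
        simp [others]
  | c21 =>
    obtain rfl : i = false := hr
    cases j
    · exact first rfl rfl
    · obtain ⟨h1, h2, h3⟩ := hc'
      refine fin B' A' s' 1 hB' hA' hs' G.one_mem ⟨?_, ?_, ?_⟩ ho ?_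
      · rw [hfl, hfl]
        exact sh' hs' h1 _ _ rfl rfl
      · rw [hfl]
        exact h3
      · rw [hfl]
        exact h2
      · rw [one]
        simp [others]
  | c22 =>
    obtain rfl : j = false := hr
    cases i
    · exact first rfl rfl
    · obtain ⟨h1, h2, h3⟩ := hc'
      have hso : s' β'.o = β'.w := congrArg (·.1) h3
      refine fin A' (s' * A' * s'⁻¹) s'⁻¹ s'⁻¹ hA' (G.mul_mem (G.mul_mem hs' hA') (G.inv_mem hs'))
        (G.inv_mem hs') (G.inv_mem hs') ⟨?_, ?_, ?_⟩ ?_ ?_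
      · rw [inv_inv]
      · rw [hfl, hfl]
        exact sh' hA' h2 _ _ rfl rfl
      · rw [hfl, hfl]
        apply inv_act_eq
        exact swp_out h3
      · rw [ho]
        change s'⁻¹ β'.w = β'.o
        rw [← hso, inv_apply']
      · have e : cnj3 s'⁻¹ (A', s' * A' * s'⁻¹, s'⁻¹) = (B', A', s'⁻¹) := by
          unfold cnj3
          rw [h1]
          refine Prod.ext ?_ (Prod.ext ?_ ?_) <;> simp only <;> group
        rw [e]
        simp [others]
  | c4a =>
    obtain ⟨h1, h2, h3⟩ := hc'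
    have hso : s' β'.o = β'.w := congrArg (·.1) h2
    have hgo : i = true → s'⁻¹ β.o = β'.o := by
      rintro rfl
      rw [ho]
      change s'⁻¹ β'.w = β'.o
      rw [← hso, inv_apply']
    cases i <;> cases j
    · exact first rfl rfl
    · refine fin A'⁻¹ 1 (s' * A') 1 (G.inv_mem hA') G.one_mem (G.mul_mem hs' hA') G.one_mem
        ⟨rfl, ?_, ?_⟩ ho ?_
      · rw [hfl, hfl]
        exact swp_in h3
      · rw [hfl, hfl, mul_inv_cancel_right]
        exact swp_out h2
      · rw [one, h1]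
        simp [others]
    · refine fin (s' * A' * s'⁻¹) 1 (A'⁻¹ * s'⁻¹) s'⁻¹
        (G.mul_mem (G.mul_mem hs' hA') (G.inv_mem hs')) G.one_mem
        (G.mul_mem (G.inv_mem hA') (G.inv_mem hs')) (G.inv_mem hs') ⟨rfl, ?_, ?_⟩ (hgo rfl) ?_
      · rw [hfl, hfl, ← mul_inv_rev]
        exact inv_act_eq h3
      · have e : A'⁻¹ * s'⁻¹ * (s' * A' * s'⁻¹) = s'⁻¹ := by group
        rw [hfl, hfl, e]
        exact inv_act_eq h2
      · have e : cnj3 s'⁻¹ (s' * A' * s'⁻¹, 1, A'⁻¹ * s'⁻¹) = (A', B', s'⁻¹ * A'⁻¹) := by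
          unfold cnj3
          rw [h1]
          refine Prod.ext ?_ (Prod.ext ?_ ?_) <;> simp only <;> group
        rw [e]
        simp [others]
    · refine fin (s' * A'⁻¹ * s'⁻¹) 1 s'⁻¹ s'⁻¹
        (G.mul_mem (G.mul_mem hs' (G.inv_mem hA')) (G.inv_mem hs')) G.one_mem
        (G.inv_mem hs') (G.inv_mem hs') ⟨rfl, ?_, ?_⟩ (hgo rfl) ?_
      · rw [hfl, hfl]
        exact inv_act_eq (swp_out h2)
      · have e : s'⁻¹ * (s' * A'⁻¹ * s'⁻¹) = (s' * A')⁻¹ := by group
        rw [hfl, hfl, e]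
        exact inv_swp h3
      · have e : cnj3 s'⁻¹ (s' * A'⁻¹ * s'⁻¹, 1, s'⁻¹) = (A'⁻¹, B', s'⁻¹) := by
          unfold cnj3
          rw [h1]
          refine Prod.ext ?_ (Prod.ext ?_ ?_) <;> simp only <;> group
        rw [e]
        simp [others]
  | c4b =>
    obtain ⟨h1, h2, h3⟩ := hc'
    have hso : s' β'.o = β'.w := congrArg (·.1) h2
    have hgo : i = true → s'⁻¹ β.o = β'.o := by
      rintro rfl
      rw [ho]
      change s'⁻¹ β'.w = β'.o
      rw [← hso, inv_apply']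
    -- no relations for `β`
    have bad : T G β false true false true → T G β false false true true → False := by
      intro t1 t2
      obtain ⟨p1, p2, p3⟩ := rels hP hG hS hβ hA hB hs hc hn
      obtain ⟨n1, n2, n3⟩ := hnβ
      have q1 : ¬ R G β false false false true := by rintro ⟨g, hg, e⟩; exact n1 g hg e
      have q2 : ¬ R G β false false true false := by rintro ⟨g, hg, e⟩; exact n2 g hg e
      have q3 : ¬ R G β false false true true := by rintro ⟨g, hg, e⟩; exact n3 g hg e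
      rw [p1] at q1
      rw [p2] at q2
      rw [p3] at q3
      cases c with
      | reg => exact q1 (by decide)
      | c2 => exact q3 (by decide)
      | c20 => exact q2 (by decide)
      | c21 => exact q3 (by decide)
      | c22 => exact q1 (by decide)
      | c4a =>
        have t3 : T G β true false false true := T_of (G.mul_mem hs hA) hc.2.2
        obtain ⟨g, hg, e⟩ := t1.uniq t3.symm
        have := sh hP hG hS hβ hg e false false (a' := true) (b' := true) rfl rfl
        exact n3 g hg this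
      | c4b =>
        have t3 : T G β false false false false := T_of hA hc.1
        obtain ⟨g, hg, e⟩ := t3.uniq t2
        exact n3 g hg e
    cases i <;> cases j
    · exact first rfl rfl
    · exfalso
      apply bad
      · refine ⟨A'⁻¹, G.inv_mem hA', ?_⟩
        rw [hfl]
        exact inv_act_eq h1
      · refine ⟨s', hs', ?_⟩
        rw [hfl, hfl]
        exact swp_in h2
    · exfalso
      apply bad
      · refine ⟨(s' * B' * s'⁻¹)⁻¹, G.inv_mem (G.mul_mem (G.mul_mem hs' hB') (G.inv_mem hs')), ?_⟩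
        rw [hfl]
        exact inv_act_eq h3
      · refine ⟨s'⁻¹, G.inv_mem hs', ?_⟩
        rw [hfl, hfl]
        exact inv_act_eq h2
    · refine fin (s' * B' * s'⁻¹) (s' * A' * s'⁻¹) s'⁻¹ s'⁻¹
        (G.mul_mem (G.mul_mem hs' hB') (G.inv_mem hs'))
        (G.mul_mem (G.mul_mem hs' hA') (G.inv_mem hs'))
        (G.inv_mem hs') (G.inv_mem hs') ⟨?_, ?_, ?_⟩ (hgo rfl) ?_
      · rw [hfl]
        exact h3
      · rw [hfl, hfl]
        exact inv_swp h2
      · have e : s'⁻¹ * (s' * A' * s'⁻¹) * s'⁻¹⁻¹ = A' := by group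
        rw [hfl, e]
        exact h1
      · have e : cnj3 s'⁻¹ (s' * B' * s'⁻¹, s' * A' * s'⁻¹, s'⁻¹) = (B', A', s'⁻¹) := by
          unfold cnj3
          refine Prod.ext ?_ (Prod.ext ?_ ?_) <;> simp only <;> group
        rw [e]
        simp [others]

theorem cnj3_mul (g k : Equiv.Perm X) (T : Equiv.Perm X × Equiv.Perm X × Equiv.Perm X) :
    cnj3 g (cnj3 k T) = cnj3 (g * k) T := by
  unfold cnj3
  refine Prod.ext ?_ (Prod.ext ?_ ?_) <;> simp only <;> group

theorem main (hP : P.IsPolyhedron) (hG : Acts G P) (hS : Semireg G P) (hβ : IsBase P β)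
    (hβ' : IsBase P β') (hA : A ∈ G) (hB : B ∈ G) (hs : s ∈ G) (hA' : A' ∈ G) (hB' : B' ∈ G)
    (hs' : s' ∈ G) (hc : Case β c A B s) (hn : NoMore G β c) (hc' : Case β' c' A' B' s')
    (hn' : NoMore G β' c') :
    c = c' ∧ ∃ g ∈ G, g β.o = β'.o ∧
      cnj3 g (A, B, s) ∈ (A', B', s') :: others c' A' B' s' := by
  obtain ⟨g, hg, i, j, hfl⟩ := corner_of_base hP hG hS hβ' (hβ.corner false false)
  obtain ⟨k, hk, i', j', hr, hkl⟩ := reach hP hG hS hβ' hA' hB' hs' hc' i j
  have hm : k * g⁻¹ ∈ G := G.mul_mem hk (G.inv_mem hg)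
  have h0 : (bmap (k * g⁻¹) β).fl false false = β'.fl i' j' := by
    rw [bmap_fl, hfl, act_mul, act_inv_act, hkl]
  have cj : ∀ {x}, x ∈ G → k * g⁻¹ * x * (k * g⁻¹)⁻¹ ∈ G := fun hx =>
    G.mul_mem (G.mul_mem hm hx) (G.inv_mem hm)
  obtain ⟨e, m, hmG, ho, hmem⟩ := rep hP hG hS (isBase_bmap hG hm hβ) hβ' (cj hA) (cj hB) (cj hs)
    hA' hB' hs' (case_bmap _ hc) (noMore_bmap hm hn) hc' hn' hr h0
  refine ⟨e, m * (k * g⁻¹), G.mul_mem hmG hm, ho, ?_⟩
  rw [← cnj3_mul]
  exact hmem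

end Uniq

/-- the two configurations are images of each other -/
theorem uniq {c c' : Cls} {A B s A' B' s' : Equiv.Perm X} {o o' : X} (h : Good c A B s o)
    (h' : Good c' A' B' s' o') {f : Equiv.Perm X}
    (hf : (cfg c A B s o).map f = cfg c' A' B' s' o')
    (hg : ∀ g, g ∈ grp A B s ↔ f * g * f⁻¹ ∈ grp A' B' s') :
    c = c' ∧ ∃ g ∈ grp A' B' s', (g * f) o = o' ∧
      cnj3 (g * f) (A, B, s) ∈ (A', B', s') :: others c' A' B' s' := by
  obtain ⟨hP, hG⟩ := conv h'
  have hS := good_semireg h'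
  obtain ⟨hβ', hc', hn'⟩ := good_case h'
  obtain ⟨hβ, hc, hn⟩ := good_case (good_cnj f h)
  rw [cfg_cnj, hf] at hβ
  have hgrp : grp (f * A * f⁻¹) (f * B * f⁻¹) (f * s * f⁻¹) = grp A' B' s' := by
    ext x
    rw [grp_cnj]
    constructor
    · rintro ⟨g, hgm, rfl⟩
      exact (hg g).1 hgm
    · intro hx
      refine ⟨f⁻¹ * x * f, (hg _).2 ?_, ?_⟩
      · have : f * (f⁻¹ * x * f) * f⁻¹ = x := by group
        rwa [this]
      · change f * (f⁻¹ * x * f) * f⁻¹ = x
        group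
  rw [hgrp] at hn
  have hm : ∀ {x}, x ∈ grp A B s → f * x * f⁻¹ ∈ grp A' B' s' := fun hx => (hg _).1 hx
  have a1 : ∀ {A B s : Equiv.Perm X}, A ∈ grp A B s := Subgroup.subset_closure (by simp)
  have a2 : ∀ {A B s : Equiv.Perm X}, B ∈ grp A B s := Subgroup.subset_closure (by simp)
  have a3 : ∀ {A B s : Equiv.Perm X}, s ∈ grp A B s := Subgroup.subset_closure (by simp)
  obtain ⟨e, g, hgm, ho, hmem⟩ := Uniq.main hP hG hS hβ hβ' (hm a1) (hm a2) (hm a3) a1 a2 a3 hc hn
    hc' hn'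
  rw [GoodCase.canon_o, GoodCase.canon_o] at ho
  refine ⟨e, g, hgm, ho, ?_⟩
  rw [← Uniq.cnj3_mul]
  exact hmem

end Pool.Agent.H21.FT
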