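import Pool.Agent.H21.FT.Others
import Pool.Agent.H21.FT.Uniq
import Pool.Agent.H21.FT.FullIff
import Pool.Agent.H21.FT.Cnj
import Pool.Agent.H21.FT.Reduction
import Pool.Agent.H21.FT.Realize

/-!
# The symmetry group of an item and the similarity of items
-/

namespace Pool.Agent.H21.FT

open Matrix
open Pool.Agent.H38.FT (Cfg E3 Similar)
open Pool.Agent.H59.FT (exists_matrix)

namespace SymItem

/-- Images under an injective map determine the configuration. -/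
theorem map_inj {X Y : Type*} {φ : X → Y} (hφ : Function.Injective φ) {P Q : Cfg X}
    (h : P.map φ = Q.map φ) : P = Q := by
  have h1 := Sym2.map.injective hφ
  have h2 : Function.Injective (fun f : Set (Sym2 X) => Sym2.map φ '' f) :=
    Set.image_injective.2 h1
  rcases P with ⟨V, E, F⟩
  rcases Q with ⟨V', E', F'⟩
  simp only [Cfg.map, Cfg.mk.injEq] at h
  obtain ⟨hV, hE, hF⟩ := h
  rw [Set.image_injective.2 hφ hV, Set.image_injective.2 h1 hE, Set.image_injective.2 h2 hF]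

theorem map_perm_mul {X : Type*} (P : Cfg X) (g k : Equiv.Perm X) :
    P.map (g * k : Equiv.Perm X) = (P.map k).map g := by
  rw [Cfg.map_map]
  rfl

theorem map_perm_inv {X : Type*} {P Q : Cfg X} {g : Equiv.Perm X} (h : P.map g = Q) :
    Q.map (g⁻¹ : Equiv.Perm X) = P := by
  rw [← h, ← map_perm_mul, inv_mul_cancel]
  exact Cfg.map_id' P

theorem aff_mul {g k : Equiv.Perm V3} {M N : M3} {a b : V3} (hg : IsAff g M a)
    (hk : IsAff k N b) : IsAff (g * k) (M * N) (M *ᵥ b + a) := by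
  intro x
  rw [Equiv.Perm.mul_apply, hk, hg, mulVec_add, mulVec_mulVec, add_assoc]

theorem aff_inv {g : Equiv.Perm V3} {M N : M3} {a : V3} (hg : IsAff g M a) (hMN : M * N = 1) :
    IsAff g⁻¹ N (-(N *ᵥ a)) := by
  intro x
  rw [Equiv.Perm.inv_eq_iff_eq, hg, mulVec_add, mulVec_neg, mulVec_mulVec, mulVec_mulVec, hMN,
    one_mulVec, one_mulVec, neg_add_cancel_right]

variable {F F' : M3}

theorem conj_one (hF : F.det ≠ 0) : F * 1 * F⁻¹ = 1 := by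
  rw [mul_one, Realize.mul_inv hF]

/-- `(F' M F⁻¹) (F N G⁻¹) = F' (M N) G⁻¹`. -/
theorem conj_mul (hF : F.det ≠ 0) (G H M N : M3) :
    (H * M * F⁻¹) * (F * N * G⁻¹) = H * (M * N) * G⁻¹ := by
  have h := Realize.inv_mul hF
  calc (H * M * F⁻¹) * (F * N * G⁻¹) = H * M * (F⁻¹ * F) * N * G⁻¹ := by
        simp only [Matrix.mul_assoc]
    _ = H * (M * N) * G⁻¹ := by rw [h, mul_one]; simp only [Matrix.mul_assoc]

theorem orthF_one (hF : F.det ≠ 0) : OrthF F 1 := by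
  unfold OrthF
  rw [conj_one hF]
  simp

theorem orthF_mul (hF : F.det ≠ 0) {M N : M3} (hM : OrthF F M) (hN : OrthF F N) :
    OrthF F (M * N) := by
  unfold OrthF at *
  rw [← conj_mul hF F F M N, transpose_mul, Matrix.mul_assoc, ← Matrix.mul_assoc _ _ (F * N * F⁻¹),
    hM, Matrix.one_mul, hN]

/-- A matrix that is a similarity with respect to two frames is invertible, and the inverse is a
similarity. -/
theorem sim_inv (hF : F.det ≠ 0) (hF' : F'.det ≠ 0) {M : M3} {r : ℝ} (hr : 0 < r)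
    (hM : (F' * M * F⁻¹)ᵀ * (F' * M * F⁻¹) = r • (1 : M3)) :
    ∃ N : M3, M * N = 1 ∧ N * M = 1 ∧
      (F * N * F'⁻¹)ᵀ * (F * N * F'⁻¹) = r⁻¹ • (1 : M3) ∧
      F * N * F'⁻¹ = r⁻¹ • (F' * M * F⁻¹)ᵀ := by
  set W : M3 := F' * M * F⁻¹ with hW
  have hWW : (r⁻¹ • Wᵀ) * W = 1 := by
    rw [smul_mul_assoc, hM, smul_smul, inv_mul_cancel₀ hr.ne', one_smul]
  have hWW' : W * (r⁻¹ • Wᵀ) = 1 := mul_eq_one_comm.1 hWW
  have hMW : M = F'⁻¹ * W * F := by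
    rw [hW]
    calc M = (F'⁻¹ * F') * M * (F⁻¹ * F) := by
          rw [Realize.inv_mul hF, Realize.inv_mul hF', one_mul, mul_one]
      _ = F'⁻¹ * (F' * M * F⁻¹) * F := by simp only [Matrix.mul_assoc]
  refine ⟨F⁻¹ * (r⁻¹ • Wᵀ) * F', ?_, ?_, ?_, ?_⟩
  · calc M * (F⁻¹ * (r⁻¹ • Wᵀ) * F') = F'⁻¹ * W * (F * F⁻¹) * (r⁻¹ • Wᵀ) * F' := by
          rw [hMW]; simp only [Matrix.mul_assoc]
      _ = F'⁻¹ * (W * (r⁻¹ • Wᵀ)) * F' := by
          rw [Realize.mul_inv hF, mul_one]; simp only [Matrix.mul_assoc]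
      _ = 1 := by rw [hWW', mul_one, Realize.inv_mul hF']
  · calc (F⁻¹ * (r⁻¹ • Wᵀ) * F') * M = F⁻¹ * (r⁻¹ • Wᵀ) * (F' * F'⁻¹) * W * F := by
          rw [hMW]; simp only [Matrix.mul_assoc]
      _ = F⁻¹ * ((r⁻¹ • Wᵀ) * W) * F := by
          rw [Realize.mul_inv hF', mul_one]; simp only [Matrix.mul_assoc]
      _ = 1 := by rw [hWW, mul_one, Realize.inv_mul hF]
  · have h1 : F * (F⁻¹ * (r⁻¹ • Wᵀ) * F') * F'⁻¹ = r⁻¹ • Wᵀ := by
      calc F * (F⁻¹ * (r⁻¹ • Wᵀ) * F') * F'⁻¹ = (F * F⁻¹) * (r⁻¹ • Wᵀ) * (F' * F'⁻¹) := by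
            simp only [Matrix.mul_assoc]
        _ = r⁻¹ • Wᵀ := by rw [Realize.mul_inv hF, Realize.mul_inv hF', one_mul, mul_one]
    rw [h1, transpose_smul, transpose_transpose, smul_mul_assoc, hWW']
  · calc F * (F⁻¹ * (r⁻¹ • Wᵀ) * F') * F'⁻¹ = (F * F⁻¹) * (r⁻¹ • Wᵀ) * (F' * F'⁻¹) := by
          simp only [Matrix.mul_assoc]
      _ = r⁻¹ • Wᵀ := by rw [Realize.mul_inv hF, Realize.mul_inv hF', one_mul, mul_one]

theorem orthF_inv (hF : F.det ≠ 0) {M : M3} (hM : OrthF F M) :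
    ∃ N : M3, M * N = 1 ∧ N * M = 1 ∧ OrthF F N := by
  obtain ⟨N, h1, h2, h3, -⟩ := sim_inv (F := F) (F' := F) hF hF (M := M) one_pos
    (by rw [one_smul]; exact hM)
  exact ⟨N, h1, h2, by unfold OrthF; rw [h3, inv_one, one_smul]⟩

/-- The conjugate of an isometry by a similarity is an isometry. -/
theorem orthF_conj (hF : F.det ≠ 0) (hF' : F'.det ≠ 0) {M N K : M3} {r : ℝ} (hr : 0 < r)
    (hM : (F' * M * F⁻¹)ᵀ * (F' * M * F⁻¹) = r • (1 : M3)) (hK : OrthF F K)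
    (hMN : M * N = 1) : OrthF F' (M * K * N) := by
  obtain ⟨N', h1, h2, h3, h4⟩ := sim_inv hF hF' hr hM
  have hN : N = N' := by
    calc N = (N' * M) * N := by rw [h2, one_mul]
      _ = N' := by rw [mul_assoc, hMN, mul_one]
  subst hN
  unfold OrthF at *
  have e : F' * (M * K * N) * F'⁻¹ = (F' * M * F⁻¹) * (F * K * F⁻¹) * (F * N * F'⁻¹) := by
    rw [conj_mul hF, conj_mul hF]
  rw [e, transpose_mul (F' * M * F⁻¹ * (F * K * F⁻¹)) (F * N * F'⁻¹),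
    transpose_mul (F' * M * F⁻¹) (F * K * F⁻¹)]
  calc (F * N * F'⁻¹)ᵀ * ((F * K * F⁻¹)ᵀ * (F' * M * F⁻¹)ᵀ) *
        ((F' * M * F⁻¹) * (F * K * F⁻¹) * (F * N * F'⁻¹))
      = (F * N * F'⁻¹)ᵀ * ((F * K * F⁻¹)ᵀ * ((F' * M * F⁻¹)ᵀ * (F' * M * F⁻¹)) *
        (F * K * F⁻¹)) * (F * N * F'⁻¹) := by simp only [Matrix.mul_assoc]
    _ = r • ((F * N * F'⁻¹)ᵀ * ((F * K * F⁻¹)ᵀ * (F * K * F⁻¹)) * (F * N * F'⁻¹)) := by
        rw [hM]
        simp only [Matrix.mul_smul, Matrix.smul_mul, mul_one]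
    _ = r • (r⁻¹ • (1 : M3)) := by rw [hK, mul_one, h3]
    _ = 1 := by rw [smul_smul, mul_inv_cancel₀ hr.ne', one_smul]

/-- The group of the affine maps that are isometries with respect to the frame and map `Q` to
itself. -/
def symGrp (hF : F.det ≠ 0) (Q : Cfg V3) : Subgroup (Equiv.Perm V3) where
  carrier := {g | (∃ M a, IsAff g M a ∧ OrthF F M) ∧ Q.map g = Q}
  one_mem' := ⟨⟨1, 0, fun x => by simp, orthF_one hF⟩, Cfg.map_id' Q⟩
  mul_mem' := by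
    rintro g k ⟨⟨M, a, hg, hM⟩, hgQ⟩ ⟨⟨N, b, hk, hN⟩, hkQ⟩
    refine ⟨⟨_, _, aff_mul hg hk, orthF_mul hF hM hN⟩, ?_⟩
    rw [map_perm_mul, hkQ, hgQ]
  inv_mem' := by
    rintro g ⟨⟨M, a, hg, hM⟩, hgQ⟩
    obtain ⟨N, h1, -, h3⟩ := orthF_inv hF hM
    exact ⟨⟨N, _, aff_inv hg h1, h3⟩, map_perm_inv hgQ⟩

theorem semireg_symGrp (hF : F.det ≠ 0) {Q : Cfg V3} (hP : Q.IsPolyhedron) (hV : Spans Q.V)
    (h0 : (0 : V3) ∈ Q.V) : Semireg (symGrp hF Q) Q := by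
  rintro g ⟨⟨M, a, hg, hM⟩, hgQ⟩ x y f hf hxy hgx hgy hgf
  have hE : s(x, y) ∈ Q.E := hP.face_sub hf hxy
  have hA : Q.IsFlag (x, s(x, y), f) := ⟨hP.left_mem hE, hE, hf, Sym2.mem_mk_left x y, hxy⟩
  have hfix : ∀ z ∈ Q.V, g z = z := by
    intro z hz
    obtain ⟨e, he, hze⟩ := hP.vertex z hz
    obtain ⟨f', -, -, hf', -, hef', -, -⟩ := hP.two_faces he
    exact fix_flags hP hgQ hA (B := (z, e, f')) ⟨hz, he, hf', hze, hef'⟩ hgx
      (by show Sym2.map g s(x, y) = s(x, y); rw [Sym2.map_mk, hgx, hgy]) hgf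
  have ha : a = 0 := by
    have := hfix 0 h0
    rwa [hg, Matrix.mulVec_zero, zero_add] at this
  have hM1 : M = 1 := by
    refine mat_eq_of_spans hV ?_
    intro z hz
    have := hfix z hz
    rw [hg, ha, add_zero] at this
    rw [this, Matrix.one_mulVec]
  ext1 z
  rw [hg, hM1, ha, Matrix.one_mulVec, add_zero]
  rfl

/-- Conjugation by a similarity that maps `P` to `P'`. -/
theorem conj_sym (hF : F.det ≠ 0) (hF' : F'.det ≠ 0) {P P' : Cfg V3} {f : Equiv.Perm V3}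
    {M : M3} {a : V3} {r : ℝ} (hf : IsAff f M a) (hr : 0 < r)
    (hM : (F' * M * F⁻¹)ᵀ * (F' * M * F⁻¹) = r • (1 : M3)) (hP : P.map f = P')
    {g : Equiv.Perm V3} (hg : ∃ K b, IsAff g K b ∧ OrthF F K) (hgP : P.map g = P) :
    (∃ K b, IsAff (f * g * f⁻¹) K b ∧ OrthF F' K) ∧ P'.map (f * g * f⁻¹ : Equiv.Perm V3) = P' := by
  obtain ⟨K, b, hK, hK'⟩ := hg
  obtain ⟨N, h1, -, -, -⟩ := sim_inv hF hF' hr hM
  refine ⟨⟨_, _, aff_mul (aff_mul hf hK) (aff_inv hf h1), orthF_conj hF hF' hr hM hK' h1⟩, ?_⟩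
  rw [map_perm_mul, map_perm_inv hP, map_perm_mul, hgP, hP]

end SymItem

open SymItem

theorem full_sym {c : Cls} {A B s : Equiv.Perm V3} {F : M3} (hF : F.det ≠ 0)
    (h : Good c A B s 0) (hsp : Spans (cfg c A B s 0).V)
    (hiso : ∀ g ∈ grp A B s, ∃ M a, IsAff g M a ∧ OrthF F M) :
    Full c F A B s ↔ ∀ (g : Equiv.Perm V3) (M : M3) (a : V3), IsAff g M a → OrthF F M →
      (cfg c A B s 0).map g = cfg c A B s 0 → g ∈ grp A B s := by
  obtain ⟨hP, hA⟩ := conv h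
  have h0 : (0 : V3) ∈ (cfg c A B s 0).V := ⟨1, Subgroup.one_mem _, rfl⟩
  have hle : grp A B s ≤ symGrp hF (cfg c A B s 0) := by
    intro g hg
    exact ⟨hiso g hg, hA.sym g hg⟩
  have hiff := full_iff h hle (fun g hg => hg.2) (semireg_symGrp hF hP hsp h0)
  constructor
  · intro hfull g M a hg hM hgP
    refine hiff.2 ?_ g ⟨⟨M, a, hg, hM⟩, hgP⟩
    rintro k ⟨⟨N, b, hk, hN⟩, -⟩ hk0
    have hb : b = 0 := by
      have := hk 0
      rw [mulVec_zero, zero_add, hk0] at this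
      exact this.symm
    subst hb
    exact hfull k N hk hN
  · intro hall σ M hσ hM hT
    have hσ0 : σ 0 = 0 := by rw [hσ 0, mulVec_zero, zero_add]
    have hmem : σ ∈ symGrp hF (cfg c A B s 0) := by
      refine ⟨⟨M, 0, hσ, hM⟩, ?_⟩
      have h1 := cfg_cnj c σ A B s 0
      rw [hσ0] at h1
      rw [← h1]
      exact (others_spec h.hA h.hB h.rel hT).1
    refine hiff.1 ?_ σ hmem hσ0 hT
    rintro g ⟨⟨N, b, hg, hN⟩, hgP⟩
    exact hall g N b hg hN hgP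

theorem sym_item {c : Cls} {A B s : Equiv.Perm V3} {F : M3} (hF : F.det ≠ 0)
    (h : Good c A B s 0) (hsp : Spans (cfg c A B s 0).V)
    (hiso : ∀ g ∈ grp A B s, ∃ M a, IsAff g M a ∧ OrthF F M) (hfull : Full c F A B s)
    (g : E3 ≃ᵢ E3) :
    ((cfg c A B s 0).map (fun x => (WithLp.toLp 2 (F *ᵥ x) : E3))).map g =
      (cfg c A B s 0).map (fun x => (WithLp.toLp 2 (F *ᵥ x) : E3)) ↔
    ∃ k ∈ grp A B s, ∀ x : V3, g (WithLp.toLp 2 (F *ᵥ x)) = (WithLp.toLp 2 (F *ᵥ k x) : E3) := by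
  obtain ⟨hP, hA⟩ := conv h
  set φ : V3 → E3 := fun x => WithLp.toLp 2 (F *ᵥ x) with hφ
  constructor
  · intro hg
    obtain ⟨U, hU, hgU⟩ := exists_matrix g
    have hcan : ∀ x : V3, F⁻¹ *ᵥ (F *ᵥ x) = x := fun x => by
      rw [mulVec_mulVec, Realize.inv_mul hF, one_mulVec]
    have hcan' : ∀ x : V3, F *ᵥ (F⁻¹ *ᵥ x) = x := fun x => by
      rw [mulVec_mulVec, Realize.mul_inv hF, one_mulVec]
    let k : Equiv.Perm V3 :=
      { toFun := fun x => F⁻¹ *ᵥ WithLp.ofLp (g (WithLp.toLp 2 (F *ᵥ x)))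
        invFun := fun x => F⁻¹ *ᵥ WithLp.ofLp (g.symm (WithLp.toLp 2 (F *ᵥ x)))
        left_inv := fun x => by
          change F⁻¹ *ᵥ WithLp.ofLp (g.symm (WithLp.toLp 2 (F *ᵥ (F⁻¹ *ᵥ
            WithLp.ofLp (g (WithLp.toLp 2 (F *ᵥ x))))))) = x
          rw [hcan', WithLp.toLp_ofLp, IsometryEquiv.symm_apply_apply]
          exact hcan x
        right_inv := fun x => by
          change F⁻¹ *ᵥ WithLp.ofLp (g (WithLp.toLp 2 (F *ᵥ (F⁻¹ *ᵥ
            WithLp.ofLp (g.symm (WithLp.toLp 2 (F *ᵥ x))))))) = x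
          rw [hcan', WithLp.toLp_ofLp, IsometryEquiv.apply_symm_apply]
          exact hcan x }
    have hk : ∀ x, g (φ x) = φ (k x) := by
      intro x
      change g (WithLp.toLp 2 (F *ᵥ x)) = WithLp.toLp 2 (F *ᵥ (F⁻¹ *ᵥ
        WithLp.ofLp (g (WithLp.toLp 2 (F *ᵥ x)))))
      rw [hcan', WithLp.toLp_ofLp]
    have hkaff : IsAff k (F⁻¹ * U * F) (F⁻¹ *ᵥ WithLp.ofLp (g 0)) := by
      intro x
      change F⁻¹ *ᵥ WithLp.ofLp (g (WithLp.toLp 2 (F *ᵥ x))) = _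
      rw [hgU, mulVec_add, WithLp.ofLp_toLp, mulVec_mulVec, mulVec_mulVec]
    have hkorth : OrthF F (F⁻¹ * U * F) := by
      unfold OrthF
      have e : F * (F⁻¹ * U * F) * F⁻¹ = U := by
        calc F * (F⁻¹ * U * F) * F⁻¹ = (F * F⁻¹) * U * (F * F⁻¹) := by
              simp only [Matrix.mul_assoc]
          _ = U := by rw [Realize.mul_inv hF, one_mul, mul_one]
      rw [e, hU]
    have hkP : (cfg c A B s 0).map k = cfg c A B s 0 := by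
      apply map_inj (Realize.inj hF)
      rw [Cfg.map_map]
      have e : (fun x => (WithLp.toLp 2 (F *ᵥ (k x)) : E3)) = fun x => g (φ x) := by
        funext x
        exact (hk x).symm
      rw [e, ← Cfg.map_map _ φ g]
      exact hg
    exact ⟨k, (full_sym hF h hsp hiso).1 hfull k _ _ hkaff hkorth hkP, hk⟩
  · rintro ⟨k, hk, hgk⟩
    rw [Cfg.map_map]
    have e : (fun x => g (φ x)) = fun x => φ (k x) := funext hgk
    rw [e, ← Cfg.map_map _ k φ, hA.sym k hk]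

theorem similar_iff {c c' : Cls} {A B s A' B' s' : Equiv.Perm V3} {F F' : M3} (hF : F.det ≠ 0)
    (hF' : F'.det ≠ 0) (h : Good c A B s 0) (h' : Good c' A' B' s' 0)
    (hsp : Spans (cfg c A B s 0).V) (hsp' : Spans (cfg c' A' B' s' 0).V)
    (hiso : ∀ g ∈ grp A B s, ∃ M a, IsAff g M a ∧ OrthF F M)
    (hiso' : ∀ g ∈ grp A' B' s', ∃ M a, IsAff g M a ∧ OrthF F' M)
    (hfull : Full c F A B s) (hfull' : Full c' F' A' B' s') :
    Similar ((cfg c A B s 0).map (fun x => (WithLp.toLp 2 (F *ᵥ x) : E3)))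
      ((cfg c' A' B' s' 0).map (fun x => (WithLp.toLp 2 (F' *ᵥ x) : E3))) ↔
    c = c' ∧ ∃ (σ : Equiv.Perm V3) (M : M3) (r : ℝ), 0 < r ∧ IsAff σ M 0 ∧
      (F' * M * F⁻¹)ᵀ * (F' * M * F⁻¹) = r • (1 : M3) ∧
      cnj3 σ (A, B, s) ∈ (A', B', s') :: others c' A' B' s' := by
  obtain ⟨hP, hA⟩ := conv h
  obtain ⟨hP', hA'⟩ := conv h'
  have hcan : ∀ x : V3, F⁻¹ *ᵥ (F *ᵥ x) = x := fun x => by
    rw [mulVec_mulVec, Realize.inv_mul hF, one_mulVec]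
  have hcan₂ : ∀ x : V3, F *ᵥ (F⁻¹ *ᵥ x) = x := fun x => by
    rw [mulVec_mulVec, Realize.mul_inv hF, one_mulVec]
  have hcan' : ∀ x : V3, F'⁻¹ *ᵥ (F' *ᵥ x) = x := fun x => by
    rw [mulVec_mulVec, Realize.inv_mul hF', one_mulVec]
  have hcan₂' : ∀ x : V3, F' *ᵥ (F'⁻¹ *ᵥ x) = x := fun x => by
    rw [mulVec_mulVec, Realize.mul_inv hF', one_mulVec]
  constructor
  · rintro ⟨ρ, hρ, g, hg⟩
    rw [Cfg.map_map] at hg
    obtain ⟨U, hU, hgU⟩ := exists_matrix g.symm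
    let f : Equiv.Perm V3 :=
      { toFun := fun x => F'⁻¹ *ᵥ WithLp.ofLp (g.symm (ρ⁻¹ • WithLp.toLp 2 (F *ᵥ x)))
        invFun := fun x => F⁻¹ *ᵥ WithLp.ofLp (ρ • g (WithLp.toLp 2 (F' *ᵥ x)))
        left_inv := fun x => by
          change F⁻¹ *ᵥ WithLp.ofLp (ρ • g (WithLp.toLp 2 (F' *ᵥ (F'⁻¹ *ᵥ
            WithLp.ofLp (g.symm (ρ⁻¹ • WithLp.toLp 2 (F *ᵥ x))))))) = x
          rw [hcan₂', WithLp.toLp_ofLp, IsometryEquiv.apply_symm_apply, smul_smul,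
            mul_inv_cancel₀ hρ.ne', one_smul]
          exact hcan x
        right_inv := fun x => by
          change F'⁻¹ *ᵥ WithLp.ofLp (g.symm (ρ⁻¹ • WithLp.toLp 2 (F *ᵥ (F⁻¹ *ᵥ
            WithLp.ofLp (ρ • g (WithLp.toLp 2 (F' *ᵥ x))))))) = x
          rw [hcan₂, WithLp.toLp_ofLp, smul_smul, inv_mul_cancel₀ hρ.ne', one_smul,
            IsometryEquiv.symm_apply_apply]
          exact hcan' x }
    have hf : ∀ x, ρ • g (WithLp.toLp 2 (F' *ᵥ (f x))) = (WithLp.toLp 2 (F *ᵥ x) : E3) := by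
      intro x
      change ρ • g (WithLp.toLp 2 (F' *ᵥ (F'⁻¹ *ᵥ
            WithLp.ofLp (g.symm (ρ⁻¹ • WithLp.toLp 2 (F *ᵥ x)))))) = _
      rw [hcan₂', WithLp.toLp_ofLp, IsometryEquiv.apply_symm_apply, smul_smul,
            mul_inv_cancel₀ hρ.ne', one_smul]
    have hfaff : IsAff f (ρ⁻¹ • (F'⁻¹ * U * F)) (F'⁻¹ *ᵥ WithLp.ofLp (g.symm 0)) := by
      intro x
      change F'⁻¹ *ᵥ WithLp.ofLp (g.symm (ρ⁻¹ • WithLp.toLp 2 (F *ᵥ x))) = _
      rw [hgU, mulVec_add, WithLp.ofLp_smul, WithLp.ofLp_toLp, mulVec_smul, mulVec_smul,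
        mulVec_mulVec, mulVec_mulVec, smul_mulVec]
    have e : F' * (ρ⁻¹ • (F'⁻¹ * U * F)) * F⁻¹ = ρ⁻¹ • U := by
      rw [mul_smul_comm, smul_mul_assoc]
      congr 1
      calc F' * (F'⁻¹ * U * F) * F⁻¹ = (F' * F'⁻¹) * U * (F * F⁻¹) := by
            simp only [Matrix.mul_assoc]
        _ = U := by rw [Realize.mul_inv hF, Realize.mul_inv hF', one_mul, mul_one]
    have hr : (0 : ℝ) < ρ⁻¹ * ρ⁻¹ := by positivity
    have hM : (F' * (ρ⁻¹ • (F'⁻¹ * U * F)) * F⁻¹)ᵀ * (F' * (ρ⁻¹ • (F'⁻¹ * U * F)) * F⁻¹)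
        = (ρ⁻¹ * ρ⁻¹) • (1 : M3) := by
      rw [e, transpose_smul, smul_mul_assoc, mul_smul_comm, smul_smul, hU]
    have hψ : Function.Injective (fun x : V3 => ρ • g (WithLp.toLp 2 (F' *ᵥ x))) := by
      intro x y hxy
      have h1 : g (WithLp.toLp 2 (F' *ᵥ x)) = g (WithLp.toLp 2 (F' *ᵥ y)) :=
        smul_right_injective _ hρ.ne' hxy
      exact Realize.inj hF' (g.injective h1)
    have hPf : (cfg c A B s 0).map f = cfg c' A' B' s' 0 := by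
      apply map_inj hψ
      rw [Cfg.map_map, ← hg]
      congr 1
      exact funext hf
    obtain ⟨N, h1, h2, h3, -⟩ := sim_inv hF hF' hr hM
    obtain ⟨hcc, g', hg', hg0, hmem⟩ := uniq h h' hPf (by
      intro k
      constructor
      · intro hk
        obtain ⟨⟨K, b, hK, hK'⟩, hkP⟩ := conj_sym hF hF' hfaff hr hM hPf (hiso k hk) (hA.sym k hk)
        exact (full_sym hF' h' hsp' hiso').1 hfull' _ K b hK hK' hkP
      · intro hk
        obtain ⟨⟨K, b, hK, hK'⟩, hkP⟩ := conj_sym hF' hF (aff_inv hfaff h1) (inv_pos.2 hr) h3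
          (map_perm_inv hPf) (hiso' _ hk) (hA'.sym _ hk)
        have e2 : f⁻¹ * (f * k * f⁻¹) * f⁻¹⁻¹ = k := by group
        rw [e2] at hK hkP
        exact (full_sym hF h hsp hiso).1 hfull _ K b hK hK' hkP)
    obtain ⟨K, b, hK, hK'⟩ := hiso' g' hg'
    refine ⟨hcc, g' * f, K * (ρ⁻¹ • (F'⁻¹ * U * F)), ρ⁻¹ * ρ⁻¹, hr, ?_, ?_, hmem⟩
    · have h4 := aff_mul hK hfaff
      have h5 := h4 0
      rw [mulVec_zero, zero_add, hg0] at h5
      intro x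
      rw [h4 x, ← h5]
    · rw [← conj_mul hF' F F' K (ρ⁻¹ • (F'⁻¹ * U * F))]
      rw [transpose_mul (F' * K * F'⁻¹) (F' * (ρ⁻¹ • (F'⁻¹ * U * F)) * F⁻¹)]
      unfold OrthF at hK'
      calc (F' * (ρ⁻¹ • (F'⁻¹ * U * F)) * F⁻¹)ᵀ * (F' * K * F'⁻¹)ᵀ *
            (F' * K * F'⁻¹ * (F' * (ρ⁻¹ • (F'⁻¹ * U * F)) * F⁻¹))
          = (F' * (ρ⁻¹ • (F'⁻¹ * U * F)) * F⁻¹)ᵀ * ((F' * K * F'⁻¹)ᵀ *
            (F' * K * F'⁻¹)) * (F' * (ρ⁻¹ • (F'⁻¹ * U * F)) * F⁻¹) := by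
            simp only [Matrix.mul_assoc]
        _ = (ρ⁻¹ * ρ⁻¹) • (1 : M3) := by rw [hK', mul_one, hM]
  · rintro ⟨rfl, σ, M, r, hr, hσ, hM, hmem⟩
    have hσ0 : σ 0 = 0 := by rw [hσ 0, mulVec_zero, zero_add]
    have hPσ : (cfg c A B s 0).map σ = cfg c A' B' s' 0 := by
      have h1 := cfg_cnj c σ A B s 0
      rw [hσ0] at h1
      rw [← h1]
      rcases List.mem_cons.1 hmem with h2 | h2
      · have h3 := Prod.ext_iff.1 h2
        have h4 := Prod.ext_iff.1 h3.2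
        simp only [cnj3] at h3 h4
        rw [h3.1, h4.1, h4.2]
      · exact (others_spec h'.hA h'.hB h'.rel h2).1
    set W : M3 := F' * M * F⁻¹ with hW
    have hsr : 0 < Real.sqrt r := Real.sqrt_pos.2 hr
    have hU : ((Real.sqrt r)⁻¹ • Wᵀ)ᵀ * ((Real.sqrt r)⁻¹ • Wᵀ) = 1 := by
      apply mul_eq_one_comm.1
      rw [transpose_smul, transpose_transpose, smul_mul_assoc, mul_smul_comm, smul_smul, hM,
        smul_smul]
      have : (Real.sqrt r)⁻¹ * (Real.sqrt r)⁻¹ * r = 1 := by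
        rw [← mul_inv, Real.mul_self_sqrt hr.le, inv_mul_cancel₀ hr.ne']
      rw [this, one_smul]
    obtain ⟨g, hg⟩ := Pool.Agent.H38.FT.exists_iso hU
    refine ⟨(Real.sqrt r)⁻¹, inv_pos.2 hsr, g, ?_⟩
    rw [← hPσ, Cfg.map_map, Cfg.map_map]
    congr 1
    funext x
    change WithLp.toLp 2 (F *ᵥ x) = (Real.sqrt r)⁻¹ • g (WithLp.toLp 2 (F' *ᵥ (σ x)))
    rw [hg, hσ x, add_zero, ← WithLp.toLp_smul]
    congr 1
    have h1 : F' *ᵥ (M *ᵥ x) = W *ᵥ (F *ᵥ x) := by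
      rw [mulVec_mulVec, mulVec_mulVec, hW, mul_assoc, Realize.inv_mul hF, mul_one]
    rw [h1, smul_mulVec, mulVec_mulVec, hM, smul_mulVec, one_mulVec, smul_smul, smul_smul]
    have : (Real.sqrt r)⁻¹ * (Real.sqrt r)⁻¹ * r = 1 := by
      rw [← mul_inv, Real.mul_self_sqrt hr.le, inv_mul_cancel₀ hr.ne']
    rw [mul_assoc] at this
    rw [mul_assoc, this, one_smul]

end Pool.Agent.H21.FT
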