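import Pool.Agent.H21.FT.FamSound
import Pool.Agent.H21.FT.KerCub
import Pool.Agent.H21.FT.KerAx

/-!
# Soundness of the table

For generators `A`, `B`, `s` that belong to a block of the table the group is discrete, the
stabiliser of the origin is generated by `A` and `B` and the linear parts are automorphisms of the
frame.
-/

namespace Pool.Agent.H21.FT

open Matrix

private theorem exists_zip {α β : Type} {l : List α} {m : List β} (h : l.length = m.length) {a : α}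
    (ha : a ∈ l) : ∃ b, (a, b) ∈ l.zip m := by
  induction l generalizing m with
  | nil => simp at ha
  | cons x l ih =>
    cases m with
    | nil => simp at h
    | cons y m =>
      simp only [List.length_cons, Nat.add_right_cancel_iff] at h
      rcases List.mem_cons.1 ha with rfl | ha
      · exact ⟨y, by simp⟩
      · obtain ⟨b, hb⟩ := ih h ha
        exact ⟨b, by simp [hb]⟩

/-- Every block of the table has a checked row. -/
theorem table_row {b : Block} (hb : b ∈ table) : ∃ k rl, BlockOK k b rl := by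
  unfold table at hb
  rw [List.mem_append, List.mem_append, List.mem_append] at hb
  rcases hb with ((hb | hb) | hb) | hb
  · obtain ⟨r, hr⟩ := exists_zip cub_ok.1 hb
    exact ⟨_, r, cub_ok.2 _ hr⟩
  · obtain ⟨r, hr⟩ := exists_zip tet_ok.1 hb
    exact ⟨_, r, tet_ok.2 _ hr⟩
  · obtain ⟨r, hr⟩ := exists_zip hex_ok.1 hb
    exact ⟨_, r, hex_ok.2 _ hr⟩
  · obtain ⟨r, hr⟩ := exists_zip ort_ok.1 hb
    exact ⟨_, r, ort_ok.2 _ hr⟩

/-- The elements of a group of linear maps fix the origin. -/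
theorem tab_linGrp_zero {l : List IM} {g : Equiv.Perm V3} (hg : g ∈ linGrp l) : g 0 = 0 := by
  unfold linGrp at hg
  induction hg using Subgroup.closure_induction with
  | mem x hx =>
    obtain ⟨M, -, hM⟩ := hx
    rw [hM 0, mulVec_zero, add_zero]
  | one => rfl
  | mul x y _ _ hx hy => rw [Equiv.Perm.mul_apply, hy, hx]
  | inv x _ hx => rw [Equiv.Perm.inv_eq_iff_eq, hx]

theorem table_sound {b : Block} (hb : b ∈ table) {A B s : Equiv.Perm V3} (h : b.Has A B s) :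
    A 0 = 0 ∧ B 0 = 0 ∧ (∀ g ∈ grp A B s, g 0 = 0 → g ∈ stab A B) ∧ Disc (grp A B s) ∧
    ∀ g ∈ grp A B s, ∃ N ∈ b.kind.auts, ∃ a, IsAff g N.mat a := by
  obtain ⟨k, rl, hr⟩ := table_row hb
  obtain ⟨hs, f, hf, n, x, y, hx, t, ht, hl⟩ := h
  obtain ⟨L, hfL⟩ := exists_zip hr.len hf
  have hL := (hr.fams _ hfL).1
  rw [hr.S] at ht
  rw [hr.gens] at hs
  have hg : grp A B s = rl.1.grp t := grp_link hs hl
  obtain ⟨h1, h2⟩ := fam_sound hr.ok hL hx ht
  have hA : A ∈ stab A B := Subgroup.subset_closure (Set.mem_insert _ _)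
  have hB : B ∈ stab A B := Subgroup.subset_closure (Set.mem_insert_of_mem _ rfl)
  rw [hs] at hA hB
  rw [hg]
  refine ⟨tab_linGrp_zero hA, tab_linGrp_zero hB, fun g hg h0 => ?_, h2, fun g hg => ?_⟩
  · rw [hs]
    exact h1 g hg h0
  · obtain ⟨p, hp, z, -, hz⟩ := Row.form hr.ok ht hg
    refine ⟨p.M, ?_, _, hz⟩
    rw [hr.kind]
    exact hr.auts p hp

/-! ### The automorphisms of the frames -/

private theorem mat_mul' (M N : IM) : (M.mul N).mat = M.mat * N.mat := by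
  ext i j
  fin_cases i <;> fin_cases j <;>
    simp [IM.mat, IM.mul, IM.vm, IV.smul, IV.add, Matrix.mul_apply, Fin.sum_univ_three]

/-- The transposed matrix. -/
def IM.tsTr (M : IM) : IM := ⟨⟨M.a.x, M.b.x, M.c.x⟩, ⟨M.a.y, M.b.y, M.c.y⟩, ⟨M.a.z, M.b.z, M.c.z⟩⟩

private theorem mat_tr (M : IM) : M.tsTr.mat = M.matᵀ := by
  ext i j
  fin_cases i <;> fin_cases j <;> rfl

/-- The form `G` is invariant under `N`. -/
def tsKeeps (G N : IM) : Bool := decide (N.tsTr.mul (G.mul N) = G)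

private theorem tsKeeps_mat {G N : IM} (h : tsKeeps G N = true) :
    N.matᵀ * (G.mat * N.mat) = G.mat := by
  have h' := of_decide_eq_true h
  rw [← mat_tr, ← mat_mul', ← mat_mul', h']

private theorem orth_of_gram {F N : M3} (hF : F.det ≠ 0) (h : Nᵀ * ((Fᵀ * F) * N) = Fᵀ * F) :
    (F * N * F⁻¹)ᵀ * (F * N * F⁻¹) = 1 := by
  have hu : IsUnit F.det := isUnit_iff_ne_zero.2 hF
  have e1 : (F * N * F⁻¹)ᵀ * (F * N * F⁻¹) = (F⁻¹)ᵀ * (Nᵀ * ((Fᵀ * F) * N)) * F⁻¹ := by
    simp only [transpose_mul, Matrix.mul_assoc]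
  have e2 : (F⁻¹)ᵀ * (Fᵀ * F) * F⁻¹ = (F * F⁻¹)ᵀ * (F * F⁻¹) := by
    simp only [transpose_mul, Matrix.mul_assoc]
  rw [e1, h, e2, Matrix.mul_nonsing_inv _ hu, transpose_one, Matrix.mul_one]

/-- The first coordinate form. -/
def tsG11 : IM := ⟨⟨1, 0, 0⟩, ⟨0, 0, 0⟩, ⟨0, 0, 0⟩⟩

/-- The second coordinate form. -/
def tsG22 : IM := ⟨⟨0, 0, 0⟩, ⟨0, 1, 0⟩, ⟨0, 0, 0⟩⟩

/-- The third coordinate form. -/
def tsG33 : IM := ⟨⟨0, 0, 0⟩, ⟨0, 0, 0⟩, ⟨0, 0, 1⟩⟩

/-- The planar form of the tetragonal frame. -/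
def tsGTet : IM := ⟨⟨1, 0, 0⟩, ⟨0, 1, 0⟩, ⟨0, 0, 0⟩⟩

/-- Twice the planar form of the hexagonal frame. -/
def tsGHex : IM := ⟨⟨2, -1, 0⟩, ⟨-1, 2, 0⟩, ⟨0, 0, 0⟩⟩

private theorem cub_tsKeeps : ∀ N ∈ cubAuts, tsKeeps IM.one N = true := by decide

private theorem tet_tsKeeps : ∀ N ∈ tetAuts, tsKeeps tsGTet N = true ∧ tsKeeps tsG33 N = true := by
  decide

private theorem hex_tsKeeps : ∀ N ∈ hexAuts, tsKeeps tsGHex N = true ∧ tsKeeps tsG33 N = true := by
  decide

private theorem ort_tsKeeps : ∀ N ∈ ortAuts, tsKeeps tsG11 N = true ∧ tsKeeps tsG22 N = true ∧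
    tsKeeps tsG33 N = true := by decide

private theorem combo {G H N : M3} {a b : ℝ} (hG : Nᵀ * (G * N) = G) (hH : Nᵀ * (H * N) = H) :
    Nᵀ * ((a • G + b • H) * N) = a • G + b • H := by
  rw [Matrix.add_mul, Matrix.mul_add, Matrix.smul_mul, Matrix.smul_mul, Matrix.mul_smul,
    Matrix.mul_smul, hG, hH]

/-- the automorphisms of the frames are isometries -/
theorem auts_orth {k : Kind} {N : IM} (hN : N ∈ k.auts) {b c : ℝ} (hb : 0 < b) (hc : 0 < c) :
    (k.frame b c).det ≠ 0 ∧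
    (k.frame b c * N.mat * (k.frame b c)⁻¹)ᵀ * (k.frame b c * N.mat * (k.frame b c)⁻¹) = 1 := by
  have h3 : (0 : ℝ) < √3 := Real.sqrt_pos.2 (by norm_num)
  have h33 : √3 * √3 = (3 : ℝ) := Real.mul_self_sqrt (by norm_num)
  have hdet : (k.frame b c).det ≠ 0 := by
    cases k <;> simp [Kind.frame, Matrix.det_fin_three, hb.ne', hc.ne']
  refine ⟨hdet, orth_of_gram hdet ?_⟩
  cases k with
  | cub =>
    have h1 : ((Kind.cub.frame b c)ᵀ * Kind.cub.frame b c) = IM.one.mat := by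
      ext i j
      fin_cases i <;> fin_cases j <;>
        simp [Kind.frame, IM.one, IM.mat, Matrix.mul_apply, Fin.sum_univ_three]
    rw [h1]
    exact tsKeeps_mat (cub_tsKeeps N hN)
  | tet =>
    have h1 : ((Kind.tet.frame b c)ᵀ * Kind.tet.frame b c) =
        (1 : ℝ) • tsGTet.mat + (c ^ 2) • tsG33.mat := by
      ext i j
      fin_cases i <;> fin_cases j <;>
        simp [Kind.frame, tsGTet, tsG33, IM.mat, Matrix.mul_apply, Fin.sum_univ_three, pow_two]
    rw [h1]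
    exact combo (tsKeeps_mat (tet_tsKeeps N hN).1) (tsKeeps_mat (tet_tsKeeps N hN).2)
  | hex =>
    have h1 : ((Kind.hex.frame b c)ᵀ * Kind.hex.frame b c) =
        (1 / 2 : ℝ) • tsGHex.mat + (c ^ 2) • tsG33.mat := by
      ext i j
      fin_cases i <;> fin_cases j <;>
        simp [Kind.frame, tsGHex, tsG33, IM.mat, Matrix.mul_apply, Fin.sum_univ_three, pow_two] <;>
        nlinarith [h33]
    rw [h1]
    exact combo (tsKeeps_mat (hex_tsKeeps N hN).1) (tsKeeps_mat (hex_tsKeeps N hN).2)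
  | ort =>
    have h1 : ((Kind.ort.frame b c)ᵀ * Kind.ort.frame b c) =
        (1 : ℝ) • ((1 : ℝ) • tsG11.mat + (b ^ 2) • tsG22.mat) + (c ^ 2) • tsG33.mat := by
      ext i j
      fin_cases i <;> fin_cases j <;>
        simp [Kind.frame, tsG11, tsG22, tsG33, IM.mat, Matrix.mul_apply, Fin.sum_univ_three, pow_two]
    rw [h1]
    exact combo (combo (tsKeeps_mat (ort_tsKeeps N hN).1) (tsKeeps_mat (ort_tsKeeps N hN).2.1))
      (tsKeeps_mat (ort_tsKeeps N hN).2.2)

end Pool.Agent.H21.FT
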