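import Pool.Agent.H21.FT.Poly
import Pool.Agent.H21.FT.SymItem
import Pool.Agent.H21.FT.GoodCase
import Pool.Agent.H38.FT.Trans

/-!
# The orbits on the flags: regular and chiral polyhedra, number of orbits
-/

namespace Pool.Agent.H21.FT

open Matrix
open Pool.Agent.H38.FT (Cfg E3 Triple Adjacent)

namespace TypesAux

open FlagPoly

variable {X : Type*} {Γ : Subgroup (Equiv.Perm X)} {β : Base X}

/-- Some element of `Γ` maps the triple `A` to the triple `B`. -/
def Orb (Γ : Subgroup (Equiv.Perm X)) (A B : Triple X) : Prop :=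
  ∃ g ∈ Γ, g A.1 = B.1 ∧ Sym2.map g A.2.1 = B.2.1 ∧ Sym2.map g '' A.2.2 = B.2.2

theorem sym2_mul (g k : Equiv.Perm X) (e : Sym2 X) :
    Sym2.map (g * k : Equiv.Perm X) e = Sym2.map g (Sym2.map k e) := by
  rw [Sym2.map_map]
  rfl

theorem orb_refl (A : Triple X) : Orb Γ A A := by
  have h1 : ∀ e : Sym2 X, Sym2.map ((1 : Equiv.Perm X) : X → X) e = e := fun e =>
    congrFun Sym2.map_id e
  refine ⟨1, Γ.one_mem, rfl, h1 _, ?_⟩
  simp only [h1, Set.image_id']

theorem orb_trans {A B C : Triple X} (h1 : Orb Γ A B) (h2 : Orb Γ B C) : Orb Γ A C := by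
  obtain ⟨g, hg, a1, a2, a3⟩ := h1
  obtain ⟨k, hk, b1, b2, b3⟩ := h2
  refine ⟨k * g, Γ.mul_mem hk hg, ?_, ?_, ?_⟩
  · rw [Equiv.Perm.mul_apply, a1, b1]
  · rw [sym2_mul, a2, b2]
  · rw [← b3, ← a3, Set.image_image]
    exact Set.image_congr fun e _ => sym2_mul k g e

theorem orb_symm {A B : Triple X} (h : Orb Γ A B) : Orb Γ B A := by
  obtain ⟨g, hg, a1, a2, a3⟩ := h
  have key : ∀ e : Sym2 X, Sym2.map (g⁻¹ : Equiv.Perm X) (Sym2.map g e) = e := fun e => by
    rw [← sym2_mul, inv_mul_cancel]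
    exact congrFun Sym2.map_id e
  refine ⟨g⁻¹, Γ.inv_mem hg, ?_, ?_, ?_⟩
  · rw [← a1]; simp
  · rw [← a2, key]
  · rw [← a3, Set.image_image]
    simp only [key, Set.image_id']

theorem orb_act {g : Equiv.Perm X} (hg : g ∈ Γ) (t : X × X × X) :
    Orb Γ (T Γ β t) (T Γ β (act g t)) :=
  ⟨g, hg, rfl, rfl, (faceOf_act hg t).symm⟩

/-- Every flag is in the orbit of a base flag. -/
theorem exists_orb (h : Sys Γ β) {A : Triple X} (hA : (flagCfg Γ β).IsFlag A) :
    ∃ a b, Orb Γ (T Γ β (β.fl a b)) A := by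
  obtain ⟨t, ⟨g, hg, a, b, rfl⟩, rfl⟩ := exists_T h hA
  exact ⟨a, b, orb_act hg _⟩

theorem fl_fst (h : Sys Γ β) {i j i' j' : Bool} (e : (β.fl i j).1 = (β.fl i' j').1) :
    i = i' := by
  cases i <;> cases i' <;> cases j <;> cases j' <;>
    first
    | rfl
    | exact absurd e h.ow
    | exact absurd e.symm h.ow

theorem orb_fl (h : Sys Γ β) {a b a' b' : Bool} :
    Orb Γ (T Γ β (β.fl a b)) (T Γ β (β.fl a' b')) ↔
      ∃ g ∈ Γ, act g (β.fl a b) = β.fl a' b' := by
  constructor
  · rintro ⟨g, hg, h1, h2, h3⟩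
    change g (β.fl a b).1 = (β.fl a' b').1 at h1
    change Sym2.map g s((β.fl a b).1, (β.fl a b).2.1) = s((β.fl a' b').1, (β.fl a' b').2.1) at h2
    change Sym2.map g '' faceOf Γ β (β.fl a b) = faceOf Γ β (β.fl a' b') at h3
    rw [fl_edge, fl_edge] at h2
    obtain ⟨k, l, hkl⟩ := edge_of h hg h2
    have e := hkl a b
    have e1 : (β.fl (xor a k) (xor b l)).1 = (β.fl a' b').1 := by rw [← e]; exact h1
    have e2 : xor b l = b' := by
      apply face_inj h Γ.one_mem (i := xor a k) (i' := a')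
      rw [FlagPoly.act_one, FlagPoly.act_one, ← e, FlagPoly.faceOf_act hg, h3]
    have e3 : xor a k = a' := fl_fst h e1
    exact ⟨g, hg, by rw [e, e2, e3]⟩
  · rintro ⟨g, hg, e⟩
    rw [← e]
    exact orb_act hg _

theorem orb_xor (h : Sys Γ β) (hC : Compat Γ β) {a b a' b' : Bool} :
    Orb Γ (T Γ β (β.fl a b)) (T Γ β (β.fl a' b')) ↔
      ∃ g ∈ Γ, act g (β.fl false false) = β.fl (xor a a') (xor b b') := by
  rw [orb_fl h]
  constructor
  · rintro ⟨g, hg, e⟩
    refine ⟨g, hg, ?_⟩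
    have := hC g hg a b a' b' e false false
    rwa [Bool.false_xor, Bool.false_xor] at this
  · rintro ⟨g, hg, e⟩
    refine ⟨g, hg, ?_⟩
    have := hC g hg false false _ _ e a b
    have h5 : ∀ x y : Bool, (x ^^ (false ^^ (x ^^ y))) = y := by decide
    rwa [h5, h5] at this

/-- Adjacent flags. -/
theorem adj_cases (h : Sys Γ β) {A B : Triple X} (hA : (flagCfg Γ β).IsFlag A)
    (hB : (flagCfg Γ β).IsFlag B) (hadj : Adjacent A B) :
    ∃ g ∈ Γ, ∃ a b, A = T Γ β (act g (β.fl a b)) ∧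
      (B = T Γ β (act g (β.fl (!a) b)) ∨ B = T Γ β (act g (β.fl a (!b))) ∨
        B = T Γ β (act g (swp (β.fl a b)))) := by
  obtain ⟨t, ⟨g, hg, a, b, rfl⟩, rfl⟩ := exists_T h hA
  obtain ⟨u, hu, rfl⟩ := exists_T h hB
  refine ⟨g, hg, a, b, rfl, ?_⟩
  rcases hadj with ⟨h1, h2, h3⟩ | ⟨h1, h2, h3⟩ | ⟨h1, h2, h3⟩
  · have h2' : s((act g (β.fl a b)).1, (act g (β.fl a b)).2.1) = s(u.1, u.2.1) := h2
    obtain ⟨a', b', rfl⟩ := flag_edge h hg hu (h2'.symm.trans (act_edge g a b))
    have hb : b = b' := face_inj h hg h3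
    subst hb
    have ha : a' = !a := by
      rcases Bool.eq_or_eq_not a' a with e | e
      · exact absurd (by rw [e]) h1
      · exact e
    exact Or.inl (by rw [ha])
  · refine Or.inr (Or.inr ?_)
    have ht : act g (β.fl a b) ∈ flags Γ β := act_fl_mem hg a b
    have h1' : (act g (β.fl a b)).1 = u.1 := h1
    have h3' : faceOf Γ β (act g (β.fl a b)) = faceOf Γ β u := h3
    have hx : (act g (β.fl a b)).1 ∈ s(u.1, u.2.1) := by rw [h1']; exact Sym2.mem_mk_left _ _
    rcases edges_at h ht (e := s(u.1, u.2.1)) (by rw [h3']; exact mem_faceOf u) hx with e | e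
    · exact absurd e.symm h2
    · refine Prod.ext h1.symm (Prod.ext e ?_)
      change faceOf Γ β u = faceOf Γ β (swp (act g (β.fl a b)))
      rw [← h3']
      exact FlagPoly.faceOf_eq h (Relation.ReflTransGen.single (Step.turn _ ht))
  · have h2' : s((act g (β.fl a b)).1, (act g (β.fl a b)).2.1) = s(u.1, u.2.1) := h2
    obtain ⟨a', b', rfl⟩ := flag_edge h hg hu (h2'.symm.trans (act_edge g a b))
    have ha : a = a' := fl_fst h (g.injective h1)
    subst ha
    have hb : b' = !b := by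
      rcases Bool.eq_or_eq_not b' b with e | e
      · exact absurd (by rw [e]) h3
      · exact e
    exact Or.inr (Or.inl (by rw [hb]))

/-- Base flags that differ in one entry. -/
theorem adj_go (h : Sys Γ β) (a b : Bool) :
    Adjacent (T Γ β (β.fl a b)) (T Γ β (β.fl (!a) b)) := by
  refine Or.inl ⟨fun e => ?_, ?_, ?_⟩
  · have := fl_fst h e
    revert this
    cases a <;> decide
  · change s((β.fl a b).1, (β.fl a b).2.1) = s((β.fl (!a) b).1, (β.fl (!a) b).2.1)
    rw [fl_edge, fl_edge]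
  · exact face_false h Γ.one_mem a (!a) b

theorem adj_face (h : Sys Γ β) (a b : Bool) :
    Adjacent (T Γ β (β.fl a b)) (T Γ β (β.fl a (!b))) := by
  refine Or.inr (Or.inr ⟨?_, ?_, fun e => ?_⟩)
  · exact (fl_not' a b).1.symm
  · change s((β.fl a b).1, (β.fl a b).2.1) = s((β.fl a (!b)).1, (β.fl a (!b)).2.1)
    rw [fl_edge, fl_edge]
  · have e' : faceOf Γ β (act 1 (β.fl a b)) = faceOf Γ β (act 1 (β.fl a (!b))) := e
    have := face_inj h Γ.one_mem e'
    revert this
    cases b <;> decide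

theorem adj_swp (h : Sys Γ β) (a b : Bool) :
    Adjacent (T Γ β (β.fl a b)) (T Γ β (swp (β.fl a b))) := by
  refine Or.inr (Or.inl ⟨rfl, fun e => ?_, ?_⟩)
  · have e' : s((β.fl a b).1, (β.fl a b).2.1) = s((β.fl a b).1, (β.fl a b).2.2) := e
    rw [Sym2.congr_right] at e'
    exact (fl_ne h a b).2.2 e'
  · exact FlagPoly.faceOf_eq h (Relation.ReflTransGen.single (Step.turn _ (fl_mem a b)))

/-! ### The seven constructions -/

/-- The translations of the base flags by elements of the group. -/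
def tab : Cls → Bool → Bool → Bool
  | .reg, _, _ => true
  | .c2, x, y => x == y
  | .c20, _, y => !y
  | .c21, x, y => x == y
  | .c22, x, _ => !x
  | .c4a, x, y => !x && !y
  | .c4b, x, y => !x && !y

/-- Representatives of the orbits. -/
def rep : (c : Cls) → Fin c.orbits → Bool × Bool
  | .reg, _ => (false, false)
  | .c2, k => ![(false, false), (false, true)] k
  | .c20, k => ![(false, false), (false, true)] k
  | .c21, k => ![(false, false), (false, true)] k
  | .c22, k => ![(false, false), (true, false)] k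
  | .c4a, k => ![(false, false), (false, true), (true, false), (true, true)] k
  | .c4b, k => ![(false, false), (false, true), (true, false), (true, true)] k

theorem rep_cover (c : Cls) (a b : Bool) :
    ∃ k, tab c (xor (rep c k).1 a) (xor (rep c k).2 b) = true := by
  revert a b
  cases c <;> decide

theorem rep_inj (c : Cls) (k l : Fin c.orbits)
    (h : tab c (xor (rep c k).1 (rep c l).1) (xor (rep c k).2 (rep c l).2) = true) : k = l := by
  revert k l
  cases c <;> decide

theorem c2_three : ∀ a b a' b' a'' b'' : Bool, tab .c2 (xor a a') (xor b b') = true ∨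
    tab .c2 (xor a a'') (xor b b'') = true ∨ tab .c2 (xor a' a'') (xor b' b'') = true := by
  decide

section Good

variable {c : Cls} {A B s : Equiv.Perm X} {o : X}

theorem tab_iff (h : Good c A B s o) (x y : Bool) :
    (∃ g ∈ grp A B s, act g ((canon c A B s o).fl false false) = (canon c A B s o).fl x y) ↔
      tab c x y = true := by
  obtain ⟨-, hcase, hno⟩ := good_case h
  have hr := h.rel
  have mA : A ∈ grp A B s := A_mem_grp
  have mB : B ∈ grp A B s := B_mem_grp
  have ms : s ∈ grp A B s := s_mem_grp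
  have one : ∃ g ∈ grp A B s, act g ((canon c A B s o).fl false false) =
      (canon c A B s o).fl false false := ⟨1, one_mem _, rfl⟩
  cases c with
  | reg =>
    obtain ⟨h1, h2, h3, -⟩ := canon_reg_id h.hA h.hB hr
    refine ⟨fun _ => rfl, fun _ => ?_⟩
    cases x <;> cases y
    · exact one
    · exact ⟨B, mB, h3⟩
    · exact ⟨s, ms, h1⟩
    · exact ⟨s * B, mul_mem ms mB, by rw [FT.act_mul, h3, h2]⟩
  | c2 =>
    obtain ⟨n1, n2⟩ := hno
    cases x <;> cases y
    · exact ⟨fun _ => rfl, fun _ => one⟩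
    · exact ⟨fun ⟨g, hg, e⟩ => absurd e (n1 g hg), fun e => absurd e (by decide)⟩
    · exact ⟨fun ⟨g, hg, e⟩ => absurd e (n2 g hg), fun e => absurd e (by decide)⟩
    · exact ⟨fun _ => rfl, fun _ => ⟨s, ms, hcase.2.1⟩⟩
  | c20 =>
    obtain ⟨n1, n2⟩ := hno
    cases x <;> cases y
    · exact ⟨fun _ => rfl, fun _ => one⟩
    · exact ⟨fun ⟨g, hg, e⟩ => absurd e (n1 g hg), fun e => absurd e (by decide)⟩
    · exact ⟨fun _ => rfl, fun _ => ⟨s, ms, hcase.2.1⟩⟩
    · exact ⟨fun ⟨g, hg, e⟩ => absurd e (n2 g hg), fun e => absurd e (by decide)⟩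
  | c21 =>
    obtain ⟨n1, n2⟩ := hno
    cases x <;> cases y
    · exact ⟨fun _ => rfl, fun _ => one⟩
    · exact ⟨fun ⟨g, hg, e⟩ => absurd e (n1 g hg), fun e => absurd e (by decide)⟩
    · exact ⟨fun ⟨g, hg, e⟩ => absurd e (n2 g hg), fun e => absurd e (by decide)⟩
    · exact ⟨fun _ => rfl, fun _ => ⟨s, ms, hcase.1⟩⟩
  | c22 =>
    obtain ⟨n1, n2⟩ := hno
    cases x <;> cases y
    · exact ⟨fun _ => rfl, fun _ => one⟩
    · exact ⟨fun _ => rfl, fun _ => ⟨A, mA, hcase.2.1⟩⟩
    · exact ⟨fun ⟨g, hg, e⟩ => absurd e (n1 g hg), fun e => absurd e (by decide)⟩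
    · exact ⟨fun ⟨g, hg, e⟩ => absurd e (n2 g hg), fun e => absurd e (by decide)⟩
  | c4a =>
    obtain ⟨n1, n2, n3⟩ := hno
    cases x <;> cases y
    · exact ⟨fun _ => rfl, fun _ => one⟩
    · exact ⟨fun ⟨g, hg, e⟩ => absurd e (n1 g hg), fun e => absurd e (by decide)⟩
    · exact ⟨fun ⟨g, hg, e⟩ => absurd e (n2 g hg), fun e => absurd e (by decide)⟩
    · exact ⟨fun ⟨g, hg, e⟩ => absurd e (n3 g hg), fun e => absurd e (by decide)⟩
  | c4b =>
    obtain ⟨n1, n2, n3⟩ := hno
    cases x <;> cases y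
    · exact ⟨fun _ => rfl, fun _ => one⟩
    · exact ⟨fun ⟨g, hg, e⟩ => absurd e (n1 g hg), fun e => absurd e (by decide)⟩
    · exact ⟨fun ⟨g, hg, e⟩ => absurd e (n2 g hg), fun e => absurd e (by decide)⟩
    · exact ⟨fun ⟨g, hg, e⟩ => absurd e (n3 g hg), fun e => absurd e (by decide)⟩

/-- The base flag with the indices `a`, `b` as a triple. -/
abbrev BT (c : Cls) (A B s : Equiv.Perm X) (o : X) (a b : Bool) : Triple X :=
  T (grp A B s) (canon c A B s o) ((canon c A B s o).fl a b)

theorem orb_tab (h : Good c A B s o) (a b a' b' : Bool) :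
    Orb (grp A B s) (BT c A B s o a b) (BT c A B s o a' b') ↔
      tab c (xor a a') (xor b b') = true := by
  obtain ⟨hS, hC⟩ := canon_sys h
  rw [orb_xor hS hC, tab_iff h]

theorem cfg_eq (h : Good c A B s o) :
    cfg c A B s o = flagCfg (grp A B s) (canon c A B s o) :=
  (flagCfg_canon h.hA h.hB h.rel (canon_sys h).2).symm

theorem bt_flag (h : Good c A B s o) (a b : Bool) :
    (cfg c A B s o).IsFlag (BT c A B s o a b) := by
  rw [cfg_eq h]
  exact T_flag (fl_mem a b)

theorem exists_bt (h : Good c A B s o) {C : Triple X} (hC : (cfg c A B s o).IsFlag C) :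
    ∃ a b, Orb (grp A B s) (BT c A B s o a b) C := by
  rw [cfg_eq h] at hC
  exact exists_orb (canon_sys h).1 hC

/-- The flags of the construction `reg` form one orbit; those of the other constructions do
not. -/
theorem reg_iff (h : Good c A B s o) :
    (∀ C D, (cfg c A B s o).IsFlag C → (cfg c A B s o).IsFlag D → Orb (grp A B s) C D) ↔
      c = .reg := by
  constructor
  · intro hall
    have h1 := (orb_tab h _ _ _ _).1 (hall _ _ (bt_flag h false false) (bt_flag h false true))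
    have h2 := (orb_tab h _ _ _ _).1 (hall _ _ (bt_flag h false false) (bt_flag h true false))
    revert h1 h2
    clear hall h
    cases c <;> decide
  · intro hc C D hC hD
    obtain ⟨a, b, h1⟩ := exists_bt h hC
    obtain ⟨a', b', h2⟩ := exists_bt h hD
    have h3 := (orb_tab h a b a' b').2 (by rw [hc]; rfl)
    exact orb_trans (orb_trans (orb_symm h1) h3) h2

theorem c2_swp (h : Good .c2 A B s o) (a b : Bool) :
    Orb (grp A B s) (BT .c2 A B s o a (!b))
      (T (grp A B s) (canon .c2 A B s o) (swp ((canon .c2 A B s o).fl a b))) := by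
  obtain ⟨h1, h2, h3, h4⟩ := canon_c2_id h.hA h.rel
  have mA : A ∈ grp A B s := A_mem_grp
  have ms : s ∈ grp A B s := s_mem_grp
  cases a <;> cases b
  · rw [h3]; exact orb_act mA _
  · rw [h4]; exact orb_act (inv_mem mA) _
  · rw [← h1, FT.swp_act, h4]
    refine orb_trans ((orb_tab h true true false false).2 (by decide)) ?_
    exact orb_trans (orb_act (inv_mem mA) _) (orb_act ms _)
  · rw [← h2, FT.swp_act, h3]
    refine orb_trans ((orb_tab h true false false true).2 (by decide)) ?_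
    exact orb_trans (orb_act mA _) (orb_act ms _)

theorem chiral_iff (h : Good c A B s o) :
    ((∀ C D, (cfg c A B s o).IsFlag C → (cfg c A B s o).IsFlag D → Adjacent C D →
        ¬ Orb (grp A B s) C D) ∧
      ∀ C D E, (cfg c A B s o).IsFlag C → (cfg c A B s o).IsFlag D → (cfg c A B s o).IsFlag E →
        Orb (grp A B s) C D ∨ Orb (grp A B s) C E ∨ Orb (grp A B s) D E) ↔
      c = .c2 := by
  obtain ⟨hS, hC⟩ := canon_sys h
  constructor
  · rintro ⟨hadj, hthree⟩
    have n1 := fun e => hadj _ _ (bt_flag h false false) (bt_flag h true false)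
      (adj_go hS false false) ((orb_tab h false false true false).2 e)
    have n2 := fun e => hadj _ _ (bt_flag h false false) (bt_flag h false true)
      (adj_face hS false false) ((orb_tab h false false false true).2 e)
    have h3 := hthree _ _ _ (bt_flag h false false) (bt_flag h false true)
      (bt_flag h true false)
    rw [orb_tab h, orb_tab h, orb_tab h] at h3
    by_cases hc : c = .c21
    · subst hc
      obtain ⟨-, -, e3, -⟩ := canon_c21_id h.hA h.hB h.rel
      exfalso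
      refine hadj (BT .c21 A B s o false false) (T _ _ (swp ((canon .c21 A B s o).fl false false)))
        (bt_flag h false false) ?_ (adj_swp hS false false) ?_
      · rw [cfg_eq h]
        exact T_flag (hS.turn false false)
      · rw [e3]
        exact orb_act A_mem_grp _
    · revert n1 n2 h3 hc
      clear hadj hthree hS hC h
      cases c <;> decide
  · intro hc
    subst hc
    constructor
    · intro C D hC' hD' hadj horb
      rw [cfg_eq h] at hC' hD'
      obtain ⟨g, hg, a, b, rfl, hD⟩ := adj_cases hS hC' hD' hadj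
      have h1 := orb_trans (orb_act (β := canon .c2 A B s o) hg
        ((canon .c2 A B s o).fl a b)) horb
      rcases hD with rfl | rfl | rfl
      · have h2 := orb_trans h1 (orb_symm (orb_act hg _))
        have h3 := (orb_tab h _ _ _ _).1 h2
        revert h3
        cases a <;> cases b <;> decide
      · have h2 := orb_trans h1 (orb_symm (orb_act hg _))
        have h3 := (orb_tab h _ _ _ _).1 h2
        revert h3
        cases a <;> cases b <;> decide
      · have h2 := orb_trans h1 (orb_symm (orb_act hg _))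
        have h3 := (orb_tab h _ _ _ _).1 (orb_trans h2 (orb_symm (c2_swp h a b)))
        revert h3
        cases a <;> cases b <;> decide
    · intro C D E hC' hD' hE'
      obtain ⟨a, b, h1⟩ := exists_bt h hC'
      obtain ⟨a', b', h2⟩ := exists_bt h hD'
      obtain ⟨a'', b'', h3⟩ := exists_bt h hE'
      rcases c2_three a b a' b' a'' b'' with e | e | e
      · exact Or.inl (orb_trans (orb_trans (orb_symm h1) ((orb_tab h _ _ _ _).2 e)) h2)
      · exact Or.inr (Or.inl (orb_trans (orb_trans (orb_symm h1) ((orb_tab h _ _ _ _).2 e)) h3))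
      · exact Or.inr (Or.inr (orb_trans (orb_trans (orb_symm h2) ((orb_tab h _ _ _ _).2 e)) h3))

end Good

theorem card_quot {α : Type*} {r : α → α → Prop} (hr : Equivalence r) {n : ℕ} (f : Fin n → α)
    (h1 : ∀ a, ∃ k, r (f k) a) (h2 : ∀ k l, r (f k) (f l) → k = l) : Nat.card (Quot r) = n := by
  have hb : Function.Bijective (fun k => Quot.mk r (f k)) := by
    constructor
    · intro k l hkl
      exact h2 k l ((hr.quot_mk_eq_iff _ _).1 hkl)
    · intro q
      induction q using Quot.ind with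
      | _ a =>
        obtain ⟨k, hk⟩ := h1 a
        exact ⟨k, Quot.sound hk⟩
  rw [← Nat.card_congr (Equiv.ofBijective _ hb), Nat.card_eq_fintype_card, Fintype.card_fin]

theorem adj_of_tmap {X Y : Type*} {φ : X → Y} {A B : Triple X} (hφ : Function.Injective φ)
    (h : Adjacent (Cfg.tmap φ A) (Cfg.tmap φ B)) : Adjacent A B := by
  have h1 := Sym2.map.injective hφ
  have h2 : Function.Injective (fun f : Set (Sym2 X) => Sym2.map φ '' f) :=
    Set.image_injective.2 h1
  rcases h with ⟨a, b, c⟩ | ⟨a, b, c⟩ | ⟨a, b, c⟩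
  · exact Or.inl ⟨fun e => a (congrArg φ e), h1 b, h2 c⟩
  · exact Or.inr (Or.inl ⟨hφ a, fun e => b (congrArg (Sym2.map φ) e), h2 c⟩)
  · exact Or.inr (Or.inr ⟨hφ a, h1 b, fun e => c (congrArg (fun f => Sym2.map φ '' f) e)⟩)

/-- The polyhedron in Euclidean space. -/
abbrev EC (c : Cls) (A B s : Equiv.Perm V3) (F : M3) : Cfg E3 :=
  (cfg c A B s 0).map (fun x => (WithLp.toLp 2 (F *ᵥ x) : E3))

/-- The point with coordinates `x`. -/
abbrev pt (F : M3) (x : V3) : E3 := WithLp.toLp 2 (F *ᵥ x)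

section Euclid

variable {c : Cls} {A B s : Equiv.Perm V3} {F : M3}

/-- Orbits in Euclidean space and in coordinates. -/
theorem same_iff (hF : F.det ≠ 0) (h : Good c A B s 0) (hsp : Spans (cfg c A B s 0).V)
    (hiso : ∀ g ∈ grp A B s, ∃ M a, IsAff g M a ∧ OrthF F M) (hfull : Full c F A B s)
    (C D : Triple V3) :
    SameOrbit (EC c A B s F) (Cfg.tmap (pt F) C) (Cfg.tmap (pt F) D) ↔ Orb (grp A B s) C D := by
  have hφ : Function.Injective (pt F) := Realize.inj hF
  have hsym := sym_item hF h hsp hiso hfull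
  have h1 := Sym2.map.injective hφ
  have h2 : Function.Injective (fun f : Set (Sym2 V3) => Sym2.map (pt F) '' f) :=
    Set.image_injective.2 h1
  have key : ∀ (g : E3 ≃ᵢ E3) (k : Equiv.Perm V3), (∀ x, g (pt F x) = pt F (k x)) →
      ∀ e : Sym2 V3, Sym2.map g (Sym2.map (pt F) e) = Sym2.map (pt F) (Sym2.map k e) := by
    intro g k hgk e
    rw [Sym2.map_map, Sym2.map_map]
    congr 1
    exact funext hgk
  have key2 : ∀ (g : E3 ≃ᵢ E3) (k : Equiv.Perm V3), (∀ x, g (pt F x) = pt F (k x)) →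
      ∀ f : Set (Sym2 V3), Sym2.map g '' (Sym2.map (pt F) '' f) =
        Sym2.map (pt F) '' (Sym2.map k '' f) := by
    intro g k hgk f
    rw [Set.image_image, Set.image_image]
    exact Set.image_congr fun e _ => key g k hgk e
  constructor
  · rintro ⟨g, hg, a1, a2, a3⟩
    obtain ⟨k, hk, hgk⟩ := (hsym g).1 hg
    refine ⟨k, hk, hφ ?_, h1 ?_, h2 ?_⟩
    · exact (hgk C.1).symm.trans a1
    · rw [← key g k hgk]; exact a2
    · change Sym2.map (pt F) '' (Sym2.map k '' C.2.2) = Sym2.map (pt F) '' D.2.2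
      rw [← key2 g k hgk]; exact a3
  · rintro ⟨k, hk, a1, a2, a3⟩
    obtain ⟨M, a, hM, hN⟩ := hiso k hk
    obtain ⟨g, hgk⟩ := Realize.exists_conj hF hM hN
    have hgk' : ∀ x, g (pt F x) = pt F (k x) := hgk
    refine ⟨g, (hsym g).2 ⟨k, hk, hgk'⟩, ?_, ?_, ?_⟩
    · change g (pt F C.1) = pt F D.1
      rw [hgk', a1]
    · change Sym2.map g (Sym2.map (pt F) C.2.1) = Sym2.map (pt F) D.2.1
      rw [key g k hgk', a2]
    · change Sym2.map g '' (Sym2.map (pt F) '' C.2.2) = Sym2.map (pt F) '' D.2.2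
      rw [key2 g k hgk', a3]

theorem flag_iff (hF : F.det ≠ 0) (C : Triple E3) :
    (EC c A B s F).IsFlag C ↔ ∃ D, (cfg c A B s 0).IsFlag D ∧ C = Cfg.tmap (pt F) D := by
  have hφ : Function.Injective (pt F) := Realize.inj hF
  constructor
  · intro hC
    obtain ⟨D, rfl⟩ := Cfg.exists_tmap hC
    exact ⟨D, (Cfg.tmap_flag hφ _ D).1 hC, rfl⟩
  · rintro ⟨D, hD, rfl⟩
    exact (Cfg.tmap_flag hφ _ D).2 hD

end Euclid

end TypesAux

open TypesAux

/-- Which of the polyhedra are regular, which are chiral, and the number of orbits on the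
flags. -/
theorem types_of {c : Cls} {A B s : Equiv.Perm V3} {F : M3} (hF : F.det ≠ 0)
    (h : Good c A B s 0) (hsp : Spans (cfg c A B s 0).V)
    (hiso : ∀ g ∈ grp A B s, ∃ M a, IsAff g M a ∧ OrthF F M) (hfull : Full c F A B s) :
    (Regular ((cfg c A B s 0).map (fun x => (WithLp.toLp 2 (F *ᵥ x) : E3))) ↔ c = .reg) ∧
    (Chiral ((cfg c A B s 0).map (fun x => (WithLp.toLp 2 (F *ᵥ x) : E3))) ↔ c = .c2) ∧
    flagOrbits ((cfg c A B s 0).map (fun x => (WithLp.toLp 2 (F *ᵥ x) : E3))) = c.orbits := by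
  have hφ : Function.Injective (pt F) := Realize.inj hF
  have si := same_iff hF h hsp hiso hfull
  have fi := flag_iff (c := c) (A := A) (B := B) (s := s) hF
  refine ⟨?_, ?_, ?_⟩
  · rw [← reg_iff h]
    constructor
    · intro hr C D hC hD
      exact (si C D).1 (hr _ _ ((fi _).2 ⟨C, hC, rfl⟩) ((fi _).2 ⟨D, hD, rfl⟩))
    · intro hr C D hC hD
      obtain ⟨C', hC', rfl⟩ := (fi C).1 hC
      obtain ⟨D', hD', rfl⟩ := (fi D).1 hD
      exact (si C' D').2 (hr _ _ hC' hD')
  · rw [← chiral_iff h]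
    constructor
    · rintro ⟨h1, h2⟩
      refine ⟨fun C D hC hD hadj horb => ?_, fun C D E hC hD hE => ?_⟩
      · exact h1 _ _ ((fi _).2 ⟨C, hC, rfl⟩) ((fi _).2 ⟨D, hD, rfl⟩)
          (Cfg.tmap_adj hφ hadj) ((si C D).2 horb)
      · rcases h2 _ _ _ ((fi _).2 ⟨C, hC, rfl⟩) ((fi _).2 ⟨D, hD, rfl⟩)
          ((fi _).2 ⟨E, hE, rfl⟩) with e | e | e
        · exact Or.inl ((si _ _).1 e)
        · exact Or.inr (Or.inl ((si _ _).1 e))
        · exact Or.inr (Or.inr ((si _ _).1 e))
    · rintro ⟨h1, h2⟩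
      refine ⟨fun C D hC hD hadj horb => ?_, fun C D E hC hD hE => ?_⟩
      · obtain ⟨C', hC', rfl⟩ := (fi C).1 hC
        obtain ⟨D', hD', rfl⟩ := (fi D).1 hD
        exact h1 _ _ hC' hD' (adj_of_tmap hφ hadj) ((si C' D').1 horb)
      · obtain ⟨C', hC', rfl⟩ := (fi C).1 hC
        obtain ⟨D', hD', rfl⟩ := (fi D).1 hD
        obtain ⟨E', hE', rfl⟩ := (fi E).1 hE
        rcases h2 _ _ _ hC' hD' hE' with e | e | e
        · exact Or.inl ((si _ _).2 e)
        · exact Or.inr (Or.inl ((si _ _).2 e))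
        · exact Or.inr (Or.inr ((si _ _).2 e))
  · refine card_quot ⟨?_, ?_, ?_⟩
      (fun k => ⟨Cfg.tmap (pt F) (BT c A B s 0 (rep c k).1 (rep c k).2),
        (fi _).2 ⟨_, bt_flag h _ _, rfl⟩⟩) ?_ ?_
    · rintro ⟨C, hC⟩
      obtain ⟨C', hC', rfl⟩ := (fi C).1 hC
      exact (si C' C').2 (orb_refl C')
    · rintro ⟨C, hC⟩ ⟨D, hD⟩ hCD
      obtain ⟨C', hC', rfl⟩ := (fi C).1 hC
      obtain ⟨D', hD', rfl⟩ := (fi D).1 hD
      exact (si D' C').2 (orb_symm ((si C' D').1 hCD))
    · rintro ⟨C, hC⟩ ⟨D, hD⟩ ⟨E, hE⟩ hCD hDE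
      obtain ⟨C', hC', rfl⟩ := (fi C).1 hC
      obtain ⟨D', hD', rfl⟩ := (fi D).1 hD
      obtain ⟨E', hE', rfl⟩ := (fi E).1 hE
      exact (si C' E').2 (orb_trans ((si C' D').1 hCD) ((si D' E').1 hDE))
    · rintro ⟨C, hC⟩
      obtain ⟨C', hC', rfl⟩ := (fi C).1 hC
      obtain ⟨a, b, hab⟩ := exists_bt h hC'
      obtain ⟨k, hk⟩ := rep_cover c a b
      exact ⟨k, (si _ C').2 (orb_trans ((orb_tab h _ _ a b).2 hk) hab)⟩
    · intro k l hkl
      exact rep_inj c k l ((orb_tab h _ _ _ _).1 ((si _ _).1 hkl))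

end Pool.Agent.H21.FT
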