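import Pool.Agent.H21.FT.VoidKer
import Pool.Agent.H21.FT.InfIff
import Pool.Agent.H21.FT.Cnj
import Pool.Agent.H21.FT.SymItem
import Pool.Agent.H21.FT.Uniq
import Pool.Agent.H21.FT.TableSound

/-!
# Blocks that only give generators of polyhedra with further symmetries: the proof
-/

namespace Pool.Agent.H21.FT

open Matrix

namespace Void

/-! ### The list generated by a list of matrices -/

theorem add_prefix (l : List IM) : ∀ acc : List IM,
    acc <+: l.foldl (fun acc N => if N ∈ acc then acc else acc ++ [N]) acc := by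
  induction l with
  | nil => exact fun acc => List.prefix_refl acc
  | cons x l ih =>
    intro acc
    rw [List.foldl_cons]
    refine List.IsPrefix.trans ?_ (ih _)
    split_ifs
    · exact List.prefix_refl acc
    · exact List.prefix_append acc [x]

theorem add_mem (l : List IM) : ∀ acc : List IM, ∀ N ∈ l,
    N ∈ l.foldl (fun acc N => if N ∈ acc then acc else acc ++ [N]) acc := by
  induction l with
  | nil =>
    intro acc N hN
    simp at hN
  | cons x l ih =>
    intro acc N hN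
    rw [List.foldl_cons]
    rcases List.mem_cons.1 hN with rfl | hN
    · apply (add_prefix l _).subset
      split_ifs with h
      · exact h
      · simp
    · exact ih _ N hN

theorem add_nodup (l : List IM) : ∀ acc : List IM, acc.Nodup →
    (l.foldl (fun acc N => if N ∈ acc then acc else acc ++ [N]) acc).Nodup := by
  induction l with
  | nil => exact fun acc h => h
  | cons x l ih =>
    intro acc h
    rw [List.foldl_cons]
    apply ih
    split_ifs with hx
    · exact h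
    · exact List.Nodup.append h (List.nodup_singleton x) (by simpa using hx)

theorem extend_prefix (G L : List IM) : L <+: extend G L := add_prefix _ L

theorem extend_mul {G L : List IM} {g M : IM} (hg : g ∈ G) (hM : M ∈ L) :
    g.mul M ∈ extend G L := by
  apply add_mem
  rw [List.mem_flatMap]
  exact ⟨M, hM, List.mem_map.2 ⟨g, hg, rfl⟩⟩

theorem elts_closed {G hl : List IM} (h1 : IM.one ∈ hl) (hm : ∀ g ∈ G, ∀ M ∈ hl, g.mul M ∈ hl)
    (hlen : hl.length ≤ 12) : extend G (elts G) = elts G := by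
  have hnd : ∀ n : ℕ, ((extend G)^[n] [IM.one]).Nodup := by
    intro n
    induction n with
    | zero => exact List.nodup_singleton _
    | succ n ih =>
      rw [Function.iterate_succ_apply']
      exact add_nodup _ _ ih
  have key : ∀ n : ℕ, n + 1 ≤ ((extend G)^[n] [IM.one]).length ∨
      extend G ((extend G)^[n] [IM.one]) = (extend G)^[n] [IM.one] := by
    intro n
    induction n with
    | zero => exact Or.inl (by simp)
    | succ n ih =>
      rw [Function.iterate_succ_apply']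
      rcases ih with ih | ih
      · have hp := extend_prefix G ((extend G)^[n] [IM.one])
        rcases Nat.lt_or_ge ((extend G)^[n] [IM.one]).length
          (extend G ((extend G)^[n] [IM.one])).length with h | h
        · exact Or.inl (by omega)
        · have e := hp.eq_of_length (le_antisymm hp.length_le h)
          right
          rw [← e, ← e]
      · right
        rw [ih, ih]
  rcases key 12 with h | h
  · exfalso
    have hsub : elts G ⊆ hl := ii_elts (P := (· ∈ hl)) h1 hm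
    have h2 := (List.subperm_of_subset (hnd 12) hsub).length_le
    omega
  · exact h

theorem exOK_pair {G hl : List IM} (h1 : IM.one ∈ hl) (hm : ∀ g ∈ G, ∀ M ∈ hl, g.mul M ∈ hl)
    (hlen : hl.length ≤ 12) (hi : ∀ g ∈ G, ∃ N : IM, N.mul g = IM.one) : ExOK G := by
  have hc := elts_closed h1 hm hlen
  have hone : IM.one ∈ elts G := by
    have h : ∀ n : ℕ, IM.one ∈ (extend G)^[n] [IM.one] := by
      intro n
      induction n with
      | zero => simp
      | succ n ih =>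
        rw [Function.iterate_succ_apply']
        exact (extend_prefix G _).subset ih
    exact h 12
  have hmul : ∀ g ∈ G, ∀ M ∈ elts G, g.mul M ∈ elts G := by
    intro g hg M hM
    rw [← hc]
    exact extend_mul hg hM
  refine ⟨hone, hmul, ?_⟩
  intro g hg
  obtain ⟨N, hN⟩ := hi g hg
  have hinj : Function.Injective (fun M : IM => g.mul M) := by
    intro M M' hMM
    have e := congrArg (fun Z => N.mul Z) hMM
    simp only [← rf_mul_assoc, hN] at e
    apply rf_mat_inj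
    have e2 := congrArg IM.mat e
    rwa [rf_mul_mat, rf_mul_mat, rf_one_mat, Matrix.one_mul, Matrix.one_mul] at e2
  have hsub : (elts G).toFinset.image (fun M : IM => g.mul M) ⊆ (elts G).toFinset := by
    intro Z hZ
    rw [Finset.mem_image] at hZ
    obtain ⟨M, hM, rfl⟩ := hZ
    rw [List.mem_toFinset] at hM ⊢
    exact hmul g hg M hM
  have heq := Finset.eq_of_subset_of_card_le hsub
    (by rw [Finset.card_image_of_injective _ hinj])
  have h2 : IM.one ∈ (elts G).toFinset.image (fun M : IM => g.mul M) := by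
    rw [heq, List.mem_toFinset]
    exact hone
  rw [Finset.mem_image] at h2
  obtain ⟨M, hM, hgM⟩ := h2
  rw [List.mem_toFinset] at hM
  refine ⟨M, hM, ?_⟩
  apply rf_mat_inj
  rw [rf_mul_mat, rf_one_mat]
  have e := congrArg IM.mat hgM
  rw [rf_mul_mat, rf_one_mat] at e
  exact mul_eq_one_comm.1 e

/-! ### The elements of the stabiliser -/

theorem hl_real {r : Row} (hok : r.ok = true) {M : IM} (hM : M ∈ r.hl) :
    ∃ g ∈ linGrp r.gens, IsAff g M.mat 0 := by
  have hr := Row.ok_OK hok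
  rw [Row.hl, List.mem_map] at hM
  obtain ⟨p, hp, rfl⟩ := hM
  obtain ⟨k, hk, -, rfl⟩ := rf_of_mem_take _ FA.one hp
  exact hr.hl_real k hk

theorem hl_of {r : Row} (hok : r.ok = true) {M : IM} {g : Equiv.Perm V3}
    (hg : g ∈ linGrp r.gens) (h : IsAff g M.mat 0) : M ∈ r.hl := by
  obtain ⟨N, hN, hgN⟩ := (Row.mem_H hok).1 hg
  rw [rf_mat_inj (rf_unique h hgN).1]
  exact hN

theorem lin_mul {g h : Equiv.Perm V3} {M N : IM} (hg : IsAff g M.mat 0) (hh : IsAff h N.mat 0) :
    IsAff (g * h) (M.mul N).mat 0 := by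
  have h2 := rf_mul hg hh
  rw [mulVec_zero, add_zero] at h2
  rw [rf_mul_mat]
  exact h2

theorem hl_one {r : Row} (hok : r.ok = true) : IM.one ∈ r.hl :=
  hl_of hok (one_mem _) (by rw [rf_one_mat]; exact rf_one)

theorem hl_mul {r : Row} (hok : r.ok = true) {M N : IM} (hM : M ∈ r.hl) (hN : N ∈ r.hl) :
    M.mul N ∈ r.hl := by
  obtain ⟨g, hg, hgM⟩ := hl_real hok hM
  obtain ⟨h, hh, hhN⟩ := hl_real hok hN
  exact hl_of hok (mul_mem hg hh) (lin_mul hgM hhN)

theorem hl_inv {r : Row} (hok : r.ok = true) {M : IM} (hM : M ∈ r.hl) :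
    ∃ N ∈ r.hl, N.mul M = IM.one := by
  obtain ⟨g, hg, hgM⟩ := hl_real hok hM
  obtain ⟨N, hN, hgN⟩ := (Row.mem_H hok).1 (inv_mem hg)
  refine ⟨N, hN, ?_⟩
  have h := lin_mul hgN hgM
  rw [inv_mul_cancel] at h
  apply rf_mat_inj
  rw [rf_one_mat]
  exact (rf_unique h rf_one).1

theorem inv_mul {r : Row} (hok : r.ok = true) {M : IM} (hM : M ∈ r.hl) :
    (inv r.hl M).mul M = IM.one := by
  obtain ⟨N, hN, hNM⟩ := hl_inv hok hM
  have hs : (r.hl.find? (fun K => decide (K.mul M = IM.one))).isSome = true := by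
    rw [List.find?_isSome]
    exact ⟨N, hN, by simpa using hNM⟩
  obtain ⟨K, hK⟩ := Option.isSome_iff_exists.1 hs
  have h2 := List.find?_some hK
  rw [decide_eq_true_eq] at h2
  rw [inv, hK]
  exact h2

/-- If `a` and `b` generate the stabiliser, all its elements are in the list `gen a b`. -/
theorem gen_contains {r : Row} (hok : r.ok = true) (hlen : r.hl.length ≤ 12) {A B : Equiv.Perm V3}
    {a b : IM} (ha : a ∈ r.hl) (hb : b ∈ r.hl) (hA : IsAff A a.mat 0) (hB : IsAff B b.mat 0)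
    (hst : stab A B = linGrp r.gens) : r.hl.all (fun M => (gen a b).contains M) = true := by
  have hab : ∀ g ∈ [a, b], g ∈ r.hl := by
    intro g hg
    simp only [List.mem_cons, List.not_mem_nil, or_false] at hg
    rcases hg with rfl | rfl
    · exact ha
    · exact hb
  have hex : ExOK [a, b] := exOK_pair (hl_one hok) (fun g hg M hM => hl_mul hok (hab g hg) hM)
    hlen (fun g hg => (hl_inv hok (hab g hg)).imp fun _ h => h.2)
  rw [List.all_eq_true]
  intro M hM
  rw [List.contains_iff_mem]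
  obtain ⟨g, hg, hgM⟩ := hl_real hok hM
  rw [← hst, ← linGrp_pair hA hB] at hg
  obtain ⟨N, hN, hgN⟩ := (elts_iff hex).1 hg
  rw [rf_mat_inj (rf_unique hgM hgN).1]
  exact hN

/-! ### Maps given by a pair of matrices and a vector -/

/-- `g` is the map `x ↦ M x + X w` for `p = (M, X)`. -/
def IsF (w : V3) (g : Equiv.Perm V3) (p : FA) : Prop := IsAff g p.M.mat (p.X.mat *ᵥ w)

section
variable {w : V3} {g h : Equiv.Perm V3} {p q : FA}

theorem IsF.mul (hg : IsF w g p) (hh : IsF w h q) : IsF w (g * h) (p.mul q) := by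
  have h1 : IsAff g p.M.mat (p.X.mat *ᵥ w + 0) := by
    rw [add_zero]
    exact hg
  have h2 := rf_comp h1 hh
  rw [add_zero] at h2
  exact h2

theorem isF_lin {M : IM} : IsF w g ⟨M, IM.zero⟩ ↔ IsAff g M.mat 0 := by
  unfold IsF
  rw [rf_zero_mat, zero_mulVec]

theorem isF_one : IsF w 1 FA.one := by
  refine isF_lin.2 ?_
  rw [rf_one_mat]
  exact rf_one

theorem IsF.M_eq (hp : IsF w g p) (hq : IsF w g q) : p.M = q.M := rf_mat_inj (rf_unique hp hq).1

theorem IsF.X_eq (hp : IsF w g p) (hq : IsF w g q) : p.X.mat *ᵥ w = q.X.mat *ᵥ w :=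
  (rf_unique hp hq).2

theorem IsF.zero (hp : IsF w g p) : g 0 = p.X.mat *ᵥ w := by
  rw [hp 0, mulVec_zero, zero_add]

theorem IsF.of_eq (hp : IsF w g p) (h1 : p.M.mat = q.M.mat) (h2 : p.X.mat = q.X.mat) :
    IsF w g q := by
  have e1 := rf_mat_inj h1
  have e2 := rf_mat_inj h2
  cases p
  cases q
  simp only at e1 e2
  subst e1 e2
  exact hp

end

theorem sub_mat (M N : IM) : (M.sub N).mat = M.mat - N.mat := by
  ext i j
  fin_cases i <;> fin_cases j <;> simp [IM.sub, IM.mat, IV.sub]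

theorem kills_pt {f : Fam} {D : IM} (h : kills f D = true) (n : IV) (x y : ℝ) :
    D.mat *ᵥ f.pt n x y = 0 := by
  simp only [kills, Bool.and_eq_true, decide_eq_true_eq] at h
  obtain ⟨⟨⟨⟨⟨h1, h2⟩, h3⟩, h4⟩, h5⟩, h6⟩ := h
  have e : ∀ v : IV, D.mv v = ⟨0, 0, 0⟩ → D.mat *ᵥ v.vec = 0 := fun v hv => by
    rw [← ii_mv_vec, hv, ii_vec_zero]
  unfold Fam.pt
  simp only [mulVec_add, mulVec_smul, e _ h1, e _ h2, e _ h3, e _ h4, e _ h5, e _ h6, smul_zero,
    add_zero]

/-- The linear form with coefficients `u`. -/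
def form (u : IV) (w : V3) : ℝ := u.x * w 0 + u.y * w 1 + u.z * w 2

theorem form_vec (u v : IV) : form u v.vec = (u.dot v : ℤ) := by
  simp [form, IV.vec, IV.dot]

theorem form_pt {f : Fam} {u : IV} (h : offU f u = true) (hd : 0 < f.den) (n : IV) (x y : ℝ) :
    form u (f.pt n x y) ≠ 0 := by
  simp only [offU, Bool.and_eq_true, decide_eq_true_eq, Bool.not_eq_true',
    decide_eq_false_iff_not] at h
  obtain ⟨⟨⟨⟨⟨h1, h2⟩, h3⟩, h4⟩, h5⟩, h6⟩ := h
  have e1 := form_vec u f.T1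
  have e2 := form_vec u f.T2
  have e3 := form_vec u f.T3
  have e4 := form_vec u f.K1
  have e5 := form_vec u f.K2
  have e6 := form_vec u f.v
  rw [h1] at e1
  rw [h2] at e2
  rw [h3] at e3
  rw [h4] at e4
  rw [h5] at e5
  have hd' : ((f.den : ℝ)⁻¹) ≠ 0 := inv_ne_zero (by exact_mod_cast hd.ne')
  have h6' : ((u.dot f.v : ℤ) : ℝ) ≠ 0 := by exact_mod_cast h6
  have e : form u (f.pt n x y) = ((f.den : ℝ)⁻¹) * form u f.v.vec := by
    simp only [form, Int.cast_zero] at e1 e2 e3 e4 e5 ⊢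
    simp only [Fam.pt, Pi.add_apply, Pi.smul_apply, smul_eq_mul]
    linear_combination ((f.den : ℝ)⁻¹) * n.x * e1 + ((f.den : ℝ)⁻¹) * n.y * e2 +
      ((f.den : ℝ)⁻¹) * n.z * e3 + x * e4 + y * e5
  rw [e, e6]
  exact mul_ne_zero hd' h6'

theorem off_pt {f : Fam} {D : IM} (h : off f D = true) (hd : 0 < f.den) (n : IV) (x y : ℝ) :
    D.mat *ᵥ f.pt n x y ≠ 0 := by
  intro h0
  simp only [off, Bool.or_eq_true] at h
  rcases h with (h | h) | h
  · apply form_pt h hd n x y
    have e := congrFun h0 0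
    simpa [IM.mat, mulVec, dotProduct, Fin.sum_univ_three, form] using e
  · apply form_pt h hd n x y
    have e := congrFun h0 1
    simpa [IM.mat, mulVec, dotProduct, Fin.sum_univ_three, form] using e
  · apply form_pt h hd n x y
    have e := congrFun h0 2
    simpa [IM.mat, mulVec, dotProduct, Fin.sum_univ_three, form] using e

/-! ### The cases of the check -/

section
variable {c : Cls} {A B s : Equiv.Perm V3} {w : V3} {a b : IM} {p q : FA}

theorem lin_one {g : Equiv.Perm V3} (h : IsAff g IM.one.mat 0) : g = 1 := by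
  rw [rf_one_mat] at h
  exact rf_ext h rf_one

theorem rel_false (hA : IsF w A ⟨a, IM.zero⟩) (hB : IsF w B ⟨b, IM.zero⟩) (hs : IsF w s p)
    (hsi : IsF w s⁻¹ q) (hrel : Rel c A B s 0) : relNo c a b p.M q.M = false := by
  have aa : A * A = 1 → a.mul a = IM.one := fun h => by
    have h1 := hA.mul hA
    rw [h] at h1
    exact h1.M_eq isF_one
  have bb : B * B = 1 → b.mul b = IM.one := fun h => by
    have h1 := hB.mul hB
    rw [h] at h1
    exact h1.M_eq isF_one
  have b1 : B = 1 → b = IM.one := fun h => by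
    have h1 := hB
    rw [h] at h1
    exact h1.M_eq isF_one
  have ss : s * s = 1 → p.M.mul p.M = IM.one := fun h => by
    have h1 := hs.mul hs
    rw [h] at h1
    exact h1.M_eq isF_one
  have sb : s * B = B * s → p.M.mul b = b.mul p.M := fun h => by
    have h1 := hs.mul hB
    rw [h] at h1
    exact h1.M_eq (hB.mul hs)
  have sas : B = s⁻¹ * A * s → b = (q.M.mul a).mul p.M := fun h => by
    have h1 := hB
    rw [h] at h1
    exact h1.M_eq ((hsi.mul hA).mul hs)
  cases c with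
  | reg =>
    obtain ⟨h1, h2, h3, h4⟩ := hrel
    simp [relNo, aa h1, bb h2, ss h3, sb h4]
  | c2 =>
    obtain ⟨h1, h2⟩ := hrel
    simp [relNo, b1 h1, ss h2]
  | c20 =>
    obtain ⟨h1, h2⟩ := hrel
    simp [relNo, b1 h1, ss h2]
  | c21 =>
    obtain ⟨h1, h2, h3⟩ := hrel
    simp [relNo, aa h1, bb h2, ss h3]
  | c22 =>
    obtain ⟨h1, -, h3⟩ := hrel
    simp [relNo, aa h1, ← sas h3]
  | c4a =>
    have h1 : B = 1 := hrel
    simp [relNo, b1 h1]
  | c4b =>
    obtain ⟨h1, h2⟩ := hrel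
    simp [relNo, aa h1, bb h2]

theorem nd_false (hA : IsAff A a.mat 0) (hB : IsAff B b.mat 0) (hnd : Nondeg c A B s 0) :
    ndNo c a b = false := by
  have a1 : A ≠ 1 → a ≠ IM.one := by
    rintro h rfl
    exact h (lin_one hA)
  have b1 : B ≠ 1 → b ≠ IM.one := by
    rintro h rfl
    exact h (lin_one hB)
  have aa : A * A ≠ 1 → a.mul a ≠ IM.one := by
    intro h h'
    have h2 := lin_mul hA hA
    rw [h'] at h2
    exact h (lin_one h2)
  have ab : A ≠ B → a ≠ b := by
    rintro h rfl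
    exact h (rf_ext hA hB)
  cases c with
  | reg =>
    obtain ⟨-, -, h3, -⟩ := hnd
    have h4 : A ≠ 1 := by
      rintro rfl
      exact h3 rfl
    simp [ndNo, a1 h4]
  | c2 =>
    obtain ⟨-, -, h3, h4⟩ := hnd
    simp [ndNo, a1 h3, aa h4]
  | c20 =>
    obtain ⟨-, -, h3, h4⟩ := hnd
    simp [ndNo, a1 h3, aa h4]
  | c21 =>
    obtain ⟨-, -, h3, h4, h5⟩ := hnd
    simp [ndNo, a1 h3, b1 h4, ab h5]
  | c22 =>
    obtain ⟨-, -, h3, -⟩ := hnd
    have h4 : A ≠ 1 := by
      rintro rfl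
      exact h3 rfl
    simp [ndNo, a1 h4]
  | c4a =>
    obtain ⟨-, -, h3, -⟩ := hnd
    simp [ndNo, a1 h3]
  | c4b =>
    obtain ⟨-, -, h3, h4, -⟩ := hnd
    simp [ndNo, a1 h3, b1 h4]

theorem free_of (h : needFree c = true) (hnd : Nondeg c A B s 0) : Free A B s 0 := by
  cases c with
  | reg => simp [needFree] at h
  | c2 => exact hnd.2.1
  | c20 => exact hnd.2.1
  | c21 => exact hnd.2.1
  | c22 => simp [needFree] at h
  | c4a => exact hnd.2.1
  | c4b => exact hnd.2.1

theorem apart_of (h : needApart c = true) (hnd : Nondeg c A B s 0) : Apart A B s 0 := by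
  cases c with
  | reg => simp [needApart] at h
  | c2 => simp [needApart] at h
  | c20 => simp [needApart] at h
  | c21 => simp [needApart] at h
  | c22 => exact hnd.2.2.2
  | c4a => exact hnd.2.2.2
  | c4b => exact hnd.2.2.2.2

theorem inv_of (h : needInv c = true) (hrel : Rel c A B s 0) : s * s = 1 := by
  cases c with
  | reg => exact hrel.2.2.1
  | c2 => exact hrel.2
  | c20 => exact hrel.2
  | c21 => exact hrel.2.2
  | c22 => simp [needInv] at h
  | c4a => simp [needInv] at h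
  | c4b => simp [needInv] at h

theorem van_zero (hA : IsAff A a.mat 0) (hs : IsF w s p) (hrel : Rel c A B s 0) :
    (van c a p).mat *ᵥ w = 0 := by
  unfold van
  split_ifs with h1 h2
  · have h3 := hs.mul hs
    rw [inv_of h1 hrel] at h3
    have h4 := h3.X_eq isF_one
    change (p.X.add (p.M.mul p.X)).mat *ᵥ w = IM.zero.mat *ᵥ w at h4
    rw [rf_zero_mat, zero_mulVec, rf_add_mat] at h4
    rw [rf_add_mat, add_comm]
    exact h4
  · subst h2
    have h3 := hrel.2.1
    rw [hs.zero, hA, mulVec_mulVec, add_zero] at h3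
    rw [sub_mat, rf_mul_mat, sub_mulVec, h3, sub_self]
  · rw [rf_zero_mat, zero_mulVec]

/-- The other triples of generators. -/
theorem oth_real {ai : IM} (hA : IsF w A ⟨a, IM.zero⟩) (hAi : IsF w A⁻¹ ⟨ai, IM.zero⟩)
    (hB : IsF w B ⟨b, IM.zero⟩) (hs : IsF w s p) (hsi : IsF w s⁻¹ q)
    {T : FA × FA × FA} (hT : T ∈ oth c ⟨a, IM.zero⟩ ⟨ai, IM.zero⟩ ⟨b, IM.zero⟩ p q) :
    ∃ T' ∈ others c A B s, IsAff T'.1 T.1.M.mat 0 ∧ IsAff T'.2.1 T.2.1.M.mat 0 ∧
      IsF w T'.2.2 T.2.2 := by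
  have hA' := isF_lin.1 hA
  have hAi' := isF_lin.1 hAi
  have hB' := isF_lin.1 hB
  cases c with
  | reg => simp [oth] at hT
  | c2 =>
    simp only [oth, List.mem_singleton] at hT
    subst hT
    exact ⟨_, List.mem_singleton.2 rfl, hAi', hB', hs⟩
  | c20 =>
    simp only [oth, List.mem_singleton] at hT
    subst hT
    exact ⟨_, List.mem_singleton.2 rfl, hAi', hB', hs⟩
  | c21 =>
    simp only [oth, List.mem_singleton] at hT
    subst hT
    exact ⟨_, List.mem_singleton.2 rfl, hB', hA', hs⟩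
  | c22 =>
    simp only [oth, List.mem_singleton] at hT
    subst hT
    exact ⟨_, List.mem_singleton.2 rfl, hB', hA', hsi⟩
  | c4a =>
    simp only [oth, List.mem_cons, List.not_mem_nil, or_false] at hT
    rcases hT with rfl | rfl | rfl
    · exact ⟨(A⁻¹, B, s * A), by simp [others], hAi', hB', hs.mul hA⟩
    · exact ⟨(A, B, s⁻¹ * A⁻¹), by simp [others], hA', hB', hsi.mul hAi⟩
    · exact ⟨(A⁻¹, B, s⁻¹), by simp [others], hAi', hB', hsi⟩
  | c4b =>
    simp only [oth, List.mem_singleton] at hT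
    subst hT
    exact ⟨_, List.mem_singleton.2 rfl, hB', hA', hsi⟩

theorem cert_full {f : Fam} {n : IV} {x y : ℝ} (hw : w = f.pt n x y) {k : Kind} {ai M : IM}
    (hA : IsF w A ⟨a, IM.zero⟩) (hAi : IsF w A⁻¹ ⟨ai, IM.zero⟩) (hB : IsF w B ⟨b, IM.zero⟩)
    (hs : IsF w s p) (hsi : IsF w s⁻¹ q) (hrel : Rel c A B s 0) (hM : M ∈ k.auts)
    (h : cert c f ⟨a, IM.zero⟩ ⟨ai, IM.zero⟩ ⟨b, IM.zero⟩ p q M = true) {b' c' : ℝ}
    (hb' : 0 < b') (hc' : 0 < c') : ¬ Full c (k.frame b' c') A B s := by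
  intro hF
  obtain ⟨hdet, horth⟩ := auts_orth hM hb' hc'
  obtain ⟨N, -, hNM, -⟩ := SymItem.orthF_inv hdet (M := M.mat) horth
  have hσ := rf_perm M.mat N hNM
  set σ := rfPerm M.mat N hNM with hσd
  simp only [cert, List.any_eq_true, Bool.and_eq_true, Bool.or_eq_true, decide_eq_true_eq] at h
  obtain ⟨T, hT, ⟨⟨h1, h2⟩, h3⟩, h4⟩ := h
  obtain ⟨T', hT', r1, r2, r3⟩ := oth_real hA hAi hB hs hsi hT
  have hv := van_zero (isF_lin.1 hA) hs hrel
  have hD : ((M.mul p.X).sub T.2.2.X).mat *ᵥ w = 0 := by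
    rcases h4 with (h4 | h4) | h4
    · rw [hw]
      exact kills_pt h4 n x y
    · have h5 := kills_pt h4 n x y
      rw [← hw, rf_add_mat, add_mulVec, hv, add_zero] at h5
      exact h5
    · have h5 := kills_pt h4 n x y
      rw [← hw, sub_mat, sub_mulVec, hv, sub_zero] at h5
      exact h5
  apply hF σ M.mat hσ horth
  have e1 : σ * A * σ⁻¹ = T'.1 := by
    rw [mul_inv_eq_iff_eq_mul]
    have g1 := lin_mul hσ (isF_lin.1 hA)
    have g2 := lin_mul r1 hσ
    rw [show M.mul a = T.1.M.mul M from h1] at g1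
    exact rf_ext g1 g2
  have e2 : σ * B * σ⁻¹ = T'.2.1 := by
    rw [mul_inv_eq_iff_eq_mul]
    have g1 := lin_mul hσ (isF_lin.1 hB)
    have g2 := lin_mul r2 hσ
    rw [show M.mul b = T.2.1.M.mul M from h2] at g1
    exact rf_ext g1 g2
  have e3 : σ * s * σ⁻¹ = T'.2.2 := by
    rw [mul_inv_eq_iff_eq_mul]
    have g1 := rf_mul hσ hs
    have g2 := rf_mul r3 hσ
    rw [mulVec_zero, zero_add] at g2
    rw [add_zero, mulVec_mulVec, ← rf_mul_mat, ← rf_mul_mat, h3] at g1
    have g3 : (M.mul p.X).mat *ᵥ w = T.2.2.X.mat *ᵥ w := by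
      rw [sub_mat, sub_mulVec, sub_eq_zero] at hD
      exact hD
    rw [g3] at g1
    rw [← rf_mul_mat] at g2
    exact rf_ext g1 g2
  have e4 : cnj3 σ (A, B, s) = T' := Prod.ext e1 (Prod.ext e2 e3)
  rw [e4]
  exact hT'

theorem one_full {k : Kind} {hl : List IM} {f : Fam} {n : IV} {x y : ℝ} (hw : w = f.pt n x y)
    (hden : 0 < f.den) (hH : ∀ g ∈ hl, ∃ G ∈ stab A B, IsAff G g.mat 0)
    (hA : IsF w A ⟨a, IM.zero⟩) (hAi : IsF w A⁻¹ ⟨inv hl a, IM.zero⟩)
    (hB : IsF w B ⟨b, IM.zero⟩) (hs : IsF w s p) (hsi : IsF w s⁻¹ q) (hrel : Rel c A B s 0)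
    (hnd : Nondeg c A B s 0) (h : one k hl f a b p q c = true) {b' c' : ℝ} (hb' : 0 < b')
    (hc' : 0 < c') : ¬ Full c (k.frame b' c') A B s := by
  simp only [one, Bool.or_eq_true, Bool.and_eq_true, List.any_eq_true] at h
  rcases h with ((((h | h) | h) | h) | h) | h
  · rw [rel_false hA hB hs hsi hrel] at h
    exact absurd h (by simp)
  · rw [nd_false (isF_lin.1 hA) (isF_lin.1 hB) hnd] at h
    exact absurd h (by simp)
  · exfalso
    obtain ⟨h1, h2⟩ := h
    simp only [freeNo, List.any_eq_true, Bool.and_eq_true, decide_eq_true_eq] at h2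
    obtain ⟨g, hg, hg1, hk⟩ := h2
    obtain ⟨G, hG, hGg⟩ := hH g hg
    have e := kills_pt hk n x y
    rw [← hw, sub_mat, sub_mulVec, sub_eq_zero, rf_mul_mat] at e
    have h3 := free_of h1 hnd G hG (by rw [hs.zero, hGg, mulVec_mulVec, add_zero, e])
    rw [h3] at hGg
    apply hg1
    apply rf_mat_inj
    rw [rf_one_mat]
    exact (rf_unique hGg rf_one).1
  · exfalso
    obtain ⟨h1, h2⟩ := h
    simp only [apartNo, List.any_eq_true] at h2
    obtain ⟨g, hg, hk⟩ := h2
    obtain ⟨G, hG, hGg⟩ := hH g hg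
    have e := kills_pt hk n x y
    rw [← hw, sub_mat, sub_mulVec, sub_eq_zero, rf_mul_mat] at e
    exact apart_of h1 hnd G hG (by rw [hs.zero, hGg, mulVec_mulVec, add_zero, e, hsi.zero])
  · exfalso
    apply off_pt h.2 hden n x y
    rw [← hw]
    exact van_zero (isF_lin.1 hA) hs hrel
  · obtain ⟨M, hM, hc⟩ := h
    exact cert_full hw hA hAi hB hs hsi hrel hM hc hb' hc'

end

/-! ### Conjugation -/

theorem others_cnj3 (c : Cls) (h A B s : Equiv.Perm V3) :
    others c (h * A * h⁻¹) (h * B * h⁻¹) (h * s * h⁻¹) = (others c A B s).map (cnj3 h) := by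
  have e1 : ∀ g : Equiv.Perm V3, (h * g * h⁻¹)⁻¹ = h * g⁻¹ * h⁻¹ := fun g => by group
  have e2 : ∀ g k : Equiv.Perm V3, h * g * h⁻¹ * (h * k * h⁻¹) = h * (g * k) * h⁻¹ :=
    fun g k => by group
  cases c <;> simp [others, cnj3, e1, e2]

theorem full_cnj {c : Cls} {F : M3} (hF : F.det ≠ 0) {h A B s : Equiv.Perm V3} {M : M3}
    (hh : IsAff h M 0) (hM : OrthF F M) (hfull : Full c F A B s) :
    Full c F (h * A * h⁻¹) (h * B * h⁻¹) (h * s * h⁻¹) := by
  intro σ K hσ hK hmem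
  obtain ⟨N, -, hNM, hN⟩ := SymItem.orthF_inv hF hM
  have hi := rf_inv hh hNM
  rw [mulVec_zero, neg_zero] at hi
  have h1 := rf_mul hi (rf_mul hσ hh)
  simp only [mulVec_zero, add_zero] at h1
  apply hfull _ _ h1 (SymItem.orthF_mul hF hN (SymItem.orthF_mul hF hK hM))
  rw [others_cnj3, List.mem_map] at hmem
  obtain ⟨T, hT, hTe⟩ := hmem
  have e1 : cnj3 σ (h * A * h⁻¹, h * B * h⁻¹, h * s * h⁻¹) = cnj3 σ (cnj3 h (A, B, s)) := rfl
  rw [e1, Uniq.cnj3_mul] at hTe
  have e2 : cnj3 (h⁻¹ * (σ * h)) (A, B, s) = cnj3 h⁻¹ (cnj3 (σ * h) (A, B, s)) := by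
    rw [Uniq.cnj3_mul]
  rw [e2, ← hTe, Uniq.cnj3_mul, inv_mul_cancel]
  have e3 : cnj3 1 T = T := by simp [cnj3]
  rw [e3]
  exact hT

/-! ### Rows of the blocks -/

theorem pick_zip {α β : Type} {l : List α} {m : List β} (h : l.length = m.length) {idx : List ℕ}
    {a : α} (ha : a ∈ pick l idx) : ∃ b, (a, b) ∈ pick (l.zip m) idx := by
  rw [pick, List.mem_filterMap] at ha
  obtain ⟨i, hi, hia⟩ := ha
  rw [List.getElem?_eq_some_iff] at hia
  obtain ⟨hil, hia⟩ := hia
  have him : i < m.length := h ▸ hil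
  refine ⟨m[i], ?_⟩
  rw [pick, List.mem_filterMap]
  refine ⟨i, hi, ?_⟩
  rw [List.getElem?_eq_some_iff]
  refine ⟨by simp [hil, him], ?_⟩
  rw [List.getElem_zip, hia]

theorem pick_sub {α : Type} {l : List α} {idx : List ℕ} {a : α} (ha : a ∈ pick l idx) :
    a ∈ l := by
  rw [pick, List.mem_filterMap] at ha
  obtain ⟨i, -, hia⟩ := ha
  exact List.mem_of_getElem? hia

theorem fam_den {k : Kind} {b : Block} {rl : Row × List LatE} (hr : BlockOK k b rl) {f : Fam}
    (hf : f ∈ b.fams) : 0 < f.den := by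
  obtain ⟨L, hL⟩ := ii_zip hr.len hf
  exact (ii_famOK (hr.fams _ hL).1).1

theorem row_of {b : Block} (hb : b ∈ voids) : ∃ k rl, BlockOK k b rl ∧ rl.1.hl.length ≤ 12 ∧
    ∀ f ∈ b.fams, famChk k rl.1 f = true := by
  rw [voids, List.mem_append, List.mem_append] at hb
  rcases hb with (hb | hb) | hb
  · obtain ⟨r, hr⟩ := pick_zip tet_ok.1 hb
    exact ⟨_, r, tet_ok.2 _ (pick_sub hr), of_decide_eq_true (List.all_eq_true.1 tet_len _ hr),
      List.all_eq_true.1 (List.all_eq_true.1 tet_chk _ hr)⟩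
  · obtain ⟨r, hr⟩ := pick_zip hex_ok.1 hb
    exact ⟨_, r, hex_ok.2 _ (pick_sub hr), of_decide_eq_true (List.all_eq_true.1 hex_len _ hr),
      List.all_eq_true.1 (List.all_eq_true.1 hex_chk _ hr)⟩
  · obtain ⟨r, hr⟩ := pick_zip ort_ok.1 hb
    exact ⟨_, r, ort_ok.2 _ (pick_sub hr), of_decide_eq_true (List.all_eq_true.1 ort_len _ hr),
      List.all_eq_true.1 (List.all_eq_true.1 ort_chk _ hr)⟩

theorem map_conj_self {G : Type*} [Group G] {H : Subgroup G} {g : G} (hg : g ∈ H) :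
    H.map (MulAut.conj g).toMonoidHom = H := by
  ext x
  rw [Subgroup.mem_map]
  constructor
  · rintro ⟨y, hy, rfl⟩
    exact mul_mem (mul_mem hg hy) (inv_mem hg)
  · intro hx
    refine ⟨g⁻¹ * x * g, mul_mem (mul_mem (inv_mem hg) hx) hg, ?_⟩
    change g * (g⁻¹ * x * g) * g⁻¹ = x
    group

/-- The core: all data are given by matrices. -/
theorem core {k : Kind} {r : Row} {f : Fam} (hok : r.ok = true) (hlen : r.hl.length ≤ 12)
    (hden : 0 < f.den) (hchk : famChk k r f = true) {n : IV} {x y : ℝ}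
    {c : Cls} {A B t h : Equiv.Perm V3} (hst : stab A B = linGrp r.gens)
    (ht : IsAff t r.S.mat (f.pt n x y)) (hh : h ∈ linGrp r.gens) {b' c' : ℝ}
    (hb' : 0 < b') (hc' : 0 < c') :
    (Rel c A B (t * h) 0 → Nondeg c A B (t * h) 0 → ¬ Full c (k.frame b' c') A B (t * h)) ∧
    (Rel c A B (t⁻¹ * h) 0 → Nondeg c A B (t⁻¹ * h) 0 →
      ¬ Full c (k.frame b' c') A B (t⁻¹ * h)) := by
  have hr := Row.ok_OK hok
  have hAH : A ∈ linGrp r.gens := hst ▸ Subgroup.subset_closure (Or.inl rfl)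
  have hBH : B ∈ linGrp r.gens := hst ▸ Subgroup.subset_closure (Or.inr rfl)
  obtain ⟨a, ha, hA⟩ := (Row.mem_H hok).1 hAH
  obtain ⟨b, hb, hB⟩ := (Row.mem_H hok).1 hBH
  obtain ⟨m, hm, hm'⟩ := (Row.mem_H hok).1 hh
  have hgen := gen_contains hok hlen ha hb hA hB hst
  have h1 := List.all_eq_true.1 (List.all_eq_true.1 hchk a ha) b hb
  rw [hgen, Bool.not_true, Bool.false_or] at h1
  have h2 := List.all_eq_true.1 h1 m hm
  simp only [] at h2
  have h3 := List.all_eq_true.1 h2 c (by cases c <;> simp)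
  rw [Bool.and_eq_true] at h3
  set w := f.pt n x y with hw
  have hlinv : ∀ {g : Equiv.Perm V3} {M : IM}, M ∈ r.hl → IsAff g M.mat 0 →
      IsF w g⁻¹ ⟨inv r.hl M, IM.zero⟩ := by
    intro g M hM hg
    have e : (inv r.hl M).mat * M.mat = 1 := by rw [← rf_mul_mat, inv_mul hok hM, rf_one_mat]
    have e2 := rf_inv hg e
    rw [mulVec_zero, neg_zero] at e2
    exact isF_lin.2 e2
  have ht1 : IsF w t ⟨r.S, IM.one⟩ := by
    unfold IsF
    rw [rf_one_mat, one_mulVec]
    exact ht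
  have ht2 : IsF w t⁻¹ ⟨r.Si, r.Si.neg⟩ := by
    have e : r.Si.mat * r.S.mat = 1 := by rw [← rf_mul_mat, hr.Si_S, rf_one_mat]
    have e2 := rf_inv ht e
    unfold IsF
    rw [rf_neg_mat, neg_mulVec]
    exact e2
  have hm1 : IsF w h ⟨m, IM.zero⟩ := isF_lin.2 hm'
  have hm2 := hlinv hm hm'
  have p1 : IsF w (t * h) ⟨r.S.mul m, IM.one⟩ := (ht1.mul hm1).of_eq rfl (by
    change (IM.one.add (r.S.mul IM.zero)).mat = _
    rw [rf_add_mat, rf_mul_mat, rf_zero_mat, Matrix.mul_zero, add_zero])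
  have p2 : IsF w (t * h)⁻¹ ⟨(inv r.hl m).mul r.Si, ((inv r.hl m).mul r.Si).neg⟩ := by
    rw [_root_.mul_inv_rev]
    refine (hm2.mul ht2).of_eq rfl ?_
    change (IM.zero.add ((inv r.hl m).mul r.Si.neg)).mat = _
    rw [rf_add_mat, rf_mul_mat, rf_zero_mat, rf_neg_mat, rf_neg_mat, rf_mul_mat, zero_add,
      Matrix.mul_neg]
  have q1 : IsF w (t⁻¹ * h) ⟨r.Si.mul m, r.Si.neg⟩ := (ht2.mul hm1).of_eq rfl (by
    change (r.Si.neg.add (r.Si.mul IM.zero)).mat = _
    rw [rf_add_mat, rf_mul_mat, rf_zero_mat, Matrix.mul_zero, add_zero])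
  have q2 : IsF w (t⁻¹ * h)⁻¹ ⟨(inv r.hl m).mul r.S, inv r.hl m⟩ := by
    rw [_root_.mul_inv_rev, inv_inv]
    refine (hm2.mul ht1).of_eq rfl ?_
    change (IM.zero.add ((inv r.hl m).mul IM.one)).mat = _
    rw [rf_add_mat, rf_mul_mat, rf_zero_mat, rf_one_mat, zero_add, Matrix.mul_one]
  have hH : ∀ g ∈ r.hl, ∃ G ∈ stab A B, IsAff G g.mat 0 := by
    intro g hg
    rw [hst]
    exact hl_real hok hg
  exact ⟨fun hrel hnd => one_full hw hden hH (isF_lin.2 hA) (hlinv ha hA) (isF_lin.2 hB) p1 p2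
      hrel hnd h3.1 hb' hc',
    fun hrel hnd => one_full hw hden hH (isF_lin.2 hA) (hlinv ha hA) (isF_lin.2 hB) q1 q2
      hrel hnd h3.2 hb' hc'⟩

end Void

/-- The blocks in `voids` give no generators without further symmetries. -/
theorem void_of {c : Cls} {b : Block} (hb : b ∈ Void.voids) {A B s : Equiv.Perm V3}
    (h : b.Has A B s) (hrel : Rel c A B s 0) (hnd : Nondeg c A B s 0) {b' c' : ℝ}
    (hb' : 0 < b') (hc' : 0 < c') : ¬ Full c (b.kind.frame b' c') A B s := by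
  intro hfull
  obtain ⟨k, rl, hr, hlen, hchk⟩ := Void.row_of hb
  rw [hr.kind] at hfull
  obtain ⟨hst, f, hf, n, x, y, -, t, ht, h1, hh1, h2, hh2, hs⟩ := h
  have hden := Void.fam_den hr hf
  rw [hr.S] at ht
  rw [hst, hr.gens] at hh1 hh2
  rw [hr.gens] at hst
  have hh1i : h1⁻¹ ∈ linGrp rl.1.gens := inv_mem hh1
  obtain ⟨M, hM, hM'⟩ := (Row.mem_H hr.ok).1 hh1i
  have hMa : M ∈ k.auts := by
    rw [Row.hl, List.mem_map] at hM
    obtain ⟨p, hp, rfl⟩ := hM
    exact hr.auts p (List.mem_of_mem_take hp)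
  obtain ⟨hdet, horth⟩ := auts_orth hMa hb' hc'
  have hfull' := Void.full_cnj hdet hM' horth hfull
  have hrel' := rel_cnj h1⁻¹ hrel
  have hnd' := nondeg_cnj h1⁻¹ hnd
  have h0 : h1⁻¹ 0 = 0 := by rw [hM', mulVec_zero, add_zero]
  rw [h0] at hrel' hnd'
  have hst' : stab (h1⁻¹ * A * h1⁻¹⁻¹) (h1⁻¹ * B * h1⁻¹⁻¹) = linGrp rl.1.gens := by
    rw [stab_cnj, hst, Void.map_conj_self hh1i]
  have hcore := Void.core (c := c) hr.ok hlen hden (hchk f hf) hst' ht (mul_mem hh2 hh1) hb' hc'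
  rcases hs with rfl | rfl
  · have e : h1⁻¹ * (h1 * t * h2) * h1⁻¹⁻¹ = t * (h2 * h1) := by group
    rw [e] at hrel' hnd' hfull'
    exact hcore.1 hrel' hnd' hfull'
  · have e : h1⁻¹ * (h1 * t⁻¹ * h2) * h1⁻¹⁻¹ = t⁻¹ * (h2 * h1) := by group
    rw [e] at hrel' hnd' hfull'
    exact hcore.2 hrel' hnd' hfull'

end Pool.Agent.H21.FT
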