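import Pool.Agent.H21.FT.RodCore2
import Pool.Agent.H21.FT.DefsF

/-!
# Three of the four types of rods never give full generators (helper78)
-/

set_option autoImplicit false

namespace Pool.Agent.H21.FT

open Matrix

namespace VR

theorem rt_sq {a : Bool} {b : ℝ} (hb : b * b = 1) : rt 1 a b * rt 1 a b = 1 := by
  rw [rt_mul, cj_one', mul_one, Bool.xor_self, hb, rt_one]

/-- the linear map with matrix `rt 1 a b` -/
noncomputable def sym (a : Bool) (b : ℝ) (hb : b * b = 1) : Equiv.Perm V3 where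
  toFun x := rt 1 a b *ᵥ x
  invFun x := rt 1 a b *ᵥ x
  left_inv x := by
    change rt 1 a b *ᵥ (rt 1 a b *ᵥ x) = x
    rw [mulVec_mulVec, rt_sq hb, one_mulVec]
  right_inv x := by
    change rt 1 a b *ᵥ (rt 1 a b *ᵥ x) = x
    rw [mulVec_mulVec, rt_sq hb, one_mulVec]

theorem sym_aff (a : Bool) (b : ℝ) (hb : b * b = 1) : IsAff (sym a b hb) (rt 1 a b) 0 :=
  fun x => by rw [add_zero]; rfl

theorem sym_rf (a : Bool) (b : ℝ) (hb : b * b = 1) : RF (sym a b hb) 1 a b 0 := by
  unfold RF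
  rw [tv_one]
  exact sym_aff a b hb

theorem sym_conj {α : Bool} {β : ℝ} {v : ℂ} {l : ℝ} (hβ : β = 1 ∨ β = -1) (hv : ‖v‖ = 1)
    {s : Equiv.Perm V3} (hs : RF s v α β l) (hb : (-β) * (-β) = 1) :
    sym (!α) (-β) hb * s * (sym (!α) (-β) hb)⁻¹ = s⁻¹ := by
  have h0 := sym_rf (!α) (-β) hb
  have h1 := (h0.mul hs).mul (h0.inv (by simp) (by rcases hβ with rfl | rfl <;> simp))
  have h2 := hs.inv hv hβ
  refine RF.ext' h1 ?_
  rcases hβ with rfl | rfl <;> cases α <;> simpa [cj] using h2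

theorem sym_comm {a σ : Bool} {b ε : ℝ} (hb : b * b = 1) (hε : ε = 1 ∨ ε = -1)
    {g : Equiv.Perm V3} (hg : RF g 1 σ ε 0) : sym a b hb * g * (sym a b hb)⁻¹ = g := by
  have h0 := sym_rf a b hb
  have h1 : sym a b hb * g = g * sym a b hb := by
    refine RF.ext' (h0.mul hg) ?_
    have h2 := hg.mul h0
    have e1 : (1 : ℂ) * cj σ 1 = 1 * cj a 1 := by simp
    have e2 : xor σ a = xor a σ := Bool.xor_comm _ _
    have e3 : ε * b = b * ε := mul_comm _ _
    have e4 : ε * 0 + 0 = b * 0 + 0 := by ring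
    rw [e1, e2, e3, e4] at h2
    exact h2
  rw [h1, mul_assoc, mul_inv_cancel, mul_one]

theorem sym_orth {a : Bool} {b : ℝ} (hb : b * b = 1) {b' c' : ℝ} (hc' : 0 < c') :
    OrthF (Kind.tet.frame b' c') (rt 1 a b) := by
  unfold OrthF
  set F := Kind.tet.frame b' c' with hF
  have h1 : F * rt 1 a b = rt 1 a b * F := by
    rw [hF]
    cases a <;> ext i j <;> fin_cases i <;> fin_cases j <;>
      simp [rt, Kind.frame, mul_apply, Fin.sum_univ_three] <;> ring
  have h2 : F.det ≠ 0 := by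
    rw [hF, Kind.frame, det_fin_three]
    simp [hc'.ne']
  have h3 : F * F⁻¹ = 1 := mul_nonsing_inv F (isUnit_iff_ne_zero.2 h2)
  rw [h1, mul_assoc, h3, mul_one]
  have h4 : (rt 1 a b)ᵀ = rt 1 a b := by
    cases a <;> ext i j <;> fin_cases i <;> fin_cases j <;> simp [rt]
  rw [h4, rt_sq hb]

theorem two_elts {l : List IM} {σ : Bool} {ε : ℝ} (hε : ε = 1 ∨ ε = -1)
    (hl : ∀ M ∈ l, ∀ g : Equiv.Perm V3, IsAff g M.mat 0 → RF g 1 σ ε 0) :
    ∀ g ∈ linGrp l, g = 1 ∨ RF g 1 σ ε 0 := by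
  have hεε : ε * ε = 1 := by rcases hε with rfl | rfl <;> norm_num
  intro g hg
  unfold linGrp at hg
  induction hg using Subgroup.closure_induction with
  | mem g h =>
    obtain ⟨M, hM, h⟩ := h
    exact Or.inr (hl M hM g h)
  | one => exact Or.inl rfl
  | mul g g' _ _ ih ih' =>
    rcases ih with rfl | ih
    · rw [one_mul]; exact ih'
    rcases ih' with rfl | ih'
    · rw [mul_one]; exact Or.inr ih
    left
    refine RF.ext' (ih.mul ih') ?_
    have h1 := RF.one
    simpa [hεε] using h1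
  | inv g _ ih =>
    rcases ih with rfl | ih
    · exact Or.inl inv_one
    right
    have h1 := ih.inv (by simp) hε
    simpa using h1

/-- the form of `s` -/
theorem s_form {σ : Bool} {ε ε' l : ℝ} {w : ℂ} (hw : ‖w‖ = 1) (him : w.im ≠ 0)
    (hl : l = 1 ∨ l = -1) (hε : ε = 1 ∨ ε = -1) (hε' : ε' = 1 ∨ ε' = -1)
    (hσ : ε = 1 ∨ (ε = -1 ∧ σ = true ∧ ε' = -1)) (hσ' : ε' = 1 ∨ ε = -1 ∨ σ = false)
    {t h h' : Equiv.Perm V3} (ht : RF t w false ε l) (hh : h = 1 ∨ RF h 1 σ ε' 0)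
    (hh' : h' = 1 ∨ RF h' 1 σ ε' 0) :
    ∃ v α β k, ‖v‖ = 1 ∧ v.im ≠ 0 ∧ (β = 1 ∨ (β = -1 ∧ α = false)) ∧ (k = 1 ∨ k = -1) ∧
      RF (h * t * h') v α β k := by
  have hεε : ε' * ε' = 1 := by rcases hε' with rfl | rfl <;> norm_num
  have hcj : ∀ a : Bool, (cj a w).im ≠ 0 := by
    intro a
    cases a <;> simpa [cj] using him
  rcases hh with rfl | hh
  · rcases hh' with rfl | hh'
    · refine ⟨w, false, ε, l, hw, him, ?_, hl, by simpa using ht⟩
      rcases hε with h | h
      · exact Or.inl h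
      · exact Or.inr ⟨h, rfl⟩
    · have h1 := ht.mul hh'
      refine ⟨w, σ, ε * ε', l, hw, him, ?_, hl, by simpa [cj] using h1⟩
      rcases hσ with rfl | ⟨rfl, rfl, rfl⟩
      · rcases hσ' with rfl | h | rfl
        · left; norm_num
        · exfalso; norm_num at h
        · rcases hε' with rfl | rfl
          · left; norm_num
          · right; constructor
            · norm_num
            · rfl
      · left; norm_num
  · rcases hh' with rfl | hh'
    · have h1 := hh.mul ht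
      refine ⟨cj σ w, σ, ε' * ε, ε' * l, by rw [cj_norm, hw], hcj σ, ?_, ?_, ?_⟩
      · rcases hσ with rfl | ⟨rfl, rfl, rfl⟩
        · rcases hσ' with rfl | h | rfl
          · left; norm_num
          · exfalso; norm_num at h
          · rcases hε' with rfl | rfl
            · left; norm_num
            · right; constructor
              · norm_num
              · rfl
        · left; norm_num
      · rcases hε' with rfl | rfl <;> rcases hl with rfl | rfl <;> norm_num
      · rw [mul_one]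
        simpa using h1
    · have h1 := (hh.mul ht).mul hh'
      refine ⟨cj σ w, false, ε, ε' * l, by rw [cj_norm, hw], hcj σ, ?_, ?_, ?_⟩
      · rcases hε with h | h
        · exact Or.inl h
        · exact Or.inr ⟨h, rfl⟩
      · rcases hε' with rfl | rfl <;> rcases hl with rfl | rfl <;> norm_num
      · have e1 : ε' * ε * ε' = ε := by
          rw [mul_comm ε' ε, mul_assoc, hεε, mul_one]
        rw [e1] at h1
        simpa using h1

theorem sq_ne {v : ℂ} {α : Bool} {β k : ℝ} (him : v.im ≠ 0)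
    (hβ : β = 1 ∨ (β = -1 ∧ α = false)) (hk : k = 1 ∨ k = -1) {s : Equiv.Perm V3}
    (hs : RF s v α β k) : s * s ≠ 1 := by
  intro h
  have h1 := hs.mul hs
  rw [h] at h1
  obtain ⟨h2, h3⟩ := h1.fix rfl
  rcases hβ with rfl | ⟨rfl, rfl⟩
  · rcases hk with rfl | rfl <;> norm_num at h3
  · have h4 := congrArg Complex.re h2
    have h5 := congrArg Complex.im h2
    simp only [cj, Complex.mul_re, Complex.mul_im, Complex.one_re, Complex.one_im] at h4 h5
    have h6 : v.re = 0 := by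
      have h7 : v.re * v.im = 0 := by linarith
      exact (mul_eq_zero.1 h7).resolve_right him
    rw [h6] at h4
    nlinarith [mul_self_nonneg v.im]

theorem core {c : Cls} {A B s : Equiv.Perm V3} {σ : Bool} {ε : ℝ} (hε : ε = 1 ∨ ε = -1)
    (hA : A = 1 ∨ RF A 1 σ ε 0) (hB : B = 1 ∨ RF B 1 σ ε 0) {v : ℂ} {α : Bool} {β k : ℝ}
    (hv : ‖v‖ = 1) (him : v.im ≠ 0) (hβ : β = 1 ∨ (β = -1 ∧ α = false)) (hk : k = 1 ∨ k = -1)
    (hs : RF s v α β k) (hrel : Rel c A B s 0) (hnd : Nondeg c A B s 0) {b' c' : ℝ}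
    (hc' : 0 < c') : ¬ Full c (Kind.tet.frame b' c') A B s := by
  have hss := sq_ne him hβ hk hs
  have hεε : ε * ε = 1 := by rcases hε with rfl | rfl <;> norm_num
  have hβ' : β = 1 ∨ β = -1 := by
    rcases hβ with h | ⟨h, -⟩
    · exact Or.inl h
    · exact Or.inr h
  have hb : (-β) * (-β) = 1 := by rcases hβ' with rfl | rfl <;> norm_num
  have hcs := sym_conj hβ' hv hs hb
  have hinv : ∀ g : Equiv.Perm V3, RF g 1 σ ε 0 → g⁻¹ = g := by
    intro g hg
    refine RF.ext' (hg.inv (by simp) hε) ?_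
    simpa using hg
  have hfull : ∀ P : Prop, (cnj3 (sym (!α) (-β) hb) (A, B, s) ∈ others c A B s) →
      ¬ Full c (Kind.tet.frame b' c') A B s :=
    fun _ hm hf => hf _ _ (sym_aff (!α) (-β) hb) (sym_orth hb hc') hm
  cases c with
  | reg => exact absurd hrel.2.2.1 hss
  | c2 => exact absurd hrel.2 hss
  | c20 => exact absurd hrel.2 hss
  | c21 => exact absurd hrel.2.2 hss
  | c22 =>
    exfalso
    obtain ⟨hAA, hAs, hBs⟩ := hrel
    obtain ⟨-, -, hne, -⟩ := hnd
    have hA1 : A ≠ 1 := by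
      rintro rfl
      exact hne rfl
    have hA' := hA.resolve_left hA1
    have hB1 : B ≠ 1 := by
      intro h
      apply hA1
      rw [h] at hBs
      have h2 : A = s * 1 * s⁻¹ := by
        rw [hBs]
        group
      rw [h2]
      group
    have hB' := hB.resolve_left hB1
    have hAB : B = A := RF.ext' hB' hA'
    rw [hAB] at hBs
    apply hne
    have h3 : A * s⁻¹ = s⁻¹ * A := by
      conv_lhs => rw [hBs]
      group
    have h4 : A 0 = 0 := by
      rw [hA'.zero, tv_one]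
    calc A (s⁻¹ 0) = (A * s⁻¹) 0 := rfl
      _ = (s⁻¹ * A) 0 := by rw [h3]
      _ = s⁻¹ (A 0) := rfl
      _ = s⁻¹ 0 := by rw [h4]
  | c4a =>
    have hB1 : B = 1 := hrel
    have hA1 : A ≠ 1 := hnd.2.2.1
    have hA' := hA.resolve_left hA1
    refine hfull True ?_
    subst hB1
    have h1 := sym_comm (a := !α) hb hε hA'
    simp only [cnj3, others, List.mem_cons, List.not_mem_nil, or_false]
    right; right
    rw [h1, hcs, hinv A hA']
    simp
  | c4b =>
    have hA1 : A ≠ 1 := hnd.2.2.1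
    have hB1 : B ≠ 1 := hnd.2.2.2.1
    have hA' := hA.resolve_left hA1
    have hB' := hB.resolve_left hB1
    have hAB : B = A := RF.ext' hB' hA'
    refine hfull True ?_
    subst hAB
    have h1 := sym_comm (a := !α) hb hε hA'
    simp only [cnj3, others, List.mem_cons, List.not_mem_nil, or_false]
    rw [h1, hcs]

end VR

/-- Three of the four types of rods never give full generators. -/
theorem rod_void {c : Cls} {r : Rod} (hr : r ≠ .r1) {A B s : Equiv.Perm V3} (h : r.Has A B s)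
    (hrel : Rel c A B s 0) (hnd : Nondeg c A B s 0) {b' c' : ℝ} (hc' : 0 < c') :
    ¬ Full c (Kind.tet.frame b' c') A B s := by
  obtain ⟨hH, θ, -, hθ, t, ht, h₁, hh₁, h₂, hh₂, hs⟩ := h
  have hAm : A ∈ stab A B := Subgroup.subset_closure (Or.inl rfl)
  have hBm : B ∈ stab A B := Subgroup.subset_closure (Or.inr rfl)
  have hu : ‖(⟨Real.cos θ, Real.sin θ⟩ : ℂ)‖ = 1 := by
    rw [← sq_eq_sq₀ (norm_nonneg _) zero_le_one, ← Complex.normSq_eq_norm_sq, Complex.normSq_mk]
    nlinarith [Real.cos_sq_add_sin_sq θ]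
  have ht' : RF t ⟨Real.cos θ, Real.sin θ⟩ false r.sgn 1 := ht
  have hsg : r.sgn = 1 ∨ r.sgn = -1 := by cases r <;> simp [Rod.sgn]
  have hti := ht'.inv hu hsg
  obtain ⟨σ, ε, hε, hel, hσ, hσ'⟩ : ∃ (σ : Bool) (ε : ℝ), (ε = 1 ∨ ε = -1) ∧
      (∀ g ∈ linGrp r.gens, g = 1 ∨ RF g 1 σ ε 0) ∧
      (r.sgn = 1 ∨ (r.sgn = -1 ∧ σ = true ∧ ε = -1)) ∧ (ε = 1 ∨ r.sgn = -1 ∨ σ = false) := by
    cases r with
    | r1 => exact absurd rfl hr
    | r2 =>
      refine ⟨false, -1, Or.inr rfl, VR.two_elts (Or.inr rfl) ?_, Or.inl rfl,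
        Or.inr (Or.inr rfl)⟩
      intro M hM g hg
      simp only [Rod.gens, List.mem_cons, List.not_mem_nil, or_false] at hM
      subst hM
      exact rf_z.2 hg
    | r3 =>
      refine ⟨true, 1, Or.inl rfl, VR.two_elts (Or.inl rfl) ?_, Or.inl rfl, Or.inl rfl⟩
      intro M hM g hg
      simp only [Rod.gens, List.mem_cons, List.not_mem_nil, or_false] at hM
      subst hM
      exact rf_m.2 hg
    | r4 =>
      refine ⟨true, -1, Or.inr rfl, VR.two_elts (Or.inr rfl) ?_, Or.inr ⟨rfl, rfl, rfl⟩,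
        Or.inr (Or.inl rfl)⟩
      intro M hM g hg
      simp only [Rod.gens, List.mem_cons, List.not_mem_nil, or_false] at hM
      subst hM
      exact rf_w.2 hg
  rw [← hH] at hel
  have hform : ∃ v α β k, ‖v‖ = 1 ∧ v.im ≠ 0 ∧ (β = 1 ∨ (β = -1 ∧ α = false)) ∧
      (k = 1 ∨ k = -1) ∧ RF s v α β k := by
    rcases hs with hs | hs
    · rw [hs]
      exact VR.s_form hu hθ (Or.inl rfl) hsg hε hσ hσ' ht' (hel _ hh₁) (hel _ hh₂)
    · rw [hs]
      refine VR.s_form ?_ ?_ ?_ hsg hε hσ hσ' hti (hel _ hh₁) (hel _ hh₂)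
      · rw [cj_norm, RCLike.norm_conj, hu]
      · simpa [cj] using hθ
      · rcases hsg with h | h <;> rw [h] <;> norm_num
  obtain ⟨v, α, β, k, hv, him, hβ, hk, hsf⟩ := hform
  exact VR.core hε (hel _ hAm) (hel _ hBm) hv him hβ hk hsf hrel hnd hc'

end Pool.Agent.H21.FT
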