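import Pool.Agent.H21.FT.Entry
import Pool.Agent.H21.FT.Main
import Pool.Agent.H21.FT.GrpFull
import Pool.Agent.H21.FT.SimpleIff
import Pool.Agent.H21.FT.SpansIff
import Pool.Agent.H21.FT.Reduction2
import Pool.Agent.H21.FT.SymItem
import Pool.Agent.H21.FT.InfIff
import Pool.Agent.H21.FT.LinClass
import Pool.Agent.H21.FT.TableSound
import Pool.Agent.H21.FT.RodSound
import Pool.Agent.H21.FT.Types
import Pool.Agent.H21.FT.Void
import Pool.Agent.H21.FT.VoidRod

/-!
# The classification of the infinite fully transitive polyhedra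
-/

namespace Pool.Agent.H21.FT

open Matrix
open Pool.Agent.H38.FT (Cfg E3 FullyTransitive Similar)

/-! ### Polyhedra -/

theorem isolated_iff (P : Cfg E3) : Isolated P ↔ DiscreteTopology P.V := by
  rw [discreteTopology_subtype_iff']
  constructor
  · intro h y hy
    obtain ⟨ε, hε, hx⟩ := h y hy
    refine ⟨Metric.ball y ε, Metric.isOpen_ball, ?_⟩
    ext z
    constructor
    · rintro ⟨hz, hzS⟩
      exact hx z hzS (by rw [dist_comm]; exact hz)
    · rintro rfl
      exact ⟨Metric.mem_ball_self hε, hy⟩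
  · intro h x hx
    obtain ⟨U, hU, hUx⟩ := h x hx
    have hxU : x ∈ U := by
      have : x ∈ U ∩ P.V := by rw [hUx]; exact rfl
      exact this.1
    obtain ⟨ε, hε, hb⟩ := Metric.isOpen_iff.1 hU x hxU
    refine ⟨ε, hε, fun y hy hd => ?_⟩
    have : y ∈ U ∩ P.V := ⟨hb (by rw [Metric.mem_ball, dist_comm]; exact hd), hy⟩
    rw [hUx] at this
    exact this

theorem notCoplanar_iff {P : Cfg E3} (hne : P.V.Nonempty) :
    NotCoplanar P ↔ affineSpan ℝ P.V = ⊤ := by
  constructor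
  · intro h
    rw [AffineSubspace.affineSpan_eq_top_iff_vectorSpan_eq_top_of_nonempty ℝ E3 E3 hne]
    by_contra hW
    rw [← Submodule.orthogonal_eq_bot_iff] at hW
    obtain ⟨u, hu, hu0⟩ := Submodule.exists_mem_ne_zero_of_ne_bot hW
    obtain ⟨p, hp⟩ := hne
    obtain ⟨x, hx, hx'⟩ := h (WithLp.ofLp u) (u 0 * p 0 + u 1 * p 1 + u 2 * p 2)
      (fun h0 => hu0 ((WithLp.ofLp_eq_zero 2).1 h0))
    apply hx'
    have h2 : x - p ∈ vectorSpan ℝ P.V := vsub_mem_vectorSpan ℝ hx hp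
    have h3 := (Submodule.mem_orthogonal' _ _).1 hu _ h2
    rw [PiLp.inner_apply, Fin.sum_univ_three] at h3
    simp only [PiLp.sub_apply] at h3
    have e : ∀ a b : ℝ, inner ℝ a b = b * a := fun a b => by
      simp
    rw [e, e, e] at h3
    linear_combination h3
  · intro h n d hn
    by_contra hc
    push Not at hc
    apply hn
    refine zero_of_const h (a := n) (r := d) fun x hx => ?_
    rw [← hc x hx]
    simp [dotProduct, Fin.sum_univ_three]
    ring

theorem isPoly_iff (P : Cfg E3) :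
    IsPoly P ↔ P.IsPolyhedron ∧ DiscreteTopology P.V ∧ affineSpan ℝ P.V = ⊤ :=
  ⟨fun h => ⟨h.poly, (isolated_iff P).1 h.discrete, (notCoplanar_iff h.poly.nonempty).1 h.space⟩,
    fun h => ⟨h.1, (isolated_iff P).2 h.2.1, (notCoplanar_iff h.1.nonempty).2 h.2.2⟩⟩

/-! ### The catalogue -/

theorem mem_pick {α : Type} {l : List α} {idx : List ℕ} {a : α} :
    a ∈ Void.pick l idx ↔ ∃ i ∈ idx, l[i]? = some a := by
  simp [Void.pick, List.mem_filterMap]

/-- The positions of the cubic blocks of the catalogue. -/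
def cubPos : List ℕ := (List.range 39).filter fun i => i != 15

/-- The positions of the tetragonal blocks of the catalogue. -/
def tetPos : List ℕ := (List.range 28).filter fun i => !Void.tetIdx.contains i

/-- The positions of the hexagonal blocks of the catalogue. -/
def hexPos : List ℕ := (List.range 55).filter fun i => !Void.hexIdx.contains i

/-- The positions of the orthogonal blocks of the catalogue. -/
def ortPos : List ℕ := (List.range 8).filter fun i => !Void.ortIdx.contains i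

theorem catalogue_eq : catalogue = Void.pick cubBlocks cubPos ++ Void.pick tetBlocks tetPos ++
    Void.pick hexBlocks hexPos ++ Void.pick ortBlocks ortPos := by rfl

theorem pick_sub {α : Type} {l : List α} {idx : List ℕ} {a : α} (h : a ∈ Void.pick l idx) :
    a ∈ l := by
  obtain ⟨i, -, hi⟩ := mem_pick.1 h
  exact List.mem_of_getElem? hi

theorem catalogue_sub {b : Block} (h : b ∈ catalogue) : b ∈ table := by
  rw [catalogue_eq] at h
  simp only [List.mem_append] at h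
  simp only [table, List.mem_append]
  rcases h with ((h | h) | h) | h
  · exact Or.inl (Or.inl (Or.inl (pick_sub h)))
  · exact Or.inl (Or.inl (Or.inr (pick_sub h)))
  · exact Or.inl (Or.inr (pick_sub h))
  · exact Or.inr (pick_sub h)

theorem pick_or {α : Type} {l : List α} {n : ℕ} (hn : l.length = n) {p q : List ℕ}
    (h : ∀ i < n, i ∈ p ∨ i ∈ q) {a : α} (ha : a ∈ l) :
    a ∈ Void.pick l p ∨ a ∈ Void.pick l q := by
  obtain ⟨i, hi, rfl⟩ := List.getElem_of_mem ha
  have h' : l[i]? = some l[i] := List.getElem?_eq_getElem hi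
  rcases h i (hn ▸ hi) with h | h
  · exact Or.inl (mem_pick.2 ⟨i, h, h'⟩)
  · exact Or.inr (mem_pick.2 ⟨i, h, h'⟩)

theorem cub_empty : ∀ b ∈ Void.pick cubBlocks [15], b.fams = [] := by
  intro b hb
  obtain ⟨i, hi, hb⟩ := mem_pick.1 hb
  simp only [List.mem_cons, List.not_mem_nil, or_false] at hi
  subst hi
  have : cubBlocks[15]? = some (cubBlocks.getD 15 ⟨.cub, [], IM.one, []⟩) := by rfl
  rw [this] at hb
  injection hb with hb
  rw [← hb]
  rfl

/-- A block of the table is in the catalogue, or it has no families, or it only gives generators of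
polyhedra with further symmetries. -/
theorem table_or {b : Block} (hb : b ∈ table) : b ∈ catalogue ∨ b.fams = [] ∨ b ∈ Void.voids := by
  rw [catalogue_eq]
  simp only [table, List.mem_append] at hb
  simp only [List.mem_append, Void.voids]
  rcases hb with ((h | h) | h) | h
  · rcases pick_or (n := 39) (p := cubPos) (q := [15]) (by rfl) (by decide +kernel) h with h | h
    · exact Or.inl (Or.inl (Or.inl (Or.inl h)))
    · exact Or.inr (Or.inl (cub_empty b h))
  · rcases pick_or (n := 28) (p := tetPos) (q := Void.tetIdx) (by rfl) (by decide +kernel) h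
      with h | h
    · exact Or.inl (Or.inl (Or.inl (Or.inr h)))
    · exact Or.inr (Or.inr (Or.inl (Or.inl h)))
  · rcases pick_or (n := 55) (p := hexPos) (q := Void.hexIdx) (by rfl) (by decide +kernel) h
      with h | h
    · exact Or.inl (Or.inl (Or.inr h))
    · exact Or.inr (Or.inr (Or.inl (Or.inr h)))
  · rcases pick_or (n := 8) (p := ortPos) (q := Void.ortIdx) (by rfl) (by decide +kernel) h
      with h | h
    · exact Or.inl (Or.inr h)
    · exact Or.inr (Or.inr (Or.inr h))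

theorem tube_iff {A B s : Equiv.Perm V3} : Tube A B s ↔ Rod.r1.Has A B s := Iff.rfl

/-- A block with checked row gives infinitely many vertices iff the integral part is not zero. -/
theorem gives_iff {b : Block} (hb : b ∈ table) {A B s : Equiv.Perm V3}
    (hflat : b.kind = .tet ∨ b.kind = .hex → s 0 0 ≠ 0 ∨ s 0 1 ≠ 0) (c : Cls) :
    b.Gives A B s ↔ b.Has A B s ∧ (cfg c A B s 0).V.Infinite := by
  obtain ⟨k, rl, hr, hc⟩ := ii_row hb
  have hk := hr.kind
  rw [hk] at hflat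
  constructor
  · rintro ⟨hst, f, hf, n, x, y, hx, h0, t, ht, hl⟩
    exact ⟨⟨hst, f, hf, n, x, y, hx, t, ht, hl⟩, (ii_block hr hc hf ht hst hl hflat c).2 h0⟩
  · rintro ⟨⟨hst, f, hf, n, x, y, hx, t, ht, hl⟩, hinf⟩
    exact ⟨hst, f, hf, n, x, y, hx, (ii_block hr hc hf ht hst hl hflat c).1 hinf, t, ht, hl⟩

theorem Block.Gives.has {b : Block} {A B s : Equiv.Perm V3} (h : b.Gives A B s) : b.Has A B s := by
  obtain ⟨hst, f, hf, n, x, y, hx, -, t, ht, hl⟩ := h
  exact ⟨hst, f, hf, n, x, y, hx, t, ht, hl⟩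

theorem frame_norm (k : Kind) {b c : ℝ} (hb : 0 < b) (hc : 0 < c) :
    ∃ b' c' : ℝ, (0 < b' ∧ (k = .ort ∨ b' = 1)) ∧ (0 < c' ∧ (k ≠ .cub ∨ c' = 1)) ∧
      k.frame b' c' = k.frame b c := by
  cases k
  · exact ⟨1, 1, ⟨one_pos, Or.inr rfl⟩, ⟨one_pos, Or.inr rfl⟩, rfl⟩
  · exact ⟨1, c, ⟨one_pos, Or.inr rfl⟩, ⟨hc, Or.inl (by decide)⟩, rfl⟩
  · exact ⟨1, c, ⟨one_pos, Or.inr rfl⟩, ⟨hc, Or.inl (by decide)⟩, rfl⟩
  · exact ⟨b, c, ⟨hb, Or.inl rfl⟩, ⟨hc, Or.inl (by decide)⟩, rfl⟩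

/-- The facts on listed generators. -/
theorem entry_facts {k : Kind} {A B s : Equiv.Perm V3} (h : Listed k A B s) {b c : ℝ}
    (hb : 0 < b) (hc : 0 < c) :
    A 0 = 0 ∧ B 0 = 0 ∧ (∀ g ∈ grp A B s, g 0 = 0 → g ∈ stab A B) ∧ Disc (grp A B s) ∧
    (k.frame b c).det ≠ 0 ∧ ∀ g ∈ grp A B s, ∃ M a, IsAff g M a ∧ OrthF (k.frame b c) M := by
  rcases h with ⟨bl, hbl, rfl, hh⟩ | ⟨rfl, r, hr⟩
  · obtain ⟨h1, h2, h3, h4, h5⟩ := table_sound hbl hh
    refine ⟨h1, h2, h3, h4, ?_, fun g hg => ?_⟩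
    · obtain ⟨N, hN, -⟩ := h5 1 (one_mem _)
      exact (auts_orth hN hb hc).1
    · obtain ⟨N, hN, a, ha⟩ := h5 g hg
      exact ⟨N.mat, a, ha, (auts_orth hN hb hc).2⟩
  · obtain ⟨h1, h2, h3, h4, h5⟩ := rod_sound hr
    refine ⟨h1, h2, h3, h4, ?_, fun g hg => ?_⟩
    · simp only [Kind.frame, det_fin_three]
      simp [hc.ne']
    · exact h5 c hc g hg

/-- The facts on valid entries. -/
theorem Entry.Valid.facts {i : Entry} (h : i.Valid) :
    Good i.cls i.A i.B i.s 0 ∧ Spans (FT.cfg i.cls i.A i.B i.s 0).V ∧ i.F.det ≠ 0 ∧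
    Disc (grp i.A i.B i.s) ∧
    (∀ g ∈ grp i.A i.B i.s, ∃ M a, IsAff g M a ∧ OrthF i.F M) ∧
    (FT.cfg i.cls i.A i.B i.s 0).V.Infinite := by
  have hl : Listed i.kind i.A i.B i.s := by
    rcases h.listed with ⟨b, hb, hk, hg⟩ | ⟨hk, hr⟩
    · exact Or.inl ⟨b, catalogue_sub hb, hk, hg.has⟩
    · exact Or.inr ⟨hk, .r1, hr⟩
  obtain ⟨h1, h2, h3, h4, h5, h6⟩ := entry_facts hl h.hb.1 h.hc.1
  have hs : i.s 0 ≠ 0 := by
    have := h.nondeg
    revert this
    cases i.cls <;> intro hn <;> exact hn.1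
  refine ⟨⟨h1, h2, h.rel, h.nondeg, (simple_iff h1 h2 h.rel h.nondeg h3).2 h.distinct, h3⟩,
    (spans_iff hl hs _).2 h.flat, h5, h4, h6, ?_⟩
  rcases h.listed with ⟨b, hb, hk, hg⟩ | ⟨-, hst, θ, -, -, t, ht, hl⟩
  · exact ((gives_iff (catalogue_sub hb) (by rw [hk]; exact h.flat) i.cls).1 hg).2
  · exact ii_rod .r1 ht hst hl i.cls

theorem Entry.cfg_eq (i : Entry) :
    i.cfg = (FT.cfg i.cls i.A i.B i.s 0).map (fun x => (WithLp.toLp 2 (i.F *ᵥ x) : E3)) := rfl

/-- Every valid entry is an infinite fully transitive polyhedron. -/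
theorem Entry.Valid.poly {i : Entry} (h : i.Valid) :
    IsPoly i.cfg ∧ i.cfg.V.Infinite ∧ FullyTransitive i.cfg := by
  obtain ⟨hg, hsp, hF, hd, hi, hinf⟩ := h.facts
  obtain ⟨hc1, hc2⟩ := conv hg
  obtain ⟨r1, r2, r3, r4⟩ := realize hc1 hc2 hF hi hd hsp
  refine ⟨(isPoly_iff _).2 ⟨r1, r3, r4⟩, ?_, r2⟩
  have hinj : Function.Injective i.point := Realize.inj hF
  exact hinf.image hinj.injOn

/-- The symmetry group of a valid entry. -/
theorem Entry.Valid.sym {i : Entry} (h : i.Valid) (g : E3 ≃ᵢ E3) :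
    i.cfg.map g = i.cfg ↔ ∃ k ∈ grp i.A i.B i.s, ∀ x : V3, g (i.point x) = i.point (k x) := by
  obtain ⟨hg, hsp, hF, hd, hi, -⟩ := h.facts
  exact sym_item hF hg hsp hi h.full g

/-- Every element of the group acts as an isometry. -/
theorem Entry.Valid.lift {i : Entry} (h : i.Valid) {k : Equiv.Perm V3}
    (hk : k ∈ grp i.A i.B i.s) : ∃ g : E3 ≃ᵢ E3, ∀ x : V3, g (i.point x) = i.point (k x) := by
  obtain ⟨hg, hsp, hF, hd, hi, -⟩ := h.facts
  obtain ⟨M, a, hM, hN⟩ := hi k hk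
  exact Realize.exists_conj hF hM hN

/-- The number of orbits on the flags of a valid entry. -/
theorem Entry.Valid.types {i : Entry} (h : i.Valid) :
    (Regular i.cfg ↔ i.cls = .reg) ∧ (Chiral i.cfg ↔ i.cls = .c2) ∧
    flagOrbits i.cfg = i.cls.orbits := by
  obtain ⟨hg, hsp, hF, hd, hi, -⟩ := h.facts
  exact types_of hF hg hsp hi h.full

/-- Similarity of valid entries. -/
theorem Entry.Valid.similar {i j : Entry} (hi : i.Valid) (hj : j.Valid) :
    Similar i.cfg j.cfg ↔ i.Equivalent j := by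
  obtain ⟨hg, hsp, hF, hd, ho, -⟩ := hi.facts
  obtain ⟨hg', hsp', hF', hd', ho', -⟩ := hj.facts
  exact similar_iff hF hF' hg hg' hsp hsp' ho ho' hi.full hj.full

/-- Every infinite fully transitive polyhedron is similar to a valid entry. -/
theorem exists_entry {P : Cfg E3} (hPp : IsPoly P) (hinf : P.V.Infinite)
    (hft : FullyTransitive P) : ∃ i : Entry, i.Valid ∧ Similar P i.cfg := by
  obtain ⟨hP, hd, hs⟩ := (isPoly_iff P).1 hPp
  obtain ⟨t, Q, G, hPQ, hQ, h0, hA, hS, hIso, hDisc, hSp, hall⟩ := reduction' hP hd hs hft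
  obtain ⟨c, A, B, s, hG, hgood, hQc⟩ := fwd' hQ hA hS h0
  subst hG
  have hV : (cfg c A B s 0).V = {x | ∃ g ∈ grp A B s, x = g 0} := rfl
  have hQV : Q.V = {x | ∃ g ∈ grp A B s, x = g 0} := by rw [hQc, hV]
  have hinfQ : {x | ∃ g ∈ grp A B s, x = g 0}.Infinite := by
    rw [← hQV]
    intro hf
    apply hinf
    rw [hPQ]
    exact hf.image _
  obtain ⟨hA1, hAB, hdeg⟩ := good_facts hgood
  obtain ⟨k, Q', f, A', B', s', ⟨ρ, hρ, U, hU, b', c', hb', hc', hQ'⟩, hf, hAe, hBe, hse, hl⟩ :=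
    lin_class hIso hDisc hgood.hA hgood.hB hgood.stab
      (by rw [← hQV]; exact hSp) hinfQ hA1 hAB hdeg
  have hf0 : f 0 = 0 := by rw [hf.lin_mul, mulVec_zero]
  have hfi0 : f⁻¹ 0 = 0 := by rw [Equiv.Perm.inv_eq_iff_eq, hf0]
  have hA' : A' = f⁻¹ * A * f⁻¹⁻¹ := by rw [hAe]; group
  have hB' : B' = f⁻¹ * B * f⁻¹⁻¹ := by rw [hBe]; group
  have hs' : s' = f⁻¹ * s * f⁻¹⁻¹ := by rw [hse]; group
  have hgood' : Good c A' B' s' 0 := by
    have := good_cnj f⁻¹ hgood
    rwa [← hA', ← hB', ← hs', hfi0] at this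
  have hcfg : cfg c A B s 0 = (cfg c A' B' s' 0).map f := by
    have := cfg_cnj c f A' B' s' 0
    rwa [← hAe, ← hBe, ← hse, hf0] at this
  have hdet : Q'.det ≠ 0 := by
    intro hdet
    obtain ⟨v, hv, hv0⟩ := Matrix.exists_mulVec_eq_zero_iff.2 hdet
    exact hv (f.injective (by rw [hf.lin_mul, hv0, hf0]))
  have hli : Listed k A' B' s' := by
    rcases hl with hl | ⟨hk, hl⟩
    · exact Or.inl hl
    · exact Or.inr ⟨hk, hl⟩
  obtain ⟨l1, l2, l3, l4, l5, l6⟩ := entry_facts hli hb' hc'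
  have hsp' : Spans (cfg c A' B' s' 0).V := by
    intro n hn
    have hn' : (Q'⁻¹)ᵀ *ᵥ n ≠ 0 := by
      intro h
      apply hn
      have := congrArg (fun v => Q'ᵀ *ᵥ v) h
      simp only [mulVec_mulVec, ← transpose_mul, mulVec_zero] at this
      rwa [nonsing_inv_mul _ (Ne.isUnit hdet), transpose_one, one_mulVec] at this
    obtain ⟨x, hx, hnx⟩ := hSp _ hn'
    rw [hQc, hcfg] at hx
    obtain ⟨y, hy, rfl⟩ := hx
    refine ⟨y, hy, ?_⟩
    have : (Q'⁻¹)ᵀ *ᵥ n ⬝ᵥ f y = n ⬝ᵥ y := by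
      rw [hf.lin_mul, dotProduct_mulVec, vecMul_mulVec, ← dotProduct_mulVec, transpose_transpose,
        nonsing_inv_mul _ (Ne.isUnit hdet), one_mulVec]
    rwa [this] at hnx
  have hs0 : s' 0 ≠ 0 := by
    have := hgood'.nondeg
    revert this
    cases c <;> intro hn <;> exact hn.1
  -- the frame: `Q' = ρ U F`
  have hdF : (k.frame b' c').det ≠ 0 := l5
  have hFi : (k.frame b' c') * (k.frame b' c')⁻¹ = 1 := mul_nonsing_inv _ (Ne.isUnit hdF)
  have hU' : U * Uᵀ = 1 := mul_eq_one_comm.1 hU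
  -- full
  have hfull : Full c (k.frame b' c') A' B' s' := by
    refine (full_sym hdF hgood' hsp' l6).2 fun g M a hg hM hgP => ?_
    -- the conjugate `f g f⁻¹` is an isometry of `Q`
    have hg' : (cfg c A B s 0).map (f * g * f⁻¹ : Equiv.Perm V3) = cfg c A B s 0 := by
      rw [hcfg, Pool.Agent.H38.FT.Cfg.map_map]
      have : (fun x => (f * g * f⁻¹ : Equiv.Perm V3) (f x)) = fun x => f (g x) := by
        funext x
        simp
      rw [this, ← Pool.Agent.H38.FT.Cfg.map_map, hgP]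
    have hmem : f * g * f⁻¹ ∈ grp A B s := by
      refine hall _ ⟨Q' * M * Q'⁻¹, Q' *ᵥ a, ?_, fun x => ?_⟩ (by rw [hQc]; exact hg')
      · -- orthogonality
        have e1 : Q' * M * Q'⁻¹ = U * ((k.frame b' c') * M * (k.frame b' c')⁻¹) * Uᵀ := by
          have hinv : Q'⁻¹ = ρ⁻¹ • ((k.frame b' c')⁻¹ * Uᵀ) := by
            apply inv_eq_right_inv
            rw [hQ', Matrix.smul_mul, Matrix.mul_smul, smul_smul, mul_inv_cancel₀ hρ.ne',
              one_smul, Matrix.mul_assoc U, ← Matrix.mul_assoc (k.frame b' c'), hFi,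
              Matrix.one_mul, hU']
          rw [hinv, hQ']
          simp only [Matrix.smul_mul, Matrix.mul_smul, smul_smul, Matrix.mul_assoc]
          rw [inv_mul_cancel₀ hρ.ne', one_smul]
        have hM' : ((k.frame b' c') * M * (k.frame b' c')⁻¹)ᵀ *
            ((k.frame b' c') * M * (k.frame b' c')⁻¹) = 1 := hM
        rw [e1]
        set N := (k.frame b' c') * M * (k.frame b' c')⁻¹
        rw [transpose_mul, transpose_mul, transpose_transpose]
        calc U * (Nᵀ * Uᵀ) * (U * N * Uᵀ) = U * Nᵀ * (Uᵀ * U) * N * Uᵀ := by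
              simp only [Matrix.mul_assoc]
          _ = U * (Nᵀ * N) * Uᵀ := by rw [hU, Matrix.mul_one]; simp only [Matrix.mul_assoc]
          _ = 1 := by rw [hM', Matrix.mul_one, hU']
      · -- affine
        have hfi : f⁻¹ x = Q'⁻¹ *ᵥ x := by
          rw [Equiv.Perm.inv_eq_iff_eq, hf.lin_mul, mulVec_mulVec,
            mul_nonsing_inv _ (Ne.isUnit hdet), one_mulVec]
        rw [Equiv.Perm.mul_apply, Equiv.Perm.mul_apply, hf.lin_mul, hg, hfi, mulVec_add,
          mulVec_mulVec, mulVec_mulVec]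
    -- back
    have hgr : grp A B s = (grp A' B' s').map (MulAut.conj f).toMonoidHom := by
      rw [← grp_cnj, ← hAe, ← hBe, ← hse]
    rw [hgr, Subgroup.mem_map] at hmem
    obtain ⟨g', hg', he⟩ := hmem
    have : g' = g := by
      have e2 : f * g' * f⁻¹ = f * g * f⁻¹ := he
      simpa using e2
    rwa [← this]
  -- the entry
  have hVinf : (cfg c A' B' s' 0).V.Infinite := by
    intro hfin
    apply hinfQ
    have : {x | ∃ g ∈ grp A B s, x = g 0} = (cfg c A B s 0).V := rfl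
    rw [this, hcfg]
    exact hfin.image _
  have hflat := (spans_iff hli hs0 c).1 hsp'
  obtain ⟨b'', c'', hb'', hc'', hfr⟩ := frame_norm k hb' hc'
  have hlist : (∃ b ∈ catalogue, b.kind = k ∧ b.Gives A' B' s') ∨
      (k = .tet ∧ Tube A' B' s') := by
    rcases hli with ⟨b, hb, hk, hh⟩ | ⟨hk, r, hr⟩
    · refine Or.inl ⟨b, ?_, hk, (gives_iff hb (by rw [hk]; exact hflat) c).2 ⟨hh, hVinf⟩⟩
      rcases table_or hb with h | h | h
      · exact h
      · obtain ⟨-, f, hf, -⟩ := hh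
        rw [h] at hf
        exact absurd hf List.not_mem_nil
      · subst hk
        exact absurd hfull (void_of h hh hgood'.rel hgood'.nondeg hb' hc')
    · refine Or.inr ⟨hk, ?_⟩
      by_cases h1 : r = .r1
      · subst h1
        exact hr
      · subst hk
        exact absurd hfull (rod_void h1 hr hgood'.rel hgood'.nondeg hc')
  refine ⟨⟨c, k, b'', c'', A', B', s'⟩, ⟨hlist, hb'', hc'', hgood'.rel, hgood'.nondeg,
    (simple_iff l1 l2 hgood'.rel hgood'.nondeg l3).1 hgood'.simple, hflat, ?_⟩, ?_⟩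
  · change Full c (k.frame b'' c'') A' B' s'
    rw [hfr]
    exact hfull
  obtain ⟨g1, hg1⟩ := exists_isom_orth hU
  obtain ⟨g2, hg2⟩ := exists_smul_isom t hρ
  refine ⟨ρ, hρ, g1.trans g2, ?_⟩
  rw [hPQ, hQc, hcfg, Entry.cfg_eq, Pool.Agent.H38.FT.Cfg.map_map,
    Pool.Agent.H38.FT.Cfg.map_map]
  congr 1
  funext x
  rw [hf.lin_mul, hQ', smul_mulVec, WithLp.toLp_smul, hg2, ← mulVec_mulVec]
  change ρ • g2 _ = ρ • g2 (g1 _)
  rw [hg1, ← hfr]
  rfl

/-- The classification of the infinite fully transitive polyhedra. -/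
theorem entry_classification {P : Cfg E3} (hP : IsPoly P) (hinf : P.V.Infinite) :
    FullyTransitive P ↔ ∃ i : Entry, i.Valid ∧ Similar P i.cfg := by
  refine ⟨exists_entry hP hinf, ?_⟩
  rintro ⟨i, hi, r, hr, g, rfl⟩
  exact Pool.Agent.H38.FT.FullyTransitive.map hi.poly.2.2 hr g

end Pool.Agent.H21.FT
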