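import Pool.Agent.H21.FT.Defs

/-!
# Configurations given by four base flags

Interface between the combinatorial lemma (`Pool/Agent/H21/FT/FlagPoly.lean`) and the seven
constructions.
-/

namespace Pool.Agent.H21.FT

open Pool.Agent.H38.FT (Cfg)

variable {X : Type*}

/-- The edge `{o, w}`; `b1`, `c1` are the next vertices (after `o` resp. `w`) of the first face at
this edge, `b2`, `c2` those of the second face: the faces pass through `b1, o, w, c1` and through
`b2, o, w, c2`. -/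
structure Base (X : Type*) where
  o : X
  w : X
  b1 : X
  b2 : X
  c1 : X
  c2 : X

/-- The flag `(v, a, b)` stands for the vertex `v`, the edge `{v, a}` and the face through `a, v, b`.
`fl i j`: `i` selects the vertex (`false`: `o`, `true`: `w`), `j` the face (`false`: first). -/
def Base.fl (β : Base X) : Bool → Bool → X × X × X
  | false, false => (β.o, β.w, β.b1)
  | false, true => (β.o, β.w, β.b2)
  | true, false => (β.w, β.o, β.c1)
  | true, true => (β.w, β.o, β.c2)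

/-- The action on triples of points. -/
def act (g : Equiv.Perm X) (t : X × X × X) : X × X × X := (g t.1, g t.2.1, g t.2.2)

/-- The other edge at the same vertex of the same face. -/
def swp (t : X × X × X) : X × X × X := (t.1, t.2.2, t.2.1)

/-- All flags. -/
def flags (Γ : Subgroup (Equiv.Perm X)) (β : Base X) : Set (X × X × X) :=
  {t | ∃ g ∈ Γ, ∃ i j, t = act g (β.fl i j)}

/-- One step along a face: change the edge at the vertex, or change the vertex of the edge. -/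
inductive Step (Γ : Subgroup (Equiv.Perm X)) (β : Base X) : X × X × X → X × X × X → Prop
  | turn (t : X × X × X) : t ∈ flags Γ β → Step Γ β t (swp t)
  | go (g : Equiv.Perm X) (i j : Bool) : g ∈ Γ → Step Γ β (act g (β.fl i j)) (act g (β.fl (!i) j))

/-- The set of edges of the face of the flag `t`. -/
def faceOf (Γ : Subgroup (Equiv.Perm X)) (β : Base X) (t : X × X × X) : Set (Sym2 X) :=
  {e | ∃ t', Relation.ReflTransGen (Step Γ β) t t' ∧ e = s(t'.1, t'.2.1)}

/-- The configuration of all flags. -/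
def flagCfg (Γ : Subgroup (Equiv.Perm X)) (β : Base X) : Cfg X where
  V := {x | ∃ t ∈ flags Γ β, x = t.1}
  E := {e | ∃ t ∈ flags Γ β, e = s(t.1, t.2.1)}
  F := {f | ∃ t ∈ flags Γ β, f = faceOf Γ β t}

/-- If an element of `Γ` maps a base flag to a base flag, then it permutes the base flags and
acts on them as a translation of `Bool × Bool`. -/
def Compat (Γ : Subgroup (Equiv.Perm X)) (β : Base X) : Prop :=
  ∀ g ∈ Γ, ∀ i j i' j', act g (β.fl i j) = β.fl i' j' →
    ∀ a b, act g (β.fl a b) = β.fl (xor a (xor i i')) (xor b (xor j j'))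

/-- The base flags of the seven constructions. -/
def canon (c : Cls) (A B s : Equiv.Perm X) (o : X) : Base X :=
  match c with
  | .reg => ⟨o, s o, A (s o), B (A (s o)), s (A (s o)), s (B (A (s o)))⟩
  | .c2 => ⟨o, s o, A (s o), A⁻¹ (s o), s (A⁻¹ (s o)), s (A (s o))⟩
  | .c20 => ⟨o, s o, A (s o), A⁻¹ (s o), s (A (s o)), s (A⁻¹ (s o))⟩
  | .c21 => ⟨o, s o, A (s o), B (s o), s (B (s o)), s (A (s o))⟩
  | .c22 => ⟨o, s o, s⁻¹ o, A (s⁻¹ o), s (s o), A (s (s o))⟩
  | .c4a => ⟨o, s o, s⁻¹ o, A⁻¹ (s⁻¹ o), s (A (s o)), s (s o)⟩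
  | .c4b => ⟨o, s o, A (s o), s⁻¹ o, s (s o), s (B (s⁻¹ o))⟩

/-- The hypotheses on the base flags. -/
structure Sys (Γ : Subgroup (Equiv.Perm X)) (β : Base X) : Prop where
  ow : β.o ≠ β.w
  b1o : β.b1 ≠ β.o
  b1w : β.b1 ≠ β.w
  b2o : β.b2 ≠ β.o
  b2w : β.b2 ≠ β.w
  c1o : β.c1 ≠ β.o
  c1w : β.c1 ≠ β.w
  c2o : β.c2 ≠ β.o
  c2w : β.c2 ≠ β.w
  b12 : β.b1 ≠ β.b2
  c12 : β.c1 ≠ β.c2
  vtr : ∃ g ∈ Γ, g β.o = β.w
  ftr : ∃ g ∈ Γ, ∃ i, Relation.ReflTransGen (Step Γ β) (β.fl false true) (act g (β.fl i false))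
  turn : ∀ i j, swp (β.fl i j) ∈ flags Γ β
  edge : ∀ g ∈ Γ, (g β.o = β.o ∧ g β.w = β.w) ∨ (g β.o = β.w ∧ g β.w = β.o) →
    ∃ k l, ∀ i j, act g (β.fl i j) = β.fl (xor i k) (xor j l)
  vert : ∀ t ∈ flags Γ β, t.1 = β.o →
    Relation.ReflTransGen (fun n n' => (β.o, n, n') ∈ flags Γ β) β.w t.2.1
  conn : ∀ t ∈ flags Γ β,
    Relation.ReflTransGen (fun x y => ∃ z, (x, y, z) ∈ flags Γ β) β.o t.1
  simple : ∀ x, (∃ e ∈ faceOf Γ β (β.fl false false), x ∈ e) →
    {e | e ∈ faceOf Γ β (β.fl false false) ∧ x ∈ e}.ncard = 2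

end Pool.Agent.H21.FT
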