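import Pool.Agent.H21.FT.FwdDefs
import Pool.Agent.H38.FT.Comb2

/-!
# Base flags of a polyhedron

Corners of the faces of a polyhedron `P` on which a group `G` acts vertex-, edge- and
face-transitively: base flags exist at every corner, the images of the base flags are all the
corners, and the induction principles over the corners.
-/

namespace Pool.Agent.H21.FT

open Pool.Agent.H38.FT (Cfg)
open Pool.Agent.H38.FT.Cfg

variable {X : Type*}

/-! ### Elementary facts -/

theorem act_act (g h : Equiv.Perm X) (t : X × X × X) : act g (act h t) = act (g * h) t := rfl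

theorem act_id (t : X × X × X) : act (1 : Equiv.Perm X) t = t := rfl

theorem swp_swp_eq (t : X × X × X) : swp (swp t) = t := rfl

theorem act_swp_eq (g : Equiv.Perm X) (t : X × X × X) : act g (swp t) = swp (act g t) := rfl

theorem act_inv_eq {g : Equiv.Perm X} {t u : X × X × X} (h : act g t = u) : t = act g⁻¹ u := by
  rw [← h, act_act, inv_mul_cancel, act_id]

theorem act_injective (g : Equiv.Perm X) : Function.Injective (act g) := by
  intro t u h
  have := act_inv_eq h
  rw [this, act_act, inv_mul_cancel, act_id]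

/-- The vertex of a base flag. -/
def Base.vx (β : Base X) : Bool → X
  | false => β.o
  | true => β.w

theorem Base.fl_fst (β : Base X) (i j : Bool) : (β.fl i j).1 = β.vx i := by
  cases i <;> cases j <;> rfl

theorem Base.fl_snd (β : Base X) (i j : Bool) : (β.fl i j).2.1 = β.vx (!i) := by
  cases i <;> cases j <;> rfl

section Corner

variable {P : Cfg X} {G : Subgroup (Equiv.Perm X)}

theorem Corner.swp {f : Set (Sym2 X)} {t : X × X × X} (h : Corner f t) : Corner f (swp t) :=
  ⟨h.1.symm, h.2.2, h.2.1⟩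

theorem Corner.image {f : Set (Sym2 X)} {t : X × X × X} (h : Corner f t) (g : Equiv.Perm X) :
    Corner (Sym2.map g '' f) (act g t) :=
  ⟨fun h' => h.1 (g.injective h'), ⟨_, h.2.1, rfl⟩, ⟨_, h.2.2, rfl⟩⟩

theorem vTrans (hG : Acts G P) : P.VTrans := fun x hx y hy => by
  obtain ⟨g, hg, h⟩ := hG.tV x hx y hy
  exact ⟨g, g.injective, hG.sym g hg, h⟩

theorem face_image (hG : Acts G P) {g : Equiv.Perm X} (hg : g ∈ G) {f : Set (Sym2 X)}
    (hf : f ∈ P.F) : Sym2.map g '' f ∈ P.F := map_F_mem (hG.sym g hg) hf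

/-- A corner lies in only one face. -/
theorem corner_face (hP : P.IsPolyhedron) (hG : Acts G P) {f f' : Set (Sym2 X)} (hf : f ∈ P.F)
    (hf' : f' ∈ P.F) {t : X × X × X} (h : Corner f t) (h' : Corner f' t) : f = f' := by
  have hv : t.1 ∈ P.V := hP.left_mem (hP.face_sub hf h.2.1)
  have hd := hP.deg3 (vTrans hG) _ hv
  refine hP.corner_unique (x := t.2.1) (y := t.1) (z := t.2.2) hd h.1 hf hf' ?_ h.2.2 ?_ h'.2.2
  · rw [Sym2.eq_swap]; exact h.2.1
  · rw [Sym2.eq_swap]; exact h'.2.1

/-- The corner of a face with given first edge is unique. -/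
theorem corner_ext (hP : P.IsPolyhedron) {f : Set (Sym2 X)} (hf : f ∈ P.F) {t u : X × X × X}
    (h : Corner f t) (h' : Corner f u) (h1 : t.1 = u.1) (h2 : t.2.1 = u.2.1) : t = u := by
  obtain ⟨v, a, b⟩ := t
  obtain ⟨v', a', b'⟩ := u
  simp only at h1 h2
  subst h1; subst h2
  obtain ⟨z, hz, -, hall⟩ := hP.next (x := a) (y := v) hf (by rw [Sym2.eq_swap]; exact h.2.1)
  have e1 : b = z := (hall b h.2.2).resolve_left (fun e => h.1 e.symm)
  have e2 : b' = z := (hall b' h'.2.2).resolve_left (fun e => h'.1 e.symm)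
  rw [e1, e2]

/-- The edges of a face at the vertex of a corner. -/
theorem corner_edges (hP : P.IsPolyhedron) {f : Set (Sym2 X)} (hf : f ∈ P.F) {t : X × X × X}
    (h : Corner f t) {z : X} (hz : s(t.1, z) ∈ f) : z = t.2.1 ∨ z = t.2.2 := by
  obtain ⟨b, -, -, hall⟩ := hP.next (x := t.2.1) (y := t.1) hf (by rw [Sym2.eq_swap]; exact h.2.1)
  rcases hall z hz with h1 | h1
  · exact Or.inl h1
  · rcases hall t.2.2 h.2.2 with h2 | h2
    · exact absurd h2.symm h.1
    · right; rw [h1, h2]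

/-- Every edge of a face at a vertex begins a corner. -/
theorem exists_corner (hP : P.IsPolyhedron) {f : Set (Sym2 X)} (hf : f ∈ P.F) {v a : X}
    (h : s(v, a) ∈ f) : ∃ b, Corner f (v, a, b) := by
  obtain ⟨b, hb, hvb, -⟩ := hP.next (x := a) (y := v) hf (by rw [Sym2.eq_swap]; exact h)
  exact ⟨b, hb.symm, h, hvb⟩

/-- Of three faces at an edge two are equal. -/
theorem face_cases (hP : P.IsPolyhedron) {e : Sym2 X} {f f' k : Set (Sym2 X)} (hf : f ∈ P.F)
    (hf' : f' ∈ P.F) (hk : k ∈ P.F) (h : e ∈ f) (h' : e ∈ f') (hne : f ≠ f') (hek : e ∈ k) :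
    k = f ∨ k = f' := by
  obtain ⟨f₁, f₂, -, -, -, -, -, hall⟩ := hP.two_faces (hP.face_sub hf h)
  rcases hall f hf h with h1 | h1 <;> rcases hall f' hf' h' with h2 | h2 <;>
    rcases hall k hk hek with h3 | h3
  · exact absurd (h1.trans h2.symm) hne
  · exact absurd (h1.trans h2.symm) hne
  · left; rw [h1, h3]
  · right; rw [h2, h3]
  · right; rw [h2, h3]
  · left; rw [h1, h3]
  · exact absurd (h1.trans h2.symm) hne
  · exact absurd (h1.trans h2.symm) hne

end Corner

/-! ### The two faces at the base edge -/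

section Fwd

variable {P : Cfg X} {G : Subgroup (Equiv.Perm X)} {β : Base X}

/-- The two faces at the base edge. -/
structure BF (P : Cfg X) (β : Base X) (f : Bool → Set (Sym2 X)) : Prop where
  mem : ∀ j, f j ∈ P.F
  ne : f false ≠ f true
  cor : ∀ i j, Corner (f j) (β.fl i j)

theorem IsBase.exists_bf (h : IsBase P β) : ∃ f, BF P β f := by
  obtain ⟨f₁, h1, f₂, h2, hne, c1, c2, c3, c4⟩ := h
  refine ⟨fun j => if j then f₂ else f₁, ⟨?_, ?_, ?_⟩⟩
  · intro j; cases j
    · exact h1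
    · exact h2
  · simpa using hne
  · intro i j
    cases i <;> cases j
    · exact c1
    · exact c3
    · exact c2
    · exact c4

theorem BF.ne_not {f : Bool → Set (Sym2 X)} (h : BF P β f) (j : Bool) : f j ≠ f (!j) := by
  cases j
  · exact h.ne
  · exact h.ne.symm

theorem BF.edge {f : Bool → Set (Sym2 X)} (h : BF P β f) (i j : Bool) :
    s(β.vx i, β.vx (!i)) ∈ f j := by
  have := (h.cor i j).2.1
  rwa [β.fl_fst, β.fl_snd] at this

/-- A corner that begins with the base edge is a base flag. -/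
theorem BF.eq_fl {f : Bool → Set (Sym2 X)} (hP : P.IsPolyhedron) (h : BF P β f) {i j : Bool}
    {t : X × X × X} (h1 : t.1 = β.vx i) (h2 : t.2.1 = β.vx (!i)) (h3 : Corner (f j) t) :
    t = β.fl i j :=
  corner_ext hP (h.mem j) h3 (h.cor i j) (by rw [h1, β.fl_fst]) (by rw [h2, β.fl_snd])

/-- A4 (file FwdBase.lean): base flags exist at every corner -/
theorem exists_base (hP : P.IsPolyhedron) (_hG : Acts G P) {t : X × X × X} (ht : t ∈ corners P) :
    ∃ β : Base X, IsBase P β ∧ β.fl false false = t := by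
  obtain ⟨f₁, hf₁, hc⟩ := ht
  obtain ⟨v, a, b⟩ := t
  have he : s(v, a) ∈ f₁ := hc.2.1
  obtain ⟨k₁, k₂, hk, hk₁, hk₂, he₁, he₂, hall⟩ := hP.two_faces (hP.face_sub hf₁ he)
  obtain ⟨f₂, hf₂, hne, he₂⟩ : ∃ f₂ ∈ P.F, f₁ ≠ f₂ ∧ s(v, a) ∈ f₂ := by
    rcases hall f₁ hf₁ he with h | h
    · exact ⟨k₂, hk₂, by rw [h]; exact hk, he₂⟩
    · exact ⟨k₁, hk₁, by rw [h]; exact hk.symm, he₁⟩
  obtain ⟨b₂, hb₂⟩ := exists_corner hP hf₂ he₂
  obtain ⟨c₁, hc₁⟩ := exists_corner hP hf₁ (v := a) (a := v) (by rw [Sym2.eq_swap]; exact he)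
  obtain ⟨c₂, hc₂⟩ := exists_corner hP hf₂ (v := a) (a := v) (by rw [Sym2.eq_swap]; exact he₂)
  exact ⟨⟨v, a, b, b₂, c₁, c₂⟩, ⟨f₁, hf₁, f₂, hf₂, hne, hc, hc₁, hb₂, hc₂⟩, rfl⟩

/-- A4: an element of `G` that fixes a corner is the identity -/
theorem act_eq_one (hP : P.IsPolyhedron) (hG : Acts G P) (hS : Semireg G P) {t : X × X × X}
    (ht : t ∈ corners P) {g : Equiv.Perm X} (hg : g ∈ G) (h : act g t = t) : g = 1 := by
  obtain ⟨f, hf, hc⟩ := ht
  have h1 := hc.image g
  rw [h] at h1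
  have h2 : Sym2.map g '' f = f := corner_face hP hG (face_image hG hg hf) hf h1 hc
  have e1 : g t.1 = t.1 := congrArg (·.1) h
  have e2 : g t.2.1 = t.2.1 := congrArg (·.2.1) h
  exact hS g hg t.1 t.2.1 f hf hc.2.1 e1 e2 h2

theorem BF.image_eq {f : Bool → Set (Sym2 X)} (hP : P.IsPolyhedron) (hG : Acts G P)
    (hf : BF P β f) {g : Equiv.Perm X} (hg : g ∈ G) {k : Set (Sym2 X)} (hk : k ∈ P.F) {i j : Bool}
    (h : Corner k (act g (β.fl i j))) : Sym2.map g '' f j = k :=
  corner_face hP hG (face_image hG hg (hf.mem j)) hk ((hf.cor i j).image g) h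

/-- A4: the images of base flags determine each other -/
theorem act_base (hP : P.IsPolyhedron) (hG : Acts G P) (_hS : Semireg G P) (hβ : IsBase P β)
    {g : Equiv.Perm X} (hg : g ∈ G) {i j i' j' : Bool} (h : act g (β.fl i j) = β.fl i' j') :
    ∀ a b, act g (β.fl a b) = β.fl (xor a (xor i i')) (xor b (xor j j')) := by
  obtain ⟨f, hf⟩ := hβ.exists_bf
  have h1 : g (β.vx i) = β.vx i' := by
    have := congrArg (·.1) h
    simpa only [act, β.fl_fst] using this
  have h2 : g (β.vx (!i)) = β.vx (!i') := by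
    have := congrArg (·.2.1) h
    simpa only [act, β.fl_snd] using this
  have hv : ∀ a, g (β.vx a) = β.vx (xor a (xor i i')) := by
    intro a
    by_cases ha : a = i
    · subst ha
      rw [h1]
      cases a <;> cases i' <;> rfl
    · have : a = !i := by cases a <;> cases i <;> simp_all
      subst this
      rw [h2]
      cases i <;> cases i' <;> rfl
  have hfj : Sym2.map g '' f j = f j' := by
    refine hf.image_eq hP hG hg (hf.mem j') (i := i) ?_
    rw [h]; exact hf.cor i' j'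
  have hedge : ∀ b, s(β.vx i', β.vx (!i')) ∈ Sym2.map g '' f b := fun b =>
    ⟨_, hf.edge i b, by rw [Sym2.map_mk, h1, h2]⟩
  have hfj2 : Sym2.map g '' f (!j) = f (!j') := by
    have := face_cases hP (hf.mem j') (hf.mem (!j')) (face_image hG hg (hf.mem (!j)))
      (hf.edge i' j') (hf.edge i' (!j')) (hf.ne_not j') (hedge (!j))
    refine this.resolve_left (fun h3 => ?_)
    rw [← hfj] at h3
    exact hf.ne_not j ((Sym2.map.injective g.injective).image_injective h3).symm
  have hfb : ∀ b, Sym2.map g '' f b = f (xor b (xor j j')) := by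
    intro b
    by_cases hb : b = j
    · subst hb
      rw [hfj]
      cases b <;> cases j' <;> rfl
    · have : b = !j := by cases b <;> cases j <;> simp_all
      subst this
      rw [hfj2]
      cases j <;> cases j' <;> rfl
  intro a b
  refine hf.eq_fl hP ?_ ?_ ?_
  · change g (β.fl a b).1 = _
    rw [β.fl_fst, hv]
  · change g (β.fl a b).2.1 = _
    rw [β.fl_snd, hv]
    congr 1
    cases a <;> cases i <;> cases i' <;> rfl
  · rw [← hfb b]
    exact (hf.cor a b).image g

/-- A4: every corner is an image of a base flag -/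
theorem corner_of_base (hP : P.IsPolyhedron) (hG : Acts G P) (_hS : Semireg G P)
    (hβ : IsBase P β) {t : X × X × X} (ht : t ∈ corners P) :
    ∃ g ∈ G, ∃ i j, t = act g (β.fl i j) := by
  obtain ⟨f, hf⟩ := hβ.exists_bf
  obtain ⟨k, hk, hc⟩ := ht
  have he : s(t.1, t.2.1) ∈ k := hc.2.1
  have he0 : s(β.o, β.w) ∈ f false := hf.edge false false
  obtain ⟨g, hg, hge⟩ := hG.tE _ (hP.face_sub (hf.mem false) he0) _ (hP.face_sub hk he)
  obtain ⟨i, hi1, hi2⟩ : ∃ i, g (β.vx i) = t.1 ∧ g (β.vx (!i)) = t.2.1 := by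
    rw [Sym2.map_mk, Sym2.eq_iff] at hge
    rcases hge with ⟨h1, h2⟩ | ⟨h1, h2⟩
    · exact ⟨false, h1, h2⟩
    · exact ⟨true, h2, h1⟩
  have hedge : ∀ b, s(t.1, t.2.1) ∈ Sym2.map g '' f b := fun b =>
    ⟨_, hf.edge i b, by rw [Sym2.map_mk, hi1, hi2]⟩
  have hne : Sym2.map g '' f false ≠ Sym2.map g '' f true := fun h3 =>
    hf.ne ((Sym2.map.injective g.injective).image_injective h3)
  obtain ⟨j, hj⟩ : ∃ j, k = Sym2.map g '' f j := by
    rcases face_cases hP (face_image hG hg (hf.mem false)) (face_image hG hg (hf.mem true)) hk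
      (hedge false) (hedge true) hne he with h | h
    · exact ⟨false, h⟩
    · exact ⟨true, h⟩
  refine ⟨g, hg, i, j, corner_ext hP hk hc ?_ ?_ ?_⟩
  · rw [hj]; exact (hf.cor i j).image g
  · change _ = g (β.fl i j).1
    rw [β.fl_fst, hi1]
  · change _ = g (β.fl i j).2.1
    rw [β.fl_snd, hi2]

/-- The change of the vertex of a corner, in terms of the base flags. -/
theorem corner_go (hP : P.IsPolyhedron) (hG : Acts G P) (hβ : IsBase P β) {g : Equiv.Perm X}
    (hg : g ∈ G) {i j : Bool} {k : Set (Sym2 X)} (hk : k ∈ P.F)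
    (h : Corner k (act g (β.fl i j))) : Corner k (act g (β.fl (!i) j)) := by
  obtain ⟨f, hf⟩ := hβ.exists_bf
  rw [← hf.image_eq hP hG hg hk h]
  exact (hf.cor (!i) j).image g

/-- The change of the face of a corner, in terms of the base flags. -/
theorem corner_face_change (hP : P.IsPolyhedron) (hG : Acts G P) (hβ : IsBase P β)
    {g : Equiv.Perm X} (hg : g ∈ G) {i j : Bool} {k k' : Set (Sym2 X)} (hk : k ∈ P.F)
    (hk' : k' ∈ P.F) (hne : k ≠ k') (h : Corner k (act g (β.fl i j)))
    (h' : s((act g (β.fl i j)).1, (act g (β.fl i j)).2.1) ∈ k') :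
    Corner k' (act g (β.fl i (!j))) := by
  obtain ⟨f, hf⟩ := hβ.exists_bf
  have h1 := hf.image_eq hP hG hg hk h
  have hedge : ∀ b, s((act g (β.fl i j)).1, (act g (β.fl i j)).2.1) ∈ Sym2.map g '' f b :=
    fun b => ⟨_, hf.edge i b, by
      rw [Sym2.map_mk]
      change _ = s(g (β.fl i j).1, g (β.fl i j).2.1)
      rw [β.fl_fst, β.fl_snd]⟩
  have hne' : Sym2.map g '' f j ≠ Sym2.map g '' f (!j) := fun h3 =>
    hf.ne_not j ((Sym2.map.injective g.injective).image_injective h3)
  have h2 := face_cases hP (face_image hG hg (hf.mem j)) (face_image hG hg (hf.mem (!j))) hk'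
    (hedge j) (hedge (!j)) hne' h'
  rw [h1] at h2
  rw [h2.resolve_left (fun h3 => hne h3.symm)]
  exact (hf.cor i (!j)).image g

/-! ### Induction over the corners -/

open Pool.Agent.H38.FT (Triple Adjacent HasCommon)

/-- `t` is the corner at the flag `A`. -/
def Bel (A : Triple X) (t : X × X × X) : Prop :=
  Corner A.2.2 t ∧ t.1 = A.1 ∧ s(t.1, t.2.1) = A.2.1

theorem exists_bel (hP : P.IsPolyhedron) {A : Triple X} (hA : P.IsFlag A) : ∃ t, Bel A t := by
  obtain ⟨v, e, f⟩ := A
  obtain ⟨-, -, hf, hv, he⟩ := hA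
  simp only at hf hv he
  obtain ⟨a, rfl⟩ := Sym2.mem_iff_exists.1 hv
  obtain ⟨b, hb⟩ := exists_corner hP hf he
  exact ⟨(v, a, b), hb, rfl, rfl⟩

/-- The flag at a corner. -/
theorem flag_of_corner (hP : P.IsPolyhedron) {f : Set (Sym2 X)} (hf : f ∈ P.F) {t : X × X × X}
    (h : Corner f t) : P.IsFlag (t.1, s(t.1, t.2.1), f) :=
  ⟨hP.left_mem (hP.face_sub hf h.2.1), hP.face_sub hf h.2.1, hf, Sym2.mem_mk_left _ _, h.2.1⟩

/-- Induction along a path of flags. -/
theorem path_induct (hP : P.IsPolyhedron) (hG : Acts G P) (hS : Semireg G P)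
    (hβ : IsBase P β) (Y : Set (X × X × X)) {A B : Triple X}
    (hA : ∀ t, Bel A t → t ∈ Y)
    (h1 : ∀ t ∈ Y, swp t ∈ Y)
    (hv : (∀ g ∈ G, ∀ i j, act g (β.fl i j) ∈ Y → act g (β.fl (!i) j) ∈ Y) ∨ A.1 = B.1)
    (hfc : (∀ g ∈ G, ∀ i j, act g (β.fl i j) ∈ Y → act g (β.fl i (!j)) ∈ Y) ∨ A.2.2 = B.2.2)
    {C : Triple X}
    (hC : Relation.ReflTransGen (fun C D => P.IsFlag C ∧ P.IsFlag D ∧ Adjacent C D ∧
      HasCommon A B D) A C) :
    C = A ∨ HasCommon A B C → ∀ t, Bel C t → t ∈ Y := by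
  induction hC with
  | refl => exact fun _ => hA
  | tail hAC hstep ih =>
    rename_i C D
    obtain ⟨hfC, hfD, hadj, hcom⟩ := hstep
    have hcomC : C = A ∨ HasCommon A B C := by
      rcases Relation.ReflTransGen.cases_tail hAC with h | ⟨_, _, h⟩
      · exact Or.inl h
      · exact Or.inr h.2.2.2
    have hC1 : A.1 = B.1 → C.1 = A.1 := by
      rcases hcomC with h | h
      · intro _; rw [h]
      · exact h.1
    have hC3 : A.2.2 = B.2.2 → C.2.2 = A.2.2 := by
      rcases hcomC with h | h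
      · intro _; rw [h]
      · exact h.2.2
    intro _ t ht
    obtain ⟨u, hu⟩ := exists_bel hP hfC
    have huY : u ∈ Y := ih hcomC u hu
    obtain ⟨g, hg, i, j, hgu⟩ := corner_of_base hP hG hS hβ (t := u) ⟨C.2.2, hfC.2.2.1, hu.1⟩
    rcases hadj with ⟨a1, a2, a3⟩ | ⟨a1, a2, a3⟩ | ⟨a1, a2, a3⟩
    · -- the vertex changes
      rcases hv with hv | hv
      · have hgo : Corner D.2.2 (act g (β.fl (!i) j)) := by
          rw [← a3]
          refine corner_go hP hG hβ hg hfC.2.2.1 (i := i) ?_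
          rw [← hgu]; exact hu.1
        have e1 : (act g (β.fl (!i) j)).1 = u.2.1 := by
          rw [hgu]
          change g (β.fl (!i) j).1 = g (β.fl i j).2.1
          rw [β.fl_fst, β.fl_snd]
        have e2 : (act g (β.fl (!i) j)).2.1 = u.1 := by
          rw [hgu]
          change g (β.fl (!i) j).2.1 = g (β.fl i j).1
          rw [β.fl_fst, β.fl_snd, Bool.not_not]
        have e3 : s(t.1, t.2.1) = s(u.1, u.2.1) := by rw [ht.2.2, hu.2.2, a2]
        have e4 : t.1 ≠ u.1 := by rw [ht.2.1, hu.2.1]; exact a1.symm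
        rw [Sym2.eq_iff] at e3
        have e5 := e3.resolve_left (fun h => e4 h.1)
        have : t = act g (β.fl (!i) j) :=
          corner_ext hP hfD.2.2.1 ht.1 hgo (by rw [e1, e5.1]) (by rw [e2, e5.2])
        rw [this]
        exact hv g hg i j (by rw [← hgu]; exact huY)
      · exact absurd ((hC1 hv).trans (hcom.1 hv).symm) a1
    · -- the edge changes
      have hc' : Corner C.2.2 t := by rw [a3]; exact ht.1
      have h4 : t.1 = u.1 := by rw [ht.2.1, hu.2.1, a1]
      have h5 := corner_edges hP hfC.2.2.1 hc' (z := u.2.1) (by rw [h4]; exact hu.1.2.1)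
      have h6 : u.2.1 ≠ t.2.1 := by
        intro h7
        apply a2
        rw [← hu.2.2, ← ht.2.2, h4, h7]
      have h7 : u = swp t := corner_ext hP hfC.2.2.1 hu.1 hc'.swp h4.symm (h5.resolve_left h6)
      have := h1 u huY
      rwa [h7, swp_swp_eq] at this
    · -- the face changes
      rcases hfc with hfc | hfc
      · have h4 : t.1 = u.1 := by rw [ht.2.1, hu.2.1, a1]
        have h5 : s(t.1, t.2.1) = s(u.1, u.2.1) := by rw [ht.2.2, hu.2.2, a2]
        have h6 : t.2.1 = u.2.1 := by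
          rw [h4] at h5
          exact Sym2.congr_right.1 h5
        have hgo : Corner D.2.2 (act g (β.fl i (!j))) := by
          refine corner_face_change hP hG hβ hg hfC.2.2.1 hfD.2.2.1 a3 (j := j) ?_ ?_
          · rw [← hgu]; exact hu.1
          · rw [← hgu, ← h5]; exact ht.1.2.1
        have : t = act g (β.fl i (!j)) := by
          refine corner_ext hP hfD.2.2.1 ht.1 hgo ?_ ?_
          · rw [h4, hgu]
            change g (β.fl i j).1 = g (β.fl i (!j)).1
            rw [β.fl_fst, β.fl_fst]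
          · rw [h6, hgu]
            change g (β.fl i j).2.1 = g (β.fl i (!j)).2.1
            rw [β.fl_snd, β.fl_snd]
        rw [this]
        exact hfc g hg i j (by rw [← hgu]; exact huY)
      · exact absurd ((hC3 hfc).trans (hcom.2.2 hfc).symm) a3

/-- Induction from the first base flag to a given corner. -/
theorem corner_path (hP : P.IsPolyhedron) (hG : Acts G P) (hS : Semireg G P)
    (hβ : IsBase P β) (Y : Set (X × X × X)) (h0 : β.fl false false ∈ Y)
    (h1 : ∀ t ∈ Y, swp t ∈ Y) {f k : Set (Sym2 X)} (hf : f ∈ P.F)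
    (hc : Corner f (β.fl false false)) (hk : k ∈ P.F) {t : X × X × X} (ht : Corner k t)
    (hv : (∀ g ∈ G, ∀ i j, act g (β.fl i j) ∈ Y → act g (β.fl (!i) j) ∈ Y) ∨ β.o = t.1)
    (hfc : (∀ g ∈ G, ∀ i j, act g (β.fl i j) ∈ Y → act g (β.fl i (!j)) ∈ Y) ∨ f = k) :
    t ∈ Y := by
  have hA := flag_of_corner hP hf hc
  have hB := flag_of_corner hP hk ht
  refine path_induct hP hG hS hβ Y (A := ((β.fl false false).1,
      s((β.fl false false).1, (β.fl false false).2.1), f)) (B := (t.1, s(t.1, t.2.1), k)) ?_ h1 ?_ ?_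
    (hP.connected _ _ hA hB) (Or.inr ?_) t ⟨ht, rfl, rfl⟩
  · rintro u ⟨hu1, hu2, hu3⟩
    simp only at hu1 hu2 hu3
    have : u = β.fl false false := by
      refine corner_ext hP hf hu1 hc hu2 ?_
      rw [hu2] at hu3
      exact Sym2.congr_right.1 hu3
    rw [this]; exact h0
  · exact hv
  · exact hfc
  · exact ⟨fun h => h.symm, fun h => h.symm, fun h => h.symm⟩

/-- A4: induction over all corners -/
theorem corner_induct (hP : P.IsPolyhedron) (hG : Acts G P) (hS : Semireg G P)
    (hβ : IsBase P β) (Y : Set (X × X × X)) (h0 : β.fl false false ∈ Y)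
    (h1 : ∀ t ∈ Y, swp t ∈ Y)
    (h2 : ∀ g ∈ G, ∀ i j i' j', act g (β.fl i j) ∈ Y → act g (β.fl i' j') ∈ Y) :
    corners P ⊆ Y := by
  rintro t ⟨k, hk, ht⟩
  obtain ⟨f, hf⟩ := hβ.exists_bf
  exact corner_path hP hG hS hβ Y h0 h1 (hf.mem false) (hf.cor false false) hk ht
    (Or.inl fun g hg i j => h2 g hg i j _ _) (Or.inl fun g hg i j => h2 g hg i j _ _)

/-- A4: induction over the corners at the base vertex -/
theorem corner_induct_vertex (hP : P.IsPolyhedron) (hG : Acts G P) (hS : Semireg G P)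
    (hβ : IsBase P β) (Y : Set (X × X × X)) (h0 : β.fl false false ∈ Y)
    (h1 : ∀ t ∈ Y, swp t ∈ Y)
    (h2 : ∀ g ∈ G, ∀ i j, act g (β.fl i j) ∈ Y → act g (β.fl i (!j)) ∈ Y) :
    ∀ t ∈ corners P, t.1 = β.o → t ∈ Y := by
  rintro t ⟨k, hk, ht⟩ hto
  obtain ⟨f, hf⟩ := hβ.exists_bf
  exact corner_path hP hG hS hβ Y h0 h1 (hf.mem false) (hf.cor false false) hk ht
    (Or.inr hto.symm) (Or.inl h2)

/-- A4: induction over the corners of the first base face -/
theorem corner_induct_face (hP : P.IsPolyhedron) (hG : Acts G P) (hS : Semireg G P)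
    (hβ : IsBase P β) (Y : Set (X × X × X)) (h0 : β.fl false false ∈ Y)
    (h1 : ∀ t ∈ Y, swp t ∈ Y)
    (h2 : ∀ g ∈ G, ∀ i j, act g (β.fl i j) ∈ Y → act g (β.fl (!i) j) ∈ Y)
    {f : Set (Sym2 X)} (hf : f ∈ P.F) (hc : Corner f (β.fl false false)) :
    ∀ t, Corner f t → t ∈ Y := fun _ ht =>
  corner_path hP hG hS hβ Y h0 h1 hf hc hf ht (Or.inl h2) (Or.inr rfl)

/-! ### The polyhedron is the configuration of the images of the base flags -/

/-- A4: if the group `Γ ≤ G` contains elements that turn the base flags, `P` is the configuration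
of the images of the base flags -/
theorem eq_flagCfg (hP : P.IsPolyhedron) (hG : Acts G P) (hS : Semireg G P)
    (hβ : IsBase P β) {Γ : Subgroup (Equiv.Perm X)} (hΓ : Γ ≤ G)
    (hturn : ∀ i j, swp (β.fl i j) ∈ flags Γ β) : P = flagCfg Γ β := by
  obtain ⟨f₀, hf₀⟩ := hβ.exists_bf
  -- the corners are the flags
  have hsub : corners P ⊆ flags Γ β := by
    refine corner_induct hP hG hS hβ _ ⟨1, Γ.one_mem, false, false, rfl⟩ ?_ ?_
    · rintro t ⟨g, hg, i, j, rfl⟩
      obtain ⟨g', hg', i', j', h'⟩ := hturn i j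
      exact ⟨g * g', Γ.mul_mem hg hg', i', j', by rw [← act_swp_eq, h', act_act]⟩
    · rintro g hg i j i' j' ⟨γ, hγ, a, b, h⟩
      have h2 : act (γ⁻¹ * g) (β.fl i j) = β.fl a b := by
        rw [← act_act, h, act_act, inv_mul_cancel, act_id]
      have h3 := act_base hP hG hS hβ (G.mul_mem (G.inv_mem (hΓ hγ)) hg) h2 i' j'
      refine ⟨γ, hγ, xor i' (xor i a), xor j' (xor j b), ?_⟩
      rw [← h3, act_act, mul_inv_cancel_left]
  have hsup : flags Γ β ⊆ corners P := by
    rintro t ⟨g, hg, i, j, rfl⟩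
    exact ⟨_, face_image hG (hΓ hg) (hf₀.mem j), (hf₀.cor i j).image g⟩
  -- the faces
  have hface : ∀ f ∈ P.F, ∀ t, Corner f t → f = faceOf Γ β t := by
    intro f hf t ht
    have hreach : ∀ u, Relation.ReflTransGen (Step Γ β) t u → Corner f u := by
      intro u hu
      induction hu with
      | refl => exact ht
      | tail _ hstep ih =>
        cases hstep with
        | turn _ _ => exact ih.swp
        | go g i j hg => exact corner_go hP hG hβ (hΓ hg) hf ih
    apply Set.Subset.antisymm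
    · refine hP.face_induct hf (faceOf Γ β t) ht.2.1 ⟨t, .refl, rfl⟩ ?_
      rintro a ⟨u, hu, rfl⟩ ha b hb x hxa hxb
      have hcu := hreach u hu
      -- at the first vertex of a reachable corner
      have key : ∀ u, Relation.ReflTransGen (Step Γ β) t u → u.1 ∈ b → b ∈ faceOf Γ β t := by
        intro u hu hub
        have hcu := hreach u hu
        obtain ⟨z, rfl⟩ := Sym2.mem_iff_exists.1 hub
        rcases corner_edges hP hf hcu hb with h | h
        · exact ⟨u, hu, by rw [h]⟩
        · exact ⟨swp u, hu.tail (.turn u (hsub ⟨f, hf, hcu⟩)), by rw [h]; rfl⟩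
      rcases Sym2.mem_iff.1 hxa with h | h
      · exact key u hu (by rw [← h]; exact hxb)
      · obtain ⟨g, hg, i, j, rfl⟩ := hsub ⟨f, hf, hcu⟩
        refine key (act g (β.fl (!i) j)) (hu.tail (.go g i j hg)) ?_
        have : (act g (β.fl (!i) j)).1 = (act g (β.fl i j)).2.1 := by
          change g (β.fl (!i) j).1 = g (β.fl i j).2.1
          rw [β.fl_fst, β.fl_snd]
        rw [this, ← h]; exact hxb
    · rintro e ⟨u, hu, rfl⟩
      exact (hreach u hu).2.1
  have hV : P.V = (flagCfg Γ β).V := by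
    ext x
    constructor
    · intro hx
      obtain ⟨e, he, hxe⟩ := hP.vertex x hx
      obtain ⟨f, -, -, hf, -, hef, -, -⟩ := hP.two_faces he
      obtain ⟨y, rfl⟩ := Sym2.mem_iff_exists.1 hxe
      obtain ⟨b, hb⟩ := exists_corner hP hf hef
      exact ⟨_, hsub ⟨f, hf, hb⟩, rfl⟩
    · rintro ⟨t, ht, rfl⟩
      obtain ⟨f, hf, hc⟩ := hsup ht
      exact hP.left_mem (hP.face_sub hf hc.2.1)
  have hE : P.E = (flagCfg Γ β).E := by
    ext e
    constructor
    · intro he
      obtain ⟨x, -, y, -, -, rfl⟩ := hP.edge e he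
      obtain ⟨f, -, -, hf, -, hef, -, -⟩ := hP.two_faces he
      obtain ⟨b, hb⟩ := exists_corner hP hf hef
      exact ⟨_, hsub ⟨f, hf, hb⟩, rfl⟩
    · rintro ⟨t, ht, rfl⟩
      obtain ⟨f, hf, hc⟩ := hsup ht
      exact hP.face_sub hf hc.2.1
  have hF : P.F = (flagCfg Γ β).F := by
    ext f
    constructor
    · intro hf
      obtain ⟨e, he⟩ := (hP.face f hf).1
      obtain ⟨x, -, y, -, -, rfl⟩ := hP.edge e (hP.face_sub hf he)
      obtain ⟨b, hb⟩ := exists_corner hP hf he
      exact ⟨_, hsub ⟨f, hf, hb⟩, hface f hf _ hb⟩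
    · rintro ⟨t, ht, rfl⟩
      obtain ⟨f, hf, hc⟩ := hsup ht
      rw [← hface f hf t hc]; exact hf
  cases P
  simp only [flagCfg] at hV hE hF ⊢
  subst hV hE hF
  rfl

end Fwd

end Pool.Agent.H21.FT
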