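import Pool.Agent.H21.FT.Canon
import Pool.Agent.H21.FT.FwdBase

/-!
# From a polyhedron to the constructions: the classes `reg`, `c2`, `c20`, `c21`
-/

namespace Pool.Agent.H21.FT

open Pool.Agent.H38.FT (Cfg)

namespace FwdA

variable {X : Type*} {P : Cfg X} {G : Subgroup (Equiv.Perm X)} {β : Base X}

theorem act_mul (g h : Equiv.Perm X) (t : X × X × X) : act (g * h) t = act g (act h t) := rfl

theorem act_one (t : X × X × X) : act (1 : Equiv.Perm X) t = t := rfl

theorem act_swp (g : Equiv.Perm X) (t : X × X × X) : act g (swp t) = swp (act g t) := rfl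

theorem swp_swp (t : X × X × X) : swp (swp t) = t := rfl

theorem act_inv_act (g : Equiv.Perm X) (t : X × X × X) : act g⁻¹ (act g t) = t := by
  rw [← act_mul, inv_mul_cancel, act_one]

theorem act_act_inv (g : Equiv.Perm X) (t : X × X × X) : act g (act g⁻¹ t) = t := by
  rw [← act_mul, mul_inv_cancel, act_one]

theorem stab_le {A B : Equiv.Perm X} (hA : A ∈ G) (hB : B ∈ G) : stab A B ≤ G := by
  rw [stab, Subgroup.closure_le]
  rintro x (rfl | rfl)
  · exact hA
  · exact hB

theorem grp_le {A B s : Equiv.Perm X} (hA : A ∈ G) (hB : B ∈ G) (hs : s ∈ G) :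
    grp A B s ≤ G := by
  rw [grp, Subgroup.closure_le]
  rintro x (rfl | rfl | rfl)
  · exact hA
  · exact hB
  · exact hs

theorem mem_stab_left (A B : Equiv.Perm X) : A ∈ stab A B :=
  Subgroup.subset_closure (Set.mem_insert _ _)

theorem mem_stab_right (A B : Equiv.Perm X) : B ∈ stab A B :=
  Subgroup.subset_closure (Set.mem_insert_of_mem _ rfl)

theorem stab_fix {A B : Equiv.Perm X} {o : X} (hA : A o = o) (hB : B o = o) :
    ∀ g ∈ stab A B, g o = o := by
  intro g hg
  have h : stab A B ≤ MulAction.stabilizer (Equiv.Perm X) o := by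
    rw [stab, Subgroup.closure_le]
    rintro x (rfl | rfl)
    · exact hA
    · exact hB
  exact h hg

/-- The base flags are corners. -/
theorem base_corner (hβ : IsBase P β) (i j : Bool) : β.fl i j ∈ corners P := by
  obtain ⟨f₁, hf₁, f₂, hf₂, -, h1, h2, h3, h4⟩ := hβ
  cases i <;> cases j
  · exact ⟨f₁, hf₁, h1⟩
  · exact ⟨f₂, hf₂, h3⟩
  · exact ⟨f₁, hf₁, h2⟩
  · exact ⟨f₂, hf₂, h4⟩

theorem act_corner (hG : Acts G P) {g : Equiv.Perm X} (hg : g ∈ G) {t : X × X × X}
    (ht : t ∈ corners P) : act g t ∈ corners P := by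
  obtain ⟨f, hf, hne, h1, h2⟩ := ht
  refine ⟨Sym2.map g '' f, ?_, ?_, ⟨_, h1, rfl⟩, ⟨_, h2, rfl⟩⟩
  · have : Sym2.map g '' f ∈ (P.map g).F := ⟨f, hf, rfl⟩
    rwa [hG.sym g hg] at this
  · exact fun h => hne (g.injective h)

/-- Two elements of `G` that agree on a corner are equal. -/
theorem eq_of_act (hP : P.IsPolyhedron) (hG : Acts G P) (hS : Semireg G P) {t : X × X × X}
    (ht : t ∈ corners P) {g h : Equiv.Perm X} (hg : g ∈ G) (hh : h ∈ G)
    (e : act g t = act h t) : g = h := by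
  have h1 : act (h⁻¹ * g) t = t := by
    rw [act_mul, e, act_inv_act]
  have h2 := act_eq_one hP hG hS ht (G.mul_mem (G.inv_mem hh) hg) h1
  rw [inv_mul_eq_one] at h2
  exact h2.symm

theorem vtrans (hG : Acts G P) : P.VTrans := by
  intro x hx y hy
  obtain ⟨g, hg, e⟩ := hG.tV x hx y hy
  exact ⟨g, g.injective, hG.sym g hg, e⟩

/-- The vertices of the base flags. -/
theorem base_ne (hP : P.IsPolyhedron) (hG : Acts G P) (hβ : IsBase P β) :
    β.w ≠ β.o ∧ β.b1 ≠ β.w ∧ β.b2 ≠ β.w ∧ β.b1 ≠ β.b2 := by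
  obtain ⟨f₁, hf₁, f₂, hf₂, hne, ⟨n1, e1, e1'⟩, -, ⟨n2, e2, e2'⟩, -⟩ := hβ
  have how : s(β.o, β.w) ∈ P.E := hP.face_sub hf₁ e1
  refine ⟨(hP.ne_of_mem how).symm, Ne.symm n1, Ne.symm n2, ?_⟩
  intro h
  have h3 := hP.deg3 (vtrans hG) β.o (hP.left_mem how)
  refine hne (hP.corner_unique h3 (x := β.w) (z := β.b1) n1 hf₁ hf₂ ?_ e1' ?_ ?_)
  · rw [Sym2.eq_swap]; exact e1
  · rw [Sym2.eq_swap]; exact e2
  · rw [h]; exact e2'

/-- The corners at `o` with first edge `{o, w}` are the two base flags at `o`. -/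
theorem corner_at (hP : P.IsPolyhedron) (hβ : IsBase P β) {x : X}
    (h : (β.o, β.w, x) ∈ corners P) :
    (β.o, β.w, x) = β.fl false false ∨ (β.o, β.w, x) = β.fl false true := by
  obtain ⟨f, hf, hne, h1, h2⟩ := h
  obtain ⟨f₁, hf₁, f₂, hf₂, hne12, ⟨n1, e1, e1'⟩, -, ⟨n2, e2, e2'⟩, -⟩ := hβ
  obtain ⟨k, l, hkl, hk, hl, -, -, hall⟩ := hP.two_faces (hP.face_sub hf₁ e1)
  have hcase : f = f₁ ∨ f = f₂ := by
    rcases hall f₁ hf₁ e1 with r1 | r1 <;> rcases hall f₂ hf₂ e2 with r2 | r2 <;>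
      rcases hall f hf h1 with r3 | r3
    · exact absurd (r1.trans r2.symm) hne12
    · exact absurd (r1.trans r2.symm) hne12
    · left; rw [r3, r1]
    · right; rw [r3, r2]
    · right; rw [r3, r2]
    · left; rw [r3, r1]
    · exact absurd (r1.trans r2.symm) hne12
    · exact absurd (r1.trans r2.symm) hne12
  have huniq : ∀ f ∈ P.F, ∀ b, s(β.o, β.w) ∈ f → s(β.o, b) ∈ f → s(β.o, x) ∈ f → β.w ≠ b →
      β.w ≠ x → x = b := by
    intro f hf b hw hb hx hwb hwx
    have hw' : s(β.w, β.o) ∈ f := by rw [Sym2.eq_swap]; exact hw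
    obtain ⟨z, -, -, hz⟩ := hP.next hf hw'
    rcases hz b hb with r | r
    · exact absurd r.symm hwb
    rcases hz x hx with r' | r'
    · exact absurd r'.symm hwx
    rw [r, r']
  rcases hcase with rfl | rfl
  · left
    have := huniq f hf β.b1 h1 e1' h2 n1 hne
    rw [this]; rfl
  · right
    have := huniq f hf β.b2 h1 e2' h2 n2 hne
    rw [this]; rfl

theorem fix_edge (hP : P.IsPolyhedron) (hG : Acts G P) (hβ : IsBase P β) {g : Equiv.Perm X}
    (hg : g ∈ G) (ho : g β.o = β.o) (hw : g β.w = β.w) :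
    act g (β.fl false false) = β.fl false false ∨ act g (β.fl false false) = β.fl false true := by
  have h1 := act_corner hG hg (base_corner hβ false false)
  have h2 : act g (β.fl false false) = (β.o, β.w, g β.b1) := by
    simp only [Base.fl, act, ho, hw]
  rw [h2] at h1 ⊢
  exact corner_at hP hβ h1

/-- The common part of the proofs for the classes `reg`, `c2`, `c20`, `c21`. -/
theorem core (hP : P.IsPolyhedron) (hG : Acts G P) (hS : Semireg G P) (hβ : IsBase P β)
    {c : Cls} {A B s : Equiv.Perm X} (hA : A ∈ G) (hB : B ∈ G) (hs : s ∈ G)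
    (hAo : A β.o = β.o) (hBo : B β.o = β.o) (hcan : canon c A B s β.o = β)
    (hr : Rel c A B s β.o) (hnd : Nondeg c A B s β.o)
    (hY : ∀ j, ∃ k ∈ stab A B, ∃ j', swp (β.fl false j) = act k (β.fl false j'))
    (hN : ∀ g ∈ G, act g (β.fl false false) = β.fl false true → g ∈ stab A B) :
    Good c A B s β.o ∧ P = cfg c A B s β.o := by
  have hΓ := grp_le hA hB hs
  have hst := stab_le hA hB
  have hcompat : Compat (grp A B s) (canon c A B s β.o) := by
    rw [hcan]
    intro g hg i j i' j' h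
    exact act_base hP hG hS hβ (hΓ hg) h
  have hturn : ∀ i j, swp (β.fl i j) ∈ flags (grp A B s) β := by
    intro i j
    have := canon_turn hAo hBo hr i j
    rwa [hcan] at this
  have hPf : P = flagCfg (grp A B s) β := eq_flagCfg hP hG hS hβ hΓ hturn
  have hface := canon_faceOf hAo hBo hr hcompat
  have hcfg := flagCfg_canon hAo hBo hr hcompat
  rw [hcan] at hface hcfg
  refine ⟨⟨hAo, hBo, hr, hnd, ?_, ?_⟩, by rw [← hcfg]; exact hPf⟩
  · -- the base face is a face of `P`
    have hF : face c A B s β.o ∈ P.F := by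
      rw [← hface, hPf]
      exact ⟨β.fl false false, ⟨1, Subgroup.one_mem _, false, false, rfl⟩, rfl⟩
    intro x hx
    exact hP.diamond_face _ hF x hx
  · -- the stabiliser of `o`
    intro g hg hgo
    have hind := corner_induct_vertex hP hG hS hβ
      {t | ∃ h ∈ stab A B, ∃ j, t = act h (β.fl false j)}
      ⟨1, Subgroup.one_mem _, false, rfl⟩
      (by
        rintro t ⟨h, hh, j, rfl⟩
        obtain ⟨k, hk, j', e⟩ := hY j
        refine ⟨h * k, Subgroup.mul_mem _ hh hk, j', ?_⟩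
        rw [← act_swp, e, act_mul])
      (by
        rintro g hg i j ⟨h, hh, b, e⟩
        have h1 : act (h⁻¹ * g) (β.fl i j) = β.fl false b := by
          rw [act_mul, e, act_inv_act]
        have h2 := act_base hP hG hS hβ (G.mul_mem (G.inv_mem (hst hh)) hg) h1 i (!j)
        refine ⟨h, hh, !b, ?_⟩
        have h3 : (xor i (xor i false)) = false := by cases i <;> rfl
        have h4 : (xor (!j) (xor j b)) = !b := by cases j <;> cases b <;> rfl
        rw [h3, h4, act_mul] at h2
        rw [← h2, act_act_inv])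
      (act g (β.fl false false)) (act_corner hG (hΓ hg) (base_corner hβ false false)) hgo
    obtain ⟨h, hh, j, e⟩ := hind
    have h1 : act (h⁻¹ * g) (β.fl false false) = β.fl false j := by
      rw [act_mul, e, act_inv_act]
    have h2 : h⁻¹ * g ∈ G := G.mul_mem (G.inv_mem (hst hh)) (hΓ hg)
    have h3 : h⁻¹ * g ∈ stab A B := by
      cases j
      · rw [act_eq_one hP hG hS (base_corner hβ false false) h2 h1]
        exact Subgroup.one_mem _
      · exact hN _ h2 h1
    have h4 : g = h * (h⁻¹ * g) := by group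
    rw [h4]
    exact Subgroup.mul_mem _ hh h3


theorem _root_.Pool.Agent.H21.FT.good_reg
    (hP : P.IsPolyhedron) (hG : Acts G P) (hS : Semireg G P) (hβ : IsBase P β)
    {A B s : Equiv.Perm X} (hA : A ∈ G) (hB : B ∈ G) (hs : s ∈ G)
    (hc : Case β .reg A B s) (_hn : NoMore G β .reg) :
    Good .reg A B s β.o ∧ P = cfg .reg A B s β.o := by
  obtain ⟨hs0, hA0, hB0⟩ := hc
  obtain ⟨nwo, nb1, nb2, nb12⟩ := base_ne hP hG hβ
  have hco := base_corner hβ false false
  have hs1 := act_base hP hG hS hβ hs hs0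
  have hB1 := act_base hP hG hS hβ hB hB0
  have es : s β.o = β.w ∧ s β.w = β.o ∧ s β.b1 = β.c1 := by simpa [act, Base.fl] using hs0
  have eA : A β.o = β.o ∧ A β.w = β.b1 ∧ A β.b1 = β.w := by simpa [act, Base.fl, swp] using hA0
  have eB : B β.o = β.o ∧ B β.w = β.w ∧ B β.b1 = β.b2 := by simpa [act, Base.fl] using hB0
  have es' : s β.b2 = β.c2 := by
    have := hs1 false true
    simp [act, Base.fl] at this
    exact this.2.2
  have hcan : canon .reg A B s β.o = β := by
    simp [canon, es, eA, eB, es']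
  have hr : Rel .reg A B s β.o := by
    refine ⟨?_, ?_, ?_, ?_⟩
    · refine act_eq_one hP hG hS hco (G.mul_mem hA hA) ?_
      rw [act_mul, hA0, act_swp, hA0, swp_swp]
    · refine act_eq_one hP hG hS hco (G.mul_mem hB hB) ?_
      rw [act_mul, hB0, hB1]; rfl
    · refine act_eq_one hP hG hS hco (G.mul_mem hs hs) ?_
      rw [act_mul, hs0, hs1]; rfl
    · refine eq_of_act hP hG hS hco (G.mul_mem hs hB) (G.mul_mem hB hs) ?_
      rw [act_mul, act_mul, hB0, hs0, hs1, hB1]; rfl
  have hN : ∀ g ∈ G, act g (β.fl false false) = β.fl false true → g = B := by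
    intro g hg e
    exact eq_of_act hP hG hS hco hg hB (by rw [e, hB0])
  refine core hP hG hS hβ hA hB hs eA.1 eB.1 hcan hr ?_ ?_ ?_
  · refine ⟨?_, ?_, ?_, ?_⟩
    · rw [es.1]; exact nwo
    · intro g hg hgw
      rw [es.1] at hgw
      rcases fix_edge hP hG hβ (stab_le hA hB hg) (stab_fix eA.1 eB.1 g hg) hgw with h | h
      · left; exact act_eq_one hP hG hS hco (stab_le hA hB hg) h
      · right; exact hN g (stab_le hA hB hg) h
    · rw [es.1, eA.2.1]; exact nb1
    · rw [es.1, eA.2.1, eB.2.2]; exact nb12.symm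
  · intro j
    cases j
    · exact ⟨A, mem_stab_left A B, false, hA0.symm⟩
    · refine ⟨B * A, Subgroup.mul_mem _ (mem_stab_right A B) (mem_stab_left A B), false, ?_⟩
      rw [act_mul, hA0, act_swp, hB0]
  · intro g hg e
    rw [hN g hg e]
    exact mem_stab_right A B

/-- The classes `c2` and `c20`, `c21`: the stabiliser of the edge. -/
theorem free (hP : P.IsPolyhedron) (hG : Acts G P) (hS : Semireg G P) (hβ : IsBase P β)
    {A B s : Equiv.Perm X} (hA : A ∈ G) (hB : B ∈ G) (hAo : A β.o = β.o) (hBo : B β.o = β.o)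
    (hso : s β.o = β.w) (hn : ∀ g ∈ G, act g (β.fl false false) ≠ β.fl false true) :
    Free A B s β.o := by
  intro g hg hgw
  rw [hso] at hgw
  rcases fix_edge hP hG hβ (stab_le hA hB hg) (stab_fix hAo hBo g hg) hgw with h | h
  · exact act_eq_one hP hG hS (base_corner hβ false false) (stab_le hA hB hg) h
  · exact absurd h (hn g (stab_le hA hB hg))

/-- The turn of the base flags in the classes `c2` and `c20`. -/
theorem turn2 {A B : Equiv.Perm X} (hA0 : act A (β.fl false true) = swp (β.fl false false)) :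
    ∀ j, ∃ k ∈ stab A B, ∃ j', swp (β.fl false j) = act k (β.fl false j') := by
  intro j
  cases j
  · exact ⟨A, mem_stab_left A B, true, hA0.symm⟩
  · refine ⟨A⁻¹, Subgroup.inv_mem _ (mem_stab_left A B), false, ?_⟩
    have h1 : act A (swp (β.fl false true)) = β.fl false false := by
      rw [act_swp, hA0, swp_swp]
    rw [← h1, act_inv_act]

theorem _root_.Pool.Agent.H21.FT.good_c2
    (hP : P.IsPolyhedron) (hG : Acts G P) (hS : Semireg G P) (hβ : IsBase P β)
    {A B s : Equiv.Perm X} (hA : A ∈ G) (hB : B ∈ G) (hs : s ∈ G)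
    (hc : Case β .c2 A B s) (hn : NoMore G β .c2) :
    Good .c2 A B s β.o ∧ P = cfg .c2 A B s β.o := by
  obtain ⟨hB1, hs0, hA0⟩ := hc
  obtain ⟨nwo, nb1, nb2, nb12⟩ := base_ne hP hG hβ
  have hco := base_corner hβ false false
  have hs1 := act_base hP hG hS hβ hs hs0
  have es : s β.o = β.w ∧ s β.w = β.o ∧ s β.b1 = β.c2 := by simpa [act, Base.fl] using hs0
  have eA : A β.o = β.o ∧ A β.w = β.b1 ∧ A β.b2 = β.w := by simpa [act, Base.fl, swp] using hA0
  have eAi : A⁻¹ β.w = β.b2 := by rw [← eA.2.2]; simp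
  have es' : s β.b2 = β.c1 := by
    have := hs1 false true
    simp [act, Base.fl] at this
    exact this.2.2
  have hcan : canon .c2 A B s β.o = β := by
    simp only [canon, es, eA, eAi, es']
  have hBo : B β.o = β.o := by rw [hB1]; rfl
  have hr : Rel .c2 A B s β.o := by
    refine ⟨hB1, act_eq_one hP hG hS hco (G.mul_mem hs hs) ?_⟩
    rw [act_mul, hs0, hs1]; rfl
  refine core hP hG hS hβ hA hB hs eA.1 hBo hcan hr ?_ (turn2 hA0)
    (fun g hg e => absurd e (hn.1 g hg))
  refine ⟨?_, free hP hG hS hβ hA hB eA.1 hBo es.1 hn.1, ?_, ?_⟩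
  · rw [es.1]; exact nwo
  · intro h
    rw [h] at eA
    exact nb1 eA.2.1.symm
  · intro h
    have h1 : (A * A) β.b2 = β.b1 := by
      rw [Equiv.Perm.mul_apply, eA.2.2, eA.2.1]
    rw [h] at h1
    exact nb12 h1.symm

theorem _root_.Pool.Agent.H21.FT.good_c20
    (hP : P.IsPolyhedron) (hG : Acts G P) (hS : Semireg G P) (hβ : IsBase P β)
    {A B s : Equiv.Perm X} (hA : A ∈ G) (hB : B ∈ G) (hs : s ∈ G)
    (hc : Case β .c20 A B s) (hn : NoMore G β .c20) :
    Good .c20 A B s β.o ∧ P = cfg .c20 A B s β.o := by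
  obtain ⟨hB1, hs0, hA0⟩ := hc
  obtain ⟨nwo, nb1, nb2, nb12⟩ := base_ne hP hG hβ
  have hco := base_corner hβ false false
  have hs1 := act_base hP hG hS hβ hs hs0
  have es : s β.o = β.w ∧ s β.w = β.o ∧ s β.b1 = β.c1 := by simpa [act, Base.fl] using hs0
  have eA : A β.o = β.o ∧ A β.w = β.b1 ∧ A β.b2 = β.w := by simpa [act, Base.fl, swp] using hA0
  have eAi : A⁻¹ β.w = β.b2 := by rw [← eA.2.2]; simp
  have es' : s β.b2 = β.c2 := by
    have := hs1 false true
    simp [act, Base.fl] at this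
    exact this.2.2
  have hcan : canon .c20 A B s β.o = β := by
    simp only [canon, es, eA, eAi, es']
  have hBo : B β.o = β.o := by rw [hB1]; rfl
  have hr : Rel .c20 A B s β.o := by
    refine ⟨hB1, act_eq_one hP hG hS hco (G.mul_mem hs hs) ?_⟩
    rw [act_mul, hs0, hs1]; rfl
  refine core hP hG hS hβ hA hB hs eA.1 hBo hcan hr ?_ (turn2 hA0)
    (fun g hg e => absurd e (hn.1 g hg))
  refine ⟨?_, free hP hG hS hβ hA hB eA.1 hBo es.1 hn.1, ?_, ?_⟩
  · rw [es.1]; exact nwo
  · intro h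
    rw [h] at eA
    exact nb1 eA.2.1.symm
  · intro h
    have h1 : (A * A) β.b2 = β.b1 := by
      rw [Equiv.Perm.mul_apply, eA.2.2, eA.2.1]
    rw [h] at h1
    exact nb12 h1.symm

theorem _root_.Pool.Agent.H21.FT.good_c21
    (hP : P.IsPolyhedron) (hG : Acts G P) (hS : Semireg G P) (hβ : IsBase P β)
    {A B s : Equiv.Perm X} (hA : A ∈ G) (hB : B ∈ G) (hs : s ∈ G)
    (hc : Case β .c21 A B s) (hn : NoMore G β .c21) :
    Good .c21 A B s β.o ∧ P = cfg .c21 A B s β.o := by
  obtain ⟨hs0, hA0, hB0⟩ := hc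
  obtain ⟨nwo, nb1, nb2, nb12⟩ := base_ne hP hG hβ
  have hco := base_corner hβ false false
  have hco1 := base_corner hβ false true
  have hs1 := act_base hP hG hS hβ hs hs0
  have es : s β.o = β.w ∧ s β.w = β.o ∧ s β.b1 = β.c2 := by simpa [act, Base.fl] using hs0
  have eA : A β.o = β.o ∧ A β.w = β.b1 ∧ A β.b1 = β.w := by simpa [act, Base.fl, swp] using hA0
  have eB : B β.o = β.o ∧ B β.w = β.b2 ∧ B β.b2 = β.w := by simpa [act, Base.fl, swp] using hB0
  have es' : s β.b2 = β.c1 := by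
    have := hs1 false true
    simp [act, Base.fl] at this
    exact this.2.2
  have hcan : canon .c21 A B s β.o = β := by
    simp only [canon, es, eA, eB, es']
  have hr : Rel .c21 A B s β.o := by
    refine ⟨?_, ?_, ?_⟩
    · refine act_eq_one hP hG hS hco (G.mul_mem hA hA) ?_
      rw [act_mul, hA0, act_swp, hA0, swp_swp]
    · refine act_eq_one hP hG hS hco1 (G.mul_mem hB hB) ?_
      rw [act_mul, hB0, act_swp, hB0, swp_swp]
    · refine act_eq_one hP hG hS hco (G.mul_mem hs hs) ?_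
      rw [act_mul, hs0, hs1]; rfl
  refine core hP hG hS hβ hA hB hs eA.1 eB.1 hcan hr ?_ ?_
    (fun g hg e => absurd e (hn.1 g hg))
  · refine ⟨?_, free hP hG hS hβ hA hB eA.1 eB.1 es.1 hn.1, ?_, ?_, ?_⟩
    · rw [es.1]; exact nwo
    · intro h
      rw [h] at eA
      exact nb1 eA.2.1.symm
    · intro h
      rw [h] at eB
      exact nb2 eB.2.1.symm
    · intro h
      rw [h] at eA
      exact nb12 (eA.2.1.symm.trans eB.2.1)
  · intro j
    cases j
    · exact ⟨A, mem_stab_left A B, false, hA0.symm⟩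
    · exact ⟨B, mem_stab_right A B, true, hB0.symm⟩

end FwdA

end Pool.Agent.H21.FT
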