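import Pool.Agent.H21.FT.FwdCommon
import Pool.Agent.H21.FT.Canon

/-!
# From a polyhedron to the constructions: the end of the proof, common to all classes
-/

namespace Pool.Agent.H21.FT

open Pool.Agent.H38.FT (Cfg)
open Pool.Agent.H38.FT.Cfg

variable {X : Type*}

variable {P : Cfg X} {G : Subgroup (Equiv.Perm X)} {β : Base X}

/-- The end of the proof, common to all cases. -/
theorem good_core (hP : P.IsPolyhedron) (hG : Acts G P) (hS : Semireg G P) (hβ : IsBase P β)
    {c : Cls} {A B s : Equiv.Perm X} (hA : A ∈ G) (hB : B ∈ G) (hs : s ∈ G)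
    (hcan : canon c A B s β.o = β) (hAo : A β.o = β.o) (hBo : B β.o = β.o)
    (hr : Rel c A B s β.o) (hnd : Nondeg c A B s β.o)
    (hst : ∀ g ∈ grp A B s, g β.o = β.o → g ∈ stab A B) :
    Good c A B s β.o ∧ P = cfg c A B s β.o := by
  have hle := grp_le hA hB hs
  have hcomp : Compat (grp A B s) (canon c A B s β.o) := by
    rw [hcan]
    intro g hg i j i' j' h
    exact act_base hP hG hS hβ (hle hg) h
  have hturn : ∀ i j, swp (β.fl i j) ∈ flags (grp A B s) β := by
    have := canon_turn hAo hBo hr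
    rw [hcan] at this
    exact this
  have hPf := eq_flagCfg hP hG hS hβ hle hturn
  have hfc := flagCfg_canon hAo hBo hr hcomp
  have hface := canon_faceOf hAo hBo hr hcomp
  rw [hcan] at hfc hface
  refine ⟨⟨hAo, hBo, hr, hnd, ?_, hst⟩, hPf.trans hfc⟩
  have hmem : face c A B s β.o ∈ P.F := by
    rw [hPf, ← hface]
    exact ⟨β.fl false false, ⟨1, Subgroup.one_mem _, false, false, rfl⟩, rfl⟩
  intro x hx
  exact hP.diamond_face _ hmem x hx

end Pool.Agent.H21.FT
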