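import Pool.Agent.H21.FT.Flag

/-!
# From a polyhedron to the constructions: interface
-/

namespace Pool.Agent.H21.FT

open Pool.Agent.H38.FT (Cfg)

variable {X : Type*}

/-- `(v, a, b)` is a corner of the face `f`: `a ≠ b` and `{v, a}`, `{v, b}` are edges of `f`. -/
def Corner (f : Set (Sym2 X)) (t : X × X × X) : Prop :=
  t.2.1 ≠ t.2.2 ∧ s(t.1, t.2.1) ∈ f ∧ s(t.1, t.2.2) ∈ f

/-- The corners of the faces of `P`. -/
def corners (P : Cfg X) : Set (X × X × X) := {t | ∃ f ∈ P.F, Corner f t}

/-- Four base flags of `P`. -/
def IsBase (P : Cfg X) (β : Base X) : Prop :=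
  ∃ f₁ ∈ P.F, ∃ f₂ ∈ P.F, f₁ ≠ f₂ ∧ Corner f₁ (β.fl false false) ∧ Corner f₁ (β.fl true false) ∧
    Corner f₂ (β.fl false true) ∧ Corner f₂ (β.fl true true)

/-- How the generators of the seven constructions act on the base flags. -/
def Case (β : Base X) : Cls → Equiv.Perm X → Equiv.Perm X → Equiv.Perm X → Prop
  | .reg, A, B, s => act s (β.fl false false) = β.fl true false ∧
      act A (β.fl false false) = swp (β.fl false false) ∧
      act B (β.fl false false) = β.fl false true
  | .c2, A, B, s => B = 1 ∧ act s (β.fl false false) = β.fl true true ∧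
      act A (β.fl false true) = swp (β.fl false false)
  | .c20, A, B, s => B = 1 ∧ act s (β.fl false false) = β.fl true false ∧
      act A (β.fl false true) = swp (β.fl false false)
  | .c21, A, B, s => act s (β.fl false false) = β.fl true true ∧
      act A (β.fl false false) = swp (β.fl false false) ∧
      act B (β.fl false true) = swp (β.fl false true)
  | .c22, A, B, s => B = s⁻¹ * A * s ∧ act A (β.fl false false) = β.fl false true ∧
      act s (swp (β.fl false false)) = β.fl true false
  | .c4a, A, B, s => B = 1 ∧ act s (swp (β.fl false false)) = β.fl true true ∧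
      act (s * A) (β.fl false true) = swp (β.fl true false)
  | .c4b, A, B, s => act A (β.fl false false) = swp (β.fl false false) ∧
      act s (β.fl false true) = swp (β.fl true false) ∧
      act (s * B * s⁻¹) (β.fl true true) = swp (β.fl true true)

/-- No identification of base flags by `G` beyond those of the class: the base flags that are
images of each other under `G`. -/
def NoMore (G : Subgroup (Equiv.Perm X)) (β : Base X) : Cls → Prop
  | .reg => True
  | .c2 | .c21 => (∀ g ∈ G, act g (β.fl false false) ≠ β.fl false true) ∧
      (∀ g ∈ G, act g (β.fl false false) ≠ β.fl true false)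
  | .c20 => (∀ g ∈ G, act g (β.fl false false) ≠ β.fl false true) ∧
      (∀ g ∈ G, act g (β.fl false false) ≠ β.fl true true)
  | .c22 => (∀ g ∈ G, act g (β.fl false false) ≠ β.fl true false) ∧
      (∀ g ∈ G, act g (β.fl false false) ≠ β.fl true true)
  | .c4a | .c4b => (∀ g ∈ G, act g (β.fl false false) ≠ β.fl false true) ∧
      (∀ g ∈ G, act g (β.fl false false) ≠ β.fl true false) ∧
      (∀ g ∈ G, act g (β.fl false false) ≠ β.fl true true)

end Pool.Agent.H21.FT
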