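import Pool.Agent.H21.FT.Defs

/-!
# Groups of affine maps of the coordinate space: definitions
-/

namespace Pool.Agent.H21.FT

open Matrix

/-- The coordinate space. -/
abbrev V3 := Fin 3 → ℝ

/-- Real 3 by 3 matrices. -/
abbrev M3 := Matrix (Fin 3) (Fin 3) ℝ

/-- `g` is the affine map `x ↦ M x + a`. -/
def IsAff (g : Equiv.Perm V3) (M : M3) (a : V3) : Prop := ∀ x, g x = M *ᵥ x + a

/-- All elements of `Γ` are affine isometries. -/
def Iso (Γ : Subgroup (Equiv.Perm V3)) : Prop := ∀ g ∈ Γ, ∃ M a, Mᵀ * M = 1 ∧ IsAff g M a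

/-- All elements of `Γ` are affine maps. -/
def Aff (Γ : Subgroup (Equiv.Perm V3)) : Prop := ∀ g ∈ Γ, ∃ M a, IsAff g M a

/-- Only finitely many elements of `Γ` move the origin to a bounded set. -/
def Disc (Γ : Subgroup (Equiv.Perm V3)) : Prop :=
  ∀ R : ℝ, {g : Equiv.Perm V3 | g ∈ Γ ∧ ∀ i, |g 0 i| ≤ R}.Finite

/-- The linear parts of the elements of `Γ`. -/
def lin (Γ : Subgroup (Equiv.Perm V3)) : Set M3 := {M | ∃ g ∈ Γ, ∃ a, IsAff g M a}

/-- The translation by `t` belongs to `Γ`. -/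
def IsTrans (Γ : Subgroup (Equiv.Perm V3)) (t : V3) : Prop := ∃ g ∈ Γ, IsAff g 1 t

/-- The set `V` lies in no plane through the origin. -/
def Spans (V : Set V3) : Prop := ∀ n : V3, n ≠ 0 → ∃ x ∈ V, n ⬝ᵥ x ≠ 0

/-- The group `Γ` conjugated by `f`. -/
def cnj (f : Equiv.Perm V3) (Γ : Subgroup (Equiv.Perm V3)) : Subgroup (Equiv.Perm V3) :=
  Γ.map (MulAut.conj f).toMonoidHom

/-- The third coordinate vector. -/
def e3 : V3 := ![0, 0, 1]

end Pool.Agent.H21.FT
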