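import Pool.Agent.H21.FT.ListSplit
import Pool.Agent.H21.FT.KerAxBase
import Pool.Agent.H21.FT.RowsCub

/-!
# Kernel checks: the cubic rows 1 to 9
-/

namespace Pool.Agent.H21.FT

set_option maxRecDepth 100000 in
theorem cub_chk1_p0 : (((((cubBlocks.zip cubRows).drop 0).take 3).drop 0).take 1).all
    (fun x => blockChk .cub x.1 x.2) = true := by
  decide +kernel

set_option maxRecDepth 100000 in
theorem cub_chk1_p1 : (((((cubBlocks.zip cubRows).drop 0).take 3).drop 1).take 1).all
    (fun x => blockChk .cub x.1 x.2) = true := by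
  decide +kernel

set_option maxRecDepth 100000 in
theorem cub_chk1_p2 : ((((cubBlocks.zip cubRows).drop 0).take 3).drop 2).all
    (fun x => blockChk .cub x.1 x.2) = true := by
  decide +kernel

theorem cub_chk1 : (((cubBlocks.zip cubRows).drop 0).take 3).all
    (fun x => blockChk .cub x.1 x.2) = true := by
  change ((((cubBlocks.zip cubRows).drop 0).take 3).drop 0).all _ = true
  refine all_step 0 1 cub_chk1_p0 ?_
  refine all_step 1 1 cub_chk1_p1 ?_
  exact cub_chk1_p2

set_option maxRecDepth 100000 in
theorem cub_chk2_p0 : (((((cubBlocks.zip cubRows).drop 3).take 3).drop 0).take 1).all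
    (fun x => blockChk .cub x.1 x.2) = true := by
  decide +kernel

set_option maxRecDepth 100000 in
theorem cub_chk2_p1 : (((((cubBlocks.zip cubRows).drop 3).take 3).drop 1).take 1).all
    (fun x => blockChk .cub x.1 x.2) = true := by
  decide +kernel

set_option maxRecDepth 100000 in
theorem cub_chk2_p2 : ((((cubBlocks.zip cubRows).drop 3).take 3).drop 2).all
    (fun x => blockChk .cub x.1 x.2) = true := by
  decide +kernel

theorem cub_chk2 : (((cubBlocks.zip cubRows).drop 3).take 3).all
    (fun x => blockChk .cub x.1 x.2) = true := by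
  change ((((cubBlocks.zip cubRows).drop 3).take 3).drop 0).all _ = true
  refine all_step 0 1 cub_chk2_p0 ?_
  refine all_step 1 1 cub_chk2_p1 ?_
  exact cub_chk2_p2

set_option maxRecDepth 100000 in
theorem cub_chk3_p0 : (((((cubBlocks.zip cubRows).drop 6).take 3).drop 0).take 1).all
    (fun x => blockChk .cub x.1 x.2) = true := by
  decide +kernel

set_option maxRecDepth 100000 in
theorem cub_chk3_p1 : (((((cubBlocks.zip cubRows).drop 6).take 3).drop 1).take 1).all
    (fun x => blockChk .cub x.1 x.2) = true := by
  decide +kernel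

set_option maxRecDepth 100000 in
theorem cub_chk3_p2 : ((((cubBlocks.zip cubRows).drop 6).take 3).drop 2).all
    (fun x => blockChk .cub x.1 x.2) = true := by
  decide +kernel

theorem cub_chk3 : (((cubBlocks.zip cubRows).drop 6).take 3).all
    (fun x => blockChk .cub x.1 x.2) = true := by
  change ((((cubBlocks.zip cubRows).drop 6).take 3).drop 0).all _ = true
  refine all_step 0 1 cub_chk3_p0 ?_
  refine all_step 1 1 cub_chk3_p1 ?_
  exact cub_chk3_p2

end Pool.Agent.H21.FT
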