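import Pool.Agent.H21.FT.IM

/-!
# Lattices given by congruences
-/

namespace Pool.Agent.H21.FT

open Matrix

/-- A lattice of the coordinate space: the vectors `y` such that all entries of `D y` are integer
multiples of `m` and, if `flat`, the third coordinate of `y` vanishes. -/
structure LatD where
  D : IM
  m : ℤ
  flat : Bool

/-- The elements of the lattice. -/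
def LatD.Mem (L : LatD) (y : V3) : Prop :=
  (∃ k : IV, L.D.mat *ᵥ y = (L.m : ℝ) • k.vec) ∧ (L.flat = true → y 2 = 0)

/-- The cubic lattices: all integer vectors; the integer vectors with even sum of the entries; the
integer vectors with all entries of the same parity. -/
def cubLats : List LatD :=
  [⟨⟨⟨1, 0, 0⟩, ⟨0, 1, 0⟩, ⟨0, 0, 1⟩⟩, 1, false⟩,
   ⟨⟨⟨1, 1, 1⟩, ⟨0, 2, 0⟩, ⟨0, 0, 2⟩⟩, 2, false⟩,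
   ⟨⟨⟨1, 1, 0⟩, ⟨0, 1, 1⟩, ⟨0, 0, 2⟩⟩, 2, false⟩]

/-- The tetragonal lattices with vertical projection the integers or zero. -/
def tetLats : List LatD :=
  [⟨⟨⟨1, 0, 0⟩, ⟨0, 1, 0⟩, ⟨0, 0, 1⟩⟩, 1, false⟩,
   ⟨⟨⟨2, 0, -1⟩, ⟨0, 2, -1⟩, ⟨0, 0, 2⟩⟩, 2, false⟩,
   ⟨⟨⟨1, 1, 0⟩, ⟨0, 2, 0⟩, ⟨0, 0, 2⟩⟩, 2, false⟩,
   ⟨⟨⟨1, 1, 1⟩, ⟨0, 2, 0⟩, ⟨0, 0, 2⟩⟩, 2, false⟩,
   ⟨⟨⟨1, 0, 0⟩, ⟨0, 1, 0⟩, ⟨0, 0, 1⟩⟩, 1, true⟩,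
   ⟨⟨⟨1, 1, 0⟩, ⟨0, 2, 0⟩, ⟨0, 0, 2⟩⟩, 2, true⟩]

/-- The hexagonal lattices with vertical projection the integers or zero. -/
def hexLats : List LatD :=
  [⟨⟨⟨1, 0, 0⟩, ⟨0, 1, 0⟩, ⟨0, 0, 1⟩⟩, 1, false⟩,
   ⟨⟨⟨3, 0, -1⟩, ⟨0, 3, -2⟩, ⟨0, 0, 3⟩⟩, 3, false⟩,
   ⟨⟨⟨3, 0, -2⟩, ⟨0, 3, -1⟩, ⟨0, 0, 3⟩⟩, 3, false⟩,
   ⟨⟨⟨1, 1, 0⟩, ⟨0, 3, 0⟩, ⟨0, 0, 3⟩⟩, 3, false⟩,
   ⟨⟨⟨1, 1, 1⟩, ⟨0, 3, 0⟩, ⟨0, 0, 3⟩⟩, 3, false⟩,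
   ⟨⟨⟨1, 1, -1⟩, ⟨0, 3, 0⟩, ⟨0, 0, 3⟩⟩, 3, false⟩,
   ⟨⟨⟨1, 0, 0⟩, ⟨0, 1, 0⟩, ⟨0, 0, 1⟩⟩, 1, true⟩,
   ⟨⟨⟨1, 1, 0⟩, ⟨0, 3, 0⟩, ⟨0, 0, 3⟩⟩, 3, true⟩]

/-- The planar part of the matrix is a rotation of order at least 3 (all entries being integers and
the matrix an automorphism of a tetragonal or hexagonal frame). -/
def Turns (N : IM) : Prop :=
  N.a.x * N.b.y - N.a.y * N.b.x = 1 ∧ -1 ≤ N.a.x + N.b.y ∧ N.a.x + N.b.y ≤ 1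

end Pool.Agent.H21.FT
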