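import Mathlib.Data.List.Basic

/-!
# Checks of long lists in pieces
-/

namespace Pool.Agent.H21.FT

theorem all_step {α : Type*} {l : List α} {p : α → Bool} (a k : ℕ)
    (h1 : ((l.drop a).take k).all p = true) (h2 : (l.drop (a + k)).all p = true) :
    (l.drop a).all p = true := by
  rw [← List.take_append_drop k (l.drop a), List.all_append, h1, List.drop_drop, h2]
  rfl

theorem mem_step {α : Type*} {l : List α} {P : α → Prop} (a k : ℕ)
    (h1 : ∀ x ∈ (l.drop a).take k, P x) (h2 : ∀ x ∈ l.drop (a + k), P x) :
    ∀ x ∈ l.drop a, P x := by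
  intro x hx
  rw [← List.take_append_drop k (l.drop a), List.drop_drop, List.mem_append] at hx
  rcases hx with h | h
  · exact h1 x h
  · exact h2 x h

end Pool.Agent.H21.FT
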