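import Pool.Agent.H21.FT.Main
import Pool.Agent.H21.FT.GrpFull
import Pool.Agent.H21.FT.SimpleIff
import Pool.Agent.H21.FT.SpansIff
import Pool.Agent.H21.FT.Explicit
import Pool.Agent.H21.FT.Reduction2
import Pool.Agent.H21.FT.SymItem
import Pool.Agent.H21.FT.InfIff
import Pool.Agent.H21.FT.LinClass
import Pool.Agent.H21.FT.TableSound
import Pool.Agent.H21.FT.RodSound

/-!
# The classification of the infinite fully transitive polyhedra: assembly with the explicit list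
-/

namespace Pool.Agent.H21.FT

open Matrix
open Pool.Agent.H38.FT (Cfg E3 FullyTransitive Similar)

/-- The facts on listed generators. -/
theorem listed_facts {k : Kind} {A B s : Equiv.Perm V3} (h : Listed k A B s) {b c : ℝ}
    (hb : 0 < b) (hc : 0 < c) :
    A 0 = 0 ∧ B 0 = 0 ∧ (∀ g ∈ grp A B s, g 0 = 0 → g ∈ stab A B) ∧ Disc (grp A B s) ∧
    (k.frame b c).det ≠ 0 ∧ ∀ g ∈ grp A B s, ∃ M a, IsAff g M a ∧ OrthF (k.frame b c) M := by
  rcases h with ⟨bl, hbl, rfl, hh⟩ | ⟨rfl, r, hr⟩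
  · obtain ⟨h1, h2, h3, h4, h5⟩ := table_sound hbl hh
    refine ⟨h1, h2, h3, h4, ?_, fun g hg => ?_⟩
    · obtain ⟨N, hN, -⟩ := h5 1 (one_mem _)
      exact (auts_orth hN hb hc).1
    · obtain ⟨N, hN, a, ha⟩ := h5 g hg
      exact ⟨N.mat, a, ha, (auts_orth hN hb hc).2⟩
  · obtain ⟨h1, h2, h3, h4, h5⟩ := rod_sound hr
    refine ⟨h1, h2, h3, h4, ?_, fun g hg => ?_⟩
    · simp only [Kind.frame, det_fin_three]
      simp [hc.ne']
    · exact h5 c hc g hg

/-- The data without the last condition. -/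
theorem Dat.Ok.ok0 {d : Dat} (h : d.Ok) : d.Ok0 := by
  cases d with
  | cryst blk A B h' h'' inv fam n x y =>
    obtain ⟨h1, h2, h3, h4, h5, h6, h7, h8, -⟩ := h
    exact ⟨h1, h2, h3, h4, h5, h6, h7, h8⟩
  | rod r A B h' h'' inv p q => exact h

/-- The facts on valid items. -/
theorem InfItem.Valid.facts {i : InfItem} (h : i.Valid) :
    Good i.cls i.dat.A i.dat.B i.dat.s 0 ∧ Spans i.pre.V ∧ i.F.det ≠ 0 ∧
    Disc (grp i.dat.A i.dat.B i.dat.s) ∧
    (∀ g ∈ grp i.dat.A i.dat.B i.dat.s, ∃ M a, IsAff g M a ∧ OrthF i.F M) ∧ i.pre.V.Infinite := by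
  have hl : Listed i.dat.kind i.dat.A i.dat.B i.dat.s :=
    listed_iff.2 ⟨i.dat, h.dat.ok0, rfl, rfl, rfl, rfl⟩
  obtain ⟨h1, h2, h3, h4, h5, h6⟩ := listed_facts hl h.b h.c
  have hs : i.dat.s 0 ≠ 0 := by
    have := h.nondeg
    revert this
    cases i.cls <;> intro hn <;> exact hn.1
  exact ⟨⟨h1, h2, h.rel, h.nondeg, (simple_iff h1 h2 h.rel h.nondeg h3).2 h.distinct, h3⟩,
    (spans_iff hl hs _).2 h.flat, h5, h4, h6, (infinite_iff h.dat.ok0 h.flat _).2 h.dat⟩

theorem InfItem.cfg_eq (i : InfItem) :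
    i.cfg = (FT.cfg i.cls i.dat.A i.dat.B i.dat.s 0).map
      (fun x => (WithLp.toLp 2 (i.F *ᵥ x) : E3)) := rfl

/-- Every valid item is an infinite fully transitive polyhedron. -/
theorem InfItem.Valid.poly {i : InfItem} (h : i.Valid) :
    i.cfg.IsPolyhedron ∧ DiscreteTopology i.cfg.V ∧ affineSpan ℝ i.cfg.V = ⊤ ∧
      i.cfg.V.Infinite ∧ FullyTransitive i.cfg := by
  obtain ⟨hg, hsp, hF, hd, hi, hinf⟩ := h.facts
  obtain ⟨hc1, hc2⟩ := conv hg
  obtain ⟨r1, r2, r3, r4⟩ := realize hc1 hc2 hF hi hd hsp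
  refine ⟨r1, r3, r4, ?_, r2⟩
  have hinj : Function.Injective i.point := Realize.inj hF
  exact hinf.image hinj.injOn

/-- The symmetry group of a valid item. -/
theorem InfItem.Valid.sym {i : InfItem} (h : i.Valid) (g : E3 ≃ᵢ E3) :
    i.cfg.map g = i.cfg ↔
      ∃ k ∈ grp i.dat.A i.dat.B i.dat.s, ∀ x : V3, g (i.point x) = i.point (k x) := by
  obtain ⟨hg, hsp, hF, hd, hi, -⟩ := h.facts
  exact sym_item hF hg hsp hi h.full g

/-- Similarity of valid items. -/
theorem InfItem.Valid.similar {i j : InfItem} (hi : i.Valid) (hj : j.Valid) :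
    Similar i.cfg j.cfg ↔ i.Equivalent j := by
  obtain ⟨hg, hsp, hF, hd, ho, -⟩ := hi.facts
  obtain ⟨hg', hsp', hF', hd', ho', -⟩ := hj.facts
  exact similar_iff hF hF' hg hg' hsp hsp' ho ho' hi.full hj.full

/-- Every infinite fully transitive polyhedron is similar to a valid item. -/
theorem exists_item {P : Cfg E3} (hP : P.IsPolyhedron) (hd : DiscreteTopology P.V)
    (hs : affineSpan ℝ P.V = ⊤) (hinf : P.V.Infinite) (hft : FullyTransitive P) :
    ∃ i : InfItem, i.Valid ∧ Similar P i.cfg := by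
  obtain ⟨t, Q, G, hPQ, hQ, h0, hA, hS, hIso, hDisc, hSp, hall⟩ := reduction' hP hd hs hft
  obtain ⟨c, A, B, s, hG, hgood, hQc⟩ := fwd' hQ hA hS h0
  subst hG
  have hV : (cfg c A B s 0).V = {x | ∃ g ∈ grp A B s, x = g 0} := rfl
  have hQV : Q.V = {x | ∃ g ∈ grp A B s, x = g 0} := by rw [hQc, hV]
  have hinfQ : {x | ∃ g ∈ grp A B s, x = g 0}.Infinite := by
    rw [← hQV]
    intro hf
    apply hinf
    rw [hPQ]
    exact hf.image _
  obtain ⟨hA1, hAB, hdeg⟩ := good_facts hgood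
  obtain ⟨k, Q', f, A', B', s', ⟨ρ, hρ, U, hU, b', c', hb', hc', hQ'⟩, hf, hAe, hBe, hse, hl⟩ :=
    lin_class hIso hDisc hgood.hA hgood.hB hgood.stab
      (by rw [← hQV]; exact hSp) hinfQ hA1 hAB hdeg
  have hf0 : f 0 = 0 := by rw [hf.lin_mul, mulVec_zero]
  have hfi0 : f⁻¹ 0 = 0 := by rw [Equiv.Perm.inv_eq_iff_eq, hf0]
  have hA' : A' = f⁻¹ * A * f⁻¹⁻¹ := by rw [hAe]; group
  have hB' : B' = f⁻¹ * B * f⁻¹⁻¹ := by rw [hBe]; group
  have hs' : s' = f⁻¹ * s * f⁻¹⁻¹ := by rw [hse]; group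
  have hgood' : Good c A' B' s' 0 := by
    have := good_cnj f⁻¹ hgood
    rwa [← hA', ← hB', ← hs', hfi0] at this
  have hcfg : cfg c A B s 0 = (cfg c A' B' s' 0).map f := by
    have := cfg_cnj c f A' B' s' 0
    rwa [← hAe, ← hBe, ← hse, hf0] at this
  have hdet : Q'.det ≠ 0 := by
    intro hdet
    obtain ⟨v, hv, hv0⟩ := Matrix.exists_mulVec_eq_zero_iff.2 hdet
    exact hv (f.injective (by rw [hf.lin_mul, hv0, hf0]))
  have hli : Listed k A' B' s' := by
    rcases hl with hl | ⟨hk, hl⟩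
    · exact Or.inl hl
    · exact Or.inr ⟨hk, hl⟩
  obtain ⟨l1, l2, l3, l4, l5, l6⟩ := listed_facts hli hb' hc'
  have hsp' : Spans (cfg c A' B' s' 0).V := by
    intro n hn
    have hn' : (Q'⁻¹)ᵀ *ᵥ n ≠ 0 := by
      intro h
      apply hn
      have := congrArg (fun v => Q'ᵀ *ᵥ v) h
      simp only [mulVec_mulVec, ← transpose_mul, mulVec_zero] at this
      rwa [nonsing_inv_mul _ (Ne.isUnit hdet), transpose_one, one_mulVec] at this
    obtain ⟨x, hx, hnx⟩ := hSp _ hn'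
    rw [hQc, hcfg] at hx
    obtain ⟨y, hy, rfl⟩ := hx
    refine ⟨y, hy, ?_⟩
    have : (Q'⁻¹)ᵀ *ᵥ n ⬝ᵥ f y = n ⬝ᵥ y := by
      rw [hf.lin_mul, dotProduct_mulVec, vecMul_mulVec, ← dotProduct_mulVec, transpose_transpose,
        nonsing_inv_mul _ (Ne.isUnit hdet), one_mulVec]
    rwa [this] at hnx
  have hs0 : s' 0 ≠ 0 := by
    have := hgood'.nondeg
    revert this
    cases c <;> intro hn <;> exact hn.1
  -- the frame: `Q' = ρ U F`
  have hdF : (k.frame b' c').det ≠ 0 := l5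
  have hFi : (k.frame b' c') * (k.frame b' c')⁻¹ = 1 := mul_nonsing_inv _ (Ne.isUnit hdF)
  have hU' : U * Uᵀ = 1 := mul_eq_one_comm.1 hU
  -- full
  have hfull : Full c (k.frame b' c') A' B' s' := by
    refine (full_sym hdF hgood' hsp' l6).2 fun g M a hg hM hgP => ?_
    -- the conjugate `f g f⁻¹` is an isometry of `Q`
    have hg' : (cfg c A B s 0).map (f * g * f⁻¹ : Equiv.Perm V3) = cfg c A B s 0 := by
      rw [hcfg, Pool.Agent.H38.FT.Cfg.map_map]
      have : (fun x => (f * g * f⁻¹ : Equiv.Perm V3) (f x)) = fun x => f (g x) := by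
        funext x
        simp
      rw [this, ← Pool.Agent.H38.FT.Cfg.map_map, hgP]
    have hmem : f * g * f⁻¹ ∈ grp A B s := by
      refine hall _ ⟨Q' * M * Q'⁻¹, Q' *ᵥ a, ?_, fun x => ?_⟩ (by rw [hQc]; exact hg')
      · -- orthogonality
        have e1 : Q' * M * Q'⁻¹ = U * ((k.frame b' c') * M * (k.frame b' c')⁻¹) * Uᵀ := by
          have hinv : Q'⁻¹ = ρ⁻¹ • ((k.frame b' c')⁻¹ * Uᵀ) := by
            apply inv_eq_right_inv
            rw [hQ', Matrix.smul_mul, Matrix.mul_smul, smul_smul, mul_inv_cancel₀ hρ.ne',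
              one_smul, Matrix.mul_assoc U, ← Matrix.mul_assoc (k.frame b' c'), hFi,
              Matrix.one_mul, hU']
          rw [hinv, hQ']
          simp only [Matrix.smul_mul, Matrix.mul_smul, smul_smul, Matrix.mul_assoc]
          rw [inv_mul_cancel₀ hρ.ne', one_smul]
        have hM' : ((k.frame b' c') * M * (k.frame b' c')⁻¹)ᵀ *
            ((k.frame b' c') * M * (k.frame b' c')⁻¹) = 1 := hM
        rw [e1]
        set N := (k.frame b' c') * M * (k.frame b' c')⁻¹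
        rw [transpose_mul, transpose_mul, transpose_transpose]
        calc U * (Nᵀ * Uᵀ) * (U * N * Uᵀ) = U * Nᵀ * (Uᵀ * U) * N * Uᵀ := by
              simp only [Matrix.mul_assoc]
          _ = U * (Nᵀ * N) * Uᵀ := by rw [hU, Matrix.mul_one]; simp only [Matrix.mul_assoc]
          _ = 1 := by rw [hM', Matrix.mul_one, hU']
      · -- affine
        have hfi : f⁻¹ x = Q'⁻¹ *ᵥ x := by
          rw [Equiv.Perm.inv_eq_iff_eq, hf.lin_mul, mulVec_mulVec,
            mul_nonsing_inv _ (Ne.isUnit hdet), one_mulVec]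
        rw [Equiv.Perm.mul_apply, Equiv.Perm.mul_apply, hf.lin_mul, hg, hfi, mulVec_add,
          mulVec_mulVec, mulVec_mulVec]
    -- back
    have hgr : grp A B s = (grp A' B' s').map (MulAut.conj f).toMonoidHom := by
      rw [← grp_cnj, ← hAe, ← hBe, ← hse]
    rw [hgr, Subgroup.mem_map] at hmem
    obtain ⟨g', hg', he⟩ := hmem
    have : g' = g := by
      have e2 : f * g' * f⁻¹ = f * g * f⁻¹ := he
      simpa using e2
    rwa [← this]
  -- the item
  obtain ⟨d, hd0, rfl, rfl, rfl, rfl⟩ := listed_iff.1 hli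
  have hVinf : (cfg c d.A d.B d.s 0).V.Infinite := by
    intro hfin
    apply hinfQ
    have : {x | ∃ g ∈ grp A B s, x = g 0} = (cfg c A B s 0).V := rfl
    rw [this, hcfg]
    exact hfin.image _
  have hflat := (spans_iff hli hs0 c).1 hsp'
  refine ⟨⟨c, d, b', c'⟩, ⟨(infinite_iff hd0 hflat c).1 hVinf, hb', hc', hgood'.rel,
    hgood'.nondeg, (simple_iff l1 l2 hgood'.rel hgood'.nondeg l3).1 hgood'.simple, hflat,
    hfull⟩, ?_⟩
  obtain ⟨g1, hg1⟩ := exists_isom_orth hU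
  obtain ⟨g2, hg2⟩ := exists_smul_isom t hρ
  refine ⟨ρ, hρ, g1.trans g2, ?_⟩
  rw [hPQ, hQc, hcfg, InfItem.cfg_eq, Pool.Agent.H38.FT.Cfg.map_map,
    Pool.Agent.H38.FT.Cfg.map_map]
  congr 1
  funext x
  rw [hf.lin_mul, hQ', smul_mulVec, WithLp.toLp_smul, hg2, ← mulVec_mulVec]
  change ρ • g2 _ = ρ • g2 (g1 _)
  rw [hg1]
  rfl

/-- The classification of the infinite fully transitive polyhedra. -/
theorem infinite_classification {P : Cfg E3} (hP : P.IsPolyhedron) (hd : DiscreteTopology P.V)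
    (hs : affineSpan ℝ P.V = ⊤) (hinf : P.V.Infinite) :
    FullyTransitive P ↔ ∃ i : InfItem, i.Valid ∧ Similar P i.cfg := by
  refine ⟨exists_item hP hd hs hinf, ?_⟩
  rintro ⟨i, hi, r, hr, g, rfl⟩
  exact Pool.Agent.H38.FT.FullyTransitive.map hi.poly.2.2.2.2 hr g

end Pool.Agent.H21.FT
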