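import Pool.Agent.H21.FT.DefsF

/-!
# The other generators give the same configuration and the same group
-/

namespace Pool.Agent.H21.FT

open Pool.Agent.H38.FT (Cfg)

variable {X : Type*}

namespace Others

theorem map_comp (g h : Equiv.Perm X) (e : Sym2 X) :
    Sym2.map g (Sym2.map h e) = Sym2.map (g * h : Equiv.Perm X) e := by
  rw [Sym2.map_map]
  rfl

theorem map_one' (e : Sym2 X) : Sym2.map (1 : Equiv.Perm X) e = e := by
  have : ((1 : Equiv.Perm X) : X → X) = id := rfl
  rw [this, Sym2.map_id]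
  rfl

theorem image_comp (g h : Equiv.Perm X) (f : Set (Sym2 X)) :
    Sym2.map g '' (Sym2.map h '' f) = Sym2.map (g * h : Equiv.Perm X) '' f := by
  rw [Set.image_image]
  exact Set.image_congr fun e _ => map_comp g h e

/-- Conjugation by `γ` maps one closure into the other. -/
theorem conj_closure {S S' : Set (Equiv.Perm X)} {γ : Equiv.Perm X}
    (h : ∀ x ∈ S, γ * x * γ⁻¹ ∈ Subgroup.closure S') {g : Equiv.Perm X}
    (hg : g ∈ Subgroup.closure S) : γ * g * γ⁻¹ ∈ Subgroup.closure S' := by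
  have hle : Subgroup.closure S ≤ (Subgroup.closure S').comap (MulAut.conj γ).toMonoidHom := by
    rw [Subgroup.closure_le]
    intro x hx
    simpa [MulAut.conj_apply] using h x hx
  have := hle hg
  simpa [MulAut.conj_apply] using this

/-- The face built from conjugate data. -/
theorem face_conj {S S' : Set (Equiv.Perm X)} {E E' : Set (Sym2 X)} {γ : Equiv.Perm X}
    (h : ∀ x ∈ S, γ * x * γ⁻¹ ∈ Subgroup.closure S')
    (h' : ∀ x ∈ S', γ⁻¹ * x * γ ∈ Subgroup.closure S)
    (he : ∀ e ∈ E, ∃ g ∈ Subgroup.closure S', ∃ e' ∈ E', Sym2.map γ e = Sym2.map g e')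
    (he' : ∀ e' ∈ E', ∃ g ∈ Subgroup.closure S', ∃ e ∈ E,
      Sym2.map g e' = Sym2.map γ e) :
    {e | ∃ g ∈ Subgroup.closure S', ∃ e₀ ∈ E', e = Sym2.map g e₀} =
      Sym2.map γ '' {e | ∃ g ∈ Subgroup.closure S, ∃ e₀ ∈ E, e = Sym2.map g e₀} := by
  ext e
  constructor
  · rintro ⟨g, hg, e₀, he₀, rfl⟩
    obtain ⟨k, hk, e₁, he₁, hk'⟩ := he' e₀ he₀
    refine ⟨Sym2.map (γ⁻¹ * (g * k⁻¹) * γ : Equiv.Perm X) e₁, ⟨_, ?_, e₁, he₁, rfl⟩, ?_⟩
    · have := conj_closure (γ := γ⁻¹) (S := S') (S' := S) (fun x hx => by simpa using h' x hx)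
        (Subgroup.mul_mem _ hg (Subgroup.inv_mem _ hk))
      simpa using this
    · rw [map_comp]
      have e1 : γ * (γ⁻¹ * (g * k⁻¹) * γ) = g * k⁻¹ * γ := by group
      rw [e1, ← map_comp, ← hk', map_comp]
      congr 2
      group
  · rintro ⟨e₁, ⟨g, hg, e₀, he₀, rfl⟩, rfl⟩
    obtain ⟨k, hk, e', he'', hk'⟩ := he e₀ he₀
    refine ⟨(γ * g * γ⁻¹) * k, Subgroup.mul_mem _ (conj_closure h hg) hk, e', he'', ?_⟩
    rw [← map_comp, ← hk', map_comp, map_comp]
    congr 2
    group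

theorem cfg_eq_of {c : Cls} {A B s A' B' s' : Equiv.Perm X} {o : X}
    (hg : grp A' B' s' = grp A B s) {δ : Equiv.Perm X} (hδ : δ ∈ grp A B s)
    (hδ' : Sym2.map δ s(o, s' o) = s(o, s o)) {γ : Equiv.Perm X} (hγ : γ ∈ grp A B s)
    (hf : face c A' B' s' o = Sym2.map γ '' face c A B s o) :
    cfg c A' B' s' o = cfg c A B s o := by
  unfold cfg
  rw [hg, hf]
  congr 1
  · ext e
    constructor
    · rintro ⟨g, hg, rfl⟩
      refine ⟨g * δ⁻¹, Subgroup.mul_mem _ hg (Subgroup.inv_mem _ hδ), ?_⟩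
      rw [← hδ', map_comp]
      congr 2
      group
    · rintro ⟨g, hg, rfl⟩
      refine ⟨g * δ, Subgroup.mul_mem _ hg hδ, ?_⟩
      rw [← hδ', map_comp]
  · ext f
    constructor
    · rintro ⟨g, hg, rfl⟩
      exact ⟨g * γ, Subgroup.mul_mem _ hg hγ, by rw [image_comp]⟩
    · rintro ⟨g, hg, rfl⟩
      refine ⟨g * γ⁻¹, Subgroup.mul_mem _ hg (Subgroup.inv_mem _ hγ), ?_⟩
      rw [image_comp]
      congr 3
      group

theorem grp_eq_of {A B s A' B' s' : Equiv.Perm X} (h1 : A' ∈ grp A B s) (h2 : B' ∈ grp A B s)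
    (h3 : s' ∈ grp A B s) (h4 : A ∈ grp A' B' s') (h5 : B ∈ grp A' B' s')
    (h6 : s ∈ grp A' B' s') : grp A' B' s' = grp A B s := by
  apply le_antisymm
  · unfold grp
    rw [Subgroup.closure_le]
    rintro x (rfl | rfl | rfl)
    · exact h1
    · exact h2
    · exact h3
  · unfold grp
    rw [Subgroup.closure_le]
    rintro x (rfl | rfl | rfl)
    · exact h4
    · exact h5
    · exact h6

theorem mA {A B s : Equiv.Perm X} : A ∈ grp A B s := Subgroup.subset_closure (by simp)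
theorem mB {A B s : Equiv.Perm X} : B ∈ grp A B s := Subgroup.subset_closure (by simp)
theorem ms {A B s : Equiv.Perm X} : s ∈ grp A B s := Subgroup.subset_closure (by simp)

theorem inv_eq_of_sq {g : Equiv.Perm X} (h : g * g = 1) : g⁻¹ = g := by
  rw [inv_eq_iff_mul_eq_one]
  exact h

theorem aii (g : Equiv.Perm X) (x : X) : g (g⁻¹ x) = x := by
  rw [← Equiv.Perm.mul_apply, mul_inv_cancel]; rfl

theorem iai (g : Equiv.Perm X) (x : X) : g⁻¹ (g x) = x := by
  rw [← Equiv.Perm.mul_apply, inv_mul_cancel]; rfl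

theorem app_inv {g : Equiv.Perm X} {x : X} (h : g x = x) : g⁻¹ x = x := by
  rw [Equiv.Perm.inv_eq_iff_eq]
  exact h.symm

end Others

open Others

theorem others_spec {c : Cls} {A B s : Equiv.Perm X} {o : X} (hA : A o = o) (hB : B o = o)
    (hr : Rel c A B s o) {T : Equiv.Perm X × Equiv.Perm X × Equiv.Perm X}
    (hT : T ∈ others c A B s) :
    cfg c T.1 T.2.1 T.2.2 o = cfg c A B s o ∧ grp T.1 T.2.1 T.2.2 = grp A B s := by
  cases c with
  | reg => simp [others] at hT
  | c2 =>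
    simp only [others, List.mem_singleton] at hT
    subst hT
    obtain ⟨-, hs⟩ := hr
    have hsi := inv_eq_of_sq hs
    have hss : ∀ x, s (s x) = x := fun x => by
      rw [← Equiv.Perm.mul_apply, hs]; rfl
    have hG : grp A⁻¹ B s = grp A B s :=
      grp_eq_of (Subgroup.inv_mem _ mA) mB ms (by simpa using Subgroup.inv_mem _ (mA (A := A⁻¹) (B := B) (s := s))) mB ms
    refine ⟨cfg_eq_of hG (Subgroup.one_mem _) (map_one' _) (γ := s) ms ?_, hG⟩
    apply face_conj
    · rintro x (rfl : x = s * A⁻¹)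
      have e : s * (s * A⁻¹) * s⁻¹ = (s * (A⁻¹)⁻¹)⁻¹ := by
        rw [← mul_assoc, hs]; group
      rw [e]
      exact Subgroup.inv_mem _ (Subgroup.subset_closure rfl)
    · rintro x (rfl : x = s * (A⁻¹)⁻¹)
      have e : s⁻¹ * (s * (A⁻¹)⁻¹) * s = (s * A⁻¹)⁻¹ := by
        have : s⁻¹ = s := hsi
        calc s⁻¹ * (s * (A⁻¹)⁻¹) * s = A * s := by group
          _ = A * s⁻¹ := by rw [this]
          _ = (s * A⁻¹)⁻¹ := by group
      rw [e]
      exact Subgroup.inv_mem _ (Subgroup.subset_closure rfl)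
    · rintro e (rfl : e = s(o, s o))
      refine ⟨1, Subgroup.one_mem _, s(o, s o), rfl, ?_⟩
      rw [map_one', Sym2.map_mk]
      simp only [hss]
      exact Sym2.eq_swap
    · rintro e (rfl : e = s(o, s o))
      refine ⟨1, Subgroup.one_mem _, s(o, s o), rfl, ?_⟩
      rw [map_one', Sym2.map_mk]
      simp only [hss]
      exact Sym2.eq_swap
  | c20 =>
    simp only [others, List.mem_singleton] at hT
    subst hT
    obtain ⟨-, hs⟩ := hr
    have hAi := app_inv hA
    have hG : grp A⁻¹ B s = grp A B s :=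
      grp_eq_of (Subgroup.inv_mem _ mA) mB ms (by simpa using Subgroup.inv_mem _ (mA (A := A⁻¹) (B := B) (s := s))) mB ms
    refine ⟨cfg_eq_of hG (Subgroup.one_mem _) (map_one' _) (γ := A⁻¹) (Subgroup.inv_mem _ mA) ?_,
      hG⟩
    apply face_conj
    · rintro x (rfl | rfl)
      · exact Subgroup.subset_closure (Or.inr rfl)
      · have e : A⁻¹ * (A * s * A⁻¹) * (A⁻¹)⁻¹ = s := by group
        rw [e]
        exact Subgroup.subset_closure (Or.inl rfl)
    · rintro x (rfl | rfl)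
      · have e : (A⁻¹)⁻¹ * x * A⁻¹ = A * x * A⁻¹ := by group
        rw [e]
        exact Subgroup.subset_closure (Or.inr rfl)
      · have e : (A⁻¹)⁻¹ * (A⁻¹ * s * (A⁻¹)⁻¹) * A⁻¹ = s := by group
        rw [e]
        exact Subgroup.subset_closure (Or.inl rfl)
    · rintro e (rfl | rfl)
      · refine ⟨1, Subgroup.one_mem _, s(o, A⁻¹ (s o)), Or.inr rfl, ?_⟩
        rw [map_one', Sym2.map_mk]
        simp only [hAi]
      · refine ⟨1, Subgroup.one_mem _, s(o, s o), Or.inl rfl, ?_⟩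
        rw [map_one', Sym2.map_mk]
        simp only [hAi, iai]
    · rintro e (rfl | rfl)
      · refine ⟨1, Subgroup.one_mem _, s(o, A (s o)), Or.inr rfl, ?_⟩
        rw [map_one', Sym2.map_mk]
        simp only [hAi, iai]
      · refine ⟨1, Subgroup.one_mem _, s(o, s o), Or.inl rfl, ?_⟩
        rw [map_one', Sym2.map_mk]
        simp only [hAi]
  | c21 =>
    simp only [others, List.mem_singleton] at hT
    subst hT
    obtain ⟨-, -, hs⟩ := hr
    have hsi := inv_eq_of_sq hs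
    have hss : ∀ x, s (s x) = x := fun x => by
      rw [← Equiv.Perm.mul_apply, hs]; rfl
    have hG : grp B A s = grp A B s := grp_eq_of mB mA ms mB mA ms
    refine ⟨cfg_eq_of hG (Subgroup.one_mem _) (map_one' _) (γ := s) ms ?_, hG⟩
    apply face_conj
    · rintro x (rfl | rfl)
      · exact Subgroup.subset_closure (Or.inr rfl)
      · have e : s * (s * B * s⁻¹) * s⁻¹ = B := by
          calc s * (s * B * s⁻¹) * s⁻¹ = (s * s) * B * (s * s)⁻¹ := by group
            _ = B := by rw [hs]; group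
        rw [e]
        exact Subgroup.subset_closure (Or.inl rfl)
    · rintro x (rfl | rfl)
      · have e : s⁻¹ * x * s = s * x * s⁻¹ := by rw [hsi]
        rw [e]
        exact Subgroup.subset_closure (Or.inr rfl)
      · have e : s⁻¹ * (s * A * s⁻¹) * s = A := by group
        rw [e]
        exact Subgroup.subset_closure (Or.inl rfl)
    · rintro e (rfl : e = s(o, s o))
      refine ⟨1, Subgroup.one_mem _, s(o, s o), rfl, ?_⟩
      rw [map_one', Sym2.map_mk]
      simp only [hss]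
      exact Sym2.eq_swap
    · rintro e (rfl : e = s(o, s o))
      refine ⟨1, Subgroup.one_mem _, s(o, s o), rfl, ?_⟩
      rw [map_one', Sym2.map_mk]
      simp only [hss]
      exact Sym2.eq_swap
  | c22 =>
    simp only [others, List.mem_singleton] at hT
    subst hT
    have hG : grp B A s⁻¹ = grp A B s :=
      grp_eq_of mB mA (Subgroup.inv_mem _ ms) mB mA
        (by simpa using Subgroup.inv_mem _ (ms (A := B) (B := A) (s := s⁻¹)))
    refine ⟨cfg_eq_of hG (δ := s) ms ?_ (γ := 1) (Subgroup.one_mem _) ?_, hG⟩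
    · rw [Sym2.map_mk]
      simp only [aii]
      exact Sym2.eq_swap
    apply face_conj
    · rintro x (rfl : x = s)
      have e : (1 : Equiv.Perm X) * x * 1⁻¹ = (x⁻¹)⁻¹ := by group
      rw [e]
      exact Subgroup.inv_mem _ (Subgroup.subset_closure rfl)
    · rintro x (rfl : x = s⁻¹)
      have e : (1 : Equiv.Perm X)⁻¹ * s⁻¹ * 1 = s⁻¹ := by group
      rw [e]
      exact Subgroup.inv_mem _ (Subgroup.subset_closure rfl)
    · rintro e (rfl : e = s(o, s o))
      refine ⟨(s⁻¹)⁻¹, Subgroup.inv_mem _ (Subgroup.subset_closure rfl), s(o, s⁻¹ o), rfl, ?_⟩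
      rw [map_one', Sym2.map_mk]
      simp only [inv_inv, aii]
      exact Sym2.eq_swap
    · rintro e (rfl : e = s(o, s⁻¹ o))
      refine ⟨(s⁻¹)⁻¹, Subgroup.inv_mem _ (Subgroup.subset_closure rfl), s(o, s o), rfl, ?_⟩
      rw [map_one', Sym2.map_mk]
      simp only [inv_inv, aii]
      exact Sym2.eq_swap
  | c4a =>
    simp only [others, List.mem_cons, List.not_mem_nil, or_false] at hT
    have hAi := app_inv hA
    rcases hT with rfl | rfl | rfl
    · have hG : grp A⁻¹ B (s * A) = grp A B s :=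
        grp_eq_of (Subgroup.inv_mem _ mA) mB (Subgroup.mul_mem _ ms mA)
          (by simpa using Subgroup.inv_mem _ (mA (A := A⁻¹) (B := B) (s := s * A))) mB
          (by
            have := Subgroup.mul_mem _ (ms (A := A⁻¹) (B := B) (s := s * A))
              (mA (A := A⁻¹) (B := B) (s := s * A))
            have e : s * A * A⁻¹ = s := by group
            rwa [e] at this)
      refine ⟨cfg_eq_of hG (δ := 1) (Subgroup.one_mem _) ?_ (γ := s) ms ?_, hG⟩
      · rw [map_one']
        simp only [Equiv.Perm.mul_apply, hA]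
      apply face_conj
      · rintro x (rfl : x = s * A * s)
        have e : s * (s * A * s) * s⁻¹ = s * A * A⁻¹ * (s * A) := by group
        rw [e]
        exact Subgroup.subset_closure rfl
      · rintro x (rfl : x = s * A * A⁻¹ * (s * A))
        have e : s⁻¹ * (s * A * A⁻¹ * (s * A)) * s = s * A * s := by group
        rw [e]
        exact Subgroup.subset_closure rfl
      · rintro e (rfl | rfl)
        · refine ⟨1, Subgroup.one_mem _, s(o, (s * A) o), Or.inr rfl, ?_⟩
          rw [map_one', Sym2.map_mk]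
          simp only [aii, Equiv.Perm.mul_apply, hA]
        · refine ⟨s * A * A⁻¹ * (s * A), Subgroup.subset_closure rfl, s((s * A)⁻¹ o, o),
            Or.inl rfl, ?_⟩
          rw [Sym2.map_mk, Sym2.map_mk]
          simp only [mul_inv_rev, aii, Equiv.Perm.mul_apply, hA, hAi]
      · rintro e (rfl | rfl)
        · refine ⟨s * A * A⁻¹ * (s * A), Subgroup.subset_closure rfl, s(o, s o), Or.inr rfl, ?_⟩
          rw [Sym2.map_mk, Sym2.map_mk]
          simp only [mul_inv_rev, aii, Equiv.Perm.mul_apply, hA, hAi]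
        · refine ⟨1, Subgroup.one_mem _, s(s⁻¹ o, o), Or.inl rfl, ?_⟩
          rw [map_one', Sym2.map_mk]
          simp only [aii, Equiv.Perm.mul_apply, hA]
    · have hG : grp A B (s⁻¹ * A⁻¹) = grp A B s := by
        refine grp_eq_of mA mB (Subgroup.mul_mem _ (Subgroup.inv_mem _ ms) (Subgroup.inv_mem _ mA))
          mA mB ?_
        have := Subgroup.mul_mem _ (Subgroup.inv_mem _ (mA (A := A) (B := B) (s := s⁻¹ * A⁻¹)))
          (Subgroup.inv_mem _ (ms (A := A) (B := B) (s := s⁻¹ * A⁻¹)))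
        have e : A⁻¹ * (s⁻¹ * A⁻¹)⁻¹ = s := by group
        rwa [e] at this
      refine ⟨cfg_eq_of hG (δ := s) ms ?_ (γ := s⁻¹) (Subgroup.inv_mem _ ms) ?_, hG⟩
      · rw [Sym2.map_mk]
        simp only [Equiv.Perm.mul_apply, hAi, aii]
        exact Sym2.eq_swap
      apply face_conj
      · rintro x (rfl : x = s * A * s)
        have e : s⁻¹ * (s * A * s) * (s⁻¹)⁻¹ = (s⁻¹ * A⁻¹ * A * (s⁻¹ * A⁻¹))⁻¹ := by
          simp [mul_assoc]
        rw [e]
        exact Subgroup.inv_mem _ (Subgroup.subset_closure rfl)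
      · rintro x (rfl : x = s⁻¹ * A⁻¹ * A * (s⁻¹ * A⁻¹))
        have e : (s⁻¹)⁻¹ * (s⁻¹ * A⁻¹ * A * (s⁻¹ * A⁻¹)) * s⁻¹ = (s * A * s)⁻¹ := by group
        rw [e]
        exact Subgroup.inv_mem _ (Subgroup.subset_closure rfl)
      · rintro e (rfl | rfl)
        · refine ⟨s⁻¹ * A⁻¹ * A * (s⁻¹ * A⁻¹), Subgroup.subset_closure rfl,
            s((s⁻¹ * A⁻¹)⁻¹ o, o), Or.inl rfl, ?_⟩
          rw [Sym2.map_mk, Sym2.map_mk]
          simp only [mul_inv_rev, inv_inv, iai,
            Equiv.Perm.mul_apply, hAi]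
          exact Sym2.eq_swap
        · refine ⟨1, Subgroup.one_mem _, s(o, (s⁻¹ * A⁻¹) o), Or.inr rfl, ?_⟩
          rw [map_one', Sym2.map_mk]
          simp only [iai, Equiv.Perm.mul_apply, hAi]
          exact Sym2.eq_swap
      · rintro e (rfl | rfl)
        · refine ⟨s⁻¹ * A⁻¹ * A * (s⁻¹ * A⁻¹), Subgroup.subset_closure rfl, s(s⁻¹ o, o),
            Or.inl rfl, ?_⟩
          rw [Sym2.map_mk, Sym2.map_mk]
          simp only [mul_inv_rev, inv_inv, iai,
            Equiv.Perm.mul_apply, hAi]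
          exact Sym2.eq_swap
        · refine ⟨1, Subgroup.one_mem _, s(o, s o), Or.inr rfl, ?_⟩
          rw [map_one', Sym2.map_mk]
          simp only [iai, Equiv.Perm.mul_apply, hAi]
          exact Sym2.eq_swap
    · have hG : grp A⁻¹ B s⁻¹ = grp A B s :=
        grp_eq_of (Subgroup.inv_mem _ mA) mB (Subgroup.inv_mem _ ms)
          (by simpa using Subgroup.inv_mem _ (mA (A := A⁻¹) (B := B) (s := s⁻¹))) mB
          (by simpa using Subgroup.inv_mem _ (ms (A := A⁻¹) (B := B) (s := s⁻¹)))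
      refine ⟨cfg_eq_of hG (δ := s) ms ?_ (γ := 1) (Subgroup.one_mem _) ?_, hG⟩
      · rw [Sym2.map_mk]
        simp only [aii]
        exact Sym2.eq_swap
      apply face_conj
      · rintro x (rfl : x = s * A * s)
        have e : 1 * (s * A * s) * 1⁻¹ = (s⁻¹ * A⁻¹ * s⁻¹)⁻¹ := by group
        rw [e]
        exact Subgroup.inv_mem _ (Subgroup.subset_closure rfl)
      · rintro x (rfl : x = s⁻¹ * A⁻¹ * s⁻¹)
        have e : 1⁻¹ * (s⁻¹ * A⁻¹ * s⁻¹) * 1 = (s * A * s)⁻¹ := by group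
        rw [e]
        exact Subgroup.inv_mem _ (Subgroup.subset_closure rfl)
      · rintro e (rfl | rfl)
        · exact ⟨1, Subgroup.one_mem _, s(o, s⁻¹ o), Or.inr rfl, by rw [map_one', map_one']; exact Sym2.eq_swap⟩
        · exact ⟨1, Subgroup.one_mem _, s((s⁻¹)⁻¹ o, o), Or.inl rfl, by rw [map_one', map_one', inv_inv]; exact Sym2.eq_swap⟩
      · rintro e (rfl | rfl)
        · exact ⟨1, Subgroup.one_mem _, s(o, s o), Or.inr rfl, by rw [map_one', map_one', inv_inv]; exact Sym2.eq_swap⟩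
        · exact ⟨1, Subgroup.one_mem _, s(s⁻¹ o, o), Or.inl rfl, by rw [map_one', map_one']; exact Sym2.eq_swap⟩
  | c4b =>
    simp only [others, List.mem_singleton] at hT
    subst hT
    have hG : grp B A s⁻¹ = grp A B s :=
      grp_eq_of mB mA (Subgroup.inv_mem _ ms) mB mA
        (by simpa using Subgroup.inv_mem _ (ms (A := B) (B := A) (s := s⁻¹)))
    refine ⟨cfg_eq_of hG (δ := s) ms ?_ (γ := s⁻¹ * s⁻¹)
      (Subgroup.mul_mem _ (Subgroup.inv_mem _ ms) (Subgroup.inv_mem _ ms)) ?_, hG⟩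
    · rw [Sym2.map_mk]
      simp only [aii]
      exact Sym2.eq_swap
    apply face_conj
    · rintro x (rfl | rfl)
      · have e : s⁻¹ * s⁻¹ * x * (s⁻¹ * s⁻¹)⁻¹ = s⁻¹ * s⁻¹ * x * (s⁻¹)⁻¹ * (s⁻¹)⁻¹ := by
          simp [mul_assoc]
        rw [e]
        exact Subgroup.subset_closure (Or.inr rfl)
      · have e : s⁻¹ * s⁻¹ * (s * s * B * s⁻¹ * s⁻¹) * (s⁻¹ * s⁻¹)⁻¹ = B := by group
        rw [e]
        exact Subgroup.subset_closure (Or.inl rfl)
    · rintro x (rfl | rfl)
      · have e : (s⁻¹ * s⁻¹)⁻¹ * x * (s⁻¹ * s⁻¹) = s * s * x * s⁻¹ * s⁻¹ := by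
          simp [mul_assoc]
        rw [e]
        exact Subgroup.subset_closure (Or.inr rfl)
      · have e : (s⁻¹ * s⁻¹)⁻¹ * (s⁻¹ * s⁻¹ * A * (s⁻¹)⁻¹ * (s⁻¹)⁻¹) * (s⁻¹ * s⁻¹) = A := by group
        rw [e]
        exact Subgroup.subset_closure (Or.inl rfl)
    · rintro e (rfl | rfl)
      · refine ⟨1, Subgroup.one_mem _, s(s⁻¹ o, s⁻¹ (s⁻¹ o)), Or.inr rfl, ?_⟩
        rw [map_one', Sym2.map_mk]
        simp only [iai, Equiv.Perm.mul_apply]
        exact Sym2.eq_swap
      · refine ⟨1, Subgroup.one_mem _, s(o, s⁻¹ o), Or.inl rfl, ?_⟩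
        rw [map_one', Sym2.map_mk]
        simp only [iai, Equiv.Perm.mul_apply]
        exact Sym2.eq_swap
    · rintro e (rfl | rfl)
      · refine ⟨1, Subgroup.one_mem _, s(s o, s (s o)), Or.inr rfl, ?_⟩
        rw [map_one', Sym2.map_mk]
        simp only [iai, Equiv.Perm.mul_apply]
        exact Sym2.eq_swap
      · refine ⟨1, Subgroup.one_mem _, s(o, s o), Or.inl rfl, ?_⟩
        rw [map_one', Sym2.map_mk]
        simp only [iai, Equiv.Perm.mul_apply]
        exact Sym2.eq_swap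

end Pool.Agent.H21.FT
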