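import Pool.Agent.H21.FT.RodCore2
import Pool.Agent.H21.FT.Cnj
import Pool.Agent.H21.FT.DefsC

/-!
# Completeness of the list of rods
-/

namespace Pool.Agent.H21.FT

open Matrix

/-! ### Transfer to other coordinates -/

private theorem isAff_zero {f : Equiv.Perm V3} {Q : M3} (hf : IsAff f Q 0) : f 0 = 0 := by
  rw [hf, mulVec_zero, zero_add]

private theorem inv_zero' {f : Equiv.Perm V3} {Q : M3} (hf : IsAff f Q 0) : f⁻¹ 0 = 0 := by
  rw [Equiv.Perm.inv_eq_iff_eq, isAff_zero hf]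

private theorem cj_zero {f : Equiv.Perm V3} {Q : M3} (hf : IsAff f Q 0) (g : Equiv.Perm V3) :
    (f * g * f⁻¹) 0 = Q *ᵥ g 0 := by
  rw [Equiv.Perm.mul_apply, Equiv.Perm.mul_apply, inv_zero' hf, hf, add_zero]

private theorem disc_conj {Γ Γ' : Subgroup (Equiv.Perm V3)} {f : Equiv.Perm V3} {Q : M3}
    (hf : IsAff f Q 0) (hd : Disc Γ) (h : ∀ g ∈ Γ', f * g * f⁻¹ ∈ Γ) : Disc Γ' := by
  intro R
  have hinj : Function.Injective fun g : Equiv.Perm V3 => f * g * f⁻¹ := by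
    intro g g' hgg
    simpa using hgg
  refine ((hd (∑ i, ∑ j, |Q i j| * |R|)).preimage hinj.injOn).subset ?_
  rintro g ⟨hg, hb⟩
  refine ⟨h g hg, ?_⟩
  intro i
  have e : (fun g : Equiv.Perm V3 => f * g * f⁻¹) g 0 = Q *ᵥ g 0 := cj_zero hf g
  rw [e, mulVec, dotProduct]
  calc |∑ j, Q i j * g 0 j| ≤ ∑ j, |Q i j * g 0 j| := Finset.abs_sum_le_sum_abs _ _
    _ ≤ ∑ j, |Q i j| * |R| := by
        apply Finset.sum_le_sum
        intro j _
        rw [abs_mul]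
        exact mul_le_mul_of_nonneg_left ((hb j).trans (le_abs_self R)) (abs_nonneg _)
    _ ≤ ∑ i, ∑ j, |Q i j| * |R| :=
        Finset.single_le_sum (f := fun i => ∑ j, |Q i j| * |R|)
          (fun i _ => Finset.sum_nonneg fun j _ => mul_nonneg (abs_nonneg _) (abs_nonneg _))
          (Finset.mem_univ i)

private theorem spans_conj {Γ Γ' : Subgroup (Equiv.Perm V3)} {f : Equiv.Perm V3} {Q Qi : M3}
    (hf : IsAff f Q 0) (hQ : Q * Qi = 1) (hsp : Spans {x | ∃ g ∈ Γ, x = g 0})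
    (h : ∀ g ∈ Γ, ∃ g' ∈ Γ', g = f * g' * f⁻¹) : Spans {x | ∃ g ∈ Γ', x = g 0} := by
  intro n hn
  have hQ' : Qi * Q = 1 := mul_eq_one_comm.1 hQ
  have hn' : n ᵥ* Qi ≠ 0 := by
    intro h0
    apply hn
    have := congrArg (fun v => v ᵥ* Q) h0
    simp only [vecMul_vecMul, hQ', vecMul_one, zero_vecMul] at this
    exact this
  obtain ⟨x, ⟨g, hg, rfl⟩, hx⟩ := hsp _ hn'
  obtain ⟨g', hg', rfl⟩ := h g hg
  refine ⟨g' 0, ⟨g', hg', rfl⟩, ?_⟩
  rwa [cj_zero hf, dotProduct_mulVec, vecMul_vecMul, hQ', vecMul_one] at hx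

private theorem inf_conj {Γ Γ' : Subgroup (Equiv.Perm V3)} {f : Equiv.Perm V3} {Q : M3}
    (hf : IsAff f Q 0) (hinf : {x | ∃ g ∈ Γ, x = g 0}.Infinite)
    (h : ∀ g ∈ Γ, ∃ g' ∈ Γ', g = f * g' * f⁻¹) : {x | ∃ g ∈ Γ', x = g 0}.Infinite := by
  intro hfin
  apply hinf
  refine (hfin.image fun x => Q *ᵥ x).subset ?_
  rintro x ⟨g, hg, rfl⟩
  obtain ⟨g', hg', rfl⟩ := h g hg
  exact ⟨g' 0, ⟨g', hg', rfl⟩, (cj_zero hf g').symm⟩

/-! ### The normal form -/

/-- The forms of the elements when a vertical line is preserved pointwise up to vertical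
translations and reflections. -/
theorem axis_form {Γ : Subgroup (Equiv.Perm V3)} (hi : Iso Γ)
    (hax : ∀ M ∈ lin Γ, M *ᵥ e3 = e3 ∨ M *ᵥ e3 = -e3) {o : V3}
    (ho : ∀ g ∈ Γ, (g o) 0 = o 0 ∧ (g o) 1 = o 1) :
    ∀ g ∈ Γ, ∃ u σ ε a, ‖u‖ = 1 ∧ (ε = 1 ∨ ε = -1) ∧ IsAff g (rt u σ ε) a ∧
      pl a = pl o - u * cj σ (pl o) := by
  intro g hg
  obtain ⟨M, a, hM, h⟩ := hi g hg
  obtain ⟨u, hu, σ, ε, hε, rfl⟩ := exists_rt hM (hax M ⟨g, hg, a, h⟩)
  refine ⟨u, σ, ε, a, hu, hε, h, ?_⟩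
  have h1 : pl (g o) = pl o := by
    obtain ⟨h0, h1⟩ := ho g hg
    exact Complex.ext h0 h1
  rw [h o, pl_add, pl_rt] at h1
  rw [← h1]
  ring_nf
  rw [h1]
  ring

theorem rod_complete {A B s : Equiv.Perm V3} (hi : Iso (grp A B s)) (hd : Disc (grp A B s))
    (hA : A 0 = 0) (hB : B 0 = 0) (hst : ∀ g ∈ grp A B s, g 0 = 0 → g ∈ stab A B)
    (hsp : Spans {x | ∃ g ∈ grp A B s, x = g 0}) (hinf : {x | ∃ g ∈ grp A B s, x = g 0}.Infinite)
    (hA1 : A ≠ 1)
    (hdeg : (∀ g ∈ stab A B, g = 1 ∨ g = A) → ∀ g ∈ stab A B, g (s 0) ≠ s⁻¹ 0)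
    (hax : ∀ M ∈ lin (grp A B s), M *ᵥ e3 = e3 ∨ M *ᵥ e3 = -e3)
    (ho : ∃ o : V3, ∀ g ∈ grp A B s, (g o) 0 = o 0 ∧ (g o) 1 = o 1) : Conc A B s := by
  obtain ⟨o, ho⟩ := ho
  have hform := axis_form hi hax ho
  have hAm : A ∈ grp A B s := Subgroup.subset_closure (Or.inl rfl)
  have hBm : B ∈ grp A B s := Subgroup.subset_closure (Or.inr (Or.inl rfl))
  have hsm : s ∈ grp A B s := Subgroup.subset_closure (Or.inr (Or.inr rfl))
  have hz0 : ∀ {g : Equiv.Perm V3} {M : M3} {a : V3}, IsAff g M a → g 0 = a := by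
    intro g M a h
    rw [h 0, mulVec_zero, zero_add]
  -- the line does not contain the origin
  have hp : pl o ≠ 0 := by
    intro h0
    have hn : (![1, 0, 0] : V3) ≠ 0 := by
      intro h
      have := congrFun h 0
      simp at this
    obtain ⟨x, ⟨g, hg, rfl⟩, hx⟩ := hsp _ hn
    obtain ⟨u, σ, ε, a, -, -, hf, ha⟩ := hform g hg
    apply hx
    rw [hz0 hf]
    rw [h0] at ha
    have h1 : pl a = 0 := by
      rw [ha]
      cases σ <;> simp [cj]
    have h2 := congrArg Complex.re h1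
    simpa [pl, dotProduct, Fin.sum_univ_three] using h2
  -- the height of the neighbour
  have hw : (s 0) 2 ≠ 0 := by
    intro h0
    have hall : ∀ g ∈ grp A B s, (g 0) 2 = 0 := by
      intro g hg
      have hg' := hg
      unfold grp at hg'
      induction hg' using Subgroup.closure_induction with
      | mem g h =>
        rcases h with rfl | rfl | rfl
        · rw [hA]; rfl
        · rw [hB]; rfl
        · exact h0
      | one => rfl
      | mul g g' h h' ih ih' =>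
        obtain ⟨u, σ, ε, a, -, -, hf, -⟩ := hform g h
        have h1 := ih h
        have h2 := ih' h'
        rw [hz0 hf] at h1
        rw [Equiv.Perm.mul_apply, hf, Pi.add_apply, rt_two, h1, h2]
        ring
      | inv g h ih =>
        obtain ⟨u, σ, ε, a, -, hε, hf, -⟩ := hform g h
        have h1 := ih h
        rw [hz0 hf] at h1
        have h2 : g (g⁻¹ 0) = 0 := Equiv.apply_symm_apply g 0
        rw [hf] at h2
        have h3 := congrFun h2 2
        rw [Pi.add_apply, rt_two, h1, add_zero, Pi.zero_apply] at h3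
        rcases hε with rfl | rfl <;> linarith
    have hn : (![0, 0, 1] : V3) ≠ 0 := by
      intro h
      have := congrFun h 2
      simp at this
    obtain ⟨x, ⟨g, hg, rfl⟩, hx⟩ := hsp _ hn
    apply hx
    simp [dotProduct, Fin.sum_univ_three, hall g hg]
  generalize hpo : pl o = p at hp hform
  generalize hwo : (s 0) 2 = w at hw
  have hnp : -p ≠ 0 := neg_ne_zero.2 hp
  have hQ : rt (-p) false w * rt (-p)⁻¹ false w⁻¹ = 1 := by
    rw [rt_mul, mul_inv_cancel₀ hw]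
    simp only [cj]
    rw [mul_inv_cancel₀ hnp, Bool.xor_self, rt_one]
  have hQ' : rt (-p)⁻¹ false w⁻¹ * rt (-p) false w = 1 := mul_eq_one_comm.1 hQ
  obtain ⟨f, hf, hfi⟩ : ∃ f : Equiv.Perm V3, IsAff f (rt (-p) false w) 0 ∧
      IsAff f⁻¹ (rt (-p)⁻¹ false w⁻¹) 0 := by
    refine ⟨⟨fun x => rt (-p) false w *ᵥ x, fun x => rt (-p)⁻¹ false w⁻¹ *ᵥ x, ?_, ?_⟩, ?_, ?_⟩
    · intro x
      simp only [mulVec_mulVec, hQ', one_mulVec]
    · intro x
      simp only [mulVec_mulVec, hQ, one_mulVec]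
    · intro x
      rw [add_zero]
      rfl
    · intro x
      rw [add_zero]
      rfl
  obtain ⟨A', hA'⟩ : ∃ A', A = f * A' * f⁻¹ := ⟨f⁻¹ * A * f, by group⟩
  obtain ⟨B', hB'⟩ : ∃ B', B = f * B' * f⁻¹ := ⟨f⁻¹ * B * f, by group⟩
  obtain ⟨s', hs'⟩ : ∃ s', s = f * s' * f⁻¹ := ⟨f⁻¹ * s * f, by group⟩
  have hG : grp A B s = (grp A' B' s').map (MulAut.conj f).toMonoidHom := by
    rw [hA', hB', hs', grp_cnj]
  have hH : stab A B = (stab A' B').map (MulAut.conj f).toMonoidHom := by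
    rw [hA', hB', stab_cnj]
  have hG1 : ∀ g ∈ grp A' B' s', f * g * f⁻¹ ∈ grp A B s := by
    intro g hg
    rw [hG]
    exact ⟨g, hg, rfl⟩
  have hG2 : ∀ g ∈ grp A B s, ∃ g' ∈ grp A' B' s', g = f * g' * f⁻¹ := by
    intro g hg
    rw [hG] at hg
    obtain ⟨g', hg', rfl⟩ := hg
    exact ⟨g', hg', rfl⟩
  have hH1 : ∀ g ∈ stab A' B', f * g * f⁻¹ ∈ stab A B := by
    intro g hg
    rw [hH]
    exact ⟨g, hg, rfl⟩
  have hH2 : ∀ g ∈ stab A B, ∃ g' ∈ stab A' B', g = f * g' * f⁻¹ := by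
    intro g hg
    rw [hH] at hg
    obtain ⟨g', hg', rfl⟩ := hg
    exact ⟨g', hg', rfl⟩
  -- the normal form of the conjugates
  have key : ∀ g : Equiv.Perm V3, ∀ u σ ε a, ‖u‖ = 1 → (ε = 1 ∨ ε = -1) →
      IsAff (f * g * f⁻¹) (rt u σ ε) a → pl a = p - u * cj σ p →
      ∃ u', ‖u'‖ = 1 ∧ RF g u' σ ε (w⁻¹ * a 2) := by
    intro g u σ ε a hu hε hg ha
    refine ⟨p⁻¹ * u * cj σ p, ?_, ?_⟩
    · rw [norm_mul, norm_mul, norm_inv, cj_norm, hu, mul_one]
      exact inv_mul_cancel₀ (norm_ne_zero_iff.2 hp)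
    · have h1 := (hfi.mul hg).mul hf
      have e1 : f⁻¹ * (f * g * f⁻¹) * f = g := by group
      rw [e1, rt_mul, rt_mul] at h1
      have e2 : (-p)⁻¹ * cj false u * cj (xor false σ) (-p) = p⁻¹ * u * cj σ p := by
        have h3 : cj σ (-p) = -cj σ p := by cases σ <;> simp [cj]
        rw [Bool.false_xor, h3]
        simp only [cj]
        rw [inv_neg]
        ring
      have e3 : w⁻¹ * ε * w = ε := by
        field_simp
      rw [e2, e3, mulVec_zero, zero_add, Bool.false_xor, Bool.xor_false] at h1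
      have e4 : rt (-p)⁻¹ false w⁻¹ *ᵥ a + 0 = tv (p⁻¹ * u * cj σ p) (w⁻¹ * a 2) := by
        rw [add_zero]
        apply v3_ext
        · rw [pl_rt, pl_tv, ha]
          simp only [cj]
          rw [inv_neg]
          field_simp
          ring
        · rw [rt_two, tv_two]
      rw [e4] at h1
      exact h1
  have hrf : ∀ g ∈ grp A' B' s', ∃ u σ ε l, ‖u‖ = 1 ∧ (ε = 1 ∨ ε = -1) ∧ RF g u σ ε l := by
    intro g hg
    obtain ⟨u, σ, ε, a, hu, hε, h1, h2⟩ := hform _ (hG1 g hg)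
    obtain ⟨u', hu', h3⟩ := key g u σ ε a hu hε h1 h2
    exact ⟨u', σ, ε, _, hu', hε, h3⟩
  obtain ⟨us, σs, εs, hus, hεs, hsf⟩ : ∃ us σs εs, ‖us‖ = 1 ∧ (εs = 1 ∨ εs = -1) ∧
      RF s' us σs εs 1 := by
    obtain ⟨u, σ, ε, a, hu, hε, h1, h2⟩ := hform s hsm
    have h4 : a 2 = w := by rw [← hwo, hz0 h1]
    rw [hs'] at h1
    obtain ⟨u', hu', h3⟩ := key s' u σ ε a hu hε h1 h2
    rw [h4, inv_mul_cancel₀ hw] at h3
    exact ⟨u', σ, ε, hu', hε, h3⟩
  have hf0 : f 0 = 0 := isAff_zero hf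
  have hfi0 : f⁻¹ 0 = 0 := inv_zero' hf
  have hA0 : A' 0 = 0 := by
    have h1 : (f * A' * f⁻¹) 0 = 0 := by rw [← hA', hA]
    rw [Equiv.Perm.mul_apply, Equiv.Perm.mul_apply, hfi0] at h1
    exact f.injective (h1.trans hf0.symm)
  have hB0 : B' 0 = 0 := by
    have h1 : (f * B' * f⁻¹) 0 = 0 := by rw [← hB', hB]
    rw [Equiv.Perm.mul_apply, Equiv.Perm.mul_apply, hfi0] at h1
    exact f.injective (h1.trans hf0.symm)
  have hA1' : A' ≠ 1 := by
    rintro rfl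
    apply hA1
    rw [hA']
    group
  have hdeg' : (∀ g ∈ stab A' B', g = 1 ∨ g = A') → ∀ g ∈ stab A' B', g (s' 0) ≠ s'⁻¹ 0 := by
    intro h g hg heq
    refine hdeg ?_ _ (hH1 g hg) ?_
    · intro k hk
      obtain ⟨k', hk', rfl⟩ := hH2 k hk
      rcases h k' hk' with rfl | rfl
      · left; group
      · right; exact hA'.symm
    · have e1 : s 0 = f (s' 0) := by
        rw [hs', Equiv.Perm.mul_apply, Equiv.Perm.mul_apply, hfi0]
      have e2 : s⁻¹ 0 = f (s'⁻¹ 0) := by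
        have : s⁻¹ = f * s'⁻¹ * f⁻¹ := by rw [hs']; group
        rw [this, Equiv.Perm.mul_apply, Equiv.Perm.mul_apply, hfi0]
      have e3 : f⁻¹ (f (s' 0)) = s' 0 := Equiv.symm_apply_apply f _
      rw [e1, e2, Equiv.Perm.mul_apply, Equiv.Perm.mul_apply, e3, heq]
  obtain ⟨r, hr⟩ := rod_core hrf hus hεs hsf (disc_conj hf hd hG1) hA0 hB0
    (spans_conj hf hQ hsp hG2) (inf_conj hf hinf hG2) hA1' hdeg'
  refine ⟨.tet, rt (-p) false w, f, A', B', s', ?_, hf, hA', hB', hs', Or.inr ⟨rfl, r, hr⟩⟩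
  -- the frame
  have hρ : 0 < ‖p‖ := norm_pos_iff.2 hp
  have hv : ‖-p / (‖p‖ : ℂ)‖ = 1 := by
    rw [norm_div, norm_neg, Complex.norm_real, norm_norm, div_self hρ.ne']
  refine ⟨‖p‖, hρ, rt (-p / (‖p‖ : ℂ)) false (w / |w|), ?_, 1, |w| / ‖p‖, one_pos,
    div_pos (abs_pos.2 hw) hρ, ?_⟩
  · rw [rt_transpose_false, rt_mul]
    simp only [cj]
    rw [conj_mul_self' hv]
    have : w / |w| * (w / |w|) = 1 := by
      rw [div_mul_div_comm, abs_mul_abs_self, div_self (mul_ne_zero hw hw)]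
    rw [this, Bool.xor_self, rt_one]
  · have e1 : (-p / (‖p‖ : ℂ)).re = -p.re / ‖p‖ := by
      rw [Complex.div_ofReal_re, Complex.neg_re]
    have e2 : (-p / (‖p‖ : ℂ)).im = -p.im / ‖p‖ := by
      rw [Complex.div_ofReal_im, Complex.neg_im]
    have e3 : ‖p‖ * (w / |w| * (|w| / ‖p‖)) = w := by
      have := abs_pos.2 hw
      field_simp
    ext i j
    fin_cases i <;> fin_cases j <;>
      simp [rt, Kind.frame, e1, e2, e3] <;>
      field_simp
end Pool.Agent.H21.FT
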