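import Pool.Agent.H21.FT.RodForm

/-!
# Groups that preserve a vertical line: the case of rods
-/

namespace Pool.Agent.H21.FT

open Matrix

theorem rf_m {g : Equiv.Perm V3} :
    RF g 1 true 1 0 ↔ IsAff g (IM.mat ⟨⟨1, 0, 0⟩, ⟨0, -1, 0⟩, ⟨0, 0, 1⟩⟩) 0 := by
  have h : rt 1 true 1 = IM.mat ⟨⟨1, 0, 0⟩, ⟨0, -1, 0⟩, ⟨0, 0, 1⟩⟩ := by
    ext i j; fin_cases i <;> fin_cases j <;> simp [rt, IM.mat]
  unfold RF
  rw [h, tv_one]

theorem rf_z {g : Equiv.Perm V3} :
    RF g 1 false (-1) 0 ↔ IsAff g (IM.mat ⟨⟨1, 0, 0⟩, ⟨0, 1, 0⟩, ⟨0, 0, -1⟩⟩) 0 := by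
  have h : rt 1 false (-1) = IM.mat ⟨⟨1, 0, 0⟩, ⟨0, 1, 0⟩, ⟨0, 0, -1⟩⟩ := by
    ext i j; fin_cases i <;> fin_cases j <;> simp [rt, IM.mat]
  unfold RF
  rw [h, tv_one]

theorem rf_w {g : Equiv.Perm V3} :
    RF g 1 true (-1) 0 ↔ IsAff g (IM.mat ⟨⟨1, 0, 0⟩, ⟨0, -1, 0⟩, ⟨0, 0, -1⟩⟩) 0 := by
  have h : rt 1 true (-1) = IM.mat ⟨⟨1, 0, 0⟩, ⟨0, -1, 0⟩, ⟨0, 0, -1⟩⟩ := by
    ext i j; fin_cases i <;> fin_cases j <;> simp [rt, IM.mat]
  unfold RF
  rw [h, tv_one]

theorem RF.ext' {g g' : Equiv.Perm V3} {u : ℂ} {σ : Bool} {ε l : ℝ} (h : RF g u σ ε l)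
    (h' : RF g' u σ ε l) : g = g' := IsAff.ext' h h'

theorem eq_linGrp {H : Subgroup (Equiv.Perm V3)} {l : List IM}
    (h1 : ∀ M ∈ l, ∃ g ∈ H, IsAff g M.mat 0) (h2 : ∀ g ∈ H, g ∈ linGrp l) : H = linGrp l := by
  apply le_antisymm h2
  unfold linGrp
  rw [Subgroup.closure_le]
  rintro g ⟨M, hM, hg⟩
  obtain ⟨g', hg', h'⟩ := h1 M hM
  rw [hg.ext' h']
  exact hg'

theorem mem_linGrp {l : List IM} {M : IM} (hM : M ∈ l) {g : Equiv.Perm V3}
    (hg : IsAff g M.mat 0) : g ∈ linGrp l := Subgroup.subset_closure ⟨M, hM, hg⟩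

/-- The linear map with the given planar and vertical parts in a discrete group has finite order. -/
theorem rf_finite {Γ : Subgroup (Equiv.Perm V3)} (hd : Disc Γ) {τ : Equiv.Perm V3} (hτ : τ ∈ Γ)
    {v : ℂ} (hv : ‖v‖ = 1) (h : RF τ v false 1 0) : ∃ n : ℕ, 0 < n ∧ v ^ n = 1 := by
  by_contra hn
  push Not at hn
  have hpow : ∀ n : ℕ, RF (τ ^ n) (v ^ n) false 1 0 := by
    intro n
    induction n with
    | zero => simpa using RF.one
    | succ n ih =>
      have := ih.mul h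
      simpa [cj, pow_succ] using this
  have hv0 : v ≠ 0 := by
    rintro rfl
    simp at hv
  have hinj : Function.Injective fun n : ℕ => τ ^ n := by
    intro n m hnm
    simp only at hnm
    have h1 := hpow n
    rw [hnm] at h1
    have h2 : v ^ n = v ^ m := rt_inj (IsAff.unique h1 (hpow m)).1
    rcases lt_trichotomy n m with hlt | heq | hlt
    · exfalso
      apply hn (m - n) (by omega)
      have h3 : v ^ n * v ^ (m - n) = v ^ n * 1 := by
        rw [← pow_add, mul_one, h2]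
        congr 1
        omega
      exact mul_left_cancel₀ (pow_ne_zero n hv0) h3
    · exact heq
    · exfalso
      apply hn (n - m) (by omega)
      have h3 : v ^ m * v ^ (n - m) = v ^ m * 1 := by
        rw [← pow_add, mul_one, ← h2]
        congr 1
        omega
      exact mul_left_cancel₀ (pow_ne_zero m hv0) h3
  refine Set.infinite_range_of_injective hinj ((hd 2).subset ?_)
  rintro g ⟨n, rfl⟩
  refine ⟨Γ.pow_mem hτ n, ?_⟩
  have h1 : ‖v ^ n‖ = 1 := by rw [norm_pow, hv, one_pow]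
  have h2 := Complex.abs_re_le_norm (v ^ n)
  have h3 := Complex.abs_im_le_norm (v ^ n)
  rw [h1] at h2 h3
  intro i
  simp only
  rw [(hpow n).zero]
  rw [abs_le] at h2 h3 ⊢
  fin_cases i
  · simp only [tv, Fin.zero_eta, cons_val_zero]
    constructor <;> linarith [h2.1, h2.2]
  · simp only [tv, Fin.mk_one, cons_val_one, cons_val_zero]
    constructor <;> linarith [h3.1, h3.2]
  · simp [tv]

/-- The angle of a complex number of finite order. -/
theorem arg_rational {u : ℂ} (hu : ‖u‖ = 1) {n : ℕ} (hn : 0 < n) (h : u ^ n = 1) :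
    ∃ p q : ℤ, 0 < q ∧ Complex.arg u * q = Real.pi * p := by
  have h1 : Complex.exp (Complex.arg u * Complex.I) = u := by
    have := Complex.norm_mul_exp_arg_mul_I u
    rwa [hu, Complex.ofReal_one, one_mul] at this
  rw [← h1, ← Complex.exp_nat_mul, Complex.exp_eq_one_iff] at h
  obtain ⟨k, hk⟩ := h
  refine ⟨2 * k, n, by exact_mod_cast hn, ?_⟩
  have h2 : (n : ℂ) * (Complex.arg u : ℂ) = k * (2 * Real.pi) := by
    have h3 : ((n : ℂ) * (Complex.arg u : ℂ)) * Complex.I =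
        (k * (2 * Real.pi)) * Complex.I := by
      rw [mul_assoc, hk]
      ring
    exact mul_right_cancel₀ Complex.I_ne_zero h3
  have h3 : (n : ℝ) * Complex.arg u = k * (2 * Real.pi) := by exact_mod_cast h2
  push_cast
  linarith

theorem rod_param {u : ℂ} (hu : ‖u‖ = 1) {ε : ℝ} {t : Equiv.Perm V3} (h : RF t u false ε 1) :
    u.im = Real.sin (Complex.arg u) ∧
    IsAff t (rodMat (Complex.arg u) ε)
      ![Real.cos (Complex.arg u) - 1, Real.sin (Complex.arg u), 1] := by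
  have h0 : u ≠ 0 := by
    rintro rfl
    simp at hu
  have hc : Real.cos (Complex.arg u) = u.re := by
    rw [Complex.cos_arg h0, hu, div_one]
  have hs : Real.sin (Complex.arg u) = u.im := by
    rw [Complex.sin_arg, hu, div_one]
  refine ⟨hs.symm, ?_⟩
  unfold rodMat
  rw [hc, hs]
  exact h

end Pool.Agent.H21.FT
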