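import Pool.Agent.H21.FT.RodCore

/-!
# Groups that preserve a vertical line: the classification
-/

namespace Pool.Agent.H21.FT

open Matrix

theorem stab_zero {A B : Equiv.Perm V3} (hA : A 0 = 0) (hB : B 0 = 0) :
    ∀ g ∈ stab A B, g 0 = 0 := by
  intro g hg
  unfold stab at hg
  induction hg using Subgroup.closure_induction with
  | mem g h =>
    rcases h with rfl | rfl
    · exact hA
    · exact hB
  | one => rfl
  | mul g g' _ _ ih ih' => rw [Equiv.Perm.mul_apply, ih', ih]
  | inv g _ ih =>
    rw [Equiv.Perm.inv_eq_iff_eq, ih]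

theorem rc_stab_le (A B s : Equiv.Perm V3) : stab A B ≤ grp A B s := by
  apply Subgroup.closure_mono
  rintro g (rfl | rfl)
  · exact Or.inl rfl
  · exact Or.inr (Or.inl rfl)

theorem rod_fin (r : Rod) {A B s h : Equiv.Perm V3} (hH : stab A B = linGrp r.gens)
    (hh : h ∈ stab A B) {u : ℂ} (hu : ‖u‖ = 1) (hf : RF (s * h) u false r.sgn 1)
    (him : u.im ≠ 0) {n : ℕ} (hn : 0 < n) (hpow : u ^ n = 1) : r.Has A B s := by
  obtain ⟨h1, h2⟩ := rod_param hu hf
  refine ⟨hH, Complex.arg u, arg_rational hu hn hpow, by rwa [← h1], s * h, h2,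
    1, Subgroup.one_mem _, h⁻¹, Subgroup.inv_mem _ hh, Or.inl ?_⟩
  group

theorem rod_core {A B s : Equiv.Perm V3}
    (hrf : ∀ g ∈ grp A B s, ∃ u σ ε l, ‖u‖ = 1 ∧ (ε = 1 ∨ ε = -1) ∧ RF g u σ ε l)
    {us : ℂ} {σs : Bool} {εs : ℝ} (hus : ‖us‖ = 1) (hεs : εs = 1 ∨ εs = -1)
    (hs : RF s us σs εs 1) (hd : Disc (grp A B s)) (hA : A 0 = 0) (hB : B 0 = 0)
    (hsp : Spans {x | ∃ g ∈ grp A B s, x = g 0}) (hinf : {x | ∃ g ∈ grp A B s, x = g 0}.Infinite)
    (hA1 : A ≠ 1)
    (hdeg : (∀ g ∈ stab A B, g = 1 ∨ g = A) → ∀ g ∈ stab A B, g (s 0) ≠ s⁻¹ 0) :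
    ∃ r : Rod, r.Has A B s := by
  have hle := rc_stab_le A B s
  have hsm : s ∈ grp A B s := Subgroup.subset_closure (Or.inr (Or.inr rfl))
  have hAm : A ∈ stab A B := Subgroup.subset_closure (Or.inl rfl)
  have hBm : B ∈ stab A B := Subgroup.subset_closure (Or.inr rfl)
  have hgen : ∀ g ∈ stab A B, ∃ σ ε, (ε = 1 ∨ ε = -1) ∧ RF g 1 σ ε 0 := by
    intro g hg
    obtain ⟨u, σ, ε, l, hu, hε, hf⟩ := hrf g (hle hg)
    obtain ⟨rfl, rfl⟩ := hf.fix (stab_zero hA hB g hg)
    exact ⟨σ, ε, hε, hf⟩
  have ind : ∀ P : ℂ → Bool → ℝ → ℝ → Prop, P 1 false 1 0 →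
      (∀ u σ ε l u' σ' ε' l', P u σ ε l → P u' σ' ε' l' →
        P (u * cj σ u') (xor σ σ') (ε * ε') (ε * l' + l)) →
      (∀ u σ ε l, ‖u‖ = 1 → (ε = 1 ∨ ε = -1) → P u σ ε l →
        P (cj σ ((starRingEnd ℂ) u)) σ ε (-(ε * l))) →
      (∀ g ∈ stab A B, ∀ σ ε, (ε = 1 ∨ ε = -1) → RF g 1 σ ε 0 → P 1 σ ε 0) → P us σs εs 1 →
      ∀ g ∈ grp A B s, ∃ u σ ε l, ‖u‖ = 1 ∧ (ε = 1 ∨ ε = -1) ∧ RF g u σ ε l ∧ P u σ ε l := by
    intro P h1 hmul hinv hst hPs
    refine rf_ind P h1 hmul hinv ?_
    rintro g (rfl | rfl | rfl)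
    · obtain ⟨σ, ε, hε, hf⟩ := hgen _ hAm
      exact ⟨1, σ, ε, 0, by simp, hε, hf, hst _ hAm σ ε hε hf⟩
    · obtain ⟨σ, ε, hε, hf⟩ := hgen _ hBm
      exact ⟨1, σ, ε, 0, by simp, hε, hf, hst _ hBm σ ε hε hf⟩
    · exact ⟨us, σs, εs, 1, hus, hεs, hs, hPs⟩
  -- the angle is not a multiple of a half turn
  have him : us.im ≠ 0 := by
    intro h0
    have hn : (![0, 1, 0] : V3) ≠ 0 := by
      intro h
      have := congrFun h 1
      simp at this
    obtain ⟨x, ⟨g, hg, rfl⟩, hx⟩ := hsp _ hn
    obtain ⟨u, σ, ε, l, -, -, hf, hP⟩ := ind (fun u _ _ _ => u.im = 0) (by simp)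
      (by
        intro u σ _ _ u' _ _ _ h h'
        cases σ <;> simp [cj, h, h'])
      (by
        intro u σ _ _ _ _ h
        cases σ <;> simp [cj, h])
      (by intros; simp) h0 g hg
    apply hx
    rw [hf.zero]
    simp [tv, dotProduct, Fin.sum_univ_three, hP]
  -- the elements of the stabiliser
  have hone : ∀ g ∈ stab A B, ¬ RF g 1 true 1 0 → ¬ RF g 1 false (-1) 0 → ¬ RF g 1 true (-1) 0 →
      g = 1 := by
    intro g hg h1 h2 h3
    obtain ⟨σ, ε, hε, hf⟩ := hgen g hg
    rcases hε with rfl | rfl <;> cases σ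
    · exact hf.ext' RF.one
    · exact absurd hf h1
    · exact absurd hf h2
    · exact absurd hf h3
  have hconj : ∀ u : ℂ, ∀ n : ℕ, ((starRingEnd ℂ) u * (starRingEnd ℂ) u) ^ n = 1 →
      u ^ (2 * n) = 1 := by
    intro u n h
    rw [← map_mul, ← map_pow] at h
    have h2 := congrArg (starRingEnd ℂ) h
    rw [Complex.conj_conj, map_one] at h2
    rw [pow_mul, pow_two, h2]
  by_cases hm : ∃ m ∈ stab A B, RF m 1 true 1 0
  · obtain ⟨m, hm, hmf⟩ := hm
    by_cases hz : ∃ z ∈ stab A B, RF z 1 false (-1) 0
    · -- first type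
      obtain ⟨z, hz, hzf⟩ := hz
      have hwf : RF (m * z) 1 true (-1) 0 := by simpa [cj] using hmf.mul hzf
      have hw : m * z ∈ stab A B := Subgroup.mul_mem _ hm hz
      obtain ⟨h, hh, hf⟩ : ∃ h ∈ stab A B, RF (s * h) us false 1 1 := by
        rcases hεs with rfl | rfl <;> cases σs
        · exact ⟨1, Subgroup.one_mem _, by simpa using hs⟩
        · exact ⟨m, hm, by simpa [cj] using hs.mul hmf⟩
        · exact ⟨z, hz, by simpa [cj] using hs.mul hzf⟩
        · exact ⟨m * z, hw, by simpa [cj] using hs.mul hwf⟩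
      have hτ : RF (s * h * z * (s * h * z)) (us * us) false 1 0 := by
        have h1 := hf.mul hzf
        have h2 := h1.mul h1
        simpa [cj] using h2
      have hshm : s * h ∈ grp A B s := Subgroup.mul_mem _ hsm (hle hh)
      have hτm : s * h * z * (s * h * z) ∈ grp A B s := by
        have := Subgroup.mul_mem _ hshm (hle hz)
        exact Subgroup.mul_mem _ this this
      obtain ⟨n, hn, hpow⟩ := rf_finite hd hτm (by rw [norm_mul, hus, one_mul]) hτ
      refine ⟨.r1, rod_fin .r1 ?_ hh hus hf him (n := 2 * n) (by omega) ?_⟩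
      · apply eq_linGrp
        · intro M hM
          simp only [Rod.gens, List.mem_cons, List.not_mem_nil, or_false] at hM
          rcases hM with rfl | rfl
          · exact ⟨m, hm, rf_m.1 hmf⟩
          · exact ⟨z, hz, rf_z.1 hzf⟩
        · intro g hg
          have hml : m ∈ linGrp Rod.r1.gens :=
            mem_linGrp (by simp [Rod.gens]) (rf_m.1 hmf)
          have hzl : z ∈ linGrp Rod.r1.gens :=
            mem_linGrp (by simp [Rod.gens]) (rf_z.1 hzf)
          obtain ⟨σ, ε, hε, hgf⟩ := hgen g hg
          rcases hε with rfl | rfl <;> cases σ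
          · rw [hgf.ext' RF.one]; exact Subgroup.one_mem _
          · rw [hgf.ext' hmf]; exact hml
          · rw [hgf.ext' hzf]; exact hzl
          · rw [hgf.ext' hwf]; exact Subgroup.mul_mem _ hml hzl
      · rw [pow_mul, pow_two, hpow]
    · -- third type
      have hw : ∀ g ∈ stab A B, ¬ RF g 1 true (-1) 0 := by
        intro g hg hgf
        apply hz
        exact ⟨m * g, Subgroup.mul_mem _ hm hg, by simpa [cj] using hmf.mul hgf⟩
      obtain ⟨h, hh, hf⟩ : ∃ h ∈ stab A B, RF (s * h) us false εs 1 := by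
        cases σs
        · exact ⟨1, Subgroup.one_mem _, by simpa using hs⟩
        · exact ⟨m, hm, by simpa [cj] using hs.mul hmf⟩
      have hshm : s * h ∈ grp A B s := Subgroup.mul_mem _ hsm (hle hh)
      rcases hεs with rfl | rfl
      · have hτ : RF (m * (s * h) * m * (s * h)⁻¹)
            ((starRingEnd ℂ) us * (starRingEnd ℂ) us) false 1 0 := by
          have h1 := ((hmf.mul hf).mul hmf).mul (hf.inv hus (Or.inl rfl))
          simpa [cj] using h1
        have hτm : m * (s * h) * m * (s * h)⁻¹ ∈ grp A B s :=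
          Subgroup.mul_mem _ (Subgroup.mul_mem _ (Subgroup.mul_mem _ (hle hm) hshm) (hle hm))
            (Subgroup.inv_mem _ hshm)
        obtain ⟨n, hn, hpow⟩ := rf_finite hd hτm
          (by rw [norm_mul, RCLike.norm_conj, hus, one_mul]) hτ
        refine ⟨.r3, rod_fin .r3 ?_ hh hus hf him (n := 2 * n) (by omega) (hconj us n hpow)⟩
        apply eq_linGrp
        · intro M hM
          simp only [Rod.gens, List.mem_cons, List.not_mem_nil, or_false] at hM
          subst hM
          exact ⟨m, hm, rf_m.1 hmf⟩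
        · intro g hg
          obtain ⟨σ, ε, hε, hgf⟩ := hgen g hg
          rcases hε with rfl | rfl <;> cases σ
          · rw [hgf.ext' RF.one]; exact Subgroup.one_mem _
          · exact mem_linGrp (by simp [Rod.gens]) (rf_m.1 hgf)
          · exact absurd ⟨g, hg, hgf⟩ hz
          · exact absurd hgf (hw g hg)
      · exfalso
        have hP := ind (fun _ _ ε l => (ε = 1 ∧ l = 0) ∨ (ε = -1 ∧ l = 1)) (by simp)
          (by
            intro _ _ ε l _ _ ε' l' h h'
            rcases h with ⟨rfl, rfl⟩ | ⟨rfl, rfl⟩ <;> rcases h' with ⟨rfl, rfl⟩ | ⟨rfl, rfl⟩ <;>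
              norm_num)
          (by
            intro _ _ ε l _ _ h
            rcases h with ⟨rfl, rfl⟩ | ⟨rfl, rfl⟩ <;> norm_num)
          (by
            intro g hg σ ε hε hgf
            rcases hε with rfl | rfl
            · simp
            · exfalso
              cases σ
              · exact hz ⟨g, hg, hgf⟩
              · exact hw g hg hgf)
          (by simp)
        refine hinf (((hd 2).image fun g : Equiv.Perm V3 => g 0).subset ?_)
        rintro x ⟨g, hg, rfl⟩
        refine ⟨g, ⟨hg, ?_⟩, rfl⟩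
        obtain ⟨u, σ, ε, l, hu, -, hgf, hPl⟩ := hP g hg
        have hl : |l| ≤ 2 := by
          rcases hPl with ⟨-, rfl⟩ | ⟨-, rfl⟩ <;> norm_num
        have h2 := Complex.abs_re_le_norm u
        have h3 := Complex.abs_im_le_norm u
        rw [hu] at h2 h3
        intro i
        rw [hgf.zero]
        rw [abs_le] at h2 h3 hl ⊢
        fin_cases i
        · simp only [tv, Fin.zero_eta, cons_val_zero]
          constructor <;> linarith [h2.1, h2.2]
        · simp only [tv, Fin.mk_one, cons_val_one, cons_val_zero]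
          constructor <;> linarith [h3.1, h3.2]
        · exact hl
  · by_cases hz : ∃ z ∈ stab A B, RF z 1 false (-1) 0
    · -- second type
      obtain ⟨z, hz, hzf⟩ := hz
      have hw : ∀ g ∈ stab A B, ¬ RF g 1 true (-1) 0 := by
        intro g hg hgf
        apply hm
        exact ⟨z * g, Subgroup.mul_mem _ hz hg, by simpa [cj] using hzf.mul hgf⟩
      have hσ : σs = false := by
        cases σs
        · rfl
        · exfalso
          have hP := ind (fun u σ _ _ => (σ = false ∧ u = 1) ∨ (σ = true ∧ u = us)) (by simp)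
            (by
              intro u σ _ _ u' σ' _ _ h h'
              rcases h with ⟨rfl, rfl⟩ | ⟨rfl, rfl⟩ <;> rcases h' with ⟨rfl, rfl⟩ | ⟨rfl, rfl⟩
              · simp [cj]
              · simp [cj]
              · simp [cj]
              · left
                refine ⟨rfl, ?_⟩
                simp only [cj]
                rw [mul_comm, conj_mul_self' hus])
            (by
              intro u σ _ _ _ _ h
              rcases h with ⟨rfl, rfl⟩ | ⟨rfl, rfl⟩ <;> simp [cj])
            (by
              intro g hg σ ε hε hgf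
              cases σ
              · simp
              · exfalso
                rcases hε with rfl | rfl
                · exact hm ⟨g, hg, hgf⟩
                · exact hw g hg hgf)
            (by simp)
          have hn : (![-us.im, us.re - 1, 0] : V3) ≠ 0 := by
            intro h
            have := congrFun h 0
            simp [him] at this
          obtain ⟨x, ⟨g, hg, rfl⟩, hx⟩ := hsp _ hn
          obtain ⟨u, σ, ε, l, -, -, hf, hPg⟩ := hP g hg
          apply hx
          rw [hf.zero]
          rcases hPg with ⟨-, rfl⟩ | ⟨-, rfl⟩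
          · simp [tv, dotProduct, Fin.sum_univ_three]
          · simp [tv, dotProduct, Fin.sum_univ_three]
            ring
      subst hσ
      obtain ⟨h, hh, hf⟩ : ∃ h ∈ stab A B, RF (s * h) us false 1 1 := by
        rcases hεs with rfl | rfl
        · exact ⟨1, Subgroup.one_mem _, by simpa using hs⟩
        · exact ⟨z, hz, by simpa [cj] using hs.mul hzf⟩
      have hτ : RF (s * h * z * (s * h * z)) (us * us) false 1 0 := by
        have h1 := hf.mul hzf
        have h2 := h1.mul h1
        simpa [cj] using h2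
      have hshm : s * h ∈ grp A B s := Subgroup.mul_mem _ hsm (hle hh)
      have hτm : s * h * z * (s * h * z) ∈ grp A B s := by
        have := Subgroup.mul_mem _ hshm (hle hz)
        exact Subgroup.mul_mem _ this this
      obtain ⟨n, hn, hpow⟩ := rf_finite hd hτm (by rw [norm_mul, hus, one_mul]) hτ
      refine ⟨.r2, rod_fin .r2 ?_ hh hus hf him (n := 2 * n) (by omega) ?_⟩
      · apply eq_linGrp
        · intro M hM
          simp only [Rod.gens, List.mem_cons, List.not_mem_nil, or_false] at hM
          subst hM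
          exact ⟨z, hz, rf_z.1 hzf⟩
        · intro g hg
          obtain ⟨σ, ε, hε, hgf⟩ := hgen g hg
          rcases hε with rfl | rfl <;> cases σ
          · rw [hgf.ext' RF.one]; exact Subgroup.one_mem _
          · exact absurd ⟨g, hg, hgf⟩ hm
          · exact mem_linGrp (by simp [Rod.gens]) (rf_z.1 hgf)
          · exact absurd hgf (hw g hg)
      · rw [pow_mul, pow_two, hpow]
    · by_cases hw : ∃ w ∈ stab A B, RF w 1 true (-1) 0
      · -- fourth type
        obtain ⟨w, hw, hwf⟩ := hw
        have hall : ∀ g ∈ stab A B, g = 1 ∨ g = w := by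
          intro g hg
          obtain ⟨σ, ε, hε, hgf⟩ := hgen g hg
          rcases hε with rfl | rfl <;> cases σ
          · exact Or.inl (hgf.ext' RF.one)
          · exact absurd ⟨g, hg, hgf⟩ hm
          · exact absurd ⟨g, hg, hgf⟩ hz
          · exact Or.inr (hgf.ext' hwf)
        have hAw : A = w := by
          rcases hall A hAm with h | h
          · exact absurd h hA1
          · exact h
        obtain ⟨h, hh, ε, hε, hf⟩ : ∃ h ∈ stab A B, ∃ ε : ℝ, (ε = 1 ∨ ε = -1) ∧
            RF (s * h) us false ε 1 := by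
          cases σs
          · exact ⟨1, Subgroup.one_mem _, εs, hεs, by simpa using hs⟩
          · refine ⟨w, hw, -εs, ?_, by simpa [cj] using hs.mul hwf⟩
            rcases hεs with rfl | rfl
            · exact Or.inr rfl
            · exact Or.inl (by norm_num)
        have hshm : s * h ∈ grp A B s := Subgroup.mul_mem _ hsm (hle hh)
        rcases hε with rfl | rfl
        · exfalso
          have hdeg' := hdeg (fun g hg => by rw [hAw]; exact hall g hg) (h * w) (Subgroup.mul_mem _ hh hw)
          apply hdeg'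
          have h0 : h 0 = 0 := stab_zero hA hB h hh
          have e1 : s 0 = tv us 1 := by
            have := hf.zero
            rwa [Equiv.Perm.mul_apply, h0] at this
          have e2 : (s * h)⁻¹ 0 = tv ((starRingEnd ℂ) us) (-1) := by
            have := (hf.inv hus (Or.inl rfl)).zero
            simpa [cj] using this
          have e3 : w (s 0) = tv ((starRingEnd ℂ) us) (-1) := by
            rw [e1, hwf]
            apply v3_ext
            · rw [pl_add, pl_rt, pl_tv, pl_tv, pl_tv]
              simp [cj]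
            · rw [Pi.add_apply, rt_two, tv_two, tv_two, tv_two]
              norm_num
          rw [Equiv.Perm.mul_apply, e3, ← e2, _root_.mul_inv_rev, Equiv.Perm.mul_apply]
          exact Equiv.apply_symm_apply h _
        · have hτ : RF (s * h * (s * h)) (us * us) false 1 0 := by
            have h2 := hf.mul hf
            simpa [cj] using h2
          have hτm : s * h * (s * h) ∈ grp A B s := Subgroup.mul_mem _ hshm hshm
          obtain ⟨n, hn, hpow⟩ := rf_finite hd hτm (by rw [norm_mul, hus, one_mul]) hτ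
          refine ⟨.r4, rod_fin .r4 ?_ hh hus hf him (n := 2 * n) (by omega) ?_⟩
          · apply eq_linGrp
            · intro M hM
              simp only [Rod.gens, List.mem_cons, List.not_mem_nil, or_false] at hM
              subst hM
              exact ⟨w, hw, rf_w.1 hwf⟩
            · intro g hg
              rcases hall g hg with rfl | rfl
              · exact Subgroup.one_mem _
              · exact mem_linGrp (by simp [Rod.gens]) (rf_w.1 hwf)
          · rw [pow_mul, pow_two, hpow]
      · exfalso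
        apply hA1
        exact hone A hAm (fun h => hm ⟨A, hAm, h⟩) (fun h => hz ⟨A, hAm, h⟩)
          (fun h => hw ⟨A, hAm, h⟩)

end Pool.Agent.H21.FT
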