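import Pool.Agent.H21.FT.Lats

/-!
# The table: definitions
-/

namespace Pool.Agent.H21.FT

open Matrix

/-- A congruence: `al * x + be * y + ga` is an integer multiple of `d`. -/
structure Cong where
  al : ℤ
  be : ℤ
  ga : ℤ
  d : ℤ
  deriving DecidableEq

/-- The congruence holds for the real numbers `x`, `y`. -/
def Cong.Holds (q : Cong) (x y : ℝ) : Prop :=
  ∃ k : ℤ, (q.al : ℝ) * x + (q.be : ℝ) * y + (q.ga : ℝ) = (q.d : ℝ) * k

/-- A family of vectors: all vectors `(v + n₁ T1 + n₂ T2 + n₃ T3) / den + x K1 + y K2` with integers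
`n₁, n₂, n₃` and real numbers `x, y` that do not satisfy all congruences of some member of `exc`. -/
structure Fam where
  den : ℤ
  v : IV
  T1 : IV
  T2 : IV
  T3 : IV
  K1 : IV
  K2 : IV
  exc : List (List Cong)

/-- The vectors of the family. -/
noncomputable def Fam.pt (f : Fam) (n : IV) (x y : ℝ) : V3 :=
  ((f.den : ℝ)⁻¹) • (f.v.vec + (n.x : ℝ) • f.T1.vec + (n.y : ℝ) • f.T2.vec + (n.z : ℝ) • f.T3.vec) +
    x • f.K1.vec + y • f.K2.vec

/-- The excluded values of the parameters `x`, `y`. -/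
def Fam.Excl (f : Fam) (x y : ℝ) : Prop := ∃ c ∈ f.exc, ∀ q ∈ c, q.Holds x y

/-- A block of the table: the kind of the frame, generators of the stabiliser of the base vertex,
the linear part `S` and the families of translation parts. -/
structure Block where
  kind : Kind
  gens : List IM
  S : IM
  fams : List Fam

/-- The group of linear maps generated by the matrices of the list. -/
def linGrp (l : List IM) : Subgroup (Equiv.Perm V3) :=
  Subgroup.closure {g | ∃ M ∈ l, IsAff g M.mat 0}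

/-- `s` is obtained from `t` or its inverse by multiplication with elements of `H` on both sides. -/
def Link (H : Subgroup (Equiv.Perm V3)) (s t : Equiv.Perm V3) : Prop :=
  ∃ h ∈ H, ∃ h' ∈ H, s = h * t * h' ∨ s = h * t⁻¹ * h'

/-- The generators `A`, `B`, `s` belong to the block: `A` and `B` generate the stabiliser given by
the block and `s` is linked to an affine map `x ↦ S x + p` with `p` in a family of the block. -/
def Block.Has (b : Block) (A B s : Equiv.Perm V3) : Prop :=
  stab A B = linGrp b.gens ∧ ∃ f ∈ b.fams, ∃ n x y, ¬ f.Excl x y ∧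
    ∃ t, IsAff t b.S.mat (f.pt n x y) ∧ Link (stab A B) s t

/-- The four types of rods. -/
inductive Rod
  | r1 | r2 | r3 | r4

/-- Generators of the stabiliser of the base vertex. -/
def Rod.gens : Rod → List IM
  | .r1 => [⟨⟨1, 0, 0⟩, ⟨0, -1, 0⟩, ⟨0, 0, 1⟩⟩, ⟨⟨1, 0, 0⟩, ⟨0, 1, 0⟩, ⟨0, 0, -1⟩⟩]
  | .r2 => [⟨⟨1, 0, 0⟩, ⟨0, 1, 0⟩, ⟨0, 0, -1⟩⟩]
  | .r3 => [⟨⟨1, 0, 0⟩, ⟨0, -1, 0⟩, ⟨0, 0, 1⟩⟩]
  | .r4 => [⟨⟨1, 0, 0⟩, ⟨0, -1, 0⟩, ⟨0, 0, -1⟩⟩]

/-- The vertical part of the linear part. -/
def Rod.sgn : Rod → ℝ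
  | .r4 => -1
  | _ => 1

/-- The rotation by `θ` about the vertical line through `(-1, 0, 0)`, followed by the reflection
in the plane `z = 0` if `ε = -1`, followed by the translation by `(0, 0, 1)`. -/
noncomputable def rodMat (θ ε : ℝ) : M3 :=
  !![Real.cos θ, -Real.sin θ, 0; Real.sin θ, Real.cos θ, 0; 0, 0, ε]

/-- The generators `A`, `B`, `s` define a rod: `A`, `B` generate the stabiliser and `s` is linked to
a rotation or rotatory reflection with angle `θ` about the vertical line through `(-1, 0, 0)`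
followed by a translation by `(0, 0, 1)`, `θ` being a rational multiple of `π` but no integer
multiple of `π`. -/
def Rod.Has (r : Rod) (A B s : Equiv.Perm V3) : Prop :=
  stab A B = linGrp r.gens ∧ ∃ θ : ℝ, (∃ p q : ℤ, 0 < q ∧ θ * q = Real.pi * p) ∧ Real.sin θ ≠ 0 ∧
    ∃ t, IsAff t (rodMat θ r.sgn) ![Real.cos θ - 1, Real.sin θ, 1] ∧ Link (stab A B) s t

end Pool.Agent.H21.FT
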