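import Pool.Agent.H21.FT.AxialAux
import Pool.Agent.H21.FT.Tab

/-!
# Affine maps that preserve a vertical axis: normal form
-/

namespace Pool.Agent.H21.FT

open Matrix

theorem v3_ext {x y : V3} (h : pl x = pl y) (h2 : x 2 = y 2) : x = y := by
  have h0 := congrArg Complex.re h
  have h1 := congrArg Complex.im h
  ext i
  fin_cases i
  · exact h0
  · exact h1
  · exact h2

theorem IsAff.ext' {g g' : Equiv.Perm V3} {M : M3} {a : V3} (h : IsAff g M a)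
    (h' : IsAff g' M a) : g = g' := by
  ext1 x
  rw [h x, h' x]

/-- The vector of a normal form. -/
def tv (u : ℂ) (l : ℝ) : V3 := ![u.re - 1, u.im, l]

@[simp] theorem pl_tv (u : ℂ) (l : ℝ) : pl (tv u l) = u - 1 := by
  apply Complex.ext <;> simp [pl, tv]

@[simp] theorem tv_two (u : ℂ) (l : ℝ) : tv u l 2 = l := rfl

theorem tv_one : tv 1 0 = 0 := v3_ext (by simp) (by simp)

/-- `g` is the map with planar part `z ↦ u (z + 1) - 1` (or with `z` conjugated) and vertical part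
`h ↦ ε h + l`. -/
def RF (g : Equiv.Perm V3) (u : ℂ) (σ : Bool) (ε l : ℝ) : Prop := IsAff g (rt u σ ε) (tv u l)

theorem cj_mul' (σ : Bool) (z w : ℂ) : cj σ (z * w) = cj σ z * cj σ w := by
  cases σ <;> simp [cj]

theorem cj_sub' (σ : Bool) (z w : ℂ) : cj σ (z - w) = cj σ z - cj σ w := by
  cases σ <;> simp [cj]

@[simp] theorem cj_one' (σ : Bool) : cj σ 1 = 1 := by
  cases σ <;> simp [cj]

theorem cj_cj' (σ : Bool) (z : ℂ) : cj σ (cj σ z) = z := by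
  cases σ <;> simp [cj]

theorem RF.one : RF 1 1 false 1 0 := by
  intro x
  rw [rt_one, tv_one]
  exact isAff_one x

theorem RF.mul {g g' : Equiv.Perm V3} {u u' : ℂ} {σ σ' : Bool} {ε ε' l l' : ℝ}
    (h : RF g u σ ε l) (h' : RF g' u' σ' ε' l') :
    RF (g * g') (u * cj σ u') (xor σ σ') (ε * ε') (ε * l' + l) := by
  have h1 := IsAff.mul h h'
  rw [rt_mul] at h1
  have h2 : rt u σ ε *ᵥ tv u' l' + tv u l = tv (u * cj σ u') (ε * l' + l) := by
    apply v3_ext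
    · rw [pl_add, pl_rt, pl_tv, pl_tv, pl_tv, cj_sub', cj_one']
      ring
    · rw [Pi.add_apply, rt_two, tv_two, tv_two, tv_two]
  rw [h2] at h1
  exact h1

theorem conj_mul_self' {u : ℂ} (h : ‖u‖ = 1) : (starRingEnd ℂ) u * u = 1 := by
  rw [← Complex.normSq_eq_conj_mul_self, Complex.normSq_eq_norm_sq, h]
  norm_num

theorem RF.inv {g : Equiv.Perm V3} {u : ℂ} {σ : Bool} {ε l : ℝ} (h : RF g u σ ε l)
    (hu : ‖u‖ = 1) (hε : ε = 1 ∨ ε = -1) :
    RF g⁻¹ (cj σ ((starRingEnd ℂ) u)) σ ε (-(ε * l)) := by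
  have hεε : ε * ε = 1 := by rcases hε with rfl | rfl <;> norm_num
  have h0 : cj σ ((starRingEnd ℂ) u) * cj σ u = 1 := by
    rw [← cj_mul', conj_mul_self' hu, cj_one']
  have hN : rt (cj σ ((starRingEnd ℂ) u)) σ ε * rt u σ ε = 1 := by
    rw [rt_mul, h0, hεε, Bool.xor_self, rt_one]
  have h1 := IsAff.inv h hN
  have h2 : -(rt (cj σ ((starRingEnd ℂ) u)) σ ε *ᵥ tv u l) =
      tv (cj σ ((starRingEnd ℂ) u)) (-(ε * l)) := by
    apply v3_ext
    · rw [pl_neg, pl_rt, pl_tv, pl_tv, cj_sub', cj_one', mul_sub, h0]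
      ring
    · rw [Pi.neg_apply, rt_two, tv_two, tv_two]
  rw [h2] at h1
  exact h1

theorem RF.zero {g : Equiv.Perm V3} {u : ℂ} {σ : Bool} {ε l : ℝ} (h : RF g u σ ε l) :
    g 0 = tv u l := by
  rw [h 0, mulVec_zero, zero_add]

theorem RF.fix {g : Equiv.Perm V3} {u : ℂ} {σ : Bool} {ε l : ℝ} (h : RF g u σ ε l)
    (h0 : g 0 = 0) : u = 1 ∧ l = 0 := by
  rw [h.zero] at h0
  have h1 := congrArg pl h0
  rw [pl_tv, pl_zero, sub_eq_zero] at h1
  exact ⟨h1, congrFun h0 2⟩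

/-- Induction over the group generated by `A`, `B`, `s`. -/
theorem rf_ind {A B s : Equiv.Perm V3} (P : ℂ → Bool → ℝ → ℝ → Prop) (h1 : P 1 false 1 0)
    (hmul : ∀ u σ ε l u' σ' ε' l', P u σ ε l → P u' σ' ε' l' →
      P (u * cj σ u') (xor σ σ') (ε * ε') (ε * l' + l))
    (hinv : ∀ u σ ε l, ‖u‖ = 1 → (ε = 1 ∨ ε = -1) → P u σ ε l →
      P (cj σ ((starRingEnd ℂ) u)) σ ε (-(ε * l)))
    (hg : ∀ g ∈ ({A, B, s} : Set (Equiv.Perm V3)),
      ∃ u σ ε l, ‖u‖ = 1 ∧ (ε = 1 ∨ ε = -1) ∧ RF g u σ ε l ∧ P u σ ε l) :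
    ∀ g ∈ grp A B s, ∃ u σ ε l, ‖u‖ = 1 ∧ (ε = 1 ∨ ε = -1) ∧ RF g u σ ε l ∧ P u σ ε l := by
  intro g hgm
  unfold grp at hgm
  induction hgm using Subgroup.closure_induction with
  | mem g h => exact hg g h
  | one => exact ⟨1, false, 1, 0, by simp, Or.inl rfl, RF.one, h1⟩
  | mul g g' _ _ ih ih' =>
    obtain ⟨u, σ, ε, l, hu, hε, hf, hP⟩ := ih
    obtain ⟨u', σ', ε', l', hu', hε', hf', hP'⟩ := ih'
    refine ⟨_, _, _, _, ?_, ?_, hf.mul hf', hmul _ _ _ _ _ _ _ _ hP hP'⟩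
    · rw [norm_mul, cj_norm, hu, hu', one_mul]
    · rcases hε with rfl | rfl <;> rcases hε' with rfl | rfl <;> norm_num
  | inv g _ ih =>
    obtain ⟨u, σ, ε, l, hu, hε, hf, hP⟩ := ih
    refine ⟨_, _, _, _, ?_, hε, hf.inv hu hε, hinv _ _ _ _ hu hε hP⟩
    rw [cj_norm, RCLike.norm_conj, hu]

end Pool.Agent.H21.FT
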