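import Pool.Agent.H21.FT.DefsC

/-!
# Reduction of a triple of matrices to a row: checks on indices

The matrices are replaced by their indices in a list, all tables are packed into natural numbers.
-/

namespace Pool.Agent.H21.FT

namespace RR

/-- The entry `i` of the table `t`, the entries having `w` bits. -/
def look (w t i : ℕ) : ℕ := Nat.mod (Nat.shiftRight t (Nat.mul w i)) (Nat.pow 2 w)

/-- The data: `n` matrices `A`, the matrices `N` used for the transformations, the rows `R` and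
packed tables. -/
structure Dat where
  n : ℕ
  A : List IM
  N : List IM
  R : List Row
  t : ℕ
  c : ℕ
  g : ℕ
  h : ℕ
  s : ℕ
  w : ℕ
  z : ℕ

variable (d : Dat)

/-- The matrix with index `i`. -/
def Dat.el (i : ℕ) : IM := d.A.getD i IM.one

/-- The transforming matrix with index `i`. -/
def Dat.nl (i : ℕ) : IM := d.N.getD i IM.one

/-- The row with index `i`. -/
def Dat.rl (i : ℕ) : Row := d.R.getD i ⟨[], IM.one, IM.one, 0, [], [], [], []⟩

/-- The product. -/
def Dat.T (i j : ℕ) : ℕ := look 5 d.t (Nat.add (Nat.mul d.n i) j)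

/-- The transformed matrix. -/
def Dat.C (i j : ℕ) : ℕ := look 5 d.c (Nat.add (Nat.mul d.n i) j)

/-- The generated group, as set of bits. -/
def Dat.G (i j : ℕ) : ℕ := look 24 d.g (Nat.add (Nat.mul d.n i) j)

/-- The group of the row, as set of bits. -/
def Dat.H (i : ℕ) : ℕ := look 24 d.h i

/-- The matrix `S` of the row. -/
def Dat.S (i : ℕ) : ℕ := look 5 d.s (Nat.mul 2 i)

/-- The matrix `Si` of the row. -/
def Dat.Si (i : ℕ) : ℕ := look 5 d.s (Nat.succ (Nat.mul 2 i))

/-- The double coset: code of the factors of `j`. -/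
def Dat.W (i j : ℕ) : ℕ := look 12 d.w (Nat.add (Nat.mul d.n i) j)

/-- The certificate of a triple. -/
def Dat.Z (i j k : ℕ) : ℕ :=
  look 12 d.z (Nat.add (Nat.mul d.n (Nat.add (Nat.mul d.n i) j)) k)

/-- Insert the element `y`. -/
def ins (p : ℕ × List ℕ) (y : ℕ) : ℕ × List ℕ :=
  bif Nat.testBit p.1 y then p else (Nat.lor p.1 (Nat.pow 2 y), y :: p.2)

/-- The group generated by `a` and `b`. -/
def close (T : ℕ → ℕ → ℕ) (a b : ℕ) : ℕ → ℕ → List ℕ → ℕ
  | 0, m, _ => m
  | _ + 1, m, [] => m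
  | k + 1, m, x :: l =>
    close T a b k (ins (ins (m, l) (T a x)) (T b x)).1 (ins (ins (m, l) (T a x)) (T b x)).2

/-- Check for the product table. -/
def Dat.chkT : Bool :=
  (List.range d.n).all fun i => (List.range d.n).all fun j =>
    Nat.blt (d.T i j) d.n && decide ((d.el i).mul (d.el j) = d.el (d.T i j))

/-- Check for the transformation table. -/
def Dat.chkC : Bool :=
  (List.range d.N.length).all fun i => (List.range d.n).all fun j =>
    Nat.blt (d.C i j) d.n && decide ((d.nl i).mul (d.el j) = (d.el (d.C i j)).mul (d.nl i))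

/-- Check for the generated groups. -/
def Dat.chkG : Bool :=
  (List.range d.n).all fun i => (List.range d.n).all fun j =>
    Nat.beq (close d.T i j 40 1 [0]) (d.G i j) && Nat.testBit (d.G i j) 0 &&
    (List.range d.n).all fun x => bif Nat.testBit (d.G i j) x then
      Nat.testBit (d.G i j) (d.T i x) && Nat.testBit (d.G i j) (d.T j x) else true

/-- Check for the rows. -/
def Dat.chkR : Bool :=
  (List.range d.R.length).all fun r =>
    decide (d.el (d.S r) = (d.rl r).S) && decide (d.el (d.Si r) = (d.rl r).Si) &&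
    Nat.blt (d.S r) d.n && Nat.blt (d.Si r) d.n &&
    (d.rl r).hl.all (fun M => (List.range d.n).any fun i =>
      Nat.testBit (d.H r) i && decide (d.el i = M)) &&
    (List.range d.n).all (fun i => bif Nat.testBit (d.H r) i then
      (d.rl r).hl.any fun M => decide (d.el i = M) else true)

/-- Check for the double cosets. -/
def Dat.chkW : Bool :=
  (List.range d.R.length).all fun r => (List.range d.n).all fun s =>
    Nat.beq (d.W r s) 0 ||
    (Nat.testBit (d.H r) (Nat.mod (Nat.div (d.W r s) 2) 32) &&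
     Nat.testBit (d.H r) (Nat.mod (Nat.div (d.W r s) 64) 32) &&
     Nat.blt (Nat.mod (Nat.div (d.W r s) 2) 32) d.n &&
     Nat.blt (Nat.mod (Nat.div (d.W r s) 64) 32) d.n &&
     Nat.beq s (d.T (d.T (Nat.mod (Nat.div (d.W r s) 2) 32)
      (bif Nat.testBit (d.W r s) 0 then d.Si r else d.S r)) (Nat.mod (Nat.div (d.W r s) 64) 32)))

/-- Check for a triple: `z` is the certificate. -/
def Dat.chk1 (a b s z : ℕ) : Bool :=
  Nat.blt (Nat.mod z 64) d.N.length && Nat.blt (Nat.div z 64) d.R.length &&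
  Nat.beq (d.G (d.C (Nat.mod z 64) a) (d.C (Nat.mod z 64) b)) (d.H (Nat.div z 64)) &&
  !(Nat.beq (d.W (Nat.div z 64) (d.C (Nat.mod z 64) s)) 0)

/-- Check for all triples which are not excluded. -/
def Dat.chkZ (ex : ℕ → ℕ → ℕ → Bool) (lo hi : ℕ) : Bool :=
  (List.range hi).all fun a => Nat.blt a lo || (List.range d.n).all fun b =>
    (List.range d.n).all fun s => ex a b s || d.chk1 a b s (d.Z a b s)

structure Dat.OK : Prop where
  len : d.A.length = d.n
  pos : 0 < d.n
  zero : d.el 0 = IM.one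
  T : d.chkT = true
  C : d.chkC = true
  G : d.chkG = true
  R : d.chkR = true
  W : d.chkW = true

variable {d}

lemma Dat.OK.hT (ok : d.OK) {i j : ℕ} (hi : i < d.n) (hj : j < d.n) :
    d.T i j < d.n ∧ (d.el i).mul (d.el j) = d.el (d.T i j) := by
  have h := ok.T
  simp only [Dat.chkT, List.all_eq_true, List.mem_range, Bool.and_eq_true, decide_eq_true_eq,
    Nat.blt_eq] at h
  exact h i hi j hj

lemma Dat.OK.hC (ok : d.OK) {i j : ℕ} (hi : i < d.N.length) (hj : j < d.n) :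
    d.C i j < d.n ∧ (d.nl i).mul (d.el j) = (d.el (d.C i j)).mul (d.nl i) := by
  have h := ok.C
  simp only [Dat.chkC, List.all_eq_true, List.mem_range, Bool.and_eq_true, decide_eq_true_eq,
    Nat.blt_eq] at h
  exact h i hi j hj

lemma Dat.OK.mem_el (ok : d.OK) {M : IM} (hM : M ∈ d.A) : ∃ i < d.n, d.el i = M := by
  obtain ⟨i, hi, h⟩ := List.getElem_of_mem hM
  refine ⟨i, ok.len ▸ hi, ?_⟩
  rw [Dat.el, List.getD_eq_getElem _ _ hi, h]

lemma ins_inv {P : ℕ → Prop} {p : ℕ × List ℕ} {y : ℕ}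
    (h1 : ∀ i, Nat.testBit p.1 i = true → P i) (h2 : ∀ i ∈ p.2, P i) (hy : P y) :
    (∀ i, Nat.testBit (ins p y).1 i = true → P i) ∧ ∀ i ∈ (ins p y).2, P i := by
  unfold ins
  cases h : Nat.testBit p.1 y
  · refine ⟨fun i hi => ?_, fun i hi => ?_⟩
    · have hi' : (p.1 ||| 2 ^ y).testBit i = true := hi
      rw [Nat.testBit_or, Bool.or_eq_true, Nat.testBit_two_pow, decide_eq_true_eq] at hi'
      rcases hi' with hi' | rfl
      · exact h1 i hi'
      · exact hy
    · rcases List.mem_cons.1 hi with rfl | hi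
      · exact hy
      · exact h2 i hi
  · exact ⟨h1, h2⟩

lemma close_inv {P : ℕ → Prop} {T : ℕ → ℕ → ℕ} {a b : ℕ}
    (hP : ∀ x, P x → P (T a x) ∧ P (T b x)) :
    ∀ (k m : ℕ) (l : List ℕ), (∀ i, Nat.testBit m i = true → P i) → (∀ i ∈ l, P i) →
      ∀ i, Nat.testBit (close T a b k m l) i = true → P i
  | 0, m, l, h1, _ => by
    intro i hi
    exact h1 i (by simpa [close] using hi)
  | k + 1, m, [], h1, _ => by
    intro i hi
    exact h1 i (by simpa [close] using hi)
  | k + 1, m, x :: l, h1, h2 => by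
    intro i hi
    rw [close] at hi
    have hx := h2 x (by simp)
    have e1 := ins_inv (p := (m, l)) (y := T a x) h1 (fun i hi => h2 i (by simp [hi])) (hP x hx).1
    have e2 := ins_inv (p := ins (m, l) (T a x)) (y := T b x) e1.1 e1.2 (hP x hx).2
    exact close_inv hP k _ _ e2.1 e2.2 i hi

lemma Dat.OK.hG (ok : d.OK) {i j : ℕ} (hi : i < d.n) (hj : j < d.n) (M : IM) :
    GenBy [d.el i, d.el j] M ↔ ∃ k < d.n, Nat.testBit (d.G i j) k = true ∧ d.el k = M := by
  have h := ok.G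
  simp only [Dat.chkG, List.all_eq_true, List.mem_range, Bool.and_eq_true, Nat.beq_eq] at h
  obtain ⟨⟨h1, h2⟩, h3⟩ := h i hi j hj
  constructor
  · intro hM
    induction hM with
    | one => exact ⟨0, ok.pos, h2, ok.zero⟩
    | mul hM _ ih =>
      obtain ⟨k, hk, hb, rfl⟩ := ih
      have h4 := h3 k hk
      rw [hb, cond_true, Bool.and_eq_true] at h4
      rcases List.mem_cons.1 hM with rfl | hM
      · exact ⟨_, (ok.hT hi hk).1, h4.1, (ok.hT hi hk).2.symm⟩
      · rw [List.mem_singleton] at hM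
        subst hM
        exact ⟨_, (ok.hT hj hk).1, h4.2, (ok.hT hj hk).2.symm⟩
  · rintro ⟨k, hk, hb, rfl⟩
    rw [← h1] at hb
    refine (close_inv (P := fun x => x < d.n ∧ GenBy [d.el i, d.el j] (d.el x)) ?_ 40 1 [0] ?_ ?_
      k hb).2
    · rintro x ⟨hx, hg⟩
      refine ⟨⟨(ok.hT hi hx).1, ?_⟩, ⟨(ok.hT hj hx).1, ?_⟩⟩
      · rw [← (ok.hT hi hx).2]
        exact GenBy.mul (by simp) hg
      · rw [← (ok.hT hj hx).2]
        exact GenBy.mul (by simp) hg
    · intro x hx
      have : x = 0 := by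
        rw [show (1 : ℕ) = 2 ^ 0 from rfl, Nat.testBit_two_pow, decide_eq_true_eq] at hx
        exact hx.symm
      subst this
      exact ⟨ok.pos, ok.zero ▸ GenBy.one⟩
    · intro x hx
      rw [List.mem_singleton] at hx
      subst hx
      exact ⟨ok.pos, ok.zero ▸ GenBy.one⟩

lemma Dat.OK.hR (ok : d.OK) {r : ℕ} (hr : r < d.R.length) :
    d.el (d.S r) = (d.rl r).S ∧ d.el (d.Si r) = (d.rl r).Si ∧ d.S r < d.n ∧ d.Si r < d.n ∧
    ∀ M, M ∈ (d.rl r).hl ↔ ∃ k < d.n, Nat.testBit (d.H r) k = true ∧ d.el k = M := by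
  have h := ok.R
  simp only [Dat.chkR, List.all_eq_true, List.any_eq_true, List.mem_range, Bool.and_eq_true,
    Nat.blt_eq, decide_eq_true_eq] at h
  obtain ⟨⟨⟨⟨⟨h1, h2⟩, h3⟩, h4⟩, h5⟩, h6⟩ := h r hr
  refine ⟨h1, h2, h3, h4, fun M => ⟨fun hM => ?_, ?_⟩⟩
  · obtain ⟨k, hk, hb, he⟩ := h5 M hM
    exact ⟨k, hk, hb, he⟩
  · rintro ⟨k, hk, hb, rfl⟩
    have h7 := h6 k hk
    rw [hb, cond_true, List.any_eq_true] at h7
    obtain ⟨M, hM, he⟩ := h7
    rw [decide_eq_true_eq] at he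
    rwa [he]

lemma Dat.OK.hW (ok : d.OK) {r s : ℕ} (hr : r < d.R.length) (hs : s < d.n) (h0 : d.W r s ≠ 0) :
    ∃ h ∈ (d.rl r).hl, ∃ h' ∈ (d.rl r).hl,
      d.el s = (h.mul (d.rl r).S).mul h' ∨ d.el s = (h.mul (d.rl r).Si).mul h' := by
  have h := ok.W
  simp only [Dat.chkW, List.all_eq_true, List.mem_range, Bool.and_eq_true, Bool.or_eq_true,
    Nat.blt_eq, Nat.beq_eq] at h
  rcases h r hr s hs with h | ⟨⟨⟨⟨h1, h2⟩, h3⟩, h4⟩, h5⟩
  · exact absurd h h0
  obtain ⟨r1, r2, r3, r4, r5⟩ := ok.hR hr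
  refine ⟨_, (r5 _).2 ⟨_, h3, h1, rfl⟩, _, (r5 _).2 ⟨_, h4, h2, rfl⟩, ?_⟩
  cases hb : Nat.testBit (d.W r s) 0
  · left
    rw [hb, cond_false] at h5
    rw [← r1, (ok.hT h3 r3).2, (ok.hT (ok.hT h3 r3).1 h4).2, ← h5]
  · right
    rw [hb, cond_true] at h5
    rw [← r2, (ok.hT h3 r4).2, (ok.hT (ok.hT h3 r4).1 h4).2, ← h5]

/-- The conclusion for a triple of indices. -/
theorem Dat.OK.red (ok : d.OK) {a b s z : ℕ} (ha : a < d.n) (hb : b < d.n) (hs : s < d.n)
    (hz : d.chk1 a b s z = true) :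
    ∃ i < d.N.length, ∃ r < d.R.length, RedTo (d.el a) (d.el b) (d.el s) (d.nl i) (d.rl r) := by
  simp only [Dat.chk1, Bool.and_eq_true, Nat.blt_eq, Nat.beq_eq, Bool.not_eq_true'] at hz
  obtain ⟨⟨⟨h1, h2⟩, h3⟩, h4⟩ := hz
  have ca := ok.hC h1 ha
  have cb := ok.hC h1 hb
  have cs := ok.hC h1 hs
  refine ⟨_, h1, _, h2, _, _, _, ca.2, cb.2, cs.2, fun M => ?_, ?_⟩
  · rw [ok.hG ca.1 cb.1, (ok.hR h2).2.2.2.2, h3]
  · refine ok.hW h2 cs.1 fun h0 => ?_
    rw [h0] at h4
    exact absurd h4 (by decide)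

/-- The conclusion for a triple of matrices. -/
theorem Dat.OK.main (ok : d.OK) {ex : ℕ → ℕ → ℕ → Bool}
    (hz : ∀ a < d.n, ∀ b < d.n, ∀ s < d.n, ex a b s = true ∨ d.chk1 a b s (d.Z a b s) = true)
    {bl : List Block} {rw : List (Row × List LatE)} (hR : d.R = rw.map Prod.fst)
    (hl : bl.length = rw.length) {a b s : ℕ} (ha : a < d.n) (hb : b < d.n) (hs : s < d.n)
    (hx : ex a b s = false) :
    ∃ N ∈ d.N, ∃ x ∈ bl.zip rw, RedTo (d.el a) (d.el b) (d.el s) N x.2.1 := by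
  rcases hz a ha b hb s hs with h | h
  · rw [hx] at h
    exact absurd h (by decide)
  obtain ⟨i, hi, r, hr, hred⟩ := ok.red ha hb hs h
  have hr' : r < rw.length := by rw [hR, List.length_map] at hr; exact hr
  have hzl : r < (bl.zip rw).length := by rw [List.length_zip, hl, Nat.min_self]; exact hr'
  refine ⟨d.nl i, ?_, (bl.zip rw)[r], List.getElem_mem hzl, ?_⟩
  · rw [Dat.nl, List.getD_eq_getElem _ _ hi]
    exact List.getElem_mem hi
  · have : (bl.zip rw)[r].2.1 = d.rl r := by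
      rw [Dat.rl, List.getD_eq_getElem _ _ hr, List.getElem_zip]
      simp only [hR, List.getElem_map]
    rw [this]
    exact hred

lemma Dat.chkZ_spec {ex : ℕ → ℕ → ℕ → Bool} {lo hi : ℕ} (h : d.chkZ ex lo hi = true) {a : ℕ}
    (h1 : lo ≤ a) (h2 : a < hi) {b : ℕ} (hb : b < d.n) {s : ℕ} (hs : s < d.n) :
    ex a b s = true ∨ d.chk1 a b s (d.Z a b s) = true := by
  simp only [Dat.chkZ, List.all_eq_true, List.mem_range, Bool.or_eq_true, Nat.blt_eq] at h
  rcases h a h2 with h | h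
  · omega
  · exact h b hb s hs

end RR

end Pool.Agent.H21.FT
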