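import Pool.Agent.H21.FT.DefsG
import Pool.Agent.H21.FT.KerCub
import Pool.Agent.H21.FT.KerAx

/-!
# Blocks that only give generators of polyhedra with further symmetries: the check
-/

namespace Pool.Agent.H21.FT

open Matrix

namespace Void

/-- The inverse of an element of the list. -/
def inv (hl : List IM) (a : IM) : IM := (hl.find? (fun M => decide (M.mul a = IM.one))).getD IM.one

/-- The elements generated by `a` and `b`. -/
def gen (a b : IM) : List IM := elts [a, b]

/-- All vectors of the family are mapped to zero by `D`. -/
def kills (f : Fam) (D : IM) : Bool :=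
  let z : IV := ⟨0, 0, 0⟩
  decide (D.mv f.v = z) && decide (D.mv f.T1 = z) && decide (D.mv f.T2 = z) &&
    decide (D.mv f.T3 = z) && decide (D.mv f.K1 = z) && decide (D.mv f.K2 = z)

/-- The linear form `u` vanishes on the directions of the family, but not on `v`. -/
def offU (f : Fam) (u : IV) : Bool :=
  decide (u.dot f.T1 = 0) && decide (u.dot f.T2 = 0) && decide (u.dot f.T3 = 0) &&
    decide (u.dot f.K1 = 0) && decide (u.dot f.K2 = 0) && !decide (u.dot f.v = 0)

/-- No vector of the family is mapped to zero by `D`. -/
def off (f : Fam) (D : IM) : Bool := offU f D.a || offU f D.b || offU f D.c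

/-- The other triples of generators. -/
def oth (c : Cls) (A Ai B s si : FA) : List (FA × FA × FA) :=
  match c with
  | .reg => []
  | .c2 => [(Ai, B, s)]
  | .c20 => [(Ai, B, s)]
  | .c21 => [(B, A, s)]
  | .c22 => [(B, A, si)]
  | .c4a => [(Ai, B, s.mul A), (A, B, si.mul Ai), (Ai, B, si)]
  | .c4b => [(B, A, si)]

/-- The relations cannot hold (linear parts). -/
def relNo (c : Cls) (a b S Si : IM) : Bool :=
  let i := IM.one
  match c with
  | .reg => decide (a.mul a ≠ i) || decide (b.mul b ≠ i) || decide (S.mul S ≠ i) ||
      decide (S.mul b ≠ b.mul S)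
  | .c2 => decide (b ≠ i) || decide (S.mul S ≠ i)
  | .c20 => decide (b ≠ i) || decide (S.mul S ≠ i)
  | .c21 => decide (a.mul a ≠ i) || decide (b.mul b ≠ i) || decide (S.mul S ≠ i)
  | .c22 => decide (a.mul a ≠ i) || decide (b ≠ (Si.mul a).mul S)
  | .c4a => decide (b ≠ i)
  | .c4b => decide (a.mul a ≠ i) || decide (b.mul b ≠ i)

/-- The generators of the stabiliser are degenerate. -/
def ndNo (c : Cls) (a b : IM) : Bool :=
  let i := IM.one
  match c with
  | .reg => decide (a = i)
  | .c2 => decide (a = i) || decide (a.mul a = i)
  | .c20 => decide (a = i) || decide (a.mul a = i)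
  | .c21 => decide (a = i) || decide (b = i) || decide (a = b)
  | .c22 => decide (a = i)
  | .c4a => decide (a = i)
  | .c4b => decide (a = i) || decide (b = i)

/-- The construction requires `Free`. -/
def needFree : Cls → Bool
  | .reg => false
  | .c22 => false
  | _ => true

/-- The construction requires `Apart`. -/
def needApart : Cls → Bool
  | .c22 => true
  | .c4a => true
  | .c4b => true
  | _ => false

/-- The construction requires `s * s = 1`. -/
def needInv : Cls → Bool
  | .reg => true
  | .c2 => true
  | .c20 => true
  | .c21 => true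
  | _ => false

/-- `s 0 = X w` for the generator `s = (S, X)`: a nontrivial element of the stabiliser fixes it. -/
def freeNo (hl : List IM) (f : Fam) (s : FA) : Bool :=
  hl.any fun g => decide (g ≠ IM.one) && kills f ((g.mul s.X).sub s.X)

/-- An element of the stabiliser maps `s 0` to `s⁻¹ 0`. -/
def apartNo (hl : List IM) (f : Fam) (s si : FA) : Bool :=
  hl.any fun g => kills f ((g.mul s.X).sub si.X)

/-- The matrix of the vector that vanishes by the relations: `s (s 0)` or `A (s 0) - s 0`. -/
def van (c : Cls) (a : IM) (s : FA) : IM :=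
  if needInv c then (s.M.mul s.X).add s.X
  else if c = .c22 then (a.mul s.X).sub s.X else IM.zero

/-- The matrix `M` transforms the generators to one of the other triples. -/
def cert (c : Cls) (f : Fam) (A Ai B s si : FA) (M : IM) : Bool :=
  (oth c A Ai B s si).any fun T =>
    decide (M.mul A.M = T.1.M.mul M) && decide (M.mul B.M = T.2.1.M.mul M) &&
    decide (M.mul s.M = T.2.2.M.mul M) &&
    (let D := (M.mul s.X).sub T.2.2.X
     kills f D || kills f (D.add (van c A.M s)) || kills f (D.sub (van c A.M s)))

/-- The construction `c` is impossible or gives polyhedra with further symmetries. -/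
def one (k : Kind) (hl : List IM) (f : Fam) (a b : IM) (s si : FA) (c : Cls) : Bool :=
  relNo c a b s.M si.M || ndNo c a b || (needFree c && freeNo hl f s) ||
  (needApart c && apartNo hl f s si) || (needInv c && off f (van c a s)) ||
  k.auts.any (cert c f ⟨a, IM.zero⟩ ⟨inv hl a, IM.zero⟩ ⟨b, IM.zero⟩ s si)

/-- The check for a family of a block. -/
def famChk (k : Kind) (r : Row) (f : Fam) : Bool :=
  r.hl.all fun a => r.hl.all fun b =>
    !r.hl.all (fun M => (gen a b).contains M) ||
    r.hl.all fun h =>
      let hi := inv r.hl h
      let t : FA := ⟨r.S.mul h, IM.one⟩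
      let ti : FA := ⟨hi.mul r.Si, (hi.mul r.Si).neg⟩
      let u : FA := ⟨r.Si.mul h, r.Si.neg⟩
      let ui : FA := ⟨hi.mul r.S, hi⟩
      [Cls.reg, .c2, .c20, .c21, .c22, .c4a, .c4b].all fun c =>
        one k r.hl f a b t ti c && one k r.hl f a b u ui c

/-- The members of the list at the given positions. -/
def pick {α : Type} (l : List α) (idx : List ℕ) : List α := idx.filterMap fun i => l[i]?

/-- The positions of the tetragonal blocks. -/
def tetIdx : List ℕ := [0, 1, 2, 7, 8, 9, 10, 11, 12, 13, 14]

/-- The positions of the hexagonal blocks. -/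
def hexIdx : List ℕ :=
  [8, 9, 10, 11, 12, 13, 14, 15, 16, 17, 18, 19, 37, 38, 39, 40, 41, 42, 43, 44, 45, 46]

/-- The positions of the orthogonal blocks. -/
def ortIdx : List ℕ := [0, 1, 2]

/-- The blocks that only give generators of polyhedra with further symmetries. -/
def voids : List Block :=
  pick tetBlocks tetIdx ++ pick hexBlocks hexIdx ++ pick ortBlocks ortIdx

end Void

end Pool.Agent.H21.FT
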