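import Pool.Agent.H21.FT.ListSplit
import Pool.Agent.H21.FT.VoidDefs

/-!
# Kernel checks: hexagonal blocks, part 1
-/

namespace Pool.Agent.H21.FT

namespace Void

set_option maxRecDepth 100000 in
theorem hex_chk2_p0 : (((pick (hexBlocks.zip hexRows) [8, 9, 10, 11, 12, 13, 14, 15, 16, 17, 18, 19]).drop 0).take 2).all
    (fun x => x.1.fams.all (famChk .hex x.2.1)) = true := by
  decide +kernel

set_option maxRecDepth 100000 in
theorem hex_chk2_p1 : (((pick (hexBlocks.zip hexRows) [8, 9, 10, 11, 12, 13, 14, 15, 16, 17, 18, 19]).drop 2).take 2).all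
    (fun x => x.1.fams.all (famChk .hex x.2.1)) = true := by
  decide +kernel

set_option maxRecDepth 100000 in
theorem hex_chk2_p2 : (((pick (hexBlocks.zip hexRows) [8, 9, 10, 11, 12, 13, 14, 15, 16, 17, 18, 19]).drop 4).take 2).all
    (fun x => x.1.fams.all (famChk .hex x.2.1)) = true := by
  decide +kernel

set_option maxRecDepth 100000 in
theorem hex_chk2_p3 : (((pick (hexBlocks.zip hexRows) [8, 9, 10, 11, 12, 13, 14, 15, 16, 17, 18, 19]).drop 6).take 2).all
    (fun x => x.1.fams.all (famChk .hex x.2.1)) = true := by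
  decide +kernel

set_option maxRecDepth 100000 in
theorem hex_chk2_p4 : (((pick (hexBlocks.zip hexRows) [8, 9, 10, 11, 12, 13, 14, 15, 16, 17, 18, 19]).drop 8).take 2).all
    (fun x => x.1.fams.all (famChk .hex x.2.1)) = true := by
  decide +kernel

set_option maxRecDepth 100000 in
theorem hex_chk2_p5 : ((pick (hexBlocks.zip hexRows) [8, 9, 10, 11, 12, 13, 14, 15, 16, 17, 18, 19]).drop 10).all
    (fun x => x.1.fams.all (famChk .hex x.2.1)) = true := by
  decide +kernel

theorem hex_chk2 : (pick (hexBlocks.zip hexRows) [8, 9, 10, 11, 12, 13, 14, 15, 16, 17, 18, 19]).all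
    (fun x => x.1.fams.all (famChk .hex x.2.1)) = true := by
  change ((pick (hexBlocks.zip hexRows) [8, 9, 10, 11, 12, 13, 14, 15, 16, 17, 18, 19]).drop 0).all _ = true
  refine all_step 0 2 hex_chk2_p0 ?_
  refine all_step 2 2 hex_chk2_p1 ?_
  refine all_step 4 2 hex_chk2_p2 ?_
  refine all_step 6 2 hex_chk2_p3 ?_
  refine all_step 8 2 hex_chk2_p4 ?_
  exact hex_chk2_p5

end Void

end Pool.Agent.H21.FT
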