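import Pool.Agent.H21.FT.ListSplit
import Pool.Agent.H21.FT.VoidDefs

/-!
# Kernel checks: hexagonal blocks, part 3
-/

namespace Pool.Agent.H21.FT

namespace Void

set_option maxRecDepth 100000 in
theorem hex_chk4_p0 : (((pick (hexBlocks.zip hexRows) [42, 43, 44, 45, 46]).drop 0).take 1).all
    (fun x => x.1.fams.all (famChk .hex x.2.1)) = true := by
  decide +kernel

set_option maxRecDepth 100000 in
theorem hex_chk4_p1 : (((pick (hexBlocks.zip hexRows) [42, 43, 44, 45, 46]).drop 1).take 1).all
    (fun x => x.1.fams.all (famChk .hex x.2.1)) = true := by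
  decide +kernel

set_option maxRecDepth 100000 in
theorem hex_chk4_p2 : (((pick (hexBlocks.zip hexRows) [42, 43, 44, 45, 46]).drop 2).take 1).all
    (fun x => x.1.fams.all (famChk .hex x.2.1)) = true := by
  decide +kernel

set_option maxRecDepth 100000 in
theorem hex_chk4_p3 : (((pick (hexBlocks.zip hexRows) [42, 43, 44, 45, 46]).drop 3).take 1).all
    (fun x => x.1.fams.all (famChk .hex x.2.1)) = true := by
  decide +kernel

set_option maxRecDepth 100000 in
theorem hex_chk4_p4 : ((pick (hexBlocks.zip hexRows) [42, 43, 44, 45, 46]).drop 4).all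
    (fun x => x.1.fams.all (famChk .hex x.2.1)) = true := by
  decide +kernel

theorem hex_chk4 : (pick (hexBlocks.zip hexRows) [42, 43, 44, 45, 46]).all
    (fun x => x.1.fams.all (famChk .hex x.2.1)) = true := by
  change ((pick (hexBlocks.zip hexRows) [42, 43, 44, 45, 46]).drop 0).all _ = true
  refine all_step 0 1 hex_chk4_p0 ?_
  refine all_step 1 1 hex_chk4_p1 ?_
  refine all_step 2 1 hex_chk4_p2 ?_
  refine all_step 3 1 hex_chk4_p3 ?_
  exact hex_chk4_p4

end Void

end Pool.Agent.H21.FT
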