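import Pool.Agent.H21.FT.VoidKer1
import Pool.Agent.H21.FT.VoidKer2
import Pool.Agent.H21.FT.VoidKer3
import Pool.Agent.H21.FT.VoidKer4

/-!
# Blocks that only give generators of polyhedra with further symmetries: the kernel checks
-/

namespace Pool.Agent.H21.FT

namespace Void

theorem pick_append {α : Type} (l : List α) (i j : List ℕ) :
    pick l (i ++ j) = pick l i ++ pick l j := by
  simp only [pick, List.filterMap_append]

theorem hexIdx_eq : hexIdx = ([8, 9, 10, 11, 12, 13, 14, 15, 16, 17, 18, 19] ++
    [37, 38, 39, 40, 41]) ++ [42, 43, 44, 45, 46] := rfl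

theorem hex_chk : (pick (hexBlocks.zip hexRows) hexIdx).all
    (fun x => x.1.fams.all (famChk .hex x.2.1)) = true := by
  rw [hexIdx_eq, pick_append, pick_append, List.all_append, List.all_append, hex_chk2, hex_chk3,
    hex_chk4]
  rfl

end Void

end Pool.Agent.H21.FT
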