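import Pool.Agent.H21.FT.ListSplit
import Pool.Agent.H21.FT.VoidDefs

/-!
# Kernel checks: tetragonal and orthogonal blocks
-/

namespace Pool.Agent.H21.FT

namespace Void

set_option maxRecDepth 100000 in
theorem tet_chk_p0 : (((pick (tetBlocks.zip tetRows) tetIdx).drop 0).take 2).all
    (fun x => x.1.fams.all (famChk .tet x.2.1)) = true := by
  decide +kernel

set_option maxRecDepth 100000 in
theorem tet_chk_p1 : (((pick (tetBlocks.zip tetRows) tetIdx).drop 2).take 2).all
    (fun x => x.1.fams.all (famChk .tet x.2.1)) = true := by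
  decide +kernel

set_option maxRecDepth 100000 in
theorem tet_chk_p2 : (((pick (tetBlocks.zip tetRows) tetIdx).drop 4).take 2).all
    (fun x => x.1.fams.all (famChk .tet x.2.1)) = true := by
  decide +kernel

set_option maxRecDepth 100000 in
theorem tet_chk_p3 : (((pick (tetBlocks.zip tetRows) tetIdx).drop 6).take 2).all
    (fun x => x.1.fams.all (famChk .tet x.2.1)) = true := by
  decide +kernel

set_option maxRecDepth 100000 in
theorem tet_chk_p4 : (((pick (tetBlocks.zip tetRows) tetIdx).drop 8).take 2).all
    (fun x => x.1.fams.all (famChk .tet x.2.1)) = true := by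
  decide +kernel

set_option maxRecDepth 100000 in
theorem tet_chk_p5 : ((pick (tetBlocks.zip tetRows) tetIdx).drop 10).all
    (fun x => x.1.fams.all (famChk .tet x.2.1)) = true := by
  decide +kernel

theorem tet_chk : (pick (tetBlocks.zip tetRows) tetIdx).all
    (fun x => x.1.fams.all (famChk .tet x.2.1)) = true := by
  change ((pick (tetBlocks.zip tetRows) tetIdx).drop 0).all _ = true
  refine all_step 0 2 tet_chk_p0 ?_
  refine all_step 2 2 tet_chk_p1 ?_
  refine all_step 4 2 tet_chk_p2 ?_
  refine all_step 6 2 tet_chk_p3 ?_
  refine all_step 8 2 tet_chk_p4 ?_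
  exact tet_chk_p5

set_option maxRecDepth 100000 in
theorem ort_chk : (pick (ortBlocks.zip ortRows) ortIdx).all
    (fun x => x.1.fams.all (famChk .ort x.2.1)) = true := by
  decide +kernel

set_option maxRecDepth 100000 in
theorem tet_len : (pick (tetBlocks.zip tetRows) tetIdx).all
    (fun x => decide (x.2.1.hl.length ≤ 12)) = true := by
  decide +kernel

set_option maxRecDepth 100000 in
theorem ort_len : (pick (ortBlocks.zip ortRows) ortIdx).all
    (fun x => decide (x.2.1.hl.length ≤ 12)) = true := by
  decide +kernel

set_option maxRecDepth 100000 in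
theorem hex_len : (pick (hexBlocks.zip hexRows) hexIdx).all
    (fun x => decide (x.2.1.hl.length ≤ 12)) = true := by
  decide +kernel

end Void

end Pool.Agent.H21.FT
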